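import Pool.Agent.P.MP_63735c_ag.HSDefs
import Pool.Agent.P.MP_63735c_ag.SPExt2

-- part Pool.Agent.P.MP_63735c_ag.HSExt1
section

/-! Top degree elements of the exterior algebra. -/

open scoped Matrix

namespace Pool.Agent.HS

open Pool.Agent.SPF ExteriorAlgebra

section Top

variable {V : Type} [AddCommGroup V] [Module ℂ V] {d : ℕ}

theorem top_eq (e : Module.Basis (Fin d) ℂ V) (v : Fin d → V) :
    ιMulti ℂ d v = e.det v • ιMulti ℂ d e := by
  rw [← sub_eq_zero, ← Module.forall_dual_apply_eq_zero_iff ℂ]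
  intro φ
  have h := congrArg (fun f => f v)
    (AlternatingMap.eq_smul_basis_det e (φ.compAlternatingMap (ιMulti ℂ d)))
  simp only [LinearMap.compAlternatingMap_apply, AlternatingMap.smul_apply, smul_eq_mul] at h
  rw [map_sub, map_smul, h, smul_eq_mul, mul_comm, sub_self]

theorem top_mem (e : Module.Basis (Fin d) ℂ V) {x : ExteriorAlgebra ℂ V} (hx : x ∈ ⋀[ℂ]^d V) :
    ∃ p : ℂ, x = p • ιMulti ℂ d e := by
  rw [← ιMulti_span_fixedDegree] at hx
  induction hx using Submodule.span_induction with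
  | mem x hx =>
    obtain ⟨v, rfl⟩ := hx
    exact ⟨_, top_eq e v⟩
  | zero => exact ⟨0, (zero_smul _ _).symm⟩
  | add x y _ _ hx hy =>
    obtain ⟨p, rfl⟩ := hx
    obtain ⟨q, rfl⟩ := hy
    exact ⟨p + q, (add_smul _ _ _).symm⟩
  | smul c x _ hx =>
    obtain ⟨p, rfl⟩ := hx
    exact ⟨c * p, smul_smul _ _ _⟩

theorem top_map (e : Module.Basis (Fin d) ℂ V) (L : V →ₗ[ℂ] V) {x : ExteriorAlgebra ℂ V}
    (hx : x ∈ ⋀[ℂ]^d V) : ExteriorAlgebra.map L x = LinearMap.det L • x := by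
  obtain ⟨p, rfl⟩ := top_mem e hx
  rw [map_smul, map_apply_ιMulti, top_eq e, e.det_comp, e.det_self, mul_one, smul_comm]

theorem deg_mul {k l : ℕ} {x y : ExteriorAlgebra ℂ V} (hx : x ∈ ⋀[ℂ]^k V) (hy : y ∈ ⋀[ℂ]^l V) :
    x * y ∈ ⋀[ℂ]^(k + l) V := by
  rw [exteriorPower, pow_add]
  exact Submodule.mul_mem_mul hx hy

theorem deg_pow {k : ℕ} {x : ExteriorAlgebra ℂ V} (hx : x ∈ ⋀[ℂ]^k V) (l : ℕ) :
    x ^ l ∈ ⋀[ℂ]^(k * l) V := by
  rw [exteriorPower, pow_mul]
  exact Submodule.pow_mem_pow _ hx l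

theorem deg_two (u v : V) : ι ℂ u * ι ℂ v ∈ ⋀[ℂ]^2 V := by
  rw [exteriorPower, pow_two]
  exact Submodule.mul_mem_mul ⟨u, rfl⟩ ⟨v, rfl⟩

theorem deg_sum {κ : Type} [Fintype κ] (c : ℂ) (s : κ → κ → ℂ) (u v : κ → V) :
    c • ∑ a, ∑ b, s a b • (ι ℂ (u a) * ι ℂ (v b)) ∈ ⋀[ℂ]^2 V :=
  Submodule.smul_mem _ _ (Submodule.sum_mem _ fun _ _ => Submodule.sum_mem _ fun _ _ =>
    Submodule.smul_mem _ _ (deg_two _ _))

theorem two_comm {x : ExteriorAlgebra ℂ V} (hx : x ∈ ⋀[ℂ]^2 V) (y : ExteriorAlgebra ℂ V) :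
    Commute x y := by
  have h1 : ∀ v, Commute x (ι ℂ v) := fun v => by
    rw [exteriorPower, pow_two] at hx
    refine Submodule.mul_induction_on hx ?_ fun a b ha hb => ha.add_left hb
    rintro _ ⟨u, rfl⟩ _ ⟨w, rfl⟩
    have sw : ∀ a b : V, ι ℂ a * ι ℂ b = -(ι ℂ b * ι ℂ a) := fun a b =>
      eq_neg_of_add_eq_zero_left (ι_add_mul_swap a b)
    unfold Commute SemiconjBy
    rw [mul_assoc, sw w v, mul_neg, ← mul_assoc, sw u v, neg_mul, neg_neg, mul_assoc]
  induction y using ExteriorAlgebra.induction with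
  | algebraMap r => exact (Algebra.commutes r x).symm
  | ι v => exact h1 v
  | mul a b ha hb => exact ha.mul_right hb
  | add a b ha hb => exact ha.add_right hb

end Top

/-- An algebra with the conjugate complex structure. -/
def Cj (R : Type) : Type := R

instance cjRing {R : Type} [Ring R] : Ring (Cj R) := inferInstanceAs (Ring R)

noncomputable instance cjAlg {R : Type} [Ring R] [Algebra ℂ R] : Algebra ℂ (Cj R) :=
  RingHom.toAlgebra' (R := ℂ) (S := Cj R) ((algebraMap ℂ R).comp (starRingEnd ℂ))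
    fun c x => Algebra.commutes (A := R) (star c) x

theorem exists_conj (N : ℕ) : ∃ κ : ExteriorAlgebra ℂ (E N) →+* ExteriorAlgebra ℂ (E N),
    (∀ (c : ℂ) x, κ (c • x) = star c • κ x) ∧ ∀ v, κ (ι ℂ v) = ι ℂ (star v) := by
  let f : E N →ₗ[ℂ] Cj (ExteriorAlgebra ℂ (E N)) :=
    { toFun := fun v => (ι ℂ (star v) : ExteriorAlgebra ℂ (E N))
      map_add' := fun u v => by rw [star_add, map_add]; rfl
      map_smul' := fun c v => by
        rw [star_smul, map_smul, Algebra.smul_def]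
        rfl }
  let κ := ExteriorAlgebra.lift ℂ ⟨f, fun v => ι_sq_zero (R := ℂ) (star v)⟩
  refine ⟨(κ : ExteriorAlgebra ℂ (E N) →+* Cj (ExteriorAlgebra ℂ (E N))), fun c x => ?_,
    fun v => lift_ι_apply ℂ f _ v⟩
  have h := map_smul κ c x
  rw [Algebra.smul_def (star c)]
  exact h

variable {N n : ℕ} {s t h : Matrix (Fin N) (Fin N) ℂ}

theorem deg20 (s : Matrix (Fin N) (Fin N) ℂ) : form20 s ∈ ⋀[ℂ]^2 (Fin N ⊕ Fin N → ℂ) :=
  deg_sum _ _ _ _

theorem deg02 (s : Matrix (Fin N) (Fin N) ℂ) : form02 s ∈ ⋀[ℂ]^2 (Fin N ⊕ Fin N → ℂ) :=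
  deg_sum _ (fun a b => star (s a b)) _ _

theorem deg11 (h : Matrix (Fin N) (Fin N) ℂ) : form11 h ∈ ⋀[ℂ]^2 (Fin N ⊕ Fin N → ℂ) :=
  deg_sum _ _ _ _

theorem deg2 (c : ℂ) (s h : Matrix (Fin N) (Fin N) ℂ) :
    form2 c s h ∈ ⋀[ℂ]^2 (Fin N ⊕ Fin N → ℂ) :=
  Submodule.add_mem _ (Submodule.add_mem _ (Submodule.smul_mem _ _ (deg20 s))
    (Submodule.smul_mem _ _ (deg02 s))) (deg11 h)

/-- The standard basis. -/
noncomputable def bas (N : ℕ) : Module.Basis (Fin (2 * N)) ℂ (Fin N ⊕ Fin N → ℂ) :=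
  (Pi.basisFun ℂ _).reindex (finSumFinEquiv.trans (finCongr (two_mul N).symm))

/-- The endomorphism attached to a matrix. -/
noncomputable def ph (M : Matrix (Fin N ⊕ Fin N) (Fin N ⊕ Fin N) ℂ) : Ext N →ₐ[ℂ] Ext N :=
  ExteriorAlgebra.map (Matrix.toLin' Mᵀ)

theorem ph_top (M : Matrix (Fin N ⊕ Fin N) (Fin N ⊕ Fin N) ℂ) {x : Ext N}
    (hx : x ∈ ⋀[ℂ]^(2 * N) (Fin N ⊕ Fin N → ℂ)) : ph M x = M.det • x := by
  rw [ph, top_map (bas N) _ hx, LinearMap.det_toLin', Matrix.det_transpose]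

theorem ph_gen (M : Matrix (Fin N ⊕ Fin N) (Fin N ⊕ Fin N) ℂ) (j : Fin N ⊕ Fin N) :
    ph M (ι ℂ (Pi.single j 1)) =
      ∑ a, M j (Sum.inl a) • xz a + ∑ a, M j (Sum.inr a) • xb a := by
  rw [ph, map_apply_ι, Matrix.toLin'_apply, Matrix.mulVec_single_one]
  simp only [xz, xb, ← map_smul, ← map_sum, ← map_add]
  congr 1
  ext l
  cases l <;> simp [Finset.sum_apply, Pi.single_apply]

theorem ph_blocks (P Q R S : Matrix (Fin N) (Fin N) ℂ) (a : Fin N) :
    ph (Matrix.fromBlocks P Q R S) (xz a) = ∑ b, P a b • xz b + ∑ b, Q a b • xb b ∧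
      ph (Matrix.fromBlocks P Q R S) (xb a) = ∑ b, R a b • xz b + ∑ b, S a b • xb b :=
  ⟨ph_gen _ _, ph_gen _ _⟩

/-- The scaling that separates types. -/
theorem exists_scale (N : ℕ) {l : ℂ} (hl : l ≠ 0) : ∃ φ : Ext N →ₐ[ℂ] Ext N,
    (∀ x ∈ ⋀[ℂ]^(2 * N) (Fin N ⊕ Fin N → ℂ), φ x = x) ∧ (∀ s, φ (form20 s) = l ^ 2 • form20 s) ∧
      (∀ s, φ (form02 s) = l⁻¹ ^ 2 • form02 s) ∧ ∀ h, φ (form11 h) = form11 h := by
  have hb := ph_blocks (N := N) (l • 1) 0 0 (l⁻¹ • 1)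
  have h1 : ∀ a, ph (Matrix.fromBlocks (l • 1) 0 0 (l⁻¹ • 1)) (xz a) = l • xz (N := N) a :=
    fun a => by simpa [Matrix.one_apply] using (hb a).1
  have h2 : ∀ a, ph (Matrix.fromBlocks (l • 1) 0 0 (l⁻¹ • 1)) (xb a) = l⁻¹ • xb (N := N) a :=
    fun a => by simpa [Matrix.one_apply] using (hb a).2
  refine ⟨ph (Matrix.fromBlocks (l • 1) 0 0 (l⁻¹ • 1)), fun x hx => ?_, fun s => ?_, fun s => ?_,
    fun h => ?_⟩
  · rw [ph_top _ hx, Matrix.det_fromBlocks_zero₂₁, Matrix.det_smul, Matrix.det_smul,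
      Matrix.det_one, mul_one, mul_one, ← mul_pow, mul_inv_cancel₀ hl, one_pow, one_smul]
  · simp only [form20, map_smul, map_sum, map_mul, h1, smul_mul_smul_comm, Finset.smul_sum,
      smul_smul]
    exact Finset.sum_congr rfl fun a _ => Finset.sum_congr rfl fun b _ => by congr 1; ring
  · simp only [form02, map_smul, map_sum, map_mul, h2, smul_mul_smul_comm, Finset.smul_sum,
      smul_smul]
    exact Finset.sum_congr rfl fun a _ => Finset.sum_congr rfl fun b _ => by congr 1; ring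
  · simp only [form11, map_smul, map_sum, map_mul, h1, h2, smul_mul_smul_comm,
      mul_inv_cancel₀ hl, one_smul]

theorem type_zero {j k l : ℕ} (hN : j + k + l = N) (hkl : k ≠ l) :
    form11 h ^ j * form20 s ^ k * form02 t ^ l = 0 := by
  obtain ⟨φ, h0, h1, h2, h3⟩ := exists_scale N (l := 2) two_ne_zero
  have hx := h0 _ (by
    have := deg_mul (deg_mul (deg_pow (deg11 h) j) (deg_pow (deg20 s) k)) (deg_pow (deg02 t) l)
    rwa [← mul_add, ← mul_add, hN] at this)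
  rw [map_mul, map_mul, map_pow, map_pow, map_pow, h1, h2, h3, smul_pow, smul_pow, mul_smul_comm,
    mul_smul_comm, smul_mul_assoc, smul_smul, mul_comm (_ ^ l), ← sub_eq_zero] at hx
  nth_rewrite 2 [← one_smul ℂ (form11 h ^ j * form20 s ^ k * form02 t ^ l)] at hx
  rw [← sub_smul] at hx
  refine (smul_eq_zero.1 hx).resolve_left fun h4 => hkl ?_
  rw [sub_eq_zero, inv_pow, inv_pow,
    mul_inv_eq_one₀ (pow_ne_zero _ (pow_ne_zero _ two_ne_zero))] at h4
  have h5 : (4 : ℕ) ^ k = 4 ^ l := by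
    have : ((4 ^ k : ℕ) : ℂ) = (4 ^ l : ℕ) := by
      push_cast
      norm_num at h4
      exact h4
    exact_mod_cast this
  exact Nat.pow_right_injective (by norm_num) h5

theorem mixed_pow {j m : ℕ} (hN : j + 2 * m = N) (a b : ℂ) :
    form11 h ^ j * (a • form20 s + b • form02 t) ^ (2 * m) =
      (((2 * m).choose m : ℕ) * (a * b) ^ m : ℂ) • (form11 h ^ j * form20 s ^ m * form02 t ^ m) := by
  rw [((two_comm (deg20 s) (form02 t)).smul_left a).smul_right b |>.add_pow, Finset.mul_sum,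
    Finset.sum_eq_single m]
  · rw [show 2 * m - m = m by omega, smul_pow, smul_pow, smul_mul_smul_comm, ← nsmul_eq_mul',
      ← Nat.cast_smul_eq_nsmul ℂ, smul_smul, mul_smul_comm, mul_pow, mul_assoc]
  · intro k hk hkm
    have hk' := Finset.mem_range.1 hk
    rw [smul_pow, smul_pow, smul_mul_smul_comm, smul_mul_assoc, mul_smul_comm, ← mul_assoc,
      ← mul_assoc, type_zero (by omega) (by omega), zero_mul, smul_zero]
  · intro hm
    exact absurd (Finset.mem_range.2 (by omega)) hm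

end Pool.Agent.HS
end

-- part Pool.Agent.P.MP_63735c_ag.HSExt2
section

/-! Top powers of 2-forms as multiples of the volume form. -/

open scoped Matrix

namespace Pool.Agent.HS

open Pool.Agent.SPF ExteriorAlgebra

variable {N n : ℕ} {s h : Matrix (Fin N) (Fin N) ℂ}

theorem form11_smul (t : ℂ) (h : Matrix (Fin N) (Fin N) ℂ) : form11 (t • h) = t • form11 h := by
  simp only [form11, Matrix.smul_apply, smul_eq_mul, mul_smul, ← Finset.smul_sum]
  exact smul_comm _ _ _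

theorem form2_zero (s h : Matrix (Fin N) (Fin N) ℂ) : form2 0 s h = form11 h := by
  simp [form2]

theorem form11_pow (h : Matrix (Fin N) (Fin N) ℂ) :
    form11 h ^ N = h.det • form11 (1 : Matrix (Fin N) (Fin N) ℂ) ^ N := by
  have hb := ph_blocks (N := N) 1 0 0 h
  have h1 : ∀ a, ph (Matrix.fromBlocks 1 0 0 h) (xz a) = xz (N := N) a :=
    fun a => by simpa [Matrix.one_apply] using (hb a).1
  have h2 : ∀ a, ph (Matrix.fromBlocks 1 0 0 h) (xb a) = ∑ b, h a b • xb (N := N) b :=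
    fun a => by simpa using (hb a).2
  have h3 : ph (Matrix.fromBlocks 1 0 0 h) (form11 1) = form11 h := by
    simp [form11, Matrix.one_apply, h1, h2, Finset.mul_sum]
  rw [← h3, ← map_pow, ph_top _ (deg_pow (deg11 1) N), Matrix.det_fromBlocks_zero₂₁,
    Matrix.det_one, one_mul]

theorem exists_pf (hN : N = 2 * n) : ∃ Z ∈ ⋀[ℂ]^(2 * N) (Fin N ⊕ Fin N → ℂ),
    ∀ s : Matrix (Fin N) (Fin N) ℂ, ∃ p : ℂ, form20 s ^ n * form02 s ^ n = (p * star p) • Z ∧
      form20 s ^ n * form02 (s.map star) ^ n = (p * p) • Z := by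
  obtain ⟨κ, k1, k2⟩ := exists_conj N
  let e := Pi.basisFun ℂ (Fin N)
  let L := fun f : Fin N → Fin N ⊕ Fin N => e.constr ℂ fun a => (Pi.single (f a) 1 : _ → ℂ)
  let σ := fun s : Matrix (Fin N) (Fin N) ℂ => ext1Sig (fun a => ι ℂ (e a)) s
  have m : ∀ f, ExteriorAlgebra.map (L f) (ιMulti ℂ N e) ∈ ⋀[ℂ]^N (Fin N ⊕ Fin N → ℂ) := fun f => by
    rw [map_apply_ιMulti]
    exact ιMulti_range ℂ N ⟨_, rfl⟩
  have a1 : ∀ s, ExteriorAlgebra.map (L Sum.inl) (σ s) = form20 s := fun s => by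
    simp only [σ, L, ext1Sig, map_smul, map_sum, map_mul, map_apply_ι, e.constr_basis, form20, xz]
  have a2 : ∀ s, ExteriorAlgebra.map (L Sum.inr) (σ (s.map star)) = form02 s := fun s => by
    simp only [σ, L, ext1Sig, map_smul, map_sum, map_mul, map_apply_ι, e.constr_basis, form02, xb,
      Matrix.map_apply]
  have e1 : ∀ a, star (e a) = e a := fun a => by
    ext b
    simp [e, Pi.single_apply]
  have a3 : ∀ s, κ (σ s) = σ (s.map star) := fun s => by
    simp only [σ, ext1Sig, k1, map_sum, map_mul, k2, e1, Matrix.map_apply]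
    simp
  have a4 : κ (ιMulti ℂ N e) = ιMulti ℂ N e := by
    rw [ιMulti_apply, map_list_prod, List.map_ofFn]
    exact congrArg (fun f => (List.ofFn f).prod) (funext fun a => (k2 _).trans (by rw [e1]))
  refine ⟨ExteriorAlgebra.map (L Sum.inl) (ιMulti ℂ N e) *
    ExteriorAlgebra.map (L Sum.inr) (ιMulti ℂ N e), ?_, fun s => ?_⟩
  · rw [two_mul]
    exact deg_mul (m Sum.inl) (m Sum.inr)
  have m2 : σ s ^ n ∈ ⋀[ℂ]^(2 * n) (E N) := deg_pow (deg_sum _ _ _ _) n
  rw [← hN] at m2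
  obtain ⟨p, hp⟩ := top_mem e m2
  have hq := congrArg κ hp
  rw [map_pow, a3, k1, a4] at hq
  have e2 : (s.map star).map star = s := by
    ext a b
    simp
  refine ⟨p, ?_, ?_⟩
  · rw [← a1, ← a2, ← map_pow, ← map_pow, hp, hq, map_smul, map_smul, smul_mul_smul_comm]
  · rw [← a1, ← a2, e2, ← map_pow, ← map_pow, hp, map_smul, map_smul, smul_mul_smul_comm]

theorem ph_skew (hs : sᵀ = -s) : ph (Matrix.fromBlocks 1 1 1 (-1)) (form11 s) =
    (2 * Complex.I) • form20 s + (-(2 * Complex.I)) • form02 (s.map star) := by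
  have hb := ph_blocks (N := N) 1 1 1 (-1)
  have h1 : ∀ a, ph (Matrix.fromBlocks 1 1 1 (-1)) (xz a) = xz (N := N) a + xb a :=
    fun a => by simpa [Matrix.one_apply] using (hb a).1
  have h2 : ∀ a, ph (Matrix.fromBlocks 1 1 1 (-1)) (xb a) = xz (N := N) a - xb a :=
    fun a => by simpa [Matrix.one_apply, sub_eq_add_neg, ite_smul, apply_ite Neg.neg] using (hb a).2
  have h3 : ∑ a, ∑ b, s a b • (xb a * xz b) = ∑ a, ∑ b, s a b • (xz (N := N) a * xb b) := by
    rw [Finset.sum_comm]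
    refine Finset.sum_congr rfl fun a _ => Finset.sum_congr rfl fun b _ => ?_
    have h4 : s b a = -s a b := congrFun (congrFun hs a) b
    rw [h4, xb, xz, ext1_anti, smul_neg, neg_smul, neg_neg]
  simp only [form11, form20, form02, map_smul, map_sum, map_mul, h1, h2, add_mul, mul_sub, smul_add,
    smul_sub, Finset.sum_add_distrib, Finset.sum_sub_distrib, h3, smul_smul, Matrix.map_apply,
    star_star]
  module

theorem exists_kappa (hN : N = 2 * n) : ∃ κ : ℝ, ∀ s h : Matrix (Fin N) (Fin N) ℂ, sᵀ = -s →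
    s.det ≠ 0 → ∀ G : ℝ, form11 h ^ (2 * n) = (G : ℂ) • (form20 s ^ n * form02 s ^ n) →
      h.det.re / ‖s.det‖ = κ * G := by
  obtain ⟨Z, hZ, hp⟩ := exists_pf hN
  obtain ⟨z, rfl⟩ := top_mem (bas N) hZ
  obtain ⟨w, hw⟩ := top_mem (bas N) (deg_pow (deg11 (1 : Matrix (Fin N) (Fin N) ℂ)) N)
  set M : Matrix (Fin N ⊕ Fin N) (Fin N ⊕ Fin N) ℂ := Matrix.fromBlocks 1 1 1 (-1)
  set c : ℂ := ((2 * n).choose n : ℕ) * (2 * Complex.I * -(2 * Complex.I)) ^ n with hc
  have c0 : c ≠ 0 := mul_ne_zero (Nat.cast_ne_zero.2 (Nat.choose_pos (by omega)).ne')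
    (pow_ne_zero _ (by simp))
  refine ⟨‖M.det * w / (c * z)‖ * (z / w).re, fun s h hs hd G hG => ?_⟩
  obtain ⟨p, p1, p2⟩ := hp s
  have t0 := top_ne_zero hN hs hd
  rw [p1, smul_smul] at t0
  have t1 := right_ne_zero_of_smul t0
  have t2 := left_ne_zero_of_smul t0
  have z0 : z ≠ 0 := right_ne_zero_of_mul t2
  have p0 : p ≠ 0 := left_ne_zero_of_mul (left_ne_zero_of_mul t2)
  have q1 := mixed_pow (h := s) (s := s) (t := s.map star) (j := 0) (m := n) (by omega)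
    (2 * Complex.I) (-(2 * Complex.I))
  rw [← hc, pow_zero, one_mul, one_mul, ← ph_skew hs, ← map_pow, ← hN,
    ph_top _ (deg_pow (deg11 s) N), form11_pow, hw, p2, smul_smul, smul_smul, smul_smul,
    smul_smul] at q1
  have q2 := smul_left_injective ℂ t1 q1
  rw [← hN, form11_pow, hw, p1, smul_smul, smul_smul, smul_smul] at hG
  have q3 := smul_left_injective ℂ t1 hG
  have w0 : w ≠ 0 := right_ne_zero_of_mul
    (q2 ▸ mul_ne_zero (mul_ne_zero c0 (mul_ne_zero p0 p0)) z0)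
  have q4 : p * p = s.det * (M.det * w / (c * z)) := by
    field_simp
    linear_combination -q2
  have q5 : p * star p = (‖s.det‖ * ‖M.det * w / (c * z)‖ : ℝ) := by
    rw [← norm_mul, ← q4, norm_mul, Complex.star_def, Complex.mul_conj', Complex.ofReal_mul, sq]
  have q6 : h.det = (G * (‖s.det‖ * ‖M.det * w / (c * z)‖) : ℝ) * (z / w) := by
    rw [Complex.ofReal_mul, ← q5]
    field_simp
    linear_combination q3
  rw [q6, Complex.re_ofReal_mul, div_eq_iff (norm_ne_zero_iff.2 hd)]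
  ring

theorem form2_even (hN : N = 2 * n) (c : ℂ) (s h : Matrix (Fin N) (Fin N) ℂ) :
    form2 c s h ^ (2 * n) = form2 c s (-h) ^ (2 * n) := by
  obtain ⟨φ, h0, h1, h2, h3⟩ := exists_scale N Complex.I_ne_zero
  have h4 : φ (form2 c s h) = -form2 c s (-h) := by
    rw [← neg_one_smul ℂ h]
    simp only [form2, map_add, map_smul, h1, h2, h3, form11_smul, Complex.inv_I, neg_sq,
      Complex.I_sq]
    module
  have h5 := h0 _ (deg_pow (deg2 c s h) N)
  rw [map_pow, h4, Even.neg_pow ⟨n, by omega⟩] at h5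
  rw [← hN, h5]

theorem form2_pure (hN : N = 2 * n) (c : ℂ) (s : Matrix (Fin N) (Fin N) ℂ) :
    form2 c s 0 ^ (2 * n) = ((((2 * n).choose n : ℕ) * (‖c‖ ^ 2 / 4) ^ n : ℝ) : ℂ) •
      (form20 s ^ n * form02 s ^ n) := by
  have q1 := mixed_pow (h := s) (s := s) (t := s) (j := 0) (m := n) (by omega) (c / 2) (star c / 2)
  rw [pow_zero, one_mul, one_mul] at q1
  rw [form2, ← zero_smul ℂ (0 : Matrix (Fin N) (Fin N) ℂ), form11_smul, zero_smul, add_zero, q1,
    div_mul_div_comm, Complex.star_def, Complex.mul_conj']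
  norm_num

theorem exists_weights {d : ℕ} (hd : 2 ≤ d) : ∃ l : Fin (d + 1) → ℝ, ∀ j ≤ d,
    ∑ i, l i * ((i : ℕ) : ℝ) ^ j = if j = 2 then 1 else 0 := by
  have hv : (Matrix.vandermonde fun i : Fin (d + 1) => ((i : ℕ) : ℝ)).det ≠ 0 :=
    Matrix.det_vandermonde_ne_zero_iff.2 fun a b hab => Fin.ext (Nat.cast_injective hab)
  refine ⟨Pi.single ⟨2, by omega⟩ 1 ᵥ* (Matrix.vandermonde fun i : Fin (d + 1) => ((i : ℕ) : ℝ))⁻¹,
    fun j hj => ?_⟩
  have h1 := congrFun (Matrix.vecMul_vecMul (Pi.single ⟨2, by omega⟩ (1 : ℝ)) _ _ |>.trans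
    (congrArg _ (Matrix.nonsing_inv_mul _ hv.isUnit))) ⟨j, by omega⟩
  rw [Matrix.vecMul_one, Pi.single_apply] at h1
  simpa [Matrix.vecMul, dotProduct, Matrix.vandermonde_apply, Fin.ext_iff] using h1

theorem second_coef (hN : N = 2 * n) (hn : 1 ≤ n) : ∃ l : Fin (2 * n + 1) → ℝ, ∑ i, l i = 0 ∧
    ∀ s h : Matrix (Fin N) (Fin N) ℂ, ∑ i, (l i : ℂ) • form2 2 s (((i : ℕ) : ℂ) • h) ^ (2 * n) =
      form11 h ^ 2 * form20 s ^ (n - 1) * form02 s ^ (n - 1) := by
  obtain ⟨l, hl⟩ := exists_weights (d := 2 * n) (by omega)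
  set c : ℕ := (2 * (n - 1)).choose (n - 1) * (2 * n).choose 2 with hc
  have c0 : (c : ℂ) ≠ 0 := Nat.cast_ne_zero.2
    (mul_pos (Nat.choose_pos (by omega)) (Nat.choose_pos (by omega))).ne'
  refine ⟨fun i => (c : ℝ)⁻¹ * l i, ?_, fun s h => ?_⟩
  · simpa [← Finset.mul_sum] using Or.inr (by simpa using hl 0 (by omega))
  have e : ∀ t : ℂ, form2 2 s (t • h) ^ (2 * n) = ∑ j ∈ Finset.range (2 * n + 1), t ^ j •
      (form11 h ^ j * ((1 : ℂ) • form20 s + (1 : ℂ) • form02 s) ^ (2 * n - j) *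
        ((2 * n).choose j : ℕ)) := fun t => by
    rw [form2, form11_smul, add_comm, ((two_comm (deg11 h) _).smul_left t).add_pow]
    refine Finset.sum_congr rfl fun j _ => ?_
    rw [smul_pow, smul_mul_assoc, smul_mul_assoc]
    norm_num
  have hl' : ∀ j ≤ 2 * n, ∑ i, (l i : ℂ) * ((i : ℕ) : ℂ) ^ j = if j = 2 then 1 else 0 :=
    fun j hj => by
      have := congrArg (fun x : ℝ => (x : ℂ)) (hl j hj)
      simpa [apply_ite (fun x : ℝ => (x : ℂ))] using this
  simp only [e, Finset.smul_sum, smul_smul]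
  rw [Finset.sum_comm, Finset.sum_eq_single 2]
  · rw [← Finset.sum_smul, show 2 * n - 2 = 2 * (n - 1) by omega, mixed_pow (by omega),
      ← nsmul_eq_mul', ← Nat.cast_smul_eq_nsmul ℂ, smul_smul, smul_smul]
    simp only [Complex.ofReal_mul, mul_assoc, ← Finset.mul_sum, hl' 2 (by omega)]
    have : (((c : ℝ)⁻¹ : ℝ) : ℂ) * (((2 * n).choose 2 : ℕ) * ((2 * (n - 1)).choose (n - 1) : ℕ)) = 1 := by
      rw [Complex.ofReal_inv, Complex.ofReal_natCast, mul_comm (_ : ℂ) (((2 * (n - 1)).choose _ : ℕ) : ℂ),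
        ← Nat.cast_mul, ← hc, inv_mul_cancel₀ c0]
    simp only [if_true, one_mul, one_pow, mul_one, this, one_smul]
  · intro j hj h2
    rw [← Finset.sum_smul]
    simp only [Complex.ofReal_mul, mul_assoc, ← Finset.mul_sum,
      hl' j (Nat.lt_succ_iff.1 (Finset.mem_range.1 hj)), if_neg h2, mul_zero, zero_smul]
  · intro h2
    exact absurd (Finset.mem_range.2 (by omega)) h2

end Pool.Agent.HS
end
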