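import Pool.Agent.P.MP_63735c_ag.SPSm

/-! Objects used in the proof of the L2 existence theorem (not in any statement). -/

open scoped ComplexOrder ContDiff Matrix Topology
open Set MeasureTheory Filter

namespace Pool.Agent.AB

open Pool.Agent.SPF

/-- Square complex matrices. -/
abbrev Mat (N : ℕ) := Matrix (Fin N) (Fin N) ℂ

variable {N : ℕ}

/-- The value of a hermitian form. -/
noncomputable def hq (h : Mat N) (u v : E N) : ℂ := u ⬝ᵥ h *ᵥ star v

/-- The antiholomorphic derivative. -/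
noncomputable def db (w : E N → ℂ) (z : E N) : E N := fun a => dzb a w z

/-- The holomorphic derivative of a real function. -/
noncomputable def dr (f : E N → ℝ) (z : E N) : E N := fun a => dz a (fun y => (f y : ℂ)) z

/-- The field dual to `db w`. -/
noncomputable def grad (K : E N → Mat N) (w : E N → ℂ) (z : E N) : E N := db w z ᵥ* (K z)⁻¹

/-- The Levi matrix. -/
noncomputable def lev (f : E N → ℝ) (z : E N) : Mat N :=
  Matrix.of fun a b => dz a (fun y => star (dz b (fun x => (f x : ℂ)) y)) z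

/-- The weighted divergence. -/
noncomputable def dlt (Ψ : E N → ℝ) (V : E N → E N) (z : E N) : ℂ :=
  ∑ a, (dz a (fun y => V y a) z - dr Ψ z a * V z a)

/-- The weight. -/
noncomputable def wt (Ψ : E N → ℝ) (z : E N) : ℝ := Real.exp (-Ψ z)

/-- The integrand of the twisted Bochner-Kodaira inequality. -/
noncomputable def qd (Ψ τ : E N → ℝ) (V : E N → E N) (H : E N → ℂ) (z : E N) : ℝ :=
  τ z * ‖H z‖ ^ 2 + (hq (lev τ z) (V z) (V z)).re + 2 * ((V z ⬝ᵥ dr τ z) * star (H z)).re -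
    τ z * (hq (lev Ψ z) (V z) (V z)).re

/-- A Kähler metric on an open set. -/
structure Kah (W : Set (E N)) (K : E N → Mat N) : Prop where
  smooth : ∀ a b, ContDiffOn ℝ ∞ (fun z => K z a b) W
  pos : ∀ z ∈ W, (K z).PosDef
  closed : ∀ z ∈ W, ∀ a b c, dz c (fun w => K w a b) z = dz a (fun w => K w c b) z

/-- A test function on `W`. -/
structure Tst {F : Type} [NormedAddCommGroup F] [NormedSpace ℝ F] (W : Set (E N)) (r : E N → F) :
    Prop where
  smooth : ContDiff ℝ ∞ r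
  cpt : HasCompactSupport r
  sub : tsupport r ⊆ W

/-- An open part of `Y` with injective holomorphic charts. -/
structure Man (Y : Type) [TopologicalSpace Y] (N : ℕ) where
  ι : Type
  W : ι → Set (E N)
  p : ι → E N → Y
  isOpen : ∀ i, IsOpen (W i)
  cont : ∀ i, ContinuousOn (p i) (W i)
  inj : ∀ i, InjOn (p i) (W i)
  opn : ∀ i O, IsOpen O → O ⊆ W i → IsOpen (p i '' O)
  trans : ∀ i j, ∀ z ∈ W i, ∀ y ∈ W j, p i z = p j y → ∃ φ : E N → E N, φ z = y ∧
    ∀ᶠ w in 𝓝 z, DifferentiableAt ℂ φ w ∧ φ w ∈ W j ∧ p j (φ w) = p i w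

namespace Man

variable {Y : Type} [TopologicalSpace Y] (D : Man Y N)

/-- The part covered by the charts. -/
def M : Set Y := ⋃ i, D.p i '' D.W i

/-- `φ` is a change of charts near `z`. -/
def Ch (i j : D.ι) (z : E N) (φ : E N → E N) : Prop :=
  ∀ᶠ w in 𝓝 z, DifferentiableAt ℂ φ w ∧ φ w ∈ D.W j ∧ D.p j (φ w) = D.p i w

/-- A family of matrices that transforms as a (1,1)-form. -/
def Cpt (h : D.ι → E N → Mat N) : Prop :=
  ∀ i j, ∀ z ∈ D.W i, ∀ φ, D.Ch i j z φ → h i z = (jac φ z)ᵀ * h j (φ z) * (jac φ z).map star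

/-- Smooth in every chart. -/
def Smo {F : Type} [NormedAddCommGroup F] [NormedSpace ℝ F] (w : Y → F) : Prop :=
  ∀ i, ContDiffOn ℝ ∞ (fun z => w (D.p i z)) (D.W i)

/-- Holomorphic in every chart. -/
def Hol {F : Type} [NormedAddCommGroup F] [NormedSpace ℂ F] (w : Y → F) : Prop :=
  ∀ i, DifferentiableOn ℂ (fun z => w (D.p i z)) (D.W i)

/-- Zero outside a compact subset of `M`. -/
def Cs {F : Type} [Zero F] (w : Y → F) : Prop :=
  ∃ C, IsCompact C ∧ C ⊆ D.M ∧ ∀ x ∉ C, w x = 0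

/-- Smooth with compact support. -/
def S {F : Type} [NormedAddCommGroup F] [NormedSpace ℝ F] (w : Y → F) : Prop := D.Smo w ∧ D.Cs w

/-- Continuous with compact support. -/
def Cc {F : Type} [NormedAddCommGroup F] (w : Y → F) : Prop :=
  (∀ i, ContinuousOn (fun z => w (D.p i z)) (D.W i)) ∧ D.Cs w

/-- Extension by zero of a function given in a chart. -/
noncomputable def ext {F : Type} [Zero F] (i : D.ι) (f : E N → F) : Y → F :=
  (D.p i '' D.W i).indicator fun x => f (Function.invFunOn (D.p i) (D.W i) x)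

/-- The Levi form of a global function. -/
noncomputable def levG (θ : Y → ℝ) (i : D.ι) (z : E N) : Mat N := lev (fun y => θ (D.p i y)) z

/-- Cutoff functions with small Levi form. -/
def Cut (K : D.ι → E N → Mat N) : Prop :=
  ∀ C, IsCompact C → C ⊆ D.M → ∀ ε : ℝ, 0 < ε → ∃ θ : Y → ℝ, D.S θ ∧ (∀ x, 0 ≤ θ x ∧ θ x ≤ 1) ∧
    (∀ x ∈ C, ∀ᶠ y in 𝓝 x, θ y = 1) ∧
    ∀ i, ∀ z ∈ D.W i, ∀ v, (hq (D.levG θ i z) v v).re ≤ ε * (hq (K i z) v v).re

/-- `ν` has density `exp (-Ψ i)` in the chart `i`. -/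
def Den [MeasurableSpace Y] (ν : Measure Y) (Ψ : D.ι → E N → ℝ) : Prop :=
  ∀ i, ∀ S ⊆ D.W i, MeasurableSet S → ν (D.p i '' S) = ∫⁻ z in S, ENNReal.ofReal (wt (Ψ i) z)

end Man

/-- The data of the L2 theorem. -/
structure Dat (Y : Type) [TopologicalSpace Y] [MeasurableSpace Y] (N : ℕ) extends Man Y N where
  K : ι → E N → Mat N
  Ψ : ι → E N → ℝ
  ν : Measure Y
  kah : ∀ i, Kah (W i) (K i)
  K_cpt : toMan.Cpt K
  Ψ_smooth : ∀ i, ContDiffOn ℝ ∞ (Ψ i) (W i)
  den : toMan.Den ν Ψ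

namespace Dat

variable {Y : Type} [TopologicalSpace Y] [MeasurableSpace Y] (D : Dat Y N)

/-- Semipositive curvature and a complete metric. -/
structure Pos : Prop where
  Θ_cpt : D.Cpt fun i => lev (D.Ψ i)
  Θ_psd : ∀ i, ∀ z ∈ D.W i, ∀ v, 0 ≤ (hq (lev (D.Ψ i) z) v v).re
  cut : D.Cut D.K

open Classical in
/-- The form `h` on the fields dual to `db w` and `db w'`. -/
noncomputable def Gam (h : D.ι → E N → Mat N) (w w' : Y → ℂ) (x : Y) : ℂ :=
  if hx : ∃ q : D.ι × E N, q.2 ∈ D.W q.1 ∧ D.p q.1 q.2 = x then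
    hq (h hx.choose.1 hx.choose.2)
      (grad (D.K hx.choose.1) (fun y => w (D.p hx.choose.1 y)) hx.choose.2)
      (grad (D.K hx.choose.1) (fun y => w' (D.p hx.choose.1 y)) hx.choose.2)
  else 0

/-- The Dirichlet form. -/
noncomputable def En (w w' : Y → ℂ) : ℂ := ∫ x, D.Gam D.K w w' x ∂D.ν

/-- Functions that are bounded functionals for the Dirichlet form. -/
def HH (h : Y → ℂ) : Prop :=
  D.Cc h ∧ ∃ B : ℝ, ∀ w : Y → ℂ, D.S w → ‖∫ x, h x * star (w x) ∂D.ν‖ ≤ B * √(D.En w w).re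

/-- The global integrand of the twisted Bochner-Kodaira inequality. -/
noncomputable def qg (θ : Y → ℝ) (w h : Y → ℂ) (x : Y) : ℝ :=
  θ x * ‖h x‖ ^ 2 + (D.Gam (D.levG θ) w w x).re +
    2 * (D.Gam D.K w (fun y => (θ y : ℂ)) x * star (h x)).re -
    θ x * (D.Gam (fun i => lev (D.Ψ i)) w w x).re

/-- `w` almost solves the equation with right-hand side `h`. -/
def Near (h w : Y → ℂ) (e : ℝ) : Prop :=
  ∀ r : Y → ℂ, D.S r → ‖D.En w r + ∫ x, h x * star (r x) ∂D.ν‖ ≤ e * √(D.En r r).re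

end Dat

end Pool.Agent.AB
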