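import Pool.Agent.K.MP_63735c_ag.C2

/-! Packing bounds. -/

open scoped ContDiff Matrix ENNReal
open Set Metric MeasureTheory Filter Topology

namespace Pool.Agent.CL

open Pool.Agent.SPF

theorem clpack_gen {J ι : Type} [NormedAddCommGroup J] [NormedSpace ℝ J] [FiniteDimensional ℝ J]
    (s : Finset ι) (f : ι → J) {δ R : ℝ} (hδ : 0 < δ) (hR : δ ≤ R) (h1 : ∀ i ∈ s, ‖f i‖ ≤ R)
    (h2 : ∀ i ∈ s, ∀ j ∈ s, i ≠ j → δ ≤ ‖f i - f j‖) :
    (s.card : ℝ) ≤ (4 * (R / δ)) ^ Module.finrank ℝ J := by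
  borelize J
  let μ : Measure J := Measure.addHaar
  have hd : (s : Set ι).PairwiseDisjoint fun i => ball (f i) (δ / 2) := by
    intro i hi j hj hij
    refine ball_disjoint_ball ?_
    rw [dist_eq_norm]
    linarith [h2 i hi j hj hij]
  have hsub : (⋃ i ∈ s, ball (f i) (δ / 2)) ⊆ ball (0 : J) (2 * R) := by
    refine iUnion₂_subset fun i hi => ball_subset_ball' ?_
    rw [dist_zero_right]
    linarith [h1 i hi]
  have h3 := measure_mono (μ := μ) hsub
  rw [measure_biUnion_finset hd fun _ _ => measurableSet_ball] at h3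
  simp only [μ.addHaar_ball_of_pos _ (half_pos hδ), Finset.sum_const, nsmul_eq_mul] at h3
  rw [μ.addHaar_ball_of_pos _ (by linarith : 0 < 2 * R), ← mul_assoc,
    ENNReal.mul_le_mul_iff_left (measure_ball_pos _ _ zero_lt_one).ne' measure_ball_lt_top.ne,
    ← ENNReal.ofReal_natCast, ← ENNReal.ofReal_mul (Nat.cast_nonneg _),
    ENNReal.ofReal_le_ofReal_iff (pow_nonneg (by linarith) _),
    ← le_div_iff₀ (pow_pos (half_pos hδ) _), ← div_pow] at h3
  refine h3.trans_eq ?_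
  congr 1
  field_simp
  ring

theorem clpack_nsq_le {n : ℕ} (v : E n) : ‖v‖ ^ 2 ≤ nsq v ∧ nsq v ≤ n * ‖v‖ ^ 2 := by
  have h0 : 0 ≤ nsq v := Finset.sum_nonneg fun _ _ => sq_nonneg _
  constructor
  · have : ‖v‖ ≤ √(nsq v) := (pi_norm_le_iff_of_nonneg (Real.sqrt_nonneg _)).2 fun k =>
      Real.le_sqrt_of_sq_le (Finset.single_le_sum (f := fun k => ‖v k‖ ^ 2)
        (fun _ _ => sq_nonneg _) (Finset.mem_univ k))
    exact (pow_le_pow_left₀ (norm_nonneg _) this 2).trans_eq (Real.sq_sqrt h0)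
  · have := Finset.sum_le_card_nsmul Finset.univ (fun k => ‖v k‖ ^ 2) (‖v‖ ^ 2) fun k _ =>
      pow_le_pow_left₀ (norm_nonneg _) (norm_le_pi_norm v k) 2
    simpa [nsq] using this

theorem clpack_term (a b : ℂ) : |(a * star b).re| ≤ ‖a‖ * ‖b‖ :=
  (Complex.abs_re_le_norm _).trans_eq (by simp)

theorem clpack_ip {n : ℕ} (u v w : E n) (c : ℝ) : ip u v = ip v u ∧ ip u u = nsq u ∧
    ip (u + v) w = ip u w + ip v w ∧ ip (u - v) w = ip u w - ip v w ∧ ip (c • u) v = c * ip u v ∧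
    |ip u v| ≤ n * ‖u‖ * ‖v‖ ∧ ip u v ^ 2 ≤ nsq u * nsq v ∧
    nsq (u - v) = nsq u - 2 * ip u v + nsq v := by
  have h1 : |ip u v| ≤ ∑ k, ‖u k‖ * ‖v k‖ :=
    (Finset.abs_sum_le_sum_abs _ _).trans (Finset.sum_le_sum fun k _ => clpack_term _ _)
  refine ⟨?_, ?_, ?_, ?_, ?_, ?_, ?_, ?_⟩
  · exact Finset.sum_congr rfl fun k _ => by simp; ring
  · exact Finset.sum_congr rfl fun k _ => by
      rw [Complex.sq_norm, Complex.normSq_apply]; simp
  · simp only [ip, ← Finset.sum_add_distrib]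
    exact Finset.sum_congr rfl fun k _ => by simp; ring
  · simp only [ip, ← Finset.sum_sub_distrib]
    exact Finset.sum_congr rfl fun k _ => by simp; ring
  · simp only [ip, Finset.mul_sum]
    exact Finset.sum_congr rfl fun k _ => by simp; ring
  · refine h1.trans ?_
    have := Finset.sum_le_card_nsmul Finset.univ (fun k => ‖u k‖ * ‖v k‖) (‖u‖ * ‖v‖) fun k _ =>
      mul_le_mul (norm_le_pi_norm u k) (norm_le_pi_norm v k) (norm_nonneg _) (norm_nonneg _)
    simpa [mul_assoc] using this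
  · rw [← sq_abs]
    exact (pow_le_pow_left₀ (abs_nonneg _) h1 2).trans (Finset.sum_mul_sq_le_sq_mul_sq _ _ _)
  · simp only [ip, nsq, Finset.mul_sum, ← Finset.sum_add_distrib, ← Finset.sum_sub_distrib]
    exact Finset.sum_congr rfl fun k _ => by
      simp only [Complex.sq_norm, Complex.normSq_apply]; simp; ring

theorem pack (n : ℕ) : ∃ C > (0 : ℝ), ∀ (δ R : ℝ) (A : Finset (E n)), 0 < δ → δ ≤ R →
    (∀ x ∈ A, ‖x‖ ≤ R) → (∀ x ∈ A, ∀ y ∈ A, x ≠ y → δ ≤ ‖x - y‖) →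
    (A.card : ℝ) ≤ C * (R / δ) ^ (2 * n) ∧ ∀ (κ : ℝ) (v : E n), δ ≤ κ * R → nsq v = 1 →
      (∀ x ∈ A, |ip x v| ≤ κ * R) → (A.card : ℝ) ≤ C * κ * (R / δ) ^ (2 * n) := by
  classical
  have hd : Module.finrank ℝ (E n) = 2 * n := by
    rw [finrank_real_of_complex]; simp
  have hn : (0 : ℝ) ≤ n := Nat.cast_nonneg n
  refine ⟨(4 * (2 * n + 5)) ^ (2 * n), by positivity, fun δ R A hδ hR h1 h2 => ?_⟩
  have hR0 : 0 < R := hδ.trans_le hR
  have hq : 0 < R / δ := div_pos hR0 hδ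
  have hA : (A.card : ℝ) ≤ (4 * (2 * n + 5)) ^ (2 * n) * (R / δ) ^ (2 * n) := by
    refine (clpack_gen A id hδ hR h1 h2).trans ?_
    rw [hd, ← mul_pow]
    exact pow_le_pow_left₀ (by positivity) (by nlinarith) _
  refine ⟨hA, fun κ v hκ hv h3 => ?_⟩
  have hκ0 : 0 < κ := (mul_pos_iff_of_pos_right hR0).1 (hδ.trans_le hκ)
  rcases le_or_gt 1 κ with hκ1 | hκ1
  · refine hA.trans ?_
    rw [mul_right_comm]
    exact le_mul_of_one_le_right (by positivity) hκ1
  have hv1 : ‖v‖ ≤ 1 := by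
    have := (clpack_nsq_le v).1
    rw [hv] at this
    exact (sq_le_one_iff₀ (norm_nonneg _)).1 this
  set m := ⌈κ⁻¹⌉₊ with hm
  have hm1 : 1 ≤ κ * m := by
    have := Nat.le_ceil κ⁻¹
    rwa [← hm, inv_le_iff_one_le_mul₀' hκ0] at this
  have hm2 : κ * m ≤ 2 := by
    have := mul_le_mul_of_nonneg_left (Nat.ceil_lt_add_one (inv_pos.2 hκ0).le).le hκ0.le
    rw [← hm, mul_add, mul_inv_cancel₀ hκ0.ne'] at this
    linarith
  set t := (n + 2) * (κ * R) with ht
  have hkR : 0 < κ * R := mul_pos hκ0 hR0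
  have ht0 : 0 < t := by positivity
  have key := clpack_gen (A ×ˢ Finset.range m) (fun p => p.1 + (p.2 * t) • v) hδ
    (R := (2 * n + 5) * R) (by nlinarith) (fun p hp => by
      obtain ⟨hp1, hp2⟩ := Finset.mem_product.1 hp
      have e1 : (p.2 : ℝ) ≤ m := by exact_mod_cast (Finset.mem_range.1 hp2).le
      have e2 : ‖((p.2 : ℝ) * t) • v‖ ≤ m * t := by
        rw [norm_smul, Real.norm_of_nonneg (by positivity)]
        exact (mul_le_of_le_one_right (by positivity) hv1).trans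
          (mul_le_mul_of_nonneg_right e1 ht0.le)
      have e3 : m * t ≤ (n + 2) * R * 2 := by
        rw [show m * t = (n + 2) * R * (κ * m) by rw [ht]; ring]
        exact mul_le_mul_of_nonneg_left hm2 (by positivity)
      linarith [norm_add_le p.1 (((p.2 : ℝ) * t) • v), h1 _ hp1]) (fun p hp q hq' hpq => by
      obtain ⟨hp1, -⟩ := Finset.mem_product.1 hp
      obtain ⟨hq1, -⟩ := Finset.mem_product.1 hq'
      by_cases e : p.2 = q.2
      · rw [e, add_sub_add_right_eq_sub]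
        exact h2 _ hp1 _ hq1 fun h => hpq (Prod.ext h e)
      set w := p.1 + ((p.2 : ℝ) * t) • v - (q.1 + ((q.2 : ℝ) * t) • v) with hw
      have e1 : ip w v = ip p.1 v - ip q.1 v + ((p.2 : ℝ) - q.2) * t := by
        rw [hw, (clpack_ip _ _ v 0).2.2.2.1, (clpack_ip _ _ v 0).2.2.1, (clpack_ip _ _ v 0).2.2.1,
          (clpack_ip v v v _).2.2.2.2.1, (clpack_ip v v v _).2.2.2.2.1, (clpack_ip v v v 0).2.1, hv]
        ring
      have e2 : (1 : ℝ) ≤ |(p.2 : ℝ) - q.2| := by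
        have : (1 : ℤ) ≤ |(p.2 : ℤ) - q.2| := Int.one_le_abs (by omega)
        exact_mod_cast this
      have e3 : t ≤ |((p.2 : ℝ) - q.2) * t| := by
        rw [abs_mul, abs_of_pos ht0]
        exact le_mul_of_one_le_left ht0.le e2
      have e4 : |ip w v| ≤ n * ‖w‖ := (clpack_ip w v v 0).2.2.2.2.2.1.trans
        (mul_le_of_le_one_right (by positivity) hv1)
      have e5 : n * (κ * R) ≤ n * ‖w‖ := by
        have a1 := abs_le.1 (h3 _ hp1)
        have a2 := abs_le.1 (h3 _ hq1)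
        have a3 := abs_le.1 e4
        rcases le_abs.1 e3 with h | h <;> linarith
      have hn0 : (0 : ℝ) < n := by
        rcases Nat.eq_zero_or_pos n with rfl | h
        · simp [nsq] at hv
        · exact_mod_cast h
      exact hκ.trans (le_of_mul_le_mul_left e5 hn0))
  rw [hd, Finset.card_product, Finset.card_range, mul_div_assoc, ← mul_assoc, mul_pow] at key
  push_cast at key
  calc (A.card : ℝ) ≤ A.card * (κ * m) := le_mul_of_one_le_right (Nat.cast_nonneg _) hm1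
    _ = κ * (A.card * m) := by ring
    _ ≤ κ * ((4 * (2 * n + 5)) ^ (2 * n) * (R / δ) ^ (2 * n)) :=
      mul_le_mul_of_nonneg_left key hκ0.le
    _ = _ := by ring

theorem nsq_le {n : ℕ} (v : E n) : ‖v‖ ^ 2 ≤ nsq v ∧ nsq v ≤ n * ‖v‖ ^ 2 := clpack_nsq_le v

theorem ip_basic {n : ℕ} (u v w : E n) (c : ℝ) : ip u v = ip v u ∧ ip u u = nsq u ∧
    ip (u + v) w = ip u w + ip v w ∧ ip (u - v) w = ip u w - ip v w ∧ ip (c • u) v = c * ip u v ∧
    |ip u v| ≤ n * ‖u‖ * ‖v‖ ∧ ip u v ^ 2 ≤ nsq u * nsq v ∧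
    nsq (u - v) = nsq u - 2 * ip u v + nsq v := clpack_ip u v w c

/-- Separated families in a ball of a finite-dimensional space. -/
theorem doubling (J : Type) [NormedAddCommGroup J] [NormedSpace ℝ J] [FiniteDimensional ℝ J]
    {D : ℝ} (hD : 0 < D) : ∃ N : ℕ, ∀ (x0 : J) (δ : ℝ) (x : Fin (N + 1) → J), 0 < δ →
      (∀ i, ‖x i - x0‖ ≤ δ) → ∃ i j, i < j ∧ ‖x i - x j‖ ≤ δ / D := by
  refine ⟨⌈(4 * (D + 1)) ^ Module.finrank ℝ J⌉₊, fun x0 δ x hδ h => ?_⟩
  by_contra hn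
  have h1 : ∀ i j, i < j → δ / D ≤ ‖x i - x j‖ := fun i j hij =>
    (not_le.1 fun h => hn ⟨i, j, hij, h⟩).le
  have h0 : 0 < δ / D := div_pos hδ hD
  have key := clpack_gen Finset.univ (fun i => x i - x0) h0 (R := δ + δ / D) (by linarith)
    (fun i _ => (h i).trans (by linarith)) fun i _ j _ hij => by
      rw [sub_sub_sub_cancel_right]
      rcases lt_or_gt_of_ne hij with e | e
      · exact h1 i j e
      · rw [norm_sub_rev]; exact h1 j i e
  rw [show (δ + δ / D) / (δ / D) = D + 1 by field_simp, Finset.card_univ, Fintype.card_fin] at key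
  push_cast at key
  linarith [Nat.le_ceil ((4 * (D + 1)) ^ Module.finrank ℝ J)]

/-- Finite nets taken from a bounded family. -/
theorem exists_net {α J : Type} [NormedAddCommGroup J] [NormedSpace ℝ J] [FiniteDimensional ℝ J]
    (f : α → J) (S : Set α) {x0 : J} {R δ : ℝ} (hδ : 0 < δ) (hS : ∀ a ∈ S, ‖f a - x0‖ ≤ R) :
    ∃ K : Set α, K.Finite ∧ K ⊆ S ∧ ∀ a ∈ S, ∃ k ∈ K, ‖f a - f k‖ ≤ δ := by
  have hb : TotallyBounded (f '' S) := (isCompact_closedBall x0 R).totallyBounded.subset (by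
    rintro _ ⟨a, ha, rfl⟩
    exact mem_closedBall_iff_norm.2 (hS a ha))
  obtain ⟨t, ht, hf, hc⟩ := Metric.finite_approx_of_totallyBounded hb δ hδ
  obtain ⟨K, hK, hKf, rfl⟩ := hf.exists_subset_finite_image_eq ht
  refine ⟨K, hKf, hK, fun a ha => ?_⟩
  obtain ⟨_, ⟨k, hk, rfl⟩, h⟩ := mem_iUnion₂.1 (hc ⟨a, ha, rfl⟩)
  exact ⟨k, hk, (mem_ball_iff_norm.1 h).le⟩

end Pool.Agent.CL
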