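import Pool.Agent.K.MP_63735c_ag.C28
import Pool.Agent.K.MP_63735c_ag.C71

/-! Integrals of pulled back functions over tubes. -/

open scoped ContDiff Matrix ENNReal
open Set Metric MeasureTheory Filter Topology

namespace Pool.Agent.CL

open Pool.Agent.SPF

variable {n : ℕ} {X : Type} [TopologicalSpace X] [MeasurableSpace X]

lemma mu_mult (M : Model n X) : ∃ c : ℝ≥0∞, c ≠ ⊤ ∧ ∀ K : Set (P n), IsCompact K →
    (∀ p ∈ K, p.1 ∈ M.T) → ∀ L : ℝ≥0∞, L ≠ ⊤ →
    (∀ x, ∀ S : Finset (P n), (∀ p ∈ S, p ∈ K ∧ M.Ψ p = x) → (S.card : ℝ≥0∞) ≤ L) →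
    ∀ φ : X → ℝ≥0∞, ∫⁻ p in K, φ (M.Ψ p) ≤ c * L * ∫⁻ x, φ x ∂M.μ := by
  classical
  obtain ⟨c, hc, hv⟩ := M.vol
  refine ⟨c, hc, fun K hK hKT L hL0 hL φ => ?_⟩
  choose! O hO hwO hinj hvol using hv
  obtain ⟨t, htK, hcov⟩ := hK.elim_nhds_subcover O fun w hw => (hO w (hKT w hw)).mem_nhds
    (hwO w (hKT w hw))
  set m := t.card
  set w : Fin m → P n := fun i => (t.equivFin.symm i : P n) with hw
  have hwT : ∀ i, (w i).1 ∈ M.T := fun i => hKT _ (htK _ (t.equivFin.symm i).2)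
  set D : Fin m → Set (P n) := disjointed fun i => O (w i) with hD
  have hDm : ∀ i, MeasurableSet (D i) := fun i =>
    disjointedRec (p := MeasurableSet) (f := fun i => O (w i))
      (fun _ j hs => hs.diff (hO _ (hwT j)).measurableSet) (hO _ (hwT i)).measurableSet
  have hKD : K ⊆ ⋃ i, D i := by
    intro p hp
    obtain ⟨a, ha, hpa⟩ := mem_iUnion₂.1 (hcov hp)
    rw [hD, iUnion_disjointed]
    exact mem_iUnion.2 ⟨t.equivFin ⟨a, ha⟩, by simpa [hw] using hpa⟩
  rw [lintegral_def]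
  refine iSup₂_le fun g hg => ?_
  set W : ℝ≥0∞ × Fin m → Set (P n) := fun k => g ⁻¹' {k.1} ∩ K ∩ D k.2 with hW
  have hWm : ∀ k, MeasurableSet (W k) := fun k =>
    ((g.measurableSet_fiber _).inter hK.measurableSet).inter (hDm _)
  have hWO : ∀ k, W k ⊆ O (w k.2) := fun k => inter_subset_right.trans (disjointed_subset _ _)
  have hm : ∀ k, MeasurableSet (M.Ψ '' W k) := fun k => (hvol _ (hwT _) _ (hWO k) (hWm k)).1
  calc g.lintegral (volume.restrict K) = ∑ a ∈ g.range, a * volume (g ⁻¹' {a} ∩ K) :=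
        Finset.sum_congr rfl fun a _ => by rw [Measure.restrict_apply (g.measurableSet_fiber _)]
    _ ≤ ∑ a ∈ g.range, ∑ i, a * volume (W (a, i)) := by
        refine Finset.sum_le_sum fun a _ => ?_
        rw [← Finset.mul_sum]
        refine mul_le_mul_right ((measure_mono fun p hp => ?_).trans
          (measure_iUnion_fintype_le _ _)) _
        obtain ⟨i, hi⟩ := mem_iUnion.1 (hKD hp.2)
        exact mem_iUnion.2 ⟨i, hp, hi⟩
    _ = c * ∑ k ∈ g.range ×ˢ Finset.univ, k.1 * M.μ (M.Ψ '' W k) := by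
        rw [Finset.sum_product, Finset.mul_sum]
        refine Finset.sum_congr rfl fun a _ => ?_
        rw [Finset.mul_sum]
        refine Finset.sum_congr rfl fun i _ => ?_
        rw [(hvol _ (hwT i) _ (hWO (a, i)) (hWm _)).2, mul_left_comm]
    _ = c * ∫⁻ x, ∑ k ∈ g.range ×ˢ Finset.univ, (M.Ψ '' W k).indicator (fun _ => k.1) x ∂M.μ := by
        rw [lintegral_finsetSum _ fun k _ => measurable_const.indicator (hm k)]
        simp only [lintegral_indicator_const (hm _)]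
    _ ≤ c * ∫⁻ x, L * φ x ∂M.μ := by
        refine mul_le_mul_right (lintegral_mono fun x => ?_) _
        have h1 : ∀ k, ∃ q, x ∈ M.Ψ '' W k → q ∈ W k ∧ M.Ψ q = x := fun k => by
          by_cases h : x ∈ M.Ψ '' W k
          · obtain ⟨q, hq⟩ := h
            exact ⟨q, fun _ => hq⟩
          · exact ⟨0, fun h' => absurd h' h⟩
        choose q hq using h1
        set J := (g.range ×ˢ (Finset.univ : Finset (Fin m))).filter fun k => x ∈ M.Ψ '' W k with hJ
        have hJm : ∀ k ∈ J, x ∈ M.Ψ '' W k := fun i hi => (Finset.mem_filter.1 hi).2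
        have h2 : (J.image q).card = J.card := Finset.card_image_of_injOn fun i hi j hj hij => by
          have a1 := (hq i (hJm i hi)).1
          have a2 := (hq j (hJm j hj)).1
          rw [hij] at a1
          refine Prod.ext (a1.1.1.symm.trans a2.1.1) ?_
          by_contra hne
          exact disjoint_left.1 (disjoint_disjointed (fun i => O (w i)) hne) a1.2 a2.2
        have h3 := hL x (J.image q) fun p hp => by
          obtain ⟨i, hi, rfl⟩ := Finset.mem_image.1 hp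
          exact ⟨(hq i (hJm i hi)).1.1.2, (hq i (hJm i hi)).2⟩
        rw [h2] at h3
        calc _ = ∑ k ∈ J, k.1 := by rw [hJ, Finset.sum_filter]; rfl
          _ ≤ J.card • φ x := Finset.sum_le_card_nsmul _ _ _ fun k hk => by
              have a1 := hq k (hJm k hk)
              have a2 : g (q k) = k.1 := a1.1.1.1
              rw [← a2, ← a1.2]
              exact hg _
          _ ≤ L * φ x := by rw [nsmul_eq_mul]; exact mul_le_mul_left h3 _
    _ = c * L * ∫⁻ x, φ x ∂M.μ := by rw [lintegral_const_mul' _ _ hL0, mul_assoc]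

lemma mu_alpha (M : Model n X) {p : P n} {h : Ret n} (hh : Germ M.T M.Ψ p.1 h) :
    ‖h.α p.1‖ ≤ ‖p.2‖ + M.C0 * ‖(h.act p).2‖ := by
  obtain ⟨O, hO, hy⟩ := hh
  have h1 := (pair_inv (hO.pair _ hy)).2.1 (p.2 - h.α p.1)
  have h2 : h.α p.1 = p.2 - tr (fderiv ℂ h.γ p.1) (h.act p).2 := by
    rw [show (h.act p).2 = h.N p.1 (p.2 - h.α p.1) from rfl, h1, sub_sub_cancel]
  rw [h2]
  exact (norm_sub_le _ _).trans (add_le_add le_rfl ((ContinuousLinearMap.le_opNorm _ _).trans
    (mul_le_mul_of_nonneg_right (M.bd _ _ hO _ hy).2.2 (norm_nonneg _))))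

variable [T2Space X]

/-- At most `C R^(2n)` points of height `R` have the same image. -/
lemma mu_card (M : Model n X) : ∃ C > (0 : ℝ), ∀ R ≥ (1 : ℝ), ∀ x, ∀ S : Finset (P n),
    (∀ p ∈ S, p.1 ∈ M.T ∧ ‖p.2‖ ≤ R ∧ M.Ψ p = x) → (S.card : ℝ) ≤ C * R ^ (2 * n) := by
  classical
  have : Nonempty (Ret n) := ⟨Ret.per fun _ => 0⟩
  have hC : 0 < M.C0 := zero_lt_one.trans_le M.C0_ge
  have hc := M.c0_pos
  obtain ⟨C, hC0, hp⟩ := pack n
  set δ := min 1 (2 * M.c0 / M.C0) with hδ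
  have hδ0 : 0 < δ := lt_min one_pos (by positivity)
  refine ⟨C * ((1 + M.C0) / δ) ^ (2 * n), by positivity, fun R hR x S hS => ?_⟩
  rcases S.eq_empty_or_nonempty with rfl | ⟨p, hpS⟩
  · simp only [Finset.card_empty, Nat.cast_zero]; positivity
  have h1 : ∀ q ∈ S, ∃ g, Germ M.T M.Ψ p.1 g ∧ g.act p = q := fun q hq =>
    M.ret p q (hS p hpS).1 (hS q hq).1 ((hS p hpS).2.2.trans (hS q hq).2.2.symm)
  choose! g hg hgq using h1
  have h2 : ∀ a ∈ S, ∀ b ∈ S, ‖(g a).α p.1 - (g b).α p.1‖ < δ → a = b := fun a ha b hb hab => by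
    have := (M.sep0 (hg a ha) (hg b hb) (by
      have := hab.trans_le (min_le_right _ _)
      rwa [lt_div_iff₀' hC] at this)).self_of_nhds
    rw [← hgq a ha, ← hgq b hb, Ret.act, Ret.act, this.1, this.2.1, this.2.2]
  have h4 : (S.image fun q => (g q).α p.1).card = S.card :=
    Finset.card_image_of_injOn fun a ha b hb hab => h2 a ha b hb (by
      have hab' : (g a).α p.1 = (g b).α p.1 := hab
      rwa [hab', sub_self, norm_zero])
  have h5 := (hp δ ((1 + M.C0) * R) (S.image fun q => (g q).α p.1) hδ0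
    ((min_le_left _ _).trans (by nlinarith)) (fun ξ hξ => by
      obtain ⟨a, ha, rfl⟩ := Finset.mem_image.1 hξ
      have b1 := mu_alpha M (hg a ha)
      rw [hgq a ha] at b1
      have b2 := mul_le_mul_of_nonneg_left (hS a ha).2.1 hC.le
      linarith [(hS p hpS).2.1]) fun ξ hξ ζ hζ hne => by
      obtain ⟨a, ha, rfl⟩ := Finset.mem_image.1 hξ
      obtain ⟨b, hb, rfl⟩ := Finset.mem_image.1 hζ
      exact not_lt.1 fun h => hne (by rw [h2 a ha b hb h])).1
  rw [h4] at h5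
  refine h5.trans_eq ?_
  rw [mul_div_right_comm, mul_pow, mul_assoc]

/-- The integral of `φ ∘ Ψ` over a tube of height `R`; no measurability is needed. -/
theorem Model.mu (M : Model n X) : ∃ C > (0 : ℝ), ∀ K, IsCompact K → K ⊆ M.T → ∀ R ≥ (1 : ℝ),
    ∀ φ : X → ℝ≥0∞, ∫⁻ p in K ×ˢ closedBall (0 : E n) R, φ (M.Ψ p) ≤
      ENNReal.ofReal (C * R ^ (2 * n)) * ∫⁻ x, φ x ∂M.μ := by
  obtain ⟨c, hc, h1⟩ := mu_mult M
  obtain ⟨C, hC, h2⟩ := mu_card M
  refine ⟨(c.toReal + 1) * C, by positivity, fun K hK hT R hR φ => ?_⟩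
  refine (h1 _ (hK.prod (isCompact_closedBall _ _)) (fun p hp => hT hp.1)
    (ENNReal.ofReal (C * R ^ (2 * n))) ENNReal.ofReal_ne_top (fun x S hS => ?_) φ).trans
    (mul_le_mul_left ?_ _)
  · rw [← ENNReal.ofReal_natCast]
    exact ENNReal.ofReal_le_ofReal (h2 R hR x S fun p hp =>
      ⟨hT (hS p hp).1.1, mem_closedBall_zero_iff.1 (hS p hp).1.2, (hS p hp).2⟩)
  · rw [mul_assoc, ENNReal.ofReal_mul (p := c.toReal + 1) (by positivity)]
    exact mul_le_mul_left ((ENNReal.ofReal_toReal hc).symm.trans_le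
      (ENNReal.ofReal_le_ofReal (by linarith))) _

end Pool.Agent.CL
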