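import Pool.Agent.K.MP_63735c_ag.C2

-- part Pool.Agent.P.MP_63735c_ag.HMPoi
section

/-! Affine changes of variables, selection, and a Poincare inequality on convex sets. -/

open scoped ENNReal
open Set Metric MeasureTheory Filter Topology

namespace Pool.Agent.CL

variable {F : Type} [NormedAddCommGroup F] [NormedSpace ℝ F] [FiniteDimensional ℝ F]
  [MeasurableSpace F] [BorelSpace F] {μ : Measure F} [μ.IsAddHaarMeasure]

theorem hm_chg {s s' : Set F} (hs : MeasurableSet s) (a : F) (L : F →L[ℝ] F)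
    (hL : Function.Injective L) (hm : ∀ x ∈ s, a + L x ∈ s') {c : ℝ} (hc : c ≤ |L.det|)
    (G : F → ℝ≥0∞) : ENNReal.ofReal c * ∫⁻ x in s, G (a + L x) ∂μ ≤ ∫⁻ x in s', G x ∂μ := by
  have h := lintegral_image_eq_lintegral_abs_det_fderiv_mul μ hs (f := fun x => a + L x)
    (f' := fun _ => L) (fun x _ => (L.hasFDerivAt.const_add a).hasFDerivWithinAt)
    (fun x _ y _ hxy => hL (add_left_cancel hxy)) G
  calc _ ≤ ∫⁻ x in s, ENNReal.ofReal c * G (a + L x) ∂μ := lintegral_const_mul_le _ _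
    _ ≤ ∫⁻ x in s, ENNReal.ofReal |L.det| * G (a + L x) ∂μ :=
        lintegral_mono fun x => mul_le_mul_left (ENNReal.ofReal_le_ofReal hc) _
    _ = _ := h.symm
    _ ≤ _ := lintegral_mono_set (by rintro _ ⟨x, hx, rfl⟩; exact hm x hx)

theorem hm_tr {s s' : Set F} (hs : MeasurableSet s) (a : F) (hm : ∀ x ∈ s, a + x ∈ s')
    (G : F → ℝ≥0∞) : ∫⁻ x in s, G (a + x) ∂μ ≤ ∫⁻ x in s', G x ∂μ := by
  have h := hm_chg (μ := μ) hs a (ContinuousLinearMap.id ℝ F) Function.injective_id hm (c := 1)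
    (by simp [ContinuousLinearMap.det]) G
  simpa using h

theorem hm_hom {s : Set F} (hs : MeasurableSet s) (hc : Convex ℝ s) {a : F} (ha : a ∈ s) {t : ℝ}
    (h1 : 1 / 2 ≤ t) (h2 : t ≤ 1) (G : F → ℝ≥0∞) :
    ∫⁻ x in s, G (a + t • (x - a)) ∂μ ≤ 2 ^ Module.finrank ℝ F * ∫⁻ x in s, G x ∂μ := by
  have ht : 0 < t := by linarith
  have h := hm_chg (μ := μ) (s' := s) hs (a - t • a) (t • ContinuousLinearMap.id ℝ F)
    (fun x y hxy => smul_right_injective F ht.ne' (by simpa using hxy))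
    (fun x hx => by
      have := hc.add_smul_sub_mem ha hx ⟨ht.le, h2⟩
      convert this using 1
      simp only [ContinuousLinearMap.smul_apply, ContinuousLinearMap.id_apply]
      module)
    (c := (1 / 2) ^ Module.finrank ℝ F)
    (by
      have e : (t • ContinuousLinearMap.id ℝ F).det = t ^ Module.finrank ℝ F := by
        simp [ContinuousLinearMap.det]
      rw [e, abs_of_pos (by positivity)]
      exact pow_le_pow_left₀ (by norm_num) h1 _) G
  have e : ∀ x, a - t • a + (t • ContinuousLinearMap.id ℝ F) x = a + t • (x - a) := fun x => by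
    simp only [ContinuousLinearMap.smul_apply, ContinuousLinearMap.id_apply]
    module
  simp only [e] at h
  have e2 : (2 : ℝ≥0∞) ^ Module.finrank ℝ F * ENNReal.ofReal ((1 / 2) ^ Module.finrank ℝ F) = 1 := by
    rw [ENNReal.ofReal_pow (by norm_num), ← mul_pow, ENNReal.ofReal_div_of_pos (by norm_num)]
    simp [ENNReal.mul_inv_cancel]
  calc _ = 2 ^ Module.finrank ℝ F * (ENNReal.ofReal ((1 / 2) ^ Module.finrank ℝ F) *
        ∫⁻ x in s, G (a + t • (x - a)) ∂μ) := by rw [← mul_assoc, e2, one_mul]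
    _ ≤ _ := mul_le_mul_right h _

theorem hm_pair {s : Set F} (hs : MeasurableSet s) (hc : Convex ℝ s) {t : ℝ} (ht : t ∈ Ioc (0 : ℝ) 1)
    {G : F → ℝ≥0∞} (hG : Measurable G) :
    ∫⁻ x in s, ∫⁻ x' in s, G (x + t • (x' - x)) ∂μ ∂μ ≤
      2 ^ Module.finrank ℝ F * (∫⁻ x in s, G x ∂μ) * μ s := by
  rcases le_total (1 / 2) t with h | h
  · rw [← setLIntegral_const]
    exact setLIntegral_mono' hs fun x hx => hm_hom hs hc hx h ht.2 G
  · rw [lintegral_lintegral_swap (f := fun x x' => G (x + t • (x' - x)))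
      (hG.comp (by fun_prop)).aemeasurable, ← setLIntegral_const]
    refine setLIntegral_mono' hs fun x' hx' => ?_
    have e : ∀ x, x + t • (x' - x) = x' + (1 - t) • (x - x') := fun x => by module
    simp only [e]
    exact hm_hom hs hc hx' (by linarith) (by linarith [ht.1]) G

theorem hm_poi {s : Set F} (hs : MeasurableSet s) (hc : Convex ℝ s) (h0 : μ s ≠ 0) (h1 : μ s ≠ ⊤)
    {G : F → ℝ≥0∞} (hG : Measurable G) {Φ : F → ℝ}
    (h : ∀ x ∈ s, ∀ x' ∈ s, edist (Φ x') (Φ x) ≤ ∫⁻ t in Ioc (0 : ℝ) 1, G (x + t • (x' - x))) :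
    ∃ m : ℝ, ∫⁻ x in s, edist (Φ x) m ∂μ ≤ 2 ^ Module.finrank ℝ F * ∫⁻ x in s, G x ∂μ := by
  have hm : Measurable fun q : (F × F) × ℝ => G (q.1.1 + q.2 • (q.1.2 - q.1.1)) :=
    hG.comp (by fun_prop)
  have hm' : Measurable fun q : (F × ℝ) × F => G (q.1.1 + q.1.2 • (q.2 - q.1.1)) :=
    hG.comp (by fun_prop)
  have hm1 : Measurable fun q : F × F => ∫⁻ t in Ioc (0 : ℝ) 1, G (q.1 + t • (q.2 - q.1)) :=
    hm.lintegral_prod_right'
  have hm2 : Measurable fun x => ∫⁻ x' in s, (∫⁻ t in Ioc (0 : ℝ) 1, G (x + t • (x' - x))) ∂μ :=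
    hm1.lintegral_prod_right'
  obtain ⟨x0, hx0, h2⟩ := exists_le_setLAverage h0 h1 hm2.aemeasurable
  refine ⟨Φ x0, (setLIntegral_mono' hs (h x0 hx0)).trans (h2.trans ?_)⟩
  rw [setLAverage_eq]
  refine ENNReal.div_le_of_le_mul ?_
  have e : ∀ x, ∫⁻ x' in s, (∫⁻ t in Ioc (0 : ℝ) 1, G (x + t • (x' - x))) ∂μ =
      ∫⁻ t in Ioc (0 : ℝ) 1, ∫⁻ x' in s, G (x + t • (x' - x)) ∂μ := fun x =>
    lintegral_lintegral_swap (f := fun x' (t : ℝ) => G (x + t • (x' - x)))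
      (hG.comp (by fun_prop)).aemeasurable
  simp only [e]
  rw [lintegral_lintegral_swap (f := fun x (t : ℝ) => ∫⁻ x' in s, G (x + t • (x' - x)) ∂μ)
    hm'.lintegral_prod_right'.aemeasurable]
  refine (setLIntegral_mono' measurableSet_Ioc fun t ht => hm_pair hs hc ht hG).trans ?_
  simp

omit [NormedAddCommGroup F] [NormedSpace ℝ F] [FiniteDimensional ℝ F] [BorelSpace F]
  [μ.IsAddHaarMeasure] in
theorem hm_sel {s : Set F} (hs : MeasurableSet s) {θ B : ℝ≥0∞} (h0 : θ ≠ 0) (ht : θ ≠ ⊤)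
    (h1 : θ ≤ μ s) (hB : B ≠ ⊤) {f : F → ℝ≥0∞} (h : ∫⁻ x in s, f x ∂μ ≤ B) : ∃ x ∈ s, f x ≤ (B + 1) / θ := by
  by_contra hn
  push Not at hn
  have h2 : (B + 1) / θ * μ s ≤ B := by
    rw [← setLIntegral_const]
    exact (setLIntegral_mono' hs fun x hx => (hn x hx).le).trans h
  have h3 := (mul_le_mul_right h1 _).trans h2
  rw [ENNReal.div_mul_cancel h0 ht] at h3
  exact absurd h3 (ENNReal.lt_add_right hB one_ne_zero).not_ge

end Pool.Agent.CL
end

-- part Pool.Agent.P.MP_63735c_ag.HMCore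
section

/-! A function with small vertical and bounded mixed gradient in the mean has bounded shifts. -/

open scoped ENNReal
open Set Metric MeasureTheory Filter Topology

namespace Pool.Agent.CL

open Pool.Agent.SPF

variable {n : ℕ}

/-- The mean over the segment from a point to its translate by `-z`. -/
noncomputable def Sg (z : E n → E n) (g : P n → ℝ≥0∞) (p : P n) : ℝ≥0∞ :=
  ∫⁻ r in Ioc (0 : ℝ) 1, g (p.1, p.2 - r • z p.1)

theorem Sg_meas {z : E n → E n} {g : P n → ℝ≥0∞} (hz : Measurable z) (hg : Measurable g) :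
    Measurable (Sg z g) := by
  have h : Measurable fun q : P n × ℝ => g (q.1.1, q.1.2 - q.2 • z q.1.1) :=
    hg.comp (by fun_prop)
  exact h.lintegral_prod_right'

theorem hm_prod {g : P n → ℝ≥0∞} (hg : Measurable g) (K B : Set (E n)) :
    ∫⁻ p in K ×ˢ B, g p = ∫⁻ y in K, ∫⁻ ξ in B, g (y, ξ) := by
  rw [Measure.volume_eq_prod, setLIntegral_prod _ hg.aemeasurable]

theorem hm_shear {z : E n → E n} {g : P n → ℝ≥0∞} (hz : Measurable z) (hg : Measurable g)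
    {K : Set (E n)} (hK : MeasurableSet K) {Z R : ℝ} (hZ : ∀ y ∈ K, ‖z y‖ ≤ Z) :
    ∫⁻ p in K ×ˢ closedBall (0 : E n) R, Sg z g p ≤
      ∫⁻ p in K ×ˢ closedBall (0 : E n) (R + Z), g p := by
  rw [hm_prod (Sg_meas hz hg), hm_prod hg]
  refine setLIntegral_mono' hK fun y hy => ?_
  simp only [Sg]
  rw [lintegral_lintegral_swap (f := fun (ξ : E n) (r : ℝ) => g (y, ξ - r • z y))
    (hg.comp (by fun_prop)).aemeasurable]
  have h : ∀ r ∈ Ioc (0 : ℝ) 1, ∫⁻ ξ in closedBall (0 : E n) R, g (y, ξ - r • z y) ≤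
      ∫⁻ ξ in closedBall (0 : E n) (R + Z), g (y, ξ) := by
    intro r hr
    have h1 := hm_tr (μ := volume) (s := closedBall (0 : E n) R)
      (s' := closedBall (0 : E n) (R + Z)) measurableSet_closedBall (-(r • z y))
      (fun x hx => by
        rw [mem_closedBall_zero_iff] at hx ⊢
        refine (norm_add_le _ _).trans ?_
        rw [norm_neg, norm_smul, Real.norm_of_nonneg hr.1.le]
        have := mul_le_of_le_one_left (norm_nonneg (z y)) hr.2
        linarith [hZ y hy]) fun ξ => g (y, ξ)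
    simpa only [neg_add_eq_sub] using h1
  refine (setLIntegral_mono' measurableSet_Ioc h).trans ?_
  simp

theorem hm_det (n : ℕ) (C0 : ℝ) : ∃ c > (0 : ℝ), ∀ N N' : E n →L[ℂ] E n, (∀ ξ, N' (N ξ) = ξ) →
    ‖N'‖ ≤ C0 → c ≤ |(N.restrictScalars ℝ).det| := by
  obtain ⟨B, hB⟩ := (isCompact_closedBall (0 : E n →L[ℝ] E n) C0).exists_bound_of_continuousOn
    ContinuousLinearMap.continuous_det.continuousOn
  refine ⟨1 / (|B| + 1), by positivity, fun N N' h1 h2 => ?_⟩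
  have h3 := hB (N'.restrictScalars ℝ) (by simpa using h2)
  have h4 : (N'.restrictScalars ℝ).det * (N.restrictScalars ℝ).det = 1 := by
    have e : ((N'.restrictScalars ℝ : E n →L[ℝ] E n) : E n →ₗ[ℝ] E n) *
        ((N.restrictScalars ℝ : E n →L[ℝ] E n) : E n →ₗ[ℝ] E n) = 1 := LinearMap.ext h1
    rw [ContinuousLinearMap.det, ContinuousLinearMap.det, ← map_mul, e, map_one]
  have h5 := congrArg abs h4
  rw [abs_mul, abs_one] at h5
  rw [Real.norm_eq_abs] at h3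
  rw [div_le_iff₀ (by positivity)]
  nlinarith [abs_nonneg (N.restrictScalars ℝ).det, le_abs_self B]

theorem hm_core {K : Set (E n)} (hK : IsCompact K) (hc : Convex ℝ K) {θ D B : ℝ≥0∞} (h0 : θ ≠ 0)
    (hD : D ≠ ⊤) (hB : B ≠ ⊤) (C0 : ℝ) : ∃ C : ℝ≥0∞, C ≠ ⊤ ∧ ∀ (Φ : P n → ℝ)
    (G1 G2 : P n → ℝ≥0∞) (R : ℝ) (O : Set (E n)) (γ : E n → E n) (c0 : ℝ), Measurable Φ →
    Measurable G1 → Measurable G2 → 1 ≤ R → C0 ≤ R →
    (∀ p ∈ K ×ˢ closedBall (0 : E n) 1, ∀ p' ∈ K ×ˢ closedBall (0 : E n) 1,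
      edist (Φ p') (Φ p) ≤ ∫⁻ t in Ioc (0 : ℝ) 1, G1 (p + t • (p' - p))) →
    ∫⁻ p in K ×ˢ closedBall (0 : E n) 1, G1 p ≤ B →
    (∀ y ∈ K, ∀ ξ ∈ closedBall (0 : E n) R, ∀ ξ' ∈ closedBall (0 : E n) R,
      edist (Φ (y, ξ')) (Φ (y, ξ)) ≤ ∫⁻ t in Ioc (0 : ℝ) 1, G2 (y, ξ + t • (ξ' - ξ))) →
    ∫⁻ p in K ×ˢ closedBall (0 : E n) R, G2 p ≤ 1 →
    MeasurableSet O → θ ≤ volume O → O ⊆ K → MapsTo γ O K →
    (∀ f : E n → ℝ≥0∞, ∫⁻ x in O, f (γ x) ≤ D * ∫⁻ x in K, f x) →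
    (∀ y ∈ O, ∃ (N N' : E n →L[ℂ] E n) (α : E n), (∀ ξ, N' (N ξ) = ξ) ∧ ‖N‖ ≤ C0 ∧ ‖N'‖ ≤ C0 ∧
      ‖α‖ + 1 ≤ R ∧ ∀ ξ, Φ (γ y, N ξ) - Φ (y, ξ + α) = c0) → ‖c0‖ₑ ≤ C := by
  obtain ⟨c, hc0, hdet⟩ := hm_det n C0
  obtain ⟨v, hv⟩ : ∃ v, v = volume (closedBall (0 : E n) 1) := ⟨_, rfl⟩
  have v0 : v ≠ 0 := hv ▸ (measure_closedBall_pos _ _ one_pos).ne'
  have v1 : v ≠ ⊤ := hv ▸ measure_closedBall_lt_top.ne
  obtain ⟨a, ha⟩ : ∃ a : ℝ≥0∞, a = 2 ^ Module.finrank ℝ (P n) := ⟨_, rfl⟩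
  obtain ⟨b, hb⟩ : ∃ b : ℝ≥0∞, b = 2 ^ Module.finrank ℝ (E n) := ⟨_, rfl⟩
  have a1 : a ≠ ⊤ := ha ▸ by finiteness
  have b1 : b ≠ ⊤ := hb ▸ by finiteness
  obtain ⟨B1, hB1⟩ : ∃ B1, B1 = (a * B + b) + D * (a * B + b) := ⟨_, rfl⟩
  have B1t : B1 ≠ ⊤ := hB1 ▸ by finiteness
  obtain ⟨B2, hB2⟩ : ∃ B2, B2 = (B1 + 1) / θ := ⟨_, rfl⟩
  have B2t : B2 ≠ ⊤ := hB2 ▸ ENNReal.div_ne_top (by finiteness) h0
  have ci : (ENNReal.ofReal c)⁻¹ ≠ ⊤ := by simpa using hc0
  refine ⟨((ENNReal.ofReal c)⁻¹ * B2 + B2 + B2 + B2) / v, ENNReal.div_ne_top (by finiteness) v0,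
    fun Φ G1 G2 R O γ c0 mΦ m1 m2 hR hR0 h1 i1 h2 i2 mO hθ hO hm hcov hret => ?_⟩
  have k1 : volume K ≠ ⊤ := hK.measure_lt_top.ne
  have k0 : volume K ≠ 0 := fun h => h0 (le_zero_iff.1 (hθ.trans ((measure_mono hO).trans h.le)))
  have θ1 : θ ≠ ⊤ := ne_top_of_le_ne_top k1 (hθ.trans (measure_mono hO))
  have mB : ∀ r : ℝ, MeasurableSet (closedBall (0 : E n) r) := fun r => measurableSet_closedBall
  have vp : volume (K ×ˢ closedBall (0 : E n) 1) = volume K * v := by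
    rw [Measure.volume_eq_prod, Measure.prod_prod, hv]
  have : (volume : Measure (P n)).IsAddHaarMeasure := Measure.prod.instIsAddHaarMeasure _ _
  obtain ⟨m0, hm0⟩ := hm_poi (μ := volume) (hK.measurableSet.prod (mB 1))
    (hc.prod (convex_closedBall _ _)) (vp ▸ mul_ne_zero k0 v0) (vp ▸ by finiteness) m1 h1
  have mW : Measurable fun p => edist (Φ p) m0 := mΦ.edist measurable_const
  have mE : ∀ f : E n → P n, Measurable f → ∀ m : ℝ, Measurable fun ξ => edist (Φ (f ξ)) m :=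
    fun f hf m => (mΦ.comp hf).edist measurable_const
  obtain ⟨W, hW⟩ : ∃ W : E n → ℝ≥0∞,
    W = fun y => ∫⁻ ξ in closedBall (0 : E n) 1, edist (Φ (y, ξ)) m0 := ⟨_, rfl⟩
  obtain ⟨V, hV⟩ : ∃ V : E n → ℝ≥0∞,
    V = fun y => b * ∫⁻ ξ in closedBall (0 : E n) R, G2 (y, ξ) := ⟨_, rfl⟩
  have mW' : Measurable W := hW ▸ mW.lintegral_prod_right'
  have mV : Measurable V := hV ▸ m2.lintegral_prod_right'.const_mul b
  have iF : ∫⁻ y in K, (W y + V y) ≤ a * B + b := by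
    rw [lintegral_add_left mW', hW, hV, lintegral_const_mul' _ _ b1, ← hm_prod mW, ← hm_prod m2]
    refine add_le_add (hm0.trans (ha ▸ mul_le_mul_right i1 _)) ?_
    simpa using mul_le_mul_right i2 b
  have iO : ∫⁻ y in O, ((W y + V y) + (W (γ y) + V (γ y))) ≤ B1 := by
    rw [lintegral_add_left (f := fun y => W y + V y) (mW'.add mV), hB1]
    exact add_le_add ((lintegral_mono_set hO).trans iF)
      ((hcov fun y => W y + V y).trans (mul_le_mul_right iF _))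
  obtain ⟨y, hy, hsel⟩ := hm_sel mO h0 θ1 hθ B1t iO
  rw [← hB2] at hsel
  have key : ∀ y ∈ K, W y + V y ≤ B2 → ∃ m : ℝ, edist m m0 * v ≤ B2 ∧
      ∫⁻ ξ in closedBall (0 : E n) R, edist (Φ (y, ξ)) m ≤ B2 := by
    intro y hy h
    obtain ⟨m, hm⟩ := hm_poi (μ := volume) (mB R) (convex_closedBall _ _)
      (measure_closedBall_pos _ _ (by linarith)).ne' measure_closedBall_lt_top.ne
      (G := fun ξ => G2 (y, ξ)) (m2.comp (by fun_prop)) (Φ := fun ξ => Φ (y, ξ)) (h2 y hy)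
    have hm' : ∫⁻ ξ in closedBall (0 : E n) R, edist (Φ (y, ξ)) m ≤ V y := by
      rw [hV, hb]
      exact hm
    refine ⟨m, ?_, hm'.trans (le_add_self.trans h)⟩
    rw [hv, ← setLIntegral_const]
    refine (lintegral_mono fun ξ => edist_triangle_left m m0 (Φ (y, ξ))).trans ?_
    rw [lintegral_add_left (mE (fun ξ => (y, ξ)) (by fun_prop) m)]
    refine le_trans ?_ h
    rw [add_comm, hW]
    exact add_le_add le_rfl ((lintegral_mono_set (closedBall_subset_closedBall hR)).trans hm')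
  obtain ⟨m, e1, e2⟩ := key y (hO hy) (le_self_add.trans hsel)
  obtain ⟨m', e3, e4⟩ := key (γ y) (hm hy) (le_add_self.trans hsel)
  obtain ⟨N, N', α, n1, n2, n3, n4, n5⟩ := hret y hy
  have e5 : ∫⁻ ξ in closedBall (0 : E n) 1, edist (Φ (y, ξ + α)) m ≤ B2 := by
    have h := hm_tr (μ := volume) (s' := closedBall (0 : E n) R) (mB 1) α
      (fun x hx => by
        rw [mem_closedBall_zero_iff] at hx ⊢
        linarith [norm_add_le α x]) fun ξ => edist (Φ (y, ξ)) m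
    simp only [add_comm α] at h
    exact h.trans e2
  have e6 : ∫⁻ ξ in closedBall (0 : E n) 1, edist (Φ (γ y, N ξ)) m' ≤
      (ENNReal.ofReal c)⁻¹ * B2 := by
    have h := hm_chg (μ := volume) (s' := closedBall (0 : E n) R) (mB 1) 0 (N.restrictScalars ℝ)
      (Function.LeftInverse.injective n1)
      (fun x hx => by
        rw [mem_closedBall_zero_iff] at hx ⊢
        rw [zero_add]
        have h3 := N.le_opNorm x
        have h4 := mul_le_of_le_one_right (norm_nonneg N) hx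
        exact h3.trans (by linarith)) (hdet N N' n1 n3) fun ξ => edist (Φ (γ y, ξ)) m'
    simp only [zero_add] at h
    rw [← ENNReal.div_eq_inv_mul, ENNReal.le_div_iff_mul_le (Or.inl (by simpa using hc0))
      (Or.inl ENNReal.ofReal_ne_top), mul_comm]
    exact h.trans e4
  rw [ENNReal.le_div_iff_mul_le (Or.inl v0) (Or.inl v1)]
  have e7 : ∀ ξ, ‖c0‖ₑ ≤ edist (Φ (γ y, N ξ)) m' + (edist (Φ (y, ξ + α)) m +
      (edist m' m0 + edist m m0)) := fun ξ => by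
    rw [← n5 ξ, ← edist_eq_enorm_sub]
    calc _ ≤ edist (Φ (γ y, N ξ)) m' + edist m' (Φ (y, ξ + α)) := edist_triangle _ _ _
      _ ≤ _ := add_le_add le_rfl ((edist_triangle_right _ _ m).trans (by
        rw [add_comm]
        exact add_le_add le_rfl (edist_triangle_right _ _ m0)))
  calc _ = ∫⁻ _ in closedBall (0 : E n) 1, ‖c0‖ₑ := by rw [setLIntegral_const, hv]
    _ ≤ _ := lintegral_mono e7
    _ ≤ _ := by
      rw [lintegral_add_left (mE (fun ξ => (γ y, N ξ)) (by fun_prop) m'),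
        lintegral_add_left (mE (fun ξ => (y, ξ + α)) (by fun_prop) m), setLIntegral_const,
        ← hv, add_mul, add_assoc, add_assoc]
      exact add_le_add e6 (add_le_add e5 (add_le_add e3 e1))

end Pool.Agent.CL
end
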