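import Pool.Agent.K.MP_63735c_ag.C70
import Pool.Agent.K.MP_63735c_ag.C99
import Pool.Agent.K.MP_63735c_ag.C100

/-! Shifts of the flux function are bounded when the vertical part is small in the mean. -/

open scoped ContDiff ENNReal
open Set Metric MeasureTheory Filter Topology

namespace Pool.Agent.CL

open Pool.Agent.SPF

variable {n : ℕ} {X : Type} {T O : Set (E n)} {Ψ : P n → X} {g : Ret n} {A β : Form1 (P n)}
  {t : Form2 (P n)} {o : P n} {z : E n → E n}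

theorem hm_ext {Y Z : Type} [TopologicalSpace Y] [MeasurableSpace Y] [OpensMeasurableSpace Y]
    [TopologicalSpace Z] [MeasurableSpace Z] [BorelSpace Z] [Zero Z] {s : Set Y}
    (hs : MeasurableSet s) {f : Y → Z} (hf : ContinuousOn f s) :
    ∃ f' : Y → Z, Measurable f' ∧ ∀ x ∈ s, f' x = f x := by
  classical
  exact ⟨s.piecewise f fun _ => 0, hf.measurable_piecewise continuousOn_const hs,
    fun x hx => piecewise_eq_of_mem _ _ _ hx⟩

theorem hm_diff (hT : IsOpen T) (hA : IsPrim (T ×ˢ univ) A t) (hc : Convex ℝ T)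
    (hz : IsRet T Ψ T (Ret.per z)) (hi : Inv t T (Ret.per z)) (ho : o.1 ∈ T) {p p' : P n}
    (hp : p.1 ∈ T) (hp' : p'.1 ∈ T) {G : ℝ → ℝ → ℝ≥0∞}
    (hG : ∀ s ∈ Ioc (0 : ℝ) 1, ∀ r ∈ Ioc (0 : ℝ) 1, ∀ q, q = p + s • (p' - p) →
      ‖t (q.1, q.2 - r • z q.1) (0, z q.1)
        (p' - p + r • (fderiv ℝ (Ret.per z).act q (p' - p) - (p' - p)))‖ₑ ≤ G s r) :
    edist (Pi A z o p') (Pi A z o p) ≤ ∫⁻ s in Ioc (0 : ℝ) 1, ∫⁻ r in Ioc (0 : ℝ) 1, G s r := by
  have hW : IsOpen (T ×ˢ (univ : Set (E n))) := hT.prod isOpen_univ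
  have hcv : Curve (T ×ˢ univ) (seg p p') :=
    curve_seg (hc.prod convex_univ) (mk_mem_prod hp trivial) (mk_mem_prod hp' trivial)
  have h := clpi_sq hT hA hc hz hi ho hcv
  have s0 : seg p p' 0 = p := by simp [seg]
  have s1 : seg p p' 1 = p' := by simp [seg]
  rw [s0, s1] at h
  rw [edist_eq_enorm_sub, h, intervalIntegral.integral_of_le zero_le_one]
  refine (enorm_integral_le_lintegral_enorm _).trans
    (setLIntegral_mono' measurableSet_Ioc fun s hs => ?_)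
  rw [intervalIntegral.integral_of_le zero_le_one]
  refine (enorm_integral_le_lintegral_enorm _).trans
    (setLIntegral_mono' measurableSet_Ioc fun r hr => le_of_eq_of_le ?_ (hG s hs r hr _ rfl))
  have hs' := Ioc_subset_Icc_self hs
  have hH := clpi_H hz hcv (q := (s, r)) hs'
  have hm := (hcv s hs').2
  have dg : DifferentiableAt ℝ (Ret.per z).act (seg p p' s) :=
    (hz.smooth.1.contDiffAt (hW.mem_nhds hm)).differentiableAt (by simp)
  have d1 : HasDerivAt (fun x => clpiH z (seg p p') (x, r))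
      (p' - p + r • (fderiv ℝ (Ret.per z).act (seg p p' s) (p' - p) - (p' - p))) s :=
    (clstokes_seg p p' s).add (((dg.hasFDerivAt.comp_hasDerivAt s (clstokes_seg p p' s)).sub
      (clstokes_seg p p' s)).const_smul r)
  have d2 : HasDerivAt (fun x => clpiH z (seg p p') (s, x))
      ((Ret.per z).act (seg p p' s) - seg p p' s) r :=
    clstokes_seg (seg p p' s) ((Ret.per z).act (seg p p' s)) r
  have e : (Ret.per z).act (seg p p' s) - seg p p' s = -(0, z (seg p p' s).1) := by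
    rw [clpi_act]
    ext1 <;> simp
  have hm' : clpiH z (seg p p') (s, r) ∈ T ×ˢ (univ : Set (E n)) :=
    ⟨by rw [clpi_H1]; exact hm.1, trivial⟩
  rw [← clstokes_d1 hH, ← clstokes_d2 hH, d1.deriv, d2.deriv, e, map_neg, ← hA.2 _ hm', neg_sub,
    hA.2 _ hm', clpiH, clpi_pt]
  rfl

theorem hm_inv (hT : IsOpen T) (hβ : IsPrim (T ×ˢ univ) β t) (hg : IsRet T Ψ O g)
    (h : ∀ p : P n, p.1 ∈ O → ∀ u, β (g.act p) (fderiv ℝ g.act p u) = β p u) : Inv t O g := by
  intro p hp u v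
  have h1 := pull_prim (hT.prod isOpen_univ) (cldg_open hg) hg.smooth.1 hg.smooth.2.1 hβ
    (t' := fun x => (t (g.act x)).bilinearComp (fderiv ℝ g.act x) (fderiv ℝ g.act x))
    fun _ _ _ _ => rfl
  have h2 : pull1 g.act β =ᶠ[𝓝 p] β := by
    filter_upwards [(cldg_open hg).mem_nhds (mk_mem_prod hp (mem_univ p.2))] with x hx
    exact ContinuousLinearMap.ext (h x hx.1)
  have h3 := h1.2 p (mk_mem_prod hp trivial) u v
  rw [h2.fderiv_eq, hβ.2 p (mk_mem_prod (hg.sub hp) trivial)] at h3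
  exact h3.symm

theorem hm_shift (hc : Convex ℝ T) (ho : o.1 ∈ T)
    (hz : ∀ p : P n, p.1 ∈ T → ∀ u, β ((Ret.per z).act p) (fderiv ℝ (Ret.per z).act p u) = β p u)
    (hg : IsRet T Ψ O g) (h : ∀ p : P n, p.1 ∈ O → ∀ u, β (g.act p) (fderiv ℝ g.act p u) = β p u)
    {p : P n} (hp : p.1 ∈ O) (hN : g.N p.1 (z p.1) = z (g.γ p.1)) :
    Pi β z o (g.act p) = Pi β z o p := by
  have h0 : ∀ q : P n, q.1 ∈ T → Dg β (Ret.per z) o q = 0 := fun q hq => by
    unfold Dg segInt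
    rw [intervalIntegral.integral_congr (g := fun _ => (0 : ℝ))]
    · simp
    · intro s hs
      rw [uIcc_of_le zero_le_one] at hs
      exact sub_eq_zero.2 (hz _ (hc.add_smul_sub_mem ho hq hs) _)
  rw [Pi, Pi, h0 _ (hg.sub hp), h0 (g.act p) (hg.maps hp)]
  congr 1
  refine intervalIntegral.integral_congr fun s _ => ?_
  have e : ∀ q : P n, (Ret.per z).act q - q = (0, -z q.1) := fun q => by
    rw [clpi_act]
    ext1 <;> simp
  have h2 := h (p.1, p.2 - s • z p.1) hp (0, -z p.1)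
  rw [clpi_vert hg (p := (p.1, p.2 - s • z p.1)) hp, map_neg, hN] at h2
  show β _ _ = β _ _
  rw [clpi_comm hN, clpi_pt, e, e]
  exact h2

variable [TopologicalSpace X] [MeasurableSpace X] [T2Space X]

theorem Model.n2 (M : Model n X) {a : Form2 (P n)} (c : ℂ)
    (hA : IsPrim (M.T ×ˢ univ) A fun p => sig c + a p) (hz : IsRet M.T M.Ψ M.T (Ret.per z))
    (hi : Inv (fun p => sig c + a p) M.T (Ret.per z)) (ho : o.1 ∈ M.T) (hN : NullL M.T M.Ψ M.μ a)
    {K : Set (E n)} (hK : IsCompact K) (hc : Convex ℝ K) (hKT : K ⊆ M.T) {θ D : ℝ≥0∞} (h0 : θ ≠ 0)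
    (hD : D ≠ ⊤) : ∃ C : ℝ, ∀ (O : Set (E n)) (γ : E n → E n) (Λ c0 : ℝ), MeasurableSet O →
      θ ≤ volume O → O ⊆ K → MapsTo γ O K →
      (∀ f : E n → ℝ≥0∞, ∫⁻ x in O, f (γ x) ≤ D * ∫⁻ x in K, f x) →
      (∀ y ∈ O, ∃ g, Germ M.T M.Ψ y g ∧ g.γ y = γ y ∧ g.N y (z y) = z (g.γ y) ∧ ‖g.α y‖ ≤ Λ ∧
        ∀ ξ, Pi A z o (g.act (y, ξ)) - Pi A z o (y, ξ) = c0) → |c0| ≤ C := by
  have hT := M.T_open
  have hW : IsOpen (M.T ×ˢ (univ : Set (E n))) := hT.prod isOpen_univ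
  have kc : ∀ r : ℝ, IsCompact (K ×ˢ closedBall (0 : E n) r) := fun r =>
    hK.prod (isCompact_closedBall _ _)
  have ks : ∀ r : ℝ, K ×ˢ closedBall (0 : E n) r ⊆ M.T ×ˢ univ := fun r =>
    prod_mono hKT (subset_univ _)
  have zc : ContinuousOn z M.T := hz.α_hol.continuousOn
  obtain ⟨Z, hZ0, hZ⟩ : ∃ Z, 0 ≤ Z ∧ ∀ y ∈ K, ‖z y‖ ≤ Z := by
    obtain ⟨Z, h⟩ := hK.exists_bound_of_continuousOn (zc.mono hKT)
    exact ⟨|Z|, abs_nonneg _, fun y hy => (h y hy).trans (le_abs_self _)⟩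
  obtain ⟨L, hL⟩ := (kc 1).exists_bound_of_continuousOn
    ((hz.smooth.1.continuousOn_fderiv_of_isOpen hW (by simp)).mono (ks 1))
  obtain ⟨Dm, hDm⟩ := (kc 1).exists_bound_of_continuousOn (f := fun p => p) continuousOn_id
  obtain ⟨Cμ, hCμ, hμ⟩ := M.mu
  obtain ⟨Cψ, hψ⟩ := hN _ (kc (1 + Z)) (ks _)
  obtain ⟨z', mz, ez⟩ := hm_ext hT.measurableSet zc
  have hZ' : ∀ y ∈ K, ‖z' y‖ ≤ Z := fun y hy => ez y (hKT hy) ▸ hZ y hy
  obtain ⟨C, hC, hcore⟩ := hm_core hK hc (B := ENNReal.ofReal ((2 + L) * (2 * Dm)) *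
    (ENNReal.ofReal (‖sig (n := n) c‖ * Z) * volume (K ×ˢ closedBall (0 : E n) (1 + Z)) +
      ENNReal.ofReal Z * (ENNReal.ofReal (Cμ * (1 + Z) ^ (2 * n)) * ENNReal.ofReal Cψ))) h0 hD
    (by have := (kc (1 + Z)).measure_lt_top (μ := volume); finiteness) M.C0
  refine ⟨C.toReal, fun O γ Λ c0 mO hθ hO hm hcov hret => ?_⟩
  obtain ⟨R, hR⟩ : ∃ R, R = 1 + |Λ| + M.C0 := ⟨_, rfl⟩
  have hR1 : 1 ≤ R := by linarith [abs_nonneg Λ, M.C0_ge]
  obtain ⟨k, hk⟩ : ∃ k, k = 2 * R * (Z * (Cμ * (R + Z) ^ (2 * n))) := ⟨_, rfl⟩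
  have hk0 : 0 ≤ k := by rw [hk]; positivity
  obtain ⟨β, b, M0, φ, ψ, hβ, bc, βi, -, -, -, φ0, ψ0, iφ, iψ, bV, bH⟩ :=
    hψ _ (kc (R + Z)) (ks _) (1 / (k + 1)) (by positivity)
  have hA' : IsPrim (M.T ×ˢ univ) (fun x => (1 : ℝ) • A x + (1 : ℝ) • β x)
      fun p => sig c + b p := by
    obtain ⟨h1, h2⟩ := IsPrim.comb hW hA hβ 1 1
    exact ⟨h1, fun x hx u v => (h2 x hx u v).trans (by simp)⟩
  have hi' : Inv (fun p => sig c + b p) M.T (Ret.per z) := fun p hp u v => by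
    have h1 := hi p hp u v
    have h2 := hm_inv hT hβ hz (βi _ _ hz) p hp u v
    simp only [add_apply, sub_apply] at h1 h2 ⊢
    linarith
  have zc' : ContinuousOn (fun q : P n => ((0, z q.1) : P n)) (M.T ×ˢ univ) :=
    continuousOn_const.prodMk (zc.comp continuousOn_fst fun q hq => hq.1)
  have tc : ContinuousOn (fun q : P n => (sig c + b q : P n →L[ℝ] P n →L[ℝ] ℝ) (0, z q.1))
      (M.T ×ˢ univ) := (continuousOn_const.clm_apply zc').add (bc.clm_apply zc')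
  obtain ⟨Φ, mΦ, eΦ⟩ := hm_ext hW.measurableSet (Pi_cont hT hA' M.T_conv hz ho)
  obtain ⟨gH, mH, eH⟩ := hm_ext hW.measurableSet tc.enorm
  obtain ⟨gV, mV, eV⟩ := hm_ext hW.measurableSet
    (tc.clm_comp (continuousOn_const (c := ContinuousLinearMap.inr ℝ (E n) (E n)))).enorm
  have key := hcore Φ (fun p => ENNReal.ofReal ((2 + L) * (2 * Dm)) * Sg z' gH p)
    (fun p => ENNReal.ofReal (2 * R) * Sg z' gV p) R O γ c0 mΦ ((Sg_meas mz mH).const_mul _)
    ((Sg_meas mz mV).const_mul _) hR1 (by linarith [abs_nonneg Λ]) ?_ ?_ ?_ ?_ mO hθ hO hm hcov ?_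
  · rw [← ofReal_norm, ENNReal.ofReal_le_iff_le_toReal hC] at key
    exact key
  · intro p hp p' hp'
    rw [eΦ _ (ks 1 hp), eΦ _ (ks 1 hp')]
    simp only [Sg, ← lintegral_const_mul' _ _ ENNReal.ofReal_ne_top]
    refine hm_diff hT hA' M.T_conv hz hi' ho (hKT hp.1) (hKT hp'.1) fun s hs r hr q hq => ?_
    have hq' : q ∈ K ×ˢ closedBall (0 : E n) 1 := hq ▸ (hc.prod (convex_closedBall _ _)).add_smul_sub_mem
      hp hp' (Ioc_subset_Icc_self hs)
    rw [← hq, ez _ (hKT hq'.1), eH _ (mk_mem_prod (hKT hq'.1) trivial), mul_comm]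
    refine (ContinuousLinearMap.le_opENorm _ _).trans (mul_le_mul_right ?_ _)
    rw [← ofReal_norm]
    refine ENNReal.ofReal_le_ofReal ?_
    have h1 : ‖p' - p‖ ≤ 2 * Dm := (norm_sub_le _ _).trans (by linarith [hDm p hp, hDm p' hp'])
    have h2 := (fderiv ℝ (Ret.per z).act q).le_of_opNorm_le (hL q hq') (p' - p)
    have h3 := norm_sub_le (fderiv ℝ (Ret.per z).act q (p' - p)) (p' - p)
    have h4 := mul_le_of_le_one_left
      (norm_nonneg (fderiv ℝ (Ret.per z).act q (p' - p) - (p' - p))) hr.2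
    have h5 : 0 ≤ L := (norm_nonneg _).trans (hL q hq')
    refine (norm_add_le _ _).trans ?_
    rw [norm_smul, Real.norm_of_nonneg hr.1.le]
    nlinarith [mul_le_mul_of_nonneg_left h1 h5]
  · rw [lintegral_const_mul' _ _ ENNReal.ofReal_ne_top]
    refine mul_le_mul_right ((hm_shear mz mH hK.measurableSet hZ').trans ?_) _
    have h1 : ∀ q ∈ K ×ˢ closedBall (0 : E n) (1 + Z), gH q ≤ ENNReal.ofReal (‖sig (n := n) c‖ * Z) +
        ENNReal.ofReal Z * ENNReal.ofReal (ψ (M.Ψ q)) := fun q hq => by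
      rw [eH _ (ks _ hq), ← ofReal_norm, ← ENNReal.ofReal_mul hZ0,
        ← ENNReal.ofReal_add (by positivity) (mul_nonneg hZ0 (ψ0 _)), add_apply]
      refine ENNReal.ofReal_le_ofReal ((norm_add_le _ _).trans (add_le_add ?_ ?_))
      · refine (ContinuousLinearMap.le_opNorm _ _).trans (mul_le_mul_of_nonneg_left ?_ (norm_nonneg _))
        simpa using hZ _ hq.1
      · refine ContinuousLinearMap.opNorm_le_bound _ (mul_nonneg hZ0 (ψ0 _)) fun w => ?_
        refine (bH q hq _ w).trans (mul_le_mul_of_nonneg_right ?_ (norm_nonneg _))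
        rw [mul_comm]
        exact mul_le_mul_of_nonneg_right (hZ _ hq.1) (ψ0 _)
    refine (setLIntegral_mono' (kc _).measurableSet h1).trans ?_
    rw [lintegral_add_left measurable_const, setLIntegral_const,
      lintegral_const_mul' _ _ ENNReal.ofReal_ne_top]
    exact add_le_add le_rfl (mul_le_mul_right ((hμ K hK hKT _ (by linarith)
      fun x => ENNReal.ofReal (ψ x)).trans (mul_le_mul_right iψ _)) _)
  · intro y hy ξ hξ ξ' hξ'
    rw [eΦ _ (mk_mem_prod (hKT hy) trivial), eΦ _ (mk_mem_prod (hKT hy) trivial)]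
    simp only [Sg, ← lintegral_const_mul' _ _ ENNReal.ofReal_ne_top]
    refine hm_diff hT hA' M.T_conv hz hi' ho (p := (y, ξ)) (p' := (y, ξ')) (hKT hy) (hKT hy)
      fun s hs r hr q hq => ?_
    have e1 : ((y, ξ') : P n) - (y, ξ) = (0, ξ' - ξ) := by simp
    have e2 : q = (y, ξ + s • (ξ' - ξ)) := by rw [hq, e1]; simp
    rw [e1, clpi_vert hz (by rw [e2]; exact hKT hy), e2, ez _ (hKT hy),
      eV _ (mk_mem_prod (hKT hy) trivial), mul_comm]
    have e3 : ((0, ξ' - ξ) : P n) + r • ((0, (Ret.per z).N y (ξ' - ξ)) - (0, ξ' - ξ)) =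
        ContinuousLinearMap.inr ℝ (E n) (E n) (ξ' - ξ) := by simp [Ret.per]
    rw [e3, ← ContinuousLinearMap.comp_apply]
    refine (ContinuousLinearMap.le_opENorm _ _).trans (mul_le_mul_right ?_ _)
    rw [← ofReal_norm]
    rw [mem_closedBall_zero_iff] at hξ hξ'
    exact ENNReal.ofReal_le_ofReal ((norm_sub_le _ _).trans (by linarith))
  · rw [lintegral_const_mul' _ _ ENNReal.ofReal_ne_top]
    have h1 : ∀ q ∈ K ×ˢ closedBall (0 : E n) (R + Z),
        gV q ≤ ENNReal.ofReal Z * ENNReal.ofReal (φ (M.Ψ q)) := fun q hq => by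
      rw [eV _ (ks _ hq), ← ofReal_norm, ← ENNReal.ofReal_mul hZ0]
      refine ENNReal.ofReal_le_ofReal
        (ContinuousLinearMap.opNorm_le_bound _ (mul_nonneg hZ0 (φ0 _)) fun w => ?_)
      have h2 := bV q (hKT hq.1) (mem_image_of_mem _ hq) (z q.1) w
      have h3 : ((sig c + b q : P n →L[ℝ] P n →L[ℝ] ℝ) (0, z q.1)).comp
          (ContinuousLinearMap.inr ℝ (E n) (E n)) w = b q (0, z q.1) (0, w) := by simp [sig_apply]
      rw [h3]
      refine h2.trans (mul_le_mul_of_nonneg_right ?_ (norm_nonneg _))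
      rw [mul_comm]
      exact mul_le_mul_of_nonneg_right (hZ _ hq.1) (φ0 _)
    have h2 := (hm_shear mz mV hK.measurableSet hZ' (R := R)).trans
      (setLIntegral_mono' (kc _).measurableSet h1)
    rw [lintegral_const_mul' _ _ ENNReal.ofReal_ne_top] at h2
    refine (mul_le_mul_right (h2.trans (mul_le_mul_right ((hμ K hK hKT _ (by linarith)
      fun x => ENNReal.ofReal (φ x)).trans (mul_le_mul_right iφ _)) _)) _).trans ?_
    rw [← ENNReal.ofReal_mul (by positivity), ← ENNReal.ofReal_mul hZ0,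
      ← ENNReal.ofReal_mul (by positivity), ENNReal.ofReal_le_one, ← mul_assoc Z, ← mul_assoc, ← hk,
      mul_one_div, div_le_one (by positivity)]
    linarith
  · intro y hy
    obtain ⟨g, ⟨O', hg, hy'⟩, h1, h2, h3, h4⟩ := hret y hy
    obtain ⟨-, b2, b3⟩ := M.bd O' g hg y hy'
    refine ⟨g.N y, tr (fderiv ℂ g.γ y), g.α y, (pair_inv (hg.pair y hy')).2.1, b2, b3,
      by linarith [le_abs_self Λ, M.C0_ge], fun ξ => ?_⟩
    have e : g.act (y, ξ + g.α y) = (γ y, g.N y ξ) := by simp [Ret.act, h1]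
    have m1 : (g.act (y, ξ + g.α y)).1 ∈ M.T := hg.maps hy'
    rw [← e, eΦ _ (mk_mem_prod m1 trivial), eΦ _ (mk_mem_prod (hg.sub hy') trivial),
      Pi_comb hT hA.1.continuousOn hβ.1.continuousOn M.T_conv hz ho 1 1 m1,
      Pi_comb hT hA.1.continuousOn hβ.1.continuousOn M.T_conv hz ho 1 1 (hg.sub hy'),
      hm_shift M.T_conv ho (βi _ _ hz) hg (βi _ _ hg) (p := (y, ξ + g.α y)) hy' h2, ← h4 (ξ + g.α y)]
    ring

end Pool.Agent.CL
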