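import Pool.Agent.K.MP_63735c_ag.C28
import Pool.Agent.K.MP_63735c_ag.C90

/-! Small isometries: change of variables, preserved periods. -/

open scoped ContDiff Matrix ENNReal
open Set Metric MeasureTheory Filter Topology

namespace Pool.Agent.CL

open Pool.Agent.SPF

variable {n : ℕ}

theorem cwcov_det (n : ℕ) : ∃ c > (0 : ℝ), ∀ U : E n →L[ℝ] E n, ‖U - 1‖ ≤ 1 / 16 → c ≤ |U.det| := by
  have hc : IsCompact (closedBall (1 : E n →L[ℝ] E n) (1 / 16)) := isCompact_closedBall _ _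
  obtain ⟨U0, h0, h1⟩ := hc.exists_isMinOn ⟨1, mem_closedBall_self (by norm_num)⟩
    (ContinuousLinearMap.continuous_det.abs.continuousOn)
  refine ⟨|U0.det|, abs_pos.2 fun h => ?_, fun U hU => h1 (mem_closedBall_iff_norm.2 hU)⟩
  obtain ⟨v, hv, hv0⟩ := (Submodule.ne_bot_iff _).1 (LinearMap.det_eq_zero_iff_ker_ne_bot.1 h)
  have h2 := (U0 - 1).le_of_opNorm_le (mem_closedBall_iff_norm.1 h0) v
  have h3 : U0 v = 0 := hv
  rw [sub_apply, h3, one_apply_eq_self, zero_sub, norm_neg] at h2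
  linarith [norm_pos_iff.2 hv0]

namespace Iso
variable {T : Set (E n)} {h : Form2 (E n)} (G : Iso T h) {j : G.G}

theorem Lsz (hj : G.lg.sz j ≤ G.lg.ε) : G.lg.L * G.lg.sz j ≤ 1 / 16 ∧
    G.lg.L * G.lg.sz j ≤ G.r / 16 := by
  have h1 := mul_le_mul_of_nonneg_left hj G.lg.L_pos.le
  have h2 := le_min_iff.1 G.small
  constructor <;> linarith [h2.1, h2.2]

theorem diffAt (j : G.G) {y : E n} (hy : y ∈ ball G.y0 (2 * G.r)) :
    DifferentiableAt ℂ (G.γ j) y := (G.γ_hol j).differentiableAt (isOpen_ball.mem_nhds hy)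

theorem injOn (hj : G.lg.sz j ≤ G.lg.ε) : InjOn (G.γ j) (ball G.y0 (2 * G.r)) := by
  intro x hx x' hx' e
  have h1 := (convex_ball G.y0 (2 * G.r)).norm_image_sub_le_of_norm_hasFDerivWithin_le
    (f := fun y => G.γ j y - y) (f' := fun y => fderiv ℂ (G.γ j) y - 1) (C := 1 / 16) (𝕜 := ℂ)
    (fun y hy => ((G.diffAt j hy).hasFDerivAt.sub (hasFDerivAt_id y)).hasFDerivWithinAt)
    (fun y hy => (G.near j hj y hy).2.1.trans (G.Lsz hj).1) hx hx'
  rw [e, sub_sub_sub_cancel_left, norm_sub_rev] at h1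
  exact (sub_eq_zero.1 (norm_le_zero_iff.1 (by linarith))).symm

theorem cov (G : Iso T h) : ∃ C : ℝ≥0∞, C ≠ ⊤ ∧ ∀ j, G.lg.sz j ≤ G.lg.ε → ∀ O O' : Set (E n),
    MeasurableSet O → O ⊆ ball G.y0 (2 * G.r) → MapsTo (G.γ j) O O' → ∀ F : E n → ℝ≥0∞,
      ∫⁻ x in O, F (G.γ j x) ≤ C * ∫⁻ x in O', F x := by
  obtain ⟨c, hc, hd⟩ := cwcov_det n
  have hc' : ENNReal.ofReal c ≠ 0 := by simpa using hc
  refine ⟨(ENNReal.ofReal c)⁻¹, ENNReal.inv_ne_top.2 hc', fun j hj O O' hO hs hm F => ?_⟩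
  have h1 := lintegral_image_eq_lintegral_abs_det_fderiv_mul volume hO
    (f' := fun y => (fderiv ℂ (G.γ j) y).restrictScalars ℝ)
    (fun y hy => ((G.diffAt j (hs hy)).hasFDerivAt.restrictScalars ℝ).hasFDerivWithinAt)
    ((G.injOn hj).mono hs) F
  rw [mul_comm, ← div_eq_mul_inv, ENNReal.le_div_iff_mul_le (Or.inl hc')
    (Or.inl ENNReal.ofReal_ne_top), mul_comm, ← lintegral_const_mul' _ _ ENNReal.ofReal_ne_top]
  refine le_trans ?_ (h1.symm.le.trans (lintegral_mono_set hm.image_subset))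
  refine setLIntegral_mono' hO fun y hy => mul_le_mul_left (ENNReal.ofReal_le_ofReal (hd _ ?_)) _
  have h2 := (G.near j hj y (hs hy)).2.1.trans (G.Lsz hj).1
  rwa [← ContinuousLinearMap.norm_restrictScalars (𝕜' := ℝ)] at h2

theorem mem_T (hj : G.lg.sz j ≤ G.lg.ε) {y : E n} (hy : y ∈ ball G.y0 (2 * G.r)) :
    G.γ j y ∈ closedBall G.y0 (4 * G.r) := by
  have h1 := (G.near j hj y hy).1.trans (G.Lsz hj).2
  have h2 := norm_sub_le_norm_sub_add_norm_sub (G.γ j y) y G.y0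
  rw [mem_ball_iff_norm] at hy
  rw [mem_closedBall_iff_norm]
  linarith [G.r_pos]

theorem ball_sub : ball G.y0 (2 * G.r) ⊆ T :=
  (ball_subset_closedBall.trans (closedBall_subset_closedBall (by linarith [G.r_pos]))).trans G.sub

theorem maps {c : E n} {t t' : ℝ} (hj : G.lg.sz j ≤ G.lg.ε) (hs : ball c t ⊆ ball G.y0 (2 * G.r))
    (ht : t + G.lg.L * G.lg.sz j ≤ t') : MapsTo (G.γ j) (ball c t) (ball c t') := by
  intro y hy
  have h1 := (G.near j hj y (hs hy)).1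
  have h2 := norm_sub_le_norm_sub_add_norm_sub (G.γ j y) y c
  rw [mem_ball_iff_norm] at hy ⊢
  linarith

theorem inv_γ (hj : G.lg.sz j ≤ G.lg.ε) (hj' : G.lg.sz (G.lg.inv j) ≤ G.lg.ε) {y : E n}
    (hy : y ∈ ball G.y0 (3 / 2 * G.r)) :
    G.γ (G.lg.inv j) (G.γ j y) = y ∧ G.γ j (G.γ (G.lg.inv j) y) = y := by
  rw [← G.γ_mul _ _ hj' hj y hy, ← G.γ_mul _ _ hj hj' y hy, G.lg.inv_mul j hj, G.lg.mul_inv j hj,
    G.γ_one]
  exact ⟨rfl, rfl⟩

end Iso

variable {X : Type} [TopologicalSpace X] [MeasurableSpace X] (S : Setup n X)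

/-- The isometry `j` preserves the periods. -/
def Setup.Pres (j : S.G.G) : Prop :=
  ∀ k, ∀ x ∈ ball S.G.y0 (2 * S.G.r), S.G.N j x (S.Q.z k x) = S.Q.z k (S.G.γ j x)

variable {S} {j j' : S.G.G}

theorem Setup.Pres.e (h : S.Pres j) (hj : S.G.lg.sz j ≤ S.G.lg.ε) {x : E n}
    (hx : x ∈ ball S.G.y0 (2 * S.G.r)) {v : E n} (hv : ∀ k ∉ S.Q.I, v k = 0) :
    S.G.N j x v = v ∧ tr (fderiv ℂ (S.G.γ j) x) v = v := by
  have h1 : S.G.N j x v = v := by
    have e : v = ∑ i ∈ S.Q.I, v i • (Pi.single i 1 : E n) := by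
      funext k
      by_cases hk : k ∈ S.Q.I
      · simp [Finset.sum_apply, Pi.single_apply, hk]
      · simp [Finset.sum_apply, Pi.single_apply, hk, hv k hk]
    conv_lhs => rw [e, map_sum]
    conv_rhs => rw [e]
    refine Finset.sum_congr rfl fun i hi => ?_
    obtain ⟨m, hm⟩ := S.Q.e_mem i hi
    rw [map_smul]
    congr 1
    conv_lhs => rw [← hm x (S.G.ball_sub hx)]
    rw [← hm _ (S.G.sub (S.G.mem_T hj hx)), zm, zm, map_sum]
    exact Finset.sum_congr rfl fun k _ => by rw [map_smul, h k x hx]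
  refine ⟨h1, ?_⟩
  conv_lhs => rw [← h1]
  exact (pair_inv (S.G.pair j x hx)).2.1 v

theorem Setup.phi_deriv (S : Setup n X) (k : Fin S.Q.r0) {o y : E n} (ho : o ∈ S.M.T)
    (hy : y ∈ S.M.T) : HasFDerivAt (hprim (S.Q.z k) o) (dl (S.Q.z k y)) y :=
  hprim_deriv S.M.T_open S.M.T_conv (S.Q.per0.z_ret k).α_hol
    (S.M.closed _ _ (S.Q.per0.z_ret k)) ho hy

theorem Setup.Pres.chi (h : S.Pres j) (hj : S.G.lg.sz j ≤ S.G.lg.ε) {o x : E n} (ho : o ∈ S.M.T)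
    (hx : x ∈ ball S.G.y0 (2 * S.G.r)) (k : Fin S.Q.r0) :
    hprim (S.Q.z k) o (S.G.γ j x) - hprim (S.Q.z k) o x = S.chi j k := by
  have h0 : S.G.y0 ∈ ball S.G.y0 (2 * S.G.r) := mem_ball_self (by linarith [S.G.r_pos])
  have h1 : ∀ y ∈ ball S.G.y0 (2 * S.G.r), HasFDerivWithinAt
      (fun y => hprim (S.Q.z k) o (S.G.γ j y) - hprim (S.Q.z k) o y) (0 : E n →L[ℂ] ℂ)
      (ball S.G.y0 (2 * S.G.r)) y := fun y hy => by
    have h2 := ((S.phi_deriv k ho (S.G.sub (S.G.mem_T hj hy))).comp y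
      (S.G.diffAt j hy).hasFDerivAt).sub (S.phi_deriv k ho (S.G.ball_sub hy))
    refine (h2.congr_fderiv ?_).hasFDerivWithinAt
    ext1 u
    rw [sub_apply, ContinuousLinearMap.comp_apply, dl_apply, dl_apply, ← h k y hy,
      S.G.pair j y hy, sub_self, zero_apply]
  have h2 := (convex_ball S.G.y0 (2 * S.G.r)).norm_image_sub_le_of_norm_hasFDerivWithin_le
    (C := 0) h1 (fun _ _ => by simp) h0 hx
  have h3 : ∀ y ∈ S.M.T, HasFDerivWithinAt
      (fun y => hprim (S.Q.z k) o y - hprim (S.Q.z k) S.G.y0 y) (0 : E n →L[ℂ] ℂ) S.M.T y :=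
    fun y hy => (((S.phi_deriv k ho hy).sub
      (S.phi_deriv k (S.G.ball_sub h0) hy)).congr_fderiv (sub_self _)).hasFDerivWithinAt
  have h4 := S.M.T_conv.norm_image_sub_le_of_norm_hasFDerivWithin_le
    (C := 0) h3 (fun _ _ => by simp) (S.G.ball_sub h0) (S.G.sub (S.G.mem_T hj h0))
  rw [zero_mul, norm_le_zero_iff, sub_eq_zero] at h2 h4
  have h5 : hprim (S.Q.z k) S.G.y0 S.G.y0 = 0 := by simp [hprim]
  rw [h2, Setup.chi]
  linear_combination h4 - h5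

theorem Setup.Pres.chi_mul (h : S.Pres j) (hj : S.G.lg.sz j ≤ S.G.lg.ε)
    (hj' : S.G.lg.sz j' ≤ S.G.lg.ε) : S.chi (S.G.lg.mul j j') = S.chi j + S.chi j' := by
  funext k
  have hr := S.G.r_pos
  have h0 : S.G.y0 ∈ ball S.G.y0 (2 * S.G.r) := mem_ball_self (by linarith)
  have h1 : S.G.γ j' S.G.y0 ∈ ball S.G.y0 (2 * S.G.r) :=
    S.G.maps (t := S.G.r) hj' (ball_subset_ball (by linarith))
      (by linarith [(S.G.Lsz hj').2]) (mem_ball_self hr)
  have h2 := h.chi hj (S.G.ball_sub h0) h1 k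
  rw [Pi.add_apply, ← h2, Setup.chi, Setup.chi,
    S.G.γ_mul _ _ hj hj' _ (mem_ball_self (by linarith)), sub_add_cancel]

theorem Setup.chi_one (S : Setup n X) : S.chi S.G.lg.one = 0 := by
  funext k
  simp [Setup.chi, S.G.γ_one, hprim]

theorem Setup.chi_bd (S : Setup n X) :
    ∃ C, ∀ j, S.G.lg.sz j ≤ S.G.lg.ε → ‖S.chi j‖ ≤ C := by
  have h0 : S.G.y0 ∈ ball S.G.y0 (2 * S.G.r) := mem_ball_self (by linarith [S.G.r_pos])
  obtain ⟨C, hC⟩ := (isCompact_closedBall S.G.y0 (4 * S.G.r)).exists_bound_of_continuousOn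
    (f := fun y k => hprim (S.Q.z k) S.G.y0 y) (continuousOn_pi.2 fun k y hy =>
      (S.phi_deriv k (S.G.ball_sub h0) (S.G.sub hy)).continuousAt.continuousWithinAt)
  exact ⟨C, fun j hj => hC _ (S.G.mem_T hj h0)⟩

/-- The displacement of the `I`-coordinates is determined by `chi`. -/
theorem Setup.disp (S : Setup n X) : ∃ D : (Fin S.Q.r0 → ℂ) → E n, ∀ j, S.Pres j →
    S.G.lg.sz j ≤ S.G.lg.ε → ∀ x ∈ ball S.G.y0 (2 * S.G.r), ∀ i ∈ S.Q.I,
      S.G.γ j x i - x i = D (S.chi j) i := by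
  choose! m hm using S.Q.e_mem
  refine ⟨fun c i => ∑ k, (m i k : ℂ) * c k, fun j h hj x hx i hi => ?_⟩
  have hx1 := S.G.ball_sub hx
  have hx2 := S.G.sub (S.G.mem_T hj hx)
  have h3 : ∀ y ∈ S.M.T, HasFDerivWithinAt
      (fun y => ∑ k, (m i k : ℂ) * hprim (S.Q.z k) x y - y i) (0 : E n →L[ℂ] ℂ) S.M.T y := by
    intro y hy
    have h1 := (HasFDerivAt.fun_sum (u := Finset.univ) fun k _ =>
      (S.phi_deriv k hx1 hy).const_mul (m i k : ℂ)).sub
      (ContinuousLinearMap.proj (R := ℂ) (φ := fun _ : Fin n => ℂ) i).hasFDerivAt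
    refine (h1.congr_fderiv ?_).hasFDerivWithinAt
    ext1 u
    have h2 := congrArg (· ⬝ᵥ u) (hm i hi y hy)
    simp only [zm, sum_dotProduct, smul_dotProduct, single_dotProduct, one_mul] at h2
    simp only [sub_apply, sum_apply, smul_apply, dl_apply, h2, ContinuousLinearMap.proj_apply,
      sub_self, zero_apply]
  have h4 := S.M.T_conv.norm_image_sub_le_of_norm_hasFDerivWithin_le
    (C := 0) h3 (fun _ _ => by simp) hx1 hx2
  rw [zero_mul, norm_le_zero_iff, sub_eq_zero] at h4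
  simp only [← h.chi hj hx1 hx, mul_sub, Finset.sum_sub_distrib]
  linear_combination -h4

end Pool.Agent.CL
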