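import Pool.Agent.K.MP_63735c_ag.C103

/-! Averaging the form over the real span of the periods `e_i`. -/

open scoped ContDiff Matrix ENNReal
open Set Metric MeasureTheory Filter Topology

namespace Pool.Agent.CL

open Pool.Agent.SPF

section
variable {F : Type} [NormedAddCommGroup F] [NormedSpace ℝ F] {W : Set F} {v : F}
variable {G : Type} [NormedAddCommGroup G] [NormedSpace ℝ G] [CompleteSpace G]

/-- Average along `v`. -/
noncomputable def av (v : F) (f : F → G) : F → G := fun p => ∫ s in (0 : ℝ)..1, f (p + s • v)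

omit [CompleteSpace G] in
theorem clav2_at (hW : IsOpen W) (hv : ∀ p ∈ W, ∀ c : ℝ, p + c • v ∈ W) {f : F → G}
    (hf : ContDiffOn ℝ ∞ f W) {p : F} (hp : p ∈ W) (s : ℝ) :
    ContDiffAt ℝ ∞ (fun q : F × ℝ => f (q.1 + q.2 • v)) (p, s) :=
  (clav1_at hW hf (hv p hp s)).1.comp (p, s) (by fun_prop)

omit [CompleteSpace G] in
theorem clav2_cont (hv : ∀ p ∈ W, ∀ c : ℝ, p + c • v ∈ W) {f : F → G}
    (hf : ContDiffOn ℝ ∞ f W) {p : F} (hp : p ∈ W) : Continuous fun s : ℝ => f (p + s • v) :=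
  hf.continuousOn.comp_continuous (by fun_prop) (hv p hp)

theorem av_smooth (hW : IsOpen W) (hv : ∀ p ∈ W, ∀ c : ℝ, p + c • v ∈ W) {f : F → G}
    (hf : ContDiffOn ℝ ∞ f W) : ContDiffOn ℝ ∞ (av v f) W :=
  contDiffOn_param hW (f := fun x s => f (x + s • v)) fun _ hx s _ => clav2_at hW hv hf hx s

theorem dd_av (hW : IsOpen W) (hv : ∀ p ∈ W, ∀ c : ℝ, p + c • v ∈ W) {f : F → ℝ}
    (hf : ContDiffOn ℝ ∞ f W) (u : F) {p : F} (hp : p ∈ W) :
    dd (av v f) u p = av v (dd f u) p := by
  obtain ⟨h1, h2⟩ := hasFDerivAt_param (f := fun x s => f (x + s • v)) (x := p)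
    fun s _ => (clav2_at hW hv hf hp s).of_le ENat.LEInfty.out
  have h3 : av v f = fun y => ∫ s in (0 : ℝ)..1, f (y + s • v) := rfl
  rw [dd, h3, h1.fderiv, ContinuousLinearMap.intervalIntegral_apply
    (h2.intervalIntegrable_of_Icc zero_le_one)]
  refine intervalIntegral.integral_congr fun s _ => ?_
  simp only [dd]
  rw [fderiv_comp_add_right]

theorem av_apply (hv : ∀ p ∈ W, ∀ c : ℝ, p + c • v ∈ W) {t : Form2 F}
    (ht : ContDiffOn ℝ ∞ t W) {p : F} (hp : p ∈ W) (a b : F) :
    av v t p a b = ∫ s in (0 : ℝ)..1, t (p + s • v) a b := by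
  have hc := clav2_cont hv ht hp
  rw [av, ContinuousLinearMap.intervalIntegral_apply (hc.intervalIntegrable _ _),
    ContinuousLinearMap.intervalIntegral_apply
      ((hc.clm_apply continuous_const).intervalIntegrable _ _)]

theorem av_closed (hW : IsOpen W) (hv : ∀ p ∈ W, ∀ c : ℝ, p + c • v ∈ W) {t : Form2 F}
    (ht : Closed2 W t) : Closed2 W (av v t) := by
  have hs := av_smooth hW hv ht.1
  refine ⟨hs, fun p hp a b => ?_, fun p hp a b c => ?_⟩
  · rw [av_apply hv ht.1 hp, av_apply hv ht.1 hp, ← intervalIntegral.integral_neg]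
    exact intervalIntegral.integral_congr fun s _ => ht.2.1 _ (hv p hp s) a b
  · have hd := (clav1_at hW hs hp).2.2.2
    have e : ∀ a b u, fderiv ℝ (av v t) p u a b = av v (dd (fm t a b) u) p := fun a b u => by
      rw [← dd_fm hd, ← dd_av hW hv (fm_smooth ht.1 a b) u hp]
      exact dd_congr hW (fun q hq => av_apply hv ht.1 hq a b) u hp
    have i : ∀ a b u, IntervalIntegrable (fun s : ℝ => dd (fm t a b) u (p + s • v)) volume 0 1 :=
      fun a b u =>
        (clav2_cont hv (dd_smooth hW (fm_smooth ht.1 a b) u) hp).intervalIntegrable _ _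
    rw [e, e, e]
    simp only [av]
    rw [← intervalIntegral.integral_add (i _ _ _) (i _ _ _),
      ← intervalIntegral.integral_add ((i _ _ _).add (i _ _ _)) (i _ _ _)]
    have : ∀ s : ℝ, dd (fm t b c) a (p + s • v) + dd (fm t c a) b (p + s • v) +
        dd (fm t a b) c (p + s • v) = 0 := fun s => dd_cyc hW ht (hv p hp s) a b c
    simp [this]

end

variable {n : ℕ} {X : Type} [TopologicalSpace X] [MeasurableSpace X]

theorem vert_mem {T : Set (E n)} (w : E n) : ∀ p ∈ T ×ˢ (univ : Set (E n)), ∀ c : ℝ,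
    p + c • ((0, w) : P n) ∈ T ×ˢ (univ : Set (E n)) := fun p hp c => by
  simpa using hp

theorem vert_add (y ξ w : E n) (c : ℝ) : ((y, ξ) : P n) + c • ((0, w) : P n) = (y, ξ + c • w) := by
  simp

/-- Properties that survive the averaging. -/
structure AvGood (M : Model n X) (I : Finset (Fin n)) (t : Form2 (P n)) : Prop where
  closed : Closed2 (M.T ×ˢ univ) t
  jinv : JInv (M.T ×ˢ univ) t
  pos : ∀ p : P n, p.1 ∈ M.T → ∀ u, u ≠ 0 → 0 < t p u (Complex.I • u)
  vert : ∀ p : P n, p.1 ∈ M.T → ∀ v w : E n, |t p (0, v) (0, w)| ≤ 2 * M.C0 * ‖v‖ * ‖w‖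
  per : ∀ i ∈ I, ∀ y ∈ M.T, ∀ ξ, t (y, ξ + Pi.single i 1) = t (y, ξ)
  inv : ∀ O g, IsRet M.T M.Ψ O g → (∀ x ∈ O, ∀ s ∈ RI I, g.N x s = s) → Inv t O g
  zero : ∀ i ∈ I, ∀ k ∈ I, ∀ y ∈ M.T, ∀ ξ,
    par (leaf t y) ξ (Pi.single i 1) (Pi.single k 1) = 0

theorem leaf_apply (t : Form2 (P n)) (y ξ a b : E n) :
    leaf t y ξ a b = t (y, ξ) (0, a) (0, b) := by
  simp [leaf]

omit [TopologicalSpace X] [MeasurableSpace X] in
theorem act_vert {T O : Set (E n)} {Ψ : P n → X} {g : Ret n} (hg : IsRet T Ψ O g) {s : E n}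
    (hs : ∀ x ∈ O, g.N x s = s) {p : P n} (hp : p.1 ∈ O) :
    g.act (p + (0, s)) = g.act p + (0, s) ∧
      fderiv ℝ g.act (p + (0, s)) = fderiv ℝ g.act p := by
  have e : ∀ q : P n, q.1 ∈ O → g.act (q + (0, s)) = g.act q + (0, s) := fun q hq => by
    have : q.2 + s - g.α q.1 = (q.2 - g.α q.1) + s := by abel
    simp [Ret.act, this, hs q.1 hq]
  refine ⟨e p hp, ?_⟩
  have h1 : (fun q => g.act (q + (0, s))) =ᶠ[𝓝 p] fun q => g.act q + (0, s) := by
    filter_upwards [(hg.isOpen.preimage continuous_fst).mem_nhds hp] with q hq using e q hq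
  rw [← fderiv_comp_add_right, h1.fderiv_eq, fderiv_add_const]

theorem AvGood.av {M : Model n X} {I : Finset (Fin n)} {t : Form2 (P n)} (h : AvGood M I t)
    {w : E n} (hw : w ∈ RI I) : AvGood M I (av ((0, w) : P n) t) := by
  have hW : IsOpen (M.T ×ˢ (univ : Set (E n))) := M.T_open.prod isOpen_univ
  have hv := vert_mem (T := M.T) w
  have ap : ∀ p : P n, p.1 ∈ M.T → ∀ a b, CL.av ((0, w) : P n) t p a b =
      ∫ s in (0 : ℝ)..1, t (p + s • ((0, w) : P n)) a b :=
    fun p hp a b => av_apply hv h.closed.1 ⟨hp, trivial⟩ a b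
  have mem : ∀ p : P n, p.1 ∈ M.T → ∀ s : ℝ, (p + s • ((0, w) : P n)).1 ∈ M.T :=
    fun p hp s => (hv p ⟨hp, trivial⟩ s).1
  refine ⟨av_closed hW hv h.closed, fun p hp a b => ?_, fun p hp u hu => ?_,
    fun p hp a b => ?_, fun i hi y hy ξ => ?_, fun O g hg hN p hp a b => ?_,
    fun i hi k hk y hy ξ => ?_⟩
  · rw [ap p hp.1, ap p hp.1]
    exact intervalIntegral.integral_congr fun s _ => h.jinv _ (hv p hp s) a b
  · rw [ap p hp]
    refine intervalIntegral.intervalIntegral_pos_of_pos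
      ((clav2_cont hv (fm_smooth h.closed.1 u (Complex.I • u))
        (p := p) ⟨hp, trivial⟩).intervalIntegrable _ _)
      (fun s => h.pos _ (mem p hp s) u hu) zero_lt_one
  · rw [ap p hp]
    have := intervalIntegral.norm_integral_le_of_norm_le_const (a := 0) (b := 1)
      (f := fun s : ℝ => t (p + s • ((0, w) : P n)) (0, a) (0, b))
      (C := 2 * M.C0 * ‖a‖ * ‖b‖) fun s _ => h.vert _ (mem p hp s) a b
    simpa using this
  · simp only [CL.av, vert_add]
    refine intervalIntegral.integral_congr fun s _ => ?_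
    rw [add_right_comm, h.per i hi y hy]
  · rw [ap p (hg.sub hp), ap _ (hg.maps hp)]
    refine intervalIntegral.integral_congr fun s _ => ?_
    have e : s • ((0, w) : P n) = (0, s • w) := by simp
    obtain ⟨e1, e2⟩ := act_vert hg (s := s • w) (fun x hx => hN x hx _ (RI.smul hw s)) hp
    rw [e, ← e1, ← e2]
    exact h.inv O g hg hN _ (by simpa using hp) a b
  · set a : E n := Pi.single i 1
    set b : E n := Pi.single k 1
    have hc : Continuous fun x : E n => t (y, x) (0, a) (0, b) :=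
      (fm_smooth h.closed.1 ((0, a) : P n) (0, b)).continuousOn.comp_continuous
        (f := fun x : E n => ((y, x) : P n)) (by fun_prop) fun _ => ⟨hy, trivial⟩
    have e : ∀ s r : ℝ, leaf (CL.av ((0, w) : P n) t) y (ξ + s • a + r • b) a b =
        ∫ q in (0 : ℝ)..1, t (y, ξ + q • w + s • a + r • b) (0, a) (0, b) := fun s r => by
      rw [leaf_apply, ap _ hy]
      refine intervalIntegral.integral_congr fun q _ => ?_
      simp only [vert_add]
      congr 4; abel
    simp only [par, e]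
    have s1 : ∀ s : ℝ, ∫ r in (0 : ℝ)..1, ∫ q in (0 : ℝ)..1,
        t (y, ξ + q • w + s • a + r • b) (0, a) (0, b) = ∫ q in (0 : ℝ)..1, ∫ r in (0 : ℝ)..1,
        t (y, ξ + q • w + s • a + r • b) (0, a) (0, b) := fun s =>
      swap01 (hc.comp (f := fun z : ℝ × ℝ => ξ + z.2 • w + s • a + z.1 • b) (by fun_prop))
    simp only [s1]
    rw [swap01 (φ := fun s q => ∫ r in (0 : ℝ)..1, t (y, ξ + q • w + s • a + r • b) (0, a) (0, b))
      (intervalIntegral.continuous_parametric_intervalIntegral_of_continuous'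
        (f := fun (z : ℝ × ℝ) (r : ℝ) => t (y, ξ + z.2 • w + z.1 • a + r • b) (0, a) (0, b))
        (hc.comp (f := fun z : (ℝ × ℝ) × ℝ => ξ + z.1.2 • w + z.1.1 • a + z.2 • b)
          (by fun_prop)) 0 1)]
    have z : ∀ q : ℝ, ∫ s in (0 : ℝ)..1, ∫ r in (0 : ℝ)..1,
        t (y, ξ + q • w + s • a + r • b) (0, a) (0, b) = 0 := fun q => by
      have := h.zero i hi k hk y hy (ξ + q • w)
      simpa only [par, leaf_apply] using this
    simp [z]

theorem avGood_om {M : Model n X} (Q : Per M) : AvGood M Q.I M.om := by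
  have ret : ∀ i ∈ Q.I, IsRet M.T M.Ψ M.T (Ret.per fun _ => Pi.single i 1) := fun i hi => by
    obtain ⟨m, hm⟩ := Q.e_mem i hi
    exact (isRet_zm M.T_open subset_rfl Q.per0.z_ret m).congr
      fun x hx => ⟨rfl, (hm x hx).symm, rfl⟩
  refine ⟨M.om_form.closed, M.om_form.jinv, M.om_pos, fun p hp v w => ?_, fun i hi y hy ξ => ?_,
    fun O g hg _ => M.om_form.inv O g hg, fun i hi k hk y hy ξ => ?_⟩
  · have := M.leaf_bd p.1 hp p.2 v w
    rwa [leaf_apply] at this
  · refine ContinuousLinearMap.ext fun a => ContinuousLinearMap.ext fun b => ?_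
    have h1 := M.om_form.inv _ _ (ret i hi) (y, ξ + Pi.single i 1) hy a b
    have h2 : (Ret.per fun _ => (Pi.single i 1 : E n)).act =
        fun p : P n => p - (0, Pi.single i 1) := by
      funext p; ext <;> simp [Ret.act, Ret.per]
    rw [h2, fderiv_sub_const, fderiv_fun_id] at h1
    simpa using h1.symm
  · have hc := leaf_closed M.T_open M.om_form.closed hy
    have hp : ∀ x, leaf M.om y (x + Pi.single i 1) = leaf M.om y x :=
      leaf_per (ret i hi) (M.om_form.inv _ _ (ret i hi)) hy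
    obtain ⟨hadd, -, -⟩ := par_per hc hp
    let A : AddSubgroup (E n) :=
      { carrier := {b | ∀ x, par (leaf M.om y) x (Pi.single i 1) b = 0}
        zero_mem' := fun x => by simp [par]
        add_mem' := fun {a b} ha hb x => by rw [hadd, ha, hb, add_zero]
        neg_mem' := fun {a} ha x => by
          have h := hadd (x - a) a (-a)
          rw [ha, add_neg_cancel, sub_add_cancel] at h
          simpa [par] using h.symm }
    obtain ⟨m, hm⟩ := Q.e_mem k hk
    have : zm Q.z m y ∈ A := A.sum_mem fun l _ => by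
      rw [Int.cast_smul_eq_zsmul]
      exact A.zsmul_mem (fun x => Q.e_zero i hi l y hy x) _
    rw [hm y hy] at this
    exact this ξ

theorem exists_avGood {M : Model n X} (Q : Per M) : ∃ t, AvGood M Q.I t ∧
    (∀ y ∈ M.T, ∀ ξ, ∀ s ∈ RI Q.I, t (y, ξ + s) = t (y, ξ)) ∧
    ∀ p : P n, p.1 ∈ M.T → ∀ s ∈ RI Q.I, ∀ s' ∈ RI Q.I, t p (0, s) (0, s') = 0 := by
  have main : ∀ J : Finset (Fin n), J ⊆ Q.I → ∃ t, AvGood M Q.I t ∧ ∀ i ∈ J, ∀ y ∈ M.T,
      ∀ ξ, ∀ c : ℝ, t (y, ξ + c • (Pi.single i 1 : E n)) = t (y, ξ) := by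
    intro J
    induction J using Finset.induction_on with
    | empty => exact fun _ => ⟨_, avGood_om Q, by simp⟩
    | insert k J _ ih =>
      intro hJ
      obtain ⟨t, ht, hi⟩ := ih ((Finset.subset_insert _ _).trans hJ)
      have hk := hJ (Finset.mem_insert_self k J)
      refine ⟨_, ht.av (RI.single hk), fun i hi' y hy ξ c => ?_⟩
      simp only [av, vert_add]
      rcases Finset.mem_insert.1 hi' with rfl | hi'
      · have hp : Function.Periodic
            (fun s : ℝ => t (y, ξ + s • (Pi.single i 1 : E n))) 1 := fun s => by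
          simp only [add_smul, one_smul, ← add_assoc]
          exact ht.per i hk y hy _
        have h1 := hp.intervalIntegral_add_eq c 0
        have h2 := intervalIntegral.integral_comp_add_left (a := 0) (b := 1)
          (fun s : ℝ => t (y, ξ + s • (Pi.single i 1 : E n))) c
        simp only [add_smul, ← add_assoc, add_zero, zero_add] at h1 h2
        rw [h2, h1]
      · refine intervalIntegral.integral_congr fun s _ => ?_
        rw [add_right_comm, hi i hi' y hy]
  obtain ⟨t, ht, hi⟩ := main Q.I subset_rfl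
  have dec : ∀ s ∈ RI Q.I, s = ∑ i ∈ Q.I, (s i).re • (Pi.single i 1 : E n) :=
    fun s hs => RI.dec hs
  have hRI : ∀ y ∈ M.T, ∀ ξ, ∀ s ∈ RI Q.I, t (y, ξ + s) = t (y, ξ) := fun y hy ξ s hs => by
    rw [dec s hs]
    refine Finset.sum_induction _ (fun a => ∀ ξ, t (y, ξ + a) = t (y, ξ)) ?_ (by simp) ?_ ξ
    · intro a b ha hb ξ
      rw [← add_assoc, hb, ha]
    · intro i hi' ξ
      exact hi i hi' y hy ξ _
  refine ⟨t, ht, hRI, fun p hp s hs s' hs' => ?_⟩
  have e0 : ∀ i ∈ Q.I, ∀ k ∈ Q.I, t p (0, Pi.single i 1) (0, Pi.single k 1) = 0 := by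
    intro i hi k hk
    have h := ht.zero i hi k hk p.1 hp p.2
    have e : ∀ a b : ℝ, t (p.1, p.2 + a • (Pi.single i 1 : E n) + b • (Pi.single k 1 : E n)) =
        t p := fun a b => by
      rw [hRI _ hp _ _ (RI.smul (RI.single hk) b), hRI _ hp _ _ (RI.smul (RI.single hi) a)]
    simpa [par, leaf_apply, e] using h
  have := leaf_apply t p.1 p.2 s s'
  rw [← this, dec s hs, dec s' hs']
  simp only [map_sum, map_smul, sum_apply, smul_apply,
    leaf_apply]
  refine Finset.sum_eq_zero fun k hk => ?_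
  rw [Finset.sum_eq_zero fun i hi => by rw [e0 i hi k hk, smul_zero], smul_zero]

end Pool.Agent.CL
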