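import Pool.Agent.K.MP_63735c_ag.C105

/-! The Levi form of the potential, shifts and monotonicity of the moment map. -/

open scoped ContDiff Matrix ENNReal
open Set Metric MeasureTheory Filter Topology

namespace Pool.Agent.CL

open Pool.Agent.SPF

variable {n : ℕ} {T : Set (E n)} {I : Finset (Fin n)} {t : Form2 (P n)} {o : P n}

theorem AvBase.hess (h : AvBase T I t o) {p : P n} (hp : p.1 ∈ T) {v : E n} (hv : v ∈ RI I)
    (w : P n) : dd (dd (pot I t o) (0, Complex.I • v)) w p = t p (0, v) w := by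
  rw [dd_congr h.W (g := fun q => ip v (mom I t o q)) (fun q hq => h.pot_tau hq.1 hv) w
    ⟨hp, trivial⟩, h.dd_rv hp hv]

theorem AvBase.near (h : AvBase T I t o) {p : P n} (hp : p.1 ∈ T) (w : P n) :
    ∀ᶠ c in 𝓝 (0 : ℝ), (p + c • w).1 ∈ T := by
  have : ContinuousAt (fun c : ℝ => (p + c • w).1) 0 := by fun_prop
  exact this.eventually (h.isOpen.mem_nhds (by simpa using hp))

theorem AvBase.flat (h : AvBase T I t o) {p : P n} (hp : p.1 ∈ T) (hτ : tauI I p.2 = 0) {w : P n}
    (hw : tauI I w.2 = 0) : dd (dd (pot I t o) w) w p = 0 := by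
  have z : ∀ q : P n, tauI I q.2 = 0 → ∀ c : ℝ, tauI I (q + c • w).2 = 0 := fun q hq c => by
    simp [hq, hw]
  have h1 : ∀ q : P n, q.1 ∈ T → tauI I q.2 = 0 → dd (pot I t o) w q = 0 := fun q hq hq' =>
    fderiv_inv (clav1_at h.W h.pot_smooth (p := q) ⟨hq, trivial⟩).2.2.2
      (Eventually.of_forall fun c => by rw [pot_zero (z q hq' c), pot_zero hq'])
  refine fderiv_inv (clav1_at h.W (dd_smooth h.W h.pot_smooth w) (p := p) ⟨hp, trivial⟩).2.2.2 ?_
  filter_upwards [h.near hp w] with c hc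
  rw [h1 _ hc (z p hτ c), h1 p hp hτ]

theorem AvBase.D2_zero (h : AvBase T I t o) {p : P n} (hp : p.1 ∈ T) (hτ : tauI I p.2 = 0)
    {w : P n} (hw : tauI I w.2 = 0) {b : E n} (hb : b ∈ RI I) :
    D2 (pot I t o) p (w + (0, Complex.I • b)) =
      2 * t p (0, b) w + t p (0, b) (0, Complex.I • b) := by
  have hW : p ∈ T ×ˢ (univ : Set (E n)) := ⟨hp, trivial⟩
  have h2 := (clav1_at h.W h.pot_smooth hW).2.1
  have a1 := h.flat hp hτ hw
  have a2 := h.hess hp hb w
  have a3 := h.hess hp hb (0, Complex.I • b)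
  have a4 := dd_comm h.W h.pot_smooth w (0, Complex.I • b) hW
  simp only [dd_dd h2] at a1 a2 a3 a4
  simp only [D2, map_add, add_apply]
  linarith

theorem AvBase.LP (h : AvBase T I t o) {p : P n} (hp : p.1 ∈ T) (u : P n) :
    Lv (pot I t o) p u = t p u (Complex.I • u) -
      t (p.1, piI I p.2) (u.1, piI I u.2) (Complex.I • (u.1, piI I u.2)) := by
  set D : P n → ℝ := fun q => Lv (pot I t o) q u - t q u (Complex.I • u) with hD
  have s1 := Lv_smooth h.W h.pot_smooth u
  have s2 := fm_smooth h.closed.1 u (Complex.I • u)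
  have sD : ContDiffOn ℝ ∞ D (T ×ˢ univ) := s1.sub s2
  have dD : ∀ w, ∀ q ∈ T ×ˢ (univ : Set (E n)), dd D w q =
      Lv (dd (pot I t o) w) q u - dd (fm t u (Complex.I • u)) w q := fun w q hq => by
    rw [dd_lin h.W s1 s2 1 (-1) (fun x _ => by simp only [hD, fm]; ring) w hq,
      dd_Lv h.W h.pot_smooth u w hq]
    ring
  have d1 : ∀ s ∈ RI I, ∀ q ∈ T ×ˢ (univ : Set (E n)), dd D (0, s) q = 0 := fun s hs q hq => by
    have e : EqOn (dd (pot I t o) (0, s)) (fun _ => 0) (T ×ˢ univ) := fun x hx =>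
      fderiv_inv (clav1_at h.W h.pot_smooth hx).2.2.2 (Eventually.of_forall fun c => by
        have := pot_RI (t := t) (o := o) x.1 x.2 (RI.smul hs c)
        rwa [← vert_add] at this)
    have e2 : ∀ a, dd (dd (dd (pot I t o) (0, s)) a) a q = 0 := fun a => by
      rw [dd_congr h.W (dd_congr h.W e a) a hq]
      have : dd (fun _ : P n => (0 : ℝ)) a = fun _ => 0 := by funext x; simp [dd]
      rw [this, this]
    rw [dD _ q hq, h.dir hs hq.1, Lv_dd h.W (dd_smooth h.W h.pot_smooth _) u hq, e2, e2]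
    ring
  have d2 : ∀ s ∈ RI I, ∀ q ∈ T ×ˢ (univ : Set (E n)), dd D (0, Complex.I • s) q = 0 :=
    fun s hs q hq => by
    have e2 : ∀ a, dd (dd (dd (pot I t o) (0, Complex.I • s)) a) a q =
        dd (fm t (0, s) a) a q := fun a =>
      dd_congr h.W (fun x hx => h.hess hx.1 hs a) a hq
    have e3 := dd_id1 h.W h.closed h.jinv hq u (0, s)
    have e4 : Complex.I • ((0, s) : P n) = (0, Complex.I • s) := by simp
    rw [e4] at e3
    rw [dD _ q hq, Lv_dd h.W (dd_smooth h.W h.pot_smooth _) u hq, e2, e2, e3]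
    ring
  have mv : ∀ w : E n, (∀ q ∈ T ×ˢ (univ : Set (E n)), dd D (0, w) q = 0) → ∀ ξ,
      D (p.1, ξ + w) = D (p.1, ξ) := fun w hw ξ => by
    have hm := vert_mem (T := T) w (p.1, ξ) ⟨hp, trivial⟩
    have := (line_int h.W sD hm 0 1).2
    simp only [fun s => hw _ (hm s), intervalIntegral.integral_zero] at this
    rw [vert_add, vert_add, one_smul, zero_smul, add_zero] at this
    linarith
  have e0 : D p = D (p.1, piI I p.2) := by
    have e4 : p = (p.1, (piI I p.2 + Complex.I • tauI I p.2) + reI I p.2) := by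
      ext1
      · rfl
      · conv_lhs => rw [split_I I p.2]
        simp only; abel
    conv_lhs => rw [e4]
    rw [mv _ (d1 _ (reI_mem I p.2)), mv _ (d2 _ (tauI_mem I p.2))]
  set p' : P n := (p.1, piI I p.2) with hp'
  have hW : p' ∈ T ×ˢ (univ : Set (E n)) := ⟨hp, trivial⟩
  have hτ : tauI I p'.2 = 0 := (proj_piI I p.2).2.1
  set u' : P n := (u.1, piI I u.2) with hu'
  set a : P n := (0, reI I u.2) with ha
  set b : P n := (0, tauI I u.2) with hb
  have ma := reI_mem I u.2
  have mb := tauI_mem I u.2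
  have ea : ((0, Complex.I • reI I u.2) : P n) = Complex.I • a := by simp [ha]
  have eb : ((0, Complex.I • tauI I u.2) : P n) = Complex.I • b := by simp [hb]
  have eu : u = u' + a + Complex.I • b := by
    ext1
    · simp [hu', ha, hb]
    · conv_lhs => rw [split_I I u.2]
      simp only [hu', ha, hb, Prod.snd_add, Prod.smul_snd]; abel
  have eu2 : Complex.I • u = Complex.I • u' - b + Complex.I • a := by
    conv_lhs => rw [eu]
    rw [smul_add, smul_add, II_smul]; abel
  have k1 := h.D2_zero (p := p') hp hτ (w := u' + a)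
    (by simp [hu', ha, (proj_piI I u.2).2.1, (RI.proj ma).2.1]) mb
  have k2 := h.D2_zero (p := p') hp hτ (w := Complex.I • u' - b)
    (by
      have : Complex.I • piI I u.2 = piI I (Complex.I • u.2) := (map_smul _ _ _).symm
      simp only [hu', hb, Prod.snd_sub, Prod.smul_snd, map_sub, this, (proj_piI I _).2.1,
        (RI.proj mb).2.1, sub_zero]) ma
  rw [eb, ← eu] at k1
  rw [ea, ← eu2] at k2
  have z1 : t p' a b = 0 := h.zero p' hp _ ma _ mb
  have z2 : t p' b a = 0 := h.zero p' hp _ mb _ ma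
  have j1 := jinv_symm h.closed h.jinv hW u' a
  have j2 := h.closed.2.1 p' hW u' b
  have j3 := h.jinv p' hW b u'
  have j4 := h.jinv p' hW b a
  have j5 := jinv_left h.jinv hW b b
  have ex : t p' u (Complex.I • u) =
      t p' (u' + a + Complex.I • b) (Complex.I • u' - b + Complex.I • a) := by rw [← eu2, ← eu]
  simp only [map_add, map_sub, add_apply] at ex k1 k2
  have : D p' = -t p' u' (Complex.I • u') := by
    simp only [hD, Lv]
    rw [k1, k2, ex]
    linarith
  rw [this] at e0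
  simp only [hD] at e0
  linarith

theorem AvBase.r_shift (h : AvBase T I t o) {X : Type} {Ψ : P n → X} {O : Set (E n)} {g : Ret n}
    (hg : IsRet T Ψ O g) (hO : IsPreconnected O) (hN : ∀ x ∈ O, ∀ s ∈ RI I, g.N x s = s)
    (hi : Inv t O g) :
    ∃ ρ ∈ RI I, ∀ p : P n, p.1 ∈ O → mom I t o (g.act p) - mom I t o p = ρ := by
  rcases O.eq_empty_or_nonempty with rfl | ⟨y0, hy0⟩
  · exact ⟨0, RI.zero I, fun p hp => hp.elim⟩
  have hW : IsOpen (O ×ˢ (univ : Set (E n))) := hg.isOpen.prod isOpen_univ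
  have hc : IsPreconnected (O ×ˢ (univ : Set (E n))) := hO.prod isPreconnected_univ
  obtain ⟨sm, mp, -, fd⟩ := hg.smooth
  refine ⟨_, RI.sub (mom_mem I t o (g.act (y0, 0))) (mom_mem I t o (y0, 0)), fun p hp => ?_⟩
  refine RI.ext (RI.sub (mom_mem _ _ _ _) (mom_mem _ _ _ _))
    (RI.sub (mom_mem _ _ _ _) (mom_mem _ _ _ _)) fun v hv => ?_
  have hd : ∀ q ∈ O ×ˢ (univ : Set (E n)), HasFDerivAt
      (fun q => ip v (mom I t o (g.act q)) - ip v (mom I t o q)) (0 : P n →L[ℝ] ℝ) q := by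
    intro q hq
    have h1 := ((h.r_deriv (mp hq).1 hv).comp q
      (clav1_at hW sm hq).2.2.2.hasFDerivAt).sub (h.r_deriv (hg.sub hq.1) hv)
    have e : fderiv ℝ g.act q (0, v) = (0, v) := by
      rw [fd q hq.1]; simp [hN q.1 hq.1 v hv]
    have e2 : (t (g.act q) (0, v)).comp (fderiv ℝ g.act q) - t q (0, v) = 0 := by
      refine ContinuousLinearMap.ext fun w => ?_
      have := hi q hq.1 (0, v) w
      rw [e] at this
      simp [this]
    rw [e2] at h1
    exact h1
  have := hW.is_const_of_fderiv_eq_zero (𝕜 := ℝ) hc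
    (fun q hq => (hd q hq).differentiableAt.differentiableWithinAt)
    (fun q hq => (hd q hq).fderiv) (x := p) (y := (y0, 0)) ⟨hp, trivial⟩ ⟨hy0, trivial⟩
  rw [ip_sub_RI v (mom_mem _ _ _ _) (mom_mem _ _ _ _),
    ip_sub_RI v (mom_mem _ _ _ _) (mom_mem _ _ _ _)]
  exact this

/-- Monotonicity, with a lower bound from a piece of the segment. -/
theorem AvBase.mon (h : AvBase T I t o)
    (hpos : ∀ p : P n, p.1 ∈ T → ∀ u, u ≠ 0 → 0 < t p u (Complex.I • u)) {y : E n} (hy : y ∈ T)
    (ξ : E n) {v : E n} (hv : v ∈ RI I) {a k : ℝ} (ha0 : 0 ≤ a) (ha1 : a ≤ 1)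
    (hk : ∀ s ∈ Icc (0 : ℝ) a, k ≤ t (y, ξ + s • Complex.I • v) (0, v) (0, Complex.I • v)) :
    a * k ≤ ip v (mom I t o (y, ξ + Complex.I • v) - mom I t o (y, ξ)) := by
  obtain ⟨hc, e⟩ := h.r_line hy ξ (Complex.I • v) hv
  have nn : ∀ s : ℝ, 0 ≤ t (y, ξ + s • Complex.I • v) (0, v) (0, Complex.I • v) := fun s => by
    by_cases h0 : ((0, v) : P n) = 0
    · rw [h0]; simp
    · simpa using (hpos (y, ξ + s • Complex.I • v) hy _ h0).le
  rw [e, ← intervalIntegral.integral_add_adjacent_intervals (b := a)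
    (hc.intervalIntegrable _ _) (hc.intervalIntegrable _ _)]
  have h1 := intervalIntegral.integral_mono_on (μ := volume) ha0 (intervalIntegrable_const (c := k))
    (hc.intervalIntegrable _ _) hk
  have h2 := intervalIntegral.integral_nonneg (μ := volume) ha1
    (f := fun s : ℝ => t (y, ξ + s • Complex.I • v) (0, v) (0, Complex.I • v)) fun s _ => nn s
  simp only [intervalIntegral.integral_const, sub_zero, smul_eq_mul] at h1
  linarith

end Pool.Agent.CL
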