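import Pool.Agent.K.MP_63735c_ag.C74
import Pool.Agent.K.MP_63735c_ag.C23

-- part Pool.Agent.P.MP_63735c_ag.CLMV
section

/-! Mean value inequalities in several variables. -/

open scoped ContDiff Matrix ENNReal
open Set Metric MeasureTheory Filter Topology

namespace Pool.Agent.CL

open Pool.Agent.SPF

variable (V : Type) [NormedAddCommGroup V] [NormedSpace ℝ V] [NormedSpace ℂ V]
  [IsScalarTower ℝ ℂ V] [FiniteDimensional ℂ V] [MeasurableSpace V] [BorelSpace V]

/-- the annulus -/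
def clmv_A : Set ℂ := closedBall 0 (3 / 4) \ ball 0 (1 / 2)

theorem clmv_A_meas : MeasurableSet clmv_A := measurableSet_closedBall.diff measurableSet_ball

theorem clmv_A_pos : volume clmv_A ≠ 0 := by
  refine ((measure_ball_pos volume (5 / 8 : ℂ) (by norm_num : (0 : ℝ) < 1 / 8)).trans_le
    (measure_mono fun t ht => ?_)).ne'
  rw [mem_ball, dist_eq_norm] at ht
  have h1 : ‖(5 / 8 : ℂ)‖ = 5 / 8 := by simp
  have h2 := abs_lt.1 ((abs_norm_sub_norm_le t (5 / 8)).trans_lt ht)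
  rw [h1] at h2
  refine ⟨mem_closedBall_zero_iff.2 (by linarith [h2.2]), fun h => ?_⟩
  have := mem_ball_zero_iff.1 h
  linarith [h2.1]

omit [MeasurableSpace V] [BorelSpace V] in
theorem clmv_line : ∃ a C : ℝ≥0∞, a ≠ 0 ∧ a ≠ ⊤ ∧ C ≠ ⊤ ∧
    ∀ (x u : V) (R : ℝ) (U : V → ℝ) (g : V → ℝ≥0∞), ‖u‖ < R → ContDiffOn ℝ 2 U (ball x (2 * R)) →
      (∀ y ∈ ball x (2 * R), 0 ≤ U y) → (∀ y ∈ ball x R, ENNReal.ofReal (Lv U y u) ≤ g y) →
      a * ∫⁻ t in clmv_A, ENNReal.ofReal (U (x + t • u)) ≤ ENNReal.ofReal (U x) +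
        C * ∫⁻ s in Ioc (0 : ℝ) 1, ∫⁻ t in ball (0 : ℂ) 1, g (x + (s • t) • u) := by
  obtain ⟨w, hw, h0, h1, -, ⟨c, hc, hcw⟩, C, hC, H⟩ := mv_plane
  refine ⟨ENNReal.ofReal c, C, (ENNReal.ofReal_pos.2 hc).ne', ENNReal.ofReal_ne_top, hC, ?_⟩
  intro x u R U g hu hU hU0 hg
  have hR : 0 < R := (norm_nonneg u).trans_lt hu
  have hin : ∀ (r : ℝ) (t : ℂ), ‖t‖ < r → x + t • u ∈ ball x (r * R) := fun r t ht => by
    rw [mem_ball, dist_eq_norm, add_sub_cancel_left, norm_smul]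
    exact mul_lt_mul'' ht hu (norm_nonneg _) (norm_nonneg _)
  have hl : ContDiff ℝ 2 fun t : ℂ => x + t • u :=
    contDiff_const.add (((ContinuousLinearMap.id ℂ ℂ).smulRight u).restrictScalars ℝ).contDiff
  have hh : ContDiffOn ℝ 2 (fun t : ℂ => U (x + t • u)) (ball 0 2) :=
    hU.comp hl.contDiffOn fun t ht => hin 2 t (mem_ball_zero_iff.1 ht)
  have key := H (fun t => U (x + t • u)) (fun t => g (x + t • u)) hh fun t ht => by
    have ht' := mem_ball_zero_iff.1 ht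
    have hd : ∀ y : ℂ, HasFDerivAt (fun t : ℂ => x + t • u)
        ((ContinuousLinearMap.id ℂ ℂ).smulRight u) y := fun y =>
      ((ContinuousLinearMap.id ℂ ℂ).smulRight u).hasFDerivAt.const_add x
    rw [Lv_comp (g := fun t : ℂ => x + t • u)
      (hU.contDiffAt (isOpen_ball.mem_nhds (hin 2 t (by linarith))))
      (Eventually.of_forall fun y => (hd y).differentiableAt), (hd t).fderiv]
    have h2 := hg _ (one_mul R ▸ hin 1 t ht')
    simpa using h2
  have hz : ∀ t : ℂ, t ∉ ball (0 : ℂ) 1 → U (x + t • u) * w t = 0 := fun t ht => by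
    rw [h1 t (not_lt.1 fun h => ht (mem_ball_zero_iff.2 h)), mul_zero]
  have hnn : ∀ t : ℂ, 0 ≤ U (x + t • u) * w t := fun t => by
    by_cases ht : t ∈ ball (0 : ℂ) 1
    · exact mul_nonneg (hU0 _ (hin 2 t (by linarith [mem_ball_zero_iff.1 ht]))) (h0 t)
    · exact (hz t ht).ge
  have hint : Integrable fun t : ℂ => U (x + t • u) * w t := by
    refine IntegrableOn.integrable_of_forall_notMem_eq_zero (s := closedBall (0 : ℂ) 1)
      (ContinuousOn.integrableOn_compact (isCompact_closedBall 0 1) ?_)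
      fun t ht => hz t fun h => ht (ball_subset_closedBall h)
    exact (hh.continuousOn.mono (closedBall_subset_ball (by norm_num))).mul
      hw.continuous.continuousOn
  calc ENNReal.ofReal c * ∫⁻ t in clmv_A, ENNReal.ofReal (U (x + t • u))
      = ∫⁻ t in clmv_A, ENNReal.ofReal c * ENNReal.ofReal (U (x + t • u)) :=
        (lintegral_const_mul' _ _ ENNReal.ofReal_ne_top).symm
    _ ≤ ∫⁻ t in clmv_A, ENNReal.ofReal (U (x + t • u) * w t) := by
        refine setLIntegral_mono' clmv_A_meas fun t ht => ?_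
        have ht' := mem_closedBall_zero_iff.1 ht.1
        rw [← ENNReal.ofReal_mul hc.le, mul_comm]
        exact ENNReal.ofReal_le_ofReal
          (mul_le_mul_of_nonneg_left (hcw t ht') (hU0 _ (hin 2 t (by linarith))))
    _ ≤ ∫⁻ t, ENNReal.ofReal (U (x + t • u) * w t) := setLIntegral_le_lintegral _ _
    _ = ENNReal.ofReal (∫ t, U (x + t • u) * w t) :=
        (ofReal_integral_eq_lintegral_ofReal hint (Eventually.of_forall hnn)).symm
    _ ≤ ENNReal.ofReal (U x) + ENNReal.ofReal ((∫ t, U (x + t • u) * w t) - U x) := by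
        refine le_trans (le_of_eq ?_) ENNReal.ofReal_add_le
        rw [add_sub_cancel]
    _ ≤ _ := by
        refine add_le_add le_rfl ?_
        simpa only [zero_smul, add_zero] using key

omit [NormedSpace ℝ V] [IsScalarTower ℝ ℂ V] in
theorem clmv_scale (μ : Measure V) [μ.IsAddHaarMeasure] (x : V) (R : ℝ) {t : ℂ}
    (ht : t ∈ clmv_A) (F : V → ℝ≥0∞) :
    ∫⁻ y in ball x (R / 2), F y ∂μ ≤ ∫⁻ u in ball 0 R, F (x + t • u) ∂μ := by
  have := FiniteDimensional.proper ℂ V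
  have h1 : ‖t‖ ≤ 3 / 4 := mem_closedBall_zero_iff.1 ht.1
  have h2 : 1 / 2 ≤ ‖t‖ := not_lt.1 fun h => ht.2 (mem_ball_zero_iff.2 h)
  have h0 : t ≠ 0 := norm_pos_iff.1 (by linarith)
  let L : V ≃L[ℂ] V := (LinearEquiv.smulOfNeZero ℂ V t h0).toContinuousLinearEquiv
  have hL : ∀ u, L u = t • u := fun u => rfl
  have hm : MeasurableEmbedding L := L.toHomeomorph.measurableEmbedding
  have : (μ.map L).IsAddHaarMeasure := L.isAddHaarMeasure_map μ
  have hle : μ ≤ μ.map L := by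
    have e := Measure.isAddLeftInvariant_eq_smul (μ.map L) μ
    have b : μ (ball 0 1) ≤ μ.map L (ball 0 1) := by
      rw [hm.map_apply]
      refine measure_mono fun u hu => ?_
      have := mem_ball_zero_iff.1 hu
      rw [mem_preimage, mem_ball_zero_iff, hL, norm_smul]
      nlinarith [norm_nonneg u]
    rw [e, Measure.smul_apply, ENNReal.smul_def, smul_eq_mul] at b
    have b1 : (1 : ℝ≥0∞) ≤ Measure.addHaarScalarFactor (μ.map L) μ := by
      rw [← ENNReal.mul_le_mul_iff_left (measure_ball_pos μ 0 one_pos).ne' measure_ball_lt_top.ne,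
        one_mul]
      exact b
    rw [e]
    intro s
    rw [Measure.smul_apply, ENNReal.smul_def, smul_eq_mul]
    exact le_mul_of_one_le_left' b1
  calc ∫⁻ y in ball x (R / 2), F y ∂μ = ∫⁻ v in ball 0 (R / 2), F (x + v) ∂μ := by
        rw [← (measurePreserving_add_left μ x).setLIntegral_comp_preimage_emb
          (measurableEmbedding_addLeft x)]
        simp
    _ ≤ ∫⁻ v in ball 0 (R / 2), F (x + v) ∂(μ.map L) :=
        lintegral_mono' (Measure.restrict_mono subset_rfl hle) le_rfl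
    _ = ∫⁻ u in L ⁻¹' ball 0 (R / 2), F (x + L u) ∂μ :=
        ((MeasurePreserving.mk hm.measurable rfl).setLIntegral_comp_preimage_emb hm
          (fun v => F (x + v)) _).symm
    _ ≤ _ := by
        refine lintegral_mono_set fun u hu => ?_
        rw [mem_preimage, mem_ball_zero_iff, hL, norm_smul] at hu
        rw [mem_ball_zero_iff]
        nlinarith [norm_nonneg u]

/-- the parameter measure -/
noncomputable def clmv_nu (μ : Measure V) (R : ℝ) : Measure (V × ℝ × ℂ) :=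
  (μ.restrict (ball 0 R)).prod
    ((volume.restrict (Ioc (0 : ℝ) 1)).prod (volume.restrict (ball (0 : ℂ) 1)))

omit [NormedSpace ℝ V] [NormedSpace ℂ V] [IsScalarTower ℝ ℂ V] [FiniteDimensional ℂ V]
  [BorelSpace V] in
theorem clmv_nu_univ (μ : Measure V) (R : ℝ) :
    clmv_nu V μ R univ = μ (ball 0 R) * volume (ball (0 : ℂ) 1) := by
  rw [clmv_nu, ← univ_prod_univ, Measure.prod_prod, ← univ_prod_univ, Measure.prod_prod]
  simp only [Measure.restrict_apply_univ, Real.volume_Ioc, sub_zero, ENNReal.ofReal_one, one_mul]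

theorem clmv_core : ∃ a C : ℝ≥0∞, a ≠ 0 ∧ C ≠ ⊤ ∧
    ∀ (μ : Measure V) [μ.IsAddHaarMeasure] (x : V) (R : ℝ) (U : V → ℝ) (g : V → ℝ≥0∞),
      Measurable g → ContDiffOn ℝ 2 U (ball x (2 * R)) → (∀ y ∈ ball x (2 * R), 0 ≤ U y) →
      (∀ y ∈ ball x R, ∀ u, ‖u‖ < R → ENNReal.ofReal (Lv U y u) ≤ g y) →
      a * ∫⁻ y in ball x (R / 2), ENNReal.ofReal (U y) ∂μ ≤
        μ (ball 0 R) * ENNReal.ofReal (U x) +
          C * ∫⁻ p, g (x + (p.2.1 • p.2.2) • p.1) ∂(clmv_nu V μ R) := by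
  have := FiniteDimensional.proper ℂ V
  obtain ⟨a, C, ha, ha', hC, H⟩ := clmv_line V
  refine ⟨a * volume clmv_A, C, mul_ne_zero ha clmv_A_pos, hC, ?_⟩
  intro μ _ x R U g hg hU hU0 hL
  have hm : Measurable fun p : V × ℝ × ℂ => g (x + (p.2.1 • p.2.2) • p.1) :=
    hg.comp (by fun_prop : Continuous fun p : V × ℝ × ℂ => x + (p.2.1 • p.2.2) • p.1).measurable
  have hc : ContinuousOn (fun p : ℂ × V => ENNReal.ofReal (U (x + p.1 • p.2)))
      (clmv_A ×ˢ ball 0 R) := by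
    refine ENNReal.continuous_ofReal.comp_continuousOn
      (hU.continuousOn.comp (by fun_prop) fun p hp => ?_)
    have b1 := mem_closedBall_zero_iff.1 hp.1.1
    have b2 := mem_ball_zero_iff.1 hp.2
    rw [mem_ball, dist_eq_norm, add_sub_cancel_left, norm_smul]
    nlinarith [norm_nonneg p.1, norm_nonneg p.2]
  calc a * volume clmv_A * ∫⁻ y in ball x (R / 2), ENNReal.ofReal (U y) ∂μ
      = a * ∫⁻ _ in clmv_A, ∫⁻ y in ball x (R / 2), ENNReal.ofReal (U y) ∂μ := by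
        rw [setLIntegral_const, mul_assoc, mul_comm (volume clmv_A)]
    _ ≤ a * ∫⁻ t in clmv_A, ∫⁻ u in ball 0 R, ENNReal.ofReal (U (x + t • u)) ∂μ :=
        mul_le_mul_right (setLIntegral_mono' clmv_A_meas fun t ht =>
          clmv_scale V μ x R ht fun y => ENNReal.ofReal (U y)) a
    _ = a * ∫⁻ u in ball 0 R, (∫⁻ t in clmv_A, ENNReal.ofReal (U (x + t • u))) ∂μ := by
        rw [lintegral_lintegral_swap]
        rw [Measure.prod_restrict]
        exact hc.aemeasurable (clmv_A_meas.prod measurableSet_ball)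
    _ = ∫⁻ u in ball 0 R, (a * ∫⁻ t in clmv_A, ENNReal.ofReal (U (x + t • u))) ∂μ :=
        (lintegral_const_mul' _ _ ha').symm
    _ ≤ ∫⁻ u in ball 0 R, (ENNReal.ofReal (U x) +
          C * ∫⁻ s in Ioc (0 : ℝ) 1, ∫⁻ t in ball (0 : ℂ) 1, g (x + (s • t) • u)) ∂μ :=
        setLIntegral_mono' measurableSet_ball fun u hu =>
          H x u R U g (mem_ball_zero_iff.1 hu) hU hU0 fun y hy => hL y hy u (mem_ball_zero_iff.1 hu)
    _ = _ := by
        rw [lintegral_add_left measurable_const, setLIntegral_const, lintegral_const_mul' _ _ hC,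
          mul_comm, clmv_nu, lintegral_prod _ hm.aemeasurable]
        congr 2
        refine lintegral_congr fun u => ?_
        exact (lintegral_prod (fun q : ℝ × ℂ => g (x + (q.1 • q.2) • u))
          (hm.comp measurable_prodMk_left).aemeasurable).symm

theorem clmv_div {a x y : ℝ≥0∞} (ha : a ≠ 0) (h : a * x ≤ y) : x ≤ (min a 1)⁻¹ * y := by
  have h0 : min a 1 ≠ 0 := (lt_min (pos_iff_ne_zero.2 ha) one_pos).ne'
  have h1 : min a 1 ≠ ⊤ := ((min_le_right _ _).trans_lt ENNReal.one_lt_top).ne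
  calc x = (min a 1)⁻¹ * (min a 1 * x) := by rw [← mul_assoc, ENNReal.inv_mul_cancel h0 h1, one_mul]
    _ ≤ _ := mul_le_mul_right ((mul_le_mul_left (min_le_left _ _) x).trans h) _

theorem clmv_inv {a : ℝ≥0∞} (ha : a ≠ 0) : (min a 1)⁻¹ ≠ ⊤ :=
  ENNReal.inv_ne_top.2 (lt_min (pos_iff_ne_zero.2 ha) one_pos).ne'

omit [FiniteDimensional ℂ V] [MeasurableSpace V] [BorelSpace V] in
theorem clmv_smul (U : V → ℝ) (x u : V) (r : ℝ) : Lv U x (r • u) = r ^ 2 * Lv U x u := by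
  simp only [Lv, D2, smul_comm Complex.I r u, map_smul, _root_.smul_apply, smul_eq_mul]
  ring

theorem clmv_avg : ∃ C : ℝ≥0∞, C ≠ ⊤ ∧
    ∀ (μ : Measure V) [μ.IsAddHaarMeasure] (K : ℝ) (U : V → ℝ) (f : V → ℝ≥0∞) (M : Set V),
      Measurable f → MeasurableSet M → M ⊆ ball 0 1 → ContDiffOn ℝ 2 U (ball 0 10) →
      (∀ x ∈ ball (0 : V) 10, 0 ≤ U x ∧ ∀ u, ‖u‖ ≤ 1 → ENNReal.ofReal (Lv U x u) ≤ f x) →
      (∀ x ∈ M, U x ≤ K) →
      μ M * ∫⁻ x in ball 0 1, ENNReal.ofReal (U x) ∂μ ≤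
        C * μ (ball 0 1) * (μ M * ENNReal.ofReal K + ∫⁻ x in ball 0 10, f x ∂μ) := by
  have := FiniteDimensional.proper ℂ V
  have : FiniteDimensional ℝ V := Module.Finite.trans ℂ V
  obtain ⟨a, C, ha, hC, H⟩ := clmv_core V
  set B := volume (ball (0 : ℂ) 1) with hB
  have hB' : B ≠ ⊤ := measure_ball_lt_top.ne
  refine ⟨(min a 1)⁻¹ * (ENNReal.ofReal (4 ^ Module.finrank ℝ V) * (1 + C * B * 16)),
    ENNReal.mul_ne_top (clmv_inv ha) (by finiteness), ?_⟩
  intro μ _ K U f M hf hM hM1 hU hU0 hK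
  set g : V → ℝ≥0∞ := fun x => 16 * (ball (0 : V) 10).indicator f x with hg
  have hgm : Measurable g := (hf.indicator measurableSet_ball).const_mul _
  have hm : Measurable fun q : V × V × ℝ × ℂ => g (q.1 + (q.2.2.1 • q.2.2.2) • q.2.1) :=
    hgm.comp (by fun_prop : Continuous fun q : V × V × ℝ × ℂ =>
      q.1 + (q.2.2.1 • q.2.2.2) • q.2.1).measurable
  have : SFinite (clmv_nu V μ 4) := by unfold clmv_nu; infer_instance
  have pt : ∀ x ∈ M, a * ∫⁻ y in ball 0 1, ENNReal.ofReal (U y) ∂μ ≤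
      μ (ball 0 4) * ENNReal.ofReal K +
        C * ∫⁻ p, g (x + (p.2.1 • p.2.2) • p.1) ∂(clmv_nu V μ 4) := fun x hx => by
    have hx1 : dist x 0 < 1 := hM1 hx
    have s1 : ball x (2 * 4) ⊆ ball 0 10 := ball_subset_ball' (by linarith)
    have s2 : ball (0 : V) 1 ⊆ ball x (4 / 2) := ball_subset_ball' (by rw [dist_comm]; linarith)
    refine (mul_le_mul_right (lintegral_mono_set s2) a).trans
      ((H μ x 4 U g hgm (hU.mono s1) (fun y hy => (hU0 y (s1 hy)).1) fun y hy u hu => ?_).trans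
        (add_le_add (mul_le_mul_right (ENNReal.ofReal_le_ofReal (hK x hx)) _) le_rfl))
    have hy' : y ∈ ball (0 : V) 10 := s1 (ball_subset_ball (by norm_num) hy)
    have e : u = (4 : ℝ) • ((4 : ℝ)⁻¹ • u) := by rw [smul_inv_smul₀ (by norm_num)]
    rw [e, clmv_smul, ENNReal.ofReal_mul (by norm_num), hg]
    simp only [indicator_of_mem hy']
    refine mul_le_mul' (by norm_num) ((hU0 y hy').2 _ ?_)
    rw [norm_smul, norm_inv, Real.norm_ofNat]
    linarith
  have sw : ∫⁻ x, ∫⁻ p, g (x + (p.2.1 • p.2.2) • p.1) ∂(clmv_nu V μ 4) ∂μ =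
      16 * (∫⁻ x in ball 0 10, f x ∂μ) * (μ (ball 0 4) * B) := by
    rw [lintegral_lintegral_swap hm.aemeasurable]
    simp only [lintegral_add_right_eq_self g]
    rw [lintegral_const, clmv_nu_univ, hg, lintegral_const_mul' _ _ (by norm_num),
      lintegral_indicator measurableSet_ball]
  have e4 : μ (ball 0 4) = ENNReal.ofReal (4 ^ Module.finrank ℝ V) * μ (ball 0 1) := by
    rw [← Measure.addHaar_ball_mul_of_pos μ 0 (by norm_num : (0 : ℝ) < 4), mul_one]
  rw [mul_assoc, mul_assoc]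
  refine clmv_div ha ?_
  calc a * (μ M * ∫⁻ x in ball 0 1, ENNReal.ofReal (U x) ∂μ)
      = ∫⁻ _ in M, a * ∫⁻ x in ball 0 1, ENNReal.ofReal (U x) ∂μ ∂μ := by
        rw [setLIntegral_const]; ring
    _ ≤ ∫⁻ x in M, (μ (ball 0 4) * ENNReal.ofReal K +
        C * ∫⁻ p, g (x + (p.2.1 • p.2.2) • p.1) ∂(clmv_nu V μ 4)) ∂μ := setLIntegral_mono' hM pt
    _ ≤ μ (ball 0 4) * ENNReal.ofReal K * μ M +
        C * (16 * (∫⁻ x in ball 0 10, f x ∂μ) * (μ (ball 0 4) * B)) := by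
        rw [lintegral_add_left measurable_const, setLIntegral_const, lintegral_const_mul' _ _ hC,
          ← sw]
        exact add_le_add le_rfl (mul_le_mul_right (setLIntegral_le_lintegral _ _) C)
    _ ≤ _ := by
        rw [e4]
        generalize ENNReal.ofReal (4 ^ Module.finrank ℝ V) = D
        generalize (∫⁻ x in ball 0 10, f x ∂μ) = J
        generalize μ (ball 0 1) = b
        calc _ = D * b * (1 * (μ M * ENNReal.ofReal K) + C * B * 16 * J) := by ring
          _ ≤ D * b * ((1 + C * B * 16) * (μ M * ENNReal.ofReal K) + (1 + C * B * 16) * J) := by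
              gcongr
              exacts [le_self_add, le_add_self]
          _ = _ := by ring

theorem mv_point (μ : Measure V) [μ.IsAddHaarMeasure] : ∃ C : ℝ≥0∞, C ≠ ⊤ ∧
    ∀ (x0 : V) (ρ K : ℝ) (U : V → ℝ), 0 < ρ → 0 ≤ K → ContDiffOn ℝ 2 U (ball x0 (4 * ρ)) →
      (∀ x ∈ ball x0 (4 * ρ), 0 ≤ U x ∧ ∀ u, Lv U x u ≤ K * ‖u‖ ^ 2) →
      ∫⁻ x in ball x0 ρ, ENNReal.ofReal (U x) ∂μ ≤
        C * μ (ball x0 ρ) * ENNReal.ofReal (U x0 + K * ρ ^ 2) := by
  have : FiniteDimensional ℝ V := Module.Finite.trans ℂ V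
  obtain ⟨a, C, ha, hC, H⟩ := clmv_core V
  set B := volume (ball (0 : ℂ) 1) with hB
  have hB' : B ≠ ⊤ := measure_ball_lt_top.ne
  refine ⟨(min a 1)⁻¹ * (ENNReal.ofReal (2 ^ Module.finrank ℝ V) * (1 + C * B * 4)),
    ENNReal.mul_ne_top (clmv_inv ha) (by finiteness), ?_⟩
  intro x0 ρ K U hρ hK hU hU0
  have e : 2 * (2 * ρ) = 4 * ρ := by ring
  have h0 : 0 ≤ U x0 := (hU0 x0 (mem_ball_self (by linarith))).1
  have hK' : 0 ≤ K * ρ ^ 2 := by positivity
  have key := H μ x0 (2 * ρ) U (fun _ => 4 * ENNReal.ofReal (K * ρ ^ 2)) measurable_const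
    (e ▸ hU) (fun y hy => (hU0 y (e ▸ hy)).1) fun y hy u hu => by
      rw [← ENNReal.ofReal_ofNat, ← ENNReal.ofReal_mul (by norm_num)]
      refine ENNReal.ofReal_le_ofReal
        (((hU0 y (ball_subset_ball (by linarith) hy)).2 u).trans ?_)
      have : ‖u‖ ^ 2 ≤ (2 * ρ) ^ 2 := pow_le_pow_left₀ (norm_nonneg u) hu.le 2
      nlinarith
  rw [mul_div_cancel_left₀ ρ two_ne_zero, lintegral_const, clmv_nu_univ,
    Measure.addHaar_ball_mul_of_pos μ 0 two_pos, ← Measure.addHaar_ball_center μ x0] at key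
  rw [mul_assoc, mul_assoc]
  refine clmv_div ha (key.trans ?_)
  rw [ENNReal.ofReal_add h0 hK', ← hB]
  generalize ENNReal.ofReal (2 ^ Module.finrank ℝ V) = D
  generalize μ (ball x0 ρ) = b
  generalize ENNReal.ofReal (U x0) = y
  generalize ENNReal.ofReal (K * ρ ^ 2) = z
  calc _ = D * b * (1 * y + C * B * 4 * z) := by ring
    _ ≤ D * b * ((1 + C * B * 4) * y + (1 + C * B * 4) * z) := by
        gcongr
        exacts [le_self_add, le_add_self]
    _ = _ := by ring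

theorem mv_avg (μ : Measure V) [μ.IsAddHaarMeasure] : ∃ C : ℝ≥0∞, C ≠ ⊤ ∧
    ∀ (x0 : V) (Λ : V ≃L[ℂ] V) (K : ℝ) (U : V → ℝ) (f : V → ℝ≥0∞) (M : Set V), Measurable f →
      MeasurableSet M → M ⊆ {x | ‖Λ.symm (x - x0)‖ < 1} →
      ContDiffOn ℝ 2 U {x | ‖Λ.symm (x - x0)‖ < 10} →
      (∀ x, ‖Λ.symm (x - x0)‖ < 10 → 0 ≤ U x ∧
        ∀ u, ‖u‖ ≤ 1 → ENNReal.ofReal (Lv U x (Λ u)) ≤ f x) →
      (∀ x ∈ M, U x ≤ K) →
      μ M * ∫⁻ x in {x | ‖Λ.symm (x - x0)‖ < 1}, ENNReal.ofReal (U x) ∂μ ≤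
        C * μ {x | ‖Λ.symm (x - x0)‖ < 1} *
          (μ M * ENNReal.ofReal K + ∫⁻ x in {x | ‖Λ.symm (x - x0)‖ < 10}, f x ∂μ) := by
  obtain ⟨C, hC, H⟩ := clmv_avg V
  refine ⟨C, hC, fun x0 Λ K U f M hf hM hM1 hU hU0 hK => ?_⟩
  let φ : V ≃ₜ V := (Homeomorph.subRight x0).trans Λ.symm.toHomeomorph
  have hφ : ∀ x, φ x = Λ.symm (x - x0) := fun _ => rfl
  have hψ : ∀ y, φ.symm y = Λ y + x0 := fun _ => rfl
  have hm : MeasurableEmbedding φ := φ.measurableEmbedding
  have : (μ.map Λ.symm).IsAddHaarMeasure := Λ.symm.isAddHaarMeasure_map μ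
  have hp : MeasurePreserving φ μ (μ.map Λ.symm) :=
    (MeasurePreserving.mk Λ.symm.continuous.measurable rfl).comp
      (measurePreserving_sub_right μ x0)
  have hb : ∀ r : ℝ, φ ⁻¹' ball 0 r = {x | ‖Λ.symm (x - x0)‖ < r} := fun r => by
    ext x
    rw [mem_preimage, mem_ball_zero_iff, hφ, mem_ofPred_eq]
  have hin : ∀ (r : ℝ), ∀ y ∈ ball (0 : V) r, ‖Λ.symm (φ.symm y - x0)‖ < r := fun r y hy => by
    rw [← hφ, φ.apply_symm_apply]
    exact mem_ball_zero_iff.1 hy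
  have hd : ∀ y, HasFDerivAt (fun y => Λ y + x0) (Λ : V →L[ℂ] V) y := fun y =>
    Λ.hasFDerivAt.add_const x0
  have hs : ContDiff ℝ 2 fun y => Λ y + x0 :=
    ((Λ : V →L[ℂ] V).restrictScalars ℝ).contDiff.add contDiff_const
  have hMM : φ ⁻¹' (φ.symm ⁻¹' M) = M := by
    ext x
    simp only [mem_preimage, φ.symm_apply_apply]
  have key := H (μ.map Λ.symm) K (fun y => U (φ.symm y)) (fun y => f (φ.symm y)) (φ.symm ⁻¹' M)
    (hf.comp φ.symm.continuous.measurable) (φ.symm.continuous.measurable hM)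
    (fun y hy => by
      have := hM1 hy
      rwa [mem_ofPred_eq, ← hφ, φ.apply_symm_apply, ← mem_ball_zero_iff] at this)
    (hU.comp hs.contDiffOn (hin 10))
    (fun y hy => ⟨(hU0 _ (hin 10 y hy)).1, fun u hu => by
      have ho : IsOpen {x | ‖Λ.symm (x - x0)‖ < 10} := hb 10 ▸ isOpen_ball.preimage φ.continuous
      have := Lv_comp (g := fun y => Λ y + x0) (hU.contDiffAt (ho.mem_nhds (hin 10 y hy)))
        (Eventually.of_forall fun y => (hd y).differentiableAt) u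
      rw [(hd y).fderiv] at this
      exact (congrArg ENNReal.ofReal this).trans_le ((hU0 _ (hin 10 y hy)).2 u hu)⟩)
    fun y hy => hK _ hy
  rw [← hp.measure_preimage_emb hm, ← hp.measure_preimage_emb hm,
    ← hp.setLIntegral_comp_preimage_emb hm, ← hp.setLIntegral_comp_preimage_emb hm, hb, hb,
    hMM] at key
  simpa only [φ.symm_apply_apply] using key

end Pool.Agent.CL
end

-- part Pool.Agent.P.MP_63735c_ag.CLRemez
section

/-! A Remez inequality for homogeneous polynomials. -/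

open scoped ContDiff Matrix ENNReal
open Set Metric MeasureTheory Filter Topology

namespace Pool.Agent.CL

open Pool.Agent.SPF

theorem clremez_fd (e : ℝ) (w : ℂ) :
    HasFDerivAt (fun w : ℂ => ‖w‖ ^ 2 + e) ((2 : ℝ) • innerSL ℝ w) w := by
  have := (hasStrictFDerivAt_norm_sq w).hasFDerivAt.add_const e
  simpa only [two_smul, two_nsmul] using this

theorem clremez_D2 (e : ℝ) (w v : ℂ) : D2 (fun w : ℂ => ‖w‖ ^ 2 + e) w v = 2 * ‖v‖ ^ 2 := by
  have h : fderiv ℝ (fun w : ℂ => ‖w‖ ^ 2 + e) =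
      fun w => ((2 : ℝ) • innerSL ℝ (E := ℂ) : ℂ →L[ℝ] ℂ →L[ℝ] ℝ) w :=
    funext fun w => (clremez_fd e w).fderiv
  rw [D2, h, ContinuousLinearMap.fderiv]
  change (2 : ℝ) * inner ℝ v v = _
  rw [real_inner_self_eq_norm_sq]

theorem clremez_cd {e : ℝ} (he : 0 < e) : ContDiff ℝ 2 fun w : ℂ => Real.log (‖w‖ ^ 2 + e) :=
  ((contDiff_norm_sq ℝ).add contDiff_const).log fun w => by positivity

theorem clremez_Lv {e : ℝ} (he : 0 < e) (w v : ℂ) :
    0 ≤ Lv (fun w : ℂ => Real.log (‖w‖ ^ 2 + e)) w v := by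
  have ht : 0 < ‖w‖ ^ 2 + e := by positivity
  have h1 : ContDiffAt ℝ 2 (fun w : ℂ => ‖w‖ ^ 2 + e) w :=
    ((contDiff_norm_sq ℝ).add contDiff_const).contDiffAt
  have h2 : ContDiffAt ℝ 2 Real.log (‖w‖ ^ 2 + e) := Real.contDiffAt_log.2 ht.ne'
  have h3 : deriv (deriv Real.log) (‖w‖ ^ 2 + e) = -((‖w‖ ^ 2 + e) ^ 2)⁻¹ := by
    rw [Real.deriv_log', deriv_inv]
  rw [Lv, D2_comp h1 h2, D2_comp h1 h2, clremez_D2, clremez_D2, h3, Real.deriv_log,
    (clremez_fd e w).fderiv]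
  have h4 : ∀ z : ℂ, ‖z‖ ^ 2 = z.re ^ 2 + z.im ^ 2 := fun z => by
    rw [Complex.sq_norm, Complex.normSq_apply]; ring
  have h5 : ∀ z : ℂ, ((2 : ℝ) • innerSL ℝ w) z = 2 * (w.re * z.re + w.im * z.im) := fun z => by
    simp [Complex.inner]
    ring
  rw [h5, h5, h4 v, h4 (Complex.I • v)]
  simp only [smul_eq_mul, Complex.mul_re, Complex.mul_im, Complex.I_re, Complex.I_im]
  have h6 := h4 w
  generalize ‖w‖ ^ 2 = s at ht h6 ⊢
  have h7 : (s + e)⁻¹ * (2 * (v.re ^ 2 + v.im ^ 2)) +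
      -((s + e) ^ 2)⁻¹ * (2 * (w.re * v.re + w.im * v.im)) ^ 2 +
      ((s + e)⁻¹ * (2 * ((0 * v.re - 1 * v.im) ^ 2 + (0 * v.im + 1 * v.re) ^ 2)) +
      -((s + e) ^ 2)⁻¹ * (2 * (w.re * (0 * v.re - 1 * v.im) + w.im * (0 * v.im + 1 * v.re))) ^ 2) =
      4 * (v.re ^ 2 + v.im ^ 2) * e / (s + e) ^ 2 := by
    field_simp
    rw [h6]
    ring
  rw [h7]
  positivity

theorem clremez_pos (n : ℕ) : ∃ C ≥ (1 : ℝ), ∀ (k : ℕ) (p : E n → ℂ) (A : ℝ) (M : Set (E n)),
    0 < A → Differentiable ℂ p → (∀ (t : ℂ) u, p (t • u) = t ^ k * p u) → M ⊆ ball 0 1 →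
    volume (ball (0 : E n) 1) ≤ 2 * volume M → (∀ u ∈ M, ‖p u‖ ≤ A) →
    ∀ u ∈ ball (0 : E n) 1, ‖p u‖ ≤ A * C ^ (k + 1) := by
  obtain ⟨C, hC, H⟩ := mv_point (E n) volume
  have b1 : volume (ball (0 : E n) 1) ≠ 0 := (measure_ball_pos _ _ one_pos).ne'
  have b1' : volume (ball (0 : E n) 1) ≠ ⊤ := measure_ball_lt_top.ne
  have b2 : volume (ball (0 : E n) 2) ≠ ⊤ := measure_ball_lt_top.ne
  set β := (volume (ball (0 : E n) 1)).toReal with hβ
  have hβ0 : 0 < β := ENNReal.toReal_pos b1 b1'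
  set γ := (C * volume (ball (0 : E n) 2)).toReal with hγ
  have hγ0 : 0 ≤ γ := ENNReal.toReal_nonneg
  set c := 2 * γ * Real.log 81 / β with hc
  have l81 : 0 ≤ Real.log 81 := Real.log_nonneg (by norm_num)
  have hc0 : 0 ≤ c := by positivity
  have hec : 1 ≤ Real.exp c := Real.one_le_exp hc0
  refine ⟨2 * Real.exp c, by linarith, fun k p A M hA hp hh hM hv hb u hu => ?_⟩
  obtain ⟨u0, hu0, hmax⟩ := (isCompact_closedBall (0 : E n) 1).exists_isMaxOn
    ⟨0, mem_closedBall_self zero_le_one⟩ hp.continuous.norm.continuousOn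
  set S := ‖p u0‖ with hS
  have hS0 : 0 ≤ S := norm_nonneg _
  have hu0' : ‖u0‖ ≤ 1 := mem_closedBall_zero_iff.1 hu0
  have he : 0 < A ^ 2 := by positivity
  have h9 : ∀ x ∈ ball u0 (4 * 2), ‖p x‖ ^ 2 ≤ S ^ 2 * 81 ^ k := fun x hx => by
    have h1 : ‖x‖ ≤ 9 := by
      have := norm_le_norm_add_norm_sub' x u0
      have := mem_ball_iff_norm.1 hx
      linarith
    have h2 : x = (9 : ℂ) • ((9 : ℂ)⁻¹ • x) := by rw [smul_inv_smul₀ (by norm_num)]
    have h3 : ‖p ((9 : ℂ)⁻¹ • x)‖ ≤ S := hmax (mem_closedBall_zero_iff.2 (by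
      rw [norm_smul, norm_inv, Complex.norm_ofNat]
      linarith))
    rw [h2, hh, norm_mul, norm_pow, Complex.norm_ofNat, mul_pow, ← pow_mul, mul_comm k 2, pow_mul,
      mul_comm, show (9 : ℝ) ^ 2 = 81 by norm_num]
    gcongr
  have hT : 0 < S ^ 2 * 81 ^ k + A ^ 2 := by positivity
  let f : ℂ → ℝ := fun w => Real.log (‖w‖ ^ 2 + A ^ 2)
  have hpc : ContDiff ℝ 2 p := by
    have := (hol_smooth isOpen_univ hp.differentiableOn).2.1
    exact (contDiffOn_univ.1 this).of_le (by norm_cast)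
  have hfp : ContDiff ℝ 2 fun x => f (p x) := (clremez_cd he).comp hpc
  let U : E n → ℝ := fun x => Real.log (S ^ 2 * 81 ^ k + A ^ 2) * 1 + (-1) * f (p x)
  have hU : ∀ x, U x = Real.log (S ^ 2 * 81 ^ k + A ^ 2) - Real.log (‖p x‖ ^ 2 + A ^ 2) :=
    fun x => by simp only [U, f]; ring
  have key := H u0 2 0 U two_pos le_rfl
    (contDiff_const.add (contDiff_const.mul hfp)).contDiffOn fun x hx => by
    refine ⟨?_, fun v => ?_⟩
    · rw [hU, sub_nonneg]
      exact Real.log_le_log (by positivity) (by linarith [h9 x hx])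
    · have h1 := Lv_comp (f := f) (g := p) (x := x) (clremez_cd he).contDiffAt
        (Eventually.of_forall fun y => hp y) v
      have h2 := clremez_Lv he (p x) (fderiv ℂ p x v)
      have h3 : ∀ z, D2 (fun _ : E n => (1 : ℝ)) x z = 0 := fun z => by simp [D2]
      have h4 : Lv U x v = -Lv (fun y => f (p y)) x v := by
        simp only [Lv, U, D2_add contDiffAt_const hfp.contDiffAt, h3]
        ring
      rw [h4, h1, zero_mul]
      exact neg_nonpos.2 h2
  set L := Real.log (S ^ 2 * 81 ^ k + A ^ 2) - Real.log (A ^ 2 + A ^ 2) with hL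
  let M' : Set (E n) := ball 0 1 ∩ {x | ‖p x‖ ≤ A}
  have hM' : MeasurableSet M' :=
    measurableSet_ball.inter (isClosed_le hp.continuous.norm continuous_const).measurableSet
  have h1 : ENNReal.ofReal L * volume M' ≤ ∫⁻ x in ball u0 2, ENNReal.ofReal (U x) := by
    rw [← setLIntegral_const]
    refine (setLIntegral_mono' hM' fun x hx => ENNReal.ofReal_le_ofReal ?_).trans
      (lintegral_mono_set fun x hx => ?_)
    · rw [hU, hL]
      have h5 : ‖p x‖ ≤ A := hx.2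
      have : ‖p x‖ ^ 2 ≤ A ^ 2 := by gcongr
      have := Real.log_le_log (x := ‖p x‖ ^ 2 + A ^ 2) (y := A ^ 2 + A ^ 2) (by positivity)
        (by linarith)
      linarith
    · have := norm_sub_le x u0
      have := mem_ball_zero_iff.1 hx.1
      exact mem_ball_iff_norm.2 (by linarith)
  have h2 : U u0 + 0 * 2 ^ 2 ≤ k * Real.log 81 := by
    rw [hU, zero_mul, add_zero, ← Real.log_pow, sub_le_iff_le_add, ← Real.log_mul (by positivity)
      (by positivity), ← hS]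
    refine Real.log_le_log hT ?_
    have : (1 : ℝ) ≤ 81 ^ k := one_le_pow₀ (by norm_num)
    nlinarith
  have h3 : ENNReal.ofReal L * volume (ball (0 : E n) 1) ≤
      2 * (C * volume (ball (0 : E n) 2) * ENNReal.ofReal (k * Real.log 81)) := by
    calc _ ≤ ENNReal.ofReal L * (2 * volume M') := by
          refine mul_le_mul_right (hv.trans ?_) _
          exact mul_le_mul_right (measure_mono (t := M') fun x hx => ⟨hM hx, hb x hx⟩) _
      _ = 2 * (ENNReal.ofReal L * volume M') := by ring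
      _ ≤ _ := by
          refine mul_le_mul_right ((h1.trans key).trans ?_) _
          rw [Measure.addHaar_ball_center]
          exact mul_le_mul_right (ENNReal.ofReal_le_ofReal h2) _
  have h4 : L ≤ k * c := by
    rcases le_or_gt L 0 with h | h
    · exact h.trans (by positivity)
    have h5 := ENNReal.toReal_mono (by finiteness) h3
    rw [ENNReal.toReal_mul, ENNReal.toReal_mul, ENNReal.toReal_mul, ENNReal.toReal_ofReal h.le,
      ENNReal.toReal_ofReal (by positivity), ← hβ, ← hγ, ENNReal.toReal_ofNat] at h5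
    rw [hc, ← mul_div_assoc, le_div_iff₀ hβ0]
    linarith
  have h5 : S ^ 2 * 81 ^ k + A ^ 2 ≤ Real.exp c ^ k * (A ^ 2 + A ^ 2) := by
    rw [← Real.exp_nat_mul, ← Real.log_le_log_iff hT (by positivity),
      Real.log_mul (by positivity) (by positivity), Real.log_exp]
    linarith
  refine (hmax (ball_subset_closedBall hu)).trans ?_
  change S ≤ _
  refine (sq_le_sq₀ hS0 (by positivity)).1 ?_
  have h6 : (1 : ℝ) ≤ 81 ^ k := one_le_pow₀ (by norm_num)
  have h7 : 1 ≤ Real.exp c ^ k := one_le_pow₀ hec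
  have h8 : 2 * Real.exp c ^ k ≤ (2 * Real.exp c) ^ (k + 1) := by
    rw [mul_pow, pow_succ, pow_succ]
    have : (1 : ℝ) ≤ 2 ^ k := one_le_pow₀ (by norm_num)
    have h10 : Real.exp c ^ k ≤ Real.exp c ^ k * Real.exp c := le_mul_of_one_le_right (by positivity) hec
    nlinarith
  have h10 : S ^ 2 ≤ A ^ 2 * (2 * Real.exp c ^ k) := by nlinarith [sq_nonneg S]
  have h11 : (2 * Real.exp c) ^ (k + 1) ≤ ((2 * Real.exp c) ^ (k + 1)) ^ 2 := by nlinarith
  rw [mul_pow]
  exact h10.trans (mul_le_mul_of_nonneg_left (h8.trans h11) he.le)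

theorem remez (n : ℕ) : ∃ C ≥ (1 : ℝ), ∀ (k : ℕ) (p : E n → ℂ) (A : ℝ) (M : Set (E n)),
    Differentiable ℂ p → (∀ (t : ℂ) u, p (t • u) = t ^ k * p u) → M ⊆ ball 0 1 →
    volume (ball (0 : E n) 1) ≤ 2 * volume M → (∀ u ∈ M, ‖p u‖ ≤ A) →
    ∀ u ∈ ball (0 : E n) 1, ‖p u‖ ≤ A * C ^ (k + 1) := by
  obtain ⟨C, hC, H⟩ := clremez_pos n
  refine ⟨C, hC, fun k p A M hp hh hM hv hb u hu => ?_⟩
  have h0 : 0 ≤ A := by
    rcases M.eq_empty_or_nonempty with rfl | ⟨x, hx⟩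
    · rw [measure_empty, mul_zero] at hv
      exact absurd hv (measure_ball_pos _ _ one_pos).not_ge
    · exact (norm_nonneg _).trans (hb x hx)
  have hK : 0 < C ^ (k + 1) := by positivity
  refine le_of_forall_pos_le_add fun ε hε => ?_
  have := H k p (A + ε / C ^ (k + 1)) M (by positivity) hp hh hM hv
    (fun x hx => (hb x hx).trans (le_add_of_nonneg_right (by positivity))) u hu
  rwa [add_mul, div_mul_cancel₀ _ hK.ne'] at this

end Pool.Agent.CL
end

-- part Pool.Agent.P.MP_63735c_ag.CLExt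
section

/-! Extension to a ball of fixed size. -/

open scoped ContDiff Matrix ENNReal
open Set Metric MeasureTheory Filter Topology

namespace Pool.Agent.CL

open Pool.Agent.SPF

theorem clext_iter {n : ℕ} {b : E n → E n} {ε : ℝ} (hε : 0 < ε)
    (hb : DifferentiableOn ℂ b (ball 0 ε)) (u : E n) (k : ℕ) :
    iteratedDeriv k (fun t : ℂ => b (t • u)) 0 = iteratedFDeriv ℂ k b 0 (fun _ => u) := by
  have hs : ContDiffOn ℂ ∞ b (ball 0 ε) := (hol_smooth isOpen_ball hb).1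
  set L : ℂ →L[ℂ] E n := (ContinuousLinearMap.id ℂ ℂ).smulRight u with hL
  have hLt : ∀ t : ℂ, L t = t • u := fun t => by simp [hL]
  have ho : IsOpen (L ⁻¹' ball (0 : E n) ε) := isOpen_ball.preimage L.continuous
  have h0 : L 0 ∈ ball (0 : E n) ε := by simpa using hε
  have h1 := L.iteratedFDerivWithin_comp_right hs isOpen_ball.uniqueDiffOn ho.uniqueDiffOn h0
    (i := k) (by exact_mod_cast le_top)
  rw [iteratedFDerivWithin_of_isOpen k ho h0, iteratedFDerivWithin_of_isOpen k isOpen_ball h0] at h1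
  have h2 : (fun t : ℂ => b (t • u)) = b ∘ L := by
    funext t
    simp [hLt]
  rw [h2, iteratedDeriv_eq_iteratedFDeriv, h1]
  simp [hLt]

theorem ext_ball (n : ℕ) : ∃ r > (0 : ℝ), ∃ C : ℝ, r ≤ 1 ∧ ∀ (b : E n → E n) (M : Set (E n)),
    (∀ᶠ x in 𝓝 (0 : E n), DifferentiableAt ℂ b x) → M ⊆ ball 0 1 →
    volume (ball (0 : E n) 1) ≤ 2 * volume M →
    (∀ u ∈ M, ∀ k, ‖iteratedDeriv k (fun t : ℂ => b (t • u)) 0‖ ≤ k.factorial * 2 * 16 ^ k) →
    ∃ b' : E n → E n, DifferentiableOn ℂ b' (ball 0 r) ∧ b' =ᶠ[𝓝 0] b ∧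
      ∀ x ∈ ball (0 : E n) r, ‖b' x‖ ≤ C := by
  obtain ⟨C, hC, hrem⟩ := remez n
  have hC0 : 0 < C := by linarith
  set r : ℝ := 1 / (32 * C) with hr
  have hr0 : 0 < r := by positivity
  refine ⟨r, hr0, 4 * C, ?_, fun b M hb hM hvol hbd => ?_⟩
  · rw [hr, div_le_one (by positivity)]
    linarith
  obtain ⟨ε, hε, hbε⟩ := Metric.eventually_nhds_iff_ball.mp hb
  have hbd' : DifferentiableOn ℂ b (ball 0 ε) := fun x hx => (hbε x hx).differentiableWithinAt
  set Pk : ℕ → E n → E n := fun k u =>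
    (k.factorial : ℂ)⁻¹ • iteratedFDeriv ℂ k b 0 (fun _ => u) with hPk
  have hdiff : ∀ k, Differentiable ℂ (Pk k) := by
    intro k
    have h1 : Differentiable ℂ (iteratedFDeriv ℂ k b 0) :=
      ((iteratedFDeriv ℂ k b 0).contDiff (n := 1)).differentiable (by simp)
    have h2 : Differentiable ℂ (fun u : E n => (fun _ : Fin k => u)) :=
      differentiable_pi.mpr fun _ => differentiable_id
    exact (h1.comp h2).const_smul ((k.factorial : ℂ)⁻¹)
  have hhom : ∀ k (t : ℂ) u, Pk k (t • u) = t ^ k • Pk k u := by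
    intro k t u
    have := (iteratedFDeriv ℂ k b 0).map_smul_univ (fun _ => t) (fun _ => u)
    simp only [hPk]
    rw [this, smul_comm]
    simp
  have hM1 : ∀ k, ∀ u ∈ M, ‖Pk k u‖ ≤ 2 * 16 ^ k := by
    intro k u hu
    have h1 := hbd u hu k
    rw [clext_iter hε hbd'] at h1
    have hf : (0 : ℝ) < k.factorial := by exact_mod_cast k.factorial_pos
    simp only [hPk]
    rw [norm_smul, norm_inv, Complex.norm_natCast, inv_mul_le_iff₀ hf]
    linarith
  have hB1 : ∀ k, ∀ u ∈ ball (0 : E n) 1, ‖Pk k u‖ ≤ 2 * 16 ^ k * C ^ (k + 1) := by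
    intro k u hu
    refine (pi_norm_le_iff_of_nonneg (by positivity)).mpr fun j => ?_
    refine hrem k (fun u => Pk k u j) (2 * 16 ^ k) M (differentiable_pi.mp (hdiff k) j) ?_ hM hvol
      (fun u hu => (norm_le_pi_norm _ j).trans (hM1 k u hu)) u hu
    intro t u
    rw [hhom]
    simp
  have hBr : ∀ k, ∀ x ∈ ball (0 : E n) r, ‖Pk k x‖ ≤ 2 * C * (1 / 2) ^ k := by
    intro k x hx
    have hrc : (r : ℂ) ≠ 0 := by exact_mod_cast hr0.ne'
    have hx' : (r : ℂ)⁻¹ • x ∈ ball (0 : E n) 1 := by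
      rw [mem_ball_zero_iff] at hx ⊢
      rw [norm_smul, norm_inv, Complex.norm_real, Real.norm_of_nonneg hr0.le,
        inv_mul_lt_iff₀ hr0]
      linarith
    have h1 := hhom k (r : ℂ) ((r : ℂ)⁻¹ • x)
    rw [smul_inv_smul₀ hrc] at h1
    rw [h1, norm_smul, norm_pow, Complex.norm_real, Real.norm_of_nonneg hr0.le]
    have h2 : r * 16 * C = 1 / 2 := by
      rw [hr]
      field_simp
      norm_num
    calc r ^ k * ‖Pk k ((r : ℂ)⁻¹ • x)‖ ≤ r ^ k * (2 * 16 ^ k * C ^ (k + 1)) :=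
          mul_le_mul_of_nonneg_left (hB1 k _ hx') (by positivity)
      _ = 2 * C * (r * 16 * C) ^ k := by
          rw [mul_pow, mul_pow]
          ring
      _ = _ := by rw [h2]
  have hsum : ∀ N : ℕ, ∀ x ∈ ball (0 : E n) r, ‖∑ k ∈ Finset.range N, Pk k x‖ ≤ 4 * C := by
    intro N x hx
    calc ‖∑ k ∈ Finset.range N, Pk k x‖ ≤ ∑ k ∈ Finset.range N, 2 * C * (1 / 2 : ℝ) ^ k :=
          norm_sum_le_of_le _ fun k _ => hBr k x hx
      _ = 2 * C * ∑ k ∈ Finset.range N, (1 / 2 : ℝ) ^ k := by rw [Finset.mul_sum]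
      _ ≤ 2 * C * 2 := mul_le_mul_of_nonneg_left (sum_geometric_two_le N) (by positivity)
      _ = 4 * C := by ring
  obtain ⟨g, hg, hlim⟩ := hol_ulim (Ultrafilter.of (atTop : Filter ℕ)) (O := ball (0 : E n) r)
    isOpen_ball (f := fun N x => ∑ k ∈ Finset.range N, Pk k x) (M := 4 * C)
    (Eventually.of_forall fun N =>
      ⟨(Differentiable.fun_sum fun k _ => hdiff k).differentiableOn, hsum N⟩)
  refine ⟨g, hg, ?_, fun x hx => ?_⟩
  · have hρ : 0 < min r (ε / 2) := lt_min hr0 (by positivity)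
    filter_upwards [ball_mem_nhds (0 : E n) hρ] with x hx
    have hxr : x ∈ ball (0 : E n) r := ball_subset_ball (min_le_left _ _) hx
    have hxe : ‖x‖ < ε / 2 := (mem_ball_zero_iff.mp hx).trans_le (min_le_right _ _)
    have hφ : DifferentiableOn ℂ (fun t : ℂ => b (t • x)) (ball 0 2) := by
      intro t ht
      have ht' : t • x ∈ ball (0 : E n) ε := by
        rw [mem_ball_zero_iff] at ht ⊢
        rw [norm_smul]
        nlinarith [norm_nonneg t, norm_nonneg x]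
      exact ((hbε _ ht').comp t (differentiableAt_id.smul_const x)).differentiableWithinAt
    have h1 := Complex.hasSum_taylorSeries_on_ball hφ (z := 1) (by simp)
    simp only [sub_zero, one_pow, one_smul, clext_iter hε hbd'] at h1
    exact tendsto_nhds_unique (hlim x hxr).1
      (h1.tendsto_sum_nat.mono_left (Ultrafilter.of_le _))
  · exact le_of_tendsto (hlim x hx).1.norm (Eventually.of_forall fun N => hsum N x hx)

end Pool.Agent.CL
end

-- part Pool.Agent.P.MP_63735c_ag.CLTrunc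
section

/-! A proper plurisubharmonic barrier gives full measure. -/

open scoped ContDiff Matrix ENNReal
open Set Metric MeasureTheory Filter Topology

namespace Pool.Agent.CL

open Pool.Agent.SPF

open Classical in
lemma cltrunc_step {n : ℕ} {Ω : Set (E n)} {x0 : E n} {R B K : ℝ} {v : E n → ℝ} (hK : 0 ≤ K)
    (hΩ : IsOpen Ω) (hv : ContDiffOn ℝ 2 v Ω) (psh : ∀ x ∈ Ω, ∀ u, 0 ≤ Lv v x u)
    (hb : ∀ x ∈ Ω, v x ≤ B)
    (proper : ∀ s < R, ∀ M, IsCompact {x ∈ Ω | ‖x - x0‖ ≤ s ∧ -M ≤ v x}) :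
    ∃ U : E n → ℝ, ContDiffOn ℝ 2 U (ball x0 R) ∧
      (∀ x ∈ ball x0 R, 0 ≤ U x ∧ ∀ u, Lv U x u ≤ 0 * ‖u‖ ^ 2) ∧
      (∀ x ∈ Ω, -K ≤ v x → U x = |B| - v x) ∧ ∀ x ∉ Ω, U x = |B| + K + 1 := by
  obtain ⟨χ, h2, h1, h11, hid, hlo, hbd⟩ := exists_trunc K
  let U : E n → ℝ := fun x => if x ∈ Ω then |B| - χ (v x) else |B| + K + 1
  have hin : ∀ x ∈ Ω, U =ᶠ[𝓝 x] fun y => |B| * (fun _ => (1 : ℝ)) y + (-1) * χ (v y) := by
    intro x hx
    filter_upwards [hΩ.mem_nhds hx] with y hy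
    simp only [U, if_pos hy]
    ring
  have hout : ∀ x ∈ ball x0 R, x ∉ Ω → U =ᶠ[𝓝 x] fun _ => |B| + K + 1 := by
    intro x hx hxΩ
    rw [mem_ball, dist_eq_norm] at hx
    obtain ⟨s, hs1, hs2⟩ := exists_between hx
    have hc := (proper s hs2 (K + 2)).isClosed.isOpen_compl
    have hm : x ∈ {x ∈ Ω | ‖x - x0‖ ≤ s ∧ -(K + 2) ≤ v x}ᶜ := fun h => hxΩ h.1
    have hs : x ∈ ball x0 s := by rwa [mem_ball, dist_eq_norm]
    filter_upwards [hc.mem_nhds hm, isOpen_ball.mem_nhds hs] with y hy hy2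
    rw [mem_ball, dist_eq_norm] at hy2
    by_cases hyΩ : y ∈ Ω
    · have : v y ≤ -K - 2 := by
        by_contra hcon
        exact hy ⟨hyΩ, hy2.le, by linarith [not_le.1 hcon]⟩
      simp only [U, if_pos hyΩ, hlo _ this]
      ring
    · simp only [U, if_neg hyΩ]
  have hva : ∀ x ∈ Ω, ContDiffAt ℝ 2 v x := fun x hx => hv.contDiffAt (hΩ.mem_nhds hx)
  have hca : ∀ x ∈ Ω, ContDiffAt ℝ 2 (fun y => χ (v y)) x := fun x hx =>
    h2.contDiffAt.comp x (hva x hx)
  have hcst : ∀ (a : ℝ) (x e : E n), D2 (fun _ : E n => a) x e = 0 := by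
    intro a x e
    simp [D2]
  refine ⟨U, ?_, ?_, ?_, ?_⟩
  · intro x hx
    refine ContDiffAt.contDiffWithinAt ?_
    by_cases hxΩ : x ∈ Ω
    · exact ContDiffAt.congr_of_eventuallyEq
        ((contDiffAt_const.mul contDiffAt_const).add (contDiffAt_const.mul (hca x hxΩ))) (hin x hxΩ)
    · exact contDiffAt_const.congr_of_eventuallyEq (hout x hx hxΩ)
  · intro x hx
    by_cases hxΩ : x ∈ Ω
    · refine ⟨?_, fun u => ?_⟩
      · have h3 := (hbd (v x)).2
        have h4 : max (v x) (-K) ≤ |B| :=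
          max_le ((hb x hxΩ).trans (le_abs_self B)) (by linarith [abs_nonneg B])
        simp only [U, if_pos hxΩ]
        linarith
      · have h3 := psh x hxΩ u
        unfold Lv at h3 ⊢
        rw [D2_congr (hin x hxΩ), D2_congr (hin x hxΩ),
          D2_add contDiffAt_const (hca x hxΩ), D2_add contDiffAt_const (hca x hxΩ),
          D2_comp (hva x hxΩ) h2.contDiffAt, D2_comp (hva x hxΩ) h2.contDiffAt, hcst, hcst]
        have a1 := mul_nonneg (h1 (v x)) h3
        have a2 := mul_nonneg (h11 (v x)) (sq_nonneg (fderiv ℝ v x u))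
        have a3 := mul_nonneg (h11 (v x)) (sq_nonneg (fderiv ℝ v x (Complex.I • u)))
        nlinarith
    · refine ⟨?_, fun u => ?_⟩
      · simp only [U, if_neg hxΩ]
        linarith [abs_nonneg B]
      · unfold Lv
        rw [D2_congr (hout x hx hxΩ), D2_congr (hout x hx hxΩ), hcst, hcst]
        simp
  · intro x hx h
    simp only [U, if_pos hx, hid _ h]
  · intro x hx
    simp only [U, if_neg hx]

open Classical in
theorem trunc {n : ℕ} {Ω : Set (E n)} {x0 : E n} {ρ c B : ℝ} {v ht : E n → ℝ} (hρ : 0 < ρ)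
    (hc : 0 < c) (hΩ : IsOpen Ω) (sub : Ω ⊆ ball x0 (4 * ρ)) (h0 : x0 ∈ Ω)
    (hv : ContDiffOn ℝ 2 v Ω) (psh : ∀ x ∈ Ω, ∀ u, 0 ≤ Lv v x u)
    (hb : ∀ x ∈ Ω, 0 ≤ ht x ∧ v x ≤ B - c * ht x)
    (proper : ∀ s < 4 * ρ, ∀ M, IsCompact {x ∈ Ω | ‖x - x0‖ ≤ s ∧ -M ≤ v x}) :
    ∫⁻ x in ball x0 ρ, (if x ∈ Ω then ENNReal.ofReal (ht x) else ⊤) < ⊤ := by
  obtain ⟨C, hC, hmv⟩ := mv_point (E n) volume
  have hB : ∀ x ∈ Ω, v x ≤ B := fun x hx => by
    have := hb x hx
    nlinarith [mul_nonneg hc.le this.1]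
  have hex := fun k : ℕ => cltrunc_step (K := |v x0| + k) (by positivity) hΩ hv psh hB proper
  choose U hU2 hUs hUin hUout using hex
  have hbd : ∀ k, ∫⁻ x in ball x0 ρ, ENNReal.ofReal (U k x) ≤
      C * volume (ball x0 ρ) * ENNReal.ofReal (|B| - v x0) := by
    intro k
    have h1 := hmv x0 ρ 0 (U k) hρ le_rfl (hU2 k) (hUs k)
    rw [hUin k x0 h0 (by linarith [neg_abs_le (v x0), (Nat.cast_nonneg k : (0 : ℝ) ≤ k)])] at h1
    simpa using h1
  have hme : ∀ k, AEMeasurable (fun x => ENNReal.ofReal (U k x)) (volume.restrict (ball x0 ρ)) := by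
    intro k
    refine AEMeasurable.ennreal_ofReal ?_
    exact ((hU2 k).continuousOn.mono (ball_subset_ball (by linarith))).aemeasurable
      measurableSet_ball
  have hF := lintegral_liminf_le' (u := atTop) hme
  have hL : liminf (fun k => ∫⁻ x in ball x0 ρ, ENNReal.ofReal (U k x)) atTop ≤
      C * volume (ball x0 ρ) * ENNReal.ofReal (|B| - v x0) :=
    liminf_le_of_frequently_le' (Frequently.of_forall hbd)
  have hpt : ∀ x, (if x ∈ Ω then ENNReal.ofReal (ht x) else ⊤) ≤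
      ENNReal.ofReal c⁻¹ * liminf (fun k => ENNReal.ofReal (U k x)) atTop := by
    intro x
    have hK : Tendsto (fun k : ℕ => |v x0| + k) atTop atTop :=
      tendsto_atTop_add_const_left _ _ tendsto_natCast_atTop_atTop
    split_ifs with hx
    · have he : (fun k => ENNReal.ofReal (U k x)) =ᶠ[atTop] fun _ => ENNReal.ofReal (|B| - v x) := by
        filter_upwards [hK.eventually_ge_atTop (-v x)] with k hk
        rw [hUin k x hx (by linarith)]
      rw [liminf_congr he, liminf_const, ← ENNReal.ofReal_mul (by positivity)]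
      refine ENNReal.ofReal_le_ofReal ?_
      rw [← div_eq_inv_mul, le_div_iff₀ hc]
      linarith [(hb x hx).2, le_abs_self B]
    · have ht' : Tendsto (fun k => ENNReal.ofReal (U k x)) atTop (𝓝 ⊤) := by
        refine ENNReal.tendsto_ofReal_atTop.comp (tendsto_atTop_mono (fun k => ?_) hK)
        rw [hUout k x hx]
        linarith [abs_nonneg B]
      rw [ht'.liminf_eq, ENNReal.mul_top]
      simpa using hc
  refine (lintegral_mono hpt).trans_lt ?_
  rw [lintegral_const_mul' _ _ ENNReal.ofReal_ne_top]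
  refine ENNReal.mul_lt_top ENNReal.ofReal_lt_top ((hF.trans hL).trans_lt ?_)
  exact ENNReal.mul_lt_top (ENNReal.mul_lt_top hC.lt_top measure_ball_lt_top) ENNReal.ofReal_lt_top

end Pool.Agent.CL
end
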