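import Pool.Agent.K.MP_63735c_ag.C103
import Pool.Agent.K.MP_63735c_ag.C76
import Pool.Agent.K.MP_63735c_ag.C72

/-! The horizontal trace grows at most quadratically in the mean. -/

open scoped ContDiff Matrix ENNReal Manifold
open Set Metric MeasureTheory Filter Topology

namespace Pool.Agent.CL

open Pool.Agent.SPF

variable {n : ℕ} {K : Set (E n)}

section
variable {G : Type} [NormedAddCommGroup G] [NormedSpace ℝ G]

/-- Smooth functions that vanish over the complement of `K`. -/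
def HbGood (K : Set (E n)) (F : P n → G) : Prop :=
  ContDiff ℝ ∞ F ∧ ∀ p : P n, p.1 ∉ K → F p = 0

theorem HbGood.fderiv (hK : IsCompact K) {F : P n → G} (hF : HbGood K F) :
    HbGood K (fderiv ℝ F) := by
  refine ⟨hF.1.fderiv_right (by simp), fun p hp => ?_⟩
  have : F =ᶠ[𝓝 p] fun _ => 0 := by
    filter_upwards [(hK.isClosed.isOpen_compl.preimage continuous_fst).mem_nhds hp] with q hq
    exact hF.2 q hq
  rw [this.fderiv_eq]
  simp

theorem HbGood.vert (hK : IsCompact K) {F : P n → G} (hF : HbGood K F) :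
    HbGood K fun p => (_root_.fderiv ℝ F p).comp (ContinuousLinearMap.inr ℝ (E n) (E n)) :=
  ⟨(hF.fderiv hK).1.clm_comp contDiff_const, fun p hp => by
    simp only [(hF.fderiv hK).2 p hp, ContinuousLinearMap.zero_comp]⟩

theorem HbGood.int (hK : IsCompact K) {F : P n → G} (hF : HbGood K F) (ζ : E n) :
    Integrable fun y => F (y, ζ) :=
  (hF.1.continuous.comp (by fun_prop : Continuous fun y : E n => (y, ζ))).integrable_of_hasCompactSupport
    (HasCompactSupport.intro hK fun y hy => hF.2 _ hy)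

theorem HbGood.has (hK : IsCompact K) {F : P n → G} (hF : HbGood K F) (ζ : E n) :
    HasFDerivAt (fun ζ => ∫ y, F (y, ζ))
      (∫ y, (_root_.fderiv ℝ F (y, ζ)).comp (ContinuousLinearMap.inr ℝ (E n) (E n))) ζ := by
  have hD := hF.vert hK
  obtain ⟨C, hC⟩ := (hK.prod (isCompact_closedBall ζ 1)).exists_bound_of_continuousOn
    hD.1.continuous.continuousOn
  refine hasFDerivAt_integral_of_dominated_of_fderiv_le (s := closedBall ζ 1)
    (F' := fun ζ y => (_root_.fderiv ℝ F (y, ζ)).comp (ContinuousLinearMap.inr ℝ (E n) (E n)))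
    (bound := K.indicator fun _ => C) (closedBall_mem_nhds ζ one_pos)
    (Eventually.of_forall fun x => (hF.int hK x).aestronglyMeasurable) (hF.int hK ζ)
    (hD.int hK ζ).aestronglyMeasurable (Eventually.of_forall fun y x hx => ?_)
    ((integrable_indicator_iff hK.measurableSet).2 (integrableOn_const hK.measure_lt_top.ne))
    (Eventually.of_forall fun y x _ => ?_)
  · by_cases hy : y ∈ K
    · rw [indicator_of_mem hy]
      exact hC (y, x) ⟨hy, hx⟩
    · rw [indicator_of_notMem hy]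
      exact (norm_eq_zero.2 (hD.2 (y, x) hy)).le
  · exact HasFDerivAt.comp (g := F) (f := fun z : E n => (y, z)) x
      (hF.1.differentiable (by simp) _).hasFDerivAt (hasFDerivAt_prodMk_right y x)

end

theorem hb_nat (hK : IsCompact K) (k : ℕ) :
    ∀ {G : Type} [NormedAddCommGroup G] [NormedSpace ℝ G] {F : P n → G}, HbGood K F →
      ContDiff ℝ k fun ζ => ∫ y, F (y, ζ) := by
  induction k with
  | zero =>
    intro G _ _ F hF
    exact contDiff_zero.2 (continuous_iff_continuousAt.2 fun ζ => (hF.has hK ζ).continuousAt)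
  | succ k ih =>
    intro G _ _ F hF
    rw [Nat.cast_succ, contDiff_succ_iff_fderiv]
    refine ⟨fun ζ => (hF.has hK ζ).differentiableAt, by simp, ?_⟩
    rw [funext fun ζ => (hF.has hK ζ).fderiv]
    exact ih (hF.vert hK)

variable {F : P n → ℝ}

theorem HbGood.smooth (hK : IsCompact K) (hF : HbGood K F) :
    ContDiff ℝ ∞ fun ζ => ∫ y, F (y, ζ) := contDiff_infty.2 fun k => hb_nat hK k hF

theorem HbGood.dd (hK : IsCompact K) (hF : HbGood K F) (u : P n) : HbGood K (dd F u) :=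
  ⟨(hF.fderiv hK).1.clm_apply contDiff_const, fun p hp => by
    simp only [CL.dd, (hF.fderiv hK).2 p hp, _root_.zero_apply]⟩

theorem HbGood.dd_int (hK : IsCompact K) (hF : HbGood K F) (v : E n) :
    CL.dd (fun ζ => ∫ y, F (y, ζ)) v = fun ζ => ∫ y, CL.dd F (0, v) (y, ζ) := by
  funext ζ
  rw [CL.dd, (hF.has hK ζ).fderiv, ContinuousLinearMap.integral_apply ((hF.vert hK).int hK ζ)]
  rfl

theorem HbGood.Lv_int (hK : IsCompact K) (hF : HbGood K F) (ζ v : E n) :
    Lv (fun ζ => ∫ y, F (y, ζ)) ζ v = ∫ y, Lv F (y, ζ) (0, v) := by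
  rw [Lv_dd isOpen_univ (hF.smooth hK).contDiffOn v (mem_univ _), hF.dd_int hK, hF.dd_int hK,
    (hF.dd hK _).dd_int hK, (hF.dd hK _).dd_int hK]
  simp only []
  rw [← integral_add (((hF.dd hK _).dd hK _).int hK ζ) (((hF.dd hK _).dd hK _).int hK ζ)]
  refine integral_congr_ae (Eventually.of_forall fun y => ?_)
  simp only []
  rw [Lv_dd isOpen_univ hF.1.contDiffOn _ (mem_univ _), Prod.smul_mk, smul_zero]

theorem HbGood.Lv_zero (hK : IsCompact K) (hF : HbGood K F) {p : P n} (hp : p.1 ∉ K) (u : P n) :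
    Lv F p u = 0 := by
  rw [Lv_dd isOpen_univ hF.1.contDiffOn _ (mem_univ _), ((hF.dd hK _).dd hK _).2 p hp,
    ((hF.dd hK _).dd hK _).2 p hp, add_zero]

theorem hb_dd_mul {W : Set (P n)} (hW : IsOpen W) {χ : E n → ℝ} (hχ : ContDiff ℝ ∞ χ)
    {g : P n → ℝ} (hg : ContDiffOn ℝ ∞ g W) (v : E n) :
    EqOn (dd (fun p => χ p.1 * g p) (0, v)) (fun p => χ p.1 * dd g (0, v) p) W := by
  intro p hp
  have h1 : HasFDerivAt (fun p : P n => χ p.1)
      ((fderiv ℝ χ p.1).comp (ContinuousLinearMap.fst ℝ (E n) (E n))) p :=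
    HasFDerivAt.comp (g := χ) (f := Prod.fst) p (hχ.differentiable (by simp) _).hasFDerivAt
      hasFDerivAt_fst
  have h2 := (h1.fun_mul (clav1_at hW hg hp).2.2.2.hasFDerivAt).fderiv
  simp only [dd, h2]
  simp

theorem hb_Lv_mul {W : Set (P n)} (hW : IsOpen W) {χ : E n → ℝ} (hχ : ContDiff ℝ ∞ χ)
    {g : P n → ℝ} (hg : ContDiffOn ℝ ∞ g W) (v : E n) {p : P n} (hp : p ∈ W) :
    Lv (fun p => χ p.1 * g p) p (0, v) = χ p.1 * Lv g p (0, v) := by
  have hs : ContDiffOn ℝ ∞ (fun p : P n => χ p.1 * g p) W :=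
    (hχ.comp contDiff_fst).contDiffOn.mul hg
  rw [Lv_dd hW hs _ hp, Lv_dd hW hg _ hp, Prod.smul_mk, smul_zero,
    dd_congr hW (hb_dd_mul hW hχ hg _) _ hp, dd_congr hW (hb_dd_mul hW hχ hg _) _ hp,
    hb_dd_mul hW hχ (dd_smooth hW hg _) _ hp, hb_dd_mul hW hχ (dd_smooth hW hg _) _ hp]
  ring

theorem hb_good {T : Set (E n)} (hT : IsOpen T) (hK : IsCompact K) (hKT : K ⊆ T) {χ : E n → ℝ}
    (hχ : ContDiff ℝ ∞ χ) (h0 : ∀ y ∉ K, χ y = 0) {g : P n → ℝ}
    (hg : ContDiffOn ℝ ∞ g (T ×ˢ univ)) : HbGood K fun p => χ p.1 * g p := by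
  have hz : ∀ p : P n, p.1 ∉ K → χ p.1 * g p = 0 := fun p hp => by rw [h0 _ hp, zero_mul]
  refine ⟨contDiff_iff_contDiffAt.2 fun p => ?_, hz⟩
  by_cases hp : p.1 ∈ K
  · exact (hχ.comp contDiff_fst).contDiffAt.mul
      (clav1_at (hT.prod isOpen_univ) hg ⟨hKT hp, trivial⟩).1
  · refine (contDiffAt_const (c := (0 : ℝ))).congr_of_eventuallyEq ?_
    filter_upwards [(hK.isClosed.isOpen_compl.preimage continuous_fst).mem_nhds hp] with q hq
    exact hz q hq

theorem hb_green {T : Set (E n)} (hT : IsOpen T) (hK : IsCompact K) (hKT : K ⊆ T) {χ : E n → ℝ}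
    (hχ : ContDiff ℝ ∞ χ) (h0 : ∀ y ∉ K, χ y = 0) (e : E n) : ∃ c ≥ (0 : ℝ), ∀ (G : E n → ℝ) (M : ℝ),
      ContDiffOn ℝ 2 G T → (∀ y ∈ T, |G y| ≤ M) →
        IntegrableOn (fun y => χ y * D2 G y e) T ∧ ∫ y in T, χ y * D2 G y e ≤ c * M := by
  have hχ2 : ContDiffOn ℝ 2 χ T := (hχ.of_le ENat.LEInfty.out).contDiffOn
  have hz : ∀ y ∈ T \ K, χ =ᶠ[𝓝 y] 0 := fun y hy => by
    filter_upwards [hK.isClosed.isOpen_compl.mem_nhds hy.2] with x hx
    exact h0 x hx
  have hi : IntegrableOn (fun y => |D2 χ y e|) T :=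
    clgreen_int volume hT hK hKT (clgreen_cont hT hχ2 e).2.abs fun y hy => by
      rw [(clgreen_zero (hz y hy) e).2.2, abs_zero]
  refine ⟨∫ y in T, |D2 χ y e|, integral_nonneg fun y => abs_nonneg _, fun G M hG hM => ?_⟩
  obtain ⟨i1, i2, e1⟩ := green_dir volume hT hG hχ2 hK hKT (fun y hy => Or.inr (hz y hy)) e
  refine ⟨i1, ?_⟩
  rw [e1, ← integral_mul_const]
  refine setIntegral_mono_on i2 (hi.mul_const M) hT.measurableSet fun y hy => ?_
  refine (le_abs_self _).trans ?_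
  rw [abs_mul, mul_comm]
  exact mul_le_mul_of_nonneg_left (hM y hy) (abs_nonneg _)

theorem hb_levi {T : Set (E n)} {t : Form2 (P n)} (hT : IsOpen T)
    (hc : Closed2 (T ×ˢ univ) t) (hj : JInv (T ×ˢ univ) t) {C : ℝ}
    (hv : ∀ p : P n, p.1 ∈ T → ∀ v w : E n, |t p (0, v) (0, w)| ≤ C * ‖v‖ * ‖w‖)
    (hK : IsCompact K) (hKT : K ⊆ T) {χ : E n → ℝ} (hχ : ContDiff ℝ ∞ χ) (h0 : ∀ y ∉ K, χ y = 0)
    (e : E n) : ∃ c ≥ (0 : ℝ), ∀ ζ v : E n,
      Lv (fun ζ => ∫ y, χ y * fm t (e, 0) (Complex.I • (e, 0)) (y, ζ)) ζ v ≤ c * ‖v‖ ^ 2 := by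
  have hW : IsOpen (T ×ˢ (univ : Set (E n))) := hT.prod isOpen_univ
  obtain ⟨c1, p1, H1⟩ := hb_green hT hK hKT hχ h0 e
  obtain ⟨c2, p2, H2⟩ := hb_green hT hK hKT hχ h0 (Complex.I • e)
  refine ⟨(c1 + c2) * |C|, by positivity, fun ζ v => ?_⟩
  have hF := hb_good hT hK hKT hχ h0 (fm_smooth hc.1 (e, 0) (Complex.I • (e, 0)))
  set G : E n → ℝ := fun y => fm t (0, v) (Complex.I • (0, v)) (y, ζ) with hG
  have hG2 : ContDiffOn ℝ 2 G T := fun y hy =>
    (ContDiffAt.comp (g := fm t (0, v) (Complex.I • (0, v))) (f := fun y : E n => (y, ζ)) y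
      (clav1_at hW (fm_smooth hc.1 _ _) ⟨hy, trivial⟩).2.1 (by fun_prop)).contDiffWithinAt
  have hM : ∀ y ∈ T, |G y| ≤ |C| * ‖v‖ ^ 2 := fun y hy => by
    have := hv (y, ζ) hy v (Complex.I • v)
    rw [norm_smul, Complex.norm_I, one_mul, mul_assoc, ← sq] at this
    simp only [hG, fm, Prod.smul_mk, smul_zero]
    exact this.trans (mul_le_mul_of_nonneg_right (le_abs_self C) (sq_nonneg _))
  obtain ⟨i1, b1⟩ := H1 G _ hG2 hM
  obtain ⟨i2, b2⟩ := H2 G _ hG2 hM
  have key := hF.Lv_int hK ζ v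
  simp only [] at key
  rw [key, ← setIntegral_eq_integral_of_forall_compl_eq_zero (s := T) fun y hy =>
    hF.Lv_zero hK (p := (y, ζ)) (fun h => hy (hKT h)) _,
    setIntegral_congr_fun hT.measurableSet
      (g := fun y => χ y * D2 G y e + χ y * D2 G y (Complex.I • e)) fun y hy => ?_,
    integral_add i1 i2]
  · linarith
  · have hp : (y, ζ) ∈ T ×ˢ (univ : Set (E n)) := ⟨hy, trivial⟩
    have hd : ∀ x : E n, HasFDerivAt (fun y : E n => (y, ζ))
        (ContinuousLinearMap.inl ℂ (E n) (E n)) x := fun x => hasFDerivAt_prodMk_left x ζ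
    have h1 := Lv_comp (f := fm t (0, v) (Complex.I • (0, v))) (g := fun y : E n => (y, ζ)) (x := y)
      (clav1_at hW (fm_smooth hc.1 _ _) hp).2.1
      (Eventually.of_forall fun x => (hd x).differentiableAt) e
    rw [(hd y).fderiv] at h1
    simp only []
    rw [hb_Lv_mul hW hχ (fm_smooth hc.1 _ _) v hp, ki hW hc hj hp, ← mul_add]
    exact congrArg _ h1.symm

theorem hb_lint (I : Finset (Fin n)) (hK : IsCompact K) (hF : HbGood K F) (h0 : ∀ p, 0 ≤ F p)
    {c : ℝ} (hc : 0 ≤ c) (hL : ∀ ζ v : E n, Lv (fun ζ => ∫ y, F (y, ζ)) ζ v ≤ c * ‖v‖ ^ 2) :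
    ∃ B ≥ (0 : ℝ), ∀ R ≥ (1 : ℝ),
      ∫⁻ p in univ ×ˢ ball (0 : E n) R, ENNReal.ofReal (F (p.1, piI I p.2)) ≤
        ENNReal.ofReal (B * R ^ (2 * n + 2)) := by
  obtain ⟨C, hC, H⟩ := mv_point (E n) volume
  set a : E n → ℝ := fun ζ => ∫ y, F (y, ζ) with ha
  have ha0 : ∀ ζ, 0 ≤ a ζ := fun ζ => integral_nonneg fun y => h0 _
  have ha2 : ContDiff ℝ 2 a := (hF.smooth hK).of_le ENat.LEInfty.out
  have hb : volume (ball (0 : E n) 1) ≠ ⊤ := measure_ball_lt_top.ne
  have := ha0 (piI I 0)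
  refine ⟨C.toReal * (volume (ball (0 : E n) 1)).toReal * (a (piI I 0) + c), by positivity,
    fun R hR => ?_⟩
  have hR0 : 0 < R := by linarith
  have key := H 0 R c (fun ζ => a (piI I ζ)) hR0 hc
    (ha2.comp ((piI I).restrictScalars ℝ).contDiff).contDiffOn fun x _ => ⟨ha0 _, fun u => by
      rw [Lv_comp (g := fun ζ => piI I ζ) ha2.contDiffAt
        (Eventually.of_forall fun y => (piI I).differentiableAt), (piI I).fderiv]
      exact (hL _ _).trans (mul_le_mul_of_nonneg_left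
        (pow_le_pow_left₀ (norm_nonneg _) (proj_norm I u).1 2) hc)⟩
  have hm : Measurable fun p : P n => ENNReal.ofReal (F (p.1, piI I p.2)) :=
    (ENNReal.continuous_ofReal.comp (hF.1.continuous.comp (by fun_prop))).measurable
  rw [Measure.volume_eq_prod, setLIntegral_prod_symm _ hm.aemeasurable]
  simp only [Measure.restrict_univ]
  rw [lintegral_congr fun ζ => (ofReal_integral_eq_lintegral_ofReal (hF.int hK (piI I ζ))
    (Eventually.of_forall fun y => h0 _)).symm]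
  refine key.trans ?_
  have hn : Module.finrank ℝ (E n) = 2 * n := by
    rw [Module.finrank_pi_fintype]
    simp [mul_comm]
  rw [Measure.addHaar_ball_of_pos _ _ hR0, hn, ← ENNReal.ofReal_toReal hC,
    ← ENNReal.ofReal_toReal hb, ← ENNReal.ofReal_mul (by positivity),
    ← ENNReal.ofReal_mul (by positivity), ← ENNReal.ofReal_mul (by positivity),
    ENNReal.toReal_ofReal (by positivity), ENNReal.toReal_ofReal (by positivity)]
  refine ENNReal.ofReal_le_ofReal ?_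
  have h1 : a (piI I 0) + c * R ^ 2 ≤ (a (piI I 0) + c) * R ^ 2 := by
    nlinarith [mul_le_mul_of_nonneg_left (one_le_pow₀ (n := 2) hR) this]
  calc _ ≤ C.toReal * (R ^ (2 * n) * (volume (ball (0 : E n) 1)).toReal) *
        ((a (piI I 0) + c) * R ^ 2) := mul_le_mul_of_nonneg_left h1 (by positivity)
    _ = _ := by ring

theorem av_HB {T : Set (E n)} (I : Finset (Fin n)) {t : Form2 (P n)} (hT : IsOpen T)
    (hc : Closed2 (T ×ˢ univ) t) (hj : JInv (T ×ˢ univ) t)
    (hpos : ∀ p : P n, p.1 ∈ T → ∀ u, u ≠ 0 → 0 < t p u (Complex.I • u)) {C : ℝ}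
    (hv : ∀ p : P n, p.1 ∈ T → ∀ v w : E n, |t p (0, v) (0, w)| ≤ C * ‖v‖ * ‖w‖) :
    ∀ K, IsCompact K → K ⊆ T → ∃ B : ℝ, ∀ R ≥ (1 : ℝ),
      ∫⁻ p in K ×ˢ ball (0 : E n) R, ENNReal.ofReal (trh t (p.1, piI I p.2)) ≤
        ENNReal.ofReal (B * R ^ (2 * n + 2)) := by
  intro K hK hKT
  obtain ⟨L, hL, hKL, hLT⟩ := exists_compact_between hK hT hKT
  obtain ⟨f, f0, f1, f2⟩ := exists_contMDiffMap_zero_one_of_isClosed (n := ⊤) 𝓘(ℝ, E n)
    (isOpen_interior (s := L)).isClosed_compl hK.isClosed (disjoint_compl_left_iff_subset.2 hKL)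
  have hχ : ContDiff ℝ ∞ f := f.contMDiff.contDiff
  have h0 : ∀ y ∉ L, f y = 0 := fun y hy => f0 fun h => hy (interior_subset h)
  have hF := fun e : E n => hb_good hT hL hLT hχ h0 (fm_smooth hc.1 (e, 0) (Complex.I • (e, 0)))
  have hnn : ∀ (e : E n) (p : P n), 0 ≤ f p.1 * fm t (e, 0) (Complex.I • (e, 0)) p := fun e p => by
    by_cases hp : p.1 ∈ L
    · refine mul_nonneg (f2 _).1 ?_
      by_cases he : ((e, 0) : P n) = 0
      · simp [fm, he]
      · exact (hpos p (hLT hp) _ he).le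
    · exact ((hF e).2 p hp).ge
  have H := fun e : E n => (hb_levi hT hc hj hv hL hLT hχ h0 e).elim fun c h =>
    hb_lint I hL (hF e) (hnn e) h.1 h.2
  choose B hB0 hB using H
  refine ⟨∑ k, B (Pi.single k 1), fun R hR => ?_⟩
  have hR0 : 0 < R := by linarith
  rw [Finset.sum_mul, ENNReal.ofReal_sum_of_nonneg fun k _ =>
    mul_nonneg (hB0 _) (by positivity)]
  refine le_trans ?_ (Finset.sum_le_sum fun k _ => hB (Pi.single k 1) R hR)
  have hm : ∀ e : E n, Measurable fun p : P n =>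
      ENNReal.ofReal (f p.1 * fm t (e, 0) (Complex.I • (e, 0)) (p.1, piI I p.2)) := fun e =>
    (ENNReal.continuous_ofReal.comp ((hF e).1.continuous.comp
      (by fun_prop : Continuous fun p : P n => (p.1, piI I p.2)))).measurable
  rw [← lintegral_finsetSum _ fun k _ => hm _]
  refine le_trans (setLIntegral_mono' (hK.measurableSet.prod measurableSet_ball) fun p hp => ?_)
    (lintegral_mono_set (prod_mono (subset_univ K) subset_rfl))
  refine le_of_eq (Eq.trans ?_ (ENNReal.ofReal_sum_of_nonneg fun k _ =>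
    hnn (Pi.single k 1) (p.1, piI I p.2)))
  refine congrArg _ (Finset.sum_congr rfl fun k _ => ?_)
  rw [f1 hp.1, Pi.one_apply, one_mul]
  rfl

end Pool.Agent.CL
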