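import Pool.Agent.K.MP_63735c_ag.C103

/-! A positive (1,1)-form is bounded by its horizontal trace and its vertical bound. -/

open scoped ContDiff Matrix ENNReal
open Set Metric MeasureTheory Filter Topology

namespace Pool.Agent.CL

open Pool.Agent.SPF

variable {n : ℕ}

section
variable {F : Type} [NormedAddCommGroup F] [NormedSpace ℝ F] [NormedSpace ℂ F]
  [IsScalarTower ℝ ℂ F] {b : F →L[ℝ] F →L[ℝ] ℝ}

lemma clavsp_add (h0 : ∀ u, 0 ≤ b u (Complex.I • u)) (u v : F) :
    b (u + v) (Complex.I • (u + v)) ≤ 2 * b u (Complex.I • u) + 2 * b v (Complex.I • v) := by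
  have h := h0 (u - v)
  simp only [smul_add, smul_sub, map_add, map_sub, _root_.add_apply, _root_.sub_apply] at h ⊢
  linarith

lemma clavsp_smul (hs : ∀ u v, b u v = -b v u)
    (hj : ∀ u v, b (Complex.I • u) (Complex.I • v) = b u v) (c : ℂ) (u : F) :
    b (c • u) (Complex.I • c • u) = ‖c‖ ^ 2 * b u (Complex.I • u) := by
  have rs : ∀ (c : ℝ) (x : F), c • x = (c : ℂ) • x := fun c x => (algebraMap_smul ℂ c x).symm
  have e1 : c • u = c.re • u + c.im • Complex.I • u := by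
    rw [rs, rs, smul_smul, ← add_smul, Complex.re_add_im]
  have e2 : Complex.I • c • u = c.re • Complex.I • u - c.im • u := by
    rw [rs, rs, smul_smul, smul_smul, ← sub_smul]
    congr 1
    apply Complex.ext <;> simp
  have h1 : b u u = 0 := by linarith [hs u u]
  have h2 := hj u u
  have h3 := hs (Complex.I • u) u
  rw [e2, e1, Complex.sq_norm, Complex.normSq_apply]
  simp only [map_add, map_sub, map_smul, _root_.add_apply, _root_.smul_apply, smul_eq_mul, h2, h1,
    h3]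
  ring

lemma clavsp_sum (h0 : ∀ u, 0 ≤ b u (Complex.I • u)) {ι : Type} [Fintype ι] (w : ι → F) :
    b (∑ k, w k) (Complex.I • ∑ k, w k) ≤
      Fintype.card ι * ∑ k, b (w k) (Complex.I • w k) := by
  have h1 : ∀ i j, b (w i) (Complex.I • w j) + b (w j) (Complex.I • w i) ≤
      b (w i) (Complex.I • w i) + b (w j) (Complex.I • w j) := fun i j => by
    have h := h0 (w i - w j)
    simp only [smul_sub, map_sub, _root_.sub_apply] at h
    linarith
  have h2 := Finset.sum_le_sum (s := Finset.univ) fun i _ =>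
    Finset.sum_le_sum (s := Finset.univ) fun j _ => h1 i j
  simp only [Finset.sum_add_distrib, Finset.sum_const, Finset.card_univ, nsmul_eq_mul,
    ← Finset.mul_sum] at h2
  rw [Finset.sum_comm (f := fun i j => b (w j) (Complex.I • w i))] at h2
  have h3 : b (∑ k, w k) (Complex.I • ∑ k, w k) = ∑ i, ∑ j, b (w i) (Complex.I • w j) := by
    simp only [Finset.smul_sum, map_sum, _root_.sum_apply]
    exact Finset.sum_comm
  linarith

end

theorem av_split {T : Set (E n)} {t : Form2 (P n)}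
    (hc : Closed2 (T ×ˢ univ) t) (hj : JInv (T ×ˢ univ) t)
    (hpos : ∀ p : P n, p.1 ∈ T → ∀ u, u ≠ 0 → 0 < t p u (Complex.I • u)) {C : ℝ} (hC : 0 ≤ C)
    (hv : ∀ p : P n, p.1 ∈ T → ∀ v w : E n, |t p (0, v) (0, w)| ≤ C * ‖v‖ * ‖w‖) :
    ∀ p : P n, p.1 ∈ T → ∀ u : P n, 0 ≤ trh t p ∧
      t p u (Complex.I • u) ≤ 2 * (n + C) * (trh t p * ‖u.1‖ ^ 2 + ‖u.2‖ ^ 2) := by
  intro p hp u
  have h0 : ∀ u, 0 ≤ t p u (Complex.I • u) := fun u => by
    by_cases hu : u = 0
    · simp [hu]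
    · exact (hpos p hp u hu).le
  have ht : 0 ≤ trh t p := Finset.sum_nonneg fun k _ => h0 _
  refine ⟨ht, ?_⟩
  have e : ((u.1, 0) : P n) = ∑ k, u.1 k • ((Pi.single k 1, 0) : P n) := by
    refine Prod.ext ?_ ?_
    · rw [Prod.fst_sum]
      exact pi_eq_sum_univ' u.1
    · simp [Prod.snd_sum]
  have h3 := clavsp_sum h0 fun k => u.1 k • ((Pi.single k 1, 0) : P n)
  rw [← e, Fintype.card_fin] at h3
  have h4 : ∑ k, t p (u.1 k • ((Pi.single k 1, 0) : P n))
      (Complex.I • u.1 k • ((Pi.single k 1, 0) : P n)) ≤ trh t p * ‖u.1‖ ^ 2 := by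
    rw [trh, Finset.sum_mul]
    refine Finset.sum_le_sum fun k _ => ?_
    rw [clavsp_smul (hc.2.1 p ⟨hp, trivial⟩) (hj p ⟨hp, trivial⟩), mul_comm]
    exact mul_le_mul_of_nonneg_left
      (pow_le_pow_left₀ (norm_nonneg _) (norm_le_pi_norm u.1 k) 2) (h0 _)
  have h5 := clavsp_add h0 (u.1, 0) (0, u.2)
  have h6 : t p (0, u.2) (Complex.I • (0, u.2)) ≤ C * ‖u.2‖ ^ 2 := by
    have := (le_abs_self _).trans (hv p hp u.2 (Complex.I • u.2))
    rw [norm_smul, Complex.norm_I, one_mul, mul_assoc, ← sq] at this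
    simpa using this
  rw [show ((u.1, 0) : P n) + (0, u.2) = u by simp] at h5
  have h2 : (0 : ℝ) ≤ n := Nat.cast_nonneg n
  have h7 := mul_le_mul_of_nonneg_left h4 h2
  have h8 := mul_nonneg ht (sq_nonneg ‖u.1‖)
  nlinarith [mul_nonneg h2 (sq_nonneg ‖u.2‖), mul_nonneg hC h8]

end Pool.Agent.CL
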