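import Pool.Agent.K.MP_63735c_ag.C106
import Pool.Agent.K.MP_63735c_ag.C107
import Pool.Agent.K.MP_63735c_ag.C108
import Pool.Agent.K.MP_63735c_ag.C109

/-! The averaged form, the moment map and the potential exist. -/

open scoped ContDiff Matrix ENNReal
open Set Metric MeasureTheory Filter Topology

namespace Pool.Agent.CL

open Pool.Agent.SPF

variable {n : ℕ} {X : Type} [TopologicalSpace X] [T2Space X] [MeasurableSpace X]

omit [T2Space X] in
theorem clavg_mem (S : Setup n X) {y : E n} (hy : y ∈ ball S.G.y0 (3 / 2 * S.G.r)) :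
    y ∈ S.M.T :=
  S.G.sub (ball_subset_closedBall (ball_subset_ball (by linarith [S.G.r_pos]) hy))

theorem exists_avg (S : Setup n X) : Nonempty (Avg S) := by
  obtain ⟨t, hg, hRI, hz⟩ := exists_avGood S.Q
  obtain ⟨c, hc, C1, hC1, hTG⟩ := av_TG S hg hRI
  have hy0 : S.G.y0 ∈ S.M.T := S.G.sub (mem_closedBall_self (by linarith [S.G.r_pos]))
  have hb : AvBase S.M.T S.Q.I t (S.G.y0, 0) :=
    ⟨S.M.T_open, S.M.T_conv, hy0, hg.closed, hg.jinv, hRI, hz⟩
  have h0 := S.M.C0_ge
  have hn : (0 : ℝ) ≤ n := Nat.cast_nonneg n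
  set C : ℝ := 2 * (n + 2 * S.M.C0) + C1 with hC
  have hv : ∀ p : P n, p.1 ∈ S.M.T → ∀ v w : E n, |t p (0, v) (0, w)| ≤ C * ‖v‖ * ‖w‖ :=
    fun p hp v w => (hg.vert p hp v w).trans (by gcongr; linarith)
  exact ⟨{
    omb := t
    r := mom S.Q.I t (S.G.y0, 0)
    Φ := pot S.Q.I t (S.G.y0, 0)
    c := c
    C := C
    c_pos := hc
    C_ge := by linarith
    closed := hg.closed
    jinv := hg.jinv
    pos := hg.pos
    vert := hv
    split := fun p hp u => by
      obtain ⟨h1, h2⟩ := av_split hg.closed hg.jinv hg.pos (C := 2 * S.M.C0) (by linarith)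
        hg.vert p hp u
      exact ⟨h1, h2.trans (by gcongr; linarith)⟩
    omb_RI := hRI
    omb_zero := hz
    inv := hg.inv
    r_mem := mom_mem _ _ _
    r_smooth := hb.r_smooth
    r_deriv := fun p hp v hv => hb.r_deriv hp hv
    r_RI := fun y hy ξ s hs => hb.r_RI hy ξ hs
    r_lip := fun y hy ξ ξ' => hb.r_lip (by linarith) hv hy ξ ξ'
    r_shift := fun O g h hO hN => hb.r_shift h hO hN (hg.inv O g h hN)
    r_germ := fun j y hy g hs => by
      obtain ⟨ρ, hρ, h⟩ := hs.2.1.ball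
      obtain ⟨ε, hε, hf⟩ := Metric.eventually_nhds_iff_ball.1 (hs.avfix hy)
      have h' := h.mono (O' := ball y (min ρ ε)) isOpen_ball (ball_subset_ball (min_le_left _ _))
      have hN : ∀ x ∈ ball y (min ρ ε), ∀ s ∈ RI S.Q.I, g.N x s = s :=
        fun x hx => (hf x (ball_subset_ball (min_le_right _ _) hx)).2
      obtain ⟨a, ha, e⟩ := hb.r_shift h' (convex_ball _ _).isPreconnected hN (hg.inv _ g h' hN)
      refine ⟨a, ha, ?_⟩
      filter_upwards [ball_mem_nhds y (lt_min hρ hε)] with x hx ξ using e (x, ξ) hx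
    Φ_smooth := hb.pot_smooth
    Φ_RI := fun y _ ξ s hs => pot_RI y ξ hs
    Φ_zero := fun p _ hp => pot_zero hp
    Φ_tau := fun p hp v hv => hb.pot_tau hp hv
    Φ_conv := fun p hp v hv => by
      rw [D2_dd hb.W hb.pot_smooth _ ⟨hp, trivial⟩, hb.hess hp hv]
    LP := fun p hp u => hb.LP hp u
    HB := av_HB S.Q.I S.M.T_open hg.closed hg.jinv hg.pos hv
    TG := fun j y hy g hs s hs' d hd => by
      obtain ⟨h1, h2⟩ := hTG j y hy g hs s hs' d hd
      refine ⟨h1, fun e w hw => le_trans ?_ (h2 e w hw)⟩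
      gcongr; linarith
    mon0 := fun y hy ξ v hv => by
      simpa using hb.mon hg.pos hy ξ hv (a := 0) (k := 0) le_rfl zero_le_one fun s hs => by
        by_cases h0 : ((0, v) : P n) = 0
        · rw [h0]; simp
        · simpa using (hg.pos (y, ξ + s • Complex.I • v) hy _ h0).le
    mon1 := fun j y hy g hs s hs' d hd v hv => by
      rcases eq_or_ne v 0 with rfl | hv0
      · simp [ip]
      have hp : 0 < ‖v‖ := norm_pos_iff.2 hv0
      have hm : 0 ≤ min ‖v‖ (1 / 2) := le_min hp.le (by norm_num)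
      have := hb.mon hg.pos (clavg_mem S hy) (g.α y + s + d) hv (a := min ‖v‖ (1 / 2) / ‖v‖)
        (k := c * ‖v‖ ^ 2) (by positivity) ((div_le_one hp).2 (min_le_left _ _)) fun q hq => by
          rw [add_assoc (g.α y + s)]
          refine (hTG j y hy g hs s hs' _ ((norm_add_le _ _).trans ?_)).1 v
          have h1 : q * ‖v‖ ≤ 1 / 2 := ((le_div_iff₀ hp).1 hq.2).trans (min_le_right _ _)
          rw [norm_smul, norm_smul, Complex.norm_I, one_mul, Real.norm_of_nonneg hq.1]
          linarith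
      refine le_trans (le_of_eq ?_) this
      field_simp }⟩

end Pool.Agent.CL
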