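import Pool.Agent.K.MP_63735c_ag.C29
import Pool.Agent.K.MP_63735c_ag.C68

-- part Pool.Agent.P.MP_63735c_ag.CLPi
section

/-! The flux function of a period. -/

open scoped ContDiff Matrix ENNReal
open Set Metric MeasureTheory Filter Topology

namespace Pool.Agent.CL

open Pool.Agent.SPF

variable {n : ℕ} {X : Type} {T V O : Set (E n)} {Ψ : P n → X} {g : Ret n} {A : Form1 (P n)}
  {t : Form2 (P n)} {o : P n} {z : E n → E n}

/-- The flux function of the period `z`. -/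
noncomputable def Pi (A : Form1 (P n)) (z : E n → E n) (o p : P n) : ℝ :=
  segInt A p ((Ret.per z).act p) - Dg A (Ret.per z) o p

theorem clpi_act (z : E n → E n) (p : P n) : (Ret.per z).act p = (p.1, p.2 - z p.1) := rfl

theorem clpi_pt (z : E n → E n) (p : P n) (r : ℝ) :
    p + r • ((Ret.per z).act p - p) = (p.1, p.2 - r • z p.1) := by
  rw [clpi_act]
  ext1
  · simp
  · simp [sub_eq_add_neg]

theorem clpi_comm {p : P n} (hp : g.N p.1 (z p.1) = z (g.γ p.1)) (r : ℝ) :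
    g.act p + r • ((Ret.per z).act (g.act p) - g.act p) =
      g.act (p + r • ((Ret.per z).act p - p)) := by
  rw [clpi_pt, clpi_pt]
  simp only [Ret.act]
  rw [← hp, ← ContinuousLinearMap.map_smul_of_tower, ← map_sub, sub_right_comm]

theorem clpi_vert (hg : IsRet T Ψ O g) {p : P n} (hp : p.1 ∈ O) (a : E n) :
    fderiv ℝ g.act p (0, a) = (0, g.N p.1 a) := by
  rw [hg.smooth.2.2.2 p hp]
  simp

theorem clpi_prim {W W' : Set (P n)} (hA : IsPrim W A t) (h : W' ⊆ W) : IsPrim W' A t :=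
  ⟨hA.1.mono h, fun x hx => hA.2 x (h hx)⟩

theorem clpi_curve {W W' : Set (P n)} {c : ℝ → P n} (hc : Curve W c) (h : W ⊆ W') : Curve W' c :=
  fun s hs => ⟨(hc s hs).1, h (hc s hs).2⟩

theorem clpi_seg (hV : Convex ℝ V) (z : E n → E n) {p : P n} (hp : p.1 ∈ V) :
    Curve (V ×ˢ univ) (seg p ((Ret.per z).act p)) :=
  curve_seg (hV.prod convex_univ) ⟨hp, trivial⟩ ⟨hp, trivial⟩

/-- The homotopy from a curve to its translate. -/
noncomputable def clpiH (z : E n → E n) (c : ℝ → P n) (q : ℝ × ℝ) : P n :=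
  c q.1 + q.2 • ((Ret.per z).act (c q.1) - c q.1)

theorem clpi_H (hz : IsRet T Ψ V (Ret.per z)) {c : ℝ → P n} (hc : Curve (V ×ˢ univ) c)
    {q : ℝ × ℝ} (hq : q.1 ∈ Icc (0 : ℝ) 1) : ContDiffAt ℝ 2 (clpiH z c) q := by
  have h1 : ContDiffAt ℝ 2 (fun q : ℝ × ℝ => c q.1) q := (hc q.1 hq).1.comp q contDiffAt_fst
  have h2 : ContDiffAt ℝ 2 (Ret.per z).act (c q.1) :=
    (hz.smooth.1.contDiffAt ((hz.isOpen.prod isOpen_univ).mem_nhds (hc q.1 hq).2)).of_le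
      (by norm_cast)
  have h3 : ContDiffAt ℝ 2 (fun q : ℝ × ℝ => (Ret.per z).act (c q.1)) q :=
    ContDiffAt.comp q (g := (Ret.per z).act) h2 h1
  exact h1.add (contDiffAt_snd.smul (h3.sub h1))

theorem clpi_H1 (z : E n → E n) (c : ℝ → P n) (q : ℝ × ℝ) : (clpiH z c q).1 = (c q.1).1 := by
  rw [clpiH, clpi_pt]

theorem clpi_sq (hT : IsOpen T) (hA : IsPrim (T ×ˢ univ) A t) (hV : Convex ℝ V)
    (hz : IsRet T Ψ V (Ret.per z)) (hi : Inv t V (Ret.per z)) (ho : o.1 ∈ V) {c : ℝ → P n}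
    (hc : Curve (V ×ˢ univ) c) :
    Pi A z o (c 1) - Pi A z o (c 0) = ∫ s in (0 : ℝ)..1, ∫ r in (0 : ℝ)..1,
      t (clpiH z c (s, r)) (fderiv ℝ (clpiH z c) (s, r) (1, 0))
        (fderiv ℝ (clpiH z c) (s, r) (0, 1)) := by
  have h := stokes_sq (hT.prod isOpen_univ) hA (H := clpiH z c) fun q hq =>
    ⟨clpi_H hz hc hq.1, by rw [clpi_H1]; exact hz.sub (hc q.1 hq.1).2.1, trivial⟩
  have e1 : (fun s => clpiH z c (s, 0)) = c := funext fun s => by simp [clpiH]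
  have e2 : (fun s => clpiH z c (s, 1)) = fun s => (Ret.per z).act (c s) :=
    funext fun s => by simp [clpiH]
  have e3 : ∀ s, (fun r => clpiH z c (s, r)) = seg (c s) ((Ret.per z).act (c s)) := fun s => rfl
  rw [e1, e2, e3, e3, lineInt_seg, lineInt_seg] at h
  have h2 := Dg_line hT hA hz hV hi ho hc
  rw [← h]
  unfold Pi
  linarith

theorem clpi_smooth {W U : Set (P n)} (hW : IsOpen W) (hU : IsOpen U) {B : Form1 (P n)}
    (hB : ContDiffOn ℝ ∞ B W) {a b : P n → P n} (ha : ContDiffOn ℝ ∞ a U)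
    (hb : ContDiffOn ℝ ∞ b U) (hm : ∀ x ∈ U, ∀ s ∈ Icc (0 : ℝ) 1, a x + s • (b x - a x) ∈ W) :
    ContDiffOn ℝ ∞ (fun x => segInt B (a x) (b x)) U := by
  refine contDiffOn_param hU (f := fun x s => B (a x + s • (b x - a x)) (b x - a x)) ?_
  intro x hx s hs
  have h1 : ContDiffAt ℝ ∞ (fun q : P n × ℝ => a q.1) (x, s) :=
    (ha.contDiffAt (hU.mem_nhds hx)).comp (x, s) contDiffAt_fst
  have h2 : ContDiffAt ℝ ∞ (fun q : P n × ℝ => b q.1) (x, s) :=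
    (hb.contDiffAt (hU.mem_nhds hx)).comp (x, s) contDiffAt_fst
  have h3 : ContDiffAt ℝ ∞ (fun q : P n × ℝ => a q.1 + q.2 • (b q.1 - a q.1)) (x, s) :=
    h1.add (contDiffAt_snd.smul (h2.sub h1))
  have h4 : ContDiffAt ℝ ∞ (fun q : P n × ℝ => B (a q.1 + q.2 • (b q.1 - a q.1))) (x, s) :=
    ContDiffAt.comp (x, s) (g := B) (hB.contDiffAt (hW.mem_nhds (hm x hx s hs))) h3
  exact h4.clm_apply (h2.sub h1)

theorem clpi_leaf (t : Form2 (P n)) (y ξ u v : E n) :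
    leaf t y ξ u v = t (y, ξ) (0, u) (0, v) := rfl

theorem leaf_per (hz : IsRet T Ψ V (Ret.per z)) (hi : Inv t V (Ret.per z)) {y : E n} (hy : y ∈ V)
    (ξ : E n) : leaf t y (ξ + z y) = leaf t y ξ := by
  ext u v
  have h := hi (y, ξ + z y) hy (0, u) (0, v)
  rw [clpi_vert hz hy, clpi_vert hz hy, clpi_act] at h
  rw [clpi_leaf, clpi_leaf, ← h]
  simp [Ret.per]

theorem Pi_shift (hT : IsOpen T) (hA : IsPrim (T ×ˢ univ) A t) (hV : Convex ℝ V)
    (hz : IsRet T Ψ V (Ret.per z)) (hi : Inv t V (Ret.per z)) (ho : o.1 ∈ V)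
    (hg : IsRet T Ψ O g) (hO : Convex ℝ O) (hs : O ⊆ V) (hm : MapsTo g.γ O V) (hgi : Inv t O g)
    (hp : ∀ y ∈ O, g.N y (z y) = z (g.γ y)) :
    ∃ c, ∀ p : P n, p.1 ∈ O → Pi A z o (g.act p) - Pi A z o p = c := by
  have key : ∀ p p' : P n, p.1 ∈ O → p'.1 ∈ O →
      Pi A z o (g.act p') - Pi A z o p' = Pi A z o (g.act p) - Pi A z o p := by
    intro p p' h1 h2
    have hOo : IsOpen (O ×ˢ (univ : Set (E n))) := hg.isOpen.prod isOpen_univ
    have hc : Curve (O ×ˢ univ) (seg p p') :=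
      curve_seg (hO.prod convex_univ) (mk_mem_prod h1 trivial) (mk_mem_prod h2 trivial)
    have hcV : Curve (V ×ˢ univ) (seg p p') := clpi_curve hc (prod_mono hs subset_rfl)
    have hc' : Curve (V ×ˢ univ) (fun s => g.act (seg p p' s)) :=
      curve_comp hOo hg.smooth.1 (fun x hx => mk_mem_prod (hm hx.1) (mem_univ _)) hc
    have a1 := clpi_sq hT hA hV hz hi ho hcV
    have a2 := clpi_sq hT hA hV hz hi ho hc'
    have s0 : seg p p' 0 = p := by simp [seg]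
    have s1 : seg p p' 1 = p' := by simp [seg]
    simp only [s0, s1] at a1 a2
    have e : Pi A z o (g.act p') - Pi A z o (g.act p) = Pi A z o p' - Pi A z o p := by
      rw [a1, a2]
      refine intervalIntegral.integral_congr fun s hs' => ?_
      refine intervalIntegral.integral_congr fun r _ => ?_
      rw [uIcc_of_le zero_le_one] at hs'
      have hH := clpi_H hz hcV (q := (s, r)) hs'
      have hmem : (clpiH z (seg p p') (s, r)).1 ∈ O := by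
        rw [clpi_H1]
        exact (hc s hs').2.1
      have hn : ∀ᶠ q : ℝ × ℝ in 𝓝 (s, r), seg p p' q.1 ∈ O ×ˢ (univ : Set (E n)) :=
        ((hc s hs').1.continuousAt.comp (f := Prod.fst) (x := (s, r))
          continuousAt_fst).eventually (hOo.mem_nhds (hc s hs').2)
      have ev : clpiH z (fun s => g.act (seg p p' s)) =ᶠ[𝓝 (s, r)]
          fun q => g.act (clpiH z (seg p p') q) := by
        filter_upwards [hn] with q hq
        exact clpi_comm (hp _ hq.1) q.2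
      have dg : DifferentiableAt ℝ g.act (clpiH z (seg p p') (s, r)) :=
        (hg.smooth.1.contDiffAt (hOo.mem_nhds ⟨hmem, trivial⟩)).differentiableAt (by simp)
      have dH := hH.differentiableAt (by norm_num)
      have dd := (dg.hasFDerivAt.comp (s, r) dH.hasFDerivAt).congr_of_eventuallyEq ev
      rw [dd.fderiv, ev.eq_of_nhds]
      exact hgi _ hmem _ _
    linarith
  rcases O.eq_empty_or_nonempty with h | ⟨y, hy⟩
  · exact ⟨0, fun p h1 => by simp [h] at h1⟩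
  · exact ⟨_, fun p h1 => key (y, 0) p hy h1⟩

theorem Pi_int (hT : IsOpen T) (hA : IsPrim (T ×ˢ univ) A t) (hI : IsInt T Ψ t) (hV : Convex ℝ V)
    (hz : IsRet T Ψ V (Ret.per z)) (ho : o.1 ∈ V) (hg : IsRet T Ψ O g) {p : P n} (h1 : p.1 ∈ O)
    (h2 : p.1 ∈ V) (h3 : g.γ p.1 ∈ V) (hp : g.N p.1 (z p.1) = z (g.γ p.1)) :
    ∃ k : ℤ, Pi A z o (g.act p) - Pi A z o p = k := by
  obtain ⟨u, hu, hD⟩ := Dg_int hT hA hI
  have hsub : V ×ˢ (univ : Set (E n)) ⊆ T ×ˢ univ := prod_mono hz.sub subset_rfl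
  obtain ⟨k1, e1⟩ := hu _ _ (clpi_curve (clpi_seg hV z h2) hsub)
    (clpi_curve (clpi_seg hV z (p := g.act p) h3) hsub) fun s _ => by
      unfold seg
      rw [clpi_comm hp, clpi_pt]
      exact (hg.eq _ h1 _).symm
  obtain ⟨k2, e2⟩ := hD V _ o hz hV ho p h2
  obtain ⟨k3, e3⟩ := hD V _ o hz hV ho (g.act p) h3
  rw [lineInt_seg, lineInt_seg] at e1
  simp only [seg, one_smul, zero_smul, add_zero, add_sub_cancel] at e1
  refine ⟨k1 + k2 - k3, ?_⟩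
  unfold Pi
  push_cast
  linarith

theorem Pi_leaf (hT : IsOpen T) (hA : IsPrim (T ×ˢ univ) A t) (hV : Convex ℝ V)
    (hz : IsRet T Ψ V (Ret.per z)) (hi : Inv t V (Ret.per z)) (ho : o.1 ∈ V) {y : E n}
    (hy : y ∈ V) (ξ b : E n) :
    Pi A z o (y, ξ + b) - Pi A z o (y, ξ) = par (leaf t y) ξ (z y) b := by
  have hW : Convex ℝ (V ×ˢ (univ : Set (E n))) := hV.prod convex_univ
  have h := stokes_par (hz.isOpen.prod isOpen_univ) hW
    (clpi_prim hA (prod_mono hz.sub subset_rfl)) (p := (y, ξ)) (a := (0, -z y)) (b := (0, b))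
    ⟨hy, trivial⟩ ⟨by simpa using hy, trivial⟩ ⟨by simpa using hy, trivial⟩
    ⟨by simpa using hy, trivial⟩
  have p1 : ((y, ξ) : P n) + (0, -z y) = (Ret.per z).act (y, ξ) := by
    simp [clpi_act, sub_eq_add_neg]
  have p2 : ((y, ξ) : P n) + (0, b) = (y, ξ + b) := by simp
  have p3 : ((y, ξ) : P n) + (0, -z y) + (0, b) = (Ret.per z).act (y, ξ + b) := by
    simp [clpi_act, sub_eq_add_neg, add_right_comm]
  rw [p3, p1, p2] at h
  have hc : Curve (V ×ˢ univ) (seg ((y, ξ) : P n) (y, ξ + b)) :=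
    curve_seg hW ⟨hy, trivial⟩ ⟨hy, trivial⟩
  have h2 := Dg_line hT hA hz hV hi ho hc
  have e : (fun s => (Ret.per z).act (seg ((y, ξ) : P n) (y, ξ + b) s)) =
      seg ((Ret.per z).act (y, ξ)) ((Ret.per z).act (y, ξ + b)) := by
    funext s
    simp only [clpi_act, seg]
    ext1
    · simp
    · simp [sub_add_eq_add_sub]
  rw [e, lineInt_seg, lineInt_seg] at h2
  simp only [seg, one_smul, zero_smul, add_zero, add_sub_cancel] at h2
  have h3 : par t ((y, ξ) : P n) (0, -z y) (0, b) = -par (leaf t y) ξ (z y) b := by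
    unfold par
    have h4 := intervalIntegral.integral_comp_sub_left (a := 0) (b := 1)
      (fun s : ℝ => ∫ r in (0 : ℝ)..1, leaf t y (ξ + s • z y + r • b) (z y) b) 1
    rw [sub_self, sub_zero] at h4
    rw [← h4, ← intervalIntegral.integral_neg]
    refine intervalIntegral.integral_congr fun s _ => ?_
    rw [← intervalIntegral.integral_neg]
    refine intervalIntegral.integral_congr fun r _ => ?_
    have e1 : ξ + (1 - s) • z y + r • b = ξ + s • (-z y) + r • b + z y := by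
      rw [sub_smul, one_smul, smul_neg]
      abel
    have e2 : ((y, ξ) : P n) + s • (0, -z y) + r • (0, b) = (y, ξ + s • (-z y) + r • b) := by
      simp
    have e3 : ((0, -z y) : P n) = -(0, z y) := by simp
    rw [e1, leaf_per hz hi hy, clpi_leaf, e2, e3, map_neg]
    rfl
  unfold Pi
  linarith

theorem Pi_cont (hT : IsOpen T) (hA : IsPrim (T ×ˢ univ) A t) (hV : Convex ℝ V)
    (hz : IsRet T Ψ V (Ret.per z)) (ho : o.1 ∈ V) : ContinuousOn (Pi A z o) (V ×ˢ univ) := by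
  have hVo : IsOpen (V ×ˢ (univ : Set (E n))) := hz.isOpen.prod isOpen_univ
  have hsub : V ×ˢ (univ : Set (E n)) ⊆ T ×ˢ univ := prod_mono hz.sub subset_rfl
  have h1 := clpi_smooth (hT.prod isOpen_univ) hVo hA.1 contDiffOn_id hz.smooth.1
    fun x hx s hs => hsub (clpi_seg hV z hx.1 s hs).2
  have h2 : ContDiffOn ℝ ∞ (fderiv ℝ (Ret.per z).act) (V ×ˢ univ) :=
    hz.smooth.1.fderiv_of_isOpen hVo (by simp)
  have h3 : ContDiffOn ℝ ∞ (fun x => pull1 (Ret.per z).act A x - A x) (V ×ˢ univ) :=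
    ((hA.1.comp hz.smooth.1 hz.smooth.2.1).clm_comp h2).sub (hA.1.mono hsub)
  have h4 := clpi_smooth hVo hVo h3 (contDiffOn_const (c := o)) contDiffOn_id
    fun x hx s hs =>
      (curve_seg (hV.prod convex_univ) (p := o) (mk_mem_prod ho (mem_univ _)) hx s hs).2
  exact h1.continuousOn.sub h4.continuousOn

theorem Pi_liou (hV : Convex ℝ V) (hz : IsRet T Ψ V (Ret.per z)) (ho : o.1 ∈ V) (c : ℂ)
    {p : P n} (hp : p.1 ∈ V) : Pi (liou c) z o p = -(c * hprim z o.1 p.1).re := by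
  have h := Dg_liou hz hV ho c hp
  have h0 : segInt (liou c) p ((Ret.per z).act p) = 0 := by
    simp [segInt, liou, clpi_act]
  unfold Pi
  rw [h, h0, zero_sub]
  rfl

theorem Pi_comb (hT : IsOpen T) {B : Form1 (P n)} (hA : ContinuousOn A (T ×ˢ univ))
    (hB : ContinuousOn B (T ×ˢ univ)) (hV : Convex ℝ V) (hz : IsRet T Ψ V (Ret.per z))
    (ho : o.1 ∈ V) (a b : ℝ) {p : P n} (hp : p.1 ∈ V) :
    Pi (fun x => a • A x + b • B x) z o p = a * Pi A z o p + b * Pi B z o p := by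
  have h := Dg_comb hT hA hB hz hV ho a b hp
  have h2 := lineInt_add (hT.prod isOpen_univ) hA hB a b
    (clpi_curve (clpi_seg hV z hp) (prod_mono hz.sub subset_rfl))
  rw [lineInt_seg, lineInt_seg, lineInt_seg] at h2
  unfold Pi
  rw [h, h2]
  ring

theorem Model.leaf_bd [TopologicalSpace X] [MeasurableSpace X] (M : Model n X) :
    ∀ y ∈ M.T, ∀ x u v, |leaf M.om y x u v| ≤ 2 * M.C0 * ‖u‖ * ‖v‖ := by
  have hI : ∀ u : E n, ((0, Complex.I • u) : P n) = Complex.I • (0, u) := fun u => by simp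
  have key : ∀ {t : Form2 (P n)}, IsForm M.T M.Ψ t → ∀ {K : ℝ}, ∀ y ∈ M.T, ∀ x,
      (∀ u, |leaf t y x u (Complex.I • u)| ≤ K * ‖u‖ ^ 2) →
      ∀ u v, |leaf t y x u v| ≤ 2 * K * ‖u‖ * ‖v‖ := by
    intro t ht K y hy x h u v
    refine jinv_bd (leaf t y x) (fun u v => ?_) (fun u v => ?_) (fun u => ‖u‖)
      norm_nonneg norm_add_le (fun c u => norm_smul c u) (fun u hu => norm_eq_zero.1 hu) h u v
    · exact ht.closed.2.1 (y, x) ⟨hy, trivial⟩ _ _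
    · rw [clpi_leaf, clpi_leaf, hI, hI]
      exact ht.jinv (y, x) ⟨hy, trivial⟩ _ _
  have pos : ∀ y ∈ M.T, ∀ x u, 0 ≤ leaf M.om y x u (Complex.I • u) := by
    intro y hy x u
    by_cases hu : u = 0
    · simp [hu]
    · rw [clpi_leaf, hI]
      exact (M.om_pos (y, x) hy (0, u) fun h => hu (congrArg Prod.snd h)).le
  refine fun y hy x => key M.om_form y hy x fun u => ?_
  rw [abs_of_nonneg (pos y hy x u)]
  exact M.om_vert y hy x u

end Pool.Agent.CL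
end

-- part Pool.Agent.P.MP_63735c_ag.CLAvD
section

/-! The averaged form, the moment map and its potential: definitions. -/

open scoped ContDiff Matrix ENNReal
open Set Metric MeasureTheory Filter Topology

namespace Pool.Agent.CL

open Pool.Agent.SPF

variable {n : ℕ}

/-- The projection that kills the `I`-coordinates. -/
noncomputable def piI (I : Finset (Fin n)) : E n →L[ℂ] E n :=
  ContinuousLinearMap.pi fun k => if k ∈ I then 0 else ContinuousLinearMap.proj k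

/-- Imaginary parts of the `I`-coordinates. -/
noncomputable def tauI (I : Finset (Fin n)) : E n →L[ℝ] E n :=
  ContinuousLinearMap.pi fun k => if k ∈ I then
    Complex.ofRealCLM.comp (Complex.imCLM.comp (ContinuousLinearMap.proj k)) else 0

/-- Real parts of the `I`-coordinates. -/
noncomputable def reI (I : Finset (Fin n)) : E n →L[ℝ] E n :=
  ContinuousLinearMap.pi fun k => if k ∈ I then
    Complex.ofRealCLM.comp (Complex.reCLM.comp (ContinuousLinearMap.proj k)) else 0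

lemma piI_apply (I : Finset (Fin n)) (ξ : E n) (k : Fin n) :
    piI I ξ k = if k ∈ I then 0 else ξ k := by
  by_cases h : k ∈ I <;> simp [piI, h]

lemma tauI_apply (I : Finset (Fin n)) (ξ : E n) (k : Fin n) :
    tauI I ξ k = if k ∈ I then ((ξ k).im : ℂ) else 0 := by
  by_cases h : k ∈ I <;> simp [tauI, h]

lemma reI_apply (I : Finset (Fin n)) (ξ : E n) (k : Fin n) :
    reI I ξ k = if k ∈ I then ((ξ k).re : ℂ) else 0 := by
  by_cases h : k ∈ I <;> simp [reI, h]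

lemma split_I (I : Finset (Fin n)) (ξ : E n) :
    ξ = reI I ξ + Complex.I • tauI I ξ + piI I ξ := by
  funext k
  by_cases h : k ∈ I
  · simp only [Pi.add_apply, Pi.smul_apply, piI_apply, tauI_apply, reI_apply, h, if_true,
      smul_eq_mul, add_zero]
    rw [mul_comm]; exact (Complex.re_add_im _).symm
  · simp [piI_apply, tauI_apply, reI_apply, h]

lemma tauI_mem (I : Finset (Fin n)) (ξ : E n) : tauI I ξ ∈ RI I := fun k => by
  by_cases h : k ∈ I <;> simp [tauI_apply, h]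

lemma reI_mem (I : Finset (Fin n)) (ξ : E n) : reI I ξ ∈ RI I := fun k => by
  by_cases h : k ∈ I <;> simp [reI_apply, h]

lemma RI.add {I : Finset (Fin n)} {s t : E n} (hs : s ∈ RI I) (ht : t ∈ RI I) :
    s + t ∈ RI I := fun k =>
  ⟨by simp [(hs k).1, (ht k).1], fun h => by simp [(hs k).2 h, (ht k).2 h]⟩

lemma RI.smul {I : Finset (Fin n)} {s : E n} (hs : s ∈ RI I) (c : ℝ) : c • s ∈ RI I := fun k =>
  ⟨by simp [(hs k).1], fun h => by simp [(hs k).2 h]⟩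

lemma RI.neg {I : Finset (Fin n)} {s : E n} (hs : s ∈ RI I) : -s ∈ RI I := fun k =>
  ⟨by simp [(hs k).1], fun h => by simp [(hs k).2 h]⟩

lemma RI.sub {I : Finset (Fin n)} {s t : E n} (hs : s ∈ RI I) (ht : t ∈ RI I) :
    s - t ∈ RI I := by
  rw [sub_eq_add_neg]; exact RI.add hs (RI.neg ht)

lemma RI.zero (I : Finset (Fin n)) : (0 : E n) ∈ RI I := fun k => by simp

lemma RI.single {I : Finset (Fin n)} {i : Fin n} (hi : i ∈ I) :
    (Pi.single i 1 : E n) ∈ RI I := fun k => by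
  by_cases h : k = i
  · subst h; simp [hi]
  · simp [Pi.single_eq_of_ne h]

lemma ZI.sub_RI {I : Finset (Fin n)} {s : E n} (hs : s ∈ ZI I) : s ∈ RI I := fun k => by
  obtain ⟨⟨m, hm⟩, h2⟩ := hs k
  exact ⟨by rw [hm]; simp, h2⟩

/-- Values of the three projections on real vectors supported on `I`. -/
lemma RI.proj {I : Finset (Fin n)} {s : E n} (hs : s ∈ RI I) :
    piI I s = 0 ∧ tauI I s = 0 ∧ reI I s = s ∧ piI I (Complex.I • s) = 0 ∧
      tauI I (Complex.I • s) = s ∧ reI I (Complex.I • s) = 0 := by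
  refine ⟨?_, ?_, ?_, ?_, ?_, ?_⟩ <;> funext k <;> by_cases h : k ∈ I <;>
    simp [piI_apply, tauI_apply, reI_apply, h, (hs k).1, (hs k).2, Complex.ext_iff]

lemma proj_piI (I : Finset (Fin n)) (ξ : E n) :
    piI I (piI I ξ) = piI I ξ ∧ tauI I (piI I ξ) = 0 ∧ reI I (piI I ξ) = 0 := by
  refine ⟨?_, ?_, ?_⟩ <;> funext k <;> by_cases h : k ∈ I <;>
    simp [piI_apply, tauI_apply, reI_apply, h]

lemma proj_norm (I : Finset (Fin n)) (ξ : E n) :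
    ‖piI I ξ‖ ≤ ‖ξ‖ ∧ ‖tauI I ξ‖ ≤ ‖ξ‖ ∧ ‖reI I ξ‖ ≤ ‖ξ‖ := by
  refine ⟨?_, ?_, ?_⟩ <;> refine (pi_norm_le_iff_of_nonneg (norm_nonneg _)).2 fun k => ?_ <;>
    by_cases h : k ∈ I
  · simp [piI_apply, h]
  · simpa [piI_apply, h] using norm_le_pi_norm ξ k
  · simpa [tauI_apply, h] using (Complex.abs_im_le_norm _).trans (norm_le_pi_norm ξ k)
  · simp [tauI_apply, h]
  · simpa [reI_apply, h] using (Complex.abs_re_le_norm _).trans (norm_le_pi_norm ξ k)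
  · simp [reI_apply, h]

/-- The horizontal trace of a form. -/
noncomputable def trh (t : Form2 (P n)) (p : P n) : ℝ :=
  ∑ k, t p (Pi.single k 1, 0) (Complex.I • (Pi.single k 1, 0))

variable {X : Type} [TopologicalSpace X] [MeasurableSpace X]

/-- A return germ at `y` whose base map is the small isometry `j`. -/
def Setup.Sm (S : Setup n X) (j : S.G.G) (y : E n) (g : Ret n) : Prop :=
  S.G.lg.sz j ≤ S.G.lg.ε ∧ Germ S.M.T S.M.Ψ y g ∧ g.γ =ᶠ[𝓝 y] S.G.γ j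

/-- The averaged form `omb`, the moment map `r` and the potential `Φ`. -/
structure Avg (S : Setup n X) where
  omb : Form2 (P n)
  r : P n → E n
  Φ : P n → ℝ
  c : ℝ
  C : ℝ
  c_pos : 0 < c
  C_ge : 1 ≤ C
  closed : Closed2 (S.M.T ×ˢ univ) omb
  jinv : JInv (S.M.T ×ˢ univ) omb
  pos : ∀ p : P n, p.1 ∈ S.M.T → ∀ u, u ≠ 0 → 0 < omb p u (Complex.I • u)
  vert : ∀ p : P n, p.1 ∈ S.M.T → ∀ v w : E n, |omb p (0, v) (0, w)| ≤ C * ‖v‖ * ‖w‖
  split : ∀ p : P n, p.1 ∈ S.M.T → ∀ u : P n, 0 ≤ trh omb p ∧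
    omb p u (Complex.I • u) ≤ C * (trh omb p * ‖u.1‖ ^ 2 + ‖u.2‖ ^ 2)
  omb_RI : ∀ y ∈ S.M.T, ∀ ξ, ∀ s ∈ RI S.Q.I, omb (y, ξ + s) = omb (y, ξ)
  omb_zero : ∀ p : P n, p.1 ∈ S.M.T → ∀ s ∈ RI S.Q.I, ∀ s' ∈ RI S.Q.I, omb p (0, s) (0, s') = 0
  inv : ∀ O g, IsRet S.M.T S.M.Ψ O g → (∀ x ∈ O, ∀ s ∈ RI S.Q.I, g.N x s = s) → Inv omb O g
  r_mem : ∀ p, r p ∈ RI S.Q.I
  r_smooth : ContDiffOn ℝ ∞ r (S.M.T ×ˢ univ)
  r_deriv : ∀ p : P n, p.1 ∈ S.M.T → ∀ v ∈ RI S.Q.I,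
    HasFDerivAt (fun q => ip v (r q)) (omb p (0, v)) p
  r_RI : ∀ y ∈ S.M.T, ∀ ξ, ∀ s ∈ RI S.Q.I, r (y, ξ + s) = r (y, ξ)
  r_lip : ∀ y ∈ S.M.T, ∀ ξ ξ', ‖r (y, ξ) - r (y, ξ')‖ ≤ C * ‖ξ - ξ'‖
  r_shift : ∀ O g, IsRet S.M.T S.M.Ψ O g → IsPreconnected O →
    (∀ x ∈ O, ∀ s ∈ RI S.Q.I, g.N x s = s) →
    ∃ ρ ∈ RI S.Q.I, ∀ p : P n, p.1 ∈ O → r (g.act p) - r p = ρ
  r_germ : ∀ j, ∀ y ∈ ball S.G.y0 (2 * S.G.r), ∀ g, S.Sm j y g →
    ∃ ρ ∈ RI S.Q.I, ∀ᶠ x in 𝓝 y, ∀ ξ, r (g.act (x, ξ)) - r (x, ξ) = ρ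
  Φ_smooth : ContDiffOn ℝ ∞ Φ (S.M.T ×ˢ univ)
  Φ_RI : ∀ y ∈ S.M.T, ∀ ξ, ∀ s ∈ RI S.Q.I, Φ (y, ξ + s) = Φ (y, ξ)
  Φ_zero : ∀ p : P n, p.1 ∈ S.M.T → tauI S.Q.I p.2 = 0 → Φ p = 0
  Φ_tau : ∀ p : P n, p.1 ∈ S.M.T → ∀ v ∈ RI S.Q.I,
    fderiv ℝ Φ p (0, Complex.I • v) = ip v (r p)
  Φ_conv : ∀ p : P n, p.1 ∈ S.M.T → ∀ v ∈ RI S.Q.I,
    D2 Φ p (0, Complex.I • v) = omb p (0, v) (0, Complex.I • v)
  LP : ∀ p : P n, p.1 ∈ S.M.T → ∀ u : P n, Lv Φ p u = omb p u (Complex.I • u) -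
    omb (p.1, piI S.Q.I p.2) (u.1, piI S.Q.I u.2) (Complex.I • (u.1, piI S.Q.I u.2))
  HB : ∀ K, IsCompact K → K ⊆ S.M.T → ∃ B : ℝ, ∀ R ≥ (1 : ℝ),
    ∫⁻ p in K ×ˢ ball (0 : E n) R, ENNReal.ofReal (trh omb (p.1, piI S.Q.I p.2)) ≤
      ENNReal.ofReal (B * R ^ (2 * n + 2))
  TG : ∀ j, ∀ y ∈ ball S.G.y0 (3 / 2 * S.G.r), ∀ g, S.Sm j y g → ∀ s ∈ RI S.Q.I, ∀ d : E n,
    ‖d‖ ≤ 1 → (∀ v : E n, c * ‖v‖ ^ 2 ≤ omb (y, g.α y + s + d) (0, v) (0, Complex.I • v)) ∧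
      ∀ e w : E n, piI S.Q.I w = 0 → c * ‖piI S.Q.I (fderiv ℂ g.α y e)‖ ^ 2 - C * ‖e‖ ^ 2 ≤
        omb (y, g.α y + s + d) (e, w) (Complex.I • (e, w))
  mon0 : ∀ y ∈ S.M.T, ∀ ξ, ∀ v ∈ RI S.Q.I, 0 ≤ ip v (r (y, ξ + Complex.I • v) - r (y, ξ))
  mon1 : ∀ j, ∀ y ∈ ball S.G.y0 (3 / 2 * S.G.r), ∀ g, S.Sm j y g → ∀ s ∈ RI S.Q.I, ∀ d : E n,
    ‖d‖ ≤ 1 / 2 → ∀ v ∈ RI S.Q.I, c * ‖v‖ * min ‖v‖ (1 / 2) ≤
      ip v (r (y, g.α y + s + d + Complex.I • v) - r (y, g.α y + s + d))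

end Pool.Agent.CL
end

-- part Pool.Agent.P.MP_63735c_ag.CLDefsB
section

/-! Shift functions and labels. -/

open scoped ContDiff Matrix ENNReal
open Set Metric MeasureTheory Filter Topology

namespace Pool.Agent.CL

open Pool.Agent.SPF

variable {n : ℕ}

/-- Vectors whose `I`-coordinates are imaginary. -/
def EE (I : Finset (Fin n)) : Submodule ℝ (E n) where
  carrier := {ξ | ∀ k ∈ I, (ξ k).re = 0}
  add_mem' ha hb k hk := by simp [ha k hk, hb k hk]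
  zero_mem' k _ := by simp
  smul_mem' c x hx k hk := by simp [hx k hk]

variable {X : Type} [TopologicalSpace X] [MeasurableSpace X]

/-- Functions that change by constants under small returns. -/
structure Sh (S : Setup n X) (A : Avg S) where
  Idx : Type
  Fn : Idx → P n → ℝ
  shift : ∀ i O g, IsRet S.M.T S.M.Ψ O g → Convex ℝ O →
    (∀ y ∈ O, ∀ k, g.N y (S.Q.z k y) = S.Q.z k (g.γ y)) →
    ∃ c, ∀ p : P n, p.1 ∈ O → Fn i (g.act p) - Fn i p = c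
  zinv : ∀ i, ∀ s ∈ ZI S.Q.I, ∀ y ∈ S.M.T, ∀ ξ, Fn i (y, ξ + s) = Fn i (y, ξ)
  rad : ∀ m, ∀ y ∈ S.M.T, (∀ i, Fn i (y, -zm S.Q.z m y) = Fn i (y, 0)) →
    ∃ s ∈ ZI S.Q.I, ∀ x ∈ S.M.T, zm S.Q.z m x = s
  imom : Fin n → Idx
  mom : ∀ i p, Fn (imom i) p = (A.r p i).re
  ichi : (Fin S.Q.r0 → ℤ) → ℂ → Idx
  chi : ∀ m c p, Fn (ichi m c) p = (c * hprim (zm S.Q.z m) S.G.y0 p.1).re
  iint : (Fin S.Q.r0 → ℤ) → Fin S.M.m → Idx
  int : ∀ m j O g, IsRet S.M.T S.M.Ψ O g → ∀ p : P n, p.1 ∈ O →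
    (∀ k, g.N p.1 (S.Q.z k p.1) = S.Q.z k (g.γ p.1)) →
    ∃ k : ℤ, Fn (iint m j) (g.act p) - Fn (iint m j) p = k
  sub : ∀ m j, ∀ κ > (0 : ℝ), ∀ θ : ℝ≥0∞, θ ≠ 0 → ∃ C, ∀ (jj : S.G.G) (O : Set (E n)) (Λ c : ℝ),
    S.G.lg.sz jj ≤ S.G.lg.ε → MeasurableSet O → θ ≤ volume O → O ⊆ ball S.G.y0 (S.G.r / 2) →
    (∀ y ∈ O, ∃ g, Germ S.M.T S.M.Ψ y g ∧ g.γ y = S.G.γ jj y ∧
      (∀ k, g.N y (S.Q.z k y) = S.Q.z k (g.γ y)) ∧ ‖g.α y‖ ≤ Λ ∧
      ∀ ξ, Fn (iint m j) (g.act (y, ξ)) - Fn (iint m j) (y, ξ) = c) → |c| ≤ κ * Λ + C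
  span : ∀ m c, ∃ r : Fin S.M.m → ℝ, ∀ p : P n, p.1 ∈ S.M.T →
    Fn (ichi m c) p = ∑ j, r j * Fn (iint m j) p

/-- All data of part B. -/
structure Big (n : ℕ) (X : Type) [TopologicalSpace X] [MeasurableSpace X] where
  S : Setup n X
  A : Avg S
  H : Sh S A

namespace Big

variable (B : Big n X)

/-- Labels. -/
abbrev Lab : Type := B.S.G.G × (B.H.Idx → ℝ)

/-- The local group of labels. -/
def lg : LG B.Lab (E n × (E n →L[ℂ] E n)) where
  one := (B.S.G.lg.one, 0)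
  mul a b := (B.S.G.lg.mul a.1 b.1, a.2 + b.2)
  inv a := (B.S.G.lg.inv a.1, -a.2)
  jt a := B.S.G.lg.jt a.1
  L := B.S.G.lg.L
  ε := B.S.G.lg.ε
  L_ge := B.S.G.lg.L_ge
  ε_pos := B.S.G.lg.ε_pos
  inv_one := Prod.ext B.S.G.lg.inv_one neg_zero
  assoc a b c ha hb hc := Prod.ext (B.S.G.lg.assoc _ _ _ ha hb hc) (add_assoc _ _ _)
  one_mul a ha := Prod.ext (B.S.G.lg.one_mul _ ha) (zero_add _)
  mul_one a ha := Prod.ext (B.S.G.lg.mul_one _ ha) (add_zero _)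
  inv_mul a ha := Prod.ext (B.S.G.lg.inv_mul _ ha) (neg_add_cancel _)
  mul_inv a ha := Prod.ext (B.S.G.lg.mul_inv _ ha) (add_neg_cancel _)
  lip_r a b b' := B.S.G.lg.lip_r a.1 b.1 b'.1
  lip_l a a' b := B.S.G.lg.lip_l a.1 a'.1 b.1
  lip_inv a a' := B.S.G.lg.lip_inv a.1 a'.1
  comm a b := B.S.G.lg.comm a.1 b.1

/-- `g` is a return near `y` with label `l`. -/
def At (l : B.Lab) (y : E n) (g : Ret n) : Prop :=
  y ∈ ball B.S.G.y0 B.S.G.r ∧ ∃ O, IsRet B.S.M.T B.S.M.Ψ O g ∧ y ∈ O ∧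
    (∀ x ∈ O, g.γ x = B.S.G.γ l.1 x ∧ g.N x = B.S.G.N l.1 x) ∧
    ∀ i, ∀ p : P n, p.1 ∈ O → B.H.Fn i (g.act p) - B.H.Fn i p = l.2 i

/-- The domain of a label. -/
def Om (l : B.Lab) : Set (E n) := {y | ∃ g, B.At l y g}

open Classical in
/-- A value of `α` for the label. -/
noncomputable def al (l : B.Lab) (y : E n) : E n :=
  if h : y ∈ B.Om l then (Classical.choose h).α y else 0

/-- The single-valued holomorphic part. -/
noncomputable def bb (l : B.Lab) (y : E n) : E n := piI B.S.Q.I (B.al l y)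

/-- The height. -/
noncomputable def tt (l : B.Lab) (y : E n) : E n := tauI B.S.Q.I (B.al l y)

/-- The shift of the moment map. -/
noncomputable def rho (l : B.Lab) : E n := fun i =>
  if i ∈ B.S.Q.I then (l.2 (B.H.imom i) : ℂ) else 0

/-- The moment level of a label. -/
noncomputable def pl (l : B.Lab) : E n := B.A.r (B.S.G.y0, 0) - B.rho l

/-- Labels of size at most `e` that occur. -/
def Labs (e : ℝ) : Set B.Lab := {l | B.lg.sz l ≤ e ∧ (B.Om l).Nonempty}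

/-- The part of the domain below height `R`. -/
def Ml (l : B.Lab) (e R : ℝ) : Set (E n) :=
  {y | y ∈ ball B.S.G.y0 e ∧ y ∈ B.Om l ∧ ‖B.bb l y‖ < R ∧ ‖B.tt l y‖ < R}

/-- Energy. -/
noncomputable def En (l : B.Lab) (e R : ℝ) : ℝ≥0∞ :=
  ∫⁻ y in {y | y ∈ ball B.S.G.y0 e ∧ y ∈ B.Om l ∧ ‖B.bb l y‖ < R},
    ENNReal.ofReal (‖fderiv ℂ (B.bb l) y‖ ^ 2)

/-- Energy on the discs through `y`. -/
noncomputable def el (l : B.Lab) (y : E n) (s R : ℝ) : ℝ≥0∞ :=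
  ∫⁻ u in ball (0 : E n) 1, ∫⁻ t in ball (0 : ℂ) 1,
    {x | x ∈ B.Om l ∧ ‖B.bb l x‖ < R}.indicator
      (fun x => ENNReal.ofReal (s ^ 2 * ‖fderiv ℂ (B.bb l) x‖ ^ 2)) (y + (t * s) • u)

/-- The part of the domain where `bb` is `b`. -/
def Om0 (l : B.Lab) (b : E n → E n) : Set (E n) := {x | x ∈ B.Om l ∧ B.bb l =ᶠ[𝓝 x] b}

open Classical in
/-- The height, infinite off `Om0`. -/
noncomputable def ht (l : B.Lab) (b : E n → E n) (x : E n) : ℝ≥0∞ :=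
  if x ∈ B.Om0 l b then ENNReal.ofReal ‖B.tt l x‖ else ⊤

/-- The label is realised on a ball, with norm `m` and mean height `m'`. -/
structure Real (l : B.Lab) (y : E n) (t : ℝ) (b : E n → E n) (m m' : ℝ) : Prop where
  hol : DifferentiableOn ℂ b (ball y t)
  bd : ∀ x ∈ ball y t, ‖b x‖ ≤ m
  mem : ∀ x ∈ ball y t, piI B.S.Q.I (b x) = b x
  rho : ‖B.rho l‖ ≤ m
  m'_nonneg : 0 ≤ m'
  int : ∫⁻ x in ball y t, B.ht l b x ≤ ENNReal.ofReal m'

/-- For unboundedly many scales, realised labels point in every direction. -/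
def Atoms (e : ℝ) (y : E n) (t κ C : ℝ) : Prop :=
  ∀ R0, ∃ R ≥ R0, ∀ v ∈ EE B.S.Q.I, nsq v = 1 → ∃ l b m', B.lg.sz l ≤ e ∧
    B.Real l y t b (C * R) m' ∧ κ * R ≤ |ip (b y - Complex.I • B.rho l) v|

end Big

end Pool.Agent.CL
end

-- part Pool.Agent.P.MP_63735c_ag.CLAt
section

/-! Returns with a given label. -/

open scoped ContDiff Matrix ENNReal
open Set Metric MeasureTheory Filter Topology

namespace Pool.Agent.CL

open Pool.Agent.SPF

variable {n : ℕ} {X : Type} [TopologicalSpace X] [T2Space X] [MeasurableSpace X]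

namespace Big

variable {B : Big n X} {l l' : B.Lab} {y : E n} {g g' : Ret n}


omit [T2Space X] in
theorem clat_T {x : E n} (hx : x ∈ ball B.S.G.y0 (2 * B.S.G.r)) : x ∈ B.S.M.T :=
  B.S.G.sub (ball_subset_closedBall (ball_subset_ball (by linarith [B.S.G.r_pos]) hx))

omit [T2Space X] in
theorem clat_2 {x : E n} (hx : x ∈ ball B.S.G.y0 B.S.G.r) : x ∈ ball B.S.G.y0 (2 * B.S.G.r) :=
  ball_subset_ball (by linarith [B.S.G.r_pos]) hx

omit [T2Space X] in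
theorem clat_32 {x : E n} (hx : x ∈ ball B.S.G.y0 B.S.G.r) :
    x ∈ ball B.S.G.y0 (3 / 2 * B.S.G.r) :=
  ball_subset_ball (by linarith [B.S.G.r_pos]) hx

omit [T2Space X] in
theorem clat_N {j : B.S.G.G} (hy : y ∈ ball B.S.G.y0 B.S.G.r) (hg : Germ B.S.M.T B.S.M.Ψ y g)
    (hγ : g.γ =ᶠ[𝓝 y] B.S.G.γ j) : g.N =ᶠ[𝓝 y] B.S.G.N j := by
  refine hg.N_eq hγ ?_
  filter_upwards [isOpen_ball.mem_nhds (clat_2 hy)] with x hx
  exact B.S.G.pair j x hx

omit [T2Space X] in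
theorem clat_cont {T : Set (E n)} {Ψ : P n → X} (hg : Germ T Ψ y g) : ContinuousAt g.γ y := by
  obtain ⟨O, hO, hy⟩ := hg
  exact (hO.γ_hol.differentiableAt (hO.isOpen.mem_nhds hy)).continuousAt

theorem clat_single {I : Finset (Fin n)} {s : E n} (hs : ∀ k, k ∉ I → s k = 0) :
    s = ∑ i ∈ I, s i • (Pi.single i 1 : E n) := by
  funext k
  by_cases hk : k ∈ I
  · simp [Finset.sum_apply, Pi.single_apply, hk]
  · simp [Finset.sum_apply, Pi.single_apply, hk, hs k hk]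

omit [T2Space X] in
theorem clat_zi {s : E n} (hs : s ∈ ZI B.S.Q.I) : ∃ m, ∀ x ∈ B.S.M.T, zm B.S.Q.z m x = s := by
  choose! mm hmm using B.S.Q.e_mem
  choose k hk using fun i => (hs i).1
  refine ⟨∑ i ∈ B.S.Q.I, k i • mm i, fun x hx => ?_⟩
  rw [clat_single fun i => (hs i).2]
  have e : ∀ i ∈ B.S.Q.I, s i • (Pi.single i 1 : E n) =
      ∑ a, ((k i * mm i a : ℤ) : ℂ) • B.S.Q.z a x := by
    intro i hi
    rw [← hmm i hi x hx, hk i, zm, Finset.smul_sum]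
    simp [mul_smul]
  rw [Finset.sum_congr rfl e, Finset.sum_comm, zm]
  refine Finset.sum_congr rfl fun a _ => ?_
  rw [← Finset.sum_smul]
  simp [Finset.sum_apply]

theorem At.germ (h : B.At l y g) : Germ B.S.M.T B.S.M.Ψ y g ∧
    (∀ᶠ x in 𝓝 y, g.γ x = B.S.G.γ l.1 x ∧ g.N x = B.S.G.N l.1 x) ∧
    ∀ᶠ x in 𝓝 y, ∀ i ξ, B.H.Fn i (g.act (x, ξ)) - B.H.Fn i (x, ξ) = l.2 i := by
  obtain ⟨-, O, hO, hy, h1, h2⟩ := h
  refine ⟨⟨O, hO, hy⟩, ?_, ?_⟩
  · filter_upwards [hO.isOpen.mem_nhds hy] with x hx using h1 x hx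
  · filter_upwards [hO.isOpen.mem_nhds hy] with x hx i ξ using h2 i (x, ξ) hx

theorem At.sm (h : B.At l y g) (hl : B.lg.sz l ≤ B.lg.ε) : B.S.Sm l.1 y g :=
  ⟨hl, h.germ.1, h.germ.2.1.mono fun _ hx => hx.1⟩

theorem At.ev (h : B.At l y g) : ∀ᶠ x in 𝓝 y, B.At l x g := by
  obtain ⟨hb, O, hO, hy, h1, h2⟩ := h
  filter_upwards [isOpen_ball.mem_nhds hb, hO.isOpen.mem_nhds hy] with x hx1 hx2
  exact ⟨hx1, O, hO, hx2, h1, h2⟩

theorem clat_of (hy : y ∈ ball B.S.G.y0 B.S.G.r) (hg : Germ B.S.M.T B.S.M.Ψ y g)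
    (hγ : g.γ =ᶠ[𝓝 y] B.S.G.γ l.1)
    (hs : ∀ᶠ x in 𝓝 y, ∀ i ξ, B.H.Fn i (g.act (x, ξ)) - B.H.Fn i (x, ξ) = l.2 i) :
    B.At l y g := by
  have hN := clat_N hy hg hγ
  obtain ⟨O, hO, hyO⟩ := hg
  obtain ⟨U, hU, hUo, hyU⟩ := _root_.eventually_nhds_iff.1
    ((hγ.and hN).and (hs.and (hO.isOpen.mem_nhds hyO)))
  exact ⟨hy, U, hO.mono hUo fun x hx => (hU x hx).2.2, hyU, fun x hx => (hU x hx).1,
    fun i p hp => (hU p.1 hp).2.1 i p.2⟩

theorem At.congr (h : B.At l y g) (he : Ret.Eq y g g') : B.At l y g' := by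
  obtain ⟨h1, h2, h3⟩ := h.germ
  refine clat_of h.1 (h1.congr he) ?_ ?_
  · filter_upwards [he, h2] with x a b
    rw [← a.1, b.1]
  · filter_upwards [he, h3] with x a b i ξ
    rw [← b i ξ]
    simp only [Ret.act, a.1, a.2.1, a.2.2]

/-- Criterion for `At`. -/
theorem at_of (hy : y ∈ ball B.S.G.y0 B.S.G.r) (hg : Germ B.S.M.T B.S.M.Ψ y g)
    (hγ : g.γ =ᶠ[𝓝 y] B.S.G.γ l.1)
    (hs : ∀ᶠ x in 𝓝 y, ∀ i ξ, B.H.Fn i (g.act (x, ξ)) - B.H.Fn i (x, ξ) = l.2 i) :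
    B.At l y g :=
  clat_of hy hg hγ hs

theorem at_of_sm {j : B.S.G.G} (hy : y ∈ ball B.S.G.y0 B.S.G.r) (h : B.S.Sm j y g) :
    ∃ sh, B.At (j, sh) y g := by
  obtain ⟨hj, hg, hγ⟩ := h
  have hp := B.S.pres j hj y (clat_2 hy) g hg hγ
  have hN := clat_N hy hg hγ
  obtain ⟨O, hO, hyO⟩ := id hg
  obtain ⟨ρ, hρ, hU⟩ := Metric.eventually_nhds_iff_ball.1 ((hγ.and hN).and
    ((isOpen_ball.eventually_mem (clat_2 hy)).and (hO.isOpen.eventually_mem hyO)))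
  have hr : IsRet B.S.M.T B.S.M.Ψ (ball y ρ) g := hO.mono isOpen_ball fun x hx => (hU x hx).2.2
  choose c hc using fun i => B.H.shift i _ g hr (convex_ball y ρ) fun x hx k => by
    rw [(hU x hx).1.1, (hU x hx).1.2]
    exact hp k x (hU x hx).2.1
  refine ⟨c, at_of hy hg hγ ?_⟩
  filter_upwards [ball_mem_nhds y hρ] with x hx i ξ using hc i (x, ξ) hx

theorem At.uniq (h : B.At l y g) (h' : B.At l y g') :
    ∃ s ∈ ZI B.S.Q.I, ∀ᶠ x in 𝓝 y, g'.α x = g.α x + s := by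
  obtain ⟨-, O, hO, hy, h1, h2⟩ := h
  obtain ⟨-, O', hO', hy', h1', h2'⟩ := h'
  have key : ∀ x ∈ O ∩ O', ∀ ξ, g'.act (x, ξ) = g.act (x, ξ - (g'.α x - g.α x)) := by
    intro x hx ξ
    simp only [Ret.act]
    rw [(h1 x hx.1).1, (h1 x hx.1).2, (h1' x hx.2).1, (h1' x hx.2).2, sub_sub, sub_add_cancel]
  have hr : IsRet B.S.M.T B.S.M.Ψ (O ∩ O') (Ret.per fun x => g'.α x - g.α x) :=
    { isOpen := hO.isOpen.inter hO'.isOpen
      sub := inter_subset_left.trans hO.sub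
      γ_hol := differentiableOn_id
      α_hol := (hO'.α_hol.mono inter_subset_right).sub (hO.α_hol.mono inter_subset_left)
      N_hol := differentiableOn_const _
      maps := fun x hx => hO.sub hx.1
      pair := fun x _ ξ u => by simp [Ret.per]
      eq := fun x hx ξ => by
        rw [← hO'.eq x hx.2 ξ, key x hx, hO.eq x hx.1]
        rfl }
  obtain ⟨m, hm⟩ := B.S.Q.per0.all y (hO.sub hy) _ ⟨_, hr, hy, hy'⟩
  obtain ⟨s, hs, hz⟩ := B.H.rad m y (hO.sub hy) fun i => by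
    have a := h2' i (y, 0) hy'
    have b := h2 i (y, 0 - (g'.α y - g.α y)) hy
    rw [key y ⟨hy, hy'⟩] at a
    rw [← hm.eq_of_nhds, ← zero_sub]
    linarith
  refine ⟨s, hs, ?_⟩
  filter_upwards [hm, hO.isOpen.mem_nhds hy] with x a b
  rw [← hz x (hO.sub b), ← a, add_sub_cancel]

theorem At.shift (h : B.At l y g) {s : E n} (hs : s ∈ ZI B.S.Q.I) :
    B.At l y ⟨g.γ, fun x => g.α x + s, g.N⟩ := by
  obtain ⟨hb, O, hO, hy, h1, h2⟩ := h
  obtain ⟨m, hm⟩ := clat_zi hs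
  have hz := isRet_zm B.S.M.T_open subset_rfl B.S.Q.per0.z_ret m
  have key : ∀ x ξ, (⟨g.γ, fun x => g.α x + s, g.N⟩ : Ret n).act (x, ξ) = g.act (x, ξ - s) := by
    intro x ξ
    simp only [Ret.act]
    rw [sub_sub, add_comm s]
  refine ⟨hb, O, ⟨hO.isOpen, hO.sub, hO.γ_hol, hO.α_hol.add_const s, hO.N_hol, hO.maps, hO.pair,
    fun x hx ξ => ?_⟩, hy, h1, fun i p hp => ?_⟩
  · rw [key, hO.eq x hx, ← hz.eq x (hO.sub hx) ξ, ← hm x (hO.sub hx)]
    rfl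
  · obtain ⟨x, ξ⟩ := p
    have a := B.H.zinv i s hs x (hO.sub hp) (ξ - s)
    rw [sub_add_cancel] at a
    rw [key, a]
    exact h2 i (x, ξ - s) hp

theorem At.lab (h : B.At l y g) (h' : B.At l' y g') (he : Ret.Eq y g g') : l = l' := by
  obtain ⟨-, h2, h3⟩ := h.germ
  obtain ⟨-, h2', h3'⟩ := h'.germ
  have e : B.S.G.γ l.1 =ᶠ[𝓝 y] B.S.G.γ l'.1 := by
    filter_upwards [he, h2, h2'] with x a b c
    rw [← b.1, ← c.1, a.1]
  have ej : jet (B.S.G.γ l.1) y = jet (B.S.G.γ l'.1) y := by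
    rw [jet, jet, e.eq_of_nhds, e.fderiv_eq]
  have c := B.S.G.cmp l.1 l'.1 B.S.G.y0 (mem_ball_self (by linarith [B.S.G.r_pos])) y
    (clat_2 h.1)
  rw [ej, sub_self, norm_zero, mul_zero, norm_le_zero_iff, sub_eq_zero, ← B.S.G.jt_eq,
    ← B.S.G.jt_eq] at c
  refine Prod.ext (B.S.G.jt_inj c) (funext fun i => ?_)
  have a := he.self_of_nhds
  rw [← h3.self_of_nhds i 0, ← h3'.self_of_nhds i 0]
  simp only [Ret.act, a.1, a.2.1, a.2.2]

theorem At.fix (h : B.At l y g) (hl : B.lg.sz l ≤ B.lg.ε) :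
    (∀ m, ∀ x ∈ ball B.S.G.y0 (2 * B.S.G.r),
      B.S.G.N l.1 x (zm B.S.Q.z m x) = zm B.S.Q.z m (B.S.G.γ l.1 x)) ∧
    ∀ x ∈ ball B.S.G.y0 (2 * B.S.G.r), ∀ s, piI B.S.Q.I s = 0 →
      B.S.G.N l.1 x s = s ∧ tr (fderiv ℂ (B.S.G.γ l.1) x) s = s := by
  obtain ⟨hj, hg, hγ⟩ := h.sm hl
  have hp := B.S.pres l.1 hj y (clat_2 h.1) g hg hγ
  have h1 : ∀ m, ∀ x ∈ ball B.S.G.y0 (2 * B.S.G.r),
      B.S.G.N l.1 x (zm B.S.Q.z m x) = zm B.S.Q.z m (B.S.G.γ l.1 x) := by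
    intro m x hx
    simp only [zm, map_sum, map_smul, hp _ x hx]
  refine ⟨h1, fun x hx s hs => ?_⟩
  have hT : B.S.G.γ l.1 x ∈ B.S.M.T := by
    refine B.S.G.sub ?_
    have a := (B.S.G.near l.1 hj x hx).1
    have b := B.S.G.small.trans (min_le_left _ _)
    have c := mul_le_mul_of_nonneg_left hj (zero_le_one.trans B.S.G.lg.L_ge)
    have d := dist_triangle (B.S.G.γ l.1 x) x B.S.G.y0
    rw [mem_ball] at hx
    rw [dist_eq_norm (B.S.G.γ l.1 x) x] at d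
    rw [mem_closedBall]
    linarith [B.S.G.r_pos]
  have hN : B.S.G.N l.1 x s = s := by
    have e := clat_single (I := B.S.Q.I) (s := s) fun k hk => by
      have := congrFun hs k
      rwa [piI_apply, if_neg hk] at this
    rw [e, map_sum]
    refine Finset.sum_congr rfl fun i hi => ?_
    obtain ⟨m, hm⟩ := B.S.Q.e_mem i hi
    rw [map_smul, ← hm x (clat_T hx), h1 m x hx, hm x (clat_T hx), hm _ hT]
  refine ⟨hN, ?_⟩
  have := (pair_inv (B.S.G.pair l.1 x hx)).2.1 s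
  rwa [hN] at this

theorem rho_mem (l : B.Lab) : B.rho l ∈ RI B.S.Q.I := fun k => by
  by_cases h : k ∈ B.S.Q.I <;> simp [rho, h]

theorem rho_mul (l l' : B.Lab) : B.rho (B.lg.mul l l') = B.rho l + B.rho l' ∧
    B.rho (B.lg.inv l) = -B.rho l ∧ B.rho B.lg.one = 0 := by
  refine ⟨?_, ?_, ?_⟩ <;> funext k <;> by_cases h : k ∈ B.S.Q.I <;> simp [rho, lg, h]

theorem At.mom (h : B.At l y g) :
    ∀ᶠ x in 𝓝 y, ∀ ξ, B.A.r (g.act (x, ξ)) = B.A.r (x, ξ) + B.rho l := by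
  filter_upwards [h.germ.2.2] with x hx ξ
  funext k
  have a := B.A.r_mem (g.act (x, ξ)) k
  have b := B.A.r_mem (x, ξ) k
  have c := hx (B.H.imom k) ξ
  rw [B.H.mom, B.H.mom] at c
  by_cases hk : k ∈ B.S.Q.I
  · refine Complex.ext ?_ ?_
    · simp only [rho, Pi.add_apply, if_pos hk, Complex.add_re, Complex.ofReal_re]
      linarith
    · simp [rho, hk, a.1, b.1]
  · simp [rho, hk, a.2 hk, b.2 hk]

theorem At.mom0 (h : B.At l y g) :
    B.A.r (y, g.α y) = B.A.r (B.S.G.γ l.1 y, 0) - B.rho l := by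
  have a := h.mom.self_of_nhds (g.α y)
  have b : g.act (y, g.α y) = (B.S.G.γ l.1 y, 0) := by
    simp [Ret.act, h.germ.2.1.self_of_nhds.1]
  rw [← b, a, add_sub_cancel_right]

theorem at_one (hy : y ∈ ball B.S.G.y0 B.S.G.r) :
    B.At B.lg.one y (Ret.per fun _ => 0) := by
  refine at_of hy ⟨_, isRet_one B.S.M.T_open, clat_T (clat_2 hy)⟩
    (Eventually.of_forall fun x => (B.S.G.γ_one x).symm) (Eventually.of_forall fun x i ξ => ?_)
  simp [Ret.act, Ret.per, lg]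

theorem At.mul (h : B.At l y g) (h' : B.At l' (B.S.G.γ l.1 y) g') (hl : B.lg.sz l ≤ B.lg.ε)
    (hl' : B.lg.sz l' ≤ B.lg.ε) : B.At (B.lg.mul l' l) y (g'.comp g) := by
  obtain ⟨h1, h2, h3⟩ := h.germ
  obtain ⟨h1', h2', h3'⟩ := h'.germ
  rw [← h2.self_of_nhds.1] at h1' h2' h3'
  obtain ⟨c1, c2⟩ := h1.comp h1'
  have hc := clat_cont h1
  refine at_of h.1 c1 ?_ ?_
  · filter_upwards [h2, hc.eventually h2', isOpen_ball.mem_nhds (clat_32 h.1)] with x a b c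
    have e := B.S.G.γ_mul l'.1 l.1 hl' hl x c
    rw [← a.1, ← b.1] at e
    exact e.symm
  · filter_upwards [h3, hc.eventually h3', c2] with x a b c i ξ
    have e : B.H.Fn i (g'.act (g.act (x, ξ))) - B.H.Fn i (g.act (x, ξ)) = l'.2 i := b i _
    have e' := a i ξ
    rw [c]
    change _ = l'.2 i + l.2 i
    linarith

theorem At.inv (h : B.At l y g) (hl : B.lg.L * B.lg.sz l ≤ B.lg.ε)
    (hy : B.S.G.γ l.1 y ∈ ball B.S.G.y0 B.S.G.r) :
    ∃ g', B.At (B.lg.inv l) (B.S.G.γ l.1 y) g' ∧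
      ∀ᶠ x in 𝓝 y, g'.γ (g.γ x) = x ∧ g'.α (g.γ x) = -g.N x (g.α x) ∧
        ∀ ξ, g'.act (g.act (x, ξ)) = (x, ξ) := by
  obtain ⟨h1, h2, h3⟩ := h.germ
  obtain ⟨g', a1, a2, a3⟩ := B.S.M.inv h1
  have s0 : 0 ≤ B.lg.sz l := norm_nonneg _
  have s1 : B.lg.sz l ≤ B.lg.ε := by nlinarith [B.lg.L_ge]
  have s2 : B.lg.sz (B.lg.inv l) ≤ B.lg.ε := by
    have := B.lg.lip_inv l B.lg.one s1 (by simpa using B.lg.ε_pos.le)
    rw [B.lg.inv_one] at this
    exact this.trans hl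
  have hc : Tendsto g'.γ (𝓝 (g.γ y)) (𝓝 y) := by
    have := (clat_cont a1).tendsto
    rwa [a2.self_of_nhds.1] at this
  refine ⟨g', ?_, a2⟩
  rw [← h2.self_of_nhds.1] at hy ⊢
  refine at_of hy a1 ?_ ?_
  · filter_upwards [a3, hc.eventually h2, hc.eventually (isOpen_ball.mem_nhds (clat_32 h.1))]
      with x a b c
    have e := B.S.G.γ_mul (B.lg.inv l).1 l.1 s2 s1 _ c
    have e2 : B.S.G.lg.mul (B.lg.inv l).1 l.1 = B.S.G.lg.one := B.S.G.lg.inv_mul l.1 s1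
    rw [e2, B.S.G.γ_one, ← b.1, a.1] at e
    exact e
  · filter_upwards [a3, hc.eventually h3] with x a b i ξ
    have e : B.H.Fn i (g.act (g'.act (x, ξ))) - B.H.Fn i (g'.act (x, ξ)) = l.2 i := b i _
    rw [a.2] at e
    change _ = -l.2 i
    linarith


end Big

end Pool.Agent.CL
end

-- part Pool.Agent.P.MP_63735c_ag.CLOm
section

/-! The domain of a label. -/

open scoped ContDiff Matrix ENNReal
open Set Metric MeasureTheory Filter Topology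

namespace Pool.Agent.CL

open Pool.Agent.SPF

variable {n : ℕ} {X : Type} [TopologicalSpace X] [T2Space X] [MeasurableSpace X]

namespace Big

variable {B : Big n X} {l l' : B.Lab} {y : E n} {g g' : Ret n}


theorem isOpen_Om (l : B.Lab) : IsOpen (B.Om l) :=
  isOpen_iff_mem_nhds.2 fun _ ⟨g, h⟩ => h.ev.mono fun _ hx => ⟨g, hx⟩

theorem Om_sub (l : B.Lab) : B.Om l ⊆ ball B.S.G.y0 B.S.G.r := fun _ ⟨_, h⟩ => h.1

theorem clom_pt (h : B.At l y g) :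
    B.bb l y = piI B.S.Q.I (g.α y) ∧ B.tt l y = tauI B.S.Q.I (g.α y) := by
  have hy : y ∈ B.Om l := ⟨g, h⟩
  obtain ⟨s, hs, he⟩ := h.uniq (Classical.choose_spec hy)
  have ha : B.al l y = g.α y + s := by
    rw [al, dif_pos hy]
    exact he.self_of_nhds
  have hp := RI.proj (ZI.sub_RI hs)
  rw [bb, tt, ha, map_add, map_add, hp.1, hp.2.1, add_zero, add_zero]
  exact ⟨rfl, rfl⟩

theorem At.bt (h : B.At l y g) : ∀ᶠ x in 𝓝 y, x ∈ B.Om l ∧ B.bb l x = piI B.S.Q.I (g.α x) ∧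
    B.tt l x = tauI B.S.Q.I (g.α x) :=
  h.ev.mono fun _ hx => ⟨⟨g, hx⟩, clom_pt hx⟩

theorem bb_hol (l : B.Lab) : DifferentiableOn ℂ (B.bb l) (B.Om l) := by
  rintro y ⟨g, h⟩
  obtain ⟨O, hO, hy⟩ := h.germ.1
  exact (((piI B.S.Q.I).differentiableAt.comp y
    (hO.α_hol.differentiableAt (hO.isOpen.mem_nhds hy))).congr_of_eventuallyEq
      (h.bt.mono fun x hx => hx.2.1)).differentiableWithinAt

theorem tt_smooth (l : B.Lab) : ContDiffOn ℝ ∞ (B.tt l) (B.Om l) := by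
  rintro y ⟨g, h⟩
  obtain ⟨O, hO, hy⟩ := h.germ.1
  exact (((tauI B.S.Q.I).contDiff.contDiffAt.comp y
    ((hol_smooth hO.isOpen hO.α_hol).2.1.contDiffAt (hO.isOpen.mem_nhds hy))).congr_of_eventuallyEq
      (h.bt.mono fun x hx => hx.2.2)).contDiffWithinAt

/-- A representative with small real part. -/
theorem exists_at (hy : y ∈ B.Om l) : ∃ g, B.At l y g ∧ ‖reI B.S.Q.I (g.α y)‖ ≤ 1 ∧
    ‖g.α y‖ ≤ 1 + ‖B.bb l y‖ + ‖B.tt l y‖ := by
  obtain ⟨g, h⟩ := hy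
  let s : E n := fun k => if k ∈ B.S.Q.I then ((-⌊(g.α y k).re⌋ : ℤ) : ℂ) else 0
  have hs : s ∈ ZI B.S.Q.I := fun k => by
    by_cases hk : k ∈ B.S.Q.I
    · exact ⟨⟨_, if_pos hk⟩, fun h => absurd hk h⟩
    · exact ⟨⟨0, by simp [s, hk]⟩, fun _ => if_neg hk⟩
  have h1 : ‖reI B.S.Q.I (g.α y + s)‖ ≤ 1 := by
    refine (pi_norm_le_iff_of_nonneg zero_le_one).2 fun k => ?_
    rw [reI_apply]
    split_ifs with hk
    · have e : ((g.α y + s) k).re = Int.fract (g.α y k).re := by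
        simp [s, hk, Int.fract, sub_eq_add_neg]
      rw [e, Complex.norm_real, Real.norm_eq_abs, abs_of_nonneg (Int.fract_nonneg _)]
      exact (Int.fract_lt_one _).le
    · simp
  refine ⟨_, h.shift hs, h1, ?_⟩
  obtain ⟨e1, e2⟩ := clom_pt (h.shift hs)
  rw [e1, e2]
  have h2 := norm_add₃_le (a := reI B.S.Q.I (g.α y + s))
    (b := Complex.I • tauI B.S.Q.I (g.α y + s)) (c := piI B.S.Q.I (g.α y + s))
  rw [← split_I, norm_smul, Complex.norm_I, one_mul] at h2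
  exact h2.trans (by linarith)

theorem clom_cont (hy : y ∈ B.Om l) :
    ContinuousAt (fun x => ‖B.bb l x‖) y ∧ ContinuousAt (fun x => ‖B.tt l x‖) y :=
  ⟨((bb_hol l).continuousOn.continuousAt ((isOpen_Om l).mem_nhds hy)).norm,
    ((tt_smooth l).continuousOn.continuousAt ((isOpen_Om l).mem_nhds hy)).norm⟩

theorem clom_T (hl : B.lg.sz l ≤ B.lg.ε) (hy : y ∈ ball B.S.G.y0 B.S.G.r) :
    y ∈ ball B.S.G.y0 (2 * B.S.G.r) ∧ y ∈ B.S.M.T ∧ B.S.G.γ l.1 y ∈ B.S.M.T := by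
  have r0 := B.S.G.r_pos
  have h2 : y ∈ ball B.S.G.y0 (2 * B.S.G.r) := ball_subset_ball (by linarith) hy
  refine ⟨h2, B.S.G.sub (ball_subset_closedBall (ball_subset_ball (by linarith) hy)),
    B.S.G.sub ?_⟩
  have h3 := (B.S.G.near l.1 hl y h2).1
  have h4 := B.S.G.small.trans (min_le_left _ _)
  have h5 : B.S.G.lg.L * B.S.G.lg.sz l.1 ≤ B.S.G.lg.L * B.S.G.lg.ε :=
    mul_le_mul_of_nonneg_left hl (by linarith [B.S.G.lg.L_ge])
  rw [mem_ball] at hy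
  rw [mem_closedBall]
  rw [← dist_eq_norm] at h3
  linarith [dist_triangle (B.S.G.γ l.1 y) y B.S.G.y0]

theorem proper (hl : B.lg.sz l ≤ B.lg.ε) {K : Set (E n)} (hK : IsCompact K)
    (hs : K ⊆ ball B.S.G.y0 B.S.G.r) (M : ℝ) :
    IsCompact {x | x ∈ K ∧ x ∈ B.Om l ∧ ‖B.bb l x‖ ≤ M ∧ ‖B.tt l x‖ ≤ M} := by
  refine isCompact_iff_ultrafilter_le_nhds.2 fun U hU => ?_
  have hm := le_principal_iff.1 hU
  obtain ⟨y, hy, hUy⟩ := hK.ultrafilter_le_nhds U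
    (le_principal_iff.2 (mem_of_superset hm fun x hx => hx.1))
  have : Nonempty (Ret n) := ⟨Ret.per 0⟩
  choose! G hG using fun x (hx : x ∈ B.Om l) => exists_at hx
  have hA : ∀ᶠ x in (U : Filter (E n)), B.At l x (G x) :=
    mem_of_superset hm fun x hx => (hG x hx.2.1).1
  obtain ⟨ξ, -, hξ⟩ := (isCompact_closedBall (0 : E n) (1 + M + M)).ultrafilter_le_nhds
    (U.map fun x => (G x).α x) (le_principal_iff.2 (Ultrafilter.mem_map.2 (mem_of_superset hm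
      fun x hx => by
        rw [mem_preimage, mem_closedBall_zero_iff]
        linarith [(hG x hx.2.1).2.2, hx.2.2.1, hx.2.2.2])))
  obtain ⟨y2, yT, γT⟩ := clom_T hl (hs hy)
  have hγ : Tendsto (fun x => (G x).γ x) U (𝓝 (B.S.G.γ l.1 y)) :=
    (((B.S.G.γ_hol l.1).continuousOn.continuousAt (isOpen_ball.mem_nhds y2)).tendsto.mono_left
      hUy).congr' (hA.mono fun x hx => hx.germ.2.1.self_of_nhds.1.symm)
  obtain ⟨g', ρ, ρ0, hr, -, -, he⟩ := B.S.M.lim (x := fun x => x) (g := G) yT γT hUy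
    (hA.mono fun x hx => hx.germ.1) hξ hγ
  have hO : IsOpen (ball y ρ ∩ ball B.S.G.y0 (2 * B.S.G.r)) := isOpen_ball.inter isOpen_ball
  have hn := hO.mem_nhds ⟨mem_ball_self ρ0, y2⟩
  have h1 : g'.γ =ᶠ[𝓝 y] B.S.G.γ l.1 := by
    obtain ⟨x, x1, x2, x3⟩ := (hA.and (he.and (hUy hn))).exists
    refine (hol_ident hO ((convex_ball _ _).inter (convex_ball _ _)).isPreconnected
      (hr.γ_hol.mono inter_subset_left) ((B.S.G.γ_hol l.1).mono inter_subset_right) x3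
      ?_).eventuallyEq_of_mem hn
    filter_upwards [x1.germ.2.1, x2.2] with w w1 w2
    exact w2.1.symm.trans w1.1
  obtain ⟨sh, h2⟩ := at_of_sm (hs hy) ⟨hl, ⟨_, hr, mem_ball_self ρ0⟩, h1⟩
  obtain ⟨x, x1, x2, x3⟩ := (hA.and (he.and (h2.ev.filter_mono hUy))).exists
  rw [← x1.lab x3 x2.2] at h2
  have hy' : y ∈ B.Om l := ⟨_, h2⟩
  exact ⟨y, ⟨hy, hy', le_of_tendsto ((clom_cont hy').1.tendsto.mono_left hUy)
    (mem_of_superset hm fun x hx => hx.2.2.1), le_of_tendsto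
      ((clom_cont hy').2.tendsto.mono_left hUy) (mem_of_superset hm fun x hx => hx.2.2.2)⟩, hUy⟩

theorem countable_Labs (B : Big n X) (e : ℝ) : (B.Labs e).Countable := by
  obtain ⟨u, hu⟩ := TopologicalSpace.exists_dense_seq (E n)
  have C0 : 0 < B.S.M.C0 := by linarith [B.S.M.C0_ge]
  have hc := div_pos B.S.M.c0_pos C0
  refine (countable_iUnion fun i => countable_iUnion fun j => Set.Subsingleton.countable
    (s := {l : B.Lab | ∃ g, B.At l (u i) g ∧ dist (g.α (u i)) (u j) < B.S.M.c0 / B.S.M.C0})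
    ?_).mono fun l hl => ?_
  · rintro l ⟨g, h, hd⟩ l' ⟨g', h', hd'⟩
    refine h.lab h' (B.S.M.sep0 h.germ.1 h'.germ.1 ?_)
    rw [← dist_eq_norm, ← lt_div_iff₀' C0, mul_div_assoc]
    linarith [dist_triangle_right (g.α (u i)) (g'.α (u i)) (u j)]
  · obtain ⟨i, g, h⟩ := hu.exists_mem_open (isOpen_Om l) hl.2
    obtain ⟨j, hj⟩ := hu.exists_dist_lt (g.α (u i)) hc
    exact mem_iUnion.2 ⟨i, mem_iUnion.2 ⟨j, g, h, hj⟩⟩

theorem isOpen_Om0 (l : B.Lab) (b : E n → E n) : IsOpen (B.Om0 l b) :=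
  (isOpen_Om l).inter isOpen_setOfPred_eventually_nhds

theorem measurable_ht (l : B.Lab) (b : E n → E n) : Measurable (B.ht l b) := by
  classical
  exact ContinuousOn.measurable_piecewise (s := B.Om0 l b)
    (f := fun x => ENNReal.ofReal ‖B.tt l x‖) (g := fun _ => ⊤)
    (fun x hx => (ENNReal.continuous_ofReal.continuousAt.comp
      (clom_cont hx.1).2).continuousWithinAt) continuousOn_const (isOpen_Om0 l b).measurableSet

/-- Properness of the height on `Om0`. -/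
theorem proper0 (hl : B.lg.sz l ≤ B.lg.ε) {O K : Set (E n)} {b : E n → E n} (hO : IsOpen O)
    (hb : DifferentiableOn ℂ b O) (hK : IsCompact K) (hKO : K ⊆ O)
    (hs : K ⊆ ball B.S.G.y0 B.S.G.r) (M : ℝ) :
    IsCompact {x | x ∈ K ∧ x ∈ B.Om0 l b ∧ ‖B.tt l x‖ ≤ M} := by
  obtain ⟨M', hM'⟩ := hK.exists_bound_of_continuousOn (hb.continuousOn.mono hKO)
  have hc := proper hl hK hs (max M M')
  have hsub : {x | x ∈ K ∧ x ∈ B.Om0 l b ∧ ‖B.tt l x‖ ≤ M} ⊆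
      {x | x ∈ K ∧ x ∈ B.Om l ∧ ‖B.bb l x‖ ≤ max M M' ∧ ‖B.tt l x‖ ≤ max M M'} := fun x hx =>
    ⟨hx.1, hx.2.1.1, by
      rw [hx.2.1.2.self_of_nhds]
      exact le_max_of_le_right (hM' x hx.1), le_max_of_le_left hx.2.2⟩
  refine hc.of_isClosed_subset (isClosed_of_closure_subset fun y hy => ?_) hsub
  obtain ⟨y1, y2, -⟩ := closure_minimal hsub hc.isClosed hy
  obtain ⟨ρ, ρ0, hρ⟩ := Metric.isOpen_iff.1 (hO.inter (isOpen_Om l)) y ⟨hKO y1, y2⟩
  obtain ⟨x, x1, x2⟩ := Metric.mem_closure_iff.1 hy ρ ρ0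
  refine ⟨y1, ⟨y2, ?_⟩, ContinuousWithinAt.closure_le hy (clom_cont y2).2.continuousWithinAt
    continuousWithinAt_const fun x hx => hx.2.2⟩
  exact (hol_ident isOpen_ball (convex_ball y ρ).isPreconnected
    ((bb_hol l).mono fun w hw => (hρ hw).2) (hb.mono fun w hw => (hρ hw).1) (mem_ball'.2 x2)
    x1.2.1.2).eventuallyEq_of_mem (ball_mem_nhds y ρ0)

theorem Real.mono {t t' m m' : ℝ} {b : E n → E n} {y' : E n} (h : B.Real l y t b m m')
    (hs : ball y' t' ⊆ ball y t) : B.Real l y' t' b m m' :=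
  ⟨h.hol.mono hs, fun x hx => h.bd x (hs hx), fun x hx => h.mem x (hs hx), h.rho, h.m'_nonneg,
    (lintegral_mono_set hs).trans h.int⟩


end Big

end Pool.Agent.CL
end
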