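import Pool.Agent.K.MP_63735c_ag.C111
import Pool.Agent.K.MP_63735c_ag.C70

/-! The area form on the lattice of periods and its radical. -/

open scoped ContDiff Matrix ENNReal
open Set Metric MeasureTheory Filter Topology

namespace Pool.Agent.CL

open Pool.Agent.SPF

variable {n : ℕ}

lemma zm_add {r0 : ℕ} (z : Fin r0 → E n → E n) (m m' : Fin r0 → ℤ) (y : E n) :
    zm z (m + m') y = zm z m y + zm z m' y := by
  simp only [zm_eq, Pi.add_apply, add_smul, Finset.sum_add_distrib]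

lemma zm_neg {r0 : ℕ} (z : Fin r0 → E n → E n) (m : Fin r0 → ℤ) (y : E n) :
    zm z (-m) y = -zm z m y := by
  simp only [zm_eq, Pi.neg_apply, neg_smul, Finset.sum_neg_distrib]

lemma zm_single {r0 : ℕ} (z : Fin r0 → E n → E n) (k : Fin r0) (y : E n) :
    zm z (Pi.single k 1) y = z k y := by
  simp [zm_eq, Pi.single_apply]

lemma zm_real {r0 : ℕ} (z : Fin r0 → E n → E n) (m : Fin r0 → ℤ) (y : E n) :
    zm z m y = ∑ k, (m k : ℝ) • z k y := by
  simp only [zm_eq, Int.cast_smul_eq_zsmul]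

lemma zm_sum {r0 ρ : ℕ} (z : Fin r0 → E n → E n) (e : Fin ρ → Fin r0 → ℤ) (s : Fin ρ → ℤ)
    (y : E n) : zm z (∑ i, s i • e i) y = ∑ i, s i • zm z (e i) y := by
  simp only [zm_eq, Finset.sum_apply, Pi.smul_apply, smul_eq_mul, Finset.sum_smul,
    Finset.smul_sum, mul_smul]
  exact Finset.sum_comm

lemma clper_hom {r0 : ℕ} (f : (Fin r0 → ℤ) → ℝ) (h : ∀ a b, f (a + b) = f a + f b)
    (m : Fin r0 → ℤ) : f m = ∑ k, m k * f (Pi.single k 1) := by
  let φ : (Fin r0 → ℤ) →+ ℝ := AddMonoidHom.mk' f h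
  have e : m = ∑ k, m k • (Pi.single k 1 : Fin r0 → ℤ) := by
    ext l
    simp [Pi.single_apply]
  change φ m = ∑ k, m k * φ (Pi.single k 1)
  conv_lhs => rw [e, map_sum]
  exact Finset.sum_congr rfl fun k _ => by rw [map_zsmul, zsmul_eq_mul]

/-- The area of a parallelogram of periods is a constant bilinear form. -/
theorem par_bil {X : Type} {T V : Set (E n)} {Ψ : P n → X} {t : Form2 (P n)} (hT : IsOpen T)
    (hc : Convex ℝ T) (ht : IsForm T Ψ t) (hO : IsOpen V) (hV : Convex ℝ V) (hs : V ⊆ T) {r0 : ℕ}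
    {z : Fin r0 → E n → E n} (hz : ∀ k, IsRet T Ψ V (Ret.per (z k))) :
    ∃ ν : Fin r0 → Fin r0 → ℝ, ∀ m m', ∀ y ∈ V, ∀ ξ,
      par (leaf t y) ξ (zm z m y) (zm z m' y) = ∑ l, ∑ k, m l * m' k * ν l k := by
  rcases V.eq_empty_or_nonempty with rfl | ⟨y0, hy0⟩
  · exact ⟨0, fun _ _ _ h => h.elim⟩
  have hr := isRet_zm hO hs hz
  have hi : ∀ m, Inv t V (Ret.per (zm z m)) := fun m => ht.inv V _ (hr m)
  have hA := rad_prim (hT.prod isOpen_univ) (hc.prod convex_univ) ht.closed
    (o := (y0, 0)) ⟨hs hy0, trivial⟩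
  have hcl := leaf_closed hT ht.closed (hs hy0)
  let f : (Fin r0 → ℤ) → (Fin r0 → ℤ) → ℝ := fun m m' =>
    par (leaf t y0) 0 (zm z m y0) (zm z m' y0)
  have h1 : ∀ m m', ∀ y ∈ V, ∀ ξ, par (leaf t y) ξ (zm z m y) (zm z m' y) = f m m' := by
    intro m m'
    obtain ⟨c, hc⟩ := Pi_shift hT hA hV (hr m) (hi m) (o := (y0, 0)) hy0 (hr (-m')) hV Subset.rfl
      (fun _ h => h) (hi (-m')) fun _ _ => rfl
    have h2 : ∀ y ∈ V, ∀ ξ, par (leaf t y) ξ (zm z m y) (zm z m' y) = c := by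
      intro y hy ξ
      rw [← Pi_leaf hT hA hV (hr m) (hi m) (o := (y0, 0)) hy0 hy, ← hc (y, ξ) hy, per_act, zm_neg,
        sub_neg_eq_add]
    intro y hy ξ
    rw [h2 y hy ξ]
    exact (h2 y0 hy0 0).symm
  have h3 : ∀ m a b, f m (a + b) = f m a + f m b := by
    intro m a b
    have := (par_per hcl (leaf_per (hr m) (hi m) hy0)).1 0 (zm z a y0) (zm z b y0)
    rw [← zm_add, h1 m _ y0 hy0, h1 m _ y0 hy0, h1 m _ y0 hy0] at this
    exact this
  have h4 : ∀ a b, f a b = -f b a := fun a b => par_skew hcl _ _ _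
  refine ⟨fun l k => f (Pi.single l 1) (Pi.single k 1), fun m m' y hy ξ => ?_⟩
  rw [h1 m m' y hy ξ, clper_hom (fun a => f a m') (fun a b => by
    rw [h4, h3, h4 a, h4 b]; ring) m]
  refine Finset.sum_congr rfl fun l _ => ?_
  rw [clper_hom _ (h3 _) m', Finset.mul_sum]
  exact Finset.sum_congr rfl fun k _ => (mul_assoc _ _ _).symm

lemma clper_floor {F : Type} [NormedAddCommGroup F] [NormedSpace ℝ F] {ρ : ℕ} (w : Fin ρ → F)
    (a : Fin ρ → ℝ) : ∑ i, a i • w i = ∑ i, Int.fract (a i) • w i + ∑ i, ⌊a i⌋ • w i ∧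
      ‖∑ i, a i • w i - ∑ i, ⌊a i⌋ • w i‖ ≤ ∑ i, ‖w i‖ := by
  have e : ∑ i, a i • w i = ∑ i, Int.fract (a i) • w i + ∑ i, ⌊a i⌋ • w i := by
    rw [← Finset.sum_add_distrib]
    refine Finset.sum_congr rfl fun k _ => ?_
    rw [← Int.cast_smul_eq_zsmul ℝ, ← add_smul, Int.fract_add_floor]
  refine ⟨e, ?_⟩
  rw [e, add_sub_cancel_right]
  refine norm_sum_le_of_le _ fun k _ => ?_
  rw [norm_smul, Real.norm_of_nonneg (Int.fract_nonneg _)]
  exact mul_le_of_le_one_left (norm_nonneg _) (Int.fract_lt_one _).le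

/-- A periodic form with vanishing lattice areas is not positive on a plane of the real span. -/
lemma clper_iso {F : Type} [NormedAddCommGroup F] [NormedSpace ℝ F] {t : Form2 F}
    (ht : Closed2 univ t) {K : ℝ} (hK0 : 0 ≤ K) (hK : ∀ x u v, |t x u v| ≤ K * ‖u‖ * ‖v‖) {ρ : ℕ}
    {w : Fin ρ → F} (hp : ∀ (m : Fin ρ → ℤ) x, t (x + ∑ i, m i • w i) = t x)
    (h0 : ∀ m m' : Fin ρ → ℤ, par t 0 (∑ i, m i • w i) (∑ i, m' i • w i) = 0) (a b : Fin ρ → ℝ) :
    ¬∀ x, 0 < t x (∑ i, a i • w i) (∑ i, b i • w i) := by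
  intro hpos
  set u := ∑ i, a i • w i with hu
  set v := ∑ i, b i • w i with hv
  have hct : Continuous t := continuousOn_univ.1 ht.1.continuousOn
  have hc : Continuous fun s : Fin ρ → ℝ => t (∑ i, s i • w i) u v :=
    ((hct.comp (by fun_prop)).clm_apply continuous_const).clm_apply continuous_const
  obtain ⟨s0, -, hs0⟩ := (isCompact_Icc (a := (0 : Fin ρ → ℝ)) (b := 1)).exists_isMinOn
    ⟨0, le_rfl, zero_le_one⟩ hc.continuousOn
  set c := t (∑ i, s0 i • w i) u v with hcdef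
  have hc0 : 0 < c := hpos _
  have hmin : ∀ s : Fin ρ → ℝ, c ≤ t (∑ i, s i • w i) u v := by
    intro s
    rw [(clper_floor w s).1, hp]
    exact hs0 ⟨fun i => Int.fract_nonneg _, fun i => (Int.fract_lt_one _).le⟩
  set δ := ∑ i, ‖w i‖ with hδ
  have hδ0 : 0 ≤ δ := by positivity
  set D := 100 * K * δ * (‖u‖ + ‖v‖ + δ) with hD
  have hD0 : 0 ≤ D := by positivity
  set j := D / c + 1 with hj
  have hj1 : 1 ≤ j := le_add_of_nonneg_left (by positivity)
  have eu : j • u = ∑ i, (j * a i) • w i := by simp only [hu, Finset.smul_sum, mul_smul]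
  have ev : j • v = ∑ i, (j * b i) • w i := by simp only [hv, Finset.smul_sum, mul_smul]
  have h1 : c * j ^ 2 ≤ par t 0 (j • u) (j • v) := by
    refine par_ge ht _ _ _ fun s r => ?_
    have e : (0 : F) + s • j • u + r • j • v = ∑ i, (s * (j * a i) + r * (j * b i)) • w i := by
      simp only [eu, ev, zero_add, Finset.smul_sum, add_smul, Finset.sum_add_distrib, mul_smul]
    have := hmin fun i => s * (j * a i) + r * (j * b i)
    rw [e]
    simp only [map_smul, smul_apply, smul_eq_mul]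
    nlinarith [sq_nonneg j]
  have h2 := par_shift ht hK0 hK 0 (j • u) (j • v) 0 (∑ i, ⌊j * a i⌋ • w i) (∑ i, ⌊j * b i⌋ • w i)
    (δ := δ) (by simpa using hδ0) (by rw [eu]; exact (clper_floor w _).2)
    (by rw [ev]; exact (clper_floor w _).2)
  rw [h0, sub_zero, norm_smul, norm_smul, Real.norm_of_nonneg (by linarith)] at h2
  have h3 : 100 * K * δ * (j * ‖u‖ + j * ‖v‖ + δ) ≤ D * j := by
    rw [hD, mul_assoc (100 * K * δ)]
    refine mul_le_mul_of_nonneg_left ?_ (by positivity)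
    nlinarith
  have h4 : c * j = D + c := by rw [hj]; field_simp
  have h5 := (h1.trans (le_abs_self _)).trans (h2.trans h3)
  nlinarith

variable {X : Type} [TopologicalSpace X] [T2Space X] [MeasurableSpace X] (M : Model n X)

omit [T2Space X] in
theorem exists_rad {V : Set (E n)} (hO : IsOpen V) (hV : Convex ℝ V) (hs : V ⊆ M.T) {r0 : ℕ}
    {z : Fin r0 → E n → E n} (hz : Per0 M V z) :
    ∃ (ρ : ℕ) (e : Fin ρ → Fin r0 → ℤ), Rad M V z e := by
  obtain ⟨ν, hν⟩ := par_bil M.T_open M.T_conv M.om_form hO hV hs hz.z_ret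
  have h1 : ∀ m k, ∀ y ∈ V, ∀ ξ, par (leaf M.om y) ξ (zm z m y) (z k y) = ∑ l, m l * ν l k := by
    intro m k y hy ξ
    rw [← zm_single z k y, hν _ _ y hy]
    simp [Pi.single_apply]
  let L : Submodule ℤ (Fin r0 → ℤ) :=
    { carrier := {m | ∀ k, ∑ l, m l * ν l k = 0}
      zero_mem' := fun k => by simp
      add_mem' := fun {a b} ha hb k => by
        simp only [Pi.add_apply, Int.cast_add, add_mul, Finset.sum_add_distrib, ha k, hb k,
          add_zero]
      smul_mem' := fun c a ha k => by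
        simp only [Pi.smul_apply, smul_eq_mul, Int.cast_mul, mul_assoc, ← Finset.mul_sum, ha k,
          mul_zero] }
  let B := Module.finBasis ℤ L
  have hB : ∀ m ∈ L, ∃ s : Fin _ → ℤ, m = ∑ i, s i • (B i : Fin r0 → ℤ) := fun m hm =>
    ⟨fun i => B.repr ⟨m, hm⟩ i, by
      have := congrArg L.subtype (B.sum_repr ⟨m, hm⟩).symm
      rw [map_sum] at this
      exact this⟩
  have hcomb : ∀ (s : Fin _ → ℝ) y, ∑ i, s i • zm z (B i) y =
      ∑ l, (∑ i, s i * ((B i : Fin r0 → ℤ) l : ℝ)) • z l y := by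
    intro s y
    simp only [zm_real, Finset.smul_sum, Finset.sum_smul, mul_smul]
    exact Finset.sum_comm
  refine ⟨_, fun i => B i, fun i k y hy ξ => (h1 _ k y hy ξ).trans ((B i).2 k),
    fun m y hy h => hB m fun k => (h1 m k y hy 0).symm.trans (h k), ?_, ?_⟩
  · rintro m y hy ⟨s, hm⟩
    refine hB m fun k => ?_
    simp only [Complex.coe_smul] at hm
    rw [hcomb, zm_real, ← sub_eq_zero, ← Finset.sum_sub_distrib] at hm
    simp only [← sub_smul] at hm
    have h2 := Fintype.linearIndependent_iff.1 (hz.z_ind y hy) _ hm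
    simp only [sub_eq_zero] at h2
    simp only [h2, Finset.sum_mul, mul_assoc]
    rw [Finset.sum_comm]
    refine Finset.sum_eq_zero fun i _ => ?_
    rw [← Finset.mul_sum, (B i).2 k, mul_zero]
  · intro y hy
    have hR : ∀ s : Fin _ → ℝ, ∑ i, s i • zm z (B i) y = 0 → ∀ i, s i = 0 := by
      intro s h
      rw [hcomb] at h
      have h2 := Fintype.linearIndependent_iff.1 (hz.z_ind y hy) _ h
      have h3 : LinearIndependent ℤ fun i => (B i : Fin r0 → ℤ) :=
        B.linearIndependent.map' L.subtype L.ker_subtype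
      have h4 := (linearIndependent_algebraMap_comp_iff (S := ℝ)).2 h3
      exact Fintype.linearIndependent_iff.1 h4 s (by ext l; simpa using h2 l)
    refine Fintype.linearIndependent_iff.2 fun c hc => ?_
    have hr := isRet_zm hO hs hz.z_ret
    have e : ∑ i, (-(c i).re) • zm z (B i) y = Complex.I • ∑ i, (c i).im • zm z (B i) y := by
      rw [← sub_eq_zero, Finset.smul_sum, ← Finset.sum_sub_distrib, ← neg_eq_zero,
        ← Finset.sum_neg_distrib, ← hc]
      refine Finset.sum_congr rfl fun i _ => ?_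
      rw [← Complex.coe_smul, ← Complex.coe_smul, smul_smul, ← sub_smul, ← neg_smul]
      congr 1
      apply Complex.ext <;> simp
    have hv : ∑ i, (c i).im • zm z (B i) y = 0 := by
      by_contra hne
      have hC := M.C0_ge
      refine clper_iso (leaf_closed M.T_open M.om_form.closed (hs hy)) (K := 2 * M.C0) (by linarith)
        (M.leaf_bd y (hs hy)) (w := fun i => zm z (B i) y) (fun m x => ?_) (fun m m' => ?_)
        (fun i => (c i).im) (fun i => -(c i).re) fun x => ?_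
      · rw [← zm_sum]
        exact leaf_per (hr _) (M.om_form.inv V _ (hr _)) hy x
      · rw [← zm_sum, ← zm_sum, hν _ _ y hy, Finset.sum_comm]
        refine Finset.sum_eq_zero fun k _ => ?_
        have hm : ∑ i, m i • (B i : Fin r0 → ℤ) ∈ L :=
          L.sum_mem fun i _ => L.smul_mem _ (B i).2
        simp only [mul_right_comm _ _ (ν _ k), ← Finset.sum_mul]
        rw [hm k, zero_mul]
      · rw [e]
        generalize ∑ i, (c i).im • zm z (B i) y = v at hne
        have := M.om_pos (y, x) (hs hy) (0, v) (by simpa using hne)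
        simpa [leaf] using this
    rw [hv, smul_zero] at e
    intro i
    exact Complex.ext (by simpa using hR _ e i) (hR _ hv i)

theorem exists_per0 : ∃ (y0 : E n) (r : ℝ) (r0 ρ : ℕ) (z : Fin r0 → E n → E n)
    (e : Fin ρ → Fin r0 → ℤ), 0 < r ∧ ball y0 r ⊆ M.T ∧ Per0 M (ball y0 r) z ∧
      Rad M (ball y0 r) z e := by
  obtain ⟨y0, r, r0, z, hr, hs, hz⟩ := exists_per0a M
  obtain ⟨ρ, e, he⟩ := exists_rad M isOpen_ball (convex_ball _ _) hs hz
  exact ⟨y0, r, r0, ρ, z, e, hr, hs, hz, he⟩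

end Pool.Agent.CL
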