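import Pool.Agent.K.MP_63735c_ag.C112

/-! Small returns preserve the periods and are separated along the real directions. -/

open scoped ContDiff Matrix ENNReal
open Set Metric MeasureTheory Filter Topology

namespace Pool.Agent.CL

open Pool.Agent.SPF

variable {n : ℕ} {X : Type} [TopologicalSpace X] [MeasurableSpace X] {M : Model n X}

lemma Per.zi (Q : Per M) {t : E n} (ht : t ∈ ZI Q.I) : ∃ m, ∀ y ∈ M.T, zm Q.z m y = t := by
  classical
  have h : ∀ i, ∃ m, ∀ y ∈ M.T, zm Q.z m y = if i ∈ Q.I then Pi.single i 1 else 0 := by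
    intro i
    split_ifs with hi
    · exact Q.e_mem i hi
    · exact ⟨0, fun y _ => by simp [zm]⟩
  choose e he using h
  choose c hc using fun k => (ht k).1
  refine ⟨∑ i, c i • e i, fun y hy => ?_⟩
  rw [zm_sum]
  ext k
  rw [Finset.sum_apply, Finset.sum_eq_single k]
  · rw [he k y hy]
    split_ifs with hk
    · simp [hc k]
    · simp [(ht k).2 hk]
  · intro i _ hik
    rw [he i y hy]
    split_ifs <;> simp [hik.symm]
  · simp

lemma Per.zi_ret (Q : Per M) {t : E n} (ht : t ∈ ZI Q.I) :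
    IsRet M.T M.Ψ M.T (Ret.per fun _ => t) := by
  obtain ⟨m, hm⟩ := Q.zi ht
  exact (isRet_zm M.T_open Subset.rfl Q.per0.z_ret m).congr fun x hx => ⟨rfl, (hm x hx).symm, rfl⟩

lemma ZI_sub {I : Finset (Fin n)} {s t : E n} (hs : s ∈ ZI I) (ht : t ∈ ZI I) : s - t ∈ ZI I := by
  intro k
  obtain ⟨⟨a, ha⟩, h1⟩ := hs k
  obtain ⟨⟨b, hb⟩, h2⟩ := ht k
  exact ⟨⟨a - b, by simp [ha, hb]⟩, fun hk => by simp [h1 hk, h2 hk]⟩

lemma RI_floor {I : Finset (Fin n)} {s : E n} (hs : s ∈ RI I) :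
    ∃ t ∈ ZI I, s + t ∈ RI I ∧ ‖s + t‖ ≤ 1 := by
  refine ⟨fun k => (-⌊(s k).re⌋ : ℤ), fun k => ⟨⟨_, rfl⟩, fun hk => by simp [(hs k).2 hk]⟩,
    fun k => ⟨by simp [(hs k).1], fun hk => by simp [(hs k).2 hk]⟩, ?_⟩
  refine (pi_norm_le_iff_of_nonneg zero_le_one).2 fun k => ?_
  have e : (s + fun k => ((-⌊(s k).re⌋ : ℤ) : ℂ)) k = (Int.fract (s k).re : ℝ) := by
    apply Complex.ext
    · simp [Int.fract, sub_eq_add_neg]
    · simp [(hs k).1]
  rw [e, Complex.norm_real, Real.norm_of_nonneg (Int.fract_nonneg _)]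
  exact (Int.fract_lt_one _).le

lemma RI_closed (I : Finset (Fin n)) : IsClosed (RI I) := by
  have : RI I = ⋂ k, {s : E n | (s k).im = 0} ∩ ⋂ (_ : k ∉ I), {s : E n | s k = 0} := by
    ext s
    simp [RI]
  rw [this]
  exact isClosed_iInter fun k => (isClosed_eq (by fun_prop) continuous_const).inter
    (isClosed_iInter fun _ => isClosed_eq (by fun_prop) continuous_const)

lemma Germ.shift (Q : Per M) {t y : E n} (ht : t ∈ ZI Q.I) {g : Ret n} (hg : Germ M.T M.Ψ y g) :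
    ∃ g', Germ M.T M.Ψ y g' ∧ g'.γ = g.γ ∧ ∀ x, g'.α x = g.α x + t := by
  have hy : y ∈ M.T := by
    obtain ⟨O, hO, hy⟩ := hg
    exact hO.sub hy
  refine ⟨_, (Germ.comp (g := Ret.per fun _ => t) ⟨_, Q.zi_ret ht, hy⟩ hg).1, rfl, fun x => ?_⟩
  have e : fderiv ℂ (fun y : E n => y) x = 1 := fderiv_id
  simp only [Ret.comp, Ret.per, e, (tr_basic (1 : E n →L[ℂ] E n) 1).1]
  exact add_comm _ _

section
variable {T : Set (E n)} {h : Form2 (E n)} (G : Iso T h)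

lemma Iso.move {j : G.G} (hj : G.lg.sz j ≤ G.lg.ε) {y : E n} (hy : y ∈ ball G.y0 (2 * G.r)) :
    G.γ j y ∈ ball G.y0 (3 * G.r) := by
  have h1 := (G.near j hj y hy).1
  have h2 := G.small.trans (min_le_left _ _)
  have h3 := mul_le_mul_of_nonneg_left hj (zero_le_one.trans G.lg.L_ge)
  have h4 := G.r_pos
  rw [mem_ball, dist_eq_norm] at hy ⊢
  have := norm_sub_le_norm_sub_add_norm_sub (G.γ j y) y G.y0
  linarith

lemma Iso.mem {y : E n} {a : ℝ} (ha : a ≤ 4 * G.r) (hy : y ∈ ball G.y0 a) : y ∈ T :=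
  G.sub (ball_subset_closedBall (ball_subset_ball ha hy))

lemma Iso.eq_of_germ {j j' : G.G} {y : E n} (hy : y ∈ ball G.y0 (2 * G.r))
    (he : G.γ j =ᶠ[𝓝 y] G.γ j') : j = j' := by
  have h1 := G.cmp j j' G.y0 (mem_ball_self (by linarith [G.r_pos])) y hy
  have h2 : jet (G.γ j) y = jet (G.γ j') y := by
    simp only [jet, he.self_of_nhds, he.fderiv_eq]
  rw [h2, sub_self, norm_zero, mul_zero, norm_le_zero_iff, sub_eq_zero] at h1
  exact G.jt_inj (by rw [G.jt_eq, G.jt_eq, h1])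

end

theorem setup_pres (Q : Per M) (G : Iso M.T M.h) : ∃ ε > (0 : ℝ), ∀ j, G.lg.sz j ≤ G.lg.ε →
    G.lg.sz j ≤ ε → ∀ y ∈ ball G.y0 (2 * G.r), ∀ g, Germ M.T M.Ψ y g → g.γ =ᶠ[𝓝 y] G.γ j →
      ∀ k, ∀ x ∈ ball G.y0 (2 * G.r), G.N j x (Q.z k x) = Q.z k (G.γ j x) := by
  have hz : ∀ k, DifferentiableOn ℂ (Q.z k) M.T := fun k => (Q.per0.z_ret k).α_hol
  have hc : ContinuousOn (fun x k => Q.z k x) (closedBall G.y0 (4 * G.r)) :=
    continuousOn_pi.2 fun k => (hz k).continuousOn.mono G.sub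
  obtain ⟨B0, hB0⟩ := (isCompact_closedBall _ _).exists_bound_of_continuousOn hc
  have hr := G.r_pos
  have hL := G.lg.L_ge
  have hc0 := M.c0_pos
  obtain ⟨B, hB1, hB⟩ : ∃ B > (0 : ℝ), ∀ k, ∀ x ∈ ball G.y0 (4 * G.r), ‖Q.z k x‖ ≤ B :=
    ⟨|B0| + 1, by positivity, fun k x hx => ((norm_le_pi_norm (fun k => Q.z k x) k).trans
      (hB0 x (ball_subset_closedBall hx))).trans (by linarith [le_abs_self B0])⟩
  refine ⟨M.c0 / (G.lg.L * (B + B / G.r)), by positivity, fun j hj hε y hy g hg he k => ?_⟩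
  have hN := hg.N_eq he (by
    filter_upwards [isOpen_ball.mem_nhds hy] with x hx using G.pair j x hx)
  obtain ⟨O, hO, hyO⟩ := hg
  have h24 : 2 * G.r ≤ 4 * G.r := by linarith
  have h34 : 3 * G.r ≤ 4 * G.r := by linarith
  refine hol_ident isOpen_ball (convex_ball _ _).isPreconnected
    ((G.N_hol j).clm_apply ((hz k).mono fun x hx => G.mem h24 hx))
    ((hz k).comp (G.γ_hol j) fun x hx => G.mem h34 (G.move hj hx)) hy ?_
  filter_upwards [he, hN, hO.isOpen.mem_nhds hyO, isOpen_ball.mem_nhds hy] with x e1 e2 hx hxb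
  have hm := G.move hj hxb
  have a1 := hO.eq x hx (g.α x + Q.z k x)
  have a2 := hO.eq x hx (g.α x)
  have a3 := (Q.per0.z_ret k).eq x (hO.sub hx) (g.α x + Q.z k x)
  have a4 := (Q.per0.z_ret k).eq _ (G.mem h34 hm) (G.N j x (Q.z k x))
  simp only [per_act, add_sub_cancel_right] at a3 a4
  simp only [Ret.act, add_sub_cancel_left, sub_self, map_zero, e1, e2] at a1 a2
  have a5 : M.Ψ (G.γ j x, G.N j x (Q.z k x) - Q.z k (G.γ j x)) = M.Ψ (G.γ j x, 0) := by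
    rw [a4, a1, a2, a3]
  obtain ⟨n1, -, -, n4⟩ := G.near j hj x hxb
  have b1 := hol_lip (r' := 3 * G.r) (r := 4 * G.r) (by linarith)
    ((hz k).mono fun x hx => G.mem le_rfl hx) (hB k) (ball_subset_ball (by linarith) hxb) hm
  have b2 : ‖G.N j x (Q.z k x) - Q.z k x‖ ≤ G.lg.L * G.lg.sz j * B :=
    ((G.N j x - 1).le_opNorm (Q.z k x)).trans (mul_le_mul n4 (hB k x (ball_subset_ball h24 hxb))
      (norm_nonneg _) ((norm_nonneg _).trans n4))
  have b3 := norm_sub_le_norm_sub_add_norm_sub (G.N j x (Q.z k x)) (Q.z k x) (Q.z k (G.γ j x))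
  rw [norm_sub_rev x, show 4 * G.r - 3 * G.r = G.r by ring] at b1
  have b4 := mul_le_mul_of_nonneg_left n1 (show 0 ≤ B / G.r by positivity)
  rw [le_div_iff₀ (by positivity)] at hε
  have a6 := M.inj (x₁ := (_, _)) (x₂ := (_, _)) ⟨G.mem h34 hm, by
    rw [mem_ball_zero_iff]
    nlinarith⟩ ⟨G.mem h34 hm, mem_ball_self (by positivity)⟩ a5
  exact sub_eq_zero.1 (congrArg Prod.snd a6)

theorem setup_sep [T2Space X] (Q : Per M) (G : Iso M.T M.h) : ∃ ε > (0 : ℝ), ∀ j,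
    G.lg.sz j ≤ G.lg.ε → G.lg.sz j ≤ ε → ∀ y ∈ ball G.y0 (3 / 2 * G.r), ∀ g,
      Germ M.T M.Ψ y g → g.γ =ᶠ[𝓝 y] G.γ j → (∃ s ∈ RI Q.I, ‖g.α y - s‖ ≤ ε) →
        j = G.lg.one ∧ ∃ s ∈ ZI Q.I, g.α =ᶠ[𝓝 y] fun _ => s := by
  by_contra hcon
  have hex : ∀ k : ℕ, ∃ (j : G.G) (y : E n) (g : Ret n) (s : E n), G.lg.sz j ≤ G.lg.ε ∧
      G.lg.sz j ≤ 1 / (k + 1 : ℝ) ∧ y ∈ ball G.y0 (3 / 2 * G.r) ∧ Germ M.T M.Ψ y g ∧
      g.γ =ᶠ[𝓝 y] G.γ j ∧ s ∈ RI Q.I ∧ ‖s‖ ≤ 1 ∧ ‖g.α y - s‖ ≤ 1 / (k + 1 : ℝ) ∧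
      ¬(j = G.lg.one ∧ ∃ s ∈ ZI Q.I, g.α =ᶠ[𝓝 y] fun _ => s) := by
    intro k
    by_contra hk
    refine hcon ⟨1 / (k + 1 : ℝ), by positivity, ?_⟩
    rintro j h1 h2 y hy g hg he ⟨s, hs, hd⟩
    by_contra hn
    obtain ⟨t, ht, h3, h4⟩ := RI_floor hs
    obtain ⟨g', hg', e1, e2⟩ := hg.shift Q ht
    refine hk ⟨j, y, g', s + t, h1, h2, hy, hg', e1 ▸ he, h3, h4, ?_, ?_⟩
    · rwa [e2, add_sub_add_right_eq_sub]
    · rintro ⟨h5, s', hs', h6⟩
      refine hn ⟨h5, s' - t, ZI_sub hs' ht, h6.mono fun x hx => ?_⟩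
      rw [e2] at hx
      exact eq_sub_of_add_eq hx
  choose j y g s h1 h2 hy hg he hs hs1 hd hn using hex
  have hr := G.r_pos
  let U : Ultrafilter ℕ := hyperfilter ℕ
  have t0 : Tendsto (fun k : ℕ => 1 / (k + 1 : ℝ)) U (𝓝 0) :=
    tendsto_one_div_add_atTop_nhds_zero_nat.mono_left Nat.hyperfilter_le_atTop
  obtain ⟨y1, hy1, ty⟩ := (isCompact_closedBall G.y0 (3 / 2 * G.r)).ultrafilter_le_nhds (U.map y)
    (le_principal_iff.2 (mem_map.2 (Eventually.of_forall fun k => ball_subset_closedBall (hy k))))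
  obtain ⟨s1, -, ts⟩ := (isCompact_closedBall (0 : E n) 1).ultrafilter_le_nhds (U.map s)
    (le_principal_iff.2 (mem_map.2 (Eventually.of_forall fun k => mem_closedBall_zero_iff.2 (hs1 k))))
  replace ty : Tendsto y U (𝓝 y1) := ty
  replace ts : Tendsto s U (𝓝 s1) := ts
  have hs1R : s1 ∈ RI Q.I := (RI_closed _).mem_of_tendsto ts (Eventually.of_forall hs)
  have hb : ∀ k, y k ∈ ball G.y0 (2 * G.r) := fun k => ball_subset_ball (by linarith) (hy k)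
  have hy2 : y1 ∈ ball G.y0 (2 * G.r) := closedBall_subset_ball (by linarith) hy1
  have hyT : y1 ∈ M.T := G.mem (by linarith) hy2
  have tL : Tendsto (fun k : ℕ => G.lg.L * (1 / (k + 1 : ℝ))) U (𝓝 0) := by
    simpa using t0.const_mul G.lg.L
  have tγ : ∀ x : ℕ → E n, (∀ k, x k ∈ ball G.y0 (2 * G.r)) →
      Tendsto (fun k => G.γ (j k) (x k) - x k) U (𝓝 0) := fun x hx =>
    squeeze_zero_norm (fun k => (G.near _ (h1 k) _ (hx k)).1.trans
      (mul_le_mul_of_nonneg_left (h2 k) (zero_le_one.trans G.lg.L_ge))) tL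
  have tα : Tendsto (fun k => (g k).α (y k)) U (𝓝 s1) := by
    simpa using (squeeze_zero_norm hd t0).add ts
  have tg : Tendsto (fun k => (g k).γ (y k)) U (𝓝 y1) := by
    have := (tγ y hb).add ty
    simp only [sub_add_cancel, zero_add] at this
    exact this.congr fun k => (he k).self_of_nhds.symm
  obtain ⟨g', ρ, hρ, hg', e1, -, hev⟩ := M.lim hyT hyT ty (Eventually.of_forall hg) tα tg
  obtain ⟨ρ', hρ', hsub⟩ := Metric.isOpen_iff.1 (isOpen_ball.inter isOpen_ball) y1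
    ⟨mem_ball_self hρ, hy2⟩
  have hb' := ball_mem_nhds y1 hρ'
  have k1 : ∀ᶠ k in (U : Filter ℕ), EqOn (G.γ (j k)) g'.γ (ball y1 ρ') := by
    filter_upwards [hev, ty.eventually hb'] with k a1 a2
    exact hol_ident isOpen_ball (convex_ball _ _).isPreconnected
      ((G.γ_hol _).mono fun x hx => (hsub hx).2) (hg'.γ_hol.mono fun x hx => (hsub hx).1) a2
      ((he k).symm.trans (a1.2.mono fun x hx => hx.1))
  have k2 : ∀ x ∈ ball y1 ρ', g'.γ x = x := by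
    intro x hx
    have a1 := tγ (fun _ => x) fun _ => (hsub hx).2
    have a2 : Tendsto (fun k => G.γ (j k) x - x) U (𝓝 (g'.γ x - x)) :=
      tendsto_const_nhds.congr' (k1.mono fun k hk => by simp only [hk hx])
    exact sub_eq_zero.1 (tendsto_nhds_unique a2 a1)
  have k3 : Germ M.T M.Ψ y1 g' := ⟨_, hg', mem_ball_self hρ⟩
  have k4 := k3.per (eventually_of_mem hb' k2)
  have k5 : Germ M.T M.Ψ y1 (Ret.per g'.α) := k3.congr k4
  obtain ⟨m, hm⟩ := Q.per0.all y1 hyT _ k5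
  obtain ⟨s', hs', hm'⟩ := Q.sat m y1 hyT (by rw [← hm.self_of_nhds, e1]; exact hs1R)
  have k6 : ∀ᶠ x in 𝓝 y1, g'.α x = s' := by
    filter_upwards [hm, M.T_open.mem_nhds hyT] with x a1 a2 using a1.trans (hm' x a2)
  obtain ⟨k, a1, a2, a3⟩ := (hev.and (k1.and (ty.eventually k6.eventually_nhds))).exists
  refine hn k ⟨G.eq_of_germ hy2 ?_, s', hs', ?_⟩
  · filter_upwards [hb'] with x hx
    rw [a2 hx, k2 x hx, G.γ_one]
  · filter_upwards [a1.2, a3] with x b1 b2 using b1.2.1.trans b2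

/-- The same local group with a smaller size bound. -/
def LG.low {G J : Type} [NormedAddCommGroup J] (g : LG G J) {ε : ℝ} (h0 : 0 < ε) (h : ε ≤ g.ε) :
    LG G J :=
  { g with
    ε := ε
    ε_pos := h0
    assoc := fun a b c x y z => g.assoc a b c (x.trans h) (y.trans h) (z.trans h)
    one_mul := fun a x => g.one_mul a (x.trans h)
    mul_one := fun a x => g.mul_one a (x.trans h)
    inv_mul := fun a x => g.inv_mul a (x.trans h)
    mul_inv := fun a x => g.mul_inv a (x.trans h)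
    lip_r := fun a b c x y z => g.lip_r a b c (x.trans h) (y.trans h) (z.trans h)
    lip_l := fun a b c x y z => g.lip_l a b c (x.trans h) (y.trans h) (z.trans h)
    lip_inv := fun a b x y => g.lip_inv a b (x.trans h) (y.trans h)
    comm := fun a b x y => g.comm a b (x.trans h) (y.trans h) }

/-- The same group of isometries with a smaller size bound. -/
noncomputable def Iso.low {T : Set (E n)} {h : Form2 (E n)} (G : Iso T h) {ε : ℝ} (h0 : 0 < ε)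
    (hε : ε ≤ G.lg.ε) : Iso T h :=
  { G with
    lg := G.lg.low h0 hε
    small := le_trans (mul_le_mul_of_nonneg_left
      (mul_le_mul_of_nonneg_left hε (zero_le_one.trans G.lg.L_ge)) (by norm_num)) G.small
    near := fun j x => G.near j (x.trans hε)
    γ_mul := fun a b x y => G.γ_mul a b (x.trans hε) (y.trans hε)
    ext := fun y hy γ' a x z => G.ext y hy γ' a (x.trans hε) (z.trans hε) }

theorem setup_of_iso [T2Space X] (Q : Per M) (G0 : Iso M.T M.h) : ∃ G : Iso M.T M.h,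
    (∀ j, G.lg.sz j ≤ G.lg.ε → ∀ y ∈ ball G.y0 (2 * G.r), ∀ g, Germ M.T M.Ψ y g →
      g.γ =ᶠ[𝓝 y] G.γ j → ∀ k, ∀ x ∈ ball G.y0 (2 * G.r), G.N j x (Q.z k x) = Q.z k (G.γ j x)) ∧
    ∃ δ > (0 : ℝ), ∀ j, G.lg.sz j ≤ G.lg.ε → ∀ y ∈ ball G.y0 (3 / 2 * G.r), ∀ g,
      Germ M.T M.Ψ y g → g.γ =ᶠ[𝓝 y] G.γ j → (∃ s ∈ RI Q.I, ‖g.α y - s‖ ≤ δ) →
        j = G.lg.one ∧ ∃ s ∈ ZI Q.I, g.α =ᶠ[𝓝 y] fun _ => s := by
  obtain ⟨ε1, h1, H1⟩ := setup_pres Q G0
  obtain ⟨ε2, h2, H2⟩ := setup_sep Q G0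
  have h0 := G0.lg.ε_pos
  refine ⟨G0.low (ε := min G0.lg.ε (min ε1 ε2)) (by positivity) (min_le_left _ _), fun j hj => ?_,
    ε2, h2, fun j hj => ?_⟩
  · exact H1 j (le_min_iff.1 hj).1 (le_min_iff.1 (le_min_iff.1 hj).2).1
  · exact H2 j (le_min_iff.1 hj).1 (le_min_iff.1 (le_min_iff.1 hj).2).2

end Pool.Agent.CL
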