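import Pool.Agent.P.MP_63735c_ag.SPFlow

-- part Pool.Agent.P.MP_63735c_ag.CLG1
section

/-! Lemma G, layer 1: Frobenius on an invariant set, rigidity of solutions of `df = V f`, and the
chart given by a maximal independent family of invariants. -/

open Set Filter Topology
open scoped ContDiff

namespace Pool.Agent.CL

open Pool.Agent.SPF

section real

variable {T G : Type} [NormedAddCommGroup T] [NormedSpace ℝ T] [FiniteDimensional ℝ T]
  [NormedAddCommGroup G] [NormedSpace ℝ G] [FiniteDimensional ℝ G]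

/-- Frobenius theorem on a set `S` that the radial solutions do not leave. -/
theorem frob_inv {Ω : Set G} (hΩ : IsOpen Ω) {V : G → T →L[ℝ] G}
    (hV : ∀ y ∈ Ω, ContDiffAt ℝ 2 V y) {a : G} (ha : a ∈ Ω) :
    ∃ r > 0, ∃ δ > 0, ∀ y ∈ Metric.ball a r, ∀ S : Set G,
      (∀ x ∈ Ω, x ∈ S → ∀ s t, fderiv ℝ V x (V x s) t = fderiv ℝ V x (V x t) s) →
      (∀ (t : T) (c : ℝ → G), c 0 = y →
        (∀ s ∈ Icc (0 : ℝ) 1, c s ∈ Ω ∧ HasDerivAt c (V (c s) t) s) →
          ∀ s ∈ Icc (0 : ℝ) 1, c s ∈ S) →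
      ∃ f : T → G, f 0 = y ∧
        ∀ t ∈ Metric.ball (0 : T) δ, f t ∈ Ω ∧ f t ∈ S ∧ HasFDerivAt f (V (f t)) t := by
  have : CompleteSpace (T × G) := FiniteDimensional.complete ℝ _
  obtain ⟨ρ0, hρ0, hb⟩ := Metric.isOpen_iff.1 hΩ a ha
  set ρ := ρ0 / 4 with hρ
  have hρ' : 0 < ρ := by positivity
  have hsub : ∀ p ∈ Metric.closedBall ((0 : T), a) (3 * ρ), p.2 ∈ Ω := by
    intro p hp
    rw [← closedBall_prod_same] at hp
    exact hb (Metric.closedBall_subset_ball (by rw [hρ]; linarith) hp.2)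
  let b : ContDiffBump ((0 : T), a) := ⟨2 * ρ, 3 * ρ, by positivity, by linarith⟩
  let Z : T × G → T × G := fun p => b p • ((0 : T), V p.2 p.1)
  have hZ : ContDiff ℝ (2 : ℕ∞) Z := by
    rw [contDiff_iff_contDiffAt]
    intro p
    by_cases hp : p.2 ∈ Ω
    · exact b.contDiff.contDiffAt.smul (contDiffAt_const.prodMk
        ((ContDiffAt.comp p (f := fun p : T × G => p.2) (hV _ hp) contDiffAt_snd).clm_apply
          contDiffAt_fst))
    · have h1 : p ∉ tsupport b := by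
        rw [b.tsupport_eq]; exact fun h => hp (hsub p h)
      refine (contDiffAt_const (c := (0 : T × G))).congr_of_eventuallyEq ?_
      filter_upwards [notMem_tsupport_iff_eventuallyEq.1 h1] with z hz
      simp only [Z, hz, Pi.zero_apply, zero_smul]
  have hc : HasCompactSupport Z := by
    refine HasCompactSupport.intro (isCompact_closedBall ((0 : T), a) (3 * ρ)) fun y hy => ?_
    rw [Metric.mem_closedBall, not_le] at hy
    simp only [Z, b.zero_of_le_dist hy.le, zero_smul]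
  obtain ⟨P, hP, h0, hd, -⟩ :=
    Lib.Flow.exists_flow_of_hasCompactSupport (n := 2) (by simp) Z hZ hc
  have hfix : ∀ s y, P (s, (0, y)) = (0, y) := by
    intro s y
    have := Lib.Flow.curve_const (v := Z) (c := fun s => P (s, (0, y))) (t₀ := 0)
      (hZ.contDiffAt.of_le (by norm_num)) (fun s => hd s _) (by simp [h0, Z]) s
    simpa [h0] using this
  have hfst : ∀ s p, (P (s, p)).1 = p.1 := by
    intro s p
    have hh : ∀ s, HasDerivAt (fun s => (P (s, p)).1) 0 s := fun s => by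
      have := (ContinuousLinearMap.fst ℝ T G).hasFDerivAt.comp_hasDerivAt s (hd s p)
      simpa [Z, Function.comp_def] using this
    have := is_const_of_deriv_eq_zero (fun s => (hh s).differentiableAt) (fun s => (hh s).deriv) s 0
    simpa [h0] using this
  have key : ∀ᶠ t in 𝓝 (0 : T), ∀ q ∈ Icc (0 : ℝ) 1 ×ˢ Metric.closedBall a ρ,
      P (q.1, (t, q.2)) ∈ Metric.ball ((0 : T), a) (2 * ρ) := by
    refine (isCompact_Icc.prod (isCompact_closedBall a ρ)).eventually_forall_of_forall_eventually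
      fun q hq => ?_
    have hcn : Continuous fun z : T × ℝ × G => P (z.2.1, (z.1, z.2.2)) :=
      hP.continuous.comp (by fun_prop)
    refine hcn.continuousAt.eventually_mem (Metric.isOpen_ball.mem_nhds ?_)
    simp only [hfix, ← ball_prod_same]
    exact ⟨Metric.mem_ball_self (by linarith), Metric.closedBall_subset_ball (by linarith) hq.2⟩
  obtain ⟨δ, hδ, hk⟩ := Metric.eventually_nhds_iff.1 key
  refine ⟨ρ, hρ', δ, hδ, fun y hy S hs hinv =>
    ⟨fun t => (P (1, (t, y))).2, by simp [hfix], fun t ht => ?_⟩⟩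
  have hm : ∀ s ∈ Icc (0 : ℝ) 1, P (s, (t, y)) ∈ Metric.ball ((0 : T), a) (2 * ρ) := fun s hs' =>
    hk (y := t) ht (s, y) ⟨hs', Metric.ball_subset_closedBall hy⟩
  have hΩ' : ∀ s ∈ Icc (0 : ℝ) 1, (P (s, (t, y))).2 ∈ Ω := fun s hs' =>
    hsub _ (Metric.ball_subset_closedBall (Metric.ball_subset_ball (by linarith) (hm s hs')))
  have hZe : ∀ s ∈ Icc (0 : ℝ) 1, Z =ᶠ[𝓝 (P (s, (t, y)))] fun p => (0, V p.2 p.1) := by
    intro s hs'
    filter_upwards [Metric.isOpen_ball.mem_nhds (hm s hs')] with p hp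
    simp only [Z, b.one_of_mem_closedBall (Metric.ball_subset_closedBall hp), one_smul]
  have hS : ∀ s ∈ Icc (0 : ℝ) 1, (P (s, (t, y))).2 ∈ S := by
    refine hinv t (fun s => (P (s, (t, y))).2) (by simp [h0]) fun s hs' => ⟨hΩ' s hs', ?_⟩
    have := (ContinuousLinearMap.snd ℝ T G).hasFDerivAt.comp_hasDerivAt s (hd s (t, y))
    rw [(hZe s hs').eq_of_nhds] at this
    simpa [hfst, Function.comp_def] using this
  refine ⟨hΩ' 1 ⟨zero_le_one, le_rfl⟩, hS 1 ⟨zero_le_one, le_rfl⟩, ?_⟩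
  exact flow_deriv (Ω := Ω ∩ S) (Z := Z) (Q := fun w => P (w.1, (w.2, y))) (y := y)
    (fun y hy => (hV y hy.1).of_le (by norm_num)) (fun x hx => hs x hx.1 hx.2)
    (hP.comp (by fun_prop)) (fun t => h0 _)
    (fun w => hfst _ _) (fun s t => hd s (t, y)) (fun s hs' => ⟨⟨hΩ' s hs', hS s hs'⟩, hZe s hs'⟩)

omit [FiniteDimensional ℝ T] [FiniteDimensional ℝ G] in
/-- Two solutions of `df = V f` on a convex set stay close. -/
theorem rigid {S : Set G} {V : G → T →L[ℝ] G} {K : ℝ}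
    (hK : ∀ x ∈ S, ∀ x' ∈ S, ‖V x - V x'‖ ≤ K * ‖x - x'‖) {O : Set T} (hO : Convex ℝ O)
    {f g : T → G} (hf : ∀ t ∈ O, f t ∈ S ∧ HasFDerivAt f (V (f t)) t)
    (hg : ∀ t ∈ O, g t ∈ S ∧ HasFDerivAt g (V (g t)) t) {a b : T} (ha : a ∈ O) (hb : b ∈ O) :
    ‖f b - g b‖ ≤ Real.exp (K * ‖b - a‖) * ‖f a - g a‖ := by
  set l : ℝ → T := fun s => a + s • (b - a) with hl
  have hlO : ∀ s ∈ Icc (0 : ℝ) 1, l s ∈ O := fun s hs => hO.add_smul_sub_mem ha hb hs
  have hld : ∀ s, HasDerivAt l (b - a) s := fun s => by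
    simpa [hl] using ((hasDerivAt_id s).smul_const (b - a)).const_add a
  have hw : ∀ s ∈ Icc (0 : ℝ) 1, HasDerivAt (fun s => f (l s) - g (l s))
      ((V (f (l s)) - V (g (l s))) (b - a)) s := fun s hs =>
    ((hf _ (hlO s hs)).2.comp_hasDerivAt s (hld s)).sub
      ((hg _ (hlO s hs)).2.comp_hasDerivAt s (hld s))
  have := norm_le_gronwallBound_of_norm_deriv_right_le (K := K * ‖b - a‖) (ε := 0)
    (δ := ‖f a - g a‖) (fun s hs => (hw s hs).continuousAt.continuousWithinAt)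
    (fun s hs => (hw s (Ico_subset_Icc_self hs)).hasDerivWithinAt) (by simp [hl])
    (fun s hs => by
      have h1 := hK _ (hf _ (hlO s (Ico_subset_Icc_self hs))).1 _
        (hg _ (hlO s (Ico_subset_Icc_self hs))).1
      calc _ ≤ ‖V (f (l s)) - V (g (l s))‖ * ‖b - a‖ := ContinuousLinearMap.le_opNorm _ _
        _ ≤ K * ‖f (l s) - g (l s)‖ * ‖b - a‖ := by gcongr
        _ = _ := by ring) 1 ⟨zero_le_one, le_rfl⟩
  rw [gronwallBound_ε0] at this
  simpa [hl, mul_comm] using this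

/-- A family of smooth functions has, near a suitable point, finitely many members `f` such that
every member is a Lipschitz function of `f`. -/
theorem chart_rank {M : Set G} (hM : IsOpen M) (hne : M.Nonempty) (FF : Set (G → ℝ))
    (hF : ∀ h ∈ FF, ContDiffOn ℝ 1 h M) :
    ∃ (k : ℕ) (f : G → Fin k → ℝ) (x₀ : G) (ρ : ℝ), 0 < ρ ∧ Metric.ball x₀ ρ ⊆ M ∧
      (∀ i, (fun x => f x i) ∈ FF) ∧
      ∀ (V : Type) [NormedAddCommGroup V] [NormedSpace ℝ V] (h : G → V), ContDiffOn ℝ 1 h M →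
        (∀ l : V →L[ℝ] ℝ, (fun x => l (h x)) ∈ FF) →
        ∃ C, ∀ x ∈ Metric.ball x₀ ρ, ∀ y ∈ Metric.ball x₀ ρ, ‖h x - h y‖ ≤ C * ‖f x - f y‖ := by
  classical
  have : CompleteSpace G := FiniteDimensional.complete ℝ _
  let Q : ℕ → Prop := fun k => ∃ (f : G → Fin k → ℝ) (x : G), x ∈ M ∧
    (∀ i, (fun x => f x i) ∈ FF) ∧ Function.Surjective (fderiv ℝ f x)
  have hQ0 : Q 0 := ⟨fun _ => Fin.elim0, hne.some, hne.some_mem, fun i => i.elim0,
    fun v => ⟨0, Subsingleton.elim _ _⟩⟩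
  have hQb : ∀ k, Q k → k ≤ Module.finrank ℝ G := by
    rintro k ⟨f, x, -, -, hs⟩
    simpa using LinearMap.finrank_le_finrank_of_surjective
      (f := (fderiv ℝ f x : G →ₗ[ℝ] Fin k → ℝ)) hs
  obtain ⟨k, ⟨f, x₀, hx₀, hf, hs⟩, hmax⟩ : ∃ k, Q k ∧ ¬Q (k + 1) := by
    refine ⟨Nat.findGreatest Q (Module.finrank ℝ G), Nat.findGreatest_spec (Nat.zero_le _) hQ0,
      fun h => ?_⟩
    exact absurd (Nat.le_findGreatest (hQb _ h) h) (by omega)
  have hfc : ContDiffOn ℝ 1 f M := contDiffOn_pi.2 fun i => hF _ (hf i)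
  have hfd : ∀ x ∈ M, DifferentiableAt ℝ f x := fun x hx =>
    (hfc.contDiffAt (hM.mem_nhds hx)).differentiableAt one_ne_zero
  -- kernel inclusion
  have hker : ∀ x ∈ M, Function.Surjective (fderiv ℝ f x) → ∀ h ∈ FF, ∀ v,
      fderiv ℝ f x v = 0 → fderiv ℝ h x v = 0 := by
    intro x hx hsx h hh v hv
    by_contra hne'
    have hhd : DifferentiableAt ℝ h x :=
      ((hF h hh).contDiffAt (hM.mem_nhds hx)).differentiableAt one_ne_zero
    refine hmax ⟨fun y => Fin.cons (h y) (f y), x, hx, fun i => ?_, fun w => ?_⟩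
    · refine Fin.cases ?_ (fun j => ?_) i
      · simpa using hh
      · simpa using hf j
    · obtain ⟨v₁, hv₁⟩ := hsx (Fin.tail w)
      have hD : HasFDerivAt (fun y => (Fin.cons (h y) (f y) : Fin (k + 1) → ℝ))
          (ContinuousLinearMap.pi (Fin.cons (fderiv ℝ h x)
            fun j => (ContinuousLinearMap.proj j).comp (fderiv ℝ f x))) x := by
        rw [hasFDerivAt_pi]
        intro i
        refine Fin.cases ?_ (fun j => ?_) i
        · simpa using hhd.hasFDerivAt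
        · simpa using (hasFDerivAt_pi'.1 (hfd x hx).hasFDerivAt) j
      refine ⟨v₁ + ((w 0 - fderiv ℝ h x v₁) / fderiv ℝ h x v) • v, ?_⟩
      rw [hD.fderiv]
      funext i
      refine Fin.cases ?_ (fun j => ?_) i
      · simp [div_mul_cancel₀ _ hne']
      · simp [hv, hv₁, Fin.tail]
  set D := fderiv ℝ f x₀ with hD
  obtain ⟨σ₀, hσ₀⟩ := LinearMap.exists_rightInverse_of_surjective (D : G →ₗ[ℝ] Fin k → ℝ)
    (LinearMap.range_eq_top.2 hs)
  set σ : (Fin k → ℝ) →L[ℝ] G := LinearMap.toContinuousLinearMap σ₀ with hσ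
  have hDσ : ∀ w, D (σ w) = w := fun w => by simpa [hσ] using LinearMap.congr_fun hσ₀ w
  set F : G → G := fun x => σ (f x) + (x - σ (D x)) with hFdef
  have hDF : ∀ x, D (F x) = f x := fun x => by simp [hFdef, hDσ]
  have hFc : ContDiffAt ℝ 1 F x₀ :=
    (σ.contDiff.contDiffAt.comp x₀ (hfc.contDiffAt (hM.mem_nhds hx₀))).add
      (contDiffAt_id.sub (σ.comp D).contDiff.contDiffAt)
  have hF' : HasFDerivAt F ((ContinuousLinearEquiv.refl ℝ G : G ≃L[ℝ] G) : G →L[ℝ] G) x₀ := by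
    have := (σ.hasFDerivAt.comp x₀ (hfd x₀ hx₀).hasFDerivAt).add
      ((hasFDerivAt_id x₀).sub (σ.comp D).hasFDerivAt)
    refine this.congr_fderiv ?_
    ext v; simp [← hD]
  set Γ := hFc.localInverse hF' one_ne_zero with hΓ
  have hΓc : ContDiffAt ℝ 1 Γ (F x₀) := hFc.to_localInverse hF' one_ne_zero
  have hst := hFc.hasStrictFDerivAt' hF' one_ne_zero
  have hl : ∀ᶠ x in 𝓝 x₀, Γ (F x) = x := hst.eventually_left_inverse
  have hr : ∀ᶠ w in 𝓝 (F x₀), F (Γ w) = w := hst.eventually_right_inverse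
  have hΓ0 : Γ (F x₀) = x₀ := hl.self_of_nhds
  have hev : ∀ᶠ w in 𝓝 (F x₀), ContDiffAt ℝ 1 Γ w ∧ Γ w ∈ M ∧ ∀ᶠ w' in 𝓝 w, F (Γ w') = w' := by
    refine (hΓc.eventually (by simp)).and (Filter.Eventually.and ?_ hr.eventually_nhds)
    exact hΓc.continuousAt.eventually_mem (hM.mem_nhds (hΓ0.symm ▸ hx₀))
  obtain ⟨R, hR, hB⟩ := Metric.nhds_basis_closedBall.mem_iff.1 hev
  set c : ℝ := 1 + 2 * ‖σ.comp D‖ with hc
  have hc0 : 1 ≤ c := by rw [hc]; linarith [norm_nonneg (σ.comp D)]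
  have hev2 : ∀ᶠ x in 𝓝 x₀, x ∈ M ∧ Γ (F x) = x ∧ F x ∈ Metric.closedBall (F x₀) (R / c) :=
    Filter.Eventually.and (hM.mem_nhds hx₀) (hl.and
      (hFc.continuousAt.eventually_mem (Metric.closedBall_mem_nhds _ (by positivity))))
  obtain ⟨ρ, hρ, hB2⟩ := Metric.eventually_nhds_iff_ball.1 hev2
  refine ⟨k, f, x₀, ρ, hρ, fun x hx => (hB2 x hx).1, hf, fun V _ _ h hh hl' => ?_⟩
  have hg : ∀ w ∈ Metric.closedBall (F x₀) R, ContDiffAt ℝ 1 (fun w => h (Γ w)) w := fun w hw =>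
    (hh.contDiffAt (hM.mem_nhds (hB hw).2.1)).comp w (hB hw).1
  obtain ⟨K, hK⟩ := ContDiffOn.exists_lipschitzOnWith
    (fun w hw => (hg w hw).contDiffWithinAt) one_ne_zero (convex_closedBall _ _)
    (isCompact_closedBall (F x₀) R)
  have hz : ∀ w ∈ Metric.closedBall (F x₀) R, ∀ κ, D κ = 0 →
      fderiv ℝ (fun w => h (Γ w)) w κ = 0 := by
    intro w hw κ hκ
    obtain ⟨h1, h2, h3⟩ := hB hw
    have hΓd := (h1.differentiableAt one_ne_zero).hasFDerivAt
    have hhd := ((hh.contDiffAt (hM.mem_nhds h2)).differentiableAt one_ne_zero).hasFDerivAt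
    have e1 : (fderiv ℝ f (Γ w)).comp (fderiv ℝ Γ w) = D := by
      refine ((hfd _ h2).hasFDerivAt.comp w hΓd).unique (D.hasFDerivAt.congr_of_eventuallyEq ?_)
      filter_upwards [h3] with w' hw'
      simp only [Function.comp_apply]
      rw [← hDF, hw']
    have e2 : Function.Surjective (fderiv ℝ f (Γ w)) := fun u =>
      ⟨fderiv ℝ Γ w (σ u), by rw [← ContinuousLinearMap.comp_apply, e1, hDσ]⟩
    have e3 : fderiv ℝ (fun w => h (Γ w)) w = (fderiv ℝ h (Γ w)).comp (fderiv ℝ Γ w) :=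
      (hhd.comp w hΓd).fderiv
    rw [e3, ContinuousLinearMap.comp_apply]
    refine SeparatingDual.eq_zero_of_forall_dual_eq_zero (R := ℝ) fun l => ?_
    have e4 := hker _ h2 e2 _ (hl' l) (fderiv ℝ Γ w κ)
      (by rw [← ContinuousLinearMap.comp_apply, e1, hκ])
    have e5 : fderiv ℝ (fun x => l (h x)) (Γ w) = l.comp (fderiv ℝ h (Γ w)) :=
      (l.hasFDerivAt.comp _ hhd).fderiv
    rwa [e5] at e4
  refine ⟨K * ‖σ‖, fun x hx y hy => ?_⟩
  obtain ⟨-, hx1, hx2⟩ := hB2 x hx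
  obtain ⟨-, hy1, hy2⟩ := hB2 y hy
  have hRc : R / c ≤ R := div_le_self hR.le hc0
  set w := F y + σ (D (F x - F y)) with hw
  have hwB : w ∈ Metric.closedBall (F x₀) R := by
    rw [mem_closedBall_iff_norm] at hx2 hy2 ⊢
    have a1 : ‖F x - F y‖ ≤ 2 * (R / c) := by
      calc ‖F x - F y‖ = ‖(F x - F x₀) - (F y - F x₀)‖ := by congr 1; abel
        _ ≤ _ := norm_sub_le _ _
        _ ≤ _ := by linarith
    have a2 : ‖σ (D (F x - F y))‖ ≤ ‖σ.comp D‖ * (2 * (R / c)) :=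
      ((σ.comp D).le_opNorm _).trans (by gcongr)
    calc ‖w - F x₀‖ = ‖(F y - F x₀) + σ (D (F x - F y))‖ := by congr 1; rw [hw]; abel
      _ ≤ R / c + ‖σ.comp D‖ * (2 * (R / c)) := (norm_add_le _ _).trans (by gcongr)
      _ = c * (R / c) := by rw [hc]; ring
      _ = R := by field_simp
  have hxB := Metric.closedBall_subset_closedBall hRc hx2
  have hyB := Metric.closedBall_subset_closedBall hRc hy2
  have b1 : h (Γ (F x)) = h (Γ w) := by
    set l : ℝ → G := fun s => w + s • (F x - w) with hl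
    have hlO : ∀ s ∈ Icc (0 : ℝ) 1, l s ∈ Metric.closedBall (F x₀) R := fun s hs =>
      (convex_closedBall _ _).add_smul_sub_mem hwB hxB hs
    have hld : ∀ s, HasDerivAt l (F x - w) s := fun s => by
      simpa [hl] using ((hasDerivAt_id s).smul_const (F x - w)).const_add w
    have hd : ∀ s ∈ Icc (0 : ℝ) 1, HasDerivAt (fun s => h (Γ (l s))) 0 s := fun s hs => by
      have := ((hg _ (hlO s hs)).differentiableAt one_ne_zero).hasFDerivAt.comp_hasDerivAt s (hld s)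
      rwa [hz _ (hlO s hs) _ (by simp [hw, hDσ])] at this
    have := constant_of_has_deriv_right_zero
      (fun s hs => (hd s hs).continuousAt.continuousWithinAt)
      (fun s hs => (hd s (Ico_subset_Icc_self hs)).hasDerivWithinAt) 1 ⟨zero_le_one, le_rfl⟩
    simpa [hl] using this
  have b2 := hK.dist_le_mul w hwB (F y) hyB
  rw [dist_eq_norm, dist_eq_norm, ← b1, hx1, hy1] at b2
  refine b2.trans ?_
  rw [mul_assoc]
  gcongr
  have : w - F y = σ (f x - f y) := by rw [hw, map_sub D, hDF, hDF]; abel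
  rw [this]
  exact σ.le_opNorm _

end real

end Pool.Agent.CL
end

-- part Pool.Agent.P.MP_63735c_ag.CLG2
section

/-! Lemma G, layer 2: Cartan's extension lemma for a smooth absolute parallelism. -/

open Set Filter Topology Metric
open scoped ContDiff

set_option linter.unusedSectionVars false

namespace Pool.Agent.CL

variable {W V : Type} [NormedAddCommGroup W] [NormedSpace ℝ W]
  [NormedAddCommGroup V] [NormedSpace ℝ V]

/-- A smooth frame `Ξ` with inverse `θ` and a smooth function `m` on the open set `M`. -/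
structure Frame (M : Set W) (Ξ θ : W → W →L[ℝ] W) (m : W → V) : Prop where
  isOpen : IsOpen M
  Ξ_sm : ContDiffOn ℝ ∞ Ξ M
  θ_sm : ContDiffOn ℝ ∞ θ M
  m_sm : ContDiffOn ℝ ∞ m M
  left : ∀ x ∈ M, ∀ v, θ x (Ξ x v) = v
  right : ∀ x ∈ M, ∀ v, Ξ x (θ x v) = v

/-- A local automorphism of the frame that keeps `m`. -/
structure IsAut (M : Set W) (Ξ θ : W → W →L[ℝ] W) (m : W → V) (φ : W → W) (O : Set W) : Prop where
  isOpen : IsOpen O
  sub : O ⊆ M
  maps : MapsTo φ O M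
  der : ∀ y ∈ O, HasFDerivAt φ ((Ξ (φ y)).comp (θ y)) y
  m_eq : ∀ y ∈ O, m (φ y) = m y

/-- Smooth functions kept by all local automorphisms. -/
def FInv (M : Set W) (Ξ θ : W → W →L[ℝ] W) (m : W → V) : Set (W → ℝ) :=
  {h | ContDiffOn ℝ ∞ h M ∧ ∀ φ O, IsAut M Ξ θ m φ O → ∀ y ∈ O, h (φ y) = h y}

/-- All invariants agree at `p` and `q`. -/
def FRel (M : Set W) (Ξ θ : W → W →L[ℝ] W) (m : W → V) (p q : W) : Prop :=
  ∀ h ∈ FInv M Ξ θ m, h p = h q

/-- The structure functions. -/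
noncomputable def strf (Ξ θ : W → W →L[ℝ] W) (a b x : W) : W :=
  θ x (fderiv ℝ Ξ x (Ξ x a) b - fderiv ℝ Ξ x (Ξ x b) a)

variable {M : Set W} {Ξ θ : W → W →L[ℝ] W} {m : W → V}

lemma FRel.symm {p q : W} (h : FRel M Ξ θ m p q) : FRel M Ξ θ m q p := fun f hf => (h f hf).symm

lemma IsAut.rel {φ : W → W} {O : Set W} (h : IsAut M Ξ θ m φ O) {y : W} (hy : y ∈ O) :
    FRel M Ξ θ m y (φ y) := fun _ hf => (hf.2 φ O h y hy).symm

lemma finv_vec {V' : Type} [NormedAddCommGroup V'] [NormedSpace ℝ V'] {h : W → V'}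
    (hs : ContDiffOn ℝ ∞ h M) (hi : ∀ φ O, IsAut M Ξ θ m φ O → ∀ y ∈ O, h (φ y) = h y)
    (l : V' →L[ℝ] ℝ) : (fun x => l (h x)) ∈ FInv M Ξ θ m :=
  ⟨l.contDiff.comp_contDiffOn hs, fun φ O hφ y hy => by simp only [hi φ O hφ y hy]⟩

namespace Frame

variable (F : Frame M Ξ θ m)
include F

lemma dΞ {x : W} (hx : x ∈ M) : HasFDerivAt Ξ (fderiv ℝ Ξ x) x :=
  ((F.Ξ_sm.contDiffAt (F.isOpen.mem_nhds hx)).differentiableAt (by simp)).hasFDerivAt

lemma dθ {x : W} (hx : x ∈ M) : HasFDerivAt θ (fderiv ℝ θ x) x :=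
  ((F.θ_sm.contDiffAt (F.isOpen.mem_nhds hx)).differentiableAt (by simp)).hasFDerivAt

lemma dθ_eq {y : W} (hy : y ∈ M) (s t : W) :
    fderiv ℝ θ y s t = -θ y (fderiv ℝ Ξ y s (θ y t)) := by
  have h1 := (F.dΞ hy).clm_apply ((F.dθ hy).clm_apply (hasFDerivAt_const t y))
  have h2 : HasFDerivAt (fun y => Ξ y (θ y t)) (0 : W →L[ℝ] W) y := by
    refine (hasFDerivAt_const t y).congr_of_eventuallyEq ?_
    filter_upwards [F.isOpen.mem_nhds hy] with x hx using F.right x hx t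
  have h3 := congrArg (fun L : W →L[ℝ] W => θ y (L s)) (h1.unique h2)
  simp only [add_apply, ContinuousLinearMap.comp_apply, ContinuousLinearMap.flip_apply, map_add,
    F.left y hy, zero_apply, map_zero, zero_add] at h3
  exact eq_neg_of_add_eq_zero_left h3

lemma asym {x y : W} (hx : x ∈ M) (hy : y ∈ M) (s t : W) :
    (fderiv ℝ Ξ x (Ξ x (θ y s)) (θ y t) + Ξ x (fderiv ℝ θ y s t)) -
      (fderiv ℝ Ξ x (Ξ x (θ y t)) (θ y s) + Ξ x (fderiv ℝ θ y t s)) =
      Ξ x (strf Ξ θ (θ y s) (θ y t) x - strf Ξ θ (θ y s) (θ y t) y) := by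
  simp only [F.dθ_eq hy, strf, map_sub, F.right x hx, F.right y hy, map_neg]
  abel

lemma strf_sm (a b : W) : ContDiffOn ℝ ∞ (strf Ξ θ a b) M := by
  have h1 : ContDiffOn ℝ ∞ (fderiv ℝ Ξ) M := F.Ξ_sm.fderiv_of_isOpen F.isOpen (by simp)
  exact F.θ_sm.clm_apply
    (((h1.clm_apply (F.Ξ_sm.clm_apply contDiffOn_const)).clm_apply contDiffOn_const).sub
      ((h1.clm_apply (F.Ξ_sm.clm_apply contDiffOn_const)).clm_apply contDiffOn_const))

lemma strf_inv (a b : W) (φ : W → W) (O : Set W) (h : IsAut M Ξ θ m φ O) (y : W) (hy : y ∈ O) :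
    strf Ξ θ a b (φ y) = strf Ξ θ a b y := by
  have hyM := h.sub hy
  have hx := h.maps hy
  have h1 := ((F.dΞ hx).comp y (h.der y hy)).clm_comp (F.dθ hyM)
  have h2 := second_derivative_symmetric_of_eventually_of_real
    (f' := fun y => (Ξ (φ y)).comp (θ y))
    (Filter.eventually_of_mem (h.isOpen.mem_nhds hy) fun z hz => h.der z hz) h1 (Ξ y a) (Ξ y b)
  have h3 := F.asym hx hyM (Ξ y a) (Ξ y b)
  simp only [F.left y hyM] at h3
  simp only [add_apply, ContinuousLinearMap.comp_apply, ContinuousLinearMap.flip_apply,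
    ContinuousLinearMap.compL_apply, Function.comp_apply, F.left y hyM] at h2
  rw [add_comm, add_comm (fderiv ℝ Ξ (φ y) _ a), h2, sub_self] at h3
  have h4 := congrArg (θ (φ y)) h3
  rw [F.left _ hx, map_zero] at h4
  exact sub_eq_zero.1 h4.symm

lemma der_inv {V' : Type} [NormedAddCommGroup V'] [NormedSpace ℝ V'] {f : W → V'}
    (hs : ContDiffOn ℝ ∞ f M) (hi : ∀ φ O, IsAut M Ξ θ m φ O → ∀ y ∈ O, f (φ y) = f y)
    (φ : W → W) (O : Set W) (h : IsAut M Ξ θ m φ O) (y : W) (hy : y ∈ O) :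
    (fderiv ℝ f (φ y)).comp (Ξ (φ y)) = (fderiv ℝ f y).comp (Ξ y) := by
  have h1 := (((hs.contDiffAt (F.isOpen.mem_nhds (h.maps hy))).differentiableAt
    (by simp)).hasFDerivAt).comp y (h.der y hy)
  have h2 : HasFDerivAt f ((fderiv ℝ f (φ y)).comp ((Ξ (φ y)).comp (θ y))) y := by
    refine h1.congr_of_eventuallyEq ?_
    filter_upwards [h.isOpen.mem_nhds hy] with z hz using (hi φ O h z hz).symm
  rw [h2.fderiv]
  ext v
  simp [F.left y (h.sub hy)]

/-- Cartan's lemma: near a suitable point, two points with the same invariants are joined by an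
automorphism defined on a ball of fixed radius. -/
theorem cartan [FiniteDimensional ℝ W] {M' : Set W} (hM' : IsOpen M') (hne : M'.Nonempty)
    (hsub : M' ⊆ M) : ∃ p₀ ∈ M', ∃ ρ > 0, ∃ r > 0, ∀ p ∈ ball p₀ ρ, ∀ q ∈ ball p₀ ρ,
      FRel M Ξ θ m p q → ∃ ψ, IsAut M Ξ θ m ψ (ball p r) ∧ ψ p = q ∧ ball p r ⊆ M' ∧
        MapsTo ψ (ball p r) M' := by
  obtain ⟨k, f, x₀, ρ₀, hρ₀, hB, hf, hL⟩ := chart_rank hM' hne (FInv M Ξ θ m)
    fun h hh => (hh.1.mono hsub).of_le (by simp)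
  have hfs : ContDiffOn ℝ ∞ f M := contDiffOn_pi.2 fun i => (hf i).1
  have hfi : ∀ φ O, IsAut M Ξ θ m φ O → ∀ y ∈ O, f (φ y) = f y := fun φ O h y hy =>
    funext fun i => (hf i).2 φ O h y hy
  have hBM : ball x₀ ρ₀ ⊆ M := hB.trans hsub
  have heq : ∀ (V' : Type) [NormedAddCommGroup V'] [NormedSpace ℝ V'] (h : W → V'),
      ContDiffOn ℝ ∞ h M → (∀ φ O, IsAut M Ξ θ m φ O → ∀ y ∈ O, h (φ y) = h y) →
      ∀ x ∈ ball x₀ ρ₀, ∀ y ∈ ball x₀ ρ₀, f x = f y → h x = h y := by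
    intro V' _ _ h hs hi x hx y hy hxy
    obtain ⟨C, hC⟩ := hL V' h ((hs.mono hsub).of_le (by simp)) (finv_vec hs hi)
    have := hC x hx y hy
    rw [hxy, sub_self, norm_zero, mul_zero] at this
    exact sub_eq_zero.1 (norm_le_zero_iff.1 this)
  have hgs : ContDiffOn ℝ ∞ (fun x => (fderiv ℝ f x).comp (Ξ x)) M :=
    (hfs.fderiv_of_isOpen F.isOpen (by simp)).clm_comp F.Ξ_sm
  obtain ⟨C, hC⟩ := hL _ (fun x => (fderiv ℝ f x).comp (Ξ x)) ((hgs.mono hsub).of_le (by simp))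
    (finv_vec hgs (F.der_inv hfs hfi))
  set Vf : W × W → W →L[ℝ] W × W := fun z =>
    ((Ξ z.1).comp (θ z.2)).prod (ContinuousLinearMap.id ℝ W) with hVf
  have hVe : Vf = fun z => (ContinuousLinearMap.inl ℝ W W).comp ((Ξ z.1).comp (θ z.2)) +
      ContinuousLinearMap.inr ℝ W W := by
    funext z; ext v <;> simp [hVf]
  have hVs : ∀ z ∈ ball x₀ ρ₀ ×ˢ ball x₀ ρ₀, ContDiffAt ℝ 2 Vf z := by
    intro z hz
    rw [hVe]
    have a1 : ContDiffAt ℝ 2 (fun z : W × W => Ξ z.1) z :=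
      ((F.Ξ_sm.contDiffAt (F.isOpen.mem_nhds (hBM hz.1))).of_le (by norm_cast)).comp z contDiffAt_fst
    have a2 : ContDiffAt ℝ 2 (fun z : W × W => θ z.2) z :=
      ((F.θ_sm.contDiffAt (F.isOpen.mem_nhds (hBM hz.2))).of_le (by norm_cast)).comp z contDiffAt_snd
    exact (contDiffAt_const.clm_comp (a1.clm_comp a2)).add contDiffAt_const
  obtain ⟨r₁, hr₁, δ, hδ, hfr⟩ := frob_inv (isOpen_ball.prod isOpen_ball) hVs (a := (x₀, x₀))
    ⟨mem_ball_self hρ₀, mem_ball_self hρ₀⟩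
  refine ⟨x₀, hB (mem_ball_self hρ₀), r₁, hr₁, δ, hδ, fun p hp q hq hpq => ?_⟩
  obtain ⟨Φ, hΦ0, hΦ⟩ := hfr (q, p) (by rw [← ball_prod_same]; exact ⟨hq, hp⟩)
    {z | f z.1 = f z.2} (by
      intro z hz hS s t
      have a1 : HasFDerivAt (fun z : W × W => Ξ z.1)
          ((fderiv ℝ Ξ z.1).comp (ContinuousLinearMap.fst ℝ W W)) z :=
        HasFDerivAt.comp z (f := fun z : W × W => z.1) (F.dΞ (hBM hz.1)) hasFDerivAt_fst
      have a2 : HasFDerivAt (fun z : W × W => θ z.2)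
          ((fderiv ℝ θ z.2).comp (ContinuousLinearMap.snd ℝ W W)) z :=
        HasFDerivAt.comp z (f := fun z : W × W => z.2) (F.dθ (hBM hz.2)) hasFDerivAt_snd
      have a3 := ((hasFDerivAt_const (ContinuousLinearMap.inl ℝ W W) z).clm_comp
        (a1.clm_comp a2)).add_const (ContinuousLinearMap.inr ℝ W W)
      rw [← hVe] at a3
      have a4 := F.asym (hBM hz.1) (hBM hz.2) s t
      rw [heq W _ (F.strf_sm _ _) (F.strf_inv _ _) _ hz.1 _ hz.2 hS, sub_self, map_zero,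
        sub_eq_zero] at a4
      rw [a3.fderiv]
      simp only [hVf]
      simp
      rw [add_comm, a4, add_comm]) (by
      intro t c hc0 hc
      have hw : ∀ s ∈ Icc (0 : ℝ) 1, HasDerivAt (fun s => f (c s).1 - f (c s).2)
          (((fderiv ℝ f (c s).1).comp (Ξ (c s).1) - (fderiv ℝ f (c s).2).comp (Ξ (c s).2))
            (θ (c s).2 t)) s := by
        intro s hs
        obtain ⟨hm, hd⟩ := hc s hs
        have b0 : ∀ x ∈ M, HasFDerivAt f (fderiv ℝ f x) x := fun x hx =>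
          ((hfs.contDiffAt (F.isOpen.mem_nhds hx)).differentiableAt (by simp)).hasFDerivAt
        have b1 := (b0 _ (hBM hm.1)).comp_hasDerivAt s
          ((ContinuousLinearMap.fst ℝ W W).hasFDerivAt.comp_hasDerivAt s hd)
        have b2 := (b0 _ (hBM hm.2)).comp_hasDerivAt s
          ((ContinuousLinearMap.snd ℝ W W).hasFDerivAt.comp_hasDerivAt s hd)
        refine (b1.sub b2).congr_deriv ?_
        simp [hVf, F.right _ (hBM hm.2)]
      have hcn : ContinuousOn (fun s => θ (c s).2 t) (Icc (0 : ℝ) 1) := fun s hs =>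
        (((F.dθ (hBM (hc s hs).1.2)).continuousAt.comp (f := fun s => (c s).2)
          (hc s hs).2.continuousAt.snd).clm_apply continuousAt_const).continuousWithinAt
      obtain ⟨B, hB'⟩ := isCompact_Icc.exists_bound_of_continuousOn hcn
      have hz := eq_zero_of_abs_deriv_le_mul_abs_self_of_eq_zero_right (K := max C 0 * B)
        (fun s hs => (hw s hs).continuousAt.continuousWithinAt)
        (fun s hs => (hw s (Ico_subset_Icc_self hs)).hasDerivWithinAt)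
        (by rw [hc0]; exact sub_eq_zero.2 (funext fun i => (hpq _ (hf i)).symm))
        (fun s hs => by
          have hs' := Ico_subset_Icc_self hs
          have c1 := hC _ (hc s hs').1.1 _ (hc s hs').1.2
          have c2 := hB' s hs'
          calc _ ≤ _ := ContinuousLinearMap.le_opNorm _ _
            _ ≤ (max C 0 * ‖f (c s).1 - f (c s).2‖) * B := by
                gcongr
                exact c1.trans (by gcongr; exact le_max_left _ _)
            _ = _ := by ring)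
      exact fun s hs => sub_eq_zero.1 (hz s hs))
  have h2 : ∀ t ∈ ball (0 : W) δ, (Φ t).2 = p + t := by
    intro t ht
    have hd : ∀ t ∈ ball (0 : W) δ, HasFDerivAt (fun t => (Φ t).2 - t) (0 : W →L[ℝ] W) t := by
      intro t ht
      refine (((ContinuousLinearMap.snd ℝ W W).hasFDerivAt.comp t (hΦ t ht).2.2).sub
        (hasFDerivAt_id t)).congr_fderiv ?_
      ext v; simp [hVf]
    have := (convex_ball (0 : W) δ).norm_image_sub_le_of_norm_hasFDerivWithin_le (C := 0)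
      (fun t ht => (hd t ht).hasFDerivWithinAt) (fun _ _ => by simp) (mem_ball_self hδ) ht
    simp only [hΦ0, sub_zero, zero_mul, norm_le_zero_iff] at this
    rw [← sub_eq_zero, ← this]; abel
  have hmem : ∀ y ∈ ball p δ, y - p ∈ ball (0 : W) δ := fun y hy => by
    simpa [dist_eq_norm] using hy
  have h3 : ∀ y ∈ ball p δ, (Φ (y - p)).2 = y := fun y hy => by rw [h2 _ (hmem y hy)]; abel
  have h4 : ∀ y ∈ ball p δ, y ∈ ball x₀ ρ₀ := fun y hy => h3 y hy ▸ (hΦ _ (hmem y hy)).1.2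
  refine ⟨fun y => (Φ (y - p)).1, ⟨isOpen_ball, fun y hy => hBM (h4 y hy),
    fun y hy => hBM (hΦ _ (hmem y hy)).1.1, fun y hy => ?_, fun y hy => ?_⟩, by simp [hΦ0],
    fun y hy => hB (h4 y hy), fun y hy => hB (hΦ _ (hmem y hy)).1.1⟩
  · have := (ContinuousLinearMap.fst ℝ W W).hasFDerivAt.comp y
      (HasFDerivAt.comp y (f := fun y => y - p) (hΦ _ (hmem y hy)).2.2
        ((hasFDerivAt_id y).sub_const p))
    refine this.congr_fderiv ?_
    ext v; simp [hVf, h3 y hy]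
  · refine heq V m F.m_sm (fun φ O h y hy => h.m_eq y hy) _ (hΦ _ (hmem y hy)).1.1 _ (h4 y hy) ?_
    have := (hΦ _ (hmem y hy)).2.1
    simpa [h3 y hy] using this

end Frame

end Pool.Agent.CL
end

-- part Pool.Agent.P.MP_63735c_ag.CLG3
section

/-! Lemma G, layer 3: maps that keep a connection and a tensor. Extension and rigidity. -/

open Set Filter Topology Metric
open scoped ContDiff

set_option linter.unusedSectionVars false

namespace Pool.Agent.CL

variable {B V : Type} [NormedAddCommGroup B] [NormedSpace ℝ B] [FiniteDimensional ℝ B]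
  [NormedAddCommGroup V] [NormedSpace ℝ V]

/-- The second derivative of an affine map with 1-jet x, U at `y`. -/
noncomputable def affD (Γ : B → B →L[ℝ] B →L[ℝ] B) (y x : B) (U : B →L[ℝ] B) :
    B →L[ℝ] B →L[ℝ] B :=
  (ContinuousLinearMap.mul ℝ (B →L[ℝ] B) U).comp (Γ y) -
    ((ContinuousLinearMap.mul ℝ (B →L[ℝ] B)).flip U).comp ((Γ x).comp U)

lemma affD_apply (Γ : B → B →L[ℝ] B →L[ℝ] B) (y x : B) (U : B →L[ℝ] B) (e : B) :
    affD Γ y x U e = U * Γ y e - Γ x (U e) * U := by simp [affD]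

/-- `γ`, with derivative `U`, keeps the connection `Γ` and the tensor `t` on `O`. -/
structure IsAff (T : Set B) (Γ : B → B →L[ℝ] B →L[ℝ] B) (t : B → B →L[ℝ] B →L[ℝ] V)
    (γ : B → B) (U : B → B →L[ℝ] B) (O : Set B) : Prop where
  isOpen : IsOpen O
  sub : O ⊆ T
  maps : MapsTo γ O T
  der : ∀ y ∈ O, HasFDerivAt γ (U y) y
  der2 : ∀ y ∈ O, HasFDerivAt U (affD Γ y (γ y) (U y)) y
  unit : ∀ y ∈ O, IsUnit (U y)
  t_eq : ∀ y ∈ O, ∀ u v, t (γ y) (U y u) (U y v) = t y u v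

/-- The canonical parallelism of the frame bundle. -/
noncomputable def frXi (Γ : B → B →L[ℝ] B →L[ℝ] B) (p : B × (B →L[ℝ] B)) :
    B × (B →L[ℝ] B) →L[ℝ] B × (B →L[ℝ] B) :=
  (p.2.comp (ContinuousLinearMap.fst ℝ _ _)).prod
    ((ContinuousLinearMap.mul ℝ (B →L[ℝ] B) p.2).comp (ContinuousLinearMap.snd ℝ _ _) -
      ((ContinuousLinearMap.mul ℝ (B →L[ℝ] B)).flip p.2).comp
        ((Γ p.1).comp (p.2.comp (ContinuousLinearMap.fst ℝ _ _))))

/-- Its inverse. -/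
noncomputable def frTh (Γ : B → B →L[ℝ] B →L[ℝ] B) (p : B × (B →L[ℝ] B)) :
    B × (B →L[ℝ] B) →L[ℝ] B × (B →L[ℝ] B) :=
  ((Ring.inverse p.2).comp (ContinuousLinearMap.fst ℝ _ _)).prod
    ((ContinuousLinearMap.mul ℝ (B →L[ℝ] B) (Ring.inverse p.2)).comp
      (ContinuousLinearMap.snd ℝ _ _ + ((ContinuousLinearMap.mul ℝ (B →L[ℝ] B)).flip p.2).comp
        ((Γ p.1).comp (ContinuousLinearMap.fst ℝ _ _))))

/-- The tensor read in a frame. -/
noncomputable def frM (t : B → B →L[ℝ] B →L[ℝ] V) (p : B × (B →L[ℝ] B)) : B →L[ℝ] B →L[ℝ] V :=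
  (t p.1).bilinearComp p.2 p.2

variable {T : Set B} {Γ : B → B →L[ℝ] B →L[ℝ] B} {t : B → B →L[ℝ] B →L[ℝ] V}

lemma frXi_apply (p w : B × (B →L[ℝ] B)) :
    frXi Γ p w = (p.2 w.1, p.2 * w.2 - Γ p.1 (p.2 w.1) * p.2) := by simp [frXi]

lemma frTh_apply (p w : B × (B →L[ℝ] B)) :
    frTh Γ p w = (Ring.inverse p.2 w.1, Ring.inverse p.2 * (w.2 + Γ p.1 w.1 * p.2)) := by
  simp [frTh, mul_add]

lemma unit_left {F : B →L[ℝ] B} (h : IsUnit F) (v : B) : Ring.inverse F (F v) = v := by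
  rw [← mul_apply_eq_comp, Ring.inverse_mul_cancel _ h]; rfl

lemma unit_right {F : B →L[ℝ] B} (h : IsUnit F) (v : B) : F (Ring.inverse F v) = v := by
  rw [← mul_apply_eq_comp, Ring.mul_inverse_cancel _ h]; rfl

lemma frame_fr (hT : IsOpen T) (hΓ : ContDiffOn ℝ ∞ Γ T) (ht : ContDiffOn ℝ ∞ t T) :
    Frame (T ×ˢ {F : B →L[ℝ] B | IsUnit F}) (frXi Γ) (frTh Γ) (frM t) := by
  have : CompleteSpace B := FiniteDimensional.complete ℝ _
  have h1 : ContDiffOn ℝ ∞ (fun p : B × (B →L[ℝ] B) => Γ p.1) (T ×ˢ {F | IsUnit F}) :=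
    hΓ.comp contDiffOn_fst fun p hp => hp.1
  have h2 : ContDiffOn ℝ ∞ (fun p : B × (B →L[ℝ] B) => t p.1) (T ×ˢ {F | IsUnit F}) :=
    ht.comp contDiffOn_fst fun p hp => hp.1
  have h3 : ContDiffOn ℝ ∞ (fun p : B × (B →L[ℝ] B) => Ring.inverse p.2) (T ×ˢ {F | IsUnit F}) := by
    intro p hp
    obtain ⟨u, hu⟩ := hp.2
    have := contDiffAt_ringInverse ℝ (n := ∞) u
    rw [hu] at this
    exact (this.comp p contDiffAt_snd).contDiffWithinAt
  refine ⟨hT.prod Units.isOpen, ?_, ?_, ?_, fun p hp v => ?_, fun p hp v => ?_⟩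
  · refine contDiffOn_clm_apply.2 fun w => ?_
    simp only [frXi_apply]
    exact (contDiffOn_snd.clm_apply contDiffOn_const).prodMk
      ((contDiffOn_snd.mul contDiffOn_const).sub
        ((h1.clm_apply (contDiffOn_snd.clm_apply contDiffOn_const)).mul contDiffOn_snd))
  · refine contDiffOn_clm_apply.2 fun w => ?_
    simp only [frTh_apply]
    exact (h3.clm_apply contDiffOn_const).prodMk
      (h3.mul (contDiffOn_const.add ((h1.clm_apply contDiffOn_const).mul contDiffOn_snd)))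
  · refine contDiffOn_clm_apply.2 fun u => contDiffOn_clm_apply.2 fun v => ?_
    simp only [frM, ContinuousLinearMap.bilinearComp_apply]
    exact (h2.clm_apply (contDiffOn_snd.clm_apply contDiffOn_const)).clm_apply
      (contDiffOn_snd.clm_apply contDiffOn_const)
  · rw [frXi_apply, frTh_apply]
    simp only [unit_left hp.2, sub_add_cancel, ← mul_assoc, Ring.inverse_mul_cancel _ hp.2, one_mul]
  · rw [frTh_apply, frXi_apply]
    simp only [unit_right hp.2, ← mul_assoc, Ring.mul_inverse_cancel _ hp.2, one_mul,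
      add_sub_cancel_right]

lemma IsAff.prolong {γ : B → B} {U : B → B →L[ℝ] B} {O : Set B} (h : IsAff T Γ t γ U O) :
    IsAut (T ×ˢ {F : B →L[ℝ] B | IsUnit F}) (frXi Γ) (frTh Γ) (frM t)
      (fun p => (γ p.1, U p.1 * p.2)) (O ×ˢ {F : B →L[ℝ] B | IsUnit F}) := by
  have : CompleteSpace B := FiniteDimensional.complete ℝ _
  refine ⟨h.isOpen.prod Units.isOpen, fun p hp => ⟨h.sub hp.1, hp.2⟩,
    fun p hp => ⟨h.maps hp.1, (h.unit _ hp.1).mul hp.2⟩, fun p hp => ?_, fun p hp => ?_⟩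
  · have a1 := HasFDerivAt.comp p (f := fun p : B × (B →L[ℝ] B) => p.1) (h.der _ hp.1)
      hasFDerivAt_fst
    have a2 := HasFDerivAt.comp p (f := fun p : B × (B →L[ℝ] B) => p.1) (h.der2 _ hp.1)
      hasFDerivAt_fst
    refine (a1.prodMk (a2.mul' hasFDerivAt_snd)).congr_fderiv ?_
    refine ContinuousLinearMap.ext fun w => ?_
    rw [ContinuousLinearMap.comp_apply, frTh_apply, frXi_apply]
    have e1 : U p.1 * p.2 * (Ring.inverse p.2 * (w.2 + Γ p.1 w.1 * p.2)) =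
        U p.1 * (w.2 + Γ p.1 w.1 * p.2) := by
      rw [mul_assoc, ← mul_assoc p.2, Ring.mul_inverse_cancel _ hp.2, one_mul]
    simp only [mul_apply_eq_comp, unit_right hp.2, e1]
    simp [affD_apply]
    noncomm_ring
  · ext u v
    simp [frM, h.t_eq _ hp.1]

lemma IsAut.slice {ψ : B × (B →L[ℝ] B) → B × (B →L[ℝ] B)} {y : B} {F : B →L[ℝ] B} {r : ℝ}
    (h : IsAut (T ×ˢ {F : B →L[ℝ] B | IsUnit F}) (frXi Γ) (frTh Γ) (frM t) ψ (ball (y, F) r)) :
    IsAff T Γ t (fun x => (ψ (x, F)).1) (fun x => (ψ (x, F)).2 * Ring.inverse F) (ball y r) := by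
  have hm : ∀ x ∈ ball y r, (x, F) ∈ ball (y, F) r := fun x hx => by
    rw [← ball_prod_same]; exact ⟨hx, mem_ball_self (pos_of_mem_ball hx)⟩
  have hd : ∀ x ∈ ball y r, HasFDerivAt (fun x => ψ (x, F))
      (((frXi Γ (ψ (x, F))).comp (frTh Γ (x, F))).comp (ContinuousLinearMap.inl ℝ _ _)) x :=
    fun x hx => (h.der _ (hm x hx)).comp x (hasFDerivAt_prodMk_left x F)
  refine ⟨isOpen_ball, fun x hx => (h.sub (hm x hx)).1, fun x hx => (h.maps (hm x hx)).1,
    fun x hx => ?_, fun x hx => ?_, fun x hx => ?_, fun x hx u v => ?_⟩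
  · refine (hd x hx).fst.congr_fderiv ?_
    ext e
    simp [frXi_apply, frTh_apply]
  · have hF : IsUnit F := (h.sub (hm x hx)).2
    refine ((hd x hx).snd.mul_const' (Ring.inverse F)).congr_fderiv ?_
    refine ContinuousLinearMap.ext fun e => ?_
    simp [frXi_apply, frTh_apply, affD_apply, sub_mul, mul_assoc, Ring.mul_inverse_cancel _ hF]
  · exact IsUnit.mul (h.maps (hm x hx)).2 (IsUnit.ringInverse (h.sub (hm x hx)).2)
  · have hF : IsUnit F := (h.sub (hm x hx)).2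
    have := congrArg (fun L : B →L[ℝ] B →L[ℝ] V => L (Ring.inverse F u) (Ring.inverse F v))
      (h.m_eq _ (hm x hx))
    simpa [frM, unit_right hF] using this

/-- Germs with a small jet extend to a ball of fixed radius, and so do their inverses. -/
theorem aff_ext (hT : IsOpen T) (hΓ : ContDiffOn ℝ ∞ Γ T) (ht : ContDiffOn ℝ ∞ t T) {T' : Set B}
    (hT' : IsOpen T') (hne : T'.Nonempty) (hsub : T' ⊆ T) :
    ∃ y₀ ∈ T', ∃ ρ > 0, ∃ r > 0, ∃ C : ℝ, 1 ≤ C ∧ ∀ γ U O, IsAff T Γ t γ U O → ∀ y ∈ O,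
      y ∈ ball y₀ ρ → γ y ∈ ball y₀ ρ → ‖U y - 1‖ < ρ →
      (∃ γ' U', IsAff T Γ t γ' U' (ball y r) ∧ γ' y = γ y ∧ U' y = U y ∧ ball y r ⊆ T' ∧
        ∀ x ∈ ball y r, γ' x ∈ T' ∧ ‖U' x‖ ≤ C) ∧
      ∃ γ' U', IsAff T Γ t γ' U' (ball (γ y) r) ∧ γ' (γ y) = y ∧ U' (γ y) * U y = 1 ∧
        ∀ x ∈ ball (γ y) r, γ' x ∈ T' ∧ ‖U' x‖ ≤ C := by
  have : CompleteSpace B := FiniteDimensional.complete ℝ _
  have hu : ∀ F ∈ closedBall (1 : B →L[ℝ] B) (1 / 2), IsUnit F := by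
    intro F hF
    rw [mem_closedBall_iff_norm'] at hF
    have := isUnit_one_sub_of_norm_lt_one (x := 1 - F) (by linarith)
    rwa [sub_sub_cancel] at this
  have hcn : ContinuousOn (fun F : B →L[ℝ] B => Ring.inverse F) (closedBall 1 (1 / 2)) := by
    intro F hF
    obtain ⟨u, rfl⟩ := hu F hF
    exact (contDiffAt_ringInverse ℝ (n := 0) u).continuousAt.continuousWithinAt
  obtain ⟨C, hC⟩ := (isCompact_closedBall (1 : B →L[ℝ] B) (1 / 2)).exists_bound_of_continuousOn hcn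
  obtain ⟨⟨y₀, F₀⟩, hp₀, ρ, hρ, r, hr, H⟩ := (frame_fr hT hΓ ht).cartan
    (M' := T' ×ˢ ball 1 (1 / 2)) (hT'.prod isOpen_ball)
    (hne.prod ⟨1, mem_ball_self (by norm_num)⟩)
    fun p hp => ⟨hsub hp.1, hu _ (ball_subset_closedBall hp.2)⟩
  have hb : ∀ F ∈ ball (1 : B →L[ℝ] B) (1 / 2), ‖F‖ ≤ 2 := fun F hF => by
    rw [mem_ball_iff_norm] at hF
    calc ‖F‖ = ‖(F - 1) + 1‖ := by rw [sub_add_cancel]
      _ ≤ ‖F - 1‖ + ‖(1 : B →L[ℝ] B)‖ := norm_add_le _ _
      _ ≤ 1 / 2 + 1 := add_le_add hF.le ContinuousLinearMap.norm_id_le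
      _ ≤ 2 := by norm_num
  have hF₀ : IsUnit F₀ := hu _ (ball_subset_closedBall hp₀.2)
  have main : ∀ y y' F F', (y, F) ∈ ball (y₀, F₀) ρ → (y', F') ∈ ball (y₀, F₀) ρ →
      FRel (T ×ˢ {F : B →L[ℝ] B | IsUnit F}) (frXi Γ) (frTh Γ) (frM t) (y, F) (y', F') →
      ∃ γ' U', IsAff T Γ t γ' U' (ball y r) ∧ γ' y = y' ∧ U' y * F = F' ∧ ball y r ⊆ T' ∧
        ∀ x ∈ ball y r, γ' x ∈ T' ∧ ‖U' x‖ ≤ max 1 (2 * C) := by
    intro y y' F F' h1 h2 h3
    obtain ⟨ψ, hψ, he, hs, hm⟩ := H _ h1 _ h2 h3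
    have hmem : ∀ x ∈ ball y r, (x, F) ∈ ball (y, F) r := fun x hx => by
      rw [← ball_prod_same]; exact ⟨hx, mem_ball_self hr⟩
    have hF := (hs (mem_ball_self hr)).2
    refine ⟨_, _, hψ.slice, by simp [he], ?_, fun x hx => (hs (hmem x hx)).1,
      fun x hx => ⟨(hm (hmem x hx)).1, ?_⟩⟩
    · simp only [he]
      rw [mul_assoc, Ring.inverse_mul_cancel _ (hu _ (ball_subset_closedBall hF)), mul_one]
    · refine (norm_mul_le _ _).trans (le_trans ?_ (le_max_right _ _))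
      exact mul_le_mul (hb _ (hm (hmem x hx)).2) (hC _ (ball_subset_closedBall hF))
        (norm_nonneg _) (by norm_num)
  refine ⟨y₀, hp₀.1, ρ / 2, by positivity, r, hr, max 1 (2 * C), le_max_left _ _,
    fun γ U O h y hy h1 h2 h3 => ?_⟩
  have a1 : (y, F₀) ∈ ball (y₀, F₀) ρ := by
    rw [← ball_prod_same]; exact ⟨ball_subset_ball (by linarith) h1, mem_ball_self hρ⟩
  have a2 : (γ y, U y * F₀) ∈ ball (y₀, F₀) ρ := by
    rw [← ball_prod_same]
    refine ⟨ball_subset_ball (by linarith) h2, ?_⟩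
    rw [mem_ball_iff_norm]
    calc ‖U y * F₀ - F₀‖ = ‖(U y - 1) * F₀‖ := by rw [sub_mul, one_mul]
      _ ≤ ‖U y - 1‖ * 2 := (norm_mul_le _ _).trans (by gcongr; exact hb _ hp₀.2)
      _ < ρ := by linarith
  have a3 := h.prolong.rel (y := (y, F₀)) ⟨hy, hF₀⟩
  obtain ⟨γ₁, U₁, b1, b2, b3, b4, b5⟩ := main _ _ _ _ a1 a2 a3
  obtain ⟨γ₂, U₂, c1, c2, c3, -, c5⟩ := main _ _ _ _ a2 a1 a3.symm
  refine ⟨⟨γ₁, U₁, b1, b2, hF₀.mul_right_cancel b3, b4, b5⟩, γ₂, U₂, c1, c2, ?_, c5⟩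
  exact hF₀.mul_right_cancel (by rw [mul_assoc, c3, one_mul])

lemma isAff_id (hT : IsOpen T) : IsAff T Γ t (fun y => y) (fun _ => 1) T := by
  refine ⟨hT, Subset.rfl, fun _ h => h, fun y _ => hasFDerivAt_id y, fun y _ => ?_,
    fun _ _ => isUnit_one, fun _ _ _ _ => rfl⟩
  refine (hasFDerivAt_const _ y).congr_fderiv ?_
  refine ContinuousLinearMap.ext fun e => ?_
  simp [affD_apply]

lemma IsAff.mono {γ : B → B} {U : B → B →L[ℝ] B} {O O' : Set B} (h : IsAff T Γ t γ U O)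
    (hO : IsOpen O') (hs : O' ⊆ O) : IsAff T Γ t γ U O' :=
  ⟨hO, hs.trans h.sub, fun _ hy => h.maps (hs hy), fun y hy => h.der y (hs hy),
    fun y hy => h.der2 y (hs hy), fun y hy => h.unit y (hs hy), fun y hy => h.t_eq y (hs hy)⟩

lemma IsAff.comp {γ γ' : B → B} {U U' : B → B →L[ℝ] B} {O O' : Set B} (h : IsAff T Γ t γ U O)
    (h' : IsAff T Γ t γ' U' O') (hm : MapsTo γ' O' O) :
    IsAff T Γ t (fun y => γ (γ' y)) (fun y => U (γ' y) * U' y) O' := by
  refine ⟨h'.isOpen, h'.sub, fun y hy => h.maps (hm hy),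
    fun y hy => (h.der _ (hm hy)).comp y (h'.der y hy), fun y hy => ?_,
    fun y hy => (h.unit _ (hm hy)).mul (h'.unit y hy), fun y hy u v => ?_⟩
  · refine (((h.der2 _ (hm hy)).comp y (h'.der y hy)).mul' (h'.der2 y hy)).congr_fderiv ?_
    refine ContinuousLinearMap.ext fun e => ?_
    simp [affD_apply]
    noncomm_ring
  · simp only [mul_apply_eq_comp]
    rw [h.t_eq _ (hm hy), h'.t_eq y hy]

/-- Rigidity in the first and second derivatives. -/
theorem aff_rigid (hΓ : ContDiffOn ℝ ∞ Γ T) {K : Set B} (hK : IsCompact K) (hc : Convex ℝ K)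
    (hsub : K ⊆ T) (C : ℝ) : ∃ L : ℝ, 1 ≤ L ∧ ∀ γ U γ' U' O, IsAff T Γ t γ U O →
      IsAff T Γ t γ' U' O → Convex ℝ O → O ⊆ K → (∀ y ∈ O, γ y ∈ K ∧ ‖U y‖ ≤ C) →
      (∀ y ∈ O, γ' y ∈ K ∧ ‖U' y‖ ≤ C) → ∀ a ∈ O, ∀ b ∈ O,
        ‖(γ b, U b) - (γ' b, U' b)‖ ≤ L * ‖(γ a, U a) - (γ' a, U' a)‖ ∧ ∀ b' ∈ O,
          ‖(U b - U' b) - (U b' - U' b')‖ ≤ L * ‖(γ a, U a) - (γ' a, U' a)‖ * ‖b - b'‖ := by
  set S : Set (B × B × (B →L[ℝ] B)) := K ×ˢ K ×ˢ closedBall 0 C with hS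
  set Vf : B × B × (B →L[ℝ] B) → B →L[ℝ] B × B × (B →L[ℝ] B) := fun z =>
    (ContinuousLinearMap.id ℝ B).prod (z.2.2.prod (affD Γ z.1 z.2.1 z.2.2)) with hVf
  have hD : ContDiffOn ℝ ∞ (fun z : B × B × (B →L[ℝ] B) => affD Γ z.1 z.2.1 z.2.2) S := by
    refine contDiffOn_clm_apply.2 fun e => ?_
    simp only [affD_apply]
    have h1 : ContDiffOn ℝ ∞ (fun z : B × B × (B →L[ℝ] B) => Γ z.1) S :=
      hΓ.comp contDiffOn_fst fun z hz => hsub hz.1
    have h2 : ContDiffOn ℝ ∞ (fun z : B × B × (B →L[ℝ] B) => Γ z.2.1) S :=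
      hΓ.comp contDiff_snd.fst.contDiffOn fun z hz => hsub hz.2.1
    have h3 : ContDiffOn ℝ ∞ (fun z : B × B × (B →L[ℝ] B) => z.2.2) S := contDiff_snd.snd.contDiffOn
    exact (h3.mul (h1.clm_apply contDiffOn_const)).sub
      ((h2.clm_apply (h3.clm_apply contDiffOn_const)).mul h3)
  have hV : ContDiffOn ℝ ∞ Vf S := by
    refine contDiffOn_clm_apply.2 fun e => ?_
    simp only [hVf, ContinuousLinearMap.prod_apply]
    exact contDiffOn_const.prodMk ((contDiff_snd.snd.contDiffOn.clm_apply contDiffOn_const).prodMk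
      (hD.clm_apply contDiffOn_const))
  have hSc : Convex ℝ S := hc.prod (hc.prod (convex_closedBall _ _))
  have hSk : IsCompact S := hK.prod (hK.prod (isCompact_closedBall _ _))
  obtain ⟨K₁, hK₁⟩ := hV.exists_lipschitzOnWith (by simp) hSc hSk
  obtain ⟨K₂, hK₂⟩ := hD.exists_lipschitzOnWith (by simp) hSc hSk
  obtain ⟨R, hR⟩ := hK.isBounded.exists_norm_le
  set L₁ := Real.exp (K₁ * (2 * R)) with hL₁
  have hL₁0 : 0 < L₁ := Real.exp_pos _
  refine ⟨max 1 (max L₁ (K₂ * L₁)), le_max_left _ _,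
    fun γ U γ' U' O h h' hO hOK hb hb' a ha => ?_⟩
  have hm : ∀ {γ : B → B} {U : B → B →L[ℝ] B}, (∀ y ∈ O, γ y ∈ K ∧ ‖U y‖ ≤ C) → ∀ y ∈ O,
      (y, γ y, U y) ∈ S := fun hb y hy => ⟨hOK hy, (hb y hy).1, by simpa using (hb y hy).2⟩
  have hn : ∀ y, ‖(y, γ y, U y) - (y, γ' y, U' y)‖ = ‖(γ y, U y) - (γ' y, U' y)‖ := fun y => by
    rw [Prod.mk_sub_mk, Prod.norm_def]; simp
  have h1 : ∀ b ∈ O, ‖(γ b, U b) - (γ' b, U' b)‖ ≤ L₁ * ‖(γ a, U a) - (γ' a, U' a)‖ := by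
    intro b hbO
    have := rigid (S := S) (V := Vf) (K := K₁)
      (fun x hx x' hx' => by simpa [dist_eq_norm] using hK₁.dist_le_mul x hx x' hx') hO
      (f := fun y => (y, γ y, U y)) (g := fun y => (y, γ' y, U' y))
      (fun y hy => ⟨hm hb y hy, (hasFDerivAt_id y).prodMk ((h.der y hy).prodMk (h.der2 y hy))⟩)
      (fun y hy => ⟨hm hb' y hy, (hasFDerivAt_id y).prodMk ((h'.der y hy).prodMk (h'.der2 y hy))⟩)
      ha hbO
    rw [hn, hn] at this
    refine this.trans ?_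
    have e : ‖b - a‖ ≤ 2 * R := by
      linarith [norm_sub_le b a, hR _ (hOK ha), hR _ (hOK hbO)]
    rw [hL₁]
    gcongr
  intro b hbO
  refine ⟨(h1 b hbO).trans (by gcongr; exact le_max_of_le_right (le_max_left _ _)),
    fun b' hb'O => ?_⟩
  have := hO.norm_image_sub_le_of_norm_hasFDerivWithin_le (f := fun y => U y - U' y)
    (C := K₂ * L₁ * ‖(γ a, U a) - (γ' a, U' a)‖)
    (fun y hy => ((h.der2 y hy).sub (h'.der2 y hy)).hasFDerivWithinAt) (fun y hy => by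
      have e := hK₂.dist_le_mul _ (hm hb y hy) _ (hm hb' y hy)
      rw [dist_eq_norm, dist_eq_norm, hn] at e
      refine e.trans ?_
      rw [mul_assoc]
      gcongr
      exact h1 y hy) hb'O hbO
  refine this.trans ?_
  gcongr
  exact le_max_of_le_right (le_max_right _ _)

end Pool.Agent.CL
end
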