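import Pool.Agent.P.MP_63735c_ag.SPDefs
import Pool.Agent.Lib.SCV.Smooth

/-! Forms on open sets of normed spaces, returns, the model on `T × ℂ^n`, local groups. -/

open scoped ContDiff Matrix
open Set Metric MeasureTheory Filter Topology

namespace Pool.Agent.CL

open Pool.Agent.SPF

section Forms

variable {F : Type} [NormedAddCommGroup F] [NormedSpace ℝ F]

/-- Real 1-forms. -/
abbrev Form1 (F : Type) [NormedAddCommGroup F] [NormedSpace ℝ F] := F → F →L[ℝ] ℝ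

/-- Real 2-forms. -/
abbrev Form2 (F : Type) [NormedAddCommGroup F] [NormedSpace ℝ F] := F → F →L[ℝ] F →L[ℝ] ℝ

/-- `A` is a smooth primitive of `t` on `W`. -/
def IsPrim (W : Set F) (A : Form1 F) (t : Form2 F) : Prop :=
  ContDiffOn ℝ ∞ A W ∧ ∀ x ∈ W, ∀ u v, fderiv ℝ A x u v - fderiv ℝ A x v u = t x u v

/-- `t` is a smooth closed skew 2-form on `W`. -/
def Closed2 (W : Set F) (t : Form2 F) : Prop :=
  ContDiffOn ℝ ∞ t W ∧ (∀ x ∈ W, ∀ u v, t x u v = -t x v u) ∧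
    ∀ x ∈ W, ∀ u v w, fderiv ℝ t x u v w + fderiv ℝ t x v w u + fderiv ℝ t x w u v = 0

/-- A `C²` curve on `[0,1]` in `W`. -/
def Curve (W : Set F) (c : ℝ → F) : Prop := ∀ s ∈ Icc (0 : ℝ) 1, ContDiffAt ℝ 2 c s ∧ c s ∈ W

/-- Line integral. -/
noncomputable def lineInt (A : Form1 F) (c : ℝ → F) : ℝ := ∫ s in (0 : ℝ)..1, A (c s) (deriv c s)

/-- The segment from `p` to `q`. -/
def seg (p q : F) : ℝ → F := fun s => p + s • (q - p)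

/-- Integral over the segment from `p` to `q`. -/
noncomputable def segInt (A : Form1 F) (p q : F) : ℝ :=
  ∫ s in (0 : ℝ)..1, A (p + s • (q - p)) (q - p)

/-- Radial primitive centred at `o`. -/
noncomputable def rad (t : Form2 F) (o : F) : Form1 F := fun p =>
  ∫ s in (0 : ℝ)..1, s • t (o + s • (p - o)) (p - o)

/-- Integral over the parallelogram `p + s a + r b`. -/
noncomputable def par (t : Form2 F) (p a b : F) : ℝ :=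
  ∫ s in (0 : ℝ)..1, ∫ r in (0 : ℝ)..1, t (p + s • a + r • b) a b

/-- Pull-back of a 1-form. -/
noncomputable def pull1 {F' : Type} [NormedAddCommGroup F'] [NormedSpace ℝ F'] (g : F' → F)
    (A : Form1 F) : Form1 F' := fun x => (A (g x)).comp (fderiv ℝ g x)

/-- Second derivative in the direction `u`. -/
noncomputable def D2 {G : Type} [NormedAddCommGroup G] [NormedSpace ℝ G] (f : F → G) (x u : F) :
    G := fderiv ℝ (fderiv ℝ f) x u u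

/-- Levi form. -/
noncomputable def Lv [SMul ℂ F] (f : F → ℝ) (x u : F) : ℝ := D2 f x u + D2 f x (Complex.I • u)

/-- `t` is of type (1,1) on `W`. -/
def JInv [SMul ℂ F] (W : Set F) (t : Form2 F) : Prop :=
  ∀ x ∈ W, ∀ u v, t x (Complex.I • u) (Complex.I • v) = t x u v

end Forms

variable {n : ℕ}

/-- The space `ℂ^n × ℂ^n`. -/
abbrev P (n : ℕ) := E n × E n

/-- Squared Euclidean norm. -/
noncomputable def nsq (v : E n) : ℝ := ∑ k, ‖v k‖ ^ 2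

/-- Euclidean inner product. -/
noncomputable def ip (u v : E n) : ℝ := ∑ k, (u k * star (v k)).re

/-- The real bilinear form `Re (c u·v)`. -/
noncomputable def rdot (c : ℂ) : E n →L[ℝ] E n →L[ℝ] ℝ :=
  ∑ k, ((ContinuousLinearMap.compL ℝ ℂ ℂ ℝ Complex.reCLM).comp
    ((ContinuousLinearMap.mul ℝ ℂ).comp (ContinuousLinearMap.mul ℝ ℂ c))).bilinearComp
      (ContinuousLinearMap.proj k) (ContinuousLinearMap.proj k)

lemma rdot_apply (c : ℂ) (u v : E n) : rdot c u v = (c * (u ⬝ᵥ v)).re := by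
  simp [rdot, dotProduct, Finset.mul_sum, mul_assoc, -Complex.mul_re]

/-- The constant form `Re (c σ₀)`. -/
noncomputable def sig (c : ℂ) : P n →L[ℝ] P n →L[ℝ] ℝ :=
  (rdot c).bilinearComp (ContinuousLinearMap.fst ℝ _ _) (ContinuousLinearMap.snd ℝ _ _) -
    ((rdot c).bilinearComp (ContinuousLinearMap.fst ℝ _ _) (ContinuousLinearMap.snd ℝ _ _)).flip

lemma sig_apply (c : ℂ) (u v : P n) :
    sig c u v = (c * (u.1 ⬝ᵥ v.2)).re - (c * (v.1 ⬝ᵥ u.2)).re := by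
  simp [sig, rdot_apply, -Complex.mul_re]

/-- The Liouville primitive of `Re (c σ₀)`. -/
noncomputable def liou (c : ℂ) : Form1 (P n) := fun p =>
  -((rdot c p.2).comp (ContinuousLinearMap.fst ℝ (E n) (E n)))

/-- Pull-back of a form on the base. -/
noncomputable def base (h : Form2 (E n)) : Form2 (P n) := fun p =>
  (h p.1).bilinearComp (ContinuousLinearMap.fst ℝ _ _) (ContinuousLinearMap.fst ℝ _ _)

/-- Restriction of a form to the leaf over `y`. -/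
noncomputable def leaf (t : Form2 (P n)) (y : E n) : Form2 (E n) := fun ξ =>
  (t (y, ξ)).bilinearComp (ContinuousLinearMap.inr ℝ _ _) (ContinuousLinearMap.inr ℝ _ _)

/-- Transpose for the bilinear pairing. -/
noncomputable def tr (U : E n →L[ℂ] E n) : E n →L[ℂ] E n :=
  LinearMap.toContinuousLinearMap (Matrix.toLin' (LinearMap.toMatrix' (U : E n →ₗ[ℂ] E n))ᵀ)

/-- The linear form `u ↦ ξ · u`. -/
noncomputable def dl (ξ : E n) : E n →L[ℂ] ℂ := ∑ k, ξ k • ContinuousLinearMap.proj k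

lemma dl_apply (ξ u : E n) : dl ξ u = ξ ⬝ᵥ u := by
  simp [dl, dotProduct]

/-- Radial primitive of a holomorphic 1-form. -/
noncomputable def hprim (α : E n → E n) (o y : E n) : ℂ :=
  ∫ s in (0 : ℝ)..1, α (o + s • (y - o)) ⬝ᵥ (y - o)

/-- The data of a return map. -/
structure Ret (n : ℕ) where
  γ : E n → E n
  α : E n → E n
  N : E n → E n →L[ℂ] E n

/-- The action on `T × ℂ^n`. -/
noncomputable def Ret.act (g : Ret n) (p : P n) : P n := (g.γ p.1, g.N p.1 (p.2 - g.α p.1))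

/-- The composition `h ∘ g`. -/
noncomputable def Ret.comp (h g : Ret n) : Ret n where
  γ y := h.γ (g.γ y)
  α y := g.α y + tr (fderiv ℂ g.γ y) (h.α (g.γ y))
  N y := (h.N (g.γ y)).comp (g.N y)

/-- The translation by `-z`. -/
noncomputable def Ret.per (z : E n → E n) : Ret n := ⟨fun y => y, z, fun _ => 1⟩

/-- Equality of germs at `y`. -/
def Ret.Eq (y : E n) (g g' : Ret n) : Prop :=
  ∀ᶠ x in 𝓝 y, g.γ x = g'.γ x ∧ g.α x = g'.α x ∧ g.N x = g'.N x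

/-- The primitive of `g^* A - A` that vanishes at `o`. -/
noncomputable def Dg (A : Form1 (P n)) (g : Ret n) (o p : P n) : ℝ :=
  segInt (fun x => pull1 g.act A x - A x) o p

variable {X : Type}

/-- `g` is a return map over `O`. -/
structure IsRet (T : Set (E n)) (Ψ : P n → X) (O : Set (E n)) (g : Ret n) : Prop where
  isOpen : IsOpen O
  sub : O ⊆ T
  γ_hol : DifferentiableOn ℂ g.γ O
  α_hol : DifferentiableOn ℂ g.α O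
  N_hol : DifferentiableOn ℂ g.N O
  maps : MapsTo g.γ O T
  pair : ∀ y ∈ O, ∀ ξ u, g.N y ξ ⬝ᵥ fderiv ℂ g.γ y u = ξ ⬝ᵥ u
  eq : ∀ y ∈ O, ∀ ξ, Ψ (g.act (y, ξ)) = Ψ (y, ξ)

/-- A return germ at `y`. -/
def Germ (T : Set (E n)) (Ψ : P n → X) (y : E n) (g : Ret n) : Prop :=
  ∃ O, IsRet T Ψ O g ∧ y ∈ O

/-- A closed (1,1)-form on `T × ℂ^n` invariant under all returns. -/
structure IsForm (T : Set (E n)) (Ψ : P n → X) (t : Form2 (P n)) : Prop where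
  closed : Closed2 (T ×ˢ univ) t
  jinv : JInv (T ×ˢ univ) t
  inv : ∀ O g, IsRet T Ψ O g → ∀ p : P n, p.1 ∈ O → ∀ u v,
    t (g.act p) (fderiv ℝ g.act p u) (fderiv ℝ g.act p v) = t p u v

/-- Integrality, read on `T × ℂ^n`. -/
def IsInt (T : Set (E n)) (Ψ : P n → X) (t : Form2 (P n)) : Prop :=
  ∀ A, IsPrim (T ×ˢ univ) A t → ∃ u : P n → ℝ, ∀ c c' : ℝ → P n, Curve (T ×ˢ univ) c →
    Curve (T ×ˢ univ) c' → (∀ s ∈ Icc (0 : ℝ) 1, Ψ (c s) = Ψ (c' s)) →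
      ∃ k : ℤ, lineInt A c' - lineInt A c - (u (c 1) - u (c 0) - u (c' 1) + u (c' 0)) = k

/-- `± a + δ om + ddc φ ≥ 0` along the leaves, with `φ` bounded. -/
def Null (T : Set (E n)) (om a : Form2 (P n)) : Prop :=
  ∀ δ > (0 : ℝ), ∀ s : ℝ, s = 1 ∨ s = -1 → ∃ (φ : P n → ℝ) (M : ℝ), ∀ y ∈ T,
    ContDiff ℝ 2 (fun ξ => φ (y, ξ)) ∧ ∀ ξ, |φ (y, ξ)| ≤ M ∧ ∀ v,
      0 ≤ s * leaf a y ξ v (Complex.I • v) + δ * leaf om y ξ v (Complex.I • v) +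
        Lv (fun ξ => φ (y, ξ)) ξ v

/-- Up to invariant exact forms, the vertical part of `a` is small and the mixed part is bounded
in the mean. -/
def NullL [MeasurableSpace X] (T : Set (E n)) (Ψ : P n → X) (μ : Measure X) (a : Form2 (P n)) :
    Prop :=
  ∀ Q, IsCompact Q → Q ⊆ T ×ˢ univ → ∃ C : ℝ, ∀ Q', IsCompact Q' → Q' ⊆ T ×ˢ univ →
    ∀ ε > (0 : ℝ), ∃ (β : Form1 (P n)) (b : Form2 (P n)) (M : ℝ) (φ ψ : X → ℝ),
      IsPrim (T ×ˢ univ) β (fun p => b p - a p) ∧ ContinuousOn b (T ×ˢ univ) ∧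
      (∀ O g, IsRet T Ψ O g → ∀ p : P n, p.1 ∈ O → ∀ u,
        β (g.act p) (fderiv ℝ g.act p u) = β p u) ∧
      (∀ p : P n, p.1 ∈ T → ∀ v, |β p (0, v)| ≤ M * ‖v‖) ∧
      Measurable φ ∧ Measurable ψ ∧ (∀ x, 0 ≤ φ x) ∧ (∀ x, 0 ≤ ψ x) ∧
      ∫⁻ x, ENNReal.ofReal (φ x) ∂μ ≤ ENNReal.ofReal ε ∧
      ∫⁻ x, ENNReal.ofReal (ψ x) ∂μ ≤ ENNReal.ofReal C ∧
      (∀ p : P n, p.1 ∈ T → Ψ p ∈ Ψ '' Q' → ∀ u v,
        |b p (0, u) (0, v)| ≤ φ (Ψ p) * ‖u‖ * ‖v‖) ∧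
      ∀ p ∈ Q, ∀ u w, |b p (0, u) w| ≤ ψ (Ψ p) * ‖u‖ * ‖w‖

/-- The model: everything the proof uses about `X`. -/
structure Model (n : ℕ) (X : Type) [TopologicalSpace X] [MeasurableSpace X] where
  T : Set (E n)
  Ψ : P n → X
  h : Form2 (E n)
  om : Form2 (P n)
  μ : Measure X
  c0 : ℝ
  C0 : ℝ
  n_pos : 1 ≤ n
  T_open : IsOpen T
  T_conv : Convex ℝ T
  T_ne : T.Nonempty
  c0_pos : 0 < c0
  C0_ge : 1 ≤ C0
  cont : ContinuousOn Ψ (T ×ˢ univ)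
  ret : ∀ p q : P n, p.1 ∈ T → q.1 ∈ T → Ψ p = Ψ q → ∃ g, Germ T Ψ p.1 g ∧ g.act p = q
  closed : ∀ O g, IsRet T Ψ O g → ∀ y ∈ O, ∀ u v, fderiv ℂ g.α y u ⬝ᵥ v = fderiv ℂ g.α y v ⬝ᵥ u
  inj : InjOn Ψ (T ×ˢ ball 0 (2 * c0))
  h_closed : Closed2 T h
  h_jinv : JInv T h
  h_pos : ∀ y ∈ T, ∀ u, u ≠ 0 → 0 < h y u (Complex.I • u)
  iso : ∀ O g, IsRet T Ψ O g → ∀ y ∈ O, ∀ u v,
    h (g.γ y) (fderiv ℂ g.γ y u) (fderiv ℂ g.γ y v) = h y u v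
  bd : ∀ O g, IsRet T Ψ O g → ∀ y ∈ O,
    ‖fderiv ℂ g.γ y‖ ≤ C0 ∧ ‖g.N y‖ ≤ C0 ∧ ‖tr (fderiv ℂ g.γ y)‖ ≤ C0
  om_form : IsForm T Ψ om
  om_pos : ∀ p : P n, p.1 ∈ T → ∀ u, u ≠ 0 → 0 < om p u (Complex.I • u)
  om_vert : ∀ y ∈ T, ∀ ξ v, leaf om y ξ v (Complex.I • v) ≤ C0 * ‖v‖ ^ 2
  fin : IsFiniteMeasure μ
  vol : ∃ c : ENNReal, c ≠ ⊤ ∧ ∀ w : P n, w.1 ∈ T → ∃ O, IsOpen O ∧ w ∈ O ∧ InjOn Ψ O ∧
    ∀ S ⊆ O, MeasurableSet S → MeasurableSet (Ψ '' S) ∧ volume S = c * μ (Ψ '' S)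
  h_int : IsInt T Ψ (base h)
  m : ℕ
  c : Fin m → ℂ
  a : Fin m → Form2 (P n)
  a_form : ∀ j, IsForm T Ψ (a j)
  a_int : ∀ j, IsInt T Ψ (fun p => sig (c j) + a j p)
  a_null : ∀ j, NullL T Ψ μ (a j)
  a_span : ∀ c₀ : ℂ, ∃ r : Fin m → ℝ, ∑ j, (r j : ℂ) * c j = c₀ ∧
    ∀ p : P n, p.1 ∈ T → ∑ j, r j • a j p = 0

/-- A local group with a size measured in the normed space `J`. -/
structure LG (G J : Type) [NormedAddCommGroup J] where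
  one : G
  mul : G → G → G
  inv : G → G
  jt : G → J
  L : ℝ
  ε : ℝ
  L_ge : 1 ≤ L
  ε_pos : 0 < ε
  inv_one : inv one = one
  assoc : ∀ a b c, ‖jt a - jt one‖ ≤ ε → ‖jt b - jt one‖ ≤ ε → ‖jt c - jt one‖ ≤ ε →
    mul (mul a b) c = mul a (mul b c)
  one_mul : ∀ a, ‖jt a - jt one‖ ≤ ε → mul one a = a
  mul_one : ∀ a, ‖jt a - jt one‖ ≤ ε → mul a one = a
  inv_mul : ∀ a, ‖jt a - jt one‖ ≤ ε → mul (inv a) a = one
  mul_inv : ∀ a, ‖jt a - jt one‖ ≤ ε → mul a (inv a) = one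
  lip_r : ∀ a b b', ‖jt a - jt one‖ ≤ ε → ‖jt b - jt one‖ ≤ ε → ‖jt b' - jt one‖ ≤ ε →
    ‖jt (mul a b) - jt (mul a b')‖ ≤ L * ‖jt b - jt b'‖
  lip_l : ∀ a a' b, ‖jt a - jt one‖ ≤ ε → ‖jt a' - jt one‖ ≤ ε → ‖jt b - jt one‖ ≤ ε →
    ‖jt (mul a b) - jt (mul a' b)‖ ≤ L * ‖jt a - jt a'‖
  lip_inv : ∀ a a', ‖jt a - jt one‖ ≤ ε → ‖jt a' - jt one‖ ≤ ε →
    ‖jt (inv a) - jt (inv a')‖ ≤ L * ‖jt a - jt a'‖
  comm : ∀ a b, ‖jt a - jt one‖ ≤ ε → ‖jt b - jt one‖ ≤ ε →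
    ‖jt (mul a b) - jt (mul b a)‖ ≤ L * ‖jt a - jt one‖ * ‖jt b - jt one‖

/-- Size of an element. -/
def LG.sz {G J : Type} [NormedAddCommGroup J] (g : LG G J) (a : G) : ℝ := ‖g.jt a - g.jt g.one‖

/-- The 1-jet of a map. -/
noncomputable def jet (γ : E n → E n) (y : E n) : E n × (E n →L[ℂ] E n) := (γ y, fderiv ℂ γ y)

/-- The local group of holomorphic isometries of `h` on a ball. -/
structure Iso (T : Set (E n)) (h : Form2 (E n)) where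
  G : Type
  lg : LG G (E n × (E n →L[ℂ] E n))
  y0 : E n
  r : ℝ
  γ : G → E n → E n
  N : G → E n → E n →L[ℂ] E n
  r_pos : 0 < r
  sub : closedBall y0 (4 * r) ⊆ T
  small : 16 * (lg.L * lg.ε) ≤ min r 1
  jt_eq : ∀ j, lg.jt j = jet (γ j) y0
  jt_inj : Function.Injective lg.jt
  γ_one : ∀ y, γ lg.one y = y
  γ_hol : ∀ j, DifferentiableOn ℂ (γ j) (ball y0 (2 * r))
  N_hol : ∀ j, DifferentiableOn ℂ (N j) (ball y0 (2 * r))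
  pair : ∀ j, ∀ y ∈ ball y0 (2 * r), ∀ ξ u, N j y ξ ⬝ᵥ fderiv ℂ (γ j) y u = ξ ⬝ᵥ u
  cmp : ∀ j j', ∀ y ∈ ball y0 (2 * r), ∀ y' ∈ ball y0 (2 * r),
    ‖jet (γ j) y - jet (γ j') y‖ ≤ lg.L * ‖jet (γ j) y' - jet (γ j') y'‖
  near : ∀ j, lg.sz j ≤ lg.ε → ∀ y ∈ ball y0 (2 * r), ‖γ j y - y‖ ≤ lg.L * lg.sz j ∧
    ‖fderiv ℂ (γ j) y - 1‖ ≤ lg.L * lg.sz j ∧ ‖tr (fderiv ℂ (γ j) y) - 1‖ ≤ lg.L * lg.sz j ∧
    ‖N j y - 1‖ ≤ lg.L * lg.sz j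
  γ_mul : ∀ a b, lg.sz a ≤ lg.ε → lg.sz b ≤ lg.ε → ∀ y ∈ ball y0 (3 / 2 * r),
    γ (lg.mul a b) y = γ a (γ b y)
  ext : ∀ y ∈ ball y0 r, ∀ γ' : E n → E n, (∀ᶠ x in 𝓝 y, DifferentiableAt ℂ γ' x ∧ γ' x ∈ T ∧
    ∀ u v, h (γ' x) (fderiv ℂ γ' x u) (fderiv ℂ γ' x v) = h x u v) →
    ‖γ' y - y‖ ≤ lg.ε → ‖fderiv ℂ γ' y - 1‖ ≤ lg.ε → ∃ j, γ j =ᶠ[𝓝 y] γ'

/-- Integer combination of periods. -/
noncomputable def zm {r0 : ℕ} (z : Fin r0 → E n → E n) (m : Fin r0 → ℤ) (y : E n) : E n :=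
  ∑ k, (m k : ℂ) • z k y

/-- Real vectors supported on `I`. -/
def RI (I : Finset (Fin n)) : Set (E n) := {s | ∀ k, (s k).im = 0 ∧ (k ∉ I → s k = 0)}

/-- Integer vectors supported on `I`. -/
def ZI (I : Finset (Fin n)) : Set (E n) := {s | ∀ k, (∃ m : ℤ, s k = m) ∧ (k ∉ I → s k = 0)}

variable [TopologicalSpace X] [MeasurableSpace X]

/-- The lattice of periods over `V`. -/
structure Per0 (M : Model n X) (V : Set (E n)) {r0 : ℕ} (z : Fin r0 → E n → E n) : Prop where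
  z_ret : ∀ k, IsRet M.T M.Ψ V (Ret.per (z k))
  z_ind : ∀ y ∈ V, LinearIndependent ℝ fun k => z k y
  all : ∀ y ∈ V, ∀ α, Germ M.T M.Ψ y (Ret.per α) → ∃ m, α =ᶠ[𝓝 y] zm z m

/-- A basis of the radical of the area form on the lattice of periods. -/
structure Rad (M : Model n X) (V : Set (E n)) {r0 ρ : ℕ} (z : Fin r0 → E n → E n)
    (e : Fin ρ → Fin r0 → ℤ) : Prop where
  zero : ∀ i k, ∀ y ∈ V, ∀ ξ, par (leaf M.om y) ξ (zm z (e i) y) (z k y) = 0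
  rad : ∀ m, ∀ y ∈ V, (∀ k, par (leaf M.om y) 0 (zm z m y) (z k y) = 0) →
    ∃ s : Fin ρ → ℤ, m = ∑ i, s i • e i
  sat : ∀ m, ∀ y ∈ V, (∃ s : Fin ρ → ℝ, zm z m y = ∑ i, (s i : ℂ) • zm z (e i) y) →
    ∃ s : Fin ρ → ℤ, m = ∑ i, s i • e i
  ind : ∀ y ∈ V, LinearIndependent ℂ fun i => zm z (e i) y

/-- Periods in adapted coordinates. -/
structure Per (M : Model n X) where
  r0 : ℕ
  z : Fin r0 → E n → E n
  I : Finset (Fin n)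
  per0 : Per0 M M.T z
  e_mem : ∀ i ∈ I, ∃ m, ∀ y ∈ M.T, zm z m y = Pi.single i 1
  e_zero : ∀ i ∈ I, ∀ k, ∀ y ∈ M.T, ∀ ξ, par (leaf M.om y) ξ (Pi.single i 1) (z k y) = 0
  rad : ∀ m, ∀ y ∈ M.T, (∀ k, par (leaf M.om y) 0 (zm z m y) (z k y) = 0) →
    ∃ s ∈ ZI I, ∀ x ∈ M.T, zm z m x = s
  sat : ∀ m, ∀ y ∈ M.T, zm z m y ∈ RI I → ∃ s ∈ ZI I, ∀ x ∈ M.T, zm z m x = s

/-- Model, periods and the local group of isometries. -/
structure Setup (n : ℕ) (X : Type) [TopologicalSpace X] [MeasurableSpace X] where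
  M : Model n X
  Q : Per M
  G : Iso M.T M.h
  pres : ∀ j, G.lg.sz j ≤ G.lg.ε → ∀ y ∈ ball G.y0 (2 * G.r), ∀ g, Germ M.T M.Ψ y g →
    g.γ =ᶠ[𝓝 y] G.γ j → ∀ k, ∀ x ∈ ball G.y0 (2 * G.r), G.N j x (Q.z k x) = Q.z k (G.γ j x)
  sep : ∃ δ > (0 : ℝ), ∀ j, G.lg.sz j ≤ G.lg.ε → ∀ y ∈ ball G.y0 (3 / 2 * G.r), ∀ g,
    Germ M.T M.Ψ y g → g.γ =ᶠ[𝓝 y] G.γ j → (∃ s ∈ RI Q.I, ‖g.α y - s‖ ≤ δ) →
      j = G.lg.one ∧ ∃ s ∈ ZI Q.I, g.α =ᶠ[𝓝 y] fun _ => s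

/-- The displacement of the primitives of the periods. -/
noncomputable def Setup.chi (S : Setup n X) (j : S.G.G) : Fin S.Q.r0 → ℂ := fun k =>
  hprim (S.Q.z k) S.G.y0 (S.G.γ j S.G.y0)

/-- Small returns are relatively dense on every leaf over an open set. -/
def Setup.KK (S : Setup n X) (δ : ℝ) : Prop :=
  ∃ (V : Set (E n)) (C : ℝ) (X0 : Set (Fin S.Q.r0 → ℂ)), IsOpen V ∧ V.Nonempty ∧
    V ⊆ ball S.G.y0 (S.G.r / 2) ∧ X0.Finite ∧ ∀ y ∈ V, ∀ ξ, ∃ j g, S.G.lg.sz j ≤ δ ∧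
      Germ S.M.T S.M.Ψ y g ∧ g.γ =ᶠ[𝓝 y] S.G.γ j ∧ ‖g.α y - ξ‖ ≤ C ∧ S.chi j ∈ X0

end Pool.Agent.CL
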