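import Pool.Agent.K.MP_63735c_ag.C23

-- part Pool.Agent.P.MP_63735c_ag.ABK1
section

/-! Pointwise calculus for the Levi form. -/

open Set Filter Topology
open scoped ContDiff ComplexConjugate

namespace Pool.Agent.ABK

open Pool.Agent.SPF Pool.Agent.CL

variable {V : Type} [NormedAddCommGroup V] [NormedSpace ℝ V] [NormedSpace ℂ V]
  {p q : V → ℝ} {x : V}

/-- The complex linear part of the derivative. -/
noncomputable def dc (q : V → ℝ) (x v : V) : ℂ :=
  ((fderiv ℝ q x v : ℝ) - Complex.I * (fderiv ℝ q x (Complex.I • v) : ℝ)) / 2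

section
omit [NormedSpace ℂ V]

theorem abc_d1 (hq : ContDiffAt ℝ 2 q x) : ∀ᶠ y in 𝓝 x, HasFDerivAt q (fderiv ℝ q y) y :=
  (hq.eventually (by simp)).mono fun _ hy => (hy.differentiableAt (by simp)).hasFDerivAt

theorem abc_d2 (hq : ContDiffAt ℝ 2 q x) :
    HasFDerivAt (fderiv ℝ q) (fderiv ℝ (fderiv ℝ q) x) x :=
  ((hq.fderiv_right (m := 1) (by norm_num)).differentiableAt (by simp)).hasFDerivAt

theorem D2_fun {g g1 : ℝ → ℝ} {g2 : ℝ} (hq : ContDiffAt ℝ 2 q x)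
    (hg : ∀ᶠ y in 𝓝 (q x), HasDerivAt g (g1 y) y) (hg1 : HasDerivAt g1 g2 (q x)) (v : V) :
    D2 (fun y => g (q y)) x v = g2 * (fderiv ℝ q x v) ^ 2 + g1 (q x) * D2 q x v := by
  have h1 : fderiv ℝ (fun y => g (q y)) =ᶠ[𝓝 x] fun y => g1 (q y) • fderiv ℝ q y := by
    filter_upwards [abc_d1 hq, hq.continuousAt.eventually hg] with y hy hy'
    exact (hy'.comp_hasFDerivAt y hy).fderiv
  have h2 := ((hg1.comp_hasFDerivAt x (abc_d1 hq).self_of_nhds).smul (abc_d2 hq)).fderiv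
  rw [D2, D2, h1.fderiv_eq]
  have h3 : (fun y => g1 (q y) • fderiv ℝ q y) = (g1 ∘ q) • fderiv ℝ q := rfl
  rw [h3, h2]
  simp
  ring

theorem D2_add (hp : ContDiffAt ℝ 2 p x) (hq : ContDiffAt ℝ 2 q x) (v : V) :
    D2 (fun y => p y + q y) x v = D2 p x v + D2 q x v := by
  have h1 : fderiv ℝ (fun y => p y + q y) =ᶠ[𝓝 x] fun y => fderiv ℝ p y + fderiv ℝ q y := by
    filter_upwards [abc_d1 hp, abc_d1 hq] with y hy hy'
    exact (hy.add hy').fderiv
  rw [D2, D2, D2, h1.fderiv_eq]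
  have h2 := ((abc_d2 hp).add (abc_d2 hq)).fderiv
  have h3 : (fun y => fderiv ℝ p y + fderiv ℝ q y) = fderiv ℝ p + fderiv ℝ q := rfl
  rw [h3, h2]
  simp

theorem D2_mul (hp : ContDiffAt ℝ 2 p x) (hq : ContDiffAt ℝ 2 q x) (v : V) :
    D2 (fun y => p y * q y) x v =
      p x * D2 q x v + 2 * (fderiv ℝ p x v * fderiv ℝ q x v) + q x * D2 p x v := by
  have h1 : fderiv ℝ (fun y => p y * q y) =ᶠ[𝓝 x]
      fun y => p y • fderiv ℝ q y + q y • fderiv ℝ p y := by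
    filter_upwards [abc_d1 hp, abc_d1 hq] with y hy hy'
    exact (hy.mul hy').fderiv
  rw [D2, D2, D2, h1.fderiv_eq]
  have h2 := (((abc_d1 hp).self_of_nhds.smul (abc_d2 hq)).add
    ((abc_d1 hq).self_of_nhds.smul (abc_d2 hp))).fderiv
  have h3 : (fun y => p y • fderiv ℝ q y + q y • fderiv ℝ p y) =
      p • fderiv ℝ q + q • fderiv ℝ p := rfl
  rw [h3, h2]
  simp
  ring

end

theorem dc_cross (v : V) : 4 * (dc p x v * conj (dc q x v)).re =
    fderiv ℝ p x v * fderiv ℝ q x v +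
      fderiv ℝ p x (Complex.I • v) * fderiv ℝ q x (Complex.I • v) := by
  simp [dc, Complex.div_re, Complex.div_im]
  ring

theorem dc_sq (v : V) :
    4 * ‖dc q x v‖ ^ 2 = fderiv ℝ q x v ^ 2 + fderiv ℝ q x (Complex.I • v) ^ 2 := by
  have := dc_cross (p := q) (q := q) (x := x) v
  rw [Complex.mul_conj, Complex.ofReal_re, Complex.normSq_eq_norm_sq] at this
  rw [this]
  ring

theorem Lv_congr (h : p =ᶠ[𝓝 x] q) (v : V) : Lv p x v = Lv q x v := by
  rw [Lv, Lv, D2, D2, D2, D2, h.fderiv.fderiv_eq]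

theorem dc_congr (h : p =ᶠ[𝓝 x] q) (v : V) : dc p x v = dc q x v := by
  rw [dc, dc, h.fderiv_eq]

theorem Lv_const (c : ℝ) (v : V) : Lv (fun _ : V => c) x v = 0 := by
  simp [Lv, D2]

theorem dc_const (c : ℝ) (v : V) : dc (fun _ : V => c) x v = 0 := by
  simp [dc]

theorem Lv_fun {g g1 : ℝ → ℝ} {g2 : ℝ} (hq : ContDiffAt ℝ 2 q x)
    (hg : ∀ᶠ y in 𝓝 (q x), HasDerivAt g (g1 y) y) (hg1 : HasDerivAt g1 g2 (q x)) (v : V) :
    Lv (fun y => g (q y)) x v = g1 (q x) * Lv q x v + g2 * (4 * ‖dc q x v‖ ^ 2) := by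
  rw [Lv, Lv, D2_fun hq hg hg1, D2_fun hq hg hg1, dc_sq]
  ring

theorem dc_fun {g : ℝ → ℝ} {g1 : ℝ} (hq : DifferentiableAt ℝ q x) (hg : HasDerivAt g g1 (q x))
    (v : V) : dc (fun y => g (q y)) x v = g1 * dc q x v := by
  have h : fderiv ℝ (fun y => g (q y)) x = g1 • fderiv ℝ q x :=
    (hg.comp_hasFDerivAt x hq.hasFDerivAt).fderiv
  rw [dc, dc, h]
  simp
  ring

theorem Lv_add (hp : ContDiffAt ℝ 2 p x) (hq : ContDiffAt ℝ 2 q x) (v : V) :
    Lv (fun y => p y + q y) x v = Lv p x v + Lv q x v := by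
  rw [Lv, Lv, Lv, D2_add hp hq, D2_add hp hq]
  ring

theorem dc_add (hp : DifferentiableAt ℝ p x) (hq : DifferentiableAt ℝ q x) (v : V) :
    dc (fun y => p y + q y) x v = dc p x v + dc q x v := by
  rw [dc, dc, dc, fderiv_fun_add hp hq]
  simp
  ring

theorem Lv_mul (hp : ContDiffAt ℝ 2 p x) (hq : ContDiffAt ℝ 2 q x) (v : V) :
    Lv (fun y => p y * q y) x v =
      p x * Lv q x v + 8 * (dc p x v * conj (dc q x v)).re + q x * Lv p x v := by
  have := dc_cross (p := p) (q := q) (x := x) v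
  rw [Lv, Lv, Lv, D2_mul hp hq, D2_mul hp hq]
  linarith

theorem dc_mul (hp : DifferentiableAt ℝ p x) (hq : DifferentiableAt ℝ q x) (v : V) :
    dc (fun y => p y * q y) x v = p x * dc q x v + q x * dc p x v := by
  rw [dc, dc, dc, fderiv_fun_mul hp hq]
  simp
  ring

theorem Lv_lin (hq : ContDiffAt ℝ 2 q x) (a b : ℝ) (v : V) :
    Lv (fun y => a + b * q y) x v = b * Lv q x v := by
  have := Lv_fun (g := fun y => a + b * y) (g1 := fun _ => b) (g2 := 0) hq
    (Eventually.of_forall fun y => by simpa using ((hasDerivAt_id y).const_mul b).const_add a)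
    (hasDerivAt_const _ _) v
  simpa using this

theorem Lv_sum {S : Type} (s : Finset S) {g : S → V → ℝ} (hg : ∀ i, ContDiffAt ℝ 2 (g i) x)
    (v : V) : Lv (fun y => ∑ i ∈ s, g i y) x v = ∑ i ∈ s, Lv (g i) x v ∧
      dc (fun y => ∑ i ∈ s, g i y) x v = ∑ i ∈ s, dc (g i) x v := by
  classical
  induction s using Finset.induction_on with
  | empty => simp only [Finset.sum_empty]; exact ⟨Lv_const 0 v, dc_const 0 v⟩
  | insert a s ha ih =>
    have h1 : ContDiffAt ℝ 2 (fun y => ∑ i ∈ s, g i y) x := ContDiffAt.sum fun i _ => hg i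
    simp only [Finset.sum_insert ha]
    rw [Lv_add (hg a) h1, dc_add ((hg a).differentiableAt (by simp))
      (h1.differentiableAt (by simp)), ih.1, ih.2]
    exact ⟨rfl, rfl⟩

theorem Lv_log (hq : ContDiffAt ℝ 2 q x) (h0 : q x ≠ 0) (v : V) :
    Lv (fun y => Real.log (q y)) x v = (q x)⁻¹ * Lv q x v - (q x ^ 2)⁻¹ * (4 * ‖dc q x v‖ ^ 2) := by
  rw [Lv_fun (g := Real.log) (g1 := fun y => y⁻¹) (g2 := -(q x ^ 2)⁻¹) hq
    ((eventually_ne_nhds h0).mono fun y hy => Real.hasDerivAt_log hy) (hasDerivAt_inv h0)]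
  ring

/-- To second order `g` is at least a squared norm, up to the error `e`. -/
def Sq (g : V → ℝ) (x v : V) (e : ℝ) : Prop :=
  ContDiffAt ℝ ∞ g x ∧ ∃ a b : ℂ, g x = ‖b‖ ^ 2 ∧ dc g x v = conj b * a ∧
    4 * ‖a‖ ^ 2 - e ≤ Lv g x v

theorem Sq.congr {v : V} {e : ℝ} (h : Sq p x v e) (he : q =ᶠ[𝓝 x] p) : Sq q x v e := by
  obtain ⟨h1, a, b, h2, h3, h4⟩ := h
  exact ⟨h1.congr_of_eventuallyEq he, a, b, he.self_of_nhds.trans h2, (dc_congr he v).trans h3,
    h4.trans_eq (Lv_congr he v).symm⟩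

theorem Sq.mono {v : V} {e e' : ℝ} (h : Sq p x v e) (he : e ≤ e') : Sq p x v e' := by
  obtain ⟨h1, a, b, h2, h3, h4⟩ := h
  exact ⟨h1, a, b, h2, h3, by linarith⟩

theorem sq_zero (v : V) {e : ℝ} (he : 0 ≤ e) : Sq (fun _ => 0) x v e :=
  ⟨contDiffAt_const, 0, 0, by simp, by simp [dc_const], by simp [Lv_const, he]⟩

theorem log_sum {S : Type} [Fintype S] {g : S → V → ℝ} {v : V} {e : ℝ}
    (h : ∀ i, Sq (g i) x v e) (h0 : 0 < ∑ i, g i x) :
    -(Fintype.card S * e / ∑ i, g i x) ≤ Lv (fun y => Real.log (∑ i, g i y)) x v := by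
  have h1 : ∀ i, ContDiffAt ℝ 2 (g i) x := fun i => (h i).1.of_le (by norm_cast)
  choose a b h2 h3 h4 using fun i => (h i).2
  obtain ⟨e1, e2⟩ := Lv_sum Finset.univ h1 v
  rw [Lv_log (ContDiffAt.sum fun i _ => h1 i) h0.ne', e1, e2]
  have b1 : ‖∑ i, dc (g i) x v‖ ≤ ∑ i, ‖b i‖ * ‖a i‖ :=
    (norm_sum_le _ _).trans_eq (Finset.sum_congr rfl fun i _ => by
      rw [h3, norm_mul, Complex.norm_conj])
  have b2 := (pow_le_pow_left₀ (norm_nonneg _) b1 2).trans
    (Finset.sum_mul_sq_le_sq_mul_sq Finset.univ _ _)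
  have b3 : ∑ i, (4 * ‖a i‖ ^ 2 - e) ≤ ∑ i, Lv (g i) x v := Finset.sum_le_sum fun i _ => h4 i
  rw [Finset.sum_sub_distrib, ← Finset.mul_sum, Finset.sum_const, Finset.card_univ,
    nsmul_eq_mul] at b3
  simp only [← h2] at b2
  generalize ∑ i, g i x = G at *
  generalize ∑ i, Lv (g i) x v = L at *
  generalize ‖∑ i, dc (g i) x v‖ ^ 2 = d at *
  generalize ∑ i, ‖a i‖ ^ 2 = s at *
  have b4 : (G ^ 2)⁻¹ * (4 * d) ≤ G⁻¹ * (4 * s) := by
    calc _ ≤ (G ^ 2)⁻¹ * (4 * (G * s)) := by gcongr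
      _ = _ := by field_simp
  have b5 := mul_le_mul_of_nonneg_left b3 (inv_pos.2 h0).le
  rw [div_eq_inv_mul]
  linarith

variable [IsScalarTower ℝ ℂ V] [FiniteDimensional ℂ V]
  {W : Type} [NormedAddCommGroup W] [NormedSpace ℝ W] [NormedSpace ℂ W] [IsScalarTower ℝ ℂ W]

omit [FiniteDimensional ℂ V] in
theorem dc_comp {f : W → ℝ} {g : V → W} (hf : DifferentiableAt ℝ f (g x))
    (hg : DifferentiableAt ℂ g x) (v : V) :
    dc (fun y => f (g y)) x v = dc f (g x) (fderiv ℂ g x v) := by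
  have h : fderiv ℝ (fun y => f (g y)) x = _ :=
    (hf.hasFDerivAt.comp x (hg.hasFDerivAt.restrictScalars ℝ)).fderiv
  rw [dc, dc, h]
  simp

theorem nsq_one (w u : ℂ) :
    Lv (fun w : ℂ => ‖w‖ ^ 2) w u = 4 * ‖u‖ ^ 2 ∧ dc (fun w : ℂ => ‖w‖ ^ 2) w u = conj w * u := by
  have h1 : fderiv ℝ (fun w : ℂ => ‖w‖ ^ 2) = (2 : ℝ) • innerSL ℝ (E := ℂ) := by
    funext y
    refine (hasStrictFDerivAt_norm_sq y).hasFDerivAt.fderiv.trans ?_
    ext v
    simp [mul_add]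
  constructor
  · have h2 : ∀ v : ℂ, D2 (fun w : ℂ => ‖w‖ ^ 2) w v = 2 * ‖v‖ ^ 2 := fun v => by
      rw [D2, h1]
      have := ((2 : ℝ) • innerSL ℝ (E := ℂ)).fderiv (x := w)
      rw [show ((2 : ℝ) • ⇑(innerSL ℝ (E := ℂ))) = ⇑((2 : ℝ) • innerSL ℝ (E := ℂ)) from rfl, this]
      exact congrArg (fun t : ℝ => 2 * t) (real_inner_self_eq_norm_sq v)
    rw [Lv, h2, h2]
    simp
    ring
  · rw [dc, h1]
    apply Complex.ext <;> simp <;> ring

/-- A holomorphic function times a real function. -/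
theorem sq_mul {r : V → ℝ} {f : V → ℂ} (hr : ContDiffAt ℝ ∞ r x)
    (hf : ∀ᶠ y in 𝓝 x, DifferentiableAt ℂ f y) (v : V) :
    Sq (fun y => r y ^ 2 * ‖f y‖ ^ 2) x v
      (‖f x‖ ^ 2 * (8 * ‖dc r x v‖ ^ 2 - 2 * r x * Lv r x v)) := by
  obtain ⟨O, hO, hOo, hx⟩ := eventually_nhds_iff.1 hf
  have hs : ContDiffAt ℝ ∞ f x := (hol_smooth hOo fun y hy =>
    (hO y hy).differentiableWithinAt).2.1.contDiffAt (hOo.mem_nhds hx)
  have hn : ContDiffAt ℝ ∞ (fun y => ‖f y‖ ^ 2) x := hs.norm_sq ℝ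
  have l2 : (2 : WithTop ℕ∞) ≤ ∞ := by norm_cast
  have hN : ContDiff ℝ 2 fun w : ℂ => ‖w‖ ^ 2 := contDiff_norm_sq ℝ
  have e1 := Lv_comp (f := fun w : ℂ => ‖w‖ ^ 2) hN.contDiffAt hf v
  have e2 := dc_comp (f := fun w : ℂ => ‖w‖ ^ 2) (hN.differentiable (by simp) _)
    hf.self_of_nhds v
  rw [(nsq_one _ _).1] at e1
  rw [(nsq_one _ _).2] at e2
  have e3 := Lv_fun (g := fun t => t ^ 2) (g1 := fun t => 2 * t) (g2 := 2) (hr.of_le l2)
    (Eventually.of_forall fun y => by simpa using hasDerivAt_pow 2 y)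
    (by simpa using (hasDerivAt_id (r x)).const_mul 2) v
  have e4 := dc_fun (g := fun t => t ^ 2) (g1 := 2 * r x) (hr.differentiableAt (by simp))
    (by simpa using hasDerivAt_pow 2 (r x)) v
  refine ⟨(hr.pow 2).mul hn, 2 * dc r x v * f x + r x * fderiv ℂ f x v, r x * f x, ?_, ?_, ?_⟩
  · simp [mul_pow]
  · rw [dc_mul ((hr.pow 2).differentiableAt (by simp)) (hn.differentiableAt (by simp)), e2, e4,
      ← Complex.normSq_eq_norm_sq, Complex.normSq_eq_conj_mul_self]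
    simp
    ring
  · rw [Lv_mul ((hr.pow 2).of_le l2) (hn.of_le l2), e1, e2, e3, e4]
    simp only [← Complex.normSq_eq_norm_sq, Complex.normSq_apply]
    simp
    nlinarith

end Pool.Agent.ABK
end

-- part Pool.Agent.P.MP_63735c_ag.CLPrim
section

/-! Primitives and pull-backs. -/

open scoped ContDiff Matrix ENNReal
open Set Metric MeasureTheory Filter Topology

namespace Pool.Agent.CL

open Pool.Agent.SPF

variable {F : Type} [NormedAddCommGroup F] [NormedSpace ℝ F]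
variable {F' : Type} [NormedAddCommGroup F'] [NormedSpace ℝ F']

lemma clprim_skew {W : Set F} (hW : IsOpen W) {t : Form2 F} (ht : Closed2 W t) {x : F}
    (hx : x ∈ W) (w u v : F) : fderiv ℝ t x w u v = -fderiv ℝ t x w v u := by
  have hd : HasFDerivAt t (fderiv ℝ t x) x :=
    ((ht.1.contDiffAt (hW.mem_nhds hx)).differentiableAt (by simp)).hasFDerivAt
  have h1 := (hd.clm_apply (hasFDerivAt_const u x)).clm_apply (hasFDerivAt_const v x)
  have h2 := ((hd.clm_apply (hasFDerivAt_const v x)).clm_apply (hasFDerivAt_const u x)).fun_neg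
  have he : (fun y => t y u v) =ᶠ[𝓝 x] fun y => -t y v u := by
    filter_upwards [hW.mem_nhds hx] with y hy using ht.2.1 y hy u v
  have h3 := h1.unique (h2.congr_of_eventuallyEq he)
  have h4 := DFunLike.congr_fun h3 w
  simpa using h4

lemma clprim_fd {G : Type} [NormedAddCommGroup G] [NormedSpace ℝ G] {t : F → F →L[ℝ] G}
    {o x : F} {s : ℝ} (hd : DifferentiableAt ℝ t (o + s • (x - o))) :
    HasFDerivAt (fun y => t (o + s • (y - o)) (y - o))
      ((t (o + s • (x - o))).comp (ContinuousLinearMap.id ℝ F) +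
        ((fderiv ℝ t (o + s • (x - o))).comp (s • ContinuousLinearMap.id ℝ F)).flip (x - o)) x := by
  have h3 : HasFDerivAt (fun y : F => y - o) (ContinuousLinearMap.id ℝ F) x :=
    (hasFDerivAt_id x).sub_const o
  have h1 : HasFDerivAt (fun y : F => o + s • (y - o)) (s • ContinuousLinearMap.id ℝ F) x :=
    (h3.fun_const_smul s).const_add o
  have h2 : HasFDerivAt (fun y => t (o + s • (y - o)))
      ((fderiv ℝ t (o + s • (x - o))).comp (s • ContinuousLinearMap.id ℝ F)) x :=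
    HasFDerivAt.comp x (f := fun y : F => o + s • (y - o)) hd.hasFDerivAt h1
  exact h2.clm_apply h3

lemma clprim_fd2 {G : Type} [NormedAddCommGroup G] [NormedSpace ℝ G] {t : F → F →L[ℝ] G}
    {o x : F} {s : ℝ} (hd : DifferentiableAt ℝ t (o + s • (x - o))) (a : F) :
    fderiv ℝ (fun y => s • t (o + s • (y - o)) (y - o)) x a =
      s • t (o + s • (x - o)) a + (s * s) • fderiv ℝ t (o + s • (x - o)) a (x - o) := by
  rw [((clprim_fd hd).fun_const_smul s).fderiv]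
  simp only [_root_.smul_apply, _root_.add_apply,
    ContinuousLinearMap.comp_apply, ContinuousLinearMap.id_apply, ContinuousLinearMap.flip_apply,
    map_smul, smul_add, smul_smul]

lemma clprim_two : (2 : WithTop ℕ∞) ≤ ((⊤ : ℕ∞) : WithTop ℕ∞) :=
  WithTop.coe_le_coe.2 (le_top : (2 : ℕ∞) ≤ ⊤)

lemma clprim_line {G : Type} [NormedAddCommGroup G] [NormedSpace ℝ G] {t : F → G}
    {o r : F} {s : ℝ} (hd : DifferentiableAt ℝ t (o + s • r)) :
    HasDerivAt (fun s : ℝ => t (o + s • r)) (fderiv ℝ t (o + s • r) r) s := by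
  have h1 : HasDerivAt (fun s : ℝ => o + s • r) r s := by
    simpa using ((hasDerivAt_id s).smul_const r).const_add o
  exact HasFDerivAt.comp_hasDerivAt s (f := fun s : ℝ => o + s • r) hd.hasFDerivAt h1

lemma clprim_line2 {t : Form2 F} {o r : F} {s : ℝ} (hd : DifferentiableAt ℝ t (o + s • r))
    (u v : F) : HasDerivAt (fun s : ℝ => t (o + s • r) u v) (fderiv ℝ t (o + s • r) r u v) s := by
  have h0 := (hd.hasFDerivAt.clm_apply (hasFDerivAt_const u _)).clm_apply (hasFDerivAt_const v _)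
  have h1 : HasDerivAt (fun s : ℝ => o + s • r) r s := by
    simpa using ((hasDerivAt_id s).smul_const r).const_add o
  have h2 := HasFDerivAt.comp_hasDerivAt s (f := fun s : ℝ => o + s • r) h0 h1
  refine HasDerivAt.congr_deriv (f := fun s : ℝ => t (o + s • r) u v) h2 ?_
  simp

lemma clprim_smooth {G : Type} [NormedAddCommGroup G] [NormedSpace ℝ G] {t : F → F →L[ℝ] G}
    {o x : F} {s : ℝ} (hd : ContDiffAt ℝ ∞ t (o + s • (x - o))) :
    ContDiffAt ℝ ∞ (fun q : F × ℝ => t (o + q.2 • (q.1 - o)) (q.1 - o)) (x, s) := by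
  have h1 : ContDiffAt ℝ ∞ (fun q : F × ℝ => q.1 - o) (x, s) := contDiffAt_fst.sub contDiffAt_const
  have h2 : ContDiffAt ℝ ∞ (fun q : F × ℝ => o + q.2 • (q.1 - o)) (x, s) :=
    contDiffAt_const.add (contDiffAt_snd.smul h1)
  exact (ContDiffAt.comp (x, s) (f := fun q : F × ℝ => o + q.2 • (q.1 - o)) hd h2).clm_apply h1

lemma clprim_int {G : Type} [NormedAddCommGroup G] {f : ℝ → G}
    (h : ContinuousOn f (Icc 0 1)) : IntervalIntegrable f volume 0 1 :=
  ContinuousOn.intervalIntegrable (by rwa [uIcc_of_le zero_le_one])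

lemma clprim_cont {W : Set F} {A : Form1 F} (hA : ContinuousOn A W) {c : ℝ → F}
    (h : Curve W c) : ContinuousOn (fun s => A (c s) (deriv c s)) (Icc 0 1) := by
  have h1 : ContinuousOn c (Icc 0 1) := fun s hs => (h s hs).1.continuousAt.continuousWithinAt
  have h2 : ContinuousOn (deriv c) (Icc 0 1) := by
    intro s hs
    have h3 : ContDiffAt ℝ 1 (fderiv ℝ c) s := (h s hs).1.fderiv_right (by norm_num)
    have h4 : ContinuousAt (fun s => fderiv ℝ c s 1) s :=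
      h3.continuousAt.clm_apply continuousAt_const
    exact h4.continuousWithinAt
  exact (hA.comp h1 fun s hs => (h s hs).2).clm_apply h2

theorem rad_prim {W : Set F} (hW : IsOpen W) (hc : Convex ℝ W) {t : Form2 F} (ht : Closed2 W t)
    {o : F} (ho : o ∈ W) : IsPrim W (rad t o) t := by
  have hm : ∀ x ∈ W, ∀ s ∈ Icc (0 : ℝ) 1, o + s • (x - o) ∈ W := fun x hx s hs =>
    hc.add_smul_sub_mem ho hx hs
  have hs0 : ∀ x ∈ W, ∀ s ∈ Icc (0 : ℝ) 1, ContDiffAt ℝ ∞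
      (fun q : F × ℝ => q.2 • t (o + q.2 • (q.1 - o)) (q.1 - o)) (x, s) := fun x hx s hs =>
    contDiffAt_snd.smul (clprim_smooth (ht.1.contDiffAt (hW.mem_nhds (hm x hx s hs))))
  refine ⟨contDiffOn_param (f := fun y s => s • t (o + s • (y - o)) (y - o)) hW hs0, ?_⟩
  intro x hx u v
  obtain ⟨h1, h2⟩ := hasFDerivAt_param (f := fun y s => s • t (o + s • (y - o)) (y - o)) (x := x)
    fun s hs => (hs0 x hx s hs).of_le (by exact_mod_cast le_top)
  have h3 : fderiv ℝ (rad t o) x = ∫ s in (0 : ℝ)..1,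
      fderiv ℝ (fun y => s • t (o + s • (y - o)) (y - o)) x := h1.fderiv
  have hcu : ∀ a b : F, ContinuousOn
      (fun s : ℝ => fderiv ℝ (fun y => s • t (o + s • (y - o)) (y - o)) x a b) (Icc 0 1) :=
    fun a b => (h2.clm_apply continuousOn_const).clm_apply continuousOn_const
  have h4 : ∀ a b : F, fderiv ℝ (rad t o) x a b = ∫ s in (0 : ℝ)..1,
      fderiv ℝ (fun y => s • t (o + s • (y - o)) (y - o)) x a b := by
    intro a b
    rw [h3, ContinuousLinearMap.intervalIntegral_apply (clprim_int h2),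
      ContinuousLinearMap.intervalIntegral_apply
        (clprim_int (h2.clm_apply continuousOn_const))]
  rw [h4, h4, ← intervalIntegral.integral_sub (clprim_int (hcu u v)) (clprim_int (hcu v u))]
  have h5 := intervalIntegral.integral_eq_sub_of_hasDerivAt
    (f := fun s : ℝ => s ^ 2 * t (o + s • (x - o)) u v) (a := 0) (b := 1)
    (f' := fun s : ℝ => fderiv ℝ (fun y => s • t (o + s • (y - o)) (y - o)) x u v -
      fderiv ℝ (fun y => s • t (o + s • (y - o)) (y - o)) x v u) ?_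
    (clprim_int ((hcu u v).sub (hcu v u)))
  · rw [h5]; simp
  intro s hs
  rw [uIcc_of_le zero_le_one] at hs
  have hmem := hm x hx s hs
  have hd : DifferentiableAt ℝ t (o + s • (x - o)) :=
    (ht.1.contDiffAt (hW.mem_nhds hmem)).differentiableAt (by simp)
  have h7 : HasDerivAt (fun s : ℝ => t (o + s • (x - o)) u v)
      (fderiv ℝ t (o + s • (x - o)) (x - o) u v) s := clprim_line2 hd u v
  refine ((hasDerivAt_pow 2 s).fun_mul h7).congr_deriv ?_
  have e1 := ht.2.1 _ hmem v u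
  have e2 := ht.2.2 _ hmem (x - o) u v
  have e3 := clprim_skew hW ht hmem u v (x - o)
  rw [clprim_fd2 hd, clprim_fd2 hd]
  simp only [_root_.smul_apply, _root_.add_apply, smul_eq_mul]
  rw [e1]
  have e4 : fderiv ℝ t (o + s • (x - o)) (x - o) u v =
      fderiv ℝ t (o + s • (x - o)) u (x - o) v - fderiv ℝ t (o + s • (x - o)) v (x - o) u := by
    linarith
  rw [e4]
  norm_num
  ring

theorem rad_apply {W : Set F} (hc : Convex ℝ W) {t : Form2 F} (ht : Closed2 W t)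
    {o p : F} (ho : o ∈ W) (hp : p ∈ W) (u : F) :
    rad t o p u = ∫ s in (0 : ℝ)..1, s * t (o + s • (p - o)) (p - o) u := by
  have h1 : ContinuousOn (fun s : ℝ => t (o + s • (p - o))) (Icc 0 1) :=
    ht.1.continuousOn.comp (f := fun s : ℝ => o + s • (p - o)) (by fun_prop)
      fun s hs => hc.add_smul_sub_mem ho hp hs
  have h2 : ContinuousOn (fun s : ℝ => s • t (o + s • (p - o)) (p - o)) (Icc 0 1) :=
    continuousOn_id.smul (h1.clm_apply continuousOn_const)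
  unfold rad
  rw [ContinuousLinearMap.intervalIntegral_apply (clprim_int h2)]
  simp only [_root_.smul_apply, smul_eq_mul]

theorem rad_seg {W : Set F} (hc : Convex ℝ W) {t : Form2 F} (ht : Closed2 W t)
    {o p : F} (ho : o ∈ W) (hp : p ∈ W) : segInt (rad t o) o p = 0 := by
  unfold segInt
  refine intervalIntegral.integral_zero_ae (Eventually.of_forall fun s hs => ?_)
  rw [uIoc_of_le zero_le_one] at hs
  have hq := hc.add_smul_sub_mem ho hp (Ioc_subset_Icc_self hs)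
  rw [rad_apply hc ht ho hq]
  refine intervalIntegral.integral_zero_ae (Eventually.of_forall fun r hr => ?_)
  rw [uIoc_of_le zero_le_one] at hr
  have h1 := ht.2.1 _ (hc.add_smul_sub_mem ho hq (Ioc_subset_Icc_self hr)) (p - o) (p - o)
  have h2 : t (o + r • (o + s • (p - o) - o)) (p - o) (p - o) = 0 := by linarith
  have h3 : t (o + r • (o + s • (p - o) - o)) (o + s • (p - o) - o) (p - o) =
      s * t (o + r • (o + s • (p - o) - o)) (p - o) (p - o) := by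
    generalize t (o + r • (o + s • (p - o) - o)) = T
    rw [add_sub_cancel_left, map_smul, _root_.smul_apply, smul_eq_mul]
  rw [h3, h2, mul_zero, mul_zero]

theorem closed1_deriv {W : Set F} (hW : IsOpen W) (hc : Convex ℝ W) {B : Form1 F}
    (hB : IsPrim W B 0) {o p : F} (ho : o ∈ W) (hp : p ∈ W) :
    HasFDerivAt (segInt B o) (B p) p := by
  have hm : ∀ s ∈ Icc (0 : ℝ) 1, o + s • (p - o) ∈ W := fun s hs =>
    hc.add_smul_sub_mem ho hp hs
  obtain ⟨h1, h2⟩ := hasFDerivAt_param (f := fun y s => B (o + s • (y - o)) (y - o)) (x := p)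
    fun s hs => (clprim_smooth (hB.1.contDiffAt (hW.mem_nhds (hm s hs)))).of_le
      (by exact_mod_cast le_top)
  refine HasFDerivAt.congr_fderiv (f := segInt B o) h1 ?_
  ext u
  rw [ContinuousLinearMap.intervalIntegral_apply (clprim_int h2)]
  have h5 := intervalIntegral.integral_eq_sub_of_hasDerivAt
    (f := fun s : ℝ => s * B (o + s • (p - o)) u) (a := 0) (b := 1)
    (f' := fun s : ℝ => fderiv ℝ (fun y => B (o + s • (y - o)) (y - o)) p u) ?_
    (clprim_int (h2.clm_apply continuousOn_const))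
  · rw [h5]; simp
  intro s hs
  rw [uIcc_of_le zero_le_one] at hs
  have hmem := hm s hs
  have hd : DifferentiableAt ℝ B (o + s • (p - o)) :=
    (hB.1.contDiffAt (hW.mem_nhds hmem)).differentiableAt (by simp)
  have h6 := (clprim_fd hd).fderiv
  have h7 : HasDerivAt (fun s : ℝ => B (o + s • (p - o)) u)
      (fderiv ℝ B (o + s • (p - o)) (p - o) u) s := by
    simpa using (clprim_line hd).clm_apply (hasDerivAt_const s u)
  refine ((hasDerivAt_id' s).fun_mul h7).congr_deriv ?_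
  have e1 := hB.2 _ hmem u (p - o)
  rw [h6]
  simp only [_root_.smul_apply, _root_.add_apply,
    ContinuousLinearMap.comp_apply, ContinuousLinearMap.id_apply, ContinuousLinearMap.flip_apply,
    map_smul, smul_eq_mul]
  have e2 : fderiv ℝ B (o + s • (p - o)) u (p - o) = fderiv ℝ B (o + s • (p - o)) (p - o) u := by
    have e3 : (0 : Form2 F) (o + s • (p - o)) u (p - o) = 0 := rfl
    linarith
  rw [e2]
  ring

theorem closed1_line {W : Set F} (hW : IsOpen W) (hc : Convex ℝ W) {B : Form1 F}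
    (hB : IsPrim W B 0) {o : F} (ho : o ∈ W) {c : ℝ → F} (h : Curve W c) :
    lineInt B c = segInt B o (c 1) - segInt B o (c 0) := by
  unfold lineInt
  refine intervalIntegral.integral_eq_sub_of_hasDerivAt (f := fun s => segInt B o (c s)) ?_
    (clprim_int (clprim_cont hB.1.continuousOn h))
  intro s hs
  rw [uIcc_of_le zero_le_one] at hs
  exact HasFDerivAt.comp_hasDerivAt s (f := c) (closed1_deriv hW hc hB ho (h s hs).2)
    ((h s hs).1.differentiableAt (by norm_num)).hasDerivAt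

theorem pull_prim {W : Set F} {W' : Set F'} (hW : IsOpen W) (hW' : IsOpen W') {g : F' → F}
    (hg : ContDiffOn ℝ ∞ g W') (hm : MapsTo g W' W) {A : Form1 F} {t : Form2 F}
    (hA : IsPrim W A t) {t' : Form2 F'}
    (h : ∀ x ∈ W', ∀ u v, t (g x) (fderiv ℝ g x u) (fderiv ℝ g x v) = t' x u v) :
    IsPrim W' (pull1 g A) t' := by
  have hg' : ContDiffOn ℝ ∞ (fderiv ℝ g) W' := hg.fderiv_of_isOpen hW' (by simp)
  refine ⟨(hA.1.comp hg hm).clm_comp hg', ?_⟩
  intro x hx u v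
  have g0 := hg.contDiffAt (hW'.mem_nhds hx)
  have h1 : HasFDerivAt g (fderiv ℝ g x) x := (g0.differentiableAt (by simp)).hasFDerivAt
  have h2 : HasFDerivAt (fderiv ℝ g) (fderiv ℝ (fderiv ℝ g) x) x :=
    ((hg'.contDiffAt (hW'.mem_nhds hx)).differentiableAt (by simp)).hasFDerivAt
  have h3 : HasFDerivAt A (fderiv ℝ A (g x)) (g x) :=
    ((hA.1.contDiffAt (hW.mem_nhds (hm hx))).differentiableAt (by simp)).hasFDerivAt
  have h4 : HasFDerivAt (fun y => A (g y)) ((fderiv ℝ A (g x)).comp (fderiv ℝ g x)) x :=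
    h3.comp x h1
  have h5 := (h4.clm_comp h2).fderiv
  have h6 : ∀ a b, fderiv ℝ (pull1 g A) x a b =
      A (g x) (fderiv ℝ (fderiv ℝ g) x a b) +
        fderiv ℝ A (g x) (fderiv ℝ g x a) (fderiv ℝ g x b) := by
    intro a b
    unfold pull1
    rw [h5]
    simp
  have h7 : fderiv ℝ (fderiv ℝ g) x u v = fderiv ℝ (fderiv ℝ g) x v u :=
    (g0.isSymmSndFDerivAt
      (by simp only [minSmoothness_of_isRCLikeNormedField]; exact clprim_two)).eq u v
  rw [h6, h6, h7, ← h x hx u v, ← hA.2 _ (hm hx)]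
  ring

theorem curve_comp {W : Set F} {W' : Set F'} (hW' : IsOpen W') {g : F' → F}
    (hg : ContDiffOn ℝ ∞ g W') (hm : MapsTo g W' W) {c : ℝ → F'} (h : Curve W' c) :
    Curve W (fun s => g (c s)) := by
  intro s hs
  refine ⟨?_, hm (h s hs).2⟩
  exact ContDiffAt.comp s (f := c)
    ((hg.contDiffAt (hW'.mem_nhds (h s hs).2)).of_le clprim_two) (h s hs).1

theorem lineInt_pull {W' : Set F'} (hW' : IsOpen W') {g : F' → F}
    (hg : ContDiffOn ℝ ∞ g W') (A : Form1 F) {c : ℝ → F'} (h : Curve W' c) :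
    lineInt A (fun s => g (c s)) = lineInt (pull1 g A) c := by
  unfold lineInt
  refine intervalIntegral.integral_congr fun s hs => ?_
  rw [uIcc_of_le zero_le_one] at hs
  have h1 : HasDerivAt (fun s => g (c s)) (fderiv ℝ g (c s) (deriv c s)) s :=
    HasFDerivAt.comp_hasDerivAt s (f := c)
      ((hg.contDiffAt (hW'.mem_nhds (h s hs).2)).differentiableAt (by simp)).hasFDerivAt
      ((h s hs).1.differentiableAt (by norm_num)).hasDerivAt
  simp only [pull1, h1.deriv, ContinuousLinearMap.comp_apply]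

theorem lineInt_add {W : Set F} (hW : IsOpen W) {A B : Form1 F} (hA : ContinuousOn A W)
    (hB : ContinuousOn B W) (a b : ℝ) {c : ℝ → F} (h : Curve W c) :
    lineInt (fun x => a • A x + b • B x) c = a * lineInt A c + b * lineInt B c := by
  have _ := hW
  unfold lineInt
  rw [← intervalIntegral.integral_const_mul, ← intervalIntegral.integral_const_mul,
    ← intervalIntegral.integral_add ((clprim_int (clprim_cont hA h)).const_mul a)
      ((clprim_int (clprim_cont hB h)).const_mul b)]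
  simp only [_root_.add_apply, _root_.smul_apply, smul_eq_mul]

theorem IsPrim.comb {W : Set F} (hW : IsOpen W) {A B : Form1 F} {t t' : Form2 F}
    (hA : IsPrim W A t) (hB : IsPrim W B t') (a b : ℝ) :
    IsPrim W (fun x => a • A x + b • B x) (fun x => a • t x + b • t' x) := by
  refine ⟨(hA.1.const_smul a).add (hB.1.const_smul b), ?_⟩
  intro x hx u v
  have h1 : HasFDerivAt A (fderiv ℝ A x) x :=
    ((hA.1.contDiffAt (hW.mem_nhds hx)).differentiableAt (by simp)).hasFDerivAt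
  have h2 : HasFDerivAt B (fderiv ℝ B x) x :=
    ((hB.1.contDiffAt (hW.mem_nhds hx)).differentiableAt (by simp)).hasFDerivAt
  rw [((h1.fun_const_smul a).fun_add (h2.fun_const_smul b)).fderiv]
  simp only [_root_.add_apply, _root_.smul_apply, smul_eq_mul]
  rw [← hA.2 x hx u v, ← hB.2 x hx u v]
  ring

theorem liou_prim {n : ℕ} (W : Set (P n)) (c : ℂ) : IsPrim W (liou c) (fun _ => sig c) := by
  have h1 : liou c = fun p : P n => (-((rdot c).bilinearComp
      (ContinuousLinearMap.snd ℝ (E n) (E n)) (ContinuousLinearMap.fst ℝ (E n) (E n)))) p := by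
    funext p
    refine ContinuousLinearMap.ext fun q => ?_
    simp [liou]
  rw [h1]
  refine ⟨(ContinuousLinearMap.contDiff _).contDiffOn, ?_⟩
  intro x _ u v
  rw [ContinuousLinearMap.fderiv, sig_apply]
  simp only [_root_.neg_apply, ContinuousLinearMap.bilinearComp_apply,
    ContinuousLinearMap.coe_fst', ContinuousLinearMap.coe_snd', rdot_apply]
  rw [dotProduct_comm u.2 v.1, dotProduct_comm v.2 u.1]
  ring

end Pool.Agent.CL
end

-- part Pool.Agent.P.MP_63735c_ag.CLRet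
section

/-! Basic facts on returns. -/

open scoped ContDiff Matrix ENNReal
open Set Metric MeasureTheory Filter Topology

namespace Pool.Agent.CL

open Pool.Agent.SPF

variable {n : ℕ}

theorem tr_pair (U : E n →L[ℂ] E n) (ξ u : E n) : tr U ξ ⬝ᵥ u = ξ ⬝ᵥ U u := by
  have h : U u = LinearMap.toMatrix' (U : E n →ₗ[ℂ] E n) *ᵥ u := by
    rw [← Matrix.toLin'_apply, Matrix.toLin'_toMatrix']; rfl
  rw [h, Matrix.dotProduct_mulVec, ← Matrix.mulVec_transpose]
  simp [tr]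

theorem dot_le (u v : E n) : ‖u ⬝ᵥ v‖ ≤ n * ‖u‖ * ‖v‖ := by
  calc ‖u ⬝ᵥ v‖ ≤ ∑ k : Fin n, ‖u k * v k‖ := norm_sum_le _ _
    _ ≤ ∑ _k : Fin n, ‖u‖ * ‖v‖ := Finset.sum_le_sum fun k _ => by
        rw [norm_mul]
        exact mul_le_mul (norm_le_pi_norm u k) (norm_le_pi_norm v k) (norm_nonneg _)
          (norm_nonneg _)
    _ = n * ‖u‖ * ‖v‖ := by simp [mul_assoc]

theorem clret_ext {A B : E n →L[ℂ] E n} (h : ∀ ξ u, A ξ ⬝ᵥ u = B ξ ⬝ᵥ u) : A = B :=
  ContinuousLinearMap.ext fun ξ => dotProduct_eq _ _ (h ξ)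

theorem tr_basic (U V : E n →L[ℂ] E n) : tr (1 : E n →L[ℂ] E n) = 1 ∧
    tr (U.comp V) = (tr V).comp (tr U) ∧ tr (U - V) = tr U - tr V ∧ tr (tr U) = U ∧
    ‖tr U‖ ≤ n * ‖U‖ := by
  refine ⟨clret_ext fun ξ u => by simp [tr_pair], clret_ext fun ξ u => by simp [tr_pair],
    clret_ext fun ξ u => by simp [tr_pair], clret_ext fun ξ u => ?_, ?_⟩
  · rw [tr_pair, dotProduct_comm, tr_pair, dotProduct_comm]
  · refine ContinuousLinearMap.opNorm_le_bound _ (by positivity) fun ξ => ?_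
    refine (pi_norm_le_iff_of_nonneg (by positivity)).2 fun k => ?_
    rw [← dotProduct_single_one (tr U ξ) k, tr_pair]
    refine (dot_le _ _).trans ?_
    have h1 : ‖U (Pi.single k 1)‖ ≤ ‖U‖ := by
      simpa [Pi.norm_single] using U.le_opNorm (Pi.single k 1)
    calc (n : ℝ) * ‖ξ‖ * ‖U (Pi.single k 1)‖ ≤ n * ‖ξ‖ * ‖U‖ := by gcongr
      _ = n * ‖U‖ * ‖ξ‖ := by ring

theorem exists_trL : ∃ L : (E n →L[ℂ] E n) →L[ℂ] (E n →L[ℂ] E n), ∀ U, L U = tr U := by
  let L0 : (E n →L[ℂ] E n) →ₗ[ℂ] (E n →L[ℂ] E n) :=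
    { toFun := tr
      map_add' := fun U V => clret_ext fun ξ u => by simp [tr_pair]
      map_smul' := fun c U => clret_ext fun ξ u => by simp [tr_pair] }
  exact ⟨L0.mkContinuous n fun U => (tr_basic U U).2.2.2.2, fun U => rfl⟩

theorem pair_inv {N U : E n →L[ℂ] E n} (h : ∀ ξ u, N ξ ⬝ᵥ U u = ξ ⬝ᵥ u) :
    (∀ ξ, N (tr U ξ) = ξ) ∧ (∀ ξ, tr U (N ξ) = ξ) ∧ Function.Bijective U := by
  have h1 : ∀ ξ, tr U (N ξ) = ξ := fun ξ => dotProduct_eq _ _ fun u => by rw [tr_pair, h]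
  have h2 : (tr U : E n →ₗ[ℂ] E n) * (N : E n →ₗ[ℂ] E n) = 1 := LinearMap.ext h1
  have h3 := mul_eq_one_comm.1 h2
  have h4 : Function.Injective (U : E n →ₗ[ℂ] E n) := by
    rw [injective_iff_map_eq_zero]
    intro u hu
    refine dotProduct_eq_zero _ fun ξ => ?_
    rw [dotProduct_comm, ← h, show U u = 0 from hu, dotProduct_zero]
  exact ⟨fun ξ => LinearMap.congr_fun h3 ξ, h1, h4, LinearMap.injective_iff_surjective.1 h4⟩

section
variable {X : Type} {T O O' : Set (E n)} {Ψ : P n → X} {g g' h : Ret n} {y : E n}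

theorem IsRet.mono (hg : IsRet T Ψ O g) (hO : IsOpen O') (hs : O' ⊆ O) : IsRet T Ψ O' g :=   ⟨hO, hs.trans hg.sub, hg.γ_hol.mono hs, hg.α_hol.mono hs, hg.N_hol.mono hs,
    hg.maps.mono_left hs, fun y hy => hg.pair y (hs hy), fun y hy => hg.eq y (hs hy)⟩

theorem IsRet.congr (hg : IsRet T Ψ O g)
    (he : ∀ x ∈ O, g'.γ x = g.γ x ∧ g'.α x = g.α x ∧ g'.N x = g.N x) : IsRet T Ψ O g' := by
  refine ⟨hg.isOpen, hg.sub, hg.γ_hol.congr fun x hx => (he x hx).1,
    hg.α_hol.congr fun x hx => (he x hx).2.1, hg.N_hol.congr fun x hx => (he x hx).2.2,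
    fun x hx => (he x hx).1 ▸ hg.maps hx, fun x hx ξ u => ?_, fun x hx ξ => ?_⟩
  · have e : g'.γ =ᶠ[𝓝 x] g.γ := by
      filter_upwards [hg.isOpen.mem_nhds hx] with z hz using (he z hz).1
    rw [e.fderiv_eq, (he x hx).2.2, hg.pair x hx]
  · have := hg.eq x hx ξ
    simp only [Ret.act] at this ⊢
    rw [(he x hx).1, (he x hx).2.1, (he x hx).2.2, this]

theorem Germ.congr (hg : Germ T Ψ y g) (he : Ret.Eq y g g') : Germ T Ψ y g' := by
  obtain ⟨O, hO, hy⟩ := hg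
  obtain ⟨U, hU, hUo, hyU⟩ := _root_.eventually_nhds_iff.1 he
  exact ⟨O ∩ U, (hO.mono (hO.isOpen.inter hUo) inter_subset_left).congr fun x hx =>
    ⟨(hU x hx.2).1.symm, (hU x hx.2).2.1.symm, (hU x hx.2).2.2.symm⟩, hy, hyU⟩

theorem Germ.ball (hg : Germ T Ψ y g) : ∃ ρ > 0, IsRet T Ψ (ball y ρ) g := by
  obtain ⟨O, hO, hy⟩ := hg
  obtain ⟨ρ, hρ, hs⟩ := Metric.isOpen_iff.1 hO.isOpen y hy
  exact ⟨ρ, hρ, hO.mono isOpen_ball hs⟩

theorem IsRet.comp (hg : IsRet T Ψ O g) (hh : IsRet T Ψ O' h) (hm : MapsTo g.γ O O') :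
    IsRet T Ψ O (h.comp g) ∧ ∀ p : P n, p.1 ∈ O → (h.comp g).act p = h.act (g.act p) := by
  have ha : ∀ p : P n, p.1 ∈ O → (h.comp g).act p = h.act (g.act p) := by
    intro p hp
    simp only [Ret.act, Ret.comp, ContinuousLinearMap.comp_apply, ← sub_sub, map_sub,
      (pair_inv (hg.pair p.1 hp)).1]
  obtain ⟨L, hL⟩ := exists_trL (n := n)
  refine ⟨⟨hg.isOpen, hg.sub, hh.γ_hol.comp hg.γ_hol hm, ?_,
    (hh.N_hol.comp hg.γ_hol hm).clm_comp hg.N_hol, fun x hx => hh.maps (hm hx),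
    fun x hx ξ u => ?_, fun x hx ξ => ?_⟩, ha⟩
  · refine hg.α_hol.add (DifferentiableOn.clm_apply ?_ (hh.α_hol.comp hg.γ_hol hm))
    simp only [← hL]
    exact L.differentiable.comp_differentiableOn (hol_smooth hg.isOpen hg.γ_hol).2.2
  · have d1 := hg.γ_hol.differentiableAt (hg.isOpen.mem_nhds hx)
    have d2 := hh.γ_hol.differentiableAt (hh.isOpen.mem_nhds (hm hx))
    have e : fderiv ℂ (h.comp g).γ x = (fderiv ℂ h.γ (g.γ x)).comp (fderiv ℂ g.γ x) :=
      fderiv_comp x d2 d1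
    rw [e]
    exact (hh.pair _ (hm hx) _ _).trans (hg.pair x hx ξ u)
  · rw [ha _ hx]
    exact (hh.eq _ (hm hx) _).trans (hg.eq x hx ξ)

theorem Germ.comp (hg : Germ T Ψ y g) (hh : Germ T Ψ (g.γ y) h) : Germ T Ψ y (h.comp g) ∧
    ∀ᶠ x in 𝓝 y, ∀ ξ, (h.comp g).act (x, ξ) = h.act (g.act (x, ξ)) := by
  obtain ⟨O, hO, hy⟩ := hg
  obtain ⟨O', hO', hy'⟩ := hh
  have ho : IsOpen (O ∩ g.γ ⁻¹' O') :=
    hO.γ_hol.continuousOn.isOpen_inter_preimage hO.isOpen hO'.isOpen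
  obtain ⟨h1, h2⟩ := (hO.mono ho inter_subset_left).comp hO' fun x hx => hx.2
  refine ⟨⟨_, h1, hy, hy'⟩, ?_⟩
  filter_upwards [ho.mem_nhds ⟨hy, hy'⟩] with x hx ξ using h2 (x, ξ) hx

theorem IsRet.smooth (hg : IsRet T Ψ O g) : ContDiffOn ℝ ∞ g.act (O ×ˢ univ) ∧
    MapsTo g.act (O ×ˢ univ) (T ×ˢ univ) ∧ DifferentiableOn ℂ g.act (O ×ˢ univ) ∧
    ∀ p : P n, p.1 ∈ O → ∀ u : P n, fderiv ℝ g.act p u = (fderiv ℂ g.γ p.1 u.1,
      g.N p.1 (u.2 - fderiv ℂ g.α p.1 u.1) + fderiv ℂ g.N p.1 u.1 (p.2 - g.α p.1)) := by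
  have hd : ∀ p : P n, p.1 ∈ O → HasFDerivAt g.act
      (((fderiv ℂ g.γ p.1).comp (ContinuousLinearMap.fst ℂ _ _)).prod
        ((g.N p.1).comp (ContinuousLinearMap.snd ℂ _ _ -
          (fderiv ℂ g.α p.1).comp (ContinuousLinearMap.fst ℂ _ _)) +
        ((fderiv ℂ g.N p.1).comp (ContinuousLinearMap.fst ℂ _ _)).flip (p.2 - g.α p.1))) p := by
    intro p hp
    have hn := hg.isOpen.mem_nhds hp
    have d1 := (hg.γ_hol.differentiableAt hn).hasFDerivAt.comp p hasFDerivAt_fst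
    have d2 := (hg.α_hol.differentiableAt hn).hasFDerivAt.comp p hasFDerivAt_fst
    have d3 := (hg.N_hol.differentiableAt hn).hasFDerivAt.comp p hasFDerivAt_fst
    exact d1.prodMk (d3.clm_apply (hasFDerivAt_snd.sub d2))
  have hD : DifferentiableOn ℂ g.act (O ×ˢ univ) := fun p hp =>
    (hd p hp.1).differentiableAt.differentiableWithinAt
  refine ⟨(hol_smooth (hg.isOpen.prod isOpen_univ) hD).2.1, fun p hp => ⟨hg.maps hp.1, trivial⟩,
    hD, fun p hp u => ?_⟩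
  rw [((hd p hp).restrictScalars ℝ).fderiv]
  simp

/-- `N` is determined by `γ`. -/
theorem Germ.N_eq (hg : Germ T Ψ y g) {γ : E n → E n} {N : E n → E n →L[ℂ] E n}
    (he : g.γ =ᶠ[𝓝 y] γ) (hp : ∀ᶠ x in 𝓝 y, ∀ ξ u, N x ξ ⬝ᵥ fderiv ℂ γ x u = ξ ⬝ᵥ u) :
    g.N =ᶠ[𝓝 y] N := by
  obtain ⟨O, hO, hy⟩ := hg
  filter_upwards [hO.isOpen.mem_nhds hy, he.eventuallyEq_nhds, hp] with x hx h1 h2
  refine clret_ext fun ξ u => ?_
  obtain ⟨v, rfl⟩ := (pair_inv h2).2.2.2 u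
  rw [h2, ← h1.fderiv_eq, hO.pair x hx]

theorem Germ.per (hg : Germ T Ψ y g) (he : g.γ =ᶠ[𝓝 y] fun x => x) :
    Ret.Eq y g (Ret.per g.α) := by
  have h1 : g.N =ᶠ[𝓝 y] fun _ => 1 := hg.N_eq he (Eventually.of_forall fun x ξ u => by simp)
  filter_upwards [he, h1] with x e1 e2 using ⟨e1, rfl, e2⟩

theorem isRet_one (hT : IsOpen T) : IsRet T Ψ T (Ret.per fun _ => 0) :=   ⟨hT, Subset.rfl, differentiableOn_id, differentiableOn_const _, differentiableOn_const _,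
    fun _ hx => hx, fun x _ ξ u => by simp [Ret.per], fun x _ ξ => by simp [Ret.per, Ret.act]⟩

theorem isRet_zm {r0 : ℕ} {z : Fin r0 → E n → E n} (hO : IsOpen O) (hs : O ⊆ T)
    (hz : ∀ k, IsRet T Ψ O (Ret.per (z k))) (m : Fin r0 → ℤ) :
    IsRet T Ψ O (Ret.per (zm z m)) := by
  refine ⟨hO, hs, differentiableOn_id, ?_, differentiableOn_const _, fun _ hx => hs hx,
    fun x _ ξ u => by simp [Ret.per], fun x hx ξ => ?_⟩
  · have := DifferentiableOn.fun_sum (u := Finset.univ) fun k _ =>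
      (hz k).α_hol.const_smul (m k : ℂ)
    exact this
  · let A : AddSubgroup (E n) :=
      { carrier := {v | ∀ ξ, Ψ (x, ξ - v) = Ψ (x, ξ)}
        zero_mem' := fun ξ => by rw [sub_zero]
        add_mem' := fun {a b} ha hb ξ => by rw [← sub_sub, hb, ha]
        neg_mem' := fun {a} ha ξ => by rw [← ha (ξ - -a)]; simp }
    have hA : zm z m x ∈ A := A.sum_mem fun k _ => by
      rw [Int.cast_smul_eq_zsmul]
      exact A.zsmul_mem (x := z k x) (fun ξ => (hz k).eq x hx ξ) _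
    exact hA ξ

end

variable {X : Type} [TopologicalSpace X] [T2Space X] [MeasurableSpace X] (M : Model n X)

theorem Model.sep0 {y : E n} {g g' : Ret n} (hg : Germ M.T M.Ψ y g) (hg' : Germ M.T M.Ψ y g')
    (h : M.C0 * ‖g.α y - g'.α y‖ < 2 * M.c0) : Ret.Eq y g g' := by
  obtain ⟨O, hO, hy⟩ := id hg
  obtain ⟨O', hO', hy'⟩ := id hg'
  have c1 := hO.α_hol.continuousOn.continuousAt (hO.isOpen.mem_nhds hy)
  have c2 := hO'.α_hol.continuousOn.continuousAt (hO'.isOpen.mem_nhds hy')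
  have c3 : ContinuousAt (fun x => M.C0 * ‖g.α x - g'.α x‖) y :=
    continuousAt_const.mul (c1.sub c2).norm
  have key : ∀ᶠ x in 𝓝 y, g.γ x = g'.γ x ∧ g.α x = g'.α x := by
    filter_upwards [hO.isOpen.mem_nhds hy, hO'.isOpen.mem_nhds hy',
      c3.eventually_lt continuousAt_const h] with x hx hx' hlt
    have e1 := hO.eq x hx (g'.α x)
    have e2 := hO'.eq x hx' (g'.α x)
    have hc := M.c0_pos
    have e3 := M.inj (x₁ := g.act (x, g'.α x)) (x₂ := g'.act (x, g'.α x))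
      ⟨hO.maps hx, by
        simp only [Ret.act, mem_ball_zero_iff]
        refine lt_of_le_of_lt ((g.N x).le_of_opNorm_le (M.bd O g hO x hx).2.1 _) ?_
        rwa [norm_sub_rev]⟩
      ⟨hO'.maps hx', by simp [Ret.act, hc]⟩ (e1.trans e2.symm)
    simp only [Ret.act, sub_self, map_zero, Prod.mk.injEq] at e3
    have e4 := (pair_inv (hO.pair x hx)).2.1 (g'.α x - g.α x)
    rw [e3.2, map_zero] at e4
    exact ⟨e3.1, (sub_eq_zero.1 e4.symm).symm⟩
  have hN : g.N =ᶠ[𝓝 y] g'.N := hg.N_eq (key.mono fun x hx => hx.1)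
    (by filter_upwards [hO'.isOpen.mem_nhds hy'] with x hx using hO'.pair x hx)
  filter_upwards [key, hN] with x e1 e2 using ⟨e1.1, e1.2, e2⟩

omit [T2Space X] in
theorem clret_fix {y ξ0 : E n} {k : Ret n} (hk : Germ M.T M.Ψ y k)
    (h0 : k.act (y, ξ0) = (y, ξ0)) :
    ∀ᶠ x in 𝓝 y, k.γ x = x ∧ k.α x = 0 ∧ ∀ ξ, k.act (x, ξ) = (x, ξ) := by
  obtain ⟨O, hO, hy⟩ := id hk
  obtain ⟨c, -, hc⟩ := M.vol
  obtain ⟨W, hW, hpW, hinj, -⟩ := hc (y, ξ0) (hO.sub hy)
  have hn : O ×ˢ (univ : Set (E n)) ∈ 𝓝 (y, ξ0) :=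
    (hO.isOpen.prod isOpen_univ).mem_nhds ⟨hy, trivial⟩
  have c1 : ContinuousAt k.act (y, ξ0) := hO.smooth.2.2.1.continuousOn.continuousAt hn
  have h1 : ∀ᶠ w in 𝓝 (y, ξ0), k.act w = w := by
    filter_upwards [hn, hW.mem_nhds hpW, c1.eventually_mem (hW.mem_nhds (h0.symm ▸ hpW))]
      with w a b d using hinj d b (hO.eq w.1 a.1 w.2)
  have h2 : ∀ᶠ x in 𝓝 y, k.act (x, ξ0) = (x, ξ0) :=
    (Continuous.prodMk_left ξ0).continuousAt.eventually h1
  have h3 : k.γ =ᶠ[𝓝 y] fun x => x := h2.mono fun x hx => congrArg Prod.fst hx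
  filter_upwards [h2, hk.per h3] with x e1 e2
  obtain ⟨a1, -, a3⟩ := e2
  have a4 := congrArg Prod.snd e1
  simp only [Ret.act, Ret.per] at a1 a3 a4
  rw [a3] at a4
  have a5 : k.α x = 0 := by simpa using a4
  exact ⟨a1, a5, fun ξ => by simp [Ret.act, a1, a3, a5]⟩

theorem Model.inv {y : E n} {g : Ret n} (hg : Germ M.T M.Ψ y g) :
    ∃ g', Germ M.T M.Ψ (g.γ y) g' ∧
      (∀ᶠ x in 𝓝 y, g'.γ (g.γ x) = x ∧ g'.α (g.γ x) = -g.N x (g.α x) ∧
        ∀ ξ, g'.act (g.act (x, ξ)) = (x, ξ)) ∧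
      ∀ᶠ x in 𝓝 (g.γ y), g.γ (g'.γ x) = x ∧ ∀ ξ, g.act (g'.act (x, ξ)) = (x, ξ) := by
  obtain ⟨O, hO, hy⟩ := id hg
  have e0 : g.act (y, g.α y) = (g.γ y, 0) := by simp [Ret.act]
  obtain ⟨g', hg', e1⟩ := M.ret (g.γ y, 0) (y, g.α y) (hO.maps hy) (hO.sub hy)
    (e0 ▸ hO.eq y hy _)
  have e2 : g'.γ (g.γ y) = y := congrArg Prod.fst e1
  obtain ⟨k1, a1⟩ := hg.comp hg'
  obtain ⟨k2, a2⟩ := Germ.comp (h := g) hg' (e2.symm ▸ hg)
  refine ⟨g', hg', ?_, ?_⟩
  · filter_upwards [clret_fix M k1 (by rw [a1.self_of_nhds, e0, e1]), a1,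
      hO.isOpen.mem_nhds hy] with x b1 b2 hx
    refine ⟨b1.1, ?_, fun ξ => (b2 ξ).symm.trans (b1.2.2 ξ)⟩
    have b3 := congrArg (g.N x) b1.2.1
    simp only [Ret.comp, map_add, map_zero, (pair_inv (hO.pair x hx)).1] at b3
    exact eq_neg_of_add_eq_zero_right b3
  · filter_upwards [clret_fix M k2 (by rw [a2.self_of_nhds, e1, e0]), a2] with x b1 b2
    exact ⟨b1.1, fun ξ => (b2 ξ).symm.trans (b1.2.2 ξ)⟩

theorem Model.lim {ι : Type} {l : Filter ι} [l.NeBot] {x : ι → E n} {g : ι → Ret n}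
    {y y' ξ : E n} (hy : y ∈ M.T) (hy' : y' ∈ M.T) (hx : Tendsto x l (𝓝 y))
    (hg : ∀ᶠ k in l, Germ M.T M.Ψ (x k) (g k)) (hα : Tendsto (fun k => (g k).α (x k)) l (𝓝 ξ))
    (hγ : Tendsto (fun k => (g k).γ (x k)) l (𝓝 y')) :
    ∃ g' : Ret n, ∃ ρ > 0, IsRet M.T M.Ψ (ball y ρ) g' ∧ g'.α y = ξ ∧ g'.γ y = y' ∧
      ∀ᶠ k in l, x k ∈ ball y ρ ∧ Ret.Eq (x k) (g k) g' := by
  have ho := M.T_open.prod (isOpen_univ (X := E n))
  have t1 := (M.cont.continuousAt (ho.mem_nhds (show (y, ξ) ∈ _ from ⟨hy, trivial⟩))).tendsto.comp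
    (hx.prodMk_nhds hα)
  have t2 := (M.cont.continuousAt (ho.mem_nhds (show (y', (0 : E n)) ∈ _ from
    ⟨hy', trivial⟩))).tendsto.comp (hγ.prodMk_nhds tendsto_const_nhds)
  have e : M.Ψ (y, ξ) = M.Ψ (y', 0) := by
    refine tendsto_nhds_unique_of_eventuallyEq t1 t2 ?_
    filter_upwards [hg] with k ⟨O, hO, hk⟩
    have := hO.eq _ hk ((g k).α (x k))
    simp only [Ret.act, sub_self, map_zero] at this
    exact this.symm
  obtain ⟨g', hg', e1⟩ := M.ret (y, ξ) (y', 0) hy hy' e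
  obtain ⟨ρ, hρ, hb⟩ := hg'.ball
  have hyb := mem_ball_self (x := y) hρ
  simp only [Ret.act, Prod.mk.injEq] at e1
  have e2 : g'.α y = ξ := by
    have e4 := (pair_inv (hb.pair y hyb)).2.1 (ξ - g'.α y)
    rw [e1.2, map_zero] at e4
    exact (sub_eq_zero.1 e4.symm).symm
  have t3 : Tendsto (fun k => g'.α (x k)) l (𝓝 ξ) :=
    e2 ▸ (hb.α_hol.continuousOn.continuousAt (isOpen_ball.mem_nhds hyb)).tendsto.comp hx
  have t4 : Tendsto (fun k => M.C0 * ‖(g k).α (x k) - g'.α (x k)‖) l (𝓝 (M.C0 * ‖ξ - ξ‖)) :=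
    (hα.sub t3).norm.const_mul _
  have hc := M.c0_pos
  refine ⟨g', ρ, hρ, hb, e2, e1.1, ?_⟩
  filter_upwards [hg, hx.eventually (isOpen_ball.mem_nhds hyb),
    t4.eventually_lt_const (show M.C0 * ‖ξ - ξ‖ < 2 * M.c0 by simp [hc])] with k b1 b2 b3
  exact ⟨b2, M.sep0 b1 ⟨_, hb, b2⟩ b3⟩

end Pool.Agent.CL
end

-- part Pool.Agent.P.MP_63735c_ag.CLStokes
section

/-! Stokes on squares, perturbation of line integrals. -/

open scoped ContDiff Matrix ENNReal
open Set Metric MeasureTheory Filter Topology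

namespace Pool.Agent.CL

open Pool.Agent.SPF

variable {F : Type} [NormedAddCommGroup F] [NormedSpace ℝ F]

theorem clstokes_cd {W : Set F} (hW : IsOpen W) {A : Form1 F} (hA : ContDiffOn ℝ ∞ A W)
    {H : ℝ × ℝ → F} {q : ℝ × ℝ} (hq : ContDiffAt ℝ 2 H q) (hm : H q ∈ W) (v : ℝ × ℝ) :
    ContDiffAt ℝ 1 (fun x => A (H x) (fderiv ℝ H x v)) q := by
  have h1 : ContDiffAt ℝ 1 A (H q) :=
    (hA.contDiffAt (hW.mem_nhds hm)).of_le (by exact_mod_cast le_top)
  have h2 : ContDiffAt ℝ 1 (fderiv ℝ H) q := hq.fderiv_right (by norm_num)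
  exact (h1.comp q (hq.of_le (by norm_num))).clm_apply (h2.clm_apply contDiffAt_const)

theorem clstokes_fd {W : Set F} (hW : IsOpen W) {A : Form1 F} (hA : ContDiffOn ℝ ∞ A W)
    {H : ℝ × ℝ → F} {q : ℝ × ℝ} (hq : ContDiffAt ℝ 2 H q) (hm : H q ∈ W) (u v : ℝ × ℝ) :
    fderiv ℝ (fun x => A (H x) (fderiv ℝ H x v)) q u =
      fderiv ℝ A (H q) (fderiv ℝ H q u) (fderiv ℝ H q v) +
        A (H q) (fderiv ℝ (fderiv ℝ H) q u v) := by
  have h1 : HasFDerivAt A (fderiv ℝ A (H q)) (H q) :=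
    ((hA.contDiffAt (hW.mem_nhds hm)).differentiableAt (by simp)).hasFDerivAt
  have h2 : HasFDerivAt H (fderiv ℝ H q) q := (hq.differentiableAt (by norm_num)).hasFDerivAt
  have h3 : ContDiffAt ℝ 1 (fderiv ℝ H) q := hq.fderiv_right (by norm_num)
  have h4 : HasFDerivAt (fderiv ℝ H) (fderiv ℝ (fderiv ℝ H) q) q :=
    (h3.differentiableAt (by norm_num)).hasFDerivAt
  have h5 := ((h1.comp q h2).clm_apply (h4.clm_apply (hasFDerivAt_const v q))).fderiv
  simp only [Function.comp_def] at h5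
  rw [h5]
  simp [add_comm]

theorem clstokes_d1 {H : ℝ × ℝ → F} {s r : ℝ} (hq : ContDiffAt ℝ 2 H (s, r)) :
    deriv (fun x => H (x, r)) s = fderiv ℝ H (s, r) (1, 0) := by
  have h2 : HasFDerivAt H (fderiv ℝ H (s, r)) (s, r) :=
    (hq.differentiableAt (by norm_num)).hasFDerivAt
  have h3 : HasDerivAt (fun x : ℝ => (x, r)) ((1, 0) : ℝ × ℝ) s :=
    (hasDerivAt_id s).prodMk (hasDerivAt_const s r)
  exact (h2.comp_hasDerivAt s h3).deriv

theorem clstokes_d2 {H : ℝ × ℝ → F} {s r : ℝ} (hq : ContDiffAt ℝ 2 H (s, r)) :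
    deriv (fun x => H (s, x)) r = fderiv ℝ H (s, r) (0, 1) := by
  have h2 : HasFDerivAt H (fderiv ℝ H (s, r)) (s, r) :=
    (hq.differentiableAt (by norm_num)).hasFDerivAt
  have h3 : HasDerivAt (fun x : ℝ => (s, x)) ((0, 1) : ℝ × ℝ) r :=
    (hasDerivAt_const r s).prodMk (hasDerivAt_id r)
  exact (h2.comp_hasDerivAt r h3).deriv

theorem stokes_sq {W : Set F} (hW : IsOpen W) {A : Form1 F} {t : Form2 F} (hA : IsPrim W A t)
    {H : ℝ × ℝ → F} (hH : ∀ q ∈ Icc (0 : ℝ) 1 ×ˢ Icc (0 : ℝ) 1, ContDiffAt ℝ 2 H q ∧ H q ∈ W) :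
    lineInt A (fun s => H (s, 0)) + lineInt A (fun r => H (1, r)) - lineInt A (fun s => H (s, 1)) -
      lineInt A (fun r => H (0, r)) = ∫ s in (0 : ℝ)..1, ∫ r in (0 : ℝ)..1,
        t (H (s, r)) (fderiv ℝ H (s, r) (1, 0)) (fderiv ℝ H (s, r) (0, 1)) := by
  have hu : Set.uIcc (0 : ℝ) 1 = Icc 0 1 := uIcc_of_le zero_le_one
  set f : ℝ × ℝ → ℝ := fun x => A (H x) (fderiv ℝ H x (0, 1)) with hf
  set g : ℝ × ℝ → ℝ := fun x => A (H x) (fderiv ℝ H x (1, 0)) with hg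
  have cf : ∀ q ∈ Icc (0 : ℝ) 1 ×ˢ Icc (0 : ℝ) 1, ContDiffAt ℝ 1 f q :=
    fun q hq => clstokes_cd hW hA.1 (hH q hq).1 (hH q hq).2 _
  have cg : ∀ q ∈ Icc (0 : ℝ) 1 ×ˢ Icc (0 : ℝ) 1, ContDiffAt ℝ 1 g q :=
    fun q hq => clstokes_cd hW hA.1 (hH q hq).1 (hH q hq).2 _
  have hsub : Ioo (min (0 : ℝ) 1) (max 0 1) ×ˢ Ioo (min (0 : ℝ) 1) (max 0 1) ⊆
      Icc (0 : ℝ) 1 ×ˢ Icc (0 : ℝ) 1 := by
    rw [min_eq_left zero_le_one, max_eq_right zero_le_one]
    exact prod_mono Ioo_subset_Icc_self Ioo_subset_Icc_self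
  have key := integral2_divergence_prod_of_hasFDerivAt f (fun x => -g x) (fderiv ℝ f)
    (fun x => -fderiv ℝ g x) 0 0 1 1
    (by rw [hu]; exact fun q hq => (cf q hq).continuousAt.continuousWithinAt)
    (by rw [hu]; exact fun q hq => (cg q hq).continuousAt.neg.continuousWithinAt)
    (fun x hx => ((cf x (hsub hx)).differentiableAt (by norm_num)).hasFDerivAt)
    (fun x hx => ((cg x (hsub hx)).differentiableAt (by norm_num)).hasFDerivAt.neg)
    (by
      rw [hu]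
      refine ContinuousOn.integrableOn_compact (isCompact_Icc.prod isCompact_Icc) ?_
      intro q hq
      have h1 : ContinuousAt (fderiv ℝ f) q :=
        ((cf q hq).fderiv_right (m := 0) (by norm_num)).continuousAt
      have h2 : ContinuousAt (fderiv ℝ g) q :=
        ((cg q hq).fderiv_right (m := 0) (by norm_num)).continuousAt
      exact ((h1.clm_apply continuousAt_const).add
        (h2.neg.clm_apply continuousAt_const)).continuousWithinAt)
  have e0 : (∫ s in (0 : ℝ)..1, ∫ r in (0 : ℝ)..1,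
      t (H (s, r)) (fderiv ℝ H (s, r) (1, 0)) (fderiv ℝ H (s, r) (0, 1))) =
      ∫ s in (0 : ℝ)..1, ∫ r in (0 : ℝ)..1,
        fderiv ℝ f (s, r) (1, 0) + (-fderiv ℝ g (s, r)) (0, 1) := by
    refine intervalIntegral.integral_congr fun s hs => ?_
    refine intervalIntegral.integral_congr fun r hr => ?_
    rw [hu] at hs hr
    obtain ⟨h1, h2⟩ := hH (s, r) ⟨hs, hr⟩
    have hsym := (h1.isSymmSndFDerivAt (by simp)).eq (1, 0) (0, 1)
    simp only [neg_apply]
    rw [hf, hg, clstokes_fd hW hA.1 h1 h2, clstokes_fd hW hA.1 h1 h2, hsym, ← hA.2 _ h2]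
    ring
  have e1 : ∀ r ∈ Icc (0 : ℝ) 1, lineInt A (fun s => H (s, r)) = ∫ s in (0 : ℝ)..1, g (s, r) := by
    intro r hr
    refine intervalIntegral.integral_congr fun s hs => ?_
    rw [hu] at hs
    simp only [hg]
    rw [clstokes_d1 (hH (s, r) ⟨hs, hr⟩).1]
  have e2 : ∀ s ∈ Icc (0 : ℝ) 1, lineInt A (fun r => H (s, r)) = ∫ r in (0 : ℝ)..1, f (s, r) := by
    intro s hs
    refine intervalIntegral.integral_congr fun r hr => ?_
    rw [hu] at hr
    simp only [hf]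
    rw [clstokes_d2 (hH (s, r) ⟨hs, hr⟩).1]
  have m0 : (0 : ℝ) ∈ Icc (0 : ℝ) 1 := ⟨le_rfl, zero_le_one⟩
  have m1 : (1 : ℝ) ∈ Icc (0 : ℝ) 1 := ⟨zero_le_one, le_rfl⟩
  rw [e0, key, e1 0 m0, e1 1 m1, e2 0 m0, e2 1 m1]
  simp only [intervalIntegral.integral_neg]
  ring

theorem clstokes_seg (p q : F) (s : ℝ) : HasDerivAt (seg p q) (q - p) s := by
  have := ((hasDerivAt_id s).smul_const (q - p)).const_add p
  rw [one_smul] at this
  exact this

theorem lineInt_seg (A : Form1 F) (p q : F) : lineInt A (seg p q) = segInt A p q := by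
  unfold lineInt segInt
  refine intervalIntegral.integral_congr fun s _ => ?_
  simp only [(clstokes_seg p q s).deriv]
  rfl

theorem curve_seg {W : Set F} (hc : Convex ℝ W) {p q : F} (hp : p ∈ W) (hq : q ∈ W) :
    Curve W (seg p q) := by
  intro s hs
  refine ⟨?_, hc.add_smul_sub_mem hp hq hs⟩
  unfold seg
  fun_prop

theorem segInt_symm (A : Form1 F) (p q : F) : segInt A q p = -segInt A p q := by
  unfold segInt
  have h := intervalIntegral.integral_comp_sub_left (a := 0) (b := 1)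
    (fun s : ℝ => A (p + s • (q - p)) (q - p)) 1
  simp only [sub_self, sub_zero] at h
  rw [← h, ← intervalIntegral.integral_neg]
  refine intervalIntegral.integral_congr fun s _ => ?_
  have e : q + s • (p - q) = p + (1 - s) • (q - p) := by module
  have e' : p - q = -(q - p) := by abel
  rw [e, e', map_neg]

theorem stokes_par {W : Set F} (hW : IsOpen W) (hc : Convex ℝ W) {A : Form1 F} {t : Form2 F}
    (hA : IsPrim W A t) {p a b : F} (h0 : p ∈ W) (h1 : p + a ∈ W) (h2 : p + b ∈ W)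
    (h3 : p + a + b ∈ W) :
    segInt A p (p + a) + segInt A (p + a) (p + a + b) - segInt A (p + b) (p + a + b) -
      segInt A p (p + b) = par t p a b := by
  have hd : ∀ q : ℝ × ℝ, HasFDerivAt (fun x : ℝ × ℝ => p + x.1 • a + x.2 • b)
      ((ContinuousLinearMap.fst ℝ ℝ ℝ).smulRight a + (ContinuousLinearMap.snd ℝ ℝ ℝ).smulRight b)
      q := fun q =>
    ((hasFDerivAt_fst.smul_const a).const_add p).add (hasFDerivAt_snd.smul_const b)
  have key := stokes_sq hW hA (H := fun x : ℝ × ℝ => p + x.1 • a + x.2 • b) (by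
    rintro ⟨s, r⟩ ⟨hs, hr⟩
    refine ⟨by fun_prop, ?_⟩
    have := hc.add_smul_sub_mem (hc.add_smul_sub_mem h0 h1 hs) (hc.add_smul_sub_mem h2 h3 hs) hr
    convert this using 1
    module)
  have e1 : (fun s : ℝ => p + s • a + (0 : ℝ) • b) = seg p (p + a) := by
    funext s; simp only [seg]; module
  have e2 : (fun r : ℝ => p + (1 : ℝ) • a + r • b) = seg (p + a) (p + a + b) := by
    funext s; simp only [seg]; module
  have e3 : (fun s : ℝ => p + s • a + (1 : ℝ) • b) = seg (p + b) (p + a + b) := by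
    funext s; simp only [seg]; module
  have e4 : (fun r : ℝ => p + (0 : ℝ) • a + r • b) = seg p (p + b) := by
    funext s; simp only [seg]; module
  simp only [e1, e2, e3, e4, lineInt_seg, (hd _).fderiv] at key
  rw [key]
  simp [par]

theorem pert {W : Set F} (hW : IsOpen W) (hc : Convex ℝ W) {A : Form1 F} {t : Form2 F}
    (hA : IsPrim W A t) {c c' : ℝ → F} (h : Curve W c) (h' : Curve W c') {K K0 K1 : ℝ}
    (hK : ∀ s ∈ Icc (0 : ℝ) 1, ∀ r ∈ Icc (0 : ℝ) 1, |t (c r + s • (c' r - c r)) (c' r - c r)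
      (deriv c r + s • (deriv c' r - deriv c r))| ≤ K)
    (hK0 : ∀ s ∈ Icc (0 : ℝ) 1, |A (c 0 + s • (c' 0 - c 0)) (c' 0 - c 0)| ≤ K0)
    (hK1 : ∀ s ∈ Icc (0 : ℝ) 1, |A (c 1 + s • (c' 1 - c 1)) (c' 1 - c 1)| ≤ K1) :
    |lineInt A c' - lineInt A c| ≤ K + K0 + K1 := by
  have hu : Set.uIoc (0 : ℝ) 1 ⊆ Icc 0 1 := by
    rw [uIoc_of_le zero_le_one]; exact Ioc_subset_Icc_self
  have bd : ∀ {g : ℝ → ℝ} {M : ℝ}, (∀ s ∈ Icc (0 : ℝ) 1, |g s| ≤ M) →
      |∫ s in (0 : ℝ)..1, g s| ≤ M := by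
    intro g M hg
    have := intervalIntegral.norm_integral_le_of_norm_le_const (a := 0) (b := 1) (f := g) (C := M)
      fun s hs => hg s (hu hs)
    simpa using this
  set H : ℝ × ℝ → F := fun x => c x.2 + x.1 • (c' x.2 - c x.2) with hH
  have hcd : ∀ q ∈ Icc (0 : ℝ) 1 ×ˢ Icc (0 : ℝ) 1, ContDiffAt ℝ 2 H q ∧ H q ∈ W := by
    rintro ⟨s, r⟩ ⟨hs, hr⟩
    have a1 : ContDiffAt ℝ 2 (fun x : ℝ × ℝ => c x.2) (s, r) :=
      ContDiffAt.comp (g := c) (f := Prod.snd) (s, r) (h r hr).1 contDiffAt_snd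
    have a2 : ContDiffAt ℝ 2 (fun x : ℝ × ℝ => c' x.2) (s, r) :=
      ContDiffAt.comp (g := c') (f := Prod.snd) (s, r) (h' r hr).1 contDiffAt_snd
    exact ⟨a1.add (contDiffAt_fst.smul (a2.sub a1)), hc.add_smul_sub_mem (h r hr).2 (h' r hr).2 hs⟩
  have key := stokes_sq hW hA hcd
  have e1 : (fun s : ℝ => H (s, 0)) = seg (c 0) (c' 0) := rfl
  have e2 : (fun r : ℝ => H (1, r)) = c' := by
    funext r; simp [hH]
  have e3 : (fun s : ℝ => H (s, 1)) = seg (c 1) (c' 1) := rfl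
  have e4 : (fun r : ℝ => H (0, r)) = c := by
    funext r; simp [hH]
  rw [e1, e2, e3, e4, lineInt_seg, lineInt_seg] at key
  have b0 : |segInt A (c 0) (c' 0)| ≤ K0 := bd hK0
  have b1 : |segInt A (c 1) (c' 1)| ≤ K1 := bd hK1
  have b2 : |∫ s in (0 : ℝ)..1, ∫ r in (0 : ℝ)..1,
      t (H (s, r)) (fderiv ℝ H (s, r) (1, 0)) (fderiv ℝ H (s, r) (0, 1))| ≤ K := by
    refine bd fun s hs => bd fun r hr => ?_
    have hq := (hcd (s, r) ⟨hs, hr⟩).1
    rw [← clstokes_d1 hq, ← clstokes_d2 hq]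
    have d1 : deriv (fun x : ℝ => H (x, r)) s = c' r - c r := (clstokes_seg (c r) (c' r) s).deriv
    have a1 : HasDerivAt c (deriv c r) r := ((h r hr).1.differentiableAt (by norm_num)).hasDerivAt
    have a2 : HasDerivAt c' (deriv c' r) r :=
      ((h' r hr).1.differentiableAt (by norm_num)).hasDerivAt
    have d2 : deriv (fun x : ℝ => H (s, x)) r = deriv c r + s • (deriv c' r - deriv c r) :=
      (a1.add ((a2.sub a1).const_smul s)).deriv
    rw [d1, d2]
    exact hK s hs r hr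
  rw [← key] at b2
  rw [abs_le] at b0 b1 b2 ⊢
  constructor <;> linarith [b0.1, b0.2, b1.1, b1.2, b2.1, b2.2]

end Pool.Agent.CL
end
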