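import Pool.Agent.K.MP_63735c_ag.C116
import Pool.Agent.K.MP_63735c_ag.C28

/-! Lemma G: the local group of holomorphic isometries. -/

open Set Filter Topology Metric
open scoped ContDiff Matrix

namespace Pool.Agent.CL

open Pool.Agent.SPF

variable {n : ℕ} {T : Set (E n)} {h : Form2 (E n)}

namespace PreIso

variable {P : PreIso T h}

lemma sm_one : P.Sm P.one := by simp [Sm, sz, P.ρ_pos.le]

lemma jet_sub_le {x x' : E n} {U U' : E n →L[ℂ] E n} {c : ℝ} (h1 : ‖x - x'‖ ≤ c)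
    (h2 : ‖U - U'‖ ≤ c) : ‖(x, U) - (x', U')‖ ≤ c := norm_prod_le_iff.2 ⟨h1, h2⟩

lemma g_assoc {a b c : P.G} (sa : P.Sm a) (sb : P.Sm b) (sc : P.Sm c) (sab : P.Sm (P.mul a b))
    (sbc : P.Sm (P.mul b c)) : P.mul (P.mul a b) c = P.mul a (P.mul b c) := by
  have hr := P.r_pos
  refine Subtype.ext ?_
  rw [(mul_spec sab sc).1, (mul_spec sa sbc).1]
  refine jet_congr ?_
  filter_upwards [ball_mem_nhds P.y0 hr] with y hy
  rw [(mul_spec sa sb).2 _ (ball_subset_ball (by linarith) (sc.maps (by linarith) hy)),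
    (mul_spec sb sc).2 _ (ball_subset_ball (by linarith) hy)]

lemma g_one_mul {a : P.G} (sa : P.Sm a) : P.mul P.one a = a :=
  Subtype.ext (by rw [(mul_spec sm_one sa).1, act_one]; exact (P.act_spec a).2)

lemma g_mul_one {a : P.G} (sa : P.Sm a) : P.mul a P.one = a :=
  Subtype.ext (by rw [(mul_spec sa sm_one).1, act_one]; exact (P.act_spec a).2)

lemma g_inv_one : P.inv P.one = P.one := by
  have := inv_spec (sm_one (P := P))
  rw [act_one, fderiv_fun_id] at this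
  refine Subtype.ext ?_
  rw [← (P.act_spec _).2]
  exact Prod.ext this.1 ((mul_one _).symm.trans this.2)

lemma g_inv_mul {a : P.G} (sa : P.Sm a) (si : P.Sm (P.inv a)) : P.mul (P.inv a) a = P.one :=
  Subtype.ext (by rw [(mul_spec si sa).1, jet_comp _ sa, (inv_spec sa).1, (inv_spec sa).2]; rfl)

lemma g_mul_inv {a : P.G} (sa : P.Sm a) (si : P.Sm (P.inv a)) : P.mul a (P.inv a) = P.one := by
  have hr := P.r_pos
  have e1 : jet (P.act (P.mul a (P.inv a))) (P.act a P.y0) = jet (fun y => y) (P.act a P.y0) := by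
    have e2 : P.act (P.mul a (P.inv a)) =ᶠ[𝓝 (P.act a P.y0)]
        fun y => P.act a (P.act (P.inv a) y) := by
      filter_upwards [isOpen_ball.mem_nhds sa.mem0] with y hy
      exact (mul_spec sa si).2 _ (ball_subset_ball (by linarith) hy)
    rw [jet_congr e2, jet_id]
    refine Prod.ext (congrArg (P.act a) (inv_spec sa).1) ?_
    show fderiv ℂ (fun y => P.act a (P.act (P.inv a) y)) (P.act a P.y0) = 1
    rw [(P.act_iso a).fderiv_comp (P.act_iso _) sa.mem2 (by rw [(inv_spec sa).1]; exact P.y0_mem),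
      (inv_spec sa).1]
    exact (P.K.unit (P.act_iso a) P.y0_mem).mul_right_cancel
      (by rw [mul_assoc, (inv_spec sa).2, mul_one, one_mul])
  have := (P.cmp _ _ (P.act_spec (P.mul a (P.inv a))).1 P.good_id _ sa.mem2 _ P.y0_mem).1
  rw [e1, sub_self, norm_zero, mul_zero, norm_le_zero_iff, sub_eq_zero, (P.act_spec _).2,
    jet_id] at this
  exact Subtype.ext this

lemma g_lip_r {a b b' : P.G} (sa : P.Sm a) (sb : P.Sm b) (sb' : P.Sm b') :
    ‖(P.mul a b).1 - (P.mul a b').1‖ ≤ 4 * ‖b.1 - b'.1‖ := by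
  rw [(mul_spec sa sb).1, (mul_spec sa sb').1, jet_comp a sb, jet_comp a sb']
  have h0 := P.diff0 b b'
  have hd := norm_nonneg (b.1 - b'.1)
  refine jet_sub_le (by linarith [sa.lip sb.mem2 sb'.mem2]) ?_
  have h1 : ‖fderiv ℂ (P.act a) (P.act b P.y0) - fderiv ℂ (P.act a) (P.act b' P.y0)‖ ≤
      1 * ‖b.1 - b'.1‖ := (P.lipU a sb.mem2 sb'.mem2).trans
    (mul_le_mul (by linarith [sa.le.2.2.2]) h0.1 (norm_nonneg _) zero_le_one)
  have e : ∀ A A' B B' : E n →L[ℂ] E n, A * B - A' * B' = (A - A') * B + A' * (B - B') := by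
    intro A A' B B'; rw [sub_mul, mul_sub]; abel
  rw [e]
  have h2 := (norm_mul_le _ _).trans (mul_le_mul h1 (sb.nU P.y0_mem) (norm_nonneg _) (by linarith))
  have h3 := (norm_mul_le _ _).trans
    (mul_le_mul (sa.nU sb'.mem2) h0.2 (norm_nonneg _) (by norm_num))
  exact (norm_add_le _ _).trans (by linarith)

lemma g_lip_l {a a' b : P.G} (sa : P.Sm a) (sa' : P.Sm a') (sb : P.Sm b) :
    ‖(P.mul a b).1 - (P.mul a' b).1‖ ≤ 2 * P.L * ‖a.1 - a'.1‖ := by
  rw [(mul_spec sa sb).1, (mul_spec sa' sb).1, jet_comp a sb, jet_comp a' sb]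
  have h0 := P.diff a a' sb.mem2
  have hd := (norm_nonneg _).trans h0.1
  refine jet_sub_le (by linarith) ?_
  rw [← sub_mul]
  exact ((norm_mul_le _ _).trans (mul_le_mul h0.2 (sb.nU P.y0_mem) (norm_nonneg _) hd)).trans
    (by linarith)

lemma g_lip_inv {a a' : P.G} (sa : P.Sm a) (sa' : P.Sm a') (si : P.Sm (P.inv a))
    (si' : P.Sm (P.inv a')) : ‖(P.inv a).1 - (P.inv a').1‖ ≤ 5 * P.L * ‖a.1 - a'.1‖ := by
  have h1 := (P.cmp _ _ (P.act_spec (P.inv a)).1 (P.act_spec (P.inv a')).1 _ sa.mem2 _ P.y0_mem).1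
  rw [(P.act_spec _).2, (P.act_spec _).2] at h1
  refine h1.trans ?_
  rw [mul_comm 5, mul_assoc]
  refine mul_le_mul_of_nonneg_left ?_ (by linarith [P.L_ge])
  have h0 := P.diff0 a a'
  have hd := norm_nonneg (a.1 - a'.1)
  refine jet_sub_le ?_ ?_
  · have := si'.lip sa'.mem2 sa.mem2
    rw [(inv_spec sa').1, norm_sub_rev (P.act a' P.y0)] at this
    rw [(inv_spec sa).1]
    linarith
  · have h2 : ‖fderiv ℂ (P.act (P.inv a')) (P.act a' P.y0) -
        fderiv ℂ (P.act (P.inv a')) (P.act a P.y0)‖ ≤ 1 * ‖a.1 - a'.1‖ :=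
      (P.lipU _ sa'.mem2 sa.mem2).trans (mul_le_mul (by linarith [si'.le.2.2.2])
        (by rw [norm_sub_rev]; exact h0.1) (norm_nonneg _) zero_le_one)
    have e : ∀ W W' U U' : E n →L[ℂ] E n, W * U = 1 → U' * W' = 1 →
        W - W' = -(W * (U - U') * W') := by
      intro W W' U U' e1 e2
      rw [mul_sub, sub_mul, e1, mul_assoc, e2, one_mul, mul_one, neg_sub]
    have e2 : fderiv ℂ (P.act a') P.y0 * fderiv ℂ (P.act (P.inv a')) (P.act a' P.y0) = 1 :=
      (P.K.unit (P.act_iso a') P.y0_mem).mul_right_cancel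
        (by rw [mul_assoc, (inv_spec sa').2, mul_one, one_mul])
    have h3 : ‖fderiv ℂ (P.act (P.inv a)) (P.act a P.y0) -
        fderiv ℂ (P.act (P.inv a')) (P.act a' P.y0)‖ ≤ 2 * ‖a.1 - a'.1‖ * 2 := by
      rw [e _ _ _ _ (inv_spec sa).2 e2, norm_neg]
      exact (norm_mul_le _ _).trans (mul_le_mul ((norm_mul_le _ _).trans
        (mul_le_mul (si.nU sa.mem2) h0.2 (norm_nonneg _) (by norm_num))) (si'.nU sa'.mem2)
        (norm_nonneg _) (by linarith))
    exact (norm_sub_le_norm_sub_add_norm_sub _ _ _).trans (by linarith)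

lemma g_comm {a b : P.G} (sa : P.Sm a) (sb : P.Sm b) :
    ‖(P.mul a b).1 - (P.mul b a).1‖ ≤ 6 * P.L * P.sz a * P.sz b := by
  rw [(mul_spec sa sb).1, (mul_spec sb sa).1, jet_comp a sb, jet_comp b sa]
  have ha := P.near0 a
  have hb := P.near0 b
  have za := P.sz_nonneg a
  have zb := P.sz_nonneg b
  have hL := P.L_ge
  have z1 : 0 ≤ P.L * P.sz a := by positivity
  have z2 : 0 ≤ P.L * P.sz b := by positivity
  have z3 : P.sz a * P.sz b ≤ P.L * P.sz a * P.sz b := by gcongr; exact sa.le.1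
  have z4 : 0 ≤ P.sz a * P.sz b := by positivity
  refine jet_sub_le ?_ ?_
  · have h1 := (P.lip0 a sb.mem2 P.y0_mem).trans (mul_le_mul_of_nonneg_left hb.1 z1)
    have h2 := (P.lip0 b sa.mem2 P.y0_mem).trans (mul_le_mul_of_nonneg_left ha.1 z2)
    have e : P.act a (P.act b P.y0) - P.act b (P.act a P.y0) =
        (P.act a (P.act b P.y0) - P.act b P.y0 - (P.act a P.y0 - P.y0)) -
          (P.act b (P.act a P.y0) - P.act a P.y0 - (P.act b P.y0 - P.y0)) := by abel
    rw [e]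
    exact (norm_sub_le _ _).trans (by linarith)
  · have h1 := (P.lipU a sb.mem2 P.y0_mem).trans (mul_le_mul_of_nonneg_left hb.1 z1)
    have h2 := (P.lipU b sa.mem2 P.y0_mem).trans (mul_le_mul_of_nonneg_left ha.1 z2)
    have e : ∀ A₁ A₀ B₁ B₀ : E n →L[ℂ] E n, A₁ * B₀ - B₁ * A₀ =
        ((A₁ - A₀) * B₀ - (B₁ - B₀) * A₀) + ((A₀ - 1) * (B₀ - 1) - (B₀ - 1) * (A₀ - 1)) := by
      intro A₁ A₀ B₁ B₀
      simp only [sub_mul, mul_sub, one_mul, mul_one]
      abel
    rw [e _ (fderiv ℂ (P.act a) P.y0) _ (fderiv ℂ (P.act b) P.y0)]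
    have h3 := (norm_mul_le _ _).trans
      (mul_le_mul h1 (sb.nU P.y0_mem) (norm_nonneg _) (by positivity))
    have h4 := (norm_mul_le _ _).trans
      (mul_le_mul h2 (sa.nU P.y0_mem) (norm_nonneg _) (by positivity))
    have h5 := (norm_mul_le _ _).trans (mul_le_mul ha.2 hb.2 (norm_nonneg _) za)
    have h6 := (norm_mul_le _ _).trans (mul_le_mul hb.2 ha.2 (norm_nonneg _) zb)
    refine (norm_add_le _ _).trans ((add_le_add (norm_sub_le _ _) (norm_sub_le _ _)).trans ?_)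
    linarith

variable (P)

/-- The common constant. -/
noncomputable def LL : ℝ := (6 + 2 * n) * P.L

/-- The common size. -/
noncomputable def ee : ℝ := P.ρ / (16 * P.LL * P.L)

lemma LL_ge : 6 * P.L ≤ P.LL ∧ 2 * n * P.L ≤ P.LL := by
  have := P.L_ge
  have : (0 : ℝ) ≤ n * P.L := by positivity
  constructor <;> simp only [LL] <;> linarith

lemma ee_pos : 0 < P.ee := by
  have := P.L_ge; have := P.LL_ge.1; have := P.ρ_pos
  exact div_pos P.ρ_pos (by have : 0 < P.LL := by linarith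
                            positivity)

lemma ee_eq : 16 * (P.LL * (P.L * P.ee)) = P.ρ := by
  have := P.L_ge; have := P.LL_ge.1
  have : P.LL ≠ 0 := by linarith
  have : P.L ≠ 0 := by linarith
  rw [ee]; field_simp

variable {P}

lemma sm_of {j : P.G} (e : P.sz j ≤ 3 * (P.L * P.ee)) : P.Sm j := by
  have h1 := P.L_ge; have h2 := P.LL_ge.1; have h3 := P.ee_eq; have h4 := P.ee_pos
  have h5 : P.L * P.sz j ≤ P.L * (3 * (P.L * P.ee)) := by gcongr
  have h6 : 6 * P.L * (P.L * P.ee) ≤ P.LL * (P.L * P.ee) := by gcongr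
  have h7 : 0 ≤ P.L * (P.L * P.ee) := by positivity
  show 4 * (P.L * P.sz j) ≤ P.ρ
  linarith

lemma ee_le : P.ee ≤ P.L * P.ee := le_mul_of_one_le_left P.ee_pos.le P.L_ge

lemma sm0 {j : P.G} (e : P.sz j ≤ P.ee) : P.Sm j := sm_of (by linarith [@ee_le _ _ _ P, P.ee_pos])

lemma sm1 {a b : P.G} (ea : P.sz a ≤ P.ee) (eb : P.sz b ≤ P.ee) : P.Sm (P.mul a b) := by
  have : P.L * P.sz a ≤ P.L * P.ee := mul_le_mul_of_nonneg_left ea (by linarith [P.L_ge])
  exact sm_of (by linarith [sz_mul (sm0 ea) (sm0 eb), @ee_le _ _ _ P])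

lemma sm2 {a : P.G} (ea : P.sz a ≤ P.ee) : P.Sm (P.inv a) := by
  have : P.L * P.sz a ≤ P.L * P.ee := mul_le_mul_of_nonneg_left ea (by linarith [P.L_ge])
  exact sm_of (by linarith [sz_inv (sm0 ea), @ee_le _ _ _ P, P.ee_pos])

variable (P)

/-- The local group. -/
noncomputable def lg : LG P.G (E n × (E n →L[ℂ] E n)) where
  one := P.one
  mul := P.mul
  inv := P.inv
  jt j := j.1
  L := P.LL
  ε := P.ee
  L_ge := by linarith [P.L_ge, P.LL_ge.1]
  ε_pos := P.ee_pos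
  inv_one := g_inv_one
  assoc _ _ _ ea eb ec := g_assoc (sm0 ea) (sm0 eb) (sm0 ec) (sm1 ea eb) (sm1 eb ec)
  one_mul _ ea := g_one_mul (sm0 ea)
  mul_one _ ea := g_mul_one (sm0 ea)
  inv_mul _ ea := g_inv_mul (sm0 ea) (sm2 ea)
  mul_inv _ ea := g_mul_inv (sm0 ea) (sm2 ea)
  lip_r _ _ _ ea eb eb' := (g_lip_r (sm0 ea) (sm0 eb) (sm0 eb')).trans
    (mul_le_mul_of_nonneg_right (by linarith [P.L_ge, P.LL_ge.1]) (norm_nonneg _))
  lip_l _ _ _ ea ea' eb := (g_lip_l (sm0 ea) (sm0 ea') (sm0 eb)).trans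
    (mul_le_mul_of_nonneg_right (by linarith [P.L_ge, P.LL_ge.1]) (norm_nonneg _))
  lip_inv _ _ ea ea' := (g_lip_inv (sm0 ea) (sm0 ea') (sm2 ea) (sm2 ea')).trans
    (mul_le_mul_of_nonneg_right (by linarith [P.L_ge, P.LL_ge.1]) (norm_nonneg _))
  comm a b ea eb := (g_comm (sm0 ea) (sm0 eb)).trans (mul_le_mul_of_nonneg_right
    (mul_le_mul_of_nonneg_right P.LL_ge.1 (P.sz_nonneg a)) (P.sz_nonneg b))

/-- The local group of isometries. -/
noncomputable def toIso : Iso T h where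
  G := P.G
  lg := P.lg
  y0 := P.y0
  r := P.r
  γ := P.act
  N j y := tr (Ring.inverse (fderiv ℂ (P.act j) y))
  r_pos := P.r_pos
  sub := P.sub
  small := by
    have h1 : P.LL * P.ee ≤ P.LL * (P.L * P.ee) :=
      mul_le_mul_of_nonneg_left ee_le (by linarith [P.L_ge, P.LL_ge.1])
    show 16 * (P.LL * P.ee) ≤ _
    exact le_min (by linarith [P.ee_eq, P.ρ_le]) (by linarith [P.ee_eq, P.ρ_le1])
  jt_eq j := (P.act_spec j).2.symm
  jt_inj := Subtype.val_injective
  γ_one y := congrFun P.act_one y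
  γ_hol j := (P.act_iso j).hol
  N_hol j := by
    obtain ⟨l, hl⟩ := exists_trL (n := n)
    simp only [← hl]
    refine l.differentiable.comp_differentiableOn fun y hy => ?_
    exact (differentiableAt_inverse (P.K.unit (P.act_iso j) hy)).comp_differentiableWithinAt y
      ((P.act_iso j).hol2 y hy)
  pair j y hy ξ u := by
    rw [tr_pair, ← mul_apply_eq_comp, Ring.inverse_mul_cancel _ (P.K.unit (P.act_iso j) hy)]; rfl
  cmp j j' y hy y' hy' := (P.cmp _ _ (P.act_spec j).1 (P.act_spec j').1 _ hy' _ hy).1.trans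
    (mul_le_mul_of_nonneg_right (by show _ ≤ P.LL; linarith [P.L_ge, P.LL_ge.1]) (norm_nonneg _))
  near j ej y hy := by
    have s : P.Sm j := sm0 ej
    have h1 := P.near j hy
    have z := P.sz_nonneg j
    have h2 : P.L * P.sz j ≤ P.LL * P.sz j :=
      mul_le_mul_of_nonneg_right (by linarith [P.L_ge, P.LL_ge.1]) z
    have h3 : 2 * n * P.L * P.sz j ≤ P.LL * P.sz j := mul_le_mul_of_nonneg_right P.LL_ge.2 z
    have h4 : ∀ U : E n →L[ℂ] E n, ‖U - 1‖ ≤ 2 * (P.L * P.sz j) → ‖tr U - 1‖ ≤ P.LL * P.sz j := by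
      intro U hU
      have e : tr U - 1 = tr (U - 1) := by rw [(tr_basic U 1).2.2.1, (tr_basic U 1).1]
      have := mul_le_mul_of_nonneg_left hU (Nat.cast_nonneg (α := ℝ) n)
      rw [e]
      linarith [(tr_basic (U - 1) 1).2.2.2.2]
    refine ⟨h1.1.trans h2, h1.2.trans h2, h4 _ (by linarith [norm_nonneg (P.act j y - y)]),
      h4 _ ?_⟩
    have := norm_inv_sub (Ring.inverse_mul_cancel _ (P.K.unit (P.act_iso j) hy))
      (by linarith [s.le.2.2.2])
    linarith
  γ_mul _ _ ea eb := (mul_spec (sm0 ea) (sm0 eb)).2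
  ext y hy γ' hev e1 e2 := by
    have hr := P.r_pos
    have hε : P.ee ≤ P.ρ := by
      have h1 : 1 * (P.L * P.ee) ≤ P.LL * (P.L * P.ee) := mul_le_mul_of_nonneg_right
        (by linarith [P.L_ge, P.LL_ge.1]) (by linarith [@ee_le _ _ _ P, P.ee_pos])
      linarith [@ee_le _ _ _ P, P.ee_pos, P.ee_eq]
    have hy2 : y ∈ ball P.y0 (2 * P.r) := ball_subset_ball (by linarith) hy
    obtain ⟨O, hO, hOo, hyO⟩ := _root_.eventually_nhds_iff.1 hev
    have g : IsoOn T h γ' (O ∩ T) := ⟨hOo.inter P.K.isOpen, inter_subset_right,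
      fun x hx => (hO x hx.1).1.differentiableWithinAt, fun x hx => (hO x hx.1).2.1,
      fun x hx => (hO x hx.1).2.2⟩
    have hyT : y ∈ O ∩ T := ⟨hyO, (P.iso _ P.good_id).sub hy2⟩
    obtain ⟨γ, gγ, e⟩ := P.fwd _ _ g y hyT hy (le_trans e1 hε) (le_trans e2 hε)
    obtain ⟨c, hc⟩ := P.act_eq gγ
    refine ⟨c, (P.K.uniq P.sub g (P.act_iso c) hyT hy2 (ball_subset_ball (by linarith) hy) ?_
      ((hc y hy2).trans e).symm).symm⟩
    rw [mem_ball_iff_norm] at hy ⊢
    linarith [norm_sub_le_norm_sub_add_norm_sub (γ' y) y P.y0, le_trans e1 hε, P.ρ_le]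

end PreIso

/-- Lemma G. -/
theorem exists_iso (hT : IsOpen T) (hne : T.Nonempty) (hc : Closed2 T h) (hj : JInv T h)
    (hp : ∀ y ∈ T, ∀ u, u ≠ 0 → 0 < h y u (Complex.I • u)) : Nonempty (Iso T h) :=
  (Kah.exists_pre ⟨hT, hc.1, hj, hp⟩ hne).map PreIso.toIso

/-- The same local group with a smaller size. -/
def LG.shrink {G J : Type} [NormedAddCommGroup J] (g : LG G J) (ε : ℝ) (h0 : 0 < ε) (h1 : ε ≤ g.ε) :
    LG G J where
  one := g.one
  mul := g.mul
  inv := g.inv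
  jt := g.jt
  L := g.L
  ε := ε
  L_ge := g.L_ge
  ε_pos := h0
  inv_one := g.inv_one
  assoc a b c x y z := g.assoc a b c (x.trans h1) (y.trans h1) (z.trans h1)
  one_mul a x := g.one_mul a (x.trans h1)
  mul_one a x := g.mul_one a (x.trans h1)
  inv_mul a x := g.inv_mul a (x.trans h1)
  mul_inv a x := g.mul_inv a (x.trans h1)
  lip_r a b c x y z := g.lip_r a b c (x.trans h1) (y.trans h1) (z.trans h1)
  lip_l a b c x y z := g.lip_l a b c (x.trans h1) (y.trans h1) (z.trans h1)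
  lip_inv a b x y := g.lip_inv a b (x.trans h1) (y.trans h1)
  comm a b x y := g.comm a b (x.trans h1) (y.trans h1)

/-- The same group of isometries with a smaller size. -/
noncomputable def Iso.shrink (G : Iso T h) (ε : ℝ) (h0 : 0 < ε) (h1 : ε ≤ G.lg.ε) : Iso T h where
  G := G.G
  lg := G.lg.shrink ε h0 h1
  y0 := G.y0
  r := G.r
  γ := G.γ
  N := G.N
  r_pos := G.r_pos
  sub := G.sub
  small := le_trans (mul_le_mul_of_nonneg_left
    (mul_le_mul_of_nonneg_left h1 (zero_le_one.trans G.lg.L_ge)) (by norm_num)) G.small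
  jt_eq := G.jt_eq
  jt_inj := G.jt_inj
  γ_one := G.γ_one
  γ_hol := G.γ_hol
  N_hol := G.N_hol
  pair := G.pair
  cmp := G.cmp
  near j x := G.near j (le_trans x h1)
  γ_mul a b x y := G.γ_mul a b (le_trans x h1) (le_trans y h1)
  ext y hy γ' e x z := G.ext y hy γ' e (le_trans x h1) (le_trans z h1)

end Pool.Agent.CL
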