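import Pool.Agent.K.MP_63735c_ag.C118

/-! The abstract setting of part C: a local group with heights, periods and cocycles. -/

open scoped Matrix
open Set Filter Topology

namespace Pool.Agent.CL

open Pool.Agent.SPF LGrp

variable {n : ℕ}

/-- The ultrafilter along which limits are taken. -/
noncomputable abbrev UU : Filter ℕ := (hyperfilter ℕ : Filter ℕ)

/-- Integer vectors as real vectors. -/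
def cz {r : ℕ} (m : Fin r → ℤ) : Fin r → ℝ := fun k => (m k : ℝ)

/-- `h j` tends to the identity and has height about `j v`. -/
def IsSeq (D : LGrp) (a : D.G → E n) (h : ℕ → D.G) (v : E n) : Prop :=
  Tendsto (fun j => D.sz (h j)) UU (𝓝 0) ∧
    Tendsto (fun j : ℕ => (j : ℝ)⁻¹ • a (h j)) UU (𝓝 v)

/-- A normalised 2-cocycle. -/
structure Coc (D : LGrp) {B : Type} [AddCommGroup B] (κ : D.G → D.G → B) : Prop where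
  coc : ∀ g h k, D.sz g ≤ 1 → D.sz h ≤ 1 → D.sz k ≤ 1 →
    κ g h + κ (g * h) k = κ g (h * k) + κ h k
  one_l : ∀ g, D.sz g ≤ 1 → κ 1 g = 0
  one_r : ∀ g, D.sz g ≤ 1 → κ g 1 = 0

/-- Growth bounds for a cocycle. -/
structure CBd (D : LGrp) (a : D.G → E n) (κ : D.G → D.G → ℝ) : Prop where
  a1 : ∃ C, 0 ≤ C ∧ ∀ c x R, D.sz c ≤ 1 → D.sz x ≤ 1 → 1 ≤ R → ‖a c‖ ≤ R → ‖a x‖ ≤ R →
    |κ c x| ≤ C * R * (1 + ‖a c‖ + R * D.sz c)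
  a2 : ∃ C, 0 ≤ C ∧ ∀ g c x R, D.sz g ≤ 1 → D.sz c ≤ 1 → D.sz x ≤ 1 → 1 ≤ R → ‖a g‖ ≤ R →
    ‖a c‖ ≤ R → ‖a x‖ ≤ R → |κ g (c * x) - κ g x| ≤ C * R * (1 + ‖a c‖ + R * D.sz c)

/-- The flux of a cocycle through a commutator. -/
def mflux {D : LGrp} (κ : D.G → D.G → ℝ) (g h : D.G) : ℝ :=
  κ g h - κ h g - κ (comm g h) (h * g)

/-- `c` is central, also in the extension given by `κ`. -/
def Cen {D : LGrp} (κ : D.G → D.G → ℝ) (c : D.G) : Prop :=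
  D.sz c = 0 ∧ ∀ (x : D.G) [D.Sm 16 x], c * x = x * c ∧ κ c x = κ x c

/-- The abstract data. -/
structure CA (n : ℕ) (D : LGrp) where
  a : D.G → E n
  u : D.G → E n
  T : D.G → E n →L[ℂ] E n
  r0 : ℕ
  zv : Fin r0 → E n
  ι : (Fin r0 → ℤ) → D.G
  sg : D.G → D.G → ℂ
  ko : D.G → D.G → ℝ
  m : ℕ
  c : Fin m → ℂ
  ka : Fin m → D.G → D.G → ℝ
  e0 : E n →L[ℝ] E n →L[ℝ] ℝ
  a_one : a 1 = 0
  a_mul3 : ∃ C, 0 ≤ C ∧ ∀ g h k, D.sz g ≤ 1 → D.sz h ≤ 1 → D.sz k ≤ 1 → D.sz (g * h) ≤ 1 →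
    ‖a (g * h * k) - a (g * k) - a (h * k) + a k‖ ≤ C * D.sz h * (1 + ‖a g‖)
  sep : ∃ c0 > (0 : ℝ), ∀ g h, ‖a g - a h‖ < c0 → g = h
  syn : ∀ ε > (0 : ℝ), ∃ C, ∀ ξ, ∃ g, D.sz g ≤ ε ∧ ‖a g - ξ‖ ≤ C
  sz_comm : ∃ C, 0 ≤ C ∧ ∀ g h, D.sz g ≤ 1 → D.sz h ≤ 1 → D.sz (g * h) ≤ 1 →
    D.sz (h * g) ≤ 1 → D.sz (h * g)⁻¹ ≤ 1 → D.sz (comm g h) ≤ C * D.sz g * D.sz h
  sz_conj : ∃ C, 0 ≤ C ∧ ∀ k h, D.sz k ≤ 1 → D.sz h ≤ 1 → D.sz k⁻¹ ≤ 1 → D.sz (h * k) ≤ 1 →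
    D.sz (conj k h) ≤ C * D.sz h
  zv_ind : LinearIndependent ℝ zv
  ι_sz : ∀ m, D.sz (ι m) = 0
  ι_a : ∀ m, a (ι m) = ∑ k, (m k : ℝ) • zv k
  ι_cen : ∀ m g, D.sz g ≤ 1 → ι m * g = g * ι m
  ι_all : ∀ g, D.sz g = 0 → ∃ m, g = ι m
  u_le : ∃ C, 0 ≤ C ∧ ∀ g, D.sz g ≤ 1 → ‖u g‖ ≤ C * D.sz g
  a_T : ∃ C, 0 ≤ C ∧ ∀ h g, D.sz h ≤ 1 → D.sz g ≤ 1 →
    ‖a (h * g) - a g - T g (a h)‖ ≤ C * ‖u g‖ * (1 + ‖a h‖)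
  uni : ∀ K : ℝ, 0 ≤ K → ∃ K', 0 ≤ K' ∧ ∀ g (X : E n →L[ℝ] E n), D.sz g ≤ 1 →
    (∀ v, X (X v) = 0) → (∀ v, ‖T g v - v - X v‖ ≤ K * ‖u g‖ * ‖v‖) → D.sz g ≤ K' * ‖u g‖
  sg_coc : Coc D sg
  sg_lip : ∃ C, 0 ≤ C ∧ ∀ g c x, D.sz g ≤ 1 → D.sz c ≤ 1 → D.sz x ≤ 1 →
    ‖sg g (c * x) - sg g x‖ ≤ C * D.sz c * (1 + ‖a g‖)
  sg_per : ∀ m g, D.sz g ≤ 1 → sg (ι m) g = 0
  sg_u : ∃ C, 0 ≤ C ∧ ∀ g h, D.sz g ≤ 1 → D.sz h ≤ 1 →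
    ‖sg g h - a g ⬝ᵥ u h‖ ≤ C * ‖u h‖ ^ 2 * (1 + ‖a g‖)
  ko_coc : Coc D ko
  ko_bd : CBd D a ko
  ko_pos : ∃ c > (0 : ℝ), ∃ C, 0 ≤ C ∧ ∀ g h R, D.sz g ≤ 1 → D.sz h ≤ 1 → 1 ≤ R → ‖a g‖ ≤ R →
    ‖a h‖ ≤ R → c * ‖a g‖ ^ 2 ≤ |ko g h - ko h g| +
      C * R * (1 + ‖a h - Complex.I • a g‖ + R * (D.sz g + D.sz h))
  ka_coc : ∀ i, Coc D (ka i)
  ka_bd : ∀ i, CBd D a (ka i)
  ka_iso : ∀ i, ∀ ε > (0 : ℝ), ∃ C, 0 ≤ C ∧ ∀ g h R, D.sz g ≤ 1 → D.sz h ≤ 1 → 1 ≤ R →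
    ‖a g‖ ≤ R → ‖a h‖ ≤ R →
      |ka i g h - ka i h g| ≤ ε * R ^ 2 + C * R * (1 + R * (D.sz g + D.sz h))
  int : ∀ i, ∃ ν : D.G → ℝ, ∀ g h, D.sz g ≤ 1 → D.sz h ≤ 1 →
    ∃ k : ℤ, (c i * sg g h).re + ka i g h - (ν g + ν h - ν (g * h)) = k
  span1 : ∃ r : Fin m → ℝ, ∑ i, (r i : ℂ) * c i = 1 ∧
    ∀ g h, D.sz g ≤ 1 → D.sz h ≤ 1 → ∑ i, r i * ka i g h = 0
  e0_ne : ∀ v, v ≠ 0 → e0 v (Complex.I • v) ≠ 0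
  eta : ∃ C, 0 ≤ C ∧ ∀ g h, D.sz g ≤ 1 → D.sz h ≤ 1 → g * h = h * g →
    ∃ k : ℤ, |(k : ℝ) - e0 (u g) (u h)| ≤ C * (D.sz g + D.sz h) ^ 3

variable {D : LGrp}

/-- The height of a period. -/
noncomputable def CA.zz (A : CA n D) (m : Fin A.r0 → ℤ) : E n := ∑ k, (m k : ℝ) • A.zv k

/-- The real span of the periods. -/
noncomputable def CA.V0 (A : CA n D) : Submodule ℝ (E n) := Submodule.span ℝ (range A.zv)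

open Classical in
/-- The commutator as a period. -/
noncomputable def CA.cm (A : CA n D) (g h : D.G) : Fin A.r0 → ℤ :=
  if e : ∃ m, comm g h = A.ι m then e.choose else 0

instance CA.sm_per (A : CA n D) (k : ℕ) (m : Fin A.r0 → ℤ) : D.Sm k (A.ι m) :=
  D.sm_zero (A.ι_sz m) k

/-- The data with the limit action `L` and the limit displacement `Z`. -/
structure CL1 (n : ℕ) (D : LGrp) extends CA n D where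
  L : D.G → E n →L[ℝ] E n
  Z : D.G → E n →L[ℝ] ℂ
  L_lim : ∀ (g : D.G) [D.Sm 12 g] h v, IsSeq D a h v →
    Tendsto (fun j : ℕ => (j : ℝ)⁻¹ • a (h j * g)) UU (𝓝 (L g v))
  Z_lim : ∀ (g : D.G) [D.Sm 12 g] h v, IsSeq D a h v →
    Tendsto (fun j : ℕ => (j : ℝ)⁻¹ • sg (h j) g) UU (𝓝 (Z g v))

/-- The real part of the displacement. -/
noncomputable def CL1.th (A : CL1 n D) (g : D.G) : E n →L[ℝ] ℝ := Complex.reCLM.comp (A.Z g)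

/-- Change of the base size. -/
def CA.reb (A : CA n D) (b : ℝ) (h0 : 0 < b) (h1 : b ≤ D.b) : CA n (D.reb b h0 h1) :=
  { A with
    sg_coc := ⟨A.sg_coc.1, A.sg_coc.2, A.sg_coc.3⟩
    ko_coc := ⟨A.ko_coc.1, A.ko_coc.2, A.ko_coc.3⟩
    ko_bd := ⟨A.ko_bd.1, A.ko_bd.2⟩
    ka_coc := fun i => ⟨(A.ka_coc i).1, (A.ka_coc i).2, (A.ka_coc i).3⟩
    ka_bd := fun i => ⟨(A.ka_bd i).1, (A.ka_bd i).2⟩ }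

/-- Change of the base size. -/
def CL1.reb (A : CL1 n D) (b : ℝ) (h0 : 0 < b) (h1 : b ≤ D.b) : CL1 n (D.reb b h0 h1) where
  toCA := A.toCA.reb b h0 h1
  L := A.L
  Z := A.Z
  L_lim g hg := @CL1.L_lim n D A g (sm_of_reb hg)
  Z_lim g hg := @CL1.Z_lim n D A g (sm_of_reb hg)

/-- Small elements commute modulo periods. -/
structure IsCB (A : CL1 n D) : Prop where
  cm0 : ∀ (g h : D.G) [D.Sm 12 g] [D.Sm 12 h], D.sz (comm g h) = 0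
  X_mem : ∀ (g : D.G) [D.Sm 12 g] v, A.L g v - v ∈ A.V0
  sz_th : ∃ C, 0 ≤ C ∧ ∀ (g : D.G) [D.Sm 12 g], D.sz g ≤ C * ‖A.th g‖
  u_th : ∃ C, 0 ≤ C ∧ ∀ (g : D.G) [D.Sm 12 g], ‖A.u g‖ ≤ C * ‖A.th g‖

lemma IsCB.reb {A : CL1 n D} (h : IsCB A) (b : ℝ) (h0 : 0 < b) (h1 : b ≤ D.b) :
    IsCB (A.reb b h0 h1) where
  cm0 g k hg hk := @IsCB.cm0 n D A h g k (sm_of_reb hg) (sm_of_reb hk)
  X_mem g hg := @IsCB.X_mem n D A h g (sm_of_reb hg)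
  sz_th := by
    obtain ⟨C, h0, hC⟩ := h.sz_th
    exact ⟨C, h0, fun g hg => @hC g (sm_of_reb hg)⟩
  u_th := by
    obtain ⟨C, h0, hC⟩ := h.u_th
    exact ⟨C, h0, fun g hg => @hC g (sm_of_reb hg)⟩

/-- The periods have no flux. -/
def NoFlux (A : CL1 n D) : Prop :=
  ∀ i m (g : D.G) [D.Sm 16 g], A.ka i (A.ι m) g = A.ka i g (A.ι m)

/-- Small elements with small displacement. -/
def CL1.S (A : CL1 n D) (d : ℝ) : Set D.G := {g | D.sz g ≤ D.b ∧ ‖A.th g‖ ≤ d}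

/-- Additive on elements of level zero. -/
def Addv (D : LGrp) {B : Type} [AddCommGroup B] (F : D.G → B) : Prop :=
  ∀ g h, D.sz g ≤ D.b → D.sz h ≤ D.b → F (g * h) = F g + F h

/-- Integer coordinates on the small elements modulo periods. -/
structure Lat (A : CL1 n D) where
  d : ℝ
  r : ℕ
  w : D.G → Fin r → ℤ
  θ : (Fin r → ℝ) →ₗ[ℝ] (E n →L[ℝ] ℝ)
  d_pos : 0 < d
  θ_w : ∀ g ∈ A.S d, θ (cz (w g)) = A.th g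
  θ_inj : ∀ m, θ (cz m) = 0 → m = 0
  w_bd : ∃ C, 0 ≤ C ∧ ∀ g ∈ A.S d, ‖cz (w g)‖ ≤ C * (1 + ‖A.a g‖)
  real : ∃ C, 0 ≤ C ∧ ∀ m, ‖θ (cz m)‖ ≤ d →
    ∃ g ∈ A.S d, w g = m ∧ ‖A.a g‖ ≤ C * (1 + ‖cz m‖)
  dense : ∀ ε > (0 : ℝ), ∃ C, ∀ x, ∃ m, ‖θ (cz m) - θ x‖ ≤ ε ∧ ‖cz m - x‖ ≤ C
  gen : AddSubgroup.closure (w '' A.S d) = ⊤
  desc : ∀ (B : Type) [AddCommGroup B] (F : D.G → B), Addv D F → (∀ m, F (A.ι m) = 0) →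
    ∃ f : (Fin r → ℤ) →+ B, ∀ g ∈ A.S d, f (w g) = F g

variable {A : CL1 n D}

/-- `f` is the limit of the coordinates of a sequence for `v`. -/
def Lat.Rep (Λ : Lat A) (v : E n) (f : Fin Λ.r → ℝ) : Prop :=
  ∃ h, IsSeq D A.a h v ∧ Tendsto (fun j : ℕ => (j : ℝ)⁻¹ • cz (Λ.w (h j))) UU (𝓝 f)

/-- The matrix `M` represents `F`. -/
def Lat.Rp (Λ : Lat A) (M : Matrix (Fin Λ.r) (Fin Λ.r) ℝ) (F : D.G → D.G → ℝ) : Prop :=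
  ∀ g ∈ A.S Λ.d, ∀ h ∈ A.S Λ.d, cz (Λ.w g) ⬝ᵥ M *ᵥ cz (Λ.w h) = F g h

/-- An integer skew matrix for which the kernel of `θ` is isotropic. -/
def Lat.Good (Λ : Lat A) (M : Matrix (Fin Λ.r) (Fin Λ.r) ℝ) : Prop :=
  (∀ a b, ∃ k : ℤ, M a b = k) ∧ Mᵀ = -M ∧ ∀ f f', Λ.θ f = 0 → Λ.θ f' = 0 → f' ⬝ᵥ M *ᵥ f = 0

end Pool.Agent.CL
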