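import Pool.Agent.K.MP_63735c_ag.C119
import Pool.Agent.K.MP_63735c_ag.C28

/-! First consequences of the abstract data. -/

open scoped Matrix
open Set Filter Topology

namespace Pool.Agent.CL

open Pool.Agent.SPF LGrp

variable {n : ℕ} {D : LGrp}

namespace CA

variable (A : CA n D)

theorem a_mul : ∃ C, 0 ≤ C ∧ ∀ (g h : D.G) [D.Sm 15 g] [D.Sm 15 h],
    ‖A.a (g * h) - A.a g - A.a h‖ ≤ C * D.sz h * (1 + ‖A.a g‖) := by
  obtain ⟨C, h0, hC⟩ := A.a_mul3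
  refine ⟨C, h0, fun g h _ _ => ?_⟩
  have h1 := hC g h 1 (D.le1 g) (D.le1 h) (D.le1 1) (D.le1 (g * h))
  rwa [LGrp.mul_one (g * h), LGrp.mul_one g, LGrp.mul_one h, A.a_one, add_zero] at h1

theorem a_inv : ∃ C, 0 ≤ C ∧ ∀ (g : D.G) [D.Sm 14 g],
    ‖A.a g⁻¹ + A.a g‖ ≤ C * D.sz g * (1 + ‖A.a g‖) := by
  obtain ⟨C, h0, hC⟩ := A.a_mul
  have hL : 0 ≤ D.L := zero_le_one.trans D.one_le_L
  refine ⟨C * D.L, mul_nonneg h0 hL, fun g _ => ?_⟩
  have h1 := hC g g⁻¹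
  rw [LGrp.mul_inv g, A.a_one] at h1
  have h2 : A.a g⁻¹ + A.a g = -(0 - A.a g - A.a g⁻¹) := by abel
  rw [h2, norm_neg]
  refine h1.trans (mul_le_mul_of_nonneg_right ?_ (by positivity))
  rw [mul_assoc]
  exact mul_le_mul_of_nonneg_left (D.sz_inv (D.le1 g)) h0

theorem a_left : ∃ e > (0 : ℝ), ∃ C, 0 ≤ C ∧ ∀ (x g : D.G) [D.Sm 15 x] [D.Sm 15 g], D.sz g ≤ e →
    ‖A.a x‖ ≤ 2 * ‖A.a (x * g) - A.a g‖ + C * D.sz g := by
  obtain ⟨C, h0, hC⟩ := A.a_mul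
  refine ⟨1 / (2 * (C + 1)), by positivity, 2 * C, by positivity, fun x g _ _ hg => ?_⟩
  have h1 := hC x g
  have h2 : A.a x = (A.a (x * g) - A.a g) - (A.a (x * g) - A.a x - A.a g) := by abel
  have h3 : ‖A.a x‖ ≤ ‖A.a (x * g) - A.a g‖ + ‖A.a (x * g) - A.a x - A.a g‖ := by
    conv_lhs => rw [h2]
    exact norm_sub_le _ _
  have h4 : C * D.sz g ≤ 1 / 2 := by
    rw [le_div_iff₀ (by positivity)] at hg
    nlinarith [D.sz_nonneg g]
  nlinarith [norm_nonneg (A.a x), mul_nonneg (sub_nonneg.2 h4) (norm_nonneg (A.a x))]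

theorem a_comm : ∃ e > (0 : ℝ), ∃ C, 0 ≤ C ∧ ∀ (g h : D.G) [D.Sm 12 g] [D.Sm 12 h], D.sz g ≤ e →
    D.sz h ≤ e → ‖A.a (comm g h)‖ ≤
      C * (D.sz g * (1 + ‖A.a h‖) + D.sz h * (1 + ‖A.a g‖)) := by
  obtain ⟨e, he, C, h0, hC⟩ := A.a_left
  obtain ⟨C1, h1, hC1⟩ := A.a_mul
  have hL : 0 < D.L := zero_lt_one.trans_le D.one_le_L
  refine ⟨e / (2 * D.L), by positivity, 2 * C1 + C * D.L, by positivity,
    fun g h _ _ hg hh => ?_⟩
  have hs : D.sz (h * g) ≤ D.L * (D.sz h + D.sz g) := D.sz_mul (D.le1 h) (D.le1 g)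
  have hs' : D.sz (h * g) ≤ e := by
    rw [le_div_iff₀ (by positivity)] at hg hh
    nlinarith
  have h2 := hC (comm g h) (h * g) hs'
  rw [LGrp.comm_mul g h] at h2
  have h3 := hC1 g h
  have h4 := hC1 h g
  have h5 : A.a (g * h) - A.a (h * g) =
      (A.a (g * h) - A.a g - A.a h) - (A.a (h * g) - A.a h - A.a g) := by abel
  have h6 : ‖A.a (g * h) - A.a (h * g)‖ ≤
      ‖A.a (g * h) - A.a g - A.a h‖ + ‖A.a (h * g) - A.a h - A.a g‖ := by
    rw [h5]; exact norm_sub_le _ _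
  have h7 : D.sz h + D.sz g ≤ D.sz g * (1 + ‖A.a h‖) + D.sz h * (1 + ‖A.a g‖) := by
    nlinarith [mul_nonneg (D.sz_nonneg g) (norm_nonneg (A.a h)),
      mul_nonneg (D.sz_nonneg h) (norm_nonneg (A.a g))]
  have h8 : C * D.sz (h * g) ≤
      C * D.L * (D.sz g * (1 + ‖A.a h‖) + D.sz h * (1 + ‖A.a g‖)) := by
    rw [mul_assoc]
    exact mul_le_mul_of_nonneg_left (hs.trans (mul_le_mul_of_nonneg_left h7 hL.le)) h0
  nlinarith

theorem fin (R : ℝ) : {g : D.G | ‖A.a g‖ ≤ R}.Finite := by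
  obtain ⟨c, hc, hsep⟩ := A.sep
  obtain ⟨t, ht, hcov⟩ := Metric.totallyBounded_iff.1
    (isCompact_closedBall (0 : E n) R).totallyBounded (c / 2) (by positivity)
  have hfin : (⋃ y ∈ t, {g : D.G | A.a g ∈ Metric.ball y (c / 2)}).Finite := by
    refine ht.biUnion fun y _ => Set.Subsingleton.finite ?_
    intro g hg h hh
    refine hsep g h ?_
    rw [← dist_eq_norm]
    have h1 : dist (A.a g) y < c / 2 := hg
    have h2 : dist (A.a h) y < c / 2 := hh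
    linarith [dist_triangle_right (A.a g) (A.a h) y]
  refine hfin.subset fun g hg => ?_
  have h1 : A.a g ∈ Metric.closedBall (0 : E n) R := mem_closedBall_zero_iff.2 hg
  obtain ⟨y, hy, h2⟩ := mem_iUnion₂.1 (hcov h1)
  exact mem_iUnion₂.2 ⟨y, hy, h2⟩

theorem sg_bd : ∃ C, 0 ≤ C ∧ ∀ (g h : D.G) [D.Sm 16 g] [D.Sm 16 h],
    ‖A.sg g h‖ ≤ C * D.sz h * (1 + ‖A.a g‖) := by
  obtain ⟨C, h0, hC⟩ := A.sg_lip
  refine ⟨C, h0, fun g h _ _ => ?_⟩
  have h1 := hC g h 1 (D.le1 g) (D.le1 h) (D.le1 1)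
  rwa [LGrp.mul_one h, A.sg_coc.one_r g (D.le1 g), sub_zero] at h1

theorem sg_per_r (g : D.G) [D.Sm 16 g] (m : Fin A.r0 → ℤ) : A.sg g (A.ι m) = 0 := by
  obtain ⟨C, -, hC⟩ := A.sg_bd
  have h1 := hC g (A.ι m)
  rw [A.ι_sz, mul_zero, zero_mul] at h1
  exact norm_le_zero_iff.1 h1

theorem cca1_inj {g h : D.G} (e : A.a g = A.a h) : g = h := by
  obtain ⟨c, hc, hsep⟩ := A.sep
  exact hsep g h (by rw [e, sub_self, norm_zero]; exact hc)

theorem cca1_per (g : D.G) [D.Sm 15 g] (m : Fin A.r0 → ℤ) :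
    A.a (g * A.ι m) = A.a g + A.a (A.ι m) := by
  obtain ⟨C, -, hC⟩ := A.a_mul
  have h1 := hC g (A.ι m)
  rw [A.ι_sz, mul_zero, zero_mul, norm_le_zero_iff, sub_sub, sub_eq_zero] at h1
  exact h1

theorem ι_zero : A.ι 0 = 1 := by
  refine A.cca1_inj ?_
  rw [A.ι_a, A.a_one]
  simp

theorem ι_add (m m' : Fin A.r0 → ℤ) : A.ι (m + m') = A.ι m * A.ι m' := by
  refine A.cca1_inj ?_
  rw [A.cca1_per (A.ι m) m', A.ι_a, A.ι_a, A.ι_a, ← Finset.sum_add_distrib]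
  refine Finset.sum_congr rfl fun k _ => ?_
  rw [Pi.add_apply, Int.cast_add, add_smul]

theorem ι_inj : Function.Injective A.ι := by
  intro m m' h
  have h1 : ∑ k, (m k : ℝ) • A.zv k = ∑ k, (m' k : ℝ) • A.zv k := by
    rw [← A.ι_a, ← A.ι_a, h]
  have h2 := Fintype.linearIndependent_iffₛ.1 A.zv_ind _ _ h1
  funext k
  exact_mod_cast h2 k

theorem a_per (g : D.G) [D.Sm 15 g] (m : Fin A.r0 → ℤ) :
    A.a (g * A.ι m) = A.a g + A.zz m ∧ A.a (A.ι m * g) = A.a g + A.zz m := by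
  have h1 : A.a (g * A.ι m) = A.a g + A.zz m := by
    rw [A.cca1_per g m, A.ι_a]; rfl
  exact ⟨h1, by rw [A.ι_cen m g (D.le1 g), h1]⟩

theorem comm_per (g : D.G) [D.Sm 13 g] (m : Fin A.r0 → ℤ) :
    comm g (A.ι m) = 1 ∧ comm (A.ι m) g = 1 := by
  constructor
  · refine LGrp.comm_eq ?_
    rw [LGrp.one_mul (A.ι m * g), A.ι_cen m g (D.le1 g)]
  · refine LGrp.comm_eq ?_
    rw [LGrp.one_mul (g * A.ι m), A.ι_cen m g (D.le1 g)]

theorem zz_add (m m' : Fin A.r0 → ℤ) : A.zz (m + m') = A.zz m + A.zz m' := by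
  unfold zz
  rw [← Finset.sum_add_distrib]
  refine Finset.sum_congr rfl fun k _ => ?_
  rw [Pi.add_apply, Int.cast_add, add_smul]

theorem zz_smul (k : ℤ) (m : Fin A.r0 → ℤ) : A.zz (k • m) = (k : ℝ) • A.zz m := by
  unfold zz
  rw [Finset.smul_sum]
  refine Finset.sum_congr rfl fun j _ => ?_
  rw [Pi.smul_apply, smul_eq_mul, Int.cast_mul, mul_smul]

theorem zz_single (k : Fin A.r0) : A.zz (Pi.single k 1) = A.zv k := by
  unfold zz
  rw [Finset.sum_eq_single k]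
  · simp
  · intro j _ hj
    simp [hj]
  · intro h
    exact absurd (Finset.mem_univ k) h

theorem zz_mem (m : Fin A.r0 → ℤ) : A.zz m ∈ A.V0 :=
  Submodule.sum_mem _ fun k _ => Submodule.smul_mem _ _ (Submodule.subset_span ⟨k, rfl⟩)

theorem zz_bd : ∃ C, 0 ≤ C ∧ ∀ m : Fin A.r0 → ℤ, ‖cz m‖ ≤ C * ‖A.zz m‖ ∧
    ‖A.zz m‖ ≤ C * ‖cz m‖ := by
  set f : (Fin A.r0 → ℝ) →ₗ[ℝ] E n := Fintype.linearCombination ℝ A.zv with hf
  have hz : ∀ m, A.zz m = f (cz m) := fun m => by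
    rw [hf, Fintype.linearCombination_apply]; rfl
  have hinj : Function.Injective f := A.zv_ind.fintypeLinearCombination_injective
  obtain ⟨K, -, hK⟩ := f.exists_antilipschitzWith (LinearMap.ker_eq_bot.2 hinj)
  refine ⟨K + ‖LinearMap.toContinuousLinearMap f‖, by positivity, fun m => ⟨?_, ?_⟩⟩
  · have h1 := hK.le_mul_dist (cz m) 0
    rw [map_zero, dist_zero_right, dist_zero_right, ← hz] at h1
    nlinarith [mul_nonneg (norm_nonneg (LinearMap.toContinuousLinearMap f))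
      (norm_nonneg (A.zz m))]
  · have h1 := (LinearMap.toContinuousLinearMap f).le_opNorm (cz m)
    rw [LinearMap.coe_toContinuousLinearMap', ← hz] at h1
    nlinarith [mul_nonneg K.coe_nonneg (norm_nonneg (cz m))]

theorem V0_lim {m : ℕ → Fin A.r0 → ℤ} {v : E n}
    (h : Tendsto (fun j : ℕ => (j : ℝ)⁻¹ • A.zz (m j)) UU (𝓝 v)) : v ∈ A.V0 :=
  A.V0.closed_of_finiteDimensional.mem_of_tendsto h
    (Eventually.of_forall fun j => A.V0.smul_mem _ (A.zz_mem (m j)))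

end CA

theorem cz_add {r : ℕ} (m m' : Fin r → ℤ) : cz (m + m') = cz m + cz m' := by
  funext k
  simp [cz]

theorem cz_smul {r : ℕ} (k : ℤ) (m : Fin r → ℤ) : cz (k • m) = (k : ℝ) • cz m := by
  funext j
  simp [cz]

theorem cz_single {r : ℕ} (k : Fin r) : cz (Pi.single k 1) = Pi.single k 1 := by
  funext j
  by_cases h : j = k
  · subst h; simp [cz]
  · simp [cz, h]

/-- The cast as a homomorphism. -/
theorem exists_czHom (r : ℕ) : ∃ f : (Fin r → ℤ) →+ (Fin r → ℝ), ∀ m, f m = cz m :=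
  ⟨AddMonoidHom.mk' cz cz_add, fun _ => rfl⟩

/-- The sup norm is attained by a real linear form. -/
theorem exists_dual (u : E n) : ∃ v : E n, ‖v‖ ≤ 1 ∧ (v ⬝ᵥ u).re = ‖u‖ := by
  by_cases hu : u = 0
  · exact ⟨0, by simp, by simp [hu]⟩
  obtain ⟨k0, -⟩ := Function.ne_iff.1 hu
  obtain ⟨k, -, hk⟩ := Finset.exists_max_image Finset.univ (fun k => ‖u k‖)
    ⟨k0, Finset.mem_univ _⟩
  have h1 : ‖u‖ = ‖u k‖ := le_antisymm
    ((pi_norm_le_iff_of_nonneg (norm_nonneg _)).2 fun j => hk j (Finset.mem_univ j))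
    (norm_le_pi_norm u k)
  have h2 : 0 < ‖u k‖ := h1 ▸ norm_pos_iff.2 hu
  refine ⟨Pi.single k ((starRingEnd ℂ) (u k) / (‖u k‖ : ℂ)), ?_, ?_⟩
  · rw [Pi.norm_single, norm_div, Complex.norm_conj, Complex.norm_real, norm_norm,
      div_self h2.ne']
  · rw [single_dotProduct, div_mul_eq_mul_div, Complex.conj_mul', h1, sq,
      mul_div_cancel_right₀ _ (Complex.ofReal_ne_zero.2 h2.ne'), Complex.ofReal_re]

/-- Real linear forms on `ℂ^n`. -/
theorem exists_repr (l : E n →L[ℝ] ℝ) : ∃ u : E n, ∀ v, l v = (v ⬝ᵥ u).re := by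
  refine ⟨fun k => (l (Pi.single k 1) : ℂ) - Complex.I * (l (Pi.single k Complex.I) : ℂ),
    fun v => ?_⟩
  have h1 : v = ∑ k, ((v k).re • (Pi.single k 1 : E n) +
      (v k).im • (Pi.single k Complex.I : E n)) := by
    funext j
    rw [Finset.sum_apply, Finset.sum_eq_single j]
    · simp
    · intro k _ hk
      simp [hk.symm]
    · intro h
      exact absurd (Finset.mem_univ j) h
  conv_lhs => rw [h1]
  rw [map_sum, dotProduct, Complex.re_sum]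
  refine Finset.sum_congr rfl fun k _ => ?_
  rw [map_add, map_smul, map_smul]
  simp

end Pool.Agent.CL
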