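import Pool.Agent.K.MP_63735c_ag.C120

/-! Sequences and limits along the ultrafilter. -/

open scoped Matrix
open Set Filter Topology

namespace Pool.Agent.CL

open Pool.Agent.SPF LGrp

variable {n : ℕ} {D : LGrp}

/-- A sequence of level `k` and of linear height. -/
def Tm (D : LGrp) (a : D.G → E n) (k : ℕ) (x : ℕ → D.G) : Prop :=
  ∃ K : ℝ, ∀ᶠ j : ℕ in UU, D.Sm k (x j) ∧ ‖a (x j)‖ ≤ K * j

theorem UU_le : UU ≤ atTop := Nat.hyperfilter_le_atTop

theorem inv_lim : Tendsto (fun j : ℕ => (j : ℝ)⁻¹) UU (𝓝 0) :=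
  (tendsto_inv_atTop_zero.comp tendsto_natCast_atTop_atTop).mono_left UU_le

theorem cca2_one : ∀ᶠ j : ℕ in UU, (1 : ℝ) ≤ j :=
  ((eventually_ge_atTop 1).filter_mono UU_le).mono fun _ hj => by exact_mod_cast hj

theorem cca2_sm {k k' : ℕ} (hk : k ≤ k') {g : D.G} (h : D.Sm k g) : D.Sm k' g :=
  ⟨fun h' => (h.le (hk.trans h')).trans (D.lv_le hk)⟩

theorem ulim {W : Type} [NormedAddCommGroup W] [NormedSpace ℝ W] [FiniteDimensional ℝ W]
    (f : ℕ → W) {M : ℝ} (h : ∀ᶠ j in UU, ‖f j‖ ≤ M) : ∃ x, Tendsto f UU (𝓝 x) := by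
  have : ProperSpace W := FiniteDimensional.proper_real W
  obtain ⟨x, -, hx⟩ := (isCompact_closedBall (0 : W) M).ultrafilter_le_nhds
    ((hyperfilter ℕ).map f) (by
      rw [Ultrafilter.coe_map, le_principal_iff, mem_map]
      exact h.mono fun j hj => mem_closedBall_zero_iff.2 hj)
  exact ⟨x, hx⟩

theorem slow (Q : ℝ → ℝ → Prop) (h : ∀ ε > (0 : ℝ), ∃ C, Q ε C) : ∃ ε C : ℕ → ℝ,
    (∀ j, 0 < ε j ∧ Q (ε j) (C j)) ∧ Tendsto ε UU (𝓝 0) ∧
      Tendsto (fun j : ℕ => (j : ℝ)⁻¹ * |C j|) UU (𝓝 0) := by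
  classical
  choose C0 hC0 using fun k : ℕ => h (1 / ((k : ℝ) + 1)) (by positivity)
  set κ : ℕ → ℕ := fun j => Nat.findGreatest (fun k => |C0 k| * ((k : ℝ) + 1) ≤ j) j with hκ
  have hev : ∀ K : ℕ, ∀ᶠ j : ℕ in atTop, K ≤ j ∧ |C0 K| * ((K : ℝ) + 1) ≤ j := fun K =>
    (eventually_ge_atTop K).and (tendsto_natCast_atTop_atTop.eventually_ge_atTop _)
  have hk : Tendsto κ atTop atTop := tendsto_atTop.2 fun K =>
    (hev K).mono fun j hj => Nat.le_findGreatest hj.1 hj.2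
  have he : Tendsto (fun j => 1 / ((κ j : ℝ) + 1)) UU (𝓝 0) :=
    (tendsto_one_div_add_atTop_nhds_zero_nat.comp hk).mono_left UU_le
  refine ⟨fun j => 1 / ((κ j : ℝ) + 1), fun j => C0 (κ j), fun j => ⟨by positivity, hC0 _⟩, he,
    ?_⟩
  refine squeeze_zero' (Eventually.of_forall fun j => by positivity) ?_ he
  filter_upwards [(hev 0).filter_mono UU_le, cca2_one] with j hj h1
  have h2 : |C0 (κ j)| * ((κ j : ℝ) + 1) ≤ j :=
    Nat.findGreatest_spec (P := fun k => |C0 k| * ((k : ℝ) + 1) ≤ j) hj.1 hj.2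
  rw [le_div_iff₀ (by positivity), mul_assoc, inv_mul_le_iff₀ (by linarith)]
  linarith

/-- A change of lower order does not change the limit. -/
theorem lim_of_close {W : Type} [NormedAddCommGroup W] [NormedSpace ℝ W] {f g : ℕ → W} {x : W}
    {e : ℕ → ℝ} {K : ℝ} (hf : Tendsto (fun j : ℕ => (j : ℝ)⁻¹ • f j) UU (𝓝 x))
    (he : Tendsto e UU (𝓝 0)) (h : ∀ᶠ j : ℕ in UU, ‖g j - f j‖ ≤ K + e j * j) :
    Tendsto (fun j : ℕ => (j : ℝ)⁻¹ • g j) UU (𝓝 x) := by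
  have h1 : Tendsto (fun j : ℕ => (j : ℝ)⁻¹ • (g j - f j)) UU (𝓝 0) := by
    have h2 : Tendsto (fun j : ℕ => (j : ℝ)⁻¹ * K + e j) UU (𝓝 0) := by
      simpa using (inv_lim.mul_const K).add he
    refine squeeze_zero_norm' ?_ h2
    filter_upwards [h, cca2_one] with j hj h1
    have h0 : (0 : ℝ) < j := by linarith
    rw [norm_smul, Real.norm_of_nonneg (by positivity)]
    calc (j : ℝ)⁻¹ * ‖g j - f j‖ ≤ (j : ℝ)⁻¹ * (K + e j * j) :=
          mul_le_mul_of_nonneg_left hj (by positivity)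
      _ = (j : ℝ)⁻¹ * K + e j := by field_simp
  have h3 := hf.add h1
  rw [add_zero] at h3
  refine h3.congr fun j => ?_
  rw [← smul_add, add_sub_cancel]

section
variable {a : D.G → E n} {h h' : ℕ → D.G} {v v' : E n}

theorem IsSeq.le (hs : IsSeq D a h v) {e : ℝ} (he : 0 < e) : ∀ᶠ j in UU, D.sz (h j) ≤ e :=
  hs.1.eventually (eventually_le_nhds he)

theorem IsSeq.sm (hs : IsSeq D a h v) : ∀ᶠ j in UU, D.Sm 0 (h j) :=
  (hs.le D.b_pos).mono fun _ hj => D.sm0 hj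

theorem IsSeq.bd (hs : IsSeq D a h v) {K : ℝ} (hK : ‖v‖ < K) :
    ∀ᶠ j : ℕ in UU, ‖a (h j)‖ ≤ K * j := by
  filter_upwards [hs.2.norm.eventually (eventually_le_nhds hK), cca2_one] with j hj h1
  have h0 : (0 : ℝ) < j := by linarith
  rw [norm_smul, Real.norm_of_nonneg (by positivity), inv_mul_le_iff₀ h0] at hj
  linarith

theorem IsSeq.tm (hs : IsSeq D a h v) (k : ℕ) : Tm D a k h :=
  ⟨‖v‖ + 1, (hs.sm.mono fun _ hj => cca2_sm (Nat.zero_le k) hj).and (hs.bd (lt_add_one _))⟩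

theorem IsSeq.congr (hs : IsSeq D a h v) (e : ∀ᶠ j in UU, h j = h' j) : IsSeq D a h' v :=
  ⟨hs.1.congr' (e.mono fun j hj => by simp only [hj]),
    hs.2.congr' (e.mono fun j hj => by simp only [hj])⟩

theorem Tm.const {k : ℕ} (g : D.G) [D.Sm k g] : Tm D a k fun _ => g :=
  ⟨‖a g‖, cca2_one.mono fun _ hj => ⟨inferInstance, le_mul_of_one_le_right (norm_nonneg _) hj⟩⟩

theorem Tm.mono {k k' : ℕ} (hk : k ≤ k') (hs : Tm D a k h) : Tm D a k' h := by
  obtain ⟨K, hK⟩ := hs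
  exact ⟨K, hK.mono fun _ hj => ⟨cca2_sm hk hj.1, hj.2⟩⟩

theorem cca2_const (v : E n) :
    Tendsto (fun j : ℕ => (j : ℝ)⁻¹ • ((j : ℝ) • v)) UU (𝓝 v) := by
  refine tendsto_const_nhds.congr' (cca2_one.mono fun j hj => ?_)
  have h0 : (j : ℝ) ≠ 0 := by linarith
  simp only [smul_smul, inv_mul_cancel₀ h0, one_smul]

theorem cca2_aux {F : ℕ → ℝ} (hc : IsSeq D a h 0) {C K : ℝ}
    (hF : ∀ᶠ j : ℕ in UU, |F j| ≤ C * (K * j) * (1 + ‖a (h j)‖ + K * j * D.sz (h j))) :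
    Tendsto (fun j : ℕ => ((j : ℝ) ^ 2)⁻¹ * F j) UU (𝓝 0) := by
  have h2 : Tendsto (fun j : ℕ => C * K * ((j : ℝ)⁻¹ + ‖(j : ℝ)⁻¹ • a (h j)‖ + K * D.sz (h j)))
      UU (𝓝 0) := by
    simpa using ((inv_lim.add hc.2.norm).add (hc.1.const_mul K)).const_mul (C * K)
  refine squeeze_zero_norm' ?_ h2
  filter_upwards [hF, cca2_one] with j hj h1
  have h0 : (0 : ℝ) < j := by linarith
  rw [norm_mul, norm_smul, Real.norm_of_nonneg (by positivity), Real.norm_eq_abs,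
    Real.norm_of_nonneg (by positivity)]
  calc ((j : ℝ) ^ 2)⁻¹ * |F j|
      ≤ ((j : ℝ) ^ 2)⁻¹ * (C * (K * j) * (1 + ‖a (h j)‖ + K * j * D.sz (h j))) :=
        mul_le_mul_of_nonneg_left hj (by positivity)
    _ = _ := by field_simp

end

namespace CA

variable (A : CA n D) {h h' : ℕ → D.G} {v v' : E n}

theorem exists_seq (v : E n) : ∃ h, IsSeq D A.a h v := by
  obtain ⟨ε, C, h1, h2, h3⟩ := slow (fun ε C => ∀ ξ, ∃ g, D.sz g ≤ ε ∧ ‖A.a g - ξ‖ ≤ C) A.syn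
  choose g hg using fun j : ℕ => (h1 j).2 ((j : ℝ) • v)
  refine ⟨g, squeeze_zero (fun j => D.sz_nonneg _) (fun j => (hg j).1) h2,
    lim_of_close (K := 0) (cca2_const v) h3 ?_⟩
  filter_upwards [cca2_one] with j hj
  have h0 : (j : ℝ) ≠ 0 := by linarith
  calc _ ≤ C j := (hg j).2
    _ ≤ |C j| := le_abs_self _
    _ = _ := by field_simp; ring

theorem seq_mul (hs : IsSeq D A.a h v) (hs' : IsSeq D A.a h' v') :
    IsSeq D A.a (fun j => h j * h' j) (v + v') := by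
  obtain ⟨C, hC, H⟩ := A.a_mul
  refine ⟨?_, ?_⟩
  · have h2 : Tendsto (fun j => D.L * (D.sz (h j) + D.sz (h' j))) UU (𝓝 0) := by
      simpa using (hs.1.add hs'.1).const_mul D.L
    refine squeeze_zero' (Eventually.of_forall fun j => D.sz_nonneg _) ?_ h2
    filter_upwards [hs.le one_pos, hs'.le one_pos] with j h1 h2
    exact D.sz_mul h1 h2
  · have hf : Tendsto (fun j : ℕ => (j : ℝ)⁻¹ • (A.a (h j) + A.a (h' j))) UU (𝓝 (v + v')) := by
      simpa only [smul_add] using hs.2.add hs'.2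
    have he : Tendsto (fun j => C * D.sz (h' j) * (‖v‖ + 2)) UU (𝓝 0) := by
      simpa using (hs'.1.const_mul C).mul_const (‖v‖ + 2)
    refine lim_of_close (K := 0) hf he ?_
    filter_upwards [hs.sm, hs'.sm, hs.bd (lt_add_one _), cca2_one] with j h1 h2 h3 h4
    have h5 := H (h j) (h' j)
    have h6 : 0 ≤ C * D.sz (h' j) := mul_nonneg hC (D.sz_nonneg _)
    rw [← sub_sub, zero_add, mul_assoc]
    exact h5.trans (mul_le_mul_of_nonneg_left (by linarith) h6)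

theorem seq_inv (hs : IsSeq D A.a h v) : IsSeq D A.a (fun j => (h j)⁻¹) (-v) := by
  obtain ⟨C, hC, H⟩ := A.a_inv
  refine ⟨?_, ?_⟩
  · have h2 : Tendsto (fun j => D.L * D.sz (h j)) UU (𝓝 0) := by
      simpa using hs.1.const_mul D.L
    refine squeeze_zero' (Eventually.of_forall fun j => D.sz_nonneg _) ?_ h2
    filter_upwards [hs.le one_pos] with j h1
    exact D.sz_inv h1
  · have hf : Tendsto (fun j : ℕ => (j : ℝ)⁻¹ • (-A.a (h j))) UU (𝓝 (-v)) := by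
      simpa only [smul_neg] using hs.2.neg
    have he : Tendsto (fun j => C * D.sz (h j) * (‖v‖ + 2)) UU (𝓝 0) := by
      simpa using (hs.1.const_mul C).mul_const (‖v‖ + 2)
    refine lim_of_close (K := 0) hf he ?_
    filter_upwards [hs.sm, hs.bd (lt_add_one _), cca2_one] with j h1 h3 h4
    have h5 := H (h j)
    have h6 : 0 ≤ C * D.sz (h j) := mul_nonneg hC (D.sz_nonneg _)
    rw [sub_neg_eq_add, zero_add, mul_assoc]
    exact h5.trans (mul_le_mul_of_nonneg_left (by linarith) h6)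

theorem seq_comm (hs : IsSeq D A.a h v) (hs' : IsSeq D A.a h' v') :
    IsSeq D A.a (fun j => comm (h j) (h' j)) 0 := by
  have h1 := A.seq_mul (A.seq_mul hs hs') (A.seq_inv (A.seq_mul hs' hs))
  have e : v + v' + -(v' + v) = 0 := by abel
  rw [e] at h1
  exact h1

theorem seq_per (m : Fin A.r0 → ℤ) : IsSeq D A.a (fun j : ℕ => A.ι ((j : ℤ) • m)) (A.zz m) := by
  refine ⟨by simp only [A.ι_sz]; exact tendsto_const_nhds, (cca2_const (A.zz m)).congr fun j => ?_⟩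
  have e : A.a (A.ι ((j : ℤ) • m)) = A.zz ((j : ℤ) • m) := A.ι_a _
  rw [e, A.zz_smul, Int.cast_natCast]

theorem tm_mul {k : ℕ} (hk : k ≤ 15) (hs : Tm D A.a k h) (hs' : Tm D A.a k h') :
    Tm D A.a (k + 1) fun j => h j * h' j := by
  obtain ⟨C, hC, H⟩ := A.a_mul
  obtain ⟨K, hK⟩ := hs
  obtain ⟨K', hK'⟩ := hs'
  refine ⟨K + K' + C + C * K, ?_⟩
  filter_upwards [hK, hK', cca2_one] with j h1 h2 h3
  have := h1.1
  have := h2.1
  refine ⟨inferInstance, ?_⟩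
  have h4 := @H (h j) (h' j) (cca2_sm hk h1.1) (cca2_sm hk h2.1)
  have h5 : D.sz (h' j) ≤ 1 := D.sm_le1 h2.1 (by omega)
  have h6 : C * D.sz (h' j) * (1 + ‖A.a (h j)‖) ≤ C * 1 * (j + K * j) :=
    mul_le_mul (mul_le_mul_of_nonneg_left h5 hC) (by linarith [h1.2]) (by positivity)
      (by positivity)
  have h7 : ‖A.a (h j * h' j)‖ ≤
      ‖A.a (h j * h' j) - A.a (h j) - A.a (h' j)‖ + ‖A.a (h j)‖ + ‖A.a (h' j)‖ := by
    have e : A.a (h j * h' j) =
        A.a (h j * h' j) - A.a (h j) - A.a (h' j) + A.a (h j) + A.a (h' j) := by abel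
    exact (le_of_eq (congrArg norm e)).trans norm_add₃_le
  have h8 := h1.2
  have h9 := h2.2
  linarith

theorem iso_lim (i : Fin A.m) (hs : IsSeq D A.a h v) (hs' : IsSeq D A.a h' v') :
    Tendsto (fun j : ℕ => ((j : ℝ) ^ 2)⁻¹ * (A.ka i (h j) (h' j) - A.ka i (h' j) (h j))) UU
      (𝓝 0) := by
  rw [Metric.tendsto_nhds]
  intro δ hδ
  obtain ⟨K, hK⟩ : ∃ K : ℝ, K = ‖v‖ + ‖v'‖ + 1 := ⟨_, rfl⟩
  have hv := norm_nonneg v
  have hv' := norm_nonneg v'
  have hK1 : 1 ≤ K := by linarith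
  obtain ⟨C, -, H⟩ := A.ka_iso i (δ / (2 * K ^ 2)) (by positivity)
  have h2 : Tendsto (fun j : ℕ => C * K * ((j : ℝ)⁻¹ + K * (D.sz (h j) + D.sz (h' j)))) UU
      (𝓝 0) := by
    simpa using (inv_lim.add ((hs.1.add hs'.1).const_mul K)).const_mul (C * K)
  filter_upwards [h2.eventually (eventually_lt_nhds (half_pos hδ)), hs.le one_pos,
    hs'.le one_pos, hs.bd (K := K) (by linarith), hs'.bd (K := K) (by linarith), cca2_one]
    with j h3 h4 h5 h6 h7 h8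
  have h0 : (0 : ℝ) < j := by linarith
  have h9 := H (h j) (h' j) (K * j) h4 h5 (by nlinarith) h6 h7
  rw [dist_zero_right, norm_mul, Real.norm_of_nonneg (by positivity), Real.norm_eq_abs]
  calc _ ≤ ((j : ℝ) ^ 2)⁻¹ * (δ / (2 * K ^ 2) * (K * j) ^ 2 +
        C * (K * j) * (1 + K * j * (D.sz (h j) + D.sz (h' j)))) :=
        mul_le_mul_of_nonneg_left h9 (by positivity)
    _ = δ / 2 + C * K * ((j : ℝ)⁻¹ + K * (D.sz (h j) + D.sz (h' j))) := by field_simp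
    _ < δ := by linarith

end CA

section
variable {a : D.G → E n} {κ : D.G → D.G → ℝ} {c g x : ℕ → D.G}

theorem CBd.lim1 (hκ : CBd D a κ) (hc : IsSeq D a c 0) (hx : Tm D a 16 x) :
    Tendsto (fun j : ℕ => ((j : ℝ) ^ 2)⁻¹ * κ (c j) (x j)) UU (𝓝 0) := by
  obtain ⟨C, -, H⟩ := hκ.a1
  obtain ⟨K, hK⟩ := hx
  have hK0 := abs_nonneg K
  refine cca2_aux hc (C := C) (K := |K| + 1) ?_
  filter_upwards [hK, hc.le one_pos, hc.bd (K := |K| + 1) (by rw [norm_zero]; linarith),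
    cca2_one] with j h1 h2 h3 h4
  refine H _ _ _ h2 (D.sm_le1 h1.1 le_rfl) (by nlinarith) h3 (h1.2.trans ?_)
  exact mul_le_mul_of_nonneg_right (by linarith [le_abs_self K]) (by linarith)

theorem CBd.lim2 (hκ : CBd D a κ) (hg : Tm D a 16 g) (hc : IsSeq D a c 0) (hx : Tm D a 16 x) :
    Tendsto (fun j : ℕ => ((j : ℝ) ^ 2)⁻¹ * (κ (g j) (c j * x j) - κ (g j) (x j))) UU
      (𝓝 0) := by
  obtain ⟨C, -, H⟩ := hκ.a2
  obtain ⟨K, hK⟩ := hx
  obtain ⟨K', hK'⟩ := hg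
  have hK0 := abs_nonneg K
  have hK1 := abs_nonneg K'
  refine cca2_aux hc (C := C) (K := |K| + |K'| + 1) ?_
  filter_upwards [hK, hK', hc.le one_pos,
    hc.bd (K := |K| + |K'| + 1) (by rw [norm_zero]; linarith), cca2_one] with j h1 h1' h2 h3 h4
  refine H _ _ _ _ (D.sm_le1 h1'.1 le_rfl) h2 (D.sm_le1 h1.1 le_rfl) (by nlinarith)
    (h1'.2.trans ?_) h3 (h1.2.trans ?_)
  · exact mul_le_mul_of_nonneg_right (by linarith [le_abs_self K']) (by linarith)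
  · exact mul_le_mul_of_nonneg_right (by linarith [le_abs_self K]) (by linarith)

end

end Pool.Agent.CL
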