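import Pool.Agent.K.MP_63735c_ag.C119

/-! Commutators and cocycles in a local group. -/

open scoped Matrix
open Set Filter Topology

namespace Pool.Agent.CL

open Pool.Agent.SPF LGrp

variable {n : ℕ} {D : LGrp}

section
variable {B : Type} [AddCommGroup B] {κ : D.G → D.G → B}

theorem Coc.shift (hκ : Coc D κ) (c x k : D.G) [D.Sm 16 c] [D.Sm 16 x] [D.Sm 16 k] :
    κ (c * x) k - κ x k = κ c (x * k) - κ c x := by
  have h1 := hκ.coc c x k (D.le1 c) (D.le1 x) (D.le1 k)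
  linear_combination (norm := abel) h1

theorem Coc.q_mul (hκ : Coc D κ) (g g' h : D.G) [D.Sm 16 g] [D.Sm 16 g'] [D.Sm 16 h] :
    κ (g * g') h - κ h (g * g') - (κ g h - κ h g) - (κ g' h - κ h g') =
      κ g (g' * h) - κ g (h * g') + (κ (g * h) g' - κ (h * g) g') := by
  have h1 := hκ.coc g g' h (D.le1 g) (D.le1 g') (D.le1 h)
  have h2 := hκ.coc h g g' (D.le1 h) (D.le1 g) (D.le1 g')
  have h3 := hκ.coc g h g' (D.le1 g) (D.le1 h) (D.le1 g')
  linear_combination (norm := abel) h1 + h2 - h3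

theorem Coc.q_conj (hκ : Coc D κ) (k g h : D.G) [D.Sm 12 k] [D.Sm 12 g] [D.Sm 12 h] :
    κ (conj k g) (conj k h) - κ (conj k h) (conj k g) = κ g h - κ h g +
      (κ (g * h) k - κ (h * g) k) -
      (κ k (conj k g * conj k h) - κ k (conj k h * conj k g)) := by
  have eg := mul_conj k g
  have eh := mul_conj k h
  have h1 := hκ.coc k (conj k g) (conj k h) (D.le1 k) (D.le1 _) (D.le1 _)
  have h2 := hκ.coc g k (conj k h) (D.le1 g) (D.le1 k) (D.le1 _)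
  have h3 := hκ.coc g h k (D.le1 g) (D.le1 h) (D.le1 k)
  have h4 := hκ.coc k (conj k h) (conj k g) (D.le1 k) (D.le1 _) (D.le1 _)
  have h5 := hκ.coc h k (conj k g) (D.le1 h) (D.le1 k) (D.le1 _)
  have h6 := hκ.coc h g k (D.le1 h) (D.le1 g) (D.le1 k)
  rw [eg] at h1 h5
  rw [eh] at h2 h4
  linear_combination (norm := abel) h4 - h5 + h6 - h1 + h2 - h3

end

variable {κ : D.G → D.G → ℝ}

theorem coc_zero : Coc D (fun _ _ => (0 : ℝ)) :=
  ⟨fun _ _ _ _ _ _ => rfl, fun _ _ => rfl, fun _ _ => rfl⟩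

theorem Coc.re_mul {σ : D.G → D.G → ℂ} (h : Coc D σ) (c : ℂ) :
    Coc D (fun g k => (c * σ g k).re) := by
  refine ⟨fun g g' k h1 h2 h3 => ?_, fun g h1 => ?_, fun g h1 => ?_⟩
  · rw [← Complex.add_re, ← Complex.add_re, ← mul_add, ← mul_add, h.coc g g' k h1 h2 h3]
  · simp [h.one_l g h1]
  · simp [h.one_r g h1]

theorem Coc.cen_one (hκ : Coc D κ) : Cen κ 1 := by
  refine ⟨D.sz_one, fun x _ => ⟨?_, ?_⟩⟩
  · rw [LGrp.one_mul x, LGrp.mul_one x]
  · rw [hκ.one_l x (D.le1 x), hκ.one_r x (D.le1 x)]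

lemma ccx_l {D : LGrp} (g g' h : D.G) [D.Sm 8 g] [D.Sm 8 g'] [D.Sm 8 h]
    (h1 : comm g' h * g = g * comm g' h) (h2 : comm g' h * comm g h = comm g h * comm g' h) :
    comm (g * g') h = comm g h * comm g' h := by
  apply comm_eq
  rw [← h2, LGrp.assoc (comm g' h) (comm g h) (h * (g * g')), ← LGrp.assoc h g g',
    ← LGrp.assoc (comm g h) (h * g) g', comm_mul g h, LGrp.assoc g h g',
    ← LGrp.assoc (comm g' h) g (h * g'), h1, LGrp.assoc g (comm g' h) (h * g'), comm_mul g' h,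
    LGrp.assoc g g' h]

lemma ccx_r {D : LGrp} (g h h' : D.G) [D.Sm 8 g] [D.Sm 8 h] [D.Sm 8 h']
    (h1 : comm g h' * h = h * comm g h') :
    comm g (h * h') = comm g h * comm g h' := by
  apply comm_eq
  rw [LGrp.assoc (comm g h) (comm g h') (h * h' * g), LGrp.assoc h h' g,
    ← LGrp.assoc (comm g h') h (h' * g), h1, LGrp.assoc h (comm g h') (h' * g), comm_mul g h',
    ← LGrp.assoc h g h', ← LGrp.assoc (comm g h) (h * g) h', comm_mul g h, LGrp.assoc g h h']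

lemma ccx_s {D : LGrp} (g h : D.G) [D.Sm 8 g] [D.Sm 8 h] : comm g h * comm h g = 1 := by
  have e : comm h g = h * g * (g * h)⁻¹ := rfl
  rw [e, ← LGrp.assoc (comm g h) (h * g) (g * h)⁻¹, comm_mul g h, LGrp.mul_inv (g * h)]

/-- The central extension defined by a cocycle. -/
def ccxExt (hκ : Coc D κ) : LGrp where
  G := D.G × ℝ
  mul p q := (p.1 * q.1, p.2 + q.2 + κ p.1 q.1)
  inv p := (p.1⁻¹, -p.2 - κ p.1⁻¹ p.1)
  one := (1, 0)
  sz p := D.sz p.1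
  L := D.L
  b := D.b
  one_le_L := D.one_le_L
  b_pos := D.b_pos
  b_le := D.b_le
  sz_nonneg p := D.sz_nonneg p.1
  sz_one' := D.sz_one
  sz_mul' p q hp hq := D.sz_mul hp hq
  sz_inv' p hp := D.sz_inv hp
  assoc' p q r hp hq hr := by
    refine Prod.ext (D.assoc' p.1 q.1 r.1 hp hq hr) ?_
    have h1 := hκ.coc p.1 q.1 r.1 hp hq hr
    dsimp only
    linarith
  one_mul' p hp := by
    refine Prod.ext (D.one_mul' p.1 hp) ?_
    have h1 := hκ.one_l p.1 hp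
    dsimp only
    linarith
  mul_one' p hp := by
    refine Prod.ext (D.mul_one' p.1 hp) ?_
    have h1 := hκ.one_r p.1 hp
    dsimp only
    linarith
  inv_mul' p hp := by
    refine Prod.ext (D.inv_mul' p.1 hp) ?_
    dsimp only
    ring
  mul_inv' p hp hq := by
    refine Prod.ext (D.mul_inv' p.1 hp hq) ?_
    have h1 := hκ.coc p.1 p.1⁻¹ p.1 hp hq hp
    have e1 : p.1 * p.1⁻¹ = 1 := D.mul_inv' p.1 hp hq
    have e2 : p.1⁻¹ * p.1 = 1 := D.inv_mul' p.1 hp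
    rw [e1, e2, hκ.one_l p.1 hp, hκ.one_r p.1 hp] at h1
    dsimp only
    linarith

/-- A point of the extension. -/
def ccxPt (hκ : Coc D κ) (g : D.G) (s : ℝ) : (ccxExt hκ).G := (g, s)

lemma ccx_mul (hκ : Coc D κ) (g h : D.G) (s t : ℝ) :
    ccxPt hκ g s * ccxPt hκ h t = ccxPt hκ (g * h) (s + t + κ g h) := rfl

lemma ccx_one (hκ : Coc D κ) : (1 : (ccxExt hκ).G) = ccxPt hκ 1 0 := rfl

lemma ccx_inj (hκ : Coc D κ) {g h : D.G} {s t : ℝ} (e : ccxPt hκ g s = ccxPt hκ h t) :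
    g = h ∧ s = t := Prod.mk.inj e

lemma ccx_sm (hκ : Coc D κ) (k : ℕ) (g : D.G) (s : ℝ) [h : D.Sm k g] :
    (ccxExt hκ).Sm k (ccxPt hκ g s) := ⟨h.le⟩

lemma ccx_comm (hκ : Coc D κ) (g h : D.G) (s t : ℝ) [D.Sm 13 g] [D.Sm 13 h] :
    comm (ccxPt hκ g s) (ccxPt hκ h t) = ccxPt hκ (comm g h) (mflux κ g h) := by
  have := ccx_sm hκ 13 g s
  have := ccx_sm hκ 13 h t
  have := ccx_sm hκ 16 (comm g h) (mflux κ g h)
  apply comm_eq
  rw [ccx_mul, ccx_mul, ccx_mul, comm_mul g h]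
  congr 1
  unfold mflux
  ring

lemma ccx_cen (hκ : Coc D κ) {c : D.G} (hc : Cen κ c) (x : D.G) [D.Sm 16 x] (s t : ℝ) :
    ccxPt hκ c s * ccxPt hκ x t = ccxPt hκ x t * ccxPt hκ c s := by
  obtain ⟨e1, e2⟩ := hc.2 x
  rw [ccx_mul, ccx_mul, e1, e2, add_comm s t]

theorem Coc.comm_mul_l (hκ : Coc D κ) (g g' h : D.G) [D.Sm 8 g] [D.Sm 8 g'] [D.Sm 8 h]
    (hc : Cen κ (comm g h)) (hc' : Cen κ (comm g' h)) :
    comm (g * g') h = comm g h * comm g' h ∧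
      mflux κ (g * g') h = mflux κ g h + mflux κ g' h + κ (comm g h) (comm g' h) := by
  have := ccx_sm hκ 8 g 0
  have := ccx_sm hκ 8 g' 0
  have := ccx_sm hκ 8 h 0
  have key := ccx_l (ccxPt hκ g 0) (ccxPt hκ g' 0) (ccxPt hκ h 0)
    (by rw [ccx_comm]; exact ccx_cen hκ hc' g _ _)
    (by rw [ccx_comm, ccx_comm]; exact (ccx_cen hκ hc (comm g' h) _ _).symm)
  rw [ccx_mul, ccx_comm, ccx_comm, ccx_comm, ccx_mul] at key
  exact ccx_inj hκ key

theorem Coc.comm_mul_r (hκ : Coc D κ) (g h h' : D.G) [D.Sm 8 g] [D.Sm 8 h] [D.Sm 8 h']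
    (hc : Cen κ (comm g h)) (hc' : Cen κ (comm g h')) :
    comm g (h * h') = comm g h * comm g h' ∧
      mflux κ g (h * h') = mflux κ g h + mflux κ g h' + κ (comm g h) (comm g h') := by
  have _ := hc
  have := ccx_sm hκ 8 g 0
  have := ccx_sm hκ 8 h 0
  have := ccx_sm hκ 8 h' 0
  have key := ccx_r (ccxPt hκ g 0) (ccxPt hκ h 0) (ccxPt hκ h' 0)
    (by rw [ccx_comm]; exact ccx_cen hκ hc' h _ _)
  rw [ccx_mul, ccx_comm, ccx_comm, ccx_comm, ccx_mul] at key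
  exact ccx_inj hκ key

theorem Coc.comm_swap (hκ : Coc D κ) (g h : D.G) [D.Sm 8 g] [D.Sm 8 h] :
    comm g h * comm h g = 1 ∧ mflux κ g h + mflux κ h g + κ (comm g h) (comm h g) = 0 := by
  have := ccx_sm hκ 8 g 0
  have := ccx_sm hκ 8 h 0
  have key := ccx_s (ccxPt hκ g 0) (ccxPt hκ h 0)
  rw [ccx_comm, ccx_comm, ccx_mul, ccx_one] at key
  exact ccx_inj hκ key

end Pool.Agent.CL
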