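import Pool.Agent.K.MP_63735c_ag.C121
import Pool.Agent.K.MP_63735c_ag.C122

/-! The limit action and the limit displacement exist. -/

open scoped Matrix
open Set Filter Topology

namespace Pool.Agent.CL

open Pool.Agent.SPF LGrp

variable {n : ℕ} {D : LGrp}

theorem CA.exists_lim (A : CA n D) {W : Type} [NormedAddCommGroup W] [NormedSpace ℝ W]
    [FiniteDimensional ℝ W] (F : D.G → W) {C : ℝ}
    (h1 : ∀ h h', D.sz h ≤ D.b → D.sz h' ≤ D.b →
      ‖F (h * h') - F h - F h'‖ ≤ C + C * D.sz h' * (1 + ‖A.a h‖))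
    (h2 : ∀ h, D.sz h ≤ D.b → ‖F h‖ ≤ C * (1 + ‖A.a h‖)) :
    ∃ l : E n →L[ℝ] W, ∀ h v, IsSeq D A.a h v →
      Tendsto (fun j : ℕ => (j : ℝ)⁻¹ • F (h j)) UU (𝓝 (l v)) := by
  have C0 : 0 ≤ C := nonneg_of_mul_nonneg_left
    ((norm_nonneg _).trans (h2 1 (D.sz_one.trans_le D.b_pos.le))) (by positivity)
  have bd : ∀ h v, IsSeq D A.a h v → (∀ᶠ j : ℕ in UU, ‖(j : ℝ)⁻¹ • F (h j)‖ ≤
      C * ((j : ℝ)⁻¹ + ‖(j : ℝ)⁻¹ • A.a (h j)‖)) ∧
      Tendsto (fun j : ℕ => C * ((j : ℝ)⁻¹ + ‖(j : ℝ)⁻¹ • A.a (h j)‖)) UU (𝓝 (C * ‖v‖)) := by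
    refine fun h v hs => ⟨(hs.le D.b_pos).mono fun j hj => ?_, ?_⟩
    · have j0 : (0 : ℝ) ≤ (j : ℝ)⁻¹ := by positivity
      rw [norm_smul, norm_smul, Real.norm_of_nonneg j0]
      refine (mul_le_mul_of_nonneg_left (h2 _ hj) j0).trans_eq (by ring)
    · simpa using (inv_lim.add hs.2.norm).const_mul C
  have ex : ∀ h v, IsSeq D A.a h v → ∃ x, ‖x‖ ≤ C * ‖v‖ ∧
      Tendsto (fun j : ℕ => (j : ℝ)⁻¹ • F (h j)) UU (𝓝 x) := fun h v hs => by
    obtain ⟨b1, b2⟩ := bd h v hs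
    obtain ⟨x, hx⟩ := ulim (fun j : ℕ => (j : ℝ)⁻¹ • F (h j)) (M := C * ‖v‖ + 1) (by
      filter_upwards [b1, b2.eventually_le_const (lt_add_one _)] with j a b using a.trans b)
    exact ⟨x, le_of_tendsto_of_tendsto hx.norm b2 b1, hx⟩
  have add : ∀ h h' v v' x x', IsSeq D A.a h v → IsSeq D A.a h' v' →
      Tendsto (fun j : ℕ => (j : ℝ)⁻¹ • F (h j)) UU (𝓝 x) →
      Tendsto (fun j : ℕ => (j : ℝ)⁻¹ • F (h' j)) UU (𝓝 x') →
      Tendsto (fun j : ℕ => (j : ℝ)⁻¹ • F (h j * h' j)) UU (𝓝 (x + x')) := by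
    intro h h' v v' x x' hs hs' hx hx'
    refine lim_of_close (f := fun j => F (h j) + F (h' j)) (K := C)
      (e := fun j => C * D.sz (h' j) * (1 + (‖v‖ + 1))) (by simpa using hx.add hx')
      (by simpa using (hs'.1.const_mul C).mul_const (1 + (‖v‖ + 1))) ?_
    filter_upwards [hs.le D.b_pos, hs'.le D.b_pos, hs.bd (lt_add_one _),
      UU_le (eventually_ge_atTop 1)] with j a b c d
    have d' : (1 : ℝ) ≤ j := by exact_mod_cast d
    rw [← sub_sub, mul_assoc (C * _)]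
    refine (h1 _ _ a b).trans (add_le_add le_rfl (mul_le_mul_of_nonneg_left (by linarith)
      (mul_nonneg C0 (D.sz_nonneg _))))
  choose s hs using A.exists_seq
  choose l l1 l2 using fun v => ex (s v) v (hs v)
  have key : ∀ h v, IsSeq D A.a h v → Tendsto (fun j : ℕ => (j : ℝ)⁻¹ • F (h j)) UU (𝓝 (l v)) := by
    intro h v hh
    have hc := A.seq_mul hh (A.seq_inv (hs v))
    obtain ⟨y, y1, y2⟩ := ex _ _ hc
    have y0 : y = 0 := by simpa using y1
    have := add _ _ _ _ _ _ hc (hs v) y2 (l2 v)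
    rw [y0, zero_add] at this
    refine this.congr' ?_
    filter_upwards [hh.sm, (hs v).sm] with j a b
    rw [LGrp.inv_mul_cancel_right (h j) (s v j)]
  let f : E n →+ W := AddMonoidHom.mk' l fun v v' => tendsto_nhds_unique
    (key _ _ (A.seq_mul (hs v) (hs v'))) (add _ _ _ _ _ _ (hs v) (hs v') (l2 v) (l2 v'))
  exact ⟨f.toRealLinearMap (AddMonoidHomClass.continuous_of_bound f C l1), key⟩

theorem CA.exists_CL1 (A : CA n D) : ∃ B : CL1 n D, B.toCA = A := by
  have hL : ∀ g : D.G, ∃ l : E n →L[ℝ] E n, D.Sm 12 g → ∀ h v, IsSeq D A.a h v →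
      Tendsto (fun j : ℕ => (j : ℝ)⁻¹ • A.a (h j * g)) UU (𝓝 (l v)) := fun g => by
    by_cases hg : D.Sm 12 g
    · obtain ⟨C, C0, hC⟩ := A.a_mul3
      obtain ⟨C', C1, hC'⟩ := A.a_mul
      have g0 := norm_nonneg (A.a g)
      obtain ⟨l, hl⟩ := A.exists_lim (fun h => A.a (h * g)) (C := C + C' + 1 + ‖A.a g‖)
        (fun h h' a b => by
          have := D.sm0 a
          have := D.sm0 b
          have e := hC h h' g (D.le1 _) (D.le1 _) (D.le1 _) (D.le1 _)
          have e' := norm_sub_le (A.a (h * h' * g) - A.a (h * g) - A.a (h' * g) + A.a g) (A.a g)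
          rw [add_sub_cancel_right] at e'
          have p : 0 ≤ D.sz h' * (1 + ‖A.a h‖) := mul_nonneg (D.sz_nonneg _) (by positivity)
          nlinarith [mul_nonneg C1 p, mul_nonneg g0 p])
        fun h a => by
          have := D.sm0 a
          have e := hC' h g
          have e' := norm_add₃_le (a := A.a (h * g) - A.a h - A.a g) (b := A.a h) (c := A.a g)
          rw [show A.a (h * g) - A.a h - A.a g + A.a h + A.a g = A.a (h * g) by abel] at e'
          have h0 := norm_nonneg (A.a h)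
          have p : C' * D.sz g * (1 + ‖A.a h‖) ≤ C' * (1 + ‖A.a h‖) :=
            mul_le_mul_of_nonneg_right (mul_le_of_le_one_right C1 (D.le1 g)) (by positivity)
          nlinarith [mul_nonneg C0 h0, mul_nonneg g0 h0]
      exact ⟨l, fun _ => hl⟩
    · exact ⟨0, fun h => absurd h hg⟩
  have hZ : ∀ g : D.G, ∃ l : E n →L[ℝ] ℂ, D.Sm 12 g → ∀ h v, IsSeq D A.a h v →
      Tendsto (fun j : ℕ => (j : ℝ)⁻¹ • A.sg (h j) g) UU (𝓝 (l v)) := fun g => by
    by_cases hg : D.Sm 12 g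
    · obtain ⟨C, C0, hC⟩ := A.sg_lip
      obtain ⟨C', C1, hC'⟩ := A.sg_bd
      obtain ⟨l, hl⟩ := A.exists_lim (fun h => A.sg h g) (C := C + C')
        (fun h h' a b => by
          have := D.sm0 a
          have := D.sm0 b
          have e := hC h h' g (D.le1 _) (D.le1 _) (D.le1 _)
          have e' := hC' h h'
          have e2 : A.sg (h * h') g - A.sg h g - A.sg h' g =
              A.sg h (h' * g) - A.sg h g - A.sg h h' := by
            linear_combination A.sg_coc.shift h h' g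
          rw [e2]
          linarith [norm_sub_le (A.sg h (h' * g) - A.sg h g) (A.sg h h')])
        fun h a => by
          have := D.sm0 a
          exact (hC' h g).trans (mul_le_mul_of_nonneg_right
            ((mul_le_of_le_one_right C1 (D.le1 g)).trans (by linarith)) (by positivity))
      exact ⟨l, fun _ => hl⟩
    · exact ⟨0, fun h => absurd h hg⟩
  choose L hL using hL
  choose Z hZ using hZ
  exact ⟨⟨A, L, Z, fun g hg => hL g hg, fun g hg => hZ g hg⟩, rfl⟩

end Pool.Agent.CL
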