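import Pool.Agent.K.MP_63735c_ag.C121
import Pool.Agent.K.MP_63735c_ag.C122

/-! Properties of the limit action and of the displacement. -/

open scoped Matrix
open Set Filter Topology

namespace Pool.Agent.CL

open Pool.Agent.SPF LGrp

variable {n : ℕ} {D : LGrp}

lemma cca4_close {W : Type} [NormedAddCommGroup W] [NormedSpace ℝ W] {f g : ℕ → W} {x : W}
    {K : ℝ} (hf : Tendsto (fun j : ℕ => (j : ℝ)⁻¹ • f j) UU (𝓝 x))
    (h : ∀ᶠ j : ℕ in UU, ‖g j - f j‖ ≤ K) : Tendsto (fun j : ℕ => (j : ℝ)⁻¹ • g j) UU (𝓝 x) :=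
  lim_of_close (e := fun _ => 0) (K := K) hf tendsto_const_nhds
    (h.mono fun j hj => by simpa using hj)

lemma cca4_le {W : Type} [NormedAddCommGroup W] [NormedSpace ℝ W] {a : D.G → E n} {h : ℕ → D.G}
    {v : E n} (hs : IsSeq D a h v) {F : ℕ → W} {x : W} {C : ℝ}
    (hF : Tendsto (fun j : ℕ => (j : ℝ)⁻¹ • F j) UU (𝓝 x))
    (hb : ∀ᶠ j : ℕ in UU, ‖F j‖ ≤ C * (1 + ‖a (h j)‖)) : ‖x‖ ≤ C * ‖v‖ := by
  have h1 : Tendsto (fun j : ℕ => C * ((j : ℝ)⁻¹ + ‖(j : ℝ)⁻¹ • a (h j)‖)) UU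
      (𝓝 (C * (0 + ‖v‖))) := (inv_lim.add hs.2.norm).const_mul C
  rw [zero_add] at h1
  refine le_of_tendsto_of_tendsto hF.norm h1 (hb.mono fun j hj => ?_)
  have h0 : (0 : ℝ) ≤ (j : ℝ)⁻¹ := inv_nonneg.2 (Nat.cast_nonneg j)
  have h2 := mul_le_mul_of_nonneg_left hj h0
  simp only [norm_smul, Real.norm_of_nonneg h0]
  linarith

lemma cca4_one {C s t : ℝ} (hC : 0 ≤ C) (hs : s ≤ 1) (ht : 0 ≤ t) :
    C * s * (1 + t) ≤ C * (1 + t) := by
  have : C * s ≤ C := by nlinarith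
  exact mul_le_mul_of_nonneg_right this (by linarith)

lemma cca4_tri {W : Type} [NormedAddCommGroup W] {x y z : W} {K : ℝ} (h : ‖x - y - z‖ ≤ K) :
    ‖x - z‖ ≤ K + ‖y‖ ∧ ‖z - x‖ ≤ K + ‖y‖ := by
  have h1 : ‖x - z‖ ≤ K + ‖y‖ := by
    have e : x - z = x - y - z + y := by abel
    rw [e]
    exact (norm_add_le _ _).trans (by linarith)
  exact ⟨h1, by rwa [norm_sub_rev]⟩

namespace CL1

variable (A : CL1 n D)

theorem seq_conj (g : D.G) [D.Sm 12 g] {h : ℕ → D.G} {v : E n} (hs : IsSeq D A.a h v) :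
    IsSeq D A.a (fun j => conj g (h j)) (A.L g v) := by
  constructor
  · obtain ⟨C, -, hC⟩ := A.sz_conj
    have h1 : Tendsto (fun j => C * D.sz (h j)) UU (𝓝 (C * 0)) := hs.1.const_mul C
    rw [mul_zero] at h1
    refine squeeze_zero' (Eventually.of_forall fun j => D.sz_nonneg _) ?_ h1
    filter_upwards [hs.sm] with j hj
    exact hC g (h j) (D.le1 g) (D.le1 (h j)) (D.le1 g⁻¹) (D.le1 (h j * g))
  · obtain ⟨C, h0, hC⟩ := A.a_mul
    refine cca4_close (K := C * (1 + ‖A.a g‖) + ‖A.a g‖) (A.L_lim g h v hs) ?_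
    filter_upwards [hs.sm] with j hj
    have h1 := (hC g (conj g (h j))).trans
      (cca4_one h0 (D.le1 (conj g (h j))) (norm_nonneg _))
    rw [mul_conj g (h j)] at h1
    exact (cca4_tri h1).2

lemma cca4_assoc (g h k : D.G) [D.Sm 11 g] [D.Sm 11 h] [D.Sm 0 k] :
    k * (g * h) = g * conj g k * h := by
  rw [mul_conj g k, assoc k g h]

theorem L_mul (g h : D.G) [D.Sm 11 g] [D.Sm 11 h] (v : E n) :
    A.L (g * h) v = A.L h (A.L g v) := by
  obtain ⟨s, hs⟩ := A.exists_seq v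
  obtain ⟨C, h0, hC⟩ := A.a_mul3
  refine tendsto_nhds_unique (A.L_lim (g * h) s v hs) ?_
  refine cca4_close (K := C * (1 + ‖A.a g‖) + ‖A.a (g * h) - A.a h‖)
    (A.L_lim h _ _ (A.seq_conj g hs)) ?_
  filter_upwards [hs.sm] with j hj
  have h1 := (hC g (conj g (s j)) h (D.le1 g) (D.le1 (conj g (s j))) (D.le1 h)
    (D.le1 (g * conj g (s j)))).trans (cca4_one h0 (D.le1 (conj g (s j))) (norm_nonneg _))
  rw [cca4_assoc g h (s j)]
  refine (cca4_tri (le_of_eq_of_le ?_ h1)).1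
  congr 1
  abel

theorem Z_mul (g h : D.G) [D.Sm 11 g] [D.Sm 11 h] (v : E n) :
    A.Z (g * h) v = A.Z h (A.L g v) + A.Z g v := by
  obtain ⟨s, hs⟩ := A.exists_seq v
  obtain ⟨C, h0, hC⟩ := A.sg_bd
  refine tendsto_nhds_unique (A.Z_lim (g * h) s v hs) ?_
  have h2 := (A.Z_lim h _ _ (A.seq_conj g hs)).add (A.Z_lim g s v hs)
  simp only [← smul_add] at h2
  refine cca4_close (K := 3 * (C * (1 + ‖A.a g‖))) h2 ?_
  filter_upwards [hs.sm] with j hj
  have e1 := A.sg_coc.coc (s j) g h (D.le1 (s j)) (D.le1 g) (D.le1 h)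
  have e2 := A.sg_coc.coc g (conj g (s j)) h (D.le1 g) (D.le1 (conj g (s j))) (D.le1 h)
  rw [mul_conj g (s j)] at e2
  have e3 : A.sg (s j) (g * h) - (A.sg (conj g (s j)) h + A.sg (s j) g) =
      A.sg g (conj g (s j) * h) - A.sg g (conj g (s j)) - A.sg g h := by
    linear_combination e2 - e1
  have b1 := (hC g (conj g (s j) * h)).trans
    (cca4_one h0 (D.le1 (conj g (s j) * h)) (norm_nonneg _))
  have b2 := (hC g (conj g (s j))).trans (cca4_one h0 (D.le1 (conj g (s j))) (norm_nonneg _))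
  have b3 := (hC g h).trans (cca4_one h0 (D.le1 h) (norm_nonneg _))
  rw [e3]
  refine (norm_sub_le _ _).trans ?_
  have := norm_sub_le (A.sg g (conj g (s j) * h)) (A.sg g (conj g (s j)))
  linarith

theorem L_per (m : Fin A.r0 → ℤ) (v : E n) : A.L (A.ι m) v = v := by
  obtain ⟨s, hs⟩ := A.exists_seq v
  refine tendsto_nhds_unique (A.L_lim (A.ι m) s v hs) (cca4_close (K := ‖A.zz m‖) hs.2 ?_)
  filter_upwards [hs.sm] with j hj
  rw [(A.a_per (s j) m).1, add_sub_cancel_left]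

theorem Z_per (m : Fin A.r0 → ℤ) (v : E n) : A.Z (A.ι m) v = 0 := by
  obtain ⟨s, hs⟩ := A.exists_seq v
  refine tendsto_nhds_unique (A.Z_lim (A.ι m) s v hs) (tendsto_const_nhds.congr' ?_)
  filter_upwards [hs.sm] with j hj
  rw [A.sg_per_r (s j) m, smul_zero]

theorem th_per (m : Fin A.r0 → ℤ) : A.th (A.ι m) = 0 := by
  ext v
  simp [CL1.th, A.Z_per m v]

lemma cca4_L_zz (g : D.G) [D.Sm 12 g] (m : Fin A.r0 → ℤ) : A.L g (A.zz m) = A.zz m := by
  have hs := A.seq_per m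
  refine tendsto_nhds_unique (A.L_lim g _ _ hs) (cca4_close (K := ‖A.a g‖) hs.2 ?_)
  refine Eventually.of_forall fun j => ?_
  rw [(A.a_per g _).2, A.ι_a, CA.zz, add_sub_cancel_right]

lemma cca4_Z_zz (g : D.G) [D.Sm 12 g] (m : Fin A.r0 → ℤ) : A.Z g (A.zz m) = 0 := by
  refine tendsto_nhds_unique (A.Z_lim g _ _ (A.seq_per m)) (tendsto_const_nhds.congr fun j => ?_)
  rw [A.sg_per _ g (D.le1 g), smul_zero]

theorem L_V0 (g : D.G) [D.Sm 12 g] {v : E n} (hv : v ∈ A.V0) : A.L g v = v := by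
  induction hv using Submodule.span_induction with
  | mem x hx =>
    obtain ⟨k, rfl⟩ := hx
    rw [← A.zz_single k]
    exact A.cca4_L_zz g _
  | zero => exact map_zero _
  | add x y _ _ hx hy => rw [map_add, hx, hy]
  | smul c x _ hx => rw [map_smul, hx]

theorem Z_V0 (g : D.G) [D.Sm 12 g] {v : E n} (hv : v ∈ A.V0) : A.Z g v = 0 := by
  induction hv using Submodule.span_induction with
  | mem x hx =>
    obtain ⟨k, rfl⟩ := hx
    rw [← A.zz_single k]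
    exact A.cca4_Z_zz g _
  | zero => exact map_zero _
  | add x y _ _ hx hy => rw [map_add, hx, hy, add_zero]
  | smul c x _ hx => rw [map_smul, hx, smul_zero]

theorem L_bij (g : D.G) [D.Sm 10 g] : Function.Bijective (A.L g) := by
  have h1 : ∀ v, A.L 1 v = v := fun v => by
    rw [← A.ι_zero]
    exact A.L_per 0 v
  refine ⟨Function.LeftInverse.injective (g := A.L g⁻¹) fun v => ?_,
    Function.RightInverse.surjective (g := A.L g⁻¹) fun v => ?_⟩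
  · rw [← A.L_mul g g⁻¹ v, LGrp.mul_inv g, h1]
  · rw [← A.L_mul g⁻¹ g v, LGrp.inv_mul g, h1]

theorem Z_u : ∃ C, 0 ≤ C ∧ ∀ (g : D.G) [D.Sm 12 g] (v : E n),
    ‖A.Z g v - v ⬝ᵥ A.u g‖ ≤ C * ‖A.u g‖ ^ 2 * ‖v‖ := by
  obtain ⟨C, h0, hC⟩ := A.sg_u
  refine ⟨C, h0, fun g _ v => ?_⟩
  obtain ⟨s, hs⟩ := A.exists_seq v
  have hc : Continuous fun w : E n => w ⬝ᵥ A.u g := continuous_id.dotProduct continuous_const
  have h1 := (A.Z_lim g s v hs).sub ((hc.tendsto v).comp hs.2)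
  refine cca4_le hs (F := fun j => A.sg (s j) g - A.a (s j) ⬝ᵥ A.u g) (h1.congr fun j => ?_) ?_
  · simp only [Function.comp_apply, smul_dotProduct, smul_sub]
  · filter_upwards [hs.sm] with j hj
    exact hC (s j) g (D.le1 (s j)) (D.le1 g)

lemma cca4_th (g : D.G) (v : E n) : A.th g v = (A.Z g v).re := rfl

theorem th_le : ∃ C, 0 ≤ C ∧ ∀ (g : D.G) [D.Sm 12 g], ‖A.th g‖ ≤ C * D.sz g := by
  obtain ⟨C, h0, hC⟩ := A.sg_bd
  refine ⟨C, h0, fun g _ => ?_⟩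
  refine ContinuousLinearMap.opNorm_le_bound _ (mul_nonneg h0 (D.sz_nonneg g)) fun v => ?_
  obtain ⟨s, hs⟩ := A.exists_seq v
  rw [cca4_th, Real.norm_eq_abs]
  refine (Complex.abs_re_le_norm _).trans (cca4_le hs (A.Z_lim g s v hs) ?_)
  filter_upwards [hs.sm] with j hj
  exact hC (s j) g

theorem u_le_th : ∃ e > (0 : ℝ), ∀ (g : D.G) [D.Sm 12 g], D.sz g ≤ e →
    ‖A.u g‖ ≤ 2 * ‖A.th g‖ := by
  obtain ⟨C, h0, hC⟩ := A.Z_u
  obtain ⟨C', h0', hC'⟩ := A.u_le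
  have hp : 0 < 2 * (C * C' + 1) := by positivity
  refine ⟨1 / (2 * (C * C' + 1)), by positivity, fun g _ hg => ?_⟩
  obtain ⟨v, hv, he⟩ := exists_dual (A.u g)
  have h1 := hC g v
  have h2 := hC' g (D.le1 g)
  have h3 : (v ⬝ᵥ A.u g).re - (A.Z g v).re ≤ ‖A.Z g v - v ⬝ᵥ A.u g‖ := by
    rw [norm_sub_rev, ← Complex.sub_re]
    exact Complex.re_le_norm _
  have h4 : (A.Z g v).re ≤ ‖A.th g‖ := by
    have h5 := (A.th g).le_opNorm v
    rw [cca4_th, Real.norm_eq_abs] at h5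
    have h6 := mul_le_mul_of_nonneg_left hv (norm_nonneg (A.th g))
    linarith [le_abs_self (A.Z g v).re]
  have h7 : C * ‖A.u g‖ ≤ 1 / 2 := by
    rw [le_div_iff₀ hp] at hg
    have h8 := mul_le_mul_of_nonneg_left h2 h0
    have h9 := D.sz_nonneg g
    nlinarith
  have h10 : C * ‖A.u g‖ ^ 2 * ‖v‖ ≤ C * ‖A.u g‖ ^ 2 * 1 :=
    mul_le_mul_of_nonneg_left hv (by positivity)
  have h11 := mul_le_mul_of_nonneg_right h7 (norm_nonneg (A.u g))
  nlinarith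

theorem sz_le_u : ∃ C, 0 ≤ C ∧ ∀ (g : D.G) [D.Sm 12 g], (∀ v, A.L g v - v ∈ A.V0) →
    D.sz g ≤ C * ‖A.u g‖ := by
  obtain ⟨C, h0, hC⟩ := A.a_T
  obtain ⟨K, hK0, hK⟩ := A.uni C h0
  refine ⟨K, hK0, fun g _ hg => ?_⟩
  refine hK g (A.L g - ContinuousLinearMap.id ℝ _) (D.le1 g) (fun v => ?_) fun v => ?_
  · simp only [_root_.sub_apply, ContinuousLinearMap.id_apply]
    rw [A.L_V0 g (hg v), sub_self]
  · obtain ⟨s, hs⟩ := A.exists_seq v
    have h1 : Tendsto (fun j : ℕ => (j : ℝ)⁻¹ • A.a g) UU (𝓝 ((0 : ℝ) • A.a g)) :=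
      inv_lim.smul_const _
    have h2 := ((A.L_lim g s v hs).sub h1).sub (((A.T g).continuous.tendsto v).comp hs.2)
    have h3 : ‖A.L g v - (0 : ℝ) • A.a g - A.T g v‖ ≤ C * ‖A.u g‖ * ‖v‖ := by
      refine cca4_le hs (F := fun j => A.a (s j * g) - A.a g - A.T g (A.a (s j)))
        (h2.congr fun j => ?_) ?_
      · simp only [Function.comp_apply, smul_sub, ContinuousLinearMap.map_smul_of_tower]
      · filter_upwards [hs.sm] with j hj
        exact hC (s j) g (D.le1 (s j)) (D.le1 g)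
    rw [zero_smul, sub_zero, norm_sub_rev] at h3
    simp only [_root_.sub_apply, ContinuousLinearMap.id_apply]
    rwa [sub_sub_sub_cancel_right]

/-- If `Z g v = 0` then `th g (i v)` is of second order. -/
theorem th_I : ∃ C, 0 ≤ C ∧ ∀ (g : D.G) [D.Sm 12 g] (v : E n), A.Z g v = 0 →
    |A.th g (Complex.I • v)| ≤ C * ‖A.u g‖ ^ 2 * ‖v‖ := by
  obtain ⟨C, h0, hC⟩ := A.Z_u
  refine ⟨2 * C, by positivity, fun g _ v hv => ?_⟩
  have h1 := hC g v
  have h2 := hC g (Complex.I • v)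
  rw [hv, zero_sub, norm_neg] at h1
  rw [norm_smul, Complex.norm_I, _root_.one_mul, smul_dotProduct] at h2
  have h3 : ‖Complex.I • (v ⬝ᵥ A.u g)‖ = ‖v ⬝ᵥ A.u g‖ := by
    rw [norm_smul, Complex.norm_I, _root_.one_mul]
  have h4 := norm_sub_norm_le (A.Z g (Complex.I • v)) (Complex.I • (v ⬝ᵥ A.u g))
  rw [cca4_th]
  refine (Complex.abs_re_le_norm _).trans ?_
  linarith

theorem cm_lim (g : D.G) [D.Sm 12 g] {h : ℕ → D.G} {v : E n} (hs : IsSeq D A.a h v)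
    {m : ℕ → Fin A.r0 → ℤ} (hm : ∀ᶠ j in UU, comm g (h j) = A.ι (m j)) :
    Tendsto (fun j : ℕ => (j : ℝ)⁻¹ • A.zz (m j)) UU (𝓝 (v - A.L g v)) := by
  obtain ⟨C, h0, hC⟩ := A.a_mul
  have h1 := hs.2.sub (A.L_lim g h v hs)
  simp only [← smul_sub] at h1
  refine cca4_close (K := C * (1 + ‖A.a g‖) + ‖A.a g‖) h1 ?_
  filter_upwards [hs.sm, hm] with j hj hmj
  have e1 := comm_mul g (h j)
  have e2 := (A.a_per (h j * g) (m j)).2
  rw [← hmj, e1] at e2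
  have h2 := (hC g (h j)).trans (cca4_one h0 (D.le1 (h j)) (norm_nonneg _))
  have e3 : A.zz (m j) - (A.a (h j) - A.a (h j * g)) = A.a (g * h j) - A.a (h j) := by
    rw [e2]
    abel
  rw [e3]
  exact (cca4_tri h2).1

theorem mem_S {d : ℝ} (hd : 0 < d) : ∃ e > (0 : ℝ), ∀ g, D.sz g ≤ e → g ∈ A.S d := by
  obtain ⟨C, h0, hC⟩ := A.th_le
  have hp : 0 < C + 1 := by linarith
  refine ⟨min D.b (d / (C + 1)), lt_min D.b_pos (div_pos hd hp), fun g hg => ?_⟩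
  have h1 : D.sz g ≤ D.b := hg.trans (min_le_left _ _)
  have h2 : D.sz g * (C + 1) ≤ d := (le_div_iff₀ hp).1 (hg.trans (min_le_right _ _))
  have := D.sm0 h1
  refine ⟨h1, (hC g).trans ?_⟩
  nlinarith [D.sz_nonneg g]

theorem seq_S {d : ℝ} (hd : 0 < d) {h : ℕ → D.G} {v : E n} (hs : IsSeq D A.a h v) :
    ∀ᶠ j in UU, h j ∈ A.S d := by
  obtain ⟨e, he, hS⟩ := A.mem_S hd
  exact (hs.le he).mono fun j hj => hS _ hj

end CL1

end Pool.Agent.CL
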