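import Pool.Agent.K.MP_63735c_ag.C124

/-! The invariant symplectic form. -/

open scoped Matrix
open Set Filter Topology

namespace Pool.Agent.CL

open Pool.Agent.SPF LGrp

variable {n : ℕ} {D : LGrp}

/-- Sequences of subquadratic growth. -/
def cca5O (f : ℕ → ℝ) : Prop := Tendsto (fun j : ℕ => ((j : ℝ) ^ 2)⁻¹ * f j) UU (𝓝 0)

lemma cca5O.sub {f g : ℕ → ℝ} (hf : cca5O f) (hg : cca5O g) : cca5O fun j => f j - g j := by
  have := Tendsto.sub hf hg
  simpa [cca5O, mul_sub] using this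

lemma cca5O.add {f g : ℕ → ℝ} (hf : cca5O f) (hg : cca5O g) : cca5O fun j => f j + g j := by
  have := Tendsto.add hf hg
  simpa [cca5O, mul_add] using this

lemma cca5O.congr {f g : ℕ → ℝ} (hf : cca5O f) (e : ∀ᶠ j in UU, f j = g j) : cca5O g :=
  Tendsto.congr' (e.mono fun j hj => by simp only [hj]) hf

lemma cca5_tm_sm {a : D.G → E n} {k : ℕ} {x : ℕ → D.G} (hx : Tm D a k x) :
    ∀ᶠ j in UU, D.Sm k (x j) := by
  obtain ⟨K, hK⟩ := hx
  exact hK.mono fun j hj => hj.1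

/-- The skew part of the cocycle. -/
def CA.cca5Q (A : CA n D) (g h : D.G) : ℝ := A.ko g h - A.ko h g

namespace CA

variable (A : CA n D) {g h h' k : ℕ → D.G} {v v' w : E n}

lemma cca5_br1 (hg : Tm D A.a 16 g) (hs : IsSeq D A.a h v) (hs' : IsSeq D A.a h' v') :
    cca5O fun j => A.ko (g j) (h j * h' j) - A.ko (g j) (h' j * h j) := by
  have h1 : cca5O _ := A.ko_bd.lim2 hg (A.seq_comm hs hs') ((A.seq_mul hs' hs).tm 16)
  refine h1.congr ?_
  filter_upwards [hs.sm, hs'.sm] with j h2 h3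
  rw [comm_mul (h j) (h' j)]

lemma cca5_br2 (hs : IsSeq D A.a h v) (hs' : IsSeq D A.a h' v') (hk : Tm D A.a 15 k) :
    cca5O fun j => A.ko (h j * h' j) (k j) - A.ko (h' j * h j) (k j) := by
  have h1 : cca5O _ := A.ko_bd.lim1 (A.seq_comm hs hs')
    (A.tm_mul le_rfl ((A.seq_mul hs' hs).tm 15) hk)
  have h2 : cca5O _ := A.ko_bd.lim1 (A.seq_comm hs hs') ((A.seq_mul hs' hs).tm 16)
  refine (h1.sub h2).congr ?_
  filter_upwards [hs.sm, hs'.sm, cca5_tm_sm hk] with j h3 h4 h5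
  rw [← A.ko_coc.shift (comm (h j) (h' j)) (h' j * h j) (k j), comm_mul (h j) (h' j)]

lemma cca5_zero (hc : IsSeq D A.a g 0) (hk : Tm D A.a 16 k) :
    cca5O fun j => A.cca5Q (g j) (k j) := by
  have h1 : cca5O _ := A.ko_bd.lim1 hc hk
  have h2 : cca5O _ := A.ko_bd.lim2 hk hc (Tm.const (1 : D.G))
  refine (h1.sub h2).congr ?_
  filter_upwards [hc.sm, cca5_tm_sm hk] with j h3 h4
  rw [LGrp.mul_one (g j), A.ko_coc.one_r (k j) (D.le1 _), sub_zero, cca5Q]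

lemma cca5_mul (hg : IsSeq D A.a g v) (hk : IsSeq D A.a k v') (hs : IsSeq D A.a h w) :
    cca5O fun j => A.cca5Q (g j * k j) (h j) - A.cca5Q (g j) (h j) - A.cca5Q (k j) (h j) := by
  refine ((A.cca5_br1 (hg.tm 16) hk hs).add (A.cca5_br2 hg hs (hk.tm 15))).congr ?_
  filter_upwards [hg.sm, hk.sm, hs.sm] with j h1 h2 h3
  exact (A.ko_coc.q_mul (g j) (k j) (h j)).symm

lemma cca5_indep (hg : IsSeq D A.a g v) (hk : IsSeq D A.a k v) (hs : IsSeq D A.a h w) :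
    cca5O fun j => A.cca5Q (k j) (h j) - A.cca5Q (g j) (h j) := by
  have hc : IsSeq D A.a (fun j => k j * (g j)⁻¹) 0 := by
    simpa using A.seq_mul hk (A.seq_inv hg)
  refine ((A.cca5_mul hc hg hs).add (A.cca5_zero hc (hs.tm 16))).congr ?_
  filter_upwards [hg.sm, hk.sm] with j h1 h2
  rw [LGrp.inv_mul_cancel_right (k j) (g j)]
  ring

lemma cca5_ev_one {K : ℝ} (hK : 0 < K) : ∀ᶠ j : ℕ in UU, 1 ≤ K * j ∧ (1 : ℝ) ≤ j := by
  refine UU_le ?_
  have h1 : Tendsto (fun j : ℕ => K * (j : ℝ)) atTop atTop :=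
    tendsto_natCast_atTop_atTop.const_mul_atTop hK
  exact (h1.eventually_ge_atTop 1).and (tendsto_natCast_atTop_atTop.eventually_ge_atTop 1)

lemma cca5_bd : ∃ C, 0 ≤ C ∧ ∀ (K : ℝ) h v h' v', IsSeq D A.a h v → IsSeq D A.a h' v' →
    ‖v‖ < K → ‖v'‖ < K → ∀ᶠ j : ℕ in UU,
      ‖((j : ℝ) ^ 2)⁻¹ * A.cca5Q (h j) (h' j)‖ ≤ C * K ^ 2 := by
  obtain ⟨C, hC0, hC⟩ := A.ko_bd.a1
  refine ⟨6 * C, by positivity, fun K h v h' v' hs hs' hK hK' => ?_⟩
  have hK0 : 0 < K := (norm_nonneg _).trans_lt hK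
  filter_upwards [hs.sm, hs'.sm, hs.bd hK, hs'.bd hK', cca5_ev_one hK0] with j h1 h2 h3 h4 h5
  have key : ∀ c x : D.G, D.sz c ≤ 1 → D.sz x ≤ 1 → ‖A.a c‖ ≤ K * j → ‖A.a x‖ ≤ K * j →
      |A.ko c x| ≤ 3 * C * (K * j) ^ 2 := by
    intro c x hc hx ha hb
    refine (hC c x (K * j) hc hx h5.1 ha hb).trans ?_
    have e1 : K * j * D.sz c ≤ K * j := mul_le_of_le_one_right (by linarith [h5.1]) hc
    have e2 : 1 + ‖A.a c‖ + K * j * D.sz c ≤ 3 * (K * j) := by linarith [h5.1]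
    calc _ ≤ C * (K * j) * (3 * (K * j)) :=
          mul_le_mul_of_nonneg_left e2 (mul_nonneg hC0 (by linarith [h5.1]))
      _ = _ := by ring
  have k1 := key _ _ (D.le1 (h j)) (D.le1 (h' j)) h3 h4
  have k2 := key _ _ (D.le1 (h' j)) (D.le1 (h j)) h4 h3
  have hj : (0 : ℝ) < (j : ℝ) ^ 2 := by have := h5.2; positivity
  rw [Real.norm_eq_abs, abs_mul, abs_of_pos (inv_pos.2 hj), inv_mul_le_iff₀ hj]
  have k3 : |A.cca5Q (h j) (h' j)| ≤ |A.ko (h j) (h' j)| + |A.ko (h' j) (h j)| := abs_sub _ _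
  calc _ ≤ 3 * C * (K * j) ^ 2 + 3 * C * (K * j) ^ 2 := by linarith
    _ = _ := by ring

lemma cca5_lim : ∃ q : E n → E n → ℝ, ∀ h v h' v', IsSeq D A.a h v → IsSeq D A.a h' v' →
    Tendsto (fun j : ℕ => ((j : ℝ) ^ 2)⁻¹ * A.cca5Q (h j) (h' j)) UU (𝓝 (q v v')) := by
  choose s hs using A.exists_seq
  obtain ⟨C, -, hC⟩ := A.cca5_bd
  have hex : ∀ v v', ∃ x, Tendsto (fun j : ℕ => ((j : ℝ) ^ 2)⁻¹ * A.cca5Q (s v j) (s v' j)) UU
      (𝓝 x) := fun v v' => ulim _ (hC (‖v‖ + ‖v'‖ + 1) _ v _ v' (hs v) (hs v')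
        (by linarith [norm_nonneg v']) (by linarith [norm_nonneg v]))
  choose q hq using hex
  refine ⟨q, fun h v h' v' h1 h2 => ?_⟩
  have e1 := A.cca5_indep (hs v) h1 (hs v')
  have e2 := A.cca5_indep (hs v') h2 h1
  have e3 := Tendsto.add (hq v v') (e1.sub e2)
  rw [add_zero] at e3
  refine e3.congr fun j => ?_
  simp only [cca5Q]
  ring

end CA

theorem CA.exists_vp0 (A : CA n D) : ∃ vp : E n →L[ℝ] E n →L[ℝ] ℝ, ∀ h v h' v',
    IsSeq D A.a h v → IsSeq D A.a h' v' →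
      Tendsto (fun j : ℕ => ((j : ℝ) ^ 2)⁻¹ * (A.ko (h j) (h' j) - A.ko (h' j) (h j))) UU
        (𝓝 (vp v v')) := by
  obtain ⟨q, hq⟩ := A.cca5_lim
  obtain ⟨C, hC0, hC⟩ := A.cca5_bd
  choose s hs using A.exists_seq
  have skew : ∀ v w, q w v = -q v w := by
    intro v w
    refine tendsto_nhds_unique (hq _ _ _ _ (hs w) (hs v)) ?_
    refine (hq _ _ _ _ (hs v) (hs w)).neg.congr fun j => ?_
    simp only [CA.cca5Q]
    ring
  have addl : ∀ v v' w, q (v + v') w = q v w + q v' w := by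
    intro v v' w
    refine tendsto_nhds_unique (hq _ _ _ _ (A.seq_mul (hs v) (hs v')) (hs w)) ?_
    have e1 := Tendsto.add (A.cca5_mul (hs v) (hs v') (hs w))
      ((hq _ _ _ _ (hs v) (hs w)).add (hq _ _ _ _ (hs v') (hs w)))
    rw [zero_add] at e1
    refine e1.congr fun j => ?_
    ring
  have bd : ∀ (K : ℝ) v w, ‖v‖ < K → ‖w‖ < K → ‖q v w‖ ≤ C * K ^ 2 := fun K v w h1 h2 =>
    le_of_tendsto (hq _ _ _ _ (hs v) (hs w)).norm (hC K _ _ _ _ (hs v) (hs w) h1 h2)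
  have smull : ∀ (c : ℝ) v w, q (c • v) w = c • q v w := by
    intro c v w
    let f : E n →+ ℝ := AddMonoidHom.mk' (fun v => q v w) fun v v' => addl v v' w
    have hf : Continuous f := by
      refine f.continuous_of_isBounded_nhds_zero (Metric.ball_mem_nhds 0 one_pos) ?_
      refine isBounded_iff_forall_norm_le.2 ⟨C * (‖w‖ + 1) ^ 2, ?_⟩
      rintro _ ⟨x, hx, rfl⟩
      refine bd _ x w ?_ (by linarith)
      have := mem_ball_zero_iff.1 hx
      linarith [norm_nonneg w]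
    exact map_real_smul f hf c v
  refine ⟨(LinearMap.mk₂ ℝ q addl smull ?_ ?_).toContinuousBilinearMap, ?_⟩
  · intro v w w'
    rw [skew (w + w') v, addl, skew w v, skew w' v]
    ring
  · intro c v w
    rw [skew (c • w) v, smull, skew w v]
    simp
  · intro h v h' v' h1 h2
    exact hq h v h' v' h1 h2

theorem CL1.exists_vp (A : CL1 n D) : ∃ (vp : E n →L[ℝ] E n →L[ℝ] ℝ) (c : ℝ), 0 < c ∧
    (∀ v, c * ‖v‖ ^ 2 ≤ |vp v (Complex.I • v)|) ∧
    ∀ (g : D.G) [D.Sm 10 g] v v', vp (A.L g v) (A.L g v') = vp v v' := by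
  obtain ⟨vp, hvp⟩ := A.toCA.exists_vp0
  obtain ⟨c, hc, C, hC0, hC⟩ := A.ko_pos
  choose s hs using A.toCA.exists_seq
  refine ⟨vp, c, hc, fun v => ?_, fun g _ v v' => ?_⟩
  · have h1 := hs v
    have h2 := hs (Complex.I • v)
    set K : ℝ := ‖v‖ + 1 with hK
    have hK1 : ‖v‖ < K := by linarith
    have hK2 : ‖Complex.I • v‖ < K := by rw [norm_smul, Complex.norm_I]; linarith
    have hK0 : 0 < K := (norm_nonneg _).trans_lt hK1
    have t1 : Tendsto (fun j : ℕ => c * ‖(j : ℝ)⁻¹ • A.a (s v j)‖ ^ 2) UU (𝓝 (c * ‖v‖ ^ 2)) :=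
      (h1.2.norm.pow 2).const_mul c
    have t2 := (hvp _ _ _ _ h1 h2).abs
    have t3 := (h2.2.sub (h1.2.const_smul Complex.I)).norm
    have t4 := t2.add (((inv_lim.add t3).add ((h1.1.add h2.1).const_mul K)).const_mul (C * K))
    simp only [sub_self, norm_zero, add_zero, mul_zero] at t4
    refine le_of_tendsto_of_tendsto t1 t4 ?_
    filter_upwards [h1.sm, h2.sm, h1.bd hK1, h2.bd hK2, CA.cca5_ev_one hK0] with j a1 a2 a3 a4 a5
    have a6 := hC _ _ (K * j) (D.le1 (s v j)) (D.le1 (s (Complex.I • v) j)) a5.1 a3 a4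
    have hj : (0 : ℝ) < j := by linarith [a5.2]
    have hj2 : (0 : ℝ) < ((j : ℝ) ^ 2)⁻¹ := by positivity
    have a7 := mul_le_mul_of_nonneg_left a6 hj2.le
    rw [smul_comm Complex.I, ← smul_sub, norm_smul, norm_smul, abs_mul, abs_of_pos hj2,
      Real.norm_eq_abs, abs_of_pos (inv_pos.2 hj)]
    refine le_of_eq_of_le ?_ (a7.trans (le_of_eq ?_))
    · field_simp
    · field_simp
  · have h1 := hs v
    have h2 := hs v'
    have k1 := A.seq_conj g h1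
    have k2 := A.seq_conj g h2
    refine tendsto_nhds_unique (hvp _ _ _ _ k1 k2) ?_
    have e1 := (A.toCA.cca5_br2 h1 h2 (Tm.const g)).sub (A.toCA.cca5_br1 (Tm.const g) k1 k2)
    have e2 := Tendsto.add (hvp _ _ _ _ h1 h2) e1
    rw [add_zero] at e2
    refine e2.congr' ?_
    filter_upwards [h1.sm, h2.sm] with j a1 a2
    rw [A.ko_coc.q_conj g (s v j) (s v' j)]
    ring

end Pool.Agent.CL
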