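import Pool.Agent.K.MP_63735c_ag.C125

/-! A commutator that is central modulo periods is a period. -/

open scoped Matrix
open Set Filter Topology

namespace Pool.Agent.CL

open Pool.Agent.SPF LGrp

variable {n : ℕ} {D : LGrp}

namespace CL1

variable (A : CL1 n D)

/-- The linear form of the commutation relation. -/
def Rel (g h : D.G) : Prop := (∀ v, A.L h (A.L g v) = A.L g (A.L h v)) ∧
  ∀ v, A.th h (A.L g v) + A.th g v = A.th g (A.L h v) + A.th h v

theorem comm_iff : ∃ e > (0 : ℝ), ∀ (g h : D.G) [D.Sm 6 g] [D.Sm 6 h], D.sz g ≤ e → D.sz h ≤ e →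
    (D.sz (comm g h) = 0 ↔ A.Rel g h) := by
  obtain ⟨C, hC, hc⟩ := A.sz_comm
  obtain ⟨e1, he1, hu⟩ := A.u_le_th
  obtain ⟨K, -, hK⟩ := A.sz_le_u
  refine ⟨min 1 (e1 / (C + 1)), lt_min one_pos (by positivity), fun g h _ _ hg hh => ?_⟩
  have hL : ∀ v, A.L h (A.L g v) = A.L (h * g) (A.L (comm g h) v) := fun v => by
    rw [← A.L_mul g h, ← comm_mul g h, A.L_mul (comm g h) (h * g)]
  have hZ : ∀ v, A.Z h (A.L g v) + A.Z g v =
      A.Z (h * g) (A.L (comm g h) v) + A.Z (comm g h) v := fun v => by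
    rw [← A.Z_mul g h, ← comm_mul g h, A.Z_mul (comm g h) (h * g)]
  constructor
  · intro h0
    obtain ⟨m, hm⟩ := A.ι_all _ h0
    refine ⟨fun v => by rw [hL, hm, A.L_per, A.L_mul h g], fun v => ?_⟩
    have h1 := hZ v
    rw [hm, A.L_per, A.Z_per, add_zero, A.Z_mul h g] at h1
    exact congrArg Complex.re h1
  · rintro ⟨r1, r2⟩
    have h1 : ∀ v, A.L (comm g h) v = v := fun v => (A.L_bij (h * g)).1 (by
      rw [← hL, r1, A.L_mul h g])
    have h2 : A.th (comm g h) = 0 := by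
      ext v
      have h3 := hZ v
      rw [h1, A.Z_mul h g] at h3
      have h4 : A.th h (A.L g v) + A.th g v =
        A.th g (A.L h v) + A.th h v + A.th (comm g h) v := congrArg Complex.re h3
      rw [r2] at h4
      simpa using h4
    have h3 : D.sz (comm g h) ≤ e1 := by
      have a := hc g h (D.le1 g) (D.le1 h) (D.le1 _) (D.le1 _) (D.le1 _)
      have b := (le_div_iff₀ (by positivity)).1 (hg.trans (min_le_right _ _))
      have c := D.le1 h
      have d := mul_nonneg hC (D.sz_nonneg g)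
      nlinarith [D.sz_nonneg g]
    have h4 := hu (comm g h) h3
    rw [h2, norm_zero, mul_zero] at h4
    have h5 := hK (comm g h) fun v => by
      rw [h1, sub_self]
      exact zero_mem _
    rw [le_antisymm h4 (norm_nonneg _), mul_zero] at h5
    exact le_antisymm h5 (D.sz_nonneg _)

theorem X_of_comm (g : D.G) [D.Sm 12 g] {e : ℝ} (he : 0 < e)
    (h : ∀ k, D.sz k ≤ e → D.sz (comm g k) = 0) (v : E n) : A.L g v - v ∈ A.V0 := by
  obtain ⟨k, hk⟩ := A.exists_seq v
  have h1 : ∀ᶠ j in UU, comm g (k j) = A.ι (A.cm g (k j)) := (hk.le he).mono fun j hj => by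
    have h2 := A.ι_all _ (h _ hj)
    rw [CA.cm, dif_pos h2]
    exact h2.choose_spec
  simpa using neg_mem (A.V0_lim (A.cm_lim g hk h1))

theorem cca6_onto {vp : E n →L[ℝ] E n →L[ℝ] ℝ} (h : Function.Injective vp) :
    Function.Surjective vp :=
  (LinearMap.injective_iff_surjective_of_finrank_eq_finrank (f := (vp : E n →ₗ[ℝ] E n →L[ℝ] ℝ))
    (Subspace.dual_finrank_eq.symm.trans LinearMap.toContinuousLinearMap.finrank_eq)).1 h

include A in
theorem no_central : ∃ e0 > (0 : ℝ), ∀ e, 0 < e → e ≤ e0 → ∀ s c : D.G, D.sz s ≤ e → D.sz c ≤ e →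
    D.sz (comm s c) ≤ e → (∀ k, D.sz k ≤ e → D.sz (comm (comm s c) k) = 0) →
      D.sz (comm s c) = 0 := by
  obtain ⟨e1, he1, hrel⟩ := A.comm_iff
  obtain ⟨e2, he2, hu⟩ := A.u_le_th
  obtain ⟨K, -, hK⟩ := A.sz_le_u
  obtain ⟨C, hC, hI⟩ := A.th_I
  obtain ⟨Cu, hCu, hul⟩ := A.u_le
  obtain ⟨vp, c0, hc0, hpos, hinv⟩ := A.exists_vp
  have hM : 0 ≤ C * Cu * (2 * ‖vp‖) := by positivity
  refine ⟨min (min D.b e1) (min e2 (c0 / (C * Cu * (2 * ‖vp‖) + 1))),
    lt_min (lt_min D.b_pos he1) (lt_min he2 (by positivity)), fun e he hle s c hs hc hz hcen => ?_⟩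
  simp only [le_min_iff] at hle
  obtain ⟨⟨l1, l2⟩, l3, l4⟩ := hle
  have := D.sm0 (hs.trans l1)
  have := D.sm0 (hc.trans l1)
  have := D.sm0 (hz.trans l1)
  have hX := A.X_of_comm (comm s c) he hcen
  have hinj : Function.Injective vp := (injective_iff_map_eq_zero vp).2 fun v hv => by
    have h1 := hpos v
    rw [hv, zero_apply, abs_zero] at h1
    have h2 : ‖v‖ ^ 2 ≤ 0 := by
      by_contra h3
      exact absurd h1 (not_le.2 (mul_pos hc0 (not_le.1 h3)))
    exact norm_eq_zero.1 (pow_eq_zero_iff two_ne_zero |>.1 (le_antisymm h2 (sq_nonneg _)))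
  obtain ⟨va, hva⟩ := cca6_onto hinj (A.th (comm s c))
  have hfix : ∀ k, D.sz k ≤ e → A.L k va = va := fun k hk => by
    have := D.sm0 (hk.trans l1)
    have r := ((hrel (comm s c) k (hz.trans l2) (hk.trans l2)).1 (hcen k hk)).2
    refine hinj (ContinuousLinearMap.ext fun w => ?_)
    obtain ⟨w, rfl⟩ := (A.L_bij k).2 w
    have h1 : A.th k (A.L (comm s c) w - w) = 0 := congrArg Complex.re (A.Z_V0 k (hX w))
    have h2 := r w
    rw [map_sub] at h1
    rw [hinv k, hva]
    linarith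
  have hZ : A.Z (comm s c) va = 0 := by
    have h1 := A.Z_mul (comm s c) (c * s) va
    rw [comm_mul s c, hfix _ hz, A.Z_mul s c, A.Z_mul c s, hfix s hs, hfix c hc,
      add_comm (A.Z c va)] at h1
    simpa using h1
  have h1 := hI (comm s c) va hZ
  have h2 := hpos va
  have h3 := hu (comm s c) (hz.trans l3)
  have h4 := (hul (comm s c) (D.le1 _)).trans (mul_le_mul_of_nonneg_left hz hCu)
  have h5 := vp.le_opNorm va
  rw [hva] at h2 h5
  have h6 := (le_div_iff₀ (by positivity)).1 l4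
  have h7 : ‖A.u (comm s c)‖ ^ 2 ≤ Cu * e * (2 * (‖vp‖ * ‖va‖)) := by
    rw [sq]
    exact mul_le_mul h4 (by linarith) (norm_nonneg _) (by positivity)
  have h8 := mul_le_mul_of_nonneg_right (mul_le_mul_of_nonneg_left h7 hC) (norm_nonneg va)
  have h9 : ‖va‖ ^ 2 ≤ 0 := by
    have := mul_le_mul_of_nonneg_right h6 (sq_nonneg ‖va‖)
    by_contra h
    have := mul_pos he (not_le.1 h)
    nlinarith
  have h10 : ‖va‖ = 0 := (pow_eq_zero_iff two_ne_zero).1 (le_antisymm h9 (sq_nonneg _))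
  have h11 : ‖A.u (comm s c)‖ = 0 := by
    rw [h10, mul_zero] at h5
    exact le_antisymm (by linarith) (norm_nonneg _)
  have h12 := hK (comm s c) hX
  rw [h11, mul_zero] at h12
  exact le_antisymm h12 (D.sz_nonneg _)

end CL1

end Pool.Agent.CL
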