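import Pool.Agent.K.MP_63735c_ag.C124
import Pool.Agent.K.MP_63735c_ag.C128

/-! Ordered products. -/

open scoped Matrix
open Set Filter Topology

namespace Pool.Agent.CL

open Pool.Agent.SPF LGrp

variable {n : ℕ} {D : LGrp}

variable {A : CL1 n D}

theorem IsCB.th_mul (hB : IsCB A) (g h : D.G) [D.Sm 11 g] [D.Sm 11 h] :
    A.th (g * h) = A.th g + A.th h := by
  ext v
  have h1 : A.Z h (A.L g v - v) = 0 := A.Z_V0 h (hB.X_mem g v)
  rw [map_sub, sub_eq_zero] at h1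
  simp only [CL1.th, _root_.add_apply, ContinuousLinearMap.comp_apply]
  rw [A.Z_mul g h v, h1, map_add, add_comm]

lemma cca8_th_one (A : CL1 n D) : A.th 1 = 0 := by
  rw [← A.toCA.ι_zero]
  exact A.th_per 0

theorem IsCB.th_inv (hB : IsCB A) (g : D.G) [D.Sm 10 g] : A.th g⁻¹ = -A.th g := by
  have h1 := hB.th_mul g⁻¹ g
  rw [LGrp.inv_mul g, cca8_th_one] at h1
  exact eq_neg_of_add_eq_zero_left h1.symm

theorem IsCB.per_of_th (hB : IsCB A) (g : D.G) [D.Sm 12 g] (h : A.th g = 0) :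
    ∃ m, g = A.ι m := by
  obtain ⟨C, -, hC⟩ := hB.sz_th
  have h1 := hC g
  rw [h, norm_zero, mul_zero] at h1
  exact A.ι_all g (le_antisymm h1 (D.sz_nonneg g))

theorem Addv.one {B : Type} [AddCommGroup B] {F : D.G → B} (h : Addv D F) : F 1 = 0 := by
  have h0 : D.sz 1 ≤ D.b := by
    rw [D.sz_one]
    exact D.b_pos.le
  have h1 := h 1 1 h0 h0
  rw [LGrp.one_mul (1 : D.G)] at h1
  exact left_eq_add.mp h1

theorem Addv.inv {B : Type} [AddCommGroup B] {F : D.G → B} (h : Addv D F) {g : D.G}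
    (hg : D.sz g ≤ D.b) (hg' : D.sz g⁻¹ ≤ D.b) : F g⁻¹ = -F g := by
  have := D.sm0 hg
  have h1 := h g⁻¹ g hg' hg
  rw [LGrp.inv_mul g, h.one] at h1
  exact eq_neg_of_add_eq_zero_left h1.symm

lemma cca8_fold (hB : IsCB A) {Cs Cm t : ℝ} (hs0 : 0 ≤ Cs) (hm0 : 0 ≤ Cm)
    (hs : ∀ (g : D.G) [D.Sm 12 g], D.sz g ≤ Cs * ‖A.th g‖)
    (hm : ∀ (g h : D.G) [D.Sm 15 g] [D.Sm 15 h],
      ‖A.a (g * h) - A.a g - A.a h‖ ≤ Cm * D.sz h * (1 + ‖A.a g‖))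
    (ht : Cs * t ≤ D.b) (l : List D.G) (hl : ∀ g ∈ l, D.sz g ≤ D.b)
    (hd : ∀ k, ‖((l.drop k).map A.th).sum‖ ≤ t) :
    ∃ p : D.G, D.sz p ≤ D.b ∧ A.th p = (l.map A.th).sum ∧
      ‖A.a p‖ ≤ (1 + Cm) * (l.map fun g => 1 + ‖A.a g‖).sum ∧
      ∀ (B : Type) [AddCommGroup B] (F : D.G → B), Addv D F → F p = (l.map F).sum := by
  induction l with
  | nil =>
    refine ⟨1, ?_, ?_, ?_, ?_⟩
    · rw [D.sz_one]
      exact D.b_pos.le
    · simpa using cca8_th_one A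
    · simp [A.a_one]
    · intro B _ F hF
      simpa using hF.one
  | cons g l ih =>
    obtain ⟨p, hp, hth, ha, hF⟩ := ih (fun x hx => hl x (List.mem_cons_of_mem g hx))
      (fun k => by simpa using hd (k + 1))
    have hg : D.sz g ≤ D.b := hl g List.mem_cons_self
    have := D.sm0 hg
    have := D.sm0 hp
    have h1 : A.th (g * p) = ((g :: l).map A.th).sum := by
      rw [hB.th_mul g p, hth, List.map_cons, List.sum_cons]
    refine ⟨g * p, ?_, h1, ?_, ?_⟩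
    · have h2 : ‖A.th (g * p)‖ ≤ t := by
        rw [h1]
        simpa using hd 0
      exact (hs (g * p)).trans ((mul_le_mul_of_nonneg_left h2 hs0).trans ht)
    · have h2 := hm g p
      have h3 : D.sz p ≤ 1 := D.le1 p
      have h4 : 0 ≤ 1 + ‖A.a g‖ := by positivity
      have h5 : Cm * D.sz p * (1 + ‖A.a g‖) ≤ Cm * (1 + ‖A.a g‖) :=
        mul_le_mul_of_nonneg_right (mul_le_of_le_one_right hm0 h3) h4
      have h6 : ‖A.a (g * p)‖ ≤ ‖A.a (g * p) - A.a g - A.a p‖ + ‖A.a g‖ + ‖A.a p‖ := by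
        calc ‖A.a (g * p)‖ = ‖A.a (g * p) - A.a g - A.a p + A.a g + A.a p‖ := by
              congr 1
              abel
          _ ≤ _ := norm_add₃_le
      rw [List.map_cons, List.sum_cons]
      nlinarith
    · intro B _ F hFa
      rw [hFa g p hg hp, hF B F hFa, List.map_cons, List.sum_cons]

theorem IsCB.prod_ord (hB : IsCB A) : ∃ d0 > (0 : ℝ), ∃ C, 0 ≤ C ∧ ∀ d, 0 < d → d ≤ d0 →
    (∀ g ∈ A.S d, g⁻¹ ∈ A.S d ∧ 1 + ‖A.a g⁻¹‖ ≤ C * (1 + ‖A.a g‖)) ∧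
    ∀ l : List D.G, (∀ g ∈ l, g ∈ A.S d) → ‖(l.map A.th).sum‖ ≤ d →
      ∃ p ∈ A.S d, A.th p = (l.map A.th).sum ∧
        ‖A.a p‖ ≤ C * (l.map fun g => 1 + ‖A.a g‖).sum ∧
        ∀ (B : Type) [AddCommGroup B] (F : D.G → B), Addv D F → F p = (l.map F).sum := by
  obtain ⟨Cs, hs0, hs⟩ := hB.sz_th
  obtain ⟨Cm, hm0, hm⟩ := A.toCA.a_mul
  obtain ⟨Ci, hi0, hi⟩ := A.toCA.a_inv
  obtain ⟨N, hN⟩ : ∃ N : ℝ, N = (Module.finrank ℝ (E n →L[ℝ] ℝ) : ℝ) + 1 := ⟨_, rfl⟩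
  have hN1 : 1 ≤ N := by
    rw [hN]
    exact le_add_of_nonneg_left (Nat.cast_nonneg _)
  have hb := D.b_pos
  have hK : 0 < Cs * N + 1 := by positivity
  refine ⟨D.b / (Cs * N + 1), div_pos hb hK, 1 + Cm + Ci, by positivity, fun d hd hd0 => ?_⟩
  have h1 : Cs * (N * d) ≤ D.b := by
    rw [le_div_iff₀ hK] at hd0
    nlinarith
  have h2 : Cs * d ≤ D.b :=
    (mul_le_mul_of_nonneg_left (le_mul_of_one_le_left hd.le hN1) hs0).trans h1
  refine ⟨fun g hg => ?_, fun l hl hsum => ?_⟩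
  · have := D.sm0 hg.1
    have h3 : ‖A.th g⁻¹‖ ≤ d := by
      rw [hB.th_inv g, norm_neg]
      exact hg.2
    refine ⟨⟨(hs g⁻¹).trans ((mul_le_mul_of_nonneg_left h3 hs0).trans h2), h3⟩, ?_⟩
    have h4 := hi g
    have h5 : D.sz g ≤ 1 := D.le1 g
    have h6 : 0 ≤ 1 + ‖A.a g‖ := by positivity
    have h7 : Ci * D.sz g * (1 + ‖A.a g‖) ≤ Ci * (1 + ‖A.a g‖) :=
      mul_le_mul_of_nonneg_right (mul_le_of_le_one_right hi0 h5) h6
    have h8 : ‖A.a g⁻¹‖ ≤ ‖A.a g⁻¹ + A.a g‖ + ‖A.a g‖ := by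
      calc ‖A.a g⁻¹‖ = ‖A.a g⁻¹ + A.a g - A.a g‖ := by rw [add_sub_cancel_right]
        _ ≤ _ := norm_sub_le _ _
    have h9 := mul_nonneg hm0 h6
    nlinarith
  · obtain ⟨l', hp, hdrop⟩ := steinitz A.th l (fun g hg => (hl g hg).2) hsum
    rw [← hN] at hdrop
    obtain ⟨p, hpb, hth, ha, hF⟩ := cca8_fold hB hs0 hm0 hs hm h1 l'
      (fun g hg => (hl g (hp.mem_iff.mp hg)).1) hdrop
    rw [(hp.map _).sum_eq] at hth ha
    refine ⟨p, ⟨hpb, ?_⟩, hth, ha.trans ?_, fun B _ F hFa => ?_⟩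
    · rw [hth]
      exact hsum
    · refine mul_le_mul_of_nonneg_right (by linarith) (List.sum_nonneg fun x hx => ?_)
      obtain ⟨g, -, rfl⟩ := List.mem_map.mp hx
      positivity
    · rw [hF B F hFa, (hp.map _).sum_eq]

theorem IsCB.gp_fin (hB : IsCB A) {d : ℝ} (hd : 0 < d) :
    ∃ (Φ : Finset (E n →L[ℝ] ℝ)) (C : ℝ), 0 ≤ C ∧
      (∀ x ∈ Φ, x ∈ AddSubgroup.closure (A.th '' A.S d)) ∧ ∀ g ∈ A.S d,
        ∃ l : List (E n →L[ℝ] ℝ), (∀ x ∈ l, x ∈ Φ) ∧ l.sum = A.th g ∧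
          (l.length : ℝ) ≤ C * (1 + ‖A.a g‖) := by
  obtain ⟨e1, he1, hS⟩ := A.mem_S hd
  obtain ⟨e2, he2, Cl, hl0, hl⟩ := A.toCA.a_left
  obtain ⟨Cs, hsyn⟩ := A.syn (min e1 e2) (lt_min he1 he2)
  have hs0 : 0 ≤ Cs := by
    obtain ⟨g, -, hg⟩ := hsyn 0
    exact (norm_nonneg _).trans hg
  have hfin : ((A.th '' {g : D.G | ‖A.a g‖ ≤ 4 * Cs + 2 + Cl}) ∩
      (AddSubgroup.closure (A.th '' A.S d) : Set (E n →L[ℝ] ℝ))).Finite :=
    ((A.toCA.fin _).image _).inter_of_left _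
  have key : ∀ M : ℕ, ∀ g ∈ A.S d, ∀ ξ : E n, ‖ξ‖ ≤ M → ‖A.a g - ξ‖ ≤ Cs →
      ∃ l : List (E n →L[ℝ] ℝ), (∀ x ∈ l, x ∈ hfin.toFinset) ∧ l.sum = A.th g ∧
        l.length ≤ M + 1 := by
    intro M
    induction M with
    | zero =>
      intro g hg ξ hξ ha
      have h0 : ξ = 0 := norm_le_zero_iff.mp (by simpa using hξ)
      rw [h0, sub_zero] at ha
      refine ⟨[A.th g], fun x hx => ?_, by simp, by simp⟩
      rw [List.mem_singleton.mp hx, Set.Finite.mem_toFinset]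
      exact ⟨⟨g, show ‖A.a g‖ ≤ _ by linarith, rfl⟩, AddSubgroup.subset_closure ⟨g, hg, rfl⟩⟩
    | succ M ih =>
      intro g hg ξ hξ ha
      have hM : (0 : ℝ) < (M : ℝ) + 1 := by positivity
      have hξ' : ‖ξ‖ ≤ (M : ℝ) + 1 := by simpa using hξ
      have h1 : ‖((M : ℝ) / (M + 1)) • ξ‖ ≤ M := by
        rw [norm_smul, Real.norm_of_nonneg (by positivity), div_mul_eq_mul_div, div_le_iff₀ hM]
        exact mul_le_mul_of_nonneg_left hξ' (Nat.cast_nonneg M)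
      have h2 : ‖ξ - ((M : ℝ) / (M + 1)) • ξ‖ ≤ 1 := by
        have h3 : ξ - ((M : ℝ) / (M + 1)) • ξ = (1 / ((M : ℝ) + 1)) • ξ := by
          have h4 : (1 / ((M : ℝ) + 1)) = 1 - (M : ℝ) / (M + 1) := by
            field_simp
            ring
          rw [h4, sub_smul, one_smul]
        rw [h3, norm_smul, Real.norm_of_nonneg (by positivity), div_mul_eq_mul_div, _root_.one_mul,
          div_le_one hM]
        exact hξ'
      obtain ⟨g', hg'e, hg'a⟩ := hsyn (((M : ℝ) / (M + 1)) • ξ)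
      have hg' : g' ∈ A.S d := hS g' (hg'e.trans (min_le_left _ _))
      obtain ⟨l, hlΦ, hls, hll⟩ := ih g' hg' _ h1 hg'a
      have := D.sm0 hg.1
      have := D.sm0 hg'.1
      have h5 : A.th (g * g'⁻¹) = A.th g - A.th g' := by
        rw [hB.th_mul g g'⁻¹, hB.th_inv g', sub_eq_add_neg]
      have h6 := hl (g * g'⁻¹) g' (hg'e.trans (min_le_right _ _))
      rw [LGrp.inv_mul_cancel_right g g'] at h6
      have h7 : ‖A.a g - A.a g'‖ ≤ Cs + 1 + Cs := by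
        calc ‖A.a g - A.a g'‖ = ‖(A.a g - ξ) + (ξ - ((M : ℝ) / (M + 1)) • ξ) -
              (A.a g' - ((M : ℝ) / (M + 1)) • ξ)‖ := by
              congr 1
              abel
          _ ≤ ‖(A.a g - ξ) + (ξ - ((M : ℝ) / (M + 1)) • ξ)‖ +
              ‖A.a g' - ((M : ℝ) / (M + 1)) • ξ‖ := norm_sub_le _ _
          _ ≤ Cs + 1 + Cs := add_le_add ((norm_add_le _ _).trans (add_le_add ha h2)) hg'a
      have h8 : Cl * D.sz g' ≤ Cl := mul_le_of_le_one_right hl0 (D.le1 g')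
      refine ⟨A.th (g * g'⁻¹) :: l, fun x hx => ?_, ?_, ?_⟩
      · rcases List.mem_cons.mp hx with rfl | hx
        · rw [Set.Finite.mem_toFinset]
          refine ⟨⟨g * g'⁻¹, show ‖A.a (g * g'⁻¹)‖ ≤ _ by linarith, rfl⟩, ?_⟩
          rw [h5]
          exact AddSubgroup.sub_mem _ (AddSubgroup.subset_closure ⟨g, hg, rfl⟩)
            (AddSubgroup.subset_closure ⟨g', hg', rfl⟩)
        · exact hlΦ x hx
      · rw [List.sum_cons, hls, h5, sub_add_cancel]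
      · rw [List.length_cons]
        omega
  refine ⟨hfin.toFinset, 2, by norm_num, fun x hx => (hfin.mem_toFinset.mp hx).2, fun g hg => ?_⟩
  obtain ⟨l, h1, h2, h3⟩ := key ⌈‖A.a g‖⌉₊ g hg (A.a g) (Nat.le_ceil _) (by simpa using hs0)
  refine ⟨l, h1, h2, ?_⟩
  have h4 : (l.length : ℝ) ≤ (⌈‖A.a g‖⌉₊ : ℝ) + 1 := by exact_mod_cast h3
  have h5 := Nat.ceil_lt_add_one (norm_nonneg (A.a g))
  have h6 := norm_nonneg (A.a g)
  linarith

end Pool.Agent.CL
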