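import Pool.Agent.K.MP_63735c_ag.C2

/-! Rational skew forms with an irrational isotropic subspace. -/

open scoped ContDiff Matrix ENNReal
open Set Metric MeasureTheory Filter Topology

namespace Pool.Agent.CL

open Pool.Agent.SPF

/-- the annihilator for the dot product -/
def cllaAnn {r : ℕ} (F : Submodule ℝ (Fin r → ℝ)) : Submodule ℝ (Fin r → ℝ) where
  carrier := {l | ∀ f ∈ F, l ⬝ᵥ f = 0}
  add_mem' := fun {a b} ha hb f hf => by rw [add_dotProduct, ha f hf, hb f hf, add_zero]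
  zero_mem' := fun f _ => zero_dotProduct f
  smul_mem' := fun c a ha f hf => by rw [smul_dotProduct, ha f hf, smul_zero]

theorem clla_mem {r : ℕ} (F : Submodule ℝ (Fin r → ℝ)) (w : Fin r → ℝ)
    (h : ∀ l ∈ cllaAnn F, l ⬝ᵥ w = 0) : w ∈ F := by
  by_contra hw
  obtain ⟨φ, h1, h2⟩ := Submodule.exists_le_ker_of_notMem hw
  have k : ∀ v, (fun i => φ (Pi.single i 1)) ⬝ᵥ v = φ v := fun v => by
    rw [LinearMap.pi_apply_eq_sum_univ φ v, dotProduct]
    refine Finset.sum_congr rfl fun i _ => ?_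
    rw [smul_eq_mul, mul_comm]
    congr 2
    funext j
    simp [Pi.single_apply, eq_comm]
  exact h1 ((k w).symm.trans (h _ fun f hf => (k f).trans (h2 hf)))

theorem clla_norm {r : ℕ} (A : Matrix (Fin r) (Fin r) ℝ) {ε : ℝ} (hε : 0 ≤ ε)
    (h : ∀ a b, |A a b| ≤ ε) (v : Fin r → ℝ) : ‖A *ᵥ v‖ ≤ r * ε * ‖v‖ := by
  refine (pi_norm_le_iff_of_nonneg (by positivity)).2 fun a => ?_
  calc ‖(A *ᵥ v) a‖ = ‖∑ b, A a b * v b‖ := rfl
    _ ≤ ∑ b, ‖A a b * v b‖ := norm_sum_le _ _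
    _ ≤ ∑ _b : Fin r, ε * ‖v‖ := Finset.sum_le_sum fun b _ => by
        rw [norm_mul]
        exact mul_le_mul (h a b) (norm_le_pi_norm v b) (norm_nonneg _) hε
    _ = r * ε * ‖v‖ := by simp [mul_assoc]

theorem la1 {r : ℕ} (F : Submodule ℝ (Fin r → ℝ)) (M : Matrix (Fin r) (Fin r) ℝ)
    (hF : ∀ w : Fin r → ℤ, (fun i => (w i : ℝ)) ∈ F → w = 0)
    (onto : ∀ l : Fin r → ℝ, (∀ f ∈ F, l ⬝ᵥ f = 0) → ∃ f ∈ F, M *ᵥ f = l)
    (ker : ∃ f ∈ F, f ≠ 0 ∧ M *ᵥ f = 0)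
    (app : ∀ ε > (0 : ℝ), ∃ (K : Matrix (Fin r) (Fin r) ℤ) (N : ℝ), 0 < N ∧ Kᵀ = -K ∧
      (∀ a b, |(K a b : ℝ) / N - M a b| ≤ ε) ∧
      ∀ f ∈ F, ∀ f' ∈ F, f' ⬝ᵥ (K.map (Int.cast : ℤ → ℝ)) *ᵥ f = 0) : False := by
  obtain ⟨f₀, hf₀, hne, hM⟩ := ker
  let F₀ : Submodule ℝ (Fin r → ℝ) := F ⊓ (cllaAnn F).comap M.mulVecLin
  let m : F₀ →ₗ[ℝ] cllaAnn F := M.mulVecLin.restrict fun x hx => hx.2
  have hm : LinearMap.range m = ⊤ := LinearMap.range_eq_top.2 fun l => by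
    obtain ⟨f, h1, h2⟩ := onto l.1 l.2
    exact ⟨⟨f, h1, by
      change M *ᵥ f ∈ cllaAnn F
      rw [h2]
      exact l.2⟩, Subtype.ext h2⟩
  obtain ⟨s₀, hs₀⟩ := m.exists_rightInverse_of_surjective hm
  let s : cllaAnn F →ₗ[ℝ] (Fin r → ℝ) := F₀.subtype ∘ₗ s₀
  have hsF : ∀ l, s l ∈ F := fun l => (s₀ l).2.1
  have hsM : ∀ l, M *ᵥ s l = l.1 := fun l =>
    congrArg Subtype.val (LinearMap.congr_fun hs₀ l)
  obtain ⟨C, hC, hs⟩ : ∃ C > (0 : ℝ), ∀ l, ‖s l‖ ≤ C * ‖l‖ :=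
    ⟨‖LinearMap.toContinuousLinearMap s‖ + 1, by positivity, fun l =>
      ((LinearMap.toContinuousLinearMap s).le_opNorm l).trans
        (mul_le_mul_of_nonneg_right (by linarith) (norm_nonneg _))⟩
  obtain ⟨K, N, hN, hK, h1, h2⟩ := app (1 / (2 * (r + 1) * C)) (by positivity)
  set K' := K.map (Int.cast : ℤ → ℝ) with hK'
  have hG : ∀ f ∈ F, K' *ᵥ f ∈ cllaAnn F := fun f hf f' hf' => by
    rw [dotProduct_comm]
    exact h2 f hf f' hf'
  let t : cllaAnn F →ₗ[ℝ] cllaAnn F :=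
    (K'.mulVecLin ∘ₗ s).codRestrict _ fun l => hG _ (hsF l)
  have ht : Function.Injective t := by
    refine (injective_iff_map_eq_zero t).2 fun l hl => ?_
    have e : K' *ᵥ s l = 0 := congrArg Subtype.val hl
    have b := clla_norm (N⁻¹ • K' - M) (ε := 1 / (2 * (r + 1) * C)) (by positivity)
      (fun a b => by
        have := h1 a b
        rwa [div_eq_inv_mul] at this) (s l)
    rw [Matrix.sub_mulVec, Matrix.smul_mulVec, e, smul_zero, zero_sub, norm_neg, hsM] at b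
    have b2 : (r : ℝ) * (1 / (2 * (r + 1) * C)) * ‖s l‖ ≤ 1 / 2 * ‖l‖ := by
      refine (mul_le_mul_of_nonneg_left (hs l) (by positivity)).trans ?_
      rw [← mul_assoc]
      refine mul_le_mul_of_nonneg_right ?_ (norm_nonneg _)
      rw [mul_one_div, div_mul_eq_mul_div, div_le_div_iff₀ (by positivity) (by positivity)]
      have : (0 : ℝ) ≤ r := Nat.cast_nonneg r
      nlinarith
    have b3 : ‖l‖ = ‖l.1‖ := rfl
    have b4 := norm_nonneg l
    exact norm_eq_zero.1 (by linarith)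
  have hsur : ∀ l ∈ cllaAnn F, ∃ l', K' *ᵥ s l' = l := fun l hl => by
    obtain ⟨l', h⟩ := LinearMap.surjective_of_injective ht ⟨l, hl⟩
    exact ⟨l', congrArg Subtype.val h⟩
  obtain ⟨l₀, hl₀⟩ := hsur _ (hG f₀ hf₀)
  have hd : K'.det = 0 := Matrix.exists_mulVec_eq_zero_iff.1 ⟨f₀ - s l₀, fun e => by
    have e' : f₀ = s l₀ := sub_eq_zero.1 e
    have : l₀ = 0 := Subtype.ext (by rw [← hsM, ← e', hM]; rfl)
    rw [this, map_zero] at e'
    exact hne e', by rw [Matrix.mulVec_sub, hl₀, sub_self]⟩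
  have hd' : K.det = 0 := by
    have := Int.cast_det (R := ℝ) K
    exact Int.cast_eq_zero.1 (this.trans hd)
  obtain ⟨w, hw, hKw⟩ := Matrix.exists_mulVec_eq_zero_iff.2 hd'
  have hKw' : K' *ᵥ (fun i => (w i : ℝ)) = 0 := by
    funext a
    have := congrArg (Int.cast : ℤ → ℝ) (congrFun hKw a)
    simpa [Matrix.mulVec, dotProduct, hK'] using this
  have hT : K'ᵀ = -K' := by
    ext a b
    have := congrArg (Int.cast : ℤ → ℝ) (congrFun (congrFun hK a) b)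
    simpa [hK'] using this
  refine hw (hF w (clla_mem F _ fun l hl => ?_))
  obtain ⟨l', rfl⟩ := hsur l hl
  rw [dotProduct_comm, Matrix.dotProduct_mulVec, ← Matrix.mulVec_transpose, hT, Matrix.neg_mulVec,
    hKw', neg_zero, zero_dotProduct]

end Pool.Agent.CL
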