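import Pool.Agent.K.MP_63735c_ag.C120
import Pool.Agent.K.MP_63735c_ag.C130

/-! Linear algebra over the integers. -/

open scoped Matrix
open Set Filter Topology

namespace Pool.Agent.CL

open Pool.Agent.SPF LGrp

variable {n : ℕ} {D : LGrp}

/-- Pairs with the addition twisted by `κ`. -/
structure Cca9E {r : ℕ} (κ : (Fin r → ℤ) → (Fin r → ℤ) → ℝ) where
  x : Fin r → ℤ
  s : ℝ

lemma cca9_ext {r : ℕ} {κ : (Fin r → ℤ) → (Fin r → ℤ) → ℝ} {a b : Cca9E κ} (h1 : a.x = b.x)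
    (h2 : a.s = b.s) : a = b := by
  cases a
  cases b
  congr

lemma cca9_exists {r : ℕ} (κ : (Fin r → ℤ) → (Fin r → ℤ) → ℝ)
    (hc : ∀ x y z, κ x y + κ (x + y) z = κ x (y + z) + κ y z) (hs : ∀ x y, κ x y = κ y x)
    (h0 : ∀ x, κ 0 x = 0) :
    ∃ t : (Fin r → ℤ) → ℝ, ∀ x y, t (x + y) = t x + t y + κ x y := by
  let : Add (Cca9E κ) := ⟨fun a b => ⟨a.x + b.x, a.s + b.s + κ a.x b.x⟩⟩
  let : Zero (Cca9E κ) := ⟨⟨0, 0⟩⟩
  let : Neg (Cca9E κ) := ⟨fun a => ⟨-a.x, -a.s - κ (-a.x) a.x⟩⟩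
  let G : AddGroup (Cca9E κ) := AddGroup.ofLeftAxioms
    (fun a b c => cca9_ext (add_assoc a.x b.x c.x) (by
      change a.s + b.s + κ a.x b.x + c.s + κ (a.x + b.x) c.x =
        a.s + (b.s + c.s + κ b.x c.x) + κ a.x (b.x + c.x)
      linarith [hc a.x b.x c.x]))
    (fun a => cca9_ext (zero_add a.x) (by
      change 0 + a.s + κ 0 a.x = a.s
      rw [h0]; ring))
    (fun a => cca9_ext (neg_add_cancel a.x) (by
      change -a.s - κ (-a.x) a.x + a.s + κ (-a.x) a.x = 0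
      ring))
  let : AddCommGroup (Cca9E κ) :=
    { G with
      add_comm := fun a b => cca9_ext (add_comm a.x b.x) (by
        change a.s + b.s + κ a.x b.x = b.s + a.s + κ b.x a.x
        rw [hs a.x b.x]; ring) }
  let p : Cca9E κ →+ (Fin r → ℤ) := AddMonoidHom.mk' (fun a => a.x) fun _ _ => rfl
  let σ : (Fin r → ℤ) →ₗ[ℤ] Cca9E κ :=
    Fintype.linearCombination ℤ fun l => (⟨Pi.single l 1, 0⟩ : Cca9E κ)
  have h1 : ∀ x, (σ x).x = x := by
    intro x
    change p (σ x) = x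
    rw [Fintype.linearCombination_apply, map_sum]
    simp only [map_zsmul]
    exact (pi_eq_sum_univ' x).symm
  refine ⟨fun x => (σ x).s, fun x y => ?_⟩
  have h2 : (σ x + σ y).s = (σ x).s + (σ y).s + κ (σ x).x (σ y).x := rfl
  rw [h1, h1] at h2
  simp only [map_add]
  exact h2

lemma cca9_step {r : ℕ} {x : Fin r → ℤ} {N : ℕ} (h : ∑ l, (x l).natAbs = N + 1) :
    ∃ (l : Fin r) (s : Bool), ∑ k, ((x - Pi.single l (if s then 1 else -1) : Fin r → ℤ) k).natAbs
      = N := by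
  obtain ⟨l, hl⟩ : ∃ l, x l ≠ 0 := by
    by_contra hh
    push Not at hh
    simp [hh] at h
  have key : ∀ c : ℤ, (x l - c).natAbs + 1 = (x l).natAbs →
      ∑ k, ((x - Pi.single l c : Fin r → ℤ) k).natAbs = N := by
    intro c hc
    rw [← Finset.add_sum_erase _ _ (Finset.mem_univ l)] at h ⊢
    have e : ∑ k ∈ Finset.univ.erase l, ((x - Pi.single l c : Fin r → ℤ) k).natAbs =
        ∑ k ∈ Finset.univ.erase l, (x k).natAbs :=
      Finset.sum_congr rfl fun k hk => by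
        rw [Pi.sub_apply, Pi.single_eq_of_ne (Finset.ne_of_mem_erase hk), sub_zero]
    rw [e, Pi.sub_apply, Pi.single_eq_same]
    omega
  rcases lt_or_gt_of_ne hl with h1 | h1
  · exact ⟨l, false, key (-1) (by omega)⟩
  · exact ⟨l, true, key 1 (by omega)⟩

lemma cca9_norm {r : ℕ} (x : Fin r → ℤ) : ‖cz x‖ ≤ ((∑ l, (x l).natAbs : ℕ) : ℝ) ∧
    ((∑ l, (x l).natAbs : ℕ) : ℝ) ≤ r * ‖cz x‖ := by
  have e : ∀ k, (((x k).natAbs : ℕ) : ℝ) = ‖cz x k‖ := fun k => by
    rw [Nat.cast_natAbs, Int.cast_abs]; rfl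
  constructor
  · refine (pi_norm_le_iff_of_nonneg (Nat.cast_nonneg _)).2 fun k => ?_
    rw [← e]
    exact Nat.cast_le.2 (Finset.single_le_sum (f := fun l => (x l).natAbs)
      (fun _ _ => Nat.zero_le _) (Finset.mem_univ k))
  · rw [Nat.cast_sum]
    have := Finset.sum_le_card_nsmul Finset.univ (fun l => (((x l).natAbs : ℕ) : ℝ)) ‖cz x‖
      fun k _ => by rw [e]; exact norm_le_pi_norm (cz x) k
    simpa using this

theorem span_stab {W : Type} [AddCommGroup W] [Module ℝ W] [FiniteDimensional ℝ W]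
    (Y : ℝ → Set W) (hY : ∀ d d', d' ≤ d → Y d' ⊆ Y d) {d0 : ℝ} (h : 0 < d0) :
    ∃ d, 0 < d ∧ d ≤ d0 ∧ ∀ d', 0 < d' → d' ≤ d →
      Submodule.span ℝ (Y d) ≤ Submodule.span ℝ (Y d') := by
  classical
  have hex : ∃ k : ℕ, ∃ d, 0 < d ∧ d ≤ d0 ∧ Module.finrank ℝ (Submodule.span ℝ (Y d)) = k :=
    ⟨_, d0, h, le_rfl, rfl⟩
  obtain ⟨d, h1, h2, h3⟩ := Nat.find_spec hex
  refine ⟨d, h1, h2, fun d' h4 h5 => ?_⟩
  refine (Submodule.eq_of_le_of_finrank_le (Submodule.span_mono (hY d d' h5)) ?_).ge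
  rw [h3]
  exact Nat.find_min' hex ⟨d', h4, h5.trans h2, rfl⟩

theorem round_dense {r : ℕ} {W : Type} [NormedAddCommGroup W] [NormedSpace ℝ W]
    [FiniteDimensional ℝ W] (θ : (Fin r → ℝ) →ₗ[ℝ] W)
    (h : ∀ ε > (0 : ℝ), ∀ x, θ x ∈ Submodule.span ℝ {y | (∃ m, θ (cz m) = y) ∧ ‖y‖ ≤ ε}) :
    ∀ ε > (0 : ℝ), ∃ C, ∀ x, ∃ m, ‖θ (cz m) - θ x‖ ≤ ε ∧ ‖cz m - x‖ ≤ C := by
  intro ε hε
  set D : ℕ := Module.finrank ℝ W with hD
  have hε' : 0 < ε / (D + 1) := by positivity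
  obtain ⟨b, hb, hsp, hli⟩ :=
    exists_linearIndependent ℝ {y | (∃ m, θ (cz m) = y) ∧ ‖y‖ ≤ ε / (D + 1)}
  have : Finite b := hli.finite
  let : Fintype b := Fintype.ofFinite b
  have hcard : Fintype.card b ≤ D := hli.fintype_card_le_finrank
  have hc : ∀ k : Fin r, ∃ c : b → ℝ, ∑ y, c y • (y : W) = θ (Pi.single k 1) := by
    intro k
    have := h _ hε' (Pi.single k 1)
    rw [← hsp] at this
    refine (Submodule.mem_span_range_iff_exists_fun ℝ).1 ?_
    rwa [Subtype.range_coe]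
  choose c hc using hc
  have hm : ∀ y : b, ∃ m, θ (cz m) = y := fun y => (hb y.2).1
  choose m hm using hm
  refine ⟨1 + ∑ y, (∑ k, |c k y| + 1) * ‖cz (m y)‖, fun x => ?_⟩
  set f : Fin r → ℝ := fun k => Int.fract (x k) with hf
  set a : b → ℝ := fun y => ∑ k, f k * c k y with ha
  have h1 : θ f = ∑ y, a y • (y : W) := by
    conv_lhs => rw [pi_eq_sum_univ' f, map_sum]
    simp only [map_smul, ← hc, Finset.smul_sum, smul_smul, ha, Finset.sum_smul]
    exact Finset.sum_comm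
  have h2 : cz ((fun k => ⌊x k⌋) + ∑ y, ⌊a y⌋ • m y) - x =
      ∑ y, (⌊a y⌋ : ℝ) • cz (m y) - f := by
    funext k
    simp only [cz, Pi.sub_apply, Pi.add_apply, Finset.sum_apply, Pi.smul_apply, smul_eq_mul, hf,
      Int.fract]
    push_cast
    ring
  have h3 : ∀ y, |a y| ≤ ∑ k, |c k y| := by
    intro y
    refine (Finset.abs_sum_le_sum_abs _ _).trans (Finset.sum_le_sum fun k _ => ?_)
    rw [abs_mul, abs_of_nonneg (Int.fract_nonneg _)]
    exact mul_le_of_le_one_left (abs_nonneg _) (Int.fract_lt_one _).le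
  have h4 : ∀ y, |(⌊a y⌋ : ℝ) - a y| ≤ 1 := fun y =>
    abs_le.2 ⟨by linarith [Int.lt_floor_add_one (a y)], by linarith [Int.floor_le (a y)]⟩
  refine ⟨(fun k => ⌊x k⌋) + ∑ y, ⌊a y⌋ • m y, ?_, ?_⟩
  · rw [← map_sub, h2, map_sub, h1, map_sum, ← Finset.sum_sub_distrib]
    simp only [map_smul, hm, ← sub_smul]
    refine (norm_sum_le _ _).trans ?_
    have := Finset.sum_le_card_nsmul Finset.univ (fun y : b => ‖((⌊a y⌋ : ℝ) - a y) • (y : W)‖)
      (ε / (D + 1)) fun y _ => by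
        rw [norm_smul, Real.norm_eq_abs]
        exact (mul_le_of_le_one_left (norm_nonneg _) (h4 y)).trans (hb y.2).2
    refine this.trans ?_
    rw [Finset.card_univ, nsmul_eq_mul]
    have e1 : (Fintype.card b : ℝ) ≤ D + 1 := by
      have : (Fintype.card b : ℝ) ≤ D := Nat.cast_le.2 hcard
      linarith
    calc (Fintype.card b : ℝ) * (ε / (D + 1)) ≤ (D + 1) * (ε / (D + 1)) := by gcongr
      _ = ε := by field_simp
  · rw [h2]
    refine (norm_sub_le _ _).trans ?_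
    rw [add_comm]
    refine add_le_add ((pi_norm_le_iff_of_nonneg zero_le_one).2 fun k => ?_)
      ((norm_sum_le _ _).trans (Finset.sum_le_sum fun y _ => ?_))
    · rw [Real.norm_eq_abs, abs_of_nonneg (Int.fract_nonneg _)]
      exact (Int.fract_lt_one _).le
    · rw [norm_smul, Real.norm_eq_abs]
      refine mul_le_mul_of_nonneg_right ?_ (norm_nonneg _)
      have e1 := abs_add_le ((⌊a y⌋ : ℝ) - a y) (a y)
      rw [sub_add_cancel] at e1
      linarith [h3 y, h4 y]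

/-- Coordinates on a finitely generated subgroup of a real vector space. -/
theorem exists_zcoord {W : Type} [AddCommGroup W] [Module ℝ W] (Γ : AddSubgroup W) (Φ : Finset W)
    (h : AddSubgroup.closure (Φ : Set W) = Γ) : ∃ (r : ℕ) (θ : (Fin r → ℝ) →ₗ[ℝ] W),
      (∀ m, θ (cz m) = 0 → m = 0) ∧ ∀ x, x ∈ Γ ↔ ∃ m, θ (cz m) = x := by
  have : IsAddTorsionFree W := IsAddTorsionFree.of_isTorsionFree ℝ W
  have : Module.Finite ℤ (Submodule.span ℤ (Φ : Set W)) :=
    Module.Finite.span_of_finite ℤ Φ.finite_toSet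
  let b := Module.finBasis ℤ (Submodule.span ℤ (Φ : Set W))
  have hθ : ∀ m, Fintype.linearCombination ℝ (fun i => (b i : W)) (cz m) =
      ((∑ i, m i • b i : Submodule.span ℤ (Φ : Set W)) : W) := by
    intro m
    rw [Fintype.linearCombination_apply, Submodule.coe_sum]
    refine Finset.sum_congr rfl fun i _ => ?_
    rw [Submodule.coe_smul, cz, Int.cast_smul_eq_zsmul]
  refine ⟨_, Fintype.linearCombination ℝ fun i => (b i : W), fun m hm => ?_, fun x => ?_⟩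
  · rw [hθ, Submodule.coe_eq_zero] at hm
    exact funext (Fintype.linearIndependent_iff.1 b.linearIndependent m hm)
  · rw [← h, ← Submodule.span_int_eq_addSubgroupClosure, Submodule.mem_toAddSubgroup]
    constructor
    · intro hx
      refine ⟨fun i => b.repr ⟨x, hx⟩ i, ?_⟩
      rw [hθ, b.sum_repr]
    · rintro ⟨m, rfl⟩
      rw [hθ]
      exact Subtype.property _

theorem sym_coc {r : ℕ} (κ : (Fin r → ℤ) → (Fin r → ℤ) → ℝ)
    (hc : ∀ x y z, κ x y + κ (x + y) z = κ x (y + z) + κ y z) (hs : ∀ x y, κ x y = κ y x)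
    (h0 : ∀ x, κ 0 x = 0) (hb : ∀ e, ∃ C, ∀ x, |κ e x| ≤ C * (1 + ‖cz x‖)) :
    ∃ (t : (Fin r → ℤ) → ℝ) (C : ℝ), (∀ x y, t (x + y) = t x + t y + κ x y) ∧
      ∀ x, |t x| ≤ C * (1 + ‖cz x‖) ^ 2 := by
  obtain ⟨t, ht⟩ := cca9_exists κ hc hs h0
  choose C hC using hb
  have t0 : t 0 = 0 := by
    have := ht 0 0
    rw [add_zero, h0] at this
    linarith
  obtain ⟨K, hK⟩ := (Set.finite_range fun q : Fin r × Bool =>
    |t (Pi.single q.1 (if q.2 then 1 else -1))| +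
      |C (Pi.single q.1 (if q.2 then 1 else -1))|).bddAbove
  have hK0 : 0 ≤ |K| := abs_nonneg K
  have main : ∀ (N : ℕ) (x : Fin r → ℤ), ∑ l, (x l).natAbs = N →
      |t x| ≤ |K| * (N * (1 + N)) := by
    intro N
    induction N with
    | zero =>
      intro x hx
      have : x = 0 := funext fun k => Int.natAbs_eq_zero.1
        (Finset.sum_eq_zero_iff.1 hx k (Finset.mem_univ k))
      rw [this, t0]; simp
    | succ N ih =>
      intro x hx
      obtain ⟨l, s, hl⟩ := cca9_step hx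
      have e0 := (hK ⟨(l, s), rfl⟩).trans (le_abs_self K)
      simp only at e0
      set e : Fin r → ℤ := Pi.single l (if s then 1 else -1)
      have e1 := ih _ hl
      have e2 := ht e (x - e)
      rw [add_sub_cancel] at e2
      have e3 := (cca9_norm (x - e)).1
      rw [hl] at e3
      have hN : (0 : ℝ) ≤ N := Nat.cast_nonneg N
      have e4 : |κ e (x - e)| ≤ |C e| * (1 + N) :=
        (hC e (x - e)).trans (mul_le_mul (le_abs_self _) (by linarith) (by positivity)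
          (abs_nonneg _))
      have e5 : |t x| ≤ |t e| + |t (x - e)| + |κ e (x - e)| := by
        rw [e2]; exact abs_add_three _ _ _
      have e6 : (|t e| + |C e|) * (1 + N) ≤ |K| * (1 + N) :=
        mul_le_mul_of_nonneg_right e0 (by linarith)
      push_cast
      nlinarith [abs_nonneg (t e), mul_nonneg (abs_nonneg (t e)) hN, mul_nonneg hK0 hN]
  refine ⟨t, |K| * (r + 1) ^ 2, ht, fun x => (main _ x rfl).trans ?_⟩
  have e1 := (cca9_norm x).2
  have e2 : (0 : ℝ) ≤ ((∑ l, (x l).natAbs : ℕ) : ℝ) := Nat.cast_nonneg _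
  have hr : (0 : ℝ) ≤ r := Nat.cast_nonneg r
  have e3 : 1 + ((∑ l, (x l).natAbs : ℕ) : ℝ) ≤ (r + 1) * (1 + ‖cz x‖) := by
    nlinarith [norm_nonneg (cz x)]
  rw [mul_assoc, ← mul_pow]
  refine mul_le_mul_of_nonneg_left ?_ hK0
  nlinarith

theorem near_hom {r : ℕ} (s : (Fin r → ℤ) → ℝ) (h : ∀ x y, ∃ k : ℤ, s (x + y) - s x - s y = k) :
    ∃ τ : Fin r → ℝ, ∀ x, ∃ k : ℤ, s x - ∑ l, τ l * x l = k := by
  let τ : Fin r → ℝ := fun l => s (Pi.single l 1)
  obtain ⟨k0, hk0⟩ := h 0 0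
  rw [add_zero] at hk0
  let H : AddSubgroup (Fin r → ℤ) :=
    { carrier := {x | ∃ k : ℤ, s x - ∑ l, τ l * x l = k}
      zero_mem' := ⟨-k0, by simp only [Pi.zero_apply, Int.cast_zero, mul_zero,
        Finset.sum_const_zero, Int.cast_neg]; linarith⟩
      add_mem' := by
        rintro x y ⟨a, ha⟩ ⟨b, hb⟩
        obtain ⟨c, hc⟩ := h x y
        refine ⟨a + b + c, ?_⟩
        simp only [Pi.add_apply, Int.cast_add, mul_add, Finset.sum_add_distrib]
        linarith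
      neg_mem' := by
        rintro x ⟨a, ha⟩
        obtain ⟨c, hc⟩ := h x (-x)
        rw [add_neg_cancel] at hc
        refine ⟨-k0 - a - c, ?_⟩
        simp only [Pi.neg_apply, Int.cast_neg, Int.cast_sub, mul_neg, Finset.sum_neg_distrib]
        linarith }
  refine ⟨τ, fun x => ?_⟩
  change x ∈ H
  rw [pi_eq_sum_univ' x]
  refine H.sum_mem fun l _ => H.zsmul_mem ⟨0, ?_⟩ _
  simp [τ, Pi.single_apply]

theorem add_hom {r : ℕ} (s : (Fin r → ℤ) → ℝ) (h : ∀ x y, s (x + y) = s x + s y) :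
    ∃ τ : Fin r → ℝ, ∀ x, s x = ∑ l, τ l * x l := by
  refine ⟨fun l => s (Pi.single l 1), fun x => ?_⟩
  change AddMonoidHom.mk' s h x = _
  conv_lhs => rw [pi_eq_sum_univ' x, map_sum]
  refine Finset.sum_congr rfl fun l _ => ?_
  rw [map_zsmul, zsmul_eq_mul, mul_comm]
  rfl

theorem la2 {r : ℕ} {J : Type} [Fintype J] (F : Submodule ℝ (Fin r → ℝ))
    (M : Matrix (Fin r) (Fin r) ℝ) (hF : ∀ m, cz m ∈ F → m = 0)
    (onto : ∀ l : Fin r → ℝ, (∀ f ∈ F, l ⬝ᵥ f = 0) → ∃ f ∈ F, M *ᵥ f = l)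
    (ker : ∃ f ∈ F, f ≠ 0 ∧ M *ᵥ f = 0) (K : J → Matrix (Fin r) (Fin r) ℝ) (ρ : J → ℝ)
    (hM : M = ∑ s, ρ s • K s) (hK : ∀ s, (∀ a b, ∃ k : ℤ, K s a b = k) ∧ (K s)ᵀ = -K s ∧
      ∀ f ∈ F, ∀ f' ∈ F, f' ⬝ᵥ K s *ᵥ f = 0) : False := by
  refine la1 F M hF onto ker fun ε hε => ?_
  choose k hk using fun s => (hK s).1
  set B : ℝ := ∑ s, ∑ a, ∑ b, |K s a b| + 1 with hB
  have hB0 : 0 < B := by positivity
  have hN : 0 < B / ε := by positivity
  have hc : (Matrix.of fun a b => ∑ s, ⌊B / ε * ρ s⌋ * k s a b).map (Int.cast : ℤ → ℝ) =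
      ∑ s, (⌊B / ε * ρ s⌋ : ℝ) • K s := by
    ext a b
    simp only [Matrix.map_apply, Matrix.of_apply, Matrix.sum_apply, Matrix.smul_apply,
      smul_eq_mul, hk]
    push_cast
    rfl
  refine ⟨Matrix.of fun a b => ∑ s, ⌊B / ε * ρ s⌋ * k s a b, B / ε, hN, ?_, ?_, ?_⟩
  · ext a b
    simp only [Matrix.transpose_apply, Matrix.neg_apply, Matrix.of_apply,
      ← Finset.sum_neg_distrib]
    refine Finset.sum_congr rfl fun s _ => ?_
    have e1 := congrFun (congrFun (hK s).2.1 a) b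
    rw [Matrix.transpose_apply, Matrix.neg_apply, hk, hk] at e1
    have e2 : k s b a = -k s a b := by exact_mod_cast e1
    rw [e2, mul_neg]
  · intro a b
    have e1 := congrFun (congrFun hc a) b
    rw [Matrix.map_apply] at e1
    rw [e1, hM]
    simp only [Matrix.sum_apply, Matrix.smul_apply, smul_eq_mul]
    rw [Finset.sum_div, ← Finset.sum_sub_distrib]
    refine (Finset.abs_sum_le_sum_abs _ _).trans ?_
    have e2 : ∀ s, |(⌊B / ε * ρ s⌋ : ℝ) * K s a b / (B / ε) - ρ s * K s a b| ≤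
        (∑ a, ∑ b, |K s a b|) / (B / ε) := by
      intro s
      have e3 : (⌊B / ε * ρ s⌋ : ℝ) * K s a b / (B / ε) - ρ s * K s a b =
          ((⌊B / ε * ρ s⌋ : ℝ) - B / ε * ρ s) * K s a b / (B / ε) := by
        field_simp
      rw [e3, abs_div, abs_of_pos hN, abs_mul]
      refine div_le_div_of_nonneg_right ?_ hN.le
      have e4 : |(⌊B / ε * ρ s⌋ : ℝ) - B / ε * ρ s| ≤ 1 :=
        abs_le.2 ⟨by linarith [Int.lt_floor_add_one (B / ε * ρ s)],
          by linarith [Int.floor_le (B / ε * ρ s)]⟩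
      refine (mul_le_of_le_one_left (abs_nonneg _) e4).trans ?_
      exact (Finset.single_le_sum (f := fun b => |K s a b|) (fun _ _ => abs_nonneg _)
        (Finset.mem_univ b)).trans (Finset.single_le_sum (f := fun a => ∑ b, |K s a b|)
          (fun _ _ => Finset.sum_nonneg fun _ _ => abs_nonneg _) (Finset.mem_univ a))
    refine (Finset.sum_le_sum fun s _ => e2 s).trans ?_
    rw [← Finset.sum_div, div_le_iff₀ hN, mul_div_cancel₀ _ hε.ne', hB]
    linarith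
  · intro f hf f' hf'
    rw [hc, Matrix.sum_mulVec, dotProduct_sum]
    refine Finset.sum_eq_zero fun s _ => ?_
    rw [Matrix.smul_mulVec, dotProduct_smul, (hK s).2.2 f hf f' hf', smul_zero]

end Pool.Agent.CL
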