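import Pool.Agent.K.MP_63735c_ag.C129

/-! Limits of coordinates; linear forms on the coordinates. -/

open scoped Matrix
open Set Filter Topology

namespace Pool.Agent.CL

open Pool.Agent.SPF LGrp

variable {n : ℕ} {D : LGrp}

lemma ccb2_pos : ∀ᶠ j : ℕ in UU, (1 : ℝ) ≤ j :=
  UU_le ((eventually_ge_atTop 1).mono fun j hj => by exact_mod_cast hj)

lemma ccb2_cz_zero {r : ℕ} : cz (0 : Fin r → ℤ) = 0 := by
  funext k; simp [cz]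

lemma ccb2_cz_neg {r : ℕ} (m : Fin r → ℤ) : cz (-m) = -cz m := by
  funext k; simp [cz]

lemma ccb2_scale {W W' : Type} [NormedAddCommGroup W] [NormedSpace ℝ W] [NormedAddCommGroup W']
    [NormedSpace ℝ W'] {x : W} {y : W'} {C : ℝ} (j : ℕ) (h : ‖x‖ ≤ C * (1 + ‖y‖)) :
    ‖(j : ℝ)⁻¹ • x‖ ≤ C * ((j : ℝ)⁻¹ + ‖(j : ℝ)⁻¹ • y‖) := by
  have h0 : (0 : ℝ) ≤ (j : ℝ)⁻¹ := by positivity
  rw [norm_smul, norm_smul, Real.norm_eq_abs, abs_of_nonneg h0]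
  calc (j : ℝ)⁻¹ * ‖x‖ ≤ (j : ℝ)⁻¹ * (C * (1 + ‖y‖)) := mul_le_mul_of_nonneg_left h h0
    _ = _ := by ring

lemma ccb2_bd {W : Type} [NormedAddCommGroup W] {f : ℕ → W} {x : W} (h : Tendsto f UU (𝓝 x)) :
    ∀ᶠ j in UU, ‖f j‖ ≤ ‖x‖ + 1 :=
  h.norm.eventually (ge_mem_nhds (lt_add_one _))

lemma ccb2_inv_le : ∀ᶠ j : ℕ in UU, (j : ℝ)⁻¹ ≤ 1 :=
  ccb2_pos.mono fun _ hj => inv_le_one_of_one_le₀ hj

namespace Lat

variable {A : CL1 n D} (Λ : Lat A)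

theorem rep1 (v : E n) : ∃ f, Λ.θ f = 0 ∧ Λ.Rep v f := by
  obtain ⟨h, hs⟩ := A.toCA.exists_seq v
  obtain ⟨C, hC0, hC⟩ := Λ.w_bd
  have hS := A.seq_S Λ.d_pos hs
  obtain ⟨f, hf⟩ := ulim (fun j : ℕ => (j : ℝ)⁻¹ • cz (Λ.w (h j))) (M := C * (1 + (‖v‖ + 1)))
    (by
      filter_upwards [hS, ccb2_bd hs.2, ccb2_inv_le] with j h1 h2 h3
      exact (ccb2_scale j (hC _ h1)).trans (mul_le_mul_of_nonneg_left (add_le_add h3 h2) hC0))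
  refine ⟨f, ?_, h, hs, hf⟩
  have h1 := (Λ.θ.continuous_of_finiteDimensional.tendsto f).comp hf
  have h2 : Tendsto (Λ.θ ∘ fun j : ℕ => (j : ℝ)⁻¹ • cz (Λ.w (h j))) UU (𝓝 0) := by
    have h3 : Tendsto (fun j : ℕ => (j : ℝ)⁻¹ * Λ.d) UU (𝓝 0) := by
      simpa using inv_lim.mul_const Λ.d
    refine squeeze_zero_norm' ?_ h3
    filter_upwards [hS] with j hj
    have h0 : (0 : ℝ) ≤ (j : ℝ)⁻¹ := by positivity
    rw [Function.comp_apply, map_smul, Λ.θ_w _ hj, norm_smul, Real.norm_eq_abs, abs_of_nonneg h0]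
    exact mul_le_mul_of_nonneg_left hj.2 h0
  exact tendsto_nhds_unique h1 h2

theorem rep2 (hB : IsCB A) {f : Fin Λ.r → ℝ} (hf : Λ.θ f = 0) : ∃ v, Λ.Rep v f := by
  obtain ⟨ε, C, hQ, hε, hC⟩ := slow
    (fun ε C => ∀ x, ∃ m, ‖Λ.θ (cz m) - Λ.θ x‖ ≤ ε ∧ ‖cz m - x‖ ≤ C) Λ.dense
  choose m hm1 hm2 using fun j : ℕ => (hQ j).2 ((j : ℝ) • f)
  have hm : ∀ j, ‖Λ.θ (cz (m j))‖ ≤ ε j := fun j => by
    have := hm1 j
    rwa [map_smul, hf, smul_zero, sub_zero] at this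
  obtain ⟨C1, hC1, hr⟩ := Λ.real
  have hg : ∀ j, ∃ g, ε j ≤ Λ.d → g ∈ A.S Λ.d ∧ Λ.w g = m j ∧
      ‖A.a g‖ ≤ C1 * (1 + ‖cz (m j)‖) := by
    intro j
    by_cases hj : ε j ≤ Λ.d
    · obtain ⟨g, h1, h2⟩ := hr (m j) ((hm j).trans hj)
      exact ⟨g, fun _ => ⟨h1, h2⟩⟩
    · exact ⟨1, fun h => absurd h hj⟩
  choose g hg using hg
  have he : ∀ᶠ j in UU, ε j ≤ Λ.d := hε.eventually (ge_mem_nhds Λ.d_pos)
  have hlim : Tendsto (fun j : ℕ => (j : ℝ)⁻¹ • cz (m j)) UU (𝓝 f) := by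
    rw [tendsto_iff_norm_sub_tendsto_zero]
    refine squeeze_zero' (Eventually.of_forall fun _ => norm_nonneg _) ?_ hC
    filter_upwards [ccb2_pos] with j hj
    have h0 : (0 : ℝ) < j := by linarith
    have h1 : (j : ℝ)⁻¹ • cz (m j) - f = (j : ℝ)⁻¹ • (cz (m j) - (j : ℝ) • f) := by
      rw [smul_sub, smul_smul, inv_mul_cancel₀ h0.ne', one_smul]
    rw [h1, norm_smul, Real.norm_eq_abs, abs_of_nonneg (inv_nonneg.2 h0.le)]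
    exact mul_le_mul_of_nonneg_left ((hm2 j).trans (le_abs_self _)) (inv_nonneg.2 h0.le)
  obtain ⟨v, hv⟩ := ulim (fun j : ℕ => (j : ℝ)⁻¹ • A.a (g j)) (M := C1 * (1 + (‖f‖ + 1)))
    (by
      filter_upwards [he, ccb2_bd hlim, ccb2_inv_le] with j h1 h2 h3
      exact (ccb2_scale j (hg j h1).2.2).trans
        (mul_le_mul_of_nonneg_left (add_le_add h3 h2) hC1))
  obtain ⟨C2, hC2, hz⟩ := hB.sz_th
  refine ⟨v, g, ⟨?_, hv⟩, ?_⟩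
  · have h3 : Tendsto (fun j => C2 * ε j) UU (𝓝 0) := by simpa using hε.const_mul C2
    refine squeeze_zero' (Eventually.of_forall fun _ => D.sz_nonneg _) ?_ h3
    filter_upwards [he] with j hj
    obtain ⟨h1, h2, -⟩ := hg j hj
    have := D.sm0 h1.1
    refine (hz (g j)).trans (mul_le_mul_of_nonneg_left ?_ hC2)
    rw [← Λ.θ_w _ h1, h2]
    exact hm j
  · refine hlim.congr' ?_
    filter_upwards [he] with j hj
    rw [(hg j hj).2.1]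

theorem rep3 (hB : IsCB A) {v : E n} (h : Λ.Rep v 0) : v ∈ A.V0 := by
  obtain ⟨h, hs, hw⟩ := h
  obtain ⟨C, hC0, hr⟩ := Λ.real
  have hS := A.seq_S Λ.d_pos hs
  have hp : ∀ j, ∃ m, h j ∈ A.S Λ.d →
      ‖A.a (h j) - A.zz m‖ ≤ C * (1 + ‖cz (Λ.w (h j))‖) := by
    intro j
    by_cases hj : h j ∈ A.S Λ.d
    · obtain ⟨p, h1, h2, h3⟩ := hr (Λ.w (h j)) (by rw [Λ.θ_w _ hj]; exact hj.2)
      have := D.sm0 h1.1
      have := D.sm0 hj.1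
      have h4 : A.th p = A.th (h j) := by rw [← Λ.θ_w _ h1, h2, Λ.θ_w _ hj]
      have h5 : A.th (h j * p⁻¹) = 0 := by
        rw [hB.th_mul (h j) p⁻¹, hB.th_inv p, h4, add_neg_cancel]
      obtain ⟨m, hm⟩ := hB.per_of_th (h j * p⁻¹) h5
      refine ⟨m, fun _ => ?_⟩
      have h6 : h j = A.ι m * p := by rw [← hm, inv_mul_cancel_right (h j) p]
      have h7 : A.a (h j) = A.a p + A.zz m := by
        rw [← (A.toCA.a_per p m).2, ← h6]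
      rw [h7, add_sub_cancel_right]
      exact h3
    · exact ⟨0, fun h => absurd h hj⟩
  choose m hm using hp
  refine A.toCA.V0_lim (m := m) ?_
  have h1 : Tendsto (fun j : ℕ => (j : ℝ)⁻¹ • (A.a (h j) - A.zz (m j))) UU (𝓝 0) := by
    have h3 : Tendsto (fun j : ℕ => C * ((j : ℝ)⁻¹ + ‖(j : ℝ)⁻¹ • cz (Λ.w (h j))‖)) UU (𝓝 0) := by
      simpa using (inv_lim.add hw.norm).const_mul C
    refine squeeze_zero_norm' ?_ h3
    filter_upwards [hS] with j hj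
    exact ccb2_scale j (hm j hj)
  have h2 := hs.2.sub h1
  rw [sub_zero] at h2
  refine h2.congr fun j => ?_
  rw [smul_sub, sub_sub_cancel]

theorem lin_ext (φ : (Fin Λ.r → ℝ) →ₗ[ℝ] ℝ) (h : ∀ g ∈ A.S Λ.d, φ (cz (Λ.w g)) = 0) :
    φ = 0 := by
  have h1 : ∀ m, φ (cz m) = 0 := by
    intro m
    have hm : m ∈ AddSubgroup.closure (Λ.w '' A.S Λ.d) := by rw [Λ.gen]; trivial
    induction hm using AddSubgroup.closure_induction with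
    | mem x hx =>
      obtain ⟨g, hg, rfl⟩ := hx
      exact h g hg
    | zero => rw [ccb2_cz_zero, map_zero]
    | add x y _ _ hx hy => rw [cz_add, map_add, hx, hy, add_zero]
    | neg x _ hx => rw [ccb2_cz_neg, map_neg, hx, neg_zero]
  refine (Pi.basisFun ℝ (Fin Λ.r)).ext fun k => ?_
  rw [Pi.basisFun_apply, ← cz_single, h1, LinearMap.zero_apply]

theorem lin_int (φ : (Fin Λ.r → ℝ) →ₗ[ℝ] ℝ) (h : ∀ g ∈ A.S Λ.d, ∃ k : ℤ, φ (cz (Λ.w g)) = k)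
    (m : Fin Λ.r → ℤ) : ∃ k : ℤ, φ (cz m) = k := by
  have hm : m ∈ AddSubgroup.closure (Λ.w '' A.S Λ.d) := by rw [Λ.gen]; trivial
  induction hm using AddSubgroup.closure_induction with
  | mem x hx =>
    obtain ⟨g, hg, rfl⟩ := hx
    exact h g hg
  | zero => exact ⟨0, by rw [ccb2_cz_zero, map_zero, Int.cast_zero]⟩
  | add x y _ _ hx hy =>
    obtain ⟨k, hk⟩ := hx
    obtain ⟨l, hl⟩ := hy
    exact ⟨k + l, by rw [cz_add, map_add, hk, hl, Int.cast_add]⟩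
  | neg x _ hx =>
    obtain ⟨k, hk⟩ := hx
    exact ⟨-k, by rw [ccb2_cz_neg, map_neg, hk, Int.cast_neg]⟩

lemma ccb2_eval (φ : (Fin Λ.r → ℝ) →ₗ[ℝ] ℝ) (h0 : ∀ f, Λ.θ f = 0 → φ f = 0) :
    ∃ v : E n, ∀ x, φ x = Λ.θ x v := by
  have h1 : φ ∈ (LinearMap.ker Λ.θ).dualAnnihilator :=
    (Submodule.mem_dualAnnihilator φ).2 fun f hf => h0 f hf
  rw [← LinearMap.range_dualMap_eq_dualAnnihilator_ker] at h1
  obtain ⟨ψ, hψ⟩ := h1
  let ψ' : Module.Dual ℝ (Module.Dual ℝ (E n)) :=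
    ψ.comp (LinearMap.toContinuousLinearMap (𝕜 := ℝ) (E := E n) (F' := ℝ)).toLinearMap
  refine ⟨(Module.evalEquiv ℝ (E n)).symm ψ', fun x => ?_⟩
  have h2 := Module.apply_evalEquiv_symm_apply ℝ (E n) (Λ.θ x : E n →ₗ[ℝ] ℝ) ψ'
  rw [← hψ, LinearMap.dualMap_apply]
  refine Eq.trans ?_ h2.symm
  rfl

theorem int_zero (φ : (Fin Λ.r → ℝ) →ₗ[ℝ] ℝ) (h0 : ∀ f, Λ.θ f = 0 → φ f = 0)
    (h : ∀ m, ∃ k : ℤ, φ (cz m) = k) : φ = 0 := by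
  obtain ⟨v, hv⟩ := Λ.ccb2_eval φ h0
  by_contra hne
  obtain ⟨x, hx⟩ : ∃ x, φ x ≠ 0 := by
    by_contra hc
    push Not at hc
    exact hne (LinearMap.ext hc)
  have hy : φ ((2 * φ x)⁻¹ • x) = 1 / 2 := by
    rw [map_smul, smul_eq_mul]
    field_simp
  have hp : 0 < 4 * (‖v‖ + 1) := by positivity
  obtain ⟨C, hC⟩ := Λ.dense (4 * (‖v‖ + 1))⁻¹ (inv_pos.2 hp)
  obtain ⟨m, hm, -⟩ := hC ((2 * φ x)⁻¹ • x)
  obtain ⟨k, hk⟩ := h m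
  have h1 : |(k : ℝ) - 1 / 2| ≤ 1 / 4 := by
    rw [← hk, ← hy, hv, hv ((2 * φ x)⁻¹ • x), ← ContinuousLinearMap.sub_apply, ← Real.norm_eq_abs]
    refine (ContinuousLinearMap.le_opNorm _ _).trans ?_
    refine (mul_le_mul_of_nonneg_right hm (norm_nonneg _)).trans ?_
    rw [inv_mul_le_iff₀ hp]
    linarith
  rw [abs_le] at h1
  have h2 : (0 : ℝ) < k := by linarith [h1.1]
  have h3 : (k : ℝ) < 1 := by linarith [h1.2]
  have h4 : 0 < k := by exact_mod_cast h2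
  have h5 : k < 1 := by exact_mod_cast h3
  omega

/-- A linear form that kills the kernel of `θ` is an evaluation. -/
theorem eval_of_ker (φ : (Fin Λ.r → ℝ) →ₗ[ℝ] ℝ) (h0 : ∀ f, Λ.θ f = 0 → φ f = 0) :
    ∃ v : E n, ∀ x, φ x = Λ.θ x v := Λ.ccb2_eval φ h0

/-- Elements with prescribed displacement. -/
theorem approx (x : Fin Λ.r → ℝ) (hx : ‖Λ.θ x‖ < Λ.d) {ε : ℝ} (hε : 0 < ε) :
    ∃ g ∈ A.S Λ.d, ‖A.th g - Λ.θ x‖ ≤ ε := by
  obtain ⟨C, hC⟩ := Λ.dense (min ε (Λ.d - ‖Λ.θ x‖)) (lt_min hε (by linarith))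
  obtain ⟨m, hm, -⟩ := hC x
  obtain ⟨C1, -, hr⟩ := Λ.real
  have h1 : ‖Λ.θ (cz m)‖ ≤ Λ.d := by
    have h2 := norm_sub_norm_le (Λ.θ (cz m)) (Λ.θ x)
    linarith [hm.trans (min_le_right _ _)]
  obtain ⟨g, hg, hw, -⟩ := hr m h1
  refine ⟨g, hg, ?_⟩
  rw [← Λ.θ_w _ hg, hw]
  exact hm.trans (min_le_left _ _)

theorem desc1 (F : D.G → ℝ) (hF : Addv D F) (h0 : ∀ m, F (A.ι m) = 0) :
    ∃ φ : (Fin Λ.r → ℝ) →ₗ[ℝ] ℝ, ∀ g ∈ A.S Λ.d, φ (cz (Λ.w g)) = F g := by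
  obtain ⟨f, hf⟩ := Λ.desc ℝ F hF h0
  refine ⟨Fintype.linearCombination ℝ fun k => f (Pi.single k 1), fun g hg => ?_⟩
  rw [← hf g hg, Fintype.linearCombination_apply]
  conv_rhs => rw [← Finset.univ_sum_single (Λ.w g), map_sum]
  refine Finset.sum_congr rfl fun k _ => ?_
  have h1 : (Pi.single k (Λ.w g k) : Fin Λ.r → ℤ) = Λ.w g k • Pi.single k 1 := by
    rw [← Pi.single_smul, smul_eq_mul, _root_.mul_one]
  rw [h1, map_zsmul, zsmul_eq_mul, smul_eq_mul]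
  rfl

end Lat

end Pool.Agent.CL
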