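import Pool.Agent.K.MP_63735c_ag.C133

/-! Bilinear forms on the coordinates. -/

open scoped Matrix
open Set Filter Topology

namespace Pool.Agent.CL

open Pool.Agent.SPF LGrp

variable {n : ℕ} {D : LGrp}

namespace Lat

variable {A : CL1 n D} (Λ : Lat A) {M M' : Matrix (Fin Λ.r) (Fin Λ.r) ℝ} {F : D.G → D.G → ℝ}

theorem ccb3_single {r : ℕ} (a : Fin r) : cz (Pi.single a 1) = Pi.single a 1 := by
  funext b
  by_cases h : b = a <;> simp [cz, h]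

theorem ccb3_bil {r : ℕ} (N : Matrix (Fin r) (Fin r) ℝ) :
    ∃ B : (Fin r → ℝ) →ₗ[ℝ] (Fin r → ℝ) →ₗ[ℝ] ℝ, (∀ x y, B x y = x ⬝ᵥ N *ᵥ y) ∧
      ∀ a b, B (Pi.single a 1) (Pi.single b 1) = N a b :=
  ⟨Matrix.toLinearMap₂' ℝ N, fun x y => Matrix.toLinearMap₂'_apply' N x y, fun a b => by
    rw [Matrix.toLinearMap₂'_apply', single_one_dotProduct, Matrix.mulVec_single_one]
    rfl⟩

theorem ccb3_ext (h : ∀ g ∈ A.S Λ.d, ∀ k ∈ A.S Λ.d, cz (Λ.w g) ⬝ᵥ M *ᵥ cz (Λ.w k) = 0) :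
    M = 0 := by
  ext a b
  obtain ⟨B, hB, hB'⟩ := ccb3_bil M
  have h1 : B (Pi.single a 1) = 0 := Λ.lin_ext _ fun k hk => by
    rw [← LinearMap.flip_apply, Λ.lin_ext (B.flip (cz (Λ.w k))) fun g hg => by
      rw [LinearMap.flip_apply, hB, h g hg k hk], LinearMap.zero_apply]
  rw [← hB', h1, LinearMap.zero_apply, Matrix.zero_apply]

theorem desc2 (F : D.G → D.G → ℝ) (h1 : ∀ (h : D.G) [D.Sm 1 h], Addv D fun g => F g h)
    (h2 : ∀ (g : D.G) [D.Sm 0 g], Addv D (F g))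
    (p1 : ∀ m (h : D.G) [D.Sm 1 h], F (A.ι m) h = 0)
    (p2 : ∀ (g : D.G) [D.Sm 0 g] m, F g (A.ι m) = 0) : ∃ M, Λ.Rp M F := by
  have e1 : ∀ h : D.G, ∃ φ : (Fin Λ.r → ℝ) →ₗ[ℝ] ℝ,
      D.Sm 1 h → ∀ g ∈ A.S Λ.d, φ (cz (Λ.w g)) = F g h := fun h => by
    by_cases hh : D.Sm 1 h
    · obtain ⟨φ, hφ⟩ := Λ.desc1 (fun g => F g h) (h1 h) fun m => p1 m h
      exact ⟨φ, fun _ => hφ⟩
    · exact ⟨0, fun h' => absurd h' hh⟩
  choose φ hφ using e1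
  have e2 : ∀ h k, D.sz h ≤ D.b → D.sz k ≤ D.b → φ (h * k) = φ h + φ k := fun h k hh hk => by
    have := D.sm0 hh
    have := D.sm0 hk
    refine sub_eq_zero.1 (Λ.lin_ext _ fun g hg => ?_)
    have := D.sm0 hg.1
    rw [LinearMap.sub_apply, LinearMap.add_apply, hφ _ inferInstance g hg,
      hφ _ inferInstance g hg, hφ _ inferInstance g hg, h2 g h k hh hk, sub_self]
  have e3 : ∀ m, φ (A.ι m) = 0 := fun m => Λ.lin_ext _ fun g hg => by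
    have := D.sm0 hg.1
    rw [hφ _ inferInstance g hg, p2 g m]
  have e4 : ∀ a : Fin Λ.r, ∃ ψ : (Fin Λ.r → ℝ) →ₗ[ℝ] ℝ, ∀ h ∈ A.S Λ.d,
      ψ (cz (Λ.w h)) = φ h fun j => if a = j then 1 else 0 := fun a =>
    Λ.desc1 _ (fun h k hh hk => by rw [e2 h k hh hk, LinearMap.add_apply])
      fun m => by rw [e3 m, LinearMap.zero_apply]
  choose ψ hψ using e4
  refine ⟨LinearMap.toMatrix' (LinearMap.pi ψ), fun g hg h hh => ?_⟩
  have := D.sm0 hh.1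
  rw [LinearMap.toMatrix'_mulVec, ← hφ h inferInstance g hg, (φ h).pi_apply_eq_sum_univ]
  exact Finset.sum_congr rfl fun a _ => by rw [LinearMap.pi_apply, hψ a h hh, smul_eq_mul]

theorem rp_ext (h : Λ.Rp M F) (h' : Λ.Rp M' F) : M = M' :=
  sub_eq_zero.1 (Λ.ccb3_ext fun g hg k hk => by
    rw [Matrix.sub_mulVec, dotProduct_sub, h g hg k hk, h' g hg k hk, sub_self])

theorem rp_skew (h : Λ.Rp M F) (hs : ∀ g ∈ A.S Λ.d, ∀ k ∈ A.S Λ.d, F g k = -F k g) :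
    Mᵀ = -M :=
  eq_neg_of_add_eq_zero_left (Λ.ccb3_ext fun g hg k hk => by
    rw [Matrix.add_mulVec, dotProduct_add, h g hg k hk, Matrix.mulVec_transpose, dotProduct_comm,
      ← Matrix.dotProduct_mulVec, h k hk g hg, hs g hg k hk, add_neg_cancel])

theorem rp_int (h : Λ.Rp M F) (hi : ∀ g ∈ A.S Λ.d, ∀ k ∈ A.S Λ.d, ∃ z : ℤ, F g k = z) (a b) :
    ∃ z : ℤ, M a b = z := by
  obtain ⟨B, hB, hB'⟩ := ccb3_bil M
  have h1 := Λ.lin_int (B (cz (Pi.single a 1))) (fun k hk =>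
    Λ.lin_int (B.flip (cz (Λ.w k))) (fun g hg => by
      rw [LinearMap.flip_apply, hB, h g hg k hk]
      exact hi g hg k hk) (Pi.single a 1)) (Pi.single b 1)
  rwa [ccb3_single, ccb3_single, hB'] at h1

theorem rp_lim (h : Λ.Rp M F) {g : D.G} (hg : g ∈ A.S Λ.d) {k : ℕ → D.G} {v : E n}
    (hs : IsSeq D A.a k v) {f : Fin Λ.r → ℝ}
    (hf : Tendsto (fun j : ℕ => (j : ℝ)⁻¹ • cz (Λ.w (k j))) UU (𝓝 f)) :
    Tendsto (fun j : ℕ => (j : ℝ)⁻¹ * F g (k j)) UU (𝓝 (cz (Λ.w g) ⬝ᵥ M *ᵥ f)) := by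
  have hc : Continuous fun y : Fin Λ.r → ℝ => cz (Λ.w g) ⬝ᵥ M *ᵥ y := by fun_prop
  refine ((hc.tendsto f).comp hf).congr' ?_
  filter_upwards [A.seq_S Λ.d_pos hs] with j hj
  rw [Function.comp_apply, Matrix.mulVec_smul, dotProduct_smul, h g hg _ hj, smul_eq_mul]

theorem rp_iso (hB : IsCB A) (h : Λ.Rp M F) (hs : ∀ k v k' v', IsSeq D A.a k v →
    IsSeq D A.a k' v' → Tendsto (fun j : ℕ => ((j : ℝ) ^ 2)⁻¹ * F (k j) (k' j)) UU (𝓝 0))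
    (f f' : Fin Λ.r → ℝ) (hf : Λ.θ f = 0) (hf' : Λ.θ f' = 0) : f' ⬝ᵥ M *ᵥ f = 0 := by
  obtain ⟨v, k, hk, hl⟩ := Λ.rep2 hB hf
  obtain ⟨v', k', hk', hl'⟩ := Λ.rep2 hB hf'
  have hc : Continuous fun y : (Fin Λ.r → ℝ) × (Fin Λ.r → ℝ) => y.1 ⬝ᵥ M *ᵥ y.2 := by fun_prop
  refine tendsto_nhds_unique (((hc.tendsto (f', f)).comp (hl'.prodMk_nhds hl)).congr' ?_)
    (hs k' v' k v hk' hk)
  filter_upwards [A.seq_S Λ.d_pos hk, A.seq_S Λ.d_pos hk'] with j hj hj'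
  rw [Function.comp_apply, Matrix.mulVec_smul, dotProduct_smul, smul_dotProduct, h _ hj' _ hj,
    smul_eq_mul, smul_eq_mul, ← inv_pow, sq, mul_assoc]

/-- An integer matrix that kills the kernel of `θ` vanishes. -/
theorem int_zero2 (hi : ∀ a b, ∃ z : ℤ, M a b = z) (h0 : ∀ f, Λ.θ f = 0 → M *ᵥ f = 0) :
    M = 0 := by
  ext a b
  choose z hz using hi
  obtain ⟨B, hB, hB'⟩ := ccb3_bil M
  have h1 := Λ.int_zero (B (Pi.single a 1))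
    (fun f hf => by rw [hB, h0 f hf, dotProduct_zero])
    fun m => ⟨∑ b, z a b * m b, by
      rw [hB, single_one_dotProduct]
      simp only [Matrix.mulVec, dotProduct, cz, hz, Int.cast_sum, Int.cast_mul]⟩
  rw [← hB', h1, LinearMap.zero_apply, Matrix.zero_apply]

end Lat

end Pool.Agent.CL
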