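import Pool.Agent.K.MP_63735c_ag.C133

/-! Commutators as periods; the periods have no flux. -/

open scoped Matrix
open Set Filter Topology

namespace Pool.Agent.CL

open Pool.Agent.SPF LGrp

variable {n : ℕ} {D : LGrp}

lemma ccb4_cen (A : CL1 n D) (m : Fin A.r0 → ℤ) : Cen (D := D) (fun _ _ => (0 : ℝ)) (A.ι m) :=
  ⟨A.ι_sz m, fun x _ => ⟨A.ι_cen m x (D.le1 x), rfl⟩⟩

/-- The flux of a period. -/
def ccb4F (A : CL1 n D) (i : Fin A.m) (m : Fin A.r0 → ℤ) (g : D.G) : ℝ :=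
  A.ka i g (A.ι m) - A.ka i (A.ι m) g

lemma ccb4_mflux (A : CL1 n D) (i : Fin A.m) (m : Fin A.r0 → ℤ) (g : D.G) [D.Sm 13 g] :
    mflux (A.ka i) g (A.ι m) = ccb4F A i m g := by
  unfold mflux ccb4F
  rw [(A.comm_per g m).1, (A.ka_coc i).one_l _ (D.le1 (A.ι m * g)), sub_zero]

lemma ccb4_add_g (A : CL1 n D) (i : Fin A.m) (m : Fin A.r0 → ℤ) : Addv D (ccb4F A i m) := by
  intro g h hg hh
  have := D.sm0 hg
  have := D.sm0 hh
  have h1 : Cen (A.ka i) (comm g (A.ι m)) := by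
    rw [(A.comm_per g m).1]; exact (A.ka_coc i).cen_one
  have h2 : Cen (A.ka i) (comm h (A.ι m)) := by
    rw [(A.comm_per h m).1]; exact (A.ka_coc i).cen_one
  have h3 := ((A.ka_coc i).comm_mul_l g h (A.ι m) h1 h2).2
  rw [ccb4_mflux, ccb4_mflux, ccb4_mflux, (A.comm_per g m).1, (A.comm_per h m).1,
    (A.ka_coc i).one_l _ (D.le1 1), add_zero] at h3
  exact h3

lemma ccb4_add_m (A : CL1 n D) (i : Fin A.m) (m m' : Fin A.r0 → ℤ) (g : D.G) [D.Sm 8 g] :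
    ccb4F A i (m + m') g = ccb4F A i m g + ccb4F A i m' g := by
  have h1 : Cen (A.ka i) (comm g (A.ι m)) := by
    rw [(A.comm_per g m).1]; exact (A.ka_coc i).cen_one
  have h2 : Cen (A.ka i) (comm g (A.ι m')) := by
    rw [(A.comm_per g m').1]; exact (A.ka_coc i).cen_one
  have h3 := ((A.ka_coc i).comm_mul_r g (A.ι m) (A.ι m') h1 h2).2
  rw [← A.ι_add, ccb4_mflux, ccb4_mflux, ccb4_mflux, (A.comm_per g m).1, (A.comm_per g m').1,
    (A.ka_coc i).one_l _ (D.le1 1), add_zero] at h3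
  exact h3

lemma ccb4_smul_m (A : CL1 n D) (i : Fin A.m) (m : Fin A.r0 → ℤ) (g : D.G) [D.Sm 8 g] (j : ℕ) :
    ccb4F A i ((j : ℤ) • m) g = j * ccb4F A i m g := by
  induction j with
  | zero =>
    have h := ccb4_add_m A i 0 0 g
    rw [add_zero] at h
    simp only [Nat.cast_zero, zero_smul, zero_mul]
    linarith
  | succ j ih =>
    rw [Nat.cast_succ, add_smul, one_smul, ccb4_add_m, ih]
    push_cast
    ring

lemma ccb4_smul_g (A : CL1 n D) (i : Fin A.m) (m m' : Fin A.r0 → ℤ) (j : ℕ) :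
    ccb4F A i m (A.ι ((j : ℤ) • m')) = j * ccb4F A i m (A.ι m') := by
  induction j with
  | zero =>
    simp only [Nat.cast_zero, zero_smul, zero_mul]
    rw [A.ι_zero]
    exact (ccb4_add_g A i m).one
  | succ j ih =>
    rw [Nat.cast_succ, add_smul, one_smul, A.ι_add,
      ccb4_add_g A i m _ _ (D.le_b _) (D.le_b _), ih]
    push_cast
    ring

lemma ccb4_pos : ∀ᶠ j : ℕ in UU, (j : ℝ) ≠ 0 := by
  filter_upwards [UU_le (eventually_gt_atTop 0)] with j hj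
  exact_mod_cast hj.ne'

lemma ccb4_lim (A : CL1 n D) (i : Fin A.m) (m : Fin A.r0 → ℤ) {h : ℕ → D.G} {v : E n}
    (hs : IsSeq D A.a h v) :
    Tendsto (fun j : ℕ => (j : ℝ)⁻¹ * ccb4F A i m (h j)) UU (𝓝 0) := by
  refine (A.iso_lim i hs (A.seq_per m)).congr' ?_
  filter_upwards [hs.sm, ccb4_pos] with j hj h0
  have h1 := ccb4_smul_m A i m (h j) j
  unfold ccb4F at h1 ⊢
  rw [h1]
  field_simp

lemma ccb4_per (A : CL1 n D) (i : Fin A.m) (m m' : Fin A.r0 → ℤ) :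
    ccb4F A i m (A.ι m') = 0 := by
  have h1 := ccb4_lim A i m (A.seq_per m')
  have h2 : Tendsto (fun j : ℕ => (j : ℝ)⁻¹ * ccb4F A i m (A.ι ((j : ℤ) • m'))) UU
      (𝓝 (ccb4F A i m (A.ι m'))) := by
    refine tendsto_const_nhds.congr' ?_
    filter_upwards [ccb4_pos] with j h0
    rw [ccb4_smul_g]
    field_simp
  exact tendsto_nhds_unique h2 h1

lemma ccb4_int (A : CL1 n D) (i : Fin A.m) (m : Fin A.r0 → ℤ) (g : D.G) [D.Sm 16 g] :
    ∃ k : ℤ, ccb4F A i m g = k := by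
  obtain ⟨ν, hν⟩ := A.int i
  obtain ⟨k, hk⟩ := hν g (A.ι m) (D.le1 g) (D.le1 _)
  obtain ⟨k', hk'⟩ := hν (A.ι m) g (D.le1 _) (D.le1 g)
  rw [A.sg_per_r g m] at hk
  rw [A.sg_per m g (D.le1 g), A.ι_cen m g (D.le1 g)] at hk'
  refine ⟨k - k', ?_⟩
  simp only [mul_zero, Complex.zero_re, zero_add] at hk hk'
  unfold ccb4F
  push_cast
  linarith

namespace IsCB

variable {A : CL1 n D} (hB : IsCB A)
include hB

theorem cm_spec (g h : D.G) [D.Sm 12 g] [D.Sm 12 h] : comm g h = A.ι (A.cm g h) := by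
  have e : ∃ m, comm g h = A.ι m := A.ι_all _ (hB.cm0 g h)
  unfold CA.cm
  rw [dif_pos e]
  exact e.choose_spec

theorem cm_mul_l (g g' h : D.G) [D.Sm 8 g] [D.Sm 8 g'] [D.Sm 8 h] :
    A.cm (g * g') h = A.cm g h + A.cm g' h := by
  have h1 : Cen (D := D) (fun _ _ => (0 : ℝ)) (comm g h) := by
    rw [hB.cm_spec g h]; exact ccb4_cen A _
  have h2 : Cen (D := D) (fun _ _ => (0 : ℝ)) (comm g' h) := by
    rw [hB.cm_spec g' h]; exact ccb4_cen A _
  have h3 := (coc_zero.comm_mul_l g g' h h1 h2).1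
  rw [hB.cm_spec (g * g') h, hB.cm_spec g h, hB.cm_spec g' h, ← A.ι_add] at h3
  exact A.ι_inj h3

theorem cm_mul_r (g h h' : D.G) [D.Sm 8 g] [D.Sm 8 h] [D.Sm 8 h'] :
    A.cm g (h * h') = A.cm g h + A.cm g h' := by
  have h1 : Cen (D := D) (fun _ _ => (0 : ℝ)) (comm g h) := by
    rw [hB.cm_spec g h]; exact ccb4_cen A _
  have h2 : Cen (D := D) (fun _ _ => (0 : ℝ)) (comm g h') := by
    rw [hB.cm_spec g h']; exact ccb4_cen A _
  have h3 := (coc_zero.comm_mul_r g h h' h1 h2).1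
  rw [hB.cm_spec g (h * h'), hB.cm_spec g h, hB.cm_spec g h', ← A.ι_add] at h3
  exact A.ι_inj h3

theorem cm_swap (g h : D.G) [D.Sm 8 g] [D.Sm 8 h] : A.cm h g = -A.cm g h := by
  have h3 := (coc_zero.comm_swap g h).1
  rw [hB.cm_spec g h, hB.cm_spec h g, ← A.ι_add, ← A.ι_zero] at h3
  exact eq_neg_of_add_eq_zero_right (A.ι_inj h3)

theorem cm_per (g : D.G) [D.Sm 12 g] (m : Fin A.r0 → ℤ) :
    A.cm (A.ι m) g = 0 ∧ A.cm g (A.ι m) = 0 := by
  have h1 := hB.cm_spec (A.ι m) g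
  have h2 := hB.cm_spec g (A.ι m)
  rw [(A.comm_per g m).2, ← A.ι_zero] at h1
  rw [(A.comm_per g m).1, ← A.ι_zero] at h2
  exact ⟨(A.ι_inj h1).symm, (A.ι_inj h2).symm⟩

theorem cm_small {h h' : ℕ → D.G} {v v' : E n} (hs : IsSeq D A.a h v) (hs' : IsSeq D A.a h' v') :
    Tendsto (fun j : ℕ => (j : ℝ)⁻¹ • cz (A.cm (h j) (h' j))) UU (𝓝 0) := by
  obtain ⟨C, -, hC⟩ := A.zz_bd
  have h1 := ((A.seq_comm hs hs').2.norm).const_mul C
  rw [norm_zero, mul_zero] at h1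
  refine squeeze_zero_norm' ?_ h1
  filter_upwards [hs.sm, hs'.sm] with j hj hj'
  have h2 : A.a (comm (h j) (h' j)) = A.zz (A.cm (h j) (h' j)) := by
    rw [hB.cm_spec (h j) (h' j)]
    exact A.ι_a _
  rw [h2, norm_smul, norm_smul, mul_left_comm]
  exact mul_le_mul_of_nonneg_left (hC _).1 (norm_nonneg _)

theorem flux0 (Λ : Lat A) : ∃ e > (0 : ℝ), ∀ i m (g : D.G), D.sz g ≤ e →
    A.ka i (A.ι m) g = A.ka i g (A.ι m) := by
  obtain ⟨e, he, hS⟩ := A.mem_S Λ.d_pos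
  refine ⟨e, he, fun i m g hg => ?_⟩
  obtain ⟨φ, hφ⟩ := Λ.desc1 (ccb4F A i m) (ccb4_add_g A i m) (ccb4_per A i m)
  have h0 : ∀ f, Λ.θ f = 0 → φ f = 0 := by
    intro f hf
    obtain ⟨v, h, hs, hl⟩ := Λ.rep2 hB hf
    have h1 := (φ.continuous_of_finiteDimensional.tendsto f).comp hl
    refine tendsto_nhds_unique h1 ((ccb4_lim A i m hs).congr' ?_)
    filter_upwards [A.seq_S Λ.d_pos hs] with j hj
    simp only [Function.comp, map_smul, smul_eq_mul, hφ _ hj]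
  have hi : ∀ g ∈ A.S Λ.d, ∃ k : ℤ, φ (cz (Λ.w g)) = k := by
    intro g hg
    have := D.sm0 hg.1
    rw [hφ g hg]
    exact ccb4_int A i m g
  have hz := Λ.int_zero φ h0 (Λ.lin_int φ hi)
  have h2 := hφ g (hS g hg)
  rw [hz] at h2
  unfold ccb4F at h2
  simp only [LinearMap.zero_apply] at h2
  linarith

end IsCB

end Pool.Agent.CL
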