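import Pool.Agent.K.MP_63735c_ag.C134
import Pool.Agent.K.MP_63735c_ag.C135

/-! The forms of the commutator and of the symplectic class. -/

open scoped Matrix
open Set Filter Topology

namespace Pool.Agent.CL

open Pool.Agent.SPF LGrp

variable {n : ℕ} {D : LGrp}

lemma ccb5_sg (A : CA n D) {x k : ℕ → D.G} {v v' : E n} (hx : ∀ᶠ j in UU, D.Sm 16 (x j))
    (hv : Tendsto (fun j : ℕ => (j : ℝ)⁻¹ • A.a (x j)) UU (𝓝 v)) (hs : IsSeq D A.a k v') :
    Tendsto (fun j : ℕ => (j : ℝ)⁻¹ • A.sg (x j) (k j)) UU (𝓝 0) := by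
  obtain ⟨C, -, hC⟩ := A.sg_bd
  have h1 := (hs.1.const_mul C).mul (inv_lim.add hv.norm)
  rw [mul_zero, zero_mul] at h1
  refine squeeze_zero_norm' ?_ h1
  filter_upwards [hx, hs.sm] with j h2 h3
  have h0 : (0 : ℝ) ≤ (j : ℝ)⁻¹ := by positivity
  rw [norm_smul, norm_smul, Real.norm_of_nonneg h0]
  calc _ ≤ (j : ℝ)⁻¹ * (C * D.sz (k j) * (1 + ‖A.a (x j)‖)) :=
        mul_le_mul_of_nonneg_left (hC (x j) (k j)) h0
    _ = _ := by ring

lemma ccb5_re {f : ℕ → ℂ} {z : ℂ} (c : ℂ)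
    (h : Tendsto (fun j : ℕ => (j : ℝ)⁻¹ • f j) UU (𝓝 z)) :
    Tendsto (fun j : ℕ => (j : ℝ)⁻¹ * (c * f j).re) UU (𝓝 (c * z).re) := by
  refine ((Complex.continuous_re.tendsto _).comp (h.const_mul c)).congr fun j => ?_
  simp only [Function.comp, mul_smul_comm, Complex.smul_re, smul_eq_mul]

lemma ccb5_sq {f : ℕ → ℝ} (h : Tendsto (fun j : ℕ => (j : ℝ)⁻¹ * f j) UU (𝓝 0)) :
    Tendsto (fun j : ℕ => ((j : ℝ) ^ 2)⁻¹ * f j) UU (𝓝 0) := by
  have h1 := inv_lim.mul h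
  rw [mul_zero] at h1
  exact h1.congr fun j => by ring

lemma ccb5_co {r : ℕ} {m : ℕ → Fin r → ℤ}
    (h : Tendsto (fun j : ℕ => (j : ℝ)⁻¹ • cz (m j)) UU (𝓝 0)) (l : Fin r) :
    Tendsto (fun j : ℕ => (j : ℝ)⁻¹ * (m j l : ℝ)) UU (𝓝 0) :=
  ((continuous_apply l).tendsto _).comp h

namespace Lat

variable {A : CL1 n D} (Λ : Lat A)

theorem form_c (hB : IsCB A) (l : Fin A.r0) :
    ∃ M, Λ.Rp M (fun g h => (A.cm g h l : ℝ)) ∧ Λ.Good M := by
  obtain ⟨M, hM⟩ := Λ.desc2 (fun g h => (A.cm g h l : ℝ))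
    (fun h _ g g' hg hg' => by
      have := D.sm0 hg
      have := D.sm0 hg'
      simp only [hB.cm_mul_l g g' h, Pi.add_apply, Int.cast_add])
    (fun g _ h h' hh hh' => by
      have := D.sm0 hh
      have := D.sm0 hh'
      simp only [hB.cm_mul_r g h h', Pi.add_apply, Int.cast_add])
    (fun m h _ => by simp only [(hB.cm_per h m).1, Pi.zero_apply, Int.cast_zero])
    (fun g _ m => by simp only [(hB.cm_per g m).2, Pi.zero_apply, Int.cast_zero])
  refine ⟨M, hM, Λ.rp_int hM fun g _ k _ => ⟨_, rfl⟩, Λ.rp_skew hM fun g hg k hk => ?_,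
    Λ.rp_iso hB hM fun k v k' v' hs hs' => ccb5_sq (ccb5_co (hB.cm_small hs hs') l)⟩
  have := D.sm0 hg.1
  have := D.sm0 hk.1
  simp only [hB.cm_swap k g, Pi.neg_apply, Int.cast_neg]

theorem form_s (hB : IsCB A) (c : ℂ) :
    ∃ M, Λ.Rp M (fun g h => (c * (A.sg g h - A.sg h g)).re) ∧ Mᵀ = -M ∧
      ∀ f f', Λ.θ f = 0 → Λ.θ f' = 0 → f' ⬝ᵥ M *ᵥ f = 0 := by
  have hκ := A.sg_coc.re_mul c
  have hc : ∀ (g h : D.G) [D.Sm 12 g] [D.Sm 12 h],
      Cen (fun g k => (c * A.sg g k).re) (comm g h) := by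
    intro g h _ _
    rw [hB.cm_spec g h]
    refine ⟨A.ι_sz _, fun x _ => ⟨A.ι_cen _ x (D.le1 x), ?_⟩⟩
    simp only [A.sg_per _ x (D.le1 x), A.sg_per_r x]
  have hz : ∀ (g h x : D.G) [D.Sm 12 g] [D.Sm 12 h] [D.Sm 16 x], A.sg (comm g h) x = 0 := by
    intro g h x _ _ _
    rw [hB.cm_spec g h, A.sg_per _ x (D.le1 x)]
  have hf : ∀ (g h : D.G) [D.Sm 12 g] [D.Sm 12 h],
      (c * (A.sg g h - A.sg h g)).re = mflux (fun g k => (c * A.sg g k).re) g h := by
    intro g h _ _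
    simp only [mflux, hz g h (h * g), mul_sub, Complex.sub_re, mul_zero, Complex.zero_re,
      sub_zero]
  obtain ⟨M, hM⟩ := Λ.desc2 (fun g h => (c * (A.sg g h - A.sg h g)).re)
    (fun h _ g g' hg hg' => by
      have := D.sm0 hg
      have := D.sm0 hg'
      have e := (hκ.comm_mul_l g g' h (hc g h) (hc g' h)).2
      rw [hz g h (comm g' h), mul_zero, Complex.zero_re, add_zero] at e
      simp only [hf (g * g') h, hf g h, hf g' h, e])
    (fun g _ h h' hh hh' => by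
      have := D.sm0 hh
      have := D.sm0 hh'
      have e := (hκ.comm_mul_r g h h' (hc g h) (hc g h')).2
      rw [hz g h (comm g h'), mul_zero, Complex.zero_re, add_zero] at e
      simp only [hf g (h * h'), hf g h, hf g h', e])
    (fun m h _ => by
      simp only [A.sg_per m h (D.le1 h), A.sg_per_r h m, sub_zero, mul_zero, Complex.zero_re])
    (fun g _ m => by
      simp only [A.sg_per m g (D.le1 g), A.sg_per_r g m, sub_zero, mul_zero, Complex.zero_re])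
  refine ⟨M, hM, Λ.rp_skew hM fun g _ k _ => ?_, Λ.rp_iso hB hM fun k v k' v' hs hs' => ?_⟩
  · rw [← Complex.neg_re, ← mul_neg, neg_sub]
  have up : ∀ {k : ℕ → D.G} {v : E n}, IsSeq D A.a k v → ∀ᶠ j in UU, D.Sm 16 (k j) :=
    fun hs => hs.sm.mono fun j _ => inferInstance
  have h1 := (ccb5_sg A.toCA (up hs) hs.2 hs').sub (ccb5_sg A.toCA (up hs') hs'.2 hs)
  simp only [← smul_sub, sub_zero] at h1
  have h2 := ccb5_re c h1
  rw [mul_zero, Complex.zero_re] at h2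
  exact ccb5_sq h2

theorem form_one {M : Matrix (Fin Λ.r) (Fin Λ.r) ℝ}
    (h : Λ.Rp M fun g h => ((1 : ℂ) * (A.sg g h - A.sg h g)).re) {v : E n} {f : Fin Λ.r → ℝ}
    (hr : Λ.Rep v f) (x : Fin Λ.r → ℝ) : x ⬝ᵥ M *ᵥ f = -Λ.θ x v := by
  obtain ⟨k, hs, hf⟩ := hr
  let φ : (Fin Λ.r → ℝ) →ₗ[ℝ] ℝ :=
    { toFun := fun x => x ⬝ᵥ M *ᵥ f + Λ.θ x v
      map_add' := fun x y => by simp; ring
      map_smul' := fun t x => by simp; ring }
  have h0 : φ = 0 := Λ.lin_ext φ fun g hg => by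
    have := D.sm0 hg.1
    have h1 := (ccb5_sg A.toCA (x := fun _ => g) (Eventually.of_forall fun _ => inferInstance)
      (inv_lim.smul_const (A.a g)) hs).sub (A.Z_lim g k v hs)
    simp only [← smul_sub, zero_sub] at h1
    have h2 := tendsto_nhds_unique (Λ.rp_lim h hg hs hf) (ccb5_re 1 h1)
    change cz (Λ.w g) ⬝ᵥ M *ᵥ f + Λ.θ (cz (Λ.w g)) v = 0
    rw [h2, Λ.θ_w g hg]
    simp [CL1.th]
  exact eq_neg_of_add_eq_zero_left (LinearMap.congr_fun h0 x)

/-- If the limit action is trivial then small elements commute. -/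
theorem commute (hB : IsCB A) (hL : ∀ g ∈ A.S Λ.d, ∀ v, A.L g v = v) {g h : D.G}
    (hg : g ∈ A.S Λ.d) (hh : h ∈ A.S Λ.d) : g * h = h * g := by
  have := D.sm0 hg.1
  have := D.sm0 hh.1
  have hc : A.cm g h = 0 := by
    ext l
    obtain ⟨M, hM, hi, -, -⟩ := Λ.form_c hB l
    have h0 : M = 0 := Λ.int_zero2 hi fun f hf => by
      obtain ⟨v, k, hs, hk⟩ := Λ.rep2 hB hf
      let φ : (Fin Λ.r → ℝ) →ₗ[ℝ] ℝ :=
        { toFun := fun x => x ⬝ᵥ M *ᵥ f
          map_add' := fun x y => by simp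
          map_smul' := fun t x => by simp }
      have h0 : φ = 0 := Λ.lin_ext φ fun g' hg' => by
        have := D.sm0 hg'.1
        have h1 := A.cm_lim g' hs (m := fun j => A.cm g' (k j))
          (hs.sm.mono fun j _ => hB.cm_spec g' (k j))
        rw [hL g' hg', sub_self] at h1
        obtain ⟨C, -, hC⟩ := A.zz_bd
        have h2 := h1.norm.const_mul C
        rw [norm_zero, mul_zero] at h2
        have h3 : Tendsto (fun j : ℕ => (j : ℝ)⁻¹ • cz (A.cm g' (k j))) UU (𝓝 0) := by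
          refine squeeze_zero_norm (fun j => ?_) h2
          rw [norm_smul, norm_smul, mul_left_comm]
          exact mul_le_mul_of_nonneg_left (hC _).1 (norm_nonneg _)
        exact tendsto_nhds_unique (Λ.rp_lim hM hg' hs hk) (ccb5_co h3 l)
      ext i
      simpa [φ] using LinearMap.congr_fun h0 (Pi.single i 1)
    have h1 := hM g hg h hh
    rw [h0, Matrix.zero_mulVec, dotProduct_zero] at h1
    exact Int.cast_eq_zero.1 h1.symm
  have e := comm_mul g h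
  rw [hB.cm_spec g h, hc, A.ι_zero, LGrp.one_mul (h * g)] at e
  exact e.symm

end Lat

end Pool.Agent.CL
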