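import Pool.Agent.K.MP_63735c_ag.C136
import Pool.Agent.K.MP_63735c_ag.C131

/-! The integral forms. -/

open scoped Matrix
open Set Filter Topology

namespace Pool.Agent.CL

open Pool.Agent.SPF LGrp

variable {n : ℕ} {D : LGrp}

namespace Lat

variable {A : CL1 n D} (Λ : Lat A)

lemma ccb6_cen (hN : NoFlux A) (i : Fin A.m) (m : Fin A.r0 → ℤ) : Cen (A.ka i) (A.ι m) :=
  ⟨A.ι_sz m, fun x _ => ⟨A.ι_cen m x (D.le1 x), hN i m x⟩⟩

lemma ccb6_t (hN : NoFlux A) (i : Fin A.m) : ∃ (t : (Fin A.r0 → ℤ) → ℝ) (C : ℝ),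
    (∀ x y, t (x + y) = t x + t y + A.ka i (A.ι x) (A.ι y)) ∧
      ∀ x, |t x| ≤ C * (1 + ‖cz x‖) ^ 2 := by
  have h1 : ∀ m, D.sz (A.ι m) ≤ 1 := fun m => by rw [A.ι_sz]; exact zero_le_one
  refine sym_coc (fun x y => A.ka i (A.ι x) (A.ι y)) (fun x y z => ?_) (fun x y => hN i x _)
    (fun x => ?_) (fun e => ?_)
  · rw [A.ι_add, A.ι_add]
    exact (A.ka_coc i).coc _ _ _ (h1 x) (h1 y) (h1 z)
  · rw [A.ι_zero]
    exact (A.ka_coc i).one_l _ (h1 x)
  · obtain ⟨C, hC, H⟩ := (A.ka_bd i).a1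
    obtain ⟨C', hC', H'⟩ := A.zz_bd
    refine ⟨C * (1 + ‖A.zz e‖ + C') * (1 + ‖A.zz e‖), fun x => ?_⟩
    have e1 : ∀ m, A.a (A.ι m) = A.zz m := A.ι_a
    have n1 := norm_nonneg (A.zz e)
    have n2 := norm_nonneg (A.zz x)
    have n3 := norm_nonneg (cz x)
    have h2 := H (A.ι e) (A.ι x) (1 + ‖A.zz e‖ + ‖A.zz x‖) (h1 e) (h1 x) (by linarith)
      (by rw [e1]; linarith) (by rw [e1]; linarith)
    rw [e1, A.ι_sz, mul_zero, add_zero] at h2
    have h3 : 1 + ‖A.zz e‖ + ‖A.zz x‖ ≤ (1 + ‖A.zz e‖ + C') * (1 + ‖cz x‖) := by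
      nlinarith [(H' x).2, mul_nonneg n1 n3]
    calc _ ≤ _ := h2
      _ ≤ C * ((1 + ‖A.zz e‖ + C') * (1 + ‖cz x‖)) * (1 + ‖A.zz e‖) := by gcongr
      _ = _ := by ring

theorem form_a (hB : IsCB A) (hN : NoFlux A) (i : Fin A.m) :
    ∃ (t : (Fin A.r0 → ℤ) → ℝ) (M : Matrix (Fin Λ.r) (Fin Λ.r) ℝ),
      (∀ x y, t (x + y) = t x + t y + A.ka i (A.ι x) (A.ι y)) ∧
      Λ.Rp M (fun g h => mflux (A.ka i) g h - t (A.cm g h)) ∧ Mᵀ = -M ∧
      ∀ f f', Λ.θ f = 0 → Λ.θ f' = 0 → f' ⬝ᵥ M *ᵥ f = 0 := by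
  obtain ⟨t, C, ht, hb⟩ := ccb6_t hN i
  have hκ := A.ka_coc i
  have t0 : t 0 = 0 := by
    have := ht 0 0
    rw [add_zero, A.ι_zero, hκ.one_l 1 (D.le1 1)] at this
    linarith
  have cen : ∀ (g h : D.G) [D.Sm 12 g] [D.Sm 12 h], Cen (A.ka i) (comm g h) := fun g h _ _ => by
    rw [hB.cm_spec g h]; exact ccb6_cen hN i _
  obtain ⟨M, hM⟩ := Λ.desc2 (fun g h => mflux (A.ka i) g h - t (A.cm g h))
    (fun h _ g g' hg hg' => by
      have := D.sm0 hg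
      have := D.sm0 hg'
      show mflux _ (g * g') h - _ = _
      rw [(hκ.comm_mul_l g g' h (cen g h) (cen g' h)).2, hB.cm_mul_l g g' h, ht,
        hB.cm_spec g h, hB.cm_spec g' h]
      ring)
    (fun g _ h h' hh hh' => by
      have := D.sm0 hh
      have := D.sm0 hh'
      show mflux _ g (h * h') - _ = _
      rw [(hκ.comm_mul_r g h h' (cen g h) (cen g h')).2, hB.cm_mul_r g h h', ht,
        hB.cm_spec g h, hB.cm_spec g h']
      ring)
    (fun m h _ => by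
      show mflux _ _ h - _ = 0
      rw [mflux, (A.comm_per h m).2, hκ.one_l _ (D.le1 _), (hB.cm_per h m).1, t0, hN i m h]
      ring)
    (fun g _ m => by
      show mflux _ g _ - _ = 0
      rw [mflux, (A.comm_per g m).1, hκ.one_l _ (D.le1 _), (hB.cm_per g m).2, t0, hN i m g]
      ring)
  refine ⟨t, M, ht, hM, Λ.rp_skew hM fun g hg k hk => ?_, Λ.rp_iso hB hM fun k v k' v' hs hs' => ?_⟩
  · have := D.sm0 hg.1
    have := D.sm0 hk.1
    have h1 := (hκ.comm_swap g k).2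
    have h2 := ht (A.cm g k) (A.cm k g)
    rw [← hB.cm_spec g k, ← hB.cm_spec k g, hB.cm_swap g k, add_neg_cancel, t0] at h2
    rw [hB.cm_swap g k]
    linarith
  · have h1 := A.iso_lim i hs hs'
    have h2 := (A.ka_bd i).lim1 (A.seq_comm hs hs') (A.tm_mul le_rfl (hs'.tm 15) (hs.tm 15))
    have h3 : Tendsto (fun j : ℕ => ((j : ℝ) ^ 2)⁻¹ * t (A.cm (k j) (k' j))) UU (𝓝 0) := by
      have h4 := ((inv_lim.add (hB.cm_small hs hs').norm).pow 2).const_mul C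
      simp only [norm_zero, add_zero, ne_eq, OfNat.ofNat_ne_zero, not_false_eq_true, zero_pow,
        mul_zero] at h4
      refine squeeze_zero_norm (fun j => ?_) h4
      have hj : (0 : ℝ) ≤ (j : ℝ)⁻¹ := by positivity
      rw [norm_mul, norm_smul, Real.norm_of_nonneg hj, Real.norm_of_nonneg (by positivity),
        Real.norm_eq_abs]
      calc _ ≤ ((j : ℝ) ^ 2)⁻¹ * (C * (1 + ‖cz (A.cm (k j) (k' j))‖) ^ 2) :=
            mul_le_mul_of_nonneg_left (hb _) (by positivity)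
        _ = _ := by ring
    have h5 := (h1.sub h2).sub h3
    simp only [sub_zero] at h5
    refine h5.congr fun j => ?_
    simp only [mflux]
    ring

theorem form_b (hB : IsCB A) (hN : NoFlux A) (i : Fin A.m) :
    ∃ (t : (Fin A.r0 → ℤ) → ℝ) (τ : Fin A.r0 → ℝ) (K : Matrix (Fin Λ.r) (Fin Λ.r) ℝ),
      (∀ x y, t (x + y) = t x + t y + A.ka i (A.ι x) (A.ι y)) ∧ Λ.Good K ∧
      Λ.Rp K fun g h => (A.c i * (A.sg g h - A.sg h g)).re + mflux (A.ka i) g h -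
        t (A.cm g h) + ∑ l, τ l * A.cm g h l := by
  obtain ⟨t, Ma, ht, ha, ha1, ha2⟩ := Λ.form_a hB hN i
  obtain ⟨Ms, hs, hs1, hs2⟩ := Λ.form_s hB (A.c i)
  choose Ml hl hl1 using Λ.form_c hB
  obtain ⟨ν, hν⟩ := A.int i
  obtain ⟨τ, hτ⟩ := near_hom (fun x => t x + ν (A.ι x)) fun x y => by
    obtain ⟨k, hk⟩ := hν (A.ι x) (A.ι y) (D.le1 _) (D.le1 _)
    rw [A.sg_per x _ (D.le1 _), ← A.ι_add] at hk
    refine ⟨k, ?_⟩
    rw [ht, ← hk]
    simp only [mul_zero, Complex.zero_re]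
    ring
  have hR : Λ.Rp (Ms + Ma + ∑ l, τ l • Ml l) fun g h => (A.c i * (A.sg g h - A.sg h g)).re +
      mflux (A.ka i) g h - t (A.cm g h) + ∑ l, τ l * A.cm g h l := by
    intro g hg h hh
    rw [Matrix.add_mulVec, Matrix.add_mulVec, dotProduct_add, dotProduct_add, hs g hg h hh,
      ha g hg h hh, Matrix.sum_mulVec, dotProduct_sum]
    simp only [Matrix.smul_mulVec, dotProduct_smul, smul_eq_mul, fun l => hl l g hg h hh]
    ring
  refine ⟨t, τ, _, ht, ⟨Λ.rp_int hR fun g hg h hh => ?_, ?_, fun f f' hf hf' => ?_⟩, hR⟩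
  · have := D.sm0 hg.1
    have := D.sm0 hh.1
    obtain ⟨k1, e1⟩ := hν g h (D.le1 _) (D.le1 _)
    obtain ⟨k2, e2⟩ := hν h g (D.le1 _) (D.le1 _)
    obtain ⟨k3, e3⟩ := hν (comm g h) (h * g) (D.le1 _) (D.le1 _)
    obtain ⟨k4, e4⟩ := hτ (A.cm g h)
    have e5 : A.sg (comm g h) (h * g) = 0 := by
      rw [hB.cm_spec g h]; exact A.sg_per _ _ (D.le1 _)
    rw [comm_mul g h, e5, mul_zero, Complex.zero_re] at e3
    rw [← hB.cm_spec g h] at e4
    refine ⟨k1 - k2 - k3 - k4, ?_⟩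
    simp only [mflux, mul_sub, Complex.sub_re]
    push_cast
    linarith
  · simp only [Matrix.transpose_add, Matrix.transpose_sum, Matrix.transpose_smul, hs1, ha1,
      fun l => (hl1 l).2.1, smul_neg, Finset.sum_neg_distrib, neg_add]
  · rw [Matrix.add_mulVec, Matrix.add_mulVec, dotProduct_add, dotProduct_add, hs2 f f' hf hf',
      ha2 f f' hf hf', Matrix.sum_mulVec, dotProduct_sum]
    simp [Matrix.smul_mulVec, dotProduct_smul, fun l => (hl1 l).2.2 f f' hf hf']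

end Lat

end Pool.Agent.CL
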