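import Pool.Agent.K.MP_63735c_ag.C123
import Pool.Agent.K.MP_63735c_ag.C127
import Pool.Agent.K.MP_63735c_ag.C132
import Pool.Agent.K.MP_63735c_ag.C139

/-! The abstract theorem. -/

open scoped Matrix
open Set Filter Topology

namespace Pool.Agent.CL

open Pool.Agent.SPF LGrp

variable {n : ℕ} {D : LGrp}

theorem CA.top (A : CA n D) : A.V0 = ⊤ := by
  obtain ⟨B, rfl⟩ := A.exists_CL1
  obtain ⟨b, h0, h1, hB⟩ := B.toCB
  obtain ⟨Λ⟩ := hB.exists_lat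
  obtain ⟨e, he, hf⟩ := hB.flux0 Λ
  obtain ⟨b', h0', h1', hb⟩ := (D.reb b h0 h1).exists_reb he
  have hB' := hB.reb b' h0' h1'
  obtain ⟨Λ'⟩ := hB'.exists_lat
  exact Λ'.V0_top hB' fun i m g hg => hf i m g (hb 16 le_rfl g hg)

end Pool.Agent.CL
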