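import Pool.Agent.K.MP_63735c_ag.C71

/-! Words in a local group. -/

open scoped ContDiff Matrix ENNReal
open Set Metric MeasureTheory Filter Topology

namespace Pool.Agent.CL

open Pool.Agent.SPF

variable {G J : Type} [NormedAddCommGroup J] (g : LG G J)

/-- The product of a word. -/
def LG.prod (w : List G) : G := w.foldr g.mul g.one

/-- All right initial products have size at most `t`. -/
def LG.Lev (t : ℝ) (w : List G) : Prop := ∀ k, g.sz (g.prod (w.drop k)) ≤ t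

/-- The inverse word. -/
def LG.winv (w : List G) : List G := (w.map g.inv).reverse

/-- An alphabet of small letters, closed under inversion. -/
def LG.Let (d : ℝ) (S : Set G) : Prop := ∀ a ∈ S, g.sz a ≤ d ∧ g.inv a ∈ S

/-- A word over `S`. -/
def Over (S : Set G) (w : List G) : Prop := ∀ a ∈ w, a ∈ S

theorem LG.basic {a b : G} (ha : g.sz a ≤ g.ε) (hb : g.sz b ≤ g.ε) : g.sz g.one = 0 ∧ 0 ≤ g.sz a ∧
    g.sz (g.mul a b) ≤ g.sz a + g.L * g.sz b ∧ g.sz (g.mul a b) ≤ g.L * g.sz a + g.sz b ∧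
    g.sz (g.inv a) ≤ g.L * g.sz a ∧ (g.L ^ 2 * g.sz a ≤ g.ε → g.inv (g.inv a) = a ∧
      g.sz (g.mul (g.inv a) b) ≤ g.L * ‖g.jt b - g.jt a‖ ∧ g.mul a (g.mul (g.inv a) b) = b ∧
      g.mul (g.inv a) (g.mul a b) = b) := by
  have h0 : g.sz g.one = 0 := by simp [LG.sz]
  have h1 : g.sz g.one ≤ g.ε := by rw [h0]; exact g.ε_pos.le
  have hL := g.L_ge
  have hn : ∀ c, 0 ≤ g.sz c := fun c => norm_nonneg _
  have hi : ∀ c, g.sz c ≤ g.ε → g.sz (g.inv c) ≤ g.L * g.sz c := fun c hc => by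
    have h := g.lip_inv c g.one hc h1
    rwa [g.inv_one] at h
  refine ⟨h0, hn a, ?_, ?_, hi a ha, fun h => ?_⟩
  · have h := g.lip_r a b g.one ha hb h1
    rw [g.mul_one a ha] at h
    have h2 := norm_sub_le_norm_sub_add_norm_sub (g.jt (g.mul a b)) (g.jt a) (g.jt g.one)
    unfold LG.sz
    linarith
  · have h := g.lip_l a g.one b ha h1 hb
    rw [g.one_mul b hb] at h
    have h2 := norm_sub_le_norm_sub_add_norm_sub (g.jt (g.mul a b)) (g.jt b) (g.jt g.one)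
    unfold LG.sz
    linarith
  · have h2 : g.L * g.sz a ≤ g.L ^ 2 * g.sz a :=
      mul_le_mul_of_nonneg_right (by nlinarith) (hn a)
    have h3 : g.sz (g.inv a) ≤ g.ε := (hi a ha).trans (h2.trans h)
    have h4 : g.sz (g.inv (g.inv a)) ≤ g.ε := by
      have h5 := hi _ h3
      have h6 : g.L * g.sz (g.inv a) ≤ g.L * (g.L * g.sz a) :=
        mul_le_mul_of_nonneg_left (hi a ha) (by linarith)
      nlinarith
    refine ⟨?_, ?_, ?_, ?_⟩
    · have h5 := g.assoc (g.inv (g.inv a)) (g.inv a) a h4 h3 ha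
      rw [g.inv_mul _ h3, g.inv_mul a ha, g.one_mul a ha, g.mul_one _ h4] at h5
      exact h5.symm
    · have h5 := g.lip_r (g.inv a) b a h3 hb ha
      rwa [g.inv_mul a ha] at h5
    · rw [← g.assoc a (g.inv a) b ha h3 hb, g.mul_inv a ha, g.one_mul b hb]
    · rw [← g.assoc (g.inv a) a b h3 ha hb, g.inv_mul a ha, g.one_mul b hb]

theorem LG.lev_cons {t : ℝ} {a : G} {w : List G} :
    g.Lev t (a :: w) ↔ g.sz (g.prod (a :: w)) ≤ t ∧ g.Lev t w := by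
  refine ⟨fun h => ⟨h 0, fun k => h (k + 1)⟩, fun h k => ?_⟩
  cases k with
  | zero => exact h.1
  | succ k => exact h.2 k

theorem LG.lev_nil {t : ℝ} (ht : 0 ≤ t) : g.Lev t [] := by
  intro k
  rw [List.drop_nil]
  simpa [LG.sz, LG.prod] using ht

theorem LG.Lev.mono {g : LG G J} {t t' : ℝ} {w : List G} (h : g.Lev t w) (ht : t ≤ t') :
    g.Lev t' w := fun k => (h k).trans ht

theorem LG.append {t t' η : ℝ} {w p : List G} (hl : ∀ a ∈ w, g.sz a ≤ g.ε) (hw : g.Lev t w)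
    (hp : g.Lev t' p) (he : g.sz (g.prod p) ≤ η) (ht : t + g.L * η ≤ t') (hε : t' ≤ g.ε) :
    g.prod (w ++ p) = g.mul (g.prod w) (g.prod p) ∧ g.Lev t' (w ++ p) := by
  have hL := g.L_ge
  have hpε : g.sz (g.prod p) ≤ g.ε := (hp 0).trans hε
  have hη : 0 ≤ η := (norm_nonneg _).trans he
  have hLη : 0 ≤ g.L * η := mul_nonneg (by linarith) hη
  induction w with
  | nil => exact ⟨(g.one_mul _ hpε).symm, hp⟩
  | cons a w ih =>
    obtain ⟨h1, h2⟩ := g.lev_cons.1 hw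
    obtain ⟨h3, h4⟩ := ih (fun b hb => hl b (List.mem_cons_of_mem _ hb)) h2
    have h5 : g.sz (g.prod w) ≤ g.ε := by linarith [show g.sz (g.prod w) ≤ t from h2 0]
    have e : g.prod (a :: w ++ p) = g.mul (g.prod (a :: w)) (g.prod p) := by
      show g.mul a (g.prod (w ++ p)) = g.mul (g.mul a (g.prod w)) (g.prod p)
      rw [h3, g.assoc a _ _ (hl a List.mem_cons_self) h5 hpε]
    refine ⟨e, g.lev_cons.2 ⟨?_, h4⟩⟩
    show g.sz (g.prod (a :: w ++ p)) ≤ t'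
    have h6 := (g.basic (a := g.prod (a :: w)) (by linarith) hpε).2.2.1
    have h7 : g.L * g.sz (g.prod p) ≤ g.L * η := mul_le_mul_of_nonneg_left he (by linarith)
    rw [e]
    linarith

theorem clw_winv {t t' : ℝ} {e : G} (he : g.sz e ≤ g.ε) (ht : t + g.L * g.sz e ≤ t')
    (hε : t' ≤ g.ε) (k : List G) : ∀ p : List G, (∀ a ∈ k, g.L ^ 2 * g.sz a ≤ g.ε) → g.Lev t k →
      g.Lev t' p → g.prod p = g.mul (g.prod k) e →
      g.prod (g.winv k ++ p) = e ∧ g.Lev t' (g.winv k ++ p) := by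
  have hL := g.L_ge
  have hLe : 0 ≤ g.L * g.sz e := mul_nonneg (by linarith) (norm_nonneg _)
  induction k with
  | nil =>
    intro p _ _ hp h
    exact ⟨h.trans (g.one_mul e he), hp⟩
  | cons a k ih =>
    intro p hl hk hp h
    obtain ⟨-, h2⟩ := g.lev_cons.1 hk
    have ha2 := hl a List.mem_cons_self
    have ha : g.sz a ≤ g.ε := by
      have h0 : 0 ≤ g.sz a := norm_nonneg _
      nlinarith [mul_nonneg (show 0 ≤ g.L ^ 2 - 1 by nlinarith) h0]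
    have h3 : g.sz (g.prod k) ≤ t := h2 0
    have h4 : g.sz (g.prod k) ≤ g.ε := by linarith
    have h5 : g.sz (g.mul (g.prod k) e) ≤ t' := by linarith [(g.basic h4 he).2.2.1]
    have h6 : g.prod (g.inv a :: p) = g.mul (g.prod k) e := by
      show g.mul (g.inv a) (g.prod p) = _
      rw [h]
      show g.mul (g.inv a) (g.mul (g.mul a (g.prod k)) e) = _
      rw [g.assoc a _ e ha h4 he]
      exact ((g.basic ha (h5.trans hε)).2.2.2.2.2 ha2).2.2.2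
    have e1 : g.winv (a :: k) ++ p = g.winv k ++ (g.inv a :: p) := by simp [LG.winv]
    rw [e1]
    exact ih _ (fun b hb => hl b (List.mem_cons_of_mem _ hb)) h2
      (g.lev_cons.2 ⟨by rw [h6]; exact h5, hp⟩) h6

theorem LG.winv_append {t t' η : ℝ} {k p : List G} (hl : ∀ a ∈ k, g.L ^ 2 * g.sz a ≤ g.ε)
    (hk : g.Lev t k) (hp : g.Lev t' p) (he : ‖g.jt (g.prod p) - g.jt (g.prod k)‖ ≤ η)
    (ht : t + g.L ^ 2 * η ≤ t') (hε : g.L ^ 2 * t' ≤ g.ε) :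
    g.prod (g.winv k ++ p) = g.mul (g.inv (g.prod k)) (g.prod p) ∧ g.Lev t' (g.winv k ++ p) ∧
      g.sz (g.prod (g.winv k ++ p)) ≤ g.L * η := by
  have hL := g.L_ge
  have hη : 0 ≤ η := (norm_nonneg _).trans he
  have hk0 : g.sz (g.prod k) ≤ t := hk 0
  have hp0 : g.sz (g.prod p) ≤ t' := hp 0
  have hkn : 0 ≤ g.sz (g.prod k) := norm_nonneg _
  have hL2 : 1 ≤ g.L ^ 2 := by nlinarith
  have hLη : 0 ≤ g.L ^ 2 * η := mul_nonneg (by linarith) hη
  have ht' : 0 ≤ t' := by linarith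
  have hε' : t' ≤ g.ε := by nlinarith
  have h1 : g.L ^ 2 * g.sz (g.prod k) ≤ g.ε :=
    (mul_le_mul_of_nonneg_left (by linarith) (by linarith)).trans hε
  obtain ⟨-, h2, h3, -⟩ := (g.basic (a := g.prod k) (b := g.prod p) (by linarith)
    (by linarith)).2.2.2.2.2 h1
  have h4 : g.sz (g.mul (g.inv (g.prod k)) (g.prod p)) ≤ g.L * η :=
    h2.trans (mul_le_mul_of_nonneg_left he (by linarith))
  have h5 : g.L * g.sz (g.mul (g.inv (g.prod k)) (g.prod p)) ≤ g.L ^ 2 * η := by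
    have h := mul_le_mul_of_nonneg_left h4 (show 0 ≤ g.L by linarith)
    nlinarith
  have h6 : g.L * η ≤ g.L ^ 2 * η := mul_le_mul_of_nonneg_right (by nlinarith) hη
  obtain ⟨h7, h8⟩ := clw_winv g (t := t) (t' := t') (e := g.mul (g.inv (g.prod k)) (g.prod p))
    (by linarith) (by linarith) hε' k p hl hk hp h3.symm
  exact ⟨h7, h8, by rw [h7]; exact h4⟩

theorem LG.over_winv {d : ℝ} {S : Set G} (hS : g.Let d S) {w : List G} (hw : Over S w) :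
    Over S (g.winv w) := by
  intro a ha
  obtain ⟨b, hb, rfl⟩ := List.mem_map.1 (List.mem_reverse.1 ha)
  exact (hS b (hw b hb)).2

/-- A finite set of words that brings every word with small end back to the identity. -/
structure LG.RC (S : Set G) (δ a : ℝ) (𝒦 : Set (List G)) : Prop where
  δ_pos : 0 < δ
  a_ge : 2 * δ ≤ a
  a_le : 10 * g.L ^ 2 * (a + 4 * δ) ≤ g.ε
  fin : 𝒦.Finite
  mem : ∀ k ∈ 𝒦, Over S k ∧ g.Lev a k ∧ g.sz (g.prod k) ≤ 2 * δ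
  re : ∀ p, Over S p → g.Lev (a + 4 * δ) p → g.sz (g.prod p) ≤ 2 * δ → ∃ k ∈ 𝒦,
    g.prod (g.winv k ++ p) = g.mul (g.inv (g.prod k)) (g.prod p) ∧
    g.sz (g.prod (g.winv k ++ p)) ≤ δ / (2 * g.L) ∧
    ∀ t, a + δ ≤ t → t ≤ a + 4 * δ → g.Lev t p → g.Lev t (g.winv k ++ p)

theorem LG.RC.restrict {g : LG G J} {S S' : Set G} {δ a : ℝ} {𝒦 : Set (List G)}
    (h : g.RC S δ a 𝒦) (hs : S' ⊆ S) (hk : ∀ k ∈ 𝒦, Over S' k) : g.RC S' δ a 𝒦 :=
  ⟨h.δ_pos, h.a_ge, h.a_le, h.fin, fun k hk' => ⟨hk k hk', (h.mem k hk').2⟩,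
    fun p hp => h.re p fun b hb => hs (hp b hb)⟩

theorem LG.exists_RC [NormedSpace ℝ J] [FiniteDimensional ℝ J] {t : ℝ} (ht : 0 < t) :
    ∃ δ1 > (0 : ℝ), ∀ δ, 0 < δ → δ ≤ δ1 → ∀ S, g.Let (δ / (4 * g.L)) S →
      ∃ a 𝒦, g.RC S δ a 𝒦 ∧ a + 4 * δ ≤ t := by
  have hL := g.L_ge
  have hε := g.ε_pos
  have hL0 : 0 < g.L := by linarith
  have hL2 : 0 < g.L ^ 2 := by positivity
  obtain ⟨N, hN⟩ := doubling J (D := 8 * g.L ^ 2) (by positivity)
  refine ⟨min t (g.ε / (10 * g.L ^ 2)) / (4 * N + 6), by positivity, fun δ hδ hδ1 S hS => ?_⟩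
  rw [le_div_iff₀ (by positivity), le_min_iff, le_div_iff₀ (by positivity)] at hδ1
  obtain ⟨b1, b2⟩ := hδ1
  let En : ℕ → Set (List G) := fun j =>
    {p | Over S p ∧ g.Lev (2 * δ + 4 * j * δ) p ∧ g.sz (g.prod p) ≤ 2 * δ}
  have key : ∃ j : Fin (N + 1), ∀ p ∈ En (j + 1), ∃ q ∈ En j,
      ‖g.jt (g.prod p) - g.jt (g.prod q)‖ ≤ δ / (4 * g.L ^ 2) := by
    by_contra hc
    push Not at hc
    choose p hp hfar using hc
    obtain ⟨i, j, hij, h⟩ := hN (g.jt g.one) (2 * δ) (fun i => g.jt (g.prod (p i)))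
      (by positivity) fun i => (hp i).2.2
    have h1 : ((i : ℕ) + 1 : ℕ) ≤ (j : ℕ) := hij
    have h2 : (((i : ℕ) + 1 : ℕ) : ℝ) ≤ ((j : ℕ) : ℝ) := Nat.cast_le.2 h1
    have h3 := hfar j (p i) ⟨(hp i).1, (hp i).2.1.mono (by nlinarith), (hp i).2.2⟩
    have h4 : 2 * δ / (8 * g.L ^ 2) = δ / (4 * g.L ^ 2) := by field_simp; ring
    rw [norm_sub_rev, h4] at h
    exact absurd h (not_le.2 h3)
  obtain ⟨j, hj⟩ := key
  have hjN : ((j : ℕ) : ℝ) ≤ N := Nat.cast_le.2 (Nat.lt_succ_iff.1 j.2)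
  have hj0 : (0 : ℝ) ≤ ((j : ℕ) : ℝ) := Nat.cast_nonneg _
  obtain ⟨K, hK, hKs, hKn⟩ := exists_net (fun p => g.jt (g.prod p)) (En j) (x0 := g.jt g.one)
    (R := 2 * δ) (δ := δ / (4 * g.L ^ 2)) (by positivity) fun p hp => hp.2.2
  have ha : 2 * δ + 4 * (j : ℕ) * δ + 4 * δ ≤ δ * (4 * N + 6) := by nlinarith
  have ha' : 10 * g.L ^ 2 * (2 * δ + 4 * (j : ℕ) * δ + 4 * δ) ≤ g.ε := by nlinarith
  have hjδ : 0 ≤ 4 * ((j : ℕ) : ℝ) * δ := by positivity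
  refine ⟨2 * δ + 4 * (j : ℕ) * δ, K, ⟨hδ, by linarith, ha', hK, fun k hk => hKs hk,
    fun p hp hl he => ?_⟩, ha.trans b1⟩
  obtain ⟨q, hq, h1⟩ := hj p ⟨hp, hl.mono (le_of_eq (by push_cast; ring)), he⟩
  obtain ⟨k, hk, h2⟩ := hKn q hq
  have h3 : ‖g.jt (g.prod p) - g.jt (g.prod k)‖ ≤ δ / (2 * g.L ^ 2) := by
    have h := norm_sub_le_norm_sub_add_norm_sub (g.jt (g.prod p)) (g.jt (g.prod q))
      (g.jt (g.prod k))
    have e : δ / (2 * g.L ^ 2) = δ / (4 * g.L ^ 2) + δ / (4 * g.L ^ 2) := by field_simp; ring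
    linarith
  have h4 : ∀ c ∈ k, g.L ^ 2 * g.sz c ≤ g.ε := fun c hc => by
    have h := (hS c ((hKs hk).1 c hc)).1
    have h' : δ / (4 * g.L) ≤ δ := div_le_self hδ.le (by linarith)
    have h'' : g.L ^ 2 * g.sz c ≤ g.L ^ 2 * δ := mul_le_mul_of_nonneg_left (by linarith) hL2.le
    nlinarith
  have h5 : g.L ^ 2 * (δ / (2 * g.L ^ 2)) = δ / 2 := by field_simp
  have h6 : g.L * (δ / (2 * g.L ^ 2)) = δ / (2 * g.L) := by field_simp
  have h7 : ∀ s, 2 * δ + 4 * (j : ℕ) * δ + δ ≤ s → s ≤ 2 * δ + 4 * (j : ℕ) * δ + 4 * δ →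
      g.Lev s p → _ := fun s s1 s2 s3 =>
    g.winv_append h4 (hKs hk).2.1 s3 h3 (by rw [h5]; linarith) (by nlinarith)
  obtain ⟨h8, -, h9⟩ := h7 _ (by linarith) le_rfl hl
  exact ⟨k, hk, h8, h6 ▸ h9, fun s s1 s2 s3 => (h7 s s1 s2 s3).2.1⟩

end Pool.Agent.CL
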