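import Pool.Agent.K.MP_63735c_ag.C119
import Pool.Agent.K.MP_63735c_ag.C113
import Pool.Agent.K.MP_63735c_ag.C78

/-! The geometric setting of part C: the local group of small returns at a base point. -/

open scoped ContDiff Matrix
open Set Metric MeasureTheory Filter Topology

namespace Pool.Agent.CL

open Pool.Agent.SPF LGrp

variable {n : ℕ} {X : Type} [TopologicalSpace X] [MeasurableSpace X]

/-- The return data with a given isometry. -/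
def Setup.rt (S : Setup n X) (j : S.G.G) (α : E n → E n) : Ret n := ⟨S.G.γ j, α, S.G.N j⟩

/-- The pair j, α is a return germ at `y`. -/
def Setup.Gm (S : Setup n X) (y : E n) (j : S.G.G) (α : E n → E n) : Prop :=
  Germ S.M.T S.M.Ψ y (S.rt j α)

/-- A ball on which small returns are dense along the leaves and extend uniformly. -/
structure Loc (S : Setup n X) where
  y1 : E n
  ρ : ℝ
  δ : ℝ
  C : ℝ
  X0 : Set (Fin S.Q.r0 → ℂ)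
  ρ_pos : 0 < ρ
  δ_pos : 0 < δ
  C_ge : 1 ≤ C
  ρ_le : 8 * ρ ≤ min S.G.r 1
  sub : ball y1 (4 * ρ) ⊆ ball S.G.y0 (S.G.r / 2)
  δ_le : 8 * (S.G.lg.L ^ 3 * δ) ≤ S.G.lg.ε
  fin : X0.Finite
  kk : ∀ y ∈ ball y1 (4 * ρ), ∀ ξ, ∃ j α, S.G.lg.sz j ≤ δ ∧ S.Gm y j α ∧ ‖α y - ξ‖ ≤ C ∧
    S.chi j ∈ X0
  comp : ∀ y ∈ ball y1 (4 * ρ), ∀ j α, S.G.lg.sz j ≤ δ → S.Gm y j α →
    ∃ α', IsRet S.M.T S.M.Ψ (ball y (4 * ρ)) (S.rt j α') ∧ α' =ᶠ[𝓝 y] α ∧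
      ∀ x ∈ ball y (4 * ρ), ‖α' x‖ ≤ C * (1 + ‖α y‖)

variable {S : Setup n X}

/-- The local group of small returns at the base point. -/
structure Gam (l : Loc S) (D : LGrp) where
  lam : ℝ
  j : D.G → S.G.G
  α : D.G → E n → E n
  lam_pos : 0 < lam
  lam_le : 8 * (S.G.lg.L ^ 3 * lam) ≤ l.δ
  small : 16 * (S.G.lg.L * lam) ≤ l.ρ
  sz_eq : ∀ g, S.G.lg.sz (j g) = lam * D.sz g
  sz_le : ∀ g, S.G.lg.sz (j g) ≤ l.δ
  ret : ∀ g, IsRet S.M.T S.M.Ψ (ball l.y1 (4 * l.ρ)) (S.rt (j g) (α g))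
  bd : ∀ g, ∀ x ∈ ball l.y1 (4 * l.ρ), ‖α g x‖ ≤ l.C * (1 + ‖α g l.y1‖)
  inj : ∀ g h, α g l.y1 = α h l.y1 → g = h
  full : ∀ j' α', S.G.lg.sz j' ≤ l.δ → S.Gm l.y1 j' α' → ∃ g, j g = j' ∧ α g =ᶠ[𝓝 l.y1] α'
  j_one : j 1 = S.G.lg.one
  α_one : ∀ x ∈ ball l.y1 (4 * l.ρ), α 1 x = 0
  j_mul : ∀ g h, D.sz g ≤ 1 → D.sz h ≤ 1 → j (g * h) = S.G.lg.mul (j g) (j h)
  j_inv : ∀ g, D.sz g ≤ 1 → j g⁻¹ = S.G.lg.inv (j g)
  α_mul : ∀ g h, D.sz g ≤ 1 → D.sz h ≤ 1 → ∀ x ∈ ball l.y1 (3 * l.ρ), α (g * h) x =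
    α h x + tr (fderiv ℂ (S.G.γ (j h)) x) (α g (S.G.γ (j h) x))

/-- The norm at height `R`. -/
noncomputable def qn (R : ℝ) (u : P n) : ℝ := ‖u.2‖ + R * ‖u.1‖

/-- Growth of a 2-form along the leaves. -/
def Tame (l : Loc S) (t : Form2 (P n)) : Prop :=
  ∃ K, 0 ≤ K ∧ ∀ (p : P n) (R : ℝ), p.1 ∈ ball l.y1 (4 * l.ρ) → 1 ≤ R → ‖p.2‖ ≤ R →
    ∀ u v, |t p u v| ≤ K * qn R u * qn R v

/-- The base point. -/
def Loc.o (l : Loc S) : P n := (l.y1, 0)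

namespace Gam

variable {l : Loc S} {D : LGrp} (Γ : Gam l D)

/-- The return of an element. -/
def rt (g : D.G) : Ret n := S.rt (Γ.j g) (Γ.α g)

/-- The isometry of an element. -/
def γ (g : D.G) : E n → E n := S.G.γ (Γ.j g)

/-- The height. -/
def a (g : D.G) : E n := Γ.α g l.y1

/-- The displacement of the base point. -/
noncomputable def u (g : D.G) : E n := Γ.γ g l.y1 - l.y1

/-- The transposed derivative. -/
noncomputable def T (g : D.G) : E n →L[ℂ] E n := tr (fderiv ℂ (Γ.γ g) l.y1)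

/-- The image of the base point. -/
noncomputable def pt (g : D.G) : P n := (Γ.rt g).act l.o

/-- The cocycle of the symplectic form. -/
noncomputable def sg (g h : D.G) : ℂ := hprim (Γ.α g) l.y1 (Γ.γ h l.y1)

/-- The cocycle of a 1-form. -/
noncomputable def kap (A : Form1 (P n)) (g h : D.G) : ℝ := Dg A (Γ.rt g) l.o (Γ.pt h)

/-- `ι` lists the periods. -/
structure IsPer (ι : (Fin S.Q.r0 → ℤ) → D.G) : Prop where
  sz : ∀ m, D.sz (ι m) = 0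
  α : ∀ m, ∀ x ∈ ball l.y1 (4 * l.ρ), Γ.α (ι m) x = zm S.Q.z m x
  cen : ∀ m g, D.sz g ≤ 1 → ι m * g = g * ι m
  all : ∀ g, D.sz g = 0 → ∃ m, g = ι m

end Gam

end Pool.Agent.CL
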