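import Pool.Agent.K.MP_63735c_ag.C144

/-! The local group of small returns exists. -/

open scoped ContDiff Matrix
open Set Metric MeasureTheory Filter Topology

namespace Pool.Agent.CL

open Pool.Agent.SPF LGrp

variable {n : ℕ} {X : Type} [TopologicalSpace X] [T2Space X] [MeasurableSpace X]
  {S : Setup n X}

/-- The heights of small returns at the base point. -/
def ccg4P (l : Loc S) (ξ : E n) : Prop :=
  ∃ j a, S.G.lg.sz j ≤ l.δ ∧ S.Gm l.y1 j a ∧ a l.y1 = ξ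

omit [T2Space X] in
lemma ccg4_ex (l : Loc S) (g : {ξ // ccg4P l ξ}) : ∃ p : S.G.G × (E n → E n),
    S.G.lg.sz p.1 ≤ l.δ ∧ IsRet S.M.T S.M.Ψ (ball l.y1 (4 * l.ρ)) (S.rt p.1 p.2) ∧
      p.2 l.y1 = g.1 ∧ ∀ x ∈ ball l.y1 (4 * l.ρ), ‖p.2 x‖ ≤ l.C * (1 + ‖p.2 l.y1‖) := by
  obtain ⟨j, a, hj, hg, he⟩ := g.2
  have hy : l.y1 ∈ ball l.y1 (4 * l.ρ) := mem_ball_self (by linarith [l.ρ_pos])
  obtain ⟨a', h1, h2, h3⟩ := l.comp l.y1 hy j a hj hg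
  have h4 : a' l.y1 = a l.y1 := h2.eq_of_nhds
  exact ⟨(j, a'), hj, h1, h4.trans he, fun x hx => by simpa only [h4] using h3 x hx⟩

/-- The isometry of an element. -/
noncomputable def ccg4j (l : Loc S) (g : {ξ // ccg4P l ξ}) : S.G.G := (ccg4_ex l g).choose.1

/-- The extended form of an element. -/
noncomputable def ccg4a (l : Loc S) (g : {ξ // ccg4P l ξ}) : E n → E n := (ccg4_ex l g).choose.2

omit [T2Space X] in
lemma ccg4_spec (l : Loc S) (g : {ξ // ccg4P l ξ}) : S.G.lg.sz (ccg4j l g) ≤ l.δ ∧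
    IsRet S.M.T S.M.Ψ (ball l.y1 (4 * l.ρ)) (S.rt (ccg4j l g) (ccg4a l g)) ∧
      ccg4a l g l.y1 = g.1 ∧
      ∀ x ∈ ball l.y1 (4 * l.ρ), ‖ccg4a l g x‖ ≤ l.C * (1 + ‖ccg4a l g l.y1‖) :=
  (ccg4_ex l g).choose_spec

omit [T2Space X] in
lemma ccg4_num (l : Loc S) : l.δ ≤ S.G.lg.ε ∧ S.G.lg.L ^ 2 * l.δ ≤ S.G.lg.ε ∧
    l.y1 ∈ ball S.G.y0 S.G.r ∧ l.y1 ∈ ball S.G.y0 (3 / 2 * S.G.r) ∧
    l.y1 ∈ ball S.G.y0 (2 * S.G.r) := by
  have hL := S.G.lg.L_ge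
  have hδ := l.δ_pos
  have h1 := l.δ_le
  have h2 : 1 ≤ S.G.lg.L ^ 2 := one_le_pow₀ hL
  have h3 : S.G.lg.L ^ 2 ≤ S.G.lg.L ^ 3 := pow_le_pow_right₀ hL (by norm_num)
  have h4 : S.G.lg.L ^ 2 * l.δ ≤ S.G.lg.L ^ 3 * l.δ := mul_le_mul_of_nonneg_right h3 hδ.le
  have h5 : 1 * l.δ ≤ S.G.lg.L ^ 2 * l.δ := mul_le_mul_of_nonneg_right h2 hδ.le
  have h6 := l.sub (mem_ball_self (by linarith [l.ρ_pos] : 0 < 4 * l.ρ))
  have h7 := S.G.r_pos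
  rw [mem_ball] at h6
  refine ⟨by linarith, by linarith, ?_, ?_, ?_⟩ <;> rw [mem_ball] <;> linarith

omit [T2Space X] in
lemma ccg4_gm (l : Loc S) (g : {ξ // ccg4P l ξ}) {x : E n} (hx : x ∈ ball l.y1 (4 * l.ρ)) :
    S.Gm x (ccg4j l g) (ccg4a l g) := ⟨_, (ccg4_spec l g).2.1, hx⟩

lemma ccg4_uniq (l : Loc S) (g : {ξ // ccg4P l ξ}) {j : S.G.G} {a : E n → E n}
    (h : S.Gm l.y1 j a) (he : g.1 = a l.y1) : ccg4j l g = j ∧ ccg4a l g =ᶠ[𝓝 l.y1] a := by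
  refine S.c_uniq (ccg4_num l).2.2.2.2
    (ccg4_gm l g (mem_ball_self (by linarith [l.ρ_pos]))) h ?_
  rw [(ccg4_spec l g).2.2.1, he, sub_self, norm_zero, mul_zero]
  linarith [S.M.c0_pos]

omit [T2Space X] in
lemma ccg4_sz_one : S.G.lg.sz S.G.lg.one = 0 := by simp [LG.sz]

/-- The unit. -/
def ccg4one (l : Loc S) : {ξ // ccg4P l ξ} :=
  ⟨0, S.G.lg.one, fun _ => 0, by rw [ccg4_sz_one]; exact l.δ_pos.le,
    (S.c_one (ccg4_num l).2.2.2.2).2.2, rfl⟩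

lemma ccg4_one (l : Loc S) : ccg4j l (ccg4one l) = S.G.lg.one ∧
    ∀ x ∈ ball l.y1 (4 * l.ρ), ccg4a l (ccg4one l) x = 0 := by
  obtain ⟨h1, h2⟩ := ccg4_uniq l (ccg4one l) (S.c_one (ccg4_num l).2.2.2.2).2.2 rfl
  exact ⟨h1, hol_ident isOpen_ball (convex_ball _ _).isPreconnected (ccg4_spec l _).2.1.α_hol
    (differentiableOn_const _) (mem_ball_self (by linarith [l.ρ_pos])) h2⟩

open Classical in
/-- The element with a given height. -/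
noncomputable def ccg4mk (l : Loc S) (ξ : E n) : {ξ // ccg4P l ξ} :=
  if h : ccg4P l ξ then ⟨ξ, h⟩ else ccg4one l

lemma ccg4_mk (l : Loc S) {j : S.G.G} {a : E n → E n} (hj : S.G.lg.sz j ≤ l.δ)
    (h : S.Gm l.y1 j a) {ξ : E n} (he : a l.y1 = ξ) :
    ccg4j l (ccg4mk l ξ) = j ∧ ccg4a l (ccg4mk l ξ) =ᶠ[𝓝 l.y1] a := by
  have hp : ccg4P l ξ := ⟨j, a, hj, h, he⟩
  refine ccg4_uniq l _ h ?_
  rw [ccg4mk, dif_pos hp, he]

/-- The product. -/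
noncomputable def ccg4mul (l : Loc S) (g h : {ξ // ccg4P l ξ}) : {ξ // ccg4P l ξ} :=
  ccg4mk l (ccg4a l h l.y1 +
    tr (fderiv ℂ (S.G.γ (ccg4j l h)) l.y1) (ccg4a l g (S.G.γ (ccg4j l h) l.y1)))

/-- The inverse. -/
noncomputable def ccg4inv (l : Loc S) (g : {ξ // ccg4P l ξ}) : {ξ // ccg4P l ξ} :=
  ccg4mk l (-tr (fderiv ℂ (S.G.γ (S.G.lg.inv (ccg4j l g))) l.y1)
    (ccg4a l g (S.G.γ (S.G.lg.inv (ccg4j l g)) l.y1)))

lemma ccg4_move (l : Loc S) {j : S.G.G} (hj : S.G.lg.sz j ≤ S.G.lg.ε)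
    (hρ : S.G.lg.L * S.G.lg.sz j ≤ l.ρ) {x : E n} {s : ℝ} (hs : s ≤ 3 * l.ρ)
    (hx : x ∈ ball l.y1 s) : S.G.γ j x ∈ ball l.y1 (s + l.ρ) := by
  have h1 := (l.mem_r (ball_subset_ball (by linarith [l.ρ_pos]) hx)).1
  have h2 := (S.G.near j hj x (ball_subset_ball (by linarith [S.G.r_pos]) h1)).1
  rw [mem_ball] at hx ⊢
  have h3 := dist_triangle (S.G.γ j x) x l.y1
  rw [dist_eq_norm (S.G.γ j x) x] at h3
  linarith

lemma ccg4_mul (l : Loc S) (g h : {ξ // ccg4P l ξ})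
    (hs : S.G.lg.sz (S.G.lg.mul (ccg4j l g) (ccg4j l h)) ≤ l.δ)
    (hρ : S.G.lg.L * S.G.lg.sz (ccg4j l h) ≤ l.ρ) :
    ccg4j l (ccg4mul l g h) = S.G.lg.mul (ccg4j l g) (ccg4j l h) ∧
    ∀ x ∈ ball l.y1 (3 * l.ρ), ccg4a l (ccg4mul l g h) x = ccg4a l h x +
      tr (fderiv ℂ (S.G.γ (ccg4j l h)) x) (ccg4a l g (S.G.γ (ccg4j l h) x)) := by
  obtain ⟨n1, -, -, n4, -⟩ := ccg4_num l
  have hρ0 := l.ρ_pos
  have hg := (ccg4_spec l g).1.trans n1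
  have hh := (ccg4_spec l h).1.trans n1
  have hm : ∀ x ∈ ball l.y1 (3 * l.ρ), S.G.γ (ccg4j l h) x ∈ ball l.y1 (4 * l.ρ) := fun x hx =>
    ball_subset_ball (by linarith) (ccg4_move l hh hρ le_rfl hx)
  have hy : l.y1 ∈ ball l.y1 (3 * l.ρ) := mem_ball_self (by linarith)
  have h34 : ball l.y1 (3 * l.ρ) ⊆ ball l.y1 (4 * l.ρ) := ball_subset_ball (by linarith)
  have h1 := S.c_mul hg hh n4 (ccg4_gm l h (h34 hy)) (ccg4_gm l g (hm _ hy))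
  obtain ⟨h2, h3⟩ := ccg4_mk l hs h1 rfl
  refine ⟨h2, ?_⟩
  have h4 := (IsRet.comp ((ccg4_spec l h).2.1.mono isOpen_ball h34) (ccg4_spec l g).2.1 hm).1
  exact hol_ident isOpen_ball (convex_ball _ _).isPreconnected
    ((ccg4_spec l _).2.1.α_hol.mono h34) h4.α_hol hy h3

lemma ccg4_inv (l : Loc S) (g : {ξ // ccg4P l ξ})
    (hs : S.G.lg.sz (S.G.lg.inv (ccg4j l g)) ≤ l.δ)
    (hρ : S.G.lg.L * S.G.lg.sz (S.G.lg.inv (ccg4j l g)) ≤ l.ρ) :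
    ccg4j l (ccg4inv l g) = S.G.lg.inv (ccg4j l g) ∧ ccg4a l (ccg4inv l g) l.y1 =
      -tr (fderiv ℂ (S.G.γ (S.G.lg.inv (ccg4j l g))) l.y1)
        (ccg4a l g (S.G.γ (S.G.lg.inv (ccg4j l g)) l.y1)) := by
  obtain ⟨n1, n2, n3, -, n5⟩ := ccg4_num l
  have hρ0 := l.ρ_pos
  have hi := hs.trans n1
  have he : S.G.lg.mul (S.G.lg.inv (ccg4j l g)) S.G.lg.one = S.G.lg.inv (ccg4j l g) :=
    S.G.lg.mul_one _ hi
  have h0 : S.G.lg.L ^ 2 * S.G.lg.sz (ccg4j l g) ≤ S.G.lg.ε :=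
    (mul_le_mul_of_nonneg_left (ccg4_spec l g).1 (sq_nonneg _)).trans n2
  have hm : S.G.γ (S.G.lg.inv (ccg4j l g)) l.y1 ∈ ball l.y1 (4 * l.ρ) :=
    ball_subset_ball (by linarith) (ccg4_move l hi hρ le_rfl (mem_ball_self (by linarith)))
  have h1 := S.c_div (i := ccg4j l g) (j := S.G.lg.one) (β := ccg4a l g) h0
    (by rw [ccg4_sz_one]; exact S.G.lg.ε_pos.le) (by rw [he]; exact hi) n3 (S.c_one n5).2.2
    (by rw [he]; exact ccg4_gm l g hm)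
  rw [he] at h1
  obtain ⟨a, h2, h3⟩ := h1
  rw [zero_sub] at h3
  obtain ⟨h4, h5⟩ := ccg4_mk l hs h2 h3
  exact ⟨h4, h5.eq_of_nhds.trans h3⟩

omit [T2Space X] in
lemma ccg4_ext (l : Loc S) {g h : {ξ // ccg4P l ξ}} (he : ccg4a l g l.y1 = ccg4a l h l.y1) :
    g = h := Subtype.ext (by rw [← (ccg4_spec l g).2.2.1, he, (ccg4_spec l h).2.2.1])

section Laws

variable (l : Loc S) {t : ℝ} (h1 : 3 * (S.G.lg.L * t) ≤ l.δ)
  (h2 : 2 * (S.G.lg.L * (S.G.lg.L * t)) ≤ l.ρ)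

include h1 h2

omit [T2Space X] in
lemma ccg4_bd {a b : S.G.G} (ha : S.G.lg.sz a ≤ t) (hb : S.G.lg.sz b ≤ t) :
    S.G.lg.sz a ≤ S.G.lg.ε ∧ S.G.lg.sz b ≤ S.G.lg.ε ∧
    S.G.lg.sz (S.G.lg.mul a b) ≤ S.G.lg.L * (S.G.lg.sz a + S.G.lg.sz b) ∧
    S.G.lg.sz (S.G.lg.mul a b) ≤ 2 * (S.G.lg.L * t) ∧
    S.G.lg.sz (S.G.lg.mul a b) ≤ l.δ ∧ S.G.lg.L * S.G.lg.sz b ≤ l.ρ ∧
    S.G.lg.L * S.G.lg.sz (S.G.lg.mul a b) ≤ l.ρ ∧
    S.G.lg.sz (S.G.lg.inv a) ≤ S.G.lg.L * S.G.lg.sz a ∧ S.G.lg.sz (S.G.lg.inv a) ≤ l.δ ∧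
    S.G.lg.L * S.G.lg.sz (S.G.lg.inv a) ≤ l.ρ := by
  have hL := S.G.lg.L_ge
  have n1 := (ccg4_num l).1
  have a0 : 0 ≤ S.G.lg.sz a := norm_nonneg _
  have b0 : 0 ≤ S.G.lg.sz b := norm_nonneg _
  have t0 : 0 ≤ t := a0.trans ha
  have t1 : t ≤ S.G.lg.L * t := le_mul_of_one_le_left t0 hL
  have t2 : S.G.lg.L * t ≤ S.G.lg.L * (S.G.lg.L * t) := le_mul_of_one_le_left (t0.trans t1) hL
  have ha' : S.G.lg.sz a ≤ S.G.lg.ε := by linarith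
  have hb' : S.G.lg.sz b ≤ S.G.lg.ε := by linarith
  obtain ⟨-, -, c3, -, c5, -⟩ := S.G.lg.basic ha' hb'
  have a1 : S.G.lg.sz a ≤ S.G.lg.L * S.G.lg.sz a := le_mul_of_one_le_left a0 hL
  have a2 : S.G.lg.L * S.G.lg.sz a ≤ S.G.lg.L * t := mul_le_mul_of_nonneg_left ha (by linarith)
  have b2 : S.G.lg.L * S.G.lg.sz b ≤ S.G.lg.L * t := mul_le_mul_of_nonneg_left hb (by linarith)
  have m1 : S.G.lg.sz (S.G.lg.mul a b) ≤ 2 * (S.G.lg.L * t) := by linarith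
  have m2 : S.G.lg.L * S.G.lg.sz (S.G.lg.mul a b) ≤ S.G.lg.L * (2 * (S.G.lg.L * t)) :=
    mul_le_mul_of_nonneg_left m1 (by linarith)
  have i1 : S.G.lg.sz (S.G.lg.inv a) ≤ S.G.lg.L * t := c5.trans a2
  have i2 : S.G.lg.L * S.G.lg.sz (S.G.lg.inv a) ≤ S.G.lg.L * (S.G.lg.L * t) :=
    mul_le_mul_of_nonneg_left i1 (by linarith)
  refine ⟨ha', hb', by linarith, m1, by linarith, by linarith, by linarith, c5, by linarith,
    by linarith⟩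

lemma ccg4_assoc (g h k : {ξ // ccg4P l ξ}) (hg : S.G.lg.sz (ccg4j l g) ≤ t)
    (hh : S.G.lg.sz (ccg4j l h) ≤ t) (hk : S.G.lg.sz (ccg4j l k) ≤ t) :
    ccg4mul l (ccg4mul l g h) k = ccg4mul l g (ccg4mul l h k) := by
  obtain ⟨n1, -, -, n4, -⟩ := ccg4_num l
  have hρ0 := l.ρ_pos
  have hL := S.G.lg.L_ge
  obtain ⟨a1, a2, -, a4, a5, a6, -⟩ := ccg4_bd l h1 h2 hg hh
  obtain ⟨-, b2, -, b4, b5, b6, b7, -⟩ := ccg4_bd l h1 h2 hh hk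
  obtain ⟨p1, p2⟩ := ccg4_mul l g h a5 a6
  obtain ⟨q1, q2⟩ := ccg4_mul l h k b5 b6
  have hy : l.y1 ∈ ball l.y1 (3 * l.ρ) := mem_ball_self (by linarith)
  have hm : S.G.γ (ccg4j l k) l.y1 ∈ ball l.y1 (3 * l.ρ) :=
    ball_subset_ball (by linarith)
      (ccg4_move l b2 b6 (s := l.ρ) (by linarith) (mem_ball_self hρ0))
  have c1 := (S.G.lg.basic (a5.trans n1) b2).2.2.1
  have c2 := (S.G.lg.basic a1 (b5.trans n1)).2.2.2.1
  have c3 : S.G.lg.L * S.G.lg.sz (ccg4j l k) ≤ S.G.lg.L * t :=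
    mul_le_mul_of_nonneg_left hk (by linarith)
  have c4 : S.G.lg.L * S.G.lg.sz (ccg4j l g) ≤ S.G.lg.L * t :=
    mul_le_mul_of_nonneg_left hg (by linarith)
  have r2 := (ccg4_mul l (ccg4mul l g h) k (by rw [p1]; linarith) b6).2
  have s2 := (ccg4_mul l g (ccg4mul l h k) (by rw [q1]; linarith) (by rw [q1]; exact b7)).2
  apply ccg4_ext l
  rw [r2 _ hy, s2 _ hy, p2 _ hm, q2 _ hy, q1, (S.c_chain a2 b2 n4).1, S.G.γ_mul _ _ a2 b2 _ n4,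
    (tr_basic _ _).2.1, map_add, add_assoc, ContinuousLinearMap.comp_apply]

lemma ccg4_unit (g : {ξ // ccg4P l ξ}) (hg : S.G.lg.sz (ccg4j l g) ≤ t) :
    ccg4mul l (ccg4one l) g = g ∧ ccg4mul l g (ccg4one l) = g := by
  obtain ⟨n1, -, -, n4, n5⟩ := ccg4_num l
  have hρ0 := l.ρ_pos
  obtain ⟨o1, o2⟩ := ccg4_one l
  have ho : S.G.lg.sz (ccg4j l (ccg4one l)) ≤ t := by
    rw [o1, ccg4_sz_one]; exact (norm_nonneg _).trans hg
  obtain ⟨-, a2, -, -, a5, a6, -⟩ := ccg4_bd l h1 h2 ho hg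
  obtain ⟨-, -, -, -, b5, b6, -⟩ := ccg4_bd l h1 h2 hg ho
  have hy : l.y1 ∈ ball l.y1 (3 * l.ρ) := mem_ball_self (by linarith)
  have hm : S.G.γ (ccg4j l g) l.y1 ∈ ball l.y1 (4 * l.ρ) :=
    ball_subset_ball (by linarith) (ccg4_move l a2 a6 le_rfl hy)
  constructor
  · apply ccg4_ext l
    rw [(ccg4_mul l _ g a5 a6).2 _ hy, o2 _ hm, map_zero, add_zero]
  · apply ccg4_ext l
    rw [(ccg4_mul l g _ b5 b6).2 _ hy, o2 _ (mem_ball_self (by linarith)), o1, (S.c_one n5).1,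
      (tr_basic (1 : E n →L[ℂ] E n) 1).1, S.G.γ_one, zero_add, one_apply_eq_self]

lemma ccg4_cancel (g : {ξ // ccg4P l ξ}) (hg : S.G.lg.sz (ccg4j l g) ≤ t) :
    ccg4mul l g (ccg4inv l g) = ccg4one l ∧ ccg4mul l (ccg4inv l g) g = ccg4one l := by
  obtain ⟨n1, -, -, n4, n5⟩ := ccg4_num l
  have hρ0 := l.ρ_pos
  obtain ⟨-, o2⟩ := ccg4_one l
  obtain ⟨a1, -, -, -, -, a6, -, -, a9, a10⟩ := ccg4_bd l h1 h2 hg hg
  obtain ⟨i1, i2⟩ := ccg4_inv l g a9 a10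
  have e1 : S.G.lg.mul (ccg4j l g) (S.G.lg.inv (ccg4j l g)) = S.G.lg.one := S.G.lg.mul_inv _ a1
  have e2 : S.G.lg.mul (S.G.lg.inv (ccg4j l g)) (ccg4j l g) = S.G.lg.one := S.G.lg.inv_mul _ a1
  have hy : l.y1 ∈ ball l.y1 (3 * l.ρ) := mem_ball_self (by linarith)
  have hy4 : l.y1 ∈ ball l.y1 (4 * l.ρ) := mem_ball_self (by linarith)
  have hm : S.G.γ (ccg4j l g) l.y1 ∈ ball l.y1 (3 * l.ρ) :=
    ball_subset_ball (by linarith)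
      (ccg4_move l a1 a6 (s := l.ρ) (by linarith) (mem_ball_self hρ0))
  have p2 := (ccg4_mul l g (ccg4inv l g) (by rw [i1, e1, ccg4_sz_one]; exact l.δ_pos.le)
    (by rw [i1]; exact a10)).2
  have q2 := (ccg4_mul l (ccg4inv l g) g (by rw [i1, e2, ccg4_sz_one]; exact l.δ_pos.le) a6).2
  have r1 : ccg4mul l g (ccg4inv l g) = ccg4one l := by
    apply ccg4_ext l
    rw [p2 _ hy, i2, i1, o2 _ hy4, neg_add_cancel]
  refine ⟨r1, ccg4_ext l ?_⟩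
  have r2 := p2 _ hm
  rw [r1, o2 _ (ball_subset_ball (by linarith) hm), i1, ← S.G.γ_mul _ _ (a9.trans n1) a1 _ n4, e2,
    S.G.γ_one] at r2
  have r3 := (S.c_chain (a9.trans n1) a1 n4).1
  rw [e2, (S.c_one n5).1] at r3
  have r4 := (tr_basic (fderiv ℂ (S.G.γ (S.G.lg.inv (ccg4j l g))) (S.G.γ (ccg4j l g) l.y1))
    (fderiv ℂ (S.G.γ (ccg4j l g)) l.y1)).2.1
  rw [← r3, (tr_basic (1 : E n →L[ℂ] E n) 1).1] at r4
  have r5 := congrArg (fun U : E n →L[ℂ] E n => U (ccg4a l g l.y1)) r4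
  simp only [one_apply_eq_self, ContinuousLinearMap.comp_apply] at r5
  rw [q2 _ hy, o2 _ hy4, eq_neg_of_add_eq_zero_left r2.symm, map_neg, ← r5, add_neg_cancel]

end Laws

theorem Loc.exists_gam (l : Loc S) {e : ℝ} (he : 0 < e) :
    ∃ (D : LGrp) (Γ : Gam l D), Γ.lam ≤ e := by
  have hL := S.G.lg.L_ge
  have hδ := l.δ_pos
  have hρ := l.ρ_pos
  have hp : 0 < 16 * S.G.lg.L ^ 3 := by positivity
  obtain ⟨t, t0, te, tδ, tρ⟩ : ∃ t : ℝ, 0 < t ∧ t ≤ e ∧ 16 * (S.G.lg.L ^ 3 * t) ≤ l.δ ∧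
      16 * (S.G.lg.L ^ 3 * t) ≤ l.ρ := by
    refine ⟨min e (min l.δ l.ρ / (16 * S.G.lg.L ^ 3)), lt_min he (div_pos (lt_min hδ hρ) hp),
      min_le_left _ _, ?_⟩
    have h := mul_le_mul_of_nonneg_left
      (min_le_right e (min l.δ l.ρ / (16 * S.G.lg.L ^ 3))) hp.le
    rw [mul_div_cancel₀ _ hp.ne', mul_assoc] at h
    exact ⟨h.trans (min_le_left _ _), h.trans (min_le_right _ _)⟩
  have t1 : 0 ≤ S.G.lg.L * t := by positivity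
  have t2 : S.G.lg.L * t ≤ S.G.lg.L * (S.G.lg.L * t) := le_mul_of_one_le_left t1 hL
  have t3 : S.G.lg.L * (S.G.lg.L * t) ≤ S.G.lg.L ^ 3 * t := by
    have h := le_mul_of_one_le_left (t1.trans t2) hL
    calc _ ≤ _ := h
      _ = _ := by ring
  have h1 : 3 * (S.G.lg.L * t) ≤ l.δ := by linarith
  have h2 : 2 * (S.G.lg.L * (S.G.lg.L * t)) ≤ l.ρ := by linarith
  have hs : ∀ g, S.G.lg.sz (ccg4j l g) / t ≤ 1 → S.G.lg.sz (ccg4j l g) ≤ t := fun g hg =>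
    (div_le_one t0).1 hg
  have hm := fun g h hg hh => ccg4_mul l g h (ccg4_bd l h1 h2 (hs g hg) (hs h hh)).2.2.2.2.1
    (ccg4_bd l h1 h2 (hs g hg) (hs h hh)).2.2.2.2.2.1
  have hi := fun g hg => (ccg4_inv l g (ccg4_bd l h1 h2 (hs g hg) (hs g hg)).2.2.2.2.2.2.2.2.1
    (ccg4_bd l h1 h2 (hs g hg) (hs g hg)).2.2.2.2.2.2.2.2.2).1
  have hb : 0 < (2 * S.G.lg.L) ^ 16 := by positivity
  let D : LGrp :=
    { G := {ξ // ccg4P l ξ}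
      mul := ccg4mul l
      inv := ccg4inv l
      one := ccg4one l
      sz := fun g => S.G.lg.sz (ccg4j l g) / t
      L := S.G.lg.L
      b := ((2 * S.G.lg.L) ^ 16)⁻¹
      one_le_L := hL
      b_pos := inv_pos.2 hb
      b_le := (mul_inv_cancel₀ hb.ne').le
      sz_nonneg := fun g => div_nonneg (norm_nonneg _) t0.le
      sz_one' := by rw [(ccg4_one l).1, ccg4_sz_one, zero_div]
      sz_mul' := fun g h hg hh => by
        rw [(hm g h hg hh).1, ← add_div, ← mul_div_assoc]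
        exact div_le_div_of_nonneg_right (ccg4_bd l h1 h2 (hs g hg) (hs h hh)).2.2.1 t0.le
      sz_inv' := fun g hg => by
        rw [hi g hg, ← mul_div_assoc]
        exact div_le_div_of_nonneg_right
          (ccg4_bd l h1 h2 (hs g hg) (hs g hg)).2.2.2.2.2.2.2.1 t0.le
      assoc' := fun g h k hg hh hk => ccg4_assoc l h1 h2 g h k (hs g hg) (hs h hh) (hs k hk)
      one_mul' := fun g hg => (ccg4_unit l h1 h2 g (hs g hg)).1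
      mul_one' := fun g hg => (ccg4_unit l h1 h2 g (hs g hg)).2
      inv_mul' := fun g hg => (ccg4_cancel l h1 h2 g (hs g hg)).2
      mul_inv' := fun g hg _ => (ccg4_cancel l h1 h2 g (hs g hg)).1 }
  refine ⟨D,
    { lam := t
      j := ccg4j l
      α := ccg4a l
      lam_pos := t0
      lam_le := by linarith [t1.trans (t2.trans t3)]
      small := by linarith
      sz_eq := fun g => (mul_div_cancel₀ _ t0.ne').symm
      sz_le := fun g => (ccg4_spec l g).1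
      ret := fun g => (ccg4_spec l g).2.1
      bd := fun g => (ccg4_spec l g).2.2.2
      inj := fun g h hgh => ccg4_ext l hgh
      full := fun j a hj hg => ⟨⟨a l.y1, j, a, hj, hg, rfl⟩, ccg4_uniq l _ hg rfl⟩
      j_one := (ccg4_one l).1
      α_one := (ccg4_one l).2
      j_mul := fun g h hg hh => (hm g h hg hh).1
      j_inv := hi
      α_mul := fun g h hg hh => (hm g h hg hh).2 }, te⟩

end Pool.Agent.CL
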