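import Pool.Agent.K.MP_63735c_ag.C146

/-! The cocycle of an invariant form. -/

open scoped ContDiff Matrix
open Set Metric MeasureTheory Filter Topology

namespace Pool.Agent.CL

open Pool.Agent.SPF LGrp

variable {n : ℕ} {X : Type} [TopologicalSpace X] [T2Space X] [MeasurableSpace X]
  {S : Setup n X}

namespace Gam

variable {l : Loc S} {D : LGrp} (Γ : Gam l D)


variable {A : Form1 (P n)} {t : Form2 (P n)}

omit [T2Space X] in
theorem cch1_o (l : Loc S) {s : ℝ} (hs : 0 < s) : l.o.1 ∈ ball l.y1 (s * l.ρ) :=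
  mem_ball_self (mul_pos hs l.ρ_pos)

omit [T2Space X] in
theorem cch1_sub (l : Loc S) {s s' : ℝ} (hs : s ≤ s') :
    ball l.y1 (s * l.ρ) ⊆ ball l.y1 (s' * l.ρ) :=
  ball_subset_ball (mul_le_mul_of_nonneg_right hs l.ρ_pos.le)

theorem cch1_pt {g : D.G} (hg : D.sz g ≤ 1) {s : ℝ} (hs : 2 ≤ s) :
    (Γ.pt g).1 ∈ ball l.y1 (s * l.ρ) :=
  cch1_sub l (by linarith) (Γ.maps hg (s := 1) (by norm_num) (cch1_o l one_pos))

theorem cch1_mul {g h : D.G} (hg : D.sz g ≤ 1) (hh : D.sz h ≤ 1) :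
    Γ.pt (g * h) = (Γ.rt g).act (Γ.pt h) := Γ.act_mul hg hh (cch1_o l (by norm_num))

omit [T2Space X] in
theorem cch1_ret (g : D.G) : IsRet S.M.T S.M.Ψ (ball l.y1 (4 * l.ρ)) (Γ.rt g) := Γ.ret g

omit [T2Space X] in
include Γ in
theorem cch1_T {p : P n} (hp : p.1 ∈ ball l.y1 (4 * l.ρ)) : p ∈ S.M.T ×ˢ (univ : Set (E n)) :=
  ⟨(Γ.ret 1).sub hp, mem_univ _⟩

omit [T2Space X] in
theorem cch1_diff (g : D.G) {p : P n} (hp : p.1 ∈ ball l.y1 (4 * l.ρ)) :
    DifferentiableAt ℝ (Γ.rt g).act p :=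
  ((Γ.cch1_ret g).smooth.1.contDiffAt ((cldg_open (Γ.cch1_ret g)).mem_nhds
    ⟨hp, mem_univ _⟩)).differentiableAt (by simp)

theorem kap_coc (hA : IsPrim (S.M.T ×ˢ univ) A t)
    (hi : ∀ g, Inv t (ball l.y1 (4 * l.ρ)) (Γ.rt g)) : Coc D (Γ.kap A) := by
  have ho := cch1_o l (show (0 : ℝ) < 4 by norm_num)
  have hd : ∀ (g : D.G) (p : P n), p.1 ∈ ball l.y1 (4 * l.ρ) → _ := fun g p hp =>
    Dg_deriv S.M.T_open hA (Γ.cch1_ret g) (convex_ball _ _) (hi g) ho hp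
  have hr : ∀ g, Γ.kap A g 1 = 0 := fun g => by
    rw [kap, pt, Γ.act_one ho, Dg_self]
  have hc : ∀ g h k, D.sz g ≤ 1 → D.sz h ≤ 1 → D.sz k ≤ 1 →
      Γ.kap A g h + Γ.kap A (g * h) k = Γ.kap A g (h * k) + Γ.kap A h k := by
    intro g h k hg hh hk
    have hW : IsOpen (ball l.y1 (3 * l.ρ) ×ˢ (univ : Set (E n))) := isOpen_ball.prod isOpen_univ
    have h1 : ∀ p ∈ ball l.y1 (3 * l.ρ) ×ˢ (univ : Set (E n)), HasFDerivAt (fun x =>
        Dg A (Γ.rt (g * h)) l.o x - Dg A (Γ.rt g) l.o ((Γ.rt h).act x) - Dg A (Γ.rt h) l.o x)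
        (0 : P n →L[ℝ] ℝ) p := by
      intro p hp
      have h2 := cch1_sub l (show (3 : ℝ) ≤ 4 by norm_num) hp.1
      have h3 : ((Γ.rt h).act p).1 ∈ ball l.y1 (4 * l.ρ) :=
        cch1_sub l (by norm_num) (Γ.maps hh (s := 3) le_rfl hp.1)
      have h4 : (Γ.rt (g * h)).act =ᶠ[𝓝 p] (Γ.rt g).act ∘ (Γ.rt h).act :=
        Filter.mem_of_superset (hW.mem_nhds hp) fun x hx => Γ.act_mul hg hh hx.1
      refine (((hd _ p h2).sub ((hd g _ h3).comp p (Γ.cch1_diff h h2).hasFDerivAt)).sub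
        (hd h p h2)).congr_fderiv (ContinuousLinearMap.ext fun v => ?_)
      simp only [pull1, h4.fderiv_eq, fderiv_comp p (Γ.cch1_diff g h3) (Γ.cch1_diff h h2),
        Γ.act_mul hg hh hp.1, _root_.sub_apply, ContinuousLinearMap.comp_apply,
        _root_.zero_apply]
      ring
    have h5 := ((convex_ball _ _).prod convex_univ).is_const_of_fderivWithin_eq_zero (𝕜 := ℝ)
      (fun p hp => (h1 p hp).differentiableAt.differentiableWithinAt)
      (fun p hp => by rw [fderivWithin_of_isOpen hW hp, (h1 p hp).fderiv])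
      (show Γ.pt k ∈ _ from ⟨Γ.cch1_pt hk (by norm_num), mem_univ _⟩)
      (show l.o ∈ _ from ⟨cch1_o l (by norm_num), mem_univ _⟩)
    rw [Dg_self, Dg_self] at h5
    simp only [kap]
    rw [Γ.cch1_mul hh hk]
    change Dg A (Γ.rt g) l.o ((Γ.rt h).act l.o) + _ = _
    linarith
  refine ⟨hc, fun g hg => ?_, fun g _ => hr g⟩
  have h1 : D.sz 1 ≤ 1 := by
    rw [D.sz_one]
    exact zero_le_one
  have := hc 1 1 g h1 h1 hg
  rw [show (1 : D.G) * 1 = 1 from D.one_mul' 1 h1, show 1 * g = g from D.one_mul' g hg, hr] at this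
  linarith

theorem kap_int (hA : IsPrim (S.M.T ×ˢ univ) A t) (hI : IsInt S.M.T S.M.Ψ t) :
    ∃ ν : D.G → ℝ, ∀ g h, D.sz g ≤ 1 → D.sz h ≤ 1 →
      ∃ k : ℤ, Γ.kap A g h - (ν g + ν h - ν (g * h)) = k := by
  obtain ⟨u, -, hu⟩ := Dg_int S.M.T_open hA hI
  refine ⟨fun g => u (Γ.pt g) - u l.o, fun g h hg hh => ?_⟩
  obtain ⟨k, hk⟩ := hu _ _ l.o (Γ.cch1_ret g) (convex_ball _ _) (cch1_o l (by norm_num)) _
    (Γ.cch1_pt hh (by norm_num))
  refine ⟨k, ?_⟩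
  beta_reduce
  rw [← hk, Γ.cch1_mul hg hh, kap]
  change _ = _ - (_ - _ - _ + u (Γ.pt g))
  ring

theorem kap_line (hc : Closed2 (S.M.T ×ˢ univ) t)
    (hi : ∀ g, Inv t (ball l.y1 (4 * l.ρ)) (Γ.rt g)) (g : D.G) {p : P n}
    (hp : p.1 ∈ ball l.y1 (4 * l.ρ)) : Dg (rad t l.o) (Γ.rt g) l.o p =
      lineInt (rad t l.o) fun s => (Γ.rt g).act (seg l.o p s) := by
  have ho := cch1_o l (show (0 : ℝ) < 4 by norm_num)
  have hC := S.M.T_conv.prod (convex_univ (𝕜 := ℝ) (E := E n))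
  have h1 := Dg_line S.M.T_open (rad_prim (S.M.T_open.prod isOpen_univ) hC hc (Γ.cch1_T ho))
    (Γ.cch1_ret g) (convex_ball _ _) (hi g) ho (curve_seg ((convex_ball _ _).prod convex_univ)
      (show l.o ∈ _ from ⟨ho, mem_univ _⟩) (show p ∈ _ from ⟨hp, mem_univ _⟩))
  rw [lineInt_seg, rad_seg hC hc (Γ.cch1_T ho) (Γ.cch1_T hp), show seg l.o p 1 = p by simp [seg],
    show seg l.o p 0 = l.o by simp [seg], Dg_self] at h1
  linarith

omit [T2Space X] in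
include Γ in
theorem cch1_prim (i : Fin S.M.m) : IsPrim (S.M.T ×ˢ univ) (rad (S.M.a i) l.o) (S.M.a i) :=
  rad_prim (S.M.T_open.prod isOpen_univ) (S.M.T_conv.prod convex_univ) (S.M.a_form i).closed
    (Γ.cch1_T (cch1_o l (by norm_num)))

theorem int (i : Fin S.M.m) : ∃ ν : D.G → ℝ, ∀ g h, D.sz g ≤ 1 → D.sz h ≤ 1 →
    ∃ k : ℤ, (S.M.c i * Γ.sg g h).re + Γ.kap (rad (S.M.a i) l.o) g h -
      (ν g + ν h - ν (g * h)) = k := by
  have h1 := liou_prim (S.M.T ×ˢ univ) (S.M.c i)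
  have h2 := h1.comb (S.M.T_open.prod isOpen_univ) (Γ.cch1_prim i) 1 1
  obtain ⟨ν, hν⟩ := Γ.kap_int h2 (by simpa only [one_smul] using S.M.a_int i)
  refine ⟨ν, fun g h hg hh => ?_⟩
  obtain ⟨k, hk⟩ := hν g h hg hh
  have ho := cch1_o l (show (0 : ℝ) < 4 by norm_num)
  have hp := Γ.cch1_pt hh (show (2 : ℝ) ≤ 4 by norm_num)
  rw [kap, Dg_comb S.M.T_open h1.1.continuousOn (Γ.cch1_prim i).1.continuousOn (Γ.cch1_ret g)
    (convex_ball _ _) ho 1 1 hp, Dg_liou (Γ.cch1_ret g) (convex_ball _ _) ho _ hp, _root_.one_mul,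
    _root_.one_mul] at hk
  exact ⟨k, hk⟩

theorem span1 : ∃ r : Fin S.M.m → ℝ, ∑ i, (r i : ℂ) * S.M.c i = 1 ∧
    ∀ g h, D.sz g ≤ 1 → D.sz h ≤ 1 → ∑ i, r i * Γ.kap (rad (S.M.a i) l.o) g h = 0 := by
  obtain ⟨r, hr, h0⟩ := S.M.a_span 1
  refine ⟨r, hr, fun g h _ hh => ?_⟩
  have ho := cch1_o l (show (0 : ℝ) < 4 by norm_num)
  have hp := Γ.cch1_pt hh (show (2 : ℝ) ≤ 4 by norm_num)
  have hC := S.M.T_conv.prod (convex_univ (𝕜 := ℝ) (E := E n))
  have h1 : ∀ s : Finset (Fin S.M.m), ∑ i ∈ s, r i * Γ.kap (rad (S.M.a i) l.o) g h =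
      Γ.kap (fun x => ∑ i ∈ s, r i • rad (S.M.a i) l.o x) g h := fun s => by
    induction s using Finset.induction_on with
    | empty => simp [kap, Dg, segInt, pull1]
    | insert i s hi ih =>
      have := Dg_comb S.M.T_open (Γ.cch1_prim i).1.continuousOn
        (continuousOn_finsetSum s fun j _ => (Γ.cch1_prim j).1.continuousOn.const_smul (r j))
        (Γ.cch1_ret g) (convex_ball _ _) ho (r i) 1 hp
      simp only [one_smul, _root_.one_mul] at this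
      simp only [Finset.sum_insert hi, ih]
      exact this.symm
  have h2 : ∀ x ∈ S.M.T ×ˢ (univ : Set (E n)), ∑ i, r i • rad (S.M.a i) l.o x = 0 := by
    intro x hx
    have h3 : ∀ s ∈ Icc (0 : ℝ) 1, l.o + s • (x - l.o) ∈ S.M.T ×ˢ (univ : Set (E n)) :=
      fun s hs => hC.add_smul_sub_mem (Γ.cch1_T ho) hx hs
    simp only [rad, ← intervalIntegral.integral_smul]
    rw [← intervalIntegral.integral_finsetSum fun i _ => clprim_int ?_,
      intervalIntegral.integral_congr (g := fun _ => 0) fun s hs => ?_, intervalIntegral.integral_zero]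
    · have := congrArg (fun B : P n →L[ℝ] P n →L[ℝ] ℝ => s • B (x - l.o))
        (h0 _ (h3 s (by simpa using hs)).1)
      simpa [Finset.smul_sum, smul_comm s] using this
    · exact (continuousOn_id.smul ((((S.M.a_form i).closed.1.continuousOn.comp (by fun_prop)
        h3)).clm_apply continuousOn_const)).const_smul (r i)
  rw [h1, kap, Dg, segInt, intervalIntegral.integral_congr (g := fun _ => 0) fun s hs => ?_,
    intervalIntegral.integral_zero]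
  have h4 : l.o + s • (Γ.pt h - l.o) ∈ ball l.y1 (4 * l.ρ) ×ˢ (univ : Set (E n)) :=
    ((convex_ball _ _).prod convex_univ).add_smul_sub_mem (mk_mem_prod ho (mem_univ _))
      (mk_mem_prod hp (mem_univ _)) (by simpa using hs)
  simp only [pull1, h2 _ (Γ.cch1_T h4.1), h2 _ ((Γ.cch1_ret g).smooth.2.1 h4)]
  simp

end Gam

end Pool.Agent.CL
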