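import Pool.Agent.K.MP_63735c_ag.C14
import Pool.Agent.K.MP_63735c_ag.C9

/-! Regularisation of an approximate solution. -/

open scoped ComplexOrder ContDiff Matrix Topology ENNReal
open Set Metric MeasureTheory Filter

namespace Pool.Agent.AB

open Pool.Agent.SPF

variable {N : ℕ} {W : Set (E N)} {Ψ : E N → ℝ} {K : E N → Mat N} {h : E N → ℂ}

/-- `dlt (grad w)` is close to `h` on test functions supported in `C`. -/
def Weak (W C : Set (E N)) (Ψ : E N → ℝ) (K : E N → Mat N) (h w : E N → ℂ) (ε : ℝ) : Prop :=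
  ∀ r : E N → ℂ, Tst W r → tsupport r ⊆ C → ∀ L : ℝ, (∀ z, ‖db r z‖ ≤ L) →
    ‖∫ z in W, (wt Ψ z : ℂ) * ((dlt Ψ (grad K w) z - h z) * star (r z))‖ ≤ ε * L

theorem ablc1_cx {χ : E N → ℝ} (hχ : Tst W χ) : Tst W fun y => (χ y : ℂ) :=
  ⟨Complex.ofRealCLM.contDiff.comp hχ.smooth, hχ.cpt.comp_left Complex.ofReal_zero,
    (tsupport_comp_subset Complex.ofReal_zero χ).trans hχ.sub⟩

theorem ablc1_tst (hW : IsOpen W) {χ : E N → ℝ} (hχ : Tst W χ) {g : E N → ℂ}
    (hg : ContDiffOn ℝ ∞ g W) : Tst univ fun y => (χ y : ℂ) * g y :=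
  have h := ((ablc1_cx hχ).mul_on hW hg).1
  ⟨h.smooth, h.cpt, subset_univ _⟩

theorem ablc1_diff {f : E N → ℂ} (hf : ContDiff ℝ ∞ f) (z : E N) : DifferentiableAt ℝ f z :=
  hf.differentiable (by simp) z

/-- The weighted divergence in divergence form. -/
theorem wt_dlt {V : E N → E N} {z : E N} (hΨ : DifferentiableAt ℝ Ψ z)
    (hV : DifferentiableAt ℝ V z) :
    (wt Ψ z : ℂ) * dlt Ψ V z = ∑ a, dz a (fun y => (wt Ψ y : ℂ) * V y a) z := by
  have h1 : DifferentiableAt ℝ (fun y => (wt Ψ y : ℂ)) z :=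
    Complex.ofRealCLM.differentiableAt.comp z hΨ.neg.exp
  rw [dlt, Finset.mul_sum]
  refine Finset.sum_congr rfl fun a _ => ?_
  have h2 : dz a (fun y => (wt Ψ y : ℂ)) z = -((wt Ψ z : ℂ) * dr Ψ z a) := congrFun (dr_wt hΨ) a
  rw [(dz_mul h1 (differentiableAt_pi.1 hV a) a).1, h2]
  ring

/-- The formula for the regularised function at a point near which the cutoffs are one.
Here `c a b = χ wt K⁻¹ b a`, `β b = χ dzb b w`, `u = χ wt dlt (grad w)`. -/
theorem reg_formula (hW : IsOpen W) (hΨ : ContDiffOn ℝ ∞ Ψ W) (hK : Kah W K) {χ : E N → ℝ}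
    (hχ : Tst W χ) {w : E N → ℂ} (hw : ContDiffOn ℝ ∞ w W) {d A : ℝ} {ρ : E N → ℝ}
    (hρ : Ker d A ρ) {x : E N} (h1 : ∀ y ∈ ball x (2 * d), χ y = 1) (hd : 0 < d) :
    (∀ b, db (cv ρ fun y => (χ y : ℂ) * w y) x b = cv ρ (fun y => (χ y : ℂ) * dzb b w y) x) ∧
    (wt Ψ x : ℂ) * dlt Ψ (grad K (cv ρ fun y => (χ y : ℂ) * w y)) x =
      ∑ a, ∑ b, cm ρ (fun y => (χ y : ℂ) * ((wt Ψ y : ℂ) * (K y)⁻¹ b a))
        (fun y => (χ y : ℂ) * dzb b w y) a x +
      cv ρ (fun y => (χ y : ℂ) * ((wt Ψ y : ℂ) * dlt Ψ (grad K w) y)) x := by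
  have hb : ∀ y ∈ ball x d, y ∈ ball x (2 * d) := fun y hy => ball_subset_ball (by linarith) hy
  have hm : ∀ y ∈ ball x (2 * d), y ∈ W := fun y hy =>
    hχ.sub (subset_tsupport _ (by rw [Function.mem_support, h1 y hy]; exact one_ne_zero))
  have t0 := ablc1_tst hW hχ hw
  have tβ := fun b => ablc1_tst hW hχ (dz_smooth hW hw b).2
  have tc := fun a b => ablc1_tst hW hχ ((ofReal_smooth (wt_smooth hΨ)).mul (hK.inv_smooth b a))
  have tp := fun a b => ((tc a b).mul_on isOpen_univ (tβ b).smooth.contDiffOn).1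
  have s0 := cv_smooth hρ t0.smooth.continuous.locallyIntegrable
  have sβ := fun b => cv_smooth hρ (tβ b).smooth.continuous.locallyIntegrable
  have e1 : ∀ x' ∈ ball x d, ∀ b, db (cv ρ fun y => (χ y : ℂ) * w y) x' b =
      cv ρ (fun y => (χ y : ℂ) * dzb b w y) x' := fun x' hx' b => by
    refine (dz_cv hρ t0 b x').2.trans (cv_local hρ fun y hy => ?_)
    have hy' : y ∈ ball x (2 * d) := by
      rw [mem_ball] at hx' hy ⊢
      linarith [dist_triangle y x' x]
    have he : (fun y => (χ y : ℂ) * w y) =ᶠ[𝓝 y] w := by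
      filter_upwards [isOpen_ball.mem_nhds hy'] with t ht
      rw [h1 t ht, Complex.ofReal_one, one_mul]
    rw [(dzb_congr he b).eq_of_nhds, h1 y hy', Complex.ofReal_one, one_mul]
  refine ⟨e1 x (mem_ball_self hd), ?_⟩
  have hx := hm x (hb x (mem_ball_self hd))
  have e2 : ∀ a, dz a (fun y => (wt Ψ y : ℂ) * grad K (cv ρ fun y => (χ y : ℂ) * w y) y a) x =
      ∑ b, dz a (fun y => (χ y : ℂ) * ((wt Ψ y : ℂ) * (K y)⁻¹ b a) *
        cv ρ (fun y => (χ y : ℂ) * dzb b w y) y) x := fun a => by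
    refine Eq.trans (dz_congr ?_ a).eq_of_nhds (dz_sum _ (fun b _ =>
      ablc1_diff ((tc a b).smooth.mul (sβ b)) x) a).1
    filter_upwards [ball_mem_nhds x hd] with y hy
    rw [grad, Matrix.vecMul, dotProduct, Finset.mul_sum, h1 y (hb y hy)]
    refine Finset.sum_congr rfl fun b _ => ?_
    rw [e1 y hy b, Complex.ofReal_one]
    ring
  have e3 : cv ρ (fun y => (χ y : ℂ) * ((wt Ψ y : ℂ) * dlt Ψ (grad K w) y)) x =
      ∑ a, ∑ b, dz a (cv ρ fun y => (χ y : ℂ) * ((wt Ψ y : ℂ) * (K y)⁻¹ b a) *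
        ((χ y : ℂ) * dzb b w y)) x := by
    have c1 := fun a b => ((tp a b).dz_tst a).1.smooth.continuous
    simp only [fun a b => (dz_cv hρ (tp a b) a x).1]
    simp only [← fun a => cv_sum Finset.univ hρ (fun b _ => c1 a b) x]
    rw [← cv_sum Finset.univ hρ (fun a _ => continuous_finsetSum _ fun b _ => c1 a b) x]
    refine cv_local hρ fun y hy => ?_
    have hy' := hb y hy
    rw [h1 y hy', Complex.ofReal_one, one_mul,
      wt_dlt (diffAt hW hΨ (hm y hy')) (diffAt hW (grad_smooth hW hK hw) (hm y hy'))]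
    refine Finset.sum_congr rfl fun a _ => ?_
    refine Eq.trans (dz_congr ?_ a).eq_of_nhds
      (dz_sum _ (fun b _ => ablc1_diff (tp a b).smooth y) a).1
    filter_upwards [isOpen_ball.mem_nhds hy'] with t ht
    rw [grad, Matrix.vecMul, dotProduct, Finset.mul_sum, h1 t ht]
    refine Finset.sum_congr rfl fun b _ => ?_
    rw [db, Complex.ofReal_one]
    ring
  rw [wt_dlt (diffAt hW hΨ hx) (diffAt hW (grad_smooth hW hK s0.contDiffOn) hx), e3]
  simp only [e2, cm, Finset.sum_sub_distrib, sub_add_cancel]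

/-- The weak bound gives a pointwise bound after convolution. -/
theorem weak_cv (hW : IsOpen W) {χ : E N → ℝ} (hχ : Tst W χ) {d A : ℝ} {ρ : E N → ℝ}
    (hρ : Ker d A ρ) : ∃ L : ℝ, 0 ≤ L ∧ ∀ (w : E N → ℂ) (ε : ℝ) (x : E N),
      (∀ y ∈ ball x (2 * d), χ y = 1) → Weak W (tsupport χ) Ψ K h w ε →
        ‖cv ρ (fun y => (χ y : ℂ) * ((wt Ψ y : ℂ) * (dlt Ψ (grad K w) y - h y))) x‖ ≤ ε * L := by
  have hc : ContDiff ℝ ∞ fun y => (ρ y : ℂ) := Complex.ofRealCLM.contDiff.comp hρ.smooth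
  obtain ⟨L, hL⟩ := ContDiff.lipschitzWith_of_hasCompactSupport
    (hρ.cpt.comp_left Complex.ofReal_zero) hc (by simp)
  refine ⟨L, L.2, fun w ε x h1 hw => ?_⟩
  have hs : tsupport (fun y => (ρ (x - y) : ℂ)) ⊆ (fun y => x - y) ⁻¹' tsupport ρ :=
    closure_minimal (fun y hy => subset_tsupport _ fun h0 => hy (Complex.ofReal_eq_zero.2 h0))
      ((isClosed_tsupport ρ).preimage (by fun_prop))
  have h2 : ∀ y ∈ tsupport (fun y => (ρ (x - y) : ℂ)), χ y = 1 := fun y hy => h1 y (by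
    have h3 := mem_ball_zero_iff.1 (hρ.supp (hs hy))
    rw [mem_ball_iff_norm']
    linarith [norm_nonneg (x - y)])
  have h3 : tsupport (fun y => (ρ (x - y) : ℂ)) ⊆ tsupport χ := fun y hy =>
    subset_tsupport _ (by rw [Function.mem_support, h2 y hy]; exact one_ne_zero)
  have h4 : LipschitzWith L fun y => (ρ (x - y) : ℂ) := LipschitzWith.of_dist_le_mul fun y t => by
    rw [← dist_sub_left x y t]
    exact hL.dist_le_mul _ _
  have h5 := hw (fun y => (ρ (x - y) : ℂ)) ⟨hc.comp (contDiff_const.sub contDiff_id),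
    IsCompact.of_isClosed_subset hχ.cpt (isClosed_tsupport _) h3, h3.trans hχ.sub⟩ h3 L
    fun z => (pi_norm_le_iff_of_nonneg L.2).2 fun a =>
      (dz_norm_le _ z a).2.trans (norm_fderiv_le_of_lipschitz ℝ h4)
  rw [setIntegral_eq_integral_of_forall_compl_eq_zero fun y hy => by
    rw [image_eq_zero_of_notMem_tsupport (f := fun y => (ρ (x - y) : ℂ))
      fun h0 => hy (hχ.sub (h3 h0)), star_zero, mul_zero, mul_zero]] at h5
  rw [cv_swap]
  refine le_of_eq_of_le (congrArg _ (integral_congr_ae (ae_of_all _ fun y => ?_))) h5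
  by_cases hy : y ∈ tsupport (fun y => (ρ (x - y) : ℂ))
  · simp only [h2 y hy, Complex.ofReal_one, one_mul, Complex.star_def, Complex.conj_ofReal]
    ring
  · have h0 : (ρ (x - y) : ℂ) = 0 :=
      image_eq_zero_of_notMem_tsupport (f := fun y => (ρ (x - y) : ℂ)) hy
    simp only [h0, star_zero, mul_zero, zero_mul]

end Pool.Agent.AB
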