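import Pool.Agent.K.MP_63735c_ag.C144
import Pool.Agent.K.MP_63735c_ag.C70

/-! Growth of invariant forms along the leaves. -/

open scoped ContDiff Matrix
open Set Metric MeasureTheory Filter Topology

namespace Pool.Agent.CL

open Pool.Agent.SPF LGrp

variable {n : ℕ} {X : Type} [TopologicalSpace X] [T2Space X] [MeasurableSpace X]
  {S : Setup n X}

theorem qn_basic (R : ℝ) (hR : 1 ≤ R) (u v : P n) (c : ℝ) : 0 ≤ qn R u ∧
    qn R (u + v) ≤ qn R u + qn R v ∧ qn R (u - v) ≤ qn R u + qn R v ∧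
    qn R (c • u) = |c| * qn R u ∧ ∀ K, 1 ≤ K → qn (K * R) u ≤ K * qn R u := by
  have h0 : 0 ≤ R := by linarith
  simp only [qn, Prod.fst_add, Prod.snd_add, Prod.fst_sub, Prod.snd_sub, Prod.smul_fst,
    Prod.smul_snd, norm_smul, Real.norm_eq_abs]
  refine ⟨by positivity, ?_, ?_, by ring, fun K hK => ?_⟩
  · linarith [norm_add_le u.2 v.2, mul_le_mul_of_nonneg_left (norm_add_le u.1 v.1) h0]
  · linarith [norm_sub_le u.2 v.2, mul_le_mul_of_nonneg_left (norm_sub_le u.1 v.1) h0]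
  · nlinarith [norm_nonneg u.2]

omit [T2Space X] in
theorem ccg5_cpt (M : Model n X) {K : Set (P n)} (hK : IsCompact K) (hs : K ⊆ M.T ×ˢ univ) :
    ∃ A, 0 ≤ A ∧ ∃ c > (0 : ℝ), ∀ q ∈ K, ∀ w, c * ‖w‖ ^ 2 ≤ M.om q w (Complex.I • w) ∧
      M.om q w (Complex.I • w) ≤ A * ‖w‖ ^ 2 := by
  have hc : ContinuousOn M.om K := M.om_form.closed.1.continuousOn.mono hs
  obtain ⟨A, hA⟩ := hK.exists_bound_of_continuousOn (f := M.om) hc
  have hf : ContinuousOn (fun x : P n × P n => M.om x.1 x.2 (Complex.I • x.2))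
      (K ×ˢ sphere 0 1) :=
    ((hc.comp continuousOn_fst fun x hx => hx.1).clm_apply continuousOn_snd).clm_apply
      (by fun_prop)
  obtain ⟨c, hc0, hm⟩ := (hK.prod (isCompact_sphere (0 : P n) 1)).exists_forall_le' hf (a := 0)
    fun x hx => M.om_pos x.1 (hs hx.1).1 x.2 (ne_zero_of_mem_unit_sphere ⟨x.2, hx.2⟩)
  refine ⟨max A 0, le_max_right _ _, c, hc0, fun q hq w => ⟨?_, ?_⟩⟩
  · rcases eq_or_ne w 0 with rfl | hw
    · simp
    have h0 : 0 < ‖w‖ := norm_pos_iff.2 hw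
    have h1 := hm (q, ‖w‖⁻¹ • w) ⟨hq, by simp [norm_smul, h0.ne']⟩
    simp only [smul_comm Complex.I ‖w‖⁻¹ w, map_smul, smul_apply, smul_eq_mul] at h1
    have h2 := mul_le_mul_of_nonneg_right h1 (sq_nonneg ‖w‖)
    refine h2.trans (le_of_eq ?_)
    field_simp
  · refine (le_abs_self _).trans (((M.om q).le_opNorm₂ w _).trans ?_)
    rw [norm_smul, Complex.norm_I, _root_.one_mul, mul_assoc, ← sq]
    exact mul_le_mul_of_nonneg_right ((hA q hq).trans (le_max_left _ _)) (sq_nonneg _)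

namespace Loc

variable (l : Loc S)

theorem hb : ∃ c > (0 : ℝ), ∃ C, 0 ≤ C ∧ ∀ p : P n, p.1 ∈ ball l.y1 (4 * l.ρ) →
    (∀ u, S.M.om p u (Complex.I • u) ≤ C * qn (1 + ‖p.2‖) u ^ 2) ∧
      ∀ v, c * ‖v‖ ^ 2 ≤ leaf S.M.om p.1 p.2 v (Complex.I • v) := by
  have hr := S.G.r_pos
  have hC0 := S.M.C0_ge
  have hC := l.C_ge
  have hρ := l.ρ_pos
  have hε := S.G.lg.ε_pos
  obtain ⟨A, hA, c, hc, hK⟩ := ccg5_cpt S.M ((isCompact_closedBall S.G.y0 (3 * S.G.r)).prod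
    (isCompact_closedBall (0 : E n) (S.M.C0 * l.C))) fun q hq =>
      ⟨S.G.sub (closedBall_subset_closedBall (by linarith) hq.1), mem_univ _⟩
  obtain ⟨Cn, hCn, hN⟩ := S.c_dN
  have hδ : l.δ ≤ S.G.lg.ε := by
    have h1 := one_le_pow₀ (n := 3) S.G.lg.L_ge
    nlinarith [l.δ_le, l.δ_pos]
  obtain ⟨M, hM, hM0⟩ : ∃ M, M = l.C * (1 + l.C) / (4 * l.ρ) ∧ 0 ≤ M := ⟨_, rfl, by positivity⟩
  obtain ⟨B, hB⟩ : ∃ B, B = S.M.C0 + S.M.C0 * M + Cn * S.G.lg.ε * l.C := ⟨_, rfl⟩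
  refine ⟨c / S.M.C0 ^ 2, by positivity, A * B ^ 2, by positivity, fun p hp => ?_⟩
  obtain ⟨j, α, hj, hg, hα, -⟩ := l.kk p.1 hp p.2
  obtain ⟨β, hβ, he, hb⟩ := l.comp p.1 hp j α hj hg
  have hy : p.1 ∈ ball p.1 (4 * l.ρ) := mem_ball_self (by positivity)
  have hy0 := l.sub hp
  rw [← he.eq_of_nhds, norm_sub_rev] at hα
  rw [← he.eq_of_nhds] at hb
  obtain ⟨b1, b2, b3⟩ := S.M.bd _ _ hβ p.1 hy
  have hD := hβ.smooth.2.2.2 p hy
  have hq : (S.rt j β).act p ∈ closedBall S.G.y0 (3 * S.G.r) ×ˢ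
      closedBall (0 : E n) (S.M.C0 * l.C) :=
    ⟨ball_subset_closedBall (S.G.move (hj.trans hδ) (ball_subset_ball (by linarith) hy0)),
      mem_closedBall_zero_iff.2 ((ContinuousLinearMap.le_opNorm _ _).trans
        (mul_le_mul b2 hα (norm_nonneg _) (by linarith)))⟩
  have hI : ∀ u, S.M.om p u (Complex.I • u) = S.M.om ((S.rt j β).act p)
      (fderiv ℝ (S.rt j β).act p u) (Complex.I • fderiv ℝ (S.rt j β).act p u) := fun u => by
    rw [← S.M.om_form.inv _ _ hβ p hy u, hD u, hD (Complex.I • u)]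
    simp only [Prod.smul_fst, Prod.smul_snd, map_smul, ← smul_sub, smul_apply, Prod.smul_mk,
      smul_add]
  refine ⟨fun u => ?_, fun v => ?_⟩
  · rw [hI, mul_assoc, ← mul_pow]
    refine (hK _ hq _).2.trans (mul_le_mul_of_nonneg_left
      (pow_le_pow_left₀ (norm_nonneg _) ?_ 2) hA)
    have n1 := norm_nonneg u.1
    have n2 := norm_nonneg u.2
    have n3 := norm_nonneg p.2
    have d1 : ‖fderiv ℂ β p.1‖ ≤ M * (1 + ‖p.2‖) := by
      refine (cauchy (by positivity) hβ.α_hol hb).trans ?_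
      rw [hM, div_mul_eq_mul_div, mul_assoc]
      refine div_le_div_of_nonneg_right (mul_le_mul_of_nonneg_left ?_ (by linarith)) (by positivity)
      have := norm_sub_norm_le (β p.1) p.2
      rw [norm_sub_rev] at this
      nlinarith
    have d2 := (hN j (hj.trans hδ) p.1 (ball_subset_ball (by linarith) hy0)).trans
      (mul_le_mul_of_nonneg_left (hj.trans hδ) hCn)
    have e1 : ‖fderiv ℂ (S.rt j β).γ p.1 u.1‖ ≤ S.M.C0 * ‖u.1‖ :=
      ContinuousLinearMap.le_of_opNorm_le _ b1 _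
    have e2 : ‖(S.rt j β).N p.1 (u.2 - fderiv ℂ (S.rt j β).α p.1 u.1)‖ ≤
        S.M.C0 * (‖u.2‖ + M * (1 + ‖p.2‖) * ‖u.1‖) :=
      (ContinuousLinearMap.le_of_opNorm_le _ b2 _).trans (mul_le_mul_of_nonneg_left
        ((norm_sub_le _ _).trans (add_le_add le_rfl
          (ContinuousLinearMap.le_of_opNorm_le _ d1 _))) (by linarith))
    have e3 : ‖fderiv ℂ (S.rt j β).N p.1 u.1 (p.2 - (S.rt j β).α p.1)‖ ≤
        Cn * S.G.lg.ε * ‖u.1‖ * l.C :=
      (ContinuousLinearMap.le_opNorm _ _).trans (mul_le_mul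
        (ContinuousLinearMap.le_of_opNorm_le _ d2 _) hα (norm_nonneg _) (by positivity))
    have t1 : 0 ≤ S.M.C0 * ‖u.2‖ := by positivity
    have t2 : 0 ≤ S.M.C0 * M * ‖u.2‖ := by positivity
    have t3 : 0 ≤ Cn * S.G.lg.ε * l.C * ‖u.2‖ := by positivity
    have t4 : 0 ≤ S.M.C0 * ‖u.1‖ := by positivity
    have t5 : 0 ≤ S.M.C0 * (‖p.2‖ * ‖u.1‖) := by positivity
    have t6 : 0 ≤ S.M.C0 * M * ((1 + ‖p.2‖) * ‖u.1‖) := by positivity
    have t7 : 0 ≤ Cn * S.G.lg.ε * l.C * ‖u.1‖ := by positivity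
    have t8 : 0 ≤ Cn * S.G.lg.ε * l.C * (‖p.2‖ * ‖u.1‖) := by positivity
    rw [hD u, Prod.norm_mk, hB, qn]
    exact max_le (by linarith) ((norm_add_le _ _).trans (by linarith))
  · have h1 : leaf S.M.om p.1 p.2 v (Complex.I • v) = S.M.om p (0, v) (Complex.I • (0, v)) := by
      rw [clpi_leaf, Prod.smul_mk, smul_zero]
    rw [h1, hI, clpi_vert hβ hy]
    refine le_trans ?_ (hK _ hq _).1
    have h2 := ContinuousLinearMap.le_of_opNorm_le _ b3 ((S.rt j β).N p.1 v)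
    rw [(pair_inv (hβ.pair p.1 hy)).2.1 v] at h2
    have h3 := pow_le_pow_left₀ (norm_nonneg _) (h2.trans (mul_le_mul_of_nonneg_left
      (norm_snd_le ((0 : E n), (S.rt j β).N p.1 v)) (by linarith))) 2
    rw [div_mul_eq_mul_div, div_le_iff₀ (by positivity), mul_assoc, ← mul_pow, mul_comm _ S.M.C0]
    exact mul_le_mul_of_nonneg_left h3 hc.le

theorem ccg5_tame {t : Form2 (P n)} (ht : IsForm S.M.T S.M.Ψ t) {K : ℝ} (hK : 0 ≤ K)
    (h : ∀ p : P n, p.1 ∈ ball l.y1 (4 * l.ρ) → ∀ u,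
      |t p u (Complex.I • u)| ≤ K * S.M.om p u (Complex.I • u)) : Tame l t := by
  obtain ⟨c, -, C, hC, hb⟩ := l.hb
  refine ⟨2 * (K * (C * 4)), by positivity, fun p R hp hR h2 u v => ?_⟩
  have hT : p.1 ∈ S.M.T := (l.mem_r (ball_subset_ball (by linarith [l.ρ_pos]) hp)).2
  refine jinv_bd (t p) (ht.closed.2.1 p ⟨hT, mem_univ _⟩) (ht.jinv p ⟨hT, mem_univ _⟩) (qn R)
    (fun u => (qn_basic R hR u u 0).1) (fun u v => (qn_basic R hR u v 0).2.1) (fun c u => ?_)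
    (fun u hu => ?_) (fun u => ?_) u v
  · simp only [qn, Prod.smul_fst, Prod.smul_snd, norm_smul]
    ring
  · have n1 := norm_nonneg u.1
    have n2 := norm_nonneg u.2
    rw [qn] at hu
    exact Prod.ext (norm_eq_zero.1 (by nlinarith)) (norm_eq_zero.1 (by nlinarith))
  · rw [mul_assoc]
    refine (h p hp u).trans (mul_le_mul_of_nonneg_left (((hb p hp).1 u).trans ?_) hK)
    rw [mul_assoc, show (4 : ℝ) = 2 ^ 2 by norm_num, ← mul_pow]
    refine mul_le_mul_of_nonneg_left (pow_le_pow_left₀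
      (qn_basic _ (by linarith [norm_nonneg p.2]) u u 0).1 ?_ 2) hC
    simp only [qn]
    nlinarith [norm_nonneg u.1, norm_nonneg u.2]

theorem tame_om : Tame l S.M.om := l.ccg5_tame S.M.om_form zero_le_one fun p hp u => by
  rcases eq_or_ne u 0 with rfl | hu
  · simp
  · rw [abs_of_pos (S.M.om_pos p (l.mem_r (ball_subset_ball (by linarith [l.ρ_pos]) hp)).2 u hu),
      _root_.one_mul]

theorem tame_a (i : Fin S.M.m) : Tame l (S.M.a i) := by
  have hr := S.G.r_pos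
  have hC0 := S.M.C0_ge
  have hρ := l.ρ_pos
  have hε := S.G.lg.ε_pos
  have hK := (isCompact_closedBall S.G.y0 (3 * S.G.r)).prod
    (isCompact_closedBall (0 : E n) (S.M.C0 * l.C))
  have hs : _ ⊆ S.M.T ×ˢ univ := fun q (hq : q ∈ closedBall S.G.y0 (3 * S.G.r) ×ˢ
    closedBall (0 : E n) (S.M.C0 * l.C)) =>
      ⟨S.G.sub (closedBall_subset_closedBall (by linarith) hq.1), mem_univ _⟩
  obtain ⟨_, -, c, hc, h1⟩ := ccg5_cpt S.M hK hs
  obtain ⟨A, hA⟩ := hK.exists_bound_of_continuousOn (f := S.M.a i)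
    ((S.M.a_form i).closed.1.continuousOn.mono hs)
  have hδ : l.δ ≤ S.G.lg.ε := by
    have h1 := one_le_pow₀ (n := 3) S.G.lg.L_ge
    nlinarith [l.δ_le, l.δ_pos]
  refine l.ccg5_tame (S.M.a_form i) (K := |A| / c) (by positivity) fun p hp u => ?_
  obtain ⟨j, α, hj, hg, hα, -⟩ := l.kk p.1 hp p.2
  obtain ⟨β, hβ, he, -⟩ := l.comp p.1 hp j α hj hg
  have hy : p.1 ∈ ball p.1 (4 * l.ρ) := mem_ball_self (by positivity)
  rw [← he.eq_of_nhds, norm_sub_rev] at hα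
  have hD := hβ.smooth.2.2.2 p hy
  have hq : (S.rt j β).act p ∈ closedBall S.G.y0 (3 * S.G.r) ×ˢ
      closedBall (0 : E n) (S.M.C0 * l.C) :=
    ⟨ball_subset_closedBall (S.G.move (hj.trans hδ) (ball_subset_ball (by linarith) (l.sub hp))),
      mem_closedBall_zero_iff.2 ((ContinuousLinearMap.le_opNorm _ _).trans
        (mul_le_mul (S.M.bd _ _ hβ p.1 hy).2.1 hα (norm_nonneg _) (by linarith)))⟩
  have hI : fderiv ℝ (S.rt j β).act p (Complex.I • u) = Complex.I • fderiv ℝ (S.rt j β).act p u := by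
    rw [hD u, hD (Complex.I • u)]
    simp only [Prod.smul_fst, Prod.smul_snd, map_smul, ← smul_sub, smul_apply, Prod.smul_mk,
      smul_add]
  rw [← S.M.om_form.inv _ _ hβ p hy, ← (S.M.a_form i).inv _ _ hβ p hy, hI]
  refine ((S.M.a i _).le_opNorm₂ _ _).trans ?_
  rw [norm_smul, Complex.norm_I, _root_.one_mul, mul_assoc, ← sq, div_mul_eq_mul_div, le_div_iff₀ hc,
    mul_assoc, mul_comm _ c]
  exact mul_le_mul ((hA _ hq).trans (le_abs_self A)) (h1 _ hq _).1 (by positivity) (abs_nonneg A)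

theorem rad_bd {t : Form2 (P n)} (hc : Closed2 (S.M.T ×ˢ univ) t) (ht : Tame l t) :
    ∃ K, 0 ≤ K ∧ ∀ (p : P n) (R : ℝ), p.1 ∈ ball l.y1 (4 * l.ρ) → 1 ≤ R → ‖p.2‖ ≤ R →
      ∀ u, |rad t l.o p u| ≤ K * R * qn R u := by
  obtain ⟨K, hK, hb⟩ := ht
  have hρ := l.ρ_pos
  refine ⟨K * 2, by positivity, fun p R hp hR h2 u => ?_⟩
  have ho : l.y1 ∈ ball l.y1 (4 * l.ρ) := mem_ball_self (by positivity)
  have hT : ∀ y ∈ ball l.y1 (4 * l.ρ), y ∈ S.M.T := fun y hy =>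
    (l.mem_r (ball_subset_ball (by linarith) hy)).2
  rw [rad_apply (o := l.o) (p := p) (S.M.T_conv.prod convex_univ) hc ⟨hT _ ho, mem_univ _⟩
    ⟨hT _ hp, mem_univ _⟩]
  refine clpar_int_bd fun s hs => ?_
  have hx : l.y1 + s • (p.1 - l.y1) ∈ ball l.y1 (4 * l.ρ) :=
    (convex_ball _ _).add_smul_sub_mem ho hp hs
  have h3 := hb (l.o + s • (p - l.o)) R hx hR (by
    simp only [Loc.o, Prod.snd_add, Prod.smul_snd, Prod.snd_sub, sub_zero, zero_add, norm_smul,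
      Real.norm_of_nonneg hs.1]
    nlinarith [hs.1, hs.2, norm_nonneg p.2]) (p - l.o) u
  have h4 : qn R (p - l.o) ≤ 2 * R := by
    have h5 := mem_ball_iff_norm.1 hp
    have h6 := l.ρ_le.trans (min_le_right _ _)
    simp only [qn, Loc.o, Prod.snd_sub, Prod.fst_sub, sub_zero]
    nlinarith
  rw [abs_mul, abs_of_nonneg hs.1, mul_assoc K 2]
  exact (mul_le_of_le_one_left (abs_nonneg _) hs.2).trans (h3.trans (mul_le_mul_of_nonneg_right
    (mul_le_mul_of_nonneg_left h4 hK) (qn_basic R hR u u 0).1))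

end Loc

end Pool.Agent.CL
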