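import Pool.Agent.K.MP_63735c_ag.C150
import Pool.Agent.K.MP_63735c_ag.C100

/-! Leaf areas of forms whose vertical part is small in the mean. -/

open scoped ContDiff Matrix ENNReal
open Set Metric MeasureTheory Filter Topology

namespace Pool.Agent.CL

open Pool.Agent.SPF

variable {n : ℕ}

/-- The six faces of a parallelepiped. -/
theorem hmn3_cube {W : Set (P n)} (hW : IsOpen W) (hc : Convex ℝ W) {A : Form1 (P n)}
    {t : Form2 (P n)} (hA : IsPrim W A t) {p U V w : P n} (h0 : p ∈ W) (h1 : p + U ∈ W)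
    (h2 : p + V ∈ W) (h3 : p + U + V ∈ W) (k0 : p + w ∈ W) (k1 : p + U + w ∈ W)
    (k2 : p + V + w ∈ W) (k3 : p + U + V + w ∈ W) : par t p U V - par t (p + w) U V =
      par t p U w + par t (p + U) V w - par t (p + V) U w - par t p V w := by
  have e1 : p + w + U = p + U + w := add_right_comm _ _ _
  have e2 : p + w + V = p + V + w := add_right_comm _ _ _
  have e3 : p + U + w + V = p + U + V + w := add_right_comm _ _ _
  have e4 : p + V + U = p + U + V := add_right_comm _ _ _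
  have a1 := stokes_par hW hc hA h0 h1 h2 h3
  have a2 := stokes_par hW hc hA (p := p + w) (a := U) (b := V) k0 (e1 ▸ k1) (e2 ▸ k2)
    (by rwa [e1, e3])
  have a3 := stokes_par hW hc hA h0 h1 k0 k1
  have a4 := stokes_par hW hc hA h1 h3 k1 k3
  have a5 := stokes_par hW hc hA (p := p + V) (a := U) (b := w) h2 (e4 ▸ h3) k2 (e4 ▸ k3)
  have a6 := stokes_par hW hc hA h0 h2 k0 k2
  rw [e1, e2, e3] at a2
  rw [e4] at a5
  linarith

theorem hmn3_sub {T : Set (E n)} {a b : Form2 (P n)} (ha : ContinuousOn a (T ×ˢ univ))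
    (hb : ContinuousOn b (T ×ˢ univ)) {p : P n} (hp : p.1 ∈ T) (u v : E n) :
    par (fun q => b q - a q) p (0, u) (0, v) = par b p (0, u) (0, v) - par a p (0, u) (0, v) := by
  have h1 : ∀ t : Form2 (P n), ContinuousOn t (T ×ˢ univ) → Continuous fun q : ℝ × ℝ =>
      t (p + q.1 • (0, u) + q.2 • (0, v)) (0, u) (0, v) := fun t ht =>
    ((ht.comp_continuous (by fun_prop) fun q => ⟨by simpa using hp, mem_univ _⟩).clm_apply
      continuous_const).clm_apply continuous_const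
  have h2 : ∀ t : Form2 (P n), ContinuousOn t (T ×ˢ univ) → Continuous fun s : ℝ =>
      ∫ r in (0 : ℝ)..1, t (p + s • (0, u) + r • (0, v)) (0, u) (0, v) := fun t ht =>
    intervalIntegral.continuous_parametric_intervalIntegral_of_continuous'
      (f := fun s r => t (p + s • (0, u) + r • (0, v)) (0, u) (0, v)) (h1 t ht) 0 1
  rw [par, par, par, ← intervalIntegral.integral_sub ((h2 b hb).intervalIntegrable _ _)
    ((h2 a ha).intervalIntegrable _ _)]
  refine intervalIntegral.integral_congr fun s _ => ?_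
  exact intervalIntegral.integral_sub
    (((h1 b hb).comp (Continuous.prodMk_right s)).intervalIntegrable _ _)
    (((h1 a ha).comp (Continuous.prodMk_right s)).intervalIntegrable _ _)

theorem hmn3_loop {T : Set (E n)} (hT : IsOpen T) (hc : Convex ℝ T) {β : Form1 (P n)}
    {t : Form2 (P n)} (hβ : IsPrim (T ×ˢ univ) β t) {M R : ℝ}
    (hM : ∀ p : P n, p.1 ∈ T → ∀ v, |β p (0, v)| ≤ M * ‖v‖) {p : P n} (hp : p.1 ∈ T) {u v : E n}
    (hu : ‖u‖ ≤ R) (hv : ‖v‖ ≤ R) : |par t p (0, u) (0, v)| ≤ 4 * |M| * R := by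
  have h1 : ∀ (q q' : P n) (e : E n), q.1 = p.1 → q' = q + (0, e) → ‖e‖ ≤ R →
      |segInt β q q'| ≤ |M| * R := by
    rintro q _ e hq rfl he
    rw [segInt, add_sub_cancel_left]
    refine clpar_int_bd fun s _ => (hM _ (by simpa [hq] using hp) e).trans ?_
    exact mul_le_mul (le_abs_self M) he (norm_nonneg _) (abs_nonneg _)
  have h2 := abs_le.1 (h1 p _ u rfl rfl hu)
  have h3 := abs_le.1 (h1 (p + (0, u)) _ v (by simp) rfl hv)
  have h4 := abs_le.1 (h1 (p + (0, v)) (p + (0, u) + (0, v)) u (by simp) (add_right_comm _ _ _) hu)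
  have h5 := abs_le.1 (h1 p _ v rfl rfl hv)
  rw [← stokes_par (hT.prod isOpen_univ) (hc.prod convex_univ) hβ ⟨hp, mem_univ _⟩
    ⟨by simpa using hp, mem_univ _⟩ ⟨by simpa using hp, mem_univ _⟩
    ⟨by simpa using hp, mem_univ _⟩, abs_le]
  constructor <;> linarith [h2.1, h2.2, h3.1, h3.2, h4.1, h4.2, h5.1, h5.2]

theorem hmn3_avg {F : P n → ℝ≥0∞} (hF : Measurable F) (e : P n) {B B' : Set (P n)}
    (hB : MeasurableSet B) (hB' : MeasurableSet B')
    (h : ∀ p ∈ B, ∀ r ∈ Icc (0 : ℝ) 1, p + r • e ∈ B') :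
    Measurable (fun p => ∫⁻ r in Ioc (0 : ℝ) 1, F (p + r • e)) ∧
      ∫⁻ p in B, ∫⁻ r in Ioc (0 : ℝ) 1, F (p + r • e) ≤ ∫⁻ p in B', F p := by
  have h1 : Measurable fun q : P n × ℝ => F (q.1 + q.2 • e) := hF.comp (by fun_prop)
  have h2 : (volume : Measure (P n)).IsAddLeftInvariant := Measure.prod.instIsAddLeftInvariant
  refine ⟨h1.lintegral_prod_right', ?_⟩
  rw [lintegral_lintegral_swap h1.aemeasurable]
  refine (setLIntegral_mono' (g := fun _ => ∫⁻ p in B', F p) measurableSet_Ioc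
    fun r hr => ?_).trans (by simp)
  rw [← lintegral_indicator hB, ← lintegral_indicator hB',
    ← lintegral_add_left_eq_self (B'.indicator F) (r • e)]
  refine lintegral_mono fun p => ?_
  rw [add_comm (r • e)]
  by_cases hp : p ∈ B
  · rw [indicator_of_mem hp, indicator_of_mem (h p hp r (Ioc_subset_Icc_self hr))]
  · rw [indicator_of_notMem hp]
    exact zero_le

theorem hmn3_par (t : Form2 (P n)) (p U V : P n) : ENNReal.ofReal |par t p U V| ≤
    ∫⁻ s in Ioc (0 : ℝ) 1, ∫⁻ r in Ioc (0 : ℝ) 1, ‖t (p + s • U + r • V) U V‖ₑ := by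
  rw [← Real.enorm_eq_ofReal_abs, par, intervalIntegral.integral_of_le zero_le_one]
  refine (enorm_integral_le_lintegral_enorm _).trans (lintegral_mono fun s => ?_)
  rw [intervalIntegral.integral_of_le zero_le_one]
  exact enorm_integral_le_lintegral_enorm _

/-- A point of the box where the leaf area is at most the mean. -/
theorem hmn3_pt {T : Set (E n)} (hT : IsOpen T) {b : Form2 (P n)}
    (hb : ContinuousOn b (T ×ˢ univ)) {K : Set (E n)} (hK : IsCompact K) (hs : K ⊆ T) {u v : E n}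
    {R d c : ℝ} (hu : ‖u‖ ≤ R) (hv : ‖v‖ ≤ R) (hd : d ≤ R) {G : P n → ℝ≥0∞}
    (hG : ∀ p : P n, p.1 ∈ K → ENNReal.ofReal |b p (0, u) (0, v)| ≤ G p)
    (hc : ∫⁻ p in K ×ˢ closedBall (0 : E n) (3 * R), G p <
      ENNReal.ofReal c * volume (K ×ˢ closedBall (0 : E n) d)) :
    ∃ p : P n, p.1 ∈ K ∧ ‖p.2‖ ≤ d ∧ |par b p (0, u) (0, v)| ≤ c := by
  classical
  by_contra hne
  push Not at hne
  have hm : ∀ r : ℝ, MeasurableSet (K ×ˢ closedBall (0 : E n) r) := fun r =>
    hK.measurableSet.prod measurableSet_closedBall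
  have h1 : Measurable ((T ×ˢ (univ : Set (E n))).piecewise (fun p => b p (0, u) (0, v)) 0) :=
    ((hb.clm_apply continuousOn_const).clm_apply continuousOn_const).measurable_piecewise
      continuousOn_const (hT.prod isOpen_univ).measurableSet
  have h2 : ∀ p : P n, p.1 ∈ K → (T ×ˢ (univ : Set (E n))).piecewise
      (fun p => b p (0, u) (0, v)) 0 p = b p (0, u) (0, v) := fun p hp =>
    piecewise_eq_of_mem _ _ _ ⟨hs hp, mem_univ _⟩
  generalize (T ×ˢ (univ : Set (E n))).piecewise (fun p => b p (0, u) (0, v)) 0 = f at h1 h2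
  have h3 : ∀ (e : E n) (r : ℝ), ‖e‖ ≤ R → ∀ p ∈ K ×ˢ closedBall (0 : E n) r,
      ∀ s ∈ Icc (0 : ℝ) 1, p + s • ((0, e) : P n) ∈ K ×ˢ closedBall (0 : E n) (r + R) := by
    intro e r he p hp s hs
    refine ⟨by simpa using hp.1, mem_closedBall_zero_iff.2 ((norm_add_le _ _).trans
      (add_le_add (mem_closedBall_zero_iff.1 hp.2) ?_))⟩
    change ‖s • e‖ ≤ R
    rw [norm_smul, Real.norm_of_nonneg hs.1]
    exact (mul_le_of_le_one_left (norm_nonneg _) hs.2).trans he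
  obtain ⟨a1, a2⟩ := hmn3_avg h1.enorm (0, v) (hm _) (hm _) (h3 v (d + R) hv)
  obtain ⟨-, a3⟩ := hmn3_avg a1 (0, u) (hm _) (hm _) (h3 u d hu)
  refine hc.not_ge ?_
  rw [← setLIntegral_const]
  refine le_trans (setLIntegral_mono' (hm d) fun p hp => ?_) (a3.trans (a2.trans ?_))
  · refine (ENNReal.ofReal_le_ofReal (hne p hp.1 (mem_closedBall_zero_iff.1 hp.2)).le).trans
      ((hmn3_par b p _ _).trans_eq ?_)
    refine lintegral_congr fun s => lintegral_congr fun r => ?_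
    rw [h2 _ (by simpa using hp.1)]
  · refine le_trans (setLIntegral_mono' (hm _) fun p hp => ?_)
      (lintegral_mono_set (prod_mono Subset.rfl (closedBall_subset_closedBall (by linarith))))
    rw [h2 p hp.1, Real.enorm_eq_ofReal_abs]
    exact hG p hp.1

variable {X : Type} [TopologicalSpace X] [T2Space X] [MeasurableSpace X] {S : Setup n X}

omit [T2Space X] in
theorem Loc.hmn3_cov (l : Loc S) {p : P n} (hp : p.1 ∈ ball l.y1 (4 * l.ρ)) : S.M.Ψ p ∈
    S.M.Ψ '' (closedBall S.G.y0 (4 * S.G.r) ×ˢ closedBall (0 : E n) (S.M.C0 * l.C)) := by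
  obtain ⟨j, α, hj, ⟨O, hO, hy⟩, hα, -⟩ := l.kk p.1 hp p.2
  have hr := S.G.r_pos
  have h1 : p.1 ∈ ball S.G.y0 (2 * S.G.r) := ball_subset_ball (by linarith) (l.sub hp)
  refine ⟨(S.rt j α).act p, ⟨ball_subset_closedBall (ball_subset_ball (by linarith)
    (S.G.move (hj.trans l.ccg3_δ.1) h1)), mem_closedBall_zero_iff.2 ?_⟩, hO.eq p.1 hy p.2⟩
  refine (ContinuousLinearMap.le_opNorm _ _).trans (mul_le_mul (S.M.bd O _ hO p.1 hy).2.1 ?_
    (norm_nonneg _) (by linarith [S.M.C0_ge]))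
  rwa [norm_sub_rev]

theorem Loc.hmn3_move (l : Loc S) {t : Form2 (P n)} (hc : Closed2 (S.M.T ×ˢ univ) t)
    (ht : Tame l t) : ∃ K, 0 ≤ K ∧ ∀ δ R : ℝ, δ ≤ l.ρ → δ ≤ 1 → 1 ≤ R → ∀ u v : E n, ‖u‖ ≤ R →
      ‖v‖ ≤ R → ∀ p : P n, p.1 ∈ closedBall l.y1 δ → ‖p.2‖ ≤ δ * R →
        |par t l.o (0, u) (0, v) - par t p (0, u) (0, v)| ≤ K * δ * R ^ 2 := by
  obtain ⟨K, hK0, hK⟩ := ht
  refine ⟨16 * K, by positivity, fun δ R h1 h2 hR u v hu hv p hp hp2 => ?_⟩
  have hρ := l.ρ_pos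
  have hW : IsOpen (S.M.T ×ˢ (univ : Set (E n))) := S.M.T_open.prod isOpen_univ
  have hcv : Convex ℝ (S.M.T ×ˢ (univ : Set (E n))) := S.M.T_conv.prod convex_univ
  have y0 : l.y1 ∈ S.M.T := (l.mem_r (mem_ball_self (by linarith))).2
  have y1 : p.1 ∈ S.M.T := (l.mem_r (closedBall_subset_ball (by linarith) hp)).2
  obtain ⟨w, rfl⟩ : ∃ w, p = l.o + w := ⟨p - l.o, by abel⟩
  have w1 : ‖w.1‖ ≤ δ := by simpa [Loc.o, dist_eq_norm] using hp
  have w2 : ‖w.2‖ ≤ δ * R := by simpa [Loc.o] using hp2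
  have hδ : 0 ≤ δ := (norm_nonneg _).trans w1
  have m0 : ∀ q : P n, q.1 = l.y1 → q ∈ S.M.T ×ˢ (univ : Set (E n)) := fun q hq =>
    ⟨hq ▸ y0, mem_univ _⟩
  have m1 : ∀ q : P n, q.1 = l.y1 → q + w ∈ S.M.T ×ˢ (univ : Set (E n)) := fun q hq =>
    ⟨by rw [Prod.fst_add, hq]; exact y1, mem_univ _⟩
  have side : ∀ (q : P n) (e : E n), q.1 = l.y1 → ‖q.2‖ ≤ R → ‖e‖ ≤ R →
      |par t q (0, e) w| ≤ 4 * K * δ * R ^ 2 := fun q e hq hq2 he =>
    clpar_int_bd fun s hs => clpar_int_bd fun r hr => by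
      have b1 : ‖r • w.1‖ ≤ δ := by
        rw [norm_smul, Real.norm_of_nonneg hr.1]
        exact (mul_le_of_le_one_left (norm_nonneg _) hr.2).trans w1
      have b2 : ‖r • w.2‖ ≤ R := by
        rw [norm_smul, Real.norm_of_nonneg hr.1]
        exact (mul_le_of_le_one_left (norm_nonneg _) hr.2).trans (by nlinarith)
      have b3 : ‖s • e‖ ≤ R := by
        rw [norm_smul, Real.norm_of_nonneg hs.1]
        exact (mul_le_of_le_one_left (norm_nonneg _) hs.2).trans he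
      refine (hK _ (3 * R) ?_ (by linarith) ?_ _ _).trans ?_
      · rw [mem_ball_iff_norm]
        simp only [Prod.fst_add, Prod.smul_fst, smul_zero, add_zero, hq, add_sub_cancel_left]
        linarith
      · exact (norm_add₃_le (a := q.2) (b := s • e) (c := r • w.2)).trans (by linarith)
      · have b4 : qn (3 * R) ((0, e) : P n) = ‖e‖ := by simp [qn]
        have b5 : qn (3 * R) w ≤ 4 * δ * R := by
          rw [qn]
          nlinarith
        rw [b4]
        calc _ ≤ K * R * (4 * δ * R) := by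
              have := (qn_basic (3 * R) (by linarith) w w 0).1
              gcongr
          _ = _ := by ring
  have o1 : l.o.1 = l.y1 := rfl
  have o2 : ‖l.o.2‖ ≤ R := by simpa [Loc.o] using zero_le_one.trans hR
  have s1 := abs_le.1 (side l.o u o1 o2 hu)
  have s2 := abs_le.1 (side (l.o + (0, u)) v (by simp [o1]) (by simpa [Loc.o] using hu) hv)
  have s3 := abs_le.1 (side (l.o + (0, v)) u (by simp [o1]) (by simpa [Loc.o] using hv) hu)
  have s4 := abs_le.1 (side l.o v o1 o2 hv)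
  rw [hmn3_cube hW hcv (rad_prim hW hcv hc (m0 _ o1)) (m0 _ o1) (m0 _ (by simp [o1]))
    (m0 _ (by simp [o1])) (m0 _ (by simp [o1])) (m1 _ o1) (m1 _ (by simp [o1]))
    (m1 _ (by simp [o1])) (m1 _ (by simp [o1])), abs_le]
  constructor <;> linarith [s1.1, s1.2, s2.1, s2.2, s3.1, s3.2, s4.1, s4.2]

theorem Loc.par_nullL (l : Loc S) (i : Fin S.M.m) (h : NullL S.M.T S.M.Ψ S.M.μ (S.M.a i)) :
    ∀ ε > (0 : ℝ), ∃ C, ∀ (u v : E n) (R : ℝ), 1 ≤ R → ‖u‖ ≤ R → ‖v‖ ≤ R →
      |par (leaf (S.M.a i) l.y1) 0 u v| ≤ ε * R ^ 2 + C * R := by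
  intro ε hε
  obtain ⟨K, hK0, hK⟩ := l.hmn3_move (S.M.a_form i).closed (l.tame_a i)
  obtain ⟨A, hA0, hA⟩ := S.M.mu
  have hρ := l.ρ_pos
  obtain ⟨δ, hδ, d1, d2, d3⟩ : ∃ δ > (0 : ℝ), δ ≤ l.ρ ∧ δ ≤ 1 ∧ K * δ ≤ ε / 2 := by
    refine ⟨min (min l.ρ 1) (ε / 2 / (K + 1)), by positivity, (min_le_left _ _).trans
      (min_le_left _ _), (min_le_left _ _).trans (min_le_right _ _), ?_⟩
    have h1 := (le_div_iff₀ (by positivity)).1 (min_le_right (min l.ρ 1) (ε / 2 / (K + 1)))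
    have h2 : 0 < min (min l.ρ 1) (ε / 2 / (K + 1)) := by positivity
    linarith
  have hd : Module.finrank ℝ (E n) = 2 * n := by
    rw [finrank_real_of_complex]
    simp
  obtain ⟨κ, hκ, hv0⟩ : ∃ κ > (0 : ℝ), volume (ball (0 : E n) 1) = ENNReal.ofReal κ :=
    ⟨_, ENNReal.toReal_pos (measure_ball_pos volume _ one_pos).ne' measure_ball_lt_top.ne,
      (ENNReal.ofReal_toReal measure_ball_lt_top.ne).symm⟩
  have hs : closedBall l.y1 δ ⊆ ball l.y1 (4 * l.ρ) := closedBall_subset_ball (by linarith)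
  have hT : closedBall l.y1 δ ⊆ S.M.T := fun x hx =>
    (l.mem_r (ball_subset_ball (by linarith) (hs hx))).2
  obtain ⟨C₀, h1⟩ := h ∅ isCompact_empty (empty_subset _)
  obtain ⟨e, he⟩ : ∃ e, e = ε / 4 * (δ ^ (2 * n) * κ) ^ 2 / (A * 3 ^ (2 * n)) := ⟨_, rfl⟩
  have he0 : 0 < e := by
    rw [he]
    positivity
  obtain ⟨β, b, M, φ, -, hβ, hb, -, hM, -, -, hφ0, -, hφ, -, hbφ, -⟩ :=
    h1 _ ((isCompact_closedBall _ _).prod (isCompact_closedBall (0 : E n) (S.M.C0 * l.C)))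
      (prod_mono S.G.sub (subset_univ _)) e he0
  refine ⟨4 * |M|, fun u v R hR hu hv => ?_⟩
  have hR0 : 0 < R := by linarith
  obtain ⟨p, p1, p2, p3⟩ := hmn3_pt S.M.T_open hb (isCompact_closedBall l.y1 δ) hT hu hv
    (d := δ * R) (c := ε / 2 * R ^ 2) (by nlinarith)
    (G := fun p => ENNReal.ofReal (R ^ 2) * ENNReal.ofReal (φ (S.M.Ψ p))) (fun p hp => by
      rw [← ENNReal.ofReal_mul (by positivity)]
      refine ENNReal.ofReal_le_ofReal ((hbφ p (hT hp) (l.hmn3_cov (hs hp)) u v).trans ?_)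
      have := hφ0 (S.M.Ψ p)
      calc _ ≤ φ (S.M.Ψ p) * R * R := by gcongr
        _ = _ := by ring) (by
      rw [lintegral_const_mul' _ _ ENNReal.ofReal_ne_top]
      refine (mul_le_mul_right ((hA _ (isCompact_closedBall l.y1 δ) hT (3 * R) (by linarith)
        fun x => ENNReal.ofReal (φ x)).trans (mul_le_mul_right hφ _)) _).trans_lt ?_
      rw [Measure.volume_eq_prod, Measure.prod_prod, Measure.addHaar_closedBall _ _ hδ.le,
        Measure.addHaar_closedBall _ _ (by positivity), hd, hv0,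
        ← ENNReal.ofReal_mul (by positivity), ← ENNReal.ofReal_mul (by positivity),
        ← ENNReal.ofReal_mul (by positivity), ← ENNReal.ofReal_mul (by positivity),
        ← ENNReal.ofReal_mul (by positivity), ← ENNReal.ofReal_mul (by positivity),
        ENNReal.ofReal_lt_ofReal_iff (by positivity), he, mul_pow, mul_pow δ R]
      have h2 : 0 < ε * R ^ 2 * R ^ (2 * n) * (δ ^ (2 * n) * κ) ^ 2 := by positivity
      calc _ = ε * R ^ 2 * R ^ (2 * n) * (δ ^ (2 * n) * κ) ^ 2 / 4 := by field_simp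
        _ < ε * R ^ 2 * R ^ (2 * n) * (δ ^ (2 * n) * κ) ^ 2 / 2 := by linarith
        _ = _ := by ring)
  have h2 := abs_le.1 (hK δ R d1 d2 hR u v hu hv p p1 p2)
  have h3 := hmn3_loop S.M.T_open S.M.T_conv hβ hM (hT p1) hu hv
  rw [hmn3_sub (S.M.a_form i).closed.1.continuousOn hb (hT p1), abs_le] at h3
  have h4 : par (leaf (S.M.a i) l.y1) 0 u v = par (S.M.a i) l.o (0, u) (0, v) := by
    simp [par, leaf, Loc.o]
  have h5 := mul_le_mul_of_nonneg_right d3 (sq_nonneg R)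
  rw [h4, abs_le]
  rw [abs_le] at p3
  constructor <;> linarith [h2.1, h2.2, h3.1, h3.2, p3.1, p3.2]

end Pool.Agent.CL
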