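import Pool.Agent.K.MP_63735c_ag.C140
import Pool.Agent.K.MP_63735c_ag.C143
import Pool.Agent.K.MP_63735c_ag.C145
import Pool.Agent.K.MP_63735c_ag.C147
import Pool.Agent.K.MP_63735c_ag.C148
import Pool.Agent.K.MP_63735c_ag.C151
import Pool.Agent.K.MP_63735c_ag.C153
import Pool.Agent.K.MP_63735c_ag.C155

/-! Part C: the periods span. -/

open scoped ContDiff Matrix
open Set Metric MeasureTheory Filter Topology

namespace Pool.Agent.CL

open Pool.Agent.SPF LGrp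

variable {n : ℕ} {X : Type} [TopologicalSpace X] [T2Space X] [MeasurableSpace X]
  {S : Setup n X}

/-- The abstract data of the local group of small returns. -/
noncomputable def Gam.toCA {l : Loc S} {D : LGrp} (Γ : Gam l D) {ι : (Fin S.Q.r0 → ℤ) → D.G}
    (hι : Γ.IsPer ι) (hχ : ∀ g, D.sz g ≤ 1 → S.chi (Γ.j g) = 0) : CA n D :=
  have h1 : l.y1 ∈ ball l.y1 (4 * l.ρ) := mem_ball_self (by linarith [l.ρ_pos])
  have h2 : l.y1 ∈ S.M.T := (l.mem_r (mem_ball_self (by linarith [l.ρ_pos]))).2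
  { a := Γ.a
    u := Γ.u
    T := Γ.T
    r0 := S.Q.r0
    zv := fun k => S.Q.z k l.y1
    ι := ι
    sg := Γ.sg
    ko := Γ.kap (rad S.M.om l.o)
    m := S.M.m
    c := S.M.c
    ka := fun i => Γ.kap (rad (S.M.a i) l.o)
    e0 := S.M.h l.y1
    a_one := Γ.a_one
    a_mul3 := Γ.a_mul3
    sep := Γ.sep
    syn := Γ.syn
    sz_comm := Γ.sz_comm
    sz_conj := Γ.sz_conj
    zv_ind := S.Q.per0.z_ind _ h2
    ι_sz := hι.sz
    ι_a := fun m => by
      refine (hι.α m _ h1).trans (Finset.sum_congr rfl fun k _ => ?_)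
      rw [← Complex.ofReal_intCast, Complex.coe_smul]
    ι_cen := hι.cen
    ι_all := hι.all
    u_le := Γ.u_le
    a_T := Γ.a_T
    uni := Γ.uni
    sg_coc := Γ.sg_coc
    sg_lip := Γ.sg_lip
    sg_per := Γ.sg_per hι hχ
    sg_u := Γ.sg_u
    ko_coc := Γ.kap_coc (rad_prim (S.M.T_open.prod isOpen_univ) (S.M.T_conv.prod convex_univ)
      S.M.om_form.closed ⟨h2, trivial⟩) fun g => S.M.om_form.inv _ _ (Γ.ret g)
    ko_bd := Γ.kap_bd S.M.om_form l.tame_om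
    ko_pos := Γ.ko_pos
    ka_coc := fun i => Γ.kap_coc (rad_prim (S.M.T_open.prod isOpen_univ)
      (S.M.T_conv.prod convex_univ) (S.M.a_form i).closed ⟨h2, trivial⟩)
      fun g => (S.M.a_form i).inv _ _ (Γ.ret g)
    ka_bd := fun i => Γ.kap_bd (S.M.a_form i) (l.tame_a i)
    ka_iso := Γ.ka_iso
    int := Γ.int
    span1 := Γ.span1
    e0_ne := fun v hv => (S.M.h_pos _ h2 v hv).ne'
    eta := Γ.eta }

theorem partC (S : Setup n X) (h : ∀ d > (0 : ℝ), S.KK d) :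
    ∃ y ∈ S.M.T, Submodule.span ℝ (Set.range fun k => S.Q.z k y) = ⊤ := by
  obtain ⟨l⟩ := exists_loc h
  obtain ⟨e, he, hχ⟩ := l.chi_zero
  obtain ⟨D, Γ, hΓ⟩ := l.exists_gam he
  obtain ⟨ι, hι⟩ := Γ.exists_per
  have h1 : l.y1 ∈ ball l.y1 (4 * l.ρ) := mem_ball_self (by linarith [l.ρ_pos])
  refine ⟨l.y1, (l.mem_r (mem_ball_self (by linarith [l.ρ_pos]))).2,
    (Γ.toCA hι fun g hg => hχ _ _ ?_ (Γ.gm g h1)).top⟩
  rw [Γ.sz_eq]
  exact (mul_le_of_le_one_right Γ.lam_pos.le hg).trans hΓ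

end Pool.Agent.CL
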