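import Pool.Agent.K.MP_63735c_ag.C97

/-! Atoms give relatively dense small returns. -/

open scoped ContDiff Matrix ENNReal
open Set Metric MeasureTheory Filter Topology

namespace Pool.Agent.CL

open Pool.Agent.SPF

variable {n : ℕ} {X : Type} [TopologicalSpace X] [T2Space X] [MeasurableSpace X]

theorem clkk_count {α : Type} {S : Set α} (hS : S.Finite) :
    {w : List α | ∀ x ∈ w, x ∈ S}.Countable := by
  have := hS.to_subtype
  refine (countable_range (List.map (Subtype.val : S → α))).mono fun w hw => ?_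
  lift w to List S using hw
  exact ⟨w, rfl⟩

namespace Big

theorem kk_of_atoms (B : Big n X) (h : ∀ e > (0:ℝ), ∃ y t κ C, 0 < t ∧ 0 < κ ∧ 1 ≤ C ∧
    ball y t ⊆ ball B.S.G.y0 (B.S.G.r / 2) ∧ B.Atoms e y t κ C) : ∀ δ > 0, B.S.KK δ := by
  intro δ hδ
  have hL := B.S.G.lg.L_ge
  have hε := B.S.G.lg.ε_pos
  have hA := B.A.C_ge
  have hn : (0 : ℝ) ≤ n := Nat.cast_nonneg n
  obtain ⟨c, t, κ, C, ht, hκ, hC, hc, hat⟩ := h (B.S.G.lg.ε / B.S.G.lg.L) (by positivity)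
  obtain ⟨Cr, hCr, hrc⟩ := B.alph.exists_rc
  obtain ⟨θ, θ0, θ1, θ2⟩ : ∃ θ > (0 : ℝ), θ ≤ 1 / 9 ∧ 4096 * (n + 1) ^ 2 * B.A.C * C * θ ≤ κ :=
    ⟨min (1 / 9) (κ / (4096 * (n + 1) ^ 2 * B.A.C * C)), by positivity, min_le_left _ _,
      (le_div_iff₀' (by positivity)).1 (min_le_right _ _)⟩
  have θ3 : 4096 * (n * C * θ) ≤ κ := by
    have h1 : n * C * θ ≤ (n + 1) ^ 2 * B.A.C * C * θ := by
      gcongr
      nlinarith [sq_nonneg (n : ℝ)]
    linarith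
  have θ4 : 4096 * (n ^ 2 * B.A.C * C * θ) ≤ κ := by
    have h1 : n ^ 2 * B.A.C * C * θ ≤ (n + 1) ^ 2 * B.A.C * C * θ := by
      gcongr
      linarith
    linarith
  have θ5 : θ * t ≤ t / 9 := by nlinarith
  obtain ⟨e, e0, e1, e2, e3⟩ : ∃ e > (0 : ℝ), e ≤ δ ∧ Cr * e ≤ B.S.G.lg.ε ∧
      B.S.G.lg.L * Cr * e ≤ min θ (θ * t / 2) :=
    ⟨min δ (min (B.S.G.lg.ε / Cr) (min θ (θ * t / 2) / (B.S.G.lg.L * Cr))), by positivity,
      min_le_left _ _, (le_div_iff₀' hCr).1 ((min_le_right _ _).trans (min_le_left _ _)),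
      (le_div_iff₀' (by positivity)).1 ((min_le_right _ _).trans (min_le_right _ _))⟩
  obtain ⟨e3, e4⟩ := le_min_iff.1 e3
  obtain ⟨d, d0, d1⟩ : ∃ d > (0 : ℝ), B.S.G.lg.L * d = e :=
    ⟨e / B.S.G.lg.L, by positivity, by field_simp⟩
  have d2 : d ≤ e := d1 ▸ le_mul_of_one_le_left d0.le hL
  have hLe : 0 < B.S.G.lg.L * e := by positivity
  obtain ⟨a0, -, a1, a2, -⟩ := hrc e e0 e2 ∅ fun _ h => h.elim
  have e5 : e ≤ Cr * e := by
    have : 0 < B.S.G.lg.L * e := hLe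
    change a0 + 4 * B.S.G.lg.L * e ≤ _ at a2
    linarith
  have e6 : Cr * e ≤ B.S.G.lg.L * Cr * e := by
    rw [mul_assoc]
    exact le_mul_of_one_le_left (by positivity) hL
  have dε : d ≤ B.S.G.lg.ε := by linarith
  obtain ⟨a, KK, a1, a2, hK⟩ := hrc e e0 e2 (B.Lets c t d)
    fun x hx => ⟨hx.1.1.trans dε, hx.1.2.trans dε⟩
  change a + 4 * B.S.G.lg.L * e ≤ _ at a2
  have a3 := mul_le_mul_of_nonneg_left a2 B.S.G.lg.L_pos.le
  have a4 : B.S.G.lg.L * (a + B.S.G.lg.L * e) ≤ B.S.G.lg.L * (a + 4 * B.S.G.lg.L * e) :=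
    mul_le_mul_of_nonneg_left (by linarith) B.S.G.lg.L_pos.le
  obtain ⟨m, hm⟩ := (hK.fin.image fun K => ((B.alph.winv K).map fun x => 2 * x.m).sum).bddAbove
  obtain ⟨R, hR, S0, s1, s2, s3⟩ := exists_letters (d := d) hc ht (θ := θ) (κ := κ) (C := C)
    (le_of_eq (by field_simp)) d0 (by linarith) (by linarith) (by linarith) (by linarith) hκ hC
    (by linarith) hat (max (max 1 m) (16 * n * m / κ))
  simp only [ge_iff_le, max_le_iff] at hR
  obtain ⟨⟨R1, R2⟩, R3⟩ := hR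
  rw [div_le_iff₀ hκ] at R3
  obtain ⟨S, eS⟩ : ∃ S, S = S0 ∪ ⋃ K ∈ KK, B.alph.inv '' {x | x ∈ K} := ⟨_, rfl⟩
  have S1 : S.Finite := eS ▸ s1.union (hK.fin.biUnion fun K _ => K.finite_toSet.image _)
  have S2 : S ⊆ B.Lets c t d := eS ▸ union_subset s2 (iUnion₂_subset fun K hK' => by
    rintro _ ⟨x, hx, rfl⟩
    exact Lets.inv (hK.mem K hK' x hx) (by linarith))
  have S3 : ∀ K ∈ KK, ∀ x ∈ K, B.alph.inv x ∈ S := fun K hK' x hx =>
    eS ▸ Or.inr (mem_biUnion hK' ⟨x, hx, rfl⟩)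
  have hCR : R ≤ C * R := le_mul_of_one_le_left (by linarith) hC
  obtain ⟨Cw, hCw, hw⟩ := hK.walk e0 (a2.trans e2) a1 S2 S3 (EE B.S.Q.I) (nb := fun x => 2 * x.m)
    (ev := B.ev c) (κ := κ / 2) (C := 8 * C) (R := R) (η := 9 * θ) (m := m) (by positivity)
    (by linarith) (by positivity) (by linarith) (by positivity)
    (by nlinarith [mul_le_mul_of_nonneg_right θ3 (show 0 ≤ R by linarith)]) (by linarith)
    (fun x hx => by linarith [(Lets.ev_le (S2 hx) ht).1]) (fun x hx => (Lets.ev_le (S2 hx) ht).2)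
    (fun K hK' => hm ⟨K, hK', rfl⟩) fun v hv hv' => by
      obtain ⟨x, hx, x1, x2⟩ := s3 v hv hv'
      exact ⟨x, eS ▸ Or.inl hx, (mul_le_mul_of_nonneg_left (s2 hx).1.1 B.S.G.lg.L_pos.le).trans
        d1.le, x1, x2⟩
  obtain ⟨cost, hrl⟩ := word_rl hc ht
  have τε : a + B.S.G.lg.L * e ≤ B.S.G.lg.ε := by linarith
  replace hrl := fun w (h : ∀ x ∈ w, x ∈ S) h' =>
    (hrl d _ dε τε (by linarith) w (fun x hx => S2 (h x hx)) h').2
  refine kk_of_walk (c := c) (s := t / 4) (q := θ * t) (ρ := e / 2) (Cw := Cw)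
    (C4 := 8 * (8 * C) / (κ / 2) * n)
    (W := (fun w => (B.lab w, B.bw w, (w.map fun x => 2 * x.m).sum)) '' {w | (∀ x ∈ w, x ∈ S) ∧
      B.alph.Lev (a + B.S.G.lg.L * e) w ∧ B.S.G.lg.L * B.S.G.lg.sz (B.alph.en w) ≤ e / 2})
    ((ball_subset_ball (by linarith)).trans hc) (by positivity) (by linarith) (by linarith)
    (by linarith) (by linarith) (fin_chi hc ht dε hK e0 (a2.trans e2) a1 (by linarith) S1 S2 S3)
    (((clkk_count S1).mono fun w hw => hw.1).image _) ?_ ?_ (by positivity) hCw fun y hy x hx => ?_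
  · rintro _ ⟨w, ⟨w1, w2, w3⟩, rfl⟩
    refine ⟨lab_fst w ▸ w3, ⟨w, w1, w2, ?_, congrArg _ (lab_fst w)⟩, _, ENNReal.ofReal_ne_top,
      hrl w w1 w2⟩
    linarith [le_mul_of_one_le_left (B.S.G.lg.sz_nonneg (B.alph.en w)) hL]
  · have h1 : 8 * n * B.A.C * (θ * t) * (8 * (8 * C) / (κ / 2) * n) =
        4096 * (n ^ 2 * B.A.C * C * θ) / κ * (t / 4) := by
      field_simp
      ring
    rw [h1]
    exact mul_le_of_le_one_left (by positivity) ((div_le_one hκ).2 θ4)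
  · obtain ⟨w, w1, w2, w3, w4, w5⟩ := hw (B.pos y) (funext fun i => by simp [pos, bw, lab, rho])
      (fun w w1 w2 => EE_of ((hrl w w1 w2).mem y (ball_subset_ball (by linarith) hy))
        (cw_rho_mem _)) (fun l w w1 w2 => step_le hc ht (by linarith) τε (by linarith)
        (by linarith) (S2 (w1 l List.mem_cons_self)) w2.2 hy) x hx
    exact ⟨_, ⟨w, ⟨w1, w2, w3⟩, rfl⟩, w4, w5⟩

end Big

end Pool.Agent.CL
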