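import Pool.Agent.K.MP_63735c_ag.C89
import Pool.Agent.K.MP_63735c_ag.C98
import Pool.Agent.K.MP_63735c_ag.C102
import Pool.Agent.K.MP_63735c_ag.C110
import Pool.Agent.K.MP_63735c_ag.C113
import Pool.Agent.K.MP_63735c_ag.C117
import Pool.Agent.K.MP_63735c_ag.C156

/-! The periods span the leaf. -/

open Set Metric

namespace Pool.Agent.CL

open Pool.Agent.SPF

variable {n : ℕ} {X : Type} [TopologicalSpace X] [T2Space X] [MeasurableSpace X]

theorem partB (S : Setup n X) : ∀ δ > 0, S.KK δ := by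
  obtain ⟨A⟩ := exists_avg S
  obtain ⟨H⟩ := exists_sh S A
  exact Big.kk_of_atoms ⟨S, A, H⟩ fun e he => Big.atoms _ he

theorem model_span (M : Model n X) (Q : Per M) :
    ∃ y ∈ M.T, Submodule.span ℝ (range fun k => Q.z k y) = ⊤ := by
  obtain ⟨G0⟩ := exists_iso M.T_open M.T_ne M.h_closed M.h_jinv M.h_pos
  obtain ⟨G, h1, h2⟩ := setup_of_iso Q G0
  exact partC ⟨M, Q, G, h1, h2⟩ (partB _)

end Pool.Agent.CL
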