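import Pool.Agent.K.MP_63735c_ag.C30

/-! The Poincaré lemma for holomorphic 2-forms. -/

open scoped ComplexOrder ContDiff Matrix
open Set Metric MeasureTheory Filter Topology

namespace Pool.Agent.CK

open Pool.Agent.SPF Pool.Agent.CL Pool.Agent.NL

variable {N n : ℕ} {X : Type} [TopologicalSpace X] {A : Atlas X N} {T O : Set (E n)}
  {Ψ : P n → X}

/-- The derivative of the form `B` at `p` in the direction `x`, evaluated on `u, v`. -/
noncomputable def ckpoincS (B : E n → Matrix (Fin n) (Fin n) ℂ) (p x u v : E n) : ℂ :=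
  ∑ a, ∑ b, u a * fderiv ℂ (fun y => B y a b) p x * v b

/-- The integrand of the radial primitive. -/
noncomputable def ckpoincF (B : E n → Matrix (Fin n) (Fin n) ℂ) (o y : E n) (r : ℝ) : E n :=
  fun k => (r : ℂ) * ∑ a, (y - o) a * B (o + r • (y - o)) a k

lemma ckpoinc_expand (L : E n →L[ℂ] ℂ) (x : E n) : L x = ∑ c, x c * L (Pi.single c 1) := by
  conv_lhs => rw [← Finset.univ_sum_single x]
  rw [map_sum]
  refine Finset.sum_congr rfl fun c _ => ?_
  rw [← smul_eq_mul, ← map_smul]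
  congr 1
  ext j
  by_cases h : j = c
  · subst h; simp
  · simp [h]

lemma ckpoinc_S_eq (B : E n → Matrix (Fin n) (Fin n) ℂ) (p x u v : E n) :
    ckpoincS B p x u v =
      ∑ c, ∑ a, ∑ b, x c * u a * v b * fderiv ℂ (fun y => B y a b) p (Pi.single c 1) := by
  unfold ckpoincS
  rw [Finset.sum_comm]
  conv_rhs => rw [Finset.sum_comm]
  rw [Finset.sum_comm]
  refine Finset.sum_congr rfl fun a _ => ?_
  conv_rhs => rw [Finset.sum_comm]
  refine Finset.sum_congr rfl fun b _ => ?_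
  rw [ckpoinc_expand _ x, Finset.mul_sum, Finset.sum_mul]
  exact Finset.sum_congr rfl fun c _ => by ring

lemma ckpoinc_cyc {B : E n → Matrix (Fin n) (Fin n) ℂ} {p : E n}
    (hcl : ∀ a b c, fderiv ℂ (fun x => B x b c) p (Pi.single a 1) +
      fderiv ℂ (fun x => B x c a) p (Pi.single b 1) +
      fderiv ℂ (fun x => B x a b) p (Pi.single c 1) = 0) (x u v : E n) :
    ckpoincS B p x u v + ckpoincS B p u v x + ckpoincS B p v x u = 0 := by
  rw [ckpoinc_S_eq, ckpoinc_S_eq, ckpoinc_S_eq]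
  have h2 : (∑ c, ∑ a, ∑ b, u c * v a * x b * fderiv ℂ (fun y => B y a b) p (Pi.single c 1)) =
      ∑ c, ∑ a, ∑ b, x c * u a * v b * fderiv ℂ (fun y => B y b c) p (Pi.single a 1) := by
    conv_rhs => rw [Finset.sum_comm]
    refine Finset.sum_congr rfl fun a _ => ?_
    conv_rhs => rw [Finset.sum_comm]
    exact Finset.sum_congr rfl fun b _ => Finset.sum_congr rfl fun c _ => by ring
  have h3 : (∑ c, ∑ a, ∑ b, v c * x a * u b * fderiv ℂ (fun y => B y a b) p (Pi.single c 1)) =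
      ∑ c, ∑ a, ∑ b, x c * u a * v b * fderiv ℂ (fun y => B y c a) p (Pi.single b 1) := by
    rw [Finset.sum_comm]
    refine Finset.sum_congr rfl fun a _ => ?_
    rw [Finset.sum_comm]
    exact Finset.sum_congr rfl fun b _ => Finset.sum_congr rfl fun c _ => by ring
  rw [h2, h3, ← Finset.sum_add_distrib, ← Finset.sum_add_distrib]
  refine Finset.sum_eq_zero fun c _ => ?_
  rw [← Finset.sum_add_distrib, ← Finset.sum_add_distrib]
  refine Finset.sum_eq_zero fun a _ => ?_
  rw [← Finset.sum_add_distrib, ← Finset.sum_add_distrib]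
  refine Finset.sum_eq_zero fun b _ => ?_
  have := hcl c a b
  linear_combination (x c * u a * v b) * this

lemma ckpoinc_skew (hT : IsOpen T) {B : E n → Matrix (Fin n) (Fin n) ℂ}
    (hs : ∀ y ∈ T, (B y)ᵀ = -B y) {p : E n} (hp : p ∈ T) (x u v : E n) :
    ckpoincS B p x u v = -ckpoincS B p x v u := by
  unfold ckpoincS
  rw [Finset.sum_comm, ← Finset.sum_neg_distrib]
  refine Finset.sum_congr rfl fun a _ => ?_
  rw [← Finset.sum_neg_distrib]
  refine Finset.sum_congr rfl fun b _ => ?_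
  have h : (fun y => B y b a) =ᶠ[𝓝 p] fun y => -B y a b := by
    filter_upwards [hT.mem_nhds hp] with y hy
    have := congrFun (congrFun (hs y hy) a) b
    simpa using this
  rw [h.fderiv_eq, fderiv_fun_neg]
  simp only [_root_.neg_apply]
  ring

lemma ckpoinc_dot_skew {M : Matrix (Fin n) (Fin n) ℂ} (hs : Mᵀ = -M) (u v : E n) :
    v ⬝ᵥ M *ᵥ u = -(u ⬝ᵥ M *ᵥ v) := by
  rw [Matrix.dotProduct_mulVec, ← Matrix.mulVec_transpose, hs, Matrix.neg_mulVec, dotProduct_comm,
    dotProduct_neg]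

lemma ckpoinc_mem (hc : Convex ℝ T) {o y : E n} (ho : o ∈ T) (hy : y ∈ T) {r : ℝ}
    (hr : r ∈ Icc (0 : ℝ) 1) : o + r • (y - o) ∈ T :=
  hc.add_smul_sub_mem ho hy hr

lemma ckpoinc_cd (hT : IsOpen T) (hc : Convex ℝ T) {B : E n → Matrix (Fin n) (Fin n) ℂ}
    (hB : ∀ a b, DifferentiableOn ℂ (fun y => B y a b) T) {o y : E n} (ho : o ∈ T) (hy : y ∈ T)
    {r : ℝ} (hr : r ∈ Icc (0 : ℝ) 1) :
    ContDiffAt ℝ 1 (fun q : E n × ℝ => ckpoincF B o q.1 q.2) (y, r) := by
  refine contDiffAt_pi.2 fun k => ?_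
  unfold ckpoincF
  refine ContDiffAt.mul ?_ (ContDiffAt.sum fun a _ => ContDiffAt.mul ?_ ?_)
  · exact (Complex.ofRealCLM.contDiff.comp contDiff_snd).contDiffAt
  · exact (((contDiff_apply ℝ ℂ a).comp (contDiff_fst.sub contDiff_const))).contDiffAt
  · have h1 : ContDiffAt ℝ 1 (fun x => B x a k) (o + r • (y - o)) :=
      (((hol_smooth hT (hB a k)).2.1.contDiffAt
        (hT.mem_nhds (ckpoinc_mem hc ho hy hr))).of_le (by exact_mod_cast le_top))
    have h2 : ContDiffAt ℝ 1 (fun q : E n × ℝ => o + q.2 • (q.1 - o)) (y, r) :=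
      (contDiff_const.add (contDiff_snd.smul (contDiff_fst.sub contDiff_const))).contDiffAt
    exact ContDiffAt.comp (g := fun x => B x a k) (y, r) h1 h2

lemma ckpoinc_deriv (hT : IsOpen T) (hc : Convex ℝ T) {B : E n → Matrix (Fin n) (Fin n) ℂ}
    (hB : ∀ a b, DifferentiableOn ℂ (fun y => B y a b) T) {o y : E n} (ho : o ∈ T) (hy : y ∈ T)
    {r : ℝ} (hr : r ∈ Icc (0 : ℝ) 1) :
    ∃ D : E n →L[ℂ] E n, HasFDerivAt (fun x => ckpoincF B o x r) D y ∧ ∀ u v, D u ⬝ᵥ v =
      r * (u ⬝ᵥ B (o + r • (y - o)) *ᵥ v) +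
        r ^ 2 * ckpoincS B (o + r • (y - o)) u (y - o) v := by
  have hp := ckpoinc_mem hc ho hy hr
  have hl : HasFDerivAt (fun x : E n => o + r • (x - o))
      ((r : ℂ) • ContinuousLinearMap.id ℂ (E n)) y := by
    have := (((hasFDerivAt_id (𝕜 := ℂ) y).sub_const o).const_smul (r : ℂ)).const_add o
    simpa [Complex.coe_smul] using this
  have hk : ∀ k, HasFDerivAt (fun x => ckpoincF B o x r k)
      ((r : ℂ) • ∑ a, ((y - o) a • (fderiv ℂ (fun x => B x a k) (o + r • (y - o))).comp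
        ((r : ℂ) • ContinuousLinearMap.id ℂ (E n)) +
        B (o + r • (y - o)) a k • ContinuousLinearMap.proj a)) y := by
    intro k
    unfold ckpoincF
    refine HasFDerivAt.const_mul (HasFDerivAt.fun_sum fun a _ => ?_) _
    have h1 : HasFDerivAt (fun x : E n => (x - o) a)
        (ContinuousLinearMap.proj (R := ℂ) (φ := fun _ : Fin n => ℂ) a) y := by
      have := (hasFDerivAt_apply (𝕜 := ℂ) a y).sub_const (o a)
      simpa using this
    have h2 : HasFDerivAt (fun x => B (o + r • (x - o)) a k)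
        ((fderiv ℂ (fun x => B x a k) (o + r • (y - o))).comp
          ((r : ℂ) • ContinuousLinearMap.id ℂ (E n))) y :=
      HasFDerivAt.comp (g := fun x => B x a k) y
        ((hB a k).differentiableAt (hT.mem_nhds hp)).hasFDerivAt hl
    exact h1.mul h2
  refine ⟨_, hasFDerivAt_pi.2 hk, fun u v => ?_⟩
  simp only [dotProduct, Matrix.mulVec, ckpoincS, ContinuousLinearMap.pi_apply,
    _root_.smul_apply, _root_.sum_apply, _root_.add_apply,
    ContinuousLinearMap.comp_apply, ContinuousLinearMap.id_apply, ContinuousLinearMap.proj_apply,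
    map_smul, smul_eq_mul, Finset.mul_sum, Finset.sum_mul, ← Finset.sum_add_distrib]
  rw [Finset.sum_comm]
  exact Finset.sum_congr rfl fun a _ => Finset.sum_congr rfl fun b _ => by ring

lemma ckpoinc_ray (hT : IsOpen T) (hc : Convex ℝ T) {B : E n → Matrix (Fin n) (Fin n) ℂ}
    (hB : ∀ a b, DifferentiableOn ℂ (fun y => B y a b) T) {o y : E n} (ho : o ∈ T) (hy : y ∈ T)
    {r : ℝ} (hr : r ∈ Icc (0 : ℝ) 1) (u v : E n) :
    HasDerivAt (fun t : ℝ => (t : ℂ) ^ 2 * (u ⬝ᵥ B (o + t • (y - o)) *ᵥ v))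
      (2 * r * (u ⬝ᵥ B (o + r • (y - o)) *ᵥ v) +
        r ^ 2 * ckpoincS B (o + r • (y - o)) (y - o) u v) r := by
  have hp := ckpoinc_mem hc ho hy hr
  have hl : HasDerivAt (fun t : ℝ => o + t • (y - o)) (y - o) r := by
    simpa using ((hasDerivAt_id r).smul_const (y - o)).const_add o
  have h1 : HasDerivAt (fun t : ℝ => (t : ℂ) ^ 2) (2 * r) r := by
    have := (hasDerivAt_pow 2 (r : ℂ)).comp_ofReal
    simpa using this
  have h2 : HasDerivAt (fun t : ℝ => u ⬝ᵥ B (o + t • (y - o)) *ᵥ v)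
      (ckpoincS B (o + r • (y - o)) (y - o) u v) r := by
    have h3 : (fun t : ℝ => u ⬝ᵥ B (o + t • (y - o)) *ᵥ v) =
        fun t : ℝ => ∑ a, ∑ b, u a * B (o + t • (y - o)) a b * v b := by
      funext t
      simp only [dotProduct, Matrix.mulVec, Finset.mul_sum, mul_assoc]
    rw [h3]
    unfold ckpoincS
    refine HasDerivAt.fun_sum fun a _ => HasDerivAt.fun_sum fun b _ => ?_
    refine HasDerivAt.mul_const (HasDerivAt.const_mul _ ?_) _
    exact ((((hB a b).differentiableAt (hT.mem_nhds hp)).hasFDerivAt.restrictScalars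
      ℝ).comp_hasDerivAt r hl)
  exact h1.mul h2

theorem hol_poinc (hT : IsOpen T) (hc : Convex ℝ T) {B : E n → Matrix (Fin n) (Fin n) ℂ}
    (hB : ∀ a b, DifferentiableOn ℂ (fun y => B y a b) T) (hs : ∀ y ∈ T, (B y)ᵀ = -B y)
    (hcl : ∀ y ∈ T, ∀ a b c, fderiv ℂ (fun x => B x b c) y (Pi.single a 1) +
      fderiv ℂ (fun x => B x c a) y (Pi.single b 1) +
      fderiv ℂ (fun x => B x a b) y (Pi.single c 1) = 0) :
    ∃ s : E n → E n, DifferentiableOn ℂ s T ∧ ∀ y ∈ T, ∀ u v,
      fderiv ℂ s y u ⬝ᵥ v - fderiv ℂ s y v ⬝ᵥ u = u ⬝ᵥ B y *ᵥ v := by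
  rcases T.eq_empty_or_nonempty with rfl | ⟨o, ho⟩
  · exact ⟨0, differentiableOn_empty, fun y hy => hy.elim⟩
  have key : ∀ y ∈ T, ∃ L : E n →L[ℂ] E n,
      HasFDerivAt (fun x => ∫ r in (0 : ℝ)..1, ckpoincF B o x r) L y ∧
      ∀ u v, L u ⬝ᵥ v - L v ⬝ᵥ u = u ⬝ᵥ B y *ᵥ v := by
    intro y hy
    obtain ⟨h1, h2⟩ := hasFDerivAt_param (f := ckpoincF B o) (x := y)
      fun r hr => ckpoinc_cd hT hc hB ho hy hr
    have hint : IntervalIntegrable (fun r => fderiv ℝ (fun x => ckpoincF B o x r) y) volume 0 1 :=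
      ContinuousOn.intervalIntegrable (by rwa [uIcc_of_le zero_le_one])
    set L₀ := ∫ r in (0 : ℝ)..1, fderiv ℝ (fun x => ckpoincF B o x r) y with hL₀
    have happ : ∀ u, L₀ u = ∫ r in (0 : ℝ)..1, fderiv ℝ (fun x => ckpoincF B o x r) y u :=
      fun u => ContinuousLinearMap.intervalIntegral_apply hint u
    have hsm : ∀ (c : ℂ) u, L₀ (c • u) = c • L₀ u := by
      intro c u
      rw [happ, happ, ← intervalIntegral.integral_smul]
      refine intervalIntegral.integral_congr fun r hr => ?_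
      rw [uIcc_of_le zero_le_one] at hr
      obtain ⟨D, hD, -⟩ := ckpoinc_deriv hT hc hB ho hy hr
      simp only [(hD.restrictScalars ℝ).fderiv, ContinuousLinearMap.coe_restrictScalars', map_smul]
    let L : E n →L[ℂ] E n :=
      { toFun := L₀, map_add' := L₀.map_add, map_smul' := hsm, cont := L₀.continuous }
    refine ⟨L, hasFDerivAt_of_restrictScalars ℝ h1 (by ext; rfl), fun u v => ?_⟩
    have hcu : ∀ u : E n,
        ContinuousOn (fun r => fderiv ℝ (fun x => ckpoincF B o x r) y u) (uIcc 0 1) := fun u => by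
      rw [uIcc_of_le zero_le_one]
      exact h2.clm_apply continuousOn_const
    have hdot : ∀ u v : E n, L u ⬝ᵥ v =
        ∫ r in (0 : ℝ)..1, dl v (fderiv ℝ (fun x => ckpoincF B o x r) y u) := by
      intro u v
      rw [(dl v).intervalIntegral_comp_comm (hcu u).intervalIntegrable, ← happ, dl_apply,
        dotProduct_comm]
      rfl
    have hci : ∀ u v : E n, IntervalIntegrable
        (fun r => dl v (fderiv ℝ (fun x => ckpoincF B o x r) y u)) volume 0 1 := fun u v =>
      ((dl v).continuous.comp_continuousOn (hcu u)).intervalIntegrable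
    rw [hdot, hdot, ← intervalIntegral.integral_sub (hci u v) (hci v u)]
    have hd : ∀ r ∈ uIcc (0 : ℝ) 1,
        HasDerivAt (fun t : ℝ => (t : ℂ) ^ 2 * (u ⬝ᵥ B (o + t • (y - o)) *ᵥ v))
          (dl v (fderiv ℝ (fun x => ckpoincF B o x r) y u) -
            dl u (fderiv ℝ (fun x => ckpoincF B o x r) y v)) r := by
      intro r hr
      rw [uIcc_of_le zero_le_one] at hr
      have hp := ckpoinc_mem hc ho hy hr
      obtain ⟨D, hD, hD'⟩ := ckpoinc_deriv hT hc hB ho hy hr
      refine (ckpoinc_ray hT hc hB ho hy hr u v).congr_deriv ?_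
      simp only [(hD.restrictScalars ℝ).fderiv, ContinuousLinearMap.coe_restrictScalars', dl_apply]
      rw [dotProduct_comm v, dotProduct_comm u (D v), hD', hD', ckpoinc_dot_skew (hs _ hp) u v]
      have e1 := ckpoinc_cyc (hcl _ hp) (y - o) u v
      have e2 := ckpoinc_skew hT hs hp u v (y - o)
      linear_combination (r : ℂ) ^ 2 * e1 - (r : ℂ) ^ 2 * e2
    rw [intervalIntegral.integral_eq_sub_of_hasDerivAt hd ((hci u v).sub (hci v u))]
    simp
  refine ⟨fun x => ∫ r in (0 : ℝ)..1, ckpoincF B o x r, fun y hy => ?_, fun y hy u v => ?_⟩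
  · obtain ⟨L, hL, -⟩ := key y hy
    exact hL.differentiableAt.differentiableWithinAt
  · obtain ⟨L, hL, h⟩ := key y hy
    rw [hL.fderiv]
    exact h u v

end Pool.Agent.CK
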