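import Pool.Agent.K.MP_63735c_ag.C30
import Pool.Agent.K.MP_63735c_ag.C68

/-! Periods in the new coordinates. -/

open scoped ComplexOrder ContDiff Matrix
open Set Metric MeasureTheory Filter Topology

namespace Pool.Agent.CK

open Pool.Agent.SPF Pool.Agent.CL Pool.Agent.NL

variable {N n : ℕ} {X : Type} [TopologicalSpace X] {A : Atlas X N} {T O : Set (E n)}
  {Ψ : P n → X}

theorem cktrans_per {Y : Type} {Φ : P n → Y} {α : E n → E n} (hO : IsOpen O) (hs : O ⊆ T)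
    (hα : DifferentiableOn ℂ α O) (he : ∀ y ∈ O, ∀ ξ, Φ (y, ξ - α y) = Φ (y, ξ)) :
    IsRet T Φ O (Ret.per α) where
  isOpen := hO
  sub := hs
  γ_hol := differentiableOn_id
  α_hol := hα
  N_hol := differentiableOn_const _
  maps := fun _ hy => hs hy
  pair := fun y _ ξ u => by simp [Ret.per]
  eq := he

theorem cktrans_zm {r0 ρ : ℕ} (z : Fin r0 → E n → E n) (e : Fin ρ → Fin r0 → ℤ) (s : Fin ρ → ℤ)
    (y : E n) : zm z (∑ i, s i • e i) y = ∑ i, (s i : ℂ) • zm z (e i) y := by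
  simp only [zm, Finset.sum_apply, Pi.smul_apply, smul_eq_mul, Int.cast_sum, Int.cast_mul,
    Finset.sum_smul, Finset.smul_sum, smul_smul]
  exact Finset.sum_comm

theorem cktrans_off {ρ : ℕ} (ι : Fin ρ ↪ Fin n) (c : Fin ρ → ℂ) {k : Fin n}
    (hk : k ∉ Finset.univ.map ι) : (∑ i, c i • (Pi.single (ι i) 1 : E n)) k = 0 := by
  rw [Finset.sum_apply]
  refine Finset.sum_eq_zero fun i _ => ?_
  have : k ≠ ι i := fun h => hk (Finset.mem_map.2 ⟨i, Finset.mem_univ _, h.symm⟩)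
  simp [this]

theorem cktrans_on {ρ : ℕ} (ι : Fin ρ ↪ Fin n) (c : Fin ρ → ℂ) (j : Fin ρ) :
    (∑ i, c i • (Pi.single (ι i) 1 : E n)) (ι j) = c j := by
  rw [Finset.sum_apply, Finset.sum_eq_single j]
  · simp
  · intro i _ hi
    have : ι j ≠ ι i := fun h => hi (ι.injective h).symm
    simp [this]
  · simp

theorem cktrans_ZI {ρ : ℕ} (ι : Fin ρ ↪ Fin n) (s : Fin ρ → ℤ) :
    (∑ i, (s i : ℂ) • (Pi.single (ι i) 1 : E n)) ∈ ZI (Finset.univ.map ι) := by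
  intro k
  refine ⟨?_, cktrans_off ι _⟩
  by_cases hk : k ∈ Finset.univ.map ι
  · obtain ⟨j, -, rfl⟩ := Finset.mem_map.1 hk
    exact ⟨s j, cktrans_on ι _ j⟩
  · exact ⟨0, by rw [cktrans_off ι _ hk, Int.cast_zero]⟩

theorem cktrans_RI {ρ : ℕ} (ι : Fin ρ ↪ Fin n) {v : E n} (hv : v ∈ RI (Finset.univ.map ι)) :
    v = ∑ i, (((v (ι i)).re : ℝ) : ℂ) • (Pi.single (ι i) 1 : E n) := by
  funext k
  by_cases hk : k ∈ Finset.univ.map ι
  · obtain ⟨j, -, rfl⟩ := Finset.mem_map.1 hk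
    rw [cktrans_on ι _ j]
    exact Complex.ext (by simp) (by simp [(hv _).1])
  · rw [cktrans_off ι _ hk, (hv k).2 hk]

theorem per_trans [MeasurableSpace X] (M M' : Model n X) {V : Set (E n)} (hV : IsOpen V) (hVT : V ⊆ M.T)
    {r0 ρ : ℕ} {z : Fin r0 → E n → E n} {e : Fin ρ → Fin r0 → ℤ} (hP : Per0 M V z)
    (hR : Rad M V z e) {g : Ret n} {κ : E n → E n} {ι : Fin ρ ↪ Fin n} (hg : Geo V M'.T g)
    (hα : ∀ y, g.α y = 0) (hκ : ∀ y ∈ M'.T, κ (g.γ y) = y ∧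
      (∀ᶠ x in 𝓝 (g.γ y), DifferentiableAt ℂ κ x ∧ g.γ (κ x) = x) ∧
      ∀ i, g.N y (Pi.single (ι i) 1) = zm z (e i) (g.γ y))
    (hΨ : ∀ p, M'.Ψ p = M.Ψ (g.act p))
    (hom : ∀ y ∈ M'.T, ∀ ξ a b,
      leaf M'.om y ξ a b = leaf M.om (g.γ y) (g.N y ξ) (g.N y a) (g.N y b)) :
    ∃ Q : Per M', ∀ y ∈ M'.T, Submodule.span ℝ (range fun k => Q.z k y) = ⊤ →
      Submodule.span ℝ (range fun k => z k (g.γ y)) = ⊤ := by
  obtain ⟨hg1, hm⟩ := hg
  obtain ⟨L, hL⟩ := exists_trL (n := n)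
  set z' : Fin r0 → E n → E n := fun k y => tr (fderiv ℂ g.γ y) (z k (g.γ y)) with hz'
  have hN : ∀ y ∈ M'.T, ∀ ξ, g.N y (tr (fderiv ℂ g.γ y) ξ) = ξ := fun y hy =>
    (pair_inv (hg1.pair y hy)).1
  have hI : ∀ y ∈ M'.T, Function.Injective (g.N y) := fun y hy =>
    Function.LeftInverse.injective (pair_inv (hg1.pair y hy)).2.1
  have hz : ∀ y ∈ M'.T, ∀ k, g.N y (z' k y) = z k (g.γ y) := fun y hy k => hN y hy _
  have hzm : ∀ y ∈ M'.T, ∀ m, g.N y (zm z' m y) = zm z m (g.γ y) := fun y hy m => by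
    simp only [zm, map_sum, map_smul, hz y hy]
  have hΨ' : ∀ y ξ, M'.Ψ (y, ξ) = M.Ψ (g.γ y, g.N y ξ) := fun y ξ => by
    rw [hΨ]; simp only [Ret.act, hα, sub_zero]
  have hpar : ∀ y ∈ M'.T, ∀ ξ a b, par (leaf M'.om y) ξ a b =
      par (leaf M.om (g.γ y)) (g.N y ξ) (g.N y a) (g.N y b) := fun y hy ξ a b => by
    simp only [par, hom y hy, map_add, ContinuousLinearMap.map_smul_of_tower]
  have hcomb : ∀ s : Fin ρ → ℤ, ∀ x ∈ M'.T, zm z' (∑ i, s i • e i) x =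
      ∑ i, (s i : ℂ) • (Pi.single (ι i) 1 : E n) := fun s x hx => by
    apply hI x hx
    simp only [hzm x hx, cktrans_zm, map_sum, map_smul, (hκ x hx).2.2]
  have hret : ∀ k, IsRet M'.T M'.Ψ M'.T (Ret.per (z' k)) := fun k => by
    refine cktrans_per M'.T_open Subset.rfl ?_ fun y hy ξ => ?_
    · have d1 := (hol_smooth M'.T_open hg1.γ_hol).2.2
      have d2 : DifferentiableOn ℂ (fun y => z k (g.γ y)) M'.T :=
        DifferentiableOn.comp (hP.z_ret k).α_hol hg1.γ_hol hm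
      simp only [hz', ← hL]
      exact (L.differentiable.comp_differentiableOn d1).clm_apply d2
    · rw [hΨ', hΨ', map_sub, hz y hy]
      exact (hP.z_ret k).eq _ (hm hy) _
  have hall : ∀ y ∈ M'.T, ∀ α, Germ M'.T M'.Ψ y (Ret.per α) → ∃ m, α =ᶠ[𝓝 y] zm z' m := by
    rintro y hy α ⟨O', hO', hyO⟩
    obtain ⟨k1, k2, -⟩ := hκ y hy
    have kc : ContinuousAt κ (g.γ y) := k2.self_of_nhds.1.continuousAt
    have k3 : ∀ᶠ x in 𝓝 (g.γ y), κ x ∈ O' :=
      kc.eventually_mem (by rw [k1]; exact hO'.isOpen.mem_nhds hyO)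
    obtain ⟨W, hW, hWo, hyW⟩ :=
      _root_.eventually_nhds_iff.1 (k2.and (k3.and (hV.eventually_mem (hm hy))))
    have hG : Germ M.T M.Ψ (g.γ y) (Ret.per fun x => g.N (κ x) (α (κ x))) := by
      refine ⟨W, cktrans_per hWo (fun x hx => hVT (hW x hx).2.2) (fun x hx => ?_)
        (fun x hx ξ => ?_), hyW⟩
      · obtain ⟨⟨a1, -⟩, a2, -⟩ := hW x hx
        have d1 := (hg1.N_hol.differentiableAt (M'.T_open.mem_nhds (hO'.sub a2))).comp x a1
        have d2 := (hO'.α_hol.differentiableAt (hO'.isOpen.mem_nhds a2)).comp x a1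
        exact (d1.clm_apply d2).differentiableWithinAt
      · obtain ⟨⟨-, a1⟩, a2, -⟩ := hW x hx
        have a3 : M'.Ψ (κ x, tr (fderiv ℂ g.γ (κ x)) ξ - α (κ x)) = M'.Ψ (κ x, _) :=
          hO'.eq _ a2 _
        rwa [hΨ', hΨ', map_sub, hN _ (hO'.sub a2), a1] at a3
    obtain ⟨m, hm'⟩ := hP.all _ (hm hy) _ hG
    have gc : ContinuousAt g.γ y :=
      (hg1.γ_hol.differentiableAt (M'.T_open.mem_nhds hy)).continuousAt
    refine ⟨m, ?_⟩
    filter_upwards [gc.eventually hm', M'.T_open.mem_nhds hy] with x h1 h2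
    apply hI x h2
    rw [hzm x h2, ← h1, (hκ x h2).1]
  refine ⟨⟨r0, z', Finset.univ.map ι, ⟨hret, fun y hy => ?_, hall⟩, fun i hi => ?_,
    fun i hi k y hy ξ => ?_, fun m y hy h => ?_, fun m y hy h => ?_⟩, fun y hy h => ?_⟩
  · refine LinearIndependent.of_comp ((g.N y).restrictScalars ℝ).toLinearMap ?_
    have := hP.z_ind _ (hm hy)
    simp only [← hz y hy] at this
    exact this
  · obtain ⟨j, -, rfl⟩ := Finset.mem_map.1 hi
    exact ⟨e j, fun y hy => hI y hy (by rw [hzm y hy, (hκ y hy).2.2])⟩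
  · obtain ⟨j, -, rfl⟩ := Finset.mem_map.1 hi
    rw [hpar y hy, (hκ y hy).2.2, hz y hy]
    exact hR.zero j k _ (hm hy) _
  · obtain ⟨s, rfl⟩ := hR.rad m _ (hm hy) fun k => by
      have := h k
      rwa [hpar y hy, map_zero, hzm y hy, hz y hy] at this
    exact ⟨_, cktrans_ZI ι s, hcomb s⟩
  · obtain ⟨s, rfl⟩ := hR.sat m _ (hm hy) ⟨fun i => (zm z' m y (ι i)).re, by
      have := congrArg (g.N y) (cktrans_RI ι h)
      simpa only [hzm y hy, map_sum, map_smul, (hκ y hy).2.2] using this⟩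
    exact ⟨_, cktrans_ZI ι s, hcomb s⟩
  · have h1 := congrArg (Submodule.map ((g.N y).restrictScalars ℝ).toLinearMap) h
    rw [Submodule.map_span, ← range_comp, Submodule.map_top] at h1
    simp only [← hz y hy]
    exact h1.trans (LinearMap.range_eq_top.2 (Function.RightInverse.surjective (hN y hy)))

end Pool.Agent.CK
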