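import Pool.Agent.K.MP_63735c_ag.C64
import Pool.Agent.K.MP_63735c_ag.C66
import Pool.Agent.K.MP_63735c_ag.C67
import Pool.Agent.K.MP_63735c_ag.C69
import Pool.Agent.K.MP_63735c_ag.C157

/-! Compact leaves on a space of finite volume with bounded forms. -/

open scoped ComplexOrder ContDiff Matrix
open Set Metric MeasureTheory Filter Topology

namespace Pool.Agent.CS

open Pool.Agent.SPF Pool.Agent.CL Pool.Agent.NL Pool.Agent.CK

variable {N n : ℕ} {X : Type} [TopologicalSpace X] {A : Atlas X N} {T O : Set (E n)}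
  {Ψ : P n → X}

variable [T2Space X] [MeasurableSpace X] [BorelSpace X]

theorem span_openB (hn : 1 ≤ n) (hN : N = 2 * n) (hinj : ∀ i, InjOn (A.p i) (A.C i).W)
    {μ : Measure X} [IsFiniteMeasure μ] (hμ : IsVolume A μ) (K : Form11 A)
    (hK : ∀ i, ∀ z ∈ (A.C i).W, (K.h i z).PosDef) (b20 : Bd20 A K) (b11 : Bd11 A K)
    {k : ℝ} (hk : 0 < k)
    (hη : IntG n A fun i z u v => k * ev11 ((A.C i).η z) u v) (hR : TranscG n A μ K)
    (h : A.IsUnif O Ψ) (hO : IsOpen O) (hne : O.Nonempty) :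
    ∃ V ⊆ O, IsOpen V ∧ V.Nonempty ∧ ∀ y ∈ V, ∃ S : Set (E n), Submodule.span ℝ S = ⊤ ∧
      ∀ v ∈ S, ∀ τ, Ψ (y, τ - v) = Ψ (y, τ) := by
  obtain ⟨b, hb⟩ := hne
  obtain ⟨R, hR0, hB⟩ := Metric.isOpen_iff.1 hO b hb
  obtain ⟨s, -, h1⟩ := exists_std hinj (unif_mono h hB) isOpen_ball (convex_ball b R)
  obtain ⟨M, hMT, hMΨ, hMo⟩ := exists_modelB hn hN hinj hμ K hK b20 b11 hk hη hR h1 isOpen_ball
    ⟨b, mem_ball_self hR0⟩
  obtain ⟨y0, r, r0, ρ, z, e, hr, hV, hP, hRad⟩ := exists_per0 M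
  have hz := fun i => isRet_zm isOpen_ball hV hP.z_ret (e i)
  obtain ⟨T', g, κ, ι, hT', hg, hα, hκ⟩ := exists_coord isOpen_ball (convex_ball y0 r)
    (mem_ball_self hr) (w := fun i => zm z (e i)) (fun i => (hz i).α_hol)
    (fun i => M.closed _ _ (hz i)) (hRad.ind y0 (mem_ball_self hr))
  have h2 : Std A (ball y0 r) fun p => Ψ ((Ret.per s).act p) :=
    ⟨unif_mono h1.1 (hV.trans hMT), fun c p hp => h1.2 c p (hMT (hV hp))⟩
  have hα' : g.α = fun _ => 0 := funext hα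
  have h3 := rep_std hinj h2 hg (fun y _ u v => by simp [hα'])
  obtain ⟨M', hMT', hMΨ', hMo'⟩ := exists_modelB hn hN hinj hμ K hK b20 b11 hk hη hR h3 hg.1.isOpen hT'
  obtain ⟨Q, hQ⟩ := per_trans M M' isOpen_ball hV hP hRad (g := g) (κ := κ) (ι := ι)
    ⟨hg.1.mono M'.T_open hMT', fun y hy => hg.2 (hMT' hy)⟩ hα (fun y hy => hκ y (hMT' hy))
    (fun p => by rw [hMΨ', hMΨ]) (fun y hy ξ a b => by
      rw [hMo', hMo, rep_leaf hinj (gform_11 K) h2.1 hg (hMT' hy), hα, sub_zero])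
  obtain ⟨y, hy, hsp⟩ := model_span M' Q
  have h4 := hQ y hy hsp
  have hy0 : g.γ y ∈ ball y0 r := hg.2 (hMT' hy)
  have hcard : Fintype.card (Fin r0) = Module.finrank ℝ (E n) := by
    rw [← finrank_top, ← h4, finrank_span_eq_card (hP.z_ind _ hy0)]
  refine ⟨ball y0 r, hV.trans (hMT.trans hB), isOpen_ball, ⟨y0, mem_ball_self hr⟩,
    fun x hx => ⟨range fun k => z k x, ?_, ?_⟩⟩
  · apply Submodule.eq_top_of_finrank_eq
    rw [finrank_span_eq_card (hP.z_ind x hx), hcard]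
  · rintro _ ⟨k, rfl⟩ τ
    have h5 := (hP.z_ret k).eq x hx (τ + s x)
    rw [hMΨ] at h5
    simp only [Ret.act, Ret.per, one_apply_eq_self] at h5
    rw [add_sub_cancel_right, show τ + s x - z k x - s x = τ - z k x by abel] at h5
    exact h5

theorem compact_leavesB (hn : 1 ≤ n) (hN : N = 2 * n) (hinj : ∀ i, InjOn (A.p i) (A.C i).W)
    {μ : Measure X} [IsFiniteMeasure μ] (hμ : IsVolume A μ) (K : Form11 A)
    (hK : ∀ i, ∀ z ∈ (A.C i).W, (K.h i z).PosDef) (b20 : Bd20 A K) (b11 : Bd11 A K)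
    {k : ℝ} (hk : 0 < k)
    (hη : IntG n A fun i z u v => k * ev11 ((A.C i).η z) u v) (hR : TranscG n A μ K)
    (h : A.IsUnif O Ψ) (hO : IsOpen O) (hne : O.Nonempty) :
    ∃ T' ⊆ O, IsOpen T' ∧ T'.Nonempty ∧ IsFibred Ψ T' := by
  obtain ⟨V, hVO, hV, hVne, hs⟩ := span_openB hn hN hinj hμ K hK b20 b11 hk hη hR h hO hne
  have hd := dichotomy_sharp hN hinj hμ (unif_mono h hVO) hV
  have : (ae (volume.restrict V)).NeBot := by
    rw [ae_neBot, Ne, Measure.restrict_eq_zero]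
    exact (hV.measure_pos volume hVne).ne'
  obtain ⟨b, hb, hbV⟩ := (hd.and (ae_restrict_mem hV.measurableSet)).exists
  rcases hb with ⟨T', hT', hf⟩ | ⟨-, Λ, -, hΛ, hiff⟩
  · refine ⟨interior T' ∩ V, inter_subset_right.trans hVO, isOpen_interior.inter hV,
      ⟨b, mem_interior_iff_mem_nhds.2 hT', hbV⟩, fun x hx => ?_⟩
    obtain ⟨Λ, h1, h2, h3⟩ := hf x (interior_subset hx.1)
    exact ⟨Λ, h1, h2, fun x' hx' => h3 x' (interior_subset hx'.1)⟩
  · obtain ⟨S, hS, hper⟩ := hs b hbV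
    refine (hΛ (top_le_iff.1 (hS ▸ Submodule.span_mono fun v hv => ?_))).elim
    have := (hiff v 0).1 (by simpa using (hper v hv v).symm)
    simpa using this

end Pool.Agent.CS
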