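import Pool.Agent.K.MP_63735c_ag.C33

/-! Bounds from the compactness of `X`. -/

open scoped ComplexOrder ContDiff Matrix
open Set Metric MeasureTheory Filter Topology

namespace Pool.Agent.CK

open Pool.Agent.SPF Pool.Agent.CL Pool.Agent.NL

variable {N n : ℕ} {X : Type} [TopologicalSpace X] {A : Atlas X N} {T O : Set (E n)}
  {Ψ : P n → X}

theorem cpt_bound [CompactSpace X] (Q : ℝ → A.ι → E N → Prop)
    (hm : ∀ C C' i z, C ≤ C' → z ∈ (A.C i).W → Q C i z → Q C' i z)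
    (hi : ∀ C i j O φ, IsChange (A.C i) (A.C j) O φ → (∀ w ∈ O, A.p j (φ w) = A.p i w) →
      ∀ z ∈ O, Q C j (φ z) → Q C i z)
    (hl : ∀ i, ∀ z ∈ (A.C i).W, ∃ C, ∀ᶠ w in 𝓝 z, Q C i w) :
    ∃ C, 0 ≤ C ∧ ∀ i, ∀ z ∈ (A.C i).W, Q C i z := by
  have key : ∀ x : X, ∃ (i : A.ι) (U : Set (E N)) (C : ℝ), U ⊆ (A.C i).W ∧ (∀ w ∈ U, Q C i w) ∧
      A.p i '' U ∈ 𝓝 x := by
    intro x
    obtain ⟨i, z, hz, rfl⟩ := A.cover x
    obtain ⟨C, hC⟩ := hl i z hz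
    obtain ⟨U, hU, hUo, hzU⟩ :=
      _root_.eventually_nhds_iff.1 (hC.and ((A.C i).isOpen.mem_nhds hz))
    exact ⟨i, U, C, fun w hw => (hU w hw).2, fun w hw => (hU w hw).1,
      (A.opn i U hUo fun w hw => (hU w hw).2).mem_nhds ⟨z, hzU, rfl⟩⟩
  choose ι U C hUW hQ hn using key
  obtain ⟨t, -, ht⟩ := isCompact_univ.elim_nhds_subcover (fun x => A.p (ι x) '' U x)
    fun x _ => hn x
  refine ⟨∑ x ∈ t, |C x|, Finset.sum_nonneg fun x _ => abs_nonneg _, fun i z hz => ?_⟩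
  obtain ⟨x, hx, y, hy, he⟩ : ∃ x ∈ t, A.p i z ∈ A.p (ι x) '' U x := by
    simpa only [mem_iUnion, exists_prop] using ht (mem_univ (A.p i z))
  obtain ⟨V, φ, hch, hzV, hφ, hp⟩ := A.trans i (ι x) z hz y (hUW x hy) he.symm
  refine hi _ i (ι x) V φ hch hp z hzV ?_
  rw [hφ]
  exact hm (C x) _ _ _ ((le_abs_self _).trans
    (Finset.single_le_sum (f := fun x => |C x|) (fun x _ => abs_nonneg _) hx)) (hUW x hy)
    (hQ x y hy)

theorem ev11_pos {h : Matrix (Fin N) (Fin N) ℂ} (hh : h.PosDef) {u : E N} (hu : u ≠ 0) :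
    0 < ev11 h u (Complex.I • u) := by
  have h1 := hh.dotProduct_mulVec_pos (x := star u) (by simpa using hu)
  rw [star_star] at h1
  rw [ev11_I]
  have := (Complex.pos_iff.1 h1).1
  linarith

theorem ev11_nonneg {h : Matrix (Fin N) (Fin N) ℂ} (hh : h.PosSemidef) (u : E N) :
    0 ≤ ev11 h u (Complex.I • u) ∧ (ev11 h u (Complex.I • u) = 0 → u ᵥ* h = 0) := by
  have h1 := hh.dotProduct_mulVec_nonneg (star u)
  rw [star_star] at h1
  obtain ⟨h2, h3⟩ := Complex.nonneg_iff.1 h1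
  rw [ev11_I]
  refine ⟨by linarith, fun h0 => ?_⟩
  have h4 : star (star u) ⬝ᵥ h *ᵥ star u = 0 := by
    rw [star_star]
    exact Complex.ext (by simpa using h0) (by simpa using h3.symm)
  have h5 := congrArg star ((hh.dotProduct_mulVec_zero_iff _).1 h4)
  rwa [Matrix.star_mulVec, star_star, hh.isHermitian.eq, star_zero] at h5

lemma ckbd_cont (M : Form11 A) {i : A.ι} {z : E N} (hz : z ∈ (A.C i).W) :
    ContinuousAt (fun w => e11 (M.h i w)) z :=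
  ((gform_11 M).closed i).1.continuousOn.continuousAt ((A.C i).isOpen.mem_nhds hz)

lemma ckbd_compat (M : Form11 A) {i j : A.ι} {V : Set (E N)} {φ : E N → E N}
    (h : IsChange (A.C i) (A.C j) V φ) (hp : ∀ w ∈ V, A.p j (φ w) = A.p i w) {z : E N}
    (hz : z ∈ V) (u : E N) : ev11 (M.h i z) u (Complex.I • u) =
      ev11 (M.h j (φ z)) (fderiv ℂ φ z u) (Complex.I • fderiv ℂ φ z u) := by
  have := (gform_11 M).compat i j V φ h hp z hz u (Complex.I • u)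
  simpa only [f11, e11_apply, map_smul] using this

lemma ckbd_near (K : Form11 A) (hK : ∀ i, ∀ z ∈ (A.C i).W, (K.h i z).PosDef) {i : A.ι} {z : E N}
    (hz : z ∈ (A.C i).W) : ∃ c > (0 : ℝ), ∃ C : ℝ, ∀ᶠ x in 𝓝 z, ∀ u,
      c * ‖u‖ ^ 2 ≤ ev11 (K.h i x) u (Complex.I • u) ∧
        ev11 (K.h i x) u (Complex.I • u) ≤ C * ‖u‖ ^ 2 :=
  pos_near (h := fun w => e11 (K.h i w)) (ckbd_cont K hz) fun _ hu => ev11_pos (hK i z hz) hu

theorem bd_11 [CompactSpace X] (K : Form11 A) (hK : ∀ i, ∀ z ∈ (A.C i).W, (K.h i z).PosDef)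
    (M : Form11 A) : ∃ C, 0 ≤ C ∧ ∀ i, ∀ z ∈ (A.C i).W, ∀ u,
      |ev11 (M.h i z) u (Complex.I • u)| ≤ C * ev11 (K.h i z) u (Complex.I • u) := by
  refine cpt_bound (fun C i z => ∀ u,
    |ev11 (M.h i z) u (Complex.I • u)| ≤ C * ev11 (K.h i z) u (Complex.I • u)) ?_ ?_ ?_
  · intro C C' i z hC hz h u
    exact (h u).trans (mul_le_mul_of_nonneg_right hC (ev11_nonneg (hK i z hz).posSemidef u).1)
  · intro C i j V φ hch hp z hz h u
    rw [ckbd_compat M hch hp hz, ckbd_compat K hch hp hz]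
    exact h _
  · intro i z hz
    obtain ⟨c, hc, C1, h1⟩ := ckbd_near K hK hz
    have h0 : ContinuousAt (fun w => ‖e11 (M.h i w)‖) z :=
      ContinuousAt.norm (f := fun w => e11 (M.h i w)) (ckbd_cont M hz)
    have h2 : ∀ᶠ w in 𝓝 z, ‖e11 (M.h i w)‖ < ‖e11 (M.h i z)‖ + 1 :=
      h0.eventually_lt continuousAt_const (lt_add_one _)
    refine ⟨(‖e11 (M.h i z)‖ + 1) / c, ?_⟩
    filter_upwards [h1, h2] with w hw1 hw2 u
    have h3 := (e11 (M.h i w)).le_opNorm₂ u (Complex.I • u)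
    rw [e11_apply, Real.norm_eq_abs, norm_smul, Complex.norm_I, one_mul] at h3
    have h4 : 0 ≤ (‖e11 (M.h i z)‖ + 1) / c := by positivity
    calc |ev11 (M.h i w) u (Complex.I • u)| ≤ ‖e11 (M.h i w)‖ * ‖u‖ * ‖u‖ := h3
      _ ≤ (‖e11 (M.h i z)‖ + 1) * ‖u‖ * ‖u‖ := by gcongr
      _ = (‖e11 (M.h i z)‖ + 1) / c * (c * ‖u‖ ^ 2) := by field_simp
      _ ≤ _ := mul_le_mul_of_nonneg_left (hw1 u).1 h4

lemma ckbd_mulVec {p : Matrix (Fin N) (Fin N) ℂ} {D : ℝ} (hD : 0 ≤ D) (hp : ∀ a b, ‖p a b‖ ≤ D)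
    (y : E N) : ‖p *ᵥ y‖ ≤ N * D * ‖y‖ := by
  refine (pi_norm_le_iff_of_nonneg (by positivity)).2 fun a => ?_
  have h1 : ‖p a‖ ≤ D := (pi_norm_le_iff_of_nonneg hD).2 (hp a)
  calc ‖(p *ᵥ y) a‖ = ‖p a ⬝ᵥ y‖ := rfl
    _ ≤ N * ‖p a‖ * ‖y‖ := dot_le _ _
    _ ≤ N * D * ‖y‖ := by gcongr

lemma ckbd_pi (C : Chart N) {z : E N} (hz : z ∈ C.W) :
    ∃ D : ℝ, 0 ≤ D ∧ ∀ᶠ w in 𝓝 z, ∀ a b, ‖C.π w a b‖ ≤ D := by
  refine ⟨∑ a, ∑ b, ‖C.π z a b‖ + 1, by positivity, ?_⟩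
  refine eventually_all.2 fun a => eventually_all.2 fun b => ?_
  have h1 : ContinuousAt (fun w => C.π w a b) z :=
    (C.π_hol a b).continuousOn.continuousAt (C.isOpen.mem_nhds hz)
  have h2 : ‖C.π z a b‖ ≤ ∑ a, ∑ b, ‖C.π z a b‖ :=
    (Finset.single_le_sum (f := fun b => ‖C.π z a b‖) (fun _ _ => norm_nonneg _)
      (Finset.mem_univ b)).trans
    (Finset.single_le_sum (f := fun a => ∑ b, ‖C.π z a b‖)
      (fun _ _ => Finset.sum_nonneg fun _ _ => norm_nonneg _) (Finset.mem_univ a))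
  exact (h1.norm.eventually_lt continuousAt_const (by linarith)).mono fun w hw => hw.le

theorem bd_20 [CompactSpace X] (K : Form11 A) (hK : ∀ i, ∀ z ∈ (A.C i).W, (K.h i z).PosDef) :
    ∃ C, 0 ≤ C ∧ ∀ i, ∀ z ∈ (A.C i).W, ∀ (v : E N) (B : ℝ), 0 ≤ B →
      (∀ w, ‖w ⬝ᵥ (A.C i).σ z *ᵥ v‖ ^ 2 ≤ B * ev11 (K.h i z) w (Complex.I • w)) →
      ev11 (K.h i z) v (Complex.I • v) ≤ C * B := by
  refine cpt_bound (fun C i z => ∀ (v : E N) (B : ℝ), 0 ≤ B →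
    (∀ w, ‖w ⬝ᵥ (A.C i).σ z *ᵥ v‖ ^ 2 ≤ B * ev11 (K.h i z) w (Complex.I • w)) →
      ev11 (K.h i z) v (Complex.I • v) ≤ C * B) ?_ ?_ ?_
  · intro C C' i z hC _ h v B hB hw
    exact (h v B hB hw).trans (mul_le_mul_of_nonneg_right hC hB)
  · intro C i j V φ hch hp z hz h v B hB hw
    rw [ckbd_compat K hch hp hz]
    refine h _ B hB fun w' => ?_
    obtain ⟨w, rfl⟩ : ∃ w, fderiv ℂ φ z w = w' :=
      ⟨(jac φ z)⁻¹ *ᵥ w', by
        rw [← jac_mulVec, Matrix.mulVec_mulVec,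
          Matrix.mul_nonsing_inv _ (hch.det_ne hz).isUnit, Matrix.one_mulVec]⟩
    have h1 := hw w
    rw [ckbd_compat K hch hp hz, hch.σ_eq z hz, ← Matrix.mulVec_mulVec, ← Matrix.mulVec_mulVec,
      Matrix.dotProduct_mulVec, Matrix.vecMul_transpose, jac_mulVec, jac_mulVec] at h1
    exact h1
  · intro i z hz
    obtain ⟨c, hc, C1, h1⟩ := ckbd_near K hK hz
    obtain ⟨D, hD, h2⟩ := ckbd_pi (A.C i) hz
    refine ⟨|C1| * ((N * D) ^ 2 * |C1|), ?_⟩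
    filter_upwards [h1, h2, (A.C i).isOpen.mem_nhds hz] with w hw1 hw2 hw v B hB hv
    have h3 : ‖(A.C i).σ w *ᵥ v‖ ≤ √(B * |C1|) := by
      refine (pi_norm_le_iff_of_nonneg (Real.sqrt_nonneg _)).2 fun k => ?_
      refine Real.le_sqrt_of_sq_le ?_
      have h4 := hv (Pi.single k 1)
      rw [single_dotProduct, one_mul] at h4
      refine h4.trans (mul_le_mul_of_nonneg_left (((hw1 _).2).trans ?_) hB)
      rw [Pi.norm_single, norm_one, one_pow, mul_one]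
      exact le_abs_self _
    have h5 : ‖v‖ ≤ N * D * √(B * |C1|) := by
      have h6 := ckbd_mulVec hD hw2 ((A.C i).σ w *ᵥ v)
      rw [Matrix.mulVec_mulVec, Chart.π_mul_σ hw, Matrix.one_mulVec] at h6
      exact h6.trans (by gcongr)
    have h7 : ‖v‖ ^ 2 ≤ (N * D) ^ 2 * (B * |C1|) := by
      have := pow_le_pow_left₀ (norm_nonneg v) h5 2
      rwa [mul_pow, Real.sq_sqrt (by positivity)] at this
    calc ev11 (K.h i w) v (Complex.I • v) ≤ C1 * ‖v‖ ^ 2 := (hw1 v).2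
      _ ≤ |C1| * ‖v‖ ^ 2 := mul_le_mul_of_nonneg_right (le_abs_self _) (sq_nonneg _)
      _ ≤ |C1| * ((N * D) ^ 2 * (B * |C1|)) := mul_le_mul_of_nonneg_left h7 (abs_nonneg _)
      _ = _ := by ring

end Pool.Agent.CK
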