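import Pool.Agent.P.MP_63735c_ag.CSDefs
import Pool.Agent.K.MP_63735c_ag.C34

/-! Bounds from the local embeddings of a compact space. -/

open scoped ComplexOrder ContDiff Matrix
open Set Metric MeasureTheory Filter Topology

namespace Pool.Agent.CS

open Pool.Agent.SPF Pool.Agent.CL Pool.Agent.NL Pool.Agent.CK

variable {N M : ℕ} {X : Type} [TopologicalSpace X]

/-- The Poisson tensor is bounded with respect to `K`. -/
def Bd20 (A : Atlas X N) (K : Form11 A) : Prop :=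
  ∃ C, 0 ≤ C ∧ ∀ i, ∀ z ∈ (A.C i).W, ∀ (v : E N) (B : ℝ), 0 ≤ B →
    (∀ w, ‖w ⬝ᵥ (A.C i).σ z *ᵥ v‖ ^ 2 ≤ B * ev11 (K.h i z) w (Complex.I • w)) →
    ev11 (K.h i z) v (Complex.I • v) ≤ C * B

/-- The form `η` is bounded with respect to `K`. -/
def Bd11 (A : Atlas X N) (K : Form11 A) : Prop :=
  ∃ C, 0 ≤ C ∧ ∀ i, ∀ z ∈ (A.C i).W, ∀ u,
    |ev11 ((A.C i).η z) u (Complex.I • u)| ≤ C * ev11 (K.h i z) u (Complex.I • u)

theorem cpt_unif [CompactSpace X] (Q : ℝ → X → Prop) (hm : ∀ C C' x, C ≤ C' → Q C x → Q C' x)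
    (hl : ∀ x, ∃ C, ∀ᶠ x' in 𝓝 x, Q C x') : ∃ C, 0 ≤ C ∧ ∀ x, Q C x := by
  choose C hC using hl
  obtain ⟨t, -, ht⟩ := isCompact_univ.elim_nhds_subcover (fun x => {x' | Q (C x) x'})
    fun x _ => hC x
  refine ⟨∑ x ∈ t, |C x|, Finset.sum_nonneg fun x _ => abs_nonneg _, fun x' => ?_⟩
  obtain ⟨x, hx, h⟩ : ∃ x ∈ t, Q (C x) x' := by
    simpa only [mem_iUnion, exists_prop, mem_ofPred_eq] using ht (mem_univ x')
  exact hm _ _ _ ((le_abs_self _).trans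
    (Finset.single_le_sum (f := fun x => |C x|) (fun x _ => abs_nonneg _) hx)) h

theorem ev11_conj (J : Matrix (Fin M) (Fin N) ℂ) (H : Matrix (Fin M) (Fin M) ℂ) (u : E N) :
    ev11 (Jᵀ * H * J.map star) u (Complex.I • u) = ev11 H (J *ᵥ u) (Complex.I • J *ᵥ u) := by
  have h1 : J.map star *ᵥ star u = star (J *ᵥ u) := by
    ext a
    simp [Matrix.mulVec, dotProduct]
  rw [ev11_I, ev11_I, ← Matrix.mulVec_mulVec, ← Matrix.mulVec_mulVec, Matrix.dotProduct_mulVec,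
    Matrix.vecMul_transpose, h1]

theorem e11_cont : Continuous fun H : Matrix (Fin M) (Fin M) ℂ => e11 H := by
  refine continuous_clm_apply.2 fun u => continuous_clm_apply.2 fun v => ?_
  simp only [e11_apply, ev11, Matrix.mulVec, dotProduct]
  fun_prop

theorem entry_bd {Y : Type} [TopologicalSpace Y] {H : Y → Matrix (Fin M) (Fin M) ℂ} {y : Y}
    (h : ∀ a b, ContinuousAt (fun w => H w a b) y) :
    ∃ D : ℝ, 0 ≤ D ∧ ∀ᶠ w in 𝓝 y, ∀ a b, ‖H w a b‖ ≤ D := by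
  refine ⟨∑ a, ∑ b, ‖H y a b‖ + 1, by positivity, ?_⟩
  refine eventually_all.2 fun a => eventually_all.2 fun b => ?_
  have h2 : ‖H y a b‖ ≤ ∑ a, ∑ b, ‖H y a b‖ :=
    (Finset.single_le_sum (f := fun b => ‖H y a b‖) (fun _ _ => norm_nonneg _)
      (Finset.mem_univ b)).trans
    (Finset.single_le_sum (f := fun a => ∑ b, ‖H y a b‖)
      (fun _ _ => Finset.sum_nonneg fun _ _ => norm_nonneg _) (Finset.mem_univ a))
  exact ((h a b).norm.eventually_lt continuousAt_const (by linarith)).mono fun w hw => hw.le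

theorem ev11_bd {H : Matrix (Fin M) (Fin M) ℂ} {D : ℝ} (hD : 0 ≤ D) (h : ∀ a b, ‖H a b‖ ≤ D)
    (u : E M) : |ev11 H u (Complex.I • u)| ≤ 2 * (M * (M * D)) * ‖u‖ ^ 2 := by
  have h1 := ckbd_mulVec hD h (star u)
  have h2 := dot_le u (H *ᵥ star u)
  have h3 := Complex.abs_re_le_norm (u ⬝ᵥ H *ᵥ star u)
  rw [norm_star] at h1
  have h4 : (M : ℝ) * ‖u‖ * ‖H *ᵥ star u‖ ≤ M * ‖u‖ * (M * D * ‖u‖) := by gcongr
  rw [ev11_I, abs_mul, abs_two]
  nlinarith

variable {R : Set X} {A : Atlas R N} {B : Amb R A} {K : Form11 A}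

/-- Near a point, `K` is comparable with the norm of the ambient space. -/
theorem IsKahler.near (hK : IsKahler B K) (x : X) : ∃ α, x ∈ B.V α ∧ ∃ c > (0 : ℝ), ∃ C : ℝ,
    ∀ᶠ x' in 𝓝 x, x' ∈ B.V α ∧ ∀ i, ∀ y ∈ (A.C i).W, (A.p i y : X) = x' → ∀ u,
      c * ‖jac (fun y' => B.z α (A.p i y')) y *ᵥ u‖ ^ 2 ≤ ev11 (K.h i y) u (Complex.I • u) ∧
      ev11 (K.h i y) u (Complex.I • u) ≤ C * ‖jac (fun y' => B.z α (A.p i y')) y *ᵥ u‖ ^ 2 := by
  obtain ⟨α, H, hx, hc, hp, he⟩ := hK x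
  have hn := (B.V_open α).mem_nhds hx
  obtain ⟨c, hc0, C, hb⟩ := pos_near (h := fun w => e11 (H w)) (y := B.z α x)
    (e11_cont.continuousAt.comp hc) fun _ hu => ev11_pos hp hu
  refine ⟨α, hx, c, hc0, C, ?_⟩
  filter_upwards [he, hn, ((B.cont α).continuousAt hn).eventually hb] with x' h1 h2 h3
  refine ⟨h2, fun i y hy hp u => ?_⟩
  rw [h1 i y hy hp, ev11_conj]
  exact h3 _

theorem IsKahler.posDef (hK : IsKahler B K) (i : A.ι) (y : E N) (hy : y ∈ (A.C i).W) :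
    (K.h i y).PosDef := by
  obtain ⟨α, H, hx, -, hp, he⟩ := hK (A.p i y)
  rw [he.self_of_nhds i y hy rfl]
  have h1 : (jac (fun y' => B.z α (A.p i y')) y).map star =
      ((jac (fun y' => B.z α (A.p i y')) y)ᵀ)ᴴ := rfl
  rw [h1]
  refine hp.mul_mul_conjTranspose_same fun u v h => (B.hol α i y hy hx).2 ?_
  simpa only [Matrix.vecMul_transpose, jac_mulVec] using h

theorem IsKahler.nonneg (hK : IsKahler B K) {i : A.ι} {y : E N} (hy : y ∈ (A.C i).W) (u : E N) :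
    0 ≤ ev11 (K.h i y) u (Complex.I • u) := (ev11_nonneg (hK.posDef i y hy).posSemidef u).1

theorem IsKahler.bd11 [CompactSpace X] (hK : IsKahler B K) : Bd11 A K := by
  obtain ⟨C, h0, h⟩ := cpt_unif (X := X) (fun C x => ∀ i, ∀ y ∈ (A.C i).W, (A.p i y : X) = x →
    ∀ u, |ev11 ((A.C i).η y) u (Complex.I • u)| ≤ C * ev11 (K.h i y) u (Complex.I • u))
    (fun C C' x hC h i y hy hp u =>
      (h i y hy hp u).trans (mul_le_mul_of_nonneg_right hC (hK.nonneg hy u))) fun x => by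
    obtain ⟨α, hx, c, hc, C, hb⟩ := hK.near x
    obtain ⟨D, hD, hd⟩ := entry_bd (H := fun x' => (B.D α).η (B.z α x')) (y := x) fun a b =>
      (((B.D α).η_smooth a b).continuousOn.continuousAt
        ((B.D α).isOpen.mem_nhds (B.maps α hx))).comp
        ((B.cont α).continuousAt ((B.V_open α).mem_nhds hx))
    refine ⟨2 * (B.M α * (B.M α * D)) / c, ?_⟩
    filter_upwards [hb, hd] with x' h1 h2 i y hy hp u
    subst hp
    rw [B.η_eq α i y hy h1.1, ev11_conj]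
    refine (ev11_bd hD h2 _).trans ?_
    have h3 := mul_le_mul_of_nonneg_left (h1.2 i y hy rfl u).1
      (by positivity : 0 ≤ 2 * (B.M α * (B.M α * D)) / c)
    rwa [← mul_assoc, div_mul_cancel₀ _ hc.ne'] at h3
  exact ⟨C, h0, fun i y hy => h _ i y hy rfl⟩

theorem IsKahler.bd20 [CompactSpace X] (hK : IsKahler B K) : Bd20 A K := by
  obtain ⟨C, h0, h⟩ := cpt_unif (X := X) (fun C x => ∀ i, ∀ y ∈ (A.C i).W, (A.p i y : X) = x →
    ∀ (v : E N) (b : ℝ), 0 ≤ b →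
      (∀ w, ‖w ⬝ᵥ (A.C i).σ y *ᵥ v‖ ^ 2 ≤ b * ev11 (K.h i y) w (Complex.I • w)) →
      ev11 (K.h i y) v (Complex.I • v) ≤ C * b)
    (fun C C' x hC h i y hy hp v b hb hw =>
      (h i y hy hp v b hb hw).trans (mul_le_mul_of_nonneg_right hC hb)) fun x => by
    obtain ⟨α, hx, c, hc, C, hb⟩ := hK.near x
    obtain ⟨D, hD, hd⟩ := entry_bd (H := fun x' => (B.D α).π (B.z α x')) (y := x) fun a b =>
      (((B.D α).π_hol a b).continuousOn.continuousAt
        ((B.D α).isOpen.mem_nhds (B.maps α hx))).comp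
        ((B.cont α).continuousAt ((B.V_open α).mem_nhds hx))
    refine ⟨|C| * (|C| * (B.M α * D) ^ 2), ?_⟩
    filter_upwards [hb, hd] with x' h1 h2 i y hy hp v b hb0 hw
    subst hp
    have hπ := B.π_eq α i y hy h1.1
    have hu := fun u => (h1.2 i y hy rfl u).2
    set J := jac (fun y' => B.z α (A.p i y')) y with hJ
    have h3 : ‖J *ᵥ v‖ ≤ √(b * (|C| * (B.M α * D) ^ 2)) := by
      refine (pi_norm_le_iff_of_nonneg (Real.sqrt_nonneg _)).2 fun k => ?_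
      refine Real.le_sqrt_of_sq_le ?_
      have h4 := hw (((A.C i).σ y)⁻¹ *ᵥ (Jᵀ *ᵥ Pi.single k 1))
      have h5 : (((A.C i).σ y)⁻¹ *ᵥ (Jᵀ *ᵥ Pi.single k 1)) ⬝ᵥ (A.C i).σ y *ᵥ v =
          -(J *ᵥ v) k := by
        rw [Matrix.dotProduct_mulVec, ← Matrix.mulVec_transpose, (A.C i).σ_skew y hy,
          Matrix.neg_mulVec, Matrix.mulVec_mulVec,
          Matrix.mul_nonsing_inv _ ((A.C i).σ_det y hy).isUnit, Matrix.one_mulVec, neg_dotProduct,
          Matrix.mulVec_transpose, ← Matrix.dotProduct_mulVec, single_dotProduct, one_mul]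
      have h6 := hu (((A.C i).σ y)⁻¹ *ᵥ (Jᵀ *ᵥ Pi.single k 1))
      rw [Matrix.mulVec_mulVec _ J, Matrix.mulVec_mulVec _ (J * _), ← hπ] at h6
      have h7 := ckbd_mulVec hD h2 (Pi.single k 1)
      rw [Pi.norm_single, norm_one, mul_one] at h7
      rw [h5, norm_neg] at h4
      refine h4.trans (mul_le_mul_of_nonneg_left (h6.trans ?_) hb0)
      exact (mul_le_mul_of_nonneg_right (le_abs_self C) (sq_nonneg _)).trans
        (mul_le_mul_of_nonneg_left (pow_le_pow_left₀ (norm_nonneg _) h7 2) (abs_nonneg C))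
    have h8 := pow_le_pow_left₀ (norm_nonneg _) h3 2
    rw [Real.sq_sqrt (by positivity)] at h8
    calc _ ≤ C * ‖J *ᵥ v‖ ^ 2 := hu v
      _ ≤ |C| * ‖J *ᵥ v‖ ^ 2 := mul_le_mul_of_nonneg_right (le_abs_self C) (sq_nonneg _)
      _ ≤ |C| * (b * (|C| * (B.M α * D) ^ 2)) := mul_le_mul_of_nonneg_left h8 (abs_nonneg C)
      _ = _ := by ring
  exact ⟨C, h0, fun i y hy => h _ i y hy rfl⟩

end Pool.Agent.CS
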