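import Pool.Agent.K.MP_63735c_ag.C24
import Pool.Agent.K.MP_63735c_ag.C12

/-! Weak solutions of the Cauchy-Riemann equations. -/

open scoped ComplexOrder ContDiff Matrix Topology ENNReal
open Set Metric MeasureTheory Filter

namespace Pool.Agent.AB

open Pool.Agent.SPF

variable {N : ℕ}

open scoped Convolution in
theorem abweyl_fderiv {ρ : E N → ℝ} {F : E N → ℂ} (hρ : ContDiff ℝ ∞ ρ) (hc : HasCompactSupport ρ)
    (hF : LocallyIntegrable F volume) (x v : E N) :
    Integrable (fun t => ((fderiv ℝ ρ (x - t) v : ℝ) : ℂ) * F t) volume ∧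
    fderiv ℝ (ρ ⋆[ContinuousLinearMap.lsmul ℝ ℝ, volume] F) x v =
      ∫ t, ((fderiv ℝ ρ (x - t) v : ℝ) : ℂ) * F t := by
  have h1 : ContDiff ℝ 1 ρ := hρ.of_le (by norm_cast)
  have hd : Continuous (fderiv ℝ ρ) := h1.continuous_fderiv one_ne_zero
  have hv : Continuous fun a => fderiv ℝ ρ a v := hd.clm_apply continuous_const
  have hcv : HasCompactSupport fun a => fderiv ℝ ρ a v := hc.fderiv_apply ℝ v
  constructor
  · have := hcv.convolutionExists_right
      (ContinuousLinearMap.lsmul ℝ ℝ : ℝ →L[ℝ] ℂ →L[ℝ] ℂ).flip hF hv x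
    simpa [ConvolutionExistsAt] using this
  · rw [← convolution_flip, (hc.hasFDerivAt_convolution_right _ hF h1 x).fderiv,
      convolution_precompR_apply _ hF (hc.fderiv ℝ) hd, convolution_def]
    simp

theorem abweyl_test {ρ : E N → ℝ} (hρ : ContDiff ℝ ∞ ρ) (x y v : E N) :
    fderiv ℝ (fun y => ((ρ (x - y) : ℝ) : ℂ)) y v = -((fderiv ℝ ρ (x - y) v : ℝ) : ℂ) := by
  have h1 : HasFDerivAt (fun y : E N => x - y) (-ContinuousLinearMap.id ℝ (E N)) y :=
    (hasFDerivAt_id y).const_sub x
  have h2 := ((hρ.differentiable (by simp)) (x - y)).hasFDerivAt.comp y h1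
  have h3 := Complex.ofRealCLM.hasFDerivAt.comp y h2
  have e : (fun y => ((ρ (x - y) : ℝ) : ℂ)) = Complex.ofRealCLM ∘ ρ ∘ fun y : E N => x - y := rfl
  rw [e, h3.fderiv]
  simp

open scoped Convolution in
theorem abweyl_hol {f : E N → ℂ} {O : Set (E N)} (hO : IsOpen O) (hi : IntegrableOn f O volume)
    (hw : ∀ r : E N → ℂ, Tst O r → ∀ a, ∫ y in O, f y * dzb a r y = 0)
    {ρ : E N → ℝ} (hρ : ContDiff ℝ ∞ ρ) {d : ℝ} (hs : tsupport ρ ⊆ closedBall 0 d) {x : E N}
    (hx : closedBall x d ⊆ O) :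
    DifferentiableAt ℂ (ρ ⋆[ContinuousLinearMap.lsmul ℝ ℝ, volume] O.indicator f) x := by
  have hc : HasCompactSupport ρ :=
    (isCompact_closedBall 0 d).of_isClosed_subset (isClosed_tsupport ρ) hs
  have hF : LocallyIntegrable (O.indicator f) volume :=
    ((integrable_indicator_iff hO.measurableSet).2 hi).locallyIntegrable
  refine diff_of_dzb ((hc.contDiff_convolution_left _ hρ hF).differentiable (by simp) x) fun a => ?_
  have hsub : tsupport (fun y => ((ρ (x - y) : ℝ) : ℂ)) ⊆ closedBall x d := by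
    refine closure_minimal (fun y hy => ?_) isClosed_closedBall
    have h0 : x - y ∈ tsupport ρ := subset_tsupport ρ fun h => hy (by simp [h])
    have := hs h0
    rwa [mem_closedBall, dist_zero_right, ← dist_eq_norm, ← mem_closedBall'] at this
  have ht : Tst O fun y => ((ρ (x - y) : ℝ) : ℂ) :=
    ⟨Complex.ofRealCLM.contDiff.comp (hρ.comp (contDiff_const.sub contDiff_id)),
      (isCompact_closedBall x d).of_isClosed_subset (isClosed_tsupport _) hsub, hsub.trans hx⟩
  have h0 := hw _ ht a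
  rw [← integral_indicator hO.measurableSet] at h0
  obtain ⟨i1, e1⟩ := abweyl_fderiv hρ hc hF x (Pi.single a 1)
  obtain ⟨i2, e2⟩ := abweyl_fderiv hρ hc hF x (Pi.single a Complex.I)
  rw [dzb, e1, e2, ← integral_const_mul, ← integral_add i1 (i2.const_mul _), ← integral_div,
    ← neg_eq_zero, ← integral_neg, ← h0]
  refine integral_congr_ae (Eventually.of_forall fun y => ?_)
  by_cases hy : y ∈ O
  · simp only [indicator_of_mem hy, dzb, abweyl_test hρ]
    ring
  · simp [indicator_of_notMem hy]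

open scoped Convolution in
theorem abweyl_l1 {ρ : E N → ℝ} {F : E N → ℂ} (hρ : Integrable ρ volume) (h0 : ∀ y, 0 ≤ ρ y)
    (h1 : ∫ y, ρ y = 1) (hF : Integrable F volume) :
    ∫ x, ‖(ρ ⋆[ContinuousLinearMap.lsmul ℝ ℝ, volume] F) x‖ ≤ ∫ x, ‖F x‖ := by
  have e := integral_convolution (ContinuousLinearMap.lsmul ℝ ℝ : ℝ →L[ℝ] ℝ →L[ℝ] ℝ) hρ hF.norm
  rw [h1, ContinuousLinearMap.lsmul_apply, one_smul] at e
  rw [← e]
  refine integral_mono (hρ.integrable_convolution _ hF).norm (hρ.integrable_convolution _ hF.norm)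
    fun x => ?_
  simp only [convolution_def, ContinuousLinearMap.lsmul_apply]
  refine (norm_integral_le_integral_norm _).trans (le_of_eq ?_)
  refine integral_congr_ae (Eventually.of_forall fun y => ?_)
  simp only [norm_smul, Real.norm_of_nonneg (h0 y), smul_eq_mul]

open scoped Convolution in
theorem weyl {f : E N → ℂ} {z : E N} {R : ℝ} (hR : 0 < R)
    (hi : IntegrableOn f (ball z (2 * R)) volume)
    (hw : ∀ r : E N → ℂ, Tst (ball z (2 * R)) r → ∀ a,
      ∫ y in ball z (2 * R), f y * dzb a r y = 0) :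
    ∃ g : E N → ℂ, DifferentiableOn ℂ g (ball z R) ∧
      ∀ᵐ y ∂(volume.restrict (ball z R)), g y = f y := by
  have hF : Integrable ((ball z (2 * R)).indicator f) volume :=
    (integrable_indicator_iff measurableSet_ball).2 hi
  let φ : ℕ → ContDiffBump (0 : E N) := fun k =>
    ⟨R / 4 * (1 / ((k : ℝ) + 1)) / 2, R / 4 * (1 / ((k : ℝ) + 1)), by positivity,
      half_lt_self (by positivity)⟩
  have hφ : ∀ k, (φ k).rOut ≤ R / 4 := fun k =>
    mul_le_of_le_one_right (by positivity)
      ((div_le_one (by positivity)).2 (le_add_of_nonneg_left (Nat.cast_nonneg k)))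
  have hφ0 : Tendsto (fun k => (φ k).rOut) atTop (𝓝 0) := by
    have := (tendsto_one_div_add_atTop_nhds_zero_nat (𝕜 := ℝ)).const_mul (R / 4)
    rwa [mul_zero] at this
  let u : ℕ → E N → ℂ := fun k =>
    (φ k).normed volume ⋆[ContinuousLinearMap.lsmul ℝ ℝ, volume] (ball z (2 * R)).indicator f
  have hu : ∀ k, ∀ x ∈ ball z (3 * R / 2), DifferentiableAt ℂ (u k) x := by
    intro k x hx
    refine abweyl_hol isOpen_ball hi hw (φ k).contDiff_normed (φ k).tsupport_normed_eq.subset ?_
    refine closedBall_subset_ball' ?_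
    have := hφ k
    have := mem_ball.1 hx
    linarith
  obtain ⟨A, hA, hb⟩ := hol_l1 N (half_pos hR)
  have hbd : ∀ k, ∀ x ∈ ball z R,
      ‖u k x‖ ≤ A * ∫ y, ‖(ball z (2 * R)).indicator f y‖ := by
    intro k x hx
    have hiu : Integrable (u k) volume := (φ k).integrable_normed.integrable_convolution _ hF
    have hsub : ball x (R / 2) ⊆ ball z (3 * R / 2) := by
      refine ball_subset_ball' ?_
      have := mem_ball.1 hx
      linarith
    refine (hb (u k) x (fun y hy => (hu k y (hsub hy)).differentiableWithinAt)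
      hiu.integrableOn).trans (mul_le_mul_of_nonneg_left ?_ hA.le)
    refine (setIntegral_le_integral hiu.norm (Eventually.of_forall fun y => norm_nonneg _)).trans ?_
    exact abweyl_l1 (φ k).integrable_normed (φ k).nonneg_normed (φ k).integral_normed hF
  obtain ⟨g, hg, hlim⟩ := CL.hol_ulim (hyperfilter ℕ) (isOpen_ball (x := z) (ε := R)) (f := u)
    (Eventually.of_forall fun k => ⟨fun x hx =>
      (hu k x (ball_subset_ball (by linarith) hx)).differentiableWithinAt, hbd k⟩)
  refine ⟨g, hg, ?_⟩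
  have hae := ContDiffBump.ae_convolution_tendsto_right_of_locallyIntegrable (K := 2) hφ0
    (Eventually.of_forall fun k => le_of_eq (by simp only [φ]; ring)) hF.locallyIntegrable
  rw [ae_restrict_iff' measurableSet_ball]
  filter_upwards [hae] with y hy hyz
  rw [indicator_of_mem (ball_subset_ball (by linarith) hyz)] at hy
  exact tendsto_nhds_unique (hlim y hyz).1 (hy.mono_left Nat.hyperfilter_le_atTop)

end Pool.Agent.AB
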