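import Pool.Agent.K.MP_63735c_ag.C22
import Pool.Agent.K.MP_63735c_ag.C25

/-! The L2 existence theorem. -/

open scoped ComplexOrder ContDiff Matrix Topology ENNReal
open Set Metric MeasureTheory Filter

namespace Pool.Agent.AB

open Pool.Agent.SPF

variable {N : ℕ} {Y : Type} [TopologicalSpace Y] [MeasurableSpace Y] [BorelSpace Y] [T2Space Y]
  {D : Dat Y N}

namespace Dat

theorem abl2_cs {C : Set (E N)} (hC : IsCompact C) {f : E N → ℝ} (hf : ContinuousOn f C) {I : ℝ}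
    (h : ∫ z in C, f z ^ 2 ≤ I) : ∫ z in C, f z ≤ (volume.real C + 1) * √I := by
  have hI : 0 ≤ I := (integral_nonneg fun z => sq_nonneg (f z)).trans h
  have hv : 0 ≤ volume.real C := measureReal_nonneg
  have key : ∀ t : ℝ, 0 < t → ∫ z in C, f z ≤ t * volume.real C + t⁻¹ * I := fun t ht => by
    have i1 : IntegrableOn (fun z => f z ^ 2) C volume := (hf.pow 2).integrableOn_compact hC
    have i2 : IntegrableOn (fun _ : E N => t) C volume := continuousOn_const.integrableOn_compact hC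
    refine (setIntegral_mono_on (hf.integrableOn_compact hC) (i2.add (i1.const_mul t⁻¹))
      hC.measurableSet fun z _ => ?_).trans ?_
    · have h1 : t * (t⁻¹ * f z ^ 2) = f z ^ 2 := by field_simp
      refine le_of_mul_le_mul_left ?_ ht
      simp only [Pi.add_apply]
      nlinarith [sq_nonneg (t - f z), sq_nonneg t, sq_nonneg (f z)]
    · rw [integral_add' i2 (i1.const_mul t⁻¹), integral_const_mul, setIntegral_const, smul_eq_mul,
        mul_comm]
      exact add_le_add le_rfl (mul_le_mul_of_nonneg_left h (inv_pos.2 ht).le)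
  rcases hI.eq_or_lt with h0 | h0
  · rw [← h0, Real.sqrt_zero, mul_zero]
    refine le_of_forall_pos_le_add fun e he => (key (e / (volume.real C + 1)) (by positivity)).trans ?_
    rw [← h0, mul_zero, add_zero, zero_add, div_mul_eq_mul_div, div_le_iff₀ (by positivity)]
    nlinarith
  · have h1 := Real.sqrt_pos.2 h0
    refine (key _ h1).trans (le_of_eq ?_)
    nth_rewrite 3 [← Real.mul_self_sqrt h0.le]
    field_simp

omit [T2Space Y] in
theorem abl2_int {i : D.ι} {r : E N → ℂ} (a : Fin N) (w : Y → ℂ) :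
    ∫ x, D.ext i (fun z => (Real.exp (D.Ψ i z) : ℂ) * dz a r z) x * star (w x) ∂D.ν =
      ∫ z in D.W i, dz a r z * star (w (D.p i z)) := by
  rw [D.den.int_supp (D.Ψ_cont i) fun x hx => by rw [Man.ext_out hx, zero_mul]]
  refine setIntegral_congr_fun (D.isOpen i).measurableSet fun z hz => ?_
  simp only [Man.ext_apply hz, Complex.real_smul, wt]
  rw [← mul_assoc, ← mul_assoc, ← Complex.ofReal_mul, ← Real.exp_add, neg_add_cancel,
    Real.exp_zero, Complex.ofReal_one, one_mul]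

theorem HH_test {i : D.ι} {r : E N → ℂ} (hr : Tst (D.W i) r) (a : Fin N) :
    D.HH (D.ext i fun z => (Real.exp (D.Ψ i z) : ℂ) * dz a r z) := by
  have hW := D.isOpen i
  have hC : IsCompact (tsupport r) := hr.cpt
  have r0 : ∀ z ∈ D.W i, z ∉ tsupport r → r z = 0 := fun z _ hz =>
    image_eq_zero_of_notMem_tsupport hz
  refine ⟨Man.ext_cc hC hr.sub ((Complex.continuous_ofReal.comp_continuousOn
    (Real.continuous_exp.comp_continuousOn (D.Ψ_cont i))).mul
      (hr.dz_tst a).1.smooth.continuous.continuousOn) fun z hz hz' => by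
        rw [(dz_zero_off hW hC.isClosed r0 a z hz hz').1, mul_zero], ?_⟩
  obtain ⟨A, hA, h1⟩ := db_le_En (D := D) hC hr.sub
  obtain ⟨B, hB⟩ := hC.exists_bound_of_continuousOn hr.smooth.continuous.continuousOn
  refine ⟨|B| * ((volume.real (tsupport r) + 1) * √A), fun w hw => ?_⟩
  have hd := (db_smooth hW (hw.1 i)).continuousOn.mono hr.sub
  rw [abl2_int, ibp0 hW hr (hw.1 i), norm_neg,
    int_eq_cpt hW hC hr.sub fun z hz hz' => by rw [r0 z hz hz', zero_mul]]
  have h2 := abl2_cs hC hd.norm (h1 w hw)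
  rw [Real.sqrt_mul hA.le, ← mul_assoc] at h2
  rw [mul_assoc]
  refine le_trans ?_ (mul_le_mul_of_nonneg_left h2 (abs_nonneg B))
  rw [← integral_const_mul]
  refine norm_integral_le_of_norm_le ((hd.norm.integrableOn_compact hC).const_mul _)
    ((ae_restrict_mem hC.measurableSet).mono fun z hz => ?_)
  rw [norm_mul, norm_star]
  exact mul_le_mul ((hB z hz).trans (le_abs_self B)) (norm_le_pi_norm _ a) (norm_nonneg _)
    (abs_nonneg B)

theorem abl2_loc {g₀ : Y → ℂ} (hg : MemLp g₀ 2 D.ν)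
    (ho : ∀ h, D.HH h → ∫ x, h x * star (g₀ x) ∂D.ν = 0) {i : D.ι} {z : E N} (hz : z ∈ D.W i) :
    ∃ (R : ℝ) (G : E N → ℂ), 0 < R ∧ ball z R ⊆ D.W i ∧ DifferentiableOn ℂ G (ball z R) ∧
      ∀ᵐ y ∂volume.restrict (ball z R), G y = g₀ (D.p i y) := by
  obtain ⟨ρ, hρ, hB⟩ := Metric.nhds_basis_closedBall.mem_iff.1 ((D.isOpen i).mem_nhds hz)
  have hC := isCompact_closedBall z ρ
  have hs : ball z (2 * (ρ / 2)) ⊆ closedBall z ρ :=
    ball_subset_closedBall.trans (closedBall_subset_closedBall (by linarith))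
  have h1 : IntegrableOn g₀ (D.p i '' closedBall z ρ) D.ν := by
    have : IsFiniteMeasure (D.ν.restrict (D.p i '' closedBall z ρ)) :=
      isFiniteMeasure_restrict.2
        (D.den.lt_top D.Ψ_cont (Man.cpt_img hC hB).1 (Man.cpt_img hC hB).2).ne
    exact (hg.restrict _).integrable (by norm_num)
  have h2 := (D.den.intOn (D.Ψ_cont i) hC.measurableSet hB g₀).1 h1
  have h3 : IntegrableOn (fun y => g₀ (D.p i y)) (closedBall z ρ) volume := by
    refine (IntegrableOn.continuousOn_mul (g := fun y => (Real.exp (D.Ψ i y) : ℂ))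
      (Complex.continuous_ofReal.comp_continuousOn (Real.continuous_exp.comp_continuousOn
        ((D.Ψ_cont i).mono hB))) h2 hC).congr_fun (fun y _ => ?_) hC.measurableSet
    simp only [Complex.real_smul, wt]
    rw [← mul_assoc, ← Complex.ofReal_mul, ← Real.exp_add, add_neg_cancel, Real.exp_zero,
      Complex.ofReal_one, one_mul]
  obtain ⟨G, h4, h5⟩ := weyl (half_pos hρ) (h3.mono_set hs) fun r hr a => by
    have hr' : Tst (D.W i) fun y => star (r y) :=
      ⟨Complex.conjCLE.contDiff.comp hr.smooth, hr.cpt.comp_left (g := star) (star_zero _),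
        (tsupport_comp_subset (g := star) (star_zero _) r).trans (hr.sub.trans (hs.trans hB))⟩
    have h6 := ho _ (HH_test hr' a)
    rw [abl2_int] at h6
    simp only [← (star_dz r _ a).2, ← star_mul] at h6
    rw [Complex.star_def, integral_conj, map_eq_zero] at h6
    rw [← h6]
    refine (setIntegral_eq_of_subset_of_forall_sdiff_eq_zero (D.isOpen i).measurableSet
      (hs.trans hB) fun y hy => ?_).symm
    have h7 : dzb a r y = 0 := (dz_zero_off isOpen_univ (isClosed_tsupport r)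
      (fun _ _ h => image_eq_zero_of_notMem_tsupport h) a y trivial fun h => hy.2 (hr.sub h)).2
    rw [h7, mul_zero]
  exact ⟨ρ / 2, G, half_pos hρ, (ball_subset_ball (by linarith)).trans (hs.trans hB), h4, h5⟩

/-- A function orthogonal to `HH` has a holomorphic representative. -/
theorem hol_rep {g₀ : Y → ℂ} (hg : MemLp g₀ 2 D.ν)
    (ho : ∀ h, D.HH h → ∫ x, h x * star (g₀ x) ∂D.ν = 0) :
    ∃ g : Y → ℂ, D.Hol g ∧ ∀ i, ∀ᵐ x ∂D.ν.restrict (D.p i '' D.W i), g x = g₀ x := by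
  have key : ∀ i, ∀ z ∈ D.W i, ∃ (R : ℝ) (G : E N → ℂ), 0 < R ∧ ball z R ⊆ D.W i ∧
      DifferentiableOn ℂ G (ball z R) ∧ (∀ᵐ y ∂volume.restrict (ball z R), G y = g₀ (D.p i y)) ∧
      ContinuousOn (D.ext i G) (D.p i '' ball z R) ∧
      ∀ᵐ x ∂D.ν.restrict (D.p i '' ball z R), D.ext i G x = g₀ x := fun i z hz => by
    obtain ⟨R, G, h1, h2, h3, h4⟩ := abl2_loc hg ho hz
    refine ⟨R, G, h1, h2, h3, h4, ?_, (D.den.ae (D.Ψ_cont i) measurableSet_ball h2 _).2 ?_⟩
    · rintro _ ⟨y, hy, rfl⟩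
      refine ContinuousAt.continuousWithinAt ?_
      rw [ContinuousAt, ← Man.map_nhds (h2 hy), tendsto_map'_iff, Man.ext_apply (h2 hy)]
      refine (h3.continuousOn.continuousAt (isOpen_ball.mem_nhds hy)).tendsto.congr' ?_
      filter_upwards [isOpen_ball.mem_nhds hy] with x hx
      exact (Man.ext_apply (h2 hx)).symm
    · filter_upwards [h4, ae_restrict_mem measurableSet_ball] with y hy hy'
      rw [Man.ext_apply (h2 hy'), hy]
  obtain ⟨g, hgl⟩ := Man.glue (ν := D.ν) (g₀ := g₀) D.isOpen_M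
    (fun O hO h hne => D.den.pos D.Ψ_cont hO h hne) fun x hx => by
      obtain ⟨i, z, hz, rfl⟩ := Man.exists_chart hx
      obtain ⟨R, G, h1, h2, -, -, h5, h6⟩ := key i z hz
      exact ⟨_, _, D.opn i _ isOpen_ball h2, ⟨z, mem_ball_self h1, rfl⟩,
        by rintro _ ⟨y, hy, rfl⟩; exact Man.mem_M (h2 hy), h5, h6⟩
  have key2 : ∀ i, ∀ z ∈ D.W i, ∃ (R : ℝ) (G : E N → ℂ), 0 < R ∧
      DifferentiableOn ℂ G (ball z R) ∧ (∀ᵐ y ∂volume.restrict (ball z R), G y = g₀ (D.p i y)) ∧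
      ∀ y ∈ ball z R, g (D.p i y) = G y := fun i z hz => by
    obtain ⟨R, G, h1, h2, h3, h4, h5, h6⟩ := key i z hz
    refine ⟨R, G, h1, h3, h4, fun y hy => ?_⟩
    rw [hgl _ _ (D.opn i _ isOpen_ball h2) (by rintro _ ⟨y, hy, rfl⟩; exact Man.mem_M (h2 hy))
      h5 h6 _ ⟨y, hy, rfl⟩, Man.ext_apply (h2 hy)]
  refine ⟨g, fun i z hz => ?_, fun i => ?_⟩
  · obtain ⟨R, G, h1, h2, -, h4⟩ := key2 i z hz
    exact ((h2.differentiableAt (ball_mem_nhds z h1)).congr_of_eventuallyEq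
      (mem_of_superset (ball_mem_nhds z h1) h4)).differentiableWithinAt
  · refine (D.den.ae (D.Ψ_cont i) (D.isOpen i).measurableSet subset_rfl _).2
      (Man.ae_of_local fun z hz => ?_)
    obtain ⟨R, G, h1, -, h3, h4⟩ := key2 i z hz
    refine ⟨_, isOpen_ball, mem_ball_self h1, ?_⟩
    filter_upwards [h3, ae_restrict_mem measurableSet_ball] with y hy hy'
    rw [h4 y hy', hy]

theorem l2e (hP : D.Pos) {s : Y → ℂ} (hs : D.S s) {c : Y → ℝ} (hc : D.Cc c)
    (hc0 : ∀ x, 0 ≤ c x)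
    (hsc : ∀ i, ∀ z ∈ D.W i, ∀ v, ‖v ⬝ᵥ star (db (fun y => s (D.p i y)) z)‖ ^ 2 ≤
      c (D.p i z) * (hq (lev (D.Ψ i) z) v v).re) :
    ∃ g : Y → ℂ, D.Hol g ∧ ∀ i,
      IntegrableOn (fun z => wt (D.Ψ i) z * ‖g (D.p i z) - s (D.p i z)‖ ^ 2) (D.W i) volume ∧
      ∫ z in D.W i, wt (D.Ψ i) z * ‖g (D.p i z) - s (D.p i z)‖ ^ 2 ≤ ∫ x, c x ∂D.ν := by
  obtain ⟨g₀, h1, h2, h3⟩ := exists_orth hs.cc (Real.sqrt_nonneg _)
    fun h hh => me hP hs hc hc0 hsc hh
  obtain ⟨g, h4, h5⟩ := hol_rep h1 h3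
  rw [Real.sq_sqrt (integral_nonneg hc0)] at h2
  have hi : Integrable (fun x => ‖g₀ x - s x‖ ^ 2) D.ν :=
    (h1.sub (hs.cc.memLp D.den D.Ψ_cont 2)).integrable_norm_pow (by norm_num)
  refine ⟨g, h4, fun i => ?_⟩
  have hm := (D.isOpen i).measurableSet
  have he : (fun x => ‖g₀ x - s x‖ ^ 2) =ᵐ[D.ν.restrict (D.p i '' D.W i)]
      fun x => ‖g x - s x‖ ^ 2 := (h5 i).mono fun x hx => by simp only [hx]
  refine ⟨(D.den.intOn (D.Ψ_cont i) hm subset_rfl fun x => ‖g x - s x‖ ^ 2).1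
    (hi.integrableOn.congr he), ?_⟩
  have h6 := D.den.int (D.Ψ_cont i) hm subset_rfl fun x => ‖g x - s x‖ ^ 2
  simp only [smul_eq_mul] at h6
  rw [← h6, ← integral_congr_ae he]
  exact (setIntegral_le_integral hi (Eventually.of_forall fun x => by positivity)).trans h2

end Dat

end Pool.Agent.AB
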