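import Pool.Agent.K.MP_63735c_ag.C30

/-! Real closedness of the forms given in charts; the Levi form. -/

open scoped ComplexOrder ContDiff Matrix
open Set Metric MeasureTheory Filter Topology

namespace Pool.Agent.CK

open Pool.Agent.SPF Pool.Agent.CL Pool.Agent.NL

variable {N n : ℕ} {X : Type} [TopologicalSpace X] {A : Atlas X N} {T O : Set (E n)}
  {Ψ : P n → X}

lemma ckform_app {F : Type} [NormedAddCommGroup F] [NormedSpace ℝ F] {t : Form2 F} {x : F}
    (ht : DifferentiableAt ℝ t x) (w u v : F) :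
    fderiv ℝ t x w u v = fderiv ℝ (fun y => t y u v) x w := by
  have h := (ht.hasFDerivAt.clm_apply (hasFDerivAt_const u x)).clm_apply (hasFDerivAt_const v x)
  rw [h.fderiv]
  simp

lemma ckform_sum (h : Matrix (Fin N) (Fin N) ℂ) (u v : E N) :
    u ⬝ᵥ h *ᵥ v = ∑ a, ∑ b, (u a * v b) • h a b := by
  simp only [dotProduct, Matrix.mulVec, Finset.mul_sum, smul_eq_mul]
  exact Finset.sum_congr rfl fun a _ => Finset.sum_congr rfl fun b _ => by ring

lemma ckform_smooth {h : E N → Matrix (Fin N) (Fin N) ℂ} {W : Set (E N)}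
    (hh : ∀ a b, ContDiffOn ℝ ∞ (fun z => h z a b) W) (u v : E N) :
    ContDiffOn ℝ ∞ (fun z => u ⬝ᵥ h z *ᵥ v) W := by
  simp only [ckform_sum]
  exact ContDiffOn.sum fun a _ => ContDiffOn.sum fun b _ => (hh a b).const_smul _

lemma ckform_der {h : E N → Matrix (Fin N) (Fin N) ℂ} {z : E N}
    (hh : ∀ a b, DifferentiableAt ℝ (fun z => h z a b) z) (L : ℂ →L[ℝ] ℝ) (u v w : E N) :
    fderiv ℝ (fun y => L (u ⬝ᵥ h y *ᵥ v)) z w =
      L (∑ a, ∑ b, u a * v b * fderiv ℝ (fun y => h y a b) z w) := by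
  have h1 : HasFDerivAt (fun y => u ⬝ᵥ h y *ᵥ v)
      (∑ a, ∑ b, (u a * v b) • fderiv ℝ (fun y => h y a b) z) z := by
    simp only [ckform_sum]
    exact HasFDerivAt.fun_sum fun a _ => HasFDerivAt.fun_sum fun b _ =>
      (hh a b).hasFDerivAt.const_smul (u a * v b)
  have h2 : HasFDerivAt (fun y => L (u ⬝ᵥ h y *ᵥ v)) _ z := L.hasFDerivAt.comp z h1
  rw [h2.fderiv]
  simp

lemma ckform_cyc (f : Fin N → Fin N → Fin N → ℂ) :
    ∑ a, ∑ b, ∑ c, f a b c = ∑ c, ∑ a, ∑ b, f a b c := by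
  rw [Finset.sum_comm (γ := Fin N) (f := fun c a => ∑ b, f a b c)]
  exact Finset.sum_congr rfl fun a _ => Finset.sum_comm

lemma ckform_jac (J h K : Matrix (Fin N) (Fin N) ℂ) (u v : E N) :
    u ⬝ᵥ (Jᵀ * h * K) *ᵥ v = (J *ᵥ u) ⬝ᵥ h *ᵥ (K *ᵥ v) := by
  rw [← Matrix.mulVec_mulVec, ← Matrix.mulVec_mulVec, Matrix.dotProduct_mulVec,
    Matrix.vecMul_transpose]

lemma ckform_star (J : Matrix (Fin N) (Fin N) ℂ) (v : E N) :
    (J.map star) *ᵥ star v = star (J *ᵥ v) := by
  ext a
  simp [Matrix.mulVec, dotProduct]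

theorem gform_11 (M : Form11 A) : GForm A (f11 A M.h) := by
  refine ⟨fun i => ?_, fun i j O φ h hp z hz u v => ?_⟩
  swap
  · simp only [f11, e11_apply, ev11]
    rw [M.compat i j O φ h hp z hz, ckform_jac, ckform_star, jac_mulVec, jac_mulVec]
  have hs : ContDiffOn ℝ ∞ (f11 A M.h i) (A.C i).W := by
    refine contDiffOn_clm_apply.2 fun u => contDiffOn_clm_apply.2 fun v => ?_
    exact contDiffOn_const.mul
      (Complex.imCLM.contDiff.comp_contDiffOn (ckform_smooth (M.smooth i) u (star v)))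
  refine ⟨hs, fun z hz u v => ?_, fun z hz => ?_⟩
  · have e : u ⬝ᵥ M.h i z *ᵥ star v = star (v ⬝ᵥ M.h i z *ᵥ star u) := by
      simp only [ckform_sum, star_sum, smul_eq_mul, star_mul', Pi.star_apply, star_star]
      rw [Finset.sum_comm]
      refine Finset.sum_congr rfl fun a _ => Finset.sum_congr rfl fun b _ => ?_
      rw [(M.herm i z hz).apply b a]
      ring
    simp only [f11, e11_apply, ev11]
    rw [e]
    simp
  have hn := (A.C i).isOpen.mem_nhds hz
  have hd : ∀ a b, DifferentiableAt ℝ (fun y => M.h i y a b) z := fun a b =>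
    ((M.smooth i a b).contDiffAt hn).differentiableAt (by simp)
  have ht := (hs.contDiffAt hn).differentiableAt (by simp)
  set S : E N → E N → E N → ℂ := fun w u v =>
    ∑ c, ∑ a, ∑ b, w c * u a * star (v b) * dz c (fun y => M.h i y a b) z with hS
  have hsym : ∀ w u v, S w u v = S u w v := by
    intro w u v
    simp only [hS]
    rw [Finset.sum_comm]
    refine Finset.sum_congr rfl fun a _ => Finset.sum_congr rfl fun c _ =>
      Finset.sum_congr rfl fun b _ => ?_
    rw [M.closed i z hz a b c]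
    ring
  have hb : ∀ a b c, dzb c (fun y => M.h i y a b) z = star (dz c (fun y => M.h i y b a) z) := by
    intro a b c
    rw [← dzb_star]
    have : (fun y => M.h i y a b) =ᶠ[𝓝 z] fun y => star (M.h i y b a) := by
      filter_upwards [hn] with y hy
      exact ((M.herm i y hy).apply a b).symm
    simp only [dzb, this.fderiv_eq]
  have key : ∀ w u v, fderiv ℝ (f11 A M.h i) z w u v = -2 * ((S w u v).im - (S w v u).im) := by
    intro w u v
    rw [ckform_app ht]
    have e := ckform_der hd ((-2 : ℝ) • Complex.imCLM) u (star v) w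
    have e2 : ∑ a, ∑ b, u a * (star v) b * fderiv ℝ (fun y => M.h i y a b) z w =
        S w u v + star (S w v u) := by
      simp only [hS, star_sum, star_mul', star_star, fderiv_eq_wirt, hb, Finset.mul_sum, mul_add,
        Finset.sum_add_distrib, Pi.star_apply]
      congr 1
      · rw [ckform_cyc]
        exact Finset.sum_congr rfl fun c _ => Finset.sum_congr rfl fun a _ =>
          Finset.sum_congr rfl fun b _ => by ring
      · rw [ckform_cyc]
        refine Finset.sum_congr rfl fun c _ => ?_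
        rw [Finset.sum_comm]
        exact Finset.sum_congr rfl fun a _ => Finset.sum_congr rfl fun b _ => by ring
    rw [e2] at e
    refine Eq.trans e ?_
    simp [sub_eq_add_neg]
  intro u v w
  rw [key, key, key, hsym u v w, hsym u w v, hsym v w u]
  ring

theorem gform_20 (A : Atlas X N) (c : ℂ) : GForm A (f20 A c) := by
  refine ⟨fun i => ?_, fun i j O φ h _ z hz u v => ?_⟩
  swap
  · simp only [f20, s20_apply]
    rw [h.σ_eq z hz, ckform_jac, jac_mulVec, jac_mulVec]
  have hm : ∀ a b, ContDiffOn ℝ ∞ (fun y => (A.C i).σ y a b) (A.C i).W := fun a b =>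
    (hol_smooth (A.C i).isOpen ((A.C i).σ_hol a b)).2.1
  have hs : ContDiffOn ℝ ∞ (f20 A c i) (A.C i).W := by
    refine contDiffOn_clm_apply.2 fun u => contDiffOn_clm_apply.2 fun v => ?_
    exact Complex.reCLM.contDiff.comp_contDiffOn (contDiffOn_const.mul (ckform_smooth hm u v))
  refine ⟨hs, fun z hz u v => ?_, fun z hz => ?_⟩
  · have e : u ⬝ᵥ (A.C i).σ z *ᵥ v = -(v ⬝ᵥ (A.C i).σ z *ᵥ u) := by
      rw [Matrix.dotProduct_mulVec, ← Matrix.mulVec_transpose, (A.C i).σ_skew z hz,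
        Matrix.neg_mulVec, neg_dotProduct, dotProduct_comm]
    simp only [f20, s20_apply]
    rw [e, mul_neg, Complex.neg_re]
  have hn := (A.C i).isOpen.mem_nhds hz
  have hd : ∀ a b, DifferentiableAt ℝ (fun y => (A.C i).σ y a b) z := fun a b =>
    ((hm a b).contDiffAt hn).differentiableAt (by simp)
  have ht := (hs.contDiffAt hn).differentiableAt (by simp)
  have key : ∀ w u v, fderiv ℝ (f20 A c i) z w u v = (c * ∑ k, ∑ a, ∑ b,
      w k * u a * v b * dz k (fun y => (A.C i).σ y a b) z).re := by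
    intro w u v
    rw [ckform_app ht]
    have e := ckform_der hd (Complex.reCLM.comp (ContinuousLinearMap.mul ℝ ℂ c)) u v w
    have e2 : ∑ a, ∑ b, u a * v b * fderiv ℝ (fun y => (A.C i).σ y a b) z w =
        ∑ k, ∑ a, ∑ b, w k * u a * v b * dz k (fun y => (A.C i).σ y a b) z := by
      have h0 : ∀ a b k, dzb k (fun y => (A.C i).σ y a b) z = 0 := fun a b k =>
        (dz_of_diff (((A.C i).σ_hol a b).differentiableAt hn) k).2
      simp only [fderiv_eq_wirt, h0, mul_zero, add_zero, Finset.mul_sum]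
      rw [ckform_cyc]
      exact Finset.sum_congr rfl fun c _ => Finset.sum_congr rfl fun a _ =>
        Finset.sum_congr rfl fun b _ => by ring
    rw [e2] at e
    exact e
  intro u v w
  rw [key, key, key, ← Complex.add_re, ← Complex.add_re, ← mul_add, ← mul_add,
    ckform_cyc fun b k a => v b * w k * u a * dz b (fun y => (A.C i).σ y k a) z,
    ← ckform_cyc fun a b k => w k * u a * v b * dz k (fun y => (A.C i).σ y a b) z]
  simp only [← Finset.sum_add_distrib]
  rw [Finset.sum_eq_zero, mul_zero, Complex.zero_re]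
  refine fun a _ => Finset.sum_eq_zero fun b _ => Finset.sum_eq_zero fun k _ => ?_
  linear_combination (u a * v b * w k) * (A.C i).σ_closed z hz a b k

theorem pull2_closed {F F' : Type} [NormedAddCommGroup F] [NormedSpace ℝ F]
    [NormedAddCommGroup F'] [NormedSpace ℝ F'] {W : Set F} {W' : Set F'} (hW : IsOpen W)
    (hW' : IsOpen W') {g : F' → F} (hg : ContDiffOn ℝ ∞ g W') (hm : MapsTo g W' W) {t : Form2 F}
    (ht : Closed2 W t) :
    Closed2 W' fun x => (t (g x)).bilinearComp (fderiv ℝ g x) (fderiv ℝ g x) := by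
  have hg1 : ContDiffOn ℝ ∞ (fderiv ℝ g) W' := hg.fderiv_of_isOpen hW' (by simp)
  have htg : ContDiffOn ℝ ∞ (fun x => t (g x)) W' := ht.1.comp hg hm
  have hs : ContDiffOn ℝ ∞
      (fun x => (t (g x)).bilinearComp (fderiv ℝ g x) (fderiv ℝ g x)) W' := by
    let L : (F' →L[ℝ] F) →L[ℝ] (F →L[ℝ] ℝ) →L[ℝ] F' →L[ℝ] ℝ :=
      (ContinuousLinearMap.compL ℝ F' F ℝ).flip
    have h1 : ContDiffOn ℝ ∞ (fun x => L (fderiv ℝ g x)) W' := contDiffOn_const.clm_apply hg1
    refine (h1.clm_comp (htg.clm_comp hg1)).congr fun x _ => ?_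
    ext u v
    rfl
  refine ⟨hs, fun x hx u v => ?_, fun x hx => ?_⟩
  · simp only [ContinuousLinearMap.bilinearComp_apply]
    exact ht.2.1 _ (hm hx) _ _
  have hn := hW'.mem_nhds hx
  have d0 := ((hg.contDiffAt hn).differentiableAt (by simp)).hasFDerivAt
  have d1 := ((hg1.contDiffAt hn).differentiableAt (by simp)).hasFDerivAt
  have d2 := ((ht.1.contDiffAt (hW.mem_nhds (hm hx))).differentiableAt (by simp)).hasFDerivAt
  have key : ∀ w u v, fderiv ℝ (fun x => (t (g x)).bilinearComp (fderiv ℝ g x) (fderiv ℝ g x))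
      x w u v = fderiv ℝ t (g x) (fderiv ℝ g x w) (fderiv ℝ g x u) (fderiv ℝ g x v) +
        t (g x) (fderiv ℝ (fderiv ℝ g) x w u) (fderiv ℝ g x v) +
        t (g x) (fderiv ℝ g x u) (fderiv ℝ (fderiv ℝ g) x w v) := by
    intro w u v
    rw [ckform_app ((hs.contDiffAt hn).differentiableAt (by simp))]
    have h := ((d2.comp x d0).clm_apply (d1.clm_apply (hasFDerivAt_const u x))).clm_apply
      (d1.clm_apply (hasFDerivAt_const v x))
    have h' : HasFDerivAt (fun y => (t (g y)).bilinearComp (fderiv ℝ g y) (fderiv ℝ g y) u v)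
      _ x := h
    rw [h'.fderiv]
    simp
    ring
  have sy := (hg.contDiffAt hn).isSymmSndFDerivAt (by
    rw [minSmoothness_of_isRCLikeNormedField]; exact WithTop.coe_le_coe.2 le_top)
  intro u v w
  have sk := ht.2.1 _ (hm hx)
  have cl := ht.2.2 _ (hm hx) (fderiv ℝ g x u) (fderiv ℝ g x v) (fderiv ℝ g x w)
  rw [key, key, key, sy.eq v u, sy.eq w u, sy.eq w v, sk (fderiv ℝ g x u), sk (fderiv ℝ g x v),
    sk (fderiv ℝ g x w)]
  linarith

/-- The matrix `∂_a ∂bar_b φ` in the chart `i`. -/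
noncomputable def levi (A : Atlas X N) (φ : X → ℝ) (i : A.ι) (z : E N) :
    Matrix (Fin N) (Fin N) ℂ :=
  Matrix.of fun a b => dz a (fun y => star (dz b (fun x => (φ (A.p i x) : ℂ)) y)) z

theorem Lv_levi {φ : X → ℝ} {i : A.ι} (hφ : ContDiffOn ℝ ∞ (fun z => φ (A.p i z)) (A.C i).W)
    {z : E N} (hz : z ∈ (A.C i).W) (w : E N) :
    Lv (fun z => φ (A.p i z)) z w = 2 * ev11 (levi A φ i z) w (Complex.I • w) := by
  let O : TopologicalSpace.Opens (E N) := ⟨_, (A.C i).isOpen⟩
  have h := Sm.rep_mk (O := O) _ (test_ofReal hφ)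
  set a := Sm.mk (O := O) _ (test_ofReal hφ)
  have hn := (A.C i).isOpen.mem_nhds hz
  have h1 : ContDiffOn ℝ ∞ (fderiv ℝ fun z => φ (A.p i z)) (A.C i).W :=
    hφ.fderiv_of_isOpen (A.C i).isOpen (by simp)
  have d1 := ((h1.contDiffAt hn).differentiableAt (by simp)).hasFDerivAt
  have e1 : ∀ v, Sm.ev ⟨z, hz⟩ (Sm.der v (Sm.der v a)) =
      (D2 (fun z => φ (A.p i z)) z v : ℝ) := by
    intro v
    have h2 := d1.clm_apply (hasFDerivAt_const v z)
    have h3 : (fun y => fderiv ℝ (fun x => (φ (A.p i x) : ℂ)) y v) =ᶠ[𝓝 z]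
        fun y => ((fderiv ℝ (fun x => φ (A.p i x)) y v : ℝ) : ℂ) := by
      filter_upwards [hn] with y hy
      exact test_fderiv ((hφ.contDiffAt ((A.C i).isOpen.mem_nhds hy)).differentiableAt
        (by simp)) v
    rw [(h.der v).der v ⟨z, hz⟩]
    beta_reduce
    rw [h3.fderiv_eq, test_fderiv h2.differentiableAt, h2.fderiv]
    simp [D2]
  have e2 : ∀ k l, Sm.ev ⟨z, hz⟩ (Sm.d k (Sm.db l a)) = levi A φ i z k l := by
    intro k l
    rw [(h.db l).d k ⟨z, hz⟩, levi, Matrix.of_apply]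
    congr 1
    ext y
    rw [← dzb_star]
    simp
  have e3 := congrArg Complex.re (test_levi w a ⟨z, hz⟩)
  rw [e1, e1, show (4 : ℂ) = ((4 : ℝ) : ℂ) by norm_num, Complex.re_ofReal_mul] at e3
  simp only [e2, Complex.add_re, Complex.ofReal_re] at e3
  rw [Lv, ← e3, ev11_I, ckform_sum]
  simp only [smul_eq_mul, Pi.star_apply]
  ring

end Pool.Agent.CK
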