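import Pool.Agent.P.MP_63735c_ag.SPTest
import Pool.Agent.P.MP_63735c_ag.SPDat

-- part Pool.Agent.P.MP_63735c_ag.SPLiou
section

/-! A smooth plurisubharmonic function on the whole space that is bounded above is constant. -/

open Set Filter Topology
open scoped ComplexOrder ContDiff Matrix

namespace Pool.Agent.SPF

variable {n : ℕ}

lemma liou_second {g g' : ℝ → ℝ} {c : ℝ} (hm : IsLocalMax g 0)
    (hd : ∀ᶠ t in 𝓝 (0 : ℝ), HasDerivAt g (g' t) t) (h2 : HasDerivAt g' c 0) : c ≤ 0 := by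
  by_contra hpos
  rw [not_le] at hpos
  have hd1 : deriv g =ᶠ[𝓝 0] g' := hd.mono fun t ht => ht.deriv
  have hd2 : deriv (deriv g) 0 = c := by rw [hd1.deriv_eq, h2.deriv]
  have hmin : IsLocalMin g 0 := isLocalMin_of_deriv_deriv_pos (by rw [hd2]; exact hpos)
    hm.deriv_eq_zero hd.self_of_nhds.continuousAt
  have hcst : g =ᶠ[𝓝 0] fun _ => g 0 := by
    filter_upwards [hm, hmin] with t h1 h2 using le_antisymm h1 h2
  have := hcst.deriv.deriv_eq
  rw [hd2] at this
  simp only [deriv_const', deriv_const] at this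
  exact hpos.ne' this

lemma liou_curve {u : E n → ℝ} (hu : ContDiff ℝ ∞ u) {γ γ' : ℝ → E n} {c : E n}
    (h1 : ∀ τ, HasDerivAt γ (γ' τ) τ) (h2 : HasDerivAt γ' c 0) :
    (∀ τ, HasDerivAt (fun τ => u (γ τ)) (fderiv ℝ u (γ τ) (γ' τ)) τ) ∧
      HasDerivAt (fun τ => fderiv ℝ u (γ τ) (γ' τ))
        (fderiv ℝ (fderiv ℝ u) (γ 0) (γ' 0) (γ' 0) + fderiv ℝ u (γ 0) c) 0 := by
  refine ⟨fun τ => (hu.differentiable (by simp) _).hasFDerivAt.comp_hasDerivAt τ (h1 τ), ?_⟩
  have hD : Differentiable ℝ (fderiv ℝ u) :=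
    (hu.fderiv_right (m := ∞) (by simp)).differentiable (by simp)
  exact ((hD (γ 0)).hasFDerivAt.comp_hasDerivAt 0 (h1 0)).clm_apply h2

lemma liou_levi {u : E n → ℝ} (hu : ContDiff ℝ ∞ u) (z v : E n) :
    4 * (∑ a, ∑ b, v a * star (v b) * dz a (dzb b fun s => (u s : ℂ)) z).re =
      fderiv ℝ (fderiv ℝ u) z v v +
        fderiv ℝ (fderiv ℝ u) z (Complex.I • v) (Complex.I • v) := by
  let O : TopologicalSpace.Opens (E n) := ⟨univ, isOpen_univ⟩
  have h := Sm.rep_mk (O := O) _ (test_ofReal (s := univ) hu.contDiffOn)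
  set a := Sm.mk (O := O) _ (test_ofReal (s := univ) hu.contDiffOn)
  have hD : Differentiable ℝ (fderiv ℝ u) :=
    (hu.fderiv_right (m := ∞) (by simp)).differentiable (by simp)
  have key : ∀ w : E n, Sm.ev (⟨z, mem_univ z⟩ : O) (Sm.der w (Sm.der w a)) =
      (fderiv ℝ (fderiv ℝ u) z w w : ℝ) := by
    intro w
    rw [(h.der w).der w ⟨z, mem_univ z⟩]
    have e : (fun y => fderiv ℝ (fun s => (u s : ℂ)) y w) = fun y => ((fderiv ℝ u y w : ℝ) : ℂ) :=
      funext fun y => test_fderiv (hu.differentiable (by simp) y) w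
    have hF : HasFDerivAt (fun y => fderiv ℝ u y w)
        ((ContinuousLinearMap.apply ℝ ℝ w).comp (fderiv ℝ (fderiv ℝ u) z)) z :=
      (ContinuousLinearMap.apply ℝ ℝ w).hasFDerivAt.comp z (hD z).hasFDerivAt
    change fderiv ℝ (fun y => fderiv ℝ (fun s => (u s : ℂ)) y w) z w = _
    rw [e, test_fderiv hF.differentiableAt, hF.fderiv]
    rfl
  have h1 := congrArg Complex.re (test_levi v a ⟨z, mem_univ z⟩)
  rw [key, key, Complex.add_re, Complex.ofReal_re, Complex.ofReal_re,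
    show (4 : ℂ) = ((4 : ℝ) : ℂ) by norm_num, Complex.re_ofReal_mul] at h1
  rw [← h1]
  congr 2
  exact Finset.sum_congr rfl fun i _ => Finset.sum_congr rfl fun j _ => by
    rw [(h.db j).d i ⟨z, mem_univ z⟩]

lemma liou_nomax {u : E n → ℝ} (hu : ContDiff ℝ ∞ u)
    (h : ∀ t v : E n,
      0 ≤ (∑ a, ∑ b, v a * star (v b) * dz a (dzb b fun s => (u s : ℂ)) t).re) (t' v : E n)
    {r ε : ℝ} (hr : 0 < r) (hε : 0 < ε) {l : ℂ} (hl : r < ‖l‖)
    (hm : IsLocalMax (fun l : ℂ => u (t' + l • v) - ε * Real.log (1 + Real.log (‖l‖ / r))) l) :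
    False := by
  set w : E n := l • v with hw
  have hl0 : 0 < ‖l‖ := hr.trans hl
  set l0 : ℝ := 1 + Real.log (‖l‖ / r) with hl0'
  have hl1 : 0 < l0 := by
    have := Real.log_pos ((one_lt_div hr).2 hl)
    linarith
  have ex : ∀ (c : ℂ) (τ : ℝ), HasDerivAt (fun τ : ℝ => Complex.exp (c * τ))
      (Complex.exp (c * τ) * c) τ := fun c τ => by
    have h1 : HasDerivAt (fun τ : ℝ => c * (τ : ℂ)) (c * 1) τ :=
      (Complex.ofRealCLM.hasDerivAt (x := τ)).const_mul c
    simpa using h1.cexp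
  have cur : ∀ c : ℂ, (∀ τ : ℝ, HasDerivAt (fun τ : ℝ => u (t' + Complex.exp (c * τ) • w))
      (fderiv ℝ u (t' + Complex.exp (c * τ) • w) ((Complex.exp (c * τ) * c) • w)) τ) ∧
      HasDerivAt (fun τ : ℝ =>
        fderiv ℝ u (t' + Complex.exp (c * τ) • w) ((Complex.exp (c * τ) * c) • w))
        (fderiv ℝ (fderiv ℝ u) (t' + w) (c • w) (c • w) + fderiv ℝ u (t' + w) ((c * c) • w))
        0 := fun c => by
    have := liou_curve hu (γ := fun τ : ℝ => t' + Complex.exp (c * τ) • w)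
      (γ' := fun τ : ℝ => (Complex.exp (c * τ) * c) • w) (c := (c * c) • w)
      (fun τ => ((ex c τ).smul_const w).const_add t')
      (by simpa using ((ex c 0).mul_const c).smul_const w)
    simpa using this
  have loc : ∀ c : ℂ, IsLocalMax (fun τ : ℝ => u (t' + Complex.exp (c * τ) • w) -
      ε * Real.log (l0 + c.re * τ)) 0 := fun c => by
    have ht : Tendsto (fun τ : ℝ => Complex.exp (c * τ) * l) (𝓝 0) (𝓝 l) := by
      have : Continuous fun τ : ℝ => Complex.exp (c * τ) * l := by fun_prop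
      simpa using this.tendsto 0
    refine (ht.eventually hm).mono fun τ hτ => ?_
    have e1 : Real.log (‖Complex.exp (c * τ) * l‖ / r) = Real.log (‖l‖ / r) + c.re * τ := by
      rw [norm_mul, Complex.norm_exp, mul_div_assoc,
        Real.log_mul (Real.exp_pos _).ne' (div_pos hl0 hr).ne', Real.log_exp]
      simp [add_comm]
    beta_reduce at hτ
    rw [e1, mul_smul, ← add_assoc] at hτ
    simpa using hτ
  have hev : ∀ᶠ τ : ℝ in 𝓝 0, 0 < l0 + τ := by
    have : Continuous fun τ : ℝ => l0 + τ := by fun_prop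
    exact this.continuousAt.eventually (lt_mem_nhds (by simpa using hl1))
  have lg : ∀ τ : ℝ, 0 < l0 + τ →
      HasDerivAt (fun τ : ℝ => ε * Real.log (l0 + (1 : ℂ).re * τ)) (ε * (l0 + τ)⁻¹) τ :=
    fun τ hτ => by
      have := (((hasDerivAt_id τ).const_add l0).log hτ.ne').const_mul ε
      simpa using this
  have lg2 : HasDerivAt (fun τ : ℝ => ε * (l0 + τ)⁻¹) (ε * (-1 / l0 ^ 2)) 0 := by
    have := (((hasDerivAt_id (0 : ℝ)).const_add l0).inv (by simpa using hl1.ne')).const_mul ε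
    simpa using this
  have k1 := liou_second (loc 1)
    (hev.mono fun τ hτ => ((cur 1).1 τ).sub (lg τ hτ)) ((cur 1).2.sub lg2)
  have k2 := liou_second (g := fun τ : ℝ => u (t' + Complex.exp (Complex.I * τ) • w) -
      ε * Real.log (l0 + Complex.I.re * τ)) (loc Complex.I)
    (Eventually.of_forall fun τ => by
      simpa using (((cur Complex.I).1 τ).sub_const (ε * Real.log l0))) (cur Complex.I).2
  have k3 := liou_levi hu (t' + w) w
  have k4 := h (t' + w) w
  have k5 : 0 < ε * (1 / l0 ^ 2) := by positivity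
  rw [Complex.I_mul_I, neg_one_smul, map_neg] at k2
  rw [one_mul, one_smul, neg_div] at k1
  linarith

lemma liou_le {u : E n → ℝ} (hu : ContDiff ℝ ∞ u) {M : ℝ} (hM : ∀ t, u t ≤ M)
    (h : ∀ t v : E n,
      0 ≤ (∑ a, ∑ b, v a * star (v b) * dz a (dzb b fun s => (u s : ℂ)) t).re) (t t' : E n) :
    u t ≤ u t' := by
  refine le_of_forall_pos_le_add fun η hη => ?_
  have hc : Continuous fun l : ℂ => u (t' + l • (t - t')) := hu.continuous.comp (by fun_prop)
  have h0 : ∀ᶠ l : ℂ in 𝓝 0, u (t' + l • (t - t')) < u t' + η / 2 :=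
    hc.continuousAt.eventually (gt_mem_nhds (by simpa using hη))
  obtain ⟨δ, hδ, hδ'⟩ := Metric.eventually_nhds_iff.1 h0
  set r : ℝ := min (δ / 2) (1 / 2) with hr'
  have hr : 0 < r := lt_min (half_pos hδ) (by norm_num)
  have hr1 : r < 1 := (min_le_right _ _).trans_lt (by norm_num)
  have hrδ : r < δ := (min_le_left _ _).trans_lt (half_lt_self hδ)
  set H : ℝ → ℝ := fun ρ => Real.log (1 + Real.log (ρ / r)) with hH
  have hH1 : 0 < H 1 := Real.log_pos (by linarith [Real.log_pos ((one_lt_div hr).2 hr1)])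
  set ε : ℝ := η / 2 / H 1 with hε'
  have hε : 0 < ε := div_pos (half_pos hη) hH1
  have hε1 : ε * H 1 = η / 2 := div_mul_cancel₀ _ hH1.ne'
  have hT : Tendsto H atTop atTop := Real.tendsto_log_atTop.comp
    (tendsto_atTop_add_const_left _ _
      (Real.tendsto_log_atTop.comp (tendsto_id.atTop_div_const hr)))
  obtain ⟨R, hR1, hR2⟩ := (((hT.const_mul_atTop hε).eventually_gt_atTop
    (M - (u t - η / 2))).and (eventually_gt_atTop 1)).exists
  have hK : IsCompact (Metric.closedBall (0 : ℂ) R ∩ {l | r ≤ ‖l‖}) :=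
    (isCompact_closedBall _ _).inter_right (isClosed_le continuous_const continuous_norm)
  have h1K : (1 : ℂ) ∈ Metric.closedBall (0 : ℂ) R ∩ {l | r ≤ ‖l‖} :=
    ⟨by simpa using hR2.le, by simpa using hr1.le⟩
  have hφ : ContinuousOn (fun l : ℂ => u (t' + l • (t - t')) - ε * H ‖l‖)
      (Metric.closedBall (0 : ℂ) R ∩ {l | r ≤ ‖l‖}) := by
    refine hc.continuousOn.sub (continuousOn_const.mul (ContinuousOn.log
      (continuousOn_const.add (ContinuousOn.log (by fun_prop) fun l hl => ?_)) fun l hl => ?_))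
    · exact (div_pos (hr.trans_le hl.2) hr).ne'
    · have := Real.log_nonneg ((one_le_div hr).2 hl.2)
      linarith
  obtain ⟨l, hl, hmax⟩ := hK.exists_isMaxOn ⟨1, h1K⟩ hφ
  have h1 : u t - η / 2 ≤ u (t' + l • (t - t')) - ε * H ‖l‖ := by
    have := hmax h1K
    simp only [mem_ofPred_eq, one_smul, add_sub_cancel, norm_one, hε1] at this
    exact this
  have hlR : ‖l‖ ≤ R := by simpa using hl.1
  have hlr0 : r ≤ ‖l‖ := hl.2
  rcases hlr0.eq_or_lt with e | hlr
  · have h2 := hδ' (y := l) (by simpa [← e] using hrδ)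
    have h3 : H ‖l‖ = 0 := by simp [hH, ← e, hr.ne']
    rw [h3] at h1
    linarith
  · rcases hlR.eq_or_lt with e | hlR'
    · rw [e] at h1
      linarith [hM (t' + l • (t - t'))]
    · refine (liou_nomax hu h t' (t - t') hr hε hlr (hmax.isLocalMax ?_)).elim
      exact inter_mem (Metric.closedBall_mem_nhds_of_mem (by simpa using hlR'))
        ((continuous_norm.continuousAt.eventually (lt_mem_nhds hlr)).mono fun x hx => le_of_lt hx)

theorem psh_const {u : E n → ℝ} (hu : ContDiff ℝ ∞ u) {M : ℝ} (hM : ∀ t, u t ≤ M)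
    (h : ∀ t v : E n,
      0 ≤ (∑ a, ∑ b, v a * star (v b) * dz a (dzb b fun s => (u s : ℂ)) t).re) (t t' : E n) :
    u t = u t' := le_antisymm (liou_le hu hM h t t') (liou_le hu hM h t' t)

end Pool.Agent.SPF
end

-- part Pool.Agent.P.MP_63735c_ag.SPSect
section

/-! Norms of sections are constant along entire leaves. -/

open Set Filter Topology
open scoped ComplexOrder ContDiff Matrix

namespace Pool.Agent.SPF

variable {N n : ℕ} {X : Type} [TopologicalSpace X] {A : Atlas X N}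

section
variable {O : TopologicalSpace.Opens (E n)}

/-- The exponential of a smooth function. -/
noncomputable def sectExp (a : Sm O) : Sm O :=
  Sm.mk (fun x => Complex.exp (a.fn x)) (a.smooth.cexp)

lemma sect_ev_exp (a : Sm O) (x : O) : Sm.ev x (sectExp a) = Complex.exp (Sm.ev x a) := by
  rw [a.ev_eq]; rfl

lemma sect_der_exp (v : E n) (a : Sm O) : Sm.der v (sectExp a) = sectExp a * Sm.der v a := by
  ext x
  have := Sm.Rep.fderiv_eq (a := sectExp a) (f := fun y => Complex.exp (a.fn y))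
    (fun _ => rfl) x (a.hasF x).cexp
  rw [map_mul, Sm.ev_der, Sm.ev_der, this, sect_ev_exp, a.ev_eq]
  rfl

lemma sect_d_exp (i : Fin n) (a : Sm O) : Sm.d i (sectExp a) = sectExp a * Sm.d i a := by
  ext x
  simp only [Sm.d, Derivation.smul_apply, Derivation.sub_apply, sect_der_exp, map_smul, map_sub,
    map_mul, smul_eq_mul]
  ring

lemma sect_db_exp (i : Fin n) (a : Sm O) : Sm.db i (sectExp a) = sectExp a * Sm.db i a := by
  ext x
  simp only [Sm.db, Derivation.smul_apply, Derivation.add_apply, sect_der_exp, map_smul, map_add,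
    map_mul, smul_eq_mul]
  ring

lemma sect_d_star (i : Fin n) (a : Sm O) : Sm.d i (star a) = star (Sm.db i a) := by
  have := Sm.star_d i (star a)
  rw [star_star] at this
  rw [← this, star_star]

/-- The Levi form of `|a|^2 exp φ` for `a` holomorphic and `φ` real pluriharmonic. -/
lemma sect_levi {a φ : Sm O} (ha : ∀ i, Sm.db i a = 0) (hφ : star φ = φ)
    (h : ∀ i j, Sm.d i (Sm.db j φ) = 0) (i j : Fin n) :
    Sm.d i (Sm.db j (a * star a * sectExp φ)) =
      sectExp φ * ((Sm.d i a + a * Sm.d i φ) * star (Sm.d j a + a * Sm.d j φ)) := by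
  have h1 : ∀ i, Sm.d i (star a) = 0 := fun i => by rw [sect_d_star, ha, star_zero]
  have h2 : Sm.d i (Sm.db j (star a)) = 0 := by rw [Sm.d_db, h1, map_zero]
  have h3 : star (Sm.d j a + a * Sm.d j φ) = Sm.db j (star a) + star a * Sm.db j φ := by
    rw [star_add, star_mul', Sm.star_d, Sm.star_d, hφ]
  rw [h3]
  simp only [Derivation.leibniz, smul_eq_mul, map_add, ha, h1, h2, h, sect_d_exp, sect_db_exp,
    map_zero]
  ring

lemma sect_levi_nonneg {a φ : Sm O} (ha : ∀ i, Sm.db i a = 0) (hφ : star φ = φ)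
    (h : ∀ i j, Sm.d i (Sm.db j φ) = 0) (x : O) (v : E n) :
    0 ≤ (∑ i, ∑ j, v i * star (v j) *
      Sm.ev x (Sm.d i (Sm.db j (a * star a * sectExp φ)))).re := by
  set b : Fin n → ℂ := fun i => Sm.ev x (Sm.d i a + a * Sm.d i φ) with hb
  have h1 : ∑ i, ∑ j, v i * star (v j) * Sm.ev x (Sm.d i (Sm.db j (a * star a * sectExp φ))) =
      Complex.exp (Sm.ev x φ) * ((∑ i, v i * b i) * star (∑ j, v j * b j)) := by
    rw [star_sum, Finset.sum_mul_sum, Finset.mul_sum]
    refine Finset.sum_congr rfl fun i _ => ?_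
    rw [Finset.mul_sum]
    refine Finset.sum_congr rfl fun j _ => ?_
    rw [sect_levi ha hφ h, map_mul, map_mul, Sm.ev_star, sect_ev_exp, star_mul']
    simp only [hb]
    ring
  have h2 : Sm.ev x φ = ((Sm.ev x φ).re : ℂ) := by
    have : star (Sm.ev x φ) = Sm.ev x φ := by rw [← Sm.ev_star, hφ]
    exact (Complex.conj_eq_iff_re.1 this).symm
  rw [h1, h2, ← Complex.ofReal_exp, Complex.star_def, Complex.mul_conj, ← Complex.ofReal_mul,
    Complex.ofReal_re]
  exact mul_nonneg (Real.exp_pos _).le (Complex.normSq_nonneg _)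

end

/-- A section norm is continuous. -/
lemma sect_cont {k : ℝ} {u : X → ℝ} (hu : A.IsSectionNorm k u) : Continuous u := by
  refine continuous_iff_continuousAt.2 fun x => ?_
  obtain ⟨i, z, hz, rfl⟩ := A.cover x
  obtain ⟨O, ψ, F, hO, hzO, hsub, hψ, hF, h⟩ := hu i z hz
  have hc : ContinuousOn (fun w => u (A.p i w)) O :=
    ((hF.continuousOn.norm.pow 2).mul
      (Real.continuous_exp.comp_continuousOn (continuousOn_const.mul hψ.continuousOn))).congr
      fun w hw => (h w hw).2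
  intro V hV
  obtain ⟨V', hV', hV'o, hm⟩ := mem_nhds_iff.1 hV
  have h1 : IsOpen (O ∩ (fun w => u (A.p i w)) ⁻¹' V') := hc.isOpen_inter_preimage hO hV'o
  refine mem_map.2 (mem_nhds_iff.2 ⟨A.p i '' (O ∩ (fun w => u (A.p i w)) ⁻¹' V'), ?_,
    A.opn i _ h1 (inter_subset_left.trans hsub), z, ⟨hzO, hm⟩, rfl⟩)
  rintro _ ⟨w, hw, rfl⟩
  exact hV' hw.2

/-- The local form of a section norm along a leaf. -/
lemma sect_local {Φ : E n → X} (hΦ : A.IsLeafMap Φ) {k : ℝ} {u : X → ℝ}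
    (hu : A.IsSectionNorm k u) (t : E n) :
    ∃ (O : TopologicalSpace.Opens (E n)) (a φ : Sm O), t ∈ O ∧ (∀ i, Sm.db i a = 0) ∧
      star φ = φ ∧ (∀ i j, Sm.d i (Sm.db j φ) = 0) ∧
      (a * star a * sectExp φ).Rep fun s => (u (Φ s) : ℂ) := by
  obtain ⟨i, O₁, f, hO₁, ht, hf, h₁⟩ := hΦ t
  obtain ⟨O₂, ψ, F, hO₂, hz, -, hψ, hF, h₂⟩ := hu i (f t) (h₁ t ht).1
  let O : TopologicalSpace.Opens (E n) :=
    ⟨O₁ ∩ f ⁻¹' O₂, hf.continuousOn.isOpen_inter_preimage hO₁ hO₂⟩
  let Q : TopologicalSpace.Opens (E N) := ⟨O₂, hO₂⟩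
  have hf' : DifferentiableOn ℂ f O := hf.mono inter_subset_left
  have hm : MapsTo f O Q := fun _ hs => hs.2
  have hψ' : ContDiffOn ℝ ∞ (fun x => (ψ x : ℂ)) Q :=
    Complex.ofRealCLM.contDiff.comp_contDiffOn hψ
  let ψs : Sm Q := Sm.mk _ hψ'
  let Fs : Sm Q := Sm.mkH F hF
  have rψ : ψs.Rep fun x => (ψ x : ℂ) := Sm.rep_mk _ hψ'
  have rF : Fs.Rep F := Sm.rep_mkH F hF
  have hst : star ψs = ψs := by
    ext x
    rw [Sm.ev_star, rψ x]
    exact Complex.conj_ofReal _
  have hη : ∀ c e (x : Q), Sm.ev x (Sm.d e (Sm.db c ψs)) = (A.C i).η x e c := by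
    intro c e x
    have r1 : (Sm.db c ψs).Rep fun y => star (dz c (fun x => (ψ x : ℂ)) y) := fun y => by
      rw [← hst, ← Sm.star_d, Sm.ev_star, rψ.d c y]
    rw [r1.d e x]
    exact (h₂ x x.2).1 e c
  have hnull : ∀ (x : O) a c, ∑ e, jac f x e a * (A.C i).η (f x) e c = 0 := by
    intro x a c
    have h3 : fderiv ℂ f x (Pi.single a 1) ∈ (A.C i).null (f x) := by
      rw [← (h₁ x x.2.1).2.2.2]
      exact ⟨Pi.single a 1, rfl⟩
    exact congrFun (LinearMap.mem_ker.1 h3) c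
  have hdd : ∀ a b, Sm.d a (Sm.db b (Sm.pull f hf' hm ψs)) = 0 := by
    intro a b
    rw [Sm.db_pull, map_sum]
    refine Finset.sum_eq_zero fun c _ => ?_
    rw [Derivation.leibniz, sect_d_star, Sm.db_J, star_zero, smul_zero, add_zero, Sm.d_pull]
    have h4 : ∑ e, Sm.J f hf' e a * Sm.pull f hf' hm (Sm.d e (Sm.db c ψs)) = 0 := by
      ext x
      rw [map_sum, map_zero, ← hnull x a c]
      refine Finset.sum_congr rfl fun e _ => ?_
      rw [map_mul, Sm.ev_J, Sm.ev_pull, hη]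
    rw [h4, smul_zero]
  refine ⟨O, Sm.pull f hf' hm Fs, (-k : ℂ) • Sm.pull f hf' hm ψs, ⟨ht, hz⟩, fun j => ?_, ?_,
    fun a b => ?_, fun x => ?_⟩
  · rw [Sm.db_pull]
    refine Finset.sum_eq_zero fun c _ => ?_
    rw [rF.db_eq_zero hF c, map_zero, mul_zero]
  · ext x
    rw [Sm.ev_star, map_smul, rψ.pull hf' hm x, smul_eq_mul, ← Complex.ofReal_neg,
      ← Complex.ofReal_mul]
    exact Complex.conj_ofReal _
  · rw [Derivation.map_smul, Derivation.map_smul, hdd, smul_zero]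
  · rw [map_mul, map_mul, Sm.ev_star, sect_ev_exp, map_smul, rψ.pull hf' hm x, rF.pull hf' hm x,
      smul_eq_mul, Complex.star_def, Complex.mul_conj, ← Complex.ofReal_neg, ← Complex.ofReal_mul,
      ← Complex.ofReal_exp, ← Complex.ofReal_mul, Complex.normSq_eq_norm_sq,
      ← (h₂ (f x) x.2.2).2, (h₁ x x.2.1).2.1]

theorem Atlas.IsLeafMap.sect_const [CompactSpace X] {Φ : E n → X} (hΦ : A.IsLeafMap Φ) {k : ℝ}
    {u : X → ℝ} (hu : A.IsSectionNorm k u) (t : E n) : u (Φ t) = u (Φ 0) := by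
  obtain ⟨M, hM⟩ := (isCompact_range (sect_cont hu)).bddAbove
  refine psh_const (u := fun s => u (Φ s)) (M := M) (contDiff_iff_contDiffAt.2 fun s => ?_)
    (fun s => hM ⟨Φ s, rfl⟩) (fun s v => ?_) t 0
  · obtain ⟨O, a, φ, hs, -, -, -, hr⟩ := sect_local hΦ hu s
    exact Complex.reCLM.contDiff.contDiffAt.comp s (hr.contDiffAt ⟨s, hs⟩)
  · obtain ⟨O, a, φ, hs, ha, hφ, h, hr⟩ := sect_local hΦ hu s
    have := sect_levi_nonneg ha hφ h ⟨s, hs⟩ v
    simpa only [((hr.db _).d _) ⟨s, hs⟩] using this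

end Pool.Agent.SPF
end
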