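import Pool.Agent.K.MP_63735c_ag.C1
import Pool.Agent.P.MP_63735c_ag.CKDefs

/-! The manifold attached to an atlas and an open set. -/

open scoped ComplexOrder ContDiff Matrix Topology ENNReal
open Set Metric MeasureTheory Filter

namespace Pool.Agent.AB

open Pool.Agent.SPF

open Pool.Agent.CK

variable {N : ℕ} {Y : Type} [TopologicalSpace Y]

/-- The part of `Y` in the open set `M`. -/
def man (A : Atlas Y N) (hinj : ∀ i, InjOn (A.p i) (A.C i).W) {M : Set Y} (hM : IsOpen M) :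
    Man Y N where
  ι := A.ι
  W := fun i => (A.C i).W ∩ A.p i ⁻¹' M
  p := A.p
  isOpen := fun i => (A.cont i).isOpen_inter_preimage (A.C i).isOpen hM
  cont := fun i => (A.cont i).mono inter_subset_left
  inj := fun i => (hinj i).mono inter_subset_left
  opn := fun i O hO h => A.opn i O hO (h.trans inter_subset_left)
  trans := fun i j z hz y hy he => by
    obtain ⟨O, φ, h1, h2, h3, h4⟩ := A.trans i j z hz.1 y hy.1 he
    refine ⟨φ, h3, ?_⟩
    have h5 := ((A.cont i).isOpen_inter_preimage (A.C i).isOpen hM).mem_nhds hz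
    filter_upwards [h1.isOpen.mem_nhds h2, h5] with w hw hw'
    refine ⟨h1.hol.differentiableAt (h1.isOpen.mem_nhds hw), ⟨h1.maps hw, ?_⟩, h4 w hw⟩
    rw [mem_preimage, h4 w hw]
    exact hw'.2

variable {A : Atlas Y N} {hinj : ∀ i, InjOn (A.p i) (A.C i).W} {M : Set Y} {hM : IsOpen M}

theorem man_M : (man A hinj hM).M = M := by
  ext x
  simp only [Man.M, mem_iUnion]
  constructor
  · rintro ⟨i, z, hz, rfl⟩
    exact hz.2
  · intro hx
    obtain ⟨i, z, hz, rfl⟩ := A.cover x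
    exact ⟨i, z, ⟨hz, hx⟩, rfl⟩

theorem man_cpt {h : A.ι → E N → Mat N}
    (hh : ∀ i j O φ, IsChange (A.C i) (A.C j) O φ → (∀ w ∈ O, A.p j (φ w) = A.p i w) →
      ∀ z ∈ O, h i z = (jac φ z)ᵀ * h j (φ z) * (jac φ z).map star) :
    (man A hinj hM).Cpt h := by
  intro i j z hz φ hφ
  have h0 := hφ.self_of_nhds
  obtain ⟨O, φ', h1, h2, h3, h4⟩ := A.trans i j z hz.1 (φ z) h0.2.1.1 h0.2.2.symm
  have he : φ' =ᶠ[𝓝 z] φ := by
    filter_upwards [h1.isOpen.mem_nhds h2, hφ] with w hw hw'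
    exact hinj j (h1.maps hw) hw'.2.1.1 ((h4 w hw).trans hw'.2.2.symm)
  have hj : jac φ' z = jac φ z := by simp only [jac, he.fderiv_eq]
  rw [hh i j O φ' h1 h4 z h2, hj, h3]

theorem man_cpt_form (K : Form11 A) : (man A hinj hM).Cpt K.h := man_cpt K.compat

theorem man_cpt_eta : (man A hinj hM).Cpt fun i => (A.C i).η :=
  man_cpt fun _ _ _ _ h _ => h.η_eq

end Pool.Agent.AB
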