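import Pool.Agent.K.MP_63735c_ag.C3
import Pool.Agent.K.MP_63735c_ag.C9

/-! Simultaneous diagonalisation and matrix estimates. -/

open scoped ComplexOrder Matrix
open Set MeasureTheory

namespace Pool.Agent.HX

open Pool.Agent.SPF Pool.Agent.AB

variable {N : ℕ}

open scoped MatrixOrder in
theorem sd_frame {K : Mat N} (hK : K.PosDef) : ∃ P : Mat N, IsUnit P.det ∧ K = P * Pᴴ := by
  obtain ⟨B, hB⟩ := CStarAlgebra.nonneg_iff_eq_star_mul_self.mp hK.posSemidef.nonneg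
  have h1 := (Matrix.isUnit_iff_isUnit_det K).1 hK.isUnit
  rw [hB, Matrix.det_mul] at h1
  exact ⟨Bᴴ, isUnit_of_mul_isUnit_left h1, by rw [Matrix.conjTranspose_conjTranspose]; exact hB⟩

theorem sd_unitH {P : Mat N} (hP : IsUnit P.det) : IsUnit Pᴴ.det := by
  rw [Matrix.det_conjTranspose]
  exact hP.star

theorem sd_pull {P : Mat N} (hP : IsUnit P.det) (M : Mat N) : ∃ M₀ : Mat N, M = P * M₀ * Pᴴ :=
  ⟨P⁻¹ * M * Pᴴ⁻¹, by
    rw [← Matrix.mul_assoc, Matrix.mul_nonsing_inv_cancel_left _ _ hP,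
      Matrix.nonsing_inv_mul_cancel_right _ _ (sd_unitH hP)]⟩

theorem sd_diag {K a : Mat N} (hK : K.PosDef) (ha : a.IsHermitian) :
    ∃ (P : Mat N) (l : Fin N → ℝ), IsUnit P.det ∧ K = P * Pᴴ ∧
      a = P * Matrix.diagonal (fun i => (l i : ℂ)) * Pᴴ := by
  obtain ⟨Q, hQ, rfl⟩ := sd_frame hK
  have h1 : (Q⁻¹ * a * Q⁻¹ᴴ).IsHermitian := Matrix.isHermitian_mul_mul_conjTranspose _ ha
  have h2 := h1.spectral_theorem
  rw [Unitary.conjStarAlgAut_apply] at h2
  have h3 : (h1.eigenvectorUnitary : Mat N) * star (h1.eigenvectorUnitary : Mat N) = 1 :=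
    Unitary.coe_mul_star_self _
  have h4 : IsUnit (h1.eigenvectorUnitary : Mat N).det := by
    have h5 := congrArg Matrix.det h3
    rw [Matrix.det_mul, Matrix.det_one] at h5
    exact IsUnit.of_mul_eq_one _ h5
  have h6 : Matrix.diagonal (RCLike.ofReal ∘ h1.eigenvalues) =
    Matrix.diagonal (fun i => (h1.eigenvalues i : ℂ)) := rfl
  rw [h6] at h2
  generalize h1.eigenvalues = l at h2
  generalize (h1.eigenvectorUnitary : Mat N) = U at h2 h3 h4
  rw [Matrix.star_eq_conjTranspose] at h2 h3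
  refine ⟨Q * U, l, by rw [Matrix.det_mul]; exact hQ.mul h4, ?_, ?_⟩
  · rw [Matrix.conjTranspose_mul, Matrix.mul_assoc, ← Matrix.mul_assoc U, h3, Matrix.one_mul]
  · have h7 : Q * (Q⁻¹ * a * Q⁻¹ᴴ) * Qᴴ = a := by
      rw [Matrix.conjTranspose_nonsing_inv, ← Matrix.mul_assoc,
        Matrix.mul_nonsing_inv_cancel_left _ _ hQ,
        Matrix.nonsing_inv_mul_cancel_right _ _ (sd_unitH hQ)]
    rw [← h7, h2, Matrix.conjTranspose_mul]
    simp only [Matrix.mul_assoc]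

theorem hq_cong (P M : Mat N) (u v : E N) : hq (P * M * Pᴴ) u v = hq M (u ᵥ* P) (v ᵥ* P) := by
  rw [hq, hq, Matrix.star_vecMul, ← Matrix.mulVec_mulVec, ← Matrix.mulVec_mulVec,
    Matrix.dotProduct_mulVec]

theorem hq_diag (l : Fin N → ℝ) (u : E N) :
    (hq (Matrix.diagonal fun i => (l i : ℂ)) u u).re = ∑ i, l i * ‖u i‖ ^ 2 := by
  rw [hq, dotProduct, Complex.re_sum]
  refine Finset.sum_congr rfl fun i _ => ?_
  rw [Matrix.mulVec_diagonal, Pi.star_apply, mul_left_comm, Complex.star_def, Complex.mul_conj',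
    ← Complex.ofReal_pow, ← Complex.ofReal_mul, Complex.ofReal_re]

theorem hq_frame (P : Mat N) (u : E N) : (hq (P * Pᴴ) u u).re = ∑ i, ‖(u ᵥ* P) i‖ ^ 2 := by
  have h1 := hq_cong P (Matrix.diagonal fun _ => ((1 : ℝ) : ℂ)) u u
  rw [Complex.ofReal_one, Matrix.diagonal_one, Matrix.mul_one] at h1
  have h2 := hq_diag (fun _ => 1) (u ᵥ* P)
  simp only [Complex.ofReal_one, Matrix.diagonal_one, one_mul] at h2
  rw [h1, h2]

theorem inv_cong {P : Mat N} (hP : IsUnit P.det) (M : Mat N) :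
    (P * Pᴴ)⁻¹ * (P * M * Pᴴ) = Pᴴ⁻¹ * M * Pᴴ := by
  rw [Matrix.mul_inv_rev, Matrix.mul_assoc, Matrix.mul_assoc P,
    Matrix.nonsing_inv_mul_cancel_left _ _ hP, Matrix.mul_assoc]

theorem trK_cong {P : Mat N} (hP : IsUnit P.det) (M : Mat N) :
    trK (P * Pᴴ) (P * M * Pᴴ) = M.trace := by
  rw [trK, inv_cong hP, Matrix.trace_mul_comm,
    Matrix.mul_nonsing_inv_cancel_left _ _ (sd_unitH hP)]

theorem tr2_cong {P : Mat N} (hP : IsUnit P.det) (M M' : Mat N) :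
    tr2 (P * Pᴴ) (P * M * Pᴴ) (P * M' * Pᴴ) = (M * M').trace := by
  rw [tr2, inv_cong hP, inv_cong hP, Matrix.mul_assoc _ Pᴴ, Matrix.mul_assoc _ M',
    Matrix.mul_nonsing_inv_cancel_left _ _ (sd_unitH hP), ← Matrix.mul_assoc,
    Matrix.trace_mul_comm, Matrix.mul_assoc _ M,
    Matrix.mul_nonsing_inv_cancel_left _ _ (sd_unitH hP)]

theorem hsK_cong {P : Mat N} (hP : IsUnit P.det) (M : Mat N) :
    hsK (P * Pᴴ) (P * M * Pᴴ) = ∑ i, ∑ j, ‖M i j‖ ^ 2 := by
  rw [hsK, Matrix.conjTranspose_mul, Matrix.conjTranspose_mul, Matrix.conjTranspose_conjTranspose,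
    ← Matrix.mul_assoc, tr2_cong hP, Matrix.trace, Complex.re_sum]
  refine Finset.sum_congr rfl fun i _ => ?_
  rw [Matrix.diag_apply, Matrix.mul_apply, Complex.re_sum]
  refine Finset.sum_congr rfl fun j _ => ?_
  rw [Matrix.conjTranspose_apply, Complex.star_def, Complex.mul_conj', ← Complex.ofReal_pow,
    Complex.ofReal_re]

theorem det_frame (P : Mat N) : (P * Pᴴ).det = P.det * star P.det := by
  rw [Matrix.det_mul, Matrix.det_conjTranspose]

theorem det_re {K : Mat N} (hK : K.IsHermitian) : (K.det.re : ℂ) = K.det := by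
  have h1 : star K.det = K.det := by rw [← Matrix.det_conjTranspose, hK.eq]
  exact Complex.conj_eq_iff_re.1 h1

theorem det_re_pos {K : Mat N} (hK : K.PosDef) : 0 < K.det.re := (Complex.pos_iff.1 hK.det_pos).1

theorem det_re_nonneg {K : Mat N} (hK : K.PosSemidef) : 0 ≤ K.det.re :=
  (Complex.nonneg_iff.1 hK.det_nonneg).1

/-- Simultaneous diagonalisation. -/
theorem sd {K a : Mat N} (hK : K.PosDef) (ha : a.IsHermitian) : ∃ l : Fin N → ℝ,
    (∀ r s : ℝ, ((r : ℂ) • K + (s : ℂ) • a).det.re = K.det.re * ∏ i, (r + s * l i)) ∧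
    trK K a = ((∑ i, l i : ℝ) : ℂ) ∧ tr2 K a a = ((∑ i, l i ^ 2 : ℝ) : ℂ) ∧
    (∀ i, ∃ v, (hq K v v).re = 1 ∧ (hq a v v).re = l i) ∧
    ∀ (V : Submodule ℂ (E N)) (c : ℝ), (∀ v ∈ V, c * (hq K v v).re ≤ (hq a v v).re) →
      Module.finrank ℂ V ≤ (Finset.univ.filter fun i => c ≤ l i).card := by
  obtain ⟨P, l, hP, rfl, rfl⟩ := sd_diag hK ha
  refine ⟨l, fun r s => ?_, ?_, ?_, fun i => ?_, fun V c hV => ?_⟩
  · have h1 : (r : ℂ) • (P * Pᴴ) + (s : ℂ) • (P * Matrix.diagonal (fun i => (l i : ℂ)) * Pᴴ) =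
        P * Matrix.diagonal (fun i => ((r + s * l i : ℝ) : ℂ)) * Pᴴ := by
      have h2 : Matrix.diagonal (fun i => ((r + s * l i : ℝ) : ℂ)) =
          (r : ℂ) • (1 : Mat N) + (s : ℂ) • Matrix.diagonal (fun i => (l i : ℂ)) := by
        ext i j
        by_cases h : i = j
        · subst h
          simp
        · simp [h]
      rw [h2, Matrix.mul_add, Matrix.add_mul, Matrix.mul_smul, Matrix.mul_smul, Matrix.smul_mul,
        Matrix.smul_mul, Matrix.mul_one]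
    rw [h1, Matrix.det_mul, Matrix.det_mul, Matrix.det_diagonal, mul_right_comm,
      ← Matrix.det_mul, ← Complex.ofReal_prod, Complex.re_mul_ofReal]
  · rw [trK_cong hP, Matrix.trace_diagonal, Complex.ofReal_sum]
  · rw [tr2_cong hP, Matrix.diagonal_mul_diagonal, Matrix.trace_diagonal, Complex.ofReal_sum]
    exact Finset.sum_congr rfl fun i _ => by rw [Complex.ofReal_pow, sq]
  · have h1 : (Pi.single i (1 : ℂ) : E N) ᵥ* P⁻¹ ᵥ* P = Pi.single i 1 := by
      rw [Matrix.vecMul_vecMul, Matrix.nonsing_inv_mul _ hP, Matrix.vecMul_one]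
    refine ⟨Pi.single i 1 ᵥ* P⁻¹, ?_, ?_⟩
    · rw [hq_frame, h1, Finset.sum_eq_single i (fun j _ h => by simp [h]) (by simp)]
      simp
    · rw [hq_cong, h1, hq_diag, Finset.sum_eq_single i (fun j _ h => by simp [h]) (by simp)]
      simp
  · let φ : V →ₗ[ℂ] ({i // c ≤ l i} → ℂ) :=
      (LinearMap.funLeft ℂ ℂ Subtype.val).comp ((Matrix.vecMulLinear P).comp V.subtype)
    have h1 : Function.Injective φ := by
      refine (injective_iff_map_eq_zero φ).2 fun v hv => ?_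
      have h2 := hV v v.2
      rw [hq_frame, hq_cong, hq_diag, Finset.mul_sum, ← sub_nonpos, ← Finset.sum_sub_distrib] at h2
      have h3 : ∀ i, c ≤ l i → ((v : E N) ᵥ* P) i = 0 := fun i hi => congrFun hv ⟨i, hi⟩
      have h4 : ∀ i ∈ Finset.univ, 0 ≤ c * ‖((v : E N) ᵥ* P) i‖ ^ 2 -
          l i * ‖((v : E N) ᵥ* P) i‖ ^ 2 := fun i _ => by
        rcases le_or_gt c (l i) with h | h
        · simp [h3 i h]
        · exact sub_nonneg.2 (mul_le_mul_of_nonneg_right h.le (sq_nonneg _))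
      have h5 := (Finset.sum_eq_zero_iff_of_nonneg h4).1 (le_antisymm h2 (Finset.sum_nonneg h4))
      have h6 : (v : E N) ᵥ* P = 0 := funext fun i => by
        rcases le_or_gt c (l i) with h | h
        · exact h3 i h
        · have h7 := h5 i (Finset.mem_univ i)
          rw [← sub_mul, mul_eq_zero] at h7
          simpa using h7.resolve_left (sub_ne_zero.2 h.ne')
      have h8 := congrArg (· ᵥ* P⁻¹) h6
      simp only [Matrix.vecMul_vecMul, Matrix.mul_nonsing_inv _ hP, Matrix.vecMul_one,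
        Matrix.zero_vecMul] at h8
      exact Subtype.ext h8
    have h9 := LinearMap.finrank_le_finrank_of_injective h1
    rwa [Module.finrank_fintype_fun_eq_card, Fintype.card_subtype] at h9

theorem psd_of_hq {a : Mat N} (ha : a.IsHermitian) (h : ∀ v, 0 ≤ (hq a v v).re) :
    a.PosSemidef := by
  refine Matrix.PosSemidef.of_dotProduct_mulVec_nonneg ha fun x => ?_
  have h1 := h (star x)
  have h2 := Complex.conj_eq_iff_im.1 (hq_herm ha (star x) (star x))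
  rw [hq, star_star] at h1 h2
  exact Complex.nonneg_iff.2 ⟨h1, h2.symm⟩

theorem det_abs_le {K a : Mat N} (hK : K.PosDef) (ha : a.IsHermitian) {C : ℝ} (h : Dom K a C) :
    |a.det.re| ≤ C ^ N * K.det.re := by
  obtain ⟨l, h1, -, -, h2, -⟩ := sd hK ha
  have h3 := h1 0 1
  simp only [Complex.ofReal_zero, zero_smul, Complex.ofReal_one, one_smul, zero_add, one_mul] at h3
  rw [h3, abs_mul, abs_of_pos (det_re_pos hK), mul_comm, Finset.abs_prod]
  refine mul_le_mul_of_nonneg_right ?_ (det_re_pos hK).le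
  refine (Finset.prod_le_prod (g := fun _ => C) (fun i _ => abs_nonneg _) fun i _ => ?_).trans
    (by simp)
  obtain ⟨v, e1, e2⟩ := h2 i
  have h4 := h v
  rwa [e1, e2, mul_one] at h4

theorem det_le {K a : Mat N} (hK : K.PosDef) (ha : a.PosSemidef) {C : ℝ} (h : Le a K C) :
    a.det.re ≤ C ^ N * K.det.re :=
  (le_abs_self _).trans (det_abs_le hK ha.1 fun v => by
    rw [abs_of_nonneg (hq_nonneg ha v)]
    exact h v)

theorem det_mono {K K' : Mat N} (hK : K.PosSemidef) (hK' : K'.IsHermitian) (h : Le K K' 1) :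
    K.det.re ≤ K'.det.re := by
  have h0 : ∀ v, (hq K v v).re ≤ (hq K' v v).re := fun v => by simpa using h v
  by_cases hd : K.det = 0
  · rw [hd, Complex.zero_re]
    exact det_re_nonneg (psd_of_hq hK' fun v => (hq_nonneg hK v).trans (h0 v))
  · have h1 := hK.posDef_iff_det_ne_zero.2 hd
    simpa using det_le (posDef_of_hq hK' fun v hv => (hq_pos h1 hv).trans_le (h0 v)) hK h

/-- A lower bound from a subspace on which `η` is positive. -/
theorem det_lower {K η : Mat N} (hK : K.PosDef) (hη : η.PosSemidef) (V : Submodule ℂ (E N))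
    {n : ℕ} (hn : n ≤ Module.finrank ℂ V) {c t : ℝ} (hc : 0 ≤ c) (ht : 0 ≤ t)
    (hV : ∀ v ∈ V, c * (hq K v v).re ≤ (hq η v v).re) :
    c ^ n * t ^ (N - n) * K.det.re ≤ (η + (t : ℂ) • K).det.re := by
  obtain ⟨l, h1, -, -, h2, h3⟩ := sd hK hη.1
  have h4 := h1 t 1
  rw [Complex.ofReal_one, one_smul, add_comm] at h4
  have h5 : ∀ i, 0 ≤ l i := fun i => by
    obtain ⟨v, -, e2⟩ := h2 i
    exact e2 ▸ hq_nonneg hη v
  obtain ⟨S, hS, rfl⟩ := Finset.exists_subset_card_eq (hn.trans (h3 V c hV))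
  rw [h4, mul_comm]
  refine mul_le_mul_of_nonneg_left ?_ (det_re_pos hK).le
  rw [← Finset.prod_mul_prod_compl S]
  refine mul_le_mul ?_ ?_ (by positivity) (Finset.prod_nonneg fun i _ => by linarith [h5 i])
  · rw [← Finset.prod_const]
    exact Finset.prod_le_prod (fun _ _ => hc) fun i hi => by
      linarith [(Finset.mem_filter.1 (hS hi)).2]
  · have h6 : Sᶜ.card = N - S.card := by rw [Finset.card_compl, Fintype.card_fin]
    rw [← h6, ← Finset.prod_const]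
    exact Finset.prod_le_prod (fun _ _ => ht) fun i _ => by linarith [h5 i]

theorem hsK_nonneg {K : Mat N} (hK : K.PosDef) (M : Mat N) : 0 ≤ hsK K M := by
  obtain ⟨P, hP, rfl⟩ := sd_frame hK
  obtain ⟨M, rfl⟩ := sd_pull hP M
  rw [hsK_cong hP]
  positivity

theorem trK_star {K : Mat N} (hK : K.IsHermitian) (M : Mat N) : trK K Mᴴ = star (trK K M) := by
  rw [trK, trK, ← Matrix.trace_conjTranspose, Matrix.conjTranspose_mul, hK.inv.eq,
    Matrix.trace_mul_comm]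

theorem sd_hsK_eq {K : Mat N} (hK : K.IsHermitian) (M : Mat N) :
    hsK K M = ‖trK K M‖ ^ 2 - (bK K M Mᴴ).re := by
  rw [hsK, bK, trK_star hK, Complex.star_def, Complex.mul_conj', Complex.sub_re,
    ← Complex.ofReal_pow, Complex.ofReal_re, sub_sub_cancel]

theorem trK_sq_le {K : Mat N} (hK : K.PosDef) (M : Mat N) : ‖trK K M‖ ^ 2 ≤ N * hsK K M := by
  obtain ⟨P, hP, rfl⟩ := sd_frame hK
  obtain ⟨M, rfl⟩ := sd_pull hP M
  rw [hsK_cong hP, trK_cong hP]
  calc ‖M.trace‖ ^ 2 ≤ (∑ i, ‖M i i‖) ^ 2 := by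
        gcongr
        exact norm_sum_le _ _
    _ ≤ N * ∑ i, ‖M i i‖ ^ 2 := by
        simpa using sq_sum_le_card_mul_sum_sq (s := Finset.univ) (f := fun i => ‖M i i‖)
    _ ≤ _ := by
        gcongr with i
        exact Finset.single_le_sum (f := fun j => ‖M i j‖ ^ 2) (fun _ _ => sq_nonneg _)
          (Finset.mem_univ i)

theorem hq_sq_le {K : Mat N} (hK : K.PosDef) (M : Mat N) (u v : E N) :
    ‖hq M u v‖ ^ 2 ≤ hsK K M * (hq K u u).re * (hq K v v).re := by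
  obtain ⟨P, hP, rfl⟩ := sd_frame hK
  obtain ⟨M, rfl⟩ := sd_pull hP M
  rw [hsK_cong hP, hq_cong, hq_frame, hq_frame, hq_sum_eq]
  generalize u ᵥ* P = x
  generalize v ᵥ* P = y
  rw [mul_assoc, Finset.sum_mul_sum, ← Finset.sum_product', ← Finset.sum_product',
    ← Finset.sum_product']
  refine le_trans ?_ ((Finset.sum_mul_sq_le_sq_mul_sq (Finset.univ ×ˢ Finset.univ)
    (fun p : Fin N × Fin N => ‖M p.1 p.2‖) fun p => ‖x p.1‖ * ‖y p.2‖).trans_eq
    (by simp only [mul_pow]))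
  gcongr
  refine (norm_sum_le _ _).trans_eq (Finset.sum_congr rfl fun p _ => ?_)
  rw [norm_mul, norm_mul, norm_star]
  ring

theorem tr2_sq_le {K : Mat N} (hK : K.PosDef) (M M' : Mat N) :
    ‖tr2 K M M'‖ ^ 2 ≤ hsK K M * hsK K M' := by
  obtain ⟨P, hP, rfl⟩ := sd_frame hK
  obtain ⟨M, rfl⟩ := sd_pull hP M
  obtain ⟨M', rfl⟩ := sd_pull hP M'
  have h1 : (M * M').trace = ∑ i, ∑ j, M i j * M' j i := rfl
  rw [hsK_cong hP, hsK_cong hP, tr2_cong hP, h1, Finset.sum_comm (f := fun i j => ‖M' i j‖ ^ 2),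
    ← Finset.sum_product', ← Finset.sum_product', ← Finset.sum_product']
  refine le_trans ?_ (Finset.sum_mul_sq_le_sq_mul_sq _ (fun p : Fin N × Fin N => ‖M p.1 p.2‖)
    fun p => ‖M' p.2 p.1‖)
  gcongr
  exact (norm_sum_le _ _).trans_eq (Finset.sum_congr rfl fun p _ => norm_mul _ _)

theorem hsK_add_le {K : Mat N} (hK : K.PosDef) (M M' : Mat N) :
    hsK K (M + M') ≤ 2 * hsK K M + 2 * hsK K M' := by
  obtain ⟨P, hP, rfl⟩ := sd_frame hK
  obtain ⟨M, rfl⟩ := sd_pull hP M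
  obtain ⟨M', rfl⟩ := sd_pull hP M'
  rw [← Matrix.add_mul, ← Matrix.mul_add, hsK_cong hP, hsK_cong hP, hsK_cong hP]
  simp only [Finset.mul_sum, ← Finset.sum_add_distrib]
  gcongr with i _ j
  have h1 : ‖(M + M') i j‖ ≤ ‖M i j‖ + ‖M' i j‖ := norm_add_le _ _
  nlinarith [norm_nonneg ((M + M') i j), sq_nonneg (‖M i j‖ - ‖M' i j‖)]

/-- The squared norm of a matrix of rank one. -/
theorem hsK_vec {K : Mat N} (hK : K.PosDef) (α β : E N) : hsK K (Matrix.vecMulVec (star α) β) =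
    (hq K (α ᵥ* K⁻¹) (α ᵥ* K⁻¹)).re * (hq K (β ᵥ* K⁻¹) (β ᵥ* K⁻¹)).re := by
  obtain ⟨P, hP, rfl⟩ := sd_frame hK
  have h1 : ∀ γ : E N, γ ᵥ* (P * Pᴴ)⁻¹ ᵥ* P = γ ᵥ* Pᴴ⁻¹ := fun γ => by
    rw [Matrix.vecMul_vecMul, Matrix.mul_inv_rev, Matrix.nonsing_inv_mul_cancel_right _ _ hP]
  have h2 : ∀ γ : E N, γ ᵥ* Pᴴ⁻¹ ᵥ* Pᴴ = γ := fun γ => by
    rw [Matrix.vecMul_vecMul, Matrix.nonsing_inv_mul _ (sd_unitH hP), Matrix.vecMul_one]
  have h3 : Matrix.vecMulVec (star α) β =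
      P * Matrix.vecMulVec (star (α ᵥ* Pᴴ⁻¹)) (β ᵥ* Pᴴ⁻¹) * Pᴴ := by
    rw [Matrix.mul_vecMulVec, Matrix.vecMulVec_mul, h2]
    conv_lhs => rw [← h2 α, Matrix.star_vecMul, Matrix.conjTranspose_conjTranspose]
  rw [h3, hsK_cong hP, hq_frame, hq_frame, h1, h1, Finset.sum_mul_sum]
  simp only [Matrix.vecMulVec_apply, norm_mul, Pi.star_apply, norm_star, mul_pow]

theorem dom_bounds {K a : Mat N} (hK : K.PosDef) (ha : a.IsHermitian) {C : ℝ} (h : Dom K a C) :
    ‖trK K a‖ ≤ N * C ∧ hsK K a ≤ N * C ^ 2 ∧ ‖bK K a a‖ ≤ (N ^ 2 + N) * C ^ 2 := by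
  obtain ⟨l, -, h1, h2, h3, -⟩ := sd hK ha
  have h4 : ∀ i, |l i| ≤ C := fun i => by
    obtain ⟨v, e1, e2⟩ := h3 i
    have h5 := h v
    rwa [e1, e2, mul_one] at h5
  have h6 : ‖trK K a‖ ≤ N * C := by
    rw [h1, Complex.norm_real, Real.norm_eq_abs]
    exact (Finset.abs_sum_le_sum_abs _ _).trans
      ((Finset.sum_le_sum fun i _ => h4 i).trans (by simp))
  have h7 : ∑ i, l i ^ 2 ≤ N * C ^ 2 :=
    (Finset.sum_le_sum fun i _ => sq_le_sq' (abs_le.1 (h4 i)).1 (abs_le.1 (h4 i)).2).trans (by simp)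
  refine ⟨h6, by rwa [hsK, ha.eq, h2, Complex.ofReal_re], (norm_sub_le _ _).trans ?_⟩
  rw [norm_mul, h2, Complex.norm_real, Real.norm_of_nonneg (by positivity)]
  nlinarith [norm_nonneg (trK K a)]

theorem trK_im {K a : Mat N} (hK : K.IsHermitian) (ha : a.IsHermitian) :
    ((trK K a).re : ℂ) = trK K a := by
  have h1 := trK_star hK a
  rw [ha.eq] at h1
  exact Complex.conj_eq_iff_re.1 h1.symm

/-- A semipositive form is at most its trace. -/
theorem psd_bounds {K a : Mat N} (hK : K.PosDef) (ha : a.PosSemidef) :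
    0 ≤ (trK K a).re ∧ Le a K (trK K a).re ∧ 0 ≤ (bK K a a).re := by
  obtain ⟨P, l, hP, rfl, rfl⟩ := sd_diag hK ha.1
  have h1 : ∀ i, 0 ≤ l i := fun i => by
    have h2 := hq_nonneg ha (Pi.single i 1 ᵥ* P⁻¹)
    rw [hq_cong, Matrix.vecMul_vecMul, Matrix.nonsing_inv_mul _ hP, Matrix.vecMul_one, hq_diag,
      Finset.sum_eq_single i (fun j _ h => by simp [h]) (by simp)] at h2
    simpa using h2
  have h3 : trK (P * Pᴴ) (P * Matrix.diagonal (fun i => (l i : ℂ)) * Pᴴ) = ((∑ i, l i : ℝ) : ℂ) := by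
    rw [trK_cong hP, Matrix.trace_diagonal, Complex.ofReal_sum]
  refine ⟨?_, fun v => ?_, ?_⟩
  · rw [h3, Complex.ofReal_re]
    exact Finset.sum_nonneg fun i _ => h1 i
  · rw [h3, Complex.ofReal_re, hq_cong, hq_diag, hq_frame, Finset.mul_sum]
    gcongr with i
    exact Finset.single_le_sum (fun j _ => h1 j) (Finset.mem_univ i)
  · rw [bK, h3, tr2_cong hP, Matrix.diagonal_mul_diagonal, Matrix.trace_diagonal]
    simp only [← Complex.ofReal_mul, ← Complex.ofReal_sum, ← Complex.ofReal_sub, Complex.ofReal_re]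
    simp only [← sq, sub_nonneg]
    exact Finset.sum_sq_le_sq_sum_of_nonneg fun i _ => h1 i

end Pool.Agent.HX
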