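import Pool.Agent.K.MP_63735c_ag.C56
import Pool.Agent.K.MP_63735c_ag.C48

/-! The pointwise estimate for the corrected form. -/

open scoped ComplexOrder ContDiff Matrix Topology ENNReal
open Set Metric MeasureTheory Filter

namespace Pool.Agent.HX

open Pool.Agent.SPF Pool.Agent.AB

variable {N m : ℕ}

theorem est_cs {K : Mat N} (hK : K.PosDef) (u v : E N) :
    ‖hq K u v‖ ^ 2 ≤ (hq K u u).re * (hq K v v).re := by
  obtain ⟨P, -, rfl⟩ := sd_frame hK
  have := hq_cong P 1 u v
  rw [mul_one] at this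
  rw [hq_frame, hq_frame, this, hq, Matrix.one_mulVec]
  refine le_trans (pow_le_pow_left₀ (norm_nonneg _) (norm_sum_le _ _) 2) ?_
  simp only [norm_mul, Pi.star_apply, norm_star]
  exact Finset.sum_mul_sq_le_sq_mul_sq _ _ _

theorem est_pt {K : E N → Mat N} {a : Mat N} {z : E N} (hK : (K z).PosDef) (ha : a.IsHermitian)
    {τ : Fin m → E N → ℝ} {w : Fin m → E N → ℂ} {w₀ : E N → ℂ}
    (hτ : ∀ k, ContDiffAt ℝ ∞ (τ k) z) (hw : ∀ k, ContDiffAt ℝ ∞ (w k) z)
    (hw₀ : ContDiffAt ℝ ∞ w₀ z) (h0 : ∀ k, 0 ≤ τ k z) (h1 : ∀ᶠ y in 𝓝 z, ∑ k, τ k y = 1)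
    (u v : E N) : (CK.ev11 a u v + dform (bet τ w fun y => y) z u v) ^ 2 ≤
      (8 * ∑ k, τ k z * hsK (K z) (a + lc (w k) z) + 32 * m * ∑ k,
        (hq (K z) (grad K (fun y => (τ k y : ℂ)) z) (grad K (fun y => (τ k y : ℂ)) z)).re *
        (hq (K z) (grad K (fun y => w k y - w₀ y) z) (grad K (fun y => w k y - w₀ y) z)).re) *
      (hq (K z) u u).re * (hq (K z) v v).re := by
  have d1 := fun k => (hτ k).differentiableAt (by simp)
  have d2 : ∀ u, ∑ k, fderiv ℝ (τ k) z u = 0 := fun u => by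
    have := (HasFDerivAt.fun_sum fun k (_ : k ∈ Finset.univ) => (d1 k).hasFDerivAt).unique
      ((hasFDerivAt_const (1 : ℝ) z).congr_of_eventuallyEq h1)
    simpa using DFunLike.congr_fun this u
  have d3 : ∀ k v, dcf (w k) z v = dcf w₀ z v +
      (hq (K z) v (grad K (fun y => w k y - w₀ y) z)).im := fun k v => by
    rw [grad, hq_dual hK, db_sub ((hw k).differentiableAt (by simp))
      (hw₀.differentiableAt (by simp)), dcf_apply, dcf_apply]
    simp only [dotProduct, Complex.im_sum, ← Finset.sum_neg_distrib, ← Finset.sum_add_distrib]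
    refine Finset.sum_congr rfl fun a _ => ?_
    simp
    ring
  have hq_hs : ∀ M u v, (hq M u v).im ^ 2 ≤ hsK (K z) M * (hq (K z) u u).re * (hq (K z) v v).re :=
    fun M u v => (sq_le_sq' (abs_le.1 (Complex.abs_im_le_norm _)).1
      (abs_le.1 (Complex.abs_im_le_norm _)).2).trans (hq_sq_le hK M u v)
  have hq_re : ∀ u v, (hq (K z) u v).re ^ 2 ≤ (hq (K z) u u).re * (hq (K z) v v).re :=
    fun u v => (sq_le_sq' (abs_le.1 (Complex.abs_re_le_norm _)).1
      (abs_le.1 (Complex.abs_re_le_norm _)).2).trans (est_cs hK u v)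
  have hq_im : ∀ u v, (hq (K z) u v).im ^ 2 ≤ (hq (K z) u u).re * (hq (K z) v v).re :=
    fun u v => (sq_le_sq' (abs_le.1 (Complex.abs_im_le_norm _)).1
      (abs_le.1 (Complex.abs_im_le_norm _)).2).trans (est_cs hK u v)
  have d4 : ∀ k u, fderiv ℝ (τ k) z u = 2 * (hq (K z) u (grad K (fun y => (τ k y : ℂ)) z)).re :=
    fun k u => by rw [grad, hq_dual hK, fderiv_real _ (d1 k), star_db]
  have hu := hq_nonneg hK.posSemidef u
  have hv := hq_nonneg hK.posSemidef v
  have e1 := Finset.sum_sq_le_sum_mul_sum_of_sq_le_mul Finset.univ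
    (r := fun k => τ k z * ((hq (a + lc (w k) z) v u).im - (hq (a + lc (w k) z) u v).im))
    (f := fun k => τ k z) (g := fun k => τ k z * hsK (K z) (a + lc (w k) z) *
      (4 * ((hq (K z) u u).re * (hq (K z) v v).re))) (fun k _ => h0 k)
    (fun k _ => mul_nonneg (mul_nonneg (h0 k) (hsK_nonneg hK _)) (by positivity)) fun k _ => by
      have a1 := hq_hs (a + lc (w k) z) u v
      have a2 := hq_hs (a + lc (w k) z) v u
      have a3 : ((hq (a + lc (w k) z) v u).im - (hq (a + lc (w k) z) u v).im) ^ 2 ≤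
          hsK (K z) (a + lc (w k) z) * (4 * ((hq (K z) u u).re * (hq (K z) v v).re)) := by
        nlinarith [sq_nonneg ((hq (a + lc (w k) z) v u).im + (hq (a + lc (w k) z) u v).im)]
      nlinarith [mul_le_mul_of_nonneg_left a3 (sq_nonneg (τ k z))]
  generalize hg : (fun k => grad K (fun y => (τ k y : ℂ)) z) = g at d4
  generalize hγ : (fun k => grad K (fun y => w k y - w₀ y) z) = γ at d3
  simp only [fun k => congrFun hg k, fun k => congrFun hγ k] at d3 d4 ⊢
  have e2 := Finset.sum_sq_le_sum_mul_sum_of_sq_le_mul Finset.univ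
    (r := fun k => fderiv ℝ (τ k) z u * (hq (K z) v (γ k)).im -
      fderiv ℝ (τ k) z v * (hq (K z) u (γ k)).im) (f := fun _ => 1)
    (g := fun k => (hq (K z) (g k) (g k)).re * (hq (K z) (γ k) (γ k)).re *
      (16 * ((hq (K z) u u).re * (hq (K z) v v).re))) (fun k _ => zero_le_one)
    (fun k _ => mul_nonneg (mul_nonneg (hq_nonneg hK.posSemidef _) (hq_nonneg hK.posSemidef _))
      (by positivity)) fun k _ => by
      have a1 := mul_le_mul (hq_re u (g k)) (hq_im v (γ k)) (sq_nonneg _)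
        (mul_nonneg hu (hq_nonneg hK.posSemidef _))
      have a2 := mul_le_mul (hq_re v (g k)) (hq_im u (γ k)) (sq_nonneg _)
        (mul_nonneg hv (hq_nonneg hK.posSemidef _))
      rw [d4, d4]
      nlinarith [sq_nonneg ((hq (K z) u (g k)).re * (hq (K z) v (γ k)).im +
        (hq (K z) v (g k)).re * (hq (K z) u (γ k)).im)]
  have h2 := h1.self_of_nhds
  have e3 : CK.ev11 a u v + dform (bet τ w fun y => y) z u v =
      ∑ k, τ k z * ((hq (a + lc (w k) z) v u).im - (hq (a + lc (w k) z) u v).im) +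
        ∑ k, (fderiv ℝ (τ k) z u * (hq (K z) v (γ k)).im -
          fderiv ℝ (τ k) z v * (hq (K z) u (γ k)).im) := by
    rw [dform_bet hτ hw, ev11_eq ha, ← one_mul (-_ + _), ← h2]
    simp only [fun k => dform_dcf (hw k), d3, hq_add, Complex.add_im, mul_add, mul_sub,
      Finset.sum_add_distrib, Finset.sum_sub_distrib, ← Finset.sum_mul, d2, zero_mul, mul_neg,
      Finset.sum_neg_distrib]
    ring
  rw [h2, ← Finset.sum_mul] at e1
  rw [← Finset.sum_mul, Finset.sum_const, Finset.card_univ, Fintype.card_fin, nsmul_eq_mul] at e2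
  rw [e3]
  nlinarith [sq_nonneg (∑ k, τ k z * ((hq (a + lc (w k) z) v u).im - (hq (a + lc (w k) z) u v).im) -
    ∑ k, (fderiv ℝ (τ k) z u * (hq (K z) v (γ k)).im - fderiv ℝ (τ k) z v * (hq (K z) u (γ k)).im))]

end Pool.Agent.HX
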