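import Pool.Agent.K.MP_63735c_ag.C57
import Pool.Agent.K.MP_63735c_ag.C58

-- part Pool.Agent.P.MP_63735c_ag.HXKE
section

/-! The global estimate for the corrected form. -/

open scoped ComplexOrder ContDiff Matrix Topology ENNReal
open Set Metric MeasureTheory Filter

namespace Pool.Agent.HX

open Pool.Agent.SPF Pool.Agent.AB

variable {N : ℕ} {Y : Type} [TopologicalSpace Y] [MeasurableSpace Y] [BorelSpace Y] [T2Space Y]

omit [MeasurableSpace Y] [BorelSpace Y] [T2Space Y] in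
theorem ke_sum {D : Man Y N} {κ : Type} (s : Finset κ) {f : κ → Y → ℝ} (hf : ∀ k, D.Cc (f k)) :
    D.Cc fun x => ∑ k ∈ s, f k x := by
  classical
  induction s using Finset.induction_on with
  | empty => simpa only [Finset.sum_empty] using Man.S.zero.cc
  | insert a s ha ih => simpa only [Finset.sum_insert ha] using (hf a).add ih

namespace KD

variable {D : KD Y N}

theorem est_of {a : D.ι → E N → Mat N} (ha : Frm D.toMan a) {C₀ : Set Y} {m : ℕ}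
    {τ : Fin m → Y → ℝ} {W : Fin m → Y → ℂ} {w : Y → ℂ}
    (h1 : ∀ k, D.S (τ k) ∧ D.S (W k) ∧ ∀ x, 0 ≤ τ k x) (hw : D.S w)
    (h2 : ∀ x ∈ C₀, ∀ᶠ y in 𝓝 x, ∑ k, τ k y = 1) : ∃ Φ, Est D.toMan a D.K C₀ τ W Φ ∧
      ∫ x, Φ x ∂D.ν = 8 * ∑ k, ∫ x, τ k x * D.hs (fun i z => a i z + lcG D.toMan (W k) i z) x ∂D.ν +
        32 * (m * ∑ k, ∫ x, (D.Gam D.K (fun y => (τ k y : ℂ)) (fun y => (τ k y : ℂ)) x).re *
          (D.Gam D.K (fun y => W k y - w y) (fun y => W k y - w y) x).re ∂D.ν) := by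
  have c0 := fun k => cpt_add ha.cpt (lcG_cpt (h1 k).2.1.1)
  have c1 : ∀ k, D.Cc fun x => τ k x * D.hs (fun i z => a i z + lcG D.toMan (W k) i z) x :=
    fun k => (h1 k).1.cc.map₂ (hs_contOn (c0 k) fun i b c => ((ha.clo i).smooth b c).continuousOn.add
      (lc_smooth (D.isOpen i) ((h1 k).2.1.1 i) b c).continuousOn) (l := fun t u => t * u)
      continuous_mul zero_mul
  have c2 : ∀ k, D.Cc fun x => (D.Gam D.K (fun y => (τ k y : ℂ)) (fun y => (τ k y : ℂ)) x).re *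
      (D.Gam D.K (fun y => W k y - w y) (fun y => W k y - w y) x).re := fun k =>
    (Dat.GamK_cc (h1 k).1.ofReal (h1 k).1.ofReal.1).map₂
      (Dat.GamK_cc ((h1 k).2.1.sub hw) ((h1 k).2.1.sub hw).1).1 (l := fun t u => t.re * u.re)
      (by fun_prop) fun _ => by simp
  have c3 := (ke_sum Finset.univ c1).map (l := fun t => 8 * t) (by fun_prop) (mul_zero _)
  have c4 := (ke_sum Finset.univ c2).map (l := fun t => 32 * m * t) (by fun_prop) (mul_zero _)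
  refine ⟨_, ⟨fun k => ⟨(h1 k).1, (h1 k).2.1⟩, c3.add c4, fun x => ?_, fun i z hz hC u v => ?_⟩, ?_⟩
  · obtain ⟨i, z, hz, rfl⟩ := Man.exists_chart (D := D.toMan) (x := x) (D.cover ▸ mem_univ x)
    refine add_nonneg (mul_nonneg (by norm_num) (Finset.sum_nonneg fun k _ => mul_nonneg
      ((h1 k).2.2 _) ?_)) (mul_nonneg (by positivity) (Finset.sum_nonneg fun k _ =>
        mul_nonneg (Dat.GamK_nonneg _) (Dat.GamK_nonneg _)))
    rw [hs_chart (c0 k) hz]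
    exact hsK_nonneg ((D.kah i).pos z hz) _
  · have hn := (D.isOpen i).mem_nhds hz
    simp only [fun k => hs_chart (c0 k) hz,
      fun k => Dat.Gam_chart D.K_cpt (h1 k).1.ofReal.1 (h1 k).1.ofReal.1 hz,
      fun k => Dat.Gam_chart D.K_cpt ((h1 k).2.1.sub hw).1 ((h1 k).2.1.sub hw).1 hz]
    exact est_pt (τ := fun k y => τ k (D.p i y)) (w := fun k y => W k (D.p i y))
      (w₀ := fun y => w (D.p i y)) ((D.kah i).pos z hz) ((ha.clo i).herm z hz)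
      (fun k => ((h1 k).1.1 i).contDiffAt hn) (fun k => ((h1 k).2.1.1 i).contDiffAt hn)
      ((hw.1 i).contDiffAt hn) (fun k => (h1 k).2.2 _) (Man.contAt_p hz (h2 _ hC)) u v
  · rw [integral_add (Dat.cc_int c3) (Dat.cc_int c4), integral_const_mul, integral_const_mul,
      integral_finsetSum _ fun k _ => Dat.cc_int (c1 k),
      integral_finsetSum _ fun k _ => Dat.cc_int (c2 k), mul_assoc]

end KD

end Pool.Agent.HX
end

-- part Pool.Agent.P.MP_63735c_ag.HXGl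
section

/-! The global index inequality. -/

open scoped ComplexOrder ContDiff Matrix Topology ENNReal
open Set Metric MeasureTheory Filter

namespace Pool.Agent.HX

open Pool.Agent.SPF Pool.Agent.AB

variable {N : ℕ} {Y : Type} [TopologicalSpace Y] [MeasurableSpace Y] [BorelSpace Y] [T2Space Y]

namespace KD

variable {D : KD Y N} {a : D.ι → E N → Mat N} {M : ℝ}

/-- Local correctors for a global cutoff function and a good near minimiser. -/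
theorem gl_sum (ha : Frm D.toMan a) {h : Y → ℂ} (hh : D.HH h) : ∃ B : ℝ, ∀ θ : Y → ℝ, D.S θ →
    (∀ x, 0 ≤ θ x) → ∀ γ : ℝ, 0 < γ → ∃ (m : ℕ) (τ : Fin m → Y → ℝ) (v : Fin m → Y → ℂ)
      (w : Y → ℂ), (∀ k, D.S (τ k) ∧ D.S (v k) ∧ ∀ x, 0 ≤ τ k x) ∧ D.S w ∧
      (∀ x, ∑ k, τ k x = θ x) ∧ (D.En w w).re ≤ B ∧
      ∑ k, ∫ x, τ k x * D.hs (fun j z => a j z + lcG D.toMan (v k) j z) x ∂D.ν ≤
        ∫ x, D.qH a θ w h x ∂D.ν + γ ∧
      m * ∑ k, ∫ x, (D.Gam D.K (fun y => (τ k y : ℂ)) (fun y => (τ k y : ℂ)) x).re *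
        (D.Gam D.K (fun y => v k y - w y) (fun y => v k y - w y) x).re ∂D.ν ≤ γ := by
  obtain ⟨B, Q, hne, hmono, hQ⟩ := Dat.near_min hh
  refine ⟨B, fun θ hθ h0 γ hγ => ?_⟩
  obtain ⟨m, c, τ, hτ, hτ0, hs⟩ := Man.exists_pu hθ h0
  have hγ' : 0 < γ / (m + 1) ^ 2 := by positivity
  choose g hg hg' using fun k => lig ha (hτ k) hh.1 B hγ'
  obtain ⟨e₀, he₀, he₁, he₂⟩ := abme_min (fun a => g a / 4) (fun a => by linarith [hg a]) one_pos
  obtain ⟨w₀, hw₀⟩ := hne e₀ he₀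
  choose ε hε hε' using fun k => hg' k w₀ (hQ e₀ w₀ he₀ he₁ hw₀).1
  obtain ⟨e, he, h3, h2⟩ := abme_min ε hε he₀
  obtain ⟨w, hw⟩ := hne e he
  obtain ⟨hS, hN, hB, -⟩ := hQ e w he (h3.trans he₁) hw
  have h4 := (hQ e₀ w he₀ he₁ (hmono e e₀ w he h3 hw)).2.2.2 w₀ hw₀
  choose v hv h5 h6 using fun k =>
    hε' k w e hS he.le (h2 k) (h4.trans (by nlinarith [he₂ k])) hB hN
  have hE : ∀ k, D.S (D.ext (c k) (τ k)) := fun k => Man.ext_S (hτ k)
  have h7 : ((m : ℝ) + 1) ^ 2 * (γ / (m + 1) ^ 2) = γ := by field_simp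
  have hm : (0 : ℝ) ≤ m := Nat.cast_nonneg m
  have h8 : ∑ _k : Fin m, γ / (m + 1) ^ 2 = m * (γ / (m + 1) ^ 2) := by simp
  refine ⟨m, fun k => D.ext (c k) (τ k), v, w, fun k => ⟨hE k, hv k, fun x => ?_⟩, hS,
    fun x => (hs x).symm, hB, (Finset.sum_le_sum fun k _ => h5 k).trans ?_,
    (mul_le_mul_of_nonneg_left (Finset.sum_le_sum fun k _ => h6 k) hm).trans ?_⟩
  · by_cases hx : x ∈ D.p (c k) '' D.W (c k)
    · obtain ⟨z, hz, rfl⟩ := hx
      exact (hτ0 k z).trans_eq (Man.ext_apply hz).symm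
    · exact (Man.ext_out hx).ge
  · rw [Finset.sum_add_distrib, h8,
      ← integral_finsetSum _ fun k _ => Dat.cc_int (qH_cc ha (hE k) hS hh.1), funext hs]
    simp only [(qH_sum Finset.univ hE w h _).2]
    nlinarith [mul_nonneg hm hm]
  · rw [h8]
    nlinarith [mul_nonneg hm hm]

omit [T2Space Y] in
theorem tr_bd [IsFiniteMeasure D.ν] (ha : Frm D.toMan a)
    (hM : ∀ i, ∀ z ∈ D.W i, Dom (D.K i z) (a i z) M) : MemLp (D.tr a) 2 D.ν ∧
      (∀ x, D.tr a x = ((D.tr a x).re : ℂ)) ∧ Integrable (D.bb a) D.ν := by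
  have hc := fun i b c => ((ha.clo i).smooth b c).continuousOn
  refine ⟨.of_bound (cont_of (tr_contOn ha.cpt hc)).aestronglyMeasurable (N * M)
    (Eventually.of_forall fun x => ?_), fun x => ?_, .of_bound
    (cont_of (bb_contOn ha.cpt hc)).aestronglyMeasurable ((N ^ 2 + N) * M ^ 2)
    (Eventually.of_forall fun x => ?_)⟩ <;> obtain ⟨i, z, hz, rfl⟩ := D.chart x
  · rw [tr_chart ha.cpt hz]
    exact (dom_bounds ((D.kah i).pos z hz) ((ha.clo i).herm z hz) (hM i z hz)).1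
  · rw [tr_chart ha.cpt hz, trK_im ((D.kah i).pos z hz).1 ((ha.clo i).herm z hz)]
  · rw [bb_chart ha.cpt hz]
    exact (Complex.abs_re_le_norm _).trans
      (dom_bounds ((D.kah i).pos z hz) ((ha.clo i).herm z hz) (hM i z hz)).2.2

omit [BorelSpace Y] [T2Space Y] in
theorem qH_le (ha : Frm D.toMan a) (hM : ∀ i, ∀ z ∈ D.W i, Dom (D.K i z) (a i z) M) {θ : Y → ℝ}
    (hθ : D.S θ) (h1 : ∀ x, θ x ≤ 1) {η l : ℝ} (hη : 0 ≤ η) (hl : 0 < l)
    (hL : ∀ i, ∀ z ∈ D.W i, ∀ v, (hq (D.levG θ i z) v v).re ≤ η * (hq (D.K i z) v v).re)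
    {w : Y → ℂ} (hw : D.S w) (h : Y → ℂ) (x : Y) : D.qH a θ w h x ≤
      ‖D.tr a x + h x‖ ^ 2 - θ x * D.bb a x + (l + η * N) * (D.Gam D.K w w x).re +
        2 * (N ^ 3 + N) * M ^ 2 / l *
          (D.Gam D.K (fun y => (θ y : ℂ)) (fun y => (θ y : ℂ)) x).re := by
  obtain ⟨i, z, hz, rfl⟩ := D.chart x
  have hK := (D.kah i).pos z hz
  have h2 := mul_le_of_le_one_left (sq_nonneg ‖D.tr a (D.p i z) + h (D.p i z)‖) (h1 (D.p i z))
  rw [qH, Dat.Gam_chart D.K_cpt hw.1 hθ.ofReal.1 hz, Dat.Gam_chart ha.cpt hw.1 hθ.ofReal.1 hz,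
    Dat.Gam_chart D.K_cpt hw.1 hw.1 hz, Dat.Gam_chart (Man.levG_cpt hθ.1) hw.1 hw.1 hz,
    Dat.Gam_chart D.K_cpt hθ.ofReal.1 hθ.ofReal.1 hz, tr_chart (Man.levG_cpt hθ.1) hz]
  generalize grad (D.K i) (fun y => w (D.p i y)) z = u
  generalize grad (D.K i) (fun y => (θ (D.p i y) : ℂ)) z = v
  have h3 := gl_lev hK (lev_herm ((hθ.1 i).contDiffAt ((D.isOpen i).mem_nhds hz))) hη (hL i z hz) u
  have h4 := (Complex.re_le_norm _).trans (abme_amgm (hq_nonneg hK.posSemidef u)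
    (mul_nonneg (by positivity) (hq_nonneg hK.posSemidef v)) hl
    (gl_cross hK ((ha.clo i).herm z hz) (hM i z hz) u v))
  rw [← tr_chart ha.cpt hz, mul_div_right_comm] at h4
  change (trK (D.K i z) (D.levG θ i z) * _ - hq (D.levG θ i z) u u).re ≤ _ at h3
  linarith

/-- The global inequality. -/
theorem gl [PreconnectedSpace Y] [SigmaCompactSpace Y] [IsFiniteMeasure D.ν] (hc : D.Cut D.K)
    (ha : Frm D.toMan a) (hM : ∀ i, ∀ z ∈ D.W i, Dom (D.K i z) (a i z) M) {C₀ : Set Y}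
    (hC : IsCompact C₀) {ε : ℝ} (hε : 0 < ε) : ∃ (m : ℕ) (τ : Fin m → Y → ℝ)
      (v : Fin m → Y → ℂ) (w : Y → ℂ), (∀ k, D.S (τ k) ∧ D.S (v k) ∧ ∀ x, 0 ≤ τ k x) ∧ D.S w ∧
      (∀ x ∈ C₀, ∀ᶠ y in 𝓝 x, ∑ k, τ k y = 1) ∧ (∀ x, ∑ k, τ k x ≤ 1) ∧
      ∑ k, ∫ x, τ k x * D.hs (fun j z => a j z + lcG D.toMan (v k) j z) x ∂D.ν ≤ D.QQ a + ε ∧
      m * ∑ k, ∫ x, (D.Gam D.K (fun y => (τ k y : ℂ)) (fun y => (τ k y : ℂ)) x).re *
        (D.Gam D.K (fun y => v k y - w y) (fun y => v k y - w y) x).re ∂D.ν ≤ ε := by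
  obtain ⟨f2, fr, ib⟩ := tr_bd ha hM
  obtain ⟨δ, hδ, rfl⟩ : ∃ δ : ℝ, 0 < δ ∧ ε = 5 * δ := ⟨ε / 5, by positivity, by ring⟩
  obtain ⟨h, hh, h1⟩ := co hc f2 hδ
  obtain ⟨B, hB⟩ := gl_sum ha hh
  obtain ⟨C₁, c1, c2⟩ : ∃ C₁, IsCompact C₁ ∧ ∫ x in C₁ᶜ, |D.bb a x| ∂D.ν ≤ δ := by
    have h2 := tendsto_setIntegral_of_monotone (μ := D.ν) (f := fun x => |D.bb a x|)
      (fun k => (isCompact_compactCovering Y k).measurableSet) (compactCovering_subset Y)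
      ib.abs.integrableOn
    rw [iUnion_compactCovering, Measure.restrict_univ] at h2
    obtain ⟨k, hk⟩ := (h2.eventually (le_mem_nhds (sub_lt_self _ hδ))).exists
    refine ⟨_, isCompact_compactCovering Y k, ?_⟩
    linarith [integral_add_compl (isCompact_compactCovering Y k).measurableSet ib.abs]
  have hv : 0 ≤ D.ν.real univ := measureReal_nonneg
  obtain ⟨l, hl, hl'⟩ : ∃ l : ℝ, 0 < l ∧ l * (|B| + 1) = δ :=
    ⟨δ / (|B| + 1), by positivity, by field_simp⟩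
  obtain ⟨A, hA⟩ : ∃ A : ℝ, A = 2 * (N ^ 3 + N) * M ^ 2 / l := ⟨_, rfl⟩
  have hA0 : 0 ≤ A := hA ▸ by positivity
  obtain ⟨η, hη, hη'⟩ : ∃ η : ℝ, 0 < η ∧ η * (N * (|B| + A * D.ν.real univ) + 1) = δ :=
    ⟨δ / (N * (|B| + A * D.ν.real univ) + 1), by positivity, by field_simp⟩
  obtain ⟨θ, hθ, h01, h2, h3⟩ := hc _ (hC.union c1) (D.cover ▸ subset_univ _) η hη
  obtain ⟨m, τ, v, w, a1, hw, a2, a3, a4, a5⟩ := hB θ hθ (fun x => (h01 x).1) δ hδ
  refine ⟨m, τ, v, w, a1, hw, fun x hx => (h2 x (Or.inl hx)).mono fun y hy => (a2 y).trans hy,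
    fun x => (a2 x).trans_le (h01 x).2, a4.trans ?_, a5.trans (by linarith)⟩
  have i1 : Integrable (fun x => ‖D.tr a x + h x‖ ^ 2) D.ν :=
    (f2.add (hh.1.memLp D.den D.Ψ_cont 2)).integrable_norm_pow (by norm_num)
  have i2 : Integrable (fun x => θ x * D.bb a x) D.ν := ib.bdd_mul (c := 1)
    hθ.cc.continuous.aestronglyMeasurable (Eventually.of_forall fun x => by
      rw [Real.norm_of_nonneg (h01 x).1]; exact (h01 x).2)
  have i3 : Integrable (fun x => (l + η * N) * (D.Gam D.K w w x).re) D.ν :=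
    (Dat.cc_int (Dat.GamK_cc hw hw.1)).re.const_mul _
  have i4 : Integrable (fun x => A * (D.Gam D.K (fun y => (θ y : ℂ)) (fun y => (θ y : ℂ)) x).re)
      D.ν := (Dat.cc_int (Dat.GamK_cc hθ.ofReal hθ.ofReal.1)).re.const_mul _
  have i5 : Integrable (fun x => ‖D.tr a x + h x‖ ^ 2 - θ x * D.bb a x) D.ν := i1.sub i2
  have i6 : Integrable (fun x => ‖D.tr a x + h x‖ ^ 2 - θ x * D.bb a x +
      (l + η * N) * (D.Gam D.K w w x).re) D.ν := i5.add i3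
  have b1 := integral_mono (Dat.cc_int (qH_cc ha hθ hw hh.1)) (i6.add i4) fun x =>
    hA ▸ qH_le ha hM hθ (fun x => (h01 x).2) hη.le hl h3 hw h x
  rw [integral_add' i6 i4, integral_add i5 i3, integral_sub i1 i2, integral_const_mul,
    integral_const_mul, ← Dat.En_re hw hw, ← Dat.En_re hθ.ofReal hθ.ofReal] at b1
  have b2 : ∫ x, D.bb a x ∂D.ν - ∫ x, θ x * D.bb a x ∂D.ν ≤ ∫ x in C₁ᶜ, |D.bb a x| ∂D.ν := by
    rw [← integral_sub ib i2, ← integral_indicator c1.measurableSet.compl]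
    refine integral_mono (ib.sub i2) (ib.abs.indicator c1.measurableSet.compl) fun x => ?_
    by_cases hx : x ∈ C₁
    · simp [hx, (h2 x (Or.inr hx)).self_of_nhds]
    · simp only [indicator_of_mem (mem_compl hx)]
      nlinarith [le_abs_self (D.bb a x), abs_nonneg (D.bb a x), (h01 x).1, (h01 x).2]
  have b3 : ‖∫ x, D.tr a x ∂D.ν‖ ^ 2 = (∫ x, (D.tr a x).re ∂D.ν) ^ 2 := by
    rw [funext fr, integral_complex_ofReal, Complex.norm_real, Real.norm_eq_abs, sq_abs]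
    rfl
  have b4 := mul_le_mul_of_nonneg_left (en_cut hc hθ h01 hη.le h3) hA0
  have b5 := mul_le_mul_of_nonneg_left (a3.trans (le_abs_self B))
    (show 0 ≤ l + η * N by positivity)
  rw [b3] at h1
  rw [QQ]
  nlinarith

/-- The Hodge index estimate on a complete Kähler manifold of finite volume. -/
theorem est [PreconnectedSpace Y] [SigmaCompactSpace Y] [IsFiniteMeasure D.ν] (hc : D.Cut D.K)
    (ha : Frm D.toMan a) (hM : ∀ i, ∀ z ∈ D.W i, Dom (D.K i z) (a i z) M) {C₀ : Set Y}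
    (hC : IsCompact C₀) {ε : ℝ} (hε : 0 < ε) : ∃ (m : ℕ) (τ : Fin m → Y → ℝ)
      (v : Fin m → Y → ℂ) (Φ : Y → ℝ), Est D.toMan a D.K C₀ τ v Φ ∧
      ∫ x, Φ x ∂D.ν ≤ 8 * D.QQ a + ε := by
  obtain ⟨m, τ, v, w, h1, hw, h2, -, h3, h4⟩ := gl hc ha hM hC (ε := ε / 40) (by positivity)
  obtain ⟨Φ, h5, h6⟩ := est_of ha h1 hw h2
  exact ⟨m, τ, v, Φ, h5, by rw [h6]; linarith⟩

end KD

end Pool.Agent.HX
end
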