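import Pool.Agent.K.MP_63735c_ag.C49
import Pool.Agent.K.MP_63735c_ag.C60
import Pool.Agent.K.MP_63735c_ag.C41
import Pool.Agent.K.MP_63735c_ag.C35

/-! The estimate along the leaves from the Fujiki relation. -/

open scoped ComplexOrder ContDiff Matrix Topology ENNReal
open Set Metric MeasureTheory Filter

namespace Pool.Agent.HX

open Pool.Agent.SPF Pool.Agent.AB

open Pool.Agent.CL Pool.Agent.CK Pool.Agent.NL Pool.Agent.CS Pool.Agent.HS

variable {N n : ℕ}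

theorem nullL_of_hxp {X : Type} [TopologicalSpace X] [T2Space X] [MeasurableSpace X]
    [BorelSpace X] {A : Atlas X N} {T : Set (E n)} {Ψ : P n → X}
    (hn : 1 ≤ n) (hN : N = 2 * n) (hinj : ∀ i, InjOn (A.p i) (A.C i).W) {μ : Measure X}
    [IsFiniteMeasure μ] (hμ : IsVolume A μ) (K : Form11 A)
    (hK : ∀ i, ∀ z ∈ (A.C i).W, (K.h i z).PosDef) (a : Form11 A)
    (hX : (base A hinj hμ).HXP n a.h (fun i => (A.C i).η) K.h) (h : A.IsUnif T Ψ) (hT : IsOpen T)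
    (hv : ∃ C : ℝ, ∀ y ∈ T, ∀ ξ v,
      leaf (pb A (f11 A K.h) Ψ) y ξ v (Complex.I • v) ≤ C * ‖v‖ ^ 2) :
    NullL T Ψ μ (pb A (f11 A a.h) Ψ) := by
  obtain ⟨V, hv⟩ := hv
  have hp : ∀ i, ∀ z ∈ (base A hinj hμ).W i, ((A.C i).η z).PosSemidef :=
    fun i z hz => (A.C i).η_psd z hz.1
  have hk := base_kf (hinj := hinj) (hμ := hμ) K hK
  obtain ⟨D, hD⟩ := hX
  have he : ∀ t : ℝ, (base A hinj hμ).mix a.h (fun i => (A.C i).η) K.h 0 t =
      fun i z => (A.C i).η z + (t : ℂ) • K.h i z := fun t => by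
    funext i z
    simp [Base.mix]
  have hf : ∀ t : ℝ, Frm (base A hinj hμ).toMan fun i z => (A.C i).η z + (t : ℂ) • K.h i z :=
    fun t => hn_add base_eta (hn_smul (base_frm K) t)
  refine nullL_of hinj hn h hT K a hK hv
    (d := fun t => (base A hinj hμ).dens fun i z => (A.C i).η z + (t : ℂ) • K.h i z)
    (fun t => hn_dens_cont (hf t)) (fun t ht x => ?_) (fun Q hQ hs => ?_) (C := D)
    fun t ht ht1 C₀ hC => ?_
  · have := hn_dens_pos ((base A hinj hμ).mix_kf (base_frm a) base_eta hp hk ht).1 x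
    rw [he] at this
    exact this.le
  · obtain ⟨c, hc, h3⟩ := nu_low hinj hN h hT K hK hQ hs
    obtain ⟨c', hc', h4⟩ := nu_unif hQ (fun c p => c < (base A hinj hμ).dens K.h (Ψ p))
      (fun c c' p hc h => hc.trans_lt h) fun p hp =>
        ⟨_, half_pos (hn_dens_pos hk (Ψ p)), continuousAt_const.eventually_lt
          ((hn_dens_cont (base_frm K)).continuousAt.comp (unif_cont h (hs hp).1))
          (half_lt_self (hn_dens_pos hk (Ψ p)))⟩
    refine ⟨c * c', mul_pos hc hc', fun t ht p hp => ?_⟩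
    obtain ⟨i, z, hz, e, h5⟩ := h3 p hp
    have h6 := (h4 p hp).le
    rw [← e, ← base_p (hinj := hinj) (hμ := hμ), hn_dens (base_frm K).cpt (base_mem.2 hz)] at h6
    rw [← e, ← base_p (hinj := hinj) (hμ := hμ), hn_dens (hf t).cpt (base_mem.2 hz)]
    calc c * c' * t ^ n = c * t ^ n * c' := by ring
      _ ≤ c * t ^ n * _ := mul_le_mul_of_nonneg_left h6 (by positivity)
      _ ≤ _ := by
          rw [← mul_div_assoc]
          exact div_le_div_of_nonneg_right (h5 t ht.le) (wt_pos _ _).le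
  · obtain ⟨m, τ, w, Φ, h3, h4⟩ := hD t ht ht1 C₀ hC
    rw [he] at h3 h4
    exact ⟨m, τ, w, Φ, h3, h4⟩

theorem nullL_of_lam {X : Type} [TopologicalSpace X] [T2Space X] [MeasurableSpace X]
    [BorelSpace X] [PreconnectedSpace X] {A : Atlas X N} {T : Set (E n)} {Ψ : P n → X}
    (hn : 1 ≤ n) (hN : N = 2 * n) (hinj : ∀ i, InjOn (A.p i) (A.C i).W) {μ : Measure X}
    [IsFiniteMeasure μ] (hμ : IsVolume A μ) (K : Form11 A)
    (hK : ∀ i, ∀ z ∈ (A.C i).W, (K.h i z).PosDef) (b11 : Bd11 A K)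
    (hl : ∃ l C, Lam (man A hinj isOpen_univ) K.h l C) (a : Form11 A)
    (ha : ∃ C : ℝ, ∀ i, ∀ z ∈ (A.C i).W, ∀ u,
      |ev11 (a.h i z) u (Complex.I • u)| ≤ C * ev11 (K.h i z) u (Complex.I • u))
    (hF : (base A hinj hμ).Fuj n a.h (fun i => (A.C i).η) K.h) (h : A.IsUnif T Ψ) (hT : IsOpen T)
    (hv : ∃ C : ℝ, ∀ y ∈ T, ∀ ξ v,
      leaf (pb A (f11 A K.h) Ψ) y ξ v (Complex.I • v) ≤ C * ‖v‖ ^ 2) :
    NullL T Ψ μ (pb A (f11 A a.h) Ψ) := by
  obtain ⟨l, C, hl⟩ := hl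
  obtain ⟨C₁, h1⟩ := ha
  obtain ⟨C₂, -, h2⟩ := b11
  have hn0 := fun i z (hz : z ∈ (A.C i).W) u => (ev11_nonneg (hK i z hz).posSemidef u).1
  exact nullL_of_hxp hn hN hinj hμ K hK a ((base A hinj hμ).hxp hn (base_frm a) base_eta
    (fun i z hz => (A.C i).η_psd z hz.1) (base_kf K hK) (C₁ := max C₁ C₂)
    (fun i z hz => ⟨dom_iff.2 fun u => (h1 i z hz.1 u).trans
      (mul_le_mul_of_nonneg_right (le_max_left _ _) (hn0 i z hz.1 u)), dom_iff.2 fun u =>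
      (h2 i z hz.1 u).trans (mul_le_mul_of_nonneg_right (le_max_right _ _) (hn0 i z hz.1 u))⟩)
    hl hF) h hT hv

theorem nullL_of_fuj {X : Type} [TopologicalSpace X] [T2Space X] [CompactSpace X] {R : Set X}
    [MeasurableSpace R] [BorelSpace R] [PreconnectedSpace R] {A : Atlas R N} {B : Amb R A}
    {T : Set (E n)} {Ψ : P n → R} (hn : 1 ≤ n) (hN : N = 2 * n)
    (hinj : ∀ i, InjOn (A.p i) (A.C i).W) {μ : Measure R} [IsFiniteMeasure μ] (hμ : IsVolume A μ)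
    {K : Form11 A} (hK : IsKahler B K) (a : Form11 A)
    (ha : ∃ C : ℝ, ∀ i, ∀ z ∈ (A.C i).W, ∀ u,
      |ev11 (a.h i z) u (Complex.I • u)| ≤ C * ev11 (K.h i z) u (Complex.I • u))
    (hF : (base A hinj hμ).Fuj n a.h (fun i => (A.C i).η) K.h) (h : A.IsUnif T Ψ) (hT : IsOpen T)
    (hv : ∃ C : ℝ, ∀ y ∈ T, ∀ ξ v,
      leaf (pb A (f11 A K.h) Ψ) y ξ v (Complex.I • v) ≤ C * ‖v‖ ^ 2) :
    NullL T Ψ μ (pb A (f11 A a.h) Ψ) :=
  nullL_of_lam hn hN hinj hμ K hK.posDef hK.bd11 (exists_Lam hinj hK) a ha hF h hT hv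

end Pool.Agent.HX
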