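import Pool.Agent.K.MP_63735c_ag.C6

/-! Functions on the manifold. -/

open scoped ComplexOrder ContDiff Matrix Topology ENNReal
open Set Metric MeasureTheory Filter

namespace Pool.Agent.AB

open Pool.Agent.SPF

variable {N : ℕ} {Y : Type} [TopologicalSpace Y] {D : Man Y N}

namespace Man

theorem isOpen_img (D : Man Y N) (i : D.ι) : IsOpen (D.p i '' D.W i) := by
  exact D.opn i _ (D.isOpen i) Subset.rfl

theorem isOpen_M (D : Man Y N) : IsOpen D.M := by
  exact isOpen_iUnion D.isOpen_img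

theorem mem_M {i : D.ι} {z : E N} (hz : z ∈ D.W i) : D.p i z ∈ D.M := by
  exact mem_iUnion.2 ⟨i, z, hz, rfl⟩

theorem exists_chart {x : Y} (hx : x ∈ D.M) : ∃ i, ∃ z ∈ D.W i, D.p i z = x := by
  obtain ⟨i, z, hz, e⟩ := mem_iUnion.1 hx
  exact ⟨i, z, hz, e⟩

theorem contAt_p {i : D.ι} {z : E N} (hz : z ∈ D.W i) : ContinuousAt (D.p i) z := by
  exact (D.cont i).continuousAt ((D.isOpen i).mem_nhds hz)

theorem map_nhds {i : D.ι} {z : E N} (hz : z ∈ D.W i) : map (D.p i) (𝓝 z) = 𝓝 (D.p i z) := by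
  refine le_antisymm (contAt_p hz) fun s hs => ?_
  obtain ⟨O, hO, ho, hzO⟩ := _root_.mem_nhds_iff.1
    (inter_mem (mem_map.1 hs) ((D.isOpen i).mem_nhds hz))
  refine mem_of_superset ((D.opn i O ho fun w hw => (hO hw).2).mem_nhds ⟨z, hzO, rfl⟩) ?_
  rintro _ ⟨w, hw, rfl⟩
  exact (hO hw).1

theorem cpt_img {i : D.ι} {C : Set (E N)} (hC : IsCompact C) (h : C ⊆ D.W i) :
    IsCompact (D.p i '' C) ∧ D.p i '' C ⊆ D.M := by
  refine ⟨hC.image_of_continuousOn ((D.cont i).mono h), ?_⟩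
  rintro _ ⟨z, hz, rfl⟩
  exact mem_M (h hz)

theorem contOn {F : Type} [TopologicalSpace F] {w : Y → F}
    (h : ∀ i, ContinuousOn (fun z => w (D.p i z)) (D.W i)) : ContinuousOn w D.M := by
  intro x hx
  obtain ⟨i, z, hz, rfl⟩ := exists_chart hx
  refine ContinuousAt.continuousWithinAt ?_
  have h1 := (h i).continuousAt ((D.isOpen i).mem_nhds hz)
  unfold ContinuousAt at h1 ⊢
  rw [← map_nhds hz]
  exact h1

theorem Ch.smooth {i j : D.ι} {z : E N} {φ : E N → E N} (h : D.Ch i j z φ) :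
    ContDiffAt ℝ ∞ φ z := by
  obtain ⟨O, hO, ho, hz⟩ := _root_.eventually_nhds_iff.1 h
  exact (smooth_of_hol ho fun w hw => (hO w hw).1.differentiableWithinAt).contDiffAt
    (ho.mem_nhds hz)

/-- Smoothness at a point can be tested in one chart. -/
theorem smoAt {F : Type} [NormedAddCommGroup F] [NormedSpace ℝ F] {w : Y → F} {i j : D.ι}
    {z y : E N} (hz : z ∈ D.W i) (hy : y ∈ D.W j) (he : D.p i z = D.p j y)
    (h : ContDiffAt ℝ ∞ (fun t => w (D.p j t)) y) : ContDiffAt ℝ ∞ (fun t => w (D.p i t)) z := by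
  obtain ⟨φ, rfl, hφ⟩ := D.trans i j z hz y hy he
  refine (h.comp z (Ch.smooth (D := D) (i := i) (j := j) hφ)).congr_of_eventuallyEq ?_
  filter_upwards [hφ] with t ht
  exact congrArg w ht.2.2.symm

theorem holAt {F : Type} [NormedAddCommGroup F] [NormedSpace ℂ F] {w : Y → F} {i j : D.ι}
    {z y : E N} (hz : z ∈ D.W i) (hy : y ∈ D.W j) (he : D.p i z = D.p j y)
    (h : DifferentiableAt ℂ (fun t => w (D.p j t)) y) :
    DifferentiableAt ℂ (fun t => w (D.p i t)) z := by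
  obtain ⟨φ, rfl, hφ⟩ := D.trans i j z hz y hy he
  refine (h.comp z hφ.self_of_nhds.1).congr_of_eventuallyEq ?_
  filter_upwards [hφ] with t ht
  exact congrArg w ht.2.2.symm

section ext
variable {F : Type} [Zero F] {i : D.ι} {f : E N → F}

theorem ext_apply {z : E N} (hz : z ∈ D.W i) : D.ext i f (D.p i z) = f z := by
  rw [ext, indicator_of_mem (mem_image_of_mem _ hz), (D.inj i).leftInvOn_invFunOn hz]

theorem ext_out {x : Y} (hx : x ∉ D.p i '' D.W i) : D.ext i f x = 0 := by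
  exact indicator_of_notMem hx _

theorem ext_zero {C : Set (E N)} (h0 : ∀ z ∈ D.W i, z ∉ C → f z = 0) {x : Y}
    (hx : x ∉ D.p i '' C) : D.ext i f x = 0 := by
  by_cases h : x ∈ D.p i '' D.W i
  · obtain ⟨z, hz, rfl⟩ := h
    rw [ext_apply hz]
    exact h0 z hz fun hc => hx ⟨z, hc, rfl⟩
  · exact ext_out h

theorem ext_map {G : Type} [Zero G] (l : F → G) (hl : l 0 = 0) (x : Y) :
    l (D.ext i f x) = D.ext i (fun z => l (f z)) x := by
  by_cases h : x ∈ D.p i '' D.W i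
  · obtain ⟨z, hz, rfl⟩ := h
    rw [ext_apply hz, ext_apply hz]
  · rw [ext_out h, ext_out h, hl]

end ext

theorem Cs.of_zero {F G : Type} [Zero F] [Zero G] {w : Y → F} {w' : Y → G} (h : D.Cs w)
    (h0 : ∀ x, w x = 0 → w' x = 0) : D.Cs w' := by
  obtain ⟨C, h1, h2, h3⟩ := h
  exact ⟨C, h1, h2, fun x hx => h0 x (h3 x hx)⟩

theorem Cs.of_zero₂ {F F' G : Type} [Zero F] [Zero F'] [Zero G] {w : Y → F} {v : Y → F'}
    {w' : Y → G} (h : D.Cs w) (h' : D.Cs v) (h0 : ∀ x, w x = 0 → v x = 0 → w' x = 0) :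
    D.Cs w' := by
  obtain ⟨C, h1, h2, h3⟩ := h
  obtain ⟨C', h1', h2', h3'⟩ := h'
  exact ⟨C ∪ C', h1.union h1', union_subset h2 h2', fun x hx =>
    h0 x (h3 x fun hc => hx (Or.inl hc)) (h3' x fun hc => hx (Or.inr hc))⟩

section
variable {F : Type} [NormedAddCommGroup F]

theorem Cc.continuous [T2Space Y] {w : Y → F} (h : D.Cc w) : Continuous w := by
  obtain ⟨h1, C, hC, h2, h3⟩ := h
  refine continuous_iff_continuousAt.2 fun x => ?_
  by_cases hx : x ∈ C
  · exact (contOn h1).continuousAt (D.isOpen_M.mem_nhds (h2 hx))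
  · refine (continuousAt_const (y := (0 : F))).congr ?_
    filter_upwards [hC.isClosed.isOpen_compl.mem_nhds hx] with y hy
    exact (h3 y hy).symm

theorem Cc.add {w w' : Y → F} (h : D.Cc w) (h' : D.Cc w') : D.Cc fun x => w x + w' x := by
  exact ⟨fun i => (h.1 i).add (h'.1 i), h.2.of_zero₂ h'.2 fun x a b => by rw [a, b, add_zero]⟩

theorem Cc.sub {w w' : Y → F} (h : D.Cc w) (h' : D.Cc w') : D.Cc fun x => w x - w' x := by
  exact ⟨fun i => (h.1 i).sub (h'.1 i), h.2.of_zero₂ h'.2 fun x a b => by rw [a, b, sub_zero]⟩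

theorem Cc.map {G : Type} [NormedAddCommGroup G] {w : Y → F} (h : D.Cc w) {l : F → G}
    (hl : Continuous l) (h0 : l 0 = 0) : D.Cc fun x => l (w x) := by
  exact ⟨fun i => hl.comp_continuousOn (h.1 i), h.2.of_zero fun x a => by rw [a, h0]⟩

theorem Cc.map₂ {F' G : Type} [NormedAddCommGroup F'] [NormedAddCommGroup G] {w : Y → F}
    {v : Y → F'} (h : D.Cc w) (hv : ∀ i, ContinuousOn (fun z => v (D.p i z)) (D.W i))
    {l : F → F' → G} (hl : Continuous fun q : F × F' => l q.1 q.2) (h0 : ∀ b, l 0 b = 0) :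
    D.Cc fun x => l (w x) (v x) := by
  exact ⟨fun i => hl.comp_continuousOn ((h.1 i).prodMk (hv i)),
    h.2.of_zero fun x a => by rw [a, h0]⟩

theorem cc_of_cont {w : Y → F} (h : ContinuousOn w D.M) (hs : D.Cs w) : D.Cc w := by
  exact ⟨fun i => h.comp (D.cont i) fun z hz => mem_M hz, hs⟩

theorem ext_cc [T2Space Y] {i : D.ι} {f : E N → F} {C : Set (E N)} (hC : IsCompact C)
    (h : C ⊆ D.W i) (hf : ContinuousOn f (D.W i)) (h0 : ∀ z ∈ D.W i, z ∉ C → f z = 0) :
    D.Cc (D.ext i f) := by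
  obtain ⟨h1, h2⟩ := cpt_img hC h
  refine cc_of_cont (fun x _ => ContinuousAt.continuousWithinAt ?_)
    ⟨_, h1, h2, fun x hx => ext_zero h0 hx⟩
  by_cases hx : x ∈ D.p i '' C
  · obtain ⟨z, hz, rfl⟩ := hx
    have h3 : ContinuousAt (fun t => D.ext i f (D.p i t)) z := by
      refine (hf.continuousAt ((D.isOpen i).mem_nhds (h hz))).congr ?_
      filter_upwards [(D.isOpen i).mem_nhds (h hz)] with t ht
      exact (ext_apply ht).symm
    unfold ContinuousAt at h3 ⊢
    rw [← map_nhds (h hz)]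
    exact h3
  · refine (continuousAt_const (y := (0 : F))).congr ?_
    filter_upwards [h1.isClosed.isOpen_compl.mem_nhds hx] with y hy
    exact (ext_zero h0 hy).symm

variable [NormedSpace ℝ F]

theorem S.cc {w : Y → F} (h : D.S w) : D.Cc w := by
  exact ⟨fun i => (h.1 i).continuousOn, h.2⟩

theorem S.zero : D.S fun _ => (0 : F) := by
  exact ⟨fun _ => contDiffOn_const, ∅, isCompact_empty, empty_subset _, fun _ _ => rfl⟩

theorem S.add {w w' : Y → F} (h : D.S w) (h' : D.S w') : D.S fun x => w x + w' x := by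
  exact ⟨fun i => (h.1 i).add (h'.1 i), (h.cc.add h'.cc).2⟩

theorem S.sub {w w' : Y → F} (h : D.S w) (h' : D.S w') : D.S fun x => w x - w' x := by
  exact ⟨fun i => (h.1 i).sub (h'.1 i), (h.cc.sub h'.cc).2⟩

theorem ext_S [T2Space Y] {i : D.ι} {f : E N → F} (hf : Tst (D.W i) f) : D.S (D.ext i f) := by
  obtain ⟨h1, h2⟩ := cpt_img (D := D) hf.cpt.isCompact hf.sub
  have h0 : ∀ z ∈ D.W i, z ∉ tsupport f → f z = 0 := fun z _ hz => image_eq_zero_of_notMem_tsupport hz
  refine ⟨fun j y hy => ContDiffAt.contDiffWithinAt ?_, _, h1, h2, fun x hx => ext_zero h0 hx⟩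
  by_cases hx : D.p j y ∈ D.p i '' tsupport f
  · obtain ⟨z, hz, e⟩ := hx
    refine smoAt hy (hf.sub hz) e.symm (hf.smooth.contDiffAt.congr_of_eventuallyEq ?_)
    filter_upwards [(D.isOpen i).mem_nhds (hf.sub hz)] with t ht
    exact ext_apply ht
  · refine (contDiffAt_const (c := (0 : F))).congr_of_eventuallyEq ?_
    filter_upwards [contAt_p hy (h1.isClosed.isOpen_compl.mem_nhds hx)] with t ht
    exact ext_zero h0 ht

end

theorem S.const_mul {w : Y → ℂ} (h : D.S w) (c : ℂ) : D.S fun x => c * w x := by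
  exact ⟨fun i => contDiffOn_const.mul (h.1 i), h.2.of_zero fun x a => by rw [a, mul_zero]⟩

theorem S.ofReal {θ : Y → ℝ} (h : D.S θ) : D.S fun x => (θ x : ℂ) := by
  exact ⟨fun i => Complex.ofRealCLM.contDiff.comp_contDiffOn (h.1 i),
    h.2.of_zero fun x a => by rw [a, Complex.ofReal_zero]⟩

end Man

end Pool.Agent.AB
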