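import Pool.Agent.K.MP_63735c_ag.C5
import Pool.Agent.K.MP_63735c_ag.C7
import Pool.Agent.K.MP_63735c_ag.C10
import Pool.Agent.K.MP_63735c_ag.C39
import Pool.Agent.P.MP_c4558b_ag.NLMain

/-! Tubes of compact leaves. -/

open scoped ComplexOrder ContDiff Matrix Topology ENNReal
open Set Metric MeasureTheory Filter

namespace Pool.Agent.AB

open Pool.Agent.SPF Pool.Agent.NL

variable {N n : ℕ} {Y : Type} [TopologicalSpace Y] {A : Atlas Y N} {T O : Set (E n)}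
  {Ψ : E n × E n → Y}

omit [TopologicalSpace Y] in
theorem fib_mono (h : IsFibred Ψ T) (hs : O ⊆ T) : IsFibred Ψ O := fun b hb => by
  obtain ⟨Λ, h1, h2, h3⟩ := h b (hs hb)
  exact ⟨Λ, h1, h2, fun b' hb' => h3 b' (hs hb')⟩

theorem Tube.mono (h : Tube A T Ψ) (hO : IsOpen O) (hs : O ⊆ T) : Tube A O Ψ :=
  ⟨hO, fun w hw => h.unif w (hs hw), fib_mono h.fib hs,
    h.red.imp fun _ hj b hb => hj b (hs hb)⟩

omit [TopologicalSpace Y] in
theorem fib_red (hf : IsFibred Ψ T) {b : E n} (hb : b ∈ T) :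
    ∃ j : ℕ, ∀ τ, ∃ τ' ∈ closedBall (0 : E n) j, Ψ (b, τ) = Ψ (b, τ') := by
  obtain ⟨Λ, -, hsp, hiff⟩ := hf b hb
  obtain ⟨t, ht, hts, hli⟩ := exists_linearIndependent ℝ (Λ : Set (E n))
  have : Finite t := hli.finite
  have : Fintype t := Fintype.ofFinite t
  have h2 := exists_red (l := fun v : t => (v : E n)) (by rw [Subtype.range_coe, hts, hsp])
    (Λ := Λ) (fun v => ht v.2) (a := fun v => ‖(v : E n)‖) (fun _ => le_rfl)
  obtain ⟨j, hj⟩ := exists_nat_ge (∑ v : t, ‖(v : E n)‖)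
  refine ⟨j, fun τ => ?_⟩
  obtain ⟨u, hu, h3⟩ := h2 τ
  exact ⟨τ - u, closedBall_subset_closedBall hj h3,
    (hiff b hb τ (τ - u)).2 ⟨rfl, by simpa using hu⟩⟩

theorem exists_tube [T2Space Y] (hT : IsOpen T) (hne : T.Nonempty) (h : A.IsUnif T Ψ)
    (hf : IsFibred Ψ T) : ∃ T' ⊆ T, T'.Nonempty ∧ Tube A T' Ψ := by
  obtain ⟨b0, hb0⟩ := hne
  obtain ⟨r, hr, hB⟩ := Metric.nhds_basis_closedBall.mem_iff.1 (hT.mem_nhds hb0)
  let S : ℕ → Set (E n) := fun j =>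
    {b | ∀ τ, b ∈ closedBall b0 r ∧ ∃ τ' ∈ closedBall (0 : E n) j, Ψ (b, τ) = Ψ (b, τ')}
  have hS : ∀ j, IsClosed (S j) := fun j => by
    rw [show S j = ⋂ τ, Prod.fst '' {q ∈ closedBall b0 r ×ˢ closedBall (0 : E n) j |
      Ψ (q.1, τ) = Ψ q} from ?_]
    · refine isClosed_iInter fun τ => (IsCompact.image ?_ continuous_fst).isClosed
      have hK := (isCompact_closedBall b0 r).prod (isCompact_closedBall (0 : E n) j)
      refine hK.of_isClosed_subset (hK.isClosed.isClosed_eq (fun q hq => ?_) fun q hq => ?_)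
        fun q hq => hq.1
      · exact (ContinuousAt.comp (f := fun q : E n × E n => (q.1, τ))
          (unif_cont h (w := (q.1, τ)) (hB hq.1)) (by fun_prop)).continuousWithinAt
      · exact (unif_cont h (hB hq.1)).continuousWithinAt
    · ext b
      simp only [S, mem_ofPred_eq, mem_iInter, mem_image, mem_prod]
      refine forall_congr' fun τ => ⟨fun ⟨h1, τ', h2, h3⟩ => ⟨(b, τ'), ⟨⟨h1, h2⟩, h3⟩, rfl⟩, ?_⟩
      rintro ⟨q, ⟨⟨h1, h2⟩, h3⟩, rfl⟩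
      exact ⟨h1, q.2, h2, h3⟩
  have hd := dense_iUnion_interior_of_closed (f := fun j => S j ∪ (ball b0 r)ᶜ)
    (fun j => (hS j).union isOpen_ball.isClosed_compl) (eq_univ_of_forall fun b => by
      by_cases hb : b ∈ ball b0 r
      · obtain ⟨j, hj⟩ := fib_red hf (hB (ball_subset_closedBall hb))
        exact mem_iUnion.2 ⟨j, Or.inl fun τ => ⟨ball_subset_closedBall hb, hj τ⟩⟩
      · exact mem_iUnion.2 ⟨0, Or.inr hb⟩)
  obtain ⟨b, hb, hb'⟩ := hd.inter_open_nonempty _ isOpen_ball ⟨b0, mem_ball_self hr⟩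
  obtain ⟨j, hj⟩ := mem_iUnion.1 hb'
  have hs : ball b0 r ∩ interior (S j ∪ (ball b0 r)ᶜ) ⊆ T :=
    inter_subset_left.trans (ball_subset_closedBall.trans hB)
  refine ⟨_, hs, ⟨b, hb, hj⟩, isOpen_ball.inter isOpen_interior, fun w hw => h w (hs hw),
    fib_mono hf hs, j, fun x hx τ => ?_⟩
  exact (((interior_subset hx.2).resolve_right fun h' => h' hx.1) τ).2

theorem Tube.proj_apply (h : Tube A T Ψ) {b : E n} (hb : b ∈ T) (τ : E n) :
    proj T Ψ (Ψ (b, τ)) = b := by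
  have h2 := Function.invFunOn_pos (f := Ψ) (s := T ×ˢ univ) (b := Ψ (b, τ))
    ⟨(b, τ), ⟨hb, trivial⟩, rfl⟩
  obtain ⟨Λ, -, -, h3⟩ := h.fib b hb
  exact ((h3 _ h2.1.1 τ _).1 h2.2.symm).1.symm

theorem unif_inv (h : A.IsUnif T Ψ) (hT : IsOpen T) {i : A.ι} {z : E N} (hz : z ∈ (A.C i).W)
    {w : E n × E n} (hw : w.1 ∈ T) (he : A.p i z = Ψ w) : ∃ χ : E N → E n × E n,
      ∀ᶠ y in 𝓝 z, DifferentiableAt ℂ χ y ∧ (χ y).1 ∈ T ∧ Ψ (χ y) = A.p i y := by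
  obtain ⟨j, e, hwe, -, hd, hs⟩ := unif_local h hT hw
  obtain ⟨O, φ, h1, h2, h3, h4⟩ :=
    A.trans i j z hz (e w) (hs w hwe).2.1 (he.trans (hs w hwe).2.2.1.symm)
  have h5 : ContinuousAt φ z := (h1.hol.differentiableAt (h1.isOpen.mem_nhds h2)).continuousAt
  have h6 : e.target ∈ 𝓝 (φ z) := by
    rw [h3]
    exact e.open_target.mem_nhds (e.map_source hwe)
  refine ⟨fun y => e.symm (φ y), ?_⟩
  filter_upwards [h1.isOpen.mem_nhds h2, h5.eventually h6] with y hy hy'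
  have h7 := hs _ (e.map_target hy')
  refine ⟨(hd.differentiableAt (e.open_target.mem_nhds hy')).comp y
    (h1.hol.differentiableAt (h1.isOpen.mem_nhds hy)), h7.1, ?_⟩
  rw [← h7.2.2.1, e.right_inv hy', h4 y hy]

/-- The projection is holomorphic in the charts. -/
theorem Tube.proj_loc (h : Tube A T Ψ) {i : A.ι} {z : E N} (hz : z ∈ (A.C i).W)
    (hx : A.p i z ∈ Ψ '' (T ×ˢ univ)) :
    ∀ᶠ y in 𝓝 z, A.p i y ∈ Ψ '' (T ×ˢ univ) ∧
      DifferentiableAt ℂ (fun y => proj T Ψ (A.p i y)) y := by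
  obtain ⟨w, hw, he⟩ := hx
  obtain ⟨χ, hχ⟩ := unif_inv h.unif h.isOpen hz hw.1 he.symm
  filter_upwards [hχ.eventually_nhds] with y hy
  have h0 := hy.self_of_nhds
  refine ⟨⟨χ y, ⟨h0.2.1, trivial⟩, h0.2.2⟩, h0.1.fst.congr_of_eventuallyEq ?_⟩
  filter_upwards [hy] with x hx
  rw [← hx.2.2]
  exact h.proj_apply hx.2.1 (χ x).2

theorem Tube.proj_mem (h : Tube A T Ψ) {x : Y} (hx : x ∈ Ψ '' (T ×ˢ univ)) :
    proj T Ψ x ∈ T ∧ ∃ τ, x = Ψ (proj T Ψ x, τ) := by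
  obtain ⟨⟨b, τ⟩, hw, rfl⟩ := hx
  rw [h.proj_apply hw.1]
  exact ⟨hw.1, τ, rfl⟩

omit [TopologicalSpace Y] in
/-- A function continuous on a compact leaf is bounded. -/
theorem leaf_bdd (hf : IsFibred Ψ T) {b : E n} (hb : b ∈ T) {F : Type} [NormedAddCommGroup F]
    {g : Y → F} (hg : Continuous fun τ => g (Ψ (b, τ))) : ∃ C, ∀ τ, ‖g (Ψ (b, τ))‖ ≤ C := by
  obtain ⟨j, hj⟩ := fib_red hf hb
  obtain ⟨C, hC⟩ := (isCompact_closedBall (0 : E n) j).exists_bound_of_continuousOn hg.continuousOn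
  refine ⟨C, fun τ => ?_⟩
  obtain ⟨τ', h1, h2⟩ := hj τ
  rw [h2]
  exact hC τ' h1

theorem unif_leaf (h : A.IsUnif T Ψ) {b : E n} (hb : b ∈ T) : A.IsLeafMap fun τ => Ψ (b, τ) := by
  intro t
  obtain ⟨i, O, f, hO, hw, hf, hs⟩ := h (b, t) hb
  have hl : ∀ s : E n, HasFDerivAt (fun τ : E n => ((b, τ) : E n × E n))
      (ContinuousLinearMap.inr ℂ (E n) (E n)) s := fun s => hasFDerivAt_prodMk_right b s
  have hd : ∀ s, (b, s) ∈ O → HasFDerivAt (fun τ => f (b, τ))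
      ((fderiv ℂ f (b, s)).comp (ContinuousLinearMap.inr ℂ (E n) (E n))) s := fun s hs' =>
    (hf.differentiableAt (hO.mem_nhds hs')).hasFDerivAt.comp s (hl s)
  refine ⟨i, (fun τ => (b, τ)) ⁻¹' O, fun τ => f (b, τ), hO.preimage (by fun_prop), hw,
    fun s hs' => (hd s hs').differentiableAt.differentiableWithinAt, fun s hs' => ?_⟩
  obtain ⟨h1, h2, h3, h4, -⟩ := hs _ hs'
  rw [(hd s hs').fderiv]
  refine ⟨h1, h2, h3.1.comp fun u v huv => (Prod.ext_iff.1 huv).2, ?_⟩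
  ext v
  rw [h4]
  exact Iff.rfl

/-- A section norm is constant on compact leaves. -/
theorem sect_leaf (h : A.IsUnif T Ψ) (hf : IsFibred Ψ T) {k : ℝ} {u : Y → ℝ}
    (hu : A.IsSectionNorm k u) {b : E n} (hb : b ∈ T) (τ : E n) :
    u (Ψ (b, τ)) = u (Ψ (b, 0)) := by
  have hΦ := unif_leaf h hb
  have h1 : ContDiff ℝ ∞ fun s => u (Ψ (b, s)) := contDiff_iff_contDiffAt.2 fun s => by
    obtain ⟨O, a, φ, hs, -, -, -, hr⟩ := sect_local hΦ hu s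
    exact Complex.reCLM.contDiff.contDiffAt.comp s (hr.contDiffAt ⟨s, hs⟩)
  obtain ⟨C, hC⟩ := leaf_bdd hf hb (g := u) h1.continuous
  refine psh_const (u := fun s => u (Ψ (b, s))) (M := C) h1
    (fun s => (le_abs_self _).trans (hC s)) (fun s v => ?_) τ 0
  obtain ⟨O, a, φ, hs, ha, hφ, h, hr⟩ := sect_local hΦ hu s
  have := sect_levi_nonneg ha hφ h ⟨s, hs⟩ v
  simpa only [((hr.db _).d _) ⟨s, hs⟩] using this

variable {hinj : ∀ i, InjOn (A.p i) (A.C i).W} {M : Set Y} {hM : IsOpen M} {k : ℝ} {φ : Y → ℝ}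

/-- The potential along a holomorphic map to `T × ℂ^n`. -/
theorem pot_along (h : A.IsUnif T Ψ) (hφ : Pot A hinj hM k φ) {l : E n → E n × E n}
    (hl : Differentiable ℂ l) {t : E n} (h1 : (l t).1 ∈ T) (h2 : Ψ (l t) ∈ M) :
    ContDiffAt ℝ ∞ (fun s => φ (Ψ (l s))) t ∧
      ∃ (η : Mat N) (D : E n × E n →L[ℂ] E N), η.PosSemidef ∧ Function.Injective D ∧
        (∀ v, v ᵥ* η = 0 ↔ ∃ τ, D (0, τ) = v) ∧ ∀ v, hq (lev (fun s => φ (Ψ (l s))) t) v v =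
          k * hq η (D (fderiv ℂ l t v)) (D (fderiv ℂ l t v)) := by
  obtain ⟨i, O, f, hO, hw, hf, hs⟩ := h (l t) h1
  obtain ⟨a1, a2, a3, a4, -⟩ := hs _ hw
  have hz : f (l t) ∈ (man A hinj hM).W i := ⟨a1, by rw [mem_preimage]; exact a2 ▸ h2⟩
  have hn : ∀ᶠ s in 𝓝 t, l s ∈ O := hl.continuous.continuousAt.eventually (hO.mem_nhds hw)
  have hd : ∀ᶠ s in 𝓝 t, DifferentiableAt ℂ (fun s => f (l s)) s :=
    hn.mono fun s hs' => (hf.differentiableAt (hO.mem_nhds hs')).comp s (hl s)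
  have he : (fun s => φ (Ψ (l s))) =ᶠ[𝓝 t] fun s => φ (A.p i (f (l s))) :=
    hn.mono fun s hs' => by simp only [(hs _ hs').2.1]
  have hc : ContDiffAt ℝ ∞ (fun y => φ (A.p i y)) (f (l t)) :=
    (hφ.smo i).contDiffAt (((man A hinj hM).isOpen i).mem_nhds hz)
  refine ⟨(ContDiffAt.comp (f := fun s => f (l s)) t hc
    (smoothAt_of_hol hd)).congr_of_eventuallyEq he,
    (A.C i).η (f (l t)), fderiv ℂ f (l t), (A.C i).η_psd _ a1, a3.1, fun v => a4 v, fun v => ?_⟩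
  rw [(lev_congr he).self_of_nhds, lev_comp (f := fun y => φ (A.p i y)) (φ := fun s => f (l s))
    hc hd, hq_conj, hφ.lev i _ hz, hq_smul, jac_mulVec,
    fderiv_fun_comp t (hf.differentiableAt (hO.mem_nhds hw)) (hl t)]
  rfl

theorem pot_leaf (h : A.IsUnif T Ψ) (hf : IsFibred Ψ T) (hφ : Pot A hinj hM k φ) {b : E n}
    (hb : b ∈ T) (hm : ∀ τ, Ψ (b, τ) ∈ M) (τ : E n) : φ (Ψ (b, τ)) = φ (Ψ (b, 0)) := by
  have key := fun t => pot_along h hφ (l := fun s => (b, s)) (by fun_prop) (t := t) hb (hm t)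
  have h1 : ContDiff ℝ ∞ fun s => φ (Ψ (b, s)) := contDiff_iff_contDiffAt.2 fun s => (key s).1
  obtain ⟨C, hC⟩ := leaf_bdd hf hb (g := φ) h1.continuous
  refine psh_const (u := fun s => φ (Ψ (b, s))) (M := C) h1
    (fun s => (le_abs_self _).trans (hC s)) (fun s v => ?_) τ 0
  obtain ⟨η, D, -, -, h3, h4⟩ := (key s).2
  have h5 := h4 v
  rw [(hasFDerivAt_prodMk_right (𝕜 := ℂ) b s).fderiv, ContinuousLinearMap.inr_apply,
    hq.eq_1 η, Matrix.dotProduct_mulVec, (h3 _).2 ⟨v, rfl⟩, zero_dotProduct, mul_zero,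
    hq_sum_eq] at h5
  refine le_of_eq ?_
  rw [← Complex.zero_re, ← h5]
  congr 1
  exact Finset.sum_congr rfl fun a _ => Finset.sum_congr rfl fun c _ => by
    rw [lev_apply]; ring

theorem pot_base (h : A.IsUnif T Ψ) (hφ : Pot A hinj hM k φ) (hk : 0 < k) {b : E n} (hb : b ∈ T)
    (hm : Ψ (b, 0) ∈ M) : ContDiffAt ℝ ∞ (fun y => φ (Ψ (y, 0))) b ∧
      ∀ v, v ≠ 0 → 0 < (hq (lev (fun y => φ (Ψ (y, 0))) b) v v).re := by
  obtain ⟨h1, η, D, h2, h3, h4, h5⟩ :=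
    pot_along h hφ (l := fun s => (s, 0)) (by fun_prop) (t := b) hb hm
  refine ⟨h1, fun v hv => ?_⟩
  rw [h5, (hasFDerivAt_prodMk_left (𝕜 := ℂ) b (0 : E n)).fderiv, ContinuousLinearMap.inl_apply,
    Complex.re_ofReal_mul]
  refine mul_pos hk (lt_of_le_of_ne (hq_nonneg h2 _) fun h0 => hv ?_)
  obtain ⟨τ, hτ⟩ := (h4 _).1 (hq_null h2 h0.symm)
  exact (Prod.ext_iff.1 (h3 hτ)).1.symm

end Pool.Agent.AB
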