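import Pool.Agent.K.MP_63735c_ag.C161

/-! A twisted tensor gives a nowhere vanishing section on a tube. -/

open scoped ComplexOrder ContDiff Matrix Topology
open Set Metric Filter

namespace Pool.Agent.SE

open Pool.Agent.SPF Pool.Agent.NL Pool.Agent.AB

variable {N n : ℕ} {Y : Type} [TopologicalSpace Y] {κ : Type}

/-- `w` is a holomorphic section over `M` of the line bundle given by `c`. -/
structure Sect (A : Atlas Y N) (c : A.ι → A.ι → E N → ℂ) (M : Set Y) (w : A.ι → E N → ℂ) :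
    Prop where
  hol : ∀ i, DifferentiableOn ℂ (w i) ((A.C i).W ∩ A.p i ⁻¹' M)
  cpt : ∀ i j, ∀ z ∈ (A.C i).W, ∀ y ∈ (A.C j).W, A.p i z = A.p j y → A.p i z ∈ M →
    w j y = c i j z * w i z

variable {A : Atlas Y N} {c : A.ι → A.ι → E N → ℂ} {α : A.ι → E N → Ten N κ} {T : Set (E n)}
  {Ψ : E n × E n → Y}

theorem Sect.mono {M M' : Set Y} {w : A.ι → E N → ℂ} (h : Sect A c M w) (hs : M' ⊆ M) :
    Sect A c M' w :=
  ⟨fun i => (h.hol i).mono fun _ hz => ⟨hz.1, hs hz.2⟩,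
    fun i j z hz y hy he hx => h.cpt i j z hz y hy he (hs hx)⟩

theorem tube_open (h : Tube A T Ψ) : IsOpen (Ψ '' (T ×ˢ univ)) := by
  refine isOpen_iff_mem_nhds.2 fun x hx => ?_
  obtain ⟨i, z, hz, rfl⟩ := A.cover x
  obtain ⟨O, h1, h2, h3⟩ := _root_.mem_nhds_iff.1
    (inter_mem (h.proj_loc hz hx) ((A.C i).isOpen.mem_nhds hz))
  refine mem_of_superset ((A.opn i O h2 fun t ht => (h1 ht).2).mem_nhds ⟨z, h3, rfl⟩) ?_
  rintro _ ⟨t, ht, rfl⟩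
  exact (h1 ht).1.1

theorem exists_sect [PreconnectedSpace Y] [Fintype κ] (hinj : ∀ i, InjOn (A.p i) (A.C i).W)
    (hα : Tens A c α)
    (hc : ∀ i j, ∀ z ∈ (A.C i).W, ∀ y ∈ (A.C j).W, A.p i z = A.p j y → c i j z ≠ 0)
    (h : Tube A T Ψ) (hne : T.Nonempty) (h0 : ∃ i, ∃ z ∈ (A.C i).W, α i z ≠ 0) :
    ∃ w, Sect A c (Ψ '' (T ×ˢ univ)) w ∧
      ∃ i, ∃ z ∈ (A.C i).W, A.p i z ∈ Ψ '' (T ×ˢ univ) ∧ w i z ≠ 0 := by
  classical
  let G : Finset κ → Prop := fun S => ∃ i, ∃ z ∈ (A.C i).W, ∃ q : E n × E n, q.1 ∈ T ∧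
    A.p i z = Ψ q ∧ ∃ x : κ → E n × E n, (∀ l ∈ S, (x l).1 = 0) ∧ pb α Ψ i q x ≠ 0
  have hG : G ∅ := by
    by_contra hn
    obtain ⟨i, z, hz, h1⟩ := h0
    obtain ⟨b, hb⟩ := hne
    refine h1 (hα.zero hc (tube_open h) ⟨_, (b, 0), ⟨hb, trivial⟩, rfl⟩
      (fun j y hy hx => by_contra fun h2 => ?_) i z hz)
    obtain ⟨q, a, e, x, h3⟩ := pb_ne hinj h.unif h.isOpen hy hx h2
    exact hn ⟨j, y, hy, q, a, e, x, fun l hl => (Finset.notMem_empty l hl).elim, h3⟩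
  obtain ⟨S, hS, hmax⟩ := (Finset.univ.filter G).exists_max_image Finset.card
    ⟨∅, Finset.mem_filter.2 ⟨Finset.mem_univ _, hG⟩⟩
  obtain ⟨i0, z0, hz0, q0, hq0, e0, x, hx, hx0⟩ := (Finset.mem_filter.1 hS).2
  have ind : ∀ i, ∀ z ∈ (A.C i).W, ∀ q q' : E n × E n, q.1 ∈ T → q'.1 ∈ T → A.p i z = Ψ q →
      A.p i z = Ψ q' → pb α Ψ i q x = pb α Ψ i q' x := by
    intro i z hz q q' a a' e e'
    obtain ⟨J, j1, j2, j3⟩ := pb_deck (α := α) hinj h a a' hz e e'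
    rw [j3]
    refine most_vert _ (S := S) (fun l hl y hy => by_contra fun h1 => ?_) (fun l => j1 _)
      (fun l hl => j2 _ (hx l hl)) hx
    have := hmax _ (Finset.mem_filter.2 ⟨Finset.mem_univ _, i, z, hz, q', a', e', y, hy, h1⟩)
    rw [Finset.card_insert_of_notMem hl] at this
    omega
  let r : Y → E n × E n := Function.invFunOn Ψ (T ×ˢ univ)
  have hr : ∀ y ∈ Ψ '' (T ×ˢ univ), (r y).1 ∈ T ∧ y = Ψ (r y) := fun y hy =>
    ⟨(Function.invFunOn_pos hy).1.1, (Function.invFunOn_pos hy).2.symm⟩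
  refine ⟨fun i z => pb α Ψ i (r (A.p i z)) x, ⟨fun i z hz => ?_, fun i j z hz y hy he hm => ?_⟩,
    i0, z0, hz0, ⟨q0, ⟨hq0, trivial⟩, e0.symm⟩, ?_⟩
  · obtain ⟨χ, hχ⟩ := unif_inv h.unif h.isOpen hz.1 (hr _ hz.2).1 (hr _ hz.2).2
    obtain ⟨a, b, e⟩ := hχ.self_of_nhds
    refine (DifferentiableAt.congr_of_eventuallyEq (f := fun y => pb α Ψ i (χ y) x)
      ((pb_diffAt hinj hα h.unif b hz.1 e.symm x).comp z a) ?_).differentiableWithinAt
    filter_upwards [hχ, (A.C i).isOpen.mem_nhds hz.1] with y hy hy'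
    have hm : A.p i y ∈ Ψ '' (T ×ˢ univ) := ⟨χ y, ⟨hy.2.1, trivial⟩, hy.2.2⟩
    exact ind i y hy' _ _ (hr _ hm).1 hy.2.1 (hr _ hm).2 hy.2.2.symm
  · simp only [← he]
    exact pb_cpt hinj hα h.unif (hr _ hm).1 hz hy (hr _ hm).2 (he.symm.trans (hr _ hm).2) x
  · have hm : A.p i0 z0 ∈ Ψ '' (T ×ˢ univ) := ⟨q0, ⟨hq0, trivial⟩, e0.symm⟩
    exact fun h1 => hx0 ((ind i0 z0 hz0 _ _ hq0 (hr _ hm).1 e0 (hr _ hm).2).trans h1)

/-- The local form of a section norm along a leaf. -/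
theorem sect_loc {Φ : E n → Y} (hΦ : A.IsLeafMap Φ) {k : ℝ} {u : Y → ℝ} {t : E n}
    (hu : ∀ i, ∀ z ∈ (A.C i).W, A.p i z = Φ t → ∃ (O : Set (E N)) (ψ : E N → ℝ) (f : E N → ℂ),
      IsOpen O ∧ z ∈ O ∧ ContDiffOn ℝ ∞ ψ O ∧ DifferentiableOn ℂ f O ∧ ∀ w ∈ O,
        (∀ a b, dz a (fun y => star (dz b (fun x => (ψ x : ℂ)) y)) w = (A.C i).η w a b) ∧
          u (A.p i w) = ‖f w‖ ^ 2 * Real.exp (-k * ψ w)) :
    ∃ (O : TopologicalSpace.Opens (E n)) (a φ : Sm O), t ∈ O ∧ (∀ i, Sm.db i a = 0) ∧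
      star φ = φ ∧ (∀ i j, Sm.d i (Sm.db j φ) = 0) ∧
      (a * star a * sectExp φ).Rep fun s => (u (Φ s) : ℂ) := by
  obtain ⟨i, O₁, f, hO₁, ht, hf, h₁⟩ := hΦ t
  obtain ⟨O₂, ψ, F, hO₂, hz, hψ, hF, h₂⟩ := hu i (f t) (h₁ t ht).1 (h₁ t ht).2.1
  let O : TopologicalSpace.Opens (E n) :=
    ⟨O₁ ∩ f ⁻¹' O₂, hf.continuousOn.isOpen_inter_preimage hO₁ hO₂⟩
  let Q : TopologicalSpace.Opens (E N) := ⟨O₂, hO₂⟩
  have hf' : DifferentiableOn ℂ f O := hf.mono inter_subset_left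
  have hm : MapsTo f O Q := fun _ hs => hs.2
  have hψ' : ContDiffOn ℝ ∞ (fun x => (ψ x : ℂ)) Q :=
    Complex.ofRealCLM.contDiff.comp_contDiffOn hψ
  let ψs : Sm Q := Sm.mk _ hψ'
  let Fs : Sm Q := Sm.mkH F hF
  have rψ : ψs.Rep fun x => (ψ x : ℂ) := Sm.rep_mk _ hψ'
  have rF : Fs.Rep F := Sm.rep_mkH F hF
  have hst : star ψs = ψs := by
    ext x
    rw [Sm.ev_star, rψ x]
    exact Complex.conj_ofReal _
  have hη : ∀ c e (x : Q), Sm.ev x (Sm.d e (Sm.db c ψs)) = (A.C i).η x e c := by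
    intro c e x
    have r1 : (Sm.db c ψs).Rep fun y => star (dz c (fun x => (ψ x : ℂ)) y) := fun y => by
      rw [← hst, ← Sm.star_d, Sm.ev_star, rψ.d c y]
    rw [r1.d e x]
    exact (h₂ x x.2).1 e c
  have hnull : ∀ (x : O) a c, ∑ e, jac f x e a * (A.C i).η (f x) e c = 0 := by
    intro x a c
    have h3 : fderiv ℂ f x (Pi.single a 1) ∈ (A.C i).null (f x) := by
      rw [← (h₁ x x.2.1).2.2.2]
      exact ⟨Pi.single a 1, rfl⟩
    exact congrFun (LinearMap.mem_ker.1 h3) c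
  have hdd : ∀ a b, Sm.d a (Sm.db b (Sm.pull f hf' hm ψs)) = 0 := by
    intro a b
    rw [Sm.db_pull, map_sum]
    refine Finset.sum_eq_zero fun c _ => ?_
    rw [Derivation.leibniz, sect_d_star, Sm.db_J, star_zero, smul_zero, add_zero, Sm.d_pull]
    have h4 : ∑ e, Sm.J f hf' e a * Sm.pull f hf' hm (Sm.d e (Sm.db c ψs)) = 0 := by
      ext x
      rw [map_sum, map_zero, ← hnull x a c]
      refine Finset.sum_congr rfl fun e _ => ?_
      rw [map_mul, Sm.ev_J, Sm.ev_pull, hη]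
    rw [h4, smul_zero]
  refine ⟨O, Sm.pull f hf' hm Fs, (-k : ℂ) • Sm.pull f hf' hm ψs, ⟨ht, hz⟩, fun j => ?_, ?_,
    fun a b => ?_, fun x => ?_⟩
  · rw [Sm.db_pull]
    refine Finset.sum_eq_zero fun c _ => ?_
    rw [rF.db_eq_zero hF c, map_zero, mul_zero]
  · ext x
    rw [Sm.ev_star, map_smul, rψ.pull hf' hm x, smul_eq_mul, ← Complex.ofReal_neg,
      ← Complex.ofReal_mul]
    exact Complex.conj_ofReal _
  · rw [Derivation.map_smul, Derivation.map_smul, hdd, smul_zero]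
  · rw [map_mul, map_mul, Sm.ev_star, sect_ev_exp, map_smul, rψ.pull hf' hm x, rF.pull hf' hm x,
      smul_eq_mul, Complex.star_def, Complex.mul_conj, ← Complex.ofReal_neg, ← Complex.ofReal_mul,
      ← Complex.ofReal_exp, ← Complex.ofReal_mul, Complex.normSq_eq_norm_sq,
      ← (h₂ (f x) x.2.2).2, (h₁ x x.2.1).2.1]

/-- A nonzero twisted tensor gives a nowhere vanishing section on a smaller tube. -/
theorem descent [PreconnectedSpace Y] [Fintype κ] (hinj : ∀ i, InjOn (A.p i) (A.C i).W) {k : ℝ}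
    {ψ : A.ι → E N → ℝ} (hH : Herm A k c ψ) (hα : Tens A c α) (h : Tube A T Ψ) (hne : T.Nonempty)
    (h0 : ∃ i, ∃ z ∈ (A.C i).W, α i z ≠ 0) :
    ∃ T' ⊆ T, T'.Nonempty ∧ ∃ (h' : Tube A T' Ψ) (w : A.ι → E N → ℂ) (φ : Y → ℝ),
      Sect A c (Ψ '' (T' ×ˢ univ)) w ∧ Pot A hinj (tube_open h') k φ ∧
      ∀ i, ∀ z ∈ (A.C i).W, A.p i z ∈ Ψ '' (T' ×ˢ univ) → w i z ≠ 0 ∧
        Real.exp (-φ (A.p i z)) = ‖w i z‖ ^ 2 * Real.exp (-k * ψ i z) := by
  obtain ⟨w, hw, i0, z0, hz0, ⟨q0, hq0, e0⟩, hw0⟩ :=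
    exists_sect hinj hα (fun i j z hz y hy he => hH.ne hz hy he) h hne h0
  choose ci cz hcz hce using A.cover
  let u : Y → ℝ := fun x => ‖w (ci x) (cz x)‖ ^ 2 * Real.exp (-k * ψ (ci x) (cz x))
  have hu : ∀ i, ∀ z ∈ (A.C i).W, A.p i z ∈ Ψ '' (T ×ˢ univ) →
      u (A.p i z) = ‖w i z‖ ^ 2 * Real.exp (-k * ψ i z) := fun i z hz hx => by
    simp only [u]
    rw [hw.cpt i _ z hz _ (hcz _) (hce _).symm hx, hH.cpt i _ z hz _ (hcz _) (hce _).symm,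
      norm_mul]
    ring
  have hO := fun i => (A.cont i).isOpen_inter_preimage (A.C i).isOpen (tube_open h)
  have leaf : ∀ b ∈ T, ∀ τ, u (Ψ (b, τ)) = u (Ψ (b, 0)) := fun b hb τ => by
    have key := fun s => sect_loc (unif_leaf h.unif hb) (k := k) (u := u) (t := s)
      fun i z hz he => ⟨_, ψ i, w i, hO i, ⟨hz, (b, s), ⟨hb, trivial⟩, he.symm⟩,
        (hH.smooth i).mono inter_subset_left, hw.hol i, fun y hy =>
          ⟨fun a e => congrFun (congrFun (hH.lev i y hy.1) a) e, hu i y hy.1 hy.2⟩⟩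
    have h1 : ContDiff ℝ ∞ fun s => u (Ψ (b, s)) := contDiff_iff_contDiffAt.2 fun s => by
      obtain ⟨O, a, φ, hs, -, -, -, hr⟩ := key s
      exact Complex.reCLM.contDiff.contDiffAt.comp s (hr.contDiffAt ⟨s, hs⟩)
    obtain ⟨C, hC⟩ := leaf_bdd h.fib hb (g := u) h1.continuous
    refine psh_const (u := fun s => u (Ψ (b, s))) (M := C) h1
      (fun s => (le_abs_self _).trans (hC s)) (fun s v => ?_) τ 0
    obtain ⟨O, a, φ, hs, ha, hφ, h2, hr⟩ := key s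
    have := sect_levi_nonneg ha hφ h2 ⟨s, hs⟩ v
    simpa only [((hr.db _).d _) ⟨s, hs⟩] using this
  have hc : ContinuousOn u (Ψ '' (T ×ˢ univ)) := by
    rw [← man_M (A := A) (hinj := hinj) (hM := tube_open h)]
    exact Man.contOn fun i => (((hw.hol i).continuousOn.norm.pow 2).mul
      (continuousOn_const.mul ((hH.smooth i).continuousOn.mono inter_subset_left)).rexp).congr
      fun z hz => hu i z hz.1 hz.2
  have hc' : ContinuousOn (fun b => u (Ψ (b, 0))) T := hc.comp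
    (fun b hb => (ContinuousAt.comp (f := fun y : E n => ((y, 0) : E n × E n))
      (unif_cont h.unif hb) (by fun_prop)).continuousWithinAt)
    fun b hb => ⟨(b, 0), ⟨hb, trivial⟩, rfl⟩
  have h' := h.mono (hc'.isOpen_inter_preimage h.isOpen (isOpen_ne (x := (0 : ℝ))))
    inter_subset_left
  have hs : Ψ '' ((T ∩ (fun b => u (Ψ (b, 0))) ⁻¹' {y | y ≠ 0}) ×ˢ univ) ⊆ Ψ '' (T ×ˢ univ) :=
    image_mono (prod_mono inter_subset_left subset_rfl)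
  have hn : ∀ i, ∀ z ∈ (man A hinj (tube_open h')).W i, w i z ≠ 0 := by
    rintro i z ⟨hz, q, hq, e⟩ h1
    refine hq.1.2 (show u (Ψ (q.1, 0)) = 0 from ?_)
    rw [← leaf q.1 hq.1.1 q.2, show Ψ (q.1, q.2) = _ from e, hu i z hz ⟨q, ⟨hq.1.1, trivial⟩, e⟩,
      h1]
    simp
  have key : ∀ i, ∀ z ∈ (man A hinj (tube_open h')).W i,
      ContDiffAt ℝ ∞ (fun y => -Real.log (u (A.p i y))) z ∧
      lev (fun y => -Real.log (u (A.p i y))) z = (k : ℂ) • (A.C i).η z := by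
    intro i z hz
    have hm := ((man A hinj (tube_open h')).isOpen i).mem_nhds hz
    have hfa : ∀ᶠ x in 𝓝 z, DifferentiableAt ℂ (w i) x := mem_of_superset hm fun x hx =>
      (hw.hol i).differentiableAt ((hO i).mem_nhds ⟨hx.1, hs hx.2⟩)
    obtain ⟨l1, l2⟩ := lev_log_norm hfa (hn i z hz)
    have hψa : ContDiffAt ℝ ∞ (ψ i) z := (hH.smooth i).contDiffAt ((A.C i).isOpen.mem_nhds hz.1)
    have he : (fun y => -Real.log (u (A.p i y))) =ᶠ[𝓝 z]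
        fun y => k * ψ i y + (-2) * Real.log ‖w i y‖ := by
      filter_upwards [hm] with y hy
      rw [hu i y hy.1 (hs hy.2), Real.log_mul (pow_ne_zero _ (norm_ne_zero_iff.2 (hn i y hy)))
        (Real.exp_ne_zero _), Real.log_exp, Real.log_pow]
      push_cast
      ring
    have s1 : ContDiffAt ℝ ∞ (fun y => k * ψ i y) z := contDiffAt_const.mul hψa
    have s2 : ContDiffAt ℝ ∞ (fun y => (-2) * Real.log ‖w i y‖) z := contDiffAt_const.mul l1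
    refine ⟨(s1.add s2).congr_of_eventuallyEq he, ?_⟩
    rw [(lev_congr he).self_of_nhds, lev_add s1 s2, lev_smul hψa, lev_smul l1, l2,
      hH.lev i z hz.1, smul_zero, add_zero]
  refine ⟨_, inter_subset_left, ⟨q0.1, hq0.1, fun h1 => ?_⟩, h', w, fun x => -Real.log (u x),
    hw.mono hs, ⟨fun i z hz => (key i z hz).1.contDiffWithinAt, fun i z hz => (key i z hz).2⟩,
    fun i z hz hx => ⟨hn i z ⟨hz, hx⟩, ?_⟩⟩
  · change u (Ψ (q0.1, 0)) = 0 at h1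
    rw [← leaf q0.1 hq0.1 q0.2, show Ψ (q0.1, q0.2) = _ from e0, hu i0 z0 hz0 ⟨q0, hq0, e0⟩] at h1
    exact (mul_pos (pow_pos (norm_pos_iff.2 hw0) 2) (Real.exp_pos _)).ne' h1
  · rw [neg_neg, hu i z hz (hs hx),
      Real.exp_log (mul_pos (pow_pos (norm_pos_iff.2 (hn i z ⟨hz, hx⟩)) 2) (Real.exp_pos _))]

end Pool.Agent.SE
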