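import Pool.Agent.K.MP_63735c_ag.C160

/-! Functions pulled back from the base of a tube. -/

open scoped ComplexOrder ContDiff Matrix Topology ENNReal
open Set Metric MeasureTheory Filter

namespace Pool.Agent.AB

open Pool.Agent.SPF Pool.Agent.NL

variable {N n : ℕ} {Y : Type} [TopologicalSpace Y] {A : Atlas Y N} {T C : Set (E n)}
  {Ψ : E n × E n → Y}

omit [TopologicalSpace Y] in
theorem push_in {F : Type} [Zero F] (f : E n → F) {x : Y} (hx : x ∈ Ψ '' (T ×ˢ univ)) :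
    push T Ψ f x = f (proj T Ψ x) := indicator_of_mem hx _

omit [TopologicalSpace Y] in
theorem push_out {F : Type} [Zero F] (f : E n → F) {x : Y} (hx : x ∉ Ψ '' (T ×ˢ univ)) :
    push T Ψ f x = 0 := indicator_of_notMem hx _

theorem Tube.cpt (h : Tube A T Ψ) (hC : IsCompact C) (hCT : C ⊆ T) :
    IsCompact (Ψ '' (C ×ˢ univ)) := by
  obtain ⟨j, hj⟩ := h.red
  have : Ψ '' (C ×ˢ univ) = Ψ '' (C ×ˢ closedBall 0 j) := by
    refine Subset.antisymm ?_ (image_mono (prod_mono subset_rfl (subset_univ _)))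
    rintro _ ⟨⟨b, τ⟩, hw, rfl⟩
    obtain ⟨τ', h1, h2⟩ := hj b (hCT hw.1) τ
    exact ⟨(b, τ'), ⟨hw.1, h1⟩, h2.symm⟩
  rw [this]
  exact (hC.prod (isCompact_closedBall _ _)).image_of_continuousOn fun q hq =>
    (unif_cont h.unif (hCT hq.1)).continuousWithinAt

theorem Tube.push_zero (h : Tube A T Ψ) {F : Type} [Zero F] {f : E n → F}
    (h0 : ∀ y ∉ C, f y = 0) {x : Y} (hx : x ∉ Ψ '' (C ×ˢ univ)) : push T Ψ f x = 0 := by
  by_cases h1 : x ∈ Ψ '' (T ×ˢ univ)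
  · rw [push_in f h1]
    obtain ⟨-, τ, h2⟩ := h.proj_mem h1
    exact h0 _ fun h3 => hx ⟨(proj T Ψ x, τ), ⟨h3, trivial⟩, h2.symm⟩
  · exact push_out f h1

theorem Tube.push_loc [T2Space Y] (h : Tube A T Ψ) (hC : IsCompact C) (hCT : C ⊆ T) {F : Type}
    [Zero F] {f : E n → F} (h0 : ∀ y ∉ C, f y = 0) {i : A.ι} {z : E N} (hz : z ∈ (A.C i).W)
    (hx : A.p i z ∉ Ψ '' (T ×ˢ univ)) : (fun y => push T Ψ f (A.p i y)) =ᶠ[𝓝 z] fun _ => 0 := by
  have h1 : (Ψ '' (C ×ˢ univ))ᶜ ∈ 𝓝 (A.p i z) := (h.cpt hC hCT).isClosed.isOpen_compl.mem_nhds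
    fun h2 => hx (image_mono (prod_mono hCT subset_rfl) h2)
  filter_upwards [((A.cont i).continuousAt ((A.C i).isOpen.mem_nhds hz)).eventually h1] with y hy
  exact h.push_zero h0 hy

theorem Tube.push_eq (h : Tube A T Ψ) {F : Type} [Zero F] (f : E n → F) {i : A.ι} {z : E N}
    (hz : z ∈ (A.C i).W) (hx : A.p i z ∈ Ψ '' (T ×ˢ univ)) :
    (fun y => push T Ψ f (A.p i y)) =ᶠ[𝓝 z] fun y => f (proj T Ψ (A.p i y)) :=
  (h.proj_loc hz hx).mono fun _ hy => push_in f hy.1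

variable {hinj : ∀ i, InjOn (A.p i) (A.C i).W} {M : Set Y} {hM : IsOpen M} {k : ℝ} {φ : Y → ℝ}

theorem Tube.push_cs (h : Tube A T Ψ) (hTM : ∀ b ∈ T, ∀ τ, Ψ (b, τ) ∈ M) (hC : IsCompact C)
    (hCT : C ⊆ T) {F : Type} [Zero F] {f : E n → F} (h0 : ∀ y ∉ C, f y = 0) :
    (man A hinj hM).Cs (push T Ψ f) := by
  refine ⟨_, h.cpt hC hCT, ?_, fun x hx => h.push_zero h0 hx⟩
  rw [man_M]
  rintro _ ⟨w, hw, rfl⟩
  exact hTM w.1 (hCT hw.1) w.2

theorem Tube.push_S [T2Space Y] (h : Tube A T Ψ) (hTM : ∀ b ∈ T, ∀ τ, Ψ (b, τ) ∈ M)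
    (hC : IsCompact C) (hCT : C ⊆ T) {f : E n → ℂ} (hf : ContDiff ℝ ∞ f)
    (h0 : ∀ y ∉ C, f y = 0) : (man A hinj hM).S (push T Ψ f) := by
  refine ⟨fun i z hz => ContDiffAt.contDiffWithinAt ?_, h.push_cs hTM hC hCT h0⟩
  by_cases hx : A.p i z ∈ Ψ '' (T ×ˢ univ)
  · exact (hf.contDiffAt.comp z (smoothAt_of_hol
      ((h.proj_loc hz.1 hx).mono fun _ hy => hy.2))).congr_of_eventuallyEq (h.push_eq f hz.1 hx)
  · exact contDiffAt_const.congr_of_eventuallyEq (h.push_loc hC hCT h0 hz.1 hx)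

theorem Tube.push_cc [T2Space Y] (h : Tube A T Ψ) (hTM : ∀ b ∈ T, ∀ τ, Ψ (b, τ) ∈ M)
    (hC : IsCompact C) (hCT : C ⊆ T) {f : E n → ℝ} (hf : Continuous f)
    (h0 : ∀ y ∉ C, f y = 0) : (man A hinj hM).Cc (push T Ψ f) := by
  refine ⟨fun i z hz => ContinuousAt.continuousWithinAt ?_, h.push_cs hTM hC hCT h0⟩
  by_cases hx : A.p i z ∈ Ψ '' (T ×ˢ univ)
  · exact (hf.continuousAt.comp (h.proj_loc hz.1 hx).self_of_nhds.2.continuousAt).congr
      (h.push_eq f hz.1 hx).symm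
  · exact continuousAt_const.congr (h.push_loc hC hCT h0 hz.1 hx).symm

theorem Tube.pot_eq (h : Tube A T Ψ) (hTM : ∀ b ∈ T, ∀ τ, Ψ (b, τ) ∈ M) (hφ : Pot A hinj hM k φ)
    {x : Y} (hx : x ∈ Ψ '' (T ×ˢ univ)) : φ x = φ (Ψ (proj T Ψ x, 0)) := by
  obtain ⟨h1, τ, h2⟩ := h.proj_mem hx
  rw [← pot_leaf h.unif h.fib hφ h1 (hTM _ h1) τ, ← h2]

theorem db_out {f : E n → ℂ} {y : E n} (hy : y ∉ tsupport f) : db f y = 0 := by
  rw [(db_congr (notMem_tsupport_iff_eventuallyEq.1 hy)).self_of_nhds]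
  exact db_const 0

/-- The pointwise estimate for a pulled back function. -/
theorem Tube.est [T2Space Y] (h : Tube A T Ψ) (hTM : ∀ b ∈ T, ∀ τ, Ψ (b, τ) ∈ M)
    (hφ : Pot A hinj hM k φ) (hk : 0 < k) (hC : IsCompact C) (hCT : C ⊆ T) {lam : ℝ}
    (hl : 0 < lam)
    (hlow : ∀ y ∈ C, ∀ u, lam * ‖u‖ ^ 2 ≤ (hq (lev (fun y => φ (Ψ (y, 0))) y) u u).re)
    {f : E n → ℂ} (hf : ContDiff ℝ ∞ f) (h0 : tsupport f ⊆ C) {m : ℕ} (hm : 1 ≤ m) :
    ∀ i, ∀ z ∈ (man A hinj hM).W i, ∀ v,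
      ‖v ⬝ᵥ star (db (fun y => push T Ψ f (A.p i y)) z)‖ ^ 2 ≤
        push T Ψ (fun y => n ^ 2 / lam * ‖db f y‖ ^ 2) (A.p i z) *
          (m * k * (hq ((A.C i).η z) v v).re) := by
  intro i z hz v
  by_cases hx : A.p i z ∈ Ψ '' (T ×ˢ univ)
  swap
  · rw [(db_congr (h.push_loc hC hCT (fun y hy => image_eq_zero_of_notMem_tsupport
      fun h1 => hy (h0 h1)) hz.1 hx)).self_of_nhds, db_const, push_out _ hx]
    simp
  have h1 := h.proj_loc hz.1 hx
  set π : E N → E n := fun y => proj T Ψ (A.p i y) with hπ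
  have h2 : π z ∈ T := (h.proj_mem hx).1
  rw [(db_congr (h.push_eq f hz.1 hx)).self_of_nhds, push_in _ hx,
    db_comp (φ := π) (hf.differentiable (by simp) _) h1.self_of_nhds.2]
  change _ ≤ n ^ 2 / lam * ‖db f (π z)‖ ^ 2 * _
  by_cases hy : π z ∈ C
  swap
  · rw [db_out fun h3 => hy (h0 h3)]
    simp
  have h3 : v ⬝ᵥ star (db f (π z) ᵥ* (jac π z).map star) = (jac π z *ᵥ v) ⬝ᵥ star (db f (π z)) := by
    simp only [dotProduct, Matrix.vecMul, Matrix.mulVec, Pi.star_apply, Matrix.map_apply,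
      star_sum, star_mul', star_star, Finset.mul_sum, Finset.sum_mul]
    rw [Finset.sum_comm]
    exact Finset.sum_congr rfl fun a _ => Finset.sum_congr rfl fun b _ => by ring
  have h4 : (fun y => φ (A.p i y)) =ᶠ[𝓝 z] fun y => φ (Ψ (π y, 0)) :=
    h1.mono fun y hy' => h.pot_eq hTM hφ hy'.1
  have h5 : k * (hq ((A.C i).η z) v v).re =
      (hq (lev (fun y => φ (Ψ (y, 0))) (π z)) (jac π z *ᵥ v) (jac π z *ᵥ v)).re := by
    rw [← hq_conj, ← lev_comp (f := fun y => φ (Ψ (y, 0))) (φ := π)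
      (pot_base h.unif hφ hk h2 (hTM _ h2 0)).1 (h1.mono fun _ hy' => hy'.2),
      ← (lev_congr h4).self_of_nhds, hφ.lev i z hz, hq_smul, Complex.re_ofReal_mul]
  have h6 := hlow _ hy (jac π z *ᵥ v)
  have h7 := dot_norm_le (jac π z *ᵥ v) (star (db f (π z)))
  rw [norm_star] at h7
  rw [h3, mul_assoc (m : ℝ), h5]
  have h8 : (1 : ℝ) ≤ m := by exact_mod_cast hm
  have h9 : lam * ‖jac π z *ᵥ v‖ ^ 2 ≤
      m * (hq (lev (fun y => φ (Ψ (y, 0))) (π z)) (jac π z *ᵥ v) (jac π z *ᵥ v)).re :=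
    h6.trans (le_mul_of_one_le_left (le_trans (by positivity) h6) h8)
  refine (pow_le_pow_left₀ (norm_nonneg _) h7 2).trans
    (le_trans (le_of_eq ?_) (mul_le_mul_of_nonneg_left h9 (by positivity)))
  field_simp

/-- A holomorphic function along a holomorphic map to `T × ℂ^n`. -/
theorem hol_along (h : A.IsUnif T Ψ) {F : Type} [NormedAddCommGroup F] [NormedSpace ℂ F]
    {g : Y → F} (hg : (man A hinj hM).Hol g) {l : E n → E n × E n} {t : E n}
    (hl : DifferentiableAt ℂ l t) (h1 : (l t).1 ∈ T) (h2 : Ψ (l t) ∈ M) :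
    DifferentiableAt ℂ (fun s => g (Ψ (l s))) t := by
  obtain ⟨i, O, f, hO, hw, hf, hs⟩ := h (l t) h1
  have hz : f (l t) ∈ (man A hinj hM).W i :=
    ⟨(hs _ hw).1, by rw [mem_preimage]; exact (hs _ hw).2.1 ▸ h2⟩
  have h3 : DifferentiableAt ℂ (fun y => g (A.p i y)) (f (l t)) :=
    (hg i).differentiableAt (((man A hinj hM).isOpen i).mem_nhds hz)
  refine (DifferentiableAt.comp (f := fun s => f (l s)) t h3
    ((hf.differentiableAt (hO.mem_nhds hw)).comp t hl)).congr_of_eventuallyEq ?_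
  filter_upwards [hl.continuousAt.eventually (hO.mem_nhds hw)] with s hs'
  simp only [Function.comp, (hs _ hs').2.1]

theorem hol_leaf (h : A.IsUnif T Ψ) (hf : IsFibred Ψ T) {F : Type} [NormedAddCommGroup F]
    [NormedSpace ℂ F] {g : Y → F} (hg : (man A hinj hM).Hol g) {b : E n} (hb : b ∈ T)
    (hm : ∀ τ, Ψ (b, τ) ∈ M) (τ : E n) : g (Ψ (b, τ)) = g (Ψ (b, 0)) := by
  have h1 : Differentiable ℂ fun s => g (Ψ (b, s)) := fun t =>
    hol_along h hg (l := fun s => (b, s)) (by fun_prop) hb (hm t)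
  obtain ⟨C, hC⟩ := leaf_bdd hf hb (g := g) h1.continuous
  exact h1.apply_eq_apply_of_bounded (isBounded_iff_forall_norm_le.2
    ⟨C, by rintro _ ⟨s, rfl⟩; exact hC s⟩) τ 0

/-- A small perturbation of the peak map is locally injective. -/
theorem inj_of_small {P : E n → ℂ} {H G : E n → E n} {y : E n} {a b : ℝ} {m : ℕ}
    (hP : Differentiable ℂ P) (hH : ∀ᶠ x in 𝓝 y, DifferentiableAt ℂ H x)
    (hG : ∀ᶠ x in 𝓝 y, G x = Complex.exp (m * P x) • (H x + (x - y))) (h1 : ‖H y‖ ≤ a)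
    (h2 : ∀ v, ‖fderiv ℂ H y v‖ ≤ b * ‖v‖) (hs : b + m * ‖fderiv ℂ P y‖ * a < 1) :
    ∃ U ∈ 𝓝 y, InjOn G U := by
  set G' : E n → E n := fun x => Complex.exp (m * P x) • (H x + (x - y)) with hG'
  obtain ⟨O, hO, hOo, hy⟩ := _root_.eventually_nhds_iff.1 hH
  have hd : DifferentiableOn ℂ G' O := fun x hx => DifferentiableAt.differentiableWithinAt
    (((hP x).const_mul _).cexp.smul ((hO x hx).add (differentiableAt_id.sub_const y)))
  have h3 := ((hP y).hasFDerivAt.const_mul (m : ℂ)).cexp.smul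
    ((hO y hy).hasFDerivAt.add ((hasFDerivAt_id y).sub_const y))
  have h4 : Function.Injective (fderiv ℂ G' y : E n →ₗ[ℂ] E n) := by
    refine (injective_iff_map_eq_zero _).2 fun v hv => ?_
    have h5 : fderiv ℂ G' y v = 0 := hv
    rw [show fderiv ℂ G' y = _ from h3.fderiv] at h5
    have h6 : Complex.exp (m * P y) • (fderiv ℂ H y v + v + ((m : ℂ) * fderiv ℂ P y v) • H y)
        = 0 := by
      rw [← h5]
      simp [smul_add, smul_smul, mul_assoc]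
    have h7 : v = -(fderiv ℂ H y v + ((m : ℂ) * fderiv ℂ P y v) • H y) := by
      rw [eq_neg_iff_add_eq_zero, ← (smul_eq_zero.1 h6).resolve_left (Complex.exp_ne_zero _)]
      abel
    have h8 : ‖v‖ ≤ (b + m * ‖fderiv ℂ P y‖ * a) * ‖v‖ := by
      nth_rewrite 1 [h7]
      rw [norm_neg]
      refine (norm_add_le _ _).trans ?_
      rw [norm_smul, norm_mul, Complex.norm_natCast]
      have h9 := mul_le_mul (mul_le_mul_of_nonneg_left ((fderiv ℂ P y).le_opNorm v)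
        (Nat.cast_nonneg (α := ℝ) m)) h1 (norm_nonneg _) (by positivity)
      nlinarith [h2 v]
    by_contra hne
    nlinarith [norm_pos_iff.2 hne]
  have hst : HasStrictFDerivAt G' ((LinearEquiv.ofInjectiveEndo _ h4).toContinuousLinearEquiv :
      E n →L[ℂ] E n) y :=
    (((flow_smooth hOo hd).contDiffAt (hOo.mem_nhds hy)).hasStrictFDerivAt
      (by simp)).congr_fderiv (by ext; rfl)
  refine ⟨_, inter_mem ((hst.toOpenPartialHomeomorph G').open_source.mem_nhds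
    hst.mem_toOpenPartialHomeomorph_source) hG, fun x hx x' hx' he => ?_⟩
  exact (hst.toOpenPartialHomeomorph G').injOn hx.1 hx'.1 (hx.2.symm.trans (he.trans hx'.2))

end Pool.Agent.AB
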