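import Pool.Agent.K.MP_63735c_ag.C10
import Pool.Agent.P.MP_63735c_ag.SPTest
import Pool.Agent.K.MP_63735c_ag.C23

/-! The Levi polynomial. -/

open scoped ComplexOrder ContDiff Matrix Topology ENNReal
open Set Metric MeasureTheory Filter

namespace Pool.Agent.AB

open Pool.Agent.SPF Pool.Agent.CL

variable {n : ℕ} {T : Set (E n)} {φ : E n → ℝ} {y : E n}

theorem Lv_lev (hT : IsOpen T) (hφ : ContDiffOn ℝ ∞ φ T) (hy : y ∈ T) (v : E n) :
    Lv φ y v = 4 * (hq (lev φ y) v v).re := by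
  let O : TopologicalSpace.Opens (E n) := ⟨_, hT⟩
  have h := Sm.rep_mk (O := O) _ (test_ofReal hφ)
  set a := Sm.mk (O := O) _ (test_ofReal hφ)
  have hn := hT.mem_nhds hy
  have h1 : ContDiffOn ℝ ∞ (fderiv ℝ φ) T := hφ.fderiv_of_isOpen hT (by simp)
  have d1 := ((h1.contDiffAt hn).differentiableAt (by simp)).hasFDerivAt
  have e1 : ∀ w, Sm.ev ⟨y, hy⟩ (Sm.der w (Sm.der w a)) = (D2 φ y w : ℝ) := by
    intro w
    have h2 := d1.clm_apply (hasFDerivAt_const w y)
    have h3 : (fun z => fderiv ℝ (fun x => (φ x : ℂ)) z w) =ᶠ[𝓝 y]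
        fun z => ((fderiv ℝ φ z w : ℝ) : ℂ) := by
      filter_upwards [hn] with z hz
      exact test_fderiv ((hφ.contDiffAt (hT.mem_nhds hz)).differentiableAt (by simp)) w
    rw [(h.der w).der w ⟨y, hy⟩]
    beta_reduce
    rw [h3.fderiv_eq, test_fderiv h2.differentiableAt, h2.fderiv]
    simp [D2]
  have e2 : ∀ k l, Sm.ev ⟨y, hy⟩ (Sm.d k (Sm.db l a)) = lev φ y k l := by
    intro k l
    rw [(h.db l).d k ⟨y, hy⟩, lev, Matrix.of_apply]
    congr 1
    ext z
    rw [(star_dz _ _ _).1]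
    simp
  have e3 := congrArg Complex.re (test_levi v a ⟨y, hy⟩)
  rw [e1, e1, show (4 : ℂ) = ((4 : ℝ) : ℂ) by norm_num, Complex.re_ofReal_mul] at e3
  simp only [e2, Complex.add_re, Complex.ofReal_re] at e3
  rw [Lv, ← e3, hq_sum_eq]
  congr 2
  exact Finset.sum_congr rfl fun i _ => Finset.sum_congr rfl fun j _ => by ring

lemma abpq_smul (c : ℂ) (v : E n) : c • v = c.re • v + c.im • (Complex.I • v) := by
  ext a
  simp only [Pi.smul_apply, Pi.add_apply, smul_eq_mul, Complex.real_smul]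
  conv_lhs => rw [← Complex.re_add_im c]
  ring

lemma abpq_smul' (c : ℂ) (v : E n) :
    Complex.I • c • v = c.re • (Complex.I • v) + (-c.im) • v := by
  ext a
  simp only [Pi.smul_apply, Pi.add_apply, smul_eq_mul, Complex.real_smul, Complex.ofReal_neg]
  conv_lhs => rw [← Complex.re_add_im c]
  linear_combination (c.im * v a) * Complex.I_mul_I

lemma abpq_poly (D : E n →L[ℝ] ℝ) (B : E n →L[ℝ] E n →L[ℝ] ℝ) :
    ∃ Q : E n → ℂ, Differentiable ℂ Q ∧
      ∀ v, 2 * (Q v).re = D v + (B v v - B (Complex.I • v) (Complex.I • v)) / 4 := by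
  let L : E n →ₗ[ℂ] ℂ :=
    { toFun := fun v => (D v : ℂ) - Complex.I * (D (Complex.I • v) : ℂ)
      map_add' := fun u v => by
        simp only [smul_add, map_add, Complex.ofReal_add]
        ring
      map_smul' := fun c v => by
        rw [abpq_smul' c v, abpq_smul c v]
        simp only [map_add, map_smul, smul_eq_mul, RingHom.id_apply]
        apply Complex.ext <;> simp <;> ring }
  let S : E n →ₗ[ℂ] E n →ₗ[ℂ] ℂ := LinearMap.mk₂ ℂ
    (fun v w => ((B v w - B (Complex.I • v) (Complex.I • w) : ℝ) : ℂ) -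
      Complex.I * ((B (Complex.I • v) w + B v (Complex.I • w) : ℝ) : ℂ))
    (fun u v w => by
      simp only [smul_add, map_add, _root_.add_apply]
      push_cast
      ring)
    (fun c v w => by
      rw [abpq_smul' c v, abpq_smul c v]
      simp only [map_add, map_smul, _root_.add_apply,
        _root_.smul_apply, smul_eq_mul]
      apply Complex.ext <;> simp <;> ring)
    (fun u v w => by
      simp only [smul_add, map_add]
      push_cast
      ring)
    (fun c v w => by
      rw [abpq_smul' c w, abpq_smul c w]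
      simp only [map_add, map_smul, smul_eq_mul]
      apply Complex.ext <;> simp <;> ring)
  have hL : Differentiable ℂ fun v => L v := (LinearMap.toContinuousLinearMap L).differentiable
  have hS : Differentiable ℂ fun v => S v v :=
    (LinearMap.toContinuousBilinearMap S).differentiable.clm_apply differentiable_id
  refine ⟨fun v => (1 / 2 : ℂ) * L v + (1 / 8 : ℂ) * S v v,
    (hL.const_mul _).add (hS.const_mul _), fun v => ?_⟩
  have e1 : (L v).re = D v := by simp [L]
  have e2 : (S v v).re = B v v - B (Complex.I • v) (Complex.I • v) := by simp [S]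
  rw [show (1 / 2 : ℂ) = ((1 / 2 : ℝ) : ℂ) by norm_num,
    show (1 / 8 : ℂ) = ((1 / 8 : ℝ) : ℂ) by norm_num, Complex.add_re, Complex.re_ofReal_mul,
    Complex.re_ofReal_mul, e1, e2]
  ring

/-- A strictly plurisubharmonic function touches the real part of an entire function. -/
theorem peakQ (hT : IsOpen T) (hφ : ContDiffOn ℝ ∞ φ T) (hy : y ∈ T)
    (hp : ∀ v, v ≠ 0 → 0 < (hq (lev φ y) v v).re) :
    ∃ P : E n → ℂ, Differentiable ℂ P ∧ 2 * (P y).re = φ y ∧
      ∀ᶠ x in 𝓝[≠] y, 2 * (P x).re < φ x := by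
  have hn := hT.mem_nhds hy
  have h1 : ContDiffOn ℝ ∞ (fderiv ℝ φ) T := hφ.fderiv_of_isOpen hT (by simp)
  have d1 := ((h1.contDiffAt hn).differentiableAt (by simp)).hasFDerivAt
  have sy := (hφ.contDiffAt hn).isSymmSndFDerivAt (by
    rw [minSmoothness_of_isRCLikeNormedField]; exact WithTop.coe_le_coe.2 le_top)
  obtain ⟨c, hc, hcl⟩ := cpt_lower (C := {y}) (h := lev φ) isCompact_singleton
    (fun a b => continuousOn_singleton _ _) (fun z hz => by rw [hz]; exact hp)
  have hLv : ∀ v, 4 * (c * ‖v‖ ^ 2) ≤ fderiv ℝ (fderiv ℝ φ) y v v +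
      fderiv ℝ (fderiv ℝ φ) y (Complex.I • v) (Complex.I • v) := by
    intro v
    have e := Lv_lev hT hφ hy v
    have e' := hcl y rfl v
    rw [Lv, D2, D2] at e
    linarith
  have hs : ∀ u w, fderiv ℝ (fderiv ℝ φ) y u w = fderiv ℝ (fderiv ℝ φ) y w u := sy.eq
  generalize fderiv ℝ (fderiv ℝ φ) y = B at d1 hLv hs
  obtain ⟨Q, hQ, hQe⟩ := abpq_poly (fderiv ℝ φ y) B
  have hP : ∀ x, 2 * (((φ y / 2 : ℝ) : ℂ) + Q (x - y)).re = φ y + fderiv ℝ φ y (x - y) +
      (B (x - y) (x - y) - B (Complex.I • (x - y)) (Complex.I • (x - y))) / 4 := by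
    intro x
    rw [Complex.add_re, Complex.ofReal_re, mul_add, hQe]
    ring
  refine ⟨fun x => ((φ y / 2 : ℝ) : ℂ) + Q (x - y),
    (hQ.comp (differentiable_id.sub_const y)).const_add _, by rw [hP]; simp, ?_⟩
  have hlo := (hasFDerivAt_iff_isLittleO.1 d1).def (half_pos hc)
  obtain ⟨r, hr, hb⟩ := Metric.eventually_nhds_iff_ball.1 (hlo.and hn)
  filter_upwards [self_mem_nhdsWithin, mem_nhdsWithin_of_mem_nhds (ball_mem_nhds y hr)]
    with x hx hxb
  have hsub : closedBall y ‖x - y‖ ⊆ ball y r :=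
    closedBall_subset_ball (by rwa [mem_ball, dist_eq_norm] at hxb)
  have hg : ∀ z ∈ closedBall y ‖x - y‖, HasFDerivWithinAt
      (fun z => φ z - fderiv ℝ φ y (z - y) - (1 / 2 : ℝ) * B (z - y) (z - y))
      (fderiv ℝ φ z - fderiv ℝ φ y - B (z - y)) (closedBall y ‖x - y‖) z := by
    intro z hz
    have a1 := ((hφ.contDiffAt (hT.mem_nhds (hb z (hsub hz)).2)).differentiableAt
      (by simp)).hasFDerivAt
    have a0 : HasFDerivAt (fun z : E n => z - y) (ContinuousLinearMap.id ℝ (E n)) z :=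
      (hasFDerivAt_id z).sub_const y
    have a2 := (fderiv ℝ φ y).hasFDerivAt.comp z a0
    have a3 := ((B.hasFDerivAt.comp z a0).clm_apply a0).const_mul (1 / 2 : ℝ)
    refine (((a1.sub a2).sub a3).congr_fderiv ?_).hasFDerivWithinAt
    ext w
    simp [hs w z, hs w y]
    ring
  have hm := (convex_closedBall y ‖x - y‖).norm_image_sub_le_of_norm_hasFDerivWithin_le
    (C := c / 2 * ‖x - y‖) hg (fun z hz => ((hb z (hsub hz)).1).trans (by
      rw [mem_closedBall, dist_eq_norm] at hz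
      gcongr)) (mem_closedBall_self (norm_nonneg _))
    (show x ∈ closedBall y ‖x - y‖ by rw [mem_closedBall, dist_eq_norm])
  have hpos : 0 < ‖x - y‖ := norm_pos_iff.2 (sub_ne_zero.2 hx)
  have h2 := hLv (x - y)
  have h3 := neg_le_of_abs_le (Real.norm_eq_abs _ ▸ hm)
  simp only [sub_self, map_zero, mul_zero, sub_zero] at h3
  rw [hP]
  have h4 : 0 < c * ‖x - y‖ ^ 2 := by positivity
  nlinarith

end Pool.Agent.AB
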