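import Pool.Agent.K.MP_63735c_ag.C23
import Pool.Agent.K.MP_63735c_ag.C1

/-! Mean values of holomorphic functions. -/

open scoped ComplexOrder ContDiff Matrix Topology ENNReal
open Set Metric MeasureTheory Filter

namespace Pool.Agent.AB

open Pool.Agent.SPF

variable {N : ℕ}

/-- Rotation about a point. -/
noncomputable def abmv_rot (z : E N) (t : ℝ) (w : E N) : E N := z + circleMap 0 1 t • (w - z)

theorem abmv_norm (t : ℝ) : ‖circleMap 0 1 t‖ = 1 := by simp

theorem abmv_mp (z : E N) (t : ℝ) : MeasurePreserving (abmv_rot z t) volume volume := by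
  have h1 : MeasurePreserving (fun x : ℂ => circleMap 0 1 t * x) volume volume := by
    have h0 : MeasurePreserving (rotation (Circle.exp t)) (volume : Measure ℂ) volume :=
      (rotation (Circle.exp t)).measurePreserving
    have : (fun x : ℂ => circleMap 0 1 t * x) = rotation (Circle.exp t) := by
      funext x
      simp [rotation_apply, circleMap]
    rwa [this]
  have h2 : MeasurePreserving (fun w : E N => circleMap 0 1 t • w) volume volume :=
    volume_preserving_pi fun _ : Fin N => h1
  exact (measurePreserving_add_left volume z).comp (h2.comp (measurePreserving_sub_right volume z))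

theorem abmv_emb (z : E N) (t : ℝ) : MeasurableEmbedding (abmv_rot z t) := by
  have hc : circleMap 0 1 t ≠ 0 := circleMap_ne_center one_ne_zero
  exact (((Homeomorph.subRight z).trans (Homeomorph.smulOfNeZero _ hc)).trans
    (Homeomorph.addLeft z)).measurableEmbedding

theorem abmv_pre (z : E N) (t r : ℝ) : abmv_rot z t ⁻¹' ball z r = ball z r := by
  ext w
  simp [abmv_rot, mem_ball, dist_eq_norm, norm_smul]

theorem abmv_mpb (z : E N) (t r : ℝ) :
    MeasurePreserving (abmv_rot z t) (volume.restrict (ball z r)) (volume.restrict (ball z r)) := by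
  have := (abmv_mp z t).restrict_preimage_emb (abmv_emb z t) (ball z r)
  rwa [abmv_pre] at this

theorem abmv_circle {f : E N → ℂ} {z : E N} {r : ℝ} (hf : DifferentiableOn ℂ f (ball z r))
    {w : E N} (hw : w ∈ ball z r) :
    ∫ t in Ioc 0 (2 * Real.pi), f (abmv_rot z t w) = (2 * Real.pi : ℝ) • f z := by
  have hw' : ‖w - z‖ < r := by rwa [mem_ball, dist_eq_norm] at hw
  have hm : ∀ c ∈ closedBall (0 : ℂ) 1, z + c • (w - z) ∈ ball z r := by
    intro c hc
    rw [mem_closedBall, dist_zero_right] at hc
    rw [mem_ball, dist_eq_norm, add_sub_cancel_left, norm_smul]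
    nlinarith [norm_nonneg (w - z), norm_nonneg c]
  have hd : DifferentiableOn ℂ (fun c : ℂ => f (z + c • (w - z))) (closedBall 0 1) :=
    hf.comp (by fun_prop) hm
  have hc : DiffContOnCl ℂ (fun c : ℂ => f (z + c • (w - z))) (ball 0 |(1 : ℝ)|) := by
    rw [abs_one]
    exact DifferentiableOn.diffContOnCl (by rwa [closure_ball _ one_ne_zero])
  have h := hc.circleAverage
  rw [Real.circleAverage, intervalIntegral.integral_of_le (by positivity)] at h
  simp only [zero_smul, add_zero] at h
  rw [← h, smul_smul, mul_inv_cancel₀ (by positivity), one_smul]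
  rfl

theorem mean_value {f : E N → ℂ} {z : E N} {r : ℝ} (hr : 0 < r)
    (hf : DifferentiableOn ℂ f (ball z r)) (hi : IntegrableOn f (ball z r) volume) :
    ∫ y in ball z r, f y = (volume.real (ball (0 : E N) r) : ℂ) * f z := by
  have hint : Integrable (Function.uncurry fun (t : ℝ) (w : E N) => f (abmv_rot z t w))
      ((volume.restrict (Ioc 0 (2 * Real.pi))).prod (volume.restrict (ball z r))) := by
    have hcont : Continuous fun p : ℝ × E N => abmv_rot z p.1 p.2 := by
      unfold abmv_rot
      fun_prop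
    have hmeas : AEStronglyMeasurable
        (Function.uncurry fun (t : ℝ) (w : E N) => f (abmv_rot z t w))
        ((volume.restrict (Ioc 0 (2 * Real.pi))).prod (volume.restrict (ball z r))) := by
      rw [Measure.prod_restrict]
      refine ContinuousOn.aestronglyMeasurable ?_ (measurableSet_Ioc.prod measurableSet_ball)
      refine hf.continuousOn.comp hcont.continuousOn fun p hp => ?_
      have := hp.2
      rwa [← abmv_pre z p.1 r] at this
    rw [integrable_prod_iff hmeas]
    refine ⟨Eventually.of_forall fun t => (abmv_mpb z t r).integrable_comp_of_integrable hi, ?_⟩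
    have : (fun t : ℝ => ∫ w in ball z r, ‖f (abmv_rot z t w)‖) =
        fun _ => ∫ w in ball z r, ‖f w‖ :=
      funext fun t => (abmv_mpb z t r).integral_comp (abmv_emb z t) fun w => ‖f w‖
    simp only [Function.uncurry_apply_pair]
    rw [this]
    exact integrable_const _
  have hsw := integral_integral_swap hint
  have h1 : (fun t : ℝ => ∫ w in ball z r, f (abmv_rot z t w)) = fun _ => ∫ w in ball z r, f w :=
    funext fun t => (abmv_mpb z t r).integral_comp (abmv_emb z t) f
  rw [h1, setIntegral_congr_fun measurableSet_ball fun w hw => abmv_circle hf hw] at hsw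
  have hv : volume.real (ball z r) = volume.real (ball (0 : E N) r) := by
    simp only [measureReal_def, Measure.addHaar_ball_center]
  rw [setIntegral_const, setIntegral_const, hv, Real.volume_real_Ioc_of_le (by positivity),
    sub_zero, smul_comm] at hsw
  have hπ : (2 * Real.pi) ≠ 0 := by positivity
  rw [smul_right_injective ℂ hπ hsw, Complex.real_smul]

theorem hol_l1 (N : ℕ) {r : ℝ} (hr : 0 < r) : ∃ A : ℝ, 0 < A ∧ ∀ (f : E N → ℂ) (z : E N),
    DifferentiableOn ℂ f (ball z r) → IntegrableOn f (ball z r) volume →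
      ‖f z‖ ≤ A * ∫ y in ball z r, ‖f y‖ := by
  have hv : 0 < volume.real (ball (0 : E N) r) :=
    ENNReal.toReal_pos (measure_ball_pos _ _ hr).ne' measure_ball_lt_top.ne
  refine ⟨_, inv_pos.2 hv, fun f z hf hi => ?_⟩
  have h := norm_integral_le_integral_norm (μ := volume.restrict (ball z r)) f
  rw [mean_value hr hf hi, norm_mul, Complex.norm_real, Real.norm_of_nonneg hv.le] at h
  rwa [le_inv_mul_iff₀ hv]

theorem hol_l2 (N : ℕ) {r : ℝ} (hr : 0 < r) : ∃ A : ℝ, 0 < A ∧ ∀ (f : E N → ℂ) (z : E N) (b : ℝ),
    0 ≤ b → DifferentiableOn ℂ f (ball z r) →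
      IntegrableOn (fun y => ‖f y‖ ^ 2) (ball z r) volume → ∫ y in ball z r, ‖f y‖ ^ 2 ≤ b ^ 2 →
        ‖f z‖ ≤ A * b ∧ ‖fderiv ℂ f z‖ ≤ A * b := by
  have hr2 : 0 < r / 2 := half_pos hr
  have hv : 0 < volume.real (ball (0 : E N) (r / 2)) :=
    ENNReal.toReal_pos (measure_ball_pos _ _ hr2).ne' measure_ball_lt_top.ne
  set v := volume.real (ball (0 : E N) (r / 2)) with hvdef
  have hs : 0 < Real.sqrt v⁻¹ := Real.sqrt_pos.2 (inv_pos.2 hv)
  refine ⟨Real.sqrt v⁻¹ * (1 + (r / 2)⁻¹), by positivity, fun f z b hb hf hi hle => ?_⟩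
  have key : ∀ x ∈ ball z (r / 2), ‖f x‖ ≤ Real.sqrt v⁻¹ * b := by
    intro x hx
    have hsub : ball x (r / 2) ⊆ ball z r := ball_subset_ball' (by
      rw [mem_ball] at hx
      linarith)
    have hd : DifferentiableOn ℂ (fun y => f y ^ 2) (ball x (r / 2)) := (hf.mono hsub).pow 2
    have hi2 : IntegrableOn (fun y => f y ^ 2) (ball x (r / 2)) volume := by
      refine (hi.mono_set hsub).mono' (hd.continuousOn.aestronglyMeasurable measurableSet_ball)
        (Eventually.of_forall fun y => by rw [norm_pow])
    have h := norm_integral_le_integral_norm (μ := volume.restrict (ball x (r / 2)))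
      fun y => f y ^ 2
    rw [mean_value hr2 hd hi2, norm_mul, Complex.norm_real, Real.norm_of_nonneg hv.le] at h
    simp only [norm_pow] at h
    have h2 : ∫ y in ball x (r / 2), ‖f y‖ ^ 2 ≤ ∫ y in ball z r, ‖f y‖ ^ 2 :=
      setIntegral_mono_set hi (Eventually.of_forall fun y => by positivity) hsub.eventuallyLE
    have h3 : ‖f x‖ ^ 2 ≤ (Real.sqrt v⁻¹ * b) ^ 2 := by
      rw [mul_pow, Real.sq_sqrt (inv_pos.2 hv).le, le_inv_mul_iff₀ hv]
      linarith
    exact (pow_le_pow_iff_left₀ (norm_nonneg _) (by positivity) two_ne_zero).1 h3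
  have h1 := key z (mem_ball_self hr2)
  have h2 := CL.cauchy hr2 (hf.mono (ball_subset_ball (half_le_self hr.le))) key
  have h3 : 0 ≤ Real.sqrt v⁻¹ * b := by positivity
  have h4 : 0 ≤ Real.sqrt v⁻¹ * b * (r / 2)⁻¹ := by positivity
  rw [div_eq_mul_inv] at h2
  constructor <;> nlinarith

end Pool.Agent.AB
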