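import Pool.Agent.K.MP_63735c_ag.C165

/-! Peak functions with a side condition. -/

open scoped ComplexOrder ContDiff Matrix Topology ENNReal
open Set Metric MeasureTheory Filter

namespace Pool.Agent.SE

open Pool.Agent.SPF Pool.Agent.NL Pool.Agent.AB

variable {N n : ℕ} {Y : Type} [TopologicalSpace Y] {A : Atlas Y N} {T : Set (E n)}
  {Ψ : E n × E n → Y}

/-- The L2 estimate for the weights `exp (-m φ)`, with solutions that satisfy `Q`. -/
def L2Q (A : Atlas Y N) (hinj : ∀ i, InjOn (A.p i) (A.C i).W) {M : Set Y} (hM : IsOpen M)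
    (k : ℝ) (φ : Y → ℝ) (C₁ : ℝ) (Q : ℕ → (Y → ℂ) → Prop) : Prop :=
  ∀ (m : ℕ) (s : Y → ℂ) (c : Y → ℝ) (C₀ : ℝ), (man A hinj hM).S s → 0 ≤ C₀ →
    (∀ x, c x * Real.exp (-(m * φ x)) ≤ C₀) →
    (∀ i, ∀ z ∈ (man A hinj hM).W i, ∀ v, ‖v ⬝ᵥ star (db (fun y => s (A.p i y)) z)‖ ^ 2 ≤
      c (A.p i z) * (m * k * (hq ((A.C i).η z) v v).re)) →
    ∃ g : Y → ℂ, (man A hinj hM).Hol g ∧ Q m g ∧ ∀ i,
      IntegrableOn (fun z => wm A φ m i z * ‖g (A.p i z) - s (A.p i z)‖ ^ 2)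
        ((man A hinj hM).W i) volume ∧
      ∫ z in (man A hinj hM).W i, wm A φ m i z * ‖g (A.p i z) - s (A.p i z)‖ ^ 2 ≤ C₁ * C₀

/-- The data on the base. -/
theorem peak_baseq (hT : IsOpen T) {ψ : E n → ℝ} (hψ : ContDiffOn ℝ ∞ ψ T) {y0 : E n}
    (hy : y0 ∈ T) (hp : ∀ v, v ≠ 0 → 0 < (hq (lev ψ y0) v v).re) :
    ∃ (P : E n → ℂ) (r a : ℝ), Differentiable ℂ P ∧ 2 * (P y0).re = ψ y0 ∧ 0 < r ∧ 0 < a ∧
      closedBall y0 r ⊆ T ∧ ∀ q : E n → ℂ, Differentiable ℂ q → ∃ B : ℝ, 0 ≤ B ∧ ∀ m : ℕ,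
        ∃ f : E n → ℂ, ContDiff ℝ ∞ f ∧ tsupport f ⊆ closedBall y0 r ∧
          (∀ y ∈ ball y0 (r / 2), f y = q y * Complex.exp (m * P y)) ∧
          ∀ y, ‖db f y‖ ^ 2 * Real.exp (-(m * ψ y)) ≤ B * Real.exp (-(m * a)) := by
  obtain ⟨P, hP, h0, h1⟩ := peakQ hT hψ hy hp
  obtain ⟨r, hr, hB⟩ := Metric.nhds_basis_closedBall.mem_iff.1
    (inter_mem (hT.mem_nhds hy) (eventually_nhdsWithin_iff.1 h1))
  let χ : ContDiffBump y0 := ⟨r / 2, r, half_pos hr, half_lt_self hr⟩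
  have hχ : ContDiff ℝ ∞ fun y => ((χ y : ℝ) : ℂ) := Complex.ofRealCLM.contDiff.comp χ.contDiff
  have hK : IsCompact (closedBall y0 r \ ball y0 (r / 2)) :=
    (isCompact_closedBall y0 r).diff isOpen_ball
  obtain ⟨a, ha, hQ⟩ := hK.exists_forall_le' (f := fun y => ψ y - 2 * (P y).re) (a := 0)
    ((hψ.continuousOn.mono fun y hy' => (hB hy'.1).1).sub
      (continuous_const.mul (Complex.continuous_re.comp hP.continuous)).continuousOn)
    fun y hy' => sub_pos.2 ((hB hy'.1).2 fun h2 => hy'.2 (by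
      rw [mem_singleton_iff.1 h2]; exact mem_ball_self (half_pos hr)))
  obtain ⟨B, hB'⟩ := hK.exists_bound_of_continuousOn (f := db fun y => ((χ y : ℝ) : ℂ))
    ((db_smooth isOpen_univ hχ.contDiffOn).continuousOn.mono (subset_univ _))
  refine ⟨P, r, a, hP, h0, hr, ha, fun y hy' => (hB hy').1, fun q hq' => ?_⟩
  obtain ⟨R, hR⟩ := hK.exists_bound_of_continuousOn hq'.continuous.continuousOn
  refine ⟨(R * B) ^ 2, sq_nonneg _, fun m => ?_⟩
  set h : E n → ℂ := fun y => q y * Complex.exp (m * P y) with hh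
  have hd : Differentiable ℂ h := by
    rw [hh]
    fun_prop
  have hs : ContDiff ℝ ∞ h :=
    contDiff_iff_contDiffAt.2 fun y => smoothAt_of_hol' (Eventually.of_forall hd)
  have ht : tsupport (fun y => ((χ y : ℝ) : ℂ) * h y) ⊆ closedBall y0 r := by
    refine closure_minimal (fun y hy' => ?_) isClosed_closedBall
    by_contra h2
    exact hy' (by simp [χ.zero_of_le_dist (not_le.1 (mt mem_closedBall.2 h2)).le])
  have h1' : ∀ y ∈ ball y0 (r / 2), ((χ y : ℝ) : ℂ) * h y = h y := fun y hy' => by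
    rw [χ.one_of_mem_closedBall (ball_subset_closedBall hy'), Complex.ofReal_one, one_mul]
  refine ⟨_, hχ.mul hs, ht, h1', fun y => ?_⟩
  by_cases h2 : y ∈ closedBall y0 r
  swap
  · rw [db_out fun h3 => h2 (ht h3), norm_zero, zero_pow two_ne_zero, zero_mul]
    positivity
  by_cases h3 : y ∈ ball y0 (r / 2)
  · rw [(db_congr (g := h) (mem_of_superset (isOpen_ball.mem_nhds h3) h1')).self_of_nhds,
      db_hol (hd y), norm_zero, zero_pow two_ne_zero, zero_mul]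
    positivity
  rw [db_mul (hχ.differentiable (by simp) y) (hs.differentiable (by simp) y), db_hol (hd y),
    smul_zero, add_zero, norm_smul, hh, norm_mul, mul_right_comm, mul_pow, norm_exp_sq, mul_assoc,
    ← Real.exp_add]
  refine mul_le_mul (pow_le_pow_left₀ (by positivity) (mul_le_mul (hR y ⟨h2, h3⟩) (hB' y ⟨h2, h3⟩)
    (norm_nonneg _) ((norm_nonneg _).trans (hR y ⟨h2, h3⟩))) 2) (Real.exp_le_exp.2 ?_)
    (Real.exp_pos _).le (sq_nonneg _)
  have := mul_le_mul_of_nonneg_left (hQ y ⟨h2, h3⟩) (Nat.cast_nonneg (α := ℝ) m)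
  linarith

variable {hinj : ∀ i, InjOn (A.p i) (A.C i).W} {M : Set Y} {hM : IsOpen M} {k : ℝ} {φ : Y → ℝ}

/-- Holomorphic functions with a prescribed 1-jet, up to a small error. -/
theorem peakq [T2Space Y] (h : Tube A T Ψ) (hTM : ∀ b ∈ T, ∀ τ, Ψ (b, τ) ∈ M)
    (hφ : Pot A hinj hM k φ) (hk : 0 < k) {C₁ : ℝ} {Q : ℕ → (Y → ℂ) → Prop}
    (hL : L2Q A hinj hM k φ C₁ Q) {y0 : E n} (hy : y0 ∈ T) :
    ∃ P : E n → ℂ, Differentiable ℂ P ∧ ∀ q : E n → ℂ, Differentiable ℂ q → ∀ ε : ℝ, 0 < ε →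
      ∀ᶠ m : ℕ in atTop, ∃ g : Y → ℂ, (man A hinj hM).Hol g ∧ Q m g ∧
        ‖g (Ψ (y0, 0)) * Complex.exp (m * -P y0) - q y0‖ ≤ ε ∧
        ‖fderiv ℂ (fun y => g (Ψ (y, 0)) * Complex.exp (m * -P y) - q y) y0‖ ≤ ε := by
  set ψ : E n → ℝ := fun y => φ (Ψ (y, 0)) with hψ
  have hb := fun b (hb : b ∈ T) => pot_base h.unif hφ hk hb (hTM b hb 0)
  have hψs : ContDiffOn ℝ ∞ ψ T := fun b hb' => (hb b hb').1.contDiffWithinAt
  obtain ⟨P, r, a, hP, hP0, hr, ha, hCT, hf⟩ := peak_baseq h.isOpen hψs hy (hb y0 hy).2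
  refine ⟨P, hP, fun q hqd ε hε => ?_⟩
  obtain ⟨B, hB, hf⟩ := hf q hqd
  have hC := isCompact_closedBall y0 r
  obtain ⟨lam, hl, hlow⟩ := cpt_lower (h := lev ψ) hC
    (fun a b => (lev_smooth h.isOpen hψs a b).continuousOn.mono hCT) fun y hy' => (hb y (hCT hy')).2
  have key : ∀ m : ℕ, 1 ≤ m → ∃ s g : Y → ℂ, (man A hinj hM).Hol g ∧ Q m g ∧
      (∀ x ∈ Ψ '' (T ×ˢ univ), proj T Ψ x ∈ ball y0 (r / 2) →
        s x = q (proj T Ψ x) * Complex.exp (m * P (proj T Ψ x))) ∧ ∀ i,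
      IntegrableOn (fun z => wm A φ m i z * ‖g (A.p i z) - s (A.p i z)‖ ^ 2)
        ((man A hinj hM).W i) volume ∧
      ∫ z in (man A hinj hM).W i, wm A φ m i z * ‖g (A.p i z) - s (A.p i z)‖ ^ 2 ≤
        C₁ * (n ^ 2 / lam * (B * Real.exp (-(m * a)))) := by
    intro m hm
    obtain ⟨f, f1, f2, f3, f4⟩ := hf m
    have s1 : (man A hinj hM).S (push T Ψ f) := h.push_S hTM hC hCT f1 fun y hy' =>
      image_eq_zero_of_notMem_tsupport fun h1 => hy' (f2 h1)
    obtain ⟨g, g1, g2, g3⟩ := hL m _ (push T Ψ fun y => n ^ 2 / lam * ‖db f y‖ ^ 2)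
      (n ^ 2 / lam * (B * Real.exp (-(m * a)))) s1 (by positivity)
      (fun x => by
        by_cases hx : x ∈ Ψ '' (T ×ˢ univ)
        · rw [push_in _ hx, h.pot_eq hTM hφ hx, mul_assoc]
          exact mul_le_mul_of_nonneg_left (f4 _) (by positivity)
        · rw [push_out _ hx, zero_mul]
          positivity)
      (h.est hTM hφ hk hC hCT hl hlow f1 f2 hm)
    exact ⟨_, g, g1, g2, fun x hx hx' => (push_in f hx).trans (f3 _ hx'), g3⟩
  obtain ⟨i, O, F, hO, hw, hF, hs⟩ := h.unif (y0, 0) hy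
  set z := F (y0, 0) with hz
  have hpz : A.p i z = Ψ (y0, 0) := (hs _ hw).2.1
  have hzW : z ∈ (man A hinj hM).W i :=
    ⟨(hs _ hw).1, by rw [mem_preimage]; exact hpz ▸ hTM y0 hy 0⟩
  set π : E N → E n := fun y => proj T Ψ (A.p i y) with hπ
  have hloc := h.proj_loc hzW.1 (hpz ▸ ⟨(y0, 0), ⟨hy, trivial⟩, rfl⟩)
  have hπz : π z = y0 := by
    simp only [hπ, hpz]
    exact h.proj_apply hy 0
  have hπc : Tendsto π (𝓝 z) (𝓝 y0) := hπz ▸ hloc.self_of_nhds.2.continuousAt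
  have hQ : ∀ᶠ y in 𝓝 y0, ψ y - 2 * (P y).re < a / 2 := by
    have h1 : ContinuousAt (fun y => ψ y - 2 * (P y).re) y0 := (hb y0 hy).1.continuousAt.sub
      (continuous_const.mul (Complex.continuous_re.comp hP.continuous)).continuousAt
    exact h1.eventually (gt_mem_nhds (by simp only [hP0]; linarith))
  set d := ‖((A.C i).σ z).det‖ / 2 with hd
  have hd0 : 0 < d := half_pos (norm_pos_iff.2 ((A.C i).σ_det z hzW.1))
  have hdet : ∀ᶠ y in 𝓝 z, d < ‖((A.C i).σ y).det‖ :=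
    ((det_cont (A.C i)).continuousAt ((A.C i).isOpen.mem_nhds hzW.1)).norm.eventually
      (lt_mem_nhds (by linarith))
  obtain ⟨ρ, hρ, hball⟩ := Metric.eventually_nhds_iff_ball.1 (hloc.and (hdet.and
    ((hπc.eventually hQ).and ((hπc.eventually (ball_mem_nhds y0 (half_pos hr))).and
      (((man A hinj hM).isOpen i).mem_nhds hzW)))))
  obtain ⟨A₀, hA, hmv⟩ := hol_l2 N hρ
  set c := |C₁| * (n ^ 2 / lam * B) / d + 1 with hc
  have hc0 : 0 ≤ |C₁| * (n ^ 2 / lam * B) / d := by positivity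
  set θ := Real.exp (-(a / 4)) with hθ
  have hlim := (tendsto_pow_atTop_nhds_zero_of_lt_one (Real.exp_pos _).le
    (Real.exp_lt_one_iff.2 (by linarith : -(a / 4) < 0))).const_mul
      (A₀ * c * (1 + ‖fderiv ℂ F (y0, 0)‖))
  rw [mul_zero] at hlim
  filter_upwards [eventually_ge_atTop 1, hlim.eventually (gt_mem_nhds hε)] with m hm hsm
  obtain ⟨s, g, g1, g0, s2, g2⟩ := key m hm
  set H : E N → ℂ := fun y => g (A.p i y) * Complex.exp (m * -P (π y)) - q (π y) with hH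
  have hHd : DifferentiableOn ℂ H (ball z ρ) := fun y hy' => by
    obtain ⟨⟨-, b2⟩, -, -, -, b5⟩ := hball y hy'
    have b6 : DifferentiableAt ℂ (fun y => g (A.p i y)) y :=
      (g1 i).differentiableAt (((man A hinj hM).isOpen i).mem_nhds b5)
    exact ((b6.mul ((((hP _).comp y b2).neg).const_mul _).cexp).sub
      ((hqd _).comp y b2)).differentiableWithinAt
  have hHb : ‖H z‖ ≤ A₀ * (c * θ ^ m) ∧ ‖fderiv ℂ H z‖ ≤ A₀ * (c * θ ^ m) := by
    obtain ⟨b1, b2⟩ := ball_est (h := H) (c := Real.exp (m * (a / 2)) / d)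
      (fun y hy' => (hball y hy').2.2.2.2)
      hHd.continuousOn (by positivity) (fun y => by unfold wm; positivity)
      (fun y hy' => by
        obtain ⟨⟨b1, -⟩, b2, b3, b4, -⟩ := hball y hy'
        have e1 : H y = (g (A.p i y) - s (A.p i y)) * Complex.exp (m * -P (π y)) := by
          rw [s2 _ b1 b4, sub_mul, mul_assoc, ← Complex.exp_add]
          simp [hH, hπ]
        have e2 : Real.exp (m * (2 * (-P (π y)).re)) ≤
            Real.exp (m * (a / 2)) * Real.exp (-(m * ψ (π y))) := by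
          rw [← Real.exp_add, Complex.neg_re]
          have := mul_le_mul_of_nonneg_left b3.le (Nat.cast_nonneg (α := ℝ) m)
          exact Real.exp_le_exp.2 (by linarith)
        rw [e1, norm_mul, mul_pow, norm_exp_sq, wm, h.pot_eq hTM hφ b1, mul_comm,
          ← mul_assoc (_ / d)]
        refine mul_le_mul_of_nonneg_right (e2.trans ?_) (sq_nonneg _)
        rw [div_mul_eq_mul_div, le_div_iff₀ hd0, mul_assoc]
        exact mul_le_mul_of_nonneg_left
          (mul_le_mul_of_nonneg_left b2.le (Real.exp_pos _).le) (Real.exp_pos _).le)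
      (g2 i).1 (g2 i).2
    refine hmv _ z _ (by positivity) hHd b1 (b2.trans ?_)
    have e3 : (θ ^ m) ^ 2 = Real.exp (m * (a / 2)) * Real.exp (-(m * a)) := by
      rw [hθ, ← Real.exp_nat_mul, ← Real.exp_nat_mul, ← Real.exp_add]
      congr 1
      push_cast
      ring
    have e4 : C₁ * (n ^ 2 / lam * B) / d ≤ c ^ 2 := by
      refine le_trans (div_le_div_of_nonneg_right
        (mul_le_mul_of_nonneg_right (le_abs_self C₁) (by positivity)) hd0.le) ?_
      nlinarith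
    rw [mul_pow, e3]
    refine le_trans (le_of_eq ?_) (mul_le_mul_of_nonneg_right e4 (by positivity))
    ring
  have hFd : DifferentiableAt ℂ F (y0, 0) := hF.differentiableAt (hO.mem_nhds hw)
  have hl0 : HasFDerivAt (fun y : E n => ((y, 0) : E n × E n))
      (ContinuousLinearMap.inl ℂ (E n) (E n)) y0 := hasFDerivAt_prodMk_left y0 0
  have hev : (fun y => g (Ψ (y, 0)) * Complex.exp (m * -P y) - q y) =ᶠ[𝓝 y0]
      fun y => H (F (y, 0)) := by
    filter_upwards [hl0.continuousAt.eventually (hO.mem_nhds hw), h.isOpen.mem_nhds hy]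
      with y h1 h2
    have e1 : A.p i (F (y, 0)) = Ψ (y, 0) := (hs _ h1).2.1
    simp only [hH, hπ, e1, h.proj_apply h2]
  have hp : 0 ≤ A₀ * (c * θ ^ m) := by positivity
  have hn := norm_nonneg (fderiv ℂ F (y0, 0))
  refine ⟨g, g1, g0, ?_, ?_⟩
  · refine (congrArg norm hev.self_of_nhds).le.trans (show ‖H z‖ ≤ ε from ?_)
    nlinarith [hHb.1, mul_nonneg hp hn]
  · have e1 := (hHd.differentiableAt (ball_mem_nhds z hρ)).hasFDerivAt.comp y0
      (hFd.hasFDerivAt.comp y0 hl0)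
    rw [hev.fderiv_eq, show fderiv ℂ (fun y => H (F (y, 0))) y0 = _ from e1.fderiv]
    refine ContinuousLinearMap.opNorm_le_bound _ hε.le fun v => ?_
    refine ((fderiv ℂ H z).le_opNorm _).trans ((mul_le_mul hHb.2
      ((fderiv ℂ F (y0, 0)).le_opNorm _) (norm_nonneg _) hp).trans ?_)
    rw [← mul_assoc]
    exact mul_le_mul (by nlinarith) (by simp) (norm_nonneg _) hε.le

end Pool.Agent.SE
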