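import Pool.Agent.K.MP_63735c_ag.C162
import Pool.Agent.K.MP_63735c_ag.C166
import Pool.Agent.K.MP_63735c_ag.C167

/-! Sections whose ratios separate the leaves of a tube. -/

open scoped ComplexOrder ContDiff Matrix Topology
open Set Metric MeasureTheory Filter

namespace Pool.Agent.SE

open Pool.Agent.SPF Pool.Agent.NL Pool.Agent.AB

variable {N n : ℕ} {Y : Type} [TopologicalSpace Y] {A : Atlas Y N} {T : Set (E n)}
  {Ψ : E n × E n → Y}

theorem Line.herm (L : Line A) (m : ℕ) : Herm A m (fun i j z => L.g i j (A.p i z) ^ m) L.ψ where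
  smooth := L.ψ_smooth
  lev i z hz := Matrix.ext fun a b => L.curv i z hz a b
  cpt i j z hz y hy he := by
    rw [neg_mul_comm, neg_mul_comm, Real.exp_nat_mul, Real.exp_nat_mul, L.ψ_eq i j z hz y hy he,
      norm_pow]
    ring

theorem l2q_of_hl2 [T2Space Y] {hinj : ∀ i, InjOn (A.p i) (A.C i).W} {M : Set Y} {hM : IsOpen M}
    {L : Line A} {S : Set Y} {C₁ : ℝ} (hL : HL2 L S C₁) (hS : M ⊆ S) {k : ℕ}
    {w : A.ι → E N → ℂ} {φ : Y → ℝ}
    (hw : Sect A (fun i j z => L.g i j (A.p i z) ^ k) M w)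
    (hφ : ∀ i, ∀ z ∈ (A.C i).W, A.p i z ∈ M → w i z ≠ 0 ∧
      Real.exp (-φ (A.p i z)) = ‖w i z‖ ^ 2 * Real.exp (-k * L.ψ i z)) :
    L2Q A hinj hM k φ C₁ fun m g => ∃ t, L.IsSection (k * m) t ∧
      ∀ i, ∀ z ∈ (A.C i).W, A.p i z ∈ M → t i z = g (A.p i z) * w i z ^ m := by
  intro m s c C₀ hs h0 hc hest
  have hO := fun i => (man A hinj hM).isOpen i
  have out : ∀ i, ∀ z ∈ (A.C i).W, A.p i z ∉ M →
      (fun y => s (A.p i y) * w i y ^ m) =ᶠ[𝓝 z] fun _ => 0 := fun i z hz hx => by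
    obtain ⟨C, h1, h2, h3⟩ := hs.2
    rw [man_M] at h2
    filter_upwards [((A.cont i).continuousAt ((A.C i).isOpen.mem_nhds hz)).eventually
      (h1.isClosed.isOpen_compl.mem_nhds fun h => hx (h2 h))] with y hy
    rw [h3 _ hy, zero_mul]
  have hwd : ∀ i, ∀ z ∈ (man A hinj hM).W i, ∀ᶠ y in 𝓝 z, DifferentiableAt ℂ (w i) y :=
    fun i z hz => mem_of_superset ((hO i).mem_nhds hz) fun y hy =>
      (hw.hol i).differentiableAt ((hO i).mem_nhds hy)
  have hex : ∀ i, ∀ z ∈ (man A hinj hM).W i, Real.exp (-(m * φ (A.p i z))) =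
      ‖w i z ^ m‖ ^ 2 * Real.exp (-((k * m : ℕ) * L.ψ i z)) := fun i z hz => by
    rw [← mul_neg, Real.exp_nat_mul, (hφ i z hz.1 hz.2).2, mul_pow, ← Real.exp_nat_mul, norm_pow,
      ← pow_mul, ← pow_mul, mul_comm 2]
    congr 2
    push_cast
    ring
  obtain ⟨t, ht, hI⟩ := hL (k * m) (fun i z => s (A.p i z) * w i z ^ m) C₀ h0
    (fun i z hz => ContDiffAt.contDiffWithinAt (by
      by_cases hx : A.p i z ∈ M
      · exact ((hs.1 i).contDiffAt ((hO i).mem_nhds ⟨hz, hx⟩)).mul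
          ((smoothAt_of_hol' (hwd i z ⟨hz, hx⟩)).pow m)
      · exact contDiffAt_const.congr_of_eventuallyEq (out i z hz hx)))
    (fun i z hz hx => (out i z hz fun h => hx (hS h)).self_of_nhds)
    (fun i j z hz y hy he => by
      by_cases hx : A.p i z ∈ M
      · rw [hw.cpt i j z hz y hy he hx, ← he]
        ring
      · exact (out j y hy (he ▸ hx)).self_of_nhds.trans
          (mul_eq_zero_of_right _ (out i z hz hx).self_of_nhds).symm)
    (fun i z hz v => by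
      have hp := hq_nonneg ((A.C i).η_psd z hz) v
      by_cases hx : A.p i z ∈ M
      · have h1 := (hwd i z ⟨hz, hx⟩).self_of_nhds.fun_pow m
        rw [db_mul (f := fun y => s (A.p i y)) (((hs.1 i).contDiffAt ((hO i).mem_nhds ⟨hz, hx⟩)).differentiableAt (by simp))
          (h1.restrictScalars ℝ), db_hol h1, smul_zero, add_zero, star_smul, dotProduct_smul,
          norm_smul, norm_star, mul_pow, mul_right_comm, ← hex i z ⟨hz, hx⟩]
        refine (mul_le_mul_of_nonneg_left (hest i z ⟨hz, hx⟩ v) (Real.exp_pos _).le).trans ?_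
        rw [← mul_assoc, mul_comm (Real.exp _), Nat.cast_mul, mul_comm (k : ℝ)]
        exact mul_le_mul_of_nonneg_right (hc _) (by positivity)
      · rw [(db_congr (out i z hz hx)).self_of_nhds, db_const, star_zero, dotProduct_zero,
          norm_zero, zero_pow two_ne_zero, zero_mul]
        positivity)
  choose ci cz hcz hce using A.cover
  let g : Y → ℂ := fun x => t (ci x) (cz x) / w (ci x) (cz x) ^ m
  have hg : ∀ i, ∀ z ∈ (man A hinj hM).W i, g (A.p i z) = t i z / w i z ^ m := fun i z hz => by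
    have h1 := (hφ _ _ (hcz (A.p i z)) ((hce _).symm ▸ hz.2)).1
    simp only [g]
    rw [hw.cpt i _ z hz.1 _ (hcz _) (hce _).symm hz.2] at h1 ⊢
    rw [ht.2 i _ z hz.1 _ (hcz _) (hce _).symm, mul_pow, pow_mul,
      mul_div_mul_left _ _ (pow_ne_zero _ (left_ne_zero_of_mul h1))]
  have hn : ∀ i, ∀ z ∈ (man A hinj hM).W i, w i z ^ m ≠ 0 := fun i z hz =>
    pow_ne_zero _ (hφ i z hz.1 hz.2).1
  refine ⟨g, fun i => DifferentiableOn.congr (fun z hz => ?_) (hg i), ⟨t, ht, fun i z hz hx => ?_⟩,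
    fun i => ?_⟩
  · simp only [div_eq_mul_inv]
    exact ((ht.1 i).mono inter_subset_left z hz).fun_mul
      ((((hw.hol i) z hz).fun_pow m).fun_inv (hn i z hz))
  · rw [hg i z ⟨hz, hx⟩, div_mul_cancel₀ _ (hn i z ⟨hz, hx⟩)]
  have he : ∀ z ∈ (man A hinj hM).W i,
      L.wd (k * m) i z * ‖t i z - s (A.p i z) * w i z ^ m‖ ^ 2 =
        wm A φ m i z * ‖g (A.p i z) - s (A.p i z)‖ ^ 2 := fun z hz => by
    have h1 : t i z - s (A.p i z) * w i z ^ m = (g (A.p i z) - s (A.p i z)) * w i z ^ m := by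
      rw [hg i z hz, sub_mul, div_mul_cancel₀ _ (hn i z hz)]
    rw [h1, wm, hex i z hz, Line.wd, norm_mul]
    ring
  refine ⟨((hI i).1.mono_set inter_subset_left).congr_fun he (hO i).measurableSet, ?_⟩
  rw [← setIntegral_congr_fun (hO i).measurableSet he]
  exact (setIntegral_mono_set (hI i).1 (Eventually.of_forall fun z => by
    unfold Line.wd; positivity) inter_subset_left.eventuallyLE).trans (hI i).2

/-- Ratios of functions with 1-jets close to those of `1` and of the coordinates. -/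
theorem ratio_inj {a : E n → ℂ} {b : Fin n → E n → ℂ} {y : E n}
    (ha : ∀ᶠ x in 𝓝 y, DifferentiableAt ℂ a x) (hb : ∀ l, ∀ᶠ x in 𝓝 y, DifferentiableAt ℂ (b l) x)
    (a0 : ‖a y - 1‖ ≤ 1 / 8) (a1 : ‖fderiv ℂ (fun x => a x - 1) y‖ ≤ 1 / 8)
    (b0 : ∀ l, ‖b l y - (y l - y l)‖ ≤ 1 / 8)
    (b1 : ∀ l, ‖fderiv ℂ (fun x => b l x - (x l - y l)) y‖ ≤ 1 / 8) :
    ∃ U ∈ 𝓝 y, (∀ x ∈ U, a x ≠ 0) ∧ InjOn (fun x l => b l x / a x) U := by
  have h1 : 1 / 2 ≤ ‖a y‖ := by
    have := norm_sub_norm_le (1 : ℂ) (a y)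
    rw [norm_one, norm_sub_rev] at this
    linarith
  have h2 : a y ≠ 0 := norm_pos_iff.1 (by linarith)
  have h3 := ha.self_of_nhds.continuousAt.eventually_ne h2
  have hc : ∀ l x, HasFDerivAt (fun x : E n => x l - y l)
      (ContinuousLinearMap.proj (R := ℂ) (φ := fun _ => ℂ) l) x := fun l x =>
    (hasFDerivAt_apply l x).sub_const _
  obtain ⟨U, hU, h⟩ := inj_of_small (P := fun _ => 0) (m := 0) (G := fun x l => b l x / a x)
    (H := fun x l => b l x * (a x)⁻¹ - (x l - y l)) (y := y) (a := ‖fun l => b l y * (a y)⁻¹ -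
      (y l - y l)‖) (b := 3 / 4) (differentiable_const _) (by
      filter_upwards [ha, h3, eventually_all.2 hb] with x e1 e2 e3
      exact differentiableAt_pi.2 fun l =>
        ((e3 l).mul (e1.fun_inv e2)).sub (hc l x).differentiableAt)
    (Eventually.of_forall fun x => funext fun l => by simp [div_eq_mul_inv]) le_rfl
    (fun v => by
      have da := ha.self_of_nhds.hasFDerivAt
      have e1 := hasFDerivAt_pi.2 fun l => (((hb l).self_of_nhds.hasFDerivAt.mul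
        ((hasFDerivAt_inv h2).comp y da)).sub (hc l y))
      rw [show fderiv ℂ (fun x l => b l x * (a x)⁻¹ - (x l - y l)) y = _ from e1.fderiv]
      refine (pi_norm_le_iff_of_nonneg (by positivity)).2 fun l => ?_
      have f1 := (ContinuousLinearMap.le_opNorm _ v).trans
        (mul_le_mul_of_nonneg_right a1 (norm_nonneg v))
      have f2 := (ContinuousLinearMap.le_opNorm _ v).trans
        (mul_le_mul_of_nonneg_right (b1 l) (norm_nonneg v))
      rw [(da.sub_const 1).fderiv] at f1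
      rw [show fderiv ℂ (fun x => b l x - (x l - y l)) y = _ from
        ((hb l).self_of_nhds.hasFDerivAt.sub (hc l y)).fderiv] at f2
      have f3 := b0 l
      rw [sub_self, sub_zero] at f3
      have f4 := norm_le_pi_norm v l
      have f5 : ‖(a y)⁻¹‖ ≤ 2 := by
        rw [norm_inv]
        exact (inv_le_comm₀ (by linarith) two_pos).2 (by linarith)
      change ‖fderiv ℂ (b l) y v - v l‖ ≤ _ at f2
      refine le_trans (le_of_eq (congrArg norm (show _ = (a y)⁻¹ * ((fderiv ℂ (b l) y v - v l) -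
        (a y - 1) * v l - b l y * ((a y)⁻¹ * fderiv ℂ a y v)) from ?_))) ?_
      · simp
        field_simp
        ring
      rw [norm_mul]
      have f6 : ‖(a y - 1) * v l‖ ≤ 1 / 8 * ‖v‖ := by
        rw [norm_mul]
        exact mul_le_mul a0 f4 (norm_nonneg _) (by norm_num)
      have f7 : ‖b l y * ((a y)⁻¹ * fderiv ℂ a y v)‖ ≤ 1 / 8 * (2 * (1 / 8 * ‖v‖)) := by
        rw [norm_mul, norm_mul]
        exact mul_le_mul f3 (mul_le_mul f5 f1 (norm_nonneg _) two_pos.le) (by positivity)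
          (by norm_num)
      refine (mul_le_mul f5 ((norm_sub_le _ _).trans (add_le_add ((norm_sub_le _ _).trans
        (add_le_add f2 f6)) f7)) (norm_nonneg _) two_pos.le).trans ?_
      linarith [norm_nonneg v])
    (by norm_num)
  exact ⟨_, inter_mem hU h3, fun x hx => hx.2, h.mono inter_subset_left⟩

/-- Sections of a power of `L` whose ratios have the leaves of a tube as fibres. -/
theorem sections [T2Space Y] [PreconnectedSpace Y] (hinj : ∀ i, InjOn (A.p i) (A.C i).W)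
    (L : Line A) (hL : ∀ S, IsCompact S → ∃ C₁, HL2 L S C₁) {k : ℕ} (hk : 1 ≤ k) {κ : Type}
    [Fintype κ]
    {α : A.ι → E N → Ten N κ} (hα : Tens A (fun i j z => L.g i j (A.p i z) ^ k) α)
    (h0 : ∃ i, ∃ z ∈ (A.C i).W, α i z ≠ 0) (hT : IsOpen T) (hne : T.Nonempty)
    (hu : A.IsUnif T Ψ) (hf : IsFibred Ψ T) :
    ∃ (m : ℕ) (s : Fin (n + 1) → A.ι → E N → ℂ), 1 ≤ m ∧ (∀ l, L.IsSection m (s l)) ∧
      ∃ T' ⊆ T, IsOpen T' ∧ T'.Nonempty ∧ ∀ b ∈ T', ∀ τ i, ∀ z ∈ (A.C i).W, A.p i z = Ψ (b, τ) →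
        s 0 i z ≠ 0 ∧ ∀ b' ∈ T', ∀ τ' j, ∀ y ∈ (A.C j).W, A.p j y = Ψ (b', τ') →
          ((∀ l, s l i z / s 0 i z = s l j y / s 0 j y) ↔ b = b') := by
  obtain ⟨T₁, s1, ⟨x0, n1⟩, h1⟩ := exists_tube hT hne hu hf
  obtain ⟨r, hr, hB⟩ := Metric.nhds_basis_closedBall.mem_iff.1 (h1.isOpen.mem_nhds n1)
  have hB' := ball_subset_closedBall.trans hB
  obtain ⟨C₁, hL⟩ := hL _ (h1.cpt (isCompact_closedBall x0 r) hB)
  obtain ⟨T₂, s2, ⟨y0, hy⟩, h, w, φ, hw, hφ, he⟩ :=
    descent hinj (L.herm k) hα (h1.mono isOpen_ball hB') ⟨x0, mem_ball_self hr⟩ h0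
  have hTM : ∀ b ∈ T₂, ∀ τ, Ψ (b, τ) ∈ Ψ '' (T₂ ×ˢ univ) := fun b hb τ =>
    ⟨(b, τ), ⟨hb, trivial⟩, rfl⟩
  obtain ⟨P, hP, key⟩ := peakq h hTM hφ (by exact_mod_cast hk) (l2q_of_hl2 hL
    (image_mono (prod_mono (s2.trans ball_subset_closedBall) subset_rfl)) hw he) hy
  obtain ⟨m, hm, ⟨g0, a1, ⟨t0, a2, a3⟩, a4, a5⟩, hg⟩ := ((eventually_ge_atTop 1).and
    ((key (fun _ => 1) (differentiable_const _) (1 / 8) (by norm_num)).and (eventually_all.2
      fun l : Fin n => key (fun x => x l - y0 l) (by fun_prop) (1 / 8) (by norm_num)))).exists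
  choose g b1 b2 b4 b5 using hg
  choose t b2 b3 using b2
  have hd : ∀ f : Y → ℂ, (man A hinj (tube_open h)).Hol f → ∀ᶠ x in 𝓝 y0,
      DifferentiableAt ℂ (fun y => f (Ψ (y, 0)) * Complex.exp (m * -P y)) x := fun f hf' =>
    mem_of_superset (h.isOpen.mem_nhds hy) fun x hx =>
      (hol_along h.unif hf' (l := fun s => (s, 0)) (by fun_prop) hx (hTM x hx 0)).mul
        (((hP x).neg.const_mul _).cexp)
  obtain ⟨U, hU, u1, u2⟩ := ratio_inj (hd g0 a1) (fun l => hd _ (b1 l)) a4 a5 b4 b5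
  have r0 : ∀ b ∈ interior U ∩ T₂, ∀ τ i, ∀ z ∈ (A.C i).W, A.p i z = Ψ (b, τ) → t0 i z ≠ 0 ∧
      ∀ l, t l i z / t0 i z = g l (Ψ (b, 0)) * Complex.exp (m * -P b) /
        (g0 (Ψ (b, 0)) * Complex.exp (m * -P b)) := fun b hb τ i z hz e => by
    have hx := e ▸ hTM b hb.2 τ
    have hw0 := pow_ne_zero m (he i z hz hx).1
    rw [a3 i z hz hx, e, hol_leaf h.unif h.fib a1 hb.2 (hTM b hb.2) τ]
    refine ⟨mul_ne_zero (left_ne_zero_of_mul (u1 b (interior_subset hb.1))) hw0, fun l => ?_⟩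
    rw [b3 l i z hz hx, e, hol_leaf h.unif h.fib (b1 l) hb.2 (hTM b hb.2) τ,
      mul_div_mul_right _ _ hw0, mul_div_mul_right _ _ (Complex.exp_ne_zero _)]
  refine ⟨k * m, Fin.cons t0 t, Nat.mul_pos hk hm, Fin.cases a2 b2, interior U ∩ T₂,
    inter_subset_right.trans (s2.trans (hB'.trans s1)), isOpen_interior.inter h.isOpen,
    ⟨y0, mem_interior_iff_mem_nhds.2 hU, hy⟩, fun b hb τ i z hz e =>
      ⟨(r0 b hb τ i z hz e).1, fun b' hb' τ' j y hy' e' => ⟨fun h2 => ?_, fun h2 => ?_⟩⟩⟩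
  · exact u2 (interior_subset hb.1) (interior_subset hb'.1) (funext fun l =>
      ((r0 b hb τ i z hz e).2 l).symm.trans ((h2 l.succ).trans ((r0 b' hb' τ' j y hy' e').2 l)))
  · subst h2
    refine Fin.cases ?_ fun l => ((r0 b hb τ i z hz e).2 l).trans ((r0 b hb τ' j y hy' e').2 l).symm
    exact (div_self (r0 b hb τ i z hz e).1).trans (div_self (r0 b hb τ' j y hy' e').1).symm

end Pool.Agent.SE
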