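import Mathlib

-- part Pool.Agent.P.MP_63735c_ag.SEFock
section

/-! Canonical anticommutation relations and second quantisation. -/

open scoped Matrix

namespace Pool.Agent.SE

variable {N : ℕ} {A A' R R' : Type} [Ring A] [Ring A'] [CommRing R] [CommRing R'] [Algebra R A]
  [Algebra R' A']

/-- Creation and annihilation operators in a ring. -/
structure Car (A : Type) [Ring A] (N : ℕ) where
  e : Fin N → A
  i : Fin N → A
  e2 : ∀ a, e a * e a = 0
  i2 : ∀ a, i a * i a = 0
  ee : ∀ a b, e a * e b = -(e b * e a)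
  ii : ∀ a b, i a * i b = -(i b * i a)
  ie : ∀ a b, i a * e b = (if a = b then 1 else 0) - e b * i a

namespace Car

variable (C : Car A N)

/-- Products of the occupation projections. -/
def pl (l : List (Fin N)) : A := (l.map fun a => C.i a * C.e a).prod

/-- The projection on the vacuum. -/
def vac : A := C.pl (List.finRange N)

/-- The creation operator of a vector. -/
def ev (v : Fin N → R) : A := ∑ a, v a • C.e a

/-- The annihilation operator of a covector. -/
def iv (v : Fin N → R) : A := ∑ a, v a • C.i a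

/-- The recursion for the second quantisation. -/
def gl (m : Fin N → A) (B : A) : List (Fin N) → A
  | [] => B
  | a :: l => gl m B l + m a * gl m B l * C.i a

/-- Second quantisation of a matrix. -/
def gam (M : Matrix (Fin N) (Fin N) R) : A :=
  C.gl (fun b => C.ev fun a => M a b) C.vac (List.finRange N)

/-- Transport along a ring homomorphism. -/
def map (φ : A →+* A') : Car A' N where
  e a := φ (C.e a)
  i a := φ (C.i a)
  e2 a := by rw [← map_mul, C.e2, map_zero]
  i2 a := by rw [← map_mul, C.i2, map_zero]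
  ee a b := by rw [← map_mul, C.ee, map_neg, map_mul]
  ii a b := by rw [← map_mul, C.ii, map_neg, map_mul]
  ie a b := by
    rw [← map_mul, C.ie, map_sub, map_mul]
    split_ifs <;> simp

theorem pl_cons (a : Fin N) (l : List (Fin N)) : C.pl (a :: l) = C.i a * C.e a * C.pl l := by
  simp [pl]

theorem ie_ne {a b : Fin N} (h : a ≠ b) : C.i a * C.e b = -(C.e b * C.i a) := by
  rw [C.ie, if_neg h, zero_sub]

theorem ie_self (a : Fin N) : C.i a * C.e a = 1 - C.e a * C.i a := by rw [C.ie, if_pos rfl]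

theorem n_e {a b : Fin N} (h : a ≠ b) : C.i a * C.e a * C.e b = C.e b * (C.i a * C.e a) := by
  rw [mul_assoc, C.ee, mul_neg, ← mul_assoc, C.ie_ne h, neg_mul, neg_neg, mul_assoc]

theorem i_n {a b : Fin N} (h : a ≠ b) : C.i a * (C.i b * C.e b) = C.i b * C.e b * C.i a := by
  rw [← mul_assoc, C.ii, neg_mul, mul_assoc, C.ie_ne h, mul_neg, neg_neg, mul_assoc]

theorem i_pl {a : Fin N} : ∀ {l : List (Fin N)}, a ∈ l → C.i a * C.pl l = 0
  | b :: l, h => by
    rw [pl_cons, ← mul_assoc]
    by_cases hab : a = b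
    · rw [hab, ← mul_assoc, C.i2, zero_mul, zero_mul]
    · rw [C.i_n hab, mul_assoc, i_pl ((List.mem_cons.1 h).resolve_left hab), mul_zero]

theorem pl_e' {a : Fin N} : ∀ {l : List (Fin N)}, a ∉ l → C.pl l * C.e a = C.e a * C.pl l
  | [], _ => by simp [pl]
  | b :: l, h => by
    rw [List.mem_cons, not_or] at h
    rw [pl_cons, mul_assoc, pl_e' h.2, ← mul_assoc, C.n_e (Ne.symm h.1), mul_assoc]

theorem pl_e {a : Fin N} : ∀ {l : List (Fin N)}, a ∈ l → C.pl l * C.e a = 0
  | b :: l, h => by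
    rw [pl_cons, mul_assoc]
    by_cases hl : a ∈ l
    · rw [pl_e hl, mul_zero]
    · rw [C.pl_e' hl, (List.mem_cons.1 h).resolve_right hl, ← mul_assoc, mul_assoc (C.i b), C.e2,
        mul_zero, zero_mul]

theorem i_vac (a : Fin N) : C.i a * C.vac = 0 := C.i_pl (List.mem_finRange a)

theorem vac_e (a : Fin N) : C.vac * C.e a = 0 := C.pl_e (List.mem_finRange a)

theorem pl_mul {x : A} (h : ∀ a, C.i a * x = 0) : ∀ l, C.pl l * x = x
  | [] => by simp [pl]
  | a :: l => by
    rw [pl_cons, mul_assoc, pl_mul h l, ie_self, sub_mul, one_mul, mul_assoc, h, mul_zero, sub_zero]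

theorem mul_pl {x : A} (h : ∀ a, x * C.e a = 0) : ∀ l, x * C.pl l = x
  | [] => by simp [pl]
  | a :: l => by
    rw [pl_cons, ← mul_assoc, ie_self, mul_sub, ← mul_assoc, h, zero_mul, sub_zero, mul_one,
      mul_pl h l]

theorem vac_vac : C.vac * C.vac = C.vac := C.pl_mul C.i_vac _

theorem gl_mul {x : A} (B : A) : ∀ {l : List (Fin N)}, (∀ b ∈ l, x * C.e b = C.e b * x) →
    C.gl C.e (x * B) l = x * C.gl C.e B l
  | [], _ => rfl
  | a :: l, h => by
    rw [gl, gl, gl_mul B fun b hb => h b (List.mem_cons_of_mem _ hb), mul_add, ← mul_assoc,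
      ← h a List.mem_cons_self]
    simp only [mul_assoc]

theorem gl_one : ∀ {l : List (Fin N)}, l.Nodup → C.gl C.e (C.pl l) l = 1
  | [], _ => by simp [pl, gl]
  | a :: l, h => by
    rw [List.nodup_cons] at h
    rw [gl, pl_cons, C.gl_mul _ fun b hb => C.n_e (a := a) fun hab => h.1 (hab ▸ hb), gl_one h.2, mul_one,
      ie_self, mul_sub, ← mul_assoc, C.e2, zero_mul, sub_zero, mul_one, sub_add_cancel]

/-- The vacuum is cyclic. -/
theorem cyc {Z : A} (h0 : Z * C.vac = 0) (h : ∀ b, ∃ x, Z * C.e b = x * Z) : Z = 0 := by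
  have : ∀ l, Z * C.gl C.e C.vac l = 0 := by
    intro l
    induction l with
    | nil => exact h0
    | cons a l ih =>
      obtain ⟨x, hx⟩ := h a
      rw [gl, mul_add, ih, zero_add, ← mul_assoc, ← mul_assoc, hx, mul_assoc x, ih, mul_zero,
        zero_mul]
  have h1 := this (List.finRange N)
  rwa [vac, C.gl_one (List.nodup_finRange N), mul_one] at h1

theorem e_ev (a : Fin N) (v : Fin N → R) : C.e a * C.ev v = -(C.ev v * C.e a) := by
  simp only [ev, Finset.mul_sum, Finset.sum_mul, mul_smul_comm, smul_mul_assoc, C.ee a, smul_neg,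
    Finset.sum_neg_distrib]

theorem ev_ev (u v : Fin N → R) : C.ev u * C.ev v = -(C.ev v * C.ev u) := by
  rw [ev, Finset.sum_mul, Finset.mul_sum, ← Finset.sum_neg_distrib]
  simp only [mul_smul_comm, smul_mul_assoc, e_ev, smul_neg]

/-- A symmetric combination of anticommuting products vanishes. -/
theorem sym_zero {x : Fin N → A} (h2 : ∀ a, x a * x a = 0) (h : ∀ a b, x a * x b = -(x b * x a))
    {c : Fin N → Fin N → R} (hc : ∀ a b, c a b = c b a) :
    ∑ a, ∑ b, c a b • (x a * x b) = 0 := by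
  rw [← Finset.sum_product']
  refine Finset.sum_involution (fun p _ => p.swap) (fun p _ => ?_) (fun p _ hp he => hp ?_)
    (fun p _ => by simp) (fun p _ => rfl)
  · simp only [Prod.fst_swap, Prod.snd_swap]
    rw [h p.1, hc p.1, smul_neg, neg_add_cancel]
  · have : p.2 = p.1 := congrArg Prod.fst he
    rw [this, h2, smul_zero]

theorem ev2 (v : Fin N → R) : C.ev v * C.ev v = 0 := by
  simp only [ev, Finset.sum_mul_sum, smul_mul_smul_comm]
  exact sym_zero C.e2 C.ee fun a b => mul_comm _ _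

theorem i_ev (a : Fin N) (v : Fin N → R) : C.i a * C.ev v = v a • (1 : A) - C.ev v * C.i a := by
  simp [ev, Finset.mul_sum, Finset.sum_mul, C.ie a, smul_sub]

theorem iv_e (v : Fin N → R) (a : Fin N) : C.iv v * C.e a = v a • (1 : A) - C.e a * C.iv v := by
  simp [iv, Finset.mul_sum, Finset.sum_mul, C.ie _ a, smul_sub]

theorem vac_ev (v : Fin N → R) : C.vac * C.ev v = 0 := by
  simp [ev, Finset.mul_sum, vac_e]

theorem iv_vac (v : Fin N → R) : C.iv v * C.vac = 0 := by
  simp [iv, Finset.sum_mul, i_vac]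

theorem gl_e {m : Fin N → A} (h2 : ∀ a, m a * m a = 0) (h : ∀ a b, m a * m b = -(m b * m a)) :
    ∀ {l : List (Fin N)}, l.Nodup → ∀ b,
      C.gl m C.vac l * C.e b = if b ∈ l then m b * C.gl m C.vac l else 0
  | [], _, b => by simp [gl, vac_e]
  | a :: l, hl, b => by
    rw [List.nodup_cons] at hl
    have ih := gl_e h2 h hl.2 b
    rw [gl, add_mul, mul_assoc _ (C.i a), C.ie, mul_sub, ← mul_assoc, mul_assoc (m a) _ (C.e b), ih]
    by_cases hab : a = b
    · subst hab
      simp [hl.1, mul_add, ← mul_assoc, h2]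
    · by_cases hb : b ∈ l
      · simp [hb, hab, mul_add, ← mul_assoc, h a b]
      · simp [hb, hab, Ne.symm hab]

theorem gam_e (M : Matrix (Fin N) (Fin N) R) (b : Fin N) :
    C.gam M * C.e b = C.ev (fun a => M a b) * C.gam M := by
  rw [gam, C.gl_e (fun _ => C.ev2 _) (fun _ _ => C.ev_ev _ _) (List.nodup_finRange N),
    if_pos (List.mem_finRange b)]

theorem gam_vac (M : Matrix (Fin N) (Fin N) R) : C.gam M * C.vac = C.vac := by
  rw [gam]
  induction List.finRange N with
  | nil => exact C.vac_vac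
  | cons a l ih => rw [gl, add_mul, ih, mul_assoc, i_vac, mul_zero, add_zero]

theorem vac_gam (M : Matrix (Fin N) (Fin N) R) : C.vac * C.gam M = C.vac := by
  rw [gam]
  induction List.finRange N with
  | nil => exact C.vac_vac
  | cons a l ih =>
    rw [gl, mul_add, ih, ← mul_assoc, ← mul_assoc, vac_ev, zero_mul, zero_mul, add_zero]

theorem gam_unique {M : Matrix (Fin N) (Fin N) R} {Z : A} (h0 : Z * C.vac = C.vac)
    (h : ∀ b, Z * C.e b = C.ev (fun a => M a b) * Z) : Z = C.gam M :=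
  sub_eq_zero.1 (C.cyc (by rw [sub_mul, h0, gam_vac, sub_self]) fun b =>
    ⟨_, by rw [sub_mul, h, gam_e, mul_sub]⟩)

theorem gam_ev (M : Matrix (Fin N) (Fin N) R) (v : Fin N → R) :
    C.gam M * C.ev v = C.ev (M *ᵥ v) * C.gam M := by
  rw [ev, Finset.mul_sum]
  simp only [mul_smul_comm, gam_e, ← smul_mul_assoc, ← Finset.sum_mul]
  congr 1
  simp only [ev, Finset.smul_sum, smul_smul, Matrix.mulVec, dotProduct, Finset.sum_smul]
  rw [Finset.sum_comm]
  simp only [mul_comm]

theorem gam_mul (M M' : Matrix (Fin N) (Fin N) R) : C.gam (M * M') = C.gam M * C.gam M' :=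
  (C.gam_unique (by rw [mul_assoc, gam_vac, gam_vac]) fun b => by
    rw [mul_assoc, gam_e, ← mul_assoc, gam_ev, mul_assoc]
    rfl).symm

theorem gam_one : C.gam (1 : Matrix (Fin N) (Fin N) R) = 1 :=
  (C.gam_unique (one_mul _) fun b => by simp [ev, Matrix.one_apply]).symm

theorem i_gam (M : Matrix (Fin N) (Fin N) R) (a : Fin N) :
    C.i a * C.gam M = C.gam M * C.iv (M a) := by
  refine sub_eq_zero.1 (C.cyc ?_ fun b => ⟨-C.ev fun a => M a b, ?_⟩)
  · rw [sub_mul, mul_assoc, mul_assoc, gam_vac, i_vac, iv_vac, mul_zero, sub_zero]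
  · rw [sub_mul, mul_assoc, gam_e, ← mul_assoc, i_ev, mul_assoc (C.gam M), iv_e, mul_sub (C.gam M),
      ← mul_assoc, gam_e]
    simp only [mul_smul_comm, smul_mul_assoc, sub_mul, mul_sub, neg_mul, mul_assoc, one_mul,
      mul_one]
    abel

theorem iv_gam (M : Matrix (Fin N) (Fin N) R) (v : Fin N → R) :
    C.iv v * C.gam M = C.gam M * C.iv (v ᵥ* M) := by
  rw [iv, Finset.sum_mul]
  simp only [smul_mul_assoc, i_gam, ← mul_smul_comm, ← Finset.mul_sum]
  congr 1
  simp only [iv, Finset.smul_sum, smul_smul, Matrix.vecMul, dotProduct, Finset.sum_smul]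
  rw [Finset.sum_comm]

/-- The parity operator anticommutes with the generators. -/
theorem par_e (a : Fin N) :
    C.gam (-1 : Matrix (Fin N) (Fin N) R) * C.e a = -(C.e a * C.gam (-1 : Matrix _ _ R)) := by
  simp [gam_e, ev, Matrix.one_apply]

theorem par_i (a : Fin N) :
    C.gam (-1 : Matrix (Fin N) (Fin N) R) * C.i a = -(C.i a * C.gam (-1 : Matrix _ _ R)) := by
  simp [i_gam, iv, Matrix.one_apply]

theorem par_par : C.gam (-1 : Matrix (Fin N) (Fin N) R) * C.gam (-1 : Matrix _ _ R) = 1 := by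
  rw [← gam_mul, neg_mul_neg, one_mul, gam_one]

theorem par_gam (M : Matrix (Fin N) (Fin N) R) :
    C.gam (-1 : Matrix (Fin N) (Fin N) R) * C.gam M = C.gam M * C.gam (-1 : Matrix _ _ R) := by
  rw [← gam_mul, ← gam_mul, neg_one_mul, mul_neg_one]

theorem commute_vac {x : A} (he : ∀ a, Commute x (C.e a)) (hi : ∀ a, Commute x (C.i a)) :
    Commute x C.vac :=
  Commute.list_prod_right _ _ fun y hy => by
    obtain ⟨a, -, rfl⟩ := List.mem_map.1 hy
    exact (hi a).mul_right (he a)

theorem commute_gam {x : A} (he : ∀ a, Commute x (C.e a)) (hi : ∀ a, Commute x (C.i a))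
    (M : Matrix (Fin N) (Fin N) R) : Commute x (C.gam M) := by
  rw [gam]
  induction List.finRange N with
  | nil => exact C.commute_vac he hi
  | cons a l ih =>
    exact ih.add_right (((Commute.sum_right _ _ _ fun b _ => (he b).smul_right _).mul_right
      ih).mul_right (hi a))

theorem map_vac (φ : A →+* A') : (C.map φ).vac = φ C.vac := by
  simp [vac, pl, map, map_list_prod, Function.comp_def]

/-- Naturality. -/
theorem map_gam (φ : A →+* A') (ψ : R → R') (h : ∀ (r : R) x, φ (r • x) = ψ r • φ x)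
    (M : Matrix (Fin N) (Fin N) R) : (C.map φ).gam (M.map ψ) = φ (C.gam M) :=
  ((C.map φ).gam_unique (by rw [map_vac, ← map_mul, gam_vac]) fun b => by
    change _ * φ _ = _
    rw [← map_mul, gam_e, map_mul, ev, map_sum]
    simp only [h]
    rfl).symm

section Anti

variable {τ : A →+ A} {σ : R → R} (hm : ∀ x y, τ (x * y) = τ y * τ x) (h1 : τ 1 = 1)
  (he : ∀ a, τ (C.e a) = C.i a) (hi : ∀ a, τ (C.i a) = C.e a)
include hm h1 he hi

theorem anti_vac : τ C.vac = C.vac := by
  have h2 : C.vac * τ C.vac = τ C.vac :=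
    C.pl_mul (fun a => by rw [← he, ← hm, vac_e, map_zero]) _
  have h3 : ∀ l, C.vac * τ (C.pl l) = C.vac := by
    intro l
    induction l with
    | nil => rw [pl, List.map_nil, List.prod_nil, h1, mul_one]
    | cons a l ih =>
      rw [pl_cons, hm, ← mul_assoc, ih, hm, he, hi, ie_self, mul_sub, ← mul_assoc, vac_e, zero_mul,
        sub_zero, mul_one]
  exact h2.symm.trans (h3 _)

theorem anti_gam (hs : ∀ (r : R) x, τ (r • x) = σ r • τ x) (M : Matrix (Fin N) (Fin N) R) :
    τ (C.gam M) = C.gam (Mᵀ.map σ) := by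
  have hv := C.anti_vac hm h1 he hi
  refine C.gam_unique (by rw [← hv, ← hm, vac_gam]) fun b => ?_
  rw [← hi, ← hm, i_gam, hm, iv, map_sum]
  simp only [hs, hi]
  rfl

end Anti

end Car

end Pool.Agent.SE
end

-- part Pool.Agent.P.MP_63735c_ag.SEFock2
section

/-! Derivatives of the second quantisation, matrix models. -/

open scoped Matrix ComplexOrder Kronecker MatrixOrder

namespace Pool.Agent.SE

namespace Car

section Der

variable {N : ℕ} {A R : Type} [Ring A] [CommRing R] [Algebra R A] (C : Car A N)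

/-- `D` is a derivation over `d` that kills the generators. -/
structure IsDer (d : R → R) (D : A →+ A) : Prop where
  mul : ∀ x y, D (x * y) = D x * y + x * D y
  smul : ∀ (r : R) x, D (r • x) = d r • x + r • D x
  e : ∀ a, D (C.e a) = 0
  i : ∀ a, D (C.i a) = 0

variable {C} {d : R → R} {D : A →+ A}

theorem IsDer.one (h : C.IsDer d D) : D 1 = 0 := by simpa using h.mul 1 1

theorem IsDer.vac (h : C.IsDer d D) : D C.vac = 0 := by
  rw [Car.vac]
  induction List.finRange N with
  | nil => exact h.one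
  | cons a l ih => simp [pl_cons, h.mul, h.e, h.i, ih]

theorem IsDer.ev (h : C.IsDer d D) (v : Fin N → R) : D (C.ev v) = C.ev fun a => d (v a) := by
  simp [Car.ev, h.smul, h.e]

theorem IsDer.iv (h : C.IsDer d D) (v : Fin N → R) : D (C.iv v) = C.iv fun a => d (v a) := by
  simp [Car.iv, h.smul, h.i]

theorem IsDer.gam (h : C.IsDer d D) (M : Matrix (Fin N) (Fin N) R) :
    D (C.gam M) = ∑ b, C.ev (fun a => d (M a b)) * C.gam M * C.i b := by
  refine sub_eq_zero.1 (C.cyc ?_ fun c => ⟨C.ev fun a => M a c, ?_⟩)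
  · have := h.mul (C.gam M) C.vac
    rw [gam_vac, h.vac, mul_zero, add_zero] at this
    simp [sub_mul, ← this, Finset.sum_mul, mul_assoc, i_vac]
  · have := h.mul (C.gam M) (C.e c)
    rw [gam_e, h.mul, h.e, h.ev, mul_zero, add_zero] at this
    have h2 : ∀ b, C.ev (fun a => d (M a b)) * C.gam M * C.i b * C.e c =
        (if b = c then C.ev (fun a => d (M a b)) * C.gam M else 0) +
        C.ev (fun a => M a c) * (C.ev (fun a => d (M a b)) * C.gam M * C.i b) := by
      intro b
      rw [mul_assoc, C.ie, mul_sub, ← mul_assoc, mul_assoc _ _ (C.e c), gam_e, ← mul_assoc,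
        C.ev_ev (fun a => d (M a b))]
      simp [mul_assoc]
    simp only [sub_mul, ← this, Finset.sum_mul, h2, Finset.sum_add_distrib, Finset.sum_ite_eq',
      Finset.mem_univ, if_true, mul_sub, Finset.mul_sum]
    abel

variable {d : Fin N → R → R} {D : Fin N → A →+ A} {M M' : Matrix (Fin N) (Fin N) R}

/-- KA. -/
theorem ka (h : ∀ k, C.IsDer (d k) (D k)) (hs : ∀ k a b, d k (M a b) = d a (M k b)) :
    ∑ k, C.e k * D k (C.gam M) = 0 := by
  simp only [(h _).gam, Finset.mul_sum, ← mul_assoc]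
  rw [Finset.sum_comm]
  refine Finset.sum_eq_zero fun b _ => ?_
  simp only [← Finset.sum_mul, Car.ev, Finset.mul_sum, mul_smul_comm]
  rw [sym_zero C.e2 C.ee fun k a => hs k a b, zero_mul, zero_mul]

/-- The adjoint form of KA. -/
theorem ka' (h : ∀ k, C.IsDer (d k) (D k)) (hs : ∀ l a b, d l (M a b) = d b (M a l)) :
    ∑ l, D l (C.gam M) * C.i l = 0 := by
  have : ∀ l, D l (C.gam M) * C.i l =
      ∑ a, C.e a * C.gam M * ∑ b, d b (M a l) • (C.i b * C.i l) := by
    intro l
    simp only [(h _).gam, Car.ev, Finset.sum_mul, Finset.mul_sum, smul_mul_assoc, mul_smul_comm,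
      mul_assoc, hs l]
    exact Finset.sum_comm
  simp only [this]
  rw [Finset.sum_comm]
  refine Finset.sum_eq_zero fun a _ => ?_
  rw [← Finset.mul_sum, Finset.sum_comm, sym_zero C.i2 C.ii fun b l => hs b a l, mul_zero]

theorem gam_up (hM : M * M' = 1) (k : Fin N) :
    C.gam M * C.ev (fun a => M' a k) = C.e k * C.gam M := by
  have : M *ᵥ (fun a => M' a k) = fun a => (M * M') a k := rfl
  rw [gam_ev, this, hM]
  simp [Car.ev, Matrix.one_apply]

theorem up_gam (hM : M' * M = 1) (a : Fin N) : C.iv (M' a) * C.gam M = C.gam M * C.i a := by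
  have : M' a ᵥ* M = (M' * M) a := rfl
  rw [iv_gam, this, hM]
  simp [Car.iv, Matrix.one_apply]

theorem smul_gam (hM : M * M' = 1) (l k : Fin N) : M' l k • C.gam M =
    C.gam M * C.i l * C.ev (fun a => M' a k) + C.e k * C.gam M * C.i l := by
  rw [mul_assoc, i_ev, mul_sub, ← mul_assoc, gam_up hM]
  simp

/-- The divergence of the inverse metric times the metric on multivectors. -/
theorem div_gam (h : ∀ k, C.IsDer (d k) (D k)) (hs : ∀ l a b, d l (M a b) = d b (M a l))
    (hM : M * M' = 1) (k : Fin N) : ∑ l, D l (M' l k • C.gam M) =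
      C.gam M * ∑ l, C.i l * C.ev fun a => d l (M' a k) := by
  simp only [smul_gam hM, map_add, (h _).mul, (h _).e, (h _).i, (h _).ev, mul_zero, zero_mul,
    add_zero, zero_add, Finset.sum_add_distrib, ← Finset.sum_mul, ka' h hs, mul_assoc (C.e k)]
  simp only [mul_assoc, ← Finset.mul_sum, ka' h hs, mul_zero, add_zero]

/-- PI. -/
theorem piola (h : ∀ k, C.IsDer (d k) (D k)) (hs : ∀ l a b, d l (M a b) = d b (M a l))
    (hM : M' * M = 1) : ∑ a, C.iv (M' a) * D a (C.gam M) =
      C.gam M * C.iv fun b => (M' * M.map (d b)).trace := by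
  have h1 : ∀ a b, C.iv (M' a) * (C.ev (fun c => d a (M c b)) * C.gam M * C.i b) =
      (∑ c, M' a c * d b (M c a)) • (C.gam M * C.i b) -
        ∑ c, C.e c * C.gam M * (d a (M c b) • (C.i a * C.i b)) := by
    intro a b
    rw [Car.ev, Finset.sum_mul, Finset.sum_mul, Finset.mul_sum, Finset.sum_smul,
      ← Finset.sum_sub_distrib]
    refine Finset.sum_congr rfl fun c _ => ?_
    rw [smul_mul_assoc, smul_mul_assoc, mul_smul_comm, ← mul_assoc, ← mul_assoc, iv_e, sub_mul,
      mul_assoc (C.e c), up_gam hM, sub_mul, smul_sub, ← hs a]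
    simp [mul_assoc, smul_smul, mul_comm]
  have h2 : ∑ a, ∑ b, ∑ c, C.e c * C.gam M * (d a (M c b) • (C.i a * C.i b)) = 0 := by
    rw [Finset.sum_congr rfl fun a _ => Finset.sum_comm, Finset.sum_comm]
    refine Finset.sum_eq_zero fun c _ => ?_
    simp only [← Finset.mul_sum]
    rw [sym_zero C.i2 C.ii fun a b => hs a c b, mul_zero]
  simp only [(h _).gam, Finset.mul_sum, h1, Finset.sum_sub_distrib, h2, sub_zero]
  rw [Finset.sum_comm, Car.iv, Finset.mul_sum]
  simp [← Finset.sum_smul, Matrix.trace, Matrix.mul_apply]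

end Der

section Mat

variable {N : ℕ} {ρ : Type} [Fintype ρ] [DecidableEq ρ] (C : Car (Matrix ρ ρ ℤ) N)
  {R R' : Type} [CommRing R] [CommRing R']

/-- The model over the ring `R`. -/
def mat (R : Type) [CommRing R] : Car (Matrix ρ ρ R) N := C.map (Int.castRingHom R).mapMatrix

theorem mat_e (a : Fin N) (r s : ρ) : (C.mat R).e a r s = C.e a r s := rfl

theorem mat_i (a : Fin N) (r s : ρ) : (C.mat R).i a r s = C.i a r s := rfl

theorem mat_map (ψ : R →+* R') : (C.mat R).map ψ.mapMatrix = C.mat R' := by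
  simp only [mat, map, mk.injEq]
  constructor <;> ext a r s <;> simp

theorem mat_vac (ψ : R →+* R') : (C.mat R).vac.map ψ = (C.mat R').vac := by
  rw [← C.mat_map ψ, map_vac]
  rfl

theorem mat_gam (ψ : R →+* R') (M : Matrix (Fin N) (Fin N) R) :
    ((C.mat R).gam M).map ψ = (C.mat R').gam (M.map ψ) := by
  rw [← C.mat_map ψ, map_gam _ _ ψ fun r x => by ext; simp]
  rfl

/-- Entrywise action of an additive map. -/
def dm {S : Type} [CommRing S] [Algebra S R] (δ : Derivation S R R) :
    Matrix ρ ρ R →+ Matrix ρ ρ R := AddMonoidHom.mapMatrix δ.toLinearMap.toAddMonoidHom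

omit [Fintype ρ] [DecidableEq ρ] in
theorem dm_apply {S : Type} [CommRing S] [Algebra S R] (δ : Derivation S R R) (x : Matrix ρ ρ R)
    (r s : ρ) : dm δ x r s = δ (x r s) := rfl

theorem mat_isDer {S : Type} [CommRing S] [Algebra S R] (δ : Derivation S R R) :
    (C.mat R).IsDer δ (dm δ) where
  mul x y := by
    ext r s
    simp [dm_apply, Matrix.mul_apply, Finset.sum_add_distrib, mul_comm, add_comm]
  smul c x := by
    ext r s
    simp [dm_apply, mul_comm, add_comm]
  e a := by
    ext r s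
    simp [dm_apply, mat_e]
  i a := by
    ext r s
    simp [dm_apply, mat_i]

variable {C} (hC : ∀ a, C.i a = (C.e a)ᵀ)
include hC

theorem mat_et (a : Fin N) : ((C.mat R).e a)ᵀ = (C.mat R).i a := by
  ext r s
  simp [mat_e, mat_i, hC]

theorem mat_it (a : Fin N) : ((C.mat R).i a)ᵀ = (C.mat R).e a := by
  rw [← mat_et hC, Matrix.transpose_transpose]

theorem mat_eh [StarRing R] (a : Fin N) : ((C.mat R).e a)ᴴ = (C.mat R).i a := by
  ext r s
  simp [mat_e, mat_i, hC]

theorem mat_ih [StarRing R] (a : Fin N) : ((C.mat R).i a)ᴴ = (C.mat R).e a := by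
  rw [← mat_eh hC, Matrix.conjTranspose_conjTranspose]

theorem gam_t (M : Matrix (Fin N) (Fin N) R) : ((C.mat R).gam M)ᵀ = (C.mat R).gam Mᵀ :=
  (C.mat R).anti_gam (τ := (Matrix.transposeAddEquiv ρ ρ R).toAddMonoidHom) (σ := id)
    Matrix.transpose_mul Matrix.transpose_one (mat_et hC) (mat_it hC) (fun _ _ => rfl) M

theorem vac_h [StarRing R] : (C.mat R).vacᴴ = (C.mat R).vac :=
  (C.mat R).anti_vac (τ := (Matrix.conjTransposeAddEquiv ρ ρ R).toAddMonoidHom)
    Matrix.conjTranspose_mul Matrix.conjTranspose_one (mat_eh hC) (mat_ih hC)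

theorem gam_h [StarRing R] (M : Matrix (Fin N) (Fin N) R) :
    ((C.mat R).gam M)ᴴ = (C.mat R).gam Mᴴ :=
  (C.mat R).anti_gam (τ := (Matrix.conjTransposeAddEquiv ρ ρ R).toAddMonoidHom) (σ := star)
    Matrix.conjTranspose_mul Matrix.conjTranspose_one (mat_eh hC) (mat_ih hC)
    Matrix.conjTranspose_smul M

theorem gam_psd {M : Matrix (Fin N) (Fin N) ℂ} (h : M.PosSemidef) :
    ((C.mat ℂ).gam M).PosSemidef ∧ ((C.mat ℂ).gam M - (C.mat ℂ).vac).PosSemidef := by
  obtain ⟨B, rfl⟩ := CStarAlgebra.nonneg_iff_eq_star_mul_self.1 h.nonneg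
  rw [Matrix.star_eq_conjTranspose, gam_mul, ← gam_h hC]
  refine ⟨Matrix.posSemidef_conjTranspose_mul_self _, ?_⟩
  have := Matrix.posSemidef_conjTranspose_mul_self ((C.mat ℂ).gam B - (C.mat ℂ).vac)
  rwa [Matrix.conjTranspose_sub, vac_h hC, sub_mul, mul_sub, mul_sub, vac_gam, vac_vac, sub_self,
    sub_zero, gam_h hC, gam_vac, ← gam_h hC] at this

theorem gam_pd {M : Matrix (Fin N) (Fin N) ℂ} (h : M.PosDef) : ((C.mat ℂ).gam M).PosDef := by
  refine (gam_psd hC h.posSemidef).1.posDef_iff_isUnit.2 (IsUnit.of_mul_eq_one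
    ((C.mat ℂ).gam M⁻¹) ?_)
  rw [← gam_mul, Matrix.mul_nonsing_inv _ ((Matrix.isUnit_iff_isUnit_det _).1 h.isUnit), gam_one]

end Mat

end Car

/-- A graded matrix model exists. -/
theorem exists_car (N : ℕ) : ∃ (ρ : Type) (_ : Fintype ρ) (_ : DecidableEq ρ)
    (C : Car (Matrix ρ ρ ℤ) N) (d : ρ → ℕ) (r0 : ρ), (∀ a, C.i a = (C.e a)ᵀ) ∧
      (∀ a r s, C.e a r s ≠ 0 → d r = d s + 1) ∧ d r0 = 0 := by
  induction N with
  | zero =>
    exact ⟨Unit, inferInstance, inferInstance, ⟨finZeroElim, finZeroElim, finZeroElim, finZeroElim,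
      finZeroElim, finZeroElim, finZeroElim⟩, 0, (), finZeroElim, finZeroElim, rfl⟩
  | succ N ih =>
    obtain ⟨ρ, _, _, C, d, r0, h1, h2, h3⟩ := ih
    refine ⟨ρ ⊕ ρ, inferInstance, inferInstance,
      ⟨Fin.cons (Matrix.fromBlocks 0 0 1 0) fun a => Matrix.fromBlocks (C.e a) 0 0 (-C.e a),
        Fin.cons (Matrix.fromBlocks 0 1 0 0) fun a => Matrix.fromBlocks (C.i a) 0 0 (-C.i a),
        fun a => ?_, fun a => ?_, fun a b => ?_, fun a b => ?_, fun a b => ?_⟩,
      Sum.elim d fun r => d r + 1, Sum.inl r0, fun a => ?_, fun a r s => ?_, h3⟩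
    · induction a using Fin.cases <;> simp [Matrix.fromBlocks_multiply, C.e2]
    · induction a using Fin.cases <;> simp [Matrix.fromBlocks_multiply, C.i2]
    · induction a using Fin.cases <;> induction b using Fin.cases <;>
        simp [Matrix.fromBlocks_multiply, Matrix.fromBlocks_neg]
      exact C.ee _ _
    · induction a using Fin.cases <;> induction b using Fin.cases <;>
        simp [Matrix.fromBlocks_multiply, Matrix.fromBlocks_neg]
      exact C.ii _ _
    · rw [eq_sub_iff_add_eq]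
      induction a using Fin.cases <;> induction b using Fin.cases <;>
        simp [Matrix.fromBlocks_multiply, Matrix.fromBlocks_add, Fin.succ_ne_zero,
          (Fin.succ_ne_zero _).symm, C.ie]
      split_ifs <;> simp
    · induction a using Fin.cases <;> simp [Matrix.fromBlocks_transpose, h1]
    · induction a using Fin.cases <;> rcases r with r | r <;> rcases s with s | s <;>
        simp +contextual [Matrix.one_apply]
      all_goals exact h2 _ r s

/-- Two commuting families, the second one raises the degree. -/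
theorem exists_fock (N M : ℕ) : ∃ (ρ : Type) (_ : Fintype ρ) (_ : DecidableEq ρ)
    (C : Car (Matrix ρ ρ ℤ) N) (B : Car (Matrix ρ ρ ℤ) M) (d : ρ → ℕ) (r0 : ρ),
      (∀ a, C.i a = (C.e a)ᵀ) ∧ (∀ j, B.i j = (B.e j)ᵀ) ∧
      (∀ a j, Commute (B.e j) (C.e a) ∧ Commute (B.e j) (C.i a) ∧
        Commute (B.i j) (C.e a) ∧ Commute (B.i j) (C.i a)) ∧
      (∀ a r s, C.e a r s ≠ 0 → d r = d s) ∧ (∀ j r s, B.e j r s ≠ 0 → d r = d s + 1) ∧
      d r0 = 0 ∧ ∀ a s, C.e a r0 s = 0 := by
  obtain ⟨ρ, _, _, C, d, r0, h1, h2, h3⟩ := exists_car N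
  obtain ⟨ρ', _, _, B, d', r0', h1', h2', h3'⟩ := exists_car M
  let φ : Matrix ρ ρ ℤ →+* Matrix (ρ × ρ') (ρ × ρ') ℤ :=
    { toFun := fun x => x ⊗ₖ 1, map_one' := Matrix.one_kronecker_one
      map_mul' := fun x y => by rw [← Matrix.mul_kronecker_mul, one_mul]
      map_zero' := Matrix.zero_kronecker _, map_add' := fun x y => Matrix.add_kronecker _ _ _ }
  let ψ : Matrix ρ' ρ' ℤ →+* Matrix (ρ × ρ') (ρ × ρ') ℤ :=
    { toFun := fun x => 1 ⊗ₖ x, map_one' := Matrix.one_kronecker_one
      map_mul' := fun x y => by rw [← Matrix.mul_kronecker_mul, one_mul]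
      map_zero' := Matrix.kronecker_zero _, map_add' := fun x y => Matrix.kronecker_add _ _ _ }
  have hc : ∀ x y, Commute (ψ y) (φ x) := fun x y => by
    change (1 ⊗ₖ y) * (x ⊗ₖ 1) = (x ⊗ₖ 1) * (1 ⊗ₖ y)
    simp only [← Matrix.mul_kronecker_mul, one_mul, mul_one]
  refine ⟨ρ × ρ', inferInstance, inferInstance, C.map φ, B.map ψ, fun r => d' r.2, (r0, r0'),
    fun a => ?_, fun j => ?_, fun a j => ⟨hc _ _, hc _ _, hc _ _, hc _ _⟩, fun a r s h => ?_,
    fun j r s h => h2' j _ _ (right_ne_zero_of_mul h), h3', fun a s => ?_⟩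
  · ext r s
    change C.i a r.1 s.1 * (1 : Matrix ρ' ρ' ℤ) r.2 s.2 = C.e a s.1 r.1 * (1 : Matrix _ _ ℤ) s.2 r.2
    simp [h1, Matrix.one_apply, eq_comm]
  · ext r s
    change (1 : Matrix ρ ρ ℤ) r.1 s.1 * B.i j r.2 s.2 = (1 : Matrix _ _ ℤ) s.1 r.1 * B.e j s.2 r.2
    simp [h1', Matrix.one_apply, eq_comm]
  · have : (1 : Matrix ρ' ρ' ℤ) r.2 s.2 ≠ 0 := right_ne_zero_of_mul h
    by_contra hn
    exact this (Matrix.one_apply_ne fun he => hn (congrArg d' he))
  · exact mul_eq_zero_of_left (of_not_not fun h => by simpa [h3] using h2 a r0 s.1 h) _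

end Pool.Agent.SE
end

-- part Pool.Agent.P.MP_63735c_ag.SEFock3
section

/-! Further identities in the Fock algebra. -/

open scoped Matrix ContDiff

namespace Pool.Agent.SE

namespace Car

section Alg

variable {N : ℕ} {A R : Type} [Ring A] [CommRing R] [Algebra R A] (C : Car A N)

theorem ev_add (u v : Fin N → R) : C.ev (u + v) = C.ev u + C.ev v := by
  simp [ev, add_smul, Finset.sum_add_distrib]

theorem iv_add (u v : Fin N → R) : C.iv (u + v) = C.iv u + C.iv v := by
  simp [iv, add_smul, Finset.sum_add_distrib]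

theorem ev_smul (c : R) (v : Fin N → R) : C.ev (c • v) = c • C.ev v := by
  simp [ev, Finset.smul_sum, smul_smul]

theorem iv_smul (c : R) (v : Fin N → R) : C.iv (c • v) = c • C.iv v := by
  simp [iv, Finset.smul_sum, smul_smul]

theorem ev_single (a : Fin N) : C.ev (Pi.single a (1 : R)) = C.e a := by
  simp [ev, Pi.single_apply]

theorem iv_single (a : Fin N) : C.iv (Pi.single a (1 : R)) = C.i a := by
  simp [iv, Pi.single_apply]

theorem iv2 (v : Fin N → R) : C.iv v * C.iv v = 0 := by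
  simp only [iv, Finset.sum_mul_sum, smul_mul_smul_comm]
  exact sym_zero C.i2 C.ii fun a b => mul_comm _ _

theorem iv_iv (u v : Fin N → R) : C.iv u * C.iv v = -(C.iv v * C.iv u) := by
  have := C.iv2 (u + v)
  rw [iv_add, add_mul, mul_add, mul_add, iv2, iv2, zero_add, add_zero] at this
  exact eq_neg_of_add_eq_zero_left this

theorem iv_ev (u v : Fin N → R) : C.iv u * C.ev v = (u ⬝ᵥ v) • (1 : A) - C.ev v * C.iv u := by
  rw [ev, Finset.mul_sum, Finset.sum_mul, dotProduct, Finset.sum_smul, ← Finset.sum_sub_distrib]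
  simp only [mul_smul_comm, smul_mul_assoc, iv_e, smul_sub, smul_smul, mul_comm]

/-- The square of the Koszul operator. -/
theorem koszul_sq (u v : Fin N → R) :
    (C.ev v + C.iv u) * (C.ev v + C.iv u) = (u ⬝ᵥ v) • (1 : A) := by
  rw [add_mul, mul_add, mul_add, ev2, iv2, iv_ev]
  abel

theorem commute_ev {x : A} (he : ∀ a, Commute x (C.e a)) (v : Fin N → R) : Commute x (C.ev v) :=
  Commute.sum_right _ _ _ fun b _ => (he b).smul_right _

theorem commute_iv {x : A} (hi : ∀ a, Commute x (C.i a)) (v : Fin N → R) : Commute x (C.iv v) :=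
  Commute.sum_right _ _ _ fun b _ => (hi b).smul_right _

theorem par_ev (v : Fin N → R) :
    C.gam (-1 : Matrix (Fin N) (Fin N) R) * C.ev v = -(C.ev v * C.gam (-1 : Matrix _ _ R)) := by
  simp [ev, Finset.mul_sum, Finset.sum_mul, par_e]

theorem par_iv (v : Fin N → R) :
    C.gam (-1 : Matrix (Fin N) (Fin N) R) * C.iv v = -(C.iv v * C.gam (-1 : Matrix _ _ R)) := by
  simp [iv, Finset.mul_sum, Finset.sum_mul, par_i]

/-- Iterated contraction. -/
def il (l : List (Fin N → R)) : A := (l.map C.iv).prod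

theorem il_nil : C.il ([] : List (Fin N → R)) = 1 := rfl

theorem il_cons (u : Fin N → R) (l : List (Fin N → R)) : C.il (u :: l) = C.iv u * C.il l := by
  simp [il]

theorem il_append (l l' : List (Fin N → R)) : C.il (l ++ l') = C.il l * C.il l' := by
  simp [il]

theorem il_gam (M : Matrix (Fin N) (Fin N) R) : ∀ l : List (Fin N → R),
    C.il l * C.gam M = C.gam M * C.il (l.map fun u => u ᵥ* M)
  | [] => by simp [il]
  | u :: l => by
    rw [List.map_cons, il_cons, il_cons, mul_assoc, il_gam M l, ← mul_assoc, iv_gam, mul_assoc]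

theorem vac_il_gam (M : Matrix (Fin N) (Fin N) R) (l : List (Fin N → R)) :
    C.vac * C.il l * C.gam M = C.vac * C.il (l.map fun u => u ᵥ* M) := by
  rw [mul_assoc, il_gam, ← mul_assoc, vac_gam]

theorem vac_il_par : ∀ l : List (Fin N → R),
    C.vac * C.il l * C.gam (-1 : Matrix (Fin N) (Fin N) R) = (-1 : R) ^ l.length • (C.vac * C.il l) := by
  intro l
  have : ∀ l : List (Fin N → R), C.il (l.map fun u => u ᵥ* (-1 : Matrix (Fin N) (Fin N) R)) =
      (-1 : R) ^ l.length • C.il l := by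
    intro l
    induction l with
    | nil => simp
    | cons u l ih =>
      rw [List.map_cons, il_cons, il_cons, ih, Matrix.vecMul_neg, Matrix.vecMul_one,
        ← neg_one_smul R u, iv_smul, smul_mul_smul_comm, List.length_cons, pow_succ']
  rw [vac_il_gam, this, mul_smul_comm]

/-- A left ideal that contains all contractions contains `1`. -/
theorem one_mem {S : Set A} (hadd : ∀ x ∈ S, ∀ y ∈ S, x + y ∈ S) (hm : ∀ a, ∀ x ∈ S, C.e a * x ∈ S)
    (h : ∀ l : List (Fin N), C.vac * (l.map C.i).prod ∈ S) : (1 : A) ∈ S := by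
  have : ∀ l l' : List (Fin N), C.gl C.e C.vac l * (l'.map C.i).prod ∈ S := by
    intro l
    induction l with
    | nil => exact h
    | cons a l ih =>
      intro l'
      rw [gl, add_mul, mul_assoc, mul_assoc]
      exact hadd _ (ih _) _ (hm _ _ (by simpa using ih (a :: l')))
  have h1 := this (List.finRange N) []
  rwa [vac, C.gl_one (List.nodup_finRange N), List.map_nil, List.prod_nil, mul_one] at h1

end Alg

section Mat

variable {N : ℕ} {ρ : Type} [Fintype ρ] [DecidableEq ρ] {R : Type} [CommRing R]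

/-- A vector all of whose contractions vanish is zero. -/
theorem eq_zero_of_il (C : Car (Matrix ρ ρ R) N) {V : ρ → R}
    (h : ∀ l : List (Fin N), (C.vac * C.il (l.map fun a => Pi.single a (1 : R))) *ᵥ V = 0) :
    V = 0 := by
  have := C.one_mem (S := {x | x *ᵥ V = 0})
    (fun x hx y hy => by rw [Set.mem_ofPred_eq, Matrix.add_mulVec, hx, hy, add_zero])
    (fun a x hx => by rw [Set.mem_ofPred_eq, ← Matrix.mulVec_mulVec, hx, Matrix.mulVec_zero])
    fun l => by simpa [il, Function.comp_def, iv_single] using h l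
  simpa using this

variable {C : Car (Matrix ρ ρ ℤ) N} {d : ρ → ℕ}

theorem diag_e (hd : ∀ a r s, C.e a r s ≠ 0 → d r = d s) (c : ℕ → R) (a : Fin N) :
    Commute (Matrix.diagonal fun r => c (d r)) ((C.mat R).e a) := by
  ext r s
  by_cases h : C.e a r s = 0
  · simp [mat_e, h]
  · simp [hd a r s h, mul_comm]

theorem diag_i (hC : ∀ a, C.i a = (C.e a)ᵀ) (hd : ∀ a r s, C.e a r s ≠ 0 → d r = d s) (c : ℕ → R)
    (a : Fin N) : Commute (Matrix.diagonal fun r => c (d r)) ((C.mat R).i a) := by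
  ext r s
  by_cases h : C.e a s r = 0
  · simp [mat_i, hC, h]
  · simp [hd a s r h, mul_comm]

theorem diag_gam (hC : ∀ a, C.i a = (C.e a)ᵀ) (hd : ∀ a r s, C.e a r s ≠ 0 → d r = d s)
    (c : ℕ → R) (M : Matrix (Fin N) (Fin N) R) :
    Commute (Matrix.diagonal fun r => c (d r)) ((C.mat R).gam M) :=
  (C.mat R).commute_gam (diag_e hd c) (diag_i hC hd c) M

theorem diag_vac (hC : ∀ a, C.i a = (C.e a)ᵀ) (hd : ∀ a r s, C.e a r s ≠ 0 → d r = d s)
    (c : ℕ → R) : Commute (Matrix.diagonal fun r => c (d r)) (C.mat R).vac :=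
  (C.mat R).commute_vac (diag_e hd c) (diag_i hC hd c)

theorem raise_e (hd : ∀ a r s, C.e a r s ≠ 0 → d r = d s + 1) (c : ℕ → R) (a : Fin N) :
    (Matrix.diagonal fun r => c (d r)) * (C.mat R).e a =
      (C.mat R).e a * Matrix.diagonal fun r => c (d r + 1) := by
  ext r s
  by_cases h : C.e a r s = 0
  · simp [mat_e, h]
  · simp [hd a r s h, mul_comm]

theorem raise_i (hC : ∀ a, C.i a = (C.e a)ᵀ) (hd : ∀ a r s, C.e a r s ≠ 0 → d r = d s + 1)
    (c : ℕ → R) (a : Fin N) : (C.mat R).i a * (Matrix.diagonal fun r => c (d r)) =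
      (Matrix.diagonal fun r => c (d r + 1)) * (C.mat R).i a := by
  ext r s
  by_cases h : C.e a s r = 0
  · simp [mat_i, hC, h]
  · simp [hd a s r h, mul_comm]

theorem mat_commute {x y : Matrix ρ ρ ℤ} (h : Commute x y) :
    Commute ((Int.castRingHom R).mapMatrix x) ((Int.castRingHom R).mapMatrix y) := h.map _

/-- The basis vector `r0` is a vacuum vector. -/
theorem i_single (hC : ∀ a, C.i a = (C.e a)ᵀ) {r0 : ρ} (h : ∀ a s, C.e a r0 s = 0) (a : Fin N) :
    (C.mat R).i a *ᵥ Pi.single r0 1 = 0 := by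
  ext s
  simp [mat_i, hC, h]

theorem vac_mulVec (C : Car (Matrix ρ ρ R) N) {V : ρ → R} (h : ∀ a, C.i a *ᵥ V = 0) :
    C.vac *ᵥ V = V := by
  rw [vac]
  induction List.finRange N with
  | nil => simp [pl]
  | cons a l ih =>
    rw [pl_cons, ← Matrix.mulVec_mulVec, ih, ie_self, Matrix.sub_mulVec, ← Matrix.mulVec_mulVec, h,
      Matrix.mulVec_zero, sub_zero, Matrix.one_mulVec]

theorem gam_mulVec (C : Car (Matrix ρ ρ R) N) {V : ρ → R} (h : ∀ a, C.i a *ᵥ V = 0)
    (M : Matrix (Fin N) (Fin N) R) : C.gam M *ᵥ V = V := by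
  rw [← C.vac_mulVec h, Matrix.mulVec_mulVec, gam_vac]

/-- The entries of `gam` are polynomials in the entries of the matrix. -/
theorem gam_mem {X : Type} (C : Car (Matrix ρ ρ ℤ) N) (S : Subring (X → R))
    {M : X → Matrix (Fin N) (Fin N) R} (h : ∀ a b, (fun x => M x a b) ∈ S) (r s : ρ) :
    (fun x => (C.mat R).gam (M x) r s) ∈ S := by
  have : (fun x => (C.mat R).gam (M x) r s) =
      ((C.mat S).gam (Matrix.of fun a b => (⟨_, h a b⟩ : S)) r s).1 := by
    funext x
    exact (congrFun (congrFun (C.mat_gam ((Pi.evalRingHom (fun _ => R) x).comp S.subtype)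
      (Matrix.of fun a b => (⟨_, h a b⟩ : S))) r) s).symm
  rw [this]
  exact Subtype.prop _

theorem gam_contDiffOn {X : Type} [NormedAddCommGroup X] [NormedSpace ℝ X] {W : Set X}
    (C : Car (Matrix ρ ρ ℤ) N) {M : X → Matrix (Fin N) (Fin N) ℂ}
    (h : ∀ a b, ContDiffOn ℝ ∞ (fun x => M x a b) W) (r s : ρ) :
    ContDiffOn ℝ ∞ (fun x => (C.mat ℂ).gam (M x) r s) W :=
  C.gam_mem (R := ℂ)
    { carrier := {f : X → ℂ | ContDiffOn ℝ ∞ f W}
      mul_mem' := fun ha hb => ContDiffOn.mul ha hb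
      one_mem' := contDiffOn_const
      add_mem' := fun ha hb => ContDiffOn.add ha hb
      zero_mem' := contDiffOn_const
      neg_mem' := fun ha => ContDiffOn.neg ha } h r s

theorem gam_differentiableAt {𝕜 X : Type} [NontriviallyNormedField 𝕜] [NormedAlgebra 𝕜 ℂ]
    [NormedAddCommGroup X] [NormedSpace 𝕜 X] {z : X}
    (C : Car (Matrix ρ ρ ℤ) N) {M : X → Matrix (Fin N) (Fin N) ℂ}
    (h : ∀ a b, DifferentiableAt 𝕜 (fun x => M x a b) z) (r s : ρ) :
    DifferentiableAt 𝕜 (fun x => (C.mat ℂ).gam (M x) r s) z :=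
  C.gam_mem (R := ℂ)
    { carrier := {f : X → ℂ | DifferentiableAt 𝕜 f z}
      mul_mem' := fun ha hb => DifferentiableAt.mul ha hb
      one_mem' := differentiableAt_const _
      add_mem' := fun ha hb => DifferentiableAt.add ha hb
      zero_mem' := differentiableAt_const _
      neg_mem' := fun ha => DifferentiableAt.neg ha } h r s

end Mat

end Car

end Pool.Agent.SE
end
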