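import Pool.Agent.K.MP_63735c_ag.C13
import Pool.Agent.K.MP_63735c_ag.C9

/-! The twisted Bochner-Kodaira inequality for exact fields. -/

open scoped ComplexOrder ContDiff Matrix Topology ENNReal
open Set Metric MeasureTheory Filter TopologicalSpace

namespace Pool.Agent.AB

open Pool.Agent.SPF

namespace BKa

variable {N : ℕ}

/-- The term `∑ T^j_k conj T^k_j`. -/
noncomputable def bkT (V : E N → E N) (z : E N) : ℂ :=
  ∑ j, ∑ k, dzb k (fun x => V x j) z * star (dzb j (fun x => V x k) z)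

theorem bk_alg {R : Type} [CommRing R] [Algebra ℂ R] (d b : Derivation ℂ R R)
    (hc : ∀ f, b (d f) = d (b f)) (τ e ψ v u : R) (hd : d e = -(d ψ * e))
    (hb : b e = -(b ψ * e)) :
    b (τ * ((d v - d ψ * v) * e * u) + d τ * (v * u * e)) - d (τ * (u * e * b v)) =
      (τ * ((d v - d ψ * v) * (b u - b ψ * u)) + v * (d (b τ) * u) +
        (v * d τ * (b u - b ψ * u) + u * b τ * (d v - d ψ * v))) * e -
        τ * (v * (d (b ψ) * u)) * e - τ * (b v * d u) * e := by
  simp only [map_add, map_sub, Derivation.leibniz, smul_eq_mul, hc, hd, hb]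
  ring

section
variable {O : Opens (E N)} {K : Set (E N)}

/-- Vanishing off `K`. -/
def Van (K : Set (E N)) (a : Sm O) : Prop := ∀ x : O, x.1 ∉ K → Sm.ev x a = 0

theorem Van.mul {a : Sm O} (h : Van K a) (b : Sm O) : Van K (a * b) := fun x hx => by
  rw [map_mul, h x hx, zero_mul]

theorem Van.mul' {a : Sm O} (h : Van K a) (b : Sm O) : Van K (b * a) := mul_comm a b ▸ h.mul b

theorem Van.add {a b : Sm O} (h : Van K a) (h' : Van K b) : Van K (a + b) := fun x hx => by
  rw [map_add, h x hx, h' x hx, add_zero]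

theorem Van.sum {ι : Type} (s : Finset ι) {a : ι → Sm O} (h : ∀ i, Van K (a i)) :
    Van K (∑ i ∈ s, a i) := fun x hx => by
  rw [map_sum]; exact Finset.sum_eq_zero fun i _ => h i x hx

theorem Van.fn {a : Sm O} (h : Van K a) {x : E N} (hx : x ∉ K) : a.fn x = 0 := by
  by_cases ho : x ∈ O
  · rw [a.fn_apply ho]; exact h ⟨x, ho⟩ hx
  · exact Function.extend_apply' _ _ _ fun ⟨y, hy⟩ => ho (hy ▸ y.2)

theorem Van.ev {a : Sm O} (h : Van K a) (hK : IsCompact K) {x : E N} (hx : x ∉ K) :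
    a.fn =ᶠ[𝓝 x] fun _ => 0 := by
  filter_upwards [hK.isClosed.isOpen_compl.mem_nhds hx] with y hy using h.fn hy

theorem Van.der {a : Sm O} (h : Van K a) (hK : IsCompact K) (v : E N) : Van K (Sm.der v a) :=
  fun x hx => by rw [Sm.ev_der, (h.ev hK hx).fderiv_eq]; simp

theorem Van.d {a : Sm O} (h : Van K a) (hK : IsCompact K) (i : Fin N) :
    Van K (Sm.d i a) ∧ Van K (Sm.db i a) :=
  ⟨fun x hx => by simp [Sm.d, h.der hK _ x hx], fun x hx => by simp [Sm.db, h.der hK _ x hx]⟩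

theorem Van.smooth {a : Sm O} (h : Van K a) (hK : IsCompact K) (hs : K ⊆ O) :
    ContDiff ℝ ∞ a.fn ∧ HasCompactSupport a.fn := by
  refine ⟨contDiff_iff_contDiffAt.2 fun x => ?_, HasCompactSupport.intro hK fun x hx => h.fn hx⟩
  by_cases hx : x ∈ K
  · exact a.smooth.contDiffAt (O.isOpen.mem_nhds (hs hx))
  · exact contDiffAt_const.congr_of_eventuallyEq (h.ev hK hx)

theorem Van.integrable {a : Sm O} (h : Van K a) (hK : IsCompact K) (hs : K ⊆ O) :
    Integrable a.fn :=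
  (h.smooth hK hs).1.continuous.integrable_of_hasCompactSupport (h.smooth hK hs).2

theorem fn_eq {a : Sm O} {f : E N → ℂ} (h : a.Rep f) (h0 : ∀ x, x ∉ O → f x = 0) : a.fn = f := by
  funext x
  by_cases ho : x ∈ O
  · rw [a.fn_apply ho]; exact h ⟨x, ho⟩
  · rw [h0 x ho]; exact Function.extend_apply' _ _ _ fun ⟨y, hy⟩ => ho (hy ▸ y.2)

theorem fn_out (a : Sm O) {x : E N} (ho : x ∉ O) : a.fn x = 0 :=
  Function.extend_apply' _ _ _ fun ⟨y, hy⟩ => ho (hy ▸ y.2)

/-- Compactly supported elements with integral zero. -/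
noncomputable def Zero (hK : IsCompact K) (hs : K ⊆ O) : Submodule ℂ (Sm O) where
  carrier := {a | Van K a ∧ ∫ x, a.fn x = 0}
  zero_mem' := ⟨fun x _ => map_zero _, by
    rw [fn_eq (f := fun _ => 0) (fun x => map_zero _) fun _ _ => rfl]; simp⟩
  add_mem' := fun {a b} ha hb => ⟨ha.1.add hb.1, by
    rw [fn_eq (f := fun x => a.fn x + b.fn x) (fun x => by simp [Sm.ev_eq a, Sm.ev_eq b])
      fun x hx => by simp [fn_out _ hx],
      integral_add (ha.1.integrable hK hs) (hb.1.integrable hK hs), ha.2, hb.2, add_zero]⟩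
  smul_mem' := fun c a ha => ⟨fun x hx => by rw [map_smul, ha.1 x hx, smul_zero], by
    rw [fn_eq (f := fun x => c * a.fn x) (fun x => by simp [Sm.ev_eq a])
      fun x hx => by simp [fn_out _ hx], integral_const_mul, ha.2, mul_zero]⟩

theorem Van.der_zero {a : Sm O} (h : Van K a) (hK : IsCompact K) (hs : K ⊆ O) (v : E N) :
    Sm.der v a ∈ Zero hK hs := by
  refine ⟨h.der hK v, ?_⟩
  obtain ⟨h1, h2⟩ := h.smooth hK hs
  have e : (Sm.der v a).fn = fun x => fderiv ℝ a.fn x v := fn_eq (a.rep_fn.der v) fun x hx => by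
    rw [(h.ev hK fun hx' => hx (hs hx')).fderiv_eq]; simp
  have i := (h.der hK v).integrable hK hs
  rw [e] at i ⊢
  have := integral_mul_fderiv_eq_neg_fderiv_mul_of_integrable (μ := volume)
    (f := fun _ : E N => (1 : ℂ)) (g := a.fn) (v := v) (by simp) (by simpa using i)
    (by simpa using h.integrable hK hs) (fun _ _ => differentiableAt_const _)
    (fun x _ => h1.differentiable (by simp) x)
  simpa using this

theorem Van.d_zero {a : Sm O} (h : Van K a) (hK : IsCompact K) (hs : K ⊆ O) (i : Fin N) :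
    Sm.d i a ∈ Zero hK hs ∧ Sm.db i a ∈ Zero hK hs := by
  have z := h.der_zero hK hs
  exact ⟨Submodule.smul_mem _ _ (Submodule.sub_mem _ (z _) (Submodule.smul_mem _ _ (z _))),
    Submodule.smul_mem _ _ (Submodule.add_mem _ (z _) (Submodule.smul_mem _ _ (z _)))⟩

theorem Van.re {a : Sm O} (h : Van K a) (hK : IsCompact K) (hs : K ⊆ O) {f : E N → ℝ}
    (hf : ∀ x : O, (Sm.ev x a).re = f x) :
    IntegrableOn f O ∧ ∫ x in (O : Set (E N)), f x = (∫ x, a.fn x).re := by
  have i := h.integrable hK hs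
  have e : EqOn (fun x => (a.fn x).re) f O := fun x hx => by
    simp only [a.fn_apply hx]; exact hf ⟨x, hx⟩
  refine ⟨(i.re.integrableOn).congr_fun e O.isOpen.measurableSet, ?_⟩
  rw [← setIntegral_congr_fun O.isOpen.measurableSet e,
    setIntegral_eq_integral_of_forall_compl_eq_zero fun x hx => by simp [fn_out a hx]]
  exact integral_re i

/-- A real smooth function as an element. -/
noncomputable def mkR (f : E N → ℝ) (hf : ContDiffOn ℝ ∞ f O) : Sm O :=
  Sm.mk (fun x => (f x : ℂ)) (Complex.ofRealCLM.contDiff.comp_contDiffOn hf)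

theorem rep_mkR (f : E N → ℝ) (hf : ContDiffOn ℝ ∞ f O) :
    (mkR f hf).Rep fun x => (f x : ℂ) := fun _ => rfl

theorem star_mkR (f : E N → ℝ) (hf : ContDiffOn ℝ ∞ f O) : star (mkR f hf) = mkR f hf := by
  ext x; simp [mkR]

theorem star_db (i : Fin N) (a : Sm O) : star (Sm.db i a) = Sm.d i (star a) := by
  rw [← star_star a, ← Sm.star_d, star_star, star_star]

theorem rep_lev (f : E N → ℝ) (hf : ContDiffOn ℝ ∞ f O) (a b : Fin N) :
    (Sm.d a (Sm.db b (mkR f hf))).Rep fun z => lev f z a b := by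
  have h : (Sm.db b (mkR f hf)).Rep fun y => star (dz b (fun x => (f x : ℂ)) y) := fun x => by
    rw [← star_mkR, ← Sm.star_d, Sm.ev_star, (rep_mkR f hf).d b x]
  exact h.d a

theorem der_exp (f : E N → ℝ) (hf : ContDiffOn ℝ ∞ f O) (v : E N) :
    Sm.der v (mkR (fun x => Real.exp (-f x)) hf.neg.exp) =
      -(Sm.der v (mkR f hf) * mkR (fun x => Real.exp (-f x)) hf.neg.exp) := by
  ext x
  have h1 := (mkR f hf).hasF x
  have h2 := Sm.Rep.fderiv_eq (a := mkR (fun x => Real.exp (-f x)) hf.neg.exp)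
    (f := fun y => Complex.exp (-(mkR f hf).fn y))
    (fun y => by simp [mkR, ← Sm.ev_eq]) x h1.neg.cexp
  rw [Sm.ev_der, h2, map_neg, map_mul, Sm.ev_der]
  simp [mkR, ← Sm.ev_eq, mul_comm]

end

/-- The twisted Bochner identity. -/
theorem main {W K : Set (E N)} (hW : IsOpen W) (hK : IsCompact K) (hs : K ⊆ W) {Ps τ : E N → ℝ}
    (hPs : ContDiffOn ℝ ∞ Ps W) (hτ : ContDiffOn ℝ ∞ τ W) (h0 : ∀ z ∈ W, z ∉ K → τ z = 0)
    {V : E N → E N} (hV : ContDiffOn ℝ ∞ V W) :
    IntegrableOn (fun z => τ z * (V z ⬝ᵥ lev Ps z *ᵥ star (V z)).re * Real.exp (-Ps z)) W ∧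
    IntegrableOn (fun z => (τ z * ‖dlt Ps V z‖ ^ 2 + (V z ⬝ᵥ lev τ z *ᵥ star (V z)).re +
      2 * ((V z ⬝ᵥ dr τ z) * star (dlt Ps V z)).re) * Real.exp (-Ps z)) W ∧
    IntegrableOn (fun z => τ z * (bkT V z).re * Real.exp (-Ps z)) W ∧
    ∫ z in W, τ z * (V z ⬝ᵥ lev Ps z *ᵥ star (V z)).re * Real.exp (-Ps z) =
      (∫ z in W, (τ z * ‖dlt Ps V z‖ ^ 2 + (V z ⬝ᵥ lev τ z *ᵥ star (V z)).re +
        2 * ((V z ⬝ᵥ dr τ z) * star (dlt Ps V z)).re) * Real.exp (-Ps z)) -
      ∫ z in W, τ z * (bkT V z).re * Real.exp (-Ps z) := by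
  let O : Opens (E N) := ⟨W, hW⟩
  have hs' : K ⊆ O := hs
  set t : Sm O := mkR τ hτ with ht
  set ψ : Sm O := mkR Ps hPs with hψ
  set e : Sm O := mkR (fun x => Real.exp (-Ps x)) hPs.neg.exp with he
  let v : Fin N → Sm O := fun j => Sm.mk (fun x => V x j) (contDiffOn_pi.1 hV j)
  have rv : ∀ j, (v j).Rep fun x => V x j := fun _ _ => rfl
  have vt : Van K t := fun x hx => by simp [ht, mkR, h0 x x.2 hx]
  have hd : ∀ j, Sm.d j e = -(Sm.d j ψ * e) := fun j => by
    ext x; simp [Sm.d, he, hψ, der_exp (O := O) Ps hPs]; ring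
  have hb : ∀ j, Sm.db j e = -(Sm.db j ψ * e) := fun j => by
    ext x; simp [Sm.db, he, hψ, der_exp (O := O) Ps hPs]; ring
  set D : Sm O := ∑ j, (Sm.d j (v j) - Sm.d j ψ * v j) with hD
  set A : Sm O := ∑ j, v j * Sm.d j t with hA
  have sD : star D = ∑ k, (Sm.db k (star (v k)) - Sm.db k ψ * star (v k)) := by
    simp only [hD, star_sum, star_sub, star_mul', Sm.star_d, hψ, star_mkR]
  have sA : star A = ∑ k, star (v k) * Sm.db k t := by
    simp only [hA, star_sum, star_mul', Sm.star_d, ht, star_mkR]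
  set F1 : Sm O := t * (∑ j, v j * ∑ k, Sm.d j (Sm.db k ψ) * star (v k)) * e with h1
  set F2 : Sm O := (t * (D * star D) + (∑ j, v j * ∑ k, Sm.d j (Sm.db k t) * star (v k)) +
    (A * star D + star A * D)) * e with h2
  set F3 : Sm O := t * (∑ j, ∑ k, Sm.db k (v j) * star (Sm.db j (v k))) * e with h3
  have vA : Van K A := Van.sum _ fun j => (vt.d hK j).1.mul' _
  have vA' : Van K (star A) := sA ▸ Van.sum _ fun j => (vt.d hK j).2.mul' _
  have v1 : Van K F1 := (vt.mul _).mul _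
  have v2 : Van K F2 := (((vt.mul _).add (Van.sum _ fun j => (Van.sum _ fun k =>
    ((vt.d hK k).2.d hK j).1.mul _).mul' _)).add ((vA.mul _).add (vA'.mul _))).mul _
  have v3 : Van K F3 := (vt.mul _).mul _
  have z : F2 - F1 - F3 ∈ Zero hK hs' := by
    have : F2 - F1 - F3 = ∑ j, ∑ k, (Sm.db k (t * ((Sm.d j (v j) - Sm.d j ψ * v j) * e *
        star (v k)) + Sm.d j t * (v j * star (v k) * e)) -
        Sm.d j (t * (star (v k) * e * Sm.db k (v j)))) := by
      simp only [fun j k => bk_alg (Sm.d j) (Sm.db k) (fun f => (Sm.d_db j k f).symm) t e ψ (v j)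
        (star (v k)) (hd j) (hb k)]
      have x : star A * D = ∑ j, ∑ k, star (v k) * Sm.db k t * (Sm.d j (v j) - Sm.d j ψ * v j) := by
        rw [sA, hD, Finset.sum_mul_sum, Finset.sum_comm]
      rw [h1, h2, h3, x, sD, hD, hA, Finset.sum_mul_sum, Finset.sum_mul_sum]
      simp only [star_db, Finset.mul_sum, Finset.sum_mul, add_mul, ← Finset.sum_add_distrib,
        ← Finset.sum_sub_distrib]
    rw [this]
    exact Submodule.sum_mem _ fun j _ => Submodule.sum_mem _ fun k _ => Submodule.sub_mem _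
      (((vt.mul _).add ((vt.d hK j).1.mul _)).d_zero hK hs' k).2 ((vt.mul _).d_zero hK hs' j).1
  have eD : ∀ x : O, Sm.ev x D = dlt Ps V x := fun x => by
    simp only [hD, dlt, dr, map_sum, map_sub, map_mul, (rv _).d _ x, (rep_mkR Ps hPs).d _ x, hψ,
      rv _ x]
  have eA : ∀ x : O, Sm.ev x A = V x ⬝ᵥ dr τ x := fun x => by
    simp only [hA, dotProduct, dr, map_sum, map_mul, (rep_mkR τ hτ).d _ x, ht, rv _ x]
  have eL : ∀ (f : E N → ℝ) (hf : ContDiffOn ℝ ∞ f O) (x : O),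
      Sm.ev x (∑ j, v j * ∑ k, Sm.d j (Sm.db k (mkR f hf)) * star (v k)) =
        V x ⬝ᵥ lev f x *ᵥ star (V x) := fun f hf x => by
    simp only [map_sum, map_mul, Sm.ev_star, rv _ x, rep_lev f hf _ _ x, dotProduct, Matrix.mulVec,
      Pi.star_apply]
  have et : ∀ x : O, Sm.ev x t = (τ x : ℂ) := fun _ => rfl
  have ee : ∀ x : O, Sm.ev x e = (Real.exp (-Ps x) : ℂ) := fun _ => rfl
  obtain ⟨i1, j1⟩ := v1.re hK hs' (f := fun z =>
      τ z * (V z ⬝ᵥ lev Ps z *ᵥ star (V z)).re * Real.exp (-Ps z)) fun x => by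
    rw [h1, map_mul, map_mul, et, ee, hψ, eL, Complex.re_mul_ofReal, Complex.re_ofReal_mul]
  obtain ⟨i2, j2⟩ := v2.re hK hs' (f := fun z => (τ z * ‖dlt Ps V z‖ ^ 2 +
      (V z ⬝ᵥ lev τ z *ᵥ star (V z)).re + 2 * ((V z ⬝ᵥ dr τ z) * star (dlt Ps V z)).re) *
      Real.exp (-Ps z)) fun x => by
    rw [h2, map_mul, ee, Complex.re_mul_ofReal, map_add, map_add, map_add, ht, eL, ← ht]
    simp only [map_mul, Sm.ev_star, eD, eA, et, Complex.add_re, Complex.re_ofReal_mul]
    rw [Complex.sq_norm, Complex.normSq_apply]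
    simp only [Complex.mul_re, Complex.star_def, Complex.conj_re, Complex.conj_im]
    ring
  obtain ⟨i3, j3⟩ := v3.re hK hs' (f := fun z => τ z * (bkT V z).re * Real.exp (-Ps z))
    fun x => by
      rw [h3, map_mul, map_mul, et, ee, Complex.re_mul_ofReal, Complex.re_ofReal_mul]
      simp only [bkT, map_sum, map_mul, Sm.ev_star, (rv _).db _ x]
  refine ⟨i1, i2, i3, ?_⟩
  have k := z.2
  rw [fn_eq (f := fun x => F2.fn x - F1.fn x - F3.fn x)
    (fun x => by simp only [map_sub, Sm.ev_eq]) fun x hx => by simp [fn_out _ hx],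
    integral_sub (f := fun x => F2.fn x - F1.fn x)
      ((v2.integrable hK hs').sub (v1.integrable hK hs')) (v3.integrable hK hs'),
    integral_sub (v2.integrable hK hs') (v1.integrable hK hs')] at k
  have k' := congrArg Complex.re k
  simp only [Complex.sub_re, Complex.zero_re, ← j1, ← j2, ← j3] at k'
  exact (sub_eq_zero.1 ((sub_right_comm _ _ _).symm.trans k')).symm

/-- Symmetry for a gradient field of a Kaehler metric. -/
theorem symm {W : Set (E N)} (hW : IsOpen W) {H : E N → Matrix (Fin N) (Fin N) ℂ}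
    (hH : ∀ a b, ContDiffOn ℝ ∞ (fun z => H z a b) W) (hp : ∀ z ∈ W, (H z).PosDef)
    (hc : ∀ z ∈ W, ∀ a b c, dz c (fun y => H y a b) z = dz a (fun y => H y c b) z)
    {w : E N → ℂ} (hw : ContDiffOn ℝ ∞ w W) {V : E N → E N} (hV : ContDiffOn ℝ ∞ V W)
    (hg : ∀ z ∈ W, V z ᵥ* H z = fun j => dzb j w z) {z : E N} (hz : z ∈ W) :
    ((H z)ᵀ * Matrix.of fun j k => dzb k (fun y => V y j) z)ᵀ =
      (H z)ᵀ * Matrix.of fun j k => dzb k (fun y => V y j) z := by
  let O : Opens (E N) := ⟨W, hW⟩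
  let v : Fin N → Sm O := fun j => Sm.mk (fun x => V x j) (contDiffOn_pi.1 hV j)
  let h : Fin N → Fin N → Sm O := fun a b => Sm.mk (fun x => H x a b) (hH a b)
  let u : Sm O := Sm.mk w hw
  have rv : ∀ j, (v j).Rep fun x => V x j := fun _ _ => rfl
  have rh : ∀ a b, (h a b).Rep fun x => H x a b := fun _ _ _ => rfl
  have ru : u.Rep w := fun _ => rfl
  have herm : ∀ a b, star (h a b) = h b a := fun a b => by
    ext x; rw [Sm.ev_star, rh, rh]; exact (hp x x.2).isHermitian.apply b a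
  have c1 : ∀ a b c, Sm.d c (h a b) = Sm.d a (h c b) := fun a b c => by
    ext x; rw [(rh a b).d, (rh c b).d]; exact hc x x.2 a b c
  have c2 : ∀ a b c, Sm.db c (h a b) = Sm.db b (h a c) := fun a b c => by
    rw [← herm b a, ← herm c a, ← Sm.star_d, ← Sm.star_d, c1]
  have g : ∀ j, ∑ k, h k j * v k = Sm.db j u := fun j => by
    ext x
    rw [ru.db, ← congrFun (hg x x.2) j]
    simp only [map_sum, map_mul, rh _ _ x, rv _ x, Matrix.vecMul, dotProduct, mul_comm]
  have bb : ∀ i j, Sm.db i (Sm.db j u) = Sm.db j (Sm.db i u) := fun i j => by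
    rw [← star_star u, ← Sm.star_d, ← Sm.star_d, ← Sm.star_d, ← Sm.star_d, Sm.d_d]
  have sy : ∀ j l, ∑ k, h k j * Sm.db l (v k) = ∑ k, h k l * Sm.db j (v k) := fun j l => by
    have a := bb l j
    rw [← g, ← g] at a
    simp only [map_sum, Derivation.leibniz, smul_eq_mul, Finset.sum_add_distrib,
      fun k => c2 k j l] at a
    exact add_right_cancel a
  ext j l
  have := congrArg (Sm.ev (⟨z, hz⟩ : O)) (sy l j)
  simpa only [map_sum, map_mul, rh _ _ _, (rv _).db _ _, Matrix.transpose_apply, Matrix.mul_apply,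
    Matrix.of_apply] using this

end BKa

variable {N : ℕ} {W : Set (E N)} {Ψ τ : E N → ℝ} {K : E N → Mat N}

/-- The identity for a smooth field. -/
theorem bk_id {V : E N → E N} (hW : IsOpen W) (hΨ : ContDiffOn ℝ ∞ Ψ W) (hτ : Tst W τ)
    (hV : ContDiffOn ℝ ∞ V W) :
    ∫ z in W, wt Ψ z * qd Ψ τ V (dlt Ψ V) z = ∫ z in W, wt Ψ z * (τ z *
      (∑ j, ∑ k, dzb k (fun y => V y j) z * star (dzb j (fun y => V y k) z)).re) := by
  obtain ⟨i1, i2, -, e⟩ := BKa.main hW hτ.cpt hτ.sub hΨ hτ.smooth.contDiffOn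
    (fun z _ hz => image_eq_zero_of_notMem_tsupport hz) hV
  have e1 : ∫ z in W, wt Ψ z * qd Ψ τ V (dlt Ψ V) z = _ - _ :=
    (integral_congr_ae (Eventually.of_forall fun z => by simp only [wt, qd, hq]; ring)).trans
      (integral_sub i2 i1)
  rw [e1, e, sub_sub_cancel]
  exact integral_congr_ae (Eventually.of_forall fun z => by simp only [wt, BKa.bkT]; ring)

/-- The symmetry that comes from the Kähler condition. -/
theorem grad_symm {w : E N → ℂ} (hW : IsOpen W) (hK : Kah W K) (hw : ContDiffOn ℝ ∞ w W) {z : E N}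
    (hz : z ∈ W) : ((K z)ᵀ * Matrix.of fun j k => dzb k (fun y => grad K w y j) z)ᵀ =
      (K z)ᵀ * Matrix.of fun j k => dzb k (fun y => grad K w y j) z :=
  BKa.symm hW hK.smooth hK.pos hK.closed hw (grad_smooth hW hK hw) (fun y hy => by
    rw [grad, Matrix.vecMul_vecMul, Matrix.nonsing_inv_mul _
      ((Matrix.isUnit_iff_isUnit_det _).1 (hK.pos y hy).isUnit), Matrix.vecMul_one]
    rfl) hz

theorem bk {w : E N → ℂ} (hW : IsOpen W) (hΨ : ContDiffOn ℝ ∞ Ψ W) (hK : Kah W K) (hτ : Tst W τ)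
    (h0 : ∀ z, 0 ≤ τ z) (hw : ContDiffOn ℝ ∞ w W) :
    0 ≤ ∫ z in W, wt Ψ z * qd Ψ τ (grad K w) (dlt Ψ (grad K w)) z := by
  rw [bk_id hW hΨ hτ (grad_smooth hW hK hw)]
  refine setIntegral_nonneg hW.measurableSet fun z hz => ?_
  exact mul_nonneg (wt_pos Ψ z).le
    (mul_nonneg (h0 z) (tr_nonneg (hK.pos z hz) (grad_symm hW hK hw hz)))

end Pool.Agent.AB
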