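import Pool.Agent.K.MP_63735c_ag.C170
import Pool.Agent.K.MP_63735c_ag.C21
import Pool.Agent.K.MP_63735c_ag.C13
import Pool.Agent.K.MP_63735c_ag.C169
import Pool.Agent.K.MP_63735c_ag.C10
import Pool.Agent.K.MP_63735c_ag.C25
import Pool.Agent.K.MP_63735c_ag.C14

-- part Pool.Agent.P.MP_63735c_ag.SEOp
section

/-! Calculus for vector valued functions and first order operators. -/

open scoped ComplexOrder ContDiff Matrix Topology ENNReal InnerProductSpace
open Set Metric MeasureTheory Filter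

namespace Pool.Agent.SE

open Pool.Agent.SPF Pool.Agent.AB

variable {N : ℕ} {ρ : Type} {W C : Set (E N)} {f g : E N → ρ → ℂ} {z : E N}
  {m : E N → Matrix ρ ρ ℂ}

/-- Entrywise `dz`. -/
noncomputable def dzM (l : Fin N) (m : E N → Matrix ρ ρ ℂ) (z : E N) : Matrix ρ ρ ℂ :=
  Matrix.of fun r s => dz l (fun y => m y r s) z

/-- Entrywise `dzb`. -/
noncomputable def dbM (l : Fin N) (m : E N → Matrix ρ ρ ℂ) (z : E N) : Matrix ρ ρ ℂ :=
  Matrix.of fun r s => dzb l (fun y => m y r s) z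

theorem dzv_congr (h : f =ᶠ[𝓝 z] g) (l : Fin N) :
    dzv l f z = dzv l g z ∧ dbv l f z = dbv l g z := by
  have h1 : ∀ r, (fun y => f y r) =ᶠ[𝓝 z] fun y => g y r := fun r => h.fun_comp fun u => u r
  exact ⟨funext fun r => (dz_congr (h1 r) l).self_of_nhds,
    funext fun r => (dzb_congr (h1 r) l).self_of_nhds⟩

theorem SmM.dzM (hW : IsOpen W) (hm : SmM W m) (l : Fin N) :
    SmM W (dzM l m) ∧ SmM W (dbM l m) := by
  exact ⟨fun r s => (dz_smooth hW (hm r s) l).1, fun r s => (dz_smooth hW (hm r s) l).2⟩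

theorem SmM.const (M : Matrix ρ ρ ℂ) : SmM W fun _ : E N => M := by
  exact fun _ _ => contDiffOn_const

theorem SmM.add {m' : E N → Matrix ρ ρ ℂ} (hm : SmM W m) (hm' : SmM W m') :
    SmM W fun z => m z + m' z := by
  exact fun r s => (hm r s).add (hm' r s)

theorem SmM.sub {m' : E N → Matrix ρ ρ ℂ} (hm : SmM W m) (hm' : SmM W m') :
    SmM W fun z => m z - m' z := by
  exact fun r s => (hm r s).sub (hm' r s)

theorem SmM.smul {t : E N → ℂ} (ht : ContDiffOn ℝ ∞ t W) (hm : SmM W m) :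
    SmM W fun z => t z • m z := by
  exact fun r s => ht.mul (hm r s)

theorem SmM.sum {κ : Type} (s : Finset κ) {M : κ → E N → Matrix ρ ρ ℂ}
    (hM : ∀ j ∈ s, SmM W (M j)) : SmM W fun z => ∑ j ∈ s, M j z := by
  intro r t
  simp only [Matrix.sum_apply]
  exact ContDiffOn.sum fun j hj => hM j hj r t

theorem tst_mono {F : Type} [NormedAddCommGroup F] [NormedSpace ℝ F] {r : E N → F}
    {W' : Set (E N)} (hr : Tst W r) (h : W ⊆ W') : Tst W' r := by
  exact ⟨hr.smooth, hr.cpt, hr.sub.trans h⟩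

/-- The product of a test function and a function that is smooth on `W`. -/
theorem tst_smul {F : Type} [NormedAddCommGroup F] [NormedSpace ℝ F] {τ : E N → ℝ} {r : E N → F}
    (hW : IsOpen W) (hτ : Tst W τ) (hr : ContDiffOn ℝ ∞ r W) :
    Tst W (fun y => τ y • r y) ∧ tsupport (fun y => τ y • r y) ⊆ tsupport τ := by
  have h1 : tsupport (fun y => τ y • r y) ⊆ tsupport τ := tsupport_smul_subset_left τ r
  refine ⟨⟨contDiff_iff_contDiffAt.2 fun x => ?_,
    hτ.cpt.isCompact.of_isClosed_subset (isClosed_tsupport _) h1, h1.trans hτ.sub⟩, h1⟩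
  by_cases hx : x ∈ W
  · exact hτ.smooth.contDiffAt.smul (hr.contDiffAt (hW.mem_nhds hx))
  · have h2 : x ∉ tsupport (fun y => τ y • r y) := fun h => hx (hτ.sub (h1 h))
    exact contDiffAt_const.congr_of_eventuallyEq (notMem_tsupport_iff_eventuallyEq.1 h2)

variable [Fintype ρ] {a b : Fin N → E N → Matrix ρ ρ ℂ} {c : E N → Matrix ρ ρ ℂ}

theorem tst_comp (hf : Tst W f) (r : ρ) :
    Tst W (fun y => f y r) ∧ tsupport (fun y => f y r) ⊆ tsupport f := by
  have h1 : tsupport (fun y => f y r) ⊆ tsupport f :=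
    closure_mono fun x hx h => hx (congrFun h r)
  exact ⟨⟨contDiff_pi.1 hf.smooth r,
    hf.cpt.isCompact.of_isClosed_subset (isClosed_tsupport _) h1, h1.trans hf.sub⟩, h1⟩

theorem tst_add (hf : Tst W f) (hg : Tst W g) : Tst W (fun y => f y + g y) ∧
    tsupport (fun y => f y + g y) ⊆ tsupport f ∪ tsupport g := by
  have h1 : tsupport (fun y => f y + g y) ⊆ tsupport f ∪ tsupport g := tsupport_add f g
  exact ⟨⟨hf.smooth.add hg.smooth, hf.cpt.add hg.cpt, h1.trans (union_subset hf.sub hg.sub)⟩, h1⟩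

theorem tst_const_smul (hf : Tst W f) (t : ℂ) : Tst W (fun y => t • f y) ∧
    tsupport (fun y => t • f y) ⊆ tsupport f := by
  have h1 : tsupport (fun y => t • f y) ⊆ tsupport f := tsupport_smul_subset_right (fun _ => t) f
  exact ⟨⟨hf.smooth.const_smul t,
    hf.cpt.isCompact.of_isClosed_subset (isClosed_tsupport _) h1, h1.trans hf.sub⟩, h1⟩

theorem norm_sq_le_sum (u : ρ → ℂ) : ‖u‖ ^ 2 ≤ ∑ r, ‖u r‖ ^ 2 := by
  have h0 : 0 ≤ ∑ r, ‖u r‖ ^ 2 := Finset.sum_nonneg fun r _ => sq_nonneg _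
  refine (Real.le_sqrt (norm_nonneg _) h0).1 ((pi_norm_le_iff_of_nonneg (Real.sqrt_nonneg _)).2
    fun r => Real.le_sqrt_of_sq_le ?_)
  exact Finset.single_le_sum (f := fun r => ‖u r‖ ^ 2) (fun r _ => sq_nonneg _) (Finset.mem_univ r)

theorem SmM.mul {m' : E N → Matrix ρ ρ ℂ} (hm : SmM W m) (hm' : SmM W m') :
    SmM W fun z => m z * m' z := by
  intro r s
  simp only [Matrix.mul_apply]
  exact ContDiffOn.sum fun j _ => (hm r j).mul (hm' j s)

theorem SmM.inv [DecidableEq ρ] (hm : SmM W m) (h : ∀ z ∈ W, (m z).det ≠ 0) :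
    SmM W fun z => (m z)⁻¹ := by
  have hd : ∀ A : E N → Matrix ρ ρ ℂ, SmM W A → ContDiffOn ℝ ∞ (fun z => (A z).det) W := by
    intro A hA
    simp only [Matrix.det_apply']
    exact ContDiffOn.sum fun σ _ => contDiffOn_const.mul (contDiffOn_prod fun i _ => hA _ _)
  intro a b
  have h2 : ContDiffOn ℝ ∞ (fun z => (m z).adjugate a b) W := by
    simp only [Matrix.adjugate_apply]
    refine hd _ fun c d => ?_
    simp only [Matrix.updateRow_apply]
    split_ifs
    · exact contDiffOn_const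
    · exact hm c d
  refine (((hd m hm).inv h).mul h2).congr fun z _ => ?_
  simp [Matrix.inv_def]

theorem SmM.mulVec (hm : SmM W m) (hf : ContDiffOn ℝ ∞ f W) :
    ContDiffOn ℝ ∞ (fun z => m z *ᵥ f z) W := by
  refine contDiffOn_pi.2 fun r => ?_
  simp only [Matrix.mulVec, dotProduct]
  exact ContDiffOn.sum fun s _ => (hm r s).mul (contDiffOn_pi.1 hf s)

theorem dzv_smooth (hW : IsOpen W) (hf : ContDiffOn ℝ ∞ f W) (l : Fin N) :
    ContDiffOn ℝ ∞ (dzv l f) W ∧ ContDiffOn ℝ ∞ (dbv l f) W := by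
  exact ⟨contDiffOn_pi.2 fun r => (dz_smooth hW (contDiffOn_pi.1 hf r) l).1,
    contDiffOn_pi.2 fun r => (dz_smooth hW (contDiffOn_pi.1 hf r) l).2⟩

theorem dzv_add (hf : DifferentiableAt ℝ f z) (hg : DifferentiableAt ℝ g z) (l : Fin N) :
    dzv l (fun y => f y + g y) z = dzv l f z + dzv l g z ∧
      dbv l (fun y => f y + g y) z = dbv l f z + dbv l g z := by
  have h := fun r => dz_add (differentiableAt_pi.1 hf r) (differentiableAt_pi.1 hg r) l
  exact ⟨funext fun r => (h r).1, funext fun r => (h r).2⟩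

theorem dzv_sub (hf : DifferentiableAt ℝ f z) (hg : DifferentiableAt ℝ g z) (l : Fin N) :
    dzv l (fun y => f y - g y) z = dzv l f z - dzv l g z ∧
      dbv l (fun y => f y - g y) z = dbv l f z - dbv l g z := by
  have h := fun r => dz_sub (differentiableAt_pi.1 hf r) (differentiableAt_pi.1 hg r) l
  exact ⟨funext fun r => (h r).1, funext fun r => (h r).2⟩

theorem dzv_smul {t : E N → ℂ} (ht : DifferentiableAt ℝ t z) (hf : DifferentiableAt ℝ f z)
    (l : Fin N) : dzv l (fun y => t y • f y) z = dz l t z • f z + t z • dzv l f z ∧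
      dbv l (fun y => t y • f y) z = dzb l t z • f z + t z • dbv l f z := by
  have h := fun r => dz_mul ht (differentiableAt_pi.1 hf r) l
  exact ⟨funext fun r => (h r).1, funext fun r => (h r).2⟩

theorem dzv_const_smul (hf : DifferentiableAt ℝ f z) (t : ℂ) (l : Fin N) :
    dzv l (fun y => t • f y) z = t • dzv l f z ∧ dbv l (fun y => t • f y) z = t • dbv l f z := by
  have h := dzv_smul (differentiableAt_const t) hf l
  rwa [(dz_const l t).1, (dz_const l t).2, zero_smul, zero_add, zero_add] at h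

theorem dzv_mulVec (hm : ∀ r s, DifferentiableAt ℝ (fun y => m y r s) z)
    (hf : DifferentiableAt ℝ f z) (l : Fin N) :
    dzv l (fun y => m y *ᵥ f y) z = dzM l m z *ᵥ f z + m z *ᵥ dzv l f z ∧
      dbv l (fun y => m y *ᵥ f y) z = dbM l m z *ᵥ f z + m z *ᵥ dbv l f z := by
  have h := fun r => dz_sum Finset.univ (F := fun s y => m y r s * f y s)
    (fun s _ => (hm r s).mul (differentiableAt_pi.1 hf s)) l
  have h2 := fun r s => dz_mul (hm r s) (differentiableAt_pi.1 hf s) l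
  refine ⟨funext fun r => ((h r).1.trans (Finset.sum_congr rfl fun s _ => (h2 r s).1)).trans ?_,
    funext fun r => ((h r).2.trans (Finset.sum_congr rfl fun s _ => (h2 r s).2)).trans ?_⟩
  · exact Finset.sum_add_distrib
  · exact Finset.sum_add_distrib

theorem op_congr (h : f =ᶠ[𝓝 z] g) : op a b c f z = op a b c g z := by
  simp only [op, fun l => (dzv_congr h l).1, fun l => (dzv_congr h l).2, h.self_of_nhds]

theorem op_zero (h : ∀ᶠ y in 𝓝 z, f y = 0) : op a b c f z = 0 := by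
  rw [op_congr (g := fun _ => 0) h]
  have h1 : ∀ l, dzv l (fun _ : E N => (0 : ρ → ℂ)) z = 0 := fun l =>
    funext fun _ => (dz_const l 0).1
  have h2 : ∀ l, dbv l (fun _ : E N => (0 : ρ → ℂ)) z = 0 := fun l =>
    funext fun _ => (dz_const l 0).2
  simp [op, h1, h2]

theorem op_add (hf : DifferentiableAt ℝ f z) (hg : DifferentiableAt ℝ g z) :
    op a b c (fun y => f y + g y) z = op a b c f z + op a b c g z := by
  simp only [op, fun l => (dzv_add hf hg l).1, fun l => (dzv_add hf hg l).2, Matrix.mulVec_add,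
    Finset.sum_add_distrib]
  abel

theorem op_sub (hf : DifferentiableAt ℝ f z) (hg : DifferentiableAt ℝ g z) :
    op a b c (fun y => f y - g y) z = op a b c f z - op a b c g z := by
  simp only [op, fun l => (dzv_sub hf hg l).1, fun l => (dzv_sub hf hg l).2, Matrix.mulVec_sub,
    Finset.sum_add_distrib, Finset.sum_sub_distrib]
  abel

theorem op_const_smul (hf : DifferentiableAt ℝ f z) (t : ℂ) :
    op a b c (fun y => t • f y) z = t • op a b c f z := by
  simp only [op, fun l => (dzv_const_smul hf t l).1, fun l => (dzv_const_smul hf t l).2,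
    Matrix.mulVec_smul, smul_add, Finset.smul_sum]

theorem op_smul {t : E N → ℂ} (ht : DifferentiableAt ℝ t z) (hf : DifferentiableAt ℝ f z) :
    op a b c (fun y => t y • f y) z =
      t z • op a b c f z + (∑ l, (dz l t z • a l z + dzb l t z • b l z)) *ᵥ f z := by
  simp only [op, fun l => (dzv_smul ht hf l).1, fun l => (dzv_smul ht hf l).2, Matrix.mulVec_add,
    Matrix.mulVec_smul, smul_add, Finset.smul_sum, Matrix.sum_mulVec, Matrix.add_mulVec,
    Matrix.smul_mulVec, Finset.sum_add_distrib]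
  abel

/-- The commutator with a multiplication that commutes with the symbol has order zero. -/
theorem op_mulVec (hm : ∀ r s, DifferentiableAt ℝ (fun y => m y r s) z)
    (hf : DifferentiableAt ℝ f z)
    (hc : ∀ l, a l z * m z = m z * a l z ∧ b l z * m z = m z * b l z) :
    op a b c (fun y => m y *ᵥ f y) z - m z *ᵥ op a b c f z =
      (∑ l, (a l z * dzM l m z + b l z * dbM l m z) + (c z * m z - m z * c z)) *ᵥ f z := by
  simp only [op, fun l => (dzv_mulVec hm hf l).1, fun l => (dzv_mulVec hm hf l).2,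
    Matrix.mulVec_add, Matrix.mulVec_mulVec, Matrix.mulVec_sum, Matrix.sum_mulVec,
    Matrix.add_mulVec, Matrix.sub_mulVec, fun l => (hc l).1, fun l => (hc l).2,
    Finset.sum_add_distrib]
  abel

theorem op_smooth (hW : IsOpen W) (ha : ∀ l, SmM W (a l)) (hb : ∀ l, SmM W (b l)) (hc : SmM W c)
    (hf : ContDiffOn ℝ ∞ f W) : ContDiffOn ℝ ∞ (op a b c f) W := by
  exact (ContDiffOn.sum fun l _ => ((ha l).mulVec (dzv_smooth hW hf l).1).add
    ((hb l).mulVec (dzv_smooth hW hf l).2)).add (hc.mulVec hf)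

section
variable {Z : Type} [TopologicalSpace Z] {K : Set Z} {H : Z → Matrix ρ ρ ℂ}

theorem hp_upper (hK : IsCompact K) (hc : ∀ r s, ContinuousOn (fun z => H z r s) K) :
    ∃ A : ℝ, 0 < A ∧ ∀ z ∈ K, ∀ u v, ‖H z *ᵥ u‖ ≤ A * ‖u‖ ∧ ‖hp (H z) u v‖ ≤ A * ‖u‖ * ‖v‖ := by
  obtain ⟨B, hB⟩ := hK.exists_bound_of_continuousOn (f := fun z => (fun r s => H z r s : ρ → ρ → ℂ))
    (continuousOn_pi.2 fun r => continuousOn_pi.2 fun s => hc r s)
  have hd : ∀ u v : ρ → ℂ, ‖u ⬝ᵥ v‖ ≤ (Fintype.card ρ + 1) * ‖u‖ * ‖v‖ := fun u v =>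
    calc ‖u ⬝ᵥ v‖ ≤ ∑ k, ‖u k * v k‖ := norm_sum_le _ _
      _ ≤ ∑ _k : ρ, ‖u‖ * ‖v‖ := Finset.sum_le_sum fun k _ => by
        rw [norm_mul]
        exact mul_le_mul (norm_le_pi_norm u k) (norm_le_pi_norm v k) (norm_nonneg _)
          (norm_nonneg _)
      _ ≤ _ := by
        rw [Finset.sum_const, Finset.card_univ, nsmul_eq_mul]
        nlinarith [mul_nonneg (norm_nonneg u) (norm_nonneg v)]
  obtain ⟨n, hn⟩ : ∃ n : ℝ, n = Fintype.card ρ + 1 := ⟨_, rfl⟩
  have h0 : 1 ≤ n := by rw [hn]; linarith [Nat.cast_nonneg (α := ℝ) (Fintype.card ρ)]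
  rw [← hn] at hd
  refine ⟨n * (n * (|B| + 1)), by positivity, fun z hz u v => ?_⟩
  have h1 : ∀ u, ‖H z *ᵥ u‖ ≤ n * (|B| + 1) * ‖u‖ := fun u => by
    refine (pi_norm_le_iff_of_nonneg (by positivity)).2 fun r => (hd _ u).trans ?_
    have h2 : ‖fun s => H z r s‖ ≤ |B| + 1 :=
      (norm_le_pi_norm _ r).trans ((hB z hz).trans (by linarith [le_abs_self B]))
    gcongr
  refine ⟨(h1 u).trans (mul_le_mul_of_nonneg_right
    (le_mul_of_one_le_left (by positivity) h0) (norm_nonneg _)), (hd _ _).trans ?_⟩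
  rw [norm_star]
  calc n * ‖u‖ * ‖H z *ᵥ v‖ ≤ n * ‖u‖ * (n * (|B| + 1) * ‖v‖) := by gcongr; exact h1 v
    _ = _ := by ring

theorem hp_lower (hK : IsCompact K) (hc : ∀ r s, ContinuousOn (fun z => H z r s) K)
    (h0 : ∀ z ∈ K, (H z).PosDef) :
    ∃ e : ℝ, 0 < e ∧ ∀ z ∈ K, ∀ u, e * ‖u‖ ^ 2 ≤ (hp (H z) u u).re := by
  have hf : ContinuousOn (fun p : Z × (ρ → ℂ) => (hp (H p.1) p.2 p.2).re) (K ×ˢ sphere 0 1) :=
    Complex.continuous_re.comp_continuousOn (hp_contOn
      (fun r s => (hc r s).comp continuousOn_fst fun p h => h.1) continuousOn_snd continuousOn_snd)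
  obtain ⟨e, he0, he1⟩ := (hK.prod (isCompact_sphere (0 : ρ → ℂ) 1)).exists_forall_le' hf (a := 0)
    fun p h => (Complex.pos_iff.1 ((h0 p.1 h.1).dotProduct_mulVec_pos
      (ne_zero_of_mem_unit_sphere ⟨p.2, h.2⟩))).1
  refine ⟨e, he0, fun z hz u => ?_⟩
  rcases eq_or_ne u 0 with rfl | hu
  · simp [hp]
  have h2 : ‖u‖ ≠ 0 := norm_ne_zero_iff.2 hu
  have h1 := he1 (z, ((‖u‖⁻¹ : ℝ) : ℂ) • u) ⟨hz, by
    rw [mem_sphere_zero_iff_norm, norm_smul, Complex.norm_real, norm_inv, norm_norm,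
      inv_mul_cancel₀ h2]⟩
  have h3 : ∀ (t : ℂ) (v w : ρ → ℂ), hp (H z) v (t • w) = t * hp (H z) v w := fun t v w => by
    simp [hp, Matrix.mulVec_smul]
  simp only [hp_smul_left, h3, Complex.star_def, Complex.conj_ofReal,
    Complex.re_ofReal_mul] at h1
  calc e * ‖u‖ ^ 2 ≤ ‖u‖⁻¹ * (‖u‖⁻¹ * (hp (H z) u u).re) * ‖u‖ ^ 2 := by gcongr
    _ = _ := by field_simp

end

theorem op_bound (hC : IsCompact C) (h : C ⊆ W) (ha : ∀ l, SmM W (a l)) (hb : ∀ l, SmM W (b l))
    (hc : SmM W c) : ∃ A : ℝ, 0 < A ∧ ∀ (f : E N → ρ → ℂ), ∀ z ∈ C, ∀ L : ℝ, ‖f z‖ ≤ L →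
      (∀ l, ‖dzv l f z‖ ≤ L ∧ ‖dbv l f z‖ ≤ L) → ‖op a b c f z‖ ≤ A * L := by
  have hu : ∀ m : E N → Matrix ρ ρ ℂ, SmM W m → ∃ A : ℝ, 0 < A ∧ ∀ z ∈ C, ∀ u,
      ‖m z *ᵥ u‖ ≤ A * ‖u‖ := fun m hm => by
    obtain ⟨A, h0, h1⟩ := hp_upper hC fun r s => (hm r s).continuousOn.mono h
    exact ⟨A, h0, fun z hz u => (h1 z hz u u).1⟩
  choose A hA hA' using fun l => hu _ (ha l)
  choose B hB hB' using fun l => hu _ (hb l)
  obtain ⟨D, hD, hD'⟩ := hu _ hc
  have h0 : 0 ≤ ∑ l, (A l + B l) := Finset.sum_nonneg fun l _ => (add_pos (hA l) (hB l)).le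
  refine ⟨∑ l, (A l + B l) + D, by linarith, fun f z hz L h1 h2 => ?_⟩
  rw [add_mul, Finset.sum_mul]
  refine (norm_add_le _ _).trans (add_le_add ((norm_sum_le _ _).trans
    (Finset.sum_le_sum fun l _ => (norm_add_le _ _).trans ?_))
    ((hD' z hz _).trans (mul_le_mul_of_nonneg_left h1 hD.le)))
  rw [add_mul]
  exact add_le_add ((hA' l z hz _).trans (mul_le_mul_of_nonneg_left (h2 l).1 (hA l).le))
    ((hB' l z hz _).trans (mul_le_mul_of_nonneg_left (h2 l).2 (hB l).le))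


end Pool.Agent.SE
end

-- part Pool.Agent.P.MP_63735c_ag.SENorm
section

/-! The norm of a section and integrals in charts. -/

open scoped ComplexOrder ContDiff Matrix Topology ENNReal InnerProductSpace
open Set Metric MeasureTheory Filter

namespace Pool.Agent.SE

open Pool.Agent.SPF Pool.Agent.AB

variable {N : ℕ} {ρ Y : Type} [Fintype ρ] [DecidableEq ρ] [TopologicalSpace Y] [MeasurableSpace Y]
  [CompactSpace Y] [T2Space Y] [BorelSpace Y] {B : Bun Y N ρ}
  {i : B.ι} {C : Set (E N)}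

omit [BorelSpace Y] in
theorem senorm_pu (B : Bun Y N ρ) : Nonempty (PU B) := by
  obtain ⟨m, c, τ, h1, h2, h3⟩ := Man.exists_pu (D := B.toMan) (θ := fun _ => (1 : ℝ))
    ⟨fun _ => contDiffOn_const, univ, isCompact_univ, B.cover.ge,
      fun x hx => (hx (mem_univ x)).elim⟩ fun _ => zero_le_one
  exact ⟨⟨m, c, τ, h1, h2, fun x => (h3 x).symm⟩⟩

theorem exists_PU (B : Bun Y N ρ) : Nonempty (PU B) := senorm_pu B

theorem PU.int (P : PU B) {F : Type} [NormedAddCommGroup F] [NormedSpace ℝ F]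
    [SecondCountableTopology F] {f : Y → F} (hf : B.Cc f) : ∫ x, f x ∂B.ν =
      ∑ a, ∫ z in B.W (P.c a), (P.τ a z * wt (B.Ψ (P.c a)) z) • f (B.p (P.c a) z) := by
  have e : ∀ x, f x = ∑ a, B.ext (P.c a) (P.τ a) x • f x := fun x => by
    rw [← Finset.sum_smul, P.sum, one_smul]
  have hc : ∀ a, B.Cc fun x => B.ext (P.c a) (P.τ a) x • f x := fun a =>
    (Man.ext_S (P.tst a)).cc.map₂ hf.1 (l := fun t u => t • u) continuous_smul
      fun u => zero_smul _ u
  rw [integral_congr_ae (Eventually.of_forall e),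
    integral_finsetSum _ fun a _ => (hc a).integrable B.den B.Ψ_cont]
  refine Finset.sum_congr rfl fun a _ => ?_
  rw [B.den.int_supp (B.Ψ_cont (P.c a)) fun x hx => by rw [Man.ext_out hx, zero_smul]]
  refine setIntegral_congr_fun (B.isOpen _).measurableSet fun z hz => ?_
  simp only [Man.ext_apply hz, smul_smul, mul_comm]

theorem PU.inner (P : PU B) (V V' : B.Sec) : ⟪V, V'⟫_ℂ =
    ∑ a, ∫ z in B.W (P.c a), ((P.τ a z * wt (B.Ψ (P.c a)) z : ℝ) : ℂ) *
      hp (B.H (P.c a) z) (V.v (P.c a) z) (V'.v (P.c a) z) := by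
  rw [Bun.inner_def, P.int (Bun.hG_cc V V')]
  refine Finset.sum_congr rfl fun a _ => ?_
  refine setIntegral_congr_fun (B.isOpen _).measurableSet fun z hz => ?_
  simp only [Bun.hG_chart V V' hz, Complex.real_smul]

theorem senorm_sqrt {A x y : ℝ} (hA : 0 ≤ A) (hy : 0 ≤ y) (h : x ^ 2 ≤ A * y ^ 2) :
    x ≤ √A * y :=
  (Real.le_sqrt_of_sq_le h).trans_eq (by rw [Real.sqrt_mul hA, Real.sqrt_sq hy])

omit [CompactSpace Y] [T2Space Y] [BorelSpace Y] in
theorem senorm_sq (hC : IsCompact C) (h : C ⊆ B.W i) (V : B.Sec) :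
    IntegrableOn (fun z => ‖V.v i z‖ ^ 2) C volume :=
  (((V.smooth i).continuousOn.mono h).norm.pow 2).integrableOn_compact hC

omit [CompactSpace Y] [T2Space Y] [BorelSpace Y] in
theorem senorm_cont (V : B.Sec) (i : B.ι) : ContinuousOn
    (fun z => wt (B.Ψ i) z * (hp (B.H i z) (V.v i z) (V.v i z)).re) (B.W i) :=
  (Man.abmeas_wt (B.Ψ_cont i)).mul (Complex.continuous_re.comp_continuousOn
    (hp_contOn (fun r s => (B.H_smooth i r s).continuousOn) (V.smooth i).continuousOn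
      (V.smooth i).continuousOn))

omit [CompactSpace Y] [T2Space Y] [BorelSpace Y] in
theorem senorm_up (hC : IsCompact C) (h : C ⊆ B.W i) : ∃ A : ℝ, 0 < A ∧ ∀ z ∈ C, ∀ u,
    wt (B.Ψ i) z * (hp (B.H i z) u u).re ≤ A * ‖u‖ ^ 2 := by
  obtain ⟨A, hA, h1⟩ := hp_upper hC fun r s => (B.H_smooth i r s).continuousOn.mono h
  obtain ⟨L, hL⟩ := hC.exists_bound_of_continuousOn ((Man.abmeas_wt (B.Ψ_cont i)).mono h)
  refine ⟨(|L| + 1) * A, by positivity, fun z hz u => ?_⟩
  have h2 : (hp (B.H i z) u u).re ≤ A * ‖u‖ * ‖u‖ := (Complex.re_le_norm _).trans (h1 z hz u u).2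
  have h3 : wt (B.Ψ i) z ≤ |L| + 1 := by
    linarith [le_abs_self L, le_abs_self (wt (B.Ψ i) z), show |wt (B.Ψ i) z| ≤ L from hL z hz]
  calc _ ≤ wt (B.Ψ i) z * (A * ‖u‖ * ‖u‖) := mul_le_mul_of_nonneg_left h2 (wt_pos _ _).le
    _ ≤ (|L| + 1) * (A * ‖u‖ * ‖u‖) := mul_le_mul_of_nonneg_right h3 (by positivity)
    _ = _ := by ring

omit [CompactSpace Y] [T2Space Y] in
theorem senorm_set (hC : IsCompact C) (h : C ⊆ B.W i) (V : B.Sec) :
    ∫ x in B.p i '' C, (Bun.hG V V x).re ∂B.ν =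
      ∫ z in C, wt (B.Ψ i) z * (hp (B.H i z) (V.v i z) (V.v i z)).re := by
  rw [B.den.int (B.Ψ_cont i) hC.measurableSet h]
  refine setIntegral_congr_fun hC.measurableSet fun z hz => ?_
  simp only [Bun.hG_chart V V (h hz), smul_eq_mul]

omit [CompactSpace Y] [T2Space Y] [BorelSpace Y] in
theorem senorm_off {V : B.Sec} (hV : B.Supp V i C) (V' : B.Sec) {x : Y} (hx : x ∉ B.p i '' C) :
    Bun.hG V V' x = 0 := by
  obtain ⟨⟨j, y⟩, hy, rfl⟩ := B.exists_ch x
  rw [Bun.hG_chart V V' hy, hV j y hy hx]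
  simp [hp]

theorem senorm_sum {m : ℕ} {A x : Fin m → ℝ} (hA : ∀ a, 0 < A a) (hx : ∀ a, 0 ≤ x a) :
    0 < 1 + ∑ a, A a ∧ ∑ a, A a * x a ≤ (1 + ∑ a, A a) * ∑ a, x a := by
  have h0 : 0 ≤ ∑ a, A a := Finset.sum_nonneg fun a _ => (hA a).le
  refine ⟨by linarith, ?_⟩
  rw [Finset.mul_sum]
  refine Finset.sum_le_sum fun a _ => mul_le_mul_of_nonneg_right ?_ (hx a)
  linarith [Finset.single_le_sum (fun a _ => (hA a).le) (Finset.mem_univ a)]

theorem PU.upper (P : PU B) : ∃ A : ℝ, 0 < A ∧ ∀ V : B.Sec,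
    ‖V‖ ^ 2 ≤ A * ∑ a, ∫ z in tsupport (P.τ a), ‖V.v (P.c a) z‖ ^ 2 := by
  have key : ∀ a, ∃ A : ℝ, 0 < A ∧ ∀ V : B.Sec, ∫ z in B.W (P.c a),
      (P.τ a z * wt (B.Ψ (P.c a)) z) • (Bun.hG V V (B.p (P.c a) z)).re ≤
        A * ∫ z in tsupport (P.τ a), ‖V.v (P.c a) z‖ ^ 2 := by
    intro a
    have hC : IsCompact (tsupport (P.τ a)) := (P.tst a).cpt
    have h := (P.tst a).sub
    obtain ⟨A, hA, h1⟩ := senorm_up hC h
    obtain ⟨T, hT⟩ := (P.tst a).smooth.continuous.bounded_above_of_compact_support (P.tst a).cpt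
    refine ⟨(|T| + 1) * A, by positivity, fun V => ?_⟩
    rw [int_eq_cpt (B.isOpen _) hC h fun z _ hz => by
      rw [image_eq_zero_of_notMem_tsupport hz, zero_mul, zero_smul], ← integral_const_mul,
      setIntegral_congr_fun hC.measurableSet (g := fun z => P.τ a z * (wt (B.Ψ (P.c a)) z *
        (hp (B.H (P.c a) z) (V.v (P.c a) z) (V.v (P.c a) z)).re)) fun z hz => by
          simp only [Bun.hG_chart V V (h hz), smul_eq_mul, mul_assoc]]
    refine setIntegral_mono_on (((P.tst a).smooth.continuous.continuousOn.mul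
      ((senorm_cont V _).mono h)).integrableOn_compact hC) ((senorm_sq hC h V).const_mul _)
      hC.measurableSet fun z hz => ?_
    have h3 : P.τ a z ≤ |T| + 1 := by
      linarith [le_abs_self T, le_abs_self (P.τ a z), show |P.τ a z| ≤ T from hT z]
    calc _ ≤ P.τ a z * (A * ‖V.v (P.c a) z‖ ^ 2) :=
          mul_le_mul_of_nonneg_left (h1 z hz _) (P.nonneg a z)
      _ ≤ (|T| + 1) * (A * ‖V.v (P.c a) z‖ ^ 2) := mul_le_mul_of_nonneg_right h3 (by positivity)
      _ = _ := by ring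
  choose A hA h using key
  refine ⟨1 + ∑ a, A a, (senorm_sum hA fun _ => le_rfl).1, fun V => ?_⟩
  rw [Bun.norm_sq, P.int ((Bun.hG_cc V V).map Complex.continuous_re rfl)]
  exact (Finset.sum_le_sum fun a _ => h a V).trans
    (senorm_sum hA fun a => integral_nonneg fun _ => by positivity).2

namespace Bun

theorem lower (hC : IsCompact C) (h : C ⊆ B.W i) :
    ∃ A : ℝ, 0 < A ∧ ∀ V : B.Sec, ∫ z in C, ‖V.v i z‖ ^ 2 ≤ A * ‖V‖ ^ 2 := by
  obtain ⟨e, he, h1⟩ := hp_lower hC (fun r s => (B.H_smooth i r s).continuousOn.mono h)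
    fun z hz => B.H_pos i z (h hz)
  obtain ⟨d, hd, h2⟩ := hC.exists_forall_le' ((Man.abmeas_wt (B.Ψ_cont i)).mono h)
    (a := 0) fun z _ => wt_pos _ z
  refine ⟨(d * e)⁻¹, by positivity, fun V => ?_⟩
  rw [le_inv_mul_iff₀ (by positivity), norm_sq, ← integral_const_mul]
  refine le_trans ?_ (setIntegral_le_integral (s := B.p i '' C) (hG_int V V).re
    (Eventually.of_forall (hG_nonneg V)))
  refine le_trans ?_ (senorm_set hC h V).ge
  refine setIntegral_mono_on ((senorm_sq hC h V).const_mul _)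
    (((senorm_cont V i).mono h).integrableOn_compact hC) hC.measurableSet fun z hz => ?_
  rw [mul_assoc]
  exact mul_le_mul (h2 z hz) (h1 z hz _) (by positivity) (wt_pos _ _).le

theorem inner_supp {V : B.Sec} (h : C ⊆ B.W i) (hV : B.Supp V i C) (V' : B.Sec) : ⟪V, V'⟫_ℂ =
    ∫ z in B.W i, (wt (B.Ψ i) z : ℂ) * hp (B.H i z) (V.v i z) (V'.v i z) := by
  rw [inner_def, B.den.int_supp (B.Ψ_cont i) fun x hx =>
    senorm_off hV V' fun hx' => hx (image_mono h hx')]
  refine setIntegral_congr_fun (B.isOpen _).measurableSet fun z hz => ?_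
  simp only [hG_chart V V' hz, Complex.real_smul]

theorem upper (hC : IsCompact C) (h : C ⊆ B.W i) :
    ∃ A : ℝ, 0 < A ∧ ∀ V : B.Sec, B.Supp V i C → ‖V‖ ^ 2 ≤ A * ∫ z in C, ‖V.v i z‖ ^ 2 := by
  obtain ⟨A, hA, h1⟩ := senorm_up hC h
  refine ⟨A, hA, fun V hV => ?_⟩
  rw [norm_sq, ← setIntegral_eq_integral_of_forall_compl_eq_zero (s := B.p i '' C)
    fun x hx => by rw [senorm_off hV V hx, Complex.zero_re], senorm_set hC h, ← integral_const_mul]
  exact setIntegral_mono_on (((senorm_cont V i).mono h).integrableOn_compact hC)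
    ((senorm_sq hC h V).const_mul _) hC.measurableSet fun z hz => h1 z hz _

theorem upper_sup (hC : IsCompact C) (h : C ⊆ B.W i) : ∃ A : ℝ, 0 < A ∧ ∀ (V : B.Sec) (L : ℝ),
    0 ≤ L → B.Supp V i C → (∀ z ∈ C, ‖V.v i z‖ ≤ L) → ‖V‖ ≤ A * L := by
  obtain ⟨A, hA, h1⟩ := upper hC h
  have h0 : 0 ≤ volume.real C := measureReal_nonneg
  refine ⟨√(A * (volume.real C + 1)), by positivity, fun V L hL hV hb =>
    senorm_sqrt (by positivity) hL ((h1 V hV).trans ?_)⟩
  have h2 : ∫ z in C, ‖V.v i z‖ ^ 2 ≤ ∫ _ in C, L ^ 2 :=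
    setIntegral_mono_on (senorm_sq hC h V) (continuousOn_const.integrableOn_compact hC)
      hC.measurableSet fun z hz => pow_le_pow_left₀ (norm_nonneg _) (hb z hz) 2
  rw [setIntegral_const, smul_eq_mul] at h2
  rw [mul_assoc]
  refine mul_le_mul_of_nonneg_left (h2.trans ?_) hA.le
  exact mul_le_mul_of_nonneg_right (by linarith) (sq_nonneg L)

/-- Operators of order zero are bounded. -/
theorem ord0 {U : B.Sec → B.Sec} (h : ∀ i, ∃ m : E N → Matrix ρ ρ ℂ, SmM (B.W i) m ∧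
    ∀ V, ∀ z ∈ B.W i, (U V).v i z = m z *ᵥ V.v i z) :
    ∃ A : ℝ, 0 < A ∧ ∀ V, ‖U V‖ ≤ A * ‖V‖ := by
  obtain ⟨P⟩ := exists_PU B
  obtain ⟨A, hA, h1⟩ := P.upper
  have key : ∀ a, ∃ M : ℝ, 0 < M ∧ ∀ V : B.Sec,
      ∫ z in tsupport (P.τ a), ‖(U V).v (P.c a) z‖ ^ 2 ≤ M * ‖V‖ ^ 2 := by
    intro a
    have hC : IsCompact (tsupport (P.τ a)) := (P.tst a).cpt
    have hs := (P.tst a).sub
    obtain ⟨m, m1, m2⟩ := h (P.c a)
    obtain ⟨M, hM, h2⟩ := hp_upper hC fun r s => (m1 r s).continuousOn.mono hs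
    obtain ⟨L, hL, h3⟩ := lower hC hs
    refine ⟨M ^ 2 * L, by positivity, fun V => ?_⟩
    rw [mul_assoc]
    refine le_trans ?_ (mul_le_mul_of_nonneg_left (h3 V) (sq_nonneg M))
    rw [← integral_const_mul]
    refine setIntegral_mono_on (senorm_sq hC hs _) ((senorm_sq hC hs V).const_mul _)
      hC.measurableSet fun z hz => ?_
    rw [m2 V z (hs hz), ← mul_pow]
    exact pow_le_pow_left₀ (norm_nonneg _) (h2 z hz _ 0).1 2
  choose M hM h2 using key
  have h3 : 0 < 1 + ∑ a, M a := (senorm_sum hM fun _ => le_rfl).1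
  refine ⟨√(A * (1 + ∑ a, M a)), by positivity, fun V =>
    senorm_sqrt (by positivity) (norm_nonneg _) ((h1 _).trans ?_)⟩
  rw [mul_assoc]
  refine mul_le_mul_of_nonneg_left ((Finset.sum_le_sum fun a _ => h2 a V).trans ?_) hA.le
  rw [← Finset.sum_mul]
  exact mul_le_mul_of_nonneg_right (by linarith) (sq_nonneg _)

theorem comm_bdd {D U : B.Sec →ₗ[ℂ] B.Sec} (h : ∀ i, ∃ a b c m, B.Loc D i a b c ∧ B.Loc0 U i m ∧
    ∀ l, ∀ z ∈ B.W i, a l z * m z = m z * a l z ∧ b l z * m z = m z * b l z) :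
    ∃ A : ℝ, 0 < A ∧ ∀ V, ‖D (U V) - U (D V)‖ ≤ A * ‖V‖ := by
  refine ord0 (U := fun V => D (U V) - U (D V)) fun i => ?_
  obtain ⟨a, b, c, m, hD, hU, hc⟩ := h i
  have hW := B.isOpen i
  refine ⟨fun z => ∑ l, (a l z * dzM l m z + b l z * dbM l m z) + (c z * m z - m z * c z),
    (SmM.sum _ fun l _ => ((hD.sa l).mul (hU.sm.dzM hW l).1).add
      ((hD.sb l).mul (hU.sm.dzM hW l).2)).add ((hD.sc.mul hU.sm).sub (hU.sm.mul hD.sc)),
    fun V z hz => ?_⟩
  have e : (U V).v i =ᶠ[𝓝 z] fun y => m y *ᵥ V.v i y := by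
    filter_upwards [hW.mem_nhds hz] with y hy using hU.eq V y hy
  rw [v_sub, hD.eq _ z hz, hU.eq _ z hz, hD.eq _ z hz, op_congr e]
  exact op_mulVec (fun r s => diffAt hW (hU.sm r s) hz) (diffAt hW (V.smooth i) hz)
    fun l => hc l z hz

theorem sym0 {U : B.Sec →ₗ[ℂ] B.Sec} (h : ∀ i, ∃ m, B.Loc0 U i m ∧
    ∀ z ∈ B.W i, (m z)ᴴ * B.H i z = B.H i z * m z) (V V' : B.Sec) :
    ⟪U V, V'⟫_ℂ = ⟪V, U V'⟫_ℂ := by
  rw [inner_def, inner_def]
  refine integral_congr_ae (Eventually.of_forall fun x => ?_)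
  obtain ⟨⟨i, z⟩, hz, rfl⟩ := B.exists_ch x
  obtain ⟨m, hU, hm⟩ := h i
  simp only
  rw [hG_chart _ _ hz, hG_chart _ _ hz, hU.eq _ z hz, hU.eq _ z hz, hp, hp, Matrix.star_mulVec,
    ← Matrix.dotProduct_mulVec, Matrix.mulVec_mulVec, Matrix.mulVec_mulVec, hm z hz]

omit [CompactSpace Y] [T2Space Y] [BorelSpace Y] in
/-- A compatible family of matrices acts on sections. -/
theorem exists_mul {m : B.ι → E N → Matrix ρ ρ ℂ} (hm : ∀ i, SmM (B.W i) (m i))
    (hc : ∀ i j, ∀ z ∈ B.W i, ∀ y ∈ B.W j, B.p i z = B.p j y →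
      m j y * B.G i j z = B.G i j z * m i z) :
    ∃ U : B.Sec →ₗ[ℂ] B.Sec, ∀ i, B.Loc0 U i (m i) := by
  refine ⟨B.lin (fun V i z => m i z *ᵥ V.v i z)
    (fun V => ⟨fun i => (hm i).mulVec (V.smooth i), fun i j z hz y hy e => ?_⟩)
    (fun V V' i z _ => ?_) (fun c V i z _ => ?_), fun i => ⟨hm i, fun V z hz => lin_v V hz⟩⟩
  · rw [V.fam.2 i j z hz y hy e, Matrix.mulVec_mulVec, Matrix.mulVec_mulVec, hc i j z hz y hy e]
  · rw [v_add, Matrix.mulVec_add]
  · rw [v_smul, Matrix.mulVec_smul]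

end Bun

end Pool.Agent.SE
end

-- part Pool.Agent.P.MP_63735c_ag.SEKos1
section

/-! Smooth generators of a line bundle and the Koszul matrix. -/

open scoped ComplexOrder ContDiff Matrix Topology
open Set Filter

namespace Pool.Agent.SE

open Pool.Agent.SPF Pool.Agent.AB

section
variable {ρ : Type} [Fintype ρ] [DecidableEq ρ] {m : ℕ} (B : Car (Matrix ρ ρ ℤ) m)

/-- The Koszul matrix. -/
noncomputable def kos (b c : Fin m → ℂ) : Matrix ρ ρ ℂ := (B.mat ℂ).ev b + (B.mat ℂ).iv c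

variable {B} {b c : Fin m → ℂ} {d : ρ → ℕ}

theorem kos_sq (h : c ⬝ᵥ b = 1) : kos B b c * kos B b c = 1 := by
  rw [kos, Car.koszul_sq, h, one_smul]

theorem kos_comm {x : Matrix ρ ρ ℂ} (he : ∀ j, Commute x ((B.mat ℂ).e j))
    (hi : ∀ j, Commute x ((B.mat ℂ).i j)) : Commute x (kos B b c) :=
  (Car.commute_ev _ he b).add_right (Car.commute_iv _ hi c)

theorem kos_diag (hB : ∀ j, B.i j = (B.e j)ᵀ) (hup : ∀ j r s, B.e j r s ≠ 0 → d r = d s + 1)
    {g g' : ℂ} (hg : g * g' = 1) :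
    kos B (g • b) (g' • c) * (Matrix.diagonal fun r => g ^ d r) =
      (Matrix.diagonal fun r => g ^ d r) * kos B b c := by
  have h1 : (Matrix.diagonal fun r => g ^ (d r + 1)) = g • Matrix.diagonal fun r => g ^ d r := by
    rw [← Matrix.diagonal_smul]
    congr 1
    funext r
    simp [pow_succ']
  simp only [kos, Car.ev, Car.iv, add_mul, mul_add, Finset.sum_mul, Finset.mul_sum, smul_mul_assoc,
    mul_smul_comm, Car.raise_e hup (g ^ ·), Car.raise_i hB hup (g ^ ·), h1, smul_smul,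
    Pi.smul_apply, smul_eq_mul]
  congr 1 <;> refine Finset.sum_congr rfl fun j _ => ?_
  · rw [mul_comm]
  · rw [mul_right_comm, mul_comm g', hg, one_mul]

theorem kos_smooth {N : ℕ} {W : Set (E N)} {b c : E N → Fin m → ℂ} (hb : ContDiffOn ℝ ∞ b W)
    (hc : ContDiffOn ℝ ∞ c W) : SmM W fun z => kos B (b z) (c z) :=
  (SmM.sum _ fun j _ => SmM.smul (contDiffOn_pi.1 hb j) (SmM.const _)).add
    (SmM.sum _ fun j _ => SmM.smul (contDiffOn_pi.1 hc j) (SmM.const _))

theorem mat_comm {x y : Matrix ρ ρ ℤ} (h : Commute x y) :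
    Commute ((Int.castRingHom ℂ).mapMatrix x) ((Int.castRingHom ℂ).mapMatrix y) := h.map _

end

variable {N : ℕ} {Y : Type} [TopologicalSpace Y] [T2Space Y] [CompactSpace Y] {D : Man Y N}

/-- A line bundle on a compact manifold has finitely many smooth generators. -/
theorem exists_gen (hM : D.M = univ) {g : D.ι → D.ι → Y → ℂ}
    (hol : ∀ i j, ∀ z ∈ D.W i, D.p i z ∈ D.p j '' D.W j →
      DifferentiableAt ℂ (fun w => g i j (D.p i w)) z)
    (mul : ∀ i j k x, x ∈ D.p i '' D.W i → x ∈ D.p j '' D.W j → x ∈ D.p k '' D.W k →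
      g j k x * g i j x = g i k x) (one : ∀ i, ∀ x ∈ D.p i '' D.W i, g i i x = 1) :
    ∃ (m : ℕ) (b c : D.ι → E N → Fin m → ℂ), (∀ i, ContDiffOn ℝ ∞ (b i) (D.W i)) ∧
      (∀ i, ContDiffOn ℝ ∞ (c i) (D.W i)) ∧ (∀ i, ∀ z ∈ D.W i, c i z ⬝ᵥ b i z = 1) ∧
      ∀ i j, ∀ z ∈ D.W i, ∀ y ∈ D.W j, D.p i z = D.p j y →
        b j y = g i j (D.p i z) • b i z ∧ c j y = g j i (D.p i z) • c i z := by
  obtain ⟨m, s, τ, hτ, -, h1⟩ := Man.exists_pu (D := D) (θ := fun _ => 1)
    ⟨fun _ => contDiffOn_const, univ, isCompact_univ, hM.ge, fun x hx => (hx (mem_univ x)).elim⟩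
    fun _ => zero_le_one
  let θ : Fin m → Y → ℝ := fun a => D.ext (s a) (τ a)
  have hθ (a) : D.Smo fun x => (θ a x : ℂ) := (Man.ext_S (hτ a)).ofReal.1
  have h0 (a x) (hx : x ∉ D.p (s a) '' D.W (s a)) : θ a x = 0 := Man.ext_out hx
  have hβ (x) : ∑ a, (θ a x : ℂ) * θ a x ≠ 0 := by
    have : ∑ a, θ a x * θ a x ≠ 0 := fun e => by
      rw [Finset.sum_eq_zero_iff_of_nonneg fun a _ => mul_self_nonneg _] at e
      have := h1 x
      rw [Finset.sum_eq_zero fun a ha => mul_self_eq_zero.1 (e a ha)] at this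
      exact one_ne_zero this
    exact_mod_cast this
  have hs (i j) (z) (hz : z ∈ D.W i) (hx : D.p i z ∈ D.p j '' D.W j) :
      ContDiffAt ℝ ∞ (fun w => g i j (D.p i w)) z := by
    refine smoothAt_of_hol' ?_
    filter_upwards [(D.isOpen i).mem_nhds hz,
      (Man.contAt_p hz).preimage_mem_nhds ((D.isOpen_img j).mem_nhds hx)] with w h h'
    exact hol i j w h h'
  have key (a j) (f : Y → ℂ) (hf : ∀ y ∈ D.W j, D.p j y ∈ D.p (s a) '' D.W (s a) →
      ContDiffAt ℝ ∞ (fun w => f (D.p j w)) y) :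
      ContDiffOn ℝ ∞ (fun y => f (D.p j y) * θ a (D.p j y)) (D.W j) := by
    intro y hy
    refine ContDiffAt.contDiffWithinAt ?_
    by_cases hx : D.p j y ∈ D.p (s a) '' tsupport (τ a)
    · exact (hf y hy (image_mono (hτ a).sub hx)).mul
        ((hθ a j).contDiffAt ((D.isOpen j).mem_nhds hy))
    · refine (contDiffAt_const (c := 0)).congr_of_eventuallyEq ?_
      filter_upwards [(Man.contAt_p hy).preimage_mem_nhds
        ((Man.cpt_img (hτ a).cpt (hτ a).sub).1.isClosed.isOpen_compl.mem_nhds hx)] with w hw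
      have : θ a (D.p j w) = 0 :=
        Man.ext_zero (fun z _ hz => image_eq_zero_of_notMem_tsupport hz) hw
      simp [this]
  refine ⟨m, fun j y a => g (s a) j (D.p j y) * θ a (D.p j y), fun j y a =>
    g j (s a) (D.p j y) * θ a (D.p j y) * (∑ a, (θ a (D.p j y) : ℂ) * θ a (D.p j y))⁻¹,
    fun j => contDiffOn_pi.2 fun a => key a j _ fun y hy hx => ?_,
    fun j => contDiffOn_pi.2 fun a => (key a j _ fun y hy hx => hs j _ y hy hx).mul
      ((ContDiffOn.sum fun a _ => (hθ a j).mul (hθ a j)).inv fun _ _ => hβ _),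
    fun j y hy => ?_, fun i j z hz y hy e => ⟨funext fun a => ?_, funext fun a => ?_⟩⟩
  · obtain ⟨z, hz, e⟩ := hx
    exact Man.smoAt hy hz e.symm (hs _ j z hz ⟨y, hy, e.symm⟩)
  · rw [← mul_inv_cancel₀ (hβ (D.p j y)), Finset.sum_mul]
    refine Finset.sum_congr rfl fun a _ => ?_
    by_cases hx : D.p j y ∈ D.p (s a) '' D.W (s a)
    · have := mul j (s a) j _ ⟨y, hy, rfl⟩ hx ⟨y, hy, rfl⟩
      rw [one j _ ⟨y, hy, rfl⟩] at this
      linear_combination (θ a (D.p j y) : ℂ) * θ a (D.p j y) *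
        (∑ a, (θ a (D.p j y) : ℂ) * θ a (D.p j y))⁻¹ * this
    · simp [h0 a _ hx]
  · simp only [Pi.smul_apply, smul_eq_mul, ← e]
    by_cases hx : D.p i z ∈ D.p (s a) '' D.W (s a)
    · rw [← mul (s a) i j _ hx ⟨z, hz, rfl⟩ ⟨y, hy, e.symm⟩, mul_assoc]
    · simp [h0 a _ hx]
  · simp only [Pi.smul_apply, smul_eq_mul, ← e]
    by_cases hx : D.p i z ∈ D.p (s a) '' D.W (s a)
    · rw [← mul j i (s a) _ ⟨y, hy, e.symm⟩ ⟨z, hz, rfl⟩ hx]
      ring
    · simp [h0 a _ hx]

end Pool.Agent.SE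
end

-- part Pool.Agent.P.MP_63735c_ag.SEHo
section

/-! Limits of almost holomorphic functions. -/

open scoped ComplexOrder ContDiff Matrix Topology ENNReal InnerProductSpace
open Set Metric MeasureTheory Filter

namespace Pool.Agent.SE

open Pool.Agent.SPF Pool.Agent.AB

variable {N : ℕ} {W : Set (E N)} {f : ℕ → E N → ℂ} {g g' : E N → ℂ}

/-- Convergence in the mean on `C`. -/
def L2to (f : ℕ → E N → ℂ) (g : E N → ℂ) (C : Set (E N)) : Prop :=
  Tendsto (fun k => ∫ z in C, ‖f k z - g z‖ ^ 2) atTop (𝓝 0)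

/-- Cauchy in the mean on `C`. -/
def L2c (f : ℕ → E N → ℂ) (C : Set (E N)) : Prop :=
  ∀ ε : ℝ, 0 < ε → ∃ M, ∀ k ≥ M, ∀ l ≥ M, ∫ z in C, ‖f k z - f l z‖ ^ 2 ≤ ε

section Aux

variable {α : Type} [MeasurableSpace α] {μ : Measure α}

theorem seho_nsq {h : α → ℂ} (hh : MemLp h 2 μ) : ‖hh.toLp h‖ ^ 2 = ∫ x, ‖h x‖ ^ 2 ∂μ := by
  rw [← real_inner_self_eq_norm_sq, L2.inner_def]
  refine integral_congr_ae ?_
  filter_upwards [hh.coeFn_toLp] with x hx
  rw [hx, real_inner_self_eq_norm_sq]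

theorem seho_lim {h : ℕ → α → ℂ} (hh : ∀ k, MemLp (h k) 2 μ)
    (hc : ∀ ε : ℝ, 0 < ε → ∃ M, ∀ k ≥ M, ∀ l ≥ M, ∫ x, ‖h k x - h l x‖ ^ 2 ∂μ ≤ ε) :
    ∃ F : α → ℂ, MemLp F 2 μ ∧ Tendsto (fun k => ∫ x, ‖h k x - F x‖ ^ 2 ∂μ) atTop (𝓝 0) := by
  have h1 : CauchySeq fun k => (hh k).toLp (h k) := by
    refine Metric.cauchySeq_iff.2 fun ε hε => ?_
    obtain ⟨M, hM⟩ := hc ((ε / 2) ^ 2) (by positivity)
    refine ⟨M, fun k hk l hl => ?_⟩
    have e := seho_nsq ((hh k).sub (hh l))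
    rw [MemLp.toLp_sub (hh k) (hh l)] at e
    rw [dist_eq_norm]
    have h2 : ‖(hh k).toLp (h k) - (hh l).toLp (h l)‖ ^ 2 ≤ (ε / 2) ^ 2 := e.trans_le (hM k hk l hl)
    have h3 := (pow_le_pow_iff_left₀ (norm_nonneg _) (by positivity) two_ne_zero).1 h2
    linarith
  obtain ⟨U, hU⟩ := cauchySeq_tendsto_of_complete h1
  refine ⟨U, Lp.memLp U, ?_⟩
  have h2 := (tendsto_iff_norm_sub_tendsto_zero.1 hU).pow 2
  rw [zero_pow two_ne_zero] at h2
  refine h2.congr fun k => ?_
  have e := seho_nsq ((hh k).sub (Lp.memLp U))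
  rw [MemLp.toLp_sub (hh k) (Lp.memLp U), Lp.toLp_coeFn] at e
  exact e

theorem seho_mul {h : ℕ → α → ℂ} {r : α → ℂ} (hh : ∀ k, MemLp (h k) 2 μ) (hr : MemLp r 2 μ)
    (h0 : Tendsto (fun k => ∫ x, ‖h k x‖ ^ 2 ∂μ) atTop (𝓝 0)) :
    Tendsto (fun k => ∫ x, h k x * r x ∂μ) atTop (𝓝 0) := by
  have h1 : Tendsto (fun k => (hh k).toLp (h k)) atTop (𝓝 0) := by
    rw [tendsto_zero_iff_norm_tendsto_zero]
    have h2 := h0.sqrt
    rw [Real.sqrt_zero] at h2
    refine h2.congr fun k => ?_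
    rw [← seho_nsq (hh k), Real.sqrt_sq (norm_nonneg _)]
  have h2 := (tendsto_const_nhds (x := hr.star.toLp _)).inner (𝕜 := ℂ) h1
  rw [inner_zero_right] at h2
  refine h2.congr fun k => ?_
  rw [L2.inner_def]
  refine integral_congr_ae ?_
  filter_upwards [hr.star.coeFn_toLp, (hh k).coeFn_toLp] with x h3 h4
  rw [h3, h4]
  simp

theorem seho_sub {h : ℕ → α → ℝ} {s t : Set α} (hst : s ⊆ t) (hi : ∀ k, IntegrableOn (h k) t μ)
    (hp : ∀ k x, 0 ≤ h k x) (h0 : Tendsto (fun k => ∫ x in t, h k x ∂μ) atTop (𝓝 0)) :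
    Tendsto (fun k => ∫ x in s, h k x ∂μ) atTop (𝓝 0) :=
  squeeze_zero (fun k => integral_nonneg (hp k))
    (fun k => setIntegral_mono_set (hi k) (Eventually.of_forall (hp k)) hst.eventuallyLE) h0

end Aux

theorem seho_int {C : Set (E N)} {F : Type} [NormedAddCommGroup F] {h : E N → F}
    (hC : IsCompact C) (hh : ContinuousOn h C) : IntegrableOn (fun x => ‖h x‖ ^ 2) C volume :=
  (hh.norm.pow 2).integrableOn_compact hC

theorem seho_mem {C : Set (E N)} {h : E N → ℂ} (hC : IsCompact C) (hh : ContinuousOn h C) :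
    MemLp h 2 (volume.restrict C) :=
  (memLp_two_iff_integrable_sq_norm (hh.aestronglyMeasurable hC.measurableSet)).2 (seho_int hC hh)

theorem ho_ball {z : E N} {R : ℝ} (hR : 0 < R) (hW : IsOpen W) (hs : closedBall z (2 * R) ⊆ W)
    (hf : ∀ k, ContDiffOn ℝ ∞ (f k) W) (hc : L2c f (closedBall z (2 * R)))
    (hd : Tendsto (fun k => ∫ y in closedBall z (2 * R), ‖db (f k) y‖ ^ 2) atTop (𝓝 0)) :
    ∃ g, DifferentiableOn ℂ g (ball z R) ∧ ∀ C, IsCompact C → C ⊆ ball z R → L2to f g C := by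
  have hB : IsCompact (closedBall z (2 * R)) := isCompact_closedBall _ _
  have hO : ball z (2 * R) ⊆ closedBall z (2 * R) := ball_subset_closedBall
  have hle : volume.restrict (ball z (2 * R)) ≤ volume.restrict (closedBall z (2 * R)) :=
    Measure.restrict_mono hO le_rfl
  have hm : ∀ k, MemLp (f k) 2 (volume.restrict (closedBall z (2 * R))) :=
    fun k => seho_mem hB ((hf k).continuousOn.mono hs)
  obtain ⟨F, hF, hlim⟩ := seho_lim hm hc
  have hi : ∀ k, IntegrableOn (fun x => ‖f k x - F x‖ ^ 2) (closedBall z (2 * R)) volume :=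
    fun k => (memLp_two_iff_integrable_sq_norm ((hm k).sub hF).1).1 ((hm k).sub hF)
  have : IsFiniteMeasure (volume.restrict (closedBall z (2 * R))) :=
    isFiniteMeasure_restrict.2 hB.measure_lt_top.ne
  have hF1 : IntegrableOn F (ball z (2 * R)) volume :=
    (hF.integrable one_le_two).mono_measure hle
  obtain ⟨G, hG, hGF⟩ := weyl hR hF1 fun r hr a => by
    have m1 : MemLp r 2 (volume.restrict (ball z (2 * R))) :=
      (seho_mem hB hr.smooth.continuous.continuousOn).mono_measure hle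
    have m2 : MemLp (dzb a r) 2 (volume.restrict (ball z (2 * R))) :=
      (seho_mem hB (hr.dz_tst a).2.smooth.continuous.continuousOn).mono_measure hle
    have c3 : ∀ k, ContinuousOn (dzb a (f k)) (closedBall z (2 * R)) :=
      fun k => (dz_smooth hW (hf k) a).2.continuousOn.mono hs
    have m3 : ∀ k, MemLp (dzb a (f k)) 2 (volume.restrict (ball z (2 * R))) :=
      fun k => (seho_mem hB (c3 k)).mono_measure hle
    have m4 : ∀ k, MemLp (fun x => f k x - F x) 2 (volume.restrict (ball z (2 * R))) :=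
      fun k => ((hm k).sub hF).mono_measure hle
    have t1 := seho_mul m4 m2 (seho_sub hO hi (fun _ _ => by positivity) hlim)
    have t2 := seho_mul m3 m1 (seho_sub hO (fun k => seho_int hB (c3 k)) (fun _ _ => by positivity)
      (squeeze_zero (fun k => integral_nonneg fun _ => by positivity) (fun k =>
        integral_mono (seho_int hB (c3 k))
          (seho_int hB ((db_smooth hW (hf k)).continuousOn.mono hs)) fun y =>
          pow_le_pow_left₀ (norm_nonneg _) (norm_le_pi_norm (db (f k) y) a) 2) hd))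
    have t3 := (t1.add t2).neg
    rw [add_zero, neg_zero] at t3
    refine tendsto_nhds_unique tendsto_const_nhds (t3.congr fun k => ?_)
    have hk : ContDiffOn ℝ ∞ (f k) (ball z (2 * R)) := (hf k).mono (hO.trans hs)
    have hr' : ContDiffOn ℝ ∞ r (ball z (2 * R)) := hr.smooth.contDiffOn
    have e1 := (int_dz isOpen_ball hr.cpt hr.sub (hk.mul hr')
      (fun y _ hy => by rw [image_eq_zero_of_notMem_tsupport hy, mul_zero]) a).2
    have i1 : Integrable (fun x => (f k x - F x) * dzb a r x) (volume.restrict (ball z (2 * R))) :=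
      (m4 k).integrable_mul m2
    have i2 : Integrable (fun x => dzb a (f k) x * r x) (volume.restrict (ball z (2 * R))) :=
      (m3 k).integrable_mul m1
    have i3 : Integrable (fun x => F x * dzb a r x) (volume.restrict (ball z (2 * R))) :=
      (hF.mono_measure hle).integrable_mul m2
    have i4 : Integrable (fun x => (f k x - F x) * dzb a r x + dzb a (f k) x * r x)
        (volume.restrict (ball z (2 * R))) := i1.add i2
    rw [neg_eq_iff_add_eq_zero, ← integral_add i1 i2, ← integral_add i4 i3, ← e1]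
    refine setIntegral_congr_fun measurableSet_ball fun y hy => ?_
    simp only [(dz_mul (diffAt isOpen_ball hk hy) (diffAt isOpen_ball hr' hy) a).2]
    ring
  refine ⟨G, hG, fun C hC hCs => ?_⟩
  have hCB : C ⊆ closedBall z (2 * R) :=
    hCs.trans (ball_subset_closedBall.trans (closedBall_subset_closedBall (by linarith)))
  refine (seho_sub hCB hi (fun _ _ => by positivity) hlim).congr fun k => integral_congr_ae ?_
  filter_upwards [ae_restrict_of_ae_restrict_of_subset hCs hGF] with y hy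
  rw [hy]

theorem l2_unique (hW : IsOpen W) (hf : ∀ k, ContinuousOn (f k) W) (hg : ContinuousOn g W)
    (hg' : ContinuousOn g' W) (h : ∀ C, IsCompact C → C ⊆ W → L2to f g C)
    (h' : ∀ C, IsCompact C → C ⊆ W → L2to f g' C) : EqOn g g' W := by
  intro z hz
  obtain ⟨ε, hε, hs⟩ := nhds_basis_closedBall.mem_iff.1 (hW.mem_nhds hz)
  have hB : IsCompact (closedBall z ε) := isCompact_closedBall _ _
  have hO : ball z ε ⊆ closedBall z ε := ball_subset_closedBall
  have i0 : IntegrableOn (fun y => ‖g y - g' y‖ ^ 2) (closedBall z ε) volume :=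
    seho_int hB ((hg.sub hg').mono hs)
  have t := ((h _ hB hs).add (h' _ hB hs)).const_mul 2
  rw [add_zero, mul_zero] at t
  have e : ∫ y in closedBall z ε, ‖g y - g' y‖ ^ 2 = 0 := by
    refine le_antisymm (ge_of_tendsto' t fun k => ?_) (integral_nonneg fun _ => by positivity)
    have i1 : IntegrableOn (fun y => ‖f k y - g y‖ ^ 2) (closedBall z ε) volume :=
      seho_int hB (((hf k).sub hg).mono hs)
    have i2 : IntegrableOn (fun y => ‖f k y - g' y‖ ^ 2) (closedBall z ε) volume :=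
      seho_int hB (((hf k).sub hg').mono hs)
    rw [← integral_add i1 i2, ← integral_const_mul]
    refine integral_mono i0 ((i1.add i2).const_mul 2) fun y => ?_
    have h1 : ‖g y - g' y‖ ≤ ‖f k y - g y‖ + ‖f k y - g' y‖ := by
      rw [norm_sub_rev (f k y) (g y)]
      exact norm_sub_le_norm_sub_add_norm_sub _ _ _
    have h2 := pow_le_pow_left₀ (norm_nonneg _) h1 2
    change ‖g y - g' y‖ ^ 2 ≤ 2 * (‖f k y - g y‖ ^ 2 + ‖f k y - g' y‖ ^ 2)
    nlinarith [sq_nonneg (‖f k y - g y‖ - ‖f k y - g' y‖)]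
  rw [integral_eq_zero_iff_of_nonneg (fun _ => by positivity) i0] at e
  refine Measure.eqOn_open_of_ae_eq (μ := volume) ?_ isOpen_ball (hg.mono (hO.trans hs))
    (hg'.mono (hO.trans hs)) (mem_ball_self hε)
  filter_upwards [ae_restrict_of_ae_restrict_of_subset hO e] with y hy
  simpa [sub_eq_zero] using hy

theorem ho_loc (hW : IsOpen W) (hf : ∀ k, ContDiffOn ℝ ∞ (f k) W)
    (hc : ∀ C, IsCompact C → C ⊆ W → L2c f C)
    (hd : ∀ C, IsCompact C → C ⊆ W →
      Tendsto (fun k => ∫ y in C, ‖db (f k) y‖ ^ 2) atTop (𝓝 0)) :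
    ∃ g, DifferentiableOn ℂ g W ∧ ∀ C, IsCompact C → C ⊆ W → L2to f g C := by
  have key : ∀ z : E N, ∃ (R : ℝ) (G : E N → ℂ), z ∈ W → 0 < R ∧ ball z R ⊆ W ∧
      DifferentiableOn ℂ G (ball z R) ∧ ∀ C, IsCompact C → C ⊆ ball z R → L2to f G C := by
    intro z
    by_cases hz : z ∈ W
    · obtain ⟨ε, hε, hs⟩ := nhds_basis_closedBall.mem_iff.1 (hW.mem_nhds hz)
      have hs' : closedBall z (2 * (ε / 2)) ⊆ W := by rwa [mul_div_cancel₀ _ two_ne_zero]
      obtain ⟨G, h1, h2⟩ := ho_ball (half_pos hε) hW hs' hf (hc _ (isCompact_closedBall _ _) hs')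
        (hd _ (isCompact_closedBall _ _) hs')
      exact ⟨ε / 2, G, fun _ => ⟨half_pos hε, ball_subset_closedBall.trans
        ((closedBall_subset_closedBall (by linarith)).trans hs), h1, h2⟩⟩
    · exact ⟨0, 0, fun h => absurd h hz⟩
  choose R G hG using key
  have he : ∀ z ∈ W, EqOn (fun y => G y y) (G z) (ball z (R z)) := by
    intro z hz y hy
    obtain ⟨-, a2, a3, a4⟩ := hG z hz
    obtain ⟨b1, -, b3, b4⟩ := hG y (a2 hy)
    exact l2_unique (f := f) (W := ball z (R z) ∩ ball y (R y)) (isOpen_ball.inter isOpen_ball)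
      (fun k => (hf k).continuousOn.mono (inter_subset_left.trans a2))
      (b3.continuousOn.mono inter_subset_right) (a3.continuousOn.mono inter_subset_left)
      (fun C hC hs => b4 C hC (hs.trans inter_subset_right))
      (fun C hC hs => a4 C hC (hs.trans inter_subset_left)) ⟨hy, mem_ball_self b1⟩
  have hg : DifferentiableOn ℂ (fun y => G y y) W := fun z hz =>
    ((((hG z hz).2.2.1.congr (he z hz)).differentiableAt
      (ball_mem_nhds z (hG z hz).1))).differentiableWithinAt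
  have hi : ∀ K, IsCompact K → K ⊆ W → ∀ k,
      IntegrableOn (fun y => ‖f k y - G y y‖ ^ 2) K volume :=
    fun K hK hs k => seho_int hK (((hf k).continuousOn.sub hg.continuousOn).mono hs)
  refine ⟨fun y => G y y, hg, fun C hC hs => ?_⟩
  have main : ∃ K, IsCompact K ∧ K ⊆ W ∧ C ⊆ K ∧ L2to f (fun y => G y y) K := by
    refine hC.induction_on
      (p := fun s => ∃ K, IsCompact K ∧ K ⊆ W ∧ s ⊆ K ∧ L2to f (fun y => G y y) K) ?_ ?_ ?_ ?_
    · exact ⟨∅, isCompact_empty, empty_subset _, le_rfl, by simp [L2to]⟩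
    · rintro s t hst ⟨K, h1, h2, h3, h4⟩
      exact ⟨K, h1, h2, hst.trans h3, h4⟩
    · rintro s t ⟨K, h1, h2, h3, h4⟩ ⟨K', h1', h2', h3', h4'⟩
      refine ⟨K ∪ K', h1.union h1', union_subset h2 h2', union_subset_union h3 h3', ?_⟩
      have t := Tendsto.add h4 h4'
      rw [add_zero] at t
      refine squeeze_zero (fun k => integral_nonneg fun _ => by positivity) (fun k => ?_) t
      rw [← integral_add_measure (hi K h1 h2 k) (hi K' h1' h2' k)]
      exact integral_mono_measure (Measure.restrict_union_le _ _)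
        (Eventually.of_forall fun _ => by positivity)
        (Integrable.add_measure (hi K h1 h2 k) (hi K' h1' h2' k))
    · intro x hx
      obtain ⟨a1, a2, -, a4⟩ := hG x (hs hx)
      have hb : closedBall x (R x / 2) ⊆ ball x (R x) := closedBall_subset_ball (by linarith)
      refine ⟨closedBall x (R x / 2),
        mem_nhdsWithin_of_mem_nhds (closedBall_mem_nhds x (half_pos a1)), _,
        isCompact_closedBall _ _, hb.trans a2, le_rfl, ?_⟩
      refine Tendsto.congr (fun k => ?_) (a4 _ (isCompact_closedBall _ _) hb)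
      refine setIntegral_congr_fun measurableSet_closedBall fun y hy => ?_
      have e : G y y = G x y := he x (hs hx) (hb hy)
      simp only [e]
  obtain ⟨K, h1, h2, h3, h4⟩ := main
  exact seho_sub h3 (hi K h1 h2) (fun _ _ => by positivity) h4


end Pool.Agent.SE
end

-- part Pool.Agent.P.MP_63735c_ag.SEEx
section

/-! Sections supported in a chart. -/

open scoped ComplexOrder ContDiff Matrix Topology ENNReal InnerProductSpace
open Set Metric MeasureTheory Filter

namespace Pool.Agent.SE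

open Pool.Agent.SPF Pool.Agent.AB

variable {N : ℕ} {ρ Y : Type} [Fintype ρ] [DecidableEq ρ] [TopologicalSpace Y] [MeasurableSpace Y]
  [T2Space Y] {B : Bun Y N ρ} {i : B.ι} {C : Set (E N)} {f g : E N → ρ → ℂ} {V V' : B.Sec}

namespace Bun

theorem ex_fam (hf : Tst (B.W i) f) :
    B.Fam fun j y => B.ext i (fun z => B.G i j z *ᵥ f z) (B.p j y) := by
  refine ⟨fun j y hy => ContDiffAt.contDiffWithinAt ?_, fun j k z hz y hy e => ?_⟩
  · obtain ⟨h1, -⟩ := Man.cpt_img (D := B.toMan) hf.cpt.isCompact hf.sub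
    have h0 : ∀ z ∈ B.W i, z ∉ tsupport f → B.G i j z *ᵥ f z = 0 := fun z _ hz => by
      rw [image_eq_zero_of_notMem_tsupport hz, Matrix.mulVec_zero]
    by_cases hx : B.p j y ∈ B.p i '' tsupport f
    · obtain ⟨z, hz, e⟩ := hx
      have hs : ContDiffAt ℝ ∞ (fun t => B.G i j t *ᵥ f t) z := contDiffAt_pi.2 fun r => by
        simp only [Matrix.mulVec, dotProduct]
        exact ContDiffAt.sum fun s _ => (B.G_smooth i j z (hf.sub hz) ⟨y, hy, e.symm⟩ r s).mul
          (contDiffAt_pi.1 hf.smooth.contDiffAt s)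
      refine Man.smoAt hy (hf.sub hz) e.symm (hs.congr_of_eventuallyEq ?_)
      filter_upwards [(B.isOpen i).mem_nhds (hf.sub hz)] with t ht
      exact Man.ext_apply ht
    · refine (contDiffAt_const (c := (0 : ρ → ℂ))).congr_of_eventuallyEq ?_
      filter_upwards [Man.contAt_p hy (h1.isClosed.isOpen_compl.mem_nhds hx)] with t ht
      exact Man.ext_zero h0 ht
  · by_cases h : B.p j z ∈ B.p i '' B.W i
    · obtain ⟨t, ht, e'⟩ := h
      rw [← e, ← e', Man.ext_apply ht, Man.ext_apply ht, Matrix.mulVec_mulVec,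
        B.G_mul i j k t ht z hz e' ⟨y, hy, (e'.trans e).symm⟩]
    · rw [← e, Man.ext_out h, Man.ext_out h, Matrix.mulVec_zero]

theorem seex_v (hf : Tst (B.W i) f) {j : B.ι} {y : E N} (hy : y ∈ B.W j) :
    (B.ex i f).v j y = B.ext i (fun z => B.G i j z *ᵥ f z) (B.p j y) := sec_v (ex_fam hf) hy

theorem ex_self (hf : Tst (B.W i) f) {z : E N} (hz : z ∈ B.W i) : (B.ex i f).v i z = f z := by
  rw [seex_v hf hz, Man.ext_apply hz, B.G_self i z hz, Matrix.one_mulVec]

theorem ex_supp (hf : Tst (B.W i) f) (hC : tsupport f ⊆ C) : B.Supp (B.ex i f) i C := by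
  intro j y hy hx
  rw [seex_v hf hy]
  exact Man.ext_zero (fun z _ hz => by
    rw [image_eq_zero_of_notMem_tsupport fun h => hz (hC h), Matrix.mulVec_zero]) hx

omit [T2Space Y] in
theorem Supp.ext (h : B.Supp V i C) (h' : B.Supp V' i C) (hC : C ⊆ B.W i)
    (e : ∀ z ∈ B.W i, V.v i z = V'.v i z) : V = V' := by
  refine Sec.ext' fun j y hy => ?_
  by_cases hx : B.p j y ∈ B.p i '' C
  · obtain ⟨z, hz, e'⟩ := hx
    rw [V.fam.2 i j z (hC hz) y hy e', V'.fam.2 i j z (hC hz) y hy e', e z (hC hz)]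
  · rw [h j y hy hx, h' j y hy hx]

omit [T2Space Y] in
theorem Supp.sub (h : B.Supp V i C) (h' : B.Supp V' i C) : B.Supp (V - V') i C := by
  intro j y hy hx
  rw [v_sub, h j y hy hx, h' j y hy hx, sub_zero]

omit [T2Space Y] in
theorem Supp.mono {C' : Set (E N)} (h : B.Supp V i C) (hC : C ⊆ C') : B.Supp V i C' := by
  exact fun j y hy hx => h j y hy fun h' => hx (image_mono hC h')

omit [T2Space Y] in
theorem Supp.zero (h : B.Supp V i C) (hC : C ⊆ B.W i) {z : E N} (hz : z ∉ C) : V.v i z = 0 := by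
  by_cases hw : z ∈ B.W i
  · exact h i z hw fun ⟨t, ht, e⟩ => hz (B.inj i (hC ht) hw e ▸ ht)
  · exact V.out hw

theorem Supp.map {D : B.Sec →ₗ[ℂ] B.Sec} (hD : ∀ j, ∃ a b c, B.Loc D j a b c) (hC : IsCompact C)
    (hs : C ⊆ B.W i) (h : B.Supp V i C) : B.Supp (D V) i C := by
  intro j y hy hx
  obtain ⟨a, b, c, hl⟩ := hD j
  obtain ⟨h1, -⟩ := Man.cpt_img (D := B.toMan) hC hs
  rw [hl.eq V y hy]
  refine op_zero ?_
  filter_upwards [Man.contAt_p hy (h1.isClosed.isOpen_compl.mem_nhds hx),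
    (B.isOpen j).mem_nhds hy] with t ht ht'
  exact h j t ht' ht

theorem ex_add (hf : Tst (B.W i) f) (hg : Tst (B.W i) g) :
    B.ex i (fun y => f y + g y) = B.ex i f + B.ex i g := by
  have ht := (tst_add hf hg).1
  refine Supp.ext (ex_supp ht ht.sub) (fun j y hy hx => ?_) Subset.rfl fun z hz => ?_
  · rw [v_add, ex_supp hf hf.sub j y hy hx, ex_supp hg hg.sub j y hy hx, add_zero]
  · rw [v_add, ex_self ht hz, ex_self hf hz, ex_self hg hz]

theorem ex_smul (hf : Tst (B.W i) f) (t : ℂ) : B.ex i (fun y => t • f y) = t • B.ex i f := by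
  have ht := (tst_const_smul hf t).1
  refine Supp.ext (ex_supp ht ht.sub) (fun j y hy hx => ?_) Subset.rfl fun z hz => ?_
  · rw [v_smul, ex_supp hf hf.sub j y hy hx, smul_zero]
  · rw [v_smul, ex_self ht hz, ex_self hf hz]

/-- The operator applied to a section supported in a chart. -/
theorem Loc.ex_v {D : B.Sec →ₗ[ℂ] B.Sec} {a b : Fin N → E N → Matrix ρ ρ ℂ}
    {c : E N → Matrix ρ ρ ℂ} (hD : B.Loc D i a b c) (hf : Tst (B.W i) f) {z : E N}
    (hz : z ∈ B.W i) : (D (B.ex i f)).v i z = op a b c f z := by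
  rw [hD.eq _ z hz]
  refine op_congr ?_
  filter_upwards [(B.isOpen i).mem_nhds hz] with t ht
  exact ex_self hf ht

theorem ex_mul {τ : E N → ℝ} (hτ : Tst (B.W i) τ) (V : B.Sec) {j : B.ι} {y : E N}
    (hy : y ∈ B.W j) :
    (B.ex i fun z => τ z • V.v i z).v j y = B.ext i τ (B.p j y) • V.v j y := by
  rw [seex_v (tst_smul (B.isOpen i) hτ (V.smooth i)).1 hy]
  by_cases h : B.p j y ∈ B.p i '' B.W i
  · obtain ⟨z, hz, e⟩ := h
    rw [← e, Man.ext_apply hz, Man.ext_apply hz, V.fam.2 i j z hz y hy e, Matrix.mulVec_smul]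
  · rw [Man.ext_out h, Man.ext_out h, zero_smul]

end Bun

theorem PU.decomp (P : PU B) (V : B.Sec) :
    ∑ a, B.ex (P.c a) (fun z => P.τ a z • V.v (P.c a) z) = V := by
  refine Bun.Sec.ext' fun j y hy => ?_
  rw [Bun.v_sum]
  simp only [Bun.ex_mul (P.tst _) V hy]
  rw [← Finset.sum_smul, P.sum, one_smul]


end Pool.Agent.SE
end

-- part Pool.Agent.P.MP_63735c_ag.SEGl
section

/-! Holomorphic limits on the manifold. -/

open scoped ComplexOrder ContDiff Matrix Topology ENNReal InnerProductSpace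
open Set Metric MeasureTheory Filter

namespace Pool.Agent.SE

open Pool.Agent.SPF Pool.Agent.AB

variable {N : ℕ} {ρ Y : Type} [Fintype ρ] [DecidableEq ρ] [TopologicalSpace Y] [MeasurableSpace Y]
  [CompactSpace Y] [T2Space Y] [BorelSpace Y] {B : Bun Y N ρ}
  {D : B.Sec →ₗ[ℂ] B.Sec}

namespace Bun

theorem segl_comp {i : B.ι} {C : Set (E N)} (hC : IsCompact C) (h : C ⊆ B.W i) :
    ∃ A : ℝ, 0 < A ∧ ∀ (V V' : B.Sec) (r : ρ),
      ∫ z in C, ‖V.v i z r - V'.v i z r‖ ^ 2 ≤ A * ‖V - V'‖ ^ 2 := by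
  obtain ⟨A, hA, hl⟩ := lower hC h
  refine ⟨A, hA, fun V V' r => le_trans ?_ (hl (V - V'))⟩
  have hc : ContinuousOn ((V - V').v i) C := ((V - V').smooth i).continuousOn.mono h
  refine integral_mono_of_nonneg (Eventually.of_forall fun z => by positivity)
    ((hc.norm.pow 2).integrableOn_compact hC) (Eventually.of_forall fun z => ?_)
  exact pow_le_pow_left₀ (norm_nonneg _) (norm_le_pi_norm ((V - V').v i z) r) 2

theorem segl_sq {u : ℕ → B.Sec} (hu : Tendsto u atTop (𝓝 0)) (A : ℝ) :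
    Tendsto (fun k => A * ‖u k‖ ^ 2) atTop (𝓝 0) := by
  simpa using (hu.norm.pow 2).const_mul A

theorem segl_loc (h : B.Ell D) {u : ℕ → B.Sec} (hu : CauchySeq u)
    (hd : Tendsto (fun k => D (u k)) atTop (𝓝 0)) (i : B.ι) (r : ρ) :
    ∃ g, DifferentiableOn ℂ g (B.W i) ∧
      ∀ C, IsCompact C → C ⊆ B.W i → L2to (fun k y => (u k).v i y r) g C := by
  refine ho_loc (B.isOpen i) (fun k => contDiffOn_pi.1 ((u k).smooth i) r) (fun C hC hs => ?_)
    fun C hC hs => ?_
  · obtain ⟨A, hA, hl⟩ := segl_comp hC hs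
    intro ε hε
    obtain ⟨M, hM⟩ := Metric.cauchySeq_iff.1 hu (√(ε / A)) (by positivity)
    refine ⟨M, fun k hk l hl' => (hl _ _ r).trans ?_⟩
    have h1 := hM k hk l hl'
    rw [dist_eq_norm] at h1
    have h2 := pow_le_pow_left₀ (norm_nonneg _) h1.le 2
    rw [Real.sq_sqrt (by positivity), le_div_iff₀ hA] at h2
    linarith
  · obtain ⟨A, -, hg⟩ := h.gar i C hC hs
    exact squeeze_zero (fun k => integral_nonneg fun z => by positivity) (fun k => hg (u k) r)
      (segl_sq hd A)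

theorem segl_piece {i : B.ι} {τ : E N → ℝ} (hτ : Tst (B.W i) τ) {u : ℕ → B.Sec}
    {g : E N → ρ → ℂ} (hg : ContDiffOn ℝ ∞ g (B.W i))
    (hl : ∀ r, L2to (fun k y => (u k).v i y r) (fun y => g y r) (tsupport τ)) :
    Tendsto (fun k => (B.ex i fun z => τ z • (u k).v i z) - B.ex i fun z => τ z • g z) atTop
      (𝓝 0) := by
  have hC : IsCompact (tsupport τ) := hτ.cpt
  obtain ⟨A, hA, hup⟩ := upper hC hτ.sub
  obtain ⟨T, hT⟩ := hC.exists_bound_of_continuousOn hτ.smooth.continuous.continuousOn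
  have h1 := fun k => tst_smul (B.isOpen i) hτ ((u k).smooth i)
  have h2 := tst_smul (B.isOpen i) hτ hg
  have hlim : Tendsto (fun k => A * (T ^ 2 *
      ∑ r, ∫ z in tsupport τ, ‖(u k).v i z r - g z r‖ ^ 2)) atTop (𝓝 0) := by
    simpa using ((tendsto_finsetSum Finset.univ fun r _ => hl r).const_mul (T ^ 2)).const_mul A
  rw [tendsto_zero_iff_norm_tendsto_zero]
  have hsq : Tendsto (fun k => ‖(B.ex i fun z => τ z • (u k).v i z) -
      B.ex i fun z => τ z • g z‖ ^ 2) atTop (𝓝 0) := by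
    refine squeeze_zero (fun k => by positivity) (fun k => ?_) hlim
    refine (hup _ ((ex_supp (h1 k).1 (h1 k).2).sub (ex_supp h2.1 h2.2))).trans ?_
    refine mul_le_mul_of_nonneg_left ?_ hA.le
    have hi : ∀ r, IntegrableOn (fun z => ‖(u k).v i z r - g z r‖ ^ 2) (tsupport τ) := fun r =>
      ((((continuousOn_pi.1 ((u k).smooth i).continuousOn r).sub
        (continuousOn_pi.1 hg.continuousOn r)).mono hτ.sub).norm.pow 2).integrableOn_compact hC
    rw [← integral_finsetSum _ fun r _ => hi r, ← integral_const_mul]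
    refine integral_mono_of_nonneg (Eventually.of_forall fun z => by positivity)
      ((integrable_finsetSum _ fun r _ => hi r).const_mul _) ?_
    filter_upwards [ae_restrict_mem hC.measurableSet] with z hz
    rw [v_sub, ex_self (h1 k).1 (hτ.sub hz), ex_self h2.1 (hτ.sub hz), ← smul_sub, norm_smul,
      mul_pow]
    exact mul_le_mul (pow_le_pow_left₀ (norm_nonneg _) (hT z hz) 2)
      (norm_sq_le_sum ((u k).v i z - g z)) (by positivity) (by positivity)
  simpa using hsq.sqrt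

theorem Ell.ho (h : B.Ell D) {u : ℕ → B.Sec} (hu : CauchySeq u)
    (hd : Tendsto (fun k => D (u k)) atTop (𝓝 0)) : ∃ V ∈ B.Hol, Tendsto u atTop (𝓝 V) := by
  choose g hg hl using segl_loc h hu hd
  obtain ⟨P⟩ := exists_PU B
  have hs : ∀ i, ContDiffOn ℝ ∞ (fun z r => g i r z) (B.W i) := fun i =>
    contDiffOn_pi.2 fun r =>
      (Lib.SCV.contDiffOn_of_differentiableOn (B.isOpen i) (hg i r)).restrict_scalars ℝ
  set V : B.Sec := ∑ a, B.ex (P.c a) fun z => P.τ a z • fun r => g (P.c a) r z with hV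
  have h0 : Tendsto (fun k => u k - V) atTop (𝓝 0) := by
    have h1 := tendsto_finsetSum Finset.univ fun a _ =>
      segl_piece (P.tst a) (hs (P.c a)) fun r => hl (P.c a) r _ (P.tst a).cpt (P.tst a).sub
    rw [Finset.sum_const_zero] at h1
    refine h1.congr fun k => ?_
    rw [Finset.sum_sub_distrib, P.decomp]
  refine ⟨V, fun i => differentiableOn_pi.2 fun r => (hg i r).congr fun z hz => ?_,
    tendsto_sub_nhds_zero_iff.1 h0⟩
  refine l2_unique (f := fun k y => (u k).v i y r) (B.isOpen i)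
    (fun k => continuousOn_pi.1 ((u k).smooth i).continuousOn r)
    (continuousOn_pi.1 (V.smooth i).continuousOn r) (hg i r).continuousOn (fun C hC hs' => ?_)
    (hl i r) hz
  obtain ⟨A, -, hA⟩ := segl_comp hC hs'
  exact squeeze_zero (fun k => integral_nonneg fun z => by positivity) (fun k => hA _ _ r)
    (segl_sq h0 A)

end Bun

end Pool.Agent.SE
end

-- part Pool.Agent.P.MP_63735c_ag.SERel
section

/-! The flat Rellich lemma for the antiholomorphic derivative. -/

open scoped ComplexOrder ContDiff Matrix Topology ENNReal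
open Set Metric MeasureTheory Filter

namespace Pool.Agent.SE

open Pool.Agent.SPF Pool.Agent.AB

variable {N : ℕ} {d A : ℝ} {ρ : E N → ℝ} {f g : E N → ℂ} {C : Set (E N)}

theorem serel_sq (hf : Continuous f) (hc : HasCompactSupport f) :
    Integrable fun x => ‖f x‖ ^ 2 := by
  have hu : Continuous fun y => ‖f y‖ ^ 2 := hf.norm.pow 2
  exact hu.integrable_of_hasCompactSupport (hc.comp_left (g := fun t : ℂ => ‖t‖ ^ 2) (by simp))

theorem serel_db (hf : Tst univ f) : Integrable fun x => ‖db f x‖ ^ 2 := by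
  have h1 : Continuous (db f) :=
    (contDiffOn_univ.1 (db_smooth isOpen_univ hf.smooth.contDiffOn)).continuous
  refine (h1.norm.pow 2).integrable_of_hasCompactSupport (hf.cpt.mono' fun x hx => ?_)
  by_contra h
  refine hx ?_
  have : db f x = 0 := funext fun a => (dz_zero_off isOpen_univ (isClosed_tsupport f)
    (fun z _ hz => image_eq_zero_of_notMem_tsupport hz) a x (mem_univ x) h).2
  simp [this]

/-- The holomorphic and the antiholomorphic derivative have the same L2 norm. -/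
theorem int_dz_sq (hf : Tst univ f) (a : Fin N) :
    ∫ x, ‖dz a f x‖ ^ 2 = ∫ x, ‖dzb a f x‖ ^ 2 := by
  have hs : Tst univ fun y => star (f y) :=
    ⟨contDiffOn_univ.1 (abint_star hf.smooth.contDiffOn),
      hf.cpt.comp_left (g := fun t : ℂ => star t) (star_zero ℂ), subset_univ _⟩
  have h1 := ibp0 isOpen_univ hf (hf.dz_tst a).1.smooth.contDiffOn a
  have h2 := ibp0 isOpen_univ hs (abint_star (hf.dz_tst a).2.smooth.contDiffOn) a
  simp only [Measure.restrict_univ, db, ← (star_dz _ _ _).1, ← (star_dz _ _ _).2, star_star,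
    (ablev_comm hf.smooth.contDiffAt a a).1] at h1 h2
  have h3 := congrArg (starRingEnd ℂ) h2
  simp only [map_neg, ← integral_conj, map_mul, Complex.star_def, Complex.conj_conj] at h1 h3
  rw [← h3] at h1
  simp only [Complex.mul_conj', ← Complex.ofReal_pow, integral_complex_ofReal] at h1
  exact_mod_cast h1

theorem serel_cs {Ω : Type} [MeasurableSpace Ω] {μ : Measure Ω} {w u : Ω → ℝ}
    (h0 : ∀ t, 0 ≤ w t) (h1 : ∫ t, w t ∂μ = 1) (i0 : Integrable w μ)
    (i1 : Integrable (fun t => w t * u t) μ) (i2 : Integrable (fun t => w t * u t ^ 2) μ) :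
    (∫ t, w t * u t ∂μ) ^ 2 ≤ ∫ t, w t * u t ^ 2 ∂μ := by
  set m := ∫ t, w t * u t ∂μ with hm
  have h2 : 0 ≤ ∫ t, (w t * u t ^ 2 - 2 * m * (w t * u t) + m ^ 2 * w t) ∂μ :=
    integral_nonneg fun t => le_of_le_of_eq (mul_nonneg (h0 t) (sq_nonneg (u t - m))) (by ring)
  have i3 := i1.const_mul (2 * m)
  have i4 : Integrable (fun t => w t * u t ^ 2 - 2 * m * (w t * u t)) μ := i2.sub i3
  rw [integral_add i4 (i0.const_mul _), integral_sub i2 i3, integral_const_mul,
    integral_const_mul, h1, ← hm] at h2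
  linarith

theorem serel_swap {Z : Type} [NormedAddCommGroup Z] [MeasureSpace Z] [BorelSpace Z]
    [SecondCountableTopology Z] [IsFiniteMeasureOnCompacts (volume : Measure Z)]
    [SFinite (volume : Measure Z)] {K : Set Z} (hC : IsCompact C) (hK : IsCompact K)
    {H : E N → Z → ℝ} (hH : Continuous (Function.uncurry H)) :
    IntegrableOn (fun x => ∫ z in K, H x z) C ∧ IntegrableOn (fun z => ∫ x in C, H x z) K ∧
      ∫ x in C, ∫ z in K, H x z = ∫ z in K, ∫ x in C, H x z := by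
  have h : Integrable (Function.uncurry H) ((volume.restrict C).prod (volume.restrict K)) := by
    rw [Measure.prod_restrict]
    exact hH.continuousOn.integrableOn_compact (hC.prod hK)
  exact ⟨h.integral_prod_left, h.integral_prod_right, integral_integral_swap h⟩

/-- A majorant of the derivative. -/
noncomputable def maj (f : E N → ℂ) (z : E N) : ℝ := ∑ a, (‖dz a f z‖ + ‖dzb a f z‖)

theorem maj_le (f : E N → ℂ) (z v : E N) : ‖fderiv ℝ f z v‖ ≤ ‖v‖ * maj f z := by
  rw [fderiv_eq_wirt, maj, Finset.mul_sum]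
  refine norm_sum_le_of_le _ fun a _ => (norm_add_le _ _).trans ?_
  rw [norm_mul, norm_mul, norm_star, mul_add]
  have := norm_le_pi_norm v a
  gcongr

theorem maj_cont (hf : Tst univ f) : Continuous (maj f) :=
  continuous_finsetSum _ fun a _ =>
    (hf.dz_tst a).1.smooth.continuous.norm.add (hf.dz_tst a).2.smooth.continuous.norm

theorem maj_sq (f : E N → ℂ) (z : E N) :
    maj f z ^ 2 ≤ 2 * N * ∑ a, (‖dz a f z‖ ^ 2 + ‖dzb a f z‖ ^ 2) := by
  refine (sq_sum_le_card_mul_sum_sq).trans ?_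
  rw [Finset.card_univ, Fintype.card_fin, mul_comm 2, mul_assoc, Finset.mul_sum _ _ 2]
  refine mul_le_mul_of_nonneg_left (Finset.sum_le_sum fun a _ => ?_) (Nat.cast_nonneg N)
  nlinarith [sq_nonneg (‖dz a f z‖ - ‖dzb a f z‖)]

theorem maj_int (hf : Tst univ f) : Integrable (fun x => maj f x ^ 2) ∧
    ∫ x, maj f x ^ 2 ≤ 4 * N ^ 2 * ∫ x, ‖db f x‖ ^ 2 := by
  have i1 : ∀ a, Integrable fun x => ‖dz a f x‖ ^ 2 := fun a =>
    serel_sq (hf.dz_tst a).1.smooth.continuous (hf.dz_tst a).1.cpt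
  have i2 : ∀ a, Integrable fun x => ‖dzb a f x‖ ^ 2 := fun a =>
    serel_sq (hf.dz_tst a).2.smooth.continuous (hf.dz_tst a).2.cpt
  have i3 : ∀ a, Integrable fun x => ‖dz a f x‖ ^ 2 + ‖dzb a f x‖ ^ 2 := fun a => (i1 a).add (i2 a)
  have i4 := (integrable_finsetSum Finset.univ fun a _ => i3 a).const_mul (2 * N : ℝ)
  refine ⟨i4.mono' ((maj_cont hf).pow 2).aestronglyMeasurable (Eventually.of_forall fun x => by
    rw [Real.norm_of_nonneg (sq_nonneg _)]; exact maj_sq f x), ?_⟩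
  refine (integral_mono_of_nonneg (Eventually.of_forall fun x => sq_nonneg _) i4
    (Eventually.of_forall (maj_sq f))).trans ?_
  rw [integral_const_mul, integral_finsetSum _ fun a _ => i3 a]
  have h : ∀ a ∈ (Finset.univ : Finset (Fin N)),
      ∫ x, (‖dz a f x‖ ^ 2 + ‖dzb a f x‖ ^ 2) ≤ 2 * ∫ x, ‖db f x‖ ^ 2 := fun a _ => by
    rw [integral_add (i1 a) (i2 a), int_dz_sq hf, ← two_mul]
    refine mul_le_mul_of_nonneg_left (integral_mono (i2 a) (serel_db hf) fun x => ?_) two_pos.le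
    exact pow_le_pow_left₀ (norm_nonneg _) (norm_le_pi_norm (db f x) a) 2
  have h2 := Finset.sum_le_card_nsmul _ _ _ h
  rw [Finset.card_univ, Fintype.card_fin, nsmul_eq_mul] at h2
  have h3 := mul_le_mul_of_nonneg_left h2 (show (0 : ℝ) ≤ 2 * N by positivity)
  linarith

theorem serel_pt (hf : Tst univ f) (x y : E N) :
    ‖f (x - y) - f x‖ ^ 2 ≤ ‖y‖ ^ 2 * ∫ t in Icc (0 : ℝ) 1, maj f (x - t • y) ^ 2 := by
  have hl : Continuous fun t : ℝ => x - t • y := by fun_prop
  have hd : ∀ t : ℝ, HasDerivAt (fun t : ℝ => f (x - t • y)) (fderiv ℝ f (x - t • y) (-y)) t :=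
    fun t => by
      have h1 : HasDerivAt (fun t : ℝ => x - t • y) (-y) t := by
        simpa using ((hasDerivAt_id t).smul_const y).const_sub x
      exact (abmol2_diff hf.smooth _).hasFDerivAt.comp_hasDerivAt t h1
  have hc : Continuous fun t : ℝ => fderiv ℝ f (x - t • y) (-y) :=
    ((hf.smooth.continuous_fderiv (by simp)).comp hl).clm_apply continuous_const
  have hm : Continuous fun t : ℝ => maj f (x - t • y) := (maj_cont hf).comp hl
  have h1 := intervalIntegral.integral_eq_sub_of_hasDerivAt (fun t _ => hd t)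
    (hc.intervalIntegrable 0 1)
  simp only [one_smul, zero_smul, sub_zero] at h1
  have h2 : ‖f (x - y) - f x‖ ≤ ‖y‖ * ∫ t in Icc (0 : ℝ) 1, maj f (x - t • y) := by
    rw [← h1, intervalIntegral.integral_of_le zero_le_one, ← integral_Icc_eq_integral_Ioc,
      ← integral_const_mul]
    refine norm_integral_le_of_norm_le ((hm.const_mul _).integrableOn_Icc)
      (Eventually.of_forall fun t => ?_)
    simpa only [norm_neg] using maj_le f (x - t • y) (-y)
  have h3 := serel_cs (μ := volume.restrict (Icc (0 : ℝ) 1)) (w := fun _ => 1)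
    (u := fun t => maj f (x - t • y)) (fun _ => zero_le_one) (by simp)
    continuous_const.integrableOn_Icc (hm.const_mul _).integrableOn_Icc
    ((hm.pow 2).const_mul _).integrableOn_Icc
  simp only [one_mul] at h3
  refine (pow_le_pow_left₀ (norm_nonneg _) h2 2).trans ?_
  rw [mul_pow]
  exact mul_le_mul_of_nonneg_left h3 (sq_nonneg _)

/-- The translation estimate. -/
theorem transl (hf : Tst univ f) (hC : IsCompact C) (y : E N) :
    ∫ x in C, ‖f (x - y) - f x‖ ^ 2 ≤ ‖y‖ ^ 2 * ∫ x, maj f x ^ 2 := by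
  have hm := maj_cont hf
  obtain ⟨i1, i2, e⟩ := serel_swap hC (isCompact_Icc (a := (0 : ℝ)) (b := 1))
    (H := fun x t => maj f (x - t • y) ^ 2)
    ((hm.comp (continuous_fst.sub (continuous_snd.smul continuous_const))).pow 2)
  refine (integral_mono_of_nonneg (Eventually.of_forall fun x => sq_nonneg _) (i1.const_mul _)
    (Eventually.of_forall fun x => serel_pt hf x y)).trans ?_
  rw [integral_const_mul, e]
  refine mul_le_mul_of_nonneg_left ?_ (sq_nonneg _)
  refine (integral_mono i2 (integrable_const (∫ x, maj f x ^ 2)) fun t => ?_).trans (by simp)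
  rw [← integral_sub_right_eq_self (fun x => maj f x ^ 2) (t • y)]
  exact setIntegral_le_integral ((maj_int hf).1.comp_sub_right _)
    (Eventually.of_forall fun x => sq_nonneg _)

/-- The mollified function is close in L2. -/
theorem cv_near (h : Ker d A ρ) (hf : Tst univ f) (hC : IsCompact C) :
    ∫ x in C, ‖cv ρ f x - f x‖ ^ 2 ≤ 4 * N ^ 2 * d ^ 2 * ∫ x, ‖db f x‖ ^ 2 := by
  have hc := hf.smooth.continuous
  have hρ := h.smooth.continuous
  have hK : IsCompact (tsupport ρ) := h.cpt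
  have iρ : Integrable ρ := hρ.integrable_of_hasCompactSupport h.cpt
  have hz : ∀ (u : E N → ℝ), ∫ y in tsupport ρ, ρ y * u y = ∫ y, ρ y * u y := fun u =>
    setIntegral_eq_integral_of_forall_compl_eq_zero fun y hy => by
      rw [image_eq_zero_of_notMem_tsupport hy, zero_mul]
  obtain ⟨i1, i2, e⟩ := serel_swap hC hK (H := fun x y => ρ y * ‖f (x - y) - f x‖ ^ 2)
    (show Continuous fun p : E N × E N => ρ p.2 * ‖f (p.1 - p.2) - f p.1‖ ^ 2 by fun_prop)
  have key : ∀ x, ‖cv ρ f x - f x‖ ^ 2 ≤ ∫ y in tsupport ρ, ρ y * ‖f (x - y) - f x‖ ^ 2 := by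
    intro x
    have hu : Continuous fun y => ‖f (x - y) - f x‖ :=
      ((hc.comp (continuous_const.sub continuous_id)).sub continuous_const).norm
    have e1 : cv ρ f x - f x = ∫ y, (ρ y : ℂ) * (f (x - y) - f x) := by
      simp only [mul_sub]
      have i3 : Integrable fun y => (ρ y : ℂ) * f x := iρ.ofReal.mul_const _
      rw [integral_sub (h.abmol1_int hc x) i3, integral_mul_const,
        integral_complex_ofReal, h.one, Complex.ofReal_one, one_mul, cv]
    have e2 : ‖cv ρ f x - f x‖ ≤ ∫ y, ρ y * ‖f (x - y) - f x‖ := by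
      rw [e1]
      refine (norm_integral_le_integral_norm _).trans (le_of_eq ?_)
      simp only [norm_mul, Complex.norm_real, Real.norm_of_nonneg (h.nonneg _)]
    rw [hz]
    exact (pow_le_pow_left₀ (norm_nonneg _) e2 2).trans (serel_cs h.nonneg h.one iρ
      ((hρ.mul hu).integrable_of_hasCompactSupport h.cpt.mul_right)
      ((hρ.mul (hu.pow 2)).integrable_of_hasCompactSupport h.cpt.mul_right))
  refine (integral_mono_of_nonneg (Eventually.of_forall fun x => sq_nonneg _) i1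
    (Eventually.of_forall key)).trans ?_
  rw [e]
  have hM : 0 ≤ ∫ x, maj f x ^ 2 := integral_nonneg fun x => sq_nonneg _
  refine (setIntegral_mono_on i2 ((iρ.mul_const (d ^ 2 * ∫ x, maj f x ^ 2)).integrableOn)
    hK.measurableSet fun y hy => ?_).trans ?_
  · rw [integral_const_mul]
    refine mul_le_mul_of_nonneg_left ((transl hf hC y).trans ?_) (h.nonneg y)
    exact mul_le_mul_of_nonneg_right
      (pow_le_pow_left₀ (norm_nonneg _) (mem_ball_zero_iff.1 (h.supp hy)).le 2) hM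
  · rw [hz, integral_mul_const, h.one, one_mul]
    have := mul_le_mul_of_nonneg_left (maj_int hf).2 (sq_nonneg d)
    linarith

/-- Test functions with bounds. -/
structure Adm (C : Set (E N)) (B : ℝ) (f : E N → ℂ) : Prop where
  tst : Tst univ f
  supp : tsupport f ⊆ C
  l2 : ∫ x, ‖f x‖ ^ 2 ≤ B
  d2 : ∫ x, ‖db f x‖ ^ 2 ≤ B

theorem Adm.l1 {B : ℝ} (hf : Adm C B f) (hC : IsCompact C) :
    ∫ x, ‖f x‖ ≤ volume.real C + |B| := by
  have hc := hf.tst.smooth.continuous
  have i1 := serel_sq hc hf.tst.cpt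
  have i0 : IntegrableOn (fun _ => (1 : ℝ)) C := continuous_const.continuousOn.integrableOn_compact hC
  rw [← setIntegral_eq_integral_of_forall_compl_eq_zero (s := C) fun y hy => by
    rw [image_eq_zero_of_notMem_tsupport fun h => hy (hf.supp h), norm_zero]]
  have i2 : IntegrableOn (fun x => 1 + ‖f x‖ ^ 2) C := i0.add i1.integrableOn
  refine (integral_mono (hc.norm.continuousOn.integrableOn_compact hC) i2 fun x => by
    nlinarith [sq_nonneg (‖f x‖ - 1), norm_nonneg (f x)]).trans ?_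
  rw [integral_add i0 i1.integrableOn]
  have := setIntegral_le_integral (s := C) i1 (Eventually.of_forall fun x => sq_nonneg _)
  have h1 : ∫ _ in C, (1 : ℝ) = volume.real C := by simp
  linarith [hf.l2, le_abs_self B]

theorem serel_cvi (h : Ker d A ρ) (hf : Tst univ f) (x : E N) :
    Integrable fun y => (ρ (x - y) : ℂ) * f y := by
  have hρ := h.smooth.continuous
  have hc := hf.smooth.continuous
  exact Continuous.integrable_of_hasCompactSupport (by fun_prop) hf.cpt.mul_left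

/-- Rellich's lemma in colouring form. -/
theorem rellich (hC : IsCompact C) (B : ℝ) {e : ℝ} (he : 0 < e) :
    ∃ (β : Type) (_ : Fintype β) (F : (E N → ℂ) → β), ∀ f g, Adm C B f → Adm C B g → F f = F g →
      ∫ x in C, ‖f x - g x‖ ^ 2 ≤ e := by
  obtain ⟨A, hA⟩ := exists_ker N
  have hv : 0 ≤ volume.real C := measureReal_nonneg
  set V := volume.real C + |B| with hV
  have hV0 : 0 ≤ V := by positivity
  have t1 : Tendsto (fun d : ℝ => 4 * N ^ 2 * d ^ 2 * |B|) (𝓝[>] 0) (𝓝 0) :=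
    (Continuous.tendsto' (by fun_prop) 0 0 (by simp)).mono_left nhdsWithin_le_nhds
  have t2 : Tendsto (fun η : ℝ => volume.real C * (2 * (η * V) + 2 * η) ^ 2) (𝓝[>] 0) (𝓝 0) :=
    (Continuous.tendsto' (by fun_prop) 0 0 (by simp)).mono_left nhdsWithin_le_nhds
  obtain ⟨d, hd1, hd⟩ := ((t1.eventually (gt_mem_nhds (show 0 < e / 9 by positivity))).and
    self_mem_nhdsWithin).exists
  obtain ⟨η, hη1, hη⟩ := ((t2.eventually (gt_mem_nhds (show 0 < e / 9 by positivity))).and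
    self_mem_nhdsWithin).exists
  replace hη : 0 < η := hη
  obtain ⟨ρ, h⟩ := hA d hd
  have hρ := h.smooth.continuous
  obtain ⟨M, hM⟩ := hρ.bounded_above_of_compact_support h.cpt
  obtain ⟨δ, hδ, hu⟩ := Metric.uniformContinuous_iff.1 (h.cpt.uniformContinuous_of_continuous hρ) η hη
  obtain ⟨t, -, ht, hCt⟩ := finite_cover_balls_of_compact hC hδ
  obtain ⟨s, -, hs, hCs⟩ := finite_cover_balls_of_compact (isCompact_closedBall (0 : ℂ) (M * V)) hη
  have := ht.to_subtype
  have := hs.to_subtype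
  have i1 : ∀ f, Adm C B f → Integrable fun y => ‖f y‖ := fun f hf =>
    (hf.tst.smooth.continuous.integrable_of_hasCompactSupport hf.tst.cpt).norm
  have b1 : ∀ f, Adm C B f → ∀ x, ‖cv ρ f x‖ ≤ M * V := fun f hf x => by
    rw [cv_swap]
    refine (norm_integral_le_of_norm_le ((i1 f hf).const_mul M) (Eventually.of_forall fun y => by
      rw [norm_mul, Complex.norm_real]
      exact mul_le_mul_of_nonneg_right (hM _) (norm_nonneg _))).trans ?_
    rw [integral_const_mul]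
    exact mul_le_mul_of_nonneg_left (hf.l1 hC) ((norm_nonneg _).trans (hM 0))
  have b2 : ∀ f, Adm C B f → ∀ x x', dist x x' < δ → ‖cv ρ f x - cv ρ f x'‖ ≤ η * V := by
    intro f hf x x' hx
    rw [cv_swap, cv_swap, ← integral_sub (serel_cvi h hf.tst x) (serel_cvi h hf.tst x')]
    refine (norm_integral_le_of_norm_le ((i1 f hf).const_mul η) (Eventually.of_forall fun y => by
      rw [← sub_mul, norm_mul, ← Complex.ofReal_sub, Complex.norm_real, ← dist_eq_norm]
      exact mul_le_mul_of_nonneg_right (hu (by rwa [dist_sub_right])).le (norm_nonneg _))).trans ?_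
    rw [integral_const_mul]
    exact mul_le_mul_of_nonneg_left (hf.l1 hC) hη.le
  have b3 : ∀ f, Adm C B f → ∫ x in C, ‖cv ρ f x - f x‖ ^ 2 ≤ e / 9 := fun f hf =>
    (cv_near h hf.tst hC).trans ((mul_le_mul_of_nonneg_left (hf.d2.trans (le_abs_self B))
      (by positivity)).trans hd1.le)
  have i2 : ∀ f, Adm C B f → IntegrableOn (fun x => ‖cv ρ f x - f x‖ ^ 2) C := fun f hf => by
    have hu : Continuous fun x => ‖cv ρ f x - f x‖ ^ 2 :=
      ((abmol2_cv h hf.tst).continuous.sub hf.tst.smooth.continuous).norm.pow 2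
    exact hu.continuousOn.integrableOn_compact hC
  refine ⟨t → s → Prop, Fintype.ofFinite _, fun f x c => dist (cv ρ f x) c < η,
    fun f g hf hg hfg => ?_⟩
  have b4 : ∀ x ∈ C, ‖cv ρ f x - cv ρ g x‖ ≤ 2 * (η * V) + 2 * η := fun x hx => by
    obtain ⟨x', hx', h1⟩ := mem_iUnion₂.1 (hCt hx)
    obtain ⟨c, hc, h2⟩ := mem_iUnion₂.1 (hCs (mem_closedBall_zero_iff.2 (b1 f hf x')))
    have h3 : dist (cv ρ g x') c < η := (congrFun (congrFun hfg ⟨x', hx'⟩) ⟨c, hc⟩).mp h2
    have h4 := b2 f hf x x' h1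
    have h5 := b2 g hg x x' h1
    rw [← dist_eq_norm] at h4 h5 ⊢
    have h6 := dist_triangle4 (cv ρ f x) (cv ρ f x') c (cv ρ g x)
    have h7 := dist_triangle c (cv ρ g x') (cv ρ g x)
    rw [dist_comm c (cv ρ g x'), dist_comm (cv ρ g x') (cv ρ g x)] at h7
    have h8 : dist (cv ρ f x') c < η := h2
    linarith
  have i0 : IntegrableOn (fun _ => (2 * (η * V) + 2 * η) ^ 2) C :=
    continuous_const.continuousOn.integrableOn_compact hC
  have i3 : IntegrableOn (fun x => ‖cv ρ f x - f x‖ ^ 2 + ‖cv ρ g x - g x‖ ^ 2) C :=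
    (i2 f hf).add (i2 g hg)
  have i4 : IntegrableOn (fun x => 3 * (‖cv ρ f x - f x‖ ^ 2 + ‖cv ρ g x - g x‖ ^ 2 +
      (2 * (η * V) + 2 * η) ^ 2)) C := (i3.add i0).const_mul 3
  refine (integral_mono_of_nonneg (Eventually.of_forall fun x => sq_nonneg _) i4
    ((ae_restrict_iff' hC.measurableSet).2 (Eventually.of_forall fun x hx => ?_))).trans ?_
  · have h1 : ‖f x - g x‖ ≤ ‖cv ρ f x - f x‖ + ‖cv ρ g x - g x‖ + (2 * (η * V) + 2 * η) := by
      have e1 : f x - g x = (cv ρ g x - g x) - (cv ρ f x - f x) + (cv ρ f x - cv ρ g x) := by ring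
      rw [e1]
      refine (norm_add_le _ _).trans (add_le_add ((norm_sub_le _ _).trans (by linarith)) (b4 x hx))
    refine (pow_le_pow_left₀ (norm_nonneg _) h1 2).trans ?_
    nlinarith [sq_nonneg (‖cv ρ f x - f x‖ - ‖cv ρ g x - g x‖),
      sq_nonneg (‖cv ρ f x - f x‖ - (2 * (η * V) + 2 * η)),
      sq_nonneg (‖cv ρ g x - g x‖ - (2 * (η * V) + 2 * η))]
  · rw [integral_const_mul, integral_add i3 i0, integral_add (i2 f hf) (i2 g hg), setIntegral_const,
      smul_eq_mul]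
    linarith [b3 f hf, b3 g hg]

end Pool.Agent.SE
end

-- part Pool.Agent.P.MP_63735c_ag.SERe
section

/-! Compactness on the manifold. -/

open scoped ComplexOrder ContDiff Matrix Topology ENNReal InnerProductSpace
open Set Metric MeasureTheory Filter

namespace Pool.Agent.SE

open Pool.Agent.SPF Pool.Agent.AB

theorem sere_adm {N : ℕ} {W : Set (E N)} {χ : E N → ℝ} (hW : IsOpen W) (hχ : Tst W χ)
    (hb : ∀ y, 0 ≤ χ y ∧ χ y ≤ 1) (A : ℝ) : ∃ B : ℝ, ∀ g : E N → ℂ, ContDiffOn ℝ ∞ g W →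
      ∫ z in tsupport χ, ‖g z‖ ^ 2 ≤ A → ∫ z in tsupport χ, ‖db g z‖ ^ 2 ≤ A →
        Adm (tsupport χ) B fun y => (χ y : ℂ) * g y := by
  have hC : IsCompact (tsupport χ) := hχ.cpt
  have hs : tsupport (fun y => (χ y : ℂ)) ⊆ tsupport χ := tsupport_comp_subset Complex.ofReal_zero χ
  have hc : Tst W fun y => (χ y : ℂ) := ⟨Complex.ofRealCLM.contDiff.comp hχ.smooth,
    hχ.cpt.comp_left Complex.ofReal_zero, hs.trans hχ.sub⟩
  obtain ⟨L, hL⟩ := hC.exists_bound_of_continuousOn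
    ((db_smooth hW hc.smooth.contDiffOn).continuousOn.mono hχ.sub)
  refine ⟨(2 * L ^ 2 + 2) * |A|, fun g hg h1 h2 => ?_⟩
  obtain ⟨ht, hsub⟩ := hc.mul_on hW hg
  have hsub' := hsub.trans hs
  have hn : ∀ y, ‖(χ y : ℂ)‖ ≤ 1 := fun y => by
    rw [Complex.norm_real, Real.norm_of_nonneg (hb y).1]; exact (hb y).2
  have i1 : IntegrableOn (fun z => ‖g z‖ ^ 2) (tsupport χ) :=
    ((hg.continuousOn.mono hχ.sub).norm.pow 2).integrableOn_compact hC
  have i2 : IntegrableOn (fun z => ‖db g z‖ ^ 2) (tsupport χ) :=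
    (((db_smooth hW hg).continuousOn.mono hχ.sub).norm.pow 2).integrableOn_compact hC
  have hA := le_abs_self A
  have hA0 := abs_nonneg A
  have hz : ∀ z, z ∉ tsupport χ → (χ z : ℂ) * g z = 0 := fun z hz => by
    rw [image_eq_zero_of_notMem_tsupport hz, Complex.ofReal_zero, zero_mul]
  refine ⟨⟨ht.smooth, ht.cpt, subset_univ _⟩, hsub', ?_, ?_⟩
  · rw [← setIntegral_eq_integral_of_forall_compl_eq_zero (s := tsupport χ) fun y hy => by
      rw [hz y hy]; simp]
    refine (integral_mono_of_nonneg (Eventually.of_forall fun x => sq_nonneg _) i1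
      (Eventually.of_forall fun x => ?_)).trans (by nlinarith [sq_nonneg L])
    refine pow_le_pow_left₀ (norm_nonneg _) ?_ 2
    rw [norm_mul]
    exact mul_le_of_le_one_left (norm_nonneg _) (hn x)
  · rw [← setIntegral_eq_integral_of_forall_compl_eq_zero (s := tsupport χ) fun y hy => by
      have : db (fun y => (χ y : ℂ) * g y) y = 0 := funext fun a => (dz_zero_off isOpen_univ
        (isClosed_tsupport χ) (fun z _ h => hz z h) a y (mem_univ y) hy).2
      rw [this]; simp]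
    have i3 := i1.const_mul (2 * L ^ 2)
    have i4 := i2.const_mul 2
    have i5 : IntegrableOn (fun z => 2 * L ^ 2 * ‖g z‖ ^ 2 + 2 * ‖db g z‖ ^ 2) (tsupport χ) :=
      i3.add i4
    refine (integral_mono_of_nonneg (Eventually.of_forall fun x => sq_nonneg _) i5
      ((ae_restrict_iff' hC.measurableSet).2 (Eventually.of_forall fun x hx => ?_))).trans ?_
    · have h3 : ‖db (fun y => (χ y : ℂ) * g y) x‖ ≤ L * ‖g x‖ + ‖db g x‖ := by
        rw [db_mul (diffAt hW hc.smooth.contDiffOn (hχ.sub hx)) (diffAt hW hg (hχ.sub hx))]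
        refine (norm_add_le _ _).trans (add_le_add ?_ ?_)
        · rw [norm_smul, mul_comm]
          exact mul_le_mul_of_nonneg_right (hL x hx) (norm_nonneg _)
        · rw [norm_smul]
          exact mul_le_of_le_one_left (norm_nonneg _) (hn x)
      refine (pow_le_pow_left₀ (norm_nonneg _) h3 2).trans ?_
      nlinarith [sq_nonneg (L * ‖g x‖ - ‖db g x‖)]
    · rw [integral_add i3 i4, integral_const_mul, integral_const_mul]
      nlinarith [sq_nonneg L]

variable {N : ℕ} {ρ Y : Type} [Fintype ρ] [DecidableEq ρ] [TopologicalSpace Y] [MeasurableSpace Y]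
  [CompactSpace Y] [T2Space Y] [BorelSpace Y] {B : Bun Y N ρ}
  {D : B.Sec →ₗ[ℂ] B.Sec}

namespace Bun

theorem Ell.re_loc (h : B.Ell D) {i : B.ι} {C : Set (E N)} (hC : IsCompact C) (hs : C ⊆ B.W i)
    {e : ℝ} (he : 0 < e) : ∃ (β : Type) (_ : Fintype β) (F : B.Sec → β), ∀ V V',
      ‖V‖ ≤ 1 ∧ ‖D V‖ ≤ 1 → ‖V'‖ ≤ 1 ∧ ‖D V'‖ ≤ 1 → F V = F V' →
        ∫ z in C, ‖(V - V').v i z‖ ^ 2 ≤ Fintype.card ρ * e := by
  obtain ⟨χ, d, hχ, hb, hd, h1⟩ := exists_bump (B.isOpen i) hC hs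
  have hK : IsCompact (tsupport χ) := hχ.cpt
  obtain ⟨A1, hA1, l1⟩ := lower hK hχ.sub
  obtain ⟨A2, hA2, l2⟩ := h.gar i _ hK hχ.sub
  obtain ⟨M, hM⟩ := sere_adm (B.isOpen i) hχ hb (A1 + A2)
  obtain ⟨β, _, F, hF⟩ := rellich hK M he
  have hadm : ∀ V : B.Sec, ‖V‖ ≤ 1 ∧ ‖D V‖ ≤ 1 → ∀ r,
      Adm (tsupport χ) M fun y => (χ y : ℂ) * V.v i y r := fun V hV r => by
    refine hM _ (contDiffOn_pi.1 (V.smooth i) r) ?_ ?_
    · refine (integral_mono_of_nonneg (Eventually.of_forall fun x => sq_nonneg _)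
        ((((V.smooth i).continuousOn.mono hχ.sub).norm.pow 2).integrableOn_compact hK)
        (Eventually.of_forall fun x =>
          pow_le_pow_left₀ (norm_nonneg _) (norm_le_pi_norm (V.v i x) r) 2)).trans
        ((l1 V).trans ?_)
      nlinarith [pow_le_one₀ (n := 2) (norm_nonneg V) hV.1]
    · refine (l2 V r).trans ?_
      nlinarith [pow_le_one₀ (n := 2) (norm_nonneg (D V)) hV.2]
  refine ⟨ρ → β, inferInstance, fun V r => F fun y => (χ y : ℂ) * V.v i y r,
    fun V V' hV hV' hF' => ?_⟩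
  have hχ1 : ∀ x ∈ C, χ x = 1 := fun x hx => h1 x hx x (mem_ball_self hd)
  have hCK : C ⊆ tsupport χ := fun x hx => subset_tsupport _ (by simp [hχ1 x hx])
  have ii : ∀ r, IntegrableOn (fun y => ‖(χ y : ℂ) * V.v i y r - (χ y : ℂ) * V'.v i y r‖ ^ 2)
      (tsupport χ) := fun r =>
    (((hadm V hV r).tst.smooth.continuous.sub
      (hadm V' hV' r).tst.smooth.continuous).continuousOn.norm.pow 2).integrableOn_compact hK
  refine (integral_mono_of_nonneg (Eventually.of_forall fun x => sq_nonneg _)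
    (integrable_finsetSum Finset.univ fun r _ => (ii r).mono_set hCK)
    ((ae_restrict_iff' hC.measurableSet).2 (Eventually.of_forall fun x hx => ?_))).trans ?_
  · refine (norm_sq_le_sum _).trans (le_of_eq ?_)
    simp only [hχ1 x hx, Complex.ofReal_one, one_mul, v_sub, Pi.sub_apply]
  · rw [integral_finsetSum _ fun r _ => (ii r).mono_set hCK]
    refine (Finset.sum_le_card_nsmul _ _ e fun r _ => ?_).trans (by simp)
    exact (setIntegral_mono_set (ii r) (Eventually.of_forall fun x => sq_nonneg _)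
      hCK.eventuallyLE).trans (hF _ _ (hadm V hV r) (hadm V' hV' r) (congrFun hF' r))

theorem Ell.re (h : B.Ell D) : TotallyBounded {V : B.Sec | ‖V‖ ≤ 1 ∧ ‖D V‖ ≤ 1} := by
  obtain ⟨P⟩ := exists_PU B
  obtain ⟨A, hA, hu⟩ := P.upper
  refine Metric.totallyBounded_of_finite_discretization fun ε hε => ?_
  have t1 : Tendsto (fun e : ℝ => A * (P.m * (Fintype.card ρ * e))) (𝓝[>] 0) (𝓝 0) :=
    (Continuous.tendsto' (by fun_prop) 0 0 (by simp)).mono_left nhdsWithin_le_nhds
  obtain ⟨e, he1, he⟩ := ((t1.eventually (gt_mem_nhds (pow_pos hε 2))).and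
    self_mem_nhdsWithin).exists
  choose β hβ F hF using fun a : Fin P.m =>
    h.re_loc (i := P.c a) (C := tsupport (P.τ a)) (P.tst a).cpt (P.tst a).sub he
  refine ⟨∀ a, β a, inferInstance, fun V a => F a V, fun V V' hV => ?_⟩
  rw [dist_eq_norm]
  refine lt_of_pow_lt_pow_left₀ 2 hε.le ((hu _).trans_lt (lt_of_le_of_lt ?_ he1))
  refine mul_le_mul_of_nonneg_left ?_ hA.le
  refine (Finset.sum_le_card_nsmul _ _ _ fun a _ => hF a _ _ V.2 V'.2 (congrFun hV a)).trans ?_
  simp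

end Bun

end Pool.Agent.SE
end

-- part Pool.Agent.P.MP_63735c_ag.SECv
section

/-! Mollification of vector valued functions. -/

open scoped ComplexOrder ContDiff Matrix Topology ENNReal InnerProductSpace
open Set Metric MeasureTheory Filter

namespace Pool.Agent.SE

open Pool.Agent.SPF Pool.Agent.AB

variable {N : ℕ} {ρ : Type} {W C : Set (E N)} {d A : ℝ} {k : E N → ℝ}

/-- Componentwise convolution. -/
noncomputable def cvv (k : E N → ℝ) (f : E N → ρ → ℂ) (x : E N) : ρ → ℂ :=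
  fun r => cv k (fun y => f y r) x

theorem secv_sq {F : Type} [NormedAddCommGroup F] {f : E N → F} (hf : Continuous f)
    (hc : HasCompactSupport f) : Integrable fun y => ‖f y‖ ^ 2 := by
  have hu : Continuous fun y => ‖f y‖ ^ 2 := hf.norm.pow 2
  exact hu.integrable_of_hasCompactSupport (hc.comp_left (g := fun t : F => ‖t‖ ^ 2) (by simp))

theorem secv_zero {a f : E N → ℂ} {M : ℝ} (ha : Continuous a) (hM : ∀ x, ‖a x‖ ≤ M)
    (h : Ker d A k) (hf : Continuous f) (hc : HasCompactSupport f) (hC : IsCompact C) :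
    ∫ x in C, ‖a x * cv k f x‖ ^ 2 ≤ M ^ 2 * ∫ x, ‖f x‖ ^ 2 ∧
      ∫ x in C, ‖cv k (fun y => a y * f y) x‖ ^ 2 ≤ M ^ 2 * ∫ x, ‖f x‖ ^ 2 := by
  have hp : ∀ x (t : ℂ), ‖a x * t‖ ^ 2 ≤ M ^ 2 * ‖t‖ ^ 2 := fun x t => by
    rw [norm_mul, mul_pow]
    exact mul_le_mul_of_nonneg_right (pow_le_pow_left₀ (norm_nonneg _) (hM x) 2) (sq_nonneg _)
  have hv : Continuous (cv k f) := (cv_smooth h hf.locallyIntegrable).continuous
  have haf : Continuous fun y => a y * f y := ha.mul hf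
  have hcf : HasCompactSupport fun y => a y * f y := hc.mul_left
  constructor
  · calc _ ≤ ∫ x in C, M ^ 2 * ‖cv k f x‖ ^ 2 :=
          setIntegral_mono_on (((ha.mul hv).norm.pow 2).continuousOn.integrableOn_compact hC)
            ((continuous_const.mul (hv.norm.pow 2)).continuousOn.integrableOn_compact hC)
            hC.measurableSet fun x _ => hp x _
      _ ≤ _ := by
          rw [integral_const_mul]
          exact mul_le_mul_of_nonneg_left (cv_l2 h hf hc hC) (sq_nonneg _)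
  · refine (cv_l2 h haf hcf hC).trans ?_
    rw [← integral_const_mul]
    exact integral_mono (secv_sq haf hcf) ((secv_sq hf hc).const_mul _) fun x => hp x _

theorem secv_nd {a : E N → ℂ} (ha : Tst univ a) (A : ℝ) : ∃ B : ℝ, 0 ≤ B ∧ ∀ (d : ℝ)
    (k : E N → ℝ) (f : E N → ℂ) (j : Fin N) (C : Set (E N)), Ker d A k → Tst univ f →
      IsCompact C → ∫ x in C, ‖a x * dz j (cv k f) x - cv k (fun y => a y * dz j f y) x‖ ^ 2 ≤
        B * ∫ x, ‖f x‖ ^ 2 := by
  obtain ⟨B, hB, h1⟩ := cm_l2 ha A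
  obtain ⟨M, -, hM⟩ := abmol2_bd ha
  refine ⟨3 * (B + M ^ 2 + M ^ 2), by positivity, fun d k f j C h hf hC => ?_⟩
  have ta := (ha.dz_tst j).1
  have tf := (hf.dz_tst j).1
  have t1 := abmol2_mul ta hf
  have t2 := abmol2_mul ha tf
  obtain ⟨h2, h3⟩ := secv_zero ta.smooth.continuous
    (fun x => (dz_norm_le a x j).1.trans (hM x)) h hf.smooth.continuous hf.cpt hC
  have e : ∀ x, a x * dz j (cv k f) x - cv k (fun y => a y * dz j f y) x =
      cm k a f j x - dz j a x * cv k f x + cv k (fun y => dz j a y * f y) x := fun x => by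
    have e1 : (dz j fun y => a y * f y) = fun y => dz j a y * f y + a y * dz j f y :=
      funext fun y => (dz_mul (abmol2_diff ha.smooth y) (abmol2_diff hf.smooth y) j).1
    rw [cm, (dz_mul (abmol2_diff ha.smooth x) (abmol2_diff (abmol2_cv h hf) x) j).1,
      (dz_cv h (abmol2_mul ha hf) j x).1, e1, cv_add h t1.smooth.continuous t2.smooth.continuous]
    ring
  have c1 := cm_cont h ha hf j
  have c2 : Continuous fun x => dz j a x * cv k f x :=
    ta.smooth.continuous.mul (abmol2_cv h hf).continuous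
  have c3 := (abmol2_cv h t1).continuous
  have i1 : IntegrableOn (fun x => ‖cm k a f j x‖ ^ 2) C :=
    (c1.norm.pow 2).continuousOn.integrableOn_compact hC
  have i2 : IntegrableOn (fun x => ‖dz j a x * cv k f x‖ ^ 2) C :=
    (c2.norm.pow 2).continuousOn.integrableOn_compact hC
  have i3 : IntegrableOn (fun x => ‖cv k (fun y => dz j a y * f y) x‖ ^ 2) C :=
    (c3.norm.pow 2).continuousOn.integrableOn_compact hC
  have i4 : IntegrableOn (fun x => ‖cm k a f j x‖ ^ 2 + ‖dz j a x * cv k f x‖ ^ 2) C := i1.add i2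
  have i5 : IntegrableOn (fun x => ‖cm k a f j x‖ ^ 2 + ‖dz j a x * cv k f x‖ ^ 2 +
      ‖cv k (fun y => dz j a y * f y) x‖ ^ 2) C := i4.add i3
  simp only [e]
  calc _ ≤ ∫ x in C, 3 * (‖cm k a f j x‖ ^ 2 + ‖dz j a x * cv k f x‖ ^ 2 +
          ‖cv k (fun y => dz j a y * f y) x‖ ^ 2) := by
        refine setIntegral_mono_on
          ((((c1.sub c2).add c3).norm.pow 2).continuousOn.integrableOn_compact hC)
          (i5.const_mul 3) hC.measurableSet fun x _ => ?_
        refine (pow_le_pow_left₀ (norm_nonneg _) ((norm_add_le _ _).trans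
          (add_le_add (norm_sub_le _ _) le_rfl)) 2).trans ?_
        generalize ‖cm k a f j x‖ = p, ‖dz j a x * cv k f x‖ = q,
          ‖cv k (fun y => dz j a y * f y) x‖ = r
        nlinarith [sq_nonneg (p - q), sq_nonneg (p - r), sq_nonneg (q - r)]
    _ ≤ _ := by
        rw [integral_const_mul, integral_add i4 i3, integral_add i1 i2]
        linarith [h1 d k f j C h hf hC]

theorem secv_star {a : E N → ℂ} (ha : Tst univ a) : Tst univ fun y => star (a y) :=
  ⟨Complex.conjCLE.contDiff.comp ha.smooth, ha.cpt.comp_left (g := star) (star_zero ℂ),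
    subset_univ _⟩

theorem secv_cv_star (k : E N → ℝ) (f : E N → ℂ) (x : E N) :
    star (cv k f x) = cv k (fun y => star (f y)) x := by
  rw [cv, cv, Complex.star_def, ← integral_conj]
  simp

/-- The Friedrichs commutators in non-divergence form. -/
theorem cm_nd {a : E N → ℂ} (ha : Tst univ a) (A : ℝ) : ∃ B : ℝ, 0 ≤ B ∧ ∀ (d : ℝ) (k : E N → ℝ)
    (f : E N → ℂ) (j : Fin N) (C : Set (E N)), Ker d A k → Tst univ f → IsCompact C →
      ∫ x in C, ‖a x * dz j (cv k f) x - cv k (fun y => a y * dz j f y) x‖ ^ 2 ≤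
        B * ∫ x, ‖f x‖ ^ 2 ∧
      ∫ x in C, ‖a x * dzb j (cv k f) x - cv k (fun y => a y * dzb j f y) x‖ ^ 2 ≤
        B * ∫ x, ‖f x‖ ^ 2 := by
  obtain ⟨B, hB, h1⟩ := secv_nd ha A
  obtain ⟨B', hB', h2⟩ := secv_nd (secv_star ha) A
  refine ⟨B + B', by positivity, fun d k f j C h hf hC => ?_⟩
  have h0 : 0 ≤ ∫ x, ‖f x‖ ^ 2 := integral_nonneg fun _ => by positivity
  have h3 := h2 d k _ j C h (secv_star hf) hC
  have e : ∀ x, ‖a x * dzb j (cv k f) x - cv k (fun y => a y * dzb j f y) x‖ =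
      ‖star (a x) * dz j (cv k fun y => star (f y)) x -
        cv k (fun y => star (a y) * dz j (fun y => star (f y)) y) x‖ := fun x => by
    rw [← norm_star, star_sub, star_mul', (star_dz _ _ _).2, secv_cv_star]
    simp only [secv_cv_star, star_mul', (star_dz _ _ _).2]
  simp only [norm_star] at h3
  simp only [e]
  constructor
  · nlinarith [h1 d k f j C h hf hC, mul_nonneg hB' h0]
  · nlinarith [mul_nonneg hB h0]

theorem cm_zero {a : E N → ℂ} (ha : Tst univ a) : ∃ B : ℝ, 0 ≤ B ∧ ∀ (d A : ℝ) (k : E N → ℝ)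
    (f : E N → ℂ) (C : Set (E N)), Ker d A k → Tst univ f → IsCompact C →
      ∫ x in C, ‖a x * cv k f x‖ ^ 2 ≤ B * ∫ x, ‖f x‖ ^ 2 ∧
      ∫ x in C, ‖cv k (fun y => a y * f y) x‖ ^ 2 ≤ B * ∫ x, ‖f x‖ ^ 2 := by
  obtain ⟨M, hM⟩ := ha.smooth.continuous.bounded_above_of_compact_support ha.cpt
  exact ⟨M ^ 2, sq_nonneg _, fun d A k f C h hf hC =>
    secv_zero ha.smooth.continuous hM h hf.smooth.continuous hf.cpt hC⟩

variable [Fintype ρ] {f g : E N → ρ → ℂ}

theorem cvv_tst {d₀ : ℝ} (h : Ker d A k) (hf : Tst W f) (hC : IsCompact C) (hs : tsupport f ⊆ C)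
    (hd : d ≤ d₀) (hW : cthickening d₀ C ⊆ W) :
    Tst W (cvv k f) ∧ tsupport (cvv k f) ⊆ cthickening d₀ C := by
  have h1 : tsupport (cvv k f) ⊆ cthickening d₀ C := by
    refine closure_minimal (fun x hx => by_contra fun hx' => hx ?_) isClosed_cthickening
    funext r
    have h2 : ∀ y ∈ ball x d, f y r = (fun _ => (0 : ℂ)) y := fun y hy => by
      have h3 : y ∉ tsupport f := fun h3 => hx' (mem_cthickening_of_dist_le x y _ _ (hs h3)
        (by rw [dist_comm]; exact (mem_ball.1 hy).le.trans hd))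
      rw [image_eq_zero_of_notMem_tsupport h3]
      rfl
    rw [cvv, cv_local h h2]
    simp [cv]
  refine ⟨⟨contDiff_pi.2 fun r => cv_smooth h ?_, hC.cthickening.of_isClosed_subset
    (isClosed_tsupport _) h1, h1.trans hW⟩, h1⟩
  exact ((continuous_apply r).comp hf.smooth.continuous).locallyIntegrable

omit [Fintype ρ] in
theorem cvv_add (h : Ker d A k) (hf : Continuous f) (hg : Continuous g) (x : E N) :
    cvv k (fun y => f y + g y) x = cvv k f x + cvv k g x := by
  funext r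
  exact cv_add h ((continuous_apply r).comp hf) ((continuous_apply r).comp hg) x

omit [Fintype ρ] in
theorem cvv_smul (k : E N → ℝ) (f : E N → ρ → ℂ) (t : ℂ) (x : E N) :
    cvv k (fun y => t • f y) x = t • cvv k f x := by
  funext r
  exact abmol1_cmul k t (fun y => f y r) x

theorem cvv_l2 (h : Ker d A k) (hf : Tst univ f) (hC : IsCompact C) :
    ∫ x in C, ‖cvv k f x‖ ^ 2 ≤ Fintype.card ρ * ∫ x, ‖f x‖ ^ 2 := by
  have hi := secv_sq hf.smooth.continuous hf.cpt
  have t : ∀ r, Tst univ fun y => f y r := fun r => (tst_comp hf r).1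
  have c : ∀ r, Continuous (cv k fun y => f y r) := fun r => (abmol2_cv h (t r)).continuous
  have i : ∀ r, IntegrableOn (fun x => ‖cv k (fun y => f y r) x‖ ^ 2) C := fun r =>
    ((c r).norm.pow 2).continuousOn.integrableOn_compact hC
  have cc : Continuous (cvv k f) := continuous_pi c
  calc _ ≤ ∫ x in C, ∑ r, ‖cv k (fun y => f y r) x‖ ^ 2 :=
        setIntegral_mono_on ((cc.norm.pow 2).continuousOn.integrableOn_compact hC)
          (integrable_finsetSum _ fun r _ => i r) hC.measurableSet fun x _ => norm_sq_le_sum _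
    _ ≤ ∑ _r : ρ, ∫ x, ‖f x‖ ^ 2 := by
        rw [integral_finsetSum _ fun r _ => i r]
        refine Finset.sum_le_sum fun r _ =>
          (cv_l2 h (t r).smooth.continuous (t r).cpt hC).trans ?_
        exact integral_mono (secv_sq (t r).smooth.continuous (t r).cpt) hi fun x =>
          pow_le_pow_left₀ (norm_nonneg _) (norm_le_pi_norm (f x) r) 2
    _ = _ := by simp

theorem cvv_unif (hf : Tst univ f) {γ : ℝ} (hγ : 0 < γ) :
    ∃ d₀ : ℝ, 0 < d₀ ∧ ∀ (d A : ℝ) (k : E N → ℝ), d ≤ d₀ → Ker d A k → ∀ x,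
      ‖cvv k f x - f x‖ ≤ γ ∧ ∀ l, ‖dzv l (cvv k f) x - dzv l f x‖ ≤ γ ∧
        ‖dbv l (cvv k f) x - dbv l f x‖ ≤ γ := by
  have h0 : ∀ {u : E N → ℂ}, Tst univ u → ∀ᶠ d₀ in 𝓝[>] (0 : ℝ), ∀ (d A : ℝ) (k : E N → ℝ),
      d ≤ d₀ → Ker d A k → ∀ x, ‖cv k u x - u x‖ ≤ γ := fun hu => by
    obtain ⟨d1, p1, h1⟩ := cv_unif hu.smooth.continuous hu.cpt hγ
    filter_upwards [Ioc_mem_nhdsGT p1] with d0 h0 d A k hd using h1 d A k (hd.trans h0.2)
  have t : ∀ r, Tst univ fun y => f y r := fun r => (tst_comp hf r).1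
  have h1 := eventually_all.2 fun r => (h0 (t r)).and (eventually_all.2 fun l : Fin N =>
    (h0 ((t r).dz_tst l).1).and (h0 ((t r).dz_tst l).2))
  obtain ⟨d0, h2, h3⟩ := (h1.and self_mem_nhdsWithin).exists
  refine ⟨d0, h3, fun d A k hd h x => ⟨?_, fun l => ⟨?_, ?_⟩⟩⟩
  · exact (pi_norm_le_iff_of_nonneg hγ.le).2 fun r => (h2 r).1 d A k hd h x
  · refine (pi_norm_le_iff_of_nonneg hγ.le).2 fun r => ?_
    have := ((h2 r).2 l).1 d A k hd h x
    rwa [← (dz_cv h (t r) l x).1] at this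
  · refine (pi_norm_le_iff_of_nonneg hγ.le).2 fun r => ?_
    have := ((h2 r).2 l).2 d A k hd h x
    rwa [← (dz_cv h (t r) l x).2] at this


end Pool.Agent.SE
end

-- part Pool.Agent.P.MP_63735c_ag.SECm
section

/-! The Friedrichs commutator of a first order operator. -/

open scoped ComplexOrder ContDiff Matrix Topology ENNReal InnerProductSpace
open Set Metric MeasureTheory Filter

namespace Pool.Agent.SE

open Pool.Agent.SPF Pool.Agent.AB

variable {N : ℕ} {ρ : Type} [Fintype ρ] {W C : Set (E N)} {a b : Fin N → E N → Matrix ρ ρ ℂ}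
  {c : E N → Matrix ρ ρ ℂ}

section
variable {F : Type} [NormedAddCommGroup F] {A : ℝ} {T T' : (E N → ℝ) → (E N → ρ → ℂ) → E N → F}

/-- Operators with a bound that is uniform in the kernel. -/
def secmOB (A : ℝ) (T : (E N → ℝ) → (E N → ρ → ℂ) → E N → F) : Prop :=
  ∃ B : ℝ, 0 ≤ B ∧ ∀ (d : ℝ) (k : E N → ℝ) (f : E N → ρ → ℂ) (C : Set (E N)), Ker d A k →
    Tst univ f → IsCompact C →
      Continuous (T k f) ∧ ∫ x in C, ‖T k f x‖ ^ 2 ≤ B * ∫ x, ‖f x‖ ^ 2

theorem secm_int {u : E N → F} (hC : IsCompact C) (hu : ContinuousOn u C) :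
    IntegrableOn (fun x => ‖u x‖ ^ 2) C volume :=
  (hu.norm.pow 2).integrableOn_compact hC

theorem secm_add {u v : E N → F} (hC : IsCompact C) (hu : Continuous u) (hv : Continuous v) :
    ∫ x in C, ‖u x + v x‖ ^ 2 ≤ 2 * (∫ x in C, ‖u x‖ ^ 2) + 2 * ∫ x in C, ‖v x‖ ^ 2 := by
  have h1 := (secm_int hC hu.continuousOn).const_mul 2
  have h2 := (secm_int hC hv.continuousOn).const_mul 2
  rw [← integral_const_mul, ← integral_const_mul, ← integral_add h1 h2]
  refine integral_mono (secm_int hC (hu.add hv).continuousOn) (h1.add h2) fun x => ?_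
  have h3 := pow_le_pow_left₀ (norm_nonneg _) (norm_add_le (u x) (v x)) 2
  have h4 := sq_nonneg (‖u x‖ - ‖v x‖)
  show ‖u x + v x‖ ^ 2 ≤ 2 * ‖u x‖ ^ 2 + 2 * ‖v x‖ ^ 2
  nlinarith

theorem secm_supp {F' : Type} [NormedAddCommGroup F'] {u : E N → F} {v : E N → F'} {M : ℝ}
    (hC : IsCompact C) (hu : Continuous u) (hv : ContinuousOn v C) (h0 : ∀ x ∉ C, u x = 0)
    (h : ∀ x ∈ C, ‖u x‖ ≤ M * ‖v x‖) : ∫ x, ‖u x‖ ^ 2 ≤ M ^ 2 * ∫ x in C, ‖v x‖ ^ 2 := by
  rw [← setIntegral_eq_integral_of_forall_compl_eq_zero (s := C) (fun x hx => by simp [h0 x hx]),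
    ← integral_const_mul]
  refine setIntegral_mono_on (secm_int hC hu.continuousOn) ((secm_int hC hv).const_mul _)
    hC.measurableSet fun x hx => ?_
  rw [← mul_pow]
  exact pow_le_pow_left₀ (norm_nonneg _) (h x hx) 2

theorem secmOB.add (h : secmOB A T) (h' : secmOB A T') :
    secmOB A fun k f x => T k f x + T' k f x := by
  obtain ⟨B, hB, h⟩ := h
  obtain ⟨B', hB', h'⟩ := h'
  refine ⟨2 * B + 2 * B', by positivity, fun d k f C hk hf hC => ?_⟩
  obtain ⟨c1, b1⟩ := h d k f C hk hf hC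
  obtain ⟨c2, b2⟩ := h' d k f C hk hf hC
  exact ⟨c1.add c2, (secm_add hC c1 c2).trans (by linarith)⟩

theorem secmOB.neg (h : secmOB A T) : secmOB A fun k f x => -T k f x := by
  obtain ⟨B, hB, h⟩ := h
  refine ⟨B, hB, fun d k f C hk hf hC => ⟨(h d k f C hk hf hC).1.neg, ?_⟩⟩
  simpa only [norm_neg] using (h d k f C hk hf hC).2

theorem secmOB.sum {κ : Type} (s : Finset κ) {S : κ → (E N → ℝ) → (E N → ρ → ℂ) → E N → F}
    (h : ∀ i, secmOB A (S i)) : secmOB A fun k f x => ∑ i ∈ s, S i k f x := by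
  classical
  induction s using Finset.induction_on with
  | empty => exact ⟨0, le_rfl, fun _ _ _ _ _ _ _ => ⟨continuous_const, by simp⟩⟩
  | insert i s hi ih => simpa only [Finset.sum_insert hi] using (h i).add ih

theorem secmOB.congr (h : secmOB A T)
    (e : ∀ d k f, Ker d A k → Tst univ f → ∀ x, T' k f x = T k f x) : secmOB A T' := by
  obtain ⟨B, hB, h⟩ := h
  refine ⟨B, hB, fun d k f C hk hf hC => ?_⟩
  rw [show T' k f = T k f from funext (e d k f hk hf)]
  exact h d k f C hk hf hC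

theorem secmOB.pi {T : (E N → ℝ) → (E N → ρ → ℂ) → E N → ρ → ℂ}
    (h : ∀ r, secmOB A fun k f x => T k f x r) : secmOB A T := by
  choose B hB h using h
  refine ⟨∑ r, B r, Finset.sum_nonneg fun r _ => hB r, fun d k f C hk hf hC => ?_⟩
  have h1 := fun r => (h r d k f C hk hf hC).1
  have h2 := fun r (_ : r ∈ Finset.univ) => secm_int hC (h1 r).continuousOn
  refine ⟨continuous_pi h1, ?_⟩
  rw [Finset.sum_mul]
  refine le_trans ?_ (Finset.sum_le_sum fun r _ => (h r d k f C hk hf hC).2)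
  rw [← integral_finsetSum _ h2]
  exact integral_mono (secm_int hC (continuous_pi h1).continuousOn) (integrable_finsetSum _ h2)
    fun x => norm_sq_le_sum _

theorem secm_comp {S : (E N → ℝ) → (E N → ℂ) → E N → F} {B : ℝ} (hB : 0 ≤ B) (s : ρ)
    (h : ∀ (d : ℝ) (k : E N → ℝ) (f : E N → ℂ) (C : Set (E N)), Ker d A k → Tst univ f →
      IsCompact C → Continuous (S k f) ∧ ∫ x in C, ‖S k f x‖ ^ 2 ≤ B * ∫ x, ‖f x‖ ^ 2) :
    secmOB A fun k (f : E N → ρ → ℂ) => S k fun y => f y s := by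
  refine ⟨B, hB, fun d k f C hk hf hC => ?_⟩
  obtain ⟨h1, h2⟩ := h d k _ C hk (tst_comp hf s).1 hC
  have h3 : Integrable fun x => ‖f x‖ ^ 2 :=
    (integrableOn_iff_integrable_of_support_subset fun x hx => subset_tsupport f fun e =>
      hx (by simp [e])).1 (secm_int hf.cpt hf.smooth.continuous.continuousOn)
  have h4 : ∫ x, ‖f x s‖ ^ 2 ≤ ∫ x, ‖f x‖ ^ 2 :=
    integral_mono_of_nonneg (Eventually.of_forall fun x => sq_nonneg _) h3
      (Eventually.of_forall fun x => pow_le_pow_left₀ (norm_nonneg _) (norm_le_pi_norm (f x) s) 2)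
  exact ⟨h1, h2.trans (mul_le_mul_of_nonneg_left h4 hB)⟩

end

theorem secm_ob (ha : ∀ l r s, Tst univ fun z => a l z r s)
    (hb : ∀ l r s, Tst univ fun z => b l z r s) (hc : ∀ r s, Tst univ fun z => c z r s) (A : ℝ) :
    secmOB A fun k f x => op a b c (cvv k f) x - cvv k (op a b c f) x := by
  have ct : ∀ {g : E N → ℂ}, Tst univ g → Continuous g := fun h => h.smooth.continuous
  have h1 : ∀ {g : E N → ℂ}, Tst univ g → ∀ (l : Fin N) (s : ρ),
      secmOB A (fun k (f : E N → ρ → ℂ) x => g x * dz l (cv k fun y => f y s) x -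
        cv k (fun y => g y * dz l (fun y => f y s) y) x) ∧
      secmOB A (fun k (f : E N → ρ → ℂ) x => g x * dzb l (cv k fun y => f y s) x -
        cv k (fun y => g y * dzb l (fun y => f y s) y) x) := fun {g} hg l s => by
    obtain ⟨B, hB, h⟩ := cm_nd hg A
    refine ⟨secm_comp (S := fun k f x => g x * dz l (cv k f) x -
        cv k (fun y => g y * dz l f y) x) hB s fun d k f C hk hf hC => ⟨?_, (h d k f l C hk hf hC).1⟩,
      secm_comp (S := fun k f x => g x * dzb l (cv k f) x -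
        cv k (fun y => g y * dzb l f y) x) hB s fun d k f C hk hf hC =>
          ⟨?_, (h d k f l C hk hf hC).2⟩⟩
    · exact ((ct hg).mul (contDiffOn_univ.1 (dz_smooth isOpen_univ
        (abmol2_cv hk hf).contDiffOn l).1).continuous).sub
        (abmol2_cv hk (abmol2_mul hg (hf.dz_tst l).1)).continuous
    · exact ((ct hg).mul (contDiffOn_univ.1 (dz_smooth isOpen_univ
        (abmol2_cv hk hf).contDiffOn l).2).continuous).sub
        (abmol2_cv hk (abmol2_mul hg (hf.dz_tst l).2)).continuous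
  have h2 : ∀ {g : E N → ℂ}, Tst univ g → ∀ s : ρ,
      secmOB A (fun k (f : E N → ρ → ℂ) x => g x * cv k (fun y => f y s) x +
        -cv k (fun y => g y * f y s) x) := fun {g} hg s => by
    obtain ⟨B, hB, h⟩ := cm_zero hg
    exact (secm_comp (S := fun k f x => g x * cv k f x) hB s fun d k f C hk hf hC =>
      ⟨(ct hg).mul (abmol2_cv hk hf).continuous, (h d A k f C hk hf hC).1⟩).add
      (secm_comp (S := fun k f x => cv k (fun y => g y * f y) x) hB s fun d k f C hk hf hC =>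
        ⟨(abmol2_cv hk (abmol2_mul hg hf)).continuous, (h d A k f C hk hf hC).2⟩).neg
  refine secmOB.pi fun r => ((secmOB.sum Finset.univ fun l =>
    (secmOB.sum Finset.univ fun s => (h1 (ha l r s) l s).1).add
      (secmOB.sum Finset.univ fun s => (h1 (hb l r s) l s).2)).add
    (secmOB.sum Finset.univ fun s => h2 (hc r s) s)).congr fun d k f hk hf x => ?_
  have c1 := fun l s => (ct (ha l r s)).mul (ct ((tst_comp hf s).1.dz_tst l).1)
  have c2 := fun l s => (ct (hb l r s)).mul (ct ((tst_comp hf s).1.dz_tst l).2)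
  have c3 := fun s => (ct (hc r s)).mul (ct (tst_comp hf s).1)
  have s1 := fun l => continuous_finsetSum Finset.univ fun s _ => c1 l s
  have s2 := fun l => continuous_finsetSum Finset.univ fun s _ => c2 l s
  simp only [op, cvv, dzv, dbv, Matrix.mulVec, dotProduct, Pi.sub_apply, Pi.add_apply,
    Finset.sum_apply]
  erw [cv_add hk (continuous_finsetSum Finset.univ fun l _ => (s1 l).add (s2 l))
      (continuous_finsetSum Finset.univ fun s _ => c3 s),
    cv_sum _ hk fun l _ => (s1 l).add (s2 l), cv_sum _ hk fun s _ => c3 s,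
    Finset.sum_congr rfl fun l _ => (cv_add hk (s1 l) (s2 l) x).trans
      (congrArg₂ (· + ·) (cv_sum _ hk (fun s _ => c1 l s) x) (cv_sum _ hk (fun s _ => c2 l s) x))]
  simp only [Finset.sum_add_distrib, Finset.sum_sub_distrib, Finset.sum_neg_distrib, Pi.mul_def]
  ring

/-- The case of compactly supported coefficients. -/
theorem op_cm0 (ha : ∀ l r s, Tst univ fun z => a l z r s)
    (hb : ∀ l r s, Tst univ fun z => b l z r s) (hc : ∀ r s, Tst univ fun z => c z r s) (A : ℝ) :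
    ∃ B : ℝ, 0 ≤ B ∧ ∀ (d : ℝ) (k : E N → ℝ) (f : E N → ρ → ℂ) (C : Set (E N)), Ker d A k →
      Tst univ f → IsCompact C →
        ∫ x in C, ‖op a b c (cvv k f) x - cvv k (op a b c f) x‖ ^ 2 ≤ B * ∫ x, ‖f x‖ ^ 2 := by
  obtain ⟨B, hB, h⟩ := secm_ob ha hb hc A
  exact ⟨B, hB, fun d k f C hk hf hC => (h d k f C hk hf hC).2⟩

theorem op_cm {τ : E N → ℝ} (hW : IsOpen W) (ha : ∀ l, SmM W (a l)) (hb : ∀ l, SmM W (b l))
    (hc : SmM W c) (hτ : Tst W τ) (hC : IsCompact C) (h : C ⊆ W) (A : ℝ) :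
    ∃ B : ℝ, 0 ≤ B ∧ ∀ (d : ℝ) (k : E N → ℝ) (f : E N → ρ → ℂ), Ker d A k → ContDiffOn ℝ ∞ f W →
      ∫ x in C, ‖op a b c (cvv k fun y => τ y • f y) x -
        cvv k (fun y => τ y • op a b c f y) x‖ ^ 2 ≤ B * ∫ x in tsupport τ, ‖f x‖ ^ 2 := by
  have hK : IsCompact (tsupport τ) := hτ.cpt
  obtain ⟨χ, e, hχ, -, he, h1⟩ := exists_bump hW (hC.union hK) (union_subset h hτ.sub)
  have t : ∀ {m : E N → Matrix ρ ρ ℂ}, SmM W m → ∀ r s, Tst univ fun z => (χ z • m z) r s :=
    fun hm r s => tst_mono (tst_smul hW hχ (hm r s)).1 (subset_univ _)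
  obtain ⟨B, hB, H⟩ := secm_ob (a := fun l z => χ z • a l z) (b := fun l z => χ z • b l z)
    (c := fun z => χ z • c z) (fun l => t (ha l)) (fun l => t (hb l)) (t hc) A
  have hop : ∀ g, ∀ x ∈ C ∪ tsupport τ, op (fun l z => χ z • a l z) (fun l z => χ z • b l z)
      (fun z => χ z • c z) g x = op a b c g x := fun g x hx => by
    simp only [op, h1 x hx x (mem_ball_self he), one_smul]
  have hτc := ofReal_smooth (hτ.smooth.contDiffOn (s := W))
  obtain ⟨S, hS⟩ : ∃ S : E N → Matrix ρ ρ ℂ, S = fun z => ∑ l, (dz l (fun y => (τ y : ℂ)) z • a l z +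
    dzb l (fun y => (τ y : ℂ)) z • b l z) := ⟨_, rfl⟩
  have hSs : SmM W S := hS ▸ SmM.sum _ fun l _ =>
    (SmM.smul (dz_smooth hW hτc l).1 (ha l)).add (SmM.smul (dz_smooth hW hτc l).2 (hb l))
  have hS0 : ∀ y ∉ tsupport τ, S y = 0 := fun y hy => by
    have := fun l => dz_zero_off (f := fun y => (τ y : ℂ)) isOpen_univ (isClosed_tsupport τ)
      (fun z _ hz => by simp [image_eq_zero_of_notMem_tsupport hz]) l y trivial hy
    simp only [hS, (this _).1, (this _).2, zero_smul, add_zero, Finset.sum_const_zero]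
  obtain ⟨M, -, hM⟩ := hp_upper hK fun r s => (hSs r s).continuousOn.mono hτ.sub
  obtain ⟨L, hL⟩ := hτ.smooth.continuous.bounded_above_of_compact_support hτ.cpt
  refine ⟨2 * (B * L ^ 2) + 2 * (Fintype.card ρ * M ^ 2), by positivity, fun d k f hk hf => ?_⟩
  have hF := tst_mono (tst_smul hW hτ hf).1 (subset_univ _)
  have hO := (tst_smul hW hτ (op_smooth hW ha hb hc hf)).1
  have hG : Tst univ fun y => S y *ᵥ f y := by
    have e1 : (fun y => S y *ᵥ f y) = fun y => χ y • S y *ᵥ f y := funext fun y => by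
      by_cases hy : y ∈ tsupport τ
      · rw [h1 y (Or.inr hy) y (mem_ball_self he), one_smul]
      · rw [hS0 y hy, Matrix.zero_mulVec, smul_zero]
    rw [e1]
    exact tst_mono (tst_smul hW hχ (hSs.mulVec hf)).1 (subset_univ _)
  have e2 : op (fun l z => χ z • a l z) (fun l z => χ z • b l z) (fun z => χ z • c z)
      (fun y => τ y • f y) = fun y => τ y • op a b c f y + S y *ᵥ f y := funext fun y => by
    by_cases hy : y ∈ tsupport τ
    · have := op_smul (a := a) (b := b) (c := c) (diffAt hW hτc (hτ.sub hy))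
        (diffAt hW hf (hτ.sub hy))
      simp only [Complex.coe_smul] at this
      rw [hop _ y (Or.inr hy), this, hS]
    · rw [hS0 y hy, image_eq_zero_of_notMem_tsupport hy, Matrix.zero_mulVec, zero_smul, add_zero]
      refine op_zero ?_
      filter_upwards [(isClosed_tsupport τ).isOpen_compl.mem_nhds hy] with z hz
      rw [image_eq_zero_of_notMem_tsupport hz, zero_smul]
  obtain ⟨c1, b1⟩ := H d k _ C hk hF hC
  have c2 : Continuous (cvv k fun y => S y *ᵥ f y) :=
    continuous_pi fun r => (abmol2_cv hk (tst_comp hG r).1).continuous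
  have b2 := cvv_l2 hk hG hC
  have hfK := hf.continuousOn.mono hτ.sub
  have b3 := secm_supp (M := L) hK hF.smooth.continuous hfK
    (fun x hx => by rw [image_eq_zero_of_notMem_tsupport hx, zero_smul])
    (fun x _ => by rw [norm_smul]; exact mul_le_mul_of_nonneg_right (hL x) (norm_nonneg _))
  have b4 := secm_supp hK hG.smooth.continuous hfK
    (fun x hx => by rw [hS0 x hx, Matrix.zero_mulVec]) (fun x hx => (hM x hx _ 0).1)
  have b5 := mul_le_mul_of_nonneg_left b3 hB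
  have b6 := mul_le_mul_of_nonneg_left b4 (Nat.cast_nonneg (α := ℝ) (Fintype.card ρ))
  refine le_of_eq_of_le (setIntegral_congr_fun hC.measurableSet fun x hx => ?_)
    ((secm_add hC c1 c2).trans (by linarith))
  simp only
  rw [hop _ x (Or.inl hx), e2, cvv_add hk hO.smooth.continuous hG.smooth.continuous,
    sub_add_eq_sub_sub, sub_add_cancel]


end Pool.Agent.SE
end

-- part Pool.Agent.P.MP_63735c_ag.SERp
section

/-! The smoothing operator of one chart. -/

open scoped ComplexOrder ContDiff Matrix Topology ENNReal InnerProductSpace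
open Set Metric MeasureTheory Filter

namespace Pool.Agent.SE

open Pool.Agent.SPF Pool.Agent.AB

variable {N : ℕ} {ρ Y : Type} [Fintype ρ] [DecidableEq ρ] [TopologicalSpace Y] [MeasurableSpace Y]
  [CompactSpace Y] [T2Space Y] [BorelSpace Y] {B : Bun Y N ρ}
  {i : B.ι} {τ : E N → ℝ} {d d₀ A : ℝ} {k : E N → ℝ} {D : B.Sec →ₗ[ℂ] B.Sec}

theorem serp_sq {x y T : ℝ} (hT : 0 ≤ T) (hy : 0 ≤ y) (h : x ^ 2 ≤ T * y ^ 2) : x ≤ √T * y := by
  have h1 := Real.le_sqrt_of_sq_le h
  rwa [Real.sqrt_mul hT, Real.sqrt_sq hy] at h1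

theorem serp_tend {X : Type} [NormedAddCommGroup X] {u : ℕ → X} {x : X} {T : ℝ} (hT : 0 < T)
    (h : ∀ γ : ℝ, 0 < γ → ∀ᶠ n in atTop, ‖u n - x‖ ≤ T * γ) : Tendsto u atTop (𝓝 x) := by
  refine Metric.tendsto_nhds.2 fun ε hε => (h (ε / 2 / T) (by positivity)).mono fun n hn => ?_
  rw [mul_div_cancel₀ _ hT.ne'] at hn
  rw [dist_eq_norm]
  linarith

namespace Bun

omit [CompactSpace Y] [T2Space Y] [BorelSpace Y] in
variable (B) in
/-- Cut off, mollify, extend. -/
noncomputable def Rp (i : B.ι) (τ k : E N → ℝ) (V : B.Sec) : B.Sec :=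
  B.ex i (cvv k fun y => τ y • V.v i y)

section
variable (hτ : Tst (B.W i) τ) (hd : cthickening d₀ (tsupport τ) ⊆ B.W i)
include hτ hd

theorem Rp_tst (hk : Ker d A k) (hle : d ≤ d₀) (V : B.Sec) :
    Tst (B.W i) (cvv k fun y => τ y • V.v i y) ∧
      B.Supp (B.Rp i τ k V) i (cthickening d₀ (tsupport τ)) := by
  have h1 := tst_smul (B.isOpen i) hτ (V.smooth i)
  have h2 := cvv_tst hk h1.1 hτ.cpt h1.2 hle hd
  exact ⟨h2.1, ex_supp h2.1 h2.2⟩

theorem Rp_add (hk : Ker d A k) (hle : d ≤ d₀) (V V' : B.Sec) :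
    B.Rp i τ k (V + V') = B.Rp i τ k V + B.Rp i τ k V' := by
  have e : (cvv k fun y => τ y • (V + V').v i y) =
      fun x => cvv k (fun y => τ y • V.v i y) x + cvv k (fun y => τ y • V'.v i y) x := by
    funext x
    rw [← cvv_add hk (tst_smul (B.isOpen i) hτ (V.smooth i)).1.smooth.continuous
      (tst_smul (B.isOpen i) hτ (V'.smooth i)).1.smooth.continuous]
    simp only [v_add, smul_add]
  rw [Rp, e]
  exact ex_add (Rp_tst hτ hd hk hle V).1 (Rp_tst hτ hd hk hle V').1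

theorem Rp_smul (hk : Ker d A k) (hle : d ≤ d₀) (t : ℂ) (V : B.Sec) :
    B.Rp i τ k (t • V) = t • B.Rp i τ k V := by
  have e : (cvv k fun y => τ y • (t • V).v i y) =
      fun x => t • cvv k (fun y => τ y • V.v i y) x := by
    funext x
    rw [← cvv_smul]
    simp only [v_smul, smul_comm t]
  rw [Rp, e]
  exact ex_smul (Rp_tst hτ hd hk hle V).1 t

theorem Rp_bdd : ∃ C : ℝ, 0 ≤ C ∧ ∀ (d A : ℝ) (k : E N → ℝ) (V : B.Sec), Ker d A k → d ≤ d₀ →
    ‖B.Rp i τ k V‖ ≤ C * ‖V‖ := by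
  have hK : IsCompact (tsupport τ) := hτ.cpt
  have hC : IsCompact (cthickening d₀ (tsupport τ)) := hK.cthickening
  obtain ⟨A₁, p1, h1⟩ := upper hC hd
  obtain ⟨A₂, p2, h2⟩ := lower hK hτ.sub
  obtain ⟨M, hM⟩ := hτ.smooth.continuous.bounded_above_of_compact_support hτ.cpt
  refine ⟨√(A₁ * (Fintype.card ρ * (M ^ 2 * A₂))), Real.sqrt_nonneg _, fun d A k V hk hle => ?_⟩
  refine serp_sq (by positivity) (norm_nonneg _) ?_
  have hf := tst_smul (B.isOpen i) hτ (V.smooth i)
  have hR := Rp_tst hτ hd hk hle V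
  have e1 : ∫ z in cthickening d₀ (tsupport τ), ‖(B.Rp i τ k V).v i z‖ ^ 2 =
      ∫ z in cthickening d₀ (tsupport τ), ‖cvv k (fun y => τ y • V.v i y) z‖ ^ 2 :=
    setIntegral_congr_fun hC.measurableSet fun z hz => by
      simp only [Rp, ex_self hR.1 (hd hz)]
  have e2 : ∫ z in tsupport τ, ‖τ z • V.v i z‖ ^ 2 = ∫ z, ‖τ z • V.v i z‖ ^ 2 :=
    setIntegral_eq_integral_of_forall_compl_eq_zero fun z hz => by
      simp [image_eq_zero_of_notMem_tsupport hz]
  have hV : ContinuousOn (fun z => ‖V.v i z‖ ^ 2) (tsupport τ) :=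
    (((V.smooth i).continuousOn.mono hτ.sub).norm).pow 2
  have e3 : ∫ z in tsupport τ, ‖τ z • V.v i z‖ ^ 2 ≤
      M ^ 2 * ∫ z in tsupport τ, ‖V.v i z‖ ^ 2 := by
    rw [← integral_const_mul]
    refine setIntegral_mono_on
      ((hf.1.smooth.continuous.norm.pow 2).continuousOn.integrableOn_compact hK)
      ((continuousOn_const.mul hV).integrableOn_compact hK) hK.measurableSet fun z _ => ?_
    rw [norm_smul, mul_pow]
    exact mul_le_mul_of_nonneg_right (pow_le_pow_left₀ (norm_nonneg _) (hM z) 2) (sq_nonneg _)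
  have e4 := cvv_l2 hk (tst_mono hf.1 (subset_univ _)) hC
  have e5 := h1 _ hR.2
  rw [e1] at e5
  rw [← e2] at e4
  calc _ ≤ _ := e5
    _ ≤ A₁ * (Fintype.card ρ * (M ^ 2 * (A₂ * ‖V‖ ^ 2))) := by
        refine mul_le_mul_of_nonneg_left (e4.trans ?_) p1.le
        refine mul_le_mul_of_nonneg_left (e3.trans ?_) (Nat.cast_nonneg _)
        exact mul_le_mul_of_nonneg_left (h2 V) (sq_nonneg _)
    _ = _ := by ring

theorem Rp_cm (hD : ∀ j, ∃ a b c, B.Loc D j a b c) (A : ℝ) :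
    ∃ C : ℝ, 0 ≤ C ∧ ∀ (d : ℝ) (k : E N → ℝ) (V : B.Sec), Ker d A k → d ≤ d₀ →
      ‖D (B.Rp i τ k V) - B.Rp i τ k (D V)‖ ≤ C * ‖V‖ := by
  have hK : IsCompact (tsupport τ) := hτ.cpt
  have hC : IsCompact (cthickening d₀ (tsupport τ)) := hK.cthickening
  obtain ⟨A₁, p1, h1⟩ := upper hC hd
  obtain ⟨A₂, p2, h2⟩ := lower hK hτ.sub
  obtain ⟨a, b, c, hL⟩ := hD i
  obtain ⟨M, p3, h3⟩ := op_cm (B.isOpen i) hL.sa hL.sb hL.sc hτ hC hd A
  refine ⟨√(A₁ * (M * A₂)), Real.sqrt_nonneg _, fun d k V hk hle => ?_⟩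
  refine serp_sq (by positivity) (norm_nonneg _) ?_
  have hR := Rp_tst hτ hd hk hle V
  have hR' := Rp_tst hτ hd hk hle (D V)
  have e0 : (fun y => τ y • (D V).v i y) = fun y => τ y • op a b c (V.v i) y := by
    funext y
    by_cases hy : y ∈ B.W i
    · rw [hL.eq V y hy]
    · rw [image_eq_zero_of_notMem_tsupport fun h => hy (hτ.sub h), zero_smul, zero_smul]
  have e1 : ∫ z in cthickening d₀ (tsupport τ),
      ‖(D (B.Rp i τ k V) - B.Rp i τ k (D V)).v i z‖ ^ 2 =
      ∫ z in cthickening d₀ (tsupport τ), ‖op a b c (cvv k fun y => τ y • V.v i y) z -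
        cvv k (fun y => τ y • op a b c (V.v i) y) z‖ ^ 2 :=
    setIntegral_congr_fun hC.measurableSet fun z hz => by
      simp only [Rp, v_sub, ex_self hR'.1 (hd hz), hL.ex_v hR.1 (hd hz)]
      rw [e0]
  have e5 := h1 _ ((hR.2.map hD hC hd).sub hR'.2)
  rw [e1] at e5
  calc _ ≤ _ := e5
    _ ≤ A₁ * (M * (A₂ * ‖V‖ ^ 2)) :=
        mul_le_mul_of_nonneg_left ((h3 d k _ hk (V.smooth i)).trans
          (mul_le_mul_of_nonneg_left (h2 V) p3)) p1.le
    _ = _ := by ring

theorem Rp_lim (hD : ∀ j, ∃ a b c, B.Loc D j a b c) {d : ℕ → ℝ} {k : ℕ → E N → ℝ}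
    (hk : ∀ n, Ker (d n) A (k n)) (hle : ∀ n, d n ≤ d₀) (h0 : Tendsto d atTop (𝓝 0)) (V : B.Sec) :
    Tendsto (fun n => B.Rp i τ (k n) V) atTop (𝓝 (B.ex i fun y => τ y • V.v i y)) ∧
      Tendsto (fun n => D (B.Rp i τ (k n) V)) atTop (𝓝 (D (B.ex i fun y => τ y • V.v i y))) := by
  have hK : IsCompact (tsupport τ) := hτ.cpt
  have hC : IsCompact (cthickening d₀ (tsupport τ)) := hK.cthickening
  obtain ⟨A₁, p1, h1⟩ := upper_sup hC hd
  obtain ⟨a, b, c, hL⟩ := hD i
  obtain ⟨M, p3, h3⟩ := op_bound hC hd hL.sa hL.sb hL.sc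
  have hf := tst_smul (B.isOpen i) hτ (V.smooth i)
  have hS := ex_supp hf.1 (hf.2.trans (self_subset_cthickening (δ := d₀) (tsupport τ)))
  refine ⟨serp_tend p1 fun γ hγ => ?_, serp_tend (mul_pos p1 p3) fun γ hγ => ?_⟩
  · obtain ⟨d₁, p4, h4⟩ := cvv_unif (tst_mono hf.1 (subset_univ _)) hγ
    refine (h0.eventually (ge_mem_nhds p4)).mono fun n hn => ?_
    have hR := Rp_tst hτ hd (hk n) (hle n) V
    refine h1 _ γ hγ.le (hR.2.sub hS) fun z hz => ?_
    rw [v_sub, Rp, ex_self hR.1 (hd hz), ex_self hf.1 (hd hz)]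
    exact (h4 _ _ _ hn (hk n) z).1
  · obtain ⟨d₁, p4, h4⟩ := cvv_unif (tst_mono hf.1 (subset_univ _)) hγ
    refine (h0.eventually (ge_mem_nhds p4)).mono fun n hn => ?_
    have hR := Rp_tst hτ hd (hk n) (hle n) V
    rw [mul_assoc]
    refine h1 _ (M * γ) (by positivity) ((hR.2.map hD hC hd).sub (hS.map hD hC hd))
      fun z hz => ?_
    have d1 := hR.1.smooth.differentiable (by simp) z
    have d2 := hf.1.smooth.differentiable (by simp) z
    have h5 := h4 _ _ _ hn (hk n) z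
    rw [v_sub, Rp, hL.ex_v hR.1 (hd hz), hL.ex_v hf.1 (hd hz), ← op_sub d1 d2]
    refine h3 _ z hz γ h5.1 fun l => ?_
    rw [(dzv_sub d1 d2 l).1, (dzv_sub d1 d2 l).2]
    exact h5.2 l

end

end Bun

end Pool.Agent.SE
end

-- part Pool.Agent.P.MP_63735c_ag.SEWk
section

/-! The smoothing operator kills weakly small terms. -/

open scoped ComplexOrder ContDiff Matrix Topology ENNReal InnerProductSpace
open Set Metric MeasureTheory Filter

namespace Pool.Agent.SE

open Pool.Agent.SPF Pool.Agent.AB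

variable {N : ℕ} {ρ Y : Type} [Fintype ρ] [DecidableEq ρ] [TopologicalSpace Y] [MeasurableSpace Y]
  [CompactSpace Y] [T2Space Y] [BorelSpace Y] {B : Bun Y N ρ}
  {i : B.ι} {τ : E N → ℝ} {d d₀ A : ℝ} {k : E N → ℝ} {D : B.Sec →ₗ[ℂ] B.Sec}

omit [DecidableEq ρ] in
theorem sewk_dzv_le {f : E N → ρ → ℂ} {z : E N} (hf : DifferentiableAt ℝ f z) (l : Fin N) :
    ‖dzv l f z‖ ≤ ‖fderiv ℝ f z‖ ∧ ‖dbv l f z‖ ≤ ‖fderiv ℝ f z‖ := by
  have h1 : ∀ s, ‖fderiv ℝ (fun y => f y s) z‖ ≤ ‖fderiv ℝ f z‖ := fun s => by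
    rw [fderiv_apply hf s]
    refine ContinuousLinearMap.opNorm_le_bound _ (norm_nonneg _) fun v => ?_
    exact (norm_le_pi_norm (fderiv ℝ f z v) s).trans ((fderiv ℝ f z).le_opNorm v)
  exact ⟨(pi_norm_le_iff_of_nonneg (norm_nonneg _)).2 fun s => (dz_norm_le _ z l).1.trans (h1 s),
    (pi_norm_le_iff_of_nonneg (norm_nonneg _)).2 fun s => (dz_norm_le _ z l).2.trans (h1 s)⟩

theorem sewk_bd {F : Type} [NormedAddCommGroup F] [NormedSpace ℝ F] {f : E N → F}
    (hf : ContDiff ℝ ∞ f) (hc : HasCompactSupport f) :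
    ∃ M : ℝ, 0 ≤ M ∧ ∀ x, ‖f x‖ ≤ M ∧ ‖fderiv ℝ f x‖ ≤ M := by
  obtain ⟨M, hM⟩ := hf.continuous.bounded_above_of_compact_support hc
  obtain ⟨M', hM'⟩ := (hf.continuous_fderiv (by simp)).bounded_above_of_compact_support
    (hc.fderiv ℝ)
  exact ⟨max M M', ((norm_nonneg _).trans (hM 0)).trans (le_max_left _ _),
    fun x => ⟨(hM x).trans (le_max_left _ _), (hM' x).trans (le_max_right _ _)⟩⟩

omit [DecidableEq ρ] in
theorem sewk_tst {W : Set (E N)} {m : E N → ρ → ℂ} (hm : Tst W m) (hk : ContDiff ℝ ∞ k)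
    (x : E N) : Tst W (fun y => k (x - y) • m y) ∧
      tsupport (fun y => k (x - y) • m y) ⊆ tsupport m := by
  have h1 : tsupport (fun y => k (x - y) • m y) ⊆ tsupport m :=
    tsupport_smul_subset_right (fun y => k (x - y)) m
  exact ⟨⟨(hk.comp (contDiff_const.sub contDiff_id)).smul hm.smooth,
    hm.cpt.of_isClosed_subset (isClosed_tsupport _) h1, h1.trans hm.sub⟩, h1⟩

omit [DecidableEq ρ] in
theorem sewk_der {m : E N → ρ → ℂ} (hm : ContDiff ℝ ∞ m) (hk : ContDiff ℝ ∞ k) {K M : ℝ}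
    (hK : ∀ x, ‖k x‖ ≤ K ∧ ‖fderiv ℝ k x‖ ≤ K) (hM : ∀ x, ‖m x‖ ≤ M ∧ ‖fderiv ℝ m x‖ ≤ M)
    (x z : E N) : ‖fderiv ℝ (fun y => k (x - y) • m y) z‖ ≤ 2 * (K * M) := by
  have hK0 : 0 ≤ K := (norm_nonneg _).trans (hK 0).1
  have h1 : HasFDerivAt (fun t : E N => x - t) (-ContinuousLinearMap.id ℝ (E N)) z :=
    (hasFDerivAt_id z).const_sub x
  have h2 : HasFDerivAt (fun t => k (x - t))
      ((fderiv ℝ k (x - z)).comp (-ContinuousLinearMap.id ℝ (E N))) z :=
    (hk.differentiable (by simp) (x - z)).hasFDerivAt.comp z h1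
  have h3 : fderiv ℝ (fun y => k (x - y) • m y) z = _ :=
    (h2.smul (hm.differentiable (by simp) z).hasFDerivAt).fderiv
  rw [h3]
  refine (norm_add_le _ _).trans ?_
  rw [norm_smul, ContinuousLinearMap.norm_smulRight_apply, ContinuousLinearMap.comp_neg,
    ContinuousLinearMap.comp_id, norm_neg, two_mul]
  exact add_le_add (mul_le_mul (hK _).1 (hM _).2 (norm_nonneg _) hK0)
    (mul_le_mul (hK _).2 (hM _).1 (norm_nonneg _) hK0)

namespace Bun

omit [CompactSpace Y] [T2Space Y] [BorelSpace Y] in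
theorem dual_rep (hτ : Tst (B.W i) τ) (r : ρ) : ∃ m : E N → ρ → ℂ, Tst (B.W i) m ∧
    tsupport m ⊆ tsupport τ ∧ ∀ z ∈ B.W i, ∀ u : ρ → ℂ,
      (wt (B.Ψ i) z : ℂ) * hp (B.H i z) (m z) u = (τ z • u) r := by
  have hs : ContDiffOn ℝ ∞
      (fun z => (wt (B.Ψ i) z)⁻¹ • ((B.H i z)⁻¹ *ᵥ Pi.single r (1 : ℂ))) (B.W i) :=
    ((wt_smooth (B.Ψ_smooth i)).inv fun z _ => (wt_pos _ z).ne').smul
      (((B.H_smooth i).inv fun z hz => (B.H_pos i z hz).det_pos.ne').mulVec contDiffOn_const)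
  obtain ⟨h1, h2⟩ := tst_smul (B.isOpen i) hτ hs
  refine ⟨_, h1, h2, fun z hz u => ?_⟩
  have hp0 := B.H_pos i z hz
  have hw : (wt (B.Ψ i) z : ℂ) ≠ 0 := Complex.ofReal_ne_zero.2 (wt_pos _ z).ne'
  have h3 : hp (B.H i z) ((B.H i z)⁻¹ *ᵥ Pi.single r (1 : ℂ)) u = u r := by
    rw [← hp_star hp0.1, hp, Matrix.mulVec_mulVec,
      Matrix.mul_nonsing_inv _ (Ne.isUnit hp0.det_pos.ne'), Matrix.one_mulVec,
      dotProduct_single, mul_one, Pi.star_apply, star_star]
  rw [← Complex.coe_smul, ← Complex.coe_smul, hp_smul_left, hp_smul_left, h3, Pi.smul_apply,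
    Complex.real_smul]
  simp only [RCLike.star_def, Complex.conj_ofReal, Complex.ofReal_inv, map_inv₀]
  field_simp

/-- The values of the mollification are scalar products with a bounded family of sections. -/
theorem cvv_dual (hτ : Tst (B.W i) τ) (hD : ∀ j, ∃ a b c, B.Loc D j a b c) (hk : Ker d A k)
    (r : ρ) : ∃ (φ : E N → B.Sec) (L : ℝ), ∀ x, ‖D (φ x)‖ ≤ L ∧
      ∀ V : B.Sec, cvv k (fun y => τ y • V.v i y) x r = ⟪φ x, V⟫_ℂ := by
  obtain ⟨m, hm, -, he⟩ := dual_rep hτ r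
  obtain ⟨a, b, c, hl⟩ := hD i
  obtain ⟨K, hK0, hK⟩ := sewk_bd hk.smooth hk.cpt
  obtain ⟨M, hM0, hM⟩ := sewk_bd hm.smooth hm.cpt
  obtain ⟨A₁, hA₁, h₁⟩ := upper_sup (B := B) hm.cpt hm.sub
  obtain ⟨A₂, hA₂, h₂⟩ := op_bound hm.cpt hm.sub hl.sa hl.sb hl.sc
  have hKM : 0 ≤ K * M := mul_nonneg hK0 hM0
  refine ⟨fun x => B.ex i fun y => k (x - y) • m y, A₁ * (A₂ * (2 * (K * M))), fun x => ?_⟩
  obtain ⟨ht, hs⟩ := sewk_tst hm hk.smooth x
  refine ⟨h₁ _ _ (by positivity) (Supp.map hD hm.cpt hm.sub (ex_supp ht hs)) fun z hz => ?_,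
    fun V => ?_⟩
  · rw [hl.ex_v ht (hm.sub hz)]
    have h3 := sewk_der hm.smooth hk.smooth hK hM x z
    have h4 := ht.smooth.differentiable (by simp) z
    refine h₂ _ z hz _ ?_ fun l =>
      ⟨(sewk_dzv_le h4 l).1.trans h3, (sewk_dzv_le h4 l).2.trans h3⟩
    rw [norm_smul]
    have := mul_le_mul (hK (x - z)).1 (hM z).1 (norm_nonneg _) hK0
    linarith
  · rw [inner_supp hm.sub (ex_supp ht hs) V, cvv, cv_swap,
      ← setIntegral_eq_integral_of_forall_compl_eq_zero (s := B.W i)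
        (fun z hz => by simp [V.out hz])]
    refine setIntegral_congr_fun (B.isOpen i).measurableSet fun z hz => ?_
    rw [ex_self ht hz, ← Complex.coe_smul (k (x - z)), hp_smul_left, ← he z hz]
    simp only [RCLike.star_def, Complex.conj_ofReal]
    ring

theorem Rp_weak (hτ : Tst (B.W i) τ) (hd : cthickening d₀ (tsupport τ) ⊆ B.W i) (h : B.Ell D)
    (hk : Ker d A k) (hle : d ≤ d₀) {v : ℕ → B.Sec} {b : ℝ} (hb : ∀ n, ‖v n‖ ≤ b)
    (hw : ∀ φ, Tendsto (fun n => ⟪D φ, v n⟫_ℂ) atTop (𝓝 0)) :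
    Tendsto (fun n => B.Rp i τ k (D (v n))) atTop (𝓝 0) := by
  have hC : IsCompact (cthickening d₀ (tsupport τ)) := hτ.cpt.cthickening
  choose φ L hφ using fun r => cvv_dual hτ h.loc hk r
  obtain ⟨A₁, hA₁, h₁⟩ := upper (B := B) hC hd
  have hb0 : 0 ≤ b := (norm_nonneg _).trans (hb 0)
  have hL : ∀ r, 0 ≤ L r := fun r => (norm_nonneg _).trans (hφ r 0).1
  set F : ℕ → E N → ρ → ℂ := fun n => cvv k fun y => τ y • (D (v n)).v i y with hF
  have e : ∀ n x r, F n x r = ⟪D (φ r x), v n⟫_ℂ := fun n x r =>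
    ((hφ r x).2 _).trans (h.symm _ _).symm
  have hS : 0 ≤ (∑ r, L r) * b := mul_nonneg (Finset.sum_nonneg fun r _ => hL r) hb0
  have hbd : ∀ n x, ‖F n x‖ ≤ (∑ r, L r) * b := fun n x =>
    (pi_norm_le_iff_of_nonneg hS).2 fun r => by
      rw [e]
      exact (norm_inner_le_norm _ _).trans (mul_le_mul ((hφ r x).1.trans
        (Finset.single_le_sum (fun r _ => hL r) (Finset.mem_univ r))) (hb n) (norm_nonneg _)
        (Finset.sum_nonneg fun r _ => hL r))
  have hlim : ∀ x, Tendsto (fun n => ‖F n x‖ ^ 2) atTop (𝓝 0) := fun x => by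
    have h2 : Tendsto (fun n => F n x) atTop (𝓝 0) := tendsto_pi_nhds.2 fun r => by
      simp only [e]
      exact hw _
    simpa using h2.norm.pow 2
  have : IsFiniteMeasure (volume.restrict (cthickening d₀ (tsupport τ))) :=
    ⟨by rw [Measure.restrict_apply_univ]; exact hC.measure_lt_top⟩
  have hI : Tendsto (fun n => ∫ x in cthickening d₀ (tsupport τ), ‖F n x‖ ^ 2) atTop (𝓝 0) := by
    have := tendsto_integral_of_dominated_convergence
      (μ := volume.restrict (cthickening d₀ (tsupport τ))) (F := fun n x => ‖F n x‖ ^ 2)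
      (f := fun _ => (0 : ℝ)) (fun _ => ((∑ r, L r) * b) ^ 2)
      (fun n => ((Rp_tst hτ hd hk hle (D (v n))).1.smooth.continuous.norm.pow 2).aestronglyMeasurable)
      (integrable_const _)
      (fun n => Eventually.of_forall fun x => by
        rw [norm_pow, norm_norm]
        exact pow_le_pow_left₀ (norm_nonneg _) (hbd n x) 2)
      (Eventually.of_forall hlim)
    simpa using this
  have hN : Tendsto (fun n => ‖B.Rp i τ k (D (v n))‖ ^ 2) atTop (𝓝 0) := by
    refine squeeze_zero (fun n => sq_nonneg _) (fun n => ?_) (by simpa using hI.const_mul A₁)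
    obtain ⟨ht, hs⟩ := Rp_tst hτ hd hk hle (D (v n))
    refine (h₁ _ hs).trans (le_of_eq ?_)
    congr 1
    refine setIntegral_congr_fun hC.measurableSet fun z hz => ?_
    rw [Rp, ex_self ht (hd hz)]
  rw [tendsto_zero_iff_norm_tendsto_zero]
  simpa using hN.sqrt

end Bun

end Pool.Agent.SE
end
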