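import Mathlib

/-! Abstract functional analysis for the index argument (seminormed spaces, no completeness). -/

open Filter Topology Set Metric UniformSpace

namespace Pool.Agent.SE

section FA

variable {A B : Type*} [SeminormedAddCommGroup A] [NormedSpace ℂ A]
  [SeminormedAddCommGroup B] [NormedSpace ℂ B]

omit [NormedSpace ℂ A] in
/-- A sequence in a totally bounded set has a Cauchy subsequence. -/
lemma fa_subseq {T : Set A} (hT : TotallyBounded T) {a : ℕ → A} (ha : ∀ k, a k ∈ T) :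
    ∃ φ : ℕ → ℕ, StrictMono φ ∧ CauchySeq (fun k => a (φ k)) := by
  have hu : IsUniformInducing ((↑) : A → Completion A) := Completion.isUniformInducing_coe A
  have hc : IsCompact (closure (((↑) : A → Completion A) '' T)) :=
    (hT.image hu.uniformContinuous).closure.isCompact_of_isClosed isClosed_closure
  obtain ⟨x, -, φ, hφ, hx⟩ := hc.tendsto_subseq (x := fun k => (a k : Completion A))
    (fun k => subset_closure (mem_image_of_mem _ (ha k)))
  refine ⟨φ, hφ, ?_⟩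
  have h1 : CauchySeq (fun k => ((a (φ k) : A) : Completion A)) := hx.cauchySeq
  rw [Metric.cauchySeq_iff] at h1 ⊢
  intro ε hε
  obtain ⟨N, hN⟩ := h1 ε hε
  exact ⟨N, fun m hm n hn => by simpa only [Completion.dist_eq] using hN m hm n hn⟩

/-- The a priori estimate. -/
lemma fa_bound (D : A →ₗ[ℂ] B) (hRE : TotallyBounded {a : A | ‖a‖ ≤ 1 ∧ ‖D a‖ ≤ 1})
    (h1 : ∀ a : ℕ → A, CauchySeq a → Tendsto (fun k => ‖D (a k)‖) atTop (𝓝 0) →
      Tendsto (fun k => ‖a k‖) atTop (𝓝 0)) :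
    ∃ C : ℝ, 1 ≤ C ∧ ∀ a, ‖a‖ ≤ C * ‖D a‖ := by
  by_contra hcon
  push Not at hcon
  have hk : ∀ k : ℕ, ∃ a : A, ‖a‖ = 1 ∧ ‖D a‖ ≤ 1 / ((k : ℝ) + 1) := by
    intro k
    have hk0 : (0 : ℝ) < (k : ℝ) + 1 := by positivity
    obtain ⟨a, ha⟩ := hcon ((k : ℝ) + 1) (by linarith [Nat.cast_nonneg (α := ℝ) k])
    have hpos : 0 < ‖a‖ := lt_of_le_of_lt (by positivity) ha
    refine ⟨((‖a‖⁻¹ : ℝ) : ℂ) • a, ?_, ?_⟩
    · rw [norm_smul, Complex.norm_real, norm_inv, norm_norm, inv_mul_cancel₀ hpos.ne']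
    · rw [map_smul, norm_smul, Complex.norm_real, norm_inv, norm_norm, inv_mul_eq_div,
        div_le_div_iff₀ hpos hk0]
      nlinarith
  choose a ha1 ha2 using hk
  have hmem : ∀ k, a k ∈ {a : A | ‖a‖ ≤ 1 ∧ ‖D a‖ ≤ 1} := fun k =>
    ⟨(ha1 k).le, (ha2 k).trans (by
      rw [div_le_one (by positivity)]; linarith [Nat.cast_nonneg (α := ℝ) k])⟩
  obtain ⟨φ, hφ, hc⟩ := fa_subseq hRE hmem
  have h0 : Tendsto (fun k => ‖D (a k)‖) atTop (𝓝 0) :=
    squeeze_zero (fun _ => norm_nonneg _) ha2 tendsto_one_div_add_atTop_nhds_zero_nat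
  have h2 := h1 (fun k => a (φ k)) hc (h0.comp hφ.tendsto_atTop)
  simp only [ha1] at h2
  exact one_ne_zero (tendsto_nhds_unique tendsto_const_nhds h2)

/-- A bounded perturbation of an operator with compact inverse and dense range has dense range
as soon as it has no approximate kernel. -/
theorem fa (D D2 : A →ₗ[ℂ] B) (hRE : TotallyBounded {a : A | ‖a‖ ≤ 1 ∧ ‖D a‖ ≤ 1})
    (h1 : ∀ a : ℕ → A, CauchySeq a → Tendsto (fun k => ‖D (a k)‖) atTop (𝓝 0) →
      Tendsto (fun k => ‖a k‖) atTop (𝓝 0))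
    (h2 : ∀ a : ℕ → A, CauchySeq a → Tendsto (fun k => ‖D2 (a k)‖) atTop (𝓝 0) →
      Tendsto (fun k => ‖a k‖) atTop (𝓝 0))
    {C : ℝ} (hC : ∀ a, ‖D2 a - D a‖ ≤ C * ‖a‖) (hd : DenseRange D) : DenseRange D2 := by
  obtain ⟨C0, hC0, hb⟩ := fa_bound D hRE h1
  have hC0p : 0 < C0 := by linarith
  let ι : B →ₗᵢ[ℂ] Completion B := Completion.toComplₗᵢ
  have hι : DenseRange ι := Completion.denseRange_coe
  let f : A →ₗ[ℂ] Completion B := ι.toLinearMap ∘ₗ D
  let g : A →ₗ[ℂ] Completion B := ι.toLinearMap ∘ₗ (D2 - D)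
  have hf : ∀ a, f a = ι (D a) := fun _ => rfl
  have hg : ∀ a, g a = ι (D2 a - D a) := fun _ => rfl
  have hfn : ∀ a, ‖f a‖ = ‖D a‖ := fun a => by rw [hf, ι.norm_map]
  have hgn : ∀ a, ‖g a‖ ≤ |C| * ‖a‖ := fun a => by
    rw [hg, ι.norm_map]
    exact (hC a).trans (mul_le_mul_of_nonneg_right (le_abs_self C) (norm_nonneg _))
  have hfd : DenseRange f := hι.comp hd ι.continuous
  have hgf : ∃ C', ∀ a, ‖g a‖ ≤ C' * ‖f a‖ := ⟨|C| * C0, fun a => by
    rw [hfn, mul_assoc]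
    exact (hgn a).trans (mul_le_mul_of_nonneg_left (hb a) (abs_nonneg _))⟩
  let K : Completion B →L[ℂ] Completion B := g.extendOfNorm f
  have hK : ∀ a, K (f a) = g a := fun a => LinearMap.extendOfNorm_eq hfd hgf a
  let gc : A →L[ℂ] Completion B := g.mkContinuous |C| hgn
  have hgc : ∀ a, gc a = g a := fun _ => rfl
  have hKc : IsCompactOperator K := by
    refine ⟨closure (gc '' {a : A | ‖a‖ ≤ 1 ∧ ‖D a‖ ≤ 1}),
      (hRE.image gc.uniformContinuous).closure.isCompact_of_isClosed isClosed_closure, ?_⟩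
    refine mem_of_superset (ball_mem_nhds 0 (inv_pos.2 hC0p)) ?_
    intro x hx
    have hx1 := hfd.subset_closure_image_preimage_of_isOpen isOpen_ball hx
    have hx2 := image_closure_subset_closure_image K.continuous (mem_image_of_mem K hx1)
    refine closure_mono ?_ hx2
    rintro _ ⟨_, ⟨a, ha, rfl⟩, rfl⟩
    have ha' : ‖D a‖ < C0⁻¹ := by simpa only [mem_preimage, mem_ball_zero_iff, hfn] using ha
    have hi : C0⁻¹ ≤ 1 := inv_le_one_of_one_le₀ hC0
    refine ⟨a, ⟨?_, by linarith⟩, by rw [hgc, hK]⟩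
    calc ‖a‖ ≤ C0 * ‖D a‖ := hb a
      _ ≤ C0 * C0⁻¹ := mul_le_mul_of_nonneg_left ha'.le hC0p.le
      _ = 1 := mul_inv_cancel₀ hC0p.ne'
  have hsum : ∀ a, ι (D2 a) = f a + K (f a) := fun a => by
    rw [hK, hf, hg, ← map_add]; congr 1; abel
  have hinj : ∀ x, K x = -x → x = 0 := by
    intro x hx
    obtain ⟨u, hu, hux⟩ := mem_closure_iff_seq_limit.1 (hfd x)
    choose a ha using hu
    have hfa : Tendsto (fun k => f (a k)) atTop (𝓝 x) := by simpa only [ha] using hux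
    have hca : CauchySeq a := by
      have hc := hfa.cauchySeq
      rw [Metric.cauchySeq_iff] at hc ⊢
      intro ε hε
      obtain ⟨N, hN⟩ := hc (ε / C0) (div_pos hε hC0p)
      refine ⟨N, fun m hm n hn => ?_⟩
      have h3 := hN m hm n hn
      rw [dist_eq_norm, ← map_sub, hfn, lt_div_iff₀ hC0p] at h3
      rw [dist_eq_norm]
      linarith [hb (a m - a n), mul_comm C0 ‖D (a m - a n)‖]
    have hKa : Tendsto (fun k => K (f (a k))) atTop (𝓝 (K x)) := (K.continuous.tendsto x).comp hfa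
    have hD2 : Tendsto (fun k => ‖D2 (a k)‖) atTop (𝓝 0) := by
      have h4 := (hfa.add hKa).norm
      simp only [← hsum, ι.norm_map, hx, add_neg_cancel, norm_zero] at h4
      exact h4
    have h5 := h2 a hca hD2
    have h6 : Tendsto (fun k => ‖K (f (a k))‖) atTop (𝓝 0) := by
      refine squeeze_zero (fun _ => norm_nonneg _) (fun k => ?_)
        (by simpa using h5.const_mul |C|)
      rw [hK]; exact hgn _
    have h7 := tendsto_nhds_unique hKa.norm h6
    rw [hx, norm_neg, norm_eq_zero] at h7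
    exact h7
  have hres : (-1 : ℂ) ∈ resolventSet ℂ K := by
    rcases hKc.hasEigenvalue_or_mem_resolventSet (μ := (-1 : ℂ)) (by norm_num) with h | h
    · exfalso
      obtain ⟨x, hx⟩ := h.exists_hasEigenvector
      refine hx.2 (hinj x ?_)
      have := hx.apply_eq_smul
      simpa using this
    · exact h
  rw [spectrum.mem_resolventSet_iff, ContinuousLinearMap.isUnit_iff_bijective] at hres
  have hsurj : Function.Surjective (fun x : Completion B => x + K x) := by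
    intro y
    obtain ⟨x, hx⟩ := hres.2 (-y)
    refine ⟨x, ?_⟩
    have : -x - K x = -y := by simpa [Algebra.algebraMap_eq_smul_one] using hx
    have h8 : x + K x = -(-x - K x) := by abel
    simp only [h8, this, neg_neg]
  have hdr : DenseRange (fun a => ι (D2 a)) := by
    have := hsurj.denseRange.comp hfd (continuous_id.add K.continuous)
    simpa only [hsum, Function.comp_def] using this
  rw [Metric.denseRange_iff] at hdr ⊢
  intro b r hr
  obtain ⟨a, ha⟩ := hdr (ι b) r hr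
  exact ⟨a, by rwa [ι.dist_map] at ha⟩

end FA

section FR

open scoped InnerProductSpace

variable {S : Type*} [SeminormedAddCommGroup S] [InnerProductSpace ℂ S]

/-- A Cauchy sequence that tends weakly to zero tends to zero. -/
lemma fr_weak {w : ℕ → S} (hc : CauchySeq w)
    (hw : ∀ φ : S, Tendsto (fun k => ⟪w k, φ⟫_ℂ) atTop (𝓝 0)) :
    Tendsto (fun k => ‖w k‖) atTop (𝓝 0) := by
  let ι : S →ₗᵢ[ℂ] Completion S := Completion.toComplₗᵢ
  obtain ⟨x, hx⟩ := cauchySeq_tendsto_of_complete (ι.isometry.uniformContinuous.comp_cauchySeq hc)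
  have h1 : ∀ φ : S, ⟪x, ι φ⟫_ℂ = 0 := fun φ => by
    have h2 : Tendsto (fun k => ⟪ι (w k), ι φ⟫_ℂ) atTop (𝓝 ⟪x, ι φ⟫_ℂ) :=
      hx.inner tendsto_const_nhds
    simp only [ι.inner_map_map] at h2
    exact tendsto_nhds_unique h2 (hw φ)
  have h3 : Tendsto (fun k => ⟪x, ι (w k)⟫_ℂ) atTop (𝓝 ⟪x, x⟫_ℂ) := tendsto_const_nhds.inner hx
  simp only [h1] at h3
  have h4 : x = 0 := inner_self_eq_zero.1 (tendsto_nhds_unique h3 tendsto_const_nhds)
  have h5 := hx.norm
  simpa only [Function.comp_apply, ι.norm_map, h4, norm_zero] using h5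

/-- A bounded linear map keeps Cauchy sequences. -/
lemma fr_cauchy {A B : Type*} [SeminormedAddCommGroup A] [NormedSpace ℂ A]
    [SeminormedAddCommGroup B] [NormedSpace ℂ B] (T : A →ₗ[ℂ] B) {C : ℝ}
    (hT : ∀ a, ‖T a‖ ≤ C * ‖a‖) {a : ℕ → A} (ha : CauchySeq a) : CauchySeq (fun k => T (a k)) :=
  (T.mkContinuous C hT).uniformContinuous.comp_cauchySeq ha

/-- Density of the range from the absence of weak solutions of the adjoint equation. -/
theorem den {A : Type*} [AddCommGroup A] [Module ℂ A] (D : A →ₗ[ℂ] S)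
    (h : ∀ v : ℕ → S, CauchySeq v → (∀ a, Tendsto (fun k => ⟪v k, D a⟫_ℂ) atTop (𝓝 0)) →
      Tendsto (fun k => ‖v k‖) atTop (𝓝 0)) : DenseRange D := by
  let ι : S →ₗᵢ[ℂ] Completion S := Completion.toComplₗᵢ
  have hι : DenseRange ι := Completion.denseRange_coe
  let f : A →ₗ[ℂ] Completion S := ι.toLinearMap ∘ₗ D
  have hf : ∀ a, f a = ι (D a) := fun _ => rfl
  have h0 : (LinearMap.range f)ᗮ = ⊥ := by
    rw [Submodule.eq_bot_iff]
    intro x hx
    obtain ⟨u, hu, hux⟩ := mem_closure_iff_seq_limit.1 (hι x)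
    choose v hv using hu
    have hvx : Tendsto (fun k => ι (v k)) atTop (𝓝 x) := by simpa only [hv] using hux
    have hcv : CauchySeq v := by
      have hc := hvx.cauchySeq
      rw [Metric.cauchySeq_iff] at hc ⊢
      simpa only [ι.dist_map] using hc
    have h1 := h v hcv (fun a => by
      have h2 : Tendsto (fun k => ⟪ι (v k), ι (D a)⟫_ℂ) atTop (𝓝 ⟪x, ι (D a)⟫_ℂ) :=
        hvx.inner tendsto_const_nhds
      have h3 : ⟪x, ι (D a)⟫_ℂ = 0 :=
        Submodule.inner_left_of_mem_orthogonal (K := LinearMap.range f) ⟨a, rfl⟩ hx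
      simpa only [ι.inner_map_map, h3] using h2)
    have h4 := hvx.norm
    simp only [ι.norm_map] at h4
    exact norm_eq_zero.1 (tendsto_nhds_unique h4 h1)
  have h5 : Dense ((LinearMap.range f : Submodule ℂ (Completion S)) : Set (Completion S)) := by
    rw [Submodule.dense_iff_topologicalClosure_eq_top, Submodule.topologicalClosure_eq_top_iff]
    exact h0
  have hdr : DenseRange f := h5
  rw [Metric.denseRange_iff] at hdr ⊢
  intro b r hr
  obtain ⟨a, ha⟩ := hdr (ι b) r hr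
  exact ⟨a, by rwa [hf, ι.dist_map] at ha⟩

/-- Compactness from smoothing operators. -/
theorem re {A B : Type*} [SeminormedAddCommGroup A] [NormedSpace ℂ A]
    [SeminormedAddCommGroup B] [NormedSpace ℂ B] (D : A →ₗ[ℂ] B) (R : ℕ → A → A) {c : ℕ → ℝ}
    (hc : Tendsto c atTop (𝓝 0)) (he : ∀ n v, ‖R n v - v‖ ≤ c n * (‖v‖ + ‖D v‖))
    (hf : ∀ n, TotallyBounded (R n '' {v : A | ‖v‖ ≤ 1})) :
    TotallyBounded {a : A | ‖a‖ ≤ 1 ∧ ‖D a‖ ≤ 1} := by
  rw [Metric.totallyBounded_iff]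
  intro ε hε
  have h4 : Tendsto (fun n => |c n|) atTop (𝓝 0) := by simpa using hc.abs
  obtain ⟨n, hn⟩ := (h4.eventually (gt_mem_nhds (show (0 : ℝ) < ε / 4 by positivity))).exists
  obtain ⟨t, ht, hs⟩ := Metric.totallyBounded_iff.1 (hf n) (ε / 2) (half_pos hε)
  refine ⟨t, ht, fun a ha => ?_⟩
  have h1 := hs (mem_image_of_mem _ ha.1)
  simp only [mem_iUnion, mem_ball, dist_eq_norm] at h1 ⊢
  obtain ⟨y, hy, h2⟩ := h1
  refine ⟨y, hy, ?_⟩
  have e : a - y = (R n a - y) - (R n a - a) := by abel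
  have h3 : ‖R n a - a‖ ≤ |c n| * 2 :=
    (he n a).trans ((mul_le_mul_of_nonneg_right (le_abs_self _) (by positivity)).trans
      (mul_le_mul_of_nonneg_left (by linarith [ha.1, ha.2]) (abs_nonneg _)))
  rw [e]
  linarith [norm_sub_le (R n a - y) (R n a - a)]

lemma idx_iso {Q : S →ₗ[ℂ] S} (hQ : ∀ u v, ⟪Q u, v⟫_ℂ = ⟪u, Q v⟫_ℂ) (h2 : ∀ v, Q (Q v) = v)
    (v : S) : ‖Q v‖ = ‖v‖ := by
  have h := hQ v (Q v)
  rw [h2, inner_self_eq_norm_sq_to_K, inner_self_eq_norm_sq_to_K] at h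
  have h' : ‖Q v‖ ^ 2 = ‖v‖ ^ 2 := by exact_mod_cast h
  exact (sq_eq_sq₀ (norm_nonneg _) (norm_nonneg _)).1 h'

lemma idx_cauchy {A : Type*} [SeminormedAddCommGroup A] {v w : ℕ → A} (hv : CauchySeq v)
    (h : Tendsto (fun k => ‖w k - v k‖) atTop (𝓝 0)) : CauchySeq w := by
  have h1 : CauchySeq (fun k => w k - v k) :=
    (tendsto_zero_iff_norm_tendsto_zero.2 h).cauchySeq
  have h2 : CauchySeq (fun k => (w k - v k) + v k) := h1.add hv
  simpa only [sub_add_cancel] using h2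

/-- Joint parity subspace. -/
def par (Q P : S →ₗ[ℂ] S) (a b : ℂ) : Submodule ℂ S where
  carrier := {v | Q v = a • v ∧ P v = b • v}
  add_mem' := fun {x y} hx hy => ⟨by rw [map_add, hx.1, hy.1, smul_add],
    by rw [map_add, hx.2, hy.2, smul_add]⟩
  zero_mem' := ⟨by simp, by simp⟩
  smul_mem' := fun c x hx => ⟨by rw [map_smul, hx.1, smul_comm], by rw [map_smul, hx.2, smul_comm]⟩

end FR

end Pool.Agent.SE
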