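import Pool.Agent.K.MP_63735c_ag.C171
import Pool.Agent.K.MP_63735c_ag.C173

/-! The elliptic package. -/

open scoped ComplexOrder ContDiff Matrix Topology ENNReal InnerProductSpace
open Set Metric MeasureTheory Filter

namespace Pool.Agent.SE

open Pool.Agent.SPF Pool.Agent.AB

variable {N : ℕ} {ρ Y : Type} [Fintype ρ] [DecidableEq ρ] [TopologicalSpace Y] [MeasurableSpace Y]
  [CompactSpace Y] [T2Space Y] [BorelSpace Y] {B : Bun Y N ρ}
  {D : B.Sec →ₗ[ℂ] B.Sec}

namespace Bun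

omit [CompactSpace Y] [T2Space Y] [BorelSpace Y] in
lemma sepkg_d (P : PU B) :
    ∃ d₀ : ℝ, 0 < d₀ ∧ ∀ a, cthickening d₀ (tsupport (P.τ a)) ⊆ B.W (P.c a) := by
  have h (a) := (P.tst a).cpt.isCompact.exists_cthickening_subset_open (B.isOpen _) (P.tst a).sub
  choose d hd hs using h
  have : ∀ᶠ t in 𝓝[>] (0 : ℝ), ∀ a, t ≤ d a :=
    eventually_all.2 fun a => nhdsWithin_le_nhds (eventually_le_nhds (hd a))
  obtain ⟨t, h1, h2⟩ := (this.and self_mem_nhdsWithin).exists
  exact ⟨t, h2, fun a => (cthickening_mono (h1 a) _).trans (hs a)⟩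

theorem Ell.fr (h : B.Ell D) {v : ℕ → B.Sec} (hv : CauchySeq v)
    (hw : ∀ φ, Tendsto (fun n => ⟪D φ, v n⟫_ℂ) atTop (𝓝 0)) :
    ∃ v' : ℕ → B.Sec, Tendsto (fun k => v' k - v k) atTop (𝓝 0) ∧
      Tendsto (fun k => D (v' k)) atTop (𝓝 0) := by
  obtain ⟨P⟩ := exists_PU B
  obtain ⟨d₀, hd₀, hd⟩ := sepkg_d P
  obtain ⟨A, hA⟩ := exists_ker N
  have hp (n : ℕ) : 0 < d₀ / ((n : ℝ) + 1) := by positivity
  choose k hk using fun n : ℕ => hA _ (hp n)
  have hle (n : ℕ) : d₀ / ((n : ℝ) + 1) ≤ d₀ :=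
    div_le_self hd₀.le (le_add_of_nonneg_left n.cast_nonneg)
  have h0 : Tendsto (fun n : ℕ => d₀ / ((n : ℝ) + 1)) atTop (𝓝 0) :=
    tendsto_const_nhds.div_atTop (tendsto_natCast_atTop_atTop.atTop_add tendsto_const_nhds)
  let R : ℕ → B.Sec →ₗ[ℂ] B.Sec := fun n =>
    { toFun := fun V => ∑ a, B.Rp (P.c a) (P.τ a) (k n) V
      map_add' := fun V V' => by
        rw [← Finset.sum_add_distrib]
        exact Finset.sum_congr rfl fun a _ => Rp_add (P.tst a) (hd a) (hk n) (hle n) V V'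
      map_smul' := fun t V => by
        rw [RingHom.id_apply, Finset.smul_sum]
        exact Finset.sum_congr rfl fun a _ => Rp_smul (P.tst a) (hd a) (hk n) (hle n) t V }
  have hR (n V) : R n V = ∑ a, B.Rp (P.c a) (P.τ a) (k n) V := rfl
  choose C hC0 hC using fun a => Rp_bdd (P.tst a) (hd a)
  choose C' hC0' hC' using fun a => Rp_cm (P.tst a) (hd a) h.loc A
  have hl (V a) := Rp_lim (P.tst a) (hd a) h.loc hk hle h0 V
  have a2 (V) : Tendsto (fun n => R n V) atTop (𝓝 V) := by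
    have := tendsto_finsetSum Finset.univ fun a _ => (hl V a).1
    rwa [P.decomp] at this
  obtain ⟨b, hb⟩ := isBounded_iff_forall_norm_le.1 hv.isBounded_range
  refine SE.fr D R (C := ∑ a, (C a + C' a)) (fun n V => ?_) a2 (fun V => ?_) (fun n V => ?_) hv
    fun n => ?_
  · rw [hR, Finset.sum_mul]
    refine norm_sum_le_of_le _ fun a _ => (hC a _ _ _ V (hk n) (hle n)).trans ?_
    gcongr
    exact le_add_of_nonneg_right (hC0' a)
  · have := tendsto_finsetSum Finset.univ fun a _ => (hl V a).2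
    rw [← map_sum, P.decomp] at this
    simpa only [hR, map_sum, sub_self] using this.sub (a2 (D V))
  · rw [hR, hR, map_sum, ← Finset.sum_sub_distrib, Finset.sum_mul]
    refine norm_sum_le_of_le _ fun a _ => (hC' a _ _ V (hk n) (hle n)).trans ?_
    gcongr
    exact le_add_of_nonneg_left (hC0 a)
  · have := tendsto_finsetSum Finset.univ fun a _ =>
      Rp_weak (P.tst a) (hd a) h (hk n) (hle n) (fun j => hb _ (mem_range_self j)) hw
    simpa only [hR, Finset.sum_const_zero] using this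

theorem Ell.pkg (h : B.Ell D) : Pkg D B.Hol := by
  refine ⟨h.symm, h.re, fun v hv hw => ?_⟩
  obtain ⟨v', h1, h2⟩ := h.fr hv hw
  have hc : CauchySeq v' := by
    have := h1.cauchySeq.add hv
    simpa only [Pi.add_def, sub_add_cancel] using this
  obtain ⟨V, hV, h3⟩ := h.ho hc h2
  refine ⟨V, hV, ?_⟩
  simpa only [sub_sub_cancel, sub_zero] using h3.sub h1

end Bun

end Pool.Agent.SE
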