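import Pool.Agent.K.MP_63735c_ag.C176

/-! The Dolbeault-Dirac operator: commutators and changes of charts. -/

open scoped Matrix

namespace Pool.Agent.SE

variable {R R' : Type} [CommRing R] [StarRing R] [Algebra ℂ R] [CommRing R'] [StarRing R']
  [Algebra ℂ R'] {N : ℕ} {ρ : Type} [Fintype ρ] [DecidableEq ρ] {C : Car (Matrix ρ ρ ℤ) N}

namespace LD

variable (L : LD R C)

/-- The contraction of `W` with the derivative of a function. -/
def Nt (τ : R) (V : ρ → R) : ρ → R := ∑ l, L.d l τ • L.W l V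

/-- The commutator of `D` with a matrix. -/
def cm (x : Matrix ρ ρ R) : Matrix ρ ρ R := ∑ k, (L.up k * Car.dm (L.db k) x - (C.mat R).i k *
  (Car.dm (L.d k) x + Matrix.diagonal (L.lam k) * x - x * Matrix.diagonal (L.lam k)))

theorem D_add (U V : ρ → R) : L.D (U + V) = L.D U + L.D V := by
  simp only [D, T, del, dl, dv_add, Matrix.mulVec_add, Finset.sum_add_distrib]
  abel

theorem D_mulVec {x : Matrix ρ ρ R} (he : ∀ a, Commute x ((C.mat R).e a))
    (hi : ∀ a, Commute x ((C.mat R).i a)) (V : ρ → R) :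
    L.D (x *ᵥ V) = x *ᵥ L.D V + L.cm x *ᵥ V := by
  simp only [D, T, del, dl, cm, up, dv_mulVec, Matrix.mulVec_sub, Matrix.mulVec_sum,
    Matrix.sum_mulVec, ← Finset.sum_sub_distrib, ← Finset.sum_add_distrib]
  refine Finset.sum_congr rfl fun k _ => ?_
  simp only [Matrix.mulVec_add, Matrix.mulVec_mulVec, Matrix.sub_mulVec, Matrix.add_mulVec,
    mul_add, mul_sub, ← mul_assoc, (hi k).eq, ((C.mat R).commute_ev he _).eq]
  abel

theorem D_diag {c : ρ → R} (hc : ∀ a r s, C.e a r s ≠ 0 → c r = c s)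
    (h : ∀ k r, L.d k (c r) = 0) (h' : ∀ k r, L.db k (c r) = 0) (V : ρ → R) :
    L.D (Matrix.diagonal c *ᵥ V) = Matrix.diagonal c *ᵥ L.D V := by
  have h1 : ∀ δ : Derivation ℂ R R, (∀ r, δ (c r) = 0) → Car.dm δ (Matrix.diagonal c) = 0 := by
    intro δ hδ
    ext r s
    by_cases hrs : r = s <;> simp [Car.dm_apply, hrs, hδ]
  rw [L.D_mulVec (fun a => (diag_comm L.hC hc a).1) fun a => (diag_comm L.hC hc a).2]
  simp [cm, h1 _ (h _), h1 _ (h' _), mul_comm]

theorem D_smul (τ : R) (V : ρ → R) : L.D (τ • V) = τ • L.D V +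
    (∑ k, (L.db k τ • L.up k - L.d k τ • (C.mat R).i k)) *ᵥ V := by
  simp only [D, T, del, dl, dv_smul, Matrix.mulVec_add, Matrix.mulVec_smul, Matrix.sum_mulVec,
    Matrix.sub_mulVec, Matrix.smul_mulVec, Finset.sum_add_distrib, Finset.sum_sub_distrib,
    smul_sub, smul_add, Finset.smul_sum]
  abel

theorem D_par (V : ρ → R) : L.D ((C.mat R).gam (-1 : Matrix (Fin N) (Fin N) R) *ᵥ V) =
    -((C.mat R).gam (-1 : Matrix (Fin N) (Fin N) R) *ᵥ L.D V) := by
  have h1 : ∀ δ : Derivation ℂ R R,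
      Car.dm δ ((C.mat R).gam (-1 : Matrix (Fin N) (Fin N) R)) = 0 := fun δ => by
    simp [(C.mat_isDer δ).gam, Car.ev, Matrix.one_apply, apply_ite δ]
  have h2 := fun l V => L.dl_mulVec l ((C.mat R).commute_gam
    (fun a => (diag_comm L.hC (L.lam_eq l) a).1) (fun a => (diag_comm L.hC (L.lam_eq l) a).2)
    (-1 : Matrix (Fin N) (Fin N) R)) V
  simp only [D, T, del, up, dv_mulVec, h1, h2, Matrix.zero_mulVec, zero_add, Matrix.mulVec_sub,
    Matrix.mulVec_sum, Matrix.mulVec_mulVec, Car.par_ev, Car.par_i, Matrix.neg_mulVec,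
    Finset.sum_neg_distrib]
  abel

theorem hp_adj {x y : Matrix ρ ρ R}
    (h : xᴴ * (Matrix.diagonal L.w * L.G) = Matrix.diagonal L.w * L.G * y) (U V : ρ → R) :
    L.hp (x *ᵥ U) V = L.hp U (y *ᵥ V) := by
  rw [hp, hp, Matrix.star_mulVec, ← Matrix.dotProduct_mulVec, Matrix.mulVec_mulVec,
    Matrix.mulVec_mulVec, h]

theorem hp_up (k : Fin N) (U X : ρ → R) : L.hp U (L.up k *ᵥ X) = L.hp ((C.mat R).i k *ᵥ U) X := by
  rw [hp, hp, ← Matrix.mulVec_mulVec, ← Matrix.mulVec_mulVec, Matrix.mulVec_mulVec _ L.G, G, up,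
    Car.gam_up L.inv, ← Matrix.mulVec_mulVec, hp_e]

theorem hp_T_eq (U V : ρ → R) :
    L.hp U (L.T V) = ∑ k, L.hp ((C.mat R).i k *ᵥ U) (dv (L.db k) V) := by
  simp only [← hp_up]
  simp only [T, hp, Matrix.mulVec_sum, dotProduct_sum]

theorem hp_smul_left (τ : R) (U V : ρ → R) : L.hp (τ • U) V = star τ * L.hp U V := by
  simp [hp]

theorem hp_smul_right (τ : R) (U V : ρ → R) : L.hp U (τ • V) = τ * L.hp U V := by
  simp [hp, Matrix.mulVec_smul]

theorem hp_add_left (U U' V : ρ → R) : L.hp (U + U') V = L.hp U V + L.hp U' V := by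
  simp [hp]

theorem del_vac {V : ρ → R} (h : ∀ a, (C.mat R).i a *ᵥ V = 0) : L.del V = 0 := by
  have : ∀ l, L.dl l (0 : ρ → R) = 0 := fun l => by
    ext r
    simp [dl_apply]
  simp only [del, ← dl_i, h, this, Finset.sum_const_zero]

theorem D_single {r0 : ρ} (h : ∀ a s, C.e a r0 s = 0) : L.D (Pi.single r0 1) = 0 := by
  have : ∀ δ : Derivation ℂ R R, dv δ (Pi.single r0 1 : ρ → R) = 0 := fun δ => by
    ext r
    simp [dv, Pi.single_apply, apply_ite δ]
  simp [D, L.del_vac (Car.i_single L.hC h), T, this]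

/-- The Bochner-Kodaira-Nakano identity with a real cutoff. -/
theorem bkn_cut {τ : R} (hτ : star τ = τ) (V : ρ → R) : τ * L.hp V (L.D (L.D V)) =
    τ * (∑ l, L.hp (dv (L.db l) V) (L.W l V) +
      ∑ l, ∑ k, L.hp ((C.mat R).i k *ᵥ V) (L.Th l k *ᵥ (C.mat R).i l *ᵥ V)) +
      L.hp V (L.Nt τ V) - ∑ l, L.d l (τ * L.hp V (L.W l V)) := by
  have h := L.bkn (τ • V) V
  simp only [dv_smul, hp_add_left, hp_smul_left, Matrix.mulVec_smul, star_db, hτ,
    Finset.sum_add_distrib, ← Finset.mul_sum] at h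
  have h2 : L.hp V (L.Nt τ V) = ∑ l, L.d l τ * L.hp V (L.W l V) := by
    simp only [← hp_smul_right]
    simp only [Nt, hp, Matrix.mulVec_sum, dotProduct_sum]
  rw [h, h2]
  ring

end LD

/-- A change of charts. -/
structure Chg (L : LD R C) (L' : LD R' C) (φ : R' →+* R) (J J' : Matrix (Fin N) (Fin N) R)
    (g : ρ → R) : Prop where
  star_eq : ∀ a, φ (star a) = star (φ a)
  chain : ∀ b a, L.d b (φ a) = ∑ c, J c b * φ (L'.d c a)
  inv : J * J' = 1
  db_J : ∀ k a b, L.db k (J a b) = 0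
  d_J : ∀ l a b, L.d l (J a b) = L.d b (J a l)
  M_eq : L.M = Jᴴ * L'.M.map φ * J
  db_g : ∀ k r, L.db k (g r) = 0
  g_eq : ∀ a r s, C.e a r s ≠ 0 → g r = g s
  lam : ∀ b r, (∑ c, J c b * φ (L'.lam c r)) * g r + L.d b (g r) =
    (L.lam b r - (J' * J.map (L.d b)).trace) * g r

namespace Chg

variable {L : LD R C} {L' : LD R' C} {φ : R' →+* R} {J J' : Matrix (Fin N) (Fin N) R} {g : ρ → R}
  (h : Chg L L' φ J J' g)
include h

theorem inv' : J' * J = 1 := mul_eq_one_comm.1 h.inv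

theorem solve {x y : Fin N → R} (e : ∀ b, x b = ∑ c, J c b * y c) (c : Fin N) :
    y c = ∑ b, J' b c * x b := by
  have : x = y ᵥ* J := funext fun b => by simp [e, Matrix.vecMul, dotProduct, mul_comm]
  have h2 : x ᵥ* J' = y := by rw [this, Matrix.vecMul_vecMul, h.inv, Matrix.vecMul_one]
  simp [← h2, Matrix.vecMul, dotProduct, mul_comm]

theorem d_inv (c : Fin N) (a : R') : φ (L'.d c a) = ∑ b, J' b c * L.d b (φ a) :=
  h.solve (fun b => h.chain b a) c

theorem db_inv (c : Fin N) (a : R') : φ (L'.db c a) = ∑ b, star (J' b c) * L.db b (φ a) := by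
  have := congrArg star (h.d_inv c (star a))
  simpa only [← h.star_eq, L'.star_d, star_star, star_sum, star_mul', L.star_d] using this

theorem M'_eq : L'.M'.map φ = J * L.M' * Jᴴ := by
  have h1 : L'.M'.map φ * L'.M.map φ = 1 := by
    rw [← Matrix.map_mul, L'.inv', Matrix.map_one _ φ.map_zero φ.map_one]
  have h2 : J'ᴴ * Jᴴ = 1 := by rw [← Matrix.conjTranspose_mul, h.inv, Matrix.conjTranspose_one]
  have h3 : L'.M.map φ * (J * L.M' * Jᴴ) = 1 := by
    rw [← one_mul (L'.M.map φ), ← h2, ← mul_assoc, ← mul_assoc, mul_assoc J'ᴴ, mul_assoc J'ᴴ,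
      ← h.M_eq, mul_assoc J'ᴴ, L.inv, mul_one]
  rw [← mul_one (L'.M'.map φ), ← h3, ← mul_assoc, h1, one_mul]

theorem db_G (k : Fin N) (V : ρ → R) : dv (L.db k) ((Matrix.diagonal g * (C.mat R).gam J) *ᵥ V) =
    (Matrix.diagonal g * (C.mat R).gam J) *ᵥ dv (L.db k) V := by
  have h1 : Car.dm (L.db k) (Matrix.diagonal g) = 0 := by
    ext r s
    by_cases hrs : r = s <;> simp [Car.dm_apply, hrs, h.db_g]
  simp [dv_mulVec, (C.mat_isDer _).mul, h1, (C.mat_isDer _).gam, h.db_J, Car.ev]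

omit h [StarRing R] [Algebra ℂ R] [StarRing R'] [Algebra ℂ R'] in
theorem comp_e (a : Fin N) (X : ρ → R') :
    φ ∘ ((C.mat R').e a *ᵥ X) = (C.mat R).e a *ᵥ (φ ∘ X) ∧
      φ ∘ ((C.mat R').i a *ᵥ X) = (C.mat R).i a *ᵥ (φ ∘ X) := by
  constructor <;> ext r <;> simp [Matrix.mulVec, dotProduct, Car.mat_e, Car.mat_i]

omit h [StarRing R] [Algebra ℂ R] [StarRing R'] [Algebra ℂ R'] [Fintype ρ] [DecidableEq ρ] in
theorem comp_sum (X : Fin N → ρ → R') : φ ∘ (∑ a, X a) = ∑ a, φ ∘ X a := by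
  ext r
  simp

variable {V : ρ → R} {V' : ρ → R'} (e : φ ∘ V' = (Matrix.diagonal g * (C.mat R).gam J) *ᵥ V)
include e

theorem W_eq (l : Fin N) :
    φ ∘ L'.W l V' = ∑ a, J l a • (Matrix.diagonal g * (C.mat R).gam J) *ᵥ L.W a V := by
  have h2 : J * L.M' * Jᴴ * J'ᴴ = J * L.M' := by
    rw [mul_assoc, ← Matrix.conjTranspose_mul, h.inv', Matrix.conjTranspose_one, mul_one]
  have h3 : ∀ k r, L.db k (φ (V' r)) =
      ((Matrix.diagonal g * (C.mat R).gam J) *ᵥ dv (L.db k) V) r := fun k r => by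
    rw [← h.db_G, ← e]
    rfl
  have h4 : ∀ k, φ (L'.M' l k) = (J * L.M' * Jᴴ) l k := fun k => by
    rw [← h.M'_eq]
    rfl
  have h5 : ∀ b, ∑ k, (J * L.M' * Jᴴ) l k * star (J' b k) = ∑ a, J l a * L.M' a b := fun b =>
    congrFun (congrFun h2 l) b
  ext r
  simp only [LD.W, dv, Function.comp_apply, Finset.sum_apply, Pi.smul_apply, smul_eq_mul, map_sum,
    map_mul, h.db_inv, h3, h4, Matrix.mulVec_sum, Matrix.mulVec_smul, Finset.mul_sum, ← mul_assoc]
  rw [Finset.sum_comm, Finset.sum_comm (f := fun a b => J l a * _ * _)]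
  simp only [← Finset.sum_mul, h5]

theorem T_eq : φ ∘ L'.T V' = (Matrix.diagonal g * (C.mat R).gam J) *ᵥ L.T V := by
  have h1 : ∀ a, Matrix.diagonal g * (C.mat R).gam J * (C.mat R).e a =
      (C.mat R).ev (fun l => J l a) * (Matrix.diagonal g * (C.mat R).gam J) := fun a => by
    rw [mul_assoc, Car.gam_e, ← mul_assoc, ((C.mat R).commute_ev
      (fun a => (diag_comm L.hC h.g_eq a).1) _).eq, mul_assoc]
  simp only [LD.T_eq, comp_sum, (comp_e _ _).1, h.W_eq e, Matrix.mulVec_sum, Matrix.mulVec_smul,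
    Matrix.mulVec_mulVec, h1, Car.ev, Finset.sum_mul, smul_mul_assoc, Matrix.sum_mulVec,
    Matrix.smul_mulVec]
  exact Finset.sum_comm

theorem Nt_eq (τ : R') :
    φ ∘ L'.Nt τ V' = (Matrix.diagonal g * (C.mat R).gam J) *ᵥ L.Nt (φ τ) V := by
  have h1 : ∀ (c : R') (X : ρ → R'), φ ∘ (c • X) = φ c • φ ∘ X := fun c X => by
    ext r
    simp
  simp only [LD.Nt, comp_sum, h1, h.W_eq e, Matrix.mulVec_sum, Matrix.mulVec_smul, h.chain,
    Finset.sum_smul, Finset.smul_sum, smul_smul, mul_comm]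
  exact Finset.sum_comm

theorem dl_eq (c : Fin N) : φ ∘ L'.dl c V' = ∑ b, J' b c • Matrix.diagonal g *ᵥ
    (Car.dm (L.d b) ((C.mat R).gam J) *ᵥ V + (C.mat R).gam J *ᵥ L.dl b V -
      (J' * J.map (L.d b)).trace • (C.mat R).gam J *ᵥ V) := by
  have h1 := fun l V => L.dl_mulVec l ((C.mat R).commute_gam
    (fun a => (diag_comm L.hC (L.lam_eq l) a).1) (fun a => (diag_comm L.hC (L.lam_eq l) a).2) J) V
  ext r
  have h2 : φ (V' r) = g r * ((C.mat R).gam J *ᵥ V) r := by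
    rw [← Matrix.mulVec_diagonal, Matrix.mulVec_mulVec, ← e]
    rfl
  have h3 := h.solve (y := fun c => φ (L'.lam c r)) (fun _ => rfl) c
  simp only [← h1, Function.comp_apply, LD.dl_apply, map_add, map_mul, h.d_inv, h2,
    Finset.sum_apply, Pi.smul_apply, Pi.sub_apply, Matrix.mulVec_diagonal, smul_eq_mul,
    Derivation.leibniz]
  rw [h3, Finset.sum_mul, ← Finset.sum_add_distrib]
  refine Finset.sum_congr rfl fun b _ => ?_
  linear_combination J' b c * ((C.mat R).gam J *ᵥ V) r * h.lam b r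

theorem del_eq : φ ∘ L'.del V' = (Matrix.diagonal g * (C.mat R).gam J) *ᵥ L.del V := by
  have h1 : ∀ (b : Fin N) (X : ρ → R), ∑ c, J' b c • (C.mat R).i c *ᵥ Matrix.diagonal g *ᵥ X =
      Matrix.diagonal g *ᵥ (C.mat R).iv (J' b) *ᵥ X := fun b X => by
    rw [Matrix.mulVec_mulVec X (Matrix.diagonal g), ((C.mat R).commute_iv
      (fun a => (diag_comm L.hC h.g_eq a).2) _).eq, ← Matrix.mulVec_mulVec, Car.iv,
      Matrix.sum_mulVec]
    simp only [Matrix.smul_mulVec]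
  have h2 := Car.piola (fun k => C.mat_isDer (L.d k)) h.d_J h.inv'
  simp only [LD.del, comp_sum, (comp_e _ _).2, h.dl_eq e, Matrix.mulVec_sum, Matrix.mulVec_smul]
  rw [Finset.sum_comm]
  simp only [h1, ← Matrix.mulVec_mulVec _ (Matrix.diagonal g), ← Matrix.mulVec_sum]
  congr 1
  simp only [Matrix.mulVec_add, Matrix.mulVec_sub, Matrix.mulVec_smul, Matrix.mulVec_mulVec,
    Car.up_gam h.inv', Finset.sum_add_distrib, Finset.sum_sub_distrib, Matrix.mulVec_sum]
  rw [← Matrix.sum_mulVec _ fun b => (C.mat R).iv (J' b) * _, h2, Car.iv, Finset.mul_sum,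
    Matrix.sum_mulVec]
  simp [Matrix.smul_mulVec]

theorem D_eq : φ ∘ L'.D V' = (Matrix.diagonal g * (C.mat R).gam J) *ᵥ L.D V := by
  rw [LD.D, LD.D, Matrix.mulVec_sub, ← h.T_eq e, ← h.del_eq e]
  ext r
  simp

end Chg

end Pool.Agent.SE
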