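import Pool.Agent.K.MP_63735c_ag.C177
import Pool.Agent.K.MP_63735c_ag.C171
import Pool.Agent.K.MP_63735c_ag.C7
import Pool.Agent.K.MP_63735c_ag.C10

/-! Multivectors with values in the canonical bundle and powers of a line bundle (objects of the
proof). -/

open scoped ComplexOrder ContDiff Matrix Topology ENNReal InnerProductSpace
open Set Metric MeasureTheory Filter

namespace Pool.Agent.SE

open Pool.Agent.SPF Pool.Agent.AB

/-- Kähler metric, volume, semipositive line bundle and a graded Fock model. -/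
structure Geo (Y : Type) [TopologicalSpace Y] [MeasurableSpace Y] (N : ℕ) (ρ : Type) [Fintype ρ]
    [DecidableEq ρ] extends Man Y N where
  cover : toMan.M = univ
  Ψ : ι → E N → ℝ
  ν : Measure Y
  Ψ_smooth : ∀ i, ContDiffOn ℝ ∞ (Ψ i) (W i)
  den : toMan.Den ν Ψ
  Ψ_cpt : ∀ i j, ∀ z ∈ W i, ∀ φ, toMan.Ch i j z φ →
    wt (Ψ i) z = ‖(jac φ z).det‖ ^ 2 * wt (Ψ j) (φ z)
  K : ι → E N → Mat N
  kah : ∀ i, Kah (W i) (K i)
  K_cpt : toMan.Cpt K
  ψ : ι → E N → ℝ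
  ψ_smooth : ∀ i, ContDiffOn ℝ ∞ (ψ i) (W i)
  ψ_psd : ∀ i, ∀ z ∈ W i, (lev (ψ i) z).PosSemidef
  g : ι → ι → Y → ℂ
  g_hol : ∀ i j, ∀ z ∈ W i, p i z ∈ p j '' W j → DifferentiableAt ℂ (fun w => g i j (p i w)) z
  g_mul : ∀ i j k x, x ∈ p i '' W i → x ∈ p j '' W j → x ∈ p k '' W k →
    g j k x * g i j x = g i k x
  ψ_eq : ∀ i j, ∀ z ∈ W i, ∀ y ∈ W j, p i z = p j y →
    Real.exp (-ψ i z) = ‖g i j (p i z)‖ ^ 2 * Real.exp (-ψ j y)
  C : Car (Matrix ρ ρ ℤ) N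
  hC : ∀ a, C.i a = (C.e a)ᵀ
  d : ρ → ℕ
  hd : ∀ a r s, C.e a r s ≠ 0 → d r = d s

variable {N : ℕ} {ρ Y : Type} [Fintype ρ] [DecidableEq ρ] [TopologicalSpace Y] [MeasurableSpace Y]

namespace Geo

variable (X : Geo Y N ρ)

/-- The change of charts. -/
noncomputable def ch (i j : X.ι) (z : E N) : E N := Function.invFunOn (X.p j) (X.W j) (X.p i z)

/-- The transition functions of the adjoint bundles. -/
noncomputable def gg (i j : X.ι) (z : E N) (m : ℕ) : ℂ :=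
  X.g i j (X.p i z) ^ m * (jac (X.ch i j) z).det⁻¹

/-- The metrics of the adjoint bundles. -/
noncomputable def ww (i : X.ι) (z : E N) (m : ℕ) : ℝ := Real.exp (X.Ψ i z - m * X.ψ i z)

/-- The transition matrices. -/
noncomputable def G (i j : X.ι) (z : E N) : Matrix ρ ρ ℂ :=
  (Matrix.diagonal fun r => X.gg i j z (X.d r)) * (X.C.mat ℂ).gam (jac (X.ch i j) z)

/-- The metric. -/
noncomputable def H (i : X.ι) (z : E N) : Matrix ρ ρ ℂ :=
  (Matrix.diagonal fun r => (X.ww i z (X.d r) : ℂ)) * (X.C.mat ℂ).gam (X.K i z)ᵀ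

variable {X} {i j k : X.ι} {z y : E N}

theorem ch_eq (hy : y ∈ X.W j) (e : X.p i z = X.p j y) : X.ch i j z = y := by
  rw [ch, e, (X.inj j).leftInvOn_invFunOn hy]

theorem ch_ev {φ : E N → E N} (h : X.Ch i j z φ) : X.ch i j =ᶠ[𝓝 z] φ :=
  h.mono fun _ hw => ch_eq hw.2.1 hw.2.2.symm

theorem ch_Ch (hz : z ∈ X.W i) (hy : y ∈ X.W j) (e : X.p i z = X.p j y) :
    X.Ch i j z (X.ch i j) := by
  obtain ⟨φ, -, h⟩ := X.trans i j z hz y hy e
  filter_upwards [h, (ch_ev h).eventuallyEq_nhds] with w hw hw'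
  rw [hw'.self_of_nhds]
  exact ⟨hw.1.congr_of_eventuallyEq hw', hw.2⟩

theorem g_ne {x : Y} (hi : x ∈ X.p i '' X.W i) (hj : x ∈ X.p j '' X.W j) : X.g i j x ≠ 0 := by
  obtain ⟨z, hz, rfl⟩ := hi
  obtain ⟨y, hy, e⟩ := hj
  intro h
  have := X.ψ_eq i j z hz y hy e.symm
  rw [h] at this
  simp at this

theorem g_self {x : Y} (hi : x ∈ X.p i '' X.W i) : X.g i i x = 1 :=
  mul_right_cancel₀ (g_ne hi hi) (by rw [X.g_mul i i i x hi hi hi, one_mul])

theorem jac_self (hz : z ∈ X.W i) : jac (X.ch i i) z = 1 := by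
  have h : X.ch i i =ᶠ[𝓝 z] id :=
    mem_of_superset ((X.isOpen i).mem_nhds hz) fun w hw => ch_eq hw rfl
  ext a b
  simp [jac, h.fderiv_eq, Matrix.one_apply, Pi.single_apply]

theorem jac_mul (hz : z ∈ X.W i) (hy : y ∈ X.W j) (e : X.p i z = X.p j y)
    (hk : X.p i z ∈ X.p k '' X.W k) :
    jac (X.ch j k) y * jac (X.ch i j) z = jac (X.ch i k) z := by
  obtain ⟨x, hx, e'⟩ := hk
  have h1 := ch_Ch hz hy e
  have h2 := (ch_Ch hy hx (e.symm.trans e'.symm)).self_of_nhds.1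
  have h3 : X.ch i k =ᶠ[𝓝 z] X.ch j k ∘ X.ch i j := h1.mono fun w hw => by
    simp only [Function.comp_apply]
    rw [ch, ← hw.2.2]
    rfl
  rw [← ch_eq hy e] at h2 ⊢
  ext a b
  have h4 : fderiv ℂ (X.ch i j) z (Pi.single b 1) =
      ∑ c, fderiv ℂ (X.ch i j) z (Pi.single b 1) c • (Pi.single c 1 : E N) := by
    ext c
    simp [Pi.single_apply]
  simp only [jac, h3.fderiv_eq, fderiv_comp z h2 h1.self_of_nhds.1, Matrix.mul_apply,
    Matrix.of_apply, ContinuousLinearMap.comp_apply]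
  conv_rhs => rw [h4]
  simp [mul_comm]

theorem dg_gam (c : ℕ → ℂ) (M : Mat N) :
    Commute (Matrix.diagonal fun r => c (X.d r)) ((X.C.mat ℂ).gam M) := Car.diag_gam X.hC X.hd c M

theorem det_ne (hz : z ∈ X.W i) (hj : X.p i z ∈ X.p j '' X.W j) :
    (jac (X.ch i j) z).det ≠ 0 := fun h0 => by
  obtain ⟨y, hy, e⟩ := hj
  have := X.Ψ_cpt i j z hz _ (ch_Ch hz hy e.symm)
  rw [h0] at this
  exact (wt_pos (X.Ψ i) z).ne' (by simpa using this)

theorem ww_pos (i : X.ι) (z : E N) (m : ℕ) : 0 < X.ww i z m := Real.exp_pos _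

theorem wt_ww (i : X.ι) (z : E N) (m : ℕ) :
    wt (X.Ψ i) z * X.ww i z m = Real.exp (-(m * X.ψ i z)) := by
  rw [wt, ww, ← Real.exp_add]
  congr 1
  ring

theorem gg_ne (hz : z ∈ X.W i) (hj : X.p i z ∈ X.p j '' X.W j) (m : ℕ) : X.gg i j z m ≠ 0 :=
  mul_ne_zero (pow_ne_zero _ (g_ne ⟨z, hz, rfl⟩ hj)) (inv_ne_zero (det_ne hz hj))

theorem gg_self (hz : z ∈ X.W i) (m : ℕ) : X.gg i i z m = 1 := by
  simp [gg, g_self ⟨z, hz, rfl⟩, jac_self hz]

theorem gg_mul (hz : z ∈ X.W i) (hy : y ∈ X.W j) (e : X.p i z = X.p j y)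
    (hk : X.p i z ∈ X.p k '' X.W k) (m : ℕ) : X.gg j k y m * X.gg i j z m = X.gg i k z m := by
  rw [gg, gg, gg, ← jac_mul hz hy e hk, ← X.g_mul i j k _ ⟨z, hz, rfl⟩ ⟨y, hy, e.symm⟩ hk,
    Matrix.det_mul, ← e, mul_inv, mul_pow]
  ring

theorem ww_eq (hz : z ∈ X.W i) (hy : y ∈ X.W j) (e : X.p i z = X.p j y) (m : ℕ) :
    X.ww i z m = ‖X.gg i j z m‖ ^ 2 * X.ww j y m := by
  have h1 := X.Ψ_cpt i j z hz _ (ch_Ch hz hy e)
  have h2 := norm_ne_zero_iff.2 (det_ne hz ⟨y, hy, e.symm⟩)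
  rw [ch_eq hy e] at h1
  refine mul_left_cancel₀ (wt_pos (X.Ψ i) z).ne' ?_
  rw [wt_ww, h1, gg, norm_mul, norm_inv, norm_pow, mul_mul_mul_comm, wt_ww, ← mul_neg, ← mul_neg,
    Real.exp_nat_mul, Real.exp_nat_mul, X.ψ_eq i j z hz y hy e, mul_pow]
  field_simp
  ring

theorem hol_ev (hz : z ∈ X.W i) (hj : X.p i z ∈ X.p j '' X.W j) : ∀ᶠ w in 𝓝 z,
    (∀ a b, DifferentiableAt ℂ (fun t => jac (X.ch i j) t a b) w) ∧
      ∀ m, DifferentiableAt ℂ (fun t => X.gg i j t m) w := by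
  obtain ⟨y, hy, e⟩ := hj
  have h := ch_Ch hz hy e.symm
  obtain ⟨O, hO, ho, hzO⟩ := _root_.eventually_nhds_iff.1 h
  have hh : DifferentiableOn ℂ (X.ch i j) O := fun w hw => (hO w hw).1.differentiableWithinAt
  filter_upwards [ho.mem_nhds hzO, (X.isOpen i).mem_nhds hz] with w hw hw'
  have h1 := fun a b => (jac_hol ho hh a b).differentiableAt (ho.mem_nhds hw)
  refine ⟨h1, fun m => ((X.g_hol i j w hw' ⟨_, (hO w hw).2⟩).pow _).mul
    (DifferentiableAt.fun_inv ?_ (det_ne hw' ⟨_, (hO w hw).2⟩))⟩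
  simp only [Matrix.det_apply, Units.smul_def]
  exact DifferentiableAt.fun_sum fun τ _ => DifferentiableAt.const_smul
    (HasFDerivAt.finsetProd fun a _ => (h1 (τ a) a).hasFDerivAt).differentiableAt _

theorem G_smooth (hz : z ∈ X.W i) (hj : X.p i z ∈ X.p j '' X.W j) (r s : ρ) :
    ContDiffAt ℝ ∞ (fun t => X.G i j t r s) z := by
  refine smoothAt_of_hol' ((hol_ev hz hj).mono fun w hw => ?_)
  simp only [G, Matrix.diagonal_mul]
  exact (hw.2 _).mul (X.C.gam_differentiableAt hw.1 r s)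

theorem H_cpt (hz : z ∈ X.W i) (hy : y ∈ X.W j) (e : X.p i z = X.p j y) :
    X.H i z = (X.G i j z)ᴴ * X.H j y * X.G i j z := by
  have h1 := X.K_cpt i j z hz _ (ch_Ch hz hy e)
  rw [ch_eq hy e] at h1
  have h2 : (X.K i z)ᵀ = (jac (X.ch i j) z)ᴴ * (X.K j y)ᵀ * jac (X.ch i j) z := by
    rw [h1, Matrix.transpose_mul, Matrix.transpose_mul, Matrix.transpose_transpose, mul_assoc]
    rfl
  have h3 : ∀ m : ℕ, (X.ww i z m : ℂ) = star (X.gg i j z m) * (X.ww j y m : ℂ) * X.gg i j z m :=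
    fun m => by
      rw [ww_eq hz hy e]
      push_cast
      rw [← Complex.conj_mul', Complex.star_def]
      ring
  have c1 := dg_gam (X := X) (fun m => X.gg i j z m) (X.K j y)ᵀ
  have c2 := dg_gam (X := X) (fun m => (X.ww i z m : ℂ)) (jac (X.ch i j) z)ᴴ
  rw [G, H, H, Matrix.conjTranspose_mul, Car.gam_h X.hC, h2, Car.gam_mul, Car.gam_mul,
    ← mul_assoc, ← mul_assoc, c2.eq, Matrix.diagonal_conjTranspose]
  simp only [mul_assoc]
  rw [← mul_assoc ((X.C.mat ℂ).gam (X.K j y)ᵀ) (Matrix.diagonal _), ← c1.eq]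
  simp only [← mul_assoc]
  congr 2
  simp only [mul_assoc, Matrix.diagonal_mul_diagonal, h3]
  rfl

theorem H_pos (hz : z ∈ X.W i) : (X.H i z).PosDef := by
  have h1 := Car.gam_pd X.hC ((X.kah i).pos z hz).transpose
  have c := dg_gam (X := X) (fun m => (√(X.ww i z m) : ℂ)) (X.K i z)ᵀ
  have h2 := h1.conjTranspose_mul_mul_same
    (B := Matrix.diagonal fun r => (√(X.ww i z (X.d r)) : ℂ))
    (Matrix.mulVec_injective_of_isUnit (Matrix.isUnit_diagonal.2 (Pi.isUnit_iff.2 fun r =>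
      (Complex.ofReal_ne_zero.2 (Real.sqrt_pos.2 (ww_pos _ _ _)).ne').isUnit)))
  rw [mul_assoc, ← c.eq, ← mul_assoc, Matrix.diagonal_conjTranspose,
    Matrix.diagonal_mul_diagonal] at h2
  simpa only [H, Pi.star_apply, Complex.star_def, Complex.conj_ofReal, ← Complex.ofReal_mul,
    Real.mul_self_sqrt (ww_pos _ _ _).le] using h2

variable (X)

/-- The bundle. -/
noncomputable def bun : Bun Y N ρ where
  toMan := X.toMan
  cover := X.cover
  Ψ := X.Ψ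
  ν := X.ν
  Ψ_smooth := X.Ψ_smooth
  den := X.den
  G := X.G
  H := X.H
  G_smooth _ _ _ hz hj := G_smooth hz hj
  G_self i z hz := by simp [G, gg_self hz, jac_self hz, Car.gam_one]
  G_mul i j k z hz y hy e hk := by
    rw [G, G, G, mul_assoc, ← mul_assoc ((X.C.mat ℂ).gam _),
      ← (dg_gam fun m => X.gg i j z m) _ |>.eq, mul_assoc, ← Car.gam_mul,
      jac_mul hz hy e hk, ← mul_assoc, Matrix.diagonal_mul_diagonal]
    simp only [gg_mul hz hy e hk]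
  H_smooth i r s := by
    simp only [H, Matrix.diagonal_mul]
    exact (ofReal_smooth ((X.Ψ_smooth i).sub (contDiffOn_const.mul (X.ψ_smooth i))).exp).mul
      (X.C.gam_contDiffOn (fun a b => (X.kah i).smooth b a) r s)
  H_pos _ _ hz := H_pos hz
  H_cpt _ _ _ hz _ hy e := H_cpt hz hy e

/-- Coefficients of `dz`. -/
noncomputable def ca (l : Fin N) (_ : E N) : Matrix ρ ρ ℂ := -(X.C.mat ℂ).i l

/-- Coefficients of `dzb`. -/
noncomputable def cb (i : X.ι) (k : Fin N) (z : E N) : Matrix ρ ρ ℂ :=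
  (X.C.mat ℂ).ev fun a => (X.K i z)⁻¹ k a

/-- The term of order zero. -/
noncomputable def cc (i : X.ι) (z : E N) : Matrix ρ ρ ℂ :=
  ∑ l, (X.C.mat ℂ).i l * Matrix.diagonal fun r => X.d r * dr (X.ψ i) z l

end Geo

end Pool.Agent.SE
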