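import Pool.Agent.K.MP_63735c_ag.C16
import Pool.Agent.K.MP_63735c_ag.C17

/-! The local inequality for approximate solutions. -/

open scoped ComplexOrder ContDiff Matrix Topology ENNReal
open Set Metric MeasureTheory Filter

namespace Pool.Agent.AB

open Pool.Agent.SPF

variable {N : ℕ} {W : Set (E N)} {Ψ τ : E N → ℝ} {K : E N → Mat N} {h : E N → ℂ}

theorem ablc3_quad {L : Mat N} {B : ℝ} (hB : ∀ u v, ‖hq L u v‖ ≤ B * ‖u‖ * ‖v‖) (u u' : E N) :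
    |(hq L u' u').re - (hq L u u).re| ≤ B * (‖u' - u‖ ^ 2 + 2 * (‖u' - u‖ * ‖u‖)) := by
  obtain ⟨e, rfl⟩ : ∃ e, u' = u + e := ⟨u' - u, by abel⟩
  have h1 : hq L (u + e) (u + e) - hq L u u = hq L e e + hq L e u + hq L u e := by
    rw [hq_add_left, hq_add_right, hq_add_right]; ring
  rw [← Complex.sub_re, h1, add_sub_cancel_left]
  refine (Complex.abs_re_le_norm _).trans ?_
  have h2 := norm_add₃_le (a := hq L e e) (b := hq L e u) (c := hq L u e)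
  have h3 := hB e e
  have h4 := hB e u
  have h5 := hB u e
  nlinarith

theorem ablc3_cross {d : E N} {D : ℝ} (hD : ‖d‖ ≤ D) (u u' : E N) (H H' : ℂ) :
    |((u' ⬝ᵥ d) * star H').re - ((u ⬝ᵥ d) * star H).re| ≤
      N * D * (‖u' - u‖ * ‖H' - H‖ + ‖u' - u‖ * ‖H‖ + ‖u‖ * ‖H' - H‖) := by
  obtain ⟨e, rfl⟩ : ∃ e, u' = u + e := ⟨u' - u, by abel⟩
  obtain ⟨g, rfl⟩ : ∃ g, H' = H + g := ⟨H' - H, by abel⟩
  have h1 : ((u + e) ⬝ᵥ d) * star (H + g) - (u ⬝ᵥ d) * star H =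
      (e ⬝ᵥ d) * star g + (e ⬝ᵥ d) * star H + (u ⬝ᵥ d) * star g := by
    rw [add_dotProduct, star_add]; ring
  have hb : ∀ (v : E N) (c : ℂ), ‖(v ⬝ᵥ d) * star c‖ ≤ N * D * (‖v‖ * ‖c‖) := by
    intro v c
    rw [norm_mul, norm_star]
    have h2 : ‖v ⬝ᵥ d‖ ≤ N * ‖v‖ * D :=
      (dot_norm_le v d).trans (mul_le_mul_of_nonneg_left hD (by positivity))
    calc ‖v ⬝ᵥ d‖ * ‖c‖ ≤ N * ‖v‖ * D * ‖c‖ := mul_le_mul_of_nonneg_right h2 (norm_nonneg c)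
      _ = N * D * (‖v‖ * ‖c‖) := by ring
  rw [← Complex.sub_re, h1, add_sub_cancel_left, add_sub_cancel_left]
  refine (Complex.abs_re_le_norm _).trans ?_
  have h2 := norm_add₃_le (a := (e ⬝ᵥ d) * star g) (b := (e ⬝ᵥ d) * star H)
    (c := (u ⬝ᵥ d) * star g)
  have h3 := hb e g
  have h4 := hb e H
  have h5 := hb u g
  nlinarith

theorem ablc3_sq (H H' : ℂ) :
    |‖H'‖ ^ 2 - ‖H‖ ^ 2| ≤ ‖H' - H‖ ^ 2 + 2 * (‖H' - H‖ * ‖H‖) := by
  have h1 := abs_norm_sub_norm_le H' H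
  have h2 : ‖H'‖ ≤ ‖H' - H‖ + ‖H‖ := by
    have := norm_add_le (H' - H) H
    rwa [sub_add_cancel] at this
  have h3 : ‖H'‖ ^ 2 - ‖H‖ ^ 2 = (‖H'‖ - ‖H‖) * (‖H'‖ + ‖H‖) := by ring
  have h4 : 0 ≤ ‖H'‖ + ‖H‖ := by positivity
  rw [h3, abs_mul, abs_of_nonneg h4]
  calc |‖H'‖ - ‖H‖| * (‖H'‖ + ‖H‖) ≤ ‖H' - H‖ * (‖H' - H‖ + ‖H‖ + ‖H‖) :=
        mul_le_mul h1 (by linarith) h4 (norm_nonneg _)
    _ = ‖H' - H‖ ^ 2 + 2 * (‖H' - H‖ * ‖H‖) := by ring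

theorem ablc3_amgm (a x : ℝ) {t : ℝ} (ht : 0 < t) : 2 * (a * x) ≤ t⁻¹ * a ^ 2 + t * x ^ 2 := by
  have h1 : t⁻¹ * a ^ 2 + t * x ^ 2 - 2 * (a * x) = t⁻¹ * (a - t * x) ^ 2 := by
    field_simp
    ring
  have h2 : 0 ≤ t⁻¹ * (a - t * x) ^ 2 := by positivity
  linarith

/-- The integrand is a bounded quadratic form. -/
theorem qd_lip (hW : IsOpen W) (hΨ : ContDiffOn ℝ ∞ Ψ W) (hτ : Tst W τ) :
    ∃ A : ℝ, 0 < A ∧ ∀ z ∈ tsupport τ, ∀ (V V' : E N → E N) (H H' : E N → ℂ) (t : ℝ), 0 < t →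
      wt Ψ z * qd Ψ τ V' H' z - wt Ψ z * qd Ψ τ V H z ≤
        A * ((1 + t⁻¹) * (‖V' z - V z‖ ^ 2 + ‖H' z - H z‖ ^ 2) + t * (‖V z‖ ^ 2 + ‖H z‖ ^ 2)) := by
  have hC : IsCompact (tsupport τ) := hτ.cpt
  have hτW : ContDiffOn ℝ ∞ τ W := hτ.smooth.contDiffOn
  obtain ⟨B₁, hB₁, h₁⟩ := cpt_upper (h := lev τ) hC
    fun a b => (lev_smooth hW hτW a b).continuousOn.mono hτ.sub
  obtain ⟨B₂, hB₂, h₂⟩ := cpt_upper (h := lev Ψ) hC
    fun a b => (lev_smooth hW hΨ a b).continuousOn.mono hτ.sub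
  obtain ⟨T, hT⟩ := hC.exists_bound_of_continuousOn (hτW.continuousOn.mono hτ.sub)
  obtain ⟨D, hD⟩ := hC.exists_bound_of_continuousOn ((dr_smooth hW hτW).continuousOn.mono hτ.sub)
  obtain ⟨M, hM⟩ := hC.exists_bound_of_continuousOn ((wt_smooth hΨ).continuousOn.mono hτ.sub)
  refine ⟨|M| * (|T| + B₁ + N * |D| + |T| * B₂) + 1, by positivity, ?_⟩
  intro z hz V V' H H' t ht
  have q1 := ablc3_quad (fun u v => (h₁ z hz u v).1) (V z) (V' z)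
  have q2 := ablc3_quad (fun u v => (h₂ z hz u v).1) (V z) (V' z)
  have q3 := ablc3_cross ((hD z hz).trans (le_abs_self D)) (V z) (V' z) (H z) (H' z)
  have q4 := ablc3_sq (H z) (H' z)
  have hTz : |τ z| ≤ |T| := (hT z hz).trans (le_abs_self T)
  have hMz : wt Ψ z ≤ |M| := ((le_abs_self _).trans (hM z hz)).trans (le_abs_self M)
  generalize ‖V' z - V z‖ = a at *
  generalize ‖H' z - H z‖ = b at *
  generalize ‖V z‖ = x at *
  have e1 := ablc3_amgm a x ht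
  have e2 := ablc3_amgm b ‖H z‖ ht
  have e3 := ablc3_amgm a ‖H z‖ ht
  have e4 := ablc3_amgm b x ht
  have e5 : 2 * (a * b) ≤ a ^ 2 + b ^ 2 := by nlinarith [sq_nonneg (a - b)]
  have p1 : 0 ≤ t⁻¹ * a ^ 2 := by positivity
  have p2 : 0 ≤ t⁻¹ * b ^ 2 := by positivity
  have p3 : 0 ≤ t * x ^ 2 := by positivity
  have p4 : 0 ≤ t * ‖H z‖ ^ 2 := by positivity
  have p5 := sq_nonneg a
  have p6 := sq_nonneg b
  obtain ⟨S, hS⟩ : ∃ S, S = (1 + t⁻¹) * (a ^ 2 + b ^ 2) + t * (x ^ 2 + ‖H z‖ ^ 2) := ⟨_, rfl⟩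
  rw [← hS]
  have hS' : S = a ^ 2 + b ^ 2 + t⁻¹ * a ^ 2 + t⁻¹ * b ^ 2 + t * x ^ 2 + t * ‖H z‖ ^ 2 := by
    rw [hS]; ring
  have hS0 : 0 ≤ S := by linarith
  have s1 : a ^ 2 + 2 * (a * x) ≤ S := by linarith
  have s2 : b ^ 2 + 2 * (b * ‖H z‖) ≤ S := by linarith
  have s3 : 2 * (a * b + a * ‖H z‖ + x * b) ≤ S := by linarith
  have r1 : (hq (lev τ z) (V' z) (V' z)).re - (hq (lev τ z) (V z) (V z)).re ≤ B₁ * S :=
    ((le_abs_self _).trans q1).trans (mul_le_mul_of_nonneg_left s1 hB₁.le)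
  have r2 : -(τ z * ((hq (lev Ψ z) (V' z) (V' z)).re - (hq (lev Ψ z) (V z) (V z)).re)) ≤
      |T| * (B₂ * S) := by
    refine (neg_le_abs _).trans ?_
    rw [abs_mul]
    exact mul_le_mul hTz (q2.trans (mul_le_mul_of_nonneg_left s1 hB₂.le)) (abs_nonneg _)
      (abs_nonneg _)
  have r3 : 2 * (((V' z ⬝ᵥ dr τ z) * star (H' z)).re - ((V z ⬝ᵥ dr τ z) * star (H z)).re) ≤
      N * |D| * S := by
    have h5 := (le_abs_self _).trans q3
    have h6 := mul_le_mul_of_nonneg_left s3 (show (0 : ℝ) ≤ N * |D| by positivity)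
    linarith
  have r4 : τ z * (‖H' z‖ ^ 2 - ‖H z‖ ^ 2) ≤ |T| * S := by
    refine (le_abs_self _).trans ?_
    rw [abs_mul]
    exact mul_le_mul hTz (q4.trans s2) (abs_nonneg _) (abs_nonneg _)
  have r5 : qd Ψ τ V' H' z - qd Ψ τ V H z ≤ (|T| + B₁ + N * |D| + |T| * B₂) * S := by
    unfold qd
    linarith
  have r6 : 0 ≤ (|T| + B₁ + N * |D| + |T| * B₂) * S := by positivity
  calc wt Ψ z * qd Ψ τ V' H' z - wt Ψ z * qd Ψ τ V H z
      = wt Ψ z * (qd Ψ τ V' H' z - qd Ψ τ V H z) := by ring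
    _ ≤ wt Ψ z * ((|T| + B₁ + N * |D| + |T| * B₂) * S) :=
        mul_le_mul_of_nonneg_left r5 (wt_pos Ψ z).le
    _ ≤ |M| * ((|T| + B₁ + N * |D| + |T| * B₂) * S) := mul_le_mul_of_nonneg_right hMz r6
    _ ≤ (|M| * (|T| + B₁ + N * |D| + |T| * B₂) + 1) * S := by linarith

theorem qd_zero {V : E N → E N} {H : E N → ℂ} {z : E N} (hz : z ∉ tsupport τ) :
    qd Ψ τ V H z = 0 := by
  have h0 : τ =ᶠ[𝓝 z] fun _ => (0 : ℝ) := notMem_tsupport_iff_eventuallyEq.1 hz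
  have h1 : τ z = 0 := h0.eq_of_nhds
  have h2 : lev τ z = 0 := (lev_congr h0).eq_of_nhds.trans (lev_const 0)
  have h3 : dr τ z = 0 := (dr_congr h0).eq_of_nhds.trans (dr_const 0)
  unfold qd
  rw [h1, h2, h3, hq_zero]
  simp

theorem qd_cont (hW : IsOpen W) (hΨ : ContDiffOn ℝ ∞ Ψ W) (hτ : Tst W τ) {V : E N → E N}
    (hV : ContinuousOn V W) (hh : ContinuousOn h W) :
    ContinuousOn (fun z => wt Ψ z * qd Ψ τ V h z) W := by
  have hτW : ContDiffOn ℝ ∞ τ W := hτ.smooth.contDiffOn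
  have c1 : ContinuousOn τ W := hτW.continuousOn
  have c2 := hq_contOn (h := lev τ) (fun a b => (lev_smooth hW hτW a b).continuousOn) hV hV
  have c3 := hq_contOn (h := lev Ψ) (fun a b => (lev_smooth hW hΨ a b).continuousOn) hV hV
  have c4 : ContinuousOn (dr τ) W := (dr_smooth hW hτW).continuousOn
  have c5 : ContinuousOn (fun z => V z ⬝ᵥ dr τ z) W := by
    unfold dotProduct
    exact continuousOn_finsetSum _ fun a _ =>
      ((continuous_apply a).comp_continuousOn hV).mul ((continuous_apply a).comp_continuousOn c4)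
  refine (wt_smooth hΨ).continuousOn.mul ?_
  unfold qd
  exact (((c1.mul (hh.norm.pow 2)).add (Complex.continuous_re.comp_continuousOn c2)).add
    (continuousOn_const.mul (Complex.continuous_re.comp_continuousOn (c5.mul hh.star)))).sub
    (c1.mul (Complex.continuous_re.comp_continuousOn c3))

theorem lc (hW : IsOpen W) (hΨ : ContDiffOn ℝ ∞ Ψ W) (hK : Kah W K) (hτ : Tst W τ)
    (h0 : ∀ z, 0 ≤ τ z) (hh : ContinuousOn h W) (B : ℝ) {γ : ℝ} (hγ : 0 < γ) :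
    ∃ C, IsCompact C ∧ C ⊆ W ∧ ∃ γ' : ℝ, 0 < γ' ∧ ∀ w₀, ContDiffOn ℝ ∞ w₀ W →
      ∃ ε : ℝ, 0 < ε ∧ ∀ w, ContDiffOn ℝ ∞ w W → ∫ z in C, ‖db w z - db w₀ z‖ ^ 2 ≤ γ' →
        ∫ z in tsupport τ, ‖db w z‖ ^ 2 ≤ B → Weak W C Ψ K h w ε →
          -γ ≤ ∫ z in W, wt Ψ z * qd Ψ τ (grad K w) h z := by
  have hC : IsCompact (tsupport τ) := hτ.cpt
  have hm : MeasurableSet (tsupport τ) := hC.measurableSet
  obtain ⟨A, hA, hlip⟩ := qd_lip hW hΨ hτ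
  obtain ⟨c, D, -, hD, hdual⟩ := cpt_dual (h := K) hC
    (fun a b => (hK.smooth a b).continuousOn.mono hτ.sub) fun z hz => hK.pos z (hτ.sub hz)
  obtain ⟨Hm, hHm⟩ : ∃ Hm, Hm = ∫ z in tsupport τ, ‖h z‖ ^ 2 := ⟨_, rfl⟩
  have hHm0 : 0 ≤ Hm := hHm ▸ integral_nonneg fun z => sq_nonneg _
  obtain ⟨t, ht, ht'⟩ : ∃ t : ℝ, 0 < t ∧ A * (t * (D ^ 2 * |B| + Hm + 1)) = γ / 2 :=
    ⟨γ / (2 * (A * (D ^ 2 * |B| + Hm + 1))), by positivity, by field_simp⟩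
  obtain ⟨g, hg, hg'⟩ : ∃ g : ℝ, 0 < g ∧ A * ((1 + t⁻¹) * (D ^ 2 * g + g)) = γ / 2 :=
    ⟨γ / (2 * (A * ((1 + t⁻¹) * (D ^ 2 + 1)))), by positivity, by field_simp⟩
  obtain ⟨C, hCc, -, hCW, γ', hγ', hap⟩ := approx hW hΨ hK hC hτ.sub hh hg
  refine ⟨C, hCc, hCW, γ', hγ', fun w₀ hw₀ => ?_⟩
  obtain ⟨ε, hε, hap'⟩ := hap w₀ hw₀
  refine ⟨ε, hε, fun w hw h1 h2 h3 => ?_⟩
  obtain ⟨w', hw', a1, a2⟩ := hap' w hw h1 h3
  have hbk := bk hW hΨ hK hτ h0 hw'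
  have g1 := grad_smooth hW hK hw
  have g2 := grad_smooth hW hK hw'
  have g3 := (dlt_smooth hW hΨ g2).continuousOn
  have d1 := (db_smooth hW hw).continuousOn
  have d2 := (db_smooth hW hw').continuousOn
  have io : ∀ {f : E N → ℝ}, ContinuousOn f W → IntegrableOn f (tsupport τ) volume :=
    fun hf => (hf.mono hτ.sub).integrableOn_compact hC
  have i1 := io (qd_cont hW hΨ hτ g1.continuousOn hh)
  have i2 := io (qd_cont hW hΨ hτ g2.continuousOn g3)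
  have i3 := io ((d2.sub d1).norm.pow 2)
  have i4 := io ((g3.sub hh).norm.pow 2)
  have i5 := io (d1.norm.pow 2)
  have i6 := io (hh.norm.pow 2)
  rw [int_eq_cpt hW hC hτ.sub fun z _ hz => by rw [qd_zero hz, mul_zero]] at hbk ⊢
  have b1 : ∫ z in tsupport τ, ‖db w z‖ ^ 2 ≤ |B| := h2.trans (le_abs_self B)
  have key : ∫ z in tsupport τ, (wt Ψ z * qd Ψ τ (grad K w') (dlt Ψ (grad K w')) z -
      wt Ψ z * qd Ψ τ (grad K w) h z) ≤ ∫ z in tsupport τ,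
      A * ((1 + t⁻¹) * (D ^ 2 * ‖db w' z - db w z‖ ^ 2 + ‖dlt Ψ (grad K w') z - h z‖ ^ 2) +
        t * (D ^ 2 * ‖db w z‖ ^ 2 + ‖h z‖ ^ 2)) := by
    refine setIntegral_mono_on (i2.sub i1) ?_ hm fun z hz => ?_
    · exact ((((i3.const_mul _).add i4).const_mul _).add
        (((i5.const_mul _).add i6).const_mul _)).const_mul _
    · refine (hlip z hz (grad K w) (grad K w') h (dlt Ψ (grad K w')) t ht).trans ?_
      have u1 : ‖grad K w' z - grad K w z‖ ≤ D * ‖db w' z - db w z‖ := by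
        unfold grad
        rw [← Matrix.sub_vecMul]
        exact (hdual z hz _).2.2
      have u2 : ‖grad K w z‖ ≤ D * ‖db w z‖ := (hdual z hz _).2.2
      have v1 : ‖grad K w' z - grad K w z‖ ^ 2 ≤ D ^ 2 * ‖db w' z - db w z‖ ^ 2 := by
        rw [← mul_pow]
        exact pow_le_pow_left₀ (norm_nonneg _) u1 2
      have v2 : ‖grad K w z‖ ^ 2 ≤ D ^ 2 * ‖db w z‖ ^ 2 := by
        rw [← mul_pow]
        exact pow_le_pow_left₀ (norm_nonneg _) u2 2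
      gcongr
  have j1 : Integrable (fun z => D ^ 2 * ‖db w' z - db w z‖ ^ 2) (volume.restrict (tsupport τ)) :=
    i3.const_mul _
  have j2 : Integrable (fun z => ‖dlt Ψ (grad K w') z - h z‖ ^ 2)
      (volume.restrict (tsupport τ)) := i4
  have j3 : Integrable (fun z => D ^ 2 * ‖db w z‖ ^ 2) (volume.restrict (tsupport τ)) :=
    i5.const_mul _
  have j4 : Integrable (fun z => ‖h z‖ ^ 2) (volume.restrict (tsupport τ)) := i6
  have j5 : Integrable (fun z => (1 + t⁻¹) * (D ^ 2 * ‖db w' z - db w z‖ ^ 2 +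
      ‖dlt Ψ (grad K w') z - h z‖ ^ 2)) (volume.restrict (tsupport τ)) := (j1.add j2).const_mul _
  have j6 : Integrable (fun z => t * (D ^ 2 * ‖db w z‖ ^ 2 + ‖h z‖ ^ 2))
      (volume.restrict (tsupport τ)) := (j3.add j4).const_mul _
  rw [integral_sub i2 i1, integral_const_mul, integral_add j5 j6, integral_const_mul,
    integral_const_mul, integral_add j1 j2, integral_add j3 j4, integral_const_mul,
    integral_const_mul, ← hHm] at key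
  have fin : A * ((1 + t⁻¹) * ((D ^ 2 * ∫ z in tsupport τ, ‖db w' z - db w z‖ ^ 2) +
      ∫ z in tsupport τ, ‖dlt Ψ (grad K w') z - h z‖ ^ 2) +
      t * ((D ^ 2 * ∫ z in tsupport τ, ‖db w z‖ ^ 2) + Hm)) ≤
      A * ((1 + t⁻¹) * (D ^ 2 * g + g) + t * (D ^ 2 * |B| + Hm + 1)) := by
    have : (D ^ 2 * ∫ z in tsupport τ, ‖db w z‖ ^ 2) + Hm ≤ D ^ 2 * |B| + Hm + 1 := by
      have := mul_le_mul_of_nonneg_left b1 (sq_nonneg D)
      linarith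
    gcongr
  have fin2 := key.trans fin
  rw [mul_add A ((1 + t⁻¹) * (D ^ 2 * g + g)), hg', ht'] at fin2
  linarith

end Pool.Agent.AB
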