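import Pool.Agent.K.MP_63735c_ag.C179
import Pool.Agent.K.MP_63735c_ag.C171

/-! The Dolbeault-Dirac operator on sections: definitions and pointwise facts. -/

open scoped ComplexOrder ContDiff Matrix Topology ENNReal InnerProductSpace Kronecker
open Set Metric MeasureTheory Filter TopologicalSpace

namespace Pool.Agent.SE

open Pool.Agent.SPF Pool.Agent.AB

variable {N : ℕ} {ρ Y : Type} [Fintype ρ] [DecidableEq ρ]

section Int

variable {O : Opens (E N)} {C : Set (E N)} {a b : Sm O}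

/-- Functions that vanish outside `C`. -/
def Zc (O : Opens (E N)) (C : Set (E N)) : Ideal (Sm O) where
  carrier := {a | ∀ x : O, x.1 ∉ C → Sm.ev x a = 0}
  add_mem' ha hb x hx := by rw [map_add, ha x hx, hb x hx, add_zero]
  zero_mem' x _ := map_zero _
  smul_mem' c a ha x hx := by rw [smul_eq_mul, map_mul, ha x hx, mul_zero]

/-- The integral. -/
noncomputable def sint (a : Sm O) : ℂ := ∫ z in (O : Set (E N)), a.fn z

theorem sint_rep {f : E N → ℂ} (h : a.Rep f) : sint a = ∫ z in (O : Set (E N)), f z :=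
  setIntegral_congr_fun O.isOpen.measurableSet fun _ hz => (a.fn_apply hz).trans (h ⟨_, hz⟩)

theorem zc_fn (ha : a ∈ Zc O C) : ∀ z ∈ (O : Set (E N)), z ∉ C → a.fn z = 0 := fun _ hz hz' =>
  (a.fn_apply hz).trans (ha _ hz')

theorem zc_hp {D : Car (Matrix ρ ρ ℤ) N} (L : LD (Sm O) D) {U : ρ → Sm O} (h : ∀ r, U r ∈ Zc O C)
    (V : ρ → Sm O) : L.hp U V ∈ Zc O C ∧ L.hp V U ∈ Zc O C := by
  have h1 : L.hp U V ∈ Zc O C := sum_mem fun r _ => Ideal.mul_mem_right _ _ fun x hx => by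
    rw [Pi.star_apply, Sm.ev_star, h r x hx, star_zero]
  exact ⟨h1, fun x hx => by rw [← L.hp_star, Sm.ev_star, h1 x hx, star_zero]⟩

omit [DecidableEq ρ] in
theorem zc_mulVec (A : Matrix ρ ρ (Sm O)) {U : ρ → Sm O} (h : ∀ r, U r ∈ Zc O C) (r : ρ) :
    (A *ᵥ U) r ∈ Zc O C := sum_mem fun s _ => Ideal.mul_mem_left _ _ (h s)

variable (hC : IsCompact C) (h : C ⊆ O)
include hC h

theorem zc_int (ha : a ∈ Zc O C) : IntegrableOn a.fn O volume :=
  intOn O.isOpen hC h a.smooth.continuousOn (zc_fn ha)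

theorem sint_add (ha : a ∈ Zc O C) (hb : b ∈ Zc O C) : sint (a + b) = sint a + sint b := by
  rw [sint, sint, sint, ← integral_add (zc_int hC h ha) (zc_int hC h hb)]
  exact sint_rep (a := a + b) fun x => by rw [map_add, a.ev_eq, b.ev_eq]

theorem sint_d {f : Fin N → Sm O} (hf : ∀ l, f l ∈ Zc O C) (ha : a ∈ Zc O C) :
    sint (a + ∑ l, Sm.d l (f l)) = sint a ∧ sint (a + ∑ l, Sm.db l (f l)) = sint a := by
  have h1 : ∀ g : Fin N → Sm O, (∀ l, g l ∈ Zc O C ∧ sint (g l) = 0) →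
      sint (a + ∑ l, g l) = sint a := fun g hg => by
    induction (Finset.univ : Finset (Fin N)) using Finset.induction_on with
    | empty => simp
    | insert l s hl ih => rw [Finset.sum_insert hl, add_left_comm, sint_add hC h (hg l).1
        (add_mem ha (sum_mem fun k _ => (hg k).1)), ih, (hg l).2, zero_add]
  have h2 := fun l => dz_zero_off O.isOpen hC.isClosed (zc_fn (hf l)) l
  have h3 := fun l => int_dz O.isOpen hC h (f l).smooth (zc_fn (hf l)) l
  exact ⟨h1 _ fun l => ⟨fun x hx => ((f l).rep_fn.d l x).trans (h2 l x x.2 hx).1,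
      (sint_rep ((f l).rep_fn.d l)).trans (h3 l).1⟩,
    h1 _ fun l => ⟨fun x hx => ((f l).rep_fn.db l x).trans (h2 l x x.2 hx).2,
      (sint_rep ((f l).rep_fn.db l)).trans (h3 l).2⟩⟩

end Int

omit [DecidableEq ρ] in
theorem hp_kron (A : Mat N) (H : Matrix ρ ρ ℂ) (u : Fin N → ρ → ℂ) :
    hp (A ⊗ₖ H) (fun q => u q.1 q.2) (fun q => u q.1 q.2) =
      ∑ l, ∑ k, A l k * hp H (u l) (u k) := by
  simp only [hp, dotProduct, Matrix.mulVec, Fintype.sum_prod_type, Finset.mul_sum,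
    Matrix.kroneckerMap_apply, Pi.star_apply]
  refine Finset.sum_congr rfl fun l _ => Finset.sum_comm.trans ?_
  refine Finset.sum_congr rfl fun k _ => Finset.sum_congr rfl fun r _ => ?_
  exact Finset.sum_congr rfl fun s _ => by ring

theorem vac_psd {C : Car (Matrix ρ ρ ℤ) N} (hC : ∀ a, C.i a = (C.e a)ᵀ) {r0 : ρ}
    (h0 : ∀ a s, C.e a r0 s = 0) {M : Mat N} (hM : M.PosSemidef) :
    ((C.mat ℂ).gam M - Matrix.diagonal (Pi.single r0 1)).PosSemidef := by
  have h1 := (C.mat ℂ).vac_mulVec (Car.i_single hC h0)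
  have h2 : (C.mat ℂ).vac * Matrix.diagonal (Pi.single r0 1) = Matrix.diagonal (Pi.single r0 1) := by
    ext r s
    have := congrFun h1 r
    by_cases hs : s = r0
    · simpa [hs, Matrix.diagonal_apply, Pi.single_apply, ← ite_and] using this
    · simpa [hs, Matrix.diagonal_apply, Pi.single_apply] using fun e => e ▸ hs
  have h3 : (Matrix.diagonal (Pi.single r0 1 : ρ → ℂ))ᴴ = Matrix.diagonal (Pi.single r0 1) := by
    simp [Pi.star_single]
  have h4 := congrArg Matrix.conjTranspose h2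
  rw [Matrix.conjTranspose_mul, h3, Car.vac_h hC] at h4
  have h5 := Matrix.posSemidef_conjTranspose_mul_self
    ((C.mat ℂ).vac - Matrix.diagonal (Pi.single r0 1))
  rw [Matrix.conjTranspose_sub, h3, Car.vac_h hC, sub_mul, mul_sub, mul_sub, Car.vac_vac, h2, h4,
    Matrix.diagonal_mul_diagonal] at h5
  simpa [← Pi.single_mul, ← Pi.mul_def] using (Car.gam_psd hC hM).2.add h5

variable [TopologicalSpace Y] [MeasurableSpace Y]

namespace Geo

variable (X : Geo Y N ρ)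

theorem dg_psd {M : Mat N} (hM : M.PosSemidef) {c : ℕ → ℝ} (hc : ∀ m, 0 ≤ c m) :
    ((Matrix.diagonal fun r => (c (X.d r) : ℂ)) * (X.C.mat ℂ).gam M).PosSemidef ∧
      ∀ r0, (∀ a s, X.C.e a r0 s = 0) → ((Matrix.diagonal fun r => (c (X.d r) : ℂ)) *
        (X.C.mat ℂ).gam M - Matrix.diagonal (Pi.single r0 (c (X.d r0) : ℂ))).PosSemidef := by
  obtain ⟨S, hS⟩ : ∃ S : Matrix ρ ρ ℂ, S = Matrix.diagonal fun r => (√(c (X.d r)) : ℂ) := ⟨_, rfl⟩
  have h1 : Sᴴ = S := by simp [hS, Pi.star_def]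
  have h2 : Sᴴ * (X.C.mat ℂ).gam M * S =
      (Matrix.diagonal fun r => (c (X.d r) : ℂ)) * (X.C.mat ℂ).gam M := by
    rw [h1, hS, mul_assoc, ← (dg_gam (X := X) (fun m => (√(c m) : ℂ)) M).eq, ← mul_assoc,
      Matrix.diagonal_mul_diagonal]
    simp only [← Complex.ofReal_mul, Real.mul_self_sqrt (hc _)]
  refine ⟨h2 ▸ (Car.gam_psd X.hC hM).1.conjTranspose_mul_mul_same S, fun r0 h0 => ?_⟩
  have h3 := (vac_psd X.hC h0 hM).conjTranspose_mul_mul_same S
  rw [mul_sub, sub_mul, h2, h1, hS, Matrix.diagonal_mul_diagonal, Matrix.diagonal_mul_diagonal] at h3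
  have h4 : ∀ r, (√(c (X.d r)) : ℂ) * (Pi.single r0 1 : ρ → ℂ) r * √(c (X.d r)) =
      (Pi.single r0 (c (X.d r0) : ℂ) : ρ → ℂ) r := fun r => by
    by_cases hr : r = r0 <;> simp [hr, ← Complex.ofReal_mul, Real.mul_self_sqrt (hc _)]
  simpa only [h4] using h3

theorem exists_D : ∃ D : X.bun.Sec →ₗ[ℂ] X.bun.Sec,
    ∀ i, X.bun.Loc D i X.ca (X.cb i) (X.cc i) := by
  have ha : ∀ i l, SmM (X.W i) (X.ca l) := fun i l => SmM.const _
  have hb : ∀ i l, SmM (X.W i) (X.cb i l) := fun i l =>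
    SmM.sum Finset.univ fun a _ =>
      SmM.smul ((X.kah i).inv_smooth l a) (SmM.const ((X.C.mat ℂ).e a))
  have hc : ∀ i, SmM (X.W i) (X.cc i) := fun i => SmM.sum _ fun l _ => (SmM.const _).mul
    fun r s => by
      by_cases h : r = s
      · simp only [h, Matrix.diagonal_apply_eq]
        exact contDiffOn_const.mul (contDiffOn_pi.1 (dr_smooth (X.isOpen i) (X.ψ_smooth i)) l)
      · simp only [Matrix.diagonal_apply_ne _ h]
        exact contDiffOn_const
  exact ⟨X.bun.lin (fun V i => op X.ca (X.cb i) (X.cc i) (V.v i))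
    (fun V => ⟨fun i => op_smooth (X.isOpen i) (ha i) (hb i) (hc i) (V.smooth i),
      fun i j z hz y hy e => (op_cpt V.fam (θ := fun _ => 0) (fun _ => contDiffOn_const)
        hz hy e).1⟩)
    (fun V V' i z hz => op_add (diffAt (X.isOpen i) (V.smooth i) hz)
      (diffAt (X.isOpen i) (V'.smooth i) hz))
    (fun c V i z hz => op_const_smul (diffAt (X.isOpen i) (V.smooth i) hz) c),
    fun i => ⟨ha i, hb i, hc i, fun V z hz => Bun.lin_v V hz⟩⟩

/-- The Dirac operator. -/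
noncomputable def D : X.bun.Sec →ₗ[ℂ] X.bun.Sec := X.exists_D.choose

theorem D_loc (i : X.ι) : X.bun.Loc X.D i X.ca (X.cb i) (X.cc i) := X.exists_D.choose_spec i

theorem exists_P : ∃ P : X.bun.Sec →ₗ[ℂ] X.bun.Sec,
    ∀ i, X.bun.Loc0 P i fun _ => (X.C.mat ℂ).gam (-1 : Mat N) :=
  Bun.exists_mul (fun _ => SmM.const _) fun i j z _ _ _ _ => by
    change _ * X.G i j z = X.G i j z * _
    rw [G, ← mul_assoc, ← (dg_gam (X := X) (fun m => X.gg i j z m) _).eq, mul_assoc,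
      Car.par_gam, mul_assoc]

theorem exists_F (c : ℕ → ℂ) : ∃ Q : X.bun.Sec →ₗ[ℂ] X.bun.Sec,
    ∀ i, X.bun.Loc0 Q i fun _ => Matrix.diagonal fun r => c (X.d r) :=
  Bun.exists_mul (fun _ => SmM.const _) fun _ _ _ _ _ _ _ =>
    ((Matrix.commute_diagonal _ _).mul_right (dg_gam c _)).eq

/-- The parity of the multivector degree. -/
noncomputable def P : X.bun.Sec →ₗ[ℂ] X.bun.Sec := X.exists_P.choose

/-- A function of the degree. -/
noncomputable def F (c : ℕ → ℂ) : X.bun.Sec →ₗ[ℂ] X.bun.Sec := (X.exists_F c).choose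

/-- The parity of the degree. -/
noncomputable def Q : X.bun.Sec →ₗ[ℂ] X.bun.Sec := X.F fun m => (-1) ^ m

theorem P_loc (i : X.ι) : X.bun.Loc0 X.P i fun _ => (X.C.mat ℂ).gam (-1 : Mat N) :=
  X.exists_P.choose_spec i

theorem F_loc (c : ℕ → ℂ) (i : X.ι) :
    X.bun.Loc0 (X.F c) i fun _ => Matrix.diagonal fun r => c (X.d r) :=
  (X.exists_F c).choose_spec i

theorem P_P (V : X.bun.Sec) : X.P (X.P V) = V := Bun.Sec.ext' fun i z hz => by
  rw [(X.P_loc i).eq _ z hz, (X.P_loc i).eq _ z hz, Matrix.mulVec_mulVec, Car.par_par,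
    Matrix.one_mulVec]

theorem Q_Q (V : X.bun.Sec) : X.Q (X.Q V) = V := Bun.Sec.ext' fun i z hz => by
  rw [Q, (X.F_loc _ i).eq _ z hz, (X.F_loc _ i).eq _ z hz, Matrix.mulVec_mulVec,
    Matrix.diagonal_mul_diagonal]
  simp [← mul_pow]

theorem P_F (c : ℕ → ℂ) (V : X.bun.Sec) : X.P (X.F c V) = X.F c (X.P V) :=
  Bun.Sec.ext' fun i z hz => by
    rw [(X.P_loc i).eq _ z hz, (X.F_loc _ i).eq _ z hz, (X.F_loc _ i).eq _ z hz,
      (X.P_loc i).eq _ z hz, Matrix.mulVec_mulVec, Matrix.mulVec_mulVec, (dg_gam c _).eq]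

/-- The local data of a chart. -/
noncomputable abbrev L (i : X.ι) : LD (Sm (X.dom i)) X.C := X.ld i Subset.rfl

variable {X} in
/-- A section in a chart. -/
noncomputable def sv (V : X.bun.Sec) (i : X.ι) : ρ → Sm (X.dom i) := mkV (V.v i) (V.smooth i)

variable {X} in
theorem sv_rep (V : X.bun.Sec) (i : X.ι) : VRep (sv V i) (V.v i) := vrep_mk _

variable {X} in
theorem rep_D {i : X.ι} {V : X.bun.Sec} {U : ρ → Sm (X.dom i)} (h : VRep U (V.v i)) :
    VRep ((X.L i).D U) ((X.D V).v i) := fun x =>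
  (ev_D _ h x).trans ((X.D_loc i).eq V x x.2).symm

theorem D_P (V : X.bun.Sec) : X.D (X.P V) = -X.P (X.D V) := Bun.Sec.ext' fun i z hz => by
  have h : ∀ {U : ρ → Sm (X.dom i)} {V : X.bun.Sec}, VRep U (V.v i) →
      VRep ((X.C.mat _).gam (-1 : Matrix (Fin N) (Fin N) (Sm (X.dom i))) *ᵥ U) ((X.P V).v i) :=
    fun h x => by
      rw [evr_mulVec, Car.mat_gam, h, (X.P_loc i).eq _ x x.2, Matrix.map_neg _ (map_neg _),
        Matrix.map_one _ (map_zero _) (map_one _)]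
  rw [Bun.v_neg, ← rep_D (h (sv_rep V i)) ⟨z, hz⟩, ← h (rep_D (sv_rep V i)) ⟨z, hz⟩, LD.D_par]
  exact funext fun r => map_neg _ _

theorem D_F (c : ℕ → ℂ) (V : X.bun.Sec) : X.D (X.F c V) = X.F c (X.D V) :=
  Bun.Sec.ext' fun i z hz => by
    have h : ∀ {U : ρ → Sm (X.dom i)} {V : X.bun.Sec}, VRep U (V.v i) →
        VRep ((Matrix.diagonal fun r => algebraMap ℂ _ (c (X.d r))) *ᵥ U) ((X.F c V).v i) :=
      fun h x => by
        rw [evr_mulVec, h, (X.F_loc c i).eq _ x x.2, Matrix.diagonal_map (map_zero _)]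
        rfl
    rw [← rep_D (h (sv_rep V i)) ⟨z, hz⟩, ← h (rep_D (sv_rep V i)) ⟨z, hz⟩,
      LD.D_diag _ (fun a r s e => by rw [X.hd a r s e]) (fun _ _ => Derivation.map_algebraMap _ _)
        fun _ _ => Derivation.map_algebraMap _ _]

theorem gam_single {r0 : ρ} (h0 : ∀ a s, X.C.e a r0 s = 0) (c : ρ → ℂ) (M : Mat N) (t : ℂ) :
    (Matrix.diagonal c * (X.C.mat ℂ).gam M) *ᵥ Pi.single r0 t = Pi.single r0 (c r0 * t) := by
  rw [← Matrix.mulVec_mulVec, Car.gam_mulVec, Matrix.diagonal_mulVec_single]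
  intro a
  rw [← mul_one t, ← smul_eq_mul, Pi.single_smul, Matrix.mulVec_smul, Car.i_single X.hC h0,
    smul_zero]

/-- A section of an adjoint bundle as a vacuum valued section. -/
theorem exists_vac {r0 : ρ} (h0 : ∀ a s, X.C.e a r0 s = 0) {f : X.ι → E N → ℂ}
    (hf : ∀ i, ContDiffOn ℝ ∞ (f i) (X.W i))
    (hc : ∀ i j, ∀ z ∈ X.W i, ∀ y ∈ X.W j, X.p i z = X.p j y →
      f j y = X.gg i j z (X.d r0) * f i z) :
    ∃ s : X.bun.Sec, ∀ i, ∀ z ∈ X.W i, s.v i z = Pi.single r0 (f i z) := by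
  refine ⟨X.bun.sec fun i z => Pi.single r0 (f i z), fun i z hz => Bun.sec_v ⟨fun i =>
    contDiffOn_pi.2 fun r => ?_, fun i j z hz y hy e => ?_⟩ hz⟩
  · by_cases h : r = r0
    · simp only [h, Pi.single_eq_same]
      exact hf i
    · simpa [h] using contDiffOn_const
  · rw [hc i j z hz y hy e]
    exact (X.gam_single h0 (fun r => X.gg i j z (X.d r)) _ _).symm

/-- The vacuum component of a section is a section of an adjoint bundle. -/
theorem vac_cpt {r0 : ρ} (h0 : ∀ a s, X.C.e a r0 s = 0) (V : X.bun.Sec) {i j : X.ι} {z y : E N}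
    (hz : z ∈ X.W i) (hy : y ∈ X.W j) (e : X.p i z = X.p j y) :
    V.v j y r0 = X.gg i j z (X.d r0) * V.v i z r0 := by
  have h := (X.C.mat ℂ).gam_mulVec (Car.i_single X.hC h0) (jac (X.ch i j) z)ᵀ
  rw [← Car.gam_t X.hC, Matrix.mulVec_transpose] at h
  have h2 := Matrix.dotProduct_mulVec (Pi.single r0 1) ((X.C.mat ℂ).gam (jac (X.ch i j) z))
    (V.v i z)
  rw [h, single_one_dotProduct, single_one_dotProduct] at h2
  rw [V.fam.cpt i j z hz y hy e, ← h2, ← Matrix.mulVec_diagonal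
    (fun r => X.gg i j z (X.d r)), Matrix.mulVec_mulVec]
  rfl

/-- The vacuum component is bounded by the norm. -/
theorem vac_le {r0 : ρ} (h0 : ∀ a s, X.C.e a r0 s = 0) {i : X.ι} {z : E N} (hz : z ∈ X.W i)
    (u : ρ → ℂ) : X.ww i z (X.d r0) * ‖u r0‖ ^ 2 ≤ (hp (X.H i z) u u).re := by
  have h := ((X.dg_psd ((X.kah i).pos z hz).transpose.posSemidef
    (c := fun m => X.ww i z m) fun _ => (ww_pos _ _ _).le).2 r0
      h0).re_dotProduct_nonneg u
  rw [Matrix.sub_mulVec, dotProduct_sub, map_sub, sub_nonneg] at h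
  refine le_trans (le_of_eq ?_) h
  have : star u ⬝ᵥ Matrix.diagonal (Pi.single r0 (X.ww i z (X.d r0) : ℂ)) *ᵥ u =
      ((X.ww i z (X.d r0) * ‖u r0‖ ^ 2 : ℝ) : ℂ) := by
    simp only [dotProduct, Matrix.mulVec_diagonal, Pi.single_apply, ite_mul, zero_mul, mul_ite,
      mul_zero, Finset.sum_ite_eq', Finset.mem_univ, if_true, Pi.star_apply, Complex.ofReal_mul,
      Complex.ofReal_pow, ← Complex.conj_mul', Complex.star_def, mul_left_comm]
  rw [this]
  rfl

end Geo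

end Pool.Agent.SE
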