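import Pool.Agent.K.MP_63735c_ag.C169

/-! The vector of top degree in a Fock model. -/

open scoped Matrix

namespace Pool.Agent.SE

section Alg

variable {N : ℕ} {A R : Type} [Ring A] [CommRing R] [Algebra R A] (C : Car A N)

/-- The creation operator as a linear map. -/
def Car.evL : (Fin N → R) →ₗ[R] A where
  toFun := C.ev
  map_add' := C.ev_add
  map_smul' := C.ev_smul

/-- The product of `N` creation operators is the determinant times the top product. -/
theorem Car.prod_ev (v : Fin N → Fin N → R) :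
    (List.ofFn fun b => C.ev (v b)).prod = (Matrix.of v).det • (List.ofFn C.e).prod := by
  let F : (Fin N → R) [⋀^Fin N]→ₗ[R] A :=
    (ExteriorAlgebra.lift R ⟨C.evL, C.ev2⟩).toLinearMap.compAlternatingMap
      (ExteriorAlgebra.ιMulti R N)
  have hF : ∀ w, F w = (List.ofFn fun b => C.ev (w b)).prod := by
    intro w
    simp [F, ExteriorAlgebra.ιMulti_apply, map_list_prod, List.map_ofFn, Function.comp_def,
      Car.evL]
  have h2 : F = (Pi.basisFun R (Fin N)).det.smulRight (F (Pi.basisFun R (Fin N))) := by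
    refine (Pi.basisFun R (Fin N)).ext_alternating fun i hi => ?_
    let σ : Equiv.Perm (Fin N) := Equiv.ofBijective i (Finite.injective_iff_bijective.1 hi)
    change F (Pi.basisFun R (Fin N) ∘ σ) =
      (Pi.basisFun R (Fin N)).det (Pi.basisFun R (Fin N) ∘ σ) • _
    rw [AlternatingMap.map_perm, AlternatingMap.map_perm, Module.Basis.det_self, smul_assoc,
      one_smul]
  rw [← hF, h2, AlternatingMap.smulRight_apply, hF, Pi.basisFun_det_apply]
  simp only [Pi.basisFun_apply, Car.ev_single]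

theorem Car.gam_prod (M : Matrix (Fin N) (Fin N) R) : ∀ l : List (Fin N),
    C.gam M * (l.map C.e).prod = (l.map fun b => C.ev fun a => M a b).prod * C.gam M
  | [] => by simp
  | b :: l => by
    rw [List.map_cons, List.map_cons, List.prod_cons, List.prod_cons, ← mul_assoc, Car.gam_e,
      mul_assoc, Car.gam_prod M l, mul_assoc]

theorem Car.i_prod {a : Fin N} : ∀ {l : List (Fin N)}, a ∉ l →
    ∃ x, C.i a * (l.map C.e).prod = x * C.i a
  | [], _ => ⟨1, by simp⟩
  | b :: l, h => by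
    rw [List.mem_cons, not_or] at h
    obtain ⟨x, hx⟩ := Car.i_prod h.2
    exact ⟨-(C.e b * x), by
      rw [List.map_cons, List.prod_cons, ← mul_assoc, C.ie_ne h.1, neg_mul, mul_assoc, hx, neg_mul,
        mul_assoc]⟩

end Alg

theorem Car.prod_mulVec_ne {N : ℕ} {ρ R : Type} [Fintype ρ] [DecidableEq ρ] [CommRing R]
    (C : Car (Matrix ρ ρ R) N) {V : ρ → R} (h : ∀ a, C.i a *ᵥ V = 0) (hV : V ≠ 0) :
    ∀ {l : List (Fin N)}, l.Nodup → (l.map C.e).prod *ᵥ V ≠ 0
  | [], _ => by simpa using hV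
  | a :: l, hl => by
    rw [List.nodup_cons] at hl
    intro h0
    obtain ⟨x, hx⟩ := C.i_prod hl.1
    have := congrArg (C.i a *ᵥ ·) h0
    simp only [Matrix.mulVec_mulVec, Matrix.mulVec_zero] at this
    rw [List.map_cons, List.prod_cons, ← mul_assoc, C.ie_self, sub_mul, one_mul, mul_assoc, hx,
      ← mul_assoc, Matrix.sub_mulVec, ← Matrix.mulVec_mulVec _ _ (C.i a), h, Matrix.mulVec_zero,
      sub_zero] at this
    exact Car.prod_mulVec_ne C h hV hl.2 this

theorem Car.exists_top {N : ℕ} {ρ : Type} [Fintype ρ] [DecidableEq ρ]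
    {C : Car (Matrix ρ ρ ℤ) N} (hC : ∀ a, C.i a = (C.e a)ᵀ) {d : ρ → ℕ}
    (hd : ∀ a r s, C.e a r s ≠ 0 → d r = d s) {r0 : ρ} (h0 : ∀ a s, C.e a r0 s = 0) :
    ∃ τ : ρ → ℂ, τ ≠ 0 ∧ (∀ r, τ r ≠ 0 → d r = d r0) ∧
      ∀ M : Matrix (Fin N) (Fin N) ℂ, (C.mat ℂ).gam M *ᵥ τ = M.det • τ := by
  have hi := Car.i_single (R := ℂ) hC h0
  refine ⟨((List.finRange N).map (C.mat ℂ).e).prod *ᵥ Pi.single r0 1,
    (C.mat ℂ).prod_mulVec_ne hi (by simp) (List.nodup_finRange N), fun r hr => ?_, fun M => ?_⟩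
  · have hc : Commute (Matrix.diagonal fun r => ((d r : ℕ) : ℂ))
        ((List.finRange N).map (C.mat ℂ).e).prod :=
      Commute.list_prod_right _ _ fun y hy => by
        obtain ⟨a, -, rfl⟩ := List.mem_map.1 hy
        exact Car.diag_e hd (fun n => (n : ℂ)) a
    have := congrFun (congrFun hc r) r0
    rw [Matrix.diagonal_mul, Matrix.mul_diagonal, mul_comm] at this
    rw [Matrix.mulVec_single_one] at hr
    exact_mod_cast mul_left_cancel₀ hr this
  · rw [Matrix.mulVec_mulVec, Car.gam_prod, ← Matrix.mulVec_mulVec, (C.mat ℂ).gam_mulVec hi,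
      ← List.ofFn_eq_map, ← List.ofFn_eq_map, Car.prod_ev, Matrix.smul_mulVec]
    rw [← Matrix.det_transpose M]
    rfl

end Pool.Agent.SE
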