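import Pool.Agent.K.MP_63735c_ag.C8

/-! The measure of a volume form on a compact manifold. -/

open scoped Topology
open Set MeasureTheory Filter

namespace Pool.Agent.AB

open Pool.Agent.SPF

section aux

variable {N : ℕ} {Y : Type} [TopologicalSpace Y] {D : Man Y N}

theorem srvol_Ch {i j : D.ι} {z : E N} (hz : z ∈ D.W i) (hx : D.p i z ∈ D.p j '' D.W j) :
    D.Ch i j z fun w => Function.invFunOn (D.p j) (D.W j) (D.p i w) := by
  obtain ⟨y, hy, e⟩ := hx
  obtain ⟨φ, -, h⟩ := D.trans i j z hz y hy e.symm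
  have hev : (fun w => Function.invFunOn (D.p j) (D.W j) (D.p i w)) =ᶠ[𝓝 z] φ :=
    h.mono fun w hw => by
      show Function.invFunOn (D.p j) (D.W j) (D.p i w) = φ w
      rw [← hw.2.2, (D.inj j).leftInvOn_invFunOn hw.2.1]
  filter_upwards [h, hev.eventuallyEq_nhds] with w hw hw'
  have e' : Function.invFunOn (D.p j) (D.W j) (D.p i w) = φ w := hw'.self_of_nhds
  rw [e']
  exact ⟨hw.1.congr_of_eventuallyEq hw', hw.2⟩

theorem srvol_det (φ : E N → E N) (z : E N) :
    |((fderiv ℂ φ z).restrictScalars ℝ).det| = ‖(jac φ z).det‖ ^ 2 := by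
  have hJ : jac φ z = LinearMap.toMatrix' (fderiv ℂ φ z : E N →ₗ[ℂ] E N) := by
    ext a b
    simp [jac, LinearMap.toMatrix'_apply]
  have h4 : ((fderiv ℂ φ z).restrictScalars ℝ).det = Complex.normSq (jac φ z).det := by
    rw [hJ, LinearMap.det_toMatrix', ← Algebra.norm_complex_apply,
      ← LinearMap.det_restrictScalars]
    rfl
  rw [h4, abs_of_nonneg (Complex.normSq_nonneg _), Complex.normSq_eq_norm_sq]

theorem srvol_ch {Ψ : D.ι → E N → ℝ}
    (h : ∀ i j, ∀ z ∈ D.W i, ∀ φ, D.Ch i j z φ →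
      wt (Ψ i) z = ‖(jac φ z).det‖ ^ 2 * wt (Ψ j) (φ z))
    {i j : D.ι} {S : Set (E N)} (hS : MeasurableSet S) (hW : S ⊆ D.W i)
    (hj : ∀ z ∈ S, D.p i z ∈ D.p j '' D.W j) :
    ∫⁻ z in D.W j ∩ D.p j ⁻¹' (D.p i '' S), ENNReal.ofReal (wt (Ψ j) z) =
      ∫⁻ z in S, ENNReal.ofReal (wt (Ψ i) z) := by
  set φ : E N → E N := fun w => Function.invFunOn (D.p j) (D.W j) (D.p i w) with hφ
  have hc : ∀ z ∈ S, D.Ch i j z φ := fun z hz => srvol_Ch (hW hz) (hj z hz)
  have him : D.W j ∩ D.p j ⁻¹' (D.p i '' S) = φ '' S := by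
    ext y
    constructor
    · rintro ⟨hy, z, hz, e⟩
      exact ⟨z, hz, D.inj j (hc z hz).self_of_nhds.2.1 hy ((hc z hz).self_of_nhds.2.2.trans e)⟩
    · rintro ⟨z, hz, rfl⟩
      exact ⟨(hc z hz).self_of_nhds.2.1, z, hz, (hc z hz).self_of_nhds.2.2.symm⟩
  have hder : ∀ z ∈ S, HasFDerivWithinAt φ ((fderiv ℂ φ z).restrictScalars ℝ) S z := fun z hz =>
    ((hc z hz).self_of_nhds.1.hasFDerivAt.restrictScalars ℝ).hasFDerivWithinAt
  have hi : InjOn φ S := fun x hx y hy e => D.inj i (hW hx) (hW hy) (by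
    rw [← (hc x hx).self_of_nhds.2.2, ← (hc y hy).self_of_nhds.2.2, e])
  rw [him, lintegral_image_eq_lintegral_abs_det_fderiv_mul volume hS hder hi]
  refine setLIntegral_congr_fun hS fun z hz => ?_
  show ENNReal.ofReal _ * ENNReal.ofReal _ = ENNReal.ofReal _
  rw [← ENNReal.ofReal_mul (abs_nonneg _), srvol_det, ← h i j z (hW hz) φ (hc z hz)]

variable [MeasurableSpace Y] [BorelSpace Y]

theorem srvol_meas {i : D.ι} {S : Set (E N)} (hS : MeasurableSet S) (hW : S ⊆ D.W i) {P : Set Y}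
    (hP : MeasurableSet P) : MeasurableSet (S ∩ D.p i ⁻¹' P) := by
  rw [← Subtype.image_preimage_coe]
  exact hS.subtype_image ((Man.abmeas_emb hS hW).measurable hP)

theorem srvol_one (j : D.ι) (f : E N → ENNReal) : ∃ μ : Measure Y, ∀ T, MeasurableSet T →
    μ T = ∫⁻ z in D.W j ∩ D.p j ⁻¹' T, f z := by
  have hS := (D.isOpen j).measurableSet
  refine ⟨Measure.map (fun z : D.W j => D.p j z)
    (Measure.comap Subtype.val (volume.withDensity f)), fun T hT => ?_⟩
  rw [(Man.abmeas_emb hS Subset.rfl).map_apply, (MeasurableEmbedding.subtype_coe hS).comap_apply,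
    ← withDensity_apply _ (srvol_meas hS Subset.rfl hT), ← Subtype.image_preimage_coe]
  rfl

end aux

theorem Man.exists_den {N : ℕ} {Y : Type} [TopologicalSpace Y] [CompactSpace Y] [T2Space Y]
    [MeasurableSpace Y] [BorelSpace Y] (D : Man Y N) (hc : D.M = univ) (Ψ : D.ι → E N → ℝ)
    (hΨ : ∀ i, ContinuousOn (Ψ i) (D.W i))
    (h : ∀ i j, ∀ z ∈ D.W i, ∀ φ, D.Ch i j z φ →
      wt (Ψ i) z = ‖(jac φ z).det‖ ^ 2 * wt (Ψ j) (φ z)) :
    ∃ ν : Measure Y, D.Den ν Ψ := by
  rcases isEmpty_or_nonempty D.ι with hι | hι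
  · exact ⟨0, fun i => hι.elim i⟩
  obtain ⟨f, hf⟩ := isCompact_univ.isLindelof.indexed_countable_subcover
    (fun i => D.p i '' D.W i) D.isOpen_img hc.ge
  choose μ hμ using fun j : D.ι => srvol_one (D := D) j fun z => ENNReal.ofReal (wt (Ψ j) z)
  set P : ℕ → Set Y := disjointed fun n => D.p (f n) '' D.W (f n) with hP
  have hm : ∀ n, MeasurableSet (P n) :=
    MeasurableSet.disjointed fun n => (D.isOpen_img (f n)).measurableSet
  refine ⟨Measure.sum fun n => (μ (f n)).restrict (P n), fun i S hW hS => ?_⟩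
  have hT : MeasurableSet (D.p i '' S) := Man.meas_img hS hW
  have hU : S = ⋃ n, S ∩ D.p i ⁻¹' P n := by
    rw [← inter_iUnion, ← preimage_iUnion, hP, iUnion_disjointed, univ_subset_iff.1 hf,
      preimage_univ, inter_univ]
  have hd : Pairwise (Function.onFun Disjoint fun n => S ∩ D.p i ⁻¹' P n) := fun n m hnm =>
    ((disjoint_disjointed _ hnm).preimage (D.p i)).mono inter_subset_right inter_subset_right
  rw [Measure.sum_apply _ hT]
  conv_rhs => rw [hU, lintegral_iUnion (fun n => srvol_meas hS hW (hm n)) hd]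
  refine tsum_congr fun n => ?_
  rw [Measure.restrict_apply hT, hμ _ _ (hT.inter (hm n)), ← image_inter_preimage]
  exact srvol_ch h (srvol_meas hS hW (hm n)) (inter_subset_left.trans hW) fun z hz =>
    disjointed_subset (fun n => D.p (f n) '' D.W (f n)) n hz.2

end Pool.Agent.AB
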