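import Pool.Agent.K.MP_63735c_ag.C178
import Pool.Agent.P.MP_63735c_ag.SRDefs
import Pool.Agent.K.MP_63735c_ag.C183

/-! The geometric data attached to a Kähler model with a line bundle. -/

open scoped ComplexOrder ContDiff Matrix Topology ENNReal
open Set Metric MeasureTheory Filter

namespace Pool.Agent.SE

open Pool.Agent.SPF Pool.Agent.AB

variable {N : ℕ} {X : Type} [TopologicalSpace X] {A : Atlas X N}

theorem det_hol (C : Chart N) : DifferentiableOn ℂ (fun y => (C.σ y).det) C.W := by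
  simp only [Matrix.det_apply, Units.smul_def]
  refine DifferentiableOn.fun_sum fun τ _ => DifferentiableOn.const_smul ?_ _
  intro x hx
  exact (HasFDerivAt.finsetProd fun a _ => ((C.σ_hol (τ a) a).differentiableAt
    (C.isOpen.mem_nhds hx)).hasFDerivAt).differentiableAt.differentiableWithinAt

theorem Line.lev_eq (L : Line A) {i : A.ι} {z : E N} (hz : z ∈ (A.C i).W) :
    lev (L.ψ i) z = (A.C i).η z := by
  ext a b
  exact L.curv i z hz a b

namespace Res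

variable {L : Line A} {Y : Type} [TopologicalSpace Y] (Z : Res L Y) {S : Set Y}

/-- The charts of `A` and the charts of `Y`. -/
def ix : A.ι ⊕ Z.ι → Z.ι := Sum.elim Z.c id

/-- The charts of `A` and the parts of the charts of `Y` outside `S`. -/
def dm (S : Set Y) : A.ι ⊕ Z.ι → Set (E N) :=
  Sum.elim (fun i => (A.C i).W) fun a => Z.W a ∩ Z.p a ⁻¹' Sᶜ

theorem dm_sub : ∀ k, Z.dm S k ⊆ Z.W (Z.ix k)
  | .inl i => Z.sub i
  | .inr _ => inter_subset_left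

theorem dm_open (hS : IsClosed S) : ∀ k, IsOpen (Z.dm S k)
  | .inl i => (A.C i).isOpen
  | .inr a => (Z.cont a).isOpen_inter_preimage (Z.isOpen a) hS.isOpen_compl

/-- The manifold. -/
def man (hS : IsClosed S) : Man Y N where
  ι := A.ι ⊕ Z.ι
  W := Z.dm S
  p k := Z.p (Z.ix k)
  isOpen := Z.dm_open hS
  cont k := (Z.cont _).mono (Z.dm_sub k)
  inj k := (Z.inj _).mono (Z.dm_sub k)
  opn k O h1 h2 := Z.opn _ O h1 (h2.trans (Z.dm_sub k))
  trans k l z hz y hy e := by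
    obtain ⟨φ, rfl, h⟩ := Z.trans _ _ z (Z.dm_sub k hz) y (Z.dm_sub l hy) e
    refine ⟨φ, rfl, ?_⟩
    filter_upwards [h, h.self_of_nhds.1.continuousAt.eventually ((Z.dm_open hS l).mem_nhds hy)]
      with w h1 h2
    exact ⟨h1.1, h2, h1.2.2⟩

theorem man_cover (hS : IsClosed S) (h : S ⊆ range Z.j) : (Z.man hS).M = univ :=
  eq_univ_of_forall fun x => by
    by_cases hx : x ∈ S
    · obtain ⟨y, rfl⟩ := h hx
      obtain ⟨i, z, hz, rfl⟩ := A.cover y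
      exact mem_iUnion.2 ⟨.inl i, z, hz, Z.p_eq i z hz⟩
    · obtain ⟨a, z, hz, rfl⟩ := Z.cover x
      exact mem_iUnion.2 ⟨.inr a, z, ⟨hz, hx⟩, rfl⟩

/-- The potential of the volume form. -/
noncomputable def pot (a : Z.ι) (z : E N) : ℝ := -Real.log (Z.K a z).det.re

theorem det_pos {a : Z.ι} {z : E N} (hz : z ∈ Z.W a) : 0 < (Z.K a z).det.re :=
  (Complex.pos_iff.1 (Z.K_pos a z hz).det_pos).1

theorem wt_pot {a : Z.ι} {z : E N} (hz : z ∈ Z.W a) : wt (Z.pot a) z = (Z.K a z).det.re := by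
  rw [wt, pot, neg_neg, Real.exp_log (Z.det_pos hz)]

theorem pot_smooth (a : Z.ι) : ContDiffOn ℝ ∞ (Z.pot a) (Z.W a) :=
  ((Complex.reCLM.contDiff.comp_contDiffOn (abcal_det (Z.K_smooth a))).log
    fun _ hz => (Z.det_pos hz).ne').neg

theorem K_cpt (hS : IsClosed S) : (Z.man hS).Cpt fun k => Z.K (Z.ix k) := fun k l z hz φ h =>
  Z.K_eq _ _ z (Z.dm_sub k hz) φ (h.mono fun _ hw => ⟨hw.1, Z.dm_sub l hw.2.1, hw.2.2⟩)

theorem pot_cpt (hS : IsClosed S) (k l) (z : E N) (hz : z ∈ (Z.man hS).W k) (φ : E N → E N)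
    (h : (Z.man hS).Ch k l z φ) :
    wt (Z.pot (Z.ix k)) z = ‖(jac φ z).det‖ ^ 2 * wt (Z.pot (Z.ix l)) (φ z) := by
  have h1 : ((jac φ z).map star).det = starRingEnd ℂ (jac φ z).det :=
    (RingHom.map_det (starRingEnd ℂ) _).symm
  have h2 : Z.K (Z.ix k) z = _ := Z.K_cpt hS k l z hz φ h
  rw [Z.wt_pot (Z.dm_sub k hz), Z.wt_pot (Z.dm_sub l h.self_of_nhds.2.1), h2, Matrix.det_mul,
    Matrix.det_mul, Matrix.det_transpose, h1, mul_right_comm, Complex.mul_conj',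
    ← Complex.ofReal_pow, Complex.re_ofReal_mul]

variable [MeasurableSpace Y] [CompactSpace Y] [T2Space Y] [BorelSpace Y] {ρ : Type} [Fintype ρ]
  [DecidableEq ρ]

theorem exists_vol (hS : IsClosed S) (h : S ⊆ range Z.j) :
    ∃ ν, (Z.man hS).Den ν fun k => Z.pot (Z.ix k) :=
  (Z.man hS).exists_den (Z.man_cover hS h) _
    (fun k => ((Z.pot_smooth _).mono (Z.dm_sub k)).continuousOn) (Z.pot_cpt hS)

/-- The data of the Dirac operator. -/
noncomputable def geo (hS : IsClosed S) (h : S ⊆ range Z.j) (C : Car (Matrix ρ ρ ℤ) N)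
    (hC : ∀ a, C.i a = (C.e a)ᵀ) (d : ρ → ℕ) (hd : ∀ a r s, C.e a r s ≠ 0 → d r = d s) :
    Geo Y N ρ where
  toMan := Z.man hS
  cover := Z.man_cover hS h
  Ψ k := Z.pot (Z.ix k)
  ν := (Z.exists_vol hS h).choose
  Ψ_smooth k := (Z.pot_smooth _).mono (Z.dm_sub k)
  den := (Z.exists_vol hS h).choose_spec
  Ψ_cpt := Z.pot_cpt hS
  K k := Z.K (Z.ix k)
  kah k := ⟨fun a b => (Z.K_smooth _ a b).mono (Z.dm_sub k),
    fun z hz => Z.K_pos _ z (Z.dm_sub k hz), fun z hz => Z.K_closed _ z (Z.dm_sub k hz)⟩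
  K_cpt := Z.K_cpt hS
  ψ k := Z.ψ (Z.ix k)
  ψ_smooth k := (Z.ψ_smooth _).mono (Z.dm_sub k)
  ψ_psd k z hz := Z.ψ_psd _ z (Z.dm_sub k hz)
  g k l := Z.g (Z.ix k) (Z.ix l)
  g_hol k l z hz hx := Z.g_hol _ _ z (Z.dm_sub k hz) (image_mono (Z.dm_sub l) hx)
  g_mul k l m x h1 h2 h3 := Z.g_mul _ _ _ x (image_mono (Z.dm_sub k) h1)
    (image_mono (Z.dm_sub l) h2) (image_mono (Z.dm_sub m) h3)
  ψ_eq k l z hz y hy := Z.ψ_eq _ _ z (Z.dm_sub k hz) y (Z.dm_sub l hy)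
  C := C
  hC := hC
  d := d
  hd := hd

omit [MeasurableSpace Y] [CompactSpace Y] [T2Space Y] [BorelSpace Y] in
theorem p_congr {i k : A.ι} {z y : E N} (hz : z ∈ (A.C i).W) (hy : y ∈ (A.C k).W) :
    Z.p (Z.c i) z = Z.p (Z.c k) y ↔ A.p i z = A.p k y := by
  rw [Z.p_eq i z hz, Z.p_eq k y hy, Z.j_inj.eq_iff]

variable {Z} {hS : IsClosed S} {h : S ⊆ range Z.j} {C : Car (Matrix ρ ρ ℤ) N}
  {hC : ∀ a, C.i a = (C.e a)ᵀ} {d : ρ → ℕ} {hd : ∀ a r s, C.e a r s ≠ 0 → d r = d s}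

theorem jac_ch {i k : A.ι} {O : Set (E N)} {φ : E N → E N} (a : IsChange (A.C i) (A.C k) O φ)
    (b : ∀ w ∈ O, A.p k (φ w) = A.p i w) {z : E N} (hz : z ∈ O) :
    jac ((Z.geo hS h C hC d hd).ch (.inl i) (.inl k)) z = jac φ z := by
  have e : (Z.geo hS h C hC d hd).Ch (.inl i) (.inl k) z φ := by
    filter_upwards [a.isOpen.mem_nhds hz] with w hw
    exact ⟨a.hol.differentiableAt (a.isOpen.mem_nhds hw), a.maps hw,
      (Z.p_congr (a.maps hw) (a.sub hw)).2 (b w hw)⟩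
  simp only [jac, (Geo.ch_ev e).fderiv_eq]

/-- The Pfaffian of `σ` trivialises the canonical bundle. -/
theorem gg_pf {pf : Mat N → ℂ} (hpf : ∀ J s, pf (Jᵀ * s * J) = J.det * pf s) {i k : A.ι}
    {z y : E N} (hz : z ∈ (A.C i).W) (hy : y ∈ (A.C k).W) (e : A.p i z = A.p k y) (m : ℕ) :
    (Z.geo hS h C hC d hd).gg (.inl i) (.inl k) z m * pf ((A.C i).σ z) =
      L.g i k (A.p i z) ^ m * pf ((A.C k).σ y) := by
  obtain ⟨O, φ, a, hO, rfl, b⟩ := A.trans i k z hz y hy e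
  have h1 := Geo.det_ne (X := Z.geo hS h C hC d hd) (i := .inl i) (j := .inl k) hz
    ⟨_, hy, (Z.p_congr hy hz).2 e.symm⟩
  rw [jac_ch a b hO] at h1
  rw [Geo.gg, jac_ch a b hO, a.σ_eq z hO, hpf, Z.g_eq i k z hz ⟨_, hy, e.symm⟩, mul_assoc,
    inv_mul_cancel_left₀ h1]
  rfl

end Res

end Pool.Agent.SE
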