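import Pool.Agent.K.MP_63735c_ag.C175
import Pool.Agent.K.MP_63735c_ag.C182
import Pool.Agent.K.MP_63735c_ag.C184

/-! A nonzero holomorphic multivector of odd type. -/

open scoped ComplexOrder ContDiff Matrix Topology
open Set MeasureTheory

namespace Pool.Agent.SE

open Pool.Agent.SPF Pool.Agent.AB

variable {N : ℕ} {Y : Type} [TopologicalSpace Y] [MeasurableSpace Y] [CompactSpace Y] [T2Space Y]
  [BorelSpace Y] [Nonempty Y]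

theorem Geo.idx (hN : Even N) {m : ℕ} {ρ : Type} [Fintype ρ] [DecidableEq ρ] (X : Geo Y N ρ)
    {K : Car (Matrix ρ ρ ℤ) m} (hK : ∀ j, K.i j = (K.e j)ᵀ)
    (hc : ∀ a j, Commute (K.e j) (X.C.e a) ∧ Commute (K.e j) (X.C.i a) ∧
      Commute (K.i j) (X.C.e a) ∧ Commute (K.i j) (X.C.i a))
    (hup : ∀ j r s, K.e j r s ≠ 0 → X.d r = X.d s + 1) {r0 : ρ} (h0 : ∀ a s, X.C.e a r0 s = 0)
    (hd : X.d r0 = 0) {b c : X.ι → E N → Fin m → ℂ} (hb : ∀ i, ContDiffOn ℝ ∞ (b i) (X.W i))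
    (hc' : ∀ i, ContDiffOn ℝ ∞ (c i) (X.W i)) (h1 : ∀ i, ∀ z ∈ X.W i, c i z ⬝ᵥ b i z = 1)
    (h2 : ∀ i j, ∀ z ∈ X.W i, ∀ y ∈ X.W j, X.p i z = X.p j y →
      b j y = X.g i j (X.p i z) • b i z ∧ c j y = X.g j i (X.p i z) • c i z) :
    ∃ V ∈ X.bun.Hol, V ≠ 0 ∧ (X.Q V = -V ∨ X.P V = -V) := by
  obtain ⟨e, he, hD, hP, hQ⟩ := X.exists_e hN h0 hd
  refine Bun.koszul X.ell X.hC hK hc X.hd hup hb hc' h1 (fun i j z hz y hy e => ?_)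
    (fun i => ⟨_, _, _, X.D_loc i, fun x he hi l z _ =>
      ⟨(hi l).neg_right, Car.commute_ev _ he _⟩⟩)
    X.P_loc (X.F_loc fun k => (-1) ^ k) X.P_symm X.Q_symm X.D_P (X.D_F _) he hD hP hQ
  refine ⟨_, _, _, _, ?_, (h2 i j z hz y hy e).1, (h2 i j z hz y hy e).2, rfl⟩
  rw [mul_comm, X.g_mul i j i _ ⟨z, hz, rfl⟩ ⟨y, hy, e.symm⟩ ⟨z, hz, rfl⟩, Geo.g_self ⟨z, hz, rfl⟩]

omit [Nonempty Y] in
theorem Res.idx (hN : Even N) {X : Type} [TopologicalSpace X] [Nonempty X] {A : Atlas X N}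
    {L : Line A} (Z : Res L Y) :
    ∃ (ρ : Type) (_ : Fintype ρ) (_ : DecidableEq ρ) (C : Car (Matrix ρ ρ ℤ) N)
      (hC : ∀ a, C.i a = (C.e a)ᵀ) (d : ρ → ℕ) (hd : ∀ a r s, C.e a r s ≠ 0 → d r = d s),
      ∃ V ∈ (Z.geo isClosed_empty (empty_subset _) C hC d hd).bun.Hol, V ≠ 0 ∧
        ((Z.geo isClosed_empty (empty_subset _) C hC d hd).Q V = -V ∨
          (Z.geo isClosed_empty (empty_subset _) C hC d hd).P V = -V) := by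
  have : Nonempty Y := Nonempty.map Z.j inferInstance
  obtain ⟨ρ₀, _, _, C₀, -, d₀, -, hC₀, -, -, hd₀, -⟩ := exists_fock N 0
  let X₀ := Z.geo isClosed_empty (empty_subset _) C₀ hC₀ d₀ hd₀
  obtain ⟨m, b, c, hb, hc, h1, h2⟩ :=
    exists_gen X₀.cover X₀.g_hol X₀.g_mul fun i x hx => Geo.g_self hx
  obtain ⟨ρ, _, _, C, B, d, r0, hC, hB, hcm, hd, hup, h0, hr⟩ := exists_fock N m
  exact ⟨ρ, _, _, C, hC, d, hd,
    Geo.idx hN (Z.geo isClosed_empty (empty_subset _) C hC d hd) hB hcm hup hr h0 hb hc h1 h2⟩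

end Pool.Agent.SE
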