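import Pool.Agent.K.MP_63735c_ag.C36
import Pool.Agent.P.MP_63735c_ag.SPExt2
import Pool.Agent.P.MP_63735c_ag.SPHess
import Pool.Agent.P.MP_63735c_ag.SPA4
import Pool.Agent.P.MP_63735c_ag.SPA5
import Pool.Agent.P.MP_63735c_ag.SPBound
import Pool.Agent.P.MP_63735c_ag.SPLu
import Pool.Agent.P.MP_63735c_ag.SPInv

-- part Pool.Agent.P.MP_63735c_ag.SQGlue
section

/-! Completeness from properness; isotropy from an integrable density. -/

open Set Filter Topology
open scoped ComplexOrder ContDiff Matrix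

namespace Pool.Agent.SPF

open MeasureTheory

variable {N n : ℕ} {Y : Type} [TopologicalSpace Y]

theorem Atlas.complete_of_proper [T2Space Y] (hN : N = 2 * n) (A : Atlas Y N)
    (hI : ∀ i, (A.C i).Iso) (hH : ∀ i, (A.C i).Hol n)
    (h : ∀ (x₀ : Y) (ρ : ℝ), ∃ K : Set Y, IsCompact K ∧ (∀ x ∈ K, A.Rk n x) ∧
      ∀ r ≤ ρ, ∀ Φ : E n → Y, Φ 0 = x₀ → (∀ t ∈ Metric.ball (0 : E n) r, A.GoodAt Φ t) →
        ∀ t ∈ Metric.ball (0 : E n) r, Φ t ∈ K) : A.Complete n := by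
  intro i z hz hr
  obtain ⟨f₀, h0, hf₀⟩ := Chart.exists_good hN (hI i) (hH i) hz hr
  suffices h' : ∃ Φ : E n → Y, Φ 0 = (fun s => A.p i (f₀ s)) 0 ∧ ∀ t, A.GoodAt Φ t by
    obtain ⟨Φ, h1, h2⟩ := h'
    exact ⟨Φ, by simp only [h1, h0], h2⟩
  refine continuation (F := E n) A.GoodAt ?_ ?_ (fun s => A.p i (f₀ s)) ?_ ?_
  · rintro Φ Ψ t h ⟨j, f, hf, hp⟩
    refine ⟨j, f, hf, ?_⟩
    filter_upwards [h, hp] with s h1 h2 using h2.trans h1
  · intro Ω Φ Ψ t₀ ho hc hΦ hΨ ht h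
    exact A.lift_ident ho hc.isPreconnected (fun t ht => (hΦ t ht).toLift)
      (fun t ht => (hΨ t ht).toLift) ht h
  · filter_upwards [hf₀.eventually_nhds] with t ht
    exact ⟨i, f₀, ht, Eventually.of_forall fun _ => rfl⟩
  · intro R
    obtain ⟨K, hK, hRk, hl⟩ := h (A.p i (f₀ 0)) R
    have key : ∀ x : K, ∃ (j : A.ι) (K' : Set (E N)) (δ : ℝ), K' ⊆ (A.C j).W ∧
        IsOpen (A.p j '' interior K') ∧ (x : Y) ∈ A.p j '' interior K' ∧ 0 < δ ∧
        ∀ (f : E n → E N) (t : E n), (A.C j).Good f t → f t ∈ K' →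
          ∃ f' : E n → E N, (∀ s ∈ Metric.ball t δ, (A.C j).Good f' s) ∧ f' =ᶠ[𝓝 t] f := by
      rintro ⟨x, hx⟩
      obtain ⟨j, y, hy, hp, hry⟩ := hRk x hx
      obtain ⟨ι, hι⟩ := Chart.exists_U hy hry.ge
      obtain ⟨K', hK', hyK, hsub⟩ := exists_compact_subset ((A.C j).isOpen_U ι) hι
      obtain ⟨δ, hδ, hk⟩ := Chart.extend_good hN (hI j) (hH j) ι hK' hsub
      have hW : K' ⊆ (A.C j).W := fun w hw => (hsub hw).1
      exact ⟨j, K', δ, hW, A.opn j _ isOpen_interior (interior_subset.trans hW),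
        ⟨y, hyK, hp⟩, hδ, hk⟩
    choose j K' δ hW ho hm hδ hk using key
    obtain ⟨T, hT⟩ := hK.elim_finite_subcover (fun x : K => A.p (j x) '' interior (K' x)) ho
      (fun x hx => mem_iUnion.2 ⟨⟨x, hx⟩, hm ⟨x, hx⟩⟩)
    obtain ⟨δ₀, hδ₀, hle⟩ : ∃ δ₀ : ℝ, 0 < δ₀ ∧ ∀ q ∈ T, δ₀ ≤ δ q := by
      rcases T.eq_empty_or_nonempty with h | h
      · exact ⟨1, one_pos, fun q hq => by simp [h] at hq⟩
      · obtain ⟨q, -, hq⟩ := T.exists_min_image δ h
        exact ⟨δ q, hδ q, hq⟩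
    refine ⟨δ₀, hδ₀, fun r hr Φ h0 hΦ t ht => ?_⟩
    obtain ⟨q, hq, y, hy, hp⟩ := mem_iUnion₂.1 (hT (hl r hr Φ h0 hΦ t ht))
    have hy' : y ∈ K' q := interior_subset hy
    obtain ⟨f, hf, hft, hfp⟩ := (hΦ t ht).lift (hW q hy') hp
    obtain ⟨f', hf', he⟩ := hk q f t hf (by rw [hft]; exact hy')
    refine ⟨fun s => A.p (j q) (f' s), fun s hs => ⟨j q, f',
      hf' s (Metric.ball_subset_ball (hle q hq) hs), Eventually.of_forall fun _ => rfl⟩, ?_⟩
    filter_upwards [he, hfp] with s h1 h2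
    rw [h1, h2]

theorem Atlas.iso_of_integrable (hN : N = 2 * n) (hn : 1 ≤ n) [MeasurableSpace Y] [BorelSpace Y]
    (A : Atlas Y N) (μ : Measure Y) [μ.IsOpenPosMeasure] (F : Y → ℝ) (hF : IsDensity n A F)
    (hi : Integrable F μ) (h0 : ∫ x, F x ∂μ = 0) (i : A.ι) : (A.C i).Iso := by
  have hn0 : (n : ℂ) ≠ 0 := Nat.cast_ne_zero.2 (by omega)
  have hv : ∀ j, ∀ z ∈ (A.C j).W, (F (A.p j z) : ℂ) = ((n : ℂ) ^ 2)⁻¹ * ext2_T (A.C j) z := by
    intro j z hz
    have h1 := hF j z hz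
    rw [density_eq hN hn ((A.C j).σ_skew z hz) ((A.C j).σ_det z hz)] at h1
    exact (smul_left_injective ℂ
      (top_ne_zero hN ((A.C j).σ_skew z hz) ((A.C j).σ_det z hz)) h1).symm
  have hc : Continuous F := by
    refine continuous_def.2 fun U hU => isOpen_iff_forall_mem_open.2 fun x hx => ?_
    obtain ⟨j, z, hz, rfl⟩ := A.cover x
    have h1 : ContinuousOn (fun w => F (A.p j w)) (A.C j).W :=
      (Complex.continuous_re.comp_continuousOn
        (continuousOn_const.mul (ext2_T_cont (A.C j)))).congr fun w hw => by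
          show F (A.p j w) = (((n : ℂ) ^ 2)⁻¹ * ext2_T (A.C j) w).re
          rw [← hv j w hw, Complex.ofReal_re]
    refine ⟨A.p j '' ((A.C j).W ∩ (fun w => F (A.p j w)) ⁻¹' U), ?_,
      A.opn j _ (h1.isOpen_inter_preimage (A.C j).isOpen hU) inter_subset_left,
      ⟨z, ⟨hz, hx⟩, rfl⟩⟩
    rintro _ ⟨w, hw, rfl⟩
    exact hw.2
  have hpos : ∀ x, 0 ≤ F x := by
    intro x
    obtain ⟨j, z, hz, rfl⟩ := A.cover x
    have hp := (A.C j).η_psd z hz
    have h1 : 0 ≤ ext2_T (A.C j) z := by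
      rw [ext2_T_eq]
      exact (hp.kronecker hp).dotProduct_mulVec_nonneg _
    have h2 : (0 : ℂ) ≤ ((n : ℂ) ^ 2)⁻¹ := by
      have : (0 : ℝ) ≤ ((n : ℝ) ^ 2)⁻¹ := by positivity
      have h4 := Complex.zero_le_real.2 this
      rwa [Complex.ofReal_inv, Complex.ofReal_pow, Complex.ofReal_natCast] at h4
    have h3 := mul_nonneg h2 h1
    rw [← hv j z hz] at h3
    exact_mod_cast h3
  have hz0 : F = 0 :=
    (hc.ae_eq_iff_eq μ continuous_zero).1 ((integral_eq_zero_iff_of_nonneg hpos hi).1 h0)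
  intro z hz
  refine ext2_iso _ hz ?_
  have h1 := hv i z hz
  rw [hz0] at h1
  simp only [Pi.zero_apply, Complex.ofReal_zero] at h1
  exact (mul_eq_zero.1 h1.symm).resolve_left (inv_ne_zero (pow_ne_zero _ hn0))

end Pool.Agent.SPF
end

-- part Pool.Agent.P.MP_63735c_ag.SQHess
section

/-! First derivatives of the form along Hamiltonian fields, with ambient constants. -/

open Set Filter Topology
open scoped ComplexOrder ContDiff Matrix

namespace Pool.Agent.SPF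

variable {N M : ℕ}

/-- A hermitian form with coefficients in a star ring. -/
def sqhF {R : Type} [CommRing R] [StarRing R] (η : Fin N → Fin N → R) (p q : Fin N → R) : R :=
  ∑ b, ∑ c, p b * η b c * star (q c)

lemma sqh_sd {O : TopologicalSpace.Opens (E M)} (a : Fin M) (f : Sm O) :
    Sm.d a (star f) = star (Sm.db a f) := by
  have := Sm.star_d a (star f)
  rw [star_star] at this
  rw [← this, star_star]

lemma sqh_main {O : TopologicalSpace.Opens (E M)} (x : O) (a : Fin M) (η : Fin N → Fin N → Sm O)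
    (hp : ∀ y : O, (Matrix.of fun b c => Sm.ev y (η b c)).PosSemidef) (V w : Fin N → Sm O)
    (hV : ∀ c, ∑ b, Sm.ev x (V b) * Sm.ev x (η b c) = 0) (ζ : Sm O) (z0 : Sm.ev x ζ = 0)
    (z1 : Sm.ev x (Sm.d a ζ) = 1) (z2 : Sm.ev x (Sm.db a ζ) = 0) {T : ℝ} (hT : 0 ≤ T)
    (hA : (Sm.ev x (Sm.d a (Sm.db a (sqhF η V V)))).re ≤ T) :
    ‖Sm.ev x (Sm.d a (sqhF η V w))‖ ^ 2 ≤ T * (Sm.ev x (sqhF η w w)).re ∧
      ‖Sm.ev x (Sm.db a (sqhF η V w))‖ ^ 2 ≤ T * (Sm.ev x (sqhF η w w)).re := by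
  have ev0 : ∀ (p q : Fin N → Sm O) (y : O), Sm.ev y (sqhF η p q) =
      ∑ b, ∑ c, Sm.ev y (p b) * Sm.ev y (η b c) * star (Sm.ev y (q c)) := by
    intro p q y
    simp only [sqhF, map_sum, map_mul, Sm.ev_star]
  have stF : ∀ p q : Fin N → Sm O, star (sqhF η p q) = sqhF η q p := by
    intro p q
    ext y
    rw [Sm.ev_star, ev0, ev0, Finset.sum_comm, star_sum]
    refine Finset.sum_congr rfl fun b _ => ?_
    rw [star_sum]
    refine Finset.sum_congr rfl fun c _ => ?_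
    have h : star (Sm.ev y (η c b)) = Sm.ev y (η b c) := (hp y).1.apply b c
    rw [star_mul', star_mul', star_star, h]
    ring
  have nul : ∀ q : Fin N → Sm O, Sm.ev x (sqhF η V q) = 0 := by
    intro q
    rw [ev0, Finset.sum_comm]
    refine Finset.sum_eq_zero fun c _ => ?_
    rw [← Finset.sum_mul, hV, zero_mul]
  have nul' : Sm.ev x (sqhF η w V) = 0 := by rw [← stF, Sm.ev_star, nul, star_zero]
  have sd : ∀ f : Sm O, Sm.ev x (Sm.db a (star f)) = star (Sm.ev x (Sm.d a f)) := by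
    intro f
    rw [← Sm.star_d, Sm.ev_star]
  have sdb : ∀ f : Sm O, Sm.ev x (Sm.d a (star f)) = star (Sm.ev x (Sm.db a f)) := by
    intro f
    rw [sqh_sd, Sm.ev_star]
  have main : ∀ l : Sm O, Sm.ev x l = 0 → 0 ≤ (Sm.ev x (Sm.d a (Sm.db a (sqhF η V V))) +
      star (Sm.ev x (Sm.d a l)) * Sm.ev x (Sm.d a (sqhF η V w)) +
      star (Sm.ev x (Sm.db a l)) * Sm.ev x (Sm.db a (sqhF η V w)) +
      Sm.ev x (Sm.db a l) * star (Sm.ev x (Sm.db a (sqhF η V w))) +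
      Sm.ev x (Sm.d a l) * star (Sm.ev x (Sm.d a (sqhF η V w))) +
      (Sm.ev x (Sm.d a l) * star (Sm.ev x (Sm.d a l)) +
        Sm.ev x (Sm.db a l) * star (Sm.ev x (Sm.db a l))) * Sm.ev x (sqhF η w w)).re := by
    intro l hl
    have hl' : Sm.ev x (star l) = 0 := by rw [Sm.ev_star, hl, star_zero]
    have h := hess_core x a (sqhF η V V + star l * sqhF η V w + l * sqhF η w V +
      l * star l * sqhF η w w) ?_ ?_
    · rw [hess_ring (Sm.d a) (Sm.db a) (Sm.ev x) hl hl' (nul w) nul', ← stF V w, sd, sdb, sd,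
        sdb] at h
      exact h
    · intro y
      have := hess_psd (hp y) (fun b => Sm.ev y (V b) + Sm.ev y l * Sm.ev y (w b))
      simp only [map_add, map_mul, Sm.ev_star, ev0, Finset.mul_sum, ← Finset.sum_add_distrib]
      refine le_of_le_of_eq this (Finset.sum_congr rfl fun b _ => Finset.sum_congr rfl fun c _ => ?_)
      rw [star_add, star_mul', Matrix.of_apply]
      ring
    · simp only [map_add, map_mul, hl, hl', nul, zero_mul, add_zero]
  have hS : 0 ≤ Sm.ev x (sqhF η w w) := by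
    rw [ev0]
    exact hess_psd (hp x) fun b => Sm.ev x (w b)
  constructor
  · refine hess_quad hS hT hA fun τ => ?_
    have h := main (τ • ζ) (by rw [map_smul, z0, smul_zero])
    simp only [Derivation.map_smul, map_smul, z1, z2, smul_eq_mul, mul_one, mul_zero, star_zero,
      zero_mul, add_zero] at h
    exact h
  · refine hess_quad hS hT hA fun τ => ?_
    have h := main (τ • star ζ) (by rw [map_smul, Sm.ev_star, z0, star_zero, smul_zero])
    simp only [Derivation.map_smul, map_smul, sd, sdb, z1, z2, smul_eq_mul, mul_one, mul_zero,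
      star_zero, star_one, zero_mul, add_zero, zero_add] at h
    exact h

lemma sqh_d_db_pull {O₁ : TopologicalSpace.Opens (E N)} {O₂ : TopologicalSpace.Opens (E M)}
    {φ : E M → E N} (hφ : DifferentiableOn ℂ φ O₂) (hm : MapsTo φ O₂ O₁) (u : Sm O₁)
    (a b : Fin M) : Sm.d a (Sm.db b (Sm.pull φ hφ hm u)) =
      ∑ c, ∑ d, Sm.J φ hφ c a * star (Sm.J φ hφ d b) * Sm.pull φ hφ hm (Sm.d c (Sm.db d u)) := by
  have h0 : ∀ d, Sm.d a (star (Sm.J φ hφ d b)) = 0 := by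
    intro d
    rw [sqh_sd, Sm.db_J, star_zero]
  rw [Sm.db_pull, map_sum, Finset.sum_comm]
  refine Finset.sum_congr rfl fun d _ => ?_
  rw [Derivation.leibniz, h0, smul_zero, add_zero, smul_eq_mul, Sm.d_pull, Finset.mul_sum]
  exact Finset.sum_congr rfl fun c _ => by ring

lemma sqh_bdd {κ : Type} [Fintype κ] {K : Set (E M)} (hK : IsCompact K) (f : κ → E M → ℂ)
    (hf : ∀ i, ContinuousOn (f i) K) : ∃ β : ℝ, 0 ≤ β ∧ ∀ z ∈ K, ∀ i, ‖f i z‖ ≤ β := by
  obtain ⟨β, hβ⟩ := hK.exists_bound_of_continuousOn (f := fun z i => f i z)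
    (continuousOn_pi.2 hf)
  exact ⟨max β 0, le_max_right _ _, fun z hz i =>
    ((norm_le_pi_norm (fun i => f i z) i).trans (hβ z hz)).trans (le_max_left _ _)⟩

lemma sqh_sum_le (f : Fin M → ℂ) {β : ℝ} (h : ∀ c, ‖f c‖ ≤ β) : ‖∑ c, f c‖ ≤ M * β := by
  refine (norm_sum_le _ _).trans ((Finset.sum_le_sum fun c _ => h c).trans ?_)
  simp

lemma sqh_mul_le {x y : ℂ} {s t : ℝ} (hx : ‖x‖ ≤ s) (hy : ‖y‖ ≤ t) : ‖x * y‖ ≤ s * t := by
  rw [norm_mul]
  exact mul_le_mul hx hy (norm_nonneg _) ((norm_nonneg _).trans hx)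

lemma sqh_star_le {x : ℂ} {s : ℝ} (hx : ‖x‖ ≤ s) : ‖star x‖ ≤ s := by
  rwa [norm_star]

/-- The pure second derivative for a holomorphic field. -/
lemma sqh_pure {O : TopologicalSpace.Opens (E N)} (x : O) (a : Fin N) (Θ : Fin M → Fin M → Sm O)
    (V : Fin M → Sm O) (hV : ∀ b, Sm.db a (V b) = 0) {q q' t0 t1 t2 : ℝ}
    (h0 : ∀ b, ‖Sm.ev x (V b)‖ ≤ q) (h1 : ∀ b, ‖Sm.ev x (Sm.d a (V b))‖ ≤ q')
    (k0 : ∀ b c, ‖Sm.ev x (Θ b c)‖ ≤ t0) (k1 : ∀ b c, ‖Sm.ev x (Sm.d a (Θ b c))‖ ≤ t1)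
    (k1' : ∀ b c, ‖Sm.ev x (Sm.db a (Θ b c))‖ ≤ t1)
    (k2 : ∀ b c, ‖Sm.ev x (Sm.d a (Sm.db a (Θ b c)))‖ ≤ t2) :
    (Sm.ev x (Sm.d a (Sm.db a (sqhF Θ V V)))).re ≤
      M * (M * (q * t2 * q + q' * t1 * q + q * t1 * q' + q' * t0 * q')) := by
  refine (Complex.re_le_norm _).trans ?_
  simp only [sqhF, map_sum]
  refine sqh_sum_le _ fun b => sqh_sum_le _ fun c => ?_
  have e1 : Sm.d a (star (V c)) = 0 := by rw [sqh_sd, hV, star_zero]
  have e2 : Sm.d a (star (Sm.d a (V c))) = 0 := by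
    rw [sqh_sd, ← Sm.d_db, hV, map_zero, star_zero]
  have e : Sm.d a (Sm.db a (V b * Θ b c * star (V c))) =
      V b * Sm.d a (Sm.db a (Θ b c)) * star (V c) + Sm.d a (V b) * Sm.db a (Θ b c) * star (V c) +
        V b * Sm.d a (Θ b c) * star (Sm.d a (V c)) +
        Sm.d a (V b) * Θ b c * star (Sm.d a (V c)) := by
    simp only [Derivation.leibniz, smul_eq_mul, map_add, hV, ← Sm.star_d, e1, e2, mul_zero,
      add_zero]
    ring
  rw [e]
  simp only [map_add, map_mul, Sm.ev_star]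
  refine norm_add_le_of_le (norm_add_le_of_le (norm_add_le_of_le ?_ ?_) ?_) ?_
  · exact sqh_mul_le (sqh_mul_le (h0 b) (k2 b c)) (sqh_star_le (h0 c))
  · exact sqh_mul_le (sqh_mul_le (h1 b) (k1' b c)) (sqh_star_le (h0 c))
  · exact sqh_mul_le (sqh_mul_le (h0 b) (k1 b c)) (sqh_star_le (h1 c))
  · exact sqh_mul_le (sqh_mul_le (h1 b) (k0 b c)) (sqh_star_le (h1 c))

/-- The derivative of the pushed field along a Hamiltonian field. -/
lemma sqh_push {C : Chart N} {D : AmbChart M} (e : Emb C D) {y : E N} (hy : y ∈ e.O) (v : E N)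
    (a b : Fin M) :
    ∑ x, ((∑ s, e.H a y s * dz s (fun y' => jac e.j y' b x) y) * v x +
      jac e.j y b x * ∑ s, v s * dz s (fun y' => e.H a y' x) y) =
      ∑ c, (jac e.j y *ᵥ v) c * dz c (fun z => D.π z a b) (e.j y) := by
  let O : TopologicalSpace.Opens (E N) := ⟨e.O, e.isOpen⟩
  let W : TopologicalSpace.Opens (E M) := ⟨D.W, D.isOpen⟩
  let y0 : O := ⟨y, hy⟩
  let jb : Sm O := Sm.mkH (fun y' => e.j y' b) (differentiableOn_pi.1 e.hol b)
  have rJ : ∀ x, (Sm.J (O' := O) e.j e.hol b x).Rep fun y' => jac e.j y' b x := fun x _ => rfl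
  have hJ : ∀ x, Sm.J (O' := O) e.j e.hol b x = Sm.d x jb := by
    intro x
    ext z
    have hd := e.hol.differentiableAt (e.isOpen.mem_nhds z.2)
    rw [(Sm.rep_mkH _ _).d x z, (dz_of_diff (differentiableAt_pi.1 hd b) x).1,
      (hasFDerivAt_pi'.1 hd.hasFDerivAt b).fderiv]
    rfl
  let Hs : Fin N → Sm O := fun x => Sm.mkH (fun y' => e.H a y' x) (e.H_hol a x)
  have rH : ∀ x, (Hs x).Rep fun y' => e.H a y' x := fun x _ => rfl
  let p : Sm W := Sm.mkH (fun z => D.π z a b) (D.π_hol a b)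
  have hp : ∑ x, Sm.J (O' := O) e.j e.hol b x * Hs x = Sm.pull (O' := O) e.j e.hol e.maps p := by
    ext z
    rw [Sm.ev_pull, map_sum]
    exact e.jac_H z.2 a b
  have key : ∀ s, ∑ x, (jac e.j y b x * dz s (fun y' => e.H a y' x) y +
      e.H a y x * dz x (fun y' => jac e.j y' b s) y) =
      ∑ c, jac e.j y c s * dz c (fun z => D.π z a b) (e.j y) := by
    intro s
    have h := congrArg (fun f => Sm.ev y0 (Sm.d s f)) hp
    have h2 : ∀ x, Sm.d s (Sm.J (O' := O) e.j e.hol b x) = Sm.d x (Sm.J (O' := O) e.j e.hol b s) := by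
      intro x
      rw [hJ, hJ, Sm.d_d]
    simp only [Sm.d_pull, map_sum, Derivation.leibniz, smul_eq_mul, map_add, map_mul, h2,
      Sm.ev_J, Sm.ev_pull, (rJ _).d _ y0, (rH _).d _ y0, rH _ y0,
      (Sm.rep_mkH (O := W) _ (D.π_hol a b)).d _ _, p] at h
    exact h
  have e1 : ∑ c, (jac e.j y *ᵥ v) c * dz c (fun z => D.π z a b) (e.j y) =
      ∑ s, v s * ∑ c, jac e.j y c s * dz c (fun z => D.π z a b) (e.j y) := by
    simp only [Matrix.mulVec, dotProduct, Finset.sum_mul, Finset.mul_sum]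
    rw [Finset.sum_comm]
    exact Finset.sum_congr rfl fun _ _ => Finset.sum_congr rfl fun _ _ => by ring
  rw [e1]
  simp only [← key, Finset.sum_add_distrib, mul_add, Finset.sum_mul, Finset.mul_sum]
  rw [add_comm]
  congr 1
  · rw [Finset.sum_comm]
    exact Finset.sum_congr rfl fun _ _ => Finset.sum_congr rfl fun _ _ => by ring
  · exact Finset.sum_congr rfl fun _ _ => Finset.sum_congr rfl fun _ _ => by ring

theorem AmbChart.hess (D : AmbChart M) {K : Set (E M)} (hK : IsCompact K) (hKW : K ⊆ D.W) :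
    ∃ B : ℝ, 0 ≤ B ∧ ∀ (C : Chart N) (e : Emb C D), ∀ y ∈ e.O, e.j y ∈ K → ∀ v ∈ C.null y,
      ∀ (a : Fin M) (w : E N),
      ‖∑ x, ∑ c, v x * (∑ s, star (e.H a y s) * dzb s (fun y' => C.η y' x c) y) * star (w c)‖ ^ 2 ≤
          B * ‖jac e.j y *ᵥ v‖ ^ 2 * (∑ b, ∑ c, w b * C.η y b c * star (w c)).re ∧
        ‖∑ x, ∑ c, v x * (∑ s, e.H a y s * dz s (fun y' => C.η y' x c) y) * star (w c) +
            ∑ x, ∑ c, (∑ s, v s * dz s (fun y' => e.H a y' x) y) * C.η y x c * star (w c)‖ ^ 2 ≤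
          B * ‖jac e.j y *ᵥ v‖ ^ 2 * (∑ b, ∑ c, w b * C.η y b c * star (w c)).re := by
  obtain ⟨β1, p1, b1⟩ := sqh_bdd hK (fun (i : Fin M × Fin M) z => D.π z i.1 i.2)
    fun i => (D.π_hol _ _).continuousOn.mono hKW
  obtain ⟨β2, p2, b2⟩ := sqh_bdd hK
    (fun (i : Fin M × Fin M × Fin M) => dz i.1 fun z => D.π z i.2.1 i.2.2)
    fun i => (hol_dz D.isOpen (D.π_hol _ _) _).continuousOn.mono hKW
  obtain ⟨β3, p3, b3⟩ := sqh_bdd hK (fun (i : Fin M × Fin M) z => D.η z i.1 i.2)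
    fun i => (D.η_smooth _ _).continuousOn.mono hKW
  obtain ⟨β4, p4, b4⟩ := sqh_bdd hK
    (fun (i : Fin M × Fin M × Fin M) => dz i.1 fun z => D.η z i.2.1 i.2.2)
    fun i => (smooth_dz D.isOpen (D.η_smooth _ _) _).continuousOn.mono hKW
  obtain ⟨β5, p5, b5⟩ := sqh_bdd hK
    (fun (i : Fin M × Fin M × Fin M) => dzb i.1 fun z => D.η z i.2.1 i.2.2)
    fun i => (smooth_dzb D.isOpen (D.η_smooth _ _) _).continuousOn.mono hKW
  obtain ⟨β6, p6, b6⟩ := sqh_bdd hK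
    (fun (i : (Fin M × Fin M) × Fin M × Fin M) => dz i.1.1 (dzb i.1.2 fun z => D.η z i.2.1 i.2.2))
    fun i => (smooth_dz D.isOpen (smooth_dzb D.isOpen (D.η_smooth _ _) _) _).continuousOn.mono hKW
  refine ⟨M * (M * (M * (M * (β1 * β1 * β6)) + 2 * (M * β2 * (M * (β1 * (β4 + β5)))) +
    M * β2 * β3 * (M * β2))), by positivity, fun C e y hy hyK v hv a w => ?_⟩
  let O : TopologicalSpace.Opens (E N) := ⟨e.O, e.isOpen⟩
  let W : TopologicalSpace.Opens (E M) := ⟨D.W, D.isOpen⟩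
  let φ : E 1 → E N := fun s => y + s 0 • e.H a y
  have hφd : ∀ s, HasFDerivAt φ
      ((ContinuousLinearMap.proj 0 : E 1 →L[ℂ] ℂ).smulRight (e.H a y)) s := fun s =>
    ((hasFDerivAt_apply (𝕜 := ℂ) (0 : Fin 1) s).smul_const (e.H a y)).const_add y
  have hφ0 : φ 0 = y := by simp [φ]
  have hjφ : ∀ s c, jac φ s c 0 = e.H a y c := by
    intro s c
    simp [jac, (hφd s).fderiv]
  have hφc : Continuous φ := continuous_iff_continuousAt.2 fun s => (hφd s).continuousAt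
  let O₁ : TopologicalSpace.Opens (E 1) := ⟨φ ⁻¹' e.O, e.isOpen.preimage hφc⟩
  have h01 : (0 : E 1) ∈ O₁ := by
    change φ 0 ∈ e.O
    rwa [hφ0]
  let x : O₁ := ⟨0, h01⟩
  let y0 : O := ⟨y, hy⟩
  let z0 : W := ⟨e.j y, e.maps hy⟩
  have hφ : DifferentiableOn ℂ φ O₁ := fun s _ => (hφd s).differentiableAt.differentiableWithinAt
  have hm : MapsTo φ O₁ O := fun s hs => hs
  have hψ : DifferentiableOn ℂ (e.j ∘ φ) O₁ := e.hol.comp hφ hm
  have hmψ : MapsTo (e.j ∘ φ) O₁ W := fun s hs => e.maps hs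
  have evφ : ∀ f : Sm O, Sm.ev x (Sm.pull φ hφ hm f) = Sm.ev y0 f := fun f => by
    rw [Sm.ev_pull]
    exact congrArg (fun t => Sm.ev t f) (Subtype.ext hφ0)
  have evψ : ∀ f : Sm W, Sm.ev x (Sm.pull (e.j ∘ φ) hψ hmψ f) = Sm.ev z0 f := fun f => by
    rw [Sm.ev_pull]
    exact congrArg (fun t => Sm.ev t f) (Subtype.ext (congrArg e.j hφ0))
  have hjψ : ∀ c, jac (e.j ∘ φ) x c 0 = D.π (e.j y) a c := by
    intro c
    have h1 : DifferentiableAt ℂ e.j (φ 0) := by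
      rw [hφ0]
      exact e.hol.differentiableAt (e.isOpen.mem_nhds hy)
    rw [lin3_jac_comp h1 (hφd 0).differentiableAt, Matrix.mul_apply, hφ0, ← e.jac_H hy a c]
    simp only [hjφ]
    rfl
  let η0 : Fin N → Fin N → Sm O := fun b c =>
    Sm.mk (fun y' => C.η y' b c) ((C.η_smooth b c).mono e.sub)
  have rη : ∀ b c, (η0 b c).Rep fun y' => C.η y' b c := fun b c _ => rfl
  let Θ0 : Fin M → Fin M → Sm W := fun b c => Sm.mk (fun z => D.η z b c) (D.η_smooth b c)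
  have rΘ : ∀ b c, (Θ0 b c).Rep fun z => D.η z b c := fun b c _ => rfl
  have rJ : ∀ b c, (Sm.J (O' := O) e.j e.hol b c).Rep fun y' => jac e.j y' b c := fun _ _ _ => rfl
  have hζ : Differentiable ℂ (fun s : E 1 => s 0) := by fun_prop
  let ζ : Sm O₁ := Sm.mkH (fun s => s 0) hζ.differentiableOn
  have rζ : ζ.Rep (fun s => s 0) := Sm.rep_mkH _ _
  have ζ0 : Sm.ev x ζ = 0 := rζ x
  have ζ1 : Sm.ev x (Sm.d 0 ζ) = 1 := by
    rw [rζ.d 0 x, (dz_of_diff (hζ _) 0).1, (hasFDerivAt_apply (𝕜 := ℂ) (0 : Fin 1) x.1).fderiv]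
    simp
  have ζ2 : Sm.db 0 ζ = 0 := rζ.db_eq_zero hζ.differentiableOn 0
  obtain ⟨u, hu⟩ : ∃ u : E N, ∀ b, ∑ s, v s * dz s (fun y' => e.H a y' b) y = u b :=
    ⟨_, fun _ => rfl⟩
  let V0 : Fin N → Sm O₁ := fun b => algebraMap ℂ _ (v b) + algebraMap ℂ _ (u b) * ζ
  let w0 : Fin N → Sm O₁ := fun b => algebraMap ℂ _ (w b)
  let η1 : Fin N → Fin N → Sm O₁ := fun b c => Sm.pull φ hφ hm (η0 b c)
  let Θ : Fin M → Fin M → Sm O₁ := fun b c => Sm.pull (e.j ∘ φ) hψ hmψ (Θ0 b c)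
  let V : Fin M → Sm O₁ := fun b => ∑ c, Sm.pull φ hφ hm (Sm.J (O' := O) e.j e.hol b c) * V0 c
  have v0 : ∀ b, Sm.ev x (V0 b) = v b := fun b => by
    simp only [V0, map_add, map_mul, AlgHom.commutes, ζ0, mul_zero, add_zero]
    rfl
  have v1 : ∀ b, Sm.ev x (Sm.d 0 (V0 b)) = u b := fun b => by
    simp only [V0, map_add, map_mul, Derivation.leibniz, Derivation.map_algebraMap, smul_eq_mul,
      AlgHom.commutes, ζ1, mul_zero, add_zero, zero_add, mul_one]
    rfl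
  have v2 : ∀ b, Sm.db 0 (V0 b) = 0 := fun b => by
    simp only [V0, map_add, Derivation.leibniz, Derivation.map_algebraMap, smul_eq_mul, ζ2,
      mul_zero, add_zero]
  have w1 : ∀ b, Sm.ev x (w0 b) = w b := fun b => AlgHom.commutes _ _
  have w2 : ∀ b, Sm.d 0 (star (w0 b)) = 0 := fun b => by
    rw [sqh_sd, Derivation.map_algebraMap, star_zero]
  have w3 : ∀ b, Sm.db 0 (star (w0 b)) = 0 := fun b => by
    rw [← Sm.star_d, Derivation.map_algebraMap, star_zero]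
  have hF : sqhF η1 V0 V0 = sqhF Θ V V := by
    ext s
    have h1 : ∀ b c, C.η (φ s) b c = ∑ b', ∑ c', jac e.j (φ s) b' b * D.η (e.j (φ s)) b' c' *
        star (jac e.j (φ s) c' c) := by
      intro b c
      rw [e.η_eq _ s.2, Matrix.mul_apply, Finset.sum_comm]
      simp only [Matrix.mul_apply, Matrix.transpose_apply, Matrix.map_apply, Finset.sum_mul]
    simp only [sqhF, η1, Θ, V, map_sum, map_mul, Sm.ev_star, Sm.ev_pull, rη _ _ _, rΘ _ _ _,
      Sm.ev_J, h1, Function.comp_apply, star_sum, star_mul', Finset.sum_mul, Finset.mul_sum]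
    calc _ = ∑ b, ∑ b', ∑ c, ∑ c', Sm.ev s (V0 b) * (jac e.j (φ s) b' b * D.η (e.j (φ s)) b' c' *
            star (jac e.j (φ s) c' c)) * star (Sm.ev s (V0 c)) :=
          Finset.sum_congr rfl fun _ _ => Finset.sum_comm
      _ = ∑ b', ∑ b, ∑ c', ∑ c, Sm.ev s (V0 b) * (jac e.j (φ s) b' b * D.η (e.j (φ s)) b' c' *
            star (jac e.j (φ s) c' c)) * star (Sm.ev s (V0 c)) := by
          rw [Finset.sum_comm]
          exact Finset.sum_congr rfl fun _ _ => Finset.sum_congr rfl fun _ _ => Finset.sum_comm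
      _ = _ := by
          refine Finset.sum_congr rfl fun _ _ => ?_
          rw [Finset.sum_comm]
          refine Finset.sum_congr rfl fun _ _ => ?_
          rw [Finset.sum_comm]
          exact Finset.sum_congr rfl fun _ _ => Finset.sum_congr rfl fun _ _ => by ring
  have hq : ∀ b, ‖(jac e.j y *ᵥ v) b‖ ≤ ‖jac e.j y *ᵥ v‖ := norm_le_pi_norm _
  have hA := sqh_pure x 0 Θ V (q := ‖jac e.j y *ᵥ v‖) (q' := M * (‖jac e.j y *ᵥ v‖ * β2))
    (t0 := β3) (t1 := M * (β1 * (β4 + β5))) (t2 := M * (M * (β1 * β1 * β6))) ?_ ?_ ?_ ?_ ?_ ?_ ?_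
  · rw [← hF] at hA
    have hp : ∀ s : O₁, (Matrix.of fun b c => Sm.ev s (η1 b c)).PosSemidef := by
      intro s
      have h1 : (Matrix.of fun b c => Sm.ev s (η1 b c)) = C.η (φ s) := by
        ext b c
        exact Sm.ev_pull hφ hm _ s
      rw [h1]
      exact C.η_psd (φ s) (e.sub s.2)
    have hn : ∀ c, ∑ b, Sm.ev x (V0 b) * Sm.ev x (η1 b c) = 0 := by
      intro c
      have h1 : v ᵥ* C.η y = 0 := hv
      simp only [v0, η1, evφ]
      exact congrFun h1 c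
    have hr := sqh_main x 0 η1 hp V0 w0 hn ζ ζ0 ζ1 (by rw [ζ2, map_zero]) (by positivity) hA
    have e0 : Sm.ev x (sqhF η1 w0 w0) = ∑ b, ∑ c, w b * C.η y b c * star (w c) := by
      simp only [sqhF, η1, map_sum, map_mul, Sm.ev_star, w1, evφ, rη _ _ y0]
      rfl
    have e1 : Sm.ev x (Sm.db 0 (sqhF η1 V0 w0)) = ∑ x, ∑ c, v x *
        (∑ s, star (e.H a y s) * dzb s (fun y' => C.η y' x c) y) * star (w c) := by
      simp only [sqhF, η1, map_sum, Derivation.leibniz, smul_eq_mul, map_mul, v2, w3,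
        mul_zero, zero_add, add_zero, Sm.db_pull, Sm.ev_star, Sm.ev_J, hjφ, evφ, v0, w1,
        (rη _ _).db _ y0]
      exact Finset.sum_congr rfl fun _ _ => Finset.sum_congr rfl fun _ _ => mul_comm _ _
    have e2 : Sm.ev x (Sm.d 0 (sqhF η1 V0 w0)) = ∑ x, ∑ c, v x *
        (∑ s, e.H a y s * dz s (fun y' => C.η y' x c) y) * star (w c) +
          ∑ x, ∑ c, u x * C.η y x c * star (w c) := by
      simp only [sqhF, η1, map_sum, Derivation.leibniz, smul_eq_mul, map_add, map_mul, w2,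
        mul_zero, zero_add, Sm.d_pull, Sm.ev_star, Sm.ev_J, hjφ, evφ, v0, v1, w1,
        (rη _ _).d _ y0, rη _ _ y0, ← Finset.sum_add_distrib]
      exact Finset.sum_congr rfl fun _ _ => Finset.sum_congr rfl fun _ _ => by ring
    rw [e0, e1, e2] at hr
    simp only [hu]
    exact ⟨hr.2.trans_eq (by ring), hr.1.trans_eq (by ring)⟩
  · intro b
    simp only [V, map_sum, Derivation.leibniz, v2, Sm.db_pull, Sm.db_J, map_zero, mul_zero,
      Finset.sum_const_zero, smul_zero, add_zero]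
  · intro b
    refine le_of_eq_of_le (congrArg _ ?_) (hq b)
    simp only [V, map_sum, map_mul, evφ, v0, Sm.ev_J]
    rfl
  · intro b
    have h1 : Sm.ev x (Sm.d 0 (V b)) =
        ∑ c, (jac e.j y *ᵥ v) c * dz c (fun z => D.π z a b) (e.j y) := by
      rw [← sqh_push e hy v a b]
      simp only [V, map_sum, Derivation.leibniz, smul_eq_mul, map_add, map_mul, Sm.d_pull, evφ, v0,
        v1, Sm.ev_J, hjφ, (rJ _ _).d _ y0, hu]
      exact Finset.sum_congr rfl fun _ _ => by ring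
    rw [h1]
    exact sqh_sum_le _ fun c => sqh_mul_le (hq c) (b2 _ hyK (c, a, b))
  · intro b c
    rw [evψ]
    exact b3 _ hyK (b, c)
  · intro b c
    simp only [Θ, Sm.d_pull, map_sum, map_mul, Sm.ev_J, evψ, hjψ, (rΘ _ _).d _ z0]
    exact sqh_sum_le _ fun d => sqh_mul_le (b1 _ hyK (a, d))
      ((b4 _ hyK (d, b, c)).trans (le_add_of_nonneg_right p5))
  · intro b c
    simp only [Θ, Sm.db_pull, map_sum, map_mul, Sm.ev_star, Sm.ev_J, evψ, hjψ, (rΘ _ _).db _ z0]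
    exact sqh_sum_le _ fun d => sqh_mul_le (sqh_star_le (b1 _ hyK (a, d)))
      ((b5 _ hyK (d, b, c)).trans (le_add_of_nonneg_left p4))
  · intro b c
    simp only [Θ, sqh_d_db_pull, map_sum, map_mul, Sm.ev_star, Sm.ev_J, evψ, hjψ,
      ((rΘ _ _).db _).d _ z0]
    exact sqh_sum_le _ fun d => sqh_sum_le _ fun d' => sqh_mul_le
      (sqh_mul_le (b1 _ hyK (a, d)) (sqh_star_le (b1 _ hyK (a, d')))) (b6 _ hyK ((d, d'), b, c))

end Pool.Agent.SPF
end

-- part Pool.Agent.P.MP_63735c_ag.SQA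
section

/-! Ring identities for a family of holomorphic functions. -/

open scoped Matrix

namespace Pool.Agent.SPF

variable {R : Type} [CommRing R] [StarRing R] [Algebra ℂ R] {α κ β : Type} [Fintype α] [Fintype κ]
  [DecidableEq α] [DecidableEq κ]

omit [StarRing R] in
lemma qa_der_det (δ : Derivation ℂ R R) (A : Matrix κ κ R) :
    δ A.det = ∑ i, ∑ l, A.adjugate l i * δ (A i l) := by
  rw [a3_der_det]
  refine Finset.sum_congr rfl fun i _ => ?_
  rw [← Matrix.cramer_transpose_apply, Matrix.cramer_eq_adjugate_mulVec,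
    ← Matrix.adjugate_transpose]
  rfl

namespace Dat

variable (D : Dat R α κ) (j : β → R)

def H (a : β) (x : α) : R := ∑ c, D.π c x * D.d c (j a)

def γ (a b : β) : R := ∑ x, ∑ c, D.H j a x * D.η x c * star (D.H j b c)

lemma qa_tau (δ : Derivation ℂ R R) (k : κ) (c : α) : ∑ x, D.Xc k x * δ (D.η x c) =
    ∑ m, star (D.e m c) * ∑ x, D.Xc k x * δ (D.η x (D.ι m)) := by
  have h1 : ∀ x, D.Xc k x * δ (D.η x c) =
      ∑ m, D.Xc k x * D.η x (D.ι m) * δ (star (D.e m c)) +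
        ∑ m, star (D.e m c) * (D.Xc k x * δ (D.η x (D.ι m))) := by
    intro x
    rw [D.a1_η' x c, a2_der, mul_add, Finset.mul_sum, Finset.mul_sum]
    congr 1 <;> exact Finset.sum_congr rfl fun i _ => by ring
  simp only [h1, Finset.sum_add_distrib]
  rw [Finset.sum_comm, Finset.sum_comm
    (f := fun x m => star (D.e m c) * (D.Xc k x * δ (D.η x (D.ι m))))]
  simp only [← Finset.sum_mul, D.Xη, zero_mul, Finset.sum_const_zero, zero_add, ← Finset.mul_sum]

lemma tau (k : κ) (y c : α) : ∑ x, D.Xc k x * D.db y (D.η x c) =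
    ∑ q, ∑ m, star (D.e q y) * star (D.e m c) *
      ∑ x, D.Xc k x * D.db (D.ι q) (D.η x (D.ι m)) := by
  rw [D.qa_tau, Finset.sum_comm]
  refine Finset.sum_congr rfl fun m _ => ?_
  have h1 : ∑ x, D.Xc k x * D.db y (D.η x (D.ι m)) =
      ∑ x, D.Xc k x * D.db (D.ι m) (D.η x y) :=
    Finset.sum_congr rfl fun x _ => by rw [D.closb]
  rw [h1, D.qa_tau, Finset.mul_sum]
  refine Finset.sum_congr rfl fun q _ => ?_
  have h2 : ∑ x, D.Xc k x * D.db (D.ι m) (D.η x (D.ι q)) =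
      ∑ x, D.Xc k x * D.db (D.ι q) (D.η x (D.ι m)) :=
    Finset.sum_congr rfl fun x _ => by rw [D.closb]
  rw [h2]
  ring

lemma X_j (k : κ) (a : β) : D.X k (j a) = ∑ b, D.e k b * D.H j a b := by
  rw [D.X_apply]
  simp only [Xc, H, Finset.sum_mul, Finset.mul_sum]
  rw [Finset.sum_comm]
  exact Finset.sum_congr rfl fun b _ => Finset.sum_congr rfl fun c _ => by ring

lemma γ_eq (a b : β) : D.γ j a b = ∑ k, ∑ l, D.X k (j a) * D.g k l * star (D.X l (j b)) := by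
  have h1 : ∀ x c, D.H j a x * D.η x c * star (D.H j b c) =
      ∑ k, ∑ l, D.e k x * D.H j a x * D.g k l * star (D.e l c * D.H j b c) := by
    intro x c
    rw [D.η_eq x c, Finset.mul_sum, Finset.sum_mul]
    refine Finset.sum_congr rfl fun k _ => ?_
    rw [Finset.mul_sum, Finset.sum_mul]
    refine Finset.sum_congr rfl fun l _ => ?_
    rw [star_mul']
    ring
  have h2 : ∀ x, ∑ c, D.H j a x * D.η x c * star (D.H j b c) =
      ∑ k, ∑ l, D.e k x * D.H j a x * D.g k l * star (D.X l (j b)) := by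
    intro x
    simp only [h1]
    rw [Finset.sum_comm]
    refine Finset.sum_congr rfl fun k _ => ?_
    rw [Finset.sum_comm]
    refine Finset.sum_congr rfl fun l _ => ?_
    rw [D.X_j, star_sum, Finset.mul_sum]
  rw [γ]
  simp only [h2]
  rw [Finset.sum_comm]
  refine Finset.sum_congr rfl fun k _ => ?_
  rw [Finset.sum_comm]
  refine Finset.sum_congr rfl fun l _ => ?_
  rw [D.X_j j k a, Finset.sum_mul, Finset.sum_mul]

lemma qa_X_star (k : κ) (f : R) (hf : D.Xb k f = 0) : D.X k (star f) = 0 := by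
  have h := D.star_X k (star f)
  rw [star_star, hf] at h
  exact star_eq_zero.1 h

lemma qa_Xb_X (hj : ∀ a c, D.db c (j a) = 0) (l k : κ) (a : β) : D.Xb l (D.X k (j a)) = 0 := by
  rw [← D.comm, D.Xb_apply]
  simp only [hj, mul_zero, Finset.sum_const_zero, map_zero]

lemma qa_X_γ (hj : ∀ a c, D.db c (j a) = 0) (k : κ) (a c : β) : D.X k (D.γ j a c) =
    ∑ m, (D.X k (D.X m (j a)) - ∑ i, D.A k m i * D.X i (j a)) *
      ∑ q, D.g m q * star (D.X q (j c)) := by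
  have h1 : ∀ m q, D.X k (D.X m (j a) * D.g m q * star (D.X q (j c))) =
      D.X k (D.X m (j a)) * (D.g m q * star (D.X q (j c))) -
        ∑ i, D.A k i m * D.X m (j a) * (D.g i q * star (D.X q (j c))) := by
    intro m q
    rw [a5_leib, a5_leib, D.qa_X_star k _ (D.qa_Xb_X j hj k q c), D.Xg, mul_zero, add_zero,
      add_mul, mul_neg, neg_mul, Finset.mul_sum, Finset.sum_mul, sub_eq_add_neg, mul_assoc]
    congr 2
    exact Finset.sum_congr rfl fun i _ => by ring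
  rw [D.γ_eq, map_sum]
  simp only [map_sum, h1, Finset.sum_sub_distrib, sub_mul]
  congr 1
  · simp only [Finset.mul_sum]
  · have h2 : ∀ m, ∑ q, ∑ i, D.A k i m * D.X m (j a) * (D.g i q * star (D.X q (j c))) =
        ∑ i, D.A k i m * D.X m (j a) * ∑ q, D.g i q * star (D.X q (j c)) := by
      intro m
      rw [Finset.sum_comm]
      simp only [Finset.mul_sum]
    simp only [h2]
    rw [Finset.sum_comm]
    simp only [Finset.sum_mul]

lemma γ_symm (hj : ∀ a c, D.db c (j a) = 0) (a b c : β) :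
    ∑ k, ∑ l, D.g k l * star (D.X l (j b)) * D.X k (D.γ j a c) =
      ∑ k, ∑ l, D.g k l * star (D.X l (j c)) * D.X k (D.γ j a b) := by
  have hB : ∀ k m, D.X k (D.X m (j a)) - ∑ i, D.A k m i * D.X i (j a) =
      D.X m (D.X k (j a)) - ∑ i, D.A m k i * D.X i (j a) := by
    intro k m
    have h := D.a5_comm k m (j a)
    simp only [sub_mul, Finset.sum_sub_distrib] at h
    linear_combination h
  simp only [← Finset.sum_mul]
  simp only [D.qa_X_γ j hj]
  have h1 : ∀ (V W : κ → R) (B : κ → κ → R), (∀ k m, B k m = B m k) →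
      ∑ k, V k * ∑ m, B k m * W m = ∑ k, W k * ∑ m, B k m * V m := by
    intro V W B h
    simp only [Finset.mul_sum]
    rw [Finset.sum_comm]
    refine Finset.sum_congr rfl fun k _ => Finset.sum_congr rfl fun m _ => ?_
    rw [h m k]
    ring
  exact h1 _ _ (fun k m => D.X k (D.X m (j a)) - ∑ i, D.A k m i * D.X i (j a)) hB

lemma qa_Xb_H (hj : ∀ a c, D.db c (j a) = 0) (l : κ) (a : β) (x : α) :
    D.Xb l (D.H j a x) = 0 := by
  have h : ∀ y, D.db y (D.H j a x) = 0 := by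
    intro y
    rw [H, map_sum]
    refine Finset.sum_eq_zero fun c _ => ?_
    rw [a5_leib, D.hol, ← D.ddb, hj, map_zero, zero_mul, mul_zero, add_zero]
  rw [D.Xb_apply]
  simp only [h, mul_zero, Finset.sum_const_zero]

lemma X_γ (hj : ∀ a c, D.db c (j a) = 0) (k : κ) (a b : β) : D.X k (D.γ j a b) =
    ∑ x, ∑ c, D.Xc k x * (∑ s, D.H j a s * D.d s (D.η x c)) * star (D.H j b c) +
      ∑ x, ∑ c, D.X k (D.H j a x) * D.η x c * star (D.H j b c) := by
  have h1 : ∀ x c, D.X k (D.H j a x * D.η x c * star (D.H j b c)) =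
      ∑ s, D.Xc k s * (D.H j a x * D.d x (D.η s c)) * star (D.H j b c) +
        D.X k (D.H j a x) * D.η x c * star (D.H j b c) := by
    intro x c
    rw [a5_leib, a5_leib, D.qa_X_star k _ (D.qa_Xb_H j hj k b c), mul_zero, add_zero, add_mul,
      add_comm, D.X_apply k (D.η x c), Finset.mul_sum, Finset.sum_mul]
    congr 1
    refine Finset.sum_congr rfl fun s _ => ?_
    rw [D.clos x c s]
    ring
  rw [γ, map_sum]
  simp only [map_sum, h1, Finset.sum_add_distrib]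
  congr 1
  simp only [Finset.mul_sum, Finset.sum_mul]
  have h2 : ∀ x, ∑ c, ∑ s, D.Xc k s * (D.H j a x * D.d x (D.η s c)) * star (D.H j b c) =
      ∑ s, ∑ c, D.Xc k s * (D.H j a x * D.d x (D.η s c)) * star (D.H j b c) :=
    fun x => Finset.sum_comm
  simp only [h2]
  rw [Finset.sum_comm]
  exact Finset.sum_congr rfl fun s _ => Finset.sum_comm

lemma W_γ (hj : ∀ a c, D.db c (j a) = 0) (J : κ → β) :
    D.W (Matrix.of fun i l => D.γ j (J i) (J l)).det =
      D.S * (Matrix.of fun i l => D.γ j (J i) (J l)).det ^ 2 := by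
  let f : Matrix κ κ R := Matrix.of fun k l => D.X k (j (J l))
  have h1 : (Matrix.of fun i l => D.γ j (J i) (J l)) = fᵀ * D.g * fᴴᵀ := by
    ext i l
    rw [Matrix.of_apply, D.γ_eq, Matrix.mul_apply, Finset.sum_comm]
    refine Finset.sum_congr rfl fun q _ => ?_
    rw [Matrix.mul_apply, Finset.sum_mul]
    rfl
  have h2 : ∀ l, D.Xb l f.det = 0 := by
    intro l
    rw [qa_der_det]
    refine Finset.sum_eq_zero fun i _ => Finset.sum_eq_zero fun q _ => ?_
    have : D.Xb l (f i q) = 0 := D.qa_Xb_X j hj l i (J q)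
    rw [this, mul_zero]
  obtain ⟨h3, h4⟩ := D.W_eq_zero f.det h2
  rw [h1, Matrix.det_mul, Matrix.det_mul, Matrix.det_transpose, Matrix.det_transpose,
    Matrix.det_conjTranspose, D.W_mul, D.W_mul, h3, h4, D.W_det]
  ring

end Dat

/-- Formula of Jacobi for a derivation. -/
lemma der_det (δ : Derivation ℂ R R) (A : Matrix κ κ R) :
    δ A.det = ∑ i, ∑ l, A.adjugate l i * δ (A i l) := qa_der_det δ A

omit [Algebra ℂ R] in
lemma qa_slot {ι : Type} [Fintype ι] [DecidableEq ι] (g f F : Matrix ι ι R) (hF : f * F = 1)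
    (v w : ι → R) :
    (F *ᵥ v) ⬝ᵥ (fᵀ * g * f.map star) *ᵥ star (F *ᵥ w) = v ⬝ᵥ g *ᵥ star w := by
  have h1 : f.map star *ᵥ star (F *ᵥ w) = star w := by
    have h2 : f.map star *ᵥ star (F *ᵥ w) = star (f *ᵥ (F *ᵥ w)) := by
      ext i
      simp only [Matrix.mulVec, dotProduct, Matrix.map_apply, Pi.star_apply, star_sum, star_mul']
    rw [h2, Matrix.mulVec_mulVec, hF, Matrix.one_mulVec]
  rw [← Matrix.mulVec_mulVec, h1, ← Matrix.mulVec_mulVec, Matrix.dotProduct_mulVec,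
    Matrix.vecMul_transpose, Matrix.mulVec_mulVec, hF, Matrix.one_mulVec]

open scoped Kronecker in
omit [Algebra ℂ R] [DecidableEq κ] in
lemma qa_ip3 (g : Matrix κ κ R) (v w : κ → κ → κ → R) : ip3 g v w =
    (fun p : κ × κ × κ => v p.1 p.2.1 p.2.2) ⬝ᵥ (g ⊗ₖ (g ⊗ₖ g)) *ᵥ
      star (fun p : κ × κ × κ => w p.1 p.2.1 p.2.2) := by
  simp only [ip3, Matrix.mulVec, dotProduct, Fintype.sum_prod_type, Matrix.kroneckerMap_apply,
    Pi.star_apply, Finset.mul_sum]
  refine Finset.sum_congr rfl fun m _ => Finset.sum_congr rfl fun j _ =>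
    Finset.sum_congr rfl fun q _ => Finset.sum_congr rfl fun m' _ =>
    Finset.sum_congr rfl fun j' _ => Finset.sum_congr rfl fun q' _ => ?_
  ring

open scoped Kronecker in
/-- Change of frame in the cubic norm. -/
lemma ip3_frame (g γ f F : Matrix κ κ R) (hF : F * f = 1)
    (hγ : ∀ a b, γ a b = ∑ k, ∑ l, f k a * g k l * star (f l b)) (u : κ → κ → κ → R) :
    ip3 g u u = ip3 γ (fun i j k => ∑ a, ∑ b, ∑ c, F i a * F j b * F k c * u a b c)
      (fun i j k => ∑ a, ∑ b, ∑ c, F i a * F j b * F k c * u a b c) := by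
  have h0 : f * F = 1 := mul_eq_one_comm.1 hF
  have h1 : γ = fᵀ * g * f.map star := by
    ext a b
    rw [hγ, Matrix.mul_apply, Finset.sum_comm]
    refine Finset.sum_congr rfl fun q _ => ?_
    rw [Matrix.mul_apply, Finset.sum_mul]
    rfl
  have h2 : (f ⊗ₖ (f ⊗ₖ f)) * (F ⊗ₖ (F ⊗ₖ F)) = 1 := by
    rw [← Matrix.mul_kronecker_mul, ← Matrix.mul_kronecker_mul, h0, Matrix.one_kronecker_one,
      Matrix.one_kronecker_one]
  have h3 : γ ⊗ₖ (γ ⊗ₖ γ) =
      (f ⊗ₖ (f ⊗ₖ f))ᵀ * (g ⊗ₖ (g ⊗ₖ g)) * (f ⊗ₖ (f ⊗ₖ f)).map star := by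
    have h4 : (f ⊗ₖ (f ⊗ₖ f)).map star = f.map star ⊗ₖ (f.map star ⊗ₖ f.map star) := by
      ext p q
      simp only [Matrix.map_apply, Matrix.kroneckerMap_apply, star_mul']
    have h5 : (f ⊗ₖ (f ⊗ₖ f))ᵀ = fᵀ ⊗ₖ (fᵀ ⊗ₖ fᵀ) := rfl
    rw [h4, h5, ← Matrix.mul_kronecker_mul, ← Matrix.mul_kronecker_mul,
      ← Matrix.mul_kronecker_mul, ← Matrix.mul_kronecker_mul, ← h1]
  have h6 : (fun p : κ × κ × κ => ∑ a, ∑ b, ∑ c, F p.1 a * F p.2.1 b * F p.2.2 c * u a b c) =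
      (F ⊗ₖ (F ⊗ₖ F)) *ᵥ fun p : κ × κ × κ => u p.1 p.2.1 p.2.2 := by
    ext p
    simp only [Matrix.mulVec, dotProduct, Fintype.sum_prod_type, Matrix.kroneckerMap_apply,
      mul_assoc]
  rw [qa_ip3, qa_ip3, h6, h3, qa_slot _ _ _ h2]

end Pool.Agent.SPF
end

-- part Pool.Agent.P.MP_63735c_ag.SQBound2
section

/-! Gradient bound for a maximal ambient minor. -/

open Set Filter Topology
open scoped ComplexOrder ContDiff Matrix

namespace Pool.Agent.SPF

variable {N M n : ℕ}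

lemma b2_alg (g γ f : Matrix (Fin n) (Fin n) ℂ) (P : Fin n → Fin n → Fin n → ℂ)
    (hγ : ∀ a b, γ a b = ∑ k, ∑ l, f k a * g k l * star (f l b)) (hu : IsUnit γ.det)
    (hsym : ∀ p l q, ∑ k, ∑ m, g k m * star (f m l) * P k p q =
      ∑ k, ∑ m, g k m * star (f m q) * P k p l) :
    ∃ t : Fin n → ℂ, ip1 g (fun k => ∑ i, ∑ l, γ⁻¹ l i * P k i l)
        (fun k => ∑ i, ∑ l, γ⁻¹ l i * P k i l) = ip1 γ t t ∧
      ∀ l, ∑ i, t i * γ i l =
        ∑ p, ∑ k, (∑ q, (∑ m, g k m * star (f m q)) * γ⁻¹ q p) * P k p l := by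
  have h1 : γ = fᵀ * (g * f.map star) := by
    ext a b
    rw [hγ]
    simp only [Matrix.mul_apply, Matrix.transpose_apply, Matrix.map_apply, Finset.mul_sum,
      mul_assoc]
  have h2 : fᵀ * (g * f.map star * γ⁻¹) = 1 := by
    rw [← Matrix.mul_assoc, ← h1, Matrix.mul_nonsing_inv _ hu]
  have h3 : f * (g * f.map star * γ⁻¹)ᵀ = 1 := by
    have h := congrArg Matrix.transpose (mul_eq_one_comm.1 h2)
    rwa [Matrix.transpose_mul, Matrix.transpose_transpose, Matrix.transpose_one] at h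
  set s : Fin n → ℂ := fun k => ∑ i, ∑ l, γ⁻¹ l i * P k i l with hs
  set t : Fin n → ℂ := (g * f.map star * γ⁻¹)ᵀ *ᵥ s with ht
  have h4 : ∀ k, ∑ i, f k i * t i = s k := by
    intro k
    have h : f *ᵥ t = s := by rw [ht, Matrix.mulVec_mulVec, h3, Matrix.one_mulVec]
    exact congrFun h k
  have h5 : ∀ l, ∑ i, t i * γ i l = ∑ k, ∑ m, s k * g k m * star (f m l) := by
    intro l
    simp only [hγ, ← h4, Finset.mul_sum, Finset.sum_mul]
    rw [Finset.sum_comm]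
    refine Finset.sum_congr rfl fun k _ => ?_
    rw [Finset.sum_comm]
    refine Finset.sum_congr rfl fun m _ => Finset.sum_congr rfl fun i _ => ?_
    ring
  refine ⟨t, ?_, fun l => ?_⟩
  · unfold ip1
    rw [Finset.sum_comm (f := fun k l => t k * γ k l * star (t l))]
    have h6 : ∀ l, ∑ k, t k * γ k l * star (t l) =
        ∑ k, ∑ m, s k * g k m * (star (f m l) * star (t l)) := by
      intro l
      rw [← Finset.sum_mul, h5, Finset.sum_mul]
      refine Finset.sum_congr rfl fun k _ => ?_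
      rw [Finset.sum_mul]
      exact Finset.sum_congr rfl fun m _ => mul_assoc _ _ _
    rw [Finset.sum_congr rfl fun l _ => h6 l, Finset.sum_comm (γ := Fin n)
      (f := fun l k => ∑ m, s k * g k m * (star (f m l) * star (t l)))]
    refine Finset.sum_congr rfl fun k _ => ?_
    rw [Finset.sum_comm]
    refine Finset.sum_congr rfl fun m _ => ?_
    rw [← Finset.mul_sum, ← h4 m, star_sum]
    congr 1
    exact Finset.sum_congr rfl fun l _ => star_mul' _ _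
  · rw [h5]
    have h7 : ∑ k, ∑ m, s k * g k m * star (f m l) =
        ∑ p, ∑ q, γ⁻¹ q p * ∑ k, ∑ m, g k m * star (f m l) * P k p q := by
      simp only [hs, Finset.mul_sum, Finset.sum_mul]
      rw [a3_comm4, a3_comm4]
      iterate 4 refine Finset.sum_congr rfl fun _ _ => ?_
      ring
    rw [h7]
    refine Finset.sum_congr rfl fun p _ => ?_
    simp only [hsym p l, Finset.mul_sum, Finset.sum_mul]
    rw [Finset.sum_comm]
    refine Finset.sum_congr rfl fun k _ => Finset.sum_congr rfl fun q _ =>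
      Finset.sum_congr rfl fun m _ => ?_
    ring

lemma b2_dz {C : Chart N} {D : AmbChart M} (e : Emb C D) {y : E N} (hy : y ∈ e.O) (a : Fin M)
    (c : Fin N) : dz c (fun y' => e.j y' a) y = jac e.j y a c := by
  have h := (e.hol.differentiableAt (e.isOpen.mem_nhds hy)).hasFDerivAt
  have h1 := hasFDerivAt_pi'.1 h a
  rw [(dz_of_diff h1.differentiableAt c).1, h1.fderiv]
  rfl

lemma b2_pair (A : Fin N → Fin N → ℂ) (H : Fin n → Fin N → ℂ) (w : Fin n → ℂ) :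
    ∑ l, (∑ x, ∑ c, A x c * star (H l c)) * star (w l) =
      ∑ x, ∑ c, A x c * star (∑ l, w l * H l c) := by
  simp only [star_sum, star_mul', Finset.mul_sum, Finset.sum_mul]
  rw [Finset.sum_comm]
  refine Finset.sum_congr rfl fun x _ => ?_
  rw [Finset.sum_comm]
  refine Finset.sum_congr rfl fun c _ => Finset.sum_congr rfl fun l _ => ?_
  ring

lemma b2_comb (F : Fin n → ℂ) (Y : Fin n → Fin N → ℂ) (A : Fin N → Fin N → ℂ) :
    ∑ k, F k * ∑ x, ∑ c, Y k x * A x c = ∑ x, ∑ c, (∑ k, F k * Y k x) * A x c := by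
  simp only [Finset.mul_sum, Finset.sum_mul]
  rw [Finset.sum_comm]
  refine Finset.sum_congr rfl fun x _ => ?_
  rw [Finset.sum_comm]
  refine Finset.sum_congr rfl fun c _ => Finset.sum_congr rfl fun l _ => ?_
  ring

lemma b2_comb2 (F : Fin n → ℂ) (Y : Fin n → Fin N → ℂ) (Q A : Fin N → Fin N → ℂ) :
    ∑ k, F k * ∑ x, ∑ c, (∑ s, Y k s * Q s x) * A x c =
      ∑ x, ∑ c, (∑ s, (∑ k, F k * Y k s) * Q s x) * A x c := by
  rw [b2_comb F (fun k x => ∑ s, Y k s * Q s x) A]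
  refine Finset.sum_congr rfl fun x _ => Finset.sum_congr rfl fun c _ => ?_
  congr 1
  simp only [Finset.mul_sum, Finset.sum_mul]
  rw [Finset.sum_comm]
  refine Finset.sum_congr rfl fun s _ => Finset.sum_congr rfl fun l _ => ?_
  ring

lemma b2_form (η : Matrix (Fin N) (Fin N) ℂ) (H : Fin n → Fin N → ℂ) (w : Fin n → ℂ)
    (γ : Matrix (Fin n) (Fin n) ℂ) (h : ∀ i l, γ i l = ∑ x, ∑ c, H i x * η x c * star (H l c)) :
    ∑ b, ∑ c, (∑ i, w i * H i b) * η b c * star (∑ l, w l * H l c) = ip1 γ w w := by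
  rw [← b2_pair (fun b c => (∑ i, w i * H i b) * η b c) H w, ip1, Finset.sum_comm
    (f := fun k l => w k * γ k l * star (w l))]
  refine Finset.sum_congr rfl fun l _ => ?_
  rw [← Finset.sum_mul]
  congr 1
  simp only [h, mul_assoc]
  exact (b2_comb w H fun x c => η x c * star (H l c)).symm

lemma b2_norm {z : Fin n → ℂ} {T : ℝ} (h : ∀ p, ‖z p‖ ^ 2 ≤ T) : ‖∑ p, z p‖ ^ 2 ≤ n ^ 2 * T := by
  calc ‖∑ p, z p‖ ^ 2 ≤ (∑ p, ‖z p‖) ^ 2 := pow_le_pow_left₀ (norm_nonneg _) (norm_sum_le _ _) 2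
    _ ≤ (Finset.univ : Finset (Fin n)).card * ∑ p, ‖z p‖ ^ 2 := sq_sum_le_card_mul_sum_sq
    _ ≤ (Finset.univ : Finset (Fin n)).card * ∑ _p : Fin n, T :=
      mul_le_mul_of_nonneg_left (Finset.sum_le_sum fun p _ => h p) (Nat.cast_nonneg _)
    _ = n ^ 2 * T := by
      rw [Finset.sum_const, Finset.card_univ, Fintype.card_fin, nsmul_eq_mul]
      ring

theorem AmbChart.grad_bound (hN : N = 2 * n) (D : AmbChart M) {K : Set (E M)} (hK : IsCompact K)
    (hKW : K ⊆ D.W) : ∃ B : ℝ, 0 ≤ B ∧ ∀ (C : Chart N) (e : Emb C D) (J : Fin n → Fin M), C.Iso →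
      ∀ y ∈ e.O, (C.η y).rank = n → e.j y ∈ K → MaxM (D.G (e.j y)) J →
        (gamM (C.G y) (fun y' => (D.b J (e.j y') : ℂ)) (fun y' => (D.b J (e.j y') : ℂ)) y).re ≤
          (B * D.b J (e.j y)) ^ 2 := by
  obtain ⟨B, hB, hH⟩ := D.hess (N := N) hK hKW
  have hQ0 : 0 ≤ (n : ℝ) ^ 2 * B := by positivity
  refine ⟨Real.sqrt ((n : ℝ) ^ 2 * B), Real.sqrt_nonneg _, fun C e J hC y hy hr hyK hm => ?_⟩
  have hyW := e.sub hy
  obtain ⟨ι, hι⟩ := Chart.exists_U (n := n) hyW hr.ge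
  let L : C.Loc ι := ⟨⟨e.O ∩ C.U ι, e.isOpen.inter (C.isOpen_U ι)⟩, hN, hC, inter_subset_right⟩
  let x : L.O := ⟨y, hy, hι⟩
  have hO : (L.O : Set (E N)) ⊆ e.O := inter_subset_left
  have hjh : ∀ a, DifferentiableOn ℂ (fun y' => e.j y' a) L.O := fun a =>
    (differentiableOn_pi.1 e.hol a).mono hO
  let j : Fin M → Sm L.O := fun a => Sm.mkH _ (hjh a)
  have rj : ∀ a, (j a).Rep fun y' => e.j y' a := fun a => Sm.rep_mkH _ _
  have hj : ∀ a c, L.dat.db c (j a) = 0 := fun a c => (rj a).db_eq_zero (hjh a) c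
  have rH : ∀ a c, (L.dat.H j a c).Rep fun y' => e.H a y' c := by
    intro a c x'
    simp only [Dat.H, Emb.H, map_sum, map_mul, Chart.Loc.dat_π, Chart.Loc.dat_d, L.rπ _ _ x',
      (rj a).d _ x', b2_dz e (hO x'.2)]
  have rγ : ∀ a b, (L.dat.γ j a b).Rep fun y' => D.G (e.j y') a b := by
    intro a b x'
    simp only [Dat.γ, map_sum, map_mul, Sm.ev_star, Chart.Loc.dat_η, L.rη _ _ x', rH _ _ x',
      e.G_apply (hO x'.2)]
  set Γ : Matrix (Fin n) (Fin n) (Sm L.O) := Matrix.of fun i l => L.dat.γ j (J i) (J l) with hΓ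
  have rdet : Γ.det.Rep fun y' => (D.b J (e.j y') : ℂ) := by
    intro x'
    rw [AlgHom.map_det]
    refine Eq.trans ?_ (mnr_eq (e.G_psd (hO x'.2)) J)
    congr 1
    ext i l
    exact rγ (J i) (J l) x'
  have hstar : star Γ.det = Γ.det := by
    ext x'
    rw [Sm.ev_star, rdet x']
    exact Complex.conj_ofReal _
  have hpsd := e.G_psd hy
  have hrk : (D.G (e.j y)).rank = n := (e.rank_G hy).trans hr
  have hb : 0 < mnr (D.G (e.j y)) J := by
    obtain ⟨J', hJ'⟩ := exists_mnr_pos (n := n) hpsd hrk.ge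
    exact hJ'.trans_le (hm J')
  set γ : Matrix (Fin n) (Fin n) ℂ := (D.G (e.j y)).submatrix J J with hγ
  have hdet : γ.det = (D.b J (e.j y) : ℂ) := mnr_eq hpsd J
  have hu : IsUnit γ.det := by
    rw [hdet]
    exact isUnit_iff_ne_zero.2 (Complex.ofReal_ne_zero.2 hb.ne')
  have hγpsd : γ.PosSemidef := hpsd.submatrix J
  let fa : Fin n → Fin M → ℂ := fun k a => Sm.ev x (L.dat.X k (j a))
  have hG : ∀ a b, D.G (e.j y) a b = ∑ k, ∑ l, fa k a * C.g ι y k l * star (fa l b) := by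
    intro a b
    have h := congrArg (Sm.ev x) (L.dat.γ_eq j a b)
    simp only [map_sum, map_mul, Sm.ev_star, L.rg _ _ x, rγ a b x] at h
    exact h
  let P : Fin n → Fin n → Fin n → ℂ := fun k i l => Sm.ev x (L.dat.X k (L.dat.γ j (J i) (J l)))
  obtain ⟨t, ht1, ht2⟩ := b2_alg (C.g ι y) γ (Matrix.of fun k l => fa k (J l)) P
    (fun a b => hG (J a) (J b)) hu (fun p l q => by
      have h := congrArg (Sm.ev x) (L.dat.γ_symm j hj (J p) (J l) (J q))
      simp only [map_sum, map_mul, Sm.ev_star, L.rg _ _ x] at h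
      exact h)
  have hX : ∀ k, Sm.ev x (L.dat.X k Γ.det) =
      (D.b J (e.j y) : ℂ) * ∑ i, ∑ l, γ⁻¹ l i * P k i l := by
    intro k
    have hmap : (Sm.ev x).mapMatrix Γ = γ := by
      ext i l
      exact rγ (J i) (J l) x
    have hadj : ∀ l i, Sm.ev x (Γ.adjugate l i) = (D.b J (e.j y) : ℂ) * γ⁻¹ l i := by
      intro l i
      have h1 : Sm.ev x (Γ.adjugate l i) = γ.adjugate l i := by
        rw [← hmap, ← AlgHom.map_adjugate]
        rfl
      rw [h1, Matrix.inv_def, Matrix.smul_apply, smul_eq_mul, ← mul_assoc, ← hdet,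
        Ring.mul_inverse_cancel _ hu, one_mul]
    rw [der_det]
    simp only [map_sum, map_mul, hadj, Finset.mul_sum, mul_assoc]
    rfl
  have hg : gamM (C.G y) (fun y' => (D.b J (e.j y') : ℂ)) (fun y' => (D.b J (e.j y') : ℂ)) y =
      ip1 γ t t * ((D.b J (e.j y) ^ 2 : ℝ) : ℂ) := by
    refine (L.rgam rdet rdet x).symm.trans ?_
    rw [Dat.gam_eq, ← ht1, ip1, map_sum, Finset.sum_mul]
    refine Finset.sum_congr rfl fun k _ => ?_
    rw [map_sum, Finset.sum_mul]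
    refine Finset.sum_congr rfl fun l _ => ?_
    have h1 : L.dat.Xb l Γ.det = star (L.dat.X l Γ.det) := by rw [L.dat.star_X, hstar]
    rw [h1, map_mul, map_mul, Sm.ev_star, hX, hX, L.rg _ _ x, star_mul', Complex.star_def,
      Complex.conj_ofReal, Complex.ofReal_pow]
    ring
  let F : Fin n → Fin n → ℂ := fun p k =>
    ∑ q, (∑ m, C.g ι y k m * star (fa m (J q))) * γ⁻¹ q p
  let Y : Fin n → E N := fun p c => ∑ k, F p k * C.X ι y k c
  have hYn : ∀ p, Y p ∈ C.null y := by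
    intro p
    have h : Y p = ∑ k, F p k • C.X ι y k := by
      funext c
      simp only [Y, Finset.sum_apply, Pi.smul_apply, smul_eq_mul]
    rw [h]
    exact Submodule.sum_mem _ fun k _ => Submodule.smul_mem _ _ (Chart.X_mem_null hC hι k)
  have hfa : ∀ k a, fa k a = ∑ c, C.X ι y k c * jac e.j y a c := by
    intro k a
    have h := L.ev_X k (rj a) x
    simp only [b2_dz e (hO x.2)] at h
    exact h
  have hY1 : ∀ p, ‖jac e.j y *ᵥ Y p‖ ≤ 1 := by
    intro p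
    refine (pi_norm_le_iff_of_nonneg zero_le_one).2 fun a => ?_
    have h : (jac e.j y *ᵥ Y p) a = coef (D.G (e.j y)) J p a := by
      have h1 : (jac e.j y *ᵥ Y p) a = ∑ k, F p k * fa k a := by
        simp only [Matrix.mulVec, dotProduct, Y, hfa, Finset.mul_sum]
        rw [Finset.sum_comm]
        refine Finset.sum_congr rfl fun k _ => Finset.sum_congr rfl fun c _ => ?_
        ring
      rw [h1, coef]
      simp only [F, hG a, Finset.sum_mul]
      rw [Finset.sum_comm]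
      refine Finset.sum_congr rfl fun q _ => Finset.sum_congr rfl fun k _ =>
        Finset.sum_congr rfl fun m _ => ?_
      rw [← hγ]
      ring
    rw [h]
    exact coef_le_one hpsd hrk.le hb hm p a
  have hP : ∀ k p l, P k p l =
      ∑ b, ∑ c, C.X ι y k b * (∑ s, e.H (J p) y s * dz s (fun y' => C.η y' b c) y) *
          star (e.H (J l) y c) +
        ∑ b, ∑ c, (∑ s, C.X ι y k s * dz s (fun y' => e.H (J p) y' b) y) * C.η y b c *
          star (e.H (J l) y c) := by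
    intro k p l
    have h := congrArg (Sm.ev x) (L.dat.X_γ j hj k (J p) (J l))
    simp only [map_add, map_sum, map_mul, Sm.ev_star, L.rX _ _ x, rH _ _ x, Chart.Loc.dat_d,
      Chart.Loc.dat_η, (L.rη _ _).d _ x, L.rη _ _ x, L.ev_X k (rH _ _) x] at h
    exact h
  have hdual : (ip1 γ t t).re ≤ (n : ℝ) ^ 2 * B := by
    refine ip1_le_of_dual hγpsd t hQ0 fun w => ?_
    let Hw : E N := fun c => ∑ l, w l * e.H (J l) y c
    have h1 : ip1 γ t w = ∑ p,
        (∑ b, ∑ c, Y p b * (∑ s, e.H (J p) y s * dz s (fun y' => C.η y' b c) y) * star (Hw c) +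
          ∑ b, ∑ c, (∑ s, Y p s * dz s (fun y' => e.H (J p) y' b) y) * C.η y b c *
            star (Hw c)) := by
      rw [ip1, Finset.sum_comm]
      have h2 : ∀ l, ∑ k, t k * γ k l * star (w l) = ∑ p, (∑ k, F p k * P k p l) * star (w l) := by
        intro l
        rw [← Finset.sum_mul, ht2, Finset.sum_mul]
        rfl
      rw [Finset.sum_congr rfl fun l _ => h2 l, Finset.sum_comm]
      refine Finset.sum_congr rfl fun p _ => ?_
      rw [← b2_pair (fun b c => Y p b * ∑ s, e.H (J p) y s * dz s (fun y' => C.η y' b c) y)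
          (fun l => e.H (J l) y) w,
        ← b2_pair (fun b c => (∑ s, Y p s * dz s (fun y' => e.H (J p) y' b) y) * C.η y b c)
          (fun l => e.H (J l) y) w, ← Finset.sum_add_distrib]
      refine Finset.sum_congr rfl fun l _ => ?_
      rw [← add_mul]
      congr 1
      simp only [hP, mul_add, Finset.sum_add_distrib, mul_assoc]
      rw [b2_comb (F p) (C.X ι y), b2_comb2 (F p) (C.X ι y)]
    have h3 : ∑ b, ∑ c, Hw b * C.η y b c * star (Hw c) = ip1 γ w w :=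
      b2_form (C.η y) (fun l => e.H (J l) y) w γ fun i l => e.G_apply hy (J i) (J l)
    have h4 : 0 ≤ (ip1 γ w w).re := (Complex.nonneg_iff.1 (ip1_nonneg hγpsd w)).1
    rw [h1, mul_assoc]
    refine b2_norm fun p => ?_
    refine (hH C e y hy hyK (Y p) (hYn p) (J p) Hw).2.trans ?_
    rw [h3]
    refine mul_le_mul_of_nonneg_right ?_ h4
    exact mul_le_of_le_one_right hB (pow_le_one₀ (norm_nonneg _) (hY1 p))
  rw [hg, Complex.re_mul_ofReal, mul_pow, Real.sq_sqrt hQ0]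
  exact mul_le_mul_of_nonneg_right hdual (sq_nonneg _)

end Pool.Agent.SPF
end

-- part Pool.Agent.P.MP_63735c_ag.SQLu
section

/-! The estimate at a local maximum, with ambient weights. -/

open Set Filter Topology
open scoped ComplexOrder ContDiff Matrix

namespace Pool.Agent.SPF

variable {N M n : ℕ}

lemma sqlu_conj_sum (G : Matrix (Fin N) (Fin N) ℂ) (J : Matrix (Fin M) (Fin N) ℂ)
    (H : Matrix (Fin M) (Fin M) ℂ) :
    ∑ a, ∑ b, G a b * ∑ c, ∑ d, J c a * star (J d b) * H c d =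
      ∑ c, ∑ d, (J * G * Jᴴ) c d * H c d := by
  simp only [Matrix.mul_apply, Matrix.conjTranspose_apply, Finset.mul_sum, Finset.sum_mul]
  calc ∑ a, ∑ b, ∑ c, ∑ d, G a b * (J c a * star (J d b) * H c d)
      = ∑ a, ∑ c, ∑ d, ∑ b, G a b * (J c a * star (J d b) * H c d) := by
        refine Finset.sum_congr rfl fun a _ => ?_
        rw [Finset.sum_comm]
        exact Finset.sum_congr rfl fun c _ => Finset.sum_comm
    _ = ∑ c, ∑ d, ∑ a, ∑ b, G a b * (J c a * star (J d b) * H c d) := by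
        rw [Finset.sum_comm]
        exact Finset.sum_congr rfl fun c _ => Finset.sum_comm
    _ = _ := by
        refine Finset.sum_congr rfl fun c _ => Finset.sum_congr rfl fun d _ => ?_
        rw [Finset.sum_comm]
        exact Finset.sum_congr rfl fun b _ => Finset.sum_congr rfl fun a _ => by ring

lemma sqlu_d_db_pull {φ : E N → E M} {O₁ : TopologicalSpace.Opens (E M)}
    {O₂ : TopologicalSpace.Opens (E N)} (hφ : DifferentiableOn ℂ φ O₂)
    (hm : MapsTo φ O₂ O₁) (u : Sm O₁) (a b : Fin N) :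
    Sm.d a (Sm.db b (Sm.pull φ hφ hm u)) =
      ∑ c, ∑ d, Sm.J φ hφ c a * star (Sm.J φ hφ d b) * Sm.pull φ hφ hm (Sm.d c (Sm.db d u)) := by
  have h0 : ∀ d, Sm.d a (star (Sm.J φ hφ d b)) = 0 := by
    intro d
    have h1 := Sm.star_d a (star (Sm.J φ hφ d b))
    rw [star_star, Sm.db_J] at h1
    exact star_eq_zero.1 h1
  rw [Sm.db_pull, map_sum, Finset.sum_comm]
  refine Finset.sum_congr rfl fun d _ => ?_
  rw [Derivation.leibniz, h0, smul_zero, add_zero, smul_eq_mul, Sm.d_pull, Finset.mul_sum]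
  exact Finset.sum_congr rfl fun c _ => by ring

/-- The operators of the chart on a pulled back function are the ambient ones. -/
lemma sqlu_comp {C : Chart N} {D : AmbChart M} (e : Emb C D) {y : E N} (hy : y ∈ e.O)
    {f : E M → ℂ} (hf : ContDiffOn ℝ ∞ f D.W) :
    lapM (C.G y) (fun w => f (e.j w)) y = lapM (D.G (e.j y)) f (e.j y) ∧
      gamM (C.G y) (fun w => f (e.j w)) (fun w => f (e.j w)) y =
        gamM (D.G (e.j y)) f f (e.j y) := by
  let O₁ : TopologicalSpace.Opens (E M) := ⟨D.W, D.isOpen⟩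
  let O₂ : TopologicalSpace.Opens (E N) := ⟨e.O, e.isOpen⟩
  have hd : DifferentiableOn ℂ e.j O₂ := e.hol
  have hm : MapsTo e.j O₂ O₁ := e.maps
  let x : O₂ := ⟨y, hy⟩
  have hu : (Sm.mk (O := O₁) f hf).Rep f := Sm.rep_mk f hf
  have hp := hu.pull hd hm
  have e1 : ∀ a b, dz a (dzb b fun w => f (e.j w)) y =
      ∑ c, ∑ d, jac e.j y c a * star (jac e.j y d b) * dz c (dzb d f) (e.j y) := by
    intro a b
    have h1 := (hp.db b).d a x
    rw [sqlu_d_db_pull] at h1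
    simp only [map_sum, map_mul, Sm.ev_star, Sm.ev_J, Sm.ev_pull, (hu.db _).d _ _] at h1
    exact h1.symm
  have e2 : ∀ a, dz a (fun w => f (e.j w)) y = ∑ c, jac e.j y c a * dz c f (e.j y) := by
    intro a
    have h1 := hp.d a x
    rw [Sm.d_pull] at h1
    simp only [map_sum, map_mul, Sm.ev_J, Sm.ev_pull, hu.d _ _] at h1
    exact h1.symm
  have e3 : ∀ a, dzb a (fun w => f (e.j w)) y =
      ∑ c, star (jac e.j y c a) * dzb c f (e.j y) := by
    intro a
    have h1 := hp.db a x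
    rw [Sm.db_pull] at h1
    simp only [map_sum, map_mul, Sm.ev_star, Sm.ev_J, Sm.ev_pull, hu.db _ _] at h1
    exact h1.symm
  constructor
  · simp only [lapM, e1]
    rw [e.G_eq hy]
    exact sqlu_conj_sum (C.G y) (jac e.j y) (Matrix.of fun c d => dz c (dzb d f) (e.j y))
  · have h1 := sqlu_conj_sum (C.G y) (jac e.j y)
      (Matrix.of fun c d => dz c f (e.j y) * dzb d f (e.j y))
    simp only [Matrix.of_apply] at h1
    simp only [gamM, e2, e3, mul_assoc]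
    rw [e.G_eq hy, ← h1]
    refine Finset.sum_congr rfl fun a _ => Finset.sum_congr rfl fun b _ => ?_
    rw [Finset.sum_mul_sum]
    congr 1
    exact Finset.sum_congr rfl fun c _ => Finset.sum_congr rfl fun d _ => by ring

/-- Bounds for the ambient operators on a compact set. -/
lemma sqlu_amb_bound (D : AmbChart M) {K : Set (E M)} (hK : IsCompact K) (hKW : K ⊆ D.W)
    {ρ : E M → ℝ} (hρ : ContDiff ℝ ∞ ρ) {c : ℝ} (hc : 0 < c) :
    ∃ B : ℝ, 0 ≤ B ∧ ∀ z ∈ K, (gamM (D.G z) (fun w => (ρ w : ℂ)) (fun w => (ρ w : ℂ)) z).re ≤ B ∧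
      (c ≤ ρ z → -B ≤ dlogM (D.G z) (fun w => (ρ w : ℂ)) z) := by
  have hF : ContDiffOn ℝ ∞ (fun w => (ρ w : ℂ)) D.W := test_ofReal hρ.contDiffOn
  have cg : ContinuousOn (fun z => gamM (D.G z) (fun w => (ρ w : ℂ)) (fun w => (ρ w : ℂ)) z) K := by
    refine ContinuousOn.mono ?_ hKW
    exact continuousOn_finsetSum _ fun a _ => continuousOn_finsetSum _ fun b _ =>
      ((D.G_smooth a b).continuousOn.mul (smooth_dz D.isOpen hF a).continuousOn).mul
        (smooth_dzb D.isOpen hF b).continuousOn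
  have cl : ContinuousOn (fun z => lapM (D.G z) (fun w => (ρ w : ℂ)) z) K := by
    refine ContinuousOn.mono ?_ hKW
    exact continuousOn_finsetSum _ fun a _ => continuousOn_finsetSum _ fun b _ =>
      (D.G_smooth a b).continuousOn.mul
        (smooth_dz D.isOpen (smooth_dzb D.isOpen hF b) a).continuousOn
  have hK' : IsCompact (K ∩ {z | c ≤ ρ z}) :=
    hK.inter_right (isClosed_le continuous_const hρ.continuous)
  have cρ : ContinuousOn (fun w => (ρ w : ℂ)) (K ∩ {z | c ≤ ρ z}) :=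
    hF.continuousOn.mono (inter_subset_left.trans hKW)
  have cd : ContinuousOn (fun z => dlogM (D.G z) (fun w => (ρ w : ℂ)) z) (K ∩ {z | c ≤ ρ z}) := by
    refine Complex.continuous_re.comp_continuousOn
      (((cρ.mul (cl.mono inter_subset_left)).sub (cg.mono inter_subset_left)).div (cρ.pow 2) ?_)
    intro z hz
    have : 0 < ρ z := hc.trans_le hz.2
    exact pow_ne_zero 2 (Complex.ofReal_ne_zero.2 this.ne')
  obtain ⟨M₁, h₁⟩ := hK.exists_bound_of_continuousOn cg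
  obtain ⟨M₂, h₂⟩ := hK'.exists_bound_of_continuousOn cd
  refine ⟨max 0 (max M₁ M₂), le_max_left _ _, fun z hz => ⟨?_, fun hcz => ?_⟩⟩
  · exact ((Complex.re_le_norm _).trans (h₁ z hz)).trans (le_max_of_le_right (le_max_left _ _))
  · have := h₂ z ⟨hz, hcz⟩
    rw [Real.norm_eq_abs, abs_le] at this
    exact (neg_le_neg (le_max_of_le_right (le_max_right _ _))).trans this.1

lemma Emb.dlog_b (hN : N = 2 * n) {C : Chart N} {D : AmbChart M} (e : Emb C D) (hC : C.Iso)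
    {ι : Fin n → Fin N} {J : Fin n → Fin M} {y : E N} (hy : y ∈ e.O) (hU : y ∈ C.U ι)
    (hb : 0 < D.b J (e.j y)) :
    dlogM (C.G y) (fun y' => (D.b J (e.j y') : ℂ)) y = C.S ι y := by
  let L : C.Loc ι := ⟨⟨e.O ∩ C.U ι, e.isOpen.inter (C.isOpen_U ι)⟩, hN, hC, fun _ hx => hx.2⟩
  have hd : DifferentiableOn ℂ e.j L.O := e.hol.mono fun _ hx => hx.1
  have hda : ∀ a, DifferentiableOn ℂ (fun w => e.j w a) L.O := differentiableOn_pi.1 hd
  let j : Fin M → Sm L.O := fun a => Sm.mkH (fun w => e.j w a) (hda a)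
  have rj : ∀ a, (j a).Rep fun w => e.j w a := fun a => Sm.rep_mkH _ _
  have hj : ∀ a c, L.dat.db c (j a) = 0 := fun a c => (rj a).db_eq_zero (hda a) c
  have rd : ∀ a c (x : L.O), Sm.ev x (Sm.d c (j a)) = jac e.j x a c := by
    intro a c x
    have hx := L.O.isOpen.mem_nhds x.2
    have h1 := (hd.differentiableAt hx).hasFDerivAt
    rw [(rj a).d c x, (dz_of_diff ((hda a).differentiableAt hx) c).1,
      (hasFDerivAt_pi'.1 h1 a).fderiv]
    rfl
  have rH : ∀ a b (x : L.O), Sm.ev x (L.dat.H j a b) = e.H a x b := by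
    intro a b x
    simp only [Dat.H, Emb.H, map_sum, map_mul, Chart.Loc.dat_π, Chart.Loc.dat_d, L.rπ _ _ x, rd]
  have rγ : ∀ a b (x : L.O), Sm.ev x (L.dat.γ j a b) = D.G (e.j x) a b := by
    intro a b x
    rw [e.G_apply x.2.1]
    simp only [Dat.γ, map_sum, map_mul, Sm.ev_star, Chart.Loc.dat_η, L.rη _ _ x, rH]
  have hdet : (Matrix.of fun i l => L.dat.γ j (J i) (J l)).det.Rep
      fun y' => (D.b J (e.j y') : ℂ) := by
    intro x
    change _ = (mnr (D.G (e.j x)) J : ℂ)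
    rw [AlgHom.map_det, ← mnr_eq (e.G_psd x.2.1) J]
    congr 1
    ext i l
    exact rγ (J i) (J l) x
  let x : L.O := ⟨y, hy, hU⟩
  have h1 := L.dlog_eq hdet x
  have h0 : (D.b J (e.j x) : ℂ) ≠ 0 := Complex.ofReal_ne_zero.2 hb.ne'
  rw [L.dat.W_γ j hj J, map_mul, map_pow, hdet x,
    mul_div_cancel_right₀ _ (pow_ne_zero 2 h0), ← L.S_eq x] at h1
  exact h1

theorem AmbChart.cutoff_bound (D : AmbChart M) {K : Set (E M)} (hK : IsCompact K) (hKW : K ⊆ D.W)
    {ρ : E M → ℝ} (hρ : ContDiff ℝ ∞ ρ) {c : ℝ} (hc : 0 < c) :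
    ∃ B : ℝ, 0 ≤ B ∧ ∀ (C : Chart N) (e : Emb C D), ∀ y ∈ e.O, e.j y ∈ K →
      (gamM (C.G y) (fun y' => (ρ (e.j y') : ℂ)) (fun y' => (ρ (e.j y') : ℂ)) y).re ≤ B ∧
        (c ≤ ρ (e.j y) → -B ≤ dlogM (C.G y) (fun y' => (ρ (e.j y') : ℂ)) y) := by
  obtain ⟨B, hB, hb⟩ := sqlu_amb_bound D hK hKW hρ hc
  refine ⟨B, hB, fun C e y hy hyK => ?_⟩
  obtain ⟨l1, l2⟩ := sqlu_comp e hy (f := fun w => (ρ w : ℂ)) (test_ofReal hρ.contDiffOn)
  have h := hb _ hyK
  simp only [dlogM] at h ⊢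
  rw [l1, l2]
  exact h

theorem AmbChart.S_le_of_max (hN : N = 2 * n) (D : AmbChart M) {K : Set (E M)} (hK : IsCompact K)
    (hKW : K ⊆ D.W) {ρ : E M → ℝ} (hρ : ContDiff ℝ ∞ ρ) {c : ℝ} (hc : 0 < c) :
    ∃ B : ℝ, 0 ≤ B ∧ ∀ (C : Chart N) (e : Emb C D) (ι : Fin n → Fin N) (J : Fin n → Fin M), C.Iso →
      ∀ y ∈ e.O, y ∈ C.U ι → e.j y ∈ K → ∀ ε : ℝ, 0 < ε → 0 < D.b J (e.j y) → c ≤ ρ (e.j y) →
        IsLocalMax (fun y' => C.S ι y' * (ρ (e.j y') * D.b J (e.j y')) ^ ε) y →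
          C.S ι y ≤ ε * B := by
  obtain ⟨B, hB, hb⟩ := D.cutoff_bound (N := N) hK hKW hρ hc
  have hn : (0 : ℝ) ≤ n := Nat.cast_nonneg n
  refine ⟨n * B, by positivity, fun C e ι J hC y hy hU hyK ε hε hb0 hcρ hmax => ?_⟩
  rcases le_or_gt (C.S ι y) 0 with h0 | h0
  · exact h0.trans (by positivity)
  have ho : IsOpen (e.O ∩ C.U ι) := e.isOpen.inter (C.isOpen_U ι)
  have hjs : ContDiffOn ℝ ∞ e.j (e.O ∩ C.U ι) :=
    (smooth_of_hol e.isOpen e.hol).mono inter_subset_left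
  have s2 : ContDiffOn ℝ ∞ (fun y' => D.b J (e.j y')) (e.O ∩ C.U ι) :=
    (D.b_smooth J).comp hjs fun _ h => e.maps h.1
  have s3 : ContDiffOn ℝ ∞ (fun y' => ρ (e.j y')) (e.O ∩ C.U ι) := hρ.comp_contDiffOn hjs
  have h1 := max_test (Chart.G_psd hU.1) ho ⟨hy, hU⟩ ((C.S_smooth ι).mono inter_subset_right)
    s2 s3 h0 hb0 (hc.trans_le hcρ) hmax
  have h2 := e.dlog_b hN hC hy hU hb0
  have h3 := (hb C e y hy hyK).2 hcρ
  have h4 := Chart.lu hN hC hU h0
  rw [h2] at h1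
  have h5 : dlogM (C.G y) (fun w => (C.S ι w : ℂ)) y ≤ ε * B := by nlinarith
  have h6 := mul_le_mul_of_nonneg_left h5 hn
  nlinarith

end Pool.Agent.SPF
end

-- part Pool.Agent.P.MP_63735c_ag.SQLip
section

/-! A good map on a ball stays in a compact part of the rank n locus. -/

open Set Filter Topology
open scoped ComplexOrder ContDiff Matrix

namespace Pool.Agent.SPF

variable {N n : ℕ} {X : Type} [TopologicalSpace X] [T2Space X] [CompactSpace X] {R : Set X}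
  {A : Atlas R N}

omit [CompactSpace X] in
/-- the logarithmic derivative of the weight is bounded at active pairs -/
theorem qlip_deriv (hN : N = 2 * n) (hR : IsOpen R) (hd : Dense R) (hI : ∀ i, (A.C i).Iso)
    {B : Amb R A} (P : Cov2 B) :
    ∃ D : ℝ, 0 ≤ D ∧ ∀ (Φ : E n → R) t, A.GoodAt Φ t →
      ∃ α, ∃ J : Fin n → Fin (B.M (P.c α)), P.Active α J (Φ t) ∧ 0 < P.w α J (Φ t) ∧
        ∃ L : E n →L[ℝ] ℝ, (∀ᶠ s in 𝓝 t, (Φ s : X) ∈ P.K α) ∧
          HasFDerivAt (fun s => P.w α J (Φ s)) L t ∧ ‖L‖ ≤ D * P.w α J (Φ t) := by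
  have := P.fin
  obtain ⟨c, hc, hact⟩ := P.exists_active hN hR hd hI
  have hK : ∀ α, IsCompact (B.z (P.c α) '' P.K α) := fun α =>
    (P.cpt α).image_of_continuousOn ((B.cont _).mono (P.sub α))
  have hKW : ∀ α, B.z (P.c α) '' P.K α ⊆ (B.D (P.c α)).W := fun α => by
    rintro _ ⟨x, hx, rfl⟩
    exact B.maps _ (P.sub α hx)
  choose M₁ h₁ H₁ using fun α => (B.D (P.c α)).grad_bound hN (hK α) (hKW α)
  choose M₂ h₂ H₂ using fun α =>
    (B.D (P.c α)).cutoff_bound (N := N) (hK α) (hKW α) (P.smooth α) hc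
  obtain ⟨D₀, hD₀⟩ := (Set.finite_range fun α => M₁ α + M₂ α).bddAbove
  have hD : ∀ α, M₁ α + M₂ α ≤ |D₀| := fun α => (hD₀ ⟨α, rfl⟩).trans (le_abs_self _)
  have hD0 := abs_nonneg D₀
  generalize |D₀| = D at hD hD0
  refine ⟨2 * n * D + 2 * n * (D + 1) / c, by positivity, fun Φ t hg => ?_⟩
  have hcont : ContinuousAt (fun s => (Φ s : X)) t :=
    continuous_subtype_val.continuousAt.comp (lip_cont hg)
  obtain ⟨i, f, hf, he⟩ := hg
  have h0 := hf.self_of_nhds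
  have hp : A.p i (f t) = Φ t := he.self_of_nhds
  obtain ⟨⟨α, J, hz⟩, hall⟩ := hact (Φ t) ⟨i, f t, h0.1, hp, h0.2.1⟩
  obtain ⟨ha, hM, hρ⟩ := hall α J hz
  have hρ0 : 0 < P.ρ α (B.z (P.c α) (Φ t)) := hc.trans_le hρ
  have hy : f t ∈ (B.emb (P.c α) i).O := ⟨h0.1, by rw [hp]; exact P.sub α hz.1⟩
  have hj : (B.emb (P.c α) i).j (f t) = B.z (P.c α) (Φ t) := by
    show B.z (P.c α) (A.p i (f t)) = _
    rw [hp]
  have hjs : ∀ᶠ s in 𝓝 t, (B.emb (P.c α) i).j (f s) = B.z (P.c α) (Φ s) := by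
    filter_upwards [he] with s a
    show B.z (P.c α) (A.p i (f s)) = _
    rw [a]
  generalize B.emb (P.c α) i = e at hy hj hjs
  have hjK : e.j (f t) ∈ B.z (P.c α) '' P.K α := ⟨_, hz.1, hj.symm⟩
  have hjd : DifferentiableAt ℝ e.j (f t) :=
    (e.hol.differentiableAt (e.isOpen.mem_nhds hy)).restrictScalars ℝ
  have b₁ := h₁ α
  have b₂ := h₂ α
  have b₃ := hD α
  rw [← hj] at ha hM hρ hρ0
  obtain ⟨L₁, d₁, n₁⟩ := Chart.good_deriv hf (ψ := fun y => P.ρ α (e.j y))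
    (((P.smooth α).differentiable (by simp) _).comp _ hjd) (M := D + 1) (by positivity)
    ((H₂ α _ e _ hy hjK).1.trans (by nlinarith))
  obtain ⟨L₂, d₂, n₂⟩ := Chart.good_deriv hf (ψ := fun y => (B.D (P.c α)).b J (e.j y))
    (((((B.D (P.c α)).b_smooth J).contDiffAt
      ((B.D (P.c α)).isOpen.mem_nhds (e.maps hy))).differentiableAt (by simp)).comp _ hjd)
    (M := M₁ α * (B.D (P.c α)).b J (e.j (f t))) (by positivity)
    (H₁ α _ e J (hI i) _ hy h0.2.1 hjK hM)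
  have hw : P.w α J (Φ t) = P.ρ α (e.j (f t)) * (B.D (P.c α)).b J (e.j (f t)) := by
    rw [hj]; rfl
  refine ⟨α, J, hz, hw ▸ mul_pos hρ0 ha, _, ?_, (d₁.mul d₂).congr_of_eventuallyEq ?_, ?_⟩
  · exact hcont (P.nhds α _ hz.1 (hj ▸ hρ0.ne'))
  · filter_upwards [hjs] with s a
    show _ = P.ρ α (e.j (f s)) * (B.D (P.c α)).b J (e.j (f s))
    rw [a]; rfl
  · rw [hw]
    generalize P.ρ α (e.j (f t)) = ρ at *
    generalize (B.D (P.c α)).b J (e.j (f t)) = a at *
    have e₁ : ‖ρ • L₂‖ ≤ 2 * n * D * (ρ * a) := by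
      rw [norm_smul, Real.norm_of_nonneg hρ0.le]
      calc ρ * ‖L₂‖ ≤ ρ * (2 * n * (M₁ α * a)) := by gcongr
        _ ≤ ρ * (2 * n * (D * a)) := by gcongr; linarith
        _ = _ := by ring
    have e₂ : ‖a • L₁‖ ≤ 2 * n * (D + 1) / c * (ρ * a) := by
      rw [norm_smul, Real.norm_of_nonneg ha.le]
      calc a * ‖L₁‖ ≤ a * (2 * n * (D + 1)) := by gcongr
        _ = 2 * n * (D + 1) / c * (c * a) := by field_simp
        _ ≤ _ := by gcongr
    calc _ ≤ ‖ρ • L₂‖ + ‖a • L₁‖ := norm_add_le _ _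
      _ ≤ _ := by rw [add_mul]; exact add_le_add e₁ e₂

omit [CompactSpace X] in
theorem qlip_closed {B : Amb R A} (P : Cov2 B) {γ : ℝ → X} (hγ : ContinuousOn γ (Icc 0 1))
    {v : ℝ → ℝ} (hv : Continuous v) :
    IsClosed ({s : ℝ | ∃ α, ∃ J : Fin n → Fin (B.M (P.c α)),
      γ s ∈ P.K α ∧ v s ≤ P.w α J (γ s)} ∩ Icc 0 1) := by
  have := P.fin
  have e : {s : ℝ | ∃ α, ∃ J : Fin n → Fin (B.M (P.c α)),
      γ s ∈ P.K α ∧ v s ≤ P.w α J (γ s)} ∩ Icc 0 1 = ⋃ α, ⋃ J : Fin n → Fin (B.M (P.c α)),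
        {s ∈ Icc (0 : ℝ) 1 ∩ γ ⁻¹' P.K α | v s ≤ P.w α J (γ s)} := by
    ext s
    simp only [mem_iUnion]
    constructor
    · rintro ⟨⟨α, J, h1, h2⟩, hs⟩
      exact ⟨α, J, ⟨hs, h1⟩, h2⟩
    · rintro ⟨α, J, ⟨hs, h1⟩, h2⟩
      exact ⟨⟨α, J, h1, h2⟩, hs⟩
  rw [e]
  refine isClosed_iUnion_of_finite fun α => isClosed_iUnion_of_finite fun J => ?_
  exact (hγ.preimage_isClosed_of_isClosed isClosed_Icc (P.cpt α).isClosed).isClosed_le
    hv.continuousOn ((P.w_cont α J).comp (hγ.mono inter_subset_left) fun s hs => hs.2)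

omit [CompactSpace X] in
theorem qlip_lower (hN : N = 2 * n) (hR : IsOpen R) (hd : Dense R) (hI : ∀ i, (A.C i).Iso)
    {B : Amb R A} (P : Cov2 B) (x₀ : R) (ρ : ℝ) :
    ∃ τ : ℝ, 0 < τ ∧ ∀ r ≤ ρ, ∀ Φ : E n → R, Φ 0 = x₀ →
      (∀ t ∈ Metric.ball (0 : E n) r, A.GoodAt Φ t) → ∀ t ∈ Metric.ball (0 : E n) r,
        ∃ α, ∃ J : Fin n → Fin (B.M (P.c α)), (Φ t : X) ∈ P.K α ∧ τ ≤ P.w α J (Φ t) := by
  obtain ⟨D, hD, H⟩ := qlip_deriv hN hR hd hI P
  by_cases hw : ∃ α, ∃ J : Fin n → Fin (B.M (P.c α)), (x₀ : X) ∈ P.K α ∧ 0 < P.w α J x₀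
  swap
  · refine ⟨1, one_pos, fun r _ Φ h0 hg t ht => absurd ?_ hw⟩
    obtain ⟨α, J, ha, hpos, -⟩ := H Φ 0 (hg 0 (Metric.mem_ball_self (Metric.pos_of_mem_ball ht)))
    rw [h0] at ha hpos
    exact ⟨α, J, ha.1, hpos⟩
  obtain ⟨α₀, J₀, ha₀, hw⟩ := hw
  refine ⟨P.w α₀ J₀ x₀ * Real.exp (-((D * ρ + 1) * 1)), by positivity,
    fun r hr Φ h0 hg t ht => ?_⟩
  have htR : ‖t‖ ≤ ρ := (mem_ball_zero_iff.1 ht).le.trans hr
  have hb : ∀ s ∈ Icc (0 : ℝ) 1, s • t ∈ Metric.ball (0 : E n) r := fun s hs => by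
    rw [mem_ball_zero_iff, norm_smul, Real.norm_of_nonneg hs.1]
    exact (mul_le_of_le_one_left (norm_nonneg _) hs.2).trans_lt (mem_ball_zero_iff.1 ht)
  have hl : Continuous fun s : ℝ => s • t := by fun_prop
  have hγ : ContinuousOn (fun s : ℝ => (Φ (s • t) : X)) (Icc 0 1) := fun s hs =>
    (continuous_subtype_val.continuousAt.comp
      (ContinuousAt.comp (f := fun s : ℝ => s • t) (lip_cont (hg _ (hb s hs)))
        hl.continuousAt)).continuousWithinAt
  have hcl := qlip_closed (n := n) P hγ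
    (v := fun s => P.w α₀ J₀ x₀ * Real.exp (-((D * ρ + 1) * s))) (by fun_prop)
  have key := hcl.Icc_subset_of_forall_mem_nhdsWithin
    ⟨α₀, J₀, by rw [zero_smul, h0]; exact ha₀, by simp [h0]⟩ ?_ (right_mem_Icc.2 zero_le_one)
  · simpa only [mem_ofPred_eq, one_smul] using key
  rintro s₀ ⟨⟨β, J', hy, hle⟩, hs⟩
  obtain ⟨α, J, ha, hpos, L, hev, hL, hn⟩ := H Φ _ (hg _ (hb s₀ (Ico_subset_Icc_self hs)))
  have h1 := hle.trans (ha.2 β J' hy)
  have hdd : HasDerivAt (fun s : ℝ => s • t) t s₀ := by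
    simpa using (hasDerivAt_id s₀).smul_const t
  have h2 : HasDerivAt (fun s : ℝ => P.w α J (Φ (s • t))) (L t) s₀ :=
    HasFDerivAt.comp_hasDerivAt s₀ (f := fun s : ℝ => s • t) hL hdd
  have h3 : |L t| ≤ D * P.w α J (Φ (s₀ • t)) * ρ :=
    (L.le_opNorm t).trans (mul_le_mul hn htR (norm_nonneg _) (by positivity))
  have h4 := lip_right (κ := D * ρ + 1) h2 (by nlinarith [neg_abs_le (L t)])
  filter_upwards [h4, nhdsWithin_le_nhds (hl.continuousAt.eventually hev)] with s a b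
  refine ⟨α, J, b, ?_⟩
  have h5 : P.w α₀ J₀ x₀ ≤ P.w α J (Φ (s₀ • t)) * Real.exp ((D * ρ + 1) * s₀) := by
    rw [Real.exp_neg, ← div_eq_mul_inv, div_le_iff₀ (Real.exp_pos _)] at h1
    exact h1
  show P.w α₀ J₀ x₀ * Real.exp (-((D * ρ + 1) * s)) ≤ _
  rw [Real.exp_neg, ← div_eq_mul_inv, div_le_iff₀ (Real.exp_pos _)]
  exact h5.trans a

theorem Amb.proper (hN : N = 2 * n) (hR : IsOpen R) (hd : Dense R) (hI : ∀ i, (A.C i).Iso)
    (B : Amb R A) (x₀ : R) (ρ : ℝ) : ∃ K : Set R, IsCompact K ∧ (∀ x ∈ K, A.Rk n x) ∧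
      ∀ r ≤ ρ, ∀ Φ : E n → R, Φ 0 = x₀ → (∀ t ∈ Metric.ball (0 : E n) r, A.GoodAt Φ t) →
        ∀ t ∈ Metric.ball (0 : E n) r, Φ t ∈ K := by
  obtain ⟨P⟩ := B.exists_cov
  have := P.fin
  obtain ⟨τ, hτ, H⟩ := qlip_lower hN hR hd hI P x₀ ρ
  have hrk : ∀ (x : X) α (J : Fin n → Fin (B.M (P.c α))), x ∈ P.K α → τ ≤ P.w α J x →
      ∃ hx : x ∈ R, A.Rk n ⟨x, hx⟩ := fun x α J h1 h2 =>
    B.rk_of_b hN hd hI (P.sub α h1) (J := J) (right_ne_zero_of_mul (hτ.trans_le h2).ne')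
  refine ⟨{x : R | ∃ α, ∃ J : Fin n → Fin (B.M (P.c α)), (x : X) ∈ P.K α ∧ τ ≤ P.w α J x},
    ?_, ?_, H⟩
  · rw [Subtype.isCompact_iff]
    have e : (fun x : R => (x : X)) ''
        {x : R | ∃ α, ∃ J : Fin n → Fin (B.M (P.c α)), (x : X) ∈ P.K α ∧ τ ≤ P.w α J x} =
        ⋃ α, ⋃ J : Fin n → Fin (B.M (P.c α)), {x ∈ P.K α | τ ≤ P.w α J x} := by
      ext x
      simp only [mem_iUnion]
      constructor
      · rintro ⟨x, ⟨α, J, h1, h2⟩, rfl⟩
        exact ⟨α, J, h1, h2⟩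
      · rintro ⟨α, J, h1, h2⟩
        obtain ⟨hx, -⟩ := hrk x α J h1 h2
        exact ⟨⟨x, hx⟩, ⟨α, J, h1, h2⟩, rfl⟩
    rw [e]
    refine IsClosed.isCompact ?_
    exact isClosed_iUnion_of_finite fun α => isClosed_iUnion_of_finite fun J =>
      (P.cpt α).isClosed.isClosed_le continuousOn_const (P.w_cont α J)
  · rintro x ⟨α, J, h1, h2⟩
    exact (hrk x α J h1 h2).2

end Pool.Agent.SPF
end
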