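import Pool.Agent.K.MP_63735c_ag.C11
import Pool.Agent.K.MP_63735c_ag.C18

/-! The local inequality on the manifold. -/

open scoped ComplexOrder ContDiff Matrix Topology ENNReal
open Set Metric MeasureTheory Filter

namespace Pool.Agent.AB

open Pool.Agent.SPF

variable {N : ℕ} {Y : Type} [TopologicalSpace Y] [MeasurableSpace Y] [BorelSpace Y] [T2Space Y]
  {D : Dat Y N}

namespace Dat

omit [BorelSpace Y] [T2Space Y] in
lemma ablcg_K {w : Y → ℂ} (hw : D.Smo w) {i : D.ι} {z : E N} (hz : z ∈ D.W i) :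
    D.Gam D.K w w (D.p i z) = hq (D.K i z) (db (fun y => w (D.p i y)) z ᵥ* (D.K i z)⁻¹)
      (db (fun y => w (D.p i y)) z ᵥ* (D.K i z)⁻¹) := Gam_chart D.K_cpt hw hw hz

omit [BorelSpace Y] [T2Space Y] in
lemma ablcg_ev {F : Type} [Zero F] {i : D.ι} (r : E N → F) {z : E N} (hz : z ∈ D.W i) :
    (fun y => D.ext i r (D.p i y)) =ᶠ[𝓝 z] r := by
  filter_upwards [(D.isOpen i).mem_nhds hz] with y hy using Man.ext_apply hy

omit [BorelSpace Y] in
lemma ablcg_out {F : Type} [Zero F] [TopologicalSpace F] {i : D.ι} {r : E N → F} {C : Set (E N)}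
    (hC : IsCompact C) (h : C ⊆ D.W i) (hr : tsupport r ⊆ C) {x : Y} (hx : x ∉ D.p i '' C) :
    ∀ᶠ y in 𝓝 x, D.ext i r y = 0 := by
  filter_upwards [(Man.cpt_img hC h).1.isClosed.isOpen_compl.mem_nhds hx] with y hy
  exact Man.ext_zero (fun z _ hz => image_eq_zero_of_notMem_tsupport fun h' => hz (hr h')) hy

omit [BorelSpace Y] [T2Space Y] in
lemma ablcg_wt {i : D.ι} {C : Set (E N)} (hC : IsCompact C) (h : C ⊆ D.W i) :
    ∃ a b : ℝ, 0 < a ∧ 0 < b ∧ ∀ z ∈ C, a ≤ wt (D.Ψ i) z ∧ wt (D.Ψ i) z ≤ b := by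
  obtain ⟨M, hM⟩ := hC.exists_bound_of_continuousOn ((D.Ψ_cont i).mono h)
  refine ⟨Real.exp (-M), Real.exp M, Real.exp_pos _, Real.exp_pos _, fun z hz => ?_⟩
  have := abs_le.1 (hM z hz)
  exact ⟨Real.exp_le_exp.2 (by linarith), Real.exp_le_exp.2 (by linarith)⟩

/-- The energy controls the derivative on compact parts of a chart. -/
theorem db_le_En {i : D.ι} {C : Set (E N)} (hC : IsCompact C) (h : C ⊆ D.W i) :
    ∃ A : ℝ, 0 < A ∧ ∀ w, D.S w →
      ∫ z in C, ‖db (fun y => w (D.p i y)) z‖ ^ 2 ≤ A * (D.En w w).re := by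
  obtain ⟨c, B, hc, -, hd⟩ := cpt_dual hC (fun a b => ((D.kah i).smooth a b).continuousOn.mono h)
    fun z hz => (D.kah i).pos z (h hz)
  obtain ⟨a, b, ha, -, hw0⟩ := ablcg_wt hC h
  refine ⟨(a * c)⁻¹, by positivity, fun w hw => ?_⟩
  have hi : Integrable (fun x => (D.Gam D.K w w x).re) D.ν := (cc_int (GamK_cc hw hw.1)).re
  have h1 : ∫ x in D.p i '' C, (D.Gam D.K w w x).re ∂D.ν ≤ (D.En w w).re := by
    rw [En_re hw hw]
    exact setIntegral_le_integral hi (Eventually.of_forall fun x => GamK_nonneg x)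
  rw [D.den.int (D.Ψ_cont i) hC.measurableSet h] at h1
  have h2 := (D.den.intOn (D.Ψ_cont i) hC.measurableSet h _).1 hi.integrableOn
  have h3 : ContinuousOn (fun z => ‖db (fun y => w (D.p i y)) z‖ ^ 2) C :=
    (((db_smooth (D.isOpen i) (hw.1 i)).continuousOn.mono h).norm).pow 2
  rw [le_inv_mul_iff₀ (by positivity), ← integral_const_mul]
  refine le_trans (setIntegral_mono_on ((h3.integrableOn_compact hC).const_mul _) h2
    hC.measurableSet fun z hz => ?_) h1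
  rw [ablcg_K hw.1 (h hz), smul_eq_mul, mul_assoc]
  exact mul_le_mul (hw0 z hz).1 (hd z hz _).1 (by positivity) (wt_pos _ _).le

theorem En_ext_le {i : D.ι} {C : Set (E N)} (hC : IsCompact C) (h : C ⊆ D.W i) :
    ∃ A : ℝ, 0 < A ∧ ∀ r : E N → ℂ, Tst (D.W i) r → tsupport r ⊆ C → ∀ L : ℝ,
      (∀ z, ‖db r z‖ ≤ L) → √(D.En (D.ext i r) (D.ext i r)).re ≤ A * L := by
  obtain ⟨c, B, -, hB, hd⟩ := cpt_dual hC (fun a b => ((D.kah i).smooth a b).continuousOn.mono h)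
    fun z hz => (D.kah i).pos z (h hz)
  have hfin := D.den.lt_top D.Ψ_cont (Man.cpt_img hC h).1 (Man.cpt_img hC h).2
  set v := D.ν.real (D.p i '' C) with hv
  have hv0 : 0 ≤ v := measureReal_nonneg
  refine ⟨B * v + 1, by positivity, fun r hr hs L hL => ?_⟩
  have hL0 : 0 ≤ L := (norm_nonneg _).trans (hL 0)
  have hS : D.S (D.ext i r) := Man.ext_S hr
  have h1 : (D.En (D.ext i r) (D.ext i r)).re ≤ B * L ^ 2 * v := by
    rw [En_re hS hS, ← setIntegral_eq_integral_of_forall_compl_eq_zero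
      (s := D.p i '' C) fun x hx => by rw [(Gam_zero (ablcg_out hC h hs hx)).1, Complex.zero_re]]
    refine (Real.le_norm_self _).trans (norm_setIntegral_le_of_norm_le_const hfin ?_)
    rintro _ ⟨z, hz, rfl⟩
    rw [Real.norm_eq_abs, abs_of_nonneg (GamK_nonneg _), ablcg_K hS.1 (h hz),
      (db_congr (ablcg_ev r (h hz))).self_of_nhds]
    refine (hd z hz _).2.1.trans ?_
    gcongr
    exact hL z
  refine Real.sqrt_le_iff.2 ⟨by positivity, h1.trans ?_⟩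
  have h2 : 0 ≤ B * v := by positivity
  have h3 : B * v ≤ (B * v + 1) ^ 2 := by nlinarith
  calc B * L ^ 2 * v = B * v * L ^ 2 := by ring
    _ ≤ (B * v + 1) ^ 2 * L ^ 2 := by gcongr
    _ = _ := by ring

theorem En_ext {i : D.ι} {w : Y → ℂ} (hw : D.S w) {r : E N → ℂ} (hr : Tst (D.W i) r) :
    D.En w (D.ext i r) = -∫ z in D.W i, (wt (D.Ψ i) z : ℂ) *
      (dlt (D.Ψ i) (grad (D.K i) fun y => w (D.p i y)) z * star (r z)) := by
  have hS : D.S (D.ext i r) := Man.ext_S hr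
  rw [← ibp (D.isOpen i) (D.Ψ_smooth i) (grad_smooth (D.isOpen i) (D.kah i) (hw.1 i)) hr, En,
    D.den.int_supp (D.Ψ_cont i) fun x hx => (Gam_zero (ablcg_out hr.cpt hr.sub subset_rfl
      fun h' => hx (image_mono hr.sub h'))).2]
  refine setIntegral_congr_fun (D.isOpen i).measurableSet fun z hz => ?_
  rw [GamK_chart hw.1 hS.1 hz, (db_congr (ablcg_ev r hz)).self_of_nhds, Complex.real_smul]

theorem qg_ext (hP : D.Pos) {i : D.ι} {τ : E N → ℝ} (hτ : Tst (D.W i) τ) {w h : Y → ℂ}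
    (hw : D.S w) :
    ∫ x, D.qg (D.ext i τ) w h x ∂D.ν = ∫ z in D.W i, wt (D.Ψ i) z *
      qd (D.Ψ i) τ (grad (D.K i) fun y => w (D.p i y)) (fun y => h (D.p i y)) z := by
  have hS : D.S (D.ext i τ) := Man.ext_S hτ
  rw [D.den.int_supp (D.Ψ_cont i) (i := i)]
  · refine setIntegral_congr_fun (D.isOpen i).measurableSet fun z hz => ?_
    have he := ablcg_ev τ hz
    simp only [smul_eq_mul, qg, qd]
    rw [Gam_chart (Man.levG_cpt hS.1) hw.1 hw.1 hz, GamK_chart hw.1 hS.ofReal.1 hz,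
      Gam_chart hP.Θ_cpt hw.1 hw.1 hz, star_db fun y => D.ext i τ (D.p i y),
      (dr_congr he).self_of_nhds, Man.levG, (lev_congr he).self_of_nhds, Man.ext_apply hz]
  · intro x hx
    have h0 := ablcg_out hτ.cpt hτ.sub subset_rfl fun h' => hx (image_mono hτ.sub h')
    have h1 : ∀ᶠ y in 𝓝 x, ((D.ext i τ y : ℝ) : ℂ) = 0 := h0.mono fun y hy => by simp [hy]
    simp only [qg]
    rw [Gam_levG_zero h0, (Gam_zero h1).2, h0.self_of_nhds]
    simp

lemma ablcg_weak {i : D.ι} {C : Set (E N)} {h w : Y → ℂ} (hh : D.Cc h) (hw : D.S w) {e A ε : ℝ}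
    (he : 0 ≤ e) (hε : e * A ≤ ε) (hn : D.Near h w e)
    (hA : ∀ r : E N → ℂ, Tst (D.W i) r → tsupport r ⊆ C → ∀ L : ℝ,
      (∀ z, ‖db r z‖ ≤ L) → √(D.En (D.ext i r) (D.ext i r)).re ≤ A * L) :
    Weak (D.W i) C (D.Ψ i) (D.K i) (fun y => h (D.p i y)) (fun y => w (D.p i y)) ε := by
  intro r hr hs L hL
  have hL0 : 0 ≤ L := (norm_nonneg _).trans (hL 0)
  have h1 := hn _ (Man.ext_S (D := D.toMan) hr)
  have hW := D.isOpen i
  have hwt : ContinuousOn (fun z => (wt (D.Ψ i) z : ℂ)) (D.W i) :=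
    (ofReal_smooth (wt_smooth (D.Ψ_smooth i))).continuousOn
  have hr0 : ∀ z ∈ D.W i, z ∉ tsupport r → r z = 0 := fun z _ hz =>
    image_eq_zero_of_notMem_tsupport hz
  have hrc : ContinuousOn (fun z => star (r z)) (D.W i) := hr.smooth.continuous.star.continuousOn
  have hd := (dlt_smooth hW (D.Ψ_smooth i) (grad_smooth hW (D.kah i) (hw.1 i))).continuousOn
  have i1 := intOn hW hr.cpt hr.sub (hwt.mul (hd.mul hrc)) fun z hz hz' => by
    simp [hr0 z hz hz']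
  have i2 := intOn hW hr.cpt hr.sub (hwt.mul ((hh.1 i).mul hrc)) fun z hz hz' => by
    simp [hr0 z hz hz']
  have h2 : ∫ x, h x * star (D.ext i r x) ∂D.ν =
      ∫ z in D.W i, (wt (D.Ψ i) z : ℂ) * (h (D.p i z) * star (r z)) := by
    rw [D.den.int_supp (D.Ψ_cont i) fun x hx => by rw [Man.ext_out hx, star_zero, mul_zero]]
    refine setIntegral_congr_fun hW.measurableSet fun z hz => ?_
    rw [Man.ext_apply hz, Complex.real_smul]
  rw [En_ext hw hr, h2, neg_add_eq_sub, norm_sub_rev] at h1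
  simp only [sub_mul, mul_sub]
  refine (congrArg norm (integral_sub i1 i2)).le.trans ?_
  calc _ ≤ _ := h1
    _ ≤ e * (A * L) := mul_le_mul_of_nonneg_left (hA r hr hs L hL) he
    _ = e * A * L := by ring
    _ ≤ ε * L := mul_le_mul_of_nonneg_right hε hL0

theorem lcg (hP : D.Pos) {i : D.ι} {τ : E N → ℝ} (hτ : Tst (D.W i) τ) (h0 : ∀ z, 0 ≤ τ z)
    {h : Y → ℂ} (hh : D.Cc h) (B : ℝ) {γ : ℝ} (hγ : 0 < γ) : ∃ γ' : ℝ, 0 < γ' ∧ ∀ w₀, D.S w₀ →
      ∃ ε : ℝ, 0 < ε ∧ ∀ w e, D.S w → 0 ≤ e → e ≤ ε →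
        (D.En (fun x => w x - w₀ x) fun x => w x - w₀ x).re ≤ γ' → (D.En w w).re ≤ B →
          D.Near h w e → -γ ≤ ∫ x, D.qg (D.ext i τ) w h x ∂D.ν := by
  obtain ⟨A₀, hA₀, h₀⟩ := db_le_En (D := D) hτ.cpt hτ.sub
  obtain ⟨C, hC, hs, γ', hγ', H⟩ :=
    lc (D.isOpen i) (D.Ψ_smooth i) (D.kah i) hτ h0 (hh.1 i) (A₀ * B) hγ
  obtain ⟨A₁, hA₁, h₁⟩ := db_le_En (D := D) hC hs
  obtain ⟨A₂, hA₂, h₂⟩ := En_ext_le (D := D) hC hs
  refine ⟨γ' / A₁, by positivity, fun w₀ hw₀ => ?_⟩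
  obtain ⟨ε, hε, H⟩ := H _ (hw₀.1 i)
  refine ⟨ε / A₂, by positivity, fun w e hw he heε hd hB hn => ?_⟩
  rw [qg_ext hP hτ hw]
  refine H _ (hw.1 i) ?_ ((h₀ w hw).trans (mul_le_mul_of_nonneg_left hB hA₀.le))
    (ablcg_weak hh hw he ((le_div_iff₀ hA₂).1 heε) hn h₂)
  refine le_trans (le_of_eq ?_) ((h₁ _ (hw.sub hw₀)).trans ((le_div_iff₀' hA₁).1 hd))
  refine setIntegral_congr_fun hC.measurableSet fun z hz => ?_
  rw [db_sub (diffAt (D.isOpen i) (hw.1 i) (hs hz)) (diffAt (D.isOpen i) (hw₀.1 i) (hs hz))]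

end Dat

end Pool.Agent.AB
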