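import Pool.Agent.P.MP_63735c_ag.SQDefs
import Pool.Agent.P.MP_63735c_ag.SPLoc2

-- part Pool.Agent.P.MP_63735c_ag.SQLoc
section

/-! Local objects for the embedded setting (used only inside the proofs). -/

open Set Filter Topology
open scoped ComplexOrder ContDiff Matrix

namespace Pool.Agent.SPF

variable {N M n : ℕ}

/-- Principal minor of a matrix. -/
noncomputable def mnr (H : Matrix (Fin M) (Fin M) ℂ) (J : Fin n → Fin M) : ℝ :=
  (H.submatrix J J).det.re

/-- The minor is the largest one. -/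
def MaxM (H : Matrix (Fin M) (Fin M) ℂ) (J : Fin n → Fin M) : Prop :=
  ∀ J' : Fin n → Fin M, mnr H J' ≤ mnr H J

/-- Coefficients of the rows on the rows of the principal block. -/
noncomputable def coef (H : Matrix (Fin M) (Fin M) ℂ) (J : Fin n → Fin M) (i : Fin n) (b : Fin M) :
    ℂ := ∑ j, H b (J j) * (H.submatrix J J)⁻¹ j i

/-- The ambient cometric. -/
noncomputable def AmbChart.G (D : AmbChart M) (w : E M) : Matrix (Fin M) (Fin M) ℂ :=
  D.π w * D.η w * (D.π w)ᴴ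

/-- Minor of the ambient cometric. -/
noncomputable def AmbChart.b (D : AmbChart M) (J : Fin n → Fin M) (w : E M) : ℝ := mnr (D.G w) J

/-- A holomorphic immersion of a part of a chart that is compatible with the ambient data. -/
structure Emb (C : Chart N) (D : AmbChart M) where
  O : Set (E N)
  j : E N → E M
  isOpen : IsOpen O
  sub : O ⊆ C.W
  hol : DifferentiableOn ℂ j O
  maps : MapsTo j O D.W
  inj : ∀ y ∈ O, Function.Injective (fderiv ℂ j y)
  π_eq : ∀ y ∈ O, D.π (j y) = jac j y * C.π y * (jac j y)ᵀ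
  η_eq : ∀ y ∈ O, C.η y = (jac j y)ᵀ * D.η (j y) * (jac j y).map star

/-- The Hamiltonian field of an ambient coordinate. -/
noncomputable def Emb.H {C : Chart N} {D : AmbChart M} (e : Emb C D) (a : Fin M) (y : E N) : E N :=
  fun x => ∑ c, C.π y c x * jac e.j y a c

variable {X : Type} [TopologicalSpace X] {R : Set X} {A : Atlas R N}

/-- The immersion attached to a chart and a local embedding. -/
def Amb.emb (B : Amb R A) (α : B.κ) (i : A.ι) : Emb (A.C i) (B.D α) where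
  O := {y | y ∈ (A.C i).W ∧ (A.p i y : X) ∈ B.V α}
  j := fun y => B.z α (A.p i y)
  isOpen := (continuous_subtype_val.comp_continuousOn (A.cont i)).isOpen_inter_preimage
    (A.C i).isOpen (B.V_open α)
  sub := fun _ h => h.1
  hol := fun y h => (B.hol α i y h.1 h.2).1.differentiableWithinAt
  maps := fun _ h => B.maps α h.2
  inj := fun y h => (B.hol α i y h.1 h.2).2
  π_eq := fun y h => B.π_eq α i y h.1 h.2
  η_eq := fun y h => B.η_eq α i y h.1 h.2

/-- The rank n locus. -/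
def Atlas.Rk {Y : Type} [TopologicalSpace Y] (A : Atlas Y N) (n : ℕ) (x : Y) : Prop :=
  ∃ i, ∃ y ∈ (A.C i).W, A.p i y = x ∧ ((A.C i).η y).rank = n

/-- A finite family of local embeddings with compact sets and cutoff functions. -/
structure Cov2 (B : Amb R A) where
  T : Type
  fin : Finite T
  c : T → B.κ
  K : T → Set X
  ρ : ∀ t, E (B.M (c t)) → ℝ
  cpt : ∀ t, IsCompact (K t)
  sub : ∀ t, K t ⊆ B.V (c t)
  smooth : ∀ t, ContDiff ℝ ∞ (ρ t)
  nonneg : ∀ t w, 0 ≤ ρ t w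
  le_one : ∀ t w, ρ t w ≤ 1
  nhds : ∀ t, ∀ x ∈ K t, ρ t (B.z (c t) x) ≠ 0 → K t ∈ 𝓝 x
  one : ∀ x, ∃ t, x ∈ K t ∧ ρ t (B.z (c t) x) = 1

/-- The weight. -/
noncomputable def Cov2.w {B : Amb R A} (P : Cov2 B) (t : P.T) (J : Fin n → Fin (B.M (P.c t)))
    (x : X) : ℝ :=
  P.ρ t (B.z (P.c t) x) * (B.D (P.c t)).b J (B.z (P.c t) x)

/-- A pair that is largest at a point. -/
def Cov2.Active {B : Amb R A} (P : Cov2 B) (t : P.T) (J : Fin n → Fin (B.M (P.c t))) (x : X) :
    Prop :=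
  x ∈ P.K t ∧ ∀ t' (J' : Fin n → Fin (B.M (P.c t'))), x ∈ P.K t' → P.w t' J' x ≤ P.w t J x

end Pool.Agent.SPF
end

-- part Pool.Agent.P.MP_63735c_ag.SQMat
section

/-! Minors of semipositive matrices, and pointwise facts on immersions. -/

open Set Filter Topology
open scoped ComplexOrder ContDiff Matrix

namespace Pool.Agent.SPF

variable {N M n : ℕ}

section
variable {H : Matrix (Fin M) (Fin M) ℂ} {J : Fin n → Fin M}

lemma mnr_nonneg (hH : H.PosSemidef) (J : Fin n → Fin M) : 0 ≤ mnr H J :=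
  (Complex.nonneg_iff.1 (hH.submatrix J).det_nonneg).1

lemma mnr_eq (hH : H.PosSemidef) (J : Fin n → Fin M) :
    (H.submatrix J J).det = (mnr H J : ℂ) :=
  Complex.ext rfl (Complex.nonneg_iff.1 (hH.submatrix J).det_nonneg).2.symm

lemma mnr_eq_zero (h : H.rank < n) (J : Fin n → Fin M) : mnr H J = 0 := by
  have h2 : (H.submatrix J J).det = 0 := by
    by_contra h3
    have h4 := Matrix.rank_of_isUnit _
      ((Matrix.isUnit_iff_isUnit_det _).2 (isUnit_iff_ne_zero.2 h3))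
    rw [Fintype.card_fin] at h4
    have h5 := Matrix.rank_submatrix_le H J J
    omega
  rw [mnr, h2, Complex.zero_re]

lemma exists_mnr_pos (hH : H.PosSemidef) (h : n ≤ H.rank) : ∃ J : Fin n → Fin M, 0 < mnr H J := by
  obtain ⟨κ, a, ha, hsp, hli⟩ := exists_linearIndependent' ℂ H.col
  haveI : Finite κ := Finite.of_injective a ha
  haveI := Fintype.ofFinite κ
  have hc : Fintype.card (Fin n) ≤ Fintype.card κ := by
    rw [Fintype.card_fin, ← finrank_span_eq_card hli, hsp, ← Matrix.rank_eq_finrank_span_cols]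
    exact h
  obtain ⟨f⟩ := Function.Embedding.nonempty_of_card_le hc
  have hli' : LinearIndependent ℂ fun j => H.col (a (f j)) := hli.comp f f.injective
  refine ⟨fun j => a (f j), ?_⟩
  have hne : (H.submatrix (fun j => a (f j)) (fun j => a (f j))).det ≠ 0 := by
    intro h0
    obtain ⟨x, hx, hx0⟩ := Matrix.exists_mulVec_eq_zero_iff.2 h0
    let P : Matrix (Fin M) (Fin n) ℂ :=
      (1 : Matrix (Fin M) (Fin M) ℂ).submatrix id fun j => a (f j)
    have hP : H * P = H.submatrix id fun j => a (f j) := by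
      ext i j
      simp [P, Matrix.mul_apply, Matrix.one_apply]
    have hg : Pᴴ * (H * P) = H.submatrix (fun j => a (f j)) (fun j => a (f j)) := by
      rw [hP]
      ext i j
      simp [P, Matrix.mul_apply, Matrix.one_apply]
    have h1 : star (P *ᵥ x) ⬝ᵥ H *ᵥ (P *ᵥ x) = 0 := by
      rw [Matrix.star_mulVec, Matrix.mulVec_mulVec, ← Matrix.dotProduct_mulVec,
        Matrix.mulVec_mulVec, hg, hx0, dotProduct_zero]
    have h2 := (hH.dotProduct_mulVec_zero_iff _).1 h1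
    rw [Matrix.mulVec_mulVec, hP] at h2
    refine hx (funext (Fintype.linearIndependent_iff.1 hli' x ?_))
    funext i
    have h3 := congrFun h2 i
    simpa [Matrix.mulVec, dotProduct, mul_comm] using h3
  refine lt_of_le_of_ne (mnr_nonneg hH _) fun h0 => hne ?_
  rw [mnr_eq hH, ← h0, Complex.ofReal_zero]

lemma mat_unit (hH : H.PosSemidef) (h0 : 0 < mnr H J) : IsUnit (H.submatrix J J).det := by
  rw [mnr_eq hH]
  exact isUnit_iff_ne_zero.2 (Complex.ofReal_ne_zero.2 h0.ne')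

lemma mat_F1 (hH : H.PosSemidef) (h : H.rank ≤ n) (h0 : 0 < mnr H J) (b c : Fin M) :
    H b c = ∑ i, ∑ j, H b (J i) * (H.submatrix J J)⁻¹ i j * H (J j) c := by
  have hu := mat_unit hH h0
  have hli : LinearIndependent ℂ fun j => H.col (J j) := by
    refine Fintype.linearIndependent_iff.2 fun x hx => ?_
    have h1 : H.submatrix J J *ᵥ x = 0 := by
      funext i
      have h3 := congrFun hx (J i)
      simpa [Matrix.mulVec, dotProduct, mul_comm] using h3
    exact congrFun (Matrix.eq_zero_of_mulVec_eq_zero hu.ne_zero h1)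
  have hsp : Submodule.span ℂ (Set.range fun j => H.col (J j))
      = Submodule.span ℂ (Set.range H.col) := by
    refine Submodule.eq_of_le_of_finrank_le
      (Submodule.span_mono (Set.range_comp_subset_range J H.col)) ?_
    rw [finrank_span_eq_card hli, Fintype.card_fin, ← Matrix.rank_eq_finrank_span_cols]
    exact h
  have hc : H.col c ∈ Submodule.span ℂ (Set.range fun j => H.col (J j)) := by
    rw [hsp]
    exact Submodule.subset_span ⟨c, rfl⟩
  obtain ⟨y, hy⟩ := (Submodule.mem_span_range_iff_exists_fun ℂ).1 hc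
  have hy' : ∀ b, H b c = ∑ i, H b (J i) * y i := fun b => by
    have h3 := congrFun hy b
    simpa [mul_comm] using h3.symm
  have h1 : (fun j => H (J j) c) = H.submatrix J J *ᵥ y := funext fun j => hy' (J j)
  have h2 : y = (H.submatrix J J)⁻¹ *ᵥ fun j => H (J j) c := by
    rw [h1, Matrix.mulVec_mulVec, Matrix.nonsing_inv_mul _ hu, Matrix.one_mulVec]
  rw [hy' b]
  refine Finset.sum_congr rfl fun i _ => ?_
  rw [congrFun h2 i, Matrix.mulVec, dotProduct, Finset.mul_sum]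
  exact Finset.sum_congr rfl fun j _ => (mul_assoc _ _ _).symm

lemma mat_det_conj (hH : H.PosSemidef) (h : H.rank ≤ n) (h0 : 0 < mnr H J)
    (Q : Matrix (Fin M) (Fin n) ℂ) :
    (Qᵀ * H * Q.map star).det =
      (Matrix.of fun i j => ∑ c, coef H J i c * Q c j).det *
        star (Matrix.of fun i j => ∑ c, coef H J i c * Q c j).det * (H.submatrix J J).det := by
  have hu := mat_unit hH h0
  let K : Matrix (Fin M) (Fin n) ℂ := H.submatrix id J
  let Em : Matrix (Fin n) (Fin M) ℂ := Matrix.of fun i c => coef H J i c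
  have hE : Emᵀ = K * (H.submatrix J J)⁻¹ := rfl
  have hK : Kᴴ = H.submatrix J id := by
    rw [Matrix.conjTranspose_submatrix, hH.1.eq]
  have hE' : Em.map star = (H.submatrix J J)⁻¹ * Kᴴ := by
    have e1 : Em.map star = Emᵀᴴ := rfl
    rw [e1, hE, Matrix.conjTranspose_mul, (hH.submatrix J).1.inv.eq]
  have hη : H = Emᵀ * H.submatrix J J * Em.map star := by
    rw [hE, hE', Matrix.mul_assoc K, Matrix.nonsing_inv_mul _ hu, Matrix.mul_one, hK]
    ext b c
    rw [mat_F1 hH h h0 b c, Matrix.mul_apply]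
    refine Finset.sum_congr rfl fun i _ => ?_
    rw [Matrix.mul_apply, Finset.mul_sum]
    exact Finset.sum_congr rfl fun j _ => mul_assoc _ _ _
  have hQ : (Matrix.of fun i j => ∑ c, coef H J i c * Q c j) = Em * Q := rfl
  have hs : (Em * Q).map star = Em.map star * Q.map star :=
    Matrix.map_mul (f := starRingEnd ℂ)
  have h1 : Qᵀ * H * Q.map star = (Em * Q)ᵀ * H.submatrix J J * (Em * Q).map star := by
    rw [hs, Matrix.transpose_mul]
    conv_lhs => rw [hη]
    simp only [Matrix.mul_assoc]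
  have h2 : ((Em * Q).map star).det = star (Em * Q).det :=
    ((starRingEnd ℂ).map_det (Em * Q)).symm
  rw [h1, hQ, Matrix.det_mul, Matrix.det_mul, Matrix.det_transpose, h2]
  ring

lemma coef_le_one (hH : H.PosSemidef) (h : H.rank ≤ n) (h0 : 0 < mnr H J) (hm : MaxM H J)
    (i : Fin n) (b : Fin M) : ‖coef H J i b‖ ≤ 1 := by
  have hu := mat_unit hH h0
  have h00 := mat_det_conj hH h h0
    ((1 : Matrix (Fin M) (Fin M) ℂ).submatrix id (Function.update J i b))
  have h1 : ((1 : Matrix (Fin M) (Fin M) ℂ).submatrix id (Function.update J i b))ᵀ * H *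
      ((1 : Matrix (Fin M) (Fin M) ℂ).submatrix id (Function.update J i b)).map star
      = H.submatrix (Function.update J i b) (Function.update J i b) := by
    ext p q
    simp [Matrix.mul_apply, Matrix.one_apply]
  have h2 : (Matrix.of fun p q => ∑ c, coef H J p c *
      ((1 : Matrix (Fin M) (Fin M) ℂ).submatrix id (Function.update J i b)) c q)
      = (1 : Matrix (Fin n) (Fin n) ℂ).updateCol i fun p => coef H J p b := by
    ext p q
    have e1 : (∑ c, coef H J p c *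
        ((1 : Matrix (Fin M) (Fin M) ℂ).submatrix id (Function.update J i b)) c q)
        = coef H J p (Function.update J i b q) := by
      simp [Matrix.one_apply]
    rw [Matrix.of_apply, e1, Matrix.updateCol_apply]
    by_cases hq : q = i
    · rw [if_pos hq, hq, Function.update_self]
    · rw [if_neg hq, Function.update_of_ne hq]
      have e2 : coef H J p (J q) = (H.submatrix J J * (H.submatrix J J)⁻¹) q p := rfl
      rw [e2, Matrix.mul_nonsing_inv _ hu, Matrix.one_apply, Matrix.one_apply]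
      simp only [eq_comm]
  have h3 : ((1 : Matrix (Fin n) (Fin n) ℂ).updateCol i fun p => coef H J p b).det
      = coef H J i b := by
    rw [← Matrix.cramer_apply, Matrix.cramer_one]
    rfl
  rw [h1, h2, h3, Complex.star_def, Complex.mul_conj, mnr_eq hH J, ← Complex.ofReal_mul] at h00
  have h4 : mnr H (Function.update J i b) = Complex.normSq (coef H J i b) * mnr H J := by
    rw [mnr, h00, Complex.ofReal_re]
  have h5 := hm (Function.update J i b)
  rw [h4, Complex.normSq_eq_norm_sq] at h5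
  have h6 : ‖coef H J i b‖ ^ 2 ≤ 1 := le_of_mul_le_mul_right (by linarith) h0
  exact (sq_le_one_iff₀ (norm_nonneg _)).1 h6

lemma mnr_conj_le {M' : ℕ} (hH : H.PosSemidef) (h : H.rank ≤ n) (hm : MaxM H J)
    (L : Matrix (Fin M') (Fin M) ℂ) {B : ℝ} (hB : ∀ a c, ‖L a c‖ ≤ B) (J' : Fin n → Fin M') :
    mnr (L * H * Lᴴ) J' ≤ (n.factorial * (M * B) ^ n) ^ 2 * mnr H J := by
  rcases (mnr_nonneg hH J).eq_or_lt with h0 | h0
  · have h1 : H.rank < n := by
      by_contra h2
      obtain ⟨ι', h3⟩ := exists_mnr_pos hH (not_lt.1 h2)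
      exact absurd (h3.trans_le (hm ι')) (by rw [← h0]; exact lt_irrefl _)
    have h5 := (Matrix.rank_mul_le_left (L * H) Lᴴ).trans (Matrix.rank_mul_le_right L H)
    rw [mnr_eq_zero (h5.trans_lt h1), ← h0, mul_zero]
  · let Q : Matrix (Fin M) (Fin n) ℂ := Matrix.of fun c j => L (J' j) c
    have hQ : (L * H * Lᴴ).submatrix J' J' = Qᵀ * H * Q.map star := by
      ext p q
      simp [Q, Matrix.mul_apply]
    rw [mnr, hQ, mat_det_conj hH h h0 Q, Complex.star_def, Complex.mul_conj, mnr_eq hH J,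
      ← Complex.ofReal_mul, Complex.ofReal_re, Complex.normSq_eq_norm_sq]
    refine mul_le_mul_of_nonneg_right (pow_le_pow_left₀ (norm_nonneg _) ?_ 2) h0.le
    have h1 := Matrix.det_le (A := Matrix.of fun i j => ∑ c, coef H J i c * Q c j)
      (abv := NormedField.toAbsoluteValue ℂ) (x := M * B) fun i j => by
        change ‖∑ c, coef H J i c * Q c j‖ ≤ M * B
        calc ‖∑ c, coef H J i c * Q c j‖ ≤ ∑ c, ‖coef H J i c * Q c j‖ := norm_sum_le _ _
          _ ≤ ∑ _c : Fin M, B := Finset.sum_le_sum fun c _ => by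
              rw [norm_mul]
              exact (mul_le_of_le_one_left (norm_nonneg _)
                (coef_le_one hH h h0 hm i c)).trans (hB _ _)
          _ = M * B := by simp
    rw [Fintype.card_fin, nsmul_eq_mul] at h1
    exact h1

/-- An isotropic subspace for a skew matrix of rank below 2 n. -/
lemma rank_lt_of_iso {P Θ : Matrix (Fin M) (Fin M) ℂ} (hP : Pᵀ = -P) (hr : P.rank < 2 * n)
    (h : Θᵀ * P * Θ = 0) : (P * Θ).rank < n := by
  let S := LinearMap.range P.mulVecLin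
  let T := (Θᵀ).mulVecLin.domRestrict S
  have h1 := LinearMap.finrank_range_add_finrank_ker T
  have h2 : Module.finrank ℂ (LinearMap.range T) = (P * Θ).rank := by
    have e1 : LinearMap.range T = LinearMap.range (Θᵀ * P).mulVecLin := by
      rw [LinearMap.range_domRestrict, Matrix.mulVecLin_mul, LinearMap.range_comp]
    have e2 : (Θᵀ * P)ᵀ = (-1 : Matrix (Fin M) (Fin M) ℂ) * (P * Θ) := by
      rw [Matrix.transpose_mul, Matrix.transpose_transpose, hP]
      simp
    have e3 : IsUnit (-1 : Matrix (Fin M) (Fin M) ℂ).det :=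
      (Matrix.isUnit_iff_isUnit_det _).1 isUnit_one.neg
    rw [e1, ← Matrix.rank_mul_eq_right_of_isUnit_det _ (P * Θ) e3, ← e2, Matrix.rank_transpose]
    rfl
  have hle : LinearMap.range (P * Θ).mulVecLin ≤ S := by
    rw [Matrix.mulVecLin_mul]
    exact LinearMap.range_comp_le_range _ _
  have h3 : (P * Θ).rank ≤ Module.finrank ℂ (LinearMap.ker T) := by
    have e1 : (P * Θ).rank = Module.finrank ℂ
        ((LinearMap.range (P * Θ).mulVecLin).comap S.subtype) :=
      (Submodule.comapSubtypeEquivOfLe hle).finrank_eq.symm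
    rw [e1]
    refine Submodule.finrank_mono ?_
    rintro ⟨v, hv⟩ ⟨w, hw⟩
    have hw' : (P * Θ) *ᵥ w = v := hw
    change Θᵀ *ᵥ v = 0
    rw [← hw', Matrix.mulVec_mulVec, ← Matrix.mul_assoc, h, Matrix.zero_mulVec]
  have h4 : Module.finrank ℂ S = P.rank := rfl
  omega

end

namespace Emb

variable {C : Chart N} {D : AmbChart M} (e : Emb C D) {y : E N}

lemma G_eq (hy : y ∈ e.O) : D.G (e.j y) = jac e.j y * C.G y * (jac e.j y)ᴴ := by
  have h1 : (jac e.j y).map star = ((jac e.j y)ᵀ)ᴴ := rfl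
  rw [AmbChart.G, Chart.G, e.π_eq y hy, e.η_eq y hy, h1, Matrix.conjTranspose_mul,
    Matrix.conjTranspose_mul]
  simp only [Matrix.mul_assoc]

lemma G_psd (hy : y ∈ e.O) : (D.G (e.j y)).PosSemidef := by
  rw [e.G_eq hy]
  exact (Chart.G_psd (e.sub hy)).mul_mul_conjTranspose_same _

lemma rank_G (hy : y ∈ e.O) : (D.G (e.j y)).rank = (C.η y).rank := by
  have h2 : (fderiv ℂ e.j y : E N →ₗ[ℂ] E M) = Matrix.toLin' (jac e.j y) := by
    refine (Pi.basisFun ℂ (Fin N)).ext fun k => ?_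
    funext a
    simp [jac]
  have h3 : LinearMap.ker (Matrix.toLin' (jac e.j y)) = ⊥ := by
    rw [← h2]
    exact LinearMap.ker_eq_bot.2 (e.inj y hy)
  obtain ⟨g, hg⟩ := LinearMap.exists_leftInverse_of_injective _ h3
  have hL : LinearMap.toMatrix' g * jac e.j y = 1 := by
    have h4 := congrArg LinearMap.toMatrix' hg
    rwa [LinearMap.toMatrix'_comp, LinearMap.toMatrix'_toLin', LinearMap.toMatrix'_id] at h4
  have hu : IsUnit (C.π y).det := Matrix.isUnit_det_of_right_inverse (Chart.π_mul_σ (e.sub hy))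
  have h5 : (C.G y).rank = (C.η y).rank := by
    rw [Chart.G, Matrix.rank_mul_eq_left_of_isUnit_det,
      Matrix.rank_mul_eq_right_of_isUnit_det _ _ hu]
    rw [Matrix.det_conjTranspose]
    exact hu.star
  have h6 : C.G y = LinearMap.toMatrix' g * D.G (e.j y) * (LinearMap.toMatrix' g)ᴴ := by
    rw [e.G_eq hy, ← Matrix.mul_assoc, ← Matrix.mul_assoc, hL, Matrix.one_mul, Matrix.mul_assoc,
      ← Matrix.conjTranspose_mul, hL, Matrix.conjTranspose_one, Matrix.mul_one]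
  rw [← h5]
  refine le_antisymm ?_ ?_
  · rw [e.G_eq hy]
    exact (Matrix.rank_mul_le_left _ _).trans (Matrix.rank_mul_le_right _ _)
  · conv_lhs => rw [h6]
    exact (Matrix.rank_mul_le_left _ _).trans (Matrix.rank_mul_le_right _ _)

lemma mat_H (a : Fin M) (x : Fin N) : e.H a y x = (jac e.j y * C.π y) a x := by
  rw [Emb.H, Matrix.mul_apply]
  exact Finset.sum_congr rfl fun c _ => mul_comm _ _

lemma G_apply (hy : y ∈ e.O) (a b : Fin M) :
    D.G (e.j y) a b = ∑ x, ∑ c, e.H a y x * C.η y x c * star (e.H b y c) := by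
  have h1 : D.G (e.j y) = (jac e.j y * C.π y) * C.η y * (jac e.j y * C.π y)ᴴ := by
    rw [e.G_eq hy, Chart.G, Matrix.conjTranspose_mul]
    simp only [Matrix.mul_assoc]
  rw [h1, Matrix.mul_apply, Finset.sum_comm]
  refine Finset.sum_congr rfl fun c _ => ?_
  rw [Matrix.mul_apply, Finset.sum_mul, Matrix.conjTranspose_apply]
  simp only [e.mat_H]

lemma iso (hC : C.Iso) (hy : y ∈ e.O) :
    (D.η (e.j y) * (D.π (e.j y))ᴴ)ᵀ * D.π (e.j y) * (D.η (e.j y) * (D.π (e.j y))ᴴ) = 0 := by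
  have h1 : (jac e.j y).map star = ((jac e.j y)ᵀ)ᴴ := rfl
  have h2 : (jac e.j y)ᵀ * (D.η (e.j y) * (D.π (e.j y))ᴴ) =
      C.η y * ((C.π y)ᴴ * (jac e.j y)ᴴ) := by
    rw [e.π_eq y hy, e.η_eq y hy, h1, Matrix.conjTranspose_mul, Matrix.conjTranspose_mul]
    simp only [Matrix.mul_assoc]
  have h3 : ∀ Θ : Matrix (Fin M) (Fin M) ℂ, Θᵀ * D.π (e.j y) * Θ =
      ((jac e.j y)ᵀ * Θ)ᵀ * C.π y * ((jac e.j y)ᵀ * Θ) := fun Θ => by
    rw [e.π_eq y hy, Matrix.transpose_mul, Matrix.transpose_transpose]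
    simp only [Matrix.mul_assoc]
  have h4 : ∀ Z : Matrix (Fin N) (Fin M) ℂ, (C.η y * Z)ᵀ * C.π y * (C.η y * Z) =
      Zᵀ * ((C.η y)ᵀ * C.π y * C.η y) * Z := fun Z => by
    rw [Matrix.transpose_mul]
    simp only [Matrix.mul_assoc]
  rw [h3, h2, h4, hC y (e.sub hy), Matrix.mul_zero, Matrix.zero_mul]

lemma H_hol (a : Fin M) (x : Fin N) : DifferentiableOn ℂ (fun y => e.H a y x) e.O :=
  DifferentiableOn.fun_sum fun c _ =>
    ((C.π_hol c x).mono e.sub).mul (jac_hol e.isOpen e.hol a c)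

lemma jac_H (hy : y ∈ e.O) (a b : Fin M) : (jac e.j y *ᵥ e.H a y) b = D.π (e.j y) a b := by
  rw [e.π_eq y hy, Matrix.mul_apply, Matrix.mulVec, dotProduct]
  refine Finset.sum_congr rfl fun x _ => ?_
  rw [e.mat_H, Matrix.transpose_apply, mul_comm]

end Emb

lemma AmbChart.G_smooth (D : AmbChart M) (a b : Fin M) :
    ContDiffOn ℝ ∞ (fun w => D.G w a b) D.W := by
  have hπ : ∀ a b, ContDiffOn ℝ ∞ (fun w => D.π w a b) D.W := fun a b =>
    (Lib.SCV.contDiffOn_of_differentiableOn D.isOpen (D.π_hol a b)).restrict_scalars ℝ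
  simp only [AmbChart.G, Matrix.mul_apply, Matrix.conjTranspose_apply]
  exact ContDiffOn.sum fun j _ => (ContDiffOn.sum fun i _ =>
    (hπ a i).mul (D.η_smooth i j)).mul (reg_star (hπ b j))

lemma AmbChart.b_smooth (D : AmbChart M) (J : Fin n → Fin M) : ContDiffOn ℝ ∞ (D.b J) D.W :=
  Complex.reCLM.contDiff.comp_contDiffOn
    (reg_det (𝕜 := ℝ) (M := fun w => (D.G w).submatrix J J) fun a b => D.G_smooth (J a) (J b))

end Pool.Agent.SPF
end

-- part Pool.Agent.P.MP_63735c_ag.SQCov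
section

/-! Finite covers by local embeddings and comparison of the weights. -/

open Set Filter Topology
open scoped ComplexOrder ContDiff Matrix

namespace Pool.Agent.SPF

variable {N n : ℕ} {X : Type} [TopologicalSpace X] [T2Space X] {R : Set X} {A : Atlas R N}
  {B : Amb R A}

theorem Amb.exists_cov [CompactSpace X] (B : Amb R A) : Nonempty (Cov2 B) := by
  have h1 : ∀ x : X, ∃ (α : B.κ) (K : Set X) (r : ℝ), 0 < r ∧ IsCompact K ∧ K ⊆ B.V α ∧
      x ∈ interior K ∧ ∀ x' ∈ K, B.z α x' ∈ Metric.ball (B.z α x) (2 * r) → x' ∈ interior K := by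
    intro x
    obtain ⟨α, hα⟩ := B.cover x
    obtain ⟨K, hK, hxK, hKV⟩ := exists_compact_subset (B.V_open α) hα
    have hZ : IsCompact (K \ interior K) := hK.diff isOpen_interior
    have hZ' : IsClosed (B.z α '' (K \ interior K)) :=
      (hZ.image_of_continuousOn ((B.cont α).mono (sdiff_subset.trans hKV))).isClosed
    have hx : B.z α x ∈ (B.z α '' (K \ interior K))ᶜ := by
      rintro ⟨x', hx', he⟩
      have : x' = x := B.inj α (hKV hx'.1) hα he
      exact hx'.2 (this ▸ hxK)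
    obtain ⟨ε, hε, hb⟩ := Metric.isOpen_iff.1 hZ'.isOpen_compl _ hx
    refine ⟨α, K, ε / 2, by positivity, hK, hKV, hxK, fun x' hx' hb' => ?_⟩
    by_contra hn
    have h2 : 2 * (ε / 2) = ε := by ring
    rw [h2] at hb'
    exact hb hb' ⟨x', ⟨hx', hn⟩, rfl⟩
  choose α K r hr hK hKV hx hin using h1
  have hop : ∀ x, IsOpen (interior (K x) ∩ B.z (α x) ⁻¹' Metric.ball (B.z (α x) x) (r x)) :=
    fun x => ((B.cont (α x)).mono (interior_subset.trans (hKV x))).isOpen_inter_preimage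
      isOpen_interior Metric.isOpen_ball
  obtain ⟨t, ht⟩ := isCompact_univ.elim_finite_subcover
    (fun x => interior (K x) ∩ B.z (α x) ⁻¹' Metric.ball (B.z (α x) x) (r x)) hop
    (fun x _ => mem_iUnion.2 ⟨x, hx x, Metric.mem_ball_self (hr x)⟩)
  let b : ∀ x, ContDiffBump (B.z (α x) x) := fun x => ⟨r x, 2 * r x, hr x, by linarith [hr x]⟩
  refine ⟨⟨t, inferInstance, fun s => α s, fun s => K s, fun s => b s, fun s => hK s,
    fun s => hKV s, fun s => (b s).contDiff, fun s w => (b s).nonneg, fun s w => (b s).le_one,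
    fun s x hxK hw => ?_, fun x => ?_⟩⟩
  · have h2 : B.z (α s) x ∈ Function.support (b s) := hw
    rw [ContDiffBump.support_eq] at h2
    exact mem_interior_iff_mem_nhds.1 (hin s x hxK h2)
  · obtain ⟨y, hy, hw⟩ := mem_iUnion₂.1 (ht (mem_univ x))
    exact ⟨⟨y, hy⟩, interior_subset hw.1,
      (b y).one_of_mem_closedBall (Metric.ball_subset_closedBall hw.2)⟩

omit [T2Space X] in
theorem Cov2.w_cont (P : Cov2 B) (t : P.T) (J : Fin n → Fin (B.M (P.c t))) :
    ContinuousOn (P.w t J) (P.K t) := by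
  have hz : ContinuousOn (B.z (P.c t)) (P.K t) := (B.cont _).mono (P.sub t)
  exact ((P.smooth t).continuous.comp_continuousOn hz).mul
    (((B.D _).b_smooth J).continuousOn.comp hz fun x hx => B.maps _ (P.sub t hx))

omit [T2Space X] in
theorem sqcov_chart (B : Amb R A) {α : B.κ} {x : X} (hx : x ∈ B.V α) (hR : x ∈ R) :
    ∃ i y, A.p i y = ⟨x, hR⟩ ∧ y ∈ (B.emb α i).O ∧ (B.emb α i).j y = B.z α x := by
  obtain ⟨i, y, hy, hp⟩ := A.cover ⟨x, hR⟩
  have h1 : (A.p i y : X) = x := by rw [hp]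
  refine ⟨i, y, hp, ⟨hy, ?_⟩, ?_⟩
  · rw [h1]; exact hx
  · show B.z α (A.p i y) = _
    rw [h1]

omit [T2Space X] in
theorem sqcov_iso (hd : Dense R) (hI : ∀ i, (A.C i).Iso) (B : Amb R A) {α : B.κ} {x : X}
    (hx : x ∈ B.V α) :
    ((B.D α).η (B.z α x) * ((B.D α).π (B.z α x))ᴴ)ᵀ * (B.D α).π (B.z α x) *
      ((B.D α).η (B.z α x) * ((B.D α).π (B.z α x))ᴴ) = 0 := by
  have hπ : Continuous fun v : B.V α => (B.D α).π (B.z α v) :=
    continuous_matrix fun a b => continuousOn_iff_continuous_domRestrict.1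
      (((B.D α).π_hol a b).continuousOn.comp (B.cont α) (B.maps α))
  have hη : Continuous fun v : B.V α => (B.D α).η (B.z α v) :=
    continuous_matrix fun a b => continuousOn_iff_continuous_domRestrict.1
      (((B.D α).η_smooth a b).continuousOn.comp (B.cont α) (B.maps α))
  have hΘ := hη.matrix_mul hπ.matrix_conjTranspose
  have hF := (hΘ.matrix_transpose.matrix_mul hπ).matrix_mul hΘ
  have hD : Dense ((↑) ⁻¹' R : Set (B.V α)) := hd.preimage (B.V_open α).isOpenMap_subtype_val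
  have h0 := Continuous.ext_on hD hF (continuous_const (y := 0)) fun v hv => by
    obtain ⟨i, y, -, hy, hj⟩ := sqcov_chart B v.2 hv
    have := (B.emb α i).iso (hI i) hy
    rwa [hj] at this
  exact congrFun h0 ⟨x, hx⟩

omit [T2Space X] in
/-- Outside the rank n locus all ambient minors vanish. -/
theorem Amb.rk_of_b (hN : N = 2 * n) (hd : Dense R) (hI : ∀ i, (A.C i).Iso) (B : Amb R A)
    {α : B.κ} {x : X} (hx : x ∈ B.V α) {J : Fin n → Fin (B.M α)}
    (h : (B.D α).b J (B.z α x) ≠ 0) : ∃ hR : x ∈ R, A.Rk n ⟨x, hR⟩ := by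
  have hrk : n ≤ ((B.D α).G (B.z α x)).rank := by
    by_contra hn
    exact h (mnr_eq_zero (not_le.1 hn) J)
  by_cases hR : x ∈ R
  · obtain ⟨i, y, hp, hy, hj⟩ := sqcov_chart B hx hR
    refine ⟨hR, i, y, hy.1, hp, le_antisymm (Chart.rank_le hN (hI i) hy.1) ?_⟩
    rw [← (B.emb α i).rank_G hy, hj]
    exact hrk
  · have h1 := rank_lt_of_iso (n := n) ((B.D α).π_skew _ (B.maps α hx))
      (hN ▸ B.sing α x hx hR) (sqcov_iso hd hI B hx)
    rw [← Matrix.mul_assoc] at h1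
    exact absurd hrk (not_le.2 h1)

omit [T2Space X] in
theorem sqcov_psd (hN : N = 2 * n) (hI : ∀ i, (A.C i).Iso) (B : Amb R A) {α : B.κ} {x : X}
    (hx : x ∈ B.V α) (hR : x ∈ R) :
    ((B.D α).G (B.z α x)).PosSemidef ∧ ((B.D α).G (B.z α x)).rank ≤ n := by
  obtain ⟨i, y, -, hy, hj⟩ := sqcov_chart B hx hR
  rw [← hj]
  exact ⟨(B.emb α i).G_psd hy,
    ((B.emb α i).rank_G hy).trans_le (Chart.rank_le hN (hI i) hy.1)⟩

omit [T2Space X] in
theorem sqcov_nonneg (hN : N = 2 * n) (hd : Dense R) (hI : ∀ i, (A.C i).Iso) (B : Amb R A)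
    {α : B.κ} {x : X} (hx : x ∈ B.V α) (J : Fin n → Fin (B.M α)) :
    0 ≤ (B.D α).b J (B.z α x) := by
  by_cases h : (B.D α).b J (B.z α x) = 0
  · exact h.ge
  · obtain ⟨hR, -⟩ := B.rk_of_b hN hd hI hx h
    exact mnr_nonneg (sqcov_psd hN hI B hx hR).1 J

omit [T2Space X] in
theorem sqcov_conj (B : Amb R A) {α β : B.κ} {x : X} (hα : x ∈ B.V α) (hβ : x ∈ B.V β)
    (hR : x ∈ R) {φ : E (B.M α) → E (B.M β)} (hφ : DifferentiableAt ℂ φ (B.z α x))
    (he : ∀ᶠ x' in 𝓝 x, B.z β x' = φ (B.z α x')) :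
    (B.D β).G (B.z β x) = jac φ (B.z α x) * (B.D α).G (B.z α x) * (jac φ (B.z α x))ᴴ := by
  obtain ⟨i, y, hp, hy, hj⟩ := sqcov_chart B hα hR
  have h1 : (A.p i y : X) = x := by rw [hp]
  have hy' : y ∈ (B.emb β i).O := ⟨hy.1, by rw [h1]; exact hβ⟩
  have hj' : (B.emb β i).j y = B.z β x := by
    show B.z β (A.p i y) = _
    rw [h1]
  have hc : ContinuousAt (fun y' => (A.p i y' : X)) y :=
    continuous_subtype_val.continuousAt.comp
      ((A.cont i).continuousAt ((A.C i).isOpen.mem_nhds hy.1))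
  have h2 : (B.emb β i).j =ᶠ[𝓝 y] φ ∘ (B.emb α i).j := by
    have h3 : Tendsto (fun y' => (A.p i y' : X)) (𝓝 y) (𝓝 x) := h1 ▸ hc
    exact h3.eventually he
  have h4 : jac (B.emb β i).j y = jac φ (B.z α x) * jac (B.emb α i).j y := by
    have h5 : jac (B.emb β i).j y = jac (φ ∘ (B.emb α i).j) y := by
      unfold jac
      rw [h2.fderiv_eq]
    rw [h5, lin3_jac_comp (hj ▸ hφ)
      ((B.emb α i).hol.differentiableAt ((B.emb α i).isOpen.mem_nhds hy)), hj]
  rw [← hj', (B.emb β i).G_eq hy', h4]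
  conv_rhs => rw [← hj, (B.emb α i).G_eq hy, hj]
  simp only [Matrix.conjTranspose_mul, Matrix.mul_assoc]

theorem sqcov_jac (P : Cov2 B) (t t' : P.T) : ∃ D : ℝ, ∀ x ∈ P.K t ∩ P.K t', x ∈ R →
    ∃ L : Matrix (Fin (B.M (P.c t))) (Fin (B.M (P.c t'))) ℂ, (∀ a c, ‖L a c‖ ≤ D) ∧
      (B.D (P.c t)).G (B.z (P.c t) x) = L * (B.D (P.c t')).G (B.z (P.c t') x) * Lᴴ := by
  have hZ : IsCompact (P.K t ∩ P.K t') := (P.cpt t).inter (P.cpt t')
  refine hZ.induction_on (p := fun S => ∃ D : ℝ, ∀ x ∈ S, x ∈ R →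
    ∃ L : Matrix (Fin (B.M (P.c t))) (Fin (B.M (P.c t'))) ℂ, (∀ a c, ‖L a c‖ ≤ D) ∧
      (B.D (P.c t)).G (B.z (P.c t) x) = L * (B.D (P.c t')).G (B.z (P.c t') x) * Lᴴ)
    ⟨0, fun z hz => hz.elim⟩ ?_ ?_ ?_
  · rintro s u hst ⟨D, hD⟩
    exact ⟨D, fun z hz => hD z (hst hz)⟩
  · rintro s u ⟨D, hD⟩ ⟨D', hD'⟩
    refine ⟨max D D', fun z hz hR => ?_⟩
    rcases hz with hz | hz
    · obtain ⟨L, h1, h2⟩ := hD z hz hR
      exact ⟨L, fun a c => (h1 a c).trans (le_max_left _ _), h2⟩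
    · obtain ⟨L, h1, h2⟩ := hD' z hz hR
      exact ⟨L, fun a c => (h1 a c).trans (le_max_right _ _), h2⟩
  · rintro x₀ ⟨h₀, h₀'⟩
    obtain ⟨φ, hφ, he⟩ := B.trans (P.c t') (P.c t) x₀ ⟨P.sub t' h₀', P.sub t h₀⟩
    obtain ⟨O, hO, hOo, hxO⟩ := eventually_nhds_iff.1 hφ
    have hφO : DifferentiableOn ℂ φ O := fun w hw => (hO w hw).differentiableWithinAt
    have hz : ContinuousAt (B.z (P.c t')) x₀ :=
      (B.cont _).continuousAt ((B.V_open _).mem_nhds (P.sub t' h₀'))
    obtain ⟨M, hM⟩ := (finite_range fun q : Fin (B.M (P.c t)) × Fin (B.M (P.c t')) =>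
      ‖jac φ (B.z (P.c t') x₀) q.1 q.2‖).bddAbove
    have h1 : ∀ᶠ x in 𝓝 x₀, ∀ a c, ‖jac φ (B.z (P.c t') x) a c‖ ≤ M + 1 := by
      refine eventually_all.2 fun a => eventually_all.2 fun c => ?_
      have h3 : ContinuousAt (fun x => ‖jac φ (B.z (P.c t') x) a c‖) x₀ :=
        (((jac_hol hOo hφO a c).continuousOn.continuousAt (hOo.mem_nhds hxO)).comp hz).norm
      have h4 : ‖jac φ (B.z (P.c t') x₀) a c‖ ≤ M := hM ⟨(a, c), rfl⟩
      exact (h3.eventually (gt_mem_nhds (h4.trans_lt (lt_add_one M)))).mono fun z hz => hz.le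
    have h2 : ∀ᶠ x in 𝓝 x₀, B.z (P.c t') x ∈ O := hz.eventually (hOo.mem_nhds hxO)
    have h5 := h1.and (h2.and (he.eventually_nhds.and
      (((B.V_open _).eventually_mem (P.sub t' h₀')).and
        ((B.V_open _).eventually_mem (P.sub t h₀)))))
    refine ⟨_, mem_nhdsWithin_of_mem_nhds h5, M + 1, ?_⟩
    rintro x ⟨a1, a2, a3, a4, a5⟩ hR
    exact ⟨_, a1, sqcov_conj B a4 a5 hR (hO _ a2) a3⟩

theorem Cov2.compare (hN : N = 2 * n) (hR : IsOpen R) (hd : Dense R) (hI : ∀ i, (A.C i).Iso)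
    (P : Cov2 B) : ∃ C₀ : ℝ, 0 < C₀ ∧ ∀ t t', ∀ x ∈ P.K t ∩ P.K t',
      ∀ (J : Fin n → Fin (B.M (P.c t))) (J' : Fin n → Fin (B.M (P.c t'))),
        MaxM ((B.D (P.c t')).G (B.z (P.c t') x)) J' →
          (B.D (P.c t)).b J (B.z (P.c t) x) ≤ C₀ * (B.D (P.c t')).b J' (B.z (P.c t') x) := by
  have := P.fin
  choose D hD using fun q : P.T × P.T => sqcov_jac P q.1 q.2
  obtain ⟨M, hM⟩ := (finite_range fun q : P.T × P.T =>
    ((n.factorial : ℝ) * ((B.M (P.c q.2) : ℝ) * D q) ^ n) ^ 2).bddAbove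
  refine ⟨max M 1, lt_max_of_lt_right one_pos, fun t t' x hx J J' hm => ?_⟩
  have h0 := sqcov_nonneg hN hd hI B (P.sub t' hx.2) J'
  by_cases h : (B.D (P.c t)).b J (B.z (P.c t) x) = 0
  · rw [h]
    exact mul_nonneg (zero_le_one.trans (le_max_right _ _)) h0
  · obtain ⟨hxR, -⟩ := B.rk_of_b hN hd hI (P.sub t hx.1) h
    obtain ⟨L, h1, h2⟩ := hD (t, t') x hx hxR
    obtain ⟨h3, h4⟩ := sqcov_psd hN hI B (P.sub t' hx.2) hxR
    have h5 := mnr_conj_le h3 h4 hm L h1 J
    rw [← h2] at h5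
    exact h5.trans (mul_le_mul_of_nonneg_right ((hM ⟨(t, t'), rfl⟩).trans (le_max_left _ _)) h0)

theorem Cov2.exists_active (hN : N = 2 * n) (hR : IsOpen R) (hd : Dense R) (hI : ∀ i, (A.C i).Iso)
    (P : Cov2 B) : ∃ c : ℝ, 0 < c ∧ ∀ x : R, A.Rk n x →
      (∃ t, ∃ J : Fin n → Fin (B.M (P.c t)), P.Active t J x) ∧
        ∀ t (J : Fin n → Fin (B.M (P.c t))), P.Active t J x →
          0 < (B.D (P.c t)).b J (B.z (P.c t) x) ∧ MaxM ((B.D (P.c t)).G (B.z (P.c t) x)) J ∧
            c ≤ P.ρ t (B.z (P.c t) x) := by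
  have := P.fin
  obtain ⟨C₀, hC₀, hC⟩ := P.compare hN hR hd hI
  refine ⟨C₀⁻¹, inv_pos.2 hC₀, fun x hx => ?_⟩
  obtain ⟨t', ht', h1⟩ := P.one x
  obtain ⟨i, y, hy, hp, hrk⟩ := hx
  have hy' : y ∈ (B.emb (P.c t') i).O := ⟨hy, by rw [hp]; exact P.sub t' ht'⟩
  have hj : (B.emb (P.c t') i).j y = B.z (P.c t') x := by
    show B.z (P.c t') (A.p i y) = _
    rw [hp]
  obtain ⟨J₀, hJ₀⟩ := exists_mnr_pos (n := n) ((B.emb (P.c t') i).G_psd hy')
    (by rw [(B.emb (P.c t') i).rank_G hy', hrk])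
  rw [hj] at hJ₀
  have : Nonempty (Fin n → Fin (B.M (P.c t'))) := ⟨J₀⟩
  obtain ⟨J', hm⟩ : ∃ J' : Fin n → Fin (B.M (P.c t')),
      MaxM ((B.D (P.c t')).G (B.z (P.c t') x)) J' :=
    Finite.exists_max fun J => mnr ((B.D (P.c t')).G (B.z (P.c t') x)) J
  have h2 : 0 < (B.D (P.c t')).b J' (B.z (P.c t') x) := hJ₀.trans_le (hm J₀)
  constructor
  · have : Nonempty {q : Σ t : P.T, Fin n → Fin (B.M (P.c t)) // (x : X) ∈ P.K q.1} :=
      ⟨⟨⟨t', J'⟩, ht'⟩⟩
    obtain ⟨q, hq⟩ := Finite.exists_max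
      fun q : {q : Σ t : P.T, Fin n → Fin (B.M (P.c t)) // (x : X) ∈ P.K q.1} =>
        P.w q.1.1 q.1.2 x
    exact ⟨q.1.1, q.1.2, q.2, fun s J hs => hq ⟨⟨s, J⟩, hs⟩⟩
  · rintro t J ⟨ht, hA⟩
    have h3 : (B.D (P.c t')).b J' (B.z (P.c t') x) ≤
        P.ρ t (B.z (P.c t) x) * (B.D (P.c t)).b J (B.z (P.c t) x) := by
      have := hA t' J' ht'
      rwa [Cov2.w, Cov2.w, h1, one_mul] at this
    have h4 := h2.trans_le h3
    have h5 : 0 < P.ρ t (B.z (P.c t) x) :=
      pos_of_mul_pos_left h4 (sqcov_nonneg hN hd hI B (P.sub t ht) J)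
    have h6 : 0 < (B.D (P.c t)).b J (B.z (P.c t) x) := pos_of_mul_pos_right h4 (P.nonneg t _)
    refine ⟨h6, fun J'' => le_of_mul_le_mul_left (hA t J'' ht) h5, ?_⟩
    have h7 := (hC t t' x ⟨ht, ht'⟩ J J' hm).trans (mul_le_mul_of_nonneg_left h3 hC₀.le)
    rw [inv_le_iff_one_le_mul₀' hC₀]
    refine le_of_mul_le_mul_right ?_ h6
    rwa [one_mul, mul_assoc]

end Pool.Agent.SPF
end
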