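import Pool.Agent.K.MP_63735c_ag.C28

/-! The cocycle of an invariant form. -/

open scoped ContDiff Matrix ENNReal
open Set Metric MeasureTheory Filter Topology

namespace Pool.Agent.CL

open Pool.Agent.SPF

variable {n : ℕ} {X : Type} {T O : Set (E n)} {Ψ : P n → X} {g : Ret n} {A : Form1 (P n)}
  {t : Form2 (P n)} {o : P n}

/-- Invariance of `t` under the return `g`. -/
def Inv (t : Form2 (P n)) (O : Set (E n)) (g : Ret n) : Prop :=
  ∀ p : P n, p.1 ∈ O → ∀ u v, t (g.act p) (fderiv ℝ g.act p u) (fderiv ℝ g.act p v) = t p u v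

theorem cldg_open (hg : IsRet T Ψ O g) : IsOpen (O ×ˢ (univ : Set (E n))) :=
  hg.isOpen.prod isOpen_univ

theorem cldg_sub (hg : IsRet T Ψ O g) :
    (O ×ˢ (univ : Set (E n))) ⊆ T ×ˢ univ := prod_mono hg.sub Subset.rfl

theorem cldg_prim (hT : IsOpen T) (hA : IsPrim (T ×ˢ univ) A t) (hg : IsRet T Ψ O g)
    (hi : Inv t O g) : IsPrim (O ×ˢ univ) (fun x => pull1 g.act A x - A x) 0 := by
  have h1 : IsPrim (O ×ˢ univ) (pull1 g.act A) t :=
    pull_prim (hT.prod isOpen_univ) (cldg_open hg) hg.smooth.1 hg.smooth.2.1 hA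
      fun x hx u v => hi x hx.1 u v
  have h2 : IsPrim (O ×ˢ univ) A t :=
    ⟨hA.1.mono (cldg_sub hg), fun x hx => hA.2 x (cldg_sub hg hx)⟩
  have h3 := h1.comb (cldg_open hg) h2 1 (-1)
  have e1 : (fun x => (1 : ℝ) • pull1 g.act A x + (-1 : ℝ) • A x) =
      fun x => pull1 g.act A x - A x := by
    funext x
    refine ContinuousLinearMap.ext fun w => ?_
    simp [sub_eq_add_neg]
  have e2 : (fun x => (1 : ℝ) • t x + (-1 : ℝ) • t x) = (0 : Form2 (P n)) := by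
    funext x
    refine ContinuousLinearMap.ext fun w => ContinuousLinearMap.ext fun w' => ?_
    simp
  rwa [e1, e2] at h3

theorem cldg_cont (hA : ContinuousOn A (T ×ˢ univ)) (hg : IsRet T Ψ O g) :
    ContinuousOn (pull1 g.act A) (O ×ˢ univ) := by
  have h1 : ContinuousOn (fun x => A (g.act x)) (O ×ˢ univ) :=
    hA.comp hg.smooth.1.continuousOn hg.smooth.2.1
  have h2 : ContinuousOn (fderiv ℝ g.act) (O ×ˢ univ) :=
    hg.smooth.1.continuousOn_fderiv_of_isOpen (cldg_open hg) (by simp)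
  exact h1.clm_comp h2

theorem cldg_line (hA : ContinuousOn A (T ×ˢ univ)) (hg : IsRet T Ψ O g) {c : ℝ → P n}
    (h : Curve (O ×ˢ univ) c) :
    lineInt (fun x => pull1 g.act A x - A x) c =
      lineInt A (fun s => g.act (c s)) - lineInt A c := by
  have h3 := lineInt_add (cldg_open hg) (cldg_cont hA hg) (hA.mono (cldg_sub hg)) 1 (-1) h
  have e1 : (fun x => (1 : ℝ) • pull1 g.act A x + (-1 : ℝ) • A x) =
      fun x => pull1 g.act A x - A x := by
    funext x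
    refine ContinuousLinearMap.ext fun w => ?_
    simp [sub_eq_add_neg]
  rw [e1] at h3
  rw [h3, lineInt_pull (cldg_open hg) hg.smooth.1 A h]
  ring

theorem cldg_dot {a b : ℂ → E n} {a' b' : E n} {s : ℂ} (ha : HasDerivAt a a' s)
    (hb : HasDerivAt b b' s) :
    HasDerivAt (fun r => a r ⬝ᵥ b r) (a' ⬝ᵥ b s + a s ⬝ᵥ b') s := by
  simp only [dotProduct]
  rw [← Finset.sum_add_distrib]
  exact HasDerivAt.fun_sum fun k _ => (hasDerivAt_pi.1 ha k).mul (hasDerivAt_pi.1 hb k)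

theorem cldg_ray {V W : Type} [NormedAddCommGroup V] [NormedSpace ℂ V] [NormedAddCommGroup W]
    [NormedSpace ℂ W] {f : V → V →L[ℂ] W} {y : V} (hf : DifferentiableAt ℂ f y) (v ξ : V) :
    HasDerivAt (fun s : ℂ => f (y + s • v) ξ) (fderiv ℂ f y v ξ) 0 := by
  have hl : HasDerivAt (fun s : ℂ => y + s • v) v 0 := by
    simpa using ((hasDerivAt_id (0 : ℂ)).smul_const v).const_add y
  have hN : HasFDerivAt f (fderiv ℂ f y) (y + (0 : ℂ) • v) := by
    simpa using hf.hasFDerivAt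
  have h1 : HasDerivAt (fun s : ℂ => f (y + s • v)) (fderiv ℂ f y v) 0 :=
    HasFDerivAt.comp_hasDerivAt (f := fun s : ℂ => y + s • v) (0 : ℂ) hN hl
  simpa using h1.clm_apply (hasDerivAt_const (0 : ℂ) ξ)

theorem cldg_pair (hg : IsRet T Ψ O g) {y : E n} (hy : y ∈ O) (ξ u v : E n) :
    fderiv ℂ g.N y v ξ ⬝ᵥ fderiv ℂ g.γ y u =
      -(g.N y ξ ⬝ᵥ fderiv ℂ (fderiv ℂ g.γ) y v u) := by
  have hn : O ∈ 𝓝 y := hg.isOpen.mem_nhds hy
  have h0 : y + (0 : ℂ) • v = y := by simp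
  have h1 := cldg_ray (hg.N_hol.differentiableAt hn) v ξ
  have h2 := cldg_ray ((hol_smooth hg.isOpen hg.γ_hol).2.2.differentiableAt hn) v u
  have h3 := cldg_dot h1 h2
  have hev : ∀ᶠ s : ℂ in 𝓝 0, y + s • v ∈ O := by
    have hl : Continuous fun s : ℂ => y + s • v := by fun_prop
    refine hl.continuousAt.eventually_mem ?_
    show O ∈ 𝓝 (y + (0 : ℂ) • v)
    rwa [h0]
  have h4 : HasDerivAt (fun s : ℂ => g.N (y + s • v) ξ ⬝ᵥ fderiv ℂ g.γ (y + s • v) u) 0 0 :=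
    (hasDerivAt_const (0 : ℂ) (ξ ⬝ᵥ u)).congr_of_eventuallyEq
      (hev.mono fun s hs => hg.pair _ hs ξ u)
  have h5 := h3.unique h4
  simp only [h0] at h5
  exact eq_neg_of_add_eq_zero_left h5

theorem Dg_deriv (hT : IsOpen T) (hA : IsPrim (T ×ˢ univ) A t) (hg : IsRet T Ψ O g)
    (hc : Convex ℝ O) (hi : Inv t O g) (ho : o.1 ∈ O) {p : P n} (hp : p.1 ∈ O) :
    HasFDerivAt (Dg A g o) (pull1 g.act A p - A p) p :=
  closed1_deriv (cldg_open hg) (hc.prod convex_univ) (cldg_prim hT hA hg hi)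
    (show o ∈ O ×ˢ univ from ⟨ho, mem_univ _⟩) (show p ∈ O ×ˢ univ from ⟨hp, mem_univ _⟩)

theorem Dg_line (hT : IsOpen T) (hA : IsPrim (T ×ˢ univ) A t) (hg : IsRet T Ψ O g)
    (hc : Convex ℝ O) (hi : Inv t O g) (ho : o.1 ∈ O) {c : ℝ → P n} (h : Curve (O ×ˢ univ) c) :
    lineInt A (fun s => g.act (c s)) - lineInt A c = Dg A g o (c 1) - Dg A g o (c 0) := by
  rw [← cldg_line hA.1.continuousOn hg h]
  exact closed1_line (cldg_open hg) (hc.prod convex_univ) (cldg_prim hT hA hg hi)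
    (show o ∈ O ×ˢ univ from ⟨ho, mem_univ _⟩) h

theorem Dg_self (A : Form1 (P n)) (g : Ret n) (o : P n) : Dg A g o o = 0 := by
  simp [Dg, segInt]

theorem Dg_int (hT : IsOpen T) (hA : IsPrim (T ×ˢ univ) A t) (hI : IsInt T Ψ t) :
    ∃ u : P n → ℝ, (∀ c c' : ℝ → P n, Curve (T ×ˢ univ) c →
      Curve (T ×ˢ univ) c' → (∀ s ∈ Icc (0 : ℝ) 1, Ψ (c s) = Ψ (c' s)) →
      ∃ k : ℤ, lineInt A c' - lineInt A c - (u (c 1) - u (c 0) - u (c' 1) + u (c' 0)) = k) ∧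
      ∀ O g o, IsRet T Ψ O g → Convex ℝ O → o.1 ∈ O → ∀ p : P n, p.1 ∈ O →
      ∃ k : ℤ, Dg A g o p - (u p - u o - u (g.act p) + u (g.act o)) = k := by
  obtain ⟨u, hu⟩ := hI A hA
  refine ⟨u, hu, fun O g o hg hc ho p hp => ?_⟩
  have h : Curve (O ×ˢ univ) (seg o p) :=
    curve_seg (hc.prod convex_univ) ⟨ho, mem_univ _⟩ ⟨hp, mem_univ _⟩
  obtain ⟨k, hk⟩ := hu (seg o p) (fun s => g.act (seg o p s))
    (fun s hs => ⟨(h s hs).1, cldg_sub hg (h s hs).2⟩)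
    (curve_comp (cldg_open hg) hg.smooth.1 hg.smooth.2.1 h)
    (fun s hs => (hg.eq (seg o p s).1 (h s hs).2.1 (seg o p s).2).symm)
  refine ⟨k, ?_⟩
  have e0 : seg o p 0 = o := by simp [seg]
  have e1 : seg o p 1 = p := by simp [seg]
  rw [← cldg_line hA.1.continuousOn hg h, lineInt_seg] at hk
  simp only [e0, e1] at hk
  exact hk

theorem sig_inv (hg : IsRet T Ψ O g)
    (hcl : ∀ y ∈ O, ∀ u v, fderiv ℂ g.α y u ⬝ᵥ v = fderiv ℂ g.α y v ⬝ᵥ u) (c : ℂ) :
    Inv (fun _ => sig c) O g := by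
  intro p hp u v
  have hs : fderiv ℂ (fderiv ℂ g.γ) p.1 u.1 v.1 = fderiv ℂ (fderiv ℂ g.γ) p.1 v.1 u.1 := by
    have h1 : ContDiffAt ℂ ∞ g.γ p.1 :=
      (hol_smooth hg.isOpen hg.γ_hol).1.contDiffAt (hg.isOpen.mem_nhds hp)
    exact (h1.isSymmSndFDerivAt (by simp; exact WithTop.coe_le_coe.2 le_top)).eq u.1 v.1
  have key : ∀ u v : P n, (fderiv ℝ g.act p u).1 ⬝ᵥ (fderiv ℝ g.act p v).2 =
      u.1 ⬝ᵥ v.2 - fderiv ℂ g.α p.1 v.1 ⬝ᵥ u.1 -
        g.N p.1 (p.2 - g.α p.1) ⬝ᵥ fderiv ℂ (fderiv ℂ g.γ) p.1 v.1 u.1 := by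
    intro u v
    rw [hg.smooth.2.2.2 p hp u, hg.smooth.2.2.2 p hp v]
    simp only
    rw [dotProduct_comm, add_dotProduct, hg.pair _ hp, cldg_pair hg hp, sub_dotProduct,
      dotProduct_comm v.2 u.1]
    ring
  simp only [sig_apply]
  rw [key u v, key v u, hcl p.1 hp u.1 v.1, hs, ← Complex.sub_re, ← Complex.sub_re]
  congr 1
  ring

theorem Dg_liou (hg : IsRet T Ψ O g) (hc : Convex ℝ O) (ho : o.1 ∈ O) (c : ℂ) {p : P n}
    (hp : p.1 ∈ O) : Dg (liou c) g o p = (c * hprim g.α o.1 p.1).re := by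
  have hm : ∀ s ∈ uIcc (0 : ℝ) 1, o.1 + s • (p.1 - o.1) ∈ O := by
    intro s hs
    rw [uIcc_of_le zero_le_one] at hs
    exact hc.add_smul_sub_mem ho hp hs
  have hcont : ContinuousOn (fun s : ℝ => c * (g.α (o.1 + s • (p.1 - o.1)) ⬝ᵥ (p.1 - o.1)))
      (uIcc (0 : ℝ) 1) := by
    have h1 : ContinuousOn (fun s : ℝ => g.α (o.1 + s • (p.1 - o.1))) (uIcc (0 : ℝ) 1) :=
      hg.α_hol.continuousOn.comp (by fun_prop) hm
    refine continuousOn_const.mul ?_
    simp only [dotProduct]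
    exact continuousOn_finsetSum _ fun k _ =>
      ((continuous_apply k).comp_continuousOn h1).mul continuousOn_const
  have h2 := Complex.reCLM.intervalIntegral_comp_comm (μ := volume) hcont.intervalIntegrable
  rw [intervalIntegral.integral_const_mul] at h2
  unfold Dg segInt hprim
  rw [← Complex.reCLM_apply, ← h2]
  refine intervalIntegral.integral_congr fun s hs => ?_
  have hx : (o + s • (p - o)).1 ∈ O := hm s hs
  have h3 := hg.smooth.2.2.2 _ hx (p - o)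
  simp only [sub_apply, pull1, liou, ContinuousLinearMap.comp_apply,
    neg_apply, ContinuousLinearMap.coe_fst', rdot_apply, Complex.reCLM_apply]
  rw [h3]
  simp only [Ret.act]
  rw [hg.pair _ hx, sub_dotProduct, mul_sub, Complex.sub_re]
  show _ = (c * (g.α (o + s • (p - o)).1 ⬝ᵥ (p - o).1)).re
  ring

theorem Dg_comb (hT : IsOpen T) {B : Form1 (P n)} (hA : ContinuousOn A (T ×ˢ univ))
    (hB : ContinuousOn B (T ×ˢ univ)) (hg : IsRet T Ψ O g) (hc : Convex ℝ O) (ho : o.1 ∈ O)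
    (a b : ℝ) {p : P n} (hp : p.1 ∈ O) :
    Dg (fun x => a • A x + b • B x) g o p = a * Dg A g o p + b * Dg B g o p := by
  have h : Curve (O ×ˢ univ) (seg o p) :=
    curve_seg (hc.prod convex_univ) ⟨ho, mem_univ _⟩ ⟨hp, mem_univ _⟩
  have h1 := lineInt_add (cldg_open hg) ((cldg_cont hA hg).sub (hA.mono (cldg_sub hg)))
    ((cldg_cont hB hg).sub (hB.mono (cldg_sub hg))) a b h
  rw [lineInt_seg, lineInt_seg, lineInt_seg] at h1
  refine Eq.trans ?_ h1
  unfold Dg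
  congr 1
  funext x
  refine ContinuousLinearMap.ext fun w => ?_
  simp only [pull1, sub_apply, add_apply, smul_apply, ContinuousLinearMap.comp_apply, smul_eq_mul,
    Pi.sub_apply]
  ring

end Pool.Agent.CL
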