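import Pool.Agent.K.MP_63735c_ag.C193

/-! A positive hermitian matrix function is locally a smooth sum of squares. -/

open scoped ComplexOrder ContDiff Matrix Topology MatrixOrder
open Set Metric Filter

namespace Pool.Agent.SE

open Pool.Agent.SPF Pool.Agent.AB

variable {N : ℕ}

theorem sos_alg {E : Mat N} (hE : Eᴴ = E) {t : ℝ} (ht : t ≠ 0) {s : Fin N → ℝ}
    (hs : ∀ m, s m ^ 2 = 1 - N * t ^ 2 - ∑ l, ‖E l m‖ ^ 2 / (2 * t) ^ 2) (m n : Fin N) :
    ∑ q : Fin N × Fin N, ((if m = q.1 then (t : ℂ) else 0) +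
        if m = q.2 then star (E q.1 q.2) / (2 * t) else 0) *
      star ((if n = q.1 then (t : ℂ) else 0) +
        if n = q.2 then star (E q.1 q.2) / (2 * t) else 0) +
      ∑ q, (if m = q then (s q : ℂ) else 0) * star (if n = q then (s q : ℂ) else 0) =
      (1 + E) m n := by
  have h1 : star (E n m) = E m n := congrFun (congrFun hE m) n
  have h2 : (t : ℂ) ≠ 0 := Complex.ofReal_ne_zero.2 ht
  have h3 : ((s m : ℂ)) ^ 2 = 1 - N * t ^ 2 - ∑ l, star (E l m) * E l m / (2 * t) ^ 2 := by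
    have := congrArg ((↑) : ℝ → ℂ) (hs m)
    push_cast at this
    simpa only [Complex.star_def, Complex.conj_mul'] using this
  have h4 : ∑ l, star (E l m) / (2 * t) * (E l m / (2 * t)) =
      ∑ l, star (E l m) * E l m / (2 * t) ^ 2 := Finset.sum_congr rfl fun l _ => by ring
  simp only [Fintype.sum_prod_type, star_add, apply_ite star, star_zero, star_div₀,
    star_mul', Complex.conj_conj, Complex.star_def, Complex.conj_ofReal, map_ofNat, add_mul, mul_add, ite_mul,
    mul_ite, zero_mul, mul_zero, Finset.sum_add_distrib, Finset.sum_ite_eq, Finset.mem_univ,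
    if_true, Finset.sum_ite_irrel, Finset.sum_const_zero, Matrix.add_apply, Matrix.one_apply] at h1 h3 h4 ⊢
  rw [h1]
  by_cases h : m = n
  · subst h
    simp only [if_true, h4, Finset.sum_const, Finset.card_univ, Fintype.card_fin, nsmul_eq_mul]
    rw [← sq (s m : ℂ), h3]
    field_simp
    ring
  · simp only [h, if_false, Finset.sum_const_zero]
    field_simp
    ring

theorem sos {W : Set (E N)} (hW : IsOpen W) {M : E N → Mat N}
    (hM : ∀ a b, ContDiffOn ℝ ∞ (fun z => M z a b) W) (hp : ∀ z ∈ W, (M z).PosDef) {z₀ : E N}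
    (hz : z₀ ∈ W) : ∃ (κ : Type) (_ : Fintype κ) (O : Set (E N)) (P : E N → Matrix (Fin N) κ ℂ),
      IsOpen O ∧ z₀ ∈ O ∧ O ⊆ W ∧ (∀ l a, ContDiffOn ℝ ∞ (fun z => P z l a) O) ∧
        ∀ z ∈ O, P z * (P z)ᴴ = M z := by
  obtain ⟨B, hB⟩ := CStarAlgebra.nonneg_iff_eq_star_mul_self.1 (hp z₀ hz).posSemidef.nonneg
  rw [Matrix.star_eq_conjTranspose] at hB
  have hd : IsUnit B.det := by
    have := (hp z₀ hz).det_pos.ne'
    rw [hB, Matrix.det_mul] at this
    exact (right_ne_zero_of_mul this).isUnit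
  have h1 : B * B⁻¹ = 1 := Matrix.mul_nonsing_inv _ hd
  have h2 : B⁻¹ * B = 1 := Matrix.nonsing_inv_mul _ hd
  let F : E N → Mat N := fun z => (B⁻¹)ᴴ * M z * B⁻¹ - 1
  have hF : SmM W F := (((SmM.const _).mul hM).mul (SmM.const _)).sub (SmM.const _)
  have hF0 : F z₀ = 0 := by
    simp only [F]
    rw [hB, ← Matrix.mul_assoc, ← Matrix.conjTranspose_mul, h1, Matrix.conjTranspose_one,
      Matrix.one_mul, h1, sub_self]
  obtain ⟨t, ht, ht'⟩ : ∃ t : ℝ, 0 < t ∧ 0 < 1 - N * t ^ 2 := by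
    refine ⟨(N + 1)⁻¹, by positivity, ?_⟩
    rw [sub_pos, inv_pow, ← div_eq_mul_inv, div_lt_one (by positivity)]
    nlinarith [Nat.cast_nonneg (α := ℝ) N]
  let μ : Fin N → E N → ℝ := fun m z => 1 - N * t ^ 2 - ∑ l, ‖F z l m‖ ^ 2 / (2 * t) ^ 2
  have hμ : ∀ m, ContDiffOn ℝ ∞ (μ m) W := fun m =>
    contDiffOn_const.sub (ContDiffOn.sum fun l _ => ((hF l m).norm_sq ℝ).div_const _)
  let V : E N → Matrix (Fin N) (Fin N × Fin N ⊕ Fin N) ℂ := fun z => Matrix.of fun m =>
    Sum.elim (fun q => (if m = q.1 then (t : ℂ) else 0) +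
      if m = q.2 then star (F z q.1 q.2) / (2 * t) else 0)
      fun q => if m = q then (√(μ q z) : ℂ) else 0
  refine ⟨Fin N × Fin N ⊕ Fin N, inferInstance, W ∩ ⋂ m, (W ∩ μ m ⁻¹' Ioi 0), fun z => Bᴴ * V z,
    hW.inter (isOpen_iInter_of_finite fun m =>
      (hμ m).continuousOn.isOpen_inter_preimage hW isOpen_Ioi),
    ⟨hz, mem_iInter.2 fun m => ⟨hz, by simpa [μ, hF0] using ht'⟩⟩, inter_subset_left,
    fun l a => ?_, fun z hz' => ?_⟩
  · simp only [Matrix.mul_apply]
    refine ContDiffOn.sum fun m _ => contDiffOn_const.mul ?_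
    rcases a with q | q
    · simp only [V, Matrix.of_apply, Sum.elim_inl]
      refine contDiffOn_const.add ?_
      split_ifs
      · exact ((abint_star (hF _ _)).mono inter_subset_left).div_const _
      · exact contDiffOn_const
    · simp only [V, Matrix.of_apply, Sum.elim_inr]
      split_ifs
      · exact ofReal_smooth (((hμ q).mono inter_subset_left).sqrt fun z hz =>
          (mem_iInter.1 hz.2 q).2.ne')
      · exact contDiffOn_const
  · have h3 : V z * (V z)ᴴ = 1 + F z := by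
      ext m n
      rw [Matrix.mul_apply, Fintype.sum_sum_type]
      refine sos_alg ?_ ht.ne' (s := fun q => √(μ q z))
        (fun q => Real.sq_sqrt (le_of_lt (mem_iInter.1 hz'.2 q).2)) m n
      simp only [F, Matrix.conjTranspose_sub, Matrix.conjTranspose_mul, Matrix.conjTranspose_one,
        Matrix.conjTranspose_conjTranspose, (hp z hz'.1).1.eq, Matrix.mul_assoc]
    rw [Matrix.conjTranspose_mul, Matrix.mul_assoc, ← Matrix.mul_assoc (V z), h3,
      Matrix.conjTranspose_conjTranspose, add_sub_cancel, Matrix.mul_assoc _ B⁻¹, h2,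
      Matrix.mul_one, ← Matrix.mul_assoc, ← Matrix.conjTranspose_mul, h2, Matrix.conjTranspose_one,
      Matrix.one_mul]

end Pool.Agent.SE
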