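import Pool.Agent.K.MP_63735c_ag.C193

/-! The complex Laplacian as a sum of squares of real vector fields. -/

open scoped ComplexOrder ContDiff Matrix Topology
open Set Metric Filter TopologicalSpace

namespace Pool.Agent.SE

open Pool.Agent.SPF Pool.Agent.AB

variable {N : ℕ} {ρ : Type} [Fintype ρ] [DecidableEq ρ]

theorem der_sum {R κ : Type} [CommRing R] [Algebra ℂ R] (s : Finset κ) (D : κ → Derivation ℂ R R)
    (x : R) : (∑ k ∈ s, D k) x = ∑ k ∈ s, D k x :=
  (congrFun (map_sum Derivation.coeFnAddMonoidHom D s) x).trans (Finset.sum_apply _ _ _)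

theorem lap_alg {R κ : Type} [CommRing R] [Algebra ℂ R] [Fintype κ]
    {d db : Fin N → Derivation ℂ R R} (hc : ∀ l k x, d l (db k x) = db k (d l x))
    {u u' : Fin N → κ → R} {w w' : κ → Fin N → R}
    (h1 : ∀ l m, ∑ a, u l a * w a m = if l = m then 1 else 0)
    (h2 : ∀ l m, ∑ a, u' l a * w' a m = if l = m then 1 else 0) (A : Fin N → Matrix ρ ρ R)
    {X : κ ⊕ κ → Derivation ℂ R R}
    (e1 : ∀ a, X (.inl a) = ∑ l, u l a • d l + ∑ l, u' l a • db l)
    (e2 : ∀ a, X (.inr a) = Complex.I • (∑ l, u l a • d l - ∑ l, u' l a • db l)) :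
    ∃ b : κ ⊕ κ → Matrix ρ ρ R, ∀ V : ρ → R,
      -∑ s, dv (X s) (dv (X s) V) + ∑ s, b s *ᵥ dv (X s) V =
        -∑ l, ∑ k, (4 * ∑ a, u l a * u' k a) • dv (d l) (dv (db k) V) +
          ∑ k, A k *ᵥ dv (db k) V := by
  obtain ⟨Z, hZ⟩ : ∃ Z : κ → Derivation ℂ R R, ∀ a, Z a = ∑ l, u l a • d l := ⟨_, fun _ => rfl⟩
  obtain ⟨Z', hZ'⟩ : ∃ Z : κ → Derivation ℂ R R, ∀ a, Z a = ∑ l, u' l a • db l :=
    ⟨_, fun _ => rfl⟩
  simp only [← hZ, ← hZ'] at e1 e2
  have a1 : ∀ a x, Z a x = ∑ l, u l a * d l x := fun a x => by simp [hZ, der_sum]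
  have a2 : ∀ a x, Z' a x = ∑ l, u' l a * db l x := fun a x => by simp [hZ', der_sum]
  have a3 : ∀ {u : Fin N → κ → R} {w : κ → Fin N → R} (B : Fin N → Matrix ρ ρ R)
      (y : Fin N → ρ → R), (∀ l m, ∑ a, u l a * w a m = if l = m then 1 else 0) →
      ∑ a, (∑ m, w a m • B m) *ᵥ (∑ l, u l a • y l) = ∑ l, B l *ᵥ y l := fun {u w} B y h => by
    simp only [Matrix.sum_mulVec, Matrix.mulVec_sum, Matrix.smul_mulVec, Matrix.mulVec_smul,
      Finset.smul_sum, smul_smul]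
    rw [Finset.sum_comm]
    refine Finset.sum_congr rfl fun l _ => ?_
    rw [Finset.sum_comm]
    simp [← Finset.sum_smul, h]
  have a4 : ∀ a (V : ρ → R), dv (Z a) V = ∑ l, u l a • dv (d l) V := fun a V => by
    ext r
    simp [dv, a1]
  have a5 : ∀ a (V : ρ → R), dv (Z' a) V = ∑ l, u' l a • dv (db l) V := fun a V => by
    ext r
    simp [dv, a2]
  have a6 : ∀ a x, X (.inl a) (X (.inl a) x) + X (.inr a) (X (.inr a) x) =
      2 * (Z a (Z' a x) + Z' a (Z a x)) := fun a x => by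
    simp only [e1, e2, Derivation.add_apply, Derivation.smul_apply, Derivation.sub_apply, map_add,
      map_sub, Derivation.map_smul, ← smul_sub, smul_smul, Complex.I_mul_I, neg_one_smul]
    ring
  have a7 : ∀ x, ∑ s, X s (X s x) = ∑ l, ∑ k, (4 * ∑ a, u l a * u' k a) * d l (db k x) +
      ∑ l, (2 * ∑ a, Z' a (u l a)) * d l x + ∑ k, (2 * ∑ a, Z a (u' k a)) * db k x := fun x => by
    have b1 : ∀ a, Z a (Z' a x) = ∑ l, ∑ k, u l a * u' k a * d l (db k x) +
        ∑ k, Z a (u' k a) * db k x := fun a => by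
      rw [a2, map_sum, Finset.sum_comm, ← Finset.sum_add_distrib]
      refine Finset.sum_congr rfl fun k _ => ?_
      rw [Derivation.leibniz, smul_eq_mul, smul_eq_mul, a1 a (db k x), Finset.mul_sum, mul_comm]
      exact congrArg₂ _ (Finset.sum_congr rfl fun l _ => by ring) rfl
    have b2 : ∀ a, Z' a (Z a x) = ∑ l, ∑ k, u l a * u' k a * d l (db k x) +
        ∑ l, Z' a (u l a) * d l x := fun a => by
      rw [a1, map_sum, ← Finset.sum_add_distrib]
      refine Finset.sum_congr rfl fun l _ => ?_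
      rw [Derivation.leibniz, smul_eq_mul, smul_eq_mul, a2 a (d l x), Finset.mul_sum, mul_comm]
      exact congrArg₂ _ (Finset.sum_congr rfl fun k _ => by rw [hc]; ring) rfl
    have b3 : ∑ l, ∑ k, (4 * ∑ a, u l a * u' k a) * d l (db k x) =
        4 * ∑ a, ∑ l, ∑ k, u l a * u' k a * d l (db k x) := by
      simp only [mul_assoc (4 : R), ← Finset.mul_sum (a := (4 : R)), Finset.sum_mul]
      rw [Finset.sum_congr rfl fun l _ => Finset.sum_comm, Finset.sum_comm]
    rw [Fintype.sum_sum_type, ← Finset.sum_add_distrib, b3]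
    simp only [a6, b1, b2, mul_assoc (2 : R), ← Finset.mul_sum (a := (2 : R)), Finset.sum_mul,
      Finset.sum_add_distrib]
    rw [Finset.sum_comm (f := fun a k => Z a (u' k a) * db k x),
      Finset.sum_comm (f := fun a l => Z' a (u l a) * d l x)]
    ring
  let α : κ → Matrix ρ ρ R := fun a => ∑ m, w a m • ((2 * ∑ a, Z' a (u m a)) • 1)
  let β : κ → Matrix ρ ρ R := fun a => ∑ m, w' a m • ((2 * ∑ a, Z a (u' m a)) • 1 + A m)
  refine ⟨Sum.elim (fun a => (2⁻¹ : ℂ) • (α a + β a)) fun a => (-Complex.I / 2) • (α a - β a),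
    fun V => ?_⟩
  have a8 : ∀ a, ((2⁻¹ : ℂ) • (α a + β a)) *ᵥ dv (X (.inl a)) V +
      ((-Complex.I / 2) • (α a - β a)) *ᵥ dv (X (.inr a)) V =
      α a *ᵥ dv (Z a) V + β a *ᵥ dv (Z' a) V := fun a => by
    have c1 : dv (X (.inl a)) V = dv (Z a) V + dv (Z' a) V := funext fun r => by simp [dv, e1]
    have c2 : dv (X (.inr a)) V = Complex.I • (dv (Z a) V - dv (Z' a) V) :=
      funext fun r => by simp [dv, e2]
    have c3 : -Complex.I / 2 * Complex.I = 2⁻¹ := by
      linear_combination (-1 / 2) * Complex.I_mul_I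
    rw [c1, c2, Matrix.smul_mulVec, Matrix.smul_mulVec, Matrix.mulVec_smul, smul_smul, c3]
    simp only [Matrix.add_mulVec, Matrix.sub_mulVec, Matrix.mulVec_add, Matrix.mulVec_sub]
    module
  rw [Fintype.sum_sum_type fun s => _ *ᵥ dv (X s) V, ← Finset.sum_add_distrib]
  simp only [Sum.elim_inl, Sum.elim_inr, a8]
  simp only [Finset.sum_add_distrib, a4, a5, α, β, a3 _ _ h1, a3 _ _ h2, Matrix.add_mulVec,
    Matrix.smul_mulVec, Matrix.one_mulVec]
  ext r
  simp only [Pi.add_apply, Pi.neg_apply, Finset.sum_apply, Pi.smul_apply, smul_eq_mul, dv, a7]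
  ring

omit [DecidableEq ρ] in
theorem vrep_vd {O : Opens (E N)} {U : E N → E N} {X : Derivation ℂ (Sm O) (Sm O)}
    (hX : ∀ (a : Sm O) (x : O), Sm.ev x (X a) =
      ∑ l, (U x l * Sm.ev x (Sm.d l a) + star (U x l) * Sm.ev x (Sm.db l a)))
    {V : ρ → Sm O} {f : E N → ρ → ℂ} (h : VRep V f) : VRep (dv X V) (vdE U f) := fun x => by
  have h1 : ∀ r, (V r).Rep fun y => f y r := fun r y => congrFun (h y) r
  have h2 : DifferentiableAt ℝ f x :=
    differentiableAt_pi.2 fun r => ((h1 r).contDiffAt x).differentiableAt (by simp)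
  funext r
  have h3 : vdE U f x r = fderiv ℝ (fun y => f y r) x (U x) := by
    rw [fderiv_apply h2 r]
    rfl
  rw [h3, fderiv_eq_wirt]
  exact (hX _ x).trans (Finset.sum_congr rfl fun l _ => by rw [(h1 r).d l x, (h1 r).db l x])

theorem lap_form {κ : Type} [Fintype κ] {O : Set (E N)} (hO : IsOpen O) {M : E N → Mat N}
    {P : E N → Matrix (Fin N) κ ℂ} (hP : ∀ l a, ContDiffOn ℝ ∞ (fun z => P z l a) O)
    (hM : ∀ z ∈ O, P z * (P z)ᴴ = M z) (hd : ∀ z ∈ O, (M z).det ≠ 0)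
    {a : Fin N → E N → Matrix ρ ρ ℂ} (ha : ∀ k, SmM O (a k)) {z₀ : E N} (hz : z₀ ∈ O) :
    ∃ (U : κ ⊕ κ → E N → E N) (b : κ ⊕ κ → E N → Matrix ρ ρ ℂ), Coef O z₀ U b ∧
      ∀ f : E N → ρ → ℂ, ContDiffOn ℝ ∞ f O → ∀ z ∈ O, opU U b f z =
        -∑ l, ∑ k, M z l k • dzv l (dbv k f) z + ∑ k, a k z *ᵥ dbv k f z := by
  let O' : Opens (E N) := ⟨O, hO⟩
  have hs : SmM O M := fun l k => (ContDiffOn.sum (s := Finset.univ) fun a _ =>
    (hP l a).mul (abint_star (hP k a))).congr fun z hz => by rw [← hM z hz]; rfl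
  have hw : ∀ a m, ContDiffOn ℝ ∞ (fun z => ((P z)ᴴ * (M z)⁻¹) a m) O := fun a m =>
    ContDiffOn.sum (s := Finset.univ) fun l _ => (abint_star (hP l a)).mul (hs.inv hd l m)
  have h0 : ∀ z ∈ O, P z * ((P z)ᴴ * (M z)⁻¹) = 1 := fun z hz => by
    rw [← Matrix.mul_assoc, hM z hz, Matrix.mul_nonsing_inv _ (hd z hz).isUnit]
  let u : Fin N → κ → Sm O' := fun l a => Sm.mk _ ((hP l a).div_const 2)
  let w : κ → Fin N → Sm O' := fun a m => Sm.mk _ ((contDiffOn_const (c := (2 : ℂ))).mul (hw a m))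
  have h1 : ∀ l m, ∑ a, u l a * w a m = if l = m then 1 else 0 := fun l m => Sm.ext fun x => by
    have := congrFun (congrFun (h0 x x.2) l) m
    rw [Matrix.mul_apply, Matrix.one_apply] at this
    rw [apply_ite (Sm.ev x), map_one, map_zero, ← this, map_sum]
    exact Finset.sum_congr rfl fun a _ => by
      rw [map_mul, Sm.rep_mk, Sm.rep_mk]
      ring
  have h2 : ∀ l m, ∑ a, star (u l a) * star (w a m) = if l = m then 1 else 0 := fun l m => by
    simpa only [star_sum, star_mul', apply_ite star, star_one, star_zero] using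
      congrArg star (h1 l m)
  obtain ⟨b, hb⟩ := lap_alg (X := Sum.elim (fun a => ∑ l, u l a • Sm.d l + ∑ l, star (u l a) • Sm.db l)
    fun a => Complex.I • (∑ l, u l a • Sm.d l - ∑ l, star (u l a) • Sm.db l)) Sm.d_db h1 h2
    (fun k => Matrix.of fun r s => Sm.mk _ (ha k r s)) (fun _ => rfl) fun _ => rfl
  generalize hX : Sum.elim _ _ = X at hb
  let U : κ ⊕ κ → E N → E N :=
    Sum.elim (fun a z l => P z l a / 2) fun a z l => Complex.I * (P z l a / 2)
  have h3 : ∀ s (c : Sm O') (x : O'), Sm.ev x (X s c) =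
      ∑ l, (U s x l * Sm.ev x (Sm.d l c) + star (U s x l) * Sm.ev x (Sm.db l c)) := by
    have hu : ∀ l a (x : O'), Sm.ev x (u l a) = P x l a / 2 := fun l a x => Sm.rep_mk _ _ x
    rintro (s | s) c x
    · simp [← hX, der_sum, U, hu, Finset.sum_add_distrib]
    · simp [← hX, der_sum, U, hu, Finset.sum_add_distrib, Finset.mul_sum,
        mul_assoc, sub_eq_add_neg]
  refine ⟨U, fun s z => Matrix.of fun r t => (b s r t).fn z, ⟨hO, hz, ?_,
    fun s r t => (b s r t).smooth, fun ξ hξ => ?_⟩, fun f hf z hz => ?_⟩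
  · rintro (s | s)
    · exact contDiffOn_pi.2 fun l => (hP l s).div_const 2
    · exact contDiffOn_pi.2 fun l => contDiffOn_const.mul ((hP l s).div_const 2)
  · ext1 v
    obtain ⟨c, hc⟩ : ∃ c : κ → ℂ, P z₀ *ᵥ c = v :=
      ⟨((P z₀)ᴴ * (M z₀)⁻¹) *ᵥ v, by rw [Matrix.mulVec_mulVec, h0 z₀ hz, Matrix.one_mulVec]⟩
    have h4 : v = ∑ s, ((2 * (c s).re) • U (.inl s) z₀ + (2 * (c s).im) • U (.inr s) z₀) := by
      funext l
      rw [← hc, Finset.sum_apply]
      refine Finset.sum_congr rfl fun s _ => ?_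
      simp only [U, Sum.elim_inl, Sum.elim_inr, Pi.add_apply, Pi.smul_apply, Complex.real_smul]
      push_cast
      linear_combination -P z₀ l s * Complex.re_add_im (c s)
    rw [h4]
    simp [hξ]
  · have h4 : ∀ s, (Matrix.of fun r t => (b s r t).fn z) = (b s).map (evr ⟨z, hz⟩) := fun s => by
      ext r t
      exact (b s r t).fn_apply hz
    have h5 := vrep_mk (O := O') hf
    have h6 := fun s => vrep_vd (h3 s) h5
    have h7 := congrArg (evr ⟨z, hz⟩ ∘ ·) (hb (mkV f hf))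
    have h8 : ∀ k, a k z = (Matrix.of fun r s => Sm.mk (O := O') _ (ha k r s)).map (evr ⟨z, hz⟩) :=
      fun k => rfl
    have h9 : ∀ l k, M z l k = evr ⟨z, hz⟩ (4 * ∑ a, u l a * star (u k a)) := fun l k => by
      rw [← hM z hz, Matrix.mul_apply, map_mul, map_sum, Finset.mul_sum]
      refine Finset.sum_congr rfl fun s _ => ?_
      have : evr ⟨z, hz⟩ (u l s * star (u k s)) = P z l s / 2 * star (P z k s / 2) := rfl
      rw [this, map_ofNat, Matrix.conjTranspose_apply, star_div₀, star_ofNat]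
      ring
    simp only [opU, h4, h8, h9, ← h6 _ ⟨z, hz⟩, ← vrep_vd (h3 _) (h6 _) ⟨z, hz⟩,
      ← (h5.dv _).2 ⟨z, hz⟩, ← ((h5.dv _).2.dv _).1 ⟨z, hz⟩, ← evr_mulVec]
    ext r
    simpa only [Function.comp_apply, Pi.add_apply, Pi.neg_apply, Finset.sum_apply, Pi.smul_apply,
      smul_eq_mul, map_add, map_neg, map_sum, map_mul] using congrFun h7 r

end Pool.Agent.SE
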