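import Pool.Agent.K.MP_63735c_ag.C198

/-! Global regularity. -/

open scoped ComplexOrder ContDiff Matrix Topology ENNReal InnerProductSpace
open Set Metric MeasureTheory Filter

namespace Pool.Agent.SE

open Pool.Agent.SPF Pool.Agent.AB

/-- Local smooth limits glue. -/
theorem sm_glue {N : ℕ} {W : Set (E N)} {f : ℕ → E N → ℂ} (hf : ∀ k, ContinuousOn (f k) W)
    (h : ∀ z ∈ W, ∃ (R : ℝ) (G : E N → ℂ), 0 < R ∧ ball z R ⊆ W ∧ ContDiffOn ℝ ∞ G (ball z R) ∧
      ∀ C, IsCompact C → C ⊆ ball z R → L2to f G C) :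
    ∃ g, ContDiffOn ℝ ∞ g W ∧ ∀ C, IsCompact C → C ⊆ W → L2to f g C := by
  choose! R G hG using h
  have he : ∀ z ∈ W, EqOn (fun y => G y y) (G z) (ball z (R z)) := by
    intro z hz y hy
    obtain ⟨-, a2, a3, a4⟩ := hG z hz
    obtain ⟨b1, -, b3, b4⟩ := hG y (a2 hy)
    exact l2_unique (f := f) (W := ball z (R z) ∩ ball y (R y)) (isOpen_ball.inter isOpen_ball)
      (fun k => (hf k).mono (inter_subset_left.trans a2))
      (b3.continuousOn.mono inter_subset_right) (a3.continuousOn.mono inter_subset_left)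
      (fun C hC hs => b4 C hC (hs.trans inter_subset_right))
      (fun C hC hs => a4 C hC (hs.trans inter_subset_left)) ⟨hy, mem_ball_self b1⟩
  have hg : ContDiffOn ℝ ∞ (fun y => G y y) W := fun z hz =>
    ((((hG z hz).2.2.1.congr (he z hz)).contDiffAt
      (ball_mem_nhds z (hG z hz).1))).contDiffWithinAt
  have hi : ∀ K, IsCompact K → K ⊆ W → ∀ k,
      IntegrableOn (fun y => ‖f k y - G y y‖ ^ 2) K volume :=
    fun K hK hs k => seho_int hK (((hf k).sub hg.continuousOn).mono hs)
  refine ⟨fun y => G y y, hg, fun C hC hs => ?_⟩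
  have main : ∃ K, IsCompact K ∧ K ⊆ W ∧ C ⊆ K ∧ L2to f (fun y => G y y) K := by
    refine hC.induction_on
      (p := fun s => ∃ K, IsCompact K ∧ K ⊆ W ∧ s ⊆ K ∧ L2to f (fun y => G y y) K) ?_ ?_ ?_ ?_
    · exact ⟨∅, isCompact_empty, empty_subset _, le_rfl, by simp [L2to]⟩
    · rintro s t hst ⟨K, h1, h2, h3, h4⟩
      exact ⟨K, h1, h2, hst.trans h3, h4⟩
    · rintro s t ⟨K, h1, h2, h3, h4⟩ ⟨K', h1', h2', h3', h4'⟩
      refine ⟨K ∪ K', h1.union h1', union_subset h2 h2', union_subset_union h3 h3', ?_⟩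
      have t := Tendsto.add h4 h4'
      rw [add_zero] at t
      refine squeeze_zero (fun k => integral_nonneg fun _ => by positivity) (fun k => ?_) t
      rw [← integral_add_measure (hi K h1 h2 k) (hi K' h1' h2' k)]
      exact integral_mono_measure (Measure.restrict_union_le _ _)
        (Eventually.of_forall fun _ => by positivity)
        (Integrable.add_measure (hi K h1 h2 k) (hi K' h1' h2' k))
    · intro x hx
      obtain ⟨a1, a2, -, a4⟩ := hG x (hs hx)
      have hb : closedBall x (R x / 2) ⊆ ball x (R x) := closedBall_subset_ball (by linarith)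
      refine ⟨closedBall x (R x / 2),
        mem_nhdsWithin_of_mem_nhds (closedBall_mem_nhds x (half_pos a1)), _,
        isCompact_closedBall _ _, hb.trans a2, le_rfl, ?_⟩
      refine Tendsto.congr (fun k => ?_) (a4 _ (isCompact_closedBall _ _) hb)
      refine setIntegral_congr_fun measurableSet_closedBall fun y hy => ?_
      have e : G y y = G x y := he x (hs hx) (hb hy)
      simp only [e]
  obtain ⟨K, h1, h2, h3, h4⟩ := main
  exact seho_sub h3 (hi K h1 h2) (fun _ _ => by positivity) h4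

variable {N : ℕ} {ρ Y : Type} [Fintype ρ]

theorem opU_congr {κ : Type} [Fintype κ] (U : κ → E N → E N) (b : κ → E N → Matrix ρ ρ ℂ)
    {φ ψ : E N → ρ → ℂ} {z : E N} (h : φ =ᶠ[𝓝 z] ψ) : opU U b φ z = opU U b ψ z := by
  have h1 : ∀ (V : E N → E N) {φ ψ : E N → ρ → ℂ}, φ =ᶠ[𝓝 z] ψ → vdE V φ =ᶠ[𝓝 z] vdE V ψ :=
    fun V φ ψ h => h.eventuallyEq_nhds.mono fun y hy => by simp [vdE, hy.fderiv_eq]
  simp only [opU, fun a => (h1 (U a) h).self_of_nhds,
    fun a => (h1 (U a) (h1 (U a) h)).self_of_nhds]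

variable [DecidableEq ρ] [TopologicalSpace Y] [MeasurableSpace Y]
  [CompactSpace Y] [T2Space Y] [BorelSpace Y] {B : Bun Y N ρ} {D : B.Sec →ₗ[ℂ] B.Sec}

namespace Bun

theorem reg_ball (h : B.Ell D) (hl : B.Lap D) {u : ℕ → B.Sec} (hu : CauchySeq u) {f : B.Sec}
    (hd : Tendsto (fun k => D (u k)) atTop (𝓝 f)) {i : B.ι} {z : E N} (hz : z ∈ B.W i) :
    ∃ (R : ℝ) (G : E N → ρ → ℂ), 0 < R ∧ ball z R ⊆ B.W i ∧ ContDiffOn ℝ ∞ G (ball z R) ∧
      ∀ r C, IsCompact C → C ⊆ ball z R → L2to (fun k y => (u k).v i y r) (fun y => G y r) C := by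
  obtain ⟨κ, _, O, U, b, hO, hc, he⟩ := hl i z hz
  obtain ⟨R, hR, hs⟩ := nhds_basis_closedBall.mem_iff.1 (hc.isOpen.mem_nhds hc.mem)
  have hB : IsCompact (closedBall z R) := isCompact_closedBall _ _
  have hb : ball z R ⊆ closedBall z R := ball_subset_closedBall
  have hW := hs.trans hO
  have hle : volume.restrict (ball z R) ≤ volume.restrict (closedBall z R) :=
    Measure.restrict_mono hb le_rfl
  have hm : ∀ {g : E N → ℂ}, ContinuousOn g (B.W i) → MemLp g 2 (volume.restrict (closedBall z R)) :=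
    fun hg => seho_mem hB (hg.mono hW)
  have hk := fun k r => hm (continuousOn_pi.1 ((u k).smooth i).continuousOn r)
  obtain ⟨A, hA, hl⟩ := segl_comp hB hW
  choose F hF hlim using fun r => seho_lim (fun k => hk k r) fun ε hε => by
    obtain ⟨M, hM⟩ := Metric.cauchySeq_iff.1 hu (√(ε / A)) (by positivity)
    refine ⟨M, fun k hk l hl' => (hl _ _ r).trans ?_⟩
    have h1 := hM k hk l hl'
    rw [dist_eq_norm] at h1
    have h2 := pow_le_pow_left₀ (norm_nonneg _) h1.le 2
    rw [Real.sq_sqrt (by positivity), le_div_iff₀ hA] at h2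
    linarith
  have hi := fun r k => (memLp_two_iff_integrable_sq_norm ((hk k r).sub (hF r)).1).1
    ((hk k r).sub (hF r))
  let M : E N → Matrix ρ ρ ℂ := fun y => (wt (B.Ψ i) y : ℂ) • B.H i y
  have hM : SmM (B.W i) M := SmM.smul (ofReal_smooth (wt_smooth (B.Ψ_smooth i))) (B.H_smooth i)
  have hM' : ∀ y ∈ B.W i, (M y).det ≠ 0 := fun y hy => by
    rw [Matrix.det_smul]
    exact mul_ne_zero (pow_ne_zero _ (Complex.ofReal_ne_zero.2 (wt_pos _ _).ne'))
      (B.H_pos i y hy).det_pos.ne'
  have a1 : ∀ (C : Set (E N)) (V V' : B.Sec), C ⊆ ball z R → B.Supp V i C →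
      ⟪V, V'⟫_ℂ = ∫ y in ball z R, ∑ s, V'.v i y s * (star (V.v i y) ᵥ* M y) s := by
    intro C V V' hC hV
    rw [inner_supp (hC.trans (hb.trans hW)) hV, setIntegral_eq_of_subset_of_forall_sdiff_eq_zero
      (B.isOpen i).measurableSet (hb.trans hW) fun y hy => by
        rw [hV.zero (hC.trans (hb.trans hW)) fun e => hy.2 (hC e)]
        simp [hp]]
    refine integral_congr_ae (Eventually.of_forall fun y => ?_)
    simp only [hp, M, Matrix.vecMul_smul, Matrix.dotProduct_mulVec]
    rw [← smul_eq_mul, ← smul_dotProduct, dotProduct_comm]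
    rfl
  have a2 : ∀ (v w : ρ → ℂ) y, star (M y *ᵥ v) ⬝ᵥ w = star (∑ s, v s * (star w ᵥ* M y) s) :=
    fun v w y => by
      change _ = star (v ⬝ᵥ (star w ᵥ* M y))
      rw [dotProduct_comm v, ← Matrix.dotProduct_mulVec, Matrix.star_dotProduct]
  obtain ⟨r, g, hr, hg, hae⟩ := regE (O := ball z R) ⟨isOpen_ball, mem_ball_self hR,
    fun a => (hc.sU a).mono (hb.trans hs), fun a r s => (hc.sb a r s).mono (hb.trans hs), hc.span⟩
    (u := fun y => M y *ᵥ fun s => F s y) (f := fun y => M y *ᵥ (D f).v i y)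
    (integrable_pi_iff.2 fun r => (integrable_finsetSum (f := fun s y => M y r s * F s y) _
      fun s _ => (hm (hM r s).continuousOn).integrable_mul (hF s)).mono_measure hle)
    ((hM.mulVec ((D f).smooth i)).mono (hb.trans hW)) fun φ hφ => by
      have b1 := tst_mono hφ (hb.trans hW)
      have b2 := ex_supp (B := B) b1 Subset.rfl
      have b3 := (b2.map h.loc hφ.cpt b1.sub).map h.loc hφ.cpt b1.sub
      have b4 : ∀ s, MemLp (fun y => (star ((D (D (B.ex i φ))).v i y) ᵥ* M y) s) 2
          (volume.restrict (ball z R)) := fun s => (hm (continuousOn_finsetSum _ fun r _ =>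
        (continuousOn_pi.1 ((D (D (B.ex i φ))).smooth i).continuousOn r).star.mul
          (hM r s).continuousOn)).mono_measure hle
      have b5 := tendsto_finsetSum Finset.univ fun s _ => seho_mul
        (fun k => ((hk k s).sub (hF s)).mono_measure hle) (b4 s)
        (seho_sub hb (hi s) (fun _ _ => by positivity) (hlim s))
      have b6 : Tendsto (fun k => ⟪D (D (B.ex i φ)), u k⟫_ℂ) atTop (𝓝 ⟪B.ex i φ, D f⟫_ℂ) := by
        simpa only [h.symm] using (tendsto_const_nhds (x := D (B.ex i φ))).inner (𝕜 := ℂ) hd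
      have b7 := tendsto_nhds_unique (b6.sub_const (∫ y in ball z R,
          ∑ s, F s y * (star ((D (D (B.ex i φ))).v i y) ᵥ* M y) s)) (b5.congr fun k => by
        have c1 : ∀ s, Integrable (fun y => (u k).v i y s *
            (star ((D (D (B.ex i φ))).v i y) ᵥ* M y) s) (volume.restrict (ball z R)) :=
          fun s => ((hk k s).mono_measure hle).integrable_mul (b4 s)
        have c2 : ∀ s, Integrable (fun y => F s y *
            (star ((D (D (B.ex i φ))).v i y) ᵥ* M y) s) (volume.restrict (ball z R)) :=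
          fun s => ((hF s).mono_measure hle).integrable_mul (b4 s)
        rw [a1 _ _ _ hφ.sub b3, integral_finsetSum _ fun s _ => c1 s,
          integral_finsetSum _ fun s _ => c2 s, ← Finset.sum_sub_distrib]
        exact Finset.sum_congr rfl fun s _ => by
          rw [← integral_sub (c1 s) (c2 s)]
          simp only [Pi.sub_apply, sub_mul])
      rw [Finset.sum_const_zero, sub_eq_zero, a1 _ _ _ hφ.sub b2] at b7
      have b8 := congrArg (starRingEnd ℂ) b7.symm
      rw [← integral_conj, ← integral_conj] at b8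
      refine (setIntegral_congr_fun measurableSet_ball fun y hy => ?_).trans
        (b8.trans (setIntegral_congr_fun measurableSet_ball fun y hy => ?_))
      · simp only [a2, he _ y (hs (hb hy)), opU_congr U b (mem_of_superset
          ((B.isOpen i).mem_nhds (hW (hb hy))) fun t ht => ex_self b1 ht)]
        rfl
      · simp only [a2, ex_self b1 (hW (hb hy))]
        rfl
  have h1 : ball z (min r R) ⊆ ball z R := ball_subset_ball (min_le_right _ _)
  refine ⟨min r R, fun y => (M y)⁻¹ *ᵥ g y, lt_min hr hR, h1.trans (hb.trans hW),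
    ((hM.inv hM').mulVec hg.contDiffOn).mono (h1.trans (hb.trans hW)), fun s C hC hCs => ?_⟩
  refine (seho_sub (hCs.trans (h1.trans hb)) (hi s) (fun _ _ => by positivity) (hlim s)).congr
    fun k => integral_congr_ae ?_
  filter_upwards [ae_restrict_of_ae_restrict_of_subset
    (hCs.trans (ball_subset_ball (min_le_left _ _))) hae, ae_restrict_mem hC.measurableSet]
    with y hy hy'
  rw [← hy, Matrix.mulVec_mulVec, Matrix.nonsing_inv_mul _ (hM' y (hW (hb (h1 (hCs hy'))))).isUnit,
    Matrix.one_mulVec]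
  rfl

theorem reg (h : B.Ell D) (hl : B.Lap D) {u : ℕ → B.Sec} (hu : CauchySeq u) {f : B.Sec}
    (hd : Tendsto (fun k => D (u k)) atTop (𝓝 f)) : ∃ V, Tendsto u atTop (𝓝 V) := by
  choose g hg hl using fun i r => sm_glue (f := fun k y => (u k).v i y r)
    (fun k => continuousOn_pi.1 ((u k).smooth i).continuousOn r) fun z hz => by
      obtain ⟨R, G, h1, h2, h3, h4⟩ := reg_ball h hl hu hd hz
      exact ⟨R, fun y => G y r, h1, h2, contDiffOn_pi.1 h3 r, h4 r⟩
  obtain ⟨P⟩ := exists_PU B
  refine ⟨∑ a, B.ex (P.c a) fun z => P.τ a z • fun r => g (P.c a) r z,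
    tendsto_sub_nhds_zero_iff.1 ?_⟩
  have h1 := tendsto_finsetSum Finset.univ fun a _ => segl_piece (P.tst a)
    (contDiffOn_pi.2 (hg (P.c a))) fun r => hl (P.c a) r _ (P.tst a).cpt (P.tst a).sub
  rw [Finset.sum_const_zero] at h1
  refine h1.congr fun k => ?_
  rw [Finset.sum_sub_distrib, P.decomp]

end Bun

end Pool.Agent.SE
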