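import Pool.Agent.K.MP_63735c_ag.C11

/-! Near minimisers and the Riesz lemma. -/

open scoped ComplexOrder ContDiff Matrix Topology ENNReal
open Set Metric MeasureTheory Filter

namespace Pool.Agent.AB

open Pool.Agent.SPF

variable {N : ℕ} {Y : Type} [TopologicalSpace Y] [MeasurableSpace Y] [BorelSpace Y] [T2Space Y]
  {D : Dat Y N}

theorem abnm_int {h w : Y → ℂ} (hh : D.Cc h) (hw : D.S w) :
    Integrable (fun x => h x * star (w x)) D.ν :=
  Dat.cc_int (hh.map₂ hw.cc.1 (l := fun a b : ℂ => a * star b) (by fun_prop) fun b => zero_mul _)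

theorem abnm_right {w r v : Y → ℂ} (hw : D.S w) (hr : D.S r) (hv : D.S v) (t : ℂ) :
    D.En v (fun x => w x + t * r x) = D.En v w + star t * D.En v r := by
  rw [← Dat.En_star, Dat.En_add_left hw (hr.const_mul t) hv, Dat.En_smul_left hr, star_add,
    star_mul', Dat.En_star, Dat.En_star]

/-- The functional that is almost minimised. -/
noncomputable def abnmJ (D : Dat Y N) (h w : Y → ℂ) : ℝ :=
  (D.En w w).re + 2 * (∫ x, h x * star (w x) ∂D.ν).re

theorem abnm_expand {h w r : Y → ℂ} (hh : D.Cc h) (hw : D.S w) (hr : D.S r) (t : ℂ) :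
    abnmJ D h (fun x => w x + t * r x) = abnmJ D h w +
      2 * (star t * (D.En w r + ∫ x, h x * star (r x) ∂D.ν)).re + ‖t‖ ^ 2 * (D.En r r).re := by
  have hs := hw.add (hr.const_mul t)
  have e1 : ∫ x, h x * star (w x + t * r x) ∂D.ν =
      ∫ x, h x * star (w x) ∂D.ν + star t * ∫ x, h x * star (r x) ∂D.ν := by
    rw [← integral_const_mul, ← integral_add (abnm_int hh hw) ((abnm_int hh hr).const_mul _)]
    refine integral_congr_ae (Eventually.of_forall fun x => ?_)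
    simp only [star_add, star_mul']
    ring
  unfold abnmJ
  rw [e1, Dat.En_add_left hw (hr.const_mul t) hs, Dat.En_smul_left hr, abnm_right hw hr hw,
    abnm_right hw hr hr, ← Dat.En_star w r, Complex.sq_norm, Complex.normSq_apply]
  have e2 : (D.En r r).im = 0 := Complex.conj_eq_iff_im.1 (Dat.En_star r r)
  simp only [Complex.add_re, Complex.mul_re, Complex.add_im, Complex.mul_im, Complex.star_def,
    Complex.conj_re, Complex.conj_im, e2]
  ring

theorem Dat.near_min {h : Y → ℂ} (hh : D.HH h) : ∃ (B : ℝ) (Q : ℝ → (Y → ℂ) → Prop),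
    (∀ e, 0 < e → ∃ w, Q e w) ∧ (∀ e e' w, 0 < e → e ≤ e' → Q e w → Q e' w) ∧
    ∀ e w, 0 < e → e ≤ 1 → Q e w → D.S w ∧ D.Near h w e ∧ (D.En w w).re ≤ B ∧
      ∀ w', Q e w' → (D.En (fun x => w x - w' x) fun x => w x - w' x).re ≤ 4 * e ^ 2 := by
  obtain ⟨hc, B, hB⟩ := hh
  have low : ∀ w, D.S w → (D.En w w).re / 2 - 2 * B ^ 2 ≤ abnmJ D h w := by
    intro w hw
    have h1 := hB w hw
    have h2 := Real.sq_sqrt (Dat.En_nonneg hw)
    have h3 := (abs_le.1 (Complex.abs_re_le_norm (∫ x, h x * star (w x) ∂D.ν))).1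
    unfold abnmJ
    nlinarith [sq_nonneg (√(D.En w w).re - 2 * B)]
  have J0 : abnmJ D h (fun _ => 0) = 0 := by
    have h1 := Dat.En_smul_left (D := D) (w' := fun _ => 0) Man.S.zero 0
    simp only [zero_mul] at h1
    simp [abnmJ, h1]
  refine ⟨2 + 4 * B ^ 2, fun e w => D.S w ∧ ∀ v, D.S v → abnmJ D h w ≤ abnmJ D h v + e ^ 2,
    fun e he => ?_, fun e e' w he hee hw => ⟨hw.1, fun v hv => ?_⟩,
    fun e w he he1 hw => ⟨hw.1, fun r hr => ?_, ?_, fun w' hw' => ?_⟩⟩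
  · have hb : BddBelow (abnmJ D h '' {v | D.S v}) := by
      refine ⟨-(2 * B ^ 2), ?_⟩
      rintro _ ⟨v, hv, rfl⟩
      linarith [low v hv, Dat.En_nonneg hv]
    obtain ⟨_, ⟨w, hw, rfl⟩, hlt⟩ := exists_lt_of_csInf_lt
      (⟨_, fun _ => 0, Man.S.zero, rfl⟩ : (abnmJ D h '' {v | D.S v}).Nonempty)
      (lt_add_of_pos_right _ (pow_pos he 2))
    exact ⟨w, hw, fun v hv => by linarith [csInf_le hb ⟨v, hv, rfl⟩]⟩
  · nlinarith [hw.2 v hv]
  · set a := D.En w r + ∫ x, h x * star (r x) ∂D.ν with ha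
    have hE := Dat.En_nonneg hr
    have key : ∀ l : ℝ, 0 ≤ (‖a‖ ^ 2 * (D.En r r).re) * (l * l) + (2 * ‖a‖ ^ 2) * l + e ^ 2 := by
      intro l
      have h1 := hw.2 _ (hw.1.add (hr.const_mul (l * a)))
      rw [abnm_expand hc hw.1 hr, ← ha] at h1
      have h2 : (star ((l : ℂ) * a) * a).re = l * ‖a‖ ^ 2 := by
        rw [Complex.sq_norm, Complex.normSq_apply]
        simp only [Complex.mul_re, Complex.mul_im, Complex.star_def, Complex.conj_re,
          Complex.conj_im, Complex.ofReal_re, Complex.ofReal_im]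
        ring
      have h3 : ‖(l : ℂ) * a‖ ^ 2 = l * l * ‖a‖ ^ 2 := by
        rw [norm_mul, mul_pow, Complex.norm_real, Real.norm_eq_abs, sq_abs, sq l]
      rw [h2, h3] at h1
      linarith
    have h4 := discrim_le_zero key
    rw [discrim] at h4
    rcases (norm_nonneg a).eq_or_lt with h0 | h0
    · rw [← h0]
      positivity
    · have h5 : ‖a‖ ^ 2 ≤ (e * √(D.En r r).re) ^ 2 := by
        rw [mul_pow, Real.sq_sqrt hE]
        exact le_of_mul_le_mul_left (by nlinarith) (pow_pos h0 2)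
      exact (pow_le_pow_iff_left₀ h0.le (by positivity) two_ne_zero).1 h5
  · have h1 := hw.2 _ Man.S.zero
    rw [J0] at h1
    nlinarith [low w hw.1]
  · have hr := hw.1.sub hw'.1
    have h1 := abnm_expand hc hw'.1 hr 1
    have h2 := abnm_expand hc hw'.1 hr ((1 / 2 : ℝ) : ℂ)
    have h3 := hw.2 _ (hw'.1.add (hr.const_mul ((1 / 2 : ℝ) : ℂ)))
    have h4 := hw'.2 _ (hw'.1.add (hr.const_mul ((1 / 2 : ℝ) : ℂ)))
    have e1 : (fun x => w' x + 1 * (w x - w' x)) = w := funext fun x => by ring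
    rw [e1, star_one, one_mul, norm_one] at h1
    rw [Complex.star_def, Complex.conj_ofReal, Complex.re_ofReal_mul, Complex.norm_real,
      Real.norm_eq_abs, sq_abs] at h2
    simp only [Complex.star_def] at h1
    linarith

theorem Dat.HH.zero : D.HH fun _ => 0 :=
  ⟨Man.S.zero.cc, 0, fun w _ => by simp⟩

theorem Dat.HH.add {h h' : Y → ℂ} (hh : D.HH h) (hh' : D.HH h') : D.HH fun x => h x + h' x := by
  obtain ⟨hc, B, hB⟩ := hh
  obtain ⟨hc', B', hB'⟩ := hh'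
  refine ⟨hc.add hc', B + B', fun w hw => ?_⟩
  simp only [add_mul]
  rw [integral_add (abnm_int hc hw) (abnm_int hc' hw)]
  exact (norm_add_le _ _).trans (add_le_add (hB w hw) (hB' w hw))

theorem Dat.HH.const_mul {h : Y → ℂ} (hh : D.HH h) (c : ℂ) : D.HH fun x => c * h x := by
  obtain ⟨hc, B, hB⟩ := hh
  refine ⟨hc.map (l := fun a : ℂ => c * a) (by fun_prop) (mul_zero c), ‖c‖ * B, fun w hw => ?_⟩
  simp only [mul_assoc]
  rw [integral_const_mul, norm_mul]
  exact mul_le_mul_of_nonneg_left (hB w hw) (norm_nonneg c)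

theorem riesz {H : Type} [NormedAddCommGroup H] [InnerProductSpace ℂ H] [CompleteSpace H]
    (V : Submodule ℂ H) (s : H) {A : ℝ} (hA : 0 ≤ A)
    (h : ∀ u ∈ V, ‖inner ℂ s u‖ ≤ A * ‖u‖) :
    ∃ v : H, ‖v‖ ≤ A ∧ ∀ u ∈ V, inner ℂ (s - v) u = 0 := by
  have hcl : IsClosed {u : H | ‖inner ℂ s u‖ ≤ A * ‖u‖} := isClosed_le (by fun_prop) (by fun_prop)
  have h1 : ∀ u ∈ V.topologicalClosure, ‖inner ℂ s u‖ ≤ A * ‖u‖ := fun u hu =>
    closure_minimal (s := (V : Set H)) h hcl hu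
  have h2 := V.topologicalClosure.starProjection_inner_eq_zero s
  have h3 := V.topologicalClosure.starProjection_apply_mem s
  set v := V.topologicalClosure.starProjection s
  refine ⟨v, ?_, fun u hu => h2 u (V.le_topologicalClosure hu)⟩
  have h4 := h2 v h3
  have h5 := h1 v h3
  rw [inner_sub_left, sub_eq_zero] at h4
  rw [h4, inner_self_eq_norm_sq_to_K, norm_pow, RCLike.norm_ofReal, abs_norm] at h5
  rcases (norm_nonneg v).eq_or_lt with h0 | h0
  · rwa [← h0]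
  · exact le_of_mul_le_mul_right (by rwa [← sq]) h0

theorem abnm_inner {ν : Measure Y} (u v : Lp ℂ 2 ν) :
    inner ℂ u v = ∫ x, v x * star (u x) ∂ν := by
  rw [L2.inner_def]
  rfl

theorem abnm_norm {ν : Measure Y} (u : Lp ℂ 2 ν) : ‖u‖ ^ 2 = ∫ x, ‖u x‖ ^ 2 ∂ν := by
  have h1 := abnm_inner u u
  rw [inner_self_eq_norm_sq_to_K] at h1
  simp only [Complex.star_def, Complex.mul_conj'] at h1
  apply Complex.ofReal_injective
  rw [← integral_complex_ofReal]
  push_cast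
  exact h1

/-- The Riesz lemma for functions. -/
theorem Dat.exists_orth {s : Y → ℂ} (hs : D.Cc s) {A : ℝ} (hA : 0 ≤ A)
    (h : ∀ h, D.HH h → ‖∫ x, h x * star (s x) ∂D.ν‖ ≤ A * √(∫ x, ‖h x‖ ^ 2 ∂D.ν)) :
    ∃ g : Y → ℂ, MemLp g 2 D.ν ∧ ∫ x, ‖g x - s x‖ ^ 2 ∂D.ν ≤ A ^ 2 ∧
      ∀ h, D.HH h → ∫ x, h x * star (g x) ∂D.ν = 0 := by
  have hm : ∀ {f : Y → ℂ}, D.Cc f → MemLp f 2 D.ν := fun hf => hf.memLp D.den D.Ψ_cont 2
  let V : Submodule ℂ (Lp ℂ 2 D.ν) :=
    { carrier := {u | ∃ k, D.HH k ∧ u =ᵐ[D.ν] k}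
      zero_mem' := ⟨_, Dat.HH.zero, Lp.coeFn_zero _ _ _⟩
      add_mem' := by
        rintro u v ⟨k, hk, hu⟩ ⟨k', hk', hv⟩
        exact ⟨_, hk.add hk', (Lp.coeFn_add u v).trans (hu.add hv)⟩
      smul_mem' := by
        rintro c u ⟨k, hk, hu⟩
        exact ⟨_, hk.const_mul c, (Lp.coeFn_smul c u).trans (hu.const_smul c)⟩ }
  have hs0 := (hm hs).coeFn_toLp
  obtain ⟨v, hv, ho⟩ := riesz V ((hm hs).toLp s) hA (by
    rintro u ⟨k, hk, hu⟩
    have e1 : ∫ x, u x * star ((hm hs).toLp s x) ∂D.ν = ∫ x, k x * star (s x) ∂D.ν :=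
      integral_congr_ae (by filter_upwards [hu, hs0] with x h1 h2; rw [h1, h2])
    have e2 : ∫ x, ‖k x‖ ^ 2 ∂D.ν = ‖u‖ ^ 2 := by
      rw [abnm_norm]
      exact integral_congr_ae (by filter_upwards [hu] with x h1; rw [h1])
    have h1 := h k hk
    rwa [e2, Real.sqrt_sq (norm_nonneg u), ← e1, ← abnm_inner] at h1)
  refine ⟨((hm hs).toLp s - v : Lp ℂ 2 D.ν), Lp.memLp _, ?_, fun k hk => ?_⟩
  · refine le_of_eq_of_le ?_ (pow_le_pow_left₀ (norm_nonneg v) hv 2)
    rw [abnm_norm]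
    refine integral_congr_ae ?_
    filter_upwards [Lp.coeFn_sub ((hm hs).toLp s) v, hs0] with x h1 h2
    rw [h1, Pi.sub_apply, h2, sub_sub_cancel_left, norm_neg]
  · have h1 := ho ((hm hk.1).toLp k) ⟨k, hk, (hm hk.1).coeFn_toLp⟩
    rw [abnm_inner] at h1
    rw [← h1]
    exact integral_congr_ae (by filter_upwards [(hm hk.1).coeFn_toLp] with x h2; rw [h2])

end Pool.Agent.AB
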