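import Pool.Agent.K.MP_63735c_ag.C194
import Pool.Agent.K.MP_63735c_ag.C200

/-! The Hodge decomposition of closed forms of type (1,0) and (2,0). -/

open scoped ComplexOrder ContDiff Matrix Topology ENNReal InnerProductSpace
open Set Metric MeasureTheory Filter

namespace Pool.Agent.SE

open Pool.Agent.SPF Pool.Agent.AB

variable {N : ℕ} {ρ Y : Type} [Fintype ρ]

theorem dz_cmb {κ : Type} [Fintype κ] {f : κ → E N → ℂ} {z : E N}
    (hf : ∀ k, DifferentiableAt ℝ (f k) z) (c : κ → ℂ) (a : Fin N) :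
    dz a (fun y => ∑ k, c k * f k y) z = ∑ k, c k * dz a (f k) z := by
  rw [(dz_sum _ (fun k _ => (hf k).const_mul _) a).1]
  exact Finset.sum_congr rfl fun k _ => by
    rw [(dz_mul (differentiableAt_const _) (hf k) a).1, (dz_const a _).1, zero_mul, zero_add]

theorem dot_smooth {W : Set (E N)} {f : E N → ρ → ℂ} (hf : ContDiffOn ℝ ∞ f W) (c : ρ → ℂ) :
    ContDiffOn ℝ ∞ (fun y => c ⬝ᵥ f y) W :=
  ContDiffOn.sum fun r _ => contDiffOn_const.mul (contDiffOn_pi.1 hf r)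

theorem dot_hol {W : Set (E N)} {f : E N → ρ → ℂ} (hf : DifferentiableOn ℂ f W) (c : ρ → ℂ) :
    DifferentiableOn ℂ (fun y => c ⬝ᵥ f y) W :=
  DifferentiableOn.fun_sum fun r _ => (differentiableOn_pi.1 hf r).const_mul _

theorem dz_dot {W : Set (E N)} (hW : IsOpen W) {f : E N → ρ → ℂ} (hf : ContDiffOn ℝ ∞ f W)
    {z : E N} (hz : z ∈ W) (c : ρ → ℂ) (a : Fin N) :
    dz a (fun y => c ⬝ᵥ f y) z = c ⬝ᵥ dzv a f z :=
  dz_cmb (fun r => diffAt hW (contDiffOn_pi.1 hf r) hz) c a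

variable [DecidableEq ρ] [TopologicalSpace Y] [MeasurableSpace Y]

namespace Geo

variable {X : Geo Y N ρ} (hd : ∀ r, X.d r = 0) (T : Du (X.C.mat ℂ))
include hd

theorem G_eq (i j : X.ι) (z : E N) (u : ρ → ℂ) : X.G i j z *ᵥ u =
    (jac (X.ch i j) z).det⁻¹ • (X.C.mat ℂ).gam (jac (X.ch i j) z) *ᵥ u := by
  funext r
  simp [G, gg, hd, ← Matrix.mulVec_mulVec, Matrix.mulVec_diagonal]

theorem v_eq (V : X.bun.Sec) {i j : X.ι} {z y : E N} (hz : z ∈ X.W i) (hy : y ∈ X.W j)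
    (e : X.p i z = X.p j y) : (X.C.mat ℂ).gam (jac (X.ch i j) z) *ᵥ V.v i z =
      (jac (X.ch i j) z).det • V.v j y := by
  rw [V.fam.2 i j z hz y hy e]
  exact ((congrArg _ (G_eq hd i j z _)).trans (smul_inv_smul₀ (det_ne hz ⟨y, hy, e.symm⟩) _)).symm

theorem f0_co (V : X.bun.Sec) : ∃ u : Y → ℂ, ∀ i, ∀ z ∈ X.W i, u (X.p i z) = T.co0 (V.v i z) := by
  choose q h1 h2 using X.bun.exists_ch
  refine ⟨fun x => T.co0 (V.v (q x).1 (q x).2), fun i z hz => ?_⟩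
  refine mul_left_cancel₀ (det_ne hz ⟨_, h1 _, h2 (X.p i z)⟩) (Eq.trans ?_ (T.co0_gam _ _))
  exact ((congrArg T.co0 (v_eq hd V hz (h1 _) (h2 (X.p i z)).symm)).trans
    (dotProduct_smul _ _ _)).symm

theorem f1_co (V : X.bun.Sec) : X.F1 fun i z => T.co1 (V.v i z) := by
  refine ⟨fun i => contDiffOn_pi.2 fun a => dot_smooth (V.smooth i) _, fun i j z hz y hy e => ?_⟩
  refine smul_right_injective _ (det_ne hz ⟨y, hy, e.symm⟩) ?_
  beta_reduce
  rw [← T.co1_gam _ (V.v i z), v_eq hd V hz hy e, ← Matrix.smul_vecMul]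
  exact congrArg (· ᵥ* _) (funext fun a => dotProduct_smul _ _ _)

theorem f2_co (V : X.bun.Sec) : X.F2 fun i z => T.co2 (V.v i z) := by
  refine ⟨fun i a b => dot_smooth (V.smooth i) _, fun i z _ => T.co2_skew _,
    fun i j z hz y hy e => ?_⟩
  refine smul_right_injective _ (det_ne hz ⟨y, hy, e.symm⟩) ?_
  beta_reduce
  rw [← T.co2_gam _ (V.v i z), v_eq hd V hz hy e, ← Matrix.smul_mul, ← Matrix.mul_smul]
  congr 2
  exact Matrix.ext fun a b => dotProduct_smul _ _ _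

variable [CompactSpace Y] [T2Space Y] [BorelSpace Y]

theorem solve {s : X.ι → E N → ρ → ℂ} (h1 : ∀ i, ContDiffOn ℝ ∞ (s i) (X.W i))
    (h2 : ∀ i j, ∀ z ∈ X.W i, ∀ y ∈ X.W j, X.p i z = X.p j y →
      (X.C.mat ℂ).gam (jac (X.ch i j) z) *ᵥ s i z = (jac (X.ch i j) z).det • s j y)
    (h3 : ∀ i, ∀ z ∈ X.W i, ∑ l, (X.C.mat ℂ).i l *ᵥ dzv l (s i) z = 0) :
    ∃ H ∈ X.bun.Hol, ∃ V : X.bun.Sec, ∀ i, ∀ z ∈ X.W i,
      s i z = H.v i z + ∑ l, (X.C.mat ℂ).i l *ᵥ dzv l (V.v i) z := by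
  have hs : X.bun.Fam s := ⟨h1, fun i j z hz y hy e => ((G_eq hd i j z _).trans (by
    rw [h2 i j z hz y hy e, inv_smul_smul₀ (det_ne hz ⟨y, hy, e.symm⟩)])).symm⟩
  obtain ⟨d, h⟩ := X.exists_del hd
  obtain ⟨H, hH, V, e⟩ := h.solve hd (s := X.bun.sec s) (Bun.Sec.ext' fun i z hz => by
    rw [h.eq _ i z hz, Bun.v_zero, ← h3 i z hz]
    refine Finset.sum_congr rfl fun l _ => congrArg _ (funext fun r => ?_)
    exact (dz_congr (mem_of_superset ((X.isOpen i).mem_nhds hz) fun w hw =>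
      congrFun (Bun.sec_v hs hw) r) l).self_of_nhds)
  exact ⟨H, hH, V, fun i z hz => by rw [← Bun.sec_v hs hz, e, Bun.v_add, h.eq _ i z hz]⟩

include T

theorem hodge1 {α : X.ι → E N → E N} (hα : X.F1 α)
    (hc : ∀ i, ∀ z ∈ X.W i, ∀ a b, dz a (fun w => α i w b) z = dz b (fun w => α i w a) z) :
    ∃ (u : Y → ℂ) (h : X.ι → E N → E N), X.Smo u ∧ X.F1 h ∧
      (∀ i, DifferentiableOn ℂ (h i) (X.W i)) ∧
      ∀ i, ∀ z ∈ X.W i, ∀ a, α i z a = h i z a + dz a (fun w => u (X.p i w)) z := by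
  have e1 : ∀ (β : E N) r, T.em1 β r = (fun c => ((X.C.mat ℂ).i c *ᵥ T.τ) r) ⬝ᵥ β := fun β r => by
    simp [Du.em1, dotProduct, mul_comm]
  obtain ⟨H, hH, V, e⟩ := solve hd (s := fun i z => T.em1 (α i z))
    (fun i => contDiffOn_pi.2 fun r => by simpa only [e1] using dot_smooth (hα.1 i) _)
    (fun i j z hz y hy e => by rw [hα.2 i j z hz y hy e, T.gam_em1]) fun i z hz => by
      rw [← T.i_em1 (hc i z hz)]
      refine Finset.sum_congr rfl fun l _ => congrArg _ (funext fun r => ?_)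
      simp only [dzv, e1]
      exact dz_dot (X.isOpen i) (hα.1 i) hz _ l
  obtain ⟨u, hu⟩ := f0_co hd T V
  refine ⟨u, _, fun i => (dot_smooth (V.smooth i) _).congr (hu i), f1_co hd T H,
    fun i => differentiableOn_pi.2 fun a => dot_hol (hH i) _, fun i z hz a => ?_⟩
  rw [(dz_congr (mem_of_superset ((X.isOpen i).mem_nhds hz) (hu i)) a).self_of_nhds,
    ← T.co1_em1 (α i z), e i z hz]
  refine (dotProduct_add _ _ _).trans (congrArg _ ((T.co1_i _ a).trans ?_))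
  exact (dz_dot (X.isOpen i) (V.smooth i) hz _ a).symm

theorem hodge2 {γ : X.ι → E N → Mat N} (hγ : X.F2 γ)
    (hc : ∀ i, ∀ z ∈ X.W i, ∀ a b c, dz a (fun w => γ i w b c) z +
      dz b (fun w => γ i w c a) z + dz c (fun w => γ i w a b) z = 0) :
    ∃ (β : X.ι → E N → E N) (h : X.ι → E N → Mat N), X.F1 β ∧ X.F2 h ∧
      (∀ i a b, DifferentiableOn ℂ (fun z => h i z a b) (X.W i)) ∧ ∀ i, ∀ z ∈ X.W i, ∀ a b,
        γ i z a b = h i z a b + dz a (fun w => β i w b) z - dz b (fun w => β i w a) z := by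
  have e1 : ∀ (β : Mat N) r, T.em2 β r = (fun q : Fin N × Fin N => 2⁻¹ *
      (((X.C.mat ℂ).i q.1 * (X.C.mat ℂ).i q.2) *ᵥ T.τ) r) ⬝ᵥ fun q => β q.1 q.2 := fun β r => by
    simp only [Du.em2, dotProduct, Fintype.sum_prod_type, Finset.sum_apply, Pi.smul_apply,
      smul_eq_mul, mul_right_comm]
  have e2 : ∀ i, ContDiffOn ℝ ∞ (fun z (q : Fin N × Fin N) => γ i z q.1 q.2) (X.W i) :=
    fun i => contDiffOn_pi.2 fun q => hγ.1 i q.1 q.2
  obtain ⟨H, hH, V, e⟩ := solve hd (s := fun i z => T.em2 (γ i z))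
    (fun i => contDiffOn_pi.2 fun r => by simpa only [e1] using dot_smooth (e2 i) _)
    (fun i j z hz y hy e => by rw [hγ.3 i j z hz y hy e, T.gam_em2]) fun i z hz => by
      rw [← T.i_em2 (γ := fun a => Matrix.of fun b c => dz a (fun w => γ i w b c) z) (hc i z hz)]
      refine Finset.sum_congr rfl fun l _ => congrArg _ (funext fun r => ?_)
      simp only [dzv, e1]
      exact dz_dot (X.isOpen i) (e2 i) hz _ l
  refine ⟨_, _, f1_co hd T V, f2_co hd T H, fun i a b => dot_hol (hH i) _, fun i z hz a b => ?_⟩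
  rw [← T.co2_em2 (hγ.2 i z hz), e i z hz, add_sub_assoc]
  refine (dotProduct_add _ _ _).trans (congrArg _ ((T.co2_i _ a b).trans ?_))
  exact congrArg₂ _ (dz_dot (X.isOpen i) (V.smooth i) hz _ a).symm
    (dz_dot (X.isOpen i) (V.smooth i) hz _ b).symm

end Geo

end Pool.Agent.SE
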