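import Pool.Agent.P.MP_63735c_ag.SPDefs

/-! Mean value inequality for holomorphic functions on a ball. -/

open scoped ContDiff Matrix ENNReal
open Set Metric MeasureTheory Filter Topology

namespace Pool.Agent.CL

open Pool.Agent.SPF

variable {N : ℕ}

/-- Rotation of `ℂ^N` by a unit complex number preserves the volume. -/
theorem abx_rot (c : ℂ) (hc : ‖c‖ = 1) :
    MeasurePreserving (fun w : E N => c • w) volume volume := by
  have h1 : MeasurePreserving (fun w : ℂ => c * w) volume volume := by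
    exact (rotation ⟨c, by simpa [Submonoid.unitSphere] using hc⟩).measurePreserving
  exact volume_preserving_pi (fun _ : Fin N => h1)

theorem abx_circle {h : E N → ℂ} {z w : E N} {r : ℝ} (hh : DifferentiableOn ℂ h (ball z r))
    (hw : ‖w‖ < r) : ENNReal.ofReal (2 * Real.pi) * ‖h z‖ₑ ≤
      ∫⁻ t in Ioc (0 : ℝ) (2 * Real.pi), ‖h (z + circleMap 0 1 t • w)‖ₑ := by
  have hd : DiffContOnCl ℂ (fun s : ℂ => h (z + s • w)) (ball 0 |1|) := by
    have hm : ∀ s ∈ closedBall (0 : ℂ) 1, z + s • w ∈ ball z r := by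
      intro s hs
      rw [mem_closedBall_zero_iff] at hs
      rw [mem_ball_iff_norm, add_sub_cancel_left, norm_smul]
      exact lt_of_le_of_lt (mul_le_of_le_one_left (norm_nonneg _) hs) hw
    have : DifferentiableOn ℂ (fun s : ℂ => h (z + s • w)) (closedBall 0 1) :=
      hh.comp (by fun_prop) hm
    refine DifferentiableOn.diffContOnCl ?_
    rwa [abs_one, closure_ball _ one_ne_zero]
  have hav := hd.circleAverage
  simp only [zero_smul, add_zero, Real.circleAverage, intervalIntegral.integral_of_le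
    Real.two_pi_pos.le] at hav
  have h2 : ‖h z‖ₑ * ENNReal.ofReal (2 * Real.pi) =
      ‖∫ t in Ioc (0 : ℝ) (2 * Real.pi), h (z + circleMap 0 1 t • w)‖ₑ := by
    rw [← hav, enorm_smul, mul_right_comm, ← ofReal_norm (2 * Real.pi)⁻¹,
      ← ENNReal.ofReal_mul (norm_nonneg _), Real.norm_of_nonneg (by positivity),
      inv_mul_cancel₀ Real.two_pi_pos.ne', ENNReal.ofReal_one, one_mul]
  rw [mul_comm, h2]
  exact enorm_integral_le_lintegral_enorm _

/-- Mean value inequality on a ball. -/
theorem mv_one {h : E N → ℂ} {z : E N} {r : ℝ} (hh : DifferentiableOn ℂ h (ball z r)) :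
    ‖h z‖ₑ * volume (ball z r) ≤ ∫⁻ x in ball z r, ‖h x‖ₑ := by
  set F : E N → ℝ≥0∞ := (ball (0 : E N) r).indicator fun w => ‖h (z + w)‖ₑ with hF
  have hc : ContinuousOn (fun w => h (z + w)) (ball (0 : E N) r) :=
    hh.continuousOn.comp (by fun_prop) fun w hw => by simpa [mem_ball_iff_norm] using hw
  have hm : Measurable F := by
    classical
    have := hc.enorm.measurable_piecewise (g := 0) continuousOn_const measurableSet_ball
    rwa [piecewise_eq_indicator] at this
  have e1 : ∫⁻ x in ball z r, ‖h x‖ₑ = ∫⁻ w, F w := by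
    rw [← lintegral_indicator measurableSet_ball, ← lintegral_add_left_eq_self _ z]
    refine lintegral_congr fun w => ?_
    by_cases hw : w ∈ ball (0 : E N) r
    · rw [hF, indicator_of_mem hw, indicator_of_mem (by simpa [mem_ball_iff_norm] using hw)]
    · rw [hF, indicator_of_notMem hw, indicator_of_notMem (by simpa [mem_ball_iff_norm] using hw)]
  have e2 : ∀ t : ℝ, ∫⁻ w, F (circleMap 0 1 t • w) = ∫⁻ w, F w := fun t =>
    (abx_rot (circleMap 0 1 t) (by simp)).lintegral_comp hm
  have hp : ENNReal.ofReal (2 * Real.pi) ≠ 0 := by simpa using Real.pi_pos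
  rw [← ENNReal.mul_le_mul_iff_right hp ENNReal.ofReal_ne_top, e1]
  have e3 : ENNReal.ofReal (2 * Real.pi) * ∫⁻ w, F w =
      ∫⁻ w, ∫⁻ t in Ioc (0 : ℝ) (2 * Real.pi), F (circleMap 0 1 t • w) := by
    rw [← lintegral_lintegral_swap (μ := volume.restrict (Ioc (0 : ℝ) (2 * Real.pi)))
      (f := fun t w => F (circleMap 0 1 t • w)) (hm.comp (by fun_prop)).aemeasurable]
    simp [e2, mul_comm]
  rw [e3, ← mul_assoc, Measure.addHaar_ball_center, ← setLIntegral_const,
    ← lintegral_indicator measurableSet_ball]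
  refine lintegral_mono fun w => ?_
  by_cases hw : w ∈ ball (0 : E N) r
  · rw [indicator_of_mem hw]
    refine (abx_circle hh (by simpa using hw)).trans (lintegral_mono fun t => ?_)
    rw [hF, indicator_of_mem (by simpa [norm_smul] using hw)]
  · rw [indicator_of_notMem hw]
    exact zero_le

/-- Mean value inequality for the square. -/
theorem mv_sq {h : E N → ℂ} {z : E N} {r : ℝ} (hh : DifferentiableOn ℂ h (ball z r)) :
    ENNReal.ofReal (‖h z‖ ^ 2) * volume (ball z r) ≤
      ∫⁻ x in ball z r, ENNReal.ofReal (‖h x‖ ^ 2) := by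
  simpa [← ofReal_norm, norm_pow] using mv_one (hh.pow 2)

/-- Mean value inequality with the power of the radius. -/
theorem mv_rad : ∃ c : ℝ, 0 < c ∧ ∀ (h : E N → ℂ) (z : E N) (r I : ℝ), 0 < r → 0 ≤ I →
    DifferentiableOn ℂ h (ball z r) → 
    ∫⁻ x in ball z r, ENNReal.ofReal (‖h x‖ ^ 2) ≤ ENNReal.ofReal I →
      c * (‖h z‖ * r ^ N) ^ 2 ≤ I := by
  have h0 : 0 < (volume (ball (0 : E N) 1)).toReal :=
    ENNReal.toReal_pos (measure_ball_pos _ _ one_pos).ne' measure_ball_lt_top.ne
  refine ⟨_, h0, fun h z r I hr hI hh hi => ?_⟩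
  have := (mv_sq hh).trans hi
  rw [Measure.addHaar_ball_of_pos _ _ hr, 
    ← ENNReal.ofReal_toReal (measure_ball_lt_top (x := (0 : E N)) (r := 1)).ne,
    ← ENNReal.ofReal_mul (by positivity), ← ENNReal.ofReal_mul (by positivity),
    ENNReal.ofReal_le_ofReal_iff hI] at this
  have hf : Module.finrank ℝ (E N) = N * 2 := by simp [Module.finrank_pi_fintype]
  rw [hf, pow_mul] at this
  calc _ = ‖h z‖ ^ 2 * ((r ^ N) ^ 2 * (volume (ball (0 : E N) 1)).toReal) := by ring
    _ ≤ I := this

end Pool.Agent.CL
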