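import Pool.Agent.K.MP_63735c_ag.C203
import Pool.Agent.K.MP_63735c_ag.C204
import Pool.Agent.K.MP_63735c_ag.C164
import Pool.Agent.K.MP_63735c_ag.C24

/-! Plurisubharmonic functions: the mean value inequality and Lp bounds. -/

open scoped ComplexOrder ContDiff Matrix Topology ENNReal
open Set Metric MeasureTheory Filter

namespace Pool.Agent.BP

open Pool.Agent.SPF Pool.Agent.AB Pool.Agent.CK Pool.Agent.SE Pool.Agent.NL Pool.Agent.CL

variable {N : ℕ}

theorem bpt3b_line {w : E N → ℝ} {x v : E N} {t : ℂ} (c : ℂ)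
    (hw : ContDiffAt ℝ 2 w (x + (c * t) • v)) :
    Lv (fun s : ℂ => w (x + (c * s) • v)) t 1 = Lv w (x + (c * t) • v) (c • v) := by
  have hd : ∀ y : ℂ, HasFDerivAt (fun s : ℂ => x + (c * s) • v)
      ((ContinuousLinearMap.id ℂ ℂ).smulRight (c • v)) y := fun y => by
    have := ((ContinuousLinearMap.id ℂ ℂ).smulRight (c • v)).hasFDerivAt.const_add x (x := y)
    simpa only [ContinuousLinearMap.smulRight_apply, ContinuousLinearMap.id_apply, smul_smul,
      mul_comm] using this
  rw [Lv_comp (g := fun s : ℂ => x + (c * s) • v) hw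
    (Eventually.of_forall fun y => (hd y).differentiableAt), (hd t).fderiv]
  simp

theorem bpt3b_in (x : E N) {r : ℝ} {v : E N} (hv : v ∈ ball (0 : E N) (4 * r)) {t : ℂ}
    (ht : t ∈ ball (0 : ℂ) (4 / 3)) : x + ((3 / 2 : ℂ) * t) • v ∈ ball x (8 * r) := by
  rw [mem_ball_zero_iff] at hv ht
  have n32 : ‖(3 / 2 : ℂ) * t‖ = 3 / 2 * ‖t‖ := by simp
  rw [mem_ball, dist_eq_norm, add_sub_cancel_left, norm_smul, n32]
  nlinarith [norm_nonneg v, norm_nonneg t]

theorem bpt3b_ann {t : ℂ} (ht : t ∈ ball (5 / 12 : ℂ) (1 / 12)) :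
    ‖t‖ < 1 / 2 ∧ 3 / 2 * t ∈ clmv_A := by
  rw [mem_ball, dist_eq_norm] at ht
  have h1 : ‖(5 / 12 : ℂ)‖ = 5 / 12 := by simp
  have h2 := abs_lt.1 ((abs_norm_sub_norm_le t (5 / 12)).trans_lt ht)
  have n32 : ‖(3 / 2 : ℂ) * t‖ = 3 / 2 * ‖t‖ := by simp
  rw [h1] at h2
  refine ⟨by linarith [h2.2], mem_closedBall_zero_iff.2 (by rw [n32]; linarith [h2.2]), fun h => ?_⟩
  have := mem_ball_zero_iff.1 h
  rw [n32] at this
  linarith [h2.1]

theorem bpt3b_swap (x : E N) (r : ℝ) {F : E N → ℝ≥0∞} (hF : ContinuousOn F (ball x (8 * r))) :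
    volume (ball (5 / 12 : ℂ) (1 / 12)) * ∫⁻ y in ball x (2 * r), F y ≤
      ∫⁻ v in ball (0 : E N) (4 * r), ∫⁻ t in closedBall (0 : ℂ) (9 / 16),
        F (x + ((3 / 2 : ℂ) * t) • v) := by
  have hl : Continuous fun q : ℂ × E N => x + ((3 / 2 : ℂ) * q.1) • q.2 :=
    continuous_const.add ((continuous_const.mul continuous_fst).smul continuous_snd)
  have hc : ContinuousOn (fun q : ℂ × E N => F (x + ((3 / 2 : ℂ) * q.1) • q.2))
      (ball (5 / 12 : ℂ) (1 / 12) ×ˢ ball 0 (4 * r)) :=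
    hF.comp hl.continuousOn fun q hq => bpt3b_in x hq.2
      (mem_ball_zero_iff.2 ((bpt3b_ann hq.1).1.trans (by norm_num)))
  calc volume (ball (5 / 12 : ℂ) (1 / 12)) * ∫⁻ y in ball x (2 * r), F y
      = ∫⁻ _ in ball (5 / 12 : ℂ) (1 / 12), ∫⁻ y in ball x (4 * r / 2), F y := by
        rw [setLIntegral_const, mul_comm, show 4 * r / 2 = 2 * r by ring]
    _ ≤ ∫⁻ t in ball (5 / 12 : ℂ) (1 / 12), ∫⁻ v in ball 0 (4 * r), F (x + (3 / 2 * t) • v) :=
        setLIntegral_mono' measurableSet_ball fun t ht =>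
          clmv_scale (E N) volume x (4 * r) (bpt3b_ann ht).2 F
    _ = ∫⁻ v in ball 0 (4 * r), ∫⁻ t in ball (5 / 12 : ℂ) (1 / 12), F (x + (3 / 2 * t) • v) := by
        rw [lintegral_lintegral_swap]
        rw [Measure.prod_restrict]
        exact hc.aemeasurable (measurableSet_ball.prod measurableSet_ball)
    _ ≤ _ := lintegral_mono fun v => lintegral_mono_set fun t ht =>
        mem_closedBall_zero_iff.2 ((bpt3b_ann ht).1.le.trans (by norm_num))

/-- Positive plurisuperharmonic functions. -/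
theorem bpt3b_pos (N : ℕ) {p : ℕ} (hp : 1 ≤ p) : ∃ C : ℝ≥0∞, C ≠ ⊤ ∧ ∀ (x : E N) (r : ℝ) (w : E N → ℝ),
    ContDiffOn ℝ 2 w (ball x (8 * r)) → (∀ y ∈ ball x (8 * r), 0 < w y ∧ ∀ v, Lv w y v ≤ 0) →
      ∫⁻ y in ball x (2 * r), ENNReal.ofReal (w y ^ p) ≤
        C * volume (ball (0 : E N) (4 * r)) * ENNReal.ofReal (w x ^ p) := by
  obtain ⟨C, hC, H⟩ := bpt3a_plane hp
  have hA0 : volume (ball (5 / 12 : ℂ) (1 / 12)) ≠ 0 := (measure_ball_pos _ _ (by norm_num)).ne'
  have hA1 : volume (ball (5 / 12 : ℂ) (1 / 12)) ≠ ⊤ := measure_ball_lt_top.ne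
  refine ⟨(volume (ball (5 / 12 : ℂ) (1 / 12)))⁻¹ * C,
    ENNReal.mul_ne_top (ENNReal.inv_ne_top.2 hA0) hC, fun x r w hw h0 => ?_⟩
  have k1 := bpt3b_swap x r (F := fun y => ENNReal.ofReal (w y ^ p))
    (ENNReal.continuous_ofReal.comp_continuousOn (hw.continuousOn.pow p))
  have k2 : ∀ v ∈ ball (0 : E N) (4 * r), ∫⁻ t in closedBall (0 : ℂ) (9 / 16),
      ENNReal.ofReal (w (x + ((3 / 2 : ℂ) * t) • v) ^ p) ≤ C * ENNReal.ofReal (w x ^ p) := by
    intro v hv
    have hl : ContDiff ℝ 2 fun t : ℂ => x + ((3 / 2 : ℂ) * t) • v :=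
      contDiff_const.add ((contDiff_const.mul contDiff_id).smul contDiff_const)
    have := H (fun t => w (x + ((3 / 2 : ℂ) * t) • v))
      (hw.comp hl.contDiffOn fun t ht => bpt3b_in x hv (ball_subset_ball (by norm_num) ht))
      (fun t ht => (h0 _ (bpt3b_in x hv (ball_subset_ball (by norm_num) ht))).1) fun t ht => by
        have h1 := bpt3b_in x hv (ball_subset_ball (by norm_num) ht)
        rw [bpt3b_line _ (hw.contDiffAt (isOpen_ball.mem_nhds h1))]
        exact (h0 _ h1).2 _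
    simpa only [mul_zero, zero_smul, add_zero] using this
  have key := k1.trans (setLIntegral_mono' measurableSet_ball k2)
  rw [setLIntegral_const, mul_right_comm] at key
  calc ∫⁻ y in ball x (2 * r), ENNReal.ofReal (w y ^ p)
      = (volume (ball (5 / 12 : ℂ) (1 / 12)))⁻¹ * (volume (ball (5 / 12 : ℂ) (1 / 12)) *
          ∫⁻ y in ball x (2 * r), ENNReal.ofReal (w y ^ p)) := by
        rw [← mul_assoc, ENNReal.inv_mul_cancel hA0 hA1, one_mul]
    _ ≤ _ := by
        rw [mul_assoc, mul_assoc, ← mul_assoc C]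
        exact mul_le_mul_right key _

theorem bpt3b_wirt (T : E N →L[ℝ] ℂ) (w : E N) :
    ∑ a, w a * ((T (Pi.single a 1) - Complex.I * T (Pi.single a Complex.I)) / 2) =
      (T w - Complex.I * T (Complex.I • w)) / 2 ∧
    ∑ a, star (w a) * ((T (Pi.single a 1) + Complex.I * T (Pi.single a Complex.I)) / 2) =
      (T w + Complex.I * T (Complex.I • w)) / 2 := by
  have h1 := fderiv_eq_wirt T 0 w
  have h2 := fderiv_eq_wirt T 0 (Complex.I • w)
  simp only [dz, dzb, T.fderiv] at h1 h2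
  rw [h1, h2, Finset.mul_sum, ← Finset.sum_sub_distrib, ← Finset.sum_add_distrib, Finset.sum_div,
    Finset.sum_div]
  constructor <;> refine Finset.sum_congr rfl fun a _ => ?_ <;>
    simp only [Pi.smul_apply, smul_eq_mul, star_mul', Complex.star_def, Complex.conj_I]
  · generalize (T (Pi.single a 1) - Complex.I * T (Pi.single a Complex.I)) / 2 = x
    generalize (T (Pi.single a 1) + Complex.I * T (Pi.single a Complex.I)) / 2 = y
    linear_combination (w a * x - (starRingEnd ℂ) (w a) * y) / 2 * Complex.I_mul_I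
  · generalize (T (Pi.single a 1) - Complex.I * T (Pi.single a Complex.I)) / 2 = x
    generalize (T (Pi.single a 1) + Complex.I * T (Pi.single a Complex.I)) / 2 = y
    linear_combination (-(w a * x) + (starRingEnd ℂ) (w a) * y) / 2 * Complex.I_mul_I

theorem bpt3b_lev {u : E N → ℝ} {y : E N} (hu : ContDiffAt ℝ ∞ u y) (w : E N) :
    Lv u y w = 4 * hr (lev u y) w := by
  have hG := ablev_re hu
  have h2 : ContDiffAt ℝ 2 u y := hu.of_le (by norm_cast)
  have hB : ∀ v v', fderiv ℝ (fderiv ℝ fun x => (u x : ℂ)) y v v' =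
      (fderiv ℝ (fderiv ℝ u) y v v' : ℝ) := fun v v' => by
    have e : (fderiv ℝ fun x => (u x : ℂ)) =ᶠ[𝓝 y]
        fun x => ContinuousLinearMap.compL ℝ (E N) ℝ ℂ Complex.ofRealCLM (fderiv ℝ u x) := by
      filter_upwards [ABK.abc_d1 h2] with x hx
      exact (Complex.ofRealCLM.hasFDerivAt.comp x hx).fderiv
    have d : HasFDerivAt (fun x => ContinuousLinearMap.compL ℝ (E N) ℝ ℂ Complex.ofRealCLM
        (fderiv ℝ u x)) _ y :=
      (ContinuousLinearMap.compL ℝ (E N) ℝ ℂ Complex.ofRealCLM).hasFDerivAt.comp y (ABK.abc_d2 h2)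
    rw [e.fderiv_eq, d.fderiv]
    rfl
  set B := fderiv ℝ (fderiv ℝ fun x => (u x : ℂ)) y with hBd
  let S : E N →L[ℝ] ℂ := (2 : ℂ)⁻¹ • (B.flip w + Complex.I • B.flip (Complex.I • w))
  have hS : ∀ v, S v = (B v w + Complex.I * B v (Complex.I • w)) / 2 := fun v => by
    simp only [S, _root_.smul_apply, _root_.add_apply, ContinuousLinearMap.flip_apply, smul_eq_mul]
    ring
  have e1 : hq (lev u y) w w = (S w - Complex.I * S (Complex.I • w)) / 2 := by
    rw [hq_sum_eq, ← (bpt3b_wirt S w).1]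
    refine Finset.sum_congr rfl fun a _ => ?_
    rw [hS, hS, ← (bpt3b_wirt _ w).2, ← (bpt3b_wirt _ w).2, Finset.mul_sum,
      ← Finset.sum_sub_distrib, Finset.sum_div, Finset.mul_sum]
    refine Finset.sum_congr rfl fun b _ => ?_
    rw [lev_apply, dz, (ablev_fd hG b _).2, (ablev_fd hG b _).2]
    ring
  rw [hr, e1, hS, hS, hB, hB, hB, hB, Lv, D2, D2]
  simp
  ring

theorem lap_line {u : E N → ℝ} {z w : E N} {ζ : ℂ} (hu : ContDiffAt ℝ ∞ u (z + ζ • w)) :
    lap (fun s => u (z + s • w)) ζ = 4 * hr (lev u (z + ζ • w)) w := by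
  have h2 : ContDiffAt ℝ 2 u (z + ((1 : ℂ) * ζ) • w) := by
    rw [one_mul]
    exact hu.of_le (by norm_cast)
  have h1 := bpt3b_line (1 : ℂ) h2
  simp only [one_mul, one_smul] at h1
  rw [← bpt3a_lap, h1, bpt3b_lev hu]

theorem sub_mean {u : E N → ℝ} {z : E N} {r R : ℝ} (h0 : 0 < r) (hR : r < R)
    (hu : ContDiffOn ℝ ∞ u (ball z R)) (h : ∀ y ∈ ball z R, ∀ v, 0 ≤ hr (lev u y) v) :
    volume.real (ball z r) * u z ≤ ∫ y in ball z r, u y := by
  have hc : ContinuousOn u (ball z r) := hu.continuousOn.mono (ball_subset_ball hR.le)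
  have hi : IntegrableOn u (ball z r) volume :=
    ((hu.continuousOn.mono (closedBall_subset_ball hR)).integrableOn_compact
      (isCompact_closedBall z r)).mono_set ball_subset_closedBall
  have hint : Integrable (Function.uncurry fun (t : ℝ) (w : E N) => u (abmv_rot z t w))
      ((volume.restrict (Ioc 0 (2 * Real.pi))).prod (volume.restrict (ball z r))) := by
    have hcont : Continuous fun p : ℝ × E N => abmv_rot z p.1 p.2 := by
      unfold abmv_rot
      fun_prop
    have hmeas : AEStronglyMeasurable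
        (Function.uncurry fun (t : ℝ) (w : E N) => u (abmv_rot z t w))
        ((volume.restrict (Ioc 0 (2 * Real.pi))).prod (volume.restrict (ball z r))) := by
      rw [Measure.prod_restrict]
      refine ContinuousOn.aestronglyMeasurable ?_ (measurableSet_Ioc.prod measurableSet_ball)
      refine hc.comp hcont.continuousOn fun p hp => ?_
      have := hp.2
      rwa [← abmv_pre z p.1 r] at this
    rw [integrable_prod_iff hmeas]
    refine ⟨Eventually.of_forall fun t => (abmv_mpb z t r).integrable_comp_of_integrable hi, ?_⟩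
    have : (fun t : ℝ => ∫ w in ball z r, ‖u (abmv_rot z t w)‖) =
        fun _ => ∫ w in ball z r, ‖u w‖ :=
      funext fun t => (abmv_mpb z t r).integral_comp (abmv_emb z t) fun w => ‖u w‖
    simp only [Function.uncurry_apply_pair]
    rw [this]
    exact integrable_const _
  have hsw := integral_integral_swap hint
  have h1 : (fun t : ℝ => ∫ w in ball z r, u (abmv_rot z t w)) = fun _ => ∫ w in ball z r, u w :=
    funext fun t => (abmv_mpb z t r).integral_comp (abmv_emb z t) u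
  have hπ : 0 < 2 * Real.pi := by positivity
  rw [h1, setIntegral_const, Real.volume_real_Ioc_of_le hπ.le, sub_zero, smul_eq_mul] at hsw
  have h2 : ∀ w ∈ ball z r, 2 * Real.pi * u z ≤ ∫ t in Ioc 0 (2 * Real.pi), u (abmv_rot z t w) := by
    intro w hw
    have hw' : ‖w - z‖ < r := by rwa [mem_ball, dist_eq_norm] at hw
    have hin : ∀ s ∈ ball (0 : ℂ) (R / r), z + s • (w - z) ∈ ball z R := fun s hs => by
      rw [mem_ball_zero_iff, lt_div_iff₀ h0] at hs
      rw [mem_ball, dist_eq_norm, add_sub_cancel_left, norm_smul]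
      nlinarith [norm_nonneg s, norm_nonneg (w - z)]
    have hl : ContDiff ℝ ∞ fun s : ℂ => z + s • (w - z) :=
      contDiff_const.add (contDiff_id.smul contDiff_const)
    have h3 : ContDiffOn ℝ ∞ (fun s : ℂ => u (z + s • (w - z))) (ball 0 (R / r)) :=
      hu.comp hl.contDiffOn hin
    have key := super_mean (w := fun s : ℂ => 0 + -1 * u (z + s • (w - z))) one_pos
      ((one_lt_div h0).2 hR) (contDiffOn_const.add (contDiffOn_const.mul h3)) fun s hs => by
        rw [← bpt3a_lap, ABK.Lv_lin ((h3.contDiffAt (isOpen_ball.mem_nhds hs)).of_le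
          (by norm_cast)), bpt3a_lap, lap_line (hu.contDiffAt (isOpen_ball.mem_nhds (hin s hs)))]
        linarith [h _ (hin s hs) (w - z)]
    simp only [zero_add, neg_one_mul, zero_smul, add_zero, intervalIntegral.integral_neg] at key
    rw [intervalIntegral.integral_of_le hπ.le] at key
    unfold abmv_rot
    linarith
  have h3 := setIntegral_mono_on (μ := volume) (integrableOn_const measure_ball_lt_top.ne)
    hint.integral_prod_right measurableSet_ball h2
  rw [setIntegral_const, smul_eq_mul] at h3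
  refine le_of_mul_le_mul_left ?_ hπ
  rw [hsw, mul_left_comm]
  exact h3

theorem lp (N p : ℕ) {r : ℝ} (h0 : 0 < r) : ∃ C : ℝ, 0 < C ∧ ∀ (u : E N → ℝ) (z : E N),
    ContDiffOn ℝ ∞ u (ball z (8 * r)) →
    (∀ y ∈ ball z (8 * r), u y ≤ 0 ∧ ∀ v, 0 ≤ hr (lev u y) v) →
    ∫ y in ball z (2 * r), |u y| ^ p ≤ C * (1 + |u z|) ^ p := by
  rcases Nat.eq_zero_or_pos p with rfl | hp
  · refine ⟨volume.real (ball (0 : E N) (2 * r)) + 1, by positivity, fun u z _ _ => ?_⟩
    simp [measureReal_def, Measure.addHaar_ball_center]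
  obtain ⟨C, hC, H⟩ := bpt3b_pos N hp
  have hB : C * volume (ball (0 : E N) (4 * r)) ≠ ⊤ := ENNReal.mul_ne_top hC measure_ball_lt_top.ne
  refine ⟨(C * volume (ball (0 : E N) (4 * r))).toReal + 1, by positivity, fun u z hu h => ?_⟩
  have h2 : ContDiffOn ℝ 2 u (ball z (8 * r)) := hu.of_le (by norm_cast)
  have key := H z r (fun y => 1 + -1 * u y) (contDiffOn_const.add (contDiffOn_const.mul h2))
    fun y hy => ⟨by linarith [(h y hy).1], fun v => by
      rw [ABK.Lv_lin (h2.contDiffAt (isOpen_ball.mem_nhds hy)), Lv_lev isOpen_ball hu hy]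
      linarith [(h y hy).2 v]⟩
  have hi : IntegrableOn (fun y => |u y| ^ p) (ball z (2 * r)) volume :=
    (((hu.continuousOn.mono (closedBall_subset_ball (by linarith))).abs.pow p).integrableOn_compact
      (isCompact_closedBall z (2 * r))).mono_set ball_subset_closedBall
  have h4 : ENNReal.ofReal (∫ y in ball z (2 * r), |u y| ^ p) ≤
      ENNReal.ofReal ((C * volume (ball (0 : E N) (4 * r))).toReal * (1 + |u z|) ^ p) := by
    rw [ofReal_integral_eq_lintegral_ofReal hi (Eventually.of_forall fun y => by positivity),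
      ENNReal.ofReal_mul ENNReal.toReal_nonneg, ENNReal.ofReal_toReal hB,
      abs_of_nonpos (h z (mem_ball_self (by linarith))).1]
    refine le_trans (setLIntegral_mono' measurableSet_ball fun y hy => ?_)
      (key.trans (le_of_eq (by rw [neg_one_mul])))
    have h3 := (h y (ball_subset_ball (by linarith) hy)).1
    rw [abs_of_nonpos h3]
    exact ENNReal.ofReal_le_ofReal (pow_le_pow_left₀ (by linarith) (by linarith) p)
  rw [ENNReal.ofReal_le_ofReal_iff (by positivity)] at h4
  have h5 : 0 ≤ (1 + |u z|) ^ p := by positivity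
  linarith

end Pool.Agent.BP
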