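import Pool.Agent.P.MP_63735c_ag.ZBHyp
import Pool.Agent.K.MP_63735c_ag.C213
import Pool.Agent.K.MP_63735c_ag.C214
import Pool.Agent.K.MP_63735c_ag.C184

/-! A point of the resolution, seen from the regular part. -/

open scoped ComplexOrder ContDiff Matrix Topology ENNReal
open Set Metric MeasureTheory Filter

namespace Pool.Agent.ZB

open Pool.Agent.BP Pool.Agent.SPF Pool.Agent.AB Pool.Agent.CK Pool.Agent.SE Pool.Agent.NL

variable {N : ℕ} {X : Type} [TopologicalSpace X] {A : Atlas X N} {L : Line A}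

/-- A ball in which the chart `i` is dense and to which `σ` and the metric of `L` extend. -/
structure Pt (L : Line A) where
  i : A.ι
  z₀ : E N
  r : ℝ
  ψ : E N → ℝ
  s : E N → Mat N
  r_pos : 0 < r
  dense : ball z₀ r ⊆ closure (A.C i).W
  cpt : ∀ C, IsCompact C → IsCompact (closedBall z₀ r ∩ dom A C i)
  ψ_smooth : ContDiffOn ℝ ∞ ψ (ball z₀ (2 * r))
  ψ_eq : EqOn ψ (L.ψ i) (A.C i).W
  s_hol : ∀ a b, DifferentiableOn ℂ (fun z => s z a b) (ball z₀ (2 * r))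
  s_eq : EqOn s (A.C i).σ (A.C i).W

/-- The points of `X` near `P`. -/
noncomputable def Pt.fil (P : Pt L) : Filter X := map (A.p P.i) (𝓝[(A.C P.i).W] P.z₀)

/-- Finitely many small balls cover `X`. -/
def Cov (L : Line A) : Prop :=
  ∀ ρ : Pt L → ℝ, (∀ P, 0 < ρ P) → ∃ t : Set (Pt L), t.Finite ∧
    ∀ x, ∃ P ∈ t, ∃ z ∈ ball P.z₀ (ρ P) ∩ (A.C P.i).W, A.p P.i z = x

namespace Pt

variable (P : Pt L) {W : Set X} {ψ : X → ℝ}

theorem lev_eq {z : E N} (hz : z ∈ (A.C P.i).W) : lev P.ψ z = (A.C P.i).η z := by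
  have h : P.ψ =ᶠ[𝓝 z] L.ψ P.i :=
    P.ψ_eq.eventuallyEq_of_mem ((A.C P.i).isOpen.mem_nhds hz)
  rw [(lev_congr h).self_of_nhds]
  exact Matrix.ext fun a b => L.curv P.i z hz a b

theorem det_hol : DifferentiableOn ℂ (fun z => (P.s z).det) (ball P.z₀ (2 * P.r)) := by
  simp only [Matrix.det_apply, Units.smul_def]
  refine DifferentiableOn.fun_sum fun τ _ => DifferentiableOn.const_smul ?_ _
  intro x hx
  exact (HasFDerivAt.finsetProd fun a _ => ((P.s_hol (τ a) a).differentiableAt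
    (isOpen_ball.mem_nhds hx)).hasFDerivAt).differentiableAt.differentiableWithinAt

theorem bds : ∃ B : ℝ, 0 < B ∧ ∀ z ∈ closedBall P.z₀ P.r ∩ (A.C P.i).W,
    ‖((A.C P.i).σ z).det‖ ≤ B ∧ |L.ψ P.i z| ≤ B ∧
      (∀ v, hr ((A.C P.i).η z) v ≤ B * ‖v‖ ^ 2) ∧
      ∀ a b, ‖((A.C P.i).σ z).adjugate a b‖ ≤ B := by
  have hs : closedBall P.z₀ P.r ⊆ ball P.z₀ (2 * P.r) :=
    closedBall_subset_ball (by linarith [P.r_pos])
  have hc := isCompact_closedBall P.z₀ P.r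
  have hm : Continuous ((closedBall P.z₀ P.r).domRestrict P.s) := continuous_matrix fun a b =>
    ((P.s_hol a b).continuousOn.mono hs).domRestrict
  obtain ⟨B₁, h1⟩ := hc.exists_bound_of_continuousOn (P.det_hol.continuousOn.mono hs)
  obtain ⟨B₂, h2⟩ := hc.exists_bound_of_continuousOn (P.ψ_smooth.continuousOn.mono hs)
  obtain ⟨B₃, h0, h3⟩ := bppolx_bd (h := lev P.ψ) hc fun a b =>
    (lev_smooth isOpen_ball P.ψ_smooth a b).continuousOn.mono hs
  obtain ⟨B₄, h4⟩ := hc.exists_bound_of_continuousOn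
    (f := fun z => fun q : Fin N × Fin N => (P.s z).adjugate q.1 q.2)
    (continuousOn_pi.2 fun q => continuousOn_iff_continuous_domRestrict.2
      (hm.matrix_adjugate.matrix_elem q.1 q.2))
  have p1 := abs_nonneg B₁
  have p2 := abs_nonneg B₂
  have p4 := abs_nonneg B₄
  have p3 : 0 ≤ B₃ * N := by positivity
  refine ⟨|B₁| + |B₂| + B₃ * N + |B₄| + 1, by positivity, fun z hz => ⟨?_, ?_, fun v => ?_,
    fun a b => ?_⟩⟩
  · have := h1 z hz.1
    rw [P.s_eq hz.2] at this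
    linarith [le_abs_self B₁]
  · have := h2 z hz.1
    rw [P.ψ_eq hz.2, Real.norm_eq_abs] at this
    linarith [le_abs_self B₂]
  · have h5 := h3 z hz.1 v
    rw [P.lev_eq hz.2] at h5
    have h6 := mul_le_mul_of_nonneg_left (BP.nsq_le v).2 h0
    nlinarith [sq_nonneg ‖v‖]
  · have := (norm_le_pi_norm _ (a, b)).trans (h4 z hz.1)
    simp only [P.s_eq hz.2] at this
    linarith [le_abs_self B₄]

theorem denseW (hW : Dense W) : ball P.z₀ P.r ⊆ closure (dom A W P.i) := by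
  refine P.dense.trans (closure_minimal (fun z hz => ?_) isClosed_closure)
  refine mem_closure_iff.2 fun O hO hzO => ?_
  obtain ⟨_, ⟨w, hw, rfl⟩, hx⟩ := hW.inter_open_nonempty _
    (A.opn P.i _ (hO.inter (A.C P.i).isOpen) inter_subset_right) ⟨_, z, ⟨hzO, hz⟩, rfl⟩
  exact ⟨w, hw.1, hw.2, hx⟩

theorem neBot (hW : Dense W) : (P.fil ⊓ 𝓟 W).NeBot := by
  have h := mem_closure_iff_nhdsWithin_neBot.1 (P.denseW hW (mem_ball_self P.r_pos))
  refine (h.map (A.p P.i)).mono (le_inf (map_mono (nhdsWithin_mono _ inter_subset_left)) ?_)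
  exact le_principal_iff.2 (mem_map.2 (mem_of_superset self_mem_nhdsWithin inter_subset_right))

variable [T2Space X] [PreconnectedSpace X]

theorem pol' (h : PolX A W ψ) {R : ℝ} (hR : 0 < R) (hle : R ≤ P.r) :
    ∃ ψ' : E N → ℝ, Pol P.z₀ R (ball P.z₀ R ∩ dom A W P.i) ψ' ∧
      ∀ z ∈ ball P.z₀ R ∩ dom A W P.i, |ψ (A.p P.i z)| ≤ |ψ' z| := by
  obtain ⟨M, hM, hpsh⟩ := h.psh
  obtain ⟨B, hB0, hη⟩ := P.bds
  have hsub : ball P.z₀ R ⊆ closedBall P.z₀ P.r :=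
    ball_subset_closedBall.trans (closedBall_subset_closedBall hle)
  have hn : ∀ z : E N, ∀ᶠ w in 𝓝 z, DifferentiableAt ℂ (fun w : E N => w - P.z₀) w :=
    fun z => Eventually.of_forall fun w => differentiableAt_id.sub_const _
  have hneg : ∀ z ∈ ball P.z₀ R, M * B * nsq (z - P.z₀) + -(M * B * (N * P.r ^ 2)) ≤ 0 := by
    intro z hz'
    have h1 : ‖z - P.z₀‖ ≤ P.r := mem_closedBall_iff_norm.1 (hsub hz')
    have h2 : nsq (z - P.z₀) ≤ N * P.r ^ 2 := (BP.nsq_le _).2.trans (by gcongr)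
    have h3 := mul_le_mul_of_nonneg_left h2 (mul_nonneg hM hB0.le)
    linarith
  have hs : ∀ z, ContDiffAt ℝ ∞ (fun w => M * B * nsq (w - P.z₀)) z :=
    fun z => contDiffAt_const.mul (lev_nsq (hn z)).1
  refine ⟨fun z => ψ (A.p P.i z) + (M * B * nsq (z - P.z₀) + -(M * B * (N * P.r ^ 2))),
    ⟨isOpen_ball.inter ((A.cont _).isOpen_inter_preimage (A.C _).isOpen h.isOpen),
      inter_subset_left, fun z hz' => ((h.smooth _ z hz'.2.1 hz'.2.2).add
        ((hs z).add contDiffAt_const)).contDiffWithinAt, fun z hz' => ?_, fun z hz' v => ?_,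
      fun c z hz' hcl => ⟨hz', ?_⟩, ?_⟩, fun z hz' => ?_⟩
  · have := h.le _ hz'.2.2
    have := hneg z hz'.1
    linarith
  · have h1 := hpsh _ z hz'.2.1 hz'.2.2 v
    have h2 := (lev_nsq (hn z)).2.2.2 v
    rw [fderiv_sub_const, fderiv_fun_id] at h2
    have h3 := mul_le_mul_of_nonneg_left (((hη z ⟨hsub hz'.1, hz'.2.1⟩).2.2.1 v).trans
      (mul_le_mul_of_nonneg_left (BP.nsq_le v).1 hB0.le)) hM
    rw [hr, lev_add (h.smooth _ z hz'.2.1 hz'.2.2) ((hs z).add contDiffAt_const),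
      lev_add (hs z) contDiffAt_const, lev_const, add_zero, lev_smul (lev_nsq (hn z)).1, hq_add,
      hq_smul, Complex.add_re, Complex.re_ofReal_mul]
    simp only [hr, ContinuousLinearMap.id_apply] at h1 h2 h3
    rw [h2]
    linarith
  · have h1 := (P.cpt _ (h.cpt c)).isClosed.closure_subset_iff.2 Subset.rfl
      (closure_mono (fun y hy => ?_) hcl)
    · exact ⟨h1.2.1, h1.2.2.1⟩
    · have := hneg y hy.1.1
      have := hy.2
      exact ⟨hsub hy.1.1, hy.1.2.1, hy.1.2.2, by linarith⟩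
  · obtain ⟨z, h1, h2⟩ := mem_closure_iff.1 (P.denseW h.dense (mem_ball_self P.r_pos)) _
      isOpen_ball (mem_ball_self (by linarith : 0 < R / 16))
    exact ⟨z, ⟨ball_subset_ball (by linarith) h1, h2⟩, h1⟩
  · have h1 := h.le _ hz'.2.2
    have h2 := hneg z hz'.1
    rw [abs_of_nonpos (by linarith), abs_of_nonpos (by linarith)]
    linarith

theorem pol (h : PolX A W ψ) {R : ℝ} (h0 : 0 < R) (hR : R ≤ P.r) :
    ∃ ψ' : E N → ℝ, Pol P.z₀ R (ball P.z₀ R ∩ dom A W P.i) ψ' := by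
  obtain ⟨ψ', h1, -⟩ := P.pol' h h0 hR
  exact ⟨ψ', h1⟩

theorem null (h : PolX A W ψ) : volume (ball P.z₀ (P.r / 16) \ dom A W P.i) = 0 := by
  obtain ⟨ψ', h1⟩ := P.pol h P.r_pos le_rfl
  exact measure_mono_null (sdiff_subset_sdiff_right inter_subset_right) h1.null

end Pt

theorem polX_null [T2Space X] [PreconnectedSpace X] [MeasurableSpace X] [BorelSpace X]
    {μ : Measure X} (hμ : IsVolume A μ) (hc : Cov L) {W : Set X} {ψ : X → ℝ} (h : PolX A W ψ) :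
    μ Wᶜ = 0 := by
  obtain ⟨t, ht, h1⟩ := hc (fun P => P.r / 16) fun P => by linarith [P.r_pos]
  refine measure_mono_null (t := ⋃ P ∈ t, A.p P.i '' ((ball P.z₀ (P.r / 16) ∩ (A.C P.i).W) \
    dom A W P.i)) (fun x hx => ?_) ((measure_biUnion_null_iff ht.countable).2 fun P _ => ?_)
  · obtain ⟨P, hP, z, hz, rfl⟩ := h1 x
    exact mem_biUnion hP ⟨z, ⟨hz, fun h' => hx h'.2⟩, rfl⟩
  · have ho : IsOpen (dom A W P.i) := (A.cont _).isOpen_inter_preimage (A.C _).isOpen h.isOpen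
    rw [hμ P.i _ (sdiff_subset.trans inter_subset_right)
      ((measurableSet_ball.inter (A.C _).isOpen.measurableSet).diff ho.measurableSet)]
    exact setLIntegral_measure_zero _ _
      (measure_mono_null (sdiff_subset_sdiff_left inter_subset_left) (P.null h))

variable {Y : Type} [TopologicalSpace Y] {Z : Res L Y}

theorem Full.mem (h : Full Z) {i : A.ι} {w : E N} (hw : w ∈ Z.W (Z.c i)) {x : X}
    (e : Z.p (Z.c i) w = Z.j x) : w ∈ (A.C i).W ∧ A.p i w = x := by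
  have h1 := h.full i w hw ⟨x, e.symm⟩
  exact ⟨h1, Z.j_inj ((Z.p_eq i w h1).symm.trans e)⟩

theorem Full.pre (h : Full Z) {i : A.ι} {O : Set (E N)} (hO : O ⊆ Z.W (Z.c i)) :
    Z.j ⁻¹' (Z.p (Z.c i) '' O) = A.p i '' (O ∩ (A.C i).W) := by
  ext x
  constructor
  · rintro ⟨w, hw, e⟩
    exact ⟨w, ⟨hw, (h.mem (hO hw) e).1⟩, (h.mem (hO hw) e).2⟩
  · rintro ⟨w, hw, rfl⟩
    exact ⟨w, hw.1, Z.p_eq i w hw.2⟩

theorem Full.pt' [T2Space Y] (h : Full Z) {i : A.ι} {w : E N} (hw : w ∈ Z.W (Z.c i)) :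
    ∃ P : Pt L, P.i = i ∧ P.z₀ = w ∧ closedBall P.z₀ (2 * P.r) ⊆ Z.W (Z.c P.i) := by
  obtain ⟨ε, h0, hB⟩ := nhds_basis_closedBall.mem_iff.1 ((Z.isOpen _).mem_nhds hw)
  obtain ⟨s, h1, h2⟩ := h.σ_ext i
  have e : 2 * (ε / 2) = ε := by ring
  have hb : ball w (2 * (ε / 2)) ⊆ Z.W (Z.c i) := e.symm ▸ ball_subset_closedBall.trans hB
  have hc : closedBall w (ε / 2) ⊆ Z.W (Z.c i) :=
    (closedBall_subset_closedBall (by linarith)).trans hB
  refine ⟨⟨i, w, ε / 2, Z.ψ (Z.c i), s, by linarith, fun z hz => ?_, fun C hC => ?_,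
    (Z.ψ_smooth _).mono hb, fun z hz => (Z.ψ_res i z hz).symm, fun a b => (h1 a b).mono hb, h2⟩,
    rfl, rfl, e.symm ▸ hB⟩
  · refine mem_closure_iff.2 fun O hO hzO => ?_
    obtain ⟨x, v, hv, e'⟩ := Z.j_dense.exists_mem_open
      (Z.opn _ _ (hO.inter (Z.isOpen (Z.c i))) inter_subset_right)
      ⟨_, z, ⟨hzO, hc (ball_subset_closedBall hz)⟩, rfl⟩
    exact ⟨v, hv.1, (h.mem hv.2 e').1⟩
  · have h3 := ((Z.cont _).mono hc).preimage_isClosed_of_isClosed isClosed_closedBall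
      (hC.image Z.j_cont).isClosed
    suffices e' : closedBall w (ε / 2) ∩ dom A C i = closedBall w (ε / 2) ∩ Z.p (Z.c i) ⁻¹' (Z.j '' C) from
      e' ▸ (isCompact_closedBall w (ε / 2)).of_isClosed_subset h3 inter_subset_left
    refine Set.ext fun z => and_congr_right fun hz => ⟨fun h4 => ⟨_, h4.2, (Z.p_eq i z h4.1).symm⟩, ?_⟩
    rintro ⟨x, hx, e'⟩
    have h5 := h.mem (hc hz) e'.symm
    exact ⟨h5.1, by rw [mem_preimage, h5.2]; exact hx⟩

theorem Full.pt [T2Space Y] (h : Full Z) (y : Y) : ∃ P : Pt L, Z.p (Z.c P.i) P.z₀ = y ∧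
    closedBall P.z₀ (2 * P.r) ⊆ Z.W (Z.c P.i) := by
  obtain ⟨i, w, hw, rfl⟩ := h.cover y
  obtain ⟨P, h1, h2, h3⟩ := h.pt' hw
  subst h1 h2
  exact ⟨P, rfl, h3⟩

/-- The finite cover, with points that come from `Y`. -/
theorem Full.cov' [T2Space Y] [CompactSpace Y] (h : Full Z) (ρ : Pt L → ℝ) (h0 : ∀ P, 0 < ρ P) :
    ∃ t : Set (Pt L), t.Finite ∧ (∀ P ∈ t, closedBall P.z₀ (2 * P.r) ⊆ Z.W (Z.c P.i)) ∧
      ∀ y, ∃ P ∈ t, ∃ w ∈ ball P.z₀ (min (ρ P) P.r), Z.p (Z.c P.i) w = y := by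
  choose P hP hs using h.pt
  have hb : ∀ y, ball (P y).z₀ (min (ρ (P y)) (P y).r) ⊆ Z.W (Z.c (P y).i) := fun y =>
    (ball_subset_closedBall.trans (closedBall_subset_closedBall
      ((min_le_right _ _).trans (by linarith [(P y).r_pos])))).trans (hs y)
  obtain ⟨t, -, ht⟩ := isCompact_univ.elim_nhds_subcover
    (fun y => Z.p (Z.c (P y).i) '' ball (P y).z₀ (min (ρ (P y)) (P y).r)) fun y _ =>
      (Z.opn _ _ isOpen_ball (hb y)).mem_nhds
        ⟨_, mem_ball_self (lt_min (h0 _) (P y).r_pos), hP y⟩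
  refine ⟨P '' t, t.finite_toSet.image P, ?_, fun y => ?_⟩
  · rintro _ ⟨y, -, rfl⟩
    exact hs y
  · obtain ⟨x, hx, w, hw, e⟩ := mem_iUnion₂.1 (ht (mem_univ y))
    exact ⟨P x, ⟨x, hx, rfl⟩, w, hw, e⟩

theorem Full.cov [T2Space Y] [CompactSpace Y] (h : Full Z) : Cov L := by
  intro ρ h0
  obtain ⟨t, ht, h1, h2⟩ := h.cov' ρ h0
  refine ⟨t, ht, fun x => ?_⟩
  obtain ⟨P, hP, w, hw, e⟩ := h2 (Z.j x)
  have h3 := h.mem (h1 P hP (ball_subset_closedBall.trans (closedBall_subset_closedBall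
    ((min_le_right _ _).trans (by linarith [P.r_pos]))) hw)) e
  exact ⟨P, hP, w, ⟨ball_subset_ball (min_le_left _ _) hw, h3.1⟩, h3.2⟩

/-- A bound that holds near every point of `Y` holds on `X`. -/
theorem Full.unif [T2Space Y] [CompactSpace Y] (h : Full Z) (Q : ℝ → X → Prop)
    (hm : ∀ C C' x, C ≤ C' → Q C x → Q C' x)
    (hl : ∀ i, ∀ w ∈ Z.W (Z.c i), ∃ C, ∀ᶠ z in 𝓝 w, z ∈ (A.C i).W → Q C (A.p i z)) :
    ∃ C, 0 < C ∧ ∀ x, Q C x := by
  have h1 : ∀ y : Y, ∃ C, ∀ᶠ y' in 𝓝 y, ∀ x, Z.j x = y' → Q C x := fun y => by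
    obtain ⟨i, w, hw, rfl⟩ := h.cover y
    obtain ⟨C, hC⟩ := hl i w hw
    obtain ⟨O, h2, h3, h4⟩ := _root_.eventually_nhds_iff.1 (hC.and ((Z.isOpen _).mem_nhds hw))
    refine ⟨C, mem_of_superset ((Z.opn _ O h3 fun z hz => (h2 z hz).2).mem_nhds ⟨w, h4, rfl⟩) ?_⟩
    rintro _ ⟨z, hz, rfl⟩ x e
    have h5 := h.mem (h2 z hz).2 e.symm
    exact h5.2 ▸ (h2 z hz).1 h5.1
  choose C hC using h1
  obtain ⟨t, -, ht⟩ := isCompact_univ.elim_nhds_subcover _ fun y _ => hC y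
  refine ⟨∑ y ∈ t, |C y| + 1, by positivity, fun x => ?_⟩
  obtain ⟨y, hy, h2⟩ := mem_iUnion₂.1 (ht (mem_univ (Z.j x)))
  refine hm _ _ x ?_ (h2 x rfl)
  have := Finset.single_le_sum (f := fun y => |C y|) (fun y _ => abs_nonneg _) hy
  linarith [le_abs_self (C y)]

end Pool.Agent.ZB
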