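import Pool.Agent.K.MP_63735c_ag.C216

/-! The contraction of the curvature with the Kähler form. -/

open scoped ComplexOrder ContDiff Matrix Topology ENNReal
open Set Metric MeasureTheory Filter

namespace Pool.Agent.BP

open Pool.Agent.SPF Pool.Agent.AB Pool.Agent.CK Pool.Agent.SE Pool.Agent.NL

variable {N n : ℕ} {X : Type} [TopologicalSpace X] {A : Atlas X N} {K : Form11 A} {L : Line A}

/-- The (2,0)-form obtained from `η` and `K` by contraction with the conjugate bivector. -/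
noncomputable def gam (K : Form11 A) (i : A.ι) (z : E N) : Mat N :=
  (A.C i).η z * ((A.C i).σ z)⁻¹.map star * (K.h i z)ᵀ +
    K.h i z * ((A.C i).σ z)⁻¹.map star * ((A.C i).η z)ᵀ

theorem bpb11_skew {C : Chart N} {z : E N} (hz : z ∈ C.W) :
    ((C.σ z)⁻¹.map star)ᵀ = -(C.σ z)⁻¹.map star := by
  ext a b
  have h := congrArg star (Chart.π_skew hz b a)
  rw [star_neg] at h
  exact h

theorem bpb11_π {C C' : Chart N} {O : Set (E N)} {φ : E N → E N} (h : IsChange C C' O φ) {z : E N}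
    (hz : z ∈ O) : (C'.σ (φ z))⁻¹.map star =
      (jac φ z).map star * (C.σ z)⁻¹.map star * ((jac φ z).map star)ᵀ := by
  have h3 : (jac φ z)ᵀ * (C'.σ (φ z) * jac φ z * C.π z) = 1 := by
    rw [← Chart.σ_mul_π (h.sub hz), h.σ_eq z hz]
    simp only [Matrix.mul_assoc]
  have h2 : (C'.σ (φ z))⁻¹ = jac φ z * (C.σ z)⁻¹ * (jac φ z)ᵀ := by
    refine Matrix.inv_eq_right_inv ?_
    rw [← mul_eq_one_comm.1 h3]
    simp only [Matrix.mul_assoc, Chart.π]
  have h1 : ∀ P Q : Mat N, (P * Q).map star = P.map star * Q.map star :=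
    fun P Q => Matrix.map_mul (f := starRingEnd ℂ)
  rw [h2, h1, h1]
  rfl

/-- One half of `gam`. -/
noncomputable def bpb11_g (K : Form11 A) (i : A.ι) (b c : Fin N) (z : E N) : ℂ :=
  ∑ f, ∑ e, (A.C i).η z b e * star ((A.C i).π z e f) * K.h i z c f

theorem bpb11_eq (K : Form11 A) (i : A.ι) {z : E N} (hz : z ∈ (A.C i).W) (b c : Fin N) :
    gam K i z b c = bpb11_g K i b c z - bpb11_g K i c b z := by
  have h : K.h i z * ((A.C i).σ z)⁻¹.map star * ((A.C i).η z)ᵀ =
      -((A.C i).η z * ((A.C i).σ z)⁻¹.map star * (K.h i z)ᵀ)ᵀ := by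
    rw [Matrix.transpose_mul, Matrix.transpose_mul, bpb11_skew hz, Matrix.transpose_transpose,
      Matrix.neg_mul, Matrix.mul_neg, neg_neg, Matrix.mul_assoc]
  rw [gam, h, Matrix.add_apply, Matrix.neg_apply, Matrix.transpose_apply, sub_eq_add_neg]
  simp only [Matrix.mul_apply, Finset.sum_mul]
  rfl

theorem bpb11_smooth (K : Form11 A) (i : A.ι) (b c : Fin N) :
    ContDiffOn ℝ ∞ (bpb11_g K i b c) (A.C i).W :=
  ContDiffOn.sum fun f _ => ContDiffOn.sum fun e _ =>
    (((A.C i).η_smooth b e).mul (reg_star ((A.C i).reg_π e f))).mul (K.smooth i c f)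

theorem gam_is20 (K : Form11 A) : Is20 A (gam K) := by
  refine ⟨fun i a b => ((bpb11_smooth K i a b).sub (bpb11_smooth K i b a)).congr
    fun z hz => bpb11_eq K i hz a b, fun i z hz => ?_, fun i j O φ h hp z hz => ?_⟩
  · ext a b
    rw [Matrix.transpose_apply, Matrix.neg_apply, bpb11_eq K i hz, bpb11_eq K i hz, neg_sub]
  · rw [gam, gam, bpb11_π h hz, h.η_eq z hz, K.compat i j O φ h hp z hz]
    simp only [Matrix.transpose_mul, Matrix.transpose_transpose, Matrix.mul_add, Matrix.add_mul,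
      Matrix.mul_assoc]

theorem bpb11_dz (K : Form11 A) (i : A.ι) {z : E N} (hz : z ∈ (A.C i).W) (a b c : Fin N) :
    dz a (bpb11_g K i b c) z =
      ∑ f, ∑ e, dz a (fun w => (A.C i).η w b e) z * star ((A.C i).π z e f) * K.h i z c f +
        ∑ f, ∑ e, (A.C i).η z b e * star ((A.C i).π z e f) * dz a (fun w => K.h i w c f) z := by
  have ho := (A.C i).isOpen
  have d1 := fun e => diffAt ho ((A.C i).η_smooth b e) hz
  have d2 := fun e f => diffAt ho (reg_star ((A.C i).reg_π e f)) hz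
  have d3 := fun f => diffAt ho (K.smooth i c f) hz
  have d4 := fun e f => ((d1 e).fun_mul (d2 e f)).fun_mul (d3 f)
  refine (dz_sum _ (fun f _ => DifferentiableAt.fun_sum fun e _ => d4 e f) a).1.trans ?_
  rw [← Finset.sum_add_distrib]
  refine Finset.sum_congr rfl fun f _ => ?_
  rw [(dz_sum _ (fun e _ => d4 e f) a).1, ← Finset.sum_add_distrib]
  refine Finset.sum_congr rfl fun e _ => ?_
  rw [(dz_mul ((d1 e).fun_mul (d2 e f)) (d3 f) a).1, (dz_mul (d1 e) (d2 e f) a).1,
    ← (star_dz _ z a).2, (dz_of_diff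
      (((A.C i).π_hol e f).differentiableAt (ho.mem_nhds hz)) a).2, star_zero, mul_zero, add_zero]

theorem gam_closed (K : Form11 A) (i : A.ι) {z : E N} (hz : z ∈ (A.C i).W) (a b c : Fin N) :
    dz a (fun w => gam K i w b c) z + dz b (fun w => gam K i w c a) z +
      dz c (fun w => gam K i w a b) z = 0 := by
  have ho := (A.C i).isOpen
  have h : ∀ a b c, dz a (fun w => gam K i w b c) z =
      dz a (bpb11_g K i b c) z - dz a (bpb11_g K i c b) z := by
    intro a b c
    rw [← (dz_sub (diffAt ho (bpb11_smooth K i b c) hz) (diffAt ho (bpb11_smooth K i c b) hz) a).1]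
    refine (dz_congr ?_ a).self_of_nhds
    filter_upwards [ho.mem_nhds hz] with w hw using bpb11_eq K i hw b c
  simp only [h, bpb11_dz K i hz, (A.C i).η_closed z hz a _ b, (A.C i).η_closed z hz a _ c,
    (A.C i).η_closed z hz b _ c, K.closed i z hz a _ b, K.closed i z hz a _ c,
    K.closed i z hz b _ c]
  ring

open scoped MatrixOrder in
theorem bpb11_tr {P Q : Mat N} (hP : P.PosDef) (hQ : Q.PosSemidef) (h : (P * Q).trace = 0) :
    Q = 0 := by
  obtain ⟨B, rfl⟩ := CStarAlgebra.nonneg_iff_eq_star_mul_self.mp hP.posSemidef.nonneg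
  have hB : IsUnit B := isUnit_of_mul_isUnit_right hP.isUnit
  rw [Matrix.mul_assoc, Matrix.trace_mul_comm] at h
  have h1 := (hQ.mul_mul_conjTranspose_same B).trace_eq_zero_iff.1 h
  exact hB.mul_right_eq_zero.1 (hB.star.mul_left_eq_zero.1 h1)

theorem bpb11_trace (K : Form11 A) (i : A.ι) {z : E N} (hz : z ∈ (A.C i).W) :
    -((A.C i).π z * gam K i z).trace = ((A.C i).G z * (K.h i z)ᵀ).trace +
      ((A.C i).π z * K.h i z * ((A.C i).π z)ᴴ * ((A.C i).η z)ᵀ).trace := by
  have h : ((A.C i).π z)ᴴ = -((A.C i).σ z)⁻¹.map star := bpb11_skew hz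
  rw [gam, Chart.G, h]
  simp only [Matrix.mul_add, Matrix.trace_add, Matrix.mul_neg, Matrix.neg_mul, Matrix.trace_neg,
    Matrix.mul_assoc, neg_add]

theorem exists_beta [T2Space X] [CompactSpace X] [MeasurableSpace X] [BorelSpace X]
    {μ : Measure X} (hinj : ∀ i, InjOn (A.p i) (A.C i).W) (hμ : IsVolume A μ)
    (hK : ∀ i, ∀ z ∈ (A.C i).W, (K.h i z).PosDef) (h2 : H02 A)
    (hη : ∃ i, ∃ z ∈ (A.C i).W, (A.C i).η z ≠ 0) :
    ∃ (a : ℝ) (β : A.ι → E N → E N), 0 < a ∧ Is10 A β ∧ ∀ i, ∀ z ∈ (A.C i).W, ∀ b c,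
      dz b (fun w => β i w c) z - dz c (fun w => β i w b) z =
        gam K i z b c + a * (A.C i).σ z b c := by
  have := vol_finite hμ
  have := vol_pos hμ
  obtain ⟨c, β, hβ, h3⟩ := h2 (gam K) (gam_is20 K) fun i z hz => gam_closed K i hz
  obtain ⟨u, hu, hu'⟩ := div_exists hinj hβ
  have h0 := div_zero hinj hμ hβ hu'
  have h4 : ∀ i, ∀ z ∈ (A.C i).W, -(c * N + 2 * u (A.p i z)) =
      -((A.C i).π z * gam K i z).trace := by
    intro i z hz
    have e1 : ∑ a, ∑ b, (A.C i).π z a b * (A.C i).σ z b a = N := by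
      have h5 := congrArg Matrix.trace (Chart.π_mul_σ hz)
      rw [Matrix.trace_one, Fintype.card_fin] at h5
      exact h5
    have e2 : ∑ a, ∑ b, (A.C i).π z a b * dz b (fun w => β i w a) z = u (A.p i z) :=
      Finset.sum_comm.trans (hu' i z hz).symm
    have e3 : ∑ a, ∑ b, (A.C i).π z a b * dz a (fun w => β i w b) z = -u (A.p i z) := by
      rw [hu' i z hz]
      simp only [← Finset.sum_neg_distrib]
      exact Finset.sum_congr rfl fun a _ => Finset.sum_congr rfl fun b _ => by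
        rw [Chart.π_skew hz a b, neg_mul]
        rfl
    have e4 : ((A.C i).π z * gam K i z).trace =
        c * ∑ a, ∑ b, (A.C i).π z a b * (A.C i).σ z b a +
          ∑ a, ∑ b, (A.C i).π z a b * dz b (fun w => β i w a) z -
          ∑ a, ∑ b, (A.C i).π z a b * dz a (fun w => β i w b) z := by
      simp only [Matrix.trace, Matrix.diag_apply, Matrix.mul_apply, h3 i z hz, Finset.mul_sum,
        ← Finset.sum_add_distrib, ← Finset.sum_sub_distrib]
      exact Finset.sum_congr rfl fun a _ => Finset.sum_congr rfl fun b _ => by ring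
    rw [e4, e1, e2, e3]
    ring
  have hP : ∀ i, ∀ z ∈ (A.C i).W, ((A.C i).π z * K.h i z * ((A.C i).π z)ᴴ).PosDef :=
    fun i z hz => (hK i z hz).mul_mul_conjTranspose_same (Matrix.vecMul_injective_iff_isUnit.2
      (IsUnit.of_mul_eq_one _ (Chart.π_mul_σ hz)))
  have p1 := fun i z hz => abalg_trace (Chart.G_psd hz) (hK i z hz).posSemidef.transpose
  have p2 := fun i z hz => abalg_trace (hP i z hz).posSemidef ((A.C i).η_psd z hz).transpose
  have h5 : ∀ x, 0 ≤ -(c * N + 2 * u x) := fun x => by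
    obtain ⟨i, z, hz, rfl⟩ := A.cover x
    rw [h4 i z hz, bpb11_trace K i hz]
    exact add_nonneg (p1 i z hz) (p2 i z hz)
  have h6 : ∀ x, (((-(c * N + 2 * u x)).re : ℝ) : ℂ) = -(c * N + 2 * u x) := fun x =>
    Complex.ext rfl (Complex.nonneg_iff.1 (h5 x)).2
  have hc : Continuous fun x => (-(c * N + 2 * u x)).re := by fun_prop
  obtain ⟨i₀, z₀, hz₀, hne⟩ := hη
  have h7 : 0 < ∫ x, (-(c * N + 2 * u x)).re ∂μ := by
    refine hc.integral_pos_of_hasCompactSupport_nonneg_nonzero (x := A.p i₀ z₀)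
      (HasCompactSupport.of_compactSpace _) (fun x => (Complex.nonneg_iff.1 (h5 x)).1) fun e => ?_
    have e1 := h6 (A.p i₀ z₀)
    rw [e, h4 i₀ z₀ hz₀, bpb11_trace K i₀ hz₀, Complex.ofReal_zero, eq_comm,
      add_eq_zero_iff_of_nonneg (p1 i₀ z₀ hz₀) (p2 i₀ z₀ hz₀)] at e1
    exact hne (Matrix.transpose_eq_zero.1
      (bpb11_tr (hP i₀ z₀ hz₀) ((A.C i₀).η_psd z₀ hz₀).transpose e1.2))
  have hi := hu.integrable_of_hasCompactSupport (μ := μ) (HasCompactSupport.of_compactSpace _)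
  have h8 : ((∫ x, (-(c * N + 2 * u x)).re ∂μ : ℝ) : ℂ) = -c * (N * μ.real univ : ℝ) := by
    rw [← integral_complex_ofReal]
    refine (integral_congr_ae (Eventually.of_forall h6)).trans ?_
    rw [integral_neg, integral_add (integrable_const _) (hi.const_mul 2), integral_const,
      integral_const_mul, h0, Complex.real_smul]
    push_cast
    ring
  have h9 : (N * μ.real univ : ℝ) ≠ 0 := fun e => by
    rw [e, Complex.ofReal_zero, mul_zero, Complex.ofReal_eq_zero] at h8
    exact h7.ne' h8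
  refine ⟨_ / (N * μ.real univ), β, div_pos h7 (lt_of_le_of_ne (by positivity) h9.symm), hβ,
    fun i z hz a b => ?_⟩
  rw [Complex.ofReal_div, h8, mul_div_cancel_right₀ _ (Complex.ofReal_ne_zero.2 h9), h3 i z hz]
  ring

end Pool.Agent.BP
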