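import Pool.Agent.K.MP_63735c_ag.C27
import Pool.Agent.K.MP_63735c_ag.C52
import Pool.Agent.K.MP_63735c_ag.C164
import Pool.Agent.K.MP_63735c_ag.C24
import Pool.Agent.P.MP_63735c_ag.SELine

/-! Data on the dense open set of compact regular orbits (objects of the proof). -/

open scoped ComplexOrder ContDiff Matrix Topology ENNReal
open Set Metric MeasureTheory Filter

namespace Pool.Agent.BP

open Pool.Agent.SPF Pool.Agent.CL Pool.Agent.NL Pool.Agent.CK Pool.Agent.AB Pool.Agent.SE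

/-- The functions `φ, ψ, G` on the open set `W` of full measure. -/
structure Up {N : ℕ} {X : Type} [TopologicalSpace X] [MeasurableSpace X] (A : Atlas X N)
    (μ : Measure X) (L : Line A) where
  hinj : ∀ i, InjOn (A.p i) (A.C i).W
  m : ℕ
  s : A.ι → E N → ℂ
  W : Set X
  hW : IsOpen W
  φ : X → ℝ
  ψ : X → ℝ
  G : X → ℝ
  M : ℝ
  m_pos : 1 ≤ m
  sec : L.IsSection m s
  null : μ Wᶜ = 0
  φ_eq : ∀ i, ∀ z ∈ (A.C i).W, A.p i z ∈ W →
    Real.exp (-φ (A.p i z)) = ‖s i z‖ ^ 2 * Real.exp (-(m * L.ψ i z))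
  M_nonneg : 0 ≤ M
  ψ_smo : (man A hinj hW).Smo ψ
  ψ_le : ∀ y ∈ W, ψ y ≤ -1
  ψ_lev : ∀ i, ∀ z ∈ (A.C i).W, A.p i z ∈ W → ∀ v,
    -(M * (hq ((A.C i).η z) v v).re) ≤ (hq (lev (fun y => ψ (A.p i y)) z) v v).re
  ψ_cpt : ∀ c, IsCompact {y | y ∈ W ∧ c ≤ ψ y}
  G_smo : (man A hinj hW).Smo G
  G_le : ∀ y ∈ W, G y ≤ 0
  G_lev : ∀ i, ∀ z ∈ (A.C i).W, A.p i z ∈ W → ∀ v,
    0 ≤ (hq ((A.C i).η z) v v).re + (hq (lev (fun y => G (A.p i y)) z) v v).re
  G_int : ∀ k : ℕ, IntegrableOn (fun y => Real.exp (-(k * G y))) W μ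

variable {N : ℕ} {X : Type} [TopologicalSpace X] [MeasurableSpace X] {A : Atlas X N}
  {μ : Measure X} {L : Line A} {U : Up A μ L} {x : X}

/-- The manifold `W`. -/
abbrev Up.D (U : Up A μ L) : Man X N := man A U.hinj U.hW

/-- The semipositive form `η + lev G`. -/
noncomputable def Up.th (U : Up A μ L) (i : A.ι) (z v : E N) : ℝ :=
  (hq ((A.C i).η z) v v).re + (hq (lev (fun y => U.G (A.p i y)) z) v v).re

/-- The exhaustion `log (-ψ)`. -/
noncomputable def Up.l (U : Up A μ L) (y : X) : ℝ := Real.log (-U.ψ y)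

/-- The slow exhaustion `log (1 + log (-ψ))`. -/
noncomputable def Up.l2 (U : Up A μ L) (y : X) : ℝ := Real.log (1 + U.l y)

/-- Coordinates `F` and a frame `w` near a limit of orbits through `x`. -/
structure UG (U : Up A μ L) (x : X) where
  M : ℕ
  O : Set X
  F : X → E M
  a : E M
  δ : ℝ
  C : ℝ
  w : X → ℂ
  d : ℕ
  c : ℝ
  isOpen : IsOpen O
  sub : O ⊆ U.W
  δ_pos : 0 < δ
  C_pos : 0 < C
  F_hol : ∀ i, DifferentiableOn ℂ (fun z => F (A.p i z)) ((A.C i).W ∩ A.p i ⁻¹' O)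
  closed : ∀ y ∈ U.W, y ∉ O → ∀ᶠ y' in 𝓝 y, y' ∈ O → δ < ‖F y' - a‖
  dF : ∀ i, ∀ z ∈ (A.C i).W, A.p i z ∈ O → ∀ v,
    ‖fderiv ℂ (fun y => F (A.p i y)) z v‖ ^ 2 ≤ C * U.th i z v
  w_hol : ∀ i, DifferentiableOn ℂ (fun z => w (A.p i z)) ((A.C i).W ∩ A.p i ⁻¹' O)
  d_pos : 1 ≤ d
  c_pos : 0 < c
  w_bd : ∀ y ∈ O, c ≤ ‖w y‖ ^ 2 * Real.exp (-(d * U.φ y)) ∧
    ‖w y‖ ^ 2 * Real.exp (-(d * U.φ y)) ≤ C
  near : ∀ ε > 0, ∃ᶠ y in 𝓝 x, y ∈ O ∧ ‖F y - a‖ < ε

/-- The truncation: `s` for `s ≤ -1`, zero for `0 ≤ s`. -/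
noncomputable def rho (s : ℝ) : ℝ := s * Real.smoothTransition (-s)

namespace UG

variable (H : UG U x)

/-- The scale. -/
noncomputable def τ : ℝ := H.δ ^ 2 / 4

/-- The squared distance to `c`. -/
noncomputable def t (c : E H.M) (y : X) : ℝ := nsq (H.F y - c)

/-- The truncated logarithmic weight. -/
noncomputable def lam (c : E H.M) (ε : ℝ) : X → ℝ :=
  H.O.indicator fun y => rho (Real.log ((H.t c y + ε) / H.τ))

/-- The total weight. -/
noncomputable def Φ (j k γ : ℕ) (ε : ℝ) (y : X) : ℝ :=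
  j * U.φ y + k * U.G y + γ * H.lam H.a ε y + (1 + U.l y)⁻¹

/-- The cut off frame. -/
noncomputable def sR (e : ℕ) (R : ℝ) : X → ℂ :=
  H.O.indicator fun y => ((Real.smoothTransition (R + 1 - U.l2 y) *
    Real.smoothTransition (2 - 2 * H.t H.a y / H.τ) : ℝ) : ℂ) * H.w y ^ e

theorem τ_pos : 0 < H.τ := by
  have := H.δ_pos
  unfold τ
  positivity

end UG

theorem norm_sq_le_nsq {M : ℕ} (v : E M) : ‖v‖ ^ 2 ≤ nsq v := by
  have h0 : 0 ≤ nsq v := Finset.sum_nonneg fun _ _ => sq_nonneg _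
  have h : ‖v‖ ≤ √(nsq v) := (pi_norm_le_iff_of_nonneg (Real.sqrt_nonneg _)).2 fun k =>
    Real.le_sqrt_of_sq_le (Finset.single_le_sum (f := fun k => ‖v k‖ ^ 2)
      (fun _ _ => sq_nonneg _) (Finset.mem_univ k))
  simpa [Real.sq_sqrt h0] using pow_le_pow_left₀ (norm_nonneg v) h 2

theorem nsq_le_norm_sq {M : ℕ} (v : E M) : nsq v ≤ M * ‖v‖ ^ 2 := by
  calc nsq v ≤ ∑ _k : Fin M, ‖v‖ ^ 2 := Finset.sum_le_sum fun k _ =>
        pow_le_pow_left₀ (norm_nonneg _) (norm_le_pi_norm v k) 2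
    _ = _ := by simp

theorem Up.pot (U : Up A μ L) : Pot A U.hinj U.hW U.m U.φ := by
  have key : ∀ i, ∀ z ∈ U.D.W i, ContDiffAt ℝ ∞ (fun y => U.φ (A.p i y)) z ∧
      lev (fun y => U.φ (A.p i y)) z = ((U.m : ℝ) : ℂ) • (A.C i).η z := by
    intro i z hz
    have hn := (U.D.isOpen i).mem_nhds hz
    have hne : ∀ y ∈ U.D.W i, U.s i y ≠ 0 := fun y hy e => by
      have := U.φ_eq i y hy.1 hy.2
      rw [e] at this
      simp at this
    have hfa : ∀ᶠ y in 𝓝 z, DifferentiableAt ℂ (U.s i) y := by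
      filter_upwards [hn] with y hy using
        (U.sec.1 i).differentiableAt ((A.C i).isOpen.mem_nhds hy.1)
    obtain ⟨l1, l2⟩ := lev_log_norm hfa (hne z hz)
    have hψ : ContDiffAt ℝ ∞ (L.ψ i) z :=
      (L.ψ_smooth i).contDiffAt ((A.C i).isOpen.mem_nhds hz.1)
    have he : (fun y => U.φ (A.p i y)) =ᶠ[𝓝 z]
        fun y => (U.m : ℝ) * L.ψ i y + (-2) * Real.log ‖U.s i y‖ := by
      filter_upwards [hn] with y hy
      have := congrArg Real.log (U.φ_eq i y hy.1 hy.2)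
      rw [Real.log_exp, Real.log_mul (pow_ne_zero _ (norm_ne_zero_iff.2 (hne y hy)))
        (Real.exp_ne_zero _), Real.log_exp, Real.log_pow] at this
      push_cast at this
      linarith
    have s1 : ContDiffAt ℝ ∞ (fun y => (U.m : ℝ) * L.ψ i y) z := contDiffAt_const.mul hψ
    have s2 : ContDiffAt ℝ ∞ (fun y => (-2) * Real.log ‖U.s i y‖) z := contDiffAt_const.mul l1
    have hl : lev (L.ψ i) z = (A.C i).η z := Matrix.ext fun a b => L.curv i z hz.1 a b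
    refine ⟨(s1.add s2).congr_of_eventuallyEq he, ?_⟩
    rw [(lev_congr he).self_of_nhds, lev_add s1 s2, lev_smul hψ, lev_smul l1, l2, hl, smul_zero,
      add_zero]
  exact ⟨fun i z hz => (key i z hz).1.contDiffWithinAt, fun i z hz => (key i z hz).2⟩

omit [MeasurableSpace X] in
theorem bpe0_det (i : A.ι) : ContinuousOn (fun z => ‖((A.C i).σ z).det‖) (A.C i).W := by
  refine ContinuousOn.norm ?_
  simp only [Matrix.det_apply]
  exact continuousOn_finsetSum _ fun s _ =>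
    (continuousOn_finsetProd _ fun a _ => ((A.C i).σ_hol _ _).continuousOn).const_smul _

/-- Integrals over a part of a chart. -/
theorem vol_lint [BorelSpace X] (hinj : ∀ i, InjOn (A.p i) (A.C i).W) (hμ : IsVolume A μ)
    {i : A.ι} {S : Set (E N)} (hS : MeasurableSet S) (h : S ⊆ (A.C i).W) (f : X → ℝ≥0∞) :
    ∫⁻ y in A.p i '' S, f y ∂μ =
      ∫⁻ z in S, ENNReal.ofReal ‖((A.C i).σ z).det‖ * f (A.p i z) := by
  let Ψ₀ : A.ι → E N → ℝ := fun i z => (-1) * Real.log ‖((A.C i).σ z).det‖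
  have hw₀ : ∀ i, ∀ z ∈ (A.C i).W, wt (Ψ₀ i) z = ‖((A.C i).σ z).det‖ := by
    intro i z hz
    simp only [wt, Ψ₀, neg_mul, one_mul, neg_neg]
    exact Real.exp_log (norm_pos_iff.2 ((A.C i).σ_det z hz))
  have hd₀ : (man A hinj isOpen_univ).Den μ Ψ₀ := by
    intro i S hS hm
    refine (hμ i S (hS.trans inter_subset_left) hm).trans
      (setLIntegral_congr_fun hm fun z hz => ?_)
    rw [hw₀ i z (hS hz).1, ofReal_norm]
  refine (hd₀.lint (i := i) (fun z hz => (contDiffAt_const.mul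
    (abd_det (A.C i) hz.1).1).continuousAt.continuousWithinAt) hS
      (fun z hz => ⟨h hz, mem_univ _⟩) f).trans (setLIntegral_congr_fun hS fun z hz => ?_)
  simp only [hw₀ i z (h hz)]
  rfl

omit [MeasurableSpace X] in
/-- Bounds on a compact part of a chart. -/
theorem cpt_bds (L : Line A) {i : A.ι} {S : Set (E N)} (hS : IsCompact S) (h : S ⊆ (A.C i).W) :
    ∃ c B : ℝ, 0 < c ∧ 0 < B ∧ ∀ z ∈ S, c ≤ ‖((A.C i).σ z).det‖ ∧ |L.ψ i z| ≤ B ∧
      ∀ v, (hq ((A.C i).η z) v v).re ≤ B * ‖v‖ ^ 2 := by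
  obtain ⟨c, hc, h1⟩ := hS.exists_forall_le' (a := 0) ((bpe0_det i).mono h)
    fun z hz => norm_pos_iff.2 ((A.C i).σ_det z (h hz))
  obtain ⟨B₁, h2⟩ := hS.exists_bound_of_continuousOn ((L.ψ_smooth i).continuousOn.mono h)
  obtain ⟨B₂, hB, h3⟩ := cpt_upper (h := (A.C i).η) hS
    fun a b => ((A.C i).η_smooth a b).continuousOn.mono h
  refine ⟨c, |B₁| + B₂, hc, by positivity, fun z hz => ⟨h1 z hz, ?_, fun v => ?_⟩⟩
  · have := h2 z hz
    rw [Real.norm_eq_abs] at this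
    linarith [le_abs_self B₁]
  · have := (Complex.re_le_norm _).trans (h3 z hz v v).1
    nlinarith [abs_nonneg B₁, sq_nonneg ‖v‖]

/-- The complement of `W` is null in every chart. -/
theorem Up.null_chart [BorelSpace X] (U : Up A μ L) (hμ : IsVolume A μ) (i : A.ι) :
    volume ((A.C i).W \ A.p i ⁻¹' U.W) = 0 := by
  have hm : MeasurableSet ((A.C i).W \ A.p i ⁻¹' U.W) := by
    rw [← sdiff_self_inter]
    exact (A.C i).isOpen.measurableSet.diff (U.D.isOpen i).measurableSet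
  have h1 := hμ i _ sdiff_subset hm
  rw [measure_mono_null (by rintro _ ⟨z, hz, rfl⟩; exact hz.2) U.null] at h1
  have h2 : AEMeasurable (fun z => ‖((A.C i).σ z).det‖ₑ)
      (volume.restrict ((A.C i).W \ A.p i ⁻¹' U.W)) := by
    simp only [← ofReal_norm]
    exact (((bpe0_det i).mono sdiff_subset).aemeasurable hm).ennreal_ofReal
  have h3 := (lintegral_eq_zero_iff' h2).1 h1.symm
  rw [← Measure.restrict_eq_zero, ← Measure.measure_univ_eq_zero]
  refine measure_mono_null (fun z _ => ?_) (ae_iff.1 (h3.and (ae_restrict_mem hm)))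
  exact fun h => (A.C i).σ_det z h.2.1 (by simpa using h.1)

theorem Up.dense_chart [BorelSpace X] (U : Up A μ L) (hμ : IsVolume A μ) (i : A.ι) :
    (A.C i).W ⊆ closure (U.D.W i) := by
  intro z hz
  refine mem_closure_iff_nhds.2 fun t ht => by_contra fun hne => ?_
  refine (Measure.measure_pos_of_mem_nhds volume
    (inter_mem ht ((A.C i).isOpen.mem_nhds hz))).ne' (measure_mono_null ?_ (U.null_chart hμ i))
  exact fun y hy => ⟨hy.2, fun h => hne ⟨y, hy.1, hy.2, h⟩⟩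

/-- A function on `O` that vanishes where `F` is far from `a` extends by zero. -/
theorem UG.ind (H : UG U x) {V : Type} [Zero V] {h : X → V}
    (h0 : ∀ y ∈ H.O, H.δ < ‖H.F y - H.a‖ → h y = 0) {i : A.ι} {z : E N} (hz : z ∈ U.D.W i) :
    (A.p i z ∈ H.O ∧ (∀ᶠ y in 𝓝 z, y ∈ (A.C i).W ∧ A.p i y ∈ H.O) ∧
      (fun y => H.O.indicator h (A.p i y)) =ᶠ[𝓝 z] fun y => h (A.p i y)) ∨
    (A.p i z ∉ H.O ∧ (fun y => H.O.indicator h (A.p i y)) =ᶠ[𝓝 z] fun _ => 0) := by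
  have hn := (A.C i).isOpen.mem_nhds hz.1
  have hc : ContinuousAt (A.p i) z := (A.cont i).continuousAt hn
  by_cases hO : A.p i z ∈ H.O
  · have h1 := hc.eventually (H.isOpen.mem_nhds hO)
    exact Or.inl ⟨hO, (Filter.eventually_mem_set.2 hn).and h1,
      h1.mono fun y hy => indicator_of_mem hy _⟩
  · exact Or.inr ⟨hO, (hc.eventually (H.closed _ hz.2 hO)).mono fun y hy =>
      indicator_apply_eq_zero.2 fun h => h0 _ h (hy h)⟩

theorem bpe0_nsq {M : ℕ} : ContDiff ℝ ∞ (nsq : E M → ℝ) := by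
  unfold nsq
  exact ContDiff.sum fun k _ => (contDiff_apply ℝ ℂ k).norm_sq ℝ

theorem bpe0_dr {M : ℕ} (w v : E M) : v ⬝ᵥ dr nsq w = ∑ k, v k * star (w k) := by
  refine Finset.sum_congr rfl fun k _ => congrArg (v k * ·) ?_
  have h1 : HasFDerivAt (fun y : E M => ((nsq y : ℝ) : ℂ)) _ w :=
    Complex.ofRealCLM.hasFDerivAt.comp w (HasFDerivAt.fun_sum (u := Finset.univ)
      fun l _ => (ContinuousLinearMap.proj (R := ℝ) (φ := fun _ : Fin M => ℂ) l).hasFDerivAt.norm_sq)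
  rw [dr, dz, h1.fderiv]
  simp [Pi.single_apply, apply_ite, Finset.sum_ite_eq']
  apply Complex.ext <;> simp <;> ring

/-- Smoothness, gradient and Levi form of the squared distance. -/
theorem UG.t_calc (H : UG U x) (c : E H.M) {i : A.ι} {z : E N} (hz : z ∈ (A.C i).W)
    (hO : A.p i z ∈ H.O) : ContDiffAt ℝ ∞ (fun y => H.t c (A.p i y)) z ∧ ∀ v,
      ‖v ⬝ᵥ dr (fun y => H.t c (A.p i y)) z‖ ^ 2 ≤
        H.t c (A.p i z) * (hq (lev (fun y => H.t c (A.p i y)) z) v v).re ∧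
      0 ≤ (hq (lev (fun y => H.t c (A.p i y)) z) v v).re ∧
      (hq (lev (fun y => H.t c (A.p i y)) z) v v).re ≤ H.M * H.C * U.th i z v := by
  have ho : IsOpen ((A.C i).W ∩ A.p i ⁻¹' H.O) :=
    (A.cont i).isOpen_inter_preimage (A.C i).isOpen H.isOpen
  have hd : ∀ᶠ y in 𝓝 z, DifferentiableAt ℂ (fun y => H.F (A.p i y) - c) y := by
    filter_upwards [ho.mem_nhds ⟨hz, hO⟩] with y hy using
      ((H.F_hol i).differentiableAt (ho.mem_nhds hy)).sub_const c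
  refine ⟨bpe0_nsq.contDiffAt.comp z (smoothAt_of_hol hd), fun v => ?_⟩
  have e1 : (hq (lev (fun y => H.t c (A.p i y)) z) v v).re =
      nsq (fderiv ℂ (fun y => H.F (A.p i y)) z v) := by
    have h1 := lev_comp (f := nsq) bpe0_nsq.contDiffAt hd
    have h2 := Lv_lev isOpen_univ (bpe0_nsq (M := H.M)).contDiffOn
      (mem_univ (H.F (A.p i z) - c)) (fderiv ℂ (fun y => H.F (A.p i y)) z v)
    rw [Lv_nsq] at h2
    unfold UG.t
    rw [h1, hq_conj, jac_mulVec, fderiv_sub_const]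
    linarith
  have e2 : v ⬝ᵥ dr (fun y => H.t c (A.p i y)) z =
      ∑ k, fderiv ℂ (fun y => H.F (A.p i y)) z v k * star ((H.F (A.p i z) - c) k) := by
    have h1 := dr_comp (f := nsq) (bpe0_nsq.differentiable (by simp) _) hd.self_of_nhds
    unfold UG.t
    rw [h1, dotProduct_comm, ← Matrix.dotProduct_mulVec, dotProduct_comm, jac_mulVec,
      fderiv_sub_const, bpe0_dr]
  rw [e1, e2]
  refine ⟨?_, Finset.sum_nonneg fun _ _ => sq_nonneg _, (nsq_le_norm_sq _).trans ?_⟩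
  · refine (pow_le_pow_left₀ (norm_nonneg _) (norm_sum_le _ _) 2).trans ?_
    simp only [norm_mul, norm_star]
    rw [mul_comm]
    exact Finset.sum_mul_sq_le_sq_mul_sq _ _ _
  · rw [mul_assoc]
    exact mul_le_mul_of_nonneg_left (H.dF i z hz hO v) (Nat.cast_nonneg _)

end Pool.Agent.BP
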