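import Pool.Agent.K.MP_63735c_ag.C211
import Pool.Agent.K.MP_63735c_ag.C215
import Pool.Agent.K.MP_63735c_ag.C217
import Pool.Agent.K.MP_63735c_ag.C218

/-! The divergence theorem near a point of the resolution. -/

open scoped ComplexOrder ContDiff Matrix Topology ENNReal
open Set Metric MeasureTheory Filter

namespace Pool.Agent.ZB

open Pool.Agent.BP Pool.Agent.SPF Pool.Agent.AB Pool.Agent.CK Pool.Agent.SE Pool.Agent.NL

variable {N : ℕ} {X : Type} [TopologicalSpace X] [T2Space X] [PreconnectedSpace X]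
  [MeasurableSpace X] [BorelSpace X] {A : Atlas X N} {μ : Measure X} {K : Form11 A} {L : Line A}
  {W : Set X} {ψ : X → ℝ}

theorem zbb11d_dv (C : Chart N) {β : E N → E N} {O : Set (E N)} (hO : IsOpen O) (h : O ⊆ C.W)
    (hβ : ContDiffOn ℝ ∞ β O) :
    ContDiffOn ℝ ∞ (fun w a => ∑ b, (C.σ w)⁻¹ b a * (‖(C.σ w).det‖ : ℝ) * β w b) O ∧
      ∀ z ∈ O, dv (fun w a => ∑ b, (C.σ w)⁻¹ b a * (‖(C.σ w).det‖ : ℝ) * β w b) z =
        ∑ a, ∑ b, (C.σ z)⁻¹ b a * (‖(C.σ z).det‖ : ℝ) * dz a (fun w => β w b) z := by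
  have s1 : ∀ a b, ContDiffOn ℝ ∞ (fun w => (C.σ w)⁻¹ b a * (‖(C.σ w).det‖ : ℝ)) O :=
    fun a b => ((C.reg_π b a).mul (bpt13_nrm C)).mono h
  have s2 : ∀ b, ContDiffOn ℝ ∞ (fun w => β w b) O := contDiffOn_pi.1 hβ
  refine ⟨contDiffOn_pi.2 fun a => ContDiffOn.sum fun b _ => (s1 a b).mul (s2 b), fun z hz => ?_⟩
  have d1 := fun a b => diffAt hO (s1 a b) hz
  have d2 := fun b => diffAt hO (s2 b) hz
  have h1 : ∑ a, ∑ b, dz a (fun w => (C.σ w)⁻¹ b a * (‖(C.σ w).det‖ : ℝ)) z * β z b = 0 := by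
    rw [Finset.sum_comm]
    simp only [← Finset.sum_mul, div_pi C (h hz), zero_mul, Finset.sum_const_zero]
  change ∑ a, dz a (fun w => ∑ b, (C.σ w)⁻¹ b a * (‖(C.σ w).det‖ : ℝ) * β w b) z = _
  simp only [fun a => (dz_sum Finset.univ (fun b _ => (d1 a b).fun_mul (d2 b)) a).1,
    fun a b => (dz_mul (d1 a b) (d2 b) a).1, Finset.sum_add_distrib, h1, zero_add]

theorem zbb11d_adj {M : Mat N} (h : M.det ≠ 0) (a b : Fin N) :
    ‖M⁻¹ a b * (‖M.det‖ : ℝ)‖ = ‖M.adjugate a b‖ := by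
  have h1 := norm_ne_zero_iff.2 h
  rw [Matrix.inv_def, Matrix.smul_apply, Ring.inverse_eq_inv', smul_eq_mul, norm_mul, norm_mul,
    norm_inv, Complex.norm_real, norm_norm]
  field_simp

theorem zbb11d_bd {F : Type} [NormedAddCommGroup F] {f : E N → F} {O C : Set (E N)}
    (hC : IsCompact C) (h : C ⊆ O) (hf : ContinuousOn f O) (h0 : ∀ z ∈ O, z ∉ C → f z = 0) :
    ∃ B : ℝ, 0 ≤ B ∧ ∀ z ∈ O, ‖f z‖ ≤ B := by
  obtain ⟨B, hB⟩ := hC.exists_bound_of_continuousOn (hf.mono h)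
  refine ⟨max B 0, le_max_right _ _, fun z hz => ?_⟩
  by_cases hz' : z ∈ C
  · exact (hB z hz').trans (le_max_left _ _)
  · rw [h0 z hz hz', norm_zero]
    exact le_max_right _ _

/-- A form that is supported near `P` and extends smoothly to the ball. -/
theorem Pt.div_zero (hinj : ∀ i, InjOn (A.p i) (A.C i).W) (hμ : IsVolume A μ) (hP : PolX A W ψ)
    (P : Pt L) {r : ℝ} (h0 : 0 < r) (hr' : r ≤ P.r) {β : E N → E N}
    (hβ : ContDiffOn ℝ ∞ β (ball P.z₀ r)) (hs : ∀ z ∉ closedBall P.z₀ (r / 64), β z = 0)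
    {u : X → ℂ} (hu : ∀ z ∈ ball P.z₀ r ∩ (A.C P.i).W,
      u (A.p P.i z) = bpt13_dv (A.C P.i) β z) :
    IntegrableOn u (A.p P.i '' (ball P.z₀ (r / 16) ∩ (A.C P.i).W)) μ ∧
      ∫ x in A.p P.i '' (ball P.z₀ (r / 16) ∩ (A.C P.i).W), u x ∂μ = 0 := by
  obtain ⟨ψ', hp⟩ := P.pol hP h0 hr'
  obtain ⟨B, hB0, hB⟩ := P.bds
  have hO : IsOpen (ball P.z₀ r ∩ (A.C P.i).W) := isOpen_ball.inter (A.C P.i).isOpen
  obtain ⟨hV, hdv⟩ := zbb11d_dv (A.C P.i) hO inter_subset_right (hβ.mono inter_subset_left)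
  set V : E N → E N := fun w a =>
    ∑ b, ((A.C P.i).σ w)⁻¹ b a * (‖((A.C P.i).σ w).det‖ : ℝ) * β w b with hVd
  have hc : closedBall P.z₀ (r / 64) ⊆ ball P.z₀ r := closedBall_subset_ball (by linarith)
  have s2 : ∀ b, ContDiffOn ℝ ∞ (fun w => β w b) (ball P.z₀ r) := contDiffOn_pi.1 hβ
  have z2 : ∀ a b, ∀ z ∈ ball P.z₀ r, z ∉ closedBall P.z₀ (r / 64) →
      dz a (fun w => β w b) z = 0 := fun a b z hz hz' =>
    (dz_zero_off isOpen_ball isClosed_closedBall (fun w _ hw => by rw [hs w hw]; rfl) a z hz hz').1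
  obtain ⟨B1, hB1, b1⟩ := zbb11d_bd (isCompact_closedBall _ _) hc hβ.continuousOn
    fun z _ hz => hs z hz
  obtain ⟨B2, hB2, b2⟩ := zbb11d_bd (f := fun z a b => dz a (fun w => β w b) z)
    (isCompact_closedBall _ _) hc (continuousOn_pi.2 fun a => continuousOn_pi.2 fun b =>
      (dz_smooth isOpen_ball (s2 b) a).1.continuousOn)
    fun z hz hz' => funext fun a => funext fun b => z2 a b z hz hz'
  have b3 : ∀ z ∈ ball P.z₀ r ∩ (A.C P.i).W, ∀ a b,
      ‖((A.C P.i).σ z)⁻¹ a b * (‖((A.C P.i).σ z).det‖ : ℝ)‖ ≤ B := fun z hz a b => by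
    rw [zbb11d_adj ((A.C P.i).σ_det z hz.2)]
    exact (hB z ⟨closedBall_subset_closedBall hr' (ball_subset_closedBall hz.1), hz.2⟩).2.2.2 a b
  have b4 : ∀ z ∈ ball P.z₀ r ∩ (A.C P.i).W, ‖V z‖ ≤ ∑ _b : Fin N, B * B1 := fun z hz => by
    refine (pi_norm_le_iff_of_nonneg (by positivity)).2 fun a => norm_sum_le_of_le _ fun b _ => ?_
    rw [norm_mul]
    exact mul_le_mul (b3 z hz b a) ((norm_le_pi_norm _ b).trans (b1 z hz.1)) (norm_nonneg _) hB0.le
  have b5 : ∀ z ∈ ball P.z₀ r ∩ (A.C P.i).W,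
      ‖dv V z‖ ≤ ∑ _a : Fin N, ∑ _b : Fin N, B * B2 := fun z hz => by
    rw [hdv z hz]
    refine norm_sum_le_of_le _ fun a _ => norm_sum_le_of_le _ fun b _ => ?_
    rw [norm_mul]
    refine mul_le_mul (b3 z hz b a) (le_trans ?_ (b2 z hz.1)) (norm_nonneg _) hB0.le
    exact (norm_le_pi_norm (fun b => dz a (fun w => β w b) z) b).trans
      (norm_le_pi_norm (fun a b => dz a (fun w => β w b) z) a)
  have hsub : ball P.z₀ r ∩ dom A W P.i ⊆ ball P.z₀ r ∩ (A.C P.i).W := fun z hz => ⟨hz.1, hz.2.1⟩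
  have h1 := pol_div0 hp (hV.mono hsub)
    (B := max (∑ _b : Fin N, B * B1) (∑ _a : Fin N, ∑ _b : Fin N, B * B2))
    (fun z hz => ⟨(b4 z (hsub hz)).trans (le_max_left _ _),
      (b5 z (hsub hz)).trans (le_max_right _ _)⟩)
    fun z _ hz => by
      funext a
      simp [hVd, hs z hz]
  have hb16 : ball P.z₀ (r / 16) ⊆ ball P.z₀ r := ball_subset_ball (by linarith)
  have hS : IsOpen (ball P.z₀ (r / 16) ∩ (A.C P.i).W) := isOpen_ball.inter (A.C P.i).isOpen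
  have hSO : ball P.z₀ (r / 16) ∩ (A.C P.i).W ⊆ ball P.z₀ r ∩ (A.C P.i).W :=
    inter_subset_inter_left _ hb16
  have h2 : ∫ z in ball P.z₀ (r / 16) ∩ (A.C P.i).W, dv V z = 0 := by
    rw [← h1, setIntegral_eq_of_subset_of_forall_sdiff_eq_zero hp.isOpen.measurableSet
      (s := ball P.z₀ (r / 16) ∩ dom A W P.i) (inter_subset_inter_left _ hb16)]
    · refine setIntegral_congr_set (ae_eq_set.2 ⟨measure_mono_null ?_ hp.null, ?_⟩)
      · exact fun z hz => ⟨hz.1.1, fun h3 => hz.2 ⟨hz.1.1, h3.2⟩⟩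
      · exact measure_mono_null (fun z hz => hz.2 ⟨hz.1.1, hz.1.2.1⟩) measure_empty
    · intro z hz
      rw [hdv z (hsub hz.1)]
      refine Finset.sum_eq_zero fun a _ => Finset.sum_eq_zero fun b _ => ?_
      rw [z2 a b z hz.1.1 fun h3 => hz.2 ⟨closedBall_subset_ball (by linarith) h3, hz.1.2⟩,
        mul_zero]
  have h3 : IntegrableOn (dv V) (ball P.z₀ (r / 16) ∩ (A.C P.i).W) volume := by
    have h4 : ContinuousOn (dv V) (ball P.z₀ r ∩ (A.C P.i).W) :=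
      continuousOn_finsetSum _ fun a _ =>
        (dz_smooth hO (contDiffOn_pi.1 hV a) a).1.continuousOn
    refine (integrableOn_const (C := ∑ _a : Fin N, ∑ _b : Fin N, B * B2)
      ((measure_mono inter_subset_left).trans_lt measure_ball_lt_top).ne).mono'
      ((h4.mono hSO).aestronglyMeasurable hS.measurableSet) ?_
    filter_upwards [ae_restrict_mem hS.measurableSet] with z hz using b5 z (hSO hz)
  let Ψ : A.ι → E N → ℝ := fun i z => -Real.log ‖((A.C i).σ z).det‖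
  have hw : ∀ i, ∀ z ∈ (A.C i).W, wt (Ψ i) z = ‖((A.C i).σ z).det‖ := fun i z hz => by
    simp only [wt, Ψ, neg_neg]
    exact Real.exp_log (norm_pos_iff.2 ((A.C i).σ_det z hz))
  have hd : (man A hinj isOpen_univ).Den μ Ψ := by
    intro i S hS hm
    refine (hμ i S (hS.trans inter_subset_left) hm).trans
      (setLIntegral_congr_fun hm fun z hz => ?_)
    rw [hw i z (hS hz).1, ofReal_norm]
  have hΨ : ContinuousOn (Ψ P.i) (A.C P.i).W :=
    ((det_cont (A.C P.i)).norm.log fun z hz => (norm_pos_iff.2 ((A.C P.i).σ_det z hz)).ne').neg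
  have hsD : ball P.z₀ (r / 16) ∩ (A.C P.i).W ⊆ (man A hinj isOpen_univ).W P.i :=
    fun z hz => ⟨hz.2, mem_univ _⟩
  have he : EqOn (dv V) (fun z => wt (Ψ P.i) z • u (A.p P.i z))
      (ball P.z₀ (r / 16) ∩ (A.C P.i).W) := fun z hz => by
    simp only [hdv z (hSO hz), hw _ z hz.2, hu z (hSO hz), bpt13_dv, Complex.real_smul,
      Finset.mul_sum]
    exact Finset.sum_congr rfl fun a _ => Finset.sum_congr rfl fun b _ => by ring
  refine ⟨(hd.intOn (i := P.i) (hΨ.mono inter_subset_left) hS.measurableSet hsD u).2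
    (h3.congr_fun he hS.measurableSet), ?_⟩
  refine (hd.int (i := P.i) (hΨ.mono inter_subset_left) hS.measurableSet hsD u).trans ?_
  rw [← h2]
  exact (setIntegral_congr_fun hS.measurableSet he).symm

end Pool.Agent.ZB
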