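import Pool.Agent.K.MP_63735c_ag.C19
import Pool.Agent.K.MP_63735c_ag.C20
import Pool.Agent.K.MP_63735c_ag.C21

/-! The main estimate. -/

open scoped ComplexOrder ContDiff Matrix Topology ENNReal
open Set Metric MeasureTheory Filter

namespace Pool.Agent.AB

open Pool.Agent.SPF

variable {N : ℕ} {Y : Type} [TopologicalSpace Y] [MeasurableSpace Y] [BorelSpace Y] [T2Space Y]
  {D : Dat Y N}

theorem abme_min {m : ℕ} (g : Fin m → ℝ) (hg : ∀ a, 0 < g a) {b : ℝ} (hb : 0 < b) :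
    ∃ e : ℝ, 0 < e ∧ e ≤ b ∧ ∀ a, e ≤ g a := by
  have h : ∀ᶠ e in 𝓝[>] (0 : ℝ), 0 < e ∧ e ≤ b ∧ ∀ a, e ≤ g a :=
    (eventually_mem_nhdsWithin).and (Eventually.filter_mono nhdsWithin_le_nhds
      ((ge_mem_nhds hb).and (eventually_all.2 fun a => ge_mem_nhds (hg a))))
  exact h.exists

theorem abme_amgm {y c t l : ℝ} (hc : 0 ≤ c) (ht : 0 ≤ t) (hl : 0 < l) (h : y ^ 2 ≤ c * t) :
    y ≤ (l * c + t / l) / 2 := by
  refine (abs_le_of_sq_le_sq' ?_ (by positivity)).2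
  have h1 : (l * c) * (t / l) = c * t := by field_simp
  nlinarith [sq_nonneg (l * c - t / l)]

namespace Dat

omit [BorelSpace Y] in
theorem abme_th_cc (hP : D.Pos) {w : Y → ℂ} (hw : D.S w) :
    D.Cc (D.Gam (fun i => lev (D.Ψ i)) w w) :=
  Gam_cc hP.Θ_cpt (fun i a b => (lev_smooth (D.isOpen i) (D.Ψ_smooth i) a b).continuousOn) hw hw.1

theorem qg_cc (hP : D.Pos) {θ : Y → ℝ} (hθ : D.S θ) {w h : Y → ℂ} (hw : D.S w)
    (hh : D.Cc h) :
    D.Cc (D.qg θ w h) := by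
  have h1 := hθ.cc.map₂ hh.1 (l := fun (a : ℝ) (b : ℂ) => a * ‖b‖ ^ 2) (by fun_prop)
    (fun b => zero_mul _)
  have h2 := (Gam_cc (Man.levG_cpt hθ.1)
    (fun i a b => (lev_smooth (D.isOpen i) (hθ.1 i) a b).continuousOn) hw hw.1).map
    (l := Complex.re) Complex.continuous_re rfl
  have h3 := (GamK_cc hw hθ.ofReal.1).map₂ hh.1 (l := fun (a b : ℂ) => 2 * (a * star b).re)
    (by fun_prop) (fun b => by simp)
  have h4 := hθ.cc.map₂ (abme_th_cc hP hw).1 (l := fun (a : ℝ) (b : ℂ) => a * b.re) (by fun_prop)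
    (fun b => zero_mul _)
  exact ((h1.add h2).add h3).sub h4

omit [BorelSpace Y] [T2Space Y] in
theorem abme_add {θ θ' : Y → ℝ} (hθ : D.S θ) (hθ' : D.S θ') (w h : Y → ℂ) (x : Y) :
    D.qg (fun y => θ y + θ' y) w h x = D.qg θ w h x + D.qg θ' w h x := by
  have h1 : (fun y => ((θ y + θ' y : ℝ) : ℂ)) = fun y => (θ y : ℂ) + (θ' y : ℂ) := by
    funext y; push_cast; rfl
  simp only [qg]
  rw [Gam_add_form (h := D.levG θ) (h' := D.levG θ')
    (fun i z hz => Man.levG_add hθ.1 hθ'.1 hz), h1, Gam_add_right hθ.ofReal.1 hθ'.ofReal.1]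
  simp only [Complex.add_re, add_mul]
  ring

omit [BorelSpace Y] [T2Space Y] in
theorem abme_sum {κ : Type} (s : Finset κ) {θ : κ → Y → ℝ} (hθ : ∀ a, D.S (θ a)) (w h : Y → ℂ)
    (x : Y) : D.S (fun y => ∑ a ∈ s, θ a y) ∧
      D.qg (fun y => ∑ a ∈ s, θ a y) w h x = ∑ a ∈ s, D.qg (θ a) w h x := by
  classical
  induction s using Finset.induction_on with
  | empty =>
    simp only [Finset.sum_empty]
    refine ⟨Man.S.zero, ?_⟩
    simp only [qg]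
    rw [Gam_levG_zero (c := 0) (Eventually.of_forall fun _ => rfl),
      (Gam_zero (c := ((0 : ℝ) : ℂ)) (Eventually.of_forall fun _ => rfl)).2]
    simp
  | insert a s ha ih =>
    simp only [Finset.sum_insert ha]
    exact ⟨(hθ a).add ih.1, by rw [abme_add (hθ a) ih.1, ih.2]⟩

theorem qg_sum {m : ℕ} {θ : Fin m → Y → ℝ} (hθ : ∀ a, D.S (θ a)) (w h : Y → ℂ) (x : Y) :
    D.qg (fun y => ∑ a, θ a y) w h x = ∑ a, D.qg (θ a) w h x :=
  (abme_sum Finset.univ hθ w h x).2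

/-- The inequality for a global cutoff function and good near minimisers. -/
theorem global (hP : D.Pos) {h : Y → ℂ} (hh : D.HH h) : ∃ B : ℝ, ∀ θ : Y → ℝ, D.S θ →
    (∀ x, 0 ≤ θ x) →
    ∀ γ : ℝ, 0 < γ → ∃ w, D.S w ∧ D.Near h w γ ∧ (D.En w w).re ≤ B ∧
      -γ ≤ ∫ x, D.qg θ w h x ∂D.ν := by
  obtain ⟨B, Q, hne, hmono, hQ⟩ := near_min hh
  refine ⟨B, fun θ hθ h0 γ hγ => ?_⟩
  obtain ⟨m, c, τ, hτ, hτ0, hs⟩ := Man.exists_pu hθ h0
  have hγ' : 0 < γ / (m + 1) := by positivity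
  choose g hg hg' using fun a => lcg hP (hτ a) (hτ0 a) hh.1 B hγ'
  obtain ⟨e₀, he₀, he₁, he₂⟩ := abme_min (fun a => g a / 4) (fun a => by linarith [hg a]) one_pos
  obtain ⟨w₀, hw₀⟩ := hne e₀ he₀
  choose ε hε hε' using fun a => hg' a w₀ (hQ e₀ w₀ he₀ he₁ hw₀).1
  obtain ⟨e, he, h1, h2⟩ := abme_min ε hε (lt_min he₀ hγ)
  obtain ⟨w, hw⟩ := hne e he
  have h3 := h1.trans (min_le_left _ _)
  obtain ⟨hS, hN, hB, -⟩ := hQ e w he (h3.trans he₁) hw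
  have h4 := (hQ e₀ w he₀ he₁ (hmono e e₀ w he h3 hw)).2.2.2 w₀ hw₀
  refine ⟨w, hS, fun r hr => (hN r hr).trans
    (mul_le_mul_of_nonneg_right (h1.trans (min_le_right _ _)) (Real.sqrt_nonneg _)), hB, ?_⟩
  have h5 : θ = fun y => ∑ a, D.ext (c a) (τ a) y := funext hs
  have hE : ∀ a, D.S (D.ext (c a) (τ a)) := fun a => Man.ext_S (hτ a)
  rw [h5]
  simp only [qg_sum hE]
  rw [integral_finsetSum _ fun a _ => cc_int (qg_cc hP (hE a) hS hh.1)]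
  have h6 : ∀ a, -(γ / (m + 1)) ≤ ∫ x, D.qg (D.ext (c a) (τ a)) w h x ∂D.ν := fun a =>
    hε' a w e hS he.le (h2 a) (h4.trans (by nlinarith [he₂ a])) hB hN
  refine le_trans ?_ (Finset.sum_le_sum fun a _ => h6 a)
  simp only [Finset.sum_const, Finset.card_univ, Fintype.card_fin, nsmul_eq_mul]
  have h7 : (m + 1 : ℝ) * (γ / (m + 1)) = γ := by field_simp
  nlinarith

theorem abme_step (hP : D.Pos) {s : Y → ℂ} (hs : D.S s) {c : Y → ℝ} (hc : D.Cc c)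
    (hc0 : ∀ x, 0 ≤ c x)
    (hsc : ∀ i, ∀ z ∈ D.W i, ∀ v, ‖v ⬝ᵥ star (db (fun y => s (D.p i y)) z)‖ ^ 2 ≤
      c (D.p i z) * (hq (lev (D.Ψ i) z) v v).re) {h : Y → ℂ} (hh : D.HH h) :
    ∃ B : ℝ, ∀ γ l : ℝ, 0 < γ → 0 < l → ‖∫ x, h x * star (s x) ∂D.ν‖ ≤
      (l * ∫ x, c x ∂D.ν + (∫ x, ‖h x‖ ^ 2 ∂D.ν + γ * B + γ) / l) / 2 + γ * √(D.En s s).re := by
  obtain ⟨B, hB⟩ := global hP hh
  refine ⟨B, fun γ l hγ hl => ?_⟩
  obtain ⟨C₁, a1, a2, a3⟩ := hh.1.2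
  obtain ⟨C₂, b1, b2, b3⟩ := hc.2
  obtain ⟨θ, hθ, h01, h1, hlev⟩ := hP.cut (C₁ ∪ C₂) (a1.union b1) (union_subset a2 b2) γ hγ
  obtain ⟨w, hw, hN, hE, hq'⟩ := hB θ hθ (fun x => (h01 x).1) γ hγ
  have hT := hθ.cc.map₂ (abme_th_cc hP hw).1 (l := fun (a : ℝ) (b : ℂ) => a * b.re) (by fun_prop)
    (fun b => zero_mul _)
  have hT0 : ∀ x, 0 ≤ (D.Gam (fun i => lev (D.Ψ i)) w w x).re := Gam_nonneg hP.Θ_psd
  have hh2 := cc_int (hh.1.map (l := fun b : ℂ => ‖b‖ ^ 2) (by fun_prop) (by simp))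
  have hK := cc_int ((GamK_cc hw hw.1).map (l := Complex.re) Complex.continuous_re rfl)
  have hX : ∫ x, θ x * (D.Gam (fun i => lev (D.Ψ i)) w w x).re ∂D.ν ≤
      ∫ x, ‖h x‖ ^ 2 ∂D.ν + γ * B + γ := by
    have e1 : ∫ x, D.qg θ w h x ∂D.ν ≤ ∫ x, (‖h x‖ ^ 2 + γ * (D.Gam D.K w w x).re -
        θ x * (D.Gam (fun i => lev (D.Ψ i)) w w x).re) ∂D.ν := by
      refine integral_mono (cc_int (qg_cc hP hθ hw hh.1))
        ((hh2.add (hK.const_mul γ)).sub (cc_int hT)) fun x => ?_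
      have e2 := Gam_le (w := w) hlev x
      have e3 : D.Gam D.K w (fun y => (θ y : ℂ)) x * star (h x) = 0 := by
        by_cases hx : x ∈ C₁
        · rw [(Gam_zero (c := ((1 : ℝ) : ℂ))
            ((h1 x (Or.inl hx)).mono fun y hy => by rw [hy])).2, zero_mul]
        · rw [a3 x hx, star_zero, mul_zero]
      have e4 : θ x * ‖h x‖ ^ 2 ≤ ‖h x‖ ^ 2 := mul_le_of_le_one_left (by positivity) (h01 x).2
      simp only [qg, e3, Complex.zero_re]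
      linarith
    have i1 : Integrable (fun x => ‖h x‖ ^ 2 + γ * (D.Gam D.K w w x).re) D.ν :=
      hh2.add (hK.const_mul γ)
    rw [integral_sub i1 (cc_int hT), integral_add hh2 (hK.const_mul γ),
      integral_const_mul, ← En_re hw hw] at e1
    nlinarith
  have hP : ∀ x, ‖D.Gam D.K w s x‖ ≤
      (l * c x + θ x * (D.Gam (fun i => lev (D.Ψ i)) w w x).re / l) / 2 := fun x => by
    refine abme_amgm (hc0 x) (mul_nonneg (h01 x).1 (hT0 x)) hl ?_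
    have e1 : ‖D.Gam D.K w s x‖ ^ 2 ≤ c x * (D.Gam (fun i => lev (D.Ψ i)) w w x).re := by
      by_cases hx : x ∈ D.M
      · obtain ⟨i, z, hz, rfl⟩ := Man.exists_chart hx
        rw [GamK_chart hw.1 hs.1 hz, Gam_chart hP.Θ_cpt hw.1 hw.1 hz]
        exact hsc i z hz _
      · rw [Gam_out hx, Gam_out hx]
        simp
    by_cases hx : x ∈ C₂
    · rwa [(h1 x (Or.inr hx)).self_of_nhds, one_mul]
    · rw [b3 x hx, zero_mul] at e1 ⊢
      exact e1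
  have hI : ‖D.En w s‖ ≤ (l * ∫ x, c x ∂D.ν +
      (∫ x, θ x * (D.Gam (fun i => lev (D.Ψ i)) w w x).re ∂D.ν) / l) / 2 := by
    have i1 := (cc_int hc).const_mul l
    have i2 := (cc_int hT).div_const l
    refine (norm_integral_le_of_norm_le ((i1.add i2).div_const 2)
      (Eventually.of_forall hP)).trans (le_of_eq ?_)
    simp only [Pi.add_apply]
    rw [integral_div, integral_add i1 i2, integral_const_mul, integral_div]
  have h5 := hN s hs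
  have h6 : ‖∫ x, h x * star (s x) ∂D.ν‖ ≤
      ‖D.En w s‖ + ‖D.En w s + ∫ x, h x * star (s x) ∂D.ν‖ := by
    have := norm_sub_le (D.En w s + ∫ x, h x * star (s x) ∂D.ν) (D.En w s)
    rw [add_sub_cancel_left] at this
    linarith
  have h7 := div_le_div_of_nonneg_right hX hl.le
  linarith

theorem me (hP : D.Pos) {s : Y → ℂ} (hs : D.S s) {c : Y → ℝ} (hc : D.Cc c)
    (hc0 : ∀ x, 0 ≤ c x)
    (hsc : ∀ i, ∀ z ∈ D.W i, ∀ v, ‖v ⬝ᵥ star (db (fun y => s (D.p i y)) z)‖ ^ 2 ≤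
      c (D.p i z) * (hq (lev (D.Ψ i) z) v v).re) {h : Y → ℂ} (hh : D.HH h) :
    ‖∫ x, h x * star (s x) ∂D.ν‖ ≤ √(∫ x, c x ∂D.ν) * √(∫ x, ‖h x‖ ^ 2 ∂D.ν) := by
  obtain ⟨B, hB⟩ := abme_step hP hs hc hc0 hsc hh
  have ha : 0 ≤ ∫ x, c x ∂D.ν := integral_nonneg hc0
  have hb : 0 ≤ ∫ x, ‖h x‖ ^ 2 ∂D.ν := integral_nonneg fun x => by positivity
  generalize ∫ x, c x ∂D.ν = a at ha hB ⊢
  generalize ∫ x, ‖h x‖ ^ 2 ∂D.ν = b at hb hB ⊢
  have hc : Continuous fun γ : ℝ => √(a + γ) * √(b + γ * |B| + γ) + γ * √(D.En s s).re := by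
    fun_prop
  have ht := (hc.tendsto 0).mono_left (nhdsWithin_le_nhds (s := Ioi 0))
  simp only [add_zero, zero_mul] at ht
  refine ge_of_tendsto ht (eventually_mem_nhdsWithin.mono fun γ hγ => ?_)
  have hγ : 0 < γ := hγ
  have h1 : 0 < √(a + γ) := Real.sqrt_pos.2 (by linarith)
  have h3 : 0 < b + γ * |B| + γ := by positivity
  have h2 : 0 < √(b + γ * |B| + γ) := Real.sqrt_pos.2 h3
  have h4 := Real.mul_self_sqrt (show 0 ≤ a + γ by linarith)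
  have h5 := Real.mul_self_sqrt h3.le
  refine (hB γ _ hγ (div_pos h2 h1)).trans (add_le_add ?_ le_rfl)
  have h6 : γ * B ≤ γ * |B| := mul_le_mul_of_nonneg_left (le_abs_self B) hγ.le
  generalize √(a + γ) = p at h1 h4 ⊢
  generalize √(b + γ * |B| + γ) = q at h2 h5 ⊢
  have h7 : q / p * a ≤ p * q := by
    rw [div_mul_eq_mul_div, div_le_iff₀ h1]
    nlinarith
  have h8 : (b + γ * B + γ) / (q / p) ≤ p * q := by
    rw [div_le_iff₀ (div_pos h2 h1)]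
    have : p * q * (q / p) = q * q := by field_simp
    linarith
  linarith

end Dat

end Pool.Agent.AB
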