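import Pool.Agent.K.MP_63735c_ag.C219

/-! The primitive `β`. -/

open scoped ComplexOrder ContDiff Matrix Topology ENNReal
open Set Metric MeasureTheory Filter

namespace Pool.Agent.ZB

open Pool.Agent.BP Pool.Agent.SPF Pool.Agent.AB Pool.Agent.CK Pool.Agent.SE Pool.Agent.NL

variable {N : ℕ} {X : Type} [TopologicalSpace X] [T2Space X] [PreconnectedSpace X]
  [MeasurableSpace X] [BorelSpace X] {A : Atlas X N} {μ : Measure X} {K : Form11 A} {L : Line A}
  {W : Set X} {ψ : X → ℝ}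

variable {Y : Type} [TopologicalSpace Y] [T2Space Y] [CompactSpace Y] {Z : Res L Y}

/-- The charts of `Y` that meet `X`. -/
def zbb11d_man (Z : Res L Y) : Man Y N where
  ι := A.ι
  W i := Z.W (Z.c i)
  p i := Z.p (Z.c i)
  isOpen _ := Z.isOpen _
  cont _ := Z.cont _
  inj _ := Z.inj _
  opn _ := Z.opn _
  trans _ _ := Z.trans _ _

omit [T2Space X] [PreconnectedSpace X] [MeasurableSpace X] [BorelSpace X] [T2Space Y]
  [CompactSpace Y] in
theorem zbb11d_is10 {β : A.ι → E N → E N} (hβ : Is10 A β) {θ : Y → ℝ}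
    (hθ : (zbb11d_man Z).Smo θ) : Is10 A fun i z => (θ (Z.j (A.p i z)) : ℂ) • β i z := by
  have hT : ∀ i, ContDiffOn ℝ ∞ (fun z => (θ (Z.j (A.p i z)) : ℂ)) (A.C i).W := fun i => by
    refine ofReal_smooth (((hθ i).mono (Z.sub i)).congr fun z hz => ?_)
    rw [← Z.p_eq i z hz]
    rfl
  exact ⟨fun i => (hT i).smul (hβ.1 i), fun i j O φ a1 a2 z hz => by
    simp only [hβ.2 i j O φ a1 a2 z hz, a2 z hz, Matrix.smul_vecMul]⟩

/-- The divergence of `θ β` has integral zero. -/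
def zbb11d_good (Z : Res L Y) (μ : Measure X) (β : A.ι → E N → E N) (θ : Y → ℝ) : Prop :=
  ∀ u : X → ℂ, (∀ i, ∀ z ∈ (A.C i).W, u (A.p i z) =
    bpt13_dv (A.C i) (fun w => (θ (Z.j (A.p i w)) : ℂ) • β i w) z) →
    Integrable u μ ∧ ∫ x, u x ∂μ = 0

omit [T2Space X] [PreconnectedSpace X] [BorelSpace X] [T2Space Y] [CompactSpace Y] in
theorem zbb11d_add (hinj : ∀ i, InjOn (A.p i) (A.C i).W) {β : A.ι → E N → E N} (hβ : Is10 A β)
    {θ θ₁ θ₂ : Y → ℝ} (h1 : (zbb11d_man Z).Smo θ₁) (h2 : (zbb11d_man Z).Smo θ₂)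
    (g1 : zbb11d_good Z μ β θ₁) (g2 : zbb11d_good Z μ β θ₂) (e : ∀ y, θ y = θ₁ y + θ₂ y) :
    zbb11d_good Z μ β θ := by
  intro u hu
  have k1 := zbb11d_is10 hβ h1
  have k2 := zbb11d_is10 hβ h2
  obtain ⟨u1, -, hu1⟩ := div_exists hinj k1
  obtain ⟨u2, -, hu2⟩ := div_exists hinj k2
  obtain ⟨i1, z1⟩ := g1 u1 hu1
  obtain ⟨i2, z2⟩ := g2 u2 hu2
  have hs : u = fun x => u1 x + u2 x := by
    funext x
    obtain ⟨i, z, hz, rfl⟩ := A.cover x
    rw [hu i z hz, hu1 i z hz, hu2 i z hz, bpt13_dv, ← Finset.sum_add_distrib]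
    refine Finset.sum_congr rfl fun a _ => ?_
    rw [← Finset.sum_add_distrib]
    refine Finset.sum_congr rfl fun b _ => ?_
    rw [← mul_add, ← (dz_add (diffAt (A.C i).isOpen (contDiffOn_pi.1 (k1.1 i) b) hz)
      (diffAt (A.C i).isOpen (contDiffOn_pi.1 (k2.1 i) b) hz) a).1]
    congr 2
    funext w
    simp only [e, Pi.smul_apply, smul_eq_mul, Complex.ofReal_add, add_mul]
  rw [hs]
  exact ⟨i1.add i2, by rw [integral_add i1 i2, z1, z2, add_zero]⟩

omit [CompactSpace Y] in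
theorem zbb11d_loc (h : Full Z) (hinj : ∀ i, InjOn (A.p i) (A.C i).W) (hμ : IsVolume A μ)
    (hP : PolX A W ψ) {β : A.ι → E N → E N} (P : Pt L) {r : ℝ} (h0 : 0 < r) (hr' : r ≤ P.r)
    (hZ : closedBall P.z₀ (2 * P.r) ⊆ Z.W (Z.c P.i)) {g : E N → E N}
    (hg : ContDiffOn ℝ ∞ g (ball P.z₀ r)) (he : EqOn g (β P.i) (ball P.z₀ r ∩ (A.C P.i).W))
    {χ : E N → ℝ} (hχ : ContDiff ℝ ∞ χ) (hs : ∀ z ∉ closedBall P.z₀ (r / 64), χ z = 0)
    {θ : Y → ℝ} (hθ : (zbb11d_man Z).Smo θ) :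
    zbb11d_good Z μ β fun y => θ y * (zbb11d_man Z).ext P.i χ y := by
  intro u hu
  have hc : closedBall P.z₀ r ⊆ Z.W (Z.c P.i) :=
    (closedBall_subset_closedBall (by linarith [P.r_pos])).trans hZ
  have hc' : closedBall P.z₀ (r / 64) ⊆ Z.W (Z.c P.i) :=
    (closedBall_subset_closedBall (by linarith)).trans hc
  have hO : IsOpen (ball P.z₀ r ∩ (A.C P.i).W) := isOpen_ball.inter (A.C P.i).isOpen
  obtain ⟨h1, h2⟩ := P.div_zero hinj hμ hP h0 hr'
    (β := fun z => ((θ (Z.p (Z.c P.i) z) * χ z : ℝ) : ℂ) • g z) (u := u)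
    ((ofReal_smooth (((hθ P.i).mono (ball_subset_closedBall.trans hc)).mul
      hχ.contDiffOn)).smul hg)
    (fun z hz => by simp [hs z hz]) fun z hz => by
      rw [hu _ z hz.2]
      refine Finset.sum_congr rfl fun a _ => Finset.sum_congr rfl fun b _ => ?_
      refine congrArg _ (dz_congr ?_ a).self_of_nhds
      filter_upwards [hO.mem_nhds hz] with w hw
      have e1 : (zbb11d_man Z).ext P.i χ (Z.p (Z.c P.i) w) = χ w :=
        Man.ext_apply (D := zbb11d_man Z) (Z.sub _ hw.2)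
      rw [he hw, ← Z.p_eq _ w hw.2, e1]
  have h3 : ∀ x ∉ A.p P.i '' (ball P.z₀ (r / 16) ∩ (A.C P.i).W), u x = 0 := by
    intro x hx
    obtain ⟨i, z, hz, rfl⟩ := A.cover x
    have hK := (Man.cpt_img (D := zbb11d_man Z) (i := P.i)
      (isCompact_closedBall P.z₀ (r / 64)) hc').1.isClosed
    have h4 : ∀ᶠ w in 𝓝 z,
        Z.j (A.p i w) ∉ (zbb11d_man Z).p P.i '' closedBall P.z₀ (r / 64) := by
      refine (Z.j_cont.continuousAt.comp
        ((A.cont i).continuousAt ((A.C i).isOpen.mem_nhds hz))) (hK.isOpen_compl.mem_nhds ?_)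
      rintro ⟨w, hw, e⟩
      obtain ⟨e1, e2⟩ := h.mem (hc' hw) e
      exact hx ⟨w, ⟨closedBall_subset_ball (by linarith) hw, e1⟩, e2⟩
    rw [hu i z hz]
    refine Finset.sum_eq_zero fun a _ => Finset.sum_eq_zero fun b _ => ?_
    have e : (fun w => (((θ (Z.j (A.p i w)) * (zbb11d_man Z).ext P.i χ (Z.j (A.p i w)) : ℝ) : ℂ) •
        β i w) b) =ᶠ[𝓝 z] fun _ => 0 := by
      filter_upwards [h4] with w hw
      rw [Man.ext_zero (fun y _ hy => hs y hy) hw]
      simp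
    rw [(dz_congr e a).self_of_nhds, (dz_const a 0).1, mul_zero]
  refine ⟨h1.integrable_of_forall_notMem_eq_zero h3, ?_⟩
  rw [← setIntegral_eq_integral_of_forall_compl_eq_zero h3, h2]

theorem Full.div_zero (h : Full Z) (hinj : ∀ i, InjOn (A.p i) (A.C i).W) (hμ : IsVolume A μ)
    (hP : PolX A W ψ) {β : A.ι → E N → E N} (hβ : Is10 A β) (hb : ∀ a, Upto Z fun i z => β i z a)
    {u : X → ℂ} (hu : ∀ i, ∀ z ∈ (A.C i).W, u (A.p i z) =
      ∑ a, ∑ b, ((A.C i).σ z)⁻¹ b a * dz a (fun w => β i w b) z) :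
    Integrable u μ ∧ ∫ x, u x ∂μ = 0 := by
  classical
  have key : ∀ P : Pt L, ∃ (r : ℝ) (g : E N → E N), 0 < r ∧ r ≤ P.r ∧ (P.z₀ ∈ Z.W (Z.c P.i) →
      ContDiffOn ℝ ∞ g (ball P.z₀ r) ∧ EqOn g (β P.i) (ball P.z₀ r ∩ (A.C P.i).W)) := by
    intro P
    by_cases hz : P.z₀ ∈ Z.W (Z.c P.i)
    · choose r g h1 h2 h3 using fun a => hb a P.i P.z₀ hz
      have h4 : ∀ᶠ s in 𝓝[>] (0 : ℝ), (∀ a, s ≤ r a) ∧ s ≤ P.r :=
        ((eventually_all.2 fun a => eventually_le_nhds (h1 a)).and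
          (eventually_le_nhds P.r_pos)).filter_mono nhdsWithin_le_nhds
      obtain ⟨s, ⟨h5, h6⟩, h7⟩ := (h4.and self_mem_nhdsWithin).exists
      exact ⟨s, fun z a => g a z, h7, h6, fun _ =>
        ⟨contDiffOn_pi.2 fun a => (h2 a).mono (ball_subset_ball (h5 a)),
          fun z hz => funext fun a => h3 a ⟨ball_subset_ball (h5 a) hz.1, hz.2⟩⟩⟩
    · exact ⟨P.r, 0, P.r_pos, le_rfl, fun h1 => absurd h1 hz⟩
  choose r g h0 hr' hg using key
  let χ : ∀ P : Pt L, ContDiffBump P.z₀ := fun P =>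
    ⟨r P / 128, r P / 64, by linarith [h0 P], by linarith [h0 P]⟩
  have hs : ∀ P, ∀ z ∉ closedBall P.z₀ (r P / 64), χ P z = 0 := fun P z hz =>
    (χ P).zero_of_le_dist (not_lt.1 fun h1 => hz (ball_subset_closedBall h1))
  have ind : ∀ t : Finset (Pt L), (∀ P ∈ t, closedBall P.z₀ (2 * P.r) ⊆ Z.W (Z.c P.i)) →
      ∀ θ : Y → ℝ, (zbb11d_man Z).Smo θ →
        (∀ y, θ y ≠ 0 → ∃ P ∈ t, (zbb11d_man Z).ext P.i (χ P) y = 1) → zbb11d_good Z μ β θ := by
    intro t
    induction t using Finset.induction_on with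
    | empty =>
      intro _ θ _ h1 u hu
      have h2 : ∀ y, θ y = 0 := fun y => by
        by_contra h3
        obtain ⟨P, hP, -⟩ := h1 y h3
        simp at hP
      have h3 : u = fun _ => 0 := by
        funext x
        obtain ⟨i, z, hz, rfl⟩ := A.cover x
        rw [hu i z hz]
        refine Finset.sum_eq_zero fun a _ => Finset.sum_eq_zero fun b _ => ?_
        simp only [h2, Complex.ofReal_zero, zero_smul, Pi.zero_apply]
        rw [(dz_const a 0).1, mul_zero]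
      rw [h3]
      exact ⟨integrable_zero _ _ _, integral_zero _ _⟩
    | insert P t _ ih =>
      intro hZ θ hθ h1
      have hZP := hZ P (Finset.mem_insert_self _ _)
      have hz₀ := hZP (mem_closedBall_self (by linarith [P.r_pos]))
      have hT : Tst ((zbb11d_man Z).W P.i) (χ P) := ⟨(χ P).contDiff, (χ P).hasCompactSupport, by
        rw [(χ P).tsupport_eq]
        refine (closedBall_subset_closedBall ?_).trans hZP
        change r P / 64 ≤ _
        linarith [h0 P, hr' P]⟩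
      have hB := (Man.ext_S hT).1
      have h2 : (zbb11d_man Z).Smo fun y => θ y * (1 - (zbb11d_man Z).ext P.i (χ P) y) :=
        fun i => (hθ i).mul (contDiffOn_const.sub (hB i))
      refine zbb11d_add hinj hβ (fun i => (hθ i).mul (hB i)) h2
        (zbb11d_loc h hinj hμ hP P (h0 P) (hr' P) hZP (hg P hz₀).1 (hg P hz₀).2 (χ P).contDiff
          (hs P) hθ)
        (ih (fun Q hQ => hZ Q (Finset.mem_insert_of_mem hQ)) _ h2 fun y hy => ?_) fun y => by ring
      obtain ⟨Q, hQ, h4⟩ := h1 y (left_ne_zero_of_mul hy)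
      rcases Finset.mem_insert.1 hQ with rfl | hQ
      · rw [h4] at hy
        simp at hy
      · exact ⟨Q, hQ, h4⟩
  obtain ⟨t, ht, h1, h2⟩ := h.cov' (fun P => r P / 128) fun P => by linarith [h0 P]
  refine ind ht.toFinset (fun P hP => h1 P (ht.mem_toFinset.1 hP)) (fun _ => 1)
    (fun _ => contDiffOn_const) (fun y _ => ?_) u fun i z hz => ?_
  · obtain ⟨P, hP, w, hw, rfl⟩ := h2 y
    refine ⟨P, ht.mem_toFinset.2 hP, ?_⟩
    have h3 : w ∈ (zbb11d_man Z).W P.i := h1 P hP (closedBall_subset_closedBall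
      ((min_le_right _ _).trans (by linarith [P.r_pos])) (ball_subset_closedBall hw))
    exact (Man.ext_apply (D := zbb11d_man Z) h3).trans ((χ P).one_of_mem_closedBall
      (closedBall_subset_closedBall (min_le_left _ _) (ball_subset_closedBall hw)))
  · simp only [Complex.ofReal_one, one_smul]
    exact hu i z hz

theorem Full.exists_beta [IsFiniteMeasure μ] (h : Full Z) (hinj : ∀ i, InjOn (A.p i) (A.C i).W)
    (hμ : IsVolume A μ) (hP : PolX A W ψ) (hK : ∀ i, ∀ z ∈ (A.C i).W, (K.h i z).PosDef)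
    (hg : ∀ a b, Upto Z fun i z => gam K i z a b) (h2 : H02Y Z)
    (hη : ∃ i, ∃ z ∈ (A.C i).W, (A.C i).η z ≠ 0) :
    ∃ (a : ℝ) (β : A.ι → E N → E N), 0 < a ∧ Is10 A β ∧ (∀ a, Upto Z fun i z => β i z a) ∧
      ∀ i, ∀ z ∈ (A.C i).W, ∀ b c, dz b (fun w => β i w c) z - dz c (fun w => β i w b) z =
        gam K i z b c + a * (A.C i).σ z b c := by
  have := vol_pos hμ
  obtain ⟨c, β, hβ, hb, h3⟩ := h2 (gam K) (gam_is20 K) hg fun i z hz => gam_closed K i hz
  obtain ⟨u, hu, hu'⟩ := div_exists hinj hβ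
  obtain ⟨hi, h0⟩ := h.div_zero hinj hμ hP hβ hb hu'
  have h4 : ∀ i, ∀ z ∈ (A.C i).W, -(c * N + 2 * u (A.p i z)) =
      -((A.C i).π z * gam K i z).trace := by
    intro i z hz
    have e1 : ∑ a, ∑ b, (A.C i).π z a b * (A.C i).σ z b a = N := by
      have h5 := congrArg Matrix.trace (Chart.π_mul_σ hz)
      rw [Matrix.trace_one, Fintype.card_fin] at h5
      exact h5
    have e2 : ∑ a, ∑ b, (A.C i).π z a b * dz b (fun w => β i w a) z = u (A.p i z) :=
      Finset.sum_comm.trans (hu' i z hz).symm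
    have e3 : ∑ a, ∑ b, (A.C i).π z a b * dz a (fun w => β i w b) z = -u (A.p i z) := by
      rw [hu' i z hz]
      simp only [← Finset.sum_neg_distrib]
      exact Finset.sum_congr rfl fun a _ => Finset.sum_congr rfl fun b _ => by
        rw [Chart.π_skew hz a b, neg_mul]
        rfl
    have e4 : ((A.C i).π z * gam K i z).trace =
        c * ∑ a, ∑ b, (A.C i).π z a b * (A.C i).σ z b a +
          ∑ a, ∑ b, (A.C i).π z a b * dz b (fun w => β i w a) z -
          ∑ a, ∑ b, (A.C i).π z a b * dz a (fun w => β i w b) z := by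
      simp only [Matrix.trace, Matrix.diag_apply, Matrix.mul_apply, h3 i z hz, Finset.mul_sum,
        ← Finset.sum_add_distrib, ← Finset.sum_sub_distrib]
      exact Finset.sum_congr rfl fun a _ => Finset.sum_congr rfl fun b _ => by ring
    rw [e4, e1, e2, e3]
    ring
  have hQ : ∀ i, ∀ z ∈ (A.C i).W, ((A.C i).π z * K.h i z * ((A.C i).π z)ᴴ).PosDef :=
    fun i z hz => (hK i z hz).mul_mul_conjTranspose_same (Matrix.vecMul_injective_iff_isUnit.2
      (IsUnit.of_mul_eq_one _ (Chart.π_mul_σ hz)))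
  have p1 := fun i z hz => abalg_trace (Chart.G_psd hz) (hK i z hz).posSemidef.transpose
  have p2 := fun i z hz => abalg_trace (hQ i z hz).posSemidef ((A.C i).η_psd z hz).transpose
  have h5 : ∀ x, 0 ≤ -(c * N + 2 * u x) := fun x => by
    obtain ⟨i, z, hz, rfl⟩ := A.cover x
    rw [h4 i z hz, bpb11_trace K i hz]
    exact add_nonneg (p1 i z hz) (p2 i z hz)
  have h6 : ∀ x, (((-(c * N + 2 * u x)).re : ℝ) : ℂ) = -(c * N + 2 * u x) := fun x =>
    Complex.ext rfl (Complex.nonneg_iff.1 (h5 x)).2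
  have hc : Continuous fun x => (-(c * N + 2 * u x)).re := by fun_prop
  obtain ⟨i₀, z₀, hz₀, hne⟩ := hη
  have h7 : 0 < ∫ x, (-(c * N + 2 * u x)).re ∂μ := by
    refine integral_pos_of_integrable_nonneg_nonzero (x := A.p i₀ z₀) hc
      ((integrable_const _).add (hi.const_mul 2)).neg.re (fun x => (Complex.nonneg_iff.1 (h5 x)).1) fun e => ?_
    have e1 := h6 (A.p i₀ z₀)
    rw [e, h4 i₀ z₀ hz₀, bpb11_trace K i₀ hz₀, Complex.ofReal_zero, eq_comm,
      add_eq_zero_iff_of_nonneg (p1 i₀ z₀ hz₀) (p2 i₀ z₀ hz₀)] at e1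
    exact hne (Matrix.transpose_eq_zero.1
      (bpb11_tr (hQ i₀ z₀ hz₀) ((A.C i₀).η_psd z₀ hz₀).transpose e1.2))
  have h8 : ((∫ x, (-(c * N + 2 * u x)).re ∂μ : ℝ) : ℂ) = -c * (N * μ.real univ : ℝ) := by
    rw [← integral_complex_ofReal]
    refine (integral_congr_ae (Eventually.of_forall h6)).trans ?_
    rw [integral_neg, integral_add (integrable_const _) (hi.const_mul 2), integral_const,
      integral_const_mul, h0, Complex.real_smul]
    push_cast
    ring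
  have h9 : (N * μ.real univ : ℝ) ≠ 0 := fun e => by
    rw [e, Complex.ofReal_zero, mul_zero, Complex.ofReal_eq_zero] at h8
    exact h7.ne' h8
  refine ⟨_ / (N * μ.real univ), β, div_pos h7 (lt_of_le_of_ne (by positivity) h9.symm), hβ, hb,
    fun i z hz a b => ?_⟩
  rw [Complex.ofReal_div, h8, mul_div_cancel_right₀ _ (Complex.ofReal_ne_zero.2 h9), h3 i z hz]
  ring

end Pool.Agent.ZB
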