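import Pool.Agent.K.MP_63735c_ag.C201
import Pool.Agent.K.MP_63735c_ag.C220

/-! The Kähler manifold `Y` with the charts that meet `X`. -/

open scoped ComplexOrder ContDiff Matrix Topology ENNReal
open Set Metric MeasureTheory Filter

namespace Pool.Agent.ZB

open Pool.Agent.BP Pool.Agent.SPF Pool.Agent.AB Pool.Agent.SE

variable {N : ℕ} {X : Type} [TopologicalSpace X] {A : Atlas X N} {L : Line A} {Y : Type}
  [TopologicalSpace Y] {Z : Res L Y}

theorem Full.man_cover (h : Full Z) : (zbb11d_man Z).M = univ :=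
  eq_univ_of_forall fun y => by
    obtain ⟨i, w, hw, e⟩ := h.cover y
    exact mem_iUnion.2 ⟨i, w, hw, e⟩

/-- The chart of `A` is dense in the chart of `Y`. -/
theorem Full.dense (h : Full Z) (i : A.ι) : Z.W (Z.c i) ⊆ closure (A.C i).W :=
  fun z hz => mem_closure_iff.2 fun O hO hzO => by
    obtain ⟨x, v, hv, e⟩ := Z.j_dense.exists_mem_open
      (Z.opn _ _ (hO.inter (Z.isOpen (Z.c i))) inter_subset_right) ⟨_, z, ⟨hzO, hz⟩, rfl⟩
    exact ⟨v, hv.1, (h.mem hv.2 e).1⟩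

theorem Full.eqOn (h : Full Z) {F : Type} [TopologicalSpace F] [T2Space F] {i : A.ι}
    {O : Set (E N)} (hO : IsOpen O) (hs : O ⊆ Z.W (Z.c i)) {f g : E N → F}
    (hf : ContinuousOn f O) (hg : ContinuousOn g O) (e : EqOn f g (O ∩ (A.C i).W)) :
    EqOn f g O :=
  e.of_subset_closure hf hg inter_subset_left fun _ hz => hO.inter_closure ⟨hz, h.dense i (hs hz)⟩

theorem Full.ext (h : Full Z) {f : A.ι → E N → ℂ} (hu : Upto Z f) :
    ∃ g : A.ι → E N → ℂ, ∀ i, ContDiffOn ℝ ∞ (g i) (Z.W (Z.c i)) ∧ EqOn (g i) (f i) (A.C i).W := by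
  choose! r g h0 h1 h2 using hu
  refine ⟨fun i w => g i w w, fun i => ⟨fun w hw => ?_, fun w hw =>
    h2 i w (Z.sub i hw) ⟨mem_ball_self (h0 i w (Z.sub i hw)), hw⟩⟩⟩
  refine ContDiffWithinAt.congr_of_eventuallyEq
    ((h1 i w hw).contDiffAt (ball_mem_nhds w (h0 i w hw))).contDiffWithinAt ?_ rfl
  filter_upwards [mem_nhdsWithin_of_mem_nhds (ball_mem_nhds w (h0 i w hw)), self_mem_nhdsWithin]
    with y hy hy'
  exact h.eqOn (O := ball y (r i y) ∩ ball w (r i w) ∩ Z.W (Z.c i))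
    ((isOpen_ball.inter isOpen_ball).inter (Z.isOpen _)) inter_subset_right
    ((h1 i y hy').continuousOn.mono fun _ ht => ht.1.1)
    ((h1 i w hw).continuousOn.mono fun _ ht => ht.1.2)
    (fun t ht => (h2 i y hy' ⟨ht.1.1.1, ht.2⟩).trans (h2 i w hw ⟨ht.1.1.2, ht.2⟩).symm)
    ⟨⟨mem_ball_self (h0 i y hy'), hy⟩, hy'⟩

theorem Full.pot_cpt (Z : Res L Y) (k l : A.ι) (z : E N) (hz : z ∈ (zbb11d_man Z).W k)
    (φ : E N → E N) (h : (zbb11d_man Z).Ch k l z φ) :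
    wt (Z.pot (Z.c k)) z = ‖(jac φ z).det‖ ^ 2 * wt (Z.pot (Z.c l)) (φ z) :=
  Z.pot_cpt isClosed_empty (.inr (Z.c k)) (.inr (Z.c l)) z ⟨hz, id⟩ φ
    (h.mono fun _ hw => ⟨hw.1, ⟨hw.2.1, id⟩, hw.2.2⟩)

variable [MeasurableSpace Y] [CompactSpace Y] [T2Space Y] [BorelSpace Y] {ρ : Type} [Fintype ρ]
  [DecidableEq ρ]

theorem Full.exists_vol (h : Full Z) : ∃ ν, (zbb11d_man Z).Den ν fun k => Z.pot (Z.c k) :=
  (zbb11d_man Z).exists_den h.man_cover _ (fun _ => (Z.pot_smooth _).continuousOn) (Full.pot_cpt Z)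

/-- The data of the Dirac operator on forms of type (p,0). -/
noncomputable def Full.geo (h : Full Z) (C : Car (Matrix ρ ρ ℤ) N) (hC : ∀ a, C.i a = (C.e a)ᵀ) :
    Geo Y N ρ where
  toMan := zbb11d_man Z
  cover := h.man_cover
  Ψ k := Z.pot (Z.c k)
  ν := h.exists_vol.choose
  Ψ_smooth _ := Z.pot_smooth _
  den := h.exists_vol.choose_spec
  Ψ_cpt := Full.pot_cpt Z
  K k := Z.K (Z.c k)
  kah _ := ⟨Z.K_smooth _, Z.K_pos _, Z.K_closed _⟩
  K_cpt _ _ := Z.K_eq _ _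
  ψ k := Z.ψ (Z.c k)
  ψ_smooth _ := Z.ψ_smooth _
  ψ_psd _ := Z.ψ_psd _
  g k l := Z.g (Z.c k) (Z.c l)
  g_hol _ _ := Z.g_hol _ _
  g_mul _ _ _ := Z.g_mul _ _ _
  ψ_eq _ _ := Z.ψ_eq _ _
  C := C
  hC := hC
  d _ := 0
  hd _ _ _ _ := rfl

variable {h : Full Z} {C : Car (Matrix ρ ρ ℤ) N} {hC : ∀ a, C.i a = (C.e a)ᵀ}

theorem Full.jac_ch {i k : A.ι} {O : Set (E N)} {φ : E N → E N}
    (a : IsChange (A.C i) (A.C k) O φ) (b : ∀ w ∈ O, A.p k (φ w) = A.p i w) {z : E N}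
    (hz : z ∈ O) : (h.geo C hC).p i z = (h.geo C hC).p k (φ z) ∧
      jac ((h.geo C hC).ch i k) z = jac φ z := by
  have e : (h.geo C hC).Ch i k z φ := by
    filter_upwards [a.isOpen.mem_nhds hz] with w hw
    exact ⟨a.hol.differentiableAt (a.isOpen.mem_nhds hw), Z.sub k (a.maps hw),
      (Z.p_congr (a.maps hw) (a.sub hw)).2 (b w hw)⟩
  exact ⟨e.self_of_nhds.2.2.symm, by simp only [jac, (Geo.ch_ev e).fderiv_eq]⟩

/-- A form on `Y` restricts to a form on `X`. -/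
theorem Full.is10 {β : A.ι → E N → E N} (hβ : (h.geo C hC).F1 β) :
    Is10 A β ∧ ∀ a, Upto Z fun i z => β i z a := by
  refine ⟨⟨fun i => (hβ.1 i).mono (Z.sub i), fun i j O φ a b z hz => ?_⟩, fun a i w hw => ?_⟩
  · obtain ⟨e1, e2⟩ := Full.jac_ch (h := h) (hC := hC) a b hz
    rw [← e2]
    exact hβ.2 i j z (Z.sub i (a.sub hz)) _ (Z.sub j (a.maps hz)) e1
  · obtain ⟨r, h0, hr⟩ := Metric.isOpen_iff.1 (Z.isOpen _) w hw
    exact ⟨r, _, h0, (contDiffOn_pi.1 (hβ.1 i) a).mono hr, fun _ _ => rfl⟩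

theorem Full.is20 {γ : A.ι → E N → Mat N} (hγ : (h.geo C hC).F2 γ) : Is20 A γ := by
  refine ⟨fun i a b => (hγ.1 i a b).mono (Z.sub i), fun i z hz => hγ.2 i z (Z.sub i hz),
    fun i j O φ a b z hz => ?_⟩
  obtain ⟨e1, e2⟩ := Full.jac_ch (h := h) (hC := hC) a b hz
  rw [← e2]
  exact hγ.3 i j z (Z.sub i (a.sub hz)) _ (Z.sub j (a.maps hz)) e1

/-- A form on `X` with smooth extensions is the restriction of a form on `Y`. -/
theorem Full.f2 {γ : A.ι → E N → Mat N} (hγ : Is20 A γ) (hu : ∀ a b, Upto Z fun i z => γ i z a b) :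
    ∃ γ' : A.ι → E N → Mat N, (h.geo C hC).F2 γ' ∧ ∀ i, EqOn (γ' i) (γ i) (A.C i).W := by
  choose g h1 h2 using fun a b => h.ext (hu a b)
  let γ' : A.ι → E N → Mat N := fun i z => Matrix.of fun a b => g a b i z
  have e : ∀ i, EqOn (γ' i) (γ i) (A.C i).W := fun i z hz => Matrix.ext fun a b => h2 a b i hz
  refine ⟨γ', ⟨fun i a b => h1 a b i, fun i z hz => Matrix.ext fun a b => ?_,
    fun i j z hz y hy e' => Matrix.ext fun a b => ?_⟩, e⟩
  · exact h.eqOn (Z.isOpen _) Subset.rfl (h1 b a i).continuousOn (h1 a b i).continuousOn.neg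
      (fun w hw => by
        have e1 := hγ.2.1 i w hw.2
        rw [← e i hw.2] at e1
        exact congrFun (congrFun e1 a) b) hz
  · let X := h.geo C hC
    have hO := (X.ov i j).2
    have c1 : SmM (X.ov i j) (jac (X.ch i j)) := fun a b =>
      contDiffOn_pi.1 (smooth_of_hol hO (differentiableOn_pi.2 (jac_hol hO Geo.ov_hol a))) b
    have c2 : SmM (X.ov i j) fun w => γ' j (X.ch i j w) := fun a b =>
      (h1 a b j).comp (smooth_of_hol hO Geo.ov_hol) Geo.ov_maps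
    rw [← Geo.ch_eq hy e']
    refine h.eqOn hO inter_subset_left ((h1 a b i).continuousOn.mono inter_subset_left)
      (((SmM.mul (m := fun w => (jac (X.ch i j) w)ᵀ) (fun a b => c1 b a) c2).mul c1) a
        b).continuousOn (fun w hw => ?_) ⟨hz, y, hy, e'.symm⟩
    obtain ⟨v, hv, ev⟩ := hw.1.2
    obtain ⟨c3, c4⟩ := h.mem hv (ev.trans (Z.p_eq i w hw.2))
    obtain ⟨O, φ, c5, c6, rfl, c7⟩ := A.trans i j w hw.2 v c3 c4.symm
    change γ' i w a b = ((jac (X.ch i j) w)ᵀ * γ' j (X.ch i j w) * jac (X.ch i j) w) a b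
    rw [(Full.jac_ch c5 c7 c6).2, Geo.ch_eq hv ev.symm, e i hw.2, e j c3,
      ← hγ.2.2 i j O φ c5 c7 w c6]

end Pool.Agent.ZB
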