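import Pool.Agent.K.MP_63735c_ag.C221

/-! The two cohomological properties of the resolution. -/

open scoped ComplexOrder ContDiff Matrix Topology ENNReal
open Set Metric MeasureTheory Filter

namespace Pool.Agent.SE

open Pool.Agent.SPF Pool.Agent.AB

variable {N : ℕ} {Y : Type} [TopologicalSpace Y] [CompactSpace Y] [T2Space Y] {κ : Type}
  {U : κ → Set Y}

/-- A partition of unity subordinate to an open cover. -/
theorem pu_sub (D : Man Y N) (hc : D.M = univ) (hU : ∀ a, IsOpen (U a)) (hcov : ∀ x, ∃ a, x ∈ U a) :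
    ∃ (m : ℕ) (a : Fin m → κ) (θ : Fin m → Y → ℝ) (K : Fin m → Set Y), (∀ k, D.Smo (θ k)) ∧
      (∀ k, IsClosed (K k) ∧ K k ⊆ U (a k) ∧ ∀ x ∉ K k, θ k x = 0) ∧ ∀ x, ∑ k, θ k x = 1 := by
  have ho : ∀ i a, IsOpen (D.W i ∩ D.p i ⁻¹' U a) := fun i a =>
    (D.cont i).isOpen_inter_preimage (D.isOpen i) (hU a)
  let D' : Man Y N :=
    { ι := D.ι × κ
      W := fun q => D.W q.1 ∩ D.p q.1 ⁻¹' U q.2
      p := fun q => D.p q.1
      isOpen := fun q => ho _ _
      cont := fun q => (D.cont _).mono inter_subset_left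
      inj := fun q => (D.inj _).mono inter_subset_left
      opn := fun q O h1 h2 => D.opn _ O h1 (h2.trans inter_subset_left)
      trans := fun q q' z hz y hy e => by
        obtain ⟨φ, rfl, h⟩ := D.trans _ _ z hz.1 y hy.1 e
        refine ⟨φ, rfl, ?_⟩
        filter_upwards [h, h.self_of_nhds.1.continuousAt.eventually ((ho _ _).mem_nhds hy)]
          with w h1 h2
        exact ⟨h1.1, h2, h1.2.2⟩ }
  obtain ⟨m, q, τ, h1, -, h2⟩ := Man.exists_pu (D := D') (θ := fun _ => 1)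
    ⟨fun _ => contDiffOn_const, univ, isCompact_univ, fun x _ => by
      obtain ⟨i, z, hz, rfl⟩ := Man.exists_chart (D := D) (x := x) (hc ▸ mem_univ x)
      obtain ⟨a, ha⟩ := hcov (D.p i z)
      exact Man.mem_M (D := D') (i := (i, a)) ⟨hz, ha⟩, fun x hx => (hx (mem_univ x)).elim⟩
    fun _ => zero_le_one
  refine ⟨m, fun k => (q k).2, fun k => D'.ext (q k) (τ k), fun k => D'.p (q k) '' tsupport (τ k),
    fun k i z hz => ?_, fun k => ⟨(Man.cpt_img (h1 k).cpt (h1 k).sub).1.isClosed, ?_,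
      fun x hx => Man.ext_zero (fun z _ => image_eq_zero_of_notMem_tsupport) hx⟩,
    fun x => (h2 x).symm⟩
  · obtain ⟨a, ha⟩ := hcov (D.p i z)
    exact (((Man.ext_S (h1 k)).1 (i, a)).contDiffAt ((ho i a).mem_nhds ⟨hz, ha⟩)).contDiffWithinAt
  · rintro _ ⟨z, hz, rfl⟩
    exact ((h1 k).sub hz).2

/-- A smooth splitting of the conjugate of a holomorphic cocycle. -/
theorem smooth_split (D : Man Y N) (hc : D.M = univ) (hU : ∀ a, IsOpen (U a))
    (hcov : ∀ x, ∃ a, x ∈ U a) {c : κ → κ → Y → ℂ}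
    (h1 : ∀ a b i, ContDiffOn ℝ ∞ (fun w => c a b (D.p i w)) (D.W i ∩ D.p i ⁻¹' (U a ∩ U b)))
    (h2 : ∀ a b d, ∀ x ∈ U a ∩ U b ∩ U d, c a b x + c b d x = c a d x) :
    ∃ f : κ → Y → ℂ, (∀ a i, ContDiffOn ℝ ∞ (fun w => f a (D.p i w)) (D.W i ∩ D.p i ⁻¹' U a)) ∧
      ∀ a b, ∀ x ∈ U a ∩ U b, c a b x = f a x - f b x := by
  obtain ⟨m, q, θ, K, b1, b2, b3⟩ := pu_sub D hc hU hcov
  refine ⟨fun a x => ∑ k, θ k x * c a (q k) x, fun a i => ContDiffOn.sum fun k _ z hz => ?_,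
    fun a b x hx => ?_⟩
  · by_cases hk : D.p i z ∈ K k
    · exact ((ofReal_smooth (b1 k i)).mono inter_subset_left z hz).mul
        ((h1 a (q k) i).contDiffAt (((D.cont i).isOpen_inter_preimage (D.isOpen i)
          ((hU _).inter (hU _))).mem_nhds ⟨hz.1, hz.2, (b2 k).2.1 hk⟩)).contDiffWithinAt
    · refine (contDiffAt_const (c := 0).congr_of_eventuallyEq ?_).contDiffWithinAt
      filter_upwards [(Man.contAt_p hz.1).eventually ((b2 k).1.isOpen_compl.mem_nhds hk)] with w hw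
      rw [(b2 k).2.2 _ hw, Complex.ofReal_zero, zero_mul]
  · rw [← Finset.sum_sub_distrib, ← one_mul (c a b x), ← Complex.ofReal_one, ← b3 x,
      Complex.ofReal_sum, Finset.sum_mul]
    refine Finset.sum_congr rfl fun k _ => ?_
    by_cases hk : x ∈ K k
    · rw [← h2 a b (q k) x ⟨hx, (b2 k).2.1 hk⟩]
      ring
    · simp [(b2 k).2.2 _ hk]

variable {ρ : Type} [Fintype ρ] [DecidableEq ρ] [MeasurableSpace Y] [BorelSpace Y]

theorem Geo.split {X : Geo Y N ρ} (hd : ∀ r, X.d r = 0) (T : Du (X.C.mat ℂ))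
    (h0 : ∀ h, X.F1 h → (∀ i, DifferentiableOn ℂ (h i) (X.W i)) → ∀ i, ∀ z ∈ X.W i, h i z = 0)
    (hU : ∀ a, IsOpen (U a)) (hcov : ∀ x, ∃ a, x ∈ U a) {c : κ → κ → Y → ℂ}
    (h1 : ∀ a b i, DifferentiableOn ℂ (fun w => c a b (X.p i w)) (X.W i ∩ X.p i ⁻¹' (U a ∩ U b)))
    (h2 : ∀ a b d, ∀ x ∈ U a ∩ U b ∩ U d, c a b x + c b d x = c a d x) :
    ∃ k : κ → Y → ℂ, (∀ a i, ∀ z ∈ X.W i, X.p i z ∈ U a →
      DifferentiableAt ℂ (fun w => k a (X.p i w)) z) ∧
      ∀ a b, ∀ x ∈ U a ∩ U b, c a b x = k a x - k b x := by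
  have ho : ∀ i {O : Set Y}, IsOpen O → IsOpen (X.W i ∩ X.p i ⁻¹' O) := fun i O hO =>
    (X.cont i).isOpen_inter_preimage (X.isOpen i) hO
  obtain ⟨f, b1, b2⟩ := smooth_split X.toMan X.cover hU hcov (c := fun a b x => star (c a b x))
    (fun a b i => Complex.conjCLE.contDiff.comp_contDiffOn fun z hz => (smoothAt_of_hol'
      ((h1 a b i).eventually_differentiableAt
        ((ho i ((hU a).inter (hU b))).mem_nhds hz))).contDiffWithinAt)
    fun a b d x hx => by rw [← star_add, h2 a b d x hx]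
  have b3 : ∀ a i, ∀ z ∈ X.W i, X.p i z ∈ U a → ContDiffAt ℝ ∞ (fun w => f a (X.p i w)) z :=
    fun a i z hz ha => (b1 a i).contDiffAt ((ho i (hU a)).mem_nhds ⟨hz, ha⟩)
  choose s hs using hcov
  let α : X.ι → E N → E N := fun i z l => dz l (fun w => f (s (X.p i z)) (X.p i w)) z
  have b4 : ∀ a i, ∀ z ∈ X.W i ∩ X.p i ⁻¹' U a, ∀ l,
      α i z l = dz l (fun w => f a (X.p i w)) z := fun a i z hz l => by
    have c1 := (ho i ((hU (s (X.p i z))).inter (hU a))).mem_nhds ⟨hz.1, hs _, hz.2⟩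
    rw [← sub_eq_zero, ← (dz_sub ((b3 _ i z hz.1 (hs _)).differentiableAt (by simp))
      ((b3 a i z hz.1 hz.2).differentiableAt (by simp)) l).1,
      ← (dz_congr (mem_of_superset c1 fun w hw => b2 _ a _ hw.2) l).self_of_nhds,
      ← (star_dz _ z l).2, (dz_of_diff ((h1 _ a i).differentiableAt c1) l).2, star_zero]
  have b5 : ∀ i, ∀ z ∈ X.W i, ∀ l,
      (fun w => α i w l) =ᶠ[𝓝 z] dz l fun w => f (s (X.p i z)) (X.p i w) := fun i z hz l =>
    mem_of_superset ((ho i (hU _)).mem_nhds ⟨hz, hs _⟩) fun w hw => b4 _ i w hw l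
  obtain ⟨u, h, c1, c2, c3, c4⟩ := Geo.hodge1 hd T (α := α)
    ⟨fun i => contDiffOn_pi.2 fun l z hz => ((((dz_smooth (ho i (hU _)) (b1 _ i) l).1.contDiffAt
      ((ho i (hU _)).mem_nhds ⟨hz, hs _⟩)).congr_of_eventuallyEq (b5 i z hz l))).contDiffWithinAt,
    fun i j z hz y hy e => funext fun l => by
      have d1 := Geo.ch_Ch hz hy e
      have d2 := dz_comp (f := fun w => f (s (X.p j y)) (X.p j w)) (by
        rw [Geo.ch_eq hy e]
        exact (b3 _ j y hy (hs _)).differentiableAt (by simp)) d1.self_of_nhds.1 l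
      rw [Geo.ch_eq hy e] at d2
      refine Eq.trans (dz_congr (d1.mono fun w hw => ?_) l).self_of_nhds
        (d2.1.trans (Finset.sum_congr rfl fun _ _ => mul_comm _ _))
      simp only [hw.2.2, e]⟩
    fun i z hz a b => by
      rw [(dz_congr (b5 i z hz b) a).self_of_nhds, (dz_congr (b5 i z hz a) b).self_of_nhds]
      exact (ablev_comm (b3 _ i z hz (hs _)) a b).2
  refine ⟨fun a x => star (f a x - u x), fun a i z hz ha => ?_, fun a b x hx => ?_⟩
  · have d1 := (b3 a i z hz ha).differentiableAt (by simp)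
    have d2 := diffAt (X.isOpen i) (c1 i) hz
    refine diff_of_dzb (d1.fun_sub d2).star fun l => ?_
    rw [← (star_dz _ z l).1, (dz_sub d1 d2 l).1, ← b4 a i z ⟨hz, ha⟩, c4 i z hz,
      h0 h c2 c3 i z hz]
    simp
  · rw [← star_sub, sub_sub_sub_cancel_right, ← b2 a b x hx, star_star]

end Pool.Agent.SE

namespace Pool.Agent.ZB

open Pool.Agent.BP Pool.Agent.SPF Pool.Agent.AB Pool.Agent.SE

variable {N : ℕ} {X : Type} [TopologicalSpace X] {A : Atlas X N} {L : Line A} {Y : Type}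
  [TopologicalSpace Y] [CompactSpace Y] [T2Space Y] {Z : Res L Y}

theorem exists_du' (N : ℕ) : ∃ (ρ : Type) (_ : Fintype ρ) (_ : DecidableEq ρ)
    (C : Car (Matrix ρ ρ ℤ) N), (∀ a, C.i a = (C.e a)ᵀ) ∧ Nonempty (Du (C.mat ℂ)) := by
  obtain ⟨ρ, _, _, C, d, r0, hC, h1, h2⟩ := exists_car N
  exact ⟨ρ, _, _, C, hC, exists_du hC (r0 := r0) fun a s => by_contra fun e => by
    have := h1 a r0 s e
    omega⟩

theorem Full.h02 (h : Full Z) (h20 : H20 A) : H02Y Z := by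
  intro γ hγ hu hc
  borelize Y
  obtain ⟨ρ, _, _, C, hC, ⟨T⟩⟩ := exists_du' N
  obtain ⟨γ', h3, h4⟩ := Full.f2 (h := h) (hC := hC) hγ hu
  have h5 := fun i a b c => (dz_smooth (Z.isOpen (Z.c i)) (h3.1 i b c) a).1.continuousOn
  obtain ⟨β, k, b1, b2, b3, b4⟩ := Geo.hodge2 (X := h.geo C hC) (fun _ => rfl) T h3
    fun i z hz a b c => h.eqOn (Z.isOpen _) Subset.rfl
      (((h5 i a b c).add (h5 i b c a)).add (h5 i c a b)) continuousOn_const (fun w hw => by
        have e : ∀ a b c, dz a (fun w => γ' i w b c) w = dz a (fun w => γ i w b c) w :=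
          fun a b c => (dz_congr (mem_of_superset ((A.C i).isOpen.mem_nhds hw.2) fun t ht =>
            congrFun (congrFun (h4 i ht) b) c) a).self_of_nhds
        simpa only [Pi.add_apply, e] using hc i w hw.2 a b c) hz
  obtain ⟨c, hc'⟩ := h20 k (Full.is20 b2) fun i a b => (b3 i a b).mono (Z.sub i)
  refine ⟨c, β, (Full.is10 b1).1, (Full.is10 b1).2, fun i z hz a b => ?_⟩
  rw [← h4 i hz, b4 i z (Z.sub i hz), hc' i z hz]
  rfl

theorem Full.h1 (h : Full Z) (hO : NoOdd A) : H1Y Z := by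
  intro κ U c hU hcov hc hcc
  borelize Y
  obtain ⟨ρ, _, _, C, hC, ⟨T⟩⟩ := exists_du' N
  obtain ⟨k, h1, h2⟩ := Geo.split (X := h.geo C hC) (fun _ => rfl) T (fun β hβ hb i =>
    h.eqOn (Z.isOpen _) Subset.rfl (hb i).continuousOn continuousOn_const fun z hz => by
      have e := hO 1 odd_one
        (fun i z => AlternatingMap.ofSubsingleton ℂ (E N) ℂ 0 (dotProductBilin ℂ ℂ (β i z)))
        ⟨fun i v => ((dot_hol (hb i) (v 0)).mono (Z.sub i)).congr fun z _ =>
          dotProduct_comm (β i z) (v 0),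
          fun i j O φ a b z hz v => by
            change β i z ⬝ᵥ v 0 = β j (φ z) ⬝ᵥ fderiv ℂ φ z (v 0)
            rw [(Full.is10 hβ).1.2 i j O φ a b z hz, ← Matrix.dotProduct_mulVec,
              NL.jac_mulVec]⟩ i z hz.2
      funext a
      exact (dotProduct_single_one (β i z) a).symm.trans
        (DFunLike.congr_fun e fun _ => Pi.single a 1)) hU hcov (fun a b i => hc a b _) hcc
  refine ⟨k, fun a l w hw => ?_, h2⟩
  obtain ⟨i, v, hv, e⟩ := h.cover (Z.p l w)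
  obtain ⟨φ, rfl, h3⟩ := Z.trans l (Z.c i) w hw.1 v hv e.symm
  refine (((h1 a i _ hv (mem_of_eq_of_mem e hw.2)).comp w h3.self_of_nhds.1).congr_of_eventuallyEq
    (h3.mono fun t ht => ?_)).differentiableWithinAt
  exact congrArg (k a) ht.2.2.symm

end Pool.Agent.ZB
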