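import Pool.Agent.P.MP_63735c_ag.SPSm
import Pool.Agent.K.MP_63735c_ag.C204
import Pool.Agent.K.MP_63735c_ag.C5
import Pool.Agent.K.MP_63735c_ag.C7
import Pool.Agent.K.MP_63735c_ag.C165
import Pool.Agent.K.MP_63735c_ag.C27
import Pool.Agent.K.MP_63735c_ag.C52

-- part Pool.Agent.P.MP_63735c_ag.ABX1
section

/-! Extension of square integrable holomorphic functions. -/

open scoped ContDiff Matrix ENNReal
open Set Metric MeasureTheory Filter Topology

namespace Pool.Agent.CL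

open Pool.Agent.SPF

variable {N : ℕ}

/-- If `g f^m` is locally square integrable off the zeros of `f`, then `g f^(m+N+2)` is
holomorphic across them. -/
theorem ext_hol {O : Set (E N)} (hO : IsOpen O) {f g : E N → ℂ} (hf : DifferentiableOn ℂ f O)
    (hg : ∀ z ∈ O, f z ≠ 0 → DifferentiableAt ℂ g z) {m : ℕ}
    (hi : ∀ z ∈ O, ∃ U ∈ 𝓝 z,
      ∫⁻ x in U ∩ {x | f x ≠ 0}, ENNReal.ofReal (‖g x * f x ^ m‖ ^ 2) ≠ ⊤) :
    DifferentiableOn ℂ (fun z => g z * f z ^ (m + N + 2)) O := by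
  intro z0 hz0
  refine DifferentiableAt.differentiableWithinAt ?_
  by_cases h0 : f z0 = 0
  swap
  · exact (hg z0 hz0 h0).mul ((hf.differentiableAt (hO.mem_nhds hz0)).pow _)
  obtain ⟨c, hc, hmv⟩ := mv_rad (N := N)
  obtain ⟨U, hU, hI⟩ := hi z0 hz0
  obtain ⟨K, t, ht, hK⟩ := (((smooth_of_hol (φ := fun z (_ : Fin 1) => f z) hO
    (differentiableOn_pi.2 fun _ => hf)).contDiffAt (hO.mem_nhds hz0)).of_le
      (m := 1) (by simp)).exists_lipschitzOnWith
  obtain ⟨r, hr, hb⟩ := Metric.mem_nhds_iff.1 (inter_mem (inter_mem hU ht) (hO.mem_nhds hz0))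
  set L : ℝ := K + 1 with hL
  have hL0 : 0 < L := by positivity
  have lip : ∀ x ∈ ball z0 r, ∀ y ∈ ball z0 r, ‖f x - f y‖ ≤ L * ‖x - y‖ := fun x hx y hy => by
    have := (norm_le_pi_norm _ 0).trans (hK.norm_sub_le (hb hx).1.2 (hb hy).1.2)
    simp only [Pi.sub_apply] at this
    nlinarith [norm_nonneg (x - y)]
  set I := (∫⁻ x in U ∩ {x | f x ≠ 0}, ENNReal.ofReal (‖g x * f x ^ m‖ ^ 2)).toReal
    with hIdef
  have key : ∀ z ∈ ball z0 (r / 2),
      ‖g z * f z ^ (m + N + 2)‖ ≤ (I / c + 1) * (2 * L) ^ N * L ^ 2 * ‖z - z0‖ ^ 2 := by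
    intro z hz
    have hI0 : 0 ≤ I := ENNReal.toReal_nonneg
    by_cases hz1 : f z = 0
    · rw [hz1, zero_pow (by omega), mul_zero, norm_zero]
      positivity
    have hzn : ‖z - z0‖ < r / 2 := mem_ball_iff_norm.1 hz
    have hzr : z ∈ ball z0 r := ball_subset_ball (by linarith) hz
    have hfz : ‖f z‖ ≤ L * ‖z - z0‖ := by simpa [h0] using lip z hzr z0 (mem_ball_self hr)
    have hp : 0 < ‖f z‖ := norm_pos_iff.2 hz1
    set ρ := ‖f z‖ / (2 * L) with hρ
    have hρ0 : 0 < ρ := by positivity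
    have hρ1 : L * ρ = ‖f z‖ / 2 := by rw [hρ]; field_simp
    have hρ2 : ρ < r / 2 := by
      refine lt_of_mul_lt_mul_left ?_ hL0.le
      nlinarith
    have hs : ball z ρ ⊆ ball z0 r := ball_subset_ball' (by rw [dist_eq_norm]; linarith)
    have hne : ∀ x ∈ ball z ρ, f x ≠ 0 := fun x hx h => by
      have h1 := lip x (hs hx) z hzr
      have h2 := mem_ball_iff_norm.1 hx
      rw [h, zero_sub, norm_neg] at h1
      nlinarith
    have h3 := hmv (fun x => g x * f x ^ m) z ρ I hρ0 hI0 (fun x hx =>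
      ((hg x (hb (hs hx)).2 (hne x hx)).mul ((hf.differentiableAt
        (hO.mem_nhds (hb (hs hx)).2)).pow _)).differentiableWithinAt) (by
      rw [hIdef, ENNReal.ofReal_toReal hI]
      exact lintegral_mono_set fun x hx => ⟨(hb (hs hx)).1.1, hne x hx⟩)
    have h4 : ‖g z * f z ^ m‖ * ρ ^ N ≤ I / c + 1 := by
      have : (‖g z * f z ^ m‖ * ρ ^ N) ^ 2 ≤ I / c := by rw [le_div_iff₀ hc]; linarith
      nlinarith [sq_nonneg (‖g z * f z ^ m‖ * ρ ^ N - 1), sq_nonneg (‖g z * f z ^ m‖ * ρ ^ N)]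
    have h5 : ‖f z‖ = ρ * (2 * L) := by rw [hρ]; field_simp
    calc ‖g z * f z ^ (m + N + 2)‖ = ‖g z * f z ^ m‖ * ρ ^ N * (2 * L) ^ N * ‖f z‖ ^ 2 := by
          rw [pow_add, pow_add, ← mul_assoc, ← mul_assoc, norm_mul, norm_mul _ (f z ^ N), norm_pow,
            norm_pow, mul_assoc _ (ρ ^ N), ← mul_pow, ← h5]
      _ ≤ (I / c + 1) * (2 * L) ^ N * (L * ‖z - z0‖) ^ 2 := by gcongr
      _ = _ := by ring
  refine (Asymptotics.IsBigO.hasFDerivAt (n := 2) ?_ one_lt_two).differentiableAt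
  refine Asymptotics.IsBigO.of_bound ((I / c + 1) * (2 * L) ^ N * L ^ 2) ?_
  filter_upwards [ball_mem_nhds z0 (half_pos hr)] with z hz
  simpa using key z hz

end Pool.Agent.CL
end

-- part Pool.Agent.P.MP_63735c_ag.ABX2
section

/-! A square integrable holomorphic function off the zeros of a section gives a section. -/

open scoped ContDiff Matrix ENNReal
open Set Metric MeasureTheory Filter Topology

namespace Pool.Agent.AB

open Pool.Agent.SPF

variable {N : ℕ} {Y : Type} [TopologicalSpace Y]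

theorem abx2_det (C : Chart N) : ContinuousOn (fun z => ‖(C.σ z).det‖) C.W := by
  refine ContinuousOn.norm ?_
  simp only [Matrix.det_apply]
  exact continuousOn_finsetSum _ fun s _ =>
    (continuousOn_finsetProd _ fun a _ => (C.σ_hol _ _).continuousOn).const_smul _

/-- Extension across the zeros of the section, with the hypotheses stated in charts. -/
theorem ext_section (A : Atlas Y N) {k : ℝ} {u : Y → ℝ} (hu : A.IsSectionNorm k u)
    {g s : Y → ℂ} {m : ℕ} {B : ℝ} (hs : ∀ x, ‖s x‖ ≤ B)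
    (hg : ∀ i, ∀ z ∈ (A.C i).W, u (A.p i z) ≠ 0 → DifferentiableAt ℂ (fun y => g (A.p i y)) z)
    (hi : ∀ i, IntegrableOn (fun z => u (A.p i z) ^ m * ‖((A.C i).σ z).det‖ *
      ‖g (A.p i z) - s (A.p i z)‖ ^ 2) ((A.C i).W ∩ A.p i ⁻¹' {x | u x ≠ 0}) volume) :
    A.IsSectionNorm ((m + N + 2 : ℕ) * k) fun x => ‖g x‖ ^ 2 * u x ^ (m + N + 2) := by
  intro i z hz
  obtain ⟨O, ψ, f, hO, hzO, hOW, hψ, hf, h⟩ := hu i z hz
  have hne : ∀ w ∈ O, f w ≠ 0 → u (A.p i w) ≠ 0 := fun w hw h0 => by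
    rw [(h w hw).2]
    have := norm_pos_iff.2 h0
    positivity
  refine ⟨O, ψ, fun w => g (A.p i w) * f w ^ (m + N + 2), hO, hzO, hOW, hψ,
    CL.ext_hol hO hf (fun w hw h0 => hg i w (hOW hw) (hne w hw h0)) fun y hy => ?_,
    fun w hw => ⟨(h w hw).1, ?_⟩⟩
  · obtain ⟨r, hr, hb⟩ := nhds_basis_closedBall.mem_iff.1 (hO.mem_nhds hy)
    obtain ⟨c, hc, hc1⟩ := (isCompact_closedBall y r).exists_forall_le' (a := 0)
      (f := fun w => Real.exp (-k * ψ w) ^ m * ‖((A.C i).σ w).det‖)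
      ((((continuousOn_const.mul (hψ.continuousOn.mono hb)).rexp).pow m).mul
        ((abx2_det _).mono (hb.trans hOW))) fun w hw => by
        have := norm_pos_iff.2 ((A.C i).σ_det w (hOW (hb hw)))
        positivity
    obtain ⟨B', hB'⟩ := (isCompact_closedBall y r).exists_bound_of_continuousOn
      ((hf.continuousOn.mono hb).pow m)
    have hsub : ball y r ⊆ O := ball_subset_closedBall.trans hb
    have hop : IsOpen (ball y r ∩ {x | f x ≠ 0}) :=
      (hf.continuousOn.mono hsub).isOpen_inter_preimage isOpen_ball isOpen_ne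
    have h1 := ((hi i).mono_set (s := ball y r ∩ {x | f x ≠ 0})
      fun w hw => ⟨hOW (hsub hw.1), hne w (hsub hw.1) hw.2⟩).const_mul (2 / c)
    have h2 : IntegrableOn (fun _ : E N => 2 * (B * B') ^ 2) (ball y r ∩ {x | f x ≠ 0}) volume :=
      integrableOn_const ((measure_mono inter_subset_left).trans_lt measure_ball_lt_top).ne
    refine ⟨ball y r, ball_mem_nhds y hr, ne_top_of_le_ne_top (h1.add h2).lintegral_lt_top.ne
      (setLIntegral_mono' hop.measurableSet fun w hw => ENNReal.ofReal_le_ofReal ?_)⟩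
    have hw' := ball_subset_closedBall hw.1
    have e1 : ‖g (A.p i w) * f w ^ m‖ ≤ ‖g (A.p i w) - s (A.p i w)‖ * ‖f w‖ ^ m + B * B' := by
      rw [show g (A.p i w) * f w ^ m = (g (A.p i w) - s (A.p i w)) * f w ^ m +
        s (A.p i w) * f w ^ m by ring]
      refine (norm_add_le _ _).trans (add_le_add (by rw [norm_mul, norm_pow]) ?_)
      rw [norm_mul]
      exact mul_le_mul (hs _) (hB' w hw') (norm_nonneg _) ((norm_nonneg _).trans (hs (A.p i w)))
    have e2 : (‖g (A.p i w) - s (A.p i w)‖ * ‖f w‖ ^ m) ^ 2 * c ≤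
        u (A.p i w) ^ m * ‖((A.C i).σ w).det‖ * ‖g (A.p i w) - s (A.p i w)‖ ^ 2 := by
      refine (mul_le_mul_of_nonneg_left (hc1 w hw') (sq_nonneg _)).trans (le_of_eq ?_)
      rw [(h w (hb hw')).2]
      ring
    rw [← le_div_iff₀ hc] at e2
    have e3 := pow_le_pow_left₀ (norm_nonneg _) e1 2
    simp only [Pi.add_apply]
    rw [div_mul_eq_mul_div, mul_div_assoc]
    nlinarith [sq_nonneg (‖g (A.p i w) - s (A.p i w)‖ * ‖f w‖ ^ m - B * B')]
  · simp only
    rw [(h w hw).2, norm_mul, norm_pow, mul_pow _ (Real.exp _), ← Real.exp_nat_mul,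
      show ((m + N + 2 : ℕ) : ℝ) * (-k * ψ w) = -((m + N + 2 : ℕ) * k) * ψ w by ring]
    ring

variable {A : Atlas Y N} {hinj : ∀ i, InjOn (A.p i) (A.C i).W} {k : ℝ}

theorem ext_sect [T2Space Y] {u : Y → ℝ} (hu : A.IsSectionNorm k u) {hM : IsOpen {x | u x ≠ 0}}
    {g s : Y → ℂ} (hg : (man A hinj hM).Hol g) (hs : (man A hinj hM).S s) {m : ℕ}
    (hi : ∀ i, IntegrableOn
      (fun z => wm A (fun x => -Real.log (u x)) m i z * ‖g (A.p i z) - s (A.p i z)‖ ^ 2)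
      ((man A hinj hM).W i) volume) :
    A.IsSectionNorm ((m + N + 2 : ℕ) * k) fun x => ‖g x‖ ^ 2 * u x ^ (m + N + 2) := by
  obtain ⟨C, hC, -, h0⟩ := hs.2
  obtain ⟨B, hB⟩ := hC.exists_bound_of_continuousOn hs.cc.continuous.continuousOn
  refine ext_section A hu (s := s) (B := max B 0) (fun x => ?_)
    (fun i z hz h => (hg i).differentiableAt (((man A hinj hM).isOpen i).mem_nhds ⟨hz, h⟩)) fun i =>
      (hi i).congr_fun (fun z hz => ?_) ((man A hinj hM).isOpen i).measurableSet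
  · by_cases hx : x ∈ C
    · exact (hB x hx).trans (le_max_left _ _)
    · rw [h0 x hx, norm_zero]
      exact le_max_right _ _
  · obtain ⟨O, ψ, f, -, hzO, -, -, -, h⟩ := hu i z hz.1
    have hp : 0 < u (A.p i z) := lt_of_le_of_ne (by rw [(h z hzO).2]; positivity) (Ne.symm hz.2)
    simp only [wm, mul_neg, neg_neg, Real.exp_nat_mul, Real.exp_log hp]

end Pool.Agent.AB
end

-- part Pool.Agent.P.MP_63735c_ag.ABMain
section

/-! Sections that cut out the tori. -/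

open scoped ComplexOrder ContDiff Matrix Topology ENNReal
open Set Metric MeasureTheory Filter

namespace Pool.Agent.AB

open Pool.Agent.SPF Pool.Agent.NL Pool.Agent.CK Pool.Agent.CS

variable {N n : ℕ} {T : Set (E n)}

theorem base_open {Y : Type} [TopologicalSpace Y] {A : Atlas Y N} {Ψ : E n × E n → Y}
    (h : A.IsUnif T Ψ) (hT : IsOpen T) {k : ℝ} {u : Y → ℝ} (hu : A.IsSectionNorm k u) :
    IsOpen (T ∩ {b | u (Ψ (b, 0)) ≠ 0}) :=
  ContinuousOn.isOpen_inter_preimage (f := fun b => Ψ (b, 0)) (fun b hb =>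
    (ContinuousAt.comp (f := fun b : E n => ((b, 0) : E n × E n)) (unif_cont h (w := (b, 0)) hb)
      (by fun_prop)).continuousWithinAt) hT (sect_open hu)

theorem abundance {X : Type} [TopologicalSpace X] [T2Space X] [CompactSpace X] {R : Set X}
    {A : Atlas R N} {B : Amb R A} (hinj : ∀ i, InjOn (A.p i) (A.C i).W) [MeasurableSpace R]
    [BorelSpace R] {μ : Measure R} [IsFiniteMeasure μ] (hμ : IsVolume A μ) {K : Form11 A}
    (hK : IsKahler B K) {d : ℝ} (hd : 0 < d) {u : R → ℝ} (hu : A.IsSectionNorm d u) {c : ℝ}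
    (hc : ∀ x, u x ≤ c) {Ψ : E n × E n → R} (hT : IsOpen T) (hne : T.Nonempty)
    (h : A.IsUnif T Ψ) (hf : IsFibred Ψ T) (h0 : ∀ b ∈ T, u (Ψ (b, 0)) ≠ 0) :
    ∃ T' ⊆ T, IsOpen T' ∧ T'.Nonempty ∧ IsFibred Ψ T' ∧ ∃ (m : ℕ) (g : R → E n), 0 < m ∧
      (∀ j, DifferentiableOn ℂ (fun w => g (A.p j w)) {w | w ∈ (A.C j).W ∧ u (A.p j w) ≠ 0}) ∧
      (∀ l, A.IsSectionNorm (m * d) fun x => ‖g x l‖ ^ 2 * u x ^ m) ∧
      ∀ b ∈ T', ∀ τ, u (Ψ (b, τ)) ≠ 0 ∧
        ∀ b' ∈ T', ∀ τ', g (Ψ (b, τ)) = g (Ψ (b', τ')) ↔ b = b' := by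
  have h1 : ∀ b ∈ T, ∀ τ, u (Ψ (b, τ)) ≠ 0 := fun b hb τ => by
    rw [sect_leaf h hf hu hb]
    exact h0 b hb
  obtain ⟨T₁, a1, a2, a3⟩ := exists_tube hT hne h hf
  obtain ⟨K', k1, k2, k3⟩ := exists_cut hinj hK hu hc
  have hφ := pot_of_sect (hinj := hinj) (hM := sect_open hu) hu fun _ hx => hx
  obtain ⟨m, g, g1, g2, T', b1, b2, b3, b4⟩ := peak a3 a2 (fun b hb => h1 b (a1 hb)) hφ hd
    (l2_of_cut hμ hd.le hφ k1 k2 k3)
  refine ⟨T', b1.trans a1, b2, b3, fib_mono hf (b1.trans a1), m + N + 2, g, by omega, g1, fun l => ?_,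
    fun b hb τ => ⟨h1 b (a1 (b1 hb)) τ, fun b' hb' τ' => b4 b hb b' hb' τ τ'⟩⟩
  obtain ⟨s, s1, s2⟩ := g2 l
  exact ext_sect hu (g := fun x => g x l) (fun j => differentiableOn_pi.1 (g1 j) l) s1 s2

end Pool.Agent.AB
end

-- part Pool.Agent.P.MP_63735c_ag.HSAb
section

/-! A nonzero section does not vanish on a family of tori. -/

open Set Metric Filter Topology

namespace Pool.Agent.AB

open Pool.Agent.SPF Pool.Agent.NL

variable {N n : ℕ} {Y : Type} [TopologicalSpace Y] [PreconnectedSpace Y] {A : Atlas Y N} {k : ℝ}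
  {u : Y → ℝ} {T : Set (E n)} {Ψ : E n × E n → Y}

theorem sect_dense (hu : A.IsSectionNorm k u) (h0 : ∃ x, u x ≠ 0) : Dense {x | u x ≠ 0} := by
  rw [← compl_compl {x | u x ≠ 0}, ← interior_eq_empty_iff_dense_compl]
  by_contra hne
  have hc : IsClopen (interior {x | u x ≠ 0}ᶜ) := by
    refine ⟨isClosed_of_closure_subset fun x hx => ?_, isOpen_interior⟩
    obtain ⟨i, z, hz, rfl⟩ := A.cover x
    obtain ⟨O, ψ, f, hO, hzO, hs, -, hf, h⟩ := hu i z hz
    obtain ⟨r, hr, hB⟩ := Metric.isOpen_iff.1 hO z hzO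
    have ho := A.opn i _ isOpen_ball (hB.trans hs)
    obtain ⟨_, ⟨y, hy, rfl⟩, h1⟩ := mem_closure_iff.1 hx _ ho ⟨z, mem_ball_self hr, rfl⟩
    have h2 : f =ᶠ[𝓝 y] fun _ => 0 := by
      filter_upwards [((A.cont i).continuousAt ((A.C i).isOpen.mem_nhds (hs (hB hy)))).eventually
        (mem_interior_iff_mem_nhds.1 h1), hO.mem_nhds (hB hy)] with w a1 a2
      simpa [(h w a2).2] using a1
    have h3 := spident_scv isOpen_ball (convex_ball z r) (hf.mono hB) (differentiableOn_const 0) hy h2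
    refine interior_maximal ?_ ho ⟨z, mem_ball_self hr, rfl⟩
    rintro _ ⟨w, hw, rfl⟩
    simp [(h w (hB hw)).2, h3 hw]
  obtain ⟨x, hx⟩ := h0
  have h1 : x ∈ interior {x | u x ≠ 0}ᶜ := hc.eq_univ (nonempty_iff_ne_empty.2 hne) ▸ mem_univ x
  exact absurd hx (interior_subset h1)

theorem sect_base (hu : A.IsSectionNorm k u) (h0 : ∃ x, u x ≠ 0) (h : A.IsUnif T Ψ)
    (hT : IsOpen T) (hne : T.Nonempty) (hf : IsFibred Ψ T) :
    (T ∩ {b | u (Ψ (b, 0)) ≠ 0}).Nonempty := by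
  obtain ⟨b, hb⟩ := hne
  obtain ⟨i, z, hz, e⟩ := A.cover (Ψ (b, 0))
  obtain ⟨χ, hχ⟩ := unif_inv h hT hz (w := (b, 0)) hb e
  obtain ⟨V, h1, h2, h3⟩ := _root_.eventually_nhds_iff.1 (hχ.and ((A.C i).isOpen.mem_nhds hz))
  obtain ⟨_, ⟨y, hy, rfl⟩, h4⟩ := (sect_dense hu h0).inter_open_nonempty _
    (A.opn i V h2 fun y hy => (h1 y hy).2) ⟨_, z, h3, rfl⟩
  refine ⟨(χ y).1, (h1 y hy).1.2.1, fun h5 => h4 ?_⟩
  rw [← (h1 y hy).1.2.2, ← h5]
  exact sect_leaf h hf hu (h1 y hy).1.2.1 (χ y).2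

end Pool.Agent.AB
end
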