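import Pool.Agent.P.MP_63735c_ag.ZBHyp
import Pool.Agent.K.MP_63735c_ag.C225
import Pool.Agent.K.MP_63735c_ag.C35

/-! Local models of sections near a point of the singular space. -/

open scoped ComplexOrder ContDiff Matrix Topology ENNReal
open Set Metric MeasureTheory Filter

namespace Pool.Agent.ZB

open Pool.Agent.BP Pool.Agent.SPF Pool.Agent.AB Pool.Agent.CK Pool.Agent.SE Pool.Agent.NL

variable {N n : ℕ} {X : Type} [TopologicalSpace X] {R : Set X} {A : Atlas R N} {B : Amb R A}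
  {K : Form11 A} {L : Line A}


/-- The Jacobian matrix of a local embedding in a chart. -/
noncomputable abbrev Jz (B : Amb R A) (α : B.κ) (i : A.ι) (y : E N) :
    Matrix (Fin (B.M α)) (Fin N) ℂ := jac (fun y' => B.z α (A.p i y')) y

/-- Near `x` the form `K` and the sections `s l` of `L^m` come from the ambient space. -/
structure Mod (B : Amb R A) (K : Form11 A) (L : Line A) (m : ℕ) {κ : Type}
    (s : κ → A.ι → E N → ℂ) (x : X) where
  α : B.κ
  r : ℝ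
  O : Set X
  H : E (B.M α) → Mat (B.M α)
  F : κ → E (B.M α) → ℂ
  e : A.ι → E N → ℂ
  c : ℝ
  C : ℝ
  r_pos : 0 < r
  c_pos : 0 < c
  opn : IsOpen O
  mem : x ∈ O
  sub : O ⊆ B.V α
  maps : MapsTo (B.z α) O (ball (B.z α x) r)
  bsub : ball (B.z α x) (2 * r) ⊆ (B.D α).W
  H_smooth : ∀ a b, ContDiffOn ℝ ∞ (fun w => H w a b) (ball (B.z α x) (2 * r))
  H_pos : ∀ w ∈ ball (B.z α x) (2 * r), (H w).PosDef
  K_eq : ∀ i, ∀ y ∈ (A.C i).W, (A.p i y : X) ∈ O →
    K.h i y = (Jz B α i y)ᵀ * H (B.z α (A.p i y)) * (Jz B α i y).map star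
  F_hol : ∀ l, DifferentiableOn ℂ (F l) (ball (B.z α x) (2 * r))
  s_eq : ∀ l i, ∀ y ∈ (A.C i).W, (A.p i y : X) ∈ O → s l i y = F l (B.z α (A.p i y)) * e i y
  e_bd : ∀ i, ∀ y ∈ (A.C i).W, (A.p i y : X) ∈ O →
    c ≤ ‖e i y‖ ^ 2 * Real.exp (-(m * L.ψ i y)) ∧ ‖e i y‖ ^ 2 * Real.exp (-(m * L.ψ i y)) ≤ C

theorem KahS.isKahler (h : KahS B K) : CS.IsKahler B K := fun x => by
  obtain ⟨α, r, H, h1, h2, h3, h4, h5⟩ := h x
  exact ⟨α, H, h1, continuousAt_pi.2 fun a => continuousAt_pi.2 fun b =>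
    (h3 a b).continuousOn.continuousAt (ball_mem_nhds _ h2), h4 _ (mem_ball_self h2), h5⟩

theorem exists_mod (hK : KahS B K) (hN : Normal B) (hC : Cartier L) {m : ℕ} {κ : Type} [Finite κ]
    {s : κ → A.ι → E N → ℂ} (hs : ∀ l, L.IsSection m (s l)) (x : X) :
    Nonempty (Mod B K L m s x) := by
  obtain ⟨α, r, H, h1, h2, h3, h4, h5⟩ := hK x
  obtain ⟨O, e, c, C, e1, e2, e3, e4, e5⟩ := hC x
  have e6 : ∀ i, ∀ z ∈ (A.C i).W, (A.p i z : X) ∈ O → e i z ≠ 0 := fun i z hz hO h0 => by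
    have := (e5 i z hz hO).1.1
    rw [h0, norm_zero, zero_pow two_ne_zero, zero_mul] at this
    exact this.not_gt e3
  have e7 : ∀ l i, ∀ z ∈ (A.C i).W, (A.p i z : X) ∈ O →
      gl A (fun i z => s l i z / e i z ^ m) (A.p i z) = s l i z / e i z ^ m := fun l i z hz hO =>
    gl_eq fun j y hy he => by
      have h6 := e6 j y hy (by rw [he]; exact hO)
      rw [(e5 i z hz hO).2 j y hy he.symm] at h6
      rw [(hs l).2 i j z hz y hy he.symm, (e5 i z hz hO).2 j y hy he.symm, mul_pow,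
        mul_div_mul_left _ _ (pow_ne_zero _ (left_ne_zero_of_mul h6))]
  choose F f1 f2 using fun l => hN α x h1 O e1 e2 (gl A fun i z => s l i z / e i z ^ m) fun i =>
    ((((hs l).1 i).mono inter_subset_left).mul (((e4 i).pow m).inv
      fun z hz => pow_ne_zero _ (e6 i z hz.1 hz.2))).congr fun z hz =>
        (e7 l i z hz.1 hz.2).trans (div_eq_mul_inv _ _)
  obtain ⟨ρ, hρ, g1⟩ := Metric.eventually_nhds_iff_ball.1 (((eventually_all.2 f1).and
    ((B.D α).isOpen.mem_nhds (B.maps α h1))).and (ball_mem_nhds _ h2))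
  have e0 : 2 * (ρ / 2) = ρ := by ring
  have hV := (B.V_open α).mem_nhds h1
  obtain ⟨O', g2, g3, g4⟩ := _root_.eventually_nhds_iff.1 (((h5.and (eventually_all.2 f2)).and
    (((B.cont α).continuousAt hV).eventually (ball_mem_nhds _ (half_pos hρ)))).and
    (Filter.Eventually.and hV (e1.mem_nhds e2)))
  have e8 : ∀ i y, ‖e i y ^ m‖ ^ 2 * Real.exp (-(m * L.ψ i y)) =
      (‖e i y‖ ^ 2 * Real.exp (-L.ψ i y)) ^ m := fun i y => by
    rw [mul_pow, ← Real.exp_nat_mul, mul_neg, norm_pow, ← pow_mul, ← pow_mul, mul_comm m]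
  refine ⟨⟨α, ρ / 2, O', H, F, fun i y => e i y ^ m, c ^ m, C ^ m, half_pos hρ, pow_pos e3 m, g3, g4,
    fun y hy => (g2 y hy).2.1, fun y hy => (g2 y hy).1.2, fun w hw => (g1 w (e0 ▸ hw)).1.2,
    fun a b => (h3 a b).mono fun w hw => (g1 w (e0 ▸ hw)).2, fun w hw => h4 w (g1 w (e0 ▸ hw)).2,
    fun i y hy hO => (g2 _ hO).1.1.1 i y hy rfl,
    fun l w hw => ((g1 w (e0 ▸ hw)).1.1 l).differentiableWithinAt, fun l i y hy hO => ?_,
    fun i y hy hO => ?_⟩⟩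
  · have h6 := (g2 _ hO).2.2
    rw [← (g2 _ hO).1.1.2 l (A.p i y).2]
    exact (div_eq_iff (pow_ne_zero _ (e6 i y hy h6))).1 (e7 l i y hy h6).symm
  · have h6 := (e5 i y hy (g2 _ hO).2.2).1
    rw [e8]
    exact ⟨pow_le_pow_left₀ e3.le h6.1 m, pow_le_pow_left₀ (e3.le.trans h6.1) h6.2 m⟩

theorem Mod.nrm_bd {m : ℕ} {κ : Type} {s : κ → A.ι → E N → ℂ} {x : X} (M : Mod B K L m s x)
    {l : κ} (hs : L.IsSection m (s l)) {y : R} (hy : (y : X) ∈ M.O) :
    M.c * ‖M.F l (B.z M.α y)‖ ^ 2 ≤ nrm L m (s l) y ∧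
      nrm L m (s l) y ≤ M.C * ‖M.F l (B.z M.α y)‖ ^ 2 := by
  obtain ⟨i, w, hw, rfl⟩ := A.cover y
  have h := M.e_bd i w hw hy
  rw [nrm_eq hs hw, M.s_eq l i w hw hy, norm_mul, mul_pow, mul_assoc,
    mul_comm (‖M.F l _‖ ^ 2)]
  exact ⟨mul_le_mul_of_nonneg_right h.1 (sq_nonneg _), mul_le_mul_of_nonneg_right h.2 (sq_nonneg _)⟩

theorem Mod.z_cont {m : ℕ} {κ : Type} {s : κ → A.ι → E N → ℂ} {x : X} (M : Mod B K L m s x) :
    ContinuousAt (B.z M.α) x :=
  (B.cont M.α).continuousAt ((B.V_open M.α).mem_nhds (M.sub M.mem))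

theorem Mod.F_cont {m : ℕ} {κ : Type} {s : κ → A.ι → E N → ℂ} {x : X} (M : Mod B K L m s x)
    (l : κ) : ContinuousAt (fun x' => M.F l (B.z M.α x')) x :=
  ((M.F_hol l).continuousOn.continuousAt (ball_mem_nhds _ (mul_pos two_pos M.r_pos))).comp M.z_cont

/-- Every section has bounded norm. -/
def Bdd {X : Type} [TopologicalSpace X] {A : Atlas X N} (L : Line A) : Prop :=
  ∀ j s, L.IsSection j s → ∃ b, ∀ x, nrm L j s x ≤ b

theorem bdd_of [CompactSpace X] (hK : KahS B K) (hN : Normal B) (hC : Cartier L) : Bdd L := by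
  intro j s hs
  obtain ⟨b, -, h⟩ := CS.cpt_unif (X := X) (fun b x => ∀ y : R, (y : X) = x → nrm L j s y ≤ b)
    (fun _ _ _ hC h y hy => (h y hy).trans hC) fun x => by
      obtain ⟨M⟩ := exists_mod hK hN hC (s := fun _ : Unit => s) (fun _ => hs) x
      refine ⟨M.C * ‖M.F () (B.z M.α x)‖ ^ 2 + 1, ?_⟩
      filter_upwards [M.opn.mem_nhds M.mem,
        (continuousAt_const.mul ((M.F_cont ()).norm.pow 2)).eventually_lt
        continuousAt_const (lt_add_one (M.C * ‖M.F () (B.z M.α x)‖ ^ 2))] with x' a1 a2 y hy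
      subst hy
      exact (M.nrm_bd (l := ()) hs a1).2.trans a2.le
  exact ⟨b, fun y => h y y rfl⟩

end Pool.Agent.ZB
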