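import Pool.Agent.K.MP_63735c_ag.C215
import Pool.Agent.K.MP_63735c_ag.C226
import Pool.Agent.K.MP_63735c_ag.C217

/-! Forms that extend smoothly to the resolution. -/

open scoped ComplexOrder ContDiff Matrix Topology ENNReal
open Set Metric MeasureTheory Filter

namespace Pool.Agent.ZB

open Pool.Agent.BP Pool.Agent.SPF Pool.Agent.AB Pool.Agent.CK Pool.Agent.SE Pool.Agent.NL

variable {N : ℕ} {X : Type} [TopologicalSpace X] {R : Set X} {A : Atlas R N} {B : Amb R A}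
  {K : Form11 A} {L : Line A} {Y : Type} [TopologicalSpace Y] {Z : Res L Y}

/-- All entries are smooth. -/
def zbb11a_S {m n : ℕ} (s : Set (E N)) (f : E N → Matrix (Fin m) (Fin n) ℂ) : Prop :=
  ∀ a b, ContDiffOn ℝ ∞ (fun z => f z a b) s

theorem zbb11a_mul {m n k : ℕ} {s : Set (E N)} {f : E N → Matrix (Fin m) (Fin n) ℂ}
    {g : E N → Matrix (Fin n) (Fin k) ℂ} (hf : zbb11a_S s f) (hg : zbb11a_S s g) :
    zbb11a_S s fun z => f z * g z := fun a b => by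
  simp only [Matrix.mul_apply]
  exact ContDiffOn.sum fun c _ => (hf a c).mul (hg c b)

theorem zbb11a_add {m n : ℕ} {s : Set (E N)} {f g : E N → Matrix (Fin m) (Fin n) ℂ}
    (hf : zbb11a_S s f) (hg : zbb11a_S s g) : zbb11a_S s fun z => f z + g z :=
  fun a b => (hf a b).add (hg a b)

theorem zbb11a_tr {m n : ℕ} {s : Set (E N)} {f : E N → Matrix (Fin m) (Fin n) ℂ}
    (hf : zbb11a_S s f) : zbb11a_S s fun z => (f z)ᵀ := fun a b => hf b a

theorem zbb11a_star {m n : ℕ} {s : Set (E N)} {f : E N → Matrix (Fin m) (Fin n) ℂ}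
    (hf : zbb11a_S s f) : zbb11a_S s fun z => (f z).map star := fun a b =>
  Complex.conjCLE.contDiff.comp_contDiffOn (hf a b)

theorem zbb11a_hol {m n : ℕ} {s : Set (E N)} (hs : IsOpen s) {f : E N → Matrix (Fin m) (Fin n) ℂ}
    (hf : ∀ a b, DifferentiableOn ℂ (fun z => f z a b) s) : zbb11a_S s f := fun a b =>
  (Lib.SCV.contDiffOn_of_differentiableOn hs (hf a b)).restrict_scalars ℝ

theorem zbb11a_loc (P : Over B Z) (hK : KahS B K) (i : A.ι) {w : E N} (hw : w ∈ Z.W (Z.c i)) :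
    ∃ (α : B.κ) (r : ℝ) (J : E N → Matrix (Fin (B.M α)) (Fin N) ℂ)
      (H e p : E N → Matrix (Fin (B.M α)) (Fin (B.M α)) ℂ), 0 < r ∧ zbb11a_S (ball w r) J ∧
      zbb11a_S (ball w r) H ∧ zbb11a_S (ball w r) e ∧ zbb11a_S (ball w r) p ∧
      ∀ v ∈ ball w r ∩ (A.C i).W, K.h i v = (J v)ᵀ * H v * (J v).map star ∧
        (A.C i).η v = (J v)ᵀ * e v * (J v).map star ∧
        p v = J v * ((A.C i).σ v)⁻¹ * (J v)ᵀ := by
  obtain ⟨α, r, H, hx, hr, hH, -, hev⟩ := hK (P.ρ (Z.p (Z.c i) w))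
  have hW := (Z.isOpen (Z.c i)).mem_nhds hw
  have hτ : ContinuousAt (fun v => P.ρ (Z.p (Z.c i) v)) w :=
    P.cont.continuousAt.comp ((Z.cont _).continuousAt hW)
  have hV := (B.V_open α).mem_nhds hx
  have hz : ContinuousAt (B.z α) (P.ρ (Z.p (Z.c i) w)) := (B.cont α).continuousAt hV
  have h1 := hτ.eventually ((hev.and hV).and (hz.eventually (ball_mem_nhds _ hr)))
  obtain ⟨ε, hε, h2⟩ := Metric.eventually_nhds_iff_ball.1 (h1.and hW)
  have hζ : DifferentiableOn ℂ (fun v => B.z α (P.ρ (Z.p (Z.c i) v))) (ball w ε) := fun v hv =>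
    (P.hol α _ v (h2 v hv).2 (h2 v hv).1.1.2).differentiableWithinAt
  have hζ' := smooth_of_hol isOpen_ball hζ
  have hm : MapsTo (fun v => B.z α (P.ρ (Z.p (Z.c i) v))) (ball w ε) (B.D α).W := fun v hv =>
    B.maps α (h2 v hv).1.1.2
  have hρ : ∀ v ∈ (A.C i).W, P.ρ (Z.p (Z.c i) v) = A.p i v := fun v hv => by
    rw [Z.p_eq i v hv, P.ρ_j]
  refine ⟨α, ε, jac fun v => B.z α (P.ρ (Z.p (Z.c i) v)),
    fun v => H (B.z α (P.ρ (Z.p (Z.c i) v))), fun v => (B.D α).η (B.z α (P.ρ (Z.p (Z.c i) v))),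
    fun v => (B.D α).π (B.z α (P.ρ (Z.p (Z.c i) v))), hε,
    zbb11a_hol isOpen_ball (jac_hol isOpen_ball hζ),
    fun a b => (hH a b).comp hζ' fun v hv => (h2 v hv).1.2,
    fun a b => ((B.D α).η_smooth a b).comp hζ' hm,
    zbb11a_hol isOpen_ball fun a b => ((B.D α).π_hol a b).comp hζ hm, fun v hv => ?_⟩
  have e1 : (fun v => B.z α (P.ρ (Z.p (Z.c i) v))) =ᶠ[𝓝 v] fun y' => B.z α (A.p i y') := by
    filter_upwards [(A.C i).isOpen.mem_nhds hv.2] with y hy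
    rw [hρ y hy]
  have e2 : jac (fun v => B.z α (P.ρ (Z.p (Z.c i) v))) v =
      jac (fun y' => B.z α (A.p i y')) v := by
    unfold jac
    rw [e1.fderiv_eq]
  have h3 := (h2 v hv.1).1.1
  have h4 := h3.1 i v hv.2 (hρ v hv.2).symm
  have h5 := h3.2
  beta_reduce
  rw [hρ v hv.2] at h4 h5 ⊢
  rw [e2]
  exact ⟨h4, B.η_eq α i v hv.2 h5, B.π_eq α i v hv.2 h5⟩

theorem Over.upto_K (P : Over B Z) (hK : KahS B K) (a b : Fin N) :
    Upto Z fun i z => K.h i z a b := by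
  intro i w hw
  obtain ⟨α, r, J, H, e, p, hr, hJ, hH, -, -, h⟩ := zbb11a_loc P hK i hw
  refine ⟨r, _, hr, zbb11a_mul (zbb11a_mul (zbb11a_tr hJ) hH) (zbb11a_star hJ) a b,
    fun v hv => ?_⟩
  beta_reduce
  rw [(h v hv).1]

theorem Over.upto_gam (P : Over B Z) (hK : KahS B K) (a b : Fin N) :
    Upto Z fun i z => gam K i z a b := by
  intro i w hw
  obtain ⟨α, r, J, H, e, p, hr, hJ, hH, he, hp, h⟩ := zbb11a_loc P hK i hw
  refine ⟨r, _, hr, zbb11a_mul (zbb11a_mul (zbb11a_tr hJ) (zbb11a_add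
    (zbb11a_mul (zbb11a_mul he (zbb11a_star hp)) (zbb11a_tr hH))
    (zbb11a_mul (zbb11a_mul hH (zbb11a_star hp)) (zbb11a_tr he)))) hJ a b, fun v hv => ?_⟩
  obtain ⟨h1, h2, h3⟩ := h v hv
  have h4 : (p v).map star =
      (J v).map star * ((A.C i).σ v)⁻¹.map star * ((J v).map star)ᵀ := by
    rw [h3, ← Matrix.transpose_map]
    exact (Matrix.map_mul (f := starRingEnd ℂ)).trans
      (congrArg (· * _) (Matrix.map_mul (f := starRingEnd ℂ)))
  beta_reduce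
  rw [gam, h1, h2, h4]
  simp only [Matrix.transpose_mul, Matrix.transpose_transpose, Matrix.mul_add, Matrix.add_mul,
    Matrix.mul_assoc]

end Pool.Agent.ZB
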