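import Pool.Agent.K.MP_63735c_ag.C192
import Pool.Agent.K.MP_63735c_ag.C13

/-! The exterior derivative. -/

open scoped ComplexOrder ContDiff Matrix Topology
open Set MeasureTheory Filter

namespace Pool.Agent.BF

open Pool.Agent.SPF Pool.Agent.AB Pool.Agent.HX Pool.Agent.CK Pool.Agent.HS
open Pool.Agent.CL (Form1 Form2 Closed2 IsPrim)

variable {N : ℕ} {f g : E N → Ext N} {z : E N} {W : Set (E N)}

theorem gx_ι (k : Fin N ⊕ Fin N) : ∃ v, gx k = ExteriorAlgebra.ι ℂ v := by
  rcases k with a | a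
  · exact ⟨_, by rw [map_smul, map_add]; rfl⟩
  · exact ⟨_, by rw [map_smul, map_sub]; rfl⟩

theorem gx_swap (k l : Fin N ⊕ Fin N) : gx k * gx l = -(gx l * gx k) := by
  obtain ⟨v, hv⟩ := gx_ι k
  obtain ⟨w, hw⟩ := gx_ι l
  rw [hv, hw]
  exact eq_neg_of_add_eq_zero_left (ExteriorAlgebra.ι_add_mul_swap v w)

theorem f2_deg (B : Bil N) : f2 B ∈ ⋀[ℂ]^2 (Fin N ⊕ Fin N → ℂ) := by
  choose v hv using gx_ι (N := N)
  simp only [f2, hv]
  exact deg_sum _ _ _ _

theorem f2_comm (B : Bil N) (y : Ext N) : Commute (f2 B) y := two_comm (f2_deg B) y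

/-- The parity involution. -/
noncomputable def inv : Ext N →ₐ[ℂ] Ext N := CliffordAlgebra.involute

theorem inv_gx (x : Ext N) (k : Fin N ⊕ Fin N) : gx k * x = inv x * gx k := by
  obtain ⟨v, hv⟩ := gx_ι k
  rw [hv]
  induction x using ExteriorAlgebra.induction with
  | algebraMap r => rw [AlgHom.commutes, Algebra.commutes]
  | ι w =>
    rw [show inv (ExteriorAlgebra.ι ℂ w) = -ExteriorAlgebra.ι ℂ w from CliffordAlgebra.involute_ι w,
      neg_mul]
    exact eq_neg_of_add_eq_zero_left (ExteriorAlgebra.ι_add_mul_swap v w)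
  | mul a b ha hb => rw [map_mul, ← mul_assoc, ha, mul_assoc, hb, mul_assoc]
  | add a b ha hb => rw [map_add, mul_add, add_mul, ha, hb]

/-- `e1` as a linear map. -/
noncomputable def e1L (N : ℕ) : (E N →L[ℝ] ℝ) →L[ℝ] Ext N :=
  LinearMap.toContinuousLinearMap
    { toFun := e1
      map_add' := fun ξ ζ => by simp [e1, add_smul, Finset.sum_add_distrib]
      map_smul' := fun r ξ => by
        simp only [e1, smul_apply, smul_eq_mul, Complex.ofReal_mul, RingHom.id_apply,
          Finset.smul_sum, ← smul_assoc, Complex.real_smul] }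

/-- `f2` as a linear map. -/
noncomputable def f2L (N : ℕ) : Bil N →L[ℝ] Ext N :=
  LinearMap.toContinuousLinearMap
    { toFun := f2
      map_add' := fun ξ ζ => by simp [f2, add_smul, Finset.sum_add_distrib]
      map_smul' := fun r ξ => by
        simp only [f2, smul_apply, smul_eq_mul, Complex.ofReal_mul, RingHom.id_apply,
          Finset.smul_sum, ← smul_assoc, Complex.real_smul, mul_left_comm] }

theorem e1_add (ξ ζ : E N →L[ℝ] ℝ) : e1 (ξ + ζ) = e1 ξ + e1 ζ := (e1L N).map_add ξ ζ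

theorem e1_smul (r : ℝ) (ξ : E N →L[ℝ] ℝ) : e1 (r • ξ) = (r : ℂ) • e1 ξ :=
  ((e1L N).map_smul r ξ).trans (algebraMap_smul ℂ r _).symm

theorem e1_zero : e1 (0 : E N →L[ℝ] ℝ) = 0 := (e1L N).map_zero

theorem f2_add (B C : Bil N) : f2 (B + C) = f2 B + f2 C := (f2L N).map_add B C

theorem f2_smul (r : ℝ) (B : Bil N) : f2 (r • B) = (r : ℂ) • f2 B :=
  ((f2L N).map_smul r B).trans (algebraMap_smul ℂ r _).symm

theorem f2_zero : f2 (0 : Bil N) = 0 := (f2L N).map_zero

theorem e1_smooth {α : Form1 (E N)} (h : ContDiffOn ℝ ∞ α W) :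
    ContDiffOn ℝ ∞ (fun z => e1 (α z)) W := (e1L N).contDiff.comp_contDiffOn h

theorem f2L_smooth : ContDiff ℝ ∞ (f2L N) :=
  ContinuousLinearMap.contDiff (𝕜 := ℝ) (E := Bil N) (F := Ext N) _

theorem f2L_fd (B : Bil N) : HasFDerivAt (f2L N) (f2L N) B :=
  ContinuousLinearMap.hasFDerivAt (𝕜 := ℝ) (E := Bil N) (F := Ext N) _

theorem f2_smooth {β : Form2 (E N)} (h : ContDiffOn ℝ ∞ β W) :
    ContDiffOn ℝ ∞ (fun z => f2 (β z)) W :=
  f2L_smooth.comp_contDiffOn h

/-- `T` as a continuous map. -/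
noncomputable def TL (N : ℕ) : Ext N →L[ℝ] ℂ :=
  LinearMap.toContinuousLinearMap ((T (N := N)).restrictScalars ℝ)

theorem T_cont : Continuous (T (N := N)) := (TL N).continuous

theorem T_smooth (h : ContDiffOn ℝ ∞ f W) : ContDiffOn ℝ ∞ (fun z => T (f z)) W :=
  (TL N).contDiff.comp_contDiffOn h

theorem dd_apply (α : Form1 (E N)) (z u v : E N) : dd α z u v = dform α z u v := rfl

theorem d_congr (h : f =ᶠ[𝓝 z] g) : d f z = d g z := by simp only [d, h.fderiv_eq]

theorem d_const (x : Ext N) : d (fun _ => x) z = 0 := by simp [d]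

theorem d_add (hf : DifferentiableAt ℝ f z) (hg : DifferentiableAt ℝ g z) :
    d (f + g) z = d f z + d g z := by
  simp only [d, fderiv_add hf hg, add_apply, mul_add, Finset.sum_add_distrib]

theorem d_csmul (c : ℂ) (hf : DifferentiableAt ℝ f z) : d (c • f) z = c • d f z := by
  simp only [d, fderiv_const_smul hf, smul_apply, mul_smul_comm, Finset.smul_sum]

theorem d_mul (hf : DifferentiableAt ℝ f z) (hg : DifferentiableAt ℝ g z) :
    d (f * g) z = d f z * g z + inv (f z) * d g z := by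
  simp only [d, fderiv_mul' hf hg, add_apply, smul_apply, smul_eq_mul, mul_add,
    Finset.sum_add_distrib, Finset.sum_mul, Finset.mul_sum, MulOpposite.smul_eq_mul_unop,
    MulOpposite.unop_op, ← mul_assoc, inv_gx (f z)]
  exact add_comm _ _

theorem d_smul {θ : E N → ℝ} (hθ : DifferentiableAt ℝ θ z) (hf : DifferentiableAt ℝ f z) :
    d (fun y => (θ y : ℂ) • f y) z = e1 (fderiv ℝ θ z) * f z + (θ z : ℂ) • d f z := by
  have h := Complex.ofRealCLM.hasFDerivAt.comp z hθ.hasFDerivAt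
  have h2 := (h.smul hf.hasFDerivAt).fderiv
  simp only [d, e1, Finset.sum_mul, Finset.smul_sum, ← Finset.sum_add_distrib]
  refine Finset.sum_congr rfl fun k _ => ?_
  rw [show (fderiv ℝ (fun y => (θ y : ℂ) • f y) z) = _ from h2]
  simp only [add_apply, smul_apply, ContinuousLinearMap.smulRight_apply, mul_add, mul_smul_comm,
    smul_mul_assoc]
  exact add_comm _ _

theorem d_e1 {α : Form1 (E N)} (h : DifferentiableAt ℝ α z) :
    d (fun y => e1 (α y)) z = f2 (dd α z) := by
  have h1 : fderiv ℝ (fun y => e1 (α y)) z = (e1L N).comp (fderiv ℝ α z) :=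
    ((e1L N).hasFDerivAt.comp z h.hasFDerivAt).fderiv
  have h2 : d (fun y => e1 (α y)) z =
      ∑ k, ∑ l, (fderiv ℝ α z (rb k) (rb l) : ℂ) • (gx k * gx l) := by
    rw [d, h1]
    refine Finset.sum_congr rfl fun k _ => ?_
    change gx k * e1 (fderiv ℝ α z (rb k)) = _
    simp only [e1, Finset.mul_sum, mul_smul_comm]
  have h3 : ∑ k, ∑ l, (fderiv ℝ α z (rb l) (rb k) : ℂ) • (gx k * gx l) =
      -d (fun y => e1 (α y)) z := by
    rw [h2, Finset.sum_comm, ← Finset.sum_neg_distrib]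
    refine Finset.sum_congr rfl fun k _ => ?_
    rw [← Finset.sum_neg_distrib]
    exact Finset.sum_congr rfl fun l _ => by rw [gx_swap, smul_neg]
  simp only [f2, dd, sub_apply, ContinuousLinearMap.flip_apply, Complex.ofReal_sub, sub_smul,
    Finset.sum_sub_distrib]
  rw [h3, ← h2]
  module

theorem d_f2 {β : Form2 (E N)} (h : DifferentiableAt ℝ β z)
    (hc : ∀ u v w, fderiv ℝ β z u v w + fderiv ℝ β z v w u + fderiv ℝ β z w u v = 0) :
    d (fun y => f2 (β y)) z = 0 := by
  have h0 := HasFDerivAt.comp (𝕜 := ℝ) (F := Bil N) (G := Ext N) (f := β) z (f2L_fd (β z))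
    h.hasFDerivAt
  have h1 : fderiv ℝ (fun y => f2 (β y)) z = (f2L N).comp (fderiv ℝ β z) := h0.fderiv
  let S : (Fin N ⊕ Fin N → Fin N ⊕ Fin N → Fin N ⊕ Fin N → ℝ) → Ext N := fun c =>
    ∑ m, ∑ k, ∑ l, (c m k l : ℂ) • (gx m * (gx k * gx l))
  have h2 : ∀ c, S (fun m k l => c k l m) = S c := fun c => by
    simp only [S]
    rw [Finset.sum_comm]
    refine Finset.sum_congr rfl fun k _ => ?_
    rw [Finset.sum_comm]
    refine Finset.sum_congr rfl fun l _ => Finset.sum_congr rfl fun m _ => ?_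
    rw [← mul_assoc, gx_swap m, neg_mul, mul_assoc, gx_swap m, mul_neg, neg_neg]
  have h3 : d (fun y => f2 (β y)) z =
      (1 / 2 : ℂ) • S fun m k l => fderiv ℝ β z (rb m) (rb k) (rb l) := by
    rw [d, h1, Finset.smul_sum]
    refine Finset.sum_congr rfl fun m _ => ?_
    change gx m * f2 (fderiv ℝ β z (rb m)) = _
    simp only [f2, Finset.mul_sum, mul_smul_comm]
  have h4 : S (fun m k l => fderiv ℝ β z (rb m) (rb k) (rb l)) +
      S (fun m k l => fderiv ℝ β z (rb k) (rb l) (rb m)) +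
      S (fun m k l => fderiv ℝ β z (rb l) (rb m) (rb k)) = 0 := by
    simp only [S, ← Finset.sum_add_distrib, ← add_smul, ← Complex.ofReal_add, hc,
      Complex.ofReal_zero, zero_smul, Finset.sum_const_zero]
  rw [h2 fun m k l => fderiv ℝ β z (rb m) (rb k) (rb l),
    ← h2 fun m k l => fderiv ℝ β z (rb l) (rb m) (rb k)] at h4
  rw [h3]
  linear_combination (norm := module) (1 / 6 : ℂ) • h4

theorem d_smooth (hW : IsOpen W) (h : ContDiffOn ℝ ∞ f W) : ContDiffOn ℝ ∞ (d f) W :=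
  ContDiffOn.sum fun _ _ => contDiffOn_const.mul
    ((h.fderiv_of_isOpen hW (by simp)).clm_apply contDiffOn_const)

/-- The local theorem of Stokes. -/
theorem int_d {C : Set (E N)} (hW : IsOpen W) (hC : IsCompact C) (h : C ⊆ W)
    (hf : ContDiffOn ℝ ∞ f W) (h0 : ∀ z ∈ W, z ∉ C → f z = 0) : ∫ z in W, T (d f z) = 0 := by
  have h1 := fun k => abint_dir hW hC h (T_smooth (f := fun z => gx k * f z)
    (contDiffOn_const.mul hf)) (fun z a b => by rw [h0 z a b, mul_zero, map_zero]) (rb k)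
  rw [← Finset.sum_eq_zero fun k (_ : k ∈ Finset.univ) => (h1 k).2,
    ← integral_finsetSum _ fun k _ => (h1 k).1]
  refine setIntegral_congr_fun hW.measurableSet fun z hz => ?_
  simp only [d, map_sum]
  refine Finset.sum_congr rfl fun k _ => ?_
  have h2 := (TL N).hasFDerivAt.comp z ((diffAt hW hf hz).hasFDerivAt.const_mul (gx k))
  rw [show fderiv ℝ (fun z => T (gx k * f z)) z = _ from h2.fderiv]
  rfl

end Pool.Agent.BF
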