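import Pool.Agent.K.MP_63735c_ag.C3
import Pool.Agent.K.MP_63735c_ag.C42
import Pool.Agent.K.MP_63735c_ag.C11
import Pool.Agent.P.MP_63735c_ag.SPA3

-- part Pool.Agent.P.MP_63735c_ag.HXN1
section

/-! Simultaneous diagonalisation and expansions of determinants. -/

open scoped ComplexOrder MatrixOrder Matrix Topology
open Set Filter

namespace Pool.Agent.HX

open Pool.Agent.SPF Pool.Agent.AB

variable {N : ℕ} {K K' a : Mat N}

/-- The eigenvalues of `a` with respect to `K`. -/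
theorem hn_eig (hK : K.PosDef) (ha : a.IsHermitian) : ∃ μ : Fin N → ℝ,
    (∀ s : ℝ, (K + (s : ℂ) • a).det.re = K.det.re * ∏ i, (1 + s * μ i)) ∧
    (trK K a).re = ∑ i, μ i ∧ (bK K a a).re = (∑ i, μ i) ^ 2 - ∑ i, μ i ^ 2 ∧
    ∀ i, ∃ u, (hq K u u).re = 1 ∧ (hq a u u).re = μ i := by
  obtain ⟨V, μ, hV, rfl, rfl⟩ := rk_diag hK ha
  have hV' : IsUnit Vᴴ.det := by rw [Matrix.det_conjTranspose]; exact hV.star
  have h1 : (Vᴴ * V)⁻¹ * (Vᴴ * Matrix.diagonal (fun i => (μ i : ℂ)) * V) =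
      V⁻¹ * Matrix.diagonal (fun i => (μ i : ℂ)) * V := by
    rw [Matrix.mul_inv_rev, mul_assoc, mul_assoc Vᴴ, Matrix.nonsing_inv_mul_cancel_left _ _ hV',
      mul_assoc]
  have h2 : trK (Vᴴ * V) (Vᴴ * Matrix.diagonal (fun i => (μ i : ℂ)) * V) = (∑ i, μ i : ℝ) := by
    rw [trK, h1, Matrix.trace_mul_cycle, Matrix.mul_nonsing_inv _ hV, one_mul,
      Matrix.trace_diagonal, Complex.ofReal_sum]
  have h3 : ∀ (D : Mat N) i, hq (Vᴴ * D * V) (star (V⁻¹ *ᵥ Pi.single i 1))
      (star (V⁻¹ *ᵥ Pi.single i 1)) = D i i := fun D i => by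
    rw [hq, star_star, Matrix.mulVec_mulVec, mul_assoc, Matrix.mul_nonsing_inv _ hV, mul_one,
      ← Matrix.mulVec_mulVec, Matrix.dotProduct_mulVec, ← Matrix.star_mulVec,
      Matrix.mulVec_mulVec, Matrix.mul_nonsing_inv _ hV, Matrix.one_mulVec]
    simp [dotProduct, Pi.single_apply]
  refine ⟨μ, fun s => ?_, by rw [h2, Complex.ofReal_re], ?_, fun i =>
    ⟨star (V⁻¹ *ᵥ Pi.single i 1), ?_, ?_⟩⟩
  · have h4 : Vᴴ * V + (s : ℂ) • (Vᴴ * Matrix.diagonal (fun i => (μ i : ℂ)) * V) =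
        Vᴴ * Matrix.diagonal (fun i => ((1 + s * μ i : ℝ) : ℂ)) * V := by
      rw [← smul_mul_assoc, ← add_mul, ← mul_smul_comm, ← mul_one_add]
      congr 2
      ext i j
      by_cases h : i = j <;> simp [h]
    rw [h4, Matrix.det_mul, Matrix.det_mul, Matrix.det_mul, Matrix.det_diagonal, mul_right_comm,
      ← Complex.ofReal_prod, Complex.re_mul_ofReal]
  · rw [bK, h2, tr2, h1]
    simp only [mul_assoc]
    rw [Matrix.mul_nonsing_inv_cancel_left _ _ hV, Matrix.trace_mul_comm, mul_assoc, mul_assoc,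
      Matrix.mul_nonsing_inv _ hV, mul_one, Matrix.diagonal_mul_diagonal, Matrix.trace_diagonal]
    simp [sq]
  · rw [← mul_one Vᴴ, h3]
    simp
  · rw [h3]
    simp

theorem hn_det (hK : K.PosDef) : 0 < K.det.re ∧ (K.det.re : ℂ) = K.det :=
  ⟨(Complex.pos_iff.1 hK.det_pos).1,
    Complex.ext rfl (Complex.pos_iff.1 hK.det_pos).2⟩

theorem hn_smul_det (c : ℝ) (K : Mat N) : ((c : ℂ) • K).det.re = c ^ N * K.det.re := by
  rw [Matrix.det_smul, Fintype.card_fin, ← Complex.ofReal_pow, Complex.re_ofReal_mul]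

theorem hn_hq (c : ℝ) (K a : Mat N) (v : E N) :
    (hq (K + (c : ℂ) • a) v v).re = (hq K v v).re + c * (hq a v v).re := by
  rw [hq_add, hq_smul, Complex.add_re, Complex.re_ofReal_mul]

theorem hn_mono (hK : K.PosDef) (hK' : K'.PosDef) {c : ℝ} (h : Le K K' c) :
    K.det.re ≤ c ^ N * K'.det.re := by
  have h0 : ((c : ℂ) • K' + ((-1 : ℝ) : ℂ) • K).IsHermitian :=
    (hK'.1.smul (Complex.conj_ofReal _)).add (hK.1.smul (Complex.conj_ofReal _))
  obtain ⟨μ, h1, -, -, h2⟩ := hn_eig hK h0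
  have h3 := h1 1
  rw [show K + ((1 : ℝ) : ℂ) • ((c : ℂ) • K' + ((-1 : ℝ) : ℂ) • K) = (c : ℂ) • K' by simp,
    hn_smul_det] at h3
  rw [h3]
  refine le_mul_of_one_le_right (hn_det hK).1.le (Finset.prod_induction _ (fun r : ℝ => 1 ≤ r)
    (fun _ _ => one_le_mul_of_one_le_of_one_le) le_rfl fun i _ => ?_)
  obtain ⟨u, -, e⟩ := h2 i
  rw [hn_hq, hq_smul, Complex.re_ofReal_mul] at e
  linarith [h u]

theorem hn_prod (M : ℝ) (k : ℕ) : ∃ C : ℝ, 0 ≤ C ∧ ∀ μ : Fin k → ℝ, (∀ i, |μ i| ≤ M) →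
    |∑ i, μ i| ≤ C ∧ |(∑ i, μ i) ^ 2 - ∑ i, μ i ^ 2| ≤ C ∧ ∀ s : ℝ, |s| ≤ 1 →
      |∏ i, (1 + s * μ i) - (1 + s * ∑ i, μ i + s ^ 2 / 2 * ((∑ i, μ i) ^ 2 - ∑ i, μ i ^ 2))| ≤
        C * |s| ^ 3 := by
  induction k with
  | zero => exact ⟨0, le_rfl, fun μ _ => by simp⟩
  | succ k ih =>
    obtain ⟨C, hC, H⟩ := ih
    have hM := abs_nonneg M
    have h1 := mul_nonneg hC hM
    refine ⟨C + 2 * (C * |M|) + |M|, by positivity, fun μ h => ?_⟩
    obtain ⟨a1, a2, a3⟩ := H (fun i => μ i.succ) fun i => h _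
    have b0 := (h 0).trans (le_abs_self M)
    simp only [Fin.sum_univ_succ, Fin.prod_univ_succ]
    generalize ∑ i : Fin k, μ i.succ = e at *
    generalize ∑ i : Fin k, μ i.succ ^ 2 = p at *
    generalize μ 0 = m at *
    have b1 : |e * m| ≤ C * |M| := by rw [abs_mul]; gcongr
    refine ⟨(abs_add_le _ _).trans (by linarith), ?_, fun s hs => ?_⟩
    · rw [show (m + e) ^ 2 - (m ^ 2 + p) = e ^ 2 - p + 2 * (e * m) by ring]
      refine (abs_add_le _ _).trans ?_
      rw [abs_mul, abs_two]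
      linarith
    · have b2 := a3 s hs
      generalize ∏ i : Fin k, (1 + s * μ i.succ) = P at *
      obtain ⟨R, hR⟩ : ∃ R, R = P - (1 + s * e + s ^ 2 / 2 * (e ^ 2 - p)) := ⟨_, rfl⟩
      rw [← hR] at b2
      rw [show (1 + s * m) * P - (1 + s * (m + e) + s ^ 2 / 2 * ((m + e) ^ 2 - (m ^ 2 + p))) =
        R + (R * (s * m) + s ^ 3 * ((e ^ 2 - p) * m / 2)) by rw [hR]; ring]
      have s3 : 0 ≤ |s| ^ 3 := by positivity
      have b3 : |R * (s * m)| ≤ C * |s| ^ 3 * (1 * |M|) := by rw [abs_mul, abs_mul]; gcongr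
      have b4 : |s ^ 3 * ((e ^ 2 - p) * m / 2)| ≤ |s| ^ 3 * (C * |M| / 2) := by
        rw [abs_mul, abs_pow, abs_div, abs_mul, abs_two]
        gcongr
      refine (abs_add_le _ _).trans ((add_le_add b2 ((abs_add_le _ _).trans
        (add_le_add b3 b4))).trans ?_)
      nlinarith [mul_nonneg h1 s3, mul_nonneg hM s3]

/-- The expansion of the determinant to second order. -/
theorem hn_exp (N : ℕ) (M : ℝ) : ∃ C : ℝ, 0 ≤ C ∧ ∀ K a : Mat N, K.PosDef → a.IsHermitian →
    Dom K a M → |(trK K a).re| ≤ C ∧ |(bK K a a).re| ≤ C ∧ ∀ s : ℝ, |s| ≤ 1 →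
      |(K + (s : ℂ) • a).det.re - K.det.re * (1 + s * (trK K a).re + s ^ 2 / 2 * (bK K a a).re)| ≤
        K.det.re * (C * |s| ^ 3) := by
  obtain ⟨C, hC, H⟩ := hn_prod M N
  refine ⟨C, hC, fun K a hK ha h => ?_⟩
  obtain ⟨μ, h1, h2, h3, h4⟩ := hn_eig hK ha
  obtain ⟨a1, a2, a3⟩ := H μ fun i => by
    obtain ⟨u, e1, e2⟩ := h4 i
    have := h u
    rwa [e1, e2, mul_one] at this
  rw [h2, h3]
  refine ⟨a1, a2, fun s hs => ?_⟩
  rw [h1, ← mul_sub, abs_mul, abs_of_pos (hn_det hK).1]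
  exact mul_le_mul_of_nonneg_left (a3 s hs) (hn_det hK).1.le

theorem hn_taylor {α β C : ℝ} (h : ∀ s : ℝ, |s| ≤ 1 → |α * s + β * s ^ 2| ≤ C * |s| ^ 3) :
    α = 0 ∧ β = 0 := by
  have key : ∀ {x D : ℝ}, (∀ s : ℝ, 0 < s → s ≤ 1 → |x| ≤ D * s) → x = 0 := fun {x D} hx => by
    have h1 : Tendsto (fun s : ℝ => D * s) (𝓝[>] 0) (𝓝 (D * 0)) :=
      (tendsto_id.const_mul D).mono_left nhdsWithin_le_nhds
    rw [mul_zero] at h1
    exact abs_nonpos_iff.1 (ge_of_tendsto h1 (mem_of_superset (Ioc_mem_nhdsGT one_pos)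
      fun s hs => hx s hs.1 hs.2))
  have h2 : ∀ s : ℝ, 0 < s → s ≤ 1 → |α + β * s| ≤ C * s ^ 2 ∧ |-α + β * s| ≤ C * s ^ 2 := by
    intro s h0 h1
    have e1 := h s (by rwa [abs_of_pos h0])
    have e2 := h (-s) (by rwa [abs_neg, abs_of_pos h0])
    rw [abs_of_pos h0, show α * s + β * s ^ 2 = (α + β * s) * s by ring, abs_mul, abs_of_pos h0,
      pow_succ, ← mul_assoc] at e1
    rw [abs_neg, abs_of_pos h0, show α * -s + β * (-s) ^ 2 = (-α + β * s) * s by ring, abs_mul,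
      abs_of_pos h0, pow_succ, ← mul_assoc] at e2
    exact ⟨le_of_mul_le_mul_right e1 h0, le_of_mul_le_mul_right e2 h0⟩
  refine ⟨key (D := |C|) fun s h0 h1 => ?_, key (D := C) fun s h0 h1 => ?_⟩
  · obtain ⟨e1, e2⟩ := h2 s h0 h1
    have e3 : C * s ^ 2 ≤ |C| * s := mul_le_mul (le_abs_self C) (by nlinarith) (by positivity)
      (abs_nonneg C)
    rw [abs_le] at e1 e2 ⊢
    constructor <;> linarith [e1.1, e1.2, e2.1, e2.2]
  · obtain ⟨e1, e2⟩ := h2 s h0 h1
    refine le_of_mul_le_mul_right ?_ h0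
    rw [← abs_of_pos h0, ← abs_mul, abs_of_pos h0]
    rw [abs_le] at e1 e2 ⊢
    constructor <;> nlinarith [e1.1, e1.2, e2.1, e2.2]

theorem hn_pow (x b q : ℝ) (m : ℕ) : ∃ R : ℝ → ℝ, Continuous R ∧ ∀ s,
    (x * s ^ 2 + b * s + q) ^ (m + 2) = q ^ (m + 2) + (m + 2) * q ^ (m + 1) * b * s +
      ((m + 2) * q ^ (m + 1) * x + (m + 2) * (m + 1) / 2 * q ^ m * b ^ 2) * s ^ 2 + s ^ 3 * R s := by
  induction m with
  | zero => exact ⟨fun s => 2 * x * b + x ^ 2 * s, by fun_prop, fun s => by push_cast; ring⟩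
  | succ m ih =>
    obtain ⟨R, hR, h⟩ := ih
    refine ⟨fun s => R s * (x * s ^ 2 + b * s + q) + (m + 2) * q ^ (m + 1) * b * x +
      ((m + 2) * q ^ (m + 1) * x + (m + 2) * (m + 1) / 2 * q ^ m * b ^ 2) * (x * s + b),
      by fun_prop, fun s => ?_⟩
    rw [show m + 1 + 2 = m + 2 + 1 from rfl, pow_succ, h]
    push_cast
    ring

/-- The numerical estimate from the Fujiki relation. -/
theorem hn_fu {n : ℕ} (hn : 1 ≤ n) (c x y z w : ℝ)
    (hp : ∀ t : ℝ, 0 < t → 0 ≤ c * (z * t + w * t ^ 2) ^ n) : ∃ C : ℝ, ∀ t : ℝ, 0 < t → t ≤ 1 →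
      ∀ I₁ I₂ D : ℝ, (∀ s : ℝ, |s| ≤ 1 → |c * (x * s ^ 2 + y * s * t + z * t + w * t ^ 2) ^ n -
        (c * (z * t + w * t ^ 2) ^ n + s * I₁ + s ^ 2 / 2 * I₂)| ≤ D * |s| ^ 3) →
      I₁ ^ 2 / (c * (z * t + w * t ^ 2) ^ n) - I₂ ≤ C * t ^ (n - 1) := by
  obtain rfl | ⟨m, rfl⟩ : n = 1 ∨ ∃ m, n = m + 2 := by
    rcases hn.eq_or_lt with h | h
    exacts [Or.inl h.symm, Or.inr ⟨n - 2, by omega⟩]
  · refine ⟨(c * y) ^ 2 / |c * z + c * w| + (c * y) ^ 2 / (c * z / 2) + 2 * |c * x|,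
      fun t h0 h1 I₁ I₂ D h => ?_⟩
    obtain ⟨e1, e2⟩ := hn_taylor (α := c * y * t - I₁) (β := c * x - I₂ / 2) (C := D)
      fun s hs => le_of_eq_of_le (congrArg _ (by ring)) (h s hs)
    have hg : ∀ t : ℝ, 0 < t → 0 ≤ c * z + c * w * t := fun t ht =>
      nonneg_of_mul_nonneg_left (b := t) ((hp t ht).trans_eq (by ring)) ht
    have g0 : 0 ≤ c * z := by
      have h2 : Tendsto (fun t : ℝ => c * z + c * w * t) (𝓝[>] 0) (𝓝 (c * z + c * w * 0)) :=
        ((tendsto_id.const_mul _).const_add _).mono_left nhdsWithin_le_nhds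
      rw [mul_zero, add_zero] at h2
      exact ge_of_tendsto h2 (mem_of_superset self_mem_nhdsWithin hg)
    have g1 := hg 1 one_pos
    have g2 := hg 2 two_pos
    rw [mul_one] at g1
    have p1 : 0 ≤ (c * y) ^ 2 / |c * z + c * w| := by positivity
    have p2 : 0 ≤ (c * y) ^ 2 / (c * z / 2) := by positivity
    have e3 : I₁ ^ 2 / (c * (z * t + w * t ^ 2) ^ 1) = (c * y) ^ 2 * t / (c * z + c * w * t) := by
      rw [show I₁ = c * y * t by linarith, show c * (z * t + w * t ^ 2) ^ 1 =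
        (c * z + c * w * t) * t by ring, show (c * y * t) ^ 2 = (c * y) ^ 2 * t * t by ring,
        mul_div_mul_right _ _ h0.ne']
    have e4 : (c * y) ^ 2 * t / (c * z + c * w * t) ≤
        (c * y) ^ 2 / |c * z + c * w| + (c * y) ^ 2 / (c * z / 2) := by
      rcases g0.eq_or_lt with g | g
      · rw [← g, zero_add, zero_add, mul_div_mul_right _ _ h0.ne', abs_of_nonneg (by linarith)]
        simp
      · refine le_add_of_nonneg_of_le p1 (div_le_div₀ (sq_nonneg _)
          (mul_le_of_le_one_right (sq_nonneg _) h1) (half_pos g) (by nlinarith))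
    rw [e3, Nat.sub_self, pow_zero, mul_one]
    linarith [neg_abs_le (c * x)]
  · obtain ⟨g, hg⟩ : ∃ g, g = |z| + |w| := ⟨_, rfl⟩
    have g0 : 0 ≤ g := hg ▸ by positivity
    refine ⟨|c| * ((m + 2) * g ^ m * y ^ 2 + 2 * ((m + 2) * g ^ (m + 1) * |x|)),
      fun t h0 h1 I₁ I₂ D h => ?_⟩
    obtain ⟨q, hq⟩ : ∃ q, q = z * t + w * t ^ 2 := ⟨_, rfl⟩
    obtain ⟨R, hR, H⟩ := hn_pow x (y * t) q m
    obtain ⟨L, hL⟩ := (isCompact_Icc (a := (-1 : ℝ)) (b := 1)).exists_bound_of_continuousOn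
      hR.continuousOn
    obtain ⟨e1, e2⟩ := hn_taylor (α := c * ((m + 2) * q ^ (m + 1) * (y * t)) - I₁)
      (β := c * ((m + 2) * q ^ (m + 1) * x + (m + 2) * (m + 1) / 2 * q ^ m * (y * t) ^ 2) - I₂ / 2)
      (C := D + |c| * L) fun s hs => by
        have h2 := h s hs
        rw [show x * s ^ 2 + y * s * t + z * t + w * t ^ 2 = x * s ^ 2 + y * t * s + q by
          rw [hq]; ring, H, ← hq] at h2
        have h3 : |c * (s ^ 3 * R s)| ≤ |c| * (|s| ^ 3 * L) := by
          rw [abs_mul, abs_mul, abs_pow]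
          gcongr
          exact hL s (abs_le.1 hs)
        refine le_of_eq_of_le (congrArg _ ?_) ((abs_sub _ _).trans ((add_le_add h2 h3).trans
          (le_of_eq (by ring))))
        ring
    have q1 : |q| ≤ g * t := by
      rw [hq, hg]
      refine (abs_add_le _ _).trans ?_
      rw [abs_mul, abs_mul, abs_pow, abs_of_pos h0]
      nlinarith [mul_nonneg (mul_nonneg (abs_nonneg w) h0.le) (sub_nonneg.2 h1)]
    have q2 : ∀ k, |q ^ k| ≤ g ^ k * t ^ k := fun k => by
      rw [abs_pow, ← mul_pow]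
      gcongr
    have t1 : t ^ m * t ^ 2 ≤ t ^ (m + 1) := by
      rw [pow_succ t m]
      gcongr
      nlinarith
    have f1 : |c * ((m + 2) * q ^ m * (y * t) ^ 2)| ≤ |c| * ((m + 2) * g ^ m * y ^ 2) *
        t ^ (m + 1) := by
      rw [abs_mul, abs_mul, abs_mul, abs_of_nonneg (sq_nonneg (y * t)),
        abs_of_nonneg (by positivity : (0 : ℝ) ≤ m + 2)]
      calc _ ≤ |c| * ((m + 2) * (g ^ m * t ^ m) * (y * t) ^ 2) := by gcongr; exact q2 m
        _ = |c| * ((m + 2) * g ^ m * y ^ 2) * (t ^ m * t ^ 2) := by ring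
        _ ≤ _ := by gcongr
    have f2 : |c * ((m + 2) * q ^ (m + 1) * x)| ≤ |c| * ((m + 2) * g ^ (m + 1) * |x|) *
        t ^ (m + 1) := by
      rw [abs_mul, abs_mul, abs_mul, abs_of_nonneg (by positivity : (0 : ℝ) ≤ m + 2)]
      calc _ ≤ |c| * ((m + 2) * (g ^ (m + 1) * t ^ (m + 1)) * |x|) := by gcongr; exact q2 _
        _ = _ := by ring
    rw [← hq, show m + 2 - 1 = m + 1 from rfl, show I₁ = _ from (sub_eq_zero.1 e1).symm,
      show I₂ = 2 * (c * ((m + 2) * q ^ (m + 1) * x + (m + 2) * (m + 1) / 2 * q ^ m * (y * t) ^ 2))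
        by linarith]
    have f3 := le_abs_self (c * ((m + 2) * q ^ m * (y * t) ^ 2))
    have f4 := neg_abs_le (c * ((m + 2) * q ^ (m + 1) * x))
    by_cases hc : c = 0
    · simp [hc]
    by_cases hq0 : q = 0
    · have f5 := hp t h0
      have f6 := neg_abs_le (c * ((m + 2) * q ^ m * (y * t) ^ 2))
      rcases m with _ | m
      · simp only [hq0] at f1 f2 f6 ⊢
        norm_num at f1 f2 f6 ⊢
        nlinarith [abs_nonneg c, mul_nonneg (mul_nonneg (abs_nonneg c) (mul_nonneg g0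
          (abs_nonneg x))) h0.le]
      · simp only [hq0, zero_pow (Nat.succ_ne_zero _), mul_zero, zero_mul, zero_add, zero_div,
          sub_zero]
        positivity
    rw [show (c * ((m + 2) * q ^ (m + 1) * (y * t))) ^ 2 / (c * q ^ (m + 2)) =
      (m + 2) * (c * ((m + 2) * q ^ m * (y * t) ^ 2)) by field_simp; ring]
    nlinarith

end Pool.Agent.HX
end

-- part Pool.Agent.P.MP_63735c_ag.HXN2
section

/-! Global functions attached to forms, and the volume of a Kähler form. -/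

open scoped ComplexOrder ContDiff Matrix Topology ENNReal
open Set Metric MeasureTheory Filter

namespace Pool.Agent.HX

open Pool.Agent.SPF Pool.Agent.AB

variable {N : ℕ}

section
variable {K K' J M M' : Mat N}

theorem hn_conj (hK : K.PosDef) (h : K = Jᵀ * K' * J.map star) : IsUnit (J.map star).det ∧
    ∀ M : Mat N, K⁻¹ * (Jᵀ * M * J.map star) = (J.map star)⁻¹ * (K'⁻¹ * M) * J.map star := by
  have h1 := (Matrix.isUnit_iff_isUnit_det K).1 hK.isUnit
  rw [h, Matrix.det_mul, Matrix.det_mul] at h1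
  have h3 := isUnit_of_mul_isUnit_left (isUnit_of_mul_isUnit_left h1)
  refine ⟨isUnit_of_mul_isUnit_right h1, fun M => ?_⟩
  rw [h, Matrix.mul_inv_rev, Matrix.mul_inv_rev]
  simp only [mul_assoc]
  rw [Matrix.nonsing_inv_mul_cancel_left _ _ h3]

theorem hn_trK (hK : K.PosDef) (h : K = Jᵀ * K' * J.map star) (M : Mat N) :
    trK K (Jᵀ * M * J.map star) = trK K' M := by
  obtain ⟨h1, h2⟩ := hn_conj hK h
  rw [trK, h2, Matrix.trace_mul_cycle, Matrix.mul_nonsing_inv _ h1, one_mul, trK]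

theorem hn_bK (hK : K.PosDef) (h : K = Jᵀ * K' * J.map star) (M M' : Mat N) :
    bK K (Jᵀ * M * J.map star) (Jᵀ * M' * J.map star) = bK K' M M' := by
  obtain ⟨h1, h2⟩ := hn_conj hK h
  rw [bK, hn_trK hK h, hn_trK hK h, tr2, h2, h2, bK, tr2]
  simp only [mul_assoc]
  rw [Matrix.mul_nonsing_inv_cancel_left _ _ h1, Matrix.trace_mul_comm]
  simp only [mul_assoc]
  rw [Matrix.mul_nonsing_inv _ h1, mul_one]

theorem hn_det_conj (J M : Mat N) : (Jᵀ * M * J.map star).det.re = ‖J.det‖ ^ 2 * M.det.re := by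
  have h : (J.map star).det = starRingEnd ℂ J.det := (RingHom.map_det (starRingEnd ℂ) J).symm
  rw [Matrix.det_mul, Matrix.det_mul, Matrix.det_transpose, h, mul_right_comm, Complex.mul_conj',
    ← Complex.ofReal_pow, Complex.re_ofReal_mul]

end

theorem hn_cont {Z : Type} [TopologicalSpace Z] {K a : Z → Mat N} {S : Set Z} {z : Z}
    (hK : ContinuousWithinAt K S z) (ha : ContinuousWithinAt a S z) (h : (K z).PosDef) :
    ContinuousWithinAt (fun y => trK (K y) (a y)) S z ∧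
      ContinuousWithinAt (fun y => bK (K y) (a y) (a y)) S z := by
  have h1 : ContinuousWithinAt (fun y => (K y)⁻¹ * a y) S z := by
    refine ContinuousWithinAt.mul ((continuousAt_matrix_inv _ ?_).comp_continuousWithinAt hK) ha
    obtain ⟨u, hu⟩ := (Matrix.isUnit_iff_isUnit_det _).1 h.isUnit
    exact hu ▸ NormedRing.inverse_continuousAt u
  have h2 : Continuous fun M : Mat N => M.trace := continuous_id.matrix_trace
  have h3 := h2.continuousAt.comp_continuousWithinAt h1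
  exact ⟨h3, (h3.mul h3).sub (h2.continuousAt.comp_continuousWithinAt (h1.mul h1))⟩

variable {Y : Type} [TopologicalSpace Y]

section
variable {D : Man Y N} {K a b : D.ι → E N → Mat N}

theorem hn_glob {G : Type} [Zero G] {f : D.ι → E N → G}
    (hf : ∀ i j, ∀ z ∈ D.W i, ∀ φ, D.Ch i j z φ → f i z = f j (φ z)) {i : D.ι} {z : E N}
    (hz : z ∈ D.W i) : glob D f (D.p i z) = f i z := by
  have hx : ∃ q : D.ι × E N, q.2 ∈ D.W q.1 ∧ D.p q.1 q.2 = D.p i z := ⟨(i, z), hz, rfl⟩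
  rw [glob, dif_pos hx]
  obtain ⟨φ, e, hφ⟩ := D.trans i _ z hz _ hx.choose_spec.1 hx.choose_spec.2.symm
  rw [hf i _ z hz φ hφ, e]

theorem hn_frm (h : Kf D K) : Frm D K :=
  ⟨fun i => ⟨(h.kah i).smooth, fun z hz => ((h.kah i).pos z hz).1, (h.kah i).closed⟩, h.cpt⟩

theorem hn_kf (h : Frm D K) (hp : ∀ i, ∀ z ∈ D.W i, ∀ v, v ≠ 0 → 0 < (hq (K i z) v v).re) :
    Kf D K :=
  ⟨fun i => ⟨(h.clo i).smooth, fun z hz => posDef_of_hq ((h.clo i).herm z hz) (hp i z hz),
    (h.clo i).closed⟩, h.cpt⟩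

theorem hn_add (ha : Frm D a) (hb : Frm D b) : Frm D fun i z => a i z + b i z := by
  refine ⟨fun i => ⟨fun c d => ((ha.clo i).smooth c d).add ((hb.clo i).smooth c d),
    fun z hz => ((ha.clo i).herm z hz).add ((hb.clo i).herm z hz), fun z hz c d e => ?_⟩,
    fun i j z hz φ hφ => ?_⟩
  · have key := fun c d e => (dz_add (diffAt (D.isOpen i) ((ha.clo i).smooth c d) hz)
      (diffAt (D.isOpen i) ((hb.clo i).smooth c d) hz) e).1
    refine (key c d e).trans (Eq.trans ?_ (key e d c).symm)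
    rw [(ha.clo i).closed z hz, (hb.clo i).closed z hz]
  · rw [Matrix.mul_add, Matrix.add_mul, ← ha.cpt i j z hz φ hφ, ← hb.cpt i j z hz φ hφ]

theorem hn_smul (ha : Frm D a) (s : ℝ) : Frm D fun i z => (s : ℂ) • a i z := by
  refine ⟨fun i => ⟨fun c d => contDiffOn_const.mul ((ha.clo i).smooth c d),
    fun z hz => ((ha.clo i).herm z hz).smul (Complex.conj_ofReal _), fun z hz c d e => ?_⟩,
    fun i j z hz φ hφ => ?_⟩
  · have key := fun c d e => (dz_mul (differentiableAt_const (s : ℂ))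
      (diffAt (D.isOpen i) ((ha.clo i).smooth c d) hz) e).1
    refine (key c d e).trans (Eq.trans ?_ (key e d c).symm)
    rw [(ha.clo i).closed z hz, (dz_const _ _).1, (dz_const _ _).1, zero_mul, zero_mul]
  · rw [Matrix.mul_smul, Matrix.smul_mul, ← ha.cpt i j z hz φ hφ]

theorem hn_lev {l : Y → ℝ} (hl : D.Smo l) : Frm D (D.levG l) :=
  ⟨fun i => ⟨lev_smooth (D.isOpen i) (hl i),
    fun _ hz => lev_herm ((hl i).contDiffAt ((D.isOpen i).mem_nhds hz)),
    fun _ hz => lev_closed ((hl i).contDiffAt ((D.isOpen i).mem_nhds hz))⟩, Man.levG_cpt hl⟩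

theorem hn_contOn (ha : Frm D a) (i : D.ι) : ContinuousOn (a i) (D.W i) :=
  continuousOn_pi.2 fun b => continuousOn_pi.2 fun c => ((ha.clo i).smooth b c).continuousOn

/-- A form is bounded on compact sets. -/
theorem hn_dom (hK : Kf D K) (ha : Frm D a) {S : Set Y} (hS : IsCompact S) (h : S ⊆ D.M) :
    ∃ M, 0 ≤ M ∧ ∀ i, ∀ z ∈ D.W i, D.p i z ∈ S → Dom (K i z) (a i z) M := by
  have k0 := fun i z hz v => hq_nonneg ((hK.kah i).pos z hz).posSemidef v
  refine hS.induction_on (p := fun T => ∃ M, 0 ≤ M ∧ ∀ i, ∀ z ∈ D.W i, D.p i z ∈ T →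
    Dom (K i z) (a i z) M) ⟨0, le_rfl, fun _ _ _ e => e.elim⟩
    (fun s t hst ⟨M, h0, H⟩ => ⟨M, h0, fun i z hz e => H i z hz (hst e)⟩) ?_ fun x hx => ?_
  · rintro s t ⟨M, h0, H⟩ ⟨M', h0', H'⟩
    refine ⟨M + M', by positivity, fun i z hz e v => ?_⟩
    have := k0 i z hz v
    rcases e with e | e
    · exact (H i z hz e v).trans (by gcongr; linarith)
    · exact (H' i z hz e v).trans (by gcongr; linarith)
  · obtain ⟨j, y, hy, rfl⟩ := Man.exists_chart (h hx)
    obtain ⟨Q, hQ, q1, q2⟩ := exists_compact_subset (D.isOpen j) hy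
    obtain ⟨B, hB, b1⟩ := cpt_upper (h := a j) hQ fun b c =>
      ((ha.clo j).smooth b c).continuousOn.mono q2
    obtain ⟨c, hc, c1⟩ := cpt_lower (h := K j) hQ (fun b c =>
      ((hK.kah j).smooth b c).continuousOn.mono q2) fun z hz u hu =>
        hq_pos ((hK.kah j).pos z (q2 hz)) hu
    refine ⟨D.p j '' Q, mem_nhdsWithin_of_mem_nhds ?_, B / c, by positivity, ?_⟩
    · rw [← Man.map_nhds hy]
      exact image_mem_map (mem_interior_iff_mem_nhds.1 q1)
    · rintro i z hz ⟨w, hw, e⟩ v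
      obtain ⟨φ, rfl, hφ⟩ := D.trans i j z hz w (q2 hw) e.symm
      rw [hK.cpt i j z hz φ hφ, ha.cpt i j z hz φ hφ, hq_conj, hq_conj]
      refine (Complex.abs_re_le_norm _).trans (((b1 _ hw _ _).1).trans ?_)
      refine le_trans (le_of_eq ?_) (mul_le_mul_of_nonneg_left (c1 _ hw _) (by positivity))
      field_simp

end

variable [MeasurableSpace Y]

section
variable {D : KD Y N} {a : D.ι → E N → Mat N}

theorem hn_tr (ha : D.Cpt a) {i : D.ι} {z : E N} (hz : z ∈ D.W i) :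
    D.tr a (D.p i z) = trK (D.K i z) (a i z) ∧
      D.bb a (D.p i z) = (bK (D.K i z) (a i z) (a i z)).re :=
  ⟨hn_glob (fun i j z hz φ hφ => by
    rw [ha i j z hz φ hφ, hn_trK ((D.kah i).pos z hz) (D.K_cpt i j z hz φ hφ)]) hz,
   hn_glob (f := fun i z => (bK (D.K i z) (a i z) (a i z)).re) (fun i j z hz φ hφ => by
    rw [ha i j z hz φ hφ, hn_bK ((D.kah i).pos z hz) (D.K_cpt i j z hz φ hφ)]) hz⟩

theorem hn_tr_cont (ha : Frm D.toMan a) : Continuous (D.tr a) ∧ Continuous (D.bb a) := by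
  have h := fun i z hz => hn_cont (hn_contOn (hn_frm ⟨D.kah, D.K_cpt⟩) i z hz) (hn_contOn ha i z hz)
    ((D.kah i).pos z hz)
  rw [← continuousOn_univ, ← continuousOn_univ, ← D.cover]
  exact ⟨Man.contOn fun i => ContinuousOn.congr (fun z hz => (h i z hz).1) fun z hz =>
    (hn_tr ha.cpt hz).1, Man.contOn fun i => ContinuousOn.congr (fun z hz =>
      Complex.continuous_re.continuousAt.comp_continuousWithinAt (h i z hz).2) fun z hz =>
        (hn_tr ha.cpt hz).2⟩

end

variable {B : Base Y N} {K K' a : B.ι → E N → Mat N}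

theorem hn_chart (B : Base Y N) (x : Y) : ∃ i, ∃ z ∈ B.W i, B.p i z = x :=
  Man.exists_chart (B.cover ▸ mem_univ x)

theorem hn_dens (ha : B.Cpt a) {i : B.ι} {z : E N} (hz : z ∈ B.W i) :
    B.dens a (B.p i z) = (a i z).det.re / wt (B.Ψ i) z :=
  hn_glob (f := fun i z => (a i z).det.re / wt (B.Ψ i) z) (fun i j z hz φ hφ => by
    have h := B.Ψ_cpt i j z hz φ hφ
    rw [ha i j z hz φ hφ, hn_det_conj, h, mul_div_mul_left _ _
      (left_ne_zero_of_mul (h ▸ (wt_pos _ _).ne'))]) hz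

theorem hn_dens_cont (ha : Frm B.toMan a) : Continuous (B.dens a) := by
  rw [← continuousOn_univ, ← B.cover]
  exact Man.contOn fun i => ((Complex.continuous_re.comp_continuousOn
    (abcal_det (ha.clo i).smooth).continuousOn).div (wt_smooth (B.Ψ_smooth i)).continuousOn
      fun z _ => (wt_pos _ _).ne').congr fun z hz => hn_dens ha.cpt hz

theorem hn_dens_pos (hK : Kf B.toMan K) (x : Y) : 0 < B.dens K x := by
  obtain ⟨i, z, hz, rfl⟩ := hn_chart B x
  rw [hn_dens hK.cpt hz]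
  exact div_pos (hn_det ((hK.kah i).pos z hz)).1 (wt_pos _ _)

theorem hn_dens_le (hK : Kf B.toMan K) (hK' : Kf B.toMan K') {c : ℝ} {i : B.ι} {z : E N}
    (hz : z ∈ B.W i) (h : Le (K i z) (K' i z) c) :
    B.dens K (B.p i z) ≤ c ^ N * B.dens K' (B.p i z) := by
  rw [hn_dens hK.cpt hz, hn_dens hK'.cpt hz, ← mul_div_assoc]
  exact div_le_div_of_nonneg_right (hn_mono ((hK.kah i).pos z hz) ((hK'.kah i).pos z hz) h)
    (wt_pos _ _).le

variable [BorelSpace Y]

/-- The Kähler manifold with the metric `K` and its volume. -/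
noncomputable def Base.kd (B : Base Y N) {K : B.ι → E N → Mat N} (hK : Kf B.toMan K) : KD Y N where
  toMan := B.toMan
  cover := B.cover
  K := K
  Ψ i z := -Real.log (K i z).det.re
  ν := B.μ.withDensity fun x => ENNReal.ofReal (B.dens K x)
  kah := hK.kah
  K_cpt := hK.cpt
  Ψ_smooth i := ((Complex.reCLM.contDiff.comp_contDiffOn (abcal_det (hK.kah i).smooth)).log
    fun z hz => (hn_det ((hK.kah i).pos z hz)).1.ne').neg
  den i S hS hm := by
    rw [withDensity_apply _ (Man.meas_img hm hS), B.den.lint (B.Ψ_smooth i).continuousOn hm hS]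
    refine setLIntegral_congr_fun hm fun z hz => ?_
    simp only
    rw [← ENNReal.ofReal_mul (wt_pos _ _).le, hn_dens hK.cpt (hS hz),
      mul_div_cancel₀ _ (wt_pos _ _).ne', wt, neg_neg,
      Real.exp_log (hn_det ((hK.kah i).pos z (hS hz))).1]
  det i z hz := by
    rw [wt, neg_neg, Real.exp_log (hn_det ((hK.kah i).pos z hz)).1, (hn_det ((hK.kah i).pos z hz)).2]

theorem Base.kd_int (B : Base Y N) {K : B.ι → E N → Mat N} (hK : Kf B.toMan K) (f : Y → ℝ) :
    ∫ x, f x ∂(B.kd hK).ν = ∫ x, f x * B.dens K x ∂B.μ := by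
  refine (integral_withDensity_eq_integral_toReal_smul
    (hn_dens_cont (hn_frm hK)).measurable.ennreal_ofReal
    (Eventually.of_forall fun x => ENNReal.ofReal_lt_top) f).trans ?_
  simp only [ENNReal.toReal_ofReal (hn_dens_pos hK _).le, smul_eq_mul, mul_comm]

theorem hn_fin (hK : Kf B.toMan K) (hi : Integrable (B.dens K) B.μ) :
    IsFiniteMeasure (B.kd hK).ν := isFiniteMeasure_withDensity_ofReal hi.2

theorem hn_QQ (hK : Kf B.toMan K) (a : B.ι → E N → Mat N) : (B.kd hK).QQ a =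
    (∫ x, ((B.kd hK).tr a x).re * B.dens K x ∂B.μ) ^ 2 / ∫ x, B.dens K x ∂B.μ -
      ∫ x, (B.kd hK).bb a x * B.dens K x ∂B.μ := by
  have h := B.kd_int hK fun _ => 1
  simp only [integral_const, smul_eq_mul, mul_one, one_mul] at h
  rw [KD.QQ, B.kd_int, B.kd_int, h]

end Pool.Agent.HX
end

-- part Pool.Agent.P.MP_63735c_ag.HXBB1
section

/-! The quadratic form of the Hodge index theorem: differential algebra. -/

open scoped Matrix

namespace Pool.Agent.HX

open Pool.Agent.SPF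

variable {R : Type} [CommRing R] {N : ℕ}

/-- The form `tr M tr M' - tr (M M')`, traces with respect to the inverse metric `P`. -/
def Bf (P M M' : Matrix (Fin N) (Fin N) R) : R :=
  (P * M).trace * (P * M').trace - (P * M * (P * M')).trace

/-- The coefficients of the form. -/
def Tt (v : R) (P : Matrix (Fin N) (Fin N) R) (a b c e : Fin N) : R :=
  v * (P b a * P e c - P e a * P b c)

/-- The bilinear form with coefficients `T`. -/
def bt (T : Fin N → Fin N → Fin N → Fin N → R) (M M' : Matrix (Fin N) (Fin N) R) : R :=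
  ∑ a, ∑ c, ∑ b, ∑ e, T a b c e * (M a b * M' c e)

variable {P M M' K : Matrix (Fin N) (Fin N) R}

theorem Bf_comm (P M M' : Matrix (Fin N) (Fin N) R) : Bf P M M' = Bf P M' M := by
  rw [Bf, Bf, Matrix.trace_mul_comm (P * M), mul_comm]

theorem Bf_add_left (P M M₁ M' : Matrix (Fin N) (Fin N) R) :
    Bf P (M + M₁) M' = Bf P M M' + Bf P M₁ M' := by
  simp only [Bf, mul_add, add_mul, Matrix.trace_add]
  ring

theorem Bf_add_right (P M M' M₁ : Matrix (Fin N) (Fin N) R) :
    Bf P M (M' + M₁) = Bf P M M' + Bf P M M₁ := by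
  simp only [Bf, mul_add, Matrix.trace_add]
  ring

theorem Bf_star [StarRing R] (hP : Pᴴ = P) (M M' : Matrix (Fin N) (Fin N) R) :
    star (Bf P M M') = Bf P Mᴴ M'ᴴ := by
  simp only [Bf, star_sub, star_mul', ← Matrix.trace_conjTranspose, Matrix.conjTranspose_mul, hP]
  rw [Matrix.trace_mul_comm Mᴴ, Matrix.trace_mul_comm M'ᴴ, ← mul_assoc,
    Matrix.trace_mul_comm _ P, ← mul_assoc, ← mul_assoc, mul_assoc _ P,
    Matrix.trace_mul_comm (P * M'ᴴ)]

theorem Bf_map {R' : Type} [CommRing R'] (φ : R →+* R') (P M M' : Matrix (Fin N) (Fin N) R) :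
    φ (Bf P M M') = Bf (P.map φ) (M.map φ) (M'.map φ) := by
  simp only [Bf, map_sub, map_mul, AddMonoidHom.map_trace φ, Matrix.map_mul]

theorem bt_Tt (v : R) (P M M' : Matrix (Fin N) (Fin N) R) : bt (Tt v P) M M' = v * Bf P M M' := by
  have h1 : (P * M).trace * (P * M').trace =
      ∑ a, ∑ c, ∑ b, ∑ e, P b a * P e c * (M a b * M' c e) := by
    rw [Matrix.trace_mul_comm P, Matrix.trace_mul_comm P]
    simp only [Matrix.trace, Matrix.diag, Matrix.mul_apply, Finset.sum_mul_sum]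
    simp only [mul_comm, mul_left_comm]
  have h2 : (P * M * (P * M')).trace = ∑ a, ∑ c, ∑ b, ∑ e, P e a * P b c * (M a b * M' c e) := by
    rw [mul_assoc, Matrix.trace_mul_comm P, ← mul_assoc, mul_assoc, Matrix.trace]
    refine Finset.sum_congr rfl fun a _ => ?_
    rw [Matrix.diag, Matrix.mul_apply]
    simp only [Matrix.mul_apply, Finset.sum_mul_sum]
    simp only [mul_comm, mul_left_comm]
  rw [Bf, h1, h2]
  simp only [bt, Tt, mul_sub, sub_mul, Finset.sum_sub_distrib, Finset.mul_sum, mul_assoc]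

variable [Algebra ℂ R]

theorem anti_sum {f : Fin N → Fin N → R} (h : ∀ a c, f a c = -f c a) : ∑ a, ∑ c, f a c = 0 := by
  have h1 : ∑ a, ∑ c, f a c = -∑ a, ∑ c, f a c := by
    conv_lhs => rw [Finset.sum_comm]
    simp only [← Finset.sum_neg_distrib]
    exact Finset.sum_congr rfl fun a _ => Finset.sum_congr rfl fun c _ => h c a
  have h2 : (2 : ℂ) • ∑ a, ∑ c, f a c = 0 := by rw [two_smul, add_eq_zero_iff_eq_neg, ← h1]
  rw [← inv_smul_smul₀ (two_ne_zero (α := ℂ)) (∑ a, ∑ c, f a c), h2, smul_zero]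

theorem der_det (δ : Derivation ℂ R R) (h : K * P = 1) :
    δ K.det = K.det * (P * K.map δ).trace := by
  have h1 : K.adjugate = K.det • P := by
    rw [← mul_one K.adjugate, ← h, ← mul_assoc, Matrix.adjugate_mul, smul_mul_assoc, one_mul]
  rw [a3_der_det, Matrix.trace_mul_comm, Matrix.trace, Finset.mul_sum]
  refine Finset.sum_congr rfl fun i _ => ?_
  rw [← Matrix.cramer_transpose_apply, Matrix.cramer_eq_adjugate_mulVec,
    ← Matrix.adjugate_transpose, h1]
  simp [Matrix.mulVec, dotProduct, Matrix.mul_apply, Finset.mul_sum, mul_comm, mul_left_comm,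
    mul_assoc]

theorem der_inv (δ : Derivation ℂ R R) (h : K * P = 1) : P.map δ = -(P * K.map δ * P) := by
  have h1 : K.map δ * P + K * P.map δ = 0 := by
    ext a b
    have := congrArg δ (congrFun (congrFun h a) b)
    simpa [Matrix.mul_apply, Matrix.one_apply, apply_ite δ, Finset.sum_add_distrib, mul_comm,
      add_comm] using this
  rw [mul_assoc, eq_neg_of_add_eq_zero_left h1, mul_neg, neg_neg, ← mul_assoc,
    mul_eq_one_comm.1 h, one_mul]

variable {d db : Fin N → Derivation ℂ R R}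

theorem der_inv' (δ : Derivation ℂ R R) (h : K * P = 1) (b c : Fin N) :
    δ (P b c) = -∑ f, ∑ g, P b g * δ (K g f) * P f c := by
  simpa [Matrix.mul_apply, Finset.sum_mul] using congrFun (congrFun (der_inv δ h) b) c

theorem piola (h : K * P = 1) (hc : ∀ a b c, d c (K a b) = d a (K c b)) (b : Fin N) :
    ∑ a, d a (K.det * P b a) = 0 := by
  simp only [Derivation.leibniz, smul_eq_mul, der_det _ h, der_inv' _ h, Finset.sum_add_distrib,
    mul_neg, Finset.sum_neg_distrib, Matrix.trace, Matrix.diag, Matrix.mul_apply, Matrix.map_apply,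
    Finset.mul_sum]
  rw [neg_add_eq_zero, Finset.sum_comm]
  conv_rhs => rw [Finset.sum_comm]
  refine Finset.sum_congr rfl fun f _ => Finset.sum_comm.trans ?_
  refine Finset.sum_congr rfl fun g _ => Finset.sum_congr rfl fun a _ => ?_
  rw [hc g f a]
  ring

theorem div_grad (h : K * P = 1) (hc : ∀ a b c, d c (K a b) = d a (K c b)) (u : Fin N → R) :
    ∑ a, d a (K.det * (u ᵥ* P) a) = K.det * (P * Matrix.of fun a b => d a (u b)).trace := by
  have h1 : ∀ a b, d a (K.det * (u b * P b a)) =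
      u b * d a (K.det * P b a) + K.det * (P b a * d a (u b)) := fun a b => by
    simp only [Derivation.leibniz, smul_eq_mul]
    ring
  simp only [Matrix.vecMul, dotProduct, Finset.mul_sum, map_sum, h1, Matrix.trace, Matrix.diag,
    Matrix.mul_apply, Matrix.of_apply]
  rw [Finset.sum_comm]
  simp only [Finset.sum_add_distrib, ← Finset.mul_sum, piola h hc, mul_zero,
    zero_add]

/-- The coefficients are divergence free. -/
theorem div_Tt (h : K * P = 1) (hc : ∀ a b c, d c (K a b) = d a (K c b)) (b c e : Fin N) :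
    ∑ a, d a (Tt K.det P a b c e) = 0 := by
  have h1 := fun a => der_inv' (d a) h
  have h2 := piola h hc
  have h3 : ∀ b e, ∑ a, P b a * d a (P e c) = -∑ f, ∑ a, ∑ g, P b a * P e g * d a (K g f) * P f c :=
    fun b e => by
      simp only [h1, mul_neg, Finset.sum_neg_distrib, Finset.mul_sum, mul_assoc]
      rw [Finset.sum_comm]
  have h4 : ∑ a, P b a * d a (P e c) = ∑ a, P e a * d a (P b c) := by
    rw [h3, h3]
    refine congrArg _ (Finset.sum_congr rfl fun f _ => Finset.sum_comm.trans ?_)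
    refine Finset.sum_congr rfl fun g _ => Finset.sum_congr rfl fun a _ => ?_
    rw [hc g f a]
    ring
  have h5 : ∀ a, d a (Tt K.det P a b c e) = P e c * d a (K.det * P b a) -
      P b c * d a (K.det * P e a) + K.det * (P b a * d a (P e c) - P e a * d a (P b c)) :=
    fun a => by
      simp only [Tt, Derivation.leibniz, smul_eq_mul, map_sub]
      ring
  simp only [h5, Finset.sum_add_distrib, Finset.sum_sub_distrib, ← Finset.mul_sum, h2, h4]
  ring

variable {T : Fin N → Fin N → Fin N → Fin N → R} {Z : AddSubgroup R} {τ : R}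

theorem step1 (h1 : ∀ a b c e, T a b c e = -T c b a e) (hd : ∀ b c e, ∑ a, d a (T a b c e) = 0)
    (hZ : ∀ l f, d l (τ * f) ∈ Z) (u : Fin N → R) (hM : ∀ a b c, d c (M a b) = d a (M c b)) :
    τ * bt T (Matrix.of fun a b => d a (u b)) M +
      bt T (Matrix.vecMulVec (fun a => d a τ) u) M ∈ Z := by
  have h2 : ∑ a, ∑ c, ∑ b, ∑ e, d a (T a b c e) * (τ * u b * M c e) = 0 := by
    rw [Finset.sum_comm]
    refine Finset.sum_eq_zero fun c _ => Finset.sum_comm.trans (Finset.sum_eq_zero fun b _ => ?_)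
    refine Finset.sum_comm.trans (Finset.sum_eq_zero fun e _ => ?_)
    rw [← Finset.sum_mul, hd, zero_mul]
  have h3 : ∑ a, ∑ c, ∑ b, ∑ e, T a b c e * (τ * u b * d a (M c e)) = 0 := anti_sum fun a c => by
    simp only [h1 a _ c, hM c _ a, neg_mul, Finset.sum_neg_distrib]
  have h4 : ∑ a, ∑ c, ∑ b, ∑ e, d a (τ * (T a b c e * (u b * M c e))) ∈ Z :=
    sum_mem fun _ _ => sum_mem fun _ _ => sum_mem fun _ _ => sum_mem fun _ _ => hZ _ _
  rw [← add_zero (_ + _), ← add_zero 0]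
  nth_rewrite 1 [← h2, ← h3]
  refine (congrArg (· ∈ Z) ?_).mp h4
  simp only [bt, Finset.mul_sum, ← Finset.sum_add_distrib, Derivation.leibniz, smul_eq_mul,
    Matrix.of_apply, Matrix.vecMulVec_apply]
  refine Finset.sum_congr rfl fun a _ => Finset.sum_congr rfl fun c _ => ?_
  exact Finset.sum_congr rfl fun b _ => Finset.sum_congr rfl fun e _ => by ring

theorem step2 (h1 : ∀ a b c e, T a b c e = -T a e c b) (hd : ∀ a b c, ∑ e, db e (T a b c e) = 0)
    {t u x : Fin N → R} (hZ : ∀ l a f, db l (t a * f) ∈ Z) (hu : ∀ b e, db e (u b) = db b (u e)) :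
    bt T (Matrix.vecMulVec t u) (Matrix.of fun c e => db e (x c)) -
      bt T (Matrix.of fun a b => db b (t a)) (Matrix.vecMulVec x u) ∈ Z := by
  have h2 : ∑ a, ∑ c, ∑ b, ∑ e, db e (T a b c e) * (t a * u b * x c) = 0 := by
    simp only [← Finset.sum_mul, hd, zero_mul, Finset.sum_const_zero]
  have h3 : ∑ a, ∑ c, ∑ b, ∑ e, T a b c e * (t a * db e (u b) * x c) = 0 :=
    Finset.sum_eq_zero fun a _ => Finset.sum_eq_zero fun c _ => anti_sum fun b e => by
      rw [h1 a b, hu b, neg_mul]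
  have h4 : ∑ a, ∑ c, ∑ b, ∑ e, db e (t a * (T a b c e * (u b * x c))) ∈ Z :=
    sum_mem fun _ _ => sum_mem fun _ _ => sum_mem fun _ _ => sum_mem fun _ _ => hZ _ _ _
  have h5 : -bt T (Matrix.of fun a b => db b (t a)) (Matrix.vecMulVec x u) =
      ∑ a, ∑ c, ∑ b, ∑ e, T a b c e * (db e (t a) * (x c * u b)) := by
    simp only [bt, ← Finset.sum_neg_distrib]
    refine Finset.sum_congr rfl fun a _ => Finset.sum_congr rfl fun c _ => Finset.sum_comm.trans ?_
    refine Finset.sum_congr rfl fun b _ => Finset.sum_congr rfl fun e _ => ?_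
    rw [h1 a b, neg_mul]
    rfl
  rw [sub_eq_add_neg, h5, ← add_zero (_ + _), ← add_zero 0]
  nth_rewrite 1 [← h2, ← h3]
  refine (congrArg (· ∈ Z) ?_).mp h4
  simp only [bt, ← Finset.sum_add_distrib, Derivation.leibniz, smul_eq_mul, Matrix.of_apply,
    Matrix.vecMulVec_apply]
  refine Finset.sum_congr rfl fun a _ => Finset.sum_congr rfl fun c _ => ?_
  exact Finset.sum_congr rfl fun b _ => Finset.sum_congr rfl fun e _ => by ring

/-- The basic identity up to divergences. -/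
theorem bb_alg [StarRing R] (hs : ∀ l a, star (d l a) = db l (star a))
    (h1 : ∀ l k a, d l (db k a) = db k (d l a)) (h2 : ∀ l k a, d l (d k a) = d k (d l a))
    (h : K * P = 1) (hK : Kᴴ = K) (hc : ∀ a b c, d c (K a b) = d a (K c b)) (hM : Mᴴ = M)
    (hM' : ∀ a b c, d c (M a b) = d a (M c b)) (hτ : star τ = τ) (hZ : ∀ l f, d l (τ * f) ∈ Z)
    (hZ' : ∀ l a f, db l (d a τ * f) ∈ Z) (hZs : ∀ x ∈ Z, star x ∈ Z) (w : R) :
    τ * (K.det * Bf P (M + Matrix.of fun a b => d a (db b w))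
      (M + Matrix.of fun a b => d a (db b w))ᴴ) -
      K.det * (τ * Bf P M M - (Bf P M (Matrix.vecMulVec (fun a => d a τ) fun b => db b w) +
        star (Bf P M (Matrix.vecMulVec (fun a => d a τ) fun b => db b w))) -
        Bf P (Matrix.of fun a b => d a (db b τ))
          (Matrix.vecMulVec (star fun b => db b w) fun b => db b w)) ∈ Z := by
  have hs' : ∀ l a, star (db l a) = d l (star a) := fun l a => by
    rw [← star_star (d l _), hs, star_star]
  have hP : Pᴴ = P := by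
    have := congrArg Matrix.conjTranspose h
    rw [Matrix.conjTranspose_mul, hK, Matrix.conjTranspose_one] at this
    rw [← mul_one Pᴴ, ← h, ← mul_assoc, this, one_mul]
  have hv : star K.det = K.det := by rw [← Matrix.det_conjTranspose, hK]
  have hT1 : ∀ a b c e, Tt K.det P a b c e = -Tt K.det P c b a e := fun a b c e => by
    simp only [Tt]
    ring
  have hT2 : ∀ a b c e, Tt K.det P a b c e = -Tt K.det P a e c b := fun a b c e => by
    simp only [Tt]
    ring
  have hd : ∀ a b c, ∑ e, db e (Tt K.det P a b c e) = 0 := fun a b c => by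
    have h3 : ∀ a b, star (P a b) = P b a := fun a b => congrFun (congrFun hP b) a
    have := congrArg star (div_Tt h hc c b a)
    simpa only [star_sum, star_zero, hs, Tt, star_mul', star_sub, hv, h3, mul_comm] using this
  have hL : (Matrix.of fun a b => d a (db b w))ᴴ = Matrix.of fun c e => db e (star (db c w)) := by
    ext a b
    exact hs _ _
  have a1 := step1 hT1 (div_Tt h hc) hZ (fun b => db b w) hM'
  have a2 := hZs _ a1
  have a3 := step1 hT1 (div_Tt h hc) hZ (fun b => db b w)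
    (M := Matrix.of fun c e => db e (star (db c w))) fun a b c => by
      simp only [Matrix.of_apply, h1, hs', h2 c a]
  have a4 := step2 (x := fun c => star (db c w)) hT2 hd hZ' (u := fun b => db b w) fun b e => by
    rw [← star_star w, ← hs, ← hs, h2, hs, hs]
  refine (congrArg (· ∈ Z) ?_).mp (sub_mem (add_mem (add_mem a1 a2) a3) a4)
  simp only [bt_Tt, star_add, star_mul', hτ, hv, Matrix.conjTranspose_add, Bf_add_left,
    Bf_add_right, Bf_star hP, hM, hL, ← h1, Pi.star_def, Bf_comm P _ M]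
  ring

end Pool.Agent.HX
end
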