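import Pool.Agent.K.MP_63735c_ag.C216
import Pool.Agent.K.MP_63735c_ag.C209
import Pool.Agent.K.MP_63735c_ag.C214

/-! The divergence theorem for forms with compact support. -/

open scoped ComplexOrder ContDiff Matrix Topology ENNReal
open Set Metric MeasureTheory Filter

namespace Pool.Agent.ZB

open Pool.Agent.SPF Pool.Agent.AB Pool.Agent.CK Pool.Agent.SE Pool.Agent.NL Pool.Agent.BP

variable {N : ℕ} {X : Type} [TopologicalSpace X] [T2Space X]

theorem exists_one {D : Man X N} {C : Set X} (hC : IsCompact C) (hM : C ⊆ D.M) :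
    ∃ θ : X → ℝ, D.S θ ∧ (∀ x, 0 ≤ θ x ∧ θ x ≤ 1) ∧ ∀ x ∈ C, θ x = 1 := by
  refine hC.induction_on (p := fun S => ∃ θ : X → ℝ, D.S θ ∧ (∀ x, 0 ≤ θ x ∧ θ x ≤ 1) ∧
    ∀ x ∈ S, θ x = 1) ⟨fun _ => 0, Man.S.zero, fun _ => ⟨le_rfl, zero_le_one⟩, fun _ h => h.elim⟩
    (fun _ _ hs ⟨θ, h1, h2, h3⟩ => ⟨θ, h1, h2, fun x hx => h3 x (hs hx)⟩) ?_ fun x hx => ?_
  · rintro S S' ⟨θ, h1, h2, h3⟩ ⟨θ', h1', h2', h3'⟩
    refine ⟨fun x => θ x + θ' x * (1 - θ x), h1.add ⟨fun i => (h1'.1 i).mul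
      (contDiffOn_const.sub (h1.1 i)), h1'.2.of_zero fun x hx => by simp [hx]⟩, fun x => ?_, ?_⟩
    · constructor <;> nlinarith [h2 x, h2' x]
    · rintro x (hx | hx)
      · simp [h3 x hx]
      · simp [h3' x hx]
  · obtain ⟨i, z, hz, rfl⟩ := Man.exists_chart (hM hx)
    obtain ⟨χ, d, h1, h2, h3, h4⟩ := exists_bump (D.isOpen i) isCompact_singleton
      (singleton_subset_iff.2 hz)
    refine ⟨D.p i '' (ball z d ∩ D.W i), mem_nhdsWithin_of_mem_nhds
      ((D.opn i _ (isOpen_ball.inter (D.isOpen i)) inter_subset_right).mem_nhds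
        ⟨z, ⟨mem_ball_self h3, hz⟩, rfl⟩), D.ext i χ, Man.ext_S h1,
      fun y => ⟨?_, abpu_bd h2 y⟩, ?_⟩
    · by_cases hy : y ∈ D.p i '' D.W i
      · obtain ⟨w, hw, rfl⟩ := hy
        rw [Man.ext_apply hw]
        exact (h2 w).1
      · rw [Man.ext_out hy]
    · rintro _ ⟨y, hy, rfl⟩
      rw [Man.ext_apply hy.2]
      exact h4 z rfl y hy.1

variable [MeasurableSpace X] [BorelSpace X] {A : Atlas X N} {μ : Measure X}

omit [T2Space X] [BorelSpace X] in
theorem den_of_vol (hinj : ∀ i, InjOn (A.p i) (A.C i).W) (hμ : IsVolume A μ) :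
    (man A hinj isOpen_univ).Den μ fun i z => -Real.log ‖((A.C i).σ z).det‖ := fun i S hS hm =>
  (hμ i S (hS.trans inter_subset_left) hm).trans (setLIntegral_congr_fun hm fun z hz => by
    simp only [wt, neg_neg]
    rw [Real.exp_log (norm_pos_iff.2 ((A.C i).σ_det z (hS hz).1)), ofReal_norm])

omit [T2Space X] [MeasurableSpace X] [BorelSpace X] in
theorem div_out {β : A.ι → E N → E N} {C : Set X} (hC : IsClosed C)
    (h0 : ∀ i, ∀ z ∈ (A.C i).W, A.p i z ∉ C → β i z = 0) {u : X → ℂ}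
    (hu : ∀ i, ∀ z ∈ (A.C i).W, u (A.p i z) =
      ∑ a, ∑ b, ((A.C i).σ z)⁻¹ b a * dz a (fun w => β i w b) z) {x : X} (hx : x ∉ C) :
    u x = 0 := by
  obtain ⟨i, z, hz, rfl⟩ := A.cover x
  have hn := (A.C i).isOpen.mem_nhds hz
  have h4 : ∀ᶠ w in 𝓝 z, A.p i w ∉ C :=
    (A.cont i).continuousAt hn (hC.isOpen_compl.mem_nhds hx)
  rw [hu i z hz]
  refine Finset.sum_eq_zero fun a _ => Finset.sum_eq_zero fun b _ => ?_
  have e : (fun w => β i w b) =ᶠ[𝓝 z] fun _ => 0 := by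
    filter_upwards [h4, hn] with w hw hw'
    rw [h0 i w hw' hw, Pi.zero_apply]
  rw [(dz_congr e a).self_of_nhds, (dz_const a 0).1, mul_zero]

omit [T2Space X] in
theorem vol_cpt (hinj : ∀ i, InjOn (A.p i) (A.C i).W) (hμ : IsVolume A μ) :
    IsFiniteMeasureOnCompacts μ :=
  ⟨fun _ hC => (den_of_vol hinj hμ).lt_top (fun _ _ hz =>
    (abd_det _ hz.1).1.continuousAt.neg.continuousWithinAt) hC (by rw [man_M]; exact subset_univ _)⟩

theorem div_zero (hinj : ∀ i, InjOn (A.p i) (A.C i).W) (hμ : IsVolume A μ)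
    {β : A.ι → E N → E N} (hβ : Is10 A β) {C : Set X} (hC : IsCompact C)
    (hβ0 : ∀ i, ∀ z ∈ (A.C i).W, A.p i z ∉ C → β i z = 0) {u : X → ℂ}
    (hu : ∀ i, ∀ z ∈ (A.C i).W, u (A.p i z) =
      ∑ a, ∑ b, ((A.C i).σ z)⁻¹ b a * dz a (fun w => β i w b) z) :
    Integrable u μ ∧ ∫ x, u x ∂μ = 0 := by
  have := vol_cpt hinj hμ
  let D := man A hinj isOpen_univ
  have hW : ∀ i, D.W i = (A.C i).W := fun i => inter_univ _
  obtain ⟨θ, θ1, θ2, θ3⟩ := exists_one (D := D) hC (by rw [man_M]; exact subset_univ _)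
  obtain ⟨m, c, τ, h1, -, h3⟩ := Man.exists_pu θ1 fun x => (θ2 x).1
  let T : Fin m → X → ℂ := fun k x => (D.ext (c k) (τ k) x : ℝ)
  have hT : ∀ k i, ContDiffOn ℝ ∞ (fun z => T k (A.p i z)) (A.C i).W := fun k i =>
    hW i ▸ (Man.ext_S (h1 k)).ofReal.1 i
  have hk : ∀ k, Is10 A fun i z => T k (A.p i z) • β i z := fun k =>
    ⟨fun i => (hT k i).smul (hβ.1 i), fun i j O φ a1 a2 z hz => by
      simp only [hβ.2 i j O φ a1 a2 z hz, a2 z hz, Matrix.smul_vecMul]⟩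
  choose v hv hv' using fun k => div_exists hinj (hk k)
  have hsum : u = fun x => ∑ k, v k x := by
    funext x
    obtain ⟨i, z, hz, rfl⟩ := A.cover x
    simp only [hu i z hz, hv' _ i z hz]
    symm
    rw [Finset.sum_comm]
    refine Finset.sum_congr rfl fun a _ => ?_
    rw [Finset.sum_comm]
    refine Finset.sum_congr rfl fun b _ => ?_
    rw [← Finset.mul_sum, ← (dz_sum _ (fun k _ =>
      diffAt (A.C i).isOpen (contDiffOn_pi.1 ((hk k).1 i) b) hz) a).1]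
    congr 1
    refine (dz_congr ?_ a).self_of_nhds
    filter_upwards [(A.C i).isOpen.mem_nhds hz] with w hw
    simp only [Pi.smul_apply, smul_eq_mul, ← Finset.sum_mul, T, ← Complex.ofReal_sum, ← h3]
    by_cases hc : A.p i w ∈ C
    · rw [θ3 _ hc, Complex.ofReal_one, one_mul]
    · rw [hβ0 i w hw hc, Pi.zero_apply, mul_zero]
  let Ψ : A.ι → E N → ℝ := fun i z => -Real.log ‖((A.C i).σ z).det‖
  have hw : ∀ i, ∀ z ∈ (A.C i).W, wt (Ψ i) z = ‖((A.C i).σ z).det‖ := by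
    intro i z hz
    simp only [wt, Ψ, neg_neg]
    exact Real.exp_log (norm_pos_iff.2 ((A.C i).σ_det z hz))
  have hd : D.Den μ Ψ := den_of_vol hinj hμ
  have h0 : ∀ k, ∀ z ∈ D.W (c k), z ∉ tsupport (τ k) → τ k z = 0 := fun k z _ hz =>
    image_eq_zero_of_notMem_tsupport hz
  have hc := fun k => (Man.cpt_img (D := D) (h1 k).cpt.isCompact (h1 k).sub).1
  have hz : ∀ k, ∀ x ∉ D.p (c k) '' tsupport (τ k), v k x = 0 := fun k x hx =>
    div_out (hc k).isClosed (fun i z _ hz => by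
      simp only [T, Man.ext_zero (h0 k) hz, Complex.ofReal_zero, zero_smul]) (hv' k) hx
  have hi : ∀ k ∈ Finset.univ, Integrable (v k) μ := fun k _ =>
    (hv k).integrable_of_hasCompactSupport (HasCompactSupport.intro (hc k) (hz k))
  rw [hsum]
  refine ⟨integrable_finsetSum _ hi, ?_⟩
  rw [integral_finsetSum _ hi]
  refine Finset.sum_eq_zero fun k _ => ?_
  rw [hd.int_supp (i := c k) (fun z hz =>
    (abd_det _ hz.1).1.continuousAt.neg.continuousWithinAt), hW,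
    ← bpt13_int (A.C (c k)) ((hk k).1 _) (h1 k).cpt.isCompact (hW _ ▸ (h1 k).sub)]
  · refine setIntegral_congr_fun (A.C (c k)).isOpen.measurableSet fun z hz => ?_
    simp only [hw _ z hz]
    exact congrArg _ (hv' k _ z hz)
  · intro z hz hz'
    have : T k (A.p (c k) z) = 0 := by
      simp only [T]
      rw [show A.p (c k) z = D.p (c k) z from rfl, Man.ext_apply (hW _ ▸ hz),
        h0 k z (hW _ ▸ hz) hz', Complex.ofReal_zero]
    exact (congrArg (· • β (c k) z) this).trans (zero_smul _ _)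
  · exact fun x hx => hz k x fun a => hx (image_mono (h1 k).sub a)

omit [T2Space X] [MeasurableSpace X] [BorelSpace X] in
theorem lap_form {f : X → ℝ} (hf : ∀ i, ContDiffOn ℝ ∞ (fun z => f (A.p i z)) (A.C i).W) :
    ∃ β : A.ι → E N → E N, Is10 A β ∧ ∀ i, ∀ z ∈ (A.C i).W,
      ((∀ᶠ w in 𝓝 z, f (A.p i w) = 0) → β i z = 0) ∧
      -∑ a, ∑ b, ((A.C i).σ z)⁻¹ b a * dz a (fun w => β i w b) z =
        ∑ a, ∑ b, (A.C i).G z a b * lev (fun w => f (A.p i w)) z a b := by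
  let F : A.ι → E N → ℂ := fun i w => f (A.p i w)
  have hF : ∀ i, ContDiffOn ℝ ∞ (F i) (A.C i).W := fun i => ofReal_smooth (hf i)
  let β : A.ι → E N → E N := fun i z => (A.C i).η z *ᵥ (((A.C i).π z)ᴴ *ᵥ db (F i) z)
  have hb : ∀ i z c, β i z c =
      ∑ e, (A.C i).η z c e * ∑ b, star ((A.C i).π z b e) * dzb b (F i) z := fun i z c => rfl
  have s1 : ∀ i b e, ContDiffOn ℝ ∞ (fun z => star ((A.C i).π z b e)) (A.C i).W :=
    fun i b e => reg_star ((A.C i).reg_π b e)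
  have s2 : ∀ i b, ContDiffOn ℝ ∞ (dzb b (F i)) (A.C i).W := fun i b =>
    (dz_smooth (A.C i).isOpen (hF i) b).2
  have s3 : ∀ i e, ContDiffOn ℝ ∞
      (fun z => ∑ b, star ((A.C i).π z b e) * dzb b (F i) z) (A.C i).W :=
    fun i e => ContDiffOn.sum fun b _ => (s1 i b e).mul (s2 i b)
  have hβ : Is10 A β := by
    refine ⟨fun i => contDiffOn_pi.2 fun c => ?_, fun i j O φ h a2 z hz => ?_⟩
    · simp only [hb]
      exact ContDiffOn.sum fun e _ => ((A.C i).η_smooth c e).mul (s3 i e)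
    · have h2 : (A.C j).π (φ z) = jac φ z * (A.C i).π z * (jac φ z)ᵀ := by
        have h3 : (jac φ z)ᵀ * ((A.C j).σ (φ z) * jac φ z * (A.C i).π z) = 1 := by
          rw [← Chart.σ_mul_π (h.sub hz), h.σ_eq z hz]
          simp only [Matrix.mul_assoc]
        refine Matrix.inv_eq_right_inv ?_
        rw [← mul_eq_one_comm.1 h3]
        simp only [Matrix.mul_assoc]
      have e : F i =ᶠ[𝓝 z] fun w => F j (φ w) := by
        filter_upwards [h.isOpen.mem_nhds hz] with w hw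
        simp only [F, a2 w hw]
      have h4 : db (F i) z = (jac φ z)ᴴ *ᵥ db (F j) (φ z) := by
        rw [(db_congr e).self_of_nhds, db_comp (diffAt (A.C j).isOpen (hF j) (h.maps hz))
          (h.lin3_diff hz), ← Matrix.mulVec_transpose]
        rfl
      simp only [β]
      rw [h4, h2, h.η_eq z hz, ← Matrix.mulVec_transpose, IsChange.lin3_star,
        Matrix.conjTranspose_mul, Matrix.conjTranspose_mul]
      simp only [Matrix.mulVec_mulVec, Matrix.mul_assoc]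
  refine ⟨β, hβ, fun i z hz => ⟨fun h => ?_, ?_⟩⟩
  · have e : F i =ᶠ[𝓝 z] fun _ => 0 := h.mono fun w hw => by simp only [F, hw, Complex.ofReal_zero]
    simp only [β]
    rw [(db_congr e).self_of_nhds, db_const, Matrix.mulVec_zero, Matrix.mulVec_zero]
  have ho := (A.C i).isOpen
  have h3 : ∀ a c, dz a (fun w => β i w c) z = ∑ e, (dz a (fun w => (A.C i).η w c e) z *
      (∑ b, star ((A.C i).π z b e) * dzb b (F i) z) + (A.C i).η z c e *
      ∑ b, star ((A.C i).π z b e) * lev (fun w => f (A.p i w)) z a b) := by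
    intro a c
    have d1 := fun e => diffAt ho ((A.C i).η_smooth c e) hz
    have d2 := fun e => diffAt ho (s3 i e) hz
    have d3 := fun b e => diffAt ho (s1 i b e) hz
    have d4 := fun b => diffAt ho (s2 i b) hz
    simp only [hb]
    rw [(dz_sum _ (fun e _ => (d1 e).fun_mul (d2 e)) a).1]
    refine Finset.sum_congr rfl fun e _ => ?_
    rw [(dz_mul (d1 e) (d2 e) a).1, (dz_sum _ (fun b _ => (d3 b e).fun_mul (d4 b)) a).1]
    congr 2
    refine Finset.sum_congr rfl fun b _ => ?_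
    rw [(dz_mul (d3 b e) (d4 b) a).1, ← (star_dz _ z a).2, (dz_of_diff
      (((A.C i).π_hol b e).differentiableAt (ho.mem_nhds hz)) a).2, star_zero, zero_mul, zero_add,
      lev_apply]
  have h4 : ∑ a, ∑ c, (A.C i).π z c a * ∑ e, dz a (fun w => (A.C i).η w c e) z *
      (∑ b, star ((A.C i).π z b e) * dzb b (F i) z) = 0 :=
    bpt13_skew (Chart.π_skew hz) fun a c => by simp only [(A.C i).η_closed z hz c _ a]
  change -∑ a, ∑ c, (A.C i).π z c a * _ = _
  simp only [h3, Finset.sum_add_distrib, mul_add]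
  rw [h4, zero_add, ← Finset.sum_neg_distrib]
  refine Finset.sum_congr rfl fun a _ => ?_
  simp only [Chart.G, Matrix.mul_apply, Matrix.conjTranspose_apply, Finset.mul_sum,
    Finset.sum_mul, ← Finset.sum_neg_distrib]
  refine Finset.sum_comm.trans ((Finset.sum_congr rfl fun e _ => Finset.sum_comm).trans
    (Finset.sum_comm.trans ?_))
  exact Finset.sum_congr rfl fun b _ => Finset.sum_congr rfl fun e _ =>
    Finset.sum_congr rfl fun c _ => by
      rw [Chart.π_skew hz c a]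
      ring

omit [T2Space X] [MeasurableSpace X] [BorelSpace X] in
theorem lap_cont (hinj : ∀ i, InjOn (A.p i) (A.C i).W) {f : X → ℝ}
    (hf : ∀ i, ContDiffOn ℝ ∞ (fun z => f (A.p i z)) (A.C i).W) :
    ∃ u : X → ℂ, Continuous u ∧ ∀ i, ∀ z ∈ (A.C i).W,
      u (A.p i z) = ∑ a, ∑ b, (A.C i).G z a b * lev (fun w => f (A.p i w)) z a b := by
  obtain ⟨β, hβ, h⟩ := lap_form hf
  obtain ⟨u, h1, h2⟩ := div_exists hinj hβ
  exact ⟨fun x => -u x, h1.neg, fun i z hz => (congrArg Neg.neg (h2 i z hz)).trans (h i z hz).2⟩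

theorem lap_zero (hinj : ∀ i, InjOn (A.p i) (A.C i).W) (hμ : IsVolume A μ) {f : X → ℝ}
    (hf : ∀ i, ContDiffOn ℝ ∞ (fun z => f (A.p i z)) (A.C i).W) {C : Set X}
    (hC : IsCompact C) (h0 : ∀ x ∉ C, f x = 0) :
    ∃ u : X → ℂ, Integrable u μ ∧ ∫ x, u x ∂μ = 0 ∧ ∀ i, ∀ z ∈ (A.C i).W,
      u (A.p i z) = ∑ a, ∑ b, (A.C i).G z a b * lev (fun w => f (A.p i w)) z a b := by
  obtain ⟨β, hβ, h⟩ := lap_form hf
  obtain ⟨u, h1, h2⟩ := div_exists hinj hβ
  have h3 : ∀ i, ∀ z ∈ (A.C i).W, A.p i z ∉ C → β i z = 0 := fun i z hz hc =>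
    (h i z hz).1 (mem_of_superset ((A.cont i).continuousAt ((A.C i).isOpen.mem_nhds hz)
      (hC.isClosed.isOpen_compl.mem_nhds hc)) fun w hw => h0 _ hw)
  obtain ⟨h4, h5⟩ := div_zero hinj hμ hβ hC h3 h2
  exact ⟨fun x => -u x, h4.neg, by rw [integral_neg, h5, neg_zero],
    fun i z hz => (congrArg Neg.neg (h2 i z hz)).trans (h i z hz).2⟩

theorem piola_dv (C : Chart N) {β : E N → E N} (hβ : ContDiffOn ℝ ∞ β C.W) {z : E N}
    (hz : z ∈ C.W) : (‖(C.σ z).det‖ : ℝ) * ∑ a, ∑ b, (C.σ z)⁻¹ b a * dz a (fun w => β w b) z =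
      dv (fun w a => ∑ b, (C.σ w)⁻¹ b a * (‖(C.σ w).det‖ : ℝ) * β w b) z := by
  have d1 := fun a b => diffAt C.isOpen ((C.reg_π b a).mul (bpt13_nrm C)) hz
  have d2 := fun b => diffAt C.isOpen (contDiffOn_pi.1 hβ b) hz
  have h1 : ∑ a, ∑ b, dz a (fun w => (C.σ w)⁻¹ b a * (‖(C.σ w).det‖ : ℝ)) z * β z b = 0 := by
    rw [Finset.sum_comm]
    simp only [← Finset.sum_mul, div_pi C hz, zero_mul, Finset.sum_const_zero]
  simp only [Chart.π] at d1
  simp only [dv, fun a => (dz_sum Finset.univ (fun b _ => (d1 a b).fun_mul (d2 b)) a).1,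
    fun a b => (dz_mul (d1 a b) (d2 b) a).1, Finset.sum_add_distrib, h1, zero_add, Finset.mul_sum]
  exact Finset.sum_congr rfl fun a _ => Finset.sum_congr rfl fun b _ => by ring

/-- A vector density with compact support in `Ω`. -/
theorem dens_zero (hinj : ∀ i, InjOn (A.p i) (A.C i).W) (hμ : IsVolume A μ) {Ω C : Set X}
    (hΩ : IsOpen Ω) (hC : IsCompact C) (hs : C ⊆ Ω) {V : A.ι → E N → E N}
    (hV : ∀ i, ContDiffOn ℝ ∞ (V i) (dom A Ω i))
    (hc : ∀ i j O φ, IsChange (A.C i) (A.C j) O φ → (∀ w ∈ O, A.p j (φ w) = A.p i w) →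
      ∀ z ∈ O, A.p i z ∈ Ω → ((‖(jac φ z).det‖ ^ 2 : ℝ) : ℂ) • V j (φ z) = jac φ z *ᵥ V i z)
    (h0 : ∀ i, ∀ z ∈ dom A Ω i, A.p i z ∉ C → V i z = 0) {u : X → ℂ}
    (hu : ∀ i, ∀ z ∈ dom A Ω i, (‖((A.C i).σ z).det‖ : ℝ) * u (A.p i z) = dv (V i) z) :
    ∫ x in Ω, u x ∂μ = 0 := by
  classical
  let β : A.ι → E N → E N := fun i z => if A.p i z ∈ Ω then
    ((‖((A.C i).σ z).det‖ : ℝ) : ℂ)⁻¹ • (V i z ᵥ* (A.C i).σ z) else 0
  have ho : ∀ i, IsOpen (dom A Ω i) := fun i =>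
    (A.cont i).isOpen_inter_preimage (A.C i).isOpen hΩ
  have hd : ∀ i, ∀ z ∈ (A.C i).W, ((‖((A.C i).σ z).det‖ : ℝ) : ℂ) ≠ 0 := fun i z hz =>
    Complex.ofReal_ne_zero.2 (norm_ne_zero_iff.2 ((A.C i).σ_det z hz))
  have h1 : ∀ i, ∀ z ∈ (A.C i).W, A.p i z ∉ C → β i z = 0 := fun i z hz h => by
    simp only [β]
    split_ifs with h'
    · rw [h0 i z ⟨hz, h'⟩ h, Matrix.zero_vecMul, smul_zero]
    · rfl
  have hβ : Is10 A β := by
    refine ⟨fun i z hz => ContDiffAt.contDiffWithinAt ?_, fun i j O φ a1 a2 z hz => ?_⟩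
    · have hn := (A.C i).isOpen.mem_nhds hz
      by_cases h : A.p i z ∈ Ω
      · have h2 := (ho i).mem_nhds ⟨hz, h⟩
        refine ContDiffAt.congr_of_eventuallyEq (f := fun z =>
          ((‖((A.C i).σ z).det‖ : ℝ) : ℂ)⁻¹ • (V i z ᵥ* (A.C i).σ z)) ?_
          (mem_of_superset h2 fun w hw => if_pos hw.2)
        refine (((bpt13_nrm _).contDiffAt hn).inv (hd i z hz)).smul (contDiffAt_pi.2 fun b => ?_)
        exact ContDiffAt.sum (s := Finset.univ) fun a _ =>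
          (contDiffAt_pi.1 ((hV i).contDiffAt h2) a).mul ((bpt13_σ _ a b).contDiffAt hn)
      · refine (contDiffAt_const (c := 0)).congr_of_eventuallyEq ?_
        filter_upwards [hn, (A.cont i).continuousAt hn
          (hC.isClosed.isOpen_compl.mem_nhds fun a => h (hs a))] with w a b using h1 i w a b
    · simp only [β, a2 z hz]
      split_ifs with h
      · have h2 : ((‖((A.C i).σ z).det‖ : ℝ) : ℂ) =
            (‖(jac φ z).det‖ ^ 2 : ℝ) * (‖((A.C j).σ (φ z)).det‖ : ℝ) := by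
          rw [a1.σ_eq z hz, Matrix.det_mul, Matrix.det_mul, Matrix.det_transpose, norm_mul,
            norm_mul]
          push_cast
          ring
        have h3 := hd i z (a1.sub hz)
        rw [h2] at h3
        rw [h2, a1.σ_eq z hz, ← Matrix.vecMul_vecMul, ← Matrix.vecMul_vecMul,
          Matrix.vecMul_transpose, ← hc i j O φ a1 a2 z hz h, Matrix.smul_vecMul,
          Matrix.smul_vecMul, Matrix.smul_vecMul, smul_smul, mul_inv_rev,
          inv_mul_cancel_right₀ (left_ne_zero_of_mul h3)]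
      · rw [Matrix.zero_vecMul]
  obtain ⟨v, -, h2⟩ := div_exists hinj hβ
  rw [← (div_zero hinj hμ hβ hC h1 h2).2, ← setIntegral_eq_integral_of_forall_compl_eq_zero
    (s := Ω) fun x hx => div_out hC.isClosed h1 h2 fun a => hx (hs a)]
  refine setIntegral_congr_fun hΩ.measurableSet fun x hx => ?_
  obtain ⟨i, z, hz, rfl⟩ := A.cover x
  refine mul_left_cancel₀ (hd i z hz) ?_
  rw [hu i z ⟨hz, hx⟩, h2 i z hz, piola_dv _ (hβ.1 i) hz]
  refine Finset.sum_congr rfl fun a _ => (dz_congr ?_ a).self_of_nhds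
  filter_upwards [(ho i).mem_nhds ⟨hz, hx⟩] with w hw
  have h3 : V i w = (V i w ᵥ* (A.C i).σ w) ᵥ* ((A.C i).σ w)⁻¹ := by
    rw [Matrix.vecMul_vecMul, Matrix.mul_nonsing_inv _ ((A.C i).σ_det w hw.1).isUnit,
      Matrix.vecMul_one]
  rw [congrFun h3 a]
  change ∑ b, (V i w ᵥ* (A.C i).σ w) b * ((A.C i).σ w)⁻¹ b a = _
  refine Finset.sum_congr rfl fun b _ => ?_
  simp only [β, if_pos (show A.p i w ∈ Ω from hw.2), Pi.smul_apply, smul_eq_mul]
  rw [mul_assoc, mul_inv_cancel_left₀ (hd i w hw.1), mul_comm]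

end Pool.Agent.ZB
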