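import Pool.Agent.K.MP_63735c_ag.C230

-- part Pool.Agent.P.MP_63735c_ag.BF4
section

/-! Products that vanish along the null space. -/

open scoped ComplexOrder ContDiff Matrix Topology
open Set Metric MeasureTheory Filter

namespace Pool.Agent.BF

open Pool.Agent.SPF Pool.Agent.AB Pool.Agent.HX Pool.Agent.CK Pool.Agent.HS
open Pool.Agent.CL (Form1 Form2 Closed2 IsPrim)

variable {N n : ℕ}

theorem bf4_proj (U : Submodule ℂ (E N)) : ∃ P Q : E N →L[ℝ] E N, (∀ v, P v ∈ U) ∧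
    (∀ v, P v + Q v = v) ∧ ∀ t : ℝ, (Q + t • P).det = t ^ (2 * Module.finrank ℂ U) := by
  obtain ⟨W, h⟩ := U.exists_isCompl
  refine ⟨LinearMap.toContinuousLinearMap ((U.projection W h).restrictScalars ℝ),
    LinearMap.toContinuousLinearMap ((W.projection U h.symm).restrictScalars ℝ),
    Submodule.projection_apply_mem h, Submodule.projection_add_projection_eq_self h, fun t => ?_⟩
  have h1 := LinearMap.det_conj (LinearMap.prodMap ((t : ℂ) • LinearMap.id) LinearMap.id)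
    (U.prodEquivOfIsCompl W h)
  rw [LinearMap.det_prodMap, LinearMap.det_smul, LinearMap.det_id, LinearMap.det_id, mul_one,
    mul_one] at h1
  have h2 := Algebra.norm_algebraMap (S := ℂ) (t ^ Module.finrank ℂ U)
  rw [map_pow, Complex.coe_algebraMap, ← h1, ← LinearMap.det_restrictScalars,
    Complex.finrank_real_complex, ← pow_mul, mul_comm] at h2
  rw [← h2, ContinuousLinearMap.det]
  congr 1
  refine LinearMap.ext fun v => ?_
  simp [add_comm]

theorem bf4_pow {a b : ℕ} (h : a ≤ b) (x : Ext N) :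
    (fun t : ℝ => (t : ℂ) ^ a • x) =O[atTop] fun t : ℝ => t ^ b := by
  refine .trans (g := fun t : ℝ => t ^ a) (.of_bound ‖x‖ (.of_forall fun t => ?_)) ?_
  · simp [norm_smul, mul_comm]
  · rcases h.eq_or_lt with rfl | h
    · exact Asymptotics.isBigO_refl _ _
    · exact (Asymptotics.isLittleO_pow_pow_atTop_of_lt h).isBigO

theorem bf4_f2 (P Q : E N →L[ℝ] E N) (B : Bil N) {m : ℕ}
    (h : m = 2 ∨ m = 1 ∧ B.bilinearComp P P = 0) :
    (fun t : ℝ => pull (Q + t • P) (f2 B)) =O[atTop] fun t : ℝ => t ^ m := by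
  have h1 : ∀ t : ℝ, pull (Q + t • P) (f2 B) = (t : ℂ) ^ 0 • f2 (B.bilinearComp Q Q) +
      (t : ℂ) ^ 1 • f2 (B.bilinearComp P Q + B.bilinearComp Q P) +
      (t : ℂ) ^ 2 • f2 (B.bilinearComp P P) := fun t => by
    simp only [← Complex.ofReal_pow, ← f2_smul, ← f2_add, pull_f2]
    congr 1
    refine ContinuousLinearMap.ext fun u => ContinuousLinearMap.ext fun v => ?_
    simp
    ring
  simp only [h1]
  rcases h with rfl | ⟨rfl, h⟩
  · exact ((bf4_pow (by simp) _).add (bf4_pow (by simp) _)).add (bf4_pow le_rfl _)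
  · simp only [h, f2_zero, smul_zero, add_zero]
    exact (bf4_pow (by simp) _).add (bf4_pow le_rfl _)

theorem bf4_list (P Q : E N →L[ℝ] E N) (L : List (Bil N)) :
    (fun t : ℝ => pull (Q + t • P) (L.map f2).prod) =O[atTop] fun t : ℝ => t ^ (2 * L.length) := by
  induction L with
  | nil => simpa using bf4_pow le_rfl (1 : Ext N) (a := 0)
  | cons B L h =>
    simp only [List.map_cons, List.prod_cons, map_mul, List.length_cons, mul_add, pow_add,
      mul_comm (_ ^ (2 * L.length))]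
    exact (bf4_f2 P Q B (.inl rfl)).mul h

theorem bf4_key {η : Mat N} (hη : η.IsHermitian) {U : Submodule ℂ (E N)}
    (hU : ∀ u ∈ U, u ᵥ* η = 0) (j : ℕ) {y : Ext N} {m : ℕ} (hm : m < 2 * Module.finrank ℂ U)
    (hy : ∀ P Q : E N →L[ℝ] E N, (∀ v, P v ∈ U) →
      (fun t : ℝ => pull (Q + t • P) y) =O[atTop] fun t : ℝ => t ^ m) :
    T (form11 η ^ j * y) = 0 := by
  obtain ⟨P, Q, h1, h2, h3⟩ := bf4_proj U
  have h4 : ∀ u v, e11 η (P u) v = 0 := fun u v => by
    simp [ev11, Matrix.dotProduct_mulVec, hU _ (h1 u)]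
  have h5 : ∀ u v, e11 η v (P u) = 0 := fun u v => by
    have := congrArg star (hU _ (h1 u))
    rw [Matrix.star_vecMul, hη.eq, star_zero] at this
    simp [ev11, this]
  have h6 : ∀ t : ℝ, pull (Q + t • P) (form11 η) = form11 η := fun t => by
    rw [← f2_e11 hη, pull_f2]
    congr 1
    refine ContinuousLinearMap.ext fun u => ContinuousLinearMap.ext fun v => ?_
    conv_rhs => rw [← h2 u, ← h2 v]
    simp only [ContinuousLinearMap.bilinearComp_apply, add_apply, smul_apply, map_add, map_smul,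
      h4, h5, smul_zero, add_zero, zero_add]
  have h7 := (((TL N).isBigO_comp _ _).trans ((hy P Q h1).const_mul_left
    (form11 η ^ j))).trans_isLittleO (Asymptotics.isLittleO_pow_pow_atTop_of_lt hm)
  by_contra h0
  refine Asymptotics.isLittleO_irrefl' (f' := fun t : ℝ => t ^ (2 * Module.finrank ℂ U))
    ((eventually_gt_atTop 0).mono fun t ht => by simp [ht.ne']).frequently
    (Asymptotics.IsBigO.trans_isLittleO (.of_bound ‖T (form11 η ^ j * y)‖⁻¹
      (.of_forall fun t => ?_)) h7)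
  have h8 := T_pull (Q + t • P) (form11 η ^ j * y)
  rw [map_mul, map_pow, h6, h3] at h8
  rw [show TL N _ = _ from h8, norm_mul, Complex.norm_real, mul_comm ‖_ ^ _‖,
    inv_mul_cancel_left₀ (norm_ne_zero_iff.2 h0)]

theorem T_null {η : Mat N} (hη : η.IsHermitian) {U : Submodule ℂ (E N)}
    (hU : ∀ u ∈ U, u ᵥ* η = 0) (j : ℕ) (L : List (Bil N)) (h : L.length < Module.finrank ℂ U) :
    T (form11 η ^ j * (L.map f2).prod) = 0 :=
  bf4_key hη hU j (m := 2 * L.length) (by omega) fun P Q _ => bf4_list P Q L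

theorem T_null' {η : Mat N} (hη : η.IsHermitian) {U : Submodule ℂ (E N)}
    (hU : ∀ u ∈ U, u ᵥ* η = 0) (j : ℕ) {p : Bil N} (hp : ∀ u ∈ U, ∀ v ∈ U, p u v = 0)
    (L : List (Bil N)) (h : L.length < Module.finrank ℂ U) :
    T (form11 η ^ j * (f2 p * (L.map f2).prod)) = 0 :=
  bf4_key hη hU j (m := 1 + 2 * L.length) (by omega) fun P Q h => by
    simp only [map_mul, pow_add]
    exact (bf4_f2 P Q p (.inr ⟨rfl, ContinuousLinearMap.ext fun u =>
      ContinuousLinearMap.ext fun v => hp _ (h u) _ (h v)⟩)).mul (bf4_list P Q L)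

theorem null_alt {η s : Mat (2 * n)} (hs : sᵀ = -s) (hd : s.det ≠ 0) (hi : ηᵀ * s⁻¹ * η = 0) :
    ∃ U : Submodule ℂ (E (2 * n)), (∀ u ∈ U, u ᵥ* η = 0) ∧ (n < Module.finrank ℂ U ∨
      Module.finrank ℂ U = n ∧ ∀ u ∈ U, ∀ v ∈ U, u ⬝ᵥ s *ᵥ v = 0) := by
  have h2 : LinearMap.range (s⁻¹ * η).mulVecLin ≤ LinearMap.ker ηᵀ.mulVecLin := by
    rintro _ ⟨v, rfl⟩
    rw [LinearMap.mem_ker, Matrix.mulVecLin_apply, Matrix.mulVecLin_apply, Matrix.mulVec_mulVec,
      ← Matrix.mul_assoc, hi, Matrix.zero_mulVec]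
  have h3 := LinearMap.finrank_range_add_finrank_ker ηᵀ.mulVecLin
  have h4 : Module.finrank ℂ (LinearMap.range ηᵀ.mulVecLin) =
      Module.finrank ℂ (LinearMap.range (s⁻¹ * η).mulVecLin) := η.rank_transpose.trans
    (Matrix.rank_mul_eq_right_of_isUnit_det _ _ (s.isUnit_nonsing_inv_det hd.isUnit)).symm
  have h5 : ∀ a b : ℕ, a + b = 2 * n → a ≤ b → b ≤ n → b = n ∧ b ≤ a := by omega
  rw [Module.finrank_fin_fun, h4] at h3
  refine ⟨LinearMap.ker ηᵀ.mulVecLin, fun u h => (Matrix.mulVec_transpose η u).symm.trans h, ?_⟩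
  refine (lt_or_ge n _).imp_right fun h => ?_
  have h8 := h5 _ _ h3 (Submodule.finrank_mono h2) h
  refine ⟨h8.1, fun u h6 v h7 => ?_⟩
  rw [← Submodule.eq_of_le_of_finrank_le h2 h8.2] at h7
  obtain ⟨w, rfl⟩ := h7
  rw [Matrix.mulVecLin_apply, Matrix.mulVec_mulVec, Matrix.mul_nonsing_inv_cancel_left _ _ hd.isUnit,
    Matrix.dotProduct_mulVec, ← Matrix.mulVec_transpose, show ηᵀ *ᵥ u = 0 from h6, zero_dotProduct]

theorem iso_null {η s : Mat (2 * n)} (hη : η.IsHermitian) (hs : sᵀ = -s) (hd : s.det ≠ 0)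
    (hi : ηᵀ * s⁻¹ * η = 0) (j : ℕ) (L : List (Bil (2 * n))) (h : L.length < n) :
    T (form11 η ^ j * (L.map f2).prod) = 0 ∧
      ∀ c, T (form11 η ^ j * (f2 (s20 c s) * (L.map f2).prod)) = 0 := by
  obtain ⟨U, h1, h2 | ⟨h2, h3⟩⟩ := null_alt hs hd hi
  · exact ⟨T_null hη h1 j L (h.trans h2), fun c => T_null hη h1 j (s20 c s :: L)
      (lt_of_le_of_lt h h2)⟩
  · exact ⟨T_null hη h1 j L (h2.symm ▸ h), fun c => T_null' hη h1 j
      (fun u hu v hv => by rw [s20_apply, h3 u hu v hv, mul_zero, Complex.zero_re]) L (h2.symm ▸ h)⟩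

end Pool.Agent.BF
end

-- part Pool.Agent.P.MP_63735c_ag.BF5
section

/-! Universal constants. -/

open scoped ComplexOrder ContDiff Matrix Topology
open Set Metric MeasureTheory Filter

namespace Pool.Agent.BF

open Pool.Agent.SPF Pool.Agent.AB Pool.Agent.HX Pool.Agent.CK Pool.Agent.HS
open Pool.Agent.CL (Form1 Form2 Closed2 IsPrim)

variable {N n : ℕ}

/-- The top coefficient of the power of the standard form. -/
noncomputable def kap (N : ℕ) : ℂ := T (form11 (1 : Mat N) ^ N)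

theorem T_pow (h : Mat N) : T (form11 h ^ N) = kap N * h.det := by
  rw [form11_pow, map_smul, smul_eq_mul, mul_comm, kap]

theorem bf5_key (n : ℕ) : ∃ a z : ℂ, z ≠ 0 ∧ a * kap (2 * n) ≠ 0 ∧ ∀ s : Mat (2 * n), sᵀ = -s →
    ∃ p : ℂ, T (form20 s ^ n * form02 s ^ n) = p * star p * z ∧
      T (form20 s ^ n * form02 (s.map star) ^ n) = p * p * z ∧
      p * p * z = a * kap (2 * n) * s.det := by
  obtain ⟨Z, hZ, hp⟩ := exists_pf (N := 2 * n) rfl
  set M := Matrix.fromBlocks (1 : Mat (2 * n)) (1 : Mat (2 * n)) (1 : Mat (2 * n)) (-1)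
  set c : ℂ := ((2 * n).choose n : ℕ) * (2 * Complex.I * -(2 * Complex.I)) ^ n with hc
  have c0 : c ≠ 0 := mul_ne_zero (Nat.cast_ne_zero.2 (Nat.choose_pos (by omega)).ne')
    (pow_ne_zero _ (by simp))
  have k : ∀ s : Mat (2 * n), sᵀ = -s → ∀ p : ℂ,
      form20 s ^ n * form02 (s.map star) ^ n = (p * p) • Z →
      p * p * T Z = M.det / c * kap (2 * n) * s.det := fun s hs p h => by
    have q := congrArg T (mixed_pow (h := s) (s := s) (t := s.map star) (j := 0) (m := n)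
      (by omega) (2 * Complex.I) (-(2 * Complex.I)))
    rw [← hc, pow_zero, one_mul, one_mul, ← ph_skew hs, ← map_pow, T_ph, T_pow, h, map_smul,
      map_smul, smul_eq_mul, smul_eq_mul] at q
    field_simp
    linear_combination -q
  let e : Fin (2 * n) ≃ Fin n ⊕ Fin n := (finCongr (two_mul n)).trans finSumFinEquiv.symm
  have j1 : ((Matrix.J (Fin n) ℂ).submatrix e e)ᵀ = -(Matrix.J (Fin n) ℂ).submatrix e e := by
    rw [Matrix.transpose_submatrix, Matrix.J_transpose]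
    rfl
  obtain ⟨p, p1, p2⟩ := hp ((Matrix.J (Fin n) ℂ).submatrix e e)
  have t := top_ne_zero rfl j1
    (by rw [Matrix.det_submatrix_equiv_self]; exact (Matrix.isUnit_det_J _ _).ne_zero)
  rw [p1] at t
  have p0 := left_ne_zero_of_mul (left_ne_zero_of_smul t)
  have z0 : T Z ≠ 0 := by
    obtain ⟨z, rfl⟩ := top_mem (bas _) hZ
    rw [map_smul, T_top, smul_eq_mul, mul_one]
    exact left_ne_zero_of_smul (right_ne_zero_of_smul t)
  refine ⟨M.det / c, T Z, z0, left_ne_zero_of_mul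
    (k _ j1 p p2 ▸ mul_ne_zero (mul_ne_zero p0 p0) z0), fun s hs => ?_⟩
  obtain ⟨q, q1, q2⟩ := hp s
  exact ⟨q, by rw [q1, map_smul, smul_eq_mul], by rw [q2, map_smul, smul_eq_mul], k s hs q q2⟩

theorem kap_ne (n : ℕ) : kap (2 * n) ≠ 0 := by
  obtain ⟨a, -, -, h, -⟩ := bf5_key n
  exact right_ne_zero_of_mul h

theorem bf5_ph (A s : Mat N) : ph (Matrix.fromBlocks A 0 0 1) (form20 s) = form20 (Aᵀ * s * A) ∧
    ph (Matrix.fromBlocks A 0 0 1) (form02 s) = form02 s := by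
  have hb := ph_blocks (N := N) A 0 0 1
  have h1 : ∀ a, ph (Matrix.fromBlocks A 0 0 1) (xz a) = ∑ b, A a b • xz (N := N) b :=
    fun a => by simpa using (hb a).1
  have h2 : ∀ a, ph (Matrix.fromBlocks A 0 0 1) (xb a) = xb (N := N) a :=
    fun a => by simpa [Matrix.one_apply] using (hb a).2
  refine ⟨?_, by simp only [form02, map_smul, map_sum, map_mul, h2]⟩
  simp only [form20, map_smul, map_sum, map_mul, h1, Finset.sum_mul_sum, smul_mul_smul_comm,
    Matrix.mul_apply, Matrix.transpose_apply]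
  simp only [Finset.sum_mul, Finset.sum_smul, Finset.smul_sum, smul_smul, ← Fintype.sum_prod_type']
  refine Fintype.sum_equiv ⟨fun x => (x.2.2.1, x.2.2.2, x.2.1, x.1),
    fun x => (x.2.2.2, x.2.2.1, x.1, x.2.1), fun _ => rfl, fun _ => rfl⟩ _ _ fun x => ?_
  congr 1
  simp only [Equiv.coe_fn_mk]
  ring

theorem exists_c3 (n : ℕ) : ∃ C : ℂ, C ≠ 0 ∧ ∀ s h : Mat (2 * n), sᵀ = -s → s.det ≠ 0 →
    T (form20 (h * s⁻¹.map star * hᵀ) ^ n * form02 s ^ n) = C * h.det := by
  obtain ⟨a, z, -, h0, k⟩ := bf5_key n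
  refine ⟨(-1) ^ n * (a * kap (2 * n)), mul_ne_zero (by simp) h0, fun s h hs hd => ?_⟩
  have u := ext1_skew hs
  have v := ext1_star_inv hd
  obtain ⟨p, -, p2, p3⟩ := k _ u
  rw [show (s.map star).map star = s by ext; simp, p3] at p2
  have e : h * s⁻¹.map star * hᵀ =
      (-1 : ℂ) • (((h * s⁻¹.map star)ᵀ)ᵀ * s.map star * (h * s⁻¹.map star)ᵀ) := by
    rw [← neg_neg (s.map star), ← u, Matrix.mul_neg, Matrix.neg_mul, neg_one_smul, neg_neg,
      Matrix.transpose_transpose, Matrix.mul_assoc _ (s.map star)ᵀ, ← Matrix.transpose_mul,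
      Matrix.mul_assoc h _ (s.map star), v, Matrix.mul_one]
  have d := congrArg Matrix.det v
  rw [Matrix.det_mul, Matrix.det_one] at d
  rw [e, form20_smul, smul_pow, smul_mul_assoc, map_smul, ← (bf5_ph _ _).1,
    ← (bf5_ph (h * s⁻¹.map star)ᵀ s).2, ← map_pow, ← map_pow, ← map_mul, T_ph, p2,
    Matrix.det_fromBlocks_zero₂₁, Matrix.det_transpose, Matrix.det_mul, Matrix.det_one,
    smul_eq_mul]
  linear_combination (-1) ^ n * (a * kap (2 * n)) * h.det * d

theorem exists_c5 (n : ℕ) : ∃ C : ℂ, C ≠ 0 ∧ ∀ s : Mat (2 * n), sᵀ = -s →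
    T (form20 s ^ n * form02 s ^ n) = C * (‖s.det‖ : ℝ) := by
  obtain ⟨a, z, z0, h0, k⟩ := bf5_key n
  refine ⟨z * (‖a * kap (2 * n) / z‖ : ℝ), mul_ne_zero z0
    (Complex.ofReal_ne_zero.2 (norm_ne_zero_iff.2 (div_ne_zero h0 z0))), fun s hs => ?_⟩
  obtain ⟨p, p1, -, p3⟩ := k s hs
  rw [p1, mul_assoc z, ← Complex.ofReal_mul, ← norm_mul, div_mul_eq_mul_div, ← p3,
    mul_div_cancel_right₀ _ z0, norm_mul, Complex.star_def, Complex.mul_conj', Complex.ofReal_mul,
    sq, mul_comm]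

theorem type_pow (g m s : Mat (2 * n)) :
    (form20 g + form11 m) ^ n * form02 s ^ n = form20 g ^ n * form02 s ^ n := by
  rw [add_comm, (two_comm (deg11 m) _).add_pow, Finset.sum_mul, Finset.sum_eq_single 0]
  · simp
  · intro k hk h0
    have := Finset.mem_range.1 hk
    rw [mul_assoc, Nat.cast_comm, ← mul_assoc, type_zero (by omega) (by omega), zero_mul]
  · simp

theorem type_dir (hn : 1 ≤ n) (c : ℂ) (s : Mat (2 * n)) {a : Mat (2 * n)} (ha : a.IsHermitian) :
    f2 (s20 c s + e11 a) * (form20 s ^ (n - 1) * form02 s ^ n) =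
      (c / 2) • (form20 s ^ n * form02 s ^ n) := by
  have h1 := type_zero (h := a) (s := s) (t := s) (j := 1) (k := n - 1) (l := n) (by omega) (by omega)
  have h2 := type_zero (h := a) (s := s) (t := s) (j := 0) (k := n - 1) (l := n + 1) (by omega)
    (by omega)
  rw [pow_one, mul_assoc] at h1
  rw [pow_zero, one_mul, pow_succ, ← mul_assoc, ← (two_comm (deg02 s) _).eq] at h2
  rw [f2_add, f2_s20, f2_e11 ha, add_mul, add_mul, h1, smul_mul_assoc, smul_mul_assoc, h2,
    smul_zero, add_zero, add_zero, ← mul_assoc, ← pow_succ', Nat.sub_add_cancel hn]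

end Pool.Agent.BF
end
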