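import Pool.Agent.K.MP_63735c_ag.C229
import Pool.Agent.K.MP_63735c_ag.C31
import Pool.Agent.K.MP_63735c_ag.C56
import Pool.Agent.K.MP_63735c_ag.C50

/-! Types of real 2-forms. -/

open scoped ComplexOrder ContDiff Matrix Topology
open Set Metric MeasureTheory Filter

namespace Pool.Agent.BF

open Pool.Agent.SPF Pool.Agent.AB Pool.Agent.HX Pool.Agent.CK Pool.Agent.HS
open Pool.Agent.CL (Form1 Form2 Closed2 IsPrim)

variable {N : ℕ}

theorem bf6_ext {F : Type} [NormedAddCommGroup F] [NormedSpace ℝ F] {f g : E N →L[ℝ] F}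
    (h : ∀ k, f (rb k) = g (rb k)) : f = g := by
  ext u
  have e : u = ∑ a, ((u a).re • rb (.inl a) + (u a).im • rb (.inr a)) := by
    ext b
    simp [rb, Finset.sum_apply, Pi.single_apply, Finset.sum_add_distrib]
  rw [e]
  simp only [map_sum, map_add, map_smul, h]

theorem bf6_dot (s : Mat N) (a b : Fin N) (x y : ℂ) :
    Pi.single a x ⬝ᵥ s *ᵥ Pi.single b y = x * s a b * y := by
  simp [mul_comm]

theorem split (B : Bil N) : B = s20 1 (p20 B) + e11 (p11 B) := by
  refine bf6_ext fun k => bf6_ext fun l => ?_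
  rcases k with a | a <;> rcases l with b | b <;>
    simp [rb, ev11, p20, p11] <;> ring

theorem p20_skew {B : Bil N} (h : ∀ u v, B u v = -B v u) : (p20 B)ᵀ = -p20 B := by
  ext a b
  simp only [p20, Matrix.transpose_apply, Matrix.neg_apply, Matrix.of_apply, h (Pi.single b _)]
  push_cast
  ring

theorem p11_herm {B : Bil N} (h : ∀ u v, B u v = -B v u) : (p11 B).IsHermitian := by
  ext a b
  simp only [p11, Matrix.conjTranspose_apply, Matrix.of_apply, h (Pi.single b _)]
  apply Complex.ext <;> simp <;> ring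

theorem p20_sub (B C : Bil N) : p20 (B - C) = p20 B - p20 C := by
  ext a b
  simp only [p20, Matrix.sub_apply, Matrix.of_apply, sub_apply]
  push_cast
  ring

theorem p20_s20 (c : ℂ) (s : Mat N) : p20 (s20 c s) = c • s := by
  ext a b
  simp only [p20, Matrix.of_apply, s20_apply, bf6_dot]
  apply Complex.ext <;> simp <;> ring

theorem s20_smul (c e : ℂ) (s : Mat N) : s20 c (e • s) = s20 (c * e) s := by
  ext u v
  simp only [s20_apply, Matrix.smul_mulVec, dotProduct_smul, smul_eq_mul, mul_assoc]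

theorem p20_dd {β : E N → E N} {z : E N} (h : DifferentiableAt ℝ β z) (c : ℂ) :
    p20 (dd (r10 c β) z) = c • del β z := by
  have e : fderiv ℝ (r10 c β) z = (CL.rdot c).comp (fderiv ℝ β z) :=
    ((CL.rdot c).hasFDerivAt.comp z h.hasFDerivAt).fderiv
  have f : ∀ a, fderiv ℝ (fun w => β w a) z = (ContinuousLinearMap.proj a).comp (fderiv ℝ β z) :=
    fun a => fderiv_apply h a
  ext a b
  simp only [p20, dd, del, dz, e, f, Matrix.of_apply, Matrix.smul_apply, sub_apply,
    ContinuousLinearMap.flip_apply, ContinuousLinearMap.comp_apply, CL.rdot_apply,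
    dotProduct_single, ContinuousLinearMap.proj_apply]
  apply Complex.ext <;> simp <;> ring

theorem dd_closed {O : Set (E N)} (hO : IsOpen O) {α : Form1 (E N)} (h : ContDiffOn ℝ ∞ α O) :
    Closed2 O (dd α) := by
  have h1 : ContDiffOn ℝ ∞ (fderiv ℝ α) O := h.fderiv_of_isOpen hO (by simp)
  let L : Bil N →L[ℝ] Bil N := ContinuousLinearMap.id ℝ _ -
    (ContinuousLinearMap.flipₗᵢ ℝ (E N) (E N) ℝ).toContinuousLinearEquiv.toContinuousLinearMap
  have e : dd α = L ∘ fderiv ℝ α := rfl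
  have c : ContDiff ℝ ∞ L := ContinuousLinearMap.contDiff (𝕜 := ℝ) (E := Bil N) (F := Bil N) L
  refine ⟨e ▸ c.comp_contDiffOn h1, fun x _ u v => by simp [dd], fun x hx u v w => ?_⟩
  have n := hO.mem_nhds hx
  have s := (h.contDiffAt n).isSymmSndFDerivAt (by
    rw [minSmoothness_of_isRCLikeNormedField]; exact WithTop.coe_le_coe.2 (le_top : (2 : ℕ∞) ≤ ⊤))
  rw [e, (HasFDerivAt.comp (𝕜 := ℝ) (F := Bil N) (G := Bil N) x
    (ContinuousLinearMap.hasFDerivAt (𝕜 := ℝ) (E := Bil N) (F := Bil N) L)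
    ((h1.contDiffAt n).differentiableAt (by simp)).hasFDerivAt).fderiv]
  have a : ∀ u v w, L.comp (fderiv ℝ (fderiv ℝ α) x) u v w =
      fderiv ℝ (fderiv ℝ α) x u v w - fderiv ℝ (fderiv ℝ α) x u w v := fun _ _ _ => rfl
  rw [a, a, a, s u v, s u w, s v w]
  ring

end Pool.Agent.BF
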