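import Pool.Agent.K.MP_63735c_ag.C237

/-! Global forms of pure type. -/

open scoped ComplexOrder ContDiff Matrix Topology
open Set Metric MeasureTheory Filter

namespace Pool.Agent.BF

open Pool.Agent.SPF Pool.Agent.AB Pool.Agent.HX Pool.Agent.CK Pool.Agent.HS
open Pool.Agent.CL (Form1 Form2 Closed2 IsPrim)

variable {N : ℕ}

variable {Y : Type} [TopologicalSpace Y] {D : Man Y N}

theorem bf6b_j {i j : D.ι} {z : E N} {φ : E N → E N} (h : D.Ch i j z φ) (u : E N) :
    fderiv ℝ φ z u = jac φ z *ᵥ u := by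
  rw [dc_real h.self_of_nhds.1, NL.jac_mulVec]

theorem bf6b_der (f : Bil N →ₗ[ℝ] ℂ) {β : Form2 (E N)} {z : E N} (h : DifferentiableAt ℝ β z)
    (u : E N) : fderiv ℝ (fun w => f (β w)) z u = f (fderiv ℝ β z u) :=
  congrArg (· u) (HasFDerivAt.comp (𝕜 := ℝ) (F := Bil N) (G := ℂ) (f := β) z
    (ContinuousLinearMap.hasFDerivAt (𝕜 := ℝ) (E := Bil N) (F := ℂ)
      (LinearMap.toContinuousLinearMap f)) h.hasFDerivAt).fderiv

theorem bf6b_sm (f : Bil N →ₗ[ℝ] ℂ) {β : Form2 (E N)} {W : Set (E N)} (h : ContDiffOn ℝ ∞ β W) :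
    ContDiffOn ℝ ∞ (fun w => f (β w)) W :=
  (ContinuousLinearMap.contDiff (𝕜 := ℝ) (E := Bil N) (F := ℂ)
    (LinearMap.toContinuousLinearMap f)).comp_contDiffOn (f := β) h |>.congr fun _ _ => rfl

theorem bf6b_zero (f : Bil N →ₗ[ℝ] ℂ) {β : Form2 (E N)} {W : Set (E N)} (hW : IsOpen W)
    (h : ContDiffOn ℝ ∞ β W) (h0 : ∀ z ∈ W, f (β z) = 0) {z : E N} (hz : z ∈ W) (u : E N) :
    f (fderiv ℝ β z u) = 0 := by
  rw [← bf6b_der f (diffAt hW h hz), EventuallyEq.fderiv_eq (f := fun _ => 0)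
    (eventually_of_mem (hW.mem_nhds hz) h0)]
  simp

/-- An entry of `p20`. -/
noncomputable def bf6b_p (a b : Fin N) : Bil N →ₗ[ℝ] ℂ :=
  ⟨⟨fun B => p20 B a b, fun B C => by simp [p20]; ring⟩, fun r B => by simp [p20]; ring⟩

/-- An entry of `p11`. -/
noncomputable def bf6b_q (a b : Fin N) : Bil N →ₗ[ℝ] ℂ :=
  ⟨⟨fun B => p11 B a b, fun B C => by simp [p11]; ring⟩, fun r B => by simp [p11]; ring⟩

theorem bf6b_pq (s h : Mat N) : p20 (s20 1 s + e11 h) = s ∧ p11 (s20 1 s + e11 h) = h := by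
  have e : ∀ (a : Fin N) (c : ℂ), star (Pi.single a c : E N) = Pi.single a (star c) :=
    fun a c => Pi.star_single (R := fun _ => ℂ) a c
  constructor <;> ext a b <;> apply Complex.ext <;> simp [p20, p11, ev11, e] <;> ring

theorem bf6b_cpt {β : D.ι → Form2 (E N)} (h : G2 D β) {i j : D.ι} {z : E N} (hz : z ∈ D.W i)
    {φ : E N → E N} (hφ : D.Ch i j z φ) :
    β i z = s20 1 ((jac φ z)ᵀ * p20 (β j (φ z)) * jac φ z) +
      e11 ((jac φ z)ᵀ * p11 (β j (φ z)) * (jac φ z).map star) := by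
  refine ContinuousLinearMap.ext fun u => ContinuousLinearMap.ext fun v => ?_
  rw [h.cpt i j z hz φ hφ, bf6b_j hφ, bf6b_j hφ]
  conv_lhs => rw [split (β j (φ z))]
  simp only [add_apply, s20_apply, e11_apply, ev11, ckform_jac, ckform_star]

theorem g2_e11 {a : D.ι → E N → Mat N} (h : Frm D a) : G2 D fun i z => e11 (a i z) := by
  refine ⟨fun i => ?_, fun i j z hz φ hφ u v => ?_⟩
  swap
  · simp only [e11_apply, ev11]
    rw [h.cpt i j z hz φ hφ, ckform_jac, ckform_star, bf6b_j hφ, bf6b_j hφ]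
  obtain ⟨h1, h2, h3⟩ := h.clo i
  have hs : ContDiffOn ℝ ∞ (fun z => e11 (a i z)) (D.W i) :=
    contDiffOn_clm_apply.2 fun u => contDiffOn_clm_apply.2 fun v => contDiffOn_const.mul
      (Complex.imCLM.contDiff.comp_contDiffOn (ckform_smooth h1 u (star v)))
  refine ⟨hs, fun z hz u v => ?_, fun z hz => ?_⟩
  · have e : u ⬝ᵥ a i z *ᵥ star v = star (v ⬝ᵥ a i z *ᵥ star u) := by
      simp only [ckform_sum, star_sum, smul_eq_mul, star_mul', Pi.star_apply, star_star]
      rw [Finset.sum_comm]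
      refine Finset.sum_congr rfl fun b _ => Finset.sum_congr rfl fun c _ => ?_
      rw [(h2 z hz).apply c b]
      ring
    simp only [e11_apply, ev11]
    rw [e]
    simp
  let S : E N → E N → E N → ℂ := fun w u v =>
    ∑ c, ∑ b, ∑ e, w c * u b * star (v e) * dz c (fun y => a i y b e) z
  have hsym : ∀ w u v, S w u v = S u w v := fun w u v => Finset.sum_comm.trans <|
    Finset.sum_congr rfl fun b _ => Finset.sum_congr rfl fun c _ =>
      Finset.sum_congr rfl fun e _ => by rw [h3 z hz b e c]; ring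
  have hb : ∀ b e c, dzb c (fun y => a i y b e) z = star (dz c (fun y => a i y e b) z) := by
    intro b e c
    have : (fun y => a i y b e) =ᶠ[𝓝 z] fun y => star (a i y e b) :=
      eventually_of_mem ((D.isOpen i).mem_nhds hz) fun y hy => ((h2 y hy).apply b e).symm
    simp only [← dzb_star, dzb, this.fderiv_eq]
  have key : ∀ w u v, fderiv ℝ (fun z => e11 (a i z)) z w u v =
      -2 * ((S w u v).im - (S w v u).im) := by
    intro w u v
    have e := ckform_der (fun b c => diffAt (D.isOpen i) (h1 b c) hz)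
      ((-2 : ℝ) • Complex.imCLM) u (star v) w
    have e2 : ∑ b, ∑ c, u b * (star v) c * fderiv ℝ (fun y => a i y b c) z w =
        S w u v + star (S w v u) := by
      simp only [S, star_sum, star_mul', star_star, fderiv_eq_wirt, hb, Finset.mul_sum, mul_add,
        Finset.sum_add_distrib, Pi.star_apply]
      congr 1 <;> rw [ckform_cyc] <;> refine Finset.sum_congr rfl fun c _ => ?_
      swap
      rw [Finset.sum_comm]
      all_goals exact Finset.sum_congr rfl fun b _ => Finset.sum_congr rfl fun e _ => by ring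
    rw [ckform_app (diffAt (D.isOpen i) hs hz)]
    refine Eq.trans (e2 ▸ e) ?_
    simp [sub_eq_add_neg]
  intro u v w
  rw [key, key, key, hsym u v w, hsym u w v, hsym v w u]
  ring

theorem g2_s20 {s : D.ι → E N → Mat N} (h : H2 D s)
    (hs : ∀ i a b, DifferentiableOn ℂ (fun z => s i z a b) (D.W i)) (c : ℂ) :
    G2 D fun i z => s20 c (s i z) := by
  refine ⟨fun i => ?_, fun i j z hz φ hφ u v => ?_⟩
  swap
  · simp only [s20_apply]
    rw [h.cpt i j z hz φ hφ, ckform_jac, bf6b_j hφ, bf6b_j hφ]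
  have h1 : ContDiffOn ℝ ∞ (fun z => s20 c (s i z)) (D.W i) :=
    contDiffOn_clm_apply.2 fun u => contDiffOn_clm_apply.2 fun v =>
      Complex.reCLM.contDiff.comp_contDiffOn
        (contDiffOn_const.mul (ckform_smooth (h.smooth i) u v))
  refine ⟨h1, fun z hz u v => ?_, fun z hz => ?_⟩
  · simp only [s20_apply]
    rw [Matrix.dotProduct_mulVec, ← Matrix.mulVec_transpose, h.skew i z hz, Matrix.neg_mulVec,
      neg_dotProduct, dotProduct_comm, mul_neg, Complex.neg_re]
  have key : ∀ w u v, fderiv ℝ (fun z => s20 c (s i z)) z w u v = (c * ∑ k, ∑ a, ∑ b,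
      w k * u a * v b * dz k (fun y => s i y a b) z).re := by
    intro w u v
    have h0 : ∀ a b k, dzb k (fun y => s i y a b) z = 0 := fun a b k =>
      (dz_of_diff ((hs i a b).differentiableAt ((D.isOpen i).mem_nhds hz)) k).2
    rw [ckform_app (diffAt (D.isOpen i) h1 hz)]
    refine (ckform_der (fun a b => diffAt (D.isOpen i) (h.smooth i a b) hz)
      (Complex.reCLM.comp (ContinuousLinearMap.mul ℝ ℂ c)) u v w).trans
        (congrArg (fun x => (c * x).re) ?_)
    simp only [fderiv_eq_wirt, h0, mul_zero, add_zero, Finset.mul_sum, ← mul_assoc, mul_comm (w _),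
      mul_right_comm _ (w _)]
    exact ckform_cyc _
  intro u v w
  rw [key, key, key, ← Complex.add_re, ← Complex.add_re, ← mul_add, ← mul_add,
    ckform_cyc fun b k a => v b * w k * u a * dz b (fun y => s i y k a) z,
    ← ckform_cyc fun a b k => w k * u a * v b * dz k (fun y => s i y a b) z]
  simp only [← Finset.sum_add_distrib]
  rw [Finset.sum_eq_zero, mul_zero, Complex.zero_re]
  refine fun a _ => Finset.sum_eq_zero fun b _ => Finset.sum_eq_zero fun k _ => ?_
  linear_combination (u a * v b * w k) * h.closed i z hz a b k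

theorem g2_dd {ζ : D.ι → Form1 (E N)} (h : G1 D univ ζ) : G2 D fun i => dd (ζ i) := by
  have hs : ∀ i, ContDiffOn ℝ ∞ (ζ i) (D.W i) := fun i => by simpa using h.smooth i
  refine ⟨fun i => dd_closed (D.isOpen i) (hs i), fun i j z hz φ hφ u v => ?_⟩
  refine dform_comp (diffAt (D.isOpen j) (hs j) hφ.self_of_nhds.2.1)
    (hφ.smooth.of_le (WithTop.coe_le_coe.2 le_top)) ?_ u v
  filter_upwards [hφ.eventually_nhds, (D.isOpen i).mem_nhds hz] with y h1 h2
  exact h.cpt i j y h2 trivial φ h1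

theorem g1_r10 {β : D.ι → E N → E N} (h : H1 D β) (c : ℂ) : G1 D univ fun i => r10 c (β i) := by
  refine ⟨fun i => (CL.rdot c).contDiff.comp_contDiffOn ((h.smooth i).mono inter_subset_left),
    fun i j z hz _ φ hφ u => ?_⟩
  simp only [r10, CL.rdot_apply]
  rw [h.cpt i j z hz φ hφ, bf6b_j hφ, Matrix.dotProduct_mulVec]

theorem h2_p20 {β : D.ι → Form2 (E N)} (h : G2 D β) : H2 D fun i z => p20 (β i z) := by
  refine ⟨fun i a b => bf6b_sm (bf6b_p a b) (h.closed i).1,
    fun i z hz => p20_skew ((h.closed i).2.1 z hz),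
    fun i j z hz φ hφ => (congrArg p20 (bf6b_cpt h hz hφ)).trans (bf6b_pq _ _).1,
    fun i z hz a b c => ?_⟩
  have e : ∀ a b u, fderiv ℝ (fun w => p20 (β i w) a b) z u = p20 (fderiv ℝ (β i) z u) a b :=
    fun a b => bf6b_der (bf6b_p a b) (diffAt (D.isOpen i) (h.closed i).1 hz)
  have k := fun x y w : ℂ => (h.closed i).2.2 z hz (Pi.single a x) (Pi.single b y) (Pi.single c w)
  simp only [dz, e]
  apply Complex.ext <;> simp [p20] <;>
    linarith [k 1 1 1, k 1 1 .I, k 1 .I 1, k .I 1 1, k 1 .I .I, k .I 1 .I, k .I .I 1, k .I .I .I]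

theorem frm_p11 {β : D.ι → Form2 (E N)} (h : G2 D β) (h0 : ∀ i, ∀ z ∈ D.W i, p20 (β i z) = 0) :
    Frm D fun i z => p11 (β i z) := by
  refine ⟨fun i => ⟨fun a b => bf6b_sm (bf6b_q a b) (h.closed i).1,
    fun z hz => p11_herm ((h.closed i).2.1 z hz), fun z hz b c a => ?_⟩,
    fun i j z hz φ hφ => (congrArg p11 (bf6b_cpt h hz hφ)).trans (bf6b_pq _ _).2⟩
  have e : ∀ a b u, fderiv ℝ (fun w => p11 (β i w) a b) z u = p11 (fderiv ℝ (β i) z u) a b :=
    fun a b => bf6b_der (bf6b_q a b) (diffAt (D.isOpen i) (h.closed i).1 hz)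
  have s : ∀ w u v, fderiv ℝ (β i) z w u v = -fderiv ℝ (β i) z w v u := fun w u v => by
    have := bf6b_zero ⟨⟨fun B => (B u v + B v u : ℝ), fun B C => by simp; ring⟩,
      fun r B => by simp⟩ (D.isOpen i) (h.closed i).1
      (fun y hy => by simp [(h.closed i).2.1 y hy u v]) hz w
    exact eq_neg_of_add_eq_zero_left (Complex.ofReal_eq_zero.1 this)
  have k : ∀ x y w : ℂ, _ := fun x y w =>
    s _ (Pi.single c w) (Pi.single a x) ▸ (h.closed i).2.2 z hz _ (Pi.single b y) _
  have p : ∀ w : ℂ, p20 (fderiv ℝ (β i) z (Pi.single c w)) a b = 0 := fun w =>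
    bf6b_zero (bf6b_p a b) (D.isOpen i) (h.closed i).1
      (fun y hy => congrFun (congrFun (h0 i y hy) a) b) hz _
  have p1 := p 1
  have p2 := p .I
  simp [p20, Complex.ext_iff] at p1 p2
  simp only [dz, e]
  apply Complex.ext <;> simp [p11] <;> linarith [k 1 1 1, k 1 1 .I, k 1 .I 1, k .I 1 1, k 1 .I .I,
    k .I 1 .I, k .I .I 1, k .I .I .I, p1.1, p1.2, p2.1, p2.2]

/-- The closed form of a (1,1)-form. -/
noncomputable def zf {a : D.ι → E N → Mat N} (h : Frm D a) : Z2 D := ⟨_, g2_e11 h⟩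

/-- The closed form `d ζ`. -/
noncomputable def zd {ζ : D.ι → Form1 (E N)} (h : G1 D univ ζ) : Z2 D := ⟨_, g2_dd h⟩

end Pool.Agent.BF
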