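import Pool.Agent.K.MP_63735c_ag.C192

-- part Pool.Agent.P.MP_63735c_ag.BF10
section

/-! Rational subspaces, star refinements. -/

open scoped ComplexOrder ContDiff Matrix Topology
open Set Metric MeasureTheory Filter

namespace Pool.Agent.BF

open Pool.Agent.SPF Pool.Agent.AB Pool.Agent.HX Pool.Agent.CK Pool.Agent.HS
open Pool.Agent.CL (Form1 Form2 Closed2 IsPrim)

theorem ker_int {ι κ : Type} [Fintype ι] (A : κ → ι → ℤ) (r : ι → ℝ)
    (h : ∀ k, ∑ j, (A k j : ℝ) * r j = 0) : ∃ (m : ℕ) (v : Fin m → ι → ℤ) (t : Fin m → ℝ),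
      (∀ l k, ∑ j, A k j * v l j = 0) ∧ ∀ j, r j = ∑ l, t l * v l j := by
  classical
  let V := Submodule.span ℚ (range r)
  have : Module.Finite ℚ V := Module.Finite.span_of_finite ℚ (finite_range r)
  let b := Module.finBasis ℚ V
  let x : ι → V := fun j => ⟨r j, Submodule.subset_span ⟨j, rfl⟩⟩
  obtain ⟨d, hd⟩ := IsLocalization.exist_integer_multiples_of_finite (nonZeroDivisors ℤ)
    (fun p : Fin (Module.finrank ℚ V) × ι => b.repr (x p.2) p.1)
  choose v hv using hd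
  have hd0 : ((d : ℤ) : ℚ) ≠ 0 := by exact_mod_cast nonZeroDivisors.coe_ne_zero d
  have hv' : ∀ l j, (v (l, j) : ℚ) = (d : ℤ) * b.repr (x j) l := fun l j => by
    simpa using hv (l, j)
  refine ⟨_, fun l j => v (l, j), fun l => (b l : ℝ) / (d : ℤ), fun l k => ?_, fun j => ?_⟩
  · have h0 : ∑ j, (A k j : ℚ) • x j = 0 := Subtype.ext (by simpa [x, Rat.smul_def] using h k)
    have h1 := congrArg (fun y => b.repr y l) h0
    simp only [map_sum, map_smul, Finsupp.finsetSum_apply, Finsupp.smul_apply, smul_eq_mul,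
      map_zero, Finsupp.zero_apply] at h1
    have h2 : ((∑ j, A k j * v (l, j) : ℤ) : ℚ) = (d : ℤ) * ∑ j, (A k j : ℚ) * b.repr (x j) l := by
      push_cast
      rw [Finset.mul_sum]
      exact Finset.sum_congr rfl fun j _ => by rw [hv']; ring
    rw [h1, mul_zero] at h2
    exact_mod_cast h2
  · have h1 := congrArg (Subtype.val : V → ℝ) (b.sum_repr (x j))
    simp only [AddSubmonoidClass.coe_finsetSum, SetLike.val_smul, x] at h1
    rw [← h1]
    refine Finset.sum_congr rfl fun l _ => ?_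
    have h2 : ((v (l, j) : ℚ) : ℝ) = (((d : ℤ) * b.repr (x j) l : ℚ) : ℝ) := by rw [hv']
    have h3 : ((d : ℤ) : ℝ) ≠ 0 := by exact_mod_cast hd0
    push_cast at h2
    rw [h2, Rat.smul_def]
    field_simp
    exact mul_comm _ _

theorem star_ref {Y κ : Type} [TopologicalSpace Y] [CompactSpace Y] [T2Space Y] {V : κ → Set Y}
    (hV : ∀ a, IsOpen (V a)) (hc : ∀ x, ∃ a, x ∈ V a) {P : Set Y → Prop}
    (hP : ∀ x O, IsOpen O → x ∈ O → ∃ U, P U ∧ IsOpen U ∧ x ∈ U ∧ U ⊆ O) :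
    ∃ (m : ℕ) (U : Fin m → Set Y) (a : Fin m → κ), (∀ i, P (U i) ∧ IsOpen (U i)) ∧
      (∀ x, ∃ i, x ∈ U i) ∧ ∀ i j, (U i ∩ U j).Nonempty → U j ⊆ V (a i) := by
  letI := uniformSpaceOfCompactR1 (γ := Y)
  obtain ⟨n, hn, ha⟩ := lebesgue_number_lemma isCompact_univ hV fun x _ => mem_iUnion.2 (hc x)
  obtain ⟨W, hW, hs, h3⟩ := comp_comp_symm_mem_uniformity_sets hn
  choose a ha using fun x => ha x (mem_univ x)
  choose U h1 h2 h4 h5 using fun x => hP x (interior (UniformSpace.ball x W)) isOpen_interior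
    (mem_interior_iff_mem_nhds.2 (UniformSpace.ball_mem_nhds x hW))
  obtain ⟨t, ht⟩ := isCompact_univ.elim_finite_subcover U h2 fun x _ => mem_iUnion.2 ⟨x, h4 x⟩
  refine ⟨_, fun i => U (t.equivFin.symm i), fun i => a (t.equivFin.symm i),
    fun i => ⟨h1 _, h2 _⟩, fun x => ?_, fun i j ⟨z, hi, hj⟩ w hw => ha _ (h3 ?_)⟩
  · obtain ⟨y, hy, hx⟩ := mem_iUnion₂.1 (ht (mem_univ x))
    exact ⟨t.equivFin ⟨y, hy⟩, by simpa using hx⟩
  · have k : ∀ x y, y ∈ U x → (x, y) ∈ W := fun x y h =>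
      interior_subset (s := UniformSpace.ball x W) (h5 x h)
    exact ⟨_, ⟨z, k _ _ hi, hs.symm _ _ (k _ _ hj)⟩, k _ _ hw⟩

variable {M H : Type} [AddCommGroup M] [Module ℝ M] [CommRing H] [Algebra ℝ H]

/-- `x` is orthogonal to all products of `e` with `k` classes. -/
def Perp (cl : M →ₗ[ℝ] H) (J : H →ₗ[ℝ] ℝ) (e : H) (k : ℕ) (x : M) : Prop :=
  ∀ L : List M, L.length = k → J (e * (cl x * (L.map cl).prod)) = 0

lemma bf10_ext (cl : M →ₗ[ℝ] H) (J : H →ₗ[ℝ] ℝ) {Λ : Set M} (hΛ : Submodule.span ℝ Λ = ⊤)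
    (L : List M) : ∀ y : H, (∀ K : List M, K.length = L.length → (∀ a ∈ K, a ∈ Λ) →
      J (y * (K.map cl).prod) = 0) → J (y * (L.map cl).prod) = 0 := by
  induction L with
  | nil => exact fun y h => h [] rfl (by simp)
  | cons a L ih =>
    intro y h
    have := LinearMap.ext_on (f := J ∘ₗ LinearMap.mulLeft ℝ (y * (L.map cl).prod) ∘ₗ cl) (g := 0)
      hΛ fun x hx => by
        have h1 := ih (y * cl x) fun K hK hm => by
          simpa [mul_assoc] using h (x :: K) (by simp [hK]) (by simpa using ⟨hx, hm⟩)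
        simpa [mul_assoc, mul_comm (cl x)] using h1
    simpa [mul_assoc, mul_comm (cl a)] using LinearMap.congr_fun this a

theorem rat (cl : M →ₗ[ℝ] H) (J : H →ₗ[ℝ] ℝ) (e : H) (k : ℕ) (Λ : AddSubgroup M)
    (hΛ : Submodule.span ℝ (Λ : Set M) = ⊤) {c : ℝ}
    (hc : ∀ x ∈ Λ, ∀ L : List M, L.length = k → (∀ y ∈ L, y ∈ Λ) →
      ∃ z : ℤ, J (e * (cl x * (L.map cl).prod)) = z * c) {s₁ s₂ : M}
    (h1 : Perp cl J e k s₁) (h2 : Perp cl J e k s₂) :
    ∃ (m : ℕ) (v : Fin m → M) (t₁ t₂ : Fin m → ℝ), (∀ l, v l ∈ Λ ∧ Perp cl J e k (v l)) ∧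
      s₁ = ∑ l, t₁ l • v l ∧ s₂ = ∑ l, t₂ l • v l := by
  classical
  obtain ⟨T1, a1, b1⟩ := Submodule.mem_span_finite_of_mem_span (hΛ ▸ Submodule.mem_top (x := s₁))
  obtain ⟨T2, a2, b2⟩ := Submodule.mem_span_finite_of_mem_span (hΛ ▸ Submodule.mem_top (x := s₂))
  have hT : ∀ j : ↥(T1 ∪ T2), j.1 ∈ Λ := fun j => (Finset.mem_union.1 j.2).elim (@a1 _) (@a2 _)
  choose z hz using fun (L : {L : List M // L.length = k ∧ ∀ y ∈ L, y ∈ Λ}) (j : ↥(T1 ∪ T2)) =>
    hc j.1 (hT j) L.1 L.2.1 L.2.2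
  have ev : ∀ L (r : ↥(T1 ∪ T2) → ℝ), J (e * (cl (∑ j, r j • j.1) * (List.map cl L.1).prod)) =
      (∑ j, (z L j : ℝ) * r j) * c := fun L r => by
    simp only [map_sum, map_smul, Finset.sum_mul, Finset.mul_sum, smul_mul_assoc, mul_smul_comm,
      hz, smul_eq_mul]
    exact Finset.sum_congr rfl fun j _ => by ring
  have key : ∀ s ∈ Submodule.span ℝ ((T1 ∪ T2 : Finset M) : Set M), Perp cl J e k s →
      ∃ (m : ℕ) (v : Fin m → M) (t : Fin m → ℝ), (∀ l, v l ∈ Λ ∧ Perp cl J e k (v l)) ∧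
        s = ∑ l, t l • v l := by
    intro s hs hp
    rw [← Subtype.range_coe (s := ((T1 ∪ T2 : Finset M) : Set M))] at hs
    obtain ⟨r, rfl⟩ := (Submodule.mem_span_range_iff_exists_fun ℝ).1 hs
    obtain ⟨m, v, t, hv, ht⟩ := ker_int (fun L j => if c = 0 then 0 else z L j) r fun L => by
      split_ifs with h0
      · simp
      · exact (mul_eq_zero.1 ((ev L r).symm.trans (hp _ L.2.1))).resolve_right h0
    refine ⟨m, fun l => ∑ j, (v l j : ℝ) • j.1, t, fun l => ⟨?_, fun L hL => ?_⟩, ?_⟩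
    · exact sum_mem fun j _ => by rw [Int.cast_smul_eq_zsmul]; exact Λ.zsmul_mem (hT j) _
    · rw [← mul_assoc]
      refine bf10_ext cl J hΛ L _ fun K hK hm => ?_
      rw [mul_assoc, ev ⟨K, hK.trans hL, hm⟩]
      by_cases h0 : c = 0
      · simp [h0]
      · have := hv l ⟨K, hK.trans hL, hm⟩
        simp only [h0, if_false] at this
        exact mul_eq_zero_of_left (by exact_mod_cast this) _
    · simp only [ht, Finset.sum_smul, Finset.smul_sum, smul_smul]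
      exact Finset.sum_comm
  obtain ⟨m1, v1, t1, p1, q1⟩ := key s₁ (Submodule.span_mono (by simp) b1) h1
  obtain ⟨m2, v2, t2, p2, q2⟩ := key s₂ (Submodule.span_mono (by simp) b2) h2
  refine ⟨m1 + m2, Fin.append v1 v2, Fin.append t1 0, Fin.append 0 t2, fun l => ?_, ?_, ?_⟩
  · refine Fin.addCases (fun i => ?_) (fun i => ?_) l
    · simpa using p1 i
    · simpa using p2 i
  · simpa [Fin.sum_univ_add] using q1
  · simpa [Fin.sum_univ_add] using q2

end Pool.Agent.BF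
end

-- part Pool.Agent.P.MP_63735c_ag.BF10b
section

/-! Numerical estimates. -/

open scoped ComplexOrder ContDiff Matrix Topology
open Set Metric MeasureTheory Filter

namespace Pool.Agent.BF

open Pool.Agent.SPF Pool.Agent.AB Pool.Agent.HX Pool.Agent.CK Pool.Agent.HS
open Pool.Agent.CL (Form1 Form2 Closed2 IsPrim)

variable {H : Type} [CommRing H] [Algebra ℝ H]

theorem low_num {n : ℕ} (hn : 1 ≤ n) {P : ℝ → ℝ} {C z w : ℂ}
    (h : ∀ t : ℝ, (P t : ℂ) = C * (z * t + w * t ^ 2) ^ n) (h0 : ∀ t, 0 < t → 0 < P t)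
    (h2 : P 2 < 2 ^ (2 * n) * P 1) : ∃ c > (0 : ℝ), ∀ t, 0 < t → t ≤ 1 → c * t ^ n ≤ P t := by
  have e : ∀ t : ℝ, 0 < t → P t = ‖C * (z + w * t) ^ n‖ * t ^ n := fun t ht => by
    rw [← abs_of_pos (h0 t ht), ← Real.norm_eq_abs, ← Complex.norm_real, h,
      show z * t + w * t ^ 2 = (z + w * t) * t by ring, mul_pow, ← mul_assoc, norm_mul, norm_pow,
      Complex.norm_real, Real.norm_of_nonneg ht.le]
  have hz : z ≠ 0 := by
    rintro rfl
    refine h2.ne (Complex.ofReal_injective ?_)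
    push_cast
    rw [h, h, pow_mul, mul_left_comm, ← mul_pow]
    congr 2
    push_cast
    ring
  obtain ⟨t, ht, hm⟩ := isCompact_Icc.exists_isMinOn (nonempty_Icc.2 zero_le_one)
    (f := fun t : ℝ => ‖C * (z + w * t) ^ n‖) (by fun_prop)
  have p : ∀ t : ℝ, 0 < t → 0 < ‖C * (z + w * t) ^ n‖ := fun t ht =>
    (mul_pos_iff_of_pos_right (pow_pos ht n)).1 (e t ht ▸ h0 t ht)
  refine ⟨_, ?_, fun s hs h1 =>
    (mul_le_mul_of_nonneg_right (hm ⟨hs.le, h1⟩) (pow_pos hs n).le).trans_eq (e s hs).symm⟩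
  rcases ht.1.eq_or_lt with rfl | ht
  · simpa [hz] using left_ne_zero_of_mul (norm_pos_iff.1 (p 1 one_pos))
  · exact p t ht

theorem bf10b_exp (J : H →ₗ[ℝ] ℝ) (y w b : H) (m : ℕ) (r : ℝ) : J ((y + r • w) ^ m * b) =
    ∑ i ∈ Finset.range (m + 1), r ^ i * (m.choose i * J (y ^ (m - i) * (b * w ^ i))) := by
  rw [add_comm, add_pow, Finset.sum_mul, map_sum]
  refine Finset.sum_congr rfl fun i _ => ?_
  rw [← smul_eq_mul (r ^ i), ← smul_eq_mul (m.choose i : ℝ), ← map_smul, ← map_smul, smul_pow,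
    Nat.cast_smul_eq_nsmul, nsmul_eq_mul, smul_mul_assoc, smul_mul_assoc, smul_mul_assoc]
  congr 2
  ring

theorem bf10b_tail (c : ℕ → ℝ) (M m : ℕ) (hc : ∀ i < M, i < m → c i = 0) :
    ∃ A, ∀ s : ℝ, 0 < s → s ≤ 1 → |∑ i ∈ Finset.range M, s ^ i * c i| ≤ A * s ^ m := by
  refine ⟨∑ i ∈ Finset.range M, |c i|, fun s h0 hs => (Finset.abs_sum_le_sum_abs _ _).trans ?_⟩
  rw [Finset.sum_mul]
  refine Finset.sum_le_sum fun i hi => ?_
  by_cases h : i < m
  · simp [hc i (Finset.mem_range.1 hi) h]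
  · rw [abs_mul, abs_of_pos (pow_pos h0 i), mul_comm]
    exact mul_le_mul_of_nonneg_left (pow_le_pow_of_le_one h0.le hs (not_lt.1 h)) (abs_nonneg _)

theorem bf10b_lim {f : ℝ → ℝ} {D : ℝ} (hf : Continuous f)
    (h : ∀ s, 0 < s → s ≤ 1 → |s * f s| ≤ s * (D * s)) : f 0 = 0 := by
  have := le_of_tendsto_of_tendsto (b := 𝓝[>] 0) hf.abs.continuousWithinAt
    (show Continuous fun s : ℝ => D * s by fun_prop).continuousWithinAt (by
      filter_upwards [Ioc_mem_nhdsGT one_pos] with s hs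
      have := h s hs.1 hs.2
      rwa [abs_mul, abs_of_pos hs.1, mul_le_mul_iff_right₀ hs.1] at this)
  simpa using this

theorem bf10b_tay (c : ℕ → ℝ) (M : ℕ) {I₁ I₂ D : ℝ} (h : ∀ s : ℝ, |s| ≤ 1 →
    |∑ i ∈ Finset.range (M + 3), s ^ i * c i - (c 0 + s * I₁ + s ^ 2 / 2 * I₂)| ≤ D * |s| ^ 3) :
    I₁ = c 1 ∧ I₂ = 2 * c 2 := by
  let T : ℝ → ℝ := fun s => c 2 - I₂ / 2 + s * ∑ i ∈ Finset.range M, s ^ i * c (i + 3)
  have hT : Continuous T := by fun_prop
  have k : ∀ s : ℝ, 0 < s → s ≤ 1 → |s * (c 1 - I₁ + s * T s)| ≤ D * s ^ 3 := fun s h0 h1 => by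
    have := h s (by rwa [abs_of_pos h0])
    rw [abs_of_pos h0] at this
    refine le_of_eq_of_le (congrArg _ ?_) this
    simp only [Finset.sum_range_succ', T, mul_add, Finset.mul_sum]
    rw [Finset.sum_congr rfl (g := fun i => s ^ (i + 1 + 1 + 1) * c (i + 1 + 1 + 1)) fun i _ => by ring]
    ring
  have e1 := bf10b_lim (D := |D|) (f := fun s => c 1 - I₁ + s * T s) (by fun_prop) fun s h0 h1 =>
    (k s h0 h1).trans (by
      nlinarith [mul_le_mul_of_nonneg_right (le_abs_self D) (pow_pos h0 3).le,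
        mul_nonneg (mul_nonneg (abs_nonneg D) (sq_nonneg s)) (sub_nonneg.2 h1)])
  simp only [zero_mul, add_zero] at e1
  have e2 := bf10b_lim (D := D) hT fun s h0 h1 => by
    have := k s h0 h1
    rw [e1, zero_add, abs_mul, abs_of_pos h0] at this
    exact le_of_mul_le_mul_left (this.trans_eq (by ring)) h0
  simp only [T, zero_mul, add_zero] at e2
  constructor <;> linarith

theorem num {n : ℕ} (hn : 1 ≤ n) (J : H →ₗ[ℝ] ℝ) (e k w a : H)
    (h1 : ∀ i j, i < n → i + j + 1 = 2 * n → J (e ^ j * (a * k ^ i)) = 0)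
    (h2 : ∀ i j, i + 1 < n → i + j + 2 = 2 * n → J (e ^ j * (a * (a * k ^ i))) = 0) {c : ℝ}
    (hc : 0 < c) (h0 : ∀ t : ℝ, 0 < t → t ≤ 1 → c * t ^ n ≤ J ((e + t • k) ^ (2 * n))) :
    ∃ C : ℝ, ∀ t : ℝ, 0 < t → t ≤ 1 → ∀ᶠ r in 𝓝 (0 : ℝ), ∀ I₁ I₂ D : ℝ,
      (∀ s : ℝ, |s| ≤ 1 → |J ((e + t • k + r • w + s • a) ^ (2 * n)) -
        (J ((e + t • k + r • w) ^ (2 * n)) + s * I₁ + s ^ 2 / 2 * I₂)| ≤ D * |s| ^ 3) →
      I₁ ^ 2 / J ((e + t • k + r • w) ^ (2 * n)) - I₂ ≤ C * t ^ (n - 1) := by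
  obtain ⟨n, rfl⟩ : ∃ m, n = m + 1 := ⟨n - 1, by omega⟩
  obtain ⟨A, hA⟩ := bf10b_tail (fun i => (2 * n + 1).choose i * J (e ^ (2 * n + 1 - i) * (a * k ^ i)))
    (2 * n + 1 + 1) (n + 1) fun i _ h => by rw [h1 i _ h (by omega), mul_zero]
  obtain ⟨B, hB⟩ := bf10b_tail (fun i => (2 * n).choose i * J (e ^ (2 * n - i) * (a * a * k ^ i)))
    (2 * n + 1) n fun i _ h => by rw [mul_assoc a, h2 i _ (by omega) (by omega), mul_zero]
  simp only [← bf10b_exp] at hA hB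
  let p : ℝ := (2 * n + 2).choose 1
  let q : ℝ := (2 * n + 2).choose 2
  refine ⟨(p * A) ^ 2 / c + 2 * q * B + 1, fun t t0 t1 => ?_⟩
  have ct : ∀ m b, Continuous fun r : ℝ => J ((e + t • k + r • w) ^ m * b) := fun m b => by
    simp only [bf10b_exp]; fun_prop
  have c0 := ct (2 * (n + 1)) 1
  simp only [mul_one] at c0
  have tn := pow_pos t0 n
  have h0 := h0 t t0 t1
  have P0 := (mul_pos hc (pow_pos t0 (n + 1))).trans_le h0
  have lt : ∀ᶠ r in 𝓝 (0 : ℝ), (p * J ((e + t • k + r • w) ^ (2 * n + 1) * a)) ^ 2 /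
      J ((e + t • k + r • w) ^ (2 * (n + 1))) - 2 * (q * J ((e + t • k + r • w) ^ (2 * n) * (a * a)))
      < ((p * A) ^ 2 / c + 2 * q * B + 1) * t ^ n := by
    refine ContinuousAt.eventually_lt (((((ct _ _).const_mul p).pow 2).continuousAt.div c0.continuousAt
      (by simpa using P0.ne')).sub (((ct _ _).const_mul q).const_mul 2).continuousAt) continuousAt_const ?_
    simp only [zero_smul, add_zero]
    have a1 := pow_le_pow_left₀ (abs_nonneg _) (hA t t0 t1) 2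
    rw [sq_abs] at a1
    have a2 := mul_le_mul_of_nonneg_left (abs_le.1 (hB t t0 t1)).1 (show 0 ≤ q by positivity)
    have a3 : (p * J ((e + t • k) ^ (2 * n + 1) * a)) ^ 2 / J ((e + t • k) ^ (2 * (n + 1))) ≤
        (p * A) ^ 2 / c * t ^ n := by
      refine (div_le_div₀ (c := (p * (A * t ^ (n + 1))) ^ 2) (sq_nonneg _) ?_ (by positivity) h0).trans ?_
      · simp only [mul_pow p]; gcongr
      · refine le_of_eq_of_le (b := (p * A) ^ 2 / c * t ^ n * t) (by field_simp; ring) ?_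
        exact mul_le_of_le_one_right (by positivity) t1
    linarith
  filter_upwards [lt] with r hr I₁ I₂ D h
  obtain ⟨rfl, rfl⟩ := bf10b_tay (fun i => (2 * n + 2).choose i *
    J ((e + t • k + r • w) ^ (2 * n + 2 - i) * (1 * a ^ i))) (2 * n) (D := D) (I₁ := I₁) (I₂ := I₂)
    fun s hs => by rw [← bf10b_exp]; simpa [mul_add 2 n] using h s hs
  simpa [sq a, p, q] using hr.le

end Pool.Agent.BF
end
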