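import Pool.Agent.K.MP_63735c_ag.C232
import Pool.Agent.K.MP_63735c_ag.C222

/-! Sections with regular common zeros. -/

open scoped ComplexOrder ContDiff Matrix Topology
open Set Metric MeasureTheory Filter

namespace Pool.Agent.BF

open Pool.Agent.SPF Pool.Agent.AB Pool.Agent.HX Pool.Agent.CK Pool.Agent.HS
open Pool.Agent.CL (Form1 Form2 Closed2 IsPrim)

variable {N : ℕ} {Y : Type} [TopologicalSpace Y] {D : Man Y N}

theorem bf13_det (A : E N →L[ℝ] E N) : A.det ≠ 0 ↔ Function.Injective A := by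
  rw [ContinuousLinearMap.det, Ne, LinearMap.det_eq_zero_iff_ker_ne_bot, not_not,
    LinearMap.ker_eq_bot]
  rfl

theorem bf13_tr {F G v φ : E N → E N} {z : E N} (h : G =ᶠ[𝓝 z] fun w => v w * F (φ w))
    (hv : DifferentiableAt ℝ v z) (h0 : ∀ j, v z j ≠ 0) (hφ : DifferentiableAt ℝ φ z)
    (hF : DifferentiableAt ℝ F (φ z)) (h1 : F (φ z) = 0) (h2 : Function.Injective (fderiv ℝ φ z))
    (h3 : (fderiv ℝ F (φ z)).det ≠ 0) : (fderiv ℝ G z).det ≠ 0 := by
  have e : fderiv ℝ (fun w => v w * F (φ w)) z = _ :=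
    (hv.hasFDerivAt.mul (hF.hasFDerivAt.comp z hφ.hasFDerivAt)).fderiv
  rw [bf13_det, h.fderiv_eq, e]
  refine fun a b hab => h2 ((bf13_det _).1 h3 (funext fun j => mul_left_cancel₀ (h0 j) ?_))
  simpa [h1] using congrFun hab j

theorem bf13_ch {i j : D.ι} {z : E N} {φ : E N → E N} (hz : z ∈ D.W i) (h : D.Ch i j z φ) :
    Function.Injective (fderiv ℝ φ z) := by
  obtain ⟨h1, h2, h3⟩ := h.self_of_nhds
  obtain ⟨ψ, -, h4⟩ := D.trans j i _ h2 z hz h3
  have h5 : ψ ∘ φ =ᶠ[𝓝 z] id := by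
    filter_upwards [h, h1.continuousAt.eventually h4, (D.isOpen i).mem_nhds hz] with w a b c
    exact D.inj i b.2.1 c (b.2.2.trans a.2.2)
  have h6 := fderiv_comp z (h4.self_of_nhds.1.restrictScalars ℝ) (h1.restrictScalars ℝ)
  rw [h5.fderiv_eq, fderiv_id] at h6
  exact Function.LeftInverse.injective (g := fderiv ℝ ψ (φ z)) fun u => (DFunLike.congr_fun h6 u).symm

theorem bf13_one {m : ℕ} (l : Fin m) {O : Set (E N)} (hO : IsOpen O) {u : Fin m → E N → E N}
    (hu : ∀ k, ∀ z ∈ O, ContDiffAt ℝ ∞ (u k) z) (h0 : ∀ z ∈ O, ∀ j, u l z j ≠ 0) :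
    ∀ᶠ M : Fin m → E N in residual _, ∀ z ∈ O, ∑ k, M k * u k z = 0 →
      (fderiv ℝ (fun w => ∑ k, M k * u k w) z).det ≠ 0 := by
  have hd : Dense {M : Fin m → E N | ∀ z ∈ O, ∑ k, M k * u k z = 0 →
      (fderiv ℝ (fun w => ∑ k, M k * u k w) z).det ≠ 0} := fun M => by
    let Φ : E N → E N := fun w j => -(∑ k ∈ Finset.univ.erase l, M k * u k w) j / u l w j
    have h1 : ∀ z ∈ O, DifferentiableAt ℝ Φ z := fun z hz => by
      have h2 := fun k => (hu k z hz).differentiableAt (by simp)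
      exact differentiableAt_pi.2 fun j => (differentiableAt_pi.1 (DifferentiableAt.fun_sum
        fun k _ => (h2 k).const_mul (M k)) j).neg.mul
          ((differentiableAt_pi.1 (h2 l) j).inv (h0 z hz j))
    have h2 := addHaar_image_eq_zero_of_det_fderivWithin_eq_zero volume
      (s := {z | z ∈ O ∧ (fderiv ℝ (fun w => -Φ w) z).det = 0}) (f := fun w => -Φ w)
      (fun z hz => (h1 z hz.1).neg.hasFDerivAt.hasFDerivWithinAt) fun z hz => hz.2
    have h3 := map_mem_closure (f := fun c : E N => Function.update M l (-c))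
      (continuous_const.update l continuous_neg)
      (Measure.dense_of_ae (measure_eq_zero_iff_ae_notMem.1 h2) (-M l))
      (t := {M : Fin m → E N | ∀ z ∈ O, ∑ k, M k * u k z = 0 →
        (fderiv ℝ (fun w => ∑ k, M k * u k w) z).det ≠ 0}) fun c hc z hz h4 => ?_
    · simpa using h3
    have h5 : ∀ w ∈ O, ∑ k, Function.update M l (-c) k * u k w = u l w * (-Φ w - c) := by
      intro w hw
      rw [← Finset.sum_erase_add _ _ (Finset.mem_univ l), Function.update_self,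
        Finset.sum_congr rfl fun k hk => by rw [Function.update_of_ne (Finset.ne_of_mem_erase hk)]]
      funext j
      have := h0 w hw j
      simp only [Φ, Pi.add_apply, Pi.mul_apply, Pi.neg_apply, Pi.sub_apply]
      field_simp
      ring
    have h6 : -Φ z - c = 0 := funext fun j =>
      (mul_eq_zero.1 (congrFun ((h5 z hz).symm.trans h4) j)).resolve_left (h0 z hz j)
    refine bf13_tr (φ := id) (F := fun w => -Φ w - c) (mem_of_superset (hO.mem_nhds hz) h5)
      ((hu l z hz).differentiableAt (by simp)) (h0 z hz) differentiableAt_id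
      ((h1 z hz).neg.sub_const c) h6 (by rw [fderiv_id]; exact fun _ _ h => h) fun h7 => ?_
    exact hc ⟨z, ⟨hz, by rwa [fderiv_sub_const] at h7⟩, sub_eq_zero.1 h6⟩
  choose! K k1 k2 k3 using fun z (hz : z ∈ O) => exists_compact_subset hO hz
  obtain ⟨S, s1, s2, s3⟩ := TopologicalSpace.countable_cover_nhdsWithin (f := K) fun z hz =>
    mem_nhdsWithin_of_mem_nhds (mem_interior_iff_mem_nhds.1 (k2 z hz))
  refine ((eventually_countable_ball s2).2 fun x hx => residual_of_dense_open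
    (s := {M : Fin m → E N | ∀ z ∈ K x, ∑ k, M k * u k z = 0 →
      (fderiv ℝ (fun w => ∑ k, M k * u k w) z).det ≠ 0}) (isOpen_iff_eventually.2 fun M hM =>
      (k1 x (s1 hx)).eventually_forall_of_forall_eventually fun y hy => ?_)
    (Dense.mono (by exact fun M hM z hz => hM z (k3 x (s1 hx) hz)) hd)).mono fun M hM z hz => ?_
  · have hy' := k3 x (s1 hx) hy
    have h1 : ContDiffAt ℝ ∞ (Function.uncurry fun (q : (Fin m → E N) × E N) w =>
        ∑ k, q.1 k * u k w) ((M, y), y) := ContDiffAt.sum fun k _ =>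
      (contDiffAt_pi.1 contDiffAt_fst.fst k).mul ((hu k y hy').comp _ contDiffAt_snd)
    by_cases h2 : ∑ k, M k * u k y = 0
    · have h3 := ContinuousLinearMap.continuous_det.continuousAt.comp (ContDiffAt.fderiv (m := 0)
        (x₀ := (M, y)) (g := Prod.snd) h1 contDiffAt_snd (by simp)).continuousAt
      exact (h3.eventually_ne (hM y hy h2)).mono fun _ h _ => h
    · exact ((h1.continuousAt.comp (f := fun q : (Fin m → E N) × E N => (q, q.2))
        (by fun_prop)).eventually_ne h2).mono fun _ h h' => (h h').elim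
  · obtain ⟨x, hx, h⟩ := mem_iUnion₂.1 (s3 hz)
    exact hM x hx z h

/-- A smooth section of the line bundle. -/
structure Sec {β : D.ι → Form2 (E N)} (C : Conn D β) (t : C.κ → Y → ℂ) : Prop where
  smooth : ∀ a i, ∀ z ∈ D.W i, D.p i z ∈ C.U a → ContDiffAt ℝ ∞ (fun w => t a (D.p i w)) z
  eq : ∀ a b x, x ∈ C.U a → x ∈ C.U b → t b x = C.g a b x * t a x

variable {β : Fin N → D.ι → Form2 (E N)} (C : ∀ j, Conn D (β j))

/-- `N` sections in a chart and in frames. -/
def tau (t : ∀ j, (C j).κ → Y → ℂ) (a : ∀ j, (C j).κ) (i : D.ι) (w : E N) : E N :=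
  fun j => t j (a j) (D.p i w)

theorem exists_gen [CompactSpace Y] [T2Space Y] (hc : D.M = univ) :
    ∃ t : ∀ j, (C j).κ → Y → ℂ, (∀ j, Sec (C j) (t j)) ∧ ∀ (a : ∀ j, (C j).κ) (i : D.ι),
      ∀ z ∈ D.W i, (∀ j, D.p i z ∈ (C j).U (a j)) → tau C t a i z = 0 →
        (fderiv ℝ (tau C t a i) z).det ≠ 0 := by
  have ho : ∀ a : ∀ j, (C j).κ, IsOpen (⋂ j, (C j).U (a j)) := fun a =>
    isOpen_iInter_of_finite fun j => (C j).isOpen _
  obtain ⟨m, q, θ, K, b1, b2, b3⟩ := SE.pu_sub D hc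
    (U := fun q : D.ι × ∀ j, (C j).κ => D.p q.1 '' D.W q.1 ∩ ⋂ j, (C j).U (q.2 j))
    (fun q => (D.isOpen_img _).inter (ho _)) fun x => by
      obtain ⟨i, h⟩ := Man.exists_chart (D := D) (x := x) (hc ▸ mem_univ x)
      choose a ha using fun j => (C j).cover x
      exact ⟨(i, a), h, mem_iInter.2 ha⟩
  have hn : ∀ j a b x, x ∈ (C j).U a → x ∈ (C j).U b → (C j).g a b x ≠ 0 := fun j a b x h h' =>
    norm_ne_zero_iff.1 (((C j).norm a b x h h').trans_ne one_ne_zero)
  have hs : ∀ k j, Sec (C j) fun b x => θ k x * (C j).g ((q k).2 j) b x := fun k j =>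
    ⟨fun a i z hz ha => ?_, fun a b x ha hb => ?_⟩
  rotate_left
  · by_cases hk : D.p i z ∈ K k
    · exact ((ofReal_smooth (b1 k i)).contDiffAt ((D.isOpen i).mem_nhds hz)).mul
        ((C j).smooth _ _ i z hz (mem_iInter.1 ((b2 k).2.1 hk).2 j) ha)
    · refine (contDiffAt_const (c := 0)).congr_of_eventuallyEq ?_
      filter_upwards [(Man.contAt_p hz).eventually ((b2 k).1.isOpen_compl.mem_nhds hk)] with w hw
      rw [(b2 k).2.2 _ hw, Complex.ofReal_zero, zero_mul]
  · by_cases hk : x ∈ K k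
    · rw [← (C j).mul _ a b x (mem_iInter.1 ((b2 k).2.1 hk).2 j) ha hb, mul_left_comm]
    · simp [(b2 k).2.2 _ hk]
  have hO : ∀ l, IsOpen (D.W (q l).1 ∩ D.p (q l).1 ⁻¹' (⋂ j, (C j).U ((q l).2 j)) ∩
      (fun z => θ l (D.p (q l).1 z)) ⁻¹' {0}ᶜ) := fun l =>
    ((b1 l _).continuousOn.mono inter_subset_left).isOpen_inter_preimage
      ((D.cont _).isOpen_inter_preimage (D.isOpen _) (ho _)) isOpen_compl_singleton
  obtain ⟨M, hM⟩ := (dense_of_mem_residual (eventually_all.2 fun l => bf13_one l (hO l)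
    (u := fun k z j => θ k (D.p (q l).1 z) * (C j).g ((q k).2 j) ((q l).2 j) (D.p (q l).1 z))
    (fun k z hz => contDiffAt_pi.2 fun j => (hs k j).1 _ _ z hz.1.1 (mem_iInter.1 hz.1.2 j))
    fun z hz j => mul_ne_zero (Complex.ofReal_ne_zero.2 hz.2)
      (hn j _ _ _ (mem_iInter.1 hz.1.2 j) (mem_iInter.1 hz.1.2 j)))).nonempty
  have ht : ∀ j, Sec (C j) fun b x => ∑ k, M k j * (θ k x * (C j).g ((q k).2 j) b x) := fun j =>
    ⟨fun a i z hz ha => ContDiffAt.sum fun k _ => contDiffAt_const.mul ((hs k j).1 a i z hz ha),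
      fun a b x ha hb => by
        rw [Finset.mul_sum]
        exact Finset.sum_congr rfl fun k _ => by rw [(hs k j).2 a b x ha hb, mul_left_comm]⟩
  refine ⟨_, ht, fun a i z hz ha h0 => ?_⟩
  obtain ⟨l, -, hl⟩ := Finset.exists_ne_zero_of_sum_ne_zero ((b3 (D.p i z)).trans_ne one_ne_zero)
  obtain ⟨⟨y, hy, e⟩, h1⟩ := (b2 l).2.1 (by_contra fun h => hl ((b2 l).2.2 _ h))
  obtain ⟨φ, rfl, hφ⟩ := D.trans i _ z hz y hy e.symm
  have h2 := mem_iInter.1 h1
  have h3 : tau C (fun j b x => ∑ k, M k j * (θ k x * (C j).g ((q k).2 j) b x)) a i =ᶠ[𝓝 z]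
      fun w => (fun j => (C j).g ((q l).2 j) (a j) (D.p i w)) * ∑ k, M k * fun j =>
        θ k (D.p (q l).1 (φ w)) * (C j).g ((q k).2 j) ((q l).2 j) (D.p (q l).1 (φ w)) := by
    filter_upwards [hφ, (Man.contAt_p hz).eventually (((ho _).inter (ho a)).mem_nhds
      ⟨h1, mem_iInter.2 ha⟩)] with w c1 c2
    funext j
    rw [c1.2.2, Pi.mul_apply, Finset.sum_apply]
    exact (ht j).2 _ _ _ (mem_iInter.1 c2.1 j) (mem_iInter.1 c2.2 j)
  have h4 := funext fun j => (mul_eq_zero.1 (congrFun (h3.self_of_nhds.symm.trans h0) j)).resolve_left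
    (hn j _ _ _ (h2 j) (ha j))
  refine bf13_tr (F := fun w => ∑ k, M k * fun j =>
      θ k (D.p (q l).1 w) * (C j).g ((q k).2 j) ((q l).2 j) (D.p (q l).1 w)) h3
    (differentiableAt_pi.2 fun j => ((C j).smooth _ _ i z hz (h2 j) (ha j)).differentiableAt
      (by simp)) (fun j => hn j _ _ _ (h2 j) (ha j)) (hφ.self_of_nhds.1.restrictScalars ℝ)
    (DifferentiableAt.fun_sum fun k _ => (differentiableAt_pi.2 fun j =>
      ((hs k j).1 _ _ _ hy (e ▸ h2 j)).differentiableAt (by simp)).const_mul _) h4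
    (bf13_ch hz hφ) (hM l _ ⟨⟨hy, mem_preimage.2 (e ▸ h1)⟩, fun h => hl (e ▸ h)⟩ h4)

end Pool.Agent.BF
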