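import Pool.Agent.K.MP_63735c_ag.C242

/-! Small neighbourhoods of the common zeros. -/

open scoped ComplexOrder ContDiff Matrix Topology
open Set Metric MeasureTheory Filter

namespace Pool.Agent.BF

open Pool.Agent.SPF Pool.Agent.AB Pool.Agent.HX Pool.Agent.CK Pool.Agent.HS
open Pool.Agent.CL (Form1 Form2 Closed2 IsPrim)

variable {N : ℕ}

/-- `τ` is a chart on `O` that covers the unit polydisc and has the orientation `ε`. -/
structure Box (O : Set (E N)) (τ : E N → E N) (ε : ℤ) : Prop where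
  isOpen : IsOpen O
  smooth : ContDiffOn ℝ ∞ τ O
  inj : InjOn τ O
  onto : closedBall 0 1 ⊆ τ '' O
  cpt : IsCompact (O ∩ τ ⁻¹' closedBall 0 1)
  sign : ∀ z ∈ O, (fderiv ℝ τ z).det = ε * |(fderiv ℝ τ z).det|

theorem bf14_box {V : Set (E N)} {τ : E N → E N} {z : E N} (hV : IsOpen V) (hz : z ∈ V)
    (hτ : ContDiffOn ℝ ∞ τ V) (h0 : τ z = 0) (hd : (fderiv ℝ τ z).det ≠ 0) :
    ∃ O ⊆ V, z ∈ O ∧ IsOpen O ∧ ∃ ε : ℤ, ∀ᶠ s in 𝓝[>] (0 : ℝ), Box O (s⁻¹ • τ) ε := by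
  have h1 := hτ.contDiffAt (hV.mem_nhds hz)
  obtain ⟨e, rfl, he⟩ : ∃ e : OpenPartialHomeomorph (E N) (E N), ⇑e = τ ∧ z ∈ e.source :=
    ⟨_, rfl, h1.mem_toOpenPartialHomeomorph_source
      (f' := (fderiv ℝ τ z).toContinuousLinearEquivOfDetNeZero hd)
      (by simpa using (h1.differentiableAt (by simp)).hasFDerivAt) (by simp)⟩
  have h2 := ContinuousLinearMap.continuous_det.continuousAt.comp
    (h1.continuousAt_fderiv (by simp))
  obtain ⟨ε, h3⟩ : ∃ ε : ℤ, ∀ᶠ w in 𝓝 z, (fderiv ℝ e w).det = ε * |(fderiv ℝ e w).det| := by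
    rcases hd.lt_or_gt with h | h
    · exact ⟨-1, (h2.eventually_lt continuousAt_const h).mono fun w hw => by
        simp [abs_of_neg (show (fderiv ℝ e w).det < 0 from hw)]⟩
    · exact ⟨1, (continuousAt_const.eventually_lt h2 h).mono fun w hw => by
        simp [abs_of_pos (show 0 < (fderiv ℝ e w).det from hw)]⟩
  obtain ⟨O, h4, h5, h6⟩ := _root_.eventually_nhds_iff.1
    (h3.and (Eventually.and (hV.mem_nhds hz) (e.open_source.mem_nhds he)))
  have h7 : O ⊆ e.source := fun w hw => (h4 w hw).2.2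
  have h8 : O ⊆ V := fun w hw => (h4 w hw).2.1
  refine ⟨O, h8, h6, h5, ε, ?_⟩
  filter_upwards [self_mem_nhdsWithin, (eventually_closedBall_subset
    (h0 ▸ e.image_mem_nhds he (h5.mem_nhds h6))).filter_mono nhdsWithin_le_nhds] with s hs h9
  have hs' : 0 < s⁻¹ := inv_pos.2 hs
  have hb : ∀ y : E N, s⁻¹ • y ∈ closedBall (0 : E N) 1 ↔ y ∈ closedBall 0 s := fun y => by
    rw [mem_closedBall_zero_iff, mem_closedBall_zero_iff, norm_smul, Real.norm_of_nonneg hs'.le,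
      inv_mul_le_one₀ hs]
  refine ⟨h5, (hτ.mono h8).const_smul s⁻¹, fun x hx y hy h => e.injOn (h7 hx) (h7 hy)
    (smul_right_injective _ hs'.ne' h), fun y hy => ?_, ?_, fun w hw => ?_⟩
  · obtain ⟨x, hx, h⟩ := h9 ((hb (s • y)).1 (by rwa [inv_smul_smul₀ (ne_of_gt hs)]))
    exact ⟨x, hx, by rw [Pi.smul_apply, h, inv_smul_smul₀ (ne_of_gt hs)]⟩
  · suffices h : e.symm '' closedBall 0 s = O ∩ (s⁻¹ • ⇑e) ⁻¹' closedBall 0 1 from
      h ▸ (isCompact_closedBall 0 s).image_of_continuousOn (e.continuousOn_symm.mono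
        (h9.trans (image_subset_iff.2 fun x hx => e.map_source (h7 hx))))
    refine Subset.antisymm ?_ fun x h => ⟨_, (hb _).1 h.2, e.left_inv (h7 h.1)⟩
    rintro _ ⟨y, hy, rfl⟩
    obtain ⟨x, hx, rfl⟩ := h9 hy
    rw [e.left_inv (h7 hx)]
    exact ⟨hx, (hb _).2 hy⟩
  · have h := (h4 w hw).1
    rw [fderiv_const_smul_field, Pi.smul_apply, ContinuousLinearMap.det,
      ContinuousLinearMap.toLinearMap_smul, LinearMap.det_smul, abs_mul, abs_of_pos (pow_pos hs' _),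
      mul_left_comm]
    exact congrArg _ h

variable {Y : Type} [TopologicalSpace Y] {D : Man Y N} {β : Fin N → D.ι → Form2 (E N)}
  (C : ∀ j, Conn D (β j))

theorem exists_loc [CompactSpace Y] [T2Space Y] (hc : D.M = univ) :
    ∃ (t : ∀ j, (C j).κ → Y → ℂ) (m : ℕ) (i : Fin m → D.ι) (a : Fin m → ∀ j, (C j).κ)
      (O : Fin m → Set (E N)) (ε : Fin m → ℤ), (∀ j, Sec (C j) (t j)) ∧
      (∀ q, Box (O q) (tau C t (a q) (i q)) (ε q) ∧ O q ⊆ D.W (i q) ∧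
        ∀ z ∈ O q, ∀ j, D.p (i q) z ∈ (C j).U (a q j)) ∧
      (Pairwise fun q r => Disjoint (D.p (i q) '' O q) (D.p (i r) '' O r)) ∧
      ∀ x, (∀ j b, x ∈ (C j).U b → ‖t j b x‖ ≤ 1) → ∃ q, x ∈ D.p (i q) '' O q := by
  obtain ⟨t, ht, hg⟩ := exists_gen C hc
  let Z := {x | ∀ j b, x ∈ (C j).U b → t j b x = 0}
  have hp : ∀ x, ∃ i, ∃ z ∈ D.W i, D.p i z = x := fun x => D.exists_chart (hc ▸ mem_univ x)
  have hA : ∀ x ∉ Z, ∀ᶠ y : ℝ × Y in 𝓝 (0, x), ∃ j b, y.2 ∈ (C j).U b ∧ y.1 < ‖t j b y.2‖ := by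
    intro x hx
    simp only [Z, mem_ofPred_eq, not_forall] at hx
    obtain ⟨j, b, h1, h2⟩ := hx
    obtain ⟨i, z, hz, rfl⟩ := hp x
    have h3 : ContinuousAt (t j b) (D.p i z) := by
      have := ((ht j).smooth b i z hz h1).continuousAt
      rwa [ContinuousAt, ← Man.map_nhds hz, tendsto_map'_iff]
    filter_upwards [continuousAt_snd.eventually (((C j).isOpen b).mem_nhds h1),
      continuousAt_fst.eventually_lt (h3.comp_of_eq continuousAt_snd rfl).norm (norm_pos_iff.2 h2)]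
      with y h4 h5 using ⟨j, b, h4, h5⟩
  have hB : ∀ x ∈ Z, ∀ U, IsOpen U → x ∈ U → ∃ i a O ε, x ∈ D.p i '' O ∧ IsOpen O ∧
      (∀ z ∈ O, z ∈ D.W i ∧ D.p i z ∈ U ∧ ∀ j, D.p i z ∈ (C j).U (a j)) ∧
      ∀ᶠ s in 𝓝[>] (0 : ℝ), Box O (s⁻¹ • tau C t a i) ε := by
    intro x hx U hU hxU
    obtain ⟨i, z, hz, rfl⟩ := hp x
    choose a ha using fun j => (C j).cover (D.p i z)
    have h0 : tau C t a i z = 0 := funext fun j => hx j _ (ha j)
    obtain ⟨O, h1, h2, h3, ε, h4⟩ := bf14_box ((D.cont i).isOpen_inter_preimage (D.isOpen i)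
      (hU.inter (isOpen_iInter_of_finite fun j => (C j).isOpen (a j)))) ⟨hz, hxU, mem_iInter.2 ha⟩
      (contDiffOn_pi.2 fun j w hw =>
        ((ht j).smooth _ i w hw.1 (mem_iInter.1 hw.2.2 j)).contDiffWithinAt) h0 (hg a i z hz ha h0)
    exact ⟨i, a, O, ε, ⟨z, h2, rfl⟩, h3,
      fun w hw => ⟨(h1 hw).1, (h1 hw).2.1, mem_iInter.1 (h1 hw).2.2⟩, h4⟩
  have hZ : Z.Finite := by
    obtain ⟨F, hF⟩ := finite_cover_nhds (U := fun x => {y | y ∈ Z → y = x}) fun x => by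
      by_cases hx : x ∈ Z
      · obtain ⟨i, a, O, ε, ⟨z, hz, rfl⟩, h1, h2, h3⟩ := hB x hx _ isOpen_univ trivial
        obtain ⟨s, h4⟩ := h3.exists
        filter_upwards [(D.opn i O h1 fun w hw => (h2 w hw).1).mem_nhds ⟨z, hz, rfl⟩]
        rintro _ ⟨w, hw, rfl⟩ h5
        refine congrArg _ (h4.inj hw hz (congrArg (fun y : E N => s⁻¹ • y) (funext fun j => ?_)))
        exact (h5 j _ ((h2 w hw).2.2 j)).trans (hx j _ ((h2 z hz).2.2 j)).symm
      · filter_upwards [(Continuous.prodMk_right (0 : ℝ)).continuousAt.eventually (hA x hx)]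
        rintro y ⟨j, b, h1, h2⟩ h3
        simp [h3 j b h1] at h2
    refine F.finite_toSet.subset fun x hx => ?_
    obtain ⟨y, hy, h⟩ := mem_iUnion₂.1 (hF ▸ mem_univ x)
    exact h hx ▸ hy
  obtain ⟨U, hU, hd⟩ := hZ.t2_separation
  obtain ⟨m, f, hf, hr⟩ := hZ.fin_param
  have hfZ : ∀ q, f q ∈ Z := fun q => hr ▸ mem_range_self q
  choose i a O ε h1 h2 h3 h4 using fun q => hB (f q) (hfZ q) _ (hU _).2 (hU _).1
  have hK := (isOpen_iUnion fun q => D.opn _ _ (h2 q) fun w hw => (h3 q w hw).1).isClosed_compl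
  have h5 := hK.isCompact.eventually_forall_of_forall_eventually (x₀ := (0 : ℝ))
    (P := fun s y => ∃ j b, y ∈ (C j).U b ∧ s < ‖t j b y‖) fun x hx => hA x fun h => by
      obtain ⟨q, rfl⟩ := hr.symm ▸ h
      exact hx (mem_iUnion.2 ⟨q, h1 q⟩)
  obtain ⟨s, ⟨h6, h7⟩, hs⟩ := (((eventually_all.2 h4).and (h5.filter_mono nhdsWithin_le_nhds)).and
    self_mem_nhdsWithin).exists
  refine ⟨s⁻¹ • t, m, i, a, O, ε, fun j => ⟨fun b i z hz h =>
    ((ht j).smooth b i z hz h).const_smul s⁻¹, fun b c x hb hc => ?_⟩,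
    fun q => ⟨h6 q, fun w hw => (h3 q w hw).1, fun w hw => (h3 q w hw).2.2⟩, fun q r hqr =>
      (hd (hfZ q) (hfZ r) (hf.ne hqr)).mono (image_subset_iff.2 fun w hw => (h3 q w hw).2.1)
        (image_subset_iff.2 fun w hw => (h3 r w hw).2.1), fun x hx => ?_⟩
  · simp only [Pi.smul_apply, (ht j).eq b c x hb hc, mul_smul_comm]
  · by_contra h
    obtain ⟨j, b, h8, h9⟩ := h7 x fun h' => h (mem_iUnion.1 h')
    have := hx j b h8
    simp only [Pi.smul_apply, norm_smul, Real.norm_of_nonneg (inv_pos.2 hs).le,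
      inv_mul_le_one₀ hs] at this
    exact this.not_gt h9

end Pool.Agent.BF
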