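import Pool.Agent.K.MP_63735c_ag.C243
import Pool.Agent.K.MP_63735c_ag.C230

/-! The contribution of one zero. -/

open scoped ComplexOrder ContDiff Matrix Topology
open Set Metric MeasureTheory Filter

namespace Pool.Agent.BF

open Pool.Agent.SPF Pool.Agent.AB Pool.Agent.HX Pool.Agent.CK Pool.Agent.HS
open Pool.Agent.CL (Form1 Form2 Closed2 IsPrim)

variable {N : ℕ}

theorem exists_ps : ∃ ψ : ℝ → ℝ, ContDiff ℝ ∞ ψ ∧ ∀ r, 1 ≤ r → r * ψ r = 1 := by
  refine ⟨fun r => (r.smoothTransition * r + (1 - r.smoothTransition))⁻¹,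
    ((Real.smoothTransition.contDiff.mul contDiff_id).add
      (contDiff_const.sub Real.smoothTransition.contDiff)).inv fun r => ne_of_gt ?_,
    fun r h => ?_⟩
  · rcases le_or_gt r 0 with h | h
    · simp [Real.smoothTransition.zero_of_nonpos h]
    · have h1 := Real.smoothTransition.pos_of_pos h
      have h2 := Real.smoothTransition.le_one r
      change 0 < _ * r + _
      nlinarith
  · simp [Real.smoothTransition.one_of_one_le h, mul_inv_cancel₀ (one_pos.trans_le h).ne']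

/-- The form `ψ (|w|²) Im (wbar dw) / 2π` on `ℂ`. -/
noncomputable def mf (ψ : ℝ → ℝ) : Form1 ℂ := fun w =>
  (ψ (‖w‖ ^ 2) / (2 * Real.pi)) • Complex.imCLM.comp (ContinuousLinearMap.mul ℝ ℂ (star w))

theorem mf_apply (ψ : ℝ → ℝ) (w u : ℂ) :
    mf ψ w u = ψ (‖w‖ ^ 2) / (2 * Real.pi) * (star w * u).im := rfl

/-- The form `Im (wbar u)`. -/
noncomputable def bf15_L : ℂ →L[ℝ] ℂ →L[ℝ] ℝ :=
  ((ContinuousLinearMap.compL ℝ ℂ ℂ ℝ Complex.imCLM).comp (ContinuousLinearMap.mul ℝ ℂ)).comp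
    Complex.conjCLE.toContinuousLinearMap

theorem mf_smooth {ψ : ℝ → ℝ} (h : ContDiff ℝ ∞ ψ) : ContDiff ℝ ∞ (mf ψ) :=
  ((h.comp (contDiff_norm_sq ℝ)).div_const _).smul bf15_L.contDiff

theorem mf_closed {ψ : ℝ → ℝ} (h1 : ∀ r, 1 ≤ r → r * ψ r = 1) {w : ℂ} (hw : 1 < ‖w‖) (u v : ℂ) :
    dform (mf ψ) w u v = 0 := by
  have h0 : ‖w‖ ^ 2 ≠ 0 := by positivity
  have h2 := ((((hasDerivAt_inv h0).comp_hasFDerivAt w
    (hasStrictFDerivAt_norm_sq w).hasFDerivAt).mul_const (2 * Real.pi)⁻¹).smul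
      bf15_L.hasFDerivAt).congr_of_eventuallyEq (f₁ := mf ψ) (by
    filter_upwards [(isOpen_lt continuous_const continuous_norm).mem_nhds hw] with y hy
    rw [mf, eq_inv_of_mul_eq_one_right (h1 _ (one_le_pow₀ (le_of_lt hy)))]
    rfl)
  have h3 : ∀ a b : ℂ, bf15_L a b = a.re * b.im - a.im * b.re := fun a b => by
    change (star a * b).im = _
    simp [sub_eq_add_neg]
  rw [dform, h2.fderiv]
  simp only [add_apply, smul_apply, ContinuousLinearMap.smulRight_apply, h3, innerSL_apply_apply,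
    Complex.inner, smul_eq_mul, Function.comp_apply, Complex.mul_re, Complex.conj_re,
    Complex.conj_im, nsmul_eq_mul]
  field_simp
  rw [Complex.sq_norm, Complex.normSq_apply]
  ring

theorem bf15_prod {O : Set (E N)} (hO : IsOpen O) {m : ℕ} {x : Fin m → Form2 (E N)}
    (hx : ∀ j, Closed2 O (x j)) :
    ContDiffOn ℝ ∞ (fun z => (List.ofFn fun j => f2 (x j z)).prod) O ∧
      (∀ z ∈ O, d (fun z => (List.ofFn fun j => f2 (x j z)).prod) z = 0) ∧
      ∀ z j, x j z = 0 → (List.ofFn fun j => f2 (x j z)).prod = 0 := by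
  induction m with
  | zero => exact ⟨contDiffOn_const, fun _ _ => d_const _, fun _ j => j.elim0⟩
  | succ m ih =>
    obtain ⟨a, b, c⟩ := ih fun j => hx j.succ
    have s := f2_smooth (hx 0).1
    simp only [List.ofFn_succ, List.prod_cons]
    refine ⟨s.mul a, fun z hz => ?_, fun z j => j.cases (fun h => ?_) fun j h => ?_⟩
    · refine (d_mul (diffAt hO s hz) (diffAt hO a hz)).trans ?_
      rw [b z hz, d_f2 (diffAt hO (hx 0).1 hz) ((hx 0).2.2 z hz), zero_mul, mul_zero, add_zero]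
    · rw [h, f2_zero, zero_mul]
    · rw [c z j h, mul_zero]

theorem bf15_ex {O : Set (E N)} (hO : IsOpen O) {m : ℕ}
    {x y : Fin m → Form2 (E N)} {μ : Fin m → Form1 (E N)} {Z : Fin m → Set (E N)}
    (hx : ∀ j, Closed2 O (x j)) (hy : ∀ j, Closed2 O (y j)) (hμ : ∀ j, ContDiffOn ℝ ∞ (μ j) O)
    (e : ∀ j, ∀ z ∈ O, ∀ u v, x j z u v = y j z u v + dform (μ j) z u v)
    (h0 : ∀ j, ∀ z ∈ O, z ∉ Z j → x j z = 0 ∧ y j z = 0 ∧ μ j z = 0) :
    ∃ Ξ, ContDiffOn ℝ ∞ Ξ O ∧ (∀ z ∈ O, (List.ofFn fun j => f2 (x j z)).prod =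
      (List.ofFn fun j => f2 (y j z)).prod + d Ξ z) ∧ ∀ z ∈ O, ∀ j, z ∉ Z j → Ξ z = 0 := by
  induction m with
  | zero => exact ⟨fun _ => 0, contDiffOn_const, fun _ _ => by simp [d_const], fun _ _ _ _ => rfl⟩
  | succ m ih =>
    obtain ⟨Ξ, a, b, c⟩ := ih (fun j => hx j.succ) (fun j => hy j.succ) (fun j => hμ j.succ)
      (fun j => e j.succ) fun j => h0 j.succ
    obtain ⟨p, q, r⟩ := bf15_prod hO fun j : Fin m => hx j.succ
    have s := f2_smooth (hy 0).1
    have t := e1_smooth (hμ 0)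
    refine ⟨_, (t.mul p).add (a.mul s), fun z hz => ?_, fun z hz j => j.cases (fun h => ?_)
      fun j h => ?_⟩
    · refine Eq.trans ?_ (congrArg _ ((d_add (diffAt hO (t.mul p) hz) (diffAt hO (a.mul s) hz)).trans
        (congrArg₂ _ (d_mul (diffAt hO t hz) (diffAt hO p hz))
          (d_mul (diffAt hO a hz) (diffAt hO s hz)))).symm)
      rw [q z hz, d_f2 (diffAt hO (hy 0).1 hz) ((hy 0).2.2 z hz), d_e1 (diffAt hO (hμ 0) hz),
        ← (f2_comm _ _).eq, List.ofFn_succ, List.ofFn_succ, List.prod_cons, List.prod_cons,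
        show x 0 z = y 0 z + dd (μ 0) z from by ext1 u; ext1 v; exact e 0 z hz u v, f2_add, add_mul]
      nth_rewrite 1 [b z hz]
      noncomm_ring
    · simp only [(h0 0 z hz h).2, e1_zero, f2_zero, zero_mul, mul_zero, add_zero]
    · simp only [r z j (h0 _ z hz h).1, c z hz j h, zero_mul, mul_zero, add_zero]

/-- Factors of a product are replaced one at a time. -/
theorem tel {O K : Set (E N)} (hO : IsOpen O) (hK : IsCompact K) (h : K ⊆ O) {m : ℕ}
    {x y : Fin m → Form2 (E N)} {μ : Fin m → Form1 (E N)} {Z : Fin m → Set (E N)}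
    (hx : ∀ j, Closed2 O (x j)) (hy : ∀ j, Closed2 O (y j)) (hμ : ∀ j, ContDiffOn ℝ ∞ (μ j) O)
    (e : ∀ j, ∀ z ∈ O, ∀ u v, x j z u v = y j z u v + dform (μ j) z u v)
    (h0 : ∀ j, ∀ z ∈ O, z ∉ Z j → x j z = 0 ∧ y j z = 0 ∧ μ j z = 0)
    (hZ : ∀ z ∈ O, (∀ j, z ∈ Z j) → z ∈ K) :
    ∫ z in O, T (List.ofFn fun j => f2 (x j z)).prod =
      ∫ z in O, T (List.ofFn fun j => f2 (y j z)).prod := by
  obtain ⟨Ξ, a, b, c⟩ := bf15_ex hO hx hy hμ e h0
  have n : ∀ z ∈ O, z ∉ K → ∃ j, z ∉ Z j := fun z hz hk => not_forall.1 (mt (hZ z hz) hk)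
  have i : ∀ {x : Fin m → Form2 (E N)}, (∀ j, Closed2 O (x j)) →
      (∀ j, ∀ z ∈ O, z ∉ Z j → x j z = 0) →
      IntegrableOn (fun z => T (List.ofFn fun j => f2 (x j z)).prod) O := fun hx h0 =>
    (((T_smooth (bf15_prod hO hx).1).continuousOn.mono h).integrableOn_compact
      hK).of_forall_sdiff_eq_zero hO.measurableSet fun z hz => (n z hz.1 hz.2).elim fun j hj => by
        rw [(bf15_prod hO hx).2.2 z j (h0 j z hz.1 hj), map_zero]
  rw [← sub_eq_zero, ← integral_sub (i hx fun j z p q => (h0 j z p q).1)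
    (i hy fun j z p q => (h0 j z p q).2.1),
    ← int_d hO hK h a fun z hz hk => (n z hz hk).elim (c z hz)]
  exact setIntegral_congr_fun hO.measurableSet fun z hz => by
    simp only [b z hz, map_add, add_sub_cancel_left]

end Pool.Agent.BF
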