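import Pool.Agent.K.MP_63735c_ag.C244
import Pool.Agent.K.MP_63735c_ag.C245

/-! Thom forms. -/

open scoped ComplexOrder ContDiff Matrix Topology
open Set Metric MeasureTheory Filter

namespace Pool.Agent.BF

open Pool.Agent.SPF Pool.Agent.AB Pool.Agent.HX Pool.Agent.CK Pool.Agent.HS
open Pool.Agent.CL (Form1 Form2 Closed2 IsPrim)

variable {N : ℕ} {Y : Type} [TopologicalSpace Y]

section
variable {D : Man Y N} {β : D.ι → Form2 (E N)} {C : Conn D β} {t : C.κ → Y → ℂ} {ψ : ℝ → ℝ}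

theorem bf16_ev {U : Set Y} (hU : IsOpen U) {i : D.ι} {z : E N} (hz : z ∈ D.W i)
    (hx : D.p i z ∈ U) : ∀ᶠ w in 𝓝 z, D.p i w ∈ U :=
  ((D.cont i).continuousAt ((D.isOpen i).mem_nhds hz)).eventually (hU.mem_nhds hx)

theorem bf16_g1 (ht : Sec C t) (h : ContDiff ℝ ∞ ψ) (a : C.κ) :
    G1 D (C.U a) fun i => CL.pull1 (fun w => t a (D.p i w)) (mf ψ) := by
  refine ⟨fun i z hz => ?_, fun i j z hz hx φ hφ u => ?_⟩
  · have h0 := ht.smooth a i z hz.1 hz.2
    exact (((mf_smooth h).contDiffAt.comp z h0).clm_comp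
      (h0.fderiv_right (m := ∞) (by simp))).contDiffWithinAt
  · obtain ⟨-, h2, h3⟩ := hφ.self_of_nhds
    have e : (fun w => t a (D.p i w)) =ᶠ[𝓝 z] (fun w => t a (D.p j w)) ∘ φ :=
      hφ.mono fun w hw => congrArg (t a) hw.2.2.symm
    simp only [CL.pull1, ContinuousLinearMap.comp_apply, e.fderiv_eq, h3,
      fderiv_comp z ((ht.smooth a j _ h2 (h3 ▸ hx)).differentiableAt (by simp))
        (hφ.smooth.differentiableAt (by simp))]

theorem bf16_gauge (ht : Sec C t) (a b : C.κ) {i : D.ι} {z : E N} (hz : z ∈ D.W i)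
    (ha : D.p i z ∈ C.U a) (hb : D.p i z ∈ C.U b) (u : E N) :
    ‖t b (D.p i z)‖ = ‖t a (D.p i z)‖ ∧ CL.pull1 (fun w => t b (D.p i w)) (mf ψ) z u =
      CL.pull1 (fun w => t a (D.p i w)) (mf ψ) z u +
        ‖t a (D.p i z)‖ ^ 2 * ψ (‖t a (D.p i z)‖ ^ 2) * (C.α b i z u - C.α a i z u) := by
  have n := C.norm a b _ ha hb
  have e0 : ‖t b (D.p i z)‖ = ‖t a (D.p i z)‖ := by rw [ht.eq a b _ ha hb, norm_mul, n, one_mul]
  have e : (fun w => t b (D.p i w)) =ᶠ[𝓝 z] fun w => C.g a b (D.p i w) * t a (D.p i w) := by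
    filter_upwards [bf16_ev (C.isOpen a) hz ha, bf16_ev (C.isOpen b) hz hb] with w h1 h2
    exact ht.eq a b _ h1 h2
  have n2 : star (C.g a b (D.p i z)) * C.g a b (D.p i z) = 1 := by
    rw [Complex.star_def, Complex.conj_mul', n]; simp
  have n3 : star (t a (D.p i z)) * t a (D.p i z) = (‖t a (D.p i z)‖ ^ 2 : ℝ) := by
    rw [Complex.star_def, Complex.conj_mul']; simp
  have e1 : star (t b (D.p i z)) * fderiv ℝ (fun w => t b (D.p i w)) z u =
      star (t a (D.p i z)) * fderiv ℝ (fun w => t a (D.p i w)) z u +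
        (2 * Real.pi * (C.α b i z u - C.α a i z u) * ‖t a (D.p i z)‖ ^ 2 : ℝ) * Complex.I := by
    rw [e.fderiv_eq, fderiv_fun_mul ((C.smooth a b i z hz ha hb).differentiableAt (by simp))
      ((ht.smooth a i z hz ha).differentiableAt (by simp)), ht.eq a b _ ha hb]
    simp only [add_apply, smul_apply, smul_eq_mul, C.gauge a b i z hz ha hb, star_mul',
      Complex.ofReal_mul, ← n3, Complex.ofReal_ofNat]
    linear_combination (star (t a (D.p i z)) * fderiv ℝ (fun w => t a (D.p i w)) z u +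
      2 * Real.pi * (C.α b i z u - C.α a i z u : ℝ) * (star (t a (D.p i z)) * t a (D.p i z)) *
        Complex.I) * n2
  refine ⟨e0, ?_⟩
  simp only [CL.pull1, ContinuousLinearMap.comp_apply, mf_apply, e0, e1, Complex.add_im,
    Complex.mul_I_im, Complex.ofReal_re]
  field_simp

end

/-- The curvature form is moved into the set where the section is small. -/
theorem Sec.thom {D : Man Y N} {β : D.ι → Form2 (E N)} {C : Conn D β} {t : C.κ → Y → ℂ}
    (ht : Sec C t) {ψ : ℝ → ℝ} (h : ContDiff ℝ ∞ ψ) (h1 : ∀ r, 1 ≤ r → r * ψ r = 1) :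
    ∃ (γ : D.ι → Form1 (E N)) (μ : C.κ → D.ι → Form1 (E N)), G1 D univ γ ∧
      (∀ a, G1 D (C.U a) (μ a)) ∧ ∀ a i, ∀ z ∈ D.W i, D.p i z ∈ C.U a →
        (∀ u v, β i z u v + dform (γ i) z u v =
          dform (CL.pull1 (fun w => t a (D.p i w)) (mf ψ)) z u v + dform (μ a i) z u v) ∧
        (1 < ‖t a (D.p i z)‖ → μ a i z = 0 ∧ dd (μ a i) z = 0 ∧
          dd (CL.pull1 (fun w => t a (D.p i w)) (mf ψ)) z = 0) := by
  have hμ : ∀ a, G1 D (C.U a) fun i z =>
      (1 - ‖t a (D.p i z)‖ ^ 2 * ψ (‖t a (D.p i z)‖ ^ 2)) • C.α a i z := fun a =>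
    (C.form a).smul (θ := fun x => 1 - ‖t a x‖ ^ 2 * ψ (‖t a x‖ ^ 2)) fun i z hz hx => by
      have h0 := (ht.smooth a i z hz hx).norm_sq ℂ
      exact contDiffAt_const.sub (h0.mul (h.contDiffAt.comp z h0))
  obtain ⟨γ, g1, g2⟩ := glue1 C.isOpen C.cover
    (fun a => ((bf16_g1 ht h a).add (hμ a)).sub (C.form a)) fun a b i z hz ha hb => by
      ext1 u
      obtain ⟨e0, e1⟩ := bf16_gauge (ψ := ψ) ht a b hz ha hb u
      simp only [Pi.sub_apply, Pi.add_apply, sub_apply, add_apply, smul_apply, smul_eq_mul, e0, e1]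
      ring
  refine ⟨γ, _, g1, hμ, fun a i z hz hx => ⟨fun u v => ?_, fun hl => ?_⟩⟩
  · have d := fun {α} (k : G1 D (C.U a) α) =>
      (k.at (C.isOpen a) hz hx).differentiableAt (by simp)
    rw [dform_congr (g2 a i z hz hx), Pi.sub_apply,
      (dform_add (d ((bf16_g1 ht h a).add (hμ a))) (d (C.form a)) u v).2, Pi.add_apply,
      (dform_add (d (bf16_g1 ht h a)) (d (hμ a)) u v).1, C.curv a i z hz hx]
    ring
  · have h0 := ht.smooth a i z hz hx
    have e : (fun z => (1 - ‖t a (D.p i z)‖ ^ 2 * ψ (‖t a (D.p i z)‖ ^ 2)) • C.α a i z) =ᶠ[𝓝 z]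
        fun _ => 0 := by
      filter_upwards [continuousAt_const.eventually_lt h0.continuousAt.norm hl] with w hw
      rw [h1 _ (one_le_pow₀ hw.le), sub_self, zero_smul]
    refine ⟨e.self_of_nhds, by ext1 u; ext1 v; simp [dd_apply, dform, e.fderiv_eq], ?_⟩
    ext1 u
    ext1 v
    rw [dd_apply, dform_comp ((mf_smooth h).differentiable (by simp) _) (h0.of_le (by norm_cast))
      (.of_forall fun _ _ => rfl), mf_closed h1 hl]
    rfl

end Pool.Agent.BF
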