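import Pool.Agent.K.MP_63735c_ag.C244

/-! The integral over one box. -/

open scoped ComplexOrder ContDiff Matrix Topology
open Set Metric MeasureTheory Filter

namespace Pool.Agent.BF

open Pool.Agent.SPF Pool.Agent.AB Pool.Agent.HX Pool.Agent.CK Pool.Agent.HS
open Pool.Agent.CL (Form1 Form2 Closed2 IsPrim)

variable {N : ℕ}

theorem bf15b_dd {ψ : ℝ → ℝ} (h : ContDiff ℝ ∞ ψ) {τ : E N → E N} {z : E N}
    (hτ : ContDiffAt ℝ ∞ τ z) (j : Fin N) (u v : E N) :
    dd (CL.pull1 (fun w => τ w j) (mf ψ)) z u v =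
      dform (mf ψ) (τ z j) (fderiv ℝ τ z u j) (fderiv ℝ τ z v j) := by
  rw [dd_apply, dform_comp (φ := fun w => τ w j) ((mf_smooth h).differentiable (by simp) _)
    ((contDiffAt_pi.1 hτ j).of_le (WithTop.coe_le_coe.2 (le_top (a := (2 : ℕ∞))))) (Eventually.of_forall fun _ _ => rfl),
    fderiv_apply (hτ.differentiableAt (by simp))]
  rfl

theorem box_int {ψ : ℝ → ℝ} (h : ContDiff ℝ ∞ ψ) (h1 : ∀ r, 1 ≤ r → r * ψ r = 1) : ∃ c : ℂ,
    ∀ (O : Set (E N)) (τ : E N → E N) (ε : ℤ), Box O τ ε →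
      ∫ z in O, T (List.ofFn fun j => f2 (dd (CL.pull1 (fun w => τ w j) (mf ψ)) z)).prod =
        ε * c := by
  let b : Fin N → E N → Bil N := fun j => dd (CL.pull1 (fun w => id w j) (mf ψ))
  have hb : ∀ j w u v, b j w u v = dform (mf ψ) (w j) (u j) (v j) := fun j w u v => by
    rw [bf15b_dd h contDiffAt_id, fderiv_id]
    rfl
  let g : E N → ℂ := fun w => T (List.ofFn fun j => f2 (b j w)).prod
  refine ⟨∫ w, g w, fun O τ ε B => ?_⟩
  have hd := fun z hz => diffAt B.isOpen B.smooth (z := z) hz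
  rw [← setIntegral_eq_integral_of_forall_compl_eq_zero (s := τ '' O) (f := g) fun w hw => ?_,
    integral_image_eq_integral_abs_det_fderiv_smul volume B.isOpen.measurableSet
      (fun z hz => (hd z hz).hasFDerivAt.hasFDerivWithinAt) B.inj, ← integral_const_mul]
  · refine setIntegral_congr_fun B.isOpen.measurableSet fun z hz => ?_
    have e : ∀ j, f2 (dd (CL.pull1 (fun w => τ w j) (mf ψ)) z) =
        pull (fderiv ℝ τ z) (f2 (b j (τ z))) := fun j => by
      rw [pull_f2]
      congr 1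
      ext u v
      rw [bf15b_dd h (B.smooth.contDiffAt (B.isOpen.mem_nhds hz)),
        ContinuousLinearMap.bilinearComp_apply, hb]
    have e2 := T_pull (fderiv ℝ τ z) (List.ofFn fun j => f2 (b j (τ z))).prod
    rw [map_list_prod, List.map_ofFn, B.sign z hz] at e2
    simp only [e]
    refine e2.trans ?_
    rw [Complex.real_smul, Complex.ofReal_mul, Complex.ofReal_intCast, mul_assoc]
  · obtain ⟨j, hj⟩ : ∃ j, 1 < ‖w j‖ := by_contra fun hn => hw (B.onto (mem_closedBall_zero_iff.2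
      ((pi_norm_le_iff_of_nonneg zero_le_one).2 fun j => not_lt.1 fun hj => hn ⟨j, hj⟩)))
    have e : b j w = 0 := by
      ext u v
      rw [hb, mf_closed h1 hj]
      rfl
    simp only [g]
    rw [List.prod_eq_zero (List.mem_ofFn.2 ⟨j, by rw [e, f2_zero]⟩), map_zero]

end Pool.Agent.BF
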