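import Pool.Agent.K.MP_63735c_ag.C245
import Pool.Agent.K.MP_63735c_ag.C239
import Pool.Agent.K.MP_63735c_ag.C222

/-! The cocycle of a closed form. -/

open scoped ComplexOrder ContDiff Matrix Topology
open Set Metric MeasureTheory Filter

namespace Pool.Agent.BF

open Pool.Agent.SPF Pool.Agent.AB Pool.Agent.HX Pool.Agent.CK Pool.Agent.HS
open Pool.Agent.CL (Form1 Form2 Closed2 IsPrim)

variable {N : ℕ} {Y : Type} [TopologicalSpace Y] [CompactSpace Y] [T2Space Y] {D : Man Y N}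

/-- The data of a real Cech cocycle of a closed form. -/
theorem cech (hc : D.M = univ) {β : D.ι → Form2 (E N)} (h : G2 D β) :
    ∃ (m : ℕ) (U : Fin m → Set Y) (α : Fin m → D.ι → Form1 (E N)) (F : Fin m → Fin m → Y → ℝ)
      (c : Fin m → Fin m → Fin m → ℝ), (∀ a, IsOpen (U a)) ∧ (∀ x, ∃ a, x ∈ U a) ∧
      (∀ a, G1 D (U a) (α a)) ∧
      (∀ a i, ∀ z ∈ D.W i, D.p i z ∈ U a → ∀ u v, dform (α a i) z u v = β i z u v) ∧
      (∀ a b i, ∀ z ∈ D.W i, D.p i z ∈ U a → D.p i z ∈ U b →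
        ContDiffAt ℝ ∞ (fun w => F a b (D.p i w)) z ∧
          fderiv ℝ (fun w => F a b (D.p i w)) z = α b i z - α a i z) ∧
      ∀ a b e x, x ∈ U a → x ∈ U b → x ∈ U e → F a b x + F b e x - F a e x = c a b e := by
  obtain ⟨_, C, b, c1, c2, c3⟩ := star_ref (V := fun B : {B // Ball D B ∧ IsOpen B} => B.1)
    (fun B => B.2.2) (fun x => by
      obtain ⟨B, h1, h2, h3, -⟩ := ball_basis hc x univ isOpen_univ trivial
      exact ⟨⟨B, h1, h2⟩, h3⟩) (ball_basis hc)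
  obtain ⟨m, U, a, u1, u2, u3⟩ := star_ref (fun i => (c1 i).2) c2 (ball_basis hc)
  choose α h1 h2 using fun k => (b (a k)).2.1.prim2 h
  have s1 : ∀ {j k x}, x ∈ U j → x ∈ U k → U j ⊆ C (a k) := fun p q => u3 _ _ ⟨_, q, p⟩
  have s2 : ∀ {j k x}, x ∈ U j → x ∈ U k → C (a j) ⊆ (b (a k)).1 := fun p q =>
    c3 _ _ ⟨_, s1 p q p, s1 p p p⟩
  have hF : ∀ j k, ∃ F : Y → ℝ, ∀ x ∈ U j, x ∈ U k → ∀ i, ∀ z ∈ D.W i, D.p i z ∈ C (a j) →
      ContDiffAt ℝ ∞ (fun w => F (D.p i w)) z ∧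
        fderiv ℝ (fun w => F (D.p i w)) z = α k i z - α j i z := fun j k => by
    by_cases e : ∃ x ∈ U j, x ∈ U k
    · obtain ⟨x, p, q⟩ := e
      obtain ⟨F, hF⟩ := (c1 (a j)).1.prim1 (((h1 k).mono (s2 p q)).sub ((h1 j).mono (s2 p p)))
        fun i z hz hx u v => by
          rw [Pi.sub_apply, (dform_add
            (((h1 k).at (b _).2.2 hz (s2 p q hx)).differentiableAt (by simp))
            (((h1 j).at (b _).2.2 hz (s2 p p hx)).differentiableAt (by simp)) u v).2,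
            h2 k i z hz (s2 p q hx), h2 j i z hz (s2 p p hx), sub_self]
      exact ⟨F, fun _ _ _ => hF⟩
    · exact ⟨0, fun x p q => (e ⟨x, p, q⟩).elim⟩
  choose F hF using hF
  have hn : ∀ j k l, ∃ c, ∀ x, x ∈ U j → x ∈ U k → x ∈ U l → F j k x + F k l x - F j l x = c :=
    fun j k l => by
    by_cases e : ∃ x ∈ U j, x ∈ U k ∧ x ∈ U l
    · obtain ⟨y, p, q, r⟩ := e
      refine ⟨_, fun x hx _ _ => (u1 j).1.const (F := fun x => F j k x + F k l x - F j l x)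
        (fun i z hz hy => ?_) x hx y p⟩
      obtain ⟨d1, e1⟩ := hF j k y p q i z hz (s1 p p hy)
      obtain ⟨d2, e2⟩ := hF k l y q r i z hz (s1 p q hy)
      obtain ⟨d3, e3⟩ := hF j l y p r i z hz (s1 p p hy)
      refine (((d1.differentiableAt (by simp)).hasFDerivAt.fun_add
        (d2.differentiableAt (by simp)).hasFDerivAt).fun_sub
        (d3.differentiableAt (by simp)).hasFDerivAt).congr_fderiv ?_
      rw [e1, e2, e3]
      abel
    · exact ⟨0, fun x p q r => (e ⟨x, p, q, r⟩).elim⟩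
  choose c hn using hn
  exact ⟨m, U, α, F, c, fun k => (u1 k).2, u2,
    fun k => ⟨fun i => ((h1 k).smooth i).mono fun _ hz => ⟨hz.1, s2 hz.2 hz.2 (s1 hz.2 hz.2 hz.2)⟩,
      fun i j z hz p => (h1 k).cpt i j z hz (s2 p p (s1 p p p))⟩,
    fun k i z hz p => h2 k i z hz (s2 p p (s1 p p p)),
    fun j k i z hz p q => hF j k _ p q i z hz (s1 p p p), hn⟩

end Pool.Agent.BF
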