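import Pool.Agent.K.MP_63735c_ag.C241
import Pool.Agent.K.MP_63735c_ag.C251
import Pool.Agent.K.MP_63735c_ag.C54
import Pool.Agent.K.MP_63735c_ag.C59

/-! The index estimate on the resolution. -/

open scoped ComplexOrder ContDiff Matrix Topology
open Set Metric MeasureTheory Filter

namespace Pool.Agent.BF

open Pool.Agent.SPF Pool.Agent.AB Pool.Agent.HX Pool.Agent.CK Pool.Agent.HS
open Pool.Agent.CL (Form1 Form2 Closed2 IsPrim)

variable {n : ℕ} {Y : Type} [TopologicalSpace Y] [MeasurableSpace Y] [CompactSpace Y] [T2Space Y]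
  [BorelSpace Y] [PreconnectedSpace Y]

theorem Sy.est (S : Sy Y n) (Q : Coh S.toBase) {a : S.ι → E (2 * n) → Mat (2 * n)}
    (ha : Frm S.toMan a) (hp : Perp Q.cl Q.J (Q.cl (zf S.η_frm) ^ n) (n - 1) (zf ha)) :
    ∃ C : ℝ, ∀ t : ℝ, 0 < t → t ≤ 1 → ∀ᶠ r : ℝ in 𝓝[>] 0,
      ∃ (m : ℕ) (τ : Fin m → Y → ℝ) (w : Fin m → Y → ℂ) (Φ : Y → ℝ),
        Est S.toMan a (fun i z => S.η i z + (t : ℂ) • S.K i z + (r : ℂ) • S.om i z) univ τ w Φ ∧
        ∫ x, Φ x * S.toBase.dens
          (fun i z => S.η i z + (t : ℂ) • S.K i z + (r : ℂ) • S.om i z) x ∂S.μ ≤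
            C * t ^ (n - 1) := by
  have hn := S.n_pos
  have := base_fin S.toBase
  obtain ⟨c, hc, h0⟩ := S.low Q
  have e0 : ∀ t, Q.cl (zf (S.mix_frm t)) = Q.cl (zf S.η_frm) + t • Q.cl (zf S.K_frm) := fun t => by
    rw [← map_smul, ← map_add, ← zf_smul, ← zf_add]
  obtain ⟨C, HC⟩ := num hn Q.J (Q.cl (zf S.η_frm)) (Q.cl (zf S.K_frm)) (Q.cl (zf (hn_frm S.om_kf)))
    (Q.cl (zf ha)) (fun i j h1 h2 => by
      rcases (Nat.succ_le_of_lt h1).eq_or_lt with h | h
      · obtain rfl : j = n := by omega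
        simpa using hp (List.replicate i (zf S.K_frm)) (by simp; omega)
      · simpa using (S.null Q j (zf ha :: List.replicate i (zf S.K_frm)) (by simpa using h)).1)
    (fun i j h1 h2 => by
      rcases (Nat.succ_le_of_lt h1).eq_or_lt with h | h
      · obtain rfl : j = n := by omega
        simpa using hp (zf ha :: List.replicate i (zf S.K_frm)) (by simp; omega)
      · simpa using (S.null Q j (zf ha :: zf ha :: List.replicate i (zf S.K_frm))
          (by simpa using h)).1) hc fun t t0 t1 => by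
      rw [← e0, Q.J_pow]
      exact h0 t t0 t1
  refine ⟨8 * C + 1, fun t t0 t1 => ?_⟩
  filter_upwards [self_mem_nhdsWithin, (HC t t0 t1).filter_mono nhdsWithin_le_nhds] with r r0 hr
  have f := hn_add (S.mix_frm t) (hn_smul (hn_frm S.om_kf) r)
  have k := hn_kf f fun i z hz v hv => by
    rw [hn_hq, hn_hq]
    exact add_pos_of_nonneg_of_pos (add_nonneg (hq_nonneg (S.η_psd i z hz) v)
      (mul_nonneg t0.le (hq_nonneg (S.K_psd i z hz) v)))
      (mul_pos r0 (hq_pos ((S.om_kf.kah i).pos z hz) hv))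
  have hi := fun {b} (hb : Frm S.toMan b) =>
    (hn_dens_cont (B := S.toBase) hb).integrable_of_hasCompactSupport (μ := S.μ)
      (HasCompactSupport.of_compactSpace _)
  obtain ⟨M, -, hM⟩ := hn_dom k ha isCompact_univ S.cover.ge
  have hM' := fun i z hz => hM i z hz trivial
  obtain ⟨D, HD⟩ := hn_zero (B := S.toBase) k ha hM' fun s => hi (hn_add f (hn_smul ha s))
  have e1 : Q.cl (zf f) = Q.cl (zf S.η_frm) + t • Q.cl (zf S.K_frm) +
      r • Q.cl (zf (hn_frm S.om_kf)) := by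
    rw [← e0, ← map_smul, ← map_add, ← zf_smul, ← zf_add]
  have e2 := hr _ _ D fun s hs => by
    rw [← e1, ← map_smul, ← map_add, ← zf_smul, ← zf_add, Q.J_pow, Q.J_pow]
    exact HD s hs
  rw [← e1, Q.J_pow, ← hn_QQ k] at e2
  have := hn_fin (B := S.toBase) k (hi f)
  obtain ⟨m, τ, w, Φ, h1, h2⟩ := KD.est (D := S.toBase.kd k) (fun _ _ _ ε hε => ⟨fun _ => 1,
    ⟨fun _ => contDiffOn_const, univ, isCompact_univ, S.cover.ge, fun x h => (h trivial).elim⟩,
    fun _ => ⟨zero_le_one, le_rfl⟩, fun _ _ => .of_forall fun _ => rfl, fun i z hz v => by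
      rw [Man.levG, lev_const]
      exact le_of_eq_of_le (by simp [hq])
        (mul_nonneg hε.le (hq_nonneg ((k.kah i).pos z hz).posSemidef v))⟩) ha hM'
    isCompact_univ (pow_pos t0 (n - 1))
  rw [Base.kd_int] at h2
  exact ⟨m, τ, w, Φ, h1, by linarith⟩

end Pool.Agent.BF
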