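import Pool.Agent.K.MP_63735c_ag.C192
import Pool.Agent.K.MP_63735c_ag.C28
import Pool.Agent.K.MP_63735c_ag.C232
import Pool.Agent.K.MP_63735c_ag.C7

-- part Pool.Agent.P.MP_63735c_ag.BF8
section

/-! Flat sections over a convex set. -/

open scoped ComplexOrder ContDiff Matrix Topology
open Set Metric MeasureTheory Filter

namespace Pool.Agent.BF

open Pool.Agent.SPF Pool.Agent.AB Pool.Agent.HX Pool.Agent.CK Pool.Agent.HS
open Pool.Agent.CL (Form1 Form2 Closed2 IsPrim)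

variable {F : Type} [NormedAddCommGroup F] [NormedSpace ℝ F] {W : Set F} {κ : Type}
  {O : κ → Set F} {g : κ → κ → F → ℂ}

theorem bf8_lift {B D κ : Type} [TopologicalSpace B] [SimplyConnectedSpace B]
    [LocallyPathConnectedSpace B] [Group D] {O : κ → Set B} {c : κ → κ → B → D}
    (hO : ∀ a, IsOpen (O a)) (h0 : ∀ x, ∃ a, x ∈ O a)
    (h1 : ∀ a b x, x ∈ O a → x ∈ O b → ∀ᶠ y in 𝓝 x, c a b y = c a b x)
    (h2 : ∀ a b e x, x ∈ O a → x ∈ O b → x ∈ O e → c b e x * c a b x = c a e x) :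
    ∃ s : κ → B → D, (∀ a x, x ∈ O a → ∀ᶠ y in 𝓝 x, s a y = s a x) ∧
      ∀ a b x, x ∈ O a → x ∈ O b → s b x = c a b x * s a x := by
  let _ : TopologicalSpace D := ⊥
  have : DiscreteTopology D := ⟨rfl⟩
  choose ix hix using h0
  let Z : FiberBundleCore κ B D :=
    { baseSet := O, isOpen_baseSet := hO, indexAt := ix, mem_baseSet_at := hix
      coordChange := fun a b x v => c a b x * v
      coordChange_self := fun a x hx v => by
        rw [mul_eq_right.1 (h2 a a a x hx hx hx), one_mul]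
      continuousOn_coordChange := fun a b q hq =>
        ((continuousAt_const.congr (Filter.EventuallyEq.symm (h1 a b q.1 hq.1.1 hq.1.2))).comp
          continuousAt_fst |>.mul continuousAt_snd).continuousWithinAt
      coordChange_comp := fun a b e x hx v => by
        rw [← mul_assoc, h2 a b e x hx.1.1 hx.1.2 hx.2] }
  obtain ⟨x₀⟩ : Nonempty B := inferInstance
  obtain ⟨σ, ⟨-, hσ⟩, -⟩ := (IsFiberBundle.isCoveringMap (f := Z.proj) fun x =>
    ⟨Z.localTrivAt x, Z.mem_localTrivAt_baseSet x⟩).existsUnique_continuousMap_lifts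
      (ContinuousMap.id B) x₀ ⟨x₀, (1 : D)⟩ rfl
  have e : ∀ x, (σ x).1 = x := congrFun hσ
  refine ⟨fun a x => (Z.localTriv a (σ x)).2, fun a x hx => ?_, fun a b x ha hb => ?_⟩
  · have h := continuousAt_snd.comp (((Z.localTriv a).continuousAt
      ((Z.mem_localTriv_source a _).2 (by rwa [e]))).comp σ.continuous.continuousAt)
    exact h.eventually (p := fun v => v = _) (by rw [nhds_discrete]; exact rfl)
  · show c _ b _ * _ = c a b x * (c _ a _ * _)
    rw [← mul_assoc, e, h2 _ a b x (hix x) ha hb]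

theorem split_lc (hW : IsOpen W) (hc : Convex ℝ W) (hO : ∀ a, IsOpen (O a))
    (h0 : ∀ x ∈ W, ∃ a, x ∈ O a)
    (h1 : ∀ a b, ∀ x ∈ W, x ∈ O a → x ∈ O b → ‖g a b x‖ = 1 ∧ ∀ᶠ y in 𝓝 x, g a b y = g a b x)
    (h2 : ∀ a b c, ∀ x ∈ W, x ∈ O a → x ∈ O b → x ∈ O c → g b c x * g a b x = g a c x) :
    ∃ s : κ → F → ℂ, (∀ a, ∀ x ∈ W, x ∈ O a → ‖s a x‖ = 1 ∧ ∀ᶠ y in 𝓝 x, s a y = s a x) ∧
      ∀ a b, ∀ x ∈ W, x ∈ O a → x ∈ O b → s b x = g a b x * s a x := by
  rcases W.eq_empty_or_nonempty with rfl | hne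
  · exact ⟨0, by simp, by simp⟩
  have := hc.contractibleSpace hne
  have := hW.locallyPathConnectedSpace
  have e : ∀ a b (x : W), x.1 ∈ O a → x.1 ∈ O b →
      (Circle.exp (Complex.arg (g a b x)) : ℂ) = g a b x := fun a b x ha hb => by
    simpa [(h1 a b x x.2 ha hb).1] using Complex.norm_mul_exp_arg_mul_I (g a b x)
  obtain ⟨s, k1, k2⟩ := bf8_lift (O := fun a => ((↑) : W → F) ⁻¹' O a)
    (c := fun a b x => Circle.exp (Complex.arg (g a b x)))
    (fun a => (hO a).preimage continuous_subtype_val) (fun x => h0 x x.2)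
    (fun a b x ha hb => (continuous_subtype_val.continuousAt.eventually
      (h1 a b x x.2 ha hb).2).mono fun y hy => by rw [hy])
    fun a b c x ha hb hc => Circle.ext (by
      rw [Circle.coe_mul, e b c x hb hc, e a b x ha hb, e a c x ha hc, h2 a b c x x.2 ha hb hc])
  classical
  refine ⟨fun a x => if h : x ∈ W then s a ⟨x, h⟩ else 0, fun a x hx ha => ⟨by simp [hx], ?_⟩,
    fun a b x hx ha hb => ?_⟩
  · rw [← hW.isOpenEmbedding_subtypeVal.map_nhds_eq ⟨x, hx⟩, eventually_map]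
    exact (k1 a ⟨x, hx⟩ ha).mono fun y hy => by simp [hx, hy]
  · simp only [dif_pos hx]
    rw [k2 a b ⟨x, hx⟩ ha hb, Circle.coe_mul, e a b ⟨x, hx⟩ ha hb]

theorem flat [FiniteDimensional ℝ F] (hW : IsOpen W) (hc : Convex ℝ W) (hO : ∀ a, IsOpen (O a))
    (h0 : ∀ x ∈ W, ∃ a, x ∈ O a) {A : Form1 F} {α : κ → Form1 F} {t : Form2 F}
    (hA : IsPrim W A t) (hα : ∀ a, IsPrim (W ∩ O a) (α a) t)
    (h1 : ∀ a b, ∀ x ∈ W, x ∈ O a → x ∈ O b → ‖g a b x‖ = 1 ∧ HasFDerivAt (g a b)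
      ((2 * Real.pi * Complex.I * g a b x) • Complex.ofRealCLM.comp (α b x - α a x)) x)
    (h2 : ∀ a b c, ∀ x ∈ W, x ∈ O a → x ∈ O b → x ∈ O c → g b c x * g a b x = g a c x) :
    ∃ s : κ → F → ℂ, (∀ a, ∀ x ∈ W, x ∈ O a → ‖s a x‖ = 1 ∧ HasFDerivAt (s a)
      ((2 * Real.pi * Complex.I * s a x) • Complex.ofRealCLM.comp (α a x - A x)) x) ∧
      ∀ a b, ∀ x ∈ W, x ∈ O a → x ∈ O b → s b x = g a b x * s a x := by
  have loc : ∀ x : W, ∃ (c : κ) (V : Set F) (f : F → ℝ), IsOpen V ∧ Convex ℝ V ∧ x.1 ∈ V ∧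
      V ⊆ W ∩ O c ∧ ∀ y ∈ V, HasFDerivAt f (A y - α c y) y := fun x => by
    obtain ⟨c, hx⟩ := h0 x x.2
    obtain ⟨r, hr, hs⟩ := Metric.isOpen_iff.1 (hW.inter (hO c)) x ⟨x.2, hx⟩
    refine ⟨c, ball x r, _, isOpen_ball, convex_ball _ _, mem_ball_self hr, hs, fun y hy =>
      CL.closed1_deriv (B := fun y => A y - α c y) isOpen_ball (convex_ball _ _)
        ⟨(hA.1.mono fun z hz => (hs hz).1).sub ((hα c).1.mono hs), fun z hz u v => ?_⟩
        (mem_ball_self hr) hy⟩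
    have n := (hW.inter (hO c)).mem_nhds (hs hz)
    rw [fderiv_fun_sub ((hA.1.contDiffAt (hW.mem_nhds (hs hz).1)).differentiableAt (by simp))
      (((hα c).1.contDiffAt n).differentiableAt (by simp))]
    simp only [sub_apply, Pi.zero_apply, zero_apply]
    linarith [hA.2 z (hs hz).1 u v, (hα c).2 z (hs hz) u v]
  choose c V f ho hv hm hs hf using loc
  let ex : ℝ → ℂ := fun r => Complex.exp (2 * Real.pi * Complex.I * r)
  have x1 : ∀ r, ‖ex r‖ = 1 := fun r => by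
    simpa [ex, mul_assoc, mul_comm, mul_left_comm] using
      Complex.norm_exp_ofReal_mul_I (2 * Real.pi * r)
  have x2 : ∀ r r', ex (r + r') = ex r * ex r' := fun r r' => by
    simp [ex, mul_add, Complex.exp_add]
  have x3 : ∀ {a b : κ} {u : F → ℝ} {u' : F →L[ℝ] ℝ} {y : F} (k : ℂ), y ∈ W → y ∈ O a → y ∈ O b →
      HasFDerivAt u u' y → HasFDerivAt (fun z => g a b z * ex (u z) * k)
        ((2 * Real.pi * Complex.I * (g a b y * ex (u y) * k)) •
          Complex.ofRealCLM.comp (α b y - α a y + u')) y := fun {a b u u' y} k hy ha hb hu => by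
    refine (((h1 a b y hy ha hb).2.mul (((Complex.ofRealCLM.hasFDerivAt.comp y hu).const_mul
      (2 * Real.pi * Complex.I)).cexp)).mul_const k).congr_fderiv ?_
    ext v
    simp [ex]
    ring
  obtain ⟨k, k1, k2⟩ := split_lc (O := V)
    (g := fun p q y => g (c p) (c q) y * ex (f q y - f p y) * 1) hW hc ho
    (fun x hx => ⟨⟨x, hx⟩, hm _⟩) (fun p q x hx hp hq => ⟨by
      simp [x1, (h1 _ _ x hx (hs p hp).2 (hs q hq).2).1], by
      have hd := fun y (hy : y ∈ V p ∩ V q) => x3 1 (hs p hy.1).1 (hs p hy.1).2 (hs q hy.2).2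
        ((hf q y hy.2).sub (hf p y hy.1))
      filter_upwards [((ho p).inter (ho q)).mem_nhds ⟨hp, hq⟩] with y hy
      exact ((ho p).inter (ho q)).is_const_of_fderiv_eq_zero ((hv p).inter (hv q)).isPreconnected
        (fun z hz => (hd z hz).differentiableAt.differentiableWithinAt)
        (fun z hz => by rw [(hd z hz).fderiv]; ext v; simp) hy ⟨hp, hq⟩⟩)
    fun p q r x hx hp hq hr => by
      rw [← h2 _ _ _ x hx (hs p hp).2 (hs q hq).2 (hs r hr).2,
        ← sub_add_sub_cancel (f r x) (f q x) (f p x), x2]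
      ring
  classical
  refine ⟨fun a x => if h : x ∈ W then g (c ⟨x, h⟩) a x * ex (-f ⟨x, h⟩ x) * k ⟨x, h⟩ x else 0,
    fun a x hx ha => ?_, fun a b x hx ha hb => ?_⟩
  · have hp := hm ⟨x, hx⟩
    simp only [dif_pos hx]
    refine ⟨by simp [x1, (h1 _ _ x hx (hs _ hp).2 ha).1, (k1 _ x hx hp).1], ?_⟩
    refine ((x3 (k ⟨x, hx⟩ x) hx (hs _ hp).2 ha (hf _ x hp).neg).congr_fderiv
      (by congr 2; abel)).congr_of_eventuallyEq ?_
    filter_upwards [(ho _).mem_nhds hp, (hO a).mem_nhds ha, (k1 _ x hx hp).2] with y hy hy' e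
    have hW' := (hs _ hy).1
    have hq := hm ⟨y, hW'⟩
    rw [dif_pos hW', ← e, k2 _ _ y hW' hq hy, ← h2 _ _ a y hW' (hs _ hq).2 (hs _ hy).2 hy',
      show -f ⟨y, hW'⟩ y = -f ⟨x, hx⟩ y + (f ⟨x, hx⟩ y - f ⟨y, hW'⟩ y) by ring, x2]
    simp only [Pi.neg_apply]
    ring
  · simp only [dif_pos hx]
    rw [← h2 _ a b x hx (hs _ (hm ⟨x, hx⟩)).2 ha hb]
    ring

end Pool.Agent.BF
end

-- part Pool.Agent.P.MP_63735c_ag.BF9
section

/-! Integrality of a curvature form, read on `T × ℂ^n`. -/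

open scoped ComplexOrder ContDiff Matrix Topology
open Set Metric MeasureTheory Filter

namespace Pool.Agent.BF

open Pool.Agent.SPF Pool.Agent.AB Pool.Agent.HX Pool.Agent.CK Pool.Agent.HS
open Pool.Agent.CL (Form1 Form2 Closed2 IsPrim)

variable {N n : ℕ} {Y : Type} [TopologicalSpace Y] {D : Man Y N}

theorem bf9_eq {G : Type} [NormedAddCommGroup G] [NormedSpace ℝ G] {U : Set Y}
    {α : D.ι → Form1 (E N)} (h : G1 D U α) {x : G} {f f' : G → E N} {i j : D.ι}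
    (hd : DifferentiableAt ℝ f x)
    (hf : ∀ᶠ s in 𝓝 x, f s ∈ D.W i ∧ f' s ∈ D.W j ∧ D.p i (f s) = D.p j (f' s))
    (hx : D.p i (f x) ∈ U) : CL.pull1 f (α i) x = CL.pull1 f' (α j) x := by
  obtain ⟨h1, h2, h3⟩ := hf.self_of_nhds
  obtain ⟨φ, e, hφ⟩ := D.trans i j _ h1 _ h2 h3
  have ev : f' =ᶠ[𝓝 x] φ ∘ f := (hf.and (hd.continuousAt.eventually hφ)).mono fun s hs =>
    D.inj j hs.1.2.1 hs.2.2.1 (hs.1.2.2.symm.trans hs.2.2.2.symm)
  refine ContinuousLinearMap.ext fun u => ?_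
  simp only [CL.pull1, ContinuousLinearMap.comp_apply]
  rw [ev.fderiv_eq, fderiv_comp x (hφ.self_of_nhds.1.restrictScalars ℝ) hd,
    h.cpt i j _ h1 hx φ hφ, e]
  rfl

theorem bf9_exp {R : ℝ → ℂ} {w : ℝ → ℝ} (hR : ContinuousOn R (Icc 0 1))
    (hw : ContinuousOn w (Icc 0 1))
    (hd : ∀ r ∈ Ioo (0 : ℝ) 1, HasDerivAt R (2 * Real.pi * Complex.I * R r * w r) r) :
    R 1 * Complex.exp (-(2 * Real.pi * Complex.I * (∫ r in (0 : ℝ)..1, w r : ℝ))) = R 0 := by
  have hJ : ContinuousOn (fun r => ∫ s in (0 : ℝ)..r, w s) (Icc 0 1) := by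
    simpa using intervalIntegral.continuousOn_primitive_interval' (CL.clprim_int hw) left_mem_uIcc
  have key := intervalIntegral.integral_eq_sub_of_hasDerivAt_of_le (f' := fun _ => 0)
    (f := fun r => R r * Complex.exp (-(2 * Real.pi * Complex.I * (∫ s in (0 : ℝ)..r, w s : ℝ))))
    zero_le_one (by fun_prop) (fun r hr => ?_) (by simp)
  · simpa [sub_eq_zero] using key.symm
  have hn := Icc_mem_nhds hr.1 hr.2
  have h1 := intervalIntegral.integral_hasDerivAt_right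
    ((CL.clprim_int hw).mono_set (uIcc_subset_uIcc_left (mem_uIcc_of_le hr.1.le hr.2.le)))
    ((hw.mono Ioo_subset_Icc_self).stronglyMeasurableAtFilter isOpen_Ioo r hr) (hw.continuousAt hn)
  refine ((hd r hr).mul (h1.ofReal_comp.const_mul (2 * Real.pi * Complex.I)).neg.cexp).congr_deriv ?_
  simp only [Pi.neg_apply]
  ring

theorem isInt_conn {β : D.ι → Form2 (E N)} (C : Conn D β) {T : Set (E n)} (hT : IsOpen T)
    (hc : Convex ℝ T) {Φ : CL.P n → Y} {t : Form2 (CL.P n)}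
    (ht : ∀ p : CL.P n, p.1 ∈ T → ∃ i f,
      (∀ᶠ s in 𝓝 p, DifferentiableAt ℂ f s ∧ f s ∈ D.W i ∧ D.p i (f s) = Φ s) ∧
      ∀ᶠ s in 𝓝 p, ∀ u v, t s u v = β i (f s) (fderiv ℂ f s u) (fderiv ℂ f s v)) :
    CL.IsInt T Φ t := by
  intro A hA
  have hW : IsOpen (T ×ˢ (univ : Set (E n))) := hT.prod isOpen_univ
  have hO : ∀ a, IsOpen (T ×ˢ univ ∩ Φ ⁻¹' C.U a) := fun a => by
    refine ContinuousOn.isOpen_inter_preimage (fun p hp => ?_) hW (C.isOpen a)
    obtain ⟨i, f, hf, -⟩ := ht p hp.1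
    obtain ⟨h1, h2, -⟩ := hf.self_of_nhds
    exact ((((D.cont i).continuousAt ((D.isOpen i).mem_nhds h2)).comp h1.continuousAt).congr
      (hf.mono fun s hs => hs.2.2)).continuousWithinAt
  have hB : ∀ a (p : CL.P n), ∃ B : CL.P n →L[ℝ] ℝ, p ∈ T ×ˢ univ ∩ Φ ⁻¹' C.U a → ∀ i f,
      (∀ᶠ s in 𝓝 p, DifferentiableAt ℂ f s ∧ f s ∈ D.W i ∧ D.p i (f s) = Φ s) →
      B = CL.pull1 f (C.α a i) p := fun a p => by
    by_cases hp : p.1 ∈ T
    · obtain ⟨i, f, hf, -⟩ := ht p hp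
      exact ⟨_, fun ha j f' hf' => bf9_eq (C.form a) (hf.self_of_nhds.1.restrictScalars ℝ)
        ((hf.and hf').mono fun s hs => ⟨hs.1.2.1, hs.2.2.1, hs.1.2.2.trans hs.2.2.2.symm⟩)
        (hf.self_of_nhds.2.2 ▸ ha.2)⟩
    · exact ⟨0, fun h => (hp h.1.1).elim⟩
  choose B hB using hB
  have hP : ∀ a, ∀ p ∈ T ×ˢ univ ∩ Φ ⁻¹' C.U a, ContDiffAt ℝ ∞ (B a) p ∧
      ∀ u v, fderiv ℝ (B a) p u v - fderiv ℝ (B a) p v u = t p u v := fun a p hp => by
    obtain ⟨i, f, hf, he⟩ := ht p hp.1.1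
    obtain ⟨V, hV, hVo, hpV⟩ := _root_.eventually_nhds_iff.1 (hf.and (he.and ((hO a).mem_nhds hp)))
    have ev : B a =ᶠ[𝓝 p] CL.pull1 f (C.α a i) :=
      (hf.eventually_nhds.and ((hO a).mem_nhds hp)).mono fun s hs => hB a s hs.2 i f hs.1
    have h := CL.pull_prim ((D.cont i).isOpen_inter_preimage (D.isOpen i) (C.isOpen a)) hVo
      (CL.hol_smooth hVo fun x hx => (hV x hx).1.1.differentiableWithinAt).2.1
      (fun x hx => ⟨(hV x hx).1.2.1, by
        simpa only [mem_preimage, (hV x hx).1.2.2] using (hV x hx).2.2.2⟩)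
      (t := β i) (t' := t) ⟨(C.form a).smooth i, fun x hx => C.curv a i x hx.1 hx.2⟩
      fun x hx u v => by
        rw [(hV x hx).2.1, ((hV x hx).1.1.hasFDerivAt.restrictScalars ℝ).fderiv]; rfl
    exact ⟨(h.1.contDiffAt (hVo.mem_nhds hpV)).congr_of_eventuallyEq ev,
      by rw [ev.fderiv_eq]; exact h.2 p hpV⟩
  obtain ⟨s, hs, hs'⟩ := flat (g := fun a b p => C.g a b (Φ p)) hW (hc.prod convex_univ) hO
    (fun x hx => (C.cover (Φ x)).imp fun a ha => ⟨hx, ha⟩) hA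
    (fun a => ⟨fun p hp => (hP a p hp.2).1.contDiffWithinAt, fun p hp => (hP a p hp.2).2⟩)
    (fun a b p hp ha hb => ⟨C.norm a b _ ha.2 hb.2, by
      obtain ⟨i, f, hf, -⟩ := ht p hp.1
      obtain ⟨h1, h2, h3⟩ := hf.self_of_nhds
      have ha' : D.p i (f p) ∈ C.U a := h3 ▸ ha.2
      have hb' : D.p i (f p) ∈ C.U b := h3 ▸ hb.2
      refine ((((C.smooth a b i _ h2 ha' hb').differentiableAt (by simp)).hasFDerivAt.comp p
        (h1.restrictScalars ℝ).hasFDerivAt).congr_of_eventuallyEq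
        (hf.mono fun s hs => congrArg (C.g a b) hs.2.2.symm)).congr_fderiv ?_
      refine ContinuousLinearMap.ext fun u => ?_
      simp [C.gauge a b i _ h2 ha' hb', hB a p ha i f hf, hB b p hb i f hf, CL.pull1, h3]
      ring⟩)
    fun a b c x _ ha hb hc => C.mul a b c _ ha.2 hb.2 hc.2
  choose k hk using C.cover
  refine ⟨fun p => (s (k (Φ p)) p).arg / (2 * Real.pi), fun c c' h h' he => ?_⟩
  have m : ∀ r ∈ Icc (0 : ℝ) 1, ∀ a, Φ (c r) ∈ C.U a →
      c r ∈ T ×ˢ univ ∩ Φ ⁻¹' C.U a ∧ c' r ∈ T ×ˢ univ ∩ Φ ⁻¹' C.U a :=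
    fun r hr a ha => ⟨⟨(h r hr).2, ha⟩, (h' r hr).2, by rwa [mem_preimage, ← he r hr]⟩
  have d : ∀ r ∈ Icc (0 : ℝ) 1, HasDerivWithinAt
      (fun r => s (k (Φ (c r))) (c r) / s (k (Φ (c r))) (c' r))
      (2 * Real.pi * Complex.I * (s (k (Φ (c r))) (c r) / s (k (Φ (c r))) (c' r)) *
        (B (k (Φ (c r))) (c r) (deriv c r) - A (c r) (deriv c r) -
          (B (k (Φ (c r))) (c' r) (deriv c' r) - A (c' r) (deriv c' r)) : ℝ)) (Icc 0 1) r := by
    intro r hr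
    obtain ⟨m1, m2⟩ := m r hr _ (hk _)
    have d1 := ((h r hr).1.differentiableAt (by simp)).hasDerivAt
    have d2 := ((h' r hr).1.differentiableAt (by simp)).hasDerivAt
    have n2 : s (k (Φ (c r))) (c' r) ≠ 0 := norm_ne_zero_iff.1 (by simp [(hs _ _ m2.1 m2).1])
    refine ((((hs _ _ m1.1 m1).2.comp_hasDerivAt r d1).div
      ((hs _ _ m2.1 m2).2.comp_hasDerivAt r d2) n2).congr_deriv ?_).hasDerivWithinAt
      |>.congr_of_eventuallyEq_of_mem ?_ hr
    · simp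
      field_simp
    filter_upwards [self_mem_nhdsWithin, mem_nhdsWithin_of_mem_nhds
      (d1.continuousAt.eventually ((hO _).mem_nhds m1))] with q hq q1
    obtain ⟨q2, q3⟩ := m q hq _ (hk _)
    have n3 : C.g (k (Φ (c q))) (k (Φ (c r))) (Φ (c q)) ≠ 0 :=
      norm_ne_zero_iff.1 (by simp [C.norm _ _ _ q2.2 q1.2])
    simp only [Pi.div_apply, Function.comp_apply]
    rw [hs' _ _ _ q2.1 q2 q1, hs' _ _ _ q3.1 q3 (m q hq _ q1.2).2, ← he q hq,
      mul_div_mul_left _ _ n3]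
  have key := bf9_exp (fun r hr => (d r hr).continuousWithinAt)
    ((CL.clprim_cont hA.1.continuousOn h').sub (CL.clprim_cont hA.1.continuousOn h))
    fun r hr => by
      have hr' := Ioo_subset_Icc_self hr
      have hn := Icc_mem_nhds hr.1 hr.2
      obtain ⟨m1, m2⟩ := m r hr' _ (hk _)
      obtain ⟨i, f, hf, -⟩ := ht _ m1.1.1
      obtain ⟨j, f', hf', -⟩ := ht _ m2.1.1
      have d1 := (h r hr').1.differentiableAt (by simp)
      have d2 := (h' r hr').1.differentiableAt (by simp)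
      have e1 := hf.self_of_nhds.1.restrictScalars ℝ
      have e := DFunLike.congr_fun (bf9_eq (C.form (k (Φ (c r)))) (f' := f' ∘ c') (j := j)
        (e1.comp r d1) (((d1.continuousAt.eventually hf).and
          ((d2.continuousAt.eventually hf').and hn)).mono fun q hq => ⟨hq.1.2.1, hq.2.1.2.1,
            hq.1.2.2.trans ((he q hq.2.2).trans hq.2.1.2.2.symm)⟩)
        (mem_of_eq_of_mem hf.self_of_nhds.2.2 m1.2)) 1
      refine ((d r hr').hasDerivAt hn).congr_deriv ?_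
      simp only [CL.pull1, fderiv_comp r e1 d1, ContinuousLinearMap.comp_apply,
        fderiv_comp r (hf'.self_of_nhds.1.restrictScalars ℝ) d2, fderiv_apply_one_eq_deriv,
        Function.comp_apply] at e
      simp only [hB _ _ m1 i f hf, hB _ _ m2 j f' hf', CL.pull1, ContinuousLinearMap.comp_apply, e]
      simp
  have ex : ∀ r ∈ Icc (0 : ℝ) 1, s (k (Φ (c r))) (c r) / s (k (Φ (c r))) (c' r) = Complex.exp
      ((s (k (Φ (c r))) (c r)).arg * Complex.I - (s (k (Φ (c' r))) (c' r)).arg * Complex.I) := by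
    intro r hr
    obtain ⟨m1, m2⟩ := m r hr _ (hk _)
    have e1 := Complex.norm_mul_exp_arg_mul_I (s (k (Φ (c r))) (c r))
    have e2 := Complex.norm_mul_exp_arg_mul_I (s (k (Φ (c r))) (c' r))
    rw [(hs _ _ m1.1 m1).1, Complex.ofReal_one, one_mul] at e1
    rw [(hs _ _ m2.1 m2).1, Complex.ofReal_one, one_mul] at e2
    rw [Complex.exp_sub, ← he r hr, e1, e2]
  simp only [Pi.sub_apply] at key
  rw [ex 0 (by simp), ex 1 (by simp), ← Complex.exp_add, intervalIntegral.integral_sub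
    (CL.clprim_int (CL.clprim_cont hA.1.continuousOn h'))
    (CL.clprim_int (CL.clprim_cont hA.1.continuousOn h)), eq_comm,
    Complex.exp_eq_exp_iff_exists_int] at key
  obtain ⟨z, hz⟩ := key
  have := congrArg Complex.im hz
  simp at this
  refine ⟨z, ?_⟩
  unfold CL.lineInt
  field_simp
  linarith

end Pool.Agent.BF
end

-- part Pool.Agent.P.MP_63735c_ag.BF7b
section

/-! The connection of a line bundle. -/

open scoped ComplexOrder ContDiff Matrix Topology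
open Set Metric MeasureTheory Filter

namespace Pool.Agent.BF

open Pool.Agent.SPF Pool.Agent.AB Pool.Agent.HX Pool.Agent.CK Pool.Agent.HS
open Pool.Agent.CL (Form1 Form2 Closed2 IsPrim)

variable {N : ℕ} {Y : Type} [TopologicalSpace Y] {D : Man Y N}

theorem bf7b_loc {f f' : E N → ℝ} {G : E N → ℂ} {z : E N} (hf : ContDiffAt ℝ ∞ f z)
    (hf' : ContDiffAt ℝ ∞ f' z) (hG : ∀ᶠ w in 𝓝 z, DifferentiableAt ℂ G w)
    (e : ∀ᶠ w in 𝓝 z, Real.exp (-f w) = ‖G w‖ ^ 2 * Real.exp (-f' w)) :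
    lev f' z = lev f z ∧ ∀ u, fderiv ℝ (fun w => G w * (Real.exp ((f w - f' w) / 2) : ℂ)) z u =
      Complex.I * (dcf (fun w => (f' w : ℂ)) z u - dcf (fun w => (f w : ℂ)) z u : ℝ) *
        (G z * Real.exp ((f z - f' z) / 2)) := by
  have h0 : ∀ᶠ w in 𝓝 z, ‖G w‖ ^ 2 ≠ 0 := e.mono fun w hw h =>
    (Real.exp_pos _).ne' (by rw [hw, h, zero_mul])
  have hz := h0.self_of_nhds
  have h1 : G z ≠ 0 := fun h => hz (by simp [h])
  have e' : f' =ᶠ[𝓝 z] fun w => f w + Real.log (‖G w‖ ^ 2) := by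
    filter_upwards [e, h0] with w a b
    have := congrArg Real.log a
    rw [Real.log_mul b (Real.exp_pos _).ne', Real.log_exp, Real.log_exp] at this
    linarith
  have hA := hG.self_of_nhds.hasFDerivAt.restrictScalars ℝ
  have ha := (hf.differentiableAt (by simp)).hasFDerivAt
  have hb := (hf'.differentiableAt (by simp)).hasFDerivAt
  refine ⟨?_, fun u => ?_⟩
  · have h := lev_log_norm hG h1
    simp only [Real.log_pow] at e'
    rw [(lev_congr e').eq_of_nhds, lev_add hf (contDiffAt_const.mul h.1), lev_smul h.1, h.2,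
      smul_zero, add_zero]
  have r : ∀ v c, fderiv ℂ G z v = c * G z → fderiv ℝ f' z v = fderiv ℝ f z v + 2 * c.re :=
    fun v c hc => by
    rw [e'.fderiv_eq, (ha.fun_add (hA.norm_sq.log hz)).fderiv]
    simp only [add_apply, smul_apply, ContinuousLinearMap.comp_apply, innerSL_apply_apply,
      ContinuousLinearMap.coe_restrictScalars', hc, Complex.inner, mul_assoc, Complex.mul_conj,
      Complex.normSq_eq_norm_sq, Complex.re_mul_ofReal, smul_eq_mul, nsmul_eq_mul]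
    field_simp
    norm_num [mul_comm]
  obtain ⟨c, hc⟩ : ∃ c, fderiv ℂ G z u = c * G z := ⟨_, (div_mul_cancel₀ _ h1).symm⟩
  have h2 := Complex.ofRealCLM.hasFDerivAt.comp z ((ha.fun_sub hb).mul_const 2⁻¹).exp
  have h3 : ∀ {k : E N → ℝ}, DifferentiableAt ℝ k z →
      dcf (fun w => (k w : ℂ)) z u = -(1 / 2) * fderiv ℝ k z (Complex.I • u) := fun {k} h => by
    rw [dcf_eq, show fderiv ℝ (fun y => (k y : ℂ)) z = _ from
      (Complex.ofRealCLM.hasFDerivAt.comp z h.hasFDerivAt).fderiv]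
    simp
  rw [show fderiv ℝ (fun w => G w * (Real.exp ((f w - f' w) / 2) : ℂ)) z = _ from
    (hA.fun_mul h2).fderiv, h3 ha.differentiableAt, h3 hb.differentiableAt,
    r _ (Complex.I * c) (by rw [map_smul, hc, smul_eq_mul, mul_assoc])]
  simp only [add_apply, smul_apply, sub_apply, ContinuousLinearMap.comp_apply,
    ContinuousLinearMap.coe_restrictScalars', hc, r u c hc, Function.comp, smul_eq_mul,
    Complex.ofRealCLM_apply, div_eq_mul_inv]
  apply Complex.ext <;> simp [-Complex.ofReal_exp] <;> ring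

theorem line_conn (hc : D.M = univ) {g : D.ι → D.ι → Y → ℂ} {ψ : D.ι → E N → ℝ}
    (h1 : ∀ i k, ∀ z ∈ D.W i, D.p i z ∈ D.p k '' D.W k →
      DifferentiableAt ℂ (fun w => g i k (D.p i w)) z)
    (h2 : ∀ i k l x, x ∈ D.p i '' D.W i → x ∈ D.p k '' D.W k → x ∈ D.p l '' D.W l →
      g k l x * g i k x = g i l x)
    (h3 : ∀ i, ContDiffOn ℝ ∞ (ψ i) (D.W i))
    (h4 : ∀ i k, ∀ z ∈ D.W i, ∀ y ∈ D.W k, D.p i z = D.p k y →
      Real.exp (-ψ i z) = ‖g i k (D.p i z)‖ ^ 2 * Real.exp (-ψ k y)) :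
    Frm D (fun i => lev (ψ i)) ∧
      Nonempty (Conn D fun i z => (1 / (2 * Real.pi)) • e11 (lev (ψ i) z)) := by
  have s0 : ∀ {i z}, z ∈ D.W i → ContDiffAt ℝ ∞ (ψ i) z := fun {i z} hz =>
    (h3 i).contDiffAt ((D.isOpen i).mem_nhds hz)
  have e0 : ∀ {i z}, z ∈ D.W i → (fun w => D.ext i (ψ i) (D.p i w)) =ᶠ[𝓝 z] ψ i := fun {i z} hz =>
    mem_of_superset ((D.isOpen i).mem_nhds hz) fun w hw => Man.ext_apply hw
  have s1 : ∀ {a i z}, z ∈ D.W i → D.p i z ∈ D.p a '' D.W a →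
      ContDiffAt ℝ ∞ (fun w => D.ext a (ψ a) (D.p i w)) z := fun {a i z} hz ⟨y, hy, e⟩ =>
    Man.smoAt hz hy e.symm ((s0 hy).congr_of_eventuallyEq (e0 hy))
  have e1 : ∀ {a b x}, x ∈ D.p a '' D.W a → x ∈ D.p b '' D.W b → Real.exp (-D.ext a (ψ a) x) =
      ‖g a b x‖ ^ 2 * Real.exp (-D.ext b (ψ b) x) := by
    rintro a b _ ⟨z, hz, rfl⟩ ⟨y, hy, e⟩
    rw [Man.ext_apply hz, h4 a b z hz y hy e.symm, ← e, Man.ext_apply hy]
  have n : ∀ {a b i z}, z ∈ D.W i → D.p i z ∈ D.p a '' D.W a → D.p i z ∈ D.p b '' D.W b →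
      ∀ᶠ w in 𝓝 z, DifferentiableAt ℂ (fun w => g a b (D.p i w)) w ∧ D.p i w ∈ D.p a '' D.W a ∧
        D.p i w ∈ D.p b '' D.W b := fun {a b i z} hz ha hb => by
    filter_upwards [(D.isOpen i).mem_nhds hz, Man.contAt_p hz ((D.isOpen_img a).mem_nhds ha),
      Man.contAt_p hz ((D.isOpen_img b).mem_nhds hb)] with w hw ⟨y, hy, e⟩ h
    exact ⟨Man.holAt hw hy e.symm (h1 a b y hy (e ▸ h)), ⟨y, hy, e⟩, h⟩
  have k := fun {a b i z} (hz : z ∈ D.W i) ha hb => bf7b_loc (s1 hz ha) (s1 hz hb)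
    ((n (a := a) (b := b) hz ha hb).mono fun _ h => h.1)
    ((n hz ha hb).mono fun _ h => e1 h.2.1 h.2.2)
  have l : ∀ {a i z}, z ∈ D.W i → D.p i z ∈ D.p a '' D.W a →
      lev (fun w => D.ext a (ψ a) (D.p i w)) z = lev (ψ i) z := fun hz ha =>
    (k hz ⟨_, hz, rfl⟩ ha).1.trans (lev_congr (e0 hz)).eq_of_nhds
  refine ⟨⟨fun i => ⟨lev_smooth (D.isOpen i) (h3 i), fun z hz => lev_herm (s0 hz),
    fun z hz => lev_closed (s0 hz)⟩, fun i j z hz φ hφ => ?_⟩, ⟨{
      κ := D.ι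
      U := fun a => D.p a '' D.W a
      g := fun a b x => g a b x * Real.exp ((D.ext a (ψ a) x - D.ext b (ψ b) x) / 2)
      α := fun a i => (1 / (2 * Real.pi)) • dcf fun w => (D.ext a (ψ a) (D.p i w) : ℝ)
      isOpen := D.isOpen_img
      cover := fun x => mem_iUnion.1 (hc.ge (mem_univ x))
      norm := fun a b x ha hb => ?_
      mul := fun a b c x ha hb hx => ?_
      form := fun a => ⟨fun i z hz => ((dcf_smooth (ablev_re (s1 hz.1 hz.2))).const_smul
        (_ : ℝ)).contDiffWithinAt, fun i j z hz ha φ hφ u => ?_⟩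
      curv := fun a i z hz ha u v => ?_
      smooth := fun a b i z hz ha hb => (smoothAt_of_hol' ((n hz ha hb).mono fun _ h => h.1)).mul
        (ablev_re (((s1 hz ha).sub (s1 hz hb)).div_const 2).exp)
      gauge := fun a b i z hz ha hb u => ?_ }⟩⟩
  · have h := hφ.self_of_nhds
    rw [← l hz ⟨_, h.2.1, h.2.2⟩, ← lev_comp (s0 h.2.1) (hφ.mono fun _ h => h.1)]
    exact (lev_congr (hφ.mono fun w hw => by rw [← hw.2.2, Man.ext_apply hw.2.1])).eq_of_nhds
  · rw [← pow_eq_one_iff_of_nonneg (norm_nonneg _) two_ne_zero, norm_mul, mul_pow,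
      Complex.norm_real, Real.norm_eq_abs, sq_abs, ← Real.exp_nat_mul,
      ← mul_left_inj' (Real.exp_pos (-D.ext a (ψ a) x)).ne', mul_assoc, ← Real.exp_add, one_mul,
      e1 ha hb]
    congr 2
    push_cast
    ring
  · rw [← h2 a b c x ha hb hx, mul_mul_mul_comm, ← Complex.ofReal_mul, ← Real.exp_add]
    congr 3
    ring
  · have h := hφ.self_of_nhds
    simp only [Pi.smul_apply, smul_apply]
    rw [dc_real h.1, ← dcf_comp ((ablev_re (s1 h.2.1 (h.2.2 ▸ ha))).differentiableAt (by simp)) h.1,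
      (dcf_congr (hφ.mono fun w hw => by rw [← hw.2.2])).eq_of_nhds]
  · have h := ablev_re (s1 hz ha)
    rw [dform_smul ((dcf_smooth h).differentiableAt (by simp)), dform_dcf h, lc_real, l hz ha,
      ← ev11_eq (lev_herm (s0 hz))]
    rfl
  · rw [(k hz ha hb).2 u]
    simp only [Pi.smul_apply, smul_apply, smul_eq_mul]
    push_cast
    field_simp

end Pool.Agent.BF
end
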