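import Pool.Agent.K.MP_63735c_ag.C255
import Pool.Agent.K.MP_63735c_ag.C257
import Pool.Agent.K.MP_63735c_ag.C212

/-! A regular compact orbit. -/

open scoped ComplexOrder ContDiff Matrix Topology ENNReal
open Set Metric MeasureTheory Filter

namespace Pool.Agent.BP

open Pool.Agent.SPF Pool.Agent.AB Pool.Agent.CK Pool.Agent.SE Pool.Agent.NL

variable {N n : ℕ} {X : Type} [TopologicalSpace X] {A : Atlas X N} {L : Line A}

theorem bpa7_hol (S : Sec L n) (hinj : ∀ i, InjOn (A.p i) (A.C i).W) :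
    DifferentiableOn ℂ (fun b => S.g (S.Ψ (b, 0))) S.T := by
  intro b hb
  obtain ⟨i, O, f, hO, hw, hf, h⟩ := S.unif (b, 0) hb
  have hc : DifferentiableAt ℂ (fun c : E n => (c, (0 : E n))) b :=
    differentiableAt_id.prodMk (differentiableAt_const _)
  have h0 := h _ hw
  have h1 : DifferentiableAt ℂ (fun w => S.g (A.p i w)) (f (b, 0)) :=
    (S.holU hinj).g_hol i _ h0.1 (by rw [h0.2.1]; exact S.tube_mem hb 0)
  have h2 : DifferentiableAt ℂ (fun c : E n => f (c, 0)) b :=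
    DifferentiableAt.comp (g := f) b (hf.differentiableAt (hO.mem_nhds hw)) hc
  have h3 : DifferentiableAt ℂ (fun c : E n => S.g (A.p i (f (c, 0)))) b :=
    DifferentiableAt.comp (g := fun w => S.g (A.p i w)) b h1 h2
  refine (h3.congr_of_eventuallyEq ?_).differentiableWithinAt
  filter_upwards [hc.continuousAt.preimage_mem_nhds (hO.mem_nhds hw)] with c hc'
  rw [(h _ hc').2.1]

theorem bpa7_jac (S : Sec L n) (hinj : ∀ i, InjOn (A.p i) (A.C i).W) {i : A.ι}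
    {O : Set (E n × E n)} {f : E n × E n → E N} (hO : IsOpen O) (hf : DifferentiableOn ℂ f O)
    (h : ∀ s ∈ O, f s ∈ (A.C i).W ∧ A.p i (f s) = S.Ψ s) {w : E n × E n} (hw : w ∈ O)
    (hT : w.1 ∈ S.T) (u : E n × E n) :
    Jg A S.g i (f w) *ᵥ fderiv ℂ f w u = jac (fun b => S.g (S.Ψ (b, 0))) w.1 *ᵥ u.1 := by
  have h0 := h _ hw
  have h1 : DifferentiableAt ℂ (fun y => S.g (A.p i y)) (f w) :=
    (S.holU hinj).g_hol i _ h0.1 (by rw [h0.2]; exact S.tube_mem hT w.2)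
  have h2 := h1.hasFDerivAt.comp w (hf.differentiableAt (hO.mem_nhds hw)).hasFDerivAt
  have h3 := ((bpa7_hol S hinj).differentiableAt (S.T_open.mem_nhds hT)).hasFDerivAt.comp w
    (hasFDerivAt_fst (𝕜 := ℂ) (p := w))
  have h4 : ((fun y => S.g (A.p i y)) ∘ f) =ᶠ[𝓝 w]
      ((fun b => S.g (S.Ψ (b, 0))) ∘ Prod.fst) := by
    filter_upwards [hO.mem_nhds hw,
      continuous_fst.continuousAt.preimage_mem_nhds (S.T_open.mem_nhds hT)] with s hs hs'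
    show S.g (A.p i (f s)) = S.g (S.Ψ (s.1, 0))
    rw [(h s hs).2]
    exact (S.g_sep hs' hs' s.2 0).2 rfl
  have h5 := (h3.congr_of_eventuallyEq h4).unique h2
  rw [Jg, jac_mulVec, jac_mulVec]
  exact (DFunLike.congr_fun h5 u).symm

theorem bpa7_field (S : Sec L n) (hinj : ∀ i, InjOn (A.p i) (A.C i).W) {i : A.ι}
    {O : Set (E n × E n)} {f : E n × E n → E N} (hO : IsOpen O) (hf : DifferentiableOn ℂ f O)
    (h : ∀ s ∈ O, f s ∈ (A.C i).W ∧ A.p i (f s) = S.Ψ s) {w : E n × E n} (hw : w ∈ O)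
    (hT : w.1 ∈ S.T) (hb : Function.Surjective (fderiv ℂ f w))
    (hσ : ∀ β τ τ', fderiv ℂ f w (β, τ) ⬝ᵥ (A.C i).σ (f w) *ᵥ fderiv ℂ f w (0, τ') = β ⬝ᵥ τ')
    (t : E n) : Vf A S.g i (f w) *ᵥ t =
      fderiv ℂ f w (0, (jac (fun b => S.g (S.Ψ (b, 0))) w.1)ᵀ *ᵥ t) := by
  have h0 := h _ hw
  have h1 : (A.C i).σ (f w) *ᵥ (Vf A S.g i (f w) *ᵥ t) = (A.C i).σ (f w) *ᵥ
      fderiv ℂ f w (0, (jac (fun b => S.g (S.Ψ (b, 0))) w.1)ᵀ *ᵥ t) := by
    refine dotProduct_eq _ _ fun u => ?_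
    obtain ⟨⟨β, τ⟩, rfl⟩ := hb u
    rw [dotProduct_comm _ (fderiv ℂ f w (β, τ)), dotProduct_comm _ (fderiv ℂ f w (β, τ)), σ_Vf S.g h0.1, bpa7_jac S hinj hO hf h hw hT, hσ, Matrix.dotProduct_mulVec,
      Matrix.vecMul_transpose]
  exact Matrix.mulVec_injective_iff_isUnit.2
    ((Matrix.isUnit_iff_isUnit_det _).2 (isUnit_iff_ne_zero.2 ((A.C i).σ_det _ h0.1))) h1

theorem bpa7_sol (S : Sec L n) (hinj : ∀ i, InjOn (A.p i) (A.C i).W) {b : E n} (hb : b ∈ S.T)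
    (t : E n) : Sol A S.U S.g
      (fun s => S.Ψ (b, (jac (fun b => S.g (S.Ψ (b, 0))) b)ᵀ *ᵥ s)) t := by
  obtain ⟨M, hM⟩ : ∃ M, M = (jac (fun b => S.g (S.Ψ (b, 0))) b)ᵀ := ⟨_, rfl⟩
  rw [← hM]
  obtain ⟨i, O, f, hO, hw, hf, h⟩ := S.unif (b, M *ᵥ t) hb
  have hc : ∀ s, HasFDerivAt (fun s : E n => (b, M *ᵥ s))
      ((0 : E n →L[ℂ] E n).prod (LinearMap.toContinuousLinearMap M.mulVecLin)) s := fun s =>
    (hasFDerivAt_const b s).prodMk (LinearMap.toContinuousLinearMap M.mulVecLin).hasFDerivAt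
  refine ⟨i, fun s => f (b, M *ᵥ s), ?_⟩
  filter_upwards [(hc t).continuousAt.preimage_mem_nhds (hO.mem_nhds hw)] with s hs
  have h0 := h _ hs
  refine ⟨h0.1, by rw [h0.2.1]; exact S.tube_mem hb _, h0.2.1, ?_⟩
  have h1 := (hf.differentiableAt (hO.mem_nhds hs)).hasFDerivAt.comp s (hc s)
  refine h1.congr_fderiv (ContinuousLinearMap.ext fun τ => ?_)
  rw [Vl_apply, bpa7_field S hinj hO hf (fun s hs => ⟨(h s hs).1, (h s hs).2.1⟩) hs hb
    h0.2.2.1.2 h0.2.2.2.2, ← hM]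
  rfl

theorem bpa7_span {M : Mat n} (hM : M.det ≠ 0) {Λ P : Set (E n)}
    (hΛ : Submodule.span ℝ Λ = ⊤) (h : ∀ τ, M *ᵥ τ ∈ Λ → τ ∈ P) : Submodule.span ℝ P = ⊤ := by
  have hu : IsUnit M.det := isUnit_iff_ne_zero.2 hM
  have h1 : ∀ u ∈ Submodule.span ℝ Λ, M⁻¹ *ᵥ u ∈ Submodule.span ℝ P := by
    intro u hu'
    induction hu' using Submodule.span_induction with
    | mem x hx =>
      refine Submodule.subset_span (h _ ?_)
      rwa [Matrix.mulVec_mulVec, Matrix.mul_nonsing_inv _ hu, Matrix.one_mulVec]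
    | zero => rw [Matrix.mulVec_zero]; exact Submodule.zero_mem _
    | add x y _ _ hx hy => rw [Matrix.mulVec_add]; exact Submodule.add_mem _ hx hy
    | smul a x _ hx => rw [Matrix.mulVec_smul]; exact Submodule.smul_mem _ _ hx
  refine Submodule.eq_top_iff'.2 fun v => ?_
  have h2 := h1 (M *ᵥ v) (hΛ ▸ Submodule.mem_top)
  rwa [Matrix.mulVec_mulVec, Matrix.nonsing_inv_mul _ hu, Matrix.one_mulVec] at h2

variable [T2Space X]

theorem Sec.reg (S : Sec L n) (hinj : ∀ i, InjOn (A.p i) (A.C i).W) {K : Form11 A}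
    (hK : ∀ i, ∀ z ∈ (A.C i).W, (K.h i z).PosDef) {Φ : X → E n → X} (hF : Flow A S.U S.g Φ) :
    ∃ x ∈ S.U, (S.h K x).PosDef ∧ Submodule.span ℝ {τ | Φ x τ = x} = ⊤ := by
  obtain ⟨b, hb, hd⟩ := det_of_inj S.T_open S.T_ne (bpa7_hol S hinj)
    fun b hb b' hb' e => (S.g_sep hb hb' 0 0).1 e
  rw [← Matrix.det_transpose] at hd
  refine ⟨S.Ψ (b, 0), S.tube_mem hb 0, ?_, ?_⟩
  · obtain ⟨i, O, f, hO, hw, hf, h⟩ := S.unif (b, 0) hb
    have h0 := h _ hw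
    rw [← h0.2.1, S.h_eq hinj K h0.1 (by rw [h0.2.1]; exact S.tube_mem hb 0)]
    refine posDef_of_hq ?_ fun u hu => ?_
    · have h1 := Matrix.isHermitian_mul_mul_conjTranspose (Vf A S.g i (f (b, 0)))ᵀ
        (K.herm i _ h0.1)
      exact h1
    · rw [hq_conj]
      refine hq_pos (hK i _ h0.1) fun e => hu ?_
      rw [bpa7_field S hinj hO hf (fun s hs => ⟨(h s hs).1, (h s hs).2.1⟩) hw hb
        h0.2.2.1.2 h0.2.2.2.2, ← map_zero (fderiv ℂ f (b, 0))] at e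
      exact Matrix.eq_zero_of_mulVec_eq_zero hd (congrArg Prod.snd (h0.2.2.1.1 e))
  · obtain ⟨Λ, -, h1, h2⟩ := S.fib b hb
    refine bpa7_span hd h1 fun τ hτ => ?_
    have h3 := hF.eq (S.holU hinj) (bpa7_sol S hinj hb) τ
    rw [Matrix.mulVec_zero] at h3
    show Φ _ τ = _
    rw [h3]
    exact (h2 b hb _ 0).2 ⟨rfl, by rwa [sub_zero]⟩

end Pool.Agent.BP
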