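import Pool.Agent.K.MP_63735c_ag.C225
import Pool.Agent.K.MP_63735c_ag.C216

/-! The Hamiltonian fields of sections are null directions. -/

open scoped ComplexOrder ContDiff Matrix Topology ENNReal
open Set Metric MeasureTheory Filter

namespace Pool.Agent.BP

open Pool.Agent.SPF Pool.Agent.AB Pool.Agent.CK Pool.Agent.SE Pool.Agent.NL

variable {N n : ℕ}

theorem bpa3_wt {m : ℕ} {ψ : E N → ℝ} {z : E N} (hψ : DifferentiableAt ℝ ψ z) (a : Fin N) :
    dz a (fun w => (Real.exp (-(m * ψ w)) : ℂ)) z =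
      -(m * (Real.exp (-(m * ψ z)) : ℂ) * dr ψ z a) := by
  have h1 : HasDerivAt (fun t : ℝ => Real.exp (-(m * t))) (Real.exp (-(m * ψ z)) * -(m * 1))
      (ψ z) := (((hasDerivAt_id (ψ z)).const_mul (m : ℝ)).neg).exp
  have h2 := congrFun (dr_chain h1 hψ) a
  simp only [Pi.smul_apply, smul_eq_mul] at h2
  refine h2.trans ?_
  push_cast
  ring

theorem lev_nrm {m : ℕ} {ψ : E N → ℝ} {s : E N → ℂ} {z : E N} (hψ : ContDiffAt ℝ ∞ ψ z)
    (hs : ∀ᶠ w in 𝓝 z, DifferentiableAt ℂ s w) (a b : Fin N) :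
    lev (fun w => ‖s w‖ ^ 2 * Real.exp (-(m * ψ w))) z a b = (Real.exp (-(m * ψ z)) : ℝ) *
      (cov1 m ψ s z a * star (cov1 m ψ s z b) - m * (‖s z‖ ^ 2 : ℝ) * lev ψ z a b) := by
  obtain ⟨O, hO, hOo, hzO⟩ := _root_.eventually_nhds_iff.1 hs
  have hs1 : ContDiffAt ℝ ∞ s z :=
    ((Lib.SCV.contDiffOn_of_differentiableOn hOo fun w hw =>
      (hO w hw).differentiableWithinAt).contDiffAt (hOo.mem_nhds hzO)).restrict_scalars ℝ
  have hn : ∀ c : ℂ, ((‖c‖ ^ 2 : ℝ) : ℂ) = c * star c := fun c => by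
    rw [Complex.star_def, Complex.mul_conj']
    push_cast
    rfl
  have he : ∀ w, DifferentiableAt ℝ ψ w →
      DifferentiableAt ℝ (fun w => (Real.exp (-(m * ψ w)) : ℂ)) w := fun w hw =>
    ablev_red ((hw.const_mul (m : ℝ)).neg.exp)
  have e1 : (fun y => star (dz b (fun x => ((‖s x‖ ^ 2 * Real.exp (-(m * ψ x)) : ℝ) : ℂ)) y))
      =ᶠ[𝓝 z] fun y => s y * (Real.exp (-(m * ψ y)) : ℂ) *
        (star (dz b s y) - m * (star (s y) * star (dz b (fun x => (ψ x : ℂ)) y))) := by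
    filter_upwards [hs, ablev_ev hψ] with y h1 h2
    have h3 := h1.restrictScalars ℝ
    simp only [Complex.ofReal_mul, hn]
    rw [(dz_mul (h3.fun_mul (ablev_star h3)) (he y h2) b).1, (dz_mul h3 (ablev_star h3) b).1,
      ← (star_dz s y b).2, (dz_of_diff h1 b).2, bpa3_wt h2]
    simp only [dr, star_add, star_mul', star_neg, star_zero, star_natCast,
      Complex.star_def, Complex.conj_ofReal, Complex.conj_conj]
    ring
  have hd := hψ.differentiableAt (by simp)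
  have h1 := hs.self_of_nhds
  have h3 := h1.restrictScalars ℝ
  have h4 := ablev_star ((ablev_dz hs1 b).1.differentiableAt (by simp))
  have h5 := ablev_star ((ablev_dz (ablev_re hψ) b).1.differentiableAt (by simp))
  have h6 : dz a (fun y => star (dz b s y)) z = 0 := by
    have h7 : dzb a s =ᶠ[𝓝 z] fun _ => 0 := hs.mono fun w hw => (dz_of_diff hw a).2
    rw [← (star_dz (dz b s) z a).2, ← (ablev_comm hs1 b a).1, (dz_congr h7 b).self_of_nhds,
      (dz_const b 0).1, star_zero]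
  have h8 := (ablev_star h3).fun_mul h5
  have h9 : dz a (fun y => star (dz b (fun x => (ψ x : ℂ)) y)) z = lev ψ z a b := rfl
  refine (dz_congr e1 a).self_of_nhds.trans ?_
  rw [(dz_mul (h3.fun_mul (he z hd)) (h4.fun_sub (h8.const_mul _)) a).1,
    (dz_mul h3 (he z hd) a).1, (dz_sub h4 (h8.const_mul _) a).1, h6,
    (dz_mul (differentiableAt_const _) h8 a).1, (dz_const a _).1,
    (dz_mul (ablev_star h3) h5 a).1, ← (star_dz s z a).2, (dz_of_diff h1 a).2, h9, bpa3_wt hd, hn]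
  simp only [cov1, dr, star_sub, star_mul', star_natCast, star_zero]
  ring

theorem G_eta {C : Chart N} (hI : C.Iso) {z : E N} (hz : z ∈ C.W) :
    ∑ a, ∑ b, C.G z a b * C.η z a b = 0 := by
  have h1 : ((C.η z)ᵀ * C.G z).trace = 0 := by
    rw [Chart.G, ← Matrix.mul_assoc, ← Matrix.mul_assoc, hI z hz, Matrix.zero_mul,
      Matrix.trace_zero]
  rw [← h1, Finset.sum_comm]
  simp only [Matrix.trace, Matrix.diag_apply, Matrix.mul_apply, Matrix.transpose_apply, mul_comm]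

theorem G_vec (C : Chart N) {z : E N} (hz : z ∈ C.W) (v : E N) :
    ∑ a, ∑ b, C.G z a b * (v a * star (v b)) =
      hq (C.η z) ((C.σ z)⁻¹ *ᵥ v) ((C.σ z)⁻¹ *ᵥ v) := by
  have h1 : ((C.σ z)⁻¹)ᵀ = -(C.σ z)⁻¹ := by
    rw [Matrix.transpose_nonsing_inv, C.σ_skew z hz]
    refine Matrix.inv_eq_left_inv ?_
    rw [neg_mul_neg, Matrix.nonsing_inv_mul _ (C.σ_det z hz).isUnit]
  have h2 := hq_conj ((C.σ z)⁻¹)ᵀ (C.η z) v v
  have h3 : C.G z = ((C.σ z)⁻¹)ᵀᵀ * C.η z * ((C.σ z)⁻¹)ᵀ.map star := rfl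
  rw [← h3, h1, Matrix.neg_mulVec, ← neg_one_smul ℂ, hq_smul_left, hq_smul_right, hq_sum_eq] at h2
  simp only [star_neg, star_one, neg_mul, one_mul, neg_neg] at h2
  rw [← h2]
  exact Finset.sum_congr rfl fun a _ => Finset.sum_congr rfl fun b _ => by ring

variable {X : Type} [TopologicalSpace X] [T2Space X] [CompactSpace X] [MeasurableSpace X]
  [BorelSpace X] {A : Atlas X N} {μ : Measure X} {L : Line A} {i : A.ι} {z : E N}

theorem sec_null (hinj : ∀ i, InjOn (A.p i) (A.C i).W) (hμ : IsVolume A μ)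
    (hI : ∀ i, (A.C i).Iso) {m : ℕ} {s : A.ι → E N → ℂ} (hs : L.IsSection m s)
    (hz : z ∈ (A.C i).W) :
    (((A.C i).σ z)⁻¹ *ᵥ cov1 m (L.ψ i) (s i) z) ᵥ* (A.C i).η z = 0 := by
  obtain ⟨u, hu, hu0, hue⟩ := lap_zero hinj hμ (nrm_smooth hs)
  have key : ∀ j, ∀ y ∈ (A.C j).W, (u (A.p j y)).re = Real.exp (-(m * L.ψ j y)) *
      (hq ((A.C j).η y) (((A.C j).σ y)⁻¹ *ᵥ cov1 m (L.ψ j) (s j) y)
        (((A.C j).σ y)⁻¹ *ᵥ cov1 m (L.ψ j) (s j) y)).re := by
    intro j y hy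
    have hW := (A.C j).isOpen.mem_nhds hy
    have h1 : (fun w => nrm L m s (A.p j w)) =ᶠ[𝓝 y]
        fun w => ‖s j w‖ ^ 2 * Real.exp (-(m * L.ψ j w)) :=
      mem_of_superset hW fun w hw => nrm_eq hs hw
    have h2 : ∀ᶠ w in 𝓝 y, DifferentiableAt ℂ (s j) w :=
      mem_of_superset hW fun w hw => (hs.1 j).differentiableAt ((A.C j).isOpen.mem_nhds hw)
    have h3 := G_eta (hI j) hy
    rw [hue j y hy, (lev_congr h1).self_of_nhds, ← Complex.re_ofReal_mul, ← G_vec _ hy]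
    simp only [lev_nrm ((L.ψ_smooth j).contDiffAt hW) h2, L.lev_eq hy]
    congr 1
    rw [← sub_eq_zero, ← mul_zero (-((Real.exp (-(m * L.ψ j y)) : ℂ) * m * (‖s j y‖ ^ 2 : ℝ))),
      ← h3]
    simp only [Finset.mul_sum, ← Finset.sum_sub_distrib]
    exact Finset.sum_congr rfl fun a _ => Finset.sum_congr rfl fun b _ => by ring
  have hpos : ∀ x, 0 ≤ (u x).re := fun x => by
    obtain ⟨j, y, hy, rfl⟩ := A.cover x
    rw [key j y hy]
    exact mul_nonneg (Real.exp_pos _).le (hq_nonneg ((A.C j).η_psd y hy) _)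
  have := vol_finite hμ
  have := vol_pos hμ
  have hc : Continuous fun x => (u x).re := Complex.continuous_re.comp hu
  have hint : Integrable u μ := hu.integrable_of_hasCompactSupport (.of_compactSpace u)
  have h0 : ∫ x, (u x).re ∂μ = 0 := by
    have := integral_re (𝕜 := ℂ) hint
    rw [hu0] at this
    simpa using this
  have h1 := (integral_eq_zero_iff_of_nonneg hpos hint.re).1 h0
  have h2 := congrFun ((hc.ae_eq_iff_eq μ continuous_zero).1 h1) (A.p i z)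
  rw [key i z hz] at h2
  exact hq_null ((A.C i).η_psd z hz) ((mul_eq_zero.1 h2).resolve_left (Real.exp_pos _).ne')

theorem Sec.null (S : Sec L n) (hinj : ∀ i, InjOn (A.p i) (A.C i).W) (hμ : IsVolume A μ)
    (hI : ∀ i, (A.C i).Iso) (hz : z ∈ (A.C i).W) (hU : A.p i z ∈ S.U) :
    (Vf A S.g i z)ᵀ * (A.C i).η z = 0 ∧
      (((A.C i).σ z)⁻¹ *ᵥ dr (fun w => S.φ (A.p i w)) z) ᵥ* (A.C i).η z = 0 := by
  have h0 := (S.U_iff hz).1 hU
  have h1 := fun l => sec_null hinj hμ hI (S.sec l) hz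
  refine ⟨?_, ?_⟩
  · ext l b
    have h2 : Jg A S.g i z l = (S.s 0 i z ^ 2)⁻¹ • (S.s 0 i z • cov1 S.m (L.ψ i) (S.s l.succ i) z -
        S.s l.succ i z • cov1 S.m (L.ψ i) (S.s 0 i) z) := by
      funext a
      have h3 := S.Jg_eq hz hU l a
      simp only [Pi.smul_apply, Pi.sub_apply, smul_eq_mul, cov1]
      rw [eq_inv_mul_iff_mul_eq₀ (pow_ne_zero 2 h0), h3]
      ring
    have h4 : ((Vf A S.g i z)ᵀ * (A.C i).η z) l b =
        ((((A.C i).σ z)⁻¹ *ᵥ Jg A S.g i z l) ᵥ* (A.C i).η z) b := rfl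
    rw [h4, h2, Matrix.mulVec_smul, Matrix.mulVec_sub, Matrix.mulVec_smul, Matrix.mulVec_smul,
      Matrix.smul_vecMul, Matrix.sub_vecMul, Matrix.smul_vecMul, Matrix.smul_vecMul, h1, h1]
    simp
  · rw [S.dr_φ hz hU, Matrix.mulVec_smul, Matrix.smul_vecMul, h1, smul_zero]

end Pool.Agent.BP
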