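import Pool.Agent.K.MP_63735c_ag.C202
import Pool.Agent.P.MP_c4558b_ag.NLVol

/-! The action: first properties and local sections. -/

open scoped ComplexOrder ContDiff Matrix Topology ENNReal
open Set Metric MeasureTheory Filter

namespace Pool.Agent.BP

open Pool.Agent.SPF Pool.Agent.AB Pool.Agent.CK Pool.Agent.SE Pool.Agent.NL

variable {N n : ℕ} {X : Type} [TopologicalSpace X] {A : Atlas X N} {K : Form11 A} {L : Line A}

theorem bpb0_map {i : A.ι} {z : E N} (hz : z ∈ (A.C i).W) :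
    map (A.p i) (𝓝 z) = 𝓝 (A.p i z) := by
  refine le_antisymm ((A.cont i).continuousAt ((A.C i).isOpen.mem_nhds hz)) fun s hs => ?_
  obtain ⟨O, hO, ho, hzO⟩ := _root_.mem_nhds_iff.1
    (inter_mem (mem_map.1 hs) ((A.C i).isOpen.mem_nhds hz))
  refine mem_of_superset ((A.opn i O ho fun w hw => (hO hw).2).mem_nhds ⟨z, hzO, rfl⟩) ?_
  rintro _ ⟨w, hw, rfl⟩
  exact (hO hw).1

theorem bpb0_cont {F : Type} [TopologicalSpace F] {u : X → F} {U : Set X}
    (h : ∀ i, ∀ z ∈ (A.C i).W, A.p i z ∈ U → ContinuousAt (fun w => u (A.p i w)) z) :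
    ContinuousOn u U := by
  intro x hx
  obtain ⟨i, z, hz, rfl⟩ := A.cover x
  refine ContinuousAt.continuousWithinAt ?_
  have h1 := h i z hz hx
  unfold ContinuousAt at h1 ⊢
  rw [← bpb0_map hz]
  exact h1

/-- Two lifts of one map: injectivity of the derivative passes from one to the other. -/
theorem bpb0_inj (hinj : ∀ i, InjOn (A.p i) (A.C i).W) {i j : A.ι} {F G : E n → E N} {t : E n}
    (h : ∀ᶠ w in 𝓝 t, F w ∈ (A.C i).W ∧ G w ∈ (A.C j).W ∧ A.p i (F w) = A.p j (G w))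
    (hG : DifferentiableAt ℂ G t) (hF : Function.Injective (fderiv ℂ F t)) :
    Function.Injective (fderiv ℂ G t) := by
  have h0 := h.self_of_nhds
  obtain ⟨O, φ, h1, h2, -, h4⟩ := A.trans j i _ h0.2.1 _ h0.1 h0.2.2.symm
  have he : F =ᶠ[𝓝 t] φ ∘ G := by
    filter_upwards [h, hG.continuousAt.eventually (h1.isOpen.mem_nhds h2)] with w hw hw'
    exact hinj i hw.1 (h1.maps hw') (hw.2.2.trans (h4 _ hw').symm)
  rw [he.fderiv_eq, fderiv_comp t (h1.lin3_diff h2) hG] at hF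
  exact Function.Injective.of_comp (f := fderiv ℂ φ (G t)) hF

namespace Sys

variable (S : Sys K L n)

theorem Φ_cont : ContinuousOn (fun w : X × E n => S.Φ w.1 w.2) (S.U ×ˢ univ) := by
  rintro ⟨x, τ⟩ ⟨hx, -⟩
  obtain ⟨i, z, hz, rfl⟩ := A.cover x
  obtain ⟨j, F, hF⟩ := S.lift i z hz hx τ
  have h0 := hF.self_of_nhds
  have h1 : ContinuousAt (fun w : E N × E n => S.Φ (A.p i w.1) w.2) (z, τ) :=
    (((A.cont j).continuousAt ((A.C j).isOpen.mem_nhds h0.2.1)).comp h0.1.continuousAt).congr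
      (hF.mono fun w hw => hw.2.2.1)
  refine ContinuousAt.continuousWithinAt ?_
  unfold ContinuousAt at h1 ⊢
  rw [nhds_prod_eq, ← bpb0_map hz, ← map_id (f := 𝓝 τ), prod_map_map_eq, ← nhds_prod_eq]
  exact h1

theorem ev_U {i : A.ι} {z : E N} (hz : z ∈ (A.C i).W) (hU : A.p i z ∈ S.U) :
    ∀ᶠ w in 𝓝 z, w ∈ (A.C i).W ∧ A.p i w ∈ S.U := by
  exact ((A.cont i).isOpen_inter_preimage (A.C i).isOpen S.U_open).mem_nhds ⟨hz, hU⟩

theorem Vf_smooth {i : A.ι} {z : E N} (hz : z ∈ (A.C i).W) (hU : A.p i z ∈ S.U) (a : Fin N)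
    (l : Fin n) : (∀ᶠ w in 𝓝 z, DifferentiableAt ℂ (fun w => Vf A S.g i w a l) w) ∧
      ∀ᶠ w in 𝓝 z, DifferentiableAt ℂ (fun w => Jg A S.g i w l a) w := by
  have ho := (A.cont i).isOpen_inter_preimage (A.C i).isOpen S.U_open
  have hg : DifferentiableOn ℂ (fun w => S.g (A.p i w)) ((A.C i).W ∩ A.p i ⁻¹' S.U) :=
    fun w hw => (S.g_hol i w hw.1 hw.2).differentiableWithinAt
  have hJ : ∀ c, ∀ w ∈ (A.C i).W ∩ A.p i ⁻¹' S.U,
      DifferentiableAt ℂ (fun w => Jg A S.g i w l c) w :=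
    fun c w hw => (jac_hol ho hg l c).differentiableAt (ho.mem_nhds hw)
  refine ⟨?_, (S.ev_U hz hU).mono fun w hw => hJ a w hw⟩
  filter_upwards [S.ev_U hz hU] with w hw
  simp only [Vf, Matrix.mul_apply, Matrix.transpose_apply]
  exact DifferentiableAt.fun_sum fun c _ => (((A.C i).π_hol a c).differentiableAt
    ((A.C i).isOpen.mem_nhds hw.1)).mul (hJ c w hw)

theorem sigma_Vf {i : A.ι} {z : E N} (hz : z ∈ (A.C i).W) (u : E N) (τ : E n) :
    u ⬝ᵥ (A.C i).σ z *ᵥ (Vf A S.g i z *ᵥ τ) = (Jg A S.g i z *ᵥ u) ⬝ᵥ τ := by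
  have h1 : (A.C i).σ z * ((A.C i).σ z)⁻¹ = 1 := Chart.σ_mul_π hz
  rw [Vf, Matrix.mulVec_mulVec, ← Matrix.mul_assoc, h1, Matrix.one_mul, Matrix.mulVec_transpose,
    dotProduct_comm, ← Matrix.dotProduct_mulVec, dotProduct_comm]

theorem Vf_change {i j : A.ι} {O : Set (E N)} {φ : E N → E N} (h : IsChange (A.C i) (A.C j) O φ)
    (hp : ∀ w ∈ O, A.p j (φ w) = A.p i w) {z : E N} (hz : z ∈ O) (hU : A.p i z ∈ S.U) :
    Jg A S.g i z = Jg A S.g j (φ z) * jac φ z ∧ Vf A S.g j (φ z) = jac φ z * Vf A S.g i z := by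
  have h0 : Jg A S.g i z = Jg A S.g j (φ z) * jac φ z := by
    have he : (fun w => S.g (A.p i w)) =ᶠ[𝓝 z] (fun w => S.g (A.p j w)) ∘ φ := by
      filter_upwards [h.isOpen.mem_nhds hz] with w hw
      rw [Function.comp_apply, hp w hw]
    rw [Jg, Jg, ← lin3_jac_comp (S.g_hol j _ (h.maps hz) ((hp z hz).symm ▸ hU)) (h.lin3_diff hz)]
    simp only [jac, he.fderiv_eq]
  have h1 : (jac φ z)ᵀ * ((A.C j).σ (φ z) * jac φ z * (A.C i).π z) = 1 := by
    rw [← Chart.σ_mul_π (h.sub hz), h.σ_eq z hz]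
    simp only [Matrix.mul_assoc]
  have h2 : ((A.C j).σ (φ z))⁻¹ = jac φ z * ((A.C i).σ z)⁻¹ * (jac φ z)ᵀ := by
    refine Matrix.inv_eq_right_inv ?_
    rw [← mul_eq_one_comm.1 h1]
    simp only [Matrix.mul_assoc, Chart.π]
  refine ⟨h0, ?_⟩
  rw [Vf, Vf, h2, h0, Matrix.transpose_mul]
  simp only [Matrix.mul_assoc]

theorem hq_h {i : A.ι} {z : E N} (hz : z ∈ (A.C i).W) (hU : A.p i z ∈ S.U) (τ τ' : E n) :
    hq (S.h (A.p i z)) τ τ' = hq (K.h i z) (Vf A S.g i z *ᵥ τ) (Vf A S.g i z *ᵥ τ') := by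
  rw [S.h_eq i z hz hU, hq_conj]

theorem h_psd {x : X} (hx : x ∈ S.U) : (S.h x).PosSemidef := by
  obtain ⟨i, z, hz, rfl⟩ := A.cover x
  rw [S.h_eq i z hz hx]
  exact (S.K_pos i z hz).posSemidef.mul_mul_conjTranspose_same (Vf A S.g i z)ᵀ

theorem h_smooth {i : A.ι} {z : E N} (hz : z ∈ (A.C i).W) (hU : A.p i z ∈ S.U) (a b : Fin n) :
    ContDiffAt ℝ ∞ (fun w => S.h (A.p i w) a b) z := by
  have he : (fun w => S.h (A.p i w) a b) =ᶠ[𝓝 z] fun w =>
      ∑ d, (∑ c, Vf A S.g i w c a * K.h i w c d) * star (Vf A S.g i w d b) := by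
    filter_upwards [S.ev_U hz hU] with w hw
    rw [S.h_eq i w hw.1 hw.2]
    simp only [Matrix.mul_apply, Matrix.transpose_apply, Matrix.map_apply]
  have hV : ∀ c l, ContDiffAt ℝ ∞ (fun w => Vf A S.g i w c l) z :=
    fun c l => smoothAt_of_hol' (S.Vf_smooth hz hU c l).1
  refine ContDiffAt.congr_of_eventuallyEq ?_ he
  refine ContDiffAt.sum fun d _ => (ContDiffAt.sum fun c _ => (hV c a).mul
    ((K.smooth i c d).contDiffAt ((A.C i).isOpen.mem_nhds hz))).mul ?_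
  exact Complex.conjCLE.contDiff.contDiffAt.comp z (hV d b)

theorem h_cont (a b : Fin n) : ContinuousOn (fun x => S.h x a b) S.U := by
  exact bpb0_cont fun i z hz hU => (S.h_smooth hz hU a b).continuousAt

theorem g_cont : ContinuousOn S.g S.U ∧ ContinuousOn S.φ S.U := by
  exact ⟨bpb0_cont fun i z hz hU => (S.g_hol i z hz hU).continuousAt,
    bpb0_cont fun i z hz hU => (S.φ_smooth i z hz hU).continuousAt⟩

theorem h_pos_iff {i : A.ι} {z : E N} (hz : z ∈ (A.C i).W) (hU : A.p i z ∈ S.U) :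
    ((S.h (A.p i z)).PosDef ↔ Function.Injective (Vf A S.g i z).mulVec) ∧
      ((S.h (A.p i z)).PosDef ↔ Function.Surjective (Jg A S.g i z).mulVec) := by
  have h1 : (S.h (A.p i z)).PosDef ↔ Function.Injective (Vf A S.g i z).mulVec := by
    refine ⟨fun h τ τ' he => ?_, fun h => ?_⟩
    · by_contra hne
      have h2 := hq_pos h (sub_ne_zero.2 hne)
      rw [S.hq_h hz hU, Matrix.mulVec_sub, he, sub_self, hq_zero_left, Complex.zero_re] at h2
      exact lt_irrefl _ h2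
    · rw [S.h_eq i z hz hU]
      refine (S.K_pos i z hz).mul_mul_conjTranspose_same (B := (Vf A S.g i z)ᵀ) fun τ τ' he => h ?_
      simpa only [Matrix.vecMul_transpose] using he
  refine ⟨h1, h1.trans ⟨fun h => ?_, fun h τ τ' he => ?_⟩⟩
  · have h2 : LinearMap.ker (Matrix.toLin' (Vf A S.g i z)) = ⊥ := LinearMap.ker_eq_bot.2 h
    obtain ⟨r, hr'⟩ := LinearMap.exists_leftInverse_of_injective _ h2
    have h3 : LinearMap.toMatrix' r * Vf A S.g i z = 1 := by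
      rw [← LinearMap.toMatrix'_toLin' (Vf A S.g i z), ← LinearMap.toMatrix'_comp, hr',
        LinearMap.toMatrix'_id]
    have h4 := congrArg Matrix.transpose h3
    rw [Vf, ← Matrix.mul_assoc, Matrix.transpose_mul, Matrix.transpose_transpose,
      Matrix.transpose_one] at h4
    exact fun y => ⟨_ *ᵥ y, by rw [Matrix.mulVec_mulVec, h4, Matrix.one_mulVec]⟩
  · refine dotProduct_eq _ _ fun y => ?_
    obtain ⟨u, rfl⟩ := h y
    rw [dotProduct_comm, ← S.sigma_Vf hz, he, S.sigma_Vf hz, dotProduct_comm]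

/-- A lift of the orbit map near `0`. -/
theorem bpb0_orb {x : X} (hx : x ∈ S.U) : ∃ (j : A.ι) (F : E n → E N),
    (∀ᶠ t in 𝓝 0, DifferentiableAt ℂ F t ∧ F t ∈ (A.C j).W ∧ A.p j (F t) = S.Φ x t) ∧
    A.p j (F 0) = x ∧ (∀ τ, fderiv ℂ F 0 τ = Vf A S.g j (F 0) *ᵥ τ) ∧
    ((S.h x).PosDef ↔ Function.Injective (fderiv ℂ F 0)) := by
  obtain ⟨i, z, hz, rfl⟩ := A.cover x
  obtain ⟨j, F, hF⟩ := S.lift i z hz hx 0
  have hd : Differentiable ℂ fun t : E n => ((z, t) : E N × E n) := by fun_prop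
  have h0 := hF.self_of_nhds
  have h1 : A.p j (F (z, 0)) = A.p i z := h0.2.2.1.trans (S.Φ_zero _ hx)
  have h2 : ∀ τ, fderiv ℂ (fun t => F (z, t)) 0 τ = Vf A S.g j (F (z, 0)) *ᵥ τ := fun τ => by
    rw [← h0.2.2.2 τ]
    exact congrArg (fun D => D τ)
      (h0.1.hasFDerivAt.comp 0 (hasFDerivAt_prodMk_right z 0)).fderiv
  refine ⟨j, fun t => F (z, t), ?_, h1, h2, ?_⟩
  · filter_upwards [hd.continuous.continuousAt.eventually hF] with t ht
    exact ⟨ht.1.comp t (hd t), ht.2.1, ht.2.2.1⟩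
  · rw [← h1, (S.h_pos_iff h0.2.1 (h1.symm ▸ hx)).1, funext h2]

theorem h_pos_Φ {x : X} (hx : x ∈ S.U) (h : (S.h x).PosDef) (τ : E n) :
    (S.h (S.Φ x τ)).PosDef := by
  have hy := S.Φ_mem x hx τ
  obtain ⟨i, z, hz, hzy⟩ := A.cover (S.Φ x τ)
  rw [← hzy] at hy
  obtain ⟨j, F, hF, h1, h2, h3⟩ := S.bpb0_orb hy
  obtain ⟨k, G, hG, -, -, h6⟩ := S.bpb0_orb hx
  have hF0 := hF.self_of_nhds
  have hU : A.p j (F 0) ∈ S.U := by
    rw [h1]
    exact hy
  obtain ⟨l, P, hP⟩ := S.lift j (F 0) hF0.2.1 hU (-τ)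
  have hd : DifferentiableAt ℂ (fun t : E n => (F t, -τ)) 0 :=
    hF0.1.prodMk (differentiableAt_const _)
  have hc : DifferentiableAt ℂ (P ∘ fun t : E n => (F t, -τ)) 0 := hP.self_of_nhds.1.comp 0 hd
  have h7 := bpb0_inj S.inj (i := k) (j := l) (F := G) (G := P ∘ fun t : E n => (F t, -τ)) (t := 0)
    (by
      filter_upwards [hF, hG, hd.continuousAt.eventually hP] with t a1 a2 a3
      refine ⟨a2.2.1, a3.2.1, ?_⟩
      rw [a2.2.2, Function.comp_apply, a3.2.2.1, a1.2.2, hzy, S.Φ_add x hx, S.Φ_add x hx]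
      congr 1
      abel) hc (h6.1 h)
  rw [fderiv_comp 0 hP.self_of_nhds.1 hd] at h7
  have h8 := Function.Injective.of_comp (f := fderiv ℂ P (F 0, -τ)) h7
  rw [← hzy]
  refine h3.2 fun u u' he => h8 ?_
  rw [hF0.1.fderiv_prodMk (differentiableAt_const _)]
  simp [he]

theorem per_Φ {x : X} (hx : x ∈ S.U) (τ₀ τ : E n) :
    S.Φ (S.Φ x τ₀) τ = S.Φ x τ₀ ↔ S.Φ x τ = x := by
  refine ⟨fun h => ?_, fun h => ?_⟩
  · have h1 := congrArg (fun y => S.Φ y (-τ₀)) h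
    simp only [S.Φ_add x hx] at h1
    rwa [add_neg_cancel, S.Φ_zero x hx, show τ₀ + τ + -τ₀ = τ by abel] at h1
  · rw [S.Φ_add x hx, add_comm, ← S.Φ_add x hx, h]

theorem W_Φ {x : X} (hx : x ∈ S.W) (τ : E n) : S.Φ x τ ∈ S.W := by
  refine ⟨S.Φ_mem x hx.1 τ, S.h_pos_Φ hx.1 hx.2.1 τ, ?_⟩
  rw [← hx.2.2]
  congr 1
  ext t
  exact S.per_Φ hx.1 τ t

/-- The periods of the orbit of `x`. -/
def per {x : X} (hx : x ∈ S.U) : Submodule ℤ (E n) :=
  AddSubgroup.toIntSubmodule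
    { carrier := {τ | S.Φ x τ = x}
      add_mem' := fun {a b} ha hb => by
        change S.Φ x (a + b) = x
        rw [← S.Φ_add x hx, show S.Φ x a = x from ha, show S.Φ x b = x from hb]
      zero_mem' := S.Φ_zero x hx
      neg_mem' := fun {a} ha => by
        change S.Φ x (-a) = x
        conv_lhs => rw [← show S.Φ x a = x from ha, S.Φ_add x hx, add_neg_cancel, S.Φ_zero x hx] }

theorem mem_per {x : X} (hx : x ∈ S.U) {τ : E n} : τ ∈ S.per hx ↔ S.Φ x τ = x := Iff.rfl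

/-- A holomorphic section of `g` over `T`. -/
structure Sect (T : Set (E n)) (s : E n → X) : Prop where
  isOpen : IsOpen T
  mem : ∀ b ∈ T, s b ∈ S.U
  g_s : ∀ b ∈ T, S.g (s b) = b
  lift : ∀ b ∈ T, ∃ (i : A.ι) (F : E n → E N), ∀ᶠ c in 𝓝 b,
    DifferentiableAt ℂ F c ∧ F c ∈ (A.C i).W ∧ A.p i (F c) = s c

end Sys

end Pool.Agent.BP
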