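import Pool.Agent.K.MP_63735c_ag.C208
import Pool.Agent.K.MP_63735c_ag.C268
import Pool.Agent.K.MP_63735c_ag.C189
import Pool.Agent.K.MP_63735c_ag.C48

/-! Linear algebra of special Kähler metrics. -/

open scoped ComplexOrder ContDiff Matrix Topology ENNReal
open Set Metric MeasureTheory Filter

namespace Pool.Agent.BP

open Pool.Agent.SPF Pool.Agent.AB Pool.Agent.CK Pool.Agent.SE Pool.Agent.NL

variable {N n : ℕ} {l : Matrix (Fin n) (Fin N) ℂ} {H : Mat n}

theorem bpt11_split (hN : N = 2 * n) {lam : Matrix (Fin n) (Fin N) ℂ}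
    (hl : Function.Bijective (lt lam)) :
    ∃ M₁ M₂ : Matrix (Fin N) (Fin n) ℂ, M₁ * lam + M₂ * lam.map star = 1 ∧ lam * M₁ = 1 ∧
      lam * M₂ = 0 ∧ lam.map star * M₁ = 0 ∧ lam.map star * M₂ = 1 := by
  have h : ∀ t : Fin N → ℝ, lam *ᵥ (fun j => (t j : ℂ)) = 0 → t = 0 := fun t ht =>
    hl.1 (ht.trans (Matrix.mulVec_zero lam).symm)
  let e : Fin N ≃ Fin n ⊕ Fin n := Fintype.equivOfCardEq (by simp [hN, two_mul])
  let L : Matrix (Fin n ⊕ Fin n) (Fin N) ℂ := Matrix.fromRows lam (lam.map star)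
  have hL : ∀ c : Fin N → ℂ, L *ᵥ c = 0 → c = 0 := by
    intro c hc
    have h1 : lam *ᵥ c = 0 := funext fun a => congrFun hc (Sum.inl a)
    have h2 : lam *ᵥ star c = 0 := by
      funext a
      have := congrArg star (congrFun hc (Sum.inr a))
      simpa [L, Matrix.mulVec, dotProduct] using this
    have h3 := h (fun j => 2 * (c j).re) (by
      have : (fun j => ((2 * (c j).re : ℝ) : ℂ)) = c + star c := by
        funext j
        simp [Complex.add_conj]
      rw [this, Matrix.mulVec_add, h1, h2, add_zero])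
    have h4 := h (fun j => 2 * (c j).im) (by
      have : (fun j => ((2 * (c j).im : ℝ) : ℂ)) = (-Complex.I) • (c - star c) := by
        funext j
        simp only [Pi.smul_apply, Pi.sub_apply, Pi.star_apply, Complex.star_def, Complex.sub_conj,
          smul_eq_mul]
        linear_combination (((2 * (c j).im : ℝ) : ℂ)) * Complex.I_mul_I
      rw [this, Matrix.mulVec_smul, Matrix.mulVec_sub, h1, h2, sub_zero, smul_zero])
    funext j
    have h5 := congrFun h3 j
    have h6 := congrFun h4 j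
    simp only [Pi.zero_apply] at h5 h6
    exact Complex.ext (by simpa using h5) (by simpa using h6)
  have hu : IsUnit (L.submatrix e id) := by
    rw [← Matrix.mulVec_injective_iff_isUnit]
    intro c c' hc
    refine sub_eq_zero.1 (hL _ ?_)
    funext a
    have := congrFun hc (e.symm a)
    rw [Matrix.mulVec_sub, Pi.sub_apply, Pi.zero_apply, sub_eq_zero]
    simpa [Matrix.mulVec, dotProduct] using this
  let M : Matrix (Fin N) (Fin n ⊕ Fin n) ℂ := (L.submatrix e id)⁻¹.submatrix id e.symm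
  have h1 : M * L = 1 := by
    rw [← Matrix.nonsing_inv_mul _ ((Matrix.isUnit_iff_isUnit_det _).1 hu)]
    ext i j
    simp only [M, Matrix.mul_apply, Matrix.submatrix_apply, id]
    exact (Fintype.sum_equiv e _ _ fun a => by simp).symm
  have h2 : L * M = 1 := (Matrix.mul_eq_one_comm_of_equiv e).1 h1
  rw [← Matrix.fromCols_toCols M] at h1 h2
  rw [Matrix.fromCols_mul_fromRows] at h1
  rw [Matrix.fromRows_mul_fromCols, ← Matrix.fromBlocks_one, Matrix.fromBlocks_inj] at h2
  exact ⟨_, _, h1, h2.1, h2.2.1, h2.2.2.1, h2.2.2.2⟩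

theorem bpt11_ct {α β : Type} (A : Matrix α β ℂ) : Aᴴ = (A.map star)ᵀ := rfl

theorem bpt11_skw (l : Matrix (Fin n) (Fin N) ℂ) (H : Mat n) :
    skw l H = Complex.I • (lᵀ * H * l.map star - (l.map star)ᵀ * Hᵀ * l) := by
  simp only [skw, Matrix.transpose_mul, Matrix.transpose_transpose, Matrix.mul_assoc]

theorem skw_unit (hN : N = 2 * n) (hl : Function.Bijective (lt l)) (hH : H.PosDef) :
    IsUnit (skw l H).det ∧ (skw l H).map star = skw l H ∧
      l * (-Complex.I • (skw l H)⁻¹) * lᴴ = H⁻¹ᵀ ∧ l * (-Complex.I • (skw l H)⁻¹) * lᵀ = 0 := by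
  obtain ⟨M₁, M₂, h0, h1, h2, h3, h4⟩ := bpt11_split hN hl
  have hd : IsUnit H.det := (Matrix.isUnit_iff_isUnit_det _).1 hH.isUnit
  have hT : IsUnit Hᵀ.det := by rwa [Matrix.det_transpose]
  have hr : (skw l H).map star = skw l H := by
    have e0 : (skw l H)ᵀ = -skw l H := by
      simp only [skw, Matrix.transpose_smul, Matrix.transpose_sub, Matrix.transpose_transpose,
        ← smul_neg, neg_sub]
    have e1 : (l.map star)ᴴ = lᵀ := by
      ext i j
      simp
    have e2 : lᵀᴴ = l.map star := rfl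
    have e3 : (l.map star)ᵀᴴ = l := by
      ext i j
      simp
    have e4 : lᴴ = (l.map star)ᵀ := rfl
    have h5 : (skw l H)ᴴ = -skw l H := by
      simp only [bpt11_skw, Matrix.conjTranspose_smul, Matrix.conjTranspose_sub,
        Matrix.conjTranspose_mul, e1, e2, e3, e4, hH.1.eq, hH.1.transpose.eq, Matrix.mul_assoc]
      simp
    have h6 := congrArg Matrix.transpose h5
    rwa [bpt11_ct, Matrix.transpose_transpose, Matrix.transpose_neg, e0, neg_neg] at h6
  set b := l.map star with hb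
  let Q : Mat N := M₁ * Hᵀ⁻¹ * M₂ᵀ - M₂ * H⁻¹ * M₁ᵀ
  have a1 : l * Q = Hᵀ⁻¹ * M₂ᵀ := by
    simp only [Q, Matrix.mul_sub, ← Matrix.mul_assoc, h1, h2, Matrix.one_mul, Matrix.zero_mul,
      sub_zero]
  have a2 : b * Q = -(H⁻¹ * M₁ᵀ) := by
    simp only [Q, Matrix.mul_sub, ← Matrix.mul_assoc, h3, h4, Matrix.one_mul, Matrix.zero_mul,
      zero_sub]
  have a3 : skw l H * (Complex.I • Q) = 1 := by
    rw [bpt11_skw, ← hb, Matrix.smul_mul, Matrix.mul_smul, smul_smul, Complex.I_mul_I,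
      Matrix.sub_mul, Matrix.mul_assoc, Matrix.mul_assoc (bᵀ * Hᵀ), a1, a2, Matrix.mul_neg,
      Matrix.mul_assoc, Matrix.mul_assoc, Matrix.mul_nonsing_inv_cancel_left _ _ hd,
      Matrix.mul_nonsing_inv_cancel_left _ _ hT, ← Matrix.transpose_mul, ← Matrix.transpose_mul,
      ← Matrix.transpose_one, ← h0, Matrix.transpose_add]
    simp [add_comm]
  have a4 : -Complex.I • (skw l H)⁻¹ = Q := by
    rw [Matrix.inv_eq_right_inv a3, smul_smul]
    simp
  refine ⟨Matrix.isUnit_det_of_right_inverse a3, hr, ?_, ?_⟩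
  · rw [a4, a1, bpt11_ct, ← hb, Matrix.mul_assoc, ← Matrix.transpose_mul, h4,
      Matrix.transpose_nonsing_inv]
    simp
  · rw [a4, a1, Matrix.mul_assoc, ← Matrix.transpose_mul, h2]
    simp

theorem bpt11_cov (e : Fin N ≃ Fin n ⊕ Fin n) (l : Matrix (Fin n) (Fin N) ℂ) :
    cov l = |((Matrix.fromRows (l.map Complex.re) (l.map Complex.im)).submatrix id e.symm).det| := by
  set R := (Matrix.fromRows (l.map Complex.re) (l.map Complex.im)).submatrix id e.symm with hR
  let Ψ : E n ≃ᵐ (Fin N → ℝ) :=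
    (MeasurableEquiv.piCongrRight fun _ => Complex.measurableEquivRealProd).trans
      ((MeasurableEquiv.arrowProdEquivProdArrow ℝ ℝ (Fin n)).trans
        ((MeasurableEquiv.sumPiEquivProdPi fun _ : Fin n ⊕ Fin n => ℝ).symm.trans
          (MeasurableEquiv.arrowCongr' e.symm (MeasurableEquiv.refl ℝ))))
  have hΨ : MeasurePreserving Ψ volume volume :=
    ((volume_preserving_arrowCongr' e.symm (MeasurableEquiv.refl ℝ) (MeasurePreserving.id _)).comp
      ((volume_measurePreserving_sumPiEquivProdPi_symm fun _ : Fin n ⊕ Fin n => ℝ).comp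
        (volume_measurePreserving_arrowProdEquivProdArrow ℝ ℝ (Fin n)))).comp
      (volume_preserving_pi fun _ : Fin n => Complex.volume_preserving_equiv_real_prod)
  have h1 : ∀ t, Ψ (lt l t) = Matrix.toLin' (R.submatrix e e) t := fun t => by
    funext j
    have : Ψ (lt l t) j = Sum.elim (fun a => (lt l t a).re) (fun a => (lt l t a).im) (e j) := by
      change (MeasurableEquiv.sumPiEquivProdPi fun _ : Fin n ⊕ Fin n => ℝ).symm _ (e j) = _
      cases e j <;> rfl
    rw [this, Matrix.toLin'_apply]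
    simp only [hR, Matrix.mulVec, dotProduct, Matrix.submatrix_apply, id, Equiv.symm_apply_apply]
    cases e j <;> simp [lt, Matrix.mulVec, dotProduct]
  have h2 : lt l '' cube N = Ψ ⁻¹' (Matrix.toLin' (R.submatrix e e) '' cube N) := by
    rw [← Ψ.injective.preimage_image (lt l '' cube N), image_image]
    simp only [h1]
  rw [cov, measureReal_def, h2, hΨ.measure_preimage_equiv, Measure.addHaar_image_linearMap,
    LinearMap.det_toLin', Matrix.det_submatrix_equiv_self, cube, Real.volume_pi_Ico]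
  simp

theorem skw_det (hN : N = 2 * n) (hl : Function.Bijective (lt l)) (hH : H.PosDef) :
    (2 ^ n * cov l * H.det.re) ^ 2 = ‖(skw l H).det‖ := by
  let e : Fin N ≃ Fin n ⊕ Fin n := Fintype.equivOfCardEq (by simp [hN, two_mul])
  rw [bpt11_cov e]
  set R := (Matrix.fromRows (l.map Complex.re) (l.map Complex.im)).submatrix id e.symm with hR
  let S : Matrix (Fin n ⊕ Fin n) (Fin n ⊕ Fin n) ℂ :=
    Matrix.fromBlocks 1 (Complex.I • 1) 1 (-Complex.I • 1)
  let L := (Matrix.fromRows l (l.map star)).submatrix id e.symm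
  have h1 : L = S * Complex.ofRealHom.mapMatrix R := by
    ext a j
    cases a <;>
      simp [L, S, hR, Matrix.mul_apply, Matrix.one_apply, Complex.ext_iff]
  have h2 : (skw l H).submatrix e.symm e.symm =
      Complex.I • (Lᵀ * (Matrix.fromBlocks H 0 0 Hᵀ * -Matrix.J (Fin n) ℂ) * L) := by
    have : skw l H = Complex.I • ((Matrix.fromRows l (l.map star))ᵀ *
        (Matrix.fromBlocks H 0 0 Hᵀ * -Matrix.J (Fin n) ℂ) * Matrix.fromRows l (l.map star)) := by
      rw [bpt11_skw, Matrix.J, Matrix.fromBlocks_neg, Matrix.fromBlocks_multiply,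
        Matrix.transpose_fromRows, Matrix.fromCols_mul_fromBlocks, Matrix.fromCols_mul_fromRows]
      simp [sub_eq_add_neg, add_comm]
    rw [this]
    rfl
  have h3 : ‖(Matrix.J (Fin n) ℂ).det‖ = 1 := by
    have := congrArg norm (Matrix.J_det_mul_J_det (Fin n) ℂ)
    rw [norm_mul, norm_one] at this
    nlinarith [norm_nonneg (Matrix.J (Fin n) ℂ).det]
  have h4 : ‖S.det‖ = 2 ^ n := by
    rw [Matrix.det_fromBlocks_one₁₁, Matrix.one_mul, ← sub_smul, Matrix.det_smul, ← neg_add',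
      ← two_mul]
    simp
  have h5 : ‖H.det‖ = H.det.re := by
    have h := Complex.pos_iff.1 hH.det_pos
    rw [← Complex.abs_re_eq_norm.2 h.2.symm, abs_of_pos h.1]
  rw [← Matrix.det_submatrix_equiv_self e.symm, h2, Matrix.det_smul, Matrix.det_mul,
    Matrix.det_mul, Matrix.det_transpose, h1, Matrix.det_mul, ← RingHom.map_det, Matrix.det_mul,
    Matrix.det_neg, Matrix.det_fromBlocks_zero₂₁, Matrix.det_transpose]
  simp only [norm_mul, norm_pow, Complex.norm_I, norm_neg, norm_one, one_pow, h3, h4, h5,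
    Complex.ofRealHom_eq_coe, Complex.norm_real, Real.norm_eq_abs]
  ring

theorem col_split (hN : N = 2 * n) (hl : Function.Bijective (lt l)) (l' : Matrix (Fin n) (Fin N) ℂ) :
    ∃ A B : Mat n, l' = A * l + B * l.map star := by
  obtain ⟨M₁, M₂, h0, -⟩ := bpt11_split hN hl
  exact ⟨l' * M₁, l' * M₂, by
    rw [Matrix.mul_assoc, Matrix.mul_assoc, ← Matrix.mul_add, h0, Matrix.mul_one]⟩

theorem bpt11_curv {Q : Mat N} (hN : N = 2 * n) (hl : Function.Bijective (lt l))
    (hQ : Q.map star = -Q) (hp : (l * Q * lᴴ).PosDef) (h0 : l * Q * lᵀ = 0)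
    (l' : Matrix (Fin n) (Fin N) ℂ) :
    0 ≤ ((l * Q * lᴴ)⁻¹ * (l' * Q * lᴴ) * (l * Q * lᴴ)⁻¹ * (l * Q * l'ᴴ)).trace -
      ((l * Q * lᴴ)⁻¹ * (l' * Q * l'ᴴ)).trace := by
  obtain ⟨A, B, rfl⟩ := col_split hN hl l'
  have e1 : (l.map star)ᴴ = lᵀ := by
    ext i j
    simp
  have e2 : ∀ X : Matrix (Fin N) (Fin n) ℂ, l.map star * Q * X.map star = -(l * Q * X).map star :=
    fun X => by
      have h (a b c : ℕ) (U : Matrix (Fin a) (Fin b) ℂ) (V : Matrix (Fin b) (Fin c) ℂ) :
        (U * V).map star = U.map star * V.map star := Matrix.map_mul (f := starRingEnd ℂ)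
      rw [h, h, hQ, Matrix.mul_neg, Matrix.neg_mul, neg_neg]
  have h3 : l.map star * Q * lᴴ = 0 := by
    have := e2 lᵀ
    rw [h0, Matrix.map_zero _ (star_zero ℂ), neg_zero] at this
    exact this
  have h4 : l.map star * Q * lᵀ = -(l * Q * lᴴ)ᵀ := by
    have h := e2 lᴴ
    have h' : lᴴ.map star = lᵀ := by
      ext i j
      simp
    rw [h'] at h
    rw [h, ← hp.1.eq, bpt11_ct, Matrix.transpose_transpose, ← bpt11_ct, hp.1.eq]
  obtain ⟨G, hG⟩ : ∃ G, l * Q * lᴴ = G := ⟨_, rfl⟩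
  rw [hG] at hp h4
  have hd : IsUnit G.det := (Matrix.isUnit_iff_isUnit_det _).1 hp.isUnit
  have b1 : l * Q * (A * l + B * l.map star)ᴴ = G * Aᴴ := by
    rw [Matrix.conjTranspose_add, Matrix.conjTranspose_mul, Matrix.conjTranspose_mul, e1,
      Matrix.mul_add, ← Matrix.mul_assoc, ← Matrix.mul_assoc, hG, h0, Matrix.zero_mul, add_zero]
  have b2 : l.map star * Q * (A * l + B * l.map star)ᴴ = -(Gᵀ * Bᴴ) := by
    rw [Matrix.conjTranspose_add, Matrix.conjTranspose_mul, Matrix.conjTranspose_mul, e1,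
      Matrix.mul_add, ← Matrix.mul_assoc, ← Matrix.mul_assoc, h3, h4, Matrix.zero_mul, zero_add,
      Matrix.neg_mul]
  have b3 : ∀ X : Matrix (Fin N) (Fin n) ℂ, (A * l + B * l.map star) * Q * X =
      A * (l * Q * X) + B * (l.map star * Q * X) := fun X => by
    simp only [Matrix.add_mul, Matrix.mul_assoc]
  rw [b3, b3, b1, b2, hG, h3, Matrix.mul_zero, add_zero, Matrix.mul_assoc _ G⁻¹,
    Matrix.nonsing_inv_mul_cancel_left _ _ hd, Matrix.mul_add, Matrix.trace_add, Matrix.mul_assoc,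
    Matrix.mul_assoc A, sub_add_cancel_left, Matrix.mul_neg, Matrix.mul_neg, Matrix.trace_neg,
    neg_neg, ← Matrix.mul_assoc B]
  exact abalg_trace hp.inv.posSemidef (hp.transpose.posSemidef.mul_mul_conjTranspose_same B)

section ring

variable {R : Type} [CommRing R] [StarRing R] [Algebra ℂ R]

omit [StarRing R] in
theorem bpt11_der_mul {α β γ : Type} [Fintype β] (δ : Derivation ℂ R R) (A : Matrix α β R)
    (B : Matrix β γ R) : (A * B).map δ = A.map δ * B + A * B.map δ := by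
  ext i j
  simp only [Matrix.map_apply, Matrix.mul_apply, Matrix.add_apply, map_sum, Derivation.leibniz,
    smul_eq_mul, ← Finset.sum_add_distrib]
  exact Finset.sum_congr rfl fun k _ => by ring

omit [StarRing R] in
theorem bpt11_der_inv {α : Type} [Fintype α] [DecidableEq α] (δ : Derivation ℂ R R)
    {A P : Matrix α α R} (h : P * A = 1) : P.map δ = -(P * A.map δ * P) := by
  have h1 : (1 : Matrix α α R).map δ = 0 := by
    ext i j
    by_cases hij : i = j <;> simp [hij]
  have h2 := bpt11_der_mul δ P A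
  rw [h, h1] at h2
  have h3 := congrArg (· * P) h2
  simp only [Matrix.zero_mul, Matrix.add_mul, Matrix.mul_assoc (P.map δ),
    mul_eq_one_comm.1 h, Matrix.mul_one] at h3
  exact eq_neg_of_add_eq_zero_left h3.symm

omit [StarRing R] in
theorem bpt11_der_trace {α : Type} [Fintype α] (δ : Derivation ℂ R R) (A : Matrix α α R) :
    δ A.trace = (A.map δ).trace := by
  simp [Matrix.trace]

omit [StarRing R] in
theorem bpt11_der_det {α : Type} [Fintype α] [DecidableEq α] (δ : Derivation ℂ R R)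
    {A P : Matrix α α R} (h : P * A = 1) : δ A.det = (P * A.map δ).trace * A.det := by
  let _ : StarRing R := starRingOfComm
  have h1 : A.adjugate = A.det • P := by
    rw [← Matrix.mul_one A.adjugate, ← mul_eq_one_comm.1 h, ← Matrix.mul_assoc,
      Matrix.adjugate_mul, Matrix.smul_mul, Matrix.one_mul]
  have h2 : δ A.det = (A.adjugate * A.map δ).trace := by
    rw [der_det, Finset.sum_comm]
    rfl
  rw [h2, h1, Matrix.smul_mul, Matrix.trace_smul, smul_eq_mul, mul_comm]

theorem bpt11_ring (δ ε : Derivation ℂ R R) (h1 : ∀ x, star (δ x) = ε (star x))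
    (h2 : ∀ x, δ (ε x) = ε (δ x)) {lam : Matrix (Fin n) (Fin N) R} (h3 : lam.map ε = 0)
    {Q : Matrix (Fin N) (Fin N) R} (h4 : Q.map δ = 0) (h5 : Q.map ε = 0)
    {P : Matrix (Fin n) (Fin n) R} (h6 : P * (lam * Q * lamᴴ) = 1) {t : R}
    (h7 : t * (lam * Q * lamᴴ).det = ε (lam * Q * lamᴴ).det) :
    -δ t = (P * (lam.map δ * Q * lamᴴ) * P * (lam * Q * (lam.map δ)ᴴ)).trace -
      (P * (lam.map δ * Q * (lam.map δ)ᴴ)).trace := by
  have s1 : ∀ X : Matrix (Fin n) (Fin N) R, Xᴴ.map ε = (X.map δ)ᴴ := fun X => by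
    ext i j
    simp [h1]
  have s2 : ∀ X : Matrix (Fin n) (Fin N) R, Xᴴ.map δ = (X.map ε)ᴴ := fun X => by
    ext i j
    have := congrArg star (h1 (star (X j i)))
    simpa using this
  have s3 : (lam.map δ).map ε = 0 := by
    ext i j
    have := congrFun (congrFun h3 i) j
    simp only [Matrix.map_apply, Matrix.zero_apply] at this ⊢
    rw [← h2, this, map_zero]
  have hu : IsUnit (lam * Q * lamᴴ).det := Matrix.isUnit_det_of_left_inverse h6
  have s4 : t = (P * (lam * Q * (lam.map δ)ᴴ)).trace := by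
    refine hu.mul_right_cancel ?_
    rw [h7, bpt11_der_det ε h6, bpt11_der_mul, bpt11_der_mul, h3, h5, s1]
    simp
  rw [s4, bpt11_der_trace, bpt11_der_mul, bpt11_der_mul, bpt11_der_mul, bpt11_der_inv δ h6,
    bpt11_der_mul, bpt11_der_mul, h4, s2, s2, s3, h3]
  simp only [Matrix.mul_zero, add_zero, Matrix.conjTranspose_zero, Matrix.neg_mul,
    Matrix.trace_add, Matrix.trace_neg]
  ring

end ring

theorem bpt11_log {O : TopologicalSpace.Opens (E n)} {G F : Sm O} {g : E n → ℝ}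
    (hG : G.Rep fun y => (g y : ℂ)) (hF : F.Rep fun y => (Real.log (g y) : ℂ))
    (hg : ∀ y ∈ O, g y ≠ 0) (i : Fin n) : Sm.db i F * G = Sm.db i G := by
  ext x
  have hd : DifferentiableAt ℝ g x := by
    have := Complex.reCLM.differentiableAt.comp x.1 ((hG.contDiffAt x).differentiableAt (by simp))
    simpa [Function.comp_def] using this
  have h1 := congrFun (dr_chain (Real.hasDerivAt_log (hg x x.2)) hd) i
  rw [← star_db, ← star_db] at h1
  have h2 := congrArg star h1
  simp only [Pi.star_apply, Pi.smul_apply, smul_eq_mul, star_mul', star_star, db] at h2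
  rw [map_mul, hF.db i x, hG.db i x, hG x, h2]
  have : (g x : ℂ) ≠ 0 := Complex.ofReal_ne_zero.2 (hg x x.2)
  rw [Complex.star_def, Complex.conj_ofReal, Complex.ofReal_inv]
  field_simp

theorem ric_le {l : E n → Matrix (Fin n) (Fin N) ℂ} {Q : Mat N} {b : E n} (hN : N = 2 * n)
    (hd : ∀ a j, ∀ᶠ c in 𝓝 b, DifferentiableAt ℂ (fun c => l c a j) c)
    (hl : Function.Bijective (lt (l b))) (hQ : Q.map star = -Q) (hQ' : Qᴴ = Q)
    (hp : (l b * Q * (l b)ᴴ).PosDef) (h0 : l b * Q * (l b)ᵀ = 0) (v : E n) :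
    hr (lev (fun c => Real.log (l c * Q * (l c)ᴴ).det.re) b) v ≤ 0 := by
  have c1 : ContinuousAt l b := continuousAt_pi.2 fun a => continuousAt_pi.2 fun j =>
    (hd a j).self_of_nhds.continuousAt
  have c2 : Continuous fun X : Matrix (Fin n) (Fin N) ℂ => (X * Q * Xᴴ).det.re :=
    Complex.continuous_re.comp ((continuous_id.matrix_mul continuous_const).matrix_mul
      continuous_id.matrix_conjTranspose).matrix_det
  have c3 : ∀ᶠ c in 𝓝 b, (∀ a j, DifferentiableAt ℂ (fun c => l c a j) c) ∧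
      0 < (l c * Q * (l c)ᴴ).det.re :=
    (eventually_all.2 fun a => eventually_all.2 (hd a)).and
      ((c2.continuousAt.comp c1).eventually (lt_mem_nhds (Complex.pos_iff.1 hp.det_pos).1))
  obtain ⟨O, hO, ho, hb⟩ := _root_.eventually_nhds_iff.1 c3
  let U : TopologicalSpace.Opens (E n) := ⟨O, ho⟩
  let x : U := ⟨b, hb⟩
  have hol : ∀ a j, DifferentiableOn ℂ (fun c => l c a j) U := fun a j c hc =>
    ((hO c hc).1 a j).differentiableWithinAt
  have hre : ∀ c, ((l c * Q * (l c)ᴴ).det.re : ℂ) = (l c * Q * (l c)ᴴ).det := fun c => by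
    rw [← Complex.conj_eq_iff_re, ← Complex.star_def, ← Matrix.det_conjTranspose,
      (Matrix.isHermitian_mul_mul_conjTranspose (l c) hQ').eq]
  have hs : ∀ (D : Fin n → Derivation ℂ (Sm U) (Sm U)) (f : Sm U), (∑ a, D a) f = ∑ a, D a f :=
    fun D f => map_sum ((Pi.evalAddMonoidHom (fun _ => Sm U) f).comp
      (Derivation.coeFnAddMonoidHom (R := ℂ) (A := Sm U) (M := Sm U))) D _
  let δ : Derivation ℂ (Sm U) (Sm U) := ∑ a, v a • Sm.d a
  let ε : Derivation ℂ (Sm U) (Sm U) := ∑ a, star (v a) • Sm.db a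
  have hδ : ∀ f, δ f = ∑ a, v a • Sm.d a f := fun f => hs _ f
  have hε : ∀ f, ε f = ∑ a, star (v a) • Sm.db a f := fun f => hs _ f
  let L : Matrix (Fin n) (Fin N) (Sm U) := Matrix.of fun a j => Sm.mkH _ (hol a j)
  let Q' : Matrix (Fin N) (Fin N) (Sm U) := Q.map (algebraMap ℂ (Sm U))
  have eL : ∀ y : U, L.map (Sm.ev y) = l y := fun _ => rfl
  have eQ : ∀ y : U, Q'.map (Sm.ev y) = Q := fun y => by
    ext i j
    simp [Q']
  have eH : ∀ (y : U) (X : Matrix (Fin n) (Fin N) (Sm U)), Xᴴ.map (Sm.ev y) = (X.map (Sm.ev y))ᴴ :=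
    fun _ _ => rfl
  have eG : ∀ y : U, (L * Q' * Lᴴ).map (Sm.ev y) = l y * Q * (l y)ᴴ := fun y => by
    rw [Matrix.map_mul, Matrix.map_mul, eH, eL, eQ]
  have hG : (L * Q' * Lᴴ).det.Rep fun y => ((l y * Q * (l y)ᴴ).det.re : ℂ) := fun y => by
    rw [AlgHom.map_det, AlgHom.mapMatrix_apply, eG]
    exact (hre y).symm
  have hne : ∀ y : U, Sm.ev y (L * Q' * Lᴴ).det ≠ 0 := fun y => by
    rw [hG y]
    exact Complex.ofReal_ne_zero.2 (hO y y.2).2.ne'
  let P : Matrix (Fin n) (Fin n) (Sm U) := (L * Q' * Lᴴ).det.inv hne • (L * Q' * Lᴴ).adjugate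
  have h6 : P * (L * Q' * Lᴴ) = 1 := by
    rw [Matrix.smul_mul, Matrix.adjugate_mul, smul_smul, mul_comm, Sm.mul_inv, one_smul]
  have eP : P.map (Sm.ev x) = (l b * Q * (l b)ᴴ)⁻¹ := by
    refine (Matrix.inv_eq_left_inv ?_).symm
    rw [← eG x, ← Matrix.map_mul, h6]
    exact Matrix.map_one _ (map_zero _) (map_one _)
  have hsm : ContDiffOn ℝ ∞ (fun y => Real.log (l y * Q * (l y)ᴴ).det.re) U := by
    refine ContDiffOn.log (fun y hy => ?_) fun y hy => (hO y hy).2.ne'
    exact (Complex.reCLM.contDiff.contDiffAt.comp y (hG.contDiffAt ⟨y, hy⟩)).contDiffWithinAt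
  let F : Sm U := Sm.mk _ (ofReal_smooth hsm)
  have hF : F.Rep fun y => (Real.log (l y * Q * (l y)ᴴ).det.re : ℂ) := Sm.rep_mk _ _
  have key := bpt11_ring δ ε (fun f => by
      ext y
      simp [hδ, hε, ← Sm.star_d]) (fun f => by
      simp only [hδ, hε, map_sum, Derivation.map_smul, Sm.d_db, Finset.smul_sum, smul_smul]
      rw [Finset.sum_comm]
      simp only [mul_comm])
    (lam := L) (by
      ext1 a j
      simp [hε, L, (Sm.rep_mkH _ (hol a j)).db_eq_zero (hol a j)])
    (Q := Q') (by ext1 i j; simp [Q']) (by ext1 i j; simp [Q']) h6 (t := ε F) (by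
      simp only [hε, Finset.sum_mul, smul_mul_assoc,
        bpt11_log hG hF fun y hy => (hO y hy).2.ne'])
  have h7 : hq (lev (fun y => Real.log (l y * Q * (l y)ᴴ).det.re) b) v v = Sm.ev x (δ (ε F)) := by
    simp only [hq_sum_eq, hδ, hε, map_sum, Derivation.map_smul, map_smul, lev_apply, smul_eq_mul,
      Finset.mul_sum, ((hF.db _).d _) x]
    exact Finset.sum_congr rfl fun a _ => Finset.sum_congr rfl fun b _ => by ring
  have h8 : ∀ X : Matrix (Fin n) (Fin n) (Sm U), Sm.ev x X.trace = (X.map (Sm.ev x)).trace :=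
    fun X => by simp [Matrix.trace]
  have h9 := congrArg (Sm.ev x) key
  rw [map_neg, map_sub, h8, h8, ← h7] at h9
  simp only [Matrix.map_mul, eH, eL, eP, eQ] at h9
  have h10 := bpt11_curv hN hl hQ hp h0 ((L.map δ).map (Sm.ev x))
  rw [← h9] at h10
  simpa using (Complex.nonneg_iff.1 h10).1

theorem dual_norm (hH : H.PosDef) (v τ : E n) :
    H⁻¹ᵀ.PosDef ∧ ‖v ⬝ᵥ τ‖ ^ 2 ≤ hr H⁻¹ᵀ v * hr H τ ∧ hr H (H⁻¹ᵀ *ᵥ star v) = hr H⁻¹ᵀ v ∧
      hr H.adjugateᵀ v = H.det.re * hr H⁻¹ᵀ v := by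
  have hd : IsUnit H.det := (Matrix.isUnit_iff_isUnit_det _).1 hH.isUnit
  have h1 : ∀ u, hq H u (H⁻¹ᵀ *ᵥ star v) = u ⬝ᵥ v := fun u => by
    rw [Matrix.mulVec_transpose, hq_dual hH, star_star]
  have h2 : hr H (H⁻¹ᵀ *ᵥ star v) = hr H⁻¹ᵀ v := by
    rw [hr, h1, dotProduct_comm]
    rfl
  refine ⟨hH.inv.transpose, ?_, h2, ?_⟩
  · rw [← h2, dotProduct_comm, ← h1, mul_comm]
    generalize H⁻¹ᵀ *ᵥ star v = u
    obtain ⟨P, -, rfl⟩ := HX.sd_frame hH
    have := HX.hq_cong P 1 τ u
    rw [mul_one] at this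
    rw [hr, hr, HX.hq_frame, HX.hq_frame, this, hq, Matrix.one_mulVec]
    refine le_trans (pow_le_pow_left₀ (norm_nonneg _) (norm_sum_le _ _) 2) ?_
    simp only [norm_mul, Pi.star_apply, norm_star]
    exact Finset.sum_mul_sq_le_sq_mul_sq _ _ _
  · have h3 : H.adjugate = H.det • H⁻¹ := by
      rw [← Matrix.mul_one H.adjugate, ← Matrix.mul_nonsing_inv _ hd, ← Matrix.mul_assoc,
        Matrix.adjugate_mul, Matrix.smul_mul, Matrix.one_mul]
    rw [h3, Matrix.transpose_smul, hr, hq_smul, Complex.mul_re,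
      ← (Complex.pos_iff.1 hH.det_pos).2, zero_mul, sub_zero]

end Pool.Agent.BP
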