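import Pool.Agent.K.MP_63735c_ag.C233
import Pool.Agent.K.MP_63735c_ag.C259
import Pool.Agent.K.MP_63735c_ag.C271
import Pool.Agent.K.MP_63735c_ag.C35
import Pool.Agent.K.MP_63735c_ag.C3

/-! The Hamiltonian fields of bounded sections are null directions. -/

open scoped ComplexOrder ContDiff Matrix Topology ENNReal
open Set Metric MeasureTheory Filter

namespace Pool.Agent.ZB

open Pool.Agent.SPF Pool.Agent.AB Pool.Agent.CK Pool.Agent.SE Pool.Agent.NL Pool.Agent.BP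
  Pool.Agent.CS

variable {N : ℕ}

/-- The contraction with the dual form of `η`. -/
noncomputable def trG (C : Chart N) (z : E N) (M : Mat N) : ℝ := (∑ a, ∑ b, C.G z a b * M a b).re

theorem trG_sum (C : Chart N) {z : E N} (hz : z ∈ C.W) {κ : Type} [Fintype κ] (v : κ → E N)
    {M : Mat N} (h : ∀ a b, M a b = ∑ k, v k a * star (v k b)) :
    trG C z M = ∑ k, hr (C.η z) ((C.σ z)⁻¹ *ᵥ v k) := by
  simp only [trG, hr, ← G_vec C hz, h, Finset.mul_sum, ← Complex.re_sum]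
  congr 1
  exact (Finset.sum_congr rfl fun a _ => Finset.sum_comm).trans Finset.sum_comm

theorem trG_nonneg (C : Chart N) {z : E N} (hz : z ∈ C.W) {M : Mat N} (hM : M.IsHermitian)
    (h : ∀ v, 0 ≤ hr M v) : 0 ≤ trG C z M := by
  obtain ⟨m, v, e⟩ := Matrix.posSemidef_iff_eq_sum_vecMulVec.1 (HX.psd_of_hq hM h)
  rw [trG_sum C hz v fun a b => by simp [e, Matrix.sum_apply, Matrix.vecMulVec_apply]]
  exact Finset.sum_nonneg fun k _ => hq_nonneg (C.η_psd z hz) _

theorem trG_le (C : Chart N) {z : E N} (hz : z ∈ C.W) {M P Q : Mat N} (hM : M.IsHermitian)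
    (hP : P.IsHermitian) (hQ : Q.IsHermitian) {s t : ℝ}
    (h : ∀ v, s * hr P v + t * hr Q v ≤ hr M v) : s * trG C z P + t * trG C z Q ≤ trG C z M := by
  have r : ∀ (c : ℝ) {T : Mat N}, T.IsHermitian → ((c : ℂ) • T).IsHermitian := fun c T hT => by
    rw [Matrix.IsHermitian, Matrix.conjTranspose_smul, hT.eq]
    simp
  have h1 := trG_nonneg C hz (M := M + ((-s : ℝ) : ℂ) • P + ((-t : ℝ) : ℂ) • Q)
    ((hM.add (r _ hP)).add (r _ hQ)) fun v => by
      have := h v
      simp only [hr, hq_add, hq_smul, Complex.add_re, Complex.re_ofReal_mul] at this ⊢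
      linarith
  simp only [trG, Matrix.add_apply, Matrix.smul_apply, smul_eq_mul, mul_add,
    Finset.sum_add_distrib, mul_left_comm _ ((_ : ℝ) : ℂ), ← Finset.mul_sum, Complex.add_re,
    Complex.re_ofReal_mul] at h1 ⊢
  linarith

variable {X : Type} [TopologicalSpace X] {A : Atlas X N} {K : Form11 A}

theorem trG_bd (hK : ∀ i, ∀ z ∈ (A.C i).W, (K.h i z).PosDef) (b20 : Bd20 A K) (b11 : Bd11 A K) :
    ∃ C, 0 ≤ C ∧ ∀ i, ∀ z ∈ (A.C i).W, trG (A.C i) z (K.h i z) ≤ C := by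
  obtain ⟨C, hC, h1⟩ := b11
  obtain ⟨D, hD, h2⟩ := b20
  refine ⟨N * (C * D), by positivity, fun i z hz => ?_⟩
  obtain ⟨P, -, e⟩ := HX.sd_frame (hK i z hz)
  rw [trG_sum _ hz (fun k a => P a k) fun a b => by
    rw [e, Matrix.mul_apply]
    rfl]
  refine (Finset.sum_le_card_nsmul _ _ (C * D) fun k _ => ?_).trans_eq (by simp)
  have h3 := (le_abs_self _).trans (h1 i z hz (((A.C i).σ z)⁻¹ *ᵥ fun a => P a k))
  have h4 := h2 i z hz (((A.C i).σ z)⁻¹ *ᵥ fun a => P a k) 1 zero_le_one fun w => by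
    have h5 : (A.C i).σ z * ((A.C i).σ z)⁻¹ = 1 := Chart.σ_mul_π hz
    rw [Matrix.mulVec_mulVec, h5, Matrix.one_mulVec, bpb8_ev, hr, e, HX.hq_frame]
    have h6 : ‖(w ᵥ* P) k‖ ^ 2 ≤ ∑ j, ‖(w ᵥ* P) j‖ ^ 2 :=
      Finset.single_le_sum (f := fun j => ‖(w ᵥ* P) j‖ ^ 2) (fun _ _ => sq_nonneg _)
        (Finset.mem_univ k)
    have h7 : ‖w ⬝ᵥ fun a => P a k‖ ^ 2 = ‖(w ᵥ* P) k‖ ^ 2 := rfl
    nlinarith [sq_nonneg ‖(w ᵥ* P) k‖]
  rw [bpb8_ev] at h3
  have h8 := mul_le_mul_of_nonneg_left h4 hC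
  nlinarith [mul_nonneg hC hD]

theorem exists_chi : ∃ χ χ₁ χ₂ : ℝ → ℝ, ContDiff ℝ ∞ χ ∧ (∀ t ≤ 0, χ t = 0) ∧
    (∀ t, HasDerivAt χ (χ₁ t) t ∧ HasDerivAt χ₁ (χ₂ t) t ∧ 0 ≤ χ₁ t ∧ χ₁ t ≤ 1 ∧ 0 ≤ χ₂ t) ∧
    ∀ t, 1 ≤ t → χ₁ t = 1 := by
  have h0 : ContDiff ℝ ∞ Real.smoothTransition := Real.smoothTransition.contDiff
  have h1 : ∀ t, HasDerivAt (fun t => ∫ s in (0 : ℝ)..t, Real.smoothTransition s)
      (Real.smoothTransition t) t := fun t => (h0.continuous.integral_hasStrictDerivAt 0 t).hasDerivAt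
  refine ⟨_, _, deriv Real.smoothTransition, contDiff_infty_iff_deriv.2
    ⟨fun t => (h1 t).differentiableAt, by rw [funext fun t => (h1 t).deriv]; exact h0⟩,
    fun t ht => ?_, fun t => ⟨h1 t, (h0.differentiable (by simp) t).hasDerivAt,
      Real.smoothTransition.nonneg t, Real.smoothTransition.le_one t,
      Real.smoothTransition.monotone.deriv_nonneg⟩,
    fun t ht => Real.smoothTransition.one_of_one_le ht⟩
  refine (intervalIntegral.integral_congr (g := fun _ => 0) fun s hs => ?_).trans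
    intervalIntegral.integral_zero
  rw [uIcc_of_ge ht] at hs
  exact Real.smoothTransition.zero_of_nonpos hs.2

variable [T2Space X] [MeasurableSpace X] [BorelSpace X] {μ : Measure X} [IsFiniteMeasure μ]
  {L : Line A} {i : A.ι} {z : E N}

/-- A bounded subsolution is a solution. -/
theorem sub_zero0 (hinj : ∀ i, InjOn (A.p i) (A.C i).W) (hμ : IsVolume A μ)
    (hK : ∀ i, ∀ z ∈ (A.C i).W, (K.h i z).PosDef) (b20 : Bd20 A K) (b11 : Bd11 A K)
    (hl : ∃ l C, HX.Lam (man A hinj isOpen_univ) K.h l C) {f : X → ℝ}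
    (hf : ∀ i, ContDiffOn ℝ ∞ (fun z => f (A.p i z)) (A.C i).W) {b : ℝ}
    (hb : ∀ x, 0 ≤ f x ∧ f x ≤ b)
    (hp : ∀ i, ∀ z ∈ (A.C i).W, 0 ≤ trG (A.C i) z (lev (fun w => f (A.p i w)) z))
    (hz : z ∈ (A.C i).W) : trG (A.C i) z (lev (fun w => f (A.p i w)) z) = 0 := by
  obtain ⟨l, C, hl⟩ := hl
  obtain ⟨D, hD, hD'⟩ := trG_bd hK b20 b11
  obtain ⟨χ, χ₁, χ₂, c1, c2, c3, c4⟩ := exists_chi
  obtain ⟨u, u1, u2⟩ := lap_cont hinj hf
  have hW : ∀ i, (man A hinj isOpen_univ).W i = (A.C i).W := fun i => inter_univ _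
  have l1 : ∀ i, ContDiffOn ℝ ∞ (fun z => l (A.p i z)) (A.C i).W := fun i => hW i ▸ hl.smo i
  have l2 : Continuous l := by
    have h1 := Man.contOn (D := man A hinj isOpen_univ) (w := l) fun i => (hl.smo i).continuousOn
    rwa [man_M, continuousOn_univ] at h1
  refine (hp i z hz).antisymm' (le_of_not_gt fun h => ?_)
  obtain ⟨δ, hδ, hδ'⟩ := exists_between h
  let O : Set X := {x | δ < (u x).re} ∩ {x | l x < l (A.p i z) + 1}
  have hO : IsOpen O := (isOpen_lt continuous_const (Complex.continuous_re.comp u1)).inter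
    (isOpen_lt l2 continuous_const)
  have := vol_pos hμ
  have hμO : 0 < μ.real O := ENNReal.toReal_pos (hO.measure_ne_zero μ
    ⟨A.p i z, by rw [mem_ofPred_eq, u2 i z hz]; exact hδ', (lt_add_one _ : l _ < _)⟩)
    (measure_ne_top _ _)
  have key : ∀ ε : ℝ, 0 < ε → ε * (l (A.p i z) + 1) ≤ 1 →
      δ * μ.real O ≤ ε * (C * D * μ.real univ) := fun ε hε hε' => by
    obtain ⟨S, hS, hS'⟩ := hl.proper ((b + 1 + 1) / ε)
    have s1 : ∀ i, ContDiffOn ℝ ∞ (fun z => f (A.p i z) + (2 + -ε * l (A.p i z))) (A.C i).W :=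
      fun i => (hf i).add (contDiffOn_const.add (contDiffOn_const.mul (l1 i)))
    obtain ⟨v, v1, v2, v3⟩ := lap_zero hinj hμ (f := fun x => χ (f x + (2 + -ε * l x)))
      (fun i => c1.comp_contDiffOn (s1 i)) hS fun x hx => c2 _ (by
        have h1 := (div_lt_iff₀ hε).1 (hS' x hx)
        linarith [(hb x).2])
    have h1 : ∀ x, O.indicator (fun _ => δ) x ≤ (v x).re + ε * (C * D) := fun x => by
      obtain ⟨j, y, hy, rfl⟩ := A.cover x
      have hn := (A.C j).isOpen.mem_nhds hy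
      have a1 := (hf j).contDiffAt hn
      have a2 := (l1 j).contDiffAt hn
      have a3 := (s1 j).contDiffAt hn
      obtain ⟨-, b2, b3, b4, b5⟩ := c3 (f (A.p j y) + (2 + -ε * l (A.p j y)))
      have a4 := trG_le (A.C j) hy (lev_herm (c1.contDiffAt.comp y a3)) (lev_herm a1)
        (hK j y hy).1 (s := χ₁ (f (A.p j y) + (2 + -ε * l (A.p j y)))) (t := -(ε * C)) fun w => by
          have a5 := lev_chain (Eventually.of_forall fun t => (c3 t).1) b2 a3 w
          rw [lev_add a1 (contDiffAt_const.add (contDiffAt_const.mul a2)),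
            lev_add contDiffAt_const (contDiffAt_const.mul a2), lev_const, zero_add,
            lev_smul a2, hq_add, hq_smul, Complex.add_re, Complex.re_ofReal_mul] at a5
          have a6 := hl.le j y (hW j ▸ hy) w
          have a7 : 0 ≤ C * hr (K.h j y) w :=
            mul_nonneg hl.C_nonneg (hq_nonneg (hK j y hy).posSemidef w)
          have a8 : hr (lev (fun w => l (A.p j w)) y) w ≤ C * hr (K.h j y) w :=
            le_trans (le_add_of_nonneg_right (sq_nonneg _)) a6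
          have a9 := mul_le_mul_of_nonneg_left a8 (mul_nonneg b3 hε.le)
          have a10 := mul_le_mul_of_nonneg_right b4 (mul_nonneg hε.le a7)
          refine le_trans ?_ (a5.ge.trans' (le_add_of_nonneg_right (mul_nonneg b5 (sq_nonneg _))))
          simp only [hr] at a9 a10 ⊢
          nlinarith
      have a5 : (v (A.p j y)).re = _ := congrArg Complex.re (v3 j y hy)
      have a6 := mul_le_mul_of_nonneg_left (hD' j y hy) (mul_nonneg hε.le hl.C_nonneg)
      have a7 := mul_nonneg b3 (hp j y hy)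
      simp only [trG, Function.comp_def] at a4 a6 a7
      by_cases hx : A.p j y ∈ O
      · have a8 : δ < (u (A.p j y)).re := hx.1
        have a9 : l (A.p j y) < l (A.p i z) + 1 := hx.2
        rw [u2 j y hy] at a8
        rw [c4 _ (by nlinarith [(hb (A.p j y)).1])] at a4
        rw [indicator_of_mem hx, a5]
        linarith
      · rw [indicator_of_notMem hx, a5]
        linarith
    have h2 := integral_mono ((integrable_const δ).indicator hO.measurableSet)
      (v1.re.add (integrable_const _)) h1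
    have h3 : ∫ x, (v x).re ∂μ = 0 := by
      have := integral_re (𝕜 := ℂ) v1
      rw [v2] at this
      simpa using this
    rw [integral_indicator_const _ hO.measurableSet, integral_add' v1.re (integrable_const _),
      integral_const] at h2
    simp only [RCLike.re_to_complex, h3, smul_eq_mul] at h2
    linarith
  have h1 : Tendsto (fun ε : ℝ => ε * (C * D * μ.real univ)) (𝓝[>] 0) (𝓝 (0 * _)) :=
    (tendsto_id.mul_const _).mono_left nhdsWithin_le_nhds
  have h2 : Tendsto (fun ε : ℝ => ε * (l (A.p i z) + 1)) (𝓝[>] 0) (𝓝 (0 * _)) :=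
    (tendsto_id.mul_const _).mono_left nhdsWithin_le_nhds
  rw [zero_mul] at h1 h2
  refine (mul_pos hδ hμO).not_ge (ge_of_tendsto h1 ?_)
  filter_upwards [self_mem_nhdsWithin, h2.eventually (ge_mem_nhds one_pos)] with ε a1 a2
  exact key ε a1 a2

theorem sec_null0 (hinj : ∀ i, InjOn (A.p i) (A.C i).W) (hμ : IsVolume A μ)
    (hI : ∀ i, (A.C i).Iso) (hK : ∀ i, ∀ z ∈ (A.C i).W, (K.h i z).PosDef) (b20 : Bd20 A K)
    (b11 : Bd11 A K) (hl : ∃ l C, HX.Lam (man A hinj isOpen_univ) K.h l C) {m : ℕ}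
    {s : A.ι → E N → ℂ} (hs : L.IsSection m s) (hb : ∃ b, ∀ x, nrm L m s x ≤ b)
    (hz : z ∈ (A.C i).W) :
    (((A.C i).σ z)⁻¹ *ᵥ cov1 m (L.ψ i) (s i) z) ᵥ* (A.C i).η z = 0 := by
  obtain ⟨b, hb⟩ := hb
  have key : ∀ j, ∀ y ∈ (A.C j).W, trG (A.C j) y (lev (fun w => nrm L m s (A.p j w)) y) =
      Real.exp (-(m * L.ψ j y)) *
      (hq ((A.C j).η y) (((A.C j).σ y)⁻¹ *ᵥ cov1 m (L.ψ j) (s j) y)
        (((A.C j).σ y)⁻¹ *ᵥ cov1 m (L.ψ j) (s j) y)).re := by
    intro j y hy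
    have hW := (A.C j).isOpen.mem_nhds hy
    have h1 : (fun w => nrm L m s (A.p j w)) =ᶠ[𝓝 y]
        fun w => ‖s j w‖ ^ 2 * Real.exp (-(m * L.ψ j w)) :=
      mem_of_superset hW fun w hw => nrm_eq hs hw
    have h2 : ∀ᶠ w in 𝓝 y, DifferentiableAt ℂ (s j) w :=
      mem_of_superset hW fun w hw => (hs.1 j).differentiableAt ((A.C j).isOpen.mem_nhds hw)
    have h3 := G_eta (hI j) hy
    rw [trG, (lev_congr h1).self_of_nhds, ← Complex.re_ofReal_mul, ← G_vec _ hy]
    simp only [lev_nrm ((L.ψ_smooth j).contDiffAt hW) h2, L.lev_eq hy]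
    congr 1
    rw [← sub_eq_zero, ← mul_zero (-((Real.exp (-(m * L.ψ j y)) : ℂ) * m * (‖s j y‖ ^ 2 : ℝ))),
      ← h3]
    simp only [Finset.mul_sum, ← Finset.sum_sub_distrib]
    exact Finset.sum_congr rfl fun a _ => Finset.sum_congr rfl fun b _ => by ring
  have h2 := sub_zero0 hinj hμ hK b20 b11 hl (nrm_smooth hs)
    (fun x => ⟨sect_nonneg (nrm_norm hs) x, hb x⟩) (fun j y hy => by
      rw [key j y hy]
      exact mul_nonneg (Real.exp_pos _).le (hq_nonneg ((A.C j).η_psd y hy) _)) hz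
  rw [key i z hz] at h2
  exact hq_null ((A.C i).η_psd z hz) ((mul_eq_zero.1 h2).resolve_left (Real.exp_pos _).ne')

end Pool.Agent.ZB
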