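import Pool.Agent.K.MP_63735c_ag.C271
import Pool.Agent.K.MP_63735c_ag.C35

/-! A differential inequality along integral manifolds of commuting fields; a rank bound. -/

open scoped ComplexOrder ContDiff Matrix Topology ENNReal
open Set Metric MeasureTheory Filter

namespace Pool.Agent.ZB

open Pool.Agent.SPF Pool.Agent.AB Pool.Agent.CK Pool.Agent.SE Pool.Agent.NL Pool.Agent.BP
  Pool.Agent.CS

variable {M n : ℕ}

theorem zba4c_bd {F : Type} [NormedAddCommGroup F] {f : E M → F} {a : E M}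
    (h : ContinuousAt f a) : ∀ᶠ w in 𝓝 a, ‖f w‖ ≤ ‖f a‖ + 1 :=
  (h.norm.eventually_lt continuousAt_const (lt_add_one _)).mono fun _ hw => hw.le

set_option maxSynthPendingDepth 3 in
theorem gron_bil {Q : E M → E M →L[ℝ] E M →L[ℝ] ℝ} {W : E M → E n →L[ℂ] E M} {a : E M}
    (hQ : ContDiffAt ℝ 1 Q a) (hW : ContDiffAt ℂ 1 W a)
    (hp : ∀ u, u ≠ 0 → 0 < Q a u (Complex.I • u)) : ∃ C : ℝ, ∀ᶠ w in 𝓝 a,
      ∀ (Z : E n → E M) (t : E n), Z t = w → (∀ᶠ s in 𝓝 t, HasFDerivAt Z (W (Z s)) s) →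
        ∀ τ v, ∃ d, HasDerivAt (fun r : ℝ => Q (Z (t + r • τ)) (W (Z (t + r • τ)) v)
          (Complex.I • W (Z (t + r • τ)) v)) d 0 ∧
          -(C * ‖τ‖ * Q w (W w v) (Complex.I • W w v)) ≤ d := by
  obtain ⟨c, hc, C₀, h1⟩ := pos_near hQ.continuousAt hp
  obtain ⟨b₁, e₁⟩ : ∃ b, b = ‖Q a‖ + 1 := ⟨_, rfl⟩
  obtain ⟨b₂, e₂⟩ : ∃ b, b = ‖W a‖ + 1 := ⟨_, rfl⟩
  obtain ⟨b₃, e₃⟩ : ∃ b, b = ‖fderiv ℝ Q a‖ + 1 := ⟨_, rfl⟩
  obtain ⟨b₄, e₄⟩ : ∃ b, b = ‖fderiv ℂ W a‖ + 1 := ⟨_, rfl⟩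
  have p₁ : 0 ≤ b₁ := by rw [e₁]; positivity
  have p₂ : 0 ≤ b₂ := by rw [e₂]; positivity
  have p₃ : 0 ≤ b₃ := by rw [e₃]; positivity
  have p₄ : 0 ≤ b₄ := by rw [e₄]; positivity
  refine ⟨(b₃ * b₂ + 2 * (b₁ * b₄)) / c, ?_⟩
  filter_upwards [h1, zba4c_bd hQ.continuousAt, zba4c_bd hW.continuousAt,
    zba4c_bd (hQ.continuousAt_fderiv one_ne_zero), zba4c_bd (hW.continuousAt_fderiv one_ne_zero),
    hQ.eventually (by simp), hW.eventually (by simp)] with w a0 a1 a2 a3 a4 a5 a6 Z t e hZ τ v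
  rw [← e₁] at a1
  rw [← e₂] at a2
  rw [← e₃] at a3
  rw [← e₄] at a4
  subst e
  have d1 := (a5.differentiableAt one_ne_zero).hasFDerivAt
  have d2 := (a6.differentiableAt one_ne_zero).hasFDerivAt
  have d3 : HasDerivAt (fun r : ℝ => t + r • τ) τ 0 := by
    simpa using ((hasDerivAt_id (0 : ℝ)).smul_const τ).const_add t
  have e0 : t = t + (0 : ℝ) • τ := by simp
  have d4 : HasDerivAt (fun r : ℝ => Z (t + r • τ)) (W (Z t) τ) 0 :=
    (hZ.self_of_nhds.restrictScalars ℝ).comp_hasDerivAt_of_eq 0 d3 e0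
  have d5 : HasDerivAt (fun r : ℝ => Q (Z (t + r • τ))) (fderiv ℝ Q (Z t) (W (Z t) τ)) 0 :=
    d1.comp_hasDerivAt_of_eq 0 d4 (congrArg Z e0)
  have d6 : HasDerivAt (fun r : ℝ => W (Z (t + r • τ)) v) (fderiv ℂ W (Z t) (W (Z t) τ) v) 0 := by
    have := ((d2.clm_apply (hasFDerivAt_const v _)).restrictScalars ℝ).comp_hasDerivAt_of_eq 0 d4
      (congrArg Z e0)
    exact this.congr_deriv (by simp)
  have s1 : fderiv ℂ W (Z t) (W (Z t) τ) v = fderiv ℂ W (Z t) (W (Z t) v) τ :=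
    second_derivative_symmetric_of_eventually hZ (d2.comp t hZ.self_of_nhds) τ v
  refine ⟨_, (d5.clm_apply d6).clm_apply (d6.const_smul Complex.I), ?_⟩
  rw [← e0, s1]
  obtain ⟨u, hu⟩ : ∃ u, u = W (Z t) v := ⟨_, rfl⟩
  rw [← hu]
  have n0 : ∀ x : E M, ‖Complex.I • x‖ = ‖x‖ := fun x => by rw [norm_smul, Complex.norm_I, one_mul]
  have n1 : ‖fderiv ℂ W (Z t) u τ‖ ≤ b₄ * ‖u‖ * ‖τ‖ :=
    (ContinuousLinearMap.le_opNorm₂ _ _ _).trans (by gcongr)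
  have n2 : ‖fderiv ℝ Q (Z t) (W (Z t) τ)‖ ≤ b₃ * (b₂ * ‖τ‖) :=
    (ContinuousLinearMap.le_opNorm _ _).trans (mul_le_mul a3
      ((ContinuousLinearMap.le_opNorm _ _).trans (by gcongr)) (norm_nonneg _) p₃)
  have n3 : ‖fderiv ℝ Q (Z t) (W (Z t) τ) u (Complex.I • u)‖ ≤ b₃ * (b₂ * ‖τ‖) * ‖u‖ * ‖u‖ :=
    (ContinuousLinearMap.le_opNorm₂ _ _ _).trans (by rw [n0]; gcongr)
  have n4 : ‖Q (Z t) (fderiv ℂ W (Z t) u τ) (Complex.I • u)‖ ≤ b₁ * (b₄ * ‖u‖ * ‖τ‖) * ‖u‖ :=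
    (ContinuousLinearMap.le_opNorm₂ _ _ _).trans (by rw [n0]; gcongr)
  have n5 : ‖Q (Z t) u (Complex.I • fderiv ℂ W (Z t) u τ)‖ ≤ b₁ * ‖u‖ * (b₄ * ‖u‖ * ‖τ‖) :=
    (ContinuousLinearMap.le_opNorm₂ _ _ _).trans (by rw [n0]; gcongr)
  have n6 := mul_le_mul_of_nonneg_left (a0 u).1
    (by positivity : 0 ≤ (b₃ * b₂ + 2 * (b₁ * b₄)) / c * ‖τ‖)
  have n7 : (b₃ * b₂ + 2 * (b₁ * b₄)) / c * ‖τ‖ * (c * ‖u‖ ^ 2) =
      (b₃ * b₂ + 2 * (b₁ * b₄)) * ‖τ‖ * ‖u‖ ^ 2 := by field_simp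
  rw [add_apply]
  linarith [(abs_le.1 n3).1, (abs_le.1 n4).1, (abs_le.1 n5).1]

/-- A matrix as a continuous linear map. -/
noncomputable def ml (P : Matrix (Fin M) (Fin n) ℂ) : E n →L[ℂ] E M :=
  LinearMap.toContinuousLinearMap P.mulVecLin

theorem ml_apply (P : Matrix (Fin M) (Fin n) ℂ) (τ : E n) : ml P τ = P *ᵥ τ := rfl

theorem gron_loc {H : E M → Mat M} {P : E M → Matrix (Fin M) (Fin n) ℂ} {O : Set (E M)} {a : E M}
    (hO : IsOpen O) (ha : a ∈ O) (hH : ∀ b c, ContDiffOn ℝ ∞ (fun w => H w b c) O)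
    (hP : ∀ b c, DifferentiableOn ℂ (fun w => P w b c) O) (hp : (H a).PosDef) :
    ∃ C : ℝ, ∀ᶠ w in 𝓝 a, ∀ (Z : E n → E M) (t : E n), Z t = w →
      (∀ᶠ s in 𝓝 t, HasFDerivAt Z (ml (P (Z s))) s) → ∀ τ v, ∃ d,
        HasDerivAt (fun r : ℝ => hr ((P (Z (t + r • τ)))ᵀ * H (Z (t + r • τ)) *
          (P (Z (t + r • τ))).map star) v) d 0 ∧
          -(C * ‖τ‖ * hr ((P w)ᵀ * H w * (P w).map star) v) ≤ d := by
  have h1 : ContDiffOn ℝ 1 (fun w => e11 (H w)) O := by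
    refine contDiffOn_clm_apply.2 fun u => contDiffOn_clm_apply.2 fun v => ?_
    simp only [e11_apply, ev11, Matrix.mulVec, dotProduct]
    exact contDiffOn_const.mul (Complex.imCLM.contDiff.comp_contDiffOn (ContDiffOn.sum fun b _ =>
      contDiffOn_const.mul (ContDiffOn.sum fun c _ =>
        ((hH b c).of_le (by simp)).mul contDiffOn_const)))
  have h2 : ContDiffOn ℂ 1 (fun w => ml (P w)) O := by
    refine contDiffOn_clm_apply.2 fun u => contDiffOn_pi.2 fun b => ?_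
    simp only [ml_apply, Matrix.mulVec, dotProduct]
    exact ContDiffOn.sum fun c _ => ((Lib.SCV.contDiffOn_of_differentiableOn hO (hP b c)).of_le
      (by simp)).mul contDiffOn_const
  obtain ⟨C, h⟩ := gron_bil (h1.contDiffAt (hO.mem_nhds ha)) (h2.contDiffAt (hO.mem_nhds ha))
    fun _ hu => ev11_pos hp hu
  refine ⟨C, h.mono fun w hw Z t e hZ τ v => ?_⟩
  obtain ⟨d, h3, h4⟩ := hw Z t e hZ τ v
  simp only [e11_apply, ml_apply, bpb8_ev, hr, hq_conj] at h3 h4 ⊢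
  refine ⟨2⁻¹ * d, (h3.const_mul 2⁻¹).congr_of_eventuallyEq
    (Eventually.of_forall fun r => by ring), by linarith⟩

theorem gron_line {q : ℝ → ℝ} {C : ℝ}
    (h : ∀ r ∈ Icc (0 : ℝ) 1, ∃ d, HasDerivAt q d r ∧ -(C * q r) ≤ d) :
    q 0 ≤ Real.exp C * q 1 := by
  choose! d h1 h2 using h
  have h3 : ∀ r ∈ Icc (0 : ℝ) 1, HasDerivAt (fun r => Real.exp (C * r) * q r)
      (Real.exp (C * r) * (C * 1) * q r + Real.exp (C * r) * d r) r := fun r hr =>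
    ((hasDerivAt_id r).const_mul C).exp.mul (h1 r hr)
  have h4 := monotoneOn_of_hasDerivWithinAt_nonneg (convex_Icc (0 : ℝ) 1)
    (fun r hr => (h3 r hr).continuousAt.continuousWithinAt)
    (fun r hr => (h3 r (interior_subset hr)).hasDerivWithinAt) (fun r hr => by
      have := mul_le_mul_of_nonneg_left (h2 r (interior_subset hr)) (Real.exp_pos (C * r)).le
      linarith) (left_mem_Icc.2 zero_le_one) (right_mem_Icc.2 zero_le_one) zero_le_one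
  simpa using h4

theorem rank_ge {π : Mat M} (hπ : πᵀ = -π) {J : Matrix (Fin n) (Fin M) ℂ}
    (h0 : J * (π * Jᵀ) = 0) (hi : ∀ τ, (π * Jᵀ) *ᵥ τ = 0 → τ = 0) : 2 * n ≤ π.rank := by
  obtain ⟨g, hg⟩ := LinearMap.exists_leftInverse_of_injective (Matrix.toLin' (π * Jᵀ))
    (LinearMap.ker_eq_bot'.2 hi)
  have h1 : LinearMap.toMatrix' g * (π * Jᵀ) = 1 := by
    have h4 := congrArg LinearMap.toMatrix' hg
    rwa [LinearMap.toMatrix'_comp, LinearMap.toMatrix'_toLin', LinearMap.toMatrix'_id] at h4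
  obtain ⟨G, hG⟩ : ∃ G, G = LinearMap.toMatrix' g := ⟨_, rfl⟩
  rw [← hG] at h1
  have h2 : J * (π * Gᵀ) = -1 := by
    have := congrArg Matrix.transpose h1
    rw [Matrix.transpose_mul, Matrix.transpose_mul, Matrix.transpose_transpose, hπ,
      Matrix.transpose_one, Matrix.mul_neg, Matrix.neg_mul, Matrix.mul_assoc] at this
    exact neg_eq_iff_eq_neg.1 this
  have h3 : Function.Injective (π * Matrix.fromCols Jᵀ Gᵀ).mulVecLin := by
    refine LinearMap.ker_eq_bot.1 (LinearMap.ker_eq_bot'.2 fun x hx => ?_)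
    rw [Matrix.mulVecLin_apply, Matrix.mul_fromCols, ← Sum.elim_comp_inl_inr x,
      Matrix.fromCols_mulVec_sumElim] at hx
    have h4 := congrArg (J *ᵥ ·) hx
    simp only [Matrix.mulVec_add, Matrix.mulVec_mulVec, h0, h2, Matrix.zero_mulVec, zero_add,
      Matrix.neg_mulVec, Matrix.one_mulVec, Matrix.mulVec_zero, neg_eq_zero] at h4
    rw [h4, Matrix.mulVec_zero, add_zero] at hx
    rw [← Sum.elim_comp_inl_inr x, h4, hi _ hx]
    ext (a | a) <;> rfl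
  have h5 := LinearMap.finrank_range_of_inj h3
  have h6 := Matrix.rank_mul_le_left π (Matrix.fromCols Jᵀ Gᵀ)
  rw [Matrix.rank, h5] at h6
  simpa [two_mul] using h6

end Pool.Agent.ZB
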