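import Pool.Agent.K.MP_63735c_ag.C274
import Pool.Agent.K.MP_63735c_ag.C226
import Pool.Agent.K.MP_63735c_ag.C275

/-! The sections and their Hamiltonian fields in a local embedding. -/

open scoped ComplexOrder ContDiff Matrix Topology ENNReal
open Set Metric MeasureTheory Filter

namespace Pool.Agent.ZB

open Pool.Agent.SPF Pool.Agent.AB Pool.Agent.CK Pool.Agent.SE Pool.Agent.NL Pool.Agent.BP
  Pool.Agent.CS

variable {N n M : ℕ}

/-- The quotients. -/
noncomputable def quo (F : E M → E (n + 1)) (w : E M) : E n := fun l => F w l.succ / F w 0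

/-- The numerators of the derivatives of the quotients. -/
noncomputable def num (F : E M → E (n + 1)) (w : E M) : Matrix (Fin n) (Fin M) ℂ :=
  Matrix.of fun l a => F w 0 * jac F w l.succ a - F w l.succ * jac F w 0 a

theorem quo_diff {F : E M → E (n + 1)} {w : E M} (hF : DifferentiableAt ℂ F w) (h0 : F w 0 ≠ 0) :
    DifferentiableAt ℂ (quo F) w ∧ num F w = F w 0 ^ 2 • jac (quo F) w := by
  have h1 := fun l => hasFDerivAt_pi'.1 hF.hasFDerivAt l
  have h2 : ∀ l : Fin n, DifferentiableAt ℂ (fun w => quo F w l) w := fun l => by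
    simp only [quo, div_eq_mul_inv]
    exact (h1 _).differentiableAt.fun_mul ((h1 0).differentiableAt.fun_inv h0)
  have h3 := differentiableAt_pi.2 h2
  refine ⟨h3, ?_⟩
  ext l a
  have e : (fun w => F w l.succ) =ᶠ[𝓝 w] fun w => F w 0 * quo F w l := by
    filter_upwards [(h1 0).continuousAt.eventually_ne h0] with y hy
    rw [quo, mul_div_cancel₀ _ hy]
  have h4 := DFunLike.congr_fun ((h1 l.succ).unique
    (((h1 0).fun_mul (hasFDerivAt_pi'.1 h3.hasFDerivAt l)).congr_of_eventuallyEq e)) (Pi.single a 1)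
  have h5 : jac F w l.succ a = F w 0 * jac (quo F) w l a + quo F w l * jac F w 0 a := h4
  rw [num, Matrix.of_apply, h5, Matrix.smul_apply, smul_eq_mul,
    show F w l.succ = F w 0 * quo F w l from e.self_of_nhds]
  ring

variable {X : Type} [TopologicalSpace X] {R : Set X} {A : Atlas R N} {K : Form11 A} {L : Line A}

/-- The Kähler form and the sections near a point of the singular space. -/
structure Mdl (B : Amb R A) (K : Form11 A) (S : Sec L n) (x : X) where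
  α : B.κ
  O : Set (E (B.M α))
  H : E (B.M α) → Mat (B.M α)
  F : E (B.M α) → E (n + 1)
  C : ℝ
  mem : x ∈ B.V α
  isOpen : IsOpen O
  z_mem : B.z α x ∈ O
  H_smooth : ∀ a b, ContDiffOn ℝ ∞ (fun w => H w a b) O
  H_pos : (H (B.z α x)).PosDef
  F_hol : DifferentiableOn ℂ F O
  near : ∀ᶠ x' in 𝓝 x, ∀ i, ∀ y ∈ (A.C i).W, (A.p i y : X) = x' →
    K.h i y = (Jz B α i y)ᵀ * H (B.z α x') * (Jz B α i y).map star ∧
      ∃ e : ℂ, (∀ l, S.s l i y = F (B.z α x') l * e) ∧ ‖e‖ ^ 2 * Real.exp (-(S.m * L.ψ i y)) ≤ C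

theorem exists_mdl {B : Amb R A} (hK : KahS B K) (hN : Normal B) (hC : Cartier L) (S : Sec L n)
    (x : X) : Nonempty (Mdl B K S x) := by
  obtain ⟨M⟩ := exists_mod hK hN hC S.sec x
  have h := mem_ball_self (x := B.z M.α x) (mul_pos two_pos M.r_pos)
  exact ⟨⟨M.α, _, M.H, fun w l => M.F l w, M.C, M.sub M.mem, isOpen_ball, h, M.H_smooth,
    M.H_pos _ h, differentiableOn_pi.2 M.F_hol, mem_of_superset (M.opn.mem_nhds M.mem)
      fun x' hx i y hy e => by
        subst e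
        exact ⟨M.K_eq i y hy hx, M.e i y, fun l => M.s_eq l i y hy hx, (M.e_bd i y hy hx).2⟩⟩⟩

namespace Mdl

variable {B : Amb R A} {S : Sec L n} {x : X} (D : Mdl B K S x)

/-- The Hamiltonian fields in the ambient space. -/
noncomputable def P (w : E (B.M D.α)) : Matrix (Fin (B.M D.α)) (Fin n) ℂ :=
  (B.D D.α).π w * (jac (quo D.F) w)ᵀ

/-- Their Gram matrix. -/
noncomputable def hm (w : E (B.M D.α)) : Mat n := (D.P w)ᵀ * D.H w * (D.P w).map star

/-- Where the fields are holomorphic. -/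
def O' : Set (E (B.M D.α)) := (D.O ∩ (B.D D.α).W) ∩ (fun w => D.F w 0) ⁻¹' {0}ᶜ

theorem z_cont : ContinuousAt (B.z D.α) x :=
  (B.cont D.α).continuousAt ((B.V_open D.α).mem_nhds D.mem)

theorem F_cont (l : Fin (n + 1)) : ContinuousAt (fun x' => D.F (B.z D.α x') l) x :=
  (continuous_apply l).continuousAt.comp
    ((D.F_hol.continuousOn.continuousAt (D.isOpen.mem_nhds D.z_mem)).comp D.z_cont)

theorem O'_open : IsOpen D.O' :=
  ((continuous_apply 0).comp_continuousOn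
    (D.F_hol.continuousOn.mono inter_subset_left)).isOpen_inter_preimage
    (D.isOpen.inter (B.D D.α).isOpen) isOpen_compl_singleton

theorem quo_hol : DifferentiableOn ℂ (quo D.F) D.O' := fun _ hw =>
  (quo_diff (D.F_hol.differentiableAt (D.isOpen.mem_nhds hw.1.1)) hw.2).1.differentiableWithinAt

theorem P_hol (a : Fin (B.M D.α)) (l : Fin n) : DifferentiableOn ℂ (fun w => D.P w a l) D.O' := by
  simp only [P, Matrix.mul_apply, Matrix.transpose_apply]
  exact DifferentiableOn.fun_sum fun b _ =>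
    (((B.D D.α).π_hol a b).mono fun _ h => h.1.2).mul (jac_hol D.O'_open D.quo_hol l b)

theorem nrm_le : ∀ᶠ x' in 𝓝 x, ∀ y : R, (y : X) = x' → ∀ l,
    nrm L S.m (S.s l) y ≤ D.C * ‖D.F (B.z D.α x') l‖ ^ 2 := by
  filter_upwards [D.near] with x' h y hy l
  obtain ⟨i, w, hw, rfl⟩ := A.cover y
  obtain ⟨-, e, h1, h2⟩ := h i w hw hy
  rw [nrm_eq (S.sec l) hw, h1, norm_mul, mul_pow, mul_assoc, mul_comm]
  exact mul_le_mul_of_nonneg_right h2 (sq_nonneg _)

theorem field (hinj : ∀ i, InjOn (A.p i) (A.C i).W) : ∀ᶠ x' in 𝓝 x, x' ∈ B.V D.α ∧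
    ∀ i, ∀ y ∈ (A.C i).W, (A.p i y : X) = x' → A.p i y ∈ S.U → B.z D.α x' ∈ D.O' ∧
      Jg A S.g i y = jac (quo D.F) (B.z D.α x') * Jz B D.α i y ∧
      Jz B D.α i y * Vf A S.g i y = D.P (B.z D.α x') ∧ S.h K (A.p i y) = D.hm (B.z D.α x') := by
  filter_upwards [D.near.eventually_nhds, (B.V_open D.α).mem_nhds D.mem,
    D.z_cont.eventually (D.isOpen.mem_nhds D.z_mem)] with x' h hV hO
  refine ⟨hV, fun i y hy he hU => ?_⟩
  subst he
  have hn := (A.C i).isOpen.mem_nhds hy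
  have hc : ContinuousAt (fun w => (A.p i w : X)) y :=
    continuous_subtype_val.continuousAt.comp ((A.cont i).continuousAt hn)
  obtain ⟨h1, e, h2, -⟩ := h.self_of_nhds i y hy rfl
  have h3 : D.F (B.z D.α (A.p i y)) 0 ≠ 0 := left_ne_zero_of_mul (h2 0 ▸ (S.U_iff hy).1 hU)
  have h4 : (fun w => S.g (A.p i w)) =ᶠ[𝓝 y] quo D.F ∘ fun w => B.z D.α (A.p i w) := by
    filter_upwards [hc.eventually h, (S.holU hinj).ev hy hU] with w a1 a2
    obtain ⟨-, e', a3, -⟩ := a1 i w a2.1 rfl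
    funext l
    rw [S.g_eq a2.1, a3, a3, mul_div_mul_right _ _
      (right_ne_zero_of_mul (a3 0 ▸ (S.U_iff a2.1).1 a2.2))]
    rfl
  have h5 : Jg A S.g i y = jac (quo D.F) (B.z D.α (A.p i y)) * Jz B D.α i y := by
    rw [← lin3_jac_comp (φ := fun w => B.z D.α (A.p i w))
      (quo_diff (D.F_hol.differentiableAt (D.isOpen.mem_nhds hO)) h3).1 (B.hol D.α i y hy hV).1]
    simp only [Jg, jac, h4.fderiv_eq]
  have h6 : Jz B D.α i y * Vf A S.g i y = D.P (B.z D.α (A.p i y)) := by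
    rw [P, B.π_eq D.α i y hy hV, Vf, h5, Matrix.transpose_mul]
    simp only [Matrix.mul_assoc]
  refine ⟨⟨⟨hO, B.maps D.α hV⟩, h3⟩, h5, h6, ?_⟩
  have h7 : (Jz B D.α i y * Vf A S.g i y).map star =
      (Jz B D.α i y).map star * (Vf A S.g i y).map star := Matrix.map_mul (f := starRingEnd ℂ)
  rw [S.h_eq hinj K hy hU, h1, hm, ← h6, h7, Matrix.transpose_mul]
  simp only [Matrix.mul_assoc]

include D in
theorem h_le (hinj : ∀ i, InjOn (A.p i) (A.C i).W) : ∃ C, ∀ᶠ x' in 𝓝 x, ∀ y : R, (y : X) = x' →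
    y ∈ S.U → ∀ τ, hr (S.h K y) τ ≤ C * Real.exp (2 * S.φ y) * ‖τ‖ ^ 2 := by
  obtain ⟨r, hr0, hs⟩ := nhds_basis_closedBall.mem_iff.1
    ((D.isOpen.inter (B.D D.α).isOpen).mem_nhds ⟨D.z_mem, B.maps D.α D.mem⟩)
  have h1 : ∀ a l, ContinuousOn (fun w => ((B.D D.α).π w * (num D.F w)ᵀ) a l)
      (D.O ∩ (B.D D.α).W) := fun a l => by
    have c1 := fun l => (continuousOn_pi.1 D.F_hol.continuousOn l).mono
      (inter_subset_left (t := (B.D D.α).W))
    have c2 := fun l b => (jac_hol D.isOpen D.F_hol l b).continuousOn.mono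
      (inter_subset_left (t := (B.D D.α).W))
    simp only [num, Matrix.mul_apply, Matrix.transpose_apply, Matrix.of_apply]
    exact continuousOn_finsetSum _ fun b _ =>
      (((B.D D.α).π_hol a b).continuousOn.mono inter_subset_right).mul
        (((c1 0).mul (c2 _ b)).sub ((c1 _).mul (c2 0 b)))
  obtain ⟨b, hb0, hb⟩ := cpt_upper (isCompact_closedBall _ r)
    (h := fun w => ((B.D D.α).π w * (num D.F w)ᵀ)ᵀ * D.H w *
      ((B.D D.α).π w * (num D.F w)ᵀ).map star) fun a c => by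
      refine ContinuousOn.mono ?_ hs
      change ContinuousOn (fun w => ∑ e, (∑ d, ((B.D D.α).π w * (num D.F w)ᵀ) d a * D.H w d e) *
        star (((B.D D.α).π w * (num D.F w)ᵀ) e c)) _
      exact continuousOn_finsetSum _ fun e _ => (continuousOn_finsetSum _ fun d _ =>
        (h1 d a).mul ((D.H_smooth d e).continuousOn.mono inter_subset_left)).mul (h1 e c).star
  refine ⟨b * D.C ^ 2, ?_⟩
  filter_upwards [D.field hinj, D.nrm_le, D.z_cont.eventually (closedBall_mem_nhds _ hr0)]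
    with x' a1 a2 a3 y hy hU τ
  obtain ⟨i, w, hw, rfl⟩ := A.cover y
  obtain ⟨b1, -, -, b2⟩ := a1.2 i w hw hy hU
  have b3 := (Complex.re_le_norm _).trans (hb _ a3 τ τ).1
  obtain ⟨f, hf⟩ : ∃ f, f = D.F (B.z D.α x') 0 := ⟨_, rfl⟩
  have h3 : f ^ 2 * star (f ^ 2) = ((‖f‖ ^ 4 : ℝ) : ℂ) := by
    rw [Complex.star_def, Complex.mul_conj, Complex.normSq_eq_norm_sq, norm_pow]
    push_cast
    ring
  rw [hq_conj, (quo_diff (D.F_hol.differentiableAt (D.isOpen.mem_nhds b1.1.1)) b1.2).2, ← hf,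
    Matrix.transpose_smul, Matrix.mul_smul, Matrix.smul_mulVec, hq_smul_left, hq_smul_right,
    ← mul_assoc (f ^ 2), h3, Complex.re_ofReal_mul, ← hq_conj] at b3
  have b4 : ‖f‖ ^ 4 * hr (S.h K (A.p i w)) τ ≤ b * ‖τ‖ * ‖τ‖ := b2 ▸ b3
  have b5 : Real.exp (-S.φ (A.p i w)) ≤ D.C * ‖f‖ ^ 2 := by
    rw [S.φ_eq hw hU, ← nrm_eq (S.sec 0) hw, hf]
    exact a2 _ hy 0
  have b6 : Real.exp (2 * S.φ (A.p i w)) * Real.exp (-S.φ (A.p i w)) ^ 2 = 1 := by
    rw [← Real.exp_nat_mul, ← Real.exp_add]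
    simp
  have b7 := mul_le_mul_of_nonneg_left (pow_le_pow_left₀ (Real.exp_pos _).le b5 2)
    (Real.exp_pos (2 * S.φ (A.p i w))).le
  rcases le_total (hr (S.h K (A.p i w)) τ) 0 with b8 | b8
  · exact b8.trans (by positivity)
  · have b9 := mul_le_mul_of_nonneg_right b7 b8
    have b10 := mul_le_mul_of_nonneg_left b4
      (mul_nonneg (Real.exp_pos (2 * S.φ (A.p i w))).le (sq_nonneg D.C))
    rw [b6] at b9
    linarith

end Mdl

variable [CompactSpace X] {B : Amb R A} {S : Sec L n}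

theorem mdl_h_le (hD : ∀ x, Nonempty (Mdl B K S x)) (hinj : ∀ i, InjOn (A.p i) (A.C i).W) :
    ∃ C, ∀ y ∈ S.U, ∀ τ, hr (S.h K y) τ ≤ C * Real.exp (2 * S.φ y) * ‖τ‖ ^ 2 := by
  obtain ⟨C, -, h⟩ := cpt_unif (X := X) (fun C x => ∀ y : R, (y : X) = x → y ∈ S.U →
    ∀ τ, hr (S.h K y) τ ≤ C * Real.exp (2 * S.φ y) * ‖τ‖ ^ 2)
    (fun _ _ _ hC h y hy hU τ => (h y hy hU τ).trans (by gcongr)) fun x => (hD x).some.h_le hinj
  exact ⟨C, fun y => h y y rfl⟩

end Pool.Agent.ZB
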