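import Pool.Agent.K.MP_63735c_ag.C202

/-! The integrable system on a space that need not be compact (not in any statement). -/

open scoped ComplexOrder ContDiff Matrix Topology ENNReal
open Set Metric MeasureTheory Filter

namespace Pool.Agent.ZB

open Pool.Agent.BP Pool.Agent.SPF Pool.Agent.AB Pool.Agent.CK Pool.Agent.SE

variable {N n : ℕ} {X : Type} [TopologicalSpace X]

/-- The integrable system given by the sections (output of part A). -/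
structure Sys {A : Atlas X N} (K : Form11 A) (L : Line A) (n : ℕ) where
  U : Set X
  g : X → E n
  φ : X → ℝ
  m : ℕ
  s₀ : A.ι → E N → ℂ
  Φ : X → E n → X
  h : X → Mat n
  hN : N = 2 * n
  n_pos : 1 ≤ n
  inj : ∀ i, InjOn (A.p i) (A.C i).W
  K_pos : ∀ i, ∀ z ∈ (A.C i).W, (K.h i z).PosDef
  U_open : IsOpen U
  m_pos : 1 ≤ m
  sec : L.IsSection m s₀
  φ_eq : ∀ i, ∀ z ∈ (A.C i).W, A.p i z ∈ U →
    Real.exp (-φ (A.p i z)) = ‖s₀ i z‖ ^ 2 * Real.exp (-(m * L.ψ i z))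
  φ_smooth : ∀ i, ∀ z ∈ (A.C i).W, A.p i z ∈ U → ContDiffAt ℝ ∞ (fun w => φ (A.p i w)) z
  φ_lev : ∀ i, ∀ z ∈ (A.C i).W, A.p i z ∈ U →
    lev (fun w => φ (A.p i w)) z = (m : ℂ) • (A.C i).η z
  g_hol : ∀ i, ∀ z ∈ (A.C i).W, A.p i z ∈ U → DifferentiableAt ℂ (fun w => g (A.p i w)) z
  h_eq : ∀ i, ∀ z ∈ (A.C i).W, A.p i z ∈ U →
    h (A.p i z) = (Vf A g i z)ᵀ * K.h i z * (Vf A g i z).map star
  poi : ∀ i, ∀ z ∈ (A.C i).W, A.p i z ∈ U → Jg A g i z * Vf A g i z = 0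
  null : ∀ i, ∀ z ∈ (A.C i).W, A.p i z ∈ U → (Vf A g i z)ᵀ * (A.C i).η z = 0
  Φ_zero : ∀ x ∈ U, Φ x 0 = x
  Φ_add : ∀ x ∈ U, ∀ τ τ', Φ (Φ x τ) τ' = Φ x (τ + τ')
  Φ_mem : ∀ x ∈ U, ∀ τ, Φ x τ ∈ U
  g_Φ : ∀ x ∈ U, ∀ τ, g (Φ x τ) = g x
  φ_Φ : ∀ x ∈ U, ∀ τ, φ (Φ x τ) = φ x
  lift : ∀ i, ∀ z ∈ (A.C i).W, A.p i z ∈ U → ∀ τ, ∃ (j : A.ι) (F : E N × E n → E N),
    ∀ᶠ w in 𝓝 (z, τ), DifferentiableAt ℂ F w ∧ F w ∈ (A.C j).W ∧
      A.p j (F w) = Φ (A.p i w.1) w.2 ∧ ∀ τ', fderiv ℂ F w (0, τ') = Vf A g j (F w) *ᵥ τ'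
  reg : ∃ x ∈ U, (h x).PosDef ∧ Submodule.span ℝ {τ | Φ x τ = x} = ⊤

variable {A : Atlas X N} {K : Form11 A} {L : Line A}

/-- `η` and the Poisson tensor are bounded for `K`. -/
def FB {A : Atlas X N} (K : Form11 A) : Prop :=
  ∃ C : ℝ, 0 < C ∧ ∀ i, ∀ z ∈ (A.C i).W, ∀ v,
    hr ((A.C i).η z) v ≤ C * hr (K.h i z) v ∧
      hr (K.h i z) (((A.C i).σ z)⁻¹ *ᵥ (K.h i z *ᵥ star v)) ≤ C * hr (K.h i z) v

/-- The bounds that replace the compactness of the space. -/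
class Sys.Bd (S : Sys K L n) : Prop where
  reg_cpt : ∀ c δ : ℝ, 0 < δ → IsCompact {x | x ∈ S.U ∧ S.φ x ≤ c ∧ δ ≤ (S.h x).det.re}
  φ_bd : ∃ c, ∀ x ∈ S.U, c ≤ S.φ x
  h_le : ∃ C, ∀ x ∈ S.U, ∀ τ, hr (S.h x) τ ≤ C * Real.exp (2 * S.φ x) * ‖τ‖ ^ 2
  fb : FB K

/-- The union of the regular compact orbits. -/
def Sys.W (S : Sys K L n) : Set X :=
  {x | x ∈ S.U ∧ (S.h x).PosDef ∧ Submodule.span ℝ {τ | S.Φ x τ = x} = ⊤}

/-- The space of regular compact orbits (output of B1). -/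
structure Base (S : Sys K L n) (Y : Type) [TopologicalSpace Y] extends Man Y n where
  f : X → Y
  γ : Y → E n
  s : ι → E n → X
  lam : ι → E n → Matrix (Fin n) (Fin N) ℂ
  cover : ∀ y, ∃ k, ∃ b ∈ W k, p k b = y
  convex : ∀ k, Convex ℝ (W k)
  γ_p : ∀ k, ∀ b ∈ W k, γ (p k b) = b
  γ_f : ∀ x ∈ S.W, γ (f x) = S.g x
  W_open : IsOpen S.W
  W_inv : ∀ x ∈ S.W, ∀ τ, S.Φ x τ ∈ S.W
  f_cont : ContinuousOn f S.W
  f_open : ∀ O, IsOpen O → O ⊆ S.W → IsOpen (f '' O)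
  f_eq : ∀ x ∈ S.W, ∀ y ∈ S.W, f x = f y ↔ ∃ τ, y = S.Φ x τ
  f_proper : ∀ C, IsCompact C → IsCompact (S.W ∩ f ⁻¹' C)
  s_mem : ∀ k, ∀ b ∈ W k, s k b ∈ S.W
  f_s : ∀ k, ∀ b ∈ W k, f (s k b) = p k b
  s_lift : ∀ k, ∀ b ∈ W k, ∃ (i : A.ι) (F : E n → E N), ∀ᶠ c in 𝓝 b,
    DifferentiableAt ℂ F c ∧ F c ∈ (A.C i).W ∧ A.p i (F c) = s k c
  lam_hol : ∀ k a j, DifferentiableOn ℂ (fun b => lam k b a j) (W k)
  lam_bij : ∀ k, ∀ b ∈ W k, Function.Bijective (lt (lam k b))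
  lam_per : ∀ k, ∀ b ∈ W k, ∀ τ, S.Φ (s k b) τ = s k b ↔
    ∃ t : Fin N → ℤ, τ = lt (lam k b) fun j => (t j : ℝ)

namespace Base

variable {S : Sys K L n} {Y : Type} [TopologicalSpace Y] (B : Base S Y)

/-- A chart around `y`. -/
noncomputable def ch (y : Y) : B.ι := (B.cover y).choose

/-- The torus over `b` in real coordinates. -/
noncomputable def Θ (k : B.ι) (b : E n) (t : Fin N → ℝ) : X := S.Φ (B.s k b) (lt (B.lam k b) t)

/-- The fibre over `y`. -/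
def fib (y : Y) : Set X := S.W ∩ B.f ⁻¹' {y}

/-- The invariant probability measure on the fibre. -/
noncomputable def fm [MeasurableSpace X] (y : Y) : Measure X :=
  (volume.restrict (cube N)).map (B.Θ (B.ch y) (B.γ y))

/-- The covolume of the period lattice. -/
noncomputable def vol (y : Y) : ℝ := cov (B.lam (B.ch y) (B.γ y))

/-- The average of the Kähler form on the fibre. -/
noncomputable def H [MeasurableSpace X] (y : Y) : Mat n :=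
  Matrix.of fun a b => ∫ x, S.h x a b ∂B.fm y

/-- The special Kähler metric. -/
noncomputable def om [MeasurableSpace X] (y : Y) : Mat n := (B.H y)⁻¹ᵀ

/-- The function on the base given by an invariant function. -/
noncomputable def dn {F : Type} (u : X → F) (y : Y) : F := u (B.s (B.ch y) (B.γ y))

/-- The image of the volume measure. -/
noncomputable def ν [MeasurableSpace X] [MeasurableSpace Y] (μ : Measure X) : Measure Y :=
  (μ.restrict S.W).map B.f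

end Base

variable {Y : Type} [TopologicalSpace Y] [MeasurableSpace Y]

/-- The base with all the facts of part B. -/
structure Kit [MeasurableSpace X] (S : Sys K L n) (μ : Measure X) (Y : Type) [TopologicalSpace Y]
    [MeasurableSpace Y] extends Base S Y where
  ψ : Y → ℝ
  c₀ : ℝ
  C : ℝ
  c₀_pos : 0 < c₀
  C_pos : 0 < C
  fin : IsFiniteMeasure (toBase.ν μ)
  c_eq : ∀ y, toBase.vol y * (toBase.H y).det.re = c₀
  kah : ∀ k, Kah (W k) fun b => toBase.om (p k b)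
  ric : ∀ k, ∀ b ∈ W k, ∀ v, hr (lev (fun c => Real.log (toBase.om (p k c)).det.re) b) v ≤ 0
  den : toMan.Den (toBase.ν μ) fun k b => -Real.log (c₀ * (toBase.om (p k b)).det.re)
  φ_smo : toMan.Smo (toBase.dn S.φ)
  φ_psh : ∀ k, ∀ b ∈ W k, ∀ v, 0 ≤ hr (toMan.levG (toBase.dn S.φ) k b) v
  φ_le : ∀ k, ∀ b ∈ W k, ∀ v,
    hr (toMan.levG (toBase.dn S.φ) k b) v ≤ C * hr (toBase.om (p k b)) v
  ψ_smo : toMan.Smo ψ
  ψ_le : ∀ y, ψ y ≤ -1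
  ψ_psh : ∀ k, ∀ b ∈ W k, ∀ v,
    -(C * hr (toMan.levG (toBase.dn S.φ) k b) v) ≤ hr (toMan.levG ψ k b) v
  ψ_cpt : ∀ c, IsCompact {y | -c ≤ ψ y}
  pol : PolX A S.W fun x => ψ (f x)

/-- The data on the base. -/
noncomputable def Kit.D [MeasurableSpace X] {S : Sys K L n} {μ : Measure X} (T : Kit S μ Y) :
    YD Y n where
  toMan := T.toMan
  γ := T.γ
  om := T.om
  φ := T.dn S.φ
  ψ := T.ψ
  ν := T.ν μ
  c₀ := T.c₀
  C := T.C
  n_pos := S.n_pos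
  cover := T.cover
  γ_p := T.γ_p
  c₀_pos := T.c₀_pos
  C_pos := T.C_pos
  fin := T.fin
  kah := T.kah
  ric := T.ric
  den := T.den
  φ_smo := T.φ_smo
  φ_psh := T.φ_psh
  φ_le := T.φ_le
  ψ_smo := T.ψ_smo
  ψ_le := T.ψ_le
  ψ_psh := T.ψ_psh
  ψ_cpt := T.ψ_cpt

end Pool.Agent.ZB
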