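import Pool.Agent.K.MP_63735c_ag.C278
import Pool.Agent.P.MP_63735c_ag.SPFlow

/-! The action near a regular orbit. -/

open scoped ComplexOrder ContDiff Matrix Topology
open Set Metric Filter

namespace Pool.Agent.ZB

open Pool.Agent.BP Pool.Agent.SPF Pool.Agent.AB Pool.Agent.CK Pool.Agent.SE

variable {N n : ℕ} {X : Type} [TopologicalSpace X] {A : Atlas X N} {K : Form11 A} {L : Line A}

theorem b1_inv {P Q : Type} [NormedAddCommGroup P] [NormedSpace ℂ P] [FiniteDimensional ℂ P]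
    [NormedAddCommGroup Q] [NormedSpace ℂ Q] [FiniteDimensional ℂ Q] {f : P → Q} {a : P}
    (hf : ∀ᶠ x in 𝓝 a, DifferentiableAt ℂ f x) (hb : Function.Bijective (fderiv ℂ f a)) :
    ∃ κ : Q → P, κ (f a) = a ∧ (∀ᶠ y in 𝓝 (f a), DifferentiableAt ℂ κ y ∧ f (κ y) = y) ∧
      (∀ᶠ x in 𝓝 a, κ (f x) = x) ∧ map f (𝓝 a) = 𝓝 (f a) := by
  have := FiniteDimensional.complete ℂ P
  have := FiniteDimensional.complete ℂ Q
  obtain ⟨O, hO, ho, ha⟩ := _root_.eventually_nhds_iff.1 hf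
  have h1 : ContDiffAt ℂ 1 f a :=
    ((flow_smooth ho fun x hx => (hO x hx).differentiableWithinAt).contDiffAt
      (ho.mem_nhds ha)).of_le (by exact_mod_cast le_top)
  let D : P ≃L[ℂ] Q :=
    (LinearEquiv.ofBijective (fderiv ℂ f a : P →ₗ[ℂ] Q) hb).toContinuousLinearEquiv
  have hD : HasFDerivAt f (D : P →L[ℂ] Q) a := by
    rw [show (D : P →L[ℂ] Q) = fderiv ℂ f a by ext; rfl]
    exact hf.self_of_nhds.hasFDerivAt
  have hs := h1.hasStrictFDerivAt' hD one_ne_zero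
  refine ⟨h1.localInverse hD one_ne_zero, h1.localInverse_apply_image hD _, ?_,
    hs.eventually_left_inverse, hs.map_nhds_eq_of_equiv⟩
  filter_upwards [(h1.to_localInverse hD one_ne_zero).eventually (by simp),
    hs.eventually_right_inverse] with y h2 h3
  exact ⟨h2.differentiableAt one_ne_zero, h3⟩

theorem b1_jac {M : ℕ} (φ : E M → E N) (z v : E M) : jac φ z *ᵥ v = fderiv ℂ φ z v := by
  have hv : v = ∑ a, v a • (Pi.single a 1 : E M) := by
    ext b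
    simp [Finset.sum_apply, Pi.single_apply]
  conv_rhs => rw [hv, map_sum]
  ext c
  simp [jac, Matrix.mulVec, dotProduct, Finset.sum_apply, mul_comm]

theorem b1_pcont {i : A.ι} {z : E N} (hz : z ∈ (A.C i).W) : ContinuousAt (A.p i) z :=
  (A.cont i).continuousAt ((A.C i).isOpen.mem_nhds hz)

theorem b1_map {i : A.ι} {z : E N} (hz : z ∈ (A.C i).W) : map (A.p i) (𝓝 z) = 𝓝 (A.p i z) := by
  refine le_antisymm (b1_pcont hz) fun s hs => ?_
  obtain ⟨O, h1, h2, h3⟩ := _root_.mem_nhds_iff.1 (inter_mem hs ((A.C i).isOpen.mem_nhds hz))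
  refine _root_.mem_nhds_iff.2
    ⟨A.p i '' O, ?_, A.opn i O h2 fun w hw => (h1 hw).2, mem_image_of_mem _ h3⟩
  rintro _ ⟨w, hw, rfl⟩
  exact (h1 hw).1

/-- `f` is a holomorphic lift of `c` near `t`. -/
def Lft {P : Type} [NormedAddCommGroup P] [NormedSpace ℂ P] (A : Atlas X N) (c : P → X) (t : P)
    (i : A.ι) (f : P → E N) : Prop :=
  ∀ᶠ s in 𝓝 t, DifferentiableAt ℂ f s ∧ f s ∈ (A.C i).W ∧ A.p i (f s) = c s

section
variable {P : Type} [NormedAddCommGroup P] [NormedSpace ℂ P] {c : P → X} {t : P} {i j : A.ι}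
  {f f' : P → E N}

theorem Lft.cont (h : Lft A c t i f) : ContinuousAt c t :=
  ((b1_pcont h.self_of_nhds.2.1).comp h.self_of_nhds.1.continuousAt).congr
    (h.mono fun _ hs => hs.2.2)

theorem Lft.move (h : Lft A c t i f) {y : E N} (hy : y ∈ (A.C j).W) (he : A.p j y = c t) :
    ∃ φ : E N → E N, φ (f t) = y ∧ DifferentiableAt ℂ φ (f t) ∧ Lft A c t j (φ ∘ f) := by
  obtain ⟨h1, h2, h3⟩ := h.self_of_nhds
  obtain ⟨O, φ, a1, a2, a3, a4⟩ := A.trans i j (f t) h2 y hy (h3.trans he.symm)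
  refine ⟨φ, a3, a1.hol.differentiableAt (a1.isOpen.mem_nhds a2), ?_⟩
  filter_upwards [h, h1.continuousAt.eventually (a1.isOpen.mem_nhds a2)] with s hs hO
  exact ⟨(a1.hol.differentiableAt (a1.isOpen.mem_nhds hO)).comp s hs.1, a1.maps hO,
    (a4 _ hO).trans hs.2.2⟩

theorem Lft.ker (hinj : ∀ i, InjOn (A.p i) (A.C i).W) (h : Lft A c t i f) (h' : Lft A c t j f')
    {v : P} (hv : fderiv ℂ f t v = 0) : fderiv ℂ f' t v = 0 := by
  obtain ⟨φ, -, a2, a3⟩ := h.move h'.self_of_nhds.2.1 h'.self_of_nhds.2.2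
  have he : f' =ᶠ[𝓝 t] φ ∘ f := by
    filter_upwards [h', a3] with s h1 h2
    exact hinj j h1.2.1 h2.2.1 (h1.2.2.trans h2.2.2.symm)
  rw [he.fderiv_eq, fderiv_comp t a2 h.self_of_nhds.1, ContinuousLinearMap.comp_apply, hv, map_zero]

end

namespace Sys

variable (S : Sys K L n)

theorem b1_pos_iff {i : A.ι} {z : E N} (hz : z ∈ (A.C i).W) (hU : A.p i z ∈ S.U) :
    (S.h (A.p i z)).PosDef ↔ ∀ v, Vf A S.g i z *ᵥ v = 0 → v = 0 := by
  have e : (Vf A S.g i z)ᵀ = ((Vf A S.g i z).map star)ᴴ := by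
    ext a b
    simp
  have e2 : ∀ v, (Vf A S.g i z).map star *ᵥ star v = star (Vf A S.g i z *ᵥ v) := fun v => by
    ext a
    simp [Matrix.mulVec, dotProduct]
  rw [S.h_eq i z hz hU]
  constructor
  · intro h v hv
    by_contra h0
    have := h.dotProduct_mulVec_pos (x := star v) (by simpa using h0)
    rw [← Matrix.mulVec_mulVec, e2, hv] at this
    simp at this
  · intro h
    rw [e]
    refine (S.K_pos i z hz).conjTranspose_mul_mul_same ?_
    intro u w huw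
    have h1 : (Vf A S.g i z).map star *ᵥ star (star (u - w)) = 0 := by
      rw [star_star, Matrix.mulVec_sub]
      exact sub_eq_zero.2 huw
    rw [e2, star_eq_zero] at h1
    exact sub_eq_zero.1 (star_eq_zero.1 (h _ h1))

theorem b1_Φ_cont {x : X} (hx : x ∈ S.U) (τ : E n) :
    ContinuousAt (fun w : X × E n => S.Φ w.1 w.2) (x, τ) := by
  obtain ⟨i, z, hz, rfl⟩ := A.cover x
  obtain ⟨j, F, hF⟩ := S.lift i z hz hx τ
  have h1 : Lft A (fun w : E N × E n => S.Φ (A.p i w.1) w.2) (z, τ) j F :=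
    hF.mono fun w hw => ⟨hw.1, hw.2.1, hw.2.2.1⟩
  have h2 : 𝓝 (A.p i z, τ) = map (Prod.map (A.p i) id) (𝓝 (z, τ)) := by
    rw [nhds_prod_eq, nhds_prod_eq, ← prod_map_map_eq', b1_map hz, map_id]
  rw [ContinuousAt, h2, tendsto_map'_iff]
  exact h1.cont

/-- A lift of a family of orbits. -/
theorem b1_orb {P : Type} [NormedAddCommGroup P] [NormedSpace ℂ P] {s : P → X} {b : P} {i : A.ι}
    {u : P → E N} (hu : Lft A s b i u) (hU : s b ∈ S.U) (τ : E n) :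
    ∃ (j : A.ι) (F : P × E n → E N), Lft A (fun w => S.Φ (s w.1) w.2) (b, τ) j F ∧
      ∀ β τ', fderiv ℂ u b β = 0 →
        fderiv ℂ F (b, τ) (β, τ') = Vf A S.g j (F (b, τ)) *ᵥ τ' := by
  obtain ⟨h1, h2, h3⟩ := hu.self_of_nhds
  obtain ⟨j, F, hF⟩ := S.lift i (u b) h2 (h3 ▸ hU) τ
  have d : ∀ w : P × E n, DifferentiableAt ℂ u w.1 →
      HasFDerivAt (fun w : P × E n => (u w.1, w.2))
        (((fderiv ℂ u w.1).comp (.fst ℂ P (E n))).prod (.snd ℂ P (E n))) w := fun w hw =>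
    (hw.hasFDerivAt.comp w hasFDerivAt_fst).prodMk hasFDerivAt_snd
  refine ⟨j, fun w => F (u w.1, w.2), ?_, fun β τ' hβ => ?_⟩
  · filter_upwards [(d (b, τ) h1).continuousAt.eventually hF,
      (continuousAt_fst (p := (b, τ))).eventually hu] with w a1 a2
    exact ⟨a1.1.comp w (d w a2.1).differentiableAt, a1.2.1, by rw [a1.2.2.1, a2.2.2]⟩
  · have a := hF.self_of_nhds
    have := (a.1.hasFDerivAt.comp (b, τ) (d (b, τ) h1)).fderiv
    rw [show (fun w : P × E n => F (u w.1, w.2)) = F ∘ fun w => (u w.1, w.2) from rfl, this]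
    simpa [hβ] using a.2.2.2 τ'

theorem b1_pos_Φ {x : X} (hx : x ∈ S.U) (hp : (S.h x).PosDef) (τ : E n) : (S.h (S.Φ x τ)).PosDef := by
  obtain ⟨i, z, hz, rfl⟩ := A.cover x
  have l0 : Lft A (fun _ : E n => A.p i z) 0 i fun _ => z :=
    .of_forall fun _ => ⟨differentiableAt_const _, hz, rfl⟩
  obtain ⟨j, F, a1, a2⟩ := S.b1_orb l0 hx τ
  obtain ⟨l, H, b1, b2⟩ := S.b1_orb l0 hx 0
  obtain ⟨-, a3, a4⟩ := a1.self_of_nhds
  obtain ⟨-, b3, b4⟩ := b1.self_of_nhds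
  simp only at a4 b4
  rw [S.Φ_zero _ hx] at b4
  have hU := S.Φ_mem _ hx τ
  rw [← a4] at hU ⊢
  rw [← b4] at hp
  refine (S.b1_pos_iff a3 hU).2 fun v hv => (S.b1_pos_iff b3 (b4 ▸ hx)).1 hp v ?_
  have d1 : HasFDerivAt (fun t : E n => ((0 : E n), τ + t))
      ((0 : E n →L[ℂ] E n).prod (.id ℂ (E n))) 0 :=
    (hasFDerivAt_const _ _).prodMk ((hasFDerivAt_id _).const_add τ)
  have d2 : HasFDerivAt (fun t : E n => ((0 : E n), t))
      ((0 : E n →L[ℂ] E n).prod (.id ℂ (E n))) 0 :=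
    (hasFDerivAt_const _ _).prodMk (hasFDerivAt_id _)
  have l1 : Lft A (fun t => S.Φ (A.p i z) (τ + t)) 0 j fun t => F (0, τ + t) := by
    have := d1.continuousAt.tendsto
    simp only [add_zero] at this
    filter_upwards [this.eventually a1] with t ht
    exact ⟨ht.1.comp t (by fun_prop), ht.2.1, ht.2.2⟩
  obtain ⟨k, G, c1, c2⟩ := S.b1_orb l1 (S.Φ_mem _ hx _) (-τ)
  have d3 : HasFDerivAt (fun t : E n => (t, -τ)) ((ContinuousLinearMap.id ℂ (E n)).prod 0) 0 :=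
    (hasFDerivAt_id _).prodMk (hasFDerivAt_const _ _)
  have l2 : Lft A (fun t => S.Φ (A.p i z) t) 0 k fun t => G (t, -τ) := by
    filter_upwards [d3.continuousAt.tendsto.eventually c1] with t ht
    refine ⟨ht.1.comp t (by fun_prop), ht.2.1, ht.2.2.trans ?_⟩
    rw [S.Φ_add _ hx]
    congr 1
    abel
  have l3 : Lft A (fun t => S.Φ (A.p i z) t) 0 l fun t => H (0, t) := by
    filter_upwards [d2.continuousAt.tendsto.eventually b1] with t ht
    exact ⟨ht.1.comp t (by fun_prop), ht.2.1, ht.2.2⟩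
  have e1 : fderiv ℂ (fun t => F (0, τ + t)) 0 v = 0 := by
    have h := a1.self_of_nhds.1.hasFDerivAt
    rw [show ((0 : E n), τ) = (fun t : E n => ((0 : E n), τ + t)) 0 by simp] at h
    rw [show (fun t => F (0, τ + t)) = F ∘ fun t : E n => ((0 : E n), τ + t) from rfl,
      (h.comp 0 d1).fderiv]
    simpa [hv] using a2 0 v (by simp)
  have e2 : fderiv ℂ (fun t => G (t, -τ)) 0 v = 0 := by
    rw [show (fun t => G (t, -τ)) = G ∘ fun t : E n => (t, -τ) from rfl,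
      (c1.self_of_nhds.1.hasFDerivAt.comp 0 d3).fderiv]
    simpa using c2 v 0 e1
  have e3 := l2.ker S.inj l3 e2
  rw [show (fun t => H (0, t)) = H ∘ fun t : E n => ((0 : E n), t) from rfl,
    (b1.self_of_nhds.1.hasFDerivAt.comp 0 d2).fderiv] at e3
  rw [← b2 0 v (by simp)]
  simpa using e3

theorem b1_Jg_inv {i : A.ι} {z : E N} (hz : z ∈ (A.C i).W) (hU : A.p i z ∈ S.U)
    (hp : (S.h (A.p i z)).PosDef) : ∃ R : Matrix (Fin N) (Fin n) ℂ, Jg A S.g i z * R = 1 := by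
  have h1 : LinearMap.ker (Matrix.toLin' (Jg A S.g i z)ᵀ) = ⊥ := by
    refine LinearMap.ker_eq_bot'.2 fun v hv => (S.b1_pos_iff hz hU).1 hp v ?_
    rw [Vf, ← Matrix.mulVec_mulVec, ← Matrix.toLin'_apply (Jg A S.g i z)ᵀ, hv, Matrix.mulVec_zero]
  obtain ⟨l, hl⟩ := LinearMap.exists_leftInverse_of_injective _ h1
  refine ⟨(LinearMap.toMatrix' l)ᵀ, ?_⟩
  have := congrArg LinearMap.toMatrix' hl
  rw [LinearMap.toMatrix'_comp, LinearMap.toMatrix'_toLin', LinearMap.toMatrix'_id] at this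
  rw [← Matrix.transpose_transpose (Jg A S.g i z), ← Matrix.transpose_mul, this,
    Matrix.transpose_one]

/-- A holomorphic section of `g` through a regular point. -/
theorem b1_exists_sec {x : X} (hx : x ∈ S.U) (hp : (S.h x).PosDef) :
    ∃ (s : E n → X) (i : A.ι) (u : E n → E N), s (S.g x) = x ∧ Lft A s (S.g x) i u ∧
      ∀ᶠ b in 𝓝 (S.g x), s b ∈ S.U ∧ S.g (s b) = b := by
  obtain ⟨i, z, hz, rfl⟩ := A.cover x
  obtain ⟨R, hR⟩ := S.b1_Jg_inv hz hx hp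
  let ℓ : E n →L[ℂ] E N := LinearMap.toContinuousLinearMap (Matrix.toLin' R)
  have d : ∀ β, HasFDerivAt (fun β => z + ℓ β) ℓ β := fun β => ℓ.hasFDerivAt.const_add z
  have t0 : Tendsto (fun β => z + ℓ β) (𝓝 0) (𝓝 z) := by simpa using (d 0).continuousAt.tendsto
  have m : ∀ᶠ w in 𝓝 z, w ∈ (A.C i).W ∧ A.p i w ∈ S.U :=
    Eventually.and ((A.C i).isOpen.mem_nhds hz) ((b1_pcont hz).eventually (S.U_open.mem_nhds hx))
  have h1 : ∀ᶠ β in 𝓝 0, DifferentiableAt ℂ (fun β => S.g (A.p i (z + ℓ β))) β := by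
    filter_upwards [t0.eventually m] with β hβ
    exact DifferentiableAt.comp (g := fun w => S.g (A.p i w)) β (S.g_hol i _ hβ.1 hβ.2)
      (d β).differentiableAt
  have h2 : ∀ v, fderiv ℂ (fun β => S.g (A.p i (z + ℓ β))) 0 v = v := fun v => by
    have h := (S.g_hol i z hz hx).hasFDerivAt
    rw [show z = (fun β => z + ℓ β) 0 by simp] at h
    have h' := (h.comp 0 (d 0)).fderiv
    rw [show (fun β => S.g (A.p i (z + ℓ β))) = (fun w => S.g (A.p i w)) ∘ fun β => z + ℓ β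
      from rfl, h']
    simp only [map_zero, add_zero, ContinuousLinearMap.comp_apply]
    rw [← b1_jac]
    show Jg A S.g i z *ᵥ R *ᵥ v = v
    rw [Matrix.mulVec_mulVec, hR, Matrix.one_mulVec]
  obtain ⟨κ, k1, k2, -, -⟩ := b1_inv h1
    ⟨fun v w h => by rwa [h2, h2] at h, fun v => ⟨v, h2 v⟩⟩
  simp only [map_zero, add_zero] at k1 k2
  have t1 : Tendsto (fun b => z + ℓ (κ b)) (𝓝 (S.g (A.p i z))) (𝓝 z) :=
    t0.comp (k1 ▸ k2.self_of_nhds.1.continuousAt.tendsto)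
  refine ⟨fun b => A.p i (z + ℓ (κ b)), i, fun b => z + ℓ (κ b), by simp [k1], ?_, ?_⟩
  · filter_upwards [k2, t1.eventually m] with b a1 a2
    exact ⟨(d _).differentiableAt.comp b a1.1, a2.1, rfl⟩
  · filter_upwards [k2, t1.eventually m] with b a1 a2
    exact ⟨a2.2, a1.2⟩

/-- The orbits through a section give local coordinates. -/
theorem b1_orb_bij {s : E n → X} {b : E n} {i : A.ι} {u : E n → E N} (hu : Lft A s b i u)
    (hs : ∀ᶠ c in 𝓝 b, s c ∈ S.U ∧ S.g (s c) = c) (hp : (S.h (s b)).PosDef) (τ : E n) :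
    ∃ (j : A.ι) (F : E n × E n → E N), Lft A (fun w => S.Φ (s w.1) w.2) (b, τ) j F ∧
      Function.Bijective (fderiv ℂ F (b, τ)) ∧
      (∀ β τ', Jg A S.g j (F (b, τ)) *ᵥ fderiv ℂ F (b, τ) (β, τ') = β) ∧
      ∀ τ', fderiv ℂ F (b, τ) (0, τ') = Vf A S.g j (F (b, τ)) *ᵥ τ' := by
  have hU := hs.self_of_nhds.1
  obtain ⟨j, F, a1, a2⟩ := S.b1_orb hu hU τ
  obtain ⟨a3, a4, a5⟩ := a1.self_of_nhds
  simp only at a5
  have hU' : A.p j (F (b, τ)) ∈ S.U := a5 ▸ S.Φ_mem _ hU τ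
  have e : ((fun w => S.g (A.p j w)) ∘ F) =ᶠ[𝓝 (b, τ)] Prod.fst := by
    filter_upwards [a1, (continuousAt_fst (p := (b, τ))).eventually hs] with w h1 h2
    simp only [Function.comp_apply, h1.2.2]
    rw [S.g_Φ _ h2.1, h2.2]
  have e1 : ∀ β τ', Jg A S.g j (F (b, τ)) *ᵥ fderiv ℂ F (b, τ) (β, τ') = β := fun β τ' => by
    have h := e.fderiv_eq (𝕜 := ℂ)
    rw [fderiv_comp _ (S.g_hol j _ a4 hU') a3, fderiv_fst] at h
    rw [Jg, b1_jac]
    exact congrArg (fun l => l (β, τ')) h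
  have e2 : ∀ τ', fderiv ℂ F (b, τ) (0, τ') = Vf A S.g j (F (b, τ)) *ᵥ τ' := fun τ' =>
    a2 0 τ' (map_zero _)
  have hi : Function.Injective (fderiv ℂ F (b, τ) : E n × E n →ₗ[ℂ] E N) := by
    refine (injective_iff_map_eq_zero _).2 fun w hw => ?_
    obtain ⟨β, τ'⟩ := w
    have hw' : fderiv ℂ F (b, τ) (β, τ') = 0 := hw
    have h0 : β = 0 := by rw [← e1 β τ', hw', Matrix.mulVec_zero]
    subst h0
    rw [e2] at hw'
    rw [(S.b1_pos_iff a4 hU').1 (a5 ▸ S.b1_pos_Φ hU hp τ) τ' hw']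
    rfl
  refine ⟨j, F, a1, ⟨hi, ?_⟩, e1, e2⟩
  exact (LinearMap.injective_iff_surjective_of_finrank_eq_finrank
    (by simp [S.hN, two_mul])).1 hi

end Sys

end Pool.Agent.ZB
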