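import Pool.Agent.K.MP_63735c_ag.C279
import Pool.Agent.K.MP_63735c_ag.C280

/-! Local sections and the local inverse of the orbit map. -/

open scoped ComplexOrder ContDiff Matrix Topology ENNReal
open Set Metric MeasureTheory Filter

namespace Pool.Agent.ZB

open Pool.Agent.BP Pool.Agent.SPF Pool.Agent.AB Pool.Agent.CK Pool.Agent.SE Pool.Agent.NL

variable {N n : ℕ} {X : Type} [TopologicalSpace X] {A : Atlas X N} {K : Form11 A} {L : Line A}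

namespace Sys

variable {S : Sys K L n} {T : Set (E n)} {s : E n → X}

theorem exists_sect {x : X} (hx : x ∈ S.U) (h : (S.h x).PosDef) :
    ∃ T s, S.Sect T s ∧ S.g x ∈ T ∧ s (S.g x) = x := by
  obtain ⟨s, i, u, h1, h2, h3⟩ := S.b1_exists_sec hx h
  obtain ⟨O, a1, a2, a3⟩ := _root_.eventually_nhds_iff.1 (h2.eventually_nhds.and h3)
  exact ⟨O, s, ⟨a2, fun b hb => (a1 b hb).2.1, fun b hb => (a1 b hb).2.2,
    fun b hb => ⟨i, u, (a1 b hb).1⟩⟩, a3, h1⟩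

theorem Sect.mono (h : S.Sect T s) {O : Set (E n)} (hO : IsOpen O) (hs : O ⊆ T) : S.Sect O s :=
  ⟨hO, fun b hb => h.mem b (hs hb), fun b hb => h.g_s b (hs hb), fun b hb => h.lift b (hs hb)⟩

theorem Sect.cont (h : S.Sect T s) : ContinuousOn s T := fun b hb => by
  obtain ⟨i, F, hF⟩ := h.lift b hb
  exact (Lft.cont hF).continuousWithinAt

theorem Sect.b1_ev (h : S.Sect T s) {b : E n} (hb : b ∈ T) :
    ∀ᶠ c in 𝓝 b, s c ∈ S.U ∧ S.g (s c) = c :=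
  Eventually.mono (h.isOpen.mem_nhds hb) fun c hc => ⟨h.mem c hc, h.g_s c hc⟩

theorem Sect.pos (h : S.Sect T s) {b : E n} (hb : b ∈ T) : (S.h (s b)).PosDef := by
  obtain ⟨i, F, hF⟩ := h.lift b hb
  obtain ⟨a1, a2, a3⟩ := hF.self_of_nhds
  have hU : A.p i (F b) ∈ S.U := a3 ▸ h.mem b hb
  have e : ((fun w => S.g (A.p i w)) ∘ F) =ᶠ[𝓝 b] id := by
    filter_upwards [hF, h.b1_ev hb] with c h1 h2
    simp only [Function.comp_apply, h1.2.2, h2.2, id]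
  rw [← a3, (S.h_pos_iff a2 hU).2]
  intro β
  refine ⟨fderiv ℂ F b β, ?_⟩
  have h1 := e.fderiv_eq (𝕜 := ℂ)
  rw [fderiv_comp _ (S.g_hol i _ a2 hU) a1, fderiv_id] at h1
  rw [Jg, b1_jac]
  exact congrArg (fun l => l β) h1

theorem Sect.b1_der (h : S.Sect T s) {w : E n × E n} (hw : w.1 ∈ T) {j : A.ι}
    {F : E n × E n → E N} (hF : Lft A (fun w => S.Φ (s w.1) w.2) w j F) :
    Function.Bijective (fderiv ℂ F w) ∧
      (∀ τ, fderiv ℂ F w (0, τ) = Vf A S.g j (F w) *ᵥ τ) ∧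
      ∀ β τ, Jg A S.g j (F w) *ᵥ fderiv ℂ F w (β, τ) = β := by
  obtain ⟨b, t⟩ := w
  obtain ⟨i, u, hu⟩ := h.lift b hw
  obtain ⟨k, G, a1, a2, a3, a4⟩ := S.b1_orb_bij hu (h.b1_ev hw) (h.pos hw) t
  obtain ⟨b1, b2, b3⟩ := a1.self_of_nhds
  obtain ⟨-, c2, c3⟩ := hF.self_of_nhds
  obtain ⟨O, φ, d1, d2, d3, d4⟩ := A.trans k j _ b2 _ c2 (b3.trans c3.symm)
  have he : F =ᶠ[𝓝 (b, t)] φ ∘ G := by
    filter_upwards [hF, a1, b1.continuousAt.eventually (d1.isOpen.mem_nhds d2)] with y e1 e2 e3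
    exact S.inj j e1.2.1 (d1.maps e3) (e1.2.2.trans ((d4 _ e3).trans e2.2.2).symm)
  have hd : ∀ v, fderiv ℂ F (b, t) v = jac φ (G (b, t)) *ᵥ fderiv ℂ G (b, t) v := fun v => by
    rw [he.fderiv_eq, fderiv_comp _ (d1.hol.differentiableAt (d1.isOpen.mem_nhds d2)) b1, b1_jac]
    rfl
  obtain ⟨v1, v2⟩ := S.Vf_change d1 d4 d2 (b3 ▸ S.Φ_mem _ (h.mem b hw) t)
  rw [d3] at v1 v2
  have hi : Function.Injective (fderiv ℂ F (b, t) : E n × E n →ₗ[ℂ] E N) :=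
    (injective_iff_map_eq_zero _).2 fun v hv =>
      a2.1 ((hF.ker S.inj a1 hv).trans (map_zero _).symm)
  refine ⟨⟨hi, (LinearMap.injective_iff_surjective_of_finrank_eq_finrank
    (by simp [S.hN, two_mul])).1 hi⟩, fun τ => ?_, fun β τ => ?_⟩
  · rw [hd, a4, v2, Matrix.mulVec_mulVec]
  · rw [hd, Matrix.mulVec_mulVec, ← v1, a3]

theorem Sect.loc (h : S.Sect T s) {w₀ : E n × E n} (hw : w₀.1 ∈ T) :
    ∃ (j : A.ι) (e : OpenPartialHomeomorph (E n × E n) (E N)), w₀ ∈ e.source ∧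
      DifferentiableOn ℂ e e.source ∧ DifferentiableOn ℂ e.symm e.target ∧ ∀ w ∈ e.source,
        w.1 ∈ T ∧ e w ∈ (A.C j).W ∧ A.p j (e w) = S.Φ (s w.1) w.2 ∧
        (∀ τ, fderiv ℂ e w (0, τ) = Vf A S.g j (e w) *ᵥ τ) ∧
        ∀ β τ, Jg A S.g j (e w) *ᵥ fderiv ℂ e w (β, τ) = β := by
  obtain ⟨i, u, hu⟩ := h.lift _ hw
  obtain ⟨j, f, a1, -⟩ := S.b1_orb hu (h.mem _ hw) w₀.2
  obtain ⟨O, hs, hO, hwO⟩ := _root_.eventually_nhds_iff.1
    (a1.eventually_nhds.and ((continuousAt_fst (p := w₀)).eventually (h.isOpen.mem_nhds hw)))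
  have hf : DifferentiableOn ℂ f O := fun y hy =>
    (hs y hy).1.self_of_nhds.1.differentiableWithinAt
  have eq : ∀ y ∈ O, ∃ D : (E n × E n) ≃L[ℂ] E N, (D : (E n × E n) →L[ℂ] E N) = fderiv ℂ f y :=
    fun y hy => ⟨(LinearEquiv.ofBijective (fderiv ℂ f y : (E n × E n) →ₗ[ℂ] E N)
      (h.b1_der (hs y hy).2 (hs y hy).1).1).toContinuousLinearEquiv, by ext <;> rfl⟩
  obtain ⟨D, hD⟩ := eq w₀ hwO
  have hst : HasStrictFDerivAt f (D : (E n × E n) →L[ℂ] E N) w₀ := by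
    rw [hD]
    exact ((flow_smooth hO hf).contDiffAt (hO.mem_nhds hwO)).hasStrictFDerivAt (by simp)
  refine ⟨j, (hst.toOpenPartialHomeomorph f).restrOpen _ hO,
    ⟨hst.mem_toOpenPartialHomeomorph_source, hwO⟩, hf.mono fun y hy => hy.2,
    fun y hy => ?_, fun y hy => ?_⟩
  · set e := (hst.toOpenPartialHomeomorph f).restrOpen _ hO
    have h1 : e.symm y ∈ O := (e.map_target hy).2
    obtain ⟨D', hD'⟩ := eq _ h1
    have h2 : HasFDerivAt e (D' : (E n × E n) →L[ℂ] E N) (e.symm y) := by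
      rw [hD']
      exact (hf.differentiableAt (hO.mem_nhds h1)).hasFDerivAt
    exact (e.hasFDerivAt_symm hy h2).differentiableAt.differentiableWithinAt
  · obtain ⟨b1, b2⟩ := hs y hy.2
    exact ⟨b2, b1.self_of_nhds.2.1, b1.self_of_nhds.2.2, (h.b1_der b2 b1).2⟩

theorem Sect.isOpen_img (h : S.Sect T s) {O : Set (E n × E n)} (hO : IsOpen O)
    (hs : ∀ w ∈ O, w.1 ∈ T) : IsOpen ((fun w : E n × E n => S.Φ (s w.1) w.2) '' O) := by
  refine isOpen_iff_forall_mem_open.2 ?_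
  rintro _ ⟨w, hw, rfl⟩
  obtain ⟨j, e, a1, -, -, a2⟩ := h.loc (hs w hw)
  refine ⟨A.p j '' (e '' (O ∩ e.source)), ?_, A.opn j _
    (e.isOpen_image_of_subset_source (hO.inter e.open_source) inter_subset_right) ?_,
    e w, ⟨w, ⟨hw, a1⟩, rfl⟩, (a2 w a1).2.2.1⟩
  · rintro _ ⟨_, ⟨y, hy, rfl⟩, rfl⟩
    exact ⟨y, hy.1, (a2 y hy.2).2.2.1.symm⟩
  · rintro _ ⟨y, hy, rfl⟩
    exact (a2 y hy.2).2.1

theorem no_short {x : X} (hx : x ∈ S.U) (h : (S.h x).PosDef) :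
    ∃ r > 0, ∀ᶠ y in 𝓝 x, y ∈ S.U ∧ (S.h y).PosDef ∧ ∀ τ, S.Φ y τ = y → ‖τ‖ < 2 * r → τ = 0 := by
  obtain ⟨T, s, h1, h2, h3⟩ := exists_sect hx h
  obtain ⟨j, e, a1, -, -, a2⟩ := h1.loc (w₀ := (S.g x, 0)) h2
  obtain ⟨ε, hε, hb⟩ := Metric.isOpen_iff.1 e.open_source _ a1
  have hs : ball ((S.g x, 0) : E n × E n) (ε / 2) ⊆ e.source :=
    (ball_subset_ball (half_le_self hε.le)).trans hb
  have ho := h1.isOpen_img isOpen_ball fun w hw => (a2 w (hs hw)).1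
  refine ⟨ε / 4, by positivity, ?_⟩
  filter_upwards [ho.mem_nhds ⟨(S.g x, 0), mem_ball_self (half_pos hε), by
    simp only [h3, S.Φ_zero x hx]⟩] with y hy
  obtain ⟨w, hw, rfl⟩ := hy
  obtain ⟨b1, b2, b3, -⟩ := a2 w (hs hw)
  have hU := h1.mem _ b1
  refine ⟨S.Φ_mem _ hU _, S.b1_pos_Φ hU (h1.pos b1) _, fun τ hτ hn => ?_⟩
  have m : (w.1, w.2 + τ) ∈ e.source := by
    refine hb ?_
    have : dist (w.1, w.2 + τ) w = ‖τ‖ := by
      rw [Prod.dist_eq, dist_self, dist_eq_norm, add_sub_cancel_left, max_eq_right (norm_nonneg _)]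
    have h4 := dist_triangle (w.1, w.2 + τ) w (S.g x, 0)
    rw [mem_ball] at hw ⊢
    linarith
  obtain ⟨-, c2, c3, -⟩ := a2 _ m
  rw [S.Φ_add _ hU] at hτ
  have := e.injOn m (hs hw) (S.inj j c2 b2 (c3.trans (hτ.trans b3.symm)))
  simpa using congrArg Prod.snd this

end Sys

end Pool.Agent.ZB
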