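import Pool.Agent.K.MP_63735c_ag.C208
import Pool.Agent.K.MP_63735c_ag.C212
import Pool.Agent.K.MP_63735c_ag.C48

/-! The monotonicity formula: the pointwise identity. -/

open scoped ComplexOrder ContDiff Matrix Topology ENNReal
open Set Metric MeasureTheory Filter

namespace Pool.Agent.BP

open Pool.Agent.SPF Pool.Agent.AB Pool.Agent.CK Pool.Agent.SE Pool.Agent.NL

variable {n M : ℕ}

/-- The field `adj (lev φ) dbar φ`. -/
noncomputable def mv (φ : E n → ℝ) (z : E n) : E n := star (dr φ z) ᵥ* (lev φ z).adjugate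

/-- The value of `adj (lev φ)` on the gradient. -/
noncomputable def mq (φ : E n → ℝ) (z : E n) : ℝ := (mv φ z ⬝ᵥ dr φ z).re

theorem bpt8b_dot (φ : E n → ℝ) (z u : E n) :
    mv φ z ⬝ᵥ u = hq (lev φ z).adjugate (star (dr φ z)) (star u) := by
  rw [mv, hq, star_star, Matrix.dotProduct_mulVec]

theorem mv_smooth {φ : E n → ℝ} {W : Set (E n)} (hW : IsOpen W) (hφ : ContDiffOn ℝ ∞ φ W) :
    ContDiffOn ℝ ∞ (mv φ) W := by
  refine contDiffOn_pi.2 fun a => ?_
  simp only [mv, Matrix.vecMul, dotProduct, Pi.star_apply]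
  exact ContDiffOn.sum fun b _ => (Complex.conjCLE.contDiff.comp_contDiffOn
    (contDiffOn_pi.1 (dr_smooth hW hφ) b)).mul (adj_smooth (lev_smooth hW hφ) b a)

theorem mv_div {φ : E n → ℝ} {z : E n} (hφ : ContDiffAt ℝ ∞ φ z) {l : ℝ → ℝ}
    (hl : ContDiff ℝ ∞ l) : ∑ a, dz a (fun w => (l (φ w) : ℂ) * mv φ w a) z =
      ((n * (l (φ z) * (lev φ z).det.re) + deriv l (φ z) * mq φ z : ℝ) : ℂ) := by
  have d0 : DifferentiableAt ℝ φ z := hφ.differentiableAt (by simp)
  have dl : HasDerivAt l (deriv l (φ z)) (φ z) := (hl.differentiable (by simp) _).hasDerivAt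
  have d1 : ∀ a b, DifferentiableAt ℝ (fun w => lev φ w a b) z := fun a b => by
    simp only [lev_apply]
    exact (ablev_dz (ablev_dz (ablev_re hφ) b).2 a).1.differentiableAt (by simp)
  have d2 : ∀ b, DifferentiableAt ℝ (fun w => star (dr φ w b)) z := fun b =>
    ablev_star ((ablev_dz (ablev_re hφ) b).1.differentiableAt (by simp))
  have d3 : ∀ b a, DifferentiableAt ℝ (fun w => (lev φ w).adjugate b a) z := bpt1_adj_diffAt d1
  have e : ∀ a, (fun w => mv φ w a) = fun w => ∑ b, star (dr φ w b) * (lev φ w).adjugate b a :=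
    fun _ => rfl
  have d4 : ∀ a, DifferentiableAt ℝ (fun w => mv φ w a) z := fun a =>
    e a ▸ DifferentiableAt.fun_sum fun b _ => (d2 b).fun_mul (d3 b a)
  have h1 : ∀ a, dz a (fun w => mv φ w a) z = (lev φ z * (lev φ z).adjugate) a a +
      ∑ b, star (dr φ z b) * dz a (fun w => (lev φ w).adjugate b a) z := fun a => by
    rw [e, (dz_sum _ (fun b _ => (d2 b).fun_mul (d3 b a)) a).1, Matrix.mul_apply,
      ← Finset.sum_add_distrib]
    exact Finset.sum_congr rfl fun b _ => (dz_mul (d2 b) (d3 b a) a).1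
  have h2 : ∑ a, dz a (fun w => mv φ w a) z = n * (lev φ z).det := by
    simp only [h1, Finset.sum_add_distrib]
    rw [Finset.sum_comm]
    simp [← Finset.mul_sum, piola_d d1 (lev_closed hφ), Matrix.mul_adjugate]
  have h3 : ∀ a, dz a (fun w => (l (φ w) : ℂ)) z = deriv l (φ z) * dr φ z a := fun a =>
    congrFun (dr_chain dl d0) a
  have r1 : ((lev φ z).det.re : ℂ) = (lev φ z).det := by
    rw [← Complex.conj_eq_iff_re, ← Complex.star_def, ← Matrix.det_conjTranspose, (lev_herm hφ).eq]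
  have r2 : (mq φ z : ℂ) = ∑ a, dr φ z a * mv φ z a := by
    change _ = dr φ z ⬝ᵥ mv φ z
    rw [mq, dotProduct_comm (dr φ z), ← Complex.conj_eq_iff_re, bpt8b_dot]
    exact hq_herm (lev_herm hφ).adjugate _ _
  have d5 : DifferentiableAt ℝ (fun w => (l (φ w) : ℂ)) z :=
    ablev_red (dl.differentiableAt.comp z d0)
  simp only [(dz_mul d5 (d4 _) _).1, h3, Finset.sum_add_distrib, mul_assoc, ← Finset.mul_sum, h2,
    Complex.ofReal_add, Complex.ofReal_mul, r1, r2, Complex.ofReal_natCast]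
  ring

theorem mq_le {F : E n → E M} {z : E n} (hF : ∀ᶠ w in 𝓝 z, DifferentiableAt ℂ F w) :
    0 ≤ (lev (fun w => nsq (F w)) z).det.re ∧ 0 ≤ mq (fun w => nsq (F w)) z ∧
      mq (fun w => nsq (F w)) z ≤ nsq (F z) * (lev (fun w => nsq (F w)) z).det.re := by
  obtain ⟨-, h1, h2, -⟩ := lev_nsq hF
  have p1 : (lev (fun w => nsq (F w)) z).PosSemidef := by
    rw [h1]
    exact Matrix.posSemidef_self_mul_conjTranspose (jac F z)ᵀ
  refine ⟨(Complex.nonneg_iff.1 p1.det_nonneg).1, ?_, ?_⟩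
  · rw [mq, bpt8b_dot]
    exact hq_nonneg (adj_psd p1) _
  · by_cases h0 : F z = 0
    · rw [mq, h2, h0]
      simp [nsq]
    have t0 : 0 < nsq (F z) := lt_of_lt_of_le (by positivity) (nsq_le (F z)).1
    have tc : (nsq (F z) : ℂ) ≠ 0 := Complex.ofReal_ne_zero.2 t0.ne'
    set t := nsq (F z) with ht
    let P : Mat M := 1 - (t : ℂ)⁻¹ • Matrix.vecMulVec (star (F z)) (F z)
    have q1 : Pᴴ = P := by
      simp [P, Matrix.conjTranspose_vecMulVec]
    have q2 : P * P = P := by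
      have : F z ⬝ᵥ star (F z) = t := (bpt2_coe _).symm
      simp only [P, sub_mul, mul_sub, one_mul, mul_one, smul_mul_assoc, mul_smul_comm,
        Matrix.vecMulVec_mul_vecMulVec, this, Matrix.vecMulVec_smul, smul_smul,
        inv_mul_cancel₀ tc, one_smul, sub_self, sub_zero, smul_zero]
    have q3 : P.PosSemidef := by
      rw [← q2]
      nth_rewrite 1 [← q1]
      exact Matrix.posSemidef_conjTranspose_mul_self P
    have q4 : (jac F z)ᵀ * P * (jac F z)ᵀᴴ = lev (fun w => nsq (F w)) z + Matrix.vecMulVec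
        (-(t : ℂ)⁻¹ • dr (fun w => nsq (F w)) z) (star (dr (fun w => nsq (F w)) z)) := by
      rw [h1, h2, Matrix.star_vecMul, star_star, ← Matrix.vecMul_transpose,
        ← Matrix.mulVec_transpose]
      simp only [P, Matrix.mul_sub, Matrix.sub_mul, Matrix.mul_one, Matrix.mul_smul,
        Matrix.smul_mul, Matrix.mul_vecMulVec, Matrix.vecMulVec_mul, Matrix.smul_vecMulVec,
        neg_smul, Matrix.neg_vecMulVec, ← sub_eq_add_neg]
      rfl
    have q5 := (Complex.nonneg_iff.1 (q3.mul_mul_conjTranspose_same (jac F z)ᵀ).det_nonneg).1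
    rw [q4, det_rank_one, Matrix.mulVec_smul, dotProduct_smul, Matrix.dotProduct_mulVec,
      ← Complex.ofReal_inv, ← Complex.ofReal_neg, smul_eq_mul, Complex.add_re,
      Complex.re_ofReal_mul] at q5
    change 0 ≤ _ + -t⁻¹ * mq (fun w => nsq (F w)) z at q5
    have := mul_nonneg t0.le q5
    rw [mul_add, ← mul_assoc, mul_neg, mul_inv_cancel₀ t0.ne'] at this
    linarith

theorem mv_cs {φ : E n → ℝ} {z : E n} (h : (lev φ z).PosSemidef) (u : E n) :
    ‖mv φ z ⬝ᵥ u‖ ^ 2 ≤ mq φ z * hr (lev φ z).adjugate (star u) := by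
  obtain ⟨B, hB⟩ : ∃ B : Mat n, (lev φ z).adjugate = Bᴴ * Bᴴᴴ := by
    simp only [Matrix.conjTranspose_conjTranspose]
    open scoped MatrixOrder in
    exact CStarAlgebra.nonneg_iff_eq_star_mul_self.1 (adj_psd h).nonneg
  have := HX.hq_cong Bᴴ 1 (star (dr φ z)) (star u)
  rw [mul_one] at this
  rw [mq, bpt8b_dot, bpt8b_dot, hr, hB, HX.hq_frame, HX.hq_frame, this, hq, Matrix.one_mulVec]
  refine le_trans (pow_le_pow_left₀ (norm_nonneg _) (norm_sum_le _ _) 2) ?_
  simp only [norm_mul, Pi.star_apply, norm_star]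
  exact Finset.sum_mul_sq_le_sq_mul_sq _ _ _

end Pool.Agent.BP
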