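import Pool.Agent.K.MP_63735c_ag.C214
import Pool.Agent.K.MP_63735c_ag.C294
import Pool.Agent.K.MP_63735c_ag.C295

/-! The packing bound: the lower area bound on one class, and lifts to a chart. -/

open scoped ComplexOrder ContDiff Matrix Topology ENNReal
open Set Metric MeasureTheory Filter

namespace Pool.Agent.BP

open Pool.Agent.SPF Pool.Agent.AB Pool.Agent.CK Pool.Agent.SE Pool.Agent.NL

variable {N n : ℕ} {X : Type}

theorem bpdp_jac (q : E n → E N) (z τ) : jac (fun w => q w - z) τ = jac q τ := by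
  simp only [jac, fderiv_sub_const]

theorem bpdp_comp {M K : ℕ} {φ : E M → E N} {ψ : E N → E K} {z : E M}
    (hψ : DifferentiableAt ℂ ψ (φ z)) (hφ : DifferentiableAt ℂ φ z) :
    jac (ψ ∘ φ) z = jac ψ (φ z) * jac φ z := by
  ext c a
  exact (congrFun (by rw [fderiv_comp z hψ hφ]; rfl) c).trans
    (congrFun (bpt2_jac ψ (φ z) (fderiv ℂ φ z (Pi.single a 1))).symm c)

theorem bpdp_int {Ψ : E n → X} {κ : Measure (E n)} (hκ : Cell Ψ κ) {G : Type}
    [NormedAddCommGroup G] {f : E n → G} {S : Set (E n)} (hS : IsClosed S)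
    (hf : ContinuousOn f S) : Integrable (S.indicator f) κ := by
  obtain ⟨S₀, h0, h1⟩ := hκ.cpt
  have := hκ.fin
  rw [integrable_indicator_iff hS.measurableSet]
  have h2 : IntegrableOn f (S₀ ∩ S) κ :=
    (hf.mono inter_subset_right).integrableOn_compact (h0.inter_right hS)
  refine h2.congr_set_ae ?_
  have h3 : ∀ᵐ τ ∂κ, τ ∈ S₀ := h1
  filter_upwards [h3] with τ hτ
  exact propext ⟨fun h => ⟨hτ, h⟩, fun h => h.2⟩

theorem bpdp_meas {f : E n → ℝ} {S : Set (E n)} (hS : IsClosed S) (hf : ContinuousOn f S) :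
    Measurable (S.indicator f) := by
  classical
  rw [← piecewise_eq_indicator]
  exact hf.measurable_piecewise continuousOn_const hS.measurableSet

/-- The area density of a holomorphic map. -/
noncomputable def bpdpD (q : E n → E N) (τ : E n) : ℝ :=
  ((jac q τ)ᵀ * (jac q τ).map star).det.re

/-- A holomorphic map on an invariant open set with invariant value and derivative. -/
structure BpdpQ (Ψ : E n → X) (O : Set (E n)) (q : E n → E N) : Prop where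
  opn : IsOpen O
  hol : ∀ τ ∈ O, ∀ᶠ t in 𝓝 τ, DifferentiableAt ℂ q t
  inv : ∀ τ τ', Ψ τ = Ψ τ' → τ ∈ O → τ' ∈ O ∧ q τ = q τ' ∧ jac q τ = jac q τ'

section
variable {Ψ : E n → X} {κ : Measure (E n)} {O : Set (E n)} {q : E n → E N}

theorem BpdpQ.sub (h : BpdpQ Ψ O q) (z : E N) {τ} (hτ : τ ∈ O) :
    ∀ᶠ t in 𝓝 τ, DifferentiableAt ℂ (fun w => q w - z) t :=
  (h.hol τ hτ).mono fun _ ht => ht.sub_const z

theorem BpdpQ.lev (h : BpdpQ Ψ O q) (z : E N) {τ} (hτ : τ ∈ O) :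
    (lev (fun w => nsq (q w - z)) τ).det.re = bpdpD q τ := by
  rw [(lev_nsq (h.sub z hτ)).2.1, bpdp_jac, bpdpD]

theorem BpdpQ.smooth (h : BpdpQ Ψ O q) (z : E N) :
    ContDiffOn ℝ ∞ (fun w => nsq (q w - z)) O :=
  fun _ hτ => (lev_nsq (h.sub z hτ)).1.contDiffWithinAt

theorem BpdpQ.cont (h : BpdpQ Ψ O q) : ContinuousOn (bpdpD q) O := by
  have h1 := (bpt1_det_smooth (lev_smooth h.opn (h.smooth 0))).continuousOn
  exact (Complex.continuous_re.comp_continuousOn h1).congr fun τ hτ => (h.lev 0 hτ).symm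

theorem BpdpQ.mv (h : BpdpQ Ψ O q) (z : E N) {τ τ'} (e : Ψ τ = Ψ τ') (hτ : τ ∈ O) :
    mv (fun w => nsq (q w - z)) τ = mv (fun w => nsq (q w - z)) τ' := by
  obtain ⟨h1, h2, h3⟩ := h.inv τ τ' e hτ
  have a := lev_nsq (h.sub z hτ)
  have b := lev_nsq (h.sub z h1)
  simp only [BP.mv, a.2.1, a.2.2.1, b.2.1, b.2.2.1, bpdp_jac, h2, h3]

theorem BpdpQ.stokes (h : BpdpQ Ψ O q) (hκ : Cell Ψ κ) (z : E N) {t₀ : ℝ}
    (hS : IsClosed {τ | τ ∈ O ∧ nsq (q τ - z) ≤ t₀}) {l : ℝ → ℝ} (hl : ContDiff ℝ ∞ l)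
    (h0 : ∀ s, t₀ ≤ s → l s = 0) :
    n * ∫ τ, {τ | τ ∈ O ∧ nsq (q τ - z) ≤ t₀}.indicator
        (fun τ => l (nsq (q τ - z)) * bpdpD q τ) τ ∂κ +
      ∫ τ, {τ | τ ∈ O ∧ nsq (q τ - z) ≤ t₀}.indicator
        (fun τ => deriv l (nsq (q τ - z)) * mq (fun w => nsq (q w - z)) τ) τ ∂κ = 0 := by
  set S := {τ | τ ∈ O ∧ nsq (q τ - z) ≤ t₀} with hSd
  set φ : E n → ℝ := fun w => nsq (q w - z) with hφ
  have hSO : S ⊆ O := fun τ hτ => hτ.1
  have hs : ContDiffOn ℝ ∞ φ O := h.smooth z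
  have hm := mv_smooth h.opn hs
  let v : Fin n → E n → ℂ := fun a w => (l (φ w) : ℂ) * BP.mv φ w a
  let u : Fin n → E n → ℂ := fun a => O.indicator (v a)
  have e1 : ∀ a, ∀ τ ∈ O, u a =ᶠ[𝓝 τ] v a := fun a τ hτ => by
    filter_upwards [h.opn.mem_nhds hτ] with w hw
    exact indicator_of_mem hw _
  have e2 : ∀ a, ∀ τ ∉ S, u a =ᶠ[𝓝 τ] fun _ => 0 := fun a τ hτ => by
    filter_upwards [hS.isOpen_compl.mem_nhds hτ] with w hw
    by_cases hO : w ∈ O
    · have : t₀ ≤ φ w := le_of_not_ge fun hh => hw ⟨hO, hh⟩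
      simp only [u, v, indicator_of_mem hO, h0 _ this, Complex.ofReal_zero, zero_mul]
    · exact indicator_of_notMem hO _
  have hv : ∀ a, ContDiffOn ℝ ∞ (v a) O := fun a =>
    (ofReal_smooth (hl.comp_contDiffOn hs)).mul (contDiffOn_pi.1 hm a)
  have hu : ∀ a, ContDiff ℝ ∞ (u a) := fun a => contDiff_iff_contDiffAt.2 fun τ => by
    by_cases hτ : τ ∈ S
    · exact ((hv a).contDiffAt (h.opn.mem_nhds hτ.1)).congr_of_eventuallyEq (e1 a τ hτ.1)
    · exact contDiffAt_const.congr_of_eventuallyEq (e2 a τ hτ)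
  have hi : ∀ a τ τ', Ψ τ = Ψ τ' → u a τ = u a τ' := fun a τ τ' e => by
    by_cases hτ : τ ∈ O
    · obtain ⟨h1, h2, -⟩ := h.inv τ τ' e hτ
      simp only [u, v, indicator_of_mem hτ, indicator_of_mem h1, hφ, h.mv z e hτ, h2]
    · have h1 : τ' ∉ O := fun h1 => hτ (h.inv τ' τ e.symm h1).1
      simp only [u, indicator_of_notMem hτ, indicator_of_notMem h1]
  have hd : ∀ a, Integrable (dz a (u a)) κ := fun a => by
    have := bpdp_int hκ isClosed_univ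
      (dz_smooth isOpen_univ (hu a).contDiffOn a).1.continuousOn
    rwa [indicator_univ] at this
  have hz : ∫ τ, ∑ a, dz a (u a) τ ∂κ = 0 := by
    rw [integral_finsetSum _ fun a _ => hd a]
    exact Finset.sum_eq_zero fun a _ => hκ.stokes _ (hu a) (hi a) a
  have c1 : ContinuousOn (fun τ => l (φ τ) * bpdpD q τ) S :=
    ((hl.continuous.comp_continuousOn hs.continuousOn).mul h.cont).mono hSO
  have c2 : ContinuousOn (fun τ => deriv l (φ τ) * mq φ τ) S := by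
    refine (((hl.continuous_deriv (by simp)).comp_continuousOn hs.continuousOn).mul
      (Complex.continuous_re.comp_continuousOn ?_)).mono hSO
    exact continuousOn_finsetSum _ fun a _ => (continuousOn_pi.1 hm.continuousOn a).mul
      (continuousOn_pi.1 (dr_smooth h.opn hs).continuousOn a)
  have hp : ∀ τ, ∑ a, dz a (u a) τ = ((n * S.indicator (fun τ => l (φ τ) * bpdpD q τ) τ +
      S.indicator (fun τ => deriv l (φ τ) * mq φ τ) τ : ℝ) : ℂ) := fun τ => by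
    by_cases hτ : τ ∈ S
    · rw [indicator_of_mem hτ, indicator_of_mem hτ, ← h.lev z hτ.1,
        ← mv_div (hs.contDiffAt (h.opn.mem_nhds hτ.1)) hl]
      exact Finset.sum_congr rfl fun a _ => (dz_congr (e1 a τ hτ.1) a).self_of_nhds
    · rw [indicator_of_notMem hτ, indicator_of_notMem hτ]
      rw [Finset.sum_eq_zero fun a _ => ?_]
      · simp
      · rw [(dz_congr (e2 a τ hτ) a).self_of_nhds]
        simp [dz]
  simp only [hp] at hz
  rw [integral_complex_ofReal, integral_add ((bpdp_int hκ hS c1).const_mul _) (bpdp_int hκ hS c2),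
    integral_const_mul] at hz
  exact_mod_cast hz

theorem BpdpQ.nonneg (h : BpdpQ Ψ O q) {τ} (hτ : τ ∈ O) : 0 ≤ bpdpD q τ :=
  h.lev 0 hτ ▸ (mq_le (h.sub 0 hτ)).1

theorem BpdpQ.opn' (h : BpdpQ Ψ O q) (z : E N) (t : ℝ) :
    IsOpen {τ | τ ∈ O ∧ nsq (q τ - z) < t} :=
  (h.smooth z).continuousOn.isOpen_inter_preimage h.opn isOpen_Iio

theorem bpdp_low (n : ℕ) : ∃ c : ℝ, 0 < c ∧ ∀ {N : ℕ} {X : Type} {Ψ : E n → X}
    {κ : Measure (E n)} {O : Set (E n)} {q : E n → E N}, BpdpQ Ψ O q → Cell Ψ κ →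
    ∀ τ₀ ∈ O, Function.Injective (fderiv ℂ q τ₀) → ∀ t₀ t : ℝ, 0 < t → t < t₀ →
    IsClosed {τ | τ ∈ O ∧ nsq (q τ - q τ₀) ≤ t₀} → ENNReal.ofReal (c * t ^ n) ≤
      ∫⁻ τ in {τ | τ ∈ O ∧ nsq (q τ - q τ₀) < t}, ENNReal.ofReal (bpdpD q τ) ∂κ := by
  classical
  obtain ⟨c, hc, H⟩ := mon_two n
  refine ⟨c / 2 ^ n, by positivity, fun {N X Ψ κ O q} h hκ τ₀ h0 hi t₀ t ht htt hS => ?_⟩
  set z := q τ₀ with hz
  set S := {τ | τ ∈ O ∧ nsq (q τ - z) ≤ t₀} with hSd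
  have hSO : S ⊆ O := fun τ hτ => hτ.1
  let φ : E n → ℝ := S.piecewise (fun w => nsq (q w - z)) fun _ => t₀
  let D : E n → ℝ := S.indicator (bpdpD q)
  let Q : E n → ℝ := S.indicator (mq fun w => nsq (q w - z))
  have hs := h.smooth z
  have mφ : Measurable φ := (hs.continuousOn.mono hSO).measurable_piecewise continuousOn_const
    hS.measurableSet
  have iD : Integrable D κ := bpdp_int hκ hS (h.cont.mono hSO)
  have mD : Measurable D := bpdp_meas hS (h.cont.mono hSO)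
  have iQ : Integrable Q κ := by
    refine bpdp_int hκ hS ((Complex.continuous_re.comp_continuousOn ?_).mono hSO)
    exact continuousOn_finsetSum _ fun a _ =>
      (continuousOn_pi.1 (mv_smooth h.opn hs).continuousOn a).mul
        (continuousOn_pi.1 (dr_smooth h.opn hs).continuousOn a)
  have a1 : ∀ τ ∈ S, φ τ = nsq (q τ - z) ∧ D τ = bpdpD q τ ∧
      Q τ = mq (fun w => nsq (q w - z)) τ := fun τ hτ =>
    ⟨piecewise_eq_of_mem _ _ _ hτ, indicator_of_mem hτ _, indicator_of_mem hτ _⟩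
  have a2 : ∀ τ ∉ S, φ τ = t₀ ∧ D τ = 0 ∧ Q τ = 0 := fun τ hτ =>
    ⟨piecewise_eq_of_notMem _ _ _ hτ, indicator_of_notMem hτ _, indicator_of_notMem hτ _⟩
  have p0 : ∀ τ, 0 ≤ φ τ ∧ 0 ≤ D τ ∧ 0 ≤ Q τ ∧ Q τ ≤ φ τ * D τ := fun τ => by
    by_cases hτ : τ ∈ S
    · obtain ⟨b1, b2, b3⟩ := a1 τ hτ
      have b4 := mq_le (h.sub z hτ.1)
      rw [h.lev z hτ.1] at b4
      rw [b1, b2, b3]
      exact ⟨(sq_nonneg _).trans (nsq_le _).1, b4⟩
    · obtain ⟨b1, b2, b3⟩ := a2 τ hτ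
      rw [b1, b2, b3]
      exact ⟨by linarith, le_rfl, le_rfl, by simp⟩
  have es : ∀ s < t₀, {τ | φ τ < s} = {τ | τ ∈ O ∧ nsq (q τ - z) < s} := fun s hs => by
    ext τ
    by_cases hτ : τ ∈ S
    · simp only [mem_ofPred_eq, (a1 τ hτ).1, hτ.1, true_and]
    · simp only [mem_ofPred_eq, (a2 τ hτ).1, not_lt.2 hs.le, false_iff]
      exact fun hh => hτ ⟨hh.1, hh.2.le.trans hs.le⟩
  have el : ∀ s < t₀, ENNReal.ofReal (∫ τ in {τ | φ τ < s}, D τ ∂κ) =
      ∫⁻ τ in {τ | τ ∈ O ∧ nsq (q τ - z) < s}, ENNReal.ofReal (bpdpD q τ) ∂κ := fun s hs => by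
    rw [ofReal_integral_eq_lintegral_ofReal iD.integrableOn (ae_of_all _ fun τ => (p0 τ).2.1),
      es s hs]
    refine setLIntegral_congr_fun (h.opn' z s).measurableSet fun τ hτ => ?_
    simp only [(a1 τ ⟨hτ.1, hτ.2.le.trans hs.le⟩).2.1]
  obtain ⟨O', hO', hl⟩ := hκ.loc τ₀
  have ho : IsOpen (interior O' ∩ O) := isOpen_interior.inter h.opn
  have h2 := H N q τ₀ _ ho ⟨mem_interior_iff_mem_nhds.2 hO', h0⟩
    (fun τ hτ => (h.hol τ hτ.2).self_of_nhds.differentiableWithinAt) hi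
  obtain ⟨s, ⟨S₁, m1, s1, s2, i1, s3⟩, hs0, hst⟩ := (h2.and (Ioc_mem_nhdsGT ht)).exists
  have hm := mon_zero (n := n) (t₀ := t₀) mφ iD iQ.aestronglyMeasurable (ae_of_all _ p0)
    (fun l hl ⟨t', ht', hl0⟩ => by
      rw [← h.stokes hκ z hS hl fun s hs => hl0 s (ht'.le.trans hs)]
      congr 2
      · congr 1
        funext τ
        by_cases hτ : τ ∈ S
        · rw [indicator_of_mem hτ, (a1 τ hτ).1, (a1 τ hτ).2.1]
        · rw [indicator_of_notMem hτ, (a2 τ hτ).2.1, mul_zero]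
      · funext τ
        by_cases hτ : τ ∈ S
        · rw [indicator_of_mem hτ, (a1 τ hτ).1, (a1 τ hτ).2.2]
        · rw [indicator_of_notMem hτ, (a2 τ hτ).2.2, mul_zero]) hs0 hst htt
  have hst' := hst.trans_lt htt
  set T := {τ | τ ∈ O ∧ nsq (q τ - z) < s} with hT
  have mT : MeasurableSet T := (h.opn' z s).measurableSet
  have low : ENNReal.ofReal (c * s ^ n) ≤ ENNReal.ofReal (∫ τ in {τ | φ τ < s}, D τ ∂κ) := by
    have e3 : ∀ τ ∈ T, D τ = bpdpD q τ := fun τ hτ => (a1 τ ⟨hτ.1, hτ.2.le.trans hst'.le⟩).2.1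
    have hu := hl (T.indicator fun τ => ENNReal.ofReal (D τ))
      (mD.ennreal_ofReal.indicator mT) fun τ τ' e => by
        by_cases hτ : τ ∈ T
        · obtain ⟨b1, b2, b3⟩ := h.inv τ τ' e hτ.1
          have hτ' : τ' ∈ T := ⟨b1, b2 ▸ hτ.2⟩
          rw [indicator_of_mem hτ, indicator_of_mem hτ', e3 τ hτ, e3 τ' hτ', bpdpD, bpdpD, b3]
        · have hτ' : τ' ∉ T := fun h' => by
            obtain ⟨b1, b2, -⟩ := h.inv τ' τ e.symm h'.1
            exact hτ ⟨b1, b2 ▸ h'.2⟩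
          rw [indicator_of_notMem hτ, indicator_of_notMem hτ']
    rw [el s hst', ← setLIntegral_congr_fun mT fun τ hτ => congrArg ENNReal.ofReal (e3 τ hτ),
      ← lintegral_indicator mT]
    refine le_trans ?_ hu
    refine (ENNReal.ofReal_le_ofReal s3).trans ?_
    rw [ofReal_integral_eq_lintegral_ofReal i1 ((ae_restrict_iff' m1).2 (ae_of_all _ fun τ hτ =>
      (mq_le (h.sub z (s1 hτ).2)).1))]
    refine le_trans (le_of_eq (setLIntegral_congr_fun m1 fun τ hτ => ?_))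
      (lintegral_mono_set fun τ hτ => interior_subset (s1 hτ).1)
    have hτ' : τ ∈ T := ⟨(s1 hτ).2, s2 τ hτ⟩
    simp only [indicator_of_mem hτ', e3 τ hτ', h.lev (q τ₀) hτ'.1]
  rw [ENNReal.ofReal_le_ofReal_iff (integral_nonneg fun τ => (p0 τ).2.1)] at low
  rw [← el t htt]
  refine ENNReal.ofReal_le_ofReal (le_trans ?_ hm)
  calc c / 2 ^ n * t ^ n = (t / (2 * s)) ^ n * (c * s ^ n) := by
        rw [div_pow, mul_pow]
        field_simp
    _ ≤ _ := by gcongr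

end

variable [TopologicalSpace X] {A : Atlas X N} {F : Fib A n}

theorem bpdp_Vf {i j : A.ι} {O : Set (E N)} {φ : E N → E N} {g : X → E n} {z : E N}
    (hc : IsChange (A.C i) (A.C j) O φ) (he : ∀ w ∈ O, A.p j (φ w) = A.p i w) (hz : z ∈ O)
    (hg : DifferentiableAt ℂ (fun w => g (A.p j w)) (φ z)) :
    Vf A g j (φ z) = jac φ z * Vf A g i z := by
  have hz' := hc.isOpen.mem_nhds hz
  have e : (fun w => g (A.p i w)) =ᶠ[𝓝 z] (fun w => g (A.p j w)) ∘ φ := by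
    filter_upwards [hz'] with w hw
    rw [Function.comp_apply, he w hw]
  have hJ : Jg A g i z = Jg A g j (φ z) * jac φ z := by
    rw [Jg, Jg, ← bpdp_comp hg (hc.hol.differentiableAt hz')]
    simp only [jac, e.fderiv_eq]
  have u : IsUnit (jac φ z).det := by
    have := (A.C i).σ_det z (hc.sub hz)
    rw [hc.σ_eq z hz, Matrix.det_mul] at this
    exact (right_ne_zero_of_mul this).isUnit
  have u' : IsUnit (jac φ z)ᵀ.det := by rwa [Matrix.det_transpose]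
  rw [Vf, Vf, hJ, hc.σ_eq z hz, Matrix.mul_inv_rev, Matrix.mul_inv_rev,
    Matrix.transpose_mul, Matrix.mul_assoc, Matrix.mul_nonsing_inv_cancel_left _ _ u,
    Matrix.mul_assoc, Matrix.nonsing_inv_mul_cancel_left _ _ u']

theorem bpdp_inj {i : A.ι} {z : E N} (hz : z ∈ dom A F.W i) {v : E n}
    (hv : Vf A F.g i z *ᵥ v = 0) : v = 0 := by
  have h1 : (Jg A F.g i z)ᵀ *ᵥ v = 0 := by
    have := congrArg ((A.C i).σ z *ᵥ ·) hv
    simpa only [Matrix.mulVec_mulVec, Vf, Matrix.mulVec_zero,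
      Matrix.mul_nonsing_inv_cancel_left _ _ ((A.C i).σ_det z hz.1).isUnit] using this
  obtain ⟨u, hu⟩ := F.g_sub i z hz (star v)
  have h2 : v ⬝ᵥ star v = 0 := by
    rw [← hu, ← bpt2_jac, Matrix.dotProduct_mulVec, ← Matrix.mulVec_transpose]
    exact (congrArg (· ⬝ᵥ u) h1).trans (zero_dotProduct u)
  exact dotProduct_self_star_eq_zero.1 h2

theorem bpdp_lift (hinj : ∀ i, InjOn (A.p i) (A.C i).W) {Ψ : E n → X} (hW : ∀ τ, Ψ τ ∈ F.W)
    (hl : ∀ τ, ∃ (i : A.ι) (f : E n → E N), ∀ᶠ t in 𝓝 τ, DifferentiableAt ℂ f t ∧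
      f t ∈ (A.C i).W ∧ A.p i (f t) = Ψ t ∧ jac f t = Vf A F.g i (f t)) (i : A.ι) :
    Continuous Ψ ∧ ∃ q : E n → E N, BpdpQ Ψ (Ψ ⁻¹' (A.p i '' (A.C i).W)) q ∧
      ∀ τ ∈ Ψ ⁻¹' (A.p i '' (A.C i).W), q τ ∈ (A.C i).W ∧ A.p i (q τ) = Ψ τ ∧
        jac q τ = Vf A F.g i (q τ) := by
  have hc : Continuous Ψ := continuous_iff_continuousAt.2 fun τ => by
    obtain ⟨j, f, hf⟩ := hl τ
    obtain ⟨h1, h2, -⟩ := hf.self_of_nhds
    exact (((A.cont j).continuousAt ((A.C j).isOpen.mem_nhds h2)).comp h1.continuousAt).congr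
      (hf.mono fun t ht => ht.2.2.1)
  let q : E n → E N := fun τ => Function.invFunOn (A.p i) (A.C i).W (Ψ τ)
  have h1 : ∀ τ ∈ Ψ ⁻¹' (A.p i '' (A.C i).W), q τ ∈ (A.C i).W ∧ A.p i (q τ) = Ψ τ :=
    fun τ hτ => Function.invFunOn_pos hτ
  have h2 : ∀ τ ∈ Ψ ⁻¹' (A.p i '' (A.C i).W), (∀ᶠ t in 𝓝 τ, DifferentiableAt ℂ q t) ∧
      jac q τ = Vf A F.g i (q τ) := fun τ hτ => by
    obtain ⟨j, f, hf⟩ := hl τ
    obtain ⟨a1, a2, a3, a4⟩ := hf.self_of_nhds
    obtain ⟨O, φ, b1, b2, b3, b4⟩ := A.trans j i _ a2 _ (h1 τ hτ).1 (a3.trans (h1 τ hτ).2.symm)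
    have c1 : ∀ᶠ t in 𝓝 τ, f t ∈ O := a1.continuousAt (b1.isOpen.mem_nhds b2)
    have c2 : q =ᶠ[𝓝 τ] φ ∘ f := by
      filter_upwards [hf, c1] with t ht ht'
      have e : A.p i (φ (f t)) = Ψ t := (b4 _ ht').trans ht.2.2.1
      have := h1 t ⟨_, b1.maps ht', e⟩
      exact hinj i this.1 (b1.maps ht') (this.2.trans e.symm)
    have c3 : ∀ w ∈ O, DifferentiableAt ℂ φ w := fun w hw =>
      b1.hol.differentiableAt (b1.isOpen.mem_nhds hw)
    constructor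
    · filter_upwards [hf, c1, c2.eventuallyEq_nhds] with t ht ht' e
      exact ((c3 _ ht').comp t ht.1).congr_of_eventuallyEq e
    · have hd : q τ ∈ dom A F.W i := ⟨(h1 τ hτ).1, by
        rw [mem_preimage, (h1 τ hτ).2]
        exact hW τ⟩
      have ho : IsOpen (dom A F.W i) := (A.cont i).isOpen_inter_preimage (A.C i).isOpen F.W_open
      have c4 := bpdp_Vf b1 b4 b2 (b3 ▸ (F.g_hol i).differentiableAt (ho.mem_nhds hd))
      rw [← b3, c4, ← a4, ← bpdp_comp (c3 _ b2) a1]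
      simp only [jac, c2.fderiv_eq]
  refine ⟨hc, q, ⟨(A.opn i _ (A.C i).isOpen subset_rfl).preimage hc, fun τ hτ => (h2 τ hτ).1,
    fun τ τ' e hτ => ?_⟩, fun τ hτ => ⟨(h1 τ hτ).1, (h1 τ hτ).2, (h2 τ hτ).2⟩⟩
  have hτ' : τ' ∈ Ψ ⁻¹' (A.p i '' (A.C i).W) := by
    rw [mem_preimage, ← e]
    exact hτ
  have e' : q τ = q τ' := congrArg (Function.invFunOn (A.p i) (A.C i).W) e
  exact ⟨hτ', e', by rw [(h2 τ hτ).2, (h2 τ' hτ').2, e']⟩

end Pool.Agent.BP
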