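import Pool.Agent.K.MP_63735c_ag.C202

/-! A plane and a sphere that miss a small set. -/

open scoped ComplexOrder ContDiff Matrix Topology ENNReal
open Set Metric MeasureTheory Filter

namespace Pool.Agent.BP

open Pool.Agent.SPF Pool.Agent.AB Pool.Agent.CK Pool.Agent.SE Pool.Agent.NL

theorem bpt9_row {n : ℕ} (v : E n) (b₀ : Fin n) (hv : v b₀ ≠ 0) (w : ℂ) {δ : ℝ} (hδ : 0 ≤ δ) :
    volume {x : E n | (∀ b, ‖x b‖ ≤ 1) ∧ ‖x ⬝ᵥ v - w‖ ≤ δ} ≤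
      ENNReal.ofReal ((δ / ‖v b₀‖) ^ 2) * (NNReal.pi : ℝ≥0∞) ^ n := by
  classical
  let M : Mat n := (1 : Mat n).updateRow b₀ v
  have hM : M.det = v b₀ := by
    have h1 := Matrix.det_updateRow_sum (1 : Mat n) b₀ v
    have h2 : ∑ k, v k • (1 : Mat n) k = v := by
      funext j
      simp [Finset.sum_apply, Matrix.one_apply]
    rw [h2] at h1
    simpa using h1
  let f : E n →ₗ[ℝ] E n := (Matrix.toLin' M).restrictScalars ℝ
  have hf : LinearMap.det f = ‖v b₀‖ ^ 2 := by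
    rw [LinearMap.det_restrictScalars, LinearMap.det_toLin', hM, Algebra.norm_complex_apply,
      Complex.normSq_eq_norm_sq]
  have hp : 0 < ‖v b₀‖ ^ 2 := by positivity
  have hs : {x : E n | (∀ b, ‖x b‖ ≤ 1) ∧ ‖x ⬝ᵥ v - w‖ ≤ δ} ⊆ f ⁻¹' Set.pi univ fun b =>
      closedBall (if b = b₀ then w else 0) (if b = b₀ then δ else 1) := by
    rintro x ⟨h1, h2⟩ b -
    have e : f x b = if b = b₀ then x ⬝ᵥ v else x b := by
      change (M *ᵥ x) b = _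
      split_ifs with hb
      · subst hb
        simp [M, Matrix.mulVec, dotProduct_comm]
      · simp [M, Matrix.mulVec, Matrix.updateRow_ne hb, Matrix.one_apply, dotProduct]
    rw [e, mem_closedBall, dist_eq_norm]
    split_ifs with hb
    · exact h2
    · simpa using h1 b
  refine (measure_mono hs).trans (le_of_eq ?_)
  rw [Measure.addHaar_preimage_linearMap volume (hf ▸ hp.ne'), volume_pi_pi, hf]
  simp only [Complex.volume_closedBall]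
  rw [Finset.prod_mul_distrib, Finset.prod_const, Finset.card_univ, Fintype.card_fin,
    Finset.prod_eq_single b₀ (fun b _ hb => by simp [hb]) (by simp), if_pos rfl, ← mul_assoc,
    ← ENNReal.ofReal_pow hδ, ← ENNReal.ofReal_mul (abs_nonneg _), abs_of_pos (inv_pos.2 hp),
    div_pow, div_eq_inv_mul]

theorem bpt9_bad {n : ℕ} (c : E n × E n) {R ε : ℝ} (hR : 0 < R) (hε : 0 < ε) :
    volume {p : (Fin n → E n) × ℝ | R / 2 ≤ ‖c.2‖ ∧ (∀ a, (∀ b, ‖p.1 a b‖ ≤ 1) ∧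
      ‖p.1 a ⬝ᵥ c.2 - c.1 a‖ ≤ (n + 1) * ε) ∧ p.2 ∈ Icc (‖c.2‖ - ε) (‖c.2‖ + ε)} ≤
      ENNReal.ofReal ((2 * (n + 1) / R) ^ (2 * n) * 2 * ε * ε ^ (2 * n)) *
        ((NNReal.pi : ℝ≥0∞) ^ n) ^ n := by
  by_cases hc : R / 2 ≤ ‖c.2‖
  swap
  · simp [hc]
  obtain ⟨b₀, hb⟩ : ∃ b, R / 2 ≤ ‖c.2 b‖ := by
    by_contra h
    push Not at h
    exact absurd ((pi_norm_lt_iff (by positivity)).2 h) (not_lt.2 hc)
  have hb0 : 0 < ‖c.2 b₀‖ := lt_of_lt_of_le (by positivity) hb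
  have e : {p : (Fin n → E n) × ℝ | R / 2 ≤ ‖c.2‖ ∧ (∀ a, (∀ b, ‖p.1 a b‖ ≤ 1) ∧
      ‖p.1 a ⬝ᵥ c.2 - c.1 a‖ ≤ (n + 1) * ε) ∧ p.2 ∈ Icc (‖c.2‖ - ε) (‖c.2‖ + ε)} =
      (Set.pi univ fun a => {x : E n | (∀ b, ‖x b‖ ≤ 1) ∧ ‖x ⬝ᵥ c.2 - c.1 a‖ ≤ (n + 1) * ε}) ×ˢ
        Icc (‖c.2‖ - ε) (‖c.2‖ + ε) := by
    ext p
    simp [hc]
  rw [e, Measure.volume_eq_prod, Measure.prod_prod, volume_pi_pi, Real.volume_Icc]
  have h1 : ∀ a, volume {x : E n | (∀ b, ‖x b‖ ≤ 1) ∧ ‖x ⬝ᵥ c.2 - c.1 a‖ ≤ (n + 1) * ε} ≤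
      ENNReal.ofReal ((2 * (n + 1) / R * ε) ^ 2) * (NNReal.pi : ℝ≥0∞) ^ n := fun a => by
    refine (bpt9_row c.2 b₀ (norm_pos_iff.1 hb0) _ (by positivity)).trans ?_
    gcongr
    calc (n + 1) * ε / ‖c.2 b₀‖ ≤ (n + 1) * ε / (R / 2) := by gcongr
      _ = 2 * (n + 1) / R * ε := by field_simp
  refine (mul_le_mul_left (Finset.prod_le_prod' fun a _ => h1 a) _).trans (le_of_eq ?_)
  rw [Finset.prod_const, Finset.card_univ, Fintype.card_fin, mul_pow,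
    ← ENNReal.ofReal_pow (by positivity), mul_right_comm, ← ENNReal.ofReal_mul (by positivity)]
  congr 2
  rw [← pow_mul, mul_pow]
  ring

theorem plane (n : ℕ) (hn : 1 ≤ n) {Z : Set (E n × E n)} {C ε₀ : ℝ} (h0 : 0 < ε₀)
    (hZ : ∀ ε, 0 < ε → ε ≤ ε₀ → ∃ T : Finset (E n × E n), (T.card : ℝ) * ε ^ (2 * n) ≤ C ∧
      Z ⊆ ⋃ c ∈ T, closedBall c ε) {R : ℝ} (hR : 0 < R) :
    ∃ (A : Mat n) (r : ℝ), (∀ a b, ‖A a b‖ ≤ 1) ∧ R ≤ r ∧ r ≤ 2 * R ∧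
      ∀ z ∈ Z, z.1 = A *ᵥ z.2 → ‖z.2‖ ≠ r := by
  by_contra hcon
  push Not at hcon
  set κ : ℝ := (2 * (n + 1) / R) ^ (2 * n) * 2 with hκ
  have hκ0 : 0 < κ := by positivity
  obtain ⟨ε, hε, h1, h2, h3⟩ : ∃ ε : ℝ, 0 < ε ∧ ε ≤ ε₀ ∧ ε ≤ R / 2 ∧ κ * ε * C < R := by
    have hq : 0 < κ * (|C| + 1) := by positivity
    refine ⟨min (min ε₀ (R / 2)) (R / (κ * (|C| + 1))), by positivity,
      (min_le_left _ _).trans (min_le_left _ _), (min_le_left _ _).trans (min_le_right _ _), ?_⟩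
    set ε := min (min ε₀ (R / 2)) (R / (κ * (|C| + 1)))
    have e0 : 0 < ε := by positivity
    have e1 : ε * (κ * (|C| + 1)) ≤ R := (le_div_iff₀ hq).1 (min_le_right _ _)
    have e2 : C < |C| + 1 := (le_abs_self C).trans_lt (lt_add_one _)
    have e3 : κ * ε * C < κ * ε * (|C| + 1) := mul_lt_mul_of_pos_left e2 (by positivity)
    linarith
  obtain ⟨T, hT, hZT⟩ := hZ ε hε h1
  have hs : (Set.pi univ fun _ : Fin n => Set.pi univ fun _ : Fin n => closedBall (0 : ℂ) 1) ×ˢ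
      Icc R (2 * R) ⊆ ⋃ c ∈ T, {p : (Fin n → E n) × ℝ | R / 2 ≤ ‖c.2‖ ∧
        (∀ a, (∀ b, ‖p.1 a b‖ ≤ 1) ∧ ‖p.1 a ⬝ᵥ c.2 - c.1 a‖ ≤ (n + 1) * ε) ∧
        p.2 ∈ Icc (‖c.2‖ - ε) (‖c.2‖ + ε)} := by
    rintro ⟨A, r⟩ ⟨hA, hr⟩
    have hA' : ∀ a b, ‖A a b‖ ≤ 1 := fun a b => by
      simpa using hA a (mem_univ _) b (mem_univ _)
    obtain ⟨z, hz, hz1, hz2⟩ := hcon (Matrix.of A) r hA' hr.1 hr.2
    obtain ⟨c, hc, hzc⟩ := mem_iUnion₂.1 (hZT hz)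
    rw [mem_closedBall, Prod.dist_eq, max_le_iff, dist_eq_norm, dist_eq_norm] at hzc
    have h4 := (abs_norm_sub_norm_le z.2 c.2).trans hzc.2
    rw [hz2, abs_le] at h4
    have h5 := hr.1
    refine mem_iUnion₂.2 ⟨c, hc, by linarith [h4.2], fun a => ⟨hA' a, ?_⟩,
      by linarith [h4.1], by linarith [h4.2]⟩
    have e : A a ⬝ᵥ c.2 - c.1 a = (z.1 - c.1) a - ∑ b, A a b * (z.2 - c.2) b := by
      rw [Pi.sub_apply, hz1]
      simp only [Matrix.mulVec, dotProduct, Matrix.of_apply, Pi.sub_apply, mul_sub,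
        Finset.sum_sub_distrib]
      ring
    have h6 : ‖∑ b, A a b * (z.2 - c.2) b‖ ≤ n * ε := by
      refine (norm_sum_le _ _).trans ((Finset.sum_le_card_nsmul _ _ ε fun b _ => ?_).trans ?_)
      · rw [norm_mul]
        exact (mul_le_of_le_one_left (norm_nonneg _) (hA' a b)).trans
          ((norm_le_pi_norm _ b).trans hzc.2)
      · simp
    have h7 := (norm_le_pi_norm _ a).trans hzc.1
    change ‖A a ⬝ᵥ c.2 - c.1 a‖ ≤ _
    rw [e]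
    refine (norm_sub_le _ _).trans ?_
    linarith
  have h8 := (measure_mono (μ := volume) hs).trans ((measure_biUnion_finset_le T _).trans
    (Finset.sum_le_card_nsmul _ _ _ fun c _ => bpt9_bad c hR hε))
  rw [Measure.volume_eq_prod, Measure.prod_prod, volume_pi_pi, Real.volume_Icc] at h8
  simp only [volume_pi_pi, Complex.volume_closedBall, Finset.prod_const, Finset.card_univ,
    Fintype.card_fin, ENNReal.ofReal_one, one_pow, one_mul, nsmul_eq_mul] at h8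
  have hpi : ((NNReal.pi : ℝ≥0∞) ^ n) ^ n ≠ 0 :=
    pow_ne_zero _ (pow_ne_zero _ (ENNReal.coe_ne_zero.2 NNReal.pi_ne_zero))
  have hpi' : ((NNReal.pi : ℝ≥0∞) ^ n) ^ n ≠ ⊤ :=
    ENNReal.pow_ne_top (ENNReal.pow_ne_top ENNReal.coe_ne_top)
  rw [mul_comm, ← mul_assoc, ENNReal.mul_le_mul_iff_left hpi hpi', ← ENNReal.ofReal_natCast,
    ← ENNReal.ofReal_mul (Nat.cast_nonneg _), ENNReal.ofReal_le_ofReal_iff (by positivity),
    ← hκ] at h8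
  have h9 := mul_le_mul_of_nonneg_left hT (show 0 ≤ κ * ε by positivity)
  linarith

theorem cover_of_sep {F : Type} [PseudoMetricSpace F] {Z : Set F} {ε C : ℝ} (hε : 0 < ε)
    (h : ∀ T : Finset F, (T : Set F) ⊆ Z → (∀ a ∈ T, ∀ b ∈ T, a ≠ b → ε < dist a b) →
      (T.card : ℝ) ≤ C) : ∃ T : Finset F, (T.card : ℝ) ≤ C ∧ Z ⊆ ⋃ c ∈ T, closedBall c ε := by
  classical
  let s : Set ℕ := {m | ∃ T : Finset F, ((T : Set F) ⊆ Z ∧
    ∀ a ∈ T, ∀ b ∈ T, a ≠ b → ε < dist a b) ∧ T.card = m}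
  have hb : BddAbove s := ⟨⌈C⌉₊, by
    rintro m ⟨T, hT, rfl⟩
    exact_mod_cast (h T hT.1 hT.2).trans (Nat.le_ceil C)⟩
  obtain ⟨T, hT, hm⟩ := Nat.sSup_mem (s := s) ⟨0, ∅, by simp, rfl⟩ hb
  refine ⟨T, h T hT.1 hT.2, fun z hz => ?_⟩
  by_contra hn
  have h1 : ∀ c ∈ T, ε < dist z c := fun c hc =>
    not_le.1 fun hle => hn (mem_iUnion₂.2 ⟨c, hc, hle⟩)
  have h2 : z ∉ T := fun hz => by
    have := h1 z hz
    rw [dist_self] at this
    exact lt_asymm hε this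
  have h3 : (insert z T).card ∈ s := by
    refine ⟨_, ⟨?_, fun a ha b hb hab => ?_⟩, rfl⟩
    · rw [Finset.coe_insert]
      exact insert_subset hz hT.1
    · rcases Finset.mem_insert.1 ha with ea | ea <;> rcases Finset.mem_insert.1 hb with eb | eb
      · exact absurd (ea.trans eb.symm) hab
      · exact ea ▸ h1 b eb
      · rw [dist_comm]
        exact eb ▸ h1 a ea
      · exact hT.2 a ea b eb hab
  have h4 := le_csSup hb h3
  rw [Finset.card_insert_of_notMem h2, ← hm] at h4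
  omega

end Pool.Agent.BP
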