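import Pool.Agent.K.MP_63735c_ag.C214
import Pool.Agent.K.MP_63735c_ag.C297
import Pool.Agent.P.MP_c4558b_ag.NLVol

/-! The limit set and its scales. -/

open scoped ComplexOrder ContDiff Matrix Topology ENNReal
open Set Metric MeasureTheory Filter

namespace Pool.Agent.BP

open Pool.Agent.SPF Pool.Agent.AB Pool.Agent.CK Pool.Agent.SE Pool.Agent.NL

variable {N n : ℕ} {X : Type} [TopologicalSpace X] {A : Atlas X N} {F : Fib A n}

theorem Fib.r_mem {x y : X} (hx : x ∈ F.W) (h : F.r x y) : y ∈ F.W ∧ F.g y = F.g x := by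
  obtain ⟨j, hj⟩ := F.cov x hx
  exact ((F.rel j x hj y).1 h).imp_left fun h' => F.U_sub j h'

lemma bpd2_map {i : A.ι} {z : E N} (hz : z ∈ (A.C i).W) : map (A.p i) (𝓝 z) = 𝓝 (A.p i z) := by
  refine le_antisymm ((A.cont i).continuousAt ((A.C i).isOpen.mem_nhds hz)) fun s hs => ?_
  obtain ⟨O, hO, ho, hzO⟩ := _root_.mem_nhds_iff.1
    (inter_mem (mem_map.1 hs) ((A.C i).isOpen.mem_nhds hz))
  refine mem_of_superset ((A.opn i O ho fun w hw => (hO hw).2).mem_nhds ⟨z, hzO, rfl⟩) ?_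
  rintro _ ⟨w, hw, rfl⟩
  exact (hO hw).1

theorem Fib.g_map {x : X} (hx : x ∈ F.W) : map F.g (𝓝 x) = 𝓝 (F.g x) := by
  obtain ⟨i, z, hz, rfl⟩ := A.cover x
  have hO : IsOpen (dom A F.W i) := (A.cont i).isOpen_inter_preimage (A.C i).isOpen F.W_open
  have hm := hO.mem_nhds ⟨hz, hx⟩
  have h1 := ((smooth_of_hol hO (F.g_hol i)).contDiffAt hm).hasStrictFDerivAt (by simp)
  rw [← bpd2_map hz, map_map]
  refine h1.map_nhds_eq_of_surj (LinearMap.range_eq_top.2 ?_)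
  rw [((F.g_hol i).differentiableAt hm).fderiv_restrictScalars ℝ]
  exact F.g_sub i z ⟨hz, hx⟩

theorem Fib.g_open {O : Set X} (hO : IsOpen O) (hs : O ⊆ F.W) : IsOpen (F.g '' O) := by
  refine isOpen_iff_mem_nhds.2 ?_
  rintro _ ⟨x, hx, rfl⟩
  rw [← Fib.g_map (hs hx)]
  exact image_mem_map (hO.mem_nhds hx)

theorem Fib.g_cont : ContinuousOn F.g F.W := by
  exact fun x hx => ContinuousAt.continuousWithinAt (Fib.g_map hx).le

theorem Fib.closed_orb {C : Set X} (hC : IsClosed C) {x : X} (hx : x ∈ F.W)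
    (h : x ∈ closure {y | y ∈ F.W ∧ ∀ y', F.r y y' → y' ∈ C}) : ∀ y', F.r x y' → y' ∈ C := by
  intro y' hy'
  obtain ⟨j, hj⟩ := F.cov x hx
  obtain ⟨h1, h2⟩ := (F.rel j x hj y').1 hy'
  rw [← hC.closure_eq, mem_closure_iff_nhds]
  intro O hO
  have h3 : F.g '' (O ∩ F.U j) ∈ map F.g (𝓝 x) := by
    rw [Fib.g_map hx, ← h2, ← Fib.g_map (F.U_sub j h1)]
    exact image_mem_map (inter_mem hO ((F.U_open j).mem_nhds h1))
  obtain ⟨y, ⟨⟨w, hw, e⟩, h4⟩, h5⟩ := mem_closure_iff_nhds.1 h _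
    (inter_mem (mem_map.1 h3) ((F.U_open j).mem_nhds hj))
  exact ⟨w, hw.1, h5.2 w ((F.rel j y h4 w).2 ⟨hw.2, e⟩)⟩

theorem Fib.sat_of_open [T2Space X] {O : Set X} (hO : IsOpen O) :
    F.Sat {x | x ∈ F.W ∧ ∀ y, F.r x y → y ∈ O} := by
  refine ⟨isOpen_iff_mem_nhds.2 fun x hx => ?_, fun x hx => hx.1,
    fun x hx y h => ⟨(Fib.r_mem hx.1 h).1, fun y' h' => hx.2 y' (F.eqv.trans h h')⟩⟩
  obtain ⟨j, hj⟩ := F.cov x hx.1
  obtain ⟨K, hK, h1, h2⟩ := exists_compact_subset (F.T_open j) (F.maps j hj)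
  have h3 : IsClosed (F.g '' ((F.U j ∩ F.g ⁻¹' K) \ O)) :=
    (((F.prop j K hK h2).diff hO).image_of_continuousOn
      (Fib.g_cont.mono fun w hw => F.U_sub j hw.1.1)).isClosed
  have h4 : K ∩ (F.g '' ((F.U j ∩ F.g ⁻¹' K) \ O))ᶜ ∈ map F.g (𝓝 x) := by
    rw [Fib.g_map hx.1]
    refine inter_mem (mem_interior_iff_mem_nhds.1 h1) (h3.isOpen_compl.mem_nhds ?_)
    rintro ⟨w, hw, e⟩
    exact hw.2 (hx.2 w ((F.rel j x hj w).2 ⟨hw.1.1, e⟩))
  filter_upwards [mem_map.1 h4, (F.U_open j).mem_nhds hj] with x' a1 a2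
  refine ⟨F.U_sub j a2, fun y hy => by_contra fun hc => ?_⟩
  obtain ⟨a3, a4⟩ := (F.rel j x' a2 y).1 hy
  exact a1.2 ⟨y, ⟨⟨a3, show F.g y ∈ K from a4 ▸ a1.1⟩, hc⟩, a4⟩

theorem Fib.lim_closed (U : Filter X) : IsClosed (F.Lim U) := by
  refine isClosed_of_closure_subset fun y hy O hO => ?_
  obtain ⟨y₁, h1, h2⟩ := mem_closure_iff_nhds.1 hy _ (interior_mem_nhds.2 hO)
  exact h2 O (mem_interior_iff_mem_nhds.1 h1)

theorem Fib.mem_lim {U : Filter X} {x : X} (h : U ≤ 𝓝 x) : x ∈ F.Lim U := by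
  intro O hO
  filter_upwards [h hO] with y hy using ⟨y, hy, F.eqv.refl y⟩

theorem Fib.lim_trap [CompactSpace X] (U : Ultrafilter X) {O : Set X} (hO : IsOpen O)
    (h : F.Lim U ⊆ O) : ∀ᶠ x in (U : Filter X), ∀ y, F.r x y → y ∈ O := by
  have key : ∀ᶠ x in (U : Filter X), ¬ ∃ y ∈ Oᶜ, F.r x y := by
    refine hO.isClosed_compl.isCompact.induction_on
      (p := fun s => ∀ᶠ x in (U : Filter X), ¬ ∃ y ∈ s, F.r x y) (by simp)
      (fun s t hst ht => ht.mono fun x hx ⟨y, h1, h2⟩ => hx ⟨y, hst h1, h2⟩)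
      (fun s t hs ht => ?_) fun y hy => ?_
    · filter_upwards [hs, ht] with x h1 h2
      rintro ⟨y, h3 | h3, h4⟩
      exacts [h1 ⟨y, h3, h4⟩, h2 ⟨y, h3, h4⟩]
    · by_contra hc
      refine hy (h fun O' hO' => by_contra fun h1 => hc ⟨O', mem_nhdsWithin_of_mem_nhds hO', ?_⟩)
      exact Ultrafilter.eventually_not.2 h1
  exact key.mono fun x hx y hy => by_contra fun hc => hx ⟨y, hc, hy⟩

theorem Sc.cbox_cpt (e : Sc A n) : IsCompact e.cbox ∧ e.cbox ⊆ (A.C e.i).W ∧ IsCompact e.shell ∧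
    e.shell ⊆ e.cbox ∧ IsOpen e.box ∧ e.box ⊆ e.cbox ∧ IsOpen e.core ∧ e.core ⊆ e.box := by
  have := e.ρ_pos
  exact ⟨e.l.toHomeomorph.isCompact_preimage.2
      ((isCompact_closedBall _ _).prod (isCompact_closedBall _ _)), e.sub,
    e.l.toHomeomorph.isCompact_preimage.2
      ((isCompact_closedBall _ _).prod ((isCompact_closedBall _ _).diff isOpen_ball)),
    preimage_mono (prod_mono Subset.rfl sdiff_subset),
    (isOpen_ball.prod isOpen_ball).preimage e.l.continuous,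
    preimage_mono (prod_mono ball_subset_closedBall ball_subset_closedBall),
    (isOpen_ball.prod isOpen_ball).preimage e.l.continuous,
    preimage_mono (prod_mono (ball_subset_ball (by linarith)) (ball_subset_ball e.lt.le))⟩

lemma bpd2_kap (ε : Fin n ⊕ Fin n ≃ Fin N) (w : E N) : ‖kap ε w‖ = ‖w‖ := by
  refine le_antisymm (norm_prod_le_iff.2 ⟨?_, ?_⟩)
    ((pi_norm_le_iff_of_nonneg (norm_nonneg _)).2 fun a => ?_)
  · exact (pi_norm_le_iff_of_nonneg (norm_nonneg _)).2 fun b => norm_le_pi_norm w (ε (.inl b))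
  · exact (pi_norm_le_iff_of_nonneg (norm_nonneg _)).2 fun b => norm_le_pi_norm w (ε (.inr b))
  · obtain ⟨b | b, rfl⟩ := ε.surjective a
    · exact (norm_le_pi_norm (kap ε w).1 b).trans (norm_fst_le _)
    · exact (norm_le_pi_norm (kap ε w).2 b).trans (norm_snd_le _)

lemma bpd2_shear (M : Mat n) :
    ∃ s : (E n × E n) ≃L[ℂ] (E n × E n), ∀ p, s p = (p.1 - M *ᵥ p.2, p.2) :=
  ⟨LinearEquiv.toContinuousLinearEquiv
    { toFun := fun p => (p.1 - M *ᵥ p.2, p.2)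
      invFun := fun p => (p.1 + M *ᵥ p.2, p.2)
      map_add' := fun p q => by simp [Matrix.mulVec_add, add_sub_add_comm]
      map_smul' := fun c p => by simp [Matrix.mulVec_smul, smul_sub]
      left_inv := fun p => by simp
      right_inv := fun p => by simp }, fun _ => rfl⟩

lemma bpd2_mulVec {M : Mat n} (hM : ∀ a b, ‖M a b‖ ≤ 1) (v : E n) : ‖M *ᵥ v‖ ≤ n * ‖v‖ := by
  refine (pi_norm_le_iff_of_nonneg (by positivity)).2 fun a =>
    (norm_sum_le Finset.univ fun b => M a b * v b).trans ?_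
  simpa using Finset.sum_le_card_nsmul Finset.univ (fun b => ‖M a b * v b‖) ‖v‖ fun b _ => by
    rw [norm_mul]
    exact (mul_le_of_le_one_left (norm_nonneg _) (hM a b)).trans (norm_le_pi_norm v b)

/-- The limit set has a small packing number. -/
lemma bpd2_pack (hP : F.Pack) (U : Ultrafilter X) (hU : F.W ∈ U) {i : A.ι} {z : E N} {R : ℝ}
    (hR : closedBall z R ⊆ (A.C i).W) : ∃ B r₀ : ℝ, 0 < r₀ ∧ ∀ ε, 0 < ε → ε ≤ r₀ →
      ∀ {κ : Type} (T : Finset κ) (w : κ → E N), (∀ t ∈ T, w t ∈ ball z R ∧ A.p i (w t) ∈ F.Lim U) →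
        (∀ t ∈ T, ∀ t' ∈ T, t ≠ t' → ε < dist (w t) (w t')) → T.card * (ε / 2) ^ (2 * n) ≤ B := by
  classical
  obtain ⟨B, r₀, h0, hB⟩ := hP i _ (isCompact_closedBall z R) hR
  refine ⟨B, r₀, h0, fun ε hε hε' κ T w h1 h2 => ?_⟩
  have h3 : ∀ᶠ x in (U : Filter X), ∀ t ∈ T,
      ∃ y' ∈ A.p i '' (ball (w t) (ε / 4) ∩ ball z R), F.r x y' := by
    refine (eventually_all_finset T).2 fun t ht => (h1 t ht).2 _ ?_
    rw [← bpd2_map (hR (ball_subset_closedBall (h1 t ht).1))]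
    exact image_mem_map (inter_mem (ball_mem_nhds _ (by positivity))
      (isOpen_ball.mem_nhds (h1 t ht).1))
  obtain ⟨x, hx, h4⟩ := (Eventually.and hU h3).exists
  have h5 : ∀ t ∈ T, ∃ v, (v ∈ ball (w t) (ε / 4) ∧ v ∈ ball z R) ∧ F.r x (A.p i v) := fun t ht => by
    obtain ⟨_, ⟨v, hv, rfl⟩, h⟩ := h4 t ht
    exact ⟨v, hv, h⟩
  choose! v hv hr using h5
  have h6 : ∀ t ∈ T, ∀ t' ∈ T, t ≠ t' → ε / 2 ≤ dist (v t) (v t') := fun t ht t' ht' hne => by
    have a1 := mem_ball'.1 (hv t ht).1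
    have a2 := mem_ball.1 (hv t' ht').1
    linarith [h2 t ht t' ht' hne, dist_triangle4 (w t) (v t) (v t') (w t')]
  rw [← Finset.card_image_of_injOn (f := v) fun t ht t' ht' e => by_contra fun hne => by
    have := h6 t ht t' ht' hne
    rw [e, dist_self] at this
    linarith]
  refine hB x hx _ (by positivity) (by linarith) _ (fun a ha => ?_) fun a ha b hb hab => ?_
  · obtain ⟨t, ht, rfl⟩ := Finset.mem_image.1 ha
    exact ⟨ball_subset_closedBall (hv t ht).2, hr t ht⟩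
  · obtain ⟨t, ht, rfl⟩ := Finset.mem_image.1 ha
    obtain ⟨t', ht', rfl⟩ := Finset.mem_image.1 hb
    exact h6 t ht t' ht' fun e => hab (by rw [e])

theorem Fib.exists_sc (hN : N = 2 * n) (hn : 1 ≤ n) (hP : F.Pack) (U : Ultrafilter X)
    (hU : F.W ∈ U) (y : X) :
    ∃ e : Sc A n, y ∈ A.p e.i '' e.core ∧ Disjoint (A.p e.i '' e.shell) (F.Lim U) := by
  obtain ⟨i, z, hz, rfl⟩ := A.cover y
  obtain ⟨R₀, hR₀, hs⟩ := nhds_basis_closedBall.mem_iff.1 ((A.C i).isOpen.mem_nhds hz)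
  let ε : Fin n ⊕ Fin n ≃ Fin N := finSumFinEquiv.trans (finCongr (by omega))
  obtain ⟨B, r₀, h0, hB⟩ := bpd2_pack hP U hU hs
  obtain ⟨R, hR, hR'⟩ : ∃ R : ℝ, 0 < R ∧ (3 * n + 3) * R < R₀ :=
    ⟨R₀ / (3 * n + 4), by positivity, by
      rw [mul_div_assoc', div_lt_iff₀ (by positivity)]
      linarith⟩
  obtain ⟨M, r, hM, hr1, hr2, hr⟩ := plane n hn (C := B * 2 ^ (2 * n))
    (Z := (fun w => kap ε (w - z)) '' {w | w ∈ ball z R₀ ∧ A.p i w ∈ F.Lim U}) h0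
    (fun δ hδ hδ' => by
      obtain ⟨T, h1, h2⟩ := cover_of_sep (C := B / (δ / 2) ^ (2 * n))
        (Z := (fun w => kap ε (w - z)) '' {w | w ∈ ball z R₀ ∧ A.p i w ∈ F.Lim U}) hδ
        fun T h1 h2 => by
          choose! w hw e using fun t (ht : t ∈ T) => h1 ht
          refine (le_div_iff₀ (by positivity)).2 (hB δ hδ hδ' T w hw fun t ht t' ht' hne => ?_)
          have := h2 t ht t' ht' hne
          rwa [← e t ht, ← e t' ht', dist_eq_norm, ← map_sub, bpd2_kap, sub_sub_sub_cancel_right,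
            ← dist_eq_norm] at this
      refine ⟨T, ?_, h2⟩
      rwa [le_div_iff₀ (by positivity), div_pow, ← mul_div_assoc,
        div_le_iff₀ (by positivity)] at h1) hR
  obtain ⟨s, hs'⟩ := bpd2_shear M
  set l := (kap ε).trans s with hl
  have e1 : ∀ w, (l w).1 - (l z).1 = (kap ε (w - z)).1 - M *ᵥ (kap ε (w - z)).2 ∧
      (l w).2 - (l z).2 = (kap ε (w - z)).2 := fun w => by
    rw [← Prod.fst_sub, ← Prod.snd_sub, ← map_sub, hl, ContinuousLinearEquiv.trans_apply, hs']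
    exact ⟨rfl, rfl⟩
  have e2 : l ⁻¹' (closedBall (l z).1 (2 * R) ×ˢ closedBall (l z).2 (3 * R)) ⊆ ball z R₀ := by
    intro w hw
    have a1 := mem_closedBall_iff_norm.1 hw.1
    have a2 := mem_closedBall_iff_norm.1 hw.2
    rw [(e1 w).1] at a1
    rw [(e1 w).2] at a2
    have a3 := (bpd2_mulVec hM _).trans (mul_le_mul_of_nonneg_left a2 n.cast_nonneg)
    have a4 := norm_sub_norm_le (kap ε (w - z)).1 (M *ᵥ (kap ε (w - z)).2)
    have a5 : 0 ≤ n * R := by positivity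
    rw [mem_ball_iff_norm, ← bpd2_kap ε, Prod.norm_def, max_lt_iff]
    constructor <;> linarith
  have hK : IsCompact (l ⁻¹' (closedBall (l z).1 (2 * R) ×ˢ closedBall (l z).2 (3 * R))) :=
    l.toHomeomorph.isCompact_preimage.2 ((isCompact_closedBall _ _).prod (isCompact_closedBall _ _))
  have e3 := (e2.trans ball_subset_closedBall).trans hs
  obtain ⟨η, hη, h1⟩ := (hK.of_isClosed_subset (((A.cont i).mono e3).preimage_isClosed_of_isClosed
    hK.isClosed (Fib.lim_closed (F := F) U)) inter_subset_left).exists_forall_le' (a := 0)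
    (f := fun w => dist (l w).1 (l z).1 + |dist (l w).2 (l z).2 - r|) (by fun_prop) fun w hw => by
      refine lt_of_le_of_ne (by positivity) fun e => ?_
      obtain ⟨a1, a2⟩ := (add_eq_zero_iff_of_nonneg dist_nonneg (abs_nonneg _)).1 e.symm
      rw [dist_eq_norm, norm_eq_zero, (e1 w).1, sub_eq_zero] at a1
      rw [abs_eq_zero, sub_eq_zero, dist_eq_norm, (e1 w).2] at a2
      exact hr _ ⟨w, ⟨e2 hw.1, hw.2⟩, rfl⟩ a1 a2
  obtain ⟨ρ, hρ, b1, b2⟩ : ∃ ρ : ℝ, 0 < ρ ∧ 3 * ρ < η ∧ ρ < R :=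
    ⟨min (η / 4) (R / 2), by positivity, by linarith [min_le_left (η / 4) (R / 2)],
      by linarith [min_le_right (η / 4) (R / 2)]⟩
  have e4 : l ⁻¹' (closedBall (l z).1 (2 * ρ) ×ˢ closedBall (l z).2 (r + ρ)) ⊆
      l ⁻¹' (closedBall (l z).1 (2 * R) ×ˢ closedBall (l z).2 (3 * R)) := preimage_mono
    (prod_mono (closedBall_subset_closedBall (by linarith))
      (closedBall_subset_closedBall (by linarith)))
  refine ⟨⟨i, l, (l z).1, (l z).2, ρ, r - ρ, r + ρ, hρ, by linarith, e4.trans e3⟩,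
    ⟨z, ⟨mem_ball_self hρ, mem_ball_self (show 0 < r - ρ by linarith)⟩, rfl⟩,
    disjoint_left.2 ?_⟩
  rintro _ ⟨w, ⟨a1, a2, a3⟩, rfl⟩ hw
  have a4 := h1 w ⟨e4 ⟨a1, a2⟩, hw⟩
  have a5 : dist (l w).1 (l z).1 ≤ 2 * ρ := a1
  have a6 : dist (l w).2 (l z).2 ≤ r + ρ := a2
  have a7 : r - ρ ≤ dist (l w).2 (l z).2 := not_lt.1 a3
  have a8 : |dist (l w).2 (l z).2 - r| ≤ ρ := abs_le.2 ⟨by linarith, by linarith⟩
  linarith

end Pool.Agent.BP
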