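import Pool.Agent.K.MP_63735c_ag.C293
import Pool.Agent.K.MP_63735c_ag.C225
import Pool.Agent.K.MP_63735c_ag.C296
import Pool.Agent.K.MP_63735c_ag.C298

/-! Separation of points by sections: elementary facts. -/

open scoped ComplexOrder ContDiff Matrix Topology ENNReal
open Set Metric MeasureTheory Filter

namespace Pool.Agent.BP

open Pool.Agent.SPF Pool.Agent.CL Pool.Agent.NL Pool.Agent.CK Pool.Agent.AB Pool.Agent.SE

variable {N n : ℕ} {X : Type} [TopologicalSpace X] {A : Atlas X N} {L : Line A} {k : ℕ}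
  {s t : A.ι → E N → ℂ} {x y : X} {i j : A.ι} {z w : E N}

theorem fb4_g (L : Line A) (hz : z ∈ (A.C i).W) (hw : w ∈ (A.C j).W) (e : A.p i z = A.p j w) :
    L.g i j (A.p i z) ≠ 0 := fun h => by
  have := L.ψ_eq i j z hz w hw e
  rw [h] at this
  simp at this

theorem van_iff (hs : L.IsSection k s) (hz : z ∈ (A.C i).W) : Van A s (A.p i z) ↔ s i z = 0 :=
  ⟨fun h => h i z hz rfl, fun h j w hw e => by rw [hs.2 i j z hz w hw e.symm, h, mul_zero]⟩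

theorem van_nrm (hs : L.IsSection k s) (x : X) : ¬ Van A s x ↔ 0 < nrm L k s x := by
  obtain ⟨i, z, hz, rfl⟩ := A.cover x
  rw [van_iff hs hz, nrm_eq hs hz, mul_pos_iff_of_pos_right (Real.exp_pos _), sq_pos_iff,
    norm_ne_zero_iff]

theorem nrm_cont (hs : L.IsSection k s) : Continuous (nrm L k s) := sect_cont (nrm_norm hs)

theorem sec_pow (hs : L.IsSection k s) (l : ℕ) :
    L.IsSection (k * l) fun i z => s i z ^ l :=
  ⟨fun i => (hs.1 i).pow l, fun i j z hz y hy e => by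
    simp only [hs.2 i j z hz y hy e, mul_pow, pow_mul]⟩

theorem sep_of_ne (hs : L.IsSection k s) (ht : L.IsSection k t) (hz : z ∈ (A.C i).W)
    (hw : w ∈ (A.C j).W) (h : s i z * t j w ≠ t i z * s j w) : Sep L k (A.p i z) (A.p j w) := by
  have h1 : L.IsSection k fun i z => s i z * t j w - t i z * s j w :=
    ⟨fun i => ((hs.1 i).mul_const _).sub ((ht.1 i).mul_const _), fun a b z hz y hy e => by
      simp only [hs.2 a b z hz y hy e, ht.2 a b z hz y hy e]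
      ring⟩
  exact ⟨_, h1, (van_iff h1 hw).2 (by ring), fun e => h (sub_eq_zero.1 ((van_iff h1 hz).1 e))⟩

theorem Sep.mul (h : Sep L k x y) {l : ℕ} (hl : 1 ≤ l) : Sep L (k * l) x y := by
  obtain ⟨s, h1, h2, h3⟩ := h
  exact ⟨_, sec_pow h1 l, fun i z hz e => by simp [h2 i z hz e, Nat.ne_of_gt hl],
    fun h => h3 fun i z hz e => pow_eq_zero_iff (Nat.ne_of_gt hl) |>.1 (h i z hz e)⟩

theorem Bpf.mul (h : Bpf L k) (l : ℕ) : Bpf L (k * l) := fun x => by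
  obtain ⟨s, h1, h2⟩ := h x
  obtain ⟨i, z, hz, rfl⟩ := A.cover x
  exact ⟨_, sec_pow h1 l, fun h => h2 ((van_iff h1 hz).2 (eq_zero_of_pow_eq_zero (h i z hz rfl)))⟩

theorem Sep.symm (hb : Bpf L k) (h : Sep L k x y) : Sep L k y x := by
  obtain ⟨s, h1, h2, h3⟩ := h
  obtain ⟨t, h4, h5⟩ := hb y
  obtain ⟨i, z, hz, rfl⟩ := A.cover x
  obtain ⟨j, w, hw, rfl⟩ := A.cover y
  rw [van_iff h1 hz] at h3
  rw [van_iff h4 hw] at h5
  refine sep_of_ne h4 h1 hw hz ?_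
  rw [(van_iff h1 hw).1 h2, zero_mul]
  exact mul_ne_zero h5 h3

theorem nsep_trans {u : X} (h1 : ¬ Sep L k x y) (h2 : ¬ Sep L k y u) : ¬ Sep L k x u :=
  fun ⟨s, a, b, c⟩ => h1 ⟨s, a, by_contra fun d => h2 ⟨s, a, b, d⟩, c⟩

theorem sep_open (hb : Bpf L k) : IsOpen {p : X × X | Sep L k p.1 p.2} := by
  refine isOpen_iff_mem_nhds.2 ?_
  rintro ⟨x, y⟩ ⟨s, h1, h2, h3⟩
  obtain ⟨t, h4, h5⟩ := hb y
  obtain ⟨i, z, hz, rfl⟩ := A.cover x
  obtain ⟨j, w, hw, rfl⟩ := A.cover y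
  rw [van_iff h1 hz] at h3
  rw [van_iff h4 hw] at h5
  have n1 := (A.C i).isOpen.mem_nhds hz
  have n2 := (A.C j).isOpen.mem_nhds hw
  have c : ∀ {u : A.ι → E N → ℂ}, L.IsSection k u →
      ContinuousAt (fun q : E N × E N => u i q.1) (z, w) ∧
        ContinuousAt (fun q : E N × E N => u j q.2) (z, w) := fun hu =>
    ⟨((hu.1 i).differentiableAt n1).continuousAt.comp_of_eq continuousAt_fst rfl,
      ((hu.1 j).differentiableAt n2).continuousAt.comp_of_eq continuousAt_snd rfl⟩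
  have h6 := (((c h1).1.mul (c h4).2).sub ((c h4).1.mul (c h1).2)).eventually_ne (y := 0) (by
    simp [(van_iff h1 hw).1 h2, h3, h5])
  rw [nhds_prod_eq, ← bpd2_map hz, ← bpd2_map hw, prod_map_map_eq, mem_map, ← nhds_prod_eq]
  filter_upwards [h6, prod_mem_nhds n1 n2] with q a b
  exact sep_of_ne h1 h4 b.1 b.2 (sub_ne_zero.1 a)

theorem fibre_eq (hb : Bpf L k) (x : X) : Fibre L k x = {y | ¬ Sep L k x y} :=
  Set.ext fun _ => ⟨fun h ⟨s, a, b, c⟩ => c ((h s a).1 b), fun h s a =>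
    ⟨fun b => by_contra fun c => h ⟨s, a, b, c⟩,
      fun b => by_contra fun c => h (Sep.symm hb ⟨s, a, b, c⟩)⟩⟩

variable [MeasurableSpace X] {μ : Measure X}

theorem fb4_s (U : Up A μ L) (hz : z ∈ U.D.W i) : U.s i z ≠ 0 := fun e => by
  have := U.φ_eq i z hz.1 hz.2
  rw [e] at this
  simp at this

/-- The quotient by a power of the first section. -/
theorem Up.ratio (U : Up A μ L) {l : ℕ} (ht : L.IsSection (U.m * l) t) :
    ∃ w : X → ℂ, U.D.Hol w ∧ (∀ i, ∀ z ∈ U.D.W i, t i z = w (A.p i z) * U.s i z ^ l) ∧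
      ∀ y ∈ U.W, ‖w y‖ ^ 2 * Real.exp (-(l * U.φ y)) = nrm L (U.m * l) t y := by
  have e : ∀ i, ∀ z ∈ (A.C i).W, gl A (fun i z => t i z / U.s i z ^ l) (A.p i z) =
      t i z / U.s i z ^ l := fun i z hz => gl_eq fun j y hy he => by
    rw [ht.2 i j z hz y hy he.symm, U.sec.2 i j z hz y hy he.symm, mul_pow, ← pow_mul,
      mul_div_mul_left _ _ (pow_ne_zero _ (fb4_g L hz hy he.symm))]
  have e2 : ∀ i, ∀ z ∈ U.D.W i, t i z = gl A (fun i z => t i z / U.s i z ^ l) (A.p i z) *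
      U.s i z ^ l := fun i z hz => by
    rw [e i z hz.1, div_mul_cancel₀ _ (pow_ne_zero _ (fb4_s U hz))]
  refine ⟨_, fun i => (((ht.1 i).mono inter_subset_left).mul
    ((((U.sec.1 i).mono inter_subset_left).pow l).inv fun z hz => pow_ne_zero _ (fb4_s U hz))).congr
      fun z hz => (e i z hz.1).trans (div_eq_mul_inv _ _), e2, fun y hy => ?_⟩
  obtain ⟨i, z, hz, rfl⟩ := A.cover y
  rw [nrm_eq ht hz, e2 i z ⟨hz, hy⟩, ← mul_neg, Real.exp_nat_mul, U.φ_eq i z hz hy, norm_mul,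
    norm_pow, mul_pow, mul_pow, ← Real.exp_nat_mul, Nat.cast_mul]
  ring_nf

variable {K : Form11 A} (Γ : Ctx μ K L n)

theorem Ctx.nsep_r [T2Space X] (hx : x ∈ Γ.F.W) (h : Γ.F.r x y) (l : ℕ) :
    ¬ Sep L (Γ.U.m * l) x y := by
  rintro ⟨s, h1, h2, h3⟩
  obtain ⟨w, w1, w2, -⟩ := Γ.U.ratio h1
  obtain ⟨Ψ, κ, -, p1, p2, -⟩ := Γ.tor.tor x hx
  have hW : ∀ u, Γ.F.r x u → u ∈ Γ.U.W := fun u hu => Γ.W_eq ▸ (Fib.r_mem hx hu).1
  have hd : Differentiable ℂ fun τ => w (Ψ τ) := fun τ => by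
    obtain ⟨i, f, hf⟩ := p2 τ
    obtain ⟨a1, a2, a3, -⟩ := hf.self_of_nhds
    exact (((w1 i).differentiableAt ((Γ.U.D.isOpen i).mem_nhds
      ⟨a2, hW _ ((p1 _).2 ⟨τ, a3.symm⟩)⟩)).comp τ a1).congr_of_eventuallyEq
        (hf.mono fun u hu => congrArg w hu.2.2.1.symm)
  obtain ⟨j, hj⟩ := Γ.F.cov x hx
  have hc := Γ.F.prop j {Γ.F.g x} isCompact_singleton (singleton_subset_iff.2 (Γ.F.maps j hj))
  have hw : ContinuousOn w Γ.U.D.M := Man.contOn fun i => (w1 i).continuousOn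
  rw [man_M] at hw
  have hb := (hc.image_of_continuousOn (hw.mono fun u hu =>
    Γ.W_eq ▸ Γ.F.U_sub j hu.1)).isBounded
  obtain ⟨τ, e1⟩ := (p1 x).1 (Γ.F.eqv.refl x)
  obtain ⟨τ', e2⟩ := (p1 y).1 h
  have := hd.apply_eq_apply_of_bounded (hb.subset (by
    rintro _ ⟨u, rfl⟩
    exact ⟨_, (Γ.F.rel j x hj _).1 ((p1 _).2 ⟨u, rfl⟩), rfl⟩)) τ τ'
  rw [e1, e2] at this
  obtain ⟨i, z, hz, rfl⟩ := A.cover x
  obtain ⟨i', z', hz', rfl⟩ := A.cover y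
  have a1 := (van_iff h1 hz').1 h2
  rw [w2 i' z' ⟨hz', hW _ h⟩, mul_eq_zero, or_iff_left (pow_ne_zero _ (fb4_s Γ.U
    ⟨hz', hW _ h⟩))] at a1
  exact h3 ((van_iff h1 hz).2 (by rw [w2 i z ⟨hz, Γ.W_eq ▸ hx⟩, this, a1, zero_mul]))

theorem Ctx.bpf_mul (l : ℕ) : Bpf L (Γ.U.m * (Γ.d * l)) := mul_assoc Γ.U.m Γ.d l ▸ Γ.bpf.mul l

theorem Ctx.lim_sub [T2Space X] {U : Filter X} [U.NeBot] (hU : U ≤ 𝓝[Γ.F.W] x) :
    Γ.F.Lim U ⊆ Γ.Z x := by
  intro y hy l _ h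
  obtain ⟨u, hu, v, hv, h1⟩ := mem_nhds_prod_iff.1 ((sep_open (Γ.bpf_mul l)).mem_nhds
    (show (x, y) ∈ _ from h))
  obtain ⟨x', ⟨y', a1, a2⟩, a3⟩ := ((hy v hv).and (hU (inter_mem_nhdsWithin _ hu))).exists
  exact Γ.nsep_r a3.1 a2 _ (h1 (mk_mem_prod a3.2 a1))

theorem Ctx.Z_eq (h : y ∈ Γ.Z x) : Γ.Z y = Γ.Z x ∧ x ∈ Γ.Z y := by
  have h1 : x ∈ Γ.Z y := fun l hl a => h l hl (a.symm (Γ.bpf_mul l))
  exact ⟨Set.ext fun u => ⟨fun a l hl => nsep_trans (h l hl) (a l hl),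
    fun a l hl => nsep_trans (h1 l hl) (a l hl)⟩, h1⟩

end Pool.Agent.BP
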