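import Pool.Agent.P.MP_63735c_ag.SFDefs
import Pool.Agent.K.MP_63735c_ag.C226
import Pool.Agent.K.MP_63735c_ag.C290
import Pool.Agent.K.MP_63735c_ag.C291
import Pool.Agent.K.MP_63735c_ag.C299

/-! Objects of the proof that the fibres on a singular space are connected (not in any
statement). -/

open scoped ComplexOrder ContDiff Matrix Topology ENNReal
open Set Metric MeasureTheory Filter

namespace Pool.Agent.ZB

open Pool.Agent.BP Pool.Agent.SPF Pool.Agent.AB Pool.Agent.CK Pool.Agent.SE Pool.Agent.NL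

variable {N n : ℕ} {X : Type} [TopologicalSpace X] {R : Set X} {A : Atlas R N}

/-- The regular points close to `x`. -/
abbrev nr (R : Set X) (x : X) : Filter R := comap Subtype.val (𝓝 x)

/-- A section of the `k`-th power vanishes at `y` and not at `x`. -/
def SepS (L : Line A) (k : ℕ) (x y : X) : Prop :=
  ∃ s, L.IsSection k s ∧ VanS L k s y ∧ ¬ VanS L k s x

/-- The `k`-th power has no base point. -/
def BpfS (L : Line A) (k : ℕ) : Prop := ∀ x : X, ∃ s, L.IsSection k s ∧ ¬ VanS L k s x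

/-- The value at `x` of the quotient of two sections. -/
noncomputable def rat (A : Atlas R N) (T t : A.ι → E N → ℂ) (x : X) : ℂ :=
  limUnder (nr R x) (gl A fun i z => T i z / t i z)

/-- The hypotheses on the singular space. -/
structure Sg (B : Amb R A) (K : Form11 A) (L : Line A) : Prop where
  kah : KahS B K
  nor : Normal B
  car : Cartier L
  dense : Dense R

/-- The class of `y` lies in `V`. -/
def InS (F : Fib A n) (V : Set X) (y : R) : Prop := y ∈ F.W ∧ ∀ y', F.r y y' → (y' : X) ∈ V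

/-- Coordinates on the classes close to the limit set of `U`. -/
structure LocS (F : Fib A n) (U : Filter R) (V₀ B : Set X) where
  m : ℕ
  M : Set R
  G : R → E m
  V : Set X
  a : E m
  δ : ℝ
  C : ℝ
  sat : F.Sat M
  sub : ∀ y ∈ M, (y : X) ∈ V₀
  δ_pos : 0 < δ
  C_pos : 0 < C
  G_hol : ∀ i, DifferentiableOn ℂ (fun z => G (A.p i z)) (dom A M i)
  grad : ∀ i, ∀ z ∈ dom A M i, ∀ v,
    nsq (fderiv ℂ (fun y => G (A.p i y)) z v) ≤ C * hr (F.Om i z) v
  bdd : ∀ y ∈ M, ‖G y‖ ≤ C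
  V_open : IsOpen V
  lim : F.LimS Subtype.val U ⊆ V
  mem : ∀ y, InS F V y → y ∈ M
  closed : ∀ y₁, InS F V y₁ → ∀ y ∈ F.W,
    y ∈ closure {y' | y' ∈ M ∧ ‖G y' - G y₁‖ ≤ 2 * δ} → y ∈ M
  tend : Tendsto G U (𝓝 a)
  pass : ∀ y ∈ M, ‖G y - a‖ ≤ δ → ∃ y' : R, (y' : X) ∈ B ∧ F.r y y'
  cl : ∀ U₁ U₂ : Ultrafilter R, M ∈ U₁ → M ∈ U₂ → ∀ c, Tendsto G U₁ (𝓝 c) → Tendsto G U₂ (𝓝 c) →
    (F.LimS Subtype.val U₁ ∩ F.LimS Subtype.val U₂).Nonempty

variable [MeasurableSpace R]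

/-- All the data. -/
structure CtxS (B : Amb R A) (μ : Measure R) (K : Form11 A) (L : Line A) (n : ℕ) where
  U : Up A μ L
  F : Fib A n
  h : R → Mat n
  c₀ : ℝ
  a : ℝ
  d : ℕ
  hN : N = 2 * n
  n_pos : 1 ≤ n
  vol : IsVolume A μ
  sg : Sg B K L
  cov : SB.Cov L
  K_pos : ∀ i, ∀ z ∈ (A.C i).W, (K.h i z).PosDef
  W_eq : F.W = U.W
  tor : F.Tor μ K h c₀
  lift : F.Lift K h
  em : ∀ x : X, ∃ e : Em A K F.W U.φ Subtype.val, x ∈ e.O
  a_pos : 0 < a
  th : ∀ i, ∀ z ∈ dom A U.W i, ∀ v, a * hr (F.Om i z) v ≤ U.th i z v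
  d_pos : 1 ≤ d
  bpf : BpfS L (U.m * d)

/-- The points that no power separates from `x`. -/
def CtxS.Z {B : Amb R A} {μ : Measure R} {K : Form11 A} {L : Line A} (Γ : CtxS B μ K L n) (x : X) :
    Set X := {y | ∀ l, 1 ≤ l → ¬ SepS L (Γ.U.m * (Γ.d * l)) x y}

end Pool.Agent.ZB
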