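import Pool.Agent.K.MP_63735c_ag.C291
import Pool.Agent.K.MP_63735c_ag.C292

/-! Extension of sections over the ball and a weighted bound. -/

open scoped ComplexOrder ContDiff Matrix Topology ENNReal
open Set Metric MeasureTheory Filter

namespace Pool.Agent.SB

open Pool.Agent.SPF Pool.Agent.NL Pool.Agent.CK Pool.Agent.AB Pool.Agent.SE Pool.Agent.BP

variable {N : ℕ} {X : Type} [TopologicalSpace X] [MeasurableSpace X] {A : Atlas X N}
  {μ : Measure X} {L : Line A} {i : A.ι} {z₀ : E N} {r : ℝ}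

theorem sbea_ext [T2Space X] [BorelSpace X] (U : Up A μ L) (hμ : IsVolume A μ) : U.Ext := by
  intro i z _ r hr hb f hf hi
  obtain ⟨ψ', hp⟩ := (EP.of_sub L hr hb).up U hμ (half_pos hr) (half_lt_self hr)
  have hs : ball z (r / 2) ∩ U.D.W i ⊆ ball z r ∩ U.D.W i :=
    inter_subset_inter_left _ (ball_subset_ball (half_le_self hr.le))
  have h2 : IntegrableOn (fun y => ‖f y‖ ^ 2) (ball z r ∩ U.D.W i) volume :=
    ⟨(hf.continuousOn.norm.pow 2).aestronglyMeasurable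
      (measurableSet_ball.inter (U.D.isOpen i).measurableSet),
      (hasFiniteIntegral_iff_ofReal (Eventually.of_forall fun _ => sq_nonneg _)).2 hi.lt_top⟩
  obtain ⟨g, hg, he⟩ := hp.hol (hf.mono hs) (h2.mono_set (inter_subset_left.trans hs))
  exact ⟨_, by positivity, g, hg, fun y hy =>
    he ⟨⟨ball_subset_ball (by linarith) hy.1, hy.2⟩, hy.1⟩⟩

/-- Sections extend over a ball of fixed size. -/
theorem EP.ext [BorelSpace X] (hP : EP L i z₀ r) (U : Up A μ L) (hμ : IsVolume A μ) (hS : SecBd L) :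
    volume (ball z₀ (r / 128) \ U.D.W i) = 0 ∧ ∀ j T, L.IsSection j T →
      ∃ f, DifferentiableOn ℂ f (ball z₀ (r / 128)) ∧
        EqOn f (T i) (ball z₀ (r / 128) ∩ (A.C i).W) := by
  have hr := hP.pos
  obtain ⟨ψ', hp⟩ := hP.up U hμ (half_pos hr) (half_lt_self hr)
  have s1 : ball z₀ (r / 128) ⊆ ball z₀ (r / 2 / 16) := ball_subset_ball (by linarith)
  have s2 : ball z₀ (r / 128) ⊆ ball z₀ (r / 2) := ball_subset_ball (by linarith)
  refine ⟨measure_mono_null (fun z hz => by exact ⟨s1 hz.1, fun h => hz.2 h.2⟩) hp.null,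
    fun j T hT => ?_⟩
  obtain ⟨C, hC⟩ := hS j T hT
  obtain ⟨B, -, hB⟩ := hP.bds (half_lt_self hr)
  have hf : DifferentiableOn ℂ (T i) (ball z₀ (r / 2) ∩ U.D.W i) :=
    (hT.1 i).mono fun z hz => hz.2.1
  have hm := hp.isOpen.measurableSet
  have h2 : IntegrableOn (fun y => ‖T i y‖ ^ 2) (ball z₀ (r / 2) ∩ U.D.W i) volume := by
    refine IntegrableOn.of_bound ((measure_mono inter_subset_left).trans_lt measure_ball_lt_top)
      ((hf.continuousOn.norm.pow 2).aestronglyMeasurable hm) (C * Real.exp (j * B)) ?_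
    · refine (ae_restrict_mem hm).mono fun y hy => ?_
      have e1 := (abs_le.1 (hB y (ball_subset_closedBall hy.1) hy.2.1).2.1).2
      have e2 := hC i y hy.2.1
      have e3 : 1 ≤ Real.exp (-(j * L.ψ i y)) * Real.exp (j * B) := by
        rw [← Real.exp_add]
        exact Real.one_le_exp (by nlinarith [mul_le_mul_of_nonneg_left e1 (Nat.cast_nonneg j)])
      rw [Real.norm_of_nonneg (sq_nonneg _)]
      refine (le_mul_of_one_le_right (sq_nonneg _) e3).trans ?_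
      rw [← mul_assoc]
      exact mul_le_mul_of_nonneg_right e2 (Real.exp_nonneg _)
  obtain ⟨g, hg, he⟩ := hp.hol hf (h2.mono_set inter_subset_left)
  rw [show r / 2 / 64 = r / 128 by ring] at hg he
  refine ⟨g, hg, (he.mono (s₁ := ball z₀ (r / 128) ∩ (A.C i).W ∩ (ball z₀ (r / 2) ∩ U.D.W i))
    fun z hz => mem_inter hz.2 hz.1.1).of_subset_closure (hg.continuousOn.mono inter_subset_left)
    ((hT.1 i).continuousOn.mono inter_subset_right) inter_subset_left fun z hz => ?_⟩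
  exact (isOpen_ball.inter (A.C i).isOpen).inter_closure ⟨hz, hp.dense (s1 hz.1)⟩

/-- The norm with the weight `‖det σ‖` in the ball. -/
theorem EP.loc_l2 (hP : EP L i z₀ r) (U : Up A μ L) (j : ℕ) {C₀ C₁ : ℝ} (h0 : 0 ≤ C₀) (h1 : 0 ≤ C₁)
    {R : ℝ} (hR : R < r) : ∃ B : ℝ, 0 < B ∧
      ∀ (g s : X → ℂ) (q : X → ℝ), (∀ y, q y ≤ 0) →
        (∀ y, ‖s y‖ ^ 2 * Real.exp (-(j * U.φ y)) ≤ C₁) →
        ∫⁻ y in U.D.W i, ENNReal.ofReal (Real.exp (-(j * U.φ (A.p i y) + q (A.p i y))) *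
          ‖((A.C i).σ y).det‖ * ‖g (A.p i y) - s (A.p i y)‖ ^ 2) ≤ ENNReal.ofReal C₀ →
        ∫⁻ y in ball z₀ R ∩ U.D.W i, ENNReal.ofReal
          (‖g (A.p i y) * U.s i y ^ j‖ ^ 2 * ‖((A.C i).σ y).det‖) ≤ ENNReal.ofReal (B ^ 2) := by
  obtain ⟨B, hB, hb⟩ := hP.bds hR
  obtain ⟨K, hK⟩ : ∃ K, K = Real.exp (j * (U.m * B)) := ⟨_, rfl⟩
  have hK0 : 0 < K := hK ▸ Real.exp_pos _
  have hv : volume (ball z₀ R) ≠ ⊤ := measure_ball_lt_top.ne
  have hT : 0 ≤ 2 * K * C₀ + 2 * K * (C₁ * B) * (volume (ball z₀ R)).toReal := by positivity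
  refine ⟨2 * K * C₀ + 2 * K * (C₁ * B) * (volume (ball z₀ R)).toReal + 1, by positivity,
    fun g s q hq hs hI => ?_⟩
  have hpt : ∀ y ∈ ball z₀ R ∩ U.D.W i,
      ENNReal.ofReal (‖g (A.p i y) * U.s i y ^ j‖ ^ 2 * ‖((A.C i).σ y).det‖) ≤
      ENNReal.ofReal (2 * K) * ENNReal.ofReal (Real.exp (-(j * U.φ (A.p i y) +
        q (A.p i y))) * ‖((A.C i).σ y).det‖ * ‖g (A.p i y) - s (A.p i y)‖ ^ 2) +
        ENNReal.ofReal (2 * K * (C₁ * B)) := by
    intro y hy
    rw [← ENNReal.ofReal_mul (by positivity), ← ENNReal.ofReal_add (by positivity) (by positivity)]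
    refine ENNReal.ofReal_le_ofReal ?_
    obtain ⟨b1, b2, -⟩ := hb y (ball_subset_closedBall hy.1) hy.2.1
    have e1 := U.φ_eq i y hy.2.1 hy.2.2
    have e2 : ‖U.s i y‖ ^ 2 = Real.exp (-U.φ (A.p i y) + U.m * L.ψ i y) := by
      rw [Real.exp_add, e1, mul_assoc, ← Real.exp_add, neg_add_cancel, Real.exp_zero, mul_one]
    have e3 : ‖U.s i y ^ j‖ ^ 2 ≤ K * Real.exp (-(j * U.φ (A.p i y))) := by
      rw [norm_pow, ← pow_mul, mul_comm j 2, pow_mul, e2, ← Real.exp_nat_mul, hK, ← Real.exp_add]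
      refine Real.exp_le_exp.2 ?_
      have := mul_le_mul_of_nonneg_left (mul_le_mul_of_nonneg_left (abs_le.1 b2).2
        (Nat.cast_nonneg U.m)) (Nat.cast_nonneg (α := ℝ) j)
      linarith
    have e4 : ‖g (A.p i y)‖ ^ 2 ≤ 2 * ‖g (A.p i y) - s (A.p i y)‖ ^ 2 + 2 * ‖s (A.p i y)‖ ^ 2 := by
      have h2 := norm_add_le (g (A.p i y) - s (A.p i y)) (s (A.p i y))
      rw [sub_add_cancel] at h2
      have h3 := pow_le_pow_left₀ (norm_nonneg _) h2 2
      nlinarith [sq_nonneg (‖g (A.p i y) - s (A.p i y)‖ - ‖s (A.p i y)‖)]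
    have e5 : Real.exp (-(j * U.φ (A.p i y))) ≤ Real.exp (-(j * U.φ (A.p i y) + q (A.p i y))) :=
      Real.exp_le_exp.2 (by linarith [hq (A.p i y)])
    have e7 := hs (A.p i y)
    have e0 := Real.exp_pos (-(j * U.φ (A.p i y)))
    have e6 := norm_nonneg ((A.C i).σ y).det
    generalize Real.exp (-(j * U.φ (A.p i y))) = a at *
    generalize Real.exp (-(j * U.φ (A.p i y) + q (A.p i y))) = a' at *
    generalize ‖((A.C i).σ y).det‖ = d at *
    calc ‖g (A.p i y) * U.s i y ^ j‖ ^ 2 * d = ‖g (A.p i y)‖ ^ 2 * ‖U.s i y ^ j‖ ^ 2 * d := by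
          rw [norm_mul, mul_pow]
      _ ≤ (2 * ‖g (A.p i y) - s (A.p i y)‖ ^ 2 + 2 * ‖s (A.p i y)‖ ^ 2) * (K * a) * d :=
          mul_le_mul_of_nonneg_right (mul_le_mul e4 e3 (by positivity) (by positivity)) e6
      _ = 2 * K * (a * d * ‖g (A.p i y) - s (A.p i y)‖ ^ 2) +
          2 * K * (‖s (A.p i y)‖ ^ 2 * a * d) := by ring
      _ ≤ _ := by gcongr
  refine (setLIntegral_mono' (isOpen_ball.inter (U.D.isOpen i)).measurableSet hpt).trans ?_
  rw [lintegral_add_right _ measurable_const, lintegral_const_mul' _ _ ENNReal.ofReal_ne_top,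
    setLIntegral_const]
  refine (add_le_add (mul_le_mul_right ((lintegral_mono_set inter_subset_right).trans hI) _)
    (mul_le_mul_right (measure_mono inter_subset_left) _)).trans ?_
  rw [← ENNReal.ofReal_toReal hv, ← ENNReal.ofReal_mul (by positivity),
    ← ENNReal.ofReal_mul (by positivity), ← ENNReal.ofReal_add (by positivity) (by positivity),
    ENNReal.toReal_ofReal ENNReal.toReal_nonneg]
  exact ENNReal.ofReal_le_ofReal (by nlinarith)

end Pool.Agent.SB
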