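import Pool.Agent.K.MP_63735c_ag.C299

/-! The sections are determined by finitely many values. -/

open scoped ComplexOrder ContDiff Matrix Topology ENNReal
open Set Metric MeasureTheory Filter

namespace Pool.Agent.BP

open Pool.Agent.SPF Pool.Agent.CL Pool.Agent.NL Pool.Agent.CK Pool.Agent.AB Pool.Agent.SE

theorem nr7_loc {N : ℕ} {X : Type} [TopologicalSpace X] {A : Atlas X N} (L : Line A) (k : ℕ)
    (i : A.ι) {z : E N} (hz : z ∈ (A.C i).W) : ∃ O, IsOpen O ∧ z ∈ O ∧ O ⊆ (A.C i).W ∧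
      ∀ T, L.IsSection k T → T i z = 0 → ∀ M, (∀ x, nrm L k T x ≤ M) →
        ∀ y ∈ O, nrm L k T (A.p i y) ≤ M / 2 := by
  set e : E N → ℝ := fun w => Real.exp (-(k * L.ψ i w)) with he
  have hW := (A.C i).isOpen.mem_nhds hz
  have hc : ContinuousAt e z :=
    Real.continuous_exp.continuousAt.comp
      (continuousAt_const.mul ((L.ψ_smooth i).continuousOn.continuousAt hW)).neg
  have h0 : 0 < e z := Real.exp_pos _
  obtain ⟨r, hr, hb⟩ := Metric.mem_nhds_iff.1 (inter_mem hW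
    (hc (Ioo_mem_nhds (show e z / 2 < e z by linarith) (show e z < 2 * e z by linarith))))
  have hs : ball z (r / 4) ⊆ ball z r := ball_subset_ball (by linarith)
  refine ⟨ball z (r / 4), isOpen_ball, mem_ball_self (by linarith), fun w hw => (hb (hs hw)).1,
    fun T hT hT0 M hM y hy => ?_⟩
  have hM0 : 0 ≤ M := (sect_nonneg (nrm_norm hT) (A.p i z)).trans (hM _)
  have hq : 0 ≤ 2 * M / e z := by positivity
  have hB : ∀ w ∈ ball z r, ‖T i w‖ ≤ √(2 * M / e z) := fun w hw => by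
    have h1 := hM (A.p i w)
    rw [nrm_eq hT (hb hw).1] at h1
    have h2 : e z / 2 < e w := (hb hw).2.1
    refine Real.le_sqrt_of_sq_le ((le_div_iff₀ h0).2 ?_)
    have h3 : ‖T i w‖ ^ 2 * e w ≤ M := h1
    nlinarith [sq_nonneg ‖T i w‖]
  have h1 := hol_lip (show r / 4 < r by linarith) ((hT.1 i).mono fun w hw => (hb hw).1) hB hy
    (mem_ball_self (by linarith))
  rw [hT0, sub_zero] at h1
  have h2 : ‖y - z‖ ≤ r / 4 := by rw [← dist_eq_norm]; exact (mem_ball.1 hy).le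
  have h3 : ‖T i y‖ ≤ √(2 * M / e z) / 3 := by
    refine h1.trans ((mul_le_mul_of_nonneg_left h2 (div_nonneg (Real.sqrt_nonneg _)
      (by linarith))).trans (le_of_eq ?_))
    have : r - r / 4 = 3 * (r / 4) := by ring
    rw [this]
    field_simp
  have h4 : ‖T i y‖ ^ 2 ≤ 2 * M / e z / 9 := by
    refine (pow_le_pow_left₀ (norm_nonneg _) h3 2).trans (le_of_eq ?_)
    rw [div_pow, Real.sq_sqrt hq]
    norm_num
  have h5 : e y < 2 * e z := (hb (hs hy)).2.2
  rw [nrm_eq hT (hb (hs hy)).1]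
  refine (mul_le_mul h4 h5.le (Real.exp_pos _).le (by positivity)).trans ?_
  have : 2 * M / e z / 9 * (2 * e z) = 4 / 9 * M := by field_simp; ring
  rw [this]
  linarith

theorem nr7_uniq {N : ℕ} {X : Type} [TopologicalSpace X] [CompactSpace X] {A : Atlas X N}
    (L : Line A) (k : ℕ) : ∃ (m : ℕ) (c : Fin m → A.ι) (z : Fin m → E N),
      (∀ a, z a ∈ (A.C (c a)).W) ∧ ∀ T, L.IsSection k T → (∀ a, T (c a) (z a) = 0) →
        ∀ i, ∀ y ∈ (A.C i).W, T i y = 0 := by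
  have h := fun q : {q : A.ι × E N // q.2 ∈ (A.C q.1).W} => nr7_loc L k q.1.1 q.2
  choose O hO hz hsub hT using h
  obtain ⟨s, hs⟩ := isCompact_univ.elim_finite_subcover (fun q => A.p q.1.1 '' O q)
    (fun q => A.opn _ _ (hO q) (hsub q)) fun x _ => by
      obtain ⟨i, z, hzW, rfl⟩ := A.cover x
      exact mem_iUnion.2 ⟨⟨(i, z), hzW⟩, z, hz ⟨(i, z), hzW⟩, rfl⟩
  refine ⟨s.card, fun a => (s.equivFin.symm a).1.1.1, fun a => (s.equivFin.symm a).1.1.2,
    fun a => (s.equivFin.symm a).1.2, fun T hS h0 i y hy => ?_⟩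
  obtain ⟨x, -, hx⟩ := isCompact_univ.exists_isMaxOn ⟨A.p i y, mem_univ _⟩
    (sect_cont (nrm_norm hS)).continuousOn
  obtain ⟨q, hq, w, hw, rfl⟩ := mem_iUnion₂.1 (hs (mem_univ x))
  have h1 := h0 (s.equivFin ⟨q, hq⟩)
  simp only [Equiv.symm_apply_apply] at h1
  have h2 := hT q T hS h1 _ (fun x => hx (mem_univ x)) w hw
  have h3 : nrm L k T (A.p i y) ≤ nrm L k T (A.p q.1.1 w) := hx (mem_univ _)
  rw [nrm_eq hS hy] at h3
  have h4 : ‖T i y‖ ^ 2 ≤ 0 := by
    refine nonpos_of_mul_nonpos_left ?_ (Real.exp_pos (-(k * L.ψ i y)))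
    linarith
  exact norm_eq_zero.1 (pow_eq_zero_iff two_ne_zero |>.1 (le_antisymm h4 (sq_nonneg _)))

/-- The space of sections. -/
def nr7_V {N : ℕ} {X : Type} [TopologicalSpace X] {A : Atlas X N} (L : Line A) (k : ℕ) :
    Submodule ℂ (A.ι → E N → ℂ) where
  carrier := {T | L.IsSection k T}
  add_mem' := fun {S T} hS hT => ⟨fun i => (hS.1 i).add (hT.1 i), fun i j z hz y hy h => by
    simp only [Pi.add_apply, hS.2 i j z hz y hy h, hT.2 i j z hz y hy h, mul_add]⟩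
  zero_mem' := ⟨fun _ => differentiableOn_const 0, fun _ _ _ _ _ _ _ => by simp⟩
  smul_mem' := fun a T hT => ⟨fun i => (hT.1 i).const_smul a, fun i j z hz y hy h => by
    simp only [Pi.smul_apply, hT.2 i j z hz y hy h, smul_eq_mul, mul_left_comm]⟩

theorem sec_span {N : ℕ} {X : Type} [TopologicalSpace X] [CompactSpace X] {A : Atlas X N}
    (L : Line A) (k : ℕ) : ∃ (m : ℕ) (c : Fin m → A.ι) (z : Fin m → E N)
      (t : Fin m → A.ι → E N → ℂ), (∀ a, z a ∈ (A.C (c a)).W) ∧ (∀ a, L.IsSection k (t a)) ∧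
      ∀ T, L.IsSection k T → ∀ i, ∀ y ∈ (A.C i).W, T i y = ∑ a, T (c a) (z a) * t a i y := by
  obtain ⟨m, c, z, hz, h⟩ := nr7_uniq L k
  let ev : nr7_V L k →ₗ[ℂ] Fin m → ℂ :=
    { toFun := fun T a => T.1 (c a) (z a), map_add' := fun _ _ => rfl,
      map_smul' := fun _ _ => rfl }
  obtain ⟨g, hg⟩ := ev.rangeRestrict.exists_rightInverse_of_surjective ev.range_rangeRestrict
  obtain ⟨Λ, hΛ⟩ := g.exists_extend
  refine ⟨m, c, z, fun a => (Λ (Pi.single a 1)).1, hz, fun a => (Λ (Pi.single a 1)).2,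
    fun T hT i y hy => ?_⟩
  let S : nr7_V L k := ⟨T, hT⟩
  have h1 : ev (Λ (ev S)) = ev S := by
    have e1 : Λ (ev S) = g ⟨ev S, S, rfl⟩ := LinearMap.congr_fun hΛ ⟨ev S, S, rfl⟩
    rw [e1]
    exact congrArg Subtype.val (LinearMap.congr_fun hg ⟨ev S, S, rfl⟩)
  have h2 := h (S - Λ (ev S)).1 (S - Λ (ev S)).2
    (fun a => congrFun ((ev.map_sub _ _).trans (sub_eq_zero.2 h1.symm)) a) i y hy
  have h3 : Λ (ev S) = ∑ a, ev S a • Λ (Pi.single a 1) := by
    conv_lhs => rw [pi_eq_sum_univ' (ev S)]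
    simp only [map_sum, map_smul]
  have h4 : T i y = (Λ (ev S)).1 i y := sub_eq_zero.1 h2
  rw [h4, h3]
  simp [Finset.sum_apply, ev, S]

end Pool.Agent.BP
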