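import Pool.Agent.K.MP_63735c_ag.C218

/-! Most points of a small ball have `G` and `ψ` not too negative. -/

open scoped ComplexOrder ContDiff Matrix Topology ENNReal
open Set Metric MeasureTheory Filter

namespace Pool.Agent.BP

open Pool.Agent.SPF Pool.Agent.CL Pool.Agent.NL Pool.Agent.CK Pool.Agent.AB Pool.Agent.SE

variable {N : ℕ} {X : Type} [TopologicalSpace X] [MeasurableSpace X] {A : Atlas X N}
  {μ : Measure X} {L : Line A} {U : Up A μ L} {x : X}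

theorem bpe4_meas {O : Set (E N)} (hO : IsOpen O) {f : E N → ℝ} (hf : ContinuousOn f O) (a : ℝ) :
    MeasurableSet (O ∩ {z | a ≤ f z}) := by
  have e : O ∩ {z | a ≤ f z} = O \ (O ∩ f ⁻¹' Iio a) := by
    ext z
    simp only [mem_inter_iff, mem_ofPred_eq, Set.mem_sdiff, mem_preimage, mem_Iio, not_and, not_lt]
    exact ⟨fun h => ⟨h.1, fun _ => h.2⟩, fun h => ⟨h.1, h.2 h.1⟩⟩
  rw [e]
  exact hO.measurableSet.diff (hf.isOpen_inter_preimage hO isOpen_Iio).measurableSet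

theorem Up.vol_big [BorelSpace X] (U : Up A μ L) (hμ : IsVolume A μ) {i : A.ι} {z₀ : E N}
    (hz : z₀ ∈ (A.C i).W) (k : ℕ) : ∃ c r₁ : ℝ, 0 < c ∧ 0 < r₁ ∧ ∀ ρ, 0 < ρ → ρ < r₁ →
      ∃ (S : Set (E N)) (b : ℝ), MeasurableSet S ∧
        ENNReal.ofReal (c * ρ ^ (4 * N)) ≤ volume S ∧ ∀ z ∈ S, z ∈ ball z₀ (ρ ^ 2) ∧
          z ∈ U.D.W i ∧ Real.log ρ ≤ k * U.G (A.p i z) ∧ b ≤ U.ψ (A.p i z) := by
  obtain ⟨R, hR, hRW⟩ := nhds_basis_closedBall.mem_iff.1 ((A.C i).isOpen.mem_nhds hz)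
  obtain ⟨c₁, B, hc₁, -, hb⟩ := cpt_bds L (isCompact_closedBall z₀ R) hRW
  obtain ⟨c₀, hc₀, hv⟩ : ∃ c₀ : ℝ, 0 < c₀ ∧ ∀ ρ : ℝ, 0 < ρ →
      volume (ball z₀ (ρ ^ 2)) = ENNReal.ofReal (c₀ * ρ ^ (4 * N)) := by
    refine ⟨(volume (ball (0 : E N) 1)).toReal, ENNReal.toReal_pos
      (measure_ball_pos _ _ one_pos).ne' measure_ball_lt_top.ne, fun ρ hρ => ?_⟩
    have hf : Module.finrank ℝ (E N) = N * 2 := by simp [Module.finrank_pi_fintype]
    rw [Measure.addHaar_ball_of_pos _ _ (by positivity), hf, mul_comm _ (ρ ^ (4 * N)),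
      ENNReal.ofReal_mul (by positivity), ENNReal.ofReal_toReal measure_ball_lt_top.ne, ← pow_mul,
      show 2 * (N * 2) = 4 * N by ring]
  have hI := U.G_int ((4 * N + 1) * k)
  obtain ⟨I, hI0, hIe⟩ : ∃ I : ℝ, 0 ≤ I ∧ ∫⁻ y in U.W, ENNReal.ofReal
      (Real.exp (-((((4 * N + 1) * k : ℕ) : ℝ) * U.G y))) ∂μ = ENNReal.ofReal I :=
    ⟨_, integral_nonneg fun y => (Real.exp_pos _).le, (ofReal_integral_eq_lintegral_ofReal hI
      (Eventually.of_forall fun y => (Real.exp_pos _).le)).symm⟩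
  refine ⟨c₀ / 2, min (min 1 R) (c₀ * c₁ / (4 * (I + 1))), by positivity, by positivity,
    fun ρ hρ hρ1 => ?_⟩
  have a1 : ρ < 1 := hρ1.trans_le ((min_le_left _ _).trans (min_le_left _ _))
  have a2 : ρ < R := hρ1.trans_le ((min_le_left _ _).trans (min_le_right _ _))
  have a3 : ρ * (4 * (I + 1)) < c₀ * c₁ :=
    (lt_div_iff₀ (by positivity)).1 (hρ1.trans_le (min_le_right _ _))
  have hsub : ball z₀ (ρ ^ 2) ⊆ closedBall z₀ R :=
    ball_subset_closedBall.trans (closedBall_subset_closedBall (by nlinarith))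
  have hO : IsOpen (ball z₀ (ρ ^ 2) ∩ U.D.W i) := isOpen_ball.inter (U.D.isOpen i)
  have cG : ContinuousOn (fun z => (k : ℝ) * U.G (A.p i z)) (ball z₀ (ρ ^ 2) ∩ U.D.W i) :=
    continuousOn_const.mul ((U.G_smo i).continuousOn.mono inter_subset_right)
  have cψ : ContinuousOn (fun z => U.ψ (A.p i z)) (ball z₀ (ρ ^ 2) ∩ U.D.W i) :=
    (U.ψ_smo i).continuousOn.mono inter_subset_right
  set O := ball z₀ (ρ ^ 2) ∩ U.D.W i with hOe
  have mB : MeasurableSet (O ∩ {z | (k : ℝ) * U.G (A.p i z) < Real.log ρ}) :=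
    (cG.isOpen_inter_preimage hO isOpen_Iio).measurableSet
  have hP : 0 < ρ ^ (4 * N) := by positivity
  have hB : volume (O ∩ {z | (k : ℝ) * U.G (A.p i z) < Real.log ρ}) ≤
      ENNReal.ofReal (c₀ / 4 * ρ ^ (4 * N)) := by
    have h1 : ENNReal.ofReal c₁ * volume (O ∩ {z | (k : ℝ) * U.G (A.p i z) < Real.log ρ}) ≤
        ENNReal.ofReal (ρ ^ (4 * N + 1)) * ENNReal.ofReal I := by
      rw [← setLIntegral_const, ← hIe, ← lintegral_const_mul' _ _ ENNReal.ofReal_ne_top]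
      refine le_trans ?_ (lintegral_mono_set
        (s := A.p i '' (O ∩ {z | (k : ℝ) * U.G (A.p i z) < Real.log ρ}))
        (by rintro _ ⟨z, hz', rfl⟩; exact hz'.1.2.2))
      rw [vol_lint U.hinj hμ mB fun z hz' => hz'.1.2.1]
      refine setLIntegral_mono' mB fun z hz' => ?_
      rw [← ENNReal.ofReal_mul (by positivity), ← ENNReal.ofReal_mul (by positivity)]
      refine ENNReal.ofReal_le_ofReal (((hb z (hsub hz'.1.1)).1).trans
        (le_mul_of_one_le_right (norm_nonneg _) ?_))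
      have h2 : (k : ℝ) * U.G (A.p i z) < Real.log ρ := hz'.2
      rw [← Real.exp_log (pow_pos hρ (4 * N + 1)), ← Real.exp_add, Real.log_pow]
      refine Real.one_le_exp ?_
      have h3 : (0 : ℝ) ≤ ((4 * N + 1 : ℕ) : ℝ) := Nat.cast_nonneg _
      rw [Nat.cast_mul]
      nlinarith [mul_nonneg h3 (sub_pos.2 h2).le]
    refine (ENNReal.mul_le_mul_iff_right (ENNReal.ofReal_pos.2 hc₁).ne'
      ENNReal.ofReal_ne_top).1 (h1.trans ?_)
    rw [← ENNReal.ofReal_mul (by positivity), ← ENNReal.ofReal_mul hc₁.le]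
    refine ENNReal.ofReal_le_ofReal ?_
    rw [pow_succ]
    nlinarith [mul_le_mul_of_nonneg_left (show ρ * I ≤ c₁ * (c₀ / 4) by nlinarith) hP.le]
  have hS : ENNReal.ofReal (c₀ / 2 * ρ ^ (4 * N)) <
      volume (⋃ n : ℕ, (O ∩ {z | Real.log ρ ≤ k * U.G (A.p i z)}) ∩
        (O ∩ {z | -(n : ℝ) ≤ U.ψ (A.p i z)})) := by
    by_contra h0
    have h1 : ball z₀ (ρ ^ 2) ⊆ (((A.C i).W \ A.p i ⁻¹' U.W) ∪
        (O ∩ {z | (k : ℝ) * U.G (A.p i z) < Real.log ρ})) ∪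
        ⋃ n : ℕ, (O ∩ {z | Real.log ρ ≤ k * U.G (A.p i z)}) ∩
          (O ∩ {z | -(n : ℝ) ≤ U.ψ (A.p i z)}) := by
      intro z hz'
      by_cases h2 : A.p i z ∈ U.W
      · have h3 : z ∈ O := ⟨hz', hRW (hsub hz'), h2⟩
        rcases lt_or_ge ((k : ℝ) * U.G (A.p i z)) (Real.log ρ) with h4 | h4
        · exact Or.inl (Or.inr ⟨h3, h4⟩)
        · obtain ⟨n, hn⟩ := exists_nat_ge (-U.ψ (A.p i z))
          exact Or.inr (mem_iUnion.2 ⟨n, ⟨h3, h4⟩, h3, neg_le.1 hn⟩)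
      · exact Or.inl (Or.inl ⟨hRW (hsub hz'), h2⟩)
    have h2 := (measure_mono (μ := volume) h1).trans ((measure_union_le _ _).trans
      (add_le_add ((measure_union_le _ _).trans (add_le_add (U.null_chart hμ i).le hB))
        (not_lt.1 h0)))
    rw [hv ρ hρ, zero_add, ← ENNReal.ofReal_add (by positivity) (by positivity),
      ENNReal.ofReal_le_ofReal_iff (by positivity)] at h2
    nlinarith [mul_pos hc₀ hP]
  have hm : Monotone fun n : ℕ => (O ∩ {z | Real.log ρ ≤ k * U.G (A.p i z)}) ∩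
      (O ∩ {z | -(n : ℝ) ≤ U.ψ (A.p i z)}) := fun n m hnm z hz' =>
    ⟨hz'.1, hz'.2.1, le_trans (b := -(n : ℝ)) (neg_le_neg (Nat.cast_le.2 hnm)) hz'.2.2⟩
  rw [hm.measure_iUnion] at hS
  obtain ⟨n, hn⟩ := lt_iSup_iff.1 hS
  exact ⟨_, -(n : ℝ), (bpe4_meas hO cG _).inter (bpe4_meas hO cψ _), hn.le,
    fun z hz' => ⟨hz'.1.1.1, hz'.1.1.2, hz'.1.2, hz'.2.2⟩⟩

end Pool.Agent.BP
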