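import Pool.Agent.K.MP_63735c_ag.C218

/-! The exhaustions and a complete metric on `W`. -/

open scoped ComplexOrder ContDiff Matrix Topology ENNReal
open Set Metric MeasureTheory Filter

namespace Pool.Agent.BP

open Pool.Agent.SPF Pool.Agent.CL Pool.Agent.NL Pool.Agent.CK Pool.Agent.AB Pool.Agent.SE

variable {N : ℕ} {X : Type} [TopologicalSpace X] [MeasurableSpace X] {A : Atlas X N}
  {μ : Measure X} {L : Line A} {U : Up A μ L} {x : X}

omit [MeasurableSpace X] in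
lemma bpe5_eta {i : A.ι} {z : E N} (hz : z ∈ (A.C i).W) (v : E N) :
    0 ≤ (hq ((A.C i).η z) v v).re := hq_nonneg ((A.C i).η_psd z hz) v

lemma bpe5_norm (c : ℝ) (v w : E N) : ‖v ⬝ᵥ ((c : ℂ) • w)‖ ^ 2 = c ^ 2 * ‖v ⬝ᵥ w‖ ^ 2 := by
  rw [dotProduct_smul, norm_smul, mul_pow, Complex.norm_real, Real.norm_eq_abs, sq_abs]

theorem Up.l_calc (U : Up A μ L) : U.D.Smo U.l ∧ (∀ y ∈ U.W, 0 ≤ U.l y) ∧
    ∀ i, ∀ z ∈ U.D.W i, ∀ v, (hq (lev (fun y => U.l (A.p i y)) z) v v).re +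
      ‖v ⬝ᵥ dr (fun y => U.l (A.p i y)) z‖ ^ 2 ≤ U.M * (hq ((A.C i).η z) v v).re := by
  refine ⟨fun i => (U.ψ_smo i).neg.log fun z hz => ?_,
    fun y hy => Real.log_nonneg (by linarith [U.ψ_le y hy]), fun i z hz v => ?_⟩
  · have : U.ψ (A.p i z) ≤ -1 := U.ψ_le _ hz.2
    change -U.ψ (A.p i z) ≠ 0
    linarith
  have h1 : U.ψ (A.p i z) ≤ -1 := U.ψ_le _ hz.2
  have h0 : U.ψ (A.p i z) ≠ 0 := by linarith
  have hs : ContDiffAt ℝ ∞ (fun y => U.ψ (A.p i y)) z :=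
    (U.ψ_smo i).contDiffAt ((U.D.isOpen i).mem_nhds hz)
  have hd : ∀ t : ℝ, t ≠ 0 → HasDerivAt (fun t => Real.log (-t)) t⁻¹ t := fun t ht => by
    simp only [Real.log_neg_eq_log]
    exact Real.hasDerivAt_log ht
  have e1 := lev_chain (f := fun y => U.ψ (A.p i y)) (ρ := fun t => Real.log (-t))
    (ρ₁ := fun t => t⁻¹) ((eventually_ne_nhds h0).mono hd) (hasDerivAt_inv h0) hs v
  have e2 := dr_chain (f := fun y => U.ψ (A.p i y)) (hd _ h0) (hs.differentiableAt (by simp))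
  unfold Up.l
  rw [e1, e2, bpe5_norm]
  have a1 := U.ψ_lev i z hz.1 hz.2 v
  have a2 := mul_nonneg U.M_nonneg (bpe5_eta hz.1 v)
  generalize U.M * (hq ((A.C i).η z) v v).re = e at *
  generalize (hq (lev (fun y => U.ψ (A.p i y)) z) v v).re = m at *
  generalize U.ψ (A.p i z) = t at *
  have b1 : t⁻¹ < 0 := inv_lt_zero.2 (by linarith)
  have b2 : -1 ≤ t⁻¹ := by
    have : t * t⁻¹ = 1 := mul_inv_cancel₀ h0
    nlinarith
  rw [inv_pow]
  nlinarith

theorem Up.l2_calc (U : Up A μ L) : U.D.Smo U.l2 ∧ U.D.Smo (fun y => (1 + U.l y)⁻¹) ∧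
    (∀ c, IsCompact {y | y ∈ U.W ∧ U.l2 y ≤ c}) ∧
    (∀ b, ∃ c, ∀ y ∈ U.W, b ≤ U.ψ y → U.l2 y ≤ c) ∧ ∀ i, ∀ z ∈ U.D.W i, ∀ v,
      ‖v ⬝ᵥ dr (fun y => U.l2 (A.p i y)) z‖ ^ 2 - U.M * (hq ((A.C i).η z) v v).re ≤
        (hq (lev (fun y => (1 + U.l (A.p i y))⁻¹) z) v v).re := by
  obtain ⟨hl, h0, H⟩ := U.l_calc
  have hp : ∀ y ∈ U.W, 0 < 1 + U.l y := fun y hy => by linarith [h0 y hy]
  refine ⟨fun i => (contDiffOn_const.add (hl i)).log fun z hz => (hp _ hz.2).ne',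
    fun i => (contDiffOn_const.add (hl i)).inv fun z hz => (hp _ hz.2).ne', fun c => ?_,
    fun b => ⟨-b, fun y hy hb => ?_⟩, fun i z hz v => ?_⟩
  · have e : {y | y ∈ U.W ∧ U.l2 y ≤ c} =
        {y | y ∈ U.W ∧ -Real.exp (Real.exp c - 1) ≤ U.ψ y} := by
      ext y
      refine and_congr_right fun hy => ?_
      rw [Up.l2, Real.log_le_iff_le_exp (hp y hy), neg_le,
        ← Real.log_le_iff_le_exp (show 0 < -U.ψ y by linarith [U.ψ_le y hy]), le_sub_iff_add_le']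
      rfl
    rw [e]
    exact U.ψ_cpt _
  · have a1 := Real.log_le_sub_one_of_pos (hp y hy)
    have a2 := Real.log_le_sub_one_of_pos (show 0 < -U.ψ y by linarith [U.ψ_le y hy])
    unfold Up.l2
    unfold Up.l at *
    linarith
  have h1 := hp _ hz.2
  have h2 := h0 _ hz.2
  have hs : ContDiffAt ℝ ∞ (fun y => U.l (A.p i y)) z :=
    (hl i).contDiffAt ((U.D.isOpen i).mem_nhds hz)
  have d0 : ∀ t : ℝ, HasDerivAt (fun t => 1 + t) 1 t := fun t => (hasDerivAt_id t).const_add 1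
  have d1 : ∀ t : ℝ, 0 < 1 + t → HasDerivAt (fun t => (1 + t)⁻¹) (-((1 + t)⁻¹ * (1 + t)⁻¹)) t :=
    fun t ht => ((d0 t).inv ht.ne').congr_deriv (by field_simp)
  have d2 := ((d1 _ h1).mul (d1 _ h1)).neg
  have ev : ∀ᶠ t in 𝓝 (U.l (A.p i z)), 0 < 1 + t :=
    (eventually_gt_nhds (show -1 < U.l (A.p i z) by linarith)).mono fun t ht => by linarith
  have e1 := lev_chain (f := fun y => U.l (A.p i y)) (ρ := fun t => (1 + t)⁻¹)
    (ρ₁ := fun t => -((1 + t)⁻¹ * (1 + t)⁻¹)) (ev.mono d1) d2 hs v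
  have e2 := dr_chain (f := fun y => U.l (A.p i y)) (ρ := fun t => Real.log (1 + t))
    ((d0 _).log h1.ne') (hs.differentiableAt (by simp))
  unfold Up.l2
  rw [e1, e2, bpe5_norm, one_div]
  have a1 := H i z hz v
  have a2 := mul_nonneg U.M_nonneg (bpe5_eta hz.1 v)
  have a3 := sq_nonneg ‖v ⬝ᵥ dr (fun y => U.l (A.p i y)) z‖
  have b1 : 0 < (1 + U.l (A.p i z))⁻¹ := inv_pos.2 h1
  have b2 : (1 + U.l (A.p i z))⁻¹ ≤ 1 := inv_le_one_of_one_le₀ (by linarith)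
  generalize U.M * (hq ((A.C i).η z) v v).re = e at *
  generalize (hq (lev (fun y => U.l (A.p i y)) z) v v).re = m at *
  generalize ‖v ⬝ᵥ dr (fun y => U.l (A.p i y)) z‖ ^ 2 = n at *
  generalize (1 + U.l (A.p i z))⁻¹ = t at *
  have c1 : t * t * (m + n) ≤ t * t * e := mul_le_mul_of_nonneg_left a1 (by positivity)
  have c2 : t * t * e ≤ 1 * e := mul_le_mul_of_nonneg_right (by nlinarith) a2
  have c3 : 0 ≤ t * t * t * n := by positivity
  nlinarith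

theorem Up.cut [CompactSpace X] (U : Up A μ L) {K : Form11 A}
    (hK : ∀ i, ∀ z ∈ (A.C i).W, (K.h i z).PosDef) :
    ∃ K' : A.ι → E N → Mat N, (∀ i, Kah (U.D.W i) (K' i)) ∧ U.D.Cpt K' ∧ U.D.Cut K' := by
  obtain ⟨hl, h0, H0⟩ := U.l_calc
  obtain ⟨C₀, hC₀, hb⟩ := bd_11 K hK (etaF A)
  obtain ⟨C, hCe⟩ : ∃ C, C = U.M * C₀ := ⟨_, rfl⟩
  have hC : 0 ≤ C := hCe ▸ mul_nonneg U.M_nonneg hC₀
  have H : ∀ i, ∀ z ∈ U.D.W i, ∀ v, (hq (lev (fun y => U.l (A.p i y)) z) v v).re +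
      ‖v ⬝ᵥ dr (fun y => U.l (A.p i y)) z‖ ^ 2 ≤ C * (hq (K.h i z) v v).re := by
    intro i z hz v
    refine (H0 i z hz v).trans ?_
    have a := (le_abs_self _).trans (hb i z hz.1 v)
    rw [ev11_hq, ev11_hq] at a
    change 2 * (hq ((A.C i).η z) v v).re ≤ _ at a
    rw [hCe, mul_assoc]
    exact mul_le_mul_of_nonneg_left (by linarith) U.M_nonneg
  have hs : ∀ i, ∀ z ∈ U.D.W i, ContDiffAt ℝ ∞ (fun y => U.l (A.p i y)) z := fun i z hz =>
    (hl i).contDiffAt ((U.D.isOpen i).mem_nhds hz)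
  have hv : ∀ i z v, (hq (((C + 1 : ℝ) : ℂ) • K.h i z +
      ((-1 : ℝ) : ℂ) • lev (fun y => U.l (A.p i y)) z) v v).re =
      (C + 1) * (hq (K.h i z) v v).re - (hq (lev (fun y => U.l (A.p i y)) z) v v).re := by
    intro i z v
    rw [hq_add, hq_smul, hq_smul, Complex.add_re, Complex.re_ofReal_mul, Complex.re_ofReal_mul]
    ring
  refine ⟨fun i z => ((C + 1 : ℝ) : ℂ) • K.h i z + ((-1 : ℝ) : ℂ) • lev (fun y => U.l (A.p i y)) z,
    fun (i : A.ι) => ?_, fun i j z hz φ hφ => ?_, cut_of_lam (C := C + 1) (by linarith) hl ?_ ?_ ?_⟩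
  · have hW := U.D.isOpen i
    have s1 : ∀ a b, ContDiffOn ℝ ∞ (fun z => K.h i z a b) (U.D.W i) :=
      fun a b => (K.smooth i a b).mono inter_subset_left
    have s2 := lev_smooth hW (hl i)
    refine ⟨fun a b => (contDiffOn_const.mul (s1 a b)).add (contDiffOn_const.mul (s2 a b)),
      fun z hz => posDef_of_hq ?_ fun v hv0 => ?_, fun z hz a b c => ?_⟩
    · exact ((K.herm i z hz.1).smul (Complex.conj_ofReal _)).add
        ((lev_herm (hs i z hz)).smul (Complex.conj_ofReal _))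
    · have := H i z hz v
      have := hq_pos (hK i z hz.1) hv0
      refine lt_of_lt_of_eq ?_ (hv i z v).symm
      nlinarith [sq_nonneg ‖v ⬝ᵥ dr (fun y => U.l (A.p i y)) z‖]
    · have key : ∀ a b c, dz c (fun w => (((C + 1 : ℝ) : ℂ) • K.h i w +
          ((-1 : ℝ) : ℂ) • lev (fun y => U.l (A.p i y)) w) a b) z =
          ((C + 1 : ℝ) : ℂ) * dz c (fun w => K.h i w a b) z +
            ((-1 : ℝ) : ℂ) * dz c (fun w => lev (fun y => U.l (A.p i y)) w a b) z := by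
        intro a b c
        have d1 := diffAt hW (s1 a b) hz
        have d2 := diffAt hW (s2 a b) hz
        refine (dz_add (d1.const_mul _) (d2.const_mul _) c).1.trans ?_
        rw [(dz_mul (differentiableAt_const _) d1 c).1, (dz_mul (differentiableAt_const _) d2 c).1,
          (dz_const c _).1, (dz_const c _).1, zero_mul, zero_mul, zero_add, zero_add]
        rfl
      rw [key, key, K.closed i z hz.1, lev_closed (hs i z hz)]
  · have e1 := man_cpt_form (hinj := U.hinj) (hM := U.hW) K i j z hz φ hφ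
    have e2 := Man.levG_cpt hl i j z hz φ hφ
    simp only [Matrix.mul_add, Matrix.add_mul, Matrix.mul_smul, Matrix.smul_mul]
    rw [← e1]
    exact congrArg (fun m => ((C + 1 : ℝ) : ℂ) • K.h i z + ((-1 : ℝ) : ℂ) • m) e2
  · rw [man_M]
    exact h0
  · rw [man_M]
    refine fun c => ⟨_, U.ψ_cpt (-Real.exp c), fun y hy => hy.1, fun y hy hw => ?_⟩
    have a : U.ψ y < -Real.exp c := lt_of_not_ge fun h => hy ⟨hw, h⟩
    exact (Real.lt_log_iff_exp_lt (by linarith [U.ψ_le y hw])).2 (by linarith)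
  · intro (i : A.ι) z hz v
    have a1 := H i z hz v
    have a2 := hq_nonneg (hK i z hz.1).posSemidef v
    have a3 := sq_nonneg ‖v ⬝ᵥ dr (fun y => U.l (A.p i y)) z‖
    rw [hv]
    change |(hq (lev (fun y => U.l (A.p i y)) z) v v).re| ≤ _ ∧
      ‖v ⬝ᵥ dr (fun y => U.l (A.p i y)) z‖ ^ 2 ≤ _
    generalize (hq (lev (fun y => U.l (A.p i y)) z) v v).re = m at *
    generalize (hq (K.h i z) v v).re = κ at *
    generalize ‖v ⬝ᵥ dr (fun y => U.l (A.p i y)) z‖ ^ 2 = n at *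
    have a4 : κ ≤ (C + 1) * κ - m := by linarith
    have a5 := mul_le_mul_of_nonneg_left a4 hC
    have a6 := mul_nonneg hC a2
    exact ⟨abs_le.2 ⟨by nlinarith, by nlinarith⟩, by linarith⟩

end Pool.Agent.BP
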