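import Pool.Agent.K.MP_63735c_ag.C304
import Pool.Agent.K.MP_63735c_ag.C308
import Pool.Agent.K.MP_63735c_ag.C307
import Pool.Agent.K.MP_63735c_ag.C309
import Pool.Agent.K.MP_63735c_ag.C305
import Pool.Agent.K.MP_63735c_ag.C306
import Pool.Agent.K.MP_63735c_ag.C292
import Pool.Agent.K.MP_63735c_ag.C293

-- part Pool.Agent.P.MP_63735c_ag.BPE8
section

/-! The cut off frame. -/

open scoped ComplexOrder ContDiff Matrix Topology ENNReal
open Set Metric MeasureTheory Filter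

namespace Pool.Agent.BP

open Pool.Agent.SPF Pool.Agent.CL Pool.Agent.NL Pool.Agent.CK Pool.Agent.AB Pool.Agent.SE

variable {N : ℕ} {X : Type} [TopologicalSpace X] [MeasurableSpace X] {A : Atlas X N}
  {μ : Measure X} {L : Line A} {U : Up A μ L} {x : X}

theorem bpe8_step : ∃ (s : ℝ → ℝ) (D : ℝ), 0 ≤ D ∧ Continuous s ∧ ∀ t,
    HasDerivAt Real.smoothTransition (s t) t ∧ s t ^ 2 ≤ D ∧ (t < 0 → s t = 0) ∧
      (1 < t → s t = 0) := by
  obtain ⟨s₁, s₂, D, h0, h1, h2⟩ := abk_step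
  have h3 : ∀ t, 1 < t → s₁ t = 0 := fun t ht => by
    have e : Real.smoothTransition =ᶠ[𝓝 t] fun _ => 1 :=
      (eventually_gt_nhds ht).mono fun y hy => Real.smoothTransition.one_of_one_le hy.le
    exact (h1 t).1.unique ((hasDerivAt_const t 1).congr_of_eventuallyEq e)
  refine ⟨s₁, D ^ 2, by positivity, continuous_iff_continuousAt.2 fun t => (h1 t).2.continuousAt,
    fun t => ⟨(h1 t).1, ?_, fun ht => ?_, h3 t⟩⟩
  · rcases le_or_gt t 2 with h | h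
    · exact sq_le_sq' (abs_le.1 (h2 t h).1).1 (abs_le.1 (h2 t h).1).2
    · rw [h3 t (by linarith), zero_pow two_ne_zero]
      positivity
  · have e : Real.smoothTransition =ᶠ[𝓝 t] fun _ => 0 :=
      (eventually_lt_nhds ht).mono fun y hy => Real.smoothTransition.zero_of_nonpos hy.le
    exact (h1 t).1.unique ((hasDerivAt_const t 0).congr_of_eventuallyEq e)

theorem bpe8_mul {f g : E N → ℝ} {z : E N} (hf : DifferentiableAt ℝ f z)
    (hg : DifferentiableAt ℝ g z) :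
    dr (fun y => f y * g y) z = (g z : ℂ) • dr f z + (f z : ℂ) • dr g z := by
  funext a
  simp only [dr, Pi.add_apply, Pi.smul_apply, smul_eq_mul, Complex.ofReal_mul]
  rw [(dz_mul (ablev_red hf) (ablev_red hg) a).1]
  ring

theorem bpe8_pow (H : UG U x) (e : ℕ) (y : X) :
    ‖H.w y ^ e‖ ^ 2 * Real.exp (-((H.d * e : ℕ) * U.φ y)) =
      (‖H.w y‖ ^ 2 * Real.exp (-(H.d * U.φ y))) ^ e := by
  rw [mul_pow, ← Real.exp_nat_mul, norm_pow, ← pow_mul, ← pow_mul, mul_comm e 2]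
  congr 2
  push_cast
  ring

theorem bpe8_far (H : UG U x) {y : X} (h : H.δ < ‖H.F y - H.a‖) :
    2 - 2 * H.t H.a y / H.τ < 0 := by
  have h1 := norm_sq_le_nsq (H.F y - H.a)
  have h2 := H.δ_pos
  have h3 := H.τ_pos
  rw [sub_neg, lt_div_iff₀ h3]
  unfold UG.t
  unfold UG.τ
  nlinarith

theorem bpe8_sq (t : ℝ) : Real.smoothTransition t ^ 2 ≤ 1 :=
  pow_le_one₀ (Real.smoothTransition.nonneg t) (Real.smoothTransition.le_one t)

theorem UG.sR_bd (H : UG U x) (e : ℕ) (R : ℝ) (y : X) :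
    ‖H.sR e R y‖ ^ 2 * Real.exp (-((H.d * e : ℕ) * U.φ y)) ≤ H.C ^ e ∧
      (y ∈ H.O → 2 * H.t H.a y ≤ H.τ → U.l2 y ≤ R →
        H.c ^ e ≤ ‖H.sR e R y‖ ^ 2 * Real.exp (-((H.d * e : ℕ) * U.φ y))) := by
  have hC := H.C_pos
  have hc := H.c_pos
  have hτ := H.τ_pos
  by_cases hy : y ∈ H.O
  swap
  · rw [UG.sR, indicator_of_notMem hy]
    exact ⟨by simpa using pow_nonneg hC.le e, fun h => absurd h hy⟩
  have h1 := bpe8_pow H e y
  have h2 := H.w_bd y hy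
  rw [UG.sR, indicator_of_mem hy, norm_mul, mul_pow, mul_assoc, h1, Complex.norm_real,
    Real.norm_eq_abs, sq_abs, mul_pow]
  refine ⟨?_, fun _ h3 h4 => ?_⟩
  · refine (mul_le_of_le_one_left (by positivity) ?_).trans
      (pow_le_pow_left₀ (by positivity) h2.2 e)
    exact mul_le_one₀ (bpe8_sq _) (sq_nonneg _) (bpe8_sq _)
  · rw [Real.smoothTransition.one_of_one_le (by linarith), Real.smoothTransition.one_of_one_le (by
      have : 2 * H.t H.a y / H.τ ≤ 1 := (div_le_one hτ).2 h3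
      linarith), one_pow, one_mul, one_mul]
    exact pow_le_pow_left₀ hc.le h2.1 e

open Classical in
theorem UG.sR_db [T2Space X] (H : UG U x) (e : ℕ) : ∃ B : ℝ, 0 ≤ B ∧ ∀ R, U.D.S (H.sR e R) ∧
    ∃ c : X → ℝ, U.D.Cc c ∧ (∀ y, 0 ≤ c y) ∧
      (∀ y, c y * Real.exp (-((H.d * e : ℕ) * U.φ y)) ≤
        (if R ≤ U.l2 y then B else 0) + (if y ∈ H.O ∧ H.τ ≤ 2 * H.t H.a y then B else 0)) ∧
      ∀ i, ∀ z ∈ U.D.W i, ∀ v, ‖v ⬝ᵥ star (db (fun y => H.sR e R (A.p i y)) z)‖ ^ 2 ≤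
        c (A.p i z) * (U.th i z v + ‖v ⬝ᵥ dr (fun y => U.l2 (A.p i y)) z‖ ^ 2) := by
  obtain ⟨s, D, hD, hsc, hs⟩ := bpe8_step
  have hC := H.C_pos
  have hτ := H.τ_pos
  obtain ⟨B', hB'⟩ : ∃ B' : ℝ, B' = 4 * (H.M * H.C) / H.τ := ⟨_, rfl⟩
  have hB0 : 0 ≤ B' := by rw [hB']; positivity
  obtain ⟨l1, -, l3, -, -⟩ := U.l2_calc
  have hS : ContDiff ℝ ∞ Real.smoothTransition := Real.smoothTransition.contDiff
  refine ⟨2 * H.C ^ e * D * (1 + B'), by positivity, fun R => ?_⟩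
  obtain ⟨c₀, hc₀⟩ : ∃ c₀ : X → ℝ, c₀ = fun y => 2 * ‖H.w y ^ e‖ ^ 2 *
      (s (R + 1 - U.l2 y) ^ 2 * Real.smoothTransition (2 - 2 * H.t H.a y / H.τ) ^ 2 +
        Real.smoothTransition (R + 1 - U.l2 y) ^ 2 * s (2 - 2 * H.t H.a y / H.τ) ^ 2 * B') :=
    ⟨_, rfl⟩
  have c0 : ∀ y, 0 ≤ c₀ y := fun y => by rw [hc₀]; positivity
  have cs : ∀ {F : Type} [Zero F] {h : X → F}, (∀ y, R + 1 - U.l2 y < 0 → h y = 0) →
      U.D.Cs (H.O.indicator h) := by
    intro F _ h h0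
    refine ⟨_, l3 (R + 1), fun y hy => (man_M (A := A)).symm ▸ hy.1, fun y hy => ?_⟩
    by_cases hO : y ∈ H.O
    · rw [indicator_of_mem hO]
      exact h0 y (sub_neg.2 (lt_of_not_ge fun h1 => hy ⟨H.sub hO, h1⟩))
    · exact indicator_of_notMem hO _
  have f1 : ∀ y ∈ H.O, H.δ < ‖H.F y - H.a‖ → ((Real.smoothTransition (R + 1 - U.l2 y) *
      Real.smoothTransition (2 - 2 * H.t H.a y / H.τ) : ℝ) : ℂ) * H.w y ^ e = 0 := fun y _ h => by
    rw [Real.smoothTransition.zero_of_nonpos (bpe8_far H h).le]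
    simp
  have f2 : ∀ y ∈ H.O, H.δ < ‖H.F y - H.a‖ → c₀ y = 0 := fun y _ h => by
    rw [hc₀]
    simp only [Real.smoothTransition.zero_of_nonpos (bpe8_far H h).le,
      (hs _).2.2.1 (bpe8_far H h)]
    simp
  have loc : ∀ i, ∀ z ∈ U.D.W i, A.p i z ∈ H.O →
      (∀ᶠ y in 𝓝 z, y ∈ (A.C i).W ∧ A.p i y ∈ H.O) →
      ContDiffAt ℝ ∞ (fun y => U.l2 (A.p i y)) z ∧ ContDiffAt ℝ ∞ (fun y => H.t H.a (A.p i y)) z ∧
        ∀ᶠ y in 𝓝 z, DifferentiableAt ℂ (fun y => H.w (A.p i y) ^ e) y := by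
    intro i z hz hO hev
    refine ⟨(l1 i).contDiffAt ((U.D.isOpen i).mem_nhds hz), (H.t_calc H.a hz.1 hO).1, ?_⟩
    filter_upwards [hev.eventually_nhds] with y hy
    exact ((H.w_hol i).differentiableAt hy).fun_pow e
  refine ⟨⟨fun i z hz => ContDiffAt.contDiffWithinAt ?_, cs fun y hy => ?_⟩, H.O.indicator c₀,
    ⟨fun i z hz => ContinuousAt.continuousWithinAt ?_, cs fun y hy => ?_⟩,
    fun y => indicator_nonneg (fun y _ => c0 y) y, fun y => ?_, fun i z hz v => ?_⟩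
  · rcases H.ind f1 hz with ⟨hO, hev, he⟩ | ⟨-, he⟩
    · obtain ⟨a1, a2, a3⟩ := loc i z hz hO hev
      refine ContDiffAt.congr_of_eventuallyEq ?_ he
      refine ContDiffAt.mul (Complex.ofRealCLM.contDiff.contDiffAt.comp z ?_) (smoothAt_of_hol' a3)
      exact (hS.contDiffAt.comp z (contDiffAt_const.sub a1)).mul
        (hS.contDiffAt.comp z (contDiffAt_const.sub ((contDiffAt_const.mul a2).div_const _)))
    · exact contDiffAt_const.congr_of_eventuallyEq he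
  · rw [Real.smoothTransition.zero_of_nonpos hy.le]
    simp
  · rcases H.ind f2 hz with ⟨hO, hev, he⟩ | ⟨-, he⟩
    · obtain ⟨a1, a2, a3⟩ := loc i z hz hO hev
      refine ContinuousAt.congr ?_ he.symm
      have b1 : ContinuousAt (fun y => R + 1 - U.l2 (A.p i y)) z :=
        continuousAt_const.sub a1.continuousAt
      have b2 : ContinuousAt (fun y => 2 - 2 * H.t H.a (A.p i y) / H.τ) z :=
        continuousAt_const.sub ((continuousAt_const.mul a2.continuousAt).div_const _)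
      rw [hc₀]
      exact (continuousAt_const.mul (a3.self_of_nhds.continuousAt.norm.pow 2)).mul
        ((((hsc.continuousAt.comp b1).pow 2).mul ((hS.continuous.continuousAt.comp b2).pow 2)).add
          ((((hS.continuous.continuousAt.comp b1).pow 2).mul
            ((hsc.continuousAt.comp b2).pow 2)).mul continuousAt_const))
    · exact continuousAt_const.congr he.symm
  · rw [hc₀]
    simp only [Real.smoothTransition.zero_of_nonpos hy.le, (hs _).2.2.1 hy]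
    simp
  · have hB : 0 ≤ 2 * H.C ^ e * D * (1 + B') := by positivity
    by_cases hO : y ∈ H.O
    swap
    · rw [indicator_of_notMem hO, zero_mul]
      positivity
    have h1 : ‖H.w y ^ e‖ ^ 2 * Real.exp (-((H.d * e : ℕ) * U.φ y)) ≤ H.C ^ e := by
      rw [bpe8_pow]
      exact pow_le_pow_left₀ (by positivity) (H.w_bd y hO).2 e
    have h2 : s (R + 1 - U.l2 y) ^ 2 * Real.smoothTransition (2 - 2 * H.t H.a y / H.τ) ^ 2 ≤
        if R ≤ U.l2 y then D * (1 + B') else 0 := by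
      split_ifs with h
      · exact (mul_le_of_le_one_right (sq_nonneg _) (bpe8_sq _)).trans
          ((hs _).2.1.trans (le_mul_of_one_le_right hD (by linarith)))
      · rw [(hs _).2.2.2 (by linarith [not_le.1 h])]
        simp
    have h3 : Real.smoothTransition (R + 1 - U.l2 y) ^ 2 * s (2 - 2 * H.t H.a y / H.τ) ^ 2 * B' ≤
        if y ∈ H.O ∧ H.τ ≤ 2 * H.t H.a y then D * (1 + B') else 0 := by
      split_ifs with h
      · exact mul_le_mul ((mul_le_of_le_one_left (sq_nonneg _) (bpe8_sq _)).trans (hs _).2.1)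
          (by linarith) hB0 hD
      · have h4 : 2 * H.t H.a y / H.τ < 1 := (div_lt_one hτ).2 (not_le.1 fun h5 => h ⟨hO, h5⟩)
        rw [(hs _).2.2.2 (by linarith)]
        simp
    rw [indicator_of_mem hO, hc₀]
    refine (le_of_eq (mul_right_comm _ _ _)).trans ?_
    rw [mul_assoc 2]
    refine (mul_le_mul (mul_le_mul_of_nonneg_left h1 zero_le_two) (add_le_add h2 h3)
      (by positivity) (by positivity)).trans (le_of_eq ?_)
    split_ifs <;> ring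
  · have t0 : 0 ≤ U.th i z v := U.G_lev i z hz.1 hz.2 v
    rcases H.ind f1 hz with ⟨hO, hev, he⟩ | ⟨hO, he⟩
    swap
    · have e1 : db (fun y => H.sR e R (A.p i y)) z = 0 :=
        (db_congr he).eq_of_nhds.trans (db_const 0)
      rw [e1, indicator_of_notMem hO]
      simp
    obtain ⟨a1, a2, a3⟩ := loc i z hz hO hev
    have d1 := a1.differentiableAt (by simp)
    have d2 := a2.differentiableAt (by simp)
    have r1 : HasDerivAt (fun u => Real.smoothTransition (R + 1 - u))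
        (s (R + 1 - U.l2 (A.p i z)) * -1) (U.l2 (A.p i z)) :=
      (hs _).1.comp _ ((hasDerivAt_id _).const_sub _)
    have r2 : HasDerivAt (fun u => Real.smoothTransition (2 - 2 * u / H.τ))
        (s (2 - 2 * H.t H.a (A.p i z) / H.τ) * -(2 * 1 / H.τ)) (H.t H.a (A.p i z)) :=
      (hs _).1.comp _ ((((hasDerivAt_id _).const_mul 2).div_const _).const_sub _)
    have g1 := r1.differentiableAt.comp z d1
    have g2 := r2.differentiableAt.comp z d2
    have e1 : db (fun y => H.sR e R (A.p i y)) z = _ := (db_congr he).eq_of_nhds.trans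
      (db_mul (ablev_red (g1.fun_mul g2)) (a3.self_of_nhds.restrictScalars ℝ))
    have e2 := bpe8_mul (f := fun y => Real.smoothTransition (R + 1 - U.l2 (A.p i y)))
      (g := fun y => Real.smoothTransition (2 - 2 * H.t H.a (A.p i y) / H.τ)) g1 g2
    have e3 := dr_chain (f := fun y => U.l2 (A.p i y)) r1 d1
    have e4 := dr_chain (f := fun y => H.t H.a (A.p i y)) r2 d2
    rw [e3, e4] at e2
    obtain ⟨k1, k2, k3⟩ := (H.t_calc H.a hz.1 hO).2 v
    rw [e1, db_hol a3.self_of_nhds, smul_zero, add_zero, star_smul, star_db, e2,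
      indicator_of_mem hO, hc₀]
    simp only [smul_smul, dotProduct_smul, dotProduct_add, smul_eq_mul,
      ← Complex.ofReal_mul]
    generalize v ⬝ᵥ dr (fun y => U.l2 (A.p i y)) z = P at *
    generalize v ⬝ᵥ dr (fun y => H.t H.a (A.p i y)) z = Q at *
    have k4 : s (2 - 2 * H.t H.a (A.p i z) / H.τ) ^ 2 * ((2 / H.τ) ^ 2 * ‖Q‖ ^ 2) ≤
        s (2 - 2 * H.t H.a (A.p i z) / H.τ) ^ 2 * (B' * U.th i z v) := by
      rcases lt_or_ge (2 - 2 * H.t H.a (A.p i z) / H.τ) 0 with h | h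
      · rw [(hs _).2.2.1 h]
        simp
      refine mul_le_mul_of_nonneg_left ?_ (sq_nonneg _)
      have h5 : H.t H.a (A.p i z) ≤ H.τ := by
        rw [sub_nonneg, div_le_iff₀ hτ] at h
        linarith
      have h6 := k1.trans (mul_le_mul h5 k3 k2 hτ.le)
      refine (mul_le_mul_of_nonneg_left h6 (sq_nonneg _)).trans (le_of_eq ?_)
      rw [hB']
      field_simp
      ring
    generalize s (2 - 2 * H.t H.a (A.p i z) / H.τ) = s₂ at *
    generalize s (R + 1 - U.l2 (A.p i z)) = s₁ at *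
    generalize Real.smoothTransition (2 - 2 * H.t H.a (A.p i z) / H.τ) = S₂ at *
    generalize Real.smoothTransition (R + 1 - U.l2 (A.p i z)) = S₁ at *
    rw [norm_mul, norm_star, mul_pow]
    generalize ‖H.w (A.p i z) ^ e‖ = w₀
    rw [mul_comm 2 (w₀ ^ 2), mul_assoc (w₀ ^ 2), mul_assoc (w₀ ^ 2)]
    refine mul_le_mul_of_nonneg_left ?_ (sq_nonneg w₀)
    have n1 := norm_add_le (((S₂ * (s₁ * -1) : ℝ) : ℂ) * P)
      (((S₁ * (s₂ * -(2 * 1 / H.τ)) : ℝ) : ℂ) * Q)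
    have n2 : ‖((S₂ * (s₁ * -1) : ℝ) : ℂ) * P‖ ^ 2 = s₁ ^ 2 * S₂ ^ 2 * ‖P‖ ^ 2 := by
      rw [norm_mul, Complex.norm_real, Real.norm_eq_abs, mul_pow, sq_abs]
      ring
    have n3 : ‖((S₁ * (s₂ * -(2 * 1 / H.τ)) : ℝ) : ℂ) * Q‖ ^ 2 =
        S₁ ^ 2 * (s₂ ^ 2 * ((2 / H.τ) ^ 2 * ‖Q‖ ^ 2)) := by
      rw [norm_mul, Complex.norm_real, Real.norm_eq_abs, mul_pow, sq_abs]
      ring
    have n4 := mul_le_mul_of_nonneg_left k4 (sq_nonneg S₁)
    have n5 : 0 ≤ s₁ ^ 2 * S₂ ^ 2 * U.th i z v := by positivity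
    have n6 : 0 ≤ S₁ ^ 2 * s₂ ^ 2 * B' * ‖P‖ ^ 2 := by positivity
    refine (pow_le_pow_left₀ (norm_nonneg _) n1 2).trans (add_sq_le.trans ?_)
    rw [n2, n3]
    linarith

end Pool.Agent.BP
end

-- part Pool.Agent.P.MP_63735c_ag.BPE9
section

/-! Holomorphic functions close to the frame in the singular weight. -/

open scoped ComplexOrder ContDiff Matrix Topology ENNReal
open Set Metric MeasureTheory Filter

namespace Pool.Agent.BP

open Pool.Agent.SPF Pool.Agent.CL Pool.Agent.NL Pool.Agent.CK Pool.Agent.AB Pool.Agent.SE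

variable {N : ℕ} {X : Type} [TopologicalSpace X] [MeasurableSpace X] {A : Atlas X N}
  {μ : Measure X} {L : Line A} {U : Up A μ L} {x : X}

theorem bpe9_lam (H : UG U x) {ε : ℝ} (hε : 0 < ε) (hτ : ε ≤ H.τ) (y : X) :
    Real.exp (-H.lam H.a ε y) ≤ H.τ / ε ∧
      (H.τ ≤ 2 * H.t H.a y → Real.exp (-H.lam H.a ε y) ≤ 2) := by
  have hp := H.τ_pos
  have ht : 0 ≤ H.t H.a y := (sq_nonneg _).trans (norm_sq_le_nsq _)
  obtain ⟨h0, -, h1⟩ := H.lam_bd H.a ε y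
  rcases h0.lt_or_eq with h | h
  · have h2 : Real.exp (-H.lam H.a ε y) ≤ H.τ / (H.t H.a y + ε) := by
      have h3 : 0 < (H.t H.a y + ε) / H.τ := by positivity
      calc Real.exp (-H.lam H.a ε y) ≤ Real.exp (-Real.log ((H.t H.a y + ε) / H.τ)) :=
            Real.exp_le_exp.2 (neg_le_neg (h1 h).2)
        _ = H.τ / (H.t H.a y + ε) := by rw [Real.exp_neg, Real.exp_log h3, inv_div]
    refine ⟨h2.trans (div_le_div_of_nonneg_left hp.le hε (by linarith)), fun h4 => h2.trans ?_⟩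
    rw [div_le_iff₀ (by positivity)]
    linarith
  · rw [h, neg_zero, Real.exp_zero]
    exact ⟨(one_le_div hε).2 hτ, fun _ => one_le_two⟩

theorem bpe9_tail [T2Space X] [BorelSpace X] (U : Up A μ L) {f : X → ℝ≥0∞}
    (hf : ∫⁻ y in U.W, f y ∂μ ≠ ⊤) {a : ℝ≥0∞} (ha : a ≠ ⊤) (R₀ : ℝ) :
    ∃ R, R₀ ≤ R ∧ ∃ S, MeasurableSet S ∧ (∀ y ∈ U.W, R ≤ U.l2 y → y ∈ S) ∧
      a * ∫⁻ y in S, f y ∂μ.restrict U.W ≤ 1 := by
  set S : ℕ → Set X := fun n => U.W \ {y | y ∈ U.W ∧ U.l2 y ≤ n} with hS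
  have hm : ∀ n, MeasurableSet (S n) := fun n =>
    U.hW.measurableSet.diff (U.l2_calc.2.2.1 n).isClosed.measurableSet
  have hfin : μ U.W ≠ ⊤ := by
    have h := (U.G_int 0).lintegral_lt_top
    simp only [Nat.cast_zero, zero_mul, neg_zero, Real.exp_zero, ENNReal.ofReal_one,
      lintegral_const, one_mul, Measure.restrict_apply_univ] at h
    exact h.ne
  have hanti : Antitone S := fun n n' hn y hy =>
    ⟨hy.1, fun h => hy.2 ⟨h.1, h.2.trans (Nat.cast_le.2 hn)⟩⟩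
  have hem : ⋂ n, S n = ∅ := by
    refine eq_empty_of_forall_notMem fun y hy => ?_
    obtain ⟨n, hn⟩ := exists_nat_ge (U.l2 y)
    have h := mem_iInter.1 hy n
    exact h.2 ⟨h.1, hn⟩
  have h1 : Tendsto ((μ.restrict U.W) ∘ S) atTop (𝓝 0) := by
    have h := tendsto_measure_iInter_atTop (μ := μ.restrict U.W)
      (fun n => (hm n).nullMeasurableSet) hanti ⟨0, ne_top_of_le_ne_top hfin
        ((measure_mono (subset_univ _)).trans (Measure.restrict_apply_univ _).le)⟩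
    rwa [hem, measure_empty] at h
  have h2 := tendsto_setLIntegral_zero hf h1
  have h3 := ENNReal.Tendsto.const_mul (a := a) h2 (Or.inr ha)
  rw [mul_zero] at h3
  obtain ⟨n, hn⟩ := (h3.eventually (ge_mem_nhds (zero_lt_one' ℝ≥0∞))).exists
  refine ⟨max R₀ (n + 1), le_max_left _ _, S n, hm n, fun y hy h => ⟨hy, fun h' => ?_⟩, hn⟩
  have h4 := (le_max_right R₀ ((n : ℝ) + 1)).trans h
  have h5 := h'.2
  linarith

theorem UG.l2_out [CompactSpace X] [T2Space X] [BorelSpace X] (H : UG U x) (hμ : IsVolume A μ)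
    {K : Form11 A} (hK : ∀ i, ∀ z ∈ (A.C i).W, (K.h i z).PosDef) (γ : ℕ) :
    ∃ (e : ℕ) (C₀ : ℝ), 1 ≤ e ∧ 0 < C₀ ∧ ∀ ε, 0 < ε → ε ≤ H.τ → ∀ R₀, ∃ R, R₀ ≤ R ∧
      ∃ g : X → ℂ, U.D.Hol g ∧ ∀ i, ∫⁻ z in U.D.W i, ENNReal.ofReal
        (Real.exp (-((H.d * e : ℕ) * U.φ (A.p i z) + γ * H.lam H.a ε (A.p i z))) *
          ‖((A.C i).σ z).det‖ * ‖g (A.p i z) - H.sR e R (A.p i z)‖ ^ 2) ≤ ENNReal.ofReal C₀ := by
  classical
  obtain ⟨k, e, he, hΦ⟩ := H.Φ_lev γ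
  obtain ⟨B, hB, hsR⟩ := H.sR_db e
  obtain ⟨K', h1, h2, h3⟩ := U.cut hK
  set f : X → ℝ≥0∞ := fun y => ENNReal.ofReal (Real.exp (-(k * U.G y))) with hf
  have hJ : ∫⁻ y in U.W, f y ∂μ ≠ ⊤ := (U.G_int k).lintegral_lt_top.ne
  have hfm : AEMeasurable f (μ.restrict U.W) :=
    (U.G_int k).aestronglyMeasurable.aemeasurable.ennreal_ofReal
  set J : ℝ := (∫⁻ y in U.W, f y ∂μ).toReal with hJd
  have hJ0 : 0 ≤ J := ENNReal.toReal_nonneg
  refine ⟨e, Real.exp 1 * (1 + B * 2 ^ γ * J), he, by positivity, fun ε hε hτ R₀ => ?_⟩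
  have hp := H.τ_pos
  obtain ⟨R, hR, S, hSm, hS, hS1⟩ := bpe9_tail U hJ
    (a := ENNReal.ofReal (B * (H.τ / ε) ^ γ)) ENNReal.ofReal_ne_top R₀
  obtain ⟨hs, c, hc, hc0, hcB, hsc⟩ := hsR R
  obtain ⟨hΦs, hΦl⟩ := hΦ ε hε
  have hth : ∀ i, ∀ z ∈ U.D.W i, ∀ v, 0 ≤ U.th i z v := fun i z hz v => U.G_lev i z hz.1 hz.2 v
  obtain ⟨g, hg, hgl⟩ := l2_gen hμ h1 h2 h3 hΦs
    (fun i z hz v => (add_nonneg (hth i z hz v) (sq_nonneg _)).trans (hΦl i z hz v)) hs hc hc0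
    (fun i z hz v => (hsc i z hz v).trans
      (mul_le_mul_of_nonneg_left (hΦl i z hz v) (hc0 _)))
  have hl : ∀ y ∈ U.W, 0 ≤ (1 + U.l y)⁻¹ ∧ (1 + U.l y)⁻¹ ≤ 1 := fun y hy => by
    have h := U.l_calc.2.1 y hy
    exact ⟨by positivity, inv_le_one_of_one_le₀ (by linarith)⟩
  have hpt : ∀ y ∈ U.W, ENNReal.ofReal (c y * Real.exp (-H.Φ (H.d * e) k γ ε y)) ≤
      S.indicator (fun y => ENNReal.ofReal (B * (H.τ / ε) ^ γ) * f y) y +
        ENNReal.ofReal (B * 2 ^ γ) * f y := by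
    intro y hy
    obtain ⟨ha, hb⟩ := bpe9_lam H hε hτ y
    set E := Real.exp (-(k * U.G y)) with hE
    set P := Real.exp (-H.lam H.a ε y) with hP
    have hE0 : 0 ≤ E := (Real.exp_pos _).le
    have hP0 : 0 ≤ P := (Real.exp_pos _).le
    have h4 : Real.exp (-H.Φ (H.d * e) k γ ε y) ≤
        Real.exp (-((H.d * e : ℕ) * U.φ y)) * (P ^ γ * E) := by
      rw [hP, hE, ← Real.exp_nat_mul, ← Real.exp_add, ← Real.exp_add]
      refine Real.exp_le_exp.2 ?_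
      have := (hl y hy).1
      unfold UG.Φ
      linarith
    have h5 : c y * Real.exp (-H.Φ (H.d * e) k γ ε y) ≤
        ((if R ≤ U.l2 y then B else 0) +
          (if y ∈ H.O ∧ H.τ ≤ 2 * H.t H.a y then B else 0)) * (P ^ γ * E) := by
      refine (mul_le_mul_of_nonneg_left h4 (hc0 y)).trans ?_
      rw [← mul_assoc]
      exact mul_le_mul_of_nonneg_right (hcB y) (by positivity)
    refine (ENNReal.ofReal_le_ofReal h5).trans ?_
    rw [add_mul]
    refine ENNReal.ofReal_add_le.trans (add_le_add ?_ ?_)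
    · split_ifs with h
      · rw [indicator_of_mem (hS y hy h), hf, ← ENNReal.ofReal_mul (by positivity), mul_assoc]
        refine ENNReal.ofReal_le_ofReal (mul_le_mul_of_nonneg_left ?_ hB)
        exact mul_le_mul_of_nonneg_right (pow_le_pow_left₀ hP0 ha γ) hE0
      · simp
    · split_ifs with h
      · rw [hf, ← ENNReal.ofReal_mul (by positivity), mul_assoc]
        refine ENNReal.ofReal_le_ofReal (mul_le_mul_of_nonneg_left ?_ hB)
        exact mul_le_mul_of_nonneg_right (pow_le_pow_left₀ hP0 (hb h.2) γ) hE0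
      · simp
  have hint : ∫⁻ y in U.W, ENNReal.ofReal (c y * Real.exp (-H.Φ (H.d * e) k γ ε y)) ∂μ ≤
      ENNReal.ofReal (1 + B * 2 ^ γ * J) := by
    refine (setLIntegral_mono' U.hW.measurableSet hpt).trans ?_
    rw [lintegral_add_right' _ (hfm.const_mul _), lintegral_indicator hSm,
      lintegral_const_mul' _ _ ENNReal.ofReal_ne_top,
      lintegral_const_mul' _ _ ENNReal.ofReal_ne_top,
      ENNReal.ofReal_add zero_le_one (by positivity), ENNReal.ofReal_one,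
      ENNReal.ofReal_mul (q := J) (by positivity), hJd, ENNReal.ofReal_toReal hJ]
    exact add_le_add hS1 le_rfl
  refine ⟨R, hR, g, hg, fun i => ?_⟩
  rw [ENNReal.ofReal_mul (Real.exp_pos _).le]
  refine le_trans ?_ (mul_le_mul_right ((hgl i).trans hint) _)
  rw [← lintegral_const_mul' _ _ ENNReal.ofReal_ne_top]
  refine setLIntegral_mono' (U.D.isOpen i).measurableSet fun z hz => ?_
  rw [← ENNReal.ofReal_mul (Real.exp_pos _).le, ← mul_assoc, ← mul_assoc, ← Real.exp_add]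
  refine ENNReal.ofReal_le_ofReal (mul_le_mul_of_nonneg_right
    (mul_le_mul_of_nonneg_right (Real.exp_le_exp.2 ?_) (norm_nonneg _)) (sq_nonneg _))
  have h6 := (hl _ hz.2).2
  have h7 : (k : ℝ) * U.G (A.p i z) ≤ 0 :=
    mul_nonpos_of_nonneg_of_nonpos (Nat.cast_nonneg _) (U.G_le _ hz.2)
  unfold UG.Φ
  linarith

end Pool.Agent.BP
end

-- part Pool.Agent.P.MP_63735c_ag.BPEB
section

/-! A section that does not vanish at `x`. -/

open scoped ComplexOrder ContDiff Matrix Topology ENNReal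
open Set Metric MeasureTheory Filter

namespace Pool.Agent.BP

open Pool.Agent.SPF Pool.Agent.CL Pool.Agent.NL Pool.Agent.CK Pool.Agent.AB Pool.Agent.SE

variable {N : ℕ} {X : Type} [TopologicalSpace X] [MeasurableSpace X] {A : Atlas X N}
  {μ : Measure X} {L : Line A} {U : Up A μ L} {x : X}

theorem bpeb_lip (N : ℕ) {r : ℝ} (hr : 0 < r) : ∃ a : ℝ, 0 < a ∧
    ∀ (f : E N → ℂ) (z₀ : E N) (b : ℝ), 0 ≤ b → DifferentiableOn ℂ f (ball z₀ (2 * r)) →
      ∫⁻ y in ball z₀ (2 * r), ENNReal.ofReal (‖f y‖ ^ 2) ≤ ENNReal.ofReal (b ^ 2) → f z₀ = 0 →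
        ∀ z ∈ ball z₀ r, ‖f z‖ ≤ a * b * ‖z - z₀‖ := by
  obtain ⟨a, ha, h⟩ := hol_l2 N hr
  refine ⟨a, ha, fun f z₀ b hb hf hi h0 z hz => ?_⟩
  have key : ∀ w ∈ ball z₀ r, DifferentiableAt ℂ f w ∧ ‖fderiv ℂ f w‖ ≤ a * b := by
    intro w hw
    have hs : ball w r ⊆ ball z₀ (2 * r) := ball_subset_ball' (by
      have := mem_ball.1 hw
      linarith)
    have hm : AEStronglyMeasurable (fun y => ‖f y‖ ^ 2) (volume.restrict (ball w r)) :=
      (((hf.mono hs).continuousOn.norm).pow 2).aestronglyMeasurable measurableSet_ball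
    have hn : 0 ≤ᵐ[volume.restrict (ball w r)] fun y => ‖f y‖ ^ 2 :=
      Eventually.of_forall fun _ => sq_nonneg _
    have h1 := (lintegral_mono_set hs).trans hi
    refine ⟨hf.differentiableAt (isOpen_ball.mem_nhds (hs (mem_ball_self hr))),
      (h f w b hb (hf.mono hs) ⟨hm, (hasFiniteIntegral_iff_ofReal hn).2
        (h1.trans_lt ENNReal.ofReal_lt_top)⟩ ?_).2⟩
    rw [integral_eq_lintegral_of_nonneg_ae hn hm]
    exact ENNReal.toReal_le_of_le_ofReal (sq_nonneg _) h1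
  have := (convex_ball z₀ r).norm_image_sub_le_of_norm_fderiv_le (𝕜 := ℂ) (fun w hw => (key w hw).1)
    (fun w hw => (key w hw).2) (mem_ball_self hr) hz
  rwa [h0, sub_zero] at this

theorem bpeb_sq (g s : ℂ) {w c : ℝ} (hw : 0 ≤ w) (h1 : c ≤ ‖s‖ ^ 2 * w) (h2 : ‖g‖ ^ 2 * w ≤ c / 4) :
    c / 4 ≤ ‖g - s‖ ^ 2 * w := by
  have h3 : ‖s‖ ≤ ‖g‖ + ‖g - s‖ := by simpa using norm_sub_le g (g - s)
  have h4 : ‖s‖ ^ 2 ≤ 2 * ‖g‖ ^ 2 + 2 * ‖g - s‖ ^ 2 := by
    nlinarith [norm_nonneg s, norm_nonneg g, norm_nonneg (g - s), sq_nonneg (‖g‖ - ‖g - s‖)]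
  nlinarith [mul_le_mul_of_nonneg_right h4 hw]

theorem UG.exists_sec [CompactSpace X] [T2Space X] [BorelSpace X] (H : UG U x)
    (hμ : IsVolume A μ) {K : Form11 A} (hK : ∀ i, ∀ z ∈ (A.C i).W, (K.h i z).PosDef)
    (hE : U.Ext) {i : A.ι} {z₀ : E N} (hz : z₀ ∈ (A.C i).W) (hx : A.p i z₀ = x) :
    ∃ j : ℕ, 1 ≤ j ∧ ∃ S, L.IsSection (U.m * j) S ∧ S i z₀ ≠ 0 := by
  by_contra hcon
  have ball_in : ∀ i, ∀ z ∈ (A.C i).W, ∃ r > 0, closedBall z r ⊆ (A.C i).W := fun i z hz =>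
    nhds_basis_closedBall.mem_iff.1 ((A.C i).isOpen.mem_nhds hz)
  obtain ⟨r, hr, hrW⟩ := ball_in i z₀ hz
  obtain ⟨r₀, hr₀, rfl⟩ : ∃ r₀, 0 < r₀ ∧ r = 2 * r₀ := ⟨r / 2, half_pos hr, by ring⟩
  obtain ⟨k, C, r₁, hC, hr₁, h3⟩ := H.sch_pt hz hx
  obtain ⟨c, r₂, hc, hr₂, h4⟩ := U.vol_big hμ hz k
  obtain ⟨e, C₀, he, hC₀, h9⟩ := H.l2_out hμ hK (4 * N + 1)
  have hCe : 0 ≤ H.C ^ e := pow_nonneg H.C_pos.le e
  obtain ⟨B, hB, hA⟩ := U.loc_l2 (H.d * e) hC₀.le hCe hrW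
  obtain ⟨a, ha, hL⟩ := bpeb_lip N hr₀
  obtain ⟨c₁, B₁, hc₁, hB₁, hb⟩ := cpt_bds L (isCompact_closedBall z₀ (2 * r₀)) hrW
  have hτ := H.τ_pos
  have hce : 0 < H.c ^ e := pow_pos H.c_pos e
  set κ := (Real.exp (-1) * H.τ / (C + 1)) ^ (4 * N + 1) * c₁ * (H.c ^ e / 4) with hκ
  have hκ0 : 0 < κ := by positivity
  have small : ∀ {f : ℝ → ℝ} {t : ℝ}, Continuous f → f 0 < t → ∀ᶠ ρ in 𝓝[>] 0, f ρ < t :=
    fun hf ht => nhdsWithin_le_nhds (hf.continuousAt.eventually_lt continuousAt_const ht)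
  obtain ⟨ρ, ⟨q0, q1, q2, q3, q4, q5, q6, q7⟩⟩ := (eventually_mem_nhdsWithin.and
    ((small continuous_id hr₁).and ((small continuous_id hr₂).and ((small continuous_id hτ).and
    ((small (f := fun ρ => 2 * (C * ρ)) (by fun_prop) (by simpa using hτ)).and
    ((small (f := fun ρ => ρ ^ 2) (by fun_prop) (by simpa using hr₀)).and
    ((small (f := fun ρ => (a * B * ρ ^ 2) ^ 2 * Real.exp ((H.d * e : ℕ) * (U.m * B₁)))
      (t := H.c ^ e / 4) (by fun_prop) (by simpa using hce)).and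
    (small (f := fun ρ => C₀ * ρ) (t := κ * c) (by fun_prop)
      (by simpa using mul_pos hκ0 hc))))))))).exists
  have hρ : 0 < ρ := q0
  obtain ⟨S, b, hS, hv, hs⟩ := h4 ρ hρ q2
  obtain ⟨R₀, hR₀⟩ := U.l2_calc.2.2.2.1 b
  obtain ⟨R, hR, g, hg, hi⟩ := h9 ρ hρ q3.le R₀
  have hq0 : ∀ y, ((4 * N + 1 : ℕ) : ℝ) * H.lam H.a ρ y ≤ 0 := fun y =>
    mul_nonpos_of_nonneg_of_nonpos (Nat.cast_nonneg _) (H.lam_bd H.a ρ y).1
  obtain ⟨T, hT, hTe⟩ := U.ext_sec hμ hE hg (H.d * e) fun i' z hz' => by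
    obtain ⟨r', hr', hW'⟩ := ball_in i' z hz'
    obtain ⟨B', -, hA'⟩ := U.loc_l2 (H.d * e) hC₀.le hCe hW'
    exact ⟨r', hr', ball_subset_closedBall.trans hW', ((hA' g _ _ hq0
      (fun y => (H.sR_bd e R y).1) (hi i')).trans_lt ENNReal.ofReal_lt_top).ne⟩
  have hT0 : T i z₀ = 0 := by_contra fun h =>
    hcon ⟨H.d * e, Nat.mul_pos H.d_pos he, T, hT, h⟩
  have hbW := ball_subset_closedBall.trans hrW
  have hae : ball z₀ (2 * r₀) =ᵐ[volume] (ball z₀ (2 * r₀) ∩ U.D.W i : Set (E N)) := by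
    refine ae_eq_set.2 ⟨measure_mono_null (fun y hy => ?_) (U.null_chart hμ i),
      measure_mono_null (fun y hy => (hy.2 hy.1.1).elim) measure_empty⟩
    exact ⟨hbW hy.1, fun h => hy.2 ⟨hy.1, hbW hy.1, h⟩⟩
  have hlip := hL (T i) z₀ B hB.le ((hT.1 i).mono hbW) (by
    rw [setLIntegral_congr hae, setLIntegral_congr_fun
      (measurableSet_ball.inter (U.D.isOpen i).measurableSet)
      (g := fun y => ENNReal.ofReal (‖g (A.p i y) * U.s i y ^ (H.d * e)‖ ^ 2))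
      fun y hy => by simp only [hTe i y hy.2]]
    exact hA g _ _ hq0 (fun y => (H.sR_bd e R y).1) (hi i)) hT0
  have low : ∀ z ∈ S, κ / ρ ^ (4 * N + 1) ≤ Real.exp (-((H.d * e : ℕ) * U.φ (A.p i z) +
      (4 * N + 1 : ℕ) * H.lam H.a ρ (A.p i z))) * ‖((A.C i).σ z).det‖ *
        ‖g (A.p i z) - H.sR e R (A.p i z)‖ ^ 2 := by
    intro z hzS
    obtain ⟨s1, s2, s3, s4⟩ := hs z hzS
    obtain ⟨o1, o2⟩ := h3 ρ hρ q1 z s1 s2 s3
    have hz1 : z ∈ ball z₀ r₀ := ball_subset_ball q5.le s1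
    obtain ⟨b1, b2, -⟩ := hb z (ball_subset_closedBall (ball_subset_ball (by linarith) hz1))
    have w1 := (H.sR_bd e R (A.p i z)).2 o1 (by linarith) ((hR₀ _ s2.2 s4).trans hR)
    have w2 : ‖g (A.p i z)‖ ^ 2 * Real.exp (-((H.d * e : ℕ) * U.φ (A.p i z))) ≤ H.c ^ e / 4 := by
      have e1 : ‖g (A.p i z)‖ ^ 2 * Real.exp (-((H.d * e : ℕ) * U.φ (A.p i z))) =
          ‖T i z‖ ^ 2 * Real.exp ((H.d * e : ℕ) * (-(U.m * L.ψ i z))) := by
        rw [hTe i z s2, ← mul_neg, Real.exp_nat_mul, Real.exp_nat_mul, U.φ_eq i z s2.1 s2.2,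
          norm_mul, norm_pow]
        ring
      rw [e1]
      refine le_trans (mul_le_mul (pow_le_pow_left₀ (norm_nonneg _) ((hlip z hz1).trans
        (mul_le_mul_of_nonneg_left (mem_ball_iff_norm.1 s1).le (by positivity))) 2)
        (Real.exp_le_exp.2 (mul_le_mul_of_nonneg_left ?_ (Nat.cast_nonneg _)))
        (Real.exp_nonneg _) (sq_nonneg _)) q6.le
      rw [← mul_neg]
      exact mul_le_mul_of_nonneg_left ((neg_le_abs _).trans b2) (Nat.cast_nonneg _)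
    have w3 := bpeb_sq _ _ (Real.exp_nonneg _) w1 w2
    have ht : 0 ≤ H.t H.a (A.p i z) := (sq_nonneg _).trans (norm_sq_le_nsq _)
    have w4 : Real.exp (-1) * H.τ / (C + 1) / ρ ≤ Real.exp (-H.lam H.a ρ (A.p i z)) := by
      have l1 := (H.lam_bd H.a ρ (A.p i z)).2.1 o1
      have l2 : Real.log ((H.t H.a (A.p i z) + ρ) / H.τ) ≤ Real.log ((C + 1) * ρ / H.τ) :=
        Real.log_le_log (by positivity) (div_le_div_of_nonneg_right (by linarith) hτ.le)
      calc _ = Real.exp (-1 - Real.log ((C + 1) * ρ / H.τ)) := by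
            rw [Real.exp_sub, Real.exp_log (by positivity)]
            field_simp
        _ ≤ _ := Real.exp_le_exp.2 (by linarith)
    calc _ = (Real.exp (-1) * H.τ / (C + 1) / ρ) ^ (4 * N + 1) * c₁ * (H.c ^ e / 4) := by
          rw [hκ, div_pow _ ρ]
          ring
      _ ≤ Real.exp (-H.lam H.a ρ (A.p i z)) ^ (4 * N + 1) * ‖((A.C i).σ z).det‖ *
          (‖g (A.p i z) - H.sR e R (A.p i z)‖ ^ 2 *
            Real.exp (-((H.d * e : ℕ) * U.φ (A.p i z)))) := by gcongr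
      _ = _ := by
          rw [← Real.exp_nat_mul, neg_add, Real.exp_add, mul_neg]
          ring
  have fin : ENNReal.ofReal (κ / ρ ^ (4 * N + 1)) * ENNReal.ofReal (c * ρ ^ (4 * N)) ≤
      ENNReal.ofReal C₀ := by
    refine le_trans ?_ ((lintegral_mono_set fun z hz => (hs z hz).2.1).trans (hi i))
    refine le_trans ?_ (setLIntegral_mono' hS fun z hz => ENNReal.ofReal_le_ofReal (low z hz))
    rw [setLIntegral_const]
    gcongr
  rw [← ENNReal.ofReal_mul (by positivity), ENNReal.ofReal_le_ofReal_iff hC₀.le] at fin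
  have e2 : κ / ρ ^ (4 * N + 1) * (c * ρ ^ (4 * N)) = κ * c / ρ := by
    rw [pow_succ]
    field_simp
  rw [e2, div_le_iff₀ hρ] at fin
  exact absurd q7 (not_lt.2 fin)

end Pool.Agent.BP
end

-- part Pool.Agent.P.MP_63735c_ag.FB2
section

/-! The value of the solution at a pole. -/

open scoped ComplexOrder ContDiff Matrix Topology ENNReal
open Set Metric MeasureTheory Filter

namespace Pool.Agent.BP

open Pool.Agent.SPF Pool.Agent.CL Pool.Agent.NL Pool.Agent.CK Pool.Agent.AB Pool.Agent.SE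

variable {N : ℕ} {X : Type} [TopologicalSpace X] [MeasurableSpace X] {A : Atlas X N}
  {μ : Measure X} {L : Line A} {U : Up A μ L} {x : X}

theorem fb2_lip (N : ℕ) {r : ℝ} (hr : 0 < r) : ∃ a : ℝ, 0 < a ∧
    ∀ (f : E N → ℂ) (z₀ : E N) (b : ℝ), 0 ≤ b → DifferentiableOn ℂ f (ball z₀ (2 * r)) →
      ∫⁻ y in ball z₀ (2 * r), ENNReal.ofReal (‖f y‖ ^ 2) ≤ ENNReal.ofReal (b ^ 2) →
        ∀ z ∈ ball z₀ r, ‖f z - f z₀‖ ≤ a * b * ‖z - z₀‖ := by
  obtain ⟨a, ha, h⟩ := hol_l2 N hr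
  refine ⟨a, ha, fun f z₀ b hb hf hi z hz => ?_⟩
  have key : ∀ w ∈ ball z₀ r, DifferentiableAt ℂ f w ∧ ‖fderiv ℂ f w‖ ≤ a * b := by
    intro w hw
    have hs : ball w r ⊆ ball z₀ (2 * r) := ball_subset_ball' (by
      have := mem_ball.1 hw
      linarith)
    have hm : AEStronglyMeasurable (fun y => ‖f y‖ ^ 2) (volume.restrict (ball w r)) :=
      (((hf.mono hs).continuousOn.norm).pow 2).aestronglyMeasurable measurableSet_ball
    have hn : 0 ≤ᵐ[volume.restrict (ball w r)] fun y => ‖f y‖ ^ 2 :=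
      Eventually.of_forall fun _ => sq_nonneg _
    have h1 := (lintegral_mono_set hs).trans hi
    refine ⟨hf.differentiableAt (isOpen_ball.mem_nhds (hs (mem_ball_self hr))),
      (h f w b hb (hf.mono hs) ⟨hm, (hasFiniteIntegral_iff_ofReal hn).2
        (h1.trans_lt ENNReal.ofReal_lt_top)⟩ ?_).2⟩
    rw [integral_eq_lintegral_of_nonneg_ae hn hm]
    exact ENNReal.toReal_le_of_le_ofReal (sq_nonneg _) h1
  exact (convex_ball z₀ r).norm_image_sub_le_of_norm_fderiv_le (𝕜 := ℂ) (fun w hw => (key w hw).1)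
    (fun w hw => (key w hw).2) (mem_ball_self hr) hz

theorem UG.ptq [T2Space X] [BorelSpace X] (H : UG U x) (hμ : IsVolume A μ) {i : A.ι} {z₀ : E N}
    (hz : z₀ ∈ (A.C i).W) (hx : A.p i z₀ = x) (j : ℕ) {C₀ C₁ τ θ : ℝ} (h0 : 0 ≤ C₀) (h1 : 0 ≤ C₁)
    (hτ : 0 < τ) (hθ : 0 < θ) : ∀ᶠ ρ in 𝓝[>] (0 : ℝ), ∃ R₀ : ℝ,
      ∀ (g s : X → ℂ) (q : X → ℝ) (T : A.ι → E N → ℂ), (∀ y, q y ≤ 0) → H.Pole τ ρ q →
        (∀ y, ‖s y‖ ^ 2 * Real.exp (-(j * U.φ y)) ≤ C₁) → U.dist j q g s i ≤ ENNReal.ofReal C₀ →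
        DifferentiableOn ℂ (T i) (A.C i).W →
        (∀ z ∈ U.D.W i, T i z = g (A.p i z) * U.s i z ^ j) → H.Apx j T s R₀ θ i z₀ := by
  obtain ⟨r, hr, hrW⟩ : ∃ r > 0, closedBall z₀ r ⊆ (A.C i).W :=
    nhds_basis_closedBall.mem_iff.1 ((A.C i).isOpen.mem_nhds hz)
  obtain ⟨r₀, hr₀, rfl⟩ : ∃ r₀, 0 < r₀ ∧ r = 2 * r₀ := ⟨r / 2, half_pos hr, by ring⟩
  obtain ⟨k, C, r₁, hC, hr₁, h3⟩ := H.sch_pt hz hx
  obtain ⟨c, r₂, hc, hr₂, h4⟩ := U.vol_big hμ hz k
  obtain ⟨B, hB, hA⟩ := U.loc_l2 j h0 h1 hrW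
  obtain ⟨a, ha, hL⟩ := fb2_lip N hr₀
  obtain ⟨c₁, B₁, hc₁, hB₁, hb⟩ := cpt_bds L (isCompact_closedBall z₀ (2 * r₀)) hrW
  set β := (θ / 2) ^ 2 * Real.exp (j * (-(U.m * B₁))) with hβ
  have hβ0 : 0 < β := by positivity
  set κ := (Real.exp (-1) * τ / (C + 1)) ^ (4 * N + 1) * c₁ * β with hκ
  have hκ0 : 0 < κ := by positivity
  have small : ∀ {f : ℝ → ℝ} {t : ℝ}, Continuous f → f 0 < t → ∀ᶠ ρ in 𝓝[>] 0, f ρ < t :=
    fun hf ht => nhdsWithin_le_nhds (hf.continuousAt.eventually_lt continuousAt_const ht)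
  filter_upwards [self_mem_nhdsWithin, small continuous_id hr₁, small continuous_id hr₂,
    small (f := fun ρ => C * ρ) (by fun_prop) (by simpa using hθ),
    small (f := fun ρ => ρ ^ 2) (by fun_prop) (by simpa using hr₀),
    small (f := fun ρ => ρ ^ 2) (by fun_prop) (by simpa using hθ),
    small (f := fun ρ => a * B * ρ ^ 2) (t := θ / 2) (by fun_prop) (by simpa using hθ),
    small (f := fun ρ => C₀ * ρ) (t := κ * c) (by fun_prop) (by simpa using mul_pos hκ0 hc)]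
    with ρ q0 q1 q2 q3 q4 q5 q6 q7
  have hρ : 0 < ρ := q0
  obtain ⟨S, b, hS, hv, hs⟩ := h4 ρ hρ q2
  obtain ⟨R₀, hR₀⟩ := U.l2_calc.2.2.2.1 b
  refine ⟨R₀, fun g s q T hq0 hP hs1 hi hT hTe => ?_⟩
  by_contra hcon
  have hbW := ball_subset_closedBall.trans hrW
  have hae : ball z₀ (2 * r₀) =ᵐ[volume] (ball z₀ (2 * r₀) ∩ U.D.W i : Set (E N)) := by
    refine ae_eq_set.2 ⟨measure_mono_null (fun y hy => ?_) (U.null_chart hμ i),
      measure_mono_null (fun y hy => (hy.2 hy.1.1).elim) measure_empty⟩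
    exact ⟨hbW hy.1, fun h => hy.2 ⟨hy.1, hbW hy.1, h⟩⟩
  have hlip := hL (T i) z₀ B hB.le (hT.mono hbW) (by
    rw [setLIntegral_congr hae, setLIntegral_congr_fun
      (measurableSet_ball.inter (U.D.isOpen i).measurableSet)
      (g := fun y => ENNReal.ofReal (‖g (A.p i y) * U.s i y ^ j‖ ^ 2))
      fun y hy => by simp only [hTe y hy.2]]
    exact hA g s q hq0 hs1 hi)
  have low : ∀ z ∈ S, κ / ρ ^ (4 * N + 1) ≤ Real.exp (-(j * U.φ (A.p i z) + q (A.p i z))) *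
      ‖((A.C i).σ z).det‖ * ‖g (A.p i z) - s (A.p i z)‖ ^ 2 := by
    intro z hzS
    obtain ⟨s1, s2, s3, s4⟩ := hs z hzS
    obtain ⟨o1, o2⟩ := h3 ρ hρ q1 z s1 s2 s3
    have hz1 : z ∈ ball z₀ r₀ := ball_subset_ball q4.le s1
    obtain ⟨b1, b2, -⟩ := hb z (ball_subset_closedBall (ball_subset_ball (by linarith) hz1))
    have w0 : θ < ‖T i z₀ - s (A.p i z) * U.s i z ^ j‖ := not_le.1 fun h =>
      hcon ⟨z, ball_subset_ball q5.le s1, s2, o1, o2.trans q3.le, hR₀ _ s2.2 s4, h⟩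
    have w1 : ‖T i z - T i z₀‖ ≤ θ / 2 := ((hlip z hz1).trans
      (mul_le_mul_of_nonneg_left (mem_ball_iff_norm.1 s1).le (by positivity))).trans q6.le
    have w2 : θ / 2 ≤ ‖(g (A.p i z) - s (A.p i z)) * U.s i z ^ j‖ := by
      have e1 : T i z₀ - s (A.p i z) * U.s i z ^ j =
          (g (A.p i z) - s (A.p i z)) * U.s i z ^ j - (T i z - T i z₀) := by
        rw [hTe z s2]
        ring
      have := norm_sub_le ((g (A.p i z) - s (A.p i z)) * U.s i z ^ j) (T i z - T i z₀)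
      rw [← e1] at this
      linarith
    have w3 : β ≤ ‖g (A.p i z) - s (A.p i z)‖ ^ 2 * Real.exp (-(j * U.φ (A.p i z))) := by
      have e1 : ‖g (A.p i z) - s (A.p i z)‖ ^ 2 * Real.exp (-(j * U.φ (A.p i z))) =
          ‖(g (A.p i z) - s (A.p i z)) * U.s i z ^ j‖ ^ 2 *
            Real.exp (j * (-(U.m * L.ψ i z))) := by
        rw [← mul_neg, Real.exp_nat_mul, Real.exp_nat_mul, U.φ_eq i z s2.1 s2.2,
          norm_mul, norm_pow]
        ring
      rw [e1]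
      refine mul_le_mul (pow_le_pow_left₀ (by positivity) w2 2)
        (Real.exp_le_exp.2 (mul_le_mul_of_nonneg_left (neg_le_neg ?_) (Nat.cast_nonneg _)))
        (Real.exp_nonneg _) (sq_nonneg _)
      exact mul_le_mul_of_nonneg_left ((le_abs_self _).trans b2) (Nat.cast_nonneg _)
    have ht : 0 ≤ H.t H.a (A.p i z) := (sq_nonneg _).trans (norm_sq_le_nsq _)
    have w4 : (Real.exp (-1) * τ / (C + 1) / ρ) ^ (4 * N + 1) ≤ Real.exp (-q (A.p i z)) := by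
      have l1 := hP _ o1
      have l2 : Real.log ((H.t H.a (A.p i z) + ρ) / τ) ≤ Real.log ((C + 1) * ρ / τ) :=
        Real.log_le_log (by positivity) (div_le_div_of_nonneg_right (by linarith) hτ.le)
      have l3 : Real.exp (-1) * τ / (C + 1) / ρ = Real.exp (-1 - Real.log ((C + 1) * ρ / τ)) := by
        rw [Real.exp_sub, Real.exp_log (by positivity)]
        field_simp
      rw [l3, ← Real.exp_nat_mul]
      refine Real.exp_le_exp.2 (le_neg.1 (l1.trans ?_))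
      rw [← mul_neg]
      exact mul_le_mul_of_nonneg_left (by linarith) (Nat.cast_nonneg _)
    calc _ = (Real.exp (-1) * τ / (C + 1) / ρ) ^ (4 * N + 1) * c₁ * β := by
          rw [hκ, div_pow _ ρ]
          ring
      _ ≤ Real.exp (-q (A.p i z)) * ‖((A.C i).σ z).det‖ *
          (‖g (A.p i z) - s (A.p i z)‖ ^ 2 * Real.exp (-(j * U.φ (A.p i z)))) := by gcongr
      _ = _ := by
          rw [neg_add, Real.exp_add]
          ring
  have fin : ENNReal.ofReal (κ / ρ ^ (4 * N + 1)) * ENNReal.ofReal (c * ρ ^ (4 * N)) ≤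
      ENNReal.ofReal C₀ := by
    refine le_trans ?_ ((lintegral_mono_set fun z hz => (hs z hz).2.1).trans hi)
    refine le_trans ?_ (setLIntegral_mono' hS fun z hz => ENNReal.ofReal_le_ofReal (low z hz))
    rw [setLIntegral_const]
    gcongr
  rw [← ENNReal.ofReal_mul (by positivity), ENNReal.ofReal_le_ofReal_iff h0] at fin
  have e2 : κ / ρ ^ (4 * N + 1) * (c * ρ ^ (4 * N)) = κ * c / ρ := by
    rw [pow_succ]
    field_simp
  rw [e2, div_le_iff₀ hρ] at fin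
  exact absurd q7 (not_lt.2 fin)

end Pool.Agent.BP
end
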