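import Pool.Agent.K.MP_63735c_ag.C302
import Pool.Agent.K.MP_63735c_ag.C303
import Pool.Agent.K.MP_63735c_ag.C310

/-! The sections are determined and bounded by finitely many values. -/

open scoped ComplexOrder ContDiff Matrix Topology ENNReal
open Set Metric MeasureTheory Filter

namespace Pool.Agent.ZB

open Pool.Agent.BP Pool.Agent.SPF Pool.Agent.AB Pool.Agent.CK Pool.Agent.SE Pool.Agent.NL

variable {N : ℕ} {X : Type} [TopologicalSpace X] [MeasurableSpace X] [BorelSpace X]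
  {A : Atlas X N} {μ : Measure X} {L : Line A}

theorem sf2_loc (U : Up A μ L) (hμ : IsVolume A μ) (hb : SB.SecBd L) (k : ℕ) {i : A.ι} {z₀ : E N}
    {r : ℝ} (hP : SB.EP L i z₀ r) : ∃ ε : ℝ, 0 < ε ∧ ∀ T, L.IsSection k T → ∀ M,
      (∀ x, nrm L k T x ≤ M) → ∀ w ∈ ball z₀ ε ∩ (A.C i).W, T i w = 0 →
        ∀ y ∈ ball z₀ ε ∩ (A.C i).W, nrm L k T (A.p i y) ≤ M / 2 := by
  have hr := hP.pos
  obtain ⟨R, hR⟩ : ∃ R, R = r / 128 := ⟨_, rfl⟩
  have hR0 : 0 < R := by rw [hR]; positivity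
  have hRr : R < r := by rw [hR]; linarith
  obtain ⟨B, hB0, hB⟩ := hP.bds hRr
  obtain ⟨K, hK⟩ : ∃ K, K = Real.exp (k * B) := ⟨_, rfl⟩
  have hK1 : 1 ≤ K := hK ▸ Real.one_le_exp (by positivity)
  have hK0 : 0 < K := by linarith
  have he : ∀ z ∈ ball z₀ R ∩ (A.C i).W, Real.exp (-(k * L.ψ i z)) ≤ K ∧
      1 ≤ Real.exp (-(k * L.ψ i z)) * K := fun z hz => by
    have h1 := abs_le.1 (hB z (ball_subset_closedBall hz.1) hz.2).2.1
    have h2 : (0 : ℝ) ≤ k := Nat.cast_nonneg k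
    rw [hK, ← Real.exp_add]
    exact ⟨Real.exp_le_exp.2 (by nlinarith [h1.1]), Real.one_le_exp (by nlinarith [h1.2])⟩
  have hε : R / (8 * K) ≤ R / 2 := div_le_div_of_nonneg_left hR0.le two_pos (by linarith)
  have hs : ball z₀ (R / (8 * K)) ⊆ ball z₀ (R / 2) := ball_subset_ball hε
  have hs2 : ball z₀ (R / 2) ⊆ ball z₀ R := ball_subset_ball (by linarith)
  refine ⟨R / (8 * K), by positivity, fun T hT M hM w hw h0 y hy => ?_⟩
  obtain ⟨f, hf, hfe⟩ := (hP.ext U hμ hb).2 k T hT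
  rw [← hR] at hf hfe
  have hM0 : 0 ≤ M := (sect_nonneg (nrm_norm hT) (A.p i w)).trans (hM _)
  have hq : 0 ≤ M * K := by positivity
  have hB1 : ∀ z ∈ ball z₀ R ∩ (A.C i).W, ‖f z‖ ≤ √(M * K) := fun z hz => by
    have h1 := hM (A.p i z)
    rw [nrm_eq hT hz.2] at h1
    rw [hfe hz]
    refine Real.le_sqrt_of_sq_le ?_
    have h2 := mul_le_mul_of_nonneg_left (he z hz).2 (sq_nonneg ‖T i z‖)
    have h3 := mul_le_mul_of_nonneg_right h1 hK0.le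
    linarith
  have hB2 : ∀ z ∈ ball z₀ R, ‖f z‖ ≤ √(M * K) := fun z hz =>
    ContinuousWithinAt.closure_le (f := fun z => ‖f z‖) (g := fun _ => √(M * K))
      (isOpen_ball.inter_closure ⟨hz, hP.dense (ball_subset_ball hRr.le hz)⟩)
      ((hf.continuousOn.continuousAt (isOpen_ball.mem_nhds hz)).norm.continuousWithinAt)
      continuousWithinAt_const hB1
  have h1 := CL.hol_lip (show R / 2 < R by linarith) hf hB2 (hs hy.1) (hs hw.1)
  rw [hfe ⟨hs2 (hs hy.1), hy.2⟩, hfe ⟨hs2 (hs hw.1), hw.2⟩, h0, sub_zero] at h1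
  have h2 : ‖y - w‖ ≤ 2 * (R / (8 * K)) := by
    rw [← dist_eq_norm]
    have := dist_triangle_right y w z₀
    linarith [mem_ball.1 hy.1, mem_ball.1 hw.1]
  have h3 : ‖T i y‖ ≤ √(M * K) / (2 * K) := by
    refine h1.trans ((mul_le_mul_of_nonneg_left h2 (div_nonneg (Real.sqrt_nonneg _)
      (by linarith))).trans (le_of_eq ?_))
    have : R - R / 2 = R / 2 := by ring
    rw [this]
    field_simp
    ring
  have h4 : ‖T i y‖ ^ 2 ≤ M * K / (2 * K) ^ 2 := by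
    refine (pow_le_pow_left₀ (norm_nonneg _) h3 2).trans (le_of_eq ?_)
    rw [div_pow, Real.sq_sqrt hq]
  rw [nrm_eq hT hy.2]
  refine (mul_le_mul h4 (he y ⟨hs2 (hs hy.1), hy.2⟩).1 (Real.exp_pos _).le
    (by positivity)).trans ?_
  have : M * K / (2 * K) ^ 2 * K = M / 4 := by field_simp; ring
  rw [this]
  linarith

theorem sf2_uniq (U : Up A μ L) (hμ : IsVolume A μ) (hc : SB.Cov L) (hb : SB.SecBd L) {D : Set X}
    (hD : Dense D) (k : ℕ) : ∃ (m : ℕ) (c : Fin m → A.ι) (z : Fin m → E N),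
      (∀ a, z a ∈ dom A D (c a)) ∧ ∀ T, L.IsSection k T → (∀ a, T (c a) (z a) = 0) →
        ∀ i, ∀ y ∈ (A.C i).W, T i y = 0 := by
  have h : ∀ (i : A.ι) (z₀ : E N), ∃ ε : ℝ, 0 < ε ∧ ((∃ r, SB.EP L i z₀ r) →
      ∃ w ∈ dom A D i, ∀ T, L.IsSection k T → ∀ M, (∀ x, nrm L k T x ≤ M) → T i w = 0 →
        ∀ y ∈ ball z₀ ε ∩ (A.C i).W, nrm L k T (A.p i y) ≤ M / 2) := fun i z₀ => by
    by_cases hE : ∃ r, SB.EP L i z₀ r
    · obtain ⟨r, hP⟩ := hE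
      obtain ⟨ε, hε, h⟩ := sf2_loc U hμ hb k hP
      obtain ⟨_, ⟨w, hw, rfl⟩, hwD⟩ := hD.inter_open_nonempty _
        (A.opn i _ (isOpen_ball.inter (A.C i).isOpen) inter_subset_right) ((hP.ne hε).image _)
      exact ⟨ε, hε, fun _ => ⟨w, ⟨hw.2, hwD⟩, fun T hT M hM h0 => h T hT M hM w hw h0⟩⟩
    · exact ⟨1, one_pos, fun h => (hE h).elim⟩
  choose ε hε hw using h
  obtain ⟨s, hs, hcov⟩ := hc ε hε
  choose w hwD hT using fun q : s => hw q.1.1 q.1.2 (hs q.1 q.2)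
  refine ⟨s.card, fun a => (s.equivFin.symm a).1.1, fun a => w (s.equivFin.symm a),
    fun a => hwD _, fun T hS h0 i y hy => ?_⟩
  obtain ⟨C, hC⟩ := hb k T hS
  have hbd : BddAbove (range (nrm L k T)) := ⟨C, by
    rintro _ ⟨x, rfl⟩
    obtain ⟨j, z, hz, rfl⟩ := A.cover x
    rw [nrm_eq hS hz]
    exact hC j z hz⟩
  have hM := le_ciSup hbd
  have : Nonempty X := ⟨A.p i y⟩
  have h2 : ⨆ x, nrm L k T x ≤ (⨆ x, nrm L k T x) / 2 := ciSup_le fun x => by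
    obtain ⟨q, hq, v, hv, rfl⟩ := hcov x
    have h1 := h0 (s.equivFin ⟨q, hq⟩)
    simp only [Equiv.symm_apply_apply] at h1
    exact hT ⟨q, hq⟩ T hS _ hM h1 v hv
  have h3 := hM (A.p i y)
  rw [nrm_eq hS hy] at h3
  have h4 : ‖T i y‖ ^ 2 ≤ 0 := by
    refine nonpos_of_mul_nonpos_left ?_ (Real.exp_pos (-(k * L.ψ i y)))
    linarith
  exact norm_eq_zero.1 (pow_eq_zero_iff two_ne_zero |>.1 (le_antisymm h4 (sq_nonneg _)))

theorem sec_spanS (U : Up A μ L) (hμ : IsVolume A μ) (hc : SB.Cov L) (hb : SB.SecBd L) {D : Set X}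
    (hD : Dense D) (k : ℕ) : ∃ (m : ℕ) (c : Fin m → A.ι) (z : Fin m → E N)
      (t : Fin m → A.ι → E N → ℂ), (∀ a, z a ∈ dom A D (c a)) ∧ (∀ a, L.IsSection k (t a)) ∧
      ∀ T, L.IsSection k T → ∀ i, ∀ y ∈ (A.C i).W, T i y = ∑ a, T (c a) (z a) * t a i y := by
  obtain ⟨m, c, z, hz, h⟩ := sf2_uniq U hμ hc hb hD k
  let ev : nr7_V L k →ₗ[ℂ] Fin m → ℂ :=
    { toFun := fun T a => T.1 (c a) (z a), map_add' := fun _ _ => rfl,
      map_smul' := fun _ _ => rfl }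
  obtain ⟨g, hg⟩ := ev.rangeRestrict.exists_rightInverse_of_surjective ev.range_rangeRestrict
  obtain ⟨Λ, hΛ⟩ := g.exists_extend
  refine ⟨m, c, z, fun a => (Λ (Pi.single a 1)).1, hz, fun a => (Λ (Pi.single a 1)).2,
    fun T hT i y hy => ?_⟩
  let S : nr7_V L k := ⟨T, hT⟩
  have h1 : ev (Λ (ev S)) = ev S := by
    have e1 : Λ (ev S) = g ⟨ev S, S, rfl⟩ := LinearMap.congr_fun hΛ ⟨ev S, S, rfl⟩
    rw [e1]
    exact congrArg Subtype.val (LinearMap.congr_fun hg ⟨ev S, S, rfl⟩)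
  have h2 := h (S - Λ (ev S)).1 (S - Λ (ev S)).2
    (fun a => congrFun ((ev.map_sub _ _).trans (sub_eq_zero.2 h1.symm)) a) i y hy
  have h3 : Λ (ev S) = ∑ a, ev S a • Λ (Pi.single a 1) := by
    conv_lhs => rw [pi_eq_sum_univ' (ev S)]
    simp only [map_sum, map_smul]
  have h4 : T i y = (Λ (ev S)).1 i y := sub_eq_zero.1 h2
  rw [h4, h3]
  simp [Finset.sum_apply, ev, S]

theorem coef_bd (U : Up A μ L) (hμ : IsVolume A μ) {i : A.ι} {z₀ : E N} (hz : z₀ ∈ (A.C i).W)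
    (j : ℕ) {C₀ C₁ : ℝ} (h0 : 0 ≤ C₀) (h1 : 0 ≤ C₁) : ∃ B : ℝ,
      ∀ (g s : X → ℂ) (q : X → ℝ) (T : E N → ℂ), (∀ y, q y ≤ 0) →
        (∀ y, ‖s y‖ ^ 2 * Real.exp (-(j * U.φ y)) ≤ C₁) → U.dist j q g s i ≤ ENNReal.ofReal C₀ →
        DifferentiableOn ℂ T (A.C i).W → (∀ z ∈ U.D.W i, T z = g (A.p i z) * U.s i z ^ j) →
        ‖T z₀‖ ≤ B := by
  obtain ⟨r, hr, hrW⟩ : ∃ r > 0, closedBall z₀ r ⊆ (A.C i).W :=
    nhds_basis_closedBall.mem_iff.1 ((A.C i).isOpen.mem_nhds hz)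
  obtain ⟨B, hB, hA⟩ := U.loc_l2 j h0 h1 hrW
  obtain ⟨a, -, hL⟩ := hol_l2 N hr
  refine ⟨a * B, fun g s q T hq0 hs1 hi hT hTe => ?_⟩
  have hbW := ball_subset_closedBall.trans hrW
  have hae : ball z₀ r =ᵐ[volume] (ball z₀ r ∩ U.D.W i : Set (E N)) := by
    refine ae_eq_set.2 ⟨measure_mono_null (fun y hy => ?_) (U.null_chart hμ i),
      measure_mono_null (fun y hy => (hy.2 hy.1.1).elim) measure_empty⟩
    exact ⟨hbW hy.1, fun h => hy.2 ⟨hy.1, hbW hy.1, h⟩⟩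
  have hf := hT.mono hbW
  have h2 : ∫⁻ y in ball z₀ r, ENNReal.ofReal (‖T y‖ ^ 2) ≤ ENNReal.ofReal (B ^ 2) := by
    rw [setLIntegral_congr hae, setLIntegral_congr_fun
      (measurableSet_ball.inter (U.D.isOpen i).measurableSet)
      (g := fun y => ENNReal.ofReal (‖g (A.p i y) * U.s i y ^ j‖ ^ 2))
      fun y hy => by simp only [hTe y hy.2]]
    exact hA g s q hq0 hs1 hi
  have hm : AEStronglyMeasurable (fun y => ‖T y‖ ^ 2) (volume.restrict (ball z₀ r)) :=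
    ((hf.continuousOn.norm).pow 2).aestronglyMeasurable measurableSet_ball
  have hn : 0 ≤ᵐ[volume.restrict (ball z₀ r)] fun y => ‖T y‖ ^ 2 :=
    Eventually.of_forall fun _ => sq_nonneg _
  refine (hL T z₀ B hB.le hf ⟨hm, (hasFiniteIntegral_iff_ofReal hn).2
    (h2.trans_lt ENNReal.ofReal_lt_top)⟩ ?_).1
  rw [integral_eq_lintegral_of_nonneg_ae hn hm]
  exact ENNReal.toReal_le_of_le_ofReal (sq_nonneg _) h2

end Pool.Agent.ZB
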