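import Pool.Agent.K.MP_63735c_ag.C308
import Pool.Agent.K.MP_63735c_ag.C35

/-! A complete metric on `W`. -/

open scoped ComplexOrder ContDiff Matrix Topology ENNReal
open Set Metric MeasureTheory Filter

namespace Pool.Agent.SB

open Pool.Agent.SPF Pool.Agent.CL Pool.Agent.NL Pool.Agent.CK Pool.Agent.AB Pool.Agent.SE
  Pool.Agent.BP Pool.Agent.CS

variable {N : ℕ} {X : Type} [TopologicalSpace X] [MeasurableSpace X] {A : Atlas X N}
  {μ : Measure X} {L : Line A} {U : Up A μ L} {x : Filter X}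

theorem sbe5_cut (U : Up A μ L) {K : Form11 A}
    (hK : ∀ i, ∀ z ∈ (A.C i).W, (K.h i z).PosDef) (hB : Bd11 A K) :
    ∃ K' : A.ι → E N → Mat N, (∀ i, Kah (U.D.W i) (K' i)) ∧ U.D.Cpt K' ∧ U.D.Cut K' := by
  obtain ⟨hl, h0, H0⟩ := U.l_calc
  obtain ⟨C₀, hC₀, hb⟩ := hB
  obtain ⟨C, hCe⟩ : ∃ C, C = U.M * C₀ := ⟨_, rfl⟩
  have hC : 0 ≤ C := hCe ▸ mul_nonneg U.M_nonneg hC₀
  have H : ∀ i, ∀ z ∈ U.D.W i, ∀ v, (hq (lev (fun y => U.l (A.p i y)) z) v v).re +
      ‖v ⬝ᵥ dr (fun y => U.l (A.p i y)) z‖ ^ 2 ≤ C * (hq (K.h i z) v v).re := by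
    intro i z hz v
    refine (H0 i z hz v).trans ?_
    have a := (le_abs_self _).trans (hb i z hz.1 v)
    rw [ev11_hq, ev11_hq] at a
    rw [hCe, mul_assoc]
    exact mul_le_mul_of_nonneg_left (by linarith) U.M_nonneg
  have hs : ∀ i, ∀ z ∈ U.D.W i, ContDiffAt ℝ ∞ (fun y => U.l (A.p i y)) z := fun i z hz =>
    (hl i).contDiffAt ((U.D.isOpen i).mem_nhds hz)
  have hv : ∀ i z v, (hq (((C + 1 : ℝ) : ℂ) • K.h i z +
      ((-1 : ℝ) : ℂ) • lev (fun y => U.l (A.p i y)) z) v v).re =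
      (C + 1) * (hq (K.h i z) v v).re - (hq (lev (fun y => U.l (A.p i y)) z) v v).re := by
    intro i z v
    rw [hq_add, hq_smul, hq_smul, Complex.add_re, Complex.re_ofReal_mul, Complex.re_ofReal_mul]
    ring
  refine ⟨fun i z => ((C + 1 : ℝ) : ℂ) • K.h i z + ((-1 : ℝ) : ℂ) • lev (fun y => U.l (A.p i y)) z,
    fun (i : A.ι) => ?_, fun i j z hz φ hφ => ?_, cut_of_lam (C := C + 1) (by linarith) hl ?_ ?_ ?_⟩
  · have hW := U.D.isOpen i
    have s1 : ∀ a b, ContDiffOn ℝ ∞ (fun z => K.h i z a b) (U.D.W i) :=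
      fun a b => (K.smooth i a b).mono inter_subset_left
    have s2 := lev_smooth hW (hl i)
    refine ⟨fun a b => (contDiffOn_const.mul (s1 a b)).add (contDiffOn_const.mul (s2 a b)),
      fun z hz => posDef_of_hq ?_ fun v hv0 => ?_, fun z hz a b c => ?_⟩
    · exact ((K.herm i z hz.1).smul (Complex.conj_ofReal _)).add
        ((lev_herm (hs i z hz)).smul (Complex.conj_ofReal _))
    · have := H i z hz v
      have := hq_pos (hK i z hz.1) hv0
      refine lt_of_lt_of_eq ?_ (hv i z v).symm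
      nlinarith [sq_nonneg ‖v ⬝ᵥ dr (fun y => U.l (A.p i y)) z‖]
    · have key : ∀ a b c, dz c (fun w => (((C + 1 : ℝ) : ℂ) • K.h i w +
          ((-1 : ℝ) : ℂ) • lev (fun y => U.l (A.p i y)) w) a b) z =
          ((C + 1 : ℝ) : ℂ) * dz c (fun w => K.h i w a b) z +
            ((-1 : ℝ) : ℂ) * dz c (fun w => lev (fun y => U.l (A.p i y)) w a b) z := by
        intro a b c
        have d1 := diffAt hW (s1 a b) hz
        have d2 := diffAt hW (s2 a b) hz
        refine (dz_add (d1.const_mul _) (d2.const_mul _) c).1.trans ?_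
        rw [(dz_mul (differentiableAt_const _) d1 c).1, (dz_mul (differentiableAt_const _) d2 c).1,
          (dz_const c _).1, (dz_const c _).1, zero_mul, zero_mul, zero_add, zero_add]
        rfl
      rw [key, key, K.closed i z hz.1, lev_closed (hs i z hz)]
  · have e1 := man_cpt_form (hinj := U.hinj) (hM := U.hW) K i j z hz φ hφ
    have e2 := Man.levG_cpt hl i j z hz φ hφ
    simp only [Matrix.mul_add, Matrix.add_mul, Matrix.mul_smul, Matrix.smul_mul]
    rw [← e1]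
    exact congrArg (fun m => ((C + 1 : ℝ) : ℂ) • K.h i z + ((-1 : ℝ) : ℂ) • m) e2
  · rw [man_M]
    exact h0
  · rw [man_M]
    refine fun c => ⟨_, U.ψ_cpt (-Real.exp c), fun y hy => hy.1, fun y hy hw => ?_⟩
    have a : U.ψ y < -Real.exp c := lt_of_not_ge fun h => hy ⟨hw, h⟩
    exact (Real.lt_log_iff_exp_lt (by linarith [U.ψ_le y hw])).2 (by linarith)
  · intro (i : A.ι) z hz v
    have a1 := H i z hz v
    have a2 := hq_nonneg (hK i z hz.1).posSemidef v
    have a3 := sq_nonneg ‖v ⬝ᵥ dr (fun y => U.l (A.p i y)) z‖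
    rw [hv]
    change |(hq (lev (fun y => U.l (A.p i y)) z) v v).re| ≤ _ ∧
      ‖v ⬝ᵥ dr (fun y => U.l (A.p i y)) z‖ ^ 2 ≤ _
    generalize (hq (lev (fun y => U.l (A.p i y)) z) v v).re = m at *
    generalize (hq (K.h i z) v v).re = κ at *
    generalize ‖v ⬝ᵥ dr (fun y => U.l (A.p i y)) z‖ ^ 2 = n at *
    have a4 : κ ≤ (C + 1) * κ - m := by linarith
    have a5 := mul_le_mul_of_nonneg_left a4 hC
    have a6 := mul_nonneg hC a2
    exact ⟨abs_le.2 ⟨by nlinarith, by nlinarith⟩, by linarith⟩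

end Pool.Agent.SB
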