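import Pool.Agent.K.MP_63735c_ag.C301
import Pool.Agent.K.MP_63735c_ag.C313
import Pool.Agent.K.MP_63735c_ag.C314
import Pool.Agent.K.MP_63735c_ag.C290
import Pool.Agent.K.MP_63735c_ag.C298
import Pool.Agent.K.MP_63735c_ag.C268
import Pool.Agent.K.MP_63735c_ag.C296
import Pool.Agent.K.MP_63735c_ag.C214
import Pool.Agent.K.MP_63735c_ag.C208
import Pool.Agent.K.MP_63735c_ag.C218
import Pool.Agent.K.MP_63735c_ag.C21
import Pool.Agent.K.MP_63735c_ag.C13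
import Pool.Agent.K.MP_63735c_ag.C233
import Pool.Agent.K.MP_63735c_ag.C25
import Pool.Agent.K.MP_63735c_ag.C23
import Pool.Agent.K.MP_63735c_ag.C204
import Pool.Agent.K.MP_63735c_ag.C9
import Pool.Agent.K.MP_63735c_ag.C202

-- part Pool.Agent.P.MP_63735c_ag.SF5
section

/-! Separation of two points of the singular space. -/

open scoped ComplexOrder ContDiff Matrix Topology ENNReal
open Set Metric MeasureTheory Filter

namespace Pool.Agent.ZB

open Pool.Agent.BP Pool.Agent.SPF Pool.Agent.AB Pool.Agent.CK Pool.Agent.SE Pool.Agent.NL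

section

variable {N : ℕ} {X : Type} [TopologicalSpace X] {A : Atlas X N} {L : Line A}

theorem sf5_sb (h : Bdd L) : SB.SecBd L := fun j s hs => by
  obtain ⟨b, hb⟩ := h j s hs
  refine ⟨b, fun i z hz => ?_⟩
  have h1 := hb (A.p i z)
  rwa [nrm_eq hs hz] at h1

theorem sf5_near {M : ℕ} {O : Set X} (F : X → E M) {u : X} (hu : u ∈ O) : Near O F u (F u) :=
  fun ε hε => (frequently_pure.2 ⟨hu, by simpa using hε⟩).filter_mono (pure_le_nhds u)

variable [MeasurableSpace X] {μ : Measure X} {U : Up A μ L} {x : X} {t : A.ι → E N → ℂ}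

theorem sf5_small (H : UG U x) {u : X} (hu : H.t H.a u ≤ H.τ / 8) : ‖H.F u - H.a‖ ≤ H.δ / 2 := by
  have hδ := H.δ_pos
  have h1 : ‖H.F u - H.a‖ ^ 2 ≤ H.τ / 8 := (norm_sq_le_nsq _).trans hu
  refine (abs_le_of_sq_le_sq' ?_ (by positivity)).2
  unfold UG.τ at h1
  nlinarith [sq_nonneg H.δ]

theorem sf5_tri (H : UG U x) {u : X} (hu : H.t H.a u ≤ H.τ / 8) (y : X) :
    H.t H.a y ≤ 2 * H.t (H.F u) y + H.τ / 4 := by
  have h1 := bpe3_add (H.F y - H.F u) (H.F u - H.a)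
  rw [sub_add_sub_cancel] at h1
  unfold UG.t at hu ⊢
  linarith

/-- The same germ, centred at one of its points. -/
noncomputable def sf5_ctr (H : UG U x) {u : X} (h1 : u ∈ H.O) (h2 : H.t H.a u ≤ H.τ / 8) :
    UG U u := fb5_ctr H u (H.F u) (sf5_small H h2) (sf5_near H.F h1)

theorem sf5_exp (H : UG U x) {u : X} (hu : H.t H.a u ≤ H.τ / 8) {ε : ℝ} (hε : 0 < ε) {y : X}
    (hy : H.τ ≤ 2 * H.t H.a y) : Real.exp (-H.lam (H.F u) ε y) ≤ 8 :=
  fb5_exp H _ hε (by norm_num) (by linarith [sf5_tri H hu y])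

/-- The approximate value at a pole. -/
theorem sf5_use (H : UG U x) {h : E H.M → ℂ} (hd : Differentiable ℂ h)
    (h1 : ∀ y ∈ H.O, ‖h (H.F y)‖ ≤ 1) (ht : L.IsSection (U.m * H.d) t)
    (hw : ∀ i, ∀ z ∈ U.D.W i, t i z = H.w (A.p i z) * U.s i z ^ H.d) (e : ℕ) {i : A.ι}
    {z₀ : E N} (hz : z₀ ∈ (A.C i).W) {u : X} (u1 : u ∈ H.O) (u2 : H.t H.a u ≤ H.τ / 8) {η : ℝ}
    (hη : 0 < η) : ∃ θ₀ > 0, ∀ θ ≤ θ₀, ∀ (R : ℝ) (T : A.ι → E N → ℂ),
      (sf5_ctr H u1 u2).Apx (H.d * e) T ((fb5_frm H h hd h1).sR e R) R θ i z₀ →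
      ‖T i z₀ - (2 + h (H.F u)) ^ e * t i z₀ ^ e‖ ≤ η := by
  have hτ := H.τ_pos
  have cont : ContinuousAt (fun p : E H.M × E N => ((2 + h p.1) * t i p.2) ^ e) (H.F u, z₀) := by
    have c1 : ContinuousAt (fun p : E H.M × E N => t i p.2) (H.F u, z₀) :=
      ContinuousAt.comp (f := Prod.snd) (x := (H.F u, z₀))
        ((ht.1 i).continuousOn.continuousAt ((A.C i).isOpen.mem_nhds hz)) continuousAt_snd
    have c2 : Continuous fun p : E H.M × E N => 2 + h p.1 :=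
      continuous_const.add (hd.continuous.comp continuous_fst)
    exact (c2.continuousAt.mul c1).pow e
  obtain ⟨θ₁, p₁, q₁⟩ := fb5_cont cont (half_pos hη)
  refine ⟨min θ₁ (min (η / 2) (H.τ / 8)), by positivity, fun θ hθ R T a => ?_⟩
  have θ1 : θ ≤ θ₁ := hθ.trans (min_le_left _ _)
  have θ3 : θ ≤ η / 2 := hθ.trans ((min_le_right _ _).trans (min_le_left _ _))
  have θ4 : θ ≤ H.τ / 8 := hθ.trans ((min_le_right _ _).trans (min_le_right _ _))
  obtain ⟨z, a1, a2, a3, a4, a5, a6⟩ := a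
  have a4' : H.t (H.F u) (A.p i z) ≤ θ := a4
  have s1 : (fb5_frm H h hd h1).sR e R (A.p i z) =
      ((2 + h (H.F (A.p i z))) * H.w (A.p i z)) ^ e :=
    fb5_sR (fb5_frm H h hd h1) e a3 (by
      have : 2 * H.t H.a (A.p i z) ≤ H.τ := by linarith [sf5_tri H u2 (A.p i z)]
      exact this) a5
  have s2 : (fb5_frm H h hd h1).sR e R (A.p i z) * U.s i z ^ (H.d * e) =
      ((2 + h (H.F (A.p i z))) * t i z) ^ e := by
    rw [s1, hw i z a2, pow_mul, ← mul_pow, mul_assoc]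
  rw [s2] at a6
  have s3 := q₁ (H.F (A.p i z)) z (((norm_sq_le_nsq _).trans a4').trans θ1)
    (ball_subset_ball θ1 a1)
  rw [← mul_pow]
  linarith [norm_sub_le_norm_sub_add_norm_sub (T i z₀)
    (((2 + h (H.F (A.p i z))) * t i z) ^ e) (((2 + h (H.F u)) * t i z₀) ^ e)]

end

section

variable {N : ℕ} {X : Type} [TopologicalSpace X] {R : Set X} {A : Atlas R N} {L : Line A}

theorem sf5_div {k : ℕ} {T t : A.ι → E N → ℂ} (hT : L.IsSection k T) (ht : L.IsSection k t)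
    {i : A.ι} {z : E N} (hz : z ∈ (A.C i).W) (h : t i z ≠ 0) {v : ℂ} {η : ℝ}
    (h1 : ‖T i z - v * t i z‖ ≤ η * ‖t i z‖) : ‖rat A T t (A.p i z) - v‖ ≤ η := by
  have h2 : T i z / t i z - v = (T i z - v * t i z) / t i z := by field_simp
  rwa [rat_reg hT ht hz h, h2, norm_div, div_le_iff₀ (norm_pos_iff.2 h)]

end

variable {N : ℕ} {X : Type} [TopologicalSpace X] [T2Space X] [CompactSpace X] {R : Set X}
  [MeasurableSpace R] [BorelSpace R] {A : Atlas R N} {B : Amb R A} {K : Form11 A} {L : Line A}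
  {μ : Measure R} {U : Up A μ L} {t : A.ι → E N → ℂ}

/-- Approximate values at regular points close to `x₁` and `x₂`. -/
theorem sep_apx (S : Sg B K L) {k m : ℕ} {c : Fin m → A.ι} {ζ : Fin m → E N}
    {u : Fin m → A.ι → E N → ℂ} (hu : ∀ a, L.IsSection k (u a))
    (hs : ∀ T, L.IsSection k T → ∀ i, ∀ y ∈ (A.C i).W, T i y = ∑ a, T (c a) (ζ a) * u a i y)
    (ht : L.IsSection k t) {x₁ x₂ : X} (h1 : ¬ VanS L k t x₁) (h2 : ¬ VanS L k t x₂) {v₁ v₂ : ℂ}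
    (hv : v₁ ≠ v₂) {b : ℝ} (h : ∀ η > 0, ∃ᶠ y in nr R x₁ ×ˢ nr R x₂, ∃ T, L.IsSection k T ∧
      (∀ a, ‖T (c a) (ζ a)‖ ≤ b) ∧ ‖rat A T t y.1 - v₁‖ ≤ η ∧ ‖rat A T t y.2 - v₂‖ ≤ η) :
    SepS L k x₁ x₂ := by
  by_contra hc
  have key : ∀ x, ¬ VanS L k t x → ∀ η > 0, ∀ᶠ y : R in nr R x, ∀ T, L.IsSection k T →
      (∀ a, ‖T (c a) (ζ a)‖ ≤ b) → ‖rat A T t y - rat A T t x‖ ≤ η := by
    intro x hx η hη
    have c1 : ContinuousAt (fun y => ∑ a, |b| * ‖rat A (u a) t y - rat A (u a) t x‖) x :=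
      tendsto_finsetSum _ fun a _ =>
        continuousAt_const.mul ((S.rat_cont (hu a) ht hx).sub continuousAt_const).norm
    have c2 : ∀ᶠ y in 𝓝 x, ∑ a, |b| * ‖rat A (u a) t y - rat A (u a) t x‖ < η :=
      c1.eventually_lt continuousAt_const (by simpa using hη)
    have c3 : ∀ᶠ y in 𝓝 x, ¬ VanS L k t y := (S.nvan_open ht).mem_nhds hx
    refine (tendsto_comap.eventually (c2.and c3)).mono fun y hy T hT hb => ?_
    rw [S.rat_sum hu _ hT (hs T hT) ht hy.2, S.rat_sum hu _ hT (hs T hT) ht hx,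
      ← Finset.sum_sub_distrib]
    refine (norm_sum_le _ _).trans ((Finset.sum_le_sum fun a _ => ?_).trans hy.1.le)
    rw [← mul_sub, norm_mul]
    exact mul_le_mul_of_nonneg_right ((hb a).trans (le_abs_self b)) (norm_nonneg _)
  have hp : 0 < ‖v₁ - v₂‖ := norm_pos_iff.2 (sub_ne_zero.2 hv)
  have hη : 0 < ‖v₁ - v₂‖ / 5 := by positivity
  obtain ⟨y, ⟨T, hT, hb, a1, a2⟩, b1, b2⟩ := ((h _ hη).and_eventually
    ((key x₁ h1 _ hη).prod_mk (key x₂ h2 _ hη))).exists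
  have e : rat A T t x₁ = rat A T t x₂ :=
    by_contra fun hne => hc (S.sep_of_rat hT ht h1 h2 hne)
  have d1 := b1 T hT hb
  have d2 := b2 T hT hb
  rw [e] at d1
  have e1 : v₁ - v₂ = (rat A T t y.1 - rat A T t x₂) - (rat A T t y.1 - v₁) +
      ((rat A T t y.2 - v₂) - (rat A T t y.2 - rat A T t x₂)) := by ring
  have e2 := norm_add_le ((rat A T t y.1 - rat A T t x₂) - (rat A T t y.1 - v₁))
    ((rat A T t y.2 - v₂) - (rat A T t y.2 - rat A T t x₂))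
  rw [← e1] at e2
  linarith [norm_sub_le (rat A T t y.1 - rat A T t x₂) (rat A T t y.1 - v₁),
    norm_sub_le (rat A T t y.2 - v₂) (rat A T t y.2 - rat A T t x₂)]

theorem sep_farS (hμ : IsVolume A μ) (S : Sg B K L) (hc : SB.Cov L) {u₁ u₂ : R} (H₁ : UG U u₁)
    (H₂ : UG U u₂) (hd : Disjoint H₁.O H₂.O) (ht : L.IsSection (U.m * H₁.d) t)
    (hw : ∀ i, ∀ z ∈ U.D.W i, t i z = H₁.w (A.p i z) * U.s i z ^ H₁.d) {x₁ x₂ : X}
    (v₁ : ¬ VanS L (U.m * H₁.d) t x₁) (v₂ : ¬ VanS L (U.m * H₁.d) t x₂)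
    (n₁ : ∃ᶠ u in nr R x₁, u ∈ H₁.O ∧ H₁.t H₁.a u ≤ H₁.τ / 8)
    (n₂ : ∃ᶠ u in nr R x₂, u ∈ H₂.O ∧ H₂.t H₂.a u ≤ H₂.τ / 8) :
    ∃ e : ℕ, 1 ≤ e ∧ SepS L (U.m * (H₁.d * e)) x₁ x₂ := by
  obtain ⟨C₁, hC₁, hW⟩ := wt_two H₁ H₂ (4 * N + 1)
  obtain ⟨e, he, hT⟩ := twoS U hμ S.kah.isKahler.posDef S.kah.isKahler.bd11 hC₁
  refine ⟨e, he, ?_⟩
  obtain ⟨m, c, ζ, u, hζ, hu, hs⟩ := sec_spanS U hμ hc (sf5_sb (bdd_of S.kah S.nor S.car))
    dense_univ (U.m * (H₁.d * e))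
  have hd0 : Differentiable ℂ fun _ : E H₁.M => (0 : ℂ) := differentiable_const _
  have h0 : ∀ y ∈ H₁.O, ‖(fun _ : E H₁.M => (0 : ℂ)) (H₁.F y)‖ ≤ 1 := fun _ _ => by simp
  obtain ⟨b, hb⟩ := hT u₁ (fb5_frm H₁ _ hd0 h0) ((8 * 1) ^ (4 * N + 1)) m c ζ fun a => (hζ a).1
  have hp := sec_pow ht e
  have w₁ := S.nvan_pow ht v₁ e
  have w₂ := S.nvan_pow ht v₂ e
  rw [mul_assoc] at hp w₁ w₂
  refine sep_apx S hu hs hp w₁ w₂ (v₁ := (2 + 0) ^ e) (v₂ := 0) (pow_ne_zero _ (by norm_num))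
    (b := b) fun η hη => ?_
  have m₁ := n₁.and_eventually (tendsto_comap.eventually ((S.nvan_open hp).mem_nhds w₁))
  have m₂ := n₂.and_eventually (tendsto_comap.eventually ((S.nvan_open hp).mem_nhds w₂))
  refine (frequently_prod_and.2 ⟨m₁, m₂⟩).mono ?_
  rintro ⟨y₁, y₂⟩ ⟨⟨⟨a₁, a₂⟩, a₃⟩, ⟨b₁, b₂⟩, b₃⟩
  obtain ⟨i₁, z₁, hz₁, rfl⟩ := A.cover y₁
  obtain ⟨i₂, z₂, hz₂, rfl⟩ := A.cover y₂
  have t₁ : t i₁ z₁ ^ e ≠ 0 := fun h => a₃ ((vanS_reg hp hz₁).2 h)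
  have t₂ : t i₂ z₂ ^ e ≠ 0 := fun h => b₃ ((vanS_reg hp hz₂).2 h)
  have p₁ : 0 < η * ‖t i₁ z₁ ^ e‖ := mul_pos hη (norm_pos_iff.2 t₁)
  have p₂ : 0 < η * ‖t i₂ z₂ ^ e‖ := mul_pos hη (norm_pos_iff.2 t₂)
  obtain ⟨θ, hθ, q⟩ := sf5_use H₁ hd0 h0 ht hw e hz₁ a₁ a₂ p₁
  obtain ⟨r, T, hS, hB, r₁, v, -, -, r₃, -, -, r₆⟩ := hb _ _ (sf5_ctr H₁ a₁ a₂) (sf5_ctr H₂ b₁ b₂)
    (fun ε y => ((4 * N + 1 : ℕ) : ℝ) *
      (H₁.lam (H₁.F (A.p i₁ z₁)) ε y + H₂.lam (H₂.F (A.p i₂ z₂)) ε y))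
    H₁.τ H₂.τ H₁.τ_pos H₂.τ_pos
    (fun ε hε => ⟨hW _ _ (sf5_small H₁ a₂) (sf5_small H₂ b₂) ε hε,
      fun y hy => (fb5_pole H₁ H₂ _ _ ε _ y).1 hy, fun y hy => (fb5_pole H₁ H₂ _ _ ε _ y).2 hy,
      fun y hy h => fb5_two _ (sf5_exp H₁ a₂ hε h) (by
        rw [(H₂.lam_exp _ hε y).2 (disjoint_left.1 hd hy)]
        simp)⟩) i₁ z₁ hz₁ rfl i₂ z₂ hz₂ rfl _ (lt_min hθ p₂)
  refine ⟨T, hS, hB, sf5_div hS hp hz₁ t₁ (q _ (min_le_left _ _) r T r₁),
    sf5_div hS hp hz₂ t₂ ?_⟩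
  have r₄ : A.p i₂ v ∉ (fb5_frm H₁ _ hd0 h0).O := disjoint_right.1 hd r₃
  rw [UG.sR, indicator_of_notMem r₄, zero_mul] at r₆
  rw [zero_mul]
  exact r₆.trans (min_le_right _ _)

theorem sep_nearS (hμ : IsVolume A μ) (S : Sg B K L) (hc : SB.Cov L) {u₀ : R} (H : UG U u₀)
    {b : ℝ} (hB : ∀ y ∈ H.O, ‖H.F y‖ ≤ b) (ht : L.IsSection (U.m * H.d) t)
    (hw : ∀ i, ∀ z ∈ U.D.W i, t i z = H.w (A.p i z) * U.s i z ^ H.d) :
    ∃ e : ℕ, 1 ≤ e ∧ ∀ (x₁ x₂ : X) (c₁ c₂ : E H.M), c₁ ≠ c₂ →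
      (∀ ε > 0, ∃ᶠ u in nr R x₁, u ∈ H.O ∧ H.t H.a u ≤ H.τ / 8 ∧ ‖H.F u - c₁‖ < ε) →
      (∀ ε > 0, ∃ᶠ u in nr R x₂, u ∈ H.O ∧ H.t H.a u ≤ H.τ / 8 ∧ ‖H.F u - c₂‖ < ε) →
      ¬ VanS L (U.m * H.d) t x₁ → ¬ VanS L (U.m * H.d) t x₂ →
      SepS L (U.m * (H.d * e)) x₁ x₂ := by
  obtain ⟨C₁, hC₁, hW⟩ := wt_two H H (4 * N + 1)
  obtain ⟨e, he, hT⟩ := twoS U hμ S.kah.isKahler.posDef S.kah.isKahler.bd11 hC₁
  refine ⟨e, he, fun x₁ x₂ c₁ c₂ hne n₁ n₂ v₁ v₂ => ?_⟩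
  obtain ⟨m, c, ζ, u, hζ, hu, hs⟩ := sec_spanS U hμ hc (sf5_sb (bdd_of S.kah S.nor S.car))
    dense_univ (U.m * (H.d * e))
  obtain ⟨k, hk⟩ := Function.ne_iff.1 hne
  have hD : 0 < ‖c₁ k - c₂ k‖ := norm_pos_iff.2 (sub_ne_zero.2 hk)
  set s := (|b| + ‖c₂‖) * ‖c₁ k - c₂ k‖ + 1 with hs'
  have hS0 : 0 < s := by positivity
  set h : E H.M → ℂ := fun u => ((s⁻¹ : ℝ) : ℂ) * ((u k - c₂ k) * star (c₁ k - c₂ k)) with hh
  have hd : Differentiable ℂ h := by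
    rw [hh]
    fun_prop
  have h1 : ∀ y ∈ H.O, ‖h (H.F y)‖ ≤ 1 := fun y hy => by
    have b1 : ‖H.F y k - c₂ k‖ ≤ |b| + ‖c₂‖ := (norm_sub_le _ _).trans (add_le_add
      ((norm_le_pi_norm _ k).trans ((hB y hy).trans (le_abs_self b))) (norm_le_pi_norm _ k))
    simp only [hh, norm_mul, norm_star, Complex.norm_real, Real.norm_eq_abs]
    rw [abs_of_pos (inv_pos.2 hS0), inv_mul_le_iff₀ hS0]
    nlinarith [mul_le_mul_of_nonneg_right b1 hD.le]
  have hv₁ : h c₁ = ((s⁻¹ * ‖c₁ k - c₂ k‖ ^ 2 : ℝ) : ℂ) := by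
    simp only [hh, Complex.star_def, Complex.mul_conj']
    push_cast
    ring
  have hv₂ : h c₂ = 0 := by simp [hh]
  have hv : (2 + h c₁) ^ e ≠ (2 + h c₂) ^ e := fun k2 => by
    rw [hv₁, hv₂, add_zero] at k2
    have k3 : (2 + s⁻¹ * ‖c₁ k - c₂ k‖ ^ 2) ^ e = (2 : ℝ) ^ e := by exact_mod_cast k2
    have k4 : (2 : ℝ) ^ e < (2 + s⁻¹ * ‖c₁ k - c₂ k‖ ^ 2) ^ e :=
      pow_lt_pow_left₀ (by linarith [mul_pos (inv_pos.2 hS0) (pow_pos hD 2)]) zero_le_two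
        (by omega)
    exact k4.ne' k3
  have cont : ∀ (c : E H.M) (η : ℝ), 0 < η → ∃ ε > 0, ∀ u, ‖u - c‖ < ε →
      ‖(2 + h u) ^ e - (2 + h c) ^ e‖ ≤ η := fun c η hη => by
    obtain ⟨ε, hε, q⟩ := Metric.continuousAt_iff.1
      (((continuous_const.add hd.continuous).pow e).continuousAt (x := c)) η hη
    exact ⟨ε, hε, fun u hu => by
      have q1 := q (x := u) (by rwa [dist_eq_norm])
      rw [dist_eq_norm] at q1
      exact q1.le⟩
  clear_value h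
  obtain ⟨b', hb⟩ := hT u₀ (fb5_frm H h hd h1) ((8 * 8) ^ (4 * N + 1)) m c ζ fun a => (hζ a).1
  have hp := sec_pow ht e
  have w₁ := S.nvan_pow ht v₁ e
  have w₂ := S.nvan_pow ht v₂ e
  rw [mul_assoc] at hp w₁ w₂
  refine sep_apx S hu hs hp w₁ w₂ hv (b := b') fun η hη => ?_
  obtain ⟨ε₁, p₁, q₁⟩ := cont c₁ _ (half_pos hη)
  obtain ⟨ε₂, p₂, q₂⟩ := cont c₂ _ (half_pos hη)
  have m₁ := (n₁ ε₁ p₁).and_eventually (tendsto_comap.eventually ((S.nvan_open hp).mem_nhds w₁))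
  have m₂ := (n₂ ε₂ p₂).and_eventually (tendsto_comap.eventually ((S.nvan_open hp).mem_nhds w₂))
  refine (frequently_prod_and.2 ⟨m₁, m₂⟩).mono ?_
  rintro ⟨y₁, y₂⟩ ⟨⟨⟨a₁, a₂, a₄⟩, a₃⟩, ⟨b₁, b₂, b₄⟩, b₃⟩
  obtain ⟨i₁, z₁, hz₁, rfl⟩ := A.cover y₁
  obtain ⟨i₂, z₂, hz₂, rfl⟩ := A.cover y₂
  have t₁ : t i₁ z₁ ^ e ≠ 0 := fun h => a₃ ((vanS_reg hp hz₁).2 h)
  have t₂ : t i₂ z₂ ^ e ≠ 0 := fun h => b₃ ((vanS_reg hp hz₂).2 h)
  obtain ⟨θ₁, o₁, s₁⟩ := sf5_use H hd h1 ht hw e hz₁ a₁ a₂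
    (mul_pos (half_pos hη) (norm_pos_iff.2 t₁))
  obtain ⟨θ₂, o₂, s₂⟩ := sf5_use H hd h1 ht hw e hz₂ b₁ b₂
    (mul_pos (half_pos hη) (norm_pos_iff.2 t₂))
  obtain ⟨r, T, hS, hB', r₁, r₂⟩ := hb _ _ (sf5_ctr H a₁ a₂) (sf5_ctr H b₁ b₂)
    (fun ε y => ((4 * N + 1 : ℕ) : ℝ) *
      (H.lam (H.F (A.p i₁ z₁)) ε y + H.lam (H.F (A.p i₂ z₂)) ε y))
    H.τ H.τ H.τ_pos H.τ_pos
    (fun ε hε => ⟨hW _ _ (sf5_small H a₂) (sf5_small H b₂) ε hε,
      fun y hy => (fb5_pole H H _ _ ε _ y).1 hy, fun y hy => (fb5_pole H H _ _ ε _ y).2 hy,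
      fun y _ hy => fb5_two _ (sf5_exp H a₂ hε hy) (sf5_exp H b₂ hε hy)⟩)
    i₁ z₁ hz₁ rfl i₂ z₂ hz₂ rfl _ (lt_min o₁ o₂)
  have d₁ := sf5_div hS hp hz₁ t₁ (s₁ _ (min_le_left _ _) r T r₁)
  have d₂ := sf5_div hS hp hz₂ t₂ (s₂ _ (min_le_right _ _) r T r₂)
  exact ⟨T, hS, hB', (norm_sub_le_norm_sub_add_norm_sub _ _ _).trans
    ((add_le_add d₁ (q₁ _ a₄)).trans (add_halves η).le),
    (norm_sub_le_norm_sub_add_norm_sub _ _ _).trans
      ((add_le_add d₂ (q₂ _ b₄)).trans (add_halves η).le)⟩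

end Pool.Agent.ZB
end

-- part Pool.Agent.P.MP_63735c_ag.SBD5
section

/-! The limit set and its scales. -/

open scoped ComplexOrder ContDiff Matrix Topology ENNReal
open Set Metric MeasureTheory Filter

namespace Pool.Agent.BP

open Pool.Agent.SPF Pool.Agent.AB Pool.Agent.CK Pool.Agent.SE Pool.Agent.NL

variable {N n : ℕ} {X Z : Type} [TopologicalSpace X] [TopologicalSpace Z] {A : Atlas X N}
  {K : Form11 A} {F : Fib A n} {φ : X → ℝ} {j : X → Z}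

theorem sbd5_bad (n : ℕ) {M : ℕ} (c : E M) {R ε : ℝ} (hR : 0 < R) (hε : 0 < ε) :
    volume {p : (Fin n → E M) × ℝ | R / 2 ≤ ‖c‖ ∧ (∀ a, (∀ b, ‖p.1 a b‖ ≤ 1) ∧
      ‖p.1 a ⬝ᵥ c - 0‖ ≤ (M + 1) * ε) ∧ p.2 ∈ Icc (‖c‖ - ε) (‖c‖ + ε)} ≤
      ENNReal.ofReal ((2 * (M + 1) / R) ^ (2 * n) * 2 * ε * ε ^ (2 * n)) *
        ((NNReal.pi : ℝ≥0∞) ^ M) ^ n := by
  by_cases hc : R / 2 ≤ ‖c‖
  swap
  · simp [hc]
  obtain ⟨b₀, hb⟩ : ∃ b, R / 2 ≤ ‖c b‖ := by
    by_contra h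
    push Not at h
    exact absurd ((pi_norm_lt_iff (by positivity)).2 h) (not_lt.2 hc)
  have hb0 : 0 < ‖c b₀‖ := lt_of_lt_of_le (by positivity) hb
  have e : {p : (Fin n → E M) × ℝ | R / 2 ≤ ‖c‖ ∧ (∀ a, (∀ b, ‖p.1 a b‖ ≤ 1) ∧
      ‖p.1 a ⬝ᵥ c - 0‖ ≤ (M + 1) * ε) ∧ p.2 ∈ Icc (‖c‖ - ε) (‖c‖ + ε)} =
      (Set.pi univ fun _ => {x : E M | (∀ b, ‖x b‖ ≤ 1) ∧ ‖x ⬝ᵥ c - 0‖ ≤ (M + 1) * ε}) ×ˢ
        Icc (‖c‖ - ε) (‖c‖ + ε) := by
    ext p
    simp [hc]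
  rw [e, Measure.volume_eq_prod, Measure.prod_prod, volume_pi_pi, Real.volume_Icc]
  have h1 : volume {x : E M | (∀ b, ‖x b‖ ≤ 1) ∧ ‖x ⬝ᵥ c - 0‖ ≤ (M + 1) * ε} ≤
      ENNReal.ofReal ((2 * (M + 1) / R * ε) ^ 2) * (NNReal.pi : ℝ≥0∞) ^ M := by
    refine (bpt9_row c b₀ (norm_pos_iff.1 hb0) _ (by positivity)).trans ?_
    gcongr
    calc (M + 1) * ε / ‖c b₀‖ ≤ (M + 1) * ε / (R / 2) := by gcongr
      _ = 2 * (M + 1) / R * ε := by field_simp
  refine (mul_le_mul_left (Finset.prod_le_prod' fun a _ => h1) _).trans (le_of_eq ?_)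
  rw [Finset.prod_const, Finset.card_univ, Fintype.card_fin, mul_pow,
    ← ENNReal.ofReal_pow (by positivity), mul_right_comm, ← ENNReal.ofReal_mul (by positivity)]
  congr 2
  rw [← pow_mul, mul_pow]
  ring

theorem planeS (n M : ℕ) (hn : 1 ≤ n) {S : Set (E M)} {C ε₀ : ℝ} (h0 : 0 < ε₀)
    (hS : ∀ ε, 0 < ε → ε ≤ ε₀ → ∃ T : Finset (E M), (T.card : ℝ) * ε ^ (2 * n) ≤ C ∧
      S ⊆ ⋃ c ∈ T, closedBall c ε) {R : ℝ} (hR : 0 < R) :
    ∃ (L : E M →L[ℂ] E n) (r : ℝ), R ≤ r ∧ r ≤ 2 * R ∧ ∀ w ∈ S, L w = 0 → ‖w‖ ≠ r := by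
  by_contra hcon
  push Not at hcon
  set κ : ℝ := (2 * (M + 1) / R) ^ (2 * n) * 2 with hκ
  have hκ0 : 0 < κ := by positivity
  obtain ⟨ε, hε, h1, h2, h3⟩ : ∃ ε : ℝ, 0 < ε ∧ ε ≤ ε₀ ∧ ε ≤ R / 2 ∧ κ * ε * C < R := by
    have hq : 0 < κ * (|C| + 1) := by positivity
    refine ⟨min (min ε₀ (R / 2)) (R / (κ * (|C| + 1))), by positivity,
      (min_le_left _ _).trans (min_le_left _ _), (min_le_left _ _).trans (min_le_right _ _), ?_⟩
    set ε := min (min ε₀ (R / 2)) (R / (κ * (|C| + 1)))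
    have e0 : 0 < ε := by positivity
    have e1 : ε * (κ * (|C| + 1)) ≤ R := (le_div_iff₀ hq).1 (min_le_right _ _)
    have e2 : C < |C| + 1 := (le_abs_self C).trans_lt (lt_add_one _)
    have e3 : κ * ε * C < κ * ε * (|C| + 1) := mul_lt_mul_of_pos_left e2 (by positivity)
    linarith
  obtain ⟨T, hT, hZT⟩ := hS ε hε h1
  have hs : (Set.pi univ fun _ : Fin n => Set.pi univ fun _ : Fin M => closedBall (0 : ℂ) 1) ×ˢ
      Icc R (2 * R) ⊆ ⋃ c ∈ T, {p : (Fin n → E M) × ℝ | R / 2 ≤ ‖c‖ ∧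
        (∀ a, (∀ b, ‖p.1 a b‖ ≤ 1) ∧ ‖p.1 a ⬝ᵥ c - 0‖ ≤ (M + 1) * ε) ∧
        p.2 ∈ Icc (‖c‖ - ε) (‖c‖ + ε)} := by
    rintro ⟨B, r⟩ ⟨hA, hr⟩
    have hA' : ∀ a b, ‖B a b‖ ≤ 1 := fun a b => by
      simpa using hA a (mem_univ _) b (mem_univ _)
    obtain ⟨z, hz, hz1, hz2⟩ := hcon (LinearMap.toContinuousLinearMap (Matrix.of B).mulVecLin) r
      hr.1 hr.2
    obtain ⟨c, hc, hzc⟩ := mem_iUnion₂.1 (hZT hz)
    rw [mem_closedBall, dist_eq_norm] at hzc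
    have h4 := (abs_norm_sub_norm_le z c).trans hzc
    rw [hz2, abs_le] at h4
    have h5 := hr.1
    refine mem_iUnion₂.2 ⟨c, hc, by linarith [h4.2], fun a => ⟨hA' a, ?_⟩,
      by linarith [h4.1], by linarith [h4.2]⟩
    have e : B a ⬝ᵥ c - 0 = -∑ b, B a b * (z - c) b := by
      have : B a ⬝ᵥ z = 0 := congrFun hz1 a
      change _ = -(B a ⬝ᵥ (z - c))
      rw [dotProduct_sub, this, zero_sub, neg_neg, sub_zero]
    have h6 : ‖∑ b, B a b * (z - c) b‖ ≤ M * ε := by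
      refine (norm_sum_le _ _).trans ((Finset.sum_le_card_nsmul _ _ ε fun b _ => ?_).trans ?_)
      · rw [norm_mul]
        exact (mul_le_of_le_one_left (norm_nonneg _) (hA' a b)).trans
          ((norm_le_pi_norm _ b).trans hzc)
      · simp
    change ‖B a ⬝ᵥ c - 0‖ ≤ _
    rw [e, norm_neg]
    linarith
  have h8 := (measure_mono (μ := volume) hs).trans ((measure_biUnion_finset_le T _).trans
    (Finset.sum_le_card_nsmul _ _ _ fun c _ => sbd5_bad n c hR hε))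
  rw [Measure.volume_eq_prod, Measure.prod_prod, volume_pi_pi, Real.volume_Icc] at h8
  simp only [volume_pi_pi, Complex.volume_closedBall, Finset.prod_const, Finset.card_univ,
    Fintype.card_fin, ENNReal.ofReal_one, one_pow, one_mul, nsmul_eq_mul] at h8
  have hpi : ((NNReal.pi : ℝ≥0∞) ^ M) ^ n ≠ 0 :=
    pow_ne_zero _ (pow_ne_zero _ (ENNReal.coe_ne_zero.2 NNReal.pi_ne_zero))
  have hpi' : ((NNReal.pi : ℝ≥0∞) ^ M) ^ n ≠ ⊤ :=
    ENNReal.pow_ne_top (ENNReal.pow_ne_top ENNReal.coe_ne_top)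
  rw [mul_comm, ← mul_assoc, ENNReal.mul_le_mul_iff_left hpi hpi', ← ENNReal.ofReal_natCast,
    ← ENNReal.ofReal_mul (Nat.cast_nonneg _), ENNReal.ofReal_le_ofReal_iff (by positivity),
    ← hκ] at h8
  have h9 := mul_le_mul_of_nonneg_left hT (show 0 ≤ κ * ε by positivity)
  linarith

theorem Fib.limS_closed (U : Filter X) : IsClosed (F.LimS j U) := by
  refine isClosed_of_closure_subset fun y hy O hO => ?_
  obtain ⟨y₁, h1, h2⟩ := mem_closure_iff_nhds.1 hy _ (interior_mem_nhds.2 hO)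
  exact h2 O (mem_interior_iff_mem_nhds.1 h1)

theorem Fib.limS_trap [CompactSpace Z] (U : Ultrafilter X) {O : Set Z} (hO : IsOpen O)
    (h : F.LimS j U ⊆ O) : ∀ᶠ x in (U : Filter X), ∀ y, F.r x y → j y ∈ O := by
  have key : ∀ᶠ x in (U : Filter X), ¬ ∃ y, j y ∈ Oᶜ ∧ F.r x y := by
    refine hO.isClosed_compl.isCompact.induction_on
      (p := fun s => ∀ᶠ x in (U : Filter X), ¬ ∃ y, j y ∈ s ∧ F.r x y) (by simp)
      (fun s t hst ht => ht.mono fun x hx ⟨y, h1, h2⟩ => hx ⟨y, hst h1, h2⟩)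
      (fun s t hs ht => ?_) fun y hy => ?_
    · filter_upwards [hs, ht] with x h1 h2
      rintro ⟨y, h3 | h3, h4⟩
      exacts [h1 ⟨y, h3, h4⟩, h2 ⟨y, h3, h4⟩]
    · by_contra hc
      refine hy (h fun O' hO' => by_contra fun h1 => hc ⟨O', mem_nhdsWithin_of_mem_nhds hO', ?_⟩)
      exact Ultrafilter.eventually_not.2 h1
  exact key.mono fun x hx y hy => by_contra fun hc => hx ⟨y, hc, hy⟩

theorem sbd5_cpt [T2Space Z] {W : Set X} (e : Em A K W φ j) {o : E e.M} {r r' : ℝ}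
    (h : IsCompact (e.O ∩ e.z ⁻¹' closedBall o r)) (hr : r' ≤ r) :
    IsCompact (e.O ∩ e.z ⁻¹' closedBall o r') := by
  have h2 := h.of_isClosed_subset ((e.cont.mono inter_subset_left).preimage_isClosed_of_isClosed
    h.isClosed (isClosed_closedBall (x := o) (ε := r'))) inter_subset_left
  rwa [inter_assoc, ← preimage_inter, inter_eq_right.2 (closedBall_subset_closedBall hr)] at h2

theorem sbd5_shrink [CompactSpace Z] [T2Space Z] {W : Set X} {y : Z}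
    (h : ∃ e : Em A K W φ j, y ∈ e.O) {B₀ : Set Z} (hB : B₀ ∈ 𝓝 y) :
    ∃ (e : Em A K W φ j) (r : ℝ), y ∈ e.O ∧ 0 < r ∧
      IsCompact (e.O ∩ e.z ⁻¹' closedBall (e.z y) (2 * r)) ∧ e.O ⊆ B₀ := by
  obtain ⟨e, hy⟩ := h
  obtain ⟨Q, hQ, h1, h0⟩ := exists_compact_subset (e.opn.inter isOpen_interior)
    ⟨hy, mem_interior_iff_mem_nhds.2 hB⟩
  have h2 := h0.trans inter_subset_left
  have h3 := interior_subset.trans h2
  have h4 : IsClosed (e.z '' (Q \ interior Q)) := ((hQ.diff isOpen_interior).image_of_continuousOn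
    (e.cont.mono (sdiff_subset.trans h2))).isClosed
  obtain ⟨r, hr, h5⟩ := nhds_basis_closedBall.mem_iff.1 (h4.isOpen_compl.mem_nhds
    (show e.z y ∉ _ from fun ⟨w, hw, e'⟩ => hw.2 (e.inj (h2 hw.1) hy e' ▸ h1)))
  refine ⟨{ e with
    O := interior Q
    opn := isOpen_interior
    cont := e.cont.mono h3
    inj := e.inj.mono h3
    hol := fun i => (e.hol i).mono fun w hw => ⟨hw.1, h3 hw.2⟩
    imm := fun i w hw => e.imm i w ⟨hw.1, h3 hw.2⟩
    low := fun i w hw => e.low i w ⟨hw.1, h3 hw.2⟩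
    s_hol := fun i => (e.s_hol i).mono fun w hw => ⟨hw.1, hw.2.1, h3 hw.2.2⟩
    s_bd := fun w hw => e.s_bd w ⟨hw.1, h3 hw.2⟩ }, r / 2, h1, by positivity, ?_,
    fun w hw => interior_subset (h0 (interior_subset hw)).2⟩
  have h6 : interior Q ∩ e.z ⁻¹' closedBall (e.z y) (2 * (r / 2)) =
      Q ∩ e.z ⁻¹' closedBall (e.z y) r := by
    rw [mul_div_cancel₀ _ two_ne_zero]
    exact Subset.antisymm (inter_subset_inter_left _ interior_subset) fun w hw =>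
      ⟨by_contra fun hn => h5 hw.2 ⟨w, ⟨hw.1, hn⟩, rfl⟩, hw.2⟩
  exact h6 ▸ hQ.of_isClosed_subset ((e.cont.mono h2).preimage_isClosed_of_isClosed hQ.isClosed
    isClosed_closedBall) inter_subset_left

/-- The limit set has a small packing number. -/
theorem sbd5_pack {e : Em A K F.W φ j} (hP : F.PackS e) (U : Ultrafilter X) (hU : F.W ∈ U)
    {o : E e.M} {R : ℝ} (h0 : 0 < R) (hR : IsCompact (e.O ∩ e.z ⁻¹' closedBall o (2 * R))) :
    ∃ B : ℝ, ∀ ε, 0 < ε → ε ≤ R → ∀ {κ : Type} (T : Finset κ) (w : κ → Z),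
      (∀ t ∈ T, w t ∈ e.O ∧ e.z (w t) ∈ ball o R ∧ w t ∈ F.LimS j U) →
        (∀ t ∈ T, ∀ t' ∈ T, t ≠ t' → ε < dist (e.z (w t)) (e.z (w t'))) →
          T.card * (ε / 2) ^ (2 * n) ≤ B := by
  classical
  obtain ⟨B, hB⟩ := hP o R h0 hR
  refine ⟨B, fun ε hε hε' κ T w h1 h2 => ?_⟩
  have h3 : ∀ᶠ x in (U : Filter X), ∀ t ∈ T,
      ∃ y', j y' ∈ e.O ∩ e.z ⁻¹' (ball (e.z (w t)) (ε / 4) ∩ ball o R) ∧ F.r x y' :=
    (eventually_all_finset T).2 fun t ht => (h1 t ht).2.2 _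
      ((e.cont.isOpen_inter_preimage e.opn (isOpen_ball.inter isOpen_ball)).mem_nhds
        ⟨(h1 t ht).1, mem_ball_self (by positivity), (h1 t ht).2.1⟩)
  obtain ⟨x, hx, h4⟩ := (Eventually.and hU h3).exists
  have : Nonempty X := ⟨x⟩
  choose! v hv hr using h4
  have h6 : ∀ t ∈ T, ∀ t' ∈ T, t ≠ t' → ε / 2 ≤ dist (e.v (v t)) (e.v (v t')) :=
    fun t ht t' ht' hne => by
      have a1 := mem_ball'.1 (hv t ht).2.1
      have a2 := mem_ball.1 (hv t' ht').2.1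
      linarith [h2 t ht t' ht' hne, dist_triangle4 (e.z (w t)) (e.v (v t)) (e.v (v t')) (e.z (w t'))]
  rw [← Finset.card_image_of_injOn (f := v) fun t ht t' ht' e' => by_contra fun hne => by
    have := h6 t ht t' ht' hne
    rw [e', dist_self] at this
    linarith]
  refine hB x hx _ (by positivity) (by linarith) _ (fun a ha => ?_) fun a ha b hb hab => ?_
  · obtain ⟨t, ht, rfl⟩ := Finset.mem_image.1 ha
    exact ⟨(hv t ht).1, ball_subset_closedBall (hv t ht).2.2, hr t ht⟩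
  · obtain ⟨t, ht, rfl⟩ := Finset.mem_image.1 ha
    obtain ⟨t', ht', rfl⟩ := Finset.mem_image.1 hb
    exact h6 t ht t' ht' fun e' => hab (by rw [e'])

theorem Fib.exists_sz' [CompactSpace Z] [T2Space Z] (hN : N = 2 * n) (hn : 1 ≤ n)
    (hP : ∀ e : Em A K F.W φ j, F.PackS e) (U : Ultrafilter X) (hU : F.W ∈ U) {y : Z}
    (hE : ∃ e : Em A K F.W φ j, y ∈ e.O) {B₀ : Set Z} (hB₀ : B₀ ∈ 𝓝 y) :
    ∃ e : Sz A K F.W φ j n, y ∈ e.core ∧ Disjoint e.shell (F.LimS j U) ∧ e.O ⊆ B₀ := by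
  obtain ⟨e, r₀, hy, h0, hc, hs⟩ := sbd5_shrink hE hB₀
  let ε : Fin n ⊕ Fin n ≃ Fin N := finSumFinEquiv.trans (finCongr (by omega))
  obtain ⟨B, hB⟩ := sbd5_pack (hP e) U hU h0 hc
  obtain ⟨R, hR, rfl⟩ : ∃ R : ℝ, 0 < R ∧ r₀ = 4 * R := ⟨r₀ / 4, by positivity, by ring⟩
  have : Nonempty Z := ⟨y⟩
  obtain ⟨L, r, hr1, hr2, hr⟩ := planeS n e.M hn (C := B * 2 ^ (2 * n))
    (S := (fun w => e.z w - e.z y) ''
      {w | w ∈ e.O ∧ e.z w ∈ ball (e.z y) (4 * R) ∧ w ∈ F.LimS j U}) h0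
    (fun δ hδ hδ' => by
      obtain ⟨T, h1, h2⟩ := cover_of_sep (C := B / (δ / 2) ^ (2 * n))
        (Z := (fun w => e.z w - e.z y) ''
          {w | w ∈ e.O ∧ e.z w ∈ ball (e.z y) (4 * R) ∧ w ∈ F.LimS j U}) hδ
        fun T h1 h2 => by
          choose! w hw e' using fun t (ht : t ∈ T) => h1 ht
          refine (le_div_iff₀ (by positivity)).2 (hB δ hδ hδ' T w hw fun t ht t' ht' hne => ?_)
          have := h2 t ht t' ht' hne
          rwa [← e' t ht, ← e' t' ht', dist_sub_right] at this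
      refine ⟨T, ?_, h2⟩
      rwa [le_div_iff₀ (by positivity), div_pow, ← mul_div_assoc,
        div_le_iff₀ (by positivity)] at h1) hR
  have hK := (sbd5_cpt e hc (show 3 * R ≤ 2 * (4 * R) by linarith)).inter_right
    (Fib.limS_closed (F := F) (j := j) U)
  have hz := e.cont.mono (show e.O ∩ e.z ⁻¹' closedBall (e.z y) (3 * R) ∩ F.LimS j U ⊆ e.O from
    fun w hw => hw.1.1)
  obtain ⟨η, hη, h1⟩ := hK.exists_forall_le' (a := 0)
    (f := fun w => dist (L (e.z w)) (L (e.z y)) + |dist (e.z w) (e.z y) - r|) (by fun_prop)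
    fun w hw => by
      refine lt_of_le_of_ne (by positivity) fun e' => ?_
      obtain ⟨a1, a2⟩ := (add_eq_zero_iff_of_nonneg dist_nonneg (abs_nonneg _)).1 e'.symm
      rw [dist_eq_norm, norm_eq_zero, ← map_sub] at a1
      rw [abs_eq_zero, sub_eq_zero, dist_eq_norm] at a2
      exact hr _ ⟨w, ⟨hw.1.1, closedBall_subset_ball (by linarith) hw.1.2, hw.2⟩, rfl⟩ a1 a2
  obtain ⟨ρ, hρ, b1, b2⟩ : ∃ ρ : ℝ, 0 < ρ ∧ 3 * ρ < η ∧ ρ < R :=
    ⟨min (η / 4) (R / 2), by positivity, by linarith [min_le_left (η / 4) (R / 2)],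
      by linarith [min_le_right (η / 4) (R / 2)]⟩
  refine ⟨⟨e, ε, L, L (e.z y), e.z y, ρ, r - ρ, r + ρ, hρ, by linarith,
    sbd5_cpt e hc (by linarith)⟩,
    ⟨hy, mem_ball_self hρ, mem_ball_self (show 0 < r - ρ by linarith)⟩, disjoint_left.2 ?_, hs⟩
  rintro w ⟨a0, a1, a2, a3⟩ hw
  have a5 : dist (L (e.z w)) (L (e.z y)) ≤ 2 * ρ := a1
  have a6 : dist (e.z w) (e.z y) ≤ r + ρ := a2
  have a7 : r - ρ ≤ dist (e.z w) (e.z y) := not_lt.1 a3
  have a4 := h1 w ⟨⟨a0, show dist (e.z w) (e.z y) ≤ 3 * R by linarith⟩, hw⟩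
  have a8 : |dist (e.z w) (e.z y) - r| ≤ ρ := abs_le.2 ⟨by linarith, by linarith⟩
  linarith

theorem Fib.exists_sz [CompactSpace Z] [T2Space Z] (hN : N = 2 * n) (hn : 1 ≤ n)
    (hP : ∀ e : Em A K F.W φ j, F.PackS e) (hE : ∀ y : Z, ∃ e : Em A K F.W φ j, y ∈ e.O)
    (U : Ultrafilter X) (hU : F.W ∈ U) (y : Z) :
    ∃ e : Sz A K F.W φ j n, y ∈ e.core ∧ Disjoint e.shell (F.LimS j U) :=
  (Fib.exists_sz' hN hn hP U hU (hE y) univ_mem).imp fun _ h => ⟨h.1, h.2.1⟩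

end Pool.Agent.BP
end

-- part Pool.Agent.P.MP_63735c_ag.SBD1
section

/-! Proper maps from an atlas: regular values. -/

open scoped ComplexOrder ContDiff Matrix Topology ENNReal
open Set Metric MeasureTheory Filter

namespace Pool.Agent.BP

open Pool.Agent.SPF Pool.Agent.AB Pool.Agent.CK Pool.Agent.SE Pool.Agent.NL

variable {N : ℕ} {X : Type} [TopologicalSpace X] {A : Atlas X N} {Ω : Set X} {Ω' : Set (E N)}
  {P : X → E N}

theorem sbd1_cont {F : Type} [TopologicalSpace F] {f : X → F} (hΩ : IsOpen Ω)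
    (h : ∀ i, ContinuousOn (fun z => f (A.p i z)) (dom A Ω i)) : ContinuousOn f Ω := by
  intro x hx
  obtain ⟨i, z, hz, rfl⟩ := A.cover x
  refine ContinuousAt.continuousWithinAt ?_
  rw [ContinuousAt, ← bpd2_map hz, tendsto_map'_iff]
  exact (h i).continuousAt ((dom_open A hΩ i).mem_nhds ⟨hz, hx⟩)

theorem HolV.cont {M : ℕ} {f : X → E M} (hΩ : IsOpen Ω) (h : HolV A Ω f) : ContinuousOn f Ω :=
  sbd1_cont hΩ fun i => (h i).continuousOn

theorem HolOn.cont {f : X → ℂ} (hΩ : IsOpen Ω) (h : HolOn A Ω f) : ContinuousOn f Ω :=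
  sbd1_cont hΩ fun i => (h i).continuousOn

/-- The chain rule for a change of charts. -/
theorem HolV.jg {M : ℕ} {f : X → E M} (hΩ : IsOpen Ω) (h : HolV A Ω f) {i k : A.ι}
    {O : Set (E N)} {φ : E N → E N} (hc : IsChange (A.C i) (A.C k) O φ)
    (he : ∀ w ∈ O, A.p k (φ w) = A.p i w) {z : E N} (hz : z ∈ O) (hx : A.p i z ∈ Ω) :
    Jg A f i z = Jg A f k (φ z) * jac φ z := by
  have hm := hc.isOpen.mem_nhds hz
  have h1 : φ z ∈ dom A Ω k := ⟨hc.maps hz, show A.p k (φ z) ∈ Ω from (he z hz).symm ▸ hx⟩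
  have h2 : (fun w => f (A.p i w)) =ᶠ[𝓝 z] (fun w => f (A.p k w)) ∘ φ := by
    filter_upwards [hm] with w hw
    exact congrArg f (he w hw).symm
  rw [Jg, Jg, ← bpdp_comp ((h k).differentiableAt ((dom_open A hΩ k).mem_nhds h1))
    (hc.hol.differentiableAt hm)]
  simp only [jac, h2.fderiv_eq]

theorem reg_iff (hΩ : IsOpen Ω) (h : HolV A Ω P) {i : A.ι} {z : E N} (hz : z ∈ dom A Ω i) :
    Reg A P (A.p i z) ↔ (Jg A P i z).det ≠ 0 := by
  refine ⟨fun hr => hr i z hz.1 rfl, fun hd k y hy e => ?_⟩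
  obtain ⟨O, φ, hc, hzO, rfl, he⟩ := A.trans i k z hz.1 y hy e.symm
  rw [h.jg hΩ hc he hzO hz.2, Matrix.det_mul] at hd
  exact left_ne_zero_of_mul hd

theorem PrA.charts (h : PrA A Ω Ω' P) :
    ∃ t : Set A.ι, t.Countable ∧ Ω ⊆ ⋃ i ∈ t, A.p i '' (A.C i).W := by
  have h1 : ∀ w ∈ Ω', ∃ (B : Set (E N)) (t : Finset A.ι), B ∈ 𝓝[Ω'] w ∧
      Ω ∩ P ⁻¹' B ⊆ ⋃ i ∈ t, A.p i '' (A.C i).W := by
    intro w hw
    obtain ⟨r, hr, hb⟩ := nhds_basis_closedBall.mem_iff.1 (h.isOpen'.mem_nhds hw)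
    obtain ⟨t, ht⟩ := (h.proper _ (isCompact_closedBall w r) hb).elim_finite_subcover
      (fun i => A.p i '' (A.C i).W) (fun i => A.opn i _ (A.C i).isOpen Subset.rfl) fun x _ => by
        obtain ⟨i, z, hz, e⟩ := A.cover x
        exact mem_iUnion.2 ⟨i, z, hz, e⟩
    exact ⟨_, t, mem_nhdsWithin_of_mem_nhds (closedBall_mem_nhds w hr), ht⟩
  choose! B t hB ht using h1
  obtain ⟨s, hs, hc, hcov⟩ := TopologicalSpace.countable_cover_nhdsWithin hB
  refine ⟨⋃ w ∈ s, (t w : Set A.ι), hc.biUnion fun w _ => (t w).countable_toSet, fun x hx => ?_⟩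
  obtain ⟨w, hw, hxw⟩ := mem_iUnion₂.1 (hcov (h.maps hx))
  obtain ⟨i, hi, hxi⟩ := mem_iUnion₂.1 (ht w (hs hw) ⟨hx, hxw⟩)
  exact mem_iUnion₂.2 ⟨i, mem_iUnion₂.2 ⟨w, hw, hi⟩, hxi⟩

theorem PrA.rv_null (h : PrA A Ω Ω' P) : volume (Ω' \ RVA A Ω Ω' P) = 0 := by
  obtain ⟨t, ht, hc⟩ := h.charts
  refine measure_mono_null (t := ⋃ i ∈ t, (fun z => P (A.p i z)) ''
    {z | z ∈ dom A Ω i ∧ (Jg A P i z).det = 0}) (fun w hw => ?_)
    ((measure_biUnion_null_iff ht).2 fun i _ =>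
      addHaar_image_eq_zero_of_det_fderivWithin_eq_zero volume
        (f' := fderiv ℝ fun z => P (A.p i z)) (fun z hz => ?_) fun z hz => ?_)
  · by_contra hn
    refine hw.2 ⟨hw.1, fun x hx e => ?_⟩
    obtain ⟨i, hi, z, hz, rfl⟩ := mem_iUnion₂.1 (hc hx)
    exact (reg_iff h.isOpen h.hol ⟨hz, hx⟩).2 fun h0 =>
      hn (mem_iUnion₂.2 ⟨i, hi, z, ⟨⟨hz, hx⟩, h0⟩, e⟩)
  · exact (((h.hol i).differentiableAt ((dom_open A h.isOpen i).mem_nhds hz.1)).restrictScalars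
      ℝ).hasFDerivAt.hasFDerivWithinAt
  · have h0 : (jac (fun z => P (A.p i z)) z).det = 0 := hz.2
    rw [real_det ((h.hol i).differentiableAt ((dom_open A h.isOpen i).mem_nhds hz.1)), h0]
    simp

theorem PrA.rv_dense (h : PrA A Ω Ω' P) : Ω' ⊆ closure (RVA A Ω Ω' P) := by
  intro w hw
  rw [_root_.mem_closure_iff]
  intro U hU hwU
  by_contra hc
  exact ((hU.inter h.isOpen').measure_pos volume ⟨w, hwU, hw⟩).ne' (measure_mono_null
    (t := Ω' \ RVA A Ω Ω' P) (fun y hy => ⟨hy.2, fun hr => hc ⟨y, hy.1, hr⟩⟩) h.rv_null)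

theorem sbd1_near (h : PrA A Ω Ω' P) {w : E N} (hw : w ∈ Ω') {U : Set X} (hU : IsOpen U)
    (hs : Ω ∩ P ⁻¹' {w} ⊆ U) : ∀ᶠ y in 𝓝 w, Ω ∩ P ⁻¹' {y} ⊆ U := by
  obtain ⟨r, hr, hb⟩ := nhds_basis_closedBall.mem_iff.1 (h.isOpen'.mem_nhds hw)
  have hK := (h.proper _ (isCompact_closedBall w r) hb).diff hU
  have hc := (hK.image_of_continuousOn
    ((h.hol.cont h.isOpen).mono fun x hx => hx.1.1)).isClosed
  have h0 : w ∈ (P '' ((Ω ∩ P ⁻¹' closedBall w r) \ U))ᶜ := by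
    rintro ⟨x, hx, e⟩
    exact hx.2 (hs ⟨hx.1.1, e⟩)
  filter_upwards [hc.isOpen_compl.mem_nhds h0, closedBall_mem_nhds w hr] with y h1 h2 x hx
  by_contra hx'
  have e : P x = y := hx.2
  exact h1 ⟨x, ⟨⟨hx.1, show P x ∈ _ from e ▸ h2⟩, hx'⟩, e⟩

theorem sbd1_inv (h : PrA A Ω Ω' P) {x : X} (hx : x ∈ Ω) (hr : Reg A P x) :
    ∃ (i : A.ι) (z : E N) (e : OpenPartialHomeomorph (E N) (E N)), A.p i z = x ∧
      (∀ y, e y = P (A.p i y)) ∧ z ∈ e.source ∧ DifferentiableOn ℂ e.symm e.target ∧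
        ∀ y ∈ e.source, y ∈ dom A Ω i ∧ Reg A P (A.p i y) := by
  obtain ⟨i, z, hz, rfl⟩ := A.cover x
  obtain ⟨e, h1, h2, h3, h4⟩ := bpt6a_inv (dom_open A h.isOpen i) (h.hol i) ⟨hz, hx⟩
    (hr i z hz rfl)
  exact ⟨i, z, e, rfl, congrFun h1, h2, h3, fun y hy =>
    ⟨(h4 y hy).1, (reg_iff h.isOpen h.hol (h4 y hy).1).2 (h4 y hy).2⟩⟩

variable [T2Space X]

theorem PrA.sheets (h : PrA A Ω Ω' P) {w : E N} (hw : w ∈ RVA A Ω Ω' P) :
    ∃ (d : ℕ) (O : Set (E N)) (c : Fin d → A.ι) (q : Fin d → E N → E N), IsOpen O ∧ w ∈ O ∧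
      O ⊆ RVA A Ω Ω' P ∧ (∀ l, DifferentiableOn ℂ (q l) O) ∧ ∀ y ∈ O,
        (∀ l, q l y ∈ (A.C (c l)).W) ∧ Function.Injective (fun l => A.p (c l) (q l y)) ∧
        Ω ∩ P ⁻¹' {y} = range fun l => A.p (c l) (q l y) := by
  have hK := h.proper {w} isCompact_singleton (singleton_subset_iff.2 hw.1)
  choose c z e hp he hz hd hs using fun x : ↥(Ω ∩ P ⁻¹' {w}) =>
    sbd1_inv h x.2.1 (hw.2 x x.2.1 x.2.2)
  have hU : ∀ x, IsOpen (A.p (c x) '' (e x).source) := fun x =>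
    A.opn _ _ (e x).open_source fun y hy => (hs x y hy).1.1
  have hcov : Ω ∩ P ⁻¹' {w} ⊆ ⋃ x, A.p (c x) '' (e x).source := fun x hx =>
    mem_iUnion.2 ⟨⟨x, hx⟩, _, hz _, hp _⟩
  have hw' : ∀ x, e x (z x) = w := fun x => by
    rw [he, hp]
    exact x.2.2
  have hfin : Finite ↥(Ω ∩ P ⁻¹' {w}) := by
    obtain ⟨t, ht⟩ := hK.elim_finite_subcover _ hU hcov
    refine Set.finite_univ_iff.1 (t.finite_toSet.subset fun x _ => ?_)
    obtain ⟨x', hx', y, hy, e'⟩ := mem_iUnion₂.1 (ht x.2)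
    have h1 : y = z x' := (e x').injOn hy (hz x') (by
      rw [hw', he, e']
      exact x.2.2)
    have h2 : x = x' := Subtype.ext (by rw [← e', h1, hp])
    rwa [h2]
  obtain ⟨d, ⟨κ⟩⟩ := Finite.exists_equiv_fin ↥(Ω ∩ P ⁻¹' {w})
  have ht : ∀ x, w ∈ (e x).target := fun x => hw' x ▸ (e x).map_source (hz x)
  have hq : ∀ x, (e x).symm w = z x := fun x => by
    conv_lhs => rw [← hw' x]
    exact (e x).left_inv (hz x)
  have hct : ∀ x, ContinuousAt (fun y => A.p (c x) ((e x).symm y)) w := fun x =>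
    ContinuousAt.comp (by
      rw [hq]
      exact (A.cont _).continuousAt ((A.C _).isOpen.mem_nhds (hs x _ (hz x)).1.1))
      ((e x).continuousAt_symm (ht x))
  have h1 : ∀ᶠ y in 𝓝 w, ∀ x, y ∈ (e x).target :=
    eventually_all.2 fun x => (e x).open_target.mem_nhds (ht x)
  have h2 : ∀ᶠ y in 𝓝 w, ∀ x x', x ≠ x' →
      A.p (c x) ((e x).symm y) ≠ A.p (c x') ((e x').symm y) := by
    refine eventually_all.2 fun x => eventually_all.2 fun x' => ?_
    by_cases hl : x = x'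
    · exact Eventually.of_forall fun y hy => (hy hl).elim
    · refine (((hct x).ne_iff_eventually_ne (hct x')).1 ?_).mono fun y hy _ => hy
      rw [hq, hq, hp, hp]
      exact fun e' => hl (Subtype.ext e')
  obtain ⟨O, hO, hOo, hwO⟩ := _root_.eventually_nhds_iff.1
    (h1.and (h2.and ((sbd1_near h hw.1 (isOpen_iUnion hU) hcov).and (h.isOpen'.mem_nhds hw.1))))
  refine ⟨d, O, fun l => c (κ.symm l), fun l => (e (κ.symm l)).symm, hOo, hwO,
    fun y hy => ⟨(hO y hy).2.2.2, fun x hx e' => ?_⟩,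
    fun l => (hd _).mono fun y hy => (hO y hy).1 _, fun y hy =>
      ⟨fun l => (hs _ _ ((e _).map_target ((hO y hy).1 _))).1.1, fun l l' e' => by_contra fun hl =>
        (hO y hy).2.1 _ _ (fun e2 => hl (κ.symm.injective e2)) e', ?_⟩⟩
  · obtain ⟨x', u, hu, rfl⟩ := mem_iUnion.1 ((hO y hy).2.2.1 ⟨hx, e'⟩)
    exact (hs x' u hu).2
  · refine Subset.antisymm (fun x hx => ?_) ?_
    · obtain ⟨x', u, hu, rfl⟩ := mem_iUnion.1 ((hO y hy).2.2.1 hx)
      obtain ⟨l, rfl⟩ := κ.symm.surjective x'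
      refine ⟨l, ?_⟩
      have e' : e (κ.symm l) u = y := by
        rw [he]
        exact hx.2
      show A.p _ ((e (κ.symm l)).symm y) = _
      rw [← e', (e (κ.symm l)).left_inv hu]
    · rintro _ ⟨l, rfl⟩
      refine ⟨(hs _ _ ((e _).map_target ((hO y hy).1 _))).1.2, ?_⟩
      have := (e (κ.symm l)).right_inv ((hO y hy).1 _)
      rwa [he] at this

theorem PrA.mp (h : PrA A Ω Ω' P) {C : Set X} (hC : IsCompact C) (hs : C ⊆ Ω) {y : X} (hy : y ∈ C)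
    {r : ℝ} (hr : 0 < r) (hi : ∀ q ∈ C, ‖P q - P y‖ < r → C ∈ 𝓝 q) (hN : 1 ≤ N) :
    ∃ q ∈ C, Reg A P q := by
  obtain ⟨M, v, -, hv, hvi⟩ := h.emb
  have hn : ∀ {M : ℕ} (z : E M), 0 ≤ nsq z := fun z => (sq_nonneg _).trans (nsq_le z).1
  have hvc : ContinuousOn (fun x => nsq (v x)) C :=
    nsq_smooth.continuous.comp_continuousOn ((hv.cont h.isOpen).mono hs)
  obtain ⟨b, -, hb⟩ := hC.exists_isMaxOn ⟨y, hy⟩ hvc
  obtain ⟨a, ha⟩ : ∃ a : ℝ, a * r ^ 2 = nsq (v b) + 1 := ⟨_, div_mul_cancel₀ _ (by positivity)⟩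
  have ha0 : 0 < a := (mul_pos_iff_of_pos_right (sq_pos_of_pos hr)).1 (by linarith [hn (v b)])
  obtain ⟨q, hq, hm⟩ := hC.exists_isMaxOn (f := fun x => nsq (v x) + -a * nsq (P x - P y)) ⟨y, hy⟩
    (hvc.add (continuousOn_const.mul (nsq_smooth.continuous.comp_continuousOn
      (((h.hol.cont h.isOpen).mono hs).sub continuousOn_const))))
  have h1 : ‖P q - P y‖ < r := by
    by_contra hc
    have a1 : nsq (v y) + -a * nsq (P y - P y) ≤ nsq (v q) + -a * nsq (P q - P y) := hm hy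
    have a2 : nsq (v q) ≤ nsq (v b) := hb hq
    have a3 := (pow_le_pow_left₀ hr.le (not_lt.1 hc) 2).trans (nsq_le _).1
    have a4 : nsq (P y - P y) = 0 := by simp [nsq]
    rw [a4] at a1
    nlinarith [hn (v y)]
  refine ⟨q, hq, fun i z hz e h0 => ?_⟩
  subst e
  have hd : z ∈ dom A Ω i := ⟨hz, hs hq⟩
  have hO := dom_open A h.isOpen i
  obtain ⟨u, hu, h2⟩ := Matrix.exists_mulVec_eq_zero_iff.2 h0
  have h3 := lev_nsq (F := fun w => v (A.p i w)) (z := z) (by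
    filter_upwards [hO.mem_nhds hd] with w hw
    exact (hv i).differentiableAt (hO.mem_nhds hw))
  have h4 := lev_nsq (F := fun w => P (A.p i w) - P y) (z := z) (by
    filter_upwards [hO.mem_nhds hd] with w hw
    exact ((h.hol i).differentiableAt (hO.mem_nhds hw)).sub_const _)
  have h5 := lev_max (h3.1.add (contDiffAt_const.mul h4.1))
    ((hm.isLocalMax (hi _ hq h1)).comp_continuous (g := A.p i)
      ((A.cont i).continuousAt ((A.C i).isOpen.mem_nhds hz))) u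
  have h6 := h3.2.2.2 u
  have h7 := h4.2.2.2 u
  rw [Jg] at h2
  rw [fderiv_sub_const, ← bpt2_jac, h2] at h7
  rw [BP.hr, lev_add h3.1 (contDiffAt_const.mul h4.1), lev_smul h4.1, hq_add, hq_smul,
    Complex.add_re, Complex.re_ofReal_mul] at h5
  simp only [BP.hr] at h6 h7
  have h8 := (nsq_le (fderiv ℂ (fun w => v (A.p i w)) z u)).1
  have h9 : nsq (0 : E N) = 0 := by simp [nsq]
  have h10 : fderiv ℂ (fun w => v (A.p i w)) z u ≠ 0 := fun e =>
    hu (hvi i z hd (e.trans (map_zero _).symm))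
  rw [h6, h7, h9] at h5
  nlinarith [norm_pos_iff.2 h10]

theorem PrA.det_dense (h : PrA A Ω Ω' P) (hN : 1 ≤ N) :
    Ω ⊆ closure {x | x ∈ Ω ∧ Reg A P x} := by
  intro z hz
  by_contra hc
  obtain ⟨r, hr, hb⟩ := nhds_basis_closedBall.mem_iff.1 (h.isOpen'.mem_nhds (h.maps hz))
  have hK := h.proper _ (isCompact_closedBall (P z) r) hb
  set S := closure {x | x ∈ Ω ∧ Reg A P x} with hS
  have hcl : ∀ x ∈ Ω, x ∈ closure Sᶜ → x ∈ Sᶜ := by
    intro x hx hx'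
    obtain ⟨i, u, hu, rfl⟩ := A.cover x
    have hO := dom_open A h.isOpen i
    obtain ⟨ρ, hρ, hB⟩ := Metric.isOpen_iff.1 hO u ⟨hu, hx⟩
    have hV : IsOpen (A.p i '' ball u ρ) := A.opn i _ isOpen_ball fun y hy => (hB hy).1
    obtain ⟨_, ⟨a, ha, rfl⟩, ha'⟩ :=
      _root_.mem_closure_iff.1 hx' _ hV ⟨u, mem_ball_self hρ, rfl⟩
    have h0 : EqOn (fun y => (jac (fun w => P (A.p i w)) y).det) (fun _ => 0) (ball u ρ) := by
      refine spident_scv isOpen_ball (convex_ball u ρ) ((bpt6a_hol hO (h.hol i)).mono hB)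
        (differentiableOn_const _) ha ?_
      filter_upwards [((A.cont i).continuousAt ((A.C i).isOpen.mem_nhds (hB ha).1)).eventually
        (isClosed_closure.isOpen_compl.mem_nhds ha'), isOpen_ball.mem_nhds ha] with y h1 h2
      by_contra h3
      exact h1 (subset_closure ⟨(hB h2).2, (reg_iff h.isOpen h.hol (hB h2)).2 h3⟩)
    intro hx2
    obtain ⟨_, ⟨b, hb1, rfl⟩, hb2⟩ :=
      _root_.mem_closure_iff.1 hx2 _ hV ⟨u, mem_ball_self hρ, rfl⟩
    exact hb2.2 i b (hB hb1).1 rfl (h0 hb1)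
  have hC : IsCompact ((Ω ∩ P ⁻¹' closedBall (P z) r) ∩ closure Sᶜ) :=
    hK.inter_right isClosed_closure
  obtain ⟨q, hq, hd⟩ := h.mp hC (fun x hx => hx.1.1) (y := z)
    ⟨⟨hz, mem_closedBall_self hr.le⟩, subset_closure hc⟩ hr (fun q hq hqr => by
      filter_upwards [h.isOpen.mem_nhds hq.1.1,
        isClosed_closure.isOpen_compl.mem_nhds (hcl q hq.1.1 hq.2),
        ((h.hol.cont h.isOpen).continuousAt (h.isOpen.mem_nhds hq.1.1)).eventually
          (isOpen_ball.mem_nhds (mem_ball_iff_norm.2 hqr))] with x h1 h2 h3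
      exact ⟨⟨h1, ball_subset_closedBall h3⟩, subset_closure h2⟩) hN
  exact hcl q hq.1.1 hq.2 (subset_closure ⟨hq.1.1, hd⟩)

theorem PrA.rv_pull (h : PrA A Ω Ω' P) (hN : 1 ≤ N) :
    Ω ⊆ closure {x | x ∈ Ω ∧ P x ∈ RVA A Ω Ω' P} := by
  intro z hz
  rw [_root_.mem_closure_iff]
  intro U hU hzU
  obtain ⟨a, ha, ha1, ha2⟩ := _root_.mem_closure_iff.1 (h.det_dense hN hz) U hU hzU
  obtain ⟨i, u, e, rfl, he, hu, -, hs⟩ := sbd1_inv h ha1 ha2
  obtain ⟨_, ⟨x, hx, rfl⟩, hc⟩ := _root_.mem_closure_iff.1 (h.rv_dense (h.maps ha1)) _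
    (e.isOpen_image_source_inter (dom_open A hU i)) ⟨u, ⟨hu, (hs u hu).1.1, ha⟩, he u⟩
  exact ⟨A.p i x, hx.2.2, (hs x hx.1).1.2, he x ▸ hc⟩

end Pool.Agent.BP
end

-- part Pool.Agent.P.MP_63735c_ag.SBD6
section

/-! The packing bound in a local embedding. -/

open scoped ComplexOrder ContDiff Matrix Topology ENNReal
open Set Metric MeasureTheory Filter

namespace Pool.Agent.BP

open Pool.Agent.SPF Pool.Agent.AB Pool.Agent.CK Pool.Agent.SE Pool.Agent.NL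

variable {N n : ℕ} {X Z : Type} [TopologicalSpace X] [TopologicalSpace Z] [MeasurableSpace X]
  {A : Atlas X N} {K : Form11 A} {F : Fib A n} {φ : X → ℝ} {j : X → Z} {μ : Measure X}
  {h : X → Mat n} {c₀ : ℝ}

omit [MeasurableSpace X] in
theorem sbd6_key (hinj : ∀ i, InjOn (A.p i) (A.C i).W) {Ψ : E n → X} (hW : ∀ τ, Ψ τ ∈ F.W)
    (hl : ∀ τ, ∃ (i : A.ι) (f : E n → E N), ∀ᶠ t in 𝓝 τ, DifferentiableAt ℂ f t ∧
      f t ∈ (A.C i).W ∧ A.p i (f t) = Ψ t ∧ jac f t = Vf A F.g i (f t))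
    {M : ℕ} {U : Set X} (hU : IsOpen U) {v : X → E M} (hv : HolV A U v) {τ : E n}
    (hτ : Ψ τ ∈ U) : Continuous Ψ ∧ ∃ i z, z ∈ dom A F.W i ∧ z ∈ dom A U i ∧ A.p i z = Ψ τ ∧
      (∀ᶠ t in 𝓝 τ, DifferentiableAt ℂ (fun t => v (Ψ t)) t) ∧ ∀ τ', Ψ τ' = Ψ τ →
        jac (fun t => v (Ψ t)) τ' = jac (fun w => v (A.p i w)) z * Vf A F.g i z := by
  obtain ⟨i, z, hz, ez⟩ := A.cover (Ψ τ)
  obtain ⟨hΨ, q, h1, h2⟩ := bpdp_lift hinj hW hl i
  have aux : ∀ t ∈ Ψ ⁻¹' (A.p i '' (A.C i).W), Ψ t ∈ U →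
      DifferentiableAt ℂ (fun t => v (Ψ t)) t ∧
        jac (fun t => v (Ψ t)) t = jac (fun w => v (A.p i w)) (q t) * Vf A F.g i (q t) :=
    fun t ht htU => by
      have a1 : (fun t => v (Ψ t)) =ᶠ[𝓝 t] (fun w => v (A.p i w)) ∘ q := by
        filter_upwards [h1.opn.mem_nhds ht] with s hs
        rw [Function.comp_apply, (h2 s hs).2.1]
      have a2 : q t ∈ dom A U i := ⟨(h2 t ht).1, by
        rw [mem_preimage, (h2 t ht).2.1]
        exact htU⟩
      have a3 := (hv i).differentiableAt ((dom_open A hU i).mem_nhds a2)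
      have a4 := (h1.hol t ht).self_of_nhds
      refine ⟨(a3.comp t a4).congr_of_eventuallyEq a1, ?_⟩
      rw [← (h2 t ht).2.2, ← bpdp_comp a3 a4]
      simp only [jac, a1.fderiv_eq]
  refine ⟨hΨ, i, z, ⟨hz, ?_⟩, ⟨hz, ?_⟩, ez, ?_, fun τ' e => ?_⟩
  · rw [mem_preimage, ez]
    exact hW τ
  · rw [mem_preimage, ez]
    exact hτ
  · filter_upwards [h1.opn.mem_nhds (show τ ∈ _ from ⟨z, hz, ez⟩),
      (hU.preimage hΨ).mem_nhds hτ] with t h3 h4
    exact (aux t h3 h4).1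
  · have b1 : τ' ∈ Ψ ⁻¹' (A.p i '' (A.C i).W) := ⟨z, hz, ez.trans e.symm⟩
    have b2 : q τ' = z := hinj i (h2 τ' b1).1 hz ((h2 τ' b1).2.1.trans (e.trans ez.symm))
    rw [(aux τ' b1 (e ▸ hτ)).2, b2]

omit [MeasurableSpace X] in
theorem Fib.packS0 [T2Space Z] (hj : Continuous j) (hinj : ∀ i, InjOn (A.p i) (A.C i).W)
    (hK : ∀ i, ∀ z ∈ (A.C i).W, (K.h i z).PosDef)
    (h_eq : ∀ i, ∀ z ∈ dom A F.W i,
      h (A.p i z) = (Vf A F.g i z)ᵀ * K.h i z * (Vf A F.g i z).map star)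
    (tor : ∀ x ∈ F.W, ∃ (Ψ : E n → X) (κ : Measure (E n)), Cell Ψ κ ∧
      (∀ y, F.r x y ↔ ∃ τ, Ψ τ = y) ∧
      (∀ τ, ∃ (i : A.ι) (f : E n → E N), ∀ᶠ t in 𝓝 τ, DifferentiableAt ℂ f t ∧ f t ∈ (A.C i).W ∧
        A.p i (f t) = Ψ t ∧ jac f t = Vf A F.g i (f t)) ∧
      ∫⁻ τ, ENNReal.ofReal (h (Ψ τ)).det.re ∂κ ≤ ENNReal.ofReal c₀) (e : Em A K F.W φ j) :
    F.PackS e := by
  intro o R hR hC
  obtain ⟨c, hc, H⟩ := bpdp_low n
  have hk := e.C_pos
  refine ⟨4 ^ n / c * (e.C ^ n * max c₀ 0), fun x hx ρ hρ hρR S hS hsep => ?_⟩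
  obtain ⟨Ψ, κ, hκ, hr', hl, hv⟩ := tor x hx
  have hW : ∀ τ, Ψ τ ∈ F.W := fun τ => by
    obtain ⟨j, hj⟩ := F.cov x hx
    exact F.U_sub j ((F.rel j x hj _).1 ((hr' _).2 ⟨τ, rfl⟩)).1
  have hU : IsOpen (j ⁻¹' e.O) := e.opn.preimage hj
  have key := fun τ (hτ : Ψ τ ∈ j ⁻¹' e.O) => sbd6_key hinj hW hl hU e.hol hτ
  have hΨ : Continuous Ψ := by
    obtain ⟨i, -⟩ := hl 0
    exact (bpdp_lift hinj hW hl i).1
  set O := Ψ ⁻¹' (j ⁻¹' e.O) with hO
  set q : E n → E e.M := fun t => e.z (j (Ψ t)) with hq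
  have hq1 : BpdpQ Ψ O q := ⟨hU.preimage hΨ, fun τ hτ => by
    obtain ⟨-, i, z, -, -, -, a, -⟩ := key τ hτ
    exact a, fun τ τ' e' hτ => by
    obtain ⟨-, i, z, -, -, -, -, a⟩ := key τ hτ
    refine ⟨?_, ?_, (a τ rfl).trans (a τ' e'.symm).symm⟩
    · rw [hO, mem_preimage, ← e']
      exact hτ
    · simp only [hq, e']⟩
  have ht : ρ ^ 2 / 4 < R ^ 2 := by nlinarith
  let T : X → Set (E n) := fun y => {τ | τ ∈ O ∧ nsq (q τ - e.v y) < ρ ^ 2 / 4}
  have low : ∀ y ∈ S, ENNReal.ofReal (c * (ρ ^ 2 / 4) ^ n) ≤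
      ∫⁻ τ in T y, ENNReal.ofReal (bpdpD q τ) ∂κ := fun y hy => by
    obtain ⟨hyO, hyC, hyr⟩ := hS y hy
    obtain ⟨τ₀, h0⟩ := (hr' _).1 hyr
    have h1 : τ₀ ∈ O := by
      rw [hO, mem_preimage, h0]
      exact hyO
    have h2 : q τ₀ = e.v y := by simp only [hq, h0]
    obtain ⟨-, i, z, a1, a2, -, -, a3⟩ := key τ₀ h1
    have h3 := H hq1 hκ τ₀ h1 ((injective_iff_map_eq_zero _).2 fun v hv => bpdp_inj a1 (by
      rw [← bpt2_jac, a3 τ₀ rfl, ← Matrix.mulVec_mulVec, bpt2_jac] at hv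
      exact (injective_iff_map_eq_zero _).1 (e.imm i z a2) _ hv)) (R ^ 2) _ (by positivity) ht
    rw [h2] at h3
    refine h3 ?_
    have k0 : IsClosed {w : E e.M | nsq (w - e.v y) ≤ R ^ 2} :=
      isClosed_le (nsq_smooth.continuous.comp (continuous_sub_right _)) continuous_const
    have k1 : {w : E e.M | nsq (w - e.v y) ≤ R ^ 2} ⊆ closedBall o (2 * R) := fun w hw => by
      have b1 : dist w (e.v y) ≤ R := by
        rw [dist_eq_norm]
        exact (abs_le_of_sq_le_sq' ((nsq_le _).1.trans hw) hR.le).2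
      have b2 : dist (e.v y) o ≤ R := hyC
      rw [mem_closedBall]
      linarith [dist_triangle w (e.v y) o]
    have k2 := (e.cont.mono inter_subset_left).preimage_isClosed_of_isClosed hC.isClosed k0
    rw [inter_assoc, ← preimage_inter, inter_eq_right.2 k1] at k2
    exact k2.preimage (hj.comp hΨ)
  have up : ∀ τ ∈ O, bpdpD q τ ≤ e.C ^ n * (h (Ψ τ)).det.re := fun τ hτ => by
    obtain ⟨-, i, z, a1, a2, a0, -, a5⟩ := key τ hτ
    have a3 : h (Ψ τ) = (Vf A F.g i z)ᵀ * K.h i z * (Vf A F.g i z).map star := by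
      rw [← a0, h_eq i _ a1]
    have a4 : ∀ v, hr ((jac q τ)ᵀ * (jac q τ).map star) v = nsq (jac q τ *ᵥ v) := fun v => by
      have b := lev_nsq (hq1.hol τ hτ)
      rw [← b.2.1, b.2.2.2, bpt2_jac]
    refine det_mono ?_ hk.le ?_ fun v => ?_
    · have := Matrix.posSemidef_self_mul_conjTranspose (jac q τ)ᵀ
      exact this
    · rw [a3]
      refine posDef_of_hq (Matrix.isHermitian_mul_mul_conjTranspose (Vf A F.g i z)ᵀ
        (hK i _ a1.1).1) fun u hu => ?_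
      rw [hq_conj]
      exact hq_pos (hK i _ a1.1) fun e => hu (bpdp_inj a1 e)
    · rw [a4, a3, hr, hq_conj, a5 τ rfl, ← Matrix.mulVec_mulVec, bpt2_jac]
      exact e.low i z a2 _
  have mT : ∀ y, MeasurableSet (T y) := fun y => (hq1.opn' _ _).measurableSet
  have dT : (S : Set X).PairwiseDisjoint T := fun z hz y hy hzy =>
    disjoint_left.2 fun τ h1 h2 => by
      have b : ∀ w, τ ∈ T w → dist (q τ) (e.v w) < ρ / 2 := fun w hw => by
        rw [dist_eq_norm]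
        refine lt_of_pow_lt_pow_left₀ 2 (by positivity) ((nsq_le _).1.trans_lt (hw.2.trans_eq ?_))
        ring
      linarith [hsep z hz y hy hzy, dist_triangle_left (e.v z) (e.v y) (q τ), b z h1, b y h2]
  have tot : (S.card : ℝ≥0∞) * ENNReal.ofReal (c * (ρ ^ 2 / 4) ^ n) ≤
      ENNReal.ofReal (e.C ^ n * max c₀ 0) :=
    calc _ = ∑ _z ∈ S, ENNReal.ofReal (c * (ρ ^ 2 / 4) ^ n) := by simp
      _ ≤ ∑ z ∈ S, ∫⁻ τ in T z, ENNReal.ofReal (e.C ^ n * (h (Ψ τ)).det.re) ∂κ :=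
        Finset.sum_le_sum fun z hz => (low z hz).trans (setLIntegral_mono' (mT z) fun τ hτ =>
          ENNReal.ofReal_le_ofReal (up τ hτ.1))
      _ = ∫⁻ τ in ⋃ z ∈ S, T z, ENNReal.ofReal (e.C ^ n * (h (Ψ τ)).det.re) ∂κ :=
        (lintegral_biUnion_finset dT (fun z _ => mT z) _).symm
      _ ≤ ∫⁻ τ, ENNReal.ofReal (e.C ^ n * (h (Ψ τ)).det.re) ∂κ := setLIntegral_le_lintegral _ _
      _ ≤ _ := by
        simp only [ENNReal.ofReal_mul (show (0 : ℝ) ≤ e.C ^ n by positivity)]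
        rw [lintegral_const_mul' _ _ ENNReal.ofReal_ne_top]
        gcongr
        exact hv.trans (ENNReal.ofReal_le_ofReal (le_max_left _ _))
  rw [← ENNReal.ofReal_natCast, ← ENNReal.ofReal_mul (Nat.cast_nonneg _),
    ENNReal.ofReal_le_ofReal_iff (by positivity)] at tot
  calc (S.card : ℝ) * ρ ^ (2 * n) = 4 ^ n / c * (S.card * (c * (ρ ^ 2 / 4) ^ n)) := by
        rw [div_pow, pow_mul]
        field_simp
    _ ≤ _ := by gcongr

theorem Fib.packS [T2Space Z] (hj : Continuous j) (hinj : ∀ i, InjOn (A.p i) (A.C i).W)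
    (hK : ∀ i, ∀ z ∈ (A.C i).W, (K.h i z).PosDef) (hT : F.Tor μ K h c₀) (e : Em A K F.W φ j) :
    F.PackS e := Fib.packS0 hj hinj hK hT.h_eq hT.tor e

end Pool.Agent.BP
end

-- part Pool.Agent.P.MP_63735c_ag.BPDa
section

/-! The area bounds. -/

open scoped ComplexOrder ContDiff Matrix Topology ENNReal
open Set Metric MeasureTheory Filter

namespace Pool.Agent.BP

open Pool.Agent.SPF Pool.Agent.AB Pool.Agent.CK Pool.Agent.SE Pool.Agent.NL

variable {N n : ℕ} {X : Type} [TopologicalSpace X] [T2Space X] [MeasurableSpace X] [BorelSpace X]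
  {A : Atlas X N} {F : Fib A n} {μ : Measure X} {K : Form11 A} {h : X → Mat n} {c₀ : ℝ}

theorem bpda_tr (M : Mat n) (v : E n) : hr Mᵀ v = hr M (star v) := by
  rw [hr, hr, hq, hq, star_star, Matrix.dotProduct_mulVec, Matrix.vecMul_transpose,
    dotProduct_comm]

theorem bpda_la {G H : Mat n} (hH : H.PosDef) {C : ℝ} (hC : 0 ≤ C)
    (hle : ∀ t, nsq (t ᵥ* G) ≤ C * hr H t) : ‖G.det‖ ^ 2 ≤ C ^ n * H.det.re ∧
      ∀ v, ‖G.adjugate *ᵥ v‖ ^ 2 ≤ C ^ (n - 1) * hr H.adjugateᵀ v := by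
  have hp : ((Gᴴ)ᴴ * Matrix.diagonal (fun _ : Fin n => ((1 : ℝ) : ℂ)) * Gᴴ).PosSemidef :=
    Matrix.PosSemidef.conjTranspose_mul_mul_same
      (Matrix.posSemidef_diagonal_iff.2 fun _ => Complex.zero_le_real.2 zero_le_one) _
  have h1 : ∀ t, hr ((Gᴴ)ᴴ * Matrix.diagonal (fun _ : Fin n => ((1 : ℝ) : ℂ)) * Gᴴ) t ≤
      C * hr H t := fun t => by
    rw [bpt1_hr, ← Matrix.star_vecMul]
    simpa [nsq] using hle t
  refine ⟨?_, fun v => ?_⟩
  · have h2 := det_mono hp hC hH h1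
    rwa [bpt1_det, Finset.prod_const_one, one_mul, Matrix.det_conjTranspose, norm_star] at h2
  · have h2 := adj_mono hp hC hH h1 (star v)
    rw [bpt1_adj, bpt1_hr, star_star, ← Matrix.adjugate_conjTranspose,
      Matrix.conjTranspose_conjTranspose, ← bpda_tr] at h2
    refine (nsq_le _).1.trans (le_trans (le_of_eq ?_) h2)
    simp [nsq]

theorem bpda_det (l : E N ≃L[ℂ] E n × E n) (J : Matrix (Fin n) (Fin N) ℂ) {P : Mat N} {G : Mat n}
    (hP : ∀ u, P *ᵥ u = l.symm (J *ᵥ u, (l u).1)) (hG : ∀ c, G *ᵥ c = J *ᵥ l.symm (0, c)) :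
    ‖P.det‖ = ‖G.det‖ := by
  let m : E N ≃ₗ[ℂ] (Fin n ⊕ Fin n → ℂ) :=
    l.toLinearEquiv.trans (LinearEquiv.sumArrowLequivProdArrow (Fin n) (Fin n) ℂ ℂ).symm
  let B : Mat n := LinearMap.toMatrix' (J.mulVecLin ∘ₗ (l.symm : E n × E n →ₗ[ℂ] E N) ∘ₗ
    LinearMap.inl ℂ _ _)
  let S : Matrix (Fin n ⊕ Fin n) (Fin n ⊕ Fin n) ℂ := Matrix.fromBlocks 0 1 1 0
  have hS : ‖S.det‖ = 1 := by
    have h1 : S * S = 1 := by simp [S, Matrix.fromBlocks_multiply]
    have h2 := congrArg (fun M => ‖Matrix.det M‖) h1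
    simp only [Matrix.det_mul, norm_mul, Matrix.det_one, norm_one] at h2
    nlinarith [norm_nonneg S.det]
  have e : (m : E N →ₗ[ℂ] _) ∘ₗ Matrix.toLin' P ∘ₗ (m.symm : _ →ₗ[ℂ] E N) =
      Matrix.toLin' (S * Matrix.fromBlocks 1 0 B G) := by
    refine LinearMap.ext fun x => ?_
    have e1 : m.symm x = l.symm (x ∘ Sum.inl, 0) + l.symm (0, x ∘ Sum.inr) := by
      rw [← map_add, Prod.mk_add_mk, add_zero, zero_add]
      rfl
    have e2 : (l (m.symm x)).1 = x ∘ Sum.inl := by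
      rw [e1, map_add, l.apply_symm_apply, l.apply_symm_apply, Prod.fst_add, add_zero]
    have e3 : J *ᵥ m.symm x = B *ᵥ (x ∘ Sum.inl) + G *ᵥ (x ∘ Sum.inr) := by
      rw [e1, Matrix.mulVec_add, hG, LinearMap.toMatrix'_mulVec]
      rfl
    have e4 : ∀ a c, m (l.symm (a, c)) = Sum.elim a c := fun a c => by
      ext (i | i) <;> simp [m]
    simp only [LinearMap.comp_apply, LinearEquiv.coe_coe, Matrix.toLin'_apply, hP, e2, e3, e4, S,
      Matrix.fromBlocks_multiply, Matrix.fromBlocks_mulVec]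
    simp
  have h3 := congrArg LinearMap.det e
  rw [LinearMap.det_conj, LinearMap.det_toLin', LinearMap.det_toLin', Matrix.det_mul,
    Matrix.det_fromBlocks_zero₁₂, Matrix.det_one, one_mul] at h3
  rw [h3, norm_mul, hS, one_mul]

theorem bpda_inv (l : E N ≃L[ℂ] E n × E n) (J : Matrix (Fin n) (Fin N) ℂ) {P : Mat N} {G : Mat n}
    (hP : ∀ u, P *ᵥ u = l.symm (J *ᵥ u, (l u).1)) (hG : ∀ c, G *ᵥ c = J *ᵥ l.symm (0, c))
    (v : E n) : ‖P.det‖ * ‖P⁻¹ *ᵥ l.symm (v, 0)‖ ≤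
      ‖(l.symm : E n × E n →L[ℂ] E N)‖ * ‖G.adjugate *ᵥ v‖ := by
  rcases eq_or_ne P.det 0 with h0 | h0
  · rw [h0, norm_zero, zero_mul]
    positivity
  set w := P⁻¹ *ᵥ l.symm (v, 0) with hw
  have h1 : l.symm (J *ᵥ w, (l w).1) = l.symm (v, 0) := by
    rw [← hP, hw, Matrix.mulVec_mulVec, Matrix.mul_nonsing_inv _ (isUnit_iff_ne_zero.2 h0),
      Matrix.one_mulVec]
  obtain ⟨h2, h3⟩ := Prod.mk.inj (l.symm.injective h1)
  have h4 : w = l.symm (0, (l w).2) := by rw [← h3, l.symm_apply_apply]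
  have h5 : G.adjugate *ᵥ v = G.det • (l w).2 := by
    rw [← h2]
    conv_lhs => rw [h4, ← hG, Matrix.mulVec_mulVec, Matrix.adjugate_mul, Matrix.smul_mulVec,
      Matrix.one_mulVec]
  have h6 : ‖w‖ ≤ ‖(l.symm : E n × E n →L[ℂ] E N)‖ * ‖(l w).2‖ := by
    have := (l.symm : E n × E n →L[ℂ] E N).le_opNorm (0, (l w).2)
    rw [Prod.norm_mk, norm_zero, max_eq_right (norm_nonneg _)] at this
    exact (congrArg norm h4).trans_le this
  rw [h5, norm_smul, bpda_det l J hP hG, mul_left_comm]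
  exact mul_le_mul_of_nonneg_left h6 (norm_nonneg _)

omit [T2Space X] [BorelSpace X] in
theorem bpda_pt (hK : ∀ i, ∀ z ∈ (A.C i).W, (K.h i z).PosDef) (hT : F.Tor μ K h c₀) (i : A.ι)
    (l : E N ≃L[ℂ] E n × E n) {C : Set (E N)} (hC : IsCompact C) (hs : C ⊆ (A.C i).W) :
    ∃ B : ℝ, 0 ≤ B ∧ ∀ z ∈ C, A.p i z ∈ F.W →
      ‖(jac (F.Pm i l) z).det‖ ^ 2 ≤ B * (h (A.p i z)).det.re ∧
      ∀ v, ‖(jac (F.Pm i l) z).det‖ ^ 2 * ‖(jac (F.Pm i l) z)⁻¹ *ᵥ l.symm (v, 0)‖ ^ 2 ≤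
        B * hr (h (A.p i z)).adjugateᵀ v := by
  obtain ⟨c, hc, h1⟩ := cpt_lower hC (fun a b => (K.smooth i a b).continuousOn.mono hs)
    fun z hz u hu => hq_pos (hK i z (hs hz)) hu
  obtain ⟨b, hb, h2⟩ := cpt_upper (h := fun z => ((A.C i).σ z)ᵀ) hC
    fun a b => ((A.C i).σ_hol b a).continuousOn.mono hs
  let L : Matrix (Fin N) (Fin n) ℂ :=
    LinearMap.toMatrix' ((l.symm : E n × E n →ₗ[ℂ] E N) ∘ₗ LinearMap.inr ℂ _ _)
  let T : E N →L[ℂ] E n := LinearMap.toContinuousLinearMap L.vecMulLinear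
  set D : ℝ := n * (‖T‖ * b) ^ 2 / c with hD
  have hD0 : 0 ≤ D := by positivity
  set e := ‖(l.symm : E n × E n →L[ℂ] E N)‖
  refine ⟨D ^ n + e ^ 2 * D ^ (n - 1), by positivity, fun z hz hW => ?_⟩
  have hz' : z ∈ dom A F.W i := ⟨hs hz, hW⟩
  have hd := (F.g_hol i).differentiableAt
    (((A.cont i).isOpen_inter_preimage (A.C i).isOpen F.W_open).mem_nhds hz')
  have hu := isUnit_iff_ne_zero.2 ((A.C i).σ_det z (hs hz))
  have hP : ∀ u, jac (F.Pm i l) z *ᵥ u = l.symm (Jg A F.g i z *ᵥ u, (l u).1) := fun u => by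
    have := (l.symm : E n × E n →L[ℂ] E N).hasFDerivAt.comp z
      (hd.hasFDerivAt.prodMk (l : E N →L[ℂ] E n × E n).hasFDerivAt.fst)
    rw [bpt2_jac, Jg, bpt2_jac]
    exact congrArg (· u) this.fderiv
  have hG : ∀ c, (Jg A F.g i z * L) *ᵥ c = Jg A F.g i z *ᵥ l.symm (0, c) := fun c => by
    rw [← Matrix.mulVec_mulVec, LinearMap.toMatrix'_mulVec]
    rfl
  have hV : ∀ t, t ᵥ* Jg A F.g i z = (Vf A F.g i z *ᵥ t) ᵥ* ((A.C i).σ z)ᵀ := fun t => by
    rw [Matrix.vecMul_transpose, Matrix.mulVec_mulVec, Vf, Matrix.mul_nonsing_inv_cancel_left _ _ hu,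
      Matrix.mulVec_transpose]
  have hh : ∀ t, hr (h (A.p i z)) t = hr (K.h i z) (Vf A F.g i z *ᵥ t) := fun t => by
    rw [hr, hT.h_eq i z hz', hq_conj]
  have hH : (h (A.p i z)).PosDef := by
    refine posDef_of_hq ?_ fun t ht => ?_
    · rw [hT.h_eq i z hz']
      exact Matrix.isHermitian_mul_mul_conjTranspose _ (hK i z (hs hz)).1
    · refine (hq_pos (hK i z (hs hz)) fun h0 => ht ?_).trans_eq (hh t).symm
      obtain ⟨u, hu'⟩ := F.g_sub i z hz' (star t)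
      have h3 := hV t
      rw [h0, Matrix.zero_vecMul] at h3
      have h4 : t ⬝ᵥ star t = 0 := by
        rw [← hu', ← bpt2_jac, Matrix.dotProduct_mulVec, ← Jg, h3, zero_dotProduct]
      exact dotProduct_self_star_eq_zero.1 h4
  have hle : ∀ t, nsq (t ᵥ* (Jg A F.g i z * L)) ≤ D * hr (h (A.p i z)) t := fun t => by
    rw [hh, ← Matrix.vecMul_vecMul, hV]
    generalize Vf A F.g i z *ᵥ t = u
    have h3 : ‖(u ᵥ* ((A.C i).σ z)ᵀ) ᵥ* L‖ ≤ ‖T‖ * (b * ‖u‖) :=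
      (T.le_opNorm _).trans (mul_le_mul_of_nonneg_left (h2 z hz u u).2 (norm_nonneg _))
    calc _ ≤ n * ‖(u ᵥ* ((A.C i).σ z)ᵀ) ᵥ* L‖ ^ 2 := (nsq_le _).2
      _ ≤ n * (‖T‖ * (b * ‖u‖)) ^ 2 := by gcongr
      _ = D * (c * ‖u‖ ^ 2) := by
        rw [hD]
        field_simp
      _ ≤ _ := mul_le_mul_of_nonneg_left (h1 z hz u) hD0
  obtain ⟨h3, h4⟩ := bpda_la hH hD0 hle
  refine ⟨?_, fun v => ?_⟩
  · rw [bpda_det l _ hP hG]
    exact h3.trans (mul_le_mul_of_nonneg_right (le_add_of_nonneg_right (by positivity))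
      (Complex.nonneg_iff.1 hH.det_pos.le).1)
  · have h5 : 0 ≤ hr (h (A.p i z)).adjugateᵀ v :=
      hq_nonneg (adj_psd hH.posSemidef).transpose v
    calc _ = (‖(jac (F.Pm i l) z).det‖ * ‖(jac (F.Pm i l) z)⁻¹ *ᵥ l.symm (v, 0)‖) ^ 2 := by ring
      _ ≤ (e * ‖(Jg A F.g i z * L).adjugate *ᵥ v‖) ^ 2 :=
        pow_le_pow_left₀ (by positivity) (bpda_inv l _ hP hG v) 2
      _ ≤ e ^ 2 * (D ^ (n - 1) * hr (h (A.p i z)).adjugateᵀ v) := by
        rw [mul_pow]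
        exact mul_le_mul_of_nonneg_left (h4 v) (sq_nonneg _)
      _ ≤ _ := by
        rw [← mul_assoc]
        exact mul_le_mul_of_nonneg_right (le_add_of_nonneg_left (by positivity)) h5

omit [T2Space X] in
theorem bpda_int (hinj : ∀ i, InjOn (A.p i) (A.C i).W) (hμ : IsVolume A μ) (i : A.ι)
    {C : Set (E N)} (hC : IsCompact C) (hs : C ⊆ (A.C i).W) :
    ∃ b : ℝ, 0 ≤ b ∧ ∀ S ⊆ C, MeasurableSet S → ∀ f : X → ℝ≥0∞,
      ∫⁻ z in S, f (A.p i z) ≤ ENNReal.ofReal b * ∫⁻ x in A.p i '' S, f x ∂μ := by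
  have hc : ContinuousOn (fun z => ‖((A.C i).σ z).det‖) (A.C i).W :=
    ((continuous_id.matrix_det).comp_continuousOn (continuousOn_pi.2 fun a => continuousOn_pi.2
      fun b => ((A.C i).σ_hol a b).continuousOn)).norm
  have hw : ∀ i, ∀ z ∈ (A.C i).W,
      wt (fun z => -Real.log ‖((A.C i).σ z).det‖) z = ‖((A.C i).σ z).det‖ := fun i z hz => by
    rw [wt, neg_neg, Real.exp_log (norm_pos_iff.2 ((A.C i).σ_det z hz))]
  have hd : (man A hinj isOpen_univ).Den μ fun i z => -Real.log ‖((A.C i).σ z).det‖ := by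
    intro i S hS hm
    refine (hμ i S (hS.trans inter_subset_left) hm).trans
      (setLIntegral_congr_fun hm fun z hz => ?_)
    rw [hw i z (hS hz).1, ofReal_norm]
  obtain ⟨c, hc0, h1⟩ := hC.exists_forall_le' (hc.mono hs) (a := 0)
    fun z hz => norm_pos_iff.2 ((A.C i).σ_det z (hs hz))
  refine ⟨c⁻¹, by positivity, fun S hS hm f => ?_⟩
  have h2 := hd.lint (i := i) (((hc.log fun z hz => norm_ne_zero_iff.2
    ((A.C i).σ_det z hz)).neg).mono inter_subset_left) hm (fun z hz => ⟨hs (hS hz), trivial⟩) f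
  refine le_trans ?_ (mul_le_mul_right h2.ge _)
  rw [← lintegral_const_mul' _ _ ENNReal.ofReal_ne_top]
  refine setLIntegral_mono' hm fun z hz => ?_
  rw [← mul_assoc, ← ENNReal.ofReal_mul (by positivity), hw i z (hs (hS hz))]
  refine le_mul_of_one_le_left' (ENNReal.one_le_ofReal.2 ?_)
  rw [← div_eq_inv_mul, one_le_div hc0]
  exact h1 z (hS hz)

theorem Fib.area (hinj : ∀ i, InjOn (A.p i) (A.C i).W) (hμ : IsVolume A μ)
    (hK : ∀ i, ∀ z ∈ (A.C i).W, (K.h i z).PosDef) (hT : F.Tor μ K h c₀) : F.Area := by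
  intro i l C hC hs
  obtain ⟨B, hB, h1⟩ := bpda_pt hK hT i l hC hs
  obtain ⟨b, hb, h2⟩ := bpda_int hinj hμ i hC hs
  refine ⟨B * b * |c₀|, by positivity, fun j O hO hm => ?_⟩
  have hS : MeasurableSet (C ∩ A.p i ⁻¹' (F.U j ∩ F.g ⁻¹' O)) := by
    have h3 := ((A.cont i).isOpen_inter_preimage (A.C i).isOpen
      (F.U_open j)).measurableSet.subtype_image (((F.g_hol i).continuousOn.mono
        fun z hz => ⟨hz.1, F.U_sub j hz.2⟩).domRestrict.measurable hm)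
    have e : C ∩ A.p i ⁻¹' (F.U j ∩ F.g ⁻¹' O) = C ∩ Subtype.val '' ((dom A (F.U j) i).domRestrict
        (fun z => F.g (A.p i z)) ⁻¹' O) := by
      ext z
      refine and_congr_right fun hz => ⟨fun h => ⟨⟨z, hs hz, h.1⟩, h.2, rfl⟩, ?_⟩
      rintro ⟨y, hy, rfl⟩
      exact ⟨y.2.2, hy⟩
    rw [e]
    exact hC.measurableSet.inter h3
  have key : ∀ (u : E N → ℝ≥0∞) (f : X → ℝ) (I : ℝ≥0∞),
      (∀ z ∈ C, A.p i z ∈ F.W → u z ≤ ENNReal.ofReal (B * f (A.p i z))) →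
      ∫⁻ x in F.U j ∩ F.g ⁻¹' O, ENNReal.ofReal (f x) ∂μ ≤ ENNReal.ofReal c₀ * I →
      ∫⁻ z in C ∩ A.p i ⁻¹' (F.U j ∩ F.g ⁻¹' O), u z ≤ ENNReal.ofReal (B * b * |c₀|) * I := by
    intro u f I a1 a2
    refine (setLIntegral_mono' hS fun z hz => a1 z hz.1 (F.U_sub j hz.2.1)).trans ?_
    simp only [ENNReal.ofReal_mul hB, ENNReal.ofReal_mul hb, mul_assoc]
    rw [lintegral_const_mul' _ _ ENNReal.ofReal_ne_top]
    refine mul_le_mul_right ((h2 _ inter_subset_left hS fun x => ENNReal.ofReal (f x)).trans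
      (mul_le_mul_right ((lintegral_mono_set (image_subset_iff.2 inter_subset_right)).trans
        (a2.trans (mul_le_mul_left (ENNReal.ofReal_le_ofReal (le_abs_self _)) _))) _)) _
  refine ⟨key _ (fun x => (h x).det.re) _ (fun z hz hW => ?_) (hT.fub_det j O hO hm), fun v =>
    key _ (fun x => hr (h x).adjugateᵀ v) _ (fun z hz hW => ?_) (hT.fub_adj j O hO hm v)⟩
  · rw [← ofReal_norm, ← ENNReal.ofReal_pow (norm_nonneg _)]
    exact ENNReal.ofReal_le_ofReal (h1 z hz hW).1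
  · rw [← ofReal_norm, ← ofReal_norm, ← ENNReal.ofReal_pow (norm_nonneg _),
      ← ENNReal.ofReal_pow (norm_nonneg _), ← ENNReal.ofReal_mul (sq_nonneg _)]
    exact ENNReal.ofReal_le_ofReal ((h1 z hz hW).2 v)

end Pool.Agent.BP
end

-- part Pool.Agent.P.MP_63735c_ag.SBD7
section

/-! The pointwise area bounds. -/

open scoped ComplexOrder ContDiff Matrix Topology ENNReal
open Set Metric MeasureTheory Filter

namespace Pool.Agent.BP

open Pool.Agent.SPF Pool.Agent.AB Pool.Agent.CK Pool.Agent.SE Pool.Agent.NL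

variable {N n : ℕ} {X Z : Type} [TopologicalSpace X] [TopologicalSpace Z] [MeasurableSpace X]
  {A : Atlas X N} {K : Form11 A} {F : Fib A n} {φ : X → ℝ} {j : X → Z} {μ : Measure X}
  {h : X → Mat n} {c₀ : ℝ}

theorem sbd7_blk (B C D : Mat n) : ‖(Matrix.fromBlocks 0 B C D).det‖ = ‖B.det‖ * ‖C.det‖ := by
  let S : Matrix (Fin n ⊕ Fin n) (Fin n ⊕ Fin n) ℂ := Matrix.fromBlocks 0 1 1 0
  have hS : ‖S.det‖ = 1 := by
    have h1 : S * S = 1 := by simp [S, Matrix.fromBlocks_multiply]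
    have h2 := congrArg (fun M => ‖Matrix.det M‖) h1
    simp only [Matrix.det_mul, norm_mul, Matrix.det_one, norm_one] at h2
    nlinarith [norm_nonneg S.det]
  have e : Matrix.fromBlocks 0 B C D = S * Matrix.fromBlocks C D 0 B := by
    simp [S, Matrix.fromBlocks_multiply]
  rw [e, Matrix.det_mul, norm_mul, hS, one_mul, Matrix.det_fromBlocks_zero₂₁, norm_mul, mul_comm]

theorem sbd7_det (ε : Fin n ⊕ Fin n ≃ Fin N) {s P : Mat N} (hs : sᵀ = -s) (hd : s.det ≠ 0)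
    {J Y : Matrix (Fin n) (Fin N) ℂ} (hP : ∀ u, P *ᵥ u = (kap ε).symm (J *ᵥ u, Y *ᵥ u))
    (h0 : J * (s⁻¹ * Jᵀ) = 0) : ‖P.det‖ ^ 2 = ‖s.det‖ * ‖(Y * (s⁻¹ * Jᵀ)).det‖ ^ 2 := by
  have h1 : P.submatrix ε id = Matrix.fromRows J Y := by
    ext a b
    have h2 := congrArg (kap ε) (hP (Pi.single b 1))
    rw [ContinuousLinearEquiv.apply_symm_apply] at h2
    simp only [Matrix.mulVec_single_one] at h2
    rcases a with a | a
    · exact congrFun (congrArg Prod.fst h2) a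
    · exact congrFun (congrArg Prod.snd h2) a
  have h2 : (s⁻¹)ᵀ = -s⁻¹ := by
    rw [Matrix.transpose_nonsing_inv, hs]
    refine Matrix.inv_eq_right_inv ?_
    rw [neg_mul_neg, Matrix.mul_nonsing_inv _ hd.isUnit]
  have h3 : (P * (s⁻¹ * Pᵀ)).submatrix ε ε = Matrix.fromBlocks 0 (-(Y * (s⁻¹ * Jᵀ))ᵀ)
      (Y * (s⁻¹ * Jᵀ)) (Y * (s⁻¹ * Yᵀ)) := by
    have h4 : (P * (s⁻¹ * Pᵀ)).submatrix ε ε =
        P.submatrix ε id * (s⁻¹ * (P.submatrix ε id)ᵀ) := rfl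
    rw [h4, h1, Matrix.transpose_fromRows, Matrix.mul_fromCols, Matrix.fromRows_mul_fromCols, h0,
      Matrix.transpose_mul, Matrix.transpose_mul, Matrix.transpose_transpose, h2, Matrix.mul_neg,
      Matrix.neg_mul, neg_neg, Matrix.mul_assoc]
  have h5 := congrArg (fun M => ‖Matrix.det M‖) h3
  simp only [Matrix.det_submatrix_equiv_self, sbd7_blk, Matrix.det_neg, Matrix.det_transpose,
    norm_mul, norm_pow, norm_neg, norm_one, one_pow, one_mul] at h5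
  rw [Matrix.det_mul, Matrix.det_mul, Matrix.det_transpose, Matrix.det_nonsing_inv,
    Ring.inverse_eq_inv', norm_mul, norm_mul, norm_inv] at h5
  have h6 := norm_ne_zero_iff.2 hd
  rw [sq, sq, ← h5]
  field_simp

theorem sbd7_inv (l : E N ≃L[ℂ] E n × E n) {P : Mat N} {J Y : Matrix (Fin n) (Fin N) ℂ}
    {V : Matrix (Fin N) (Fin n) ℂ} (hP : ∀ u, P *ᵥ u = l.symm (J *ᵥ u, Y *ᵥ u)) (hd : P.det ≠ 0)
    (h0 : J * V = 0) {u w : E N} (hu : P *ᵥ u = l.symm (J *ᵥ w, 0)) (r : E N) :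
    (Y * V).det * (r ⬝ᵥ u) =
      (Y * V).det * (r ⬝ᵥ w) - ∑ k, (Y *ᵥ w) k * (Y.updateRow k r * V).det := by
  have h1 : (Y * V).det • u = (Y * V).det • w - V *ᵥ ((Y * V).adjugate *ᵥ (Y *ᵥ w)) := by
    refine Matrix.mulVec_injective_iff_isUnit.2 ((Matrix.isUnit_iff_isUnit_det _).2 hd.isUnit) ?_
    have h2 : Y *ᵥ (V *ᵥ ((Y * V).adjugate *ᵥ (Y *ᵥ w))) = (Y * V).det • (Y *ᵥ w) := by
      rw [Matrix.mulVec_mulVec, Matrix.mulVec_mulVec, Matrix.mul_adjugate, Matrix.smul_mulVec,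
        Matrix.one_mulVec]
    change P *ᵥ _ = P *ᵥ _
    rw [Matrix.mulVec_smul, hu, hP, Matrix.mulVec_sub, Matrix.mulVec_sub, h2, Matrix.mulVec_mulVec,
      h0, Matrix.zero_mulVec, sub_zero, Matrix.mulVec_smul, Matrix.mulVec_smul, sub_self,
      ← map_smul, Prod.smul_mk, smul_zero]
  have h3 := congrArg (r ⬝ᵥ ·) h1
  simp only [dotProduct_sub, dotProduct_smul, smul_eq_mul] at h3
  rw [h3, Matrix.dotProduct_mulVec, Matrix.dotProduct_mulVec, dotProduct_comm]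
  congr 1
  refine Finset.sum_congr rfl fun k _ => ?_
  rw [Matrix.updateRow_mul, ← Matrix.cramer_transpose_apply, Matrix.cramer_eq_adjugate_mulVec,
    ← Matrix.adjugate_transpose, Matrix.mulVec_transpose, mul_comm]

theorem sbd7_pos {s H : Mat N} (hd : s.det ≠ 0) (hH : H.PosDef) {J : Matrix (Fin n) (Fin N) ℂ}
    (hJ : ∀ v, ∃ u, J *ᵥ u = v) : ((s⁻¹ * Jᵀ)ᵀ * H * (s⁻¹ * Jᵀ).map star).PosDef := by
  refine posDef_of_hq (Matrix.isHermitian_mul_mul_conjTranspose _ hH.1) fun t ht => ?_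
  rw [hq_conj]
  refine hq_pos hH fun h0 => ht ?_
  obtain ⟨u, hu⟩ := hJ (star t)
  have h3 : t ᵥ* J = 0 := by
    rw [← Matrix.mulVec_transpose, ← Matrix.mul_nonsing_inv_cancel_left s Jᵀ hd.isUnit,
      ← Matrix.mulVec_mulVec, h0, Matrix.mulVec_zero]
  refine dotProduct_self_star_eq_zero.1 ?_
  rw [← hu, Matrix.dotProduct_mulVec, h3, zero_dotProduct]

theorem sbd7_le {H : Mat N} {V : Matrix (Fin N) (Fin n) ℂ} (hh : (Vᵀ * H * V.map star).PosDef)
    {Y : Matrix (Fin n) (Fin N) ℂ} {D : ℝ} (hD : 0 ≤ D) (hY : ∀ u, nsq (Y *ᵥ u) ≤ D * hr H u) :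
    ‖(Y * V).det‖ ^ 2 ≤ D ^ n * (Vᵀ * H * V.map star).det.re := by
  have h1 := (bpda_la (G := (Y * V)ᵀ) hh hD fun t => by
    rw [Matrix.vecMul_transpose, ← Matrix.mulVec_mulVec, hr, hq_conj]
    exact hY _).1
  rwa [Matrix.det_transpose] at h1

theorem sbd7_grad {M : ℕ} (l : E N ≃L[ℂ] E n × E n) {P H : Mat N} (hH : H.PosDef)
    {J Y : Matrix (Fin n) (Fin N) ℂ} {V : Matrix (Fin N) (Fin n) ℂ} {G : Matrix (Fin M) (Fin N) ℂ}
    (hh : (Vᵀ * H * V.map star).PosDef) (hP : ∀ u, P *ᵥ u = l.symm (J *ᵥ u, Y *ᵥ u))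
    (hd : P.det ≠ 0) (h0 : J * V = 0) {D : ℝ} (hD : 0 ≤ D)
    (hY : ∀ u, nsq (Y *ᵥ u) + nsq (G *ᵥ u) ≤ D * hr H u) {u w : E N}
    (hu : P *ᵥ u = l.symm (J *ᵥ w, 0)) : ‖(Y * V).det‖ ^ 2 * ‖G *ᵥ u‖ ^ 2 ≤
      (n + 1) ^ 2 * D ^ (n + 1) * ((Vᵀ * H * V.map star).det.re * hr H w) := by
  have n0 : ∀ {k : ℕ} (x : E k), 0 ≤ nsq x := fun x => (sq_nonneg _).trans (nsq_le x).1
  have n1 : ∀ {k : ℕ} (x : E k) c, ‖x c‖ ^ 2 ≤ nsq x := fun x c =>
    (pow_le_pow_left₀ (norm_nonneg _) (norm_le_pi_norm x c) 2).trans (nsq_le x).1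
  have p1 : 0 ≤ D ^ n * (Vᵀ * H * V.map star).det.re :=
    mul_nonneg (pow_nonneg hD _) (Complex.nonneg_iff.1 hh.det_pos.le).1
  have p2 : 0 ≤ D * hr H w := mul_nonneg hD (hq_nonneg hH.posSemidef w)
  set R := √(D ^ n * (Vᵀ * H * V.map star).det.re)
  set T := √(D * hr H w)
  have a1 : ‖(Y * V).det‖ ≤ R := Real.le_sqrt_of_sq_le
    (sbd7_le hh hD fun x => (le_add_of_nonneg_right (n0 _)).trans (hY x))
  have a2 : ∀ k c, ‖(Y.updateRow k (G c) * V).det‖ ≤ R := fun k c => Real.le_sqrt_of_sq_le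
    (sbd7_le hh hD fun x => le_trans (by
      rw [Matrix.updateRow_mulVec]
      refine le_trans ?_ (add_le_add_right (n1 (G *ᵥ x) c) _)
      rw [nsq, nsq, ← Finset.add_sum_erase _ _ (Finset.mem_univ k), Function.update_self, add_comm]
      refine add_le_add_left ((Finset.sum_congr rfl fun a ha => ?_).trans_le
        (Finset.sum_le_sum_of_subset_of_nonneg (Finset.erase_subset k _)
          fun _ _ _ => sq_nonneg _)) _
      rw [Function.update_of_ne (Finset.ne_of_mem_erase ha)]) (hY x))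
  have a3 : ∀ k, ‖(Y *ᵥ w) k‖ ≤ T := fun k => Real.le_sqrt_of_sq_le
    ((n1 _ k).trans ((le_add_of_nonneg_right (n0 _)).trans (hY w)))
  have a4 : ∀ c, ‖G c ⬝ᵥ w‖ ≤ T := fun c => Real.le_sqrt_of_sq_le
    ((n1 (G *ᵥ w) c).trans ((le_add_of_nonneg_left (n0 _)).trans (hY w)))
  have hR : 0 ≤ R := Real.sqrt_nonneg _
  have hT : 0 ≤ T := Real.sqrt_nonneg _
  have a5 : ‖(Y * V).det • (G *ᵥ u)‖ ≤ (n + 1) * (R * T) := by
    refine (pi_norm_le_iff_of_nonneg (by positivity)).2 fun c => ?_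
    change ‖(Y * V).det * (G c ⬝ᵥ u)‖ ≤ _
    rw [sbd7_inv l hP hd h0 hu, add_mul, one_mul, add_comm]
    refine (norm_sub_le _ _).trans (add_le_add ?_ ((norm_sum_le _ _).trans
      ((Finset.sum_le_card_nsmul _ _ (R * T) fun k _ => ?_).trans_eq (by simp))))
    · rw [norm_mul]
      exact mul_le_mul a1 (a4 c) (norm_nonneg _) hR
    · rw [norm_mul, mul_comm]
      exact mul_le_mul (a2 k c) (a3 k) (norm_nonneg _) hR
  have a6 := pow_le_pow_left₀ (norm_nonneg _) a5 2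
  rw [norm_smul, mul_pow, mul_pow, mul_pow, Real.sq_sqrt p1, Real.sq_sqrt p2] at a6
  exact a6.trans_eq (by ring)

omit [MeasurableSpace X] in
/-- The matrices at a point. -/
theorem Fib.area0 (hj : Continuous j) (e : Sz A K F.W φ j n) : ∃ D : ℝ, 0 ≤ D ∧
    ∀ i, ∀ w ∈ dom A (F.W ∩ j ⁻¹' e.O) i, ∃ Y : Matrix (Fin n) (Fin N) ℂ,
      (∀ u, Jg A (F.Pz e) i w *ᵥ u = e.l.symm (Jg A F.g i w *ᵥ u, Y *ᵥ u)) ∧
      ∀ u, nsq (Y *ᵥ u) + nsq (Jg A e.v i w *ᵥ u) ≤ D * hr (K.h i w) u := by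
  have hC := e.C_pos
  refine ⟨(n * ‖e.L‖ ^ 2 + 1) * e.C, by positivity, fun i w hw => ?_⟩
  have d1 := (F.g_hol i).differentiableAt ((dom_open A F.W_open i).mem_nhds ⟨hw.1, hw.2.1⟩)
  have d2 := (e.hol i).differentiableAt
    ((dom_open A (e.opn.preimage hj) i).mem_nhds ⟨hw.1, hw.2.2⟩)
  have d3 := e.L.hasFDerivAt.comp w d2.hasFDerivAt
  refine ⟨Jg A (fun x => e.L (e.v x)) i w, fun u => ?_, fun u => ?_⟩
  · have := (e.l.symm : E n × E n →L[ℂ] E N).hasFDerivAt.comp w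
      (d1.hasFDerivAt.prodMk d3.differentiableAt.hasFDerivAt)
    rw [Jg, Jg, Jg, bpt2_jac, bpt2_jac, bpt2_jac]
    exact congrArg (· u) this.fderiv
  · have h1 := e.low i w ⟨hw.1, hw.2.2⟩ u
    rw [Jg, Jg, bpt2_jac, bpt2_jac]
    have h2 : fderiv ℂ (fun y => e.L (e.v (A.p i y))) w u =
        e.L (fderiv ℂ (fun y => e.v (A.p i y)) w u) := congrArg (· u) d3.fderiv
    rw [h2]
    set t := fderiv ℂ (fun y => e.v (A.p i y)) w u
    have h3 : nsq (e.L t) ≤ n * ‖e.L‖ ^ 2 * nsq t := by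
      refine (nsq_le _).2.trans ?_
      rw [mul_assoc]
      refine mul_le_mul_of_nonneg_left ((pow_le_pow_left₀ (norm_nonneg _) (e.L.le_opNorm t) 2).trans
        ?_) (Nat.cast_nonneg n)
      rw [mul_pow]
      exact mul_le_mul_of_nonneg_left (nsq_le t).1 (sq_nonneg _)
    calc _ ≤ (n * ‖e.L‖ ^ 2 + 1) * nsq t := by linarith
      _ ≤ _ := by
        rw [mul_assoc]
        exact mul_le_mul_of_nonneg_left h1 (by positivity)

omit [MeasurableSpace X] in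
/-- The bound for the determinant. -/
theorem Fib.area1 (hj : Continuous j) (hK : ∀ i, ∀ z ∈ (A.C i).W, (K.h i z).PosDef)
    (iso : ∀ i, ∀ z ∈ dom A F.W i, Jg A F.g i z * Vf A F.g i z = 0)
    (h_eq : ∀ i, ∀ z ∈ dom A F.W i,
      h (A.p i z) = (Vf A F.g i z)ᵀ * K.h i z * (Vf A F.g i z).map star) (e : Sz A K F.W φ j n) :
    ∃ B : ℝ, 0 ≤ B ∧ ∀ i, ∀ w ∈ dom A (F.W ∩ j ⁻¹' e.O) i,
      ‖(Jg A (F.Pz e) i w).det‖ ^ 2 ≤ ‖((A.C i).σ w).det‖ * (B * (h (A.p i w)).det.re) := by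
  obtain ⟨D, hD, h1⟩ := F.area0 hj e
  refine ⟨D ^ n, by positivity, fun i w hw => ?_⟩
  obtain ⟨Y, h2, h3⟩ := h1 i w hw
  have hw' : w ∈ dom A F.W i := ⟨hw.1, hw.2.1⟩
  have hs := (A.C i).σ_det w hw.1
  rw [sbd7_det e.ε ((A.C i).σ_skew w hw.1) hs h2 (iso i w hw'), h_eq i w hw']
  refine mul_le_mul_of_nonneg_left (sbd7_le (sbd7_pos hs (hK i w hw.1) fun v => ?_) hD fun u =>
    (le_add_of_nonneg_right ((sq_nonneg _).trans (nsq_le _).1)).trans (h3 u)) (norm_nonneg _)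
  exact (F.g_sub i w hw' v).imp fun u hu => (bpt2_jac _ _ _).trans hu

theorem Fib.areaS (hj : Continuous j) (hK : ∀ i, ∀ z ∈ (A.C i).W, (K.h i z).PosDef)
    (hT : F.Tor μ K h c₀) (hl : F.Lift K h) (e : Sz A K F.W φ j n) : F.AreaS e h := by
  obtain ⟨B, hB, h0⟩ := F.area1 hj hK hT.iso hT.h_eq e
  obtain ⟨D, hD, h1⟩ := F.area0 hj e
  obtain ⟨C, hC, h4⟩ := hl
  refine ⟨B + (n + 1) ^ 2 * D ^ (n + 1) * C, by positivity, fun i w hw => ?_⟩
  obtain ⟨Y, h2, h3⟩ := h1 i w hw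
  have hw' : w ∈ dom A F.W i := ⟨hw.1, hw.2.1⟩
  have hs := (A.C i).σ_det w hw.1
  have hh := sbd7_pos hs (hK i w hw.1) fun v =>
    (F.g_sub i w hw' v).imp fun u hu => (bpt2_jac _ _ _).trans hu
  have hp : (h (A.p i w)).PosDef := hT.h_eq i w hw' ▸ hh
  refine ⟨(h0 i w hw).trans (mul_le_mul_of_nonneg_left (mul_le_mul_of_nonneg_right
    (le_add_of_nonneg_right (by positivity)) (Complex.nonneg_iff.1 hp.det_pos.le).1)
    (norm_nonneg _)), fun v u hu => ?_⟩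
  have h5 : 0 ≤ hr (h (A.p i w)).adjugateᵀ v := hq_nonneg (adj_psd hp.posSemidef).transpose v
  rcases eq_or_ne (Jg A (F.Pz e) i w).det 0 with hd | hd
  · rw [hd, norm_zero, zero_pow two_ne_zero, zero_mul]
    positivity
  obtain ⟨u', rfl, h6⟩ := h4 i w hw.1 hw.2.1 v
  have h7 := sbd7_grad e.l (hK i w hw.1) hh h2 hd (hT.iso i w hw') hD h3 hu
  rw [sbd7_det e.ε ((A.C i).σ_skew w hw.1) hs h2 (hT.iso i w hw'), mul_assoc, ← bpt2_jac]
  refine mul_le_mul_of_nonneg_left (h7.trans ?_) (norm_nonneg _)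
  rw [hT.h_eq i w hw'] at h6
  refine (mul_le_mul_of_nonneg_left h6 (by positivity)).trans ?_
  rw [← mul_assoc, ← hT.h_eq i w hw']
  exact mul_le_mul_of_nonneg_right (le_add_of_nonneg_left hB) h5

end Pool.Agent.BP
end

-- part Pool.Agent.P.MP_63735c_ag.BPT6b
section

/-! The area formula for proper holomorphic maps. -/

open scoped ComplexOrder ContDiff Matrix Topology ENNReal
open Set Metric MeasureTheory Filter

namespace Pool.Agent.BP

open Pool.Agent.SPF Pool.Agent.AB Pool.Agent.CK Pool.Agent.SE Pool.Agent.NL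

variable {N : ℕ} {Ω Ω' : Set (E N)} {P : E N → E N}

/-- The function `u` carried to the image of a set on which `P` is injective. -/
noncomputable def bpt6b_pc {F : Type} [Zero F] (P : E N → E N) (s : Set (E N)) (u : E N → F) :
    E N → F := Function.extend (s.domRestrict P) (s.domRestrict u) fun _ => 0

theorem bpt6b_apply {F : Type} [Zero F] {s : Set (E N)} (hi : InjOn P s) (u : E N → F) {z : E N}
    (hz : z ∈ s) : bpt6b_pc P s u (P z) = u z :=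
  (injOn_iff_injective.1 hi).extend_apply (s.domRestrict u) (fun _ => 0) ⟨z, hz⟩

theorem bpt6b_zero {F : Type} [Zero F] {s : Set (E N)} (u : E N → F) {w : E N}
    (hw : w ∉ P '' s) : bpt6b_pc P s u w = 0 :=
  Function.extend_apply' _ _ _ fun ⟨z, hz⟩ => hw ⟨z.1, z.2, hz⟩

theorem bpt6b_der (h : Prp Ω Ω' P) {s : Set (E N)} (hs : s ⊆ Ω) :
    ∀ z ∈ s, HasFDerivWithinAt P (fderiv ℝ P z) s z := fun _ hz =>
  ((h.hol.differentiableAt (h.isOpen.mem_nhds (hs hz))).restrictScalars ℝ).hasFDerivAt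
    |>.hasFDerivWithinAt

theorem bpt6b_det (h : Prp Ω Ω' P) {z : E N} (hz : z ∈ Ω) :
    (fderiv ℝ P z).det = ‖(jac P z).det‖ ^ 2 :=
  real_det (h.hol.differentiableAt (h.isOpen.mem_nhds hz))

theorem bpt6b_pre (h : Prp Ω Ω' P) {T : Set (E N)} (hT : MeasurableSet T) :
    MeasurableSet (Ω ∩ P ⁻¹' T) := by
  have h1 : Measurable (Ω.domRestrict P) := h.hol.continuousOn.domRestrict.measurable
  have h2 := (MeasurableEmbedding.subtype_coe h.isOpen.measurableSet).measurableSet_image.2 (h1 hT)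
  have h3 : Ω ∩ P ⁻¹' T = Subtype.val '' (Ω.domRestrict P ⁻¹' T) := by
    ext z
    exact ⟨fun hz => ⟨⟨z, hz.1⟩, hz.2, rfl⟩, fun ⟨y, hy, e⟩ => e ▸ ⟨y.2, hy⟩⟩
  exact h3 ▸ h2

theorem bpt6b_pieces (h : Prp Ω Ω' P) {K : Set (E N)} (hK : MeasurableSet K) (hΩ : K ⊆ Ω) :
    ∃ S : ℕ → Set (E N), (∀ n, MeasurableSet (S n)) ∧ Pairwise (Function.onFun Disjoint S) ∧
      (∀ n, InjOn P (S n)) ∧ ⋃ n, S n = K ∩ {z | (fderiv ℝ P z).det ≠ 0} := by
  have hr : ∀ A : E N →L[ℝ] E N, ∃ c : NNReal, c ≠ 0 ∧ ∀ hA : A.det ≠ 0, Subsingleton (E N) ∨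
      c < ‖((A.toContinuousLinearEquivOfDetNeZero hA).symm : E N →L[ℝ] E N)‖₊⁻¹ := by
    intro A
    by_cases hA : A.det = 0
    · exact ⟨1, one_ne_zero, fun h' => absurd hA h'⟩
    rcases (A.toContinuousLinearEquivOfDetNeZero hA).subsingleton_or_nnnorm_symm_pos with h1 | h1
    · exact ⟨1, one_ne_zero, fun _ => Or.inl h1⟩
    · have h2 := inv_pos.2 h1
      exact ⟨_, (half_pos h2).ne', fun _ => Or.inr (NNReal.half_lt_self h2.ne')⟩
  choose r hr0 hr using hr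
  have hm : MeasurableSet (K ∩ {z | (fderiv ℝ P z).det ≠ 0}) :=
    hK.inter ((ContinuousLinearMap.continuous_det.measurable.comp (measurable_fderiv ℝ P))
      (measurableSet_singleton 0).compl)
  obtain ⟨t, A, hd, htm, hc, ha, hA⟩ := exists_partition_approximatesLinearOn_of_hasFDerivWithinAt
    P _ (fderiv ℝ P) (bpt6b_der h (inter_subset_left.trans hΩ :
      K ∩ {z | (fderiv ℝ P z).det ≠ 0} ⊆ Ω)) r hr0
  refine ⟨fun n => K ∩ {z | (fderiv ℝ P z).det ≠ 0} ∩ t n, fun n => hm.inter (htm n),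
    fun i j hij => (hd hij).mono inter_subset_right inter_subset_right, fun n => ?_, ?_⟩
  · rcases (K ∩ {z | (fderiv ℝ P z).det ≠ 0}).eq_empty_or_nonempty with h0 | h0
    · exact fun z hz => absurd (h0 ▸ hz.1) (notMem_empty z)
    obtain ⟨y, hy, e⟩ := hA h0 n
    have hn : (A n).det ≠ 0 := e ▸ hy.2
    have h1 := ha n
    rw [← (A n).coe_toContinuousLinearEquivOfDetNeZero hn] at h1
    refine ApproximatesLinearOn.injOn h1 ?_
    rw [(A n).coe_toContinuousLinearEquivOfDetNeZero hn]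
    exact hr _ hn
  · rw [← inter_iUnion]
    exact inter_eq_left.2 hc

theorem bpt6b_hasSum {F : Type} [AddCommMonoid F] [TopologicalSpace F] [ContinuousAdd F]
    (h : Prp Ω Ω' P) {T : Set (E N)} {S : ℕ → Set (E N)}
    (hd : Pairwise (Function.onFun Disjoint S)) (hi : ∀ n, InjOn P (S n))
    (hU : ⋃ n, S n = Ω ∩ P ⁻¹' T ∩ {z | (fderiv ℝ P z).det ≠ 0}) (u : E N → F) {w : E N}
    (hw : w ∈ RV Ω Ω' P) (hT : w ∈ T) :
    HasSum (fun n => bpt6b_pc P (S n) u w) (fsum Ω P u w) := by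
  classical
  obtain ⟨d, O, q, -, hO, -, -, hq⟩ := h.sheets hw
  have hf : (Ω ∩ P ⁻¹' {w}).Finite := (hq w hO).2 ▸ finite_range _
  have hsub : ∀ n, S n ⊆ Ω := fun n z hz => (hU.subset (mem_iUnion.2 ⟨n, hz⟩)).1.1
  have h1 : ∀ n, bpt6b_pc P (S n) u w = ∑ z ∈ hf.toFinset, (S n).indicator u z := by
    intro n
    by_cases hn : w ∈ P '' S n
    · obtain ⟨z, hz, rfl⟩ := hn
      rw [bpt6b_apply (hi n) u hz, Finset.sum_eq_single_of_mem z
        (hf.mem_toFinset.2 ⟨hsub n hz, rfl⟩), indicator_of_mem hz]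
      intro y hy hyz
      exact indicator_of_notMem (fun hy' => hyz (hi n hy' hz (hf.mem_toFinset.1 hy).2)) _
    · rw [bpt6b_zero u hn]
      exact (Finset.sum_eq_zero fun y hy => indicator_of_notMem
        (fun hy' => hn ⟨y, hy', (hf.mem_toFinset.1 hy).2⟩) _).symm
  simp only [h1]
  rw [fsum, finsum_mem_eq_finite_toFinset_sum _ hf]
  refine hasSum_sum fun z hz => ?_
  have hz' := hf.mem_toFinset.1 hz
  have hz2 : z ∈ ⋃ n, S n := by
    refine hU.symm.subset ⟨⟨hz'.1, ?_⟩, ?_⟩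
    · show P z ∈ T
      rwa [show P z = w from hz'.2]
    · show (fderiv ℝ P z).det ≠ 0
      rw [bpt6b_det h hz'.1]
      exact pow_ne_zero _ (norm_ne_zero_iff.2 (hw.2 z hz'.1 hz'.2))
  obtain ⟨n, hn⟩ := mem_iUnion.1 hz2
  have h2 := hasSum_single (f := fun m => (S m).indicator u z) n fun m hm =>
    indicator_of_notMem (fun hm' => disjoint_left.1 (hd hm) hm' hn) _
  rwa [indicator_of_mem hn] at h2

theorem bpt6b_ae (h : Prp Ω Ω' P) {T : Set (E N)} (hT : MeasurableSet T) (hs : T ⊆ Ω') :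
    ∀ᵐ w ∂(volume.restrict T), w ∈ RV Ω Ω' P ∧ w ∈ T := by
  rw [ae_restrict_iff' hT]
  have := measure_eq_zero_iff_ae_notMem.1 h.rv_null
  filter_upwards [this] with w hw hwT
  exact ⟨by_contra fun h' => hw ⟨hs hwT, h'⟩, hwT⟩

theorem bpt6b_lint (h : Prp Ω Ω' P) {T s : Set (E N)} (hs : MeasurableSet s)
    (hΩ : s ⊆ Ω ∩ P ⁻¹' T) (hi : InjOn P s) (u : E N → ℝ≥0∞) :
    ∫⁻ w in T, bpt6b_pc P s u w = ∫⁻ z in s, u z * ENNReal.ofReal (‖(jac P z).det‖ ^ 2) := by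
  have hd := bpt6b_der h (hΩ.trans inter_subset_left)
  have hm : MeasurableSet (P '' s) := measurable_image_of_fderivWithin hs hd hi
  have h1 : bpt6b_pc P s u = (P '' s).indicator (bpt6b_pc P s u) :=
    (indicator_eq_self.2 fun w hw => by_contra fun h' => hw (bpt6b_zero u h')).symm
  rw [h1, lintegral_indicator hm, Measure.restrict_restrict hm,
    inter_eq_left.2 (image_subset_iff.2 (hΩ.trans inter_subset_right)),
    lintegral_image_eq_lintegral_abs_det_fderiv_mul volume hs hd hi]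
  refine setLIntegral_congr_fun hs fun z hz => ?_
  rw [bpt6b_apply hi u hz, bpt6b_det h (hΩ hz).1, abs_of_nonneg (sq_nonneg _), mul_comm]

theorem bpt6b_int (h : Prp Ω Ω' P) {T s : Set (E N)} (hs : MeasurableSet s)
    (hΩ : s ⊆ Ω ∩ P ⁻¹' T) (hi : InjOn P s) (u : E N → ℂ) :
    ∫ w in T, bpt6b_pc P s u w = ∫ z in s, u z * (‖(jac P z).det‖ ^ 2 : ℝ) := by
  have hd := bpt6b_der h (hΩ.trans inter_subset_left)
  have hm : MeasurableSet (P '' s) := measurable_image_of_fderivWithin hs hd hi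
  have h1 : bpt6b_pc P s u = (P '' s).indicator (bpt6b_pc P s u) :=
    (indicator_eq_self.2 fun w hw => by_contra fun h' => hw (bpt6b_zero u h')).symm
  rw [h1, integral_indicator hm, Measure.restrict_restrict hm,
    inter_eq_left.2 (image_subset_iff.2 (hΩ.trans inter_subset_right)),
    integral_image_eq_integral_abs_det_fderiv_smul volume hs hd hi]
  refine setIntegral_congr_fun hs fun z hz => ?_
  rw [bpt6b_apply hi u hz, bpt6b_det h (hΩ hz).1, abs_of_nonneg (sq_nonneg _), mul_comm,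
    Complex.real_smul]

theorem bpt6b_meas {F : Type} [Zero F] [MeasurableSpace F] (h : Prp Ω Ω' P) {s : Set (E N)}
    (hs : MeasurableSet s) (hΩ : s ⊆ Ω) (hi : InjOn P s) {u : E N → F}
    (hu : Measurable (s.domRestrict u)) : Measurable (bpt6b_pc P s u) :=
  (measurableEmbedding_of_fderivWithin hs (bpt6b_der h hΩ) hi).measurable_extend hu
    measurable_const

theorem bpt6b_cut {F : Type} [Zero F] (h : Prp Ω Ω' P) {K : Set (E N)} (hΩ : K ⊆ Ω)
    {g : E N → F} (hg : ∀ z, (jac P z).det = 0 → g z = 0) :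
    (K ∩ {z | (fderiv ℝ P z).det ≠ 0}).indicator g = K.indicator g := by
  ext z
  by_cases hz : z ∈ K
  · by_cases h0 : (fderiv ℝ P z).det = 0
    · rw [indicator_of_mem hz, indicator_of_notMem fun h' => h'.2 h0]
      rw [bpt6b_det h (hΩ hz)] at h0
      exact (hg z (norm_eq_zero.1 (pow_eq_zero_iff two_ne_zero |>.1 h0))).symm
    · rw [indicator_of_mem hz, indicator_of_mem (mem_inter hz h0)]
  · rw [indicator_of_notMem hz, indicator_of_notMem fun h' => hz h'.1]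

theorem Prp.area (h : Prp Ω Ω' P) {u : E N → ℝ≥0∞} (hu : Measurable u) :
    ∫⁻ w in Ω', fsum Ω P u w =
      ∫⁻ z in Ω, u z * ENNReal.ofReal (‖(jac P z).det‖ ^ 2) := by
  have hT := h.isOpen'.measurableSet
  have hK : Ω ∩ P ⁻¹' Ω' = Ω := inter_eq_left.2 h.maps
  obtain ⟨S, hm, hd, hi, hU⟩ := bpt6b_pieces h (bpt6b_pre h hT) inter_subset_left
  have hsub : ∀ n, S n ⊆ Ω ∩ P ⁻¹' Ω' := fun n z hz => (hU.subset (mem_iUnion.2 ⟨n, hz⟩)).1
  have h1 : ∀ᵐ w ∂(volume.restrict Ω'), fsum Ω P u w = ∑' n, bpt6b_pc P (S n) u w :=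
    (bpt6b_ae h hT subset_rfl).mono fun w hw =>
      (bpt6b_hasSum h hd hi hU u hw.1 hw.2).tsum_eq.symm
  rw [lintegral_congr_ae h1, lintegral_tsum fun n => (bpt6b_meas h (hm n)
    ((hsub n).trans inter_subset_left) (hi n) (hu.comp measurable_subtype_coe)).aemeasurable]
  simp only [fun n => bpt6b_lint h (hm n) (hsub n) (hi n) u]
  rw [← lintegral_iUnion hm hd, ← lintegral_indicator (MeasurableSet.iUnion hm), hU, hK,
    bpt6b_cut h subset_rfl fun z hz => by simp [hz], lintegral_indicator h.isOpen.measurableSet]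

theorem Prp.area_c (h : Prp Ω Ω' P) {u : E N → ℂ} (hu : ContinuousOn u Ω) {C : Set (E N)}
    (hC : IsCompact C) (hs : C ⊆ Ω') :
    IntegrableOn (fsum Ω P u) C volume ∧
      ∫ w in C, fsum Ω P u w = ∫ z in Ω ∩ P ⁻¹' C, u z * (‖(jac P z).det‖ ^ 2 : ℝ) := by
  have hT := hC.measurableSet
  have hK := h.proper C hC hs
  obtain ⟨S, hm, hd, hi, hU⟩ := bpt6b_pieces h hK.measurableSet inter_subset_left
  have hsub : ∀ n, S n ⊆ Ω ∩ P ⁻¹' C := fun n z hz => (hU.subset (mem_iUnion.2 ⟨n, hz⟩)).1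
  have h0 := (bpt6b_ae h hT hs).mono fun w hw => bpt6b_hasSum h hd hi hU u hw.1 hw.2
  have h1 : ∀ᵐ w ∂(volume.restrict C), fsum Ω P u w = ∑' n, bpt6b_pc P (S n) u w :=
    h0.mono fun w hw => hw.tsum_eq.symm
  have hmeas : ∀ n, AEStronglyMeasurable (bpt6b_pc P (S n) u) (volume.restrict C) := fun n =>
    (bpt6b_meas h (hm n) ((hsub n).trans inter_subset_left) (hi n)
      (hu.mono ((hsub n).trans inter_subset_left)).domRestrict.measurable).aestronglyMeasurable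
  have hj : ContinuousOn (fun z => (fderiv ℝ P z).det) Ω := by
    have h2 : ContDiffOn ℝ 1 P Ω := contDiffOn_pi.2 fun a =>
      (Lib.SCV.contDiffOn_nat h.isOpen 1 _ (differentiableOn_pi.1 h.hol a)).restrict_scalars ℝ
    exact ContinuousLinearMap.continuous_det.comp_continuousOn
      (h2.continuousOn_fderiv_of_isOpen h.isOpen le_rfl)
  have hc : ContinuousOn (fun z => u z * ((‖(jac P z).det‖ ^ 2 : ℝ) : ℂ)) Ω :=
    hu.mul (Complex.continuous_ofReal.comp_continuousOn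
      (hj.congr fun z hz => (bpt6b_det h hz).symm))
  have hint : IntegrableOn (fun z => u z * ((‖(jac P z).det‖ ^ 2 : ℝ) : ℂ)) (⋃ n, S n) volume :=
    ((hc.mono inter_subset_left).integrableOn_compact hK).mono_set (iUnion_subset hsub)
  have hn : ∀ n w, ‖bpt6b_pc P (S n) u w‖ₑ = bpt6b_pc P (S n) (fun z => ‖u z‖ₑ) w := by
    intro n w
    by_cases hw : w ∈ P '' S n
    · obtain ⟨z, hz, rfl⟩ := hw
      rw [bpt6b_apply (hi n) _ hz, bpt6b_apply (hi n) _ hz]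
    · rw [bpt6b_zero _ hw, bpt6b_zero _ hw, enorm_zero]
  have hfin : ∑' n, ∫⁻ w in C, ‖bpt6b_pc P (S n) u w‖ₑ < ⊤ := by
    simp only [hn, fun n => bpt6b_lint h (hm n) (hsub n) (hi n) fun z => ‖u z‖ₑ]
    rw [← lintegral_iUnion hm hd]
    refine lt_of_eq_of_lt (lintegral_congr fun z => ?_) hint.2
    rw [enorm_mul, ← ofReal_norm ((‖(jac P z).det‖ ^ 2 : ℝ) : ℂ), Complex.norm_real,
      Real.norm_of_nonneg (sq_nonneg _)]
  refine ⟨⟨aestronglyMeasurable_of_tendsto_ae atTop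
    (f := fun k w => ∑ n ∈ Finset.range k, bpt6b_pc P (S n) u w)
    (fun k => Finset.aestronglyMeasurable_fun_sum _ fun n _ => hmeas n)
    (h0.mono fun w hw => hw.tendsto_sum_nat), ?_⟩, ?_⟩
  · refine lt_of_le_of_lt (lintegral_mono_ae (h1.mono fun w hw => ?_))
      (lt_of_eq_of_lt (lintegral_tsum fun n => (hmeas n).enorm) hfin)
    rw [hw]
    exact enorm_tsum_le_tsum_enorm
  · rw [integral_congr_ae h1, integral_tsum hmeas hfin.ne]
    simp only [fun n => bpt6b_int h (hm n) (hsub n) (hi n) u]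
    rw [(hasSum_integral_iUnion hm hd hint).tsum_eq, ← integral_indicator (MeasurableSet.iUnion hm),
      hU, bpt6b_cut h inter_subset_left fun z hz => by simp [hz],
      integral_indicator hK.measurableSet]

end Pool.Agent.BP
end

-- part Pool.Agent.P.MP_63735c_ag.SBD2
section

/-! The area formula on an atlas. -/

open scoped ComplexOrder ContDiff Matrix Topology ENNReal
open Set Metric MeasureTheory Filter

namespace Pool.Agent.BP

open Pool.Agent.SPF Pool.Agent.AB Pool.Agent.CK Pool.Agent.SE Pool.Agent.NL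

section
variable {N : ℕ} {O : Set (E N)} {f : E N → E N}

theorem sbd2_der (hO : IsOpen O) (h : DifferentiableOn ℂ f O) {s : Set (E N)} (hs : s ⊆ O) :
    ∀ z ∈ s, HasFDerivWithinAt f (fderiv ℝ f z) s z := fun _ hz =>
  ((h.differentiableAt (hO.mem_nhds (hs hz))).restrictScalars ℝ).hasFDerivAt
    |>.hasFDerivWithinAt

theorem sbd2_det (hO : IsOpen O) (h : DifferentiableOn ℂ f O) {z : E N} (hz : z ∈ O) :
    (fderiv ℝ f z).det = ‖(jac f z).det‖ ^ 2 :=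
  real_det (h.differentiableAt (hO.mem_nhds hz))

theorem sbd2_pre (hO : IsOpen O) (h : DifferentiableOn ℂ f O) {T : Set (E N)}
    (hT : MeasurableSet T) : MeasurableSet (O ∩ f ⁻¹' T) := by
  have h1 : Measurable (O.domRestrict f) := h.continuousOn.domRestrict.measurable
  have h2 := (MeasurableEmbedding.subtype_coe hO.measurableSet).measurableSet_image.2 (h1 hT)
  have h3 : O ∩ f ⁻¹' T = Subtype.val '' (O.domRestrict f ⁻¹' T) := by
    ext z
    exact ⟨fun hz => ⟨⟨z, hz.1⟩, hz.2, rfl⟩, fun ⟨y, hy, e⟩ => e ▸ ⟨y.2, hy⟩⟩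
  exact h3 ▸ h2

theorem sbd2_pieces (hO : IsOpen O) (h : DifferentiableOn ℂ f O) {K : Set (E N)}
    (hK : MeasurableSet K) (hΩ : K ⊆ O) :
    ∃ S : ℕ → Set (E N), (∀ n, MeasurableSet (S n)) ∧ Pairwise (Function.onFun Disjoint S) ∧
      (∀ n, InjOn f (S n)) ∧ ⋃ n, S n = K ∩ {z | (fderiv ℝ f z).det ≠ 0} := by
  have hr : ∀ A : E N →L[ℝ] E N, ∃ c : NNReal, c ≠ 0 ∧ ∀ hA : A.det ≠ 0, Subsingleton (E N) ∨
      c < ‖((A.toContinuousLinearEquivOfDetNeZero hA).symm : E N →L[ℝ] E N)‖₊⁻¹ := by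
    intro A
    by_cases hA : A.det = 0
    · exact ⟨1, one_ne_zero, fun h' => absurd hA h'⟩
    rcases (A.toContinuousLinearEquivOfDetNeZero hA).subsingleton_or_nnnorm_symm_pos with h1 | h1
    · exact ⟨1, one_ne_zero, fun _ => Or.inl h1⟩
    · have h2 := inv_pos.2 h1
      exact ⟨_, (half_pos h2).ne', fun _ => Or.inr (NNReal.half_lt_self h2.ne')⟩
  choose r hr0 hr using hr
  have hm : MeasurableSet (K ∩ {z | (fderiv ℝ f z).det ≠ 0}) :=
    hK.inter ((ContinuousLinearMap.continuous_det.measurable.comp (measurable_fderiv ℝ f))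
      (measurableSet_singleton 0).compl)
  obtain ⟨t, A, hd, htm, hc, ha, hA⟩ := exists_partition_approximatesLinearOn_of_hasFDerivWithinAt
    f _ (fderiv ℝ f) (sbd2_der hO h (inter_subset_left.trans hΩ :
      K ∩ {z | (fderiv ℝ f z).det ≠ 0} ⊆ O)) r hr0
  refine ⟨fun n => K ∩ {z | (fderiv ℝ f z).det ≠ 0} ∩ t n, fun n => hm.inter (htm n),
    fun i j hij => (hd hij).mono inter_subset_right inter_subset_right, fun n => ?_, ?_⟩
  · rcases (K ∩ {z | (fderiv ℝ f z).det ≠ 0}).eq_empty_or_nonempty with h0 | h0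
    · exact fun z hz => absurd (h0 ▸ hz.1) (notMem_empty z)
    obtain ⟨y, hy, e⟩ := hA h0 n
    have hn : (A n).det ≠ 0 := e ▸ hy.2
    have h1 := ha n
    rw [← (A n).coe_toContinuousLinearEquivOfDetNeZero hn] at h1
    refine ApproximatesLinearOn.injOn h1 ?_
    rw [(A n).coe_toContinuousLinearEquivOfDetNeZero hn]
    exact hr _ hn
  · rw [← inter_iUnion]
    exact inter_eq_left.2 hc

theorem sbd2_lint (hO : IsOpen O) (h : DifferentiableOn ℂ f O) {T s : Set (E N)}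
    (hs : MeasurableSet s) (hΩ : s ⊆ O ∩ f ⁻¹' T) (hi : InjOn f s) (u : E N → ℝ≥0∞) :
    ∫⁻ w in T, bpt6b_pc f s u w = ∫⁻ z in s, u z * ENNReal.ofReal (‖(jac f z).det‖ ^ 2) := by
  have hd := sbd2_der hO h (hΩ.trans inter_subset_left)
  have hm : MeasurableSet (f '' s) := measurable_image_of_fderivWithin hs hd hi
  have h1 : bpt6b_pc f s u = (f '' s).indicator (bpt6b_pc f s u) :=
    (indicator_eq_self.2 fun w hw => by_contra fun h' => hw (bpt6b_zero u h')).symm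
  rw [h1, lintegral_indicator hm, Measure.restrict_restrict hm,
    inter_eq_left.2 (image_subset_iff.2 (hΩ.trans inter_subset_right)),
    lintegral_image_eq_lintegral_abs_det_fderiv_mul volume hs hd hi]
  refine setLIntegral_congr_fun hs fun z hz => ?_
  rw [bpt6b_apply hi u hz, sbd2_det hO h (hΩ hz).1, abs_of_nonneg (sq_nonneg _), mul_comm]

theorem sbd2_int (hO : IsOpen O) (h : DifferentiableOn ℂ f O) {T s : Set (E N)}
    (hs : MeasurableSet s) (hΩ : s ⊆ O ∩ f ⁻¹' T) (hi : InjOn f s) (u : E N → ℂ) :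
    ∫ w in T, bpt6b_pc f s u w = ∫ z in s, u z * (‖(jac f z).det‖ ^ 2 : ℝ) := by
  have hd := sbd2_der hO h (hΩ.trans inter_subset_left)
  have hm : MeasurableSet (f '' s) := measurable_image_of_fderivWithin hs hd hi
  have h1 : bpt6b_pc f s u = (f '' s).indicator (bpt6b_pc f s u) :=
    (indicator_eq_self.2 fun w hw => by_contra fun h' => hw (bpt6b_zero u h')).symm
  rw [h1, integral_indicator hm, Measure.restrict_restrict hm,
    inter_eq_left.2 (image_subset_iff.2 (hΩ.trans inter_subset_right)),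
    integral_image_eq_integral_abs_det_fderiv_smul volume hs hd hi]
  refine setIntegral_congr_fun hs fun z hz => ?_
  rw [bpt6b_apply hi u hz, sbd2_det hO h (hΩ hz).1, abs_of_nonneg (sq_nonneg _), mul_comm,
    Complex.real_smul]

theorem sbd2_meas {F : Type} [Zero F] [MeasurableSpace F] (hO : IsOpen O)
    (h : DifferentiableOn ℂ f O) {s : Set (E N)} (hs : MeasurableSet s) (hΩ : s ⊆ O)
    (hi : InjOn f s) {u : E N → F} (hu : Measurable (s.domRestrict u)) :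
    Measurable (bpt6b_pc f s u) :=
  (measurableEmbedding_of_fderivWithin hs (sbd2_der hO h hΩ) hi).measurable_extend hu
    measurable_const

theorem sbd2_jc (hO : IsOpen O) (h : DifferentiableOn ℂ f O) :
    ContinuousOn (fun z => ‖(jac f z).det‖ ^ 2) O := by
  have h2 : ContDiffOn ℝ 1 f O := contDiffOn_pi.2 fun a =>
    (Lib.SCV.contDiffOn_nat hO 1 _ (differentiableOn_pi.1 h a)).restrict_scalars ℝ
  exact (ContinuousLinearMap.continuous_det.comp_continuousOn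
    (h2.continuousOn_fderiv_of_isOpen hO le_rfl)).congr fun z hz => (sbd2_det hO h hz).symm

end

variable {N : ℕ} {X : Type} [TopologicalSpace X] [T2Space X] [MeasurableSpace X] [BorelSpace X]
  {A : Atlas X N} {Ω : Set X} {Ω' : Set (E N)} {P : X → E N} {μ : Measure X}

omit [T2Space X] in
theorem PrA.pieces (h : PrA A Ω Ω' P) {T : Set (E N)} (hT : MeasurableSet T) :
    ∃ (κ : Type) (_ : Countable κ) (c : κ → A.ι) (S : κ → Set (E N)), (∀ k, MeasurableSet (S k)) ∧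
      (∀ k, S k ⊆ dom A (Ω ∩ P ⁻¹' T) (c k)) ∧
      Pairwise (Function.onFun Disjoint fun k => A.p (c k) '' S k) ∧
      (∀ k, InjOn (fun z => P (A.p (c k) z)) (S k)) ∧
      ⋃ k, A.p (c k) '' S k = Ω ∩ P ⁻¹' T ∩ {x | Reg A P x} := by
  obtain ⟨t, ht, hc⟩ := h.charts
  have := ht.to_subtype
  obtain ⟨e, he⟩ := exists_injective_nat t
  let V : t → Set X := fun i => ⋃ j : t, ⋃ (_ : e j < e i), A.p j '' (A.C j).W
  have hV : ∀ i, IsOpen (V i) := fun i => isOpen_iUnion fun j => isOpen_iUnion fun _ =>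
    A.opn j _ (A.C j).isOpen subset_rfl
  let K : t → Set (E N) := fun i =>
    (dom A Ω i ∩ (fun z => P (A.p i z)) ⁻¹' T) \ dom A (V i) i
  have hK : ∀ i, MeasurableSet (K i) := fun i =>
    (sbd2_pre (dom_open A h.isOpen i) (h.hol i) hT).diff (dom_open A (hV i) i).measurableSet
  choose S hm hd hi hU using fun i : t => sbd2_pieces (dom_open A h.isOpen i) (h.hol i) (hK i)
    fun z hz => hz.1.1
  have hS : ∀ i n, ∀ z ∈ S i n, z ∈ K i ∧ (fderiv ℝ (fun z => P (A.p i z)) z).det ≠ 0 :=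
    fun i n z hz => (hU i).subset (mem_iUnion.2 ⟨n, hz⟩)
  have hlt : ∀ i j n m, e j < e i → Disjoint (A.p i '' S i n) (A.p j '' S j m) := by
    intro i j n m hij
    refine disjoint_left.2 ?_
    rintro _ ⟨z, hz, rfl⟩ ⟨y, hy, hyz⟩
    exact (hS i n z hz).1.2 ⟨(hS i n z hz).1.1.1.1,
      mem_iUnion.2 ⟨j, mem_iUnion.2 ⟨hij, y, (hS j m y hy).1.1.1.1, hyz⟩⟩⟩
  refine ⟨t × ℕ, inferInstance, fun k => k.1, fun k => S k.1 k.2, fun k => hm _ _,
    fun k z hz => ?_, ?_, fun k => hi _ _, ?_⟩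
  · have h1 := (hS _ _ z hz).1.1
    exact ⟨h1.1.1, h1.1.2, h1.2⟩
  · rintro ⟨i, n⟩ ⟨j, m⟩ hne
    rcases lt_trichotomy (e i) (e j) with h1 | h1 | h1
    · exact (hlt j i m n h1).symm
    · obtain rfl := he h1
      refine disjoint_left.2 ?_
      rintro _ ⟨z, hz, rfl⟩ ⟨y, hy, hyz⟩
      obtain rfl := h.inj i (hS i m y hy).1.1.1.1 (hS i n z hz).1.1.1.1 hyz
      exact disjoint_left.1 (hd i fun h2 : n = m => hne (h2 ▸ rfl)) hz hy
    · exact hlt i j n m h1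
  · refine subset_antisymm (iUnion_subset ?_) fun x hx => ?_
    · rintro ⟨i, n⟩ _ ⟨z, hz, rfl⟩
      obtain ⟨h1, h2⟩ := hS i n z hz
      refine ⟨⟨h1.1.1.2, h1.1.2⟩, (reg_iff h.isOpen h.hol h1.1.1).2 fun h0 => h2 ?_⟩
      rw [sbd2_det (dom_open A h.isOpen i) (h.hol i) h1.1.1]
      exact pow_eq_zero_iff two_ne_zero |>.2 (norm_eq_zero.2 h0)
    · obtain ⟨i₀, hi₀, h0⟩ := mem_iUnion₂.1 (hc hx.1.1)
      obtain ⟨i, ⟨z, hz, rfl⟩, hmin⟩ := (InvImage.wf e wellFounded_lt).has_min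
        {i : t | x ∈ A.p i '' (A.C i).W} ⟨⟨i₀, hi₀⟩, h0⟩
      have h1 : z ∈ ⋃ n, S i n := by
        refine (hU i).symm.subset ⟨⟨⟨⟨hz, hx.1.1⟩, hx.1.2⟩, fun h2 => ?_⟩, ?_⟩
        · obtain ⟨j, hj⟩ := mem_iUnion.1 h2.2
          obtain ⟨hj1, hj2⟩ := mem_iUnion.1 hj
          exact hmin j hj2 hj1
        · show (fderiv ℝ (fun z => P (A.p i z)) z).det ≠ 0
          rw [sbd2_det (dom_open A h.isOpen i) (h.hol i) ⟨hz, hx.1.1⟩]
          exact pow_ne_zero _ (norm_ne_zero_iff.2 (hx.2 i z hz rfl))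
      obtain ⟨n, hn⟩ := mem_iUnion.1 h1
      exact mem_iUnion.2 ⟨(i, n), z, hn, rfl⟩

theorem PrA.ae (h : PrA A Ω Ω' P) {T : Set (E N)} (hT : MeasurableSet T) (hs : T ⊆ Ω') :
    ∀ᵐ w ∂(volume.restrict T), w ∈ RVA A Ω Ω' P ∧ w ∈ T := by
  rw [ae_restrict_iff' hT]
  have := measure_eq_zero_iff_ae_notMem.1 h.rv_null
  filter_upwards [this] with w hw hwT
  exact ⟨by_contra fun h' => hw ⟨hs hwT, h'⟩, hwT⟩

omit [MeasurableSpace X] [BorelSpace X] in
theorem sbd2_hasSum {F : Type} [AddCommMonoid F] [TopologicalSpace F] [ContinuousAdd F]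
    (h : PrA A Ω Ω' P) {T : Set (E N)} {κ : Type} {c : κ → A.ι} {S : κ → Set (E N)}
    (hd : Pairwise (Function.onFun Disjoint fun k => A.p (c k) '' S k))
    (hi : ∀ k, InjOn (fun z => P (A.p (c k) z)) (S k))
    (hU : ⋃ k, A.p (c k) '' S k = Ω ∩ P ⁻¹' T ∩ {x | Reg A P x}) (u : X → F) {w : E N}
    (hw : w ∈ RVA A Ω Ω' P) (hT : w ∈ T) :
    HasSum (fun k => bpt6b_pc (fun z => P (A.p (c k) z)) (S k) (fun z => u (A.p (c k) z)) w)
      (fsA Ω P u w) := by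
  classical
  obtain ⟨d, O, c', q, -, hO, -, -, hq⟩ := h.sheets hw
  have hf : (Ω ∩ P ⁻¹' {w}).Finite := (hq w hO).2.2 ▸ finite_range _
  have hsub : ∀ k, A.p (c k) '' S k ⊆ Ω := fun k z hz => (hU.subset (mem_iUnion.2 ⟨k, hz⟩)).1.1
  have h1 : ∀ k, bpt6b_pc (fun z => P (A.p (c k) z)) (S k) (fun z => u (A.p (c k) z)) w =
      ∑ x ∈ hf.toFinset, (A.p (c k) '' S k).indicator u x := by
    intro k
    by_cases hn : w ∈ (fun z => P (A.p (c k) z)) '' S k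
    · obtain ⟨z, hz, rfl⟩ := hn
      rw [bpt6b_apply (hi k) _ hz, Finset.sum_eq_single_of_mem (A.p (c k) z)
        (hf.mem_toFinset.2 ⟨hsub k ⟨z, hz, rfl⟩, rfl⟩), indicator_of_mem (mem_image_of_mem _ hz)]
      intro y hy hyz
      refine indicator_of_notMem ?_ _
      rintro ⟨y', hy', rfl⟩
      exact hyz (congrArg _ (hi k hy' hz (hf.mem_toFinset.1 hy).2))
    · rw [bpt6b_zero _ hn]
      refine (Finset.sum_eq_zero fun y hy => indicator_of_notMem ?_ _).symm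
      rintro ⟨y', hy', rfl⟩
      exact hn ⟨y', hy', (hf.mem_toFinset.1 hy).2⟩
  simp only [h1]
  rw [fsA, finsum_mem_eq_finite_toFinset_sum _ hf]
  refine hasSum_sum fun x hx => ?_
  have hx' := hf.mem_toFinset.1 hx
  have hx2 : x ∈ ⋃ k, A.p (c k) '' S k := by
    refine hU.symm.subset ⟨⟨hx'.1, ?_⟩, hw.2 x hx'.1 hx'.2⟩
    show P x ∈ T
    rwa [show P x = w from hx'.2]
  obtain ⟨n, hn⟩ := mem_iUnion.1 hx2
  have h2 := hasSum_single (f := fun m => (A.p (c m) '' S m).indicator u x) n fun m hm =>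
    indicator_of_notMem (fun hm' => disjoint_left.1 (hd hm) hm' hn) _
  rwa [indicator_of_mem hn] at h2

omit [T2Space X] in
theorem sbd2_img (hinj : ∀ i, InjOn (A.p i) (A.C i).W) {i : A.ι} {S : Set (E N)}
    (hS : MeasurableSet S) (h : S ⊆ (A.C i).W) : MeasurableSet (A.p i '' S) :=
  Man.meas_img (D := man A hinj isOpen_univ) (i := i) hS fun _ hz => ⟨h hz, mem_univ _⟩

omit [T2Space X] in
theorem sbd2_vol (hinj : ∀ i, InjOn (A.p i) (A.C i).W) (hμ : IsVolume A μ)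
    {i : A.ι} {S : Set (E N)} (hS : MeasurableSet S) (h : S ⊆ (A.C i).W) (f : X → ℂ) :
    ∫ y in A.p i '' S, f y ∂μ = ∫ z in S, ‖((A.C i).σ z).det‖ • f (A.p i z) := by
  have hw : ∀ i, ∀ z ∈ (A.C i).W,
      wt (fun z => -Real.log ‖((A.C i).σ z).det‖) z = ‖((A.C i).σ z).det‖ := fun i z hz => by
    rw [wt, neg_neg, Real.exp_log (norm_pos_iff.2 ((A.C i).σ_det z hz))]
  have hd : (man A hinj isOpen_univ).Den μ fun i z => -Real.log ‖((A.C i).σ z).det‖ := by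
    intro i S hS hm
    refine (hμ i S (hS.trans inter_subset_left) hm).trans
      (setLIntegral_congr_fun hm fun z hz => ?_)
    rw [hw i z (hS hz).1, ofReal_norm]
  refine (hd.int (i := i) ((((bpe0_det i).log fun z hz => norm_ne_zero_iff.2
    ((A.C i).σ_det z hz)).neg).mono inter_subset_left) hS (fun z hz => ⟨h hz, trivial⟩) f).trans
    (setIntegral_congr_fun hS fun z hz => ?_)
  simp only [hw i z (h hz)]
  rfl

theorem PrA.area_le (h : PrA A Ω Ω' P) (hμ : IsVolume A μ) {S : Set (E N)} (hS : MeasurableSet S)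
    (hs : S ⊆ Ω') {u G : X → ℝ≥0∞} {u' : A.ι → E N → ℝ≥0∞} (hu : ∀ i, Measurable (u' i))
    (he : ∀ i, ∀ z ∈ dom A Ω i, (Jg A P i z).det ≠ 0 → u (A.p i z) = u' i z ∧
      ‖(Jg A P i z).det‖ₑ ^ 2 * u' i z ≤ ‖((A.C i).σ z).det‖ₑ * G (A.p i z)) :
    ∫⁻ w in S, fsA Ω P u w ≤ ∫⁻ x in Ω ∩ P ⁻¹' S, G x ∂μ := by
  obtain ⟨κ, hκ, c, T, hm, hsub, hd, hi, hU⟩ := h.pieces hS
  have hD : ∀ k, T k ⊆ dom A Ω (c k) ∩ (fun z => P (A.p (c k) z)) ⁻¹' S := fun k z hz =>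
    ⟨⟨(hsub k hz).1, (hsub k hz).2.1⟩, (hsub k hz).2.2⟩
  have hr : ∀ k, ∀ z ∈ T k, (Jg A P (c k) z).det ≠ 0 := fun k z hz =>
    (hU.subset (mem_iUnion.2 ⟨k, z, hz, rfl⟩)).2 _ z (hsub k hz).1 rfl
  have hpc : ∀ k, bpt6b_pc (fun z => P (A.p (c k) z)) (T k) (fun z => u (A.p (c k) z)) =
      bpt6b_pc (fun z => P (A.p (c k) z)) (T k) (u' (c k)) := fun k => by
    have : (T k).domRestrict (fun z => u (A.p (c k) z)) = (T k).domRestrict (u' (c k)) :=
      funext fun z => (he _ z (hD k z.2).1 (hr k z z.2)).1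
    rw [bpt6b_pc, bpt6b_pc, this]
  have h1 : ∀ᵐ w ∂(volume.restrict S), fsA Ω P u w =
      ∑' k, bpt6b_pc (fun z => P (A.p (c k) z)) (T k) (u' (c k)) w :=
    (h.ae hS hs).mono fun w hw => by
      simpa only [hpc] using (sbd2_hasSum h hd hi hU u hw.1 hw.2).tsum_eq.symm
  rw [lintegral_congr_ae h1, lintegral_tsum fun k => (sbd2_meas (dom_open A h.isOpen _) (h.hol _)
    (hm k) ((hD k).trans inter_subset_left) (hi k)
    ((hu _).comp measurable_subtype_coe)).aemeasurable]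
  refine le_trans (ENNReal.tsum_le_tsum fun k => ?_) ((lintegral_iUnion (fun k =>
    sbd2_img h.inj (hm k) fun z hz => (hsub k hz).1) hd G).ge.trans
      (lintegral_mono_set (hU.subset.trans inter_subset_left)))
  rw [sbd2_lint (dom_open A h.isOpen _) (h.hol _) (hm k) (hD k) (hi k),
    vol_lint h.inj hμ (hm k) fun z hz => (hsub k hz).1]
  refine setLIntegral_mono' (hm k) fun z hz => ?_
  rw [ENNReal.ofReal_pow (norm_nonneg _), ofReal_norm, ofReal_norm, mul_comm]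
  exact (he _ z (hD k hz).1 (hr k z hz)).2

omit [T2Space X] [MeasurableSpace X] [BorelSpace X] in
theorem exists_den (hinj : ∀ i, InjOn (A.p i) (A.C i).W) (hΩ : IsOpen Ω) (h : HolV A Ω P) :
    ∃ δ : X → ℝ, ContinuousOn δ Ω ∧ ∀ i, ∀ z ∈ dom A Ω i,
      ‖(Jg A P i z).det‖ ^ 2 = ‖((A.C i).σ z).det‖ * δ (A.p i z) := by
  choose c z₀ hz₀ hp using A.cover
  have key : ∀ i, ∀ z ∈ dom A Ω i, ‖(Jg A P i z).det‖ ^ 2 = ‖((A.C i).σ z).det‖ *
      (‖(Jg A P (c (A.p i z)) (z₀ (A.p i z))).det‖ ^ 2 /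
        ‖((A.C (c (A.p i z))).σ (z₀ (A.p i z))).det‖) := by
    intro i z hz
    obtain ⟨O, φ, h1, h2, h3, h4⟩ := A.trans i _ z hz.1 _ (hz₀ (A.p i z)) (hp _).symm
    have h5 := norm_ne_zero_iff.2 ((A.C _).σ_det _ (hz₀ (A.p i z)))
    rw [h.jg hΩ h1 h4 h2 hz.2, h1.σ_eq z h2, h3]
    simp only [Matrix.det_mul, Matrix.det_transpose, norm_mul]
    field_simp
  refine ⟨fun x => ‖(Jg A P (c x) (z₀ x)).det‖ ^ 2 / ‖((A.C (c x)).σ (z₀ x)).det‖,
    fun x hx => ContinuousAt.continuousWithinAt fun V hV => ?_, key⟩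
  have h0 : z₀ x ∈ dom A Ω (c x) := ⟨hz₀ x, by rwa [mem_preimage, hp]⟩
  have h1 := ((sbd2_jc (dom_open A hΩ _) (h (c x))).div ((bpe0_det (c x)).mono inter_subset_left)
    fun z hz => norm_ne_zero_iff.2 ((A.C _).σ_det z hz.1)).continuousAt
      ((dom_open A hΩ _).mem_nhds h0)
  obtain ⟨O, hO, ho, hz⟩ := _root_.mem_nhds_iff.1 (inter_mem (h1 hV) ((dom_open A hΩ _).mem_nhds h0))
  refine mem_map.2 (_root_.mem_nhds_iff.2 ⟨A.p (c x) '' O, ?_, A.opn _ O ho fun z hz => (hO hz).2.1,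
    z₀ x, hz, hp x⟩)
  rintro _ ⟨z, hz, rfl⟩
  have h2 := (hO hz).1
  have h3 := norm_ne_zero_iff.2 ((A.C _).σ_det z (hO hz).2.1)
  have h4 := key _ z (hO hz).2
  rw [mem_preimage, ← mul_div_cancel_left₀ (_ / _) h3, ← h4]
  exact h2

theorem PrA.area_c (h : PrA A Ω Ω' P) (hμ : IsVolume A μ) [IsFiniteMeasure μ] {δ : X → ℝ}
    (hδ : ContinuousOn δ Ω) (he : ∀ i, ∀ z ∈ dom A Ω i,
      ‖(Jg A P i z).det‖ ^ 2 = ‖((A.C i).σ z).det‖ * δ (A.p i z)) {u : X → ℂ}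
    (hu : ContinuousOn u Ω) {C : Set (E N)} (hC : IsCompact C) (hs : C ⊆ Ω') :
    IntegrableOn (fsA Ω P u) C volume ∧
      ∫ w in C, fsA Ω P u w = ∫ x in Ω ∩ P ⁻¹' C, u x * δ x ∂μ := by
  classical
  have hT := hC.measurableSet
  have hK := h.proper C hC hs
  obtain ⟨κ, hκ, c, T, hm, hsub, hd, hi, hU⟩ := h.pieces hT
  have hD : ∀ k, T k ⊆ dom A Ω (c k) ∩ (fun z => P (A.p (c k) z)) ⁻¹' C := fun k z hz =>
    ⟨⟨(hsub k hz).1, (hsub k hz).2.1⟩, (hsub k hz).2.2⟩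
  have hW : ∀ k, T k ⊆ (A.C (c k)).W := fun k z hz => (hsub k hz).1
  have himg := fun k => sbd2_img h.inj (hm k) (hW k)
  have h0 := (h.ae hT hs).mono fun w hw => sbd2_hasSum h hd hi hU u hw.1 hw.2
  have h1 := h0.mono fun w hw => hw.tsum_eq.symm
  have hmeas : ∀ k, AEStronglyMeasurable (bpt6b_pc (fun z => P (A.p (c k) z)) (T k)
      fun z => u (A.p (c k) z)) (volume.restrict C) := fun k =>
    (sbd2_meas (dom_open A h.isOpen _) (h.hol _) (hm k) ((hD k).trans inter_subset_left) (hi k)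
      (hu.comp ((A.cont _).mono (hW k)) fun z hz =>
        (hD k hz).1.2).domRestrict.measurable).aestronglyMeasurable
  have hint : IntegrableOn (fun x => u x * δ x) (⋃ k, A.p (c k) '' T k) μ :=
    (((hu.mul (Complex.continuous_ofReal.comp_continuousOn hδ)).mono
      inter_subset_left).integrableOn_compact hK).mono_set (hU.subset.trans inter_subset_left)
  have key : ∀ k, ∀ z ∈ T k, u (A.p (c k) z) *
      (‖(jac (fun z => P (A.p (c k) z)) z).det‖ ^ 2 : ℝ) =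
      ‖((A.C (c k)).σ z).det‖ • (u (A.p (c k) z) * δ (A.p (c k) z)) := fun k z hz => by
    have h2 := he _ z (hD k hz).1
    rw [Jg] at h2
    rw [h2, Complex.real_smul, Complex.ofReal_mul]
    ring
  have hn : ∀ k w, ‖bpt6b_pc (fun z => P (A.p (c k) z)) (T k) (fun z => u (A.p (c k) z)) w‖ₑ =
      bpt6b_pc (fun z => P (A.p (c k) z)) (T k) (fun z => ‖u (A.p (c k) z)‖ₑ) w := by
    intro k w
    by_cases hw : w ∈ (fun z => P (A.p (c k) z)) '' T k
    · obtain ⟨z, hz, rfl⟩ := hw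
      rw [bpt6b_apply (hi k) _ hz, bpt6b_apply (hi k) _ hz]
    · rw [bpt6b_zero _ hw, bpt6b_zero _ hw, enorm_zero]
  have hfin : ∑' k, ∫⁻ w in C, ‖bpt6b_pc (fun z => P (A.p (c k) z)) (T k)
      (fun z => u (A.p (c k) z)) w‖ₑ < ⊤ := by
    refine lt_of_eq_of_lt ((tsum_congr fun k => ?_).trans
      (lintegral_iUnion himg hd _).symm) hint.2
    simp only [hn]
    rw [sbd2_lint (dom_open A h.isOpen _) (h.hol _) (hm k) (hD k) (hi k),
      vol_lint h.inj hμ (hm k) (hW k)]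
    refine setLIntegral_congr_fun (hm k) fun z hz => ?_
    have h2 := congrArg (fun y : ℂ => ‖y‖ₑ) (key k z hz)
    simp only [enorm_smul, Real.enorm_of_nonneg (norm_nonneg _)] at h2
    rw [← h2, enorm_mul, ← ofReal_norm ((_ : ℝ) : ℂ), Complex.norm_real,
      Real.norm_of_nonneg (sq_nonneg _)]
  refine ⟨⟨aestronglyMeasurable_of_tendsto_ae (atTop : Filter (Finset κ))
    (f := fun s w => ∑ k ∈ s, bpt6b_pc (fun z => P (A.p (c k) z)) (T k)
      (fun z => u (A.p (c k) z)) w)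
    (fun s => Finset.aestronglyMeasurable_fun_sum _ fun n _ => hmeas n)
    (h0.mono fun w hw => hw), ?_⟩, ?_⟩
  · refine lt_of_le_of_lt (lintegral_mono_ae (h1.mono fun w hw => ?_))
      (lt_of_eq_of_lt (lintegral_tsum fun n => (hmeas n).enorm) hfin)
    rw [hw]
    exact enorm_tsum_le_tsum_enorm
  · rw [integral_congr_ae h1, integral_tsum hmeas hfin.ne,
      setIntegral_eq_of_subset_of_forall_sdiff_eq_zero hK.measurableSet
        (hU.subset.trans inter_subset_left) fun x hx => ?_,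
      ← (hasSum_integral_iUnion himg hd hint).tsum_eq]
    · refine tsum_congr fun k => ?_
      rw [sbd2_int (dom_open A h.isOpen _) (h.hol _) (hm k) (hD k) (hi k),
        sbd2_vol h.inj hμ (hm k) (hW k)]
      exact setIntegral_congr_fun (hm k) (key k)
    · obtain ⟨i, z, hz, rfl⟩ := A.cover x
      have h2 : (Jg A P i z).det = 0 := by_contra fun h3 => hx.2 (hU.symm.subset
        ⟨hx.1, (reg_iff h.isOpen h.hol ⟨hz, hx.1.1⟩).2 h3⟩)
      have h3 := he i z ⟨hz, hx.1.1⟩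
      rw [h2, norm_zero, zero_pow two_ne_zero, zero_eq_mul] at h3
      rw [h3.resolve_left (norm_ne_zero_iff.2 ((A.C i).σ_det z hz)), Complex.ofReal_zero, mul_zero]

end Pool.Agent.BP
end

-- part Pool.Agent.P.MP_63735c_ag.SBD3a
section

/-! The theorem of Stokes for compact support on an atlas. -/

open scoped ComplexOrder ContDiff Matrix Topology ENNReal
open Set Metric MeasureTheory Filter

namespace Pool.Agent.BP

open Pool.Agent.SPF Pool.Agent.AB Pool.Agent.CK Pool.Agent.SE Pool.Agent.NL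

variable {N : ℕ} {X : Type} [TopologicalSpace X] [T2Space X] [MeasurableSpace X] [BorelSpace X]
  {A : Atlas X N} {Ω : Set X} {Ω' : Set (E N)} {P : X → E N} {μ : Measure X}

theorem stokesA (hinj : ∀ i, InjOn (A.p i) (A.C i).W) (hμ : IsVolume A μ) [IsFiniteMeasure μ]
    (hΩ : IsOpen Ω) {C : Set X} (hC : IsCompact C) (hs : C ⊆ Ω) {Y : A.ι → E N → E N}
    (hY : ∀ i, ContDiffOn ℝ ∞ (Y i) (dom A Ω i))
    (h0 : ∀ i, ∀ z ∈ dom A Ω i, A.p i z ∉ C → Y i z = 0)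
    (hc : ∀ i k O φ, IsChange (A.C i) (A.C k) O φ → (∀ w ∈ O, A.p k (φ w) = A.p i w) →
      ∀ z ∈ O, A.p i z ∈ Ω →
        (jac φ z).map star *ᵥ Y i z = ((‖(jac φ z).det‖ ^ 2 : ℝ) : ℂ) • Y k (φ z))
    {G : X → ℂ} (hG : ∀ i, ∀ z ∈ dom A Ω i,
      ∑ b, dzb b (fun w => Y i w b) z = (‖((A.C i).σ z).det‖ : ℝ) * G (A.p i z)) :
    ∫ x in C, G x ∂μ = 0 := by
  have h1 := ZB.dens_zero hinj hμ hΩ hC hs (V := fun i z => star (Y i z)) (u := fun x => star (G x))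
    (fun i => contDiffOn_pi.2 fun b => reg_star (contDiffOn_pi.1 (hY i) b))
    (fun i k O φ a1 a2 z hz hx => ?_) (fun i z hz hx => by rw [h0 i z hz hx, star_zero])
    fun i z hz => ?_
  · have h2 : ∫ x in Ω, G x ∂μ = 0 := by
      have h3 := integral_conj (𝕜 := ℂ) (μ := μ.restrict Ω) (f := G)
      exact star_eq_zero.1 (h3.symm.trans h1)
    rw [← h2]
    refine (setIntegral_eq_of_subset_of_forall_sdiff_eq_zero hΩ.measurableSet hs ?_).symm
    rintro x ⟨hx, hx'⟩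
    obtain ⟨i, z, hz, rfl⟩ := A.cover x
    have h4 := hG i z ⟨hz, hx⟩
    rw [Finset.sum_eq_zero fun b _ => (dz_zero_off (dom_open A hΩ i)
      (C := (dom A (Ω \ C) i)ᶜ) (dom_open A (hΩ.sdiff hC.isClosed) i).isClosed_compl
      (fun w hw hw' => by rw [h0 i w hw (not_not.1 hw').2.2, Pi.zero_apply]) b z ⟨hz, hx⟩
      (not_not.2 ⟨hz, hx, hx'⟩)).2] at h4
    exact (mul_eq_zero.1 h4.symm).resolve_left
      (Complex.ofReal_ne_zero.2 (norm_ne_zero_iff.2 ((A.C i).σ_det z hz)))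
  · have h2 := congrArg star (hc i k O φ a1 a2 z hz hx)
    rw [star_smul, Complex.star_def, Complex.conj_ofReal] at h2
    rw [← h2]
    funext a
    simp [Matrix.mulVec, dotProduct]
  · have h2 := congrArg star (hG i z hz)
    rw [star_mul', Complex.star_def, Complex.conj_ofReal, ← Complex.star_def, star_sum] at h2
    rw [← h2]
    exact Finset.sum_congr rfl fun b _ => (star_dz _ z b).2

end Pool.Agent.BP
end

-- part Pool.Agent.P.MP_63735c_ag.BPT6c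
section

/-! The trace of a holomorphic function. -/

open scoped ComplexOrder ContDiff Matrix Topology ENNReal
open Set Metric MeasureTheory Filter

namespace Pool.Agent.BP

open Pool.Agent.SPF Pool.Agent.AB Pool.Agent.CK Pool.Agent.SE Pool.Agent.NL

variable {N : ℕ} {Ω Ω' : Set (E N)} {P : E N → E N}

theorem bpt6c_sum {F : Type} [AddCommMonoid F] {d : ℕ} {q : Fin d → E N} {y : E N}
    (hi : Function.Injective q) (e : Ω ∩ P ⁻¹' {y} = range q) (u : E N → F) :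
    fsum Ω P u y = ∑ l, u (q l) := by
  rw [fsum, e, finsum_mem_range hi, finsum_eq_sum_of_fintype]

theorem bpt6c_smooth {u : E N → ℂ} (hΩ : IsOpen Ω) (hu : DifferentiableOn ℂ u Ω) :
    ContDiffOn ℝ ∞ u Ω :=
  (Lib.SCV.contDiffOn_of_differentiableOn hΩ hu).restrict_scalars ℝ

theorem bpt6c_det (hΩ : IsOpen Ω) (hP : DifferentiableOn ℂ P Ω) :
    DifferentiableOn ℂ (fun z => (jac P z).det) Ω := by
  simp only [Matrix.det_apply']
  refine DifferentiableOn.fun_sum fun s _ => (differentiableOn_const _).mul ?_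
  exact ((contDiffOn_prod fun a _ => Lib.SCV.contDiffOn_of_differentiableOn hΩ
    (jac_hol hΩ hP (s a) a)).differentiableOn (by simp))

theorem bpt6c_jac (φ : E N → E N) (z v : E N) : jac φ z *ᵥ v = fderiv ℂ φ z v := by
  have hv : v = ∑ a, v a • (Pi.single a 1 : E N) := by
    ext b
    simp [Finset.sum_apply, Pi.single_apply]
  conv_rhs => rw [hv, map_sum]
  ext c
  simp [jac, Matrix.mulVec, dotProduct, Finset.sum_apply, mul_comm]

theorem bpt6c_piola (hΩ : IsOpen Ω) (hP : DifferentiableOn ℂ P Ω) {z : E N} (hz : z ∈ Ω)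
    (a : Fin N) : ∑ b, dz b (fun w => (jac P w).adjugate b a) z = 0 := by
  have hs := smooth_of_hol hΩ hP
  have e : ∀ c b, (fun w => (jac P w)ᵀ c b) =ᶠ[𝓝 z] dz c fun w => P w b := by
    intro c b
    filter_upwards [hΩ.mem_nhds hz] with w hw
    have h1 := hP.differentiableAt (hΩ.mem_nhds hw)
    rw [(dz_of_diff (differentiableAt_pi.1 h1 b) c).1, (hasFDerivAt_pi'.1 h1.hasFDerivAt b).fderiv]
    rfl
  have := piola_d (M := fun w => (jac P w)ᵀ) (z := z)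
    (fun c b => diffAt hΩ (bpt6c_smooth hΩ (jac_hol hΩ hP b c)) hz)
    (fun c b c' => by
      rw [(dz_congr (e c b) c').eq_of_nhds, (dz_congr (e c' b) c).eq_of_nhds]
      exact (ablev_comm ((contDiffOn_pi.1 hs b).contDiffAt (hΩ.mem_nhds hz)) c' c).2) a
  simpa only [← Matrix.adjugate_transpose, Matrix.transpose_apply] using this

theorem bpt6c_weak (h : Prp Ω Ω' P) {u : E N → ℂ} (hu : DifferentiableOn ℂ u Ω) {B : Set (E N)}
    (hB : IsOpen B) (hs : B ⊆ Ω') {r : E N → ℂ} (hr : Tst B r) (a : Fin N) :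
    ∫ y in B, fsum Ω P u y * dzb a r y = 0 := by
  have hΩ := h.isOpen
  have hC : IsCompact (tsupport r) := hr.cpt
  have hK := h.proper _ hC (hr.sub.trans hs)
  have r0 : ∀ z ∈ (univ : Set (E N)), z ∉ tsupport r → r z = 0 :=
    fun z _ hz => image_eq_zero_of_notMem_tsupport hz
  have d0 : ∀ z, z ∉ tsupport r → dzb a r z = 0 := fun z hz =>
    (dz_zero_off isOpen_univ (isClosed_tsupport r) r0 a z trivial hz).2
  have hPs := smooth_of_hol hΩ h.hol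
  have hus := bpt6c_smooth hΩ hu
  have hdh := bpt6c_det hΩ h.hol
  have hds := bpt6c_smooth hΩ hdh
  have hrs : ContDiffOn ℝ ∞ (fun z => r (P z)) Ω := hr.smooth.comp_contDiffOn hPs
  have hdr : ContDiffOn ℝ ∞ (dzb a r) univ := (dz_smooth isOpen_univ hr.smooth.contDiffOn a).2
  have hc : ContinuousOn (fun z => u z * dzb a r (P z)) Ω :=
    hus.continuousOn.mul (hdr.continuousOn.comp hPs.continuousOn (mapsTo_univ _ _))
  have has : ∀ b, ContDiffOn ℝ ∞ (fun w => (jac P w).adjugate b a) Ω := fun b =>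
    adj_smooth (fun c e => bpt6c_smooth hΩ (jac_hol hΩ h.hol c e)) b a
  have hF : ∀ b, ContDiffOn ℝ ∞
      (fun z => u z * (jac P z).det * (star ((jac P z).adjugate b a) * r (P z))) Ω := fun b =>
    (hus.mul hds).mul ((abint_star (has b)).mul hrs)
  have hF0 : ∀ b, ∀ z ∈ Ω, z ∉ Ω ∩ P ⁻¹' tsupport r →
      u z * (jac P z).det * (star ((jac P z).adjugate b a) * r (P z)) = 0 := fun b z hz hz' => by
    rw [r0 _ trivial fun h1 => hz' ⟨hz, h1⟩, mul_zero, mul_zero]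
  have hpt : ∀ z ∈ Ω, u z * dzb a r (P z) * (‖(jac P z).det‖ ^ 2 : ℝ) =
      ∑ b, dzb b (fun z => u z * (jac P z).det *
        (star ((jac P z).adjugate b a) * r (P z))) z := by
    intro z hz
    have hn := hΩ.mem_nhds hz
    have e : ∀ b, dzb b (fun z => u z * (jac P z).det *
        (star ((jac P z).adjugate b a) * r (P z))) z = u z * (jac P z).det *
          (star (dz b (fun w => (jac P w).adjugate b a) z) * r (P z) +
            ∑ c, star (jac P z c b * (jac P z).adjugate b a) * dzb c r (P z)) := by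
      intro b
      rw [(dz_mul (diffAt hΩ (hus.mul hds) hz) (diffAt hΩ ((abint_star (has b)).mul hrs) hz) b).2,
        (dz_of_diff ((hu.fun_mul hdh).differentiableAt hn) b).2, zero_mul, zero_add,
        (dz_mul (diffAt hΩ (abint_star (has b)) hz) (diffAt hΩ hrs hz) b).2, ← (star_dz _ z b).1,
        (dz_comp (hr.smooth.differentiable (by simp) _) (h.hol.differentiableAt hn) b).2,
        Finset.mul_sum]
      congr 2
      exact Finset.sum_congr rfl fun c _ => by rw [star_mul, mul_assoc]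
    have e2 : ∀ c, ∑ b, star (jac P z c b * (jac P z).adjugate b a) * dzb c r (P z) =
        if c = a then star (jac P z).det * dzb c r (P z) else 0 := by
      intro c
      rw [← Finset.sum_mul, ← star_sum, ← Matrix.mul_apply, Matrix.mul_adjugate, Matrix.smul_apply,
        Matrix.one_apply]
      split_ifs <;> simp
    simp only [e, ← Finset.mul_sum, Finset.sum_add_distrib]
    rw [← Finset.sum_mul, ← star_sum, bpt6c_piola hΩ h.hol hz, star_zero, zero_mul, zero_add,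
      Finset.sum_comm]
    simp only [e2, Finset.sum_ite_eq', Finset.mem_univ, if_true]
    rw [Complex.ofReal_pow, ← Complex.mul_conj']
    simp only [Complex.star_def]
    ring
  rw [int_eq_cpt hB hC hr.sub fun z _ hz => by rw [d0 z hz, mul_zero]]
  have e1 : ∀ y, fsum Ω P u y * dzb a r y = fsum Ω P (fun z => u z * dzb a r (P z)) y := by
    intro y
    rw [fsum, fsum, finsum_mem_mul]
    exact finsum_mem_congr rfl fun z hz => by rw [show P z = y from hz.2]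
  simp only [e1]
  rw [(h.area_c hc hC (hr.sub.trans hs)).2,
    ← int_eq_cpt hΩ hK inter_subset_left fun z hz hz' => by
      rw [d0 _ fun h1 => hz' ⟨hz, h1⟩, mul_zero, zero_mul],
    setIntegral_congr_fun hΩ.measurableSet hpt, integral_finsetSum]
  · exact Finset.sum_eq_zero fun b _ => (int_dz hΩ hK inter_subset_left (hF b) (hF0 b) b).2
  · exact fun b _ => intOn hΩ hK inter_subset_left (dz_smooth hΩ (hF b) b).2.continuousOn
      fun z hz hz' => (dz_zero_off hΩ hK.isClosed (hF0 b) b z hz hz').2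

theorem bpt6c_loc (h : Prp Ω Ω' P) {u : E N → ℂ} (hu : DifferentiableOn ℂ u Ω) {w : E N}
    (hw : w ∈ RV Ω Ω' P) : ∃ O, IsOpen O ∧ w ∈ O ∧ DifferentiableOn ℂ (fsum Ω P u) O := by
  obtain ⟨d, O, q, h1, h2, -, h4, h5⟩ := h.sheets hw
  refine ⟨O, h1, h2, DifferentiableOn.congr (f := fun y => ∑ l, u (q l y))
    (DifferentiableOn.fun_sum fun l _ => hu.comp (h4 l) fun y hy => ?_)
    fun y hy => bpt6c_sum (h5 y hy).1 (h5 y hy).2 u⟩
  exact ((h5 y hy).2.symm.subset ⟨l, rfl⟩).1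

theorem Prp.trace (h : Prp Ω Ω' P) {u : E N → ℂ} (hu : DifferentiableOn ℂ u Ω) :
    ∃ t : E N → ℂ, DifferentiableOn ℂ t Ω' ∧ EqOn t (fsum Ω P u) (RV Ω Ω' P) := by
  have ex : ∀ w, ∃ (R : ℝ) (g : E N → ℂ), w ∈ Ω' → 0 < R ∧ ball w R ⊆ Ω' ∧
      DifferentiableOn ℂ g (ball w R) ∧ g =ᵐ[volume.restrict (ball w R)] fsum Ω P u := by
    intro w
    by_cases hw : w ∈ Ω'
    swap
    · exact ⟨0, 0, fun h1 => absurd h1 hw⟩
    obtain ⟨ε, hε, h1⟩ := nhds_basis_closedBall.mem_iff.1 (h.isOpen'.mem_nhds hw)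
    have e : 2 * (ε / 2) = ε := by ring
    obtain ⟨g, h2, h3⟩ := weyl (f := fsum Ω P u) (z := w) (half_pos hε)
      (by
        rw [e]
        exact (h.area_c hu.continuousOn (isCompact_closedBall w ε) h1).1.mono_set
          ball_subset_closedBall)
      (by
        rw [e]
        exact fun r hr a => bpt6c_weak h hu isOpen_ball (ball_subset_closedBall.trans h1) hr a)
    exact ⟨ε / 2, g, fun _ => ⟨half_pos hε,
      (ball_subset_closedBall.trans (closedBall_subset_closedBall (half_le_self hε.le))).trans h1,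
      h2, h3⟩⟩
  choose R g hg using ex
  have key : ∀ w ∈ Ω', ∀ {O : Set (E N)} {f : E N → ℂ}, IsOpen O → w ∈ O → ContinuousOn f O →
      f =ᵐ[volume.restrict O] fsum Ω P u → g w w = f w := by
    intro w hw O f h1 h2 h3 h4
    obtain ⟨h5, -, h6, h7⟩ := hg w hw
    exact Measure.eqOn_open_of_ae_eq (μ := volume) (U := ball w (R w) ∩ O)
      (EventuallyEq.trans (ae_restrict_of_ae_restrict_of_subset inter_subset_left h7)
        (ae_restrict_of_ae_restrict_of_subset inter_subset_right h4.symm))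
      (isOpen_ball.inter h1) (h6.continuousOn.mono inter_subset_left) (h3.mono inter_subset_right)
      ⟨mem_ball_self h5, h2⟩
  refine ⟨fun w => g w w, fun w hw => ?_, fun w hw => ?_⟩
  · obtain ⟨h5, h8, h6, h7⟩ := hg w hw
    have hn := ball_mem_nhds w h5
    refine ((h6.differentiableAt hn).congr_of_eventuallyEq ?_).differentiableWithinAt
    filter_upwards [hn] with y hy using key y (h8 hy) isOpen_ball hy h6.continuousOn h7
  · obtain ⟨O, h1, h2, h3⟩ := bpt6c_loc h hu hw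
    exact key w hw.1 h1 h2 h3.continuousOn EventuallyEq.rfl

theorem Prp.trace_deriv (h : Prp Ω Ω' P) {u t : E N → ℂ} (hu : DifferentiableOn ℂ u Ω)
    (ht : EqOn t (fsum Ω P u) (RV Ω Ω' P)) {w : E N} (hw : w ∈ RV Ω Ω' P) (v : E N) :
    fderiv ℂ t w v = fsum Ω P (fun z => fderiv ℂ u z ((jac P z)⁻¹ *ᵥ v)) w := by
  obtain ⟨d, O, q, h1, h2, h3, h4, h5⟩ := h.sheets hw
  have hn := h1.mem_nhds h2
  have hm : ∀ l, ∀ y ∈ O, q l y ∈ Ω ∧ P (q l y) = y := fun l y hy =>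
    (h5 y hy).2.symm.subset ⟨l, rfl⟩
  have e : t =ᶠ[𝓝 w] fun y => ∑ l, u (q l y) := by
    filter_upwards [hn] with y hy
    rw [ht (h3 hy), bpt6c_sum (h5 y hy).1 (h5 y hy).2]
  have hq : ∀ l, HasFDerivAt (q l) (fderiv ℂ (q l) w) w := fun l =>
    ((h4 l).differentiableAt hn).hasFDerivAt
  have hd : ∀ l, HasFDerivAt (fun y => u (q l y))
      ((fderiv ℂ u (q l w)).comp (fderiv ℂ (q l) w)) w := fun l =>
    (hu.differentiableAt (h.isOpen.mem_nhds (hm l w h2).1)).hasFDerivAt.comp w (hq l)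
  rw [e.fderiv_eq, (HasFDerivAt.fun_sum fun l _ => hd l).fderiv,
    bpt6c_sum (h5 w h2).1 (h5 w h2).2, sum_apply]
  refine Finset.sum_congr rfl fun l _ => ?_
  rw [ContinuousLinearMap.comp_apply]
  congr 1
  have e1 : (fun y => P (q l y)) =ᶠ[𝓝 w] id := by
    filter_upwards [hn] with y hy using (hm l y hy).2
  have e2 := ((h.hol.differentiableAt (h.isOpen.mem_nhds (hm l w h2).1)).hasFDerivAt.comp w
    (hq l)).unique ((hasFDerivAt_id w).congr_of_eventuallyEq e1)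
  have e3 : jac P (q l w) *ᵥ fderiv ℂ (q l) w v = v := by
    rw [bpt6c_jac]
    exact DFunLike.congr_fun e2 v
  have hdet : IsUnit (jac P (q l w)).det := (hw.2 _ (hm l w h2).1 (hm l w h2).2).isUnit
  conv_rhs => rw [← e3]
  rw [Matrix.mulVec_mulVec, Matrix.nonsing_inv_mul _ hdet, Matrix.one_mulVec]

theorem Prp.degree (h : Prp Ω Ω' P) : ∃ d : E N → ℕ, (∀ w ∈ Ω', ∀ᶠ y in 𝓝 w, d y = d w) ∧
    ∀ w ∈ RV Ω Ω' P, (Ω ∩ P ⁻¹' {w}).Finite ∧ (Ω ∩ P ⁻¹' {w}).ncard = d w := by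
  obtain ⟨t, h1, h2⟩ := h.trace (u := fun _ => 1) (differentiableOn_const _)
  have h3 : ∀ w ∈ RV Ω Ω' P, (Ω ∩ P ⁻¹' {w}).Finite ∧ t w = (Ω ∩ P ⁻¹' {w}).ncard := by
    intro w hw
    obtain ⟨d, O, q, -, h4, -, -, h5⟩ := h.sheets hw
    rw [h2 hw, bpt6c_sum (h5 w h4).1 (h5 w h4).2, (h5 w h4).2,
      ncard_range_of_injective (h5 w h4).1]
    exact ⟨finite_range _, by simp⟩
  have hc : ∀ w ∈ Ω', ContinuousAt t w := fun w hw =>
    h1.continuousOn.continuousAt (h.isOpen'.mem_nhds hw)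
  have h4 : ∀ w, ∃ n : ℕ, w ∈ Ω' → t w = n := by
    intro w
    by_cases hw : w ∈ Ω'
    swap
    · exact ⟨0, fun h5 => absurd h5 hw⟩
    have h5 := (hc w hw).continuousWithinAt.mem_closure (t := range (Nat.cast : ℕ → ℂ))
      (h.rv_dense hw) fun y hy => ⟨_, (h3 y hy).2.symm⟩
    rw [(Nat.isClosedEmbedding_coe_real.isClosed_range |> fun h6 => by
      have h7 := Complex.isometry_ofReal.isClosedEmbedding.isClosedMap _ h6
      rw [← range_comp] at h7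
      exact h7.closure_eq : closure (range (Nat.cast : ℕ → ℂ)) = range Nat.cast)] at h5
    obtain ⟨n, hn⟩ := h5
    exact ⟨n, fun _ => hn.symm⟩
  choose d hd using h4
  refine ⟨d, fun w hw => ?_, fun w hw => ⟨(h3 w hw).1, ?_⟩⟩
  · filter_upwards [h.isOpen'.mem_nhds hw, (hc w hw).eventually (ball_mem_nhds _ one_pos)]
      with y hy h5
    rw [hd y hy, hd w hw, ← Complex.ofReal_natCast, ← Complex.ofReal_natCast,
      Complex.isometry_ofReal.dist_eq, Real.dist_eq, abs_lt] at h5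
    have h6 : (d y : ℝ) < d w + 1 := by linarith [h5.2]
    have h7 : (d w : ℝ) < d y + 1 := by linarith [h5.1]
    have h8 : d y < d w + 1 := by exact_mod_cast h6
    have h9 : d w < d y + 1 := by exact_mod_cast h7
    omega
  · exact_mod_cast (h3 w hw).2.symm.trans (hd w hw.1)

end Pool.Agent.BP
end

-- part Pool.Agent.P.MP_63735c_ag.SBD3
section

/-! The trace of a holomorphic function on an atlas. -/

open scoped ComplexOrder ContDiff Matrix Topology ENNReal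
open Set Metric MeasureTheory Filter

namespace Pool.Agent.BP

open Pool.Agent.SPF Pool.Agent.AB Pool.Agent.CK Pool.Agent.SE Pool.Agent.NL

variable {N : ℕ} {X : Type} [TopologicalSpace X] [T2Space X] [MeasurableSpace X] [BorelSpace X]
  {A : Atlas X N} {Ω : Set X} {Ω' : Set (E N)} {P : X → E N} {μ : Measure X}

omit [TopologicalSpace X] [T2Space X] [MeasurableSpace X] [BorelSpace X] in
theorem fsA_sum {F : Type} [AddCommMonoid F] {d : ℕ} {q : Fin d → X} {y : E N}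
    (hi : Function.Injective q) (e : Ω ∩ P ⁻¹' {y} = range q) (u : X → F) :
    fsA Ω P u y = ∑ l, u (q l) := by
  rw [fsA, e, finsum_mem_range hi, finsum_eq_sum_of_fintype]

theorem sbd3_div {Ω : Set (E N)} {P : E N → E N} (hΩ : IsOpen Ω) (hP : DifferentiableOn ℂ P Ω)
    {u r : E N → ℂ} (hu : DifferentiableOn ℂ u Ω) (hr : ContDiff ℝ ∞ r) (a : Fin N) :
    (∀ b, ContDiffOn ℝ ∞
      (fun z => u z * (jac P z).det * (star ((jac P z).adjugate b a) * r (P z))) Ω) ∧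
    ∀ z ∈ Ω, u z * dzb a r (P z) * (‖(jac P z).det‖ ^ 2 : ℝ) =
      ∑ b, dzb b (fun z => u z * (jac P z).det *
        (star ((jac P z).adjugate b a) * r (P z))) z := by
  have hus := bpt6c_smooth hΩ hu
  have hdh := bpt6c_det hΩ hP
  have hds := bpt6c_smooth hΩ hdh
  have hrs : ContDiffOn ℝ ∞ (fun z => r (P z)) Ω := hr.comp_contDiffOn (smooth_of_hol hΩ hP)
  have has : ∀ b, ContDiffOn ℝ ∞ (fun w => (jac P w).adjugate b a) Ω := fun b =>
    adj_smooth (fun c e => bpt6c_smooth hΩ (jac_hol hΩ hP c e)) b a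
  refine ⟨fun b => (hus.mul hds).mul ((abint_star (has b)).mul hrs), fun z hz => ?_⟩
  have hn := hΩ.mem_nhds hz
  have e : ∀ b, dzb b (fun z => u z * (jac P z).det *
      (star ((jac P z).adjugate b a) * r (P z))) z = u z * (jac P z).det *
        (star (dz b (fun w => (jac P w).adjugate b a) z) * r (P z) +
          ∑ c, star (jac P z c b * (jac P z).adjugate b a) * dzb c r (P z)) := by
    intro b
    rw [(dz_mul (diffAt hΩ (hus.mul hds) hz) (diffAt hΩ ((abint_star (has b)).mul hrs) hz) b).2,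
      (dz_of_diff ((hu.fun_mul hdh).differentiableAt hn) b).2, zero_mul, zero_add,
      (dz_mul (diffAt hΩ (abint_star (has b)) hz) (diffAt hΩ hrs hz) b).2, ← (star_dz _ z b).1,
      (dz_comp (hr.differentiable (by simp) _) (hP.differentiableAt hn) b).2,
      Finset.mul_sum]
    congr 2
    exact Finset.sum_congr rfl fun c _ => by rw [star_mul, mul_assoc]
  have e2 : ∀ c, ∑ b, star (jac P z c b * (jac P z).adjugate b a) * dzb c r (P z) =
      if c = a then star (jac P z).det * dzb c r (P z) else 0 := by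
    intro c
    rw [← Finset.sum_mul, ← star_sum, ← Matrix.mul_apply, Matrix.mul_adjugate, Matrix.smul_apply,
      Matrix.one_apply]
    split_ifs <;> simp
  simp only [e, ← Finset.mul_sum, Finset.sum_add_distrib]
  rw [← Finset.sum_mul, ← star_sum, bpt6c_piola hΩ hP hz, star_zero, zero_mul, zero_add,
    Finset.sum_comm]
  simp only [e2, Finset.sum_ite_eq', Finset.mem_univ, if_true]
  rw [Complex.ofReal_pow, ← Complex.mul_conj']
  simp only [Complex.star_def]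
  ring

theorem PrA.weak (h : PrA A Ω Ω' P) (hμ : IsVolume A μ) [IsFiniteMeasure μ] {u : X → ℂ}
    (hu : HolOn A Ω u) {B : Set (E N)} (hB : IsOpen B) (hs : B ⊆ Ω') {r : E N → ℂ} (hr : Tst B r)
    (a : Fin N) : ∫ y in B, fsA Ω P u y * dzb a r y = 0 := by
  have hΩ := h.isOpen
  have hC : IsCompact (tsupport r) := hr.cpt
  have r0 : ∀ z ∈ (univ : Set (E N)), z ∉ tsupport r → r z = 0 :=
    fun z _ hz => image_eq_zero_of_notMem_tsupport hz
  have d0 : ∀ z, z ∉ tsupport r → dzb a r z = 0 := fun z hz =>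
    (dz_zero_off isOpen_univ (isClosed_tsupport r) r0 a z trivial hz).2
  obtain ⟨δ, hδ, he⟩ := exists_den h.inj hΩ h.hol
  have hc : ContinuousOn (fun x => u x * dzb a r (P x)) Ω := (hu.cont hΩ).mul
    ((dz_smooth isOpen_univ hr.smooth.contDiffOn a).2.continuousOn.comp (h.hol.cont hΩ)
      (mapsTo_univ _ _))
  have hd := fun i => sbd3_div (dom_open A hΩ i) (h.hol i) (hu i) hr.smooth a
  rw [int_eq_cpt hB hC hr.sub fun z _ hz => by rw [d0 z hz, mul_zero]]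
  have e1 : ∀ y, fsA Ω P u y * dzb a r y = fsA Ω P (fun z => u z * dzb a r (P z)) y := by
    intro y
    rw [fsA, fsA, finsum_mem_mul]
    exact finsum_mem_congr rfl fun z hz => by rw [show P z = y from hz.2]
  simp only [e1]
  rw [(h.area_c hμ hδ he hc hC (hr.sub.trans hs)).2]
  refine stokesA h.inj hμ hΩ (h.proper _ hC (hr.sub.trans hs)) inter_subset_left
    (Y := fun i z b => u (A.p i z) * (Jg A P i z).det *
      (star ((Jg A P i z).adjugate b a) * r (P (A.p i z))))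
    (fun i => contDiffOn_pi.2 (hd i).1) (fun i z hz hz' => funext fun b => ?_)
    (fun i k O φ hc hp z hz hx => funext fun c => ?_) fun i z hz => ?_
  · rw [r0 _ trivial fun h1 => hz' ⟨hz.2, h1⟩, mul_zero, mul_zero, Pi.zero_apply]
  · have e : (jac φ z * (Jg A P i z).adjugate) c a =
        (jac φ z).det * (Jg A P k (φ z)).adjugate c a := by
      rw [h.hol.jg hΩ hc hp hz hx, Matrix.adjugate_mul_distrib, ← Matrix.mul_assoc,
        Matrix.mul_adjugate, Matrix.smul_mul, Matrix.one_mul, Matrix.smul_apply, smul_eq_mul]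
    have e' := congrArg star e
    rw [Matrix.mul_apply, star_sum] at e'
    simp only [star_mul'] at e'
    have e2 : ∀ b, star (jac φ z c b) * (u (A.p i z) * (Jg A P i z).det *
        (star ((Jg A P i z).adjugate b a) * r (P (A.p i z)))) = u (A.p i z) * (Jg A P i z).det *
        r (P (A.p i z)) * (star (jac φ z c b) * star ((Jg A P i z).adjugate b a)) := fun b => by ring
    simp only [Matrix.mulVec, dotProduct, Matrix.map_apply, e2, ← Finset.mul_sum, e', Pi.smul_apply,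
      smul_eq_mul, hp z hz]
    rw [h.hol.jg hΩ hc hp hz hx, Matrix.det_mul, Complex.ofReal_pow, ← Complex.mul_conj']
    simp only [Complex.star_def]
    ring
  · refine ((hd i).2 z hz).symm.trans ?_
    rw [show jac (fun z => P (A.p i z)) z = Jg A P i z from rfl, he i z hz]
    push_cast
    ring

omit [MeasurableSpace X] [BorelSpace X] in
theorem sbd3_loc (h : PrA A Ω Ω' P) {u : X → ℂ} (hu : HolOn A Ω u) {w : E N}
    (hw : w ∈ RVA A Ω Ω' P) : ∃ O, IsOpen O ∧ w ∈ O ∧ DifferentiableOn ℂ (fsA Ω P u) O := by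
  obtain ⟨d, O, c, q, h1, h2, -, h4, h5⟩ := h.sheets hw
  refine ⟨O, h1, h2, DifferentiableOn.congr (f := fun y => ∑ l, u (A.p (c l) (q l y)))
    (DifferentiableOn.fun_sum fun l _ => (hu (c l)).comp (h4 l) fun y hy => ?_)
    fun y hy => fsA_sum (h5 y hy).2.1 (h5 y hy).2.2 u⟩
  exact ⟨(h5 y hy).1 l, ((h5 y hy).2.2.symm.subset ⟨l, rfl⟩).1⟩

theorem PrA.trace (h : PrA A Ω Ω' P) (hμ : IsVolume A μ) [IsFiniteMeasure μ] {u : X → ℂ}
    (hu : HolOn A Ω u) :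
    ∃ t : E N → ℂ, DifferentiableOn ℂ t Ω' ∧ EqOn t (fsA Ω P u) (RVA A Ω Ω' P) := by
  obtain ⟨δ, hδ, he⟩ := exists_den h.inj h.isOpen h.hol
  have ex : ∀ w, ∃ (R : ℝ) (g : E N → ℂ), w ∈ Ω' → 0 < R ∧ ball w R ⊆ Ω' ∧
      DifferentiableOn ℂ g (ball w R) ∧ g =ᵐ[volume.restrict (ball w R)] fsA Ω P u := by
    intro w
    by_cases hw : w ∈ Ω'
    swap
    · exact ⟨0, 0, fun h1 => absurd h1 hw⟩
    obtain ⟨ε, hε, h1⟩ := nhds_basis_closedBall.mem_iff.1 (h.isOpen'.mem_nhds hw)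
    have e : 2 * (ε / 2) = ε := by ring
    obtain ⟨g, h2, h3⟩ := weyl (f := fsA Ω P u) (z := w) (half_pos hε)
      (by
        rw [e]
        exact (h.area_c hμ hδ he (hu.cont h.isOpen) (isCompact_closedBall w ε) h1).1.mono_set
          ball_subset_closedBall)
      (by
        rw [e]
        exact fun r hr a => h.weak hμ hu isOpen_ball (ball_subset_closedBall.trans h1) hr a)
    exact ⟨ε / 2, g, fun _ => ⟨half_pos hε,
      (ball_subset_closedBall.trans (closedBall_subset_closedBall (half_le_self hε.le))).trans h1,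
      h2, h3⟩⟩
  choose R g hg using ex
  have key : ∀ w ∈ Ω', ∀ {O : Set (E N)} {f : E N → ℂ}, IsOpen O → w ∈ O → ContinuousOn f O →
      f =ᵐ[volume.restrict O] fsA Ω P u → g w w = f w := by
    intro w hw O f h1 h2 h3 h4
    obtain ⟨h5, -, h6, h7⟩ := hg w hw
    exact Measure.eqOn_open_of_ae_eq (μ := volume) (U := ball w (R w) ∩ O)
      (EventuallyEq.trans (ae_restrict_of_ae_restrict_of_subset inter_subset_left h7)
        (ae_restrict_of_ae_restrict_of_subset inter_subset_right h4.symm))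
      (isOpen_ball.inter h1) (h6.continuousOn.mono inter_subset_left) (h3.mono inter_subset_right)
      ⟨mem_ball_self h5, h2⟩
  refine ⟨fun w => g w w, fun w hw => ?_, fun w hw => ?_⟩
  · obtain ⟨h5, h8, h6, h7⟩ := hg w hw
    have hn := ball_mem_nhds w h5
    refine ((h6.differentiableAt hn).congr_of_eventuallyEq ?_).differentiableWithinAt
    filter_upwards [hn] with y hy using key y (h8 hy) isOpen_ball hy h6.continuousOn h7
  · obtain ⟨O, h1, h2, h3⟩ := sbd3_loc h hu hw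
    exact key w hw.1 h1 h2 h3.continuousOn EventuallyEq.rfl

omit [MeasurableSpace X] [BorelSpace X] in
theorem PrA.exists_der (h : PrA A Ω Ω' P) {u : X → ℂ} (hu : HolOn A Ω u) (v : E N) :
    ∃ D : X → ℂ, (∀ i, ∀ z ∈ dom A Ω i, (Jg A P i z).det ≠ 0 →
      D (A.p i z) = fderiv ℂ (fun w => u (A.p i w)) z ((Jg A P i z)⁻¹ *ᵥ v)) ∧
      ∀ t : E N → ℂ, EqOn t (fsA Ω P u) (RVA A Ω Ω' P) → ∀ w ∈ RVA A Ω Ω' P,
        fderiv ℂ t w v = fsA Ω P D w := by
  choose ci zi hz hp using A.cover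
  have key : ∀ i, ∀ z ∈ dom A Ω i, (Jg A P i z).det ≠ 0 →
      fderiv ℂ (fun w => u (A.p (ci (A.p i z)) w)) (zi (A.p i z))
        ((Jg A P (ci (A.p i z)) (zi (A.p i z)))⁻¹ *ᵥ v) =
      fderiv ℂ (fun w => u (A.p i w)) z ((Jg A P i z)⁻¹ *ᵥ v) := by
    intro i z hd h0
    obtain ⟨O, φ, hc, hO, e, he⟩ := A.trans i _ z hd.1 _ (hz (A.p i z)) (hp _).symm
    have hn := hc.isOpen.mem_nhds hO
    have e1 : (fun w => u (A.p i w)) =ᶠ[𝓝 z] (fun w => u (A.p (ci (A.p i z)) w)) ∘ φ := by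
      filter_upwards [hn] with w hw using congrArg u (he w hw).symm
    have e2 := h.hol.jg h.isOpen hc he hO hd.2
    rw [e2, Matrix.det_mul] at h0
    rw [e1.fderiv_eq, fderiv_comp z ((hu _).differentiableAt ((dom_open A h.isOpen _).mem_nhds
      ⟨hc.maps hO, by rw [mem_preimage, he z hO]; exact hd.2⟩)) (hc.hol.differentiableAt hn),
      ContinuousLinearMap.comp_apply, ← bpt6c_jac, e2, Matrix.mul_inv_rev, Matrix.mulVec_mulVec,
      Matrix.mul_nonsing_inv_cancel_left _ _ (right_ne_zero_of_mul h0).isUnit, e]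
  refine ⟨fun x => fderiv ℂ (fun w => u (A.p (ci x) w)) (zi x) ((Jg A P (ci x) (zi x))⁻¹ *ᵥ v),
    key, fun t ht w hw => ?_⟩
  obtain ⟨d, O, c, q, h1, h2, h3, h4, h5⟩ := h.sheets hw
  have hn := h1.mem_nhds h2
  have hm : ∀ l, ∀ y ∈ O, A.p (c l) (q l y) ∈ Ω ∧ P (A.p (c l) (q l y)) = y := fun l y hy =>
    (h5 y hy).2.2.symm.subset ⟨l, rfl⟩
  have hw' : ∀ l, dom A Ω (c l) ∈ 𝓝 (q l w) := fun l =>
    (dom_open A h.isOpen _).mem_nhds ⟨(h5 w h2).1 l, (hm l w h2).1⟩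
  have e : t =ᶠ[𝓝 w] fun y => ∑ l, u (A.p (c l) (q l y)) := by
    filter_upwards [hn] with y hy
    rw [ht (h3 hy), fsA_sum (h5 y hy).2.1 (h5 y hy).2.2]
  have hq : ∀ l, HasFDerivAt (q l) (fderiv ℂ (q l) w) w := fun l =>
    ((h4 l).differentiableAt hn).hasFDerivAt
  have hd : ∀ l, HasFDerivAt (fun y => u (A.p (c l) (q l y)))
      ((fderiv ℂ (fun z => u (A.p (c l) z)) (q l w)).comp (fderiv ℂ (q l) w)) w := fun l =>
    ((hu (c l)).differentiableAt (hw' l)).hasFDerivAt.comp w (hq l)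
  rw [e.fderiv_eq, (HasFDerivAt.fun_sum fun l _ => hd l).fderiv,
    fsA_sum (h5 w h2).2.1 (h5 w h2).2.2, sum_apply]
  refine Finset.sum_congr rfl fun l _ => ?_
  have hdet := hw.2 _ (hm l w h2).1 (hm l w h2).2 (c l) _ ((h5 w h2).1 l) rfl
  rw [ContinuousLinearMap.comp_apply, key _ _ (mem_of_mem_nhds (hw' l)) hdet]
  congr 1
  have e1 : (fun y => P (A.p (c l) (q l y))) =ᶠ[𝓝 w] id := by
    filter_upwards [hn] with y hy using (hm l y hy).2
  have e2 := (((h.hol (c l)).differentiableAt (hw' l)).hasFDerivAt.comp w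
    (hq l)).unique ((hasFDerivAt_id w).congr_of_eventuallyEq e1)
  have e3 : Jg A P (c l) (q l w) *ᵥ fderiv ℂ (q l) w v = v := by
    rw [Jg, bpt6c_jac]
    exact DFunLike.congr_fun e2 v
  conv_rhs => rw [← e3]
  rw [Matrix.mulVec_mulVec, Matrix.nonsing_inv_mul _ hdet.isUnit, Matrix.one_mulVec]

theorem PrA.degree (h : PrA A Ω Ω' P) (hμ : IsVolume A μ) [IsFiniteMeasure μ] :
    ∃ d : E N → ℕ, (∀ w ∈ Ω', ∀ᶠ y in 𝓝 w, d y = d w) ∧
      ∀ w ∈ RVA A Ω Ω' P, (Ω ∩ P ⁻¹' {w}).Finite ∧ (Ω ∩ P ⁻¹' {w}).ncard = d w := by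
  obtain ⟨t, h1, h2⟩ := h.trace hμ (u := fun _ => 1) fun _ => differentiableOn_const _
  have h3 : ∀ w ∈ RVA A Ω Ω' P, (Ω ∩ P ⁻¹' {w}).Finite ∧ t w = (Ω ∩ P ⁻¹' {w}).ncard := by
    intro w hw
    obtain ⟨d, O, c, q, -, h4, -, -, h5⟩ := h.sheets hw
    rw [h2 hw, fsA_sum (h5 w h4).2.1 (h5 w h4).2.2, (h5 w h4).2.2,
      ncard_range_of_injective (h5 w h4).2.1]
    exact ⟨finite_range _, by simp⟩
  have hc : ∀ w ∈ Ω', ContinuousAt t w := fun w hw =>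
    h1.continuousOn.continuousAt (h.isOpen'.mem_nhds hw)
  have h4 : ∀ w, ∃ n : ℕ, w ∈ Ω' → t w = n := by
    intro w
    by_cases hw : w ∈ Ω'
    swap
    · exact ⟨0, fun h5 => absurd h5 hw⟩
    have h5 := (hc w hw).continuousWithinAt.mem_closure (t := range (Nat.cast : ℕ → ℂ))
      (h.rv_dense hw) fun y hy => ⟨_, (h3 y hy).2.symm⟩
    rw [(Nat.isClosedEmbedding_coe_real.isClosed_range |> fun h6 => by
      have h7 := Complex.isometry_ofReal.isClosedEmbedding.isClosedMap _ h6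
      rw [← range_comp] at h7
      exact h7.closure_eq : closure (range (Nat.cast : ℕ → ℂ)) = range Nat.cast)] at h5
    obtain ⟨n, hn⟩ := h5
    exact ⟨n, fun _ => hn.symm⟩
  choose d hd using h4
  refine ⟨d, fun w hw => ?_, fun w hw => ⟨(h3 w hw).1, ?_⟩⟩
  · filter_upwards [h.isOpen'.mem_nhds hw, (hc w hw).eventually (ball_mem_nhds _ one_pos)]
      with y hy h5
    rw [hd y hy, hd w hw, ← Complex.ofReal_natCast, ← Complex.ofReal_natCast,
      Complex.isometry_ofReal.dist_eq, Real.dist_eq, abs_lt] at h5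
    have h6 : (d y : ℝ) < d w + 1 := by linarith [h5.2]
    have h7 : (d w : ℝ) < d y + 1 := by linarith [h5.1]
    have h8 : d y < d w + 1 := by exact_mod_cast h6
    have h9 : d w < d y + 1 := by exact_mod_cast h7
    omega
  · exact_mod_cast (h3 w hw).2.symm.trans (hd w hw.1)

end Pool.Agent.BP
end

-- part Pool.Agent.P.MP_63735c_ag.BPTr
section

/-! The canonical trace along a proper holomorphic map. -/

open scoped ComplexOrder ContDiff Matrix Topology ENNReal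
open Set Metric MeasureTheory Filter

namespace Pool.Agent.BP

open Pool.Agent.SPF Pool.Agent.AB

variable {N : ℕ} {Ω Ω' : Set (E N)} {P : E N → E N}

/-- The trace of `h`. -/
noncomputable def tr (Ω : Set (E N)) (P : E N → E N) (h : E N → ℂ) (w : E N) : ℂ :=
  limUnder (𝓝[RV Ω univ P] w) (fsum Ω P h)

theorem tr_congr {Ω₂ O : Set (E N)} {w : E N} (hO : O ∈ 𝓝 w)
    (he : Ω ∩ P ⁻¹' O = Ω₂ ∩ P ⁻¹' O) (h : E N → ℂ) : tr Ω P h w = tr Ω₂ P h w := by
  have h0 : ∀ y ∈ O, ∀ z, P z = y → (z ∈ Ω ↔ z ∈ Ω₂) := fun y hy z e =>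
    ⟨fun hz => (he.subset ⟨hz, show P z ∈ O from e ▸ hy⟩).1,
      fun hz => (he.symm.subset ⟨hz, show P z ∈ O from e ▸ hy⟩).1⟩
  have h1 : 𝓝[RV Ω univ P] w = 𝓝[RV Ω₂ univ P] w := by
    refine nhdsWithin_eq_iff_eventuallyEq.2 (eventuallyEq_set.2 ?_)
    filter_upwards [hO] with y hy
    exact and_congr_right fun _ => ⟨fun H z hz e => H z ((h0 y hy z e).2 hz) e,
      fun H z hz e => H z ((h0 y hy z e).1 hz) e⟩
  have h2 : fsum Ω P h =ᶠ[𝓝[RV Ω₂ univ P] w] fsum Ω₂ P h := by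
    filter_upwards [mem_nhdsWithin_of_mem_nhds hO] with y hy
    have : Ω ∩ P ⁻¹' {y} = Ω₂ ∩ P ⁻¹' {y} :=
      Set.ext fun z => and_congr_left fun e => h0 y hy z e
    rw [fsum, fsum, this]
  rw [tr, tr, h1, limUnder, limUnder, map_congr h2]

theorem bptr_nhds (hP : Prp Ω Ω' P) {w : E N} (hw : w ∈ Ω') :
    𝓝[RV Ω univ P] w = 𝓝[RV Ω Ω' P] w := by
  refine nhdsWithin_eq_iff_eventuallyEq.2 (eventuallyEq_set.2 ?_)
  filter_upwards [hP.isOpen'.mem_nhds hw] with y hy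
  exact and_congr_left fun _ => ⟨fun _ => hy, fun _ => trivial⟩

theorem bptr_main (hP : Prp Ω Ω' P) {h : E N → ℂ} (hh : DifferentiableOn ℂ h Ω) :
    DifferentiableOn ℂ (tr Ω P h) Ω' ∧ EqOn (tr Ω P h) (fsum Ω P h) (RV Ω Ω' P) := by
  obtain ⟨t, ht, he⟩ := hP.trace hh
  have h1 : EqOn (tr Ω P h) t Ω' := fun w hw => by
    have := mem_closure_iff_nhdsWithin_neBot.1 (hP.rv_dense hw)
    rw [tr, bptr_nhds hP hw]
    refine Tendsto.limUnder_eq (Tendsto.congr' (eventuallyEq_of_mem self_mem_nhdsWithin he) ?_)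
    exact (ht.continuousOn.continuousAt (hP.isOpen'.mem_nhds hw)).continuousWithinAt
  exact ⟨ht.congr h1, fun w hw => (h1 hw.1).trans (he hw)⟩

theorem tr_hol (hP : Prp Ω Ω' P) {h : E N → ℂ} (hh : DifferentiableOn ℂ h Ω) :
    DifferentiableOn ℂ (tr Ω P h) Ω' := (bptr_main hP hh).1

theorem bptr_sep (z : E N) (T : Finset (E N)) (hz : z ∉ T) :
    ∃ h : E N → ℂ, Differentiable ℂ h ∧ h z = 1 ∧ ∀ q ∈ T, h q = 0 := by
  classical
  induction T using Finset.induction_on with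
  | empty => exact ⟨fun _ => 1, differentiable_const _, rfl, by simp⟩
  | insert q T _ ih =>
    rw [Finset.mem_insert, not_or] at hz
    obtain ⟨h, h1, h2, h3⟩ := ih hz.2
    obtain ⟨a, ha⟩ := Function.ne_iff.1 hz.1
    refine ⟨fun x => (x a - q a) / (z a - q a) * h x, by fun_prop, ?_, fun x hx => ?_⟩
    · simp only [h2, div_self (sub_ne_zero.2 ha), mul_one]
    · rcases Finset.mem_insert.1 hx with rfl | hx
      · simp
      · simp [h3 x hx]

theorem bptr_lim (hP : Prp Ω Ω' P) {w : E N} (hw : w ∈ Ω') :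
    ∃ (d : ℕ) (q : E N → Fin d → E N),
      (∀ᶠ x in 𝓝[RV Ω Ω' P] w, Ω ∩ P ⁻¹' {x} = range (q x)) ∧
      ∀ U : Ultrafilter (E N), ↑U ≤ 𝓝[RV Ω Ω' P] w → ∃ y, Tendsto q U (𝓝 y) ∧
        (∀ i, y i ∈ Ω ∧ P (y i) = w) ∧
        ∀ h : E N → ℂ, DifferentiableOn ℂ h Ω → tr Ω P h w = ∑ i, h (y i) := by
  obtain ⟨d, hd, hc⟩ := hP.degree
  have h1 : ∀ x, x ∈ RV Ω Ω' P ∧ d x = d w → ∃ q : Fin (d w) → E N, Function.Injective q ∧
      Ω ∩ P ⁻¹' {x} = range q := by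
    intro x hx
    obtain ⟨d', O, q, -, hxO, -, -, hq⟩ := hP.sheets hx.1
    have e : d' = d w := by
      rw [← hx.2, ← (hc x hx.1).2, (hq x hxO).2, ncard_range_of_injective (hq x hxO).1]
      simp
    subst e
    exact ⟨_, hq x hxO⟩
  choose! q hq using h1
  have h2 : ∀ᶠ x in 𝓝[RV Ω Ω' P] w, x ∈ RV Ω Ω' P ∧ d x = d w :=
    eventually_mem_nhdsWithin.and (mem_nhdsWithin_of_mem_nhds (hd w hw))
  refine ⟨d w, q, h2.mono fun x hx => (hq x hx).2, fun U hU => ?_⟩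
  obtain ⟨r, hr, hb⟩ := nhds_basis_closedBall.mem_iff.1 (hP.isOpen'.mem_nhds hw)
  have hK := hP.proper _ (isCompact_closedBall w r) hb
  have h3 : ∀ᶠ x in (U : Filter (E N)), ∀ i, q x i ∈ Ω ∩ P ⁻¹' {x} :=
    (h2.filter_mono hU).mono fun x hx i => (hq x hx).2.symm.subset (mem_range_self i)
  have hw' : Tendsto id (U : Filter (E N)) (𝓝 w) := hU.trans nhdsWithin_le_nhds
  obtain ⟨y, hy, hl⟩ := (isCompact_univ_pi fun _ : Fin (d w) => hK).ultrafilter_le_nhds (U.map q)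
    (by
      rw [Ultrafilter.coe_map, le_principal_iff, mem_map]
      filter_upwards [h3, hw' (closedBall_mem_nhds w hr)] with x h4 h5 i _
      refine ⟨(h4 i).1, ?_⟩
      have e : P (q x i) = x := (h4 i).2
      rw [mem_preimage, e]
      exact h5)
  have hl' : Tendsto q U (𝓝 y) := hl
  have hi : ∀ i, Tendsto (fun x => q x i) U (𝓝 (y i)) := tendsto_pi_nhds.1 hl'
  have hm : ∀ i, Ω ∈ 𝓝 (y i) := fun i => hP.isOpen.mem_nhds (hy i trivial).1
  refine ⟨y, hl', fun i => ⟨(hy i trivial).1, ?_⟩, fun h hh => ?_⟩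
  · exact tendsto_nhds_unique (((hP.hol.continuousOn.continuousAt (hm i)).tendsto.comp
      (hi i)).congr' (h3.mono fun x hx => (hx i).2)) hw'
  · have h4 := bptr_main hP hh
    refine tendsto_nhds_unique (f := tr Ω P h) (l := (U : Filter (E N)))
      ((h4.1.continuousOn.continuousAt (hP.isOpen'.mem_nhds hw)).tendsto.comp hw') ?_
    refine (tendsto_finsetSum _ fun i _ =>
      (hh.continuousOn.continuousAt (hm i)).tendsto.comp (hi i)).congr' ?_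
    filter_upwards [hU h2] with x hx
    rw [h4.2 hx.1, bpt6c_sum (hq x hx).1 (hq x hx).2]
    rfl

theorem tr_fam (hP : Prp Ω Ω' P) (hN : 1 ≤ N) {w : E N} (hw : w ∈ Ω') :
    ∃ (d : ℕ) (y : Fin d → E N), (∀ i, y i ∈ Ω ∧ P (y i) = w) ∧
      (∀ z ∈ Ω, P z = w → ∃ i, y i = z) ∧
      ∀ h : E N → ℂ, DifferentiableOn ℂ h Ω → tr Ω P h w = ∑ i, h (y i) := by
  classical
  obtain ⟨d, q, hq, hl⟩ := bptr_lim hP hw
  have := mem_closure_iff_nhdsWithin_neBot.1 (hP.rv_dense hw)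
  obtain ⟨y, -, hy, hs⟩ := hl (Ultrafilter.of _) (Ultrafilter.of_le _)
  refine ⟨d, y, hy, fun z hz e => ?_, hs⟩
  have h1 := mem_closure_iff_nhdsWithin_neBot.1
    (hP.rv_pull hN isOpen_univ (by simp) hz)
  set F := 𝓝[{z | z ∈ Ω ∧ P z ∈ RV Ω Ω' P ∩ univ}] z with hF
  set V := Ultrafilter.of F
  have hV : (V : Filter (E N)) ≤ F := Ultrafilter.of_le _
  have hz' : Tendsto id (V : Filter (E N)) (𝓝 z) := hV.trans nhdsWithin_le_nhds
  have hm : ∀ᶠ x in (V : Filter (E N)), x ∈ Ω ∧ P x ∈ RV Ω Ω' P ∩ univ := hV self_mem_nhdsWithin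
  have hle : Tendsto P V (𝓝[RV Ω Ω' P] w) := tendsto_nhdsWithin_iff.2
    ⟨e ▸ (hP.hol.continuousOn.continuousAt (hP.isOpen.mem_nhds hz)).tendsto.comp hz',
      hm.mono fun x hx => hx.2.1⟩
  obtain ⟨y', hy1, -, hs'⟩ := hl (V.map P) hle
  have h2 : ∀ᶠ x in (V : Filter (E N)), ∃ i ∈ (univ : Set (Fin d)), q (P x) i = x := by
    filter_upwards [hm, hle.eventually hq] with x h3 h4
    obtain ⟨i, hi⟩ := h4.subset ⟨h3.1, rfl⟩
    exact ⟨i, trivial, hi⟩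
  obtain ⟨j, -, hj⟩ := (Ultrafilter.eventually_exists_mem_iff finite_univ).1 h2
  have h3 : y' j = z := tendsto_nhds_unique
    (Tendsto.congr' hj (tendsto_map'_iff.1 (tendsto_pi_nhds.1 hy1 j))) hz'
  by_contra hc
  obtain ⟨h, h4, h5, h6⟩ := bptr_sep z
    ((Finset.univ.image y ∪ Finset.univ.image y').erase z) (Finset.notMem_erase _ _)
  have h7 : ∑ i, h (y' i) = 0 := by
    rw [← hs' h h4.differentiableOn, hs h h4.differentiableOn]
    exact Finset.sum_eq_zero fun i _ => h6 _ (by simpa using fun e' => hc ⟨i, e'⟩)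
  have h8 := (Finset.sum_eq_zero_iff_of_nonneg fun i _ => ?_).1 h7 j (Finset.mem_univ j)
  · rw [h3, h5] at h8
    exact one_ne_zero h8
  · by_cases e' : y' i = z
    · rw [e', h5]
      exact zero_le_one
    · exact (h6 _ (by simpa using e')).ge

theorem bptr_area (hP : Prp Ω Ω' P) {S : Set (E N)} (hS : MeasurableSet S) (hs : S ⊆ Ω')
    {u : E N → ℝ≥0∞} (hu : Measurable u) :
    ∫⁻ w in S, fsum Ω P u w ≤ ∫⁻ z in Ω ∩ P ⁻¹' S, ‖(jac P z).det‖ₑ ^ 2 * u z := by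
  have hm := bpt6b_pre hP hS
  calc ∫⁻ w in S, fsum Ω P u w = ∫⁻ w in S, fsum Ω P ((Ω ∩ P ⁻¹' S).indicator u) w := by
        refine setLIntegral_congr_fun hS fun w hw => finsum_mem_congr rfl fun z hz => ?_
        have e : P z = w := hz.2
        rw [indicator_of_mem (show z ∈ Ω ∩ P ⁻¹' S from ⟨hz.1, show P z ∈ S from e ▸ hw⟩)]
    _ ≤ ∫⁻ w in Ω', fsum Ω P ((Ω ∩ P ⁻¹' S).indicator u) w := lintegral_mono_set hs
    _ = _ := by
        rw [hP.area (hu.indicator hm), ← lintegral_indicator hm,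
          ← lintegral_indicator hP.isOpen.measurableSet]
        refine lintegral_congr fun z => ?_
        by_cases hz : z ∈ Ω ∩ P ⁻¹' S
        · rw [indicator_of_mem hz.1, indicator_of_mem hz, indicator_of_mem hz,
            ENNReal.ofReal_pow (norm_nonneg _), ofReal_norm, mul_comm]
        · rw [indicator_of_notMem hz, indicator_apply_eq_zero]
          exact fun _ => by rw [indicator_of_notMem hz, zero_mul]

theorem bptr_fib (hP : Prp Ω Ω' P) {w : E N} (hw : w ∈ RV Ω Ω' P) {d : ℕ}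
    (hd : tr Ω P (fun _ => 1) w = d) :
    ∃ q : Fin d → E N, Function.Injective q ∧ Ω ∩ P ⁻¹' {w} = range q := by
  obtain ⟨d', O, q, -, hO, -, -, hq⟩ := hP.sheets hw
  rw [(bptr_main hP (differentiableOn_const _)).2 hw, bpt6c_sum (hq w hO).1 (hq w hO).2] at hd
  obtain rfl : d' = d := by simpa using hd
  exact ⟨_, hq w hO⟩

theorem tr_deg (hP : Prp Ω Ω' P) {S : Set (E N)} (hS : MeasurableSet S) (hs : S ⊆ Ω') {d : ℕ}
    (hd : ∀ w ∈ S, tr Ω P (fun _ => 1) w = d) :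
    d * volume S ≤ ∫⁻ z in Ω ∩ P ⁻¹' S, ‖(jac P z).det‖ₑ ^ 2 := by
  have h1 := bptr_area hP hS hs (u := fun _ => 1) measurable_const
  simp only [mul_one] at h1
  rw [← setLIntegral_const]
  refine le_trans (lintegral_mono_ae ((bpt6b_ae hP hS hs).mono fun w hw => ?_)) h1
  obtain ⟨q, h2, h3⟩ := bptr_fib hP hw.1 (hd w hw.2)
  rw [bpt6c_sum h2 h3]
  simp

theorem bptr_cs {d : ℕ} (a : Fin d → ℂ) : ‖∑ i, a i‖ₑ ^ 2 ≤ d * ∑ i, ‖a i‖ₑ ^ 2 := by
  have h1 : ‖∑ i, a i‖₊ ^ 2 ≤ d * ∑ i, ‖a i‖₊ ^ 2 :=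
    (pow_le_pow_left' (nnnorm_sum_le _ _) 2).trans (by
      simpa using sq_sum_le_card_mul_sum_sq (s := Finset.univ) (f := fun i => ‖a i‖₊))
  simp only [enorm_eq_nnnorm]
  exact_mod_cast h1

theorem bptr_det {A : E N → Mat N} (hA : ∀ a b, Measurable fun z => A z a b) :
    Measurable fun z => (A z).det := by
  simp only [Matrix.det_apply']
  exact Finset.measurable_fun_sum _ fun σ _ => measurable_const.mul
    (Finset.measurable_fun_prod _ fun i _ => hA _ _)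

theorem bptr_meas (P : E N → E N) (h : E N → ℂ) (u : E N) :
    Measurable fun z => fderiv ℂ h z ((jac P z)⁻¹ *ᵥ u) := by
  have h1 : ∀ a b, Measurable fun z => jac P z a b := fun a b =>
    (measurable_pi_apply a).comp (measurable_fderiv_apply_const ℂ P _)
  have h2 := bptr_det h1
  have h3 : ∀ a, Measurable fun z => ((jac P z).adjugate *ᵥ u) a := fun a => by
    simp only [Matrix.mulVec, dotProduct, Matrix.adjugate_apply]
    refine Finset.measurable_fun_sum _ fun b _ => Measurable.mul_const (bptr_det fun c e => ?_) _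
    simp only [Matrix.updateRow_apply]
    split_ifs
    · exact measurable_const
    · exact h1 c e
  have h4 : ∀ z, fderiv ℂ h z ((jac P z)⁻¹ *ᵥ u) = (jac P z).det⁻¹ *
      ∑ a, ((jac P z).adjugate *ᵥ u) a * fderiv ℂ h z (Pi.single a 1) := fun z => by
    rw [Matrix.inv_def, Matrix.smul_mulVec, map_smul, Ring.inverse_eq_inv', smul_eq_mul]
    congr 1
    conv_lhs => rw [← Finset.univ_sum_single ((jac P z).adjugate *ᵥ u), map_sum]
    refine Finset.sum_congr rfl fun a _ => ?_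
    rw [← smul_eq_mul, ← map_smul, ← Pi.single_smul, smul_eq_mul, mul_one]
  simp only [h4]
  exact h2.inv.mul (Finset.measurable_fun_sum _ fun a _ =>
    (h3 a).mul (measurable_fderiv_apply_const ℂ h _))

theorem tr_grad (hP : Prp Ω Ω' P) {S : Set (E N)} (hS : MeasurableSet S) (hs : S ⊆ Ω') {d : ℕ}
    (hd : ∀ w ∈ S, tr Ω P (fun _ => 1) w = d) {h : E N → ℂ} (hh : DifferentiableOn ℂ h Ω)
    (u : E N) : ∫⁻ w in S, ‖fderiv ℂ (tr Ω P h) w u‖ₑ ^ 2 ≤
      d * ∫⁻ z in Ω ∩ P ⁻¹' S,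
        ‖(jac P z).det‖ₑ ^ 2 * ‖fderiv ℂ h z ((jac P z)⁻¹ *ᵥ u)‖ₑ ^ 2 := by
  refine le_trans ?_ (mul_le_mul_right
    (bptr_area hP hS hs ((bptr_meas P h u).enorm.pow_const 2)) _)
  rw [← lintegral_const_mul' _ _ (ENNReal.natCast_ne_top d)]
  refine lintegral_mono_ae ((bpt6b_ae hP hS hs).mono fun w hw => ?_)
  obtain ⟨q, h2, h3⟩ := bptr_fib hP hw.1 (hd w hw.2)
  rw [hP.trace_deriv hh (bptr_main hP hh).2 hw.1, bpt6c_sum h2 h3, bpt6c_sum h2 h3]
  exact bptr_cs _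

end Pool.Agent.BP
end

-- part Pool.Agent.P.MP_63735c_ag.SBD4
section

/-! The canonical trace on an atlas. -/

open scoped ComplexOrder ContDiff Matrix Topology ENNReal
open Set Metric MeasureTheory Filter

namespace Pool.Agent.BP

open Pool.Agent.SPF Pool.Agent.AB Pool.Agent.CK Pool.Agent.SE Pool.Agent.NL

variable {N : ℕ} {X : Type} [TopologicalSpace X] [T2Space X] [MeasurableSpace X] [BorelSpace X]
  {A : Atlas X N} {Ω : Set X} {Ω' : Set (E N)} {P : X → E N} {μ : Measure X}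

omit [T2Space X] [MeasurableSpace X] [BorelSpace X] in
theorem trA_congr {Ω₂ : Set X} {O : Set (E N)} {w : E N} (hO : O ∈ 𝓝 w)
    (he : Ω ∩ P ⁻¹' O = Ω₂ ∩ P ⁻¹' O) (h : X → ℂ) : trA A Ω P h w = trA A Ω₂ P h w := by
  have h0 : ∀ y ∈ O, ∀ z, P z = y → (z ∈ Ω ↔ z ∈ Ω₂) := fun y hy z e =>
    ⟨fun hz => (he.subset ⟨hz, show P z ∈ O from e ▸ hy⟩).1,
      fun hz => (he.symm.subset ⟨hz, show P z ∈ O from e ▸ hy⟩).1⟩
  have h1 : 𝓝[RVA A Ω univ P] w = 𝓝[RVA A Ω₂ univ P] w := by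
    refine nhdsWithin_eq_iff_eventuallyEq.2 (eventuallyEq_set.2 ?_)
    filter_upwards [hO] with y hy
    exact and_congr_right fun _ => ⟨fun H z hz e => H z ((h0 y hy z e).2 hz) e,
      fun H z hz e => H z ((h0 y hy z e).1 hz) e⟩
  have h2 : fsA Ω P h =ᶠ[𝓝[RVA A Ω₂ univ P] w] fsA Ω₂ P h := by
    filter_upwards [mem_nhdsWithin_of_mem_nhds hO] with y hy
    have : Ω ∩ P ⁻¹' {y} = Ω₂ ∩ P ⁻¹' {y} :=
      Set.ext fun z => and_congr_left fun e => h0 y hy z e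
    rw [fsA, fsA, this]
  rw [trA, trA, h1, limUnder, limUnder, map_congr h2]

omit [T2Space X] [MeasurableSpace X] [BorelSpace X] in
theorem sbd4_nhds (hP : PrA A Ω Ω' P) {w : E N} (hw : w ∈ Ω') :
    𝓝[RVA A Ω univ P] w = 𝓝[RVA A Ω Ω' P] w := by
  refine nhdsWithin_eq_iff_eventuallyEq.2 (eventuallyEq_set.2 ?_)
  filter_upwards [hP.isOpen'.mem_nhds hw] with y hy
  exact and_congr_left fun _ => ⟨fun _ => hy, fun _ => trivial⟩

omit [MeasurableSpace X] [BorelSpace X] in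
theorem sbd4_sheet (hP : PrA A Ω Ω' P) {w : E N} (hw : w ∈ RVA A Ω Ω' P) :
    ∃ (d : ℕ) (q : Fin d → X), Function.Injective q ∧ Ω ∩ P ⁻¹' {w} = range q := by
  obtain ⟨d, O, c, q, -, hO, -, -, hq⟩ := hP.sheets hw
  exact ⟨d, _, (hq w hO).2⟩

omit [T2Space X] [MeasurableSpace X] [BorelSpace X] in
theorem sbd4_sep (hP : PrA A Ω Ω' P) {z : X} (hz : z ∈ Ω) (T : Finset X) (hT : ∀ q ∈ T, q ∈ Ω) :
    ∃ h : X → ℂ, HolOn A Ω h ∧ h z = 1 ∧ ∀ q ∈ T, q ≠ z → h q = 0 := by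
  classical
  obtain ⟨M, v, h1, h2, -⟩ := hP.emb
  obtain ⟨g, h3, h4, h5⟩ := bptr_sep (v z) ((T.image v).erase (v z)) (Finset.notMem_erase _ _)
  exact ⟨fun x => g (v x), fun i => h3.comp_differentiableOn (h2 i), h4, fun q hq e =>
    h5 _ (Finset.mem_erase.2 ⟨fun e' => e (h1 (hT q hq) hz e'), Finset.mem_image_of_mem v hq⟩)⟩

theorem sbd4_enorm {a b c : ℂ} {g : ℝ} (h : ‖a‖ ^ 2 * ‖c‖ ^ 2 ≤ ‖b‖ * g) :
    ‖a‖ₑ ^ 2 * ‖c‖ₑ ^ 2 ≤ ‖b‖ₑ * ENNReal.ofReal g := by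
  rw [← ofReal_norm, ← ofReal_norm, ← ofReal_norm, ← ENNReal.ofReal_pow (norm_nonneg _),
    ← ENNReal.ofReal_pow (norm_nonneg _), ← ENNReal.ofReal_mul (by positivity),
    ← ENNReal.ofReal_mul (norm_nonneg _)]
  exact ENNReal.ofReal_le_ofReal h

variable [IsFiniteMeasure μ]

theorem sbd4_main (hP : PrA A Ω Ω' P) (hμ : IsVolume A μ) {h : X → ℂ} (hh : HolOn A Ω h) :
    DifferentiableOn ℂ (trA A Ω P h) Ω' ∧ EqOn (trA A Ω P h) (fsA Ω P h) (RVA A Ω Ω' P) := by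
  obtain ⟨t, ht, he⟩ := hP.trace hμ hh
  have h1 : EqOn (trA A Ω P h) t Ω' := fun w hw => by
    have := mem_closure_iff_nhdsWithin_neBot.1 (hP.rv_dense hw)
    rw [trA, sbd4_nhds hP hw]
    refine Tendsto.limUnder_eq (Tendsto.congr' (eventuallyEq_of_mem self_mem_nhdsWithin he) ?_)
    exact (ht.continuousOn.continuousAt (hP.isOpen'.mem_nhds hw)).continuousWithinAt
  exact ⟨ht.congr h1, fun w hw => (h1 hw.1).trans (he hw)⟩

theorem trA_hol (hP : PrA A Ω Ω' P) (hμ : IsVolume A μ) {h : X → ℂ} (hh : HolOn A Ω h) :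
    DifferentiableOn ℂ (trA A Ω P h) Ω' := (sbd4_main hP hμ hh).1

theorem sbd4_lim (hP : PrA A Ω Ω' P) (hμ : IsVolume A μ) {w : E N} (hw : w ∈ Ω') :
    ∃ (d : ℕ) (q : E N → Fin d → X),
      (∀ᶠ x in 𝓝[RVA A Ω Ω' P] w, Ω ∩ P ⁻¹' {x} = range (q x)) ∧
      ∀ U : Ultrafilter (E N), ↑U ≤ 𝓝[RVA A Ω Ω' P] w → ∃ y, Tendsto q U (𝓝 y) ∧
        (∀ i, y i ∈ Ω ∧ P (y i) = w) ∧
        ∀ h : X → ℂ, HolOn A Ω h → trA A Ω P h w = ∑ i, h (y i) := by
  obtain ⟨d, hd, hc⟩ := hP.degree hμ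
  have h1 : ∀ x, x ∈ RVA A Ω Ω' P ∧ d x = d w → ∃ q : Fin (d w) → X, Function.Injective q ∧
      Ω ∩ P ⁻¹' {x} = range q := by
    intro x hx
    obtain ⟨d', q, hq⟩ := sbd4_sheet hP hx.1
    have e : d' = d w := by
      rw [← hx.2, ← (hc x hx.1).2, hq.2, ncard_range_of_injective hq.1]
      simp
    subst e
    exact ⟨_, hq⟩
  have h2 : ∀ᶠ x in 𝓝[RVA A Ω Ω' P] w, x ∈ RVA A Ω Ω' P ∧ d x = d w :=
    eventually_mem_nhdsWithin.and (mem_nhdsWithin_of_mem_nhds (hd w hw))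
  have : Nonempty (Fin (d w) → X) := by
    have := mem_closure_iff_nhdsWithin_neBot.1 (hP.rv_dense hw)
    obtain ⟨x, hx⟩ := h2.exists
    exact ⟨(h1 x hx).choose⟩
  choose! q hq using h1
  refine ⟨d w, q, h2.mono fun x hx => (hq x hx).2, fun U hU => ?_⟩
  obtain ⟨r, hr, hb⟩ := nhds_basis_closedBall.mem_iff.1 (hP.isOpen'.mem_nhds hw)
  have hK := hP.proper _ (isCompact_closedBall w r) hb
  have h3 : ∀ᶠ x in (U : Filter (E N)), ∀ i, q x i ∈ Ω ∩ P ⁻¹' {x} :=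
    (h2.filter_mono hU).mono fun x hx i => (hq x hx).2.symm.subset (mem_range_self i)
  have hw' : Tendsto id (U : Filter (E N)) (𝓝 w) := hU.trans nhdsWithin_le_nhds
  obtain ⟨y, hy, hl⟩ := (isCompact_univ_pi fun _ : Fin (d w) => hK).ultrafilter_le_nhds (U.map q)
    (by
      rw [Ultrafilter.coe_map, le_principal_iff, mem_map]
      filter_upwards [h3, hw' (closedBall_mem_nhds w hr)] with x h4 h5 i _
      refine ⟨(h4 i).1, ?_⟩
      have e : P (q x i) = x := (h4 i).2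
      rw [mem_preimage, e]
      exact h5)
  have hl' : Tendsto q U (𝓝 y) := hl
  have hi : ∀ i, Tendsto (fun x => q x i) U (𝓝 (y i)) := tendsto_pi_nhds.1 hl'
  have hm : ∀ i, Ω ∈ 𝓝 (y i) := fun i => hP.isOpen.mem_nhds (hy i trivial).1
  refine ⟨y, hl', fun i => ⟨(hy i trivial).1, ?_⟩, fun h hh => ?_⟩
  · exact tendsto_nhds_unique ((((hP.hol.cont hP.isOpen).continuousAt (hm i)).tendsto.comp
      (hi i)).congr' (h3.mono fun x hx => (hx i).2)) hw'
  · have h4 := sbd4_main hP hμ hh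
    refine tendsto_nhds_unique (f := trA A Ω P h) (l := (U : Filter (E N)))
      ((h4.1.continuousOn.continuousAt (hP.isOpen'.mem_nhds hw)).tendsto.comp hw') ?_
    refine (tendsto_finsetSum _ fun i _ =>
      ((hh.cont hP.isOpen).continuousAt (hm i)).tendsto.comp (hi i)).congr' ?_
    filter_upwards [hU h2] with x hx
    rw [h4.2 hx.1, fsA_sum (hq x hx).1 (hq x hx).2]
    rfl

theorem trA_fam (hP : PrA A Ω Ω' P) (hμ : IsVolume A μ) (hN : 1 ≤ N) {w : E N} (hw : w ∈ Ω') :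
    ∃ (d : ℕ) (y : Fin d → X), (∀ i, y i ∈ Ω ∧ P (y i) = w) ∧
      (∀ z ∈ Ω, P z = w → ∃ i, y i = z) ∧
      ∀ h : X → ℂ, HolOn A Ω h → trA A Ω P h w = ∑ i, h (y i) := by
  classical
  obtain ⟨d, q, hq, hl⟩ := sbd4_lim hP hμ hw
  have := mem_closure_iff_nhdsWithin_neBot.1 (hP.rv_dense hw)
  obtain ⟨y, -, hy, hs⟩ := hl (Ultrafilter.of _) (Ultrafilter.of_le _)
  refine ⟨d, y, hy, fun z hz e => ?_, hs⟩
  have h1 := mem_closure_iff_nhdsWithin_neBot.1 (hP.rv_pull hN hz)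
  set F := 𝓝[{x | x ∈ Ω ∧ P x ∈ RVA A Ω Ω' P}] z with hF
  set V := Ultrafilter.of F
  have hV : (V : Filter X) ≤ F := Ultrafilter.of_le _
  have hz' : Tendsto id (V : Filter X) (𝓝 z) := hV.trans nhdsWithin_le_nhds
  have hm : ∀ᶠ x in (V : Filter X), x ∈ Ω ∧ P x ∈ RVA A Ω Ω' P := hV self_mem_nhdsWithin
  have hle : Tendsto P V (𝓝[RVA A Ω Ω' P] w) := tendsto_nhdsWithin_iff.2
    ⟨e ▸ ((hP.hol.cont hP.isOpen).continuousAt (hP.isOpen.mem_nhds hz)).tendsto.comp hz',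
      hm.mono fun x hx => hx.2⟩
  obtain ⟨y', hy1, hy2, hs'⟩ := hl (V.map P) hle
  have h2 : ∀ᶠ x in (V : Filter X), ∃ i ∈ (univ : Set (Fin d)), q (P x) i = x := by
    filter_upwards [hm, hle.eventually hq] with x h3 h4
    obtain ⟨i, hi⟩ := h4.subset ⟨h3.1, rfl⟩
    exact ⟨i, trivial, hi⟩
  obtain ⟨j, -, hj⟩ := (Ultrafilter.eventually_exists_mem_iff finite_univ).1 h2
  have h3 : y' j = z := tendsto_nhds_unique
    (Tendsto.congr' hj (tendsto_map'_iff.1 (tendsto_pi_nhds.1 hy1 j))) hz'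
  by_contra hc
  have hT : ∀ x ∈ Finset.univ.image y ∪ Finset.univ.image y', x ∈ Ω := fun x hx => by
    rcases Finset.mem_union.1 hx with hx | hx <;> obtain ⟨i, -, rfl⟩ := Finset.mem_image.1 hx
    · exact (hy i).1
    · exact (hy2 i).1
  obtain ⟨h, h4, h5, h6⟩ := sbd4_sep hP hz _ hT
  have h7 : ∑ i, h (y' i) = 0 := by
    rw [← hs' h h4, hs h h4]
    exact Finset.sum_eq_zero fun i _ => h6 _ (by simp) fun e' => hc ⟨i, e'⟩
  have h8 := (Finset.sum_eq_zero_iff_of_nonneg fun i _ => ?_).1 h7 j (Finset.mem_univ j)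
  · rw [h3, h5] at h8
    exact one_ne_zero h8
  · by_cases e' : y' i = z
    · rw [e', h5]
      exact zero_le_one
    · exact (h6 _ (by simp) e').ge

theorem sbd4_fib (hP : PrA A Ω Ω' P) (hμ : IsVolume A μ) {w : E N} (hw : w ∈ RVA A Ω Ω' P) {d : ℕ}
    (hd : trA A Ω P (fun _ => 1) w = d) :
    ∃ q : Fin d → X, Function.Injective q ∧ Ω ∩ P ⁻¹' {w} = range q := by
  obtain ⟨d', q, hq⟩ := sbd4_sheet hP hw
  rw [(sbd4_main hP hμ (h := fun _ => 1) fun _ => differentiableOn_const _).2 hw,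
    fsA_sum hq.1 hq.2] at hd
  obtain rfl : d' = d := by simpa using hd
  exact ⟨_, hq⟩

theorem trA_deg (hP : PrA A Ω Ω' P) (hμ : IsVolume A μ) {S : Set (E N)} (hS : MeasurableSet S)
    (hs : S ⊆ Ω') {d : ℕ} (hd : ∀ w ∈ S, trA A Ω P (fun _ => 1) w = d) {G : X → ℝ}
    (hG : ∀ i, ∀ z ∈ dom A Ω i,
      ‖(Jg A P i z).det‖ ^ 2 ≤ ‖((A.C i).σ z).det‖ * G (A.p i z)) :
    d * volume S ≤ ∫⁻ x in Ω ∩ P ⁻¹' S, ENNReal.ofReal (G x) ∂μ := by
  have h1 := hP.area_le hμ hS hs (u := fun _ => 1) (G := fun x => ENNReal.ofReal (G x))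
    (u' := fun _ _ => 1) (fun _ => measurable_const) fun i z hz _ => ⟨rfl, by
      have := sbd4_enorm (c := 1) (by simpa using hG i z hz)
      simpa using this⟩
  rw [← setLIntegral_const]
  refine le_trans (lintegral_mono_ae ((hP.ae hS hs).mono fun w hw => ?_)) h1
  obtain ⟨q, h2, h3⟩ := sbd4_fib hP hμ hw.1 (hd w hw.2)
  rw [fsA_sum h2 h3]
  simp

theorem trA_grad (hP : PrA A Ω Ω' P) (hμ : IsVolume A μ) {S : Set (E N)} (hS : MeasurableSet S)
    (hs : S ⊆ Ω') {d : ℕ} (hd : ∀ w ∈ S, trA A Ω P (fun _ => 1) w = d) {h : X → ℂ}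
    (hh : HolOn A Ω h) (v : E N) {G : X → ℝ} (hG : ∀ i, ∀ z ∈ dom A Ω i, ∀ u, Jg A P i z *ᵥ u = v →
      ‖(Jg A P i z).det‖ ^ 2 * ‖fderiv ℂ (fun w => h (A.p i w)) z u‖ ^ 2 ≤
        ‖((A.C i).σ z).det‖ * G (A.p i z)) :
    ∫⁻ w in S, ‖fderiv ℂ (trA A Ω P h) w v‖ₑ ^ 2 ≤
      d * ∫⁻ x in Ω ∩ P ⁻¹' S, ENNReal.ofReal (G x) ∂μ := by
  obtain ⟨D, hD, hD'⟩ := hP.exists_der hh v
  have h1 := hP.area_le hμ hS hs (u := fun x => ‖D x‖ₑ ^ 2) (G := fun x => ENNReal.ofReal (G x))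
    (u' := fun i z => ‖fderiv ℂ (fun w => h (A.p i w)) z ((Jg A P i z)⁻¹ *ᵥ v)‖ₑ ^ 2)
    (fun i => (bptr_meas (fun w => P (A.p i w)) (fun w => h (A.p i w)) v).enorm.pow_const 2)
    fun i z hz h0 => ⟨by rw [hD i z hz h0], sbd4_enorm (hG i z hz _ (by
      rw [Matrix.mulVec_mulVec, Matrix.mul_nonsing_inv _ (isUnit_iff_ne_zero.2 h0),
        Matrix.one_mulVec]))⟩
  refine le_trans ?_ (mul_le_mul_right h1 _)
  rw [← lintegral_const_mul' _ _ (ENNReal.natCast_ne_top d)]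
  refine lintegral_mono_ae ((hP.ae hS hs).mono fun w hw => ?_)
  obtain ⟨q, h2, h3⟩ := sbd4_fib hP hμ hw.1 (hd w hw.2)
  rw [hD' _ (sbd4_main hP hμ hh).2 w hw.1, fsA_sum h2 h3, fsA_sum h2 h3]
  exact bptr_cs _

end Pool.Agent.BP
end

-- part Pool.Agent.P.MP_63735c_ag.SBD8
section

/-! Traces on a scale. -/

open scoped ComplexOrder ContDiff Matrix Topology ENNReal
open Set Metric MeasureTheory Filter

namespace Pool.Agent.BP

open Pool.Agent.SPF Pool.Agent.AB Pool.Agent.CK Pool.Agent.SE Pool.Agent.NL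

variable {N n : ℕ} {X Z : Type} [TopologicalSpace X] [TopologicalSpace Z] {A : Atlas X N}
  {K : Form11 A} {F : Fib A n} {φ : X → ℝ} {j : X → Z}

namespace Fib

/-- The part of the box over the tube `k`. -/
def SoS (F : Fib A n) (e : Sz A K F.W φ j n) (M : Set X) (k : F.J) : Set X :=
  j ⁻¹' e.box ∩ (F.U k ∩ M)

/-- The target. -/
def TaS (F : Fib A n) (e : Sz A K F.W φ j n) (M : Set X) (k : F.J) : Set (E N) :=
  e.l ⁻¹' ((F.g '' (F.U k ∩ M)) ×ˢ ball e.a (2 * e.ρ))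

open Classical in
/-- The trace. -/
noncomputable def TrZ (F : Fib A n) (e : Sz A K F.W φ j n) (M : Set X) (h : X → ℂ) (x : X)
    (a : E n) : ℂ :=
  if hx : ∃ k, x ∈ F.U k then trA A (F.SoS e M hx.choose) (F.Pz e) h (e.l.symm (F.g x, a)) else 0

/-- The degree. -/
noncomputable def degZ (F : Fib A n) (e : Sz A K F.W φ j n) (M : Set X) (x : X) : ℕ :=
  ⌊(F.TrZ e M (fun _ => 1) x e.a).re⌋₊

/-- The standing assumptions on a scale. -/
structure Ok (F : Fib A n) (e : Sz A K F.W φ j n) (M : Set X) : Prop where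
  N_pos : 1 ≤ N
  cont : Continuous j
  j_inj : Function.Injective j
  inj : ∀ i, InjOn (A.p i) (A.C i).W
  sat : F.Sat M
  dis : ∀ x ∈ M, j x ∉ e.shell

variable {e : Sz A K F.W φ j n} {M : Set X} {k : F.J} {x : X} {a : E n} {h : X → ℂ}

theorem soS_sub : F.SoS e M k ⊆ F.W ∩ j ⁻¹' e.O := fun _ hz => ⟨F.U_sub k hz.2.1, hz.1.1⟩

theorem sbd8_l (z : X) : e.l (F.Pz e z) = (F.g z, e.L (e.v z)) := e.l.apply_symm_apply _

theorem sbd8_hol : HolV A (F.W ∩ j ⁻¹' e.O) (F.Pz e) := fun i =>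
  e.l.symm.differentiable.comp_differentiableOn
    (((F.g_hol i).mono fun _ hz => ⟨hz.1, hz.2.1⟩).prodMk
      (e.L.differentiable.comp_differentiableOn ((e.hol i).mono fun _ hz => ⟨hz.1, hz.2.2⟩)))

theorem sbd8_mono (hh : HolOn A (F.W ∩ j ⁻¹' e.O) h) : HolOn A (F.SoS e M k) h :=
  fun i => (hh i).mono fun _ hz => ⟨hz.1, soS_sub hz.2⟩

theorem sbd8_open (hM : F.Sat M) (k : F.J) : IsOpen (F.TaS e M k) :=
  ((F.g_open ((F.U_open k).inter hM.opn) fun _ hy => F.U_sub k hy.1).prod isOpen_ball).preimage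
    e.l.continuous

theorem sbd8_mem (hx : x ∈ F.U k ∩ M) (ha : a ∈ ball e.a (2 * e.ρ)) :
    e.l.symm (F.g x, a) ∈ F.TaS e M k := by
  rw [TaS, mem_preimage, e.l.apply_symm_apply]
  exact ⟨⟨x, hx, rfl⟩, ha⟩

theorem sbd8_sub (k k' : F.J) :
    F.SoS e M k ∩ F.Pz e ⁻¹' (e.l ⁻¹' ((F.g '' (F.U k ∩ F.U k' ∩ M)) ×ˢ univ)) ⊆ F.SoS e M k' := by
  rintro z ⟨hz, ht⟩
  rw [mem_preimage, mem_preimage, sbd8_l] at ht
  obtain ⟨y, hy, he⟩ := ht.1
  have hr := (F.rel k y hy.1.1 _).2 ⟨hz.2.1, he.symm⟩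
  exact ⟨hz.1, ((F.rel k' y hy.1.2 _).1 hr).1, hz.2.2⟩

theorem Ok.prA [T2Space X] [T2Space Z] (H : F.Ok e M) (k : F.J) :
    PrA A (F.SoS e M k) (F.TaS e M k) (F.Pz e) := by
  obtain ⟨h1, h2, -, -, h5, h6, -⟩ := e.cbox_cpt
  have hM := H.sat
  have hd : ∀ i, dom A (F.SoS e M k) i ⊆ dom A (j ⁻¹' e.O) i := fun _ _ hz => ⟨hz.1, hz.2.1.1⟩
  have ho := (h5.preimage H.cont).inter ((F.U_open k).inter hM.opn)
  refine ⟨H.inj, ho, sbd8_open hM k, fun i => (sbd8_hol i).mono fun _ hz => ⟨hz.1, soS_sub hz.2⟩,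
    fun z hz => ?_, fun C hC hs => ?_, e.M, e.v, fun y hy y' hy' c => H.j_inj (e.inj hy.1.1 hy'.1.1 c),
    fun i => (e.hol i).mono (hd i), fun i z hz => e.imm i z (hd i hz)⟩
  · rw [TaS, mem_preimage, sbd8_l]
    exact ⟨⟨_, hz.2, rfl⟩, hz.1.2.1⟩
  · have hC1 : IsCompact ((fun w => (e.l w).1) '' C) :=
      hC.image (continuous_fst.comp e.l.continuous)
    have hs1 : (fun w => (e.l w).1) '' C ⊆ F.g '' (F.U k ∩ M) := by
      rintro _ ⟨w, hw, rfl⟩
      exact (hs hw).1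
    have hK := F.prop k _ hC1 (hs1.trans (by
      rintro _ ⟨y, hy, rfl⟩
      exact F.maps k hy.1))
    have hKM : F.U k ∩ F.g ⁻¹' ((fun w => (e.l w).1) '' C) ⊆ M := by
      intro y hy
      obtain ⟨y', hy', he⟩ := hs1 hy.2
      exact hM.sat y' hy'.2 y ((F.rel k y' hy'.1 y).2 ⟨hy.1, he.symm⟩)
    have hD := hK.inter_right (h1.isClosed.preimage H.cont)
    have hE := (((sbd8_hol (F := F) (e := e)).cont (F.W_open.inter (e.opn.preimage H.cont))).mono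
      fun z hz => ⟨F.U_sub k hz.1.1, h2 hz.2⟩).preimage_isClosed_of_isClosed hD.isClosed hC.isClosed
    have hc := hD.of_isClosed_subset hE inter_subset_left
    refine (congrArg IsCompact (Set.Subset.antisymm ?_ ?_)).mp hc
    · rintro z ⟨⟨hz2, hz1⟩, hz3⟩
      have hm : z ∈ M := hKM hz2
      have ht := hs hz3
      rw [TaS, mem_preimage, sbd8_l] at ht
      refine ⟨⟨⟨hz1.1, ht.2, ?_⟩, hz2.1, hm⟩, hz3⟩
      by_contra hn
      exact H.dis z hm ⟨hz1.1, hz1.2.1, hz1.2.2, fun hb => hn (ball_subset_ball e.lt.le hb)⟩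
    · rintro z ⟨hz, hz3⟩
      refine ⟨⟨⟨hz.2.1, _, hz3, ?_⟩, h6 hz.1⟩, hz3⟩
      show (e.l (F.Pz e z)).1 = _
      rw [sbd8_l]

theorem TrZ_eq (hM : F.Sat M) (hx : x ∈ F.U k ∩ M) (h : X → ℂ) (a : E n) :
    F.TrZ e M h x a = trA A (F.SoS e M k) (F.Pz e) h (e.l.symm (F.g x, a)) := by
  have hx' : ∃ k, x ∈ F.U k := ⟨k, hx.1⟩
  have hj := hx'.choose_spec
  rw [TrZ, dif_pos hx']
  refine trA_congr (O := e.l ⁻¹' ((F.g '' (F.U k ∩ F.U hx'.choose ∩ M)) ×ˢ univ)) ?_ ?_ h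
  · refine IsOpen.mem_nhds (IsOpen.preimage e.l.continuous (IsOpen.prod (F.g_open
      (((F.U_open k).inter (F.U_open _)).inter hM.opn) fun _ hy => F.U_sub k hy.1.1)
        isOpen_univ)) ?_
    rw [mem_preimage, e.l.apply_symm_apply]
    exact ⟨⟨x, ⟨⟨hx.1, hj⟩, hx.2⟩, rfl⟩, trivial⟩
  · refine Set.Subset.antisymm (fun z hz => ⟨?_, hz.2⟩) fun z hz => ⟨sbd8_sub k _ hz, hz.2⟩
    rw [inter_comm (F.U k)] at hz
    exact sbd8_sub _ k hz

variable [T2Space X] [T2Space Z] [MeasurableSpace X] [BorelSpace X] {μ : Measure X}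
  [IsFiniteMeasure μ]

omit [T2Space Z] in
theorem sbd8_nat {Ω : Set X} {Ω' : Set (E N)} {P : X → E N} (hP : PrA A Ω Ω' P)
    (hμ : IsVolume A μ) (hN : 1 ≤ N) {w : E N} (hw : w ∈ Ω') :
    ∃ d : ℕ, trA A Ω P (fun _ => 1) w = d := by
  obtain ⟨d, y, -, -, h3⟩ := trA_fam hP hμ hN hw
  exact ⟨d, by rw [h3 _ fun _ => differentiableOn_const _]; simp⟩

omit [T2Space Z] in
theorem sbd8_lc {Ω : Set X} {Ω' : Set (E N)} {P : X → E N} (hP : PrA A Ω Ω' P)
    (hμ : IsVolume A μ) (hN : 1 ≤ N) {w : E N} (hw : w ∈ Ω') :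
    ∀ᶠ w' in 𝓝 w, trA A Ω P (fun _ => 1) w' = trA A Ω P (fun _ => 1) w := by
  have hn := hP.isOpen'.mem_nhds hw
  have hc := ((trA_hol hP hμ (h := fun _ => 1) fun _ =>
    differentiableOn_const _).continuousOn.continuousAt hn).eventually (ball_mem_nhds _ one_pos)
  obtain ⟨d, hd⟩ := sbd8_nat hP hμ hN hw
  filter_upwards [hn, hc] with w' h1 h2
  obtain ⟨d', hd'⟩ := sbd8_nat hP hμ hN h1
  rw [hd, hd'] at h2 ⊢
  have h3 : dist (d' : ℂ) (d : ℂ) < 1 := h2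
  have h4 : ((d' : ℂ) - d) = (((d' : ℝ) - d : ℝ) : ℂ) := by push_cast; rfl
  rw [dist_eq_norm, h4, Complex.norm_real, Real.norm_eq_abs, abs_lt] at h3
  have h5 : d < d' + 1 := by exact_mod_cast (by linarith [h3.1] : (d : ℝ) < d' + 1)
  have h6 : d' < d + 1 := by exact_mod_cast (by linarith [h3.2] : (d' : ℝ) < d + 1)
  rw [show d' = d by omega]

theorem Ok.deg_eq (H : F.Ok e M) (hμ : IsVolume A μ) (hx : x ∈ M) (ha : a ∈ ball e.a (2 * e.ρ)) :
    F.TrZ e M (fun _ => 1) x a = F.degZ e M x := by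
  obtain ⟨k, hj⟩ := F.cov x (H.sat.sub hx)
  have hxj : x ∈ F.U k ∩ M := ⟨hj, hx⟩
  have h0 : e.a ∈ ball e.a (2 * e.ρ) := mem_ball_self (by linarith [e.ρ_pos])
  have hc : ContinuousOn (fun b => ⌊(trA A (F.SoS e M k) (F.Pz e) (fun _ => 1)
      (e.l.symm (F.g x, b))).re⌋₊) (ball e.a (2 * e.ρ)) := by
    intro b hb
    have h1 : ContinuousAt (fun b => e.l.symm (F.g x, b)) b :=
      (e.l.symm.continuous.comp (continuous_const.prodMk continuous_id)).continuousAt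
    have h2 := h1.eventually (sbd8_lc (H.prA k) hμ H.N_pos (sbd8_mem hxj hb))
    refine ContinuousAt.continuousWithinAt (tendsto_const_nhds.congr' ?_)
    filter_upwards [h2] with c hc
    rw [hc]
  have hk := (convex_ball e.a (2 * e.ρ)).isPreconnected.constant hc ha h0
  obtain ⟨d, hd'⟩ := sbd8_nat (H.prA k) hμ H.N_pos (sbd8_mem hxj ha)
  rw [degZ, TrZ_eq H.sat hxj, TrZ_eq H.sat hxj, ← hk, hd']
  simp

theorem Ok.deg_lc (H : F.Ok e M) (hμ : IsVolume A μ) (hx : x ∈ M) :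
    ∀ᶠ y in 𝓝 x, F.degZ e M y = F.degZ e M x := by
  have hM := H.sat
  obtain ⟨k, hj⟩ := F.cov x (hM.sub hx)
  have hxj : x ∈ F.U k ∩ M := ⟨hj, hx⟩
  have h0 : e.a ∈ ball e.a (2 * e.ρ) := mem_ball_self (by linarith [e.ρ_pos])
  have h1 : ContinuousAt (fun y => e.l.symm (F.g y, e.a)) x :=
    e.l.symm.continuous.continuousAt.comp
      ((F.g_cont.continuousAt (F.W_open.mem_nhds (hM.sub hx))).prodMk continuousAt_const)
  filter_upwards [h1.eventually (sbd8_lc (H.prA k) hμ H.N_pos (sbd8_mem hxj h0)),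
    ((F.U_open k).inter hM.opn).mem_nhds hxj] with y h2 h3
  rw [degZ, degZ, TrZ_eq hM hxj, TrZ_eq hM h3, h2]

omit [T2Space X] [T2Space Z] [MeasurableSpace X] [BorelSpace X] in
theorem degZ_inv (hM : F.Sat M) (hx : x ∈ M) {y : X} (hy : F.r x y) :
    F.degZ e M y = F.degZ e M x := by
  obtain ⟨k, hj⟩ := F.cov x (hM.sub hx)
  obtain ⟨h1, h2⟩ := (F.rel k x hj y).1 hy
  rw [degZ, degZ, TrZ_eq hM ⟨hj, hx⟩, TrZ_eq hM ⟨h1, hM.sat x hx y hy⟩, h2]

theorem Ok.fam (H : F.Ok e M) (hμ : IsVolume A μ) (hx : x ∈ M) (ha : a ∈ ball e.a (2 * e.ρ)) :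
    ∃ y : Fin (F.degZ e M x) → X, (∀ k, j (y k) ∈ e.box ∧ F.r x (y k) ∧ e.L (e.v (y k)) = a) ∧
      (∀ z, j z ∈ e.box → F.r x z → e.L (e.v z) = a → ∃ k, y k = z) ∧
      ∀ h, HolOn A (F.W ∩ j ⁻¹' e.O) h → F.TrZ e M h x a = ∑ k, h (y k) := by
  have hM := H.sat
  obtain ⟨k, hj⟩ := F.cov x (hM.sub hx)
  have hxj : x ∈ F.U k ∩ M := ⟨hj, hx⟩
  obtain ⟨d, y, h1, h2, h3⟩ := trA_fam (H.prA k) hμ H.N_pos (sbd8_mem hxj ha)
  have h4 := H.deg_eq hμ hx ha
  rw [TrZ_eq hM hxj, h3 _ fun _ => differentiableOn_const _] at h4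
  have h5 : d = F.degZ e M x := by simpa using h4
  subst h5
  refine ⟨y, fun l => ?_, fun z hz hr hl => h2 z ?_ ?_, fun h hh => ?_⟩
  · have h6 := e.l.symm.injective (h1 l).2
    exact ⟨(h1 l).1.1, (F.rel k x hj _).2 ⟨(h1 l).1.2.1, congrArg Prod.fst h6⟩,
      congrArg Prod.snd h6⟩
  · exact ⟨hz, ((F.rel k x hj _).1 hr).1, hM.sat x hx _ hr⟩
  · rw [Pz, ((F.rel k x hj _).1 hr).2, hl]
  · rw [TrZ_eq hM hxj, h3 h (sbd8_mono hh)]

theorem Ok.hol_a (H : F.Ok e M) (hμ : IsVolume A μ) (hh : HolOn A (F.W ∩ j ⁻¹' e.O) h)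
    (hx : x ∈ M) : DifferentiableOn ℂ (F.TrZ e M h x) (ball e.a (2 * e.ρ)) := by
  obtain ⟨k, hj⟩ := F.cov x (H.sat.sub hx)
  have hxj : x ∈ F.U k ∩ M := ⟨hj, hx⟩
  have h1 : DifferentiableOn ℂ (fun b => e.l.symm (F.g x, b)) (ball e.a (2 * e.ρ)) :=
    (e.l.symm.differentiable.comp
      ((differentiable_const _).prodMk differentiable_id)).differentiableOn
  exact ((trA_hol (H.prA k) hμ (sbd8_mono hh)).comp h1
    fun b hb => sbd8_mem hxj hb).congr fun b _ => TrZ_eq H.sat hxj h b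

theorem Ok.loc (H : F.Ok e M) (hμ : IsVolume A μ) (hh : HolOn A (F.W ∩ j ⁻¹' e.O) h)
    (ha : a ∈ ball e.a (2 * e.ρ)) {i : A.ι} {z : E N} (hz : z ∈ dom A (F.U k ∩ M) i) :
    DifferentiableAt ℂ (fun y => F.TrZ e M h (A.p i y) a) z ∧
      ∀ v, fderiv ℂ (fun y => F.TrZ e M h (A.p i y) a) z v =
        fderiv ℂ (trA A (F.SoS e M k) (F.Pz e) h) (e.l.symm (F.g (A.p i z), a))
          (e.l.symm (Jg A F.g i z *ᵥ v, 0)) := by
  have hM := H.sat
  have hn := (A.C i).isOpen.mem_nhds hz.1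
  have hp : ContinuousAt (A.p i) z := (A.cont i).continuousAt hn
  have he : (fun y => F.TrZ e M h (A.p i y) a) =ᶠ[𝓝 z] fun y =>
      trA A (F.SoS e M k) (F.Pz e) h (e.l.symm (F.g (A.p i y), a)) := by
    filter_upwards [hp.eventually (((F.U_open k).inter hM.opn).mem_nhds hz.2)] with y hy
    exact TrZ_eq hM hy h a
  have hg : DifferentiableAt ℂ (fun y => F.g (A.p i y)) z :=
    (F.g_hol i).differentiableAt (((A.cont i).isOpen_inter_preimage (A.C i).isOpen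
      F.W_open).mem_nhds ⟨hz.1, F.U_sub k hz.2.1⟩)
  have ht := ((trA_hol (H.prA k) hμ (sbd8_mono hh)).differentiableAt
    ((sbd8_open hM k).mem_nhds (sbd8_mem hz.2 ha))).hasFDerivAt
  have h1 := e.l.symm.hasFDerivAt.comp z (hg.hasFDerivAt.prodMk (hasFDerivAt_const a z))
  have h2 := (ht.comp z h1).congr_of_eventuallyEq he
  refine ⟨h2.differentiableAt, fun v => ?_⟩
  rw [h2.fderiv, Jg, jac_mulVec]
  rfl

end Fib

end Pool.Agent.BP
end

-- part Pool.Agent.P.MP_63735c_ag.BPD3a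
section

/-! Traces on a scale. -/

open scoped ComplexOrder ContDiff Matrix Topology ENNReal
open Set Metric MeasureTheory Filter

namespace Pool.Agent.BP

open Pool.Agent.SPF Pool.Agent.AB Pool.Agent.CK Pool.Agent.SE Pool.Agent.NL

variable {N n : ℕ} {X : Type} [TopologicalSpace X] {A : Atlas X N} {F : Fib A n}

namespace Fib

/-- The part of the box over the tube `j`. -/
def So (F : Fib A n) (e : Sc A n) (M : Set X) (j : F.J) : Set (E N) :=
  e.box ∩ A.p e.i ⁻¹' (F.U j ∩ M)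

/-- The target. -/
def Ta (F : Fib A n) (e : Sc A n) (M : Set X) (j : F.J) : Set (E N) :=
  e.l ⁻¹' ((F.g '' (F.U j ∩ M)) ×ˢ ball e.a (2 * e.ρ))

open Classical in
/-- The trace. -/
noncomputable def Tr (F : Fib A n) (e : Sc A n) (M : Set X) (h : E N → ℂ) (x : X) (a : E n) : ℂ :=
  if hx : ∃ j, x ∈ F.U j then tr (F.So e M hx.choose) (F.Pm e.i e.l) h (e.l.symm (F.g x, a)) else 0

/-- The degree. -/
noncomputable def deg (F : Fib A n) (e : Sc A n) (M : Set X) (x : X) : ℕ :=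
  ⌊(F.Tr e M (fun _ => 1) x e.a).re⌋₊

variable {e : Sc A n} {M : Set X} {j : F.J} {x : X} {a : E n} {h : E N → ℂ}

theorem so_sub : F.So e M j ⊆ dom A F.W e.i := by
  intro z hz
  obtain ⟨-, h2, -, -, -, h6, -⟩ := e.cbox_cpt
  exact ⟨h2 (h6 hz.1), F.U_sub j hz.2.1⟩

theorem bpd3a_l_pm (i : A.ι) (l : E N ≃L[ℂ] E n × E n) (z : E N) :
    l (F.Pm i l z) = (F.g (A.p i z), (l z).1) := l.apply_symm_apply _

theorem bpd3a_pm_hol {i : A.ι} {l : E N ≃L[ℂ] E n × E n} :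
    DifferentiableOn ℂ (F.Pm i l) (dom A F.W i) :=
  l.symm.differentiable.comp_differentiableOn
    ((F.g_hol i).prodMk l.differentiable.fst.differentiableOn)

theorem bpd3a_ta_open (hM : F.Sat M) (j : F.J) : IsOpen (F.Ta e M j) :=
  ((F.g_open ((F.U_open j).inter hM.opn) fun _ hy => F.U_sub j hy.1).prod isOpen_ball).preimage
    e.l.continuous

theorem bpd3a_mem_ta (hx : x ∈ F.U j ∩ M) (ha : a ∈ ball e.a (2 * e.ρ)) :
    e.l.symm (F.g x, a) ∈ F.Ta e M j := by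
  rw [Ta, mem_preimage, e.l.apply_symm_apply]
  exact ⟨⟨x, hx, rfl⟩, ha⟩

theorem bpd3a_sub (j j' : F.J) :
    F.So e M j ∩ F.Pm e.i e.l ⁻¹' (e.l ⁻¹' ((F.g '' (F.U j ∩ F.U j' ∩ M)) ×ˢ univ)) ⊆
      F.So e M j' := by
  rintro z ⟨hz, ht⟩
  rw [mem_preimage, mem_preimage, bpd3a_l_pm] at ht
  obtain ⟨y, hy, he⟩ := ht.1
  have hr := (F.rel j y hy.1.1 _).2 ⟨hz.2.1, he.symm⟩
  exact ⟨hz.1, ((F.rel j' y hy.1.2 _).1 hr).1, hz.2.2⟩

theorem prp [T2Space X] (hM : F.Sat M) (hd : Disjoint M (A.p e.i '' e.shell)) (j : F.J) :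
    Prp (F.So e M j) (F.Ta e M j) (F.Pm e.i e.l) := by
  obtain ⟨h1, h2, -, -, h5, h6, -⟩ := e.cbox_cpt
  have hUM : IsOpen (F.U j ∩ M) := (F.U_open j).inter hM.opn
  refine ⟨((A.cont e.i).mono (h6.trans h2)).isOpen_inter_preimage h5 hUM, bpd3a_ta_open hM j,
    bpd3a_pm_hol.mono so_sub, fun z hz => ?_, fun C hC hs => ?_⟩
  · rw [Ta, mem_preimage, bpd3a_l_pm]
    exact ⟨⟨_, hz.2, rfl⟩, hz.1.1⟩
  · have hC1 : IsCompact ((fun w => (e.l w).1) '' C) :=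
      hC.image (continuous_fst.comp e.l.continuous)
    have hs1 : (fun w => (e.l w).1) '' C ⊆ F.g '' (F.U j ∩ M) := by
      rintro _ ⟨w, hw, rfl⟩
      exact (hs hw).1
    have hK := F.prop j _ hC1 (hs1.trans (by
      rintro _ ⟨y, hy, rfl⟩
      exact F.maps j hy.1))
    have hKM : F.U j ∩ F.g ⁻¹' ((fun w => (e.l w).1) '' C) ⊆ M := by
      intro y hy
      obtain ⟨y', hy', he⟩ := hs1 hy.2
      exact hM.sat y' hy'.2 y ((F.rel j y' hy'.1 y).2 ⟨hy.1, he.symm⟩)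
    have hD := ((A.cont e.i).mono h2).preimage_isClosed_of_isClosed h1.isClosed hK.isClosed
    have hDs : e.cbox ∩ A.p e.i ⁻¹' (F.U j ∩ F.g ⁻¹' ((fun w => (e.l w).1) '' C)) ⊆
        dom A F.W e.i := fun z hz => ⟨h2 hz.1, F.U_sub j hz.2.1⟩
    have hE := ((bpd3a_pm_hol (F := F) (l := e.l)).continuousOn.mono
      hDs).preimage_isClosed_of_isClosed hD hC.isClosed
    have hc := h1.of_isClosed_subset hE fun z hz => hz.1.1
    refine (congrArg IsCompact (Set.Subset.antisymm ?_ ?_)).mp hc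
    · rintro z ⟨⟨hz1, hz2⟩, hz3⟩
      have hm : A.p e.i z ∈ M := hKM hz2
      have ht := hs hz3
      rw [Ta, mem_preimage, bpd3a_l_pm] at ht
      refine ⟨⟨⟨ht.2, ?_⟩, hz2.1, hm⟩, hz3⟩
      by_contra hn
      refine Set.disjoint_left.1 hd hm ⟨z, ⟨hz1.1, hz1.2, fun hb => hn ?_⟩, rfl⟩
      exact ball_subset_ball e.lt.le hb
    · rintro z ⟨hz, hz3⟩
      refine ⟨⟨h6 hz.1, hz.2.1, _, hz3, ?_⟩, hz3⟩
      show (e.l (F.Pm e.i e.l z)).1 = _
      rw [bpd3a_l_pm]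

theorem Tr_eq (hM : F.Sat M) (hx : x ∈ F.U j ∩ M) (h : E N → ℂ) (a : E n) :
    F.Tr e M h x a = tr (F.So e M j) (F.Pm e.i e.l) h (e.l.symm (F.g x, a)) := by
  have hx' : ∃ j, x ∈ F.U j := ⟨j, hx.1⟩
  have hj := hx'.choose_spec
  rw [Tr, dif_pos hx']
  refine tr_congr (O := e.l ⁻¹' ((F.g '' (F.U j ∩ F.U hx'.choose ∩ M)) ×ˢ univ)) ?_ ?_ h
  · refine IsOpen.mem_nhds (IsOpen.preimage e.l.continuous (IsOpen.prod (F.g_open
      (((F.U_open j).inter (F.U_open _)).inter hM.opn) fun _ hy => F.U_sub j hy.1.1)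
        isOpen_univ)) ?_
    rw [mem_preimage, e.l.apply_symm_apply]
    exact ⟨⟨x, ⟨⟨hx.1, hj⟩, hx.2⟩, rfl⟩, trivial⟩
  · refine Set.Subset.antisymm (fun z hz => ⟨?_, hz.2⟩) fun z hz => ⟨bpd3a_sub j _ hz, hz.2⟩
    rw [inter_comm (F.U j)] at hz
    exact bpd3a_sub _ j hz

variable [T2Space X]

omit [T2Space X] in
theorem bpd3a_nat {Ω Ω' : Set (E N)} {P : E N → E N} (hP : Prp Ω Ω' P) (hN : 1 ≤ N) {w : E N}
    (hw : w ∈ Ω') : ∃ d : ℕ, tr Ω P (fun _ => 1) w = d := by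
  obtain ⟨d, y, -, -, h3⟩ := tr_fam hP hN hw
  exact ⟨d, by rw [h3 _ (differentiableOn_const _)]; simp⟩

omit [T2Space X] in
theorem bpd3a_lc {Ω Ω' : Set (E N)} {P : E N → E N} (hP : Prp Ω Ω' P) (hN : 1 ≤ N) {w : E N}
    (hw : w ∈ Ω') : ∀ᶠ w' in 𝓝 w, tr Ω P (fun _ => 1) w' = tr Ω P (fun _ => 1) w := by
  have hn := hP.isOpen'.mem_nhds hw
  have hc := ((tr_hol hP (differentiableOn_const (1 : ℂ))).continuousOn.continuousAt hn).eventually
    (ball_mem_nhds _ one_pos)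
  obtain ⟨d, hd⟩ := bpd3a_nat hP hN hw
  filter_upwards [hn, hc] with w' h1 h2
  obtain ⟨d', hd'⟩ := bpd3a_nat hP hN h1
  rw [hd, hd'] at h2 ⊢
  have h3 : dist (d' : ℂ) (d : ℂ) < 1 := h2
  have h4 : ((d' : ℂ) - d) = (((d' : ℝ) - d : ℝ) : ℂ) := by push_cast; rfl
  rw [dist_eq_norm, h4, Complex.norm_real, Real.norm_eq_abs, abs_lt] at h3
  have h5 : d < d' + 1 := by exact_mod_cast (by linarith [h3.1] : (d : ℝ) < d' + 1)
  have h6 : d' < d + 1 := by exact_mod_cast (by linarith [h3.2] : (d' : ℝ) < d + 1)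
  rw [show d' = d by omega]

theorem deg_eq (hN : 1 ≤ N) (hM : F.Sat M) (hd : Disjoint M (A.p e.i '' e.shell)) (hx : x ∈ M)
    (ha : a ∈ ball e.a (2 * e.ρ)) : F.Tr e M (fun _ => 1) x a = F.deg e M x := by
  obtain ⟨j, hj⟩ := F.cov x (hM.sub hx)
  have hxj : x ∈ F.U j ∩ M := ⟨hj, hx⟩
  have h0 : e.a ∈ ball e.a (2 * e.ρ) := mem_ball_self (by linarith [e.ρ_pos])
  have hc : ContinuousOn (fun b => ⌊(tr (F.So e M j) (F.Pm e.i e.l) (fun _ => 1)
      (e.l.symm (F.g x, b))).re⌋₊) (ball e.a (2 * e.ρ)) := by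
    intro b hb
    have h1 : ContinuousAt (fun b => e.l.symm (F.g x, b)) b :=
      (e.l.symm.continuous.comp (continuous_const.prodMk continuous_id)).continuousAt
    have h2 := h1.eventually (bpd3a_lc (prp hM hd j) hN (bpd3a_mem_ta hxj hb))
    refine ContinuousAt.continuousWithinAt (tendsto_const_nhds.congr' ?_)
    filter_upwards [h2] with c hc
    rw [hc]
  have hk := (convex_ball e.a (2 * e.ρ)).isPreconnected.constant hc ha h0
  obtain ⟨d, hd'⟩ := bpd3a_nat (prp hM hd j) hN (bpd3a_mem_ta hxj ha)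
  rw [deg, Tr_eq hM hxj, Tr_eq hM hxj, ← hk, hd']
  simp

theorem deg_lc (hN : 1 ≤ N) (hM : F.Sat M) (hd : Disjoint M (A.p e.i '' e.shell)) (hx : x ∈ M) :
    ∀ᶠ y in 𝓝 x, F.deg e M y = F.deg e M x := by
  obtain ⟨j, hj⟩ := F.cov x (hM.sub hx)
  have hxj : x ∈ F.U j ∩ M := ⟨hj, hx⟩
  have h0 : e.a ∈ ball e.a (2 * e.ρ) := mem_ball_self (by linarith [e.ρ_pos])
  have h1 : ContinuousAt (fun y => e.l.symm (F.g y, e.a)) x :=
    e.l.symm.continuous.continuousAt.comp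
      ((F.g_cont.continuousAt (F.W_open.mem_nhds (hM.sub hx))).prodMk continuousAt_const)
  filter_upwards [h1.eventually (bpd3a_lc (prp hM hd j) hN (bpd3a_mem_ta hxj h0)),
    ((F.U_open j).inter hM.opn).mem_nhds hxj] with y h2 h3
  rw [deg, deg, Tr_eq hM hxj, Tr_eq hM h3, h2]

theorem deg_inv (hM : F.Sat M) (hx : x ∈ M) {y : X} (hy : F.r x y) :
    F.deg e M y = F.deg e M x := by
  obtain ⟨j, hj⟩ := F.cov x (hM.sub hx)
  obtain ⟨h1, h2⟩ := (F.rel j x hj y).1 hy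
  rw [deg, deg, Tr_eq hM ⟨hj, hx⟩, Tr_eq hM ⟨h1, hM.sat x hx y hy⟩, h2]

theorem Tr_fam (hN : 1 ≤ N) (hM : F.Sat M) (hd : Disjoint M (A.p e.i '' e.shell)) (hx : x ∈ M)
    (ha : a ∈ ball e.a (2 * e.ρ)) : ∃ y : Fin (F.deg e M x) → E N,
    (∀ k, y k ∈ e.box ∧ F.r x (A.p e.i (y k)) ∧ (e.l (y k)).1 = a) ∧
    (∀ z ∈ e.box, F.r x (A.p e.i z) → (e.l z).1 = a → ∃ k, y k = z) ∧
    ∀ h, DifferentiableOn ℂ h (dom A F.W e.i) → F.Tr e M h x a = ∑ k, h (y k) := by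
  obtain ⟨j, hj⟩ := F.cov x (hM.sub hx)
  have hxj : x ∈ F.U j ∩ M := ⟨hj, hx⟩
  obtain ⟨d, y, h1, h2, h3⟩ := tr_fam (prp hM hd j) hN (bpd3a_mem_ta hxj ha)
  have h4 := deg_eq hN hM hd hx ha
  rw [Tr_eq hM hxj, h3 _ (differentiableOn_const _)] at h4
  have h5 : d = F.deg e M x := by simpa using h4
  subst h5
  refine ⟨y, fun k => ?_, fun z hz hr hl => h2 z ?_ ?_, fun h hh => ?_⟩
  · have h6 := e.l.symm.injective (h1 k).2
    exact ⟨(h1 k).1.1, (F.rel j x hj _).2 ⟨(h1 k).1.2.1, congrArg Prod.fst h6⟩,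
      congrArg Prod.snd h6⟩
  · exact ⟨hz, ((F.rel j x hj _).1 hr).1, hM.sat x hx _ hr⟩
  · rw [Pm, ((F.rel j x hj _).1 hr).2, hl]
  · rw [Tr_eq hM hxj, h3 h (hh.mono so_sub)]

theorem Tr_hol_a (hM : F.Sat M) (hd : Disjoint M (A.p e.i '' e.shell))
    (hh : DifferentiableOn ℂ h (dom A F.W e.i)) (hx : x ∈ M) :
    DifferentiableOn ℂ (F.Tr e M h x) (ball e.a (2 * e.ρ)) := by
  obtain ⟨j, hj⟩ := F.cov x (hM.sub hx)
  have hxj : x ∈ F.U j ∩ M := ⟨hj, hx⟩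
  have h1 : DifferentiableOn ℂ (fun b => e.l.symm (F.g x, b)) (ball e.a (2 * e.ρ)) :=
    (e.l.symm.differentiable.comp
      ((differentiable_const _).prodMk differentiable_id)).differentiableOn
  exact ((tr_hol (prp hM hd j) (hh.mono so_sub)).comp h1
    fun b hb => bpd3a_mem_ta hxj hb).congr fun b _ => Tr_eq hM hxj h b

theorem Tr_loc (hM : F.Sat M) (hd : Disjoint M (A.p e.i '' e.shell))
    (hh : DifferentiableOn ℂ h (dom A F.W e.i)) (ha : a ∈ ball e.a (2 * e.ρ)) {i : A.ι} {z : E N}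
    (hz : z ∈ dom A (F.U j ∩ M) i) : DifferentiableAt ℂ (fun y => F.Tr e M h (A.p i y) a) z ∧
      ∀ v, fderiv ℂ (fun y => F.Tr e M h (A.p i y) a) z v =
        fderiv ℂ (tr (F.So e M j) (F.Pm e.i e.l) h) (e.l.symm (F.g (A.p i z), a))
          (e.l.symm (Jg A F.g i z *ᵥ v, 0)) := by
  have hn := (A.C i).isOpen.mem_nhds hz.1
  have hp : ContinuousAt (A.p i) z := (A.cont i).continuousAt hn
  have he : (fun y => F.Tr e M h (A.p i y) a) =ᶠ[𝓝 z] fun y =>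
      tr (F.So e M j) (F.Pm e.i e.l) h (e.l.symm (F.g (A.p i y), a)) := by
    filter_upwards [hp.eventually (((F.U_open j).inter hM.opn).mem_nhds hz.2)] with y hy
    exact Tr_eq hM hy h a
  have hg : DifferentiableAt ℂ (fun y => F.g (A.p i y)) z :=
    (F.g_hol i).differentiableAt (((A.cont i).isOpen_inter_preimage (A.C i).isOpen
      F.W_open).mem_nhds ⟨hz.1, F.U_sub j hz.2.1⟩)
  have ht := ((tr_hol (prp hM hd j) (hh.mono so_sub)).differentiableAt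
    ((bpd3a_ta_open hM j).mem_nhds (bpd3a_mem_ta hz.2 ha))).hasFDerivAt
  have h1 := e.l.symm.hasFDerivAt.comp z (hg.hasFDerivAt.prodMk (hasFDerivAt_const a z))
  have h2 := (ht.comp z h1).congr_of_eventuallyEq he
  refine ⟨h2.differentiableAt, fun v => ?_⟩
  rw [h2.fderiv, Jg, jac_mulVec]
  rfl

end Fib

end Pool.Agent.BP
end

-- part Pool.Agent.P.MP_63735c_ag.BPD3b
section

/-! Bounds for degree and gradient of the traces. -/

open scoped ComplexOrder ContDiff Matrix Topology ENNReal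
open Set Metric MeasureTheory Filter

namespace Pool.Agent.BP

open Pool.Agent.SPF Pool.Agent.AB Pool.Agent.CK Pool.Agent.SE Pool.Agent.NL

variable {N n : ℕ} {X : Type} [TopologicalSpace X] [T2Space X] {A : Atlas X N} {F : Fib A n}
  {e : Sc A n} {M : Set X}

theorem lint_equiv (l : E N ≃L[ℂ] E n × E n) : ∃ c : ℝ≥0∞, c ≠ 0 ∧ c ≠ ⊤ ∧
    ∀ (S : Set (E n × E n)) (u : E N → ℝ≥0∞),
      ∫⁻ q in S, u (l.symm q) = c * ∫⁻ w in l ⁻¹' S, u w := by
  have hemb : MeasurableEmbedding l.symm := l.symm.toHomeomorph.measurableEmbedding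
  have : (volume : Measure (E n × E n)).IsAddHaarMeasure :=
    Measure.prod.instIsAddHaarMeasure (volume : Measure (E n)) (volume : Measure (E n))
  have hv := Measure.isAddLeftInvariant_eq_smul (Measure.map l.symm volume)
    (volume : Measure (E N))
  have hp := Measure.addHaarScalarFactor_pos_of_isAddHaarMeasure (Measure.map l.symm volume)
    (volume : Measure (E N))
  generalize Measure.addHaarScalarFactor (Measure.map l.symm volume) (volume : Measure (E N)) = c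
    at hv hp
  refine ⟨c, ENNReal.coe_ne_zero.2 hp.ne', ENNReal.coe_ne_top, fun S u => ?_⟩
  have h1 : ∫⁻ w in l ⁻¹' S, u w ∂Measure.map l.symm volume = ∫⁻ q in S, u (l.symm q) := by
    rw [hemb.restrict_map, hemb.lintegral_map, ← preimage_comp]
    simp
  rw [← h1, hv, Measure.restrict_smul, lintegral_smul_measure]
  rfl

theorem bpd3b_loc (hN : 1 ≤ N) (hM : F.Sat M) (hd : Disjoint M (A.p e.i '' e.shell)) {j : F.J}
    {x : X} (hx : x ∈ F.U j ∩ M) : ∀ᶠ b in 𝓝 (F.g x), b ∈ F.g '' (F.U j ∩ M) ∧ b ∈ F.T j ∧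
      ∀ a ∈ ball e.a (2 * e.ρ),
        tr (F.So e M j) (F.Pm e.i e.l) (fun _ => 1) (e.l.symm (b, a)) = F.deg e M x := by
  rw [← Fib.g_map (hM.sub hx.2), eventually_map]
  filter_upwards [((F.U_open j).inter hM.opn).mem_nhds hx, Fib.deg_lc hN hM hd hx.2] with y h1 h2
  refine ⟨mem_image_of_mem _ h1, F.maps j h1.1, fun a ha => ?_⟩
  rw [← Fib.Tr_eq hM h1, Fib.deg_eq hN hM hd h1.2 ha, h2]

omit [T2Space X] in
theorem bpd3b_sub (j : F.J) (O Bl : Set (E n)) :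
    F.So e M j ∩ F.Pm e.i e.l ⁻¹' (e.l ⁻¹' (O ×ˢ Bl)) ⊆
      e.cbox ∩ A.p e.i ⁻¹' (F.U j ∩ F.g ⁻¹' O) := by
  rintro z ⟨h1, h2⟩
  refine ⟨e.cbox_cpt.2.2.2.2.2.1 h1.1, h1.2.1, ?_⟩
  simp only [mem_preimage, Fib.Pm, ContinuousLinearEquiv.apply_symm_apply, mem_prod] at h2
  exact h2.1

theorem bpd3b_meas (l : E N ≃L[ℂ] E n × E n) (b a : E n) (r s : ℝ) :
    MeasurableSet (l ⁻¹' (ball b r ×ˢ ball a s)) :=
  ((isOpen_ball.prod isOpen_ball).preimage l.continuous).measurableSet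

theorem Fib.deg_bdd (hN : 1 ≤ N) (hA : F.Area) (hM : F.Sat M)
    (hd : Disjoint M (A.p e.i '' e.shell)) : ∃ B, ∀ x ∈ M, F.deg e M x ≤ B := by
  obtain ⟨c, -, hc, hl⟩ := lint_equiv e.l
  obtain ⟨B, -, hB⟩ := hA e.i e.l e.cbox e.cbox_cpt.1 e.cbox_cpt.2.1
  have hV : volume (ball e.a (2 * e.ρ)) ≠ 0 :=
    (measure_ball_pos _ _ (by linarith [e.ρ_pos])).ne'
  obtain ⟨k, hk⟩ := ENNReal.exists_nat_gt
    (ENNReal.div_ne_top (ENNReal.mul_ne_top hc (ENNReal.ofReal_ne_top (r := B))) hV)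
  refine ⟨k, fun x hx => ?_⟩
  obtain ⟨j, hj⟩ := F.cov x (hM.sub hx)
  obtain ⟨η, hη, hO⟩ := Metric.eventually_nhds_iff_ball.1 (bpd3b_loc hN hM hd ⟨hj, hx⟩)
  have h1 := tr_deg (Fib.prp hM hd j) (bpd3b_meas e.l (F.g x) e.a η (2 * e.ρ))
    (fun w hw => ⟨(hO _ hw.1).1, hw.2⟩) (d := F.deg e M x) fun w hw => by
      simpa using (hO _ hw.1).2.2 _ hw.2
  have h2 := (h1.trans (lintegral_mono_set (bpd3b_sub j _ _))).trans
    (hB j _ (fun b hb => (hO b hb).2.1) measurableSet_ball).1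
  have h3 := hl (ball (F.g x) η ×ˢ ball e.a (2 * e.ρ)) fun _ => 1
  rw [setLIntegral_one, setLIntegral_one, Measure.volume_eq_prod, Measure.prod_prod] at h3
  have h4 : F.deg e M x * volume (ball e.a (2 * e.ρ)) * volume (ball (F.g x) η) ≤
      c * ENNReal.ofReal B * volume (ball (F.g x) η) := by
    rw [mul_assoc, mul_comm (volume _), h3, mul_left_comm, mul_assoc]
    exact mul_le_mul_right h2 c
  rw [ENNReal.mul_le_mul_iff_left (measure_ball_pos _ _ hη).ne' measure_ball_lt_top.ne,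
    ← ENNReal.le_div_iff_mul_le (Or.inl hV) (Or.inl measure_ball_lt_top.ne)] at h4
  exact_mod_cast (h4.trans_lt hk).le

theorem bpd3b_mv {Φ : E n × E n → ℂ} {b a : E n} {r s : ℝ} (hs : 0 < s)
    (hm : Measurable Φ) (hΦ : DifferentiableOn ℂ Φ (ball b r ×ˢ ball a s)) :
    ENNReal.ofReal (‖Φ (b, a)‖ ^ 2) * volume (ball a s) * volume (ball b r) ≤
      ∫⁻ q in ball b r ×ˢ ball a s, ‖Φ q‖ₑ ^ 2 := by
  have he : ∀ z : ℂ, ‖z‖ₑ ^ 2 = ENNReal.ofReal (‖z‖ ^ 2) := fun z => by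
    rw [ENNReal.ofReal_pow (norm_nonneg _), ofReal_norm]
  have h1 := CL.mv_sq (h := fun β => Φ (β, a)) (z := b) (r := r)
    (hΦ.comp (by fun_prop) fun β hβ => ⟨hβ, mem_ball_self hs⟩)
  rw [Measure.volume_eq_prod, ← Measure.prod_restrict,
    lintegral_prod _ (hm.enorm.pow_const 2).aemeasurable, mul_right_comm]
  refine (mul_le_mul_left h1 _).trans ?_
  rw [← lintegral_mul_const' _ _ measure_ball_lt_top.ne]
  refine setLIntegral_mono' measurableSet_ball fun β hβ => ?_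
  simp only [he]
  exact CL.mv_sq (h := fun α => Φ (β, α)) (hΦ.comp (by fun_prop) fun α hα => ⟨hβ, hα⟩)

theorem Fib.Tr_grad (hN : 1 ≤ N) (hA : F.Area) (hM : F.Sat M)
    (hd : Disjoint M (A.p e.i '' e.shell)) {h : E N → ℂ} (hh : Differentiable ℂ h) :
    ∃ B : ℝ, ∀ j, ∀ x ∈ F.U j ∩ M, ∀ a ∈ ball e.a e.ρ, ∀ v,
      ‖fderiv ℂ (tr (F.So e M j) (F.Pm e.i e.l) h) (e.l.symm (F.g x, a)) (e.l.symm (v, 0))‖ ^ 2 ≤
        B * hr (F.om x) v := by
  obtain ⟨c, -, hc, hl⟩ := lint_equiv e.l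
  obtain ⟨B, -, hB⟩ := hA e.i e.l e.cbox e.cbox_cpt.1 e.cbox_cpt.2.1
  obtain ⟨D, hD⟩ := Fib.deg_bdd hN hA hM hd
  obtain ⟨H, hH⟩ := e.cbox_cpt.1.exists_bound_of_continuousOn
    ((CL.hol_smooth isOpen_univ hh.differentiableOn).2.2.continuousOn.mono (subset_univ _))
  have hV : volume (ball (0 : E n) e.ρ) ≠ 0 := (measure_ball_pos _ _ e.ρ_pos).ne'
  set Q : ℝ≥0∞ := c * D * ENNReal.ofReal H ^ 2 * ENNReal.ofReal B with hQ
  have hQ' : Q / volume (ball (0 : E n) e.ρ) ≠ ⊤ :=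
    ENNReal.div_ne_top (ENNReal.mul_ne_top (ENNReal.mul_ne_top (ENNReal.mul_ne_top hc
      (ENNReal.natCast_ne_top D)) (ENNReal.pow_ne_top ENNReal.ofReal_ne_top))
      ENNReal.ofReal_ne_top) hV
  refine ⟨(Q / volume (ball (0 : E n) e.ρ)).toReal, fun j x hx a ha v => ?_⟩
  have hP := Fib.prp hM hd j
  have h0 := F.om_psd x (hM.sub hx.2) v
  have hba : ball a e.ρ ⊆ ball e.a (2 * e.ρ) := ball_subset_ball' (by
    rw [mem_ball] at ha
    linarith)
  set T := tr (F.So e M j) (F.Pm e.i e.l) h with hT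
  set u := e.l.symm (v, 0) with hu
  have key : ∀ ε > 0, ‖fderiv ℂ T (e.l.symm (F.g x, a)) u‖ ^ 2 ≤
      (Q / volume (ball (0 : E n) e.ρ)).toReal * (hr (F.om x) v + ε) := by
    intro ε hε
    have hco : ContinuousAt (fun b => hr (F.o j b) v) (F.g x) :=
      Complex.continuous_re.continuousAt.comp ((hq_contOn (F.o_cont j) continuousOn_const
        continuousOn_const).continuousAt ((F.T_open j).mem_nhds (F.maps j hx.1)))
    have hev : ∀ᶠ b in 𝓝 (F.g x), hr (F.o j b) v < hr (F.om x) v + ε :=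
      hco.eventually_lt continuousAt_const (by rw [F.o_eq j x hx.1]; linarith)
    obtain ⟨η, hη, hO⟩ := Metric.eventually_nhds_iff_ball.1 ((bpd3b_loc hN hM hd hx).and hev)
    have hs : e.l ⁻¹' (ball (F.g x) η ×ˢ ball a e.ρ) ⊆ F.Ta e M j :=
      fun w hw => ⟨(hO _ hw.1).1.1, hba hw.2⟩
    have h1 := bpd3b_mv (Φ := fun q => fderiv ℂ T (e.l.symm q) u) (b := F.g x) (a := a) (r := η) e.ρ_pos
      ((measurable_fderiv_apply_const ℂ T u).comp e.l.symm.continuous.measurable)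
      (((CL.hol_smooth hP.isOpen' (tr_hol hP hh.differentiableOn)).2.2.clm_apply
        (differentiableOn_const u)).comp e.l.symm.differentiableOn fun q hq => hs (by simpa using hq))
    rw [hl _ fun w => ‖fderiv ℂ T w u‖ₑ ^ 2, Measure.addHaar_ball_center] at h1
    have h2 := tr_grad hP (bpd3b_meas e.l (F.g x) a η e.ρ) hs (d := F.deg e M x)
      (fun w hw => by simpa using (hO _ hw.1).1.2.2 _ (hba hw.2)) hh.differentiableOn u
    have h3 : ∫⁻ z in F.So e M j ∩ F.Pm e.i e.l ⁻¹' (e.l ⁻¹' (ball (F.g x) η ×ˢ ball a e.ρ)),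
        ‖(jac (F.Pm e.i e.l) z).det‖ₑ ^ 2 * ‖fderiv ℂ h z ((jac (F.Pm e.i e.l) z)⁻¹ *ᵥ u)‖ₑ ^ 2 ≤
        ENNReal.ofReal H ^ 2 * (ENNReal.ofReal B *
          (ENNReal.ofReal (hr (F.om x) v + ε) * volume (ball (F.g x) η))) := by
      refine (lintegral_mono_set (bpd3b_sub j _ _)).trans (le_trans ?_ (mul_le_mul_right
        (((hB j _ (fun b hb => (hO b hb).1.2.1) measurableSet_ball).2 v).trans
          (mul_le_mul_right ?_ _)) _))
      · rw [← lintegral_const_mul' _ _ (ENNReal.pow_ne_top ENNReal.ofReal_ne_top)]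
        refine lintegral_mono_ae (ae_restrict_of_ae_restrict_of_subset inter_subset_left
          ((ae_restrict_iff' e.cbox_cpt.1.measurableSet).2 (Eventually.of_forall fun z hz => ?_)))
        rw [mul_left_comm, ← mul_pow (ENNReal.ofReal H)]
        refine mul_le_mul_right (pow_le_pow_left' ?_ 2) _
        refine ((fderiv ℂ h z).le_opENorm _).trans (mul_le_mul_left ?_ _)
        rw [← ofReal_norm]
        exact ENNReal.ofReal_le_ofReal (hH z hz)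
      · rw [← setLIntegral_const]
        exact setLIntegral_mono' measurableSet_ball fun b hb =>
          ENNReal.ofReal_le_ofReal (hO b hb).2.le
    have h4 : ENNReal.ofReal (‖fderiv ℂ T (e.l.symm (F.g x, a)) u‖ ^ 2) *
        volume (ball (0 : E n) e.ρ) * volume (ball (F.g x) η) ≤
        Q * ENNReal.ofReal (hr (F.om x) v + ε) * volume (ball (F.g x) η) := by
      refine h1.trans ((mul_le_mul_right (h2.trans (mul_le_mul' (Nat.cast_le.2 (hD x hx.2)) h3))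
        c).trans (le_of_eq ?_))
      rw [hQ]
      ring
    rw [ENNReal.mul_le_mul_iff_left (measure_ball_pos _ _ hη).ne' measure_ball_lt_top.ne,
      ← ENNReal.le_div_iff_mul_le (Or.inl hV) (Or.inl measure_ball_lt_top.ne),
      ENNReal.mul_div_right_comm, ENNReal.ofReal_le_iff_le_toReal
        (ENNReal.mul_ne_top hQ' ENNReal.ofReal_ne_top), ENNReal.toReal_mul,
      ENNReal.toReal_ofReal (by linarith)] at h4
    exact h4
  have hq0 : 0 ≤ (Q / volume (ball (0 : E n) e.ρ)).toReal := ENNReal.toReal_nonneg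
  generalize (Q / volume (ball (0 : E n) e.ρ)).toReal = q at key hq0
  refine le_of_forall_pos_le_add fun δ hδ => (key (δ / (q + 1)) (by positivity)).trans ?_
  rw [mul_add, ← mul_div_assoc]
  refine add_le_add_right ((div_le_iff₀ (by positivity)).2 ?_) _
  nlinarith

theorem Fib.exists_trp (hN : 1 ≤ N) (hA : F.Area) (e : Sc A n) (hM : F.Sat M)
    (hd : Disjoint M (A.p e.i '' e.shell)) : ∃ deg Tr, F.TrP e M deg Tr := by
  refine ⟨F.deg e M, F.Tr e M, fun x hx a ha => Fib.Tr_fam hN hM hd hx ha,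
    fun x hx y hy => Fib.deg_inv hM hx hy, fun x hx => Fib.deg_lc hN hM hd hx,
    Fib.deg_bdd hN hA hM hd, fun h hh x hx => Fib.Tr_hol_a hM hd hh hx,
    fun h hh a ha i z hz => ?_, fun h hh => ?_⟩
  · obtain ⟨j, hj⟩ := F.cov _ (hM.sub hz.2)
    exact (Fib.Tr_loc hM hd hh ha (j := j) ⟨hz.1, hj, hz.2⟩).1.differentiableWithinAt
  · obtain ⟨B, hB⟩ := Fib.Tr_grad hN hA hM hd hh
    refine ⟨B, fun a ha i z hz v => ?_⟩
    obtain ⟨j, hj⟩ := F.cov _ (hM.sub hz.2)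
    rw [(Fib.Tr_loc hM hd hh.differentiableOn (ball_subset_ball (by linarith [e.ρ_pos]) ha)
      (j := j) ⟨hz.1, hj, hz.2⟩).2, Fib.Om, hr, hq_conj]
    exact hB j _ ⟨hj, hz.2⟩ a ha _

end Pool.Agent.BP
end

-- part Pool.Agent.P.MP_63735c_ag.SBD9
section

/-! Bounds for degree and gradient of the traces. -/

open scoped ComplexOrder ContDiff Matrix Topology ENNReal
open Set Metric MeasureTheory Filter

namespace Pool.Agent.BP

open Pool.Agent.SPF Pool.Agent.AB Pool.Agent.CK Pool.Agent.SE Pool.Agent.NL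

variable {N n : ℕ} {X Z : Type} [TopologicalSpace X] [TopologicalSpace Z] [T2Space X] [T2Space Z]
  [MeasurableSpace X] [BorelSpace X] {A : Atlas X N} {K : Form11 A} {F : Fib A n} {φ : X → ℝ}
  {j : X → Z} {μ : Measure X} [IsFiniteMeasure μ] {h : X → Mat n} {c₀ : ℝ}

section
variable {e : Sz A K F.W φ j n} {M : Set X}

theorem sbd9_loc (H : F.Ok e M) (hμ : IsVolume A μ) {k : F.J} {x : X} (hx : x ∈ F.U k ∩ M) :
    ∀ᶠ b in 𝓝 (F.g x), b ∈ F.g '' (F.U k ∩ M) ∧ b ∈ F.T k ∧ ∀ a ∈ ball e.a (2 * e.ρ),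
      trA A (F.SoS e M k) (F.Pz e) (fun _ => 1) (e.l.symm (b, a)) = F.degZ e M x := by
  rw [← Fib.g_map (H.sat.sub hx.2), eventually_map]
  filter_upwards [((F.U_open k).inter H.sat.opn).mem_nhds hx, H.deg_lc hμ hx.2] with y h1 h2
  refine ⟨mem_image_of_mem _ h1, F.maps k h1.1, fun a ha => ?_⟩
  rw [← Fib.TrZ_eq H.sat h1, H.deg_eq hμ h1.2 ha, h2]

omit [T2Space X] [T2Space Z] [MeasurableSpace X] [BorelSpace X] in
theorem sbd9_sub (k : F.J) (O Bl : Set (E n)) :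
    F.SoS e M k ∩ F.Pz e ⁻¹' (e.l ⁻¹' (O ×ˢ Bl)) ⊆ F.U k ∩ F.g ⁻¹' O := by
  rintro z ⟨h1, h2⟩
  refine ⟨h1.2.1, ?_⟩
  simp only [mem_preimage, Fib.Pz, ContinuousLinearEquiv.apply_symm_apply, mem_prod] at h2
  exact h2.1

omit [TopologicalSpace X] [T2Space X] [BorelSpace X] [IsFiniteMeasure μ] in
theorem sbd9_int {S S' : Set X} (hs : S ⊆ S') {B : ℝ} (hB : 0 ≤ B) (f : X → ℝ) :
    ∫⁻ x in S, ENNReal.ofReal (B * f x) ∂μ ≤
      ENNReal.ofReal B * ∫⁻ x in S', ENNReal.ofReal (f x) ∂μ := by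
  simp only [ENNReal.ofReal_mul hB]
  rw [lintegral_const_mul' _ _ ENNReal.ofReal_ne_top]
  exact mul_le_mul_right (lintegral_mono_set hs) _

theorem sbd9_deg (H : F.Ok e M) (hμ : IsVolume A μ) (fub : ∀ k, ∀ O ⊆ F.T k, MeasurableSet O →
      ∫⁻ x in F.U k ∩ F.g ⁻¹' O, ENNReal.ofReal (h x).det.re ∂μ ≤ ENNReal.ofReal c₀ * volume O)
    (hA : ∃ B : ℝ, 0 ≤ B ∧ ∀ i, ∀ w ∈ dom A (F.W ∩ j ⁻¹' e.O) i,
      ‖(Jg A (F.Pz e) i w).det‖ ^ 2 ≤ ‖((A.C i).σ w).det‖ * (B * (h (A.p i w)).det.re)) :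
    ∃ B, ∀ x ∈ M, F.degZ e M x ≤ B := by
  obtain ⟨c, -, hc, hl⟩ := lint_equiv e.l
  obtain ⟨B, hB0, hB⟩ := hA
  have hV : volume (ball e.a (2 * e.ρ)) ≠ 0 :=
    (measure_ball_pos _ _ (by linarith [e.ρ_pos])).ne'
  obtain ⟨m, hm⟩ := ENNReal.exists_nat_gt
    (ENNReal.div_ne_top (ENNReal.mul_ne_top hc (ENNReal.mul_ne_top (ENNReal.ofReal_ne_top (r := B))
      (ENNReal.ofReal_ne_top (r := c₀)))) hV)
  refine ⟨m, fun x hx => ?_⟩
  obtain ⟨k, hk⟩ := F.cov x (H.sat.sub hx)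
  obtain ⟨η, hη, hO⟩ := Metric.eventually_nhds_iff_ball.1 (sbd9_loc H hμ ⟨hk, hx⟩)
  have h1 := trA_deg (H.prA k) hμ (bpd3b_meas e.l (F.g x) e.a η (2 * e.ρ))
    (fun w hw => ⟨(hO _ hw.1).1, hw.2⟩) (d := F.degZ e M x) (fun w hw => by
      simpa using (hO _ hw.1).2.2 _ hw.2) (G := fun y => B * (h y).det.re)
    fun i z hz => hB i z ⟨hz.1, Fib.soS_sub hz.2⟩
  have h2 := (h1.trans (sbd9_int (sbd9_sub k _ _) hB0 _)).trans
    (mul_le_mul_right (fub k _ (fun b hb => (hO b hb).2.1) measurableSet_ball) _)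
  have h3 := hl (ball (F.g x) η ×ˢ ball e.a (2 * e.ρ)) fun _ => 1
  rw [setLIntegral_one, setLIntegral_one, Measure.volume_eq_prod, Measure.prod_prod] at h3
  have h4 : F.degZ e M x * volume (ball e.a (2 * e.ρ)) * volume (ball (F.g x) η) ≤
      c * (ENNReal.ofReal B * ENNReal.ofReal c₀) * volume (ball (F.g x) η) := by
    rw [mul_assoc, mul_comm (volume _), h3, mul_left_comm, mul_assoc, mul_assoc]
    exact mul_le_mul_right h2 c
  rw [ENNReal.mul_le_mul_iff_left (measure_ball_pos _ _ hη).ne' measure_ball_lt_top.ne,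
    ← ENNReal.le_div_iff_mul_le (Or.inl hV) (Or.inl measure_ball_lt_top.ne)] at h4
  exact_mod_cast (h4.trans_lt hm).le

omit [T2Space X] [T2Space Z] [MeasurableSpace X] [BorelSpace X] in
theorem sbd9_hol {u : E e.M → ℂ} (hu : Differentiable ℂ u) {S : Set X} (hS : S ⊆ j ⁻¹' e.O) :
    HolOn A S fun x => u (e.v x) := fun i =>
  hu.comp_differentiableOn ((e.hol i).mono fun _ hz => ⟨hz.1, hS hz.2⟩)

omit [T2Space X] [MeasurableSpace X] [BorelSpace X] in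
theorem sbd9_pt (H : F.Ok e M) (hA : F.AreaS e h) {u : E e.M → ℂ} (hu : Differentiable ℂ u) :
    ∃ B : ℝ, 0 ≤ B ∧ ∀ k v i, ∀ z ∈ dom A (F.SoS e M k) i, ∀ t,
      Jg A (F.Pz e) i z *ᵥ t = e.l.symm (v, 0) →
        ‖(Jg A (F.Pz e) i z).det‖ ^ 2 * ‖fderiv ℂ (fun w => u (e.v (A.p i w))) z t‖ ^ 2 ≤
          ‖((A.C i).σ z).det‖ * (B * hr (h (A.p i z)).adjugateᵀ v) := by
  obtain ⟨B, hB0, hB⟩ := hA
  obtain ⟨C, hC⟩ := (e.cbox_cpt.1.image_of_continuousOn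
    (e.cont.mono e.cbox_cpt.2.1)).exists_bound_of_continuousOn
      ((CL.hol_smooth isOpen_univ hu.differentiableOn).2.2.continuousOn.mono (subset_univ _))
  refine ⟨C ^ 2 * B, mul_nonneg (sq_nonneg _) hB0, fun k v i z hz t ht => ?_⟩
  have h1 := (hB i z ⟨hz.1, Fib.soS_sub hz.2⟩).2 v t ht
  have h2 : DifferentiableAt ℂ (fun w => e.v (A.p i w)) z :=
    (e.hol i).differentiableAt ((dom_open A (e.opn.preimage H.cont) i).mem_nhds ⟨hz.1, hz.2.1.1⟩)
  have h3 : ‖fderiv ℂ (fun w => u (e.v (A.p i w))) z t‖ ≤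
      C * ‖fderiv ℂ (fun w => e.v (A.p i w)) z t‖ := by
    rw [fderiv_fun_comp z (hu _) h2, ContinuousLinearMap.comp_apply]
    exact (ContinuousLinearMap.le_opNorm _ _).trans (mul_le_mul_of_nonneg_right
      (hC _ (mem_image_of_mem _ (e.cbox_cpt.2.2.2.2.2.1 hz.2.1))) (norm_nonneg _))
  have h4 := mul_le_mul_of_nonneg_left (pow_le_pow_left₀ (norm_nonneg _) h3 2)
    (sq_nonneg ‖(Jg A (F.Pz e) i z).det‖)
  have h5 := mul_le_mul_of_nonneg_left h1 (sq_nonneg C)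
  refine h4.trans (le_trans (le_of_eq ?_) (h5.trans (le_of_eq ?_))) <;> ring

theorem sbd9_grad (H : F.Ok e M) (hμ : IsVolume A μ) (hT : F.Tor μ K h c₀) (hA : F.AreaS e h)
    {f : E e.M → ℂ} (hf : Differentiable ℂ f) :
    ∃ B : ℝ, ∀ k, ∀ x ∈ F.U k ∩ M, ∀ a ∈ ball e.a e.ρ, ∀ v,
      ‖fderiv ℂ (trA A (F.SoS e M k) (F.Pz e) fun y => f (e.v y)) (e.l.symm (F.g x, a))
        (e.l.symm (v, 0))‖ ^ 2 ≤ B * hr (F.om x) v := by
  obtain ⟨c, -, hc, hl⟩ := lint_equiv e.l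
  obtain ⟨B, hB0, hB⟩ := sbd9_pt H hA hf
  obtain ⟨D, hD⟩ :=
    sbd9_deg H hμ hT.fub_det (hA.imp fun _ a => ⟨a.1, fun i w hw => (a.2 i w hw).1⟩)
  have hV : volume (ball (0 : E n) e.ρ) ≠ 0 := (measure_ball_pos _ _ e.ρ_pos).ne'
  set Q : ℝ≥0∞ := c * D * ENNReal.ofReal B * ENNReal.ofReal c₀ with hQ
  have hQ' : Q / volume (ball (0 : E n) e.ρ) ≠ ⊤ :=
    ENNReal.div_ne_top (ENNReal.mul_ne_top (ENNReal.mul_ne_top (ENNReal.mul_ne_top hc
      (ENNReal.natCast_ne_top D)) ENNReal.ofReal_ne_top) ENNReal.ofReal_ne_top) hV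
  refine ⟨(Q / volume (ball (0 : E n) e.ρ)).toReal, fun k x hx a ha v => ?_⟩
  have hP := H.prA k
  have h0 := F.om_psd x (H.sat.sub hx.2) v
  have hh : HolOn A (F.SoS e M k) fun y => f (e.v y) := sbd9_hol hf fun _ hy => hy.1.1
  have hba : ball a e.ρ ⊆ ball e.a (2 * e.ρ) := ball_subset_ball' (by
    rw [mem_ball] at ha
    linarith)
  set T := trA A (F.SoS e M k) (F.Pz e) fun y => f (e.v y) with hT'
  set u := e.l.symm (v, 0) with hu
  have key : ∀ ε > 0, ‖fderiv ℂ T (e.l.symm (F.g x, a)) u‖ ^ 2 ≤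
      (Q / volume (ball (0 : E n) e.ρ)).toReal * (hr (F.om x) v + ε) := by
    intro ε hε
    have hco : ContinuousAt (fun b => hr (F.o k b) v) (F.g x) :=
      Complex.continuous_re.continuousAt.comp ((hq_contOn (F.o_cont k) continuousOn_const
        continuousOn_const).continuousAt ((F.T_open k).mem_nhds (F.maps k hx.1)))
    have hev : ∀ᶠ b in 𝓝 (F.g x), hr (F.o k b) v < hr (F.om x) v + ε :=
      hco.eventually_lt continuousAt_const (by rw [F.o_eq k x hx.1]; linarith)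
    obtain ⟨η, hη, hO⟩ := Metric.eventually_nhds_iff_ball.1 ((sbd9_loc H hμ hx).and hev)
    have hs : e.l ⁻¹' (ball (F.g x) η ×ˢ ball a e.ρ) ⊆ F.TaS e M k :=
      fun w hw => ⟨(hO _ hw.1).1.1, hba hw.2⟩
    have h1 := bpd3b_mv (Φ := fun q => fderiv ℂ T (e.l.symm q) u) (b := F.g x) (a := a) (r := η)
      e.ρ_pos ((measurable_fderiv_apply_const ℂ T u).comp e.l.symm.continuous.measurable)
      (((CL.hol_smooth hP.isOpen' (trA_hol hP hμ hh)).2.2.clm_apply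
        (differentiableOn_const u)).comp e.l.symm.differentiableOn fun q hq => hs (by simpa using hq))
    rw [hl _ fun w => ‖fderiv ℂ T w u‖ₑ ^ 2, Measure.addHaar_ball_center] at h1
    have h2 := trA_grad hP hμ (bpd3b_meas e.l (F.g x) a η e.ρ) hs (d := F.degZ e M x)
      (fun w hw => by simpa using (hO _ hw.1).1.2.2 _ (hba hw.2)) hh u
      (G := fun y => B * hr (h y).adjugateᵀ v) (hB k v)
    have h3 : ∫⁻ y in F.SoS e M k ∩ F.Pz e ⁻¹' (e.l ⁻¹' (ball (F.g x) η ×ˢ ball a e.ρ)),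
        ENNReal.ofReal (B * hr (h y).adjugateᵀ v) ∂μ ≤ ENNReal.ofReal B * (ENNReal.ofReal c₀ *
          (ENNReal.ofReal (hr (F.om x) v + ε) * volume (ball (F.g x) η))) := by
      refine (sbd9_int (sbd9_sub k _ _) hB0 _).trans (mul_le_mul_right
        ((hT.fub_adj k _ (fun b hb => (hO b hb).1.2.1) measurableSet_ball v).trans
          (mul_le_mul_right ?_ _)) _)
      rw [← setLIntegral_const]
      exact setLIntegral_mono' measurableSet_ball fun b hb =>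
        ENNReal.ofReal_le_ofReal (hO b hb).2.le
    have h4 : ENNReal.ofReal (‖fderiv ℂ T (e.l.symm (F.g x, a)) u‖ ^ 2) *
        volume (ball (0 : E n) e.ρ) * volume (ball (F.g x) η) ≤
        Q * ENNReal.ofReal (hr (F.om x) v + ε) * volume (ball (F.g x) η) := by
      refine h1.trans ((mul_le_mul_right (h2.trans (mul_le_mul' (Nat.cast_le.2 (hD x hx.2)) h3))
        c).trans (le_of_eq ?_))
      rw [hQ]
      ring
    rw [ENNReal.mul_le_mul_iff_left (measure_ball_pos _ _ hη).ne' measure_ball_lt_top.ne,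
      ← ENNReal.le_div_iff_mul_le (Or.inl hV) (Or.inl measure_ball_lt_top.ne),
      ENNReal.mul_div_right_comm, ENNReal.ofReal_le_iff_le_toReal
        (ENNReal.mul_ne_top hQ' ENNReal.ofReal_ne_top), ENNReal.toReal_mul,
      ENNReal.toReal_ofReal (by linarith)] at h4
    exact h4
  have hq0 : 0 ≤ (Q / volume (ball (0 : E n) e.ρ)).toReal := ENNReal.toReal_nonneg
  generalize (Q / volume (ball (0 : E n) e.ρ)).toReal = q at key hq0
  refine le_of_forall_pos_le_add fun δ hδ => (key (δ / (q + 1)) (by positivity)).trans ?_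
  rw [mul_add, ← mul_div_assoc]
  refine add_le_add_right ((div_le_iff₀ (by positivity)).2 ?_) _
  nlinarith

end

theorem Fib.Ok.exists_trS {e : Sz A K F.W φ j n} {M : Set X} (H : F.Ok e M) (hμ : IsVolume A μ)
    (hT : F.Tor μ K h c₀) (hA : F.AreaS e h) : ∃ deg Tr, F.TrS e M deg Tr := by
  refine ⟨F.degZ e M, F.TrZ e M, fun x hx a ha => H.fam hμ hx ha,
    fun x hx y hy => Fib.degZ_inv H.sat hx hy, fun x hx => H.deg_lc hμ hx,
    sbd9_deg H hμ hT.fub_det (hA.imp fun _ a => ⟨a.1, fun i w hw => (a.2 i w hw).1⟩),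
    fun f hf x hx => H.hol_a hμ hf hx,
    fun f hf a ha i z hz => ?_, fun f hf => ?_⟩
  · obtain ⟨k, hk⟩ := F.cov _ (H.sat.sub hz.2)
    exact (H.loc hμ hf ha (k := k) ⟨hz.1, hk, hz.2⟩).1.differentiableWithinAt
  · obtain ⟨B, hB⟩ := sbd9_grad H hμ hT hA hf
    refine ⟨B, fun a ha i z hz v => ?_⟩
    obtain ⟨k, hk⟩ := F.cov _ (H.sat.sub hz.2)
    rw [(H.loc hμ (sbd9_hol hf inter_subset_right)
      (ball_subset_ball (by linarith [e.ρ_pos]) ha) (k := k) ⟨hz.1, hk, hz.2⟩).2, Fib.Om, hr, hq_conj]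
    exact hB k _ ⟨hk, hz.2⟩ a ha _

end Pool.Agent.BP
end

-- part Pool.Agent.P.MP_63735c_ag.BPT7
section

/-! Power sums of points. -/

open scoped ComplexOrder ContDiff Matrix Topology ENNReal
open Set Metric MeasureTheory Filter

namespace Pool.Agent.BP

open Pool.Agent.SPF Pool.Agent.AB Pool.Agent.CK Pool.Agent.SE Pool.Agent.NL

variable {n : ℕ}

/-- A monomial of bounded degree in each variable. -/
noncomputable def mon {D : ℕ} (α : Fin n → Fin D) (z : E n) : ℂ := ∏ a, z a ^ (α a : ℕ)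

theorem mon_diff {D : ℕ} (α : Fin n → Fin D) : Differentiable ℂ (mon α) :=
  (contDiff_prod (n := 1) fun a _ => (contDiff_apply ℂ ℂ a).pow _).differentiable one_ne_zero

theorem bpt7_sep {d D : ℕ} {y c : Fin d → E n}
    (H : ∀ α : Fin n → Fin (D + 1), ∑ i, mon α (y i) = ∑ i, mon α (c i)) (z : E n)
    (T : Finset (E n)) (hz : z ∉ T) : ∃ h : E n → ℂ, h z = 1 ∧ (∀ q ∈ T, h q = 0) ∧
      ∀ β : Fin n → ℕ, (∀ a, β a + T.card ≤ D) →
        ∑ i, h (y i) * ∏ a, y i a ^ β a = ∑ i, h (c i) * ∏ a, c i a ^ β a := by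
  classical
  induction T using Finset.induction_on with
  | empty =>
    refine ⟨fun _ => 1, rfl, by simp, fun β hβ => ?_⟩
    simpa [mon] using H fun a => ⟨β a, by have := hβ a; omega⟩
  | insert q T hq ih =>
    rw [Finset.mem_insert, not_or] at hz
    obtain ⟨h, h2, h3, h4⟩ := ih hz.2
    obtain ⟨a, ha⟩ := Function.ne_iff.1 hz.1
    refine ⟨fun x => (x a - q a) / (z a - q a) * h x, ?_, fun x hx => ?_, fun β hβ => ?_⟩
    · simp only [h2, div_self (sub_ne_zero.2 ha), mul_one]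
    · rcases Finset.mem_insert.1 hx with rfl | hx
      · simp
      · simp [h3 x hx]
    · rw [Finset.card_insert_of_notMem hq] at hβ
      have e : ∀ x : E n, (x a - q a) / (z a - q a) * h x * ∏ b, x b ^ β b =
          (z a - q a)⁻¹ * (h x * ∏ b, x b ^ (β b + if b = a then 1 else 0)) -
            q a / (z a - q a) * (h x * ∏ b, x b ^ β b) := fun x => by
        simp only [pow_add, Finset.prod_mul_distrib, pow_ite, pow_one, pow_zero,
          Finset.prod_ite_eq', Finset.mem_univ, if_true]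
        ring
      simp only [e, Finset.sum_sub_distrib, ← Finset.mul_sum]
      rw [h4 β fun b => by have := hβ b; omega,
        h4 (fun b => β b + if b = a then 1 else 0) fun b => by
          have := hβ b
          split_ifs <;> omega]

theorem bpt7_eq {d : ℕ} {y c : Fin d → E n}
    (H : ∀ α : Fin n → Fin (2 * d + 1), ∑ i, mon α (y i) = ∑ i, mon α (c i)) (i : Fin d) :
    ∃ j, y i = c j := by
  classical
  by_contra hc
  obtain ⟨h, h5, h6, h4⟩ := bpt7_sep H (y i)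
    ((Finset.univ.image y ∪ Finset.univ.image c).erase (y i)) (Finset.notMem_erase _ _)
  have h7 := h4 0 fun a => by
    have h1 := Finset.card_erase_le (s := Finset.univ.image y ∪ Finset.univ.image c) (a := y i)
    have h2 := Finset.card_union_le (Finset.univ.image y) (Finset.univ.image c)
    have h3 := Finset.card_image_le (s := Finset.univ) (f := y)
    have h3' := Finset.card_image_le (s := Finset.univ) (f := c)
    simp only [Finset.card_univ, Fintype.card_fin, Pi.zero_apply] at h3 h3' ⊢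
    omega
  simp only [Pi.zero_apply, pow_zero, Finset.prod_const_one, mul_one] at h7
  rw [Finset.sum_eq_zero (f := fun j => h (c j)) fun j _ =>
    h6 _ (by simpa using fun e' => hc ⟨j, e'.symm⟩)] at h7
  have h8 := (Finset.sum_eq_zero_iff_of_nonneg fun j _ => ?_).1 h7 i (Finset.mem_univ i)
  · rw [h5] at h8
    exact one_ne_zero h8
  · by_cases e' : y j = y i
    · rw [e', h5]
      exact zero_le_one
    · exact (h6 _ (by simpa using e')).ge

theorem ps_close (n d : ℕ) (R : ℝ) {ε : ℝ} (hε : 0 < ε) : ∃ δ : ℝ, 0 < δ ∧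
    ∀ y c : Fin d → E n, (∀ i, ‖y i‖ ≤ R ∧ ‖c i‖ ≤ R) →
      (∀ α : Fin n → Fin (2 * d + 1), ‖∑ i, mon α (y i) - ∑ i, mon α (c i)‖ ≤ δ) →
      ∀ i, ∃ j, ‖y i - c j‖ ≤ ε := by
  set B : Set (Fin d → E n) := univ.pi fun _ => closedBall 0 R
  have hB : IsCompact B := isCompact_univ_pi fun _ => isCompact_closedBall _ _
  set f : (Fin d → E n) × (Fin d → E n) → (Fin n → Fin (2 * d + 1)) → ℂ :=
    fun p α => ∑ i, mon α (p.1 i) - ∑ i, mon α (p.2 i) with hf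
  have hc : Continuous f := continuous_pi fun α =>
    (continuous_finsetSum _ fun i _ => (mon_diff α).continuous.comp (by fun_prop)).sub
      (continuous_finsetSum _ fun i _ => (mon_diff α).continuous.comp (by fun_prop))
  have hS : IsCompact (B ×ˢ B ∩ ⋃ i, ⋂ j, {p | ε ≤ ‖p.1 i - p.2 j‖}) :=
    (hB.prod hB).inter_right (isClosed_iUnion_of_finite fun i => isClosed_iInter fun j =>
      isClosed_le continuous_const (by fun_prop))
  obtain ⟨δ, hδ, hd⟩ := hS.exists_forall_le' (a := 0) hc.norm.continuousOn fun p hp => by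
    refine norm_pos_iff.2 fun h0 => ?_
    obtain ⟨i, hi⟩ := mem_iUnion.1 hp.2
    obtain ⟨j, hj⟩ := bpt7_eq (fun α => sub_eq_zero.1 (congrFun h0 α)) i
    have := mem_iInter.1 hi j
    simp only [mem_ofPred_eq, hj, sub_self, norm_zero] at this
    exact this.not_gt hε
  refine ⟨δ / 2, half_pos hδ, fun y c h1 h2 i => ?_⟩
  by_contra h3
  have h4 := hd (y, c) ⟨⟨fun j _ => mem_closedBall_zero_iff.2 (h1 j).1,
    fun j _ => mem_closedBall_zero_iff.2 (h1 j).2⟩,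
    mem_iUnion.2 ⟨i, mem_iInter.2 fun j => (not_le.1 fun h => h3 ⟨j, h⟩).le⟩⟩
  have h5 := (pi_norm_le_iff_of_nonneg (x := f (y, c)) (half_pos hδ).le).2 h2
  linarith

open MvPolynomial in
theorem exists_newton (d : ℕ) : ∃ Q : (Fin d → ℂ) → ℂ, Differentiable ℂ Q ∧
    ∀ x : Fin d → ℂ, Q (fun j => ∑ i, x i ^ ((j : ℕ) + 1)) = ∏ i, x i := by
  have H : ∀ k, ∃ Q : (Fin d → ℂ) → ℂ, Differentiable ℂ Q ∧ (k ≤ d →
      ∀ x : Fin d → ℂ, Q (fun j => ∑ i, x i ^ ((j : ℕ) + 1)) = eval x (esymm (Fin d) ℂ k)) := by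
    intro k
    induction k using Nat.strong_induction_on with
    | _ k ih =>
      rcases Nat.eq_zero_or_pos k with rfl | hk
      · exact ⟨fun _ => 1, differentiable_const _, fun _ x => by simp⟩
      choose! Q hQ using ih
      refine ⟨fun t => (k : ℂ)⁻¹ * ((-1) ^ (k + 1) *
        ∑ a ∈ Finset.HasAntidiagonal.antidiagonal k with a.1 < k, (-1) ^ a.1 * Q a.1 t *
          if h : a.2 - 1 < d then t ⟨_, h⟩ else 0), ?_, fun hd x => ?_⟩
      · refine ((Differentiable.fun_sum fun a ha => (((hQ _ (Finset.mem_filter.1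
          ha).2).1.const_mul _).mul ?_)).const_mul _).const_mul _
        split_ifs
        · fun_prop
        · fun_prop
      · have h1 := congrArg (eval x) (mul_esymm_eq_sum (Fin d) ℂ k)
        simp only [map_mul, map_natCast, map_pow, map_neg, map_one, map_sum] at h1
        rw [inv_mul_eq_iff_eq_mul₀ (Nat.cast_ne_zero.2 hk.ne'), h1]
        refine congrArg _ (Finset.sum_congr rfl fun a ha => ?_)
        obtain ⟨h2, h3⟩ := Finset.mem_filter.1 ha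
        rw [Finset.HasAntidiagonal.mem_antidiagonal] at h2
        rw [(hQ _ h3).2 (by omega), dif_pos (by omega)]
        simp [psum, Nat.sub_add_cancel (show 1 ≤ a.2 by omega)]
  obtain ⟨Q, h1, h2⟩ := H d
  refine ⟨Q, h1, fun x => ?_⟩
  have h3 : Finset.powersetCard d (Finset.univ : Finset (Fin d)) = {Finset.univ} := by
    simpa using Finset.powersetCard_self (Finset.univ : Finset (Fin d))
  rw [h2 le_rfl, esymm, h3]
  simp

end Pool.Agent.BP
end
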