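import Pool.Agent.K.MP_63735c_ag.C315
import Pool.Agent.K.MP_63735c_ag.C212
import Pool.Agent.K.MP_63735c_ag.C71

/-! The germ at a point. -/

open scoped ComplexOrder ContDiff Matrix Topology ENNReal
open Set Metric MeasureTheory Filter

namespace Pool.Agent.BP

open Pool.Agent.SPF Pool.Agent.AB Pool.Agent.CK Pool.Agent.SE Pool.Agent.NL

variable {N n : ℕ} {X : Type} [TopologicalSpace X] [T2Space X] {A : Atlas X N} {F : Fib A n}

omit [T2Space X] in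
theorem bpd4_eps (e : Sc A n) {K₁ K₂ : Set X} (h1 : IsClosed K₁) (h2 : K₁ ⊆ interior K₂) :
    ∃ ε : ℝ, 0 < ε ∧ ∀ z, ∀ y ∈ e.cbox, A.p e.i y ∈ K₁ → (e.l z).1 = (e.l y).1 →
      ‖(e.l z).2 - (e.l y).2‖ ≤ ε → A.p e.i z ∈ K₂ := by
  obtain ⟨c1, c2, -⟩ := e.cbox_cpt
  have h3 : IsCompact (e.l '' (e.cbox ∩ A.p e.i ⁻¹' K₁)) :=
    (c1.of_isClosed_subset (((A.cont e.i).mono c2).preimage_isClosed_of_isClosed c1.isClosed h1)
      inter_subset_left).image e.l.continuous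
  have h4 : IsOpen (e.l '' ((A.C e.i).W ∩ A.p e.i ⁻¹' interior K₂)) :=
    e.l.isOpenMap _ ((A.cont e.i).isOpen_inter_preimage (A.C e.i).isOpen isOpen_interior)
  obtain ⟨ε, h5, h6⟩ := h3.exists_cthickening_subset_open h4
    (image_mono fun z hz => ⟨c2 hz.1, h2 hz.2⟩)
  refine ⟨ε, h5, fun z y hy hK h7 h8 => ?_⟩
  obtain ⟨w, hw, h9⟩ := h6 (mem_cthickening_of_dist_le (e.l z) (e.l y) ε _ ⟨y, ⟨hy, hK⟩, rfl⟩ (by
    rw [Prod.dist_eq, h7, dist_self, dist_eq_norm]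
    exact max_le h5.le h8))
  rw [← e.l.injective h9]
  exact interior_subset hw.2

/-- The monomials in the second coordinate of a scale. -/
noncomputable def mo (e : Sc A n) {D : ℕ} (α : Fin n → Fin D) (z : E N) : ℂ := mon α (e.l z).2

omit [T2Space X] in
theorem mo_diff (e : Sc A n) {D : ℕ} (α : Fin n → Fin D) : Differentiable ℂ (mo e α) :=
  (mon_diff α).comp (differentiable_snd.comp e.l.differentiable)

omit [T2Space X] in
theorem bpd4_fam {e : Sc A n} {M : Set X} {deg : X → ℕ} {Tr : (E N → ℂ) → X → E n → ℂ}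
    (h : F.TrP e M deg Tr) {x : X} (hx : x ∈ M) {d : ℕ} (hd : deg x = d) {a : E n}
    (ha : a ∈ ball e.a (2 * e.ρ)) : ∃ y : Fin d → E N,
    (∀ k, y k ∈ e.box ∧ F.r x (A.p e.i (y k)) ∧ (e.l (y k)).1 = a) ∧
    (∀ z ∈ e.box, F.r x (A.p e.i z) → (e.l z).1 = a → ∃ k, y k = z) ∧
    ∀ h, DifferentiableOn ℂ h (dom A F.W e.i) → Tr h x a = ∑ k, h (y k) := by
  subst hd
  exact h.fam x hx a ha

omit [T2Space X] in
/-- One scale: finitely many traces control the position of a class. -/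
theorem bpd4_net {e : Sc A n} {M : Set X} {deg : X → ℕ} {Tr : (E N → ℂ) → X → E n → ℂ}
    (h : F.TrP e M deg Tr) (d : ℕ) {K₁ K₂ : Set X} (h1 : IsClosed K₁) (h2 : K₁ ⊆ interior K₂) :
    ∃ (S : Finset (E n)) (δ B : ℝ), 0 < δ ∧ (∀ a ∈ S, a ∈ ball e.a e.ρ) ∧
      (∀ x ∈ M, deg x = d → ∀ (α : Fin n → Fin (2 * d + 1)), ∀ a ∈ S, ‖Tr (mo e α) x a‖ ≤ B) ∧
      ∀ x ∈ M, deg x = d → ∀ x₁ ∈ M, deg x₁ = d → (∀ y, F.r x₁ y → y ∈ K₁) →
        (∀ (α : Fin n → Fin (2 * d + 1)), ∀ a ∈ S, ‖Tr (mo e α) x a - Tr (mo e α) x₁ a‖ ≤ δ) →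
        ∀ z ∈ e.core, F.r x (A.p e.i z) → A.p e.i z ∈ K₂ := by
  obtain ⟨c1, -, -, -, -, c6, -, c8⟩ := e.cbox_cpt
  obtain ⟨ε, hε, h3⟩ := bpd4_eps e h1 h2
  obtain ⟨δ, hδ, h4⟩ := ps_close n d (‖e.c‖ + e.r₂) hε
  have h5 : ∀ α : Fin n → Fin (2 * d + 1), ∃ B, ∀ z ∈ e.cbox, ‖mo e α z‖ ≤ B := fun α =>
    c1.exists_bound_of_continuousOn (mo_diff e α).continuous.continuousOn
  choose B₀ hB₀ using h5
  obtain ⟨B₁, hB₁⟩ := (finite_range B₀).bddAbove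
  set B := d * |B₁| + 1 with hB
  have hB0 : 0 < B := by positivity
  have hρ := e.ρ_pos
  have h6 : ∀ x ∈ M, deg x = d → ∀ (α : Fin n → Fin (2 * d + 1)), ∀ a ∈ ball e.a (2 * e.ρ),
      ‖Tr (mo e α) x a‖ ≤ B := by
    intro x hx hd α a ha
    obtain ⟨y, y1, -, y3⟩ := bpd4_fam h hx hd ha
    rw [y3 _ (mo_diff e α).differentiableOn]
    refine (norm_sum_le_of_le _ (n := fun _ => |B₁|) fun k _ => (hB₀ α _ (c6 (y1 k).1)).trans
      ((hB₁ ⟨α, rfl⟩).trans (le_abs_self _))).trans ?_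
    simp [hB]
  obtain ⟨S, s1, s2, s3⟩ := CL.exists_net (fun a : E n => a) (ball e.a e.ρ) (x0 := e.a) (R := e.ρ)
    (δ := δ / 3 * e.ρ / B) (by positivity) fun a ha => (mem_ball_iff_norm.1 ha).le
  have hb : ball e.a e.ρ ⊆ ball e.a (2 * e.ρ) := ball_subset_ball (by linarith)
  refine ⟨s1.toFinset, δ / 3, B, by positivity, fun a ha => s2 (s1.mem_toFinset.1 ha),
    fun x hx hd α a ha => h6 x hx hd α a (hb (s2 (s1.mem_toFinset.1 ha))),
    fun x hx hd x₁ hx₁ hd₁ hK hc z hz hr => ?_⟩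
  have ha : (e.l z).1 ∈ ball e.a e.ρ := hz.1
  obtain ⟨k, hk, h7⟩ := s3 _ ha
  have h8 : ∀ x ∈ M, deg x = d → ∀ (α : Fin n → Fin (2 * d + 1)),
      ‖Tr (mo e α) x (e.l z).1 - Tr (mo e α) x k‖ ≤ δ / 3 := by
    intro x hx hd α
    refine (CL.hol_lip (by linarith : e.ρ < 2 * e.ρ) (h.hol_a _ (mo_diff e α).differentiableOn x hx)
      (h6 x hx hd α) ha (s2 hk)).trans ?_
    refine (mul_le_mul_of_nonneg_left h7 (div_nonneg hB0.le (by linarith))).trans_eq ?_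
    rw [show 2 * e.ρ - e.ρ = e.ρ by ring]
    field_simp
  obtain ⟨y, y1, y2, y3⟩ := bpd4_fam h hx hd (hb ha)
  obtain ⟨w, w1, -, w3⟩ := bpd4_fam h hx₁ hd₁ (hb ha)
  have h9 : ∀ u ∈ e.box, ‖(e.l u).2‖ ≤ ‖e.c‖ + e.r₂ := fun u hu =>
    norm_le_norm_add_const_of_dist_le (mem_ball.1 hu.2).le
  obtain ⟨i, rfl⟩ := y2 z (c8 hz) hr rfl
  obtain ⟨j, hj⟩ := h4 (fun k => (e.l (y k)).2) (fun k => (e.l (w k)).2)
    (fun k => ⟨h9 _ (y1 k).1, h9 _ (w1 k).1⟩) (fun α => by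
      have e1 := y3 _ (mo_diff e α).differentiableOn
      have e2 := w3 _ (mo_diff e α).differentiableOn
      simp only [mo] at e1 e2
      rw [← e1, ← e2]
      have a1 := h8 x hx hd α
      have a2 := h8 x₁ hx₁ hd₁ α
      have a3 := hc α k (s1.mem_toFinset.2 hk)
      rw [← dist_eq_norm] at a1 a2 a3 ⊢
      have a4 := dist_triangle4 (Tr (mo e α) x (e.l (y i)).1) (Tr (mo e α) x k) (Tr (mo e α) x₁ k)
        (Tr (mo e α) x₁ (e.l (y i)).1)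
      rw [dist_comm] at a2
      exact a4.trans (by linarith)) i
  exact h3 _ _ (c6 (w1 j).1) (hK _ (w1 j).2.1) (w1 j).2.2.symm hj

omit [T2Space X] in
/-- The frame. -/
theorem bpd4_frame {e : Sc A n} {M : Set X} {deg : X → ℕ} {Tr : (E N → ℂ) → X → E n → ℂ}
    (h : F.TrP e M deg Tr) (hM : M ⊆ F.W) (d : ℕ) {φ : X → ℝ} (hφ : F.Sec φ) :
    ∃ (w : X → ℂ) (c C : ℝ), 0 < c ∧ (∀ i, DifferentiableOn ℂ (fun z => w (A.p i z)) (dom A M i)) ∧
      ∀ y ∈ M, deg y = d → c ≤ ‖w y‖ ^ 2 * Real.exp (-(d * φ y)) ∧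
        ‖w y‖ ^ 2 * Real.exp (-(d * φ y)) ≤ C := by
  obtain ⟨c1, c2, -, -, -, c6, -⟩ := e.cbox_cpt
  obtain ⟨s, ψ, h1, h2, h3⟩ := hφ.loc e.i
  obtain ⟨Q, hQ, h4⟩ := exists_newton d
  obtain ⟨B, hB⟩ := c1.exists_bound_of_continuousOn (h2.mono c2)
  have h5 : ∀ z ∈ dom A F.W e.i, s z ≠ 0 := fun z hz h0 => by
    have := h3 z hz
    rw [h0] at this
    simp at this
  have h6 : ∀ j : ℕ, DifferentiableOn ℂ (fun z => (s z)⁻¹ ^ j) (dom A F.W e.i) := fun j =>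
    ((h1.mono inter_subset_left).inv h5).pow j
  have ha : e.a ∈ ball e.a (2 * e.ρ) := mem_ball_self (by linarith [e.ρ_pos])
  refine ⟨fun x => Q fun j => Tr (fun z => (s z)⁻¹ ^ ((j : ℕ) + 1)) x e.a, Real.exp (-B) ^ d,
    Real.exp B ^ d, by positivity, fun i => hQ.comp_differentiableOn
      (differentiableOn_pi.2 fun j => h.hol_x _ (h6 _) _ ha i), fun x hx hd => ?_⟩
  obtain ⟨y, y1, -, y3⟩ := bpd4_fam h hx hd ha
  have h7 : ∀ k, y k ∈ dom A F.W e.i := fun k =>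
    ⟨c2 (c6 (y1 k).1), (Fib.r_mem (hM hx) (y1 k).2.1).1⟩
  have h8 : ‖Q fun j => Tr (fun z => (s z)⁻¹ ^ ((j : ℕ) + 1)) x e.a‖ ^ 2 * Real.exp (-(d * φ x)) =
      ∏ k, Real.exp (-ψ (y k)) := by
    simp only [y3 _ (h6 _)]
    rw [h4, norm_prod, ← Finset.prod_pow, ← mul_neg, Real.exp_nat_mul,
      ← Fin.prod_const, ← Finset.prod_mul_distrib]
    refine Finset.prod_congr rfl fun k _ => ?_
    rw [← hφ.inv x (hM hx) _ (y1 k).2.1, h3 _ (h7 k), norm_inv]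
    have := norm_ne_zero_iff.2 (h5 _ (h7 k))
    field_simp
  rw [h8, ← Fin.prod_const, ← Fin.prod_const]
  have h9 := fun k => abs_le.1 (hB _ (c6 (y1 k).1))
  exact ⟨Finset.prod_le_prod (fun k _ => (Real.exp_pos _).le) fun k _ =>
    Real.exp_le_exp.2 (neg_le_neg (h9 k).2), Finset.prod_le_prod (fun k _ => (Real.exp_pos _).le)
    fun k _ => Real.exp_le_exp.2 (neg_le.1 (h9 k).1)⟩

theorem Fib.exists_germ [CompactSpace X] (hN : N = 2 * n) (hn : 1 ≤ n) (hP : F.Pack) (hA : F.Area)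
    {φ : X → ℝ} (hφ : F.Sec φ) (x : X) : Nonempty (Germ A F.W F.Om φ x) := by
  classical
  have hne : (𝓝[F.W] x).NeBot := mem_closure_iff_nhdsWithin_neBot.1 (F.W_dense x)
  set U := Ultrafilter.of (𝓝[F.W] x)
  have hU : (U : Filter X) ≤ 𝓝[F.W] x := Ultrafilter.of_le _
  have hUW : F.W ∈ U := hU self_mem_nhdsWithin
  have hUx : (U : Filter X) ≤ 𝓝 x := hU.trans nhdsWithin_le_nhds
  choose e₀ e1 e2 using Fib.exists_sc hN hn hP U hUW
  have hco : ∀ e : Sc A n, IsOpen (A.p e.i '' e.core) := fun e => by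
    obtain ⟨-, c2, -, -, -, c6, c7, c8⟩ := e.cbox_cpt
    exact A.opn _ _ c7 (c8.trans (c6.trans c2))
  have hL : IsCompact (F.Lim U) := (Fib.lim_closed _).isCompact
  obtain ⟨t, ht⟩ := hL.elim_finite_subcover _ (fun y => hco (e₀ y))
    fun y _ => mem_iUnion.2 ⟨y, e1 y⟩
  let ι := (insert x t : Finset X)
  let e : ι → Sc A n := fun i => e₀ i
  let i₀ : ι := ⟨x, Finset.mem_insert_self _ _⟩
  set O : Set X := (⋃ i, A.p (e i).i '' (e i).core) \ ⋃ i, A.p (e i).i '' (e i).shell with hOd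
  have hO : IsOpen O := (isOpen_iUnion fun i => hco _).sdiff (isClosed_iUnion_of_finite fun i => by
    obtain ⟨-, c2, c3, c4, -⟩ := (e i).cbox_cpt
    exact (c3.image_of_continuousOn ((A.cont _).mono (c4.trans c2))).isClosed)
  have hLO : F.Lim U ⊆ O := fun y hy => by
    obtain ⟨i, hi, h1⟩ := mem_iUnion₂.1 (ht hy)
    exact ⟨mem_iUnion.2 ⟨⟨i, Finset.mem_insert_of_mem hi⟩, h1⟩, fun h2 => by
      obtain ⟨j, hj⟩ := mem_iUnion.1 h2
      exact disjoint_left.1 (e2 j) hj hy⟩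
  set M := {y | y ∈ F.W ∧ ∀ y', F.r y y' → y' ∈ O}
  have hM : F.Sat M := Fib.sat_of_open hO
  have hMU : ∀ᶠ y in (U : Filter X), y ∈ M := (Fib.lim_trap U hO hLO).mp
    (mem_of_superset hUW fun y hy h => ⟨hy, h⟩)
  choose deg Tr hT using fun i => Fib.exists_trp (by omega) hA (e i) hM (disjoint_left.2
    fun y hy h => (hy.2 y (F.eqv.refl y)).2 (mem_iUnion.2 ⟨i, h⟩))
  have hd : ∀ i, ∃ d, ∀ᶠ y in (U : Filter X), deg i y = d := fun i => by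
    obtain ⟨B, hB⟩ := (hT i).bdd
    obtain ⟨d, -, h⟩ := (Ultrafilter.eventually_exists_mem_iff (finite_Iic B)
      (P := fun d y => deg i y = d)).1 (hMU.mono fun y hy => ⟨_, hB y hy, rfl⟩)
    exact ⟨d, h⟩
  choose d hd using hd
  set Nb := {y | y ∈ M ∧ ∀ i, deg i y = d i}
  have hNU : ∀ᶠ y in (U : Filter X), y ∈ Nb := hMU.and (eventually_all.2 hd)
  have hNo : IsOpen Nb := isOpen_iff_mem_nhds.2 fun y hy => by
    filter_upwards [hM.opn.mem_nhds hy.1, eventually_all.2 fun i => (hT i).lc y hy.1] with y' a b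
    exact ⟨a, fun i => (b i).trans (hy.2 i)⟩
  obtain ⟨K₂, k1, k2, k3⟩ := exists_compact_between hL hO hLO
  obtain ⟨K₁, k4, k5, k6⟩ := exists_compact_between hL isOpen_interior k2
  choose S δ B s1 s2 s3 s4 using fun i => bpd4_net (hT i) (d i) k4.isClosed k6
  let κ := Σ i : ι, (Fin n → Fin (2 * d i + 1)) × S i
  let G₀ : κ → X → ℂ := fun k y => Tr k.1 (mo (e k.1) k.2.1) y k.2.2
  choose b hb using fun k : κ => CL.clhol_lim U (a := G₀ k) (M := B k.1)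
    (hNU.mono fun y hy => s3 k.1 y hy.1 (hy.2 _) _ _ k.2.2.2)
  let q := (Fintype.equivFin κ).symm
  let G : X → E (Fintype.card κ) := fun y m => G₀ (q m) y - b (q m)
  have hG : Tendsto (fun y => nsq (G y)) U (𝓝 0) := by
    have h1 : Tendsto G U (𝓝 0) :=
      tendsto_pi_nhds.2 fun m => tendsto_sub_nhds_zero_iff.2 (hb (q m))
    have h2 : nsq (0 : E (Fintype.card κ)) = 0 := by simp [nsq]
    exact h2 ▸ (nsq_smooth.continuous.tendsto _).comp h1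
  obtain ⟨δ₀, d1, d2⟩ : ∃ δ₀ : ℝ, 0 < δ₀ ∧ ∀ i, δ₀ ≤ (δ i / 2) ^ 2 := by
    obtain ⟨i, hi⟩ := @Finite.exists_min ι ℝ _ ⟨i₀⟩ _ fun i => (δ i / 2) ^ 2
    exact ⟨_, by have := s1 i; positivity, hi⟩
  have hc : ∀ y, nsq (G y) ≤ δ₀ → ∀ k : κ, ‖G₀ k y - b k‖ ≤ δ k.1 / 2 := fun y hy k => by
    have h1 := norm_le_pi_norm (G y) (q.symm k)
    have h2 : G y (q.symm k) = G₀ k y - b k := by simp only [G, Equiv.apply_symm_apply]
    exact h2 ▸ h1.trans (abs_le_of_sq_le_sq' ((nsq_le _).1.trans (hy.trans (d2 k.1)))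
      (by have := s1 k.1; positivity)).2
  obtain ⟨x₁, x1, x2, x3⟩ := (hNU.and ((Fib.lim_trap U isOpen_interior k5).and
    (hG.eventually (ge_mem_nhds d1)))).exists
  have trap : ∀ y ∈ Nb, nsq (G y) ≤ δ₀ → ∀ y', F.r y y' → y' ∈ K₂ := fun y hy h y' hr => by
    obtain ⟨i, z, hz, rfl⟩ := mem_iUnion.1 (hy.1.2 y' hr).1
    refine s4 i y hy.1 (hy.2 i) x₁ x1.1 (x1.2 i) (fun w hw => interior_subset (x2 w hw))
      (fun α a ha => ?_) z hz hr
    have a1 := hc y h ⟨i, α, a, ha⟩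
    have a2 := hc x₁ x3 ⟨i, α, a, ha⟩
    exact (norm_sub_le_norm_sub_add_norm_sub _ (b ⟨i, α, a, ha⟩) _).trans
      (by rw [norm_sub_rev (b _)]; exact (add_le_add a1 a2).trans_eq (add_halves _))
  obtain ⟨w, c, C₁, w1, w2, w3⟩ := bpd4_frame (hT i₀) hM.sub (d i₀) hφ
  choose C₂ hC₂ using fun k : κ => (hT k.1).grad _ (mo_diff (e k.1) k.2.1)
  have hb2 : ∀ k : κ, (k.2.2 : E n) ∈ ball (e k.1).a (2 * (e k.1).ρ) := fun k =>
    ball_subset_ball (by linarith [(e k.1).ρ_pos]) (s2 k.1 _ k.2.2.2)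
  have hsub : ∀ i, dom A Nb i ⊆ dom A M i := fun i z hz => ⟨hz.1, hz.2.1⟩
  have hhol : ∀ k i, DifferentiableOn ℂ (fun z => G₀ k (A.p i z)) (dom A M i) := fun k i =>
    (hT k.1).hol_x _ (mo_diff (e k.1) k.2.1).differentiableOn _ (hb2 k) i
  refine ⟨{
    M := Fintype.card κ
    Nb := Nb
    G := G
    Wf := w
    d := d i₀
    δ := δ₀
    c := c
    C := max C₁ (∑ m, C₂ (q m))
    opn := hNo
    sub := fun y hy => hy.1.1
    d_pos := ?_
    δ_pos := d1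
    c_pos := w1
    G_hol := fun i => differentiableOn_pi.2 fun m => ((hhol (q m) i).mono (hsub i)).sub_const _
    closed := fun y hy h => ?_
    grad := fun i z hz v => ?_
    Wf_hol := fun i => (w2 i).mono (hsub i)
    Wf_bd := fun y hy => ⟨(w3 y hy.1 (hy.2 _)).1, (w3 y hy.1 (hy.2 _)).2.trans (le_max_left _ _)⟩
    near := fun V hV ρ hρ => ?_ }⟩
  · obtain ⟨y, hy, z, hz, rfl⟩ := (hNU.and (hUx ((hco (e i₀)).mem_nhds (e1 x)))).exists
    obtain ⟨-, -, -, -, -, -, -, c8⟩ := (e i₀).cbox_cpt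
    obtain ⟨y, -, y2, -⟩ := bpd4_fam (hT i₀) hy.1 (hy.2 i₀) (c8 hz).1
    obtain ⟨k, -⟩ := y2 z (c8 hz) (F.eqv.refl _) rfl
    exact k.pos
  · have h1 : y ∈ M := ⟨hy, fun y' hr => k3 (Fib.closed_orb k1.isClosed hy
      (closure_mono (fun u hu => And.intro hu.1.1.1 (trap u hu.1 hu.2)) h) y' hr)⟩
    refine ⟨h1, fun i => ?_⟩
    obtain ⟨u, u1, u2⟩ := ((mem_closure_iff_frequently.1 h).and_eventually ((hT i).lc y h1)).exists
    exact u2.symm.trans (u1.1.2 i)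
  · have h0 : 0 ≤ hr (F.Om i z) v := by
      rw [Fib.Om, hr, hq_conj]
      exact F.om_psd _ hz.2.1.1 _
    have h1 : ∀ m, DifferentiableAt ℂ (fun y => G₀ (q m) (A.p i y)) z := fun m =>
      (hhol (q m) i).differentiableAt
        (((A.cont i).isOpen_inter_preimage (A.C i).isOpen hM.opn).mem_nhds (hsub i hz))
    refine le_trans ?_ (mul_le_mul_of_nonneg_right (le_max_right _ _) h0)
    rw [Finset.sum_mul, nsq]
    refine Finset.sum_le_sum fun m _ => ?_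
    rw [show fderiv ℂ (fun y => G (A.p i y)) z = _ from
      fderiv_pi fun m => (h1 m).sub_const (b (q m)), ContinuousLinearMap.pi_apply,
      fderiv_sub_const]
    exact hC₂ (q m) _ (s2 _ _ (q m).2.2.2) i z (hsub i hz) v
  · obtain ⟨y, y1, y2, y3⟩ := (hNU.and ((show ∀ᶠ y in (U : Filter X), y ∈ V from hUx hV).and
      (hG.eventually (gt_mem_nhds hρ)))).exists
    exact ⟨y, y2, y1, y3⟩

end Pool.Agent.BP
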