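import Pool.Agent.K.MP_63735c_ag.C293
import Pool.Agent.K.MP_63735c_ag.C316

/-! Coordinates on all the classes close to a limit set. -/

open scoped ComplexOrder ContDiff Matrix Topology ENNReal
open Set Metric MeasureTheory Filter

namespace Pool.Agent.BP

open Pool.Agent.SPF Pool.Agent.CL Pool.Agent.NL Pool.Agent.CK Pool.Agent.AB Pool.Agent.SE

variable {N n : ℕ} {X : Type} [TopologicalSpace X] {A : Atlas X N} {F : Fib A n}

theorem Fib.exists_sc' (hN : N = 2 * n) (hn : 1 ≤ n) (hP : F.Pack) (U : Ultrafilter X)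
    (hU : F.W ∈ U) (y : X) {B₀ : Set X} (hB : B₀ ∈ 𝓝 y) : ∃ e : Sc A n, y ∈ A.p e.i '' e.core ∧
      Disjoint (A.p e.i '' e.shell) (F.Lim U) ∧ A.p e.i '' e.cbox ⊆ B₀ := by
  obtain ⟨i, z, hz, rfl⟩ := A.cover y
  obtain ⟨R₀, hR₀, hs₀⟩ := nhds_basis_closedBall.mem_iff.1 (inter_mem
    ((A.C i).isOpen.mem_nhds hz) ((A.cont i).continuousAt ((A.C i).isOpen.mem_nhds hz) hB))
  have hs := hs₀.trans inter_subset_left
  let ε : Fin n ⊕ Fin n ≃ Fin N := finSumFinEquiv.trans (finCongr (by omega))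
  obtain ⟨B, r₀, h0, hB⟩ := bpd2_pack hP U hU hs
  obtain ⟨R, hR, hR'⟩ : ∃ R : ℝ, 0 < R ∧ (3 * n + 3) * R < R₀ :=
    ⟨R₀ / (3 * n + 4), by positivity, by
      rw [mul_div_assoc', div_lt_iff₀ (by positivity)]
      linarith⟩
  obtain ⟨M, r, hM, hr1, hr2, hr⟩ := plane n hn (C := B * 2 ^ (2 * n))
    (Z := (fun w => kap ε (w - z)) '' {w | w ∈ ball z R₀ ∧ A.p i w ∈ F.Lim U}) h0
    (fun δ hδ hδ' => by
      obtain ⟨T, h1, h2⟩ := cover_of_sep (C := B / (δ / 2) ^ (2 * n))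
        (Z := (fun w => kap ε (w - z)) '' {w | w ∈ ball z R₀ ∧ A.p i w ∈ F.Lim U}) hδ
        fun T h1 h2 => by
          choose! w hw e using fun t (ht : t ∈ T) => h1 ht
          refine (le_div_iff₀ (by positivity)).2 (hB δ hδ hδ' T w hw fun t ht t' ht' hne => ?_)
          have := h2 t ht t' ht' hne
          rwa [← e t ht, ← e t' ht', dist_eq_norm, ← map_sub, bpd2_kap, sub_sub_sub_cancel_right,
            ← dist_eq_norm] at this
      refine ⟨T, ?_, h2⟩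
      rwa [le_div_iff₀ (by positivity), div_pow, ← mul_div_assoc,
        div_le_iff₀ (by positivity)] at h1) hR
  obtain ⟨s, hs'⟩ := bpd2_shear M
  set l := (kap ε).trans s with hl
  have e1 : ∀ w, (l w).1 - (l z).1 = (kap ε (w - z)).1 - M *ᵥ (kap ε (w - z)).2 ∧
      (l w).2 - (l z).2 = (kap ε (w - z)).2 := fun w => by
    rw [← Prod.fst_sub, ← Prod.snd_sub, ← map_sub, hl, ContinuousLinearEquiv.trans_apply, hs']
    exact ⟨rfl, rfl⟩
  have e2 : l ⁻¹' (closedBall (l z).1 (2 * R) ×ˢ closedBall (l z).2 (3 * R)) ⊆ ball z R₀ := by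
    intro w hw
    have a1 := mem_closedBall_iff_norm.1 hw.1
    have a2 := mem_closedBall_iff_norm.1 hw.2
    rw [(e1 w).1] at a1
    rw [(e1 w).2] at a2
    have a3 := (bpd2_mulVec hM _).trans (mul_le_mul_of_nonneg_left a2 n.cast_nonneg)
    have a4 := norm_sub_norm_le (kap ε (w - z)).1 (M *ᵥ (kap ε (w - z)).2)
    have a5 : 0 ≤ n * R := by positivity
    rw [mem_ball_iff_norm, ← bpd2_kap ε, Prod.norm_def, max_lt_iff]
    constructor <;> linarith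
  have hK : IsCompact (l ⁻¹' (closedBall (l z).1 (2 * R) ×ˢ closedBall (l z).2 (3 * R))) :=
    l.toHomeomorph.isCompact_preimage.2 ((isCompact_closedBall _ _).prod (isCompact_closedBall _ _))
  have e3 := (e2.trans ball_subset_closedBall).trans hs
  obtain ⟨η, hη, h1⟩ := (hK.of_isClosed_subset (((A.cont i).mono e3).preimage_isClosed_of_isClosed
    hK.isClosed (Fib.lim_closed (F := F) U)) inter_subset_left).exists_forall_le' (a := 0)
    (f := fun w => dist (l w).1 (l z).1 + |dist (l w).2 (l z).2 - r|) (by fun_prop) fun w hw => by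
      refine lt_of_le_of_ne (by positivity) fun e => ?_
      obtain ⟨a1, a2⟩ := (add_eq_zero_iff_of_nonneg dist_nonneg (abs_nonneg _)).1 e.symm
      rw [dist_eq_norm, norm_eq_zero, (e1 w).1, sub_eq_zero] at a1
      rw [abs_eq_zero, sub_eq_zero, dist_eq_norm, (e1 w).2] at a2
      exact hr _ ⟨w, ⟨e2 hw.1, hw.2⟩, rfl⟩ a1 a2
  obtain ⟨ρ, hρ, b1, b2⟩ : ∃ ρ : ℝ, 0 < ρ ∧ 3 * ρ < η ∧ ρ < R :=
    ⟨min (η / 4) (R / 2), by positivity, by linarith [min_le_left (η / 4) (R / 2)],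
      by linarith [min_le_right (η / 4) (R / 2)]⟩
  have e4 : l ⁻¹' (closedBall (l z).1 (2 * ρ) ×ˢ closedBall (l z).2 (r + ρ)) ⊆
      l ⁻¹' (closedBall (l z).1 (2 * R) ×ˢ closedBall (l z).2 (3 * R)) := preimage_mono
    (prod_mono (closedBall_subset_closedBall (by linarith))
      (closedBall_subset_closedBall (by linarith)))
  refine ⟨⟨i, l, (l z).1, (l z).2, ρ, r - ρ, r + ρ, hρ, by linarith, e4.trans e3⟩,
    ⟨z, ⟨mem_ball_self hρ, mem_ball_self (show 0 < r - ρ by linarith)⟩, rfl⟩,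
    disjoint_left.2 ?_, image_subset_iff.2 fun w hw =>
      (hs₀ (ball_subset_closedBall (e2 (e4 hw)))).2⟩
  rintro _ ⟨w, ⟨a1, a2, a3⟩, rfl⟩ hw
  have a4 := h1 w ⟨e4 ⟨a1, a2⟩, hw⟩
  have a5 : dist (l w).1 (l z).1 ≤ 2 * ρ := a1
  have a6 : dist (l w).2 (l z).2 ≤ r + ρ := a2
  have a7 : r - ρ ≤ dist (l w).2 (l z).2 := not_lt.1 a3
  have a8 : |dist (l w).2 (l z).2 - r| ≤ ρ := abs_le.2 ⟨by linarith, by linarith⟩
  linarith

variable {e : Sc A n} {M : Set X} {deg : X → ℕ} {Tr : (E N → ℂ) → X → E n → ℂ}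

theorem fb6_bd (h : F.TrP e M deg Tr) {f : E N → ℂ} (hf : Differentiable ℂ f) :
    ∃ B, ∀ x ∈ M, ∀ a ∈ ball e.a (2 * e.ρ), ‖Tr f x a‖ ≤ B := by
  obtain ⟨c1, -, -, -, -, c6, -⟩ := e.cbox_cpt
  obtain ⟨D, hD⟩ := h.bdd
  obtain ⟨B, hB⟩ := c1.exists_bound_of_continuousOn hf.continuous.continuousOn
  refine ⟨D * |B|, fun x hx a ha => ?_⟩
  obtain ⟨y, y1, -, y3⟩ := h.fam x hx a ha
  rw [y3 _ hf.differentiableOn]
  refine (norm_sum_le_of_le _ (n := fun _ => |B|) fun k _ =>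
    (hB _ (c6 (y1 k).1)).trans (le_abs_self _)).trans ?_
  simp only [Finset.sum_const, Finset.card_univ, Fintype.card_fin, nsmul_eq_mul]
  exact mul_le_mul_of_nonneg_right (Nat.cast_le.2 (hD x hx)) (abs_nonneg _)

theorem fb6_one (h : F.TrP e M deg Tr) {x : X} (hx : x ∈ M) (α : Fin n → Fin (2 * 0 + 1)) :
    Tr (mo e α) x e.a = deg x := by
  obtain ⟨y, -, -, y3⟩ := h.fam x hx e.a (mem_ball_self (by linarith [e.ρ_pos]))
  rw [y3 _ (mo_diff e α).differentiableOn]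
  simp [mo, mon]

theorem fb6_nat {a b : ℕ} (h : ‖(a : ℂ) - b‖ < 1) : a = b := by
  have h1 : ((a : ℂ) - b) = ((a - b : ℤ) : ℂ) := by push_cast; rfl
  rw [h1, Complex.norm_intCast, ← Int.cast_abs, ← Int.cast_one, Int.cast_lt,
    Int.abs_lt_one_iff] at h
  omega

theorem fb6_pos (h : F.TrP e M deg Tr) {x : X} (hx : x ∈ M) (hc : x ∈ A.p e.i '' e.core) :
    1 ≤ deg x := by
  obtain ⟨z, hz, rfl⟩ := hc
  obtain ⟨-, -, -, -, -, -, -, c8⟩ := e.cbox_cpt
  obtain ⟨y, -, y2, -⟩ := h.fam _ hx _ (c8 hz).1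
  obtain ⟨k, -⟩ := y2 z (c8 hz) (F.eqv.refl _) rfl
  exact k.pos

theorem fb6_lim (h : F.TrP e M deg Tr) (U : Ultrafilter X) {d : ℕ}
    (hM : ∀ᶠ y in (U : Filter X), y ∈ M ∧ deg y = d) : ∃ Y : Fin d → E N,
      (∀ k, A.p e.i (Y k) ∈ F.Lim U ∧ (e.l (Y k)).1 = e.a) ∧ ∀ f, Differentiable ℂ f →
        Tendsto (fun y => Tr f y e.a) U (𝓝 (∑ k, f (Y k))) := by
  obtain ⟨c1, c2, -, -, -, c6, -⟩ := e.cbox_cpt
  have ha : e.a ∈ ball e.a (2 * e.ρ) := mem_ball_self (by linarith [e.ρ_pos])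
  choose! w w1 w2 w3 using fun y (hy : y ∈ M ∧ deg y = d) => bpd4_fam h hy.1 hy.2 ha
  choose Y Y1 Y2 using fun k => c1.ultrafilter_le_nhds (U.map fun y => w y k)
    (le_principal_iff.2 (hM.mono fun y hy => c6 (w1 y hy k).1))
  have Y3 : ∀ k, Tendsto (fun y => w y k) U (𝓝 (Y k)) := Y2
  refine ⟨Y, fun k => ⟨fun O hO => ?_, ?_⟩, fun f hf => ?_⟩
  · filter_upwards [hM, (((A.cont e.i).continuousAt
      ((A.C e.i).isOpen.mem_nhds (c2 (Y1 k)))).tendsto.comp (Y3 k)).eventually hO] with y hy h1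
    exact ⟨_, h1, (w1 y hy k).2.1⟩
  · exact tendsto_nhds_unique (((continuous_fst.comp e.l.continuous).tendsto _).comp (Y3 k))
      (tendsto_const_nhds.congr' (hM.mono fun y hy => (w1 y hy k).2.2.symm))
  · exact (tendsto_finsetSum _ fun k _ => (hf.continuous.tendsto _).comp (Y3 k)).congr'
      (hM.mono fun y hy => (w3 y hy f hf.differentiableOn).symm)

theorem Fib.exists_loc [T2Space X] [CompactSpace X] (hN : N = 2 * n) (hn : 1 ≤ n) (hP : F.Pack)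
    (hA : F.Area) {x : X} (U : Ultrafilter X) (hU : (U : Filter X) ≤ 𝓝[F.W] x) {V₀ B : Set X}
    (hV : IsOpen V₀) (hL₀ : F.Lim U ⊆ V₀) (hB : B ∈ 𝓝 x) : Nonempty (Loc F U V₀ B) := by
  classical
  have hUW : F.W ∈ U := hU self_mem_nhdsWithin
  have hUx : (U : Filter X) ≤ 𝓝 x := hU.trans nhdsWithin_le_nhds
  obtain ⟨ex, ex1, ex2, ex3⟩ := Fib.exists_sc' hN hn hP U hUW x hB
  choose e₀ e1 e2 using Fib.exists_sc hN hn hP U hUW
  have hco : ∀ e : Sc A n, IsOpen (A.p e.i '' e.core) := fun e => by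
    obtain ⟨-, c2, -, -, -, c6, c7, c8⟩ := e.cbox_cpt
    exact A.opn _ _ c7 (c8.trans (c6.trans c2))
  have hL : IsCompact (F.Lim U) := (Fib.lim_closed _).isCompact
  obtain ⟨t, ht⟩ := hL.elim_finite_subcover _ (fun y => hco (e₀ y))
    fun y _ => mem_iUnion.2 ⟨y, e1 y⟩
  let ι := Option t
  let e : ι → Sc A n := fun i => i.elim ex fun i => e₀ i
  have e3 : ∀ i, Disjoint (A.p (e i).i '' (e i).shell) (F.Lim U) := by
    rintro (_ | i)
    exacts [ex2, e2 i]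
  set O : Set X := ((⋃ i, A.p (e i).i '' (e i).core) \ ⋃ i, A.p (e i).i '' (e i).shell) ∩ V₀
  have hO : IsOpen O := ((isOpen_iUnion fun i => hco _).sdiff (isClosed_iUnion_of_finite fun i => by
    obtain ⟨-, c2, c3, c4, -⟩ := (e i).cbox_cpt
    exact (c3.image_of_continuousOn ((A.cont _).mono (c4.trans c2))).isClosed)).inter hV
  have hLO : F.Lim U ⊆ O := fun y hy => by
    obtain ⟨i, hi, h1⟩ := mem_iUnion₂.1 (ht hy)
    exact ⟨⟨mem_iUnion.2 ⟨some ⟨i, hi⟩, h1⟩, fun h2 => by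
      obtain ⟨j, hj⟩ := mem_iUnion.1 h2
      exact disjoint_left.1 (e3 j) hj hy⟩, hL₀ hy⟩
  set M := {y | y ∈ F.W ∧ ∀ y', F.r y y' → y' ∈ O}
  have hM : F.Sat M := Fib.sat_of_open hO
  have hMU : ∀ᶠ y in (U : Filter X), y ∈ M := (Fib.lim_trap U hO hLO).mp
    (mem_of_superset hUW fun y hy h => ⟨hy, h⟩)
  choose deg Tr hT using fun i => Fib.exists_trp (by omega) hA (e i) hM (disjoint_left.2
    fun y hy h => (hy.2 y (F.eqv.refl y)).1.2 (mem_iUnion.2 ⟨i, h⟩))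
  choose D hD using fun i => (hT i).bdd
  obtain ⟨K₂, k1, k2, k3⟩ := exists_compact_between hL hO hLO
  obtain ⟨K₁, k4, k5, k6⟩ := exists_compact_between hL isOpen_interior k2
  choose S δ B₀ s1 s2 s3 s4 using fun i d => bpd4_net (hT i) d k4.isClosed k6
  let κ := Σ i : ι, Σ d : Fin (D i + 1),
    (Fin n → Fin (2 * d + 1)) × (insert (e i).a (S i d) : Finset (E n))
  let G₀ : κ → X → ℂ := fun k y => Tr k.1 (mo (e k.1) k.2.2.1) y k.2.2.2
  have hb1 : ∀ k : κ, (k.2.2.2 : E n) ∈ ball (e k.1).a (e k.1).ρ := fun k => by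
    rcases Finset.mem_insert.1 k.2.2.2.2 with h | h
    exacts [h.symm ▸ mem_ball_self (e k.1).ρ_pos, s2 _ _ _ h]
  have hb2 : ∀ k : κ, (k.2.2.2 : E n) ∈ ball (e k.1).a (2 * (e k.1).ρ) := fun k =>
    ball_subset_ball (by linarith [(e k.1).ρ_pos]) (hb1 k)
  let q := (Fintype.equivFin κ).symm
  let G : X → E (Fintype.card κ) := fun y m => G₀ (q m) y
  have hq : ∀ y k, G y (q.symm k) = G₀ k y := fun y k => by simp only [G, Equiv.apply_symm_apply]
  have hc : ∀ y y' k, ‖G₀ k y - G₀ k y'‖ ≤ ‖G y - G y'‖ := fun y y' k => by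
    rw [← hq, ← hq]
    exact norm_le_pi_norm (G y - G y') (q.symm k)
  have hdeg : ∀ y ∈ M, ∀ y' ∈ M, ‖G y - G y'‖ < 1 → ∀ i, deg i y = deg i y' :=
    fun y hy y' hy' h i => fb6_nat (by
      rw [← fb6_one (hT i) hy default, ← fb6_one (hT i) hy' default]
      exact (hc y y' ⟨i, 0, default, _, Finset.mem_insert_self _ _⟩).trans_lt h)
  choose C₁ hC₁ using fun k : κ => fb6_bd (hT k.1) (mo_diff (e k.1) k.2.2.1)
  choose C₂ hC₂ using fun k : κ => (hT k.1).grad _ (mo_diff (e k.1) k.2.2.1)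
  set C := ∑ k, (|C₁ k| + |C₂ k|) + 1 with hC
  have hC0 : 0 ≤ ∑ k, (|C₁ k| + |C₂ k|) := Finset.sum_nonneg fun _ _ => by positivity
  have hbd : ∀ y ∈ M, ‖G y‖ ≤ C := fun y hy => (pi_norm_le_iff_of_nonneg (by positivity)).2
    fun m => (hC₁ (q m) y hy _ (hb2 _)).trans (by
      have := Finset.single_le_sum (f := fun k => |C₁ k| + |C₂ k|) (fun _ _ => by positivity)
        (Finset.mem_univ (q m))
      linarith [le_abs_self (C₁ (q m)), abs_nonneg (C₂ (q m))])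
  obtain ⟨a, ha⟩ := CL.clhol_lim U (hMU.mono hbd)
  obtain ⟨δ₀, d1, d2, d3⟩ : ∃ δ₀ : ℝ, 0 < δ₀ ∧ 2 * δ₀ < 1 ∧
      ∀ i (d : Fin (D i + 1)), 2 * δ₀ ≤ δ i d := by
    obtain ⟨i, hi⟩ := @Finite.exists_min (Σ i : ι, Fin (D i + 1)) ℝ _ ⟨⟨none, 0⟩⟩ _
      fun i => δ i.1 i.2
    have := s1 i.1 i.2
    exact ⟨min (1 / 4) (δ i.1 i.2 / 2), by positivity, by
      linarith [min_le_left (1 / 4) (δ i.1 i.2 / 2)], fun j d => by
        linarith [min_le_right (1 / 4) (δ i.1 i.2 / 2), hi ⟨j, d⟩]⟩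
  have hmem : ∀ y, F.In (interior K₁) y → y ∈ M := fun y hy =>
    ⟨hy.1, fun y' h => k3 (interior_subset (k6 (interior_subset (hy.2 y' h))))⟩
  have hhol : ∀ k i, DifferentiableOn ℂ (fun z => G₀ k (A.p i z)) (dom A M i) := fun k i =>
    (hT k.1).hol_x _ (mo_diff (e k.1) k.2.2.1).differentiableOn _ (hb2 k) i
  refine ⟨{
    m := Fintype.card κ
    M := M
    G := G
    V := interior K₁
    a := a
    δ := δ₀
    C := C
    sat := hM
    sub := fun y hy => (hy.2 y (F.eqv.refl y)).2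
    δ_pos := d1
    C_pos := by positivity
    G_hol := fun i => differentiableOn_pi.2 fun m => hhol (q m) i
    grad := fun i z hz v => ?_
    bdd := hbd
    V_open := isOpen_interior
    lim := k5
    mem := hmem
    closed := fun y₁ h1 y hy h => ⟨hy, fun y' hr => k3 (Fib.closed_orb k1.isClosed hy
      (closure_mono (fun u hu => And.intro hu.1.1 fun u' hr' => ?_) h) y' hr)⟩
    tend := ha
    pass := fun y hy h => ?_
    cl := fun U₁ U₂ h1 h2 c t1 t2 => ?_ }⟩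
  · have h0 : 0 ≤ hr (F.Om i z) v := by
      rw [Fib.Om, hr, hq_conj]
      exact F.om_psd _ hz.2.1 _
    have h1 : ∀ m, DifferentiableAt ℂ (fun y => G₀ (q m) (A.p i y)) z := fun m =>
      (hhol (q m) i).differentiableAt
        (((A.cont i).isOpen_inter_preimage (A.C i).isOpen hM.opn).mem_nhds hz)
    have h2 : ∑ m, C₂ (q m) ≤ C := by
      rw [q.sum_comp C₂]
      exact (Finset.sum_le_sum fun k _ => by
        linarith [le_abs_self (C₂ k), abs_nonneg (C₁ k)]).trans (le_add_of_nonneg_right zero_le_one)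
    refine le_trans ?_ (mul_le_mul_of_nonneg_right h2 h0)
    rw [Finset.sum_mul, nsq]
    refine Finset.sum_le_sum fun m _ => ?_
    rw [show fderiv ℂ (fun y => G (A.p i y)) z = _ from fderiv_pi h1, ContinuousLinearMap.pi_apply]
    exact hC₂ (q m) _ (hb1 _) i z hz v
  · obtain ⟨i, z, hz, rfl⟩ := mem_iUnion.1 (hu.1.2 u' hr').1.1
    have h2 := hmem _ h1
    exact s4 i (deg i y₁) u hu.1 (hdeg u hu.1 y₁ h2 (hu.2.trans_lt d2) i) y₁ h2 rfl
      (fun w hw => interior_subset (h1.2 w hw)) (fun α b hb => (hc u y₁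
        ⟨i, ⟨_, Nat.lt_succ_of_le (hD i y₁ h2)⟩, α, b, Finset.mem_insert_of_mem hb⟩).trans
          (hu.2.trans (d3 i ⟨_, Nat.lt_succ_of_le (hD i y₁ h2)⟩))) z hz hr'
  · have hx : ∀ᶠ y in (U : Filter X), y ∈ A.p ex.i '' ex.core := hUx ((hco ex).mem_nhds ex1)
    obtain ⟨y₁, y1, y2, y3⟩ :=
      (hMU.and (hx.and (ha.eventually (closedBall_mem_nhds a d1)))).exists
    have h1 : ‖G y - G y₁‖ < 1 := by
      have := norm_sub_le_norm_sub_add_norm_sub (G y) a (G y₁)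
      rw [norm_sub_rev a] at this
      linarith [mem_closedBall_iff_norm.1 y3]
    have h2 : 1 ≤ deg none y := hdeg y hy y₁ y1 h1 none ▸ fb6_pos (hT none) y1 y2
    obtain ⟨w, w1, -⟩ := (hT none).fam y hy _ (mem_ball_self (by linarith [(e none).ρ_pos]))
    obtain ⟨-, -, -, -, -, c6, -⟩ := ex.cbox_cpt
    exact ⟨_, ex3 ⟨_, c6 (w1 ⟨0, h2⟩).1, rfl⟩, (w1 ⟨0, h2⟩).2.1⟩
  · have h3 := t1.eventually (ball_mem_nhds c one_half_pos)
    have h4 := t2.eventually (ball_mem_nhds c one_half_pos)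
    obtain ⟨y₁, y1, y2⟩ := ((show ∀ᶠ y in (U₁ : Filter X), y ∈ M from h1).and h3).exists
    obtain ⟨i, hi⟩ := mem_iUnion.1 (y1.2 y₁ (F.eqv.refl _)).1.1
    have h5 : ∀ y, y ∈ M → G y ∈ ball c (1 / 2) → y ∈ M ∧ deg i y = deg i y₁ := fun y a1 a2 =>
      ⟨a1, hdeg y a1 y₁ y1 (by
        have := norm_sub_le_norm_sub_add_norm_sub (G y) c (G y₁)
        rw [norm_sub_rev c] at this
        linarith [mem_ball_iff_norm.1 a2, mem_ball_iff_norm.1 y2]) i⟩
    obtain ⟨Y, Y1, Y2⟩ := fb6_lim (hT i) U₁ (h3.mp (mem_of_superset h1 h5))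
    obtain ⟨Z, Z1, Z2⟩ := fb6_lim (hT i) U₂ (h4.mp (mem_of_superset h2 h5))
    obtain ⟨j, hj⟩ := bpt7_eq (y := fun k => ((e i).l (Y k)).2) (c := fun k => ((e i).l (Z k)).2)
      (fun α => by
        let k : κ := ⟨i, ⟨_, Nat.lt_succ_of_le (hD i y₁ y1)⟩, α, _, Finset.mem_insert_self _ _⟩
        have a1 := tendsto_pi_nhds.1 t1 (q.symm k)
        have a2 := tendsto_pi_nhds.1 t2 (q.symm k)
        simp only [hq] at a1 a2
        exact (tendsto_nhds_unique (Y2 _ (mo_diff _ α)) a1).trans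
          (tendsto_nhds_unique a2 (Z2 _ (mo_diff _ α)))) ⟨0, fb6_pos (hT i) y1 hi⟩
    refine ⟨_, (Y1 ⟨0, fb6_pos (hT i) y1 hi⟩).1, ?_⟩
    rw [(e i).l.injective (Prod.ext ((Y1 _).2.trans (Z1 j).2.symm) hj)]
    exact (Z1 j).1

end Pool.Agent.BP
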