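import Pool.Agent.K.MP_63735c_ag.C300
import Pool.Agent.K.MP_63735c_ag.C317
import Pool.Agent.K.MP_63735c_ag.C318
import Pool.Agent.K.MP_63735c_ag.C296

-- part Pool.Agent.P.MP_63735c_ag.SF6
section

/-! Coordinates on all the classes close to a limit set in a singular space. -/

open scoped ComplexOrder ContDiff Matrix Topology ENNReal
open Set Metric MeasureTheory Filter

namespace Pool.Agent.ZB

open Pool.Agent.BP Pool.Agent.SPF Pool.Agent.AB Pool.Agent.CK Pool.Agent.SE Pool.Agent.NL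

section

variable {N n : ℕ} {Y Z : Type} [TopologicalSpace Y] [TopologicalSpace Z] [T2Space Z]
  {A : Atlas Y N} {K : Form11 A} {F : Fib A n} {φ : Y → ℝ} {j : Y → Z} {e : Sz A K F.W φ j n}
  {M : Set Y} {deg : Y → ℕ} {Tr : (Y → ℂ) → Y → E n → ℂ}

theorem sf6_bd (h : F.TrS e M deg Tr) {D : ℕ} (α : Fin e.M → Fin D) :
    ∃ B, ∀ x ∈ M, ∀ a ∈ ball e.a (2 * e.ρ), ‖Tr (sbda_mo e α) x a‖ ≤ B := by
  obtain ⟨c1, c2, -, -, -, c6, -⟩ := e.cbox_cpt
  obtain ⟨D, hD⟩ := h.bdd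
  obtain ⟨B, hB⟩ := c1.exists_bound_of_continuousOn
    ((mon_diff α).continuous.comp_continuousOn (e.cont.mono c2))
  refine ⟨D * |B|, fun x hx a ha => ?_⟩
  obtain ⟨y, y1, -, y3⟩ := h.fam x hx a ha
  rw [y3 _ (sbda_hol e α)]
  refine (norm_sum_le_of_le _ (n := fun _ => |B|) fun k _ =>
    (hB _ (c6 (y1 k).1)).trans (le_abs_self _)).trans ?_
  simp only [Finset.sum_const, Finset.card_univ, Fintype.card_fin, nsmul_eq_mul]
  exact mul_le_mul_of_nonneg_right (Nat.cast_le.2 (hD x hx)) (abs_nonneg _)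

omit [T2Space Z] in
theorem sf6_one (h : F.TrS e M deg Tr) {x : Y} (hx : x ∈ M) (α : Fin e.M → Fin (2 * 0 + 1)) :
    Tr (sbda_mo e α) x e.a = deg x := by
  obtain ⟨y, -, -, y3⟩ := h.fam x hx e.a (mem_ball_self (by linarith [e.ρ_pos]))
  rw [y3 _ (sbda_hol e α)]
  simp [mon]

theorem sf6_pos (h : F.TrS e M deg Tr) {x : Y} (hx : x ∈ M) (hc : j x ∈ e.core) : 1 ≤ deg x := by
  obtain ⟨-, -, -, -, -, -, -, c8⟩ := e.cbox_cpt
  obtain ⟨y, -, y2, -⟩ := h.fam _ hx _ (c8 hc).2.1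
  obtain ⟨k, -⟩ := y2 x (c8 hc) (F.eqv.refl _) rfl
  exact k.pos

theorem sf6_lim (h : F.TrS e M deg Tr) (U : Ultrafilter Y) {d : ℕ}
    (hM : ∀ᶠ y in (U : Filter Y), y ∈ M ∧ deg y = d) : ∃ c : Fin d → Z,
      (∀ k, c k ∈ F.LimS j U ∧ c k ∈ e.O) ∧ ∀ (D : ℕ) (α : Fin e.M → Fin D),
        Tendsto (fun y => Tr (sbda_mo e α) y e.a) U (𝓝 (∑ k, mon α (e.z (c k)))) := by
  obtain ⟨c1, c2, -, -, -, c6, -⟩ := e.cbox_cpt
  have ha : e.a ∈ ball e.a (2 * e.ρ) := mem_ball_self (by linarith [e.ρ_pos])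
  have : Nonempty Y := ⟨hM.exists.choose⟩
  choose! w w1 w2 w3 using fun y (hy : y ∈ M ∧ deg y = d) => sbda_fam h hy.1 hy.2 ha
  choose c Y1 Y2 using fun k => c1.ultrafilter_le_nhds (U.map fun y => j (w y k))
    (le_principal_iff.2 (hM.mono fun y hy => c6 (w1 y hy k).1))
  have Y3 : ∀ k, Tendsto (fun y => j (w y k)) U (𝓝 (c k)) := Y2
  refine ⟨c, fun k => ⟨fun O hO => ?_, c2 (Y1 k)⟩, fun D α => ?_⟩
  · filter_upwards [hM, (Y3 k).eventually hO] with y hy h1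
    exact ⟨_, h1, (w1 y hy k).2.1⟩
  · exact (tendsto_finsetSum _ fun k _ => (((mon_diff α).continuous.tendsto _).comp
      (e.cont.continuousAt (e.opn.mem_nhds (c2 (Y1 k))))).comp (Y3 k)).congr'
      (hM.mono fun y hy => (w3 y hy _ (sbda_hol e α)).symm)

end

variable {N n : ℕ} {X : Type} [TopologicalSpace X] [T2Space X] [CompactSpace X] {R : Set X}
  [MeasurableSpace R] [BorelSpace R] {A : Atlas R N} {K : Form11 A} {F : Fib A n} {φ : R → ℝ}
  {μ : Measure R} [IsFiniteMeasure μ] {h : R → Mat n} {c₀ : ℝ}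

theorem exists_locS (hN : N = 2 * n) (hn : 1 ≤ n) (hinj : ∀ i, InjOn (A.p i) (A.C i).W)
    (hμ : IsVolume A μ) (hK : ∀ i, ∀ z ∈ (A.C i).W, (K.h i z).PosDef) (hT : F.Tor μ K h c₀)
    (hl : F.Lift K h) (hE : ∀ y : X, ∃ e : Em A K F.W φ Subtype.val, y ∈ e.O) {x : X}
    (U : Ultrafilter R) (hU : (U : Filter R) ≤ nr R x) (hW : F.W ∈ U) {V₀ B : Set X}
    (hV : IsOpen V₀) (hL : F.LimS Subtype.val U ⊆ V₀) (hB : B ∈ 𝓝 x) :
    Nonempty (LocS F U V₀ B) := by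
  classical
  have hj : Continuous (Subtype.val : R → X) := continuous_subtype_val
  have hP : ∀ e : Em A K F.W φ (Subtype.val : R → X), F.PackS e :=
    fun e => Fib.packS hj hinj hK hT e
  obtain ⟨ex, ex1, ex2, ex3⟩ := Fib.exists_sz' hN hn hP U hW (hE x) hB
  choose e₀ e1 e2 using Fib.exists_sz hN hn hP hE U hW
  have hco : ∀ e : Sz A K F.W φ (Subtype.val : R → X) n, IsOpen e.core :=
    fun e => e.cbox_cpt.2.2.2.2.2.2.1
  have hLc : IsCompact (F.LimS (Subtype.val : R → X) U) := (Fib.limS_closed _).isCompact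
  obtain ⟨t, ht⟩ := hLc.elim_finite_subcover _ (fun y => hco (e₀ y))
    fun y _ => mem_iUnion.2 ⟨y, e1 y⟩
  let ι := Option t
  let e : ι → Sz A K F.W φ (Subtype.val : R → X) n := fun i => i.elim ex fun i => e₀ i
  have e3 : ∀ i, Disjoint (e i).shell (F.LimS Subtype.val U) := by
    rintro (_ | i)
    exacts [ex2, e2 i]
  set O : Set X := ((⋃ i, (e i).core) \ ⋃ i, (e i).shell) ∩ V₀
  have hO : IsOpen O := ((isOpen_iUnion fun i => hco _).sdiff
    (isClosed_iUnion_of_finite fun i => (e i).cbox_cpt.2.2.1.isClosed)).inter hV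
  have hLO : F.LimS Subtype.val U ⊆ O := fun y hy => by
    obtain ⟨i, hi, h1⟩ := mem_iUnion₂.1 (ht hy)
    exact ⟨⟨mem_iUnion.2 ⟨some ⟨i, hi⟩, h1⟩, fun h2 => by
      obtain ⟨k, hk⟩ := mem_iUnion.1 h2
      exact disjoint_left.1 (e3 k) hk hy⟩, hL hy⟩
  set M := {y | y ∈ F.W ∧ ∀ y', F.r y y' → y' ∈ (Subtype.val : R → X) ⁻¹' O}
  have hM : F.Sat M := Fib.sat_of_open (hO.preimage hj)
  have hMU : ∀ᶠ y in (U : Filter R), y ∈ M := (Fib.limS_trap U hO hLO).mp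
    (mem_of_superset hW fun y hy h => ⟨hy, h⟩)
  choose deg Tr hS using fun i => Fib.Ok.exists_trS (e := e i) (M := M)
    ⟨by omega, hj, Subtype.val_injective, hinj, hM,
      fun y hy h => (hy.2 y (F.eqv.refl y)).1.2 (mem_iUnion.2 ⟨i, h⟩)⟩ hμ hT
    (Fib.areaS hj hK hT hl (e i))
  choose D hD using fun i => (hS i).bdd
  obtain ⟨K₂, k1, k2, k3⟩ := exists_compact_between hLc hO hLO
  obtain ⟨K₁, k4, k5, k6⟩ := exists_compact_between hLc isOpen_interior k2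
  choose S δ B₀ s1 s2 s3 s4 using fun i d => sbda_net (hS i) d k4.isClosed k6
  let κ := Σ i : ι, Σ d : Fin (D i + 1),
    (Fin (e i).M → Fin (2 * d + 1)) × (insert (e i).a (S i d) : Finset (E n))
  let G₀ : κ → R → ℂ := fun k y => Tr k.1 (sbda_mo (e k.1) k.2.2.1) y k.2.2.2
  have hb1 : ∀ k : κ, (k.2.2.2 : E n) ∈ ball (e k.1).a (e k.1).ρ := fun k => by
    rcases Finset.mem_insert.1 k.2.2.2.2 with h | h
    exacts [h.symm ▸ mem_ball_self (e k.1).ρ_pos, s2 _ _ _ h]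
  have hb2 : ∀ k : κ, (k.2.2.2 : E n) ∈ ball (e k.1).a (2 * (e k.1).ρ) := fun k =>
    ball_subset_ball (by linarith [(e k.1).ρ_pos]) (hb1 k)
  let q := (Fintype.equivFin κ).symm
  let G : R → E (Fintype.card κ) := fun y m => G₀ (q m) y
  have hq : ∀ y k, G y (q.symm k) = G₀ k y := fun y k => by simp only [G, Equiv.apply_symm_apply]
  have hc : ∀ y y' k, ‖G₀ k y - G₀ k y'‖ ≤ ‖G y - G y'‖ := fun y y' k => by
    rw [← hq, ← hq]
    exact norm_le_pi_norm (G y - G y') (q.symm k)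
  have hdeg : ∀ y ∈ M, ∀ y' ∈ M, ‖G y - G y'‖ < 1 → ∀ i, deg i y = deg i y' :=
    fun y hy y' hy' h i => fb6_nat (by
      rw [← sf6_one (hS i) hy default, ← sf6_one (hS i) hy' default]
      exact (hc y y' ⟨i, 0, default, _, Finset.mem_insert_self _ _⟩).trans_lt h)
  choose C₁ hC₁ using fun k : κ => sf6_bd (hS k.1) k.2.2.1
  choose C₂ hC₂ using fun k : κ => (hS k.1).grad _ (mon_diff k.2.2.1)
  set C := ∑ k, (|C₁ k| + |C₂ k|) + 1 with hC
  have hC0 : 0 ≤ ∑ k, (|C₁ k| + |C₂ k|) := Finset.sum_nonneg fun _ _ => by positivity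
  have hbd : ∀ y ∈ M, ‖G y‖ ≤ C := fun y hy => (pi_norm_le_iff_of_nonneg (by positivity)).2
    fun m => (hC₁ (q m) y hy _ (hb2 _)).trans (by
      have := Finset.single_le_sum (f := fun k => |C₁ k| + |C₂ k|) (fun _ _ => by positivity)
        (Finset.mem_univ (q m))
      linarith [le_abs_self (C₁ (q m)), abs_nonneg (C₂ (q m))])
  obtain ⟨a, ha⟩ := CL.clhol_lim U (hMU.mono hbd)
  obtain ⟨δ₀, d1, d2, d3⟩ : ∃ δ₀ : ℝ, 0 < δ₀ ∧ 2 * δ₀ < 1 ∧
      ∀ i (d : Fin (D i + 1)), 2 * δ₀ ≤ δ i d := by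
    obtain ⟨i, hi⟩ := @Finite.exists_min (Σ i : ι, Fin (D i + 1)) ℝ _ ⟨⟨none, 0⟩⟩ _
      fun i => δ i.1 i.2
    have := s1 i.1 i.2
    exact ⟨min (1 / 4) (δ i.1 i.2 / 2), by positivity, by
      linarith [min_le_left (1 / 4) (δ i.1 i.2 / 2)], fun j d => by
        linarith [min_le_right (1 / 4) (δ i.1 i.2 / 2), hi ⟨j, d⟩]⟩
  have hmem : ∀ y, InS F (interior K₁) y → y ∈ M := fun y hy =>
    ⟨hy.1, fun y' h => k3 (interior_subset (k6 (interior_subset (hy.2 y' h))))⟩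
  have hhol : ∀ k i, DifferentiableOn ℂ (fun z => G₀ k (A.p i z)) (dom A M i) := fun k i =>
    (hS k.1).hol_x _ (sbda_hol (e k.1) k.2.2.1) _ (hb2 k) i
  refine ⟨{
    m := Fintype.card κ
    M := M
    G := G
    V := interior K₁
    a := a
    δ := δ₀
    C := C
    sat := hM
    sub := fun y hy => (hy.2 y (F.eqv.refl y)).2
    δ_pos := d1
    C_pos := by positivity
    G_hol := fun i => differentiableOn_pi.2 fun m => hhol (q m) i
    grad := fun i z hz v => ?_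
    bdd := hbd
    V_open := isOpen_interior
    lim := k5
    mem := hmem
    closed := fun y₁ h1 y hy h => ⟨hy, fun y' hr => k3 (Fib.closed_orb (k1.isClosed.preimage hj) hy
      (closure_mono (fun u hu => And.intro hu.1.1 fun u' hr' => ?_) h) y' hr)⟩
    tend := ha
    pass := fun y hy h => ?_
    cl := fun U₁ U₂ h1 h2 c t1 t2 => ?_ }⟩
  · have h0 : 0 ≤ hr (F.Om i z) v := by
      rw [Fib.Om, hr, hq_conj]
      exact F.om_psd _ hz.2.1 _
    have h1 : ∀ m, DifferentiableAt ℂ (fun y => G₀ (q m) (A.p i y)) z := fun m =>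
      (hhol (q m) i).differentiableAt ((dom_open A hM.opn i).mem_nhds hz)
    have h2 : ∑ m, C₂ (q m) ≤ C := by
      rw [q.sum_comp C₂]
      exact (Finset.sum_le_sum fun k _ => by
        linarith [le_abs_self (C₂ k), abs_nonneg (C₁ k)]).trans (le_add_of_nonneg_right zero_le_one)
    refine le_trans ?_ (mul_le_mul_of_nonneg_right h2 h0)
    rw [Finset.sum_mul, nsq]
    refine Finset.sum_le_sum fun m _ => ?_
    rw [show fderiv ℂ (fun y => G (A.p i y)) z = _ from fderiv_pi h1, ContinuousLinearMap.pi_apply]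
    exact hC₂ (q m) _ (hb1 _) i z hz v
  · obtain ⟨i, hz⟩ := mem_iUnion.1 (hu.1.2 u' hr').1.1
    have h2 := hmem _ h1
    exact s4 i (deg i y₁) u hu.1 (hdeg u hu.1 y₁ h2 (hu.2.trans_lt d2) i) y₁ h2 rfl
      (fun w hw => interior_subset (h1.2 w hw)) (fun α b hb => (hc u y₁
        ⟨i, ⟨_, Nat.lt_succ_of_le (hD i y₁ h2)⟩, α, b, Finset.mem_insert_of_mem hb⟩).trans
          (hu.2.trans (d3 i ⟨_, Nat.lt_succ_of_le (hD i y₁ h2)⟩))) u' hz hr'
  · have hx : ∀ᶠ y : R in (U : Filter R), (y : X) ∈ ex.core :=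
      hU (preimage_mem_comap ((hco ex).mem_nhds ex1))
    obtain ⟨y₁, y1, y2, y3⟩ :=
      (hMU.and (hx.and (ha.eventually (closedBall_mem_nhds a d1)))).exists
    have h1 : ‖G y - G y₁‖ < 1 := by
      have := norm_sub_le_norm_sub_add_norm_sub (G y) a (G y₁)
      rw [norm_sub_rev a] at this
      linarith [mem_closedBall_iff_norm.1 y3]
    have h2 : 1 ≤ deg none y := hdeg y hy y₁ y1 h1 none ▸ sf6_pos (hS none) y1 y2
    obtain ⟨w, w1, -⟩ := (hS none).fam y hy _ (mem_ball_self (by linarith [(e none).ρ_pos]))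
    exact ⟨_, ex3 (w1 ⟨0, h2⟩).1.1, (w1 ⟨0, h2⟩).2.1⟩
  · have h3 := t1.eventually (ball_mem_nhds c one_half_pos)
    have h4 := t2.eventually (ball_mem_nhds c one_half_pos)
    obtain ⟨y₁, y1, y2⟩ := ((show ∀ᶠ y in (U₁ : Filter R), y ∈ M from h1).and h3).exists
    obtain ⟨i, hi⟩ := mem_iUnion.1 (y1.2 y₁ (F.eqv.refl _)).1.1
    have h5 : ∀ y, y ∈ M → G y ∈ ball c (1 / 2) → y ∈ M ∧ deg i y = deg i y₁ := fun y a1 a2 =>
      ⟨a1, hdeg y a1 y₁ y1 (by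
        have := norm_sub_le_norm_sub_add_norm_sub (G y) c (G y₁)
        rw [norm_sub_rev c] at this
        linarith [mem_ball_iff_norm.1 a2, mem_ball_iff_norm.1 y2]) i⟩
    obtain ⟨Y, Y1, Y2⟩ := sf6_lim (hS i) U₁ (h3.mp (mem_of_superset h1 h5))
    obtain ⟨Z, Z1, Z2⟩ := sf6_lim (hS i) U₂ (h4.mp (mem_of_superset h2 h5))
    obtain ⟨k₀, hk₀⟩ := bpt7_eq (y := fun k => (e i).z (Y k)) (c := fun k => (e i).z (Z k))
      (fun α => by
        let k : κ := ⟨i, ⟨_, Nat.lt_succ_of_le (hD i y₁ y1)⟩, α, _, Finset.mem_insert_self _ _⟩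
        have a1 := tendsto_pi_nhds.1 t1 (q.symm k)
        have a2 := tendsto_pi_nhds.1 t2 (q.symm k)
        simp only [hq] at a1 a2
        exact (tendsto_nhds_unique (Y2 _ α) a1).trans (tendsto_nhds_unique a2 (Z2 _ α)))
      ⟨0, sf6_pos (hS i) y1 hi⟩
    refine ⟨_, (Y1 ⟨0, sf6_pos (hS i) y1 hi⟩).1, ?_⟩
    rw [(e i).inj (Y1 _).2 (Z1 k₀).2 hk₀]
    exact (Z1 k₀).1

end Pool.Agent.ZB
end

-- part Pool.Agent.P.MP_63735c_ag.BPDp
section

/-! The packing bound. -/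

open scoped ComplexOrder ContDiff Matrix Topology ENNReal
open Set Metric MeasureTheory Filter

namespace Pool.Agent.BP

open Pool.Agent.SPF Pool.Agent.AB Pool.Agent.CK Pool.Agent.SE Pool.Agent.NL

variable {N n : ℕ} {X : Type} [TopologicalSpace X] [T2Space X] [MeasurableSpace X]
  {A : Atlas X N} {F : Fib A n} {μ : Measure X} {K : Form11 A} {h : X → Mat n} {c₀ : ℝ}

theorem Fib.pack (hinj : ∀ i, InjOn (A.p i) (A.C i).W)
    (hK : ∀ i, ∀ z ∈ (A.C i).W, (K.h i z).PosDef) (hT : F.Tor μ K h c₀) : F.Pack := by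
  intro i C hC hCW
  obtain ⟨R, hR, hRW⟩ := hC.exists_cthickening_subset_open (A.C i).isOpen hCW
  obtain ⟨k, hk, hkK⟩ := cpt_lower (h := K.h i) hC.cthickening
    (fun a b => (K.smooth i a b).continuousOn.mono hRW) fun z hz u hu => hq_pos (hK i z (hRW hz)) hu
  obtain ⟨c, hc, H⟩ := bpdp_low n
  refine ⟨4 ^ n / c * ((N / k) ^ n * max c₀ 0), R, hR, fun x hx ρ hρ hρR S hS hsep => ?_⟩
  obtain ⟨Ψ, κ, hκ, hr', hl, hv⟩ := hT.tor x hx
  have hW : ∀ τ, Ψ τ ∈ F.W := fun τ => by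
    obtain ⟨j, hj⟩ := F.cov x hx
    exact F.U_sub j ((F.rel j x hj _).1 ((hr' _).2 ⟨τ, rfl⟩)).1
  obtain ⟨hΨ, q, hq1, hq2⟩ := bpdp_lift hinj hW hl i
  set O := Ψ ⁻¹' (A.p i '' (A.C i).W) with hO
  have hd : ∀ τ ∈ O, q τ ∈ dom A F.W i := fun τ hτ => ⟨(hq2 τ hτ).1, by
    rw [mem_preimage, (hq2 τ hτ).2.1]
    exact hW τ⟩
  have hb : ∀ z ∈ C, ∀ w, nsq (w - z) ≤ R ^ 2 → w ∈ cthickening R C := fun z hz w hw =>
    mem_cthickening_of_dist_le w z R C hz (by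
      rw [dist_eq_norm]
      exact (abs_le_of_sq_le_sq' ((nsq_le _).1.trans hw) hR.le).2)
  have ht : ρ ^ 2 / 4 < R ^ 2 := by nlinarith
  let T : E N → Set (E n) := fun z => {τ | τ ∈ O ∧ nsq (q τ - z) < ρ ^ 2 / 4}
  have low : ∀ z ∈ S, ENNReal.ofReal (c * (ρ ^ 2 / 4) ^ n) ≤
      ∫⁻ τ in T z, ENNReal.ofReal (bpdpD q τ) ∂κ := fun z hz => by
    obtain ⟨hzC, hzr⟩ := hS z hz
    obtain ⟨τ₀, h0⟩ := (hr' _).1 hzr
    have h1 : τ₀ ∈ O := ⟨z, hCW hzC, h0.symm⟩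
    have h2 : q τ₀ = z := hinj i (hq2 τ₀ h1).1 (hCW hzC) ((hq2 τ₀ h1).2.1.trans h0)
    have h3 := H hq1 hκ τ₀ h1 ((injective_iff_map_eq_zero _).2 fun v hv => bpdp_inj (hd τ₀ h1) (by
      rw [← (hq2 τ₀ h1).2.2, bpt2_jac, hv])) (R ^ 2) _ (by positivity) ht
    rw [h2] at h3
    refine h3 ?_
    have k1 : IsCompact {w | nsq (w - z) ≤ R ^ 2} := hC.cthickening.of_isClosed_subset
      (isClosed_le (nsq_smooth.continuous.comp (continuous_sub_right z)) continuous_const) (hb z hzC)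
    have k2 : {w | nsq (w - z) ≤ R ^ 2} ⊆ (A.C i).W := fun w hw => hRW (hb z hzC w hw)
    have k3 := (k1.image_of_continuousOn ((A.cont i).mono k2)).isClosed.preimage hΨ
    refine (congrArg IsClosed (Set.ext fun τ => ?_)).mp k3
    constructor
    · rintro ⟨w, hw, e⟩
      have a1 : τ ∈ O := ⟨w, k2 hw, e⟩
      exact ⟨a1, (hinj i (k2 hw) (hq2 τ a1).1 (e.trans (hq2 τ a1).2.1.symm)) ▸ hw⟩
    · exact fun hτ => ⟨_, hτ.2, (hq2 τ hτ.1).2.1⟩
  have up : ∀ z ∈ S, ∀ τ ∈ T z, bpdpD q τ ≤ (N / k) ^ n * (h (Ψ τ)).det.re := fun z hz τ hτ => by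
    have a1 := hd τ hτ.1
    have a2 := hkK _ (hb z (hS z hz).1 _ (hτ.2.le.trans ht.le))
    have a3 : h (Ψ τ) = (jac q τ)ᵀ * K.h i (q τ) * (jac q τ).map star := by
      rw [← (hq2 τ hτ.1).2.1, hT.h_eq i _ a1, (hq2 τ hτ.1).2.2]
    have a4 : ∀ v, hr ((jac q τ)ᵀ * (jac q τ).map star) v = nsq (jac q τ *ᵥ v) := fun v => by
      have b := lev_nsq (hq1.hol τ hτ.1)
      rw [← b.2.1, b.2.2.2, bpt2_jac]
    refine det_mono ?_ (by positivity) ?_ fun v => ?_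
    · have := Matrix.posSemidef_self_mul_conjTranspose (jac q τ)ᵀ
      exact this
    · rw [a3]
      refine posDef_of_hq (Matrix.isHermitian_mul_mul_conjTranspose (jac q τ)ᵀ
        (hK i _ a1.1).1) fun u hu => ?_
      rw [hq_conj]
      exact hq_pos (hK i _ a1.1) fun e => hu (bpdp_inj a1 ((hq2 τ hτ.1).2.2 ▸ e))
    · rw [a4, a3, hr, hq_conj]
      calc _ ≤ N * ‖jac q τ *ᵥ v‖ ^ 2 := (nsq_le _).2
        _ = N / k * (k * ‖jac q τ *ᵥ v‖ ^ 2) := by field_simp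
        _ ≤ _ := by gcongr; exact a2 _
  have mT : ∀ z, MeasurableSet (T z) := fun z => (hq1.opn' z _).measurableSet
  have dT : (S : Set (E N)).PairwiseDisjoint T := fun z hz y hy hzy =>
    disjoint_left.2 fun τ h1 h2 => by
      have b : ∀ w, τ ∈ T w → dist (q τ) w < ρ / 2 := fun w hw => by
        rw [dist_eq_norm]
        refine lt_of_pow_lt_pow_left₀ 2 (by positivity) ((nsq_le _).1.trans_lt (hw.2.trans_eq ?_))
        ring
      linarith [hsep z hz y hy hzy, dist_triangle_left z y (q τ), b z h1, b y h2]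
  have tot : (S.card : ℝ≥0∞) * ENNReal.ofReal (c * (ρ ^ 2 / 4) ^ n) ≤
      ENNReal.ofReal ((N / k) ^ n * max c₀ 0) :=
    calc _ = ∑ _z ∈ S, ENNReal.ofReal (c * (ρ ^ 2 / 4) ^ n) := by simp
      _ ≤ ∑ z ∈ S, ∫⁻ τ in T z, ENNReal.ofReal ((N / k) ^ n * (h (Ψ τ)).det.re) ∂κ :=
        Finset.sum_le_sum fun z hz => (low z hz).trans (setLIntegral_mono' (mT z) fun τ hτ =>
          ENNReal.ofReal_le_ofReal (up z hz τ hτ))
      _ = ∫⁻ τ in ⋃ z ∈ S, T z, ENNReal.ofReal ((N / k) ^ n * (h (Ψ τ)).det.re) ∂κ :=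
        (lintegral_biUnion_finset dT (fun z _ => mT z) _).symm
      _ ≤ ∫⁻ τ, ENNReal.ofReal ((N / k) ^ n * (h (Ψ τ)).det.re) ∂κ := setLIntegral_le_lintegral _ _
      _ ≤ _ := by
        simp only [ENNReal.ofReal_mul (show (0 : ℝ) ≤ (N / k) ^ n by positivity)]
        rw [lintegral_const_mul' _ _ ENNReal.ofReal_ne_top]
        gcongr
        exact hv.trans (ENNReal.ofReal_le_ofReal (le_max_left _ _))
  rw [← ENNReal.ofReal_natCast, ← ENNReal.ofReal_mul (Nat.cast_nonneg _),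
    ENNReal.ofReal_le_ofReal_iff (by positivity)] at tot
  calc (S.card : ℝ) * ρ ^ (2 * n) = 4 ^ n / c * (S.card * (c * (ρ ^ 2 / 4) ^ n)) := by
        rw [div_pow, pow_mul]
        field_simp
    _ ≤ _ := by gcongr

end Pool.Agent.BP
end
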