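import Pool.Agent.K.MP_63735c_ag.C218

/-! The germ along a filter (objects of the proof). -/

open scoped ComplexOrder ContDiff Matrix Topology ENNReal
open Set Metric MeasureTheory Filter

namespace Pool.Agent.SB

open Pool.Agent.SPF Pool.Agent.CL Pool.Agent.NL Pool.Agent.CK Pool.Agent.AB Pool.Agent.SE
  Pool.Agent.BP

variable {N : ℕ} {X : Type} [TopologicalSpace X] [MeasurableSpace X] {A : Atlas X N}
  {μ : Measure X} {L : Line A} {U : Up A μ L} {x : Filter X}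

/-- Coordinates `F` and a frame `w` near a limit of orbits along the filter `x`. -/
structure UG (U : Up A μ L) (x : Filter X) where
  M : ℕ
  O : Set X
  F : X → E M
  a : E M
  δ : ℝ
  C : ℝ
  w : X → ℂ
  d : ℕ
  c : ℝ
  isOpen : IsOpen O
  sub : O ⊆ U.W
  δ_pos : 0 < δ
  C_pos : 0 < C
  F_hol : ∀ i, DifferentiableOn ℂ (fun z => F (A.p i z)) ((A.C i).W ∩ A.p i ⁻¹' O)
  closed : ∀ y ∈ U.W, y ∉ O → ∀ᶠ y' in 𝓝 y, y' ∈ O → δ < ‖F y' - a‖
  dF : ∀ i, ∀ z ∈ (A.C i).W, A.p i z ∈ O → ∀ v,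
    ‖fderiv ℂ (fun y => F (A.p i y)) z v‖ ^ 2 ≤ C * U.th i z v
  w_hol : ∀ i, DifferentiableOn ℂ (fun z => w (A.p i z)) ((A.C i).W ∩ A.p i ⁻¹' O)
  d_pos : 1 ≤ d
  c_pos : 0 < c
  w_bd : ∀ y ∈ O, c ≤ ‖w y‖ ^ 2 * Real.exp (-(d * U.φ y)) ∧
    ‖w y‖ ^ 2 * Real.exp (-(d * U.φ y)) ≤ C
  near : ∀ ε > 0, ∃ᶠ y in x, y ∈ O ∧ ‖F y - a‖ < ε

namespace UG

variable (H : UG U x)

/-- The scale. -/
noncomputable def τ : ℝ := H.δ ^ 2 / 4

/-- The squared distance to `c`. -/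
noncomputable def t (c : E H.M) (y : X) : ℝ := nsq (H.F y - c)

/-- The truncated logarithmic weight. -/
noncomputable def lam (c : E H.M) (ε : ℝ) : X → ℝ :=
  H.O.indicator fun y => rho (Real.log ((H.t c y + ε) / H.τ))

/-- The total weight. -/
noncomputable def Φ (j k γ : ℕ) (ε : ℝ) (y : X) : ℝ :=
  j * U.φ y + k * U.G y + γ * H.lam H.a ε y + (1 + U.l y)⁻¹

/-- The cut off frame. -/
noncomputable def sR (e : ℕ) (R : ℝ) : X → ℂ :=
  H.O.indicator fun y => ((Real.smoothTransition (R + 1 - U.l2 y) *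
    Real.smoothTransition (2 - 2 * H.t H.a y / H.τ) : ℝ) : ℂ) * H.w y ^ e

theorem τ_pos : 0 < H.τ := by
  have := H.δ_pos
  unfold τ
  positivity

end UG

/-- A function on `O` that vanishes where `F` is far from `a` extends by zero. -/
theorem UG.ind (H : UG U x) {V : Type} [Zero V] {h : X → V}
    (h0 : ∀ y ∈ H.O, H.δ < ‖H.F y - H.a‖ → h y = 0) {i : A.ι} {z : E N} (hz : z ∈ U.D.W i) :
    (A.p i z ∈ H.O ∧ (∀ᶠ y in 𝓝 z, y ∈ (A.C i).W ∧ A.p i y ∈ H.O) ∧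
      (fun y => H.O.indicator h (A.p i y)) =ᶠ[𝓝 z] fun y => h (A.p i y)) ∨
    (A.p i z ∉ H.O ∧ (fun y => H.O.indicator h (A.p i y)) =ᶠ[𝓝 z] fun _ => 0) := by
  have hn := (A.C i).isOpen.mem_nhds hz.1
  have hc : ContinuousAt (A.p i) z := (A.cont i).continuousAt hn
  by_cases hO : A.p i z ∈ H.O
  · have h1 := hc.eventually (H.isOpen.mem_nhds hO)
    exact Or.inl ⟨hO, (Filter.eventually_mem_set.2 hn).and h1,
      h1.mono fun y hy => indicator_of_mem hy _⟩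
  · exact Or.inr ⟨hO, (hc.eventually (H.closed _ hz.2 hO)).mono fun y hy =>
      indicator_apply_eq_zero.2 fun h => h0 _ h (hy h)⟩

/-- Smoothness, gradient and Levi form of the squared distance. -/
theorem UG.t_calc (H : UG U x) (c : E H.M) {i : A.ι} {z : E N} (hz : z ∈ (A.C i).W)
    (hO : A.p i z ∈ H.O) : ContDiffAt ℝ ∞ (fun y => H.t c (A.p i y)) z ∧ ∀ v,
      ‖v ⬝ᵥ dr (fun y => H.t c (A.p i y)) z‖ ^ 2 ≤
        H.t c (A.p i z) * (hq (lev (fun y => H.t c (A.p i y)) z) v v).re ∧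
      0 ≤ (hq (lev (fun y => H.t c (A.p i y)) z) v v).re ∧
      (hq (lev (fun y => H.t c (A.p i y)) z) v v).re ≤ H.M * H.C * U.th i z v := by
  have ho : IsOpen ((A.C i).W ∩ A.p i ⁻¹' H.O) :=
    (A.cont i).isOpen_inter_preimage (A.C i).isOpen H.isOpen
  have hd : ∀ᶠ y in 𝓝 z, DifferentiableAt ℂ (fun y => H.F (A.p i y) - c) y := by
    filter_upwards [ho.mem_nhds ⟨hz, hO⟩] with y hy using
      ((H.F_hol i).differentiableAt (ho.mem_nhds hy)).sub_const c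
  refine ⟨bpe0_nsq.contDiffAt.comp z (smoothAt_of_hol hd), fun v => ?_⟩
  have e1 : (hq (lev (fun y => H.t c (A.p i y)) z) v v).re =
      nsq (fderiv ℂ (fun y => H.F (A.p i y)) z v) := by
    have h1 := lev_comp (f := nsq) bpe0_nsq.contDiffAt hd
    have h2 := Lv_lev isOpen_univ (bpe0_nsq (M := H.M)).contDiffOn
      (mem_univ (H.F (A.p i z) - c)) (fderiv ℂ (fun y => H.F (A.p i y)) z v)
    rw [Lv_nsq] at h2
    unfold UG.t
    rw [h1, hq_conj, jac_mulVec, fderiv_sub_const]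
    linarith
  have e2 : v ⬝ᵥ dr (fun y => H.t c (A.p i y)) z =
      ∑ k, fderiv ℂ (fun y => H.F (A.p i y)) z v k * star ((H.F (A.p i z) - c) k) := by
    have h1 := dr_comp (f := nsq) (bpe0_nsq.differentiable (by simp) _) hd.self_of_nhds
    unfold UG.t
    rw [h1, dotProduct_comm, ← Matrix.dotProduct_mulVec, dotProduct_comm, jac_mulVec,
      fderiv_sub_const, bpe0_dr]
  rw [e1, e2]
  refine ⟨?_, Finset.sum_nonneg fun _ _ => sq_nonneg _, (nsq_le_norm_sq _).trans ?_⟩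
  · refine (pow_le_pow_left₀ (norm_nonneg _) (norm_sum_le _ _) 2).trans ?_
    simp only [norm_mul, norm_star]
    rw [mul_comm]
    exact Finset.sum_mul_sq_le_sq_mul_sq _ _ _
  · rw [mul_assoc]
    exact mul_le_mul_of_nonneg_left (H.dF i z hz hO v) (Nat.cast_nonneg _)

end Pool.Agent.SB
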