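import Pool.Agent.K.MP_63735c_ag.C322
import Pool.Agent.K.MP_63735c_ag.C304
import Pool.Agent.K.MP_63735c_ag.C291
import Pool.Agent.K.MP_63735c_ag.C305
import Pool.Agent.K.MP_63735c_ag.C218
import Pool.Agent.K.MP_63735c_ag.C306

-- part Pool.Agent.P.MP_63735c_ag.SBE1
section

/-! The truncated logarithmic weight. -/

open scoped ComplexOrder ContDiff Matrix Topology ENNReal
open Set Metric MeasureTheory Filter

namespace Pool.Agent.SB

open Pool.Agent.SPF Pool.Agent.CL Pool.Agent.NL Pool.Agent.CK Pool.Agent.AB Pool.Agent.SE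
  Pool.Agent.BP

variable {N : ℕ} {X : Type} [TopologicalSpace X] [MeasurableSpace X] {A : Atlas X N}
  {μ : Measure X} {L : Line A} {U : Up A μ L} {x : Filter X}

theorem UG.lam_bd (H : UG U x) (c : E H.M) (ε : ℝ) (y : X) : H.lam c ε y ≤ 0 ∧
    (y ∈ H.O → H.lam c ε y ≤ Real.log ((H.t c y + ε) / H.τ) + 1) ∧
    (H.lam c ε y < 0 → y ∈ H.O ∧ Real.log ((H.t c y + ε) / H.τ) ≤ H.lam c ε y) := by
  by_cases hy : y ∈ H.O
  · rw [UG.lam, indicator_of_mem hy]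
    exact ⟨(rho_bd _).1, fun _ => (rho_bd _).2.1, fun h => ⟨hy, (rho_bd _).2.2.1 h⟩⟩
  · rw [UG.lam, indicator_of_notMem hy]
    exact ⟨le_rfl, fun h => (hy h).elim, fun h => (lt_irrefl _ h).elim⟩

theorem UG.lam_lev (H : UG U x) : ∃ C₁ : ℝ, 0 ≤ C₁ ∧ ∀ (c : E H.M) (ε : ℝ),
    ‖c - H.a‖ ≤ H.δ / 2 → 0 < ε → U.D.Smo (H.lam c ε) ∧ ∀ i, ∀ z ∈ U.D.W i, ∀ v,
      -(C₁ * U.th i z v) ≤ (hq (lev (fun y => H.lam c ε (A.p i y)) z) v v).re := by
  obtain ⟨D, hD0, hD⟩ := rho_deriv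
  have hτ := H.τ_pos
  have hC := H.C_pos
  refine ⟨D * Real.exp 1 / H.τ * (H.M * H.C), by positivity, fun c ε hc hε => ?_⟩
  have ht0 : ∀ y, 0 ≤ H.t c y := fun y => (sq_nonneg _).trans (norm_sq_le_nsq _)
  have h0 : ∀ y ∈ H.O, H.δ < ‖H.F y - H.a‖ → rho (Real.log ((H.t c y + ε) / H.τ)) = 0 := by
    intro y _ hy
    refine (rho_bd _).2.2.2 (Real.log_nonneg ((one_le_div hτ).2 ?_))
    have h1 : H.δ / 2 ≤ ‖H.F y - c‖ := by
      linarith [norm_sub_le_norm_sub_add_norm_sub (H.F y) c H.a]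
    have h2 : ‖H.F y - c‖ ^ 2 ≤ H.t c y := norm_sq_le_nsq _
    have h3 := H.δ_pos
    unfold UG.τ
    nlinarith
  constructor
  · intro i z hz
    rcases H.ind h0 hz with ⟨h1, -, h2⟩ | ⟨-, h2⟩
    · refine (ContDiffAt.congr_of_eventuallyEq ?_ h2).contDiffWithinAt
      exact rho_smooth.contDiffAt.comp z ((((H.t_calc c hz.1 h1).1.add contDiffAt_const).div_const
        _).log (div_pos (add_pos_of_nonneg_of_pos (ht0 _) hε) hτ).ne')
    · exact (contDiffAt_const.congr_of_eventuallyEq h2).contDiffWithinAt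
  intro i z hz v
  have hth : 0 ≤ U.th i z v := U.G_lev i z hz.1 hz.2 v
  rcases H.ind h0 hz with ⟨h1, -, h2⟩ | ⟨-, h2⟩
  swap
  · rw [UG.lam, (lev_congr h2).self_of_nhds, lev_const, hq_zero, Complex.zero_re]
    exact neg_nonpos.2 (by positivity)
  obtain ⟨t1, t2⟩ := H.t_calc c hz.1 h1
  obtain ⟨t2, t3, t4⟩ := t2 v
  have hp : 0 < H.t c (A.p i z) + ε := add_pos_of_nonneg_of_pos (ht0 _) hε
  have hev : ∀ᶠ t in 𝓝 (H.t c (A.p i z)), 0 < t + ε :=
    (continuous_add_const ε).continuousAt.eventually (eventually_gt_nhds hp)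
  rw [UG.lam, (lev_congr h2).self_of_nhds,
    lev_chain (f := fun y => H.t c (A.p i y)) (hev.mono fun t ht => (bpe1_der hτ ht).1)
      (bpe1_der hτ hp).2 t1]
  obtain ⟨d1, d2, d3⟩ := hD (Real.log ((H.t c (A.p i z) + ε) / H.τ))
  refine le_trans ?_ (bpe1_ineq (B := D * Real.exp 1 / H.τ) hp d1 (sq_nonneg _)
    (t2.trans (mul_le_mul_of_nonneg_right (le_add_of_nonneg_right hε.le) t3))
    (by positivity) ?_)
  · rw [mul_assoc, neg_le_neg_iff]
    exact mul_le_mul_of_nonneg_left t4 (by positivity)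
  rcases lt_or_ge (Real.log ((H.t c (A.p i z) + ε) / H.τ)) (-1) with h | h
  · rw [d3 h]
    exact neg_nonpos.2 (by positivity)
  refine le_trans (neg_le_neg ?_) d2
  rw [Real.le_log_iff_exp_le (div_pos hp hτ), Real.exp_neg,
    inv_le_iff_one_le_mul₀ (Real.exp_pos 1)] at h
  calc D = D * 1 := (mul_one D).symm
    _ ≤ D * ((H.t c (A.p i z) + ε) / H.τ * Real.exp 1) := mul_le_mul_of_nonneg_left h hD0
    _ = _ := by ring

end Pool.Agent.SB
end

-- part Pool.Agent.P.MP_63735c_ag.SBE3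
section

/-! Points near `z₀` where `G` is not too negative lie in the germ. -/

open scoped ComplexOrder ContDiff Matrix Topology ENNReal
open Set Metric MeasureTheory Filter

namespace Pool.Agent.SB

open Pool.Agent.SPF Pool.Agent.NL Pool.Agent.CK Pool.Agent.AB Pool.Agent.SE Pool.Agent.BP

variable {N : ℕ} {X : Type} [TopologicalSpace X] [MeasurableSpace X] {A : Atlas X N}
  {μ : Measure X} {L : Line A} {U : Up A μ L} {x : Filter X}

/-- A small sphere on which the weight is very negative. -/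
theorem sbe3_small (H : UG U x) {i : A.ι} {y : E N} (hy : y ∈ (A.C i).W) (hO : A.p i y ∈ H.O)
    {R d : ℝ} (hR : 0 < R) (hd : 0 < d) : ∃ r, 0 < r ∧ r ≤ d ∧ ∀ w, ‖w - y‖ = r →
      H.lam (H.F (A.p i y)) (r ^ 2) (A.p i w) ≤ Real.log (r / R) := by
  have ho := ((A.cont i).isOpen_inter_preimage (A.C i).isOpen H.isOpen).mem_nhds (mem_inter hy hO)
  obtain ⟨b, hb⟩ := ((H.F_hol i).differentiableAt ho).isBigO_sub.bound
  obtain ⟨r₀, h0, h1⟩ := Metric.eventually_nhds_iff.1 (hb.and ho)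
  have hτ := H.τ_pos
  have hK : 0 < (H.M * b ^ 2 + 1) * Real.exp 1 * R := by positivity
  obtain ⟨r, hr, hrd, hr0, hrτ⟩ : ∃ r, 0 < r ∧ r ≤ d ∧ r < r₀ ∧
      r * ((H.M * b ^ 2 + 1) * Real.exp 1 * R) ≤ H.τ :=
    ⟨min (min d (r₀ / 2)) (H.τ / ((H.M * b ^ 2 + 1) * Real.exp 1 * R)), by positivity,
      (min_le_left _ _).trans (min_le_left _ _),
      ((min_le_left _ _).trans (min_le_right _ _)).trans_lt (half_lt_self h0),
      (le_div_iff₀ hK).1 (min_le_right _ _)⟩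
  refine ⟨r, hr, hrd, fun w hw => ?_⟩
  obtain ⟨h2, h3⟩ := h1 (y := w) (by rw [dist_eq_norm, hw]; exact hr0)
  rw [hw] at h2
  have h4 : H.t (H.F (A.p i y)) (A.p i w) ≤ H.M * (b * r) ^ 2 :=
    (nsq_le_norm_sq _).trans (mul_le_mul_of_nonneg_left
      (pow_le_pow_left₀ (norm_nonneg _) h2 2) (Nat.cast_nonneg _))
  have h5 : 0 ≤ H.t (H.F (A.p i y)) (A.p i w) := bpe3_nonneg _
  have h6 : 0 < (H.t (H.F (A.p i y)) (A.p i w) + r ^ 2) / H.τ := by positivity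
  refine ((H.lam_bd _ _ _).2.1 h3.2).trans ?_
  nth_rewrite 1 [← Real.log_exp 1]
  rw [← Real.log_mul h6.ne' (Real.exp_pos 1).ne']
  refine Real.log_le_log (by positivity) ?_
  rw [div_mul_eq_mul_div, div_le_div_iff₀ hτ hR]
  have h7 : (H.t (H.F (A.p i y)) (A.p i w) + r ^ 2) * (Real.exp 1 * R) ≤
      (H.M * (b * r) ^ 2 + r ^ 2) * (Real.exp 1 * R) :=
    mul_le_mul_of_nonneg_right (by linarith) (by positivity)
  nlinarith [mul_le_mul_of_nonneg_left hrτ hr.le]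

theorem UG.sch_pt (H : UG U x) {i : A.ι} {z₀ : E N} {r₀ : ℝ} (hP : EP L i z₀ r₀)
    (hx : x ≤ map (A.p i) (𝓝[(A.C i).W] z₀)) : ∃ (k : ℕ) (C r₁ : ℝ), 0 < C ∧ 0 < r₁ ∧ ∀ ρ, 0 < ρ → ρ < r₁ →
      ∀ z ∈ ball z₀ (ρ ^ 2), z ∈ U.D.W i → Real.log ρ ≤ k * U.G (A.p i z) →
        A.p i z ∈ H.O ∧ H.t H.a (A.p i z) ≤ C * ρ := by
  obtain ⟨R, rfl⟩ : ∃ R, r₀ = 3 * R := ⟨r₀ / 3, by ring⟩
  have hR : 0 < R := by linarith [hP.pos]
  have hsub : closedBall z₀ (2 * R) ⊆ ball z₀ (3 * R) := closedBall_subset_ball (by linarith)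
  obtain ⟨B, hB, hη⟩ := hP.bds (show 2 * R < 3 * R by linarith)
  obtain ⟨C₁, hC₁, hlev⟩ := H.lam_lev
  obtain ⟨k, hk⟩ := exists_nat_ge C₁
  have hM := U.M_nonneg
  have hτ := H.τ_pos
  have hδ := H.δ_pos
  have hk0 : (0 : ℝ) ≤ k := Nat.cast_nonneg _
  obtain ⟨C', hC'⟩ : ∃ C', C' = (2 * ((k + U.M) * B) + 1) * R ^ 2 + 1 := ⟨_, rfl⟩
  have he : 1 ≤ Real.exp C' := Real.one_le_exp (by rw [hC']; positivity)
  refine ⟨k, 4 * H.τ * Real.exp C' / R + 2, min 1 (R / (2 * Real.exp C')), by positivity,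
    by positivity, fun ρ hρ hρ1 z hzb hzW hG => ?_⟩
  have h1 : ρ < 1 := hρ1.trans_le (min_le_left _ _)
  have h2 : ρ * (2 * Real.exp C') < R :=
    (lt_div_iff₀ (by positivity)).1 (hρ1.trans_le (min_le_right _ _))
  have h3 : 2 * ρ ^ 2 < R := by nlinarith
  have hn : A.p i '' ((A.C i).W ∩ ball z₀ (ρ ^ 2)) ∈ x :=
    hx (image_mem_map (inter_mem_nhdsWithin _ (ball_mem_nhds z₀ (by positivity))))
  obtain ⟨_, ⟨hO, hF⟩, y, ⟨hb, hy⟩, rfl⟩ := ((H.near (min (H.δ / 2) (ρ / (H.M + 1)))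
    (by positivity)).and_eventually hn).exists
  have hca : CL.nsq (H.F (A.p i y) - H.a) ≤ ρ := by
    have h4 : ‖H.F (A.p i y) - H.a‖ * (H.M + 1) ≤ ρ :=
      (le_div_iff₀ (by positivity)).1 (hF.le.trans (min_le_right _ _))
    have h5 := norm_nonneg (H.F (A.p i y) - H.a)
    have h6 : (0 : ℝ) ≤ H.M := Nat.cast_nonneg _
    have h7 : ‖H.F (A.p i y) - H.a‖ ≤ 1 := by nlinarith
    have h8 := nsq_le_norm_sq (H.F (A.p i y) - H.a)
    nlinarith [mul_nonneg h6 h5]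
  have hC : 0 ≤ 4 * H.τ * Real.exp C' / R := by positivity
  by_cases hzy : z = y
  · subst hzy
    exact ⟨hO, hca.trans (by nlinarith)⟩
  have hd : 0 < ‖z - y‖ := norm_pos_iff.2 (sub_ne_zero.2 hzy)
  have hd2 : ‖z - y‖ < 2 * ρ ^ 2 := by
    have := dist_triangle_right z y z₀
    rw [dist_eq_norm] at this
    linarith [mem_ball.1 hzb, mem_ball.1 hy]
  have hin : ∀ w, ‖w - y‖ ≤ R → w ∈ closedBall z₀ (2 * R) := fun w hw => by
    have := dist_triangle w y z₀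
    rw [dist_eq_norm w y] at this
    exact mem_closedBall.2 (by nlinarith [mem_ball.1 hy])
  obtain ⟨r, hr, hrd, hlam⟩ := sbe3_small H hb hO hR hd
  obtain ⟨hsm, hl⟩ := hlev (H.F (A.p i y)) (r ^ 2) (hF.le.trans (min_le_left _ _)) (by positivity)
  have hkG : ∀ w ∈ U.D.W i, k * U.G (A.p i w) ≤ 0 := fun w hw =>
    mul_nonpos_of_nonneg_of_nonpos hk0 (U.G_le _ hw.2)
  have key := sch (Ω := U.D.W i) (U.D.isOpen i)
    (u := fun w => k * U.G (A.p i w) + H.lam (H.F (A.p i y)) (r ^ 2) (A.p i w))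
    (q := fun w => U.ψ (A.p i w)) ((contDiffOn_const.mul (U.G_smo i)).add (hsm i)) (U.ψ_smo i)
    (y := y) (z := z) (R := R) (r := r) (a := (k + U.M) * B) (by positivity) hr hrd
    (by linarith) hzW (fun w hw hwR => ?_) (fun c => ?_)
    fun w hw hwr => (add_le_of_nonpos_left (hkG w hw)).trans (hlam w hwr)
  · have h4 : 0 < 2 * ρ * Real.exp C' / R := by positivity
    have h5 : H.lam (H.F (A.p i y)) (r ^ 2) (A.p i z) ≤
        Real.log (2 * ρ * Real.exp C' / R) := by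
      have h6 : Real.log (‖z - y‖ / R) ≤ Real.log (2 * ρ ^ 2 / R) :=
        Real.log_le_log (by positivity) (by gcongr)
      have h7 : Real.log (2 * ρ * Real.exp C' / R) + Real.log ρ =
          Real.log (2 * ρ ^ 2 / R) + C' := by
        nth_rewrite 2 [← Real.log_exp C']
        rw [← Real.log_mul h4.ne' hρ.ne', ← Real.log_mul (by positivity) (by positivity)]
        congr 1
        ring
      rw [← hC'] at key
      linarith
    have h6 : Real.log (2 * ρ * Real.exp C' / R) < 0 :=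
      Real.log_neg h4 ((div_lt_one hR).2 (by linarith))
    obtain ⟨h7, h8⟩ := (H.lam_bd _ _ _).2.2 (h5.trans_lt h6)
    have h9 : 0 ≤ H.t (H.F (A.p i y)) (A.p i z) := bpe3_nonneg _
    have h10 := (div_le_iff₀ hτ).1 ((Real.log_le_log_iff (by positivity) h4).1 (h8.trans h5))
    have h11 := bpe3_add (H.F (A.p i z) - H.F (A.p i y)) (H.F (A.p i y) - H.a)
    rw [sub_add_sub_cancel] at h11
    have h12 : (4 * H.τ * Real.exp C' / R + 2) * ρ =
        2 * (2 * ρ * Real.exp C' / R * H.τ) + 2 * ρ := by ring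
    refine ⟨h7, ?_⟩
    unfold UG.t at h10 ⊢
    nlinarith [sq_nonneg r]
  · have hw' := (U.D.isOpen i).mem_nhds hw
    have hG' : ContDiffAt ℝ ∞ (fun w => U.G (A.p i w)) w := (U.G_smo i).contDiffAt hw'
    have hL' : ContDiffAt ℝ ∞ (fun w => H.lam (H.F (A.p i y)) (r ^ 2) (A.p i w)) w :=
      (hsm i).contDiffAt hw'
    refine ⟨add_nonpos (hkG w hw) (H.lam_bd _ _ _).1, (U.ψ_le _ hw.2).trans (by norm_num),
      fun v => ?_⟩
    have h4 := (hη w (hin w hwR) hw.1).2.2 v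
    have h5 := hl i w hw v
    have h6 := U.G_lev i w hw.1 hw.2 v
    have h7 := U.ψ_lev i w hw.1 hw.2 v
    have h8 : 0 ≤ B * ‖v‖ ^ 2 := by positivity
    unfold Up.th at h5
    rw [lev_add (contDiffAt_const.mul hG') hL', lev_smul hG', hq_add, hq_smul, Complex.add_re,
      Complex.re_ofReal_mul]
    constructor
    · nlinarith [mul_le_mul_of_nonneg_left h4 hk0, mul_nonneg (sub_nonneg.2 hk) h6,
        mul_nonneg hM h8]
    · nlinarith [mul_le_mul_of_nonneg_left h4 hM, mul_nonneg hk0 h8]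
  · have h6 : {w | w ∈ U.D.W i ∧ ‖w - y‖ ≤ R ∧ c ≤ U.ψ (A.p i w)} =
        closedBall y R ∩ ((A.C i).W ∩ A.p i ⁻¹' {y | y ∈ U.W ∧ c ≤ U.ψ y}) := by
      ext w
      exact ⟨fun hw => ⟨mem_closedBall_iff_norm.2 hw.2.1, hw.1.1, hw.1.2, hw.2.2⟩,
        fun hw => ⟨⟨hw.2.1, hw.2.2.1⟩, mem_closedBall_iff_norm.1 hw.1, hw.2.2.2⟩⟩
    rw [h6]
    exact hP.cpt _ (isCompact_closedBall y R)
      (fun w hw => hsub (hin w (mem_closedBall_iff_norm.1 hw))) _ (U.ψ_cpt c)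

end Pool.Agent.SB
end

-- part Pool.Agent.P.MP_63735c_ag.SBEH
section

/-! Division by a holomorphic function that is not identically zero. -/

open scoped ComplexOrder ContDiff Matrix Topology ENNReal
open Set Metric MeasureTheory Filter

namespace Pool.Agent.SB

open Pool.Agent.SPF Pool.Agent.CL Pool.Agent.NL Pool.Agent.CK Pool.Agent.AB Pool.Agent.SE

variable {N : ℕ} {D : E N → ℂ} {z₀ : E N} {r : ℝ}

/-- The order of vanishing on one line. -/
theorem sbeh_ord (hD : DifferentiableOn ℂ D (ball z₀ r)) (hne : ∃ z ∈ ball z₀ r, D z ≠ 0) :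
    ∃ (v : E N) (m : ℕ) (c t₀ : ℝ), 0 < c ∧ 0 < t₀ ∧
      ∀ t : ℂ, ‖t‖ ≤ t₀ → c * ‖t‖ ^ m ≤ ‖D (z₀ + t • v)‖ := by
  obtain ⟨z, hz, hne⟩ := hne
  obtain ⟨v, rfl⟩ : ∃ v, z = z₀ + v := ⟨z - z₀, by abel⟩
  have hv : ‖v‖ < r := by simpa using hz
  have h0 := norm_nonneg v
  have hr : 0 < ‖v‖ + r := by linarith
  have h1 : 1 < 2 * r / (‖v‖ + r) := (one_lt_div hr).2 (by linarith)
  have hm : MapsTo (fun t : ℂ => z₀ + t • v) (ball 0 (2 * r / (‖v‖ + r))) (ball z₀ r) := by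
    intro t ht
    have h2 : ‖t‖ * (‖v‖ + r) < 2 * r := (lt_div_iff₀ hr).1 (mem_ball_zero_iff.1 ht)
    rw [mem_ball_iff_norm, add_sub_cancel_left, norm_smul]
    nlinarith [norm_nonneg t]
  have hg : AnalyticOnNhd ℂ (fun t : ℂ => D (z₀ + t • v)) (ball 0 (2 * r / (‖v‖ + r))) :=
    (hD.comp (f := fun t : ℂ => z₀ + t • v) (by fun_prop) hm).analyticOnNhd isOpen_ball
  have hb : (0 : ℂ) ∈ ball (0 : ℂ) (2 * r / (‖v‖ + r)) := mem_ball_self (by linarith)
  obtain ⟨m, h, h2, h3, h4⟩ := (hg 0 hb).exists_eventuallyEq_pow_smul_nonzero_iff.2 fun h => by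
    have := hg.eqOn_zero_of_preconnected_of_eventuallyEq_zero (convex_ball _ _).isPreconnected hb h
      (mem_ball_zero_iff.2 (show ‖(1 : ℂ)‖ < _ by rwa [norm_one]))
    exact hne (by simpa using this)
  have hp : 0 < ‖h 0‖ := norm_pos_iff.2 h3
  have h5 : ∀ᶠ t in 𝓝 (0 : ℂ), ‖h 0‖ / 2 < ‖h t‖ :=
    continuousAt_const.eventually_lt h2.continuousAt.norm (half_lt_self hp)
  obtain ⟨t₀, ht₀, h6⟩ := nhds_basis_closedBall.mem_iff.1 (h4.and h5)
  refine ⟨v, m, ‖h 0‖ / 2, t₀, half_pos hp, ht₀, fun t ht => ?_⟩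
  obtain ⟨h7, h8⟩ := h6 (mem_closedBall_zero_iff.2 ht)
  rw [h7, norm_smul, sub_zero, norm_pow, mul_comm]
  exact mul_le_mul_of_nonneg_left h8.le (by positivity)

/-- The mass of `‖D‖` on small balls. -/
theorem sbeh_low (hD : DifferentiableOn ℂ D (ball z₀ r)) (hne : ∃ z ∈ ball z₀ r, D z ≠ 0) :
    ∃ (a : ℕ) (c r₁ : ℝ), 0 < c ∧ 0 < r₁ ∧ ∀ ρ, 0 < ρ → ρ < r₁ →
      ENNReal.ofReal (c * ρ ^ a) ≤ ∫⁻ z in ball z₀ (ρ ^ 2), ENNReal.ofReal ‖D z‖ := by
  have hr : 0 < r := nonempty_ball.1 ⟨_, hne.choose_spec.1⟩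
  obtain ⟨v, m, c, t₀, hc, ht₀, h⟩ := sbeh_ord hD hne
  have h1 : ContDiffAt ℝ 1 D z₀ := (smoothAt_of_hol' (mem_of_superset (ball_mem_nhds z₀ hr)
    fun y hy => hD.differentiableAt (isOpen_ball.mem_nhds hy))).of_le (by simp)
  obtain ⟨K, T, hT, hK⟩ := h1.exists_lipschitzOnWith
  obtain ⟨r₂, hr₂, h2⟩ := Metric.mem_nhds_iff.1 hT
  have hK0 : (0 : ℝ) ≤ K := K.2
  obtain ⟨κ, hκ, hκ1, hκ2⟩ : ∃ κ : ℝ, 0 < κ ∧ κ ≤ 1 ∧ κ * ‖v‖ ≤ 1 / 2 := by
    have := norm_nonneg v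
    refine ⟨1 / (2 * (‖v‖ + 1)), by positivity, (div_le_one (by positivity)).2 (by linarith), ?_⟩
    rw [div_mul_eq_mul_div, div_le_div_iff₀ (by positivity) (by positivity)]
    linarith
  obtain ⟨e, he, he1, he2⟩ : ∃ e : ℝ, 0 < e ∧ e ≤ 1 / 2 ∧ K * e ≤ c * κ ^ m / 2 := by
    refine ⟨min (1 / 2) (c * κ ^ m / 2 / (K + 1)), by positivity, min_le_left _ _, ?_⟩
    have h3 := (le_div_iff₀ (by positivity)).1
      (min_le_right (1 / 2 : ℝ) (c * κ ^ m / 2 / (K + 1)))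
    have h4 : 0 < min (1 / 2 : ℝ) (c * κ ^ m / 2 / (K + 1)) := by positivity
    nlinarith
  have hV : 0 < (volume (ball (0 : E N) 1)).toReal :=
    ENNReal.toReal_pos (measure_ball_pos _ _ one_pos).ne' measure_ball_lt_top.ne
  refine ⟨2 * m + (2 * m + 2) * (N * 2),
    c * κ ^ m / 2 * (e ^ (N * 2) * (volume (ball (0 : E N) 1)).toReal), min 1 (min t₀ r₂),
    by positivity, by positivity, fun ρ hρ hρ1 => ?_⟩
  have a1 : ρ < 1 := hρ1.trans_le (min_le_left _ _)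
  have a2 : ρ < t₀ := hρ1.trans_le ((min_le_right _ _).trans (min_le_left _ _))
  have a3 : ρ < r₂ := hρ1.trans_le ((min_le_right _ _).trans (min_le_right _ _))
  have a4 : ρ ^ 2 ≤ ρ := by nlinarith
  have a5 : 0 < ρ ^ 2 := by positivity
  have a6 : ρ ^ (2 * m) ≤ 1 := pow_le_one₀ hρ.le a1.le
  have a7 : 0 < ρ ^ (2 * m) := by positivity
  have n1 : ‖((κ * ρ ^ 2 : ℝ) : ℂ)‖ = κ * ρ ^ 2 := by
    rw [Complex.norm_real, Real.norm_of_nonneg (by positivity)]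
  have b1 := h ((κ * ρ ^ 2 : ℝ) : ℂ) (by rw [n1]; nlinarith)
  rw [n1, mul_pow, ← pow_mul] at b1
  obtain ⟨y, hy⟩ : ∃ y, y = z₀ + ((κ * ρ ^ 2 : ℝ) : ℂ) • v := ⟨_, rfl⟩
  rw [← hy] at b1
  have b2 : dist y z₀ ≤ ρ ^ 2 / 2 := by
    rw [hy, dist_eq_norm, add_sub_cancel_left, norm_smul, n1]
    nlinarith
  have s1 : e * ρ ^ (2 * m + 2) ≤ ρ ^ 2 / 2 := by
    rw [pow_add]
    nlinarith [mul_le_mul he1 a6 a7.le (by norm_num)]
  have s0 : 0 < e * ρ ^ (2 * m + 2) := by positivity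
  have b3 : ball y (e * ρ ^ (2 * m + 2)) ⊆ ball z₀ (ρ ^ 2) := ball_subset_ball' (by linarith)
  have b4 : ball z₀ (ρ ^ 2) ⊆ T := (ball_subset_ball (by linarith)).trans h2
  have b5 : ∀ z ∈ ball y (e * ρ ^ (2 * m + 2)),
      ENNReal.ofReal (c * κ ^ m / 2 * ρ ^ (2 * m)) ≤ ENNReal.ofReal ‖D z‖ := by
    intro z hz
    refine ENNReal.ofReal_le_ofReal ?_
    have c1 := hK.dist_le_mul y (b4 (b3 (mem_ball_self s0))) z (b4 (b3 hz))
    have c2 : dist y z ≤ e * ρ ^ (2 * m) := by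
      refine (mem_ball'.1 hz).le.trans (mul_le_mul_of_nonneg_left ?_ he.le)
      rw [pow_add]
      nlinarith
    have c3 := norm_sub_norm_le (D y) (D z)
    rw [← dist_eq_norm] at c3
    have c4 := mul_le_mul_of_nonneg_left c2 hK0
    have c5 := mul_le_mul_of_nonneg_right he2 a7.le
    nlinarith
  refine le_trans ?_ ((setLIntegral_mono' measurableSet_ball b5).trans (lintegral_mono_set b3))
  have hf : Module.finrank ℝ (E N) = N * 2 := by simp [Module.finrank_pi_fintype]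
  rw [setLIntegral_const, Measure.addHaar_ball_of_pos _ _ s0, hf,
    ← ENNReal.ofReal_toReal (measure_ball_lt_top (x := (0 : E N)) (r := 1)).ne,
    ← ENNReal.ofReal_mul (by positivity), ← ENNReal.ofReal_mul (by positivity),
    ENNReal.toReal_ofReal hV.le]
  refine ENNReal.ofReal_le_ofReal (le_of_eq ?_)
  rw [mul_pow e, ← pow_mul, pow_add]
  ring

/-- A Lipschitz bound from an integral with the weight `‖D‖`. -/
theorem sbeh_div (hD : DifferentiableOn ℂ D (ball z₀ r)) (hne : ∃ z ∈ ball z₀ r, D z ≠ 0) :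
    ∃ a r' : ℝ, 0 < a ∧ 0 < r' ∧ ∀ (f : E N → ℂ) (b : ℝ), 0 ≤ b →
      DifferentiableOn ℂ f (ball z₀ r) →
      ∫⁻ y in ball z₀ r, ENNReal.ofReal (‖f y‖ ^ 2 * ‖D y‖) ≤ ENNReal.ofReal (b ^ 2) →
        f z₀ = 0 → ∀ z ∈ ball z₀ r', ‖f z‖ ≤ a * b * ‖z - z₀‖ := by
  have hr : 0 < r := nonempty_ball.1 ⟨_, hne.choose_spec.1⟩
  obtain ⟨v, m, c, t₀, hc, ht₀, h⟩ := sbeh_ord hD hne
  have hs : closedBall z₀ (r / 2) ⊆ ball z₀ r := closedBall_subset_ball (half_lt_self hr)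
  have hDc := hD.continuousOn.mono hs
  obtain ⟨B, hB⟩ := (isCompact_closedBall z₀ (r / 2)).exists_bound_of_continuousOn hDc
  have hB0 : 0 ≤ B := (norm_nonneg _).trans (hB z₀ (mem_closedBall_self (by positivity)))
  obtain ⟨a, ha, hA⟩ := hol_l2 N (show 0 < r / 4 by positivity)
  obtain ⟨t, ht, ht1, ht2⟩ : ∃ t : ℝ, 0 < t ∧ t ≤ t₀ ∧ t * ‖v‖ ≤ r / 8 := by
    have := norm_nonneg v
    have h1 := (le_div_iff₀ (by positivity)).1 (min_le_right t₀ (r / 8 / (‖v‖ + 1)))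
    have h2 : 0 < min t₀ (r / 8 / (‖v‖ + 1)) := by positivity
    exact ⟨_, h2, min_le_left _ _, by nlinarith⟩
  have hc1 : 0 < c * t ^ m / 2 := by positivity
  obtain ⟨δ, hδ, hu⟩ := Metric.uniformContinuousOn_iff.1
    ((isCompact_closedBall z₀ (r / 2)).uniformContinuousOn_of_continuous hDc) _ hc1
  have hr' : 0 < min δ (r / 8) := by positivity
  refine ⟨a * (B + 1) / (c * t ^ m / 2) / min δ (r / 8), min δ (r / 8), by positivity, hr',
    fun f b hb hf hi h0 z hz => ?_⟩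
  have k1 : ∀ w ∈ ball z₀ (r / 4), ‖f w * D w‖ ≤ a * ((B + 1) * b) := by
    intro w hw
    have s1 : ball w (r / 4) ⊆ closedBall z₀ (r / 2) :=
      (ball_subset_ball' (by linarith [mem_ball.1 hw])).trans ball_subset_closedBall
    have d1 : DifferentiableOn ℂ (fun y => f y * D y) (ball w (r / 4)) :=
      (hf.fun_mul hD).mono (s1.trans hs)
    have hm : AEStronglyMeasurable (fun y => ‖f y * D y‖ ^ 2) (volume.restrict (ball w (r / 4))) :=
      (d1.continuousOn.norm.pow 2).aestronglyMeasurable measurableSet_ball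
    have hn : 0 ≤ᵐ[volume.restrict (ball w (r / 4))] fun y => ‖f y * D y‖ ^ 2 :=
      Eventually.of_forall fun _ => sq_nonneg _
    have h1 : ∫⁻ y in ball w (r / 4), ENNReal.ofReal (‖f y * D y‖ ^ 2) ≤
        ENNReal.ofReal (((B + 1) * b) ^ 2) := by
      calc _ ≤ ∫⁻ y in ball w (r / 4), ENNReal.ofReal B * ENNReal.ofReal (‖f y‖ ^ 2 * ‖D y‖) := by
            refine setLIntegral_mono' measurableSet_ball fun y hy => ?_
            rw [← ENNReal.ofReal_mul hB0, norm_mul]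
            refine ENNReal.ofReal_le_ofReal ?_
            nlinarith [mul_le_mul_of_nonneg_left (hB y (s1 hy))
              (mul_nonneg (sq_nonneg ‖f y‖) (norm_nonneg (D y)))]
        _ ≤ ENNReal.ofReal B * ENNReal.ofReal (b ^ 2) := by
            rw [lintegral_const_mul' _ _ ENNReal.ofReal_ne_top]
            exact mul_le_mul_right ((lintegral_mono_set (s1.trans hs)).trans hi) _
        _ ≤ _ := by
            rw [← ENNReal.ofReal_mul hB0]
            exact ENNReal.ofReal_le_ofReal (by nlinarith [sq_nonneg b, sq_nonneg (B * b)])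
    refine (hA _ w _ (by positivity) d1 ⟨hm, (hasFiniteIntegral_iff_ofReal hn).2
      (h1.trans_lt ENNReal.ofReal_lt_top)⟩ ?_).1
    rw [integral_eq_lintegral_of_nonneg_ae hn hm]
    exact ENNReal.toReal_le_of_le_ofReal (sq_nonneg _) h1
  have k2 : ∀ w ∈ ball z₀ (min δ (r / 8)), ‖f w‖ ≤ a * (B + 1) / (c * t ^ m / 2) * b := by
    intro w hw
    have w1 : dist w z₀ < δ := (mem_ball.1 hw).trans_le (min_le_left _ _)
    have w2 : dist w z₀ < r / 8 := (mem_ball.1 hw).trans_le (min_le_right _ _)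
    have w3 : ∀ (y : E N) (s : ℂ), dist y z₀ < r / 8 → ‖s‖ ≤ t → y + s • v ∈ ball z₀ (r / 4) := by
      intro y s hy hs'
      have e1 := dist_triangle (y + s • v) y z₀
      rw [dist_self_add_left, norm_smul] at e1
      have e2 := mul_le_mul_of_nonneg_right hs' (norm_nonneg v)
      exact mem_ball.2 (by linarith)
    have w4 : ball z₀ (r / 4) ⊆ closedBall z₀ (r / 2) :=
      ball_subset_closedBall.trans (closedBall_subset_closedBall (by linarith))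
    have d1 : DifferentiableOn ℂ (fun s : ℂ => f (w + s • v)) (closedBall 0 t) :=
      hf.comp (f := fun s : ℂ => w + s • v) (by fun_prop) fun s hs' =>
        hs (w4 (w3 w s w2 (mem_closedBall_zero_iff.1 hs')))
    have d2 := Complex.norm_le_of_forall_mem_frontier_norm_le (isBounded_ball (x := (0 : ℂ)) (r := t))
      (DiffContOnCl.mk_ball (d1.mono ball_subset_closedBall) d1.continuousOn)
      (C := a * (B + 1) / (c * t ^ m / 2) * b) (fun s hs' => ?_)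
      (subset_closure (mem_ball_self ht))
    · simpa using d2
    rw [frontier_ball _ ht.ne', mem_sphere_zero_iff_norm] at hs'
    have e1 := h s (hs'.le.trans ht1)
    have e2 := w3 w s w2 hs'.le
    have e3 := hu _ (w4 (w3 z₀ s (by simpa using hr) hs'.le)) _ (w4 e2)
      (by rwa [dist_add_right, dist_comm])
    have e4 := norm_sub_norm_le (D (z₀ + s • v)) (D (w + s • v))
    rw [← dist_eq_norm] at e4
    rw [hs'] at e1
    have e5 := k1 _ e2
    rw [norm_mul] at e5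
    rw [div_mul_eq_mul_div, le_div_iff₀ hc1]
    nlinarith [mul_le_mul_of_nonneg_left (show c * t ^ m / 2 ≤ ‖D (w + s • v)‖ by linarith)
      (norm_nonneg (f (w + s • v)))]
  have k3 := Complex.dist_le_div_mul_dist_of_mapsTo_ball (hf.mono (ball_subset_ball
    ((min_le_right δ (r / 8)).trans (by linarith)))) (fun w hw => by
      rw [h0, mem_closedBall_zero_iff]
      exact k2 w hw) hz
  rw [h0, dist_zero_right, dist_eq_norm] at k3
  exact k3.trans_eq (by ring)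

end Pool.Agent.SB
end

-- part Pool.Agent.P.MP_63735c_ag.SBE4
section

/-! Most of the mass of a small ball has `G` and `ψ` not too negative. -/

open scoped ComplexOrder ContDiff Matrix Topology ENNReal
open Set Metric MeasureTheory Filter

namespace Pool.Agent.SB

open Pool.Agent.SPF Pool.Agent.NL Pool.Agent.CK Pool.Agent.AB Pool.Agent.SE Pool.Agent.BP

variable {N : ℕ} {X : Type} [TopologicalSpace X] [MeasurableSpace X] {A : Atlas X N}
  {μ : Measure X} {L : Line A}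

theorem EP.vol_big [BorelSpace X] {i : A.ι} {z₀ : E N} {r : ℝ} (hP : EP L i z₀ r) (U : Up A μ L)
    (hμ : IsVolume A μ) (k : ℕ) : ∃ (a : ℕ) (c r₁ : ℝ), 0 < c ∧ 0 < r₁ ∧ ∀ ρ, 0 < ρ → ρ < r₁ →
      ∃ (S : Set (E N)) (b : ℝ), MeasurableSet S ∧
        ENNReal.ofReal (c * ρ ^ a) ≤ ∫⁻ z in S, ENNReal.ofReal ‖((A.C i).σ z).det‖ ∧
          ∀ z ∈ S, z ∈ ball z₀ (ρ ^ 2) ∧ z ∈ U.D.W i ∧ Real.log ρ ≤ k * U.G (A.p i z) ∧
            b ≤ U.ψ (A.p i z) := by
  have hr := hP.pos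
  obtain ⟨ψ', hp⟩ := hP.up U hμ (half_pos hr) (half_lt_self hr)
  obtain ⟨R, hR, hRr, hnull⟩ : ∃ R, 0 < R ∧ R ≤ r ∧ volume (ball z₀ R \ U.D.W i) = 0 :=
    ⟨r / 2 / 16, by positivity, by linarith,
      measure_mono_null (fun z hz => by exact ⟨hz.1, fun h => hz.2 h.2⟩) hp.null⟩
  obtain ⟨D, hD, hne, hDe⟩ := hP.det_ne hR hRr
  obtain ⟨a, c₀, r₀, hc₀, hr₀, hv⟩ := sbeh_low hD hne
  obtain ⟨ν, hν⟩ : ∃ ν : Measure (E N), ν = volume.withDensity fun z => ENNReal.ofReal ‖D z‖ :=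
    ⟨_, rfl⟩
  have hνS : ∀ S, MeasurableSet S → S ⊆ ball z₀ R ∩ (A.C i).W →
      ν S = ∫⁻ z in S, ENNReal.ofReal ‖((A.C i).σ z).det‖ := fun S hS h => by
    rw [hν, withDensity_apply _ hS]
    exact setLIntegral_congr_fun hS fun z hz => by simp only [hDe z (h hz)]
  have hν0 : ν (ball z₀ R \ U.D.W i) = 0 := hν ▸ withDensity_absolutelyContinuous _ _ hnull
  have hI := U.G_int ((a + 1) * k)
  obtain ⟨I, hI0, hIe⟩ : ∃ I : ℝ, 0 ≤ I ∧ ∫⁻ y in U.W, ENNReal.ofReal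
      (Real.exp (-((((a + 1) * k : ℕ) : ℝ) * U.G y))) ∂μ = ENNReal.ofReal I :=
    ⟨_, integral_nonneg fun y => (Real.exp_pos _).le, (ofReal_integral_eq_lintegral_ofReal hI
      (Eventually.of_forall fun y => (Real.exp_pos _).le)).symm⟩
  refine ⟨a, c₀ / 2, min (min 1 R) (min r₀ (c₀ / (4 * (I + 1)))), by positivity, by positivity,
    fun ρ hρ hρ1 => ?_⟩
  have a1 : ρ < 1 := hρ1.trans_le ((min_le_left _ _).trans (min_le_left _ _))
  have a2 : ρ < R := hρ1.trans_le ((min_le_left _ _).trans (min_le_right _ _))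
  have a3 : ρ * (4 * (I + 1)) < c₀ :=
    (lt_div_iff₀ (by positivity)).1 (hρ1.trans_le ((min_le_right _ _).trans (min_le_right _ _)))
  have a4 : ρ < r₀ := hρ1.trans_le ((min_le_right _ _).trans (min_le_left _ _))
  have hsub : ball z₀ (ρ ^ 2) ⊆ ball z₀ R := ball_subset_ball (by nlinarith)
  have hO : IsOpen (ball z₀ (ρ ^ 2) ∩ U.D.W i) := isOpen_ball.inter (U.D.isOpen i)
  have cG : ContinuousOn (fun z => (k : ℝ) * U.G (A.p i z)) (ball z₀ (ρ ^ 2) ∩ U.D.W i) :=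
    continuousOn_const.mul ((U.G_smo i).continuousOn.mono inter_subset_right)
  have cψ : ContinuousOn (fun z => U.ψ (A.p i z)) (ball z₀ (ρ ^ 2) ∩ U.D.W i) :=
    (U.ψ_smo i).continuousOn.mono inter_subset_right
  set O := ball z₀ (ρ ^ 2) ∩ U.D.W i with hOe
  have hOs : O ⊆ ball z₀ R ∩ (A.C i).W := fun z hz => ⟨hsub hz.1, hz.2.1⟩
  have mB : MeasurableSet (O ∩ {z | (k : ℝ) * U.G (A.p i z) < Real.log ρ}) :=
    (cG.isOpen_inter_preimage hO isOpen_Iio).measurableSet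
  have hP : 0 < ρ ^ a := by positivity
  have hB : ν (O ∩ {z | (k : ℝ) * U.G (A.p i z) < Real.log ρ}) ≤
      ENNReal.ofReal (c₀ / 4 * ρ ^ a) := by
    have h1 : ν (O ∩ {z | (k : ℝ) * U.G (A.p i z) < Real.log ρ}) ≤
        ENNReal.ofReal (ρ ^ (a + 1)) * ENNReal.ofReal I := by
      rw [hνS _ mB (inter_subset_left.trans hOs), ← hIe,
        ← lintegral_const_mul' _ _ ENNReal.ofReal_ne_top]
      refine le_trans ?_ (lintegral_mono_set
        (s := A.p i '' (O ∩ {z | (k : ℝ) * U.G (A.p i z) < Real.log ρ}))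
        (by rintro _ ⟨z, hz', rfl⟩; exact hz'.1.2.2))
      rw [vol_lint U.hinj hμ mB fun z hz' => hz'.1.2.1]
      refine setLIntegral_mono' mB fun z hz' => ?_
      rw [← ENNReal.ofReal_mul (by positivity), ← ENNReal.ofReal_mul (by positivity)]
      refine ENNReal.ofReal_le_ofReal (le_mul_of_one_le_right (norm_nonneg _) ?_)
      have h2 : (k : ℝ) * U.G (A.p i z) < Real.log ρ := hz'.2
      rw [← Real.exp_log (pow_pos hρ (a + 1)), ← Real.exp_add, Real.log_pow]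
      refine Real.one_le_exp ?_
      have h3 : (0 : ℝ) ≤ ((a + 1 : ℕ) : ℝ) := Nat.cast_nonneg _
      rw [Nat.cast_mul]
      nlinarith [mul_nonneg h3 (sub_pos.2 h2).le]
    refine h1.trans ?_
    rw [← ENNReal.ofReal_mul (by positivity)]
    refine ENNReal.ofReal_le_ofReal ?_
    rw [pow_succ]
    nlinarith [mul_le_mul_of_nonneg_left (show ρ * I ≤ c₀ / 4 by nlinarith) hP.le]
  have hS : ENNReal.ofReal (c₀ / 2 * ρ ^ a) <
      ν (⋃ n : ℕ, (O ∩ {z | Real.log ρ ≤ k * U.G (A.p i z)}) ∩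
        (O ∩ {z | -(n : ℝ) ≤ U.ψ (A.p i z)})) := by
    by_contra h0
    have h1 : ball z₀ (ρ ^ 2) ⊆ ((ball z₀ R \ U.D.W i) ∪
        (O ∩ {z | (k : ℝ) * U.G (A.p i z) < Real.log ρ})) ∪
        ⋃ n : ℕ, (O ∩ {z | Real.log ρ ≤ k * U.G (A.p i z)}) ∩
          (O ∩ {z | -(n : ℝ) ≤ U.ψ (A.p i z)}) := by
      intro z hz'
      by_cases h2 : z ∈ U.D.W i
      · have h3 : z ∈ O := ⟨hz', h2⟩
        rcases lt_or_ge ((k : ℝ) * U.G (A.p i z)) (Real.log ρ) with h4 | h4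
        · exact Or.inl (Or.inr ⟨h3, h4⟩)
        · obtain ⟨n, hn⟩ := exists_nat_ge (-U.ψ (A.p i z))
          exact Or.inr (mem_iUnion.2 ⟨n, ⟨h3, h4⟩, h3, neg_le.1 hn⟩)
      · exact Or.inl (Or.inl ⟨hsub hz', h2⟩)
    have h2 := (measure_mono (μ := ν) h1).trans ((measure_union_le _ _).trans
      (add_le_add ((measure_union_le _ _).trans (add_le_add hν0.le hB)) (not_lt.1 h0)))
    have h3 : ENNReal.ofReal (c₀ * ρ ^ a) ≤ ν (ball z₀ (ρ ^ 2)) := by
      rw [hν, withDensity_apply _ measurableSet_ball]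
      exact hv ρ hρ a4
    have h4 := h3.trans h2
    rw [zero_add, ← ENNReal.ofReal_add (by positivity) (by positivity),
      ENNReal.ofReal_le_ofReal_iff (by positivity)] at h4
    nlinarith [mul_pos hc₀ hP]
  have hm : Monotone fun n : ℕ => (O ∩ {z | Real.log ρ ≤ k * U.G (A.p i z)}) ∩
      (O ∩ {z | -(n : ℝ) ≤ U.ψ (A.p i z)}) := fun n m hnm z hz' =>
    ⟨hz'.1, hz'.2.1, le_trans (b := -(n : ℝ)) (neg_le_neg (Nat.cast_le.2 hnm)) hz'.2.2⟩
  rw [hm.measure_iUnion] at hS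
  obtain ⟨n, hn⟩ := lt_iSup_iff.1 hS
  have mS := (bpe4_meas hO cG (Real.log ρ)).inter (bpe4_meas hO cψ (-(n : ℝ)))
  exact ⟨_, -(n : ℝ), mS, hn.le.trans_eq (hνS _ mS fun z hz' => hOs hz'.1.1),
    fun z hz' => ⟨hz'.1.1.1, hz'.1.1.2, hz'.1.2, hz'.2.2⟩⟩

end Pool.Agent.SB
end
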