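import Pool.Agent.K.MP_63735c_ag.C325

/-! The output of part E. -/

open scoped ComplexOrder ContDiff Matrix Topology ENNReal
open Set Metric MeasureTheory Filter

namespace Pool.Agent.SB

open Pool.Agent.SPF Pool.Agent.NL Pool.Agent.CK Pool.Agent.AB Pool.Agent.SE Pool.Agent.BP
  Pool.Agent.CS

variable {N : ℕ} {X : Type} [TopologicalSpace X] {A : Atlas X N} {L : Line A}

theorem sec_pow {j : ℕ} {s : A.ι → E N → ℂ} (h : L.IsSection j s) (e : ℕ) :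
    L.IsSection (j * e) fun i w => s i w ^ e := by
  refine ⟨fun i => (h.1 i).pow _, fun i k w hw y hy he => ?_⟩
  beta_reduce
  rw [h.2 i k w hw y hy he, mul_pow, ← pow_mul]

/-- One power of `L` and one lower bound. -/
theorem Cov.unif (hC : Cov L) (h : ∀ i z₀ r, EP L i z₀ r →
    ∃ (j : ℕ) (S : A.ι → E N → ℂ) (c ε : ℝ), 1 ≤ j ∧ L.IsSection j S ∧ 0 < c ∧ 0 < ε ∧
      ∀ z ∈ ball z₀ ε ∩ (A.C i).W, c ≤ ‖S i z‖ ^ 2 * Real.exp (-(j * L.ψ i z))) :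
    ∃ j : ℕ, 1 ≤ j ∧ ∃ (r : ℕ) (s : Fin r → A.ι → E N → ℂ), (∀ l, L.IsSection j (s l)) ∧
      ∃ c : ℝ, 0 < c ∧ ∀ i, ∀ z ∈ (A.C i).W,
        c ≤ ∑ l, ‖s l i z‖ ^ 2 * Real.exp (-(j * L.ψ i z)) := by
  have h' : ∀ q : A.ι × E N, ∃ (j : ℕ) (S : A.ι → E N → ℂ) (c ε : ℝ), 1 ≤ j ∧ L.IsSection j S ∧
      0 < c ∧ 0 < ε ∧ ((∃ r, EP L q.1 q.2 r) → ∀ z ∈ ball q.2 ε ∩ (A.C q.1).W,
        c ≤ ‖S q.1 z‖ ^ 2 * Real.exp (-(j * L.ψ q.1 z))) := by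
    intro q
    by_cases hq : ∃ r, EP L q.1 q.2 r
    · obtain ⟨j, S, c, ε, h1, h2, h3, h4, h5⟩ := h _ _ _ hq.choose_spec
      exact ⟨j, S, c, ε, h1, h2, h3, h4, fun _ => h5⟩
    · exact ⟨1, fun _ _ => 0, 1, 1, le_rfl, ⟨fun _ => differentiableOn_const _,
        fun _ _ _ _ _ _ _ => (mul_zero _).symm⟩, one_pos, one_pos, fun h => (hq h).elim⟩
  choose j s c ε hj hs hc hε hb using h'
  obtain ⟨t, ht, hcov⟩ := hC (fun i z => ε (i, z)) fun i z => hε (i, z)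
  obtain ⟨J, hJ⟩ : ∃ J, J = ∏ q ∈ t, j q := ⟨_, rfl⟩
  have hd : ∀ q ∈ t, j q * (J / j q) = J := fun q hq =>
    Nat.mul_div_cancel' (hJ ▸ Finset.dvd_prod_of_mem j hq)
  obtain ⟨c₀, h0, hc₀⟩ := (((eventually_all_finset t).2 fun q _ => nhdsWithin_le_nhds
    (eventually_le_nhds (pow_pos (hc q) (J / j q)))).and (self_mem_nhdsWithin (s := Ioi 0))).exists
  refine ⟨J, hJ ▸ Finset.one_le_prod' fun q _ => hj q, t.card,
    fun l i w => s (t.equivFin.symm l) i w ^ (J / j (t.equivFin.symm l)),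
    fun l => ?_, c₀, hc₀, fun i w hw => ?_⟩
  · have := sec_pow (hs (t.equivFin.symm l)) (J / j (t.equivFin.symm l))
    rwa [hd _ (t.equivFin.symm l).2] at this
  · obtain ⟨q, hq, y, hy, he⟩ := hcov (A.p i w)
    refine le_trans ?_ (Finset.single_le_sum (fun l _ => by positivity)
      (Finset.mem_univ (t.equivFin ⟨q, hq⟩)))
    have h1 := pow_le_pow_left₀ (hc q).le
      ((hb q (ht q hq) y hy).trans_eq (sec_norm (hs q) hy.2 hw he)) (J / j q)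
    refine ((h0 q hq).trans h1).trans_eq ?_
    have h2 : (J : ℝ) = j q * (J / j q : ℕ) := by rw [← Nat.cast_mul, hd q hq]
    simp only [Equiv.symm_apply_apply]
    rw [mul_pow, ← Real.exp_nat_mul, norm_pow, ← pow_mul, ← pow_mul, mul_comm 2, h2]
    congr 2
    ring

/-- Finitely many sections of one power of `L` whose norms are bounded below. -/
theorem bpf_of_up [T2Space X] [MeasurableSpace X] [BorelSpace X] {μ : Measure X} (U : Up A μ L)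
    (hμ : IsVolume A μ) {K : Form11 A} (hK : ∀ i, ∀ z ∈ (A.C i).W, (K.h i z).PosDef)
    (hb : Bd11 A K) (hS : SecBd L) (hC : Cov L) (hG : ∀ i z₀ r, EP L i z₀ r →
      ∃ x : Filter X, x ≤ map (A.p i) (𝓝[(A.C i).W] z₀) ∧ Nonempty (UG U x)) :
    ∃ j : ℕ, 1 ≤ j ∧ ∃ (r : ℕ) (s : Fin r → A.ι → E N → ℂ), (∀ l, L.IsSection j (s l)) ∧
      ∃ c : ℝ, 0 < c ∧ ∀ i, ∀ z ∈ (A.C i).W,
        c ≤ ∑ l, ‖s l i z‖ ^ 2 * Real.exp (-(j * L.ψ i z)) :=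
  hC.unif fun i z₀ r hP => by
    obtain ⟨x, hx, ⟨H⟩⟩ := hG i z₀ r hP
    exact H.exists_sec hμ hK hb hS hP hx

end Pool.Agent.SB
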