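import Pool.Agent.K.MP_63735c_ag.C210

/-! The pointwise inequality. -/

open scoped ComplexOrder ContDiff Matrix Topology ENNReal
open Set Metric MeasureTheory Filter

namespace Pool.Agent.BP

open Pool.Agent.SPF Pool.Agent.AB Pool.Agent.CK Pool.Agent.SE Pool.Agent.NL

variable {n : ℕ}

theorem bpc2_ip (B h k : Mat n) :
    ip (Bᴴ * B) h k = ((B * h * Bᵀ)ᴴ * (B * k * Bᵀ)).trace := by
  have e : (Bᴴ)ᵀ = (Bᵀ)ᴴ := rfl
  rw [ip, Matrix.transpose_mul, e, Matrix.conjTranspose_mul, Matrix.conjTranspose_mul,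
    Matrix.mul_assoc (Bᵀ)ᴴ, Matrix.trace_mul_comm (Bᵀ)ᴴ]
  simp only [Matrix.mul_assoc]

open scoped MatrixOrder in
theorem bpc2_sqrt {P : Mat n} (hP : P.PosDef) : ∃ B : Mat n, P = Bᴴ * B :=
  CStarAlgebra.nonneg_iff_eq_star_mul_self.mp hP.posSemidef.nonneg

theorem bpc2_nonneg {P : Mat n} (hP : P.PosDef) (h : Mat n) : 0 ≤ ip P h h := by
  obtain ⟨B, rfl⟩ := bpc2_sqrt hP
  rw [bpc2_ip]
  exact (Matrix.posSemidef_conjTranspose_mul_self _).trace_nonneg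

theorem bpc2_symm {P : Mat n} (hP : P.PosDef) (h k : Mat n) : (ip P k h).re = (ip P h k).re := by
  obtain ⟨B, rfl⟩ := bpc2_sqrt hP
  rw [bpc2_ip, bpc2_ip, ← Complex.conj_re, ← Complex.star_def, ← Matrix.trace_conjTranspose,
    Matrix.conjTranspose_mul, Matrix.conjTranspose_conjTranspose]

theorem bpc2_vec (P : Mat n) (α ξ : E n) : ip P (Matrix.vecMulVec α ξ) (Matrix.vecMulVec α ξ) =
    hq P (star α) (star α) * hq P (star ξ) (star ξ) := by
  rw [ip, Matrix.mul_vecMulVec, Matrix.vecMulVec_mul, Matrix.conjTranspose_vecMulVec,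
    Matrix.vecMulVec_mul_vecMulVec, Matrix.trace_vecMulVec, Matrix.vecMul_transpose, hq, hq,
    star_star, star_star, dotProduct_smul, smul_eq_mul]

theorem ip_nonneg {P : Mat n} (hP : P.PosDef) (h : Mat n) : 0 ≤ (ip P h h).re := by
  exact (Complex.nonneg_iff.1 (bpc2_nonneg hP h)).1

theorem ip_zero {P h : Mat n} (hP : P.PosDef) (h0 : (ip P h h).re = 0) : h = 0 := by
  have h1 : ip P h h = 0 := Complex.ext h0 (Complex.nonneg_iff.1 (bpc2_nonneg hP h)).2.symm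
  obtain ⟨B, rfl⟩ := bpc2_sqrt hP
  have h2 := hP.det_pos.ne'
  rw [Matrix.det_mul] at h2
  have h3 : IsUnit B.det := (right_ne_zero_of_mul h2).isUnit
  rw [bpc2_ip, Matrix.trace_conjTranspose_mul_self_eq_zero_iff] at h1
  have h4 := congrArg (fun M => B⁻¹ * (M * Bᵀ⁻¹)) h1
  simpa only [Matrix.mul_nonsing_inv_cancel_right _ _ (Matrix.isUnit_det_transpose B h3),
    Matrix.nonsing_inv_mul_cancel_left _ _ h3, Matrix.zero_mul, Matrix.mul_zero] using h4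

theorem ip_est {K : Mat n} (hK : K.PosDef) (h : Mat n) (α : E n) {ξ : E n} {C : ℝ} (hC : 0 ≤ C)
    (hξ : ∀ v, ‖v ⬝ᵥ ξ‖ ^ 2 ≤ C * hr K v) (t s : ℝ) :
    t ^ 2 / 4 * (ip K⁻¹ h h).re - 4 * C * s ^ 2 * hr K⁻¹ (star α) ≤
      t ^ 2 / 2 * (ip K⁻¹ h h).re + 2 * t * s * (ip K⁻¹ h (Matrix.vecMulVec α ξ)).re := by
  have hP := hK.inv
  set k := Matrix.vecMulVec α ξ with hk
  have h1 : (hq K⁻¹ (star ξ) (star ξ)).re ≤ C := by
    have a1 := hξ (star ξ ᵥ* K⁻¹)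
    have a2 : star ξ ᵥ* K⁻¹ ⬝ᵥ ξ = hq K⁻¹ (star ξ) (star ξ) := by
      rw [hq, star_star, Matrix.dotProduct_mulVec]
    rw [hr, hq_dual hK, star_star, a2] at a1
    have a3 := Complex.re_le_norm (hq K⁻¹ (star ξ) (star ξ))
    have a4 := hq_nonneg hP.posSemidef (star ξ)
    by_contra a5
    nlinarith
  have h2 : (ip K⁻¹ k k).re ≤ C * hr K⁻¹ (star α) := by
    have a1 := Complex.conj_eq_iff_im.1 (hq_herm hP.1 (star ξ) (star ξ))
    rw [hk, bpc2_vec, Complex.mul_re, a1, mul_zero, sub_zero, mul_comm]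
    exact mul_le_mul_of_nonneg_right h1 (hq_nonneg hP.posSemidef _)
  have h3 := ip_nonneg hP (((t / 2 : ℝ) : ℂ) • h + ((2 * s : ℝ) : ℂ) • k)
  have h4 : ∀ a b : ℝ, ip K⁻¹ ((a : ℂ) • h + (b : ℂ) • k) ((a : ℂ) • h + (b : ℂ) • k) =
      (a * a : ℝ) * ip K⁻¹ h h + (a * b : ℝ) * ip K⁻¹ h k + (a * b : ℝ) * ip K⁻¹ k h +
        (b * b : ℝ) * ip K⁻¹ k k := fun a b => by
    simp only [ip, Matrix.conjTranspose_add, Matrix.conjTranspose_smul, Matrix.mul_add,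
      Matrix.add_mul, Matrix.mul_smul, Matrix.smul_mul, Matrix.trace_add, Matrix.trace_smul,
      smul_eq_mul, Complex.star_def, Complex.conj_ofReal, Complex.ofReal_mul]
    ring
  rw [h4] at h3
  simp only [Complex.add_re, Complex.re_ofReal_mul, bpc2_symm hP h k] at h3
  nlinarith [mul_le_mul_of_nonneg_left h2 (sq_nonneg s)]

/-- The field of the Caccioppoli inequality. -/
noncomputable def cf (K : Mat n) (h : Mat n) (ξ α : E n) (t c : ℝ) : E n :=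
  (t : ℂ) • (zt K h *ᵥ ξ) + (c : ℂ) • (star α ᵥ* K.adjugate)

theorem cf_est {W : Set (E n)} {K : E n → Mat n} {z : E n} (hW : IsOpen W) (hK : Kah W K)
    {ξ : E n → E n} (hξ : ContDiffOn ℝ ∞ ξ W) {ψ : E n → ℝ} (hψ : ContDiffOn ℝ ∞ ψ W)
    (hz : z ∈ W) (hh : ∀ a b c, dzb c (fun w => curl ξ w a b) z = 0) {C B e : ℝ} (hC : 0 ≤ C)
    (hB : 0 ≤ B) (he : 0 ≤ e) (h1 : ∀ v, ‖v ⬝ᵥ ξ z‖ ^ 2 ≤ C * hr (K z) v)
    (h2 : ∀ v, -(B * hr (K z) v) ≤ hr (lev ψ z) v) {l : ℝ → ℝ} (hl : ContDiff ℝ ∞ l)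
    (h3 : 0 ≤ l (ψ z) ∧ l (ψ z) ≤ 1) (h4 : 0 ≤ deriv l (ψ z) ∧ deriv l (ψ z) ≤ e) :
    (K z).det.re * (l (ψ z) ^ 2 / 4 * (ip (K z)⁻¹ (curl ξ z) (curl ξ z)).re - 4 * C * e * n * B) ≤
      (dv (fun w => (l (ψ w) : ℂ) •
        cf (K w) (curl ξ w) (ξ w) (dr ψ w) (l (ψ w)) (4 * C * e)) z).re := by
  have hp := hK.pos z hz
  have hd := Complex.pos_iff.1 hp.det_pos
  have hd' : (K z).det = ((K z).det.re : ℂ) := Complex.ext rfl hd.2.symm
  have hψ' := diffAt hW hψ hz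
  have hl' := (hl.differentiable (by simp) (ψ z)).hasDerivAt
  have hθ : DifferentiableAt ℝ (fun w => l (ψ w)) z := hl'.differentiableAt.comp z hψ'
  have hZ : DifferentiableAt ℝ (fun w => zt (K w) (curl ξ w) *ᵥ ξ w) z := by
    refine diffAt hW (contDiffOn_pi.2 fun a => ?_) hz
    exact ContDiffOn.sum (s := Finset.univ) fun b _ => (zt_smooth hK (curl_smooth hW hξ) a b).mul
      (contDiffOn_pi.1 hξ b)
  have hG : DifferentiableAt ℝ (fun w => star (dr ψ w) ᵥ* (K w).adjugate) z := by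
    refine diffAt hW (contDiffOn_pi.2 fun a => ?_) hz
    exact ContDiffOn.sum (s := Finset.univ) fun b _ =>
      (abint_star (contDiffOn_pi.1 (dr_smooth hW hψ) b)).mul (adj_smooth hK.smooth b a)
  have hc : DifferentiableAt ℝ (fun _ : E n => 4 * C * e) z := differentiableAt_const _
  have e1 : dr ψ z ⬝ᵥ zt (K z) (curl ξ z) *ᵥ ξ z =
      (K z).det.re * ip (K z)⁻¹ (curl ξ z) (Matrix.vecMulVec (dr ψ z) (ξ z)) := by
    rw [← hd', ← zt_pair hp]
    simp only [dotProduct, Matrix.mulVec, Finset.mul_sum, Matrix.vecMulVec_apply]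
    exact Finset.sum_congr rfl fun a _ => Finset.sum_congr rfl fun b _ => by ring
  have e2 : dr ψ z ⬝ᵥ star (dr ψ z) ᵥ* (K z).adjugate =
      (K z).det.re * hq (K z)⁻¹ (star (dr ψ z)) (star (dr ψ z)) := by
    rw [← hd', dotProduct_comm, ← Matrix.dotProduct_mulVec, hq, star_star, Matrix.inv_def,
      Matrix.smul_mulVec, dotProduct_smul, smul_eq_mul, ← mul_assoc,
      Ring.mul_inverse_cancel _ hp.det_pos.ne'.isUnit, one_mul]
  have e3 : dv (fun w => zt (K w) (curl ξ w) *ᵥ ξ w) z =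
      ((K z).det.re / 2 : ℝ) * ip (K z)⁻¹ (curl ξ z) (curl ξ z) := by
    have := dv_zt hW hK hξ hz hh
    rw [hd'] at this
    push_cast
    linear_combination this / 2
  have e4 := tr_adj_le (lev_herm (hψ.contDiffAt (hW.mem_nhds hz))).neg (C := B) hp fun v => by
    have a1 := h2 v
    have a2 := hq_smul (-1) (lev ψ z) v v
    rw [neg_one_smul, neg_one_mul] at a2
    rw [hr, a2, Complex.neg_re]
    exact neg_le.1 a1
  rw [Matrix.mul_neg, Matrix.trace_neg, Complex.neg_re] at e4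
  have e5 := ip_est hp (curl ξ z) (dr ψ z) hC h1 (l (ψ z)) (deriv l (ψ z))
  have e6 := hq_nonneg hp.inv.posSemidef (star (dr ψ z))
  have a1 := (ablev_red hθ).fun_smul hZ
  have a2 := (ablev_red hc).fun_smul hG
  simp only [cf]
  rw [dv_smul hθ (a1.fun_add a2), dv_add a1 a2, dv_smul hθ hZ, dv_smul hc hG, dr_const, dr_chain hl' hψ',
    dv_grad hW hK hψ hz, e3]
  simp only [smul_dotProduct, dotProduct_add, dotProduct_smul, zero_dotProduct, smul_eq_mul, e1,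
    e2, Complex.add_re, Complex.re_ofReal_mul, zero_add]
  have b1 := mul_le_mul_of_nonneg_left e5 hd.1.le
  have b2 : 0 ≤ (K z).det.re * C * (hq (K z)⁻¹ (star (dr ψ z)) (star (dr ψ z))).re *
      (deriv l (ψ z) * (e - deriv l (ψ z))) :=
    mul_nonneg (mul_nonneg (mul_nonneg hd.1.le hC) e6) (mul_nonneg h4.1 (sub_nonneg.2 h4.2))
  have b3 := mul_le_mul_of_nonneg_left e4 (mul_nonneg h3.1 (mul_nonneg hC he))
  have b4 : 0 ≤ (1 - l (ψ z)) * (C * e * (n * B * (K z).det.re)) :=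
    mul_nonneg (sub_nonneg.2 h3.2) (by have := hd.1.le; positivity)
  simp only [hr] at b1
  nlinarith

end Pool.Agent.BP
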