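import Pool.Agent.K.MP_63735c_ag.C327

/-! The form on the base is closed. -/

open scoped ComplexOrder ContDiff Matrix Topology ENNReal
open Set Metric MeasureTheory Filter

namespace Pool.Agent.BP

open Pool.Agent.SPF Pool.Agent.AB Pool.Agent.CK Pool.Agent.SE Pool.Agent.NL

variable {n : ℕ} {Y : Type} [TopologicalSpace Y] [MeasurableSpace Y] {D : YD Y n}

theorem exists_step : ∃ e : ℝ, 0 < e ∧ ∀ R : ℝ, 0 < R → ∃ l : ℝ → ℝ, ContDiff ℝ ∞ l ∧
    (∀ t, 0 ≤ l t ∧ l t ≤ 1) ∧ (∀ t, 0 ≤ deriv l t ∧ deriv l t ≤ e / R) ∧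
    (∀ t ≤ -(2 * R), l t = 0) ∧ ∀ t, -R ≤ t → l t = 1 := by
  have hs : ContDiff ℝ ∞ Real.smoothTransition := Real.smoothTransition.contDiff
  obtain ⟨e, he⟩ := (isCompact_Icc (a := (0 : ℝ)) (b := 1)).exists_bound_of_continuousOn
    (hs.continuous_deriv (by simp)).continuousOn
  have hb : ∀ x, deriv Real.smoothTransition x ≤ max e 1 := fun x => by
    rcases lt_or_ge x 0 with h | h
    · have : Real.smoothTransition =ᶠ[𝓝 x] fun _ => 0 := by
        filter_upwards [Iio_mem_nhds h] with y hy using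
          Real.smoothTransition.zero_of_nonpos (le_of_lt hy)
      rw [this.deriv_eq, deriv_const]
      positivity
    rcases lt_or_ge 1 x with h' | h'
    · have : Real.smoothTransition =ᶠ[𝓝 x] fun _ => 1 := by
        filter_upwards [Ioi_mem_nhds h'] with y hy using
          Real.smoothTransition.one_of_one_le (le_of_lt hy)
      rw [this.deriv_eq, deriv_const]
      positivity
    · exact ((le_abs_self _).trans (he x ⟨h, h'⟩)).trans (le_max_left _ _)
  refine ⟨max e 1, by positivity, fun R hR => ⟨fun t => Real.smoothTransition (t / R + 2),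
    hs.comp ((contDiff_id.div_const R).add contDiff_const),
    fun t => ⟨Real.smoothTransition.nonneg _, Real.smoothTransition.le_one _⟩, fun t => ?_,
    fun t ht => Real.smoothTransition.zero_of_nonpos ?_,
    fun t ht => Real.smoothTransition.one_of_one_le ?_⟩⟩
  · have h1 : HasDerivAt (fun t => Real.smoothTransition (t / R + 2))
        (deriv Real.smoothTransition (t / R + 2) * (1 / R)) t :=
      ((hs.differentiable (by simp)) _).hasDerivAt.comp t
        (((hasDerivAt_id t).div_const R).add_const 2)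
    rw [h1.deriv, mul_one_div]
    exact ⟨div_nonneg Real.smoothTransition.monotone.deriv_nonneg hR.le,
      div_le_div_of_nonneg_right (hb _) hR.le⟩
  · have : t / R ≤ -2 := (div_le_iff₀ hR).2 (by linarith)
    linarith
  · have : -1 ≤ t / R := (le_div_iff₀ hR).2 (by linarith)
    linarith

theorem bpc3_curl (f g : E n → E n) (z : E n) (h : f =ᶠ[𝓝 z] g) : curl f z = curl g z := by
  have h1 : ∀ b, (fun w => f w b) =ᶠ[𝓝 z] fun w => g w b := fun b =>
    h.mono fun w hw => congrFun hw b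
  ext a b
  simp only [curl, Matrix.of_apply, (dz_congr (h1 _) _).self_of_nhds]

theorem bpc3_dv (f g : E n → E n) (z : E n) (h : f =ᶠ[𝓝 z] g) : dv f z = dv g z := by
  have h1 : ∀ b, (fun w => f w b) =ᶠ[𝓝 z] fun w => g w b := fun b =>
    h.mono fun w hw => congrFun hw b
  simp only [dv, (dz_congr (h1 _) _).self_of_nhds]

theorem bpc3_hol {ξ : Y → E n} {a b C : ℝ} (h : D.Xi ξ a b C) {k : D.ι} {z : E n}
    (hz : z ∈ D.W k) (c e f : Fin n) :
    dzb f (fun w => curl (fun w => ξ (D.p k w)) w c e) z = 0 := by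
  refine curl_hol (D.isOpen k) (h.smo k)
    (T := fun w => Matrix.of fun c e => a * D.om (D.p k w) c e - b * D.levG D.φ k w c e)
    (fun w hw c e => h.eq k w hw c e) hz (fun c e f => ?_) c e f
  have h1 := fun c e => diffAt (D.isOpen k) ((D.kah k).smooth c e) hz
  have h2 := fun c e => diffAt (D.isOpen k) (lev_smooth (D.isOpen k) (D.φ_smo k) c e) hz
  have h3 : ∀ c e f, dz f (fun w => a * D.om (D.p k w) c e - b * D.levG D.φ k w c e) z =
      a * dz f (fun w => D.om (D.p k w) c e) z -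
        b * dz f (fun w => lev (fun y => D.φ (D.p k y)) w c e) z := fun c e f => by
    simp only [Man.levG]
    rw [(dz_sub ((h1 c e).const_mul _) ((h2 c e).const_mul _) f).1,
      (dz_mul (differentiableAt_const _) (h1 c e) f).1,
      (dz_mul (differentiableAt_const _) (h2 c e) f).1, (dz_const f _).1, (dz_const f _).1]
    ring
  simp only [Matrix.of_apply]
  rw [h3, h3, (D.kah k).closed z hz,
    lev_closed ((D.φ_smo k).contDiffAt ((D.isOpen k).mem_nhds hz))]

theorem bpc3_key [T2Space Y] [BorelSpace Y] {ξ : Y → E n} {a b C : ℝ} (h : D.Xi ξ a b C) :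
    ∃ c : ℝ, ∀ R : ℝ, 0 < R → ∃ u : Y → ℝ, Integrable u D.ν ∧ ∫ y, u y ∂D.ν = 0 ∧
      (∀ y, 0 ≤ u y + c / R) ∧ ∀ k, ∀ z ∈ D.W k, -R ≤ D.ψ (D.p k z) →
        (ip (D.om (D.p k z))⁻¹ (curl (fun w => ξ (D.p k w)) z)
          (curl (fun w => ξ (D.p k w)) z)).re / 4 ≤ u (D.p k z) + c / R := by
  obtain ⟨e, he, hl⟩ := exists_step
  refine ⟨4 * max C 0 * e * n * (D.C * D.C), fun R hR => ?_⟩
  obtain ⟨l, hl, l1, l2, l3, l4⟩ := hl R hR
  set V : Y → E n := fun y => cf (D.om y) (D.op curl ξ y) (ξ y) (D.op dr D.ψ y) (l (D.ψ y))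
    (4 * max C 0 * (e / R)) with hV
  have hVc : ∀ k, ∀ z ∈ D.W k, V (D.p k z) = cf (D.om (D.p k z)) (curl (fun w => ξ (D.p k w)) z)
      (ξ (D.p k z)) (dr (fun w => D.ψ (D.p k w)) z) (l (D.ψ (D.p k z)))
      (4 * max C 0 * (e / R)) := fun k z hz => by
    simp only [hV]
    rw [D.op_chart bpc3_curl ξ hz,
      D.op_chart (fun f g z h => (dr_congr h).self_of_nhds) D.ψ hz]
  have hθ : D.S fun y => l (D.ψ y) := by
    refine ⟨fun k => hl.comp_contDiffOn (D.ψ_smo k), _, D.ψ_cpt (2 * R), ?_, fun y hy => ?_⟩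
    · rw [D.M_eq]
      exact subset_univ _
    · exact l3 _ (not_le.1 hy).le
  have hVs : D.Smo V := fun k => by
    refine ContDiffOn.congr ?_ (hVc k)
    have a1 := zt_smooth (D.kah k) (curl_smooth (D.isOpen k) (h.smo k))
    have a2 := adj_smooth (D.kah k).smooth
    have a3 := contDiffOn_pi.1 (h.smo k)
    have a4 := contDiffOn_pi.1 (dr_smooth (D.isOpen k) (D.ψ_smo k))
    have a5 := ofReal_smooth (hθ.1 k)
    refine contDiffOn_pi.2 fun c => ?_
    simp only [cf, Pi.add_apply, Pi.smul_apply, smul_eq_mul, Matrix.mulVec, Matrix.vecMul,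
      dotProduct, Pi.star_apply]
    exact (a5.mul (ContDiffOn.sum fun d _ => (a1 c d).mul (a3 d))).add
      (contDiffOn_const.mul (ContDiffOn.sum fun d _ =>
        (Complex.conjCLE.contDiff.comp_contDiffOn (a4 d)).mul (a2 d c)))
  set u : Y → ℂ := fun y => (D.om y).det⁻¹ * D.op dv (fun y => (l (D.ψ y) : ℂ) • V y) y with hu
  have huc : ∀ k, ∀ z ∈ D.W k, (D.om (D.p k z)).det * u (D.p k z) =
      dv (fun w => (l (D.ψ (D.p k w)) : ℂ) • V (D.p k w)) z := fun k z hz => by
    simp only [hu]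
    rw [D.op_chart bpc3_dv _ hz, mul_inv_cancel_left₀ (D.om_pos _).det_pos.ne']
  obtain ⟨i1, i2⟩ := D.stokes hθ (fun y => (l1 _).1) hVs huc
  have key : ∀ k, ∀ z ∈ D.W k, l (D.ψ (D.p k z)) ^ 2 / 4 * (ip (D.om (D.p k z))⁻¹
      (curl (fun w => ξ (D.p k w)) z) (curl (fun w => ξ (D.p k w)) z)).re ≤
      (u (D.p k z)).re + 4 * max C 0 * e * n * (D.C * D.C) / R := fun k z hz => by
    have p1 := D.om_pos (D.p k z)
    have a1 := cf_est (D.isOpen k) (D.kah k) (h.smo k) (D.ψ_smo k) hz (bpc3_hol h hz)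
      (C := max C 0) (B := D.C * D.C) (e := e / R) (le_max_right _ _)
      (mul_nonneg D.C_pos.le D.C_pos.le) (by positivity)
      (fun v => (h.bd _ v).trans
        (mul_le_mul_of_nonneg_right (le_max_left _ _) (hq_nonneg p1.posSemidef v)))
      (fun v => by
        have b1 := D.ψ_psh k z hz v
        have b2 := mul_le_mul_of_nonneg_left (D.φ_le k z hz v) D.C_pos.le
        simp only [Man.levG] at b1 b2
        linarith) hl (l1 _) (l2 _)
    have a2 := huc k z hz
    rw [bpc3_dv _ (fun w => (l (D.ψ (D.p k w)) : ℂ) • cf (D.om (D.p k w))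
      (curl (fun w => ξ (D.p k w)) w) (ξ (D.p k w)) (dr (fun w => D.ψ (D.p k w)) w)
      (l (D.ψ (D.p k w))) (4 * max C 0 * (e / R))) z (by
        filter_upwards [(D.isOpen k).mem_nhds hz] with w hw
        rw [hVc k w hw])] at a2
    obtain ⟨p2, p3⟩ := Complex.pos_iff.1 p1.det_pos
    rw [← a2, Complex.mul_re, ← p3, zero_mul, sub_zero] at a1
    have a3 := le_of_mul_le_mul_left a1 p2
    have a4 : 4 * max C 0 * e * n * (D.C * D.C) / R = 4 * max C 0 * (e / R) * n * (D.C * D.C) := by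
      ring
    linarith
  refine ⟨fun y => (u y).re, i1.re, ?_, fun y => ?_, fun k z hz hψ => ?_⟩
  · have := integral_re i1
    rw [i2] at this
    simpa using this
  · obtain ⟨k, z, hz, rfl⟩ := D.cover y
    exact le_trans (mul_nonneg (by positivity) (ip_nonneg (D.om_pos _).inv _)) (key k z hz)
  · have := key k z hz
    rw [l4 _ hψ] at this
    linarith

theorem YD.Xi.closed [T2Space Y] [BorelSpace Y] {ξ : Y → E n} {a b C : ℝ} (h : D.Xi ξ a b C)
    {k : D.ι} {z : E n} (hz : z ∈ D.W k) (c e : Fin n) :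
    dz c (fun w => ξ (D.p k w) e) z = dz e (fun w => ξ (D.p k w) c) z := by
  have := D.fin
  have := D.openPos
  set g : E n → ℝ := fun w => (ip (D.om (D.p k w))⁻¹ (curl (fun w => ξ (D.p k w)) w)
    (curl (fun w => ξ (D.p k w)) w)).re with hg
  suffices h0 : g z = 0 from
    sub_eq_zero.1 (congrFun (congrFun (ip_zero (D.om_pos _).inv h0) c) e)
  by_contra h0
  have h1 : 0 < g z := lt_of_le_of_ne (ip_nonneg (D.om_pos _).inv _) (Ne.symm h0)
  have hn := (D.isOpen k).mem_nhds hz
  have hc : ContinuousAt g z := by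
    have a1 : ContinuousAt (fun w => (D.om (D.p k w))⁻¹) z := continuousAt_pi.2 fun a =>
      continuousAt_pi.2 fun b => ((D.kah k).inv_smooth a b).continuousOn.continuousAt hn
    have a2 : ContinuousAt (curl fun w => ξ (D.p k w)) z := continuousAt_pi.2 fun a =>
      continuousAt_pi.2 fun b =>
        (curl_smooth (D.isOpen k) (h.smo k) a b).continuousOn.continuousAt hn
    have a3 : Continuous fun q : Mat n × Mat n => (ip q.1 q.2 q.2).re := by
      unfold ip
      fun_prop
    exact a3.continuousAt.comp (f := fun w => ((D.om (D.p k w))⁻¹, curl (fun w => ξ (D.p k w)) w))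
      (a1.prodMk a2)
  have e1 : ∀ᶠ w in 𝓝 z, g z / 2 < g w := hc.eventually (lt_mem_nhds (by linarith))
  have e2 : ∀ᶠ w in 𝓝 z, D.ψ (D.p k z) - 1 < D.ψ (D.p k w) :=
    ((D.ψ_smo k).continuousOn.continuousAt hn).eventually (lt_mem_nhds (by linarith))
  obtain ⟨O, hO, hOo, hzO⟩ := _root_.eventually_nhds_iff.1 ((e1.and e2).and hn)
  have hP := D.opn k O hOo fun w hw => (hO w hw).2
  have hp : 0 < D.ν.real (D.p k '' O) :=
    ENNReal.toReal_pos (hP.measure_pos _ ⟨_, z, hzO, rfl⟩).ne' (measure_ne_top _ _)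
  obtain ⟨q, hq⟩ := bpc3_key h
  have e3 : ∀ᶠ R : ℝ in atTop, D.ν.real univ * q / R < D.ν.real (D.p k '' O) * (g z / 8) :=
    (tendsto_const_nhds.div_atTop tendsto_id).eventually (gt_mem_nhds (by positivity))
  obtain ⟨R, ⟨r1, r2⟩, r3⟩ :=
    ((e3.and (eventually_gt_atTop 0)).and (eventually_ge_atTop (1 - D.ψ (D.p k z)))).exists
  obtain ⟨u, u1, u2, u3, u4⟩ := hq R r2
  have i1 : Integrable (fun y => u y + q / R) D.ν := u1.add (integrable_const _)
  have a1 := setIntegral_mono_on (integrableOn_const (C := g z / 8) (measure_ne_top _ _))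
    i1.integrableOn hP.measurableSet (by
      rintro _ ⟨w, hw, rfl⟩
      obtain ⟨⟨b1, b2⟩, b3⟩ := hO w hw
      have := u4 k w b3 (by linarith)
      simp only [hg] at b1 ⊢
      linarith)
  have a2 := setIntegral_le_integral (s := D.p k '' O) i1 (Eventually.of_forall u3)
  rw [integral_add u1 (integrable_const _), u2, integral_const, smul_eq_mul, zero_add,
    ← mul_div_assoc] at a2
  rw [setIntegral_const, smul_eq_mul] at a1
  linarith

end Pool.Agent.BP
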