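import Pool.Agent.K.MP_63735c_ag.C328
import Pool.Agent.K.MP_63735c_ag.C284

/-! The pull-back of the form. -/

open scoped ComplexOrder ContDiff Matrix Topology ENNReal
open Set Metric MeasureTheory Filter

namespace Pool.Agent.ZB

open Pool.Agent.BP Pool.Agent.SPF Pool.Agent.AB Pool.Agent.CK Pool.Agent.SE Pool.Agent.NL

variable {N n : ℕ} {X : Type} [TopologicalSpace X] {A : Atlas X N} {K : Form11 A} {L : Line A}
  [MeasurableSpace X] {μ : Measure X} {S : Sys K L n} {Y : Type} [TopologicalSpace Y]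
  [MeasurableSpace Y]

section Pull

variable {G : E N → E n} {ζ : E n → E n} {z : E N}

theorem bpc4_jac (hG : DifferentiableAt ℂ G z) (d : Fin n) (c : Fin N) :
    jac G z d c = dz c (fun w => G w d) z := by
  rw [(dz_of_diff (differentiableAt_pi.1 hG d) c).1, fderiv_apply hG d]
  rfl

theorem bpc4_pull (hG : ∀ᶠ w in 𝓝 z, DifferentiableAt ℂ G w)
    (hJ : ∀ d c, ∀ᶠ w in 𝓝 z, DifferentiableAt ℂ (fun w => jac G w d c) w)
    (hζ : ContDiffAt ℝ ∞ ζ (G z)) :
    ContDiffAt ℝ ∞ (fun w => ζ (G w) ᵥ* jac G w) z ∧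
      (∀ b c, dzb c (fun w => (ζ (G w) ᵥ* jac G w) b) z =
        ((jac G z)ᵀ * (Matrix.of fun d e => dzb e (fun y => ζ y d) (G z)) *
          (jac G z).map star) b c) ∧
      ((∀ d e, dz d (fun y => ζ y e) (G z) = dz e (fun y => ζ y d) (G z)) → ∀ b c,
        dz b (fun w => (ζ (G w) ᵥ* jac G w) c) z = dz c (fun w => (ζ (G w) ᵥ* jac G w) b) z) := by
  have hs := smoothAt_of_hol hG
  have h1 : ∀ d, ContDiffAt ℝ ∞ (fun y => ζ y d) (G z) := contDiffAt_pi.1 hζ
  have h2 : ∀ d, ContDiffAt ℝ ∞ (fun w => ζ (G w) d) z := fun d => (h1 d).comp z hs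
  have h3 : ∀ d c, ContDiffAt ℝ ∞ (fun w => jac G w d c) z := fun d c => smoothAt_of_hol' (hJ d c)
  have h4 : ∀ b, (fun w => (ζ (G w) ᵥ* jac G w) b) = fun w => ∑ d, ζ (G w) d * jac G w d b :=
    fun b => rfl
  have d1 := fun d => (h1 d).differentiableAt (by simp)
  have d2 := fun d => (h2 d).differentiableAt (by simp)
  have d3 := fun d c => (h3 d c).differentiableAt (by simp)
  have h5 := fun b c => dz_sum Finset.univ (F := fun d w => ζ (G w) d * jac G w d b)
    (fun d _ => (d2 d).mul (d3 d b)) c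
  have h6 := fun b c d => dz_mul (d2 d) (d3 d b) c
  have h7 := fun d c => dz_comp (f := fun y => ζ y d) (d1 d) hG.self_of_nhds c
  refine ⟨contDiffAt_pi.2 fun b => ?_, fun b c => ?_, fun hc b c => ?_⟩
  · rw [h4]
    exact ContDiffAt.sum fun d _ => (h2 d).mul (h3 d b)
  · rw [h4, (h5 b c).2]
    simp only [fun d => (h6 b c d).2, fun d => (h7 d c).2,
      fun d => (dz_of_diff (hJ d b).self_of_nhds c).2, mul_zero, add_zero, Matrix.mul_apply,
      Matrix.transpose_apply, Matrix.of_apply, Matrix.map_apply, Finset.sum_mul]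
    rw [Finset.sum_comm]
    exact Finset.sum_congr rfl fun e _ => Finset.sum_congr rfl fun d _ => by ring
  · have h8 : ∀ d b c, dz b (fun w => jac G w d c) z = dz b (dz c fun w => G w d) z :=
      fun d b c => (dz_congr (hG.mono fun w hw => bpc4_jac hw d c) b).self_of_nhds
    rw [h4, h4, (h5 c b).1, (h5 b c).1]
    simp only [fun d b c => (h6 b c d).1, fun d c => (h7 d c).1, h8, Finset.sum_add_distrib,
      Finset.sum_mul]
    congr 1
    · rw [Finset.sum_comm]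
      exact Finset.sum_congr rfl fun e _ => Finset.sum_congr rfl fun d _ => by
        rw [hc]
        ring
    · exact Finset.sum_congr rfl fun d _ => by
        rw [(ablev_comm (contDiffAt_pi.1 hs d) b c).2]

end Pull

/-- The pull-back of the special Kähler metric. -/
noncomputable def Kit.Om (T : Kit S μ Y) (i : A.ι) (z : E N) : Mat N :=
  (Jg A S.g i z)ᵀ * T.om (T.f (A.p i z)) * (Jg A S.g i z).map star

theorem Kit.ux [T2Space Y] [BorelSpace Y] (T : Kit S μ Y) {ξ : Y → E n} {a C : ℝ}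
    (h : T.D.Xi ξ a (S.m : ℝ)⁻¹ C) :
    UX A S.W (fun i z => ξ (T.f (A.p i z)) ᵥ* Jg A S.g i z) T.Om a C := by
  have key : ∀ i, ∀ z ∈ (A.C i).W, A.p i z ∈ S.W → ∃ k, S.g (A.p i z) ∈ T.W k ∧
      T.f (A.p i z) = T.p k (S.g (A.p i z)) ∧
      ((fun w => ξ (T.f (A.p i w)) ᵥ* Jg A S.g i w) =ᶠ[𝓝 z]
        fun w => ξ (T.p k (S.g (A.p i w))) ᵥ* jac (fun t => S.g (A.p i t)) w) ∧
      ∀ᶠ w in 𝓝 z, DifferentiableAt ℂ (fun t => S.g (A.p i t)) w := by
    intro i z hz hW
    obtain ⟨k, b, hb, e⟩ := T.cover (T.f (A.p i z))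
    have h1 := (T.loc hz hW hb e.symm).2
    refine ⟨k, h1.self_of_nhds.2.2.1, h1.self_of_nhds.2.2.2.1, h1.mono fun w hw => ?_,
      h1.mono fun w hw => hw.2.2.2.2⟩
    show _ ᵥ* _ = _ ᵥ* _
    rw [hw.2.2.2.1]
    rfl
  have hp := fun i z (hz : z ∈ (A.C i).W) (hW : A.p i z ∈ S.W) k (hk : S.g (A.p i z) ∈ T.W k) hG =>
    bpc4_pull (G := fun t => S.g (A.p i t)) (ζ := fun c => ξ (T.p k c)) (z := z) hG
      (fun d c => (S.Vf_smooth hz hW.1 c d).2) ((h.smo k).contDiffAt ((T.isOpen k).mem_nhds hk))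
  refine ⟨h.a_pos, fun i z hz hW => ?_, fun i z _ _ => ?_, fun i z hz hW b c => ?_,
    fun i z _ _ v => ?_, fun i z hz hW b c => ?_, fun i j O φ hφ hO z hz hW => ?_⟩
  · obtain ⟨k, hk, -, he, hG⟩ := key i z hz hW
    exact (hp i z hz hW k hk hG).1.congr_of_eventuallyEq he
  · exact (T.D.om_pos _).posSemidef.mul_mul_conjTranspose_same (Jg A S.g i z)ᵀ
  · obtain ⟨k, hk, e, he, hG⟩ := key i z hz hW
    have hm : (S.m : ℂ) ≠ 0 := Nat.cast_ne_zero.2 (Nat.one_le_iff_ne_zero.1 S.m_pos)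
    have h1 : (Matrix.of fun d e => dzb e (fun y => ξ (T.p k y) d) (S.g (A.p i z))) =
        (a : ℂ) • T.om (T.f (A.p i z)) -
          (S.m : ℂ)⁻¹ • T.levG (T.dn S.φ) k (S.g (A.p i z)) := by
      ext d c
      rw [e]
      exact (h.eq k _ hk d c).trans (by push_cast; rfl)
    refine (dzb_congr (he.fun_comp fun v => v b) c).self_of_nhds.trans
      (((hp i z hz hW k hk hG).2.1 b c).trans ?_)
    rw [h1, Matrix.mul_sub, Matrix.sub_mul, Matrix.mul_smul, Matrix.smul_mul, Matrix.mul_smul,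
      Matrix.smul_mul]
    have h2 := T.eta_eq hz hW hk e
    unfold Jg at h2
    rw [← h2, inv_smul_smul₀ hm]
    rfl
  · unfold Kit.Om hr
    rw [hq_conj, dotProduct_comm, ← Matrix.dotProduct_mulVec, dotProduct_comm]
    exact h.bd _ _
  · obtain ⟨k, hk, -, he, hG⟩ := key i z hz hW
    exact (dz_congr (he.fun_comp fun v => v c) b).self_of_nhds.trans
      (((hp i z hz hW k hk hG).2.2 (h.closed hk) b c).trans
        (dz_congr (he.fun_comp fun v => v b) c).self_of_nhds.symm)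
  · show _ ᵥ* _ = (_ ᵥ* _) ᵥ* _
    rw [hO z hz, Matrix.vecMul_vecMul, (S.Vf_change hφ hO hz hW.1).1]

end Pool.Agent.ZB
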