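import Pool.Agent.K.MP_63735c_ag.C214
import Pool.Agent.K.MP_63735c_ag.C330
import Pool.Agent.K.MP_63735c_ag.C267
import Pool.Agent.K.MP_63735c_ag.C271
import Pool.Agent.K.MP_63735c_ag.C213

/-! The tubes given by the base. -/

open scoped ComplexOrder ContDiff Matrix Topology ENNReal
open Set Metric MeasureTheory Filter

namespace Pool.Agent.BP

open Pool.Agent.SPF Pool.Agent.AB Pool.Agent.CK Pool.Agent.SE Pool.Agent.NL

variable {N n : ℕ} {X : Type} [TopologicalSpace X]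

theorem cell_of_per {Ψ : E n → X} {l : Matrix (Fin n) (Fin N) ℂ} (hl : Function.Bijective (lt l))
    (hp : Per l Ψ) : Cell Ψ (volume.restrict (lt l '' cube N)) := by
  have hc : IsCompact (lt l '' Icc 0 1) := isCompact_Icc.image (bpt10_cont l)
  have hs : lt l '' cube N ⊆ lt l '' Icc 0 1 := image_mono (bpt10_sub N)
  let e : (Fin N → ℝ) ≃L[ℝ] E n :=
    (LinearEquiv.ofBijective (bpt10_L l : (Fin N → ℝ) →ₗ[ℝ] E n) hl).toContinuousLinearEquiv
  have hemb : MeasurableEmbedding (lt l) := e.toHomeomorph.measurableEmbedding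
  have hopn : IsOpenMap (lt l) := e.toHomeomorph.isOpenMap
  have hκ : volume.restrict (lt l '' cube N) =
      ENNReal.ofReal (cov l) • (volume.restrict (cube N)).map (lt l) :=
    Measure.ext_of_lintegral _ fun f _ => by
      rw [lintegral_smul_measure, hemb.lintegral_map, (cell_int hl f).2, smul_eq_mul]
  refine ⟨isFiniteMeasure_restrict.2 ((measure_mono hs).trans_lt hc.measure_lt_top).ne,
    ⟨_, hc, ?_⟩, fun u hu hi a => ?_, fun τ₀ => ?_⟩
  · rw [Measure.restrict_apply hc.measurableSet.compl]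
    exact measure_mono_null (fun τ hτ => hτ.1 (hs hτ.2)) measure_empty
  · rw [hκ, integral_smul_measure, hemb.integral_map,
      (per_dz hl hu (fun τ t => hi _ _ (hp τ t)) a).1, smul_zero]
  · obtain ⟨t₀, rfl⟩ := hl.2 τ₀
    refine ⟨lt l '' ball t₀ (1 / 2), (hopn _ isOpen_ball).mem_nhds
      ⟨t₀, mem_ball_self (by norm_num), rfl⟩, fun u _ hi => ?_⟩
    have hu : Per l u := fun τ t => hi _ _ (hp τ t)
    have h1 : lt l '' ball t₀ (1 / 2) ⊆
        (fun τ => τ + lt l (t₀ - fun _ => 1 / 2)) '' (lt l '' cube N) := by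
      rintro _ ⟨t, ht, rfl⟩
      refine ⟨_, ⟨t - (t₀ - fun _ => 1 / 2), fun j _ => ?_, rfl⟩, ?_⟩
      · have h2 := (dist_pi_lt_iff (by norm_num)).1 (mem_ball.1 ht) j
        rw [Real.dist_eq, abs_lt] at h2
        simp only [Pi.sub_apply, mem_Ico]
        constructor <;> linarith [h2.1, h2.2]
      · show lt l _ + lt l _ = _
        rw [← bpt10_add, sub_add_cancel]
    refine (lintegral_mono_set h1).trans_eq ?_
    rw [← (measurePreserving_add_right volume _).setLIntegral_comp_emb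
      (measurableEmbedding_addRight _), (cell_int hl _).2, (cell_int hl u).2]
    simp only [← bpt10_add]
    rw [cube_lshift (u := fun t => u (lt l t)) hu.bpt10_cube]

variable [T2Space X] [CompactSpace X] [PreconnectedSpace X] [MeasurableSpace X] [BorelSpace X]
  {A : Atlas X N} {K : Form11 A} {L : Line A} {S : Sys K L n} {μ : Measure X} {Y : Type}
  [TopologicalSpace Y] [MeasurableSpace Y]

omit [T2Space X] [CompactSpace X] [PreconnectedSpace X] [MeasurableSpace X] [BorelSpace X]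
  [MeasurableSpace Y] in
theorem bpd0_g (B : Base S Y) {x : X} (hx : x ∈ S.W) {k : B.ι} {b : E n} (hb : b ∈ B.W k)
    (h : B.p k b = B.f x) : S.g x = b := by
  rw [← B.γ_f x hx, ← h, B.γ_p k b hb]

omit [T2Space X] [CompactSpace X] [PreconnectedSpace X] [MeasurableSpace X] [BorelSpace X]
  [MeasurableSpace Y] in
theorem bpd0_set (B : Base S Y) {k : B.ι} {O : Set (E n)} (hO : O ⊆ B.W k) :
    S.W ∩ B.f ⁻¹' (B.p k '' B.W k) ∩ S.g ⁻¹' O = S.W ∩ B.f ⁻¹' (B.p k '' O) := by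
  ext x
  constructor
  · rintro ⟨⟨hx, b, hb, h⟩, h'⟩
    exact ⟨hx, b, bpd0_g B hx hb h ▸ h', h⟩
  · rintro ⟨hx, b, hb, h⟩
    exact ⟨⟨hx, b, hO hb, h⟩, mem_preimage.2 (mem_of_eq_of_mem (bpd0_g B hx (hO hb) h) hb)⟩

omit [T2Space X] [CompactSpace X] [PreconnectedSpace X] [MeasurableSpace Y] in
theorem bpd0_fm (B : Base S Y) {w : X → ℝ} (hw : ContinuousOn w S.W) (h0 : ∀ x ∈ S.W, 0 ≤ w x)
    {k : B.ι} {b : E n} (hb : b ∈ B.W k) :
    ∫⁻ t in cube N, ENNReal.ofReal (w (B.Θ k b t)) =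
      ENNReal.ofReal (∫ x, w x ∂B.fm (B.p k b)) := by
  have h1 : Continuous fun t => B.Θ k b t :=
    (B.Θ_cont k).comp_continuous (Continuous.prodMk_right b) fun _ => ⟨hb, trivial⟩
  rw [(B.fm_int hb hw).2]
  exact (ofReal_integral_eq_lintegral_ofReal
    (cube_int (hw.comp_continuous h1 fun t => (B.Θ_mem hb t).1))
    (Eventually.of_forall fun t => h0 _ (B.Θ_mem hb t).1)).symm

omit [CompactSpace X] [PreconnectedSpace X] [MeasurableSpace Y] in
theorem bpd0_fub (B : Base S Y) (hμ : IsVolume A μ) {w : X → ℝ} (hw : ContinuousOn w S.W)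
    (h0 : ∀ x ∈ S.W, 0 ≤ w x) {k : B.ι} {O : Set (E n)} (hs : O ⊆ B.W k) (hO : MeasurableSet O) :
    ∫⁻ x in S.W ∩ B.f ⁻¹' (B.p k '' B.W k) ∩ S.g ⁻¹' O, ENNReal.ofReal (w x) ∂μ =
      ∫⁻ b in O, ENNReal.ofReal (B.vol (B.p k b) * ∫ x, w x ∂B.fm (B.p k b)) := by
  classical
  have hW := B.W_open.measurableSet
  have hm : Measurable fun x => ENNReal.ofReal (S.W.piecewise w 0 x) :=
    (hw.measurable_piecewise continuousOn_const hW).ennreal_ofReal
  have h1 : ∀ᵐ x ∂μ.restrict (S.W ∩ B.f ⁻¹' (B.p k '' O)),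
      ENNReal.ofReal (w x) = ENNReal.ofReal (S.W.piecewise w 0 x) :=
    (ae_restrict_of_ae_restrict_of_subset inter_subset_left (ae_restrict_mem hW)).mono
      fun x hx => by rw [piecewise_eq_of_mem _ _ _ hx]
  rw [bpd0_set B hs, lintegral_congr_ae h1, B.fub hμ hO hs hm]
  refine setLIntegral_congr_fun hO fun b hb => ?_
  show _ * _ = ENNReal.ofReal _
  rw [B.fm_lint hm (hs hb), ENNReal.ofReal_mul (B.vol_pos _).le, ← bpd0_fm B hw h0 (hs hb)]
  simp only [fun t => piecewise_eq_of_mem S.W w 0 (B.Θ_mem (hs hb) t).1]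

theorem Kit.exists_fib (T : Kit S μ Y) (hμ : IsVolume A μ) :
    ∃ F : Fib A n, F.W = S.W ∧ F.g = S.g ∧ (F.om = fun x => T.om (T.f x)) ∧
      F.Tor μ K S.h T.c₀ ∧ F.Sec S.φ := by
  have hh : Continuous (S.W.domRestrict S.h) := continuous_matrix fun a b =>
    ((S.h_cont a b).mono fun _ hx => hx.1).domRestrict
  have hdc : ContinuousOn (fun x => (S.h x).det.re) S.W :=
    continuousOn_iff_continuous_domRestrict.2 (Complex.continuous_re.comp hh.matrix_det)
  have hd0 : ∀ x ∈ S.W, 0 ≤ (S.h x).det.re := fun x hx =>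
    (Complex.le_def.1 hx.2.1.posSemidef.det_nonneg).1
  have hac : ∀ v, ContinuousOn (fun x => hr (S.h x).adjugateᵀ v) S.W := fun v =>
    continuousOn_iff_continuous_domRestrict.2 (Complex.continuous_re.comp
      (continuous_const.dotProduct
        (hh.matrix_adjugate.matrix_transpose.matrix_mulVec continuous_const)))
  refine ⟨{
    W := S.W
    r := fun x y => T.f x = T.f y ∧ (x ∈ S.W ↔ y ∈ S.W)
    g := S.g
    om := fun x => T.om (T.f x)
    J := T.ι
    U := fun k => S.W ∩ T.f ⁻¹' (T.p k '' T.W k)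
    T := T.W
    o := fun k b => T.om (T.p k b)
    W_open := T.W_open
    W_dense := T.pol.dense
    eqv := ⟨fun _ => ⟨rfl, Iff.rfl⟩, fun h => ⟨h.1.symm, h.2.symm⟩,
      fun h h' => ⟨h.1.trans h'.1, h.2.trans h'.2⟩⟩
    g_hol := fun i z hz => (S.g_hol i z hz.1 hz.2.1).differentiableWithinAt
    g_sub := fun i z hz v => ?_
    U_open := fun k => T.f_cont.isOpen_inter_preimage T.W_open
      (T.opn k _ (T.isOpen k) subset_rfl)
    U_sub := fun _ => inter_subset_left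
    T_open := T.isOpen
    maps := fun k x ⟨hx, b, hb, h⟩ => (bpd0_g T.toBase hx hb h).symm ▸ hb
    cov := fun x hx => (T.cover (T.f x)).imp fun k hk => ⟨hx, hk⟩
    rel := fun k x ⟨hx, b, hb, h⟩ y => ⟨fun hr => ⟨⟨hr.2.1 hx, b, hb, h.trans hr.1⟩, ?_⟩,
      fun ⟨⟨hy, c, hc, h'⟩, e⟩ => ⟨?_, iff_of_true hx hy⟩⟩
    prop := fun k C hC hs => ?_
    o_cont := fun k a b => ((T.H_smo a b).2 k).continuousOn
    o_eq := fun k x ⟨hx, b, hb, h⟩ => ?_
    om_psd := fun x _ v => hq_nonneg (T.H_pos _).2.1.posSemidef v }, rfl, rfl, rfl,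
    ⟨fun i z hz => S.poi i z hz.1 hz.2.1, fun i z hz => S.h_eq i z hz.1 hz.2.1,
      fun k O hs hO => ?_, fun k O hs hO v => ?_, fun x hx => ?_⟩,
    ⟨fun x hx y hr => ?_, fun i => ⟨S.s₀ i, fun z => S.m * L.ψ i z, S.sec.1 i,
      continuousOn_const.mul (L.ψ_smooth i).continuousOn,
      fun z hz => S.φ_eq i z hz.1 hz.2.1⟩⟩⟩
  · obtain ⟨u, hu⟩ := (S.h_pos_iff hz.1 hz.2.1).2.1 hz.2.2.1 v
    exact ⟨u, (jac_mulVec _ _ _).symm.trans hu⟩
  · rw [← T.γ_f y (hr.2.1 hx), ← hr.1, T.γ_f x hx]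
  · rw [← h, ← h', ← bpd0_g T.toBase hx hb h, ← bpd0_g T.toBase hy hc h', e]
  · rw [bpd0_set T.toBase hs]
    exact T.f_proper _ (hC.image_of_continuousOn ((T.cont k).mono hs))
  · rw [bpd0_g T.toBase hx hb h, h]
  · refine (bpd0_fub T.toBase hμ hdc hd0 hs hO).trans_le ?_
    simp only [T.int_det, T.c_eq, setLIntegral_const, le_refl]
  · refine (bpd0_fub T.toBase hμ (hac v) (fun x hx =>
      hq_nonneg (adj_psd hx.2.1.posSemidef).transpose v) hs hO).trans_le ?_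
    simp only [T.int_adj, ← mul_assoc, T.c_eq, ENNReal.ofReal_mul T.c₀_pos.le]
    rw [lintegral_const_mul' _ _ ENNReal.ofReal_ne_top]
  · obtain ⟨k, b, hb, h⟩ := T.cover (T.f x)
    have hs := T.s_mem k b hb
    refine ⟨S.Φ (T.s k b), _, cell_of_per (T.lam_bij k b hb) fun τ t => ?_, fun y => ⟨fun hr => ?_,
      fun ⟨τ, e⟩ => ?_⟩, Base.orb_lift hs.1, ?_⟩
    · rw [add_comm, ← S.Φ_add _ hs.1, (T.lam_per k b hb _).2 ⟨t, rfl⟩]
    · obtain ⟨τ, e⟩ := (T.f_eq _ hs y (hr.2.1 hx)).1 ((T.f_s k b hb).trans (h.trans hr.1))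
      exact ⟨τ, e.symm⟩
    · subst e
      exact ⟨by rw [T.f_Φ hs, T.f_s k b hb, h], iff_of_true hx (T.W_inv _ hs τ)⟩
    · rw [(cell_int (T.lam_bij k b hb) _).2, ← T.vol_chart hb]
      refine (congrArg _ (bpd0_fm T.toBase hdc hd0 hb)).trans_le ?_
      rw [T.int_det, ← ENNReal.ofReal_mul (T.vol_pos _).le, T.c_eq]
  · obtain ⟨τ, e⟩ := (T.f_eq x hx y (hr.2.1 hx)).1 hr.1
    rw [e, S.φ_Φ x hx.1]

end Pool.Agent.BP
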