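import Pool.Agent.K.MP_63735c_ag.C331
import Pool.Agent.K.MP_63735c_ag.C332
import Pool.Agent.K.MP_63735c_ag.C284
import Pool.Agent.K.MP_63735c_ag.C286
import Pool.Agent.K.MP_63735c_ag.C213

/-! The tubes given by the base. -/

open scoped ComplexOrder ContDiff Matrix Topology ENNReal
open Set Metric MeasureTheory Filter

namespace Pool.Agent.ZB

open Pool.Agent.BP Pool.Agent.SPF Pool.Agent.AB Pool.Agent.CK Pool.Agent.SE Pool.Agent.NL

variable {N n : ℕ} {X : Type} [TopologicalSpace X]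

variable [T2Space X] [PreconnectedSpace X] [MeasurableSpace X] [BorelSpace X]
  {A : Atlas X N} {K : Form11 A} {L : Line A} {S : Sys K L n} {μ : Measure X} {Y : Type}
  [TopologicalSpace Y] [MeasurableSpace Y]

omit [T2Space X] [PreconnectedSpace X] [MeasurableSpace X] [BorelSpace X]
  [MeasurableSpace Y] in
theorem bpd0_g (B : Base S Y) {x : X} (hx : x ∈ S.W) {k : B.ι} {b : E n} (hb : b ∈ B.W k)
    (h : B.p k b = B.f x) : S.g x = b := by
  rw [← B.γ_f x hx, ← h, B.γ_p k b hb]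

omit [T2Space X] [PreconnectedSpace X] [MeasurableSpace X] [BorelSpace X]
  [MeasurableSpace Y] in
theorem bpd0_set (B : Base S Y) {k : B.ι} {O : Set (E n)} (hO : O ⊆ B.W k) :
    S.W ∩ B.f ⁻¹' (B.p k '' B.W k) ∩ S.g ⁻¹' O = S.W ∩ B.f ⁻¹' (B.p k '' O) := by
  ext x
  constructor
  · rintro ⟨⟨hx, b, hb, h⟩, h'⟩
    exact ⟨hx, b, bpd0_g B hx hb h ▸ h', h⟩
  · rintro ⟨hx, b, hb, h⟩
    exact ⟨⟨hx, b, hO hb, h⟩, mem_preimage.2 (mem_of_eq_of_mem (bpd0_g B hx (hO hb) h) hb)⟩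

omit [T2Space X] [PreconnectedSpace X] [MeasurableSpace Y] in
theorem bpd0_fm (B : Base S Y) {w : X → ℝ} (hw : ContinuousOn w S.W) (h0 : ∀ x ∈ S.W, 0 ≤ w x)
    {k : B.ι} {b : E n} (hb : b ∈ B.W k) :
    ∫⁻ t in cube N, ENNReal.ofReal (w (B.Θ k b t)) =
      ENNReal.ofReal (∫ x, w x ∂B.fm (B.p k b)) := by
  have h1 : Continuous fun t => B.Θ k b t :=
    (B.Θ_cont k).comp_continuous (Continuous.prodMk_right b) fun _ => ⟨hb, trivial⟩
  rw [(B.fm_int hb hw).2]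
  exact (ofReal_integral_eq_lintegral_ofReal
    (cube_int (hw.comp_continuous h1 fun t => (B.Θ_mem hb t).1))
    (Eventually.of_forall fun t => h0 _ (B.Θ_mem hb t).1)).symm

omit [PreconnectedSpace X] [MeasurableSpace Y] in
theorem bpd0_fub (B : Base S Y) (hμ : IsVolume A μ) {w : X → ℝ} (hw : ContinuousOn w S.W)
    (h0 : ∀ x ∈ S.W, 0 ≤ w x) {k : B.ι} {O : Set (E n)} (hs : O ⊆ B.W k) (hO : MeasurableSet O) :
    ∫⁻ x in S.W ∩ B.f ⁻¹' (B.p k '' B.W k) ∩ S.g ⁻¹' O, ENNReal.ofReal (w x) ∂μ =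
      ∫⁻ b in O, ENNReal.ofReal (B.vol (B.p k b) * ∫ x, w x ∂B.fm (B.p k b)) := by
  classical
  have hW := B.W_open.measurableSet
  have hm : Measurable fun x => ENNReal.ofReal (S.W.piecewise w 0 x) :=
    (hw.measurable_piecewise continuousOn_const hW).ennreal_ofReal
  have h1 : ∀ᵐ x ∂μ.restrict (S.W ∩ B.f ⁻¹' (B.p k '' O)),
      ENNReal.ofReal (w x) = ENNReal.ofReal (S.W.piecewise w 0 x) :=
    (ae_restrict_of_ae_restrict_of_subset inter_subset_left (ae_restrict_mem hW)).mono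
      fun x hx => by rw [piecewise_eq_of_mem _ _ _ hx]
  rw [bpd0_set B hs, lintegral_congr_ae h1, B.fub hμ hO hs hm]
  refine setLIntegral_congr_fun hO fun b hb => ?_
  show _ * _ = ENNReal.ofReal _
  rw [B.fm_lint hm (hs hb), ENNReal.ofReal_mul (B.vol_pos _).le, ← bpd0_fm B hw h0 (hs hb)]
  simp only [fun t => piecewise_eq_of_mem S.W w 0 (B.Θ_mem (hs hb) t).1]

theorem Kit.exists_fib (T : Kit S μ Y) (hμ : IsVolume A μ) :
    ∃ F : Fib A n, F.W = S.W ∧ F.g = S.g ∧ (F.om = fun x => T.om (T.f x)) ∧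
      F.Tor μ K S.h T.c₀ ∧ F.Sec S.φ := by
  have hh : Continuous (S.W.domRestrict S.h) := continuous_matrix fun a b =>
    ((S.h_cont a b).mono fun _ hx => hx.1).domRestrict
  have hdc : ContinuousOn (fun x => (S.h x).det.re) S.W :=
    continuousOn_iff_continuous_domRestrict.2 (Complex.continuous_re.comp hh.matrix_det)
  have hd0 : ∀ x ∈ S.W, 0 ≤ (S.h x).det.re := fun x hx =>
    (Complex.le_def.1 hx.2.1.posSemidef.det_nonneg).1
  have hac : ∀ v, ContinuousOn (fun x => hr (S.h x).adjugateᵀ v) S.W := fun v =>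
    continuousOn_iff_continuous_domRestrict.2 (Complex.continuous_re.comp
      (continuous_const.dotProduct
        (hh.matrix_adjugate.matrix_transpose.matrix_mulVec continuous_const)))
  refine ⟨{
    W := S.W
    r := fun x y => T.f x = T.f y ∧ (x ∈ S.W ↔ y ∈ S.W)
    g := S.g
    om := fun x => T.om (T.f x)
    J := T.ι
    U := fun k => S.W ∩ T.f ⁻¹' (T.p k '' T.W k)
    T := T.W
    o := fun k b => T.om (T.p k b)
    W_open := T.W_open
    W_dense := T.pol.dense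
    eqv := ⟨fun _ => ⟨rfl, Iff.rfl⟩, fun h => ⟨h.1.symm, h.2.symm⟩,
      fun h h' => ⟨h.1.trans h'.1, h.2.trans h'.2⟩⟩
    g_hol := fun i z hz => (S.g_hol i z hz.1 hz.2.1).differentiableWithinAt
    g_sub := fun i z hz v => ?_
    U_open := fun k => T.f_cont.isOpen_inter_preimage T.W_open
      (T.opn k _ (T.isOpen k) subset_rfl)
    U_sub := fun _ => inter_subset_left
    T_open := T.isOpen
    maps := fun k x ⟨hx, b, hb, h⟩ => (bpd0_g T.toBase hx hb h).symm ▸ hb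
    cov := fun x hx => (T.cover (T.f x)).imp fun k hk => ⟨hx, hk⟩
    rel := fun k x ⟨hx, b, hb, h⟩ y => ⟨fun hr => ⟨⟨hr.2.1 hx, b, hb, h.trans hr.1⟩, ?_⟩,
      fun ⟨⟨hy, c, hc, h'⟩, e⟩ => ⟨?_, iff_of_true hx hy⟩⟩
    prop := fun k C hC hs => ?_
    o_cont := fun k a b => ((T.H_smo a b).2 k).continuousOn
    o_eq := fun k x ⟨hx, b, hb, h⟩ => ?_
    om_psd := fun x _ v => hq_nonneg (T.H_pos _).2.1.posSemidef v }, rfl, rfl, rfl,
    ⟨fun i z hz => S.poi i z hz.1 hz.2.1, fun i z hz => S.h_eq i z hz.1 hz.2.1,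
      fun k O hs hO => ?_, fun k O hs hO v => ?_, fun x hx => ?_⟩,
    ⟨fun x hx y hr => ?_, fun i => ⟨S.s₀ i, fun z => S.m * L.ψ i z, S.sec.1 i,
      continuousOn_const.mul (L.ψ_smooth i).continuousOn,
      fun z hz => S.φ_eq i z hz.1 hz.2.1⟩⟩⟩
  · obtain ⟨u, hu⟩ := (S.h_pos_iff hz.1 hz.2.1).2.1 hz.2.2.1 v
    exact ⟨u, (jac_mulVec _ _ _).symm.trans hu⟩
  · rw [← T.γ_f y (hr.2.1 hx), ← hr.1, T.γ_f x hx]
  · rw [← h, ← h', ← bpd0_g T.toBase hx hb h, ← bpd0_g T.toBase hy hc h', e]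
  · rw [bpd0_set T.toBase hs]
    exact T.f_proper _ (hC.image_of_continuousOn ((T.cont k).mono hs))
  · rw [bpd0_g T.toBase hx hb h, h]
  · refine (bpd0_fub T.toBase hμ hdc hd0 hs hO).trans_le ?_
    simp only [T.int_det, T.c_eq, setLIntegral_const, le_refl]
  · refine (bpd0_fub T.toBase hμ (hac v) (fun x hx =>
      hq_nonneg (adj_psd hx.2.1.posSemidef).transpose v) hs hO).trans_le ?_
    simp only [T.int_adj, ← mul_assoc, T.c_eq, ENNReal.ofReal_mul T.c₀_pos.le]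
    rw [lintegral_const_mul' _ _ ENNReal.ofReal_ne_top]
  · obtain ⟨k, b, hb, h⟩ := T.cover (T.f x)
    have hs := T.s_mem k b hb
    refine ⟨S.Φ (T.s k b), _, cell_of_per (T.lam_bij k b hb) fun τ t => ?_, fun y => ⟨fun hr => ?_,
      fun ⟨τ, e⟩ => ?_⟩, Base.orb_lift hs.1, ?_⟩
    · rw [add_comm, ← S.Φ_add _ hs.1, (T.lam_per k b hb _).2 ⟨t, rfl⟩]
    · obtain ⟨τ, e⟩ := (T.f_eq _ hs y (hr.2.1 hx)).1 ((T.f_s k b hb).trans (h.trans hr.1))
      exact ⟨τ, e.symm⟩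
    · subst e
      exact ⟨by rw [T.f_Φ hs, T.f_s k b hb, h], iff_of_true hx (T.W_inv _ hs τ)⟩
    · rw [(cell_int (T.lam_bij k b hb) _).2, ← T.vol_chart hb]
      refine (congrArg _ (bpd0_fm T.toBase hdc hd0 hb)).trans_le ?_
      rw [T.int_det, ← ENNReal.ofReal_mul (T.vol_pos _).le, T.c_eq]
  · obtain ⟨τ, e⟩ := (T.f_eq x hx y (hr.2.1 hx)).1 hr.1
    rw [e, S.φ_Φ x hx.1]

end Pool.Agent.ZB
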