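import Pool.Agent.K.MP_63735c_ag.C217
import Pool.Agent.K.MP_63735c_ag.C336
import Pool.Agent.K.MP_63735c_ag.C286

/-! The averaged primitive. -/

open scoped ComplexOrder ContDiff Matrix Topology ENNReal
open Set Metric MeasureTheory Filter

namespace Pool.Agent.ZB

open Pool.Agent.BP Pool.Agent.SPF Pool.Agent.AB Pool.Agent.CK Pool.Agent.SE Pool.Agent.NL

variable {N n : ℕ} {X : Type} [TopologicalSpace X] {A : Atlas X N} {K : Form11 A} {L : Line A}
  {S : Sys K L n} {β : A.ι → E N → E N}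

/-- The values of `β` on the Hamiltonian fields. -/
noncomputable def Sys.bv (S : Sys K L n) (β : A.ι → E N → E N) (x : X) : E n :=
  β (A.cover x).choose (A.cover x).choose_spec.choose ᵥ*
    Vf A S.g (A.cover x).choose (A.cover x).choose_spec.choose

theorem Sys.bv_eq (S : Sys K L n) (hβ : Is10 A β) {i : A.ι} {z : E N} (hz : z ∈ (A.C i).W)
    (hU : A.p i z ∈ S.U) : S.bv β (A.p i z) = β i z ᵥ* Vf A S.g i z := by
  obtain ⟨hy, he⟩ := (A.cover (A.p i z)).choose_spec.choose_spec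
  obtain ⟨O, φ, hc, hO, hφ, hp⟩ := A.trans i _ z hz _ hy he.symm
  rw [hβ.2 i _ O φ hc hp z hO, Matrix.vecMul_vecMul, ← (S.Vf_change hc hp hO hU).2, hφ, Sys.bv]

theorem Sys.bv_smooth (S : Sys K L n) (hβ : Is10 A β) {i : A.ι} {z : E N} (hz : z ∈ (A.C i).W)
    (hU : A.p i z ∈ S.U) (l : Fin n) : ContDiffAt ℝ ∞ (fun w => S.bv β (A.p i w) l) z := by
  have he : (fun w => S.bv β (A.p i w) l) =ᶠ[𝓝 z] fun w => ∑ c, β i w c * Vf A S.g i w c l := by
    filter_upwards [S.ev_U hz hU] with w hw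
    rw [S.bv_eq hβ hw.1 hw.2]; rfl
  refine ContDiffAt.congr_of_eventuallyEq (ContDiffAt.sum fun c _ => ContDiffAt.mul ?_
    (smoothAt_of_hol' (S.Vf_smooth hz hU c l).1)) he
  exact contDiffAt_pi.1 ((hβ.1 i).contDiffAt ((A.C i).isOpen.mem_nhds hz)) c

theorem bpb12_d {b : E N → E N} {z : E N} (hb : DifferentiableAt ℝ b z) (U : E N) :
    fderiv ℝ b z U = U ᵥ* (Matrix.of fun a c => dz a (fun w => b w c) z) +
      star U ᵥ* Matrix.of fun a c => dzb a (fun w => b w c) z := by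
  ext c
  have h1 := differentiableAt_pi.1 hb c
  have h2 : fderiv ℝ b z U c = fderiv ℝ (fun w => b w c) z U := by
    rw [fderiv_apply hb c]; rfl
  rw [h2, fderiv_dz h1]
  simp [Matrix.vecMul, dotProduct, Finset.sum_add_distrib, mul_comm]

theorem bpb12_alg (D D' : Mat N) (U Z : E N) :
    ((U ᵥ* D + star U ᵥ* D') ⬝ᵥ Z - (Z ᵥ* D + star Z ᵥ* D') ⬝ᵥ U - Complex.I *
      (((Complex.I • U) ᵥ* D + star (Complex.I • U) ᵥ* D') ⬝ᵥ Z -
        (Z ᵥ* D + star Z ᵥ* D') ⬝ᵥ (Complex.I • U))) / 2 =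
      (U ᵥ* (D - Dᵀ)) ⬝ᵥ Z - (D' *ᵥ U) ⬝ᵥ star Z := by
  have h1 : (Z ᵥ* D) ⬝ᵥ U = (U ᵥ* Dᵀ) ⬝ᵥ Z := by
    rw [Matrix.vecMul_transpose, ← Matrix.dotProduct_mulVec, dotProduct_comm]
  have h2 : (star Z ᵥ* D') ⬝ᵥ U = (D' *ᵥ U) ⬝ᵥ star Z := by
    rw [← Matrix.dotProduct_mulVec, dotProduct_comm]
  simp only [star_smul, Matrix.smul_vecMul, add_dotProduct, smul_dotProduct, dotProduct_smul,
    Matrix.vecMul_sub, sub_dotProduct, h1, h2, smul_eq_mul, Complex.star_def, Complex.conj_I]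
  linear_combination (-((U ᵥ* D) ⬝ᵥ Z) / 2 + ((star U ᵥ* D') ⬝ᵥ Z) / 2 + ((U ᵥ* Dᵀ) ⬝ᵥ Z) / 2 +
    ((D' *ᵥ U) ⬝ᵥ star Z) / 2) * Complex.I_sq

namespace Base

variable {Y : Type} [TopologicalSpace Y] (B : Base S Y)

/-- `F` is a smooth lift of `Θ` near `w`. -/
def Lft (k : B.ι) (w : E n × (Fin N → ℝ)) (j : A.ι) (F : E n × (Fin N → ℝ) → E N) : Prop :=
  ∀ᶠ y in 𝓝 w, ContDiffAt ℝ ∞ F y ∧ F y ∈ (A.C j).W ∧ A.p j (F y) = B.Θ k y.1 y.2

open Classical in
/-- The pull-back of `β`. -/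
noncomputable def pb (β : A.ι → E N → E N) (k : B.ι) (u w : E n × (Fin N → ℝ)) : ℂ :=
  if h : ∃ j F, B.Lft k w j F then
    β h.choose (h.choose_spec.choose w) ⬝ᵥ fderiv ℝ h.choose_spec.choose w u else 0

variable {B} {k : B.ι} {w : E n × (Fin N → ℝ)} {i j : A.ι} {F G : E n × (Fin N → ℝ) → E N}

theorem Lft.uniq (hβ : Is10 A β) (hF : B.Lft k w i F) (hG : B.Lft k w j G) (u : E n × (Fin N → ℝ)) :
    β i (F w) ⬝ᵥ fderiv ℝ F w u = β j (G w) ⬝ᵥ fderiv ℝ G w u := by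
  obtain ⟨f1, f2, f3⟩ := hF.self_of_nhds
  obtain ⟨g1, g2, g3⟩ := hG.self_of_nhds
  obtain ⟨O, φ, hc, hO, hφ, hp⟩ := A.trans i j _ f2 _ g2 (f3.trans g3.symm)
  have he : G =ᶠ[𝓝 w] φ ∘ F := by
    filter_upwards [hF, hG, f1.continuousAt.preimage_mem_nhds (hc.isOpen.mem_nhds hO)]
      with y a b c
    exact S.inj j b.2.1 (hc.maps c) (by rw [Function.comp_apply, hp _ c, a.2.2, b.2.2])
  have hd := (hc.hol.differentiableAt (hc.isOpen.mem_nhds hO)).hasFDerivAt.restrictScalars ℝ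
  rw [he.fderiv_eq, (hd.comp w (f1.differentiableAt (by simp)).hasFDerivAt).fderiv,
    hβ.2 i j O φ hc hp _ hO, hφ, ← Matrix.dotProduct_mulVec, jac_mulVec]
  rfl

theorem Lft.pb_eq (hβ : Is10 A β) (hF : B.Lft k w i F) (u : E n × (Fin N → ℝ)) :
    B.pb β k u =ᶠ[𝓝 w] fun y => β i (F y) ⬝ᵥ fderiv ℝ F y u := by
  filter_upwards [eventually_eventually_nhds.2 hF] with y hy
  have h : ∃ j F, B.Lft k y j F := ⟨i, F, hy⟩
  rw [pb, dif_pos h]
  exact Lft.uniq hβ h.choose_spec.choose_spec hy u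

theorem exists_lft (hw : w.1 ∈ B.W k) : ∃ j F, B.Lft k w j F := by
  obtain ⟨j, F, h⟩ := B.Θ_lift hw w.2
  exact ⟨j, F, h.mono fun y hy => ⟨hy.2.1, hy.2.2.1, hy.2.2.2.1⟩⟩

theorem pb_smooth (hβ : Is10 A β) (hw : w.1 ∈ B.W k) (u : E n × (Fin N → ℝ)) :
    ContDiffAt ℝ ∞ (B.pb β k u) w := by
  obtain ⟨j, F, h⟩ := exists_lft hw
  obtain ⟨f1, f2, -⟩ := h.self_of_nhds
  refine ContDiffAt.congr_of_eventuallyEq ?_ (h.pb_eq hβ u)
  have h1 := ((hβ.1 j).contDiffAt ((A.C j).isOpen.mem_nhds f2)).comp w f1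
  have h2 := (f1.fderiv_right (m := ∞) (by simp)).clm_apply (contDiffAt_const (c := u))
  exact ContDiffAt.sum fun c _ => (contDiffAt_pi.1 h1 c).mul (contDiffAt_pi.1 h2 c)

theorem pb_per (hβ : Is10 A β) {b : E n} (hb : b ∈ B.W k) (u : E n × (Fin N → ℝ)) (t : Fin N → ℝ)
    (q : Fin N → ℤ) : B.pb β k u (b, t + fun j => (q j : ℝ)) = B.pb β k u (b, t) := by
  set c : E n × (Fin N → ℝ) := (0, fun j => (q j : ℝ)) with hc
  have he : (b, t + fun j => (q j : ℝ)) = (b, t) + c := by simp [hc]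
  obtain ⟨j, F, h⟩ := exists_lft (B := B) (k := k) (w := (b, t) + c) (by simpa [hc] using hb)
  have h1 : B.Lft k (b, t) j fun y => F (y + c) := by
    have h2 : Tendsto (fun y => y + c) (𝓝 (b, t)) (𝓝 ((b, t) + c)) :=
      (continuous_add_const c).continuousAt
    filter_upwards [h2.eventually h, continuous_fst.continuousAt.preimage_mem_nhds
      ((B.isOpen k).mem_nhds hb)] with y a e
    refine ⟨a.1.comp y (contDiffAt_id.add contDiffAt_const), a.2.1, ?_⟩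
    rw [a.2.2]
    simpa [hc] using B.Θ_per e y.2 q
  rw [he, (h.pb_eq hβ u).self_of_nhds, (h1.pb_eq hβ u).self_of_nhds]
  simp only [fderiv_comp_add_right]

theorem pb_vert (hβ : Is10 A β) (hw : w.1 ∈ B.W k) (s : Fin N → ℝ) :
    B.pb β k (0, s) w = S.bv β (B.Θ k w.1 w.2) ⬝ᵥ lt (B.lam k w.1) s := by
  obtain ⟨j, F, h⟩ := B.Θ_lift hw w.2
  have hl : B.Lft k w j F := h.mono fun y hy => ⟨hy.2.1, hy.2.2.1, hy.2.2.2.1⟩
  obtain ⟨-, -, f2, f3, f4, -⟩ := Eventually.self_of_nhds (x := w) h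
  rw [(hl.pb_eq hβ _).self_of_nhds]
  simp only
  rw [f4, ← f3, S.bv_eq hβ f2 (f3 ▸ (B.Θ_mem hw w.2).1.1), Matrix.dotProduct_mulVec]

/-- The exterior derivative of the pull-back. -/
noncomputable def df (B : Base S Y) (β : A.ι → E N → E N) (k : B.ι) (v : E n) (s : Fin N → ℝ)
    (w : E n × (Fin N → ℝ)) : ℂ :=
  fderiv ℝ (B.pb β k (0, s)) w (v, 0) - fderiv ℝ (B.pb β k (v, 0)) w (0, s)

theorem df_pt (hβ : Is10 A β) {a : ℝ} (hd : ∀ i, ∀ z ∈ (A.C i).W, ∀ b c,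
      dz b (fun w => β i w c) z - dz c (fun w => β i w b) z = gam K i z b c + a * (A.C i).σ z b c)
    (hw : w.1 ∈ B.W k) {M : Matrix (Fin N) (Fin n) ℂ} (h2 : (B.lam k w.1).map star * M = 0)
    (e c : Fin n) :
    ∑ j, (B.df β k (Pi.single e 1) (Pi.single j 1) w -
      Complex.I * B.df β k (Pi.single e Complex.I) (Pi.single j 1) w) / 2 * M j c =
      a * (B.lam k w.1 * M) e c - (S.m : ℂ)⁻¹ *
        (B.levG (B.dn S.φ) k w.1 * (S.h (B.Θ k w.1 w.2))ᵀ * (B.lam k w.1 * M)) e c := by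
  obtain ⟨i, F, h⟩ := B.Θ_lift hw w.2
  have hl : B.Lft k w i F := h.mono fun y hy => ⟨hy.2.1, hy.2.2.1, hy.2.2.2.1⟩
  obtain ⟨-, f1, f2, f3, f4, f5, f6⟩ := Eventually.self_of_nhds (x := w) h
  have hb := diffAt (A.C i).isOpen (hβ.1 i) f2
  have hW := f3 ▸ B.Θ_mem hw w.2
  set V := Vf A S.g i (F w) with hV
  set J := Jg A S.g i (F w) with hJ
  set U := fderiv ℝ F w (Pi.single e 1, 0) with hU
  set D : Mat N := Matrix.of fun a c => dz a (fun w => β i w c) (F w) with hD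
  set D' : Mat N := Matrix.of fun a c => dzb a (fun w => β i w c) (F w) with hD'
  have hI : (Pi.single e Complex.I : E n) = Complex.I • (Pi.single e 1 : E n) := by
    ext b; simp [Pi.single_apply]
  have hj : ∀ j, (B.df β k (Pi.single e 1) (Pi.single j 1) w -
      Complex.I * B.df β k (Pi.single e Complex.I) (Pi.single j 1) w) / 2 =
      ((U ᵥ* (D - Dᵀ)) ᵥ* (V * B.lam k w.1) - (D' *ᵥ U) ᵥ* (V * B.lam k w.1).map star) j := by
    intro j
    have h3 : V *ᵥ lt (B.lam k w.1) (Pi.single j 1) = fun c => (V * B.lam k w.1) c j := by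
      have : (fun l => ((Pi.single j 1 : Fin N → ℝ) l : ℂ)) = Pi.single j 1 := by
        ext l; simp only [Pi.single_apply]; split_ifs <;> simp
      rw [lt, this, Matrix.mulVec_mulVec, Matrix.mulVec_single_one]; rfl
    simp only [df, (hl.pb_eq hβ _).fderiv_eq, pb_one f1 hb, bpb12_d hb, hI, f5, f4]
    rw [bpb12_alg, h3]; rfl
  have hσ : (A.C i).σ (F w) * V = Jᵀ := by
    rw [hV, Vf, ← Matrix.mul_assoc, Matrix.mul_nonsing_inv _ ((A.C i).σ_det _ f2).isUnit,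
      Matrix.one_mul]
  have hπ : J.map star * ((A.C i).σ (F w))⁻¹.map star = -Vᴴ := by
    have : Vᵀ = -(J * ((A.C i).σ (F w))⁻¹) := by
      have h5 : ((A.C i).σ (F w))⁻¹ᵀ = -((A.C i).σ (F w))⁻¹ := by
        ext x y; exact Chart.π_skew f2 y x
      rw [hV, Vf, Matrix.transpose_mul, Matrix.transpose_transpose, h5, Matrix.mul_neg]
    rw [Matrix.conjTranspose, this]
    ext x y
    simp [Matrix.mul_apply]
  have hm : (S.m : ℂ) ≠ 0 := Nat.cast_ne_zero.2 (by have := S.m_pos; omega)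
  have hη : (A.C i).η (F w) = (S.m : ℂ)⁻¹ • (Jᵀ * B.levG (B.dn S.φ) k w.1 * J.map star) := by
    rw [← B.eta_eq f2 hW.1 hw hW.2, smul_smul, inv_mul_cancel₀ hm, one_smul]
  have h0 : ((A.C i).η (F w))ᵀ * V = 0 := by
    simpa using congrArg Matrix.transpose (S.null i _ f2 hW.1.1)
  have hh : (S.h (B.Θ k w.1 w.2))ᵀ = Vᴴ * (K.h i (F w))ᵀ * V := by
    rw [← f3, S.h_eq i _ f2 hW.1.1, Matrix.transpose_mul, Matrix.transpose_mul,
      Matrix.transpose_transpose, Matrix.mul_assoc]; rfl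
  have hG : (D - Dᵀ) * V = Jᵀ * ((a : ℂ) • (1 : Mat n) - (S.m : ℂ)⁻¹ •
      (B.levG (B.dn S.φ) k w.1 * (S.h (B.Θ k w.1 w.2))ᵀ)) := by
    have : D - Dᵀ = gam K i (F w) + (a : ℂ) • (A.C i).σ (F w) := by
      ext x y; exact hd i _ f2 x y
    rw [this, gam, Matrix.add_mul, Matrix.add_mul, Matrix.smul_mul, hσ, Matrix.mul_assoc _ _ᵀ V,
      Matrix.mul_assoc _ _ᵀ V, h0, hh, hη, Matrix.smul_mul, Matrix.mul_assoc _ (J.map star), hπ]
    simp only [Matrix.mul_sub, Matrix.mul_smul, Matrix.smul_mul, Matrix.mul_neg, Matrix.neg_mul,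
      Matrix.mul_assoc, Matrix.mul_one, Matrix.mul_zero, smul_neg]
    abel
  have h4 : (V * B.lam k w.1).map star * M = 0 := by
    have : (V * B.lam k w.1).map star = V.map star * (B.lam k w.1).map star := by
      ext x y; simp [Matrix.mul_apply]
    rw [this, Matrix.mul_assoc, h2, Matrix.mul_zero]
  simp only [hj]
  change ((_ : E N) ᵥ* M) c = _
  rw [Matrix.sub_vecMul, Matrix.vecMul_vecMul (D' *ᵥ U), h4, Matrix.vecMul_zero, sub_zero,
    Matrix.vecMul_vecMul, Matrix.vecMul_vecMul, Matrix.mul_assoc V, ← Matrix.mul_assoc _ V, hG,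
    Matrix.mul_assoc, ← Matrix.vecMul_vecMul, Matrix.vecMul_transpose, f6,
    Matrix.single_one_vecMul]
  simp [Matrix.sub_mul]

theorem pb_int (hβ : Is10 A β) (k : B.ι) (s : Fin N → ℝ) :
    ContDiffOn ℝ ∞ (fun b => ∫ t in cube N, B.pb β k (0, s) (b, t)) (B.W k) ∧ ∀ b ∈ B.W k, ∀ v,
      IntegrableOn (fun t => B.df β k v s (b, t)) (cube N) ∧
      fderiv ℝ (fun b => ∫ t in cube N, B.pb β k (0, s) (b, t)) b v =
        ∫ t in cube N, B.df β k v s (b, t) := by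
  obtain ⟨h1, h2⟩ := cube_param (B.isOpen k) (u := B.pb β k (0, s))
    fun w hw => (pb_smooth hβ hw.1 _).contDiffWithinAt
  refine ⟨h1, fun b hb v => ?_⟩
  have hc : ∀ u u', IntegrableOn (fun t => fderiv ℝ (B.pb β k u) (b, t) u') (cube N) := fun u u' =>
    cube_int (continuous_iff_continuousAt.2 fun t => (((pb_smooth (w := (b, t)) hβ hb
      u).continuousAt_fderiv (by simp)).comp (f := fun t => (b, t))
        (Continuous.prodMk_right b).continuousAt).clm_apply continuousAt_const)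
  have hs : ∀ t, ContDiffAt ℝ ∞ (B.pb β k (v, 0)) (b, t) := fun t => pb_smooth (w := (b, t)) hβ hb _
  have h3 := cube_deriv (u := fun t => B.pb β k (v, 0) (b, t)) (contDiff_iff_contDiffAt.2 fun t =>
    ((hs t).comp t (contDiffAt_const.prodMk contDiffAt_id)).of_le (by simp)) (pb_per hβ hb _) s
  have h4 : ∀ t, fderiv ℝ (fun t => B.pb β k (v, 0) (b, t)) t s =
      fderiv ℝ (B.pb β k (v, 0)) (b, t) (0, s) := fun t => by
    rw [show (fun t => B.pb β k (v, 0) (b, t)) = B.pb β k (v, 0) ∘ fun t => (b, t) from rfl,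
      (((hs t).differentiableAt (by simp)).hasFDerivAt.comp t (hasFDerivAt_prodMk_right b t)).fderiv]
    rfl
  simp only [h4] at h3
  refine ⟨(hc _ _).sub (hc _ _), ?_⟩
  simp only [df]
  rw [integral_sub (hc _ _) (hc _ _), h3, sub_zero, h2 b hb]

variable [MeasurableSpace X] [BorelSpace X]

/-- The average of `β` on the Hamiltonian fields. -/
noncomputable def av (B : Base S Y) (β : A.ι → E N → E N) (y : Y) : E n :=
  fun l => ∫ x, S.bv β x l ∂B.fm y

theorem av_dot (hβ : Is10 A β) {b : E n} (hb : b ∈ B.W k) (τ : E n) :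
    Integrable (fun x => S.bv β x ⬝ᵥ τ) (B.fm (B.p k b)) ∧
    B.av β (B.p k b) ⬝ᵥ τ = ∫ x, S.bv β x ⬝ᵥ τ ∂B.fm (B.p k b) ∧
      B.av β (B.p k b) ⬝ᵥ τ = ∫ t in cube N, S.bv β (B.Θ k b t) ⬝ᵥ τ := by
  have h1 : ∀ l, ContinuousOn (fun x => S.bv β x l * τ l) S.W := fun l =>
    (bpb0_cont fun i z hz hU => (S.bv_smooth hβ hz hU.1 l).continuousAt).mul continuousOn_const
  have h2 := B.fm_int hb (continuousOn_finsetSum Finset.univ fun l _ => h1 l)
  have h3 : B.av β (B.p k b) ⬝ᵥ τ = ∫ x, S.bv β x ⬝ᵥ τ ∂B.fm (B.p k b) := by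
    simp only [dotProduct, av]
    rw [integral_finsetSum _ fun l _ => (B.fm_int hb (h1 l)).1]
    simp only [integral_mul_const]
  exact ⟨h2.1, h3, h3.trans h2.2⟩

theorem av_smo (hβ : Is10 A β) (l : Fin n) : B.Smo fun y => B.av β y l := fun k => by
  refine (cube_param (B.isOpen k) (B.Θ_smooth (u := fun x => S.bv β x l)
    (fun i z hz hW => S.bv_smooth hβ hz hW.1 l) k)).1.congr fun b hb => ?_
  simpa using (av_dot hβ hb (Pi.single l 1)).2.2

theorem dz_zeta (hβ : Is10 A β) {a : ℝ} (hd : ∀ i, ∀ z ∈ (A.C i).W, ∀ b c,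
      dz b (fun w => β i w c) z - dz c (fun w => β i w b) z = gam K i z b c + a * (A.C i).σ z b c)
    {b : E n} (hb : b ∈ B.W k) (e c : Fin n) :
    dz e (fun w => (B.av β (B.p k w) ᵥ* B.om (B.p k w)) c) b =
      a * B.om (B.p k b) e c - (S.m : ℂ)⁻¹ * B.levG (B.dn S.φ) k b e c := by
  obtain ⟨Q, q1, -, q3⟩ := B.exists_Q k
  have hn := (B.isOpen k).mem_nhds hb
  set P : Fin N → E n → ℂ := fun j b => ∫ t in cube N, B.pb β k (0, Pi.single j 1) (b, t) with hP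
  set M : E n → Matrix (Fin N) (Fin n) ℂ := fun w => Q * (B.lam k w)ᴴ with hM
  have hMe : ∀ j, (fun w => M w j c) = fun w => star (∑ l, star (Q j l) * B.lam k w c l) := by
    intro j; ext w; simp [hM, Matrix.mul_apply]
  have hh : ∀ j, DifferentiableAt ℂ (fun w => ∑ l, star (Q j l) * B.lam k w c l) b := fun j =>
    DifferentiableAt.fun_sum fun l _ => ((B.lam_hol k c l).differentiableAt hn).const_mul _
  have hMd : ∀ j, DifferentiableAt ℝ (fun w => M w j c) b := fun j => by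
    rw [hMe]; exact Complex.conjCLE.differentiableAt.comp b ((hh j).restrictScalars ℝ)
  have hM0 : ∀ j, dz e (fun w => M w j c) b = 0 := fun j => by
    rw [hMe, ← (star_dz _ b e).2, (dz_of_diff (hh j) e).2, star_zero]
  have hPd : ∀ j, DifferentiableAt ℝ (P j) b := fun j => diffAt (B.isOpen k) (pb_int hβ k _).1 hb
  have he : (fun w => (B.av β (B.p k w) ᵥ* B.om (B.p k w)) c) =ᶠ[𝓝 b]
      fun w => ∑ j, P j w * M w j c := by
    filter_upwards [hn] with w hw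
    rw [← (q3 w hw).1, Matrix.mul_assoc, ← Matrix.vecMul_vecMul]
    change ∑ j, (B.av β (B.p k w) ᵥ* B.lam k w) j * M w j c = _
    refine Finset.sum_congr rfl fun j _ => congrArg (· * M w j c) ?_
    have : (fun l => ((Pi.single j 1 : Fin N → ℝ) l : ℂ)) = Pi.single j 1 := by
      ext l; simp only [Pi.single_apply]; split_ifs <;> simp
    simp only [hP, pb_vert (w := (w, _)) hβ hw]
    rw [← (av_dot hβ hw _).2.2, lt, this, Matrix.mulVec_single_one]; rfl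
  have h1 : B.lam k b * M b = B.om (B.p k b) := by rw [hM, ← Matrix.mul_assoc, (q3 b hb).1]
  have h2 : (B.lam k b).map star * M b = 0 := by
    have h3 : (B.lam k b * Q * (B.lam k b)ᵀ).map star =
        (B.lam k b).map star * Q.map star * (B.lam k b)ᴴ := by
      ext x y; simp [Matrix.mul_apply]
    rw [(q3 b hb).2, q1, Matrix.mul_neg, Matrix.neg_mul, Matrix.mul_assoc] at h3
    simpa using h3.symm
  have hi := fun v j => (pb_int hβ k (Pi.single j 1)).2 b hb v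
  have h4 : ∀ j, dz e (P j) b * M b j c = ∫ t in cube N,
      (B.df β k (Pi.single e 1) (Pi.single j 1) (b, t) -
        Complex.I * B.df β k (Pi.single e Complex.I) (Pi.single j 1) (b, t)) / 2 * M b j c := by
    intro j
    rw [integral_mul_const, integral_div, integral_sub (hi _ j).1 ((hi _ j).1.const_mul _),
      integral_const_mul, ← (hi _ j).2, ← (hi _ j).2]; rfl
  rw [(dz_congr he e).self_of_nhds, (dz_sum _ (fun j _ => (hPd j).fun_mul (hMd j)) e).1]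
  simp only [fun j => (dz_mul (hPd j) (hMd j) e).1, hM0, mul_zero, add_zero, h4]
  rw [← integral_finsetSum]
  swap
  · exact fun j _ => (((hi _ j).1.sub ((hi _ j).1.const_mul _)).div_const _).mul_const _
  simp only [df_pt (w := (b, _)) hβ hd hb h2, h1]
  have hc : ∀ x y, IntegrableOn (fun t => S.h (B.Θ k b t) x y) (cube N) := fun x y =>
    cube_int (continuousOn_univ.1 (((S.h_cont x y).comp (B.Θ_cont k) fun w hw =>
      (B.Θ_mem hw.1 w.2).1.1).comp (Continuous.prodMk_right b).continuousOn fun t _ => ⟨hb, trivial⟩))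
  have h5 : ∫ t in cube N, (B.levG (B.dn S.φ) k b * (S.h (B.Θ k b t))ᵀ * B.om (B.p k b)) e c =
      (B.levG (B.dn S.φ) k b * (B.H (B.p k b))ᵀ * B.om (B.p k b)) e c := by
    rw [B.H_chart hb]
    simp only [Matrix.mul_apply, Matrix.transpose_apply, Matrix.of_apply]
    rw [integral_finsetSum _ fun x _ =>
      (integrable_finsetSum _ fun y _ => (hc x y).const_mul _).mul_const _]
    simp only [integral_mul_const, integral_finsetSum _ fun y _ => (hc _ y).const_mul _,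
      integral_const_mul]
  have h6 : IntegrableOn (fun t =>
      (B.levG (B.dn S.φ) k b * (S.h (B.Θ k b t))ᵀ * B.om (B.p k b)) e c) (cube N) := by
    simp only [Matrix.mul_apply, Matrix.transpose_apply]
    exact integrable_finsetSum _ fun x _ =>
      (integrable_finsetSum _ fun y _ => (hc _ y).const_mul _).mul_const _
  rw [integral_sub (cube_int continuous_const) (h6.const_mul _), integral_const_mul _ (fun t => _),
    integral_const_mul, h5, Matrix.mul_assoc, om, ← Matrix.transpose_mul,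
    Matrix.nonsing_inv_mul _ ((Matrix.isUnit_iff_isUnit_det _).1 (B.H_pos _).1.isUnit),
    Matrix.transpose_one, Matrix.mul_one]
  simp [Measure.real, (cube_vol N).2]

theorem zeta_bd [T2Space X] (B : Base S Y) (hβ : Is10 A β)
    (hb : ∃ C : ℝ, ∀ y τ, ∫ x, ‖S.bv β x ⬝ᵥ τ‖ ^ 2 ∂B.fm y ≤ C * hr (B.H y) τ) : ∃ C : ℝ, ∀ y v,
    ‖v ⬝ᵥ star (B.av β y ᵥ* B.om y)‖ ^ 2 ≤ C * hr (B.om y) v := by
  obtain ⟨C, hC⟩ := hb
  refine ⟨C, fun y v => ?_⟩
  obtain ⟨k, b, hb, rfl⟩ := B.cover y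
  have := B.fm_prob (B.p k b)
  set τ := B.om (B.p k b) *ᵥ star v with hτ
  have h1 : v ⬝ᵥ star (B.av β (B.p k b) ᵥ* B.om (B.p k b)) = star (B.av β (B.p k b) ⬝ᵥ τ) := by
    rw [hτ, Matrix.dotProduct_mulVec]
    simp [dotProduct, mul_comm]
  have hs : ContinuousOn (fun x => S.bv β x ⬝ᵥ τ) S.W := continuousOn_finsetSum _ fun l _ =>
    (bpb0_cont fun i z hz hU => (S.bv_smooth hβ hz hU.1 l).continuousAt).mul continuousOn_const
  have i1 := (B.fm_int hb hs.norm).1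
  have i2 : Integrable (fun x => ‖S.bv β x ⬝ᵥ τ‖ ^ 2) _ := (B.fm_int hb (hs.norm.pow 2)).1
  have h2 := hC (B.p k b) τ
  have h4 : C * hr (B.H (B.p k b)) τ = C * hr (B.om (B.p k b)) v := by
    rw [om, ← (dual_norm (B.H_pos _).1 v v).2.2.1]
    rfl
  have h5 : (∫ x, ‖S.bv β x ⬝ᵥ τ‖ ∂B.fm (B.p k b)) ^ 2 ≤
      ∫ x, ‖S.bv β x ⬝ᵥ τ‖ ^ 2 ∂B.fm (B.p k b) :=
    (convexOn_pow (𝕜 := ℝ) 2).map_integral_le (continuousOn_pow 2) isClosed_Ici
      (.of_forall fun _ => norm_nonneg _) i1 i2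
  rw [h1, norm_star, (av_dot hβ hb τ).2.1, ← h4]
  exact (pow_le_pow_left₀ (norm_nonneg _) (norm_integral_le_integral_norm _) 2).trans (h5.trans h2)

end Base

theorem Kit.exists_xi [T2Space X] [MeasurableSpace X] [BorelSpace X] {μ : Measure X}
    {S : Sys K L n} {Y : Type} [TopologicalSpace Y] [MeasurableSpace Y] (T : Kit S μ Y) {a : ℝ}
    (ha : 0 < a) (hβ : Is10 A β) (hd : ∀ i, ∀ z ∈ (A.C i).W, ∀ b c,
      dz b (fun w => β i w c) z - dz c (fun w => β i w b) z = gam K i z b c + a * (A.C i).σ z b c)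
    (hb : ∃ C : ℝ, ∀ y τ, ∫ x, ‖S.bv β x ⬝ᵥ τ‖ ^ 2 ∂T.fm y ≤ C * hr (T.H y) τ) :
    ∃ (ξ : Y → E n) (C : ℝ), T.D.Xi ξ a (S.m : ℝ)⁻¹ C := by
  obtain ⟨C, hC⟩ := T.toBase.zeta_bd hβ hb
  refine ⟨fun y => star (T.av β y ᵥ* T.om y), C, ha, fun k => contDiffOn_pi.2 fun c => ?_,
    fun k z hz c e => ?_, hC⟩
  · have : ContDiffOn ℝ ∞ (fun z => ∑ l, T.av β (T.p k z) l * T.om (T.p k z) l c) (T.W k) :=
      ContDiffOn.sum fun l _ => (Base.av_smo hβ l k).mul ((T.H_smo l c).2 k)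
    exact Complex.conjCLE.contDiff.comp_contDiffOn this
  · have h1 := (T.H_pos (T.p k z)).2.1.1.apply c e
    have h3 := (lev_herm ((T.φ_smo k).contDiffAt ((T.isOpen k).mem_nhds hz))).apply c e
    refine ((star_dz _ z e).1.symm.trans (congrArg star (Base.dz_zeta hβ hd hz e c))).trans ?_
    rw [star_sub, star_mul', star_mul', h1]
    change _ - _ * star (lev _ _ _ _) = _
    rw [h3]
    simp [Kit.D, Man.levG]

end Pool.Agent.ZB
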