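import Pool.Agent.K.MP_63735c_ag.C338
import Pool.Agent.K.MP_63735c_ag.C336

-- part Pool.Agent.P.MP_63735c_ag.BPB9
section

/-! Compactness of the superlevel sets. -/

open scoped ComplexOrder ContDiff Matrix Topology ENNReal
open Set Metric MeasureTheory Filter

namespace Pool.Agent.BP

open Pool.Agent.SPF Pool.Agent.AB Pool.Agent.CK Pool.Agent.SE Pool.Agent.NL

variable {N n : ℕ} {X : Type} [TopologicalSpace X] {A : Atlas X N} {K : Form11 A} {L : Line A}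

/-- `lt l` as a real linear map. -/
noncomputable def bpb9_lin (l : Matrix (Fin n) (Fin N) ℂ) : (Fin N → ℝ) →ₗ[ℝ] E n where
  toFun := lt l
  map_add' s t := by
    rw [lt, lt, lt, ← Matrix.mulVec_add]
    congr 1
    funext j
    simp
  map_smul' a t := by
    have : (fun j => (((a • t) j : ℝ) : ℂ)) = (a : ℂ) • fun j => (t j : ℂ) := by
      funext j
      simp
    rw [lt, lt, this, Matrix.mulVec_smul]
    rfl

lemma bpb9_sub (l : Matrix (Fin n) (Fin N) ℂ) (s t : Fin N → ℤ) :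
    (lt l fun j => ((s - t) j : ℝ)) = (lt l fun j => (s j : ℝ)) - lt l fun j => (t j : ℝ) := by
  have := (bpb9_lin l).map_sub (fun j => (s j : ℝ)) fun j => (t j : ℝ)
  refine Eq.trans ?_ this
  change lt l _ = lt l _
  congr 1
  funext j
  simp

lemma bpb9_zero (l : Matrix (Fin n) (Fin N) ℂ) :
    (lt l fun j => ((0 : Fin N → ℤ) j : ℝ)) = 0 := by
  refine Eq.trans ?_ (bpb9_lin l).map_zero
  change lt l _ = lt l _
  congr 1
  funext j
  simp

lemma bpb9_blich {l : Matrix (Fin n) (Fin N) ℂ} (hl : Function.Bijective (lt l))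
    {S : Set (E n)} (hS : MeasurableSet S) (h : ENNReal.ofReal (cov l) < volume S) :
    ∃ x ∈ S, ∃ y ∈ S, ∃ t : Fin N → ℤ, t ≠ 0 ∧ x - y = lt l fun j => (t j : ℝ) := by
  let e : (Fin N → ℝ) ≃ₗ[ℝ] E n := LinearEquiv.ofBijective (bpb9_lin l) hl
  let b := (Pi.basisFun ℝ (Fin N)).map e
  have hF : ZSpan.fundamentalDomain b = lt l '' cube N := by
    rw [← ZSpan.map_fundamentalDomain, ZSpan.fundamentalDomain_pi_basisFun]
    rfl
  have hfin : volume (lt l '' cube N) ≠ ⊤ := by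
    rw [← hF]
    exact (ZSpan.fundamentalDomain_isBounded b).measure_lt_top.ne
  rw [cov, Measure.real, ENNReal.ofReal_toReal hfin, ← hF] at h
  have : Countable (Submodule.span ℤ (range b)).toAddSubgroup :=
    inferInstanceAs (Countable (Submodule.span ℤ (range b)))
  obtain ⟨x, y, hne, hd⟩ := exists_pair_mem_lattice_not_disjoint_vadd
    (ZSpan.isAddFundamentalDomain' b volume) hS.nullMeasurableSet h
  obtain ⟨_, ⟨v, hv, rfl⟩, w, hw, hvw⟩ := not_disjoint_iff.1 hd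
  have h1 : (y : E n) + w = x + v := hvw
  obtain ⟨t, ht⟩ := (Submodule.mem_span_range_iff_exists_fun ℤ).1 (x - y).2
  have h2 : (lt l fun j => (t j : ℝ)) = (x : E n) - y := by
    change e _ = _
    rw [← show ∑ i, t i • b i = (x : E n) - y from ht, ← (Pi.basisFun ℝ (Fin N)).sum_repr
      (fun j => (t j : ℝ)), map_sum]
    refine Finset.sum_congr rfl fun i _ => ?_
    rw [map_smul, Module.Basis.map_apply, ← Int.cast_smul_eq_zsmul ℝ]
    rfl
  refine ⟨w, hw, v, hv, t, fun h0 => hne (Subtype.ext (sub_eq_zero.1 ?_)), ?_⟩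
  · rw [← show ∑ i, t i • b i = (x : E n) - y from ht, h0]
    simp
  · rw [h2]
    linear_combination h1

theorem cover_rad (n : ℕ) (hn : 1 ≤ n) {r : ℝ} (h0 : 0 < r) (c : ℝ) : ∃ R : ℝ,
    ∀ (N : ℕ) (l : Matrix (Fin n) (Fin N) ℂ), Function.Bijective (lt l) → cov l ≤ c →
      (∀ t : Fin N → ℤ, ‖lt l fun j => (t j : ℝ)‖ < 2 * r → t = 0) →
      ∀ τ, ∃ t : Fin N → ℤ, ‖τ - lt l fun j => (t j : ℝ)‖ ≤ R := by
  have hv : 0 < volume (ball (0 : E n) r) := measure_ball_pos _ _ h0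
  obtain ⟨m, hm⟩ := ENNReal.exists_nat_mul_gt hv.ne' (ENNReal.ofReal_ne_top (r := c))
  refine ⟨2 * r * m, fun N l hl hc hs τ => ?_⟩
  by_contra! hτ
  set Λ := range fun t : Fin N → ℤ => lt l fun j => (t j : ℝ)
  have hne : Λ.Nonempty := range_nonempty _
  have hle : ∀ x y (t : Fin N → ℤ), (x - y = lt l fun j => (t j : ℝ)) →
      infDist y Λ ≤ infDist x Λ := fun x y t h => (le_infDist hne).2 (by
    rintro _ ⟨s, rfl⟩
    refine (infDist_le_dist_of_mem (s := Λ) ⟨s - t, rfl⟩).trans_eq ?_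
    dsimp only
    rw [dist_eq_norm, dist_eq_norm, bpb9_sub, ← h]
    congr 1
    abel)
  have hx : ∀ k : ℕ, ∃ x : E n, k < m → infDist x Λ = 2 * r * k := fun k => by
    by_cases hk : k < m
    · have h1 : infDist (0 : E n) Λ ≤ 2 * r * k := by
        rw [infDist_zero_of_mem (s := Λ) ⟨0, bpb9_zero l⟩]
        positivity
      have h2 : 2 * r * k ≤ infDist τ Λ := (le_infDist hne).2 (by
        rintro _ ⟨s, rfl⟩
        have : (k : ℝ) ≤ m := by exact_mod_cast hk.le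
        rw [dist_eq_norm]
        nlinarith [hτ s])
      obtain ⟨x, hx⟩ := intermediate_value_univ 0 τ (continuous_infDist_pt Λ) ⟨h1, h2⟩
      exact ⟨x, fun _ => hx⟩
    · exact ⟨0, fun h => (hk h).elim⟩
  choose x hx using hx
  have key : ∀ k < m, ∀ j < m, ∀ y ∈ ball (x k) r, ∀ z ∈ ball (x j) r,
      infDist y Λ ≤ infDist z Λ → k ≤ j := fun k hk j hj y hy z hz h => by
    have h1 := infDist_le_infDist_add_dist (x := x k) (y := y) (s := Λ)
    have h2 := infDist_le_infDist_add_dist (x := z) (y := x j) (s := Λ)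
    rw [hx k hk, dist_comm] at h1
    rw [hx j hj] at h2
    have h3 : (k : ℝ) < j + 1 := by
      by_contra! h4
      nlinarith [mem_ball.1 hy, mem_ball.1 hz]
    exact Nat.lt_succ_iff.1 (by exact_mod_cast h3)
  have hvol : volume (⋃ k ∈ Finset.range m, ball (x k) r) = m * volume (ball (0 : E n) r) := by
    rw [measure_biUnion_finset _ fun _ _ => measurableSet_ball]
    · simp [Measure.addHaar_ball_center]
    · intro k hk j hj hkj
      have hk' := Finset.mem_range.1 hk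
      have hj' := Finset.mem_range.1 hj
      exact disjoint_left.2 fun y hy hy' => hkj
        (le_antisymm (key k hk' j hj' y hy y hy' le_rfl) (key j hj' k hk' y hy' y hy le_rfl))
  obtain ⟨y, hy, z, hz, t, ht, he⟩ := bpb9_blich hl
    (Finset.measurableSet_biUnion (Finset.range m) fun k _ => measurableSet_ball (x := x k) (ε := r))
    ((ENNReal.ofReal_le_ofReal hc).trans_lt (hvol ▸ hm))
  obtain ⟨k, hk, hy⟩ := mem_iUnion₂.1 hy
  obtain ⟨j, hj, hz⟩ := mem_iUnion₂.1 hz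
  have hk' := Finset.mem_range.1 hk
  have hj' := Finset.mem_range.1 hj
  have he' : z - y = lt l fun j => ((0 - t : Fin N → ℤ) j : ℝ) := by
    rw [bpb9_sub, ← he, bpb9_zero]
    abel
  obtain rfl := le_antisymm (key k hk' j hj' y hy z hz (hle z y _ he'))
    (key j hj' k hk' z hz y hy (hle y z t he))
  refine ht (hs t ?_)
  rw [← he, ← dist_eq_norm]
  linarith [dist_triangle_right y z (x k), mem_ball.1 hy, mem_ball.1 hz]

lemma bpb9_span {P : Set (E n)} {R : ℝ} (h : ∀ τ, ∃ p ∈ P, ‖τ - p‖ ≤ R) :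
    Submodule.span ℝ P = ⊤ := by
  refine eq_top_iff.2 fun τ _ => ?_
  refine (Submodule.span ℝ P).closed_of_finiteDimensional.closure_subset
    (Metric.mem_closure_iff.2 fun ε hε => ?_)
  have hR : 0 < (|R| + 1) / ε := by positivity
  obtain ⟨p, hp, hd⟩ := h (((|R| + 1) / ε) • τ)
  refine ⟨((|R| + 1) / ε)⁻¹ • p, Submodule.smul_mem _ _ (Submodule.subset_span hp), ?_⟩
  have he : τ - ((|R| + 1) / ε)⁻¹ • p = ((|R| + 1) / ε)⁻¹ • (((|R| + 1) / ε) • τ - p) := by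
    rw [smul_sub, inv_smul_smul₀ hR.ne']
  rw [dist_eq_norm, he, norm_smul, Real.norm_of_nonneg (inv_pos.2 hR).le, inv_mul_lt_iff₀ hR,
    div_mul_cancel₀ _ hε.ne']
  linarith [le_abs_self R]

lemma bpb9_det (S : Sys K L n) : ContinuousOn (fun x => (S.h x).det.re) S.U :=
  Complex.continuous_re.comp_continuousOn (continuous_id.matrix_det.comp_continuousOn
    (continuousOn_pi.2 fun a => continuousOn_pi.2 fun b => S.h_cont a b))

variable {S : Sys K L n} {Y : Type} [TopologicalSpace Y] (B : Base S Y) [T2Space X]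
  [MeasurableSpace X] [BorelSpace X]

theorem Base.cpt_sup (a c : ℝ) {δ : ℝ} (hδ : 0 < δ) :
    ∃ C, IsCompact C ∧ C ⊆ S.W ∧ ∀ x ∈ S.W, S.φ x ≤ a → δ ≤ (B.H (B.f x)).det.re →
      B.vol (B.f x) ≤ c → x ∈ C := by
  set K₁ := {x | x ∈ S.U ∧ S.φ x ≤ a} ∩ (fun x => (S.h x).det.re) ⁻¹' Ici δ
  have hK₁ : IsCompact K₁ := (S.φ_cpt a).of_isClosed_subset
    (((bpb9_det S).mono fun x hx => hx.1).preimage_isClosed_of_isClosed (S.φ_cpt a).isClosed
      isClosed_Ici) inter_subset_left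
  have hpos : ∀ x ∈ K₁, (S.h x).PosDef := fun x hx =>
    (S.h_psd hx.1.1).posDef_iff_det_ne_zero.2 fun h0 => by
      have h1 : δ ≤ (S.h x).det.re := hx.2
      rw [h0, Complex.zero_re] at h1
      linarith
  have hev : ∀ᶠ ρ in 𝓝 (0 : ℝ), ∀ y ∈ K₁, ∀ τ, S.Φ y τ = y → ‖τ‖ < 2 * ρ → τ = 0 := by
    refine hK₁.eventually_forall_of_forall_eventually fun y hy => ?_
    obtain ⟨r, hr, h⟩ := Sys.no_short hy.1.1 (hpos y hy)
    filter_upwards [prod_mem_nhds (Iio_mem_nhds hr) h] with z hz τ h1 h2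
    exact hz.2.2.2 τ h1 (by linarith [show z.1 < r from hz.1])
  obtain ⟨r, hs, hr⟩ := ((hev.filter_mono nhdsWithin_le_nhds).and
    (self_mem_nhdsWithin (s := Ioi (0 : ℝ)))).exists
  obtain ⟨R, hR⟩ := cover_rad n S.n_pos hr c
  have hc : ∀ T : Set (E n), ContinuousOn (fun w : X × E n => S.Φ w.1 w.2) (K₁ ×ˢ T) := fun T =>
    S.Φ_cont.mono (prod_mono (fun x hx => hx.1.1) (subset_univ _))
  set K₂ := K₁ ∩ ⋂ τ, Prod.fst '' {w ∈ K₁ ×ˢ closedBall τ R | S.Φ w.1 w.2 = w.1}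
  have hK₂ : IsCompact K₂ := hK₁.inter_right (isClosed_iInter fun τ => by
    have h1 := hK₁.prod (isCompact_closedBall τ R)
    exact ((h1.of_isClosed_subset (h1.isClosed.isClosed_eq (hc _) continuousOn_fst)
      (sep_subset _ _)).image continuous_fst).isClosed)
  refine ⟨_, (hK₂.prod (isCompact_closedBall (0 : E n) R)).image_of_continuousOn
    ((hc _).mono (prod_mono inter_subset_left subset_rfl)), ?_, fun x hx h1 h2 h3 => ?_⟩
  · rintro _ ⟨⟨y, τ⟩, ⟨hy, -⟩, rfl⟩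
    refine S.W_Φ ⟨hy.1.1.1, hpos y hy.1, bpb9_span (R := R) fun τ' => ?_⟩ τ
    obtain ⟨w, hw, rfl⟩ := mem_iInter.1 hy.2 τ'
    exact ⟨w.2, hw.2, by rw [← dist_eq_norm, dist_comm]; exact hw.1.2⟩
  obtain ⟨hb, hp⟩ := B.ch_spec (B.f x)
  have hi := (B.fm_int hb ((bpb9_det S).mono fun x hx => hx.1)).1
  rw [hp] at hi
  have := B.fm_prob (B.f x)
  obtain ⟨y, hy, hd⟩ := exists_notMem_null_integral_le hi (B.fm_ae (B.f x))
  have hy : y ∈ B.fib (B.f x) := not_not.1 hy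
  rw [B.int_det] at hd
  obtain ⟨τ, hτ⟩ := (B.f_eq y hy.1 x hx).1 hy.2
  obtain ⟨τ₀, hτ₀⟩ := (B.f_eq _ (B.s_mem _ _ hb) y hy.1).1
    ((B.f_s _ _ hb).trans (hp.trans hy.2.symm))
  have hyK : y ∈ K₁ := ⟨⟨hy.1.1, by rw [← S.φ_Φ y hy.1.1 τ, ← hτ]; exact h1⟩, h2.trans hd⟩
  have hper : ∀ t : Fin N → ℤ,
      S.Φ y (lt (B.lam (B.ch (B.f x)) (B.γ (B.f x))) fun j => (t j : ℝ)) = y := fun t => by
    rw [hτ₀, S.per_Φ (B.s_mem _ _ hb).1]
    exact (B.lam_per _ _ hb _).2 ⟨t, rfl⟩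
  have hcov := hR N _ (B.lam_bij _ _ hb) h3 fun t ht => by
    have h4 := hs y hyK _ (hper t) ht
    rw [← bpb9_zero (B.lam (B.ch (B.f x)) (B.γ (B.f x)))] at h4
    funext j
    exact_mod_cast congrFun ((B.lam_bij _ _ hb).1 h4) j
  obtain ⟨t, ht⟩ := hcov τ
  refine ⟨(y, τ - _), ⟨⟨hyK, mem_iInter.2 fun τ' => ?_⟩, mem_closedBall_zero_iff.2 ht⟩, ?_⟩
  · obtain ⟨s, hs⟩ := hcov τ'
    exact ⟨(y, _), ⟨⟨hyK, by rw [mem_closedBall, dist_comm, dist_eq_norm]; exact hs⟩, hper s⟩, rfl⟩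
  · change S.Φ y _ = x
    conv_lhs => rw [← hper t, S.Φ_add y hy.1.1, add_sub_cancel, ← hτ]

end Pool.Agent.BP
end

-- part Pool.Agent.P.MP_63735c_ag.ZBB9
section

/-! Compactness of the superlevel sets. -/

open scoped ComplexOrder ContDiff Matrix Topology ENNReal
open Set Metric MeasureTheory Filter

namespace Pool.Agent.ZB

open Pool.Agent.BP Pool.Agent.SPF Pool.Agent.AB Pool.Agent.CK Pool.Agent.SE Pool.Agent.NL

variable {N n : ℕ} {X : Type} [TopologicalSpace X] {A : Atlas X N} {K : Form11 A} {L : Line A}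

lemma bpb9_det (S : Sys K L n) : ContinuousOn (fun x => (S.h x).det.re) S.U :=
  Complex.continuous_re.comp_continuousOn (continuous_id.matrix_det.comp_continuousOn
    (continuousOn_pi.2 fun a => continuousOn_pi.2 fun b => S.h_cont a b))

variable {S : Sys K L n} {Y : Type} [TopologicalSpace Y] (B : Base S Y) [T2Space X]
  [MeasurableSpace X] [BorelSpace X]

theorem Base.cpt_sup [hB : S.Bd] (a c : ℝ) {δ : ℝ} (hδ : 0 < δ) :
    ∃ C, IsCompact C ∧ C ⊆ S.W ∧ ∀ x ∈ S.W, S.φ x ≤ a → δ ≤ (B.H (B.f x)).det.re →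
      B.vol (B.f x) ≤ c → x ∈ C := by
  set K₁ := {x | x ∈ S.U ∧ S.φ x ≤ a} ∩ (fun x => (S.h x).det.re) ⁻¹' Ici δ
  have hK₁ : IsCompact K₁ := by
    convert hB.reg_cpt a δ hδ using 1
    exact Set.ext fun x => and_assoc
  have hpos : ∀ x ∈ K₁, (S.h x).PosDef := fun x hx =>
    (S.h_psd hx.1.1).posDef_iff_det_ne_zero.2 fun h0 => by
      have h1 : δ ≤ (S.h x).det.re := hx.2
      rw [h0, Complex.zero_re] at h1
      linarith
  have hev : ∀ᶠ ρ in 𝓝 (0 : ℝ), ∀ y ∈ K₁, ∀ τ, S.Φ y τ = y → ‖τ‖ < 2 * ρ → τ = 0 := by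
    refine hK₁.eventually_forall_of_forall_eventually fun y hy => ?_
    obtain ⟨r, hr, h⟩ := Sys.no_short hy.1.1 (hpos y hy)
    filter_upwards [prod_mem_nhds (Iio_mem_nhds hr) h] with z hz τ h1 h2
    exact hz.2.2.2 τ h1 (by linarith [show z.1 < r from hz.1])
  obtain ⟨r, hs, hr⟩ := ((hev.filter_mono nhdsWithin_le_nhds).and
    (self_mem_nhdsWithin (s := Ioi (0 : ℝ)))).exists
  obtain ⟨R, hR⟩ := cover_rad n S.n_pos hr c
  have hc : ∀ T : Set (E n), ContinuousOn (fun w : X × E n => S.Φ w.1 w.2) (K₁ ×ˢ T) := fun T =>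
    S.Φ_cont.mono (prod_mono (fun x hx => hx.1.1) (subset_univ _))
  set K₂ := K₁ ∩ ⋂ τ, Prod.fst '' {w ∈ K₁ ×ˢ closedBall τ R | S.Φ w.1 w.2 = w.1}
  have hK₂ : IsCompact K₂ := hK₁.inter_right (isClosed_iInter fun τ => by
    have h1 := hK₁.prod (isCompact_closedBall τ R)
    exact ((h1.of_isClosed_subset (h1.isClosed.isClosed_eq (hc _) continuousOn_fst)
      (sep_subset _ _)).image continuous_fst).isClosed)
  refine ⟨_, (hK₂.prod (isCompact_closedBall (0 : E n) R)).image_of_continuousOn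
    ((hc _).mono (prod_mono inter_subset_left subset_rfl)), ?_, fun x hx h1 h2 h3 => ?_⟩
  · rintro _ ⟨⟨y, τ⟩, ⟨hy, -⟩, rfl⟩
    refine S.W_Φ ⟨hy.1.1.1, hpos y hy.1, bpb9_span (R := R) fun τ' => ?_⟩ τ
    obtain ⟨w, hw, rfl⟩ := mem_iInter.1 hy.2 τ'
    exact ⟨w.2, hw.2, by rw [← dist_eq_norm, dist_comm]; exact hw.1.2⟩
  obtain ⟨hb, hp⟩ := B.ch_spec (B.f x)
  have hi := (B.fm_int hb ((bpb9_det S).mono fun x hx => hx.1)).1
  rw [hp] at hi
  have := B.fm_prob (B.f x)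
  obtain ⟨y, hy, hd⟩ := exists_notMem_null_integral_le hi (B.fm_ae (B.f x))
  have hy : y ∈ B.fib (B.f x) := not_not.1 hy
  rw [B.int_det] at hd
  obtain ⟨τ, hτ⟩ := (B.f_eq y hy.1 x hx).1 hy.2
  obtain ⟨τ₀, hτ₀⟩ := (B.f_eq _ (B.s_mem _ _ hb) y hy.1).1
    ((B.f_s _ _ hb).trans (hp.trans hy.2.symm))
  have hyK : y ∈ K₁ := ⟨⟨hy.1.1, by rw [← S.φ_Φ y hy.1.1 τ, ← hτ]; exact h1⟩, h2.trans hd⟩
  have hper : ∀ t : Fin N → ℤ,
      S.Φ y (lt (B.lam (B.ch (B.f x)) (B.γ (B.f x))) fun j => (t j : ℝ)) = y := fun t => by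
    rw [hτ₀, S.per_Φ (B.s_mem _ _ hb).1]
    exact (B.lam_per _ _ hb _).2 ⟨t, rfl⟩
  have hcov := hR N _ (B.lam_bij _ _ hb) h3 fun t ht => by
    have h4 := hs y hyK _ (hper t) ht
    rw [← bpb9_zero (B.lam (B.ch (B.f x)) (B.γ (B.f x)))] at h4
    funext j
    exact_mod_cast congrFun ((B.lam_bij _ _ hb).1 h4) j
  obtain ⟨t, ht⟩ := hcov τ
  refine ⟨(y, τ - _), ⟨⟨hyK, mem_iInter.2 fun τ' => ?_⟩, mem_closedBall_zero_iff.2 ht⟩, ?_⟩
  · obtain ⟨s, hs⟩ := hcov τ'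
    exact ⟨(y, _), ⟨⟨hyK, by rw [mem_closedBall, dist_comm, dist_eq_norm]; exact hs⟩, hper s⟩, rfl⟩
  · change S.Φ y _ = x
    conv_lhs => rw [← hper t, S.Φ_add y hy.1.1, add_sub_cancel, ← hτ]

end Pool.Agent.ZB
end
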