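import Pool.Agent.K.MP_63735c_ag.C339
import Pool.Agent.K.MP_63735c_ag.C286
import Pool.Agent.K.MP_63735c_ag.C332
import Pool.Agent.K.MP_63735c_ag.C340
import Pool.Agent.K.MP_63735c_ag.C213

/-! The exhaustion function and the full structure on the base. -/

open scoped ComplexOrder ContDiff Matrix Topology ENNReal
open Set Metric MeasureTheory Filter

namespace Pool.Agent.ZB

open Pool.Agent.BP Pool.Agent.SPF Pool.Agent.AB Pool.Agent.CK Pool.Agent.SE Pool.Agent.NL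

variable {N n : ℕ} {X : Type} [TopologicalSpace X] {A : Atlas X N} {K : Form11 A} {L : Line A}

theorem bpb10_det {H : Mat n} (hH : H.PosSemidef) {l : ℝ} (h0 : 0 ≤ l)
    (hl : ∀ τ, hr H τ ≤ l * ‖τ‖ ^ 2) : H.det.re ≤ l ^ n := by
  have h1 : ∀ i, hH.1.eigenvalues i ≤ l := fun i => by
    have h2 := hl (star ⇑(hH.1.eigenvectorBasis i))
    have h3 : ‖star ⇑(hH.1.eigenvectorBasis i)‖ ≤ 1 := by
      rw [norm_star]
      refine (pi_norm_le_iff_of_nonneg zero_le_one).2 fun a => ?_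
      exact (PiLp.norm_apply_le (hH.1.eigenvectorBasis i) a).trans
        (hH.1.eigenvectorBasis.orthonormal.1 i).le
    rw [hH.1.eigenvalues_eq]
    simp only [hr, hq, star_star] at h2
    exact le_trans h2 (mul_le_of_le_one_right h0 (pow_le_one₀ (norm_nonneg _) h3))
  have h4 : H.det = ((∏ i, hH.1.eigenvalues i : ℝ) : ℂ) := by
    rw [hH.1.det_eq_prod_eigenvalues, Complex.ofReal_prod]
    rfl
  rw [h4, Complex.ofReal_re]
  calc ∏ i, hH.1.eigenvalues i ≤ ∏ _i : Fin n, l :=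
        Finset.prod_le_prod (fun i _ => hH.eigenvalues_nonneg i) fun i _ => h1 i
    _ = l ^ n := by simp

namespace Base

variable {S : Sys K L n} {Y : Type} [TopologicalSpace Y] (B : Base S Y)

theorem bpb10_φ {x : X} (hx : x ∈ S.W) : B.dn S.φ (B.f x) = S.φ x :=
  B.dn_f (fun x hx τ => S.φ_Φ x hx.1 τ) hx

theorem bpb10_surj (y : Y) : ∃ x ∈ S.W, B.f x = y := by
  obtain ⟨k, b, hb, rfl⟩ := B.cover y
  exact ⟨_, B.s_mem k b hb, B.f_s k b hb⟩

theorem bpb10_cont {u : Y → ℝ} (hu : B.Smo u) : Continuous u := by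
  rw [← continuousOn_univ, ← B.M_eq]
  exact Man.contOn fun k => (hu k).continuousOn

variable [MeasurableSpace X] [BorelSpace X]

theorem bpb10_pos (y : Y) : 0 < (B.H y).det.re := (Complex.pos_iff.1 (B.H_pos y).1.det_pos).1

theorem bpb10_smo : B.Smo fun y => Real.log (B.H y).det.re := fun k =>
  (Complex.reCLM.contDiff.comp_contDiffOn (abcal_det fun a c => (B.H_smo a c).1 k)).log
    fun _ _ => (B.bpb10_pos _).ne'

theorem bpb10_psh {k : B.ι} {b : E n} (hb : b ∈ B.W k) (v : E n) :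
    0 ≤ hr (B.levG (fun y => Real.log (B.H y).det.re) k b) v := by
  have h1 := B.om_ric hb v
  have h2 : (fun c => Real.log (B.om (B.p k c)).det.re) =
      fun c => (-1 : ℝ) * Real.log (B.H (B.p k c)).det.re := by
    funext c
    rw [eq_inv_of_mul_eq_one_left (B.H_pos (B.p k c)).2.2, Real.log_inv, neg_one_mul]
  rw [h2, lev_smul ((B.bpb10_smo k).contDiffAt ((B.isOpen k).mem_nhds hb)), hr, hq_smul,
    Complex.re_ofReal_mul] at h1
  unfold Man.levG hr
  linarith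

theorem bpb10_le [hB : S.Bd] [T2Space X] :
    ∃ c : ℝ, ∀ y, Real.log (B.H y).det.re ≤ c + 2 * n * B.dn S.φ y := by
  obtain ⟨C, hC⟩ := hB.h_le
  have h0 : 0 < max C 1 := lt_max_of_lt_right one_pos
  refine ⟨n * Real.log (max C 1), fun y => ?_⟩
  have h1 : (B.H y).det.re ≤ (max C 1 * Real.exp (2 * B.dn S.φ y)) ^ n := by
    refine bpb10_det (B.H_pos y).1.posSemidef (by positivity) fun τ => ?_
    have := B.fm_prob y
    rw [hr, B.hq_H]
    refine (Complex.re_le_norm _).trans ((norm_integral_le_of_norm_le_const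
      (C := max C 1 * Real.exp (2 * B.dn S.φ y) * ‖τ‖ ^ 2) ?_).trans (by simp))
    filter_upwards [B.fm_ae y] with x hx
    have h2 := (S.h_psd hx.1.1).dotProduct_mulVec_nonneg (star τ)
    rw [star_star] at h2
    have h3 : B.dn S.φ y = S.φ x := by
      rw [← B.bpb10_φ hx.1, show B.f x = y from hx.2]
    rw [h3, hq, ← Complex.re_eq_norm.2 h2]
    refine (hC x hx.1.1 τ).trans ?_
    gcongr
    exact le_max_left _ _
  refine (Real.log_le_log (B.bpb10_pos y) h1).trans_eq ?_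
  rw [Real.log_pow, Real.log_mul h0.ne' (Real.exp_pos _).ne', Real.log_exp]
  ring

/-- The exhaustion function. -/
noncomputable def bpb10_ψ (c : ℝ) (y : Y) : ℝ :=
  Real.log (B.H y).det.re + (-(2 * n + 1) * B.dn S.φ y + c)

theorem bpb10_ψ_smo (c : ℝ) : B.Smo (B.bpb10_ψ c) := fun k =>
  (B.bpb10_smo k).add ((contDiffOn_const.mul (B.φ_smo k)).add contDiffOn_const)

theorem bpb10_ψ_psh (c : ℝ) {k : B.ι} {b : E n} (hb : b ∈ B.W k) (v : E n) :
    -((2 * n + 1) * hr (B.levG (B.dn S.φ) k b) v) ≤ hr (B.levG (B.bpb10_ψ c) k b) v := by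
  have hn := (B.isOpen k).mem_nhds hb
  have h1 := (B.bpb10_smo k).contDiffAt hn
  have h2 := (B.φ_smo k).contDiffAt hn
  have h3 := B.bpb10_psh hb v
  unfold Man.levG hr bpb10_ψ at *
  rw [lev_add h1 ((contDiffAt_const.mul h2).add contDiffAt_const),
    lev_add (contDiffAt_const.mul h2) contDiffAt_const, lev_const, add_zero, lev_smul h2, hq_add,
    hq_smul, Complex.add_re, Complex.re_ofReal_mul]
  linarith

theorem bpb10_pol [hB : S.Bd] [T2Space X] [PreconnectedSpace X] : ∃ c c₀ : ℝ, (∀ y, B.bpb10_ψ c y ≤ -1) ∧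
    (∀ y, B.vol y * (B.H y).det.re = c₀) ∧ PolX A S.W fun x => B.bpb10_ψ c (B.f x) := by
  obtain ⟨c₁, h₁⟩ := B.bpb10_le
  obtain ⟨c₂, h₂⟩ := hB.φ_bd
  obtain ⟨x₀, hx₀⟩ : S.W.Nonempty := S.reg
  have hφ : ∀ y, c₂ ≤ B.dn S.φ y := fun y => by
    obtain ⟨x, hx, rfl⟩ := B.bpb10_surj y
    rw [B.bpb10_φ hx]
    exact h₂ x hx.1
  have hle : ∀ y, B.bpb10_ψ (c₂ - c₁ - 1) y ≤ c₂ - 1 - B.dn S.φ y := fun y => by
    have := h₁ y
    unfold bpb10_ψ
    linarith
  have hle' : ∀ y, B.bpb10_ψ (c₂ - c₁ - 1) y ≤ -1 := fun y => by linarith [hle y, hφ y]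
  let u : X → ℝ := fun x => B.vol (B.f x) * (B.H (B.f x)).det.re
  have hu : ∀ x ∈ S.W, ∀ᶠ y in 𝓝 x, y ∈ S.W ∧ u y = u x := fun x hx =>
    (B.W_open.eventually_mem hx).and
      ((B.f_cont.continuousAt (B.W_open.mem_nhds hx)).eventually (B.c_loc (B.f x)))
  have huc : ContinuousOn u S.W := fun x hx =>
    ((continuousAt_const (y := u x)).congr ((hu x hx).mono fun _ h => h.2.symm)).continuousWithinAt
  have hp : PolX A {x | x ∈ S.W ∧ u x = u x₀} fun x => B.bpb10_ψ (c₂ - c₁ - 1) (B.f x) := by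
    refine ⟨isOpen_iff_eventually.2 fun x hx => (hu x hx.1).mono fun y h => ⟨h.1, h.2.trans hx.2⟩,
      ⟨x₀, hx₀, rfl⟩, fun i z hz h => B.up_smooth (B.bpb10_ψ_smo _) hz h.1, fun x _ => hle' _,
      ⟨(2 * n + 1) * S.m, by positivity, fun i z hz h v => ?_⟩, fun a => ?_⟩
    · obtain ⟨k, b, hb, he⟩ := B.cover (B.f (A.p i z))
      have h3 := B.bpb10_ψ_psh (c₂ - c₁ - 1) hb (Jg A S.g i z *ᵥ v)
      have h4 := congrArg (fun h => hr h v) (B.eta_eq hz h.1 hb he.symm)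
      simp only [hr, hq_conj, hq_smul] at h4
      rw [(B.up_lev (B.bpb10_ψ_smo _) hz h.1 hb he.symm).2]
      unfold hr at *
      rw [hq_conj]
      rw [← h4, ← Complex.ofReal_natCast, Complex.re_ofReal_mul] at h3
      linarith
    · obtain ⟨δ, hδ⟩ : ∃ δ : ℝ, δ = Real.exp (-a + (2 * n + 1) * c₂ - (c₂ - c₁ - 1)) := ⟨_, rfl⟩
      have hδ0 : 0 < δ := hδ ▸ Real.exp_pos _
      obtain ⟨C, hC, hs, hm⟩ := B.cpt_sup (c₂ - 1 + a) (u x₀ / δ) hδ0
      have hc : ContinuousOn (fun x => (u x, B.bpb10_ψ (c₂ - c₁ - 1) (B.f x))) C :=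
        (huc.prodMk ((B.bpb10_cont (B.bpb10_ψ_smo _)).comp_continuousOn B.f_cont)).mono hs
      have h5 := hc.preimage_isClosed_of_isClosed hC.isClosed
        ((isClosed_singleton (x := u x₀)).prod (isClosed_Ici (a := -a)))
      have h6 := hC.of_isClosed_subset h5 inter_subset_left
      refine (congrArg IsCompact (Subset.antisymm ?_ ?_)).mp h6
      · exact fun x hx => ⟨⟨hs hx.1, hx.2.1⟩, hx.2.2⟩
      · rintro x ⟨⟨hx, he⟩, ha⟩
        refine ⟨?_, he, ha⟩
        have h7 : δ ≤ (B.H (B.f x)).det.re := by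
          rw [hδ, ← Real.le_log_iff_exp_le (B.bpb10_pos _)]
          have h8 : (2 * n + 1 : ℝ) * c₂ ≤ (2 * n + 1) * B.dn S.φ (B.f x) :=
            mul_le_mul_of_nonneg_left (hφ _) (by positivity)
          unfold bpb10_ψ at ha
          linarith
        refine hm x hx (by linarith [hle (B.f x), B.bpb10_φ hx]) h7 ?_
        rw [le_div_iff₀ hδ0, ← he]
        exact mul_le_mul_of_nonneg_left h7 (B.vol_pos _).le
  have hall : ∀ x ∈ S.W, u x = u x₀ := fun x hx => by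
    obtain ⟨y, h3, h4⟩ := mem_closure_iff_nhds.1 (hp.dense x) _ (hu x hx)
    exact h3.2.symm.trans h4.2
  refine ⟨c₂ - c₁ - 1, u x₀, hle', fun y => ?_, ?_⟩
  · obtain ⟨x, hx, rfl⟩ := B.bpb10_surj y
    exact hall x hx
  · rwa [show {x | x ∈ S.W ∧ u x = u x₀} = S.W from
      Subset.antisymm (fun _ h => h.1) fun x hx => ⟨hx, hall x hx⟩] at hp

end Base

theorem Base.exists_kit [T2Space X] [PreconnectedSpace X] [MeasurableSpace X] [BorelSpace X]
    {μ : Measure X} [IsFiniteMeasure μ] (hμ : IsVolume A μ) {S : Sys K L n} [S.Bd] {Y : Type}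
    [TopologicalSpace Y] [T2Space Y] [MeasurableSpace Y] [BorelSpace Y] (B : Base S Y) :
    Nonempty (Kit S μ Y) := by
  obtain ⟨c, c₀, h1, h2, h3⟩ := B.bpb10_pol
  obtain ⟨C, hC, h4⟩ := B.φ_le
  obtain ⟨x₀, -⟩ := h3.ne
  refine ⟨{ B with
    ψ := B.bpb10_ψ c
    c₀ := c₀
    C := C + (2 * n + 1)
    c₀_pos := h2 (B.f x₀) ▸ mul_pos (B.vol_pos _) (B.bpb10_pos _)
    C_pos := by positivity
    fin := Measure.isFiniteMeasure_map _ _
    c_eq := h2
    kah := B.om_kah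
    ric := fun k b hb v => B.om_ric hb v
    den := ?_
    φ_smo := B.φ_smo
    φ_psh := fun k b hb v => B.φ_psh hb v
    φ_le := fun k b hb v => (h4 k b hb v).trans (mul_le_mul_of_nonneg_right
      (le_add_of_nonneg_right (by positivity)) (hq_nonneg (B.H_pos _).2.1.posSemidef v))
    ψ_smo := B.bpb10_ψ_smo c
    ψ_le := h1
    ψ_psh := fun k b hb v => ?_
    ψ_cpt := fun a => ?_
    pol := h3 }⟩
  · have h5 : ∀ y, c₀ * (B.om y).det.re = B.vol y := fun y => by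
      rw [← h2 y, mul_assoc, mul_comm (B.H y).det.re, (B.H_pos y).2.2, mul_one]
    simp only [h5]
    exact B.den_vol hμ
  · have h5 := B.bpb10_ψ_psh c hb v
    have h6 := mul_nonneg hC.le (B.φ_psh hb v)
    linarith
  · have h5 := (h3.cpt a).image_of_continuousOn (B.f_cont.mono fun _ h => h.1)
    refine (congrArg IsCompact (Subset.antisymm ?_ ?_)).mp h5
    · rintro _ ⟨x, hx, rfl⟩
      exact hx.2
    · intro y hy
      obtain ⟨x, hx, rfl⟩ := B.bpb10_surj y
      exact ⟨x, ⟨hx, hy⟩, rfl⟩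

end Pool.Agent.ZB
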