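import Pool.Agent.K.MP_63735c_ag.C337
import Pool.Agent.K.MP_63735c_ag.C341
import Pool.Agent.K.MP_63735c_ag.C207
import Pool.Agent.K.MP_63735c_ag.C12
import Pool.Agent.K.MP_63735c_ag.C24
import Pool.Agent.P.MP_63735c_ag.SPIdent
import Pool.Agent.K.MP_63735c_ag.C202
import Pool.Agent.K.MP_63735c_ag.C212
import Pool.Agent.K.MP_63735c_ag.C209
import Pool.Agent.K.MP_63735c_ag.C213
import Pool.Agent.K.MP_63735c_ag.C215
import Pool.Agent.K.MP_63735c_ag.C329
import Pool.Agent.K.MP_63735c_ag.C218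

-- part Pool.Agent.P.MP_63735c_ag.ZBB13
section

/-! The average of a larger Kähler form on the fibres. -/

open scoped ComplexOrder ContDiff Matrix Topology ENNReal
open Set Metric MeasureTheory Filter

namespace Pool.Agent.ZB

open Pool.Agent.BP Pool.Agent.SPF Pool.Agent.AB Pool.Agent.CK Pool.Agent.SE Pool.Agent.NL

variable {N n : ℕ} {X : Type} [TopologicalSpace X] {A : Atlas X N} {K K' : Form11 A} {L : Line A}

theorem le_of_det {H G : Mat n} (hH : H.PosDef) (hG : G.PosDef) {C κ : ℝ} (hC : 0 < C)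
    (h : ∀ v, hr H v ≤ C * hr G v) (hd : G.det.re = κ * H.det.re) (v : E n) :
    hr G v ≤ κ * C ^ (n - 1) * hr H v := by
  obtain ⟨P, d, hP, h1, h2, h3⟩ := bpt1_sim hH.1 hG
  have h4 : ∀ i, 0 ≤ d i ∧ d i ≤ C := fun i => by
    obtain ⟨v, a, b⟩ := h3 i
    have := h v
    rw [a, b, mul_one] at this
    exact ⟨a ▸ bpt1_hr_nonneg hH.posSemidef v, this⟩
  rw [h1, h2, bpt1_det, bpt1_det, Finset.prod_const_one, ← mul_assoc,
    mul_left_inj' (pow_ne_zero _ (norm_ne_zero_iff.2 hP))] at hd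
  have hκ : 0 ≤ κ := le_of_not_gt fun hk => by
    have := mul_nonpos_of_nonpos_of_nonneg hk.le
      (Finset.prod_nonneg fun i (_ : i ∈ Finset.univ) => (h4 i).1)
    linarith
  rw [h1, h2, bpt1_hr, bpt1_hr, Finset.mul_sum]
  refine Finset.sum_le_sum fun i _ => ?_
  rw [← mul_assoc]
  refine mul_le_mul_of_nonneg_right ?_ (sq_nonneg _)
  rw [hd, ← Finset.prod_erase_mul _ _ (Finset.mem_univ i), mul_assoc]
  refine mul_le_mul_of_nonneg_left (mul_le_mul_of_nonneg_right ?_ (h4 i).1) hκ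
  simpa using Finset.prod_le_prod (s := Finset.univ.erase i) (fun j _ => (h4 j).1)
    fun j _ => (h4 j).2

/-- The form `K'` on the Hamiltonian fields. -/
noncomputable def zbb13_h (S : Sys K L n) (K' : Form11 A) (x : X) : Mat n :=
  (Vf A S.g (A.cover x).choose (A.cover x).choose_spec.choose)ᵀ *
    K'.h (A.cover x).choose (A.cover x).choose_spec.choose *
      (Vf A S.g (A.cover x).choose (A.cover x).choose_spec.choose).map star

theorem zbb13_eq (S : Sys K L n) (K' : Form11 A) (i : A.ι) (z : E N) (hz : z ∈ (A.C i).W)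
    (hU : A.p i z ∈ S.U) :
    zbb13_h S K' (A.p i z) = (Vf A S.g i z)ᵀ * K'.h i z * (Vf A S.g i z).map star := by
  obtain ⟨hy, he⟩ := (A.cover (A.p i z)).choose_spec.choose_spec
  obtain ⟨O, φ, hc, hO, hφ, hp⟩ := A.trans i _ z hz _ hy he.symm
  have e : (jac φ z * Vf A S.g i z).map star = (jac φ z).map star * (Vf A S.g i z).map star :=
    Matrix.map_mul (f := starRingEnd ℂ)
  rw [K'.compat i _ O φ hc hp z hO, zbb13_h, ← hφ, (S.Vf_change hc hp hO hU).2, e,
    Matrix.transpose_mul]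
  simp only [Matrix.mul_assoc]

/-- The same system with another form. -/
noncomputable def zbb13_S (S : Sys K L n) (hK : ∀ i, ∀ z ∈ (A.C i).W, (K'.h i z).PosDef) :
    Sys K' L n :=
  { S with
    h := zbb13_h S K'
    K_pos := hK
    h_eq := zbb13_eq S K'
    reg := by
      obtain ⟨x, hx, h1, h2⟩ := S.reg
      obtain ⟨i, z, hz, rfl⟩ := A.cover x
      refine ⟨_, hx, ?_, h2⟩
      rw [zbb13_eq S K' i z hz hx]
      refine (hK i z hz).mul_mul_conjTranspose_same (B := (Vf A S.g i z)ᵀ) fun τ τ' he =>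
        (S.h_pos_iff hz hx).1.1 h1 ?_
      simpa only [Matrix.vecMul_transpose] using he }

theorem zbb13_W (S : Sys K L n) (hK : ∀ i, ∀ z ∈ (A.C i).W, (K'.h i z).PosDef) :
    (zbb13_S S hK).W = S.W := by
  ext x
  obtain ⟨i, z, hz, rfl⟩ := A.cover x
  exact and_congr_right fun hx => and_congr_left fun _ =>
    ((zbb13_S S hK).h_pos_iff hz hx).1.trans (S.h_pos_iff hz hx).1.symm

/-- The same base for the other form. -/
noncomputable def zbb13_B {S : Sys K L n} {Y : Type} [TopologicalSpace Y] (B : Base S Y)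
    (hK : ∀ i, ∀ z ∈ (A.C i).W, (K'.h i z).PosDef) : Base (zbb13_S S hK) Y :=
  { B with
    γ_f := by rw [zbb13_W]; exact B.γ_f
    W_open := by rw [zbb13_W]; exact B.W_open
    W_inv := by rw [zbb13_W]; exact B.W_inv
    f_cont := by rw [zbb13_W]; exact B.f_cont
    f_open := by rw [zbb13_W]; exact B.f_open
    f_eq := by rw [zbb13_W]; exact B.f_eq
    f_proper := by rw [zbb13_W]; exact B.f_proper
    s_mem := by rw [zbb13_W]; exact B.s_mem }

theorem zbb13_int [MeasurableSpace X] [BorelSpace X] {S : Sys K L n} {Y : Type} [TopologicalSpace Y]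
    (B : Base S Y) (y : Y) (τ : E n) (C : ℝ) : Integrable (fun x => C * hr (S.h x) τ) (B.fm y) ∧
      ∫ x, C * hr (S.h x) τ ∂B.fm y = C * hr (B.H y) τ := by
  have h : Integrable (fun x => hq (S.h x) τ τ) (B.fm y) := by
    obtain ⟨k, b, hb, rfl⟩ := B.cover y
    exact (B.fm_int hb ((Base.bpb6_hq' τ τ).comp_continuousOn (Base.bpb6_hc S))).1
  refine ⟨h.re.const_mul C, ?_⟩
  rw [integral_const_mul, hr, B.hq_H]
  exact congrArg _ (Complex.reCLM.integral_comp_comm h)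

variable [T2Space X] [PreconnectedSpace X] [MeasurableSpace X] [BorelSpace X] {μ : Measure X}
  {S : Sys K L n} {Y : Type} [TopologicalSpace Y] [MeasurableSpace Y] {β : A.ι → E N → E N}

theorem Kit.avg_bd (T : Kit S μ Y) (hK : ∀ i, ∀ z ∈ (A.C i).W, (K'.h i z).PosDef)
    (h1 : ∃ C : ℝ, 0 < C ∧ ∀ i, ∀ z ∈ (A.C i).W, ∀ v, hr (K.h i z) v ≤ C * hr (K'.h i z) v)
    (hβ : Is10 A β)
    (h2 : ∃ C : ℝ, 0 < C ∧ ∀ i, ∀ z ∈ (A.C i).W, ∀ v, ‖β i z ⬝ᵥ v‖ ^ 2 ≤ C * hr (K'.h i z) v) :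
    ∃ C : ℝ, ∀ y τ, ∫ x, ‖S.bv β x ⬝ᵥ τ‖ ^ 2 ∂T.fm y ≤ C * hr (T.H y) τ := by
  obtain ⟨C₁, c1, h1⟩ := h1
  obtain ⟨C₂, c2, h2⟩ := h2
  obtain ⟨x₀, hx₀⟩ := T.pol.ne
  let B := zbb13_B T.toBase hK
  have h3 : ∀ y, T.vol y * (B.H y).det.re = T.vol (T.f x₀) * (B.H (T.f x₀)).det.re := fun y => by
    obtain ⟨x, hx, rfl⟩ := T.bpb10_surj y
    exact T.pol.const (u := fun x => T.vol (T.f x) * (B.H (T.f x)).det.re) (fun x hx =>
      (T.f_cont.continuousAt (T.W_open.mem_nhds hx)).eventually (B.c_loc (T.f x))) hx₀ hx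
  have h4 : ∀ y τ C (u : X → ℝ), (∀ x ∈ S.U, 0 ≤ u x) → (∀ i, ∀ z ∈ (A.C i).W, A.p i z ∈ S.U →
      u (A.p i z) ≤ C * hr (K'.h i z) (Vf A S.g i z *ᵥ τ)) →
      ∫ x, u x ∂T.fm y ≤ C * hr (B.H y) τ := fun y τ C u h0 hu => by
    refine (integral_mono_of_nonneg ((T.fm_ae y).mono fun x hx => h0 x hx.1.1)
      (zbb13_int B y τ C).1 ((T.fm_ae y).mono fun x hx => ?_)).trans (zbb13_int B y τ C).2.le
    obtain ⟨i, z, hz, rfl⟩ := A.cover x
    exact (hu i z hz hx.1.1).trans_eq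
      (congrArg (fun t => C * t.re) ((zbb13_S S hK).hq_h hz hx.1.1 τ τ).symm)
  refine ⟨C₂ * (T.vol (T.f x₀) * (B.H (T.f x₀)).det.re / T.c₀ * C₁ ^ (n - 1)), fun y τ => ?_⟩
  refine (h4 y τ C₂ _ (fun _ _ => sq_nonneg _) fun i z hz hU => ?_).trans ?_
  · rw [S.bv_eq hβ hz hU, ← Matrix.dotProduct_mulVec]
    exact h2 i z hz _
  rw [mul_assoc]
  refine mul_le_mul_of_nonneg_left (le_of_det (T.H_pos y).1 (B.H_pos y).1 c1 (fun v => ?_) ?_ τ)
    c2.le
  · have h5 := (zbb13_int T.toBase y v 1).2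
    simp only [one_mul] at h5
    refine h5.ge.trans (h4 y v C₁ _ (fun x hx => hq_nonneg (S.h_psd hx) v) fun i z hz hU => ?_)
    rw [hr, S.hq_h hz hU]
    exact h1 i z hz _
  · rw [← h3 y, div_mul_eq_mul_div, eq_div_iff T.c₀_pos.ne', ← T.c_eq y]
    ring

end Pool.Agent.ZB
end

-- part Pool.Agent.P.MP_63735c_ag.BPT5a
section

/-! The local potential lemma: integrability and the holomorphic 2-form. -/

open scoped ComplexOrder ContDiff Matrix Topology ENNReal
open Set Metric MeasureTheory Filter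

namespace Pool.Agent.BP

open Pool.Agent.SPF Pool.Agent.AB Pool.Agent.CK Pool.Agent.SE Pool.Agent.NL

variable {N : ℕ} {z₀ : E N} {R a C : ℝ} {W : Set (E N)} {ψ : E N → ℝ} {ξ : E N → E N}
  {Ω e : E N → Mat N}

theorem bpt5a_single (h : Mat N) (b c : Fin N) : hq h (Pi.single b 1) (Pi.single c 1) = h b c := by
  simp [hq, Pi.star_single]

theorem bpt5a_diag {h : Mat N} (hh : h.PosSemidef) (b : Fin N) : 0 ≤ (h b b).re :=
  bpt5a_single h b b ▸ hq_nonneg hh (Pi.single b 1)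

theorem bpt5a_off {h : Mat N} (hh : h.PosSemidef) (b c : Fin N) :
    ‖h b c‖ ≤ (h b b).re + (h c c).re := by
  have key : ∀ t : ℂ,
      0 ≤ (h b b + star t * h b c + (t * star (h b c) + t * (star t * h c c))).re := fun t => by
    have := hq_nonneg hh (Pi.single b 1 + t • Pi.single c 1)
    rwa [hq_add_left, hq_add_right, hq_add_right, hq_smul_left, hq_smul_right, hq_smul_left,
      hq_smul_right, bpt5a_single, bpt5a_single, bpt5a_single, bpt5a_single,
      ← hh.isHermitian.apply c b] at this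
  have h1 := key 1
  have h2 := key (-1)
  have h3 := key Complex.I
  have h4 := key (-Complex.I)
  simp at h1 h2 h3 h4
  refine (Complex.norm_le_abs_re_add_abs_im _).trans ?_
  have h5 : |(h b c).re| ≤ ((h b b).re + (h c c).re) / 2 := abs_le.2 ⟨by linarith, by linarith⟩
  have h6 : |(h b c).im| ≤ ((h b b).re + (h c c).re) / 2 := abs_le.2 ⟨by linarith, by linarith⟩
  linarith

theorem bpt5a_xi (h : PotD z₀ R W ψ ξ Ω e a C) (b : Fin N) : ContDiffOn ℝ ∞ (fun w => ξ w b) W :=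
  contDiffOn_pi.1 h.ξ_smooth b

theorem bpt5a_le (h : PotD z₀ R W ψ ξ Ω e a C) (b : Fin N) {z : E N} (hz : z ∈ W) :
    ‖ξ z b‖ ^ 2 ≤ (|C| + 1) * (Ω z b b).re := by
  have h1 := h.bd z hz (Pi.single b 1)
  rw [single_dotProduct, one_mul, hr, bpt5a_single] at h1
  exact h1.trans (mul_le_mul_of_nonneg_right ((le_abs_self C).trans (by linarith))
    (bpt5a_diag (h.Ω_psd z hz) b))

theorem bpt5a_cont (h : PotD z₀ R W ψ ξ Ω e a C) (b c : Fin N) :
    ContinuousOn (fun z => Ω z b c) W := by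
  have h1 := (((dz_smooth h.isOpen (bpt5a_xi h b) c).2.continuousOn.add
    ((h.e_smooth b c).continuousOn.mono h.sub))).div_const (a : ℂ)
  refine h1.congr fun z hz => ?_
  have h2 : (a : ℂ) ≠ 0 := Complex.ofReal_ne_zero.2 h.a_pos.ne'
  simp only [Pi.add_apply]
  rw [h.eq z hz b c]
  field_simp
  ring

theorem bpt5a_der {χ θ : E N → ℝ} {z : E N} (h1 : DifferentiableAt ℝ χ z)
    (h2 : DifferentiableAt ℝ θ z) (h3 : 0 ≤ χ z ∧ χ z ≤ 1) (h4 : 0 ≤ θ z ∧ θ z ≤ 1) (b : Fin N) :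
    ‖dzb b (fun y => ((χ y * θ y : ℝ) : ℂ)) z‖ ≤ ‖fderiv ℝ χ z‖ + ‖fderiv ℝ θ z‖ := by
  refine (dz_norm_le _ z b).2.trans ?_
  have h5 := (Complex.ofRealCLM.hasFDerivAt.comp z (h1.hasFDerivAt.mul h2.hasFDerivAt)).fderiv
  have h6 : fderiv ℝ (fun y => ((χ y * θ y : ℝ) : ℂ)) z =
      Complex.ofRealCLM.comp (χ z • fderiv ℝ θ z + θ z • fderiv ℝ χ z) := h5
  rw [h6]
  refine (ContinuousLinearMap.opNorm_comp_le _ _).trans ?_
  rw [Complex.ofRealCLM_norm, one_mul]
  refine (norm_add_le _ _).trans ?_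
  rw [norm_smul, norm_smul, Real.norm_of_nonneg h3.1, Real.norm_of_nonneg h4.1]
  nlinarith [norm_nonneg (fderiv ℝ χ z), norm_nonneg (fderiv ℝ θ z), h3.2, h4.2]

/-- the pointwise form of the Caccioppoli inequality -/
theorem bpt5a_pt {η a K M p : ℝ} {D u o e : ℂ} (ha : 0 < a) (hK : 0 < K) (h0 : 0 ≤ η) (h1 : η ≤ 1)
    (hu : ‖u‖ ^ 2 ≤ K * o.re) (hD : ‖D‖ ≤ p) (he : ‖e‖ ≤ M) :
    a / 2 * (η ^ 2 * o.re) ≤ ((D * η + η * D) * u + η * η * (a * o - e)).re +
      (M + 2 * K / a * p ^ 2) := by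
  have e1 : ((D * η + η * D) * u + η * η * (a * o - e)).re =
      2 * η * (D * u).re + η ^ 2 * (a * o.re - e.re) := by
    simp
    ring
  have e2 : -(p * ‖u‖) ≤ (D * u).re := by
    have := (abs_le.1 (Complex.abs_re_le_norm (D * u))).1
    rw [norm_mul] at this
    nlinarith [norm_nonneg u]
  have e3 : η ^ 2 * e.re ≤ M := by
    have := (abs_le.1 ((Complex.abs_re_le_norm e).trans he)).2
    have h2 : 0 ≤ M := (norm_nonneg e).trans he
    have h3 : η ^ 2 ≤ 1 := by nlinarith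
    nlinarith [sq_nonneg η]
  have e4 : 2 * η * (p * ‖u‖) ≤ a / (2 * K) * (η ^ 2 * ‖u‖ ^ 2) + 2 * K / a * p ^ 2 := by
    have h2 : 0 ≤ (a * (η * ‖u‖) - 2 * K * p) ^ 2 / (2 * K * a) := by positivity
    refine sub_nonneg.1 (h2.trans_eq ?_)
    field_simp
    ring
  have e5 : a / (2 * K) * (η ^ 2 * ‖u‖ ^ 2) ≤ a / 2 * (η ^ 2 * o.re) := by
    refine (mul_le_mul_of_nonneg_left (mul_le_mul_of_nonneg_left hu (sq_nonneg η))
      (by positivity)).trans_eq ?_
    field_simp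
  rw [e1]
  nlinarith [mul_le_mul_of_nonneg_left e2 h0]

theorem bpt5a_cacc (h : PotD z₀ R W ψ ξ Ω e a C) (b : Fin N) : ∃ B : ℝ, ∀ k : ℝ,
    ∫⁻ z in W ∩ ball z₀ (R / 64) ∩ {z | -k ≤ ψ z}, ENNReal.ofReal (Ω z b b).re ≤
      ENNReal.ofReal B := by
  have hR := h.toPol.R_pos
  have ha := h.a_pos
  let χ : ContDiffBump z₀ := ⟨R / 64, R / 48, by positivity, by linarith⟩
  have hs : tsupport χ ⊆ ball z₀ (R / 32) := by
    rw [χ.tsupport_eq]
    exact closedBall_subset_ball (show R / 48 < R / 32 by linarith)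
  have hb : closedBall z₀ (R / 32) ⊆ ball z₀ R := closedBall_subset_ball (by linarith)
  have hχ : ContDiff ℝ ∞ χ := χ.contDiff
  obtain ⟨P, hP⟩ := (χ.hasCompactSupport.fderiv ℝ).exists_bound_of_continuous
    (hχ.continuous_fderiv (by simp))
  obtain ⟨M, hM⟩ := (isCompact_closedBall z₀ (R / 32)).exists_bound_of_continuousOn
    ((h.e_smooth b b).continuousOn.mono hb)
  obtain ⟨K, hK⟩ : ∃ K, K = |C| + 1 := ⟨_, rfl⟩
  have hK0 : 0 < K := by rw [hK]; positivity
  have hM0 : 0 ≤ M := (norm_nonneg _).trans (hM z₀ (mem_closedBall_self (by positivity)))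
  refine ⟨2 / a * (volume.real (ball z₀ (R / 32)) * (M + 4 * K / a * P ^ 2) + 4 * K / a),
    fun k => ?_⟩
  obtain ⟨θ, c, t1, t2, t3, t4, t5⟩ := h.toPol.cut k one_pos
  have hV : IsOpen (W ∩ ball z₀ (R / 32)) := h.isOpen.inter isOpen_ball
  have hC : IsCompact (tsupport χ ∩ closure {y | y ∈ W ∧ -c ≤ ψ y}) :=
    χ.hasCompactSupport.isCompact.inter_right isClosed_closure
  have hCV : tsupport χ ∩ closure {y | y ∈ W ∧ -c ≤ ψ y} ⊆ W ∩ ball z₀ (R / 32) := fun y hy =>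
    ⟨h.closed c y (hb (ball_subset_closedBall (hs hy.1))) hy.2, hs hy.1⟩
  have hη : ContDiffOn ℝ ∞ (fun y => χ y * θ y) (W ∩ ball z₀ (R / 32)) :=
    hχ.contDiffOn.mul (t1.mono fun y hy => h.sub hy.1)
  have hη0 : ∀ y, y ∉ tsupport χ ∩ closure {y | y ∈ W ∧ -c ≤ ψ y} → χ y * θ y = 0 := fun y hy => by
    by_contra h1
    exact hy ⟨subset_tsupport _ (left_ne_zero_of_mul h1),
      subset_closure (t4 y (right_ne_zero_of_mul h1))⟩
  have hu := (bpt5a_xi h b).mono (inter_subset_left (t := ball z₀ (R / 32)))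
  have hF := ((ofReal_smooth hη).mul (ofReal_smooth hη)).mul hu
  have hF0 : ∀ y ∈ W ∩ ball z₀ (R / 32), y ∉ tsupport χ ∩ closure {y | y ∈ W ∧ -c ≤ ψ y} →
      ((χ y * θ y : ℝ) : ℂ) * ((χ y * θ y : ℝ) : ℂ) * ξ y b = 0 := fun y _ hy => by
    rw [hη0 y hy]
    simp
  have i1 := intOn hV hC hCV (dz_smooth hV hF b).2.continuousOn
    fun y hy hy' => (dz_zero_off hV hC.isClosed hF0 b y hy hy').2
  have i2 : IntegrableOn (fun y => (χ y * θ y) ^ 2 * (Ω y b b).re) (W ∩ ball z₀ (R / 32)) volume :=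
    intOn hV hC hCV ((hη.continuousOn.pow 2).mul (Complex.continuous_re.comp_continuousOn
      ((bpt5a_cont h b b).mono inter_subset_left))) fun y _ hy => by rw [hη0 y hy]; simp
  have i3 : IntegrableOn (fun y => ‖fderiv ℝ θ y‖ ^ 2) (ball z₀ (R / 32)) volume :=
    ((((t1.continuousOn_fderiv_of_isOpen isOpen_ball (by simp)).mono
      hb).norm.pow 2).integrableOn_compact (isCompact_closedBall _ _)).mono_set
      ball_subset_closedBall
  have i5 : IntegrableOn (fun _ : E N => M + 4 * K / a * P ^ 2) (ball z₀ (R / 32)) volume :=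
    integrableOn_const measure_ball_lt_top.ne
  have i4 : IntegrableOn (fun y => (M + 4 * K / a * P ^ 2) + 4 * K / a * ‖fderiv ℝ θ y‖ ^ 2)
      (ball z₀ (R / 32)) volume := i5.add (i3.const_mul _)
  have i6 : IntegrableOn (fun y => (dzb b (fun y =>
      ((χ y * θ y : ℝ) : ℂ) * ((χ y * θ y : ℝ) : ℂ) * ξ y b) y).re) (W ∩ ball z₀ (R / 32))
      volume := i1.re
  have e1 : ∫ y in W ∩ ball z₀ (R / 32), a / 2 * ((χ y * θ y) ^ 2 * (Ω y b b).re) ≤
      ∫ y in W ∩ ball z₀ (R / 32), ((dzb b (fun y =>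
        ((χ y * θ y : ℝ) : ℂ) * ((χ y * θ y : ℝ) : ℂ) * ξ y b) y).re +
        ((M + 4 * K / a * P ^ 2) + 4 * K / a * ‖fderiv ℝ θ y‖ ^ 2)) := by
    refine setIntegral_mono_on (i2.const_mul _) (i6.add (i4.mono_set inter_subset_right))
      hV.measurableSet fun y hy => ?_
    have d1 := diffAt hV (ofReal_smooth hη) hy
    rw [(dz_mul (d1.fun_mul d1) (diffAt hV hu hy) b).2, (dz_mul d1 d1 b).2, h.eq y hy.1 b b]
    refine (bpt5a_pt ha hK0 (mul_nonneg χ.nonneg (t2 y).1)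
      (mul_le_one₀ χ.le_one (t2 y).1 (t2 y).2) (hK ▸ bpt5a_le h b hy.1)
      (bpt5a_der (hχ.differentiable (by simp) y) (diffAt isOpen_ball t1 (h.sub hy.1))
        ⟨χ.nonneg, χ.le_one⟩ (t2 y) b) (hM y (ball_subset_closedBall hy.2))).trans ?_
    have h1 : (‖fderiv ℝ χ y‖ + ‖fderiv ℝ θ y‖) ^ 2 ≤ 2 * P ^ 2 + 2 * ‖fderiv ℝ θ y‖ ^ 2 := by
      nlinarith [hP y, norm_nonneg (fderiv ℝ χ y), sq_nonneg (‖fderiv ℝ χ y‖ - ‖fderiv ℝ θ y‖)]
    have h2 := mul_le_mul_of_nonneg_left h1 (show 0 ≤ 2 * K / a by positivity)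
    have h3 : 2 * K / a * (2 * P ^ 2 + 2 * ‖fderiv ℝ θ y‖ ^ 2) =
        4 * K / a * P ^ 2 + 4 * K / a * ‖fderiv ℝ θ y‖ ^ 2 := by ring
    linarith
  have e2 : ∫ y in W ∩ ball z₀ (R / 32), (dzb b (fun y =>
      ((χ y * θ y : ℝ) : ℂ) * ((χ y * θ y : ℝ) : ℂ) * ξ y b) y).re = 0 := by
    have := integral_re i1
    rw [(int_dz hV hC hCV hF hF0 b).2] at this
    exact this
  have e3 : ∫ y in W ∩ ball z₀ (R / 32),
      ((M + 4 * K / a * P ^ 2) + 4 * K / a * ‖fderiv ℝ θ y‖ ^ 2) ≤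
      volume.real (ball z₀ (R / 32)) * (M + 4 * K / a * P ^ 2) + 4 * K / a := by
    refine (setIntegral_mono_set i4 (Eventually.of_forall fun y => by positivity)
      inter_subset_right.eventuallyLE).trans ?_
    rw [integral_add i5 (i3.const_mul _), setIntegral_const, integral_const_mul, smul_eq_mul]
    have := mul_le_mul_of_nonneg_left t5 (show 0 ≤ 4 * K / a by positivity)
    linarith
  rw [integral_add i6 (i4.mono_set inter_subset_right), integral_const_mul] at e1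
  have e4 : ∫ y in W ∩ ball z₀ (R / 32), (χ y * θ y) ^ 2 * (Ω y b b).re ≤
      2 / a * (volume.real (ball z₀ (R / 32)) * (M + 4 * K / a * P ^ 2) + 4 * K / a) := by
    rw [div_mul_eq_mul_div, le_div_iff₀ ha]
    have e5 := e1.trans (add_le_add e2.le e3)
    linarith
  refine le_trans ?_ (ENNReal.ofReal_le_ofReal e4)
  rw [ofReal_integral_eq_lintegral_ofReal i2 ((ae_restrict_iff' hV.measurableSet).2
    (Eventually.of_forall fun y hy => mul_nonneg (sq_nonneg _) (bpt5a_diag (h.Ω_psd y hy.1) b)))]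
  have hm : MeasurableSet (W ∩ ball z₀ (R / 64) ∩ {z | -k ≤ ψ z}) := by
    have h1 : W ∩ ball z₀ (R / 64) ∩ {z | -k ≤ ψ z} =
        (W ∩ ball z₀ (R / 64)) \ (W ∩ ψ ⁻¹' Iio (-k)) := by
      ext y
      simp only [mem_inter_iff, Set.mem_sdiff, mem_preimage, mem_Iio, mem_ofPred_eq, not_and, not_lt]
      tauto
    rw [h1]
    exact (h.isOpen.inter isOpen_ball).measurableSet.diff
      (h.smooth.continuousOn.isOpen_inter_preimage h.isOpen isOpen_Iio).measurableSet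
  refine le_trans (le_of_eq (setLIntegral_congr_fun hm fun y hy => ?_)) (lintegral_mono_set
    fun y hy => ⟨hy.1.1, ball_subset_ball (by linarith) hy.1.2⟩)
  simp only [t3 y hy.1.1 hy.2, χ.one_of_mem_closedBall (ball_subset_closedBall hy.1.2), mul_one,
    one_pow, one_mul]

theorem bpt5a_int (h : PotD z₀ R W ψ ξ Ω e a C) (b : Fin N) :
    IntegrableOn (fun z => (Ω z b b).re) (W ∩ ball z₀ (R / 64)) volume := by
  obtain ⟨B, hB⟩ := bpt5a_cacc h b
  have hm := (h.isOpen.inter (isOpen_ball (x := z₀) (ε := R / 64))).measurableSet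
  refine ⟨(Complex.continuous_re.comp_continuousOn
    ((bpt5a_cont h b b).mono inter_subset_left)).aestronglyMeasurable hm, ?_⟩
  rw [hasFiniteIntegral_iff_ofReal ((ae_restrict_iff' hm).2
    (Eventually.of_forall fun y hy => bpt5a_diag (h.Ω_psd y hy.1) b))]
  have e : W ∩ ball z₀ (R / 64) = ⋃ k : ℕ, W ∩ ball z₀ (R / 64) ∩ {z | -(k : ℝ) ≤ ψ z} := by
    refine Subset.antisymm (fun y hy => ?_) (iUnion_subset fun k => inter_subset_left)
    obtain ⟨k, hk⟩ := exists_nat_ge (-ψ y)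
    exact mem_iUnion.2 ⟨k, hy, neg_le.1 hk⟩
  have hd : Monotone fun k : ℕ => W ∩ ball z₀ (R / 64) ∩ {z | -(k : ℝ) ≤ ψ z} :=
    fun i j hij y hy => ⟨hy.1, le_trans (b := -(i : ℝ)) (neg_le_neg (Nat.cast_le.2 hij)) hy.2⟩
  rw [e, setLIntegral_iUnion_of_directed _ hd.directed_le]
  exact (iSup_le fun k : ℕ => hB k).trans_lt ENNReal.ofReal_lt_top

theorem PotD.int (h : PotD z₀ R W ψ ξ Ω e a C) (b c : Fin N) :
    IntegrableOn (fun z => Ω z b c) (W ∩ ball z₀ (R / 64)) volume ∧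
      IntegrableOn (fun z => ‖ξ z b‖ ^ 2) (W ∩ ball z₀ (R / 64)) volume := by
  have hm := (h.isOpen.inter (isOpen_ball (x := z₀) (ε := R / 64))).measurableSet
  refine ⟨((bpt5a_int h b).add (bpt5a_int h c)).mono'
    (((bpt5a_cont h b c).mono inter_subset_left).aestronglyMeasurable hm)
    ((ae_restrict_iff' hm).2 (Eventually.of_forall fun y hy => bpt5a_off (h.Ω_psd y hy.1) b c)),
    ((bpt5a_int h b).const_mul (|C| + 1)).mono'
    ((((bpt5a_xi h b).continuousOn.mono inter_subset_left).norm.pow 2).aestronglyMeasurable hm)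
    ((ae_restrict_iff' hm).2 (Eventually.of_forall fun y hy => ?_))⟩
  rw [Real.norm_of_nonneg (sq_nonneg _)]
  exact bpt5a_le h b hy.1

/-- The mollified form. -/
noncomputable def mol (ρ : E N → ℝ) (S : Set (E N)) (u : E N → ℂ) : E N → ℂ :=
  cv ρ (S.indicator u)

theorem bpt5a_l1 (h : PotD z₀ R W ψ ξ Ω e a C) (b : Fin N) :
    IntegrableOn (fun z => ξ z b) (W ∩ ball z₀ (R / 64)) volume := by
  have hm := (h.isOpen.inter (isOpen_ball (x := z₀) (ε := R / 64))).measurableSet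
  have h1 : IntegrableOn (fun _ : E N => (1 : ℝ)) (W ∩ ball z₀ (R / 64)) volume :=
    integrableOn_const ((measure_mono inter_subset_right).trans_lt measure_ball_lt_top).ne
  refine (h1.add (h.int b b).2).mono'
    (((bpt5a_xi h b).continuousOn.mono inter_subset_left).aestronglyMeasurable hm)
    (Eventually.of_forall fun y => ?_)
  simp only [Pi.add_apply]
  nlinarith [sq_nonneg (‖ξ y b‖ - 1), norm_nonneg (ξ y b)]

theorem bpt5a_rhs (h : PotD z₀ R W ψ ξ Ω e a C) (b c : Fin N) :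
    IntegrableOn (fun w => a * Ω w b c - e w b c) (W ∩ ball z₀ (R / 64)) volume := by
  have hR := h.toPol.R_pos
  exact ((h.int b c).1.const_mul _).sub
    ((((h.e_smooth b c).continuousOn.mono (closedBall_subset_ball
      (show R / 64 < R by linarith))).integrableOn_compact (isCompact_closedBall _ _)).mono_set
      (inter_subset_right.trans ball_subset_closedBall))

theorem PotD.mol_db (h : PotD z₀ R W ψ ξ Ω e a C) {d A : ℝ} {ρ : E N → ℝ} (hρ : Ker d A ρ)
    (hd : d ≤ R / 128) (b c : Fin N) {z : E N} (hz : z ∈ ball z₀ (R / 128)) :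
    dzb c (mol ρ (W ∩ ball z₀ (R / 64)) fun w => ξ w b) z =
      mol ρ (W ∩ ball z₀ (R / 64)) (fun w => a * Ω w b c - e w b c) z := by
  have hR := h.toPol.R_pos
  have hm := (h.isOpen.inter (isOpen_ball (x := z₀) (ε := R / 64))).measurableSet
  have hF : LocallyIntegrable ((W ∩ ball z₀ (R / 64)).indicator fun w => ξ w b) volume :=
    ((integrable_indicator_iff hm).2 (bpt5a_l1 h b)).locallyIntegrable
  have hsub : tsupport (fun y => ((ρ (z - y) : ℝ) : ℂ)) ⊆ closedBall z d := by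
    refine closure_minimal (fun y hy => ?_) isClosed_closedBall
    have h0 : z - y ∈ tsupport ρ := subset_tsupport ρ fun h => hy (by simp [h])
    have := ball_subset_closedBall (hρ.supp h0)
    rwa [mem_closedBall, dist_zero_right, ← dist_eq_norm, ← mem_closedBall'] at this
  have ht : Tst (ball z₀ (R / 64)) fun y => ((ρ (z - y) : ℝ) : ℂ) :=
    ⟨Complex.ofRealCLM.contDiff.comp (hρ.smooth.comp (contDiff_const.sub contDiff_id)),
      (isCompact_closedBall z d).of_isClosed_subset (isClosed_tsupport _) hsub,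
      hsub.trans (closedBall_subset_ball' (by linarith [mem_ball.1 hz]))⟩
  have h0 := h.toPol.ibp_db isOpen_ball (ball_subset_ball (by linarith)) (bpt5a_xi h b)
    (h.int b b).2 ht c ((bpt5a_rhs h b c).congr_fun (fun y hy => (h.eq y hy.1 b c).symm) hm)
  obtain ⟨i1, e1⟩ := abweyl_fderiv hρ.smooth hρ.cpt hF z (Pi.single c 1)
  obtain ⟨i2, e2⟩ := abweyl_fderiv hρ.smooth hρ.cpt hF z (Pi.single c Complex.I)
  rw [mol, mol, cv_swap, abmol1_eq, dzb, e1, e2, ← integral_const_mul,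
    ← integral_add i1 (i2.const_mul _), ← integral_div]
  rw [← integral_indicator hm, ← integral_indicator hm, ← neg_eq_iff_eq_neg, ← integral_neg] at h0
  refine Eq.trans (integral_congr_ae (Eventually.of_forall fun y => ?_))
    (h0.trans (integral_congr_ae (Eventually.of_forall fun y => ?_)))
  · by_cases hy : y ∈ W ∩ ball z₀ (R / 64)
    · simp only [indicator_of_mem hy, dzb, abweyl_test hρ.smooth]
      ring
    · simp [indicator_of_notMem hy]
  · by_cases hy : y ∈ W ∩ ball z₀ (R / 64)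
    · simp only [indicator_of_mem hy, h.eq y hy.1 b c, mul_comm]
    · simp [indicator_of_notMem hy]

end Pool.Agent.BP
end

-- part Pool.Agent.P.MP_63735c_ag.BPT5p
section

/-! Potentials of closed forms and a Poincare inequality on balls. -/

open scoped ComplexOrder ContDiff Matrix Topology ENNReal
open Set Metric MeasureTheory Filter

namespace Pool.Agent.BP

open Pool.Agent.SPF Pool.Agent.AB Pool.Agent.CK Pool.Agent.SE Pool.Agent.NL

variable {N : ℕ}

lemma bpt5p_ofReal {f : E N → ℝ} {z : E N} (hf : DifferentiableAt ℝ f z) (v : E N) :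
    fderiv ℝ (fun w => (f w : ℂ)) z v = (fderiv ℝ f z v : ℝ) := by
  have := (Complex.ofRealCLM.hasFDerivAt.comp z hf.hasFDerivAt).fderiv
  exact congrArg (fun L : E N →L[ℝ] ℂ => L v) this

/-- The real form of a complex covector. -/
noncomputable def bpt5pL (N : ℕ) : E N →L[ℝ] E N →L[ℝ] ℝ :=
  (LinearMap.mk₂ ℝ (fun u v : E N => 2 * (v ⬝ᵥ u).re)
    (fun a b c => by rw [dotProduct_add, Complex.add_re]; ring)
    (fun a b c => by rw [dotProduct_smul, Complex.smul_re, smul_eq_mul, smul_eq_mul]; ring)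
    (fun a b c => by rw [add_dotProduct, Complex.add_re]; ring)
    (fun a b c => by
      rw [smul_dotProduct, Complex.smul_re, smul_eq_mul, smul_eq_mul]; ring)).toContinuousBilinearMap

lemma bpt5p_L (u v : E N) : bpt5pL N u v = 2 * (v ⬝ᵥ u).re := rfl

theorem exists_pot {ξ : E N → E N} {z₀ : E N} {r : ℝ} (hξ : ContDiffOn ℝ ∞ ξ (ball z₀ r))
    (h1 : ∀ z ∈ ball z₀ r, ∀ b c, dz b (fun w => ξ w c) z = dz c (fun w => ξ w b) z)
    (h2 : ∀ z ∈ ball z₀ r, ∀ b c, dzb c (fun w => ξ w b) z = star (dzb b (fun w => ξ w c) z))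
    {z₁ : E N} (hz : z₁ ∈ ball z₀ r) : ∃ G : E N → ℝ, ContDiffOn ℝ ∞ G (ball z₀ r) ∧ G z₁ = 0 ∧
      ∀ z ∈ ball z₀ r, dr G z = ξ z := by
  have hω : ContDiffOn ℝ ∞ (fun z => bpt5pL N (ξ z)) (ball z₀ r) :=
    (bpt5pL N).contDiff.comp_contDiffOn hξ
  have hd : ∀ z ∈ ball z₀ r, DifferentiableAt ℝ ξ z := fun z hz =>
    (hξ.differentiableOn (by simp)).differentiableAt (isOpen_ball.mem_nhds hz)
  have hs : ∀ a ∈ ball z₀ r, ∀ x y, fderiv ℝ (fun z => bpt5pL N (ξ z)) a x y =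
      fderiv ℝ (fun z => bpt5pL N (ξ z)) a y x := by
    intro a ha
    have e1 : fderiv ℝ (fun z => bpt5pL N (ξ z)) a = (bpt5pL N).comp (fderiv ℝ ξ a) :=
      ((bpt5pL N).hasFDerivAt.comp a (hd a ha).hasFDerivAt).fderiv
    have e2 : ∀ x b, fderiv ℝ ξ a x b = ∑ c, (x c * dz c (fun w => ξ w b) a +
        star (x c) * dzb c (fun w => ξ w b) a) := fun x b => by
      rw [← fderiv_eq_wirt, fderiv_apply (hd a ha)]
      rfl
    have e3 : ∀ x y, fderiv ℝ (fun z => bpt5pL N (ξ z)) a x y =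
        2 * ((∑ b, ∑ c, y b * (x c * dz c (fun w => ξ w b) a)).re +
          (∑ b, ∑ c, y b * (star (x c) * dzb c (fun w => ξ w b) a)).re) := fun x y => by
      rw [e1, ContinuousLinearMap.comp_apply, bpt5p_L, ← Complex.add_re, ← Finset.sum_add_distrib]
      congr 2
      refine Finset.sum_congr rfl fun b _ => ?_
      rw [e2, Finset.mul_sum, ← Finset.sum_add_distrib]
      exact Finset.sum_congr rfl fun c _ => by ring
    intro x y
    rw [e3, e3]
    congr 2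
    · rw [Finset.sum_comm]
      congr 1
      refine Finset.sum_congr rfl fun b _ => Finset.sum_congr rfl fun c _ => ?_
      rw [h1 a ha b c]; ring
    · rw [Finset.sum_comm, Complex.re_sum, Complex.re_sum]
      refine Finset.sum_congr rfl fun b _ => ?_
      rw [Complex.re_sum, Complex.re_sum]
      refine Finset.sum_congr rfl fun c _ => ?_
      rw [h2 a ha c b]
      simp only [Complex.star_def, Complex.mul_re, Complex.mul_im, Complex.conj_re, Complex.conj_im]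
      ring
  obtain ⟨f, hf⟩ := (convex_ball z₀ r).exists_forall_hasFDerivAt_of_fderiv_symmetric isOpen_ball
    (hω.differentiableOn (by simp)) hs
  have hG : ∀ a ∈ ball z₀ r, HasFDerivAt (fun z => f z - f z₁) (bpt5pL N (ξ a)) a := fun a ha =>
    (hf a ha).sub_const _
  refine ⟨fun z => f z - f z₁, ?_, sub_self _, fun z hz => ?_⟩
  · rw [contDiffOn_infty_iff_fderiv_of_isOpen isOpen_ball]
    exact ⟨fun a ha => (hG a ha).differentiableAt.differentiableWithinAt,
      hω.congr fun a ha => (hG a ha).fderiv⟩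
  · funext a
    rw [dr, dz, bpt5p_ofReal (hG z hz).differentiableAt, bpt5p_ofReal (hG z hz).differentiableAt,
      (hG z hz).fderiv, bpt5p_L, bpt5p_L, single_dotProduct, single_dotProduct]
    apply Complex.ext <;> simp

theorem fderiv_dr {G : E N → ℝ} {z : E N} (hG : DifferentiableAt ℝ G z) (v : E N) :
    fderiv ℝ G z v = 2 * (v ⬝ᵥ dr G z).re := by
  have h := congrArg Complex.re (fderiv_eq_wirt (fun w => (G w : ℂ)) z v)
  rw [bpt5p_ofReal hG, Complex.ofReal_re] at h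
  rw [h, dotProduct, Complex.re_sum, Complex.re_sum, Finset.mul_sum]
  refine Finset.sum_congr rfl fun a _ => ?_
  rw [dr, dz, dzb, bpt5p_ofReal hG, bpt5p_ofReal hG]
  simp
  ring

lemma bpt5p_scale {g : E N → ℝ≥0∞} (hg : Measurable g) {a : ℝ} (ha : 1 / 2 ≤ a) (b : E N) :
    ∫⁻ z, g (a • z + b) ≤ ENNReal.ofReal (2 ^ Module.finrank ℝ (E N)) * ∫⁻ z, g z := by
  have h0 : 0 < a := by linarith
  have e1 : ∫⁻ z, g (a • z + b) = ∫⁻ z, g (z + b) ∂(Measure.map (a • ·) volume) :=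
    (lintegral_map (hg.comp (measurable_add_const b)) (measurable_const_smul a)).symm
  rw [e1, Measure.map_addHaar_smul volume h0.ne', lintegral_smul_measure,
    lintegral_add_right_eq_self, smul_eq_mul]
  refine mul_le_mul_left (ENNReal.ofReal_le_ofReal ?_) _
  rw [abs_of_pos (by positivity), ← inv_pow]
  refine pow_le_pow_left₀ (by positivity) ?_ _
  rw [inv_le_comm₀ h0 (by norm_num)]
  linarith

lemma bpt5p_seg {G : E N → ℝ} {z₀ : E N} {r : ℝ} (hG : ContDiffOn ℝ 1 G (ball z₀ r))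
    {z w : E N} (hz : z ∈ ball z₀ r) (hw : w ∈ ball z₀ r) :
    ‖G z - G ((1 / 2 : ℝ) • (z + w))‖ₑ ≤ ∫⁻ t in Icc (1 / 2 : ℝ) 1, ENNReal.ofReal (2 * r) *
      (ball z₀ r).indicator (fun y => ‖fderiv ℝ G y‖ₑ) (t • z + (1 - t) • w) := by
  have hm : ∀ t ∈ Icc (1 / 2 : ℝ) 1, t • z + (1 - t) • w ∈ ball z₀ r := fun t ht =>
    convex_ball z₀ r hz hw (by linarith [ht.1]) (by linarith [ht.2]) (by ring)
  have hc : ContDiffOn ℝ 1 (fun t : ℝ => G (t • z + (1 - t) • w)) (Icc (1 / 2) 1) :=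
    hG.comp (by fun_prop) hm
  have h := enorm_sub_le_lintegral_deriv_of_contDiffOn_Icc hc (by norm_num)
  have e1 : (1 : ℝ) • z + (1 - 1 : ℝ) • w = z := by simp
  have e2 : (1 / 2 : ℝ) • z + (1 - 1 / 2 : ℝ) • w = (1 / 2 : ℝ) • (z + w) := by
    rw [smul_add]; norm_num
  simp only [e1, e2] at h
  refine h.trans (setLIntegral_mono' measurableSet_Icc fun t ht => ?_)
  have hd : DifferentiableAt ℝ G (t • z + (1 - t) • w) :=
    (hG.differentiableOn (by simp)).differentiableAt (isOpen_ball.mem_nhds (hm t ht))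
  have hl : HasDerivAt (fun t : ℝ => t • z + (1 - t) • w) (z - w) t := by
    have := ((hasDerivAt_id t).smul_const z).add
      (((hasDerivAt_id t).const_sub 1).smul_const w)
    have e : (1 : ℝ) • z + (-1 : ℝ) • w = z - w := by simp [sub_eq_add_neg]
    rw [← e]
    exact this
  have hD := (hd.hasFDerivAt.comp_hasDerivAt t hl).deriv
  have hD' : deriv (fun t : ℝ => G (t • z + (1 - t) • w)) t =
      fderiv ℝ G (t • z + (1 - t) • w) (z - w) := hD
  rw [hD', indicator_of_mem (hm t ht), ← ofReal_norm, ← ofReal_norm,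
    ← ENNReal.ofReal_mul (by linarith [pos_of_mem_ball hz])]
  refine ENNReal.ofReal_le_ofReal ((ContinuousLinearMap.le_opNorm _ _).trans ?_)
  have hzw : ‖z - w‖ ≤ 2 * r := by
    have := dist_triangle_right z w z₀
    rw [dist_eq_norm] at this
    linarith [mem_ball.1 hz, mem_ball.1 hw]
  rw [mul_comm]
  exact mul_le_mul_of_nonneg_right hzw (norm_nonneg _)

lemma bpt5p_int {G : E N → ℝ} {z₀ : E N} {r : ℝ} (h0 : 0 < r)
    (hG : ContDiffOn ℝ 1 G (closedBall z₀ r)) :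
    IntegrableOn (fun z => ‖fderiv ℝ G z‖) (ball z₀ r) := by
  have hu : UniqueDiffOn ℝ (closedBall z₀ r) := uniqueDiffOn_convex (convex_closedBall z₀ r)
    ⟨z₀, mem_interior_iff_mem_nhds.2 (closedBall_mem_nhds z₀ h0)⟩
  have h1 := ((hG.continuousOn_fderivWithin hu le_rfl).norm.integrableOn_compact (μ := volume)
    (isCompact_closedBall z₀ r)).mono_set ball_subset_closedBall
  refine h1.congr_fun (fun z hz => ?_) measurableSet_ball
  simp only
  rw [fderivWithin_of_mem_nhds (mem_of_superset (isOpen_ball.mem_nhds hz) ball_subset_closedBall)]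

lemma bpt5p_mid {z₀ : E N} {r : ℝ} {z w : E N} (hz : z ∈ closedBall z₀ r)
    (hw : w ∈ closedBall z₀ r) : (1 / 2 : ℝ) • (z + w) ∈ closedBall z₀ r := by
  rw [smul_add]
  exact convex_closedBall z₀ r hz hw (by norm_num) (by norm_num) (by norm_num)

lemma bpt5p_half {G : E N → ℝ} {z₀ : E N} {r : ℝ} (h0 : 0 < r)
    (hG : ContDiffOn ℝ 1 G (closedBall z₀ r)) {w : E N} (hw : w ∈ ball z₀ r) {S : Set (E N)}
    (hS : MeasurableSet S) (hs : S ⊆ ball z₀ r) :
    |(∫ z in S, G z) - ∫ z in S, G ((1 / 2 : ℝ) • (z + w))| ≤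
      2 * r * 2 ^ Module.finrank ℝ (E N) * ∫ z in ball z₀ r, ‖fderiv ℝ G z‖ := by
  have hk := isCompact_closedBall z₀ r
  have hs' : S ⊆ closedBall z₀ r := hs.trans ball_subset_closedBall
  have i1 : IntegrableOn G S := (hG.continuousOn.integrableOn_compact hk).mono_set hs'
  have c2 : ContinuousOn (fun z => G ((1 / 2 : ℝ) • (z + w))) (closedBall z₀ r) :=
    hG.continuousOn.comp (by fun_prop) fun z hz => bpt5p_mid hz (ball_subset_closedBall hw)
  have i2 : IntegrableOn (fun z => G ((1 / 2 : ℝ) • (z + w))) S :=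
    (c2.integrableOn_compact hk).mono_set hs'
  rw [← integral_sub i1 i2, ← Real.norm_eq_abs]
  refine (norm_integral_le_lintegral_norm _).trans ?_
  have hI : 0 ≤ ∫ z in ball z₀ r, ‖fderiv ℝ G z‖ := integral_nonneg fun _ => norm_nonneg _
  refine ENNReal.toReal_le_of_le_ofReal (by positivity) ?_
  set g : E N → ℝ≥0∞ := (ball z₀ r).indicator fun y => ‖fderiv ℝ G y‖ₑ with hg
  have mg : Measurable g := (measurable_fderiv ℝ G).enorm.indicator measurableSet_ball
  have eg : ∫⁻ z, g z = ENNReal.ofReal (∫ z in ball z₀ r, ‖fderiv ℝ G z‖) := by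
    rw [hg, lintegral_indicator measurableSet_ball,
      ofReal_integral_eq_lintegral_ofReal (bpt5p_int h0 hG)
        (Eventually.of_forall fun _ => norm_nonneg _)]
    simp only [ofReal_norm]
  have mm : Measurable fun p : E N × ℝ => ENNReal.ofReal (2 * r) * g (p.2 • p.1 + (1 - p.2) • w) :=
    (mg.comp (by fun_prop)).const_mul _
  calc ∫⁻ z in S, ENNReal.ofReal ‖G z - G ((1 / 2 : ℝ) • (z + w))‖
      ≤ ∫⁻ z in S, ∫⁻ t in Icc (1 / 2 : ℝ) 1,
          ENNReal.ofReal (2 * r) * g (t • z + (1 - t) • w) := by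
        refine setLIntegral_mono' hS fun z hz => ?_
        rw [ofReal_norm]
        exact bpt5p_seg (hG.mono ball_subset_closedBall) (hs hz) hw
    _ ≤ ∫⁻ z, ∫⁻ t in Icc (1 / 2 : ℝ) 1, ENNReal.ofReal (2 * r) * g (t • z + (1 - t) • w) :=
        setLIntegral_le_lintegral _ _
    _ = ∫⁻ t in Icc (1 / 2 : ℝ) 1, ∫⁻ z, ENNReal.ofReal (2 * r) * g (t • z + (1 - t) • w) :=
        lintegral_lintegral_swap mm.aemeasurable
    _ ≤ ∫⁻ _ in Icc (1 / 2 : ℝ) 1, ENNReal.ofReal (2 * r) *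
          (ENNReal.ofReal (2 ^ Module.finrank ℝ (E N)) * ∫⁻ z, g z) := by
        refine setLIntegral_mono' measurableSet_Icc fun t ht => ?_
        rw [lintegral_const_mul' _ _ ENNReal.ofReal_ne_top]
        exact mul_le_mul_right (bpt5p_scale mg ht.1 _) _
    _ ≤ _ := by
        rw [setLIntegral_const, eg, Real.volume_Icc, ← ENNReal.ofReal_mul (by positivity),
          ← ENNReal.ofReal_mul (by positivity), ← ENNReal.ofReal_mul (by positivity)]
        refine ENNReal.ofReal_le_ofReal ?_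
        have : 0 ≤ 2 * r * 2 ^ Module.finrank ℝ (E N) * ∫ z in ball z₀ r, ‖fderiv ℝ G z‖ := by
          positivity
        nlinarith

theorem poincare (N : ℕ) {r : ℝ} (h0 : 0 < r) : ∃ C : ℝ, 0 < C ∧ ∀ (G : E N → ℝ) (z₀ : E N)
    (S T : Set (E N)), ContDiffOn ℝ 1 G (closedBall z₀ r) → MeasurableSet S → MeasurableSet T →
    S ⊆ ball z₀ r → T ⊆ ball z₀ r →
    volume.real T * ∫ z in S, G z ≤
      volume.real S * (∫ z in T, G z) + C * ∫ z in ball z₀ r, ‖fderiv ℝ G z‖ := by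
  have hv : 0 ≤ volume.real (ball (0 : E N) r) := measureReal_nonneg
  refine ⟨(2 * volume.real (ball (0 : E N) r) + 1) * (2 * r * 2 ^ Module.finrank ℝ (E N)),
    by positivity, fun G z₀ S T hG hS hT hs ht => ?_⟩
  have hk := isCompact_closedBall z₀ r
  have fb : volume (ball z₀ r) ≠ ⊤ := measure_ball_lt_top.ne
  have hb : ∀ U ⊆ ball z₀ r, volume.real U ≤ volume.real (ball (0 : E N) r) := fun U hU => by
    rw [measureReal_def (s := ball _ _), ← Measure.addHaar_ball_center volume z₀ r]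
    exact measureReal_mono hU fb
  have fS : volume S ≠ ⊤ := ne_top_of_le_ne_top fb (measure_mono hs)
  have fT : volume T ≠ ⊤ := ne_top_of_le_ne_top fb (measure_mono ht)
  have cM : ContinuousOn (fun p : E N × E N => G ((1 / 2 : ℝ) • (p.1 + p.2)))
      (closedBall z₀ r ×ˢ closedBall z₀ r) :=
    hG.continuousOn.comp (by fun_prop) fun p hp => bpt5p_mid hp.1 hp.2
  have iM : Integrable (Function.uncurry fun z w : E N => G ((1 / 2 : ℝ) • (z + w)))
      ((volume.restrict S).prod (volume.restrict T)) := by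
    rw [Measure.prod_restrict]
    exact (cM.integrableOn_compact (hk.prod hk)).mono_set
      (prod_mono (hs.trans ball_subset_closedBall) (ht.trans ball_subset_closedBall))
  set K := 2 * r * 2 ^ Module.finrank ℝ (E N) * ∫ z in ball z₀ r, ‖fderiv ℝ G z‖ with hK
  have hI : 0 ≤ ∫ z in ball z₀ r, ‖fderiv ℝ G z‖ := integral_nonneg fun _ => norm_nonneg _
  have K0 : 0 ≤ K := by positivity
  have a1 : volume.real T * ((∫ z in S, G z) - K) ≤
      ∫ w in T, ∫ z in S, G ((1 / 2 : ℝ) • (z + w)) := by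
    rw [← smul_eq_mul, ← setIntegral_const]
    refine setIntegral_mono_on (integrableOn_const fT) iM.integral_prod_right hT fun w hw => ?_
    have := (abs_le.1 (bpt5p_half h0 hG (ht hw) hS hs)).2
    linarith
  have a2 : ∫ z in S, ∫ w in T, G ((1 / 2 : ℝ) • (z + w)) ≤
      volume.real S * ((∫ z in T, G z) + K) := by
    rw [← smul_eq_mul, ← setIntegral_const]
    refine setIntegral_mono_on iM.integral_prod_left (integrableOn_const fS) hS fun z hz => ?_
    have := (abs_le.1 (bpt5p_half h0 hG (hs hz) hT ht)).1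
    simp only [add_comm z]
    linarith
  rw [integral_integral_swap iM] at a2
  have b1 := mul_le_mul_of_nonneg_right (hb S hs) K0
  have b2 := mul_le_mul_of_nonneg_right (hb T ht) K0
  rw [mul_assoc, ← hK]
  nlinarith

end Pool.Agent.BP
end

-- part Pool.Agent.P.MP_63735c_ag.BPT5d
section

/-! The local potential lemma: mollified potentials. -/

open scoped ComplexOrder ContDiff Matrix Topology ENNReal
open Set Metric MeasureTheory Filter

namespace Pool.Agent.BP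

open Pool.Agent.SPF Pool.Agent.AB Pool.Agent.CK Pool.Agent.SE Pool.Agent.NL

variable {N : ℕ} {z₀ : E N} {R a C : ℝ} {W : Set (E N)} {ψ : E N → ℝ} {ξ : E N → E N}
  {Ω e : E N → Mat N}

theorem bpt5c_near {f : E N → ℂ} (hf : AEStronglyMeasurable f volume) {K : Set (E N)}
    (hK : IsCompact K) (hc : ∀ x ∈ K, ContinuousAt f x) {γ : ℝ} (hγ : 0 < γ) :
    ∃ d₀ : ℝ, 0 < d₀ ∧ ∀ (d A : ℝ) (ρ : E N → ℝ), d ≤ d₀ → Ker d A ρ →
      ∀ x ∈ K, ‖cv ρ f x - f x‖ ≤ γ := by
  obtain ⟨δ, hδ, h⟩ := Metric.mem_uniformity_dist.1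
    (hK.uniformContinuousAt_of_continuousAt f hc (dist_mem_uniformity hγ))
  refine ⟨δ, hδ, fun d A ρ hd hρ x hx => ?_⟩
  rw [abmol1_eq, ← dist_eq_norm]
  refine dist_convolution_le (R := d) hγ.le ((subset_tsupport _).trans hρ.supp) hρ.nonneg hρ.one
    hf fun y hy => ?_
  have h1 : dist (f x) (f y) < γ :=
    h (a := x) (b := y) (by rw [dist_comm]; exact (mem_ball.1 hy).trans_le hd) hx
  rw [dist_comm]
  exact h1.le

theorem bpt5c_star (ρ : E N → ℝ) (f : E N → ℂ) (x : E N) :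
    cv ρ (fun y => star (f y)) x = star (cv ρ f x) := by
  rw [cv, cv, Complex.star_def, ← integral_conj]
  simp

theorem bpt5c_l1 {d A : ℝ} {ρ : E N → ℝ} (hρ : Ker d A ρ) {f : E N → ℂ} (hf : Integrable f) :
    ∃ g : E N → ℝ, Integrable g ∧ (∀ x, ‖cv ρ f x‖ ≤ g x) ∧ ∫ x, g x = ∫ x, ‖f x‖ := by
  have hi : Integrable ρ := integrable_of_integral_eq_one hρ.one
  refine ⟨convolution ρ (fun y => ‖f y‖) (ContinuousLinearMap.mul ℝ ℝ) volume,
    hi.integrable_convolution _ hf.norm, fun x => ?_, ?_⟩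
  · refine (norm_integral_le_integral_norm _).trans (le_of_eq ?_)
    simp [convolution_def, abs_of_nonneg (hρ.nonneg _)]
  · rw [integral_convolution _ hi hf.norm, hρ.one]
    simp

theorem bpt5c_jen {d A : ℝ} {ρ : E N → ℝ} (hρ : Ker d A ρ) {f : Fin N → E N → ℂ}
    {F : Fin N → Fin N → E N → ℂ} (hf : ∀ b, Integrable (f b)) (hF : ∀ b c, Integrable (F b c))
    {κ B : ℝ} (hκ : 0 ≤ κ) {v : E N}
    (h : ∀ x, κ * ‖v ⬝ᵥ fun b => f b x‖ ^ 2 - B ≤ hr (Matrix.of fun b c => F b c x) v) (z : E N) :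
    κ * ‖v ⬝ᵥ fun b => cv ρ (f b) z‖ ^ 2 - B ≤ hr (Matrix.of fun b c => cv ρ (F b c) z) v := by
  have hI : ∀ {u : E N → ℂ}, Integrable u → Integrable fun y => (ρ y : ℂ) * u (z - y) :=
    fun hu => abmol1_int hρ.smooth.continuous hρ.cpt hu.locallyIntegrable z
  have hi : Integrable ρ := integrable_of_integral_eq_one hρ.one
  have i1 : Integrable fun x => v ⬝ᵥ fun b => f b x :=
    integrable_finsetSum _ fun b _ => (hf b).const_mul _
  have i2 : Integrable fun x => hq (Matrix.of fun b c => F b c x) v v := by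
    simp only [hq_sum_eq]
    exact integrable_finsetSum _ fun b _ => integrable_finsetSum _ fun c _ =>
      ((hF b c).const_mul _).mul_const _
  have e1 : (v ⬝ᵥ fun b => cv ρ (f b) z) = cv ρ (fun x => v ⬝ᵥ fun b => f b x) z := by
    simp only [dotProduct, cv, Finset.mul_sum, mul_left_comm _ (v _)]
    rw [integral_finsetSum _ fun b _ => (hI (hf b)).const_mul _]
    simp only [integral_const_mul]
  have e2 : hq (Matrix.of fun b c => cv ρ (F b c) z) v v =
      cv ρ (fun x => hq (Matrix.of fun b c => F b c x) v v) z := by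
    simp only [hq_sum_eq, cv, Finset.mul_sum, Matrix.of_apply]
    rw [integral_finsetSum _ fun b _ => integrable_finsetSum _ fun c _ =>
      hI (((hF b c).const_mul _).mul_const _)]
    refine Finset.sum_congr rfl fun b _ => ?_
    rw [integral_finsetSum _ fun c _ => hI (((hF b c).const_mul _).mul_const _)]
    refine Finset.sum_congr rfl fun c _ => ?_
    rw [← integral_const_mul, ← integral_mul_const]
    exact integral_congr_ae (Eventually.of_forall fun y => by ring)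
  rw [hr, e1, e2]
  replace h : ∀ x, κ * ‖(fun x => v ⬝ᵥ fun b => f b x) x‖ ^ 2 - B ≤
    hr (Matrix.of fun b c => F b c x) v := h
  generalize (fun x => v ⬝ᵥ fun b => f b x) = g at *
  set m := cv ρ g z with hm
  have i3 := (hI i1).mul_const (star m)
  have e3 : ∫ y, ((ρ y : ℂ) * g (z - y) * star m).re = ‖m‖ ^ 2 := by
    have := integral_re i3
    simp only [RCLike.re_to_complex] at this
    rw [this, integral_mul_const, ← cv, ← hm, Complex.star_def, Complex.mul_conj, Complex.ofReal_re,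
      Complex.normSq_eq_norm_sq]
  have i4 : Integrable fun y => ((ρ y : ℂ) * g (z - y) * star m).re := i3.re
  have e4 := integral_re (hI i2)
  simp only [RCLike.re_to_complex] at e4
  rw [cv, ← e4]
  have e5 : ∫ y, (2 * κ * ((ρ y : ℂ) * g (z - y) * star m).re - (κ * ‖m‖ ^ 2 + B) * ρ y) =
      κ * ‖m‖ ^ 2 - B := by
    rw [integral_sub (i4.const_mul _) (hi.const_mul _), integral_const_mul, integral_const_mul, e3,
      hρ.one]
    ring
  rw [← e5]
  refine integral_mono ((i4.const_mul _).sub (hi.const_mul _)) (hI i2).re fun y => ?_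
  have h1 := mul_le_mul_of_nonneg_left (h (z - y)) (hρ.nonneg y)
  have h2 : 2 * (g (z - y) * star m).re - ‖m‖ ^ 2 ≤ ‖g (z - y)‖ ^ 2 := by
    rw [Complex.sq_norm, Complex.sq_norm, Complex.normSq_apply, Complex.normSq_apply]
    simp only [Complex.star_def, Complex.mul_re, Complex.conj_re, Complex.conj_im]
    nlinarith [sq_nonneg ((g (z - y)).re - m.re), sq_nonneg ((g (z - y)).im - m.im)]
  have h3 := mul_le_mul_of_nonneg_left h2 (mul_nonneg (hρ.nonneg y) hκ)
  simp only [mul_assoc (ρ y : ℂ), Complex.re_ofReal_mul]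
  simp only [hr] at h1
  nlinarith

theorem bpt5c_dz {d A : ℝ} {ρ : E N → ℝ} (hρ : Ker d A ρ) (hd : 0 < d) {f : E N → ℂ} {O : Set (E N)}
    (hO : IsOpen O) (hf : ContDiffOn ℝ ∞ f O) {z : E N} (hz : closedBall z (2 * d) ⊆ O)
    (b : Fin N) : dz b (cv ρ f) z = cv ρ (dz b f) z := by
  obtain ⟨χ, δ, hχ, -, hδ, h1⟩ := exists_bump hO (isCompact_closedBall z (2 * d)) hz
  have hc : Tst O fun y => (χ y : ℂ) :=
    ⟨Complex.ofRealCLM.contDiff.comp hχ.smooth, hχ.cpt.comp_left Complex.ofReal_zero,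
      (tsupport_comp_subset Complex.ofReal_zero χ).trans hχ.sub⟩
  have ht := (hc.mul_on hO hf).1
  have ht' : Tst univ fun y => (χ y : ℂ) * f y := ⟨ht.smooth, ht.cpt, subset_univ _⟩
  have he : ∀ y ∈ closedBall z (2 * d), f =ᶠ[𝓝 y] fun y => (χ y : ℂ) * f y := fun y hy => by
    filter_upwards [ball_mem_nhds y hδ] with w hw
    rw [h1 y hy w hw, Complex.ofReal_one, one_mul]
  have h2 : cv ρ f =ᶠ[𝓝 z] cv ρ fun y => (χ y : ℂ) * f y := by
    filter_upwards [ball_mem_nhds z hd] with x hx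
    refine cv_local hρ fun y hy => (he y ?_).self_of_nhds
    rw [mem_ball] at hx hy
    rw [mem_closedBall]
    linarith [dist_triangle y x z]
  rw [(dz_congr h2 b).self_of_nhds, (dz_cv hρ ht' b z).1]
  refine cv_local hρ fun y hy => (dz_congr (he y ?_) b).self_of_nhds.symm
  rw [mem_ball] at hy
  rw [mem_closedBall]
  linarith

theorem bpt5c_closed {η : Fin N → E N → ℂ} (hη : ∀ b, ContDiff ℝ ∞ (η b)) {B : Set (E N)}
    (hB : IsOpen B) (hc : Convex ℝ B)
    (h2 : ∀ z ∈ B, ∀ b c, dzb c (η b) z = star (dzb b (η c) z)) {z₁ : E N} (hz : z₁ ∈ B)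
    (h1 : ∀ᶠ z in 𝓝 z₁, ∀ b c, dz b (η c) z = dz c (η b) z) :
    ∀ z ∈ B, ∀ b c, dz b (η c) z = dz c (η b) z := by
  intro z hzB b c
  have hs : ∀ x, ∀ b, ContDiffAt ℝ ∞ (η b) x := fun x b => (hη b).contDiffAt
  have hd : ∀ x, ∀ b c, DifferentiableAt ℝ (dz b (η c)) x := fun x b c =>
    (ablev_dz (hs x c) b).1.differentiableAt (by simp)
  have key : ∀ x ∈ B, ∀ b c k, dzb k (dz b (η c)) x =
      dz b (dz c fun y => star (η k y)) x := by
    intro x hx b c k
    rw [← (ablev_comm (hs x c) b k).1]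
    refine (dz_congr ?_ b).self_of_nhds
    filter_upwards [hB.mem_nhds hx] with y hy
    rw [h2 y hy, (star_dz _ _ _).2]
  have hh : DifferentiableOn ℂ (fun x => dz b (η c) x - dz c (η b) x) B := fun x hx => by
    refine (diff_of_dzb ((hd x b c).fun_sub (hd x c b)) fun k => ?_).differentiableWithinAt
    rw [(dz_sub (hd x b c) (hd x c b) k).2, key x hx, key x hx, sub_eq_zero]
    exact (ablev_comm (Complex.conjCLE.contDiff.contDiffAt.comp x (hs x k)) b c).2
  have := spident_scv hB hc hh (differentiableOn_const (0 : ℂ)) hz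
    (h1.mono fun x hx => sub_eq_zero.2 (hx b c)) hzB
  exact sub_eq_zero.1 this

theorem bpt5c_fd {G g : E N → ℝ} {z : E N} (hG : DifferentiableAt ℝ G z)
    (hg : DifferentiableAt ℝ g z) :
    ‖fderiv ℝ (fun y => G y - g y) z‖ ≤ 2 * N * ‖dr G z - dr g z‖ := by
  refine ContinuousLinearMap.opNorm_le_bound _ (by positivity) fun v => ?_
  rw [fderiv_fun_sub hG hg, sub_apply, fderiv_dr hG, fderiv_dr hg, ← mul_sub,
    ← Complex.sub_re, ← dotProduct_sub, norm_mul, Real.norm_two]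
  have := (Complex.abs_re_le_norm _).trans (dot_norm_le v (dr G z - dr g z))
  rw [Real.norm_eq_abs]
  nlinarith

/-- The approximating potentials. -/
structure Bpt5cSeq (B D : Set (E N)) (ξ : E N → E N) (z₁ : E N) (G : ℕ → E N → ℝ)
    (κ A L : ℝ) : Prop where
  κ_pos : 0 < κ
  A_pos : 0 < A
  smooth : ∀ n, ContDiffOn ℝ ∞ (G n) B
  zero : ∀ n, G n z₁ = 0
  low : ∀ n, ∀ z ∈ B, ∀ v, κ * ‖v ⬝ᵥ dr (G n) z‖ ^ 2 - A * nsq v ≤ hr (lev (G n) z) v
  l1 : ∀ n, ∀ T ⊆ B, MeasurableSet T → ∫ z in T, ‖fderiv ℝ (G n) z‖ ≤ L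
  lim : ∀ K ⊆ D, IsCompact K → ∀ γ > 0, ∀ᶠ n in atTop, ∀ x ∈ K, ‖dr (G n) x - ξ x‖ ≤ γ

theorem bpt5c_herm (h : PotD z₀ R W ψ ξ Ω e a C) {x : E N} (hx : x ∈ W) (b c : Fin N) :
    star (a * Ω x c b - e x c b) = a * Ω x b c - e x b c := by
  rw [star_sub, star_mul', (h.Ω_psd x hx).1.apply, (h.e_herm x (h.sub hx)).apply]
  simp

theorem bpt5c_seq (h : PotD z₀ R W ψ ξ Ω e a C)
    (h0 : ∀ z ∈ W, ∀ b c, dz b (fun w => ξ w c) z = dz c (fun w => ξ w b) z) {z₁ : E N}
    (hz : z₁ ∈ W ∩ ball z₀ (R / 128)) : ∃ G κ A L,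
      Bpt5cSeq (ball z₀ (R / 128)) (W ∩ ball z₀ (R / 128)) ξ z₁ G κ A L := by
  have hR := h.toPol.R_pos
  set S := W ∩ ball z₀ (R / 64) with hSd
  have hS : IsOpen S := h.isOpen.inter isOpen_ball
  have hBS : W ∩ ball z₀ (R / 128) ⊆ S :=
    inter_subset_inter_right _ (ball_subset_ball (by linarith))
  have hK : closedBall z₀ (R / 64) ⊆ ball z₀ R := closedBall_subset_ball (by linarith)
  have hSK : S ⊆ closedBall z₀ (R / 64) := inter_subset_right.trans ball_subset_closedBall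
  have hξ : ∀ b, ContDiffOn ℝ ∞ (fun w => ξ w b) S := fun b =>
    (contDiffOn_pi.1 h.ξ_smooth b).mono inter_subset_left
  set f : Fin N → E N → ℂ := fun b => S.indicator fun w => ξ w b with hfd
  set F : Fin N → Fin N → E N → ℂ := fun b c => S.indicator fun w => a * Ω w b c - e w b c with hFd
  have hf : ∀ b, Integrable (f b) := fun b => by
    rw [hfd, integrable_indicator_iff hS.measurableSet]
    have h1 : IntegrableOn (fun _ => (1 : ℝ)) S volume :=
      (continuousOn_const.integrableOn_compact (isCompact_closedBall _ _)).mono_set hSK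
    refine Integrable.mono' (h1.add (h.int b b).2)
      ((hξ b).continuousOn.aestronglyMeasurable hS.measurableSet) (Eventually.of_forall fun x => ?_)
    simp only [Pi.add_apply]
    nlinarith [sq_nonneg (‖ξ x b‖ - 1), norm_nonneg (ξ x b)]
  have hF : ∀ b c, Integrable (F b c) := fun b c => by
    rw [hFd, integrable_indicator_iff hS.measurableSet]
    exact ((h.int b c).1.const_mul _).sub ((((h.e_smooth b c).continuousOn.mono
      hK).integrableOn_compact (isCompact_closedBall _ _)).mono_set hSK)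
  have hfe : ∀ b, ∀ y ∈ S, f b =ᶠ[𝓝 y] fun w => ξ w b := fun b y hy => by
    filter_upwards [hS.mem_nhds hy] with w hw using indicator_of_mem hw _
  obtain ⟨d₁, hd₁, hsub⟩ := Metric.isOpen_iff.1 hS z₁ (hBS hz)
  set d₀ := min (d₁ / 4) (R / 128) with hd₀
  have hd₀p : 0 < d₀ := by positivity
  have hd1 : d₀ ≤ d₁ / 4 := min_le_left _ _
  set d : ℕ → ℝ := fun n => d₀ / (n + 1) with hdd
  have hdp : ∀ n, 0 < d n := fun n => by positivity
  have hdl : ∀ n, d n ≤ d₀ := fun n => div_le_self hd₀p.le (by simp)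
  have hdt : Tendsto d atTop (𝓝 0) := by
    simpa [hdd, div_eq_mul_inv] using
      (tendsto_one_div_add_atTop_nhds_zero_nat (𝕜 := ℝ)).const_mul d₀
  obtain ⟨A₀, hA₀⟩ := exists_ker N
  choose ρ hρ using fun n => hA₀ (d n) (hdp n)
  have hsm : ∀ n b, ContDiff ℝ ∞ (cv (ρ n) (f b)) := fun n b =>
    cv_smooth (hρ n) (hf b).locallyIntegrable
  have hdb : ∀ n, ∀ z ∈ ball z₀ (R / 128), ∀ b c, dzb c (cv (ρ n) (f b)) z = cv (ρ n) (F b c) z :=
    fun n z hz b c => h.mol_db (hρ n) ((hdl n).trans (min_le_right _ _)) b c hz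
  have h2 : ∀ n, ∀ z ∈ ball z₀ (R / 128), ∀ b c,
      dzb c (cv (ρ n) (f b)) z = star (dzb b (cv (ρ n) (f c)) z) := fun n z hz b c => by
    rw [hdb n z hz, hdb n z hz, ← bpt5c_star]
    congr 1
    funext x
    by_cases hx : x ∈ S
    · simp only [hFd, indicator_of_mem hx, bpt5c_herm h hx.1]
    · simp only [hFd, indicator_of_notMem hx, star_zero]
  have h1 : ∀ n, ∀ z ∈ ball z₀ (R / 128), ∀ b c,
      dz b (cv (ρ n) (f c)) z = dz c (cv (ρ n) (f b)) z := fun n => by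
    refine bpt5c_closed (hsm n) isOpen_ball (convex_ball _ _) (h2 n) hz.2 ?_
    filter_upwards [ball_mem_nhds z₁ hd₀p] with x hx b c
    have hx' : closedBall x (2 * d n) ⊆ S := (closedBall_subset_ball' (by
      rw [mem_ball] at hx; linarith [hdl n])).trans hsub
    have hs : ∀ b, ContDiffOn ℝ ∞ (f b) S := fun b =>
      (hξ b).congr fun y hy => (hfe b y hy).self_of_nhds
    rw [bpt5c_dz (hρ n) (hdp n) hS (hs c) hx', bpt5c_dz (hρ n) (hdp n) hS (hs b) hx']
    refine cv_local (hρ n) fun y hy => ?_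
    have hy' : y ∈ S := hx' (ball_subset_closedBall (ball_subset_ball (by linarith [hdp n]) hy))
    rw [(dz_congr (hfe c y hy') b).self_of_nhds, (dz_congr (hfe b y hy') c).self_of_nhds,
      h0 y hy'.1]
  choose G hG hG0 hGd using fun n => exists_pot (ξ := fun z b => cv (ρ n) (f b) z)
    (contDiff_pi.2 (hsm n)).contDiffOn (h1 n) (h2 n) hz.2
  obtain ⟨A, hA, hAe⟩ := cpt_upper (h := e) (isCompact_closedBall z₀ (R / 64))
    fun b c => (h.e_smooth b c).continuousOn.mono hK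
  have hC : 0 < max C 1 := lt_max_of_lt_right one_pos
  have hκ : 0 < a / max C 1 := div_pos h.a_pos hC
  refine ⟨G, a / max C 1, A, 2 * N * ∑ b, ∫ x, ‖f b x‖, hκ, hA, hG, hG0, fun n z hz v => ?_,
    fun n T hT hTm => ?_, fun K hKD hK γ hγ => ?_⟩
  · have e1 : lev (G n) z = Matrix.of fun b c => cv (ρ n) (F b c) z := by
      ext b c
      rw [lev_apply, (ablev_comm (ablev_re ((hG n).contDiffAt (isOpen_ball.mem_nhds hz))) b c).1,
        Matrix.of_apply, ← hdb n z hz]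
      refine (dzb_congr ?_ c).self_of_nhds
      filter_upwards [isOpen_ball.mem_nhds hz] with y hy using congrFun (hGd n y hy) b
    rw [e1, hGd n z hz]
    refine bpt5c_jen (hρ n) hf hF hκ.le (fun x => ?_) z
    have hv := (nsq_le v).1
    by_cases hx : x ∈ S
    · have e2 : (Matrix.of fun b c => F b c x) = (a : ℂ) • Ω x + (-1 : ℂ) • e x := by
        ext b c
        simp [hFd, indicator_of_mem hx, sub_eq_add_neg]
      have e3 : (fun b => f b x) = ξ x := funext fun b => indicator_of_mem hx _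
      have h3 := (Complex.re_le_norm _).trans (hAe x (hSK hx) v v).1
      have h4 := (h.bd x hx.1 v).trans (mul_le_mul_of_nonneg_right (le_max_left C 1)
        (hq_nonneg (h.Ω_psd x hx.1) v))
      have h5 := mul_le_mul_of_nonneg_left h4 hκ.le
      rw [← mul_assoc, div_mul_cancel₀ _ hC.ne'] at h5
      rw [hr, e2, e3, hq_add, hq_smul, hq_smul, Complex.add_re, Complex.re_ofReal_mul, neg_one_mul,
        Complex.neg_re]
      nlinarith
    · have e2 : (Matrix.of fun b c => F b c x) = 0 := by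
        ext b c
        simp [hFd, indicator_of_notMem hx]
      have e3 : (fun b => f b x) = 0 := funext fun b => indicator_of_notMem hx _
      rw [hr, e2, e3, hq_zero, dotProduct_zero, norm_zero, Complex.zero_re]
      nlinarith [sq_nonneg ‖v‖]
  · choose g hg hg1 hg2 using fun b => bpt5c_l1 (hρ n) (hf b)
    have hi : Integrable fun x => 2 * (N : ℝ) * ∑ b, g b x :=
      (integrable_finsetSum _ fun b _ => hg b).const_mul _
    have hg0 : ∀ b x, 0 ≤ g b x := fun b x => (norm_nonneg _).trans (hg1 b x)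
    have hs : ∀ x, 0 ≤ ∑ b, g b x := fun x => Finset.sum_nonneg fun b _ => hg0 b x
    refine (integral_mono_of_nonneg (Eventually.of_forall fun x => norm_nonneg _) hi.integrableOn
      (ae_restrict_of_forall_mem hTm fun x hx => ?_)).trans
      ((setIntegral_le_integral hi (Eventually.of_forall fun x => ?_)).trans (le_of_eq ?_))
    · have h3 := bpt5c_fd (diffAt isOpen_ball (hG n) (hT hx)) (differentiableAt_const (0 : ℝ))
      simp only [sub_zero, dr_const] at h3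
      refine h3.trans (mul_le_mul_of_nonneg_left ?_ (by positivity))
      rw [hGd n x (hT hx), pi_norm_le_iff_of_nonneg (hs x)]
      exact fun b => (hg1 b x).trans (Finset.single_le_sum (fun c _ => hg0 c x) (Finset.mem_univ b))
    · exact mul_nonneg (by positivity) (hs x)
    · rw [integral_const_mul, integral_finsetSum _ fun b _ => hg b]
      simp only [hg2]
  · have h3 : ∀ b, ∀ᶠ n in atTop, ∀ x ∈ K, ‖cv (ρ n) (f b) x - f b x‖ ≤ γ := fun b => by
      obtain ⟨δ, hδ, h4⟩ := bpt5c_near (hf b).aestronglyMeasurable hK (fun x hx =>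
        (((hξ b).continuousOn.continuousAt (hS.mem_nhds (hBS (hKD hx)))).congr
          (hfe b x (hBS (hKD hx))).symm)) hγ
      filter_upwards [hdt.eventually (ge_mem_nhds hδ)] with n hn using h4 _ _ _ hn (hρ n)
    filter_upwards [eventually_all.2 h3] with n hn x hx
    rw [hGd n x (hKD hx).2, pi_norm_le_iff_of_nonneg hγ.le]
    intro b
    have := hn b x hx
    rwa [(hfe b x (hBS (hKD hx))).self_of_nhds] at this

end Pool.Agent.BP
end

-- part Pool.Agent.P.MP_63735c_ag.BPT5c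
section

/-! The local potential lemma: the potential. -/

open scoped ComplexOrder ContDiff Matrix Topology ENNReal
open Set Metric MeasureTheory Filter

namespace Pool.Agent.BP

open Pool.Agent.SPF Pool.Agent.AB Pool.Agent.CK Pool.Agent.SE Pool.Agent.NL

variable {N : ℕ} {z₀ : E N} {R a C : ℝ} {W : Set (E N)} {ψ : E N → ℝ} {ξ : E N → E N}
  {Ω e : E N → Mat N}

variable {D : Set (E N)} {z₁ : E N} {G : ℕ → E N → ℝ} {κ A L r : ℝ}

theorem bpt5c_loc (h : PotD z₀ R W ψ ξ Ω e a C)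
    (h0 : ∀ z ∈ W, ∀ b c, dz b (fun w => ξ w c) z = dz c (fun w => ξ w b) z)
    (s : Bpt5cSeq (ball z₀ r) (W ∩ ball z₀ r) ξ z₁ G κ A L) {z : E N} (hz : z ∈ W ∩ ball z₀ r) :
    ∃ (ε : ℝ) (g : E N → ℝ), 0 < ε ∧ ball z (2 * ε) ⊆ W ∩ ball z₀ r ∧
      ContDiffOn ℝ ∞ g (ball z (2 * ε)) ∧ (∀ y ∈ ball z (2 * ε), dr g y = ξ y) ∧
      ∀ γ > 0, ∀ᶠ n in atTop, ∀ y ∈ closedBall z ε, |G n y - G n z - g y| ≤ γ := by
  obtain ⟨δ, hδ, hsub⟩ := Metric.isOpen_iff.1 (h.isOpen.inter isOpen_ball) z hz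
  obtain ⟨ε, rfl⟩ : ∃ ε, δ = 2 * ε := ⟨δ / 2, by ring⟩
  have hε : 0 < ε := by linarith
  obtain ⟨g, hg, hg0, hgd⟩ := exists_pot (h.ξ_smooth.mono (hsub.trans inter_subset_left))
    (fun y hy => h0 y (hsub hy).1) (fun y hy b c => by
      rw [h.eq y (hsub hy).1, h.eq y (hsub hy).1, bpt5c_herm h (hsub hy).1]) (mem_ball_self hδ)
  refine ⟨ε, g, hε, hsub, hg, hgd, fun γ hγ => ?_⟩
  have hc : closedBall z ε ⊆ ball z (2 * ε) := closedBall_subset_ball (by linarith)
  have hp : 0 < 2 * N * ε + 1 := by positivity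
  filter_upwards [s.lim _ (hc.trans hsub) (isCompact_closedBall z ε) _ (div_pos hγ hp)]
    with n hn y hy
  have d1 : ∀ x ∈ closedBall z ε, DifferentiableAt ℝ (G n) x := fun x hx =>
    diffAt isOpen_ball (s.smooth n) (hsub (hc hx)).2
  have d2 : ∀ x ∈ closedBall z ε, DifferentiableAt ℝ g x := fun x hx =>
    diffAt isOpen_ball hg (hc hx)
  have h1 := (convex_closedBall z ε).norm_image_sub_le_of_norm_fderiv_le (𝕜 := ℝ)
    (f := fun x => G n x - g x) (C := 2 * N * (γ / (2 * N * ε + 1)))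
    (fun x hx => (d1 x hx).fun_sub (d2 x hx)) (fun x hx => (bpt5c_fd (d1 x hx) (d2 x hx)).trans
      (mul_le_mul_of_nonneg_left (by rw [hgd x (hc hx)]; exact hn x hx) (by positivity)))
    (mem_closedBall_self hε.le) hy
  have h2 : ‖y - z‖ ≤ ε := mem_closedBall_iff_norm.1 hy
  have h3 : 2 * N * (γ / (2 * N * ε + 1)) * ε ≤ γ := by
    rw [mul_right_comm, ← mul_div_assoc, div_le_iff₀ hp]
    nlinarith
  have h4 := h1.trans ((mul_le_mul_of_nonneg_left h2 (by positivity)).trans h3)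
  rw [hg0, sub_zero, Real.norm_eq_abs] at h4
  rwa [sub_right_comm]

theorem bpt5c_nsq (z v : E N) : hr (lev nsq z) v = nsq v := by
  have := (lev_nsq (F := fun w : E N => w) (z := z)
    (Eventually.of_forall fun w => differentiableAt_id)).2.2.2 v
  simpa using this

theorem bpt5c_nsq0 (z : E N) : 0 ≤ nsq z := (sq_nonneg _).trans (nsq_le z).1

theorem bpt5c_add {g : E N → ℝ} {z : E N} (hg : ContDiffAt ℝ ∞ g z) (c : ℝ) (v : E N) :
    ContDiffAt ℝ ∞ (fun y => g y + c * nsq y) z ∧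
      hr (lev (fun y => g y + c * nsq y) z) v = hr (lev g z) v + c * nsq v ∧
      dr (fun y => g y + c * nsq y) z = dr g z + (c : ℂ) • dr nsq z := by
  have h1 : ContDiffAt ℝ ∞ (nsq : E N → ℝ) z := nsq_smooth.contDiffAt
  have h2 : ContDiffAt ℝ ∞ (fun y : E N => c * nsq y) z := contDiffAt_const.mul h1
  refine ⟨hg.add h2, ?_, ?_⟩
  · rw [lev_add hg h2, lev_smul h1, hr, hq_add, hq_smul, Complex.add_re, Complex.re_ofReal_mul,
      ← bpt5c_nsq z v]
  · rw [dr_add (hg.differentiableAt (by simp)) (h2.differentiableAt (by simp)),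
      dr_chain (ρ := fun t => c * t) (by simpa using (hasDerivAt_id (nsq z)).const_mul c)
        (h1.differentiableAt (by simp))]

theorem bpt5c_lp (s : Bpt5cSeq (ball z₀ (16 * r)) D ξ z₁ G κ A L) (hr0 : 0 < r)
    (hz : z₁ ∈ ball z₀ r) : ∃ δ : ℝ, 0 < δ ∧ ∀ p : ℕ, ∃ B : ℝ, ∀ n,
      ∫ y in ball z₀ r, Real.exp (-(δ * G n y)) ^ p ≤ B := by
  have hK := isCompact_closedBall z₀ (16 * r)
  obtain ⟨M, hM⟩ := hK.exists_bound_of_continuousOn (nsq_smooth (M := N)).continuous.continuousOn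
  obtain ⟨M₁, hM₁⟩ := hK.exists_bound_of_continuousOn
    ((dr_smooth isOpen_univ (nsq_smooth (M := N)).contDiffOn).continuousOn.mono (subset_univ _))
  have hκ := s.κ_pos
  have hA := s.A_pos
  set Y := (A + 1) * (N * M₁) with hY
  set δ := min (κ / 2) (1 / (2 * Y ^ 2 + 1)) with hδd
  have hδ : 0 < δ := by positivity
  have hδ1 : 2 * δ ≤ κ := by linarith [min_le_left (κ / 2) (1 / (2 * Y ^ 2 + 1))]
  have hδ2 : δ * (2 * Y ^ 2 + 1) ≤ 1 := (le_div_iff₀ (by positivity)).1 (min_le_right _ _)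
  refine ⟨δ, hδ, fun p => ?_⟩
  obtain ⟨B, hB, hlp⟩ := lp N p hr0
  rw [mem_ball] at hz
  have h8 : ball z₁ (8 * r) ⊆ ball z₀ (16 * r) := ball_subset_ball' (by linarith)
  have h2 : closedBall z₁ (2 * r) ⊆ ball z₀ (16 * r) := closedBall_subset_ball' (by linarith)
  have h1 : ball z₀ r ⊆ ball z₁ (2 * r) := ball_subset_ball' (by rw [dist_comm]; linarith)
  refine ⟨Real.exp (δ * ((A + 1) * M)) ^ p * (B * 2 ^ p), fun n => ?_⟩
  set u : E N → ℝ := fun y => G n y + (A + 1) * nsq y with hu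
  have hG : ∀ y ∈ ball z₀ (16 * r), ContDiffAt ℝ ∞ (G n) y := fun y hy =>
    (s.smooth n).contDiffAt (isOpen_ball.mem_nhds hy)
  have hw : ContDiffOn ℝ ∞ (fun y => -Real.exp (-(δ * u y))) (ball z₀ (16 * r)) := fun y hy =>
    (contDiffAt_const.mul (bpt5c_add (hG y hy) (A + 1) 0).1).neg.exp.neg.contDiffWithinAt
  have h3 := hlp (fun y => -Real.exp (-(δ * u y))) z₁ (hw.mono h8) fun y hy => by
    refine ⟨neg_nonpos.2 (Real.exp_pos _).le, fun v => ?_⟩
    obtain ⟨c1, c2, c3⟩ := bpt5c_add (hG y (h8 hy)) (A + 1) v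
    have e0 : ∀ t : ℝ, HasDerivAt (fun t => Real.exp (-(δ * t))) (Real.exp (-(δ * t)) * -δ) t :=
      fun t => by simpa using ((hasDerivAt_id t).const_mul δ).fun_neg.exp
    have e1 := lev_chain (ρ := fun t => -Real.exp (-(δ * t)))
      (ρ₁ := fun t => δ * Real.exp (-(δ * t))) (ρ₂ := δ * (Real.exp (-(δ * u y)) * -δ))
      (Eventually.of_forall fun t => (e0 t).fun_neg.congr_deriv (by ring))
      ((e0 _).const_mul δ) c1 v
    have b1 : ‖v ⬝ᵥ dr u y‖ ≤ ‖v ⬝ᵥ dr (G n) y‖ + Y * ‖v‖ := by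
      have b0 := (dot_norm_le v (dr nsq y)).trans (mul_le_mul_of_nonneg_left
        (hM₁ y (ball_subset_closedBall (h8 hy))) (by positivity))
      rw [hu, c3, dotProduct_add, dotProduct_smul]
      refine (norm_add_le _ _).trans (add_le_add_right ?_ _)
      rw [norm_smul, Complex.norm_real, Real.norm_of_nonneg (by positivity), hY]
      nlinarith
    have b2 := s.low n y (h8 hy) v
    have b3 := (nsq_le v).1
    have b4 : δ * ‖v ⬝ᵥ dr u y‖ ^ 2 ≤ hr (lev u y) v := by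
      have b5 : ‖v ⬝ᵥ dr u y‖ ^ 2 ≤ 2 * ‖v ⬝ᵥ dr (G n) y‖ ^ 2 + 2 * Y ^ 2 * ‖v‖ ^ 2 :=
        (pow_le_pow_left₀ (norm_nonneg _) b1 2).trans
          (by nlinarith [sq_nonneg (‖v ⬝ᵥ dr (G n) y‖ - Y * ‖v‖)])
      have b6 := mul_le_mul_of_nonneg_right hδ1 (sq_nonneg ‖v ⬝ᵥ dr (G n) y‖)
      have b7 := mul_le_mul_of_nonneg_right hδ2 (sq_nonneg ‖v‖)
      have b8 := mul_le_mul_of_nonneg_left b5 hδ.le
      have b9 := mul_nonneg hδ.le (sq_nonneg ‖v‖)
      rw [hu, c2]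
      nlinarith
    have b5 := mul_le_mul_of_nonneg_left b4 (mul_pos hδ (Real.exp_pos (-(δ * u y)))).le
    rw [hr, e1]
    rw [hr] at b5
    nlinarith
  have h4 : (1 + |-Real.exp (-(δ * u z₁))|) ^ p ≤ 2 ^ p := by
    refine pow_le_pow_left₀ (by positivity) ?_ p
    have : Real.exp (-(δ * u z₁)) ≤ 1 := Real.exp_le_one_iff.2 (neg_nonpos.2 (by
      have := bpt5c_nsq0 z₁
      simp only [hu, s.zero n, zero_add]
      positivity))
    rw [abs_neg, abs_of_pos (Real.exp_pos _)]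
    linarith
  have hi : IntegrableOn (fun y => |-Real.exp (-(δ * u y))| ^ p) (ball z₁ (2 * r)) volume :=
    (((hw.continuousOn.mono h2).abs.pow p).integrableOn_compact
      (isCompact_closedBall _ _)).mono_set ball_subset_closedBall
  have h5 := (setIntegral_mono_set hi (Eventually.of_forall fun y => by positivity)
    h1.eventuallyLE).trans (h3.trans (mul_le_mul_of_nonneg_left h4 hB.le))
  refine le_trans ?_ (mul_le_mul_of_nonneg_left h5 (by positivity))
  rw [← integral_const_mul]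
  refine integral_mono_of_nonneg (Eventually.of_forall fun y => by positivity)
    ((hi.mono_set h1).const_mul _) (ae_restrict_of_forall_mem measurableSet_ball fun y hy => ?_)
  have h6 := (le_abs_self _).trans (hM y (ball_subset_closedBall
    (ball_subset_ball (by linarith) hy)))
  simp only [abs_neg, abs_of_pos (Real.exp_pos _), ← mul_pow, ← Real.exp_add]
  refine pow_le_pow_left₀ (Real.exp_pos _).le (Real.exp_le_exp.2 ?_) p
  have := mul_le_mul_of_nonneg_left h6 (by positivity : 0 ≤ δ * (A + 1))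
  simp only [hu]
  nlinarith

theorem bpt5c_up (s : Bpt5cSeq (ball z₀ (16 * r)) D ξ z₁ G κ A L) (hr0 : 0 < r) {ε M : ℝ}
    (hε : 0 < ε) (hT : ball z₁ ε ⊆ ball z₀ (4 * r))
    (hM : ∀ᶠ n in atTop, ∀ y ∈ ball z₁ ε, G n y ≤ M) :
    ∃ c, ∀ᶠ n in atTop, ∀ z ∈ ball z₀ r, G n z ≤ c := by
  have hK := isCompact_closedBall z₀ (4 * r)
  obtain ⟨Q, hQ⟩ := hK.exists_bound_of_continuousOn (nsq_smooth (M := N)).continuous.continuousOn
  obtain ⟨B, hB, hP⟩ := poincare N (by linarith : 0 < 4 * r)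
  have hv : ∀ (z : E N) (t : ℝ), 0 < t → 0 < volume.real (ball z t) := fun z t ht =>
    ENNReal.toReal_pos (measure_ball_pos _ _ ht).ne' measure_ball_lt_top.ne
  have h4 : closedBall z₀ (4 * r) ⊆ ball z₀ (16 * r) := closedBall_subset_ball (by linarith)
  have hA := s.A_pos
  set V := volume.real (ball z₀ r) with hV
  set T := volume.real (ball z₁ ε) with hTd
  have hVp : 0 < V := hv _ _ hr0
  have hTp : 0 < T := hv _ _ hε
  refine ⟨M + A * Q + B * L / (T * V), hM.mono fun n hn z hz => ?_⟩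
  rw [mem_ball] at hz
  have hS : ball z r ⊆ ball z₀ (4 * r) := ball_subset_ball' (by linarith)
  have h2 : ball z (2 * r) ⊆ ball z₀ (16 * r) := ball_subset_ball' (by linarith)
  have hG : ∀ y ∈ ball z₀ (16 * r), ContDiffAt ℝ ∞ (G n) y := fun y hy =>
    (s.smooth n).contDiffAt (isOpen_ball.mem_nhds hy)
  have hi : IntegrableOn (G n) (ball z₀ (4 * r)) volume :=
    (((s.smooth n).continuousOn.mono h4).integrableOn_compact hK).mono_set ball_subset_closedBall
  have hc : ∀ (x : E N) (t c : ℝ), IntegrableOn (fun _ => c) (ball x t) volume := fun x t c =>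
    integrableOn_const measure_ball_lt_top.ne
  have eV : volume.real (ball z r) = V := by
    rw [hV, Measure.real, Measure.real, Measure.addHaar_ball_center, Measure.addHaar_ball_center _ z₀]
  have a1 := sub_mean (u := fun y => G n y + A * nsq y) (z := z) hr0 (by linarith : r < 2 * r)
    (fun y hy => (bpt5c_add (hG y (h2 hy)) A 0).1.contDiffWithinAt) fun y hy v => by
      rw [(bpt5c_add (hG y (h2 hy)) A v).2.1]
      linarith [s.low n y (h2 hy) v, mul_nonneg s.κ_pos.le (sq_nonneg ‖v ⬝ᵥ dr (G n) y‖)]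
  have a2 : ∫ y in ball z r, (G n y + A * nsq y) ≤ ∫ y in ball z r, (G n y + A * Q) := by
    refine setIntegral_mono_on ((hi.mono_set hS).add ?_) ((hi.mono_set hS).add (hc _ _ _))
      measurableSet_ball fun y hy => ?_
    · exact (((continuous_const.mul (nsq_smooth (M := N)).continuous).continuousOn.integrableOn_compact
        hK).mono_set (hS.trans ball_subset_closedBall))
    · exact add_le_add_right (mul_le_mul_of_nonneg_left
        ((le_abs_self _).trans (hQ y (ball_subset_closedBall (hS hy)))) hA.le) _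
  rw [integral_add (hi.mono_set hS) (hc _ _ _), setIntegral_const, eV, smul_eq_mul] at a2
  have a3 := hP (G n) z₀ _ _ (((s.smooth n).mono h4).of_le (by simp)) measurableSet_ball
    measurableSet_ball hS hT
  have a4 : ∫ y in ball z₁ ε, G n y ≤ T * M := by
    have := setIntegral_mono_on (hi.mono_set hT) (hc _ _ M) measurableSet_ball hn
    rwa [setIntegral_const, smul_eq_mul] at this
  have a5 := mul_le_mul_of_nonneg_left
    (s.l1 n _ (ball_subset_closedBall.trans h4) measurableSet_ball) hB.le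
  rw [eV] at a1 a3
  have a6 := mul_le_mul_of_nonneg_left (a1.trans a2) hTp.le
  have a7 := mul_le_mul_of_nonneg_left a4 hVp.le
  have a8 := mul_nonneg (mul_pos hTp hVp).le (mul_nonneg hA.le (bpt5c_nsq0 z))
  rw [← sub_le_iff_le_add', le_div_iff₀ (mul_pos hTp hVp)]
  rw [← hTd] at a3
  nlinarith

theorem PotD.pot (h : PotD z₀ R W ψ ξ Ω e a C)
    (h0 : ∀ z ∈ W, ∀ b c, dz b (fun w => ξ w c) z = dz c (fun w => ξ w b) z) :
    ∃ (r : ℝ) (G : E N → ℝ), 0 < r ∧ r ≤ R / 16 ∧ ContDiffOn ℝ ∞ G (W ∩ ball z₀ r) ∧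
      (∀ z ∈ W ∩ ball z₀ r, dr G z = ξ z) ∧ (∃ c, ∀ z ∈ W ∩ ball z₀ r, G z ≤ c) ∧
      ∀ k : ℝ, IntegrableOn (fun z => Real.exp (-(k * G z))) (W ∩ ball z₀ r) volume := by
  have hR := h.toPol.R_pos
  obtain ⟨r, hrR⟩ : ∃ r, R / 128 = 16 * r := ⟨R / 2048, by ring⟩
  have hr0 : 0 < r := by linarith
  have hP := h.toPol.mono (z := z₀) (r := 16 * r) (by linarith) (ball_subset_ball (by linarith))
  have e16 : 16 * r / 16 = r := by ring
  have hD : W ∩ ball z₀ r ⊆ W ∩ ball z₀ (16 * r) :=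
    inter_subset_inter_right _ (ball_subset_ball (by linarith))
  have hDo : IsOpen (W ∩ ball z₀ r) := h.isOpen.inter isOpen_ball
  obtain ⟨z₁, ⟨hz₁, -⟩, hz₂⟩ := hP.ne
  rw [e16] at hz₂
  obtain ⟨G, κ, A, L, s⟩ := bpt5c_seq h h0 (z₁ := z₁) (hrR ▸ hD ⟨hz₁, hz₂⟩)
  rw [hrR] at s
  have hloc : ∀ z ∈ W ∩ ball z₀ (16 * r), ∃ g : E N → ℝ, ContDiffAt ℝ ∞ g z ∧ dr g z = ξ z ∧
      ∀ᶠ y in 𝓝 z, Tendsto (fun n => G n y - G n z) atTop (𝓝 (g y)) := fun z hz => by
    obtain ⟨ε, g, hε, -, hg, hgd, hl⟩ := bpt5c_loc h h0 s hz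
    refine ⟨g, hg.contDiffAt (ball_mem_nhds _ (by linarith)), hgd z (mem_ball_self (by linarith)), ?_⟩
    filter_upwards [closedBall_mem_nhds z hε] with y hy
    refine Metric.tendsto_nhds.2 fun γ hγ => (hl _ (half_pos hγ)).mono fun n hn => ?_
    exact (hn y hy).trans_lt (half_lt_self hγ)
  have hlim : ∀ z ∈ W ∩ ball z₀ r, ∃ l, Tendsto (fun n => G n z) atTop (𝓝 l) := fun z hz => by
    have := hP.conn (u := fun z => ∃ l, Tendsto (fun n => G n z) atTop (𝓝 l)) (z := z) (y := z₁)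
      (fun x hx => ?_) ⟨hD hz, e16.symm ▸ hz.2⟩ ⟨hD ⟨hz₁, hz₂⟩, e16.symm ▸ hz₂⟩
    · rw [this]
      exact ⟨0, by simp only [s.zero, tendsto_const_nhds]⟩
    obtain ⟨g, -, -, hg⟩ := hloc x hx
    filter_upwards [hg] with y hy
    exact propext ⟨fun ⟨l, hl⟩ => ⟨_, by simpa using hl.sub hy⟩,
      fun ⟨l, hl⟩ => ⟨_, by simpa using hy.add hl⟩⟩
  choose! g hg using hlim
  have hge : ∀ z ∈ W ∩ ball z₀ r, ContDiffAt ℝ ∞ g z ∧ dr g z = ξ z := fun z hz => by
    obtain ⟨q, hq1, hq2, hq3⟩ := hloc z (hD hz)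
    have he : g =ᶠ[𝓝 z] fun y => q y + g z := by
      filter_upwards [hq3, hDo.mem_nhds hz] with y hy hy'
      exact tendsto_nhds_unique (hg y hy') (by simpa using hy.add (hg z hz))
    refine ⟨(hq1.add contDiffAt_const).congr_of_eventuallyEq he, ?_⟩
    rw [(dr_congr he).self_of_nhds, dr_add (hq1.differentiableAt (by simp))
      (differentiableAt_const _), dr_const, add_zero, hq2]
  have hgs : ContDiffOn ℝ ∞ g (W ∩ ball z₀ r) := fun z hz => (hge z hz).1.contDiffWithinAt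
  obtain ⟨c, hc⟩ : ∃ c, ∀ z ∈ W ∩ ball z₀ r, g z ≤ c := by
    obtain ⟨ε, q, hε, -, hq, -, hl⟩ := bpt5c_loc h h0 s (hD ⟨hz₁, hz₂⟩)
    obtain ⟨M, hM⟩ := (isCompact_closedBall z₁ ε).exists_bound_of_continuousOn
      (hq.continuousOn.mono (closedBall_subset_ball (by linarith)))
    have hb : ball z₁ (min ε r) ⊆ closedBall z₁ ε :=
      (ball_subset_ball (min_le_left _ _)).trans ball_subset_closedBall
    obtain ⟨c, hc⟩ := bpt5c_up s hr0 (lt_min hε hr0) (ball_subset_ball' (by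
      rw [mem_ball] at hz₂; linarith [min_le_right ε r])) (M := M + 1)
      ((hl 1 one_pos).mono fun n hn y hy => by
        have h1 := (abs_le.1 (hn y (hb hy))).2
        have h2 := (le_abs_self _).trans (hM y (hb hy))
        rw [s.zero n] at h1
        linarith)
    exact ⟨c, fun z hz => le_of_tendsto (hg z hz) (hc.mono fun n hn => hn z hz.2)⟩
  refine ⟨r, g, hr0, by linarith, hgs, fun z hz => (hge z hz).2, ⟨c, hc⟩, fun k => ?_⟩
  obtain ⟨δ, hδ, hB⟩ := bpt5c_lp s hr0 hz₂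
  obtain ⟨p, hp⟩ := exists_nat_ge (|k| / δ)
  obtain ⟨B, hB⟩ := hB p
  have hm : ∀ {u : E N → ℝ}, ContinuousOn u (W ∩ ball z₀ r) →
      AEStronglyMeasurable u (volume.restrict (W ∩ ball z₀ r)) := fun hu =>
    hu.aestronglyMeasurable hDo.measurableSet
  have hin : ∀ n, IntegrableOn (fun y => Real.exp (-(δ * G n y)) ^ p) (ball z₀ r) volume := fun n =>
    (((continuousOn_const.mul ((s.smooth n).continuousOn.mono (closedBall_subset_ball
      (by linarith)))).neg.rexp.pow p).integrableOn_compact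
        (isCompact_closedBall z₀ r)).mono_set ball_subset_closedBall
  have hi : IntegrableOn (fun y => Real.exp (-(δ * g y)) ^ p) (W ∩ ball z₀ r) volume := by
    refine memLp_one_iff_integrable.1 ⟨hm ((continuousOn_const.mul hgs.continuousOn).neg.rexp.pow p),
      (Lp.eLpNorm_le_of_ae_tendsto (u := atTop) (f := fun n y => Real.exp (-(δ * G n y)) ^ p)
        (C := ENNReal.ofReal B) (Eventually.of_forall fun n => ?_)
        (fun n => ((hin n).mono_set inter_subset_right).aestronglyMeasurable)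
        (ae_restrict_of_forall_mem hDo.measurableSet fun y hy => ?_)).trans_lt ENNReal.ofReal_lt_top⟩
    · refine (eLpNorm_mono_measure _ (Measure.restrict_mono inter_subset_right le_rfl)).trans ?_
      rw [eLpNorm_one_eq_lintegral_enorm, ← ofReal_integral_norm_eq_lintegral_enorm (hin n)]
      refine ENNReal.ofReal_le_ofReal (le_trans (le_of_eq ?_) (hB n))
      simp only [norm_pow, Real.norm_eq_abs, Real.abs_exp]
    · exact (((hg y hy).const_mul δ).neg.rexp).pow p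
  have h1 : IntegrableOn (fun _ => Real.exp (|k| * |c|)) (W ∩ ball z₀ r) volume :=
    (integrableOn_const measure_ball_lt_top.ne).mono_set inter_subset_right
  refine Integrable.mono' (h1.add hi) (hm (continuousOn_const.mul hgs.continuousOn).neg.rexp)
    (ae_restrict_of_forall_mem hDo.measurableSet fun y hy => ?_)
  rw [Real.norm_of_nonneg (Real.exp_pos _).le, Pi.add_apply, ← Real.exp_nat_mul]
  have h2 : -(k * g y) ≤ |k| * |g y| := (neg_le_abs _).trans (abs_mul _ _).le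
  rcases le_total 0 (g y) with h3 | h3
  · rw [abs_of_nonneg h3] at h2
    exact le_add_of_le_of_nonneg (Real.exp_le_exp.2 (h2.trans (mul_le_mul_of_nonneg_left
      ((hc y hy).trans (le_abs_self c)) (abs_nonneg k)))) (Real.exp_pos _).le
  · rw [abs_of_nonpos h3] at h2
    rw [div_le_iff₀ hδ] at hp
    refine le_add_of_nonneg_of_le (Real.exp_pos _).le (Real.exp_le_exp.2 ?_)
    nlinarith

end Pool.Agent.BP
end

-- part Pool.Agent.P.MP_63735c_ag.BPC5
section

/-! Local potentials. -/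

open scoped ComplexOrder ContDiff Matrix Topology ENNReal
open Set Metric MeasureTheory Filter

namespace Pool.Agent.BP

open Pool.Agent.SPF Pool.Agent.AB Pool.Agent.CK Pool.Agent.SE Pool.Agent.NL

variable {N : ℕ} {X : Type} [TopologicalSpace X] [T2Space X] [PreconnectedSpace X]
  [MeasurableSpace X] [BorelSpace X] {A : Atlas X N} {μ : Measure X} {W : Set X} {ψ : X → ℝ}
  {ξ : A.ι → E N → E N} {Ω : A.ι → E N → Mat N} {a C : ℝ}

omit [T2Space X] [PreconnectedSpace X] in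
/-- Integrability on the manifold from integrability in a relatively compact part of a chart. -/
theorem bpc5_int (hinj : ∀ i, InjOn (A.p i) (A.C i).W) (hμ : IsVolume A μ) {i : A.ι}
    {K S : Set (E N)} (hK : IsCompact K) (hKW : K ⊆ (A.C i).W) (hS : IsOpen S) (hSK : S ⊆ K)
    {f : X → ℝ} (hc : ContinuousOn (fun z => f (A.p i z)) S)
    (hf : IntegrableOn (fun z => f (A.p i z)) S volume) : IntegrableOn f (A.p i '' S) μ := by
  let Ψ : A.ι → E N → ℝ := fun i z => -Real.log ‖((A.C i).σ z).det‖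
  have hw : ∀ i, ∀ z ∈ (A.C i).W, wt (Ψ i) z = ‖((A.C i).σ z).det‖ := fun i z hz => by
    simp only [wt, Ψ, neg_neg]
    exact Real.exp_log (norm_pos_iff.2 ((A.C i).σ_det z hz))
  have hd : (man A hinj isOpen_univ).Den μ Ψ := by
    intro i S hS hm
    refine (hμ i S (hS.trans inter_subset_left) hm).trans
      (setLIntegral_congr_fun hm fun z hz => ?_)
    rw [hw i z (hS hz).1, ofReal_norm]
  have hΨ : ContinuousOn (Ψ i) (A.C i).W :=
    ((det_cont (A.C i)).norm.log fun z hz => (norm_pos_iff.2 ((A.C i).σ_det z hz)).ne').neg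
  have hs : S ⊆ (man A hinj isOpen_univ).W i := fun z hz => ⟨hKW (hSK hz), mem_univ _⟩
  refine (hd.intOn (i := i) (hΨ.mono inter_subset_left) hS.measurableSet hs f).2 ?_
  obtain ⟨B, hBd⟩ := hK.exists_bound_of_continuousOn ((det_cont (A.C i)).mono hKW)
  refine (hf.norm.const_mul B).mono' ?_ ?_
  · exact (((Man.abmeas_wt hΨ).mono fun z hz => (hs hz).1).smul hc).aestronglyMeasurable
      hS.measurableSet
  · filter_upwards [ae_restrict_mem hS.measurableSet] with z hz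
    rw [hw i z (hs hz).1, norm_smul, norm_norm]
    exact mul_le_mul_of_nonneg_right (hBd z (hSK hz)) (norm_nonneg _)

theorem UX.loc (h : UX A W ξ Ω a C) (hP : PolX A W ψ) (hinj : ∀ i, InjOn (A.p i) (A.C i).W)
    (hμ : IsVolume A μ) (x : X) : ∃ O G, x ∈ O ∧ LocP A μ W ξ O G := by
  obtain ⟨i, z₀, hz₀, rfl⟩ := A.cover x
  obtain ⟨R, hR, hB, h1⟩ := hP.loc hz₀ (hP.dense _)
  obtain ⟨ψ', -, hp, -⟩ := h1 R hR le_rfl
  have hb : ball z₀ R ⊆ (A.C i).W := ball_subset_closedBall.trans hB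
  have hD : PotD z₀ R (ball z₀ R ∩ A.p i ⁻¹' W) ψ' (ξ i) (Ω i) (A.C i).η a C :=
    { hp with
      a_pos := h.a_pos
      ξ_smooth := fun z hz => (h.smooth i z (hb hz.1) hz.2).contDiffWithinAt
      Ω_psd := fun z hz => h.psd i z (hb hz.1) hz.2
      e_smooth := fun b c => ((A.C i).η_smooth b c).mono hb
      e_herm := fun z hz => ((A.C i).η_psd z (hb hz)).1
      eq := fun z hz => h.eq i z (hb hz.1) hz.2
      bd := fun z hz => h.bd i z (hb hz.1) hz.2 }
  obtain ⟨r, G₀, hr0, hrR, hs, hdr, ⟨c, hc⟩, hint⟩ :=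
    hD.pot fun z hz => h.closed i z (hb hz.1) hz.2
  have hrb : ball z₀ r ⊆ ball z₀ R := ball_subset_ball (by linarith)
  have ho : IsOpen (ball z₀ R ∩ A.p i ⁻¹' W ∩ ball z₀ r) := hp.isOpen.inter isOpen_ball
  have hinv : ∀ z ∈ (A.C i).W, Function.invFunOn (A.p i) (A.C i).W (A.p i z) = z :=
    fun z hz => (hinj i).leftInvOn_invFunOn hz
  have key : ∀ j, ∀ z ∈ (A.C j).W, A.p j z ∈ A.p i '' ball z₀ r ∩ W →
      ∃ O φ, IsChange (A.C j) (A.C i) O φ ∧ z ∈ O ∧ (∀ w ∈ O, A.p i (φ w) = A.p j w) ∧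
        φ z ∈ ball z₀ R ∩ A.p i ⁻¹' W ∩ ball z₀ r ∧
        (fun w => G₀ (Function.invFunOn (A.p i) (A.C i).W (A.p j w))) =ᶠ[𝓝 z]
          fun w => G₀ (φ w) := by
    rintro j z hz ⟨⟨y, hy, e⟩, hW⟩
    obtain ⟨O, φ, hφ, hzO, rfl, h4⟩ := A.trans j i z hz y (hb (hrb hy)) e.symm
    refine ⟨O, φ, hφ, hzO, h4, ⟨⟨hrb hy, by rw [mem_preimage, e]; exact hW⟩, hy⟩, ?_⟩
    filter_upwards [hφ.isOpen.mem_nhds hzO] with w hw
    rw [← h4 w hw, hinv _ (hφ.maps hw)]
  refine ⟨A.p i '' ball z₀ r, fun y => G₀ (Function.invFunOn (A.p i) (A.C i).W y),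
    ⟨z₀, mem_ball_self hr0, rfl⟩, A.opn i _ isOpen_ball (hrb.trans hb), fun j z hz hy => ?_,
    fun j z hz hy => ?_, ⟨c, ?_⟩, fun k => ?_⟩
  · obtain ⟨O, φ, hφ, hzO, -, h5, h6⟩ := key j z hz hy
    exact ((hs.contDiffAt (ho.mem_nhds h5)).comp z
      ((smooth_of_hol hφ.isOpen hφ.hol).contDiffAt (hφ.isOpen.mem_nhds hzO))).congr_of_eventuallyEq h6
  · obtain ⟨O, φ, hφ, hzO, h4, h5, h6⟩ := key j z hz hy
    rw [(dr_congr h6).self_of_nhds, dr_comp ((hs.contDiffAt (ho.mem_nhds h5)).differentiableAt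
      (by simp)) (hφ.hol.differentiableAt (hφ.isOpen.mem_nhds hzO)), hdr _ h5,
      h.cov j i O φ hφ h4 z hzO hy.2]
  · rintro _ ⟨⟨y, hy, rfl⟩, hW⟩
    rw [hinv y (hb (hrb hy))]
    exact hc y ⟨⟨hrb hy, hW⟩, hy⟩
  · have he : EqOn (fun z => Real.exp (-(k * G₀ z)))
        (fun z => Real.exp (-(k * G₀ (Function.invFunOn (A.p i) (A.C i).W (A.p i z)))))
        (ball z₀ R ∩ A.p i ⁻¹' W ∩ ball z₀ r) := fun z hz => by
      simp only [hinv z (hb hz.1.1)]
    refine (bpc5_int hinj hμ (isCompact_closedBall z₀ R) hB ho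
      (fun z hz => ball_subset_closedBall hz.1.1)
      (f := fun y => Real.exp (-(k * G₀ (Function.invFunOn (A.p i) (A.C i).W y))))
      (((continuousOn_const.mul hs.continuousOn).neg.rexp).congr he.symm)
      ((hint k).congr_fun he ho.measurableSet)).mono_set ?_
    rintro _ ⟨⟨y, hy, rfl⟩, hW⟩
    exact ⟨y, ⟨⟨hrb hy, hW⟩, hy⟩, rfl⟩

end Pool.Agent.BP
end

-- part Pool.Agent.P.MP_63735c_ag.ZBC5
section

/-! Local potentials near a point of the resolution. -/

open scoped ComplexOrder ContDiff Matrix Topology ENNReal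
open Set Metric MeasureTheory Filter

namespace Pool.Agent.ZB

open Pool.Agent.BP Pool.Agent.SPF Pool.Agent.AB Pool.Agent.CK Pool.Agent.SE Pool.Agent.NL

variable {N : ℕ} {X : Type} [TopologicalSpace X] [T2Space X] [PreconnectedSpace X]
  [MeasurableSpace X] [BorelSpace X] {A : Atlas X N} {μ : Measure X} {W : Set X} {ψ : X → ℝ}
  {ξ : A.ι → E N → E N} {Ω : A.ι → E N → Mat N} {a C : ℝ} {L : Line A}

omit [T2Space X] [PreconnectedSpace X] in
/-- Integrability on the manifold from integrability where the density is bounded. -/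
theorem zbc5_int (hinj : ∀ i, InjOn (A.p i) (A.C i).W) (hμ : IsVolume A μ) {i : A.ι}
    {S : Set (E N)} (hS : IsOpen S) (hSW : S ⊆ (A.C i).W) {B : ℝ}
    (hBd : ∀ z ∈ S, ‖((A.C i).σ z).det‖ ≤ B)
    {f : X → ℝ} (hc : ContinuousOn (fun z => f (A.p i z)) S)
    (hf : IntegrableOn (fun z => f (A.p i z)) S volume) : IntegrableOn f (A.p i '' S) μ := by
  let Ψ : A.ι → E N → ℝ := fun i z => -Real.log ‖((A.C i).σ z).det‖
  have hw : ∀ i, ∀ z ∈ (A.C i).W, wt (Ψ i) z = ‖((A.C i).σ z).det‖ := fun i z hz => by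
    simp only [wt, Ψ, neg_neg]
    exact Real.exp_log (norm_pos_iff.2 ((A.C i).σ_det z hz))
  have hd : (man A hinj isOpen_univ).Den μ Ψ := by
    intro i S hS hm
    refine (hμ i S (hS.trans inter_subset_left) hm).trans
      (setLIntegral_congr_fun hm fun z hz => ?_)
    rw [hw i z (hS hz).1, ofReal_norm]
  have hΨ : ContinuousOn (Ψ i) (A.C i).W :=
    ((det_cont (A.C i)).norm.log fun z hz => (norm_pos_iff.2 ((A.C i).σ_det z hz)).ne').neg
  have hs : S ⊆ (man A hinj isOpen_univ).W i := fun z hz => ⟨hSW hz, mem_univ _⟩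
  refine (hd.intOn (i := i) (hΨ.mono inter_subset_left) hS.measurableSet hs f).2 ?_
  refine (hf.norm.const_mul B).mono' ?_ ?_
  · exact (((Man.abmeas_wt hΨ).mono fun z hz => (hs hz).1).smul hc).aestronglyMeasurable
      hS.measurableSet
  · filter_upwards [ae_restrict_mem hS.measurableSet] with z hz
    rw [hw i z (hs hz).1, norm_smul, norm_norm]
    exact mul_le_mul_of_nonneg_right (hBd z hz) (norm_nonneg _)

theorem Pt.locP (P : Pt L) (h : UX A W ξ Ω a C) (hP : PolX A W ψ)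
    (hinj : ∀ i, InjOn (A.p i) (A.C i).W) (hμ : IsVolume A μ) : ∃ (r : ℝ) (G : X → ℝ), 0 < r ∧
      r ≤ P.r ∧ LocP A μ W ξ (A.p P.i '' (ball P.z₀ r ∩ (A.C P.i).W)) G := by
  obtain ⟨ψ', hp⟩ := P.pol hP P.r_pos le_rfl
  obtain ⟨B, -, hB⟩ := P.bds
  have h2 : ball P.z₀ P.r ⊆ ball P.z₀ (2 * P.r) := ball_subset_ball (by linarith [P.r_pos])
  have hD : PotD P.z₀ P.r (ball P.z₀ P.r ∩ dom A W P.i) ψ' (ξ P.i) (Ω P.i) (lev P.ψ) a C :=
    { hp with
      a_pos := h.a_pos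
      ξ_smooth := fun z hz => (h.smooth P.i z hz.2.1 hz.2.2).contDiffWithinAt
      Ω_psd := fun z hz => h.psd P.i z hz.2.1 hz.2.2
      e_smooth := fun b c => (lev_smooth isOpen_ball P.ψ_smooth b c).mono h2
      e_herm := fun z hz => lev_herm (P.ψ_smooth.contDiffAt (isOpen_ball.mem_nhds (h2 hz)))
      eq := fun z hz b c => by rw [P.lev_eq hz.2.1]; exact h.eq P.i z hz.2.1 hz.2.2 b c
      bd := fun z hz => h.bd P.i z hz.2.1 hz.2.2 }
  obtain ⟨r, G₀, hr0, hrR, hs, hdr, ⟨c, hc⟩, hint⟩ :=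
    hD.pot fun z hz => h.closed P.i z hz.2.1 hz.2.2
  have hrb : ball P.z₀ r ⊆ ball P.z₀ P.r := ball_subset_ball (by linarith [P.r_pos])
  have ho : IsOpen (ball P.z₀ P.r ∩ dom A W P.i ∩ ball P.z₀ r) := hp.isOpen.inter isOpen_ball
  have hinv : ∀ z ∈ (A.C P.i).W, Function.invFunOn (A.p P.i) (A.C P.i).W (A.p P.i z) = z :=
    fun z hz => (hinj P.i).leftInvOn_invFunOn hz
  have key : ∀ j, ∀ z ∈ (A.C j).W, A.p j z ∈ A.p P.i '' (ball P.z₀ r ∩ (A.C P.i).W) ∩ W →
      ∃ O φ, IsChange (A.C j) (A.C P.i) O φ ∧ z ∈ O ∧ (∀ w ∈ O, A.p P.i (φ w) = A.p j w) ∧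
        φ z ∈ ball P.z₀ P.r ∩ dom A W P.i ∩ ball P.z₀ r ∧
        (fun w => G₀ (Function.invFunOn (A.p P.i) (A.C P.i).W (A.p j w))) =ᶠ[𝓝 z]
          fun w => G₀ (φ w) := by
    rintro j z hz ⟨⟨y, hy, e⟩, hW⟩
    obtain ⟨O, φ, hφ, hzO, rfl, h4⟩ := A.trans j P.i z hz y hy.2 e.symm
    refine ⟨O, φ, hφ, hzO, h4, ⟨⟨hrb hy.1, hy.2, by rw [mem_preimage, e]; exact hW⟩, hy.1⟩, ?_⟩
    filter_upwards [hφ.isOpen.mem_nhds hzO] with w hw
    rw [← h4 w hw, hinv _ (hφ.maps hw)]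
  refine ⟨r, fun y => G₀ (Function.invFunOn (A.p P.i) (A.C P.i).W y), hr0,
    by linarith [P.r_pos], A.opn P.i _ (isOpen_ball.inter (A.C P.i).isOpen) inter_subset_right,
    fun j z hz hy => ?_, fun j z hz hy => ?_, ⟨c, ?_⟩, fun k => ?_⟩
  · obtain ⟨O, φ, hφ, hzO, -, h5, h6⟩ := key j z hz hy
    exact ((hs.contDiffAt (ho.mem_nhds h5)).comp z
      ((smooth_of_hol hφ.isOpen hφ.hol).contDiffAt (hφ.isOpen.mem_nhds hzO))).congr_of_eventuallyEq h6
  · obtain ⟨O, φ, hφ, hzO, h4, h5, h6⟩ := key j z hz hy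
    rw [(dr_congr h6).self_of_nhds, dr_comp ((hs.contDiffAt (ho.mem_nhds h5)).differentiableAt
      (by simp)) (hφ.hol.differentiableAt (hφ.isOpen.mem_nhds hzO)), hdr _ h5,
      h.cov j P.i O φ hφ h4 z hzO hy.2]
  · rintro _ ⟨⟨y, hy, rfl⟩, hW⟩
    rw [hinv y hy.2]
    exact hc y ⟨⟨hrb hy.1, hy.2, hW⟩, hy.1⟩
  · have he : EqOn (fun z => Real.exp (-(k * G₀ z)))
        (fun z => Real.exp (-(k * G₀ (Function.invFunOn (A.p P.i) (A.C P.i).W (A.p P.i z)))))
        (ball P.z₀ P.r ∩ dom A W P.i ∩ ball P.z₀ r) := fun z hz => by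
      simp only [hinv z hz.1.2.1]
    refine (zbc5_int hinj hμ ho (fun z hz => hz.1.2.1)
      (fun z hz => (hB z ⟨ball_subset_closedBall hz.1.1, hz.1.2.1⟩).1)
      (f := fun y => Real.exp (-(k * G₀ (Function.invFunOn (A.p P.i) (A.C P.i).W y))))
      (((continuousOn_const.mul hs.continuousOn).neg.rexp).congr he.symm)
      ((hint k).congr_fun he ho.measurableSet)).mono_set ?_
    rintro _ ⟨⟨y, hy, rfl⟩, hW⟩
    exact ⟨y, ⟨⟨hrb hy.1, hy.2, hW⟩, hy.1⟩, rfl⟩

end Pool.Agent.ZB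
end

-- part Pool.Agent.P.MP_63735c_ag.BPC6
section

/-! Locally constant cocycles. -/

open scoped ComplexOrder ContDiff Matrix Topology ENNReal
open Set Metric MeasureTheory Filter

namespace Pool.Agent.BP

open Pool.Agent.SPF Pool.Agent.AB Pool.Agent.CK Pool.Agent.SE Pool.Agent.NL

variable {N : ℕ} {X : Type} [TopologicalSpace X] [PreconnectedSpace X] {A : Atlas X N}

omit [PreconnectedSpace X] in
lemma bpc6_push {i : A.ι} {z : E N} (hz : z ∈ (A.C i).W) {P : X → Prop}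
    (h : ∀ᶠ w in 𝓝 z, P (A.p i w)) : ∀ᶠ y in 𝓝 (A.p i z), P y := by
  obtain ⟨O, h1, h2, h3⟩ := _root_.eventually_nhds_iff.1 (h.and ((A.C i).isOpen.eventually_mem hz))
  refine mem_of_superset ((A.opn i O h2 fun w hw => (h1 w hw).2).mem_nhds ⟨z, h3, rfl⟩) ?_
  rintro _ ⟨w, hw, rfl⟩
  exact (h1 w hw).1

omit [PreconnectedSpace X] in
lemma bpc6_pull {i : A.ι} {z : E N} (hz : z ∈ (A.C i).W) {P : X → Prop}
    (h : ∀ᶠ y in 𝓝 (A.p i z), P y) : ∀ᶠ w in 𝓝 z, P (A.p i w) :=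
  ((A.cont i).continuousAt ((A.C i).isOpen.mem_nhds hz)).eventually h

theorem PolX.ext_lc [T2Space X] {W : Set X} {ψ : X → ℝ} (h : PolX A W ψ) {O : Set X}
    (hO : IsOpen O) {u : X → ℝ} (hu : ∀ x ∈ O ∩ W, ∀ᶠ y in 𝓝 x, u y = u x) :
    ∃ c : X → ℝ, (∀ x ∈ O, ∀ᶠ y in 𝓝 x, c y = c x) ∧ ∀ x ∈ O ∩ W, c x = u x := by
  have key : ∀ x, ∃ c, x ∈ O → ∀ᶠ y in 𝓝 x, y ∈ W → u y = c := by
    intro x
    by_cases hx : x ∈ O
    swap
    · exact ⟨0, fun h => absurd h hx⟩
    obtain ⟨i, z₀, hz, rfl⟩ := A.cover x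
    obtain ⟨R₀, hR₀, hB, h1⟩ := bppolx_loc h hz (h.dense _)
    obtain ⟨r, hr0, hb⟩ := Metric.eventually_nhds_iff_ball.1 (bpc6_pull hz (hO.eventually_mem hx))
    have hR : 0 < min r R₀ := lt_min hr0 hR₀
    obtain ⟨ψ', hp, -⟩ := h1 _ hR (min_le_right _ _)
    obtain ⟨z₁, hz₁⟩ := hp.ne
    refine ⟨u (A.p i z₁), fun _ => bpc6_push hz ?_⟩
    filter_upwards [ball_mem_nhds z₀ (show 0 < min r R₀ / 16 by linarith)] with z hz' hW
    refine hp.conn (u := fun z => u (A.p i z)) (fun w hw => ?_)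
      ⟨⟨ball_subset_ball (by linarith) hz', hW⟩, hz'⟩ hz₁
    exact bpc6_pull (P := fun y => u y = u (A.p i w))
      (hB (ball_subset_closedBall (ball_subset_ball (min_le_right _ _) hw.1)))
      (hu _ ⟨hb w (ball_subset_ball (min_le_left _ _) hw.1), hw.2⟩)
  choose c hc using key
  refine ⟨c, fun x hx => ?_, fun x hx => ((hc x hx.1).self_of_nhds hx.2).symm⟩
  filter_upwards [(hc x hx).eventually_nhds, hO.eventually_mem hx] with y h1 h2
  obtain ⟨w, ⟨h3, h4⟩, h5⟩ := mem_closure_iff_nhds.1 (h.dense y) _ (inter_mem h1 (hc y h2))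
  exact (h4 h5).symm.trans (h3 h5)

omit [PreconnectedSpace X] in
lemma bpc6_diff {U : Set X} (hU : IsOpen U) {k : X → ℂ} (hk : HolOn A U k) {i : A.ι} {z : E N}
    (hz : z ∈ (A.C i).W) (hx : A.p i z ∈ U) :
    ∀ᶠ w in 𝓝 z, DifferentiableAt ℂ (fun w => k (A.p i w)) w := by
  have ho := (A.cont i).isOpen_inter_preimage (A.C i).isOpen hU
  exact (ho.eventually_mem ⟨hz, hx⟩).mono fun w hw => (hk i).differentiableAt (ho.mem_nhds hw)

theorem HolOn.lc_of_max {U : Set X} (hU : IsOpen U) {k : X → ℂ} (hk : HolOn A U k) {x : X}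
    (hx : x ∈ U) (hm : ∀ᶠ y in 𝓝 x, (k y).im ≤ (k x).im) : ∀ᶠ y in 𝓝 x, k y = k x := by
  obtain ⟨i, z, hz, rfl⟩ := A.cover x
  have hd := bpc6_diff hU hk hz hx
  have h1 : ∀ᶠ w in 𝓝 z, Complex.exp (-Complex.I * k (A.p i w)) =
      Complex.exp (-Complex.I * k (A.p i z)) := by
    refine Complex.eventually_eq_of_isLocalMax_norm
      (f := fun w => Complex.exp (-Complex.I * k (A.p i w)))
      (hd.mono fun w hw => (hw.const_mul _).cexp) ?_
    filter_upwards [bpc6_pull hz hm] with w hw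
    simpa [Complex.norm_exp] using hw
  have h2 : ∀ᶠ w in 𝓝 z, dist (k (A.p i w)) (k (A.p i z)) < 1 :=
    Metric.tendsto_nhds.1 hd.self_of_nhds.continuousAt 1 one_pos
  refine bpc6_push (P := fun y => k y = k (A.p i z)) hz ?_
  filter_upwards [h1, h2] with w a1 a2
  obtain ⟨n, hn⟩ := Complex.exp_eq_exp_iff_exists_int.1 a1
  have e : k (A.p i w) - k (A.p i z) = ((-(n * (2 * Real.pi)) : ℝ) : ℂ) := by
    push_cast
    linear_combination Complex.I * hn +
      (k (A.p i w) - k (A.p i z) + n * (2 * Real.pi)) * Complex.I_sq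
  rw [dist_eq_norm, e, Complex.norm_real, Real.norm_eq_abs, abs_neg, abs_mul,
    abs_of_pos Real.two_pi_pos] at a2
  have a3 : |(n : ℝ)| < 1 := by nlinarith [abs_nonneg (n : ℝ), Real.pi_gt_three]
  have a4 : n = 0 := Int.abs_lt_one_iff.1 (by exact_mod_cast a3)
  rw [a4] at e
  simpa [sub_eq_zero] using e

theorem H1.lc [CompactSpace X] (h : H1 A) {κ : Type} {U : κ → Set X} {c : κ → κ → X → ℝ}
    (hU : ∀ a, IsOpen (U a)) (hc : ∀ x, ∃ a, x ∈ U a)
    (hl : ∀ a b, ∀ x ∈ U a ∩ U b, ∀ᶠ y in 𝓝 x, c a b y = c a b x)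
    (hz : ∀ a b d, ∀ x ∈ U a ∩ U b ∩ U d, c a b x + c b d x = c a d x) :
    ∃ r : κ → X → ℝ, (∀ a, ∀ x ∈ U a, ∀ᶠ y in 𝓝 x, r a y = r a x) ∧
      ∀ a b, ∀ x ∈ U a ∩ U b, c a b x = r a x - r b x := by
  obtain ⟨k, hk, he⟩ := h κ U (fun a b x => (c a b x : ℂ)) hU hc
    (fun a b i z hz' => ((differentiableAt_const (c a b (A.p i z) : ℂ)).congr_of_eventuallyEq
      ((bpc6_pull hz'.1 (hl a b _ hz'.2)).mono fun w hw => congrArg Complex.ofReal hw)
      ).differentiableWithinAt)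
    fun a b d x hx => by exact_mod_cast hz a b d x hx
  choose s hs using hc
  have hv : ∀ a, ∀ x ∈ U a, (k (s x) x).im = (k a x).im := fun a x hx => by
    have := congrArg Complex.im (he (s x) a x ⟨hs x, hx⟩)
    rw [Complex.ofReal_im, Complex.sub_im] at this
    linarith
  have hcont : Continuous fun x => (k (s x) x).im := by
    refine continuous_iff_continuousAt.2 fun x => ?_
    have c1 : ContinuousAt (k (s x)) x := by
      obtain ⟨i, z, hz', rfl⟩ := A.cover x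
      exact fun t ht => bpc6_push (P := fun y => k (s (A.p i z)) y ∈ t) hz'
        ((bpc6_diff (hU _) (hk _) hz' (hs _)).self_of_nhds.continuousAt ht)
    refine (Complex.continuous_im.continuousAt.comp c1).congr ?_
    exact ((hU _).eventually_mem (hs x)).mono fun y hy => (hv _ y hy).symm
  refine ⟨fun a x => (k a x).re, fun a x hx => ?_, fun a b x hx => ?_⟩
  · obtain ⟨x₀, -, h0⟩ := isCompact_univ.exists_isMaxOn ⟨x, mem_univ x⟩ hcont.continuousOn
    have loc : ∀ a, ∀ y ∈ U a, (k (s y) y).im = (k (s x₀) x₀).im → ∀ᶠ w in 𝓝 y, k a w = k a y := by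
      intro a y hy e
      refine (hk a).lc_of_max (hU a) hy (((hU a).eventually_mem hy).mono fun w hw => ?_)
      rw [← hv a w hw, ← hv a y hy, e]
      exact h0 (mem_univ w)
    have ho : IsOpen {y | (k (s y) y).im = (k (s x₀) x₀).im} := by
      refine isOpen_iff_mem_nhds.2 fun y hy => ?_
      filter_upwards [loc _ y (hs y) hy, (hU _).eventually_mem (hs y)] with w a1 a2
      rw [hv _ w a2, a1]
      exact hy
    have hu := IsClopen.eq_univ ⟨isClosed_eq hcont continuous_const, ho⟩ ⟨x₀, rfl⟩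
    have hx' : x ∈ {y | (k (s y) y).im = (k (s x₀) x₀).im} := hu ▸ mem_univ x
    exact (loc a x hx hx').mono fun w hw => congrArg Complex.re hw
  · have := congrArg Complex.re (he a b x hx)
    rwa [Complex.ofReal_re, Complex.sub_re] at this

end Pool.Agent.BP
end

-- part Pool.Agent.P.MP_63735c_ag.ZBC6
section

/-! Locally constant cocycles on the resolution. -/

open scoped ComplexOrder ContDiff Matrix Topology ENNReal
open Set Metric MeasureTheory Filter

namespace Pool.Agent.ZB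

open Pool.Agent.BP Pool.Agent.SPF Pool.Agent.AB Pool.Agent.CK Pool.Agent.SE Pool.Agent.NL

variable {N : ℕ} {X : Type} [TopologicalSpace X] [PreconnectedSpace X] {A : Atlas X N}
  {L : Line A} {Y : Type} [TopologicalSpace Y] {Z : Res L Y} {W : Set X} {ψ : X → ℝ}

theorem res_conn (Z : Res L Y) : PreconnectedSpace Y :=
  Z.j_dense.preconnectedSpace Z.j_cont

omit [PreconnectedSpace X] in
theorem res_dense (Z : Res L Y) (hW : Dense W) : Dense (Z.j '' W) :=
  Z.j_dense.dense_image Z.j_cont hW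

omit [PreconnectedSpace X] in
lemma zbc6_push {i : Z.ι} {z : E N} (hz : z ∈ Z.W i) {P : Y → Prop}
    (h : ∀ᶠ w in 𝓝 z, P (Z.p i w)) : ∀ᶠ y in 𝓝 (Z.p i z), P y := by
  obtain ⟨O, h1, h2, h3⟩ := _root_.eventually_nhds_iff.1 (h.and ((Z.isOpen i).eventually_mem hz))
  refine mem_of_superset ((Z.opn i O h2 fun w hw => (h1 w hw).2).mem_nhds ⟨z, h3, rfl⟩) ?_
  rintro _ ⟨w, hw, rfl⟩
  exact (h1 w hw).1

omit [PreconnectedSpace X] in
lemma zbc6_pull {i : Z.ι} {z : E N} (hz : z ∈ Z.W i) {P : Y → Prop}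
    (h : ∀ᶠ y in 𝓝 (Z.p i z), P y) : ∀ᶠ w in 𝓝 z, P (Z.p i w) :=
  ((Z.cont i).continuousAt ((Z.isOpen i).mem_nhds hz)).eventually h

theorem Full.ext_lc [T2Space X] [T2Space Y] (hF : Full Z) (h : PolX A W ψ) {O : Set Y}
    (hO : IsOpen O) {u : X → ℝ} (hu : ∀ x ∈ Z.j ⁻¹' O ∩ W, ∀ᶠ y in 𝓝 x, u y = u x) :
    ∃ c : Y → ℝ, (∀ x ∈ O, ∀ᶠ y in 𝓝 x, c y = c x) ∧ ∀ x ∈ Z.j ⁻¹' O ∩ W, c (Z.j x) = u x := by
  have key : ∀ y, ∃ c, y ∈ O → ∀ᶠ v in 𝓝 y, ∀ x ∈ W, v = Z.j x → u x = c := by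
    intro y
    by_cases hy : y ∈ O
    swap
    · exact ⟨0, fun h => absurd h hy⟩
    obtain ⟨P, rfl, hB⟩ := hF.pt y
    have h0 := P.r_pos
    have hz := hB (mem_closedBall_self (by linarith))
    obtain ⟨r, hr0, hb⟩ := Metric.eventually_nhds_iff_ball.1 (zbc6_pull hz (hO.eventually_mem hy))
    have hR : 0 < min r P.r := lt_min hr0 h0
    have hR' := min_le_right r P.r
    obtain ⟨ψ', hp⟩ := P.pol h hR hR'
    obtain ⟨z₁, hz₁⟩ := hp.ne
    refine ⟨u (A.p P.i z₁), fun _ => zbc6_push hz ?_⟩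
    filter_upwards [ball_mem_nhds P.z₀ (show 0 < min r P.r / 16 by linarith)] with z hz' x hW e
    obtain ⟨hi, rfl⟩ := hF.mem (hB (ball_subset_closedBall (ball_subset_ball (by linarith) hz'))) e
    refine hp.conn (u := fun z => u (A.p P.i z)) (fun w hw => ?_)
      ⟨⟨ball_subset_ball (by linarith) hz', hi, hW⟩, hz'⟩ hz₁
    refine bpc6_pull (P := fun y => u y = u (A.p P.i w)) hw.2.1 (hu _ ⟨?_, hw.2.2⟩)
    rw [mem_preimage, ← Z.p_eq _ _ hw.2.1]
    exact hb w (ball_subset_ball (min_le_left _ _) hw.1)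
  choose c hc using key
  refine ⟨c, fun x hx => ?_, fun x hx => ((hc _ hx.1).self_of_nhds x hx.2 rfl).symm⟩
  filter_upwards [(hc x hx).eventually_nhds, hO.eventually_mem hx] with y h1 h2
  obtain ⟨w, ⟨h3, h4⟩, v, h5, rfl⟩ :=
    mem_closure_iff_nhds.1 (res_dense Z h.dense y) _ (inter_mem h1 (hc y h2))
  exact (h4 v h5 rfl).symm.trans (h3 v h5 rfl)

omit [PreconnectedSpace X] in
lemma zbc6_diff {U : Set Y} (hU : IsOpen U) {k : Y → ℂ} (hk : HolY Z U k) {i : Z.ι} {z : E N}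
    (hz : z ∈ Z.W i) (hx : Z.p i z ∈ U) :
    ∀ᶠ w in 𝓝 z, DifferentiableAt ℂ (fun w => k (Z.p i w)) w := by
  have ho := (Z.cont i).isOpen_inter_preimage (Z.isOpen i) hU
  exact (ho.eventually_mem ⟨hz, hx⟩).mono fun w hw => (hk i).differentiableAt (ho.mem_nhds hw)

omit [PreconnectedSpace X] in
theorem HolY.lc_of_max {U : Set Y} (hU : IsOpen U) {k : Y → ℂ} (hk : HolY Z U k) {x : Y}
    (hx : x ∈ U) (hm : ∀ᶠ y in 𝓝 x, (k y).im ≤ (k x).im) : ∀ᶠ y in 𝓝 x, k y = k x := by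
  obtain ⟨i, z, hz, rfl⟩ := Z.cover x
  have hd := zbc6_diff hU hk hz hx
  have h1 : ∀ᶠ w in 𝓝 z, Complex.exp (-Complex.I * k (Z.p i w)) =
      Complex.exp (-Complex.I * k (Z.p i z)) := by
    refine Complex.eventually_eq_of_isLocalMax_norm
      (f := fun w => Complex.exp (-Complex.I * k (Z.p i w)))
      (hd.mono fun w hw => (hw.const_mul _).cexp) ?_
    filter_upwards [zbc6_pull hz hm] with w hw
    simpa [Complex.norm_exp] using hw
  have h2 : ∀ᶠ w in 𝓝 z, dist (k (Z.p i w)) (k (Z.p i z)) < 1 :=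
    Metric.tendsto_nhds.1 hd.self_of_nhds.continuousAt 1 one_pos
  refine zbc6_push (P := fun y => k y = k (Z.p i z)) hz ?_
  filter_upwards [h1, h2] with w a1 a2
  obtain ⟨n, hn⟩ := Complex.exp_eq_exp_iff_exists_int.1 a1
  have e : k (Z.p i w) - k (Z.p i z) = ((-(n * (2 * Real.pi)) : ℝ) : ℂ) := by
    push_cast
    linear_combination Complex.I * hn +
      (k (Z.p i w) - k (Z.p i z) + n * (2 * Real.pi)) * Complex.I_sq
  rw [dist_eq_norm, e, Complex.norm_real, Real.norm_eq_abs, abs_neg, abs_mul,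
    abs_of_pos Real.two_pi_pos] at a2
  have a3 : |(n : ℝ)| < 1 := by nlinarith [abs_nonneg (n : ℝ), Real.pi_gt_three]
  have a4 : n = 0 := Int.abs_lt_one_iff.1 (by exact_mod_cast a3)
  rw [a4] at e
  simpa [sub_eq_zero] using e

theorem H1Y.lc [CompactSpace Y] (h : H1Y Z) {κ : Type} {U : κ → Set Y} {c : κ → κ → Y → ℝ}
    (hU : ∀ a, IsOpen (U a)) (hc : ∀ x, ∃ a, x ∈ U a)
    (hl : ∀ a b, ∀ x ∈ U a ∩ U b, ∀ᶠ y in 𝓝 x, c a b y = c a b x)
    (hz : ∀ a b d, ∀ x ∈ U a ∩ U b ∩ U d, c a b x + c b d x = c a d x) :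
    ∃ r : κ → Y → ℝ, (∀ a, ∀ x ∈ U a, ∀ᶠ y in 𝓝 x, r a y = r a x) ∧
      ∀ a b, ∀ x ∈ U a ∩ U b, c a b x = r a x - r b x := by
  have := res_conn Z
  obtain ⟨k, hk, he⟩ := h κ U (fun a b x => (c a b x : ℂ)) hU hc
    (fun a b i z hz' => ((differentiableAt_const (c a b (Z.p i z) : ℂ)).congr_of_eventuallyEq
      ((zbc6_pull hz'.1 (hl a b _ hz'.2)).mono fun w hw => congrArg Complex.ofReal hw)
      ).differentiableWithinAt)
    fun a b d x hx => by exact_mod_cast hz a b d x hx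
  choose s hs using hc
  have hv : ∀ a, ∀ x ∈ U a, (k (s x) x).im = (k a x).im := fun a x hx => by
    have := congrArg Complex.im (he (s x) a x ⟨hs x, hx⟩)
    rw [Complex.ofReal_im, Complex.sub_im] at this
    linarith
  have hcont : Continuous fun x => (k (s x) x).im := by
    refine continuous_iff_continuousAt.2 fun x => ?_
    have c1 : ContinuousAt (k (s x)) x := by
      obtain ⟨i, z, hz', rfl⟩ := Z.cover x
      exact fun t ht => zbc6_push (P := fun y => k (s (Z.p i z)) y ∈ t) hz'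
        ((zbc6_diff (hU _) (hk _) hz' (hs _)).self_of_nhds.continuousAt ht)
    refine (Complex.continuous_im.continuousAt.comp c1).congr ?_
    exact ((hU _).eventually_mem (hs x)).mono fun y hy => (hv _ y hy).symm
  refine ⟨fun a x => (k a x).re, fun a x hx => ?_, fun a b x hx => ?_⟩
  · obtain ⟨x₀, -, h0⟩ := isCompact_univ.exists_isMaxOn ⟨x, mem_univ x⟩ hcont.continuousOn
    have loc : ∀ a, ∀ y ∈ U a, (k (s y) y).im = (k (s x₀) x₀).im → ∀ᶠ w in 𝓝 y, k a w = k a y := by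
      intro a y hy e
      refine (hk a).lc_of_max (hU a) hy (((hU a).eventually_mem hy).mono fun w hw => ?_)
      rw [← hv a w hw, ← hv a y hy, e]
      exact h0 (mem_univ w)
    have ho : IsOpen {y | (k (s y) y).im = (k (s x₀) x₀).im} := by
      refine isOpen_iff_mem_nhds.2 fun y hy => ?_
      filter_upwards [loc _ y (hs y) hy, (hU _).eventually_mem (hs y)] with w a1 a2
      rw [hv _ w a2, a1]
      exact hy
    have hu := IsClopen.eq_univ ⟨isClosed_eq hcont continuous_const, ho⟩ ⟨x₀, rfl⟩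
    have hx' : x ∈ {y | (k (s y) y).im = (k (s x₀) x₀).im} := hu ▸ mem_univ x
    exact (loc a x hx hx').mono fun w hw => congrArg Complex.re hw
  · have := congrArg Complex.re (he a b x hx)
    rwa [Complex.ofReal_re, Complex.sub_re] at this

end Pool.Agent.ZB
end

-- part Pool.Agent.P.MP_63735c_ag.BPC7
section

/-! The global potential. -/

open scoped ComplexOrder ContDiff Matrix Topology ENNReal
open Set Metric MeasureTheory Filter

namespace Pool.Agent.BP

open Pool.Agent.SPF Pool.Agent.AB Pool.Agent.CK Pool.Agent.SE Pool.Agent.NL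

variable {N : ℕ} {X : Type} [TopologicalSpace X] [MeasurableSpace X] {A : Atlas X N}
  {μ : Measure X} {W : Set X} {ψ : X → ℝ} {ξ : A.ι → E N → E N} {Ω : A.ι → E N → Mat N} {a C : ℝ}

omit [MeasurableSpace X] in
theorem bpc7_nhds {i : A.ι} {z : E N} (hz : z ∈ (A.C i).W) :
    map (A.p i) (𝓝 z) = 𝓝 (A.p i z) := by
  refine le_antisymm ((A.cont i).continuousAt ((A.C i).isOpen.mem_nhds hz)) fun s hs => ?_
  obtain ⟨O, hO, ho, hzO⟩ := _root_.mem_nhds_iff.1
    (inter_mem (mem_map.1 hs) ((A.C i).isOpen.mem_nhds hz))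
  refine mem_of_superset ((A.opn i O ho fun w hw => (hO hw).2).mem_nhds ⟨z, hzO, rfl⟩) ?_
  rintro _ ⟨w, hw, rfl⟩
  exact (hO hw).1

omit [MeasurableSpace X] in
theorem bpc7_ev {i : A.ι} {z : E N} (hz : z ∈ (A.C i).W) {U : Set X} (hU : IsOpen U)
    (hx : A.p i z ∈ U) : ∀ᶠ w in 𝓝 z, w ∈ (A.C i).W ∧ A.p i w ∈ U :=
  ((A.cont i).isOpen_inter_preimage (A.C i).isOpen hU).mem_nhds ⟨hz, hx⟩

theorem LocP.lc {O O' : Set X} {G G' : X → ℝ} (hW : IsOpen W) (h : LocP A μ W ξ O G)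
    (h' : LocP A μ W ξ O' G') {x : X} (hx : x ∈ O ∩ O' ∩ W) :
    ∀ᶠ y in 𝓝 x, G y - G' y = G x - G' x := by
  obtain ⟨i, z, hz, rfl⟩ := A.cover x
  obtain ⟨r, hr, hB⟩ := Metric.eventually_nhds_iff_ball.1
    (bpc7_ev hz ((h.isOpen.inter h'.isOpen).inter hW) hx)
  have d1 : ∀ w ∈ ball z r, DifferentiableAt ℝ (fun t => G (A.p i t)) w := fun w hw =>
    (h.smooth i w (hB w hw).1 ⟨(hB w hw).2.1.1, (hB w hw).2.2⟩).differentiableAt (by simp)
  have d2 : ∀ w ∈ ball z r, DifferentiableAt ℝ (fun t => G' (A.p i t)) w := fun w hw =>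
    (h'.smooth i w (hB w hw).1 ⟨(hB w hw).2.1.2, (hB w hw).2.2⟩).differentiableAt (by simp)
  rw [← bpc7_nhds hz, eventually_map]
  filter_upwards [ball_mem_nhds z hr] with w hw
  refine isOpen_ball.is_const_of_fderiv_eq_zero (𝕜 := ℝ)
    (f := fun t => G (A.p i t) - G' (A.p i t)) (convex_ball z r).isPreconnected
    (fun t ht => ((d1 t ht).fun_sub (d2 t ht)).differentiableWithinAt) (fun t ht => ?_) hw
    (mem_ball_self hr)
  refine ContinuousLinearMap.ext fun v => ?_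
  rw [fderiv_fun_sub (d1 t ht) (d2 t ht), sub_apply, fderiv_dr (d1 t ht), fderiv_dr (d2 t ht),
    h.dr_eq i t (hB t ht).1 ⟨(hB t ht).2.1.1, (hB t ht).2.2⟩,
    h'.dr_eq i t (hB t ht).1 ⟨(hB t ht).2.1.2, (hB t ht).2.2⟩, sub_self]
  rfl

theorem LocP.shift [BorelSpace X] {O O' : Set X} {G G' : X → ℝ} (hW : IsOpen W)
    (h : LocP A μ W ξ O G) (hO : IsOpen O') (hs : O' ⊆ O) {c : ℝ}
    (he : ∀ y ∈ O' ∩ W, G' y = G y - c) : LocP A μ W ξ O' G' := by
  have ev : ∀ i, ∀ z ∈ (A.C i).W, A.p i z ∈ O' ∩ W →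
      (fun w => G' (A.p i w)) =ᶠ[𝓝 z] fun w => G (A.p i w) + -c := fun i z hz hx => by
    filter_upwards [bpc7_ev hz (hO.inter hW) hx] with w hw
    rw [he _ hw.2, sub_eq_add_neg]
  obtain ⟨b, hb⟩ := h.bd
  refine ⟨hO, fun i z hz hx => ((h.smooth i z hz ⟨hs hx.1, hx.2⟩).add
    contDiffAt_const).congr_of_eventuallyEq (ev i z hz hx), fun i z hz hx => ?_,
    ⟨b - c, fun y hy => ?_⟩, fun k => ?_⟩
  · rw [(dr_congr (ev i z hz hx)).self_of_nhds, dr_add ((h.smooth i z hz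
      ⟨hs hx.1, hx.2⟩).differentiableAt (by simp)) (differentiableAt_const _), dr_const, add_zero,
      h.dr_eq i z hz ⟨hs hx.1, hx.2⟩]
  · rw [he y hy]
    exact sub_le_sub_right (hb y ⟨hs hy.1, hy.2⟩) c
  · refine IntegrableOn.congr_fun (Integrable.const_mul
      ((h.int k).mono_set (inter_subset_inter_left W hs)) (Real.exp (k * c))) (fun y hy => ?_)
      (hO.inter hW).measurableSet
    simp only [he y hy, ← Real.exp_add]
    congr 1
    ring

theorem LocP.of_loc [CompactSpace X] {G : X → ℝ}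
    (h : ∀ x, ∃ O, x ∈ O ∧ LocP A μ W ξ O G) : LocP A μ W ξ univ G := by
  choose O hx hL using h
  obtain ⟨t, -, ht⟩ := isCompact_univ.elim_nhds_subcover O fun x _ => (hL x).isOpen.mem_nhds (hx x)
  choose c hc using fun x => (hL x).bd
  obtain ⟨b, hb⟩ := (t.finite_toSet.image c).bddAbove
  refine ⟨isOpen_univ, fun i z hz hy => (hL _).smooth i z hz ⟨hx _, hy.2⟩,
    fun i z hz hy => (hL _).dr_eq i z hz ⟨hx _, hy.2⟩, ⟨b, fun y hy => ?_⟩, fun k => ?_⟩
  · obtain ⟨x, h1, h2⟩ := mem_iUnion₂.1 (ht hy.1)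
    exact (hc x y ⟨h2, hy.2⟩).trans (hb ⟨x, h1, rfl⟩)
  · refine ((integrableOn_finset_iUnion (s := t) (t := fun x => O x ∩ W)).2
      fun x _ => (hL x).int k).mono_set fun y hy => ?_
    obtain ⟨x, h1, h2⟩ := mem_iUnion₂.1 (ht hy.1)
    exact mem_iUnion₂.2 ⟨x, h1, h2, hy.2⟩

theorem UX.pot [T2Space X] [CompactSpace X] [PreconnectedSpace X] [BorelSpace X]
    (h : UX A W ξ Ω a C) (hP : PolX A W ψ) (hinj : ∀ i, InjOn (A.p i) (A.C i).W)
    (hμ : IsVolume A μ) (h1 : H1 A) : ∃ G, LocP A μ W ξ univ G ∧ ∀ y ∈ W, G y ≤ 0 := by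
  choose O G hx hL using h.loc hP hinj hμ
  choose c hc hc' using fun x y => hP.ext_lc ((hL x).isOpen.inter (hL y).isOpen)
    (u := fun t => G x t - G y t) fun t ht => (hL x).lc hP.isOpen (hL y) ht
  obtain ⟨r, hr, hr'⟩ := h1.lc (c := c) (fun x => (hL x).isOpen) (fun x => ⟨x, hx x⟩) hc (by
    intro x y u t ht
    obtain ⟨s, hs, e1, e2, e3, e4⟩ := ((mem_closure_iff_frequently.1 (hP.dense t)).and_eventually
      ((hc x y t ht.1).and ((hc y u t ⟨ht.1.2, ht.2⟩).and ((hc x u t ⟨ht.1.1, ht.2⟩).and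
        ((((hL x).isOpen.inter (hL y).isOpen).inter (hL u).isOpen).mem_nhds ht))))).exists
    rw [← e1, ← e2, ← e3, hc' x y s ⟨e4.1, hs⟩, hc' y u s ⟨⟨e4.1.2, e4.2⟩, hs⟩,
      hc' x u s ⟨⟨e4.1.1, e4.2⟩, hs⟩]
    ring)
  have hG : LocP A μ W ξ univ fun y => G y y - r y y := by
    refine LocP.of_loc fun x => ?_
    obtain ⟨O', h2, h3, h4⟩ := _root_.eventually_nhds_iff.1
      ((hr x x (hx x)).and ((hL x).isOpen.mem_nhds (hx x)))
    refine ⟨O', h4, (hL x).shift hP.isOpen h3 (fun y hy => (h2 y hy).2) (c := r x x)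
      fun y hy => ?_⟩
    have e1 := hr' x y y ⟨(h2 y hy.1).2, hx y⟩
    have e2 := hc' x y y ⟨⟨(h2 y hy.1).2, hx y⟩, hy.2⟩
    rw [← (h2 y hy.1).1]
    linarith
  obtain ⟨b, hb⟩ := hG.bd
  exact ⟨fun y => G y y - r y y - b, hG.shift hP.isOpen isOpen_univ Subset.rfl fun _ _ => rfl,
    fun y hy => sub_nonpos.2 (hb y ⟨trivial, hy⟩)⟩

theorem UX.lev (h : UX A W ξ Ω a C) (hW : IsOpen W) {G : X → ℝ} (hG : LocP A μ W ξ univ G)
    {i : A.ι} {z : E N} (hz : z ∈ (A.C i).W) (hx : A.p i z ∈ W) (v : E N) :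
    hr ((A.C i).η z) v + hr (lev (fun w => G (A.p i w)) z) v = a * hr (Ω i z) v := by
  have e : (A.C i).η z + AB.lev (fun w => G (A.p i w)) z = (a : ℂ) • Ω i z := by
    ext b c
    have e1 : dz b (fun w => (G (A.p i w) : ℂ)) =ᶠ[𝓝 z] fun w => ξ i w b := by
      filter_upwards [bpc7_ev hz hW hx] with w hw
      exact congrFun (hG.dr_eq i w hw.1 ⟨trivial, hw.2⟩) b
    rw [Matrix.add_apply, lev_apply, (ablev_comm (ablev_re (hG.smooth i z hz ⟨trivial, hx⟩)) b c).1,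
      (dzb_congr e1 c).self_of_nhds, h.eq i z hz hx, Matrix.smul_apply, smul_eq_mul]
    ring
  rw [hr, hr, hr, ← Complex.add_re, ← hq_add, e, hq_smul, Complex.re_ofReal_mul]

end Pool.Agent.BP
end

-- part Pool.Agent.P.MP_63735c_ag.ZBC7
section

/-! The global potential. -/

open scoped ComplexOrder ContDiff Matrix Topology ENNReal
open Set Metric MeasureTheory Filter

namespace Pool.Agent.ZB

open Pool.Agent.BP Pool.Agent.SPF Pool.Agent.AB Pool.Agent.CK Pool.Agent.SE Pool.Agent.NL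

variable {N : ℕ} {X : Type} [TopologicalSpace X] [T2Space X] [PreconnectedSpace X]
  [MeasurableSpace X] [BorelSpace X] {A : Atlas X N} {μ : Measure X} {W : Set X} {ψ : X → ℝ}
  {ξ : A.ι → E N → E N} {Ω : A.ι → E N → Mat N} {a C : ℝ} {L : Line A}
  {Y : Type} [TopologicalSpace Y] [T2Space Y] [CompactSpace Y] {Z : Res L Y}

omit [CompactSpace Y] in
lemma zbc7_loc (hF : Full Z) (h : UX A W ξ Ω a C) (hP : PolX A W ψ)
    (hinj : ∀ i, InjOn (A.p i) (A.C i).W) (hμ : IsVolume A μ) (y : Y) :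
    ∃ (O : Set Y) (G : X → ℝ), IsOpen O ∧ y ∈ O ∧ LocP A μ W ξ (Z.j ⁻¹' O) G := by
  obtain ⟨P, e, hB⟩ := hF.pt y
  obtain ⟨r, G, h0, hr, hL⟩ := P.locP h hP hinj hμ
  have hb : ball P.z₀ r ⊆ Z.W (Z.c P.i) := (ball_subset_closedBall.trans
    (closedBall_subset_closedBall (by linarith [P.r_pos]))).trans hB
  exact ⟨_, G, Z.opn _ _ isOpen_ball hb, ⟨P.z₀, mem_ball_self h0, e⟩, (hF.pre hb).symm ▸ hL⟩

omit [T2Space X] [PreconnectedSpace X] [BorelSpace X] [T2Space Y] in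
lemma zbc7_of_loc {G : X → ℝ}
    (h : ∀ y : Y, ∃ O, IsOpen O ∧ y ∈ O ∧ LocP A μ W ξ (Z.j ⁻¹' O) G) : LocP A μ W ξ univ G := by
  choose O ho hx hL using h
  obtain ⟨t, -, ht⟩ := isCompact_univ.elim_nhds_subcover O fun x _ => (ho x).mem_nhds (hx x)
  choose c hc using fun x => (hL x).bd
  obtain ⟨b, hb⟩ := (t.finite_toSet.image c).bddAbove
  refine ⟨isOpen_univ, fun i z hz hy => (hL _).smooth i z hz ⟨hx _, hy.2⟩,
    fun i z hz hy => (hL _).dr_eq i z hz ⟨hx _, hy.2⟩, ⟨b, fun y hy => ?_⟩, fun k => ?_⟩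
  · obtain ⟨x, h1, h2⟩ := mem_iUnion₂.1 (ht (mem_univ (Z.j y)))
    exact (hc x y ⟨h2, hy.2⟩).trans (hb ⟨x, h1, rfl⟩)
  · refine ((integrableOn_finset_iUnion (s := t) (t := fun x => Z.j ⁻¹' O x ∩ W)).2
      fun x _ => (hL x).int k).mono_set fun y hy => ?_
    obtain ⟨x, h1, h2⟩ := mem_iUnion₂.1 (ht (mem_univ (Z.j y)))
    exact mem_iUnion₂.2 ⟨x, h1, h2, hy.2⟩

theorem Full.pot (hF : Full Z) (h : UX A W ξ Ω a C) (hP : PolX A W ψ)
    (hinj : ∀ i, InjOn (A.p i) (A.C i).W) (hμ : IsVolume A μ) (h1 : H1Y Z) :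
    ∃ G, LocP A μ W ξ univ G ∧ ∀ y ∈ W, G y ≤ 0 := by
  choose O G ho hx hL using zbc7_loc hF h hP hinj hμ
  choose c hc hc' using fun x y => hF.ext_lc hP ((ho x).inter (ho y))
    (u := fun t => G x t - G y t) fun t ht => (hL x).lc hP.isOpen (hL y) ht
  obtain ⟨r, hr, hr'⟩ := h1.lc (c := c) ho (fun x => ⟨x, hx x⟩) hc (by
    intro x y u t ht
    obtain ⟨_, ⟨s, hs, rfl⟩, e1, e2, e3, e4⟩ := ((mem_closure_iff_frequently.1
      (res_dense Z hP.dense t)).and_eventually ((hc x y t ht.1).and ((hc y u t ⟨ht.1.2, ht.2⟩).and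
        ((hc x u t ⟨ht.1.1, ht.2⟩).and
          ((((ho x).inter (ho y)).inter (ho u)).mem_nhds ht))))).exists
    rw [← e1, ← e2, ← e3, hc' x y s ⟨e4.1, hs⟩, hc' y u s ⟨⟨e4.1.2, e4.2⟩, hs⟩,
      hc' x u s ⟨⟨e4.1.1, e4.2⟩, hs⟩]
    ring)
  have hG : LocP A μ W ξ univ fun y => G (Z.j y) y - r (Z.j y) (Z.j y) := by
    refine zbc7_of_loc (Z := Z) fun x => ?_
    obtain ⟨O', h2, h3, h4⟩ := _root_.eventually_nhds_iff.1
      ((hr x x (hx x)).and ((ho x).mem_nhds (hx x)))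
    refine ⟨O', h3, h4, (hL x).shift hP.isOpen (h3.preimage Z.j_cont) (fun y hy => (h2 _ hy).2)
      (c := r x x) fun y hy => ?_⟩
    have e1 := hr' x (Z.j y) (Z.j y) ⟨(h2 _ hy.1).2, hx _⟩
    have e2 := hc' x (Z.j y) y ⟨⟨(h2 _ hy.1).2, hx _⟩, hy.2⟩
    rw [← (h2 _ hy.1).1]
    linarith
  obtain ⟨b, hb⟩ := hG.bd
  exact ⟨fun y => G (Z.j y) y - r (Z.j y) (Z.j y) - b,
    hG.shift hP.isOpen isOpen_univ Subset.rfl fun _ _ => rfl,
    fun y hy => sub_nonpos.2 (hb y ⟨trivial, hy⟩)⟩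

end Pool.Agent.ZB
end

-- part Pool.Agent.P.MP_63735c_ag.ZBC8
section

/-! The output of part C. -/

open scoped ComplexOrder ContDiff Matrix Topology ENNReal
open Set Metric MeasureTheory Filter

namespace Pool.Agent.ZB

open Pool.Agent.BP Pool.Agent.SPF Pool.Agent.AB Pool.Agent.CK Pool.Agent.SE Pool.Agent.NL

variable {N n : ℕ} {X : Type} [TopologicalSpace X] [MeasurableSpace X] {A : Atlas X N}
  {μ : Measure X} {K : Form11 A} {L : Line A}

theorem Kit.exists_up [T2Space X] [PreconnectedSpace X] [BorelSpace X] {Y' : Type}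
    [TopologicalSpace Y'] [T2Space Y'] [CompactSpace Y'] {Z : Res L Y'} (hF : Full Z)
    (hμ : IsVolume A μ) (h1 : H1Y Z) {S : Sys K L n} {Y : Type} [TopologicalSpace Y] [T2Space Y]
    [MeasurableSpace Y] [BorelSpace Y] (T : Kit S μ Y) {ξ : Y → E n} {a C : ℝ}
    (h : T.D.Xi ξ a (S.m : ℝ)⁻¹ C) : ∃ U : Up A μ L, U.W = S.W ∧ U.φ = S.φ ∧ U.m = S.m ∧
      U.s = S.s₀ ∧ ∀ i, ∀ z ∈ (A.C i).W, A.p i z ∈ S.W → ∀ v,
        U.th i z v = a * hr (T.Om i z) v := by
  have hu := T.ux h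
  obtain ⟨G, hG, h0⟩ := hF.pot hu T.pol S.inj hμ h1
  obtain ⟨M, hM, hψ⟩ := T.pol.psh
  have hl := fun i z hz hx v => hu.lev (i := i) (z := z) T.W_open hG hz hx v
  refine ⟨{ hinj := S.inj
            m := S.m
            s := S.s₀
            W := S.W
            hW := T.W_open
            φ := S.φ
            ψ := fun x => T.ψ (T.f x)
            G := G
            M := M
            m_pos := S.m_pos
            sec := S.sec
            null := polX_null hμ hF.cov T.pol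
            φ_eq := fun i z hz hx => S.φ_eq i z hz hx.1
            M_nonneg := hM
            ψ_smo := fun i z hz => (T.pol.smooth i z hz.1 hz.2).contDiffWithinAt
            ψ_le := T.pol.le
            ψ_lev := hψ
            ψ_cpt := fun c => by simpa using T.pol.cpt (-c)
            G_smo := fun i z hz => (hG.smooth i z hz.1 ⟨trivial, hz.2⟩).contDiffWithinAt
            G_le := h0
            G_lev := fun i z hz hx v => (mul_nonneg hu.a_pos.le
              (hq_nonneg (hu.psd i z hz hx) v)).trans_eq (hl i z hz hx v).symm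
            G_int := fun k => univ_inter S.W ▸ hG.int k }, rfl, rfl, rfl, rfl, hl⟩

end Pool.Agent.ZB
end
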