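import Pool.Agent.K.MP_63735c_ag.C301
import Pool.Agent.K.MP_63735c_ag.C343

/-! The limit sets are connected; the data exist. -/

open scoped ComplexOrder ContDiff Matrix Topology ENNReal
open Set Metric MeasureTheory Filter

namespace Pool.Agent.ZB

open Pool.Agent.BP Pool.Agent.SPF Pool.Agent.AB Pool.Agent.CK Pool.Agent.SE Pool.Agent.NL

section

variable {N n : ℕ} {X Z : Type} [TopologicalSpace X] [TopologicalSpace Z] [MeasurableSpace X]
  {A : Atlas X N} {K : Form11 A} {F : Fib A n} {μ : Measure X} {h : X → Mat n} {c₀ : ℝ} {j : X → Z}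

theorem lim_connS [T2Space Z] [CompactSpace Z] (hj : Continuous j)
    (hinj : ∀ i, InjOn (A.p i) (A.C i).W) (hT : F.Tor μ K h c₀) (U : Ultrafilter X)
    (hU : F.W ∈ U) : IsPreconnected (F.LimS j U) := by
  rw [isPreconnected_iff_subset_of_fully_disjoint_closed (Fib.limS_closed _)]
  intro u v hu hv hs hd
  obtain ⟨O₁, O₂, o1, o2, s1, s2, hO⟩ := normal_separation hu hv hd
  have h1 := Fib.limS_trap U (o1.union o2) (hs.trans (union_subset_union s1 s2))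
  have h2 : ∀ᶠ x in (U : Filter X), (∀ y, F.r x y → j y ∈ O₁) ∨ ∀ y, F.r x y → j y ∈ O₂ := by
    filter_upwards [h1, hU] with x hx hW
    obtain ⟨Ψ, κ, -, hr, hl, -⟩ := hT.tor x hW
    obtain ⟨i, -⟩ := A.cover x
    have hc := (bpdp_lift hinj (fun τ => (Fib.r_mem hW ((hr _).2 ⟨τ, rfl⟩)).1) hl i).1
    refine ((isPreconnected_range (hj.comp hc)).subset_or_subset o1 o2 hO ?_).imp
      (fun e y hy => ?_) fun e y hy => ?_
    · rintro _ ⟨τ, rfl⟩
      exact hx _ ((hr _).2 ⟨τ, rfl⟩)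
    · obtain ⟨τ, rfl⟩ := (hr y).1 hy
      exact e ⟨τ, rfl⟩
    · obtain ⟨τ, rfl⟩ := (hr y).1 hy
      exact e ⟨τ, rfl⟩
  rcases Ultrafilter.eventually_or.1 h2 with e | e
  · refine Or.inl fun y hy => (hs hy).resolve_right fun hv' => ?_
    obtain ⟨x, h3, y', h4, h5⟩ := (e.and (hy O₂ (o2.mem_nhds (s2 hv')))).exists
    exact Set.disjoint_left.1 hO (h3 y' h5) h4
  · refine Or.inr fun y hy => (hs hy).resolve_left fun hu' => ?_
    obtain ⟨x, h3, y', h4, h5⟩ := (e.and (hy O₁ (o1.mem_nhds (s1 hu')))).exists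
    exact Set.disjoint_left.1 hO h4 (h3 y' h5)

end

section

variable {N n : ℕ} {X : Type} [TopologicalSpace X] [T2Space X] [PreconnectedSpace X]
  [MeasurableSpace X] [BorelSpace X] {A : Atlas X N} {K K' : Form11 A} {L : Line A}
  {S : Sys K L n} {μ : Measure X} {Y : Type} [TopologicalSpace Y] [MeasurableSpace Y]

omit [PreconnectedSpace X] [MeasurableSpace Y] in
theorem sf8_fib (T : Base S Y) (hd : Dense S.W) {c : ℝ} (hc : 0 ≤ c)
    (he : ∀ y, T.vol y * (T.H y).det.re = c) (hμ : IsVolume A μ) :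
    ∃ F : Fib A n, F.W = S.W ∧ F.g = S.g ∧ (F.om = fun x => T.om (T.f x)) ∧
      (F.r = fun x y => T.f x = T.f y ∧ (x ∈ S.W ↔ y ∈ S.W)) ∧ F.Tor μ K S.h c := by
  have hh : Continuous (S.W.domRestrict S.h) := continuous_matrix fun a b =>
    ((S.h_cont a b).mono fun _ hx => hx.1).domRestrict
  have hdc : ContinuousOn (fun x => (S.h x).det.re) S.W :=
    continuousOn_iff_continuous_domRestrict.2 (Complex.continuous_re.comp hh.matrix_det)
  have hd0 : ∀ x ∈ S.W, 0 ≤ (S.h x).det.re := fun x hx =>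
    (Complex.le_def.1 hx.2.1.posSemidef.det_nonneg).1
  have hac : ∀ v, ContinuousOn (fun x => hr (S.h x).adjugateᵀ v) S.W := fun v =>
    continuousOn_iff_continuous_domRestrict.2 (Complex.continuous_re.comp
      (continuous_const.dotProduct
        (hh.matrix_adjugate.matrix_transpose.matrix_mulVec continuous_const)))
  refine ⟨{
    W := S.W
    r := fun x y => T.f x = T.f y ∧ (x ∈ S.W ↔ y ∈ S.W)
    g := S.g
    om := fun x => T.om (T.f x)
    J := T.ι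
    U := fun k => S.W ∩ T.f ⁻¹' (T.p k '' T.W k)
    T := T.W
    o := fun k b => T.om (T.p k b)
    W_open := T.W_open
    W_dense := hd
    eqv := ⟨fun _ => ⟨rfl, Iff.rfl⟩, fun h => ⟨h.1.symm, h.2.symm⟩,
      fun h h' => ⟨h.1.trans h'.1, h.2.trans h'.2⟩⟩
    g_hol := fun i z hz => (S.g_hol i z hz.1 hz.2.1).differentiableWithinAt
    g_sub := fun i z hz v => ?_
    U_open := fun k => T.f_cont.isOpen_inter_preimage T.W_open
      (T.opn k _ (T.isOpen k) subset_rfl)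
    U_sub := fun _ => inter_subset_left
    T_open := T.isOpen
    maps := fun k x ⟨hx, b, hb, h⟩ => (bpd0_g T hx hb h).symm ▸ hb
    cov := fun x hx => (T.cover (T.f x)).imp fun k hk => ⟨hx, hk⟩
    rel := fun k x ⟨hx, b, hb, h⟩ y => ⟨fun hr => ⟨⟨hr.2.1 hx, b, hb, h.trans hr.1⟩, ?_⟩,
      fun ⟨⟨hy, c, hc, h'⟩, e⟩ => ⟨?_, iff_of_true hx hy⟩⟩
    prop := fun k C hC hs => ?_
    o_cont := fun k a b => ((T.H_smo a b).2 k).continuousOn
    o_eq := fun k x ⟨hx, b, hb, h⟩ => ?_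
    om_psd := fun x _ v => hq_nonneg (T.H_pos _).2.1.posSemidef v }, rfl, rfl, rfl, rfl,
    ⟨fun i z hz => S.poi i z hz.1 hz.2.1, fun i z hz => S.h_eq i z hz.1 hz.2.1,
      fun k O hs hO => ?_, fun k O hs hO v => ?_, fun x hx => ?_⟩⟩
  · obtain ⟨u, hu⟩ := (S.h_pos_iff hz.1 hz.2.1).2.1 hz.2.2.1 v
    exact ⟨u, (jac_mulVec _ _ _).symm.trans hu⟩
  · rw [← T.γ_f y (hr.2.1 hx), ← hr.1, T.γ_f x hx]
  · rw [← h, ← h', ← bpd0_g T hx hb h, ← bpd0_g T hy hc h', e]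
  · rw [bpd0_set T hs]
    exact T.f_proper _ (hC.image_of_continuousOn ((T.cont k).mono hs))
  · rw [bpd0_g T hx hb h, h]
  · refine (bpd0_fub T hμ hdc hd0 hs hO).trans_le ?_
    simp only [T.int_det, he, setLIntegral_const, le_refl]
  · refine (bpd0_fub T hμ (hac v) (fun x hx =>
      hq_nonneg (adj_psd hx.2.1.posSemidef).transpose v) hs hO).trans_le ?_
    simp only [T.int_adj, ← mul_assoc, he, ENNReal.ofReal_mul hc]
    rw [lintegral_const_mul' _ _ ENNReal.ofReal_ne_top]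
  · obtain ⟨k, b, hb, h⟩ := T.cover (T.f x)
    have hs := T.s_mem k b hb
    refine ⟨S.Φ (T.s k b), _, cell_of_per (T.lam_bij k b hb) fun τ t => ?_, fun y => ⟨fun hr => ?_,
      fun ⟨τ, e⟩ => ?_⟩, Base.orb_lift hs.1, ?_⟩
    · rw [add_comm, ← S.Φ_add _ hs.1, (T.lam_per k b hb _).2 ⟨t, rfl⟩]
    · obtain ⟨τ, e⟩ := (T.f_eq _ hs y (hr.2.1 hx)).1 ((T.f_s k b hb).trans (h.trans hr.1))
      exact ⟨τ, e.symm⟩
    · subst e
      exact ⟨by rw [T.f_Φ hs, T.f_s k b hb, h], iff_of_true hx (T.W_inv _ hs τ)⟩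
    · rw [(cell_int (T.lam_bij k b hb) _).2, ← T.vol_chart hb]
      refine (congrArg _ (bpd0_fm T hdc hd0 hb)).trans_le ?_
      rw [T.int_det, ← ENNReal.ofReal_mul (T.vol_pos _).le, he]

/-- The same classes for two forms. -/
theorem Kit.exists_fib2 (T : Kit S μ Y) (hμ : IsVolume A μ)
    (hK : ∀ i, ∀ z ∈ (A.C i).W, (K'.h i z).PosDef) :
    ∃ (F F' : Fib A n) (h' : X → Mat n) (c' : ℝ), F.W = S.W ∧ F.g = S.g ∧
      (F.om = fun x => T.om (T.f x)) ∧ F.Tor μ K S.h T.c₀ ∧ F'.W = F.W ∧ F'.r = F.r ∧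
      F'.Tor μ K' h' c' := by
  obtain ⟨x₀, hx₀⟩ := T.pol.ne
  let B := zbb13_B T.toBase hK
  have h3 : ∀ y, T.vol y * (B.H y).det.re = T.vol (T.f x₀) * (B.H (T.f x₀)).det.re := fun y => by
    obtain ⟨x, hx, rfl⟩ := T.bpb10_surj y
    exact T.pol.const (u := fun x => T.vol (T.f x) * (B.H (T.f x)).det.re) (fun x hx =>
      (T.f_cont.continuousAt (T.W_open.mem_nhds hx)).eventually (B.c_loc (T.f x))) hx₀ hx
  obtain ⟨F, f1, f2, f3, f4, f5⟩ := sf8_fib T.toBase T.pol.dense T.c₀_pos.le T.c_eq hμ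
  obtain ⟨F', g1, -, -, g4, g5⟩ := sf8_fib B ((zbb13_W S hK).symm ▸ T.pol.dense)
    (mul_pos (T.vol_pos _) (B.bpb10_pos _)).le h3 hμ
  refine ⟨F, F', _, _, f1, f2, f3, f5, g1.trans ((zbb13_W S hK).trans f1.symm), ?_, g5⟩
  rw [f4, g4, zbb13_W]
  rfl

end

variable {N n : ℕ} {X : Type} [TopologicalSpace X] [T2Space X] [CompactSpace X] {R : Set X}
  [PreconnectedSpace R] [MeasurableSpace R] [BorelSpace R] {A : Atlas R N} {B : Amb R A}
  {K : Form11 A} {L : Line A} {μ : Measure R} [IsFiniteMeasure μ] {Y : Type} [TopologicalSpace Y]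
  [T2Space Y] [CompactSpace Y] {Z : Res L Y}

theorem Sys.exists_ctxS (S : Sys K L n) [S.Bd] (hμ : IsVolume A μ) (G : Sg B K L) (P : Over B Z)
    (h1 : H1Y Z) (h2 : H02Y Z) (hη : ∃ i, ∃ z ∈ (A.C i).W, (A.C i).η z ≠ 0) :
    ∃ (Γ : CtxS B μ K L n) (F' : Fib A n) (h' : R → Mat n) (c' : ℝ),
      F'.W = Γ.F.W ∧ F'.r = Γ.F.r ∧ F'.Tor μ (resK Z) h' c' := by
  obtain ⟨j, hj, r, s, hs, c, hc, h0⟩ := S.bpf hμ G.kah G.nor G.car P h1 h2 hη
  have hb : BpfS L j := fun x => by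
    by_contra hn
    have := G.neBot x
    have h3 := tendsto_finsetSum Finset.univ fun l _ =>
      (vanS_iff (hs l)).1 (by_contra fun k => hn ⟨s l, hs l, k⟩)
    rw [Finset.sum_const_zero] at h3
    refine hc.not_ge (ge_of_tendsto' h3 fun y => ?_)
    obtain ⟨i, z, hz, rfl⟩ := A.cover y
    simp only [fun l => nrm_eq (hs l) hz]
    exact h0 i z hz
  obtain ⟨Y', _, _, ⟨Bs⟩⟩ := S.exists_base
  borelize Y'
  obtain ⟨T⟩ := Bs.exists_kit hμ
  have hF := P.toFull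
  obtain ⟨a, β, ha, b1, b2, b3⟩ :=
    hF.exists_beta S.inj hμ T.pol S.K_pos (P.upto_gam G.kah) h2 hη
  obtain ⟨ξ, C, hξ⟩ := T.exists_xi ha b1 b3
    (T.avg_bd (resK_pos Z) (hF.K_le (P.upto_K G.kah)) b1 (hF.β_le b1 b2))
  obtain ⟨U, e1, e2, -, -, e3⟩ := T.exists_up hF hμ h1 hξ
  obtain ⟨F, F', h', c', f1, f2, f3, f4, g1, g2, g3⟩ := T.exists_fib2 hμ (resK_pos Z)
  have hl : F.Lift K S.h := by
    unfold Fib.Lift
    rw [f1, f2]
    exact S.exists_lift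
  refine ⟨⟨U, F, S.h, T.c₀, a, j, S.hN, S.n_pos, hμ, G, hF.cov.sb, S.K_pos, f1.trans e1.symm, f4, hl,
    fun x => f1 ▸ e2 ▸ S.em G.kah G.nor G.car x, ha, fun i z hz v => ?_, hj,
    mul_comm j U.m ▸ G.bpf_mul hb U.m⟩, F', h', c', g1, g2, g3⟩
  rw [e3 i z hz.1 (e1 ▸ hz.2) v, Fib.Om, f2, f3]
  rfl

end Pool.Agent.ZB
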