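import Pool.Agent.K.MP_63735c_ag.C292
import Pool.Agent.P.MP_63735c_ag.BPHyp

/-! The direct image of the structure sheaf. -/

namespace Pool.Agent.BP

open Pool.Agent.SPF Pool.Agent.SE

variable {N : ℕ} {X : Type} [TopologicalSpace X]

/-- Every holomorphic function near a fibre is, near that fibre, a holomorphic function of finitely
many quotients of sections of the `k`-th power of `L`. -/
def IsStein {A : Atlas X N} (L : Line A) (k : ℕ) : Prop :=
  ∀ (x : X) (V : Set X) (h : X → ℂ), IsOpen V → Fibre L k x ⊆ V → HolOn A V h →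
    ∃ (r : ℕ) (s₀ : A.ι → E N → ℂ) (s : Fin r → A.ι → E N → ℂ) (O : Set X) (B : Set (E r))
      (u : E r → ℂ), L.IsSection k s₀ ∧ (∀ l, L.IsSection k (s l)) ∧ IsOpen O ∧ Fibre L k x ⊆ O ∧
      IsOpen B ∧ DifferentiableOn ℂ u B ∧ ∀ i, ∀ z ∈ (A.C i).W, A.p i z ∈ O → s₀ i z ≠ 0 ∧
        (fun l => s l i z / s₀ i z) ∈ B ∧ h (A.p i z) = u fun l => s l i z / s₀ i z

end Pool.Agent.BP
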