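import Pool.Agent.K.MP_63735c_ag.C315
import Pool.Agent.K.MP_63735c_ag.C335
import Pool.Agent.K.MP_63735c_ag.C346
import Pool.Agent.K.MP_63735c_ag.C348
import Pool.Agent.K.MP_63735c_ag.C23
import Pool.Agent.K.MP_63735c_ag.C297
import Pool.Agent.K.MP_63735c_ag.C317
import Pool.Agent.K.MP_63735c_ag.C215
import Pool.Agent.K.MP_63735c_ag.C300

-- part Pool.Agent.P.MP_63735c_ag.SLE
section

/-! Local embeddings of the singular space and of its resolution. -/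

open scoped ComplexOrder ContDiff Matrix Topology ENNReal
open Set Metric MeasureTheory Filter

namespace Pool.Agent.ZB

open Pool.Agent.BP Pool.Agent.SPF Pool.Agent.AB Pool.Agent.CK Pool.Agent.SE Pool.Agent.NL

variable {N : ℕ}

section

variable {X : Type} [TopologicalSpace X] {A : Atlas X N}

/-- A local embedding without frame. -/
structure Em0 (A : Atlas X N) (K : Form11 A) {T : Type} [TopologicalSpace T] (j : X → T)
    (O : Set T) {M : ℕ} (z : T → E M) : Prop where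
  opn : IsOpen O
  cont : ContinuousOn z O
  inj : InjOn z O
  hol : HolV A (j ⁻¹' O) fun x => z (j x)
  imm : ∀ i, ∀ w ∈ dom A (j ⁻¹' O) i, Function.Injective (fderiv ℂ (fun w => z (j (A.p i w))) w)
  low : ∃ C : ℝ, 0 < C ∧ ∀ i, ∀ w ∈ dom A (j ⁻¹' O) i, ∀ u,
    nsq (fderiv ℂ (fun w => z (j (A.p i w))) w u) ≤ C * hr (K.h i w) u

/-- The embedding with the trivial frame. -/
noncomputable def Em0.em {K : Form11 A} {T : Type} [TopologicalSpace T] {j : X → T} {O : Set T}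
    {M : ℕ} {z : T → E M} (h : Em0 A K j O z) (W : Set X) : Em A K W 0 j where
  M := M
  O := O
  z := z
  s := fun _ => (√h.low.choose : ℝ)
  c := h.low.choose
  C := h.low.choose
  opn := h.opn
  cont := h.cont
  inj := h.inj
  hol := h.hol
  imm := h.imm
  low := h.low.choose_spec.2
  s_hol := fun _ => differentiableOn_const _
  c_pos := h.low.choose_spec.1
  C_pos := h.low.choose_spec.1
  s_bd := fun _ _ => by
    rw [Complex.norm_real, Real.norm_eq_abs, sq_abs, Real.sq_sqrt h.low.choose_spec.1.le]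
    simp

theorem Em0.mono {K : Form11 A} {T : Type} [TopologicalSpace T] {j : X → T} {O O' : Set T}
    {M : ℕ} {z : T → E M} (h : Em0 A K j O z) (hO : IsOpen O') (hs : O' ⊆ O) : Em0 A K j O' z :=
  ⟨hO, h.cont.mono hs, h.inj.mono hs, fun i => (h.hol i).mono fun _ hw => ⟨hw.1, hs hw.2⟩,
    fun i w hw => h.imm i w ⟨hw.1, hs hw.2⟩,
    h.low.imp fun _ a => ⟨a.1, fun i w hw => a.2 i w ⟨hw.1, hs hw.2⟩⟩⟩

variable {L : Line A} {Y : Type} [TopologicalSpace Y] {Z : Res L Y} {M : ℕ} {f : Y → E M}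
  {V : Set Y}

/-- `f` is holomorphic on the part `V` of `Y`. -/
def HolR (Z : Res L Y) (V : Set Y) (f : Y → E M) : Prop :=
  ∀ i, ∀ w ∈ Z.W (Z.c i), Z.p (Z.c i) w ∈ V → DifferentiableAt ℂ (fun v => f (Z.p (Z.c i) v)) w

theorem sle_ev (f : Y → E M) {i : A.ι} {w : E N} (hw : w ∈ (A.C i).W) :
    (fun v => f (Z.j (A.p i v))) =ᶠ[𝓝 w] fun v => f (Z.p (Z.c i) v) :=
  mem_of_superset ((A.C i).isOpen.mem_nhds hw) fun v hv => congrArg f (Z.p_eq i v hv).symm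

theorem HolR.diff (hf : HolR Z V f) {i : A.ι} {w : E N} (hw : w ∈ (A.C i).W)
    (h : Z.j (A.p i w) ∈ V) : DifferentiableAt ℂ (fun v => f (Z.j (A.p i v))) w :=
  (hf i w (Z.sub i hw) ((Z.p_eq i w hw).symm ▸ h)).congr_of_eventuallyEq (sle_ev f hw)

theorem sle_map (Z : Res L Y) {k : Z.ι} {w : E N} (hw : w ∈ Z.W k) :
    map (Z.p k) (𝓝 w) = 𝓝 (Z.p k w) := by
  refine le_antisymm ((Z.cont k).continuousAt ((Z.isOpen k).mem_nhds hw)) fun s hs => ?_
  obtain ⟨O, o1, o2, o3⟩ := _root_.mem_nhds_iff.1 (inter_mem hs ((Z.isOpen k).mem_nhds hw))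
  exact mem_of_superset ((Z.opn k O o2 fun v hv => (o1 hv).2).mem_nhds ⟨w, o3, rfl⟩)
    (image_subset_iff.2 fun v hv => (o1 hv).1)

variable [T2Space Y] [CompactSpace Y]

theorem sle_low (h : Full Z) (hV : IsOpen V) {Q : Set Y} (hQ : IsClosed Q) (hs : Q ⊆ V)
    (hf : HolR Z V f) : ∃ C : ℝ, 0 < C ∧ ∀ i, ∀ w ∈ (A.C i).W, Z.j (A.p i w) ∈ Q → ∀ u,
      nsq (fderiv ℂ (fun w => f (Z.j (A.p i w))) w u) ≤ C * hr ((resK Z).h i w) u := by
  classical
  obtain ⟨C, hC, h1⟩ := zbb11b_unif h (fun i w u => if Z.j (A.p i w) ∈ Q then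
    nsq (fderiv ℂ (fun w => f (Z.j (A.p i w))) w u) else 0) (fun i k O φ hch hp z hz v => by
      rw [hp z hz]
      split_ifs with a
      · have h2 := hf.diff (hch.maps hz) ((hp z hz).symm ▸ hs a)
        rw [bpt2_jac, Filter.EventuallyEq.fderiv_eq (f := (fun w => f (Z.j (A.p k w))) ∘ φ)
          (mem_of_superset (hch.isOpen.mem_nhds hz) fun v hv => by simp [hp v hv]),
          fderiv_comp z h2 (hch.lin3_diff hz)]
        rfl
      · rfl) fun i w hw => by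
      have hc := (Z.cont _).continuousAt ((Z.isOpen _).mem_nhds hw)
      by_cases a : Z.p (Z.c i) w ∈ Q
      · have h2 := (fb9_cd (γ := fun v => f (Z.p (Z.c i) v)) (t := w) (by
          filter_upwards [(Z.isOpen _).mem_nhds hw, hc (hV.mem_nhds (hs a))] with v a1 a2
          exact hf i v a1 a2)).continuousAt_fderiv one_ne_zero
        set b := ‖fderiv ℂ (fun v => f (Z.p (Z.c i) v)) w‖ + 1
        refine ⟨M * b ^ 2, by positivity, ?_⟩
        filter_upwards [h2.norm.eventually_lt continuousAt_const (lt_add_one _)] with z a1 a2 v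
        split_ifs
        · rw [(sle_ev f a2).fderiv_eq, mul_assoc, ← mul_pow]
          refine (nsq_le _).2.trans (mul_le_mul_of_nonneg_left (pow_le_pow_left₀ (norm_nonneg _)
            ((ContinuousLinearMap.le_opNorm _ _).trans ?_) 2) (Nat.cast_nonneg _))
          exact mul_le_mul_of_nonneg_right a1.le (norm_nonneg _)
        · positivity
      · refine ⟨0, le_rfl, ?_⟩
        filter_upwards [hc (hQ.isOpen_compl.mem_nhds a)] with z a1 a2 v
        rw [if_neg (Z.p_eq i z a2 ▸ a1), zero_mul]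
  exact ⟨C, hC, fun i w hw a u => (if_pos a).ge.trans (h1 i w hw u)⟩

/-- The chart coordinate together with a holomorphic map. -/
theorem emY (h : Full Z) (hV : IsOpen V) (hc : ContinuousOn f V) (hf : HolR Z V f) {i : A.ι}
    {w₀ : E N} (hw : w₀ ∈ Z.W (Z.c i)) (h0 : Z.p (Z.c i) w₀ ∈ V) :
    ∃ (O : Set Y) (ζ : Y → E N), Z.p (Z.c i) w₀ ∈ O ∧ O ⊆ V ∧
      (∀ y ∈ O, ζ y ∈ Z.W (Z.c i) ∧ Z.p (Z.c i) (ζ y) = y) ∧
      (∀ w ∈ Z.W (Z.c i), ζ (Z.p (Z.c i) w) = w) ∧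
      Em0 A (resK Z) Z.j O fun y => ap (ζ y) (f y) := by
  let ζ : Y → E N := Function.invFunOn (Z.p (Z.c i)) (Z.W (Z.c i))
  have z1 : ∀ w ∈ Z.W (Z.c i), ζ (Z.p (Z.c i) w) = w := (Z.inj _).leftInvOn_invFunOn
  have hV' : IsOpen (V ∩ Z.p (Z.c i) '' Z.W (Z.c i)) :=
    hV.inter (Z.opn _ _ (Z.isOpen _) subset_rfl)
  obtain ⟨Q, hQ, q1, q2⟩ := exists_compact_subset hV' ⟨h0, w₀, hw, rfl⟩
  have q3 := interior_subset.trans q2
  have z2 : ∀ y ∈ interior Q, ζ y ∈ Z.W (Z.c i) ∧ Z.p (Z.c i) (ζ y) = y := fun y hy => by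
    obtain ⟨w, a, rfl⟩ := (q3 hy).2
    rw [z1 w a]
    exact ⟨a, rfl⟩
  have z3 : HolR Z (V ∩ Z.p (Z.c i) '' Z.W (Z.c i)) fun y => ap (ζ y) (f y) :=
    fun k v hv ⟨a, w, b, e⟩ => by
      obtain ⟨φ, -, p2⟩ := Z.trans _ _ v hv w b e.symm
      exact (spl N M).symm.differentiableAt.comp v ((p2.self_of_nhds.1.congr_of_eventuallyEq
        (p2.mono fun u hu => (congrArg ζ hu.2.2.symm).trans (z1 _ hu.2.1))).prodMk (hf k v hv a))
  refine ⟨interior Q, ζ, q1, fun y hy => (q3 hy).1, z2, z1, isOpen_interior, fun y hy => ?_,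
    fun y hy y' hy' e => ?_, fun k w hw => (z3.diff hw.1 (q3 hw.2)).differentiableWithinAt,
    fun k w hw => ?_, (sle_low h hV' hQ.isClosed q2 z3).imp fun C a =>
      ⟨a.1, fun k w hw => a.2 k w hw.1 (interior_subset hw.2)⟩⟩
  · obtain ⟨w, a, rfl⟩ := (q3 hy).2
    refine ((spl N M).symm.continuous.continuousAt.comp (ContinuousAt.prodMk ?_
      (hc.continuousAt (hV.mem_nhds (q3 hy).1)))).continuousWithinAt
    rw [ContinuousAt, ← sle_map Z a, tendsto_map'_iff, z1 w a]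
    exact tendsto_id.congr' (mem_of_superset ((Z.isOpen _).mem_nhds a) fun u hu => (z1 u hu).symm)
  · have := congrArg (pr1 N M) e
    rw [pr1_ap, pr1_ap] at this
    rw [← (z2 y hy).2, this, (z2 y' hy').2]
  · obtain ⟨a1, a2⟩ := h.mem (z2 _ hw.2).1 (z2 _ hw.2).2
    obtain ⟨O, φ, hch, hO, -, hp⟩ := A.trans k i w hw.1 _ a1 a2.symm
    have a3 := ((pr1 N M).hasFDerivAt.comp w (z3.diff hw.1 (q3 hw.2)).hasFDerivAt).fderiv
    rw [Filter.EventuallyEq.fderiv_eq (f := φ) (mem_of_superset (hch.isOpen.mem_nhds hO)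
      fun v hv => by
        simp only [mem_ofPred_eq, Function.comp, pr1_ap]
        rw [← hp v hv, ← Z.p_eq i _ (hch.maps hv), z1 _ (Z.sub i (hch.maps hv))])] at a3
    refine Function.Injective.of_comp (f := pr1 N M) fun u v e => ?_
    refine Matrix.mulVec_injective_of_isUnit
      ((Matrix.isUnit_iff_isUnit_det _).2 (hch.det_ne hO).isUnit) ?_
    rw [bpt2_jac, bpt2_jac, a3]
    exact e

end

variable {X : Type} [TopologicalSpace X] {R : Set X} {A : Atlas R N} {B : Amb R A} {L : Line A}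
  {Y : Type} [TopologicalSpace Y] {Z : Res L Y}

theorem Over.holR (P : Over B Z) (α : B.κ) {M : ℕ} (π : E (B.M α) →L[ℂ] E M) :
    IsOpen (P.ρ ⁻¹' B.V α) ∧ ContinuousOn (fun y => π (B.z α (P.ρ y))) (P.ρ ⁻¹' B.V α) ∧
      HolR Z (P.ρ ⁻¹' B.V α) fun y => π (B.z α (P.ρ y)) :=
  ⟨(B.V_open α).preimage P.cont,
    π.continuous.comp_continuousOn ((B.cont α).comp P.cont.continuousOn fun _ h => h),
    fun _ w hw h => π.differentiableAt.comp w (P.hol α _ w hw h)⟩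

/-- The ambient coordinates, measured with the form of the resolution. -/
theorem emX [T2Space X] [CompactSpace X] [T2Space Y] [CompactSpace Y] (P : Over B Z) {α : B.κ}
    {x : X} (hx : x ∈ B.V α) :
    ∃ O, x ∈ O ∧ O ⊆ B.V α ∧ Em0 A (resK Z) Subtype.val O (B.z α) := by
  obtain ⟨Q, hQ, q1, q2⟩ := exists_compact_subset (B.V_open α) hx
  have q3 := interior_subset.trans q2
  obtain ⟨a1, -, a2⟩ := P.holR α (ContinuousLinearMap.id ℂ _)
  obtain ⟨C, hC, h⟩ := sle_low P.toFull a1 (hQ.isClosed.preimage P.cont) (preimage_mono q2) a2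
  simp only [ContinuousLinearMap.id_apply, mem_preimage, P.ρ_j] at h
  exact ⟨_, q1, q3, isOpen_interior, (B.cont α).mono q3, (B.inj α).mono q3,
    fun i w hw => (B.hol α i w hw.1 (q3 hw.2)).1.differentiableWithinAt,
    fun i w hw => (B.hol α i w hw.1 (q3 hw.2)).2,
    C, hC, fun i w hw => h i w hw.1 (interior_subset hw.2)⟩

/-- The limit set in `X` is the image of the limit set in `Y`. -/
theorem Over.lim [T2Space X] [CompactSpace Y] (P : Over B Z) {n : ℕ} (F : Fib A n)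
    (U : Ultrafilter R) : F.LimS Subtype.val U = P.ρ '' F.LimS Z.j U := by
  refine Subset.antisymm (fun x hx => by_contra fun hn => ?_) ?_
  · obtain ⟨V, O, v1, o1, v2, o2, hd⟩ := ((Fib.limS_closed (F := F) (j := Z.j) U).isCompact.image
      P.cont).separation_of_notMem hn
    obtain ⟨u, a, y, b, c⟩ := ((Fib.limS_trap U (v1.preimage P.cont) (image_subset_iff.1 v2)).and
      (hx O (o1.mem_nhds o2))).exists
    exact disjoint_left.1 hd (P.ρ_j y ▸ a y c) b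
  · rintro _ ⟨y, hy, rfl⟩ O hO
    exact (hy _ (P.cont.continuousAt hO)).mono fun u ⟨v, a, b⟩ => ⟨v, P.ρ_j v ▸ a, b⟩

end Pool.Agent.ZB
end

-- part Pool.Agent.P.MP_63735c_ag.SLB
section

/-! A holomorphic branch of a family of points with holomorphic traces. -/

open scoped ComplexOrder ContDiff Matrix Topology ENNReal
open Set Metric MeasureTheory Filter

namespace Pool.Agent.ZB

open Pool.Agent.BP Pool.Agent.SPF Pool.Agent.AB Pool.Agent.CK Pool.Agent.SE Pool.Agent.NL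

/-- A map with attracting fixed points `0` and `1`. -/
noncomputable def slbG (u : ℂ) : ℂ := 3 * u ^ 2 - 2 * u ^ 3

theorem slb_it (l : ℕ) : Differentiable ℂ slbG^[l] ∧ ∀ u : ℂ, slbG^[l] (1 - u) = 1 - slbG^[l] u ∧
    (‖u‖ ≤ 1 / 8 → ‖slbG^[l] u‖ ≤ (1 / 2) ^ l * (1 / 8)) := by
  have hd : Differentiable ℂ slbG := by
    unfold slbG
    fun_prop
  refine ⟨hd.iterate l, ?_⟩
  induction l with
  | zero => exact fun u => ⟨rfl, fun h => by simpa using h⟩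
  | succ l ih =>
    intro u
    rw [Function.iterate_succ_apply', Function.iterate_succ_apply', (ih u).1]
    refine ⟨by unfold slbG; ring, fun h => ?_⟩
    have h1 := (ih u).2 h
    set v := slbG^[l] u
    have h2 : (1 / 2 : ℝ) ^ l ≤ 1 := pow_le_one₀ (by norm_num) (by norm_num)
    have h3 : ‖3 * v - 2 * v ^ 2‖ ≤ 1 / 2 := by
      refine (norm_sub_le _ _).trans ?_
      simp only [norm_mul, norm_pow, Complex.norm_ofNat]
      nlinarith [norm_nonneg v]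
    rw [show slbG v = v * (3 * v - 2 * v ^ 2) by unfold slbG; ring, norm_mul,
      pow_succ (1 / 2 : ℝ)]
    nlinarith [norm_nonneg v, norm_nonneg (3 * v - 2 * v ^ 2)]

theorem slb_lim {u : ℂ} (p : Prop) [Decidable p] (h : ‖u - if p then 1 else 0‖ ≤ 1 / 8) :
    (∀ l, ‖slbG^[l] u‖ ≤ 2) ∧ Tendsto (fun l => slbG^[l] u) atTop (𝓝 (if p then 1 else 0)) := by
  have h1 : ∀ l, ‖slbG^[l] u - if p then 1 else 0‖ ≤ (1 / 2) ^ l * (1 / 8) := fun l => by
    split_ifs at h ⊢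
    · have := (slb_it l).2 (1 - u)
      rw [sub_sub_cancel] at this
      rw [this.1, sub_sub_cancel_left, norm_neg]
      exact this.2 (by rwa [norm_sub_rev])
    · rw [sub_zero] at h ⊢
      exact ((slb_it l).2 u).2 h
  refine ⟨fun l => ?_, tendsto_iff_norm_sub_tendsto_zero.2 (squeeze_zero (fun _ => norm_nonneg _)
    h1 (by simpa only [zero_mul] using (tendsto_pow_atTop_nhds_zero_of_lt_one (r := (1 / 2 : ℝ)) (by norm_num)
      (by norm_num)).mul_const (1 / 8)))⟩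
  have h2 : (1 / 2 : ℝ) ^ l ≤ 1 := pow_le_one₀ (by norm_num) (by norm_num)
  have h3 : ‖(if p then 1 else 0 : ℂ)‖ ≤ 1 := by split_ifs <;> simp
  linarith [norm_sub_norm_le (slbG^[l] u) (if p then 1 else 0), h1 l]

theorem sl_branch {n M d : ℕ} (hd : 1 ≤ d) {D : Set (E n)} (hD : IsOpen D) (hne : D.Nonempty)
    {Y : E n → Fin d → E M} {b : ℝ} (hb : ∀ a ∈ D, ∀ k, ‖Y a k‖ ≤ b)
    (hT : ∀ u : E M → ℂ, Differentiable ℂ u → DifferentiableOn ℂ (fun a => ∑ k, u (Y a k)) D) :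
    ∃ (a₁ : E n) (ε ρ : ℝ) (q : E n → E M), 0 < ε ∧ 0 < ρ ∧ ball a₁ ρ ⊆ D ∧
      DifferentiableOn ℂ q (ball a₁ ρ) ∧ ∀ a ∈ ball a₁ ρ, q a ∈ ball (q a₁) ε ∧
        (∃ k, Y a k = q a) ∧ ∀ k, Y a k ∈ ball (q a₁) ε → Y a k = q a := by
  classical
  let P : E n → Finset (E M) := fun a => Finset.univ.image (Y a)
  have hP : ∀ a k, Y a k ∈ P a := fun a k => Finset.mem_image_of_mem _ (Finset.mem_univ k)
  obtain ⟨a₁, h1, hmax⟩ : ∃ a₁ ∈ D, ∀ a ∈ D, (P a).card ≤ (P a₁).card := by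
    have hB : BddAbove ((fun a => (P a).card) '' D) := ⟨d, by
      rintro _ ⟨a, -, rfl⟩
      simpa using Finset.card_image_le (s := Finset.univ) (f := Y a)⟩
    obtain ⟨a₁, h1, e⟩ := Nat.sSup_mem (hne.image _) hB
    exact ⟨a₁, h1, fun a ha => (le_csSup hB ⟨a, ha, rfl⟩).trans_eq e.symm⟩
  set c := Y a₁ ⟨0, hd⟩
  obtain ⟨h, g1, g2, g3⟩ := bptr_sep c ((P a₁).erase c) (Finset.notMem_erase _ _)
  have hev : ∀ᶠ ε in 𝓝[>] (0 : ℝ), ∀ p ∈ P a₁, (∀ p' ∈ P a₁, ‖p - p'‖ ≤ 3 * ε → p = p') ∧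
      ∀ w, ‖w - p‖ ≤ ε → ‖h w - h p‖ ≤ 1 / 8 := by
    refine (Finset.eventually_all _).2 fun p _ => ((Finset.eventually_all _).2 fun p' _ => ?_).and ?_
    · by_cases e : p = p'
      · exact Eventually.of_forall fun _ _ => e
      · filter_upwards [Ioo_mem_nhdsGT (show 0 < ‖p - p'‖ / 3 from
          div_pos (norm_pos_iff.2 (sub_ne_zero.2 e)) three_pos)] with ε a1 a2
        linarith [a1.2]
    · obtain ⟨δ, d1, d2⟩ := Metric.continuousAt_iff.1 (g1.continuous.continuousAt (x := p)) (1 / 8)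
        (by norm_num)
      filter_upwards [Ioo_mem_nhdsGT d1] with ε a1 w a2
      exact (dist_eq_norm _ _).ge.trans (d2 ((dist_eq_norm _ _).trans_lt (a2.trans_lt a1.2))).le
  obtain ⟨ε, hε, e1⟩ := (eventually_mem_nhdsWithin.and hev).exists
  replace hε : 0 < ε := hε
  obtain ⟨δ, hδ, hcl⟩ := ps_close M d b (half_pos (half_pos hε))
  obtain ⟨ρ, hρ, r1⟩ := Metric.eventually_nhds_iff_ball.1 (Filter.Eventually.and (hD.mem_nhds h1)
    (eventually_all.2 fun α : Fin M → Fin (2 * d + 1) =>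
      ((hT _ (mon_diff α)).continuousOn.continuousAt (hD.mem_nhds h1)).eventually
        (closedBall_mem_nhds _ hδ)))
  have c1 : ∀ a ∈ ball a₁ ρ, (∀ k, ∃ j, ‖Y a k - Y a₁ j‖ ≤ ε / 2 / 2) ∧
      ∀ j, ∃ k, ‖Y a₁ j - Y a k‖ ≤ ε / 2 / 2 := fun a ha =>
    ⟨hcl _ _ (fun i => ⟨hb a (r1 a ha).1 i, hb a₁ h1 i⟩) fun α =>
      mem_closedBall_iff_norm.1 ((r1 a ha).2 α),
    hcl _ _ (fun i => ⟨hb a₁ h1 i, hb a (r1 a ha).1 i⟩) fun α =>
      mem_closedBall_iff_norm'.1 ((r1 a ha).2 α)⟩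
  have tri : ∀ {p p' w : E M}, p ∈ P a₁ → p' ∈ P a₁ → ‖p - w‖ ≤ ε / 2 / 2 → ‖p' - w‖ ≤ 2 * ε →
      p = p' := fun {p p' w} a1 a2 a3 a4 => (e1 p a1).1 p' a2 (by
    have := norm_sub_le_norm_sub_add_norm_sub p w p'
    rw [norm_sub_rev w] at this
    linarith)
  have c2 : ∀ a ∈ ball a₁ ρ, ∃ w, ‖c - w‖ ≤ ε / 2 / 2 ∧ (∃ k, Y a k = w) ∧
      ∀ k, ‖c - Y a k‖ ≤ 2 * ε → Y a k = w := fun a ha => by
    have c3 : ∀ p ∈ P a₁, ∃ w ∈ P a, ‖p - w‖ ≤ ε / 2 / 2 := fun p hp => by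
      obtain ⟨j, -, rfl⟩ := Finset.mem_image.1 hp
      exact ((c1 a ha).2 j).elim fun k hk => ⟨_, hP a k, hk⟩
    choose! f f1 f2 using c3
    have c4 := Finset.surjOn_of_injOn_of_card_le f f1 (fun p hp p' hp' e =>
      tri hp hp' (f2 p hp) (e ▸ (f2 p' hp').trans (by linarith))) (hmax a (r1 a ha).1)
    refine ⟨f c, f2 c (hP _ _), by simpa [P] using f1 c (hP _ _), fun k hk => ?_⟩
    obtain ⟨p, hp, e⟩ := c4 (hP a k)
    rw [← e, tri hp (hP _ _) (f2 p hp) (e ▸ hk)]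
  choose! q q1 q2 q3 using c2
  have q0 : q a₁ = c := (q3 a₁ (mem_ball_self hρ) _ (by rw [sub_self, norm_zero]; positivity)).symm
  have c5 : ∀ a ∈ ball a₁ ρ, ∀ k, ‖h (Y a k) - if Y a k = q a then 1 else 0‖ ≤ 1 / 8 :=
    fun a ha k => by
      obtain ⟨j, hj⟩ := (c1 a ha).1 k
      have a1 := (e1 _ (hP a₁ j)).2 _ (hj.trans (by linarith))
      rw [norm_sub_rev] at hj
      split_ifs with e
      · rwa [tri (hP a₁ j) (hP _ _) hj (e ▸ (q1 a ha).trans (by linarith)), g2] at a1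
      · rwa [g3 _ (Finset.mem_erase.2 ⟨fun e' => e (q3 a ha k
          (e' ▸ hj.trans (by linarith))), hP a₁ j⟩)] at a1
  have c6 : ∀ u : E M → ℂ, Differentiable ℂ u → DifferentiableOn ℂ
      (fun a => (∑ k, if Y a k = q a then 1 else 0) * u (q a)) (ball a₁ ρ) := fun u hu => by
    obtain ⟨m, hm⟩ := (isCompact_closedBall (0 : E M) b).exists_bound_of_continuousOn
      hu.continuous.continuousOn
    obtain ⟨g, a1, a2⟩ := CL.hol_ulim (hyperfilter ℕ) (isOpen_ball (x := a₁) (ε := ρ))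
      (f := fun l a => ∑ k, slbG^[l] (h (Y a k)) * u (Y a k)) (M := ∑ _k : Fin d, 2 * m)
      (Eventually.of_forall fun l => ⟨(hT _ (((slb_it l).1.comp g1).mul hu)).mono
        fun a ha => (r1 a ha).1, fun a ha => norm_sum_le_of_le _ fun k _ => by
          rw [norm_mul]
          exact mul_le_mul ((slb_lim _ (c5 a ha k)).1 l)
            (hm _ (mem_closedBall_zero_iff.2 (hb a (r1 a ha).1 k))) (norm_nonneg _) zero_le_two⟩)
    refine a1.congr fun a ha => tendsto_nhds_unique ?_ (a2 a ha).1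
    rw [Finset.sum_mul]
    refine tendsto_finsetSum _ fun k _ => ?_
    have := (((slb_lim _ (c5 a ha k)).2).mul_const (u (Y a k))).mono_left
      (hyperfilter_le_cofinite.trans Nat.cofinite_eq_atTop.le)
    split_ifs at this ⊢ with e
    · rwa [← e]
    · simpa using this
  have c7 : ∀ a ∈ ball a₁ ρ, (∑ k, if Y a k = q a then 1 else 0 : ℂ) ≠ 0 := fun a ha => by
    obtain ⟨k, hk⟩ := q2 a ha
    rw [Finset.sum_boole, Nat.cast_ne_zero, Finset.card_ne_zero]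
    exact ⟨k, by simpa using hk⟩
  refine ⟨a₁, ε, ρ, q, hε, hρ, fun a ha => (r1 a ha).1, differentiableOn_pi.2 fun j => ?_,
    fun a ha => ⟨?_, q2 a ha, fun k hk => q3 a ha k ?_⟩⟩
  · have a1 := c6 (fun _ => 1) (differentiable_const _)
    simp only [mul_one] at a1
    exact ((c6 (fun w => w j) (by fun_prop)).mul (a1.inv c7)).congr fun a ha => by
      simp only [Pi.mul_apply, Pi.inv_apply]
      rw [mul_comm _ (q a j), mul_inv_cancel_right₀ (c7 a ha)]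
  · rw [q0, mem_ball_iff_norm']
    linarith [q1 a ha]
  · rw [q0, mem_ball_iff_norm'] at hk
    linarith

end Pool.Agent.ZB
end

-- part Pool.Agent.P.MP_63735c_ag.SLN
section

/-! Generic slices of a set of dimension at most n. -/

open scoped ComplexOrder ContDiff Matrix Topology ENNReal
open Set Metric MeasureTheory Filter

namespace Pool.Agent.ZB

open Pool.Agent.BP Pool.Agent.SPF Pool.Agent.AB Pool.Agent.CK Pool.Agent.SE Pool.Agent.NL

theorem sl_null {n M : ℕ} {S : Set (E M)} {C ε₀ : ℝ} (h0 : 0 < ε₀)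
    (hS : ∀ ε, 0 < ε → ε ≤ ε₀ → ∃ T : Finset (E M), (T.card : ℝ) * ε ^ (2 * n) ≤ C ∧
      S ⊆ ⋃ c ∈ T, closedBall c ε) (L : E M →L[ℂ] E n) (o : E M) :
    ∀ᵐ a : E n, ∀ᵐ r : ℝ, ∀ w ∈ S, L w = a → ‖w - o‖ ≠ r := by
  have hv : volume (ball (0 : E n) 1) ≠ ⊤ := measure_ball_lt_top.ne
  have hr : Module.finrank ℝ (E n) = 2 * n := by simp [finrank_real_of_complex]
  have hL := norm_nonneg L
  have key : ∀ ε, 0 < ε → ε ≤ ε₀ →
      (volume.prod volume) {p : E n × ℝ | ¬ ∀ w ∈ S, L w = p.1 → ‖w - o‖ ≠ p.2} ≤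
        ENNReal.ofReal (C * ‖L‖ ^ (2 * n) * 2 * ε) * volume (ball (0 : E n) 1) := fun ε h1 h2 => by
    obtain ⟨T, t1, t2⟩ := hS ε h1 h2
    have h3 : {p : E n × ℝ | ¬ ∀ w ∈ S, L w = p.1 → ‖w - o‖ ≠ p.2} ⊆
        ⋃ c ∈ T, closedBall (L c) (‖L‖ * ε) ×ˢ closedBall ‖c - o‖ ε := by
      intro p hp
      simp only [mem_ofPred_eq, not_forall, not_not] at hp
      obtain ⟨w, hw, e1, e2⟩ := hp
      obtain ⟨c, hc, h4⟩ := mem_iUnion₂.1 (t2 hw)
      have h5 := mem_closedBall_iff_norm.1 h4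
      refine mem_iUnion₂.2 ⟨c, hc, mem_closedBall_iff_norm.2 ?_, mem_closedBall_iff_norm.2 ?_⟩
      · rw [← e1, ← map_sub]
        exact (L.le_opNorm _).trans (mul_le_mul_of_nonneg_left h5 hL)
      · rw [← e2]
        exact (abs_norm_sub_norm_le _ _).trans (by rwa [sub_sub_sub_cancel_right])
    refine (measure_mono h3).trans ((measure_biUnion_finset_le _ _).trans ?_)
    simp only [Measure.prod_prod, Real.volume_closedBall,
      Measure.addHaar_closedBall volume _ (mul_nonneg hL h1.le), hr, Finset.sum_const, nsmul_eq_mul]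
    rw [mul_right_comm, ← mul_assoc, ← ENNReal.ofReal_mul (by positivity), ← ENNReal.ofReal_natCast,
      ← ENNReal.ofReal_mul (by positivity)]
    refine mul_le_mul_left (ENNReal.ofReal_le_ofReal ?_) _
    have := mul_le_mul_of_nonneg_right t1 (show 0 ≤ ‖L‖ ^ (2 * n) * 2 * ε by positivity)
    rw [mul_pow]
    linarith
  refine Measure.ae_ae_of_ae_prod (μ := volume) (ν := volume)
    (p := fun p : E n × ℝ => ∀ w ∈ S, L w = p.1 → ‖w - o‖ ≠ p.2) (nonpos_iff_eq_zero.1 ?_)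
  have h6 : Tendsto (fun ε : ℝ => ENNReal.ofReal (C * ‖L‖ ^ (2 * n) * 2 * ε) *
      volume (ball (0 : E n) 1)) (𝓝[>] 0) (𝓝 0) := by
    have h7 : Tendsto (fun ε : ℝ => C * ‖L‖ ^ (2 * n) * 2 * ε) (𝓝[>] 0) (𝓝 0) := by
      simpa using ((continuous_const_mul (C * ‖L‖ ^ (2 * n) * 2)).tendsto 0).mono_left
        nhdsWithin_le_nhds
    simpa using ENNReal.Tendsto.mul_const (ENNReal.tendsto_ofReal h7) (Or.inr hv)
  exact ge_of_tendsto h6 (mem_of_superset (Ioc_mem_nhdsGT h0) fun ε hε => key ε hε.1 hε.2)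

end Pool.Agent.ZB
end

-- part Pool.Agent.P.MP_63735c_ag.SLC
section

/-! Almost every fibre of a projection carries a scale. -/

open scoped ComplexOrder ContDiff Matrix Topology ENNReal
open Set Metric MeasureTheory Filter

namespace Pool.Agent.ZB

open Pool.Agent.BP Pool.Agent.SPF Pool.Agent.AB Pool.Agent.CK Pool.Agent.SE Pool.Agent.NL

variable {N n : ℕ} {X Z : Type} [TopologicalSpace X] [TopologicalSpace Z] [T2Space Z]
  {A : Atlas X N} {K : Form11 A} {F : Fib A n} {φ : X → ℝ} {j : X → Z}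

theorem sl_sz {e : Em A K F.W φ j} (hP : F.PackS e) (U : Ultrafilter X) (hU : F.W ∈ U)
    (L : E e.M →L[ℂ] E n) {o : E e.M} {R : ℝ} (hR : 0 < R)
    (hc : IsCompact (e.O ∩ e.z ⁻¹' closedBall o (8 * R))) :
    ∀ᵐ a : E n, ∃ ρ r₁ r₂ : ℝ, 0 < ρ ∧ R ≤ r₁ ∧ r₁ < r₂ ∧ r₂ ≤ 8 * R ∧ ∀ y ∈ e.O, y ∈ F.LimS j U →
      L (e.z y) ∈ closedBall a (2 * ρ) → e.z y ∈ closedBall o r₂ → e.z y ∈ ball o r₁ := by
  have h0 : 0 < 4 * R := by positivity
  obtain ⟨B, hB⟩ := sbd5_pack hP U hU (o := o) h0 (by rwa [← mul_assoc, show (2 : ℝ) * 4 = 8 by norm_num])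
  have : Nonempty Z ∨ IsEmpty Z := (isEmpty_or_nonempty Z).symm
  rcases this with this | this
  swap
  · exact Eventually.of_forall fun a => ⟨1, R, 2 * R, one_pos, le_rfl, by linarith, by linarith,
      fun y => this.elim y⟩
  filter_upwards [sl_null (n := n) (C := B * 2 ^ (2 * n))
    (S := e.z '' {w | w ∈ e.O ∧ e.z w ∈ ball o (4 * R) ∧ w ∈ F.LimS j U}) h0
    (fun δ hδ hδ' => by
      obtain ⟨T, h1, h2⟩ := cover_of_sep (C := B / (δ / 2) ^ (2 * n))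
        (Z := e.z '' {w | w ∈ e.O ∧ e.z w ∈ ball o (4 * R) ∧ w ∈ F.LimS j U}) hδ
        fun T h1 h2 => by
          choose! w hw e' using fun t (ht : t ∈ T) => h1 ht
          refine (le_div_iff₀ (by positivity)).2 (hB δ hδ hδ' T w hw fun t ht t' ht' hne => ?_)
          have := h2 t ht t' ht' hne
          rwa [← e' t ht, ← e' t' ht'] at this
      refine ⟨T, ?_, h2⟩
      rwa [le_div_iff₀ (by positivity), div_pow, ← mul_div_assoc,
        div_le_iff₀ (by positivity)] at h1) L o] with a ha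
  obtain ⟨r, ⟨hr1, hr2⟩, hr⟩ := Measure.exists_mem_of_measure_ne_zero_of_ae
    (s := Icc (2 * R) (3 * R)) (by
      rw [Real.volume_Icc]
      exact (ENNReal.ofReal_pos.2 (by linarith)).ne') (ae_restrict_of_ae ha)
  have hK := (sbd5_cpt e hc (show 7 / 2 * R ≤ 8 * R by linarith)).inter_right
    (Fib.limS_closed (F := F) (j := j) U)
  have hz := e.cont.mono (show e.O ∩ e.z ⁻¹' closedBall o (7 / 2 * R) ∩ F.LimS j U ⊆ e.O from
    fun w hw => hw.1.1)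
  obtain ⟨η, hη, h1⟩ := hK.exists_forall_le' (a := 0)
    (f := fun w => dist (L (e.z w)) a + |dist (e.z w) o - r|) (by fun_prop)
    fun w hw => by
      refine lt_of_le_of_ne (by positivity) fun e' => ?_
      obtain ⟨a1, a2⟩ := (add_eq_zero_iff_of_nonneg dist_nonneg (abs_nonneg _)).1 e'.symm
      rw [dist_eq_zero] at a1
      rw [abs_eq_zero, sub_eq_zero, dist_eq_norm] at a2
      exact hr _ ⟨w, ⟨hw.1.1, closedBall_subset_ball (by linarith) hw.1.2, hw.2⟩, rfl⟩ a1 a2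
  obtain ⟨ρ, hρ, b1, b2⟩ : ∃ ρ : ℝ, 0 < ρ ∧ 3 * ρ < η ∧ ρ ≤ R / 2 :=
    ⟨min (η / 4) (R / 2), by positivity, by linarith [min_le_left (η / 4) (R / 2)],
      min_le_right _ _⟩
  refine ⟨ρ, r - ρ, r + ρ, hρ, by linarith, by linarith, by linarith,
    fun w a0 hw a1 a2 => by_contra fun a3 => ?_⟩
  have a5 : dist (L (e.z w)) a ≤ 2 * ρ := a1
  have a6 : dist (e.z w) o ≤ r + ρ := a2
  have a7 : r - ρ ≤ dist (e.z w) o := not_lt.1 a3
  have a4 := h1 w ⟨⟨a0, show dist (e.z w) o ≤ 7 / 2 * R by linarith⟩, hw⟩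
  have a8 : |dist (e.z w) o - r| ≤ ρ := abs_le.2 ⟨by linarith, by linarith⟩
  linarith

end Pool.Agent.ZB
end

-- part Pool.Agent.P.MP_63735c_ag.SLS
section

/-! The limit set in a box is a finite family of points with holomorphic traces. -/

open scoped ComplexOrder ContDiff Matrix Topology ENNReal
open Set Metric MeasureTheory Filter

namespace Pool.Agent.ZB

open Pool.Agent.BP Pool.Agent.SPF Pool.Agent.AB Pool.Agent.CK Pool.Agent.SE Pool.Agent.NL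

variable {N n : ℕ} {X Z : Type} [TopologicalSpace X] [TopologicalSpace Z] [T2Space X] [T2Space Z]
  [CompactSpace Z] [MeasurableSpace X] [BorelSpace X] {A : Atlas X N} {K : Form11 A} {F : Fib A n}
  {φ : X → ℝ} {j : X → Z} {μ : Measure X} [IsFiniteMeasure μ] {h : X → Mat n} {c₀ : ℝ}

theorem sl_fam (hj : Continuous j) (hi : Function.Injective j) (hN : 1 ≤ N)
    (hinj : ∀ i, InjOn (A.p i) (A.C i).W) (hμ : IsVolume A μ)
    (hK : ∀ i, ∀ z ∈ (A.C i).W, (K.h i z).PosDef) (hT : F.Tor μ K h c₀) (U : Ultrafilter X)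
    (hU : F.W ∈ U) (e : Sz A K F.W φ j n) (hs : Disjoint e.shell (F.LimS j U)) :
    ∃ (d : ℕ) (Y : E n → Fin d → Z), (∀ a ∈ ball e.a e.ρ, ∀ k,
      Y a k ∈ e.cbox ∧ Y a k ∈ F.LimS j U ∧ e.L (e.z (Y a k)) = a) ∧
      (∀ u : E e.M → ℂ, Differentiable ℂ u →
        DifferentiableOn ℂ (fun a => ∑ k, u (e.z (Y a k))) (ball e.a e.ρ)) ∧
      ∀ y ∈ e.core, y ∈ F.LimS j U → ∃ k, Y (e.L (e.z y)) k = y := by
  obtain ⟨c1, c2, c3, -, -, c6, c7, c8⟩ := e.cbox_cpt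
  have hρ := e.ρ_pos
  have hb : ball e.a e.ρ ⊆ ball e.a (2 * e.ρ) := ball_subset_ball (by linarith)
  set M := {x | x ∈ F.W ∧ ∀ y, F.r x y → y ∈ j ⁻¹' e.shellᶜ}
  have H : F.Ok e M := ⟨hN, hj, hi, hinj, Fib.sat_of_open (c3.isClosed.isOpen_compl.preimage hj),
    fun x hx => hx.2 x (F.eqv.refl x)⟩
  have hM : ∀ᶠ x in (U : Filter X), x ∈ M := (Fib.limS_trap U c3.isClosed.isOpen_compl
    hs.symm.subset_compl_right).mp (mem_of_superset hU fun x a b => ⟨a, b⟩)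
  obtain ⟨D, hD⟩ := sbd9_deg H hμ hT.fub_det (Fib.area1 hj hK hT.iso hT.h_eq e)
  obtain ⟨d, -, hd⟩ := Ultrafilter.eq_pure_of_finite_mem (f := U.map (F.degZ e M)) (finite_Iic D)
    (hM.mono hD)
  have h1 : ∀ᶠ x in (U : Filter X), x ∈ M ∧ F.degZ e M x = d :=
    hM.and (show {d} ∈ U.map (F.degZ e M) from hd ▸ Ultrafilter.mem_pure.2 rfl)
  have : Nonempty X := h1.exists.elim fun x _ => ⟨x⟩
  have h2 : ∀ x, x ∈ M ∧ F.degZ e M x = d → ∀ a ∈ ball e.a (2 * e.ρ), ∃ y : Fin d → X,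
      (∀ k, j (y k) ∈ e.box ∧ F.r x (y k) ∧ e.L (e.v (y k)) = a) ∧
      (∀ z, j z ∈ e.box → F.r x z → e.L (e.v z) = a → ∃ k, y k = z) ∧ ∀ u : E e.M → ℂ,
        Differentiable ℂ u → F.TrZ e M (fun x => u (e.v x)) x a = ∑ k, u (e.v (y k)) := by
    rintro x ⟨hx, rfl⟩ a ha
    obtain ⟨y, y1, y2, y3⟩ := H.fam hμ hx ha
    exact ⟨y, y1, y2, fun u hu => y3 _ (sbd9_hol hu inter_subset_right)⟩
  choose! w w1 w2 w3 using h2
  have : Nonempty Z := this.map j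
  choose! Y Y1 Y2 using fun a (ha : a ∈ ball e.a (2 * e.ρ)) k => c1.ultrafilter_le_nhds
    (U.map fun x => j (w x a k)) (le_principal_iff.2 (h1.mono fun x hx => c6 (w1 x hx a ha k).1))
  have Y3 : ∀ a ∈ ball e.a (2 * e.ρ), ∀ k, Tendsto (fun x => e.v (w x a k)) U (𝓝 (e.z (Y a k))) :=
    fun a ha k => (e.cont.continuousAt (e.opn.mem_nhds (c2 (Y1 a ha k)))).tendsto.comp (Y2 a ha k)
  have h3 : ∀ u : E e.M → ℂ, Differentiable ℂ u → ∃ B : ℝ, 0 < B ∧ ∀ x, x ∈ M ∧ F.degZ e M x = d →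
      DifferentiableOn ℂ (F.TrZ e M (fun x => u (e.v x)) x) (ball e.a (2 * e.ρ)) ∧
        ∀ a ∈ ball e.a (2 * e.ρ), ‖F.TrZ e M (fun x => u (e.v x)) x a‖ ≤ B := fun u hu => by
    obtain ⟨B, hB⟩ := c1.exists_bound_of_continuousOn
      (hu.continuous.comp_continuousOn (e.cont.mono c2))
    refine ⟨d * |B| + 1, by positivity, fun x hx =>
      ⟨H.hol_a hμ (sbd9_hol hu inter_subset_right) hx.1, fun a ha => ?_⟩⟩
    rw [w3 x hx a ha u hu]
    refine (norm_sum_le_of_le _ (n := fun _ => |B|) fun k _ =>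
      (hB _ (c6 (w1 x hx a ha k).1)).trans (le_abs_self _)).trans ?_
    simp
  refine ⟨d, Y, fun a ha k => ⟨Y1 a (hb ha) k, fun O hO => ?_, ?_⟩, fun u hu => ?_,
    fun y hy hL => by_contra fun hn => ?_⟩
  · filter_upwards [h1, Y2 a (hb ha) k hO] with x hx a1
    exact ⟨_, a1, (w1 x hx a (hb ha) k).2.1⟩
  · exact tendsto_nhds_unique ((e.L.continuous.tendsto _).comp (Y3 a (hb ha) k))
      (tendsto_const_nhds.congr' (h1.mono fun x hx => (w1 x hx a (hb ha) k).2.2.symm))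
  · obtain ⟨B, -, hB⟩ := h3 u hu
    obtain ⟨g, g1, g2⟩ := CL.hol_ulim U isOpen_ball (h1.mono hB)
    refine (g1.mono hb).congr fun a ha => tendsto_nhds_unique ?_ (g2 a (hb ha)).1
    exact (tendsto_finsetSum _ fun k _ => (hu.continuous.tendsto _).comp (Y3 a (hb ha) k)).congr'
      (h1.mono fun x hx => (w3 x hx a (hb ha) u hu).symm)
  push Not at hn
  have ha : e.L (e.z y) ∈ ball e.a e.ρ := hy.2.1
  set a := e.L (e.z y)
  obtain ⟨ε, hε, e1⟩ : ∃ ε : ℝ, 0 < ε ∧ ∀ k, 3 * ε < ‖e.z y - e.z (Y a k)‖ :=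
    (eventually_mem_nhdsWithin.and (eventually_all.2 fun k => nhdsWithin_le_nhds
      ((continuous_const_mul (3 : ℝ)).continuousAt.eventually_lt continuousAt_const (by
        simpa [sub_eq_zero] using fun e' =>
          hn k (e.inj hy.1 (c2 (Y1 a (hb ha) k)) e').symm)) : ∀ᶠ ε in 𝓝[>] (0 : ℝ), _)).exists
  obtain ⟨δ, hδ, h4⟩ := ps_close e.M d (‖e.o‖ + e.r₂) hε
  choose B B0 hB using fun α : Fin e.M → Fin (2 * d + 1) => h3 _ (mon_diff α)
  have hz := e.cont.continuousAt (e.opn.mem_nhds hy.1)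
  obtain ⟨x, ⟨hx, a1⟩, y', ⟨⟨a2, a3⟩, a4⟩, a5⟩ := ((h1.and (eventually_all.2 fun k =>
    (Y3 a (hb ha) k).eventually (ball_mem_nhds _ hε))).and (hL _ (inter_mem (inter_mem
      (c7.mem_nhds hy) (hz (ball_mem_nhds _ hε))) (eventually_all.2 fun α =>
        (e.L.continuous.continuousAt.comp hz) (closedBall_mem_nhds _
          (show 0 < δ * e.ρ / B α from div_pos (mul_pos hδ hρ) (B0 α))))))).exists
  have ha' : e.L (e.v y') ∈ ball e.a e.ρ := a2.2.1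
  obtain ⟨i, hi⟩ := w2 x hx _ (hb ha') y' (c8 a2) a5 rfl
  have h9 : ∀ u ∈ e.box, ‖e.z u‖ ≤ ‖e.o‖ + e.r₂ := fun u hu =>
    norm_le_norm_add_const_of_dist_le (mem_ball.1 hu.2.2).le
  obtain ⟨l, hl⟩ := h4 (fun k => e.v (w x (e.L (e.v y')) k)) (fun k => e.v (w x a k))
    (fun k => ⟨h9 _ (w1 x hx _ (hb ha') k).1, h9 _ (w1 x hx _ (hb ha) k).1⟩) (fun α => by
      rw [← w3 x hx _ (hb ha') _ (mon_diff α), ← w3 x hx _ (hb ha) _ (mon_diff α)]
      refine (CL.hol_lip (by linarith : e.ρ < 2 * e.ρ) (hB α x hx).1 (hB α x hx).2 ha' ha).trans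
        ((mul_le_mul_of_nonneg_left (mem_closedBall_iff_norm.1 (a4 α))
          (div_nonneg (B0 α).le (by linarith))).trans_eq ?_)
      have := B0 α
      rw [show 2 * e.ρ - e.ρ = e.ρ by ring]
      field_simp) i
  rw [hi] at hl
  have a6 := mem_ball_iff_norm.1 (a1 l)
  have a7 := mem_ball_iff_norm'.1 a3
  linarith [e1 l, norm_sub_le_norm_sub_add_norm_sub (e.z y) (e.v y') (e.z (Y a l)),
    norm_sub_le_norm_sub_add_norm_sub (e.v y') (e.v (w x a l)) (e.z (Y a l))]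

end Pool.Agent.ZB
end

-- part Pool.Agent.P.MP_63735c_ag.SLG
section

/-! The limit set has a holomorphic branch close to almost every fibre. -/

open scoped ComplexOrder ContDiff Matrix Topology ENNReal
open Set Metric MeasureTheory Filter

namespace Pool.Agent.ZB

open Pool.Agent.BP Pool.Agent.SPF Pool.Agent.AB Pool.Agent.CK Pool.Agent.SE Pool.Agent.NL

variable {N n : ℕ} {X Z : Type} [TopologicalSpace X] [TopologicalSpace Z] [T2Space X] [T2Space Z]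
  [CompactSpace Z] [MeasurableSpace X] [BorelSpace X] {A : Atlas X N} {K : Form11 A} {F : Fib A n}
  {φ : X → ℝ} {j : X → Z} {μ : Measure X} [IsFiniteMeasure μ] {h : X → Mat n} {c₀ : ℝ}

/-- Over a ball inside `D` the set `S` contains the graph of `q` as an open part. -/
def Brch {W : Set X} (e : Em A K W φ j) (L : E e.M →L[ℂ] E n) (S : Set Z) (D : Set (E n)) : Prop :=
  ∃ (a₁ : E n) (ρ : ℝ) (q : E n → E e.M), 0 < ρ ∧ ball a₁ ρ ⊆ D ∧
    DifferentiableOn ℂ q (ball a₁ ρ) ∧ ∀ a ∈ ball a₁ ρ, ∃ y ∈ e.O, y ∈ S ∧ e.z y = q a ∧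
      L (q a) = a ∧ ∀ᶠ y' in 𝓝 y, y' ∈ S → q (L (e.z y')) = e.z y'

theorem sl_loc (hj : Continuous j) (hi : Function.Injective j) (hN : 1 ≤ N)
    (hinj : ∀ i, InjOn (A.p i) (A.C i).W) (hμ : IsVolume A μ)
    (hK : ∀ i, ∀ z ∈ (A.C i).W, (K.h i z).PosDef) (hT : F.Tor μ K h c₀) (U : Ultrafilter X)
    (hU : F.W ∈ U) (e : Sz A K F.W φ j n) (hd : Disjoint e.shell (F.LimS j U)) {y : Z}
    (hy : y ∈ e.core) (h0 : y ∈ F.LimS j U) {D : Set (E n)} (hD : D ∈ 𝓝 (e.L (e.z y))) :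
    Brch e.toEm e.L (F.LimS j U) D := by
  obtain ⟨d, Y, h1, h2, h3⟩ := sl_fam hj hi hN hinj hμ hK hT U hU e hd
  obtain ⟨k₀, -⟩ := h3 y hy h0
  have hc := e.cbox_cpt.2.2.2.2.2.2.1
  obtain ⟨a₁, ε, ρ, q, b1, b2, b3, b4, b5⟩ := sl_branch (Y := fun a k => e.z (Y a k))
    (b := ‖e.o‖ + e.r₂) k₀.pos (isOpen_interior.inter isOpen_ball)
    ⟨_, mem_interior_iff_mem_nhds.2 hD, hy.2.1⟩
    (fun a ha k => norm_le_norm_add_const_of_dist_le (h1 a ha.2 k).1.2.2)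
    fun u hu => (h2 u hu).mono inter_subset_right
  refine ⟨a₁, ρ, q, b2, fun a ha => interior_subset (b3 ha).1, b4, fun a ha => ?_⟩
  obtain ⟨c1, ⟨k, c2⟩, -⟩ := b5 a ha
  obtain ⟨d1, d2, d3⟩ := h1 a (b3 ha).2 k
  have d4 : Y a k ∈ e.core := ⟨d1.1, (show e.L (e.z (Y a k)) ∈ _ from d3.symm ▸ (b3 ha).2),
    by_contra fun c => disjoint_left.1 hd ⟨d1.1, d1.2.1, d1.2.2, c⟩ d2⟩
  have d5 := e.cont.continuousAt (e.opn.mem_nhds d1.1)
  refine ⟨Y a k, d1.1, d2, c2, c2 ▸ d3, ?_⟩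
  filter_upwards [hc.mem_nhds d4, d5.eventually (isOpen_ball.mem_nhds (c2 ▸ c1)),
    (e.L.continuous.continuousAt.comp d5).eventually
      (isOpen_ball.mem_nhds (show e.L (e.z (Y a k)) ∈ _ from d3.symm ▸ ha))] with y' f1 f2 f3 f4
  obtain ⟨l, hl⟩ := h3 y' f1 f4
  exact ((b5 _ f3).2.2 l (hl.symm ▸ f2)).symm.trans (congrArg e.z hl)

theorem sl_gen (hj : Continuous j) (hi : Function.Injective j) (hN : N = 2 * n) (hn : 1 ≤ n)
    (hinj : ∀ i, InjOn (A.p i) (A.C i).W) (hμ : IsVolume A μ)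
    (hK : ∀ i, ∀ z ∈ (A.C i).W, (K.h i z).PosDef) (hT : F.Tor μ K h c₀) (U : Ultrafilter X)
    (hU : F.W ∈ U) (e : Em A K F.W φ j) (L : E e.M →L[ℂ] E n) {o : E e.M} {R : ℝ} (hR : 0 < R)
    (hc : IsCompact (e.O ∩ e.z ⁻¹' closedBall o (8 * R))) :
    ∀ᵐ a : E n, ∀ y ∈ e.O, y ∈ F.LimS j U → e.z y ∈ ball o R → L (e.z y) = a →
      ∀ D ∈ 𝓝 a, Brch e L (F.LimS j U) D := by
  filter_upwards [sl_sz (Fib.packS hj hinj hK hT e) U hU L hR hc] with a ha y hy h0 h1 h2 D hD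
  obtain ⟨ρ, r₁, r₂, b1, b2, b3, b4, b5⟩ := ha
  subst h2
  exact sl_loc hj hi (by omega) hinj hμ hK hT U hU
    ⟨e, finSumFinEquiv.trans (finCongr (by omega)), L, L (e.z y), o, ρ, r₁, r₂, b1, b3,
      sbd5_cpt e hc b4⟩
    (disjoint_left.2 fun w hw a => hw.2.2.2 (b5 w hw.1 a hw.2.1 hw.2.2.1))
    ⟨hy, mem_ball_self b1, ball_subset_ball b2 h1⟩ h0 hD

end Pool.Agent.ZB
end

-- part Pool.Agent.P.MP_63735c_ag.SLT
section

/-! Tangent planes and dimension of a limit set in a local embedding. -/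

open scoped ComplexOrder ContDiff Matrix Topology ENNReal
open Set Metric MeasureTheory Filter

namespace Pool.Agent.ZB

open Pool.Agent.BP Pool.Agent.SPF Pool.Agent.AB Pool.Agent.CK Pool.Agent.SE Pool.Agent.NL

variable {N n d : ℕ} {X Z : Type} [TopologicalSpace X] [TopologicalSpace Z] [T2Space Z]
  [CompactSpace Z] [MeasurableSpace X] {A : Atlas X N} {K : Form11 A} {F : Fib A n} {φ : X → ℝ}
  {j : X → Z} {μ : Measure X} {h : X → Mat n} {c₀ : ℝ}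

/-- A class has a point where it is almost tangent to the limit set. -/
theorem tanS (hj : Continuous j) (hinj : ∀ i, InjOn (A.p i) (A.C i).W) (hT : F.Tor μ K h c₀)
    (U : Ultrafilter X) (hU : F.W ∈ U) (e : Em A K F.W φ j) {y₀ : Z} (hy : y₀ ∈ e.O)
    (h0 : y₀ ∈ F.LimS j U) (π : E e.M →L[ℂ] E d) {ξ : E d → E e.M}
    (h2 : ∀ᶠ s in 𝓝 (π (e.z y₀)), DifferentiableAt ℂ ξ s)
    (h4 : ∀ᶠ y in 𝓝 y₀, y ∈ F.LimS j U → ξ (π (e.z y)) = e.z y) {κ : ℝ} (hκ : 0 < κ) :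
    ∃ᶠ y in 𝓝 y₀, ∃ x ∈ F.W, j x = y ∧ ∀ i, ∀ w ∈ (A.C i).W, A.p i w = x → ∀ τ,
      nsq (fderiv ℂ (fun w => e.v (A.p i w)) w (Vf A F.g i w *ᵥ τ) - fderiv ℂ ξ (π (e.z y))
        (π (fderiv ℂ (fun w => e.v (A.p i w)) w (Vf A F.g i w *ᵥ τ)))) ≤
        κ * nsq (π (fderiv ℂ (fun w => e.v (A.p i w)) w (Vf A F.g i w *ᵥ τ))) := by
  refine frequently_iff.2 fun {S} hS => ?_
  have hz : ∀ y ∈ e.O, ContinuousAt e.z y := fun y a => e.cont.continuousAt (e.opn.mem_nhds a)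
  have h3 := h4.self_of_nhds h0
  obtain ⟨Q, hQ, q1, hb⟩ := local_compact_nhds (inter_mem (inter_mem hS (e.opn.mem_nhds hy))
    (inter_mem h4 ((π.continuous.continuousAt.comp (hz _ hy)).eventually h2.eventually_nhds)))
  replace hQ : y₀ ∈ interior Q := mem_interior_iff_mem_nhds.2 hQ
  have hd : ∀ y ∈ Q, ∀ᶠ s in 𝓝 (π (e.z y)), DifferentiableAt ℂ ξ s := fun y a => (q1 a).2.2
  have hO : Q ⊆ e.O := fun y a => (q1 a).1.2
  let u : Z → ℝ := fun y => nsq (e.z y - ξ (π (e.z y))) + -κ * nsq (π (e.z y) - π (e.z y₀))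
  have hu : ContinuousOn u Q := fun y a => by
    have a1 := hz y (hO a)
    have a2 : ContinuousAt (fun y => π (e.z y)) y := π.continuous.continuousAt.comp a1
    exact ((nsq_smooth.continuous.continuousAt.comp (a1.sub
      ((hd y a).self_of_nhds.continuousAt.comp (f := fun y => π (e.z y)) a2))).add
        (continuousAt_const.mul (nsq_smooth.continuous.continuousAt.comp
          (a2.sub continuousAt_const)))).continuousWithinAt
  have hs := hb.diff (isOpen_interior (s := Q))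
  have n0 : ∀ M, nsq (0 : E M) = 0 := fun M => by simp [nsq]
  obtain ⟨m, hm, hm'⟩ := (hs.inter_right (Fib.limS_closed (F := F) (j := j) U)).exists_forall_le'
    (f := fun y => -u y) (a := 0) (hu.mono fun y a => a.1.1).neg fun y a => by
      have e1 : ξ (π (e.z y)) = e.z y := (q1 a.1.1).2.1 a.2
      have a1 : π (e.z y) - π (e.z y₀) ≠ 0 := fun e' => a.1.2
        (e.inj hy (hO a.1.1) (by rw [← e1, sub_eq_zero.1 e', h3]) ▸ hQ)
      have a2 := (nsq_le (π (e.z y) - π (e.z y₀))).1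
      have a3 := norm_pos_iff.2 a1
      simp only [u, e1, sub_self, n0]
      nlinarith [mul_pos hκ (pow_pos a3 2)]
  have k2 := Fib.limS_trap (F := F) (j := j) U ((hu.mono sdiff_subset).preimage_isClosed_of_isClosed
    hs.isClosed (isClosed_Ici (a := -(m / 2)))).isOpen_compl fun y a b => by
      have a1 := hm' y ⟨b.1, a⟩
      have a2 : -(m / 2) ≤ u y := b.2
      linarith
  have k4 := h0 _ (((hu.mono interior_subset).isOpen_inter_preimage isOpen_interior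
    (isOpen_Ioi (a := -(m / 2)))).mem_nhds ⟨hQ, by
      simp only [mem_preimage, mem_Ioi, u, h3, sub_self, n0]
      linarith⟩)
  obtain ⟨x, ⟨hx, b1⟩, x', hx', b2⟩ := ((show ∀ᶠ x in (U : Filter X), x ∈ F.W
    from hU).and k2 |>.and k4).exists
  have b3 : j x' ∈ Q := interior_subset hx'.1
  obtain ⟨k, hk⟩ := F.cov x hx
  have c1 : IsCompact {y | F.r x y} := by
    have := F.prop k {F.g x} isCompact_singleton (singleton_subset_iff.2 (F.maps k hk))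
    exact (congrArg IsCompact (Set.ext fun y => (F.rel k x hk y).symm)).mp this
  obtain ⟨y, hy', hmax⟩ := (c1.inter_right (hb.isClosed.preimage hj)).exists_isMaxOn
    ⟨x', b2, b3⟩ (hu.comp hj.continuousOn fun _ a => a.2)
  have c2 : j y ∈ interior Q := by_contra fun a => b1 _ hy'.1 ⟨⟨hy'.2, a⟩,
    (show -(m / 2) < u (j x') from hx'.2).le.trans (hmax ⟨b2, b3⟩)⟩
  refine ⟨_, (q1 hy'.2).1.1, y, (Fib.r_mem hx hy'.1).1, rfl, fun i w hw ew τ => ?_⟩
  obtain ⟨Ψ, κ', -, hr', hl, -⟩ := hT.tor x hx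
  obtain ⟨hΨ, q, hq1, hq2⟩ := bpdp_lift hinj (fun τ => (Fib.r_mem hx ((hr' _).2 ⟨τ, rfl⟩)).1) hl i
  obtain ⟨τ₁, e1⟩ := (hr' _).1 hy'.1
  have d1 : τ₁ ∈ Ψ ⁻¹' (A.p i '' (A.C i).W) := ⟨w, hw, ew.trans e1.symm⟩
  have d2 : q τ₁ = w := hinj i (hq2 τ₁ d1).1 hw ((hq2 τ₁ d1).2.1.trans (e1.trans ew.symm))
  subst d2 ew
  have d5 : ∀ᶠ t in 𝓝 τ₁, j (Ψ t) ∈ interior Q :=
    (hj.comp hΨ).continuousAt (isOpen_interior.mem_nhds (show j (Ψ τ₁) ∈ _ from e1 ▸ c2))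
  have d6 : ∀ᶠ t in 𝓝 τ₁, F.r x (A.p i (q t)) ∧ j (A.p i (q t)) ∈ Q ∧ HasFDerivAt
      (fun t => e.v (A.p i (q t))) ((fderiv ℂ (fun w => e.v (A.p i w)) (q t)).comp
        (fderiv ℂ q t)) t := by
    filter_upwards [d5, hq1.opn.mem_nhds d1, hq1.hol τ₁ d1] with t a1 a2 a3
    have a4 : j (A.p i (q t)) ∈ Q := (hq2 t a2).2.1 ▸ interior_subset a1
    exact ⟨(hr' _).2 ⟨t, (hq2 t a2).2.1.symm⟩, a4, ((e.hol i).differentiableAt ((dom_open A
      (e.opn.preimage hj) i).mem_nhds ⟨(hq2 t a2).1, hO a4⟩)).hasFDerivAt.comp t a3.hasFDerivAt⟩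
  set v : E n → E e.M := fun t => e.v (A.p i (q t))
  have f1 := lev_nsq (F := fun t => v t - ξ (π (v t))) (z := τ₁) (d6.mono fun t a =>
    a.2.2.differentiableAt.sub ((hd _ a.2.1).self_of_nhds.comp t
      (π.differentiableAt.comp t a.2.2.differentiableAt)))
  have f2 := lev_nsq (F := fun t => π (v t) - π (e.z y₀)) (z := τ₁)
    (d6.mono fun t a => (π.differentiableAt.comp t a.2.2.differentiableAt).sub_const _)
  have f3 : IsLocalMax (fun t => u (j (A.p i (q t)))) τ₁ := d6.mono fun t a => hmax ⟨a.1, a.2.1⟩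
  have f4 := lev_max (f1.1.add (contDiffAt_const.mul f2.1)) f3 τ
  have d4 := d6.self_of_nhds.2.2
  have g1 := π.hasFDerivAt.comp τ₁ d4
  have g2 : HasFDerivAt (fun t => v t - ξ (π (v t))) _ τ₁ :=
    d4.sub ((hd _ hy'.2).self_of_nhds.hasFDerivAt.comp τ₁ g1)
  have g3 : HasFDerivAt (fun t => π (v t) - π (e.z y₀)) _ τ₁ := g1.sub_const _
  have f5 := f1.2.2.2 τ
  have f6 := f2.2.2.2 τ
  rw [g2.fderiv] at f5
  rw [g3.fderiv] at f6
  rw [BP.hr, lev_add f1.1 (contDiffAt_const.mul f2.1), lev_smul f2.1, hq_add, hq_smul,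
    Complex.add_re, Complex.re_ofReal_mul] at f4
  simp only [BP.hr, _root_.sub_apply, ContinuousLinearMap.comp_apply] at f5 f6
  rw [f5, f6, ← bpt2_jac q, (hq2 τ₁ d1).2.2] at f4
  linarith

/-- The same embedding on a smaller set. -/
def slt_res {W : Set X} (e : Em A K W φ j) {O : Set Z} (hO : IsOpen O) (h3 : O ⊆ e.O) :
    Em A K W φ j :=
  { e with
    O := O
    opn := hO
    cont := e.cont.mono h3
    inj := e.inj.mono h3
    hol := fun i => (e.hol i).mono fun _ hw => ⟨hw.1, h3 hw.2⟩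
    imm := fun i w hw => e.imm i w ⟨hw.1, h3 hw.2⟩
    low := fun i w hw => e.low i w ⟨hw.1, h3 hw.2⟩
    s_hol := fun i => (e.s_hol i).mono fun _ hw => ⟨hw.1, hw.2.1, h3 hw.2.2⟩
    s_bd := fun w hw => e.s_bd w ⟨hw.1, h3 hw.2⟩ }

omit [MeasurableSpace X] in
theorem slt_shrink {M : ℕ} {z : Z → E M} {O : Set Z} (hO : IsOpen O) (hc : ContinuousOn z O)
    (hi : InjOn z O) {y : Z} (hy : y ∈ O) : ∃ (O' : Set Z) (r : ℝ), IsOpen O' ∧ y ∈ O' ∧ O' ⊆ O ∧
      0 < r ∧ IsCompact (O' ∩ z ⁻¹' closedBall (z y) (2 * r)) := by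
  obtain ⟨Q, hQ, h1, h2⟩ := exists_compact_subset hO hy
  have h4 : IsClosed (z '' (Q \ interior Q)) := ((hQ.diff isOpen_interior).image_of_continuousOn
    (hc.mono (sdiff_subset.trans h2))).isClosed
  obtain ⟨r, hr, h5⟩ := nhds_basis_closedBall.mem_iff.1 (h4.isOpen_compl.mem_nhds
    (show z y ∉ _ from fun ⟨w, hw, e'⟩ => hw.2 (hi (h2 hw.1) hy e' ▸ h1)))
  refine ⟨interior Q, r / 2, isOpen_interior, h1, interior_subset.trans h2, by positivity, ?_⟩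
  have h6 : interior Q ∩ z ⁻¹' closedBall (z y) (2 * (r / 2)) = Q ∩ z ⁻¹' closedBall (z y) r := by
    rw [mul_div_cancel₀ _ two_ne_zero]
    exact Subset.antisymm (inter_subset_inter_left _ interior_subset) fun w hw =>
      ⟨by_contra fun hn => h5 hw.2 ⟨w, ⟨hw.1, hn⟩, rfl⟩, hw.2⟩
  exact h6 ▸ hQ.of_isClosed_subset ((hc.mono h2).preimage_isClosed_of_isClosed hQ.isClosed
    isClosed_closedBall) inter_subset_left

omit [MeasurableSpace X] in
theorem slt_le (hP : ∀ e : Em A K F.W φ j, F.PackS e) (U : Ultrafilter X)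
    (hU : F.W ∈ U) (e : Em A K F.W φ j) {y₀ : Z} (hy : y₀ ∈ e.O) {γ : E d → E e.M} {t : E d}
    (h2 : ∀ᶠ u in 𝓝 t, DifferentiableAt ℂ γ u) (h3 : Function.Injective (fderiv ℂ γ t))
    (h4 : ∀ O ∈ 𝓝 y₀, ∀ᶠ u in 𝓝 t, γ u ∈ e.z '' (O ∩ F.LimS j U)) : d ≤ n := by
  by_contra hd
  push Not at hd
  obtain ⟨c, hc, s, hs, hA⟩ := fb8_anti h2 h3
  obtain ⟨O, r₀, o1, o2, o3, h0, o4⟩ := slt_shrink e.opn e.cont e.inj hy
  obtain ⟨B, hB⟩ := sbd5_pack (hP (slt_res e o1 o3)) U hU h0 o4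
  obtain ⟨r, hr, hrs⟩ := nhds_basis_closedBall.mem_iff.1 (inter_mem hs (h4 _ (inter_mem
    (o1.mem_nhds o2) (e.cont.continuousAt (e.opn.mem_nhds hy) (ball_mem_nhds _ h0)))))
  have hp : 0 < (c * r / 8) ^ (2 * n) := by positivity
  obtain ⟨K, hK⟩ := exists_nat_gt (max (max 1 (c * r / 4 / r₀)) (B / (c * r / 8) ^ (2 * n)))
  have k1 : (1 : ℝ) < K := ((le_max_left _ _).trans (le_max_left _ _)).trans_lt hK
  have k2 : c * r / 4 / r₀ < K := ((le_max_right _ _).trans (le_max_left _ _)).trans_lt hK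
  have k3 : B / (c * r / 8) ^ (2 * n) < K := (le_max_right _ _).trans_lt hK
  have k0 : (0 : ℝ) < K := by linarith
  have hm (a : Fin d → Fin K × Fin K) : t + (r / (2 * K) : ℝ) • fb8G a ∈ closedBall t r := by
    rw [mem_closedBall, dist_eq_norm, add_sub_cancel_left, norm_smul,
      Real.norm_of_nonneg (by positivity), div_mul_eq_mul_div, div_le_iff₀ (by positivity)]
    exact mul_le_mul_of_nonneg_left (fb8_le a) hr.le
  choose w w1 w2 using fun a => (hrs (hm a)).2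
  have h6 := hB (c * r / 4 / K) (by positivity)
    (by rw [div_le_iff₀ k0, mul_comm r₀]; exact ((div_lt_iff₀ h0).1 k2).le)
    (Finset.univ : Finset (Fin d → Fin K × Fin K)) w
    (fun a _ => ⟨(w1 a).1.1, (w1 a).1.2, (w1 a).2⟩) fun a _ b _ hab => by
      refine lt_of_lt_of_le ?_ ((hA _ (hrs (hm a)).1 _ (hrs (hm b)).1).trans_eq
        (((dist_eq_norm _ _).symm).trans (congrArg₂ dist (w2 a).symm (w2 b).symm)))
      rw [add_sub_add_left_eq_sub, ← smul_sub, norm_smul, Real.norm_of_nonneg (by positivity)]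
      have e1 : 0 < c * r / 4 / K := by positivity
      have e2 : c * (r / (2 * K)) = 2 * (c * r / 4 / K) := by field_simp; ring
      rw [← mul_assoc, e2]
      nlinarith [fb8_ge hab]
  obtain ⟨l, rfl⟩ := Nat.exists_eq_add_of_lt hd
  simp only [Finset.card_univ, Fintype.card_pi, Fintype.card_prod, Fintype.card_fin,
    Finset.prod_const, Nat.cast_pow, Nat.cast_mul] at h6
  have e3 : ((K : ℝ) * K) ^ (n + l + 1) * (c * r / 4 / K / 2) ^ (2 * n) =
      (K * K) ^ l * K * (K * (c * r / 8) ^ (2 * n)) := by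
    have : (K : ℝ) * (c * r / 4 / K / 2) = c * r / 8 := by field_simp; ring
    rw [← this, mul_pow (K : ℝ) _ (2 * n), pow_mul (K : ℝ), pow_two]
    ring
  have e4 : (1 : ℝ) ≤ (K * K) ^ l * K :=
    one_le_mul_of_one_le_of_one_le (one_le_pow₀ (by nlinarith)) k1.le
  rw [div_lt_iff₀ hp] at k3
  rw [e3] at h6
  nlinarith [mul_pos k0 hp]

omit [T2Space Z] [CompactSpace Z] [MeasurableSpace X] in
/-- An almost tangent class projects injectively. -/
theorem slt_inj (e : Em A K F.W φ j) {π : E e.M →L[ℂ] E d} {D : E d →L[ℂ] E e.M} {i : A.ι}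
    {w : E N} (h1 : w ∈ dom A F.W i) (h2 : j (A.p i w) ∈ e.O) {κ : ℝ} (h3 : ∀ τ,
      nsq (fderiv ℂ (fun w => e.v (A.p i w)) w (Vf A F.g i w *ᵥ τ) -
        D (π (fderiv ℂ (fun w => e.v (A.p i w)) w (Vf A F.g i w *ᵥ τ)))) ≤
        κ * nsq (π (fderiv ℂ (fun w => e.v (A.p i w)) w (Vf A F.g i w *ᵥ τ)))) :
    Function.Injective ((π : E e.M →ₗ[ℂ] E d) ∘ₗ
      (fderiv ℂ (fun w => e.v (A.p i w)) w : E N →ₗ[ℂ] E e.M) ∘ₗ (Vf A F.g i w).mulVecLin) :=
  (injective_iff_map_eq_zero _).2 fun τ a => by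
    have c1 := h3 τ
    have c2 : π (fderiv ℂ (fun w => e.v (A.p i w)) w (Vf A F.g i w *ᵥ τ)) = 0 := a
    have c3 : nsq (0 : E d) = 0 := by simp [nsq]
    rw [c2, map_zero, sub_zero, c3, mul_zero] at c1
    exact bpdp_inj h1 (e.imm i w ⟨h1.1, h2⟩ ((norm_eq_zero.1 (pow_eq_zero_iff two_ne_zero |>.1
      (le_antisymm ((nsq_le _).1.trans c1) (sq_nonneg _)))).trans (map_zero _).symm))

theorem lim_dimS (hj : Continuous j) (hinj : ∀ i, InjOn (A.p i) (A.C i).W)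
    (hK : ∀ i, ∀ z ∈ (A.C i).W, (K.h i z).PosDef) (hT : F.Tor μ K h c₀) (U : Ultrafilter X)
    (hU : F.W ∈ U) (e : Em A K F.W φ j) {y₀ : Z} (hy : y₀ ∈ e.O) (h0 : y₀ ∈ F.LimS j U)
    {γ : E d → E e.M} {t : E d} (h2 : ∀ᶠ u in 𝓝 t, DifferentiableAt ℂ γ u)
    (h3 : Function.Injective (fderiv ℂ γ t))
    (h4 : map γ (𝓝 t) = map e.z (𝓝[F.LimS j U] y₀)) : d = n := by
  refine le_antisymm (slt_le (Fib.packS hj hinj hK hT) U hU e hy h2 h3 fun O hO =>
    show _ ∈ map γ (𝓝 t) from h4 ▸ image_mem_map (inter_comm O _ ▸ inter_mem_nhdsWithin _ hO)) ?_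
  obtain ⟨π, ξ, b1, -, -, b4⟩ := fb9_str h2 h3
  have a1 : γ t = e.z y₀ := tendsto_nhds_unique (f := id) (l := pure (e.z y₀))
    ((map_mono (pure_le_nhdsWithin h0)).trans (h4.ge.trans h2.self_of_nhds.continuousAt))
    (pure_le_nhds _)
  obtain ⟨y, ⟨x, hx, rfl, c1⟩, c2⟩ := ((tanS hj hinj hT U hU e hy h0 π (a1 ▸ b1)
    (eventually_nhdsWithin_iff.1 (show ∀ᶠ z in map e.z (𝓝[F.LimS j U] y₀), ξ (π z) = z from
      h4 ▸ b4)) one_pos).and_eventually (e.opn.mem_nhds hy)).exists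
  obtain ⟨i, w, hw, rfl⟩ := A.cover x
  simpa using LinearMap.finrank_le_finrank_of_injective (slt_inj e ⟨hw, hx⟩ c2 (c1 i w hw rfl))

end Pool.Agent.ZB
end

-- part Pool.Agent.P.MP_63735c_ag.SLI
section

/-! A branch of the limit set in the resolution is isotropic. -/

open scoped ComplexOrder ContDiff Matrix Topology ENNReal
open Set Metric MeasureTheory Filter

namespace Pool.Agent.ZB

open Pool.Agent.BP Pool.Agent.SPF Pool.Agent.AB Pool.Agent.CK Pool.Agent.SE Pool.Agent.NL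

variable {N n : ℕ} {X : Type} [TopologicalSpace X] [MeasurableSpace X] {A : Atlas X N} {L : Line A}
  {Y : Type} [TopologicalSpace Y] [T2Space Y] [CompactSpace Y] {Z : Res L Y} {K : Form11 A}
  {F : Fib A n} {φ : X → ℝ} {μ : Measure X} {h : X → Mat n} {c₀ : ℝ}

theorem sl_iso (hF : Full Z) (hinj : ∀ i, InjOn (A.p i) (A.C i).W) (hT : F.Tor μ K h c₀)
    (U : Ultrafilter X) (hU : F.W ∈ U) (e : Em A K F.W φ Z.j) {i : A.ι} (pr : E e.M →L[ℂ] E N)
    (hp : ∀ y ∈ e.O, pr (e.z y) ∈ Z.W (Z.c i) ∧ Z.p (Z.c i) (pr (e.z y)) = y)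
    {s : E N → Matrix (Fin N) (Fin N) ℂ} (hs : ContinuousOn s (Z.W (Z.c i)))
    (he : EqOn s (A.C i).σ (A.C i).W) {y₀ : Y} (hy : y₀ ∈ e.O) (h0 : y₀ ∈ F.LimS Z.j U)
    (π : E e.M →L[ℂ] E n) {q : E n → E e.M}
    (h2 : ∀ᶠ a in 𝓝 (π (e.z y₀)), DifferentiableAt ℂ q a)
    (h4 : ∀ᶠ y in 𝓝 y₀, y ∈ F.LimS Z.j U → q (π (e.z y)) = e.z y) (a b : E n) :
    pr (fderiv ℂ q (π (e.z y₀)) a) ⬝ᵥ s (pr (e.z y₀)) *ᵥ pr (fderiv ℂ q (π (e.z y₀)) b) = 0 := by
  by_contra hc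
  let B : E e.M × E e.M × E e.M → ℂ := fun w => pr (fderiv ℂ q (π w.1) a + w.2.1) ⬝ᵥ
    s (pr w.1) *ᵥ pr (fderiv ℂ q (π w.1) b + w.2.2)
  have c1 : ContinuousAt (fun w : E e.M × E e.M × E e.M => fderiv ℂ q (π w.1)) (e.z y₀, 0, 0) :=
    ContinuousAt.comp (g := fderiv ℂ q) ((fb9_cd h2).continuousAt_fderiv one_ne_zero)
      (π.continuous.comp continuous_fst).continuousAt
  have c2 : ContinuousAt (fun w : E e.M × E e.M × E e.M => s (pr w.1)) (e.z y₀, 0, 0) :=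
    ContinuousAt.comp (g := s) (hs.continuousAt ((Z.isOpen _).mem_nhds (hp _ hy).1))
      (pr.continuous.comp continuous_fst).continuousAt
  have c3 : ContinuousAt B (e.z y₀, 0, 0) := by
    have e1 : ∀ (v : E n) (f : E e.M × E e.M × E e.M → E e.M), Continuous f → ∀ x, ContinuousAt
        (fun w : E e.M × E e.M × E e.M => pr (fderiv ℂ q (π w.1) v + f w) x) (e.z y₀, 0, 0) :=
      fun v f hf x => (continuous_apply x).continuousAt.comp (pr.continuous.continuousAt.comp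
        ((c1.clm_apply continuousAt_const).add hf.continuousAt))
    have e2 : ∀ x, ContinuousAt (fun w : E e.M × E e.M × E e.M =>
        ∑ y, s (pr w.1) x y * pr (fderiv ℂ q (π w.1) b + w.2.2) y) (e.z y₀, 0, 0) := fun x =>
      tendsto_finsetSum _ fun y _ => (continuousAt_pi.1 (continuousAt_pi.1 c2 x) y).mul
        (e1 b (fun w => w.2.2) (by fun_prop) y)
    exact tendsto_finsetSum _ fun x _ => (e1 a (fun w => w.2.1) (by fun_prop) x).mul (e2 x)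
  have c4 : ∀ᶠ w in 𝓝 ((e.z y₀, 0, 0) : E e.M × E e.M × E e.M), B w ≠ 0 :=
    c3.eventually_ne (by simpa only [B, add_zero] using hc)
  obtain ⟨ε, hε, c5⟩ := Metric.eventually_nhds_iff.1 c4
  have n1 := (sq_nonneg _).trans (nsq_le a).1
  have n2 := (sq_nonneg _).trans (nsq_le b).1
  obtain ⟨κ, hκ, k1⟩ : ∃ κ : ℝ, 0 < κ ∧ κ * (nsq a + nsq b + 1) = ε ^ 2 :=
    ⟨ε ^ 2 / (nsq a + nsq b + 1), by positivity, div_mul_cancel₀ _ (by positivity)⟩
  obtain ⟨y, ⟨x, hx, rfl, hz⟩, f1, f2⟩ := ((tanS Z.j_cont hinj hT U hU e hy h0 π h2 h4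
    hκ).and_eventually ((show ∀ᶠ y in 𝓝 y₀, y ∈ e.O from e.opn.mem_nhds hy).and
      ((e.cont.continuousAt (e.opn.mem_nhds hy)).eventually (ball_mem_nhds _ hε)))).exists
  obtain ⟨g1, g2⟩ := hF.mem (hp _ f1).1 (hp _ f1).2
  generalize hw : pr (e.z (Z.j x)) = w at g1 g2
  subst g2
  replace hz := hz i w g1 rfl
  have g3 : w ∈ dom A (Z.j ⁻¹' e.O) i := ⟨g1, f1⟩
  have g4 := (dom_open A (e.opn.preimage Z.j_cont) i).mem_nhds g3
  have g5 := (pr.hasFDerivAt.comp w ((e.hol i).differentiableAt g4).hasFDerivAt).unique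
    ((hasFDerivAt_id w).congr_of_eventuallyEq (mem_of_superset g4 fun v hv =>
      Z.inj _ (hp _ hv.2).1 (Z.sub i hv.1) ((hp _ hv.2).2.trans (Z.p_eq i v hv.1).symm)))
  have g6 : ∀ v, pr (fderiv ℂ (fun w => e.v (A.p i w)) w v) = v := fun v =>
    congrArg (fun T : E N →L[ℂ] E N => T v) g5
  have d1 := LinearMap.injective_iff_surjective.1 (slt_inj e ⟨g1, hx⟩ f1 hz)
  obtain ⟨τ, e1⟩ := d1 a
  obtain ⟨τ', e2⟩ := d1 b
  have d2 := hz τ
  have d3 := hz τ'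
  rw [show π (fderiv ℂ (fun w => e.v (A.p i w)) w (Vf A F.g i w *ᵥ τ)) = a from e1] at d2
  rw [show π (fderiv ℂ (fun w => e.v (A.p i w)) w (Vf A F.g i w *ᵥ τ')) = b from e2] at d3
  have d4 : ∀ v : E e.M, nsq v < ε ^ 2 → dist v 0 < ε := fun v hv => by
    rw [dist_zero_right]
    exact lt_of_pow_lt_pow_left₀ 2 hε.le ((nsq_le v).1.trans_lt hv)
  refine c5 (y := (_, _, _)) (max_lt f2 (max_lt (d4 _ (d2.trans_lt (by nlinarith)))
    (d4 _ (d3.trans_lt (by nlinarith))))) ?_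
  have d5 : (A.C i).σ w * Vf A F.g i w = (Jg A F.g i w)ᵀ :=
    Matrix.mul_nonsing_inv_cancel_left _ _ ((A.C i).σ_det w g1).isUnit
  simp only [B, add_sub_cancel, g6]
  rw [hw, he g1, Matrix.mulVec_mulVec, d5, dotProduct_comm, Matrix.mulVec_transpose,
    ← Matrix.dotProduct_mulVec, Matrix.mulVec_mulVec, hT.iso i w ⟨g1, hx⟩, Matrix.zero_mulVec,
    dotProduct_zero]

end Pool.Agent.ZB
end

-- part Pool.Agent.P.MP_63735c_ag.SLZ
section

/-! The limit sets in a singular space are Lagrangian. -/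

open scoped ComplexOrder ContDiff Matrix Topology ENNReal
open Set Metric MeasureTheory Filter

namespace Pool.Agent.ZB

open Pool.Agent.BP Pool.Agent.SPF Pool.Agent.AB Pool.Agent.CK Pool.Agent.SE Pool.Agent.NL

/-- A projection that is a local isomorphism on a submanifold. -/
theorem slz_str {M d : ℕ} {γ : E d → E M} {t : E d} (h2 : ∀ᶠ u in 𝓝 t, DifferentiableAt ℂ γ u)
    (h3 : Function.Injective (fderiv ℂ γ t)) : ∃ (π : E M →L[ℂ] E d) (g : E d → E d),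
      map (fun u => π (γ u)) (𝓝 t) = 𝓝 (π (γ t)) ∧ ∀ᶠ u in 𝓝 t, g (π (γ u)) = u := by
  obtain ⟨l, hl⟩ := LinearMap.exists_leftInverse_of_injective
    (fderiv ℂ γ t : E d →ₗ[ℂ] E M) (LinearMap.ker_eq_bot.2 h3)
  let π : E M →L[ℂ] E d := LinearMap.toContinuousLinearMap l
  have a1 : ContDiffAt ℂ 1 (fun u => π (γ u)) t := π.contDiff.contDiffAt.comp t (fb9_cd h2)
  have a2 : HasFDerivAt (fun u => π (γ u))
      ((ContinuousLinearEquiv.refl ℂ (E d) : E d ≃L[ℂ] E d) : E d →L[ℂ] E d) t :=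
    (π.hasFDerivAt.comp t h2.self_of_nhds.hasFDerivAt).congr_fderiv
      (ContinuousLinearMap.ext fun v => LinearMap.congr_fun hl v)
  have a3 := a1.hasStrictFDerivAt' a2 one_ne_zero
  exact ⟨π, _, a3.map_nhds_eq_of_equiv, a3.eventually_left_inverse⟩

theorem slz_mat {N d : ℕ} {δ : E d → E N} {v : E d} {s : Matrix (Fin N) (Fin N) ℂ}
    (h : ∀ a b, fderiv ℂ δ v a ⬝ᵥ s *ᵥ fderiv ℂ δ v b = 0) : (jac δ v)ᵀ * s * jac δ v = 0 := by
  ext a b
  have := h (Pi.single a 1) (Pi.single b 1)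
  rw [← bpt2_jac, ← bpt2_jac, Matrix.mulVec_mulVec, ← Matrix.vecMul_transpose,
    ← Matrix.dotProduct_mulVec, Matrix.mulVec_mulVec, ← Matrix.mul_assoc] at this
  simpa using this

variable {N n : ℕ} {Y : Type} [TopologicalSpace Y] [T2Space Y] [CompactSpace Y]

/-- A local embedding of `Y` with a compact ball and two projections. -/
theorem slz_em {X : Type} [TopologicalSpace X] {A : Atlas X N} {L : Line A} {Z : Res L Y}
    (h : Full Z) (W : Set X) {f : Y → E n} {V : Set Y} (hV : IsOpen V) (hc : ContinuousOn f V)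
    (hf : HolR Z V f) {y : Y} (hy : y ∈ V) :
    ∃ (e : Em A (resK Z) W 0 Z.j) (i : A.ι) (L' : E e.M →L[ℂ] E n) (pr : E e.M →L[ℂ] E N) (r : ℝ),
      0 < r ∧ y ∈ e.O ∧ e.O ⊆ V ∧ IsCompact (e.O ∩ e.z ⁻¹' closedBall (e.z y) (8 * r)) ∧
      (∀ y' ∈ e.O, L' (e.z y') = f y') ∧
      ∀ y' ∈ e.O, pr (e.z y') ∈ Z.W (Z.c i) ∧ Z.p (Z.c i) (pr (e.z y')) = y' := by
  obtain ⟨i, w, hw, rfl⟩ := h.cover y
  obtain ⟨O, ζ, a1, a2, a3, -, a5⟩ := emY h hV hc hf hw hy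
  obtain ⟨O', r, b1, b2, b3, b4, b5⟩ := slt_shrink a5.opn a5.cont a5.inj a1
  refine ⟨(a5.mono b1 b3).em W, i, pr2 N n, pr1 N n, r / 4, by positivity, b2, b3.trans a2,
    (show 2 * r = 8 * (r / 4) by ring) ▸ b5, fun y' _ => pr2_ap _ _, fun y' hy' => ?_⟩
  exact (show ζ y' = pr1 N n (ap (ζ y') (f y')) from (pr1_ap _ _).symm) ▸ a3 y' (b3 hy')

variable {X : Type} [TopologicalSpace X] [T2Space X] [CompactSpace X] {R : Set X}
  [MeasurableSpace R] [BorelSpace R] {A : Atlas R N} {B : Amb R A} {L : Line A} {μ : Measure R}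
  [IsFiniteMeasure μ] {Z : Res L Y}

theorem lim_lagS (P : Over B Z) (hN : N = 2 * n) (hn : 1 ≤ n)
    (hinj : ∀ i, InjOn (A.p i) (A.C i).W) (hμ : IsVolume A μ) {F : Fib A n} {h : R → Mat n}
    {c₀ : ℝ} (hT : F.Tor μ (resK Z) h c₀) (U : Ultrafilter R) (hU : F.W ∈ U) :
    IsLagS P n (F.LimS Subtype.val U) := by
  intro α d γ t x hx h2 h3 h4
  obtain ⟨O, o1, -, o3⟩ := emX P hx.2
  obtain rfl : d = n :=
    lim_dimS continuous_subtype_val hinj (resK_pos Z) hT U hU (o3.em F.W) o1 hx.1 h2 h3 h4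
  refine ⟨rfl, frequently_iff.2 fun {S} hS => ?_⟩
  obtain ⟨π, g, b1, b2⟩ := slz_str h2 h3
  obtain ⟨S₁, s1, s2, s3⟩ := _root_.mem_nhds_iff.1 (inter_mem hS (h2.and b2))
  obtain ⟨O₁, c1, c2, c3⟩ := mem_nhdsWithin.1
    (show γ '' S₁ ∈ map (B.z α) (𝓝[F.LimS Subtype.val U] x) from
      h4 ▸ image_mem_map (s2.mem_nhds s3))
  obtain ⟨Q, hQ, q1, q2⟩ := exists_compact_subset (c1.inter (B.V_open α)) ⟨c2, hx.2⟩
  obtain ⟨-, d2, d3⟩ := P.holR α π
  have hV := (c1.inter (B.V_open α)).preimage P.cont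
  choose e i L' pr r e1 e2 e3 e4 e5 e6 using fun y : P.ρ ⁻¹' (O₁ ∩ B.V α) =>
    slz_em P.toFull F.W hV (d2.mono fun _ a => a.2) (fun i w hw a => d3 i w hw a.2) y.2
  obtain ⟨T, hT'⟩ := ((Fib.limS_closed (F := F) (j := Z.j) U).inter
    (hQ.isClosed.preimage P.cont)).isCompact.elim_finite_subcover
      (fun y => (e y).O ∩ (e y).z ⁻¹' ball ((e y).z y) (r y))
      (fun y => (e y).cont.isOpen_inter_preimage (e y).opn isOpen_ball) fun y hy =>
        mem_iUnion.2 ⟨⟨y, q2 hy.2⟩, e2 _, mem_ball_self (e1 _)⟩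
  have f1 : (fun u => π (γ u)) '' (S₁ ∩ γ ⁻¹' (B.z α '' (F.LimS Subtype.val U ∩ Q))) ∈
      𝓝 (π (γ t)) := b1 ▸ image_mem_map (inter_mem (s2.mem_nhds s3)
    (show _ ∈ map γ (𝓝 t) from h4 ▸ image_mem_map
      (inter_mem_nhdsWithin _ (mem_interior_iff_mem_nhds.1 q1))))
  obtain ⟨a, f2, f3⟩ := (Measure.dense_of_ae ((eventually_all_finset T).2 fun y _ =>
    sl_gen Z.j_cont Z.j_inj hN hn hinj hμ (resK_pos Z) hT U hU (e y) (L' y) (e1 y)
      (e4 y))).inter_open_nonempty _ isOpen_interior ⟨_, mem_interior_iff_mem_nhds.2 f1⟩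
  obtain ⟨u, ⟨-, x', ⟨g1, g2⟩, g3⟩, g4⟩ := interior_subset f2
  obtain ⟨y', g5, rfl⟩ := P.lim F U ▸ g1
  obtain ⟨y, g6, g7⟩ := mem_iUnion₂.1 (hT' ⟨g5, g2⟩)
  obtain ⟨a₁, ρ, q, k1, k2, k3, k4⟩ := f3 y g6 y' g7.1 g5 g7.2
    ((e5 y y' g7.1).trans (g3 ▸ g4)) _ (mem_interior_iff_mem_nhds.1 f2)
  obtain ⟨u₁, ⟨l1, -⟩, rfl⟩ := k2 (mem_ball_self k1)
  obtain ⟨s, m1, m2⟩ := P.σ_ext (i y)
  have m3 : ContinuousOn s (Z.W (Z.c (i y))) :=
    continuousOn_pi.2 fun a => continuousOn_pi.2 fun b => (m1 a b).continuousOn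
  refine ⟨u₁, (s1 l1).1, i y, fun v => pr y (q (π (γ v))), s, m3, m2, ?_⟩
  filter_upwards [s2.mem_nhds l1, (π.continuous.continuousAt.comp
    (s1 l1).2.1.continuousAt).eventually (ball_mem_nhds _ k1)] with v n1 n2
  obtain ⟨w, w1, w2, w3, w4, w5⟩ := k4 _ n2
  have p0 : L' y ((e y).z w) = π (γ v) := w3 ▸ w4
  have p1 : ∀ᶠ a in 𝓝 (π (γ v)), DifferentiableAt ℂ q a :=
    k3.eventually_differentiableAt (isOpen_ball.mem_nhds n2)
  have p2 := (pr y).hasFDerivAt.comp v (p1.self_of_nhds.hasFDerivAt.comp v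
    (π.hasFDerivAt.comp v (s1 n1).2.1.hasFDerivAt))
  have p3 : pr y (q (π (γ v))) = pr y ((e y).z w) := congrArg _ w3.symm
  obtain ⟨v', p4, p5⟩ := c3 ⟨(e3 y w1).1, P.lim F U ▸ mem_image_of_mem _ w2⟩
  have p6 : v' = v := by
    rw [← (s1 p4).2.2, p5, ← e5 y w w1, p0, (s1 n1).2.2]
  refine ⟨p2.differentiableAt, p3 ▸ (e6 y w w1).1, ?_, ?_, slz_mat fun a b => ?_⟩
  · rw [p3, (e6 y w w1).2]
    exact (e3 y w1).2
  · rw [p3, (e6 y w w1).2, ← p5, p6]
  · have := sl_iso P.toFull hinj hT U hU (e y) (pr y) (e6 y) m3 m2 w1 w2 (L' y) (p0 ▸ p1) w5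
      (π (fderiv ℂ γ v a)) (π (fderiv ℂ γ v b))
    rw [p0, ← p3] at this
    rw [show fderiv ℂ (fun v => pr y (q (π (γ v)))) v = _ from p2.fderiv]
    exact this

end Pool.Agent.ZB
end
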