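import Pool.Agent.K.MP_63735c_ag.C351
import Pool.Agent.K.MP_63735c_ag.C266

/-! A complete metric on the product. -/

open scoped ComplexOrder ContDiff Matrix Topology ENNReal
open Set Metric MeasureTheory Filter

namespace Pool.Agent.BP

open Pool.Agent.SPF Pool.Agent.CL Pool.Agent.NL Pool.Agent.CK Pool.Agent.AB Pool.Agent.SE

variable {N r : ℕ} {X : Type} [TopologicalSpace X] {A : Atlas X N} {L : Line A} {k : ℕ}

theorem nr3_comp {M K : ℕ} {φ : E M → E N} {ψ : E N → E K} {z : E M}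
    (hψ : DifferentiableAt ℂ ψ (φ z)) (hφ : DifferentiableAt ℂ φ z) :
    jac (ψ ∘ φ) z = jac ψ (φ z) * jac φ z := by
  ext c a
  exact (congrFun (by rw [fderiv_comp z hψ hφ]; rfl) c).trans
    (congrFun (bpt2_jac ψ (φ z) (fderiv ℂ φ z (Pi.single a 1))).symm c)

theorem nr3_jac {M : ℕ} (f : E M →L[ℂ] E N) (z w : E M) : jac f z = jac f w := by
  unfold jac
  rw [f.fderiv, f.fderiv]

theorem nr3_mem {D : Man X N} {B : Set (E r)} (hB : IsOpen B) (y : X × E r) :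
    y ∈ (mprod D hB).M ↔ y.1 ∈ D.M ∧ y.2 ∈ B := by
  simp only [Man.M, mem_iUnion]
  constructor
  · rintro ⟨i, z, hz, rfl⟩
    exact ⟨⟨i, _, hz.1, rfl⟩, hz.2⟩
  · rintro ⟨⟨i, z, hz, e⟩, hb⟩
    refine ⟨i, ap z y.2, ⟨by rw [pr1_ap]; exact hz, by rw [pr2_ap]; exact hb⟩, ?_⟩
    show (D.p i (pr1 N r (ap z y.2)), pr2 N r (ap z y.2)) = y
    rw [pr1_ap, pr2_ap, e]

theorem nr3_cpt {D : Man X N} {B : Set (E r)} (hB : IsOpen B) {K : D.ι → E N → Mat N}
    (hK : D.Cpt K) : (mprod D hB).Cpt fun i z =>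
      (jac (pr1 N r) z)ᵀ * K i (pr1 N r z) * (jac (pr1 N r) z).map star := by
  intro i j z hz f hf
  have h0 := hf.self_of_nhds
  obtain ⟨ψ, h1, h2⟩ := D.trans i j _ hz.1 _ h0.2.1.1 (Prod.mk.inj h0.2.2).1.symm
  have e1 := hK i j _ hz.1 ψ h2
  have e2 : (pr1 N r ∘ f) =ᶠ[𝓝 z] (ψ ∘ pr1 N r) := by
    filter_upwards [hf, (pr1 N r).continuous.continuousAt.eventually h2] with w a b
    exact D.inj j a.2.1.1 b.2.1 ((Prod.mk.inj a.2.2).1.trans b.2.2.symm)
  have e3 : jac (pr1 N r) (f z) * jac f z = jac ψ (pr1 N r z) * jac (pr1 N r) z := by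
    rw [← nr3_comp (pr1 N r).differentiableAt h0.1,
      ← nr3_comp h2.self_of_nhds.1 (pr1 N r).differentiableAt]
    unfold jac
    rw [e2.fderiv_eq]
  have e4 : ∀ {a b c : ℕ} (P : Matrix (Fin a) (Fin b) ℂ) (Q : Matrix (Fin b) (Fin c) ℂ),
      (P * Q).map star = P.map star * Q.map star := fun P Q =>
    Matrix.map_mul (f := starRingEnd ℂ)
  have e5 : ∀ {a b c : ℕ} (P : Matrix (Fin a) (Fin b) ℂ) (Q : Matrix (Fin b) (Fin c) ℂ)
      (H : Mat a), Qᵀ * (Pᵀ * H * P.map star) * Q.map star =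
        (P * Q)ᵀ * H * (P * Q).map star := by
    intro a b c P Q H
    rw [e4, Matrix.transpose_mul]
    simp only [Matrix.mul_assoc]
  show (jac (pr1 N r) z)ᵀ * K i (pr1 N r z) * (jac (pr1 N r) z).map star =
    (jac f z)ᵀ * ((jac (pr1 N r) (f z))ᵀ * K j (pr1 N r (f z)) *
      (jac (pr1 N r) (f z)).map star) * (jac f z).map star
  rw [e1, e5, e5, e3, h1]

theorem nr3_nsq {M : ℕ} (v : E M) : 0 ≤ nsq v := Finset.sum_nonneg fun _ _ => sq_nonneg _

theorem nr3_ball (b : E r) (c : ℝ) : IsCompact {w : E r | nsq (w - b) ≤ c} := by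
  refine (isCompact_closedBall b (√c)).of_isClosed_subset
    (isClosed_le (nsq_smooth.continuous.comp (continuous_id.sub continuous_const))
      continuous_const) fun w hw => ?_
  rw [mem_closedBall, dist_eq_norm]
  exact Real.le_sqrt_of_sq_le ((norm_sq_le_nsq _).trans hw)

theorem nr3_log {M : ℕ} {f : E M → ℝ} {z : E M} (hf : ContDiffAt ℝ ∞ f z) (h0 : 0 ≤ f z) :
    ContDiffAt ℝ ∞ (fun y => Real.log (1 + f y)) z ∧ ∀ v, 0 ≤ hr (lev f z) v →
      ∃ a, 0 ≤ a ∧ a ≤ hr (lev f z) v ∧ hr (lev (fun y => Real.log (1 + f y)) z) v =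
        a - ‖v ⬝ᵥ dr (fun y => Real.log (1 + f y)) z‖ ^ 2 := by
  have h1 : 0 < 1 + f z := by linarith
  refine ⟨(contDiffAt_const.add hf).log h1.ne', fun v hv => ?_⟩
  have d0 : ∀ t : ℝ, HasDerivAt (fun t => 1 + t) 1 t := fun t => (hasDerivAt_id t).const_add 1
  have d1 : ∀ t : ℝ, 0 < 1 + t → HasDerivAt (fun t => Real.log (1 + t)) (1 + t)⁻¹ t :=
    fun t ht => ((d0 t).log ht.ne').congr_deriv (one_div _)
  have d2 : HasDerivAt (fun t : ℝ => (1 + t)⁻¹) (-((1 + f z)⁻¹) ^ 2) (f z) :=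
    ((d0 _).inv h1.ne').congr_deriv (by field_simp)
  have ev : ∀ᶠ t in 𝓝 (f z), 0 < 1 + t :=
    (eventually_gt_nhds (show -1 < f z by linarith)).mono fun t ht => by linarith
  have e1 := lev_chain (f := f) (ρ := fun t => Real.log (1 + t)) (ρ₁ := fun t => (1 + t)⁻¹)
    (ev.mono d1) d2 hf v
  have e2 := dr_chain (f := f) (ρ := fun t => Real.log (1 + t)) (d1 _ h1)
    (hf.differentiableAt (by simp))
  have b1 : 0 < (1 + f z)⁻¹ := inv_pos.2 h1
  have b2 : (1 + f z)⁻¹ ≤ 1 := inv_le_one_of_one_le₀ (by linarith)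
  refine ⟨(1 + f z)⁻¹ * hr (lev f z) v, mul_nonneg b1.le hv, mul_le_of_le_one_left hv b2, ?_⟩
  rw [hr, e1, e2, dotProduct_smul, norm_smul, mul_pow, Complex.norm_real, Real.norm_eq_abs, sq_abs]
  ring

theorem nr3_half {M : ℕ} {f g : E M → ℝ} {z : E M} (hf : ContDiffAt ℝ ∞ f z)
    (hg : ContDiffAt ℝ ∞ g z) (c : ℝ) (v : E M) :
    hr (lev (fun y => (1 / 2 : ℝ) * (f y + g y) + c) z) v =
      (hr (lev f z) v + hr (lev g z) v) / 2 ∧
    ‖v ⬝ᵥ dr (fun y => (1 / 2 : ℝ) * (f y + g y) + c) z‖ ^ 2 ≤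
      (‖v ⬝ᵥ dr f z‖ ^ 2 + ‖v ⬝ᵥ dr g z‖ ^ 2) / 2 := by
  have d1 : ∀ t : ℝ, HasDerivAt (fun t : ℝ => (1 / 2 : ℝ) * t + c) (1 / 2) t := fun t =>
    (((hasDerivAt_id t).const_mul (1 / 2 : ℝ)).add_const c).congr_deriv (mul_one _)
  have e1 := lev_chain (f := fun y => f y + g y) (ρ := fun t => (1 / 2 : ℝ) * t + c)
    (ρ₁ := fun _ => 1 / 2) (Eventually.of_forall d1) (hasDerivAt_const _ _) (hf.add hg) v
  have e2 := dr_chain (f := fun y => f y + g y) (ρ := fun t => (1 / 2 : ℝ) * t + c) (d1 _)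
    ((hf.add hg).differentiableAt (by simp))
  constructor
  · rw [hr, e1, lev_add hf hg, hq_add, Complex.add_re]
    ring
  · rw [e2, dr_add (hf.differentiableAt (by simp)) (hg.differentiableAt (by simp)),
      dotProduct_smul, norm_smul, mul_pow, Complex.norm_real, Real.norm_eq_abs, sq_abs,
      dotProduct_add]
    have a := norm_add_le (v ⬝ᵥ dr f z) (v ⬝ᵥ dr g z)
    have a2 := pow_le_pow_left₀ (norm_nonneg _) a 2
    nlinarith [sq_nonneg (‖v ⬝ᵥ dr f z‖ - ‖v ⬝ᵥ dr g z‖)]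

theorem nr3_three {M : ℕ} {f g h : E M → ℝ} {z : E M} (hf : ContDiffAt ℝ ∞ f z)
    (hg : ContDiffAt ℝ ∞ g z) (hh : ContDiffAt ℝ ∞ h z) (v : E M) :
    hr (lev (fun y => 2 * f y + -1 * g y + h y) z) v =
      2 * hr (lev f z) v - hr (lev g z) v + hr (lev h z) v := by
  have s1 : ContDiffAt ℝ ∞ (fun y => 2 * f y) z := contDiffAt_const.mul hf
  have s2 : ContDiffAt ℝ ∞ (fun y => -1 * g y) z := contDiffAt_const.mul hg
  rw [hr, lev_add (s1.add s2) hh, lev_add s1 s2, lev_smul hf, lev_smul hg, hq_add, hq_add, hq_smul,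
    hq_smul, Complex.add_re, Complex.add_re, Complex.re_ofReal_mul, Complex.re_ofReal_mul]
  ring

theorem Fam.cut [CompactSpace X] [T2Space X] (S : Fam L k r) {K : Form11 A}
    (hK : ∀ i, ∀ z ∈ (A.C i).W, (K.h i z).PosDef) (b : E r) {τ : ℝ} (hτ : 0 < τ) :
    ∃ K' : A.ι → E (N + r) → Mat (N + r), (∀ i, Kah ((S.D b τ).W i) (K' i)) ∧
      (S.D b τ).Cpt K' ∧ (S.D b τ).Cut K' := by
  obtain ⟨l, hl⟩ : ∃ l : X × E r → ℝ, l = fun y =>
    (1 / 2 : ℝ) * (Real.log (1 + S.φ y.1) + bet b τ y) + Real.log τ / 2 := ⟨_, rfl⟩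
  obtain ⟨Ψ, hΨ⟩ : ∃ Ψ : X × E r → ℝ, Ψ = fun y =>
    2 * S.φ y.1 + -1 * Real.log (1 + S.φ y.1) + bet b τ y := ⟨_, rfl⟩
  have hφ0 : ∀ x, 0 ≤ S.φ x := fun x => Real.log_nonneg (by linarith [nr3_nsq (S.g x)])
  have key : ∀ (i : A.ι), ∀ z ∈ (S.D b τ).W i,
      ContDiffAt ℝ ∞ (fun y => l ((S.D b τ).p i y)) z ∧
      ContDiffAt ℝ ∞ (fun y => Ψ ((S.D b τ).p i y)) z ∧ ∀ v,
        |hr ((S.D b τ).levG l i z) v| ≤ hr ((S.D b τ).levG Ψ i z) v ∧
        ‖v ⬝ᵥ dr (fun y => l ((S.D b τ).p i y)) z‖ ^ 2 ≤ hr ((S.D b τ).levG Ψ i z) v ∧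
        (pr2 N r v ≠ 0 → 0 < hr ((S.D b τ).levG Ψ i z) v) := by
    intro i z hz
    have hF : ∀ᶠ w in 𝓝 z, DifferentiableAt ℂ (fun y => S.g (A.p i (pr1 N r y))) w := by
      filter_upwards [(pr1 N r).continuous.continuousAt.eventually (S.g_hol hz.1.1 hz.1.2)]
        with w a using a.comp w (pr1 N r).differentiableAt
    have hG : ∀ᶠ w in 𝓝 z, DifferentiableAt ℂ (fun y => pr2 N r y - b) w :=
      Eventually.of_forall fun w => (pr2 N r).differentiableAt.sub_const b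
    obtain ⟨s1, a1⟩ := nr_fs hF
    obtain ⟨s2, a2⟩ := nr_ball hG (show nsq (pr2 N r z - b) < τ from hz.2)
    obtain ⟨s3, a3⟩ := nr3_log s1 (hφ0 (A.p i (pr1 N r z)))
    subst hl hΨ
    refine ⟨(contDiffAt_const.mul (s3.add s2)).add contDiffAt_const,
      ((contDiffAt_const.mul s1).add (contDiffAt_const.mul s3)).add s2, fun v => ?_⟩
    have b1 : 0 ≤ hr (lev (fun w => Real.log (1 + nsq (S.g (A.p i (pr1 N r w))))) z) v :=
      nonneg_of_mul_nonneg_right ((nr3_nsq _).trans (a1 v))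
        (pow_pos (by linarith [nr3_nsq (S.g (A.p i (pr1 N r z)))]) 2)
    obtain ⟨a, c1, c2, c3⟩ := a3 v b1
    obtain ⟨c4, c5⟩ := nr3_half s3 s2 (Real.log τ / 2) v
    have c6 := nr3_three s1 s3 s2 v
    have c7 := a2 v
    rw [fderiv_sub_const, (pr2 N r).fderiv] at c7
    have hpos : 0 < τ - nsq (pr2 N r z - b) := sub_pos.2 hz.2
    have c8 : 0 ≤ nsq (pr2 N r v) / (τ - nsq (pr2 N r z - b)) := div_nonneg (nr3_nsq _) hpos.le
    have c9 : pr2 N r v ≠ 0 → 0 < nsq (pr2 N r v) / (τ - nsq (pr2 N r z - b)) := fun h =>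
      div_pos ((pow_pos (norm_pos_iff.2 h) 2).trans_le (norm_sq_le_nsq _)) hpos
    have c10 := sq_nonneg
      ‖v ⬝ᵥ dr (fun y => Real.log (1 + Real.log (1 + nsq (S.g (A.p i (pr1 N r y)))))) z‖
    have c11 := sq_nonneg ‖v ⬝ᵥ dr (fun w => -Real.log (τ - nsq (pr2 N r w - b))) z‖
    refine ⟨?_, ?_, fun h => ?_⟩
    · refine le_of_eq_of_le (congrArg abs c4) (le_of_le_of_eq ?_ c6.symm)
      exact abs_le.2 ⟨by linarith, by linarith⟩
    · refine c5.trans (le_of_le_of_eq ?_ c6.symm)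
      linarith
    · refine lt_of_lt_of_eq ?_ c6.symm
      linarith [c9 h]
  have sl : (S.D b τ).Smo l := fun i z hz => (key i z hz).1.contDiffWithinAt
  have sΨ : (S.D b τ).Smo Ψ := fun i z hz => (key i z hz).2.1.contDiffWithinAt
  have hv : ∀ (i : A.ι) z v, hr ((jac (pr1 N r) z)ᵀ * K.h i (pr1 N r z) *
      (jac (pr1 N r) z).map star + (S.D b τ).levG Ψ i z) v =
      hr (K.h i (pr1 N r z)) (pr1 N r v) + hr ((S.D b τ).levG Ψ i z) v := by
    intro i z v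
    rw [hr, hq_add, Complex.add_re, hq_conj, bpt2_jac, (pr1 N r).fderiv]
  have hM : ∀ y, y ∈ (S.D b τ).M ↔ y.1 ∈ S.U ∧ y.2 ∈ Bl b τ := fun y => by
    rw [nr3_mem, man_M]
  refine ⟨fun i z => (jac (pr1 N r) z)ᵀ * K.h i (pr1 N r z) * (jac (pr1 N r) z).map star +
    (S.D b τ).levG Ψ i z, fun (i : A.ι) => ?_, fun i j z hz f hf => ?_,
    cut_of_lam (C := 1) zero_le_one sl (fun y hy => ?_) (fun c => ?_) ?_⟩
  · have hW := (S.D b τ).isOpen i
    have s1 : ∀ a b', ContDiffOn ℝ ∞ (fun z => ((jac (pr1 N r) z)ᵀ * K.h i (pr1 N r z) *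
        (jac (pr1 N r) z).map star) a b') ((S.D b τ).W i) := by
      intro a b'
      simp only [Matrix.mul_apply, fun z => nr3_jac (pr1 N r) z 0]
      refine ContDiffOn.sum fun c _ => ContDiffOn.mul (ContDiffOn.sum fun e _ =>
        contDiffOn_const.mul ?_) contDiffOn_const
      exact (K.smooth i e c).comp ((pr1 N r).restrictScalars ℝ).contDiff.contDiffOn
        fun z hz => hz.1.1
    have s2 := lev_smooth hW (sΨ i)
    refine ⟨fun a b' => (s1 a b').add (s2 a b'),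
      fun z hz => posDef_of_hq ?_ fun v hv0 => ?_, fun z hz a b' c => ?_⟩
    · refine Matrix.IsHermitian.add ?_ (lev_herm (key i z hz).2.1)
      have e := Matrix.isHermitian_mul_mul_conjTranspose (jac (pr1 N r) z)ᵀ
        (K.herm i _ hz.1.1)
      exact e
    · refine lt_of_lt_of_eq ?_ (hv i z v).symm
      obtain ⟨c1, -, c3⟩ := (key i z hz).2.2 v
      by_cases h2 : pr2 N r v = 0
      · have h1 : pr1 N r v ≠ 0 := fun h1 => hv0 (by
          rw [← ap_pr v, h1, h2]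
          exact map_zero (spl N r).symm)
        exact add_pos_of_pos_of_nonneg (hq_pos (hK i _ hz.1.1) h1) ((abs_nonneg _).trans c1)
      · exact add_pos_of_nonneg_of_pos (hq_nonneg (hK i _ hz.1.1).posSemidef _) (c3 h2)
    · have e1 := kah_pull (A.C i).isOpen ⟨K.smooth i, hK i, K.closed i⟩
        (F := pr1 N r) (y := z) (Eventually.of_forall fun _ => (pr1 N r).differentiableAt)
        hz.1.1 a b' c
      have e2 := lev_closed (key i z hz).2.1 a b' c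
      exact (dz_add (diffAt hW (s1 a b') hz) (diffAt hW (s2 a b') hz) c).1.trans
        ((congrArg₂ (· + ·) e1 e2).trans
          (dz_add (diffAt hW (s1 c b') hz) (diffAt hW (s2 c b') hz) a).1.symm)
  · have e1 := nr3_cpt (Bl_open b τ) (man_cpt_form (hinj := S.hinj) (hM := S.U_open) K)
      i j z hz f hf
    have e2 := Man.levG_cpt sΨ i j z hz f hf
    rw [Matrix.mul_add, Matrix.add_mul]
    exact congrArg₂ (· + ·) e1 e2
  · have h2 : nsq (y.2 - b) < τ := ((hM y).1 hy).2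
    have a1 : 0 ≤ Real.log (1 + S.φ y.1) := Real.log_nonneg (by linarith [hφ0 y.1])
    have a2 : Real.log (τ - nsq (y.2 - b)) ≤ Real.log τ :=
      Real.log_le_log (by linarith) (by linarith [nr3_nsq (y.2 - b)])
    rw [hl]
    simp only [bet]
    linarith
  · have he : 0 < τ * Real.exp (-(2 * c)) := mul_pos hτ (Real.exp_pos _)
    refine ⟨{x | x ∈ S.U ∧ nsq (S.g x) ≤ Real.exp (Real.exp (2 * c))} ×ˢ
      {w | nsq (w - b) ≤ τ - τ * Real.exp (-(2 * c))}, (S.cpt _).prod (nr3_ball b _),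
      fun y hy => (hM y).2 ⟨hy.1.1, ?_⟩, fun y hy hw => ?_⟩
    · have h2 : nsq (y.2 - b) ≤ τ - τ * Real.exp (-(2 * c)) := hy.2
      show nsq (y.2 - b) < τ
      linarith
    · obtain ⟨h1, h2⟩ := (hM y).1 hw
      have h2' : nsq (y.2 - b) < τ := h2
      have a1 : 0 ≤ Real.log (1 + S.φ y.1) := Real.log_nonneg (by linarith [hφ0 y.1])
      have a2 : Real.log (τ - nsq (y.2 - b)) ≤ Real.log τ :=
        Real.log_le_log (by linarith) (by linarith [nr3_nsq (y.2 - b)])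
      rw [hl]
      simp only [bet]
      by_cases h3 : nsq (S.g y.1) ≤ Real.exp (Real.exp (2 * c))
      · have h4 : τ - τ * Real.exp (-(2 * c)) < nsq (y.2 - b) :=
          lt_of_not_ge fun h => hy ⟨⟨h1, h3⟩, h⟩
        have a3 : Real.log (τ - nsq (y.2 - b)) < Real.log (τ * Real.exp (-(2 * c))) :=
          Real.log_lt_log (by linarith) (by linarith)
        rw [Real.log_mul hτ.ne' (Real.exp_ne_zero _), Real.log_exp] at a3
        linarith
      · have a3 : Real.exp (2 * c) < S.φ y.1 :=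
          (Real.lt_log_iff_exp_lt (by linarith [nr3_nsq (S.g y.1)])).2 (by linarith [not_le.1 h3])
        have a4 : 2 * c < Real.log (1 + S.φ y.1) :=
          (Real.lt_log_iff_exp_lt (by linarith [hφ0 y.1])).2 (by linarith)
        linarith
  · intro (i : A.ι) z hz v
    obtain ⟨c1, c2, -⟩ := (key i z hz).2.2 v
    have c3 := hq_nonneg (hK i _ hz.1.1).posSemidef (pr1 N r v)
    have c4 := hv i z v
    rw [one_mul]
    exact ⟨le_of_le_of_eq (c1.trans (le_add_of_nonneg_left c3)) c4.symm,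
      le_of_le_of_eq (c2.trans (le_add_of_nonneg_left c3)) c4.symm⟩

end Pool.Agent.BP
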