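import Pool.Agent.K.MP_63735c_ag.C351
import Pool.Agent.K.MP_63735c_ag.C310
import Pool.Agent.K.MP_63735c_ag.C350
import Pool.Agent.K.MP_63735c_ag.C352

-- part Pool.Agent.P.MP_63735c_ag.NR4
section

/-! The curvature of the weight and the derivative of the cut off function. -/

open scoped ComplexOrder ContDiff Matrix Topology ENNReal
open Set Metric MeasureTheory Filter

namespace Pool.Agent.BP

open Pool.Agent.SPF Pool.Agent.CL Pool.Agent.NL Pool.Agent.CK Pool.Agent.AB Pool.Agent.SE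

variable {N r : ℕ} {X : Type} [TopologicalSpace X] {A : Atlas X N} {L : Line A} {k : ℕ}

/-- The form that is dominated by the curvature. -/
noncomputable def Fam.Q (S : Fam L k r) (b : E r) (τ : ℝ) (i : A.ι) (z v : E (N + r)) : ℝ :=
  hr ((S.D b τ).levG (fun y => S.φ y.1) i z) v + hr ((S.D b τ).levG (bet b τ) i z) v

theorem nr4_nonneg {M : ℕ} (v : E M) : 0 ≤ nsq v := (sq_nonneg _).trans (norm_sq_le_nsq v)

theorem nr4_sub {M : ℕ} (u v : E M) : nsq (u - v) ≤ 2 * nsq u + 2 * nsq v := by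
  simp only [nsq, Finset.mul_sum, ← Finset.sum_add_distrib]
  refine Finset.sum_le_sum fun a _ => ?_
  refine (pow_le_pow_left₀ (norm_nonneg _) (norm_sub_le (u a) (v a)) 2).trans
    (add_sq_le.trans (le_of_eq ?_))
  ring

theorem nr4_tri {M : ℕ} (u w b : E M) : nsq (u - b) ≤ 2 * nsq (u - w) + 2 * nsq (w - b) := by
  have h := nr4_sub (u - w) (b - w)
  have e : nsq (b - w) = nsq (w - b) := by
    simp only [nsq, Pi.sub_apply, norm_sub_rev (b _)]
  rwa [sub_sub_sub_cancel_right, e] at h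

theorem nr4_one {M : ℕ} {v : E M} (h : nsq v ≤ 1) : ‖v‖ ≤ 1 :=
  (sq_le_one_iff₀ (norm_nonneg _)).1 ((norm_sq_le_nsq v).trans h)

theorem nr4_nine {u w b : E r} (hb : ‖b‖ ≤ 1) (h1 : nsq (u - w) ≤ 1) (h2 : nsq (w - b) ≤ 1) :
    nsq u ≤ 9 * r := by
  have h3 : ‖u‖ ≤ 3 := by
    have := norm_add₃_le (a := u - w) (b := w - b) (c := b)
    rw [sub_add_sub_cancel, sub_add_cancel] at this
    linarith [nr4_one h1, nr4_one h2]
  refine (nsq_le_norm_sq u).trans ?_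
  rw [mul_comm 9]
  exact mul_le_mul_of_nonneg_left (by nlinarith [norm_nonneg u]) (Nat.cast_nonneg r)

theorem nr4_G (S : Fam L k r) {b : E r} {τ : ℝ} {i : A.ι} {z : E (N + r)}
    (hz : z ∈ (S.D b τ).W i) :
    (∀ᶠ w in 𝓝 z, DifferentiableAt ℂ (fun y => S.g (A.p i (pr1 N r y))) w) ∧
      (∀ᶠ w in 𝓝 z, DifferentiableAt ℂ (fun y => pr2 N r y - b) w) ∧
      ∀ᶠ w in 𝓝 z, DifferentiableAt ℂ (fun y => S.g (A.p i (pr1 N r y)) - pr2 N r y) w := by
  have h : ∀ᶠ w in 𝓝 z, DifferentiableAt ℂ (fun y => S.g (A.p i (pr1 N r y))) w :=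
    ((pr1 N r).continuous.continuousAt.eventually (S.g_hol hz.1.1 hz.1.2)).mono fun w hw =>
      hw.comp w (pr1 N r).differentiableAt
  exact ⟨h, Eventually.of_forall fun w => (pr2 N r).differentiableAt.sub_const b,
    h.mono fun w hw => hw.sub (pr2 N r).differentiableAt⟩

theorem Fam.Q_bd (S : Fam L k r) {b : E r} {τ : ℝ} (hb : ‖b‖ ≤ 1) (h1 : τ ≤ 1) {i : A.ι}
    {z : E (N + r)} (hz : z ∈ (S.D b τ).W i) (v : E (N + r)) : 0 ≤ S.Q b τ i z v ∧
      ‖v ⬝ᵥ dr (fun y => bet b τ ((S.D b τ).p i y)) z‖ ^ 2 ≤ S.Q b τ i z v ∧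
      (S.T ((S.D b τ).p i z) ≤ 1 →
        nsq (fderiv ℂ (fun y => S.g (A.p i (pr1 N r y)) - pr2 N r y) z v) ≤
          2 * (1 + 9 * r) ^ 2 * S.Q b τ i z v) := by
  obtain ⟨g1, g2, -⟩ := nr4_G S hz
  have a1 : nsq (fderiv ℂ (fun y => S.g (A.p i (pr1 N r y))) z v) ≤
      (1 + nsq (S.g (A.p i (pr1 N r z)))) ^ 2 * hr ((S.D b τ).levG (fun y => S.φ y.1) i z) v :=
    (nr_fs g1).2 v
  have hB : nsq (pr2 N r z - b) < τ := hz.2
  have a2 : hr ((S.D b τ).levG (bet b τ) i z) v =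
      nsq (fderiv ℂ (fun y => pr2 N r y - b) z v) / (τ - nsq (pr2 N r z - b)) +
        ‖v ⬝ᵥ dr (fun y => bet b τ ((S.D b τ).p i y)) z‖ ^ 2 := (nr_ball g2 hB).2 v
  rw [fderiv_sub_const, (pr2 N r).fderiv] at a2
  have n1 := nr4_nonneg (S.g (A.p i (pr1 N r z)))
  have n2 := nr4_nonneg (pr2 N r z - b)
  have n3 := nr4_nonneg (pr2 N r v)
  have a3 : 0 ≤ hr ((S.D b τ).levG (fun y => S.φ y.1) i z) v :=
    nonneg_of_mul_nonneg_right ((nr4_nonneg _).trans a1) (by positivity)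
  have a4 : nsq (pr2 N r v) ≤ nsq (pr2 N r v) / (τ - nsq (pr2 N r z - b)) :=
    le_div_self n3 (by linarith) (by linarith)
  have a5 := sq_nonneg ‖v ⬝ᵥ dr (fun y => bet b τ ((S.D b τ).p i y)) z‖
  unfold Fam.Q
  refine ⟨by linarith, by linarith, fun hT => ?_⟩
  have b1 : nsq (S.g (A.p i (pr1 N r z))) ≤ 9 * r := nr4_nine hb hT (hB.le.trans h1)
  rw [fderiv_fun_sub g1.self_of_nhds (pr2 N r).differentiableAt, (pr2 N r).fderiv,
    sub_apply]
  refine (nr4_sub _ _).trans ?_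
  have b2 : (1 + nsq (S.g (A.p i (pr1 N r z)))) ^ 2 ≤ (1 + 9 * r) ^ 2 := by gcongr
  have b3 := mul_le_mul_of_nonneg_right b2 a3
  have b4 : (1 : ℝ) ≤ (1 + 9 * r) ^ 2 := one_le_pow₀ (by linarith)
  have b5 := mul_le_mul_of_nonneg_right b4
    (show 0 ≤ hr ((S.D b τ).levG (bet b τ) i z) v by linarith)
  linarith

theorem Φ_lev (r γ : ℕ) : ∃ j : ℕ, 1 ≤ j ∧ ∀ {N : ℕ} {X : Type} [TopologicalSpace X]
    {A : Atlas X N} {L : Line A} {k : ℕ} (S : Fam L k r) (b : E r) (τ ε : ℝ), ‖b‖ ≤ 1 → τ ≤ 1 →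
    0 < ε → (S.D b τ).Smo (S.Φ j γ ε b τ) ∧ ∀ i, ∀ z ∈ (S.D b τ).W i, ∀ v,
      S.Q b τ i z v ≤ hr ((S.D b τ).levG (S.Φ j γ ε b τ) i z) v := by
  obtain ⟨D, hD, hl⟩ := nr_lam
  refine ⟨⌈γ * (D * (2 * (1 + 9 * r : ℝ) ^ 2))⌉₊ + 1, by omega, ?_⟩
  intro N X _ A L k S b τ ε hb h1 hε
  obtain ⟨j, hj⟩ : ∃ j : ℕ, j = ⌈γ * (D * (2 * (1 + 9 * r : ℝ) ^ 2))⌉₊ + 1 := ⟨_, rfl⟩
  have hj' : γ * (D * (2 * (1 + 9 * r : ℝ) ^ 2)) + 1 ≤ j := by
    rw [hj]
    push_cast
    linarith [Nat.le_ceil (γ * (D * (2 * (1 + 9 * r : ℝ) ^ 2)))]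
  rw [← hj]
  have loc : ∀ i, ∀ z ∈ (S.D b τ).W i,
      ContDiffAt ℝ ∞ (fun y => S.φ ((S.D b τ).p i y).1) z ∧
      ContDiffAt ℝ ∞ (fun y => bet b τ ((S.D b τ).p i y)) z ∧
      ContDiffAt ℝ ∞ (fun y => rho (Real.log (S.T ((S.D b τ).p i y) + ε))) z := fun i z hz =>
    ⟨(nr_fs (nr4_G S hz).1).1, (nr_ball (nr4_G S hz).2.1 hz.2).1, (hl (nr4_G S hz).2.2 hε).1⟩
  refine ⟨fun i z hz => ?_, fun i z hz v => ?_⟩
  · obtain ⟨a1, a2, a3⟩ := loc i z hz
    exact (((contDiffAt_const.mul a1).add (contDiffAt_const.mul a2)).add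
      (contDiffAt_const.mul a3)).contDiffWithinAt
  · obtain ⟨a1, a2, a3⟩ := loc i z hz
    obtain ⟨q1, -, q3⟩ := S.Q_bd hb h1 hz v
    have e : (S.D b τ).levG (S.Φ j γ ε b τ) i z =
        ((j : ℝ) : ℂ) • (S.D b τ).levG (fun y => S.φ y.1) i z +
          ((j : ℝ) : ℂ) • (S.D b τ).levG (bet b τ) i z + ((γ : ℝ) : ℂ) •
          lev (fun y => rho (Real.log (S.T ((S.D b τ).p i y) + ε))) z := by
      refine (lev_add ((contDiffAt_const.mul a1).add (contDiffAt_const.mul a2))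
        (contDiffAt_const.mul a3)).trans ?_
      rw [lev_add (contDiffAt_const.mul a1) (contDiffAt_const.mul a2), lev_smul a1, lev_smul a2,
        lev_smul a3]
      rfl
    have b1 : -(D * (2 * (1 + 9 * r : ℝ) ^ 2 * S.Q b τ i z v)) ≤
        hr (lev (fun y => rho (Real.log (S.T ((S.D b τ).p i y) + ε))) z) v := by
      refine le_trans (neg_le_neg ?_) ((hl (nr4_G S hz).2.2 hε).2 v)
      split_ifs with h
      · exact mul_le_mul_of_nonneg_left (q3 h) hD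
      · positivity
    have b2 := mul_le_mul_of_nonneg_left b1 (Nat.cast_nonneg (α := ℝ) γ)
    have b3 := mul_le_mul_of_nonneg_right hj' q1
    rw [e]
    simp only [hr, hq_add, hq_smul, Complex.add_re, Complex.re_ofReal_mul]
    unfold Fam.Q hr at *
    linarith

variable {S : Fam L k r} {h : X → ℂ} {b : E r} {τ C : ℝ}

theorem nr4_far (H : S.Good h b τ C) {y : X × E r} (hy : τ < S.T y) : 2 - 2 * S.T y / τ < 0 := by
  rw [sub_neg, lt_div_iff₀ H.τ_pos]
  linarith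

theorem nr4_near {y : X × E r} (h2 : y.2 ∈ Bl b τ) (hy : S.T y ≤ τ) :
    nsq (S.g y.1 - b) < 4 * τ := by
  have a := nr4_tri (S.g y.1) y.2 b
  have a2 : nsq (y.2 - b) < τ := h2
  unfold Fam.T at hy
  linarith

theorem Fam.Good.cf_bd (H : S.Good h b τ C) (R : ℝ) (y : X × E r) : ‖S.cf h b τ R y‖ ≤ |C| ∧
    (y.1 ∈ S.U → y.2 ∈ Bl b τ → bet b τ y ≤ R → 2 * S.T y ≤ τ → S.cf h b τ R y = h y.1) := by
  refine ⟨?_, fun h1 h2 h3 h4 => ?_⟩
  · by_cases hy : y ∈ {y : X × E r | y.1 ∈ S.U ∧ y.2 ∈ Bl b τ}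
    swap
    · rw [Fam.cf, indicator_of_notMem hy, norm_zero]
      exact abs_nonneg C
    rw [Fam.cf, indicator_of_mem hy]
    rcases lt_or_ge τ (S.T y) with h1 | h1
    · rw [Real.smoothTransition.zero_of_nonpos (nr4_far H h1).le]
      simp
    rw [norm_mul, Complex.norm_real, Real.norm_of_nonneg
      (mul_nonneg (Real.smoothTransition.nonneg _) (Real.smoothTransition.nonneg _))]
    exact (mul_le_of_le_one_left (norm_nonneg _) (mul_le_one₀ (Real.smoothTransition.le_one _)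
      (Real.smoothTransition.nonneg _) (Real.smoothTransition.le_one _))).trans
        ((H.bd _ hy.1 (nr4_near hy.2 h1).le).trans (le_abs_self C))
  · rw [Fam.cf, indicator_of_mem (show y ∈ {y : X × E r | y.1 ∈ S.U ∧ y.2 ∈ Bl b τ} from ⟨h1, h2⟩),
      Real.smoothTransition.one_of_one_le (by linarith), Real.smoothTransition.one_of_one_le (by
      have : 2 * S.T y / τ ≤ 1 := (div_le_one H.τ_pos).2 h4
      linarith)]
    simp

theorem nr4_core {M : ℕ} {f t : E M → ℝ} {w : E M → ℂ} {z : E M} {s : ℝ → ℝ} (R τ : ℝ)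
    (hs : ∀ t, HasDerivAt Real.smoothTransition (s t) t) (d1 : DifferentiableAt ℝ f z)
    (d2 : DifferentiableAt ℝ t z) (a3 : DifferentiableAt ℂ w z) (v : E M) :
    ‖v ⬝ᵥ star (db (fun y => ((Real.smoothTransition (R + 1 - f y) *
      Real.smoothTransition (2 - 2 * t y / τ) : ℝ) : ℂ) * w y) z)‖ ^ 2 ≤ ‖w z‖ ^ 2 * (2 *
        (s (R + 1 - f z) ^ 2 * Real.smoothTransition (2 - 2 * t z / τ) ^ 2 * ‖v ⬝ᵥ dr f z‖ ^ 2 +
          Real.smoothTransition (R + 1 - f z) ^ 2 * s (2 - 2 * t z / τ) ^ 2 *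
            ((2 / τ) ^ 2 * ‖v ⬝ᵥ dr t z‖ ^ 2))) := by
  have r1 : HasDerivAt (fun u => Real.smoothTransition (R + 1 - u))
      (s (R + 1 - f z) * -1) (f z) := (hs _).comp _ ((hasDerivAt_id _).const_sub _)
  have r2 : HasDerivAt (fun u => Real.smoothTransition (2 - 2 * u / τ))
      (s (2 - 2 * t z / τ) * -(2 * 1 / τ)) (t z) :=
    (hs _).comp _ ((((hasDerivAt_id _).const_mul 2).div_const _).const_sub _)
  have g1 := r1.differentiableAt.comp z d1
  have g2 := r2.differentiableAt.comp z d2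
  have e1 : db (fun y => ((Real.smoothTransition (R + 1 - f y) *
      Real.smoothTransition (2 - 2 * t y / τ) : ℝ) : ℂ) * w y) z = _ :=
    db_mul (ablev_red (g1.fun_mul g2)) (a3.restrictScalars ℝ)
  have e2 := bpe8_mul (f := fun y => Real.smoothTransition (R + 1 - f y))
    (g := fun y => Real.smoothTransition (2 - 2 * t y / τ)) g1 g2
  rw [dr_chain r1 d1, dr_chain r2 d2] at e2
  rw [e1, db_hol a3, smul_zero, add_zero, star_smul, star_db, e2]
  simp only [smul_smul, dotProduct_smul, dotProduct_add, smul_eq_mul, ← Complex.ofReal_mul]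
  rw [norm_mul, norm_star, mul_pow]
  refine mul_le_mul_of_nonneg_left ?_ (sq_nonneg _)
  refine (pow_le_pow_left₀ (norm_nonneg _) (norm_add_le _ _) 2).trans
    (add_sq_le.trans (le_of_eq ?_))
  simp only [norm_mul, Complex.norm_real, Real.norm_eq_abs, mul_pow, sq_abs]
  ring

theorem nr4_mem (S : Fam L k r) {i : A.ι} {z : E (N + r)} (hz : z ∈ (S.D b τ).W i) :
    (S.D b τ).p i z ∈ {y : X × E r | y.1 ∈ S.U ∧ y.2 ∈ Bl b τ} := ⟨hz.1.2, hz.2⟩

theorem nr4_loc (S : Fam L k r) (h : X → ℂ) (R : ℝ) {i : A.ι} {z : E (N + r)}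
    (hz : z ∈ (S.D b τ).W i) : ContDiffAt ℝ ∞ (fun y => bet b τ ((S.D b τ).p i y)) z ∧
      ContDiffAt ℝ ∞ (fun y => S.T ((S.D b τ).p i y)) z ∧
      (fun y => S.cf h b τ R ((S.D b τ).p i y)) =ᶠ[𝓝 z] fun y =>
        ((Real.smoothTransition (R + 1 - bet b τ ((S.D b τ).p i y)) *
          Real.smoothTransition (2 - 2 * S.T ((S.D b τ).p i y) / τ) : ℝ) : ℂ) *
            h (A.p i (pr1 N r y)) := by
  refine ⟨(nr_ball (nr4_G S hz).2.1 hz.2).1, ?_, ?_⟩
  · exact nsq_smooth.contDiffAt.comp z (smoothAt_of_hol (nr4_G S hz).2.2)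
  · filter_upwards [((S.D b τ).isOpen i).mem_nhds hz] with y hy
    rw [Fam.cf, indicator_of_mem (nr4_mem S hy)]
    rfl

theorem nr4_zero (H : S.Good h b τ C) (R : ℝ) {i : A.ι} {z : E (N + r)} (hz : z ∈ (S.D b τ).W i)
    (hT : τ < S.T ((S.D b τ).p i z)) :
    (fun y => S.cf h b τ R ((S.D b τ).p i y)) =ᶠ[𝓝 z] fun _ => 0 := by
  obtain ⟨-, a2, he⟩ := nr4_loc S h R hz
  filter_upwards [he, a2.continuousAt.eventually (lt_mem_nhds hT)] with y e1 e2
  rw [e1, Real.smoothTransition.zero_of_nonpos (nr4_far H e2).le]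
  simp

theorem nr4_hol (H : S.Good h b τ C) {i : A.ι} {z : E (N + r)} (hz : z ∈ (S.D b τ).W i)
    (hT : S.T ((S.D b τ).p i z) ≤ τ) :
    ∀ᶠ y in 𝓝 z, DifferentiableAt ℂ (fun y => h (A.p i (pr1 N r y))) y := by
  have a0 : ContinuousAt (fun y => S.g (A.p i (pr1 N r y)) - b) z :=
    (nr4_G S hz).1.self_of_nhds.continuousAt.sub continuousAt_const
  have a1 : ContinuousAt (fun y => nsq (S.g (A.p i (pr1 N r y)) - b)) z :=
    ContinuousAt.comp (g := nsq) nsq_smooth.continuous.continuousAt a0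
  have a2 : nsq (S.g (A.p i (pr1 N r z)) - b) < 4 * τ := nr4_near (y := (S.D b τ).p i z) hz.2 hT
  filter_upwards [((S.D b τ).isOpen i).mem_nhds hz, a1.eventually (gt_mem_nhds a2)] with y hy e
  exact (H.hol i _ hy.1.1 hy.1.2 e.le).comp y (pr1 N r).differentiableAt

theorem nr4_cs [CompactSpace X] (H : S.Good h b τ C) (R : ℝ) {F : Type} [Zero F]
    {u : X × E r → F} (h1 : ∀ y, R + 1 - bet b τ y < 0 → u y = 0)
    (h2 : ∀ y, 2 - 2 * S.T y / τ < 0 → u y = 0) :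
    (S.D b τ).Cs ({y | y.1 ∈ S.U ∧ y.2 ∈ Bl b τ}.indicator u) := by
  have hτ := H.τ_le
  have he := Real.exp_pos (-(R + 1))
  have hK : IsCompact {w : E r | nsq (w - b) ≤ τ - Real.exp (-(R + 1))} :=
    (isCompact_closedBall b 1).of_isClosed_subset (isClosed_le
      (nsq_smooth.continuous.comp (continuous_id.sub continuous_const)) continuous_const)
      fun w hw => mem_closedBall_iff_norm.2 (nr4_one (le_trans hw (by linarith)))
  refine ⟨_, (S.cpt (9 * r)).prod hK, ?_, fun y hy => ?_⟩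
  · rintro ⟨x, w⟩ ⟨hx, hw⟩
    obtain ⟨i, z, hz, rfl⟩ := A.cover x
    have hw' : w ∈ Bl b τ := lt_of_le_of_lt hw (sub_lt_self τ he)
    have := Man.mem_M (D := S.D b τ) (i := i) (z := ap z w)
      ⟨by rw [pr1_ap]; exact ⟨hz, hx.1⟩, by rw [pr2_ap]; exact hw'⟩
    have e : (S.D b τ).p i (ap z w) = (A.p i z, w) := by
      show (A.p i (pr1 N r (ap z w)), pr2 N r (ap z w)) = _
      rw [pr1_ap, pr2_ap]
    rwa [e] at this
  by_cases hO : y ∈ {y : X × E r | y.1 ∈ S.U ∧ y.2 ∈ Bl b τ}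
  swap
  · exact indicator_of_notMem hO _
  rw [indicator_of_mem hO]
  have hB : nsq (y.2 - b) < τ := hO.2
  rcases lt_or_ge τ (S.T y) with h3 | h3
  · exact h2 y (nr4_far H h3)
  refine h1 y ?_
  have h4 : τ - nsq (y.2 - b) < Real.exp (-(R + 1)) := by
    by_contra h5
    exact hy ⟨⟨hO.1, nr4_nine H.b_le (h3.trans hτ) (hB.le.trans hτ)⟩,
      show nsq (y.2 - b) ≤ _ by linarith [not_lt.1 h5]⟩
  have h5 := (Real.log_lt_iff_lt_exp (by linarith)).2 h4
  unfold bet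
  linarith

theorem Fam.Good.cf_db [CompactSpace X] [T2Space X] (H : S.Good h b τ C) : ∃ B : ℝ, 0 ≤ B ∧ ∀ R,
    (S.D b τ).S (S.cf h b τ R) ∧ ∃ c : X × E r → ℝ, (S.D b τ).Cc c ∧ (∀ y, 0 ≤ c y) ∧
      (∀ y, c y ≤ (if R ≤ bet b τ y then B else 0) + (if τ ≤ 2 * S.T y then B else 0)) ∧
      ∀ i, ∀ z ∈ (S.D b τ).W i, ∀ v,
        ‖v ⬝ᵥ star (db (fun y => S.cf h b τ R ((S.D b τ).p i y)) z)‖ ^ 2 ≤
          c ((S.D b τ).p i z) * S.Q b τ i z v := by
  obtain ⟨s, D, hD, hsc, hs⟩ := bpe8_step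
  have hτ := H.τ_pos
  obtain ⟨B', hB'⟩ : ∃ B' : ℝ, B' = 8 * (1 + 9 * r) ^ 2 / τ := ⟨_, rfl⟩
  have hB0 : 0 ≤ B' := by rw [hB']; positivity
  have hS : ContDiff ℝ ∞ Real.smoothTransition := Real.smoothTransition.contDiff
  refine ⟨C ^ 2 * 2 * (D * (1 + B')), by positivity, fun R => ?_⟩
  obtain ⟨c₀, hc₀⟩ : ∃ c₀ : X × E r → ℝ, c₀ = fun y => C ^ 2 * 2 *
      (s (R + 1 - bet b τ y) ^ 2 * Real.smoothTransition (2 - 2 * S.T y / τ) ^ 2 +
        Real.smoothTransition (R + 1 - bet b τ y) ^ 2 * s (2 - 2 * S.T y / τ) ^ 2 * B') :=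
    ⟨_, rfl⟩
  have c0 : ∀ y, 0 ≤ c₀ y := fun y => by rw [hc₀]; positivity
  have mem := fun i z hz => nr4_mem S (b := b) (τ := τ) (i := i) (z := z) hz
  have loc := fun i z hz => nr4_loc S h R (b := b) (τ := τ) (i := i) (z := z) hz
  have far := fun i z hz => nr4_zero H R (i := i) (z := z) hz
  have near := fun i z hz => nr4_hol H (i := i) (z := z) hz
  have cs : (S.D b τ).Cs (S.cf h b τ R) := by
    unfold Fam.cf
    refine nr4_cs H R (fun y hy => ?_) fun y hy => ?_ <;>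
    · rw [Real.smoothTransition.zero_of_nonpos hy.le]
      simp
  have cs' : (S.D b τ).Cs ({y : X × E r | y.1 ∈ S.U ∧ y.2 ∈ Bl b τ}.indicator c₀) := by
    refine nr4_cs H R (fun y hy => ?_) fun y hy => ?_ <;>
    · rw [hc₀]
      simp only [Real.smoothTransition.zero_of_nonpos hy.le, (hs _).2.2.1 hy]
      simp
  refine ⟨⟨fun i z hz => ContDiffAt.contDiffWithinAt ?_, cs⟩,
    {y : X × E r | y.1 ∈ S.U ∧ y.2 ∈ Bl b τ}.indicator c₀, ⟨fun i => ?_, cs'⟩,
    fun y => indicator_nonneg (fun y _ => c0 y) y, fun y => ?_, fun i z hz v => ?_⟩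
  · rcases lt_or_ge τ (S.T ((S.D b τ).p i z)) with hT | hT
    · exact contDiffAt_const.congr_of_eventuallyEq (far i z hz hT)
    obtain ⟨a1, a2, he⟩ := loc i z hz
    refine ContDiffAt.congr_of_eventuallyEq ?_ he
    refine ContDiffAt.mul (Complex.ofRealCLM.contDiff.contDiffAt.comp z ?_)
      (smoothAt_of_hol' (near i z hz hT))
    exact (hS.contDiffAt.comp z (contDiffAt_const.sub a1)).mul
      (hS.contDiffAt.comp z (contDiffAt_const.sub ((contDiffAt_const.mul a2).div_const _)))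
  · refine ContinuousOn.congr (f := fun z => c₀ ((S.D b τ).p i z)) (fun z hz => ?_)
      fun z hz => indicator_of_mem (mem i z hz) _
    obtain ⟨a1, a2, -⟩ := loc i z hz
    have b1 : ContinuousAt (fun y => R + 1 - bet b τ ((S.D b τ).p i y)) z :=
      continuousAt_const.sub a1.continuousAt
    have b2 : ContinuousAt (fun y => 2 - 2 * S.T ((S.D b τ).p i y) / τ) z :=
      continuousAt_const.sub ((continuousAt_const.mul a2.continuousAt).div_const _)
    rw [hc₀]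
    exact (continuousAt_const.mul
      ((((hsc.continuousAt.comp b1).pow 2).mul ((hS.continuous.continuousAt.comp b2).pow 2)).add
        ((((hS.continuous.continuousAt.comp b1).pow 2).mul
          ((hsc.continuousAt.comp b2).pow 2)).mul continuousAt_const))).continuousWithinAt
  · by_cases hO : y ∈ {y : X × E r | y.1 ∈ S.U ∧ y.2 ∈ Bl b τ}
    swap
    · rw [indicator_of_notMem hO]
      positivity
    have h2 : s (R + 1 - bet b τ y) ^ 2 * Real.smoothTransition (2 - 2 * S.T y / τ) ^ 2 ≤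
        if R ≤ bet b τ y then D * (1 + B') else 0 := by
      split_ifs with h
      · exact (mul_le_of_le_one_right (sq_nonneg _) (bpe8_sq _)).trans
          ((hs _).2.1.trans (le_mul_of_one_le_right hD (by linarith)))
      · rw [(hs _).2.2.2 (by linarith [not_le.1 h])]
        simp
    have h3 : Real.smoothTransition (R + 1 - bet b τ y) ^ 2 * s (2 - 2 * S.T y / τ) ^ 2 * B' ≤
        if τ ≤ 2 * S.T y then D * (1 + B') else 0 := by
      split_ifs with h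
      · exact mul_le_mul ((mul_le_of_le_one_left (sq_nonneg _) (bpe8_sq _)).trans (hs _).2.1)
          (by linarith) hB0 hD
      · have h4 : 2 * S.T y / τ < 1 := (div_lt_one hτ).2 (not_le.1 h)
        rw [(hs _).2.2.2 (by linarith)]
        simp
    rw [indicator_of_mem hO, hc₀]
    refine (mul_le_mul_of_nonneg_left (add_le_add h2 h3) (by positivity)).trans (le_of_eq ?_)
    split_ifs <;> ring
  · obtain ⟨q1, q2, q3⟩ := S.Q_bd H.b_le H.τ_le hz v
    rw [indicator_of_mem (mem i z hz)]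
    rcases lt_or_ge τ (S.T ((S.D b τ).p i z)) with hT | hT
    · rw [(db_congr (far i z hz hT)).eq_of_nhds, db_const]
      simpa using mul_nonneg (c0 _) q1
    obtain ⟨a1, a2, he⟩ := loc i z hz
    rw [(db_congr he).eq_of_nhds]
    refine (nr4_core R τ (fun t => (hs t).1) (a1.differentiableAt (by simp))
      (a2.differentiableAt (by simp)) (near i z hz hT).self_of_nhds v).trans ?_
    have k1 : ‖h (A.p i (pr1 N r z))‖ ^ 2 ≤ C ^ 2 := pow_le_pow_left₀ (norm_nonneg _)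
      (H.bd _ hz.1.2 (nr4_near (y := (S.D b τ).p i z) hz.2 hT).le) 2
    have k2 : ‖v ⬝ᵥ dr (fun y => S.T ((S.D b τ).p i y)) z‖ ^ 2 ≤
        τ * (2 * (1 + 9 * r) ^ 2 * S.Q b τ i z v) := (nr_grad (nr4_G S hz).2.2 v).trans
      (mul_le_mul hT (q3 (hT.trans H.τ_le)) (nr4_nonneg _) hτ.le)
    have k3 : (2 / τ) ^ 2 * ‖v ⬝ᵥ dr (fun y => S.T ((S.D b τ).p i y)) z‖ ^ 2 ≤
        B' * S.Q b τ i z v := by
      refine (mul_le_mul_of_nonneg_left k2 (sq_nonneg _)).trans (le_of_eq ?_)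
      rw [hB']
      field_simp
      ring
    refine (mul_le_mul k1 (mul_le_mul_of_nonneg_left (add_le_add
      (mul_le_mul_of_nonneg_left q2 (by positivity)) (mul_le_mul_of_nonneg_left k3 (by positivity)))
      zero_le_two) (by positivity) (sq_nonneg C)).trans (le_of_eq ?_)
    rw [hc₀]
    ring

end Pool.Agent.BP
end

-- part Pool.Agent.P.MP_63735c_ag.NR5
section

/-! Holomorphic functions on the product that are close to `h` along the graph. -/

open scoped ComplexOrder ContDiff Matrix Topology ENNReal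
open Set Metric MeasureTheory Filter

namespace Pool.Agent.BP

open Pool.Agent.SPF Pool.Agent.CL Pool.Agent.NL Pool.Agent.CK Pool.Agent.AB Pool.Agent.SE

theorem nr5_rho {a t : ℝ} (ha : 0 < a) (h1 : a ≤ 1) (h : a ≤ t) :
    Real.log a ≤ rho (Real.log t) := by
  rcases (rho_bd (Real.log t)).1.lt_or_eq with h0 | h0
  · exact (Real.log_le_log ha h).trans ((rho_bd _).2.2.1 h0)
  · rw [h0]
    exact Real.log_nonpos ha.le h1

theorem nr5_nsq {r : ℕ} (w : E r) : 0 ≤ nsq w := Finset.sum_nonneg fun _ _ => sq_nonneg _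

theorem nr5_vol {r : ℕ} (b : E r) {τ : ℝ} (h : τ ≤ 1) : volume (Bl b τ) ≠ ⊤ := by
  refine ((measure_mono fun w hw => ?_).trans_lt (measure_closedBall_lt_top (x := b) (r := 1))).ne
  rw [mem_closedBall, dist_eq_norm, pi_norm_le_iff_of_nonneg zero_le_one]
  intro a
  have h1 : ‖(w - b) a‖ ^ 2 ≤ nsq (w - b) :=
    Finset.single_le_sum (f := fun a => ‖(w - b) a‖ ^ 2) (fun _ _ => sq_nonneg _)
      (Finset.mem_univ a)
  have h2 : nsq (w - b) < τ := hw
  nlinarith [norm_nonneg ((w - b) a)]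

theorem nr_out (r γ : ℕ) : ∃ j : ℕ, 1 ≤ j ∧ ∀ {N : ℕ} {X : Type} [TopologicalSpace X]
    [MeasurableSpace X] [BorelSpace X] [T2Space X] [CompactSpace X] {A : Atlas X N} {L : Line A}
    {k : ℕ} {μ : Measure X} {K : Form11 A} (S : Fam L k r) (h : X → ℂ) (b : E r) (τ C : ℝ),
    IsVolume A μ → (∀ i, ∀ z ∈ (A.C i).W, (K.h i z).PosDef) → S.Good h b τ C →
      ∃ C₀ : ℝ, 0 < C₀ ∧ ∀ ε, 0 < ε → ε ≤ 1 → ∀ R₀, ∃ R, R₀ ≤ R ∧ ∃ G, (S.D b τ).Hol G ∧
        ∀ i, S.dist j γ ε b τ G (S.cf h b τ R) i ≤ ENNReal.ofReal C₀ := by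
  obtain ⟨j, hj, hΦ⟩ := Φ_lev r γ
  refine ⟨j, hj, ?_⟩
  intro N X _ _ _ _ _ A L k μ K S h b τ C hμ hK H
  obtain ⟨B, hB, hcf⟩ := H.cf_db
  obtain ⟨K', k1, k2, k3⟩ := S.cut hK b H.τ_pos
  have hτ := H.τ_pos
  have hτ1 := H.τ_le
  have hfin : μ univ ≠ ⊤ := by
    have := vol_finite hμ
    exact measure_ne_top μ _
  have hv := ENNReal.mul_ne_top hfin (nr5_vol b hτ1)
  obtain ⟨C₁, hC₁⟩ : ∃ C₁, C₁ = B + B * Real.exp (-(γ * Real.log (τ / 2))) := ⟨_, rfl⟩
  have hC0 : 0 ≤ C₁ := by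
    rw [hC₁]
    positivity
  refine ⟨C₁ * (μ univ * volume (Bl b τ)).toReal + 1, by positivity, fun ε hε hε1 R₀ => ?_⟩
  refine ⟨max R₀ (-(γ * Real.log ε)), le_max_left _ _, ?_⟩
  obtain ⟨hs, c, hc, hc0, hcb, hsc⟩ := hcf (max R₀ (-(γ * Real.log ε)))
  obtain ⟨sm, hl⟩ := hΦ S b τ ε H.b_le hτ1 hε
  obtain ⟨G, hG, hd⟩ := S.l2 hμ k1 k2 k3 sm
    (fun i z hz v => (S.Q_bd H.b_le hτ1 hz v).1.trans (hl i z hz v)) hs hc hc0
    (fun i z hz v => (hsc i z hz v).trans (mul_le_mul_of_nonneg_left (hl i z hz v) (hc0 _)))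
    (C := C₁) fun y _ hy => by
      have hy' : nsq (y.2 - b) < τ := hy
      have p1 : 0 ≤ S.φ y.1 := Real.log_nonneg (by linarith [nr5_nsq (S.g y.1)])
      have p2 : 0 ≤ bet b τ y := neg_nonneg.2 (Real.log_nonpos (by linarith)
        (by linarith [nr5_nsq (y.2 - b)]))
      have p3 : 0 ≤ S.T y := nr5_nsq _
      have hj' : (1 : ℝ) ≤ j := by exact_mod_cast hj
      have hγ : (0 : ℝ) ≤ γ := Nat.cast_nonneg _
      have p4 : 0 ≤ (j : ℝ) * S.φ y.1 := by positivity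
      have p5 : bet b τ y ≤ j * bet b τ y := le_mul_of_one_le_left p2 hj'
      have q1 : (if max R₀ (-(γ * Real.log ε)) ≤ bet b τ y then B else 0) *
          Real.exp (-S.Φ j γ ε b τ y) ≤ B := by
        split_ifs with hR
        · refine mul_le_of_le_one_right hB (Real.exp_le_one_iff.2 ?_)
          have := mul_le_mul_of_nonneg_left (nr5_rho hε hε1 (t := S.T y + ε) (by linarith)) hγ
          have := le_max_right R₀ (-(γ * Real.log ε))
          unfold Fam.Φ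
          linarith
        · rwa [zero_mul]
      have q2 : (if τ ≤ 2 * S.T y then B else 0) * Real.exp (-S.Φ j γ ε b τ y) ≤
          B * Real.exp (-(γ * Real.log (τ / 2))) := by
        split_ifs with hT
        · refine mul_le_mul_of_nonneg_left (Real.exp_le_exp.2 ?_) hB
          have := mul_le_mul_of_nonneg_left (nr5_rho (a := τ / 2) (by linarith) (by linarith)
            (t := S.T y + ε) (by linarith)) hγ
          unfold Fam.Φ
          linarith
        · rw [zero_mul]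
          positivity
      have q3 := mul_le_mul_of_nonneg_right (hcb y) (Real.exp_pos (-S.Φ j γ ε b τ y)).le
      rw [add_mul] at q3
      rw [hC₁]
      linarith
  refine ⟨G, hG, fun i => (hd i).trans ?_⟩
  rw [← ENNReal.ofReal_toReal hv, ← ENNReal.ofReal_mul hC0, ENNReal.toReal_ofReal
    ENNReal.toReal_nonneg]
  exact ENNReal.ofReal_le_ofReal (by linarith)

end Pool.Agent.BP
end
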