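import Pool.Agent.K.MP_63735c_ag.C356
import Pool.Agent.K.MP_63735c_ag.C35
import Pool.Agent.K.MP_63735c_ag.C310
import Pool.Agent.K.MP_63735c_ag.C311
import Pool.Agent.K.MP_63735c_ag.C301
import Pool.Agent.K.MP_63735c_ag.C353
import Pool.Agent.K.MP_63735c_ag.C321
import Pool.Agent.K.MP_63735c_ag.C344
import Pool.Agent.K.MP_63735c_ag.C349

-- part Pool.Agent.P.MP_63735c_ag.SN1
section

/-! The estimate on the product and a complete metric. -/

open scoped ComplexOrder ContDiff Matrix Topology ENNReal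
open Set Metric MeasureTheory Filter

namespace Pool.Agent.ZB

open Pool.Agent.BP Pool.Agent.SPF Pool.Agent.AB Pool.Agent.CK Pool.Agent.SE Pool.Agent.NL
  Pool.Agent.CS

variable {N r : ℕ} {X : Type} [TopologicalSpace X] [MeasurableSpace X] {A : Atlas X N}
  {μ : Measure X} {L : Line A}

theorem pd_M (U : Up A μ L) (b : E r) (τ : ℝ) (y : X × E r) :
    y ∈ (pD U b τ).M ↔ y.1 ∈ U.W ∧ y.2 ∈ Bl b τ := by
  rw [nr3_mem, man_M]

theorem pd_l2 [BorelSpace X] [T2Space X] [IsFiniteMeasure μ] (U : Up A μ L) (hμ : IsVolume A μ)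
    {b : E r} {τ : ℝ} (hτ : τ ≤ 1) {K : A.ι → E (N + r) → Mat (N + r)}
    (h1 : ∀ i, Kah ((pD U b τ).W i) (K i)) (h2 : (pD U b τ).Cpt K) (h3 : (pD U b τ).Cut K)
    {Φ : X × E r → ℝ} (hΦ : (pD U b τ).Smo Φ)
    (hp : ∀ i, ∀ z ∈ (pD U b τ).W i, ∀ v, 0 ≤ hr ((pD U b τ).levG Φ i z) v)
    {s : X × E r → ℂ} (hs : (pD U b τ).S s) {c : X × E r → ℝ} (hc : (pD U b τ).Cc c)
    (hc0 : ∀ y, 0 ≤ c y)
    (hsc : ∀ i, ∀ z ∈ (pD U b τ).W i, ∀ v, ‖v ⬝ᵥ star (db (fun y => s ((pD U b τ).p i y)) z)‖ ^ 2 ≤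
      c ((pD U b τ).p i z) * hr ((pD U b τ).levG Φ i z) v) {f : X → ℝ≥0∞}
    (hC : ∀ y, y.1 ∈ U.W → y.2 ∈ Bl b τ → ENNReal.ofReal (c y * Real.exp (-Φ y)) ≤ f y.1) :
    ∃ G, (pD U b τ).Hol G ∧ ∀ i, ∫⁻ z in (pD U b τ).W i,
      ENNReal.ofReal (Real.exp (-Φ ((pD U b τ).p i z)) * ‖((A.C i).σ (pr1 N r z)).det‖ *
        ‖G ((pD U b τ).p i z) - s ((pD U b τ).p i z)‖ ^ 2) ≤
      (∫⁻ x in U.W, f x ∂μ) * volume (Bl b τ) := by
  let Ψ₀ : A.ι → E N → ℝ := fun i z => (-1) * Real.log ‖((A.C i).σ z).det‖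
  have hΨ₀ : ∀ i, ∀ z ∈ (A.C i).W, ContDiffAt ℝ ∞ (Ψ₀ i) z ∧ lev (Ψ₀ i) z = 0 := fun i z hz =>
    ⟨contDiffAt_const.mul (abd_det (A.C i) hz).1, by
      rw [lev_smul (abd_det (A.C i) hz).1, (abd_det (A.C i) hz).2, smul_zero]⟩
  have hw₀ : ∀ i, ∀ z ∈ (A.C i).W, wt (Ψ₀ i) z = ‖((A.C i).σ z).det‖ := by
    intro i z hz
    simp only [wt, Ψ₀, neg_mul, one_mul, neg_neg]
    exact Real.exp_log (norm_pos_iff.2 ((A.C i).σ_det z hz))
  have hd₀ : (U.D).Den μ Ψ₀ := by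
    intro i T hT hm
    refine (hμ i T (hT.trans inter_subset_left) hm).trans
      (setLIntegral_congr_fun hm fun z hz => ?_)
    rw [hw₀ i z (hT hz).1, ofReal_norm]
  obtain ⟨G, hG, hb⟩ := l2_man (mprod_den hd₀ (fun i z hz =>
    (hΨ₀ i z hz.1).1.continuousAt.continuousWithinAt) (Bl_open b τ)) (fun i z hz =>
      ⟨(hΨ₀ i _ hz.1.1).1.comp z ((pr1 N r).restrictScalars ℝ).contDiff.contDiffAt, by
        rw [lev_comp (hΨ₀ i _ hz.1.1).1 (Eventually.of_forall fun _ => (pr1 N r).differentiableAt),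
          (hΨ₀ i _ hz.1.1).2, Matrix.mul_zero, Matrix.zero_mul]⟩) h1 h2 h3 hΦ hp hs hc hc0 hsc
  refine ⟨G, hG, fun i => le_trans (le_of_eq ?_) ((hb i).trans ?_)⟩
  · refine setLIntegral_congr_fun ((pD U b τ).isOpen i).measurableSet fun z hz => ?_
    simp only [← hw₀ i _ hz.1.1]
    rfl
  · rw [mprod_M, man_M]
    refine (setLIntegral_mono' (g := fun y => f y.1)
      (U.hW.measurableSet.prod (Bl_open b τ).measurableSet) fun y hy => hC y hy.1 hy.2).trans ?_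
    rw [← Measure.prod_restrict]
    refine (lintegral_prod_le _).trans_eq ?_
    simp only [lintegral_const, Measure.restrict_apply_univ]
    exact lintegral_mul_const' _ _ (nr5_vol b hτ)

theorem sn1_lam (U : Up A μ L) {K : Form11 A}
    (hK : ∀ i, ∀ z ∈ (A.C i).W, (K.h i z).PosDef) (hB : Bd11 A K) :
    ∃ (K' : A.ι → E N → Mat N) (C : ℝ), (∀ i, Kah (U.D.W i) (K' i)) ∧ U.D.Cpt K' ∧ 0 ≤ C ∧
      ∀ i, ∀ z ∈ U.D.W i, ∀ v, |hr (lev (fun y => U.l (A.p i y)) z) v| ≤ C * hr (K' i z) v ∧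
        ‖v ⬝ᵥ dr (fun y => U.l (A.p i y)) z‖ ^ 2 ≤ hr (K' i z) v := by
  obtain ⟨hl, -, H0⟩ := U.l_calc
  obtain ⟨C₀, hC₀, hb⟩ := hB
  obtain ⟨C, hCe⟩ : ∃ C, C = U.M * C₀ := ⟨_, rfl⟩
  have hC : 0 ≤ C := hCe ▸ mul_nonneg U.M_nonneg hC₀
  have H : ∀ i, ∀ z ∈ U.D.W i, ∀ v, (hq (lev (fun y => U.l (A.p i y)) z) v v).re +
      ‖v ⬝ᵥ dr (fun y => U.l (A.p i y)) z‖ ^ 2 ≤ C * (hq (K.h i z) v v).re := by
    intro i z hz v
    refine (H0 i z hz v).trans ?_
    have a := (le_abs_self _).trans (hb i z hz.1 v)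
    rw [ev11_hq, ev11_hq] at a
    rw [hCe, mul_assoc]
    exact mul_le_mul_of_nonneg_left (by linarith) U.M_nonneg
  have hs : ∀ i, ∀ z ∈ U.D.W i, ContDiffAt ℝ ∞ (fun y => U.l (A.p i y)) z := fun i z hz =>
    (hl i).contDiffAt ((U.D.isOpen i).mem_nhds hz)
  have hv : ∀ i z v, (hq (((C + 1 : ℝ) : ℂ) • K.h i z +
      ((-1 : ℝ) : ℂ) • lev (fun y => U.l (A.p i y)) z) v v).re =
      (C + 1) * (hq (K.h i z) v v).re - (hq (lev (fun y => U.l (A.p i y)) z) v v).re := by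
    intro i z v
    rw [hq_add, hq_smul, hq_smul, Complex.add_re, Complex.re_ofReal_mul, Complex.re_ofReal_mul]
    ring
  refine ⟨fun i z => ((C + 1 : ℝ) : ℂ) • K.h i z + ((-1 : ℝ) : ℂ) • lev (fun y => U.l (A.p i y)) z,
    C + 1, fun (i : A.ι) => ?_, fun i j z hz φ hφ => ?_, by linarith, ?_⟩
  · have hW := U.D.isOpen i
    have s1 : ∀ a b, ContDiffOn ℝ ∞ (fun z => K.h i z a b) (U.D.W i) :=
      fun a b => (K.smooth i a b).mono inter_subset_left
    have s2 := lev_smooth hW (hl i)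
    refine ⟨fun a b => (contDiffOn_const.mul (s1 a b)).add (contDiffOn_const.mul (s2 a b)),
      fun z hz => posDef_of_hq ?_ fun v hv0 => ?_, fun z hz a b c => ?_⟩
    · exact ((K.herm i z hz.1).smul (Complex.conj_ofReal _)).add
        ((lev_herm (hs i z hz)).smul (Complex.conj_ofReal _))
    · have := H i z hz v
      have := hq_pos (hK i z hz.1) hv0
      refine lt_of_lt_of_eq ?_ (hv i z v).symm
      nlinarith [sq_nonneg ‖v ⬝ᵥ dr (fun y => U.l (A.p i y)) z‖]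
    · have key : ∀ a b c, dz c (fun w => (((C + 1 : ℝ) : ℂ) • K.h i w +
          ((-1 : ℝ) : ℂ) • lev (fun y => U.l (A.p i y)) w) a b) z =
          ((C + 1 : ℝ) : ℂ) * dz c (fun w => K.h i w a b) z +
            ((-1 : ℝ) : ℂ) * dz c (fun w => lev (fun y => U.l (A.p i y)) w a b) z := by
        intro a b c
        have d1 := diffAt hW (s1 a b) hz
        have d2 := diffAt hW (s2 a b) hz
        refine (dz_add (d1.const_mul _) (d2.const_mul _) c).1.trans ?_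
        rw [(dz_mul (differentiableAt_const _) d1 c).1, (dz_mul (differentiableAt_const _) d2 c).1,
          (dz_const c _).1, (dz_const c _).1, zero_mul, zero_mul, zero_add, zero_add]
        rfl
      rw [key, key, K.closed i z hz.1, lev_closed (hs i z hz)]
  · have e1 := man_cpt_form (hinj := U.hinj) (hM := U.hW) K i j z hz φ hφ
    have e2 := Man.levG_cpt hl i j z hz φ hφ
    simp only [Matrix.mul_add, Matrix.add_mul, Matrix.mul_smul, Matrix.smul_mul]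
    rw [← e1]
    exact congrArg (fun m => ((C + 1 : ℝ) : ℂ) • K.h i z + ((-1 : ℝ) : ℂ) • m) e2
  · intro (i : A.ι) z hz v
    have a1 := H i z hz v
    have a2 := hq_nonneg (hK i z hz.1).posSemidef v
    have a3 := sq_nonneg ‖v ⬝ᵥ dr (fun y => U.l (A.p i y)) z‖
    simp only [hr]
    rw [hv]
    generalize (hq (lev (fun y => U.l (A.p i y)) z) v v).re = m at *
    generalize (hq (K.h i z) v v).re = κ at *
    generalize ‖v ⬝ᵥ dr (fun y => U.l (A.p i y)) z‖ ^ 2 = n at *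
    have a4 : κ ≤ (C + 1) * κ - m := by linarith
    have a5 := mul_le_mul_of_nonneg_left a4 hC
    have a6 := mul_nonneg hC a2
    exact ⟨abs_le.2 ⟨by nlinarith, by nlinarith⟩, by linarith⟩

theorem pd_cut [T2Space X] (U : Up A μ L) {K₀ : Form11 A}
    (hK : ∀ i, ∀ z ∈ (A.C i).W, (K₀.h i z).PosDef) (hB : Bd11 A K₀) (b : E r) {τ : ℝ} (hτ : 0 < τ) :
    ∃ K' : A.ι → E (N + r) → Mat (N + r), (∀ i, Kah ((pD U b τ).W i) (K' i)) ∧
      (pD U b τ).Cpt K' ∧ (pD U b τ).Cut K' := by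
  obtain ⟨K, C, k1, k2, hC, k3⟩ := sn1_lam U hK hB
  obtain ⟨hl1, hl0, -⟩ := U.l_calc
  obtain ⟨l, hl⟩ : ∃ l : X × E r → ℝ, l = fun y =>
    (1 / 2 : ℝ) * (U.l y.1 + bet b τ y) + Real.log τ / 2 := ⟨_, rfl⟩
  have key : ∀ (i : A.ι), ∀ z ∈ (pD U b τ).W i,
      ContDiffAt ℝ ∞ (fun y => l ((pD U b τ).p i y)) z ∧
      ContDiffAt ℝ ∞ (fun y => bet b τ ((pD U b τ).p i y)) z ∧ ∀ v,
        0 ≤ hr ((pD U b τ).levG (bet b τ) i z) v ∧
        |hr ((pD U b τ).levG l i z) v| ≤ (C + 1) * (hr (K i (pr1 N r z)) (pr1 N r v) +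
          hr ((pD U b τ).levG (bet b τ) i z) v) ∧
        ‖v ⬝ᵥ dr (fun y => l ((pD U b τ).p i y)) z‖ ^ 2 ≤ hr (K i (pr1 N r z)) (pr1 N r v) +
          hr ((pD U b τ).levG (bet b τ) i z) v ∧
        (pr2 N r v ≠ 0 → 0 < hr ((pD U b τ).levG (bet b τ) i z) v) := by
    intro i z hz
    have hG : ∀ᶠ w in 𝓝 z, DifferentiableAt ℂ (fun y => pr2 N r y - b) w :=
      Eventually.of_forall fun w => (pr2 N r).differentiableAt.sub_const b
    obtain ⟨s2, a2⟩ := nr_ball hG (show nsq (pr2 N r z - b) < τ from hz.2)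
    obtain ⟨s3, a3⟩ := sn0_pr (r := r) (z := z) (f := fun y => U.l (A.p i y))
      ((hl1 i).contDiffAt ((U.D.isOpen i).mem_nhds hz.1))
    subst hl
    refine ⟨(contDiffAt_const.mul (s3.add s2)).add contDiffAt_const, s2, fun v => ?_⟩
    obtain ⟨c4, c5⟩ := nr3_half s3 s2 (Real.log τ / 2) v
    have c7 := a2 v
    rw [fderiv_sub_const, (pr2 N r).fderiv] at c7
    have hpos : 0 < τ - nsq (pr2 N r z - b) := sub_pos.2 hz.2
    have c8 : 0 ≤ nsq (pr2 N r v) / (τ - nsq (pr2 N r z - b)) := div_nonneg (nr3_nsq _) hpos.le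
    have c9 : pr2 N r v ≠ 0 → 0 < nsq (pr2 N r v) / (τ - nsq (pr2 N r z - b)) := fun h =>
      div_pos ((pow_pos (norm_pos_iff.2 h) 2).trans_le (norm_sq_le_nsq _)) hpos
    have c11 := sq_nonneg ‖v ⬝ᵥ dr (fun w => -Real.log (τ - nsq (pr2 N r w - b))) z‖
    obtain ⟨d1, d2⟩ := k3 i _ hz.1 (pr1 N r v)
    have d3 := hq_nonneg ((k1 i).pos _ hz.1).posSemidef (pr1 N r v)
    rw [(a3 v).1] at c4
    rw [(a3 v).2] at c5
    have e : hr ((pD U b τ).levG (bet b τ) i z) v =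
        hr (lev (fun w => -Real.log (τ - nsq (pr2 N r w - b))) z) v := rfl
    rw [e]
    obtain ⟨d4, d5⟩ := abs_le.1 d1
    have d6 := mul_nonneg hC (show 0 ≤ hr (lev (fun w =>
      -Real.log (τ - nsq (pr2 N r w - b))) z) v by linarith)
    have d7 := mul_nonneg hC d3
    refine ⟨by linarith, ?_, c5.trans (by linarith), fun h => by linarith [c9 h]⟩
    exact le_of_eq_of_le (congrArg abs c4) (abs_le.2 ⟨by linarith, by linarith⟩)
  have sl : (pD U b τ).Smo l := fun i z hz => (key i z hz).1.contDiffWithinAt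
  have sΨ : (pD U b τ).Smo (bet b τ) := fun i z hz => (key i z hz).2.1.contDiffWithinAt
  have hv : ∀ (i : A.ι) z v, hr ((jac (pr1 N r) z)ᵀ * K i (pr1 N r z) *
      (jac (pr1 N r) z).map star + (pD U b τ).levG (bet b τ) i z) v =
      hr (K i (pr1 N r z)) (pr1 N r v) + hr ((pD U b τ).levG (bet b τ) i z) v := by
    intro i z v
    rw [hr, hq_add, Complex.add_re, hq_conj, bpt2_jac, (pr1 N r).fderiv]
  have hM := pd_M U b τ
  refine ⟨fun i z => (jac (pr1 N r) z)ᵀ * K i (pr1 N r z) * (jac (pr1 N r) z).map star +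
    (pD U b τ).levG (bet b τ) i z, fun (i : A.ι) => ?_, fun i j z hz f hf => ?_,
    cut_of_lam (C := C + 1) (by linarith) sl (fun y hy => ?_) (fun c => ?_) ?_⟩
  · have hW := (pD U b τ).isOpen i
    have s1 : ∀ a b', ContDiffOn ℝ ∞ (fun z => ((jac (pr1 N r) z)ᵀ * K i (pr1 N r z) *
        (jac (pr1 N r) z).map star) a b') ((pD U b τ).W i) := by
      intro a b'
      simp only [Matrix.mul_apply, fun z => nr3_jac (pr1 N r) z 0]
      refine ContDiffOn.sum fun c _ => ContDiffOn.mul (ContDiffOn.sum fun e _ =>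
        contDiffOn_const.mul ?_) contDiffOn_const
      exact ((k1 i).smooth e c).comp ((pr1 N r).restrictScalars ℝ).contDiff.contDiffOn
        fun z hz => hz.1
    have s2 := lev_smooth hW (sΨ i)
    refine ⟨fun a b' => (s1 a b').add (s2 a b'),
      fun z hz => posDef_of_hq ?_ fun v hv0 => ?_, fun z hz a b' c => ?_⟩
    · refine Matrix.IsHermitian.add ?_ (lev_herm (key i z hz).2.1)
      have e := Matrix.isHermitian_mul_mul_conjTranspose (jac (pr1 N r) z)ᵀ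
        ((k1 i).pos _ hz.1).1
      exact e
    · refine lt_of_lt_of_eq ?_ (hv i z v).symm
      obtain ⟨c1, -, -, c3⟩ := (key i z hz).2.2 v
      by_cases h2 : pr2 N r v = 0
      · have h1 : pr1 N r v ≠ 0 := fun h1 => hv0 (by
          rw [← ap_pr v, h1, h2]
          exact map_zero (spl N r).symm)
        exact add_pos_of_pos_of_nonneg (hq_pos ((k1 i).pos _ hz.1) h1) c1
      · exact add_pos_of_nonneg_of_pos (hq_nonneg ((k1 i).pos _ hz.1).posSemidef _) (c3 h2)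
    · have e1 := kah_pull (U.D.isOpen i) (k1 i)
        (F := pr1 N r) (y := z) (Eventually.of_forall fun _ => (pr1 N r).differentiableAt)
        hz.1 a b' c
      have e2 := lev_closed (key i z hz).2.1 a b' c
      exact (dz_add (diffAt hW (s1 a b') hz) (diffAt hW (s2 a b') hz) c).1.trans
        ((congrArg₂ (· + ·) e1 e2).trans
          (dz_add (diffAt hW (s1 c b') hz) (diffAt hW (s2 c b') hz) a).1.symm)
  · have e1 := nr3_cpt (Bl_open b τ) k2 i j z hz f hf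
    have e2 := Man.levG_cpt sΨ i j z hz f hf
    rw [Matrix.mul_add, Matrix.add_mul]
    exact congrArg₂ (· + ·) e1 e2
  · have h2 : nsq (y.2 - b) < τ := ((hM y).1 hy).2
    have a1 := hl0 _ ((hM y).1 hy).1
    have a2 : Real.log (τ - nsq (y.2 - b)) ≤ Real.log τ :=
      Real.log_le_log (by linarith) (by linarith [nr3_nsq (y.2 - b)])
    rw [hl]
    simp only [bet]
    linarith
  · have he : 0 < τ * Real.exp (-(2 * c)) := mul_pos hτ (Real.exp_pos _)
    refine ⟨{x | x ∈ U.W ∧ -Real.exp (2 * c) ≤ U.ψ x} ×ˢ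
      {w | nsq (w - b) ≤ τ - τ * Real.exp (-(2 * c))}, (U.ψ_cpt _).prod (nr3_ball b _),
      fun y hy => (hM y).2 ⟨hy.1.1, ?_⟩, fun y hy hw => ?_⟩
    · have h2 : nsq (y.2 - b) ≤ τ - τ * Real.exp (-(2 * c)) := hy.2
      show nsq (y.2 - b) < τ
      linarith
    · obtain ⟨h1, h2⟩ := (hM y).1 hw
      have h2' : nsq (y.2 - b) < τ := h2
      have a1 := hl0 _ h1
      have a2 : Real.log (τ - nsq (y.2 - b)) ≤ Real.log τ :=
        Real.log_le_log (by linarith) (by linarith [nr3_nsq (y.2 - b)])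
      rw [hl]
      simp only [bet]
      by_cases h3 : -Real.exp (2 * c) ≤ U.ψ y.1
      · have h4 : τ - τ * Real.exp (-(2 * c)) < nsq (y.2 - b) :=
          lt_of_not_ge fun h => hy ⟨⟨h1, h3⟩, h⟩
        have a3 : Real.log (τ - nsq (y.2 - b)) < Real.log (τ * Real.exp (-(2 * c))) :=
          Real.log_lt_log (by linarith) (by linarith)
        rw [Real.log_mul hτ.ne' (Real.exp_ne_zero _), Real.log_exp] at a3
        linarith
      · have a4 : 2 * c < U.l y.1 :=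
          (Real.lt_log_iff_exp_lt (by linarith [U.ψ_le _ h1])).2 (by linarith [not_le.1 h3])
        linarith
  · intro (i : A.ι) z hz v
    obtain ⟨-, c1, c2, -⟩ := (key i z hz).2.2 v
    have c4 := hv i z v
    exact ⟨le_of_le_of_eq c1 (congrArg _ c4.symm), le_of_le_of_eq c2 c4.symm⟩

end Pool.Agent.ZB
end

-- part Pool.Agent.P.MP_63735c_ag.SN2
section

/-! The curvature of the weight. -/

open scoped ComplexOrder ContDiff Matrix Topology ENNReal
open Set Metric MeasureTheory Filter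

namespace Pool.Agent.ZB

open Pool.Agent.BP Pool.Agent.SPF Pool.Agent.AB Pool.Agent.CK Pool.Agent.SE Pool.Agent.NL

variable {N r : ℕ} {X : Type} [TopologicalSpace X] [MeasurableSpace X] {A : Atlas X N}
  {μ : Measure X} {L : Line A} {U : Up A μ L} {k : ℕ}

/-- The first part of the form that is dominated by the curvature. -/
noncomputable def Gm.Q (S : Gm U r) (b : E r) (τ : ℝ) (i : A.ι) (z v : E (N + r)) : ℝ :=
  hr ((pD U b τ).levG (fun y => S.φ y.1) i z) v + hr ((pD U b τ).levG (bet b τ) i z) v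

/-- The second part. -/
noncomputable def QP (U : Up A μ L) (r : ℕ) (i : A.ι) (z v : E (N + r)) : ℝ :=
  ‖v ⬝ᵥ dr (fun y => U.l2 (A.p i (pr1 N r y))) z‖ ^ 2

theorem sn2_G (S : Gm U r) {b : E r} {τ : ℝ} {i : A.ι} {z : E (N + r)}
    (hz : z ∈ (pD U b τ).W i) :
    (∀ᶠ w in 𝓝 z, DifferentiableAt ℂ (fun y => S.g (A.p i (pr1 N r y))) w) ∧
      (∀ᶠ w in 𝓝 z, DifferentiableAt ℂ (fun y => pr2 N r y - b) w) ∧
      ∀ᶠ w in 𝓝 z, DifferentiableAt ℂ (fun y => S.g (A.p i (pr1 N r y)) - pr2 N r y) w := by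
  have h : ∀ᶠ w in 𝓝 z, DifferentiableAt ℂ (fun y => S.g (A.p i (pr1 N r y))) w :=
    ((pr1 N r).continuous.continuousAt.eventually (S.g_hol hz.1)).mono fun w hw =>
      hw.comp w (pr1 N r).differentiableAt
  exact ⟨h, Eventually.of_forall fun w => (pr2 N r).differentiableAt.sub_const b,
    h.mono fun w hw => hw.sub (pr2 N r).differentiableAt⟩

theorem Gm.Q_bd (S : Gm U r) {b : E r} {τ : ℝ} (hb : ‖b‖ ≤ 1) (h1 : τ ≤ 1) {i : A.ι}
    {z : E (N + r)} (hz : z ∈ (pD U b τ).W i) (v : E (N + r)) : 0 ≤ S.Q b τ i z v ∧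
      ‖v ⬝ᵥ dr (fun y => bet b τ ((pD U b τ).p i y)) z‖ ^ 2 ≤ S.Q b τ i z v ∧
      (S.T ((pD U b τ).p i z) ≤ 1 →
        nsq (fderiv ℂ (fun y => S.g (A.p i (pr1 N r y)) - pr2 N r y) z v) ≤
          2 * (1 + 9 * r) ^ 2 * S.Q b τ i z v) := by
  obtain ⟨g1, g2, -⟩ := sn2_G S hz
  have a1 : nsq (fderiv ℂ (fun y => S.g (A.p i (pr1 N r y))) z v) ≤
      (1 + nsq (S.g (A.p i (pr1 N r z)))) ^ 2 * hr ((pD U b τ).levG (fun y => S.φ y.1) i z) v :=
    (nr_fs g1).2 v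
  have hB : nsq (pr2 N r z - b) < τ := hz.2
  have a2 : hr ((pD U b τ).levG (bet b τ) i z) v =
      nsq (fderiv ℂ (fun y => pr2 N r y - b) z v) / (τ - nsq (pr2 N r z - b)) +
        ‖v ⬝ᵥ dr (fun y => bet b τ ((pD U b τ).p i y)) z‖ ^ 2 := (nr_ball g2 hB).2 v
  rw [fderiv_sub_const, (pr2 N r).fderiv] at a2
  have n1 := nr4_nonneg (S.g (A.p i (pr1 N r z)))
  have n2 := nr4_nonneg (pr2 N r z - b)
  have n3 := nr4_nonneg (pr2 N r v)
  have a3 : 0 ≤ hr ((pD U b τ).levG (fun y => S.φ y.1) i z) v :=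
    nonneg_of_mul_nonneg_right ((nr4_nonneg _).trans a1) (by positivity)
  have a4 : nsq (pr2 N r v) ≤ nsq (pr2 N r v) / (τ - nsq (pr2 N r z - b)) :=
    le_div_self n3 (by linarith) (by linarith)
  have a5 := sq_nonneg ‖v ⬝ᵥ dr (fun y => bet b τ ((pD U b τ).p i y)) z‖
  unfold Gm.Q
  refine ⟨by linarith, by linarith, fun hT => ?_⟩
  have b1 : nsq (S.g (A.p i (pr1 N r z))) ≤ 9 * r := nr4_nine hb hT (hB.le.trans h1)
  rw [fderiv_fun_sub g1.self_of_nhds (pr2 N r).differentiableAt, (pr2 N r).fderiv,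
    sub_apply]
  refine (nr4_sub _ _).trans ?_
  have b2 : (1 + nsq (S.g (A.p i (pr1 N r z)))) ^ 2 ≤ (1 + 9 * r) ^ 2 := by gcongr
  have b3 := mul_le_mul_of_nonneg_right b2 a3
  have b4 : (1 : ℝ) ≤ (1 + 9 * r) ^ 2 := one_le_pow₀ (by linarith)
  have b5 := mul_le_mul_of_nonneg_right b4
    (show 0 ≤ hr ((pD U b τ).levG (bet b τ) i z) v by linarith)
  linarith

theorem sn2_lev (r γ : ℕ) : ∃ j : ℕ, 1 ≤ j ∧ ∀ {N : ℕ} {X : Type} [TopologicalSpace X]
    [MeasurableSpace X] {A : Atlas X N} {μ : Measure X} {L : Line A} {U : Up A μ L} (S : Gm U r)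
    (k : ℕ) (b : E r) (τ ε : ℝ), U.M ≤ k → ‖b‖ ≤ 1 → τ ≤ 1 →
    0 < ε → (pD U b τ).Smo (S.Φ j k γ ε b τ) ∧ ∀ i, ∀ z ∈ (pD U b τ).W i, ∀ v,
      S.Q b τ i z v + QP U r i z v ≤ hr ((pD U b τ).levG (S.Φ j k γ ε b τ) i z) v := by
  obtain ⟨D, hD, hl⟩ := nr_lam
  refine ⟨⌈γ * (D * (2 * (1 + 9 * r : ℝ) ^ 2))⌉₊ + 1, by omega, ?_⟩
  intro N X _ _ A μ L U S k b τ ε hk hb h1 hε
  obtain ⟨j, hj⟩ : ∃ j : ℕ, j = ⌈γ * (D * (2 * (1 + 9 * r : ℝ) ^ 2))⌉₊ + 1 := ⟨_, rfl⟩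
  have hj' : γ * (D * (2 * (1 + 9 * r : ℝ) ^ 2)) + 1 ≤ j := by
    rw [hj]
    push_cast
    linarith [Nat.le_ceil (γ * (D * (2 * (1 + 9 * r : ℝ) ^ 2)))]
  rw [← hj]
  obtain ⟨u1, u2, -, -, u3⟩ := U.l2_calc
  have lw : ∀ i, ∀ z ∈ (pD U b τ).W i, ContDiffAt ℝ ∞
      (fun y => k * U.φ (A.p i (pr1 N r y)) + (1 + U.l (A.p i (pr1 N r y)))⁻¹) z ∧ ∀ v,
      QP U r i z v ≤ hr (lev (fun y => k * U.φ (A.p i (pr1 N r y)) +
        (1 + U.l (A.p i (pr1 N r y)))⁻¹) z) v := by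
    intro (i : A.ι) z hz
    have hn := (U.D.isOpen i).mem_nhds hz.1
    have s1 : ContDiffAt ℝ ∞ (fun y => U.φ (A.p i y)) (pr1 N r z) := (U.pot.smo i).contDiffAt hn
    have s2 : ContDiffAt ℝ ∞ (fun y => (1 + U.l (A.p i y))⁻¹) (pr1 N r z) := (u2 i).contDiffAt hn
    have s3 : ContDiffAt ℝ ∞ (fun y => U.l2 (A.p i y)) (pr1 N r z) := (u1 i).contDiffAt hn
    obtain ⟨a1, a2⟩ := sn0_pr ((contDiffAt_const (c := (k : ℝ)).mul s1).add s2)
    refine ⟨a1, fun v => ?_⟩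
    rw [(a2 v).1, QP, ((sn0_pr s3).2 v).2, lev_add (contDiffAt_const.mul s1) s2, lev_smul s1,
      U.pot.lev i _ hz.1]
    have b1 := u3 i _ hz.1 (pr1 N r v)
    have b2 := hq_nonneg ((A.C i).η_psd _ hz.1.1) (pr1 N r v)
    have b3 : (k : ℝ) ≤ k * U.m :=
      le_mul_of_one_le_right (Nat.cast_nonneg _) (Nat.one_le_cast.2 U.m_pos)
    simp only [hr, hq_add, hq_smul, Complex.add_re, Complex.re_ofReal_mul]
    nlinarith [mul_le_mul_of_nonneg_right (hk.trans b3) b2]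
  have loc : ∀ i, ∀ z ∈ (pD U b τ).W i,
      ContDiffAt ℝ ∞ (fun y => S.φ ((pD U b τ).p i y).1) z ∧
      ContDiffAt ℝ ∞ (fun y => bet b τ ((pD U b τ).p i y)) z ∧
      ContDiffAt ℝ ∞ (fun y => rho (Real.log (S.T ((pD U b τ).p i y) + ε))) z := fun i z hz =>
    ⟨(nr_fs (sn2_G S hz).1).1, (nr_ball (sn2_G S hz).2.1 hz.2).1, (hl (sn2_G S hz).2.2 hε).1⟩
  refine ⟨fun i z hz => ?_, fun i z hz v => ?_⟩
  · obtain ⟨a1, a2, a3⟩ := loc i z hz
    exact ((((contDiffAt_const.mul a1).add (contDiffAt_const.mul a2)).add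
      (contDiffAt_const.mul a3)).add (lw i z hz).1).contDiffWithinAt
  · obtain ⟨a1, a2, a3⟩ := loc i z hz
    obtain ⟨a4, a5⟩ := lw i z hz
    obtain ⟨q1, -, q3⟩ := S.Q_bd hb h1 hz v
    have e : (pD U b τ).levG (S.Φ j k γ ε b τ) i z =
        ((j : ℝ) : ℂ) • (pD U b τ).levG (fun y => S.φ y.1) i z +
          ((j : ℝ) : ℂ) • (pD U b τ).levG (bet b τ) i z + ((γ : ℝ) : ℂ) •
          lev (fun y => rho (Real.log (S.T ((pD U b τ).p i y) + ε))) z +
          lev (fun y => k * U.φ (A.p i (pr1 N r y)) + (1 + U.l (A.p i (pr1 N r y)))⁻¹) z := by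
      refine (lev_add (((contDiffAt_const.mul a1).add (contDiffAt_const.mul a2)).add
        (contDiffAt_const.mul a3)) a4).trans ?_
      rw [lev_add ((contDiffAt_const.mul a1).add (contDiffAt_const.mul a2))
        (contDiffAt_const.mul a3), lev_add (contDiffAt_const.mul a1) (contDiffAt_const.mul a2),
        lev_smul a1, lev_smul a2, lev_smul a3]
      rfl
    have b1 : -(D * (2 * (1 + 9 * r : ℝ) ^ 2 * S.Q b τ i z v)) ≤
        hr (lev (fun y => rho (Real.log (S.T ((pD U b τ).p i y) + ε))) z) v := by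
      refine le_trans (neg_le_neg ?_) ((hl (sn2_G S hz).2.2 hε).2 v)
      split_ifs with h
      · exact mul_le_mul_of_nonneg_left (q3 h) hD
      · positivity
    have b2 := mul_le_mul_of_nonneg_left b1 (Nat.cast_nonneg (α := ℝ) γ)
    have b3 := mul_le_mul_of_nonneg_right hj' q1
    have b4 := a5 v
    rw [e]
    simp only [hr, hq_add, hq_smul, Complex.add_re, Complex.re_ofReal_mul]
    unfold Gm.Q hr at *
    linarith

end Pool.Agent.ZB
end

-- part Pool.Agent.P.MP_63735c_ag.SN3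
section

/-! The derivative of the cut off function. -/

open scoped ComplexOrder ContDiff Matrix Topology ENNReal
open Set Metric MeasureTheory Filter

namespace Pool.Agent.ZB

open Pool.Agent.BP Pool.Agent.SPF Pool.Agent.AB Pool.Agent.CK Pool.Agent.SE Pool.Agent.NL

variable {N r : ℕ} {X : Type} [TopologicalSpace X] [MeasurableSpace X] {A : Atlas X N}
  {μ : Measure X} {L : Line A} {U : Up A μ L} {k : ℕ} {S : Gm U r} {h : X → ℂ} {b : E r} {τ C : ℝ}

theorem sn3_far (H : S.Good k h b τ C) {y : X × E r} (hy : τ < S.T y) : 2 - 2 * S.T y / τ < 0 := by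
  rw [sub_neg, lt_div_iff₀ H.τ_pos]
  linarith

theorem sn3_near {y : X × E r} (h2 : y.2 ∈ Bl b τ) (hy : S.T y ≤ τ) :
    nsq (S.g y.1 - b) < 4 * τ := by
  have a := nr4_tri (S.g y.1) y.2 b
  have a2 : nsq (y.2 - b) < τ := h2
  unfold Gm.T at hy
  linarith

theorem Gm.Good.cf_bd (H : S.Good k h b τ C) (R : ℝ) (y : X × E r) :
    ‖S.cf h b τ R y‖ ^ 2 ≤ C * Real.exp (k * U.φ y.1) ∧
    (y.1 ∈ U.W → y.2 ∈ Bl b τ → ex U b τ y ≤ R → 2 * S.T y ≤ τ → S.cf h b τ R y = h y.1) := by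
  have hC := H.C_nonneg
  refine ⟨?_, fun h1 h2 h3 h4 => ?_⟩
  · by_cases hy : y ∈ {y : X × E r | y.1 ∈ U.W ∧ y.2 ∈ Bl b τ}
    swap
    · rw [Gm.cf, indicator_of_notMem hy, norm_zero, zero_pow two_ne_zero]
      positivity
    rw [Gm.cf, indicator_of_mem hy]
    rcases lt_or_ge τ (S.T y) with h1 | h1
    · rw [Real.smoothTransition.zero_of_nonpos (sn3_far H h1).le, mul_zero, Complex.ofReal_zero,
        zero_mul, norm_zero, zero_pow two_ne_zero]
      positivity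
    rw [norm_mul, Complex.norm_real, Real.norm_of_nonneg
      (mul_nonneg (Real.smoothTransition.nonneg _) (Real.smoothTransition.nonneg _))]
    exact (pow_le_pow_left₀ (mul_nonneg (mul_nonneg (Real.smoothTransition.nonneg _)
      (Real.smoothTransition.nonneg _)) (norm_nonneg _)) (mul_le_of_le_one_left (norm_nonneg _)
      (mul_le_one₀ (Real.smoothTransition.le_one _) (Real.smoothTransition.nonneg _)
        (Real.smoothTransition.le_one _))) 2).trans (H.bd _ hy.1 (sn3_near hy.2 h1).le)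
  · rw [Gm.cf, indicator_of_mem (show y ∈ {y : X × E r | y.1 ∈ U.W ∧ y.2 ∈ Bl b τ} from ⟨h1, h2⟩),
      Real.smoothTransition.one_of_one_le (by linarith), Real.smoothTransition.one_of_one_le (by
      have : 2 * S.T y / τ ≤ 1 := (div_le_one H.τ_pos).2 h4
      linarith)]
    simp

theorem sn3_mem {i : A.ι} {z : E (N + r)} (hz : z ∈ (pD U b τ).W i) :
    (pD U b τ).p i z ∈ {y : X × E r | y.1 ∈ U.W ∧ y.2 ∈ Bl b τ} := ⟨hz.1.2, hz.2⟩

theorem sn3_l2 {i : A.ι} {z : E (N + r)} (hz : z ∈ (pD U b τ).W i) :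
    ContDiffAt ℝ ∞ (fun y => U.l2 (A.p i (pr1 N r y))) z :=
  (sn0_pr (f := fun y => U.l2 (A.p i y))
    ((U.l2_calc.1 i).contDiffAt ((U.D.isOpen i).mem_nhds hz.1))).1

theorem sn3_loc (S : Gm U r) (h : X → ℂ) (R : ℝ) {i : A.ι} {z : E (N + r)}
    (hz : z ∈ (pD U b τ).W i) : ContDiffAt ℝ ∞ (fun y => ex U b τ ((pD U b τ).p i y)) z ∧
      ContDiffAt ℝ ∞ (fun y => S.T ((pD U b τ).p i y)) z ∧
      (fun y => S.cf h b τ R ((pD U b τ).p i y)) =ᶠ[𝓝 z] fun y =>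
        ((Real.smoothTransition (R + 1 - ex U b τ ((pD U b τ).p i y)) *
          Real.smoothTransition (2 - 2 * S.T ((pD U b τ).p i y) / τ) : ℝ) : ℂ) *
            h (A.p i (pr1 N r y)) := by
  refine ⟨(nr_ball (sn2_G S hz).2.1 hz.2).1.add (sn3_l2 hz), ?_, ?_⟩
  · exact nsq_smooth.contDiffAt.comp z (smoothAt_of_hol (sn2_G S hz).2.2)
  · filter_upwards [((pD U b τ).isOpen i).mem_nhds hz] with y hy
    rw [Gm.cf, indicator_of_mem (sn3_mem hy)]
    rfl

theorem sn3_zero (H : S.Good k h b τ C) (R : ℝ) {i : A.ι} {z : E (N + r)} (hz : z ∈ (pD U b τ).W i)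
    (hT : τ < S.T ((pD U b τ).p i z)) :
    (fun y => S.cf h b τ R ((pD U b τ).p i y)) =ᶠ[𝓝 z] fun _ => 0 := by
  obtain ⟨-, a2, he⟩ := sn3_loc S h R hz
  filter_upwards [he, a2.continuousAt.eventually (lt_mem_nhds hT)] with y e1 e2
  rw [e1, Real.smoothTransition.zero_of_nonpos (sn3_far H e2).le]
  simp

theorem sn3_hol (H : S.Good k h b τ C) {i : A.ι} {z : E (N + r)} (hz : z ∈ (pD U b τ).W i)
    (hT : S.T ((pD U b τ).p i z) ≤ τ) :
    ∀ᶠ y in 𝓝 z, DifferentiableAt ℂ (fun y => h (A.p i (pr1 N r y))) y := by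
  have a0 : ContinuousAt (fun y => S.g (A.p i (pr1 N r y)) - b) z :=
    (sn2_G S hz).1.self_of_nhds.continuousAt.sub continuousAt_const
  have a1 : ContinuousAt (fun y => nsq (S.g (A.p i (pr1 N r y)) - b)) z :=
    ContinuousAt.comp (g := nsq) nsq_smooth.continuous.continuousAt a0
  have a2 : nsq (S.g (A.p i (pr1 N r z)) - b) < 4 * τ := sn3_near (y := (pD U b τ).p i z) hz.2 hT
  filter_upwards [((pD U b τ).isOpen i).mem_nhds hz, a1.eventually (gt_mem_nhds a2)] with y hy e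
  exact (H.hol i _ hy.1 e.le).comp y (pr1 N r).differentiableAt

theorem sn3_cs (H : S.Good k h b τ C) (R : ℝ) {F : Type} [Zero F]
    {u : X × E r → F} (h1 : ∀ y, R + 1 - ex U b τ y < 0 → u y = 0) :
    (pD U b τ).Cs ({y | y.1 ∈ U.W ∧ y.2 ∈ Bl b τ}.indicator u) := by
  have hτ := H.τ_le
  have he := Real.exp_pos (-(R + 1))
  refine ⟨_, (U.l2_calc.2.2.1 (R + 1)).prod (nr3_ball b (τ - Real.exp (-(R + 1)))),
    fun y hy => (pd_M U b τ y).2 ⟨hy.1.1, lt_of_le_of_lt hy.2 (sub_lt_self τ he)⟩, fun y hy => ?_⟩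
  by_cases hO : y ∈ {y : X × E r | y.1 ∈ U.W ∧ y.2 ∈ Bl b τ}
  swap
  · exact indicator_of_notMem hO _
  rw [indicator_of_mem hO]
  have hB : nsq (y.2 - b) < τ := hO.2
  refine h1 y ?_
  have a1 := bet_nn hτ hO.2
  have a2 := l2_nn U hO.1
  unfold ex
  rcases lt_or_ge (R + 1) (U.l2 y.1) with h3 | h3
  · linarith
  have h4 : τ - nsq (y.2 - b) < Real.exp (-(R + 1)) := by
    by_contra h5
    exact hy ⟨⟨hO.1, h3⟩, show nsq (y.2 - b) ≤ _ by linarith [not_lt.1 h5]⟩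
  have h5 := (Real.log_lt_iff_lt_exp (by linarith)).2 h4
  unfold bet
  linarith

theorem Gm.Good.cf_db [T2Space X] (H : S.Good k h b τ C) : ∃ B : ℝ, 0 ≤ B ∧ ∀ R,
    (pD U b τ).S (S.cf h b τ R) ∧ ∃ c : X × E r → ℝ, (pD U b τ).Cc c ∧ (∀ y, 0 ≤ c y) ∧
      (∀ y, c y ≤ Real.exp (k * U.φ y.1) *
        ((if R ≤ ex U b τ y then B else 0) + (if τ ≤ 2 * S.T y then B else 0))) ∧
      ∀ i, ∀ z ∈ (pD U b τ).W i, ∀ v,
        ‖v ⬝ᵥ star (db (fun y => S.cf h b τ R ((pD U b τ).p i y)) z)‖ ^ 2 ≤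
          c ((pD U b τ).p i z) * (S.Q b τ i z v + QP U r i z v) := by
  obtain ⟨s, D, hD, hsc, hs⟩ := bpe8_step
  have hτ := H.τ_pos
  have hC := H.C_nonneg
  obtain ⟨B', hB'⟩ : ∃ B' : ℝ, B' = 8 * (1 + 9 * r) ^ 2 / τ := ⟨_, rfl⟩
  have hB0 : 0 ≤ B' := by rw [hB']; positivity
  have hS : ContDiff ℝ ∞ Real.smoothTransition := Real.smoothTransition.contDiff
  refine ⟨C * 2 * (D * (2 + B')), by positivity, fun R => ?_⟩
  obtain ⟨c₀, hc₀⟩ : ∃ c₀ : X × E r → ℝ, c₀ = fun y => C * Real.exp (k * U.φ y.1) * 2 *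
      (s (R + 1 - ex U b τ y) ^ 2 * Real.smoothTransition (2 - 2 * S.T y / τ) ^ 2 * 2 +
        Real.smoothTransition (R + 1 - ex U b τ y) ^ 2 * s (2 - 2 * S.T y / τ) ^ 2 * B') :=
    ⟨_, rfl⟩
  have c0 : ∀ y, 0 ≤ c₀ y := fun y => by rw [hc₀]; positivity
  have mem := fun i z hz => sn3_mem (U := U) (b := b) (τ := τ) (i := i) (z := z) hz
  have loc := fun i z hz => sn3_loc S h R (b := b) (τ := τ) (i := i) (z := z) hz
  have far := fun i z hz => sn3_zero H R (i := i) (z := z) hz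
  have near := fun i z hz => sn3_hol H (i := i) (z := z) hz
  have cs : (pD U b τ).Cs (S.cf h b τ R) := by
    unfold Gm.cf
    refine sn3_cs H R fun y hy => ?_
    rw [Real.smoothTransition.zero_of_nonpos hy.le]
    simp
  have cs' : (pD U b τ).Cs ({y : X × E r | y.1 ∈ U.W ∧ y.2 ∈ Bl b τ}.indicator c₀) := by
    refine sn3_cs H R fun y hy => ?_
    rw [hc₀]
    simp only [Real.smoothTransition.zero_of_nonpos hy.le, (hs _).2.2.1 hy]
    simp
  refine ⟨⟨fun i z hz => ContDiffAt.contDiffWithinAt ?_, cs⟩,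
    {y : X × E r | y.1 ∈ U.W ∧ y.2 ∈ Bl b τ}.indicator c₀, ⟨fun i => ?_, cs'⟩,
    fun y => indicator_nonneg (fun y _ => c0 y) y, fun y => ?_, fun i z hz v => ?_⟩
  · rcases lt_or_ge τ (S.T ((pD U b τ).p i z)) with hT | hT
    · exact contDiffAt_const.congr_of_eventuallyEq (far i z hz hT)
    obtain ⟨a1, a2, he⟩ := loc i z hz
    refine ContDiffAt.congr_of_eventuallyEq ?_ he
    refine ContDiffAt.mul (Complex.ofRealCLM.contDiff.contDiffAt.comp z ?_)
      (smoothAt_of_hol' (near i z hz hT))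
    exact (hS.contDiffAt.comp z (contDiffAt_const.sub a1)).mul
      (hS.contDiffAt.comp z (contDiffAt_const.sub ((contDiffAt_const.mul a2).div_const _)))
  · refine ContinuousOn.congr (f := fun z => c₀ ((pD U b τ).p i z)) (fun z hz => ?_)
      fun z hz => indicator_of_mem (mem i z hz) _
    obtain ⟨a1, a2, -⟩ := loc i z hz
    have b1 : ContinuousAt (fun y => R + 1 - ex U b τ ((pD U b τ).p i y)) z :=
      continuousAt_const.sub a1.continuousAt
    have b2 : ContinuousAt (fun y => 2 - 2 * S.T ((pD U b τ).p i y) / τ) z :=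
      continuousAt_const.sub ((continuousAt_const.mul a2.continuousAt).div_const _)
    have b3 : ContinuousAt (fun y => U.φ (A.p i (pr1 N r y))) z := (sn0_pr (f := fun y =>
      U.φ (A.p i y)) ((U.pot.smo i).contDiffAt ((U.D.isOpen i).mem_nhds hz.1))).1.continuousAt
    rw [hc₀]
    exact (((continuousAt_const.mul (continuousAt_const.mul b3).rexp).mul continuousAt_const).mul
      (((((hsc.continuousAt.comp b1).pow 2).mul
        ((hS.continuous.continuousAt.comp b2).pow 2)).mul continuousAt_const).add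
        ((((hS.continuous.continuousAt.comp b1).pow 2).mul
          ((hsc.continuousAt.comp b2).pow 2)).mul continuousAt_const))).continuousWithinAt
  · by_cases hO : y ∈ {y : X × E r | y.1 ∈ U.W ∧ y.2 ∈ Bl b τ}
    swap
    · rw [indicator_of_notMem hO]
      positivity
    have h2 : s (R + 1 - ex U b τ y) ^ 2 * Real.smoothTransition (2 - 2 * S.T y / τ) ^ 2 * 2 ≤
        if R ≤ ex U b τ y then D * (2 + B') else 0 := by
      split_ifs with h
      · exact mul_le_mul ((mul_le_of_le_one_right (sq_nonneg _) (bpe8_sq _)).trans (hs _).2.1)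
          (by linarith) zero_le_two hD
      · rw [(hs _).2.2.2 (by linarith [not_le.1 h])]
        simp
    have h3 : Real.smoothTransition (R + 1 - ex U b τ y) ^ 2 * s (2 - 2 * S.T y / τ) ^ 2 * B' ≤
        if τ ≤ 2 * S.T y then D * (2 + B') else 0 := by
      split_ifs with h
      · exact mul_le_mul ((mul_le_of_le_one_left (sq_nonneg _) (bpe8_sq _)).trans (hs _).2.1)
          (by linarith) hB0 hD
      · have h4 : 2 * S.T y / τ < 1 := (div_lt_one hτ).2 (not_le.1 h)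
        rw [(hs _).2.2.2 (by linarith)]
        simp
    rw [indicator_of_mem hO, hc₀]
    refine (mul_le_mul_of_nonneg_left (add_le_add h2 h3) (by positivity)).trans (le_of_eq ?_)
    split_ifs <;> ring
  · obtain ⟨q1, q2, q3⟩ := S.Q_bd H.b_le H.τ_le hz v
    have q4 : 0 ≤ QP U r i z v := sq_nonneg _
    rw [indicator_of_mem (mem i z hz)]
    rcases lt_or_ge τ (S.T ((pD U b τ).p i z)) with hT | hT
    · rw [(db_congr (far i z hz hT)).eq_of_nhds, db_const]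
      simpa using mul_nonneg (c0 _) (add_nonneg q1 q4)
    obtain ⟨a1, a2, he⟩ := loc i z hz
    rw [(db_congr he).eq_of_nhds]
    refine (nr4_core R τ (fun t => (hs t).1) (a1.differentiableAt (by simp))
      (a2.differentiableAt (by simp)) (near i z hz hT).self_of_nhds v).trans ?_
    have k1 := H.bd _ hz.1.2 (sn3_near (y := (pD U b τ).p i z) hz.2 hT).le
    have k0 : ‖v ⬝ᵥ dr (fun y => ex U b τ ((pD U b τ).p i y)) z‖ ^ 2 ≤
        2 * (S.Q b τ i z v + QP U r i z v) := by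
      have e1 := dr_add ((nr_ball (sn2_G S hz).2.1 hz.2).1.differentiableAt (by simp))
        ((sn3_l2 hz).differentiableAt (by simp))
      refine le_of_eq_of_le (congrArg (fun u => ‖v ⬝ᵥ u‖ ^ 2) e1) ?_
      simp only [dotProduct_add]
      exact (pow_le_pow_left₀ (norm_nonneg _) (norm_add_le _ _) 2).trans (add_sq_le.trans
        (mul_le_mul_of_nonneg_left (add_le_add q2 le_rfl) zero_le_two))
    have k2 : ‖v ⬝ᵥ dr (fun y => S.T ((pD U b τ).p i y)) z‖ ^ 2 ≤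
        τ * (2 * (1 + 9 * r) ^ 2 * S.Q b τ i z v) := (nr_grad (sn2_G S hz).2.2 v).trans
      (mul_le_mul hT (q3 (hT.trans H.τ_le)) (nr4_nonneg _) hτ.le)
    have k3 : (2 / τ) ^ 2 * ‖v ⬝ᵥ dr (fun y => S.T ((pD U b τ).p i y)) z‖ ^ 2 ≤
        B' * (S.Q b τ i z v + QP U r i z v) := by
      refine (mul_le_mul_of_nonneg_left k2 (sq_nonneg _)).trans (le_of_eq_of_le ?_
        (mul_le_mul_of_nonneg_left (le_add_of_nonneg_right q4) hB0))
      rw [hB']
      field_simp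
      ring
    refine (mul_le_mul k1 (mul_le_mul_of_nonneg_left (add_le_add
      (mul_le_mul_of_nonneg_left k0 (by positivity)) (mul_le_mul_of_nonneg_left k3 (by positivity)))
      zero_le_two) (by positivity) (by positivity)).trans (le_of_eq ?_)
    rw [hc₀]
    change _ = C * Real.exp (k * U.φ (A.p i (pr1 N r z))) * 2 * _ * _
    ring

end Pool.Agent.ZB
end

-- part Pool.Agent.P.MP_63735c_ag.SN4
section

/-! Holomorphic functions on the product that are close to `h` along the graph. -/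

open scoped ComplexOrder ContDiff Matrix Topology ENNReal
open Set Metric MeasureTheory Filter

namespace Pool.Agent.ZB

open Pool.Agent.BP Pool.Agent.SPF Pool.Agent.AB Pool.Agent.CK Pool.Agent.SE Pool.Agent.NL
  Pool.Agent.CS

theorem sn_out (r γ : ℕ) : ∃ j : ℕ, 1 ≤ j ∧ ∀ {N : ℕ} {X : Type} [TopologicalSpace X]
    [MeasurableSpace X] [BorelSpace X] [T2Space X] {A : Atlas X N} {L : Line A} {μ : Measure X}
    [IsFiniteMeasure μ] {K : Form11 A} {U : Up A μ L} (S : Gm U r) (k : ℕ) (h : X → ℂ) (b : E r)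
    (τ C : ℝ), U.M ≤ k → IsVolume A μ → (∀ i, ∀ z ∈ (A.C i).W, (K.h i z).PosDef) → Bd11 A K →
    S.Good k h b τ C → ∃ C₀ : ℝ, 0 < C₀ ∧ ∀ ε, 0 < ε → ε ≤ 1 → ∀ R₀, ∃ R, R₀ ≤ R ∧
      ∃ G, (pD U b τ).Hol G ∧
        ∀ i, S.dist j k γ ε b τ G (S.cf h b τ R) i ≤ ENNReal.ofReal C₀ := by
  obtain ⟨j, hj, hΦ⟩ := sn2_lev r γ
  refine ⟨j, hj, ?_⟩
  intro N X _ _ _ _ A L μ _ K U S k h b τ C hk hμ hK hKb H
  obtain ⟨B, hB, hcf⟩ := H.cf_db
  obtain ⟨K', k1, k2, k3⟩ := pd_cut U hK hKb b H.τ_pos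
  have hτ := H.τ_pos
  have hτ1 := H.τ_le
  obtain ⟨C₁, hC₁⟩ : ∃ C₁, C₁ = B + B * Real.exp (-(γ * Real.log (τ / 2))) := ⟨_, rfl⟩
  have hC0 : 0 ≤ C₁ := by
    rw [hC₁]
    positivity
  have hv : (ENNReal.ofReal C₁ * μ univ + 1) * volume (Bl b τ) ≠ ⊤ := ENNReal.mul_ne_top
    (ENNReal.add_ne_top.2 ⟨ENNReal.mul_ne_top ENNReal.ofReal_ne_top (measure_ne_top μ _),
      ENNReal.one_ne_top⟩) (nr5_vol b hτ1)
  refine ⟨((ENNReal.ofReal C₁ * μ univ + 1) * volume (Bl b τ)).toReal + 1, by positivity,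
    fun ε hε hε1 R₀ => ?_⟩
  have hγ : (0 : ℝ) ≤ γ := Nat.cast_nonneg _
  have hl0 : 0 ≤ -(γ * Real.log ε) :=
    neg_nonneg.2 (mul_nonpos_of_nonneg_of_nonpos hγ (Real.log_nonpos hε.le hε1))
  obtain ⟨R₁, hR, Z, hZ, hZ1, hZ2⟩ := bpe9_tail U (f := fun _ => 1) (by simp)
    (a := ENNReal.ofReal (B * Real.exp (-(γ * Real.log ε)))) ENNReal.ofReal_ne_top R₀
  refine ⟨R₁ + -(γ * Real.log ε), by linarith, ?_⟩
  obtain ⟨hs, c, hc, hc0, hcb, hsc⟩ := hcf (R₁ + -(γ * Real.log ε))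
  obtain ⟨sm, hl⟩ := hΦ S k b τ ε hk H.b_le hτ1 hε
  obtain ⟨G, hG, hd⟩ := pd_l2 U hμ hτ1 k1 k2 k3 sm
    (fun i z hz v => (add_nonneg (S.Q_bd H.b_le hτ1 hz v).1 (sq_nonneg _)).trans (hl i z hz v))
    hs hc hc0
    (fun i z hz v => (hsc i z hz v).trans (mul_le_mul_of_nonneg_left (hl i z hz v) (hc0 _)))
    (f := fun x => ENNReal.ofReal C₁ +
      Z.indicator (fun _ => ENNReal.ofReal (B * Real.exp (-(γ * Real.log ε)))) x) fun y hx hy => by
      have p1 := S.φ_nn y.1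
      have p2 := bet_nn hτ1 hy
      have p3 : 0 ≤ S.T y := nr5_nsq _
      have hj' : (1 : ℝ) ≤ j := by exact_mod_cast hj
      have p4 : 0 ≤ (j : ℝ) * S.φ y.1 := by positivity
      have p5 : bet b τ y ≤ j * bet b τ y := le_mul_of_one_le_left p2 hj'
      have p6 : 0 ≤ (1 + U.l y.1)⁻¹ := by
        have := U.l_calc.2.1 _ hx
        positivity
      obtain ⟨P, hP⟩ : ∃ P, P = Real.exp (k * U.φ y.1 + -S.Φ j k γ ε b τ y) := ⟨_, rfl⟩
      have r1 := mul_le_mul_of_nonneg_left (nr5_rho hε hε1 (t := S.T y + ε) (by linarith)) hγ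
      have q1 : (if R₁ + -(γ * Real.log ε) ≤ ex U b τ y then B else 0) * P ≤
          B + Z.indicator (fun _ => B * Real.exp (-(γ * Real.log ε))) y.1 := by
        have a0 : 0 ≤ Z.indicator (fun _ => B * Real.exp (-(γ * Real.log ε))) y.1 :=
          indicator_nonneg (fun _ _ => by positivity) _
        split_ifs with hR
        swap
        · rw [zero_mul]
          positivity
        rcases le_or_gt R₁ (U.l2 y.1) with h1 | h1
        · rw [indicator_of_mem (hZ1 _ hx h1), hP]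
          refine le_add_of_nonneg_of_le hB (mul_le_mul_of_nonneg_left (Real.exp_le_exp.2 ?_) hB)
          unfold Gm.Φ
          linarith
        · refine le_add_of_le_of_nonneg (mul_le_of_le_one_right hB ?_) a0
          rw [hP, Real.exp_le_one_iff]
          unfold ex at hR
          unfold Gm.Φ
          linarith
      have q2 : (if τ ≤ 2 * S.T y then B else 0) * P ≤ B * Real.exp (-(γ * Real.log (τ / 2))) := by
        split_ifs with hT
        · rw [hP]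
          refine mul_le_mul_of_nonneg_left (Real.exp_le_exp.2 ?_) hB
          have := mul_le_mul_of_nonneg_left (nr5_rho (a := τ / 2) (by linarith) (by linarith)
            (t := S.T y + ε) (by linarith)) hγ
          unfold Gm.Φ
          linarith
        · rw [zero_mul]
          positivity
      have q3 := mul_le_mul_of_nonneg_right (hcb y) (Real.exp_pos (-S.Φ j k γ ε b τ y)).le
      rw [mul_right_comm, ← Real.exp_add, ← hP, mul_comm P, add_mul] at q3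
      refine (ENNReal.ofReal_le_ofReal (q := C₁ + Z.indicator
        (fun _ => B * Real.exp (-(γ * Real.log ε))) y.1) (by linarith)).trans
        (ENNReal.ofReal_add_le.trans (add_le_add le_rfl (le_of_eq ?_)))
      by_cases h1 : y.1 ∈ Z <;> simp [h1]
  refine ⟨G, hG, fun i => (hd i).trans ?_⟩
  rw [ENNReal.ofReal_add ENNReal.toReal_nonneg zero_le_one, ENNReal.ofReal_toReal hv]
  refine le_add_right (mul_le_mul_left ?_ _)
  rw [lintegral_add_left measurable_const, lintegral_indicator hZ, setLIntegral_const]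
  refine add_le_add (mul_le_mul_right (measure_mono (subset_univ _)) _) (le_of_eq_of_le ?_ hZ2)
  simp

end Pool.Agent.ZB
end

-- part Pool.Agent.P.MP_63735c_ag.SN5
section

/-! The slices of a holomorphic function on the product. -/

open scoped ComplexOrder ContDiff Matrix Topology ENNReal
open Set Metric MeasureTheory Filter

namespace Pool.Agent.ZB

open Pool.Agent.BP Pool.Agent.SPF Pool.Agent.AB Pool.Agent.CK Pool.Agent.SE Pool.Agent.NL

variable {N r : ℕ}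

theorem sn5_ton {s : Set (E N)} {t : Set (E r)} (hs : IsOpen s) (ht : IsOpen t)
    {f : E (N + r) → ℝ} (hf : ContinuousOn f {z | pr1 N r z ∈ s ∧ pr2 N r z ∈ t}) :
    ∫⁻ a in s, ∫⁻ w in t, ENNReal.ofReal (f (ap a w)) =
      ∫⁻ z in {z | pr1 N r z ∈ s ∧ pr2 N r z ∈ t}, ENNReal.ofReal (f z) := by
  have h1 : ContinuousOn (fun q : E N × E r => f (ap q.1 q.2)) (s ×ˢ t) :=
    hf.comp (f := fun q : E N × E r => ap q.1 q.2) (spl N r).symm.continuous.continuousOn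
      fun q hq => ⟨by rw [pr1_ap]; exact hq.1, by rw [pr2_ap]; exact hq.2⟩
  have h2 := setLIntegral_prod (μ := volume) (ν := volume)
    (fun q : E N × E r => ENNReal.ofReal (f (ap q.1 q.2)))
    (h1.aemeasurable (hs.prod ht).measurableSet).ennreal_ofReal
  have h3 := (spl_mp N r).setLIntegral_comp_preimage_emb
    (spl N r).toHomeomorph.measurableEmbedding
    (fun q : E N × E r => ENNReal.ofReal (f (ap q.1 q.2))) (s ×ˢ t)
  refine h2.symm.trans (h3.symm.trans (lintegral_congr fun z => ?_))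
  exact congrArg (fun u => ENNReal.ofReal (f u)) (ap_pr z)

variable {X : Type} [TopologicalSpace X] [MeasurableSpace X] {A : Atlas X N}
  {μ : Measure X} {L : Line A} {U : Up A μ L} {k : ℕ} {S : Gm U r} {h : X → ℂ} {b : E r} {τ C : ℝ}
  {G : X × E r → ℂ}

theorem pd_hol1 (hG : (pD U b τ).Hol G) {w : E r} (hw : w ∈ Bl b τ) :
    U.D.Hol fun x => G (x, w) := fun (i : A.ι) => by
  refine ((hG i).comp (s := U.D.W i) (nr6_ap 0 w).1.differentiableOn fun z hz =>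
    ⟨by rw [pr1_ap]; exact hz, by rw [pr2_ap]; exact hw⟩).congr fun z _ => ?_
  change _ = G (A.p i (pr1 N r (ap z w)), pr2 N r (ap z w))
  rw [pr1_ap, pr2_ap]
  rfl

theorem pd_hol2 (hG : (pD U b τ).Hol G) {i : A.ι} {a : E N} (ha : a ∈ U.D.W i) :
    DifferentiableOn ℂ (fun w => G (A.p i a, w)) (Bl b τ) := by
  refine ((hG i).comp (s := Bl b τ) (f := fun w => ap a w) ((spl N r).symm.differentiable.comp
    ((differentiable_const _).prodMk differentiable_id)).differentiableOn fun z hz =>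
    ⟨by rw [pr1_ap]; exact ha, by rw [pr2_ap]; exact hz⟩).congr fun z _ => ?_
  change _ = G (A.p i (pr1 N r (ap a z)), pr2 N r (ap a z))
  rw [pr1_ap, pr2_ap]

theorem Gm.Good.slice [BorelSpace X] [IsFiniteMeasure μ] (H : S.Good k h b τ C)
    (hμ : IsVolume A μ) (j γ : ℕ) (C₀ : ℝ) : ∃ C₁ : ℝ, 0 ≤ C₁ ∧ ∀ ε R G, (pD U b τ).Hol G →
      ∀ i, S.dist j k γ ε b τ G (S.cf h b τ R) i ≤ ENNReal.ofReal C₀ → ∀ w ∈ Bl b (τ / 4),
        ∫⁻ a in U.D.W i, ENNReal.ofReal (Real.exp (-(j * S.φ (A.p i a) + k * U.φ (A.p i a))) *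
          ‖((A.C i).σ a).det‖ * ‖G (A.p i a, w)‖ ^ 2) ≤ ENNReal.ofReal C₁ := by
  have hτ := H.τ_pos
  have hC := H.C_nonneg
  obtain ⟨δ, hδ, hδ1⟩ : ∃ δ : ℝ, 0 < δ ∧ r * δ ^ 2 ≤ τ / 8 := by
    refine ⟨√(τ / 8 / (r + 1)), Real.sqrt_pos.2 (by positivity), ?_⟩
    rw [Real.sq_sqrt (by positivity), ← mul_div_assoc, div_le_iff₀ (by positivity)]
    linarith
  obtain ⟨c, hc, hmv⟩ := CL.mv_rad (N := r)
  obtain ⟨κ, hκ⟩ : ∃ κ, κ = c * (δ ^ r) ^ 2 := ⟨_, rfl⟩
  have hκ0 : 0 < κ := by rw [hκ]; positivity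
  obtain ⟨a₀, ha₀⟩ : ∃ a₀, a₀ = 2 * Real.exp (j * -Real.log (τ / 4) + 1) := ⟨_, rfl⟩
  have ha0 : 0 ≤ a₀ := by rw [ha₀]; positivity
  obtain ⟨V, hV⟩ : ∃ V, V = ENNReal.ofReal a₀ * ENNReal.ofReal C₀ +
    ENNReal.ofReal (2 * C) * (μ univ * volume (ball (0 : E r) δ)) := ⟨_, rfl⟩
  have hVt : V ≠ ⊤ := hV ▸ ENNReal.add_ne_top.2
    ⟨ENNReal.mul_ne_top ENNReal.ofReal_ne_top ENNReal.ofReal_ne_top,
      ENNReal.mul_ne_top ENNReal.ofReal_ne_top
        (ENNReal.mul_ne_top (measure_ne_top μ _) measure_ball_lt_top.ne)⟩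
  refine ⟨κ⁻¹ * V.toReal, by positivity, fun ε R G hG i hi w hw => ?_⟩
  have hw' : nsq (w - b) < τ / 4 := hw
  have hb : ∀ u ∈ ball w δ, nsq (u - b) ≤ 3 * τ / 4 := fun u hu => by
    have a1 := nr4_tri u w b
    have a2 := (nsq_le (u - w)).2
    have a3 : ‖u - w‖ ^ 2 ≤ δ ^ 2 :=
      pow_le_pow_left₀ (norm_nonneg _) (mem_ball_iff_norm.1 hu).le 2
    linarith [mul_le_mul_of_nonneg_left a3 (Nat.cast_nonneg (α := ℝ) r)]
  have hb' : ball w δ ⊆ Bl b τ := fun u hu => (hb u hu).trans_lt (by linarith)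
  obtain ⟨ρ, hρ⟩ : ∃ ρ : E N → ℝ, ρ = fun a =>
    Real.exp (-(j * S.φ (A.p i a) + k * U.φ (A.p i a))) * ‖((A.C i).σ a).det‖ := ⟨_, rfl⟩
  have hρ0 : ∀ a, 0 ≤ ρ a := fun a => by rw [hρ]; positivity
  have hZ : {z | pr1 N r z ∈ U.D.W i ∧ pr2 N r z ∈ ball w δ} ⊆ (pD U b τ).W i :=
    fun z hz => ⟨hz.1, hb' hz.2⟩
  have hZm : MeasurableSet {z | pr1 N r z ∈ U.D.W i ∧ pr2 N r z ∈ ball w δ} :=
    (((U.D.isOpen i).preimage (pr1 N r).continuous).inter
      (isOpen_ball.preimage (pr2 N r).continuous)).measurableSet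
  have cd : ContinuousOn (fun z => ‖((A.C i).σ (pr1 N r z)).det‖)
      {z | pr1 N r z ∈ U.D.W i ∧ pr2 N r z ∈ ball w δ} :=
    (bpe0_det i).comp (pr1 N r).continuous.continuousOn fun z hz => hz.1.1
  have cρ : ContinuousOn ρ (U.D.W i) := by
    have c1 : ContinuousOn (fun a => S.φ (A.p i a)) (U.D.W i) := fun a ha =>
      (nr_fs (S.g_hol ha)).1.continuousAt.continuousWithinAt
    rw [hρ]
    exact ((continuousOn_const.mul c1).add (continuousOn_const.mul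
      (U.pot.smo i).continuousOn)).neg.rexp.mul ((bpe0_det i).mono inter_subset_left)
  have e1 := sn5_ton (U.D.isOpen i) isOpen_ball
    (f := fun z => ρ (pr1 N r z) * ‖G (A.p i (pr1 N r z), pr2 N r z)‖ ^ 2)
    ((cρ.comp (pr1 N r).continuous.continuousOn fun z hz => hz.1).mul
      (((hG i).continuousOn.mono hZ).norm.pow 2))
  have e2 := sn5_ton (U.D.isOpen i) isOpen_ball cd
  simp only [pr1_ap, pr2_ap] at e1 e2
  have e3 : ∫⁻ z in {z | pr1 N r z ∈ U.D.W i ∧ pr2 N r z ∈ ball w δ},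
      ENNReal.ofReal ‖((A.C i).σ (pr1 N r z)).det‖ ≤ μ univ * volume (ball (0 : E r) δ) := by
    rw [← e2]
    simp only [setLIntegral_const]
    rw [lintegral_mul_const' _ _ measure_ball_lt_top.ne, Measure.addHaar_ball_center]
    refine mul_le_mul_left (le_of_eq_of_le ?_ (measure_mono (subset_univ (A.p i '' U.D.W i)))) _
    rw [hμ i (U.D.W i) inter_subset_left (U.D.isOpen i).measurableSet]
    simp only [ofReal_norm]
  have e4 : ∫⁻ z in {z | pr1 N r z ∈ U.D.W i ∧ pr2 N r z ∈ ball w δ}, ENNReal.ofReal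
      (ρ (pr1 N r z) * ‖G (A.p i (pr1 N r z), pr2 N r z)‖ ^ 2) ≤ V := by
    refine (setLIntegral_mono' hZm (g := fun z => ENNReal.ofReal a₀ * ENNReal.ofReal
      (Real.exp (-S.Φ j k γ ε b τ ((pD U b τ).p i z)) * ‖((A.C i).σ (pr1 N r z)).det‖ *
        ‖G ((pD U b τ).p i z) - S.cf h b τ R ((pD U b τ).p i z)‖ ^ 2) +
      ENNReal.ofReal (2 * C) * ENNReal.ofReal ‖((A.C i).σ (pr1 N r z)).det‖)
      fun z hz => ?_).trans ?_
    swap
    · rw [lintegral_add_right' _ ((cd.aemeasurable hZm).ennreal_ofReal.const_mul _),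
        lintegral_const_mul' _ _ ENNReal.ofReal_ne_top,
        lintegral_const_mul' _ _ ENNReal.ofReal_ne_top, hV]
      exact add_le_add (mul_le_mul_right ((lintegral_mono_set hZ).trans hi) _)
        (mul_le_mul_right e3 _)
    rw [← ENNReal.ofReal_mul ha0, ← ENNReal.ofReal_mul (by positivity),
      ← ENNReal.ofReal_add (by positivity) (by positivity)]
    refine ENNReal.ofReal_le_ofReal ?_
    have b1 := (H.cf_bd R ((pD U b τ).p i z)).1
    have b2 : bet b τ ((pD U b τ).p i z) ≤ -Real.log (τ / 4) :=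
      neg_le_neg (Real.log_le_log (by positivity) (by
        change _ ≤ τ - nsq (pr2 N r z - b)
        linarith [hb _ hz.2]))
    have b3 : 2 * Real.exp (-(j * S.φ (A.p i (pr1 N r z)) + k * U.φ (A.p i (pr1 N r z)))) ≤
        a₀ * Real.exp (-S.Φ j k γ ε b τ ((pD U b τ).p i z)) := by
      rw [ha₀, mul_assoc, ← Real.exp_add]
      refine mul_le_mul_of_nonneg_left (Real.exp_le_exp.2 ?_) zero_le_two
      have a1 := mul_le_mul_of_nonneg_left b2 (Nat.cast_nonneg (α := ℝ) j)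
      have a2 := mul_nonneg (Nat.cast_nonneg (α := ℝ) γ)
        (neg_nonneg.2 (rho_bd (Real.log (S.T ((pD U b τ).p i z) + ε))).1)
      have a3 : S.Φ j k γ ε b τ ((pD U b τ).p i z) = j * S.φ (A.p i (pr1 N r z)) +
          j * bet b τ ((pD U b τ).p i z) + γ * rho (Real.log (S.T ((pD U b τ).p i z) + ε)) +
          (k * U.φ (A.p i (pr1 N r z)) + (1 + U.l (A.p i (pr1 N r z)))⁻¹) := rfl
      have a4 : (1 + U.l (A.p i (pr1 N r z)))⁻¹ ≤ 1 :=
        inv_le_one_of_one_le₀ (by linarith [U.l_calc.2.1 _ hz.1.2])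
      rw [a3]
      linarith
    have b4 : Real.exp (-(j * S.φ (A.p i (pr1 N r z)) + k * U.φ (A.p i (pr1 N r z)))) *
        (C * Real.exp (k * U.φ (A.p i (pr1 N r z)))) ≤ C := by
      rw [mul_left_comm, ← Real.exp_add]
      refine mul_le_of_le_one_right hC (Real.exp_le_one_iff.2 ?_)
      linarith [mul_nonneg (Nat.cast_nonneg (α := ℝ) j) (S.φ_nn (A.p i (pr1 N r z)))]
    rw [hρ]
    change _ * ‖G ((pD U b τ).p i z)‖ ^ 2 ≤ _
    change _ ≤ C * Real.exp (k * U.φ (A.p i (pr1 N r z))) at b1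
    have b5 := Real.exp_nonneg (-(j * S.φ (A.p i (pr1 N r z)) + k * U.φ (A.p i (pr1 N r z))))
    have b6 := norm_nonneg ((A.C i).σ (pr1 N r z)).det
    beta_reduce
    generalize Real.exp (-(j * S.φ (A.p i (pr1 N r z)) + k * U.φ (A.p i (pr1 N r z)))) = p at *
    generalize Real.exp (-S.Φ j k γ ε b τ ((pD U b τ).p i z)) = q at *
    generalize G ((pD U b τ).p i z) = g at *
    generalize S.cf h b τ R ((pD U b τ).p i z) = s at *
    generalize ‖((A.C i).σ (pr1 N r z)).det‖ = d at *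
    have b7 : ‖g‖ ^ 2 ≤ 2 * ‖g - s‖ ^ 2 + 2 * ‖s‖ ^ 2 := by
      have h2 := norm_add_le (g - s) s
      rw [sub_add_cancel] at h2
      exact (pow_le_pow_left₀ (norm_nonneg _) h2 2).trans (add_sq_le.trans_eq (by ring))
    have b8 := (mul_le_mul_of_nonneg_left b1 b5).trans b4
    calc p * d * ‖g‖ ^ 2 ≤ p * d * (2 * ‖g - s‖ ^ 2 + 2 * ‖s‖ ^ 2) := by gcongr
      _ = 2 * p * (d * ‖g - s‖ ^ 2) + 2 * (p * ‖s‖ ^ 2) * d := by ring
      _ ≤ a₀ * q * (d * ‖g - s‖ ^ 2) + 2 * C * d := by gcongr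
      _ = _ := by ring
  rw [ENNReal.ofReal_mul (inv_pos.2 hκ0).le, ENNReal.ofReal_toReal hVt]
  refine le_trans ?_ (mul_le_mul_right (e1.le.trans e4) _)
  rw [← lintegral_const_mul' _ _ ENNReal.ofReal_ne_top]
  refine setLIntegral_mono' (U.D.isOpen i).measurableSet fun a ha => ?_
  have m1 : ENNReal.ofReal (κ * ‖G (A.p i a, w)‖ ^ 2) ≤
      ∫⁻ u in ball w δ, ENNReal.ofReal (‖G (A.p i a, u)‖ ^ 2) := by
    by_cases ht : ∫⁻ u in ball w δ, ENNReal.ofReal (‖G (A.p i a, u)‖ ^ 2) = ⊤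
    · exact ht ▸ le_top
    refine ENNReal.ofReal_le_of_le_toReal (le_of_eq_of_le ?_ (hmv _ w δ _ hδ ENNReal.toReal_nonneg
      ((pd_hol2 hG ha).mono hb') (ENNReal.ofReal_toReal ht).ge))
    rw [hκ]
    ring
  simp only [ENNReal.ofReal_mul (hρ0 a)]
  rw [lintegral_const_mul' _ _ ENNReal.ofReal_ne_top]
  refine le_of_eq_of_le ?_ (mul_le_mul_right (mul_le_mul_right m1 _) _)
  rw [← ENNReal.ofReal_mul (hρ0 a), ← ENNReal.ofReal_mul (inv_pos.2 hκ0).le, hρ]
  congr 1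
  field_simp

end Pool.Agent.ZB
end

-- part Pool.Agent.P.MP_63735c_ag.SN6
section

/-! The value on the graph. -/

open scoped ComplexOrder ContDiff Matrix Topology ENNReal
open Set Metric MeasureTheory Filter

namespace Pool.Agent.ZB

open Pool.Agent.BP Pool.Agent.SPF Pool.Agent.AB Pool.Agent.CK Pool.Agent.SE Pool.Agent.NL

variable {N r : ℕ} {X : Type} [TopologicalSpace X] [MeasurableSpace X] {A : Atlas X N}
  {μ : Measure X} {L : Line A} {U : Up A μ L} {k : ℕ} {S : Gm U r} {h : X → ℂ} {b : E r} {τ C : ℝ}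

theorem Gm.Good.graph (H : S.Good k h b τ C) (j : ℕ) (C₀ : ℝ) {i : A.ι} {z : E N}
    (hx : z ∈ U.D.W i) (hb : S.g (A.p i z) ∈ Bl b (τ / 4)) {θ : ℝ} (hθ : 0 < θ) :
    ∀ᶠ ε in 𝓝[>] (0 : ℝ), ∀ R G, ε⁻¹ ≤ R → (pD U b τ).Hol G →
      S.dist j k (N + r + 1) ε b τ G (S.cf h b τ R) i ≤ ENNReal.ofReal C₀ →
        ‖G (A.p i z, S.g (A.p i z)) - h (A.p i z)‖ ≤ θ := by
  have hτ := H.τ_pos
  have hz : z ∈ (A.C i).W := hx.1
  obtain ⟨y₀, hy₀⟩ : ∃ y₀, y₀ = ap z (S.g (A.p i z)) := ⟨_, rfl⟩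
  have q1 : pr1 N r y₀ = z := by rw [hy₀, pr1_ap]
  have q2 : pr2 N r y₀ = S.g (A.p i z) := by rw [hy₀, pr2_ap]
  have hb' : nsq (S.g (A.p i z) - b) < τ / 4 := hb
  have hW : y₀ ∈ (pD U b τ).W i := ⟨by rw [q1]; exact hx, by
    rw [q2]; exact lt_trans hb' (by linarith)⟩
  have d1 : DifferentiableAt ℂ (fun y => S.g (A.p i (pr1 N r y))) y₀ :=
    DifferentiableAt.comp (g := fun y => S.g (A.p i y)) y₀
      (by rw [q1]; exact (S.g_hol hx).self_of_nhds) (pr1 N r).differentiableAt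
  have d2 := d1.sub (pr2 N r).differentiableAt
  obtain ⟨Λ, hΛ, d3⟩ := d2.isBigO_sub.exists_pos
  have d4 : ∀ᶠ y in 𝓝 y₀, nsq (S.g (A.p i (pr1 N r y)) - b) < τ / 4 :=
    (nsq_smooth.continuous.continuousAt.comp (d1.continuousAt.sub continuousAt_const)).eventually_lt
      continuousAt_const (by
        change nsq (S.g (A.p i (pr1 N r y₀)) - b) < τ / 4
        rw [q1]; exact hb')
  have d5 : ∀ᶠ y in 𝓝 y₀, nsq (pr2 N r y - b) < τ / 4 :=
    (nr6_cont b).continuousAt.eventually_lt continuousAt_const (by rw [q2]; exact hb')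
  obtain ⟨K, k1, k2, k3⟩ := exists_compact_subset (A.C i).isOpen hz
  obtain ⟨c, B₀, hc, -, hcb⟩ := cpt_bds L k1 k3
  have d6 : ∀ᶠ y in 𝓝 y₀, pr1 N r y ∈ K := (pr1 N r).continuous.continuousAt
    (by rw [q1]; exact mem_interior_iff_mem_nhds.1 k2)
  have d7 : ∀ᶠ y in 𝓝 y₀, U.l2 (A.p i (pr1 N r y)) < U.l2 (A.p i z) + 1 :=
    (sn3_l2 hW).continuousAt.eventually_lt continuousAt_const (by rw [q1]; exact lt_add_one _)
  have d8 : ∀ᶠ y in 𝓝 y₀, U.φ (A.p i (pr1 N r y)) < U.φ (A.p i z) + 1 :=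
    (sn0_pr (f := fun y => U.φ (A.p i y)) ((U.pot.smo i).contDiffAt ((U.D.isOpen i).mem_nhds
      hW.1))).1.continuousAt.eventually_lt continuousAt_const (by rw [q1]; exact lt_add_one _)
  obtain ⟨δ, hδ, hall⟩ := Metric.eventually_nhds_iff_ball.1 (((d3.bound.and d4).and
    (d5.and (d6.and (d7.and d8)))).and (((pD U b τ).isOpen i).mem_nhds hW))
  obtain ⟨c₀, hc₀, hmv⟩ := CL.mv_rad (N := N + r)
  obtain ⟨a, ha⟩ : ∃ a, a = Real.exp (j * Real.log (1 + r * 2 ^ 2) + j * -Real.log (τ / 2) +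
      (N + r + 1 : ℕ) + (k * (U.φ (A.p i z) + 1) + 1)) * (r * Λ ^ 2 + 1) ^ (N + r + 1) / c :=
    ⟨_, rfl⟩
  have ha0 : 0 < a := by rw [ha]; positivity
  have t0 : ∀ q : ℝ, 0 < q → ∀ p : ℝ, ∀ᶠ ε in 𝓝[>] (0 : ℝ), p * ε < q := fun q hq p =>
    nhdsWithin_le_nhds ((continuous_const.mul continuous_id).continuousAt.eventually_lt
      continuousAt_const (by simpa using hq))
  filter_upwards [self_mem_nhdsWithin, t0 _ (pow_pos hδ 2) 1, t0 _ hτ (2 * (r * Λ ^ 2)),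
    t0 _ (mul_pos hc₀ (pow_pos hθ 2)) (a * |C₀|),
    t0 _ one_pos (-Real.log (τ / 2) + (U.l2 (A.p i z) + 1))] with ε e0 e1 e2 e3 e4 R G hR hG hi
  have e0 : 0 < ε := e0
  have hs := Real.sqrt_pos.2 e0
  have hsδ : √ε ≤ δ := Real.sqrt_le_iff.2 ⟨hδ.le, by linarith⟩
  have hT : ∀ y ∈ ball y₀ √ε, S.T ((pD U b τ).p i y) ≤ r * Λ ^ 2 * ε := fun y hy => by
    have a1 := (hall y (ball_subset_ball hsδ hy)).1.1.1
    simp only [Pi.sub_apply, q1, q2, sub_self, sub_zero] at a1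
    have a2 : ‖y - y₀‖ ^ 2 ≤ ε := by
      rw [← Real.sq_sqrt e0.le]
      exact pow_le_pow_left₀ (norm_nonneg _) (mem_ball_iff_norm.1 hy).le 2
    refine (nsq_le _).2.trans ?_
    rw [mul_assoc]
    refine mul_le_mul_of_nonneg_left ((pow_le_pow_left₀ (norm_nonneg _) a1 2).trans ?_)
      (Nat.cast_nonneg r)
    rw [mul_pow]
    gcongr
  have hβ : ∀ y ∈ ball y₀ √ε, bet b τ ((pD U b τ).p i y) ≤ -Real.log (τ / 2) := fun y hy => by
    have a1 := (hall y (ball_subset_ball hsδ hy)).1.2.1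
    exact neg_le_neg (Real.log_le_log (half_pos hτ) (by
      change _ ≤ τ - nsq (pr2 N r y - b)
      linarith))
  have h3 := hmv (fun y => G (A.p i (pr1 N r y), pr2 N r y) - h (A.p i (pr1 N r y))) y₀ √ε
    (a * ε ^ (N + r + 1) * |C₀| + 0 * (volume (ball y₀ √ε)).toReal) hs (by positivity)
    (fun y hy => by
      obtain ⟨⟨⟨-, a1⟩, -⟩, a2⟩ := hall y (ball_subset_ball hsδ hy)
      exact (((hG i).differentiableAt (((pD U b τ).isOpen i).mem_nhds a2)).sub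
        ((H.hol i _ a2.1 (by linarith)).comp y
          (pr1 N r).differentiableAt)).differentiableWithinAt)
    (nr6_int measurableSet_ball (fun y hy => (hall y (ball_subset_ball hsδ hy)).2)
      measure_ball_lt_top.ne (by positivity) le_rfl (fun y _ => by positivity)
      (fun y hy => ?_) hi)
  · rw [q1, q2, zero_mul, add_zero, mul_pow, ← pow_mul, mul_comm (N + r) 2, pow_mul,
      Real.sq_sqrt e0.le, pow_succ ε] at h3
    refine le_of_sq_le_sq ?_ hθ.le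
    have a1 : 0 < ε ^ (N + r) := by positivity
    refine le_of_mul_le_mul_left (le_of_mul_le_mul_right ?_ a1) hc₀
    have a2 := mul_le_mul_of_nonneg_right e3.le a1.le
    linarith
  obtain ⟨⟨⟨-, a1⟩, -, a3, a10, a11⟩, a2⟩ := hall y (ball_subset_ball hsδ hy)
  have a4 := hT y hy
  have a5 := hβ y hy
  have a6 : S.cf h b τ R ((pD U b τ).p i y) = h (A.p i (pr1 N r y)) :=
    (H.cf_bd R _).2 a2.1.2 a2.2 ((add_le_add a5 a10.le).trans
      (((le_div_iff₀ e0).2 e4.le).trans ((one_div ε).trans_le hR))) (by linarith)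
  have a7 : S.φ (A.p i (pr1 N r y)) ≤ Real.log (1 + r * 2 ^ 2) := by
    have b0 := (sq_nonneg _).trans (nsq_le (S.g (A.p i (pr1 N r y)))).1
    refine Real.log_le_log (by linarith) (add_le_add le_rfl ((nsq_le _).2.trans ?_))
    have b1 := (nsq_le _).1.trans a1.le
    have b2 := H.τ_le
    have b3 := H.b_le
    have b4 := norm_add_le (S.g (A.p i (pr1 N r y)) - b) b
    rw [sub_add_cancel] at b4
    have b5 : ‖S.g (A.p i (pr1 N r y)) - b‖ ≤ 1 := by
      nlinarith [norm_nonneg (S.g (A.p i (pr1 N r y)) - b)]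
    gcongr
    linarith
  have a8 : rho (Real.log (S.T ((pD U b τ).p i y) + ε)) ≤ Real.log ((r * Λ ^ 2 + 1) * ε) + 1 := by
    have b0 : 0 ≤ S.T ((pD U b τ).p i y) := (sq_nonneg _).trans (nsq_le _).1
    refine (rho_bd _).2.1.trans (add_le_add (Real.log_le_log (by linarith) (by linarith)) le_rfl)
  have a9 : 1 ≤ a * ε ^ (N + r + 1) * (Real.exp (-S.Φ j k (N + r + 1) ε b τ ((pD U b τ).p i y)) *
      ‖((A.C i).σ (pr1 N r y)).det‖) := by
    have b1 : S.Φ j k (N + r + 1) ε b τ ((pD U b τ).p i y) = j * S.φ (A.p i (pr1 N r y)) +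
        j * bet b τ ((pD U b τ).p i y) +
        (N + r + 1 : ℕ) * rho (Real.log (S.T ((pD U b τ).p i y) + ε)) +
        (k * U.φ (A.p i (pr1 N r y)) + (1 + U.l (A.p i (pr1 N r y)))⁻¹) := rfl
    have b2 : Real.exp (S.Φ j k (N + r + 1) ε b τ ((pD U b τ).p i y)) ≤
        a * ε ^ (N + r + 1) * c := by
      have b3 : ((r * Λ ^ 2 + 1) * ε) ^ (N + r + 1) =
          Real.exp ((N + r + 1 : ℕ) * Real.log ((r * Λ ^ 2 + 1) * ε)) := by
        rw [Real.exp_nat_mul, Real.exp_log (by positivity)]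
      rw [ha, mul_right_comm, div_mul_cancel₀ _ hc.ne', mul_assoc, ← mul_pow, b3, ← Real.exp_add,
        b1]
      refine Real.exp_le_exp.2 ?_
      have b4 := mul_le_mul_of_nonneg_left a7 (Nat.cast_nonneg (α := ℝ) j)
      have b5 := mul_le_mul_of_nonneg_left a5 (Nat.cast_nonneg (α := ℝ) j)
      have b6 := mul_le_mul_of_nonneg_left a8 (Nat.cast_nonneg (α := ℝ) (N + r + 1))
      rw [mul_add, mul_one] at b6
      have b8 := mul_le_mul_of_nonneg_left a11.le (Nat.cast_nonneg (α := ℝ) k)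
      have b9 : (1 + U.l (A.p i (pr1 N r y)))⁻¹ ≤ 1 :=
        inv_le_one_of_one_le₀ (by linarith [U.l_calc.2.1 _ a2.1.2])
      exact (add_le_add (add_le_add (add_le_add b4 b5) b6) (add_le_add b8 b9)).trans_eq (by ring)
    have b7 := (hcb _ a3).1
    rw [Real.exp_neg, mul_left_comm, ← div_eq_inv_mul, one_le_div (Real.exp_pos _)]
    exact b2.trans (by gcongr)
  rw [a6, add_zero, ← mul_assoc]
  exact le_mul_of_one_le_left (sq_nonneg _) a9

end Pool.Agent.ZB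
end

-- part Pool.Agent.P.MP_63735c_ag.SN7
section

/-! The limit of the solutions. -/

open scoped ComplexOrder ContDiff Matrix Topology ENNReal
open Set Metric MeasureTheory Filter

namespace Pool.Agent.ZB

open Pool.Agent.BP Pool.Agent.SPF Pool.Agent.AB Pool.Agent.CK Pool.Agent.SE Pool.Agent.NL
  Pool.Agent.CS

theorem sn_lim (N r : ℕ) : ∃ j : ℕ, 1 ≤ j ∧ ∀ {X : Type} [TopologicalSpace X] [MeasurableSpace X]
    [BorelSpace X] [T2Space X] {A : Atlas X N} {L : Line A} {μ : Measure X} [IsFiniteMeasure μ]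
    {K : Form11 A} {U : Up A μ L} (S : Gm U r) (k d : ℕ) (w₀ h : X → ℂ) (b : E r) (τ C C' : ℝ),
    IsVolume A μ → (∀ i, ∀ z ∈ (A.C i).W, (K.h i z).PosDef) → Bd11 A K → SB.Cov L → SB.SecBd L →
    U.M ≤ k → U.D.Hol w₀ →
    (∀ y ∈ U.W, ‖w₀ y‖ ^ 2 * Real.exp (-(d * U.φ y)) * (1 + nsq (S.g y)) ≤ C') →
    S.Good k h b τ C → ∃ (m : ℕ) (t : Fin m → A.ι → E N → ℂ) (u : E r → E m),
      (∀ a, L.IsSection (U.m * (k + d * j)) (t a)) ∧ DifferentiableOn ℂ u (Bl b (τ / 4)) ∧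
      ∀ i, ∀ z ∈ U.D.W i, S.g (A.p i z) ∈ Bl b (τ / 4) →
        h (A.p i z) * w₀ (A.p i z) ^ j * U.s i z ^ (k + d * j) =
          ∑ a, u (S.g (A.p i z)) a * t a i z := by
  obtain ⟨j, hj1, hj⟩ := sn_out r (N + r + 1)
  refine ⟨j, hj1, ?_⟩
  intro X _ _ _ _ A L μ _ K U S k d w₀ h b τ C C' hμ hK hKb hc hS hk hw hC' H
  obtain ⟨m, c, ζ, t, t1, t2, t3⟩ :=
    sec_spanS U hμ hc hS (SB.sbep_dense U hμ) (U.m * (k + d * j))
  obtain ⟨C₀, -, h1⟩ := hj S k h b τ C hk hμ hK hKb H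
  choose! R R1 G G1 G2 using fun ε (hε : 0 < ε ∧ ε ≤ 1) => h1 ε hε.1 hε.2 ε⁻¹
  obtain ⟨C₁, hC₁, h2⟩ := H.slice hμ j (N + r + 1) C₀
  have hs : Bl b (τ / 4) ⊆ Bl b τ := fun w hw =>
    (show nsq (w - b) < τ / 4 from hw).trans (by linarith [H.τ_pos])
  have h0 : 0 ≤ |C'| ^ j * C₁ := by positivity
  have hd : ∀ ε, 0 < ε ∧ ε ≤ 1 → ∀ w ∈ Bl b (τ / 4), ∀ i, U.dist (k + d * j) (fun _ => 0)
      (fun x => G ε (x, w) * w₀ x ^ j) (fun _ => 0) i ≤ ENNReal.ofReal (|C'| ^ j * C₁) := by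
    intro ε he w hw' i
    rw [ENNReal.ofReal_mul (by positivity)]
    refine le_trans ?_ (mul_le_mul_right (h2 ε _ _ (G1 ε he) i (G2 ε he i) w hw') _)
    rw [← lintegral_const_mul' _ _ ENNReal.ofReal_ne_top]
    refine setLIntegral_mono' (U.D.isOpen i).measurableSet fun z hz => ?_
    rw [← ENNReal.ofReal_mul (by positivity)]
    refine ENNReal.ofReal_le_ofReal ?_
    have a0 := nr4_nonneg (S.g (A.p i z))
    have a1 : ‖w₀ (A.p i z)‖ ^ 2 * Real.exp (-(d * U.φ (A.p i z))) ≤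
        |C'| * Real.exp (-S.φ (A.p i z)) := by
      rw [Gm.φ, Real.exp_neg (Real.log _), Real.exp_log (by positivity), ← div_eq_mul_inv,
        le_div_iff₀ (by positivity)]
      exact (hC' _ hz.2).trans (le_abs_self _)
    have a2 := pow_le_pow_left₀ (by positivity) a1 j
    rw [mul_pow, mul_pow, ← Real.exp_nat_mul, ← Real.exp_nat_mul] at a2
    have a3 := mul_le_mul_of_nonneg_right a2 (show 0 ≤ Real.exp (-(k * U.φ (A.p i z))) *
      ‖((A.C i).σ z).det‖ * ‖G ε (A.p i z, w)‖ ^ 2 by positivity)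
    refine le_of_eq_of_le ?_ (a3.trans_eq ?_)
    · rw [show -(((k + d * j : ℕ) : ℝ) * U.φ (A.p i z) + 0) =
        j * -(d * U.φ (A.p i z)) + -(k * U.φ (A.p i z)) by push_cast; ring, Real.exp_add, sub_zero,
        norm_mul, norm_pow]
      ring
    · rw [show -(j * S.φ (A.p i z) + k * U.φ (A.p i z)) =
        j * -S.φ (A.p i z) + -(k * U.φ (A.p i z)) by ring, Real.exp_add]
      ring
  have hT : ∀ ε, 0 < ε ∧ ε ≤ 1 → ∀ w ∈ Bl b (τ / 4), ∃ T, L.IsSection (U.m * (k + d * j)) T ∧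
      ∀ i, ∀ z ∈ U.D.W i, T i z = G ε (A.p i z, w) * w₀ (A.p i z) ^ j * U.s i z ^ (k + d * j) := by
    intro ε he w hw'
    refine U.ext_sec hμ (SB.sbea_ext U hμ) (g := fun x => G ε (x, w) * w₀ x ^ j)
      (fun i => (pd_hol1 (G1 ε he) (hs hw') i).mul ((hw i).pow j)) _ fun i z hz => ?_
    obtain ⟨r', hr', hW'⟩ := nhds_basis_closedBall.mem_iff.1 ((A.C i).isOpen.mem_nhds hz)
    obtain ⟨B', -, hA'⟩ := U.loc_l2 (k + d * j) h0 le_rfl hW'
    exact ⟨r', hr', ball_subset_closedBall.trans hW',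
      ((hA' (fun x => G ε (x, w) * w₀ x ^ j) (fun _ => 0) (fun _ => 0) (fun _ => le_rfl)
        (fun _ => by simp) (hd ε he w hw' i)).trans_lt ENNReal.ofReal_lt_top).ne⟩
  choose B hB using fun a => coef_bd U hμ (t1 a).1 (k + d * j) h0 le_rfl
  obtain ⟨B₀, hB₀⟩ := (finite_range B).bddAbove
  let 𝒰 := Ultrafilter.of (𝓝[>] (0 : ℝ))
  have hU : (𝒰 : Filter ℝ) ≤ 𝓝[>] 0 := Ultrafilter.of_le _
  have hε : ∀ᶠ ε in (𝒰 : Filter ℝ), 0 < ε ∧ ε ≤ 1 := hU (Ioc_mem_nhdsGT one_pos)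
  obtain ⟨u, u1, u2⟩ := CL.hol_ulim 𝒰 (Bl_open b (τ / 4)) (M := |B₀|)
    (f := fun ε w a => G ε (A.p (c a) (ζ a), w) * w₀ (A.p (c a) (ζ a)) ^ j *
      U.s (c a) (ζ a) ^ (k + d * j)) (hε.mono fun ε he =>
      ⟨differentiableOn_pi.2 fun a =>
        (((pd_hol2 (G1 ε he) (t1 a)).mono hs).mul_const _).mul_const _,
      fun w hw' => (pi_norm_le_iff_of_nonneg (abs_nonneg _)).2 fun a => by
        obtain ⟨T, T1, T2⟩ := hT ε he w hw'
        rw [← T2 _ _ (t1 a)]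
        exact (hB a (fun x => G ε (x, w) * w₀ x ^ j) (fun _ => 0) (fun _ => 0) (T (c a))
          (fun _ => le_rfl) (fun _ => by simp) (hd ε he w hw' _) (T1.1 _) (T2 _)).trans
            ((hB₀ ⟨a, rfl⟩).trans (le_abs_self _))⟩)
  refine ⟨m, t, u, t2, u1, fun i z hz hg => ?_⟩
  have l1 : Tendsto (fun ε => G ε (A.p i z, S.g (A.p i z))) 𝒰 (𝓝 (h (A.p i z))) :=
    Metric.tendsto_nhds.2 fun θ hθ => by
      filter_upwards [hε, hU (H.graph j C₀ hz hg (half_pos hθ))] with ε he h2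
      exact (dist_eq_norm _ _).trans_lt
        ((h2 _ _ (R1 ε he) (G1 ε he) (G2 ε he i)).trans_lt (half_lt_self hθ))
  refine tendsto_nhds_unique ((l1.mul_const _).mul_const _) ((tendsto_finsetSum _ fun a _ =>
    (tendsto_pi_nhds.1 (u2 _ hg).1 a).mul_const (t a i z)).congr' (hε.mono fun ε he => ?_))
  obtain ⟨T, T1, T2⟩ := hT ε he _ hg
  beta_reduce
  rw [← T2 i z hz, t3 T T1 i z hz.1]
  exact Finset.sum_congr rfl fun a _ => by rw [T2 _ _ (t1 a)]

end Pool.Agent.ZB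
end

-- part Pool.Agent.P.MP_63735c_ag.SN8
section

/-! The map given by finitely many quotients of sections on a singular space. -/

open scoped ComplexOrder ContDiff Matrix Topology ENNReal
open Set Metric MeasureTheory Filter

namespace Pool.Agent.ZB

open Pool.Agent.BP Pool.Agent.SPF Pool.Agent.AB Pool.Agent.CK Pool.Agent.SE Pool.Agent.NL

variable {N r : ℕ} {X : Type} [TopologicalSpace X] {R : Set X} {A : Atlas R N} {B : Amb R A}
  {K : Form11 A} {L : Line A} {k : ℕ} {s : Fin r → A.ι → E N → ℂ} {t : A.ι → E N → ℂ} {x : X}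

/-- The quotients of the sections `s l` by the section `t`. -/
noncomputable def gS (A : Atlas R N) (s : Fin r → A.ι → E N → ℂ) (t : A.ι → E N → ℂ) (y : X) :
    E r := fun l => rat A (s l) t y

theorem gS_reg (hs : ∀ l, L.IsSection k (s l)) (ht : L.IsSection k t) {i : A.ι} {z : E N}
    (hz : z ∈ (A.C i).W) (h : t i z ≠ 0) : gS A s t (A.p i z) = fun l => s l i z / t i z :=
  funext fun l => rat_reg (hs l) ht hz h

theorem sn8_nrm (hs : ∀ l, L.IsSection k (s l)) (ht : L.IsSection k t) {i : A.ι} {z : E N}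
    (hz : z ∈ (A.C i).W) (h : t i z ≠ 0) :
    nrm L k t (A.p i z) * nsq (fun l => s l i z / t i z) = ∑ l, nrm L k (s l) (A.p i z) := by
  rw [nsq, Finset.mul_sum]
  refine Finset.sum_congr rfl fun l _ => ?_
  have : ‖t i z‖ ≠ 0 := norm_ne_zero_iff.2 h
  rw [nrm_eq ht hz, nrm_eq (hs l) hz, norm_div]
  field_simp

namespace Sg

variable (S : Sg B K L) (hs : ∀ l, L.IsSection k (s l)) (ht : L.IsSection k t)
include S hs ht

theorem gS_cont (h : ¬ VanS L k t x) : ContinuousAt (gS A s t) x :=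
  continuousAt_pi.2 fun l => S.rat_cont (hs l) ht h

theorem gS_fib (sp : ∀ T, L.IsSection k T → ∃ c : Fin r → ℂ, ∀ i, ∀ y ∈ (A.C i).W,
    T i y = ∑ a, c a * s a i y) (h : ¬ VanS L k t x) (y : X) :
    y ∈ FibreS L k x ↔ ¬ VanS L k t y ∧ gS A s t y = gS A s t x := by
  constructor
  · intro hy
    have n1 : ¬ VanS L k t y := fun e => h ((hy _ ht).1 e)
    refine ⟨n1, funext fun l => ?_⟩
    have a1 := sf1_lin (hs l) ht (rat A (s l) t x)
    have a2 := (hy _ a1).2 ((S.rat_zero a1 ht h).1 (by rw [S.rat_lin (hs l) ht h, sub_self]))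
    rwa [← S.rat_zero a1 ht n1, S.rat_lin (hs l) ht n1, sub_eq_zero] at a2
  · rintro ⟨n1, hy⟩ T hT
    obtain ⟨c, hc⟩ := sp T hT
    have e : ∀ a, rat A (s a) t y = rat A (s a) t x := congrFun hy
    rw [← S.rat_zero hT ht n1, ← S.rat_zero hT ht h, S.rat_sum hs c hT hc ht n1,
      S.rat_sum hs c hT hc ht h]
    simp only [e]

theorem gS_closed [CompactSpace X] (sp : ∀ T, L.IsSection k T → ∃ c : Fin r → ℂ, ∀ i,
    ∀ y ∈ (A.C i).W, T i y = ∑ a, c a * s a i y) (hb : BpfS L k) (b : E r) (τ : ℝ) :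
    IsClosed {y | ¬ VanS L k t y ∧ nsq (gS A s t y - b) ≤ τ} := by
  obtain ⟨c, O, c0, -, hO, hc⟩ := S.cpt_lb hs isCompact_univ fun x _ => by_contra fun hn => by
    obtain ⟨T, a1, a2⟩ := hb x
    obtain ⟨c, hc⟩ := sp T a1
    push Not at hn
    have := S.rat_sum hs c a1 hc a1 a2
    simp [S.rat_self a1 a2, fun a => (S.rat_zero (hs a) a1 a2).2 (hn a)] at this
  refine isClosed_of_closure_subset fun y hy => ?_
  have hn : Continuous fun w : E r => nsq (w - b) :=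
    nsq_smooth.continuous.comp (continuous_id.sub continuous_const)
  have n1 : ¬ VanS L k t y := fun e => by
    obtain ⟨D, hD⟩ : ∃ D, D = 2 * |τ| + 2 * nsq b + 1 := ⟨_, rfl⟩
    have D0 : 0 < D := by linarith [abs_nonneg τ, nr4_nonneg b]
    obtain ⟨Q, q1, q2, q3⟩ := _root_.eventually_nhds_iff.1 (eventually_comap.1
      (((vanS_iff ht).1 e).eventually_lt_const (div_pos c0 D0)))
    obtain ⟨y', y1, y2, y3⟩ := mem_closure_iff.1 hy Q q2 q3
    have := S.neBot y'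
    obtain ⟨c', c1, c2⟩ := S.nvan_lb ht y2
    have l1 : Tendsto (fun v : R => nsq fun l => gl A (fun i z => s l i z / t i z) v) (nr R y')
        (𝓝 (nsq (gS A s t y'))) := (nsq_smooth.continuous.tendsto _).comp
      (tendsto_pi_nhds.2 fun l => S.rat_tendsto (hs l) ht y2)
    have l2 : nsq (gS A s t y' - b + b) ≤ 2 * nsq (gS A s t y' - b) + 2 * nsq b := by
      have := nr4_sub (gS A s t y' - b) (-b)
      rwa [sub_neg_eq_add, show nsq (-b) = nsq b by simp [nsq]] at this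
    rw [sub_add_cancel] at l2
    obtain ⟨v, ⟨v1, v2⟩, v3⟩ := ((c2.and (l1.eventually_lt_const (show _ < D by
      linarith [le_abs_self τ]))).and (preimage_mem_comap (q2.mem_nhds y1))).exists
    obtain ⟨i, z, hz, rfl⟩ := A.cover v
    have h0 : t i z ≠ 0 := fun e => (van_nrm ht _).2 (c1.trans_le v1) ((van_iff ht hz).2 e)
    simp only [gl_rat (hs _) ht hz] at v2
    have a1 := (hc _ (hO (mem_univ _))).trans_eq (sn8_nrm hs ht hz h0).symm
    have a2 := (lt_div_iff₀ D0).1 (q1 _ v3 _ rfl)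
    exact (a1.trans (mul_le_mul_of_nonneg_left v2.le (sf1_nn ht _))).not_gt a2
  exact ⟨n1, ContinuousWithinAt.closure_le hy
    (hn.continuousAt.comp (S.gS_cont hs ht n1)).continuousWithinAt continuousWithinAt_const
    fun _ h => h.2⟩

omit hs ht in
/-- A holomorphic function is bounded on a closed set. -/
theorem hol_bd [CompactSpace X] {V C : Set X} (hV : IsOpen V) (hC : IsClosed C) (hCV : C ⊆ V)
    {h : R → ℂ} (hh : HolOn A (Subtype.val ⁻¹' V) h) :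
    ∃ b : ℝ, 0 ≤ b ∧ ∀ y : R, (y : X) ∈ C → ‖h y‖ ≤ b := by
  obtain ⟨b, b0, hb⟩ := CS.cpt_unif (X := X)
    (fun b x => x ∈ C → ∀ hx : x ∈ R, ‖h ⟨x, hx⟩‖ ≤ b)
    (fun _ _ _ e h a hx => (h a hx).trans e) fun x => by
      by_cases hx : x ∈ C
      · obtain ⟨α, hα⟩ := B.cover x
        obtain ⟨F, f1, f2⟩ := S.nor α x hα V hV (hCV hx) h hh
        refine ⟨‖F (B.z α x)‖ + 1, ?_⟩
        filter_upwards [f2, ((f1.self_of_nhds.continuousAt.comp ((B.cont α).continuousAt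
          ((B.V_open α).mem_nhds hα))).norm).eventually_lt continuousAt_const
            (lt_add_one ‖F (B.z α x)‖)] with y a1 a2 _ hy
        rw [a1 hy]
        exact a2.le
      · exact ⟨0, mem_of_superset (hC.isOpen_compl.mem_nhds hx) fun y hy a => (hy a).elim⟩
  exact ⟨b, b0, fun y hy => hb y hy y.2⟩

end Sg

end Pool.Agent.ZB
end

-- part Pool.Agent.P.MP_63735c_ag.SNZ
section

/-! Functions near a fibre in a singular space come from the image. -/

open scoped ComplexOrder ContDiff Matrix Topology ENNReal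
open Set Metric MeasureTheory Filter

namespace Pool.Agent.ZB

open Pool.Agent.BP Pool.Agent.SPF Pool.Agent.AB Pool.Agent.CK Pool.Agent.SE Pool.Agent.NL

variable {N : ℕ} {X : Type} [TopologicalSpace X] [T2Space X] [CompactSpace X] {R : Set X}
  [PreconnectedSpace R] [MeasurableSpace R] [BorelSpace R] {A : Atlas R N} {B : Amb R A}
  {K : Form11 A} {L : Line A} {μ : Measure R} [IsFiniteMeasure μ]

/-- The identity over a small ball. -/
theorem snz_id (U : Up A μ L) (hμ : IsVolume A μ) (S : Sg B K L) (hc : SB.Cov L) {d : ℕ}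
    (hd : 1 ≤ d) (r : ℕ) : ∃ e : ℕ, 1 ≤ e ∧ ∀ (s : Fin r → A.ι → E N → ℂ) (t : A.ι → E N → ℂ)
      (b : E r) (τ C : ℝ) (h : R → ℂ), (∀ l, L.IsSection (U.m * d) (s l)) →
      L.IsSection (U.m * d) t → (∃ x, ¬ VanS L (U.m * d) t x) → 0 < τ → τ ≤ 1 →
      (∀ i, ∀ z ∈ (A.C i).W, t i z ≠ 0 → nsq ((fun l => s l i z / t i z) - b) ≤ 4 * τ →
        DifferentiableAt ℂ (fun w => h (A.p i w)) z ∧ ‖h (A.p i z)‖ ≤ C) →
      ∃ (m : ℕ) (T : Fin m → A.ι → E N → ℂ) (u : E r → E m),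
        (∀ a, L.IsSection (U.m * d * e) (T a)) ∧ DifferentiableOn ℂ u (Bl 0 (τ / 4)) ∧
        ∀ i, ∀ z ∈ (A.C i).W, t i z ≠ 0 → (fun l => s l i z / t i z) - b ∈ Bl 0 (τ / 4) →
          h (A.p i z) * t i z ^ e = ∑ a, u ((fun l => s l i z / t i z) - b) a * T a i z := by
  have hB := bdd_of S.kah S.nor S.car
  have hS : SB.SecBd L := fun j s hs => (hB j s hs).imp fun b hb i z hz => nrm_eq hs hz ▸ hb _
  obtain ⟨j, hj1, hj⟩ := sn_lim N r
  obtain ⟨j', hj'⟩ : ∃ j', j' = ⌈U.M⌉₊ + U.m * d := ⟨_, rfl⟩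
  refine ⟨j' + j, by omega, fun s t b τ C h hs ht ⟨x, hx⟩ τ0 τ1 hh => ?_⟩
  obtain ⟨U', m', M', hU⟩ := up_cut U hμ hc hS ht (by
    obtain ⟨c, c0, c1⟩ := S.nvan_lb ht hx
    have := S.neBot x
    exact c1.exists.imp fun y hy => (c0.trans_le hy).ne')
  have hM : U'.M ≤ (d * j' : ℕ) := by
    have : (j' : ℝ) ≤ (d * j' : ℕ) := Nat.cast_le.2 (Nat.le_mul_of_pos_left _ hd)
    rw [M']
    refine le_trans ?_ this
    rw [hj', Nat.cast_add]
    linarith [Nat.le_ceil U.M]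
  rw [← m'] at hs ht ⊢
  obtain ⟨w₀, w1, w2, w3⟩ := U'.ratio ht
  have hg : ∀ i, ∀ z ∈ U'.D.W i, gS A s t (A.p i z) - b = (fun l => s l i z / t i z) - b :=
    fun i z hz => by rw [gS_reg hs ht hz.1 (hU i z hz)]
  have hq : ∀ i, ∀ z ∈ (A.C i).W, t i z ≠ 0 →
      DifferentiableAt ℂ (fun z => (fun l => s l i z / t i z) - b) z := fun i z hz h0 =>
    (differentiableAt_pi.2 fun l => by
      simp only [div_eq_mul_inv]
      exact (((hs l).1 i).differentiableAt ((A.C i).isOpen.mem_nhds hz)).mul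
        (((ht.1 i).differentiableAt ((A.C i).isOpen.mem_nhds hz)).inv h0)).sub_const b
  let G : Gm U' r := ⟨fun y => gS A s t y - b, fun i z hz =>
    (hq i z hz.1 (hU i z hz)).differentiableWithinAt.congr (hg i) (hg i z hz)⟩
  obtain ⟨C₁, hC₁⟩ := hB _ t ht
  choose C₂ hC₂ using fun l => hB _ _ (hs l)
  obtain ⟨m, T, u, T1, u1, u2⟩ := hj G (d * j') d w₀ (fun y => h y * w₀ y ^ j') 0 τ
    (C ^ 2 * |C₁| ^ j') (C₁ * (1 + 2 * nsq b) + 2 * ∑ l, C₂ l) hμ S.kah.isKahler.posDef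
    S.kah.isKahler.bd11 hc hS hM w1 (fun y hy => by
      obtain ⟨i, z, hz, rfl⟩ := A.cover y
      have a1 := sn8_nrm hs ht hz (hU i z ⟨hz, hy⟩)
      have a2 := mul_le_mul_of_nonneg_left (nr4_sub (fun l => s l i z / t i z) b)
        (sf1_nn ht (A.p i z))
      have a3 := mul_le_mul_of_nonneg_right (hC₁ (A.p i z))
        (show 0 ≤ 1 + 2 * nsq b by linarith [nr4_nonneg b])
      have a4 := Finset.sum_le_sum fun l (_ : l ∈ Finset.univ) => hC₂ l (A.p i z)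
      rw [w3 _ hy, show G.g (A.p i z) = _ from hg i z ⟨hz, hy⟩]
      linarith)
    ⟨by simp, τ0, τ1, by positivity, fun i z hz a => by
      rw [sub_zero, show G.g (A.p i z) = _ from hg i z hz] at a
      exact (hh i z hz.1 (hU i z hz) a).1.mul
        (((w1 i).differentiableAt ((U'.D.isOpen i).mem_nhds hz)).pow j'), fun y hy a => by
      obtain ⟨i, z, hz, rfl⟩ := A.cover y
      rw [sub_zero, show G.g (A.p i z) = _ from hg i z ⟨hz, hy⟩] at a
      have a1 := pow_le_pow_left₀ (norm_nonneg _) (hh i z hz (hU i z ⟨hz, hy⟩) a).2 2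
      have a2 : ‖w₀ (A.p i z)‖ ^ 2 ≤ |C₁| * Real.exp (d * U'.φ (A.p i z)) := by
        rw [← div_le_iff₀ (Real.exp_pos _), div_eq_mul_inv, ← Real.exp_neg, w3 _ hy]
        exact (hC₁ _).trans (le_abs_self _)
      have a3 := pow_le_pow_left₀ (sq_nonneg _) a2 j'
      rw [mul_pow, ← Real.exp_nat_mul] at a3
      refine le_of_eq_of_le ?_ ((mul_le_mul a1 a3 (by positivity) (sq_nonneg _)).trans_eq ?_)
      · rw [norm_mul, norm_pow]
        ring
      · push_cast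
        ring_nf⟩
  rw [show U'.m * (d * j' + d * j) = U'.m * d * (j' + j) by ring] at T1
  refine ⟨m, T, u, T1, u1, fun i z hz h0 hb => ?_⟩
  have := mem_closure_iff_nhdsWithin_neBot.1 (U'.dense_chart hμ i hz)
  have hn := (A.C i).isOpen.mem_nhds hz
  have c1 := (hq i z hz h0).continuousAt
  have c2 := (Bl_open 0 (τ / 4)).mem_nhds hb
  have c3 : nsq ((fun l => s l i z / t i z) - b) ≤ 4 * τ := by
    have : nsq (_ - 0) < τ / 4 := hb
    rw [sub_zero] at this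
    linarith
  refine tendsto_nhds_unique_of_eventuallyEq (l := 𝓝[U'.D.W i] z)
    (((hh i z hz h0 c3).1.continuousAt.mul
      (((ht.1 i).continuousOn.continuousAt hn).pow _)).mono_left nhdsWithin_le_nhds)
    ((tendsto_finsetSum _ fun a _ => ((continuousAt_pi.1
      ((u1.continuousOn.continuousAt c2).comp_of_eq c1 rfl) a).mul
        (((T1 a).1 i).continuousOn.continuousAt hn)).tendsto).mono_left nhdsWithin_le_nhds) ?_
  filter_upwards [self_mem_nhdsWithin, nhdsWithin_le_nhds (c1 c2)] with w hw a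
  have a1 := u2 i w hw (by rw [show G.g (A.p i w) = _ from hg i w hw]; exact a)
  rw [show G.g (A.p i w) = _ from hg i w hw] at a1
  refine Eq.trans ?_ a1
  simp only [Pi.mul_apply, Pi.pow_apply, w2 i w hw]
  ring

theorem nr_steinS (U : Up A μ L) (hμ : IsVolume A μ) (S : Sg B K L) (hc : SB.Cov L) {d : ℕ}
    (hd : 1 ≤ d) (hb : BpfS L (U.m * d)) : ∃ e : ℕ, 1 ≤ e ∧
      ((∀ x, FibreS L (U.m * d * e) x = FibreS L (U.m * d) x) → IsSteinS L (U.m * d * e)) := by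
  have hS : SB.SecBd L := fun j s hs => (bdd_of S.kah S.nor S.car j s hs).imp
    fun b hb i z hz => nrm_eq hs hz ▸ hb _
  obtain ⟨r, c, ζ, s, -, hs, s3⟩ := sec_spanS U hμ hc hS dense_univ (U.m * d)
  obtain ⟨e, he, ht⟩ := snz_id U hμ S hc hd r
  refine ⟨e, he, fun hF x V h hV hxV hh => ?_⟩
  rw [hF] at hxV ⊢
  obtain ⟨t, t1, t2⟩ := hb x
  obtain ⟨b, hbd⟩ : ∃ b, b = gS A s t x := ⟨_, rfl⟩
  have hfib := S.gS_fib hs t1 (fun T hT => ⟨_, s3 T hT⟩) t2
  have hcl := S.gS_closed hs t1 (fun T hT => ⟨_, s3 T hT⟩) hb b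
  rw [← hbd] at hfib
  have hn : ContinuousOn (fun y => nsq (gS A s t y - b)) {y | ¬ VanS L (U.m * d) t y} :=
    fun y hy => (nsq_smooth.continuous.continuousAt.comp
      ((S.gS_cont hs t1 hy).sub continuousAt_const)).continuousWithinAt
  obtain ⟨τ, τ0, τ1, τ2⟩ : ∃ τ : ℝ, 0 < τ ∧ τ ≤ 1 ∧
      {y | ¬ VanS L (U.m * d) t y ∧ nsq (gS A s t y - b) ≤ 4 * τ} ⊆ V := by
    obtain ⟨a, d0, d1⟩ := ((hcl 4).isCompact.diff hV).exists_forall_le' (a := 0)
      (hn.mono fun y hy => hy.1.1) fun y hy =>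
        (pow_pos (norm_pos_iff.2 (sub_ne_zero.2 fun e =>
          hy.2 (hxV ((hfib y).2 ⟨hy.1.1, e⟩)))) 2).trans_le (norm_sq_le_nsq _)
    refine ⟨min 1 (a / 8), by positivity, min_le_left _ _, fun y ⟨a1, a2⟩ => by_contra fun a3 => ?_⟩
    have := d1 y ⟨⟨a1, by linarith [min_le_left 1 (a / 8)]⟩, a3⟩
    linarith [min_le_right 1 (a / 8)]
  obtain ⟨C, -, hC⟩ := S.hol_bd hV (hcl _) τ2 hh
  obtain ⟨m, T, u, T1, u1, u2⟩ := ht s t b τ C h hs t1 ⟨x, t2⟩ τ0 τ1 fun i z hz h0 a => by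
    have a1 : (A.p i z : X) ∈ {y | ¬ VanS L (U.m * d) t y ∧ nsq (gS A s t y - b) ≤ 4 * τ} :=
      ⟨fun e => h0 ((vanS_reg t1 hz).1 e), by rwa [gS_reg hs t1 hz h0]⟩
    exact ⟨(hh i).differentiableAt (((A.cont i).isOpen_inter_preimage (A.C i).isOpen
      (hV.preimage continuous_subtype_val)).mem_nhds ⟨hz, τ2 a1⟩), hC _ a1⟩
  obtain ⟨e, rfl⟩ : ∃ e', e = e' + 1 := ⟨e - 1, by omega⟩
  have hp : Differentiable ℂ fun w => pr1 r m w - b := (pr1 r m).differentiable.sub_const b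
  refine ⟨r + m, fun i z => t i z ^ (e + 1),
    fun l i z => ap (fun a => s a i z * t i z ^ e) (fun a => T a i z) l,
    {y | ¬ VanS L (U.m * d) t y} ∩ (fun y => nsq (gS A s t y - b)) ⁻¹' Iio (τ / 8),
    {w | nsq (pr1 r m w - b) ≤ τ / 8}, (fun w => pr1 r m w - b) ⁻¹' Bl 0 (τ / 4),
    fun w => ∑ a, u (pr1 r m w - b) a * pr2 r m w a, sec_pow t1 _, fun l => ?_,
    hn.isOpen_inter_preimage (S.nvan_open t1) isOpen_Iio, fun y hy => ?_,
    fun y hy => S.nvan_pow t1 hy.1 _,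
    isClosed_le (nsq_smooth.continuous.comp hp.continuous) continuous_const, fun w hw => ?_,
    (Bl_open _ _).preimage hp.continuous, ?_, fun i z hz hO => ?_⟩
  · obtain ⟨a | a, rfl⟩ := finSumFinEquiv.surjective l
    · have := nr8_mul (hs a) (sec_pow t1 e)
      rw [show U.m * d + U.m * d * e = U.m * d * (e + 1) by ring] at this
      simpa [ap, spl] using this
    · simpa [ap, spl] using T1 a
  · obtain ⟨a1, a2⟩ := (hfib y).1 hy
    refine ⟨a1, ?_⟩
    simpa [a2, nsq] using τ0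
  · have : nsq (pr1 r m w - b) ≤ τ / 8 := hw
    show nsq (pr1 r m w - b - 0) < τ / 4
    rw [sub_zero]
    linarith
  · exact DifferentiableOn.fun_sum fun a _ => (differentiableOn_pi.1 (u1.comp
      hp.differentiableOn fun w hw => hw) a).mul (differentiableOn_pi.1 (pr2 r m).differentiableOn a)
  · have n1 : t i z ≠ 0 := fun e => hO.1 ((vanS_reg t1 hz).2 e)
    have n2 : nsq (gS A s t (A.p i z) - b) < τ / 8 := hO.2
    rw [gS_reg hs t1 hz n1] at n2
    have e1 : (fun l => ap (fun a => s a i z * t i z ^ e) (fun a => T a i z) l /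
        t i z ^ (e + 1)) = ap (fun l => s l i z / t i z) fun a => T a i z / t i z ^ (e + 1) := by
      funext l
      obtain ⟨a | a, rfl⟩ := finSumFinEquiv.surjective l
      · simp [ap, spl]
        field_simp
        ring
      · simp [ap, spl]
    refine ⟨?_, ?_⟩
    · rw [e1, mem_ofPred_eq, pr1_ap]
      exact n2.le
    · rw [e1, ← mul_div_cancel_right₀ (h _) (pow_ne_zero (e + 1) n1)]
      refine (congrArg (· / _) (u2 i z hz n1 (show nsq (_ - 0) < τ / 4 by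
        rw [sub_zero]; linarith))).trans ?_
      simp only [Finset.sum_div, mul_div_assoc, pr1_ap, pr2_ap]

end Pool.Agent.ZB
end

-- part Pool.Agent.P.MP_63735c_ag.SFZ
section

/-! A power of the line bundle defines a Lagrangian fibration of the singular space. -/

open scoped ComplexOrder ContDiff Matrix Topology ENNReal
open Set Metric MeasureTheory Filter

namespace Pool.Agent.ZB

open Pool.Agent.BP Pool.Agent.SPF Pool.Agent.AB Pool.Agent.CK Pool.Agent.SE Pool.Agent.NL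

variable {N n : ℕ} {X : Type} [TopologicalSpace X] [T2Space X] [CompactSpace X] {R : Set X}
  [MeasurableSpace R] [BorelSpace R] {A : Atlas R N} {B : Amb R A} {K : Form11 A} {L : Line A}
  {μ : Measure R} [IsFiniteMeasure μ] {Y : Type} [TopologicalSpace Y] [T2Space Y] [CompactSpace Y]
  {Z : Res L Y}

theorem CtxS.full [PreconnectedSpace R] (Γ : CtxS B μ K L n) (P : Over B Z) {F' : Fib A n}
    {h' : R → Mat n} {c' : ℝ} (e1 : F'.W = Γ.F.W) (e2 : F'.r = Γ.F.r) (hT : F'.Tor μ (resK Z) h' c') :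
    ∃ k : ℕ, 1 ≤ k ∧ BpfS L k ∧ IsSteinS L k ∧
      ∀ x, IsConnected (FibreS L k x) ∧ IsLagS P n (FibreS L k x) := by
  obtain ⟨l, hl, h⟩ := Γ.fibre
  obtain ⟨e, he, h1⟩ := nr_steinS Γ.U Γ.vol Γ.sg Γ.cov (Nat.mul_pos Γ.d_pos hl) (Γ.bpf_mul l)
  have hb := Γ.sg.bpf_mul (Γ.bpf_mul l) e
  have h2 : ∀ x, FibreS L (Γ.U.m * (Γ.d * l) * e) x = FibreS L (Γ.U.m * (Γ.d * l)) x := fun x => by
    refine Subset.antisymm ?_ ?_
    · rw [Γ.sg.fibre_eq hb, Γ.sg.fibre_eq (Γ.bpf_mul l)]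
      exact fun y hy a => hy (Γ.sg.sep_mul a he)
    · rw [h, Γ.sg.fibre_eq hb, mul_assoc, mul_assoc]
      exact fun y hy => hy _ (Nat.mul_pos hl he)
  refine ⟨_, Nat.mul_pos (Nat.mul_pos Γ.U.m_pos (Nat.mul_pos Γ.d_pos hl)) he, hb, h1 h2,
    fun x => ?_⟩
  obtain ⟨U, hU, hW⟩ := Γ.ult x
  have h3 : F'.LimS Subtype.val U = Γ.F.LimS (Subtype.val : R → X) U := by
    unfold Fib.LimS
    rw [e2]
  rw [h2, h, ← Γ.lim_eq U hU hW]
  refine ⟨⟨⟨x, fun O hO => ?_⟩, lim_connS continuous_subtype_val Γ.U.hinj Γ.tor U hW⟩,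
    h3 ▸ lim_lagS P Γ.hN Γ.n_pos Γ.U.hinj Γ.vol hT U (e1 ▸ hW)⟩
  filter_upwards [hU (preimage_mem_comap hO)] with y hy using ⟨y, hy, Γ.F.eqv.refl y⟩

end Pool.Agent.ZB
end
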