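import Pool.Agent.K.MP_63735c_ag.C0
import Pool.Agent.K.MP_63735c_ag.C41
import Pool.Agent.K.MP_63735c_ag.C42

/-! Consequences of the Fujiki relation for an isotropic class. -/

open scoped ComplexOrder Matrix
open Set MeasureTheory

namespace Pool.Agent.HS

open Pool.Agent.SPF Pool.Agent.NL Pool.Agent.CK Pool.Agent.AB Pool.Agent.HX

theorem exists_perp {m : ℕ} (w : Fin m → ℤ) : ∃ v : Fin m → Fin m → ℤ,
    (∀ k, ∑ j, v k j * w j = 0) ∧ ∀ r : Fin m → ℝ, ∑ j, r j * w j = 0 →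
      ∃ t : Fin m → ℝ, r = ∑ k, t k • fun j => (v k j : ℝ) := by
  by_cases hw : ∃ j, w j ≠ 0
  · obtain ⟨a, ha⟩ := hw
    refine ⟨fun k j => (if j = k then w a else 0) - if j = a then w k else 0, fun k => ?_,
      fun r hr => ⟨fun k => r k / w a, funext fun j => ?_⟩⟩
    · simp only [sub_mul, Finset.sum_sub_distrib]
      simp [mul_comm]
    · have h0 : (w a : ℝ) ≠ 0 := Int.cast_ne_zero.2 ha
      have h1 : ∑ k, r k / w a * w k = 0 := by
        simp only [div_mul_eq_mul_div, ← Finset.sum_div, hr, zero_div]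
      by_cases hj : j = a
      · simp [hj, Finset.sum_apply, mul_sub, Finset.sum_sub_distrib, h1, h0]
      · simp [hj, Finset.sum_apply, h0]
  · simp only [not_exists, not_not] at hw
    exact ⟨fun k j => if j = k then 1 else 0, fun k => by simp [hw],
      fun r _ => ⟨r, funext fun j => by simp [Finset.sum_apply]⟩⟩

variable {N n : ℕ} {X : Type} [TopologicalSpace X] [MeasurableSpace X] {A : Atlas X N}
  {μ : Measure X} {K : Form11 A}

namespace BBF

variable (H : BBF n A μ K)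

/-- The bilinear form of the matrix `Q`. -/
noncomputable def b : LinearMap.BilinForm ℝ (Fin H.m → ℝ) := Matrix.toBilin' (H.Q.map Int.cast)

/-- The (2,0)-part of a class. -/
noncomputable def cc : (Fin H.m → ℝ) →ₗ[ℝ] ℂ := Fintype.linearCombination ℝ H.c

/-- The (1,1)-part of a class. -/
noncomputable def aa (i : A.ι) (z : E N) : (Fin H.m → ℝ) →ₗ[ℝ] Mat N :=
  Fintype.linearCombination ℝ fun j => (H.a j).h i z

theorem b_eq (r r' : Fin H.m → ℝ) : H.b r r' = ∑ j, ∑ l, (H.Q j l : ℝ) * r j * r' l := by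
  rw [b, Matrix.toBilin'_apply]
  exact Finset.sum_congr rfl fun j _ => Finset.sum_congr rfl fun l _ => by
    rw [Matrix.map_apply, mul_comm (r j)]

theorem cc_eq (r : Fin H.m → ℝ) : H.cc r = ∑ j, (r j : ℂ) * H.c j := by
  simp [cc, Fintype.linearCombination_apply]

theorem aa_eq (i : A.ι) (z : E N) (r : Fin H.m → ℝ) :
    H.aa i z r = ∑ j, (r j : ℂ) • (H.a j).h i z := by
  simp [aa, Fintype.linearCombination_apply]

theorem fu (r : Fin H.m → ℝ) : ∃ G : X → ℝ, Integrable G μ ∧ ∫ x, G x ∂μ = H.C₀ * H.b r r ^ n ∧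
    ∀ i, ∀ z ∈ (A.C i).W, form2 (H.cc r) ((A.C i).σ z) (H.aa i z r) ^ (2 * n) =
      (G (A.p i z) : ℂ) • (form20 ((A.C i).σ z) ^ n * form02 ((A.C i).σ z) ^ n) := by
  simp only [b_eq, cc_eq, aa_eq]
  exact H.fujiki r

omit [MeasurableSpace X] in
theorem dens_ext (hN : N = 2 * n) {G G' : X → ℝ} (h : ∀ i, ∀ z ∈ (A.C i).W,
    (G (A.p i z) : ℂ) • (form20 ((A.C i).σ z) ^ n * form02 ((A.C i).σ z) ^ n) =
      (G' (A.p i z) : ℂ) • (form20 ((A.C i).σ z) ^ n * form02 ((A.C i).σ z) ^ n)) : G = G' := by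
  funext x
  obtain ⟨i, z, hz, rfl⟩ := A.cover x
  exact Complex.ofReal_injective (smul_left_injective ℂ
    (top_ne_zero hN ((A.C i).σ_skew z hz) ((A.C i).σ_det z hz)) (h i z hz))

variable {H} {e : Fin H.m → ℝ} {k : ℝ}

theorem exists_r (hn : 1 ≤ n) (hN : N = 2 * n) (hμ : μ.real univ ≠ 0) (h0 : H.b e e = 0)
    (h1 : H.cc e = 0) (c : ℂ) : ∃ r, H.cc r = c ∧ (∀ i, ∀ z ∈ (A.C i).W, H.aa i z r = 0) ∧
      H.b r e + H.b e r = 0 := by
  rcases eq_or_ne c 0 with rfl | hc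
  · exact ⟨0, by simp, by simp, by simp⟩
  obtain ⟨r, r1, r2⟩ := H.σ_mem c
  simp only [← cc_eq, ← aa_eq] at r1 r2
  refine ⟨r, r1, r2, by_contra fun hb => ?_⟩
  obtain ⟨G, -, g1, g2⟩ := H.fu r
  have g3 : G = fun _ => ((2 * n).choose n : ℕ) * (‖c‖ ^ 2 / 4) ^ n :=
    dens_ext hN fun i z hz => by rw [← g2 i z hz, r1, r2 i z hz, form2_pure hN]
  have g4 : H.C₀ * H.b r r ^ n ≠ 0 := by
    rw [← g1, g3, integral_const]
    have := Nat.choose_pos (show n ≤ 2 * n by omega)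
    exact smul_ne_zero hμ (by positivity)
  set s := H.b r r / (H.b r e + H.b e r)
  have hs : s * (H.b r e + H.b e r) = H.b r r := div_mul_cancel₀ _ hb
  obtain ⟨G₁, -, a1, a2⟩ := H.fu (r + s • e)
  obtain ⟨G₂, -, b1, b2⟩ := H.fu (r - s • e)
  have g5 : G₁ = G₂ := dens_ext hN fun i z hz => by
    rw [← a2 i z hz, ← b2 i z hz, form2_even hN]
    simp [h1, r2 i z hz]
  have e1 : H.b (r + s • e) (r + s • e) = 2 * H.b r r := by
    simp only [map_add, map_smul, LinearMap.add_apply, LinearMap.smul_apply, smul_eq_mul, h0]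
    linarith
  have e2 : H.b (r - s • e) (r - s • e) = 0 := by
    simp only [map_sub, map_smul, LinearMap.sub_apply, LinearMap.smul_apply, smul_eq_mul, h0]
    linarith
  rw [g5, b1, e1, e2, zero_pow (by omega), mul_zero, mul_pow, mul_left_comm] at a1
  exact mul_ne_zero (by positivity) g4 a1.symm

theorem Isotropic.real (h : H.Isotropic) : ∃ (k : ℝ) (e : Fin H.m → ℤ), 0 < k ∧
    H.b (fun j => e j) (fun j => e j) = 0 ∧ H.cc (fun j => e j) = 0 ∧
    ∀ i, ∀ z ∈ (A.C i).W, H.aa i z (fun j => e j) = k • (A.C i).η z := by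
  obtain ⟨k, e, h1, h2, h3, h4⟩ := h
  refine ⟨k, e, h1, ?_, ?_, fun i z hz => ?_⟩
  · rw [b_eq]
    exact_mod_cast h2
  · rw [cc_eq]
    exact_mod_cast h3
  · rw [aa_eq]
    exact_mod_cast h4 i z hz

theorem exists_F (hn : 1 ≤ n) (hN : N = 2 * n) (hμ : μ.real univ ≠ 0) (h : H.Isotropic) :
    ∃ F : X → ℝ, IsDensity n A F ∧ Integrable F μ ∧ ∫ x, F x ∂μ = 0 := by
  obtain ⟨k, e, hk, h0, h1, h2⟩ := h.real
  obtain ⟨r, r1, r2, r3⟩ := exists_r hn hN hμ h0 h1 2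
  obtain ⟨l, l0, hl⟩ := second_coef hN hn
  choose G g1 g2 g3 using fun j : Fin (2 * n + 1) => H.fu (r + ((j : ℕ) / k) • fun j => (e j : ℝ))
  refine ⟨fun x => ∑ j, l j * G j x, fun i z hz => ?_,
    integrable_finsetSum _ fun j _ => (g1 j).const_mul _, ?_⟩
  · rw [← hl, Complex.ofReal_sum, Finset.sum_smul]
    refine Finset.sum_congr rfl fun j _ => ?_
    rw [Complex.ofReal_mul, mul_smul, ← g3 j i z hz, map_add, map_add, map_smul, map_smul, r1, h1,
      r2 i z hz, h2 i z hz, smul_zero, add_zero, zero_add, smul_smul, div_mul_cancel₀ _ hk.ne',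
      ← Complex.coe_smul, Complex.ofReal_natCast]
  · rw [integral_finsetSum _ fun j _ => (g1 j).const_mul _]
    have e1 : ∀ j, ∫ x, l j * G j x ∂μ = l j * (H.C₀ * H.b r r ^ n) := fun j => by
      rw [integral_const_mul, g2]
      congr 3
      simp only [map_add, map_smul, LinearMap.add_apply, LinearMap.smul_apply, smul_eq_mul, h0]
      linear_combination ((j : ℕ) / k) * r3
    simp only [e1, ← Finset.sum_mul, l0, zero_mul]

theorem fuj0 (hn : 1 ≤ n) (hN : N = 2 * n) (hμ : μ.real univ ≠ 0) (hk : 0 < k) (h0 : H.b e e = 0)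
    (h1 : H.cc e = 0) (h2 : ∀ i, ∀ z ∈ (A.C i).W, H.aa i z e = k • (A.C i).η z) {v : Fin H.m → ℝ}
    (hv : H.b v e + H.b e v = 0) : ∃ c x y z w : ℝ, ∀ s t : ℝ, ∃ G : X → ℝ, Integrable G μ ∧
      ∫ p, G p ∂μ = c * (x * s ^ 2 + y * s * t + z * t + w * t ^ 2) ^ n ∧ ∀ i, ∀ q ∈ (A.C i).W,
        ((s : ℂ) • H.aa i q v + (A.C i).η q + (t : ℂ) • K.h i q).det.re / ‖((A.C i).σ q).det‖ =
          G (A.p i q) := by
  obtain ⟨r, r1, r2, r3⟩ := exists_r hn hN hμ h0 h1 (H.cc v)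
  obtain ⟨u, u1, u2⟩ := H.K_mem
  simp only [← cc_eq, ← aa_eq] at u1 u2
  obtain ⟨κ, hκ⟩ := exists_kappa hN
  refine ⟨κ * H.C₀, H.b (v - r) (v - r), H.b (v - r) u + H.b u (v - r), (H.b e u + H.b u e) / k,
    H.b u u, fun s t => ?_⟩
  obtain ⟨G, g1, g2, g3⟩ := H.fu (s • (v - r) + k⁻¹ • e + t • u)
  refine ⟨fun x => κ * G x, g1.const_mul κ, ?_, fun i q hq => ?_⟩
  · rw [integral_const_mul, g2, mul_assoc]
    congr 3
    simp only [map_add, map_sub, map_smul, LinearMap.add_apply, LinearMap.sub_apply,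
      LinearMap.smul_apply, smul_eq_mul, h0]
    linear_combination (s * k⁻¹) * hv - (s * k⁻¹) * r3
  · refine hκ _ _ ((A.C i).σ_skew q hq) ((A.C i).σ_det q hq) _ ?_
    rw [← g3 i q hq]
    simp only [map_add, map_sub, map_smul, r1, h1, u1, r2 i q hq, h2 i q hq, u2 i q hq, sub_self,
      smul_zero, add_zero, sub_zero, inv_smul_smul₀ hk.ne', form2_zero, Complex.coe_smul]

theorem rank (hn : 1 ≤ n) (hN : N = 2 * n) [IsFiniteMeasure μ] [μ.IsOpenPosMeasure]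
    (hK : ∀ i, ∀ z ∈ (A.C i).W, (K.h i z).PosDef) (h : H.Isotropic) {i : A.ι} {y : E N}
    (hy : y ∈ (A.C i).W) (hη : (A.C i).η y ≠ 0) :
    ∃ j, ∃ x ∈ (A.C j).W, n ≤ ((A.C j).η x).rank := by
  obtain ⟨k, e, hk, h0, h1, h2⟩ := h.real
  have : Nonempty X := ⟨A.p i y⟩
  obtain ⟨c, x, y', z, w, hG⟩ := fuj0 hn hN (measureReal_univ_ne_zero (μ := μ)) hk h0 h1 h2
    (v := 0) (by simp)
  choose G g1 g2 g3 using hG 0
  refine exists_rank hn hN μ K hK G (fun t j q hq => ?_) g1 (c := c) (z := z) (w := w)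
    (fun t => by simp [g2]) hy hη
  rw [← g3 t j q hq, div_mul_cancel₀ _ (norm_ne_zero_iff.2 ((A.C j).σ_det q hq))]
  simp

end BBF

end Pool.Agent.HS
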