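import Pool.Agent.K.MP_63735c_ag.C47
import Pool.Agent.K.MP_63735c_ag.C48
import Pool.Agent.K.MP_63735c_ag.C7

/-! From the index estimate to the estimate along the leaves. -/

open scoped ComplexOrder ContDiff Matrix Topology ENNReal
open Set Metric MeasureTheory Filter

namespace Pool.Agent.HX

open Pool.Agent.SPF Pool.Agent.AB

open Pool.Agent.CL Pool.Agent.CK Pool.Agent.NL

variable {N n : ℕ} {X : Type} [TopologicalSpace X] {A : Atlas X N}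
  {T : Set (E n)} {Ψ : P n → X} {Q : Set (P n)}

theorem nu_unif {Z : Type} [TopologicalSpace Z] {S : Set Z} (hS : IsCompact S) (R : ℝ → Z → Prop)
    (hm : ∀ c c' x, c' ≤ c → R c x → R c' x) (hl : ∀ x ∈ S, ∃ c > 0, ∀ᶠ y in 𝓝 x, R c y) :
    ∃ c > 0, ∀ x ∈ S, R c x := by
  refine hS.induction_on (p := fun s => ∃ c > 0, ∀ x ∈ s, R c x) ⟨1, one_pos, by simp⟩
    (fun s t hst ⟨c, hc, h⟩ => ⟨c, hc, fun x hx => h x (hst hx)⟩)
    (fun s t ⟨c, hc, h⟩ ⟨c', hc', h'⟩ => ⟨min c c', lt_min hc hc', fun x hx => hx.elim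
      (fun hx => hm _ _ _ (min_le_left _ _) (h x hx)) fun hx =>
        hm _ _ _ (min_le_right _ _) (h' x hx)⟩) fun x hx => ?_
  obtain ⟨c, hc, h⟩ := hl x hx
  exact ⟨_, mem_nhdsWithin_of_mem_nhds h, c, hc, fun y hy => hy⟩

theorem nu_bd {Z G : Type} [TopologicalSpace Z] [NormedAddCommGroup G] {S : Set Z} {f : Z → G}
    (hS : IsCompact S) (hf : ContinuousOn f S) : ∃ B, ∀ x ∈ S, ‖f x‖ ≤ B :=
  hS.exists_bound_of_continuousOn hf

theorem nu_upper (hinj : ∀ i, InjOn (A.p i) (A.C i).W) (h : A.IsUnif T Ψ) (hT : IsOpen T)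
    (K : Form11 A) (hQ : IsCompact Q) (hs : Q ⊆ T ×ˢ univ) : ∃ B, 0 < B ∧ ∀ p ∈ Q, ∀ u,
      pb A (f11 A K.h) Ψ p u (Complex.I • u) ≤ B * ‖u‖ ^ 2 := by
  obtain ⟨B, hB⟩ := nu_bd hQ
    ((pb_closed hinj (gform_11 K) h hT).1.continuousOn.mono hs)
  refine ⟨|B| + 1, by positivity, fun p hp u => ?_⟩
  have h1 := (pb A (f11 A K.h) Ψ p).le_opNorm₂ u (Complex.I • u)
  rw [norm_smul, Complex.norm_I, one_mul, mul_assoc, ← sq] at h1
  exact ((le_abs_self _).trans h1).trans (mul_le_mul_of_nonneg_right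
    ((hB p hp).trans ((le_abs_self B).trans (le_add_of_nonneg_right zero_le_one))) (sq_nonneg _))

theorem nu_nonneg (hinj : ∀ i, InjOn (A.p i) (A.C i).W) (h : A.IsUnif T Ψ) (K : Form11 A)
    (hK : ∀ i, ∀ z ∈ (A.C i).W, (K.h i z).PosSemidef) {p : P n} (hp : p.1 ∈ T) (u : P n) :
    0 ≤ pb A (f11 A K.h) Ψ p u (Complex.I • u) := by
  obtain ⟨i, f, hL, -⟩ := unif_lf h hp
  rw [pb_eq hinj (gform_11 K) hL, map_smul]
  exact (ev11_nonneg (hK i _ hL.self_of_nhds.2.1) _).1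

/-- The volume of `η + t K` is at least of order `t^n` on the tube. -/
theorem nu_low (hinj : ∀ i, InjOn (A.p i) (A.C i).W) (hN : N = 2 * n) (h : A.IsUnif T Ψ)
    (hT : IsOpen T) (K : Form11 A) (hK : ∀ i, ∀ z ∈ (A.C i).W, (K.h i z).PosDef)
    (hQ : IsCompact Q) (hs : Q ⊆ T ×ˢ univ) : ∃ c > (0 : ℝ), ∀ p ∈ Q, ∃ i, ∃ z ∈ (A.C i).W,
      A.p i z = Ψ p ∧ ∀ t : ℝ, 0 ≤ t →
        c * t ^ n * (K.h i z).det.re ≤ ((A.C i).η z + (t : ℂ) • K.h i z).det.re := by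
  obtain ⟨B, hB, h1⟩ := nu_upper hinj h hT K hQ hs
  obtain ⟨c, hc, h2⟩ := nu_unif (hQ.image continuous_fst)
    (fun c y => ∀ u, c * ‖u‖ ^ 2 ≤ hb A 1 Ψ y u (Complex.I • u))
    (fun c c' y hc h u => (mul_le_mul_of_nonneg_right hc (sq_nonneg _)).trans (h u)) (by
      rintro _ ⟨p, hp, rfl⟩
      obtain ⟨c, hc, C, h3⟩ := pos_near (h := hb A 1 Ψ) (y := p.1)
        ((hb_closed hinj h hT 1).1.1.continuousOn.continuousAt (hT.mem_nhds (hs hp).1))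
        fun u hu => hb_pos hinj h one_pos (hs hp).1 hu
      exact ⟨c, hc, h3.mono fun y hy u => (hy u).1⟩)
  refine ⟨(c / B) ^ n, by positivity, fun p hp => ?_⟩
  obtain ⟨i, f, hL, hU⟩ := unif_lf h (hs hp).1
  have h0 := hU.self_of_nhds
  refine ⟨i, f p, h0.1, h0.2.1, fun t ht => ?_⟩
  let L : E n →ₗ[ℂ] E N := (fderiv ℂ f p : P n →ₗ[ℂ] E N).comp (LinearMap.inl ℂ (E n) (E n))
  have hL' : Function.Injective L := h0.2.2.1.1.comp LinearMap.inl_injective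
  have := det_lower (hK i _ h0.1) ((A.C i).η_psd _ h0.1) (LinearMap.range L) (n := n)
    (by rw [LinearMap.finrank_range_of_inj hL']; simp) (div_pos hc hB).le ht (by
      rintro _ ⟨u, rfl⟩
      have e1 := h1 p hp (u, 0)
      have e2 := h2 p.1 ⟨p, hp, rfl⟩ u
      have hI : ((Complex.I • u, 0) : P n) = Complex.I • ((u, 0) : P n) := by simp
      rw [cketa_hb, one_mul, ← cketa_const hinj h hT (hs hp).1 p.2, hI,
        pb_eq hinj (gform_11 _) hL, map_smul] at e2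
      rw [pb_eq hinj (gform_11 _) hL, map_smul] at e1
      simp only [f11, e11_apply, ev11_I, etaF, Prod.norm_mk, norm_zero,
        max_eq_left (norm_nonneg u)] at e1 e2
      change c / B * (fderiv ℂ f p (u, 0) ⬝ᵥ _ *ᵥ star (fderiv ℂ f p (u, 0))).re ≤
        (fderiv ℂ f p (u, 0) ⬝ᵥ _ *ᵥ star (fderiv ℂ f p (u, 0))).re
      rw [div_mul_eq_mul_div, div_le_iff₀ hB]
      nlinarith [mul_le_mul_of_nonneg_left e1 hc.le, mul_le_mul_of_nonneg_left e2 hB.le])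
  rwa [show N - n = n by omega] at this

variable [T2Space X] [MeasurableSpace X] [BorelSpace X] {μ : Measure X} [IsFiniteMeasure μ]

omit [TopologicalSpace X] [T2Space X] [BorelSpace X] in
theorem nu_int (hn : 1 ≤ n) {S : Set X} {Φ d : X → ℝ} {c t C κ : ℝ} (hc : 0 < c) (ht : 0 < t)
    (hκ : 0 ≤ κ) (h0 : ∀ x, 0 ≤ Φ x) (hd : ∀ x, 0 ≤ d x) (hl : ∀ x ∈ S, c * t ^ n ≤ d x)
    (hi : Integrable (fun x => Φ x * d x) μ) (hC : ∫ x, Φ x * d x ∂μ ≤ C * t ^ (n - 1)) :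
    ∫⁻ x, ENNReal.ofReal (S.indicator (fun x => κ * (t * Φ x + 1)) x) ∂μ ≤
      ENNReal.ofReal (κ * (C / c + μ.real univ)) := by
  have hp : 0 < c * t ^ (n - 1) := by positivity
  have i1 : Integrable (fun x => κ * ((c * t ^ (n - 1))⁻¹ * (Φ x * d x) + 1)) μ :=
    ((hi.const_mul _).add (integrable_const 1)).const_mul κ
  have n1 : ∀ x, 0 ≤ κ * ((c * t ^ (n - 1))⁻¹ * (Φ x * d x) + 1) := fun x => by
    have := h0 x
    have := hd x
    positivity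
  refine (lintegral_mono fun x => ENNReal.ofReal_le_ofReal (?_ : _ ≤
    κ * ((c * t ^ (n - 1))⁻¹ * (Φ x * d x) + 1))).trans ?_
  · by_cases hx : x ∈ S
    · rw [indicator_of_mem hx]
      refine mul_le_mul_of_nonneg_left (add_le_add_left ?_ 1) hκ
      rw [le_inv_mul_iff₀ hp]
      calc c * t ^ (n - 1) * (t * Φ x) = Φ x * (c * (t ^ (n - 1) * t)) := by ring
        _ = Φ x * (c * t ^ n) := by rw [← pow_succ, Nat.sub_add_cancel hn]
        _ ≤ _ := mul_le_mul_of_nonneg_left (hl x hx) (h0 x)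
    · rw [indicator_of_notMem hx]
      exact n1 x
  · rw [← ofReal_integral_eq_lintegral_ofReal i1 (Eventually.of_forall n1), integral_const_mul,
      integral_add (hi.const_mul _) (integrable_const 1), integral_const_mul, integral_const,
      smul_eq_mul, mul_one]
    refine ENNReal.ofReal_le_ofReal (mul_le_mul_of_nonneg_left (add_le_add_left ?_ _) hκ)
    rw [inv_mul_le_iff₀ hp]
    exact hC.trans_eq (by field_simp)

theorem nullL_of (hinj : ∀ i, InjOn (A.p i) (A.C i).W) (hn : 1 ≤ n) (h : A.IsUnif T Ψ)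
    (hT : IsOpen T) (K a : Form11 A) (hK : ∀ i, ∀ z ∈ (A.C i).W, (K.h i z).PosDef) {V : ℝ}
    (hv : ∀ y ∈ T, ∀ ξ v, leaf (pb A (f11 A K.h) Ψ) y ξ v (Complex.I • v) ≤ V * ‖v‖ ^ 2)
    {d : ℝ → X → ℝ} (hc : ∀ t, Continuous (d t)) (h0 : ∀ t, 0 < t → ∀ x, 0 ≤ d t x)
    (hl : ∀ Q, IsCompact Q → Q ⊆ T ×ˢ univ → ∃ c > (0 : ℝ), ∀ t : ℝ, 0 < t → ∀ p ∈ Q,
      c * t ^ n ≤ d t (Ψ p)) {C : ℝ}
    (hH : ∀ t : ℝ, 0 < t → t ≤ 1 → ∀ C₀, IsCompact C₀ →
      ∃ (m : ℕ) (τ : Fin m → X → ℝ) (w : Fin m → X → ℂ) (Φ : X → ℝ),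
        Est (man A hinj isOpen_univ) a.h (fun i z => (A.C i).η z + (t : ℂ) • K.h i z) C₀ τ w Φ ∧
        ∫ x, Φ x * d t x ∂μ ≤ C * t ^ (n - 1)) : NullL T Ψ μ (pb A (f11 A a.h) Ψ) := by
  intro Q hQ hs
  have him : ∀ Q, IsCompact Q → Q ⊆ T ×ˢ univ → IsCompact (Ψ '' Q) := fun Q hQ hs =>
    hQ.image_of_continuousOn fun p hp => (unif_cont h (hs hp).1).continuousWithinAt
  obtain ⟨c, hc0, hcl⟩ := hl Q hQ hs
  obtain ⟨B₁, hB₁, b1⟩ := nu_upper hinj h hT K hQ hs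
  obtain ⟨B₂, hB₂, b2⟩ := nu_upper hinj h hT (etaF A) hQ hs
  refine ⟨(|V| + B₁ + B₂) * (C / c + μ.real univ), fun Q' hQ' hs' ε hε => ?_⟩
  obtain ⟨c', hc0', hcl'⟩ := hl Q' hQ' hs'
  obtain ⟨s, hs0, hs1, hsε⟩ : ∃ s : ℝ, 0 < s ∧ s ≤ 1 ∧ s * |V| * (C / c' + μ.real univ) ≤ ε := by
    obtain ⟨L, hL⟩ : ∃ L, L = |V| * (C / c' + μ.real univ) := ⟨_, rfl⟩
    refine ⟨min 1 (ε / (|L| + 1)), by positivity, min_le_left _ _, ?_⟩
    rw [mul_assoc, ← hL]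
    calc _ ≤ min 1 (ε / (|L| + 1)) * (|L| + 1) := mul_le_mul_of_nonneg_left
          ((le_abs_self L).trans (le_add_of_nonneg_right zero_le_one)) (by positivity)
      _ ≤ ε / (|L| + 1) * (|L| + 1) :=
          mul_le_mul_of_nonneg_right (min_le_right _ _) (by positivity)
      _ = ε := by field_simp
  have ht : 0 < s ^ 2 := by positivity
  have ht1 : s ^ 2 ≤ 1 := pow_le_one₀ hs0.le hs1
  obtain ⟨m, τ, w, Φ, he, hI⟩ := hH (s ^ 2) ht ht1 _ ((him Q hQ hs).union (him Q' hQ' hs'))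
  obtain ⟨b, M, p1, p2, p3, p4⟩ := exists_cor h hT K a hK hv he
  have hΦ : Continuous Φ := by
    have := Man.contOn he.2.1.1
    rwa [man_M, continuousOn_univ] at this
  have hi : Integrable (fun x => Φ x * d (s ^ 2) x) μ := by
    obtain ⟨S, hS, -, h1⟩ := he.2.1.2
    exact (hΦ.mul (hc _)).integrable_of_hasCompactSupport
      (HasCompactSupport.intro hS fun x hx => by rw [Pi.mul_apply, h1 x hx, zero_mul])
  have hΦ0 := he.2.2.1
  have hm : ∀ (κ : ℝ) (S : Set X), IsCompact S →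
      Measurable (S.indicator fun x => κ * (s ^ 2 * Φ x + 1)) := fun κ S hS =>
    Measurable.indicator (Continuous.measurable (by fun_prop)) hS.isClosed.measurableSet
  have hn0 : ∀ (κ : ℝ) (S : Set X), 0 ≤ κ → ∀ x,
      0 ≤ S.indicator (fun x => κ * (s ^ 2 * Φ x + 1)) x := fun κ S hκ =>
    indicator_nonneg fun x _ => by
      have := hΦ0 x
      positivity
  have hvert : ∀ p : P n, p.1 ∈ T → ∀ u : E n,
      0 ≤ (pb A (f11 A (etaF A).h) Ψ p (0, u) (Complex.I • ((0, u) : P n)) +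
        s ^ 2 * pb A (f11 A K.h) Ψ p (0, u) (Complex.I • ((0, u) : P n))) / 2 ∧
      (pb A (f11 A (etaF A).h) Ψ p (0, u) (Complex.I • ((0, u) : P n)) +
        s ^ 2 * pb A (f11 A K.h) Ψ p (0, u) (Complex.I • ((0, u) : P n))) / 2 ≤
        s ^ 2 * (|V| * ‖u‖ ^ 2) := fun p hp u => by
    have e0 := nu_nonneg hinj h K (fun i z hz => (hK i z hz).posSemidef) hp (0, u)
    have e1 := (hv p.1 hp p.2 u).trans (mul_le_mul_of_nonneg_right (le_abs_self V) (sq_nonneg _))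
    have e2 : leaf (pb A (f11 A K.h) Ψ) p.1 p.2 u (Complex.I • u) =
        pb A (f11 A K.h) Ψ p (0, u) (Complex.I • ((0, u) : P n)) := by simp [leaf]
    rw [e2] at e1
    rw [cketa_left hinj h hp, zero_add]
    exact ⟨by positivity, by nlinarith⟩
  refine ⟨bet τ w Ψ, b, M, (Ψ '' Q').indicator fun x => s * |V| * (s ^ 2 * Φ x + 1),
    (Ψ '' Q).indicator fun x => (|V| + B₁ + B₂) * (s ^ 2 * Φ x + 1), p1, p2,
    fun O g hg p hp u => bet_inv (fun k => (he.1 k).2.1) h hg hp u, p3,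
    hm _ _ (him Q' hQ' hs'), hm _ _ (him Q hQ hs), hn0 _ _ (by positivity),
    hn0 _ _ (by positivity), (nu_int hn hc0' ht (by positivity) hΦ0 (h0 _ ht) ?_ hi hI).trans
      (ENNReal.ofReal_le_ofReal hsε), nu_int hn hc0 ht (by positivity) hΦ0 (h0 _ ht) ?_ hi hI,
    fun p hp hq u v => ?_, fun p hp u v => ?_⟩
  · rintro _ ⟨p, hp, rfl⟩
    exact hcl' _ ht p hp
  · rintro _ ⟨p, hp, rfl⟩
    exact hcl _ ht p hp
  · rw [indicator_of_mem hq]
    have e0 := hΦ0 (Ψ p)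
    refine abs_le_of_sq_le_sq ((p4 p hp (Or.inr hq) _ _).trans ?_) (by positivity)
    calc _ ≤ Φ (Ψ p) * (s ^ 2 * (|V| * ‖u‖ ^ 2)) * (s ^ 2 * (|V| * ‖v‖ ^ 2)) :=
          mul_le_mul (mul_le_mul_of_nonneg_left (hvert p hp u).2 e0) (hvert p hp v).2
            (hvert p hp v).1 (by positivity)
      _ = (s ^ 2 * Φ (Ψ p)) * (s * |V| * ‖u‖ * ‖v‖) ^ 2 := by ring
      _ ≤ (s ^ 2 * Φ (Ψ p) + 1) ^ 2 * (s * |V| * ‖u‖ * ‖v‖) ^ 2 :=
          mul_le_mul_of_nonneg_right (by nlinarith [mul_nonneg ht.le e0]) (sq_nonneg _)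
      _ = _ := by ring
  · have hq : Ψ p ∈ Ψ '' Q := ⟨p, hp, rfl⟩
    have hp' : p.1 ∈ T := (hs hp).1
    rw [indicator_of_mem hq]
    have e0 := hΦ0 (Ψ p)
    have e1 := nu_nonneg hinj h K (fun i z hz => (hK i z hz).posSemidef) hp' v
    have e2 := nu_nonneg hinj h (etaF A) (fun i z hz => (A.C i).η_psd z hz) hp' v
    have e3 := b1 p hp v
    have e4 := b2 p hp v
    have e5 : |V| * (B₁ + B₂) ≤ (|V| + B₁ + B₂) ^ 2 := by
      nlinarith [abs_nonneg V, mul_nonneg (abs_nonneg V) (add_pos hB₁ hB₂).le,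
        sq_nonneg (B₁ + B₂), sq_nonneg |V|]
    refine abs_le_of_sq_le_sq ((p4 p hp' (Or.inl hq) _ _).trans ?_) (by positivity)
    calc _ ≤ Φ (Ψ p) * (s ^ 2 * (|V| * ‖u‖ ^ 2)) * ((B₁ + B₂) * ‖v‖ ^ 2) :=
          mul_le_mul (mul_le_mul_of_nonneg_left (hvert p hp' u).2 e0)
            (by nlinarith [mul_le_mul_of_nonneg_right ht1 e1]) (by positivity) (by positivity)
      _ = (s ^ 2 * Φ (Ψ p)) * (|V| * (B₁ + B₂)) * (‖u‖ * ‖v‖) ^ 2 := by ring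
      _ ≤ (s ^ 2 * Φ (Ψ p) + 1) ^ 2 * (|V| + B₁ + B₂) ^ 2 * (‖u‖ * ‖v‖) ^ 2 :=
          mul_le_mul_of_nonneg_right (mul_le_mul (by nlinarith [mul_nonneg ht.le e0]) e5
            (by positivity) (sq_nonneg _)) (sq_nonneg _)
      _ = _ := by ring

end Pool.Agent.HX
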