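import Pool.Agent.K.MP_63735c_ag.C50
import Pool.Agent.K.MP_63735c_ag.C51
import Pool.Agent.K.MP_63735c_ag.C21
import Pool.Agent.K.MP_63735c_ag.C52

/-! A complete metric of finite volume. -/

open scoped ComplexOrder ContDiff Matrix Topology ENNReal
open Set Metric MeasureTheory Filter

namespace Pool.Agent.HX

open Pool.Agent.SPF Pool.Agent.AB

variable {N : ℕ} {Y : Type} [TopologicalSpace Y] [MeasurableSpace Y] [BorelSpace Y] [T2Space Y]

theorem hn_step {v : ℝ → ℝ} {c : ℝ} (hc : 0 ≤ c) (h0 : 0 ≤ v 0)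
    (h : ∀ s h, 0 ≤ s → 0 ≤ h → s + h ≤ 1 → v (s + h) ≤ (1 + c * h ^ 2) * v s) :
    v 1 ≤ Real.exp 1 * v 0 := by
  obtain ⟨n, hn⟩ := exists_nat_gt (c + 1)
  have n0 : (0 : ℝ) < n := by linarith
  have key : ∀ j : ℕ, j ≤ n → v (j * (n : ℝ)⁻¹) ≤ Real.exp (j * (c * (n : ℝ)⁻¹ ^ 2)) * v 0 := by
    intro j
    induction j with
    | zero => simp
    | succ j ih =>
      intro hj
      have h1 : (j : ℝ) * (n : ℝ)⁻¹ + (n : ℝ)⁻¹ ≤ 1 := by
        rw [← add_one_mul, mul_inv_le_iff₀ n0, one_mul]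
        exact_mod_cast hj
      push_cast
      rw [add_one_mul, add_one_mul, add_comm (_ * (_ * _)), Real.exp_add, mul_assoc]
      exact (h _ _ (by positivity) (by positivity) h1).trans ((mul_le_mul_of_nonneg_left
        (ih (Nat.le_of_succ_le hj)) (by positivity)).trans (mul_le_mul_of_nonneg_right
          ((add_comm _ _).trans_le (Real.add_one_le_exp _)) (by positivity)))
  have h2 := key n le_rfl
  rw [mul_inv_cancel₀ n0.ne'] at h2
  refine h2.trans (mul_le_mul_of_nonneg_right (Real.exp_le_exp.2 ?_) h0)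
  rw [show (n : ℝ) * (c * (n : ℝ)⁻¹ ^ 2) = c / n by field_simp, div_le_one n0]
  linarith

/-- Green's formula. -/
theorem hn_green (D : KD Y N) {l θ : Y → ℝ} (hl : D.Smo l) (hθ : D.S θ) (h0 : ∀ x, 0 ≤ θ x) :
    ∫ x, (θ x : ℂ) * D.tr (D.levG l) x ∂D.ν =
      -∫ x, D.Gam D.K (fun y => (l y : ℂ)) (fun y => (θ y : ℂ)) x ∂D.ν := by
  have hL : D.Smo fun y => (l y : ℂ) := fun i => ofReal_smooth (hl i)
  have hT := (hn_tr_cont (D := D) (hn_lev hl)).1
  have i1 : ∀ {ρ : Y → ℝ}, D.S ρ → Integrable (fun x => (ρ x : ℂ) * D.tr (D.levG l) x) D.ν :=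
    fun hρ => Dat.cc_int (hρ.ofReal.cc.map₂ (fun i => hT.comp_continuousOn (D.cont i))
      continuous_mul zero_mul)
  have i2 : ∀ {ρ : Y → ℝ}, D.S ρ →
      Integrable (D.Gam D.K (fun y => (l y : ℂ)) fun y => (ρ y : ℂ)) D.ν := fun hρ =>
    (Dat.cc_int ((Dat.GamK_cc hρ.ofReal hL).map continuous_star (star_zero _))).congr
      (Eventually.of_forall fun x => Dat.GamK_star x)
  obtain ⟨m, c, τ, hτ, -, e⟩ := Man.exists_pu hθ h0
  have e' : θ = ∑ a, D.ext (c a) (τ a) := funext fun x => by rw [e, Finset.sum_apply]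
  rw [e']
  refine (Finset.sum_induction _ (fun ρ : Y → ℝ => D.S ρ ∧
    ∫ x, (ρ x : ℂ) * D.tr (D.levG l) x ∂D.ν =
      -∫ x, D.Gam D.K (fun y => (l y : ℂ)) (fun y => (ρ y : ℂ)) x ∂D.ν) ?_ ⟨Man.S.zero, ?_⟩
        fun a _ => ⟨Man.ext_S (hτ a), ?_⟩).2
  · rintro ρ σ ⟨a1, a2⟩ ⟨b1, b2⟩
    refine ⟨a1.add b1, ?_⟩
    simp only [Pi.add_apply, Complex.ofReal_add, add_mul,
      Dat.Gam_add_right a1.ofReal.1 b1.ofReal.1]
    rw [integral_add (i1 a1) (i1 b1), integral_add (i2 a1) (i2 b1), a2, b2, neg_add]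
  · simp only [Pi.zero_apply, Complex.ofReal_zero, zero_mul, integral_zero, neg_zero,
      fun x => (Dat.Gam_zero (D := D.toDat) (h := D.K) (w := fun y => (l y : ℂ))
        (v := fun _ => 0) (x := x) (Eventually.of_forall fun _ => rfl)).2]
  · have hr : Tst (D.W (c a)) fun y => (τ a y : ℂ) :=
      ⟨Complex.ofRealCLM.contDiff.comp (hτ a).smooth, (hτ a).cpt.comp_left Complex.ofReal_zero,
        (tsupport_comp_subset Complex.ofReal_zero _).trans (hτ a).sub⟩
    have hW := D.isOpen (c a)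
    have h1 := ibp hW (D.Ψ_smooth _) (grad_smooth hW (D.kah _) (hL _)) hr
    rw [D.den.int_supp (D.Ψ_cont (c a)) fun x hx => by
        rw [Man.ext_out hx, Complex.ofReal_zero, zero_mul],
      D.den.int_supp (D.Ψ_cont (c a)) fun x hx => (Dat.Gam_zero (c := 0) ?_).2,
      eq_neg_iff_add_eq_zero, add_comm, ← eq_neg_iff_add_eq_zero]
    · refine Eq.trans (setIntegral_congr_fun hW.measurableSet fun z hz => ?_) (h1.trans
        (congrArg _ (setIntegral_congr_fun hW.measurableSet fun z hz => ?_)))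
      · have h2 : (fun y => ((D.ext (c a) (τ a) (D.p (c a) y) : ℝ) : ℂ)) =ᶠ[𝓝 z]
            fun y => (τ a y : ℂ) := (hW.eventually_mem hz).mono fun y hy => by
          simp only [Man.ext_apply hy]
        simp only
        rw [Dat.GamK_chart hL (Man.ext_S (hτ a)).ofReal.1 hz, (db_congr h2).self_of_nhds,
          Complex.real_smul]
      · simp only
        rw [dlt_eq hW (D.kah _) (D.Ψ_smooth _) (D.det _) (hL _) hz, Man.ext_apply hz,
          (hn_tr (Man.levG_cpt hl) hz).1, Complex.real_smul, Complex.star_def,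
          Complex.conj_ofReal, mul_comm (trK _ _)]
        congr 3
        ext b d
        exact (lev_apply _ _ _ _).symm
    · filter_upwards [(Man.cpt_img (D := D.toMan) (hτ a).cpt (hτ a).sub).1.isClosed.isOpen_compl.mem_nhds
        fun h' => hx (image_mono (hτ a).sub h')] with y hy
      exact Complex.ofReal_eq_zero.2 (Man.ext_zero
        (fun z _ hz => image_eq_zero_of_notMem_tsupport hz) hy)

theorem hn_sign (D : KD Y N) {l : Y → ℝ} {ρ : ℝ → ℝ} (hl : D.Smo l) (hθ : D.S fun x => ρ (l x))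
    (h0 : ∀ t, 0 ≤ ρ t) (h1 : Differentiable ℝ ρ) (h2 : Antitone ρ) :
    0 ≤ ∫ x, ρ (l x) * (D.tr (D.levG l) x).re ∂D.ν := by
  have hL : D.Smo fun y => (l y : ℂ) := fun i => ofReal_smooth (hl i)
  have hT := (hn_tr_cont (D := D) (hn_lev hl)).1
  have h3 := congrArg Complex.re (hn_green D hl hθ fun x => h0 _)
  have i1 := Dat.cc_int (D := D.toDat) (hθ.ofReal.cc.map₂
    (fun i => hT.comp_continuousOn (D.cont i)) continuous_mul zero_mul)
  have i2 : Integrable (D.Gam D.K (fun y => (l y : ℂ)) fun y => (ρ (l y) : ℂ)) D.ν :=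
    (Dat.cc_int ((Dat.GamK_cc hθ.ofReal hL).map continuous_star (star_zero _))).congr
      (Eventually.of_forall fun x => Dat.GamK_star x)
  have e1 := integral_re i1
  have e2 := integral_re i2
  simp only [RCLike.re_to_complex, Complex.re_ofReal_mul] at e1 e2
  rw [e1, h3, Complex.neg_re, ← e2, neg_nonneg]
  refine integral_nonpos fun x => ?_
  obtain ⟨i, z, hz, rfl⟩ := Man.exists_chart (D := D.toMan) (x := x) (D.cover ▸ mem_univ x)
  have h4 := Dat.GamK_nonneg (D := D.toDat) (w := fun y => (l y : ℂ)) (D.p i z)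
  rw [Dat.GamK_chart hL hL hz, star_db] at h4
  simp only [Pi.zero_apply]
  rw [Dat.GamK_chart hL hθ.ofReal.1 hz, star_db (fun y => ρ (l (D.p i y))),
    dr_chain (f := fun y => l (D.p i y)) (h1 _).hasDerivAt (diffAt (D.isOpen i) (hl i) hz),
    dotProduct_smul, smul_eq_mul, Complex.re_ofReal_mul]
  exact mul_nonpos_of_nonpos_of_nonneg ((h1 _).hasDerivAt.nonpos_of_antitone h2) h4

variable {B : Base Y N} {K : B.ι → E N → Mat N} {l : Y → ℝ} {C : ℝ}

omit [T2Space Y] in
theorem hn_kd_tr (hK : Kf B.toMan K) {a : B.ι → E N → Mat N} (ha : B.Cpt a) {i : B.ι} {z : E N}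
    (hz : z ∈ B.W i) : (B.kd hK).tr a (B.p i z) = trK (K i z) (a i z) ∧
      (B.kd hK).bb a (B.p i z) = (bK (K i z) (a i z) (a i z)).re := hn_tr (D := B.kd hK) ha hz

/-- The metrics `K` times `C + 1` minus `s i d dbar l`. -/
noncomputable def hnK (B : Base Y N) (K : B.ι → E N → Mat N) (l : Y → ℝ) (C s : ℝ) (i : B.ι)
    (z : E N) : Mat N := ((C + 1 : ℝ) : ℂ) • K i z + ((-s : ℝ) : ℂ) • B.levG l i z

omit [BorelSpace Y] [T2Space Y] in
theorem hnK_hq (s : ℝ) (i : B.ι) (z v : E N) : (hq (hnK B K l C s i z) v v).re =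
    (C + 1) * (hq (K i z) v v).re - s * (hq (B.levG l i z) v v).re := by
  rw [hnK, hn_hq, hq_smul, Complex.re_ofReal_mul]
  ring

omit [BorelSpace Y] [T2Space Y] in
theorem hnK_kf (hK : Kf B.toMan K) (hl : Lam B.toMan K l C) {s : ℝ} (h0 : 0 ≤ s) (h1 : s ≤ 1) :
    Kf B.toMan (hnK B K l C s) ∧ ∀ i, ∀ z ∈ B.W i, Le (K i z) (hnK B K l C s i z) 1 := by
  have key : ∀ i, ∀ z ∈ B.W i, Le (K i z) (hnK B K l C s i z) 1 := fun i z hz v => by
    have a1 := mul_le_mul_of_nonneg_left (le_trans (le_add_of_nonneg_right (sq_nonneg _))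
      (hl.le i z hz v)) h0
    have a2 := mul_le_of_le_one_left (mul_nonneg hl.C_nonneg
      (hq_nonneg ((hK.kah i).pos z hz).posSemidef v)) h1
    rw [hnK_hq]
    linarith
  exact ⟨hn_kf (hn_add (hn_smul (hn_frm hK) _) (hn_smul (hn_lev hl.smo) _)) fun i z hz v hv =>
    (hq_pos ((hK.kah i).pos z hz) hv).trans_le ((key i z hz v).trans_eq (one_mul _)), key⟩

theorem hn_vol (hK : Kf B.toMan K) (hl : Lam B.toMan K l C) {ρ : ℝ → ℝ}
    (hθ : B.S fun x => ρ (l x)) (h0 : ∀ t, 0 ≤ ρ t) (h1 : Differentiable ℝ ρ) (h2 : Antitone ρ) :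
    ∫ x, ρ (l x) * B.dens (hnK B K l C 1) x ∂B.μ ≤
      Real.exp 1 * ∫ x, ρ (l x) * B.dens (hnK B K l C 0) x ∂B.μ := by
  obtain ⟨S, hS, hM, hz0⟩ := hθ.2
  obtain ⟨M, M0, hD⟩ := hn_dom hK (hn_lev hl.smo) hS hM
  obtain ⟨c, c0, hc⟩ := hn_exp N M
  have hi : ∀ {f : Y → ℝ}, Continuous f → Integrable (fun x => ρ (l x) * f x) B.μ := fun hf =>
    (hθ.cc.map₂ (fun i => hf.comp_continuousOn (B.cont i)) continuous_mul zero_mul).integrable
      B.den fun i => (B.Ψ_smooth i).continuousOn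
  refine hn_step (v := fun s => ∫ x, ρ (l x) * B.dens (hnK B K l C s) x ∂B.μ) (c := 2 * c)
    (by positivity) (integral_nonneg fun x => mul_nonneg (h0 _)
      (hn_dens_pos (hnK_kf hK hl le_rfl zero_le_one).1 x).le) fun s h s0 t0 t1 => ?_
  obtain ⟨k1, k2⟩ := hnK_kf hK hl s0 (by linarith : s ≤ 1)
  have k3 := (hnK_kf hK hl (add_nonneg s0 t0) t1).1
  have d1 := hn_dens_cont (hn_frm k1)
  have d2 : Continuous fun x => ((B.kd k1).tr (B.levG l) x).re * B.dens (hnK B K l C s) x :=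
    (Complex.continuous_re.comp (hn_tr_cont (D := B.kd k1) (hn_lev hl.smo)).1).mul d1
  have e1 := hn_sign (B.kd k1) hl.smo hθ h0 h1 h2
  rw [B.kd_int] at e1
  have e2 : ∀ x, ρ (l x) * B.dens (hnK B K l C (s + h)) x ≤ (1 + 2 * c * h ^ 2) *
      (ρ (l x) * B.dens (hnK B K l C s) x) - h * (ρ (l x) *
        (((B.kd k1).tr (B.levG l) x).re * B.dens (hnK B K l C s) x)) := fun x => by
    by_cases hx : x ∈ S
    swap
    · simp only [hz0 x hx, zero_mul, mul_zero, sub_zero, le_refl]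
    obtain ⟨i, z, hz, rfl⟩ := hn_chart B x
    have p1 := (k1.kah i).pos z hz
    obtain ⟨-, a1, a2⟩ := hc _ _ p1 (((hn_lev hl.smo).clo i).herm z hz) fun v =>
      (hD i z hz hx v).trans (mul_le_mul_of_nonneg_left ((k2 i z hz v).trans_eq (one_mul _)) M0)
    have a3 := (abs_le.1 (a2 (-h) (by rw [abs_neg, abs_of_nonneg t0]; linarith))).2
    have a4 : hnK B K l C (s + h) i z = hnK B K l C s i z + ((-h : ℝ) : ℂ) • B.levG l i z := by
      rw [hnK, hnK, add_assoc, ← add_smul, ← Complex.ofReal_add, neg_add]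
    rw [← a4, abs_neg, abs_of_nonneg t0] at a3
    rw [hn_dens k1.cpt hz, hn_dens k3.cpt hz, (hn_kd_tr k1 (Man.levG_cpt hl.smo) hz).1]
    have p2 := (hn_det p1).1.le
    have p3 := (inv_pos.2 (wt_pos (B.Ψ i) z)).le
    have p4 := mul_nonneg (h0 (l (B.p i z))) p3
    simp only [div_eq_mul_inv]
    generalize (hnK B K l C s i z).det.re = d at *
    generalize (hnK B K l C (s + h) i z).det.re = d' at *
    generalize (trK (hnK B K l C s i z) (B.levG l i z)).re = t at *
    generalize (bK (hnK B K l C s i z) (B.levG l i z) (B.levG l i z)).re = b at *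
    have a5 : h ^ 2 * b ≤ h ^ 2 * c := by gcongr; exact (abs_le.1 a1).2
    have a6 : c * h ^ 3 ≤ c * h ^ 2 := by
      gcongr c * ?_
      exact pow_le_pow_of_le_one t0 (by linarith) (by norm_num)
    have a7 : d' ≤ d * (1 - h * t + 2 * c * h ^ 2) := by
      have a8 : 1 + -h * t + (-h) ^ 2 / 2 * b + c * h ^ 3 ≤ 1 - h * t + 2 * c * h ^ 2 := by
        nlinarith [mul_nonneg c0 (sq_nonneg h)]
      linarith [mul_le_mul_of_nonneg_left a8 p2]
    refine le_trans (le_of_eq ?_) ((mul_le_mul_of_nonneg_left a7 p4).trans_eq ?_) <;> ring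
  refine (integral_mono (hi (hn_dens_cont (hn_frm k3))) (((hi d1).const_mul _).sub
    ((hi d2).const_mul _)) e2).trans ?_
  rw [integral_sub' ((hi d1).const_mul _) ((hi d2).const_mul _), integral_const_mul,
    integral_const_mul]
  simp only [mul_assoc] at e1
  exact sub_le_self _ (mul_nonneg t0 e1)

/-- A complete metric of finite volume. -/
theorem Base.complete (B : Base Y N) {K : B.ι → E N → Mat N} (hK : Kf B.toMan K) {l : Y → ℝ}
    {C : ℝ} (hl : Lam B.toMan K l C) (hi : Integrable (B.dens K) B.μ) :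
    ∃ K', Kf B.toMan K' ∧ B.Cut K' ∧ (∀ i, ∀ z ∈ B.W i, Le (K i z) (K' i z) 1) ∧
      Integrable (B.dens K') B.μ := by
  obtain ⟨k1, k2⟩ := hnK_kf hK hl zero_le_one le_rfl
  have k0 := (hnK_kf hK hl le_rfl zero_le_one).1
  have hC := hl.C_nonneg
  refine ⟨_, k1, cut_of_lam (C := C + 1) (by linarith) hl.smo (fun x _ => hl.nonneg x)
    (fun c => ?_) fun i z hz v => ?_, k2, (hn_dens_cont (hn_frm k1)).aestronglyMeasurable, ?_⟩
  · obtain ⟨S, h1, h2⟩ := hl.proper c
    exact ⟨S, h1, B.cover ▸ subset_univ S, fun x hx _ => h2 x hx⟩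
  · have a1 := hl.le i z hz v
    have a2 := hq_nonneg ((hK.kah i).pos z hz).posSemidef v
    have a3 := sq_nonneg ‖v ⬝ᵥ dr (fun y => l (B.p i y)) z‖
    rw [hnK_hq, one_mul]
    generalize (hq (B.levG l i z) v v).re = m at *
    generalize (hq (K i z) v v).re = κ at *
    generalize ‖v ⬝ᵥ dr (fun y => l (B.p i y)) z‖ ^ 2 = n at *
    have a4 : κ ≤ (C + 1) * κ - m := by linarith
    have a5 := mul_le_mul_of_nonneg_left a4 hC
    have a6 := mul_nonneg hC a2
    exact ⟨abs_le.2 ⟨by nlinarith, by nlinarith⟩, by linarith⟩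
  have hs : ContDiff ℝ ∞ Real.smoothTransition := Real.smoothTransition.contDiff
  have hθ : ∀ k : ℕ, B.S fun x => Real.smoothTransition (k - l x) := fun k => by
    obtain ⟨S, h1, h2⟩ := hl.proper k
    exact ⟨fun i => hs.comp_contDiffOn (contDiffOn_const.sub (hl.smo i)), S, h1,
      B.cover ▸ subset_univ S, fun x hx =>
        Real.smoothTransition.zero_of_nonpos (sub_nonpos.2 (h2 x hx).le)⟩
  have hI : ∀ (k : ℕ) {f : Y → ℝ}, Continuous f →
      Integrable (fun x => Real.smoothTransition (k - l x) * f x) B.μ := fun k f hf =>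
    ((hθ k).cc.map₂ (fun i => hf.comp_continuousOn (B.cont i)) continuous_mul zero_mul).integrable
      B.den fun i => (B.Ψ_smooth i).continuousOn
  have hb : ∀ k : ℕ, ∫ x, Real.smoothTransition (k - l x) * B.dens (hnK B K l C 1) x ∂B.μ ≤
      Real.exp 1 * ∫ x, (C + 1) ^ N * B.dens K x ∂B.μ := fun k => by
    refine (hn_vol hK hl (ρ := fun t => Real.smoothTransition (k - t)) (hθ k)
      (fun t => Real.smoothTransition.nonneg _)
      ((hs.differentiable (by simp)).comp (differentiable_id.const_sub _))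
      fun s t h => Real.smoothTransition.monotone (sub_le_sub_left h _)).trans
        (mul_le_mul_of_nonneg_left (integral_mono (hI k (hn_dens_cont (hn_frm k0)))
          (hi.const_mul _) fun x => ?_) (Real.exp_pos _).le)
    refine (mul_le_of_le_one_left (hn_dens_pos k0 x).le (Real.smoothTransition.le_one _)).trans ?_
    obtain ⟨i, z, hz, rfl⟩ := hn_chart B x
    exact hn_dens_le k0 hK hz fun v => by rw [hnK_hq, zero_mul, sub_zero]
  rw [hasFiniteIntegral_iff_ofReal (Eventually.of_forall fun x => (hn_dens_pos k1 x).le)]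
  have h1 : ∀ x, ENNReal.ofReal (B.dens (hnK B K l C 1) x) = liminf (fun k : ℕ => ENNReal.ofReal
      (Real.smoothTransition (k - l x) * B.dens (hnK B K l C 1) x)) atTop := fun x => by
    refine (Tendsto.liminf_eq (tendsto_const_nhds.congr' ?_)).symm
    filter_upwards [tendsto_natCast_atTop_atTop.eventually_ge_atTop (1 + l x)] with k hk
    rw [Real.smoothTransition.one_of_one_le (le_sub_iff_add_le.2 hk), one_mul]
  rw [lintegral_congr h1]
  refine (lintegral_liminf_le fun k => ((hθ k).cc.continuous.fun_mul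
    (hn_dens_cont (hn_frm k1))).measurable.ennreal_ofReal).trans_lt
      ((liminf_le_of_frequently_le' (Frequently.of_forall fun k => ?_)).trans_lt
        (ENNReal.ofReal_lt_top (r := Real.exp 1 * ∫ x, (C + 1) ^ N * B.dens K x ∂B.μ)))
  rw [← ofReal_integral_eq_lintegral_ofReal (hI k (hn_dens_cont (hn_frm k1)))
    (Eventually.of_forall fun x => mul_nonneg (Real.smoothTransition.nonneg _)
      (hn_dens_pos k1 x).le)]
  exact ENNReal.ofReal_le_ofReal (hb k)

end Pool.Agent.HX
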