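import Pool.Agent.K.MP_63735c_ag.C55
import Pool.Agent.K.MP_63735c_ag.C56
import Pool.Agent.K.MP_63735c_ag.C11
import Pool.Agent.K.MP_63735c_ag.C51
import Pool.Agent.K.MP_63735c_ag.C26
import Pool.Agent.K.MP_63735c_ag.C48

-- part Pool.Agent.P.MP_63735c_ag.HXGlob
section

/-! Traces of global forms in charts. -/

open scoped ComplexOrder ContDiff Matrix Topology ENNReal
open Set Metric MeasureTheory Filter

namespace Pool.Agent.HX

open Pool.Agent.SPF Pool.Agent.AB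

variable {N : ℕ}

theorem gl_inv {K J : Mat N} (hK : (Jᵀ * K * J.map star).PosDef) : ∃ P Q : Mat N, P * Q = 1 ∧
    ∀ M : Mat N, (Jᵀ * K * J.map star)⁻¹ * (Jᵀ * M * J.map star) = Q * (K⁻¹ * M) * P := by
  have h1 := (Matrix.isUnit_iff_isUnit_det _).1 hK.isUnit
  rw [Matrix.det_mul, Matrix.det_mul] at h1
  refine ⟨J.map star, (J.map star)⁻¹, Matrix.mul_nonsing_inv _ (isUnit_of_mul_isUnit_right h1),
    fun M => ?_⟩
  rw [Matrix.mul_inv_rev, Matrix.mul_inv_rev]
  simp only [Matrix.mul_assoc]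
  rw [Matrix.nonsing_inv_mul_cancel_left _ _
    (isUnit_of_mul_isUnit_left (isUnit_of_mul_isUnit_left h1))]

theorem gl_trK {K J : Mat N} (hK : (Jᵀ * K * J.map star).PosDef) (M : Mat N) :
    trK (Jᵀ * K * J.map star) (Jᵀ * M * J.map star) = trK K M := by
  obtain ⟨P, Q, h1, h2⟩ := gl_inv hK
  rw [trK, h2, Matrix.trace_mul_comm, ← Matrix.mul_assoc, h1, Matrix.one_mul, trK]

theorem gl_tr2 {K J : Mat N} (hK : (Jᵀ * K * J.map star).PosDef) (M M' : Mat N) :
    tr2 (Jᵀ * K * J.map star) (Jᵀ * M * J.map star) (Jᵀ * M' * J.map star) = tr2 K M M' := by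
  obtain ⟨P, Q, h1, h2⟩ := gl_inv hK
  rw [tr2, h2, h2, ← Matrix.mul_assoc, Matrix.trace_mul_comm, tr2]
  simp only [← Matrix.mul_assoc]
  rw [h1, Matrix.one_mul, Matrix.mul_assoc _ P Q, h1, Matrix.mul_one]

theorem gl_hsK {K J : Mat N} (hK : (Jᵀ * K * J.map star).PosDef) (M : Mat N) :
    hsK (Jᵀ * K * J.map star) (Jᵀ * M * J.map star) = hsK K M := by
  have h : (Jᵀ * M * J.map star)ᴴ = Jᵀ * Mᴴ * J.map star := by
    rw [Matrix.conjTranspose_mul, Matrix.conjTranspose_mul, ← Matrix.mul_assoc]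
    congr 2
    ext a b
    simp
  rw [hsK, h, gl_tr2 hK, hsK]

variable {Y : Type} [TopologicalSpace Y]

theorem gl_chart {D : Man Y N} {G : Type} [Zero G] {f : D.ι → E N → G}
    (hf : ∀ i j, ∀ z ∈ D.W i, ∀ φ, D.Ch i j z φ → f i z = f j (φ z)) {i : D.ι} {z : E N}
    (hz : z ∈ D.W i) : glob D f (D.p i z) = f i z := by
  have hx : ∃ q : D.ι × E N, q.2 ∈ D.W q.1 ∧ D.p q.1 q.2 = D.p i z := ⟨(i, z), hz, rfl⟩
  obtain ⟨φ, h1, h2⟩ := D.trans i _ z hz _ hx.choose_spec.1 hx.choose_spec.2.symm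
  rw [glob, dif_pos hx, hf i _ z hz φ h2, h1]

theorem lcG_cpt {D : Man Y N} {w : Y → ℂ} (hw : D.Smo w) : D.Cpt (lcG D w) := by
  intro i j z hz φ hφ
  have h0 := hφ.self_of_nhds
  have e : (fun y => w (D.p i y)) =ᶠ[𝓝 z] fun y => w (D.p j (φ y)) :=
    hφ.mono fun y hy => congrArg w hy.2.2.symm
  rw [lcG, (lc_congr e).eq_of_nhds]
  exact lc_comp (w := fun y => w (D.p j y)) ((hw j).contDiffAt ((D.isOpen j).mem_nhds h0.2.1))
    (hφ.mono fun y hy => hy.1)

theorem cpt_add {D : Man Y N} {a b : D.ι → E N → Mat N} (ha : D.Cpt a) (hb : D.Cpt b) :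
    D.Cpt fun i z => a i z + b i z := fun i j z hz φ hφ => by
  rw [Matrix.mul_add, Matrix.add_mul, ← ha i j z hz φ hφ, ← hb i j z hz φ hφ]

variable [MeasurableSpace Y]

namespace KD

variable {D : KD Y N} {a : D.ι → E N → Mat N} {i : D.ι} {z : E N}

theorem tr_chart (ha : D.Cpt a) (hz : z ∈ D.W i) : D.tr a (D.p i z) = trK (D.K i z) (a i z) :=
  gl_chart (f := fun i z => trK (D.K i z) (a i z)) (fun i j z hz φ hφ => by
    have h := (D.kah i).pos z hz
    rw [D.K_cpt i j z hz φ hφ] at h ⊢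
    rw [ha i j z hz φ hφ, gl_trK h]) hz

theorem bb_chart (ha : D.Cpt a) (hz : z ∈ D.W i) :
    D.bb a (D.p i z) = (bK (D.K i z) (a i z) (a i z)).re :=
  gl_chart (f := fun i z => (bK (D.K i z) (a i z) (a i z)).re) (fun i j z hz φ hφ => by
    have h := (D.kah i).pos z hz
    rw [D.K_cpt i j z hz φ hφ] at h ⊢
    rw [ha i j z hz φ hφ, bK, gl_trK h, gl_tr2 h, bK]) hz

theorem hs_chart (ha : D.Cpt a) (hz : z ∈ D.W i) : D.hs a (D.p i z) = hsK (D.K i z) (a i z) :=
  gl_chart (f := fun i z => hsK (D.K i z) (a i z)) (fun i j z hz φ hφ => by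
    have h := (D.kah i).pos z hz
    rw [D.K_cpt i j z hz φ hφ] at h ⊢
    rw [ha i j z hz φ hφ, gl_hsK h]) hz

theorem tr_contOn (ha : D.Cpt a) (hc : ∀ i b c, ContinuousOn (fun z => a i z b c) (D.W i))
    (i : D.ι) : ContinuousOn (fun z => D.tr a (D.p i z)) (D.W i) :=
  (trK_cont (D.kah i) (hc i)).congr fun _ hz => tr_chart ha hz

theorem bb_contOn (ha : D.Cpt a) (hc : ∀ i b c, ContinuousOn (fun z => a i z b c) (D.W i))
    (i : D.ι) : ContinuousOn (fun z => D.bb a (D.p i z)) (D.W i) :=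
  (bK_cont (D.kah i) (hc i)).congr fun _ hz => bb_chart ha hz

theorem hs_contOn (ha : D.Cpt a) (hc : ∀ i b c, ContinuousOn (fun z => a i z b c) (D.W i))
    (i : D.ι) : ContinuousOn (fun z => D.hs a (D.p i z)) (D.W i) :=
  (hsK_cont (D.kah i) (hc i)).congr fun _ hz => hs_chart ha hz

theorem cont_of {F : Type} [TopologicalSpace F] {f : Y → F}
    (h : ∀ i, ContinuousOn (fun z => f (D.p i z)) (D.W i)) : Continuous f := by
  have := Man.contOn h
  rwa [D.cover, continuousOn_univ] at this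

theorem qH_chart (ha : D.Cpt a) {θ : Y → ℝ} (hθ : D.Smo θ) {w : Y → ℂ} (hw : D.Smo w)
    (h : Y → ℂ) (hz : z ∈ D.W i) : D.qH a θ w h (D.p i z) =
      qh (D.K i) (a i) (fun y => θ (D.p i y)) (grad (D.K i) fun y => w (D.p i y))
        (fun y => h (D.p i y)) z := by
  have hθ' : D.Smo fun y => (θ y : ℂ) := fun i => ofReal_smooth (hθ i)
  rw [qH, qh, tr_chart ha hz, bb_chart ha hz, tr_chart (Man.levG_cpt hθ) hz,
    Dat.GamK_chart hw hθ' hz, Dat.Gam_chart ha hw hθ' hz, Dat.Gam_chart D.K_cpt hw hw hz,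
    Dat.Gam_chart (Man.levG_cpt hθ) hw hw hz, star_db fun y => θ (D.p i y)]
  rfl

end KD

end Pool.Agent.HX
end

-- part Pool.Agent.P.MP_63735c_ag.HXCo1
section

/-! The Dirichlet form of a Kähler manifold. -/

open scoped ComplexOrder ContDiff Matrix Topology ENNReal
open Set Metric MeasureTheory Filter

namespace Pool.Agent.HX

open Pool.Agent.SPF Pool.Agent.AB

variable {N : ℕ}

theorem co_trK_le {K M : Mat N} (hK : K.PosDef) (hM : M.IsHermitian) {ε : ℝ}
    (h : ∀ v, (hq M v v).re ≤ ε * (hq K v v).re) : (trK K M).re ≤ ε * N := by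
  have h1 : ((ε : ℂ) • K - M).IsHermitian := by
    refine Matrix.IsHermitian.sub ?_ hM
    rw [Matrix.IsHermitian, Matrix.conjTranspose_smul, hK.1.eq]
    simp
  have h2 : ((ε : ℂ) • K - M).PosSemidef := by
    refine Matrix.PosSemidef.of_dotProduct_mulVec_nonneg h1 fun x => ?_
    have e : star x ⬝ᵥ ((ε : ℂ) • K - M) *ᵥ x = hq ((ε : ℂ) • K - M) (star x) (star x) := by
      rw [hq, star_star]
    have e2 : hq ((ε : ℂ) • K - M) (star x) (star x) =
        ε * hq K (star x) (star x) - hq M (star x) (star x) := by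
      rw [← hq_smul, hq, hq, hq, Matrix.sub_mulVec, dotProduct_sub]
    rw [e]
    refine Complex.nonneg_iff.2 ⟨?_, (Complex.conj_eq_iff_im.1 (hq_herm h1 _ _)).symm⟩
    rw [e2, Complex.sub_re, Complex.re_ofReal_mul]
    linarith [h (star x)]
  have h3 := (Complex.nonneg_iff.1 (abalg_trace hK.inv.posSemidef h2)).1
  rw [Matrix.mul_sub, Matrix.mul_smul, Matrix.nonsing_inv_mul _
    ((Matrix.isUnit_iff_isUnit_det _).1 hK.isUnit), Matrix.trace_sub, Matrix.trace_smul] at h3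
  simp only [Matrix.trace_one, Fintype.card_fin, smul_eq_mul, Complex.sub_re,
    Complex.re_ofReal_mul, Complex.natCast_re] at h3
  rw [trK]
  linarith

theorem co_lc_star {K : Mat N} (hK : K.PosDef) {w : E N → ℂ} {z : E N}
    (hw : ContDiffAt ℝ ∞ w z) : trK K (lc (fun y => star (w y)) z) = star (trK K (lc w z)) := by
  have h1 : lc (fun y => star (w y)) z = (lc w z)ᴴ := by
    ext a b
    have e : dzb b (fun y => star (w y)) = fun y => star (dz b w y) :=
      funext fun y => (star_dz w y b).1.symm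
    simp only [lc, Matrix.of_apply, Matrix.conjTranspose_apply]
    rw [e, ← (star_dz _ z a).2, (ablev_comm hw b a).1]
  rw [h1, trK, trK, ← Matrix.trace_conjTranspose, Matrix.conjTranspose_mul, hK.inv.1.eq,
    Matrix.trace_mul_comm]

variable {Y : Type} [TopologicalSpace Y] [MeasurableSpace Y] [BorelSpace Y] [T2Space Y]

omit [MeasurableSpace Y] [BorelSpace Y] [T2Space Y] in
theorem co_S_star {D : Man Y N} {w : Y → ℂ} (hw : D.S w) : D.S fun x => star (w x) :=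
  ⟨fun i => abint_star (hw.1 i), hw.2.of_zero fun x hx => by rw [hx, star_zero]⟩

theorem co_En_sum {D : Dat Y N} {κ : Type} (s : Finset κ) {r : κ → Y → ℂ} (hr : ∀ a, D.S (r a))
    {w : Y → ℂ} (hw : D.S w) : D.S (fun x => ∑ a ∈ s, r a x) ∧
      D.En w (fun x => ∑ a ∈ s, r a x) = ∑ a ∈ s, D.En w (r a) := by
  classical
  induction s using Finset.induction_on with
  | empty =>
    have h := Dat.En_smul_left (D := D) (w' := w) hw 0
    simp only [zero_mul] at h
    simp only [Finset.sum_empty]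
    exact ⟨Man.S.zero, by rw [← Dat.En_star, h, star_zero]⟩
  | insert a s ha ih =>
    have h := abnm_right (hr a) ih.1 hw 1
    simp only [one_mul, star_one] at h
    simp only [Finset.sum_insert ha]
    exact ⟨(hr a).add ih.1, by rw [h, ih.2]⟩

namespace KD

variable {D : KD Y N}

/-- Green's formula with a partition of unity. -/
theorem en_pu {m : ℕ} {c : Fin m → D.ι} {τ : Fin m → E N → ℝ} (hτ : ∀ a, Tst (D.W (c a)) (τ a))
    {w v : Y → ℂ} (hw : D.S w) (hv : D.Smo v) :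
    D.En w (fun x => ((∑ a, D.ext (c a) (τ a) x : ℝ) : ℂ) * v x) =
      -∑ a, ∫ z in D.W (c a), (wt (D.Ψ (c a)) z : ℂ) *
        (trK (D.K (c a) z) (lc (fun y => w (D.p (c a) y)) z) *
          star ((τ a z : ℂ) * v (D.p (c a) z))) := by
  have h1 : ∀ a, Tst (D.W (c a)) fun z => (τ a z : ℂ) * v (D.p (c a) z) := fun a =>
    ((ablc1_cx (hτ a)).mul_on (D.isOpen _) (hv _)).1
  have h2 : (fun x => ((∑ a, D.ext (c a) (τ a) x : ℝ) : ℂ) * v x) =
      fun x => ∑ a, D.ext (c a) (fun z => (τ a z : ℂ) * v (D.p (c a) z)) x := by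
    funext x
    rw [Complex.ofReal_sum, Finset.sum_mul]
    refine Finset.sum_congr rfl fun a _ => ?_
    by_cases hx : x ∈ D.p (c a) '' D.W (c a)
    · obtain ⟨z, hz, rfl⟩ := hx
      rw [Man.ext_apply hz, Man.ext_apply hz]
    · rw [Man.ext_out hx, Man.ext_out hx, Complex.ofReal_zero, zero_mul]
  rw [h2, (co_En_sum _ (fun a => Man.ext_S (h1 a)) hw).2, ← Finset.sum_neg_distrib]
  refine Finset.sum_congr rfl fun a _ => ?_
  rw [Dat.En_ext hw (h1 a)]
  congr 1
  refine setIntegral_congr_fun (D.isOpen _).measurableSet fun z hz => ?_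
  rw [dlt_eq (D.isOpen _) (D.kah _) (D.Ψ_smooth _) (D.det _) (hw.1 _) hz]

theorem en_star (hc : D.Cut D.K) {w : Y → ℂ} (hw : D.S w) :
    (D.En (fun x => star (w x)) fun x => star (w x)).re = (D.En w w).re := by
  obtain ⟨C, h1, h2, h3⟩ := hw.2
  obtain ⟨θ, hθ, h01, h4, -⟩ := hc C h1 h2 1 one_pos
  obtain ⟨m, c, τ, hτ, -, hs⟩ := Man.exists_pu hθ fun x => (h01 x).1
  have e : ∀ v : Y → ℂ, (∀ x ∉ C, v x = 0) →
      v = fun x => ((∑ a, D.ext (c a) (τ a) x : ℝ) : ℂ) * v x := fun v hv => funext fun x => by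
    rw [← hs]
    by_cases hx : x ∈ C
    · rw [(h4 x hx).self_of_nhds, Complex.ofReal_one, one_mul]
    · rw [hv x hx, mul_zero]
  have a1 := en_pu hτ hw hw.1
  have a2 := en_pu hτ (co_S_star hw) (co_S_star hw).1
  rw [← e w h3] at a1
  rw [← e _ fun x hx => by rw [h3 x hx, star_zero]] at a2
  rw [a2, ← Complex.conj_re (D.En w w), a1, map_neg, map_sum]
  congr 2
  refine Finset.sum_congr rfl fun a _ => ?_
  rw [← integral_conj]
  refine setIntegral_congr_fun (D.isOpen _).measurableSet fun z hz => ?_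
  rw [co_lc_star ((D.kah _).pos z hz) ((hw.1 _).contDiffAt ((D.isOpen _).mem_nhds hz))]
  simp

/-- Cutoff functions have small energy. -/
theorem en_cut [IsFiniteMeasure D.ν] (hc : D.Cut D.K) {θ : Y → ℝ} (hθ : D.S θ)
    (h01 : ∀ x, 0 ≤ θ x ∧ θ x ≤ 1) {ε : ℝ} (hε : 0 ≤ ε)
    (hl : ∀ i, ∀ z ∈ D.W i, ∀ v, (hq (D.levG θ i z) v v).re ≤ ε * (hq (D.K i z) v v).re) :
    (D.En (fun x => (θ x : ℂ)) fun x => (θ x : ℂ)).re ≤ ε * N * D.ν.real univ := by
  obtain ⟨C, h1, h2, h3⟩ := hθ.2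
  obtain ⟨χ, hχ, g01, h4, -⟩ := hc C h1 h2 1 one_pos
  have hρ := hχ.sub hθ
  have hρ0 : ∀ x, 0 ≤ χ x - θ x := fun x => by
    by_cases hx : x ∈ C
    · rw [(h4 x hx).self_of_nhds]; linarith [(h01 x).2]
    · rw [h3 x hx, sub_zero]; exact (g01 x).1
  obtain ⟨m, c, τ, hτ, hτ0, hs⟩ := Man.exists_pu hρ hρ0
  have a1 := en_pu hτ hθ.ofReal (v := fun _ => 1) fun i => contDiffOn_const
  have a2 := abnm_right hχ.ofReal hθ.ofReal hθ.ofReal (-1)
  have a3 : D.En (fun x => (θ x : ℂ)) (fun x => (χ x : ℂ)) = 0 := by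
    rw [Dat.En, ← integral_zero Y ℂ (μ := D.ν)]
    refine integral_congr_ae (Eventually.of_forall fun x => ?_)
    by_cases hx : x ∈ C
    · exact (Dat.Gam_zero (c := ((1 : ℝ) : ℂ)) ((h4 x hx).mono fun y hy => by rw [hy])).2
    · refine (Dat.Gam_zero (c := ((0 : ℝ) : ℂ)) ?_).1
      filter_upwards [h1.isClosed.isOpen_compl.mem_nhds hx] with y hy
      rw [h3 y hy]
  have e : (fun x => ((∑ a, D.ext (c a) (τ a) x : ℝ) : ℂ) * 1) =
      fun x => (χ x : ℂ) + -1 * (θ x : ℂ) := funext fun x => by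
    rw [← hs]; push_cast; ring
  rw [e, a2, a3, zero_add, star_neg, star_one, neg_one_mul, neg_inj] at a1
  have hE : ∀ a, D.S (D.ext (c a) (τ a)) := fun a => Man.ext_S (hτ a)
  have a4 : ∑ a, ∫ x, D.ext (c a) (τ a) x ∂D.ν ≤ D.ν.real univ := by
    rw [← integral_finsetSum _ fun a _ => Dat.cc_int (hE a).cc, ← mul_one (D.ν.real univ),
      ← smul_eq_mul, ← integral_const]
    simp only [← hs]
    exact integral_mono (Dat.cc_int hρ.cc) (integrable_const _) fun x => by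
      linarith [(h01 x).1, (g01 x).2]
  refine le_trans ?_ (mul_le_mul_of_nonneg_left a4 (by positivity))
  rw [a1, Complex.re_sum, Finset.mul_sum]
  refine Finset.sum_le_sum fun a _ => ?_
  have hW := D.isOpen (c a)
  have t0 : ∀ z ∈ D.W (c a), z ∉ tsupport (τ a) → τ a z = 0 := fun z _ hz =>
    image_eq_zero_of_notMem_tsupport hz
  have hwt := (wt_smooth (D.Ψ_smooth (c a))).continuousOn
  have hd := (dlt_smooth hW (D.Ψ_smooth _) (grad_smooth hW (D.kah _) (hθ.ofReal.1 _))).continuousOn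
  have i1 : IntegrableOn (fun z => (wt (D.Ψ (c a)) z : ℂ) *
      (trK (D.K (c a) z) (lc (fun y => (θ (D.p (c a) y) : ℂ)) z) * star ((τ a z : ℂ) * 1)))
      (D.W (c a)) volume :=
    intOn hW (hτ a).cpt (hτ a).sub ((Complex.continuous_ofReal.comp_continuousOn hwt).mul
      ((hd.congr fun z hz => (dlt_eq hW (D.kah _) (D.Ψ_smooth _) (D.det _) (hθ.ofReal.1 _)
        hz).symm).mul (((ablc1_cx (hτ a)).smooth.continuous.mul continuous_const).star.continuousOn)))
      fun z hz hz' => by simp [t0 z hz hz']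
  have i2 : IntegrableOn (fun z => wt (D.Ψ (c a)) z * τ a z) (D.W (c a)) volume :=
    intOn hW (hτ a).cpt (hτ a).sub (hwt.mul (hτ a).smooth.continuous.continuousOn)
      fun z hz hz' => by simp [t0 z hz hz']
  rw [D.den.int_supp (D.Ψ_cont _) (fun x hx => Man.ext_out hx), ← integral_const_mul,
    ← RCLike.re_to_complex, ← integral_re i1]
  refine setIntegral_mono_on i1.re ?_ hW.measurableSet fun z hz => ?_
  · exact (i2.congr_fun (fun z hz => by simp only [Man.ext_apply hz, smul_eq_mul])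
      hW.measurableSet).const_mul _
  · have b1 : lc (fun y => (θ (D.p (c a) y) : ℂ)) z = D.levG θ (c a) z := by
      ext j k
      exact (lev_apply _ z j k).symm
    have b2 := co_trK_le ((D.kah _).pos z hz)
      (lev_herm ((hθ.1 (c a)).contDiffAt (hW.mem_nhds hz))) (hl _ z hz)
    rw [b1, Man.ext_apply hz, RCLike.re_to_complex, Complex.re_ofReal_mul, mul_one,
      Complex.star_def, Complex.conj_ofReal, Complex.re_mul_ofReal, smul_eq_mul,
      mul_left_comm (ε * N)]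
    exact mul_le_mul_of_nonneg_left (mul_le_mul_of_nonneg_right b2 (hτ0 a z)) (wt_pos _ _).le

end KD

end Pool.Agent.HX
end

-- part Pool.Agent.P.MP_63735c_ag.HXCo
section

/-! The orthogonal complement of the range of the Laplacian. -/

open scoped ComplexOrder ContDiff Matrix Topology ENNReal
open Set Metric MeasureTheory Filter

namespace Pool.Agent.HX

open Pool.Agent.SPF Pool.Agent.AB

variable {N : ℕ} {Y : Type} [TopologicalSpace Y] [MeasurableSpace Y] [BorelSpace Y] [T2Space Y]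

theorem co_fderiv {F : E N → ℂ} {z : E N} (h1 : DifferentiableAt ℂ F z)
    (h2 : DifferentiableAt ℂ (fun y => star (F y)) z) : fderiv ℂ F z = 0 := by
  have a1 := (h1.hasFDerivAt.restrictScalars ℝ).star
  have a2 := h2.hasFDerivAt.restrictScalars ℝ
  have a3 : ∀ v, star (fderiv ℂ F z v) = fderiv ℂ (fun y => star (F y)) z v := fun v =>
    congrArg (fun L : E N →L[ℝ] ℂ => L v) (a1.unique a2)
  ext1 v
  have a4 := a3 (Complex.I • v)
  rw [map_smul, map_smul, ← a3, smul_eq_mul, smul_eq_mul, star_mul', Complex.star_def,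
    Complex.conj_I] at a4
  have a5 : (2 * Complex.I) * (starRingEnd ℂ) (fderiv ℂ F z v) = 0 := by linear_combination -a4
  simpa using a5

namespace KD

variable {D : KD Y N}

omit [BorelSpace Y] [T2Space Y] in
theorem chart (D : KD Y N) (x : Y) : ∃ i, ∃ z ∈ D.W i, D.p i z = x :=
  Man.exists_chart (D.cover ▸ mem_univ x)

omit [BorelSpace Y] [T2Space Y] in
theorem ae_of_charts [SigmaCompactSpace Y] {P : Y → Prop}
    (h : ∀ i, ∀ᵐ x ∂D.ν.restrict (D.p i '' D.W i), P x) : ∀ᵐ x ∂D.ν, P x := by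
  obtain ⟨s, hs, hc⟩ := isLindelof_univ.elim_countable_subcover (fun i => D.p i '' D.W i)
    D.isOpen_img fun x _ => by
      obtain ⟨i, z, hz, rfl⟩ := D.chart x
      exact mem_iUnion.2 ⟨i, z, hz, rfl⟩
  rw [← Measure.restrict_univ (μ := D.ν), ← univ_subset_iff.1 hc]
  exact (ae_restrict_biUnion_iff _ hs _).2 fun i _ => h i

theorem HH_star (hc : D.Cut D.K) {h : Y → ℂ} (hh : D.HH h) : D.HH fun x => star (h x) := by
  obtain ⟨h1, B, hB⟩ := hh
  refine ⟨h1.map (l := fun a : ℂ => star a) continuous_star (star_zero _), B, fun w hw => ?_⟩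
  have := hB _ (co_S_star hw)
  rw [en_star hc hw] at this
  refine le_trans (le_of_eq ?_) this
  rw [← Complex.norm_conj, ← integral_conj]
  simp

theorem HH_int [IsFiniteMeasure D.ν] (hc : D.Cut D.K) {h : Y → ℂ} (hh : D.HH h) :
    ∫ x, h x ∂D.ν = 0 := by
  obtain ⟨⟨-, C, h1, h2, h3⟩, B, hB⟩ := hh
  have hv : 0 ≤ N * D.ν.real univ := mul_nonneg (Nat.cast_nonneg _) measureReal_nonneg
  have ht : Tendsto (fun ε : ℝ => |B| * √(ε * (N * D.ν.real univ))) (𝓝[>] 0) (𝓝 0) := by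
    have : Continuous fun ε : ℝ => |B| * √(ε * (N * D.ν.real univ)) := by fun_prop
    simpa using (this.tendsto 0).mono_left (nhdsWithin_le_nhds (s := Ioi 0))
  refine norm_le_zero_iff.1 (ge_of_tendsto ht (eventually_mem_nhdsWithin.mono fun ε hε => ?_))
  obtain ⟨θ, hθ, h01, h4, h5⟩ := hc C h1 h2 ε hε
  have e : ∫ x, h x ∂D.ν = ∫ x, h x * star (θ x : ℂ) ∂D.ν := by
    refine integral_congr_ae (Eventually.of_forall fun x => ?_)
    by_cases hx : x ∈ C
    · simp [(h4 x hx).self_of_nhds]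
    · simp [h3 x hx]
  rw [e, ← mul_assoc]
  exact (hB _ hθ.ofReal).trans (mul_le_mul (le_abs_self B)
    (Real.sqrt_le_sqrt (en_cut hc hθ h01 (le_of_lt hε) h5)) (Real.sqrt_nonneg _) (abs_nonneg B))

/-- A function orthogonal to `HH` is constant. -/
theorem co_const [PreconnectedSpace Y] [SigmaCompactSpace Y] (hc : D.Cut D.K) {g : Y → ℂ}
    (hg : MemLp g 2 D.ν) (ho : ∀ h, D.HH h → ∫ x, h x * star (g x) ∂D.ν = 0) :
    ∃ c : ℂ, ∀ᵐ x ∂D.ν, g x = c := by
  obtain ⟨g1, a1, a2⟩ := Dat.hol_rep hg ho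
  obtain ⟨g2, b1, b2⟩ := Dat.hol_rep (g₀ := fun x => star (g x)) hg.star fun h hh => by
    have := congrArg (starRingEnd ℂ) (ho _ (HH_star hc hh))
    rw [← integral_conj, map_zero] at this
    simpa using this
  have h1 : ∀ i, EqOn (fun z => star (g1 (D.p i z))) (fun z => g2 (D.p i z)) (D.W i) := fun i => by
    refine Measure.eqOn_open_of_ae_eq (μ := volume) ?_ (D.isOpen i) (a1 i).continuousOn.star
      (b1 i).continuousOn
    refine (D.den.ae (D.Ψ_cont i) (D.isOpen i).measurableSet subset_rfl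
      fun x => star (g1 x) = g2 x).1 ?_
    filter_upwards [a2 i, b2 i] with x h h'
    rw [h, h']
  have h2 : IsLocallyConstant g1 := (IsLocallyConstant.iff_eventually_eq _).2 fun x => by
    obtain ⟨i, z, hz, rfl⟩ := D.chart x
    obtain ⟨r, hr, hb⟩ := Metric.isOpen_iff.1 (D.isOpen i) z hz
    rw [← Man.map_nhds hz, eventually_map]
    filter_upwards [ball_mem_nhds z hr] with y hy
    refine isOpen_ball.is_const_of_fderiv_eq_zero (𝕜 := ℂ) (convex_ball z r).isPreconnected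
      ((a1 i).mono hb) (fun t ht => ?_) hy (mem_ball_self hr)
    have hn := (D.isOpen i).mem_nhds (hb ht)
    exact co_fderiv ((a1 i).differentiableAt hn)
      (((b1 i).differentiableAt hn).congr_of_eventuallyEq (mem_of_superset hn (h1 i)))
  obtain ⟨c, h3⟩ := h2.exists_eq_const
  exact ⟨c, (ae_of_charts a2).mono fun x hx => by rw [← hx, h3]; rfl⟩

/-- The distance from `HH`. -/
theorem co [PreconnectedSpace Y] [SigmaCompactSpace Y] [IsFiniteMeasure D.ν] (hc : D.Cut D.K)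
    {f : Y → ℂ} (hf : MemLp f 2 D.ν) {ε : ℝ} (hε : 0 < ε) : ∃ h, D.HH h ∧
      ∫ x, ‖f x + h x‖ ^ 2 ∂D.ν ≤ ‖∫ x, f x ∂D.ν‖ ^ 2 / D.ν.real univ + ε := by
  have hm : ∀ {f : Y → ℂ}, D.Cc f → MemLp f 2 D.ν := fun hf => hf.memLp D.den D.Ψ_cont 2
  let V : Submodule ℂ (Lp ℂ 2 D.ν) :=
    { carrier := {u | ∃ k, D.HH k ∧ u =ᵐ[D.ν] k}
      zero_mem' := ⟨_, Dat.HH.zero, Lp.coeFn_zero _ _ _⟩
      add_mem' := by
        rintro u v ⟨k, hk, hu⟩ ⟨k', hk', hv⟩
        exact ⟨_, hk.add hk', (Lp.coeFn_add u v).trans (hu.add hv)⟩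
      smul_mem' := by
        rintro c u ⟨k, hk, hu⟩
        exact ⟨_, hk.const_mul c, (Lp.coeFn_smul c u).trans (hu.const_smul c)⟩ }
  have h1 := V.topologicalClosure.starProjection_inner_eq_zero (hf.toLp f)
  have h2 := V.topologicalClosure.starProjection_apply_mem (hf.toLp f)
  set P := V.topologicalClosure.starProjection (hf.toLp f)
  set G := hf.toLp f - P with hG
  obtain ⟨c, h3⟩ := co_const hc (Lp.memLp G) fun k hk => by
    have := h1 _ (V.le_topologicalClosure ⟨k, hk, (hm hk.1).coeFn_toLp⟩)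
    rw [abnm_inner] at this
    rw [← this]
    exact integral_congr_ae (by filter_upwards [(hm hk.1).coeFn_toLp] with x h; rw [h])
  have o1 : MemLp (fun _ : Y => (1 : ℂ)) 2 D.ν := memLp_const 1
  have o2 : ∀ u : Lp ℂ 2 D.ν, inner ℂ (o1.toLp _) u = ∫ x, u x ∂D.ν := fun u => by
    rw [abnm_inner]
    exact integral_congr_ae (by
      filter_upwards [o1.coeFn_toLp] with x h
      rw [h, star_one, mul_one])
  have h4 : inner ℂ (o1.toLp _) P = 0 :=
    closure_minimal (s := (V : Set (Lp ℂ 2 D.ν))) (t := {u | inner ℂ (o1.toLp _) u = 0}) (by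
      rintro u ⟨k, hk, hu⟩
      exact (o2 u).trans ((integral_congr_ae hu).trans (HH_int hc hk)))
      (isClosed_eq (by fun_prop) continuous_const) h2
  have h5 : ∫ x, f x ∂D.ν = D.ν.real univ • c := by
    rw [← integral_congr_ae hf.coeFn_toLp, ← o2, ← sub_add_cancel (hf.toLp f) P, inner_add_right,
      h4, add_zero, o2, integral_congr_ae h3, integral_const]
  have h6 : ‖G‖ ^ 2 = ‖∫ x, f x ∂D.ν‖ ^ 2 / D.ν.real univ := by
    have e : (fun x => ‖G x‖ ^ 2) =ᵐ[D.ν] fun _ => ‖c‖ ^ 2 := h3.mono fun x hx => by simp only [hx]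
    rw [abnm_norm, integral_congr_ae e, integral_const, h5, norm_smul, Real.norm_eq_abs, mul_pow,
      sq_abs, smul_eq_mul]
    rcases eq_or_ne (D.ν.real univ) 0 with h | h
    · simp [h]
    · field_simp
  obtain ⟨u, hu, h7⟩ := Metric.mem_closure_iff.1 h2 _ (Real.sqrt_pos.2 hε)
  obtain ⟨k, hk, hu'⟩ := id hu
  refine ⟨fun x => -1 * k x, hk.const_mul _, ?_⟩
  have h8 : ∫ x, ‖f x + -1 * k x‖ ^ 2 ∂D.ν = ‖G + (P - u)‖ ^ 2 := by
    rw [abnm_norm, hG, sub_add_sub_cancel]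
    refine integral_congr_ae ?_
    filter_upwards [Lp.coeFn_sub (hf.toLp f) u, hf.coeFn_toLp, hu'] with x e1 e2 e3
    rw [e1, Pi.sub_apply, e2, e3, neg_one_mul, sub_eq_add_neg]
  have h9 := norm_add_sq_eq_norm_sq_add_norm_sq_of_inner_eq_zero G (P - u)
    (h1 _ (sub_mem h2 (V.le_topologicalClosure hu)))
  rw [h8, sq, h9, ← sq, ← sq, h6]
  rw [dist_eq_norm] at h7
  exact add_le_add le_rfl ((Real.lt_sqrt (norm_nonneg _)).1 h7).le

end KD

end Pool.Agent.HX
end

-- part Pool.Agent.P.MP_63735c_ag.HXGl1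
section

/-! The index inequality in one chart of the manifold, and the global integrand. -/

open scoped ComplexOrder ContDiff Matrix Topology ENNReal
open Set Metric MeasureTheory Filter

namespace Pool.Agent.HX

open Pool.Agent.SPF Pool.Agent.AB

variable {N : ℕ}

theorem gl_cross {K a : Mat N} (hK : K.PosDef) (ha : a.IsHermitian) {M : ℝ} (h : Dom K a M)
    (u v : E N) : ‖trK K a * hq K u v - hq a u v‖ ^ 2 ≤
      (hq K u u).re * (2 * (N ^ 3 + N) * M ^ 2 * (hq K v v).re) := by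
  obtain ⟨h1, h2, -⟩ := dom_bounds hK ha h
  have h3 := (dom_bounds hK hK.1 (C := 1) fun v => by
    rw [one_mul, abs_of_nonneg (hq_nonneg hK.posSemidef v)]).2.1
  have p := mul_nonneg (hq_nonneg hK.posSemidef u) (hq_nonneg hK.posSemidef v)
  have h4 := hq_sq_le hK K u v
  have h5 := hq_sq_le hK a u v
  rw [mul_assoc] at h4 h5
  have h6 := h4.trans (mul_le_mul_of_nonneg_right h3 p)
  have h7 := h5.trans (mul_le_mul_of_nonneg_right h2 p)
  have h8 : ‖trK K a * hq K u v‖ ^ 2 ≤ (N * M) ^ 2 * (N * 1 ^ 2 * ((hq K u u).re * (hq K v v).re)) := by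
    rw [norm_mul, mul_pow]
    exact mul_le_mul (pow_le_pow_left₀ (norm_nonneg _) h1 2) h6 (by positivity) (by positivity)
  have h9 := pow_le_pow_left₀ (norm_nonneg _) (norm_sub_le (trK K a * hq K u v) (hq a u v)) 2
  nlinarith [sq_nonneg (‖trK K a * hq K u v‖ - ‖hq a u v‖)]

theorem gl_lev {K L : Mat N} (hK : K.PosDef) (hL : L.IsHermitian) {ε : ℝ} (hε : 0 ≤ ε)
    (h : ∀ v, (hq L v v).re ≤ ε * (hq K v v).re) (u : E N) :
    (trK K L * hq K u u - hq L u u).re ≤ ε * N * (hq K u u).re := by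
  have e : ∀ v, (hq ((ε : ℂ) • K - L) v v).re = ε * (hq K v v).re - (hq L v v).re := fun v => by
    rw [← Complex.re_ofReal_mul, ← hq_smul, hq, hq, hq, Matrix.sub_mulVec, dotProduct_sub,
      Complex.sub_re]
  have h1 : ((ε : ℂ) • K - L).IsHermitian := by
    refine Matrix.IsHermitian.sub ?_ hL
    rw [Matrix.IsHermitian, Matrix.conjTranspose_smul, hK.1.eq]
    simp
  have h2 := (psd_bounds hK (psd_of_hq h1 fun v => by rw [e]; linarith [h v])).2.1 u
  have h3 : (trK K ((ε : ℂ) • K - L)).re = ε * N - (trK K L).re := by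
    rw [trK, Matrix.mul_sub, Matrix.mul_smul, Matrix.nonsing_inv_mul _
      ((Matrix.isUnit_iff_isUnit_det _).1 hK.isUnit), Matrix.trace_sub, Matrix.trace_smul, trK]
    simp
  rw [e, h3] at h2
  rw [Complex.sub_re, ← trK_im hK.1 hL, Complex.re_ofReal_mul]
  nlinarith [mul_nonneg hε (hq_nonneg hK.posSemidef u)]

variable {Y : Type} [TopologicalSpace Y] [MeasurableSpace Y] [BorelSpace Y] [T2Space Y]

namespace KD

variable {D : KD Y N} {a : D.ι → E N → Mat N}

omit [BorelSpace Y] [T2Space Y] in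
theorem qH_zero {θ : Y → ℝ} {w h : Y → ℂ} {x : Y} (h0 : ∀ᶠ y in 𝓝 x, θ y = 0) (hθ : D.Smo θ) :
    D.qH a θ w h x = 0 := by
  have h1 : ∀ᶠ y in 𝓝 x, ((θ y : ℝ) : ℂ) = 0 := h0.mono fun y hy => by simp [hy]
  obtain ⟨i, z, hz, rfl⟩ := D.chart x
  have e : (fun y => θ (D.p i y)) =ᶠ[𝓝 z] fun _ => 0 := (Man.contAt_p hz).eventually h0
  rw [qH, Dat.Gam_levG_zero h0, (Dat.Gam_zero h1).2, (Dat.Gam_zero h1).2, h0.self_of_nhds,
    tr_chart (Man.levG_cpt hθ) hz, Man.levG, (lev_congr e).self_of_nhds, lev_const]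
  simp [trK]

omit [BorelSpace Y] in
theorem qH_cc (ha : Frm D.toMan a) {θ : Y → ℝ} (hθ : D.S θ) {w h : Y → ℂ} (hw : D.S w)
    (hh : D.Cc h) : D.Cc (D.qH a θ w h) := by
  obtain ⟨C, h1, h2, h3⟩ := hθ.2
  refine ⟨fun i => ?_, C, h1, h2, fun x hx => qH_zero
    (mem_of_superset (h1.isClosed.isOpen_compl.mem_nhds hx) h3) hθ.1⟩
  have h4 := (qh_cont (D.isOpen i) (D.Ψ_smooth i) (D.kah i) (ha.clo i) (hθ.1 i)
    (grad_smooth (D.isOpen i) (D.kah i) (hw.1 i)).continuousOn (hh.1 i)).div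
    (wt_smooth (D.Ψ_smooth i)).continuousOn fun z _ => (wt_pos _ _).ne'
  refine h4.congr fun z hz => ?_
  rw [qH_chart ha.cpt hθ.1 hw.1 h hz, Pi.div_apply, mul_div_cancel_left₀ _ (wt_pos _ _).ne']

omit [BorelSpace Y] [T2Space Y] in
theorem qH_add {θ θ' : Y → ℝ} (hθ : D.S θ) (hθ' : D.S θ') (w h : Y → ℂ) (x : Y) :
    D.qH a (fun y => θ y + θ' y) w h x = D.qH a θ w h x + D.qH a θ' w h x := by
  have h1 : (fun y => ((θ y + θ' y : ℝ) : ℂ)) = fun y => (θ y : ℂ) + (θ' y : ℂ) := by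
    funext y; push_cast; rfl
  have h2 : D.tr (D.levG fun y => θ y + θ' y) x = D.tr (D.levG θ) x + D.tr (D.levG θ') x := by
    obtain ⟨i, z, hz, rfl⟩ := D.chart x
    rw [tr_chart (Man.levG_cpt (hθ.add hθ').1) hz, tr_chart (Man.levG_cpt hθ.1) hz,
      tr_chart (Man.levG_cpt hθ'.1) hz, Man.levG_add hθ.1 hθ'.1 hz, trK, Matrix.mul_add,
      Matrix.trace_add, trK, trK]
  simp only [qH]
  rw [Dat.Gam_add_form (h := D.levG θ) (h' := D.levG θ')
    (fun i z hz => Man.levG_add hθ.1 hθ'.1 hz), h1, h2, Dat.Gam_add_right hθ.ofReal.1 hθ'.ofReal.1,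
    Dat.Gam_add_right hθ.ofReal.1 hθ'.ofReal.1]
  simp only [Complex.add_re, Complex.sub_re, add_mul, mul_add]
  ring

omit [BorelSpace Y] [T2Space Y] in
theorem qH_sum {κ : Type} (s : Finset κ) {θ : κ → Y → ℝ} (hθ : ∀ k, D.S (θ k)) (w h : Y → ℂ)
    (x : Y) : D.S (fun y => ∑ k ∈ s, θ k y) ∧
      D.qH a (fun y => ∑ k ∈ s, θ k y) w h x = ∑ k ∈ s, D.qH a (θ k) w h x := by
  classical
  induction s using Finset.induction_on with
  | empty =>
    simp only [Finset.sum_empty]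
    exact ⟨Man.S.zero, qH_zero (Eventually.of_forall fun _ => rfl) Man.S.zero.1⟩
  | insert k s hk ih =>
    simp only [Finset.sum_insert hk]
    exact ⟨(hθ k).add ih.1, by rw [qH_add (hθ k) ih.1, ih.2]⟩

theorem lig_err {i : D.ι} {τ : E N → ℝ} (hτ : Tst (D.W i) τ) : ∃ A : ℝ, 0 < A ∧ ∀ v, D.S v →
    ∫ x, (D.Gam D.K (fun y => (D.ext i τ y : ℝ)) (fun y => (D.ext i τ y : ℝ)) x).re *
      (D.Gam D.K v v x).re ∂D.ν ≤ A * ∫ z in tsupport τ, ‖db (fun y => v (D.p i y)) z‖ ^ 2 := by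
  have hS := (Man.ext_S (D := D.toMan) hτ).ofReal
  have hC : IsCompact (tsupport τ) := hτ.cpt
  have hG := (Dat.GamK_cc hS hS.1).map (l := Complex.re) Complex.continuous_re rfl
  obtain ⟨c, B, -, hB, hd⟩ := cpt_dual hC
    (fun a b => ((D.kah i).smooth a b).continuousOn.mono hτ.sub)
    fun z hz => (D.kah i).pos z (hτ.sub hz)
  obtain ⟨b₀, b, -, hb, hw0⟩ := Dat.ablcg_wt (D := D.toDat) hC hτ.sub
  obtain ⟨T, hT⟩ := hC.exists_bound_of_continuousOn ((hG.1 i).mono hτ.sub)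
  refine ⟨b * ((|T| + 1) * B), by positivity, fun v hv => ?_⟩
  have hi := Dat.cc_int (hG.map₂ (Dat.GamK_cc hv hv.1).1 (l := fun (p : ℝ) (q : ℂ) => p * q.re)
    (by fun_prop) fun b => zero_mul _)
  rw [← setIntegral_eq_integral_of_forall_compl_eq_zero (s := D.p i '' tsupport τ) fun x hx => by
    rw [(Dat.Gam_zero (c := ((0 : ℝ) : ℂ)) ((Dat.ablcg_out hC hτ.sub subset_rfl hx).mono
      fun y hy => by rw [hy])).1, Complex.zero_re, zero_mul],
    D.den.int (D.Ψ_cont i) hC.measurableSet hτ.sub, ← integral_const_mul]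
  refine setIntegral_mono_on ((D.den.intOn (D.Ψ_cont i) hC.measurableSet hτ.sub _).1
    hi.integrableOn) ((((((db_smooth (D.isOpen i) (hv.1 i)).continuousOn.mono hτ.sub).norm).pow
      2).integrableOn_compact hC).const_mul _) hC.measurableSet fun z hz => ?_
  rw [smul_eq_mul, mul_assoc, mul_assoc]
  refine mul_le_mul (hw0 z hz).2 (mul_le_mul (((le_abs_self _).trans (hT z hz)).trans
    ((le_abs_self T).trans (by linarith))) ?_ (Dat.GamK_nonneg _) (by positivity))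
    (mul_nonneg (Dat.GamK_nonneg _) (Dat.GamK_nonneg _)) hb.le
  rw [Dat.ablcg_K hv.1 (hτ.sub hz)]
  exact (hd z hz _).2.1

theorem lig (ha : Frm D.toMan a) {i : D.ι} {τ : E N → ℝ} (hτ : Tst (D.W i) τ) {h : Y → ℂ}
    (hh : D.Cc h) (B : ℝ) {γ : ℝ} (hγ : 0 < γ) : ∃ γ' : ℝ, 0 < γ' ∧ ∀ w₀, D.S w₀ →
      ∃ ε : ℝ, 0 < ε ∧ ∀ w e, D.S w → 0 ≤ e → e ≤ ε →
        (D.En (fun x => w x - w₀ x) fun x => w x - w₀ x).re ≤ γ' → (D.En w w).re ≤ B →
          D.Near h w e → ∃ v, D.S v ∧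
            ∫ x, D.ext i τ x * D.hs (fun j z => a j z + lcG D.toMan v j z) x ∂D.ν ≤
              ∫ x, D.qH a (D.ext i τ) w h x ∂D.ν + γ ∧
            ∫ x, (D.Gam D.K (fun y => (D.ext i τ y : ℝ)) (fun y => (D.ext i τ y : ℝ)) x).re *
              (D.Gam D.K (fun y => v y - w y) (fun y => v y - w y) x).re ∂D.ν ≤ γ := by
  have hW := D.isOpen i
  have hS := Man.ext_S (D := D.toMan) hτ
  obtain ⟨A, hA, h3⟩ := lig_err hτ
  obtain ⟨A₀, hA₀, h₀⟩ := Dat.db_le_En (D := D.toDat) hτ.cpt hτ.sub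
  obtain ⟨C, hC, hs, γ', hγ', H⟩ := li hW (D.kah i) (D.Ψ_smooth i) (D.det i) (ha.clo i) hτ
    (hh.1 i) (A₀ * B) (lt_min hγ (div_pos hγ hA))
  obtain ⟨A₁, hA₁, h₁⟩ := Dat.db_le_En (D := D.toDat) hC hs
  obtain ⟨A₂, hA₂, h₂⟩ := Dat.En_ext_le (D := D.toDat) hC hs
  refine ⟨γ' / A₁, by positivity, fun w₀ hw₀ => ?_⟩
  obtain ⟨ε, hε, H⟩ := H _ (hw₀.1 i)
  refine ⟨ε / A₂, by positivity, fun w e hw he heε hd hB hn => ?_⟩
  obtain ⟨v, hv, b1, b2⟩ := H _ (hw.1 i) (by
      refine le_trans (le_of_eq ?_) ((h₁ _ (hw.sub hw₀)).trans ((le_div_iff₀' hA₁).1 hd))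
      refine setIntegral_congr_fun hC.measurableSet fun z hz => ?_
      rw [db_sub (diffAt hW (hw.1 i) (hs hz)) (diffAt hW (hw₀.1 i) (hs hz))])
    ((h₀ w hw).trans (mul_le_mul_of_nonneg_left hB hA₀.le))
    (Dat.ablcg_weak hh hw he ((le_div_iff₀ hA₂).1 heε) hn h₂)
  have hV := Man.ext_S (D := D.toMan) hv
  refine ⟨_, hV, ?_, (h3 _ (hV.sub hw)).trans ?_⟩
  · rw [D.den.int_supp (D.Ψ_cont i) (i := i) fun x hx => by rw [Man.ext_out hx, zero_mul],
      D.den.int_supp (D.Ψ_cont i) (i := i) fun x hx => qH_zero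
        (Dat.ablcg_out hτ.cpt hτ.sub subset_rfl fun h' => hx (image_mono hτ.sub h')) hS.1]
    refine le_of_eq_of_le ?_ (b2.trans (add_le_add (le_of_eq ?_) (min_le_left _ _))) <;>
      refine setIntegral_congr_fun hW.measurableSet fun z hz => ?_
    · rw [hs_chart (cpt_add ha.cpt (lcG_cpt hV.1)) hz, Man.ext_apply hz, lcG,
        (lc_congr (Dat.ablcg_ev v hz)).self_of_nhds, smul_eq_mul]
    · have he := Dat.ablcg_ev (D := D.toDat) τ hz
      have he' : (fun y => ((D.ext i τ (D.p i y) : ℝ) : ℂ)) =ᶠ[𝓝 z] fun y => (τ y : ℂ) :=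
        he.mono fun y hy => congrArg _ hy
      rw [qH_chart ha.cpt hS.1 hw.1 h hz, smul_eq_mul, qh, qh, (dr_congr he).self_of_nhds,
        (lev_congr he).self_of_nhds, (grad_congr _ he').self_of_nhds, Man.ext_apply hz]
  · rw [← le_div_iff₀' hA]
    refine le_of_eq_of_le ?_ (b1.trans (min_le_right _ _))
    refine setIntegral_congr_fun hτ.cpt.measurableSet fun z hz => ?_
    rw [db_sub (diffAt hW (hV.1 i) (hτ.sub hz)) (diffAt hW (hw.1 i) (hτ.sub hz)),
      (db_congr (Dat.ablcg_ev v (hτ.sub hz))).self_of_nhds]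

end KD

end Pool.Agent.HX
end
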