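import Pool.Agent.K.MP_63735c_ag.C32

/-! Integrality read on `T × ℂ^n`. -/

open scoped ComplexOrder ContDiff Matrix
open Set Metric MeasureTheory Filter Topology

namespace Pool.Agent.CK

open Pool.Agent.SPF Pool.Agent.CL Pool.Agent.NL

variable {N n : ℕ} {X : Type} [TopologicalSpace X] {A : Atlas X N} {T O : Set (E n)}
  {Ψ : P n → X}

lemma ckint_cone {W : Set (P n)} (hc : Convex ℝ W) {o : P n} (ho : o ∈ W) {c : ℝ → P n}
    (h : Curve W c) : ∀ q ∈ Icc (0 : ℝ) 1 ×ˢ Icc (0 : ℝ) 1,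
      ContDiffAt ℝ 2 (fun x : ℝ × ℝ => o + x.1 • (c x.2 - o)) q ∧ o + q.1 • (c q.2 - o) ∈ W := by
  intro q hq
  refine ⟨?_, hc.add_smul_sub_mem ho (h _ hq.2).2 hq.1⟩
  have h2 : ContDiffAt ℝ 2 (fun x : ℝ × ℝ => c x.2) q := (h _ hq.2).1.comp q contDiffAt_snd
  exact contDiffAt_const.add (contDiffAt_fst.smul (h2.sub contDiffAt_const))

lemma ckint_pull {β : A.ι → E N → E N → E N → ℝ} {t : Form2 (P n)} {G : ℝ × ℝ → P n}
    (hG : ∀ q ∈ Icc (0 : ℝ) 1 ×ˢ Icc (0 : ℝ) 1, ContDiffAt ℝ 2 G q ∧ G q ∈ T ×ˢ (univ : Set (E n)))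
    (ht : ∀ p : P n, p.1 ∈ T → ∃ i f, Lf A Ψ p i f ∧ ∀ᶠ s in 𝓝 p, ∀ u v,
      t s u v = β i (f s) (fderiv ℂ f s u) (fderiv ℂ f s v)) :
    IsPull A β (fun x => Ψ (G x))
      (fun x => t (G x) (fderiv ℝ G x (1, 0)) (fderiv ℝ G x (0, 1))) := by
  intro s hs
  have hs' : s ∈ Icc (0 : ℝ) 1 ×ˢ Icc (0 : ℝ) 1 := by
    rw [Set.Icc_prod_eq] at hs
    exact hs
  obtain ⟨hG2, hGT⟩ := hG s hs'
  obtain ⟨i, f, hf, hev⟩ := ht (G s) hGT.1
  obtain ⟨U, hU, hUo, hsU⟩ := _root_.eventually_nhds_iff.1 (Filter.Eventually.and hf hev)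
  have hsm : ContDiffOn ℝ ∞ f U :=
    (hol_smooth hUo (fun x hx => (hU x hx).1.1.differentiableWithinAt)).2.1
  have e1 : ∀ᶠ x in 𝓝 s, ContDiffAt ℝ 2 G x := hG2.eventually (by simp)
  have e2 : ∀ᶠ x in 𝓝 s, G x ∈ U := hG2.continuousAt.eventually (hUo.mem_nhds hsU)
  obtain ⟨V, hV, hVo, hsV⟩ := _root_.eventually_nhds_iff.1 (e1.and e2)
  refine ⟨i, V, fun x => f (G x), hVo, hsV, ?_, ?_⟩
  · intro x hx
    have h1 : ContDiffAt ℝ 2 f (G x) :=
      (hsm.contDiffAt (hUo.mem_nhds (hV x hx).2)).of_le (WithTop.coe_le_coe.2 (le_top : (2 : ℕ∞) ≤ ⊤))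
    exact (h1.comp x (hV x hx).1).contDiffWithinAt
  · intro x hx
    obtain ⟨⟨hd, hW, hp⟩, he⟩ := hU _ (hV x hx).2
    refine ⟨hW, hp, ?_⟩
    have hGd : HasFDerivAt G (fderiv ℝ G x) x :=
      ((hV x hx).1.differentiableAt (by simp)).hasFDerivAt
    have hc : HasFDerivAt (fun x => f (G x))
        (((fderiv ℂ f (G x)).restrictScalars ℝ).comp (fderiv ℝ G x)) x :=
      (hd.hasFDerivAt.restrictScalars ℝ).comp x hGd
    rw [hc.fderiv]
    exact he _ _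

theorem isInt_of {β : A.ι → E N → E N → E N → ℝ} (hβ : Integral A β) (hT : IsOpen T)
    (hc : Convex ℝ T) (hne : T.Nonempty) {t : Form2 (P n)}
    (ht : ∀ p : P n, p.1 ∈ T → ∃ i f, Lf A Ψ p i f ∧ ∀ᶠ s in 𝓝 p, ∀ u v,
      t s u v = β i (f s) (fderiv ℂ f s u) (fderiv ℂ f s v)) : IsInt T Ψ t := by
  intro B hB
  obtain ⟨H, hH⟩ := hβ
  obtain ⟨y, hy⟩ := hne
  have hWo : IsOpen (T ×ˢ (univ : Set (E n))) := hT.prod isOpen_univ
  have hWc : Convex ℝ (T ×ˢ (univ : Set (E n))) := hc.prod convex_univ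
  set o : P n := (y, 0) with hodef
  have ho : o ∈ T ×ˢ (univ : Set (E n)) := ⟨hy, trivial⟩
  let u : P n → ℝ := fun p => H (fun r => Ψ (seg o p r)) - segInt B o p
  have key : ∀ c : ℝ → P n, Curve (T ×ˢ univ) c → ∃ k : ℤ,
      lineInt B c - H (fun r => Ψ (c r)) =
        lineInt B (fun _ => o) - H (fun _ => Ψ o) - k + u (c 0) - u (c 1) := by
    intro c h
    have hG := ckint_cone hWc ho h
    obtain ⟨k, hk⟩ := hH _ _ (ckint_pull (β := β) hG ht)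
    have hs := stokes_sq hWo hB hG
    refine ⟨k, ?_⟩
    have a0 : lineInt B (fun s : ℝ => o + s • (c 0 - o)) = segInt B o (c 0) :=
      lineInt_seg B o (c 0)
    have a1 : lineInt B (fun s : ℝ => o + s • (c 1 - o)) = segInt B o (c 1) :=
      lineInt_seg B o (c 1)
    simp only [one_smul, zero_smul, add_zero, add_sub_cancel] at hk hs
    rw [a0, a1] at hs
    have a2 : lineInt B (fun r => c r) = lineInt B c := rfl
    rw [a2] at hs
    simp only [u, seg]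
    linarith
  refine ⟨u, fun c c' h h' he => ?_⟩
  obtain ⟨k, hk⟩ := key c h
  obtain ⟨k', hk'⟩ := key c' h'
  have e : H (fun r => Ψ (c r)) = H (fun r => Ψ (c' r)) := by
    congr 1
    funext r
    exact he r r.2
  refine ⟨k - k', ?_⟩
  push_cast
  linarith

end Pool.Agent.CK
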