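import Pool.Agent.K.MP_63735c_ag.C35
import Pool.Agent.K.MP_63735c_ag.C63

/-! The model on a space of finite volume with bounded forms. -/

open scoped ComplexOrder ContDiff Matrix
open Set Metric MeasureTheory Filter Topology

namespace Pool.Agent.CS

open Pool.Agent.SPF Pool.Agent.CL Pool.Agent.NL Pool.Agent.CK

variable {N n : ℕ} {X : Type} [TopologicalSpace X] {A : Atlas X N} {T O : Set (E n)}
  {Ψ : P n → X}

theorem om_vertB (hinj : ∀ i, InjOn (A.p i) (A.C i).W) (h : A.IsUnif T Ψ)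
    (hT : IsOpen T) (K : Form11 A) (b20 : Bd20 A K) (b11 : Bd11 A K) {k c : ℝ}
    (hk : 0 < k) (hc : 0 < c)
    (hl : ∀ y ∈ T, ∀ u, c * ‖u‖ ^ 2 ≤ hb A k Ψ y u (Complex.I • u)) :
    ∃ C : ℝ, ∀ y ∈ T, ∀ ξ v,
      leaf (pb A (f11 A K.h) Ψ) y ξ v (Complex.I • v) ≤ C * ‖v‖ ^ 2 := by
  obtain ⟨C1, -, h20⟩ := b20
  obtain ⟨C2, hC2, h11⟩ := b11
  refine ⟨C1 * ((n : ℝ) ^ 2 * (k * C2 / c)), fun y hy ξ v => ?_⟩
  obtain ⟨i, f, hL, hU⟩ := unif_lf h (p := (y, ξ)) hy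
  have hU0 := hU.self_of_nhds
  have hI : ((0, Complex.I • v) : P n) = Complex.I • ((0, v) : P n) := by simp
  have h1 : leaf (pb A (f11 A K.h) Ψ) y ξ v (Complex.I • v) =
      pb A (f11 A K.h) Ψ (y, ξ) (0, v) (0, Complex.I • v) := by simp [leaf]
  rw [h1, pb_eq hinj (gform_11 _) hL, hI, map_smul]
  have key := h20 i _ hU0.1 (fderiv ℂ f (y, ξ) (0, v))
    ((n : ℝ) ^ 2 * (k * C2 / c) * ‖v‖ ^ 2) (by positivity) (by
      intro w
      obtain ⟨⟨b, τ⟩, rfl⟩ := hU0.2.2.1.2 w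
      rw [hU0.2.2.2.2]
      have e1 : hb A k Ψ y b (Complex.I • b) = k * ev11 ((A.C i).η (f (y, ξ)))
          (fderiv ℂ f (y, ξ) (b, τ)) (Complex.I • fderiv ℂ f (y, ξ) (b, τ)) := by
        have e2 := cketa_hor hinj h hT (p := (y, ξ)) hy (b, τ) (Complex.I • ((b, τ) : P n))
        rw [pb_eq hinj (gform_11 _) hL, map_smul] at e2
        rw [cketa_hb, ← cketa_const hinj h hT hy ξ]
        exact congrArg (k * ·) e2.symm
      have e3 := (le_abs_self _).trans (h11 i _ hU0.1 (fderiv ℂ f (y, ξ) (b, τ)))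
      have e4 : c * ‖b‖ ^ 2 ≤ k * (C2 * ev11 (K.h i (f (y, ξ))) (fderiv ℂ f (y, ξ) (b, τ))
          (Complex.I • fderiv ℂ f (y, ξ) (b, τ))) :=
        (hl y hy b).trans (e1 ▸ mul_le_mul_of_nonneg_left e3 hk.le)
      set R := ev11 (K.h i (f (y, ξ))) (fderiv ℂ f (y, ξ) (b, τ))
          (Complex.I • fderiv ℂ f (y, ξ) (b, τ)) with hR
      have e5 : ‖b‖ ^ 2 ≤ k * C2 / c * R := by
        rw [div_mul_eq_mul_div, le_div_iff₀ hc]; linarith
      have e6 : ‖b ⬝ᵥ v‖ ^ 2 ≤ ((n : ℝ) * ‖b‖ * ‖v‖) ^ 2 :=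
        pow_le_pow_left₀ (norm_nonneg _) (dot_le b v) 2
      calc ‖b ⬝ᵥ v‖ ^ 2 ≤ ((n : ℝ) * ‖b‖ * ‖v‖) ^ 2 := e6
        _ = (n : ℝ) ^ 2 * ‖v‖ ^ 2 * ‖b‖ ^ 2 := by ring
        _ ≤ (n : ℝ) ^ 2 * ‖v‖ ^ 2 * (k * C2 / c * R) :=
          mul_le_mul_of_nonneg_left e5 (by positivity)
        _ = (n : ℝ) ^ 2 * (k * C2 / c) * ‖v‖ ^ 2 * R := by ring)
  calc _ ≤ C1 * ((n : ℝ) ^ 2 * (k * C2 / c) * ‖v‖ ^ 2) := key
    _ = _ := by ring

/-- Integrality read on every `T × ℂ^n`. -/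
def IntG (n : ℕ) (A : Atlas X N) (β : A.ι → E N → E N → E N → ℝ) : Prop :=
  ∀ (T : Set (E n)) (Ψ : P n → X) (t : Form2 (P n)), IsOpen T → Convex ℝ T → T.Nonempty →
    (∀ p : P n, p.1 ∈ T → ∃ i f, Lf A Ψ p i f ∧ ∀ᶠ s in 𝓝 p, ∀ u v,
      t s u v = β i (f s) (fderiv ℂ f s u) (fderiv ℂ f s v)) → IsInt T Ψ t

theorem intG_of {β : A.ι → E N → E N → E N → ℝ} (h : Integral A β) : IntG n A β :=
  fun _ _ _ h1 h2 h3 h4 => isInt_of h h1 h2 h3 h4

/-- Every form `Re (c σ)` is a real combination of finitely many integral forms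
`Re (c_j σ) + a_j`, with `a_j` of type (1,1) and small along the leaves. -/
def TranscG [MeasurableSpace X] (n : ℕ) (A : Atlas X N) (μ : Measure X) (K : Form11 A) : Prop :=
  ∃ (m : ℕ) (c : Fin m → ℂ) (a : Fin m → Form11 A),
    (∀ j, IntG n A fun i z u v =>
      (c j * (u ⬝ᵥ (A.C i).σ z *ᵥ v)).re + ev11 ((a j).h i z) u v) ∧
    (∀ j (T : Set (E n)) (Ψ : P n → X), A.IsUnif T Ψ → IsOpen T →
      (∃ C : ℝ, ∀ y ∈ T, ∀ ξ v,
        leaf (pb A (f11 A K.h) Ψ) y ξ v (Complex.I • v) ≤ C * ‖v‖ ^ 2) →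
      NullL T Ψ μ (pb A (f11 A (a j).h) Ψ)) ∧
    ∀ c₀ : ℂ, ∃ r : Fin m → ℝ, ∑ j, (r j : ℂ) * c j = c₀ ∧
      ∀ i, ∀ z ∈ (A.C i).W, ∑ j, (r j : ℂ) • (a j).h i z = 0

theorem exists_modelB [T2Space X] [MeasurableSpace X] [BorelSpace X]
    (hn : 1 ≤ n) (hN : N = 2 * n) (hinj : ∀ i, InjOn (A.p i) (A.C i).W) {μ : Measure X}
    [IsFiniteMeasure μ] (hμ : IsVolume A μ) (K : Form11 A) (hK : ∀ i, ∀ z ∈ (A.C i).W, (K.h i z).PosDef)
    (b20 : Bd20 A K) (b11 : Bd11 A K) {k : ℝ}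
    (hk : 0 < k) (hη : IntG n A fun i z u v => k * ev11 ((A.C i).η z) u v)
    (hR : TranscG n A μ K)
    (h : Std A T Ψ) (hT : IsOpen T) (hne : T.Nonempty) :
    ∃ M : Model n X, M.T ⊆ T ∧ M.Ψ = Ψ ∧ M.om = pb A (f11 A K.h) Ψ := by
  obtain ⟨y0, hy0⟩ := hne
  obtain ⟨m, c, a, ha1, ha2, ha3⟩ := hR
  obtain ⟨c1, hc1, C1, hb1⟩ := pos_near (h := hb A k Ψ) (y := y0)
    ((hb_closed hinj h.1 hT k).1.1.continuousOn.continuousAt (hT.mem_nhds hy0))
    fun u hu => hb_pos hinj h.1 hk hy0 hu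
  obtain ⟨O, hO, hOi⟩ := inj_local hinj h.1 hT (w := (y0, 0)) hy0
  obtain ⟨r1, hr1, hB1⟩ := Metric.mem_nhds_iff.1 hO
  obtain ⟨r2, hr2, hB2⟩ := Metric.mem_nhds_iff.1 (hb1.and (hT.mem_nhds hy0))
  set T' := ball y0 (min r1 r2) with hT'
  have hs2 : T' ⊆ ball y0 r2 := ball_subset_ball (min_le_right _ _)
  have hsub : T' ⊆ T := fun y hy => (hB2 (hs2 hy)).2
  have hU : A.IsUnif T' Ψ := unif_mono h.1 hsub
  have hne' : T'.Nonempty := ⟨y0, mem_ball_self (lt_min hr1 hr2)⟩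
  have hS : Std A T' Ψ := ⟨hU, fun c p hp => h.2 c p (hsub hp)⟩
  obtain ⟨C2, hC2⟩ := iso_bd (C := C1) hc1 n
  obtain ⟨C3, hC3⟩ := om_vertB hinj hU isOpen_ball K b20 b11 hk hc1
    fun y hy u => ((hB2 (hs2 hy)).1 u).1
  have hlf : ∀ p : P n, p.1 ∈ T' → ∃ i f, Lf A Ψ p i f ∧ UP A i Ψ f p := fun p hp => by
    obtain ⟨i, f, h1, h2⟩ := unif_lf hU hp
    exact ⟨i, f, h1, h2.self_of_nhds⟩
  have hnb : ∀ p : P n, p.1 ∈ T' → ∀ᶠ s : P n in 𝓝 p, s.1 ∈ T' := fun p hp =>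
    continuous_fst.continuousAt.eventually (isOpen_ball.mem_nhds hp)
  have hpos : ∀ p : P n, p.1 ∈ T' → ∀ u, u ≠ 0 →
      0 < pb A (f11 A K.h) Ψ p u (Complex.I • u) := fun p hp u hu => by
    obtain ⟨i, f, h1, h2⟩ := hlf p hp
    rw [pb_eq hinj (gform_11 K) h1, map_smul]
    exact ev11_pos (hK i _ h2.1) fun h0 => hu (h2.2.2.1.1 (by rw [h0, map_zero]))
  set C0 := max (max 1 C2) C3 with hC0
  have e1 : 1 ≤ C0 := (le_max_left _ _).trans (le_max_left _ _)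
  have e2 : C2 ≤ C0 := (le_max_right _ _).trans (le_max_left _ _)
  have e3 : C3 ≤ C0 := le_max_right _ _
  refine ⟨{ T := T', Ψ := Ψ, h := hb A k Ψ, om := pb A (f11 A K.h) Ψ, μ := μ, c0 := r1 / 2
            C0 := C0, n_pos := hn, T_open := isOpen_ball, T_conv := convex_ball _ _
            T_ne := hne', c0_pos := half_pos hr1, C0_ge := e1
            cont := fun p hp => (unif_cont hU hp.1).continuousWithinAt
            ret := fun p q hp hq he => exists_ret hU isOpen_ball hp hq he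
            closed := fun O g hg y hy => ret_closed hinj hS hg hy
            inj := hOi.mono fun p hp => hB1 ?_
            h_closed := (hb_closed hinj hU isOpen_ball k).1
            h_jinv := (hb_closed hinj hU isOpen_ball k).2
            h_pos := fun y hy u hu => hb_pos hinj hU hk hy hu
            iso := fun O g hg y hy => hb_iso hinj hU isOpen_ball k hg hy
            bd := fun O g hg y hy => ?_
            om_form := isForm_11 hinj K hU isOpen_ball, om_pos := hpos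
            om_vert := fun y hy ξ v => (hC3 y hy ξ v).trans
              (mul_le_mul_of_nonneg_right e3 (sq_nonneg _))
            fin := inferInstance, vol := ?_, h_int := ?_, m := m, c := c
            a := fun j => pb A (f11 A (a j).h) Ψ
            a_form := fun j => isForm_11 hinj (a j) hU isOpen_ball
            a_int := fun j => ?_
            a_null := fun j => ha2 j T' Ψ hU isOpen_ball ⟨C3, hC3⟩
            a_span := fun c₀ => ?_ }, hsub, rfl, rfl⟩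
  · rw [← ball_prod_same]
    exact ⟨ball_subset_ball (min_le_left _ _) hp.1, by
      have := hp.2
      rwa [show 2 * (r1 / 2) = r1 by ring] at this⟩
  · have b1 := (hB2 (hs2 (hg.sub hy))).1
    have b2 := (hB2 (hs2 (hg.maps hy))).1
    obtain ⟨d1, d2, d3⟩ := hC2 _ _ _ _ (fun u => (b1 u).1) (fun u => (b1 u).2) (fun u => (b2 u).1)
      (fun u => (b2 u).2) (hb_iso hinj hU isOpen_ball k hg hy) (hg.pair y hy)
    exact ⟨d1.trans e2, d2.trans e2, d3.trans e2⟩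
  · obtain ⟨c, hc, hv⟩ := vol_local hN hinj hμ hU isOpen_ball
    refine ⟨c, hc, fun w hw => ?_⟩
    obtain ⟨O, h1, h2, h3, h4, h5⟩ := hv w hw
    exact ⟨O, h1, h2, h3, fun S hS hm => ⟨hm.image_of_continuousOn_injOn
      (fun s hs => (unif_cont hU (h4 s (hS hs))).continuousWithinAt) (h3.mono hS), h5 S hS hm⟩⟩
  · refine hη _ _ _ isOpen_ball (convex_ball _ _) hne' fun p hp => ?_
    obtain ⟨i, f, h1, -⟩ := hlf p hp
    refine ⟨i, f, h1, ?_⟩
    filter_upwards [h1.eventually, hnb p hp] with s h2 h3 u v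
    rw [base_hb hinj hU isOpen_ball k h3]
    exact congrArg (k * ·) (pb_eq hinj (gform_11 (etaF A)) h2 u v)
  · refine ha1 j _ _ _ isOpen_ball (convex_ball _ _) hne' fun p hp => ?_
    obtain ⟨i, f, h1, -⟩ := hlf p hp
    refine ⟨i, f, h1, ?_⟩
    filter_upwards [h1.eventually, hnb p hp] with s h2 h3 u v
    rw [← hS.2 (c j) s h3]
    exact congrArg₂ (· + ·) (pb_eq hinj (gform_20 A (c j)) h2 u v)
      (pb_eq hinj (gform_11 (a j)) h2 u v)
  · obtain ⟨r, h1, h2⟩ := ha3 c₀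
    refine ⟨r, h1, fun p hp => ?_⟩
    obtain ⟨i, f, h3, h4⟩ := hlf p hp
    refine ContinuousLinearMap.ext fun u => ContinuousLinearMap.ext fun v => ?_
    have h5 := ckmodel_ev r (fun j => (a j).h i (f p)) (fderiv ℂ f p u) (fderiv ℂ f p v)
    rw [h2 i _ h4.1] at h5
    simp only [sum_apply, smul_apply, smul_eq_mul,
      pb_eq hinj (gform_11 (a _)) h3]
    simpa [ev11, f11] using h5

end Pool.Agent.CS
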