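import Pool.Agent.K.MP_63735c_ag.C72
import Pool.Agent.K.MP_63735c_ag.C23

-- part Pool.Agent.P.MP_63735c_ag.CLMonoa
section

/-! Auxiliary functions for the area monotonicity. -/

open scoped ContDiff Matrix ENNReal
open Set Metric MeasureTheory Filter Topology

namespace Pool.Agent.CL

open Pool.Agent.SPF

variable {n : ℕ}

theorem clmono_sq (z : ℝ) : HasDerivAt (fun x : ℝ => max x 0 ^ 2) (2 * max z 0) z := by
  obtain ⟨h1, h2, h3⟩ := pos3
  have e : deriv (fun x : ℝ => max x 0 ^ 3) = fun x => 3 * max x 0 ^ 2 := funext h2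
  have hd : Differentiable ℝ (deriv fun x : ℝ => max x 0 ^ 3) :=
    (h1.differentiable_deriv_two)
  have h4 := (hd z).hasDerivAt
  rw [h3, e] at h4
  have h5 := h4.const_mul (1 / 3)
  have e2 : (fun y : ℝ => 1 / 3 * (3 * max y 0 ^ 2)) = fun y => max y 0 ^ 2 := by
    funext y; ring
  rw [e2] at h5
  exact h5.congr_deriv (by ring)

theorem clmono_ramp {η : ℝ} (hη : 0 < η) : ∃ R D : ℝ → ℝ, (∀ z, HasDerivAt R (D z) z) ∧
    Continuous D ∧ (∀ z, 0 ≤ R z ∧ z - η / 2 ≤ R z ∧ z * D z - η / 2 ≤ R z ∧ 0 ≤ D z ∧ D z ≤ 1) ∧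
    ∀ z ≤ 0, R z = 0 ∧ D z = 0 := by
  refine ⟨fun z => (max z 0 ^ 2 - max (z - η) 0 ^ 2) / (2 * η),
    fun z => (max z 0 - max (z - η) 0) / η, fun z => ?_, by fun_prop, fun z => ?_, fun z hz => ?_⟩
  · have h2 := (clmono_sq (z - η)).comp_sub_const z η
    refine (((clmono_sq z).sub h2).div_const (2 * η)).congr_deriv ?_
    field_simp
  · have h2 : 0 < 2 * η := by positivity
    beta_reduce
    rw [← mul_div_assoc, sub_le_iff_le_add (a := z * _ / η), div_le_iff₀ hη, le_div_iff₀ h2,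
      le_div_iff₀ h2, le_div_iff₀ hη, div_le_iff₀ hη]
    have e : ((max z 0 ^ 2 - max (z - η) 0 ^ 2) / (2 * η) + η / 2) * η =
        (max z 0 ^ 2 - max (z - η) 0 ^ 2 + η ^ 2) / 2 := by field_simp
    rw [e]
    rcases le_total z 0 with h | h
    · rw [max_eq_right h, max_eq_right (by linarith)]
      refine ⟨by simp, by nlinarith, by nlinarith, by simp, by linarith⟩
    · rw [max_eq_left h]
      rcases le_total z η with h' | h'
      · rw [max_eq_right (by linarith)]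
        refine ⟨by nlinarith, by nlinarith [sq_nonneg (z - η)], by nlinarith, by linarith,
          by linarith⟩
      · rw [max_eq_left (by linarith)]
        refine ⟨by nlinarith, by nlinarith, by nlinarith, by linarith, by linarith⟩
  · beta_reduce
    rw [max_eq_right hz, max_eq_right (by linarith)]
    simp

theorem clmono_F {s δ : ℝ} (hδ : 0 < δ) (hs : 100 * δ ≤ s) : ∃ F : ℝ → ℝ, ContDiff ℝ 2 F ∧
    (∀ y, s ≤ y → F y = 0) ∧ (∀ y, F y ≤ 0) ∧ (∀ y, deriv (deriv F) y ≤ 0) ∧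
    ∀ y, 0 ≤ y → (if y ≤ δ then 19 / 20 * s / δ else 0) - (if y < s then 1 else 0) ≤
      deriv F y + y * deriv (deriv F) y := by
  obtain ⟨R, D, a1, a2, a3, a4⟩ := clmono_ramp (η := s / 25) (by linarith)
  obtain ⟨R', D', b1, b2, b3, b4⟩ := clmono_ramp (η := δ / 25) (by linarith)
  have hm : ∀ y, 0 < δ + δ / 50 + R' (y - δ) := fun y => by linarith [(b3 (y - δ)).1]
  set f : ℝ → ℝ := fun y => R (s - y) / (δ + δ / 50 + R' (y - δ)) with hf
  set f' : ℝ → ℝ := fun y => (-D (s - y) * (δ + δ / 50 + R' (y - δ)) - R (s - y) * D' (y - δ)) /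
    (δ + δ / 50 + R' (y - δ)) ^ 2 with hf'
  have d1 : ∀ y, HasDerivAt f (f' y) y := fun y =>
    ((a1 (s - y)).comp_const_sub s y).div
      (((b1 (y - δ)).comp_sub_const y δ).const_add (δ + δ / 50)) (hm y).ne'
  have cR : Continuous R := continuous_iff_continuousAt.2 fun z => (a1 z).continuousAt
  have cR' : Continuous R' := continuous_iff_continuousAt.2 fun z => (b1 z).continuousAt
  have c1 : Continuous f' := by
    refine Continuous.div (by fun_prop) (by fun_prop) fun y => pow_ne_zero 2 (hm y).ne'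
  have c0 : Continuous f := continuous_iff_continuousAt.2 fun z => (d1 z).continuousAt
  have e1 : deriv f = f' := funext fun y => (d1 y).deriv
  have d0 : ∀ y, HasDerivAt (fun y => ∫ x in s..y, f x) (f y) y := fun y =>
    (c0.integral_hasStrictDerivAt s y).hasDerivAt
  have e0 : deriv (fun y => ∫ x in s..y, f x) = f := funext fun y => (d0 y).deriv
  have z0 : ∀ y, s ≤ y → ∫ x in s..y, f x = 0 := by
    intro y hy
    rw [intervalIntegral.integral_congr (g := fun _ => 0), intervalIntegral.integral_zero]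
    intro x hx
    rw [uIcc_of_le hy] at hx
    simp only [hf, (a4 (s - x) (by linarith [hx.1])).1, zero_div]
  refine ⟨fun y => ∫ x in s..y, f x, ?_, z0, fun y => ?_, fun y => ?_, fun y hy => ?_⟩
  · rw [show (2 : WithTop ℕ∞) = 1 + 1 from rfl, contDiff_succ_iff_deriv, e0, contDiff_one_iff_deriv,
      e1]
    exact ⟨fun y => (d0 y).differentiableAt, by simp, fun y => (d1 y).differentiableAt, c1⟩
  · rcases le_total s y with h | h
    · exact (z0 y h).le
    · beta_reduce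
      rw [intervalIntegral.integral_symm, neg_nonpos]
      exact intervalIntegral.integral_nonneg h fun x _ => div_nonneg (a3 _).1 (hm x).le
  · rw [e0, e1]
    refine div_nonpos_of_nonpos_of_nonneg ?_ (sq_nonneg _)
    have := mul_nonneg (a3 (s - y)).2.2.2.1 (hm y).le
    have := mul_nonneg (a3 (s - y)).1 (b3 (y - δ)).2.2.2.1
    linarith
  · rw [e0, e1]
    obtain ⟨p1, p2, -, p4, p5⟩ := a3 (s - y)
    obtain ⟨q1, q2, q3, q4, q5⟩ := b3 (y - δ)
    have hM := hm y
    have e : f y + y * f' y = R (s - y) * (δ + δ / 50 + R' (y - δ) - y * D' (y - δ)) /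
        (δ + δ / 50 + R' (y - δ)) ^ 2 - y * D (s - y) / (δ + δ / 50 + R' (y - δ)) := by
      simp only [hf, hf']
      field_simp
      ring
    rw [e]
    apply sub_le_sub
    · split_ifs with h
      · obtain ⟨r1, r2⟩ := b4 (y - δ) (by linarith)
        rw [r1, r2, div_le_div_iff₀ hδ (by positivity)]
        have : 97 / 100 * s ≤ R (s - y) := by linarith
        have h3 : 0 ≤ δ ^ 2 * (R (s - y) - 97 / 100 * s) := mul_nonneg (sq_nonneg _) (by linarith)
        have h4 : 0 ≤ δ ^ 2 * s := mul_nonneg (sq_nonneg _) (by linarith)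
        nlinarith
      · refine div_nonneg (mul_nonneg p1 ?_) (sq_nonneg _)
        nlinarith
    · split_ifs with h
      · rw [div_le_one hM]
        nlinarith
      · rw [(a4 (s - y) (by linarith)).2]
        simp

theorem clmono_nsq_smooth : ContDiff ℝ 2 (nsq : E n → ℝ) := by
  unfold nsq
  exact ContDiff.sum fun k _ => (contDiff_apply ℝ ℂ k).norm_sq ℝ

theorem clmono_nsq_nonneg (v : E n) : 0 ≤ nsq v := Finset.sum_nonneg fun _ _ => sq_nonneg _

theorem clmono_nsq_smul (c : ℂ) (v : E n) : nsq (c • v) = ‖c‖ ^ 2 * nsq v := by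
  simp [nsq, Finset.mul_sum, mul_pow]

theorem clmono_grad {g : ℂ → E n} {t : ℂ} (hg : DifferentiableAt ℂ g t) :
    (fderiv ℝ (fun y => nsq (g y)) t 1) ^ 2 + (fderiv ℝ (fun y => nsq (g y)) t Complex.I) ^ 2 ≤
      nsq (g t) * (4 * nsq (deriv g t)) := by
  have h1 : ∀ k, HasDerivAt (fun y => g y k) (deriv g t k) t := hasDerivAt_pi.1 hg.hasDerivAt
  have h2 := HasFDerivAt.fun_sum (u := Finset.univ) fun k _ =>
    ((h1 k).complexToReal_fderiv).norm_sq
  have h3 : ∀ e : ℂ, fderiv ℝ (fun y => nsq (g y)) t e =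
      2 * (e * ∑ k, deriv g t k * (starRingEnd ℂ) (g t k)).re := by
    intro e
    unfold nsq
    rw [h2.fderiv, sum_apply, Finset.mul_sum, Complex.re_sum, Finset.mul_sum]
    refine Finset.sum_congr rfl fun k _ => ?_
    simp [Complex.inner]
    ring
  rw [h3, h3]
  set z := ∑ k, deriv g t k * (starRingEnd ℂ) (g t k) with hz
  have h4 : ‖z‖ ≤ ∑ k, ‖g t k‖ * ‖deriv g t k‖ :=
    (norm_sum_le _ _).trans (Finset.sum_le_sum fun k _ => by simp [mul_comm])
  have h5 := Finset.sum_mul_sq_le_sq_mul_sq Finset.univ (fun k => ‖g t k‖) fun k => ‖deriv g t k‖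
  have h6 : ‖z‖ ^ 2 ≤ nsq (g t) * nsq (deriv g t) :=
    (pow_le_pow_left₀ (norm_nonneg _) h4 2).trans h5
  rw [Complex.sq_norm, Complex.normSq_apply] at h6
  simp only [one_mul, Complex.mul_re, Complex.I_re, Complex.I_im, zero_mul, zero_sub]
  nlinarith

theorem clmono_Lv (f : ℂ → ℝ) (t : ℂ) : Lv f t 1 = D2 f t 1 + D2 f t Complex.I := by
  simp [Lv]

theorem clmono_Lv_comp {f : ℂ → ℝ} {φ : ℝ → ℝ} {t : ℂ} (hf : ContDiffAt ℝ 2 f t)
    (hφ : ContDiffAt ℝ 2 φ (f t)) : Lv (fun y => φ (f y)) t 1 = deriv φ (f t) * Lv f t 1 +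
      deriv (deriv φ) (f t) * ((fderiv ℝ f t 1) ^ 2 + (fderiv ℝ f t Complex.I) ^ 2) := by
  rw [clmono_Lv, clmono_Lv, D2_comp hf hφ, D2_comp hf hφ]
  ring

theorem clmono_cut {ε : ℝ} (hε : 0 < ε) : ∃ φ : ℝ → ℝ, ContDiff ℝ 2 φ ∧ (∀ y, deriv φ y ≤ 0) ∧
    (∀ y, 0 ≤ deriv (deriv φ) y) ∧ ∀ y, φ y = max (1 - ε * y) 0 ^ 3 := by
  obtain ⟨h1, h2, -⟩ := pos3
  have l : ∀ y, HasDerivAt (fun y : ℝ => 1 - ε * y) (-ε) y := fun y => by
    simpa using ((hasDerivAt_id y).const_mul ε).const_sub 1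
  have d1 : ∀ y, HasDerivAt (fun y : ℝ => max (1 - ε * y) 0 ^ 3)
      (3 * max (1 - ε * y) 0 ^ 2 * -ε) y := fun y => by
    have := (h1.differentiable (by simp) (1 - ε * y)).hasDerivAt
    rw [h2] at this
    exact this.comp y (l y)
  have e1 : deriv (fun y : ℝ => max (1 - ε * y) 0 ^ 3) =
      fun y => 3 * max (1 - ε * y) 0 ^ 2 * -ε := funext fun y => (d1 y).deriv
  refine ⟨fun y => max (1 - ε * y) 0 ^ 3, h1.comp (by fun_prop), fun y => ?_, fun y => ?_,
    fun _ => rfl⟩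
  · rw [e1]
    exact mul_nonpos_of_nonneg_of_nonpos (by positivity) (by linarith)
  · have d2 : HasDerivAt (fun y : ℝ => 3 * max (1 - ε * y) 0 ^ 2 * -ε)
        (3 * (2 * max (1 - ε * y) 0 * -ε) * -ε) y :=
      (((clmono_sq (1 - ε * y)).comp y (l y)).const_mul 3).mul_const (-ε)
    rw [e1, d2.deriv]
    have : 0 ≤ max (1 - ε * y) 0 * ε ^ 2 := by positivity
    nlinarith

theorem clmono_local {Ω : Set ℂ} (hΩ : IsOpen Ω) {g : ℂ → E n} (hg : DifferentiableOn ℂ g Ω)
    {U : ℂ → ℝ} (hU : ContinuousOn U Ω) {t0 : ℂ} (ht : t0 ∈ Ω) (h0 : g t0 = 0)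
    (h1 : 0 < nsq (deriv g t0)) : ∃ r > (0 : ℝ), ∀ t ∈ ball t0 r, t ∈ Ω ∧ U t ≤ U t0 + 1 ∧
      nsq (g t) ≤ 101 / 100 * nsq (deriv g t0) * ‖t - t0‖ ^ 2 ∧
      99 / 100 * nsq (deriv g t0) ≤ nsq (deriv g t) := by
  have hn := hΩ.mem_nhds ht
  have cn : Continuous (nsq : E n → ℝ) := clmono_nsq_smooth.continuous
  have a1 : ∀ᶠ t in 𝓝 t0, U t ≤ U t0 + 1 :=
    (hU.continuousAt hn).eventually (eventually_le_nhds (by linarith))
  have a2 : ∀ᶠ t in 𝓝 t0, 99 / 100 * nsq (deriv g t0) ≤ nsq (deriv g t) :=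
    (cn.continuousAt.comp ((hg.deriv hΩ).continuousOn.continuousAt hn)).eventually
      (eventually_ge_nhds (by simp only [Function.comp]; linarith))
  have a3 : ∀ᶠ t in 𝓝[≠] t0, nsq (slope g t0 t) ≤ 101 / 100 * nsq (deriv g t0) :=
    ((cn.tendsto _).comp (hasDerivAt_iff_tendsto_slope.1
      (hg.differentiableAt hn).hasDerivAt)).eventually (eventually_le_nhds (by linarith))
  rw [eventually_nhdsWithin_iff] at a3
  obtain ⟨r, hr, h⟩ := Metric.eventually_nhds_iff_ball.1 ((a1.and a2).and (a3.and hn))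
  refine ⟨r, hr, fun t ht' => ⟨(h t ht').2.2, (h t ht').1.1, ?_, (h t ht').1.2⟩⟩
  by_cases e : t = t0
  · simp [e, h0, nsq]
  · have := (h t ht').2.1 e
    have e2 : g t = (t - t0) • slope g t0 t := by rw [sub_smul_slope, h0, vsub_eq_sub, sub_zero]
    rw [e2, clmono_nsq_smul, mul_comm]
    exact mul_le_mul_of_nonneg_right this (sq_nonneg _)

end Pool.Agent.CL
end

-- part Pool.Agent.P.MP_63735c_ag.CLMono
section

/-! Area monotonicity for graphs with a polar ideal boundary. -/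

open scoped ContDiff Matrix ENNReal
open Set Metric MeasureTheory Filter Topology

namespace Pool.Agent.CL

open Pool.Agent.SPF

variable {n : ℕ}

/-- A holomorphic graph over `Ω` whose ideal boundary in `|β| < 4` is polar. -/
structure Slice (Ω : Set ℂ) (β : ℂ → E n) (U : ℂ → ℝ) : Prop where
  isOpen : IsOpen Ω
  sub : Ω ⊆ ball 0 1
  hol : DifferentiableOn ℂ β Ω
  smooth : ContDiffOn ℝ 2 U Ω
  nonneg : ∀ t ∈ Ω, 0 ≤ U t
  sup : ∀ t ∈ Ω, Lv U t 1 ≤ 0
  proper : ∀ s < (1 : ℝ), ∀ M, IsCompact {t ∈ Ω | ‖t‖ ≤ s ∧ nsq (β t) ≤ 15 ∧ U t ≤ M}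

theorem clmono_core {Ω : Set ℂ} (hΩ : IsOpen Ω) {g : ℂ → E n} (hg : DifferentiableOn ℂ g Ω)
    {U : ℂ → ℝ} (hU : ContDiffOn ℝ 2 U Ω) (hU0 : ∀ t ∈ Ω, 0 ≤ U t) (hU1 : ∀ t ∈ Ω, Lv U t 1 ≤ 0)
    {s : ℝ} (hs : 0 < s) {t0 : ℂ} (ht : t0 ∈ Ω) (h0 : g t0 = 0) (h1 : 0 < nsq (deriv g t0))
    (hK : ∀ M, ∃ K, IsCompact K ∧ K ⊆ Ω ∧ ∀ t ∈ Ω \ K, s < nsq (g t) ∨ M < U t)
    {R : ℂ → ℝ} (hR : IntegrableOn R Ω)
    (hb : ∀ t ∈ Ω, (if nsq (g t) < s then nsq (deriv g t) else 0) ≤ R t) :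
    9 / 10 * Real.pi * s ≤ ∫ t in Ω, R t := by
  obtain ⟨r, hr, hloc⟩ := clmono_local hΩ hg hU.continuousOn ht h0 h1
  set a := nsq (deriv g t0) with ha
  obtain ⟨ρ, hρ, hρr, hρs⟩ : ∃ ρ > (0 : ℝ), ρ ≤ r ∧ 100 * (101 / 100 * a * ρ ^ 2) ≤ s := by
    have p : 0 < s / (101 * a) := by positivity
    refine ⟨min r (min 1 (s / (101 * a))), by positivity, min_le_left _ _, ?_⟩
    set ρ := min r (min 1 (s / (101 * a)))
    have p0 : 0 < ρ := by positivity
    have p1 : ρ ≤ 1 := (min_le_right _ _).trans (min_le_left _ _)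
    have p2 : ρ ≤ s / (101 * a) := (min_le_right _ _).trans (min_le_right _ _)
    rw [le_div_iff₀ (by positivity)] at p2
    have : ρ * (101 * a) * ρ ≤ ρ * (101 * a) * 1 := mul_le_mul_of_nonneg_left p1 (by positivity)
    linarith
  set δ := 101 / 100 * a * ρ ^ 2 with hδ
  have hδ0 : 0 < δ := by positivity
  obtain ⟨F, F1, F2, F3, F4, F5⟩ := clmono_F hδ0 hρs
  have hu := hU0 t0 ht
  set ε := 1 / (1000 * (U t0 + 1)) with hε
  have hε0 : 0 < ε := by positivity
  obtain ⟨φ, φ1, φ2, φ3, φ4⟩ := clmono_cut hε0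
  obtain ⟨K, K1, K2, K3⟩ := hK (1 / ε)
  have hq : ContDiffOn ℝ 2 (fun t => nsq (g t)) Ω :=
    clmono_nsq_smooth.comp_contDiffOn ((hol_smooth hΩ hg).2.1.of_le (by norm_cast))
  have hz : ∀ t ∈ Ω \ K, (fun t => F (nsq (g t))) =ᶠ[𝓝 t] 0 ∨ (fun t => φ (U t)) =ᶠ[𝓝 t] 0 := by
    intro t ht'
    have hn := hΩ.mem_nhds ht'.1
    refine (K3 t ht').imp (fun h => ?_) fun h => ?_
    · filter_upwards [(hq.continuousOn.continuousAt hn).eventually (eventually_gt_nhds h)]
        with y hy using F2 _ hy.le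
    · filter_upwards [(hU.continuousOn.continuousAt hn).eventually (eventually_gt_nhds h)] with y hy
      rw [div_lt_iff₀ hε0] at hy
      rw [φ4, max_eq_right (by linarith)]
      simp
  obtain ⟨i1, i2, i3⟩ := green_dir volume hΩ (F1.comp_contDiffOn hq) (φ1.comp_contDiffOn hU)
    K1 K2 hz 1
  obtain ⟨j1, j2, j3⟩ := green_dir volume hΩ (F1.comp_contDiffOn hq) (φ1.comp_contDiffOn hU)
    K1 K2 hz Complex.I
  simp only [Function.comp_def] at i1 i2 i3 j1 j2 j3
  have P1 : ∀ t ∈ Ω, F (nsq (g t)) * D2 (fun t => φ (U t)) t 1 +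
      F (nsq (g t)) * D2 (fun t => φ (U t)) t Complex.I ≤ 0 := by
    intro t ht'
    rw [← mul_add, ← clmono_Lv, clmono_Lv_comp (hU.contDiffAt (hΩ.mem_nhds ht')) φ1.contDiffAt]
    exact mul_nonpos_of_nonpos_of_nonneg (F3 _) (add_nonneg
      (mul_nonneg_of_nonpos_of_nonpos (φ2 _) (hU1 t ht')) (mul_nonneg (φ3 _) (by positivity)))
  set c := 997 / 1000 * (19 / 20 * s / δ) * (4 * (99 / 100 * a)) with hc
  have P2 : ∀ t ∈ Ω, (ball t0 ρ).indicator (fun _ => c) t ≤
      (φ (U t) * D2 (fun t => F (nsq (g t))) t 1 +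
        φ (U t) * D2 (fun t => F (nsq (g t))) t Complex.I) + 4 * R t := by
    intro t ht'
    have hn := hΩ.mem_nhds ht'
    have L : Lv (fun t => nsq (g t)) t 1 = 4 * nsq (deriv g t) := by
      rw [Lv_comp clmono_nsq_smooth.contDiffAt (by
        filter_upwards [hn] with y hy using hg.differentiableAt (hΩ.mem_nhds hy)), Lv_nsq]
      rfl
    have b0 := clmono_nsq_nonneg (deriv g t)
    have b1 := mul_le_mul_of_nonpos_left (clmono_grad (hg.differentiableAt hn)) (F4 (nsq (g t)))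
    have b2 := mul_le_mul_of_nonneg_right (F5 _ (clmono_nsq_nonneg (g t))) b0
    have b3 := hb t ht'
    have t0' : 0 ≤ φ (U t) := by rw [φ4]; positivity
    have t1 : φ (U t) ≤ 1 := by
      rw [φ4]
      refine pow_le_one₀ (le_max_right _ _) (max_le ?_ zero_le_one)
      linarith [mul_nonneg hε0.le (hU0 t ht')]
    rw [← mul_add, ← clmono_Lv, clmono_Lv_comp (hq.contDiffAt hn) F1.contDiffAt, L]
    set A := if nsq (g t) ≤ δ then 19 / 20 * s / δ else 0 with hA
    have b4 : (if nsq (g t) < s then 1 else 0) * nsq (deriv g t) ≤ R t := by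
      split_ifs at b3 ⊢ <;> linarith
    have b5 : 0 ≤ (if nsq (g t) < s then 1 else 0) * nsq (deriv g t) := by positivity
    set B := (if nsq (g t) < s then 1 else 0) * nsq (deriv g t) with hB
    have b6 : 4 * (A * nsq (deriv g t)) - 4 * B ≤ deriv F (nsq (g t)) * (4 * nsq (deriv g t)) +
        deriv (deriv F) (nsq (g t)) * ((fderiv ℝ (fun y => nsq (g y)) t 1) ^ 2 +
          (fderiv ℝ (fun y => nsq (g y)) t Complex.I) ^ 2) := by
      rw [sub_mul] at b2
      linarith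
    have b7 := mul_le_mul_of_nonneg_left b6 t0'
    have b8 := mul_le_mul_of_nonneg_right t1 b5
    have b9 : (ball t0 ρ).indicator (fun _ => c) t ≤ φ (U t) * (4 * (A * nsq (deriv g t))) := by
      by_cases m : t ∈ ball t0 ρ
      · obtain ⟨-, m1, m2, m3⟩ := hloc t (ball_subset_ball hρr m)
        have m4 : ‖t - t0‖ ^ 2 ≤ ρ ^ 2 :=
          pow_le_pow_left₀ (norm_nonneg _) (mem_ball_iff_norm.1 m).le 2
        have m5 : nsq (g t) ≤ δ := m2.trans (mul_le_mul_of_nonneg_left m4 (by positivity))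
        have m6 : ε * U t ≤ 1 / 1000 := by
          refine (mul_le_mul_of_nonneg_left m1 hε0.le).trans (le_of_eq ?_)
          rw [hε]
          field_simp
        have m7 : 997 / 1000 ≤ φ (U t) := by
          rw [φ4]
          refine le_trans (by norm_num) (pow_le_pow_left₀ (by norm_num : (0 : ℝ) ≤ 999 / 1000)
            (le_max_of_le_left (by linarith)) 3)
        rw [indicator_of_mem m, hA, if_pos m5, hc, mul_assoc]
        refine mul_le_mul m7 ?_ (by positivity) t0'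
        linarith [mul_le_mul_of_nonneg_left m3 (by positivity : 0 ≤ 19 / 20 * s / δ)]
      · rw [indicator_of_notMem m]
        have : 0 ≤ A := by rw [hA]; positivity
        positivity
    linarith
  have sub : ball t0 ρ ⊆ Ω := fun t m => (hloc t (ball_subset_ball hρr m)).1
  have I1 := setIntegral_mono_on
    ((integrableOn_const (measure_ball_lt_top (μ := volume) (x := t0) (r := ρ)).ne).integrable_indicator
      measurableSet_ball).integrableOn ((i1.add j1).add (hR.const_mul 4)) hΩ.measurableSet P2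
  have I2 := setIntegral_nonpos (μ := volume) hΩ.measurableSet P1
  rw [integral_add i2 j2, ← i3, ← j3, ← integral_add i1 j1] at I2
  rw [setIntegral_indicator measurableSet_ball, inter_eq_self_of_subset_right sub, setIntegral_const,
    integral_add' (i1.add j1) (hR.const_mul 4), integral_const_mul, Measure.real,
    Complex.volume_ball] at I1
  have e : ((ENNReal.ofReal ρ) ^ 2 * (NNReal.pi : ℝ≥0∞)).toReal • c =
      Real.pi * s * (997 / 1000 * (19 / 20) * (4 * (99 / 101))) := by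
    rw [ENNReal.toReal_mul, ENNReal.toReal_pow, ENNReal.toReal_ofReal hρ.le, ENNReal.coe_toReal,
      NNReal.coe_real_pi, smul_eq_mul, hc, hδ]
    field_simp
  rw [e] at I1
  have I3 : ∫ t in Ω, ((fun t => φ (U t) * D2 (fun t => F (nsq (g t))) t 1) +
      fun t => φ (U t) * D2 (fun t => F (nsq (g t))) t Complex.I) t ≤ 0 := I2
  have := mul_pos Real.pi_pos hs
  linarith

theorem mono {Ω : Set ℂ} {β : ℂ → E n} {U : ℂ → ℝ} (h : Slice Ω β U) {θ σ κ : ℝ} (hθ : 0 ≤ θ)
    (hE : ∫⁻ t in Ω, ENNReal.ofReal (nsq (deriv β t)) ≤ ENNReal.ofReal θ) {t0 : ℂ} (ht : t0 ∈ Ω)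
    (hσ : 0 < σ) (hκ : 8 * σ ≤ κ) (h1 : ‖t0‖ + σ < 1) (h2 : nsq (β t0) ≤ 12) :
    ENNReal.ofReal (9 / 10 * Real.pi * σ ^ 2) ≤
      volume {t ∈ Ω | ‖t - t0‖ ^ 2 + κ ^ 2 * nsq (β t - β t0) < σ ^ 2} +
        ENNReal.ofReal (κ ^ 2 * θ) := by
  have hd : ∀ t ∈ Ω, HasDerivAt
      (fun t => (Fin.cons (t - t0) ((κ : ℂ) • (β t - β t0)) : E (n + 1)))
      (Fin.cons 1 ((κ : ℂ) • deriv β t) : E (n + 1)) t := by
    intro t ht'
    have h3 := (((h.hol.differentiableAt (h.isOpen.mem_nhds ht')).hasDerivAt.sub_const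
      (β t0)).const_smul (κ : ℂ))
    refine hasDerivAt_pi.2 fun k => Fin.cases ?_ (fun k => ?_) k
    · simpa using (hasDerivAt_id t).sub_const t0
    · simpa using hasDerivAt_pi.1 h3 k
  have hc : ∀ (a : ℂ) (v : E n),
      nsq (Fin.cons a ((κ : ℂ) • v) : E (n + 1)) = ‖a‖ ^ 2 + κ ^ 2 * nsq v := by
    intro a v
    have := clmono_nsq_smul (κ : ℂ) v
    rw [Complex.norm_real, Real.norm_eq_abs, sq_abs] at this
    rw [← this, nsq, Fin.sum_univ_succ]
    rfl
  set S := {t ∈ Ω | ‖t - t0‖ ^ 2 + κ ^ 2 * nsq (β t - β t0) < σ ^ 2} with hS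
  have cn : Continuous (nsq : E n → ℝ) := clmono_nsq_smooth.continuous
  have So : IsOpen S := by
    have : ContinuousOn (fun t => ‖t - t0‖ ^ 2 + κ ^ 2 * nsq (β t - β t0)) Ω :=
      ContinuousOn.add (by fun_prop) (continuousOn_const.mul
        (cn.comp_continuousOn (h.hol.continuousOn.sub continuousOn_const)))
    exact this.isOpen_inter_preimage h.isOpen (isOpen_Iio (a := σ ^ 2))
  have Sf : volume S ≠ ⊤ :=
    ((measure_mono fun t ht' => h.sub ht'.1).trans_lt measure_ball_lt_top).ne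
  have N0 : 0 ≤ᵐ[volume.restrict Ω] fun t => nsq (deriv β t) :=
    ae_of_all _ fun t => clmono_nsq_nonneg _
  have Ni : IntegrableOn (fun t => nsq (deriv β t)) Ω :=
    ⟨(cn.comp_continuousOn (h.hol.deriv h.isOpen).continuousOn).aestronglyMeasurable
      h.isOpen.measurableSet, (hasFiniteIntegral_iff_ofReal N0).2 (hE.trans_lt ENNReal.ofReal_lt_top)⟩
  have Nb : ∫ t in Ω, nsq (deriv β t) ≤ θ := by
    rw [← ENNReal.ofReal_le_ofReal_iff hθ, ofReal_integral_eq_lintegral_ofReal Ni N0]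
    exact hE
  have Si : IntegrableOn (S.indicator fun _ => (1 : ℝ)) Ω :=
    ((integrableOn_const Sf).integrable_indicator So.measurableSet).integrableOn
  have key := clmono_core (s := σ ^ 2) (t0 := t0)
    (R := fun t => S.indicator (fun _ => (1 : ℝ)) t + κ ^ 2 * nsq (deriv β t)) h.isOpen
    (fun t ht' => (hd t ht').differentiableAt.differentiableWithinAt) h.smooth h.nonneg h.sup
    (by positivity) ht (by ext k; refine Fin.cases ?_ (fun k => ?_) k <;> simp) (by
      rw [(hd t0 ht).deriv, hc]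
      have := clmono_nsq_nonneg (deriv β t0)
      rw [norm_one]
      positivity) (fun M => by
      refine ⟨_, h.proper _ h1 M, fun t ht' => ht'.1, fun t ht' => ?_⟩
      by_contra hn
      rw [not_or, not_lt, not_lt, hc] at hn
      have p0 := clmono_nsq_nonneg (β t - β t0)
      have p1 : 64 * σ ^ 2 ≤ κ ^ 2 := by nlinarith
      have p2 := mul_le_mul_of_nonneg_right p1 p0
      have p3 : 0 < σ ^ 2 := by positivity
      refine ht'.2 ⟨ht'.1, ?_, ?_, hn.2⟩
      · have : ‖t - t0‖ ≤ σ := by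
          refine le_of_sq_le_sq ?_ hσ.le
          linarith [mul_nonneg (sq_nonneg κ) p0]
        linarith [norm_le_norm_add_norm_sub' t t0]
      · have p4 : nsq (β t - β t0) ≤ 1 / 64 := by
          by_contra p5
          linarith [sq_nonneg ‖t - t0‖, mul_lt_mul_of_pos_left (not_le.1 p5) p3]
        have p5 : nsq (β t) ≤ 6 / 5 * nsq (β t0) + 6 * nsq (β t - β t0) := by
          unfold nsq
          rw [Finset.mul_sum, Finset.mul_sum, ← Finset.sum_add_distrib]
          refine Finset.sum_le_sum fun k _ => ?_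
          have p6 := pow_le_pow_left₀ (norm_nonneg _) (norm_le_norm_add_norm_sub' (β t k) (β t0 k)) 2
          rw [Pi.sub_apply]
          nlinarith [sq_nonneg (‖β t0 k‖ - 5 * ‖β t k - β t0 k‖)]
        linarith) (Si.add (Ni.const_mul _)) (fun t ht' => by
      rw [(hd t ht').deriv, hc, hc, norm_one]
      have := mul_nonneg (sq_nonneg κ) (clmono_nsq_nonneg (deriv β t))
      split_ifs with m
      · rw [indicator_of_mem (show t ∈ S from ⟨ht', m⟩), one_pow]
      · exact add_nonneg (indicator_nonneg (fun _ _ => zero_le_one) t) this)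
  rw [integral_add Si (Ni.const_mul _), integral_const_mul, setIntegral_indicator So.measurableSet,
    inter_eq_self_of_subset_right fun t ht' => ht'.1, setIntegral_const, smul_eq_mul,
    mul_one] at key
  rw [← ENNReal.ofReal_toReal Sf, ← ENNReal.ofReal_add ENNReal.toReal_nonneg (by positivity)]
  refine ENNReal.ofReal_le_ofReal (key.trans (add_le_add le_rfl ?_))
  exact mul_le_mul_of_nonneg_left Nb (sq_nonneg κ)

end Pool.Agent.CL
end

-- part Pool.Agent.P.MP_63735c_ag.CLMV0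
section

/-! Mean value inequality in the plane. -/

open scoped ContDiff Matrix ENNReal
open Set Metric MeasureTheory Filter Topology

namespace Pool.Agent.CL

open Pool.Agent.SPF

theorem clmv0_ofReal {α : Type} [MeasurableSpace α] (μ : Measure α) (f : α → ℝ) :
    ENNReal.ofReal (∫ x, f x ∂μ) ≤ ∫⁻ x, ENNReal.ofReal (f x) ∂μ := by
  by_cases h : Integrable f μ
  · calc ENNReal.ofReal (∫ x, f x ∂μ) ≤ ENNReal.ofReal (∫ x, max (f x) 0 ∂μ) :=
          ENNReal.ofReal_le_ofReal (integral_mono h h.pos_part fun x => le_max_left _ _)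
      _ = ∫⁻ x, ENNReal.ofReal (max (f x) 0) ∂μ :=
          ofReal_integral_eq_lintegral_ofReal h.pos_part (ae_of_all _ fun x => le_max_right _ _)
      _ = _ := by simp
  · rw [integral_undef h]
    simp

/-- The potential of the weight. -/
noncomputable def clmv0W (t : ℂ) : ℝ := expNegInvGlue (1 - ‖t‖ ^ 2)

/-- The weight before normalisation. -/
noncomputable def clmv0w (t : ℂ) : ℝ := 2 * ((1 - ‖t‖ ^ 2)⁻¹ ^ 2 * expNegInvGlue (1 - ‖t‖ ^ 2))

theorem clmv0_sq : ContDiff ℝ ∞ fun t : ℂ => 1 - ‖t‖ ^ 2 :=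
  contDiff_const.sub (contDiff_norm_sq ℝ)

theorem clmv0W_smooth : ContDiff ℝ ∞ clmv0W := expNegInvGlue.contDiff.comp clmv0_sq

theorem clmv0w_smooth : ContDiff ℝ ∞ clmv0w := by
  have h := expNegInvGlue.contDiff_polynomial_eval_inv_mul (n := ⊤) (Polynomial.X ^ 2)
  simp only [Polynomial.eval_pow, Polynomial.eval_X] at h
  exact contDiff_const.mul (h.comp clmv0_sq)

theorem clmv0W_zero {t : ℂ} (h : 1 ≤ ‖t‖) : clmv0W t = 0 :=
  expNegInvGlue.zero_of_nonpos (by nlinarith)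

theorem clmv0w_zero {t : ℂ} (h : 1 ≤ ‖t‖) : clmv0w t = 0 := by
  have := clmv0W_zero h
  unfold clmv0W at this
  unfold clmv0w
  rw [this, mul_zero, mul_zero]

theorem clmv0w_nonneg (t : ℂ) : 0 ≤ clmv0w t :=
  mul_nonneg zero_le_two (mul_nonneg (sq_nonneg _) (expNegInvGlue.nonneg _))

theorem clmv0w_pos {t : ℂ} (h : ‖t‖ < 1) : 0 < clmv0w t := by
  have h1 : 0 < 1 - ‖t‖ ^ 2 := by nlinarith [norm_nonneg t]
  have h2 := expNegInvGlue.pos_of_pos h1
  unfold clmv0w
  positivity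

theorem clmv0W_le (t : ℂ) : clmv0W t ≤ 1 := by
  unfold clmv0W expNegInvGlue
  split_ifs with h
  · exact zero_le_one
  · exact Real.exp_le_one_iff.2 (neg_nonpos.2 (inv_nonneg.2 (not_le.1 h).le))

theorem clmv0_supp {f : ℂ → ℝ} (h : ∀ t, 1 ≤ ‖t‖ → f t = 0) : HasCompactSupport f :=
  HasCompactSupport.intro (isCompact_closedBall (0 : ℂ) 1) fun t ht =>
    h t (by rw [mem_closedBall_zero_iff, not_le] at ht; exact ht.le)

theorem clmv0_int {f g : ℂ → ℝ} (hf : Continuous f) (hg : Continuous g)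
    (h : ∀ t, 1 ≤ ‖t‖ → f t = 0) : Integrable fun t => f t * g t :=
  (hf.mul hg).integrable_of_hasCompactSupport (clmv0_supp h).mul_right

theorem clmv0W_fderiv (t v : ℂ) :
    fderiv ℝ clmv0W t v = -(clmv0w t * (t.re * v.re + t.im * v.im)) := by
  have h1 := expNegInvGlue.hasDerivAt_polynomial_eval_inv_mul 1 (1 - ‖t‖ ^ 2)
  simp only [Polynomial.eval_one, one_mul, Polynomial.derivative_one, sub_zero, mul_one,
    Polynomial.eval_pow, Polynomial.eval_X] at h1
  have h2 := (hasStrictFDerivAt_norm_sq t).hasFDerivAt.const_sub 1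
  have h3 : HasFDerivAt clmv0W _ t := h1.comp_hasFDerivAt t h2
  rw [h3.fderiv]
  simp [clmv0w, Complex.inner]
  ring

theorem clmv0_parts {U : ℂ → ℝ} (hU : ContDiff ℝ 2 U) (s : ℝ) (e : ℂ) :
    Integrable (fun t => clmv0W t * (s * D2 U (s • t) e)) ∧
    Integrable (fun t => fderiv ℝ clmv0W t e * fderiv ℝ U (s • t) e) ∧
    ∫ t, clmv0W t * (s * D2 U (s • t) e) =
      -∫ t, fderiv ℝ clmv0W t e * fderiv ℝ U (s • t) e := by
  have h1 : ContDiff ℝ 1 (fderiv ℝ U) := hU.fderiv_right (by norm_num)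
  have hg : ContDiff ℝ 1 fun t : ℂ => fderiv ℝ U (s • t) e :=
    (h1.comp (contDiff_id.const_smul s)).clm_apply contDiff_const
  have hd : ∀ t : ℂ, fderiv ℝ (fun t : ℂ => fderiv ℝ U (s • t) e) t e = s * D2 U (s • t) e := by
    intro t
    have h2 := ((h1.differentiable one_ne_zero (s • t)).hasFDerivAt.comp t
      ((hasFDerivAt_id t).const_smul s)).clm_apply (hasFDerivAt_const e t)
    have h3 : HasFDerivAt (fun t : ℂ => fderiv ℝ U (s • t) e) _ t := h2
    rw [h3.fderiv]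
    simp only [D2, ContinuousLinearMap.comp_zero, zero_add, ContinuousLinearMap.flip_apply,
      ContinuousLinearMap.comp_apply, smul_apply, ContinuousLinearMap.id_apply,
      map_smul, smul_eq_mul]
  have hW := clmv0W_smooth.continuous
  have i1 : Integrable fun t => fderiv ℝ clmv0W t e * fderiv ℝ U (s • t) e :=
    clmv0_int ((clmv0W_smooth.continuous_fderiv (by simp)).clm_apply continuous_const)
      hg.continuous fun t ht => by rw [clmv0W_fderiv, clmv0w_zero ht, zero_mul, neg_zero]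
  have i2 : Integrable fun t =>
      clmv0W t * fderiv ℝ (fun t : ℂ => fderiv ℝ U (s • t) e) t e :=
    clmv0_int hW ((hg.continuous_fderiv one_ne_zero).clm_apply continuous_const)
      fun t => clmv0W_zero
  have h := integral_mul_fderiv_eq_neg_fderiv_mul_of_integrable i1 i2
    (clmv0_int hW hg.continuous fun t => clmv0W_zero)
    (fun t _ => clmv0W_smooth.differentiable (by simp) t)
    (fun t _ => hg.differentiable one_ne_zero t)
  simp only [hd] at i2 h
  exact ⟨i2, i1, h⟩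

theorem clmv0_slice {U : ℂ → ℝ} (hU : ContDiff ℝ 2 U) (s : ℝ) :
    ∫ t, fderiv ℝ U (s • t) t * clmv0w t = ∫ t, clmv0W t * s * Lv U (s • t) 1 := by
  obtain ⟨a1, a2, a3⟩ := clmv0_parts hU s 1
  obtain ⟨b1, b2, b3⟩ := clmv0_parts hU s Complex.I
  have e1 : ∀ t, clmv0W t * s * Lv U (s • t) 1 =
      clmv0W t * (s * D2 U (s • t) 1) + clmv0W t * (s * D2 U (s • t) Complex.I) := fun t => by
    rw [Lv, smul_eq_mul, mul_one]
    ring
  simp only [e1]
  rw [integral_add a1 b1, a3, b3, ← neg_add, ← integral_add a2 b2, ← integral_neg]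
  refine integral_congr_ae (ae_of_all _ fun t => ?_)
  have e2 : fderiv ℝ U (s • t) t =
      t.re * fderiv ℝ U (s • t) 1 + t.im * fderiv ℝ U (s • t) Complex.I := by
    rw [← smul_eq_mul, ← smul_eq_mul, ← map_smul, ← map_smul, ← map_add]
    congr 1
    simp
  simp only [clmv0W_fderiv, e2, Complex.one_re, Complex.one_im, Complex.I_re, Complex.I_im]
  ring

theorem clmv0_ray {U : ℂ → ℝ} (hU : ContDiff ℝ 2 U) (t : ℂ) :
    ∫ s in (0 : ℝ)..1, fderiv ℝ U (s • t) t = U t - U 0 := by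
  have h1 := hU.continuous_fderiv (by norm_num)
  have h := intervalIntegral.integral_eq_sub_of_hasDerivAt (a := 0) (b := 1)
    (f := fun s : ℝ => U (s • t)) (f' := fun s => fderiv ℝ U (s • t) t)
    (fun s _ => by
      have h2 : HasDerivAt (fun s : ℝ => s • t) t s := by
        simpa using (hasDerivAt_id s).smul_const t
      exact (hU.differentiable (by norm_num) (s • t)).hasFDerivAt.comp_hasDerivAt s h2)
    (Continuous.intervalIntegrable (by fun_prop) _ _)
  simpa using h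

theorem clmv0_main {U : ℂ → ℝ} (hU : ContDiff ℝ 2 U) :
    ∫ t, (U t - U 0) * clmv0w t =
      ∫ s in Ioc (0 : ℝ) 1, ∫ t, clmv0W t * s * Lv U (s • t) 1 := by
  have h1 := hU.continuous_fderiv (by norm_num)
  have h2 := clmv0w_smooth.continuous
  have hi : Integrable (Function.uncurry fun (s : ℝ) (t : ℂ) => fderiv ℝ U (s • t) t * clmv0w t)
      ((volume.restrict (uIoc (0 : ℝ) 1)).prod volume) := by
    have hc : Continuous
        (Function.uncurry fun (s : ℝ) (t : ℂ) => fderiv ℝ U (s • t) t * clmv0w t) := by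
      unfold Function.uncurry
      fun_prop
    have h3 := hc.continuousOn.integrableOn_compact (μ := (volume : Measure ℝ).prod volume)
      ((isCompact_Icc (a := (0 : ℝ)) (b := 1)).prod (isCompact_closedBall (0 : ℂ) 1))
    rw [← Measure.restrict_univ (μ := (volume : Measure ℂ)), Measure.prod_restrict]
    refine h3.of_forall_sdiff_eq_zero (measurableSet_uIoc.prod MeasurableSet.univ) ?_
    rintro ⟨s, t⟩ ⟨⟨hs, -⟩, hn⟩
    rw [uIoc_of_le zero_le_one] at hs
    have ht : 1 ≤ ‖t‖ := by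
      by_contra hc
      exact hn ⟨Ioc_subset_Icc_self hs, mem_closedBall_zero_iff.2 (not_le.1 hc).le⟩
    simp only [Function.uncurry_apply_pair, clmv0w_zero ht, mul_zero]
  have h := intervalIntegral_integral_swap hi
  simp only [intervalIntegral.integral_mul_const, clmv0_ray hU, clmv0_slice hU] at h
  rw [← h, intervalIntegral.integral_of_le zero_le_one]

theorem clmv0_cut {U : ℂ → ℝ} (hU : ContDiffOn ℝ 2 U (ball 0 2)) :
    ∃ V : ℂ → ℝ, ContDiff ℝ 2 V ∧ ∀ t ∈ ball (0 : ℂ) 1, V t = U t := by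
  let χ : ContDiffBump (0 : ℂ) := ⟨1, 3 / 2, one_pos, by norm_num⟩
  refine ⟨fun t => χ t * U t, contDiff_iff_contDiffAt.2 fun t => ?_, fun t ht => ?_⟩
  · by_cases ht : t ∈ ball (0 : ℂ) 2
    · exact χ.contDiffAt.mul (hU.contDiffAt (isOpen_ball.mem_nhds ht))
    · have h1 : (closedBall (0 : ℂ) (3 / 2))ᶜ ∈ 𝓝 t :=
        isClosed_closedBall.isOpen_compl.mem_nhds fun h =>
          ht (closedBall_subset_ball (by norm_num) h)
      refine (contDiffAt_const (c := (0 : ℝ))).congr_of_eventuallyEq ?_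
      filter_upwards [h1] with x hx
      rw [χ.zero_of_le_dist (not_le.1 fun h => hx (mem_closedBall.2 h)).le, zero_mul]
  · simp only [χ.one_of_mem_closedBall (ball_subset_closedBall ht), one_mul]

theorem mv_plane : ∃ w : ℂ → ℝ, ContDiff ℝ ∞ w ∧ (∀ t, 0 ≤ w t) ∧ (∀ t, 1 ≤ ‖t‖ → w t = 0) ∧
    ∫ t, w t = 1 ∧ (∃ c > (0 : ℝ), ∀ t, ‖t‖ ≤ 3 / 4 → c ≤ w t) ∧ ∃ C : ℝ≥0∞, C ≠ ⊤ ∧
      ∀ (U : ℂ → ℝ) (g : ℂ → ℝ≥0∞), ContDiffOn ℝ 2 U (ball 0 2) →
        (∀ t ∈ ball (0 : ℂ) 1, ENNReal.ofReal (Lv U t 1) ≤ g t) →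
        ENNReal.ofReal ((∫ t, U t * w t) - U 0) ≤
          C * ∫⁻ s in Ioc (0 : ℝ) 1, ∫⁻ t in ball (0 : ℂ) 1, g (s • t) := by
  have hc := clmv0w_smooth.continuous
  have hi : Integrable clmv0w :=
    hc.integrable_of_hasCompactSupport (clmv0_supp fun t => clmv0w_zero)
  have hp : 0 < ∫ t, clmv0w t :=
    hc.integral_pos_of_hasCompactSupport_nonneg_nonzero (x := 0)
      (clmv0_supp fun t => clmv0w_zero) clmv0w_nonneg (clmv0w_pos (by simp)).ne'
  set c := ∫ t, clmv0w t with hcdef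
  refine ⟨fun t => c⁻¹ * clmv0w t, contDiff_const.mul clmv0w_smooth,
    fun t => mul_nonneg (inv_pos.2 hp).le (clmv0w_nonneg t),
    fun t ht => by simp only [clmv0w_zero ht, mul_zero], ?_, ?_,
    ENNReal.ofReal c⁻¹, ENNReal.ofReal_ne_top, fun U g hU hg => ?_⟩
  · rw [integral_const_mul, inv_mul_cancel₀ hp.ne']
  · obtain ⟨a, ha, h⟩ := (isCompact_closedBall (0 : ℂ) (3 / 4)).exists_forall_le'
      (f := fun t => c⁻¹ * clmv0w t) (a := 0) (continuous_const.mul hc).continuousOn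
      fun t ht => mul_pos (inv_pos.2 hp)
        (clmv0w_pos ((mem_closedBall_zero_iff.1 ht).trans_lt (by norm_num)))
    exact ⟨a, ha, fun t ht => h t (mem_closedBall_zero_iff.2 ht)⟩
  obtain ⟨V, hV, hVU⟩ := clmv0_cut hU
  have e1 : (∫ t, U t * (c⁻¹ * clmv0w t)) - U 0 = c⁻¹ * ∫ t, (V t - V 0) * clmv0w t := by
    have i1 : Integrable fun t => V t * clmv0w t := by
      simpa only [mul_comm] using clmv0_int hc hV.continuous fun t => clmv0w_zero
    have e2 : ∀ t, U t * (c⁻¹ * clmv0w t) = c⁻¹ * (V t * clmv0w t) := fun t => by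
      by_cases ht : t ∈ ball (0 : ℂ) 1
      · rw [hVU t ht]
        ring
      · rw [clmv0w_zero (not_lt.1 fun h => ht (mem_ball_zero_iff.2 h))]
        ring
    simp only [e2, sub_mul]
    rw [integral_const_mul, integral_sub i1 (hi.const_mul _), integral_const_mul, ← hcdef,
      hVU 0 (mem_ball_self one_pos)]
    field_simp
  rw [e1, ENNReal.ofReal_mul (inv_pos.2 hp).le, clmv0_main hV]
  refine mul_le_mul_right ((clmv0_ofReal _ _).trans
    (setLIntegral_mono' measurableSet_Ioc fun s hs => (clmv0_ofReal _ _).trans ?_)) _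
  rw [← lintegral_indicator measurableSet_ball]
  refine lintegral_mono fun t => ?_
  by_cases ht : t ∈ ball (0 : ℂ) 1
  · have hst : s • t ∈ ball (0 : ℂ) 1 := by
      rw [mem_ball_zero_iff] at ht ⊢
      rw [norm_smul, Real.norm_of_nonneg hs.1.le]
      exact (mul_le_of_le_one_left (norm_nonneg t) hs.2).trans_lt ht
    have hE : V =ᶠ[𝓝 (s • t)] U := by
      filter_upwards [isOpen_ball.mem_nhds hst] with x hx using hVU x hx
    have hL : Lv V (s • t) 1 = Lv U (s • t) 1 := by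
      unfold Lv D2
      rw [hE.fderiv.fderiv_eq]
    have h0 : 0 ≤ clmv0W t := expNegInvGlue.nonneg _
    rw [indicator_of_mem ht, hL, ENNReal.ofReal_mul (mul_nonneg h0 hs.1.le)]
    refine le_trans (mul_le_of_le_one_left' ?_) (hg _ hst)
    exact ENNReal.ofReal_le_one.2 (mul_le_one₀ (clmv0W_le t) hs.1.le hs.2)
  · simp only [clmv0W_zero (not_lt.1 fun h => ht (mem_ball_zero_iff.2 h)), zero_mul,
      ENNReal.ofReal_zero, zero_le]

end Pool.Agent.CL
end

-- part Pool.Agent.P.MP_63735c_ag.CLWeyl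
section

/-! A bounded holomorphic map extends across a polar boundary. -/

open scoped ContDiff Matrix ENNReal
open Set Metric MeasureTheory Filter Topology

namespace Pool.Agent.CL

open Pool.Agent.SPF

variable {n : ℕ}

lemma clweyl_neg (u : ℂ → ℝ) (z e : ℂ) : Lv (fun y => -u y) z e = -Lv u z e := by
  have h1 : fderiv ℝ (fun y => -u y) = fun x => -fderiv ℝ u x := funext fun _ => fderiv_fun_neg
  simp only [Lv, D2, h1, fderiv_fun_neg, neg_apply]
  ring

lemma clweyl_scale (u : ℂ → ℝ) (z : ℂ) (ρ : ℝ) : Lv u z (ρ : ℂ) = ρ ^ 2 * Lv u z 1 := by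
  have h1 : (ρ : ℂ) = ρ • (1 : ℂ) := by simp
  have h2 : Complex.I • (ρ : ℂ) = ρ • (Complex.I • (1 : ℂ)) := by simp [mul_comm]
  unfold Lv D2
  rw [h2]
  conv_lhs => rw [h1]
  simp only [map_smul, smul_apply, smul_eq_mul]
  ring

/-- Sub-mean value inequality on small discs. -/
lemma clweyl_sub {w : ℂ → ℝ}
    (hmv : ∀ V : ℂ → ℝ, ContDiffOn ℝ 2 V (ball 0 2) → (∀ t ∈ ball (0 : ℂ) 1, Lv V t 1 ≤ 0) →
      ∫ t, V t * w t ≤ V 0)
    {u : ℂ → ℝ} (hu : ∀ z ∈ ball (0 : ℂ) (1 / 4), ContDiffAt ℝ 2 u z ∧ 0 ≤ Lv u z 1)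
    {t : ℂ} {ρ : ℝ} (hρ : 0 < ρ) (ht : ‖t‖ + 2 * ρ ≤ 1 / 4) :
    u t ≤ ∫ x, u (t + ρ * x) * w x := by
  have hin : ∀ x ∈ ball (0 : ℂ) 2, t + ρ * x ∈ ball (0 : ℂ) (1 / 4) := by
    intro x hx
    rw [mem_ball_zero_iff] at hx ⊢
    have h1 : ‖(ρ : ℂ) * x‖ = ρ * ‖x‖ := by simp [abs_of_pos hρ]
    have h2 := norm_add_le t (ρ * x)
    nlinarith
  have key := hmv (fun x => -u (t + ρ * x)) ?_ ?_
  · simp only [neg_mul, integral_neg, mul_zero, add_zero] at key
    linarith
  · intro x hx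
    refine ContDiffAt.contDiffWithinAt ?_
    have hg : ContDiffAt ℝ 2 (fun y : ℂ => t + ρ * y) x := by fun_prop
    exact ((hu _ (hin x hx)).1.comp x hg).neg
  · intro x hx
    have hx2 := hin x (ball_subset_ball (by norm_num) hx)
    have hd : fderiv ℂ (fun y : ℂ => t + ρ * y) x 1 = ρ := by
      have : HasDerivAt (fun y : ℂ => t + ρ * y) (ρ : ℂ) x := by
        simpa using ((hasDerivAt_id x).const_mul (ρ : ℂ)).const_add t
      exact this.deriv
    have := Lv_comp (f := fun y => -u y) (g := fun y : ℂ => t + ρ * y) (x := x)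
      (hu _ hx2).1.neg (Eventually.of_forall fun y => by fun_prop) 1
    rw [this, hd, clweyl_neg, clweyl_scale]
    have := (hu _ hx2).2
    nlinarith [sq_nonneg ρ, mul_nonneg (sq_nonneg ρ) this]

/-- The truncated function is subharmonic on the whole disc. -/
lemma clweyl_trunc {Ω : Set ℂ} {U h : ℂ → ℝ} (hΩ : IsOpen Ω)
    (smooth : ContDiffOn ℝ 2 U Ω) (nonneg : ∀ t ∈ Ω, 0 ≤ U t) (sup : ∀ t ∈ Ω, Lv U t 1 ≤ 0)
    (proper : ∀ s < (1 / 4 : ℝ), ∀ M, IsCompact {t ∈ Ω | ‖t‖ ≤ s ∧ U t ≤ M})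
    (hs : ContDiffOn ℝ 2 h Ω) (hb : ∀ t ∈ Ω, |h t| ≤ 2) (hl : ∀ t ∈ Ω, 0 ≤ Lv h t 1)
    {ε : ℝ} (hε : 0 < ε) :
    ∃ u : ℂ → ℝ, Measurable u ∧ (∀ z, -4 ≤ u z ∧ u z ≤ Ω.indicator h z) ∧
      (∀ z ∈ Ω, ε * U z ≤ 1 → u z = h z - ε * U z) ∧
      ∀ z ∈ ball (0 : ℂ) (1 / 4), ContDiffAt ℝ 2 u z ∧ 0 ≤ Lv u z 1 := by
  classical
  obtain ⟨χ, hχ, d1, d2, hid, hlow, hbd⟩ := exists_trunc 3
  set f : ℂ → ℝ := fun y => 1 * h y + (-ε) * U y with hf
  have hfs : ∀ z ∈ Ω, ContDiffAt ℝ 2 f z := fun z hz =>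
    (contDiffAt_const.mul (hs.contDiffAt (hΩ.mem_nhds hz))).add
      (contDiffAt_const.mul (smooth.contDiffAt (hΩ.mem_nhds hz)))
  refine ⟨Ω.piecewise (fun y => χ (f y)) fun _ => -4, ?_, ?_, ?_, ?_⟩
  · refine ContinuousOn.measurable_piecewise ?_ continuousOn_const hΩ.measurableSet
    exact fun z hz => (hχ.continuous.continuousAt.comp (hfs z hz).continuousAt).continuousWithinAt
  · intro z
    by_cases hz : z ∈ Ω
    · rw [piecewise_eq_of_mem _ _ _ hz, indicator_of_mem hz]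
      have h1 := hbd (f z)
      have h2 := abs_le.1 (hb z hz)
      have h3 := mul_nonneg hε.le (nonneg z hz)
      refine ⟨by linarith [h1.1], h1.2.trans (max_le ?_ (by linarith))⟩
      simp only [hf]
      linarith
    · rw [piecewise_eq_of_notMem _ _ _ hz, indicator_of_notMem hz]
      norm_num
  · intro z hz h1
    have h2 := abs_le.1 (hb z hz)
    rw [piecewise_eq_of_mem _ _ _ hz, hid]
    · simp only [hf]
      ring
    · simp only [hf]
      linarith
  · intro z hz4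
    by_cases hz : z ∈ Ω
    · have hev : (Ω.piecewise (fun y => χ (f y)) fun _ => -4) =ᶠ[𝓝 z] fun y => χ (f y) := by
        filter_upwards [hΩ.mem_nhds hz] with y hy
        exact piecewise_eq_of_mem _ _ _ hy
      refine ⟨(hχ.contDiffAt.comp z (hfs z hz)).congr_of_eventuallyEq hev, ?_⟩
      have hLf : 0 ≤ Lv f z 1 := by
        have a1 := hs.contDiffAt (hΩ.mem_nhds hz)
        have a2 := smooth.contDiffAt (hΩ.mem_nhds hz)
        have b1 := hl z hz
        have b2 := mul_nonneg hε.le (neg_nonneg.2 (sup z hz))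
        unfold Lv at b1 b2 ⊢
        rw [hf, D2_add a1 a2, D2_add a1 a2]
        linarith
      unfold Lv at hLf ⊢
      rw [D2_congr hev, D2_congr hev, D2_comp (hfs z hz) hχ.contDiffAt,
        D2_comp (hfs z hz) hχ.contDiffAt]
      have c1 := mul_nonneg (d1 (f z)) hLf
      have c2 := mul_nonneg (d2 (f z)) (sq_nonneg (fderiv ℝ f z 1))
      have c3 := mul_nonneg (d2 (f z)) (sq_nonneg (fderiv ℝ f z (Complex.I • 1)))
      linarith
    · rw [mem_ball_zero_iff] at hz4
      obtain ⟨s, hs1, hs2⟩ := exists_between hz4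
      have hK := (proper s hs2 (7 / ε)).isClosed
      have hev : (Ω.piecewise (fun y => χ (f y)) fun _ => -4) =ᶠ[𝓝 z] fun _ => (-4 : ℝ) := by
        have e1 : ball (0 : ℂ) s ∈ 𝓝 z := isOpen_ball.mem_nhds (mem_ball_zero_iff.2 hs1)
        have e2 := hK.isOpen_compl.mem_nhds (x := z) fun hc => hz hc.1
        filter_upwards [e1, e2] with y hy1 hy2
        by_cases hy : y ∈ Ω
        · rw [piecewise_eq_of_mem _ _ _ hy, hlow]
          · norm_num
          · have h1 : 7 / ε < U y := by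
              by_contra hc
              exact hy2 ⟨hy, (mem_ball_zero_iff.1 hy1).le, not_lt.1 hc⟩
            rw [div_lt_iff₀ hε] at h1
            have h2 := abs_le.1 (hb y hy)
            simp only [hf]
            linarith
        · exact piecewise_eq_of_notMem _ _ _ hy
      refine ⟨contDiffAt_const.congr_of_eventuallyEq hev, ?_⟩
      unfold Lv
      rw [D2_congr hev, D2_congr hev]
      simp [D2]

lemma clweyl_meas {G : Type} [NormedAddCommGroup G] [MeasurableSpace G] [BorelSpace G]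
    {Ω : Set ℂ} (hΩ : IsOpen Ω) {h : ℂ → G} (hc : ContinuousOn h Ω) :
    Measurable (Ω.indicator h) := by
  classical
  rw [← piecewise_eq_indicator]
  exact hc.measurable_piecewise continuousOn_const hΩ.measurableSet

/-- Mean value inequality for bounded subharmonic functions on `Ω`. -/
lemma clweyl_le {w : ℂ → ℝ} (hw : Integrable w) (hw0 : ∀ t, 0 ≤ w t)
    (hmv : ∀ V : ℂ → ℝ, ContDiffOn ℝ 2 V (ball 0 2) → (∀ t ∈ ball (0 : ℂ) 1, Lv V t 1 ≤ 0) →
      ∫ t, V t * w t ≤ V 0)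
    {Ω : Set ℂ} {U h : ℂ → ℝ} (hΩ : IsOpen Ω)
    (smooth : ContDiffOn ℝ 2 U Ω) (nonneg : ∀ t ∈ Ω, 0 ≤ U t) (sup : ∀ t ∈ Ω, Lv U t 1 ≤ 0)
    (proper : ∀ s < (1 / 4 : ℝ), ∀ M, IsCompact {t ∈ Ω | ‖t‖ ≤ s ∧ U t ≤ M})
    (hs : ContDiffOn ℝ 2 h Ω) (hb : ∀ t ∈ Ω, |h t| ≤ 2) (hl : ∀ t ∈ Ω, 0 ≤ Lv h t 1)
    {t : ℂ} (htΩ : t ∈ Ω) {ρ : ℝ} (hρ : 0 < ρ) (ht : ‖t‖ + 2 * ρ ≤ 1 / 4) :
    h t ≤ ∫ x, Ω.indicator h (t + ρ * x) * w x := by
  have hU := nonneg t htΩ
  have haff : Measurable fun x : ℂ => t + ρ * x := by fun_prop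
  have hib : ∀ z, |Ω.indicator h z| ≤ 2 := fun z => by
    by_cases hz : z ∈ Ω
    · rw [indicator_of_mem hz]
      exact hb z hz
    · rw [indicator_of_notMem hz]
      norm_num
  refine le_of_forall_pos_le_add fun δ hδ => ?_
  have hε : 0 < min δ 1 / (U t + 1) := by positivity
  have hεU : min δ 1 / (U t + 1) * U t ≤ min δ 1 := by
    rw [div_mul_eq_mul_div, div_le_iff₀ (by positivity)]
    have : 0 < min δ 1 := by positivity
    nlinarith
  obtain ⟨u, um, ub, ue, us⟩ := clweyl_trunc hΩ smooth nonneg sup proper hs hb hl hε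
  have h1 := clweyl_sub hmv us hρ ht
  rw [ue t htΩ (hεU.trans (min_le_right _ _))] at h1
  have h2 : ∫ x, u (t + ρ * x) * w x ≤ ∫ x, Ω.indicator h (t + ρ * x) * w x := by
    refine integral_mono ?_ ?_ fun x => mul_le_mul_of_nonneg_right (ub _).2 (hw0 x)
    · refine hw.bdd_mul (c := 4) (um.comp haff).aestronglyMeasurable (ae_of_all _ fun x => ?_)
      have a1 := ub (t + ρ * x)
      have a2 := abs_le.1 (hib (t + ρ * x))
      rw [Real.norm_eq_abs, abs_le]
      constructor <;> linarith [a1.1, a1.2]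
    · exact hw.bdd_mul (c := 2) ((clweyl_meas hΩ hs.continuousOn).comp haff).aestronglyMeasurable
        (ae_of_all _ fun x => hib _)
  linarith [min_le_left δ 1]

theorem weyl {Ω : Set ℂ} {β : ℂ → E n} {U : ℂ → ℝ} (hΩ : IsOpen Ω) (sub : Ω ⊆ ball 0 (1 / 4))
    (h0 : (0 : ℂ) ∈ Ω) (hol : DifferentiableOn ℂ β Ω) (bd : ∀ t ∈ Ω, ‖β t‖ ≤ 2)
    (smooth : ContDiffOn ℝ 2 U Ω) (nonneg : ∀ t ∈ Ω, 0 ≤ U t) (sup : ∀ t ∈ Ω, Lv U t 1 ≤ 0)
    (proper : ∀ s < (1 / 4 : ℝ), ∀ M, IsCompact {t ∈ Ω | ‖t‖ ≤ s ∧ U t ≤ M}) (k : ℕ) :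
    ‖iteratedDeriv k β 0‖ ≤ k.factorial * 2 * 16 ^ k := by
  obtain ⟨w, wsm, w0, wsupp, w1, ⟨c, hc, wc⟩, C, -, hC⟩ := mv_plane
  have hmv : ∀ V : ℂ → ℝ, ContDiffOn ℝ 2 V (ball 0 2) → (∀ t ∈ ball (0 : ℂ) 1, Lv V t 1 ≤ 0) →
      ∫ t, V t * w t ≤ V 0 := by
    intro V hV hL
    have := hC V (fun _ => 0) hV fun t ht => by simpa using hL t ht
    simpa using this
  have wcs : HasCompactSupport w := by
    refine HasCompactSupport.intro (isCompact_closedBall (0 : ℂ) 1) fun x hx => wsupp x ?_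
    rw [mem_closedBall_zero_iff, not_le] at hx
    exact hx.le
  have wint : Integrable w := wsm.continuous.integrable_of_hasCompactSupport wcs
  -- density of the domain
  have hdense : ∀ z ∈ ball (0 : ℂ) (3 / 32), z ∈ closure (Ω ∩ ball 0 (3 / 32)) := by
    have h1 := clweyl_le wint w0 hmv (h := fun _ => 1) hΩ smooth nonneg sup proper
      contDiffOn_const (fun _ _ => by norm_num) (fun _ _ => by simp [Lv, D2]) h0
      (ρ := 1 / 8) (by norm_num) (by norm_num)
    have hm : Measurable fun x : ℂ => Ω.indicator (fun _ => (1 : ℝ)) (0 + ((1 / 8 : ℝ) : ℂ) * x) :=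
      (clweyl_meas hΩ continuousOn_const).comp (by fun_prop)
    have hb1 : ∀ y, Ω.indicator (fun _ => (1 : ℝ)) y ≤ 1 ∧ 0 ≤ Ω.indicator (fun _ => (1 : ℝ)) y :=
      fun y => by by_cases hy : y ∈ Ω <;> simp [hy]
    have hi := wint.bdd_mul (c := 1) hm.aestronglyMeasurable (ae_of_all _ fun x => by
      rw [Real.norm_eq_abs, abs_of_nonneg (hb1 _).2]
      exact (hb1 _).1)
    have hnn : ∀ x : ℂ, 0 ≤ w x -
        Ω.indicator (fun _ => (1 : ℝ)) (0 + ((1 / 8 : ℝ) : ℂ) * x) * w x := fun x => by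
      nlinarith [w0 x, (hb1 (0 + ((1 / 8 : ℝ) : ℂ) * x)).1]
    have hz : ∫ x, (w x - Ω.indicator (fun _ => (1 : ℝ)) (0 + ((1 / 8 : ℝ) : ℂ) * x) * w x) = 0 := by
      refine le_antisymm ?_ (integral_nonneg hnn)
      rw [integral_sub wint hi, w1]
      linarith
    have hae := (integral_eq_zero_iff_of_nonneg hnn (wint.sub hi)).1 hz
    have hd := Measure.dense_of_ae hae
    intro z hz
    rw [_root_.mem_closure_iff]
    intro O hO hzO
    have hO' : IsOpen ((fun x : ℂ => 0 + ((1 / 8 : ℝ) : ℂ) * x) ⁻¹' (O ∩ ball 0 (3 / 32))) :=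
      (hO.inter isOpen_ball).preimage (by fun_prop)
    obtain ⟨x, hx1, hx2⟩ := hd.inter_open_nonempty _ hO' ⟨8 * z, by
      have : 0 + ((1 / 8 : ℝ) : ℂ) * (8 * z) = z := by
        push_cast
        ring
      rw [mem_preimage, this]
      exact ⟨hzO, hz⟩⟩
    refine ⟨_, hx1.1, ?_, hx1.2⟩
    by_contra hn
    replace hn : 0 + ((1 / 8 : ℝ) : ℂ) * x ∉ Ω := hn
    have h3 : ‖x‖ ≤ 3 / 4 := by
      have : ‖0 + ((1 / 8 : ℝ) : ℂ) * x‖ < 3 / 32 := mem_ball_zero_iff.1 hx1.2
      rw [zero_add, norm_mul, Complex.norm_real, Real.norm_eq_abs, abs_of_pos (by norm_num)] at this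
      linarith
    have h4 := wc x h3
    replace hx2 : w x - Ω.indicator (fun _ => (1 : ℝ)) (0 + ((1 / 8 : ℝ) : ℂ) * x) * w x = 0 := hx2
    rw [indicator_of_notMem hn] at hx2
    linarith
  -- the smoothed map
  have hibd : ∀ y, ‖Ω.indicator β y‖ ≤ 2 := fun y => by
    by_cases hy : y ∈ Ω
    · rw [indicator_of_mem hy]
      exact bd y hy
    · rw [indicator_of_notMem hy]
      simp
  have hβm := clweyl_meas hΩ hol.continuousOn
  set G : ℂ → E n := fun s => Ω.indicator β (-((1 / 16 : ℝ) : ℂ) * s) with hG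
  have hGm : Measurable G := hβm.comp (by fun_prop)
  have hGl : LocallyIntegrable G := by
    rw [← locallyIntegrableOn_univ, locallyIntegrableOn_iff isClosed_univ.isLocallyClosed]
    intro K _ hK
    exact Measure.integrableOn_of_bounded (M := 2) hK.measure_lt_top.ne hGm.aestronglyMeasurable
      (ae_of_all _ fun x => hibd _)
  have hconv := wcs.contDiff_convolution_left (μ := volume) (ContinuousLinearMap.lsmul ℝ ℝ) wsm hGl
  set B : ℂ → E n := fun t =>
    convolution w G (ContinuousLinearMap.lsmul ℝ ℝ) volume (-16 * t) with hB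
  have hBs : ContDiff ℝ ∞ B := hconv.comp (by fun_prop)
  have hBe : ∀ t, B t = ∫ x, w x • Ω.indicator β (t + ((1 / 16 : ℝ) : ℂ) * x) := by
    intro t
    simp only [hB, hG, convolution_def, ContinuousLinearMap.lsmul_apply]
    refine integral_congr_ae (ae_of_all _ fun x => ?_)
    have : -((1 / 16 : ℝ) : ℂ) * (-16 * t - x) = t + ((1 / 16 : ℝ) : ℂ) * x := by
      push_cast
      ring
    simp only [this]
  have hsm := (hol_smooth hΩ hol).2.1
  have hlin : ∀ l : E n →L[ℝ] ℝ, (∀ v, |l v| ≤ ‖v‖) → ∀ t ∈ Ω ∩ ball 0 (3 / 32),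
      l (β t) ≤ l (B t) := by
    intro l hl t ht
    have h1 := clweyl_le wint w0 hmv (h := fun y => l (β y)) hΩ smooth nonneg sup proper
      (l.contDiff.comp_contDiffOn (contDiffOn_infty.1 hsm 2))
      (fun y hy => (hl _).trans (bd y hy)) (fun y hy => by
        rw [Lv_comp (f := l) l.contDiff.contDiffAt
          (hΩ.eventually_mem hy |>.mono fun z hz => hol.differentiableAt (hΩ.mem_nhds hz)),
          Lv_linear]) ht.1 (ρ := 1 / 16) (by norm_num) (by
        have := mem_ball_zero_iff.1 ht.2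
        linarith)
    have hint : Integrable fun x => w x • Ω.indicator β (t + ((1 / 16 : ℝ) : ℂ) * x) :=
      wint.smul_bdd 2 (hβm.comp (by fun_prop)).aestronglyMeasurable (ae_of_all _ fun x => hibd _)
    rw [hBe, ← l.integral_comp_comm hint]
    refine h1.trans (le_of_eq (integral_congr_ae (ae_of_all _ fun x => ?_)))
    by_cases hy : t + ((1 / 16 : ℝ) : ℂ) * x ∈ Ω
    · simp only [indicator_of_mem hy, map_smul, smul_eq_mul]
      ring
    · simp only [indicator_of_notMem hy, smul_zero, map_zero, zero_mul]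
  have heq : ∀ t ∈ Ω ∩ ball 0 (3 / 32), β t = B t := by
    intro t ht
    have h2 : ∀ l : E n →L[ℝ] ℝ, (∀ v, |l v| ≤ ‖v‖) → l (β t) = l (B t) := by
      intro l hl
      have a1 := hlin l hl t ht
      have a2 := hlin (-l) (fun v => by simpa using hl v) t ht
      simp only [neg_apply] at a2
      linarith
    funext i
    apply Complex.ext
    · exact h2 (Complex.reCLM.comp (ContinuousLinearMap.proj i)) fun v =>
        (Complex.abs_re_le_norm _).trans (norm_le_pi_norm v i)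
    · exact h2 (Complex.imCLM.comp (ContinuousLinearMap.proj i)) fun v =>
        (Complex.abs_im_le_norm _).trans (norm_le_pi_norm v i)
  have hop : IsOpen (Ω ∩ ball 0 (3 / 32)) := hΩ.inter isOpen_ball
  have hev : ∀ t ∈ Ω ∩ ball 0 (3 / 32), β =ᶠ[𝓝 t] B := fun t ht => by
    filter_upwards [hop.mem_nhds ht] with y hy using heq y hy
  have hfc : Continuous (fderiv ℝ B) := hBs.continuous_fderiv (by simp)
  have hcl : IsClosed {t | fderiv ℝ B t Complex.I = Complex.I • fderiv ℝ B t 1 ∧ ‖B t‖ ≤ 2} := by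
    refine IsClosed.inter (isClosed_eq (hfc.clm_apply continuous_const)
      ((hfc.clm_apply continuous_const).const_smul Complex.I)) ?_
    exact isClosed_le hBs.continuous.norm continuous_const
  have hall : ∀ z ∈ ball (0 : ℂ) (3 / 32), DifferentiableAt ℂ B z ∧ ‖B z‖ ≤ 2 := by
    intro z hz
    have h1 := closure_minimal (t := {t | fderiv ℝ B t Complex.I = Complex.I • fderiv ℝ B t 1 ∧
      ‖B t‖ ≤ 2}) (fun t ht => ?_) hcl (hdense z hz)
    · exact ⟨differentiableAt_complex_iff_differentiableAt_real.2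
        ⟨hBs.differentiable (by simp) z, h1.1⟩, h1.2⟩
    · have a1 : DifferentiableAt ℂ B t :=
        (hol.differentiableAt (hΩ.mem_nhds ht.1)).congr_of_eventuallyEq (hev t ht).symm
      exact ⟨(differentiableAt_complex_iff_differentiableAt_real.1 a1).2,
        heq t ht ▸ bd t ht.1⟩
  rw [(hev 0 ⟨h0, mem_ball_self (by norm_num)⟩).iteratedDeriv_eq]
  have hfin := Complex.norm_iteratedDeriv_le_of_forall_mem_sphere_norm_le (f := B) (c := 0)
    (R := 1 / 16) (C := 2) k (by norm_num) ⟨fun z hz => (hall z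
      (ball_subset_ball (by norm_num) hz)).1.differentiableWithinAt, hBs.continuous.continuousOn⟩
    fun z hz => (hall z (by
      rw [mem_sphere_zero_iff_norm] at hz
      rw [mem_ball_zero_iff, hz]
      norm_num)).2
  refine hfin.trans (le_of_eq ?_)
  rw [one_div, inv_pow, div_inv_eq_mul]

end Pool.Agent.CL
end
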