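import Pool.Agent.K.MP_63735c_ag.C73
import Pool.Agent.K.MP_63735c_ag.C75
import Pool.Agent.K.MP_63735c_ag.C76

/-! Labels of small energy are realised on a ball. -/

open scoped ContDiff Matrix ENNReal
open Set Metric MeasureTheory Filter Topology

namespace Pool.Agent.CL

open Pool.Agent.SPF

variable {n : ℕ} {X : Type} [TopologicalSpace X] [T2Space X] [MeasurableSpace X]

lemma clatom_cpt {α : Type} [TopologicalSpace α] [T2Space α] {T : Set α} (hT : IsCompact T)
    {f g : α → ℝ} (hf : ContinuousOn f T) (hg : ContinuousOn g T) (a b : ℝ) :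
    IsCompact {t ∈ T | f t ≤ a ∧ g t ≤ b} :=
  hT.of_isClosed_subset ((hf.prodMk hg).preimage_isClosed_of_isClosed hT.isClosed
    (isClosed_Iic.prod isClosed_Iic : IsClosed (Iic a ×ˢ Iic b))) fun _ h => h.1

lemma clatom_sub (K : ℝ) (w : ℂ → ℝ) (z e : ℂ) : Lv (fun y => K - w y) z e = -Lv w z e := by
  have h1 : fderiv ℝ (fun y => K - w y) = fun x => -fderiv ℝ w x :=
    funext fun _ => fderiv_const_sub K
  simp only [Lv, D2, h1, fderiv_fun_neg, neg_apply]
  ring

lemma clatom_markov {F : E n → ℝ≥0∞} (hF : Measurable F) {a : ℝ} (ha : 0 < a)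
    (h : ∫⁻ u in ball (0 : E n) 1, F u ≤
      ENNReal.ofReal (a * ((volume (ball (0 : E n) 1)).toReal / 2))) :
    volume (ball (0 : E n) 1) ≤ 2 * volume {u ∈ ball (0 : E n) 1 | F u ≤ ENNReal.ofReal a} := by
  have hV : volume (ball (0 : E n) 1) ≠ ⊤ := measure_ball_lt_top.ne
  have h1 := (mul_meas_ge_le_lintegral₀ (μ := volume.restrict (ball (0 : E n) 1)) hF.aemeasurable
    (ENNReal.ofReal a)).trans h
  rw [ENNReal.ofReal_mul ha.le, ENNReal.mul_le_mul_iff_right (by simpa using ha)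
    ENNReal.ofReal_ne_top, ENNReal.ofReal_div_of_pos (by norm_num), ENNReal.ofReal_toReal hV,
    Measure.restrict_apply' measurableSet_ball, ENNReal.ofReal_ofNat] at h1
  have h2 : volume (ball (0 : E n) 1) ≤ volume {u ∈ ball (0 : E n) 1 | F u ≤ ENNReal.ofReal a} +
      volume (ball (0 : E n) 1) / 2 := by
    refine le_trans (measure_mono fun u hu => ?_)
      ((measure_union_le _ _).trans (add_le_add_right h1 _))
    rcases le_total (F u) (ENNReal.ofReal a) with h | h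
    · exact Or.inl ⟨hu, h⟩
    · exact Or.inr ⟨h, hu⟩
  have h3 := ENNReal.add_halves (volume (ball (0 : E n) 1))
  have h4 : volume (ball (0 : E n) 1) / 2 ≠ ⊤ := ENNReal.div_ne_top hV (by norm_num)
  have h5 : volume (ball (0 : E n) 1) / 2 ≤
      volume {u ∈ ball (0 : E n) 1 | F u ≤ ENNReal.ofReal a} := by
    rw [← ENNReal.add_le_add_iff_right h4, h3]
    exact h2
  rw [← h3, two_mul]
  exact add_le_add h5 h5

namespace Big

variable {B : Big n X} {l l' : B.Lab} {y : E n} {g g' : Ret n}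

lemma clatom_open (l : B.Lab) (R : ℝ) : IsOpen {x | x ∈ B.Om l ∧ ‖B.bb l x‖ < R} :=
  (bb_hol l).continuousOn.norm.isOpen_inter_preimage (isOpen_Om l) isOpen_Iio

/-- The slice through `y` in the direction `u`. -/
lemma clatom_slice {e s N K c : ℝ} {v : E n → ℝ} {u : E n} (hl : B.lg.sz l ≤ B.lg.ε)
    (he : e ≤ B.S.G.r) (hs : 0 < s) (hb : ball y s ⊆ ball B.S.G.y0 e) (hN : 0 < N) (hc : 0 < c)
    (hu : u ∈ ball (0 : E n) 1) (hv : ContDiffOn ℝ 2 v (B.Om l))
    (hbar : ∀ x ∈ B.Om l, x ∈ ball B.S.G.y0 e → ‖B.bb l x‖ ≤ 4 * N →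
      (∀ u, 0 ≤ Lv v x u) ∧ v x ≤ K - c * ‖B.tt l x‖) :
    Slice {t ∈ ball (0 : ℂ) 1 | y + (t * s) • u ∈ {x | x ∈ B.Om l ∧ ‖B.bb l x‖ < 4 * N}}
      (fun t => (N : ℂ)⁻¹ • B.bb l (y + (t * s) • u)) fun t => K - v (y + (t * s) • u) := by
  have hpt : Continuous fun t : ℂ => y + (t * s) • u := by fun_prop
  have hu1 : ‖u‖ ≤ 1 := (mem_ball_zero_iff.1 hu).le
  have hnorm : ∀ t : ℂ, ‖y + (t * s) • u - y‖ ≤ ‖t‖ * s := fun t => by
    rw [add_sub_cancel_left, norm_smul, norm_mul, Complex.norm_real, Real.norm_eq_abs,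
      abs_of_pos hs]
    exact mul_le_of_le_one_right (by positivity) hu1
  have hin : ∀ t ∈ ball (0 : ℂ) 1, y + (t * s) • u ∈ ball B.S.G.y0 e := fun t ht => by
    refine hb (mem_ball_iff_norm.2 ((hnorm t).trans_lt ?_))
    exact mul_lt_of_lt_one_left hs (mem_ball_zero_iff.1 ht)
  have hva : ∀ x ∈ B.Om l, ContDiffAt ℝ 2 v x := fun x hx =>
    hv.contDiffAt ((isOpen_Om l).mem_nhds hx)
  have hba : ∀ x ∈ B.Om l, DifferentiableAt ℂ (B.bb l) x := fun x hx =>
    (bb_hol l).differentiableAt ((isOpen_Om l).mem_nhds hx)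
  have hβ : ∀ t : ℂ, y + (t * s) • u ∈ B.Om l →
      DifferentiableAt ℂ (fun t : ℂ => (N : ℂ)⁻¹ • B.bb l (y + (t * s) • u)) t := fun t ht =>
    (DifferentiableAt.comp (f := fun t : ℂ => y + (t * s) • u) t (hba _ ht)
      (by fun_prop)).const_smul (N : ℂ)⁻¹
  have hU : ∀ t : ℂ, y + (t * s) • u ∈ B.Om l →
      ContDiffAt ℝ 2 (fun t : ℂ => K - v (y + (t * s) • u)) t := fun t ht =>
    contDiffAt_const.sub (ContDiffAt.comp (f := fun t : ℂ => y + (t * s) • u) t (hva _ ht)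
      (by fun_prop))
  refine ⟨isOpen_ball.inter ((clatom_open l _).preimage hpt), fun t ht => ht.1,
    fun t ht => (hβ t ht.2.1).differentiableWithinAt, fun t ht => (hU t ht.2.1).contDiffWithinAt,
    fun t ht => ?_, fun t ht => ?_, fun s' hs' M => ?_⟩
  · have h1 := (hbar _ ht.2.1 (hin t ht.1) ht.2.2.le).2
    have h2 := mul_nonneg hc.le (norm_nonneg (B.tt l (y + (t * s) • u)))
    linarith
  · rw [clatom_sub, Lv_comp (g := fun t : ℂ => y + (t * s) • u) (hva _ ht.2.1)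
      (Eventually.of_forall fun z => by fun_prop)]
    exact neg_nonpos.2 ((hbar _ ht.2.1 (hin t ht.1) ht.2.2.le).1 _)
  · have hK : closedBall y (max s' 0 * s) ⊆ ball B.S.G.y0 B.S.G.r := by
      refine ((closedBall_subset_ball ?_).trans hb).trans (ball_subset_ball he)
      exact mul_lt_of_lt_one_left hs (max_lt hs' one_pos)
    have hZ := proper hl (isCompact_closedBall _ _) hK (max (4 * N) (M / c))
    have hT := (isCompact_closedBall (0 : ℂ) s').inter_right (hZ.isClosed.preimage hpt)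
    have hns : Continuous (nsq : E n → ℝ) := by
      unfold nsq
      fun_prop
    have key := clatom_cpt hT
      (hns.comp_continuousOn fun t ht => (hβ t ht.2.2.1).continuousAt.continuousWithinAt)
      (fun t ht => (hU t ht.2.2.1).continuousAt.continuousWithinAt) 15 M
    refine (congrArg IsCompact (Set.ext fun t => ?_)).mp key
    constructor
    · rintro ⟨⟨h1, -, h2, -⟩, h3, h4⟩
      rw [mem_closedBall_zero_iff] at h1
      refine ⟨⟨mem_ball_zero_iff.2 (h1.trans_lt hs'), h2, ?_⟩, h1, h3, h4⟩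
      have h5 := (nsq_le _).1.trans h3
      rw [norm_smul, norm_inv, Complex.norm_real, Real.norm_eq_abs, abs_of_pos hN] at h5
      have h6 : N⁻¹ * ‖B.bb l (y + (t * s) • u)‖ < 4 := by nlinarith
      rwa [inv_mul_lt_iff₀ hN, mul_comm N] at h6
    · rintro ⟨⟨h1, h2, h3⟩, h4, h5, h6⟩
      refine ⟨⟨mem_closedBall_zero_iff.2 h4, ?_, h2, h3.le.trans (le_max_left _ _),
        le_trans ?_ (le_max_right _ _)⟩, h5, h6⟩
      · exact mem_closedBall_iff_norm.2 ((hnorm t).trans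
          (mul_le_mul_of_nonneg_right (h4.trans (le_max_left _ _)) hs.le))
      · have h7 := (hbar _ h2 (hin t h1) h3.le).2
        rw [le_div_iff₀ hc]
        linarith

/-- Energy of a slice. -/
lemma clatom_energy {s R : ℝ} {u : E n} (hn : 1 ≤ n) (hs : 0 < s) (hR : 0 < R)
    (hu : u ∈ ball (0 : E n) 1) {t : ℂ} (ht : y + (t * s) • u ∈ B.Om l) :
    nsq (deriv (fun t : ℂ => ((n * R : ℝ) : ℂ)⁻¹ • B.bb l (y + (t * s) • u)) t) ≤
      (R ^ 2)⁻¹ * (s ^ 2 * ‖fderiv ℂ (B.bb l) (y + (t * s) • u)‖ ^ 2) := by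
  have hn' : (1 : ℝ) ≤ n := by exact_mod_cast hn
  have h1 : HasDerivAt (fun t : ℂ => y + (t * s) • u) ((s : ℂ) • u) t := by
    simpa using (((hasDerivAt_id t).mul_const (s : ℂ)).smul_const u).const_add y
  have h2 := (((bb_hol l).differentiableAt
    ((isOpen_Om l).mem_nhds ht)).hasFDerivAt.comp_hasDerivAt t h1).const_smul ((n * R : ℝ) : ℂ)⁻¹
  have h3 : deriv (fun t : ℂ => ((n * R : ℝ) : ℂ)⁻¹ • B.bb l (y + (t * s) • u)) t = _ := h2.deriv
  rw [h3]
  refine (nsq_le _).2.trans ?_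
  set D := fderiv ℂ (B.bb l) (y + (t * s) • u)
  have h4 : ‖D ((s : ℂ) • u)‖ ≤ s * ‖D‖ := by
    refine (D.le_opNorm _).trans ?_
    rw [norm_smul, Complex.norm_real, Real.norm_eq_abs, abs_of_pos hs, mul_comm]
    exact mul_le_mul_of_nonneg_right
      (mul_le_of_le_one_right hs.le (mem_ball_zero_iff.1 hu).le) (norm_nonneg _)
  rw [norm_smul, norm_inv, Complex.norm_real, Real.norm_eq_abs, abs_of_pos (by positivity),
    mul_pow, ← mul_assoc, ← mul_pow s]
  refine mul_le_mul ?_ (pow_le_pow_left₀ (norm_nonneg _) h4 2) (by positivity) (by positivity)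
  rw [inv_pow, mul_pow, mul_inv, ← mul_assoc]
  refine mul_le_of_le_one_left (by positivity) ?_
  rw [mul_inv_le_iff₀ (by positivity)]
  nlinarith

/-- Holomorphic extension of `bb`. -/
theorem atom_ext (B : Big n X) : ∃ e > (0 : ℝ), ∃ θ > (0 : ℝ), ∃ ρ > (0 : ℝ), ∃ C : ℝ, ρ ≤ 1 ∧
    ∀ l y s R, B.lg.sz l ≤ e → 0 < s → ball y s ⊆ ball B.S.G.y0 e → 0 < R → y ∈ B.Om l →
      ‖B.bb l y‖ < R → B.el l y s (4 * n * R) ≤ ENNReal.ofReal (θ * R ^ 2) →
      ∃ b : E n → E n, DifferentiableOn ℂ b (ball y (ρ * s)) ∧ B.bb l =ᶠ[𝓝 y] b ∧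
        ∀ x ∈ ball y (ρ * s), ‖b x‖ ≤ C * R := by
  obtain ⟨e, he, he1, he2, hbar⟩ := bar B
  obtain ⟨θ, hθ, hs1⟩ := s1
  obtain ⟨ρ, hρ, C, hρ1, hext⟩ := ext_ball n
  have hn := B.S.M.n_pos
  have hn' : (1 : ℝ) ≤ n := by exact_mod_cast hn
  have hV : 0 < (volume (ball (0 : E n) 1)).toReal :=
    ENNReal.toReal_pos (measure_ball_pos _ _ one_pos).ne' measure_ball_lt_top.ne
  refine ⟨e, he, θ * ((volume (ball (0 : E n) 1)).toReal / 2), by positivity, ρ, hρ, n * C, hρ1,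
    fun l y s R hl hs hb hR hy hyR hel => ?_⟩
  have hN : 0 < n * R := by positivity
  obtain ⟨v, K, c, hc, hv, hvb⟩ := hbar l hl (4 * (n * R))
  rw [mul_assoc, mul_right_comm θ] at hel
  have hS := (clatom_open l (4 * (n * R))).measurableSet
  have hmeas : Measurable fun q : E n × ℂ => {x | x ∈ B.Om l ∧ ‖B.bb l x‖ < 4 * (n * R)}.indicator
      (fun x => ENNReal.ofReal (s ^ 2 * ‖fderiv ℂ (B.bb l) x‖ ^ 2)) (y + (q.2 * s) • q.1) := by
    refine (Measurable.indicator ?_ hS).comp (by fun_prop)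
    exact (((measurable_fderiv ℂ (B.bb l)).norm.pow_const 2).const_mul _).ennreal_ofReal
  have hM := clatom_markov
    (hmeas.lintegral_prod_right' (ν := volume.restrict (ball (0 : ℂ) 1))) (by positivity) hel
  have hsc : (s : ℂ) ≠ 0 := by exact_mod_cast hs.ne'
  have hNc : ((n * R : ℝ) : ℂ) ≠ 0 := by exact_mod_cast hN.ne'
  have hex := hext (fun x => ((n * R : ℝ) : ℂ)⁻¹ • B.bb l (y + (s : ℂ) • x)) _
    ?_ (fun u hu => hu.1) hM ?_
  · obtain ⟨b', hb1, hb2, hb3⟩ := hex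
    have hmap : ∀ x ∈ ball y (ρ * s), (s : ℂ)⁻¹ • (x - y) ∈ ball (0 : E n) ρ := fun x hx => by
      rw [mem_ball_zero_iff, norm_smul, norm_inv, Complex.norm_real, Real.norm_eq_abs,
        abs_of_pos hs, inv_mul_lt_iff₀ hs, mul_comm]
      exact mem_ball_iff_norm.1 hx
    refine ⟨fun x => ((n * R : ℝ) : ℂ) • b' ((s : ℂ)⁻¹ • (x - y)), ?_, ?_, fun x hx => ?_⟩
    · exact (hb1.comp (f := fun x => (s : ℂ)⁻¹ • (x - y)) (by fun_prop) hmap).const_smul
        ((n * R : ℝ) : ℂ)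
    · have ht : Tendsto (fun x => (s : ℂ)⁻¹ • (x - y)) (𝓝 y) (𝓝 0) :=
        Continuous.tendsto' (by fun_prop) _ _ (by simp)
      filter_upwards [ht.eventually hb2] with x hx
      rw [hx, smul_inv_smul₀ hNc, smul_inv_smul₀ hsc, add_sub_cancel]
    · rw [norm_smul, Complex.norm_real, Real.norm_eq_abs, abs_of_pos hN, mul_right_comm _ C]
      exact mul_le_mul_of_nonneg_left (hb3 _ (hmap x hx)) hN.le
  · have ht : Tendsto (fun x : E n => y + (s : ℂ) • x) (𝓝 0) (𝓝 y) :=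
      Continuous.tendsto' (by fun_prop) _ _ (by simp)
    filter_upwards [ht.eventually ((isOpen_Om l).mem_nhds hy)] with x hx
    exact (DifferentiableAt.comp (f := fun x : E n => y + (s : ℂ) • x) x
      ((bb_hol l).differentiableAt ((isOpen_Om l).mem_nhds hx)) (by fun_prop)).const_smul
        ((n * R : ℝ) : ℂ)⁻¹
  · intro u hu k
    have hsl := clatom_slice (hl.trans he1) (he2.trans (by linarith [B.S.G.r_pos])) hs hb hN hc
      hu.1 hv hvb
    have hfun : (fun t : ℂ => ((n * R : ℝ) : ℂ)⁻¹ • B.bb l (y + (s : ℂ) • t • u)) =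
        fun t : ℂ => ((n * R : ℝ) : ℂ)⁻¹ • B.bb l (y + (t * s) • u) := by
      funext t
      rw [smul_smul, mul_comm (s : ℂ)]
    rw [hfun]
    have hR4 : R ≤ n * R := le_mul_of_one_le_left hR.le hn'
    refine hs1 n _ _ _ hsl ⟨mem_ball_self one_pos, ?_⟩ ?_ ?_ k
    · rw [zero_mul, zero_smul, add_zero]
      exact ⟨hy, by linarith⟩
    · refine (nsq_le _).2.trans ?_
      rw [zero_mul, zero_smul, add_zero, norm_smul, norm_inv, Complex.norm_real, Real.norm_eq_abs,
        abs_of_pos hN, mul_pow, inv_pow, ← mul_assoc, mul_right_comm,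
        mul_inv_le_iff₀ (by positivity), one_mul, mul_pow]
      have h1 := pow_le_pow_left₀ (norm_nonneg _) hyR.le 2
      exact mul_le_mul (by nlinarith) h1 (by positivity) (by positivity)
    · have hpt : Measurable fun t : ℂ => y + (t * s) • u := by fun_prop
      have h1 := mul_le_mul_right hu.2 (ENNReal.ofReal (R ^ 2)⁻¹)
      rw [← ENNReal.ofReal_mul (by positivity), mul_comm θ, inv_mul_cancel_left₀ (by positivity),
        ← lintegral_const_mul' _ _ ENNReal.ofReal_ne_top] at h1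
      refine le_trans ?_ h1
      refine le_trans (setLIntegral_mono' hsl.isOpen.measurableSet fun t ht => ?_)
        (lintegral_mono_set hsl.sub)
      rw [indicator_of_mem ht.2, ← ENNReal.ofReal_mul (by positivity)]
      exact ENNReal.ofReal_le_ofReal (clatom_energy hn hs hR hu.1 ht.2.1)

/-- Integrability of the height. -/
theorem atom_int (B : Big n X) : ∃ e > (0 : ℝ), ∀ l y t m b, B.lg.sz l ≤ e → 0 < t →
    ball y (4 * t) ⊆ ball B.S.G.y0 e → y ∈ B.Om l → DifferentiableOn ℂ b (ball y (4 * t)) →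
    B.bb l =ᶠ[𝓝 y] b → (∀ x ∈ ball y (4 * t), ‖b x‖ ≤ m) → ‖B.rho l‖ ≤ m →
    ∃ m', B.Real l y t b m m' := by
  obtain ⟨e, he, he1, he2, hbar⟩ := bar B
  refine ⟨e, he, fun l y t m b hl ht hb hy hol hev hm hrho => ?_⟩
  obtain ⟨v, K, c, hc, hv, hvb⟩ := hbar l hl m
  have hy4 : y ∈ ball y (4 * t) := mem_ball_self (by positivity)
  have hvb' : ∀ x ∈ B.Om0 l b ∩ ball y (4 * t),
      (∀ u, 0 ≤ Lv v x u) ∧ v x ≤ K - c * ‖B.tt l x‖ := fun x hx =>
    hvb x hx.1.1 (hb hx.2) (by rw [hx.1.2.eq_of_nhds]; exact hm x hx.2)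
  have hfin := trunc (Ω := B.Om0 l b ∩ ball y (4 * t)) (x0 := y) (B := K) (v := v)
    (ht := fun x => ‖B.tt l x‖) ht hc ((isOpen_Om0 l b).inter isOpen_ball) inter_subset_right
    ⟨⟨hy, hev⟩, hy4⟩ (hv.mono fun x hx => hx.1.1) (fun x hx => (hvb' x hx).1)
    (fun x hx => ⟨norm_nonneg _, (hvb' x hx).2⟩) ?_
  · have hsub : ball y t ⊆ ball y (4 * t) := ball_subset_ball (by linarith)
    have heq : ∫⁻ x in ball y t, B.ht l b x < ⊤ := by
      refine lt_of_eq_of_lt (setLIntegral_congr_fun measurableSet_ball fun x hx => ?_) hfin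
      by_cases h : x ∈ B.Om0 l b
      · exact (if_pos h).trans (if_pos ⟨h, hsub hx⟩).symm
      · exact (if_neg h).trans (if_neg fun h' => h h'.1).symm
    refine ⟨(∫⁻ x in ball y t, B.ht l b x).toReal, hol.mono hsub, fun x hx => hm x (hsub hx),
      fun x hx => ?_, hrho, ENNReal.toReal_nonneg, (ENNReal.ofReal_toReal heq.ne).ge⟩
    refine hol_ident (f := fun x => piI B.S.Q.I (b x)) isOpen_ball
      (convex_ball _ _).isPreconnected ((piI B.S.Q.I).differentiable.comp_differentiableOn hol)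
      hol hy4 ?_ (hsub hx)
    filter_upwards [hev] with z hz
    rw [← hz]
    exact (proj_piI _ _).1
  · intro s hs M
    have hKO : closedBall y s ⊆ ball y (4 * t) := closedBall_subset_ball hs
    have hZ := proper0 (hl.trans he1) isOpen_ball hol (isCompact_closedBall y s) hKO
      ((hKO.trans hb).trans (ball_subset_ball (he2.trans (by linarith [B.S.G.r_pos]))))
      ((K + M) / c)
    have hcv : ContinuousOn (fun x => -v x)
        {x | x ∈ closedBall y s ∧ x ∈ B.Om0 l b ∧ ‖B.tt l x‖ ≤ (K + M) / c} :=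
      (hv.continuousOn.mono fun x hx => hx.2.1.1).neg
    have key := clatom_cpt hZ hcv hcv M M
    refine (congrArg IsCompact (Set.ext fun x => ?_)).mp key
    constructor
    · rintro ⟨⟨h1, h2, -⟩, h3, -⟩
      exact ⟨⟨h2, hKO h1⟩, mem_closedBall_iff_norm.1 h1, by linarith⟩
    · rintro ⟨h1, h2, h3⟩
      refine ⟨⟨mem_closedBall_iff_norm.2 h2, h1.1, ?_⟩, by linarith, by linarith⟩
      have h4 := (hvb' x h1).2
      rw [le_div_iff₀ hc]
      linarith

end Big

end Pool.Agent.CL
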