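import Pool.Agent.K.MP_63735c_ag.C70
import Pool.Agent.K.MP_63735c_ag.C78

/-! Separation of labels. -/

open scoped ContDiff Matrix ENNReal
open Set Metric MeasureTheory Filter Topology

namespace Pool.Agent.CL

open Pool.Agent.SPF

variable {n : ℕ} {X : Type} [TopologicalSpace X] [T2Space X] [MeasurableSpace X]

namespace Big

variable {B : Big n X} {l l' : B.Lab} {y : E n} {g g' : Ret n}

/-- The quotient of two returns at one point. -/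
theorem clsep_quot (h : B.At l y g) (h' : B.At l' y g') (hl : B.lg.sz l ≤ B.lg.ε)
    (hl' : B.lg.sz l' ≤ B.lg.ε) (hi : B.S.G.lg.sz (B.S.G.lg.inv l.1) ≤ B.lg.ε) :
    g.γ y ∈ ball B.S.G.y0 (3 / 2 * B.S.G.r) ∧ ∃ k : Ret n, Germ B.S.M.T B.S.M.Ψ (g.γ y) k ∧
      k.γ =ᶠ[𝓝 (g.γ y)] B.S.G.γ (B.S.G.lg.mul l'.1 (B.S.G.lg.inv l.1)) ∧
      k.α (g.γ y) = g.N y (g'.α y - g.α y) := by
  obtain ⟨hg, hγ, -⟩ := h.germ
  obtain ⟨hg', hγ', -⟩ := h'.germ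
  have hy := h.1
  have hr := B.S.G.r_pos
  have hy2 : y ∈ ball B.S.G.y0 (2 * B.S.G.r) := ball_subset_ball (by linarith) hy
  have hy3 : y ∈ ball B.S.G.y0 (3 / 2 * B.S.G.r) := ball_subset_ball (by linarith) hy
  have h1 : g.γ y ∈ ball B.S.G.y0 (3 / 2 * B.S.G.r) := by
    have a := (B.S.G.near l.1 hl y hy2).1
    have b : B.S.G.lg.L * B.S.G.lg.sz l.1 ≤ B.S.G.lg.L * B.S.G.lg.ε :=
      mul_le_mul_of_nonneg_left hl (by linarith [B.S.G.lg.L_ge])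
    have c := B.S.G.small.trans (min_le_left _ _)
    rw [hγ.self_of_nhds.1, mem_ball, dist_eq_norm]
    rw [mem_ball, dist_eq_norm] at hy
    have := norm_sub_le_norm_sub_add_norm_sub (B.S.G.γ l.1 y) y B.S.G.y0
    linarith
  obtain ⟨gi, hgi, e1, e2⟩ := B.S.M.inv hg
  have e0 : gi.γ (g.γ y) = y := e1.self_of_nhds.1
  obtain ⟨O, hO, hyO⟩ := id hg
  obtain ⟨Oi, hOi, hyOi⟩ := id hgi
  have d1 : DifferentiableAt ℂ g.γ y := hO.γ_hol.differentiableAt (hO.isOpen.mem_nhds hyO)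
  have d2 : DifferentiableAt ℂ gi.γ (g.γ y) :=
    hOi.γ_hol.differentiableAt (hOi.isOpen.mem_nhds hyOi)
  have t : Tendsto gi.γ (𝓝 (g.γ y)) (𝓝 y) := by
    have := d2.continuousAt.tendsto
    rwa [e0] at this
  refine ⟨h1, g'.comp gi, (hgi.comp (e0.symm ▸ hg')).1, ?_, ?_⟩
  · filter_upwards [e2, t.eventually hγ, t.eventually hγ', isOpen_ball.mem_nhds h1,
      t.eventually (isOpen_ball.mem_nhds hy3)] with x a b c d e
    have k : B.S.G.γ (B.S.G.lg.inv l.1) x = gi.γ x := by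
      conv_lhs => rw [← a.1, b.1]
      rw [← B.S.G.γ_mul _ _ hi hl _ e, B.S.G.lg.inv_mul _ hl, B.S.G.γ_one]
    rw [B.S.G.γ_mul _ _ hl' hi _ d, k]
    exact c.1
  · have f1 : (fderiv ℂ gi.γ (g.γ y)).comp (fderiv ℂ g.γ y) = 1 := by
      rw [← fderiv_comp y d2 d1]
      have : gi.γ ∘ g.γ =ᶠ[𝓝 y] id := e1.mono fun x hx => hx.1
      rw [this.fderiv_eq, fderiv_id]
      rfl
    have f2 : ∀ ξ, tr (fderiv ℂ gi.γ (g.γ y)) ξ = g.N y ξ := fun ξ => by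
      have a := (tr_basic (fderiv ℂ gi.γ (g.γ y)) (fderiv ℂ g.γ y)).2.1
      rw [f1, (tr_basic (1 : E n →L[ℂ] E n) 1).1] at a
      have b : tr (fderiv ℂ g.γ y) (tr (fderiv ℂ gi.γ (g.γ y)) ξ) = ξ :=
        (congrArg (fun U : E n →L[ℂ] E n => U ξ) a).symm
      rw [← (pair_inv (hO.pair y hyO)).1 (tr (fderiv ℂ gi.γ (g.γ y)) ξ), b]
    change gi.α (g.γ y) + tr (fderiv ℂ gi.γ (g.γ y)) (g'.α (gi.γ (g.γ y))) = _
    rw [e1.self_of_nhds.2.1, e0, f2, map_sub]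
    abel

/-- Close moments force close heights. -/
theorem clsep_height (h : B.At l y g) (hl : B.lg.sz l ≤ B.lg.ε) {ξ : E n} {δ θ m : ℝ}
    (hδ : δ ≤ 1 / 2) (hm : m < 1 / 2) (hm0 : 0 ≤ m) (hd : ‖piI B.S.Q.I ξ‖ ≤ δ)
    (hr : ‖B.A.r (y, g.α y + ξ) - B.A.r (y, g.α y)‖ ≤ θ)
    (hc : n * (θ + B.A.C * δ) ≤ B.A.c * m) : ‖tauI B.S.Q.I ξ‖ ≤ m := by
  have hp := B.S.G.r_pos
  have hy3 : y ∈ ball B.S.G.y0 (3 / 2 * B.S.G.r) := ball_subset_ball (by linarith) h.1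
  have hT : y ∈ B.S.M.T :=
    B.S.G.sub (ball_subset_closedBall (ball_subset_ball (by linarith) h.1))
  have a := B.A.mon1 l.1 y hy3 g (h.sm hl) _ (reI_mem B.S.Q.I ξ) _ (hd.trans hδ) _
    (tauI_mem B.S.Q.I ξ)
  have e : g.α y + reI B.S.Q.I ξ + piI B.S.Q.I ξ + Complex.I • tauI B.S.Q.I ξ = g.α y + ξ := by
    conv_rhs => rw [split_I B.S.Q.I ξ]
    abel
  rw [e, add_right_comm, B.A.r_RI y hT _ _ (reI_mem B.S.Q.I ξ)] at a
  have b := B.A.r_lip y hT (g.α y) (g.α y + piI B.S.Q.I ξ)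
  rw [sub_add_cancel_left, norm_neg] at b
  have hC := B.A.C_ge
  have c : ‖B.A.r (y, g.α y + ξ) - B.A.r (y, g.α y + piI B.S.Q.I ξ)‖ ≤ θ + B.A.C * δ :=
    (norm_sub_le_norm_sub_add_norm_sub _ _ _).trans (add_le_add hr
      (b.trans (mul_le_mul_of_nonneg_left hd (by linarith))))
  have d := (ip_basic (tauI B.S.Q.I ξ)
    (B.A.r (y, g.α y + ξ) - B.A.r (y, g.α y + piI B.S.Q.I ξ)) 0 0).2.2.2.2.2.1
  by_contra hn
  push Not at hn
  have v0 : 0 < ‖tauI B.S.Q.I ξ‖ := hm0.trans_lt hn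
  have k : m < min ‖tauI B.S.Q.I ξ‖ (1 / 2) := lt_min hn hm
  have k1 : B.A.c * ‖tauI B.S.Q.I ξ‖ * m < B.A.c * ‖tauI B.S.Q.I ξ‖ *
      min ‖tauI B.S.Q.I ξ‖ (1 / 2) := mul_lt_mul_of_pos_left k (mul_pos B.A.c_pos v0)
  have k2 : (n : ℝ) * ‖tauI B.S.Q.I ξ‖ *
      ‖B.A.r (y, g.α y + ξ) - B.A.r (y, g.α y + piI B.S.Q.I ξ)‖ ≤
      n * ‖tauI B.S.Q.I ξ‖ * (θ + B.A.C * δ) := mul_le_mul_of_nonneg_left c (by positivity)
  have k3 := mul_le_mul_of_nonneg_left hc v0.le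
  have k4 := (le_abs_self _).trans d
  nlinarith

theorem sep (B : Big n X) : ∃ δ > (0 : ℝ), ∃ e > (0 : ℝ), e ≤ B.lg.ε ∧ ∀ l l' y,
    B.lg.sz l ≤ e → B.lg.sz l' ≤ e → y ∈ B.Om l → y ∈ B.Om l' → ‖B.bb l y - B.bb l' y‖ ≤ δ →
    ‖B.rho l - B.rho l'‖ ≤ δ → l = l' := by
  obtain ⟨δ0, hδ0, hsep⟩ := B.S.sep
  have hc := B.A.c_pos
  have hC := B.A.C_ge
  have hC0 := B.S.M.C0_ge
  have hL : 1 ≤ B.S.G.lg.L := B.S.G.lg.L_ge
  have hε : 0 < B.S.G.lg.ε := B.S.G.lg.ε_pos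
  have hr := B.S.G.r_pos
  set m : ℝ := min (δ0 / 2) (1 / 4) with hm
  have hm0 : 0 < m := lt_min (by positivity) (by norm_num)
  set t : ℝ := B.A.c * m / (2 * (n + 1)) with ht
  have ht0 : 0 < t := by positivity
  have hu : UniformContinuousOn (fun x : E n => B.A.r (x, 0)) (closedBall B.S.G.y0 (4 * B.S.G.r)) :=
    (isCompact_closedBall _ _).uniformContinuousOn_of_continuous
      (B.A.r_smooth.continuousOn.comp (by fun_prop) fun x hx => ⟨B.S.G.sub hx, trivial⟩)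
  obtain ⟨ρ, hρ, hu⟩ := Metric.uniformContinuousOn_iff.1 hu t ht0
  refine ⟨min (min (1 / 2) (δ0 / (2 * B.S.M.C0))) (t / (1 + B.A.C)), by positivity,
    min (B.S.G.lg.ε / (2 * B.S.G.lg.L ^ 2)) (ρ / (4 * B.S.G.lg.L)), by positivity, ?_, ?_⟩
  · refine (min_le_left _ _).trans (div_le_self hε.le ?_)
    nlinarith
  set δ := min (min (1 / 2) (δ0 / (2 * B.S.M.C0))) (t / (1 + B.A.C)) with hδ
  set e := min (B.S.G.lg.ε / (2 * B.S.G.lg.L ^ 2)) (ρ / (4 * B.S.G.lg.L)) with he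
  have e0 : 0 < e := by positivity
  have e1 : 2 * B.S.G.lg.L ^ 2 * e ≤ B.S.G.lg.ε := by
    have := (le_div_iff₀ (by positivity)).1 (min_le_left _ _ : e ≤ _)
    linarith
  have e2 : 4 * B.S.G.lg.L * e ≤ ρ := by
    have := (le_div_iff₀ (by positivity)).1 (min_le_right _ _ : e ≤ _)
    linarith
  have e3 : B.S.G.lg.L * e ≤ B.S.G.lg.L ^ 2 * e := by
    refine mul_le_mul_of_nonneg_right ?_ e0.le
    nlinarith
  have e4 : e ≤ B.S.G.lg.L * e := le_mul_of_one_le_left e0.le hL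
  have d1 : δ ≤ 1 / 2 := (min_le_left _ _).trans (min_le_left _ _)
  have d2 : B.S.M.C0 * δ ≤ δ0 / 2 := by
    have := (le_div_iff₀ (by positivity)).1 ((min_le_left _ _).trans (min_le_right _ _) : δ ≤ _)
    linarith
  have d3 : δ + B.A.C * δ ≤ t := by
    have := (le_div_iff₀ (by positivity)).1 (min_le_right _ _ : δ ≤ _)
    linarith
  rintro l l' y hl hl' ⟨g, h⟩ ⟨g', h'⟩ hb hρ'
  have sl : B.S.G.lg.sz l.1 ≤ e := hl
  have sl' : B.S.G.lg.sz l'.1 ≤ e := hl'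
  have kl : B.S.G.lg.sz l.1 ≤ B.S.G.lg.ε := by linarith
  have kl' : B.S.G.lg.sz l'.1 ≤ B.S.G.lg.ε := by linarith
  have m1 : B.S.G.lg.L * B.S.G.lg.sz l.1 ≤ B.S.G.lg.L * e :=
    mul_le_mul_of_nonneg_left sl (by linarith)
  have m2 : B.S.G.lg.L * B.S.G.lg.sz l'.1 ≤ B.S.G.lg.L * e :=
    mul_le_mul_of_nonneg_left sl' (by linarith)
  have si : B.S.G.lg.sz (B.S.G.lg.inv l.1) ≤ B.S.G.lg.L * e :=
    (B.S.G.lg.basic kl kl).2.2.2.2.1.trans m1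
  have ki : B.S.G.lg.sz (B.S.G.lg.inv l.1) ≤ B.S.G.lg.ε := by linarith
  have km : B.S.G.lg.sz (B.S.G.lg.mul l'.1 (B.S.G.lg.inv l.1)) ≤ B.S.G.lg.ε := by
    have a := (B.S.G.lg.basic kl' ki).2.2.1
    have b := mul_le_mul_of_nonneg_left si (by linarith : 0 ≤ B.S.G.lg.L)
    nlinarith
  have hy := h.1
  have hy2 : y ∈ ball B.S.G.y0 (2 * B.S.G.r) := ball_subset_ball (by linarith) hy
  have n1 := (B.S.G.near l.1 kl y hy2).1
  have n2 := (B.S.G.near l'.1 kl' y hy2).1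
  have sm := B.S.G.small.trans (min_le_left _ _)
  have sm2 : B.S.G.lg.ε ≤ B.S.G.lg.L * B.S.G.lg.ε := le_mul_of_one_le_left hε.le hL
  have cb : ∀ z : E n, ‖z - y‖ ≤ B.S.G.lg.L * e → z ∈ closedBall B.S.G.y0 (4 * B.S.G.r) :=
    fun z hz => by
      rw [mem_ball, dist_eq_norm] at hy
      rw [mem_closedBall, dist_eq_norm]
      have := norm_sub_le_norm_sub_add_norm_sub z y B.S.G.y0
      linarith
  have u := hu _ (cb _ (n2.trans m2)) _ (cb _ (n1.trans m1)) (by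
    rw [dist_eq_norm]
    have := norm_sub_le_norm_sub_add_norm_sub (B.S.G.γ l'.1 y) y (B.S.G.γ l.1 y)
    rw [norm_sub_rev y] at this
    linarith)
  rw [dist_eq_norm] at u
  have hd : ‖piI B.S.Q.I (g'.α y - g.α y)‖ ≤ δ := by
    rw [map_sub, ← h.bt.self_of_nhds.2.1, ← h'.bt.self_of_nhds.2.1, norm_sub_rev]
    exact hb
  have hv : ‖tauI B.S.Q.I (g'.α y - g.α y)‖ ≤ m := by
    refine clsep_height h kl (θ := t + δ) d1 ((min_le_right _ _).trans_lt (by norm_num)) hm0.le hd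
      ?_ ?_
    · rw [add_sub_cancel, h.mom0, h'.mom0]
      have : B.A.r (B.S.G.γ l'.1 y, 0) - B.rho l' - (B.A.r (B.S.G.γ l.1 y, 0) - B.rho l) =
          B.A.r (B.S.G.γ l'.1 y, 0) - B.A.r (B.S.G.γ l.1 y, 0) + (B.rho l - B.rho l') := by abel
      rw [this]
      exact (norm_add_le _ _).trans (add_le_add u.le hρ')
    · have a : 2 * (n + 1) * t = B.A.c * m := by
        rw [ht]
        field_simp
      have b : (0 : ℝ) ≤ n := Nat.cast_nonneg n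
      nlinarith
  obtain ⟨h1, k, hk, hkγ, hkα⟩ := clsep_quot h h' kl kl' ki
  obtain ⟨hg, hγ, hF⟩ := h.germ
  obtain ⟨hg', hγ', hF'⟩ := h'.germ
  have hN : ∀ s, piI B.S.Q.I s = 0 → g.N y s = s := fun s hs => by
    rw [hγ.self_of_nhds.2]
    exact ((h.fix kl).2 y hy2 s hs).1
  obtain ⟨j1, s, hs, hks⟩ := hsep _ km _ h1 k hk hkγ ⟨_, reI_mem B.S.Q.I (g'.α y - g.α y), by
    obtain ⟨O, hO, hyO⟩ := hg
    have a := (B.S.M.bd O g hO y hyO).2.1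
    rw [hkα]
    conv_lhs => arg 1; arg 1; rw [split_I B.S.Q.I (g'.α y - g.α y)]
    rw [map_add, map_add, hN _ (RI.proj (reI_mem _ _)).1, hN _ (RI.proj (tauI_mem _ _)).2.2.2.1,
      add_assoc, add_sub_cancel_left]
    refine (norm_add_le _ _).trans ?_
    rw [norm_smul, Complex.norm_I, one_mul]
    have b := ((g.N y).le_opNorm _).trans
      (mul_le_mul a hd (norm_nonneg _) (by linarith))
    have c : m ≤ δ0 / 2 := min_le_left _ _
    linarith⟩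
  have q : l'.1 = l.1 := by
    have a := B.S.G.lg.assoc l'.1 (B.S.G.lg.inv l.1) l.1 kl' ki kl
    rw [j1, B.S.G.lg.one_mul _ kl, B.S.G.lg.inv_mul _ kl, B.S.G.lg.mul_one _ kl'] at a
    exact a.symm
  refine Prod.ext q.symm (funext fun i => ?_)
  have hT : g.γ y ∈ B.S.M.T :=
    B.S.G.sub (ball_subset_closedBall (ball_subset_ball (by linarith) h1))
  rw [← hF.self_of_nhds i 0, ← hF'.self_of_nhds i 0]
  have a : g'.γ y = g.γ y := by rw [hγ'.self_of_nhds.1, hγ.self_of_nhds.1, q]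
  have b : g'.N y = g.N y := by rw [hγ'.self_of_nhds.2, hγ.self_of_nhds.2, q]
  have c : g.N y (0 - g.α y) = g.N y (0 - g'.α y) + s := by
    have c' : s = g.N y (g'.α y - g.α y) := hks.self_of_nhds.symm.trans hkα
    rw [c', ← map_add]
    congr 1
    abel
  simp only [Ret.act]
  rw [a, b, c, B.H.zinv i s hs _ hT]

end Big

end Pool.Agent.CL
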