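import Pool.Agent.K.MP_63735c_ag.C28

/-! Richness: many returns whose derivative is close to the identity. -/

open scoped ContDiff Matrix ENNReal
open Set Metric MeasureTheory Filter Topology

namespace Pool.Agent.CL

open Pool.Agent.SPF

variable {n : ℕ} {X : Type} [TopologicalSpace X] [T2Space X] [MeasurableSpace X]

/-- The values at `y` of the returns into `V` with derivative `e`-close to the identity. -/
def Near (M : Model n X) (V : Set (E n)) (e R : ℝ) (y : E n) : Set (E n) :=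
  {ξ | ‖ξ‖ ≤ R ∧ ∃ g, Germ M.T M.Ψ y g ∧ g.α y = ξ ∧ g.γ y ∈ V ∧ ‖fderiv ℂ g.γ y - 1‖ < e}

omit [T2Space X] in
lemma clrich_mult (M : Model n X) : ∃ c : ℝ≥0∞, c ≠ ⊤ ∧ ∀ K B : Set (P n), IsCompact K →
    (∀ p ∈ K, p.1 ∈ M.T) → B ⊆ K → MeasurableSet B → ∀ L : ℝ≥0∞,
    (∀ x, ∀ S : Finset (P n), (∀ p ∈ S, p ∈ B ∧ M.Ψ p = x) → (S.card : ℝ≥0∞) ≤ L) →
    volume B ≤ c * L := by
  classical
  obtain ⟨c, hc, hv⟩ := M.vol
  have := M.fin
  refine ⟨c * M.μ univ, ENNReal.mul_ne_top hc (measure_ne_top _ _), fun K B hK hKT hBK hB L hL => ?_⟩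
  choose! O hO hwO hinj hvol using hv
  obtain ⟨t, htK, hcov⟩ := hK.elim_nhds_subcover O fun w hw => (hO w (hKT w hw)).mem_nhds
    (hwO w (hKT w hw))
  set m := t.card
  set w : Fin m → P n := fun i => (t.equivFin.symm i : P n) with hw
  have hwT : ∀ i, (w i).1 ∈ M.T := fun i => hKT _ (htK _ (t.equivFin.symm i).2)
  set W : Fin m → Set (P n) := fun i => B ∩ disjointed (fun i => O (w i)) i with hW
  have hWm : ∀ i, MeasurableSet (W i) := fun i =>
    hB.inter (disjointedRec (p := MeasurableSet) (f := fun i => O (w i))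
      (fun _ j hs => hs.diff (hO _ (hwT j)).measurableSet) (hO _ (hwT i)).measurableSet)
  have hWO : ∀ i, W i ⊆ O (w i) := fun i => inter_subset_right.trans (disjointed_subset _ i)
  have hBW : B ⊆ ⋃ i, W i := by
    intro p hp
    obtain ⟨a, ha, hpa⟩ := mem_iUnion₂.1 (hcov (hBK hp))
    have h1 : p ∈ ⋃ i, O (w i) := mem_iUnion.2 ⟨t.equivFin ⟨a, ha⟩, by simpa [hw] using hpa⟩
    rw [← iUnion_disjointed] at h1
    obtain ⟨i, hi⟩ := mem_iUnion.1 h1
    exact mem_iUnion.2 ⟨i, hp, hi⟩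
  have hm : ∀ i, MeasurableSet (M.Ψ '' W i) := fun i => (hvol _ (hwT i) _ (hWO i) (hWm i)).1
  calc volume B ≤ ∑ i, volume (W i) := (measure_mono hBW).trans (measure_iUnion_fintype_le _ _)
    _ = c * ∑ i, M.μ (M.Ψ '' W i) := by
        rw [Finset.mul_sum]
        exact Finset.sum_congr rfl fun i _ => (hvol _ (hwT i) _ (hWO i) (hWm i)).2
    _ = c * ∫⁻ x, ∑ i, (M.Ψ '' W i).indicator 1 x ∂M.μ := by
        rw [lintegral_finsetSum _ fun i _ => measurable_one.indicator (hm i)]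
        simp only [lintegral_indicator_one (hm _)]
    _ ≤ c * ∫⁻ _, L ∂M.μ := by
        refine mul_le_mul_right (lintegral_mono fun x => ?_) _
        have h1 : ∀ i, ∃ q, x ∈ M.Ψ '' W i → q ∈ W i ∧ M.Ψ q = x := fun i => by
          by_cases h : x ∈ M.Ψ '' W i
          · obtain ⟨q, hq⟩ := h
            exact ⟨q, fun _ => hq⟩
          · exact ⟨0, fun h' => absurd h' h⟩
        choose q hq using h1
        set J := Finset.univ.filter fun i => x ∈ M.Ψ '' W i with hJ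
        have hJm : ∀ i ∈ J, x ∈ M.Ψ '' W i := fun i hi => (Finset.mem_filter.1 hi).2
        have h2 : (J.image q).card = J.card := Finset.card_image_of_injOn fun i hi j hj hij => by
          by_contra hne
          exact disjoint_left.1 (disjoint_disjointed (fun i => O (w i)) hne)
            (hq i (hJm i hi)).1.2 (hij ▸ (hq j (hJm j hj)).1.2)
        have h3 := hL x (J.image q) fun p hp => by
          obtain ⟨i, hi, rfl⟩ := Finset.mem_image.1 hp
          exact ⟨(hq i (hJm i hi)).1.1, (hq i (hJm i hi)).2⟩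
        rw [h2] at h3
        refine le_trans (le_of_eq ?_) h3
        simp only [indicator, Pi.one_apply, Finset.sum_boole, hJ]
    _ = c * M.μ univ * L := by rw [lintegral_const, mul_comm L, mul_assoc]

lemma clrich_pair (M : Model n X) {y : E n} {g g' : Ret n} (hg : Germ M.T M.Ψ y g)
    (hg' : Germ M.T M.Ψ y g') (ξ : E n) : ∃ h, Germ M.T M.Ψ (g.γ y) h ∧
      h.act (g.act (y, ξ)) = g'.act (y, ξ) ∧
      ‖fderiv ℂ h.γ (g.γ y) - 1‖ ≤ M.C0 * ‖fderiv ℂ g'.γ y - fderiv ℂ g.γ y‖ := by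
  obtain ⟨k, hk, h1, h2⟩ := M.inv hg
  have e1 : k.γ (g.γ y) = y := h1.self_of_nhds.1
  have hc := hk.comp (h := g') (by rw [e1]; exact hg')
  refine ⟨g'.comp k, hc.1, ?_, ?_⟩
  · have h3 := hc.2.self_of_nhds (g.act (y, ξ)).2
    have h4 := h1.self_of_nhds.2.2 ξ
    change (g'.comp k).act (g.act (y, ξ)) = g'.act (k.act (g.act (y, ξ))) at h3
    rw [h3, h4]
  · obtain ⟨O, hO, hy⟩ := hg
    obtain ⟨O', hO', hy'⟩ := hg'
    obtain ⟨Ok, hOk, hyk⟩ := hk
    have d1 := hO.γ_hol.differentiableAt (hO.isOpen.mem_nhds hy)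
    have d2 := hO'.γ_hol.differentiableAt (hO'.isOpen.mem_nhds hy')
    have d3 := hOk.γ_hol.differentiableAt (hOk.isOpen.mem_nhds hyk)
    have c1 : fderiv ℂ (g'.comp k).γ (g.γ y) = (fderiv ℂ g'.γ y).comp (fderiv ℂ k.γ (g.γ y)) := by
      have := fderiv_comp (g.γ y) (g := g'.γ) (f := k.γ) (by rw [e1]; exact d2) d3
      rw [e1] at this
      exact this
    have c2 : (fderiv ℂ g.γ y).comp (fderiv ℂ k.γ (g.γ y)) = 1 := by
      have := fderiv_comp (g.γ y) (g := g.γ) (f := k.γ) (by rw [e1]; exact d1) d3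
      rw [e1] at this
      rw [← this]
      have h5 : g.γ ∘ k.γ =ᶠ[𝓝 (g.γ y)] id := h2.mono fun x hx => hx.1
      rw [h5.fderiv_eq, fderiv_id]
      rfl
    rw [c1, ← c2, ← ContinuousLinearMap.sub_comp, mul_comm]
    exact (ContinuousLinearMap.opNorm_comp_le _ _).trans
      (mul_le_mul_of_nonneg_left (M.bd _ _ hOk _ hyk).1 (norm_nonneg _))

omit [T2Space X] in
lemma clrich_alpha (M : Model n X) {p : P n} {h : Ret n} (hh : Germ M.T M.Ψ p.1 h) :
    ‖h.α p.1‖ ≤ ‖p.2‖ + M.C0 * ‖(h.act p).2‖ := by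
  obtain ⟨O, hO, hy⟩ := hh
  have h1 := (pair_inv (hO.pair _ hy)).2.1 (p.2 - h.α p.1)
  have h2 : h.α p.1 = p.2 - tr (fderiv ℂ h.γ p.1) (h.act p).2 := by
    rw [show (h.act p).2 = h.N p.1 (p.2 - h.α p.1) from rfl, h1, sub_sub_cancel]
  rw [h2]
  exact (norm_sub_le _ _).trans (add_le_add le_rfl ((ContinuousLinearMap.le_opNorm _ _).trans
    (mul_le_mul_of_nonneg_right (M.bd _ _ hO _ hy).2.2 (norm_nonneg _))))

lemma clrich_fibre (M : Model n X) {e : ℝ} (he : 0 < e) : ∃ m : ℕ, ∀ (V : Set (E n)) (R : ℝ)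
    (L : ℝ≥0∞) (x : X) (S : Finset (P n)), V ⊆ M.T → (∀ p ∈ S, p.1 ∈ V ∧ ‖p.2‖ ≤ R ∧ M.Ψ p = x ∧
      ∀ A : Finset (E n), ↑A ⊆ Near M V e ((1 + M.C0) * R) p.1 → (A.card : ℝ≥0∞) ≤ L) →
    (S.card : ℝ≥0∞) ≤ m * L := by
  classical
  have : Nonempty (Ret n) := ⟨Ret.per fun _ => 0⟩
  have hC : 0 < M.C0 := zero_lt_one.trans_le M.C0_ge
  obtain ⟨F, -, hF⟩ := (isCompact_closedBall (0 : E n →L[ℂ] E n) M.C0).elim_nhds_subcover
    (fun f => ball f (e / (2 * M.C0))) fun f _ => ball_mem_nhds f (by positivity)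
  refine ⟨F.card, fun V R L x S hV hS => ?_⟩
  rcases S.eq_empty_or_nonempty with rfl | ⟨p, hp⟩
  · simp
  have h1 : ∀ q ∈ S, ∃ g, Germ M.T M.Ψ p.1 g ∧ g.act p = q := fun q hq =>
    M.ret p q (hV (hS p hp).1) (hV (hS q hq).1) ((hS p hp).2.2.1.trans (hS q hq).2.2.1.symm)
  choose! g hg hgq using h1
  have h2 : ∀ q ∈ S, ∃ f ∈ F, fderiv ℂ (g q).γ p.1 ∈ ball f (e / (2 * M.C0)) := fun q hq => by
    obtain ⟨O, hO, hy⟩ := hg q hq
    simpa only [exists_prop] using mem_iUnion₂.1 (hF (mem_closedBall_zero_iff.2 (M.bd _ _ hO _ hy).1))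
  choose! col hcol hball using h2
  rw [Finset.card_eq_sum_card_fiberwise (f := col) (t := F) fun q hq => hcol q hq, Nat.cast_sum]
  refine (Finset.sum_le_card_nsmul _ _ L fun f _ => ?_).trans (le_of_eq (nsmul_eq_mul _ _))
  set S' := S.filter fun q => col q = f
  rcases S'.eq_empty_or_nonempty with h0 | ⟨q, hq⟩
  · simp [h0]
  obtain ⟨hqS, hqf⟩ := Finset.mem_filter.1 hq
  have e1 : (g q).γ p.1 = q.1 := congrArg Prod.fst (hgq q hqS)
  have h3 : ∀ q' ∈ S', ∃ h, Germ M.T M.Ψ q.1 h ∧ h.act q = q' ∧ ‖fderiv ℂ h.γ q.1 - 1‖ < e := by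
    intro q' hq'
    obtain ⟨hq'S, hq'f⟩ := Finset.mem_filter.1 hq'
    obtain ⟨h, a1, a2, a3⟩ := clrich_pair M (hg q hqS) (hg q' hq'S) p.2
    rw [e1] at a1 a3
    rw [hgq q hqS, hgq q' hq'S] at a2
    refine ⟨h, a1, a2, a3.trans_lt ?_⟩
    have b1 := hball q hqS
    have b2 := hball q' hq'S
    rw [hqf, mem_ball, lt_div_iff₀ (by positivity)] at b1
    rw [hq'f, mem_ball, lt_div_iff₀ (by positivity)] at b2
    have b3 := mul_le_mul_of_nonneg_left (dist_triangle_right (fderiv ℂ (g q').γ p.1)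
      (fderiv ℂ (g q).γ p.1) f) hC.le
    rw [← dist_eq_norm]
    linarith
  choose! h hh hhq hhe using h3
  have h4 : (S'.image fun q' => (h q').α q.1).card = S'.card :=
    Finset.card_image_of_injOn fun a ha b hb hab => by
      have hab' : (h a).α q.1 = (h b).α q.1 := hab
      have := (M.sep0 (hh a ha) (hh b hb) (by
        rw [hab', sub_self, norm_zero, mul_zero]; linarith [M.c0_pos])).self_of_nhds
      rw [← hhq a ha, ← hhq b hb, Ret.act, Ret.act, this.1, this.2.1, this.2.2]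
  rw [← h4]
  refine (hS q hqS).2.2.2 _ fun ξ hξ => ?_
  obtain ⟨a, ha, rfl⟩ := Finset.mem_image.1 (Finset.mem_coe.1 hξ)
  have haS := hS a (Finset.mem_filter.1 ha).1
  refine ⟨?_, h a, hh a ha, rfl, ?_, hhe a ha⟩
  · have b1 := clrich_alpha M (hh a ha)
    rw [hhq a ha] at b1
    have b2 := mul_le_mul_of_nonneg_left haS.2.1 hC.le
    linarith [(hS q hqS).2.1]
  · rw [show (h a).γ q.1 = a.1 from congrArg Prod.fst (hhq a ha)]
    exact haS.1

/-- Richness. -/
theorem rich (M : Model n X) {V : Set (E n)} (hV : IsOpen V) (hne : V.Nonempty) (hT : V ⊆ M.T)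
    {e : ℝ} (he : 0 < e) : ∃ c > (0 : ℝ), ∀ R > (0 : ℝ), ∀ N : E n → ℝ≥0∞, Measurable N →
      (∀ y ∈ V, ∀ A : Finset (E n), ↑A ⊆ Near M V e R y → (A.card : ℝ≥0∞) ≤ N y) →
      ENNReal.ofReal (c * R ^ (2 * n)) ≤ ∫⁻ y in V, N y := by
  obtain ⟨y0, hy0⟩ := hne
  obtain ⟨ρ, hρ, hb⟩ := Metric.nhds_basis_closedBall.mem_iff.1 (hV.mem_nhds hy0)
  obtain ⟨c, hc, hmul⟩ := clrich_mult M
  obtain ⟨m, hm⟩ := clrich_fibre M he
  have hC : 0 < M.C0 := zero_lt_one.trans_le M.C0_ge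
  set a := (volume (closedBall y0 ρ)).toReal with ha
  set b := (volume (ball (0 : E n) 1)).toReal with hbd
  set d := (c * m).toReal + 1 with hd
  have fa : volume (closedBall y0 ρ) ≠ ⊤ := measure_closedBall_lt_top.ne
  have ha0 : 0 < a := ENNReal.toReal_pos (measure_closedBall_pos _ _ hρ).ne' fa
  have hb0 : 0 < b := ENNReal.toReal_pos (measure_ball_pos _ _ one_pos).ne' measure_ball_lt_top.ne
  have hd0 : 0 < d := by positivity
  refine ⟨a / 2 * (a * b / (2 * d)) / (1 + M.C0) ^ (2 * n), by positivity, fun R hR N hN h => ?_⟩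
  set R' := R / (1 + M.C0) with hR'
  have hR0 : 0 < R' := by positivity
  set L := a * b / (2 * d) * R' ^ (2 * n) with hL
  have hL0 : 0 < L := by positivity
  set B := closedBall y0 ρ ∩ {y | N y ≤ ENNReal.ofReal L} with hB
  have hBm : MeasurableSet B := measurableSet_closedBall.inter (hN measurableSet_Iic)
  have h1 := hmul (closedBall y0 ρ ×ˢ closedBall 0 R') (B ×ˢ closedBall 0 R')
    ((isCompact_closedBall _ _).prod (isCompact_closedBall _ _)) (fun p hp => hT (hb hp.1))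
    (prod_mono inter_subset_left subset_rfl) (hBm.prod measurableSet_closedBall)
    (m * ENNReal.ofReal L) fun x S hS => hm V R' _ x S hT fun p hp =>
      ⟨hb (hS p hp).1.1.1, mem_closedBall_zero_iff.1 (hS p hp).1.2, (hS p hp).2, fun A hA =>
        (h _ (hb (hS p hp).1.1.1) A (by
          rwa [hR', mul_div_cancel₀ _ (by positivity)] at hA)).trans (hS p hp).1.1.2⟩
  have hf : Module.finrank ℝ (E n) = 2 * n := by
    simp [Module.finrank_pi_fintype, mul_comm]
  have fB : volume B ≠ ⊤ := ne_top_of_le_ne_top fa (measure_mono inter_subset_left)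
  rw [Measure.volume_eq_prod, Measure.prod_prod, Measure.addHaar_closedBall _ _ hR0.le, hf,
    ← mul_assoc c] at h1
  have h2 := ENNReal.toReal_mono (ENNReal.mul_ne_top (ENNReal.mul_ne_top hc
    (ENNReal.natCast_ne_top m)) ENNReal.ofReal_ne_top) h1
  rw [ENNReal.toReal_mul, ENNReal.toReal_mul, ENNReal.toReal_mul (a := c * m),
    ENNReal.toReal_ofReal (by positivity), ENNReal.toReal_ofReal hL0.le, ← hbd] at h2
  have h3 : (volume B).toReal ≤ a / 2 := by
    have h4 : (c * m).toReal * L ≤ d * L := mul_le_mul_of_nonneg_right (by linarith) hL0.le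
    have h5 : d * L = a / 2 * (R' ^ (2 * n) * b) := by rw [hL]; field_simp
    exact le_of_mul_le_mul_right (h2.trans (h4.trans h5.le)) (by positivity)
  have h6 : ENNReal.ofReal (a / 2) ≤ volume (closedBall y0 ρ \ B) := by
    rw [measure_sdiff inter_subset_left hBm.nullMeasurableSet fB, ← ENNReal.ofReal_toReal fa,
      ← ENNReal.ofReal_toReal fB, ← ENNReal.ofReal_sub _ ENNReal.toReal_nonneg]
    exact ENNReal.ofReal_le_ofReal (by linarith)
  calc ENNReal.ofReal (a / 2 * (a * b / (2 * d)) / (1 + M.C0) ^ (2 * n) * R ^ (2 * n))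
      = ENNReal.ofReal L * ENNReal.ofReal (a / 2) := by
        rw [← ENNReal.ofReal_mul hL0.le, hL, hR', div_pow]
        congr 1
        ring
    _ ≤ ∫⁻ _ in closedBall y0 ρ \ B, ENNReal.ofReal L := by
        rw [setLIntegral_const]
        exact mul_le_mul_right h6 _
    _ ≤ ∫⁻ y in closedBall y0 ρ \ B, N y :=
        setLIntegral_mono hN fun y hy => (not_le.1 fun h' => hy.2 ⟨hy.1, h'⟩).le
    _ ≤ ∫⁻ y in V, N y := lintegral_mono_set (sdiff_subset.trans hb)

end Pool.Agent.CL
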