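import Pool.Agent.K.MP_63735c_ag.C79
import Pool.Agent.K.MP_63735c_ag.C71

/-! Mean energy on discs, selection of a centre, and spreading of separated labels. -/

open scoped ContDiff Matrix ENNReal
open Set Metric MeasureTheory Filter Topology

namespace Pool.Agent.CL

open Pool.Agent.SPF

namespace Big

lemma cenb_shift {n : ℕ} (φ : E n → ℝ≥0∞) (y0 w : E n) {eps : ℝ} (hw : ‖w‖ ≤ eps) :
    ∫⁻ y in ball y0 eps, φ (y + w) ≤ ∫⁻ x in ball y0 (2 * eps), φ x := by
  rw [← lintegral_indicator measurableSet_ball, ← lintegral_indicator measurableSet_ball,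
    ← lintegral_add_right_eq_self ((ball y0 (2 * eps)).indicator φ) w]
  refine lintegral_mono fun y => ?_
  by_cases hy : y ∈ ball y0 eps
  · have h2 : y + w ∈ ball y0 (2 * eps) := by
      rw [mem_ball, dist_eq_norm] at hy ⊢
      have : y + w - y0 = (y - y0) + w := by abel
      rw [this]
      linarith [norm_add_le (y - y0) w]
    simp only [indicator_of_mem hy, indicator_of_mem h2, le_refl]
  · simp only [indicator_of_notMem hy, zero_le]

lemma cenb_avg {n : ℕ} {φ : E n → ℝ≥0∞} (hφ : Measurable φ) (y0 : E n) {eps s : ℝ} (hs : 0 < s)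
    (hse : s ≤ eps) :
    (Measurable fun y => ∫⁻ u in ball (0 : E n) 1, ∫⁻ t in ball (0 : ℂ) 1, φ (y + (t * s) • u)) ∧
    ∫⁻ y in ball y0 eps, ∫⁻ u in ball (0 : E n) 1, ∫⁻ t in ball (0 : ℂ) 1, φ (y + (t * s) • u) ≤
      volume (ball (0 : E n) 1) * volume (ball (0 : ℂ) 1) * ∫⁻ x in ball y0 (2 * eps), φ x := by
  have h3 : Measurable fun q : (E n × E n) × ℂ => φ (q.1.1 + (q.2 * s) • q.1.2) :=
    hφ.comp (Continuous.measurable (by fun_prop))
  have h2 : Measurable fun q : E n × E n => ∫⁻ t in ball (0 : ℂ) 1, φ (q.1 + (t * s) • q.2) :=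
    h3.lintegral_prod_right'
  refine ⟨h2.lintegral_prod_right', ?_⟩
  rw [lintegral_lintegral_swap h2.aemeasurable]
  calc ∫⁻ u in ball (0 : E n) 1, ∫⁻ y in ball y0 eps, ∫⁻ t in ball (0 : ℂ) 1, φ (y + (t * s) • u)
      ≤ ∫⁻ _ in ball (0 : E n) 1, volume (ball (0 : ℂ) 1) * ∫⁻ x in ball y0 (2 * eps), φ x := by
        refine setLIntegral_mono' measurableSet_ball fun u hu => ?_
        have h4 : Measurable fun q : E n × ℂ => φ (q.1 + (q.2 * s) • u) :=
          hφ.comp (Continuous.measurable (by fun_prop))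
        rw [lintegral_lintegral_swap h4.aemeasurable, mul_comm, ← setLIntegral_const]
        refine setLIntegral_mono' measurableSet_ball fun t ht => cenb_shift φ y0 _ ?_
        rw [mem_ball_zero_iff] at hu ht
        rw [norm_smul, norm_mul, Complex.norm_real, Real.norm_of_nonneg hs.le]
        have h5 : ‖t‖ * s ≤ s := mul_le_of_le_one_left hs.le ht.le
        have h6 : ‖t‖ * s * ‖u‖ ≤ ‖t‖ * s := mul_le_of_le_one_right (by positivity) hu.le
        linarith
    _ = _ := by rw [setLIntegral_const]; ring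

theorem el_int (n : ℕ) : ∃ K ≥ (0 : ℝ), ∀ (X : Type) [TopologicalSpace X] [T2Space X]
    [MeasurableSpace X] (B : Big n X) (l : B.Lab) (eps s R : ℝ), 0 < s → s ≤ eps →
    Measurable (fun y => B.el l y s R) ∧ ∫⁻ y in ball B.S.G.y0 eps, B.el l y s R ≤
      ENNReal.ofReal (K * s ^ 2) * B.En l (2 * eps) R := by
  refine ⟨(volume (ball (0 : E n) 1) * volume (ball (0 : ℂ) 1)).toReal, ENNReal.toReal_nonneg, ?_⟩
  intro X _ _ _ B l eps s R hs hse
  have hU : MeasurableSet {x | x ∈ B.Om l ∧ ‖B.bb l x‖ < R} :=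
    ((bb_hol l).continuousOn.norm.isOpen_inter_preimage (isOpen_Om l) isOpen_Iio).measurableSet
  have hD : Measurable fun x => ‖fderiv ℂ (B.bb l) x‖ ^ 2 :=
    (measurable_fderiv ℂ (B.bb l)).norm.pow_const 2
  have hφ : Measurable ({x | x ∈ B.Om l ∧ ‖B.bb l x‖ < R}.indicator
      fun x => ENNReal.ofReal (s ^ 2 * ‖fderiv ℂ (B.bb l) x‖ ^ 2)) :=
    (hD.const_mul _).ennreal_ofReal.indicator hU
  obtain ⟨h1, h2⟩ := cenb_avg hφ B.S.G.y0 hs hse
  refine ⟨h1, h2.trans (le_of_eq ?_)⟩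
  have hfin : volume (ball (0 : E n) 1) * volume (ball (0 : ℂ) 1) ≠ ⊤ :=
    ENNReal.mul_ne_top measure_ball_lt_top.ne measure_ball_lt_top.ne
  rw [ENNReal.ofReal_mul ENNReal.toReal_nonneg, ENNReal.ofReal_toReal hfin, mul_assoc _ _ (En _ _ _ _)]
  congr 1
  rw [lintegral_indicator hU, Measure.restrict_restrict hU, En,
    ← lintegral_const_mul _ hD.ennreal_ofReal, inter_comm]
  refine lintegral_congr fun x => ?_
  rw [ENNReal.ofReal_mul (sq_nonneg s)]

theorem select {n : ℕ} {ι : Type} (Q : Finset ι) (V : Set (E n)) (M : ι → Set (E n))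
    (f : ι → E n → ℝ≥0∞) (hV : MeasurableSet V) (hMV : ∀ l ∈ Q, M l ⊆ V)
    (hM : ∀ l ∈ Q, MeasurableSet (M l)) (hf : ∀ l ∈ Q, Measurable (f l)) (hvol : volume V ≠ ⊤)
    {t G F : ℝ} (ht : 0 < t) (hG : 0 ≤ G) (hF : 0 ≤ F)
    (h1 : ∑ l ∈ Q, ∫⁻ y in V, f l y ≤ ENNReal.ofReal F)
    (h2 : t * G * (volume V).toReal + F < t * ∑ l ∈ Q, (volume (M l)).toReal) :
    ∃ y ∈ V, ∃ Q' ⊆ Q, G < Q'.card ∧ ∀ l ∈ Q', y ∈ M l ∧ f l y ≤ ENNReal.ofReal t := by
  classical
  by_contra hne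
  have hp : ∀ y ∈ V, ∑ l ∈ Q, (M l).indicator (fun _ => ENNReal.ofReal t) y ≤
      ENNReal.ofReal t * ENNReal.ofReal G + ∑ l ∈ Q, f l y := by
    intro y hy
    have hc : (((Q.filter fun l => y ∈ M l ∧ f l y ≤ ENNReal.ofReal t).card : ℕ) : ℝ) ≤ G := by
      by_contra hlt
      exact hne ⟨y, hy, _, Finset.filter_subset _ _, not_le.1 hlt,
        fun l hl => (Finset.mem_filter.1 hl).2⟩
    calc ∑ l ∈ Q, (M l).indicator (fun _ => ENNReal.ofReal t) y
        ≤ ∑ l ∈ Q, ((if y ∈ M l ∧ f l y ≤ ENNReal.ofReal t then ENNReal.ofReal t else 0) +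
            f l y) := by
          refine Finset.sum_le_sum fun l _ => ?_
          by_cases h : y ∈ M l
          · rw [indicator_of_mem h]
            by_cases h' : f l y ≤ ENNReal.ofReal t
            · rw [if_pos ⟨h, h'⟩]; exact le_self_add
            · exact (not_le.1 h').le.trans le_add_self
          · rw [indicator_of_notMem h]; exact zero_le
      _ ≤ _ := by
          rw [Finset.sum_add_distrib, ← Finset.sum_filter, Finset.sum_const, nsmul_eq_mul, mul_comm]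
          gcongr
          rw [← ENNReal.ofReal_natCast]
          exact ENNReal.ofReal_le_ofReal hc
  have hi := setLIntegral_mono' (μ := volume) hV hp
  rw [lintegral_finsetSum _ fun l hl => measurable_const.indicator (hM l hl),
    lintegral_add_left measurable_const, lintegral_finsetSum _ hf, setLIntegral_const] at hi
  have he : ∑ l ∈ Q, ∫⁻ y in V, (M l).indicator (fun _ => ENNReal.ofReal t) y =
      ENNReal.ofReal (t * ∑ l ∈ Q, (volume (M l)).toReal) := by
    rw [ENNReal.ofReal_mul ht.le, ENNReal.ofReal_sum_of_nonneg fun _ _ => ENNReal.toReal_nonneg,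
      Finset.mul_sum]
    refine Finset.sum_congr rfl fun l hl => ?_
    rw [lintegral_indicator (hM l hl), Measure.restrict_restrict (hM l hl),
      inter_eq_left.2 (hMV l hl), setLIntegral_const,
      ENNReal.ofReal_toReal (ne_top_of_le_ne_top hvol (measure_mono (hMV l hl)))]
  rw [he] at hi
  have h3 := hi.trans (add_le_add le_rfl h1)
  rw [← ENNReal.ofReal_mul ht.le, ← ENNReal.ofReal_toReal hvol,
    ← ENNReal.ofReal_mul (mul_nonneg ht.le hG), ← ENNReal.ofReal_add (by positivity) hF,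
    ENNReal.ofReal_le_ofReal_iff (by positivity)] at h3
  exact absurd h2 (not_lt.2 h3)

/-- Integer vectors supported on `I` with entries at most `m`. -/
noncomputable def cenbGrid {n : ℕ} (I : Finset (Fin n)) (m : ℕ) : Finset (Fin n → ℤ) :=
  Fintype.piFinset fun k => if k ∈ I then Finset.Icc (-(m : ℤ)) m else {0}

lemma cenb_card {n : ℕ} (I : Finset (Fin n)) (m : ℕ) :
    (cenbGrid I m).card = (2 * m + 1) ^ I.card := by
  rw [cenbGrid, Fintype.card_piFinset]
  have : ∀ k : Fin n, (if k ∈ I then Finset.Icc (-(m : ℤ)) m else {0}).card =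
      if k ∈ I then 2 * m + 1 else 1 := fun k => by
    split_ifs
    · rw [Int.card_Icc]; omega
    · rfl
  simp only [this]
  rw [Finset.prod_ite_mem, Finset.univ_inter, Finset.prod_const]

lemma cenb_mem {n : ℕ} {I : Finset (Fin n)} {m : ℕ} {a : Fin n → ℤ} (ha : a ∈ cenbGrid I m) :
    (fun k => (a k : ℂ)) ∈ RI I ∧ ‖(fun k => (a k : ℂ) : E n)‖ ≤ m := by
  rw [cenbGrid, Fintype.mem_piFinset] at ha
  refine ⟨fun k => ⟨by simp, fun hk => ?_⟩, (pi_norm_le_iff_of_nonneg (by positivity)).2 fun k => ?_⟩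
  · have := ha k
    rw [if_neg hk, Finset.mem_singleton] at this
    simp [this]
  · have := ha k
    rw [Complex.norm_intCast]
    have h : |a k| ≤ (m : ℤ) := by
      split_ifs at this
      · exact abs_le.2 (Finset.mem_Icc.1 this)
      · rw [Finset.mem_singleton.1 this]; simp
    exact_mod_cast h

lemma cenb_int {n : ℕ} {a a' : Fin n → ℤ}
    (h : ‖(fun k => (a k : ℂ) : E n) - fun k => (a' k : ℂ)‖ < 1) : a = a' := by
  funext k
  have := (norm_le_pi_norm ((fun k => (a k : ℂ) : E n) - fun k => (a' k : ℂ)) k).trans_lt h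
  rw [Pi.sub_apply, ← Int.cast_sub, Complex.norm_intCast] at this
  have h2 : |a k - a' k| < 1 := by exact_mod_cast this
  exact sub_eq_zero.1 (Int.abs_lt_one_iff.1 h2)

lemma cenb_ip {n : ℕ} {I : Finset (Fin n)} {s v : E n} (hs : s ∈ RI I) (hv : v ∈ EE I) :
    ip s v = 0 := by
  refine Finset.sum_eq_zero fun k _ => ?_
  by_cases hk : k ∈ I
  · have h1 : (v k).re = 0 := hv k hk
    simp [(hs k).1, h1]
  · simp [(hs k).2 hk]

theorem spread (n : ℕ) (I : Finset (Fin n)) {del C c : ℝ} (hd : 0 < del) (hC : 1 ≤ C)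
    (hc : 0 < c) : ∃ kap > (0 : ℝ), ∃ R0 : ℝ, ∀ R ≥ R0, ∀ {ι : Type} (Q : Finset ι)
      (b rho : ι → E n),
      (∀ l ∈ Q, piI I (b l) = b l ∧ rho l ∈ RI I ∧ ‖b l‖ ≤ C * R ∧ ‖rho l‖ ≤ C * R) →
      (∀ l ∈ Q, ∀ l' ∈ Q, ‖b l - b l'‖ ≤ del → ‖rho l - rho l'‖ ≤ del → l = l') →
      c * R ^ (2 * n) ≤ R ^ I.card * Q.card → ∀ v ∈ EE I, nsq v = 1 →
      ∃ l ∈ Q, kap * R ≤ |ip (b l - Complex.I • rho l) v| := by
  classical
  obtain ⟨Cp, hCp, hpack⟩ := pack n
  obtain ⟨δ, hδ0, hδd, hδ1⟩ : ∃ δ : ℝ, 0 < δ ∧ δ ≤ del ∧ δ ≤ 1 :=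
    ⟨min del 1, lt_min hd one_pos, min_le_left _ _, min_le_right _ _⟩
  obtain ⟨κ, hκ0, hκ⟩ : ∃ κ : ℝ, 0 < κ ∧ Cp * κ * (3 * C / δ) ^ (2 * n) < c := by
    have h0 : 0 < Cp * (3 * C / δ) ^ (2 * n) := by positivity
    refine ⟨c / (2 * (Cp * (3 * C / δ) ^ (2 * n))), by positivity, ?_⟩
    have : Cp * (c / (2 * (Cp * (3 * C / δ) ^ (2 * n)))) * (3 * C / δ) ^ (2 * n) = c / 2 := by
      field_simp
    rw [this]; linarith
  refine ⟨κ * (3 * C), by positivity, max 1 (δ / (κ * (3 * C))), ?_⟩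
  intro R hR ι Q b rho hb hsep hcard v hv hv1
  have hR1 : 1 ≤ R := (le_max_left _ _).trans hR
  have hR2 : δ ≤ κ * (3 * C * R) := by
    have := (div_le_iff₀ (by positivity)).1 ((le_max_right _ _).trans hR)
    linarith
  by_contra hne
  push Not at hne
  set pt : ι × (Fin n → ℤ) → E n := fun q => b q.1 - Complex.I • rho q.1 + fun k => (q.2 k : ℂ)
    with hpt
  have hS : ∀ q ∈ Q ×ˢ cenbGrid I ⌊R⌋₊, ∀ q' ∈ Q ×ˢ cenbGrid I ⌊R⌋₊, ‖pt q - pt q'‖ < δ →
      q = q' := by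
    rintro ⟨l, a⟩ hq ⟨l', a'⟩ hq' h
    obtain ⟨hl, ha⟩ := Finset.mem_product.1 hq
    obtain ⟨hl', ha'⟩ := Finset.mem_product.1 hq'
    have p1 := RI.proj (hb l hl).2.1
    have p2 := RI.proj (hb l' hl').2.1
    have p3 := RI.proj (cenb_mem ha).1
    have p4 := RI.proj (cenb_mem ha').1
    have t1 : tauI I (b l) = 0 := by rw [← (hb l hl).1]; exact (proj_piI I _).2.1
    have t2 : tauI I (b l') = 0 := by rw [← (hb l' hl').1]; exact (proj_piI I _).2.1
    have e1 : piI I (pt (l, a) - pt (l', a')) = b l - b l' := by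
      simp only [hpt, map_sub, map_add, (hb l hl).1, (hb l' hl').1, p1.2.2.2.1, p2.2.2.2.1, p3.1,
        p4.1, sub_zero, add_zero]
    have e2 : tauI I (pt (l, a) - pt (l', a')) = -(rho l - rho l') := by
      simp only [hpt, map_sub, map_add, t1, t2, p1.2.2.2.2.1, p2.2.2.2.2.1, p3.2.1, p4.2.1]
      abel
    have n1 := (proj_norm I (pt (l, a) - pt (l', a'))).1
    have n2 := (proj_norm I (pt (l, a) - pt (l', a'))).2.1
    rw [e1] at n1
    rw [e2, norm_neg] at n2
    obtain rfl : l = l' := hsep l hl l' hl' (by linarith) (by linarith)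
    have e3 : pt (l, a) - pt (l, a') = (fun k => (a k : ℂ) : E n) - fun k => (a' k : ℂ) := by
      simp only [hpt]; abel
    rw [e3] at h
    rw [cenb_int (h.trans_le hδ1)]
  have hinj : InjOn pt (Q ×ˢ cenbGrid I ⌊R⌋₊ : Finset _) := fun q hq q' hq' h =>
    hS q hq q' hq' (by rw [h, sub_self, norm_zero]; exact hδ0)
  have hfl : (⌊R⌋₊ : ℝ) ≤ R := Nat.floor_le (by linarith)
  have hCR : R ≤ C * R := le_mul_of_one_le_left (by linarith) hC
  have hA := (hpack δ (3 * C * R) ((Q ×ˢ cenbGrid I ⌊R⌋₊).image pt) hδ0 (by linarith) (by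
      intro x hx
      obtain ⟨⟨l, a⟩, hq, rfl⟩ := Finset.mem_image.1 hx
      obtain ⟨hl, ha⟩ := Finset.mem_product.1 hq
      have h1 := norm_add_le (b l - Complex.I • rho l) (fun k => (a k : ℂ))
      have h2 := norm_sub_le (b l) (Complex.I • rho l)
      rw [norm_smul, Complex.norm_I, one_mul] at h2
      have h3 := (cenb_mem ha).2
      have h4 := (hb l hl).2.2
      simp only [hpt]
      linarith [h4.1, h4.2]) (by
      intro x hx x' hx' hxx
      obtain ⟨q, hq, rfl⟩ := Finset.mem_image.1 hx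
      obtain ⟨q', hq', rfl⟩ := Finset.mem_image.1 hx'
      by_contra hlt
      exact hxx (by rw [hS q hq q' hq' (not_le.1 hlt)]))).2 κ v hR2 hv1 (by
      intro x hx
      obtain ⟨⟨l, a⟩, hq, rfl⟩ := Finset.mem_image.1 hx
      obtain ⟨hl, ha⟩ := Finset.mem_product.1 hq
      simp only [hpt]
      rw [(ip_basic _ _ v 0).2.2.1, cenb_ip (cenb_mem ha).1 hv, add_zero]
      linarith [hne l hl])
  rw [Finset.card_image_of_injOn hinj, Finset.card_product, cenb_card] at hA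
  have hg : R ^ I.card ≤ (2 * (⌊R⌋₊ : ℝ) + 1) ^ I.card := by
    refine pow_le_pow_left₀ (by linarith) ?_ _
    have := Nat.lt_floor_add_one R
    have h0 : (0 : ℝ) ≤ ⌊R⌋₊ := Nat.cast_nonneg _
    linarith
  have e4 : (3 * C * R / δ) ^ (2 * n) = (3 * C / δ) ^ (2 * n) * R ^ (2 * n) := by
    rw [← mul_pow]; congr 1; ring
  push_cast at hA
  rw [e4, ← mul_assoc] at hA
  have h5 : R ^ I.card * (Q.card : ℝ) ≤ (Q.card : ℝ) * (2 * (⌊R⌋₊ : ℝ) + 1) ^ I.card := by
    rw [mul_comm]; gcongr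
  have h6 : Cp * κ * (3 * C / δ) ^ (2 * n) * R ^ (2 * n) < c * R ^ (2 * n) :=
    mul_lt_mul_of_pos_right hκ (by positivity)
  linarith

end Big

end Pool.Agent.CL
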