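import Pool.Agent.K.MP_63735c_ag.C2

/-! Legendre transform in the second variable. -/

open scoped ContDiff Matrix ENNReal
open Set Metric MeasureTheory Filter Topology

namespace Pool.Agent.CL

open Pool.Agent.SPF

variable {F H : Type} [NormedAddCommGroup F] [NormedSpace ℝ F] [FiniteDimensional ℝ F]
  [NormedAddCommGroup H] [NormedSpace ℝ H] [FiniteDimensional ℝ H]

omit [FiniteDimensional ℝ F] [FiniteDimensional ℝ H] in
theorem clleg_at {W : Set F} (hW : IsOpen W) {Φ : F × H → ℝ}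
    (hΦ : ContDiffOn ℝ ∞ Φ (W ×ˢ univ)) {x : F} (hx : x ∈ W) (τ : H) :
    ContDiffAt ℝ ∞ Φ (x, τ) :=
  hΦ.contDiffAt ((hW.prod isOpen_univ).mem_nhds ⟨hx, mem_univ _⟩)

omit [FiniteDimensional ℝ F] [FiniteDimensional ℝ H] in
theorem clleg_at' {W : Set F} (hW : IsOpen W) {Φ : F × H → ℝ}
    (hΦ : ContDiffOn ℝ ∞ Φ (W ×ˢ univ)) {x : F} (hx : x ∈ W) (τ : H) :
    ContDiffAt ℝ ∞ (fderiv ℝ Φ) (x, τ) :=
  (clleg_at hW hΦ hx τ).fderiv_right (m := ∞) (by simp)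

theorem clleg_one {g g1 g2 : ℝ → ℝ} {c : ℝ} (h1 : ∀ s, HasDerivAt g (g1 s) s)
    (h2 : ∀ s, HasDerivAt g1 (g2 s) s) (hc : ∀ s, c ≤ g2 s) : g 0 + g1 0 + c / 2 ≤ g 1 := by
  have hk : ∀ s, HasDerivAt (fun s => g1 s - c * s) (g2 s - c) s := fun s =>
    ((h2 s).sub ((hasDerivAt_id s).const_mul c)).congr_deriv (by simp)
  have hm : Monotone (fun s => g1 s - c * s) :=
    monotone_of_deriv_nonneg (fun s => (hk s).differentiableAt) fun s => by
      rw [(hk s).deriv]; linarith [hc s]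
  have hl : ∀ s, HasDerivAt (fun s => g s - g1 0 * s - c / 2 * s ^ 2) (g1 s - g1 0 - c * s) s :=
    fun s => by
      have := ((h1 s).sub ((hasDerivAt_id s).const_mul (g1 0))).sub
        ((hasDerivAt_pow 2 s).const_mul (c / 2))
      refine this.congr_deriv ?_
      simp; ring
  have hm2 : MonotoneOn (fun s => g s - g1 0 * s - c / 2 * s ^ 2) (Ici 0) := by
    refine monotoneOn_of_deriv_nonneg (convex_Ici 0)
      (fun s _ => (hl s).continuousAt.continuousWithinAt)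
      (fun s _ => (hl s).differentiableAt.differentiableWithinAt) fun s hs => ?_
    rw [(hl s).deriv]
    have hs' : (0 : ℝ) ≤ s := interior_subset hs
    have := hm hs'
    simp only at this
    linarith
  have := hm2 (mem_Ici.2 le_rfl) (mem_Ici.2 zero_le_one) zero_le_one
  simp only at this
  linarith

omit [FiniteDimensional ℝ F] [FiniteDimensional ℝ H] in
theorem clleg_key {W : Set F} (hW : IsOpen W) {Φ : F × H → ℝ}
    (hΦ : ContDiffOn ℝ ∞ Φ (W ×ˢ univ)) {ε : ℝ}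
    (hc : ∀ x ∈ W, ∀ τ v, ε * ‖v‖ ^ 2 ≤ D2 Φ (x, τ) (0, v)) {x : F} (hx : x ∈ W) (τ v : H) :
    Φ (x, τ) + fderiv ℝ Φ (x, τ) (0, v) + ε * ‖v‖ ^ 2 / 2 ≤ Φ (x, τ + v) := by
  have hl : ∀ s : ℝ, HasDerivAt (fun s : ℝ => ((x, τ + s • v) : F × H)) (0, v) s := fun s => by
    have := (hasDerivAt_const s x).prodMk (((hasDerivAt_id s).smul_const v).const_add τ)
    simpa using this
  have h1 : ∀ s : ℝ, HasDerivAt (fun s : ℝ => Φ (x, τ + s • v))
      (fderiv ℝ Φ (x, τ + s • v) (0, v)) s := fun s =>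
    ((clleg_at hW hΦ hx _).differentiableAt (by simp)).hasFDerivAt.comp_hasDerivAt s (hl s)
  have h2 : ∀ s : ℝ, HasDerivAt (fun s : ℝ => fderiv ℝ Φ (x, τ + s • v) (0, v))
      (D2 Φ (x, τ + s • v) (0, v)) s := fun s => by
    have := ((clleg_at' hW hΦ hx (τ + s • v)).differentiableAt
      (by simp)).hasFDerivAt.comp_hasDerivAt s (hl s)
    have h3 := this.clm_apply (hasDerivAt_const s ((0, v) : F × H))
    simpa [D2] using h3
  have := clleg_one h1 h2 (fun s => hc x hx _ v)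
  simpa using this

omit [FiniteDimensional ℝ F] in
theorem clleg_ex {W : Set F} (hW : IsOpen W) {Φ : F × H → ℝ}
    (hΦ : ContDiffOn ℝ ∞ Φ (W ×ˢ univ)) {ε : ℝ} (hε : 0 < ε)
    (hc : ∀ x ∈ W, ∀ τ v, ε * ‖v‖ ^ 2 ≤ D2 Φ (x, τ) (0, v)) {x : F} (hx : x ∈ W) :
    ∃ τ : H, ∀ v, fderiv ℝ Φ (x, τ) (0, v) = 0 := by
  have : ProperSpace H := FiniteDimensional.proper ℝ H
  set C := ‖fderiv ℝ Φ (x, (0 : H))‖ with hC
  have hC0 : 0 ≤ C := norm_nonneg _
  have hd : ∀ τ : H, HasFDerivAt (fun τ : H => Φ (x, τ))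
      ((fderiv ℝ Φ (x, τ)).comp (ContinuousLinearMap.inr ℝ F H)) τ := fun τ =>
    ((clleg_at hW hΦ hx τ).differentiableAt (by simp)).hasFDerivAt.comp τ (hasFDerivAt_prodMk_right x τ)
  have hcont : Continuous (fun τ : H => Φ (x, τ)) :=
    continuous_iff_continuousAt.2 fun τ => (hd τ).continuousAt
  obtain ⟨τ, hτ, hmin⟩ := (isCompact_closedBall (0 : H) (2 * C / ε)).exists_isMinOn
    ⟨0, mem_closedBall_self (by positivity)⟩ hcont.continuousOn
  have hall : ∀ v, Φ (x, τ) ≤ Φ (x, v) := by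
    intro v
    by_cases hv : v ∈ closedBall (0 : H) (2 * C / ε)
    · exact hmin hv
    · have h0 : Φ (x, τ) ≤ Φ (x, 0) := hmin (mem_closedBall_self (by positivity))
      have hk := clleg_key hW hΦ hc hx 0 v
      rw [zero_add] at hk
      have hv' : 2 * C / ε < ‖v‖ := by simpa using hv
      rw [div_lt_iff₀ hε] at hv'
      have hb : ‖fderiv ℝ Φ (x, (0 : H)) (0, v)‖ ≤ C * ‖v‖ := by
        have := (fderiv ℝ Φ (x, (0 : H))).le_opNorm (0, v)
        simpa [Prod.norm_def] using this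
      have hb' := (abs_le.1 hb).1
      have hn := norm_nonneg v
      nlinarith
  have hloc : IsLocalMin (fun τ : H => Φ (x, τ)) τ := Eventually.of_forall hall
  have := hloc.hasFDerivAt_eq_zero (hd τ)
  refine ⟨τ, fun v => ?_⟩
  have h2 := congrArg (fun L => L v) this
  simpa using h2

omit [FiniteDimensional ℝ F] [FiniteDimensional ℝ H] in
theorem clleg_uniq {W : Set F} (hW : IsOpen W) {Φ : F × H → ℝ}
    (hΦ : ContDiffOn ℝ ∞ Φ (W ×ˢ univ)) {ε : ℝ} (hε : 0 < ε)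
    (hc : ∀ x ∈ W, ∀ τ v, ε * ‖v‖ ^ 2 ≤ D2 Φ (x, τ) (0, v)) {x : F} (hx : x ∈ W) {τ τ' : H}
    (h : ∀ v, fderiv ℝ Φ (x, τ) (0, v) = 0) (h' : ∀ v, fderiv ℝ Φ (x, τ') (0, v) = 0) :
    τ = τ' := by
  have h1 := clleg_key hW hΦ hc hx τ (τ' - τ)
  have h2 := clleg_key hW hΦ hc hx τ' (τ - τ')
  rw [h, add_sub_cancel] at h1
  rw [h', add_sub_cancel, norm_sub_rev] at h2
  have h3 : ε * ‖τ' - τ‖ ^ 2 ≤ 0 := by linarith
  have h4 : ‖τ' - τ‖ ^ 2 ≤ 0 := by
    by_contra h5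
    push Not at h5
    have := mul_pos hε h5
    linarith
  have h5 : ‖τ' - τ‖ = 0 := pow_eq_zero_iff (two_ne_zero) |>.1 (le_antisymm h4 (sq_nonneg _))
  exact (sub_eq_zero.1 (norm_eq_zero.1 h5)).symm

theorem clleg_smooth {W : Set F} (hW : IsOpen W) {Φ : F × H → ℝ}
    (hΦ : ContDiffOn ℝ ∞ Φ (W ×ˢ univ)) {ε : ℝ} (hε : 0 < ε)
    (hc : ∀ x ∈ W, ∀ τ v, ε * ‖v‖ ^ 2 ≤ D2 Φ (x, τ) (0, v)) {τ : F → H}
    (hτ : ∀ x ∈ W, ∀ v, fderiv ℝ Φ (x, τ x) (0, v) = 0) {x : F} (hx : x ∈ W) :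
    ContDiffAt ℝ ∞ τ x := by
  have : CompleteSpace F := FiniteDimensional.complete ℝ F
  have : CompleteSpace H := FiniteDimensional.complete ℝ H
  let R : (F × H →L[ℝ] ℝ) →L[ℝ] (H →L[ℝ] ℝ) :=
    (ContinuousLinearMap.compL ℝ H (F × H) ℝ).flip (ContinuousLinearMap.inr ℝ F H)
  have hR : ∀ L v, R L v = L (0, v) := fun L v => by simp [R]
  let Θ : F × H → F × (H →L[ℝ] ℝ) := fun p => (p.1, R (fderiv ℝ Φ p))
  have hΘ : ContDiffAt ℝ ∞ Θ (x, τ x) :=
    contDiffAt_fst.prodMk (R.contDiff.contDiffAt.comp _ (clleg_at' hW hΦ hx (τ x)))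
  let L : F × H →L[ℝ] F × (H →L[ℝ] ℝ) :=
    (ContinuousLinearMap.fst ℝ F H).prod (R.comp (fderiv ℝ (fderiv ℝ Φ) (x, τ x)))
  have hL : HasFDerivAt Θ L (x, τ x) :=
    hasFDerivAt_fst.prodMk (R.hasFDerivAt.comp _
      ((clleg_at' hW hΦ hx (τ x)).differentiableAt (by simp)).hasFDerivAt)
  have hinj : Function.Injective (L : F × H →ₗ[ℝ] F × (H →L[ℝ] ℝ)) := by
    rw [injective_iff_map_eq_zero]
    rintro ⟨u, v⟩ h
    have h1 : u = 0 := congrArg Prod.fst h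
    have h2 : R (fderiv ℝ (fderiv ℝ Φ) (x, τ x) (u, v)) = 0 := congrArg Prod.snd h
    subst h1
    have h3 : D2 Φ (x, τ x) (0, v) = 0 := by
      have := congrArg (fun L => L v) h2
      simpa [hR, D2] using this
    have h4 := hc x hx (τ x) v
    rw [h3] at h4
    have h5 : ‖v‖ ^ 2 ≤ 0 := by
      by_contra h5
      push Not at h5
      have := mul_pos hε h5
      linarith
    have h6 : ‖v‖ = 0 := pow_eq_zero_iff (two_ne_zero) |>.1 (le_antisymm h5 (sq_nonneg _))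
    rw [norm_eq_zero.1 h6]
    rfl
  have hdim : Module.finrank ℝ (F × H) = Module.finrank ℝ (F × (H →L[ℝ] ℝ)) := by
    rw [Module.finrank_prod, Module.finrank_prod,
      ← (LinearMap.toContinuousLinearMap : (H →ₗ[ℝ] ℝ) ≃ₗ[ℝ] H →L[ℝ] ℝ).finrank_eq]
    simp
  let e : (F × H) ≃L[ℝ] F × (H →L[ℝ] ℝ) :=
    ((L : F × H →ₗ[ℝ] F × (H →L[ℝ] ℝ)).linearEquivOfInjective hinj hdim).toContinuousLinearEquiv
  have he : (e : F × H →L[ℝ] F × (H →L[ℝ] ℝ)) = L :=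
    ContinuousLinearMap.ext fun _ => rfl
  have hL' : HasFDerivAt Θ (e : F × H →L[ℝ] F × (H →L[ℝ] ℝ)) (x, τ x) := he ▸ hL
  have hn : (∞ : WithTop ℕ∞) ≠ 0 := by simp
  have hx0 : Θ (x, τ x) = (x, 0) := by
    refine Prod.ext rfl ?_
    ext v
    simpa [Θ, hR] using hτ x hx v
  have hinv := hΘ.to_localInverse hL' hn
  have hri := (hΘ.hasStrictFDerivAt' hL' hn).eventually_right_inverse
  rw [hx0] at hinv hri
  have hι : ContDiffAt ℝ ∞ (fun y : F => ((y, 0) : F × (H →L[ℝ] ℝ))) x :=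
    contDiffAt_id.prodMk contDiffAt_const
  have hsm : ContDiffAt ℝ ∞ (fun y : F => (hΘ.localInverse hL' hn (y, 0)).2) x :=
    contDiffAt_snd.comp x (hinv.comp x hι)
  refine hsm.congr_of_eventuallyEq ?_
  filter_upwards [hι.continuousAt.eventually hri, hW.mem_nhds hx] with y hy hyW
  change Θ (hΘ.localInverse hL' hn (y, 0)) = (y, 0) at hy
  set q := hΘ.localInverse hL' hn (y, 0) with hq
  have h1 : q.1 = y := congrArg Prod.fst hy
  have h2 : R (fderiv ℝ Φ q) = 0 := congrArg Prod.snd hy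
  refine clleg_uniq hW hΦ hε hc hyW (hτ y hyW) fun v => ?_
  have := congrArg (fun L => L v) h2
  rw [← h1]
  simpa [hR] using this

theorem legendre {W : Set F} (hW : IsOpen W) {Φ : F × H → ℝ} (hΦ : ContDiffOn ℝ ∞ Φ (W ×ˢ univ))
    {ε : ℝ} (hε : 0 < ε) (hc : ∀ x ∈ W, ∀ τ v, ε * ‖v‖ ^ 2 ≤ D2 Φ (x, τ) (0, v)) :
    ∃ τ : F → H, ContDiffOn ℝ 2 (fun x => Φ (x, τ x)) W ∧ ∀ x ∈ W,
      (∀ τ', Φ (x, τ x) ≤ Φ (x, τ')) ∧ (∀ v, fderiv ℝ Φ (x, τ x) (0, v) = 0) ∧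
        ∀ u, ∃ b, D2 (fun x => Φ (x, τ x)) x u = D2 Φ (x, τ x) (u, b) := by
  have hex : ∀ x : F, ∃ τ : H, x ∈ W → ∀ v, fderiv ℝ Φ (x, τ) (0, v) = 0 := fun x => by
    by_cases hx : x ∈ W
    · obtain ⟨τ, hτ⟩ := clleg_ex hW hΦ hε hc hx
      exact ⟨τ, fun _ => hτ⟩
    · exact ⟨0, fun h => absurd h hx⟩
  choose τ hτ using hex
  have hs : ∀ x ∈ W, ContDiffAt ℝ ∞ τ x := fun x hx => clleg_smooth hW hΦ hε hc hτ hx
  have hg : ∀ x ∈ W, HasFDerivAt (fun y => ((y, τ y) : F × H))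
      ((ContinuousLinearMap.id ℝ F).prod (fderiv ℝ τ x)) x := fun x hx =>
    (hasFDerivAt_id x).prodMk ((hs x hx).differentiableAt (by simp)).hasFDerivAt
  refine ⟨τ, fun x hx => ?_, fun x hx => ⟨fun τ' => ?_, hτ x hx, fun u => ⟨fderiv ℝ τ x u, ?_⟩⟩⟩
  · have := (clleg_at hW hΦ hx (τ x)).comp x (contDiffAt_id.prodMk (hs x hx))
    exact (this.of_le (by norm_cast)).contDiffWithinAt
  · have h1 := clleg_key hW hΦ hc hx (τ x) (τ' - τ x)
    rw [hτ x hx, add_sub_cancel] at h1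
    have : 0 ≤ ε * ‖τ' - τ x‖ ^ 2 / 2 := by positivity
    linarith
  · let S : (F × H →L[ℝ] ℝ) →L[ℝ] (F →L[ℝ] ℝ) :=
      (ContinuousLinearMap.compL ℝ F (F × H) ℝ).flip (ContinuousLinearMap.inl ℝ F H)
    have hS : ∀ L v, S L v = L (v, 0) := fun L v => by simp [S]
    have h1 : ∀ y ∈ W, fderiv ℝ (fun x => Φ (x, τ x)) y = S (fderiv ℝ Φ (y, τ y)) := by
      intro y hy
      have := (((clleg_at hW hΦ hy (τ y)).differentiableAt (by simp)).hasFDerivAt.comp y (hg y hy))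
      rw [show (fun x => Φ (x, τ x)) = Φ ∘ fun y => ((y, τ y) : F × H) from rfl, this.fderiv]
      ext w
      have e1 : ((w, fderiv ℝ τ y w) : F × H) = (w, 0) + (0, fderiv ℝ τ y w) := by simp
      simp only [ContinuousLinearMap.comp_apply, ContinuousLinearMap.prod_apply,
        ContinuousLinearMap.id_apply, hS]
      rw [e1, map_add, hτ y hy, add_zero]
    have h2 : HasFDerivAt (fun y => fderiv ℝ Φ (y, τ y))
        ((fderiv ℝ (fderiv ℝ Φ) (x, τ x)).comp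
          ((ContinuousLinearMap.id ℝ F).prod (fderiv ℝ τ x))) x :=
      ((clleg_at' hW hΦ hx (τ x)).differentiableAt (by simp)).hasFDerivAt.comp x (hg x hx)
    have h3 : fderiv ℝ (fun x => Φ (x, τ x)) =ᶠ[𝓝 x] fun y => S (fderiv ℝ Φ (y, τ y)) := by
      filter_upwards [hW.mem_nhds hx] with y hy using h1 y hy
    have h4 := (S.hasFDerivAt.comp x h2).fderiv
    have h5 : ∀ v : H, fderiv ℝ (fderiv ℝ Φ) (x, τ x) (u, fderiv ℝ τ x u) (0, v) = 0 := by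
      intro v
      have h6 := h2.clm_apply (hasFDerivAt_const ((0, v) : F × H) x)
      have h7 : (fun y => fderiv ℝ Φ (y, τ y) (0, v)) =ᶠ[𝓝 x] fun _ => (0 : ℝ) := by
        filter_upwards [hW.mem_nhds hx] with y hy using hτ y hy v
      have h8 := (h6.congr_of_eventuallyEq h7.symm).unique (hasFDerivAt_const (0 : ℝ) x)
      have h9 := congrArg (fun L => L u) h8
      simpa using h9
    unfold D2
    rw [h3.fderiv_eq]
    rw [show (fun y => S (fderiv ℝ Φ (y, τ y))) = S ∘ fun y => fderiv ℝ Φ (y, τ y) from rfl, h4]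
    have e1 : ((u, fderiv ℝ τ x u) : F × H) = (u, 0) + (0, fderiv ℝ τ x u) := by simp
    simp only [ContinuousLinearMap.comp_apply, ContinuousLinearMap.prod_apply,
      ContinuousLinearMap.id_apply, hS]
    conv_rhs => rw [e1, map_add, ← e1, h5, add_zero]

end Pool.Agent.CL
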