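import Pool.Agent.K.MP_63735c_ag.C70
import Pool.Agent.K.MP_63735c_ag.C83
import Pool.Agent.K.MP_63735c_ag.C72
import Pool.Agent.K.MP_63735c_ag.C71

/-! The regularised Legendre transform of the potential. -/

open scoped ContDiff Matrix ENNReal
open Set Metric MeasureTheory Filter Topology

namespace Pool.Agent.CL

open Pool.Agent.SPF

variable {n : ℕ}

lemma D2_aff {F F' : Type} [NormedAddCommGroup F] [NormedSpace ℝ F] [NormedAddCommGroup F']
    [NormedSpace ℝ F'] (L : F' →L[ℝ] F) (c : F) {f : F → ℝ} {x : F'}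
    (hf : ContDiffAt ℝ 2 f (L x + c)) (u : F') :
    D2 (fun y => f (L y + c)) x u = D2 f (L x + c) (L u) := by
  have h0 : ∀ y, HasFDerivAt (fun y => L y + c) L y := fun y => L.hasFDerivAt.add_const c
  have h1 : fderiv ℝ (fun y => f (L y + c)) =ᶠ[𝓝 x] fun y => (fderiv ℝ f (L y + c)).comp L := by
    filter_upwards [(h0 x).continuousAt.eventually (hf.eventually (by simp))] with y hy
    exact ((hy.differentiableAt (by norm_num)).hasFDerivAt.comp y (h0 y)).fderiv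
  have h2 : HasFDerivAt (fderiv ℝ f) (fderiv ℝ (fderiv ℝ f) (L x + c)) (L x + c) :=
    ((hf.fderiv_right (m := 1) (by norm_num)).differentiableAt one_ne_zero).hasFDerivAt
  have h3 := ((ContinuousLinearMap.compL ℝ F' F ℝ).flip L).hasFDerivAt.comp x (h2.comp x (h0 x))
  rw [D2, h1.fderiv_eq]
  exact congrArg (fun B : F' →L[ℝ] F' →L[ℝ] ℝ => B u u) h3.fderiv

lemma D2_lin {F F' : Type} [NormedAddCommGroup F] [NormedSpace ℝ F] [NormedAddCommGroup F']
    [NormedSpace ℝ F'] (L : F' →L[ℝ] F) {f : F → ℝ} {x : F'} (hf : ContDiffAt ℝ 2 f (L x))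
    (u : F') : D2 (fun y => f (L y)) x u = D2 f (L x) (L u) := by
  simpa only [add_zero] using D2_aff L 0 (f := f) (x := x) (by rwa [add_zero]) u

lemma exists_ipL : ∃ L : E n →L[ℝ] E n →L[ℝ] ℝ, ∀ u v, L u v = ip u v :=
  ⟨∑ k, (innerSL ℝ (E := ℂ)).bilinearComp (ContinuousLinearMap.proj k)
    (ContinuousLinearMap.proj k), fun u v => by simp [ip, mul_comm]⟩

lemma ip_reI {I : Finset (Fin n)} {s : E n} (hs : s ∈ RI I) (v : E n) :
    ip (reI I v) s = ip v s := by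
  refine Finset.sum_congr rfl fun k _ => ?_
  by_cases h : k ∈ I <;> simp [reI_apply, h, (hs k).1, (hs k).2]

lemma clen1_quad (p : E n) (ε : ℝ) : ContDiff ℝ ∞ (fun τ : E n => ε / 2 * nsq τ - ip p τ) ∧
    (∀ τ v, fderiv ℝ (fun τ : E n => ε / 2 * nsq τ - ip p τ) τ v = ε * ip τ v - ip p v) ∧
    ∀ τ v, D2 (fun τ : E n => ε / 2 * nsq τ - ip p τ) τ v = ε * nsq v := by
  obtain ⟨L, hL⟩ := exists_ipL (n := n)
  have e : (fun τ : E n => ε / 2 * nsq τ - ip p τ) = fun τ => ε / 2 * L τ τ - L p τ := by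
    funext τ
    rw [hL, hL, (ip_basic τ τ τ 0).2.1]
  have h1 : fderiv ℝ (fun τ : E n => ε / 2 * L τ τ - L p τ) = fun τ => (ε • L) τ - L p := by
    funext τ
    have := ((L.hasFDerivAt.clm_apply (hasFDerivAt_id τ)).const_mul (ε / 2)).sub (L p).hasFDerivAt
    refine this.fderiv.trans ?_
    ext v
    simp [hL, (ip_basic v τ τ 0).1]
    ring
  rw [e]
  refine ⟨(contDiff_const.mul (L.contDiff.clm_apply contDiff_id)).sub (L p).contDiff,
    fun τ v => by rw [h1]; simp [hL], fun τ v => ?_⟩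
  rw [D2, h1, ((ε • L).hasFDerivAt.sub_const (L p)).fderiv]
  simp [hL, (ip_basic v v v 0).2.1]

variable {X : Type} [TopologicalSpace X] [MeasurableSpace X] {S : Setup n X} (A : Avg S)

lemma Avg.Φ_at {p : P n} (hp : p.1 ∈ S.M.T) : ContDiffAt ℝ ∞ A.Φ p :=
  A.Φ_smooth.contDiffAt ((S.M.T_open.prod isOpen_univ).mem_nhds ⟨hp, mem_univ _⟩)

lemma Avg.D2_RI {q : P n} (hq : q.1 ∈ S.M.T) (w : P n) {s : E n} (hs : s ∈ RI S.Q.I) :
    D2 A.Φ q (w + (0, s)) = D2 A.Φ q w := by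
  let L : P n →L[ℝ] P n := (ContinuousLinearMap.fst ℝ _ _).prod
    (ContinuousLinearMap.snd ℝ _ _ - (reI S.Q.I).comp (ContinuousLinearMap.snd ℝ _ _))
  have h1 : A.Φ =ᶠ[𝓝 q] fun x => A.Φ (L x) := by
    filter_upwards [(S.M.T_open.prod isOpen_univ).mem_nhds (show q ∈ S.M.T ×ˢ univ from
      ⟨hq, mem_univ _⟩)] with x hx
    have := A.Φ_RI x.1 hx.1 (x.2 - reI S.Q.I x.2) _ (reI_mem S.Q.I x.2)
    rw [sub_add_cancel] at this
    exact this
  have h2 : ContDiffAt ℝ 2 A.Φ (L q) := (A.Φ_at (p := L q) hq).of_le (by norm_cast)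
  rw [clgreen_congr h1, clgreen_congr h1, D2_lin L h2, D2_lin L h2, map_add]
  have : L (0, s) = 0 := by simp [L, (RI.proj hs).2.2.1]
  rw [this, add_zero]

lemma Avg.Φ_ge {y : E n} (hy : y ∈ S.M.T) (ξ : E n) {σ : E n} (hσ : σ ∈ RI S.Q.I) :
    A.Φ (y, ξ) + ip σ (A.r (y, ξ)) ≤ A.Φ (y, ξ + Complex.I • σ) := by
  have h1 : ∀ t : ℝ, HasDerivAt (fun t : ℝ => A.Φ (y, ξ + Complex.I • t • σ))
      (ip σ (A.r (y, ξ + Complex.I • t • σ))) t := fun t => by
    have a : HasDerivAt (fun t : ℝ => ((y, ξ + Complex.I • t • σ) : P n)) (0, Complex.I • σ) t := by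
      refine (hasDerivAt_const t y).prodMk ?_
      simpa using (((hasDerivAt_id t).smul_const σ).const_smul Complex.I).const_add ξ
    rw [← A.Φ_tau (y, ξ + Complex.I • t • σ) hy σ hσ]
    exact ((A.Φ_at (p := (y, ξ + Complex.I • t • σ)) hy).differentiableAt
      (by simp)).hasFDerivAt.comp_hasDerivAt t a
  obtain ⟨c, hc, e⟩ := exists_hasDerivAt_eq_slope _ _ one_pos
    (fun t _ => (h1 t).continuousAt.continuousWithinAt) fun t _ => h1 t
  have h2 := A.mon0 y hy ξ _ (RI.smul hσ c)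
  rw [(ip_basic σ _ σ c).2.2.2.2.1, mul_nonneg_iff_of_pos_left hc.1, (ip_basic σ _ σ c).1,
    (ip_basic _ _ σ c).2.2.2.1, (ip_basic _ σ σ c).1, (ip_basic (A.r (y, ξ)) σ σ c).1] at h2
  simp only [one_smul, zero_smul, smul_zero, add_zero, sub_zero, div_one] at e
  linarith

theorem Avg.leg {p : E n} (hp : p ∈ RI S.Q.I) {ε : ℝ} (hε : 0 < ε) :
    ∃ (G : P n → ℝ) (σ : P n → E n), ContDiffOn ℝ 2 G (S.M.T ×ˢ univ) ∧
      ∀ x : P n, x.1 ∈ S.M.T → σ x ∈ RI S.Q.I ∧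
        A.r (x.1, piI S.Q.I x.2 + Complex.I • σ x) = p - ε • σ x ∧ G x ≤ 0 ∧
        -G x ≤ ip (σ x) (p - A.r (x.1, piI S.Q.I x.2)) ∧ ∀ u : P n, ∃ w, piI S.Q.I w = 0 ∧
          A.omb (x.1, piI S.Q.I x.2 + Complex.I • σ x) (u.1, piI S.Q.I u.2 + w)
            (Complex.I • (u.1, piI S.Q.I u.2 + w)) ≤ A.omb (x.1, piI S.Q.I x.2)
              (u.1, piI S.Q.I u.2) (Complex.I • (u.1, piI S.Q.I u.2)) + Lv G x u := by
  obtain ⟨q0, q1, q2⟩ := clen1_quad p ε
  set Q := fun τ : E n => ε / 2 * nsq τ - ip p τ with hQ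
  obtain ⟨L, hL⟩ : ∃ L : P n × E n →L[ℝ] P n, ∀ z, L z =
      (z.1.1, piI S.Q.I z.1.2 + Complex.I • reI S.Q.I z.2) :=
    ⟨((ContinuousLinearMap.fst ℝ _ _).comp (ContinuousLinearMap.fst ℝ _ _)).prod
      ((((piI S.Q.I).restrictScalars ℝ).comp ((ContinuousLinearMap.snd ℝ _ _).comp
        (ContinuousLinearMap.fst ℝ _ _))) +
          Complex.I • (reI S.Q.I).comp (ContinuousLinearMap.snd ℝ _ _)), fun z => rfl⟩
  have a1 : ∀ z : P n × E n, z.1.1 ∈ S.M.T → ContDiffAt ℝ ∞ A.Φ (L z) := fun z hz =>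
    A.Φ_at (by rw [hL]; exact hz)
  have a2 : ∀ z : P n × E n, z.1.1 ∈ S.M.T → ContDiffAt ℝ ∞ (fun z => A.Φ (L z)) z := fun z hz =>
    (a1 z hz).comp z L.contDiff.contDiffAt
  have a3 : ∀ z : P n × E n, ContDiffAt ℝ ∞ (fun z : P n × E n => Q z.2) z := fun z =>
    (q0.comp contDiff_snd).contDiffAt
  have a4 : ∀ z : P n × E n, z.1.1 ∈ S.M.T → ∀ u : P n × E n,
      D2 (fun z => A.Φ (L z) + Q z.2) z u = D2 A.Φ (L z) (L u) + ε * nsq u.2 := fun z hz u => by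
    borelize (P n × E n)
    have b1 := D2_add ((a2 z hz).of_le (by norm_cast)) ((a3 z).of_le (by norm_cast)) 1 1 u
    simp only [one_mul] at b1
    rw [b1, D2_lin L ((a1 z hz).of_le (by norm_cast)), ← q2 z.2]
    exact congrArg _ (D2_lin (ContinuousLinearMap.snd ℝ (P n) (E n))
      (q0.contDiffAt.of_le (by norm_cast)) u)
  obtain ⟨σ, hG, hσ⟩ := legendre (W := S.M.T ×ˢ univ) (Φ := fun z => A.Φ (L z) + Q z.2)
    (S.M.T_open.prod isOpen_univ) (fun z hz => ((a2 z hz.1.1).add (a3 z)).contDiffWithinAt) hε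
    fun x hx τ v => by
      have hT : (L (x, τ)).1 ∈ S.M.T := by rw [hL]; exact hx.1
      have b1 : L (0, v) = (0, Complex.I • reI S.Q.I v) := by simp [hL]
      have b2 : 0 ≤ A.omb (L (x, τ)) (0, reI S.Q.I v) (0, Complex.I • reI S.Q.I v) := by
        by_cases h : ((0, reI S.Q.I v) : P n) = 0
        · simp [h]
        · simpa using (A.pos _ hT _ h).le
      rw [a4 _ hx.1, b1, A.Φ_conv _ hT _ (reI_mem _ v)]
      nlinarith [(nsq_le v).1]
  refine ⟨fun x => A.Φ (L (x, σ x)) + Q (σ x), σ, hG, fun x hx => ?_⟩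
  obtain ⟨m1, m2, m3⟩ := hσ x ⟨hx, mem_univ _⟩
  have hT : (L (x, σ x)).1 ∈ S.M.T := by rw [hL]; exact hx
  have c1 : A.r (L (x, σ x)) + ε • σ x - p = 0 := by
    set v := A.r (L (x, σ x)) + ε • σ x - p with hv
    have b1 := m2 v
    have b2 := (((a1 (x, σ x) hx).differentiableAt (by simp)).hasFDerivAt.comp (x, σ x)
      L.hasFDerivAt).add ((q0.differentiable (by simp) (σ x)).hasFDerivAt.comp (x, σ x)
        hasFDerivAt_snd)
    have b3 : L (0, v) = (0, Complex.I • reI S.Q.I v) := by simp [hL]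
    have b4 := b1.symm.trans (congrArg (fun B : P n × E n →L[ℝ] ℝ => B (0, v)) b2.fderiv)
    simp only [_root_.add_apply, ContinuousLinearMap.comp_apply, b3,
      ContinuousLinearMap.coe_snd', q1] at b4
    rw [A.Φ_tau _ hT _ (reI_mem _ v), ip_reI (A.r_mem _), (ip_basic v _ v 0).1] at b4
    have b5 : ip v v = 0 := by
      rw [hv, (ip_basic _ _ _ 0).2.2.2.1, (ip_basic _ _ _ 0).2.2.1, (ip_basic _ _ v ε).2.2.2.2.1]
      linarith
    have b6 := (nsq_le v).1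
    rw [← (ip_basic v v v 0).2.1, b5] at b6
    exact norm_eq_zero.1 (pow_eq_zero_iff two_ne_zero |>.1 (le_antisymm b6 (sq_nonneg _)))
  have c2 : σ x ∈ RI S.Q.I := by
    have : σ x = ε⁻¹ • (p - A.r (L (x, σ x))) := by
      rw [eq_inv_smul_iff₀ hε.ne', eq_sub_iff_add_eq, add_comm]
      exact sub_eq_zero.1 c1
    rw [this]
    exact RI.smul (RI.sub hp (A.r_mem _)) _
  have c3 : L (x, σ x) = (x.1, piI S.Q.I x.2 + Complex.I • σ x) := by
    rw [hL, (RI.proj c2).2.2.1]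
  have c4 : A.Φ (x.1, piI S.Q.I x.2) = 0 := A.Φ_zero _ hx (proj_piI _ _).2.1
  refine ⟨c2, ?_, ?_, ?_, fun u => ?_⟩
  · rw [← c3, eq_sub_iff_add_eq]
    exact sub_eq_zero.1 c1
  · have := m1 0
    simpa [hL, c4, hQ, nsq, ip] using this
  · have b1 := A.Φ_ge hx (piI S.Q.I x.2) c2
    have b2 : 0 ≤ ε / 2 * nsq (σ x) := mul_nonneg (by linarith) ((sq_nonneg _).trans (nsq_le _).1)
    rw [(ip_basic (σ x) _ p 0).1, (ip_basic _ _ _ 0).2.2.2.1, (ip_basic (A.r _) (σ x) p 0).1]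
    simp only [hQ, c3]
    linarith
  · obtain ⟨b, hb⟩ := m3 u
    obtain ⟨b', hb'⟩ := m3 (Complex.I • u)
    have r1 := reI_mem S.Q.I b
    have r2 := reI_mem S.Q.I b'
    refine ⟨Complex.I • reI S.Q.I b + reI S.Q.I b', by
      rw [map_add, (RI.proj r1).2.2.2.1, (RI.proj r2).1, add_zero], ?_⟩
    have e1 : ((u.1, piI S.Q.I u.2 + (Complex.I • reI S.Q.I b + reI S.Q.I b')) : P n) =
        L (u, b) + (0, reI S.Q.I b') := by simp [hL, add_assoc]
    have e2 : Complex.I • ((u.1, piI S.Q.I u.2 + (Complex.I • reI S.Q.I b + reI S.Q.I b')) : P n) =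
        L (Complex.I • u, b') + (0, -reI S.Q.I b) := by
      simp only [hL, Prod.smul_mk, Prod.smul_fst, Prod.smul_snd, map_smul, smul_add, smul_smul,
        Complex.I_mul_I, neg_smul, one_smul, Prod.mk_add_mk, add_zero]
      congr 1
      abel
    have e3 := A.LP _ hT (u.1, piI S.Q.I u.2 + (Complex.I • reI S.Q.I b + reI S.Q.I b'))
    rw [Lv] at e3
    nth_rewrite 1 [e2, e1] at e3
    rw [A.D2_RI hT _ r2, A.D2_RI hT _ (RI.neg r1)] at e3
    rw [Lv, hb, hb', a4 _ hx, a4 _ hx]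
    rw [c3] at e3 ⊢
    simp only [map_add, (proj_piI _ _).1, (RI.proj c2).2.2.2.1, (RI.proj r1).2.2.2.1,
      (RI.proj r2).1, add_zero] at e3
    have n1 := mul_nonneg hε.le ((sq_nonneg _).trans (nsq_le b).1)
    have n2 := mul_nonneg hε.le ((sq_nonneg _).trans (nsq_le b').1)
    linarith

end Pool.Agent.CL
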