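import Pool.Agent.K.MP_63735c_ag.C85
import Pool.Agent.K.MP_63735c_ag.C70

/-! Tubes around graphs; the minimiser near a graph. -/

open scoped ContDiff Matrix ENNReal
open Set Metric MeasureTheory Filter Topology

namespace Pool.Agent.CL

open Pool.Agent.SPF

variable {n : ℕ}

/-- A tube around the graph of `b` over `Y`. -/
def tube (I : Finset (Fin n)) (b : E n → E n) (Y : Set (E n)) (δ R : ℝ) : Set (P n) :=
  {x | x.1 ∈ Y ∧ x.2 ∈ ball 0 R ∧ ‖piI I x.2 - b x.1‖ < δ}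

lemma clen3_slab (I : Finset (Fin n)) {δ : ℝ} (hδ : 0 < δ) : ∃ w > (0 : ℝ), ∀ (R : ℝ) (b : E n),
    piI I b = b → ‖b‖ + δ ≤ R → ENNReal.ofReal (w * R ^ (2 * I.card)) ≤
      volume {ξ : E n | ξ ∈ ball 0 R ∧ ‖piI I ξ - b‖ < δ} := by
  refine ⟨∏ k, if k ∈ I then Real.pi else δ ^ 2 * Real.pi,
    Finset.prod_pos fun k _ => by split_ifs <;> positivity, fun R b hb hR => ?_⟩
  have hR0 : 0 < R := by linarith [norm_nonneg b]
  have h1 : (Set.pi univ fun k => if k ∈ I then ball (0 : ℂ) R else ball (b k) δ) ⊆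
      {ξ : E n | ξ ∈ ball 0 R ∧ ‖piI I ξ - b‖ < δ} := by
    intro ξ hξ
    refine ⟨mem_ball_zero_iff.2 ((pi_norm_lt_iff hR0).2 fun k => ?_),
      (pi_norm_lt_iff hδ).2 fun k => ?_⟩ <;> have := hξ k (mem_univ _) <;> by_cases h : k ∈ I
    · simpa [h] using this
    · simp only [h, if_false, mem_ball, dist_eq_norm] at this
      linarith [norm_le_insert' (ξ k) (b k), norm_le_pi_norm b k]
    · rw [← hb]; simpa [piI_apply, h] using hδ
    · simpa [piI_apply, h, dist_eq_norm] using this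
  refine le_trans (le_of_eq ?_) (measure_mono h1)
  have h2 : R ^ (2 * I.card) = ∏ k : Fin n, if k ∈ I then R ^ 2 else 1 := by
    rw [Finset.prod_ite_mem, Finset.univ_inter, Finset.prod_const, pow_mul]
  rw [volume_pi_pi, h2, ← Finset.prod_mul_distrib, ENNReal.ofReal_prod_of_nonneg
    fun k _ => by split_ifs <;> positivity]
  refine Finset.prod_congr rfl fun k _ => ?_
  have hp : ENNReal.ofReal Real.pi = NNReal.pi := by rw [← NNReal.coe_real_pi, ENNReal.ofReal_coe_nnreal]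
  split_ifs
  · rw [Complex.volume_ball, mul_comm, ENNReal.ofReal_mul (by positivity),
      ENNReal.ofReal_pow hR0.le, hp]
  · rw [Complex.volume_ball, mul_one, ENNReal.ofReal_mul (by positivity),
      ENNReal.ofReal_pow hδ.le, hp]

lemma tube_open (I : Finset (Fin n)) {b : E n → E n} {Y : Set (E n)} (hY : IsOpen Y)
    (hb : ContinuousOn b Y) (δ R : ℝ) : IsOpen (tube I b Y δ R) := by
  have h1 : ContinuousOn (fun x : P n => ‖piI I x.2 - b x.1‖) (Y ×ˢ ball 0 R) :=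
    (((piI I).continuous.comp continuous_snd).continuousOn.sub
      (hb.comp continuousOn_fst fun x hx => hx.1)).norm
  have h2 := h1.isOpen_inter_preimage (hY.prod isOpen_ball) (isOpen_Iio (a := δ))
  have e : tube I b Y δ R = Y ×ˢ ball 0 R ∩ (fun x : P n => ‖piI I x.2 - b x.1‖) ⁻¹' Iio δ :=
    Set.ext fun x => and_assoc.symm
  rwa [e]

lemma tube_int (I : Finset (Fin n)) {δ : ℝ} (hδ : 0 < δ) : ∃ w > (0 : ℝ), ∀ (R : ℝ)
    (b : E n → E n) (Y : Set (E n)) (g : E n → ℝ≥0∞), IsOpen Y → ContinuousOn b Y →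
    (∀ y ∈ Y, piI I (b y) = b y ∧ ‖b y‖ + δ ≤ R) → Measurable g →
    ENNReal.ofReal (w * R ^ (2 * I.card)) * ∫⁻ y in Y, g y ≤ ∫⁻ x in tube I b Y δ R, g x.1 := by
  obtain ⟨w, hw, h⟩ := clen3_slab I hδ
  refine ⟨w, hw, fun R b Y g hY hb hp hg => ?_⟩
  have hm := (tube_open I hY hb δ R).measurableSet
  have hg' : Measurable fun x : P n => g x.1 := hg.comp measurable_fst
  rw [← lintegral_indicator hm, Measure.volume_eq_prod,
    lintegral_prod _ (hg'.indicator hm).aemeasurable,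
    ← lintegral_const_mul' _ _ ENNReal.ofReal_ne_top, ← lintegral_indicator hY.measurableSet]
  refine lintegral_mono fun y => ?_
  by_cases hy : y ∈ Y
  · have e : ∀ ξ, (tube I b Y δ R).indicator (fun x => g x.1) (y, ξ) =
        {ξ : E n | ξ ∈ ball 0 R ∧ ‖piI I ξ - b y‖ < δ}.indicator (fun _ => g y) ξ := fun ξ => by
      by_cases hξ : ξ ∈ {ξ : E n | ξ ∈ ball 0 R ∧ ‖piI I ξ - b y‖ < δ}
      · rw [indicator_of_mem hξ, indicator_of_mem (show (y, ξ) ∈ tube I b Y δ R from ⟨hy, hξ⟩)]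
      · rw [indicator_of_notMem hξ, indicator_of_notMem fun h' => hξ h'.2]
    simp only [e]
    rw [indicator_of_mem hy, lintegral_indicator_const, mul_comm]
    · exact mul_le_mul_right (h R _ (hp y hy).1 (hp y hy).2) _
    · exact (isOpen_ball.inter (isOpen_lt ((piI I).continuous.sub continuous_const).norm
        continuous_const)).measurableSet
  · rw [indicator_of_notMem hy]
    exact zero_le

lemma opn_sq (L : E n →L[ℂ] E n) : ‖L‖ ^ 2 ≤ n * ∑ k, ‖L (Pi.single k 1)‖ ^ 2 := by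
  have h1 : ‖L‖ ≤ ∑ k, ‖L (Pi.single k 1)‖ := by
    refine L.opNorm_le_bound (Finset.sum_nonneg fun _ _ => norm_nonneg _) fun u => ?_
    have e : u = ∑ k, u k • (Pi.single k 1 : E n) := by
      funext j
      simp [Finset.sum_apply, Pi.single_apply]
    conv_lhs => rw [e, map_sum]
    rw [Finset.sum_mul]
    refine (norm_sum_le _ _).trans (Finset.sum_le_sum fun k _ => ?_)
    rw [map_smul, norm_smul, mul_comm]
    exact mul_le_mul_of_nonneg_left (norm_le_pi_norm u k) (norm_nonneg _)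
  refine (pow_le_pow_left₀ (norm_nonneg _) h1 2).trans ?_
  simpa using sq_sum_le_card_mul_sum_sq (s := Finset.univ) (f := fun k => ‖L (Pi.single k 1)‖)

variable {X : Type} [TopologicalSpace X] [T2Space X] [MeasurableSpace X]

namespace Big

variable {B : Big n X} {l : B.Lab} {y : E n} {g : Ret n}

omit [T2Space X] in
lemma bb_pi (l : B.Lab) (y : E n) : piI B.S.Q.I (B.bb l y) = B.bb l y := (proj_piI _ _).1

omit [T2Space X] in
lemma ball_T (B : Big n X) {t : ℝ} (ht : t ≤ 4 * B.S.G.r) : closedBall B.S.G.y0 t ⊆ B.S.M.T :=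
  (closedBall_subset_closedBall ht).trans B.S.G.sub

lemma At.split (h : B.At l y g) :
    g.α y + -reI B.S.Q.I (g.α y) = Complex.I • B.tt l y + B.bb l y := by
  obtain ⟨-, h1, h2⟩ := h.bt.self_of_nhds
  rw [h1, h2]
  nth_rewrite 1 [split_I B.S.Q.I (g.α y)]
  abel

lemma At.r_eq (h : B.At l y g) : B.A.r (y, g.α y) = B.A.r (y, Complex.I • B.tt l y + B.bb l y) := by
  have hT : y ∈ B.S.M.T := B.ball_T (by linarith [B.S.G.r_pos]) (ball_subset_closedBall h.1)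
  rw [← h.split, B.A.r_RI y hT _ _ (RI.neg (reI_mem _ _))]

lemma At.close (h : B.At l y g) (hl : B.lg.sz l ≤ B.lg.ε) {p ζ σ : E n} {ε M : ℝ} (hε : 0 ≤ ε)
    (hσ : σ ∈ RI B.S.Q.I) (hr : B.A.r (y, ζ + Complex.I • σ) = p - ε • σ)
    (h1 : ‖ζ - B.bb l y‖ ≤ 1 / 2) (h2 : B.A.C * ‖ζ - B.bb l y‖ ≤ B.A.c / (8 * n))
    (h3 : ‖B.A.r (y, g.α y) - p‖ ≤ B.A.c / (8 * n)) (h4 : ‖B.tt l y‖ ≤ M)
    (h5 : ε * M ≤ B.A.c / (8 * n)) : ‖σ - B.tt l y‖ ≤ 1 / 2 ∧ ∀ e w : E n, piI B.S.Q.I w = 0 →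
      B.A.c * ‖fderiv ℂ (B.bb l) y e‖ ^ 2 - B.A.C * ‖e‖ ^ 2 ≤
        B.A.omb (y, ζ + Complex.I • σ) (e, w) (Complex.I • (e, w)) := by
  have hr0 := B.S.G.r_pos
  have hT : y ∈ B.S.M.T := B.ball_T (by linarith) (ball_subset_closedBall h.1)
  have hy : y ∈ ball B.S.G.y0 (3 / 2 * B.S.G.r) := ball_subset_ball (by linarith) h.1
  have hs := RI.neg (reI_mem B.S.Q.I (g.α y))
  have hn : (0 : ℝ) < n := by exact_mod_cast B.S.M.n_pos
  have hc := B.A.c_pos
  set v := σ - B.tt l y with hv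
  have hvm : v ∈ RI B.S.Q.I := RI.sub hσ (tauI_mem _ _)
  have e1 : g.α y + -reI B.S.Q.I (g.α y) + (ζ - B.bb l y) + Complex.I • v = ζ + Complex.I • σ := by
    rw [h.split, hv, smul_sub]; abel
  have k1 : ‖v‖ ≤ 1 / 2 := by
    by_contra hlt
    have m := B.A.mon1 _ y hy g (h.sm hl) _ hs _ h1 v hvm
    rw [e1, hr, min_eq_right (not_le.1 hlt).le] at m
    set q := B.A.r (y, g.α y + -reI B.S.Q.I (g.α y) + (ζ - B.bb l y)) with hq
    have a1 : ‖q - B.A.r (y, g.α y)‖ ≤ B.A.C * ‖ζ - B.bb l y‖ := by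
      rw [← B.A.r_RI y hT (g.α y) _ hs]
      simpa only [add_sub_cancel_left] using B.A.r_lip y hT
        (g.α y + -reI B.S.Q.I (g.α y) + (ζ - B.bb l y)) (g.α y + -reI B.S.Q.I (g.α y))
    have a2 : ‖p - q - ε • B.tt l y‖ ≤ 3 * (B.A.c / (8 * n)) := by
      have b1 := norm_sub_le (p - q) (ε • B.tt l y)
      have b2 := norm_sub_le_norm_sub_add_norm_sub p (B.A.r (y, g.α y)) q
      rw [norm_smul, Real.norm_of_nonneg hε] at b1
      rw [norm_sub_rev] at a1 h3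
      linarith [mul_le_mul_of_nonneg_left h4 hε]
    have e2 : p - ε • σ - q = (p - q - ε • B.tt l y) - ε • v := by rw [hv, smul_sub]; abel
    rw [e2, (ip_basic v _ v 0).1, (ip_basic _ _ v 0).2.2.2.1, (ip_basic v v v ε).2.2.2.2.1,
      (ip_basic v v v ε).2.1] at m
    have a3 := (le_abs_self _).trans (ip_basic (p - q - ε • B.tt l y) v v 0).2.2.2.2.2.1
    have a4 := mul_nonneg hε ((sq_nonneg _).trans (nsq_le v).1)
    have a5 := mul_le_mul_of_nonneg_right (mul_le_mul_of_nonneg_left a2 hn.le) (norm_nonneg v)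
    have a6 : n * (3 * (B.A.c / (8 * n))) = 3 / 8 * B.A.c := by field_simp
    rw [a6] at a5
    nlinarith [mul_pos hc (show 0 < ‖v‖ by linarith [not_le.1 hlt])]
  refine ⟨k1, fun e w hw => ?_⟩
  have k2 : ‖ζ - B.bb l y + Complex.I • v‖ ≤ 1 := by
    have := norm_add_le (ζ - B.bb l y) (Complex.I • v)
    rw [norm_smul, Complex.norm_I, one_mul] at this
    linarith
  have k3 := (B.A.TG _ y hy g (h.sm hl) _ hs _ k2).2 e w hw
  rw [← add_assoc, e1] at k3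
  obtain ⟨O, hO, hyO⟩ := h.germ.1
  have k4 : B.bb l =ᶠ[𝓝 y] fun x => piI B.S.Q.I (g.α x) := h.bt.mono fun x hx => hx.2.1
  have k5 := (piI B.S.Q.I).hasFDerivAt.comp y
    (hO.α_hol.differentiableAt (hO.isOpen.mem_nhds hyO)).hasFDerivAt
  rw [k4.fderiv_eq, show fderiv ℂ (fun x => piI B.S.Q.I (g.α x)) y = _ from k5.fderiv]
  exact k3

/-- The part of the domain below given heights. -/
def Yl (B : Big n X) (l : B.Lab) (e R M : ℝ) : Set (E n) :=
  {y | y ∈ ball B.S.G.y0 e ∧ y ∈ B.Om l ∧ ‖B.bb l y‖ < R ∧ ‖B.tt l y‖ < M}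

lemma Yl_open (l : B.Lab) (e R M : ℝ) : IsOpen (B.Yl l e R M) := by
  have h1 := (bb_hol l).continuousOn.norm.isOpen_inter_preimage (isOpen_Om l) (isOpen_Iio (a := R))
  have h2 := (tt_smooth l).continuousOn.norm.isOpen_inter_preimage (isOpen_Om l)
    (isOpen_Iio (a := M))
  have e : B.Yl l e R M = ball B.S.G.y0 e ∩ ((B.Om l ∩ (fun x => ‖B.bb l x‖) ⁻¹' Iio R) ∩
      (B.Om l ∩ (fun x => ‖B.tt l x‖) ⁻¹' Iio M)) := Set.ext fun x =>
    ⟨fun h => ⟨h.1, ⟨h.2.1, h.2.2.1⟩, h.2.1, h.2.2.2⟩, fun h => ⟨h.1, h.2.1.1, h.2.1.2, h.2.2.2⟩⟩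
  exact e ▸ isOpen_ball.inter (h1.inter h2)

omit [T2Space X] in
lemma trh_cont (B : Big n X) :
    ContinuousOn (fun x : P n => trh B.A.omb (x.1, piI B.S.Q.I x.2)) (B.S.M.T ×ˢ univ) := by
  have h : ContinuousOn (fun x : P n => B.A.omb (x.1, piI B.S.Q.I x.2)) (B.S.M.T ×ˢ univ) :=
    B.A.closed.1.continuousOn.comp (by fun_prop) fun x hx => ⟨hx.1, mem_univ _⟩
  exact continuousOn_finsetSum _ fun k _ =>
    (h.clm_apply continuousOn_const).clm_apply continuousOn_const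

omit [T2Space X] in
lemma omb_nonneg (B : Big n X) {p : P n} (hp : p.1 ∈ B.S.M.T) (u : P n) :
    0 ≤ B.A.omb p u (Complex.I • u) := by
  by_cases h : u = 0
  · simp [h]
  · exact (B.A.pos _ hp _ h).le

/-- The regularised Legendre transform, with the bounds used for the energy. -/
theorem leg (B : Big n X) {p : E n} (hp : p ∈ RI B.S.Q.I) {M : ℝ} (hM : 0 < M) :
    ∃ G : P n → ℝ, ContDiffOn ℝ 2 G (B.S.M.T ×ˢ univ) ∧ ∀ x : P n, x.1 ∈ B.S.M.T →
      (G x ≤ 0 ∧ 0 ≤ trh B.A.omb (x.1, piI B.S.Q.I x.2) ∧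
        0 ≤ trh B.A.omb (x.1, piI B.S.Q.I x.2) + trL G x ∧ ∀ u : P n, -Lv G x u ≤
          B.A.C * (trh B.A.omb (x.1, piI B.S.Q.I x.2) * ‖u.1‖ ^ 2 + ‖u.2‖ ^ 2)) ∧
      ∀ l g, B.At l x.1 g → B.lg.sz l ≤ B.lg.ε → ‖piI B.S.Q.I x.2 - B.bb l x.1‖ ≤ 1 / 2 →
        B.A.C * ‖piI B.S.Q.I x.2 - B.bb l x.1‖ ≤ B.A.c / (8 * n) →
        ‖B.A.r (x.1, g.α x.1) - p‖ ≤ B.A.c / (8 * n) → ‖B.tt l x.1‖ ≤ M →
        B.A.c / n * ‖fderiv ℂ (B.bb l) x.1‖ ^ 2 ≤
          trh B.A.omb (x.1, piI B.S.Q.I x.2) + trL G x + B.A.C * n ∧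
        ∀ R ≥ (1 : ℝ), ‖B.tt l x.1‖ ≤ R → -G x ≤ n * 2 * (B.A.c / (8 * n) + 2 * B.A.C) * R ^ 2 := by
  have hn : (0 : ℝ) < n := by exact_mod_cast B.S.M.n_pos
  have hc := B.A.c_pos
  have hC := zero_lt_one.trans_le B.A.C_ge
  obtain ⟨G, σ, hG, h⟩ := B.A.leg hp (show 0 < B.A.c / (8 * n) / M by positivity)
  refine ⟨G, hG, fun x hx => ?_⟩
  obtain ⟨h1, h2, h3, h4, h5⟩ := h x hx
  have sp := B.A.split (x.1, piI B.S.Q.I x.2) hx
  refine ⟨⟨h3, (sp 0).1, ?_, fun u => ?_⟩, fun l g hg hl a1 a2 a3 a4 => ?_⟩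
  · rw [trh, trL, ← Finset.sum_add_distrib]
    refine Finset.sum_nonneg fun k _ => ?_
    obtain ⟨w, -, hw⟩ := h5 (Pi.single k 1, 0)
    simp only [map_zero] at hw
    exact (B.omb_nonneg (p := (x.1, piI B.S.Q.I x.2 + Complex.I • σ x)) hx _).trans hw
  · obtain ⟨w, -, hw⟩ := h5 u
    have b1 := (B.omb_nonneg (p := (x.1, piI B.S.Q.I x.2 + Complex.I • σ x)) hx _).trans hw
    have b2 := (sp (u.1, piI B.S.Q.I u.2)).2
    have b3 := mul_le_mul_of_nonneg_left (pow_le_pow_left₀ (norm_nonneg _)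
      (proj_norm B.S.Q.I u.2).1 2) hC.le
    simp only [mul_add] at b2 ⊢
    linarith
  obtain ⟨k1, k2⟩ := hg.close hl (by positivity) h1 h2 a1 a2 a3 a4 (by
    rw [div_mul_cancel₀ _ hM.ne'])
  refine ⟨?_, fun R hR hτ => h4.trans ((le_abs_self _).trans
    ((ip_basic _ _ p 0).2.2.2.2.2.1.trans ?_))⟩
  · have b1 : ∀ k ∈ Finset.univ, B.A.c * ‖fderiv ℂ (B.bb l) x.1 (Pi.single k 1)‖ ^ 2 ≤
        B.A.omb (x.1, piI B.S.Q.I x.2) (Pi.single k 1, 0) (Complex.I • (Pi.single k 1, 0)) +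
          Lv G x (Pi.single k 1, 0) + B.A.C := fun k _ => by
      obtain ⟨w, hw0, hw⟩ := h5 (Pi.single k 1, 0)
      simp only [map_zero, zero_add] at hw
      have := k2 (Pi.single k 1) w hw0
      rw [Pi.norm_single, norm_one, one_pow, mul_one] at this
      linarith
    have b2 := Finset.sum_le_sum b1
    rw [← Finset.mul_sum, Finset.sum_add_distrib, Finset.sum_add_distrib, Finset.sum_const,
      Finset.card_univ, Fintype.card_fin, nsmul_eq_mul, mul_comm (n : ℝ)] at b2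
    refine le_trans ?_ b2
    rw [div_mul_eq_mul_div, div_le_iff₀ hn, mul_assoc, mul_comm _ (n : ℝ)]
    exact mul_le_mul_of_nonneg_left (opn_sq _) hc.le
  · have b1 : ‖σ x‖ ≤ 2 * R := by linarith [norm_le_insert' (σ x) (B.tt l x.1)]
    have b2 := B.A.r_lip x.1 hx (Complex.I • B.tt l x.1 + B.bb l x.1) (piI B.S.Q.I x.2)
    have b3 := norm_add_le (Complex.I • B.tt l x.1) (B.bb l x.1 - piI B.S.Q.I x.2)
    rw [← hg.r_eq, add_sub_assoc] at b2
    rw [norm_smul, Complex.norm_I, one_mul, norm_sub_rev (B.bb l x.1)] at b3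
    have b4 := norm_sub_le_norm_sub_add_norm_sub p (B.A.r (x.1, g.α x.1))
      (B.A.r (x.1, piI B.S.Q.I x.2))
    rw [norm_sub_rev] at a3
    have b5 := mul_le_mul_of_nonneg_left (b3.trans (show _ ≤ 2 * R by linarith)) hC.le
    have b6 : B.A.c / (8 * n) ≤ B.A.c / (8 * n) * R := le_mul_of_one_le_right (by positivity) hR
    have b7 : ‖p - B.A.r (x.1, piI B.S.Q.I x.2)‖ ≤ (B.A.c / (8 * n) + 2 * B.A.C) * R := by
      linarith
    calc n * ‖σ x‖ * ‖p - B.A.r (x.1, piI B.S.Q.I x.2)‖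
        ≤ n * (2 * R) * ((B.A.c / (8 * n) + 2 * B.A.C) * R) := by gcongr
      _ = _ := by ring

end Big

end Pool.Agent.CL
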