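import Pool.Agent.K.MP_63735c_ag.C81
import Pool.Agent.K.MP_63735c_ag.C82
import Pool.Agent.K.MP_63735c_ag.C87

/-! One centre for good labels in all directions. -/

open scoped ContDiff Matrix ENNReal
open Set Metric MeasureTheory Filter Topology

namespace Pool.Agent.CL

open Pool.Agent.SPF

lemma clcentre_cells {ι κ : Type} [DecidableEq κ] (Q : Finset ι) (F : Finset κ) (k : ι → κ)
    (hk : ∀ l ∈ Q, k l ∈ F) (m : ι → ℝ) (En : ι → ℝ≥0∞) {a b N : ℝ} (ha : 0 ≤ a)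
    (hN : (F.card : ℝ) ≤ N) (h1 : 2 * (N * a) ≤ ∑ l ∈ Q, m l)
    (h2 : ∀ c ∈ F, a ≤ ∑ l ∈ Q.filter (k · = c), m l →
      ∑ l ∈ Q.filter (k · = c), En l ≤ ENNReal.ofReal b) :
    ∃ Q1 ⊆ Q, N * a ≤ ∑ l ∈ Q1, m l ∧ ∑ l ∈ Q1, En l ≤ ENNReal.ofReal (N * b) := by
  classical
  let p : κ → Prop := fun c => a ≤ ∑ l ∈ Q.filter (k · = c), m l
  refine ⟨Q.filter fun l => k l ∈ F.filter p, Finset.filter_subset _ _, ?_, ?_⟩
  · rw [← Finset.sum_fiberwise_eq_sum_filter]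
    rw [← Finset.sum_fiberwise_of_maps_to hk, ← Finset.sum_filter_add_sum_filter_not F p] at h1
    have h3 := Finset.sum_le_card_nsmul (F.filter fun c => ¬p c)
      (fun c => ∑ l ∈ Q.filter (k · = c), m l) a fun c hc => (not_le.1 (Finset.mem_filter.1 hc).2).le
    have h4 : ((F.filter fun c => ¬p c).card : ℝ) ≤ N :=
      le_trans (by exact_mod_cast Finset.card_filter_le _ _) hN
    rw [nsmul_eq_mul] at h3
    nlinarith [mul_le_mul_of_nonneg_right h4 ha]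
  · rw [← Finset.sum_fiberwise_eq_sum_filter]
    refine (Finset.sum_le_card_nsmul _ _ (ENNReal.ofReal b) fun c hc =>
      h2 c (Finset.mem_filter.1 hc).1 (Finset.mem_filter.1 hc).2).trans ?_
    rw [nsmul_eq_mul, ENNReal.ofReal_mul (le_trans (Nat.cast_nonneg _) hN),
      ← ENNReal.ofReal_natCast]
    refine mul_le_mul_left (ENNReal.ofReal_le_ofReal ?_) _
    exact le_trans (by exact_mod_cast Finset.card_filter_le _ _) hN

variable {n : ℕ} {X : Type} [TopologicalSpace X] [T2Space X] [MeasurableSpace X]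

namespace Big

variable {B : Big n X} {l l' : B.Lab} {y : E n} {g g' : Ret n}

lemma clcentre_mom (B : Big n X) {η : ℝ} (hη : 0 < η) : ∃ om > (0 : ℝ), ∀ l y, B.lg.sz l ≤ B.lg.ε →
    B.lg.L * B.lg.sz l ≤ om → y ∈ ball B.S.G.y0 om →
    (∀ g, B.At l y g → ‖B.A.r (y, g.α y) - B.pl l‖ ≤ η) ∧ ∀ R ≥ (1 : ℝ), y ∈ B.Om l →
      ‖B.bb l y‖ < R → ‖B.tt l y‖ < R → ‖B.rho l‖ ≤ (2 * η + 3 * B.A.C) * R := by
  have hr := B.S.G.r_pos
  have hT : ∀ x ∈ ball B.S.G.y0 B.S.G.r, x ∈ B.S.M.T := fun x hx =>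
    B.S.G.sub (ball_subset_closedBall (ball_subset_ball (by linarith) hx))
  have hc : ContinuousAt (fun x => B.A.r (x, 0)) B.S.G.y0 :=
    ContinuousAt.comp (f := fun x : E n => (x, (0 : E n))) (B.A.r_smooth.continuousOn.continuousAt
      ((B.S.M.T_open.prod isOpen_univ).mem_nhds ⟨hT _ (mem_ball_self hr), trivial⟩)) (by fun_prop)
  obtain ⟨om, hom, h⟩ := Metric.continuousAt_iff.1 hc η hη
  simp only [dist_eq_norm] at h
  refine ⟨om / 2, by positivity, fun l y hl hL hy => ?_⟩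
  rw [mem_ball, dist_eq_norm] at hy
  have h1 : ∀ g, B.At l y g → ‖B.A.r (y, g.α y) - B.pl l‖ ≤ η := by
    intro g hg
    have a1 := (B.S.G.near l.1 hl y (ball_subset_ball (by linarith) hg.1)).1.trans hL
    have a2 := norm_sub_le_norm_sub_add_norm_sub (B.S.G.γ l.1 y) y B.S.G.y0
    rw [hg.mom0, pl, sub_sub_sub_cancel_right]
    exact (h (by linarith)).le
  refine ⟨h1, fun R hR hO hb ht => ?_⟩
  obtain ⟨g, hg, -, a1⟩ := exists_at hO
  have a2 := B.A.r_lip y (hT y hg.1) (g.α y) 0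
  have a3 := h (x := y) (by linarith)
  have a4 := h1 g hg
  have e : B.rho l = (B.A.r (y, g.α y) - B.pl l) - (B.A.r (y, g.α y) - B.A.r (y, 0)) -
      (B.A.r (y, 0) - B.A.r (B.S.G.y0, 0)) := by
    rw [pl]
    abel
  have a5 := (norm_sub_le _ _).trans (add_le_add ((norm_sub_le _ _).trans (add_le_add a4 a2)) a3.le)
  rw [← e, sub_zero] at a5
  have hC := B.A.C_ge
  have a6 := mul_le_mul_of_nonneg_left (show ‖g.α y‖ ≤ 3 * R by linarith) (show 0 ≤ B.A.C by linarith)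
  nlinarith

theorem centre (B : Big n X) {e ε θ A : ℝ} (he : 0 < e) (hε : 0 < ε) (hθ : 0 < θ) (hA : 1 ≤ A) :
    ∃ s κ C R0 : ℝ, 0 < s ∧ s ≤ ε ∧ 0 < κ ∧ 1 ≤ C ∧ ∀ R ≥ R0, ∃ y ∈ ball B.S.G.y0 ε,
      ∀ v ∈ EE B.S.Q.I, nsq v = 1 → ∃ l, B.lg.sz l ≤ e ∧ y ∈ B.Om l ∧ ‖B.bb l y‖ < R ∧
        B.el l y s (A * R) ≤ ENNReal.ofReal (θ * R ^ 2) ∧ ‖B.rho l‖ ≤ C * R ∧
        κ * R ≤ |ip (B.bb l y - Complex.I • B.rho l) v| := by
  classical
  have hn : (0 : ℝ) < n := by exact_mod_cast B.S.M.n_pos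
  have hc := B.A.c_pos
  have hCA := B.A.C_ge
  have hL := B.lg.L_ge
  have hr := B.S.G.r_pos
  obtain ⟨η, hη, eη⟩ : ∃ η > (0 : ℝ), η + η = B.A.c / (8 * n) :=
    ⟨B.A.c / (8 * n) / 2, by positivity, by ring⟩
  obtain ⟨om, hom, hmom⟩ := B.clcentre_mom hη
  obtain ⟨δ, hδ, es, hes, hes1, hsep⟩ := B.sep
  obtain ⟨e0, h0, h01, h02, h03⟩ : ∃ e0 > (0 : ℝ), e0 ≤ e ∧ e0 ≤ es ∧ B.lg.L * e0 ≤ om :=
    ⟨min (min e es) (om / B.lg.L), by positivity, (min_le_left _ _).trans (min_le_left _ _),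
      (min_le_left _ _).trans (min_le_right _ _),
      (le_div_iff₀' (by positivity)).1 (min_le_right _ _)⟩
  obtain ⟨ε', h1, h11, h12, h13, h14⟩ : ∃ ε' > (0 : ℝ), ε' ≤ ε ∧ 40 * ε' ≤ B.S.G.r ∧ 2 * ε' ≤ om ∧
      2 * B.lg.L * ε' ≤ e0 :=
    ⟨min (min ε (B.S.G.r / 40)) (min (om / 2) (e0 / (2 * B.lg.L))), by positivity,
      (min_le_left _ _).trans (min_le_left _ _),
      (le_div_iff₀' (by positivity)).1 ((min_le_left _ _).trans (min_le_right _ _)),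
      (le_div_iff₀' (by positivity)).1 ((min_le_right _ _).trans (min_le_left _ _)),
      (le_div_iff₀' (by positivity)).1 ((min_le_right _ _).trans (min_le_right _ _))⟩
  obtain ⟨dc, h2, h21, h22⟩ : ∃ dc > (0 : ℝ), dc + dc ≤ δ ∧ dc ≤ η :=
    ⟨min (δ / 2) η, by positivity, by linarith [min_le_left (δ / 2) η], min_le_right _ _⟩
  obtain ⟨C1, hC1, eC1⟩ : ∃ C1 ≥ (1 : ℝ), C1 = 2 * η + 3 * B.A.C := ⟨_, by linarith, rfl⟩
  obtain ⟨C2, hC2, eC2⟩ : ∃ C2 > (0 : ℝ), C2 = (2 * (C1 / dc) + 5) ^ B.S.Q.I.card :=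
    ⟨_, by positivity, rfl⟩
  obtain ⟨c1, hc1, hrich⟩ := B.rich_lab h0 (h02.trans hes1) h1 (by linarith) h14
  obtain ⟨D, hD, hen⟩ := B.energy h1 h12 hδ (c := c1 / 2 / C2) (by positivity) hA
  obtain ⟨K, hK, hel⟩ := el_int n
  obtain ⟨V, hV, eV⟩ : ∃ V ≥ (0 : ℝ), V = (volume (ball B.S.G.y0 ε')).toReal :=
    ⟨_, ENNReal.toReal_nonneg, rfl⟩
  obtain ⟨c4, hc4, h41⟩ : ∃ c4 > (0 : ℝ), c4 * V ≤ c1 / 8 :=
    ⟨c1 / 8 / (V + 1), by positivity, by
      rw [div_mul_eq_mul_div, div_le_iff₀ (by positivity)]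
      nlinarith⟩
  obtain ⟨s, hs, hs1, hs2⟩ : ∃ s > (0 : ℝ), s ≤ ε' ∧ K * s ^ 2 * (C2 * D) ≤ θ * c1 / 8 := by
    refine ⟨min (min ε' 1) (θ * c1 / 8 / (K * (C2 * D) + 1)), by positivity,
      (min_le_left _ _).trans (min_le_left _ _), ?_⟩
    set s := min (min ε' 1) (θ * c1 / 8 / (K * (C2 * D) + 1))
    have a0 : 0 < s := by positivity
    have a1 : s ≤ 1 := (min_le_left _ _).trans (min_le_right _ _)
    have a2 := (le_div_iff₀ (by positivity)).1 (show s ≤ _ from min_le_right _ _)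
    have a3 := mul_le_mul_of_nonneg_left (show s ^ 2 ≤ s by nlinarith)
      (show 0 ≤ K * (C2 * D) by positivity)
    nlinarith
  obtain ⟨κ, hκ, R0, hspr⟩ := spread n B.S.Q.I hδ hC1 hc4
  refine ⟨s, κ, C1, max 1 R0, hs, hs1.trans h11, hκ, hC1, fun R hR0 => ?_⟩
  have hR : 1 ≤ R := (le_max_left _ _).trans hR0
  obtain ⟨Q, hQ, hQv⟩ := hrich R hR
  have hm : ∀ l ∈ Q, ∀ y ∈ ball B.S.G.y0 (2 * ε'), _ := fun l hl y hy =>
    hmom l y ((hQ l hl).1.trans (h02.trans hes1))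
      ((mul_le_mul_of_nonneg_left (hQ l hl).1 (by linarith)).trans h03) (ball_subset_ball h13 hy)
  have hrho : ∀ l ∈ Q, ‖B.rho l‖ ≤ C1 * R := by
    intro l hl
    obtain ⟨y, hy⟩ := (hQ l hl).2
    exact eC1 ▸ (hm l hl y (ball_subset_ball (by linarith) hy.1)).2 R hR hy.2.1 hy.2.2.1 hy.2.2.2
  choose k hk hk1 using fun l : B.Lab => round (RI.smul (rho_mem l) dc⁻¹)
  have hk2 : ∀ l, ‖B.rho l - dc • k l‖ ≤ dc := by
    intro l
    have e1 : B.rho l - dc • k l = dc • (dc⁻¹ • B.rho l - k l) := by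
      rw [smul_sub, smul_inv_smul₀ h2.ne']
    rw [e1, norm_smul, Real.norm_of_nonneg h2.le]
    exact mul_le_of_le_one_right h2.le (hk1 l)
  obtain ⟨F, hF, hFm⟩ := grid B.S.Q.I ⌈(C1 / dc + 1) * R⌉₊
  obtain ⟨W, hW, eW⟩ : ∃ W > (0 : ℝ), W = R ^ B.S.Q.I.card := ⟨_, by positivity, rfl⟩
  obtain ⟨Y, hY, eY⟩ : ∃ Y > (0 : ℝ), Y = R ^ (2 * n) := ⟨_, by positivity, rfl⟩
  have eW2 : R ^ (2 * B.S.Q.I.card) = W ^ 2 := by rw [eW, ← pow_mul, mul_comm]
  rw [← eW, ← eY] at hQv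
  obtain ⟨Q1, hQ1, q1, q2⟩ := clcentre_cells Q F k (fun l hl => (hFm _).2 ⟨hk l, by
      have a1 := norm_sub_norm_le (k l) (dc⁻¹ • B.rho l)
      rw [norm_sub_rev, norm_smul, norm_inv, Real.norm_of_nonneg h2.le] at a1
      have a2 := mul_le_mul_of_nonneg_left (hrho l hl) (inv_pos.2 h2).le
      refine le_trans ?_ (Nat.le_ceil _)
      rw [div_eq_inv_mul]
      linarith [hk1 l]⟩)
    (fun l => (volume (B.Ml l ε' R)).toReal) (fun l => B.En l (2 * ε') (A * R))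
    (a := c1 / 2 / C2 * Y / W ^ 2) (b := D * (Y * R ^ 2) / W ^ 2) (N := C2 * W) (by positivity)
    (by
      rw [hF, eC2, eW, ← mul_pow]
      push_cast
      refine pow_le_pow_left₀ (by positivity) ?_ _
      linarith [Nat.ceil_lt_add_one (show 0 ≤ (C1 / dc + 1) * R by positivity)])
    (by
      refine le_of_mul_le_mul_left (le_trans (le_of_eq ?_) hQv) hW
      field_simp)
    (by
      intro c hcF hc'
      have a1 := hen R hR (B.A.r (B.S.G.y0, 0) - dc • c)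
        (RI.sub (B.A.r_mem _) (RI.smul (ZI.sub_RI ((hFm c).1 hcF).1) _)) (Q.filter (k · = c))
        (fun l hl => (hQ l (Finset.mem_filter.1 hl).1).1.trans (h02.trans hes1))
        (fun l hl y hy g hg => by
          obtain ⟨b1, b2⟩ := Finset.mem_filter.1 hl
          have e1 : B.A.r (y, g.α y) - (B.A.r (B.S.G.y0, 0) - dc • c) =
              (B.A.r (y, g.α y) - B.pl l) - (B.rho l - dc • k l) := by
            rw [pl, b2]
            abel
          rw [e1, ← eη]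
          exact (norm_sub_le _ _).trans (add_le_add ((hm l b1 y hy).1 g hg) ((hk2 l).trans h22)))
        (fun l hl l' hl' y hy hy' hb => by
          obtain ⟨b1, b2⟩ := Finset.mem_filter.1 hl
          obtain ⟨b3, b4⟩ := Finset.mem_filter.1 hl'
          refine hsep l l' y ((hQ l b1).1.trans h02) ((hQ l' b3).1.trans h02) hy hy' hb ?_
          have e1 : B.rho l - B.rho l' = (B.rho l - dc • k l) - (B.rho l' - dc • k l') := by
            rw [b2, b4]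
            abel
          rw [e1]
          exact (norm_sub_le _ _).trans ((add_le_add (hk2 l) (hk2 l')).trans h21))
        (by rw [eW2, ← eY]; exact (div_le_iff₀' (by positivity)).1 hc')
      rw [eW2, pow_add, ← eY] at a1
      rw [ENNReal.ofReal_div_of_pos (by positivity), ENNReal.le_div_iff_mul_le
        (Or.inl (ENNReal.ofReal_pos.2 (by positivity)).ne') (Or.inl ENNReal.ofReal_ne_top),
        mul_comm]
      exact a1)
  obtain ⟨y, hy, Q', hQ', c1', c2'⟩ := select Q1 (ball B.S.G.y0 ε') (fun l => B.Ml l ε' R)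
    (fun l y => B.el l y s (A * R)) measurableSet_ball (fun l _ x hx => hx.1)
    (fun l _ => (B.isOpen_Ml l ε' R).measurableSet) (fun l _ => (hel X B l ε' s _ hs hs1).1)
    measure_ball_lt_top.ne (t := θ * R ^ 2) (G := c4 * Y / W)
    (F := K * s ^ 2 * (C2 * W * (D * (Y * R ^ 2) / W ^ 2))) (by positivity) (by positivity)
    (by positivity)
    (by
      refine (Finset.sum_le_sum fun l _ => (hel X B l ε' s _ hs hs1).2).trans ?_
      rw [← Finset.mul_sum, ENNReal.ofReal_mul (p := K * s ^ 2) (by positivity)]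
      exact mul_le_mul_right q2 _)
    (by
      refine lt_of_lt_of_le ?_ (mul_le_mul_of_nonneg_left q1 (by positivity))
      have a1 : θ * R ^ 2 * (c4 * Y / W) * V + K * s ^ 2 * (C2 * W * (D * (Y * R ^ 2) / W ^ 2)) =
          (θ * (c4 * V) + K * s ^ 2 * (C2 * D)) * (R ^ 2 * Y / W) := by field_simp
      have a2 : θ * R ^ 2 * (C2 * W * (c1 / 2 / C2 * Y / W ^ 2)) =
          θ * c1 / 2 * (R ^ 2 * Y / W) := by field_simp
      rw [← eV, a1, a2]
      refine mul_lt_mul_of_pos_right ?_ (by positivity)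
      nlinarith [mul_le_mul_of_nonneg_left h41 hθ.le, mul_pos hθ hc1])
  refine ⟨y, ball_subset_ball h11 hy, fun v hv hv1 => ?_⟩
  have hs' : ∀ l ∈ Q', l ∈ Q := fun l hl => hQ1 (hQ' hl)
  obtain ⟨l, hl, hl1⟩ := hspr R ((le_max_right _ _).trans hR0) Q' (fun l => B.bb l y) B.rho
    (fun l hl => ⟨(proj_piI _ _).1, rho_mem l, (c2' l hl).1.2.2.1.le.trans
      (le_mul_of_one_le_left (by linarith) hC1), hrho l (hs' l hl)⟩)
    (fun l hl l' hl' => hsep l l' y ((hQ l (hs' l hl)).1.trans h02)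
      ((hQ l' (hs' l' hl')).1.trans h02) (c2' l hl).1.2.1 (c2' l' hl').1.2.1)
    (by rw [← eW, ← eY]; exact ((div_lt_iff₀' hW).1 c1').le) v hv hv1
  exact ⟨l, (hQ l (hs' l hl)).1.trans h01, (c2' l hl).1.2.1, (c2' l hl).1.2.2.1, (c2' l hl).2,
    hrho l (hs' l hl), hl1⟩

end Big

end Pool.Agent.CL
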