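import Pool.Agent.K.MP_63735c_ag.C77
import Pool.Agent.K.MP_63735c_ag.C88

/-! Atoms. -/

open scoped ContDiff Matrix ENNReal
open Set Metric MeasureTheory Filter Topology

namespace Pool.Agent.CL

open Pool.Agent.SPF

variable {n : ℕ} {X : Type} [TopologicalSpace X] [T2Space X] [MeasurableSpace X]

namespace Big

variable {B : Big n X} {l l' : B.Lab} {y : E n} {g g' : Ret n}


theorem atoms (B : Big n X) {e : ℝ} (he : 0 < e) : ∃ y t κ C, 0 < t ∧ 0 < κ ∧ 1 ≤ C ∧
    ball y t ⊆ ball B.S.G.y0 (B.S.G.r / 2) ∧ B.Atoms e y t κ C := by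
  obtain ⟨e1, he1, θ, hθ, ρ, hρ, C1, hρ1, hext⟩ := atom_ext B
  obtain ⟨e2, he2, hint⟩ := atom_int B
  have hr := B.S.G.r_pos
  have hn : (1 : ℝ) ≤ n := by exact_mod_cast B.S.M.n_pos
  set ε : ℝ := min (min e1 e2 / 4) (B.S.G.r / 8) with hεd
  have hε : 0 < ε := lt_min (by have := lt_min he1 he2; positivity) (by positivity)
  have hε1 : ε ≤ e1 / 4 := (min_le_left _ _).trans (by have := min_le_left e1 e2; linarith)
  have hε2 : ε ≤ e2 / 4 := (min_le_left _ _).trans (by have := min_le_right e1 e2; linarith)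
  have hε3 : ε ≤ B.S.G.r / 8 := min_le_right _ _
  obtain ⟨s, κ, C2, R0, hs, hsε, hκ, hC2, hc⟩ := centre B (e := min e (min e1 e2)) (ε := ε)
    (θ := θ) (A := 4 * n) (lt_min he (lt_min he1 he2)) hε hθ (by linarith)
  set C : ℝ := max C1 C2 with hCd
  have hC : 1 ≤ C := hC2.trans (le_max_right _ _)
  have hρs : 0 < ρ * s := mul_pos hρ hs
  have hρs' : ρ * s ≤ s := by nlinarith
  choose! Y hY hYv using hc
  let Rk : ℕ → ℝ := fun k => k + max R0 1
  have hRk0 : ∀ k, Rk k ≥ R0 := fun k => by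
    have : (0 : ℝ) ≤ k := Nat.cast_nonneg k
    have := le_max_left R0 1
    simp only [Rk]; linarith
  have hRk1 : ∀ k, 0 < Rk k := fun k => by
    have : (0 : ℝ) ≤ k := Nat.cast_nonneg k
    have := le_max_right R0 1
    simp only [Rk]; linarith
  obtain ⟨z, hz, φ, hφ, hlim⟩ := (isCompact_closedBall B.S.G.y0 ε).tendsto_subseq
    (x := fun k => Y (Rk k)) (fun k => ball_subset_closedBall (hY _ (hRk0 k)))
  refine ⟨z, ρ * s / 8, κ / 2, C, by positivity, by positivity, hC, ?_, ?_⟩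
  · intro x hx
    rw [mem_ball] at hx ⊢
    rw [mem_closedBall] at hz
    have := dist_triangle x z B.S.G.y0
    linarith
  intro R1
  set η : ℝ := min (ρ * s / 8) (κ * (ρ * s) / (4 * n * C)) with hηd
  have hη : 0 < η := lt_min (by positivity) (by positivity)
  have h1 : ∀ᶠ k in atTop, dist (Y (Rk (φ k))) z < η := (Metric.tendsto_nhds.1 hlim) η hη
  have h2 : ∀ᶠ k in atTop, R1 ≤ Rk (φ k) := by
    obtain ⟨N, hN⟩ := exists_nat_ge R1
    filter_upwards [eventually_ge_atTop N] with k hk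
    have h3 : (N : ℝ) ≤ φ k := by exact_mod_cast hk.trans (hφ.id_le k)
    have := le_max_right R0 1
    simp only [Rk]; linarith
  obtain ⟨k, hk1, hk2⟩ := (h1.and h2).exists
  set R : ℝ := Rk (φ k) with hRd
  have hR : 0 < R := hRk1 _
  set y : E n := Y R with hyd
  have hy : y ∈ ball B.S.G.y0 ε := hY _ (hRk0 _)
  refine ⟨R, hk2, fun v hv hv1 => ?_⟩
  obtain ⟨l, hl, hyl, hb, hel, hrho, hip⟩ := hYv R (hRk0 _) v hv hv1
  have hball : ∀ e' : ℝ, ε ≤ e' / 4 → ball y s ⊆ ball B.S.G.y0 e' := fun e' he' x hx => by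
    rw [mem_ball] at hx hy ⊢
    have := dist_triangle x y B.S.G.y0
    linarith
  obtain ⟨b, hbd, hbe, hbb⟩ := hext l y s R
    (hl.trans ((min_le_right _ _).trans (min_le_left _ _))) hs (hball e1 hε1) hR hyl hb hel
  have h4 : 4 * (ρ * s / 4) = ρ * s := by ring
  have hbC : ∀ x ∈ ball y (ρ * s), ‖b x‖ ≤ C * R := fun x hx =>
    (hbb x hx).trans (mul_le_mul_of_nonneg_right (le_max_left _ _) hR.le)
  obtain ⟨m', hm'⟩ := hint l y (ρ * s / 4) (C * R) b
    (hl.trans ((min_le_right _ _).trans (min_le_right _ _))) (by positivity)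
    (by rw [h4]; exact (ball_subset_ball hρs').trans (hball e2 hε2)) hyl (by rw [h4]; exact hbd)
    hbe (by rw [h4]; exact hbC)
    (hrho.trans (mul_le_mul_of_nonneg_right (le_max_right _ _) hR.le))
  have hη1 : η ≤ ρ * s / 8 := min_le_left _ _
  have hη2 : η ≤ κ * (ρ * s) / (4 * n * C) := min_le_right _ _
  refine ⟨l, b, m', hl.trans (min_le_left _ _), hm'.mono fun x hx => ?_, ?_⟩
  · rw [mem_ball] at hx ⊢
    have := dist_triangle x z y
    rw [dist_comm z y] at this
    linarith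
  have hlip : ‖b y - b z‖ ≤ C * R / (ρ * s - ρ * s / 2) * ‖y - z‖ :=
    hol_lip (by linarith) hbd hbC (mem_ball_self (by positivity))
      (by rw [mem_ball, dist_comm]; linarith)
  have hyz : ‖y - z‖ ≤ κ * (ρ * s) / (4 * n * C) := by
    rw [← dist_eq_norm]; linarith
  have hv2 : ‖v‖ ≤ 1 := by
    have := (nsq_le v).1
    rw [hv1] at this
    nlinarith [norm_nonneg v]
  have hd : n * ‖b y - b z‖ * ‖v‖ ≤ κ / 2 * R := by
    have h5 : ‖b y - b z‖ ≤ κ / 2 * R / n := by
      refine hlip.trans ((mul_le_mul_of_nonneg_left hyz (by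
        have : 0 < ρ * s - ρ * s / 2 := by linarith
        positivity)).trans (le_of_eq ?_))
      have : ρ * s - ρ * s / 2 = ρ * s / 2 := by ring
      rw [this]
      field_simp
      ring
    have h6 : n * ‖b y - b z‖ ≤ κ / 2 * R := by
      rw [le_div_iff₀ (by linarith)] at h5
      linarith
    have h7 : 0 ≤ n * ‖b y - b z‖ := by positivity
    nlinarith
  have he1 : B.bb l y - Complex.I • B.rho l = (b z - Complex.I • B.rho l) + (b y - b z) := by
    rw [hbe.self_of_nhds]; abel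
  rw [he1, (ip_basic _ _ v 0).2.2.1] at hip
  have h8 := (ip_basic (b y - b z) v v 0).2.2.2.2.2.1
  have h9 := abs_add_le (ip (b z - Complex.I • B.rho l) v) (ip (b y - b z) v)
  linarith


end Big

end Pool.Agent.CL
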