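import Pool.Agent.K.MP_63735c_ag.C92
import Pool.Agent.K.MP_63735c_ag.C70

/-! Realised labels: products, inverses, slices. -/

open scoped ContDiff Matrix ENNReal
open Set Metric MeasureTheory Filter Topology

namespace Pool.Agent.CL

open Pool.Agent.SPF

variable {n : ℕ} {X : Type} [TopologicalSpace X] [MeasurableSpace X]

theorem cwreal_two {U : E n →L[ℂ] E n} (h : ‖U - 1‖ ≤ 1 / 16) (v : E n) :
    ‖U v - v‖ ≤ ‖U - 1‖ * ‖v‖ ∧ ‖U v‖ ≤ 2 * ‖v‖ := by
  have h1 : ‖U v - v‖ ≤ ‖U - 1‖ * ‖v‖ := (U - 1).le_opNorm v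
  have h2 := norm_sub_norm_le (U v) v
  exact ⟨h1, by nlinarith [norm_nonneg v]⟩

theorem cwreal_fix {I : Finset (Fin n)} {U : E n →L[ℂ] E n}
    (h : ∀ v : E n, (∀ k ∉ I, v k = 0) → U v = v) (v : E n) :
    piI I (U v) = piI I (U (piI I v)) ∧ tauI I (U v) = tauI I (U (piI I v)) + tauI I v := by
  have h1 : U v = U (piI I v) + (v - piI I v) := by
    rw [← h (v - piI I v) fun k hk => by simp [piI_apply, hk], ← map_add, add_sub_cancel]
  rw [h1, map_add, map_add, map_sub, map_sub, (proj_piI I v).1, (proj_piI I v).2.1, sub_self,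
    add_zero, sub_zero]
  exact ⟨rfl, rfl⟩

namespace ShF
variable {S : Setup n X} {Fm : Type} {H : ShF S Fm} {l l' : S.G.G × (Fm → ℝ)} {b b' : E n → E n}
  {y : E n} [T2Space X]

/-- The transverse part of a product. -/
noncomputable def bmul (S : Setup n X) (j : S.G.G) (b b' : E n → E n) (x : E n) : E n :=
  b x + piI S.Q.I (tr (fderiv ℂ (S.G.γ j) x) (b' (S.G.γ j x)))

/-- The transverse part of an inverse. -/
noncomputable def binv (S : Setup n X) (j : S.G.G) (b : E n → E n) (x : E n) : E n :=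
  -piI S.Q.I (S.G.N j (S.G.γ (S.G.lg.inv j) x) (b (S.G.γ (S.G.lg.inv j) x)))

theorem ht_mul (hl : S.G.lg.sz l.1 ≤ S.G.lg.ε) (hl' : S.G.lg.sz l'.1 ≤ S.G.lg.ε)
    (hy : y ∈ ball S.G.y0 (3 / 2 * S.G.r)) {m : ℝ} (hm : ‖b' (S.G.γ l.1 y)‖ ≤ m) :
    H.ht (mul l' l) (bmul S l.1 b b') y ≤
      H.ht l b y + H.ht l' b' (S.G.γ l.1 y) + ENNReal.ofReal (2 * m) := by
  rcases eq_or_ne (H.ht l b y) ⊤ with e | e
  · simp [e]
  rcases eq_or_ne (H.ht l' b' (S.G.γ l.1 y)) ⊤ with e' | e'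
  · simp [e']
  obtain ⟨g, hg⟩ := exists_of_ht e
  obtain ⟨g', hg'⟩ := exists_of_ht e'
  have hy2 : y ∈ ball S.G.y0 (2 * S.G.r) := ball_subset_ball (by linarith [S.G.r_pos]) hy
  have hp := hg.1.pres hl hy2
  have key : ∀ᶠ x in 𝓝 y, piI S.Q.I ((g'.comp g).α x) = bmul S l.1 b b' x ∧
      tauI S.Q.I ((g'.comp g).α x) = tauI S.Q.I (g.α x) + tauI S.Q.I (g'.α (S.G.γ l.1 x)) +
        tauI S.Q.I (tr (fderiv ℂ (S.G.γ l.1) x) (b' (S.G.γ l.1 x))) := by
    filter_upwards [hg.1.fd, hg.2, (S.G.diffAt l.1 hy2).continuousAt.eventually hg'.2,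
      isOpen_ball.mem_nhds hy2] with x a c d e
    have f := cwreal_fix (fun v hv => (hp.e hl e hv).2) (g'.α (S.G.γ l.1 x))
    have e0 : (g'.comp g).α x = g.α x + tr (fderiv ℂ (S.G.γ l.1) x) (g'.α (S.G.γ l.1 x)) := by
      rw [← a.1, ← a.2]
      rfl
    rw [e0, map_add, map_add, f.1, f.2, c, d]
    exact ⟨rfl, by abel⟩
  have h1 : H.AtB (mul l' l) (bmul S l.1 b b') y (g'.comp g) :=
    ⟨hg.1.comp hg'.1 hl hl' hy, key.mono fun x a => a.1⟩
  rw [h1.ht_eq, hg.ht_eq, hg'.ht_eq, key.self_of_nhds.2]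
  refine (enorm_add_le _ _).trans (add_le_add (enorm_add_le _ _) ?_)
  rw [← ofReal_norm]
  refine ENNReal.ofReal_le_ofReal ((proj_norm _ _).2.1.trans ((cwreal_two
    ((S.G.near _ hl y hy2).2.2.1.trans (S.G.Lsz hl).1) _).2.trans (by linarith)))

theorem ht_inv (hl : S.G.lg.sz l.1 ≤ S.G.lg.ε) (hl' : S.G.lg.sz (S.G.lg.inv l.1) ≤ S.G.lg.ε)
    (hy : y ∈ ball S.G.y0 (3 / 2 * S.G.r))
    (hy' : S.G.γ (S.G.lg.inv l.1) y ∈ ball S.G.y0 (3 / 2 * S.G.r)) {m : ℝ}
    (hm : ‖b (S.G.γ (S.G.lg.inv l.1) y)‖ ≤ m) :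
    H.ht (inv l) (binv S l.1 b) y ≤
      H.ht l b (S.G.γ (S.G.lg.inv l.1) y) + ENNReal.ofReal (2 * m) := by
  rcases eq_or_ne (H.ht l b (S.G.γ (S.G.lg.inv l.1) y)) ⊤ with e | e
  · simp [e]
  obtain ⟨g, hg⟩ := exists_of_ht e
  have hs : ball S.G.y0 (3 / 2 * S.G.r) ⊆ ball S.G.y0 (2 * S.G.r) :=
    ball_subset_ball (by linarith [S.G.r_pos])
  have hp := hg.1.pres hl (hs hy')
  obtain ⟨g', h1, h2⟩ := hg.1.inv hl hl' hy'
  rw [(S.G.inv_γ hl hl' hy).2] at h1 h2
  have hc := (S.G.diffAt (S.G.lg.inv l.1) (hs hy)).continuousAt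
  have key : ∀ᶠ x in 𝓝 y, piI S.Q.I (g'.α x) = binv S l.1 b x ∧
      tauI S.Q.I (g'.α x) = -(tauI S.Q.I (g.α (S.G.γ (S.G.lg.inv l.1) x)) +
        tauI S.Q.I (S.G.N l.1 (S.G.γ (S.G.lg.inv l.1) x) (b (S.G.γ (S.G.lg.inv l.1) x)))) := by
    filter_upwards [h2, hc.eventually hg.2, hc.eventually (isOpen_ball.mem_nhds (hs hy'))]
      with x a d e
    have f := cwreal_fix (fun v hv => (hp.e hl e hv).1) (g.α (S.G.γ (S.G.lg.inv l.1) x))
    rw [a, map_neg, map_neg, f.1, f.2, d]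
    exact ⟨rfl, by abel⟩
  have h3 : H.AtB (inv l) (binv S l.1 b) y g' := ⟨h1, key.mono fun x a => a.1⟩
  rw [h3.ht_eq, hg.ht_eq, key.self_of_nhds.2, enorm_neg]
  refine (enorm_add_le _ _).trans (add_le_add le_rfl ?_)
  rw [← ofReal_norm]
  refine ENNReal.ofReal_le_ofReal ((proj_norm _ _).2.1.trans ((cwreal_two
    ((S.G.near _ hl _ (hs hy')).2.2.2.trans (S.G.Lsz hl).1) _).2.trans (by linarith)))

/-- The height stays bounded along directions that keep the `I`-coordinates. -/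
theorem slice {O : Set (E n)} (hO : IsOpen O) (hs : O ⊆ ball S.G.y0 (2 * S.G.r))
    (hb : DifferentiableOn ℂ b O) (hl : S.G.lg.sz l.1 ≤ S.G.lg.ε) {u : E n}
    (hu : ∀ k ∈ S.Q.I, u k = 0) {K T : ℝ} (hK : 0 ≤ K) (hT : 0 ≤ T)
    (hx : ∀ s ∈ Icc (0 : ℝ) 1, y + s • u ∈ O ∧ ‖fderiv ℂ b (y + s • u)‖ ≤ K)
    (h0 : H.ht l b y ≤ ENNReal.ofReal T) :
    H.ht l b (y + u) ≤ ENNReal.ofReal (T + 2 * (n * K * ‖u‖)) := by
  obtain ⟨K', hK'⟩ : ∃ K', K' = n * K * ‖u‖ := ⟨_, rfl⟩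
  have hK0 : 0 ≤ K' := by rw [hK']; positivity
  have hc : Continuous fun s : ℝ => y + s • u := by fun_prop
  have key : Icc (0 : ℝ) 1 ⊆ {s | ∀ s' > s, H.ht l b (y + s • u) ≤ ENNReal.ofReal (T + K' * s')} := by
    refine IsClosed.Icc_subset_of_forall_exists_gt ?_ (fun s' hs' => ?_) ?_
    · refine isClosed_of_closure_subset fun s hs' => ?_
      have h1 : s ∈ Icc (0 : ℝ) 1 := isClosed_Icc.closure_subset (closure_mono inter_subset_right hs')
      refine ⟨fun s' h2 => closed hO hs hb hl (hx s h1).1 ?_, h1⟩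
      refine mem_closure_iff_frequently.2 (hc.continuousAt.tendsto.frequently ?_)
      exact ((mem_closure_iff_frequently.1 hs').and_eventually (gt_mem_nhds h2)).mono
        fun x a => a.1.1 s' a.2
    · rw [zero_smul, add_zero]
      exact h0.trans (ENNReal.ofReal_le_ofReal (by nlinarith))
    · rintro s ⟨h1, h2⟩ s1 hs1
      obtain ⟨g, hg⟩ := exists_of_ht (ne_top_of_le_ne_top ENNReal.ofReal_ne_top
        (h1 _ (lt_add_one s)))
      obtain ⟨η, hη, h3⟩ := Metric.eventually_nhds_iff_ball.1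
        ((hc.continuousAt (x := s)).eventually hg.ev)
      obtain ⟨t, t1, t2⟩ := exists_between (lt_min (lt_min hs1 h2.2) (lt_add_of_pos_right s hη))
      rw [lt_min_iff, lt_min_iff] at t2
      have h4 : ∀ x ∈ Icc s t, H.AtB l b (y + x • u) g := fun x a =>
        h3 x (by rw [mem_ball, Real.dist_eq, abs_lt]; constructor <;> linarith [a.1, a.2, t2.2])
      have h5 := norm_image_sub_le_of_norm_deriv_le_segment' (C := K')
        (f := fun x : ℝ => tauI S.Q.I (g.α (y + x • u)))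
        (f' := fun x => tauI S.Q.I (fderiv ℂ g.α (y + x • u) u)) (fun x a => ?_) (fun x a => ?_)
        t (right_mem_Icc.2 t1.le)
      · refine ⟨t, fun s' h6 => ?_, t1, t2.1.1.le⟩
        have h7 := h1 (s' - (t - s)) (by linarith)
        rw [hg.ht_eq, ← ofReal_norm, ENNReal.ofReal_le_ofReal_iff (by nlinarith [h2.1])] at h7
        rw [(h4 t (right_mem_Icc.2 t1.le)).ht_eq, ← ofReal_norm]
        refine ENNReal.ofReal_le_ofReal ?_
        have := norm_sub_norm_le (tauI S.Q.I (g.α (y + t • u))) (tauI S.Q.I (g.α (y + s • u)))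
        nlinarith
      · have d1 : HasDerivAt (fun x : ℝ => y + x • u) u x := by
          simpa using ((hasDerivAt_id x).smul_const u).const_add y
        exact ((tauI S.Q.I).hasFDerivAt.comp_hasDerivAt x
          (((h4 x a).1.germ.facts.2.2.2.1.hasFDerivAt.restrictScalars ℝ).comp_hasDerivAt x
            d1)).hasDerivWithinAt
      · have a' := h4 x (Ico_subset_Icc_self a)
        obtain ⟨O', hO', hx'⟩ := a'.1.germ
        have d2 : fderiv ℂ b (y + x • u) = (piI S.Q.I).comp (fderiv ℂ g.α (y + x • u)) := by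
          rw [← a'.2.fderiv_eq]
          exact ((piI S.Q.I).hasFDerivAt.comp _ a'.1.germ.facts.2.2.2.1.hasFDerivAt).fderiv
        refine (pi_norm_le_iff_of_nonneg hK0).2 fun i => ?_
        by_cases hi : i ∈ S.Q.I
        · have d3 := S.M.closed O' g hO' _ hx' u (Pi.single i 1)
          have d4 : fderiv ℂ g.α (y + x • u) (Pi.single i 1) ⬝ᵥ u =
              fderiv ℂ b (y + x • u) (Pi.single i 1) ⬝ᵥ u := by
            rw [d2]
            refine Finset.sum_congr rfl fun k _ => ?_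
            by_cases hk : k ∈ S.Q.I
            · rw [hu k hk, mul_zero, mul_zero]
            · rw [ContinuousLinearMap.comp_apply, piI_apply, if_neg hk]
          rw [dotProduct_single, mul_one, d4] at d3
          rw [tauI_apply, if_pos hi, Complex.norm_real, Real.norm_eq_abs, d3, hK']
          refine (Complex.abs_im_le_norm _).trans ((dot_le _ _).trans ?_)
          have d5 := (fderiv ℂ b (y + x • u)).le_of_opNorm_le
            (hx x ⟨h2.1.trans a.1, (a.2.trans t2.1.2).le⟩).2 (Pi.single i 1)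
          rw [Pi.norm_single, norm_one, mul_one] at d5
          gcongr
        · rw [tauI_apply, if_neg hi, norm_zero]
          exact hK0
  have h9 := key (right_mem_Icc.2 zero_le_one) 2 (by norm_num)
  rwa [one_smul, mul_comm, hK'] at h9

end ShF

namespace Big
variable (B : Big n X)

/-- The shift functions of part B. -/
def shf : ShF B.S B.H.Idx where
  F := B.H.Fn
  shift O g j hg hc hs _ hp he f := B.H.shift f O g hg hc fun y hy k => by
    have h1 : g.N =ᶠ[𝓝 y] B.S.G.N j := Germ.N_eq ⟨O, hg, hy⟩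
      (mem_of_superset (hg.isOpen.mem_nhds hy) he)
      (mem_of_superset (isOpen_ball.mem_nhds (hs hy)) fun x hx => B.S.G.pair _ x hx)
    rw [h1.eq_of_nhds, hp k y (hs hy), he y hy]
  per f y hy ξ s hs := by
    rw [← B.H.zinv f s hs y hy (ξ - s), sub_add_cancel]
  uniq y hy α hα h := by
    obtain ⟨m, hm⟩ := B.S.Q.per0.all y hy α hα
    obtain ⟨s, hs, h1⟩ := B.H.rad m y hy fun i => by
      rw [← h i 0, zero_sub, hm.eq_of_nhds]
    exact ⟨s, hs, hm.trans (mem_of_superset (B.S.M.T_open.mem_nhds hy) h1)⟩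

variable {B} {l l' : B.Lab} {b b' : E n → E n} {O O' : Set (E n)} {m m' : ℝ} {h h' : ℝ≥0∞}

theorem At.shf {y : E n} {g : Ret n} (h : B.At l y g) : B.shf.At l y g := by
  obtain ⟨-, O, h1, h2, h3, h4⟩ := h
  have h5 := h1.isOpen.mem_nhds h2
  exact ⟨⟨O, h1, h2⟩, mem_of_superset h5 fun x hx => (h3 x hx).1,
    mem_of_superset h5 fun x hx ξ f => h4 f (x, ξ) hx⟩

theorem cw_rho_mul (l' l : B.Lab) : B.rho (ShF.mul l' l) = B.rho l' + B.rho l := by
  funext i
  by_cases hi : i ∈ B.S.Q.I <;> simp [rho, ShF.mul, hi]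

theorem cw_rho_inv (l : B.Lab) : B.rho (ShF.inv l) = -B.rho l := by
  funext i
  by_cases hi : i ∈ B.S.Q.I <;> simp [rho, ShF.inv, hi]

theorem cw_rho_mem (l : B.Lab) : B.rho l ∈ RI B.S.Q.I := fun i => by
  by_cases hi : i ∈ B.S.Q.I <;> simp [rho, hi]

/-- The label is realised on `O`. -/
structure Rl (B : Big n X) (l : B.Lab) (O : Set (E n)) (b : E n → E n) (m : ℝ) (h : ℝ≥0∞) :
    Prop where
  hol : DifferentiableOn ℂ b O
  bd : ∀ x ∈ O, ‖b x‖ ≤ m
  mem : ∀ x ∈ O, piI B.S.Q.I (b x) = b x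
  rho : ‖B.rho l‖ ≤ m
  int : ∫⁻ x in O, B.shf.ht l b x ≤ h

theorem Rl.mono {M : ℝ} {k : ℝ≥0∞} (h1 : B.Rl l O b m h) (hO : O' ⊆ O) (hm : m ≤ M) (hk : h ≤ k) :
    B.Rl l O' b M k :=
  ⟨h1.hol.mono hO, fun x hx => (h1.bd x (hO hx)).trans hm, fun x hx => h1.mem x (hO hx),
    h1.rho.trans hm, (lintegral_mono_set hO).trans (h1.int.trans hk)⟩

theorem Rl.one (B : Big n X) (hO : MeasurableSet O) (hs : O ⊆ B.S.M.T) :
    B.Rl (B.S.G.lg.one, 0) O 0 0 0 := by
  refine ⟨differentiableOn_const 0, fun _ _ => by simp, fun _ _ => by simp, ?_, ?_⟩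
  · refine (pi_norm_le_iff_of_nonneg le_rfl).2 fun i => ?_
    simp [Big.rho]
  · refine (setLIntegral_mono' (g := 0) hO fun x hx => ?_).trans (by simp)
    refine (iInf₂_le (Ret.per fun _ => 0) ⟨⟨⟨_, isRet_one B.S.M.T_open, hs hx⟩,
      Eventually.of_forall fun x => (B.S.G.γ_one x).symm, Eventually.of_forall fun x ξ f => ?_⟩,
      Eventually.of_forall fun x => map_zero _⟩).trans (by simp [Ret.per])
    simp [Ret.act, Ret.per]

variable [T2Space X]

theorem Real.rl {y : E n} {t : ℝ} (h : B.Real l y t b m m') :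
    B.Rl l (ball y t) b m (ENNReal.ofReal m') := by
  refine ⟨h.hol, h.bd, h.mem, h.rho, (lintegral_mono fun x => ?_).trans h.int⟩
  unfold Big.ht
  split_ifs with hx
  · have h1 := (Classical.choose_spec hx.1).shf
    have h2 : B.shf.AtB l b x (Classical.choose hx.1) := by
      refine ⟨h1, EventuallyEq.trans ?_ hx.2⟩
      obtain ⟨a1, O, a2, a3, a4⟩ := Classical.choose_spec hx.1
      filter_upwards [h1.ev, isOpen_ball.mem_nhds a1, a2.isOpen.mem_nhds a3] with z c d e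
      have hz : z ∈ B.Om l := ⟨_, d, O, a2, e, a4⟩
      obtain ⟨s, hs, f⟩ := c.uniq (Classical.choose_spec hz).shf
      rw [bb, al, dif_pos hz, f.eq_of_nhds, map_add, (RI.proj (ZI.sub_RI hs)).1, add_zero]
    rw [h2.ht_eq, ← ofReal_norm, tt, al, dif_pos hx.1]
  · exact le_top

theorem exists_cv (B : Big n X) : ∃ C : ℝ≥0∞, C ≠ ⊤ ∧
    (∀ (l l' : B.Lab) (O O' : Set (E n)) b b' m m' h h', B.Rl l O b m h → B.Rl l' O' b' m' h' →
      IsOpen O → O ⊆ ball B.S.G.y0 (3 / 2 * B.S.G.r) → MapsTo (B.S.G.γ l.1) O O' →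
      B.S.G.lg.sz l.1 ≤ B.S.G.lg.ε → B.S.G.lg.sz l'.1 ≤ B.S.G.lg.ε →
      B.Rl (ShF.mul l' l) O (ShF.bmul B.S l.1 b b') (m + 2 * m')
        (h + C * h' + ENNReal.ofReal (2 * m') * volume O)) ∧
    ∀ (l : B.Lab) (O O' : Set (E n)) b m h, B.Rl l O b m h → IsOpen O' →
      O ⊆ ball B.S.G.y0 (3 / 2 * B.S.G.r) → O' ⊆ ball B.S.G.y0 (3 / 2 * B.S.G.r) →
      MapsTo (B.S.G.γ (B.S.G.lg.inv l.1)) O' O → B.S.G.lg.sz l.1 ≤ B.S.G.lg.ε →
      B.S.G.lg.sz (B.S.G.lg.inv l.1) ≤ B.S.G.lg.ε →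
      B.Rl (ShF.inv l) O' (ShF.binv B.S l.1 b) (2 * m)
        (C * h + ENNReal.ofReal (2 * m) * volume O') := by
  obtain ⟨C, hC, hc⟩ := B.S.G.cov
  obtain ⟨L, hL⟩ := exists_trL (n := n)
  have hs : ball B.S.G.y0 (3 / 2 * B.S.G.r) ⊆ ball B.S.G.y0 (2 * B.S.G.r) :=
    ball_subset_ball (by linarith [B.S.G.r_pos])
  refine ⟨C, hC, fun l l' O O' b b' m m' h h' h1 h2 hO hs1 hm hl hl' => ?_,
    fun l O O' b m h h1 hO hs1 hs2 hm hl hl' => ?_⟩
  · have h3 := (B.S.G.γ_hol l.1).mono (hs1.trans hs)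
    refine ⟨h1.hol.add ((piI B.S.Q.I).differentiable.comp_differentiableOn ?_), fun x hx => ?_,
      fun x hx => ?_, ?_, ?_⟩
    · simp only [← hL]
      exact (L.differentiable.comp_differentiableOn (hol_smooth hO h3).2.2).clm_apply
        (h2.hol.comp h3 hm)
    · refine (norm_add_le _ _).trans (add_le_add (h1.bd x hx) ((proj_norm _ _).1.trans ?_))
      refine (cwreal_two ((B.S.G.near _ hl x (hs (hs1 hx))).2.2.1.trans (B.S.G.Lsz hl).1) _).2.trans ?_
      linarith [h2.bd _ (hm hx)]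
    · rw [ShF.bmul, map_add, h1.mem x hx, (proj_piI _ _).1]
    · rw [cw_rho_mul]
      linarith [norm_add_le (B.rho l') (B.rho l), h1.rho, h2.rho, norm_nonneg (B.rho l')]
    · refine (setLIntegral_mono' hO.measurableSet fun x hx =>
        ShF.ht_mul hl hl' (hs1 hx) (h2.bd _ (hm hx))).trans ?_
      rw [lintegral_add_right _ measurable_const, lintegral_add_left (B.shf.ht_meas l b),
        setLIntegral_const]
      exact add_le_add (add_le_add h1.int ((hc _ hl O O' hO.measurableSet (hs1.trans hs) hm _).trans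
        (mul_le_mul_right h2.int _))) le_rfl
  · have h3 := (B.S.G.γ_hol (B.S.G.lg.inv l.1)).mono (hs2.trans hs)
    refine ⟨((piI B.S.Q.I).differentiable.comp_differentiableOn ((((B.S.G.N_hol l.1).mono
      (hs1.trans hs)).comp h3 hm).clm_apply (h1.hol.comp h3 hm))).neg, fun x hx => ?_,
      fun x hx => ?_, ?_, ?_⟩
    · rw [ShF.binv, norm_neg]
      refine (proj_norm _ _).1.trans ((cwreal_two ((B.S.G.near _ hl _
        (hs (hs1 (hm hx)))).2.2.2.trans (B.S.G.Lsz hl).1) _).2.trans ?_)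
      linarith [h1.bd _ (hm hx)]
    · rw [ShF.binv, map_neg, (proj_piI _ _).1]
    · rw [cw_rho_inv, norm_neg]
      linarith [h1.rho, norm_nonneg (B.rho l)]
    · refine (setLIntegral_mono' hO.measurableSet fun x hx =>
        ShF.ht_inv hl hl' (hs2 hx) (hs1 (hm hx)) (h1.bd _ (hm hx))).trans ?_
      rw [lintegral_add_right _ measurable_const, setLIntegral_const]
      exact add_le_add ((hc _ hl' O' O hO.measurableSet (hs2.trans hs) hm _).trans
        (mul_le_mul_right h1.int _)) le_rfl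

end Big

end Pool.Agent.CL
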