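import Pool.Agent.K.MP_63735c_ag.C96

/-! The tube argument: from walks to relatively dense returns. -/

open scoped ContDiff Matrix ENNReal
open Set Metric MeasureTheory Filter Topology

namespace Pool.Agent.CL

open Pool.Agent.SPF

variable {n : ℕ} {X : Type} [TopologicalSpace X] [MeasurableSpace X]

theorem cwtube_proj {I : Finset (Fin n)} {b ρ : E n} (hb : piI I b = b) (hρ : ρ ∈ RI I) :
    ‖b‖ ≤ ‖b - Complex.I • ρ‖ ∧ ‖ρ‖ ≤ ‖b - Complex.I • ρ‖ := by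
  have h1 := proj_norm I (b - Complex.I • ρ)
  have h2 : tauI I b = 0 := hb ▸ (proj_piI I b).2.1
  rw [map_sub, map_sub, hb, h2, (RI.proj hρ).2.2.2.1, (RI.proj hρ).2.2.2.2.1, sub_zero, zero_sub,
    norm_neg] at h1
  exact ⟨h1.1, h1.2.1⟩

theorem cwtube_abs {I : Finset (Fin n)} {τ : E n} (hτ : τ ∈ RI I) {H T : ℝ} (hT : 0 < T)
    (hH : 0 ≤ H) (h : ∀ i ∈ I, ∀ σ : Bool, ∃ τ' e : E n, ‖τ'‖ ≤ H ∧ n * ‖e‖ ≤ T / 2 ∧
      0 ≤ ip (τ' - τ) (cond σ T (-T) • (Pi.single i 1 : E n) + e)) : ‖τ‖ ≤ 3 * H := by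
  have key : ‖τ‖ ≤ 3 / 2 * H + ‖τ‖ / 2 := by
    refine (pi_norm_le_iff_of_nonneg (by positivity)).2 fun i => ?_
    by_cases hi : i ∈ I
    · have h1 : ∀ σ : Bool, cond σ T (-T) * (τ i).re ≤ T * (3 / 2 * H + ‖τ‖ / 2) := by
        intro σ
        obtain ⟨τ', e, a1, a2, a3⟩ := h i hi σ
        have a4 : ip (Pi.single i 1) (τ' - τ) = (τ' i).re - (τ i).re := by
          simp [ip, Pi.single_apply, apply_ite Complex.re]
        rw [(ip_basic _ _ e 0).1, (ip_basic _ _ _ 0).2.2.1, (ip_basic _ _ e _).2.2.2.2.1, a4] at a3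
        have a5 := (le_abs_self _).trans (ip_basic e (τ' - τ) e 0).2.2.2.2.2.1
        have a6 := mul_le_mul a2 ((norm_sub_le τ' τ).trans (add_le_add_left a1 _)) (norm_nonneg _)
          (by positivity)
        have a7 := abs_le.1 ((Complex.abs_re_le_norm _).trans ((norm_le_pi_norm τ' i).trans a1))
        cases σ <;> simp only [cond] at a3 ⊢ <;> nlinarith [a7.1, a7.2]
      have h2 := h1 true
      have h3 := h1 false
      simp only [cond] at h2 h3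
      rw [← Complex.abs_re_eq_norm.2 (hτ i).1, abs_le]
      constructor <;> nlinarith
    · rw [(hτ i).2 hi, norm_zero]
      positivity
  linarith

variable [T2Space X]

theorem Setup.kk_closed (S : Setup n X) {δ C : ℝ} {X0 : Set (Fin S.Q.r0 → ℂ)} (hδ : δ ≤ S.G.lg.ε)
    {A : Set (E n)} {ξ y : E n} (hy : y ∈ ball S.G.y0 (2 * S.G.r)) (h : y ∈ closure A)
    (hA : ∀ x ∈ A, ∃ j g, S.G.lg.sz j ≤ δ ∧ Germ S.M.T S.M.Ψ x g ∧ g.γ =ᶠ[𝓝 x] S.G.γ j ∧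
      ‖g.α x - ξ‖ ≤ C ∧ S.chi j ∈ X0) :
    ∃ j g, S.G.lg.sz j ≤ δ ∧ Germ S.M.T S.M.Ψ y g ∧ g.γ =ᶠ[𝓝 y] S.G.γ j ∧
      ‖g.α y - ξ‖ ≤ C ∧ S.chi j ∈ X0 := by
  obtain ⟨U, hU, hUy⟩ := mem_closure_iff_ultrafilter.1 h
  have : Nonempty (Ret n) := ⟨Ret.per 0⟩
  have : Nonempty S.G.G := ⟨S.G.lg.one⟩
  choose! j g hg using hA
  have hU' : ∀ᶠ x in (U : Filter (E n)), x ∈ A := hU
  obtain ⟨ξ', h1, hξ⟩ := (isCompact_closedBall ξ C).ultrafilter_le_nhds'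
    (U.map fun x => (g x).α x) (hU'.mono fun x a => mem_closedBall_iff_norm.2 (hg x a).2.2.2.1)
  obtain ⟨y', h2, hγ⟩ := (isCompact_closedBall S.G.y0 (4 * S.G.r)).ultrafilter_le_nhds'
    (U.map fun x => (g x).γ x) ((hU'.and (hUy (isOpen_ball.mem_nhds hy))).mono fun x a =>
      mem_of_eq_of_mem (hg x a.1).2.2.1.eq_of_nhds (S.G.mem_T ((hg x a.1).1.trans hδ) a.2))
  obtain ⟨g', ρ, hρ, h3, h4, -, h5⟩ := S.M.lim (x := fun x => x) (S.G.ball_sub hy)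
    (S.G.sub h2) hUy (hU'.mono fun x a => (hg x a).2.1) hξ hγ
  obtain ⟨ρ', hρ', h6⟩ := Metric.isOpen_iff.1 (isOpen_ball.inter isOpen_ball) y
    ⟨hy, mem_ball_self hρ⟩
  obtain ⟨x, a1, a2, a3⟩ := (hU'.and (h5.and (hUy (ball_mem_nhds y hρ')))).exists
  refine ⟨j x, g', (hg x a1).1, ⟨_, h3, mem_ball_self hρ⟩, mem_of_superset (ball_mem_nhds y hρ')
    (hol_ident isOpen_ball (convex_ball y ρ').isPreconnected (h3.γ_hol.mono fun z hz => (h6 hz).2)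
      ((S.G.γ_hol _).mono fun z hz => (h6 hz).1) a3
      (EventuallyEq.trans (a2.2.mono fun w a => a.1.symm) (hg x a1).2.2.1)),
    h4 ▸ mem_closedBall_iff_norm.1 h1, (hg x a1).2.2.2.2⟩

namespace Big

variable {B : Big n X} {l : B.Lab} {y c : E n} {g : Ret n} {b : E n → E n} {s q m : ℝ}

omit [T2Space X] in
theorem cw_mom (h : B.shf.At l y g) (ξ : E n) :
    B.A.r (g.act (y, ξ)) = B.A.r (y, ξ) + B.rho l := by
  funext k
  by_cases hk : k ∈ B.S.Q.I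
  · have h1 : B.H.Fn _ _ - B.H.Fn _ _ = _ := h.sh.self_of_nhds ξ (B.H.imom k)
    rw [B.H.mom, B.H.mom] at h1
    refine Complex.ext ?_ ?_ <;> simp [rho, hk, ← h1, (B.A.r_mem _ k).1]
  · simp [rho, hk, (B.A.r_mem _ k).2 hk]

omit [T2Space X] in
theorem Rl.ae {O : Set (E n)} {h : ℝ≥0∞} (h1 : B.Rl l O b m h) (hO : MeasurableSet O)
    (hh : h ≠ ⊤) : ∀ᵐ x, x ∈ O → B.shf.ht l b x ≠ ⊤ :=
  (ae_restrict_iff' hO).1 ((ae_lt_top (B.shf.ht_meas l b)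
    (ne_top_of_le_ne_top hh h1.int)).mono fun _ a => a.ne)

/-- An open set whose small translates lie at bounded height for finitely many labels. -/
theorem exists_V {ι : Type} [Finite ι] (hc : ball c s ⊆ ball B.S.G.y0 (2 * B.S.G.r)) (hq : 0 < q)
    (hs : 2 * q ≤ s) {l : ι → B.Lab} {b : ι → E n → E n} {h : ι → ℝ≥0∞} (hh : ∀ k, h k ≠ ⊤)
    (hl : ∀ k, B.S.G.lg.sz (l k).1 ≤ B.S.G.lg.ε) (h1 : ∀ k, B.Rl (l k) (ball c s) (b k) m (h k))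
    (hm : 0 ≤ m) {Z : Set (E n)} (hZ : Z.Finite) :
    ∃ V, ∃ H ≥ (0 : ℝ), IsOpen V ∧ V.Nonempty ∧ V ⊆ ball c (q / 2) ∧ ∀ y ∈ V, ∀ z ∈ Z, ∀ u : E n,
      ‖z‖ ≤ q / 4 → ‖u‖ ≤ q / 4 → (∀ i ∈ B.S.Q.I, u i = 0) →
      ∀ k, B.shf.ht (l k) (b k) (y + z + u) ≤ ENNReal.ofReal H := by
  have h2 : ∀ᵐ x, ∀ k, ∀ z ∈ Z, x + z ∈ ball c s → B.shf.ht (l k) (b k) (x + z) ≠ ⊤ :=
    ae_all_iff.2 fun k => (ae_ball_iff hZ.countable).2 fun z _ =>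
      (measurePreserving_add_right volume z).quasiMeasurePreserving.ae
        ((h1 k).ae measurableSet_ball (hh k))
  obtain ⟨x, hx, h3⟩ := Measure.exists_mem_of_measure_ne_zero_of_ae
    (measure_ball_pos volume c (half_pos hq)).ne' (ae_restrict_of_ae h2)
  obtain ⟨T, hT⟩ := ((finite_univ.prod hZ).image fun p : ι × E n =>
    (B.shf.ht (l p.1) (b p.1) (x + p.2)).toReal).bddAbove
  have bl : ∀ {y z u : E n}, y ∈ ball c (q / 2) → ‖z‖ ≤ q / 4 → ‖u‖ ≤ q / 4 →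
      y + z + u ∈ ball c q := fun {y z u} a1 a2 a3 => by
    rw [mem_ball_iff_norm] at a1 ⊢
    rw [show y + z + u - c = (y - c) + z + u by abel]
    linarith [norm_add₃_le (a := y - c) (b := z) (c := u)]
  have h4 : ∀ᶠ y in 𝓝 x, y ∈ ball c (q / 2) ∧ ∀ k, ∀ z ∈ Z, ‖z‖ ≤ q / 4 →
      B.shf.ht (l k) (b k) (y + z) < ENNReal.ofReal (|T| + 1) := by
    refine (isOpen_ball.eventually_mem hx).and (eventually_all.2 fun k =>
      (eventually_all_finite hZ).2 fun z hz => eventually_imp_distrib_left.2 fun a => ?_)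
    refine (continuous_add_const z).continuousAt.eventually (B.shf.ht_usc _ _ (x + z) _ ?_)
    have h5 := h3 k z hz (ball_subset_ball (by linarith)
      (add_zero (x + z) ▸ bl hx a (by rw [norm_zero]; positivity)))
    refine (ENNReal.ofReal_toReal h5).symm.trans_lt
      ((ENNReal.ofReal_lt_ofReal_iff (by positivity)).2 ?_)
    linarith [hT ⟨(k, z), ⟨trivial, hz⟩, rfl⟩, le_abs_self T]
  obtain ⟨V, h5, hV, hxV⟩ := _root_.eventually_nhds_iff.1 h4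
  have hK : 0 ≤ m / q := by positivity
  refine ⟨V, |T| + 1 + 2 * (n * (m / q) * (q / 4)), by positivity, hV, ⟨x, hxV⟩,
    fun y hy => (h5 y hy).1, fun y hy z hz u a1 a2 a3 k => ?_⟩
  refine (ShF.slice isOpen_ball hc (h1 k).hol (hl k) a3 hK (by positivity) (fun σ hσ => ?_)
    ((h5 y hy).2 k z hz a1).le).trans (ENNReal.ofReal_le_ofReal (by gcongr))
  have h6 := bl (u := σ • u) (h5 y hy).1 a1 (by
    rw [norm_smul, Real.norm_of_nonneg hσ.1]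
    exact (mul_le_of_le_one_left (norm_nonneg _) hσ.2).trans a2)
  have h7 : ball (y + z + σ • u) q ⊆ ball c s := ball_subset_ball' (by linarith [mem_ball.1 h6])
  exact ⟨ball_subset_ball (by linarith) h6,
    cauchy hq ((h1 k).hol.mono h7) fun w hw => (h1 k).bd w (h7 hw)⟩

theorem tube_pt {l : Fin n × Bool → B.Lab} {b : Fin n × Bool → E n → E n} {H T β Cw Cr : ℝ}
    (hy : y ∈ ball B.S.G.y0 (2 * B.S.G.r)) (hT : 0 < T) (hH : 0 ≤ H)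
    (hl : ∀ k, B.S.G.lg.sz (l k).1 ≤ B.S.G.lg.ε)
    (h1 : ∀ k, B.shf.ht (l k) (b k) y ≤ ENNReal.ofReal H)
    (h3 : ∀ k, k.1 ∈ B.S.Q.I → ‖b k y‖ ≤ β ∧
      ‖B.rho (l k) + cond k.2 T (-T) • (Pi.single k.1 1 : E n)‖ ≤ Cw)
    (h4 : ∀ z ∈ closedBall B.S.G.y0 (4 * B.S.G.r), ‖B.A.r (z, 0)‖ ≤ Cr) {ξ : E n}
    (h5 : ‖piI B.S.Q.I ξ‖ ≤ 2 * Cw) (h6 : ‖B.A.r (y, ξ)‖ ≤ Cw)
    (h7 : n * (B.A.C * (2 * Cw + β) + Cr + 2 * Cw) ≤ T / 2) : ‖tauI B.S.Q.I ξ‖ ≤ 3 * H := by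
  refine cwtube_abs (tauI_mem _ ξ) hT hH fun i hi σ => ?_
  obtain ⟨g, hg⟩ := ShF.exists_of_ht (ne_top_of_le_ne_top ENNReal.ofReal_ne_top (h1 (i, σ)))
  have a1 := h1 (i, σ)
  rw [hg.ht_eq, ← ofReal_norm, ENNReal.ofReal_le_ofReal_iff hH] at a1
  have hv := RI.sub (tauI_mem B.S.Q.I (g.α y)) (tauI_mem B.S.Q.I ξ)
  have hyT := B.S.G.ball_sub hy
  obtain ⟨v, ev⟩ : ∃ v, v = tauI B.S.Q.I (g.α y) - tauI B.S.Q.I ξ := ⟨_, rfl⟩
  refine ⟨_, B.A.r (y, ξ + Complex.I • v) - B.A.r (y, ξ) - cond σ T (-T) • (Pi.single i 1 : E n),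
    a1, le_trans (mul_le_mul_of_nonneg_left ?_ (Nat.cast_nonneg n)) h7, ?_⟩
  · have a2 := cw_mom hg.1 (g.α y)
    rw [cw_act0 hg.1] at a2
    have a3 := B.A.r_RI y hyT (g.α y) _ (RI.sub (reI_mem B.S.Q.I ξ) (reI_mem B.S.Q.I (g.α y)))
    have a4 := B.A.r_lip y hyT (ξ + Complex.I • v)
      (g.α y + (reI B.S.Q.I ξ - reI B.S.Q.I (g.α y)))
    have a5 : ξ + Complex.I • v - (g.α y + (reI B.S.Q.I ξ - reI B.S.Q.I (g.α y))) =
        piI B.S.Q.I ξ - b (i, σ) y := by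
      rw [← hg.2.eq_of_nhds, ev, smul_sub]
      linear_combination (exp := 1) split_I B.S.Q.I ξ - split_I B.S.Q.I (g.α y)
    rw [a3, a5] at a4
    have a6 := mul_le_mul_of_nonneg_left ((norm_sub_le _ _).trans (add_le_add h5 (h3 (i, σ) hi).1))
      (zero_le_one.trans B.A.C_ge)
    have a7 : B.A.r (y, ξ + Complex.I • v) - B.A.r (y, ξ) - cond σ T (-T) • (Pi.single i 1 : E n) =
        (B.A.r (y, ξ + Complex.I • v) - B.A.r (y, g.α y)) + B.A.r (B.S.G.γ (l (i, σ)).1 y, 0) -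
        (B.rho (l (i, σ)) + cond σ T (-T) • (Pi.single i 1 : E n)) - B.A.r (y, ξ) := by
      rw [a2]
      abel
    rw [a7]
    refine (norm_sub_le _ _).trans ((add_le_add_left ((norm_sub_le _ _).trans
      (add_le_add_left (norm_add_le _ _) _)) _).trans ?_)
    linarith [h4 _ (B.S.G.mem_T (hl (i, σ)) hy), (h3 (i, σ) hi).2]
  · rw [add_sub_cancel, ← ev]
    exact B.A.mon0 y hyT ξ v (ev ▸ hv)

omit [T2Space X] in
/-- One return that is close to the target. -/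
theorem tube_ret {Cw H : ℝ} {ξ : E n} (hy : y ∈ ball B.S.G.y0 (2 * B.S.G.r))
    (hl : B.S.G.lg.sz l.1 ≤ B.S.G.lg.ε) (h1 : B.shf.ht l b y ≠ ⊤)
    (h2 : ‖b y - Complex.I • B.rho l - (piI B.S.Q.I ξ - Complex.I • -B.A.r (y, ξ))‖ ≤ Cw)
    (h3 : B.S.Pres l.1 → ∀ ξ', ‖piI B.S.Q.I ξ'‖ ≤ 2 * Cw → ‖B.A.r (B.S.G.γ l.1 y, ξ')‖ ≤ Cw →
      ‖tauI B.S.Q.I ξ'‖ ≤ H) : ∃ g, B.shf.At l y g ∧ ‖g.α y - ξ‖ ≤ 1 + H + 3 * Cw := by
  obtain ⟨g0, h0⟩ := ShF.exists_of_ht h1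
  obtain ⟨g, hg, -, h4⟩ := h0.red hl hy ξ
  have hp := hg.1.pres hl hy
  have e : b y - Complex.I • B.rho l - (piI B.S.Q.I ξ - Complex.I • -B.A.r (y, ξ)) =
      piI B.S.Q.I (g.α y - ξ) - Complex.I • (B.A.r (y, ξ) + B.rho l) := by
    rw [map_sub, hg.2.eq_of_nhds, smul_add, smul_neg]
    abel
  obtain ⟨a1, a2⟩ := cwtube_proj (proj_piI B.S.Q.I (g.α y - ξ)).1
    (RI.add (B.A.r_mem (y, ξ)) (cw_rho_mem l))
  rw [← e] at a1 a2
  have a3 := cwreal_fix (fun v hv => (hp.e hl hy hv).1) (ξ - g.α y)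
  have a4 := (cwreal_two ((B.S.G.near _ hl y hy).2.2.2.trans (B.S.G.Lsz hl).1)
    (piI B.S.Q.I (ξ - g.α y))).2
  have a5 : ‖piI B.S.Q.I (ξ - g.α y)‖ ≤ Cw := by
    rw [← norm_neg, ← map_neg, neg_sub]
    exact a1.trans h2
  have a6 := proj_norm B.S.Q.I (B.S.G.N l.1 y (piI B.S.Q.I (ξ - g.α y)))
  have a7 := h3 hp (B.S.G.N l.1 y (ξ - g.α y)) (by rw [a3.1]; linarith [a6.1]) (by
    have := cw_mom hg.1 ξ
    rw [Ret.act, hg.1.gam.eq_of_nhds, (hg.1.N hy).eq_of_nhds] at this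
    exact this ▸ a2.trans h2)
  refine ⟨g, hg.1, (norm_le_I B.S.Q.I _).trans ?_⟩
  have a8 : tauI B.S.Q.I (g.α y - ξ) = tauI B.S.Q.I (B.S.G.N l.1 y (piI B.S.Q.I (ξ - g.α y))) -
      tauI B.S.Q.I (B.S.G.N l.1 y (ξ - g.α y)) := by
    rw [a3.2, sub_add_cancel_left, ← map_neg, neg_sub]
  rw [a8]
  linarith [norm_sub_le (tauI B.S.Q.I (B.S.G.N l.1 y (piI B.S.Q.I (ξ - g.α y))))
    (tauI B.S.Q.I (B.S.G.N l.1 y (ξ - g.α y))), a6.2.1]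

theorem kk_of_walk {ρ δ Cw C4 : ℝ} {X0 : Set (Fin B.S.Q.r0 → ℂ)}
    {W : Set (B.Lab × (E n → E n) × ℝ)} (hc : ball c s ⊆ ball B.S.G.y0 (B.S.G.r / 2)) (hq : 0 < q)
    (hs : 2 * q ≤ s) (hρ : 4 * ρ ≤ q) (hε : ρ ≤ B.S.G.lg.ε) (hδ : ρ ≤ δ) (hX : X0.Finite)
    (hW : W.Countable) (h1 : ∀ p ∈ W, B.S.G.lg.L * B.S.G.lg.sz p.1.1 ≤ ρ ∧ B.S.chi p.1.1 ∈ X0 ∧
      ∃ h ≠ ⊤, B.Rl p.1 (ball c s) p.2.1 p.2.2 h) (h2 : 8 * n * B.A.C * q * C4 ≤ s)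
    (hC4 : 0 ≤ C4) (hCw : 0 ≤ Cw) (h3 : ∀ y ∈ ball c q, ∀ x ∈ EE B.S.Q.I, ∃ p ∈ W,
      ‖p.2.1 y - Complex.I • B.rho p.1 - x‖ ≤ Cw ∧ p.2.2 ≤ C4 * ‖x‖ + Cw) : B.S.KK δ := by
  have hr := B.S.G.r_pos
  have hA := B.A.C_ge
  have hc2 : ball c s ⊆ ball B.S.G.y0 (2 * B.S.G.r) := hc.trans (ball_subset_ball (by linarith))
  have sz : ∀ p ∈ W, B.S.G.lg.sz p.1.1 ≤ ρ := fun p hp =>
    (le_mul_of_one_le_left (B.S.G.lg.sz_nonneg _) B.S.G.lg.L_ge).trans (h1 p hp).1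
  obtain ⟨Cr, hCr⟩ := (isCompact_closedBall B.S.G.y0 (4 * B.S.G.r)).exists_bound_of_continuousOn
    (f := fun z => B.A.r (z, 0)) (B.A.r_smooth.continuousOn.comp (by fun_prop)
      fun z hz => ⟨B.S.G.sub hz, trivial⟩)
  have hCr0 : 0 ≤ Cr := (norm_nonneg _).trans (hCr _ (mem_closedBall_self (by linarith)))
  obtain ⟨T, eT⟩ : ∃ T, T = 4 * (n * (B.A.C * (4 * Cw) + Cr + 2 * Cw)) + 1 := ⟨_, rfl⟩
  have hT : 0 < T := by rw [eT]; positivity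
  have c0 : c ∈ ball c q := mem_ball_self hq
  choose p hp p1 p2 using fun k : Fin n × Bool => h3 c c0
    (Complex.I • cond k.2 T (-T) • (Pi.single k.1 1 : E n)) fun i _ => by
      by_cases hi : i = k.1 <;> simp [hi]
  choose hh hh1 hh2 using fun k => (h1 _ (hp k)).2.2
  have p3 : ∀ k, (p k).2.2 ≤ C4 * T + Cw := fun k => (p2 k).trans (le_of_eq (by
    rw [norm_smul, norm_smul, Complex.norm_I, Pi.norm_single, norm_one, one_mul, mul_one]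
    cases k.2 <;> simp [abs_of_pos hT]))
  obtain ⟨D, hD⟩ := B.S.disp
  obtain ⟨V, H, hH, V1, V2, V3, V4⟩ := exists_V hc2 hq hs hh1 (fun k => (sz _ (hp k)).trans hε)
    (fun k => (hh2 k).mono subset_rfl (p3 k) le_rfl) (by positivity)
    (hX.image fun χ => D χ - piI B.S.Q.I (D χ))
  have V5 : V ⊆ ball c s := V3.trans (ball_subset_ball (by linarith))
  have g1 : ∀ᵐ y, ∀ p ∈ W, y ∈ ball c s → B.shf.ht p.1 p.2.1 y ≠ ⊤ :=
    (ae_ball_iff hW).2 fun p hp => (h1 p hp).2.2.elim fun _ a => a.2.ae measurableSet_ball a.1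
  refine ⟨V, 1 + 3 * H + 3 * Cw, X0, V1, V2, V5.trans hc, hX, fun y hy ξ => ?_⟩
  suffices h : ∃ j g, B.S.G.lg.sz j ≤ ρ ∧ _ by
    obtain ⟨j, g, a, a'⟩ := h
    exact ⟨j, g, a.trans hδ, a'⟩
  refine B.S.kk_closed hε (hc2 (V5 hy)) ((Measure.dense_of_ae g1).open_subset_closure_inter V1 hy)
    fun y ⟨hy, hy'⟩ => ?_
  obtain ⟨w, hw, w1, -⟩ := h3 y (ball_subset_ball (by linarith) (V3 hy)) _
    (EE_of (proj_piI B.S.Q.I ξ).1 (RI.neg (B.A.r_mem (y, ξ))))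
  obtain ⟨w2, w3, k, -, w4⟩ := h1 w hw
  have w5 := (sz w hw).trans hε
  have y2 := hc2 (V5 hy)
  refine (tube_ret (H := 3 * H) y2 w5 (hy' w hw (V5 hy)) w1
    fun hP ξ' b1 b2 => ?_).elim fun g a => ⟨_, g, sz w hw, a.1.germ, a.1.gam, a.2, w3⟩
  have d1 : ‖B.S.G.γ w.1.1 y - y‖ ≤ q / 4 := (B.S.G.near _ w5 y y2).1.trans (by linarith)
  have d2 : B.S.G.γ w.1.1 y ∈ ball c q := B.S.G.maps w5
    ((ball_subset_ball (by linarith : q / 2 ≤ s)).trans hc2) (by linarith) (V3 hy)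
  have d3 : B.S.G.γ w.1.1 y = y + (D (B.S.chi w.1.1) - piI B.S.Q.I (D (B.S.chi w.1.1))) +
      piI B.S.Q.I (B.S.G.γ w.1.1 y - y) := by
    funext i
    by_cases hi : i ∈ B.S.Q.I
    · simp [piI_apply, hi, ← hD _ hP w5 y y2 i hi]
    · simp [piI_apply, hi]
  have d4 : ‖D (B.S.chi w.1.1) - piI B.S.Q.I (D (B.S.chi w.1.1))‖ ≤ q / 4 := by
    refine (pi_norm_le_iff_of_nonneg (by positivity)).2 fun i => ?_
    by_cases hi : i ∈ B.S.Q.I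
    · rw [Pi.sub_apply, piI_apply, if_pos hi, sub_zero, ← hD _ hP w5 y y2 i hi]
      exact (norm_le_pi_norm (B.S.G.γ w.1.1 y - y) i).trans d1
    · rw [Pi.sub_apply, piI_apply, if_neg hi, sub_self, norm_zero]
      positivity
  have d5 := V4 y hy _ ⟨_, w3, rfl⟩ _ d4 ((proj_norm _ _).1.trans d1)
    fun i hi => by rw [piI_apply, if_pos hi]
  rw [← d3] at d5
  have hs0 : 0 < s := by linarith
  have hqs : 2 * q / s ≤ 1 := (div_le_one hs0).2 hs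
  refine tube_pt (β := 2 * Cw + 2 * q / s * (C4 * T)) (hc2 (ball_subset_ball (by linarith) d2)) hT
    hH (fun k => (sz _ (hp k)).trans hε) d5 (fun k hk => ?_) hCr b1 b2 ?_
  · have e1 := cwtube_proj ((hh2 k).mem c (mem_ball_self hs0))
      (RI.add (cw_rho_mem (p k).1) (RI.smul (RI.single hk) (cond k.2 T (-T))))
    rw [smul_add, ← sub_sub] at e1
    refine ⟨?_, e1.2.trans (p1 k)⟩
    have e2 := hol_lip (by linarith : s / 2 < s) (hh2 k).hol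
      (fun x hx => ((hh2 k).bd x hx).trans (p3 k))
      (ball_subset_ball (by linarith) d2) (mem_ball_self (by linarith))
    have e3 : (C4 * T + Cw) / (s - s / 2) * ‖B.S.G.γ w.1.1 y - c‖ ≤ 2 * q / s * (C4 * T + Cw) := by
      calc _ ≤ (C4 * T + Cw) / (s - s / 2) * q := mul_le_mul_of_nonneg_left
            (mem_ball_iff_norm.1 d2).le (div_nonneg (by positivity) (by linarith))
        _ = _ := by field_simp; ring
    have e4 := mul_le_of_le_one_left hCw hqs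
    linarith [norm_sub_norm_le ((p k).2.1 (B.S.G.γ w.1.1 y)) ((p k).2.1 c), e1.1.trans (p1 k)]
  · have e1 : n * B.A.C * (2 * q / s * C4) ≤ 1 / 4 := by
      rw [div_mul_eq_mul_div, ← mul_div_assoc, div_le_iff₀ hs0]
      linarith
    have e2 := mul_le_mul_of_nonneg_right e1 hT.le
    linarith

end Big

end Pool.Agent.CL
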